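import Pool.Agent.Lib.MP_bae66e_nt.Mg.G074
import Pool.Agent.Lib.MP_bae66e_nt.LL.K.KDefs

section

/-!
# Module E: definitions for the error term
-/

set_option autoImplicit false

open Finset

namespace Pool.Agent.Lib.MP_bae66e_nt.LL

/-- The tuple `(0, h_1, …, h_k)`. -/
def hh {k : ℕ} (h : Fin k → ℤ) : Fin (k + 1) → ℤ := Fin.cons 0 h

/-- The shifts: all tuples of integers in `[-Y, Y]`. -/
noncomputable def shifts (k Y : ℕ) : Finset (Fin k → ℤ) :=
  Fintype.piFinset (fun _ : Fin k => Finset.Icc (-(Y : ℤ)) (Y : ℤ))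

/-- The weight `∏_{i < l} ρ(|h_i - h_l|)^{-B}` over the pairs of `(0, h_1, …, h_k)`. -/
noncomputable def FF {k : ℕ} (B : ℕ) (h : Fin k → ℤ) : ℝ :=
  ∏ i : Fin (k + 1), ∏ l ∈ Finset.Ioi i, (1 / rho (hh h i - hh h l).natAbs) ^ B

/-- The sum over the classes `b` modulo `W₀` of the absolute value of
`∑_{n ≡ b (W₀), 1 ≤ n ≤ Y} (∏_i f(n - h_i) - ∏_i g(n - h_i))`. -/
noncomputable def DD {k : ℕ} (Y W₀ : ℕ) (f g : ℤ → ℝ) (h : Fin k → ℤ) : ℝ :=
  ∑ b ∈ Finset.range W₀, |∑ n ∈ (Finset.Icc (1 : ℤ) (Y : ℤ)).filter (fun n => n ≡ (b : ℤ) [ZMOD (W₀ : ℤ)]),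
    ((∏ i, f (n - hh h i)) - ∏ i, g (n - hh h i))|

/-- The number of residue classes modulo `p` occupied by the tuple `h`. -/
noncomputable def nup (p : ℕ) {j : ℕ} (h : Fin j → ℤ) : ℕ :=
  (Finset.univ.image (fun i => h i % (p : ℤ))).card

/-- The local factors at the primes dividing `W` of the singular series of the tuple `h`. -/
noncomputable def SS (W : ℕ) {j : ℕ} (h : Fin j → ℤ) : ℝ :=
  ∏ p ∈ W.primeFactors, (1 - (nup p h : ℝ) / p) / (1 - 1 / (p : ℝ)) ^ j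

/-- `∑ 1/p` over the primes `p > w` dividing `d`. -/
noncomputable def sig (w d : ℕ) : ℝ := ∑ p ∈ d.primeFactors.filter (fun p => w < p), 1 / (p : ℝ)

/-- The mixed tuple of functions `(g, …, g, f - g, f, …, f)` with `f - g` in position `l`. -/
noncomputable def mix {k : ℕ} (f g : ℤ → ℝ) (l : Fin (k + 1)) (i : Fin (k + 1)) : ℤ → ℝ :=
  if i < l then g else if i = l then (fun n => f n - g n) else f

/-- The energy condition of module P for a given pair `W`, `Y`. -/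
def EnergyLe (W Y : ℕ) (ε : ℝ) : Prop :=
  ∑ d ∈ (Finset.Icc (-(Y : ℤ)) (Y : ℤ)).filter (fun d => d ≠ 0),
    (corr Y (fun n => fP Y n - gW W Y n) d) ^ 2 ≤ ε * (Y : ℝ) ^ 3

end Pool.Agent.Lib.MP_bae66e_nt.LL
end

section

/-!
# E02: the second moment over the shifts
-/

set_option autoImplicit false

open Finset

namespace Pool.Agent.Lib.MP_bae66e_nt.LL

private lemma E02_shift (Y : ℕ) (G : ℤ → ℝ) (hG : ∀ n : ℤ, ¬ (1 ≤ n ∧ n ≤ (Y : ℤ)) → G n = 0)
    (n : ℤ) (hn : n ∈ Finset.Icc (1 : ℤ) (Y : ℤ)) :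
    ∑ d ∈ Finset.Icc (-(Y : ℤ)) (Y : ℤ), G (n + d) = ∑ m ∈ Finset.Icc (1 : ℤ) (Y : ℤ), G m := by
  rw [Finset.mem_Icc] at hn
  have h1 : ∑ d ∈ Finset.Icc (-(Y : ℤ)) (Y : ℤ), G (n + d) =
      ∑ m ∈ Finset.Icc (n - Y) (n + Y), G m := by
    apply Finset.sum_nbij' (fun d => n + d) (fun m => m - n)
    · intro d hd
      rw [Finset.mem_Icc] at hd ⊢
      constructor <;> linarith [hd.1, hd.2]
    · intro m hm
      rw [Finset.mem_Icc] at hm ⊢
      constructor <;> linarith [hm.1, hm.2]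
    · intro d _
      ring
    · intro m _
      ring
    · intro d _
      rfl
  rw [h1]
  symm
  apply Finset.sum_subset
  · intro m hm
    rw [Finset.mem_Icc] at hm ⊢
    constructor <;> linarith [hm.1, hm.2]
  · intro m _ hm
    apply hG
    rwa [Finset.mem_Icc] at hm

private lemma E02_shift' (Y : ℕ) (G : ℤ → ℝ) (hG : ∀ n : ℤ, ¬ (1 ≤ n ∧ n ≤ (Y : ℤ)) → G n = 0)
    (n : ℤ) (hn : n ∈ Finset.Icc (1 : ℤ) (Y : ℤ)) :
    ∑ u ∈ Finset.Icc (-(Y : ℤ)) (Y : ℤ), G (n - u) = ∑ m ∈ Finset.Icc (1 : ℤ) (Y : ℤ), G m := by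
  rw [← E02_shift Y G hG n hn]
  apply Finset.sum_nbij' (fun d => -d) (fun d => -d)
  · intro d hd
    rw [Finset.mem_Icc] at hd ⊢
    constructor <;> linarith [hd.1, hd.2]
  · intro d hd
    rw [Finset.mem_Icc] at hd ⊢
    constructor <;> linarith [hd.1, hd.2]
  · intro d _
    ring
  · intro d _
    ring
  · intro d _
    rw [sub_eq_add_neg]

private lemma E02_class (W : ℕ) (hW : 1 ≤ W) (n n' : ℤ) :
    ∑ b ∈ Finset.range W, ((if n ≡ (b : ℤ) [ZMOD (W : ℤ)] then (1 : ℝ) else 0) *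
      (if n' ≡ (b : ℤ) [ZMOD (W : ℤ)] then (1 : ℝ) else 0)) =
      if (W : ℤ) ∣ n' - n then 1 else 0 := by
  have hW0 : (0 : ℤ) < W := by exact_mod_cast hW
  by_cases h : (W : ℤ) ∣ n' - n
  · rw [if_pos h]
    have h0 := Int.emod_nonneg n hW0.ne'
    have h1 := Int.emod_lt_of_pos n hW0
    have hb0 : (((n % W).toNat : ℕ) : ℤ) = n % W := Int.toNat_of_nonneg h0
    have hnn : n ≡ (((n % W).toNat : ℕ) : ℤ) [ZMOD (W : ℤ)] := by
      rw [hb0]
      exact (Int.mod_modEq n W).symm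
    have hn'n : n' ≡ n [ZMOD (W : ℤ)] := (Int.modEq_iff_dvd.mpr (by
      have := h.neg_right
      simpa using this)).trans (Int.ModEq.refl n)
    rw [Finset.sum_eq_single ((n % W).toNat)]
    · rw [if_pos hnn, if_pos (hn'n.trans hnn), mul_one]
    · intro b hb hne
      rw [Finset.mem_range] at hb
      have hnb : ¬ n ≡ (b : ℤ) [ZMOD (W : ℤ)] := by
        intro hh
        apply hne
        unfold Int.ModEq at hh
        have h2 : (b : ℤ) % W = b := Int.emod_eq_of_lt (by positivity) (by exact_mod_cast hb)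
        rw [h2] at hh
        omega
      rw [if_neg hnb, zero_mul]
    · intro hb
      rw [Finset.mem_range] at hb
      omega
  · rw [if_neg h]
    apply Finset.sum_eq_zero
    intro b _
    by_cases h1 : n ≡ (b : ℤ) [ZMOD (W : ℤ)]
    · by_cases h2 : n' ≡ (b : ℤ) [ZMOD (W : ℤ)]
      · exfalso
        exact h (Int.modEq_iff_dvd.mp (h1.trans h2.symm))
      · rw [if_neg h2, mul_zero]
    · rw [if_neg h1, zero_mul]

/-- For `g` supported in `[1, Y]` and `n, n' ∈ [1, Y]`: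
`∑_{|u| ≤ Y} g(n - u) g(n' - u) = corr Y g (n' - n)` (substitute `m = n - u`). -/
lemma sum_shift_eq_corr (Y : ℕ) (g : ℤ → ℝ) (hg : ∀ n : ℤ, ¬ (1 ≤ n ∧ n ≤ (Y : ℤ)) → g n = 0)
    (n n' : ℤ) (hn : n ∈ Finset.Icc (1 : ℤ) (Y : ℤ)) (hn' : n' ∈ Finset.Icc (1 : ℤ) (Y : ℤ)) :
    ∑ u ∈ Finset.Icc (-(Y : ℤ)) (Y : ℤ), g (n - u) * g (n' - u) = corr Y g (n' - n) := by
  have h1 := E02_shift' Y (fun m => g m * g (m + (n' - n))) (fun m hm => by
    rw [hg m hm, zero_mul]) n hn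
  unfold corr
  rw [← h1]
  apply Finset.sum_congr rfl
  intro u _
  have e : n - u + (n' - n) = n' - u := by ring
  simp only [e]

/-- `corr` is even for functions supported in `[1, Y]`. -/
lemma corr_neg (Y : ℕ) (g : ℤ → ℝ) (hg : ∀ n : ℤ, ¬ (1 ≤ n ∧ n ≤ (Y : ℤ)) → g n = 0) (d : ℤ) :
    corr Y g (-d) = corr Y g d := by
  have key : ∀ e : ℤ, corr Y g e =
      ∑ m ∈ (Finset.Icc (1 : ℤ) (Y : ℤ)).filter (fun m => m + e ∈ Finset.Icc (1 : ℤ) (Y : ℤ)),
        g m * g (m + e) := by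
    intro e
    unfold corr
    symm
    apply Finset.sum_filter_of_ne
    intro m _ hm
    by_contra hcon
    apply hm
    rw [hg (m + e) (by rwa [Finset.mem_Icc] at hcon), mul_zero]
  rw [key, key]
  apply Finset.sum_nbij' (fun m => m + -d) (fun m => m + d)
  · intro m hm
    rw [Finset.mem_filter] at hm ⊢
    refine ⟨hm.2, ?_⟩
    rw [neg_add_cancel_right]
    exact hm.1
  · intro m hm
    rw [Finset.mem_filter] at hm ⊢
    refine ⟨hm.2, ?_⟩
    rw [add_neg_cancel_right]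
    exact hm.1
  · intro m _
    ring
  · intro m _
    ring
  · intro m _
    rw [neg_add_cancel_right, mul_comm]

/-- The second moment: for functions `g_0, …, g_k` supported in `[1, Y]`,
`∑_{h} ∑_{b mod W} (∑_{n ≡ b (W)} ∏_i g_i(n - h_i))² ≤ ∑_{|d| ≤ Y} ∏_i |corr Y g_i d|`.

PROOF. Expand the square: `∑_{n, n' ∈ [1, Y], n ≡ n' (W)} g_0(n) g_0(n') ∏_{i ≥ 1} ∑_{h_i}
g_i(n - h_i) g_i(n' - h_i)` (`Finset.prod_univ_sum` for the exchange of the sum over the tuples `h`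
and the product, `Fin.prod_univ_succ`, `hh h 0 = 0`), `= ∑_{n ≡ n'} g_0(n) g_0(n')
∏_{i ≥ 1} corr Y g_i (n' - n)` by `sum_shift_eq_corr`. Group by `d = n' - n ∈ [-Y, Y]`:
`∑_{n} g_0(n) g_0(n + d) = corr Y g_0 d` (support of `g_0`), so it equals
`∑_{|d| ≤ Y, W ∣ d} ∏_i corr Y g_i d`, at most the right-hand side. -/
theorem second_moment_le {k : ℕ} (Y W : ℕ) (hW : 1 ≤ W) (g : Fin (k + 1) → ℤ → ℝ)
    (hg : ∀ i, ∀ n : ℤ, ¬ (1 ≤ n ∧ n ≤ (Y : ℤ)) → g i n = 0) :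
    ∑ h ∈ shifts k Y, ∑ b ∈ Finset.range W,
        (∑ n ∈ (Finset.Icc (1 : ℤ) (Y : ℤ)).filter (fun n => n ≡ (b : ℤ) [ZMOD (W : ℤ)]),
          ∏ i, g i (n - hh h i)) ^ 2
      ≤ ∑ d ∈ Finset.Icc (-(Y : ℤ)) (Y : ℤ), ∏ i, |corr Y (g i) d| := by
  set S : Finset ℤ := Finset.Icc (1 : ℤ) (Y : ℤ) with hS
  set P : (Fin k → ℤ) → ℤ → ℝ := fun h n => ∏ i, g i (n - hh h i) with hP
  set Q : ℤ → ℝ := fun d => ∏ i : Fin k, corr Y (g i.succ) d with hQ
  -- step 1
  have step1 : ∀ h ∈ shifts k Y, ∑ b ∈ Finset.range W,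
      (∑ n ∈ S.filter (fun n => n ≡ (b : ℤ) [ZMOD (W : ℤ)]), P h n) ^ 2 =
      ∑ n ∈ S, ∑ n' ∈ S, (if (W : ℤ) ∣ n' - n then (1 : ℝ) else 0) * (P h n * P h n') := by
    intro h _
    have e1 : ∀ b ∈ Finset.range W,
        (∑ n ∈ S.filter (fun n => n ≡ (b : ℤ) [ZMOD (W : ℤ)]), P h n) ^ 2 =
        ∑ n ∈ S, ∑ n' ∈ S, ((if n ≡ (b : ℤ) [ZMOD (W : ℤ)] then (1 : ℝ) else 0) *
          (if n' ≡ (b : ℤ) [ZMOD (W : ℤ)] then (1 : ℝ) else 0)) * (P h n * P h n') := by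
      intro b _
      rw [Finset.sum_filter, sq, Finset.sum_mul_sum]
      apply Finset.sum_congr rfl
      intro n _
      apply Finset.sum_congr rfl
      intro n' _
      split_ifs <;> ring
    rw [Finset.sum_congr rfl e1, Finset.sum_comm]
    apply Finset.sum_congr rfl
    intro n _
    rw [Finset.sum_comm]
    apply Finset.sum_congr rfl
    intro n' _
    rw [← Finset.sum_mul, E02_class W hW]
  -- step 2
  have step2 : ∀ n ∈ S, ∀ n' ∈ S, ∑ h ∈ shifts k Y, P h n * P h n' =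
      g 0 n * g 0 n' * Q (n' - n) := by
    intro n hn n' hn'
    have e1 : ∀ h ∈ shifts k Y, P h n * P h n' =
        (g 0 n * g 0 n') * ∏ i : Fin k, (g i.succ (n - h i) * g i.succ (n' - h i)) := by
      intro h _
      simp only [hP]
      rw [Fin.prod_univ_succ, Fin.prod_univ_succ, Finset.prod_mul_distrib]
      have e2 : hh h 0 = 0 := by
        unfold hh
        rw [Fin.cons_zero]
      have e3 : ∀ i : Fin k, hh h i.succ = h i := by
        intro i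
        unfold hh
        rw [Fin.cons_succ]
      simp only [e2, e3, sub_zero]
      ring
    rw [Finset.sum_congr rfl e1, ← Finset.mul_sum]
    congr 1
    unfold shifts
    rw [← Finset.prod_univ_sum (fun _ : Fin k => Finset.Icc (-(Y : ℤ)) (Y : ℤ))
      (fun i u => g i.succ (n - u) * g i.succ (n' - u))]
    simp only [hQ]
    apply Finset.prod_congr rfl
    intro i _
    exact sum_shift_eq_corr Y (g i.succ) (hg i.succ) n n' hn hn'
  -- step 3
  have step3 : ∀ n ∈ S, ∑ n' ∈ S, (if (W : ℤ) ∣ n' - n then (1 : ℝ) else 0) *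
        (g 0 n * g 0 n' * Q (n' - n)) =
      ∑ d ∈ Finset.Icc (-(Y : ℤ)) (Y : ℤ), (if (W : ℤ) ∣ d then (1 : ℝ) else 0) *
        (g 0 n * g 0 (n + d) * Q d) := by
    intro n hn
    have h1 := E02_shift Y (fun m => (if (W : ℤ) ∣ m - n then (1 : ℝ) else 0) *
        (g 0 n * g 0 m * Q (m - n))) (fun m hm => by
      rw [hg 0 m hm]
      ring) n hn
    rw [hS, ← h1]
    apply Finset.sum_congr rfl
    intro d _
    simp only [add_sub_cancel_left]
  calc ∑ h ∈ shifts k Y, ∑ b ∈ Finset.range W,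
        (∑ n ∈ S.filter (fun n => n ≡ (b : ℤ) [ZMOD (W : ℤ)]), P h n) ^ 2
      = ∑ h ∈ shifts k Y, ∑ n ∈ S, ∑ n' ∈ S,
          (if (W : ℤ) ∣ n' - n then (1 : ℝ) else 0) * (P h n * P h n') :=
        Finset.sum_congr rfl step1
    _ = ∑ n ∈ S, ∑ n' ∈ S, (if (W : ℤ) ∣ n' - n then (1 : ℝ) else 0) *
          (g 0 n * g 0 n' * Q (n' - n)) := by
        rw [Finset.sum_comm]
        apply Finset.sum_congr rfl
        intro n hn
        rw [Finset.sum_comm]
        apply Finset.sum_congr rfl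
        intro n' hn'
        rw [← Finset.mul_sum, step2 n hn n' hn']
    _ = ∑ n ∈ S, ∑ d ∈ Finset.Icc (-(Y : ℤ)) (Y : ℤ), (if (W : ℤ) ∣ d then (1 : ℝ) else 0) *
          (g 0 n * g 0 (n + d) * Q d) := Finset.sum_congr rfl step3
    _ = ∑ d ∈ Finset.Icc (-(Y : ℤ)) (Y : ℤ), (if (W : ℤ) ∣ d then (1 : ℝ) else 0) *
          (corr Y (g 0) d * Q d) := by
        rw [Finset.sum_comm]
        apply Finset.sum_congr rfl
        intro d _
        rw [← Finset.mul_sum, ← Finset.sum_mul]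
        rfl
    _ ≤ ∑ d ∈ Finset.Icc (-(Y : ℤ)) (Y : ℤ), ∏ i, |corr Y (g i) d| := by
        apply Finset.sum_le_sum
        intro d _
        have e1 : ∏ i, |corr Y (g i) d| = |corr Y (g 0) d * Q d| := by
          rw [Fin.prod_univ_succ, abs_mul]
          congr 1
          simp only [hQ]
          rw [Finset.abs_prod]
        rw [e1]
        split_ifs
        · rw [one_mul]
          exact le_abs_self _
        · rw [zero_mul]
          exact abs_nonneg _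

end Pool.Agent.Lib.MP_bae66e_nt.LL
end

section

/-!
# E04: correlations of the primes
-/

set_option autoImplicit false

open Finset

namespace Pool.Agent.Lib.MP_bae66e_nt.LL

/-- `fP Y`, `gW W Y` and their difference are supported in `[1, Y]`. -/
lemma fP_support (Y : ℕ) (n : ℤ) (hn : ¬ (1 ≤ n ∧ n ≤ (Y : ℤ))) : fP Y n = 0 := by
  unfold fP
  rw [if_neg]
  rintro ⟨h1, h2, _⟩
  exact hn ⟨h1, h2⟩

lemma gW_support (W Y : ℕ) (n : ℤ) (hn : ¬ (1 ≤ n ∧ n ≤ (Y : ℤ))) : gW W Y n = 0 := by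
  unfold gW
  rw [if_neg hn]

private lemma E04_fP_nonneg (Y : ℕ) (n : ℤ) : 0 ≤ fP Y n := by
  unfold fP
  split_ifs
  · exact Real.log_natCast_nonneg Y
  · exact le_rfl

private lemma E04_fP_le (Y : ℕ) (n : ℤ) : fP Y n ≤ Real.log Y := by
  unfold fP
  split_ifs
  · exact le_rfl
  · exact Real.log_natCast_nonneg Y

private lemma E04_gW_nonneg (W Y : ℕ) (n : ℤ) : 0 ≤ gW W Y n := by
  unfold gW nu
  split_ifs
  · positivity
  · exact le_rfl
  · exact le_rfl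

private lemma E04_gW_le (W Y : ℕ) (hW : 1 ≤ W) (n : ℤ) : gW W Y n ≤ W := by
  unfold gW nu
  have h1 : (1 : ℝ) ≤ Nat.totient W := by
    exact_mod_cast Nat.totient_pos.mpr hW
  split_ifs
  · exact div_le_self (Nat.cast_nonneg W) h1
  · exact Nat.cast_nonneg W
  · exact Nat.cast_nonneg W

private lemma E04_corr_zero (Y : ℕ) (g : ℤ → ℝ) (M : ℝ) (hg : ∀ n, |g n| ≤ M) :
    |corr Y g 0| ≤ Y * M ^ 2 := by
  unfold corr
  have h1 : ∀ n ∈ Finset.Icc (1 : ℤ) (Y : ℤ), |g n * g (n + 0)| ≤ M ^ 2 := by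
    intro n _
    rw [add_zero, abs_mul, sq]
    exact mul_le_mul (hg n) (hg n) (abs_nonneg _) ((abs_nonneg _).trans (hg n))
  calc |∑ n ∈ Finset.Icc (1 : ℤ) (Y : ℤ), g n * g (n + 0)|
      ≤ ∑ n ∈ Finset.Icc (1 : ℤ) (Y : ℤ), |g n * g (n + 0)| := Finset.abs_sum_le_sum_abs _ _
    _ ≤ ∑ _n ∈ Finset.Icc (1 : ℤ) (Y : ℤ), M ^ 2 := Finset.sum_le_sum h1
    _ = Y * M ^ 2 := by
        rw [Finset.sum_const, Int.card_Icc, nsmul_eq_mul]
        have e : ((Y : ℤ) + 1 - 1).toNat = Y := by omega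
        rw [e]

private lemma E04_corr_nonneg (Y : ℕ) (d : ℤ) : 0 ≤ corr Y (fP Y) d := by
  unfold corr
  exact Finset.sum_nonneg fun n _ => mul_nonneg (E04_fP_nonneg Y n) (E04_fP_nonneg Y (n + d))

private lemma E04_pos (Y : ℕ) (hY : 2 ≤ Y) (D : ℕ) (hD : 1 ≤ D) :
    corr Y (fP Y) (D : ℤ) ≤ 2000 * (1 / rho D) ^ 2 * Y := by
  have hlog : 0 < Real.log Y := Real.log_pos (by exact_mod_cast (by omega : 1 < Y))
  have hcast : corr Y (fP Y) (D : ℤ) =
      ∑ m ∈ Finset.Ioc 0 Y, fP Y (m : ℤ) * fP Y ((m : ℤ) + D) := by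
    unfold corr
    apply Finset.sum_nbij' (fun n : ℤ => n.toNat) (fun m : ℕ => (m : ℤ))
    · intro n hn
      rw [Finset.mem_Icc] at hn
      rw [Finset.mem_Ioc]
      omega
    · intro m hm
      rw [Finset.mem_Ioc] at hm
      rw [Finset.mem_Icc]
      omega
    · intro n hn
      rw [Finset.mem_Icc] at hn
      exact Int.toNat_of_nonneg (by omega)
    · intro m _
      exact Int.toNat_natCast m
    · intro n hn
      rw [Finset.mem_Icc] at hn
      have e : ((n.toNat : ℕ) : ℤ) = n := Int.toNat_of_nonneg (by omega)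
      rw [e]
  have hterm : ∀ m ∈ Finset.Ioc 0 Y, fP Y (m : ℤ) * fP Y ((m : ℤ) + D) ≤
      if m.Prime ∧ (1 * m + D).Prime then (Real.log Y) ^ 2 else 0 := by
    intro m _
    split_ifs with h
    · rw [sq]
      exact mul_le_mul (E04_fP_le Y _) (E04_fP_le Y _) (E04_fP_nonneg Y _) hlog.le
    · apply le_of_eq
      by_cases h1 : m.Prime
      · have h2 : ¬ (1 * m + D).Prime := fun h2 => h ⟨h1, h2⟩
        have h3 : fP Y ((m : ℤ) + D) = 0 := by
          unfold fP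
          rw [if_neg]
          rintro ⟨_, _, h4⟩
          apply h2
          have e : ((m : ℤ) + D).toNat = 1 * m + D := by omega
          rwa [e] at h4
        rw [h3, mul_zero]
      · have h3 : fP Y (m : ℤ) = 0 := by
          unfold fP
          rw [if_neg]
          rintro ⟨_, _, h4⟩
          apply h1
          rwa [Int.toNat_natCast] at h4
        rw [h3, zero_mul]
  have hcard := card_pairsN_le D Y hD hY
  have hrho := rho_pos D
  calc corr Y (fP Y) (D : ℤ) = ∑ m ∈ Finset.Ioc 0 Y, fP Y (m : ℤ) * fP Y ((m : ℤ) + D) := hcast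
    _ ≤ ∑ m ∈ Finset.Ioc 0 Y, if m.Prime ∧ (1 * m + D).Prime then (Real.log Y) ^ 2 else 0 :=
        Finset.sum_le_sum hterm
    _ = ((pairsN D Y).card : ℝ) * (Real.log Y) ^ 2 := by
        rw [← Finset.sum_filter, Finset.sum_const, nsmul_eq_mul]
        rfl
    _ ≤ (2000 * Y / ((rho D) ^ 2 * (Real.log Y) ^ 2)) * (Real.log Y) ^ 2 :=
        mul_le_mul_of_nonneg_right hcard (by positivity)
    _ = 2000 * (1 / rho D) ^ 2 * Y := by
        field_simp

/-- `|corr Y (fP Y) d| ≤ 2000 ρ(|d|)^{-2} Y` for `d ≠ 0`, `Y ≥ 2`.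

PROOF. By `corr_neg` let `d > 0`. `corr Y (fP Y) d = (log Y)² #{n ∈ [1, Y] : n, n + d primes ≤ Y}`
`≤ (log Y)² #(pairsN d Y) ≤ 2000 Y / ρ(d)²` by `card_pairsN_le` (`Energy.lean`). -/
lemma corr_fP_le (Y : ℕ) (hY : 2 ≤ Y) (d : ℤ) (hd : d ≠ 0) :
    |corr Y (fP Y) d| ≤ 2000 * (1 / rho d.natAbs) ^ 2 * Y := by
  rw [abs_of_nonneg (E04_corr_nonneg Y d)]
  have hD : 1 ≤ d.natAbs := by omega
  rcases Int.natAbs_eq d with h | h
  · have h1 := E04_pos Y hY d.natAbs hD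
    rw [← h] at h1
    exact h1
  · have h1 := E04_pos Y hY d.natAbs hD
    rw [← corr_neg Y (fP Y) (fP_support Y), ← h] at h1
    exact h1

/-- The trivial bound at `d = 0`: `0 ≤ corr Y (fP Y) 0 ≤ Y (log Y)²`. -/
lemma corr_fP_zero (Y : ℕ) (hY : 1 ≤ Y) : |corr Y (fP Y) 0| ≤ Y * (Real.log Y) ^ 2 := by
  apply E04_corr_zero
  intro n
  rw [abs_of_nonneg (E04_fP_nonneg Y n)]
  exact E04_fP_le Y n

/-- `|corr Y (gW W Y) 0| ≤ Y W²` (as `0 ≤ gW ≤ W`; `W / φ(W) ≤ W` for `W ≥ 1`). -/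
lemma corr_gW_zero (W Y : ℕ) (hW : 1 ≤ W) : |corr Y (gW W Y) 0| ≤ Y * (W : ℝ) ^ 2 := by
  apply E04_corr_zero
  intro n
  rw [abs_of_nonneg (E04_gW_nonneg W Y n)]
  exact E04_gW_le W Y hW n

/-- `|corr Y (fP Y - gW W Y) 0| ≤ Y (log Y + W)²`. -/
lemma corr_diff_zero (W Y : ℕ) (hW : 1 ≤ W) (hY : 1 ≤ Y) :
    |corr Y (fun n => fP Y n - gW W Y n) 0| ≤ Y * (Real.log Y + W) ^ 2 := by
  apply E04_corr_zero
  intro n
  have h1 := E04_fP_nonneg Y n
  have h2 := E04_fP_le Y n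
  have h3 := E04_gW_nonneg W Y n
  have h4 := E04_gW_le W Y hW n
  have h5 : (0 : ℝ) ≤ W := Nat.cast_nonneg W
  have h6 := Real.log_natCast_nonneg Y
  rw [abs_le]
  constructor <;> linarith

end Pool.Agent.Lib.MP_bae66e_nt.LL
end

section

/-!
# N02: the Laplace transform of `fW`
-/

set_option autoImplicit false

open Finset Filter Topology MeasureTheory Complex

namespace Pool.Agent.Lib.MP_bae66e_nt.LL

/-- For `re s > 1`, `∑ c(n) n^{-s} = s ∫_0^∞ fW(u) exp(-(s-1) u) du`.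

PROOF. `LSeries_eq_mul_integral_of_nonneg` (Mathlib, `SumCoeff`, with `r = 1`; the bound `O(n^1)`
follows from `hC` and `psum c n = ∑ k ∈ Icc 1 n, c k`) gives
`LSeries c s = s * ∫ t in Ioi 1, (∑ k ∈ Icc 1 ⌊t⌋₊, c k) * t ^ (-(s + 1))`.
Substitute `t = exp u`, `dt = exp u du` (e.g. `MeasureTheory.integral_image_eq_integral_abs_deriv_smul`
with `Real.exp '' Ioi 0 = Ioi 1`), and use
`psum c (exp u) * exp(u)^(-(s+1)) * exp u = fW c u * exp(-(s-1) u)`, since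
`fW c u = exp(-u) psum c (exp u)`: the exponent is `-(s+1) u + u = -u - (s - 1) u`. -/
lemma laplace_eq (c : ℕ → ℝ) (hc : ∀ n, 0 ≤ c n) (C : ℝ)
    (hC : ∀ x : ℝ, 0 ≤ x → psum c x ≤ C * x) (s : ℂ) (hs : 1 < s.re) :
    LSeries (fun n => (c n : ℂ)) s
      = s * ∫ u in Set.Ioi (0 : ℝ), (fW c u : ℂ) * Complex.exp (-(s - 1) * (u : ℂ)) := by
  have hO : (fun n : ℕ => ∑ k ∈ Icc 1 n, c k) =O[atTop] fun n => (n : ℝ) ^ (1 : ℝ) := by
    apply Asymptotics.IsBigO.of_bound C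
    filter_upwards with n
    rw [Real.rpow_one, Real.norm_of_nonneg (Finset.sum_nonneg fun k _ => hc k),
      Real.norm_of_nonneg (Nat.cast_nonneg n)]
    have h := hC n (Nat.cast_nonneg n)
    unfold psum at h
    rwa [Nat.floor_natCast] at h
  rw [LSeries_eq_mul_integral_of_nonneg c zero_le_one hs hO hc]
  congr 1
  have h := MeasureTheory.integral_comp_exp_Ioi
    (fun t : ℝ => (∑ k ∈ Icc 1 ⌊t⌋₊, (c k : ℂ)) * (t : ℂ) ^ (-(s + 1))) 0
  rw [Real.exp_zero] at h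
  rw [← h]
  apply setIntegral_congr_fun measurableSet_Ioi
  intro u _
  have h1 : ((Real.exp u : ℝ) : ℂ) ≠ 0 := by
    exact_mod_cast (Real.exp_pos u).ne'
  have h2 : ((Real.exp u : ℝ) : ℂ) ^ (-(s + 1)) = Complex.exp (u * (-(s + 1))) := by
    rw [Complex.cpow_def_of_ne_zero h1, ← Complex.ofReal_log (Real.exp_pos u).le, Real.log_exp]
  simp only
  rw [h2]
  unfold fW psum
  rw [Complex.real_smul]
  push_cast
  have h3 : Complex.exp (u : ℂ) * Complex.exp (u * (-(s + 1))) =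
      Complex.exp (-(u : ℂ)) * Complex.exp (-(s - 1) * (u : ℂ)) := by
    rw [← Complex.exp_add, ← Complex.exp_add]
    congr 1
    ring
  calc Complex.exp (u : ℂ) * ((∑ k ∈ Icc 1 ⌊Real.exp u⌋₊, (c k : ℂ)) *
        Complex.exp (u * (-(s + 1))))
      = (∑ k ∈ Icc 1 ⌊Real.exp u⌋₊, (c k : ℂ)) *
        (Complex.exp (u : ℂ) * Complex.exp (u * (-(s + 1)))) := by ring
    _ = _ := by rw [h3]; ring

/-- The transform of `fW - A`. Let `L(s) = ∑ c(n) n^{-s} = G(s) + A / (s - 1)` for `re s > 1`. Then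
for `δ > 0` and real `t`, with `s = 1 + δ + i t`,
`∫_0^∞ (fW(u) - A) exp(-(δ + i t) u) du = (G(s) - A) / s`.

PROOF. The integral splits: `fW` is bounded and measurable (N01), `exp(-(δ + i t) u)` is integrable
on `(0, ∞)`. By `laplace_eq`, `∫ fW exp(-(s-1)u) = L(s) / s`; `∫_0^∞ A exp(-(s-1) u) du = A / (s - 1)`
(`integral_exp_mul_complex_Ioi` or similar in Mathlib). And
`(G + A/(s-1)) / s - A/(s-1) = (G - A) / s` since `1/(s (s-1)) - 1/(s-1) = -1/s`. -/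
lemma transform_eq (c : ℕ → ℝ) (hc : ∀ n, 0 ≤ c n) (C : ℝ)
    (hC : ∀ x : ℝ, 0 ≤ x → psum c x ≤ C * x) (A : ℝ) (G : ℂ → ℂ)
    (hL : ∀ s : ℂ, 1 < s.re → LSeries (fun n => (c n : ℂ)) s = G s + (A : ℂ) / (s - 1))
    (δ t : ℝ) (hδ : 0 < δ) :
    ∫ u in Set.Ioi (0 : ℝ), ((fW c u - A : ℝ) : ℂ) * Complex.exp (-(δ + t * I) * (u : ℂ))
      = (G (1 + δ + t * I) - A) / (1 + δ + t * I) := by
  have hre : (-((δ : ℂ) + t * I)).re < 0 := by simpa using hδ
  have hint : IntegrableOn (fun u : ℝ => Complex.exp (-((δ : ℂ) + t * I) * (u : ℂ)))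
      (Set.Ioi (0 : ℝ)) := integrableOn_exp_mul_complex_Ioi hre 0
  have hfm : Measurable (fun u : ℝ => ((fW c u : ℝ) : ℂ)) :=
    Complex.measurable_ofReal.comp (fW_measurable c hc)
  have hint1 : IntegrableOn (fun u : ℝ => ((fW c u : ℝ) : ℂ) *
      Complex.exp (-((δ : ℂ) + t * I) * (u : ℂ))) (Set.Ioi (0 : ℝ)) := by
    apply Integrable.bdd_mul (c := C) hint hfm.aestronglyMeasurable
    filter_upwards with u
    rw [Complex.norm_real, Real.norm_of_nonneg (fW_nonneg c hc u)]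
    exact fW_le c C hC u
  have hint2 : IntegrableOn (fun u : ℝ => (A : ℂ) *
      Complex.exp (-((δ : ℂ) + t * I) * (u : ℂ))) (Set.Ioi (0 : ℝ)) := hint.const_mul (A : ℂ)
  have h1 : ∫ u in Set.Ioi (0 : ℝ), ((fW c u - A : ℝ) : ℂ) *
      Complex.exp (-((δ : ℂ) + t * I) * (u : ℂ)) =
      (∫ u in Set.Ioi (0 : ℝ), ((fW c u : ℝ) : ℂ) *
        Complex.exp (-((δ : ℂ) + t * I) * (u : ℂ))) -
      ∫ u in Set.Ioi (0 : ℝ), (A : ℂ) * Complex.exp (-((δ : ℂ) + t * I) * (u : ℂ)) := by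
    rw [← integral_sub hint1 hint2]
    congr 1
    funext u
    push_cast
    ring
  have hs1 : 1 < ((1 : ℂ) + δ + t * I).re := by simpa using hδ
  have hs0 : (1 : ℂ) + δ + t * I ≠ 0 := by
    intro h
    rw [h] at hs1
    norm_num at hs1
  have hd0 : (δ : ℂ) + t * I ≠ 0 := by
    intro h
    rw [h] at hre
    simp at hre
  have h2 := laplace_eq c hc C hC (1 + δ + t * I) hs1
  rw [hL _ hs1] at h2
  have e1 : (1 : ℂ) + δ + t * I - 1 = δ + t * I := by ring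
  rw [e1] at h2
  have h3 : ∫ u in Set.Ioi (0 : ℝ), (A : ℂ) * Complex.exp (-((δ : ℂ) + t * I) * (u : ℂ)) =
      A / (δ + t * I) := by
    have h4 := integral_exp_mul_complex_Ioi hre 0
    have h5 : ∫ u in Set.Ioi (0 : ℝ), (A : ℂ) * Complex.exp (-((δ : ℂ) + t * I) * (u : ℂ)) =
        A * ∫ u in Set.Ioi (0 : ℝ), Complex.exp (-((δ : ℂ) + t * I) * (u : ℂ)) :=
      integral_const_mul _ _
    rw [h5, h4, Complex.ofReal_zero, mul_zero, Complex.exp_zero, neg_div_neg_eq, mul_one_div]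
  have h6 : (∫ u in Set.Ioi (0 : ℝ), ((fW c u : ℝ) : ℂ) *
        Complex.exp (-((δ : ℂ) + t * I) * (u : ℂ))) =
      (G (1 + δ + t * I) + A / (δ + t * I)) / (1 + δ + t * I) := by
    rw [h2, mul_div_cancel_left₀ _ hs0]
  rw [h1, h3, h6]
  field_simp
  ring

end Pool.Agent.Lib.MP_bae66e_nt.LL
end

section

/-!
# Module B: definitions for the block argument
-/

set_option autoImplicit false

open Finset

namespace Pool.Agent.Lib.MP_bae66e_nt.LL

/-- The primes in `(x, x + L]`. -/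
noncomputable def QQ (x L : ℕ) : Finset ℕ := (Finset.Ioc x (x + L)).filter Nat.Prime

/-- The indicator function of the primes in `[1, y]`. -/
noncomputable def pv (y : ℕ) (n : ℤ) : ℝ := if 1 ≤ n ∧ n ≤ (y : ℤ) ∧ n.toNat.Prime then 1 else 0

/-- The model weight `gW W y n / log y`. -/
noncomputable def vv (W y : ℕ) (n : ℤ) : ℝ := gW W y n / Real.log y

/-- `(1 - s)^N`, `N` the number of `q ∈ Q` such that `m - q` is a prime in `[1, y]`. -/
noncomputable def zs (s : ℝ) (y : ℕ) (Q : Finset ℕ) (m : ℤ) : ℝ := ∏ q ∈ Q, (1 - s * pv y (m - q))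

/-- The local intensity `λ(m) = ∑_{q ∈ Q} vv W y (m - q)`. -/
noncomputable def lamQ (W y : ℕ) (Q : Finset ℕ) (m : ℤ) : ℝ := ∑ q ∈ Q, vv W y (m - q)

/-- The elementary symmetric polynomials. -/
noncomputable def esy {ι : Type*} (Q : Finset ι) (a : ι → ℝ) (j : ℕ) : ℝ :=
  ∑ T ∈ Finset.powersetCard j Q, ∏ q ∈ T, a q

/-- The integers `m ≡ a (W)` of the extended block `(x, x + L + y]`. -/
noncomputable def extC (x L y W a : ℕ) : Finset ℤ :=
  (Finset.Ioc (x : ℤ) ((x + L + y : ℕ) : ℤ)).filter (fun m => m ≡ (a : ℤ) [ZMOD (W : ℤ)])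

/-- The intensity of the class `a` in the block of the primes `Q`. -/
noncomputable def UU (W y : ℕ) (Q : Finset ℕ) (a : ℕ) : ℝ :=
  ∑ q ∈ Q, nu W ((a : ℤ) - q) / Real.log y

/-- The error of order `j` for a set of primes `Q` and a set of integers `S`. -/
noncomputable def ErrJ (W y : ℕ) (Q : Finset ℕ) (S : Finset ℤ) (j : ℕ) : ℝ :=
  |∑ T ∈ Finset.powersetCard j Q, ∑ m ∈ S, ((∏ q ∈ T, pv y (m - q)) - ∏ q ∈ T, vv W y (m - q))|

/-- The shifts with positive distinct entries. -/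
noncomputable def shiftsP (k Y : ℕ) : Finset (Fin k → ℤ) :=
  (shifts k Y).filter (fun h => Function.Injective (hh h) ∧ ∀ i, 1 ≤ h i)

end Pool.Agent.Lib.MP_bae66e_nt.LL
end
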