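import Pool.Agent.Lib.MP_bae66e_nt.Mg.G074

section

/-!
# A1a: expansion of the variance (finite sums only)
-/

set_option autoImplicit false

namespace Pool.Agent.E3

open Finset
open Pool.Agent.Lib.MP_bae66e_nt.LL (corr)

/-- the correlations of a function on the natural numbers (supported in `[1, N)`) -/
noncomputable def cc (f : ℕ → ℝ) (N d : ℕ) : ℝ := ∑ n ∈ range N, f n * f (n + d)

private theorem A1a_aux (f : ℕ → ℝ) (N H t t' : ℕ) (h0 : f 0 = 0) (hN : ∀ n, N ≤ n → f n = 0)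
    (htt : t ≤ t') (ht' : t' ≤ H) :
    ∑ m ∈ range (N + H), f (m - t) * f (m - t') = cc f N (t' - t) := by
  unfold cc
  have h1 : N + H = t' + (N + (H - t')) := by omega
  rw [h1, Finset.sum_range_add, Finset.sum_range_add]
  have h2 : ∑ x ∈ range t', f (x - t) * f (x - t') = 0 := by
    apply Finset.sum_eq_zero
    intro x hx
    rw [mem_range] at hx
    have : x - t' = 0 := by omega
    rw [this, h0, mul_zero]
  have h3 : ∑ x ∈ range (H - t'), f (t' + (N + x) - t) * f (t' + (N + x) - t') = 0 := by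
    apply Finset.sum_eq_zero
    intro x _
    rw [hN (t' + (N + x) - t') (by omega), mul_zero]
  rw [h2, h3, zero_add, add_zero]
  apply Finset.sum_congr rfl
  intro n _
  have e1 : t' + n - t = n + (t' - t) := by omega
  have e2 : t' + n - t' = n := by omega
  rw [e1, e2, mul_comm]

/-- PROOF. By symmetry let `t ≤ t'`, `d = t' - t`. For `m < t'` the factor `f (m - t') = f 0` vanishes; substitute `m = n + t'`, `m - t = n + d`; the
`n` with `N ≤ n` do not contribute (`f n = 0`). -/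
theorem cc_shift (f : ℕ → ℝ) (N H t t' : ℕ) (h0 : f 0 = 0) (hN : ∀ n, N ≤ n → f n = 0) (ht : t ≤ H) (ht' : t' ≤ H) :
    ∑ m ∈ range (N + H), f (m - t) * f (m - t') = cc f N ((t : ℤ) - t').natAbs := by
  rcases le_total t t' with h | h
  · have e : ((t : ℤ) - t').natAbs = t' - t := by omega
    rw [e]
    exact A1a_aux f N H t t' h0 hN h ht'
  · have e : ((t : ℤ) - t').natAbs = t - t' := by omega
    rw [e, ← A1a_aux f N H t' t h0 hN h ht]
    apply Finset.sum_congr rfl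
    intro m _
    rw [mul_comm]

private theorem A1a_cast (H : ℕ) (F : ℤ → ℝ) :
    ∑ t ∈ Icc 1 H, F (t : ℤ) = ∑ n ∈ Icc (1 : ℤ) (H : ℤ), F n := by
  refine Finset.sum_nbij' (fun t : ℕ => (t : ℤ)) (fun n : ℤ => n.toNat) ?_ ?_ ?_ ?_ ?_
  · intro t ht
    rw [mem_Icc] at ht ⊢
    omega
  · intro n hn
    rw [mem_Icc] at hn ⊢
    omega
  · intro t _
    simp
  · intro n hn
    rw [mem_Icc] at hn
    exact Int.toNat_of_nonneg (by omega)
  · intro t _
    rfl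

/-- PROOF. For `t, t' ∈ [1, H]` put `d = t' - t ∈ [-H, H]`; `E (t + d) = 0` if `t + d ∉ [1, H]`. -/
theorem sum_pairs_corr (H : ℕ) (E : ℤ → ℝ) (hE : ∀ n : ℤ, ¬ (1 ≤ n ∧ n ≤ (H : ℤ)) → E n = 0) (g : ℕ → ℝ) :
    ∑ t ∈ Icc 1 H, ∑ t' ∈ Icc 1 H, E (t : ℤ) * E (t' : ℤ) * g ((t : ℤ) - t').natAbs
      = ∑ d ∈ Icc (-(H : ℤ)) (H : ℤ), corr H E d * g d.natAbs := by
  have h1 : ∑ t ∈ Icc 1 H, ∑ t' ∈ Icc 1 H, E (t : ℤ) * E (t' : ℤ) * g ((t : ℤ) - t').natAbs
      = ∑ n ∈ Icc (1 : ℤ) (H : ℤ), ∑ n' ∈ Icc (1 : ℤ) (H : ℤ), E n * E n' * g (n - n').natAbs := by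
    rw [← A1a_cast H (fun n => ∑ n' ∈ Icc (1 : ℤ) (H : ℤ), E n * E n' * g (n - n').natAbs)]
    apply Finset.sum_congr rfl
    intro t _
    exact A1a_cast H (fun n' => E (t : ℤ) * E n' * g ((t : ℤ) - n').natAbs)
  rw [h1]
  unfold corr
  simp only [Finset.sum_mul]
  rw [Finset.sum_comm (s := Icc (-(H : ℤ)) (H : ℤ))]
  apply Finset.sum_congr rfl
  intro n hn
  rw [mem_Icc] at hn
  have h2 : ∑ d ∈ Icc (-(H : ℤ)) (H : ℤ), E n * E (n + d) * g d.natAbs
      = ∑ n' ∈ Icc (n - H) (n + H), E n * E n' * g (n - n').natAbs := by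
    refine Finset.sum_nbij' (fun d : ℤ => n + d) (fun n' : ℤ => n' - n) ?_ ?_ ?_ ?_ ?_
    · intro d hd
      rw [mem_Icc] at hd ⊢
      omega
    · intro n' hn'
      rw [mem_Icc] at hn' ⊢
      omega
    · intro d _
      simp
    · intro n' _
      simp
    · intro d _
      have : (n - (n + d)).natAbs = d.natAbs := by omega
      simp only [this]
  rw [h2]
  apply Finset.sum_subset
  · intro x hx
    rw [mem_Icc] at hx ⊢
    omega
  · intro x _ hx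
    rw [mem_Icc] at hx
    rw [hE x hx, mul_zero, zero_mul]

/-- PROOF. For `m ≥ N + H` and `t ≤ H` we have `f (m - t) = 0`; so the sum over `M` is at most the sum over `range (N + H)` (squares
are nonnegative). Expand the square, exchange the sums, `cc_shift`, `sum_pairs_corr`. -/
theorem var_expand (H N : ℕ) (E : ℤ → ℝ) (hE : ∀ n : ℤ, ¬ (1 ≤ n ∧ n ≤ (H : ℤ)) → E n = 0) (f : ℕ → ℝ)
    (h0 : f 0 = 0) (hN : ∀ n, N ≤ n → f n = 0) (M : Finset ℕ) :
    ∑ m ∈ M, (∑ t ∈ Icc 1 H, E (t : ℤ) * f (m - t)) ^ 2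
      ≤ ∑ d ∈ Icc (-(H : ℤ)) (H : ℤ), corr H E d * cc f N d.natAbs := by
  have h1 : ∑ m ∈ M, (∑ t ∈ Icc 1 H, E (t : ℤ) * f (m - t)) ^ 2
      ≤ ∑ m ∈ range (N + H), (∑ t ∈ Icc 1 H, E (t : ℤ) * f (m - t)) ^ 2 := by
    have h2 : ∑ m ∈ M, (∑ t ∈ Icc 1 H, E (t : ℤ) * f (m - t)) ^ 2
        = ∑ m ∈ M.filter (fun m => m < N + H), (∑ t ∈ Icc 1 H, E (t : ℤ) * f (m - t)) ^ 2 := by
      rw [Finset.sum_filter]
      apply Finset.sum_congr rfl
      intro m _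
      split_ifs with hm
      · rfl
      · have h3 : ∑ t ∈ Icc 1 H, E (t : ℤ) * f (m - t) = 0 := by
          apply Finset.sum_eq_zero
          intro t ht
          rw [mem_Icc] at ht
          rw [hN (m - t) (by omega), mul_zero]
        rw [h3]
        norm_num
    rw [h2]
    apply Finset.sum_le_sum_of_subset_of_nonneg
    · intro m hm
      rw [mem_filter] at hm
      rw [mem_range]
      exact hm.2
    · intro m _ _
      positivity
  refine h1.trans (le_of_eq ?_)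
  rw [← sum_pairs_corr H E hE (cc f N)]
  have h4 : ∀ m ∈ range (N + H), (∑ t ∈ Icc 1 H, E (t : ℤ) * f (m - t)) ^ 2
      = ∑ t ∈ Icc 1 H, ∑ t' ∈ Icc 1 H, E (t : ℤ) * E (t' : ℤ) * (f (m - t) * f (m - t')) := by
    intro m _
    rw [sq, Finset.sum_mul_sum]
    apply Finset.sum_congr rfl
    intro t _
    apply Finset.sum_congr rfl
    intro t' _
    ring
  rw [Finset.sum_congr rfl h4, Finset.sum_comm]
  apply Finset.sum_congr rfl
  intro t ht
  rw [Finset.sum_comm]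
  apply Finset.sum_congr rfl
  intro t' ht'
  rw [mem_Icc] at ht ht'
  rw [← Finset.mul_sum, cc_shift f N H t t' h0 hN ht.2 ht'.2]

end Pool.Agent.E3
end

section

/-!
# A6: the function `E = fP - gW`
-/

set_option autoImplicit false

namespace Pool.Agent.E3

open Finset
open Pool.Agent.Lib.MP_bae66e_nt.LL (corr fP gW nu)

/-- PROOF. By definition of `fP` and `gW`. -/
theorem EE_supp (W H : ℕ) (n : ℤ) (hn : ¬ (1 ≤ n ∧ n ≤ (H : ℤ))) : fP H n - gW W H n = 0 := by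
  unfold fP gW
  rw [if_neg hn, if_neg (fun h => hn ⟨h.1, h.2.1⟩), sub_zero]

private theorem A6_fP (H : ℕ) (n : ℤ) : 0 ≤ fP H n ∧ fP H n ≤ Real.log H := by
  have h : 0 ≤ Real.log (H : ℝ) := Real.log_natCast_nonneg H
  unfold fP
  split_ifs
  · exact ⟨h, le_rfl⟩
  · exact ⟨le_rfl, h⟩

private theorem A6_gW (W H : ℕ) (hW : 1 ≤ W) (n : ℤ) : 0 ≤ gW W H n ∧ gW W H n ≤ (W : ℝ) := by
  have h0 : (0 : ℝ) ≤ W := Nat.cast_nonneg W
  have h1 : (1 : ℝ) ≤ (Nat.totient W : ℝ) := by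
    exact_mod_cast Nat.totient_pos.2 hW
  have h2 : 0 ≤ (W : ℝ) / (Nat.totient W : ℝ) := by positivity
  have h3 : (W : ℝ) / (Nat.totient W : ℝ) ≤ W := div_le_self h0 h1
  unfold gW nu
  split_ifs
  · exact ⟨h2, h3⟩
  · exact ⟨le_rfl, h0⟩
  · exact ⟨le_rfl, h0⟩

/-- PROOF. `0 ≤ fP ≤ log H` and `0 ≤ gW ≤ W/φ(W) ≤ W` (`W ≥ 1`), so `(fP - gW)² ≤ (log H)² + W²` (`(x - y)² ≤ x² + y²` for `x, y ≥ 0`); `H` terms. -/
theorem corr_zero_le (W H : ℕ) (hW : 1 ≤ W) (hH : 1 ≤ H) :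
    corr H (fun n => fP H n - gW W H n) 0 ≤ H * ((Real.log H) ^ 2 + (W : ℝ) ^ 2) := by
  unfold corr
  have h : ∀ n ∈ Finset.Icc (1 : ℤ) (H : ℤ), (fP H n - gW W H n) * (fP H (n + 0) - gW W H (n + 0)) ≤
      (Real.log H) ^ 2 + (W : ℝ) ^ 2 := by
    intro n _
    rw [add_zero]
    obtain ⟨a0, a1⟩ := A6_fP H n
    obtain ⟨b0, b1⟩ := A6_gW W H hW n
    have h1 : (fP H n) ^ 2 ≤ (Real.log H) ^ 2 := pow_le_pow_left₀ a0 a1 2
    have h2 : (gW W H n) ^ 2 ≤ (W : ℝ) ^ 2 := pow_le_pow_left₀ b0 b1 2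
    nlinarith [mul_nonneg a0 b0]
  refine (Finset.sum_le_sum h).trans ?_
  rw [Finset.sum_const, nsmul_eq_mul, Int.card_Icc]
  have e : (((H : ℤ) + 1 - 1).toNat : ℝ) = (H : ℝ) := by
    have : ((H : ℤ) + 1 - 1).toNat = H := by omega
    rw [this]
  rw [e]

end Pool.Agent.E3
end
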