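import Pool.Agent.Lib.MP_bae66e_nt.Mg.G079

section

/-!
# L3a: the mean square of the exponential sum over primes on the arcs with small denominators
-/

set_option autoImplicit false

namespace Pool.Agent.PP

open Finset MeasureTheory Real
open Pool.Agent.MC (ee expSum frac frac' arcSum fareySet)
open Pool.Agent.Lib.MP_bae66e_nt.AP3 (Rough rset dset prI KT flEta FLP cset Om0 xb prm)

/-- PROOF. `sum_dset_ge`, `sum_rset_ge`, `exists_KT_ge` (namespace AP3) and `φ(r) ≤ r`: for `D ≥ 2`,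
`∑ 1/φ(r) ≥ ∑ 1/r ≥ (1 - 1/D) KT D log (t + 1) ≥ (1/2) (c/log D) log (t+1)`. -/
lemma gain : ∃ c : ℝ, 0 < c ∧ ∀ D t : ℕ, 2 ≤ D →
    c * Real.log (t + 1) / Real.log D ≤ ∑ r ∈ dset D t, 1 / (Nat.totient r : ℝ) := by
  obtain ⟨c, hc, hK⟩ := Pool.Agent.Lib.MP_bae66e_nt.AP3.exists_KT_ge
  refine ⟨c / 2, by positivity, ?_⟩
  intro D t hD
  have hD0 : (0 : ℝ) < D := by positivity
  have hD2 : (2 : ℝ) ≤ D := by exact_mod_cast hD
  have hlD : 0 < Real.log D := Real.log_pos (by linarith)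
  have hlt : 0 ≤ Real.log ((t : ℝ) + 1) := Real.log_nonneg (by
    have : (0 : ℝ) ≤ t := by positivity
    linarith)
  have hinv : 1 / (D : ℝ) ≤ 1 / 2 := one_div_le_one_div_of_le (by norm_num) hD2
  have h1 := hK D hD
  have h2 := Pool.Agent.Lib.MP_bae66e_nt.AP3.sum_rset_ge D t
  have h3 := Pool.Agent.Lib.MP_bae66e_nt.AP3.sum_dset_ge D t (by omega)
  have h4 : ∑ r ∈ dset D t, 1 / (r : ℝ) ≤ ∑ r ∈ dset D t, 1 / (Nat.totient r : ℝ) := by
    apply Finset.sum_le_sum
    intro r hr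
    have hr' := Pool.Agent.Lib.MP_bae66e_nt.AP3.mem_dset.mp hr
    have h5 : (0 : ℝ) < Nat.totient r := by exact_mod_cast Nat.totient_pos.mpr hr'.1.1.1
    apply one_div_le_one_div_of_le h5
    exact_mod_cast Nat.totient_le r
  calc c / 2 * Real.log ((t : ℝ) + 1) / Real.log D = 1 / 2 * (c / Real.log D * Real.log ((t : ℝ) + 1)) := by
        ring
    _ ≤ 1 / 2 * (KT D * Real.log ((t : ℝ) + 1)) := by gcongr
    _ ≤ 1 / 2 * ∑ n ∈ rset D t, 1 / (n : ℝ) := by gcongr
    _ ≤ (1 - 1 / (D : ℝ)) * ∑ n ∈ rset D t, 1 / (n : ℝ) := by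
        have : (0 : ℝ) ≤ ∑ n ∈ rset D t, 1 / (n : ℝ) := Finset.sum_nonneg fun _ _ => by positivity
        have h6 : (1 : ℝ) / 2 ≤ 1 - 1 / (D : ℝ) := by linarith
        gcongr
    _ ≤ ∑ r ∈ dset D t, 1 / (r : ℝ) := h3
    _ ≤ _ := h4

end Pool.Agent.PP
end

section

/-!
# B1: Buchstab's identity
-/

set_option autoImplicit false

namespace Pool.Agent.PP

open Finset MeasureTheory Real
open Pool.Agent.MC (ee expSum frac frac' arcSum fareySet)
open Pool.Agent.Lib.MP_bae66e_nt.AP3 (Rough rset dset prI KT flEta FLP cset Om0 xb prm)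

open Classical in
/-- PROOF. An integer `2 ≤ n ≤ y` with all prime factors `> z` is either a prime (in `prI z y`) or composite, and then
`p = n.minFac` satisfies `z < p`, `p² ≤ n ≤ y < (Z+1)²` so `p ≤ Z`, and `n = p m` with `m ≥ 2`, all prime factors of `m`
`≥ p`, i.e. `Rough (p-1) m`. Conversely every pair `(p, m)`, `p ∈ prI z Z`, `m ∈ Icc 2 (y/p)`, `Rough (p-1) m` gives
`n = p m ≤ y` rough, composite, with `n.minFac = p`. (`Finset.sum_sigma'`, `Finset.sum_nbij'` with `(p, m) ↦ p m`,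
`n ↦ (n.minFac, n / n.minFac)`.) -/
lemma buchstab (y z Z : ℕ) (hz : 1 ≤ z) (hZ : y < (Z + 1) ^ 2) (φ : ℕ → ℂ) :
    ∑ n ∈ (Icc 2 y).filter (fun n => Rough z n), φ n
      = ∑ p ∈ prI z y, φ p
        + ∑ p ∈ prI z Z, ∑ m ∈ (Icc 2 (y / p)).filter (fun m => Rough (p - 1) m), φ (p * m) := by
  rw [← Finset.sum_filter_add_sum_filter_not _ Nat.Prime]
  congr 1
  · apply Finset.sum_congr _ (fun _ _ => rfl)
    ext n
    rw [Finset.mem_filter, Finset.mem_filter, Finset.mem_Icc, Pool.Agent.Lib.MP_bae66e_nt.AP3.mem_prI]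
    constructor
    · rintro ⟨⟨⟨h1, h2⟩, h3⟩, h4⟩
      exact ⟨⟨h3 n h4 (dvd_refl n), h2⟩, h4⟩
    · rintro ⟨⟨h1, h2⟩, h4⟩
      refine ⟨⟨⟨h4.two_le, h2⟩, ?_⟩, h4⟩
      intro q hq hqn
      rw [(Nat.prime_dvd_prime_iff_eq hq h4).mp hqn]
      exact h1
  · rw [Finset.sum_sigma']
    apply Finset.sum_nbij' (fun n => (⟨n.minFac, n / n.minFac⟩ : (_ : ℕ) × ℕ)) (fun q => q.1 * q.2)
    · intro n hn
      rw [Finset.mem_filter, Finset.mem_filter, Finset.mem_Icc] at hn
      obtain ⟨⟨⟨h1, h2⟩, h3⟩, h4⟩ := hn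
      have hmp : n.minFac.Prime := Nat.minFac_prime (by omega)
      have hmd : n.minFac ∣ n := Nat.minFac_dvd n
      have hsq : n.minFac ^ 2 ≤ n := Nat.minFac_sq_le_self (by omega) h4
      have hle : n.minFac ≤ Z := by
        have : n.minFac ^ 2 < (Z + 1) ^ 2 := lt_of_le_of_lt (hsq.trans h2) hZ
        have := lt_of_pow_lt_pow_left₀ 2 (by omega) this
        omega
      have hm2 : n.minFac ≤ n / n.minFac := by
        rw [Nat.le_div_iff_mul_le hmp.pos, ← sq]
        exact hsq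
      rw [Finset.mem_sigma]
      refine ⟨?_, ?_⟩
      · rw [Pool.Agent.Lib.MP_bae66e_nt.AP3.mem_prI]
        exact ⟨⟨h3 _ hmp hmd, hle⟩, hmp⟩
      · rw [Finset.mem_filter, Finset.mem_Icc]
        refine ⟨⟨hmp.two_le.trans hm2, Nat.div_le_div_right h2⟩, ?_⟩
        intro q hq hqm
        have h5 : q ∣ n := hqm.trans (Nat.div_dvd_of_dvd hmd)
        have h6 : n.minFac ≤ q := Nat.minFac_le_of_dvd hq.two_le h5
        have := hmp.pos
        show n.minFac - 1 < q
        omega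
    · rintro ⟨p, m⟩ hpm
      rw [Finset.mem_sigma, Finset.mem_filter, Finset.mem_Icc, Pool.Agent.Lib.MP_bae66e_nt.AP3.mem_prI] at hpm
      obtain ⟨⟨⟨h1, h2⟩, h3⟩, ⟨⟨h4, h5⟩, h6⟩⟩ := hpm
      simp only at h1 h2 h3 h4 h5 h6
      have hp2 := h3.two_le
      rw [Finset.mem_filter, Finset.mem_filter, Finset.mem_Icc]
      refine ⟨⟨⟨?_, ?_⟩, ?_⟩, ?_⟩
      · show 2 ≤ p * m
        nlinarith
      · show p * m ≤ y
        have := (Nat.le_div_iff_mul_le h3.pos).mp h5
        rw [mul_comm]; exact this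
      · intro q hq hqd
        rcases (Nat.Prime.dvd_mul hq).mp hqd with h | h
        · rw [(Nat.prime_dvd_prime_iff_eq hq h3).mp h]
          exact h1
        · have := h6 q hq h
          omega
      · show ¬ Nat.Prime (p * m)
        have hp1 : p ≠ 1 := by omega
        have hm1 : m ≠ 1 := by omega
        exact Nat.not_prime_mul hp1 hm1
    · intro n hn
      exact Nat.mul_div_cancel' (Nat.minFac_dvd n)
    · rintro ⟨p, m⟩ hpm
      rw [Finset.mem_sigma, Finset.mem_filter, Finset.mem_Icc, Pool.Agent.Lib.MP_bae66e_nt.AP3.mem_prI] at hpm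
      obtain ⟨⟨⟨h1, h2⟩, h3⟩, ⟨⟨h4, h5⟩, h6⟩⟩ := hpm
      simp only at h1 h2 h3 h4 h5 h6
      have hp2 := h3.two_le
      have hne : p * m ≠ 1 := by
        intro h
        have := Nat.eq_one_of_mul_eq_one_right h
        omega
      have hmf : (p * m).minFac = p := by
        apply le_antisymm
        · exact Nat.minFac_le_of_dvd hp2 (dvd_mul_right p m)
        · have hq := Nat.minFac_prime hne
          rcases (Nat.Prime.dvd_mul hq).mp (Nat.minFac_dvd (p * m)) with h | h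
          · rw [(Nat.prime_dvd_prime_iff_eq hq h3).mp h]
          · have := h6 _ hq h
            omega
      have hdiv : p * m / (p * m).minFac = m := by
        rw [hmf, Nat.mul_div_cancel_left _ h3.pos]
      show (⟨(p * m).minFac, p * m / (p * m).minFac⟩ : (_ : ℕ) × ℕ) = ⟨p, m⟩
      rw [hdiv, hmf]
    · intro n hn
      show φ n = φ (n.minFac * (n / n.minFac))
      rw [Nat.mul_div_cancel' (Nat.minFac_dvd n)]

end Pool.Agent.PP
end

section

/-!
# B2a: replacing `p`-rough by `M`-rough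
-/

set_option autoImplicit false

namespace Pool.Agent.PP

open Finset MeasureTheory Real
open Pool.Agent.MC (ee expSum frac frac' arcSum fareySet)
open Pool.Agent.Lib.MP_bae66e_nt.AP3 (Rough rset dset prI KT flEta FLP cset Om0 xb prm)

/-- PROOF. If `X < M` the set is `⊆ {1}`. If `X ≥ M`: `card_sifted_lin_le` (file `Lib/MP_bae66e_nt/BrunT.lean`) with `D = 1`, `a = 0`,
`x = X`, `T = ⌊M^(1/3)⌋₊` (`T ≥ 1`, `log (T+1) ≥ (log M)/3`, `T² ≤ M^(2/3) ≤ 2 M/log M ≤ 2 X/log M`; `rho 1 = 1`): a rough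
integer is coprime to `sProd 1 T`. So the count is `≤ 3 X/log M + 2 X/log M`. -/
lemma rough_count : ∃ C : ℝ, 1 ≤ C ∧ ∀ M X : ℕ, 2 ≤ M →
    (#(rset M X) : ℝ) ≤ 1 + C * X / Real.log M := by
  refine ⟨6, by norm_num, ?_⟩
  intro M X hM
  have hM1 : (1 : ℝ) < M := by exact_mod_cast (by omega : 1 < M)
  have hlM : 0 < Real.log (M : ℝ) := Real.log_pos hM1
  rcases lt_or_ge X M with hlt | hge
  · have hsub : rset M X ⊆ {1} := by
      intro n hn
      rw [Pool.Agent.Lib.MP_bae66e_nt.AP3.mem_rset] at hn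
      obtain ⟨⟨h1, h2⟩, h3⟩ := hn
      rw [Finset.mem_singleton]
      by_contra hne
      have hp := Nat.minFac_prime hne
      have h4 := h3 _ hp (Nat.minFac_dvd n)
      have h5 := Nat.minFac_le h1
      omega
    have h1 : #(rset M X) ≤ 1 := by
      have := Finset.card_le_card hsub
      simpa using this
    have h2 : (#(rset M X) : ℝ) ≤ 1 := by exact_mod_cast h1
    have h3 : 0 ≤ 6 * (X : ℝ) / Real.log M := by positivity
    linarith
  · set T := ⌊(M : ℝ) ^ ((1 : ℝ) / 3)⌋₊ with hT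
    have hx13 : (1 : ℝ) ≤ (M : ℝ) ^ ((1 : ℝ) / 3) := Real.one_le_rpow hM1.le (by norm_num)
    have hT1 : 1 ≤ T := by
      rw [hT]
      exact (Nat.one_le_floor_iff _).mpr hx13
    have hTle : (T : ℝ) ≤ (M : ℝ) ^ ((1 : ℝ) / 3) := Nat.floor_le (by positivity)
    have hTlt : (M : ℝ) ^ ((1 : ℝ) / 3) < T + 1 := Nat.lt_floor_add_one _
    have hTM : T ≤ M := by
      have h1 : (M : ℝ) ^ ((1 : ℝ) / 3) ≤ (M : ℝ) ^ (1 : ℝ) :=
        Real.rpow_le_rpow_of_exponent_le hM1.le (by norm_num)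
      rw [Real.rpow_one] at h1
      exact_mod_cast hTle.trans h1
    have hsub : rset M X ⊆ (Finset.Ioc 0 X).filter
        (fun j => Nat.Coprime (Pool.Agent.Lib.MP_bae66e_nt.sProd 1 T) (1 * j + 0)) := by
      intro n hn
      rw [Pool.Agent.Lib.MP_bae66e_nt.AP3.mem_rset] at hn
      obtain ⟨⟨h1, h2⟩, h3⟩ := hn
      rw [Finset.mem_filter, Finset.mem_Ioc]
      refine ⟨⟨h1, h2⟩, ?_⟩
      rw [one_mul, add_zero]
      unfold Pool.Agent.Lib.MP_bae66e_nt.sProd
      apply Nat.Coprime.prod_left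
      intro q hq
      have hqp := Pool.Agent.Lib.MP_bae66e_nt.prime_of_mem_sPrimes hq
      rw [hqp.coprime_iff_not_dvd]
      intro hqn
      have h4 := h3 q hqp hqn
      unfold Pool.Agent.Lib.MP_bae66e_nt.sPrimes at hq
      rw [Finset.mem_filter, Finset.mem_Icc] at hq
      omega
    have h1 := Pool.Agent.Lib.MP_bae66e_nt.card_sifted_lin_le 1 0 X T (le_refl 1) hT1
    have hrho : Pool.Agent.Lib.MP_bae66e_nt.rho 1 = 1 := by
      unfold Pool.Agent.Lib.MP_bae66e_nt.rho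
      simp
    rw [hrho, one_mul] at h1
    have h2 : (#(rset M X) : ℝ) ≤ X / Real.log (T + 1) + (T : ℝ) ^ 2 := by
      refine le_trans ?_ h1
      exact_mod_cast Finset.card_le_card hsub
    have hM0 : (0 : ℝ) < M := by linarith
    have hlogT : Real.log M / 3 ≤ Real.log (T + 1) := by
      have h3 : Real.log ((M : ℝ) ^ ((1 : ℝ) / 3)) ≤ Real.log (T + 1) :=
        Real.log_le_log (by positivity) hTlt.le
      rw [Real.log_rpow hM0] at h3
      linarith
    have hlog13 : Real.log M ≤ 3 * (M : ℝ) ^ ((1 : ℝ) / 3) := by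
      have h3 : Real.log ((M : ℝ) ^ ((1 : ℝ) / 3)) ≤ (M : ℝ) ^ ((1 : ℝ) / 3) := by
        have := Real.log_le_sub_one_of_pos (show 0 < (M : ℝ) ^ ((1 : ℝ) / 3) by positivity)
        linarith
      rw [Real.log_rpow hM0] at h3
      linarith
    have hcube : ((M : ℝ) ^ ((1 : ℝ) / 3)) ^ 3 = M := by
      rw [← Real.rpow_natCast, ← Real.rpow_mul hM0.le]
      norm_num
    have hXM : (M : ℝ) ≤ X := by exact_mod_cast hge
    have hX0 : (0 : ℝ) ≤ X := Nat.cast_nonneg _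
    have ha : (X : ℝ) / Real.log (T + 1) ≤ 3 * X / Real.log M := by
      rw [div_le_div_iff₀ (by linarith) hlM]
      nlinarith
    have hb : (T : ℝ) ^ 2 ≤ 3 * X / Real.log M := by
      rw [le_div_iff₀ hlM]
      set c := (M : ℝ) ^ ((1 : ℝ) / 3) with hc
      calc (T : ℝ) ^ 2 * Real.log M ≤ c ^ 2 * (3 * c) := by
            apply mul_le_mul (pow_le_pow_left₀ (Nat.cast_nonneg T) hTle 2) hlog13 hlM.le (by positivity)
        _ = 3 * c ^ 3 := by ring
        _ = 3 * M := by rw [hcube]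
        _ ≤ 3 * X := by linarith
    have hc : 6 * (X : ℝ) / Real.log M = 3 * X / Real.log M + 3 * X / Real.log M := by ring
    linarith

/-- `π(2M) - π(M) ≤ 10 · M/log M · 2` or so: `Cheb.pi_upper` (file `Lib/MP_bae66e_nt/Cheb.lean`). -/
lemma card_prI_le : ∃ C : ℝ, 1 ≤ C ∧ ∀ M : ℕ, 2 ≤ M → (#(prI M (2 * M)) : ℝ) ≤ C * M / Real.log M := by
  refine ⟨10, by norm_num, ?_⟩
  intro M hM
  have hM1 : (1 : ℝ) < M := by exact_mod_cast (by omega : 1 < M)
  have hlM : 0 < Real.log (M : ℝ) := Real.log_pos hM1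
  have h1 := Pool.Agent.Lib.MP_bae66e_nt.pi_upper (2 * M) (by omega)
  have h2 : #(prI M (2 * M)) ≤ Nat.primeCounting (2 * M) := by
    rw [Nat.primeCounting, Nat.primeCounting', Nat.count_eq_card_filter_range]
    apply Finset.card_le_card
    intro p hp
    rw [Pool.Agent.Lib.MP_bae66e_nt.AP3.mem_prI] at hp
    rw [Finset.mem_filter, Finset.mem_range]
    exact ⟨by omega, hp.2⟩
  have h3 : (#(prI M (2 * M)) : ℝ) ≤ (Nat.primeCounting (2 * M) : ℝ) := by exact_mod_cast h2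
  refine (h3.trans h1).trans ?_
  push_cast
  have hlog : Real.log M ≤ Real.log (2 * M) := Real.log_le_log (by linarith) (by linarith)
  rw [div_le_div_iff₀ (by linarith) hlM]
  nlinarith

end Pool.Agent.PP
end

section

/-!
# B2b: replacing `p`-rough by `M`-rough
-/

set_option autoImplicit false

namespace Pool.Agent.PP

open Finset MeasureTheory Real
open Pool.Agent.MC (ee expSum frac frac' arcSum fareySet)
open Pool.Agent.Lib.MP_bae66e_nt.AP3 (Rough rset dset prI KT flEta FLP cset Om0 xb prm)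

open Classical in
/-- PROOF. For `p ∈ prI M (2M)`, `Rough (p-1) m` implies `Rough M m`. If `m ∈ Icc 2 (y/p)` is `Rough M` but not `Rough (p-1)`,
it has a prime factor `p' < p`, `p' > M`, so `p' ∈ prI M (2M)`, `m = p' m'` with `m' ∈ rset M (y/(p p'))`. So the difference is
at most `∑_{p, p'} #(rset M (y/(p p'))) ≤ ∑_{p, p'} (1 + C y/(M² log M))` (`rough_count`, `p p' > M²`), and
`card_prI_le` twice. -/
lemma buch_err : ∃ C : ℝ, 0 < C ∧ ∀ (y M : ℕ) (φ : ℕ → ℂ), 2 ≤ M → (∀ n, ‖φ n‖ ≤ 1) →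
    ‖∑ p ∈ prI M (2 * M), ∑ m ∈ (Icc 2 (y / p)).filter (fun m => Rough (p - 1) m), φ (p * m)
      - ∑ p ∈ prI M (2 * M), ∑ m ∈ (Icc 2 (y / p)).filter (fun m => Rough M m), φ (p * m)‖
      ≤ C * ((M : ℝ) ^ 2 / Real.log M ^ 2 + y / Real.log M ^ 3) := by
  obtain ⟨C₁, hC₁, h₁⟩ := rough_count
  obtain ⟨C₂, hC₂, h₂⟩ := card_prI_le
  refine ⟨C₁ * C₂ ^ 2, by positivity, ?_⟩
  intro y M φ hM hφ
  have hM1 : (1 : ℝ) < M := by exact_mod_cast (by omega : 1 < M)
  have hM0 : (0 : ℝ) < M := by linarith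
  have hlM : 0 < Real.log (M : ℝ) := Real.log_pos hM1
  set L := Real.log (M : ℝ) with hL
  rw [← Finset.sum_sub_distrib]
  -- one prime
  have hone : ∀ p ∈ prI M (2 * M),
      ‖∑ m ∈ (Icc 2 (y / p)).filter (fun m => Rough (p - 1) m), φ (p * m)
        - ∑ m ∈ (Icc 2 (y / p)).filter (fun m => Rough M m), φ (p * m)‖
      ≤ (#(prI M (2 * M)) : ℝ) * (1 + C₁ * (y / (M : ℝ) ^ 2) / L) := by
    intro p hp
    have hp' := Pool.Agent.Lib.MP_bae66e_nt.AP3.mem_prI.mp hp
    have hsub : (Icc 2 (y / p)).filter (fun m => Rough (p - 1) m)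
        ⊆ (Icc 2 (y / p)).filter (fun m => Rough M m) := by
      intro m hm
      rw [Finset.mem_filter] at hm ⊢
      refine ⟨hm.1, fun q hq hqm => ?_⟩
      have := hm.2 q hq hqm
      omega
    rw [← Finset.sum_sdiff hsub, norm_sub_rev, add_sub_cancel_right]
    have hb : ‖∑ m ∈ (Icc 2 (y / p)).filter (fun m => Rough M m)
          \ (Icc 2 (y / p)).filter (fun m => Rough (p - 1) m), φ (p * m)‖
        ≤ #((Icc 2 (y / p)).filter (fun m => Rough M m)
          \ (Icc 2 (y / p)).filter (fun m => Rough (p - 1) m)) := by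
      refine (norm_sum_le _ _).trans ?_
      refine (Finset.sum_le_sum (fun m _ => hφ (p * m))).trans ?_
      simp
    refine hb.trans ?_
    have hcov : (Icc 2 (y / p)).filter (fun m => Rough M m)
          \ (Icc 2 (y / p)).filter (fun m => Rough (p - 1) m)
        ⊆ (prI M (2 * M)).biUnion (fun p' => (rset M (y / (p * p'))).image (fun m' => p' * m')) := by
      intro m hm
      rw [Finset.mem_sdiff, Finset.mem_filter, Finset.mem_filter, Finset.mem_Icc] at hm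
      obtain ⟨⟨⟨h1, h2⟩, h3⟩, h4⟩ := hm
      have h5 : ¬ Rough (p - 1) m := fun h => h4 ⟨⟨h1, h2⟩, h⟩
      unfold Rough at h5
      push Not at h5
      obtain ⟨q, hq, hqm, hqp⟩ := h5
      have h6 := h3 q hq hqm
      rw [Finset.mem_biUnion]
      refine ⟨q, ?_, ?_⟩
      · rw [Pool.Agent.Lib.MP_bae66e_nt.AP3.mem_prI]
        exact ⟨⟨h6, by omega⟩, hq⟩
      · rw [Finset.mem_image]
        obtain ⟨m', rfl⟩ := hqm
        refine ⟨m', ?_, rfl⟩
        rw [Pool.Agent.Lib.MP_bae66e_nt.AP3.mem_rset]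
        refine ⟨⟨?_, ?_⟩, ?_⟩
        · rcases Nat.eq_zero_or_pos m' with rfl | h
          · simp at h1
          · exact h
        · rw [← Nat.div_div_eq_div_mul, Nat.le_div_iff_mul_le hq.pos, mul_comm]
          exact h2
        · intro r hr hrm
          exact h3 r hr (hrm.trans (dvd_mul_left m' q))
    have hcard : #((Icc 2 (y / p)).filter (fun m => Rough M m)
          \ (Icc 2 (y / p)).filter (fun m => Rough (p - 1) m))
        ≤ ∑ p' ∈ prI M (2 * M), #(rset M (y / (p * p'))) := by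
      refine (Finset.card_le_card hcov).trans ?_
      refine Finset.card_biUnion_le.trans ?_
      exact Finset.sum_le_sum (fun p' _ => Finset.card_image_le)
    have hcardR : (#((Icc 2 (y / p)).filter (fun m => Rough M m)
          \ (Icc 2 (y / p)).filter (fun m => Rough (p - 1) m)) : ℝ)
        ≤ ∑ p' ∈ prI M (2 * M), (#(rset M (y / (p * p'))) : ℝ) := by exact_mod_cast hcard
    refine hcardR.trans ?_
    rw [← nsmul_eq_mul]
    apply Finset.sum_le_card_nsmul
    intro p' hp'2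
    have hp'3 := Pool.Agent.Lib.MP_bae66e_nt.AP3.mem_prI.mp hp'2
    refine (h₁ M _ hM).trans ?_
    have h7 : ((y / (p * p') : ℕ) : ℝ) ≤ y / (M : ℝ) ^ 2 := by
      refine Nat.cast_div_le.trans ?_
      push_cast
      apply div_le_div_of_nonneg_left (Nat.cast_nonneg _) (by positivity)
      have h8 : (M : ℝ) ≤ p := by exact_mod_cast hp'.1.1.le
      have h9 : (M : ℝ) ≤ p' := by exact_mod_cast hp'3.1.1.le
      nlinarith
    have h10 : C₁ * ((y / (p * p') : ℕ) : ℝ) / L ≤ C₁ * (y / (M : ℝ) ^ 2) / L := by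
      apply div_le_div_of_nonneg_right _ hlM.le
      exact mul_le_mul_of_nonneg_left h7 (by linarith)
    linarith
  refine (norm_sum_le _ _).trans ?_
  refine (Finset.sum_le_card_nsmul _ _ _ hone).trans ?_
  rw [nsmul_eq_mul]
  have hN := h₂ M hM
  have hN0 : (0 : ℝ) ≤ (#(prI M (2 * M)) : ℝ) := Nat.cast_nonneg _
  have hfac : 0 ≤ 1 + C₁ * (y / (M : ℝ) ^ 2) / L := by positivity
  have hNN : (#(prI M (2 * M)) : ℝ) * (#(prI M (2 * M)) : ℝ) ≤ (C₂ * M / L) * (C₂ * M / L) :=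
    mul_le_mul hN hN hN0 (by positivity)
  calc (#(prI M (2 * M)) : ℝ) * ((#(prI M (2 * M)) : ℝ) * (1 + C₁ * (y / (M : ℝ) ^ 2) / L))
      = ((#(prI M (2 * M)) : ℝ) * (#(prI M (2 * M)) : ℝ)) * (1 + C₁ * (y / (M : ℝ) ^ 2) / L) := by ring
    _ ≤ ((C₂ * M / L) * (C₂ * M / L)) * (1 + C₁ * (y / (M : ℝ) ^ 2) / L) :=
        mul_le_mul_of_nonneg_right hNN hfac
    _ = C₂ ^ 2 * ((M : ℝ) ^ 2 / L ^ 2) + C₁ * C₂ ^ 2 * (y / L ^ 3) := by
        field_simp
    _ ≤ C₁ * C₂ ^ 2 * ((M : ℝ) ^ 2 / L ^ 2) + C₁ * C₂ ^ 2 * (y / L ^ 3) := by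
        have : C₂ ^ 2 * ((M : ℝ) ^ 2 / L ^ 2) ≤ C₁ * C₂ ^ 2 * ((M : ℝ) ^ 2 / L ^ 2) := by
          apply mul_le_mul_of_nonneg_right _ (by positivity)
          nlinarith [sq_nonneg C₂]
        linarith
    _ = C₁ * C₂ ^ 2 * ((M : ℝ) ^ 2 / L ^ 2 + y / L ^ 3) := by ring

end Pool.Agent.PP
end
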