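import Pool.Agent.Lib.MP_bae66e_nt.Mg.G001
import Pool.Agent.Lib.MP_bae66e_nt.Mg.G083
import Pool.Agent.Lib.MP_bae66e_nt.Mg.G005

section

/-!
# MVa: relations between the parameters
-/

set_option autoImplicit false

namespace Pool.Agent.E3

open Finset MeasureTheory Real Filter
open Pool.Agent.Lib.MP_bae66e_nt.AP3 (prI mem_prI)

/-- PROOF. `(log x)^B = o (x^η)` (`isLittleO_log_rpow_rpow_atTop` or `isLittleO_pow_log_id_atTop`). -/
theorem log_pow_small (B : ℕ) (η : ℝ) (hη : 0 < η) : ∃ X₀ : ℕ, ∀ X : ℕ, X₀ ≤ X →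
    2 * (Real.log X) ^ B ≤ (X : ℝ) ^ η := by
  have h := (isLittleO_log_rpow_rpow_atTop (B : ℝ) hη).bound (c := 1 / 2) (by norm_num)
  have h2 := tendsto_natCast_atTop_atTop (R := ℝ) |>.eventually h
  rw [eventually_atTop] at h2
  obtain ⟨X₀, hX⟩ := h2
  refine ⟨X₀, fun X hX0 => ?_⟩
  have h3 := hX X hX0
  have hl : 0 ≤ Real.log (X : ℝ) := Real.log_natCast_nonneg X
  rw [Real.norm_of_nonneg (Real.rpow_nonneg hl _),
    Real.norm_of_nonneg (Real.rpow_nonneg (Nat.cast_nonneg X) _), Real.rpow_natCast] at h3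
  linarith

/-- PROOF. Monotonicity of `log`; `exp (- log Y) = 1/Y`. -/
theorem logY_bounds (X : ℕ) (Y : ℝ) (hX : 2 ≤ X) (h1 : (X : ℝ) ^ (0.99 : ℝ) ≤ Y) (h2 : Y ≤ X) :
    0 < Y ∧ 1 / 2 * Real.log X ≤ Real.log Y ∧ Real.log Y ≤ Real.log X ∧ Real.exp (-Real.log Y) = 1 / Y := by
  have hX2 : (2 : ℝ) ≤ (X : ℝ) := by exact_mod_cast hX
  have hX0 : (0 : ℝ) < (X : ℝ) := by linarith
  have hp : 0 < (X : ℝ) ^ (0.99 : ℝ) := Real.rpow_pos_of_pos hX0 _
  have hY : 0 < Y := lt_of_lt_of_le hp h1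
  have hl : 0 < Real.log (X : ℝ) := Real.log_pos (by linarith)
  refine ⟨hY, ?_, Real.log_le_log hY h2, ?_⟩
  · have h3 := Real.log_le_log hp h1
    rw [Real.log_rpow hX0] at h3
    nlinarith
  · rw [Real.exp_neg, Real.exp_log hY, one_div]

/-- PROOF. `Nat.sqrt X + 1 > √X`, so for `X ≥ 16`: `X^(1/4) ≤ Nat.sqrt X`, `(log X)/4 ≤ log (Nat.sqrt X)`. -/
theorem log_sqrt_ge (X : ℕ) (hX : 16 ≤ X) :
    (X : ℝ) ^ (1 / 4 : ℝ) ≤ (Nat.sqrt X : ℝ) ∧ Real.log X / 4 ≤ Real.log (Nat.sqrt X) := by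
  have hX2 : (16 : ℝ) ≤ (X : ℝ) := by exact_mod_cast hX
  have hX0 : (0 : ℝ) < (X : ℝ) := by linarith
  have hp : 0 < (X : ℝ) ^ (1 / 4 : ℝ) := Real.rpow_pos_of_pos hX0 _
  set y : ℝ := (X : ℝ) ^ (1 / 4 : ℝ) with hy
  have hy4 : y ^ 4 = X := by
    rw [hy, ← Real.rpow_natCast, ← Real.rpow_mul hX0.le]
    norm_num
  have hy2 : 2 ≤ y := by
    by_contra hc
    push Not at hc
    have : y ^ 4 < 2 ^ 4 := pow_lt_pow_left₀ hc hp.le (by norm_num)
    rw [hy4] at this
    norm_num at this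
    linarith
  have hs : (X : ℝ) < ((Nat.sqrt X : ℝ) + 1) ^ 2 := by
    have := Nat.lt_succ_sqrt' X
    have h2 : X < (Nat.sqrt X + 1) ^ 2 := by simpa using this
    exact_mod_cast h2
  have h1 : y ≤ (Nat.sqrt X : ℝ) := by
    have hs0 : (0 : ℝ) ≤ (Nat.sqrt X : ℝ) := Nat.cast_nonneg _
    have h3 : y ^ 2 < (Nat.sqrt X : ℝ) + 1 := by
      by_contra hc
      push Not at hc
      have h4 : ((Nat.sqrt X : ℝ) + 1) ^ 2 ≤ (y ^ 2) ^ 2 :=
        pow_le_pow_left₀ (by linarith) hc 2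
      have h5 : (y ^ 2) ^ 2 = y ^ 4 := by ring
      rw [h5, hy4] at h4
      linarith
    nlinarith
  refine ⟨h1, ?_⟩
  have h6 := Real.log_le_log hp h1
  rw [hy, Real.log_rpow hX0] at h6
  linarith

/-- PROOF. `DirichletCharacter.norm_le_one`. -/
theorem ch_norm_le {W : ℕ} (χ : DirichletCharacter ℂ W) (n : ℕ) : ‖ch χ n‖ ≤ 1 := by
  unfold ch
  exact DirichletCharacter.norm_le_one χ _

end Pool.Agent.E3
end

section

/-!
# U3a: trivial bound for the rough integers in a window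
-/

set_option autoImplicit false

namespace Pool.Agent.E3

open Finset MeasureTheory Real
open Pool.Agent.Lib.MP_bae66e_nt.AP3 (Rough prI KT rset)

private noncomputable def U3a_Phi (γ x : ℝ) (J : ℕ) : ℝ :=
  if (J : ℝ) - 1 ≤ x then Real.exp (-(γ * (x - (J - 1)))) else 2 - Real.exp (-(γ * (J - x)))

private theorem U3a_sum (γ : ℝ) (hγ : 0 < γ) (x : ℝ) (J : ℕ) :
    (1 - Real.exp (-γ)) * ∑ j ∈ range J, Real.exp (-(γ * |x - j|)) ≤ U3a_Phi γ x J := by
  have hle : ∀ t : ℝ, 0 ≤ t → Real.exp (-(γ * t)) ≤ 1 := fun t ht => by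
    rw [Real.exp_le_one_iff]
    have := mul_nonneg hγ.le ht
    linarith
  induction J with
  | zero =>
    rw [Finset.sum_range_zero, mul_zero]
    unfold U3a_Phi
    split_ifs with h
    · exact (Real.exp_pos _).le
    · push Not at h
      have := hle (((0 : ℕ) : ℝ) - x) (by linarith)
      linarith
  | succ J ih =>
    rw [Finset.sum_range_succ, mul_add]
    have hmul : ∀ t : ℝ, Real.exp (-γ) * Real.exp (-(γ * t)) = Real.exp (-(γ * (t + 1))) := by
      intro t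
      rw [← Real.exp_add]
      congr 1
      ring
    rcases le_or_gt (J : ℝ) x with h | h
    · have e1 : U3a_Phi γ x (J + 1) = Real.exp (-(γ * (x - J))) := by
        unfold U3a_Phi
        have : ((J + 1 : ℕ) : ℝ) - 1 = J := by push_cast; ring
        rw [this, if_pos h]
      have e2 : U3a_Phi γ x J = Real.exp (-(γ * (x - J + 1))) := by
        unfold U3a_Phi
        rw [if_pos (by linarith)]
        congr 2
        ring
      rw [abs_of_nonneg (by linarith), e1]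
      rw [e2] at ih
      have := hmul (x - J)
      linarith
    · have e1 : U3a_Phi γ x (J + 1) = 2 - Real.exp (-(γ * (J - x + 1))) := by
        unfold U3a_Phi
        have : ((J + 1 : ℕ) : ℝ) - 1 = J := by push_cast; ring
        rw [this, if_neg (not_le.2 h)]
        push_cast
        congr 3
        ring
      have h3 : |x - J| = J - x := by rw [abs_of_neg (by linarith)]; ring
      rw [h3, e1]
      have h4 := hmul ((J : ℝ) - x)
      rcases le_or_gt ((J : ℝ) - 1) x with h5 | h5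
      · have e2 : U3a_Phi γ x J ≤ 1 := by
          unfold U3a_Phi
          rw [if_pos h5]
          exact hle _ (by linarith)
        have h6 := hle ((J : ℝ) - x) (by linarith)
        linarith
      · have e2 : U3a_Phi γ x J = 2 - Real.exp (-(γ * (J - x))) := by
          unfold U3a_Phi
          rw [if_neg (not_le.2 h5)]
        linarith

private theorem U3a_gauss (γ : ℝ) (hγ : 0 < γ) : ∃ C : ℝ, 0 ≤ C ∧ ∀ (x : ℝ) (J : ℕ),
    ∑ j ∈ range J, gs γ x j ≤ C := by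
  have hr : Real.exp (-γ) < 1 := by
    rw [Real.exp_lt_one_iff]
    linarith
  refine ⟨Real.exp γ * (2 / (1 - Real.exp (-γ))), by
    have : 0 < 1 - Real.exp (-γ) := by linarith
    positivity, ?_⟩
  intro x J
  have h1 := U3a_sum γ hγ x J
  have h2 : U3a_Phi γ x J ≤ 2 := by
    unfold U3a_Phi
    split_ifs with h
    · have : Real.exp (-(γ * (x - (J - 1)))) ≤ 1 := by
        rw [Real.exp_le_one_iff]
        have := mul_nonneg hγ.le (by linarith : 0 ≤ x - (J - 1))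
        linarith
      linarith
    · have := Real.exp_pos (-(γ * (J - x)))
      linarith
  have h3 : ∑ j ∈ range J, Real.exp (-(γ * |x - j|)) ≤ 2 / (1 - Real.exp (-γ)) := by
    rw [le_div_iff₀ (by linarith)]
    linarith
  have h4 : ∀ j ∈ range J, gs γ x j ≤ Real.exp γ * Real.exp (-(γ * |x - j|)) := by
    intro j _
    unfold gs
    rw [← Real.exp_add]
    apply Real.exp_le_exp.2
    have h5 : |x - j| ≤ (x - j) ^ 2 + 1 := by
      rw [← sq_abs (x - (j : ℝ))]
      nlinarith [sq_nonneg (|x - (j : ℝ)| - 1), abs_nonneg (x - (j : ℝ))]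
    nlinarith
  calc ∑ j ∈ range J, gs γ x j ≤ ∑ j ∈ range J, Real.exp γ * Real.exp (-(γ * |x - j|)) :=
        Finset.sum_le_sum h4
    _ = Real.exp γ * ∑ j ∈ range J, Real.exp (-(γ * |x - j|)) := (Finset.mul_sum _ _ _).symm
    _ ≤ _ := mul_le_mul_of_nonneg_left h3 (Real.exp_pos _).le

open Classical in
/-- PROOF. `#rset z t ≤ 1 + C t / log z` (PP.rough_count: `#(rset M X) ≤ 1 + C X / log M`), and the rough integers
`n ≥ 2` are `> z`. Cut into `e^j < n ≤ e^(j+1)`, `j ≥ 0`: a piece with `e^(j+1) > z` has at most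
`1 + C e^(j+1) / log z ≤ C' e^j / log z` elements (because `e^(j+1) ≥ z ≥ log z`), each with `1/n ≤ e^(-j)` and
`gs β x (log n) ≤ exp β gs (β/2) x j`; sum over `j` of the Gaussians `≤ C''`. -/
theorem rough_window_le (β : ℝ) (hβ : 0 < β) : ∃ C : ℝ, 1 ≤ C ∧ ∀ (z Z : ℕ) (x : ℝ), 2 ≤ z →
    ∑ n ∈ (Icc 2 Z).filter (Rough z), gs β x (Real.log n) / n ≤ C / Real.log z := by
  obtain ⟨C₁, hC₁, hcount⟩ := Pool.Agent.PP.rough_count
  obtain ⟨C₂, hC₂, hgauss⟩ := U3a_gauss (β / 2) (by linarith)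
  refine ⟨max 1 ((1 + C₁) * Real.exp 1 * Real.exp β * C₂), le_max_left _ _, ?_⟩
  intro z Z x hz
  have hz1 : (1 : ℝ) < z := by exact_mod_cast (by omega : 1 < z)
  have hlz : 0 < Real.log z := Real.log_pos hz1
  set S := (Icc 2 Z).filter (Rough z) with hS
  have hmaps : ∀ n ∈ S, ⌊Real.log (n : ℝ)⌋₊ ∈ range (Z + 1) := by
    intro n hn
    rw [hS, Finset.mem_filter, Finset.mem_Icc] at hn
    rw [Finset.mem_range]
    have h1 : Real.log (n : ℝ) ≤ n := by
      have := Real.log_le_sub_one_of_pos (x := (n : ℝ)) (by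
        have : 0 < n := by omega
        exact_mod_cast this)
      linarith
    have h2 : ⌊Real.log (n : ℝ)⌋₊ ≤ n := by
      have := Nat.floor_le_floor h1
      rwa [Nat.floor_natCast] at this
    omega
  rw [← Finset.sum_fiberwise_of_maps_to hmaps]
  have hpiece : ∀ j ∈ range (Z + 1),
      ∑ n ∈ S.filter (fun n : ℕ => ⌊Real.log (n : ℝ)⌋₊ = j), gs β x (Real.log n) / n ≤
        (1 + C₁) * Real.exp 1 * Real.exp β / Real.log z * gs (β / 2) x j := by
    intro j _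
    set Sj := S.filter (fun n : ℕ => ⌊Real.log (n : ℝ)⌋₊ = j) with hSj
    have hmem : ∀ n ∈ Sj, 2 ≤ n ∧ Rough z n ∧ (j : ℝ) ≤ Real.log n ∧ Real.log n < j + 1 := by
      intro n hn
      rw [hSj, Finset.mem_filter, hS, Finset.mem_filter, Finset.mem_Icc] at hn
      have h0 : 0 ≤ Real.log (n : ℝ) := Real.log_natCast_nonneg n
      refine ⟨hn.1.1.1, hn.1.2, ?_, ?_⟩
      · rw [← hn.2]
        exact Nat.floor_le h0
      · rw [← hn.2]
        exact Nat.lt_floor_add_one _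
    have hterm : ∀ n ∈ Sj, gs β x (Real.log n) / n ≤ Real.exp β * gs (β / 2) x j * Real.exp (-j) := by
      intro n hn
      obtain ⟨h2, -, h3, h4⟩ := hmem n hn
      have hn0 : (0 : ℝ) < n := by
        have : 0 < n := by omega
        exact_mod_cast this
      have h5 : (1 : ℝ) / n ≤ Real.exp (-j) := by
        rw [Real.exp_neg, ← one_div]
        apply one_div_le_one_div_of_le (Real.exp_pos _)
        rw [← Real.exp_log hn0]
        exact Real.exp_le_exp.2 h3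
      have h6 : gs β x (Real.log n) ≤ Real.exp β * gs (β / 2) x j := by
        unfold gs
        rw [← Real.exp_add]
        apply Real.exp_le_exp.2
        have h7 : (x - j) ^ 2 ≤ 2 * (x - Real.log n) ^ 2 + 2 := by
          have h8 : (Real.log n - j) ^ 2 ≤ 1 := by nlinarith
          nlinarith [sq_nonneg ((x - Real.log n) - (Real.log n - j))]
        nlinarith
      calc gs β x (Real.log n) / n = gs β x (Real.log n) * (1 / n) := by ring
        _ ≤ (Real.exp β * gs (β / 2) x j) * Real.exp (-j) := by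
          apply mul_le_mul h6 h5 (by positivity)
          unfold gs
          positivity
    have hcard : (#Sj : ℝ) ≤ (1 + C₁) * Real.exp (j + 1) / Real.log z := by
      rcases Sj.eq_empty_or_nonempty with he | ⟨n₀, hn₀⟩
      · rw [he]
        simp only [Finset.card_empty, Nat.cast_zero]
        positivity
      · have hsub : Sj ⊆ rset z ⌊Real.exp ((j : ℝ) + 1)⌋₊ := by
          intro n hn
          obtain ⟨h2, h3, -, h4⟩ := hmem n hn
          have hn0 : (0 : ℝ) < n := by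
            have : 0 < n := by omega
            exact_mod_cast this
          rw [Pool.Agent.Lib.MP_bae66e_nt.AP3.mem_rset]
          refine ⟨⟨by omega, ?_⟩, h3⟩
          apply Nat.le_floor
          rw [← Real.exp_log hn0]
          exact Real.exp_le_exp.2 h4.le
        have h1 : (#Sj : ℝ) ≤ #(rset z ⌊Real.exp ((j : ℝ) + 1)⌋₊) := by
          exact_mod_cast Finset.card_le_card hsub
        have h2 := hcount z ⌊Real.exp ((j : ℝ) + 1)⌋₊ hz
        have h3 : (⌊Real.exp ((j : ℝ) + 1)⌋₊ : ℝ) ≤ Real.exp (j + 1) :=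
          Nat.floor_le (Real.exp_pos _).le
        obtain ⟨h4, h5, -, h6⟩ := hmem n₀ hn₀
        have hn0 : (0 : ℝ) < n₀ := by
          have : 0 < n₀ := by omega
          exact_mod_cast this
        have h7 : z < n₀ := by
          have h8 := h5 n₀.minFac (Nat.minFac_prime (by omega)) (Nat.minFac_dvd n₀)
          exact lt_of_lt_of_le h8 (Nat.minFac_le (by omega))
        have h9 : (n₀ : ℝ) ≤ Real.exp (j + 1) := by
          rw [← Real.exp_log hn0]
          exact Real.exp_le_exp.2 h6.le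
        have h10 : Real.log z ≤ Real.exp (j + 1) := by
          have h11 : Real.log (z : ℝ) ≤ z := by
            have := Real.log_le_sub_one_of_pos (x := (z : ℝ)) (by linarith)
            linarith
          have h12 : (z : ℝ) ≤ n₀ := by exact_mod_cast h7.le
          linarith
        have h13 : 1 ≤ Real.exp (j + 1) / Real.log z := by
          rw [le_div_iff₀ hlz]
          linarith
        calc (#Sj : ℝ) ≤ 1 + C₁ * ⌊Real.exp ((j : ℝ) + 1)⌋₊ / Real.log z := h1.trans h2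
          _ ≤ Real.exp (j + 1) / Real.log z + C₁ * Real.exp (j + 1) / Real.log z := by
            gcongr
          _ = (1 + C₁) * Real.exp (j + 1) / Real.log z := by ring
    have hgs : 0 ≤ gs (β / 2) x j := by
      unfold gs
      positivity
    calc ∑ n ∈ Sj, gs β x (Real.log n) / n
        ≤ #Sj • (Real.exp β * gs (β / 2) x j * Real.exp (-j)) :=
          Finset.sum_le_card_nsmul _ _ _ hterm
      _ = #Sj * (Real.exp β * gs (β / 2) x j * Real.exp (-j)) := by rw [nsmul_eq_mul]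
      _ ≤ ((1 + C₁) * Real.exp (j + 1) / Real.log z) *
          (Real.exp β * gs (β / 2) x j * Real.exp (-j)) := by
        apply mul_le_mul_of_nonneg_right hcard
        positivity
      _ = (1 + C₁) * (Real.exp (j + 1) * Real.exp (-j)) * Real.exp β / Real.log z *
          gs (β / 2) x j := by ring
      _ = (1 + C₁) * Real.exp 1 * Real.exp β / Real.log z * gs (β / 2) x j := by
        rw [← Real.exp_add]
        congr 5
        ring
  calc _ ≤ ∑ j ∈ range (Z + 1),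
        (1 + C₁) * Real.exp 1 * Real.exp β / Real.log z * gs (β / 2) x j :=
        Finset.sum_le_sum hpiece
    _ = (1 + C₁) * Real.exp 1 * Real.exp β / Real.log z * ∑ j ∈ range (Z + 1), gs (β / 2) x j :=
        (Finset.mul_sum _ _ _).symm
    _ ≤ (1 + C₁) * Real.exp 1 * Real.exp β / Real.log z * C₂ := by
        apply mul_le_mul_of_nonneg_left (hgauss x (Z + 1))
        positivity
    _ = ((1 + C₁) * Real.exp 1 * Real.exp β * C₂) / Real.log z := by ring
    _ ≤ _ := by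
        gcongr
        exact le_max_right _ _

end Pool.Agent.E3
end

section

/-!
# B2: sums over the products `r₁ r₂`
-/

set_option autoImplicit false

namespace Pool.Agent.E3

open Finset MeasureTheory Real
open Pool.Agent.Lib.MP_bae66e_nt.AP3 (prI mem_prI)

/-- PROOF. `r₁ r₂ = r₁' r₂'` with primes `r₁, r₁' ≤ 2 R₁ ≤ R₂ < r₂, r₂'`: `r₂ ∣ r₁' r₂'` and `r₂ ≠ r₁'`, so `r₂ = r₂'`, `r₁ = r₁'`. -/
theorem SS_injOn (R₁ R₂ : ℕ) (h : 2 * R₁ ≤ R₂) :
    Set.InjOn (fun r : ℕ × ℕ => r.1 * r.2) (↑(IS R₁ ×ˢ IS R₂) : Set (ℕ × ℕ)) := by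
  intro i hi j hj hij
  rw [Finset.mem_coe, Finset.mem_product] at hi hj
  have hi1 := mem_prI.mp hi.1
  have hi2 := mem_prI.mp hi.2
  have hj1 := mem_prI.mp hj.1
  have hj2 := mem_prI.mp hj.2
  have hij' : i.1 * i.2 = j.1 * j.2 := hij
  have hdvd : i.2 ∣ j.1 * j.2 := hij' ▸ Dvd.intro_left _ rfl
  have h3 : i.2 = j.2 := by
    rcases (Nat.Prime.dvd_mul hi2.2).mp hdvd with h' | h'
    · exfalso
      have h4 := Nat.le_of_dvd hj1.2.pos h'
      omega
    · exact (Nat.prime_dvd_prime_iff_eq hi2.2 hj2.2).mp h'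
  have h4 : i.1 = j.1 := by
    rw [h3] at hij'
    exact Nat.eq_of_mul_eq_mul_right hj2.2.pos hij'
  exact Prod.ext h4 h3

/-- PROOF. `Finset.sum_image`, `SS_injOn`, `Finset.sum_product`. -/
theorem sum_SS {M : Type} [AddCommMonoid M] (R₁ R₂ : ℕ) (h : 2 * R₁ ≤ R₂) (g : ℕ → M) :
    ∑ s ∈ SS R₁ R₂, g s = ∑ r ∈ IS R₁, ∑ r' ∈ IS R₂, g (r * r') := by
  unfold SS
  rw [Finset.sum_image (SS_injOn R₁ R₂ h), Finset.sum_product]

/-- PROOF. Products of primes are positive; primes are positive. -/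
theorem SS_pos (R₁ R₂ X s q : ℕ) (hs : s ∈ SS R₁ R₂) (hq : q ∈ QS X) : 0 < s ∧ 0 < q := by
  refine ⟨?_, (mem_prI.mp hq).2.pos⟩
  unfold SS at hs
  rw [Finset.mem_image] at hs
  obtain ⟨r, hr, rfl⟩ := hs
  rw [Finset.mem_product] at hr
  exact Nat.mul_pos (mem_prI.mp hr.1).2.pos (mem_prI.mp hr.2).2.pos

private theorem B2_ph_mul (t a b : ℝ) (ha : 0 < a) (hb : 0 < b) :
    ph t (Real.log a) * ph t (Real.log b) = ph t (Real.log (a * b)) := by
  unfold ph
  rw [← Complex.exp_add]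
  congr 1
  rw [Real.log_mul ha.ne' hb.ne']
  push_cast
  ring

/-- PROOF. Expand the product of the three sums (`sum_SS`, `Finset.sum_mul_sum`): `ch χ` is multiplicative,
`ph t (log r) ph t (log r') ph t (log q) = ph t (log (r r' q))`, and `PQ` has the weight `gs 1 (log Y) (log q)/q = om Y q/q`. -/
theorem PRPRPQ_eq {W : ℕ} (χ : DirichletCharacter ℂ W) (R₁ R₂ X : ℕ) (Y t : ℝ) (h : 2 * R₁ ≤ R₂) :
    PR χ R₁ t * PR χ R₂ t * PQ χ X Y t
      = ∑ s ∈ SS R₁ R₂, ∑ q ∈ QS X, ch χ (s * q) * ((om Y q / (s * q) : ℝ) : ℂ) * ph t (Real.log (s * q)) := by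
  rw [sum_SS R₁ R₂ h]
  unfold PR PQ DP WIN
  rw [Finset.sum_mul_sum, Finset.sum_mul]
  refine Finset.sum_congr rfl fun r hr => ?_
  rw [Finset.sum_mul]
  refine Finset.sum_congr rfl fun r' hr' => ?_
  rw [Finset.mul_sum]
  refine Finset.sum_congr rfl fun q hq => ?_
  have h1 : (0 : ℝ) < r := by exact_mod_cast (mem_prI.mp hr).2.pos
  have h2 : (0 : ℝ) < r' := by exact_mod_cast (mem_prI.mp hr').2.pos
  have h3 : (0 : ℝ) < q := by exact_mod_cast (mem_prI.mp hq).2.pos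
  have e1 : ch χ (r * r' * q) = ch χ r * ch χ r' * ch χ q := by
    unfold ch
    push_cast
    rw [map_mul, map_mul]
  have e2 : ph t (Real.log (((r * r' : ℕ) : ℝ) * q)) = ph t (Real.log r) * ph t (Real.log r') * ph t (Real.log q) := by
    rw [Nat.cast_mul, ← B2_ph_mul t _ _ (mul_pos h1 h2) h3, ← B2_ph_mul t _ _ h1 h2]
  rw [e1, e2]
  unfold om
  push_cast
  have h1' : (r : ℂ) ≠ 0 := by exact_mod_cast h1.ne'
  have h2' : (r' : ℂ) ≠ 0 := by exact_mod_cast h2.ne'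
  have h3' : (q : ℂ) ≠ 0 := by exact_mod_cast h3.ne'
  field_simp

end Pool.Agent.E3
end

section

/-!
# A2a: the function `f`
-/

set_option autoImplicit false

namespace Pool.Agent.E3

open Finset Real
open Pool.Agent.Lib.MP_bae66e_nt.AP3 (prI mem_prI)

/-- PROOF. Every summand is `0` or a value of `om`, an exponential, which is `≤ 1`. -/
theorem om_bounds (Y : ℝ) (q : ℕ) : 0 < om Y q ∧ om Y q ≤ 1 := by
  unfold om gs
  refine ⟨Real.exp_pos _, ?_⟩
  rw [Real.exp_le_one_iff]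
  have := sq_nonneg (Real.log Y - Real.log q)
  linarith

/-- PROOF. `om_bounds`. -/
theorem fS_nonneg (S : Finset ℕ) (Y : ℝ) (X n : ℕ) : 0 ≤ fS S Y X n := by
  unfold fS
  refine Finset.sum_nonneg fun s _ => Finset.sum_nonneg fun q _ => ?_
  split_ifs
  · exact (om_bounds Y q).1.le
  · exact le_rfl

/-- PROOF. A term `s q = n` has `s ≥ 1` and `q > Nat.sqrt X` (`SS_pos`, `mem_prI`), so `n > Nat.sqrt X`. -/
theorem fS_small (R₁ R₂ X n : ℕ) (Y : ℝ) (hn : n ≤ Nat.sqrt X) : fS (SS R₁ R₂) Y X n = 0 := by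
  unfold fS
  refine Finset.sum_eq_zero fun s hs => Finset.sum_eq_zero fun q hq => ?_
  rw [if_neg]
  intro h
  have h1 := (SS_pos R₁ R₂ X s q hs hq).1
  have h2 := (mem_prI.mp hq).1.1
  have h3 : q ≤ s * q := Nat.le_mul_of_pos_left q h1
  omega

private theorem A2a_mem_SS {R₁ R₂ s : ℕ} (hs : s ∈ SS R₁ R₂) : ∃ r₁ r₂ : ℕ, r₁.Prime ∧ r₂.Prime ∧
    R₁ < r₁ ∧ r₁ ≤ 2 * R₁ ∧ R₂ < r₂ ∧ r₂ ≤ 2 * R₂ ∧ s = r₁ * r₂ := by
  unfold SS at hs
  rw [Finset.mem_image] at hs
  obtain ⟨r, hr, rfl⟩ := hs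
  rw [Finset.mem_product] at hr
  have h1 := mem_prI.mp hr.1
  have h2 := mem_prI.mp hr.2
  exact ⟨r.1, r.2, h1.2, h2.2, h1.1.1, h1.1.2, h2.1.1, h2.1.2, rfl⟩

/-- PROOF. `s = r₁ r₂ ≤ 4 R₁ R₂`, `q ≤ X²`. -/
theorem fS_big (R₁ R₂ X n : ℕ) (Y : ℝ) (hn : 4 * (R₁ * R₂) * X ^ 2 + 1 ≤ n) : fS (SS R₁ R₂) Y X n = 0 := by
  unfold fS
  refine Finset.sum_eq_zero fun s hs => Finset.sum_eq_zero fun q hq => ?_
  rw [if_neg]
  intro h
  obtain ⟨r₁, r₂, -, -, -, h1, -, h2, rfl⟩ := A2a_mem_SS hs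
  have h3 := (mem_prI.mp hq).1.2
  have h4 : r₁ * r₂ * q ≤ (2 * R₁) * (2 * R₂) * X ^ 2 :=
    Nat.mul_le_mul (Nat.mul_le_mul h1 h2) h3
  have h5 : (2 * R₁) * (2 * R₂) * X ^ 2 = 4 * (R₁ * R₂) * X ^ 2 := by ring
  omega

private theorem A2a_inj {R₁ R₂ X s s' q q' : ℕ} (h12 : 2 * R₁ ≤ R₂) (hX : 2 * R₂ ≤ Nat.sqrt X)
    (hs' : s' ∈ SS R₁ R₂) (hq : q ∈ QS X) (hq' : q' ∈ QS X)
    (h : s * q = s' * q') : s = s' ∧ q = q' := by
  have hqp := mem_prI.mp hq
  have hqp' := mem_prI.mp hq'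
  obtain ⟨r₁, r₂, hr1, hr2, -, h1, -, h2, hs''⟩ := A2a_mem_SS hs'
  have hdvd : q ∣ s' * q' := h ▸ Dvd.intro_left s rfl
  have h3 : q = q' := by
    rcases (Nat.Prime.dvd_mul hqp.2).mp hdvd with h' | h'
    · exfalso
      rw [hs''] at h'
      rcases (Nat.Prime.dvd_mul hqp.2).mp h' with h'' | h''
      · have := Nat.le_of_dvd hr1.pos h''
        omega
      · have := Nat.le_of_dvd hr2.pos h''
        omega
    · exact (Nat.prime_dvd_prime_iff_eq hqp.2 hqp'.2).mp h'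
  subst h3
  exact ⟨Nat.eq_of_mul_eq_mul_right hqp.2.pos h, rfl⟩

/-- PROOF. `n = s q = s' q'` with `s = r₁ r₂`, `s' = r₁' r₂'`, all `r ≤ 2 R₂ ≤ Nat.sqrt X < q, q'` (`2 R₁ ≤ R₂`): the prime `q` divides `r₁' r₂' q'` and is larger than
`r₁', r₂'`, so `q = q'` and then `s = s'`. So at most one pair `(s, q)` contributes and `fS n` is `0` or `om Y q ≤ 1`. -/
theorem fS_le_one (R₁ R₂ X n : ℕ) (Y : ℝ) (h12 : 2 * R₁ ≤ R₂) (hX : 2 * R₂ ≤ Nat.sqrt X) :
    fS (SS R₁ R₂) Y X n ≤ 1 := by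
  unfold fS
  rw [← Finset.sum_product', ← Finset.sum_filter]
  set F := (SS R₁ R₂ ×ˢ QS X).filter (fun x : ℕ × ℕ => x.1 * x.2 = n) with hF
  have hcard : #F ≤ 1 := by
    rw [Finset.card_le_one]
    intro a ha b hb
    rw [hF, Finset.mem_filter, Finset.mem_product] at ha hb
    have := A2a_inj h12 hX hb.1.1 ha.1.2 hb.1.2 (ha.2.trans hb.2.symm)
    exact Prod.ext this.1 this.2
  calc ∑ x ∈ F, om Y x.2 ≤ ∑ x ∈ F, (1 : ℝ) := Finset.sum_le_sum fun x _ => (om_bounds Y x.2).2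
    _ = (#F : ℝ) := by rw [Finset.sum_const, nsmul_eq_mul, mul_one]
    _ ≤ 1 := by exact_mod_cast hcard

private theorem A2a_count (N m : ℕ) (z : ℝ) (hz : 0 ≤ z) :
    ∑ n ∈ range N, (if m = n then z else 0) ≤ z := by
  rw [Finset.sum_ite_eq]
  split_ifs
  · exact le_rfl
  · exact hz

/-- PROOF. `fS_nonneg`, `fS_le_one`: `(fS n)² ≤ fS n`; exchange the sums over `n` and over `(s, q)`: every pair `(s, q)` is counted for at most one `n`. -/
theorem cc_zero_sum (R₁ R₂ X N : ℕ) (Y : ℝ) (h12 : 2 * R₁ ≤ R₂) (hX : 2 * R₂ ≤ Nat.sqrt X) :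
    cc (fS (SS R₁ R₂) Y X) N 0 ≤ (#(SS R₁ R₂) : ℝ) * ∑ q ∈ QS X, om Y q := by
  unfold cc
  calc ∑ n ∈ range N, fS (SS R₁ R₂) Y X n * fS (SS R₁ R₂) Y X (n + 0)
      ≤ ∑ n ∈ range N, fS (SS R₁ R₂) Y X n := by
        refine Finset.sum_le_sum fun n _ => ?_
        have h0 := fS_nonneg (SS R₁ R₂) Y X n
        have h1 := fS_le_one R₁ R₂ X n Y h12 hX
        rw [add_zero]
        nlinarith
    _ = ∑ s ∈ SS R₁ R₂, ∑ q ∈ QS X, ∑ n ∈ range N, (if s * q = n then om Y q else 0) := by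
        unfold fS
        rw [Finset.sum_comm]
        refine Finset.sum_congr rfl fun s _ => ?_
        rw [Finset.sum_comm]
    _ ≤ ∑ s ∈ SS R₁ R₂, ∑ q ∈ QS X, om Y q :=
        Finset.sum_le_sum fun s _ => Finset.sum_le_sum fun q _ =>
          A2a_count N (s * q) (om Y q) (om_bounds Y q).1.le
    _ = (#(SS R₁ R₂) : ℝ) * ∑ q ∈ QS X, om Y q := by
        rw [Finset.sum_const, nsmul_eq_mul]

private theorem A2a_inner (Y : ℝ) (X s' m : ℕ) (hs' : 0 < s') :
    ∑ q' ∈ QS X, (if s' * q' = m then om Y q' else 0) ≤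
      if s' ∣ m ∧ (m / s').Prime then (1 : ℝ) else 0 := by
  by_cases h : ∃ q' ∈ QS X, s' * q' = m
  · obtain ⟨q0, hq0, h0⟩ := h
    have h1 : m / s' = q0 := by rw [← h0]; exact Nat.mul_div_cancel_left q0 hs'
    have h2 : s' ∣ m ∧ (m / s').Prime := ⟨⟨q0, h0.symm⟩, by rw [h1]; exact (mem_prI.mp hq0).2⟩
    rw [if_pos h2, Finset.sum_eq_single_of_mem q0 hq0]
    · rw [if_pos h0]
      exact (om_bounds Y q0).2
    · intro q' _ hne
      rw [if_neg]
      intro h3
      exact hne (Nat.eq_of_mul_eq_mul_left hs' (h3.trans h0.symm))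
  · rw [Finset.sum_eq_zero]
    · split_ifs <;> norm_num
    · intro q' hq'
      rw [if_neg]
      intro h3
      exact h ⟨q', hq', h3⟩

/-- PROOF. Insert the definition of `fS` twice and exchange the sums: `cc f N d = ∑_{s, s'} ∑_{q, q'} om q om q' #{n < N : s q = n, s' q' = n + d}`. The
inner number is `≤ 1`, and it is `0` unless `s' q' = s q + d`, i.e. `s' ∣ s q + d` and `q' = (s q + d)/s'`. So for given `s, s', q` there is at most one
`q'`, which is a prime, and `om q' ≤ 1`. -/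
theorem cc_pair_sum (R₁ R₂ X N d : ℕ) (Y : ℝ) :
    cc (fS (SS R₁ R₂) Y X) N d ≤ ∑ s ∈ SS R₁ R₂, ∑ s' ∈ SS R₁ R₂,
      ∑ q ∈ (QS X).filter (fun q => s' ∣ s * q + d ∧ ((s * q + d) / s').Prime), om Y q := by
  unfold cc
  have hstep : ∀ n ∈ range N, fS (SS R₁ R₂) Y X n * fS (SS R₁ R₂) Y X (n + d) ≤
      ∑ s ∈ SS R₁ R₂, ∑ s' ∈ SS R₁ R₂, ∑ q ∈ QS X,
        (if s * q = n then (if s' ∣ s * q + d ∧ ((s * q + d) / s').Prime then om Y q else 0) else 0) := by
    intro n _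
    have h1 : fS (SS R₁ R₂) Y X (n + d) ≤
        ∑ s' ∈ SS R₁ R₂, (if s' ∣ n + d ∧ ((n + d) / s').Prime then (1 : ℝ) else 0) := by
      unfold fS
      refine Finset.sum_le_sum fun s' hs' => A2a_inner Y X s' (n + d) ?_
      obtain ⟨r₁, r₂, hr1, hr2, -, -, -, -, rfl⟩ := A2a_mem_SS hs'
      exact Nat.mul_pos hr1.pos hr2.pos
    refine (mul_le_mul_of_nonneg_left h1 (fS_nonneg (SS R₁ R₂) Y X n)).trans (le_of_eq ?_)
    rw [Finset.mul_sum]
    unfold fS
    refine Eq.trans ?_ Finset.sum_comm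
    refine Finset.sum_congr rfl fun s' _ => ?_
    rw [Finset.sum_mul]
    refine Finset.sum_congr rfl fun s _ => ?_
    rw [Finset.sum_mul]
    refine Finset.sum_congr rfl fun q _ => ?_
    by_cases h2 : s * q = n
    · rw [if_pos h2, if_pos h2, h2]
      split_ifs
      · rw [mul_one]
      · rw [mul_zero]
    · rw [if_neg h2, if_neg h2, zero_mul]
  refine (Finset.sum_le_sum hstep).trans ?_
  rw [Finset.sum_comm]
  refine Finset.sum_le_sum fun s _ => ?_
  rw [Finset.sum_comm]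
  refine Finset.sum_le_sum fun s' _ => ?_
  rw [Finset.sum_comm, Finset.sum_filter]
  refine Finset.sum_le_sum fun q _ => A2a_count N (s * q) _ ?_
  split_ifs
  · exact (om_bounds Y q).1.le
  · exact le_rfl

end Pool.Agent.E3
end
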