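import Pool.Agent.Lib.MP_bae66e_nt.Mg.G001

section

/-!
# V5a: iterated differences and derivatives
-/

set_option autoImplicit false

namespace Pool.Agent.E3

open Finset MeasureTheory Real
open Pool.Agent.MC (ee)

/-- the mean value theorem for a function with its derivative on a closed interval -/
private lemma V5a_mvt (f f' : ℝ → ℝ) (a b : ℝ) (hab : a < b)
    (h : ∀ x ∈ Set.Icc a b, HasDerivAt f (f' x) x) :
    ∃ ξ ∈ Set.Icc a b, f b - f a = (b - a) * f' ξ := by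
  obtain ⟨ξ, hξ, he⟩ := exists_hasDerivAt_eq_slope f f' hab
    (fun x hx => (h x hx).continuousAt.continuousWithinAt)
    (fun x hx => h x (Set.Ioo_subset_Icc_self hx))
  refine ⟨ξ, Set.Ioo_subset_Icc_self hξ, ?_⟩
  have : b - a ≠ 0 := by linarith
  rw [he]
  field_simp

/-- PROOF. Induction on `k` (generalising everything). `k = 0`: put `H x = g 0 (x+1) - g 0 x`,
`H' x = g 1 (x+1) - g 1 x`. Mean value theorem: `f (n+2) - 2 f (n+1) + f n = H (a+n+1) - H (a+n) = H' ξ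
= g 1 (ξ+1) - g 1 ξ = g 2 η`, `ξ ∈ (a+n, a+n+1)`, `η ∈ (ξ, ξ+1) ⊂ [a, b]` (`n + 2 < M`, `a + M ≤ b`).
Step: for `1 ≤ r < M` the function `n ↦ f (n+r) - f n` is `n ↦ G 0 (a + n)` with
`G j x = g j (x + r) - g j x` on `[a, b - r]`, and `G (k+2) x = g (k+2) (x+r) - g (k+2) x = r g (k+3) ξ` is in
`[r l, r L]` by the mean value theorem; `a + (M - r) ≤ b - r`. -/
theorem dc_of_deriv (k : ℕ) : ∀ (M : ℕ) (a b l L : ℝ) (g : ℕ → ℝ → ℝ), 0 < l → l ≤ L →
    a + M ≤ b → (∀ j, ∀ x ∈ Set.Icc a b, HasDerivAt (g j) (g (j + 1) x) x) →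
    (∀ x ∈ Set.Icc a b, l ≤ g (k + 2) x ∧ g (k + 2) x ≤ L) →
    DC k M l (L / l) (fun n => g 0 (a + n)) := by
  induction k with
  | zero =>
    intro M a b l L g hl hlL hab hd hb n hn
    have hnM : ((n : ℝ) + 2) ≤ M := by
      have : n + 2 ≤ M := by omega
      exact_mod_cast this
    have hn0 : (0 : ℝ) ≤ n := Nat.cast_nonneg n
    obtain ⟨ξ, hξ, h1⟩ := V5a_mvt (fun x => g 0 (x + 1) - g 0 x) (fun x => g 1 (x + 1) - g 1 x)
      (a + n) (a + n + 1) (by linarith) (fun x hx => by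
        have hx1 := hx.1
        have hx2 := hx.2
        exact (HasDerivAt.comp_add_const x 1 (hd 0 (x + 1) ⟨by linarith, by linarith⟩)).sub
          (hd 0 x ⟨by linarith, by linarith⟩))
    obtain ⟨η, hη, h2⟩ := V5a_mvt (g 1) (g 2) ξ (ξ + 1) (by linarith) (fun x hx => by
        have hx1 := hx.1
        have hx2 := hx.2
        have hξ1 := hξ.1
        have hξ2 := hξ.2
        exact hd 1 x ⟨by linarith, by linarith⟩)
    have hb2 := hb η ⟨by linarith [hη.1, hξ.1], by linarith [hη.2, hξ.2]⟩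
    have h3 : g 0 (a + ((n + 2 : ℕ) : ℝ)) - 2 * g 0 (a + ((n + 1 : ℕ) : ℝ)) + g 0 (a + (n : ℝ))
        = g 2 η := by
      have e1 : a + ((n + 2 : ℕ) : ℝ) = a + n + 1 + 1 := by push_cast; ring
      have e2 : a + ((n + 1 : ℕ) : ℝ) = a + n + 1 := by push_cast; ring
      rw [e1, e2]
      have e3 : a + (n : ℝ) + 1 - (a + n) = 1 := by ring
      have e4 : ξ + 1 - ξ = 1 := by ring
      rw [e3, one_mul] at h1
      rw [e4, one_mul] at h2
      linarith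
    have h4 : L / l * l = L := by field_simp
    change l ≤ g 0 (a + ((n + 2 : ℕ) : ℝ)) - 2 * g 0 (a + ((n + 1 : ℕ) : ℝ)) + g 0 (a + (n : ℝ)) ∧
      g 0 (a + ((n + 2 : ℕ) : ℝ)) - 2 * g 0 (a + ((n + 1 : ℕ) : ℝ)) + g 0 (a + (n : ℝ)) ≤ L / l * l
    rw [h3, h4]
    exact hb2
  | succ k ih =>
    intro M a b l L g hl hlL hab hd hb r hr1 hrM
    have hr0 : (0 : ℝ) < r := by exact_mod_cast hr1
    have hrM' : (r : ℝ) ≤ M := by exact_mod_cast hrM.le
    have hcast : ((M - r : ℕ) : ℝ) = M - r := by rw [Nat.cast_sub hrM.le]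
    have h1 := ih (M - r) a (b - r) (r * l) (r * L) (fun j x => g j (x + r) - g j x)
      (by positivity) (by gcongr) (by rw [hcast]; linarith)
      (fun j x hx => by
        have hx1 := hx.1
        have hx2 := hx.2
        exact (HasDerivAt.comp_add_const x (r : ℝ) (hd j (x + r) ⟨by linarith, by linarith⟩)).sub
          (hd j x ⟨by linarith, by linarith⟩))
      (fun x hx => by
        have hx1 := hx.1
        have hx2 := hx.2
        obtain ⟨ξ, hξ, h2⟩ := V5a_mvt (g (k + 2)) (g (k + 3)) x (x + r) (by linarith)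
          (fun y hy => hd (k + 2) y ⟨by linarith [hy.1], by linarith [hy.2]⟩)
        have hb2 := hb ξ ⟨by linarith [hξ.1], by linarith [hξ.2]⟩
        have e1 : x + (r : ℝ) - x = r := by ring
        rw [e1] at h2
        rw [h2]
        constructor
        · exact mul_le_mul_of_nonneg_left hb2.1 hr0.le
        · exact mul_le_mul_of_nonneg_left hb2.2 hr0.le)
    have h2 : (r : ℝ) * L / (r * l) = L / l := by
      rw [mul_div_mul_left _ _ hr0.ne']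
    rw [h2] at h1
    have h3 : (fun n : ℕ => (fun n : ℕ => g 0 (a + (n : ℝ))) (n + r) - (fun n : ℕ => g 0 (a + (n : ℝ))) n) =
        fun n : ℕ => g 0 (a + (n : ℝ) + r) - g 0 (a + (n : ℝ)) := by
      funext n
      simp only
      have e1 : a + ((n + r : ℕ) : ℝ) = a + n + r := by push_cast; ring
      rw [e1]
    rw [h3]
    exact h1

end Pool.Agent.E3
end

section

/-!
# V5b: iterated differences of the logarithm
-/

set_option autoImplicit false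

namespace Pool.Agent.E3

open Finset MeasureTheory Real
open Pool.Agent.MC (ee)

/-- the iterated derivatives of `c log x` -/
private noncomputable def v5b_g (c : ℝ) : ℕ → ℝ → ℝ
  | 0, x => c * Real.log x
  | j + 1, x => c * ((-1) ^ j * (j.factorial : ℝ) * (x ^ (j + 1))⁻¹)

private theorem v5b_deriv (c : ℝ) (j : ℕ) (x : ℝ) (hx : 0 < x) :
    HasDerivAt (v5b_g c j) (v5b_g c (j + 1) x) x := by
  cases j with
  | zero =>
    have h := (Real.hasDerivAt_log hx.ne').const_mul c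
    refine h.congr_deriv ?_
    simp [v5b_g]
  | succ j =>
    have h1 : HasDerivAt (fun y : ℝ => y ^ (j + 1)) (((j + 1 : ℕ) : ℝ) * x ^ j) x := by
      simpa using hasDerivAt_pow (j + 1) x
    have h2 := (h1.fun_inv (pow_pos hx (j + 1)).ne').const_mul ((-1) ^ j * (j.factorial : ℝ))
    have h3 := h2.const_mul c
    refine h3.congr_deriv ?_
    change _ = c * ((-1) ^ (j + 1) * ((j + 1).factorial : ℝ) * (x ^ (j + 1 + 1))⁻¹)
    rw [Nat.factorial_succ]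
    push_cast
    field_simp
    ring

/-- PROOF. `dc_of_deriv` on `[a, b] = [N + θ, N + θ + M] ⊂ [N, 3 N]` with `g 0 x = (-1)^(k+1) (u / 2π) log x` and
`g j x = (-1)^(k+1) (u / 2π) (-1)^(j-1) (j-1)! x^(-j)` for `j ≥ 1`. Then
`g (k+2) x = (u / 2π) (k+1)! x^(-(k+2))` lies between `(u / 2π) (k+1)! / (3N)^(k+2)` and
`(u / 2π) (k+1)! / N^(k+2)`, whose quotient is `3^(k+2)`. -/
theorem dc_log (k N M : ℕ) (hN : 1 ≤ N) (hM : M ≤ N) (θ u : ℝ) (hθ : 0 ≤ θ) (hθ1 : θ ≤ 1) (hu : 0 < u) :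
    DC k M (u / (2 * π) * (k + 1).factorial / (3 * (N : ℝ)) ^ (k + 2)) (3 ^ (k + 2))
      (fun n => (-1) ^ (k + 1) * (u / (2 * π)) * Real.log (N + n + θ)) := by
  have hN' : (1 : ℝ) ≤ N := by exact_mod_cast hN
  have hM' : (M : ℝ) ≤ N := by exact_mod_cast hM
  have hN0 : (0 : ℝ) < N := by linarith
  have hc : 0 < u / (2 * π) := by positivity
  obtain ⟨c, hcc⟩ : ∃ c, c = u / (2 * π) := ⟨_, rfl⟩
  rw [← hcc] at hc ⊢
  have hf : (0 : ℝ) < ((k + 1).factorial : ℝ) := by exact_mod_cast (k + 1).factorial_pos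
  have h1 : (0 : ℝ) < c * (k + 1).factorial / (3 * (N : ℝ)) ^ (k + 2) := by positivity
  have key := dc_of_deriv k M ((N : ℝ) + θ) ((N : ℝ) + θ + M)
    (c * (k + 1).factorial / (3 * (N : ℝ)) ^ (k + 2)) (c * (k + 1).factorial / (N : ℝ) ^ (k + 2))
    (v5b_g ((-1) ^ (k + 1) * c)) h1 ?_ le_rfl ?_ ?_
  · have e1 : c * (k + 1).factorial / (N : ℝ) ^ (k + 2) /
        (c * (k + 1).factorial / (3 * (N : ℝ)) ^ (k + 2)) = 3 ^ (k + 2) := by
      rw [mul_pow]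
      field_simp
    rw [e1] at key
    have e2 : (fun n : ℕ => v5b_g ((-1) ^ (k + 1) * c) 0 ((N : ℝ) + θ + n)) =
        fun n : ℕ => (-1) ^ (k + 1) * c * Real.log (N + n + θ) := by
      funext n
      change (-1) ^ (k + 1) * c * Real.log ((N : ℝ) + θ + n) = _
      rw [add_right_comm]
    rw [e2] at key
    exact key
  · refine div_le_div_of_nonneg_left (by positivity) (by positivity) ?_
    exact pow_le_pow_left₀ hN0.le (by linarith) _
  · intro j x hx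
    exact v5b_deriv _ j x (by linarith [hx.1])
  · intro x hx
    have hx0 : 0 < x := by linarith [hx.1]
    have hxN : (N : ℝ) ≤ x := by linarith [hx.1]
    have hx3 : x ≤ 3 * (N : ℝ) := by linarith [hx.2]
    have e3 : v5b_g ((-1) ^ (k + 1) * c) (k + 2) x = c * (k + 1).factorial / x ^ (k + 2) := by
      change (-1) ^ (k + 1) * c * ((-1) ^ (k + 1) * ((k + 1).factorial : ℝ) * (x ^ (k + 1 + 1))⁻¹) = _
      have e4 : ((-1 : ℝ) ^ (k + 1)) * (-1) ^ (k + 1) = 1 := by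
        rw [← mul_pow]; norm_num
      rw [div_eq_mul_inv]
      linear_combination (c * ((k + 1).factorial : ℝ) * (x ^ (k + 1 + 1))⁻¹) * e4
    rw [e3]
    constructor
    · refine div_le_div_of_nonneg_left (by positivity) (by positivity) ?_
      exact pow_le_pow_left₀ hx0.le hx3 _
    · refine div_le_div_of_nonneg_left (by positivity) (by positivity) ?_
      exact pow_le_pow_left₀ hN0.le hxN _

end Pool.Agent.E3
end

section

/-!
# Interfaces of the second theorem (almost all even `m` have a multiple `r m` with `r` prime, `r ≤ (log m)^C`, `g(r m) ≤ (log m)^C`)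

`m ∈ [M, 2M]`, `R = ⌊(log M)^a⌋`, `r ∈ (R, 2R]`, `q` of size `X = M R`, `H = 2 R²`.
-/

set_option autoImplicit false

namespace Pool.Agent.E3

open Finset MeasureTheory Real
open Pool.Agent.Lib.MP_bae66e_nt.LL (fP gW)

/-- `R = ⌊(log M)^a⌋` -/
noncomputable def RJ (a : ℝ) (M : ℕ) : ℕ := ⌊(Real.log M) ^ a⌋₊

/-- `X = M R`, the size of the primes `q` -/
noncomputable def XJ (a : ℝ) (M : ℕ) : ℕ := M * RJ a M

/-- `H = 2 R²` -/
noncomputable def HJ (a : ℝ) (M : ℕ) : ℕ := 2 * RJ a M ^ 2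

/-- the expected size of the number of `(s, q)`, `s ∈ IS R` and `q ∈ [s m - H, s m)` prime: `R H / (log R log M)` -/
noncomputable def GJ (a : ℝ) (M : ℕ) : ℝ :=
  ((RJ a M : ℝ) * HJ a M) / (Real.log (RJ a M) * Real.log M)

/-- COREJ (helper55): the Dirichlet polynomial `R Q` is small in mean square off the real axis. -/
def COREJ (a : ℝ) : Prop := ∀ W : ℕ, 1 ≤ W → ∀ δ : ℝ, 0 < δ →
  ∃ T₀ : ℝ, 1 ≤ T₀ ∧ ∃ X₀ : ℕ, ∀ X : ℕ, X₀ ≤ X → ∀ χ₁ χ₃ : DirichletCharacter ℂ W,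
  ∀ R : ℕ, (Real.log X) ^ a ≤ R → (R : ℝ) ≤ (Real.log X) ^ (a + 1) →
  ∀ Y Δ : ℝ, (X : ℝ) ^ (0.99 : ℝ) ≤ Y → Y ≤ X → 0 < Δ → Δ ≤ (X : ℝ) ^ (-(1 / 2) : ℝ) →
    1 ≤ Δ * Y → Real.log X ≤ Δ * X →
    ∫ t in {t : ℝ | T₀ ≤ |t|}, Real.exp (-(Δ * t) ^ 2) * ‖PR χ₁ R t * PQ χ₃ X Y t‖ ^ 2
      ≤ δ * (1 / (Real.log R * Real.log X)) ^ 2

/-- the window of width `d` of the quotients `q / s`, `s ∈ IS R`, `q ≡ s v` modulo `W` -/
noncomputable def WJ (W v R X : ℕ) (d x : ℝ) : ℝ :=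
  ∑ s ∈ IS R, ∑ q ∈ (QS X).filter (fun q => q ≡ s * v [MOD W]),
    om X q / (s * q) * gsn d (x - Real.log ((q : ℝ) / s))

/-- PAPJ (helper60): lower bound for long Gaussian windows of the quotients. `c₁` absolute. -/
def PAPJ : Prop := ∃ c₁ : ℝ, 0 < c₁ ∧ ∀ a : ℝ, 3 ≤ a → ∀ W : ℕ, 1 ≤ W →
  ∀ L : ℝ, 0 < L → L ≤ 1 → ∃ M₀ : ℕ, ∀ M : ℕ, M₀ ≤ M → ∀ v : ℕ, Nat.Coprime v W → ∀ x : ℝ,
    |x - Real.log M| ≤ 1 →
    c₁ / (Real.log (RJ a M) * Real.log M) / Nat.totient W ≤ WJ W v (RJ a M) (XJ a M) L x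

/-- WINJ (helper60; from `COREJ a'`, `a = a' + 1/2`, and PAPJ): for almost all `m` there are many `(s, q)` with
`q ∈ [s m - H, s m)` prime and `q ≡ s v` modulo `W`. -/
def WINJ (a : ℝ) : Prop := ∃ c₀ : ℝ, 0 < c₀ ∧ ∀ W : ℕ, 1 ≤ W → ∀ δ : ℝ, 0 < δ →
  ∃ M₀ : ℕ, ∀ M : ℕ, M₀ ≤ M → ∀ v : ℕ, Nat.Coprime v W →
    (#{m ∈ Icc M (2 * M) | ∑ s ∈ IS (RJ a M),
        (#{q ∈ Ico (s * m - HJ a M) (s * m) | q.Prime ∧ q ≡ s * v [MOD W]} : ℝ)
        < c₀ * GJ a M / Nat.totient W} : ℝ) ≤ δ * M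

/-- VARJ (helper55): the variance of the primes against the W-model over the `t ≤ H` with `s m - t` prime. -/
def VARJ (a : ℝ) : Prop := ∀ η : ℝ, 0 < η → ∃ w₀ : ℕ, ∀ w : ℕ, w₀ ≤ w → ∃ M₀ : ℕ,
  ∀ M : ℕ, M₀ ≤ M →
    ∑ m ∈ Icc M (2 * M), (∑ s ∈ IS (RJ a M), ∑ t ∈ Icc 1 (HJ a M),
        (fP (HJ a M) (t : ℤ) - gW (primorial w) (HJ a M) (t : ℤ)) * (if (s * m - t).Prime then 1 else 0)) ^ 2
      ≤ η * M * (GJ a M) ^ 2

open Classical in
/-- FINALJ (helper55): the theorem -/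
def FINALJ : Prop := ∃ C : ℝ, 0 < C ∧ ∀ δ : ℝ, 0 < δ → ∃ N₀ : ℕ, ∀ N : ℕ, N₀ ≤ N →
  (#{m ∈ Icc 1 N | Even m ∧ ¬ ∃ p r q : ℕ, p.Prime ∧ r.Prime ∧ q.Prime ∧
      r * m = p + q ∧ (p : ℝ) ≤ (Real.log m) ^ C ∧ (r : ℝ) ≤ (Real.log m) ^ C} : ℝ) ≤ δ * N

end Pool.Agent.E3
end
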