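import Pool.Agent.Lib.MP_bae66e_nt.Mg.G078
import Pool.Agent.Lib.MP_9cfc0a_nt.Arcs
import Pool.Agent.Lib.MP_d807e3_co.Divisors

section

/-!
# The main term: exact formula and the sums over `r`
-/

set_option autoImplicit false

namespace Pool.Agent.Lib.MP_bae66e_nt.AP3

open Finset Nat ArithmeticFunction MeasureTheory intervalIntegral

open scoped ArithmeticFunction.Moebius

/-- the numerator at a small prime -/
noncomputable def Gp (T Z p : ℕ) : ℝ :=
  ∑ r ∈ (dset T Z).filter (fun r => ¬ p ∣ r),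
    (Yf Z r - (if p * r ∈ dset T Z then Yf Z (p * r) else 0)) ^ 2 / φ r

/-- the second moment of the profile -/
noncomputable def S2 (T Z : ℕ) : ℝ := ∑ r ∈ dset T Z, Yf Z r ^ 2 / φ r

/-- the main term -/
noncomputable def MM (T Z Y N L : ℕ) : ℝ :=
  ∑ D ∈ dset T (T ^ L), ww T Z Y N D * (1 / (D : ℝ))

lemma MM_eq {T Z Y N L : ℕ} (h : Par T Z Y N) (hL : Z ^ 3 ≤ T ^ L) :
    MM T Z Y N L = (S2 T Z - ∑ p ∈ prI T Z, 1 / (p : ℝ) * Gp T Z p) / S1 T Z ^ 2
      - ∑ q ∈ prI Z Y, (1 - 3 * (Real.log q / Real.log N)) * (1 / q * (1 / HH T (RR Z q))) := by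
  have hT := h.hT
  have hTZ := h.hTZ
  have hZY := h.hZY
  have hZ2 : 2 ≤ Z := hT.trans hTZ
  have hS1 := S1_pos T Z hZ2
  unfold MM
  rw [sum_ww h hL]
  unfold II
  rw [sum_sigma]
  have hQ : ∀ p : ℕ, ∑ s ∈ SS T Z p ×ˢ SS T Z p, cc T Z N ⟨p, s⟩ * (1 / (DD ⟨p, s⟩ : ℝ))
      = aa Z N p * ∑ d₁ ∈ SS T Z p, ∑ d₂ ∈ SS T Z p, ll T Z p d₁ * ll T Z p d₂
        * (1 / (Nat.lcm (Nat.lcm d₁ d₂) p : ℝ)) := by
    intro p
    rw [sum_product, mul_sum]
    apply sum_congr rfl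
    intro d₁ _
    rw [mul_sum]
    apply sum_congr rfl
    intro d₂ _
    unfold cc DD
    ring
  rw [sum_congr rfl (fun p _ => hQ p)]
  have h1mem : (1 : ℕ) ∉ prI T Y := fun h1 => (mem_prI.mp h1).2.one_lt.ne' rfl
  unfold P0
  rw [sum_insert h1mem]
  -- the term 1
  have e1 : aa Z N 1 * ∑ d₁ ∈ SS T Z 1, ∑ d₂ ∈ SS T Z 1, ll T Z 1 d₁ * ll T Z 1 d₂
        * (1 / (Nat.lcm (Nat.lcm d₁ d₂) 1 : ℝ)) = S2 T Z / S1 T Z ^ 2 := by
    unfold ll
    rw [quad_one _ (divClosed_SS T Z 1)]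
    unfold aa S2
    rw [if_pos rfl, one_mul, sum_div]
    have h1Z : 1 ≤ Z := by omega
    unfold SS yy
    simp only [if_pos h1Z]
    apply sum_congr rfl
    intro r _
    rw [div_pow]
    ring
  have hsplit : prI T Y = prI T Z ∪ prI Z Y := by
    ext p
    rw [mem_union, mem_prI, mem_prI, mem_prI]
    constructor
    · rintro ⟨⟨h1, h2⟩, h3⟩
      rcases le_or_gt p Z with h4 | h4
      · exact Or.inl ⟨⟨h1, h4⟩, h3⟩
      · exact Or.inr ⟨⟨h4, h2⟩, h3⟩
    · rintro (⟨⟨h1, h2⟩, h3⟩ | ⟨⟨h1, h2⟩, h3⟩)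
      · exact ⟨⟨h1, h2.trans hZY⟩, h3⟩
      · exact ⟨⟨hTZ.trans_lt h1, h2⟩, h3⟩
  have hdisj : Disjoint (prI T Z) (prI Z Y) := by
    rw [disjoint_left]
    intro p hp hp'
    have := mem_prI.mp hp
    have := mem_prI.mp hp'
    omega
  rw [hsplit, sum_union hdisj, e1]
  have e2 : ∀ p ∈ prI T Z, aa Z N p * ∑ d₁ ∈ SS T Z p, ∑ d₂ ∈ SS T Z p,
      ll T Z p d₁ * ll T Z p d₂ * (1 / (Nat.lcm (Nat.lcm d₁ d₂) p : ℝ))
      = -(1 / (p : ℝ) * Gp T Z p) / S1 T Z ^ 2 := by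
    intro p hp
    have hp' := mem_prI.mp hp
    unfold ll
    rw [quad_prime _ (divClosed_SS T Z p) _ p hp'.2]
    unfold aa
    rw [if_neg hp'.2.one_lt.ne', if_pos hp'.1.2]
    unfold Gp SS yy
    simp only [if_pos hp'.1.2]
    have : ∀ r ∈ (dset T Z).filter (fun r => ¬ p ∣ r),
        (Yf Z r / S1 T Z - (if p * r ∈ dset T Z then Yf Z (p * r) / S1 T Z else 0)) ^ 2 / (φ r : ℝ)
        = (Yf Z r - (if p * r ∈ dset T Z then Yf Z (p * r) else 0)) ^ 2 / φ r / S1 T Z ^ 2 := by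
      intro r _
      split_ifs
      · field_simp
      · field_simp
        ring
    rw [sum_congr rfl this, ← sum_div]
    ring
  have e3 : ∀ q ∈ prI Z Y, aa Z N q * ∑ d₁ ∈ SS T Z q, ∑ d₂ ∈ SS T Z q,
      ll T Z q d₁ * ll T Z q d₂ * (1 / (Nat.lcm (Nat.lcm d₁ d₂) q : ℝ))
      = -((1 - 3 * (Real.log q / Real.log N)) * (1 / q * (1 / HH T (RR Z q)))) := by
    intro q hq
    have hq' := mem_prI.mp hq
    have hqZ : ¬ q ≤ Z := not_le.mpr hq'.1.1
    have hR := RR_le h hq'.1.1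
    have hHH := HH_pos T (RR Z q) (one_le_RR h hq'.2.pos hq'.1.2)
    unfold ll
    rw [quad_prime _ (divClosed_SS T Z q) _ q hq'.2]
    unfold aa
    rw [if_neg hq'.2.one_lt.ne', if_neg hqZ]
    unfold SS yy
    simp only [if_neg hqZ]
    have hfil : (dset T (RR Z q)).filter (fun r => ¬ q ∣ r) = dset T (RR Z q) := by
      apply filter_true_of_mem
      intro r hr hqr
      have hr' := mem_dset.mp hr
      have := Nat.le_of_dvd hr'.1.1.1 hqr
      omega
    rw [hfil]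
    have : ∀ r ∈ dset T (RR Z q),
        (1 / HH T (RR Z q) - (if q * r ∈ dset T (RR Z q) then 1 / HH T (RR Z q) else 0)) ^ 2
          / (φ r : ℝ) = 1 / HH T (RR Z q) ^ 2 * (1 / (φ r : ℝ)) := by
      intro r hr
      have hr' := mem_dset.mp hr
      rw [if_neg]
      · field_simp
        ring
      · intro h2
        have h3 := (mem_dset.mp h2).1.1.2
        have : q * 1 ≤ q * r := Nat.mul_le_mul_left q hr'.1.1.1
        omega
    rw [sum_congr rfl this, ← mul_sum]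
    have h4 : ∑ r ∈ dset T (RR Z q), 1 / (φ r : ℝ) = HH T (RR Z q) := rfl
    rw [h4]
    field_simp
  rw [sum_congr rfl e2, sum_congr rfl e3, sum_neg_distrib, ← sum_div, sum_neg_distrib]
  ring

/-- cumulative sums over the squarefree rough numbers -/
lemma cum_HH (T Z : ℕ) (hZ : 1 ≤ Z) (t : ℝ) (ht : t ∈ Set.Icc 0 (Real.log Z)) :
    cum (dset T Z) (fun r => Real.log r) (fun r => 1 / (φ r : ℝ)) t = HH T ⌊Real.exp t⌋₊ := by
  unfold cum HH
  apply sum_congr _ (fun _ _ => rfl)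
  ext r
  rw [mem_filter, mem_dset, mem_dset]
  have hZ0 : (0 : ℝ) < Z := by exact_mod_cast hZ
  constructor
  · rintro ⟨⟨⟨⟨h1, h2⟩, h3⟩, h4⟩, h5⟩
    refine ⟨⟨⟨h1, Nat.le_floor ?_⟩, h3⟩, h4⟩
    have hr0 : (0 : ℝ) < r := by exact_mod_cast h1
    rwa [← Real.log_le_iff_le_exp hr0]
  · rintro ⟨⟨⟨h1, h2⟩, h3⟩, h4⟩
    have h5 : (r : ℝ) ≤ Real.exp t := (Nat.le_floor_iff (Real.exp_pos t).le).mp h2
    have hr0 : (0 : ℝ) < r := by exact_mod_cast h1
    have h6 : Real.exp t ≤ Z := by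
      calc Real.exp t ≤ Real.exp (Real.log Z) := Real.exp_le_exp.mpr ht.2
        _ = Z := Real.exp_log hZ0
    refine ⟨⟨⟨⟨h1, by exact_mod_cast h5.trans h6⟩, h3⟩, h4⟩, ?_⟩
    rwa [Real.log_le_iff_le_exp hr0]

/-- the profile as a function of `t = log r` -/
lemma hasDerivAt_prof (Lz t : ℝ) :
    HasDerivAt (fun t : ℝ => 5 - 4 * (t / Lz)) (-(4 / Lz)) t := by
  have h : HasDerivAt (fun t : ℝ => 5 - 4 * (t / Lz)) (-(4 * (1 / Lz))) t :=
    (((hasDerivAt_id' t).div_const Lz).const_mul 4).const_sub 5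
  exact h.congr_deriv (by ring)

lemma hasDerivAt_prof_sq (Lz t : ℝ) :
    HasDerivAt (fun t : ℝ => (5 - 4 * (t / Lz)) ^ 2) (2 * (5 - 4 * (t / Lz)) * (-(4 / Lz))) t := by
  have h := (hasDerivAt_prof Lz t).fun_pow 2
  exact h.congr_deriv (by push_cast; ring)

lemma integral_prof (Lz : ℝ) (hL' : 0 < Lz) : ∫ t in (0 : ℝ)..Lz, (5 - 4 * (t / Lz)) = 3 * Lz := by
  have h : ∀ t ∈ Set.uIcc 0 Lz, HasDerivAt (fun t : ℝ => 5 * t - 2 * (t ^ 2 / Lz))
      (5 - 4 * (t / Lz)) t := by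
    intro t _
    have h1 := ((hasDerivAt_id' t).const_mul 5).sub
      ((((hasDerivAt_id' t).fun_pow 2).div_const Lz).const_mul 2)
    exact h1.congr_deriv (by push_cast; ring)
  rw [integral_eq_sub_of_hasDerivAt h (by apply Continuous.intervalIntegrable; fun_prop)]
  field_simp
  ring

lemma integral_prof_sq (Lz a : ℝ) (hL' : 0 < Lz) :
    ∫ t in a..Lz, (5 - 4 * (t / Lz)) ^ 2 = Lz * ((5 - 4 * (a / Lz)) ^ 3 - 1) / 12 := by
  have h : ∀ t ∈ Set.uIcc a Lz, HasDerivAt (fun t : ℝ => -(Lz / 12) * (5 - 4 * (t / Lz)) ^ 3)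
      ((5 - 4 * (t / Lz)) ^ 2) t := by
    intro t _
    have h1 := ((hasDerivAt_prof Lz t).fun_pow 3).const_mul (-(Lz / 12))
    exact h1.congr_deriv (by push_cast; field_simp; ring)
  rw [integral_eq_sub_of_hasDerivAt h (by apply Continuous.intervalIntegrable; fun_prop)]
  field_simp
  ring

lemma S1_asymp {T Z : ℕ} (hZ : 2 ≤ Z) (K E : ℝ)
    (hE : ∀ t ∈ Set.Icc (0 : ℝ) (Real.log Z), |HH T ⌊Real.exp t⌋₊ - K * t| ≤ E) :
    |S1 T Z - K * (3 * Real.log Z)| ≤ 5 * E := by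
  have hL' : 0 < Real.log Z := Real.log_pos (by exact_mod_cast hZ)
  set Lz := Real.log Z with hL'def
  have h := abel_anti (dset T Z) (fun r => Real.log r) (fun r => 1 / (φ r : ℝ)) 0 Lz K E hL'.le
    (fun r hr => by
      have hr' := mem_dset.mp hr
      exact ⟨Real.log_natCast_nonneg r, Real.log_le_log (by exact_mod_cast hr'.1.1.1)
        (by exact_mod_cast hr'.1.1.2)⟩)
    (fun t => 5 - 4 * (t / Lz)) (fun _ => -(4 / Lz)) (fun t _ => hasDerivAt_prof Lz t)
    continuousOn_const (fun t _ => by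
      have : 0 < 4 / Lz := by positivity
      linarith) (by rw [div_self hL'.ne']; norm_num)
    (fun t ht => by
      rw [cum_HH T Z (by omega) t ht, sub_zero]
      exact hE t ht)
  rw [integral_prof Lz hL'] at h
  have e : ∑ r ∈ dset T Z, 1 / (φ r : ℝ) * (5 - 4 * (Real.log r / Lz)) = S1 T Z := by
    unfold S1 Yf
    apply sum_congr rfl
    intro r _
    rw [← hL'def]
    ring
  rw [e] at h
  refine h.trans (le_of_eq ?_)
  ring

lemma S2_asymp {T Z : ℕ} (hZ : 2 ≤ Z) (K E : ℝ)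
    (hE : ∀ t ∈ Set.Icc (0 : ℝ) (Real.log Z), |HH T ⌊Real.exp t⌋₊ - K * t| ≤ E) :
    |S2 T Z - K * (31 / 3 * Real.log Z)| ≤ 25 * E := by
  have hL' : 0 < Real.log Z := Real.log_pos (by exact_mod_cast hZ)
  set Lz := Real.log Z with hL'def
  have h := abel_anti (dset T Z) (fun r => Real.log r) (fun r => 1 / (φ r : ℝ)) 0 Lz K E hL'.le
    (fun r hr => by
      have hr' := mem_dset.mp hr
      exact ⟨Real.log_natCast_nonneg r, Real.log_le_log (by exact_mod_cast hr'.1.1.1)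
        (by exact_mod_cast hr'.1.1.2)⟩)
    (fun t => (5 - 4 * (t / Lz)) ^ 2) (fun t => 2 * (5 - 4 * (t / Lz)) * (-(4 / Lz)))
    (fun t _ => hasDerivAt_prof_sq Lz t)
    (by apply Continuous.continuousOn; fun_prop) (fun t ht => by
      have h1 : t / Lz ≤ 1 := by rw [div_le_one hL']; exact ht.2
      have h2 : 0 < 4 / Lz := by positivity
      nlinarith) (by rw [div_self hL'.ne']; norm_num)
    (fun t ht => by
      rw [cum_HH T Z (by omega) t ht, sub_zero]
      exact hE t ht)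
  rw [integral_prof_sq Lz 0 hL'] at h
  have e : ∑ r ∈ dset T Z, 1 / (φ r : ℝ) * (5 - 4 * (Real.log r / Lz)) ^ 2 = S2 T Z := by
    unfold S2 Yf
    apply sum_congr rfl
    intro r _
    rw [← hL'def]
    ring
  rw [e] at h
  have e2 : Lz * ((5 - 4 * (0 / Lz)) ^ 3 - 1) / 12 = 31 / 3 * Lz := by
    simp; ring
  rw [e2] at h
  refine h.trans (le_of_eq ?_)
  norm_num
  ring

lemma Gp_le {T Z : ℕ} (hZ : 2 ≤ Z) (K E : ℝ)
    (hE : ∀ t ∈ Set.Icc (0 : ℝ) (Real.log Z), |HH T ⌊Real.exp t⌋₊ - K * t| ≤ E)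
    {p : ℕ} (hp : p.Prime) (hTp : T < p) (hpZ : p ≤ Z) :
    Gp T Z p ≤ K * Real.log Z * (Real.log p / Real.log Z + 20 * (Real.log p / Real.log Z) ^ 2
      - 32 / 3 * (Real.log p / Real.log Z) ^ 3) + 66 * E := by
  have hZ0 : (0 : ℝ) < Z := by exact_mod_cast (by omega : 0 < Z)
  have hp0 : (0 : ℝ) < p := by exact_mod_cast hp.pos
  have hL' : 0 < Real.log Z := Real.log_pos (by exact_mod_cast hZ)
  set Lz := Real.log Z with hL'def
  have hlp : 0 < Real.log p := Real.log_pos (by exact_mod_cast hp.one_lt)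
  have hlpZ : Real.log p ≤ Lz := Real.log_le_log hp0 (by exact_mod_cast hpZ)
  set τ := Real.log p / Lz with hτ
  have hτ0 : 0 < τ := by positivity
  have hτ1 : τ ≤ 1 := by rw [hτ, div_le_one hL']; exact hlpZ
  set a := Lz - Real.log p with ha
  have ha0 : 0 ≤ a := by rw [ha]; linarith
  have haLz : a ≤ Lz := by rw [ha]; linarith
  have haτ : a / Lz = 1 - τ := by rw [ha, hτ]; field_simp
  have hE0 : 0 ≤ E := (abs_nonneg _).trans (hE 0 ⟨le_rfl, hL'.le⟩)
  -- split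
  have hcond : ∀ r ∈ dset T Z, (p * r ≤ Z ↔ Real.log r ≤ a) := by
    intro r hr
    have hr' := mem_dset.mp hr
    have hr0 : (0 : ℝ) < r := by exact_mod_cast hr'.1.1.1
    rw [ha, le_sub_iff_add_le, add_comm, ← Real.log_mul hp0.ne' hr0.ne', hL'def,
      Real.log_le_log_iff (by positivity) hZ0]
    constructor
    · intro h; exact_mod_cast h
    · intro h; exact_mod_cast h
  have hle : Gp T Z p ≤ ∑ r ∈ (dset T Z).filter (fun r : ℕ => Real.log (r : ℝ) ≤ a), 16 * τ ^ 2 * (1 / (φ r : ℝ))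
      + ∑ r ∈ (dset T Z).filter (fun r : ℕ => ¬ Real.log (r : ℝ) ≤ a),
        1 / (φ r : ℝ) * (5 - 4 * (Real.log r / Lz)) ^ 2 := by
    have h1 : Gp T Z p ≤ ∑ r ∈ (dset T Z).filter (fun r => ¬ p ∣ r),
        (if Real.log r ≤ a then 16 * τ ^ 2 * (1 / (φ r : ℝ))
          else 1 / (φ r : ℝ) * (5 - 4 * (Real.log r / Lz)) ^ 2) := by
      unfold Gp
      apply sum_le_sum
      intro r hr
      have hr1 := mem_filter.mp hr
      have hr' := mem_dset.mp hr1.1
      have hr0 : (0 : ℝ) < r := by exact_mod_cast hr'.1.1.1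
      have hφ : (0 : ℝ) < φ r := by exact_mod_cast Nat.totient_pos.mpr hr'.1.1.1
      have hmem : p * r ∈ dset T Z ↔ Real.log r ≤ a := by
        rw [← hcond r hr1.1]
        constructor
        · intro h; exact (mem_dset.mp h).1.1.2
        · intro h
          refine mem_dset.mpr ⟨⟨⟨Nat.mul_pos hp.pos hr'.1.1.1, h⟩,
            (rough_prime hp hTp).mul hr'.1.2⟩, ?_⟩
          rw [Nat.squarefree_mul ((Nat.Prime.coprime_iff_not_dvd hp).mpr hr1.2)]
          exact ⟨hp.squarefree, hr'.2⟩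
      by_cases hcase : Real.log r ≤ a
      · rw [if_pos (hmem.mpr hcase), if_pos hcase]
        apply le_of_eq
        unfold Yf
        rw [← hL'def]
        push_cast
        rw [Real.log_mul hp0.ne' hr0.ne', hτ]
        field_simp
        ring
      · rw [if_neg (fun h => hcase (hmem.mp h)), if_neg hcase]
        apply le_of_eq
        unfold Yf
        rw [← hL'def]
        ring
    refine h1.trans ?_
    rw [← sum_ite]
    apply sum_le_sum_of_subset_of_nonneg (filter_subset _ _)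
    intro r _ _
    split_ifs <;> positivity
  have hcumZ := fun t ht => cum_HH T Z (by omega) t ht
  -- first part
  have hfirst : ∑ r ∈ (dset T Z).filter (fun r : ℕ => Real.log (r : ℝ) ≤ a), 16 * τ ^ 2 * (1 / (φ r : ℝ))
      ≤ 16 * τ ^ 2 * (K * (Lz * (1 - τ)) + E) := by
    rw [← mul_sum]
    apply mul_le_mul_of_nonneg_left _ (by positivity)
    have h1 := hcumZ a ⟨ha0, haLz⟩
    unfold cum at h1
    rw [h1]
    have h2 := (abs_le.mp (hE a ⟨ha0, haLz⟩)).2
    have h3 : a = Lz * (1 - τ) := by rw [← haτ]; field_simp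
    rw [← h3]
    linarith
  -- second part
  have hsecond : ∑ r ∈ (dset T Z).filter (fun r : ℕ => ¬ Real.log (r : ℝ) ≤ a),
        1 / (φ r : ℝ) * (5 - 4 * (Real.log r / Lz)) ^ 2
      ≤ K * (Lz * ((1 + 4 * τ) ^ 3 - 1) / 12) + 50 * E := by
    have h := abel_anti ((dset T Z).filter (fun r : ℕ => ¬ Real.log (r : ℝ) ≤ a)) (fun r => Real.log r)
      (fun r => 1 / (φ r : ℝ)) a Lz K (2 * E) haLz
      (fun r hr => by
        have hr1 := mem_filter.mp hr
        have hr' := mem_dset.mp hr1.1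
        exact ⟨(not_le.mp hr1.2).le, Real.log_le_log (by exact_mod_cast hr'.1.1.1)
          (by exact_mod_cast hr'.1.1.2)⟩)
      (fun t => (5 - 4 * (t / Lz)) ^ 2) (fun t => 2 * (5 - 4 * (t / Lz)) * (-(4 / Lz)))
      (fun t _ => hasDerivAt_prof_sq Lz t)
      (by apply Continuous.continuousOn; fun_prop) (fun t ht => by
        have h1 : t / Lz ≤ 1 := by rw [div_le_one hL']; exact ht.2
        have h2 : 0 < 4 / Lz := by positivity
        nlinarith) (by rw [div_self hL'.ne']; norm_num)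
      (fun t ht => by
        have h1 : cum ((dset T Z).filter (fun r : ℕ => ¬ Real.log (r : ℝ) ≤ a)) (fun r => Real.log r)
            (fun r => 1 / (φ r : ℝ)) t = HH T ⌊Real.exp t⌋₊ - HH T ⌊Real.exp a⌋₊ := by
          rw [← hcumZ t ⟨ha0.trans ht.1, ht.2⟩, ← hcumZ a ⟨ha0, haLz⟩]
          unfold cum
          rw [eq_sub_iff_add_eq, ← sum_union]
          · apply sum_congr _ (fun _ _ => rfl)
            ext r
            simp only [mem_union, mem_filter]
            constructor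
            · rintro (⟨⟨h1, _⟩, h3⟩ | ⟨h1, h3⟩)
              · exact ⟨h1, h3⟩
              · exact ⟨h1, h3.trans ht.1⟩
            · rintro ⟨h1, h3⟩
              by_cases h4 : Real.log r ≤ a
              · exact Or.inr ⟨h1, h4⟩
              · exact Or.inl ⟨⟨h1, h4⟩, h3⟩
          · rw [disjoint_left]
            intro r hr hr'
            exact (mem_filter.mp (mem_filter.mp hr).1).2 (mem_filter.mp hr').2
        rw [h1]
        have h2 := hE t ⟨ha0.trans ht.1, ht.2⟩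
        have h3 := hE a ⟨ha0, haLz⟩
        calc |HH T ⌊Real.exp t⌋₊ - HH T ⌊Real.exp a⌋₊ - K * (t - a)|
            = |(HH T ⌊Real.exp t⌋₊ - K * t) - (HH T ⌊Real.exp a⌋₊ - K * a)| := by ring_nf
          _ ≤ |HH T ⌊Real.exp t⌋₊ - K * t| + |HH T ⌊Real.exp a⌋₊ - K * a| := abs_sub _ _
          _ ≤ 2 * E := by linarith)
    rw [integral_prof_sq Lz a hL', haτ] at h
    have h4 := (abs_le.mp h).2
    have h5 : 2 * E * (5 - 4 * (1 - τ)) ^ 2 ≤ 50 * E := by
      have : (5 - 4 * (1 - τ)) ^ 2 ≤ 25 := by nlinarith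
      nlinarith
    have h6 : 5 - 4 * (1 - τ) = 1 + 4 * τ := by ring
    rw [h6] at h5 h4
    have h7 : 2 * E * (5 - 4 * (a / Lz)) ^ 2 ≤ 50 * E := by rw [haτ, h6]; exact h5
    linarith
  have hfin : 16 * τ ^ 2 * (K * (Lz * (1 - τ)) + E) + (K * (Lz * ((1 + 4 * τ) ^ 3 - 1) / 12) + 50 * E)
      ≤ K * Lz * (τ + 20 * τ ^ 2 - 32 / 3 * τ ^ 3) + 66 * E := by
    have h1 : 16 * τ ^ 2 * E ≤ 16 * E := by
      have : τ ^ 2 ≤ 1 := by nlinarith
      nlinarith
    nlinarith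
  linarith

end Pool.Agent.Lib.MP_bae66e_nt.AP3
end

section

/-!
# The main term: the sums over primes and the numerical inequality
-/

set_option autoImplicit false

namespace Pool.Agent.Lib.MP_bae66e_nt.AP3

open Finset Nat MeasureTheory intervalIntegral

lemma exists_prime_moments : ∃ C : ℝ, 0 ≤ C ∧ ∀ T Z : ℕ, 2 ≤ T → T ≤ Z →
    (∑ p ∈ prI T Z, 1 / (p : ℝ) * (Real.log p / Real.log Z) ≤ 1 + C / Real.log Z) ∧
    (∑ p ∈ prI T Z, 1 / (p : ℝ) * (Real.log p / Real.log Z) ^ 2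
      ≤ 1 / 2 + 2 * C / Real.log Z) ∧
    (1 / 3 - (Real.log T / Real.log Z) ^ 3 / 3 - 2 * C / Real.log Z
      ≤ ∑ p ∈ prI T Z, 1 / (p : ℝ) * (Real.log p / Real.log Z) ^ 3) := by
  obtain ⟨C, hC0, hC⟩ := exists_cum_mertens
  obtain ⟨C', hC0', hC'⟩ := exists_mertens
  refine ⟨C + C', by linarith, ?_⟩
  intro T Z hT hTZ
  have hT0 : (0 : ℝ) < T := by exact_mod_cast (by omega : 0 < T)
  have hl : 0 < Real.log T := Real.log_pos (by exact_mod_cast hT)
  have hlL : Real.log T ≤ Real.log Z := Real.log_le_log hT0 (by exact_mod_cast hTZ)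
  set l := Real.log T with hldef
  set L := Real.log Z with hLdef
  have hL : 0 < L := hl.trans_le hlL
  have hx : ∀ p ∈ prI T Z, l ≤ Real.log p ∧ Real.log p ≤ L := by
    intro p hp
    have hp' := mem_prI.mp hp
    exact ⟨Real.log_le_log hT0 (by exact_mod_cast hp'.1.1.le),
      Real.log_le_log (by exact_mod_cast hp'.2.pos) (by exact_mod_cast hp'.1.2)⟩
  refine ⟨?_, ?_, ?_⟩
  · have h1 := (abs_le.mp (hC' T Z (by omega) hTZ)).2
    have e : ∑ p ∈ prI T Z, 1 / (p : ℝ) * (Real.log p / L)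
        = (∑ p ∈ prI T Z, Real.log p / p) / L := by
      rw [sum_div]; apply sum_congr rfl; intro p _; ring
    rw [e, div_le_iff₀ hL, add_mul, one_mul, div_mul_cancel₀ _ hL.ne']
    linarith
  · have h := abel_mono (prI T Z) (fun p => Real.log p) (fun p => Real.log p / p) l L 1 C hlL hx
      (fun t => t) (fun _ => 1) (fun t _ => hasDerivAt_id' t) continuousOn_const
      (fun _ _ => zero_le_one) hl.le (hC T Z (by omega) hTZ)
    have h1 := (abs_le.mp h).2
    rw [integral_id] at h1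
    have e : ∑ p ∈ prI T Z, 1 / (p : ℝ) * (Real.log p / L) ^ 2
        = (∑ p ∈ prI T Z, Real.log p / p * Real.log p) / L ^ 2 := by
      rw [sum_div]; apply sum_congr rfl; intro p _; ring
    rw [e, div_le_iff₀ (by positivity)]
    have e2 : (1 / 2 + 2 * (C + C') / L) * L ^ 2 = L ^ 2 / 2 + 2 * (C + C') * L := by
      field_simp
    rw [e2]
    have h3 : 0 ≤ l ^ 2 := sq_nonneg l
    nlinarith [mul_nonneg hC0' hL.le]
  · have h := abel_mono (prI T Z) (fun p => Real.log p) (fun p => Real.log p / p) l L 1 C hlL hx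
      (fun t => t ^ 2) (fun t => 2 * t) (fun t _ => by
        have := (hasDerivAt_id' t).fun_pow 2
        exact this.congr_deriv (by push_cast; ring))
      (by apply Continuous.continuousOn; fun_prop)
      (fun t ht => by have := hl.le.trans ht.1; linarith) (sq_nonneg l) (hC T Z (by omega) hTZ)
    have h1 := (abs_le.mp h).1
    rw [integral_pow] at h1
    have e : ∑ p ∈ prI T Z, 1 / (p : ℝ) * (Real.log p / L) ^ 3
        = (∑ p ∈ prI T Z, Real.log p / p * Real.log p ^ 2) / L ^ 3 := by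
      rw [sum_div]; apply sum_congr rfl; intro p _; ring
    rw [e, le_div_iff₀ (by positivity)]
    have e2 : (1 / 3 - (l / L) ^ 3 / 3 - 2 * (C + C') / L) * L ^ 3
        = (L ^ 3 - l ^ 3) / 3 - 2 * (C + C') * L ^ 2 := by
      field_simp
    rw [e2]
    norm_num at h1
    nlinarith [mul_nonneg hC0' (sq_nonneg L)]

lemma log_200_99 : Real.log (200 / 99) ≤ 0.70325 := by
  have h1 : (200 / 99 : ℝ) = 2 * (100 / 99) := by norm_num
  rw [h1, Real.log_mul (by norm_num) (by norm_num)]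
  have h2 := Real.log_two_lt_d9
  have h3 : Real.log (100 / 99) ≤ 100 / 99 - 1 := Real.log_le_sub_one_of_pos (by norm_num)
  have h4 : (100 / 99 : ℝ) - 1 ≤ 0.010102 := by norm_num
  linarith

lemma log_99_le : Real.log 99 ≤ 5 := by
  have h1 : Real.log 99 ≤ Real.log (2 ^ 7) :=
    Real.log_le_log (by norm_num) (by norm_num)
  rw [Real.log_pow] at h1
  have h2 := Real.log_two_lt_d9
  push_cast at h1
  linarith

/-- the sum over small primes -/
lemma s3_le {T Z : ℕ} (hZ2 : 2 ≤ Z) (K E L l B C1 C2 : ℝ) (hL : L = Real.log Z)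
    (hl : l = Real.log T) (hL0 : 0 < L) (hK : 0 < K) (hE0 : 0 ≤ E) (hB : 0 ≤ B)
    (hHE : ∀ t ∈ Set.Icc (0 : ℝ) (Real.log Z), |HH T ⌊Real.exp t⌋₊ - K * t| ≤ E)
    (hEb : E * (1 + B) = K * L / 99000)
    (hm1 : ∑ p ∈ prI T Z, 1 / (p : ℝ) * (Real.log p / L) ≤ 1 + C1 / L)
    (hm2 : ∑ p ∈ prI T Z, 1 / (p : ℝ) * (Real.log p / L) ^ 2 ≤ 1 / 2 + 2 * C1 / L)
    (hm3 : 1 / 3 - (l / L) ^ 3 / 3 - 2 * C1 / L
      ≤ ∑ p ∈ prI T Z, 1 / (p : ℝ) * (Real.log p / L) ^ 3)
    (hCdiv : C1 / L ≤ 1 / 100000) (hlL0 : 0 ≤ l / L) (hlL : l / L ≤ 1 / 99)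
    (h4 : ∑ p ∈ prI T Z, 1 / (p : ℝ) - Real.log (L / l) ≤ C2 / l) (h5 : C2 / l ≤ 1)
    (h6 : Real.log (L / l) ≤ 5 + 2 * B) :
    ∑ p ∈ prI T Z, 1 / (p : ℝ) * Gp T Z p ≤ K * L * (67 / 9 + 0.005) := by
  have hKL : 0 < K * L := by positivity
  have h1 : ∀ p ∈ prI T Z, 1 / (p : ℝ) * Gp T Z p
      ≤ K * L * (1 / (p : ℝ) * (Real.log p / L) + 20 * (1 / (p : ℝ) * (Real.log p / L) ^ 2)
        - 32 / 3 * (1 / (p : ℝ) * (Real.log p / L) ^ 3)) + 66 * E * (1 / (p : ℝ)) := by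
    intro p hp
    have hp' := mem_prI.mp hp
    have h2 := Gp_le hZ2 K E hHE hp'.2 hp'.1.1 hp'.1.2
    rw [← hL] at h2
    have h3 : 0 ≤ 1 / (p : ℝ) := by positivity
    calc 1 / (p : ℝ) * Gp T Z p ≤ 1 / (p : ℝ) * _ := mul_le_mul_of_nonneg_left h2 h3
      _ = _ := by ring
  refine (sum_le_sum h1).trans ?_
  rw [sum_add_distrib, ← mul_sum, ← mul_sum, sum_sub_distrib, sum_add_distrib, ← mul_sum,
    ← mul_sum]
  have h7 : ∑ p ∈ prI T Z, 1 / (p : ℝ) ≤ 6 * (1 + B) := by linarith only [h4, h5, h6, hB]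
  have h8 : 66 * E * ∑ p ∈ prI T Z, 1 / (p : ℝ) ≤ 0.004 * (K * L) := by
    calc 66 * E * ∑ p ∈ prI T Z, 1 / (p : ℝ) ≤ 66 * E * (6 * (1 + B)) := by gcongr
      _ = 396 * (E * (1 + B)) := by ring
      _ = 396 * (K * L / 99000) := by rw [hEb]
      _ ≤ 0.004 * (K * L) := by linarith only [hKL]
  have h9 : (l / L) ^ 3 ≤ 1 / 100000 := by
    calc (l / L) ^ 3 ≤ (1 / 99) ^ 3 := by gcongr
      _ ≤ 1 / 100000 := by norm_num
  have h10 : ∑ p ∈ prI T Z, 1 / (p : ℝ) * (Real.log p / L)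
      + 20 * ∑ p ∈ prI T Z, 1 / (p : ℝ) * (Real.log p / L) ^ 2
      - 32 / 3 * ∑ p ∈ prI T Z, 1 / (p : ℝ) * (Real.log p / L) ^ 3 ≤ 67 / 9 + 0.001 := by
    have e1 : 2 * C1 / L = 2 * (C1 / L) := by ring
    rw [e1] at hm2 hm3
    linarith only [hm1, hm2, hm3, h9, hCdiv]
  have h11 := mul_le_mul_of_nonneg_left h10 hKL.le
  linarith only [h11, h8, hKL]

/-- the main fraction -/
lemma frac_ge (S1' S2' S3' K L : ℝ) (hKL : 0 < K * L) (hS1pos : 0 < S1')
    (hS1 : S1' ≤ 3.0001 * (K * L)) (h1 : 2.883 * (K * L) ≤ S2' - S3') :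
    1.94 / (K * (600 / 99 * L)) ≤ (S2' - S3') / S1' ^ 2 := by
  have h2 : S1' ^ 2 ≤ 9.0007 * (K * L) ^ 2 := by
    calc S1' ^ 2 ≤ (3.0001 * (K * L)) ^ 2 := by gcongr
      _ = 3.0001 ^ 2 * (K * L) ^ 2 := by ring
      _ ≤ 9.0007 * (K * L) ^ 2 := by
          apply mul_le_mul_of_nonneg_right (by norm_num) (by positivity)
  have h3 : K * (600 / 99 * L) = 600 / 99 * (K * L) := by ring
  rw [h3, div_le_div_iff₀ (by positivity) (by positivity)]
  calc 1.94 * S1' ^ 2 ≤ 1.94 * (9.0007 * (K * L) ^ 2) := by gcongr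
    _ ≤ 2.883 * (K * L) * (600 / 99 * (K * L)) := by nlinarith only [sq_nonneg (K * L)]
    _ ≤ _ := by gcongr

lemma num_q (K n u : ℝ) (hK : 0 < K) (hn : 0 < n) (hu : 0 < 0.495 - u) :
    (1 - 3 * u) * (1 / (0.999 * (K * (n * (0.495 - u) / 2))))
      ≤ 1 / (0.999 * (K * n)) * (6 - 15.835 * u) := by
  rw [mul_one_div, div_le_iff₀ (by positivity)]
  have e3 : 1 / (0.999 * (K * n)) * (6 - 15.835 * u)
      * (0.999 * (K * (n * (0.495 - u) / 2))) = (6 - 15.835 * u) * (0.495 - u) / 2 := by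
    field_simp
  rw [e3]
  nlinarith only [sq_nonneg (u - 0.2475)]

/-- the sum over large primes -/
lemma q_le {T Z Y : ℕ} (hZ2 : 2 ≤ Z) (hZY : Z ≤ Y) (K E L n C2 C3 : ℝ) (hL : L = Real.log Z)
    (hY : Real.log Y = n / 3) (hLn : L = 0.165 * n)
    (hL0 : 0 < L) (hK : 0 < K)
    (hHE : ∀ t ∈ Set.Icc (0 : ℝ) (Real.log Z), |HH T ⌊Real.exp t⌋₊ - K * t| ≤ E)
    (hE1 : E ≤ K * L / 99000)
    (h2 : ∑ q ∈ prI Z Y, 1 / (q : ℝ) - Real.log (200 / 99) ≤ C2 / L)
    (h3 : -C3 ≤ ∑ q ∈ prI Z Y, Real.log q / q - (n / 3 - L))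
    (hC2 : C2 / L ≤ 1 / 100000) (hC3 : C3 ≤ n / 100000) :
    ∑ q ∈ prI Z Y, (1 - 3 * (Real.log q / n)) * (1 / q * (1 / HH T (RR Z q)))
      ≤ 1.6 / (K * n) := by
  have hn0 : 0 < n := by linarith only [hL0, hLn]
  have h1 : ∀ q ∈ prI Z Y, (1 - 3 * (Real.log q / n)) * (1 / q * (1 / HH T (RR Z q)))
      ≤ 1 / (0.999 * (K * n)) * (6 * (1 / (q : ℝ)) - 15.835 / n * (Real.log q / q)) := by
    intro q hq
    have hq' := mem_prI.mp hq
    have hq0 : (0 : ℝ) < q := by exact_mod_cast hq'.2.pos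
    have hZ0 : (0 : ℝ) < Z := by exact_mod_cast (by omega : 0 < Z)
    have htL : L ≤ Real.log q := by rw [hL]; exact Real.log_le_log hZ0 (by exact_mod_cast hq'.1.1.le)
    have htY : Real.log q ≤ n / 3 := by
      rw [← hY]; exact Real.log_le_log hq0 (by exact_mod_cast hq'.1.2)
    have hRR : RR Z q = ⌊Real.exp ((3 * L - Real.log q) / 2)⌋₊ := by unfold RR; rw [hL]
    rw [hRR]
    generalize Real.log q = t at htL htY ⊢
    set u := t / n with hu
    have htu : t = u * n := by rw [hu]; field_simp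
    have hs : (3 * L - t) / 2 = n * (0.495 - u) / 2 := by rw [hLn, htu]; ring
    rw [hs]
    have hu3 : u ≤ 1 / 3 := by
      rw [hu, div_le_div_iff₀ hn0 (by norm_num)]; linarith only [htY]
    have hu1 : 0 < 0.495 - u := by linarith only [hu3]
    have hu2 : 0.165 ≤ u := by
      rw [hu, le_div_iff₀ hn0]; linarith only [htL, hLn]
    set s := n * (0.495 - u) / 2 with hsdef
    have hs0 : 0 < s := by positivity
    have hs2 : s ≤ L := by
      rw [hsdef, hLn]
      nlinarith only [hn0, hu2]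
    have hHHs : 0.999 * (K * s) ≤ HH T ⌊Real.exp s⌋₊ := by
      have h2 := (abs_le.mp (hHE s ⟨hs0.le, by rw [← hL]; exact hs2⟩)).1
      have h4 : K * (0.08 * n) ≤ K * s := by
        apply mul_le_mul_of_nonneg_left _ hK.le
        rw [hsdef]
        nlinarith only [hn0, hu3]
      have h5 : K * L = 0.165 * (K * n) := by rw [hLn]; ring
      have h6 : 0 < K * n := by positivity
      nlinarith only [h2, h4, h5, h6, hE1]
    have hpos : 0 < 0.999 * (K * s) := by positivity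
    have h5 : 0 ≤ 1 - 3 * u := by linarith only [hu3]
    have h6 : 1 / HH T ⌊Real.exp s⌋₊ ≤ 1 / (0.999 * (K * s)) :=
      one_div_le_one_div_of_le hpos hHHs
    have h7 := num_q K n u hK hn0 hu1
    rw [← hsdef] at h7
    calc (1 - 3 * u) * (1 / q * (1 / HH T ⌊Real.exp s⌋₊))
        ≤ (1 - 3 * u) * (1 / q * (1 / (0.999 * (K * s)))) := by gcongr
      _ = 1 / q * ((1 - 3 * u) * (1 / (0.999 * (K * s)))) := by ring
      _ ≤ 1 / q * (1 / (0.999 * (K * n)) * (6 - 15.835 * u)) := by gcongr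
      _ = _ := by rw [hu]; ring
  refine (sum_le_sum h1).trans ?_
  rw [← mul_sum, sum_sub_distrib, ← mul_sum, ← mul_sum]
  have h4 := log_200_99
  have h6 : ∑ q ∈ prI Z Y, 1 / (q : ℝ) ≤ 0.7033 := by linarith only [h2, h4, hC2]
  have h7 : 0.1683 ≤ (∑ q ∈ prI Z Y, Real.log q / q) / n := by
    rw [le_div_iff₀ hn0]
    linarith only [h3, hC3, hLn, hn0]
  have h8 : 6 * ∑ q ∈ prI Z Y, 1 / (q : ℝ) - 15.835 / n * ∑ q ∈ prI Z Y, Real.log q / q
      ≤ 1.556 := by
    have e2 : 15.835 / n * ∑ q ∈ prI Z Y, Real.log q / q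
        = 15.835 * ((∑ q ∈ prI Z Y, Real.log q / q) / n) := by ring
    rw [e2]
    linarith only [h6, h7]
  calc 1 / (0.999 * (K * n)) * (6 * ∑ q ∈ prI Z Y, 1 / (q : ℝ)
        - 15.835 / n * ∑ q ∈ prI Z Y, Real.log q / q)
      ≤ 1 / (0.999 * (K * n)) * 1.556 := by gcongr
    _ = (1.556 / 0.999) / (K * n) := by field_simp
    _ ≤ 1.6 / (K * n) := by
        apply div_le_div_of_nonneg_right _ (by positivity)
        norm_num

/-- the main inequality -/
theorem exists_MM_ge : ∃ b0 : ℕ, 1 ≤ b0 ∧ ∀ b : ℕ, b0 ≤ b → ∃ T0 : ℕ, 2 ≤ T0 ∧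
    ∀ T : ℕ, T0 ≤ T →
    0.3 / (KT T * (600 * (b : ℝ) ^ 2 * Real.log T))
      ≤ MM T (T ^ (99 * b ^ 2)) (T ^ (200 * b ^ 2)) (T ^ (600 * b ^ 2)) (297 * b ^ 2) := by
  obtain ⟨b0, hb0⟩ := exists_HH_asymp 99 (1 / 1000) (by norm_num)
  obtain ⟨C1, hC10, hC1⟩ := exists_prime_moments
  obtain ⟨C2, hC20, hC2⟩ := exists_sum_inv_le
  obtain ⟨C3, hC30, hC3⟩ := exists_mertens
  refine ⟨max 1 b0, le_max_left _ _, ?_⟩
  intro b hb
  have hb1 : 1 ≤ b := (le_max_left _ _).trans hb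
  obtain ⟨T0, hT02, hT0⟩ := hb0 b ((le_max_right _ _).trans hb)
  refine ⟨max T0 ⌈Real.exp (100000 * (C1 + C2 + C3 + 1))⌉₊, le_max_of_le_left hT02, ?_⟩
  intro T hT
  have hTT0 : T0 ≤ T := (le_max_left _ _).trans hT
  have hT2 : 2 ≤ T := hT02.trans hTT0
  have hT0' : (0 : ℝ) < T := by positivity
  have hTexp : Real.exp (100000 * (C1 + C2 + C3 + 1)) ≤ T :=
    (Nat.le_ceil _).trans (by exact_mod_cast (le_max_right _ _).trans hT)
  have hl : 100000 * (C1 + C2 + C3 + 1) ≤ Real.log T := by rwa [Real.le_log_iff_exp_le hT0']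
  have hK := KT_pos T
  have hH := hT0 T hTT0
  clear hb0 hTexp
  generalize hKdef : KT T = K at hK hH ⊢
  have hbb : 1 ≤ b ^ 2 := Nat.one_le_pow _ _ hb1
  have hb1' : (1 : ℝ) ≤ b := by exact_mod_cast hb1
  obtain ⟨k, hk⟩ : ∃ k : ℝ, k = (b : ℝ) ^ 2 := ⟨_, rfl⟩
  obtain ⟨l, hldef⟩ : ∃ l : ℝ, l = Real.log T := ⟨_, rfl⟩
  rw [← hldef] at hl
  rw [← hk, ← hldef]
  have hl0 : 0 < l := by linarith only [hl, hC10, hC20, hC30]
  have hk1 : 1 ≤ k := by rw [hk]; nlinarith only [hb1']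
  have hk0 : 0 < k := by linarith only [hk1]
  obtain ⟨Z, hZdef⟩ : ∃ Z : ℕ, Z = T ^ (99 * b ^ 2) := ⟨_, rfl⟩
  obtain ⟨Y, hYdef⟩ : ∃ Y : ℕ, Y = T ^ (200 * b ^ 2) := ⟨_, rfl⟩
  obtain ⟨N, hNdef⟩ : ∃ N : ℕ, N = T ^ (600 * b ^ 2) := ⟨_, rfl⟩
  rw [← hZdef, ← hYdef, ← hNdef]
  have hlZ : Real.log Z = 99 * k * l := by
    rw [hZdef]; push_cast; rw [Real.log_pow]; push_cast; rw [hk, hldef]
  have hlY : Real.log Y = 200 * k * l := by
    rw [hYdef]; push_cast; rw [Real.log_pow]; push_cast; rw [hk, hldef]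
  have hlN : Real.log N = 600 * k * l := by
    rw [hNdef]; push_cast; rw [Real.log_pow]; push_cast; rw [hk, hldef]
  have hTZ : T ≤ Z := by
    calc T = T ^ 1 := (pow_one T).symm
      _ ≤ T ^ (99 * b ^ 2) := Nat.pow_le_pow_right (by omega) (by omega)
      _ = Z := hZdef.symm
  have hZY : Z ≤ Y := by
    rw [hZdef, hYdef]; exact Nat.pow_le_pow_right (by omega) (by omega)
  have hpar : Par T Z Y N := by
    refine ⟨hT2, hTZ, hZY, ?_, ?_⟩
    · rw [hYdef, hZdef, ← pow_mul]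
      exact Nat.pow_le_pow_right (by omega) (by omega)
    · rw [hYdef, hNdef, ← pow_mul]
      congr 1; ring
  have hL : Z ^ 3 ≤ T ^ (297 * b ^ 2) := by
    rw [hZdef, ← pow_mul]
    exact Nat.pow_le_pow_right (by omega) (by omega)
  have hZ2 : 2 ≤ Z := hT2.trans hTZ
  rw [MM_eq hpar hL, hlN]
  have hlogb : 0 ≤ Real.log b := Real.log_nonneg hb1'
  obtain ⟨L, hLdef⟩ : ∃ L : ℝ, L = Real.log Z := ⟨_, rfl⟩
  have hLkl : L = 99 * k * l := by rw [hLdef, hlZ]
  have hL0 : 0 < L := by rw [hLkl]; positivity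
  have hKL : 0 < K * L := by positivity
  -- the error term
  obtain ⟨E, hE⟩ : ∃ E : ℝ, E = K * L / 99000 / (1 + Real.log b) := ⟨_, rfl⟩
  have hEb : E * (1 + Real.log b) = K * L / 99000 := by
    rw [hE, div_mul_cancel₀]; positivity
  have hE0 : 0 ≤ E := by rw [hE]; positivity
  have hE1 : E ≤ K * L / 99000 := by nlinarith only [hEb, hE0, hlogb]
  have hHE : ∀ t ∈ Set.Icc (0 : ℝ) (Real.log Z), |HH T ⌊Real.exp t⌋₊ - K * t| ≤ E := by
    intro t ht
    have h1 := hH t ht.1 (by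
      have := ht.2
      rw [hlZ, hk, hldef] at this
      push_cast
      exact this)
    rw [hE, le_div_iff₀ (by positivity)]
    rw [← hk, ← hldef] at h1
    have e1 : K * L / 99000 = 1 / 1000 * (K * (k * l)) := by rw [hLkl]; ring
    rw [e1]
    exact h1
  have hlL1 : l ≤ L := by rw [hLkl]; nlinarith only [hk1, hl0]
  have hCL : 100000 * (C1 + C2 + C3 + 1) ≤ L := hl.trans hlL1
  have hCdiv : C1 / L ≤ 1 / 100000 := by
    rw [div_le_div_iff₀ hL0 (by norm_num)]; linarith only [hCL, hC20, hC30]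
  have hC2div : C2 / L ≤ 1 / 100000 := by
    rw [div_le_div_iff₀ hL0 (by norm_num)]; linarith only [hCL, hC10, hC30]
  -- S1 and S2
  have hS1 := (abs_le.mp (S1_asymp hZ2 K E hHE)).2
  have hS2 := (abs_le.mp (S2_asymp hZ2 K E hHE)).1
  rw [← hLdef] at hS1 hS2
  -- S3
  obtain ⟨hm1, hm2, hm3⟩ := hC1 T Z hT2 hTZ
  rw [← hldef, ← hLdef] at hm3
  rw [← hLdef] at hm1 hm2
  have hlL : l / L ≤ 1 / 99 := by
    rw [hLkl, div_le_div_iff₀ (by positivity) (by norm_num)]
    nlinarith only [hk1, hl0]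
  have h4 := (abs_le.mp (hC2 T Z hT2 hTZ)).2
  rw [← hLdef, ← hldef] at h4
  have h5 : C2 / l ≤ 1 := by rw [div_le_one hl0]; linarith only [hl, hC10, hC30, hC20]
  have h6 : Real.log (L / l) ≤ 5 + 2 * Real.log b := by
    have : L / l = 99 * (b : ℝ) ^ 2 := by rw [hLkl, hk]; field_simp
    rw [this, Real.log_mul (by norm_num) (by positivity), Real.log_pow]
    have := log_99_le
    push_cast
    linarith only [this]
  have hS3 := s3_le hZ2 K E L l (Real.log b) C1 C2 hLdef hldef hL0 hK hE0 hlogb hHE hEb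
    hm1 hm2 hm3 hCdiv (by positivity) hlL h4 h5 h6
  have hmain := frac_ge (S1 T Z) (S2 T Z) (∑ p ∈ prI T Z, 1 / (p : ℝ) * Gp T Z p) K L hKL
    (S1_pos T Z hZ2) (by linarith only [hS1, hE1, hKL]) (by linarith only [hS2, hS3, hE1, hKL])
  obtain ⟨n, hn⟩ : ∃ n : ℝ, n = 600 * k * l := ⟨_, rfl⟩
  rw [← hn]
  have hn0 : 0 < n := by rw [hn]; positivity
  have hLn : L = 0.165 * n := by rw [hLkl, hn]; ring
  have hq := q_le hZ2 hZY K E L n C2 C3 hLdef (by rw [hlY, hn]; ring) hLn hL0 hK hHE hE1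
    (by
      have h7 := (abs_le.mp (hC2 Z Y hZ2 hZY)).2
      rw [← hLdef, hlY] at h7
      have e1 : 200 * k * l / L = 200 / 99 := by rw [hLkl]; field_simp
      rw [e1] at h7
      exact h7)
    (by
      have h7 := (abs_le.mp (hC3 Z Y (by omega) hZY)).1
      rw [← hLdef, hlY] at h7
      have e1 : n / 3 = 200 * k * l := by rw [hn]; ring
      rw [e1]
      exact h7) hC2div (by linarith only [hCL, hLn, hC10, hC20, hn0, hC30])
  have e2 : 600 / 99 * L = n := by rw [hLn]; ring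
  rw [e2] at hmain
  have hfin : 0.3 / (K * n) ≤ 1.94 / (K * n) - 1.6 / (K * n) := by
    rw [← sub_div]
    apply div_le_div_of_nonneg_right _ (by positivity)
    norm_num
  linarith only [hfin, hmain, hq]

end Pool.Agent.Lib.MP_bae66e_nt.AP3
end

section

/-!
# Counting with two shifts
-/

set_option autoImplicit false

namespace Pool.Agent.Lib.MP_bae66e_nt.AP3

open Finset

/-- forbidden residues for two shifts -/
def Om2 (u p p' : ℕ) (ℓ : ℕ) : Finset ℕ :=
  if ℓ.Prime ∧ u < ℓ then {p % ℓ, p' % ℓ} else ∅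

/-- the density of the doubly rough integers -/
noncomputable def V2 (u T p p' : ℕ) : ℝ := ∏ ℓ ∈ prI u T, (1 - xb (Om2 u p p') ℓ)

/-- the single density -/
noncomputable def VV (u T : ℕ) : ℝ := ∏ ℓ ∈ prI u T, (1 - 1 / (ℓ : ℝ))

/-- the primorial -/
def prm (u : ℕ) : ℕ := ∏ ℓ ∈ prI 0 u, ℓ

lemma prm_pos (u : ℕ) : 0 < prm u := prod_pos fun _ hp => (mem_prI.mp hp).2.pos

lemma dvd_prm {u ℓ : ℕ} (h : ℓ ∈ prI 0 u) : ℓ ∣ prm u := dvd_prod_of_mem _ h

lemma coprime_prm {u n : ℕ} (h : ∀ ℓ ∈ prI 0 u, ¬ ℓ ∣ n) : Nat.Coprime (prm u) n := by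
  unfold prm
  exact Nat.Coprime.prod_left fun ℓ hℓ =>
    (Nat.Prime.coprime_iff_not_dvd (mem_prI.mp hℓ).2).mpr (h ℓ hℓ)

open Classical in
/-- integers of a class with two rough shifts divisible by given numbers -/
noncomputable def set2 (T A B W β p p' D D' : ℕ) : Finset ℕ :=
  (Ioc A B).filter (fun m => m ≡ β [MOD W] ∧ (D ∣ m - p ∧ D' ∣ m - p') ∧
    Rough T (m - p) ∧ Rough T (m - p'))

lemma mem_set2 {T A B W β p p' D D' m : ℕ} : m ∈ set2 T A B W β p p' D D' ↔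
    m ∈ Ioc A B ∧ (m ≡ β [MOD W] ∧ (D ∣ m - p ∧ D' ∣ m - p') ∧
    Rough T (m - p) ∧ Rough T (m - p')) := by
  simp only [set2, mem_filter]

lemma xb_Om2_le (u p p' : ℕ) (hu : 3 ≤ u) (ℓ : ℕ) : xb (Om2 u p p') ℓ ≤ 1 / 2 := by
  unfold xb Om2
  split_ifs with h
  · have h1 : #({p % ℓ, p' % ℓ} : Finset ℕ) ≤ 2 := card_le_two
    have h2 : (4 : ℝ) ≤ ℓ := by exact_mod_cast (by omega : 4 ≤ ℓ)
    have h3 : (#({p % ℓ, p' % ℓ} : Finset ℕ) : ℝ) ≤ 2 := by exact_mod_cast h1
    rw [div_le_iff₀ (by linarith)]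
    linarith
  · simp

lemma card_Om2_le (u p p' ℓ : ℕ) : #(Om2 u p p' ℓ) ≤ 2 := by
  unfold Om2
  split_ifs
  · exact card_le_two
  · simp

lemma V2_self (u T p : ℕ) : V2 u T p p = VV u T := by
  unfold V2 VV
  apply prod_congr rfl
  intro ℓ hℓ
  have h := mem_prI.mp hℓ
  unfold xb Om2
  rw [if_pos ⟨h.2, h.1.1⟩]
  simp

lemma V2_nonneg (u T p p' : ℕ) (hu : 3 ≤ u) : 0 ≤ V2 u T p p' := by
  unfold V2
  apply prod_nonneg
  intro ℓ _
  have := xb_Om2_le u p p' hu ℓ
  linarith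

lemma V2_ge (u T p p' : ℕ) (hu : 3 ≤ u) : (1 / 2 : ℝ) ^ T ≤ V2 u T p p' := by
  unfold V2
  have h1 : #(prI u T) ≤ T := card_le_of_primes (prI u T) T
    (fun ℓ hℓ => ⟨(mem_prI.mp hℓ).2, (mem_prI.mp hℓ).1.2⟩)
  calc (1 / 2 : ℝ) ^ T ≤ (1 / 2) ^ #(prI u T) :=
        pow_le_pow_of_le_one (by norm_num) (by norm_num) h1
    _ = ∏ ℓ ∈ prI u T, (1 / 2 : ℝ) := by rw [prod_const]
    _ ≤ _ := prod_le_prod (fun _ _ => by norm_num) (fun ℓ _ => by
        have := xb_Om2_le u p p' hu ℓ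
        linarith)

lemma rough_sub_iff {T u W β p m : ℕ} (hW : W = prm u) (hm : m ≡ β [MOD W])
    (hpm : p ≤ m) (hgood : ∀ ℓ ∈ prI 0 u, ¬ β ≡ p [MOD ℓ]) :
    Rough T (m - p) ↔ ∀ ℓ ∈ prI u T, m % ℓ ≠ p % ℓ := by
  have hmod : ∀ ℓ : ℕ, ℓ ∣ m - p ↔ m % ℓ = p % ℓ := by
    intro ℓ
    rw [← Nat.modEq_iff_dvd' hpm]
    exact ⟨fun h => h.symm, fun h => Nat.ModEq.symm h⟩
  rw [rough_iff]
  constructor
  · intro h ℓ hℓ heq
    have hℓ' := mem_prI.mp hℓ
    exact h ℓ (mem_prI.mpr ⟨⟨hℓ'.2.pos, hℓ'.1.2⟩, hℓ'.2⟩) ((hmod ℓ).mpr heq)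
  · intro h ℓ hℓ hd
    have hℓ' := mem_prI.mp hℓ
    have heq := (hmod ℓ).mp hd
    by_cases hlu : ℓ ≤ u
    · have hmem : ℓ ∈ prI 0 u := mem_prI.mpr ⟨⟨hℓ'.2.pos, hlu⟩, hℓ'.2⟩
      apply hgood ℓ hmem
      have h1 : m ≡ β [MOD ℓ] := hm.of_dvd (hW ▸ dvd_prm hmem)
      exact h1.symm.trans heq
    · exact h ℓ (mem_prI.mpr ⟨⟨not_le.mp hlu, hℓ'.1.2⟩, hℓ'.2⟩) heq

lemma rough_coprime_prm {T u D : ℕ} (hu : u ≤ T) (hD : Rough T D) : Nat.Coprime (prm u) D := by
  apply coprime_prm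
  intro ℓ hℓ hd
  have h := mem_prI.mp hℓ
  have := hD ℓ h.2 hd
  omega

/-- the count by the fundamental lemma -/
lemma card_set2 {T u W β p p' D D' A B : ℕ} {η R : ℝ} (hu3 : 3 ≤ u) (hu : u ≤ T) (hW : W = prm u)
    (hpA : p ≤ A) (hpA' : p' ≤ A)
    (hgood : ∀ ℓ ∈ prI 0 u, ¬ β ≡ p [MOD ℓ]) (hgood' : ∀ ℓ ∈ prI 0 u, ¬ β ≡ p' [MOD ℓ])
    (hD0 : 0 < D) (hD0' : 0 < D') (hD : Rough T D) (hD' : Rough T D') (hcop : Nat.Coprime D D')
    (hfl : ∀ (Om : ℕ → Finset ℕ), (∀ ℓ, xb Om ℓ ≤ 1 / 2) →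
      (∀ ℓ, #(Om ℓ) ≤ 2) → ∀ R' : Finset ℕ, (∀ ℓ ∈ R', ℓ.Prime ∧ ℓ ≤ T) →
      (∀ ℓ ∈ R', ∀ c ∈ Om ℓ, c < ℓ) → FLP Om A B R' η R) :
    |(#(set2 T A B W β p p' D D') : ℝ) - ((B : ℝ) - A) / W / (D * D') * V2 u T p p'|
      ≤ η * (((B : ℝ) - A) / W / (D * D') * V2 u T p p') + R := by
  have hWp : 0 < W := hW ▸ prm_pos u
  have hWD : Nat.Coprime W D := hW ▸ rough_coprime_prm hu hD
  have hWD' : Nat.Coprime W D' := hW ▸ rough_coprime_prm hu hD'
  obtain ⟨a1, ha1, ha1'⟩ := Nat.chineseRemainder hWD β p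
  have hcop2 : Nat.Coprime (W * D) D' := Nat.Coprime.mul_left hWD' hcop
  obtain ⟨a, ha, ha'⟩ := Nat.chineseRemainder hcop2 a1 p'
  have h := hfl (Om2 u p p') (xb_Om2_le u p p' hu3) (card_Om2_le u p p') (prI u T)
    (fun ℓ hℓ => ⟨(mem_prI.mp hℓ).2, (mem_prI.mp hℓ).1.2⟩)
    (fun ℓ hℓ c hc => by
      have hp := mem_prI.mp hℓ
      unfold Om2 at hc
      rw [if_pos ⟨hp.2, hp.1.1⟩, mem_insert, mem_singleton] at hc
      rcases hc with rfl | rfl
      · exact Nat.mod_lt _ hp.2.pos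
      · exact Nat.mod_lt _ hp.2.pos)
    (W * D * D') a (Nat.mul_pos (Nat.mul_pos hWp hD0) hD0')
    (fun ℓ hℓ => by
      have hp := mem_prI.mp hℓ
      apply Nat.Coprime.mul_right
      · apply Nat.Coprime.mul_right
        · rw [hW]
          apply Nat.Coprime.symm
          apply coprime_prm
          intro ℓ' hℓ' hd
          have hp' := mem_prI.mp hℓ'
          rw [Nat.prime_dvd_prime_iff_eq hp'.2 hp.2] at hd
          omega
        · rw [Nat.Prime.coprime_iff_not_dvd hp.2]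
          intro hd
          have := hD ℓ hp.2 hd
          omega
      · rw [Nat.Prime.coprime_iff_not_dvd hp.2]
        intro hd
        have := hD' ℓ hp.2 hd
        omega)
  have e1 : cset (Om2 u p p') A B (W * D * D') a ∅ (prI u T) = set2 T A B W β p p' D D' := by
    ext m
    unfold cset
    rw [mem_set2, mem_filter]
    apply and_congr_right
    intro hm
    have hm' := mem_Ioc.mp hm
    have hpm : p ≤ m := by omega
    have hpm' : p' ≤ m := by omega
    have hmod : m ≡ a [MOD (W * D * D')] ↔ m ≡ β [MOD W] ∧ D ∣ m - p ∧ D' ∣ m - p' := by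
      rw [← Nat.modEq_and_modEq_iff_modEq_mul hcop2, ← Nat.modEq_and_modEq_iff_modEq_mul hWD,
        ← Nat.modEq_iff_dvd' hpm, ← Nat.modEq_iff_dvd' hpm']
      constructor
      · rintro ⟨⟨h1, h2⟩, h3⟩
        have h4 : a ≡ a1 [MOD W] := ha.of_dvd (Dvd.intro _ rfl)
        have h5 : a ≡ a1 [MOD D] := ha.of_dvd (Dvd.intro_left _ rfl)
        exact ⟨h1.trans (h4.trans ha1), (h2.trans (h5.trans ha1')).symm, (h3.trans ha').symm⟩
      · rintro ⟨h1, h2, h3⟩
        have h4 : a ≡ a1 [MOD W] := ha.of_dvd (Dvd.intro _ rfl)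
        have h5 : a ≡ a1 [MOD D] := ha.of_dvd (Dvd.intro_left _ rfl)
        exact ⟨⟨h1.trans (h4.trans ha1).symm, h2.symm.trans (h5.trans ha1').symm⟩,
          h3.symm.trans ha'.symm⟩
    rw [hmod]
    simp only [notMem_empty, IsEmpty.forall_iff, implies_true, true_and]
    constructor
    · rintro ⟨⟨h1, h2⟩, h3⟩
      refine ⟨h1, h2, (rough_sub_iff hW h1 hpm hgood).mpr ?_,
        (rough_sub_iff hW h1 hpm' hgood').mpr ?_⟩
      · intro ℓ hℓ heq
        have hp := mem_prI.mp hℓ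
        apply h3 ℓ hℓ
        unfold Om2
        rw [if_pos ⟨hp.2, hp.1.1⟩, heq]
        exact mem_insert_self _ _
      · intro ℓ hℓ heq
        have hp := mem_prI.mp hℓ
        apply h3 ℓ hℓ
        unfold Om2
        rw [if_pos ⟨hp.2, hp.1.1⟩, heq]
        exact mem_insert_of_mem (mem_singleton_self _)
    · rintro ⟨h1, h2, h3, h4⟩
      refine ⟨⟨h1, h2⟩, ?_⟩
      intro ℓ hℓ hmem
      have hp := mem_prI.mp hℓ
      unfold Om2 at hmem
      rw [if_pos ⟨hp.2, hp.1.1⟩, mem_insert, mem_singleton] at hmem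
      rcases hmem with h5 | h5
      · exact (rough_sub_iff hW h1 hpm hgood).mp h3 ℓ hℓ h5
      · exact (rough_sub_iff hW h1 hpm' hgood').mp h4 ℓ hℓ h5
  rw [e1] at h
  have e2 : ((B : ℝ) - A) / ((W * D * D' : ℕ) : ℝ) = ((B : ℝ) - A) / W / (D * D') := by
    push_cast
    rw [div_div, mul_assoc]
  rw [e2] at h
  exact h

/-- two shifts at distance less than `T` cannot share a rough divisor -/
lemma set2_empty {T A B W β p p' D D' : ℕ} (hpA : p ≤ A) (hpA' : p' ≤ A)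
    (hne : p ≠ p') (hpT : p < T) (hpT' : p' < T) (hD : Rough T D) (hcop : ¬ Nat.Coprime D D') :
    set2 T A B W β p p' D D' = ∅ := by
  rw [eq_empty_iff_forall_notMem]
  intro m hm
  rw [mem_set2, mem_Ioc] at hm
  obtain ⟨⟨hA, _⟩, _, ⟨h1, h2⟩, _⟩ := hm
  obtain ⟨q, hq, hqD, hqD'⟩ := Nat.Prime.not_coprime_iff_dvd.mp hcop
  have hTq := hD q hq hqD
  have h3 : q ∣ m - p := hqD.trans h1
  have h4 : q ∣ m - p' := hqD'.trans h2
  rcases lt_or_gt_of_ne hne with h | h
  · have h5 : q ∣ (m - p) - (m - p') := Nat.dvd_sub h3 h4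
    have h6 : (m - p) - (m - p') = p' - p := by omega
    rw [h6] at h5
    have := Nat.le_of_dvd (by omega) h5
    omega
  · have h5 : q ∣ (m - p') - (m - p) := Nat.dvd_sub h4 h3
    have h6 : (m - p') - (m - p) = p - p' := by omega
    rw [h6] at h5
    have := Nat.le_of_dvd (by omega) h5
    omega

end Pool.Agent.Lib.MP_bae66e_nt.AP3
end

section

/-!
# The sum of the pair densities
-/

set_option autoImplicit false

namespace Pool.Agent.Lib.MP_bae66e_nt.AP3

open Finset Nat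

lemma totient_squarefree {e : ℕ} (he : Squarefree e) :
    (φ e : ℝ) = ∏ ℓ ∈ e.primeFactors, ((ℓ : ℝ) - 1) := by
  have h := Nat.totient_eq_div_primeFactors_mul e
  rw [Nat.prod_primeFactors_of_squarefree he, Nat.div_self (Nat.pos_of_ne_zero he.ne_zero),
    one_mul] at h
  rw [h]
  push_cast
  apply prod_congr rfl
  intro ℓ hℓ
  have := (Nat.prime_of_mem_primeFactors hℓ).one_lt
  rw [Nat.cast_sub this.le]
  simp

lemma sum_dset_le_prod (u y : ℕ) (f : ℕ → ℝ) (hf : ∀ ℓ, ℓ.Prime → 0 ≤ f ℓ) :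
    ∑ e ∈ dset u y, ∏ ℓ ∈ e.primeFactors, f ℓ ≤ ∏ ℓ ∈ prI u y, (1 + f ℓ) := by
  rw [prod_one_add]
  have hinj : Set.InjOn (fun e : ℕ => e.primeFactors) ((dset u y : Finset ℕ) : Set ℕ) := by
    intro a ha b hb hab
    have h1 := mem_dset.mp (mem_coe.mp ha)
    have h2 := mem_dset.mp (mem_coe.mp hb)
    simp only at hab
    rw [← Nat.prod_primeFactors_of_squarefree h1.2, ← Nat.prod_primeFactors_of_squarefree h2.2,
      hab]
  rw [← sum_image (f := fun t : Finset ℕ => ∏ ℓ ∈ t, f ℓ) hinj]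
  apply sum_le_sum_of_subset_of_nonneg
  · intro t ht
    obtain ⟨e, he, rfl⟩ := mem_image.mp ht
    have h1 := mem_dset.mp he
    rw [mem_powerset]
    intro ℓ hℓ
    have h2 := Nat.mem_primeFactors.mp hℓ
    exact mem_prI.mpr ⟨⟨h1.1.2 ℓ h2.1 h2.2.1, (Nat.le_of_dvd h1.1.1.1 h2.2.1).trans h1.1.1.2⟩,
      h2.1⟩
  · intro t ht _
    apply prod_nonneg
    intro ℓ hℓ
    exact hf ℓ (mem_prI.mp (mem_powerset.mp ht hℓ)).2

lemma HH_le_KT (u y : ℕ) (huy : u ≤ y) : HH u y ≤ KT u / KT y := by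
  have h := sum_dset_le_prod u y (fun ℓ => 1 / ((ℓ : ℝ) - 1)) (fun ℓ hℓ => by
    have : (1 : ℝ) < ℓ := by exact_mod_cast hℓ.one_lt
    have : 0 < (ℓ : ℝ) - 1 := by linarith
    positivity)
  have e1 : HH u y = ∑ e ∈ dset u y, ∏ ℓ ∈ e.primeFactors, 1 / ((ℓ : ℝ) - 1) := by
    unfold HH
    apply sum_congr rfl
    intro e he
    rw [totient_squarefree (mem_dset.mp he).2, prod_div_distrib, prod_const_one]
  rw [e1]
  refine h.trans (le_of_eq ?_)
  rw [prod_prI_split u y huy, div_mul_eq_div_div, div_self (KT_pos u).ne', one_div,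
    ← prod_inv_distrib]
  apply prod_congr rfl
  intro ℓ hℓ
  have h1 : (1 : ℝ) < ℓ := by exact_mod_cast (mem_prI.mp hℓ).2.one_lt
  have h2 : (ℓ : ℝ) - 1 ≠ 0 := by linarith
  have h3 : (ℓ : ℝ) ≠ 0 := by linarith
  have h4 : 1 - 1 / (ℓ : ℝ) = ((ℓ : ℝ) - 1) / ℓ := by field_simp
  rw [h4, inv_div]
  field_simp
  ring

lemma sum_inv_totient_sq_le (u y : ℕ) (hu : 3 ≤ u) :
    ∑ e ∈ (dset u y).erase 1, 1 / (φ e : ℝ) ^ 2 ≤ 2 / ((u : ℝ) - 1) := by
  have hu1 : (3 : ℝ) ≤ u := by exact_mod_cast hu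
  have hu0 : 0 < (u : ℝ) - 1 := by linarith
  rcases Nat.eq_zero_or_pos y with rfl | hy
  · have : dset u 0 = ∅ := by
      rw [eq_empty_iff_forall_notMem]
      intro e he
      have := mem_dset.mp he
      omega
    rw [this]
    simp only [erase_empty, sum_empty]
    positivity
  have h := sum_dset_le_prod u y (fun ℓ => 1 / ((ℓ : ℝ) - 1) ^ 2) (fun ℓ _ => by positivity)
  have h1mem : 1 ∈ dset u y := mem_dset.mpr ⟨⟨⟨one_pos, hy⟩, rough_one u⟩, squarefree_one⟩
  have e1 : ∑ e ∈ dset u y, 1 / (φ e : ℝ) ^ 2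
      = ∑ e ∈ dset u y, ∏ ℓ ∈ e.primeFactors, 1 / ((ℓ : ℝ) - 1) ^ 2 := by
    apply sum_congr rfl
    intro e he
    rw [totient_squarefree (mem_dset.mp he).2, prod_div_distrib, prod_const_one, prod_pow]
  rw [← e1, ← add_sum_erase _ _ h1mem] at h
  simp only [Nat.totient_one, Nat.cast_one, one_pow, div_one] at h
  have h2 : ∏ ℓ ∈ prI u y, (1 + 1 / ((ℓ : ℝ) - 1) ^ 2) ≤ Real.exp (1 / ((u : ℝ) - 1)) := by
    calc ∏ ℓ ∈ prI u y, (1 + 1 / ((ℓ : ℝ) - 1) ^ 2)
        ≤ ∏ ℓ ∈ prI u y, Real.exp (1 / ((ℓ : ℝ) - 1) ^ 2) := by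
          apply prod_le_prod
          · intro ℓ _; positivity
          · intro ℓ _
            have := Real.add_one_le_exp (1 / ((ℓ : ℝ) - 1) ^ 2)
            linarith
      _ = Real.exp (∑ ℓ ∈ prI u y, 1 / ((ℓ : ℝ) - 1) ^ 2) := by rw [Real.exp_sum]
      _ ≤ Real.exp (1 / ((u : ℝ) - 1)) := by
          apply Real.exp_le_exp.mpr
          rcases le_or_gt u y with huy | huy
          · have h3 := sum_Ioc_inv_sq_le_sub (α := ℝ) (k := u - 1) (n := y - 1) (by omega)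
              (by omega)
            have h4 : ∑ ℓ ∈ prI u y, 1 / ((ℓ : ℝ) - 1) ^ 2
                ≤ ∑ i ∈ Ioc (u - 1) (y - 1), ((i : ℝ) ^ 2)⁻¹ := by
              have hinj : Set.InjOn (fun ℓ : ℕ => ℓ - 1) ((prI u y : Finset ℕ) : Set ℕ) := by
                intro a ha b hb hab
                have h1 := (mem_prI.mp (mem_coe.mp ha)).2.one_lt
                have h2 := (mem_prI.mp (mem_coe.mp hb)).2.one_lt
                simp only at hab
                omega
              have e2 : ∑ ℓ ∈ prI u y, 1 / ((ℓ : ℝ) - 1) ^ 2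
                  = ∑ ℓ ∈ prI u y, (fun i : ℕ => ((i : ℝ) ^ 2)⁻¹) (ℓ - 1) := by
                apply sum_congr rfl
                intro ℓ hℓ
                have h1 := (mem_prI.mp hℓ).2.one_lt
                simp only
                rw [Nat.cast_sub h1.le, Nat.cast_one, one_div]
              rw [e2, ← sum_image (f := fun i : ℕ => ((i : ℝ) ^ 2)⁻¹) hinj]
              apply sum_le_sum_of_subset_of_nonneg
              · intro i hi
                obtain ⟨ℓ, hℓ, rfl⟩ := mem_image.mp hi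
                have h1 := mem_prI.mp hℓ
                rw [mem_Ioc]
                omega
              · intro _ _ _; positivity
            have h5 : ((u - 1 : ℕ) : ℝ) = (u : ℝ) - 1 := by
              rw [Nat.cast_sub (by omega)]; simp
            have h6 : 0 ≤ ((y - 1 : ℕ) : ℝ)⁻¹ := by positivity
            rw [h5] at h3
            rw [one_div]
            linarith
          · have : prI u y = ∅ := by
              rw [eq_empty_iff_forall_notMem]
              intro p hp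
              have := mem_prI.mp hp
              omega
            rw [this, sum_empty]
            positivity
  have h7 : Real.exp (1 / ((u : ℝ) - 1)) ≤ 1 + 2 / ((u : ℝ) - 1) := by
    set x := 1 / ((u : ℝ) - 1) with hx
    have hx0 : 0 ≤ x := by positivity
    have hx1 : x ≤ 1 / 2 := by
      rw [hx]
      apply one_div_le_one_div_of_le (by norm_num)
      linarith
    have h8 := Real.exp_bound_div_one_sub_of_interval hx0 (by linarith : x < 1)
    have h9 : 1 / (1 - x) ≤ 1 + 2 * x := by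
      rw [div_le_iff₀ (by linarith)]
      nlinarith
    have h10 : 2 / ((u : ℝ) - 1) = 2 * x := by rw [hx]; ring
    rw [h10]
    linarith
  linarith

lemma V2_le_sum {u T y p p' : ℕ} (hu : 3 ≤ u) (hp : y < p) (hp2 : p ≤ 2 * y) (hp' : y < p')
    (hp2' : p' ≤ 2 * y) (hne : p ≠ p') :
    V2 u T p p' ≤ VV u T ^ 2 * ∑ e ∈ dset u y, if p ≡ p' [MOD e] then 1 / (φ e : ℝ) else 0 := by
  have hstep : ∀ ℓ ∈ prI u T, 1 - xb (Om2 u p p') ℓ
      ≤ (1 - 1 / (ℓ : ℝ)) ^ 2 * (1 + if p ≡ p' [MOD ℓ] then 1 / ((ℓ : ℝ) - 1) else 0) := by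
    intro ℓ hℓ
    have h := mem_prI.mp hℓ
    have h1 : (1 : ℝ) < ℓ := by exact_mod_cast h.2.one_lt
    have h0 : (ℓ : ℝ) ≠ 0 := by linarith
    have h2 : (ℓ : ℝ) - 1 ≠ 0 := by linarith
    unfold xb Om2
    rw [if_pos ⟨h.2, h.1.1⟩]
    by_cases hc : p ≡ p' [MOD ℓ]
    · have hc' : p % ℓ = p' % ℓ := hc
      rw [if_pos hc, hc', pair_eq_singleton, card_singleton]
      apply le_of_eq
      push_cast
      field_simp
      ring
    · have hc' : p % ℓ ≠ p' % ℓ := hc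
      rw [if_neg hc, card_pair hc', add_zero, mul_one]
      push_cast
      have h3 : (1 - 1 / (ℓ : ℝ)) ^ 2 = 1 - 2 / ℓ + 1 / (ℓ : ℝ) ^ 2 := by
        field_simp
        ring
      rw [h3]
      have : 0 ≤ 1 / (ℓ : ℝ) ^ 2 := by positivity
      linarith
  have h1 : V2 u T p p' ≤ VV u T ^ 2
      * ∏ ℓ ∈ prI u T, (1 + if p ≡ p' [MOD ℓ] then 1 / ((ℓ : ℝ) - 1) else 0) := by
    unfold V2 VV
    rw [← prod_pow, ← prod_mul_distrib]
    apply prod_le_prod
    · intro ℓ _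
      have := xb_Om2_le u p p' hu ℓ
      linarith
    · exact hstep
  refine h1.trans ?_
  apply mul_le_mul_of_nonneg_left _ (sq_nonneg _)
  rw [prod_one_add]
  -- only subsets of primes with the congruence matter
  set s := (prI u T).filter (fun ℓ => p ≡ p' [MOD ℓ]) with hs
  have h2 : ∑ t ∈ (prI u T).powerset, ∏ ℓ ∈ t, (if p ≡ p' [MOD ℓ] then 1 / ((ℓ : ℝ) - 1) else 0)
      = ∑ t ∈ s.powerset, ∏ ℓ ∈ t, 1 / ((ℓ : ℝ) - 1) := by
    rw [← sum_subset (powerset_mono.mpr (filter_subset (fun ℓ => p ≡ p' [MOD ℓ]) (prI u T)))]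
    · apply sum_congr rfl
      intro t ht
      apply prod_congr rfl
      intro ℓ hℓ
      rw [if_pos (mem_filter.mp (mem_powerset.mp ht hℓ)).2]
    · intro t ht hnt
      rw [mem_powerset] at ht hnt
      obtain ⟨ℓ, hℓ, hℓs⟩ := not_subset.mp hnt
      apply prod_eq_zero hℓ
      rw [if_neg]
      intro hc
      exact hℓs (mem_filter.mpr ⟨ht hℓ, hc⟩)
  rw [h2]
  have hprime : ∀ t ∈ s.powerset, ∀ ℓ ∈ t, ℓ.Prime := by
    intro t ht ℓ hℓ
    exact (mem_prI.mp (mem_filter.mp (mem_powerset.mp ht hℓ)).1).2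
  have hpf : ∀ t ∈ s.powerset, (∏ ℓ ∈ t, ℓ).primeFactors = t := by
    intro t ht
    exact Nat.primeFactors_prod (hprime t ht)
  have hsq : ∀ t ∈ s.powerset, Squarefree (∏ ℓ ∈ t, ℓ) := by
    intro t ht
    apply Finset.squarefree_prod_of_pairwise_isCoprime
    · intro a ha b hb hab
      simp only [Function.onFun]
      rw [← Nat.coprime_iff_isRelPrime]
      exact (Nat.coprime_primes (hprime t ht a ha) (hprime t ht b hb)).mpr hab
    · intro ℓ hℓ
      exact (hprime t ht ℓ hℓ).squarefree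
  have hinj : Set.InjOn (fun t : Finset ℕ => ∏ ℓ ∈ t, ℓ) ((s.powerset : Finset (Finset ℕ)) : Set (Finset ℕ)) := by
    intro a ha b hb hab
    simp only at hab
    rw [← hpf a (mem_coe.mp ha), ← hpf b (mem_coe.mp hb), hab]
  have h3 : ∑ t ∈ s.powerset, ∏ ℓ ∈ t, 1 / ((ℓ : ℝ) - 1)
      = ∑ t ∈ s.powerset, (fun e : ℕ => if p ≡ p' [MOD e] then 1 / (φ e : ℝ) else 0) (∏ ℓ ∈ t, ℓ) := by
    apply sum_congr rfl
    intro t ht
    have hmod : p ≡ p' [MOD (∏ ℓ ∈ t, ℓ)] := by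
      rw [Nat.modEq_iff_dvd]
      rw [Nat.cast_prod]
      apply Finset.prod_dvd_of_coprime
      · intro a ha b hb hab
        simp only [Function.onFun]
        rw [Nat.isCoprime_iff_coprime]
        exact (Nat.coprime_primes (hprime t ht a ha) (hprime t ht b hb)).mpr hab
      · intro ℓ hℓ
        exact (Nat.modEq_iff_dvd.mp (mem_filter.mp (mem_powerset.mp ht hℓ)).2)
    simp only
    rw [if_pos hmod, totient_squarefree (hsq t ht), hpf t ht, prod_div_distrib, prod_const_one]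
  rw [h3, ← sum_image (f := fun e : ℕ => if p ≡ p' [MOD e] then 1 / (φ e : ℝ) else 0) hinj]
  apply sum_le_sum_of_subset_of_nonneg
  · intro e he
    obtain ⟨t, ht, rfl⟩ := mem_image.mp he
    have hpos : 0 < ∏ ℓ ∈ t, ℓ := prod_pos fun ℓ hℓ => (hprime t ht ℓ hℓ).pos
    have hdvd : ((∏ ℓ ∈ t, ℓ : ℕ) : ℤ) ∣ (p' : ℤ) - p := by
      rw [Nat.cast_prod]
      apply Finset.prod_dvd_of_coprime
      · intro a ha b hb hab
        simp only [Function.onFun]
        rw [Nat.isCoprime_iff_coprime]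
        exact (Nat.coprime_primes (hprime t ht a ha) (hprime t ht b hb)).mpr hab
      · intro ℓ hℓ
        exact (Nat.modEq_iff_dvd.mp (mem_filter.mp (mem_powerset.mp ht hℓ)).2)
    have hle : (∏ ℓ ∈ t, ℓ) ≤ y := by
      have h4 : (p' : ℤ) - p ≠ 0 := by
        intro h; apply hne; omega
      have h5 := Int.natAbs_dvd_natAbs.mpr hdvd
      have h6 := Nat.le_of_dvd (Int.natAbs_pos.mpr h4) h5
      rw [Int.natAbs_natCast] at h6
      omega
    refine mem_dset.mpr ⟨⟨⟨hpos, hle⟩, ?_⟩, hsq t ht⟩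
    intro q hq hqd
    have h7 : q ∈ (∏ ℓ ∈ t, ℓ).primeFactors := Nat.mem_primeFactors.mpr ⟨hq, hqd, hpos.ne'⟩
    rw [hpf t ht] at h7
    exact (mem_prI.mp (mem_filter.mp (mem_powerset.mp ht h7)).1).1.1
  · intro e _ _
    split_ifs
    · positivity
    · exact le_rfl

/-- primes of a class in a dyadic block -/
lemma card_class_le {y e a : ℕ} (he : 1 ≤ e) (hey : e ≤ y) (ha : y < a) :
    (#((prI y (2 * y)).filter (fun p => p ≡ a [MOD e])) : ℝ)
      ≤ #{j ∈ Ioc 0 (y / e + 1) | (e * j + (y - (y - a % e) % e)).Prime} ∧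
    (#{j ∈ Ioc 0 (y / e + 1) | (e * j + (y - (y - a % e) % e)).Prime} : ℝ) ≤ y / e + 1 := by
  have hre : a % e < e := Nat.mod_lt _ (by omega)
  set r := (y - a % e) % e with hr
  have hrlt : r < e := Nat.mod_lt _ (by omega)
  set c := y - r with hc
  have hry : r ≤ y := by omega
  have hcmod : c ≡ a [MOD e] := by
    have h1 : r ≡ y - a % e [MOD e] := Nat.mod_modEq _ _
    have h2 : y - a % e + a % e = y := by omega
    have h3 : c + r = y := by omega
    have h4 : c + r ≡ a % e + (y - a % e) [MOD e] := by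
      rw [h3, add_comm (a % e), h2]
    have h5 : c + (y - a % e) ≡ a % e + (y - a % e) [MOD e] :=
      (Nat.ModEq.add_left c h1.symm).trans h4
    exact (Nat.ModEq.add_right_cancel' _ h5).trans (Nat.mod_modEq a e)
  constructor
  · have hle : #((prI y (2 * y)).filter (fun p => p ≡ a [MOD e]))
        ≤ #{j ∈ Ioc 0 (y / e + 1) | (e * j + c).Prime} := by
      apply card_le_card_of_injOn (fun p => (p - c) / e)
      · intro p hp
        have h1 := mem_filter.mp hp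
        have h2 := mem_prI.mp h1.1
        have hcp : c < p := by omega
        have hdvd : e ∣ p - c := by
          rw [← Nat.modEq_iff_dvd' hcp.le]
          exact hcmod.trans h1.2.symm
        obtain ⟨j, hj⟩ := hdvd
        have hjeq : (p - c) / e = j := by rw [hj]; exact Nat.mul_div_cancel_left j (by omega)
        simp only
        rw [mem_coe, mem_filter, mem_Ioc, hjeq]
        refine ⟨⟨?_, ?_⟩, ?_⟩
        · apply Nat.pos_of_ne_zero
          rintro rfl
          omega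
        · have h3 : e * j ≤ y + r := by omega
          have h4 : e * j < y + e := by omega
          have h5 : j < y / e + 1 + 1 := by
            by_contra hcon
            push Not at hcon
            have h6 : e * (y / e + 1 + 1) ≤ e * j := Nat.mul_le_mul_left e hcon
            have h7 : y < e * (y / e + 1) := Nat.lt_mul_div_succ y (by omega)
            have h8 : e * (y / e + 1 + 1) = e * (y / e + 1) + e := by ring
            omega
          omega
        · have : e * j + c = p := by omega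
          rw [this]; exact h2.2
      · intro p hp q hq hpq
        have h1 := mem_filter.mp hp
        have h2 := mem_prI.mp h1.1
        have h3 := mem_filter.mp hq
        have h4 := mem_prI.mp h3.1
        have hcp : c < p := by omega
        have hcq : c < q := by omega
        have hdvd : e ∣ p - c := by
          rw [← Nat.modEq_iff_dvd' hcp.le]
          exact hcmod.trans h1.2.symm
        have hdvd' : e ∣ q - c := by
          rw [← Nat.modEq_iff_dvd' hcq.le]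
          exact hcmod.trans h3.2.symm
        simp only at hpq
        have h5 : p - c = q - c := by
          rw [← Nat.div_mul_cancel hdvd, ← Nat.div_mul_cancel hdvd', hpq]
        omega
    exact_mod_cast hle
  · have h1 : #{j ∈ Ioc 0 (y / e + 1) | (e * j + c).Prime} ≤ y / e + 1 := by
      calc _ ≤ #(Ioc 0 (y / e + 1)) := card_filter_le _ _
        _ = _ := by rw [Nat.card_Ioc]; exact Nat.sub_zero _
    calc (#{j ∈ Ioc 0 (y / e + 1) | (e * j + c).Prime} : ℝ) ≤ ((y / e + 1 : ℕ) : ℝ) := by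
          exact_mod_cast h1
      _ ≤ (y : ℝ) / e + 1 := by
          push_cast
          gcongr
          exact Nat.cast_div_le

lemma rho_eq (e : ℕ) (he : 0 < e) : rho e = φ e / e := by
  have h := Nat.totient_eq_mul_prod_factors e
  have h2 := congrArg (fun q : ℚ => (q : ℝ)) h
  push_cast at h2
  rw [h2]
  unfold rho
  have : (e : ℝ) ≠ 0 := by positivity
  field_simp

/-- Brun-Titchmarsh for dyadic blocks, small moduli -/
lemma card_class_small {y e a : ℕ} (he : 1 ≤ e) (hy : 2 ≤ y) (hey : e * e ≤ y) (ha : y < a) :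
    (#((prI y (2 * y)).filter (fun p => p ≡ a [MOD e])) : ℝ)
      ≤ 32 * (y / Real.log y) * (1 / φ e) := by
  have hey' : e ≤ y := le_trans (Nat.le_mul_of_pos_left e he) hey
  have h1 := (card_class_le he hey' ha).1
  have hy0 : (0 : ℝ) < y := by positivity
  have he0 : (0 : ℝ) < e := by exact_mod_cast he
  have hly : 0 < Real.log y := Real.log_pos (by exact_mod_cast hy)
  have hφ : (0 : ℝ) < φ e := by exact_mod_cast Nat.totient_pos.mpr he
  have hdiv1 : 1 ≤ y / e := Nat.div_pos hey' (by omega)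
  have h2 := brun_titchmarsh e (y - (y - a % e) % e) (y / e + 1) he (by omega)
  refine (h1.trans h2).trans ?_
  have hx1 : ((y / e + 1 : ℕ) : ℝ) ≤ 2 * (y / e) := by
    push_cast
    have h3 : ((y / e : ℕ) : ℝ) ≤ (y : ℝ) / e := Nat.cast_div_le
    have h4 : (1 : ℝ) ≤ (y : ℝ) / e := by
      rw [le_div_iff₀ he0, one_mul]; exact_mod_cast hey'
    linarith
  have hx2 : Real.log y / 2 ≤ Real.log ((y / e + 1 : ℕ) : ℝ) := by
    have h3 : (y : ℝ) / e ≤ ((y / e + 1 : ℕ) : ℝ) := by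
      rw [div_le_iff₀ he0]
      have := Nat.lt_mul_div_succ y (show 0 < e by omega)
      have h5 : y ≤ (y / e + 1) * e := by rw [mul_comm]; exact this.le
      exact_mod_cast h5
    have h4 : Real.log ((y : ℝ) / e) ≤ Real.log ((y / e + 1 : ℕ) : ℝ) :=
      Real.log_le_log (by positivity) h3
    rw [Real.log_div hy0.ne' he0.ne'] at h4
    have h5 : 2 * Real.log e ≤ Real.log y := by
      have h6 : Real.log ((e : ℝ) * e) ≤ Real.log y :=
        Real.log_le_log (by positivity) (by exact_mod_cast hey)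
      rw [Real.log_mul he0.ne' he0.ne'] at h6
      linarith
    linarith
  rw [rho_eq e he]
  calc 8 * ((y / e + 1 : ℕ) : ℝ) / (φ e / e * Real.log ((y / e + 1 : ℕ) : ℝ))
      ≤ 8 * (2 * (y / e)) / (φ e / e * (Real.log y / 2)) := by gcongr
    _ = 32 * (y / Real.log y) * (1 / φ e) := by field_simp; ring

/-- trivial bound, large moduli -/
lemma card_class_large {y e a : ℕ} (he : 1 ≤ e) (hey' : e ≤ y) (hey : y < e * e) (ha : y < a) :
    (#((prI y (2 * y)).filter (fun p => p ≡ a [MOD e])) : ℝ) ≤ 2 * Real.sqrt y := by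
  have h1 := card_class_le he hey' ha
  have he0 : (0 : ℝ) < e := by exact_mod_cast he
  have hy0 : (0 : ℝ) ≤ y := by positivity
  have h2 : Real.sqrt y ≤ e := by
    rw [← Real.sqrt_sq he0.le]
    apply Real.sqrt_le_sqrt
    rw [pow_two]
    exact_mod_cast hey.le
  have hsy : 0 < Real.sqrt y := Real.sqrt_pos.mpr (by exact_mod_cast (by omega : 0 < y))
  have h3 : (y : ℝ) / e ≤ Real.sqrt y := by
    rw [div_le_iff₀ he0]
    calc (y : ℝ) = Real.sqrt y * Real.sqrt y := (Real.mul_self_sqrt hy0).symm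
      _ ≤ Real.sqrt y * e := by gcongr
  have h4 : (1 : ℝ) ≤ Real.sqrt y := by
    rw [show (1 : ℝ) = Real.sqrt 1 by simp]
    apply Real.sqrt_le_sqrt
    exact_mod_cast (by omega : 1 ≤ y)
  linarith [h1.1, h1.2]

/-- the sum of the pair densities -/
theorem pair_sum_le {u T y : ℕ} (hu : 3 ≤ u) (huy : u ≤ y) (P : Finset ℕ)
    (hP : P ⊆ prI y (2 * y)) :
    ∑ p ∈ P, ∑ p' ∈ P.erase p, V2 u T p p'
      ≤ VV u T ^ 2 * (#P * (#P + (64 / ((u : ℝ) - 1) * (y / Real.log y)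
        + 2 * Real.sqrt y * (KT u / KT y)))) := by
  have hy2 : 2 ≤ y := by omega
  have hu1 : (3 : ℝ) ≤ u := by exact_mod_cast hu
  have hu0 : 0 < (u : ℝ) - 1 := by linarith
  have hly : 0 < Real.log y := Real.log_pos (by exact_mod_cast hy2)
  have h1mem : 1 ∈ dset u y := mem_dset.mpr ⟨⟨⟨one_pos, by omega⟩, rough_one u⟩, squarefree_one⟩
  have key : ∀ p ∈ P, ∑ p' ∈ P.erase p, V2 u T p p'
      ≤ VV u T ^ 2 * (#P + (64 / ((u : ℝ) - 1) * (y / Real.log y)
        + 2 * Real.sqrt y * (KT u / KT y))) := by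
    intro p hp
    have hpI := mem_prI.mp (hP hp)
    have h1 : ∀ p' ∈ P.erase p, V2 u T p p'
        ≤ VV u T ^ 2 * ∑ e ∈ dset u y, if p' ≡ p [MOD e] then 1 / (φ e : ℝ) else 0 := by
      intro p' hp'
      have hp'I := mem_prI.mp (hP (mem_of_mem_erase hp'))
      have h2 := V2_le_sum (T := T) hu hpI.1.1 hpI.1.2 hp'I.1.1 hp'I.1.2 (ne_of_mem_erase hp').symm
      refine h2.trans (le_of_eq ?_)
      congr 1
      apply sum_congr rfl
      intro e _
      by_cases hc : p ≡ p' [MOD e]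
      · rw [if_pos hc, if_pos hc.symm]
      · rw [if_neg hc, if_neg (fun h => hc h.symm)]
    refine (sum_le_sum h1).trans ?_
    rw [← mul_sum]
    apply mul_le_mul_of_nonneg_left _ (sq_nonneg _)
    rw [sum_comm, ← add_sum_erase _ _ h1mem]
    have hcount : ∀ e : ℕ, ∑ p' ∈ P.erase p, (if p' ≡ p [MOD e] then 1 / (φ e : ℝ) else 0)
        ≤ 1 / (φ e : ℝ) * (#((prI y (2 * y)).filter (fun q => q ≡ p [MOD e])) : ℝ) := by
      intro e
      rw [← sum_filter, sum_const, nsmul_eq_mul, mul_comm]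
      apply mul_le_mul_of_nonneg_left _ (by positivity)
      have : #((P.erase p).filter (fun q => q ≡ p [MOD e]))
          ≤ #((prI y (2 * y)).filter (fun q => q ≡ p [MOD e])) :=
        card_le_card (filter_subset_filter _ ((erase_subset _ _).trans hP))
      exact_mod_cast this
    have hfirst : ∑ p' ∈ P.erase p, (if p' ≡ p [MOD 1] then 1 / (φ 1 : ℝ) else 0) ≤ #P := by
      simp only [Nat.modEq_one, if_true, Nat.totient_one, Nat.cast_one, div_one, sum_const,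
        nsmul_eq_mul, mul_one]
      exact_mod_cast card_le_card (erase_subset p P)
    apply _root_.add_le_add hfirst
    have hterm : ∀ e ∈ (dset u y).erase 1,
        ∑ p' ∈ P.erase p, (if p' ≡ p [MOD e] then 1 / (φ e : ℝ) else 0)
        ≤ 32 * (y / Real.log y) * (1 / (φ e : ℝ) ^ 2) + 2 * Real.sqrt y * (1 / (φ e : ℝ)) := by
      intro e he
      have he' := mem_dset.mp (mem_of_mem_erase he)
      have he0 := he'.1.1.1
      have hφ : (0 : ℝ) < φ e := by exact_mod_cast Nat.totient_pos.mpr he0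
      refine (hcount e).trans ?_
      have n1 : 0 ≤ 32 * ((y : ℝ) / Real.log y) * (1 / (φ e : ℝ) ^ 2) := by positivity
      have n2 : 0 ≤ 2 * Real.sqrt y * (1 / (φ e : ℝ)) := by positivity
      rcases le_or_gt (e * e) y with h3 | h3
      · have h4 := card_class_small he0 hy2 h3 hpI.1.1
        have h5 : 1 / (φ e : ℝ) * (32 * (y / Real.log y) * (1 / φ e))
            = 32 * (y / Real.log y) * (1 / (φ e : ℝ) ^ 2) := by ring
        have h6 := mul_le_mul_of_nonneg_left h4 (by positivity : 0 ≤ 1 / (φ e : ℝ))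
        linarith
      · have h4 := card_class_large he0 he'.1.1.2 h3 hpI.1.1
        have h6 := mul_le_mul_of_nonneg_left h4 (by positivity : 0 ≤ 1 / (φ e : ℝ))
        linarith
    refine (sum_le_sum hterm).trans ?_
    rw [sum_add_distrib, ← mul_sum, ← mul_sum]
    apply _root_.add_le_add
    · have h3 := sum_inv_totient_sq_le u y hu
      calc 32 * ((y : ℝ) / Real.log y) * ∑ e ∈ (dset u y).erase 1, 1 / (φ e : ℝ) ^ 2
          ≤ 32 * ((y : ℝ) / Real.log y) * (2 / ((u : ℝ) - 1)) := by gcongr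
        _ = _ := by ring
    · apply mul_le_mul_of_nonneg_left _ (by positivity)
      calc ∑ e ∈ (dset u y).erase 1, 1 / (φ e : ℝ) ≤ HH u y := by
            unfold HH
            exact sum_le_sum_of_subset_of_nonneg (erase_subset _ _) fun _ _ _ => by positivity
        _ ≤ KT u / KT y := HH_le_KT u y huy
  refine (sum_le_sum key).trans (le_of_eq ?_)
  rw [sum_const, nsmul_eq_mul]
  ring

end Pool.Agent.Lib.MP_bae66e_nt.AP3
end

section

/-!
# Prime pairs on average: definitions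
-/

set_option autoImplicit false

namespace Pool.Agent.PP

open Finset MeasureTheory Real
open Pool.Agent.MC (ee expSum frac frac' arcSum fareySet)
open Pool.Agent.Lib.MP_bae66e_nt.AP3 (Rough rset dset prI KT flEta FLP cset Om0 xb prm)

/-- distance to the nearest integer -/
noncomputable def dn (x : ℝ) : ℝ := |x - round x|

/-- `GG N x = N / max 1 (N ‖x‖)`, a convenient form of `min (N, 1/‖x‖)`. -/
noncomputable def GG (N x : ℝ) : ℝ := N / max 1 (N * dn x)

/-- `log p` on the primes -/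
noncomputable def th (n : ℕ) : ℝ := if n.Prime then Real.log n else 0

/-- the model of the primes modulo `W` -/
noncomputable def nu (W n : ℕ) : ℝ := if n.Coprime W then (W : ℝ) / Nat.totient W else 0

/-- primes minus their model modulo `W` -/
noncomputable def EE (W n : ℕ) : ℝ := th n - nu W n

/-- autocorrelation on `[1, y]` -/
noncomputable def corr (f : ℕ → ℝ) (y d : ℕ) : ℝ := ∑ n ∈ Icc 1 (y - d), f n * f (n + d)

/-- the error of the fundamental lemma `AP3.fl_main` -/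
noncomputable def E0 (J b z : ℕ) : ℝ := 3 ^ ((J + 1) * (b + J + 1)) * (z : ℝ) ^ (2 * b + 4)

/-- the primes up to `z` not dividing `q` -/
def RR (z q : ℕ) : Finset ℕ := (prI 0 z).filter (fun l => ¬ l ∣ q)

/-- the product of the primes up to `z` dividing `q` -/
def PZ (z q : ℕ) : ℕ := ∏ l ∈ (prI 0 z).filter (fun l => l ∣ q), l

end Pool.Agent.PP
end

section

/-!
# W1a: exponential sums over the model
-/

set_option autoImplicit false

namespace Pool.Agent.PP

open Finset MeasureTheory Real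
open Pool.Agent.MC (ee expSum frac frac' arcSum fareySet)
open Pool.Agent.Lib.MP_bae66e_nt.AP3 (Rough rset dset prI KT flEta FLP cset Om0 xb prm)

/-- Moebius: `1_{gcd(n,W)=1} = ∑_{d ∣ gcd(n,W)} μ(d)`. -/
lemma nu_eq (W n : ℕ) (hW : 1 ≤ W) : nu W n
    = (W : ℝ) / Nat.totient W * ∑ d ∈ W.divisors, if d ∣ n then (ArithmeticFunction.moebius d : ℝ) else 0 := by
  have h1 : ∑ d ∈ W.divisors, (if d ∣ n then (ArithmeticFunction.moebius d : ℝ) else 0) =
      if n.Coprime W then 1 else 0 := by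
    have h2 : ∑ d ∈ W.divisors, (if d ∣ n then (ArithmeticFunction.moebius d : ℝ) else 0) =
        ∑ d ∈ (Nat.gcd n W).divisors, (ArithmeticFunction.moebius d : ℝ) := by
      rw [← Finset.sum_filter]
      apply Finset.sum_congr _ (fun _ _ => rfl)
      ext d
      rw [Finset.mem_filter, Nat.mem_divisors, Nat.mem_divisors, Nat.dvd_gcd_iff]
      constructor
      · rintro ⟨⟨a1, a2⟩, a3⟩
        exact ⟨⟨a3, a1⟩, Nat.gcd_ne_zero_right a2⟩
      · rintro ⟨⟨a1, a2⟩, _⟩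
        exact ⟨⟨a2, by omega⟩, a1⟩
    rw [h2]
    have h3 := ArithmeticFunction.coe_mul_zeta_apply (f := ((ArithmeticFunction.moebius :
      ArithmeticFunction ℤ) : ArithmeticFunction ℝ)) (x := Nat.gcd n W)
    rw [ArithmeticFunction.coe_moebius_mul_coe_zeta, ArithmeticFunction.one_apply] at h3
    simp only [ArithmeticFunction.intCoe_apply] at h3
    rw [← h3]
  rw [h1]
  unfold nu
  split_ifs
  · rw [mul_one]
  · rw [mul_zero]

end Pool.Agent.PP
end
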