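import Pool.Agent.Lib.MP_bae66e_nt.Mg.G001
import Pool.Agent.Lib.MP_bae66e_nt.Mg.G017
import Pool.Agent.Lib.MP_bae66e_nt.Mg.G079

section

/-!
# Definitions, third part
-/

set_option autoImplicit false

namespace Pool.Agent.E3

open Finset MeasureTheory Real
open Pool.Agent.Lib.MP_bae66e_nt.AP3 (Rough)

open Classical in
/-- the integers `2 ≤ n ≤ N` without prime factors `≤ z` -/
noncomputable def RS (z N : ℕ) : Finset ℕ := (Icc 2 N).filter (Rough z)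

/-- `log` on the primes -/
noncomputable def lp (n : ℕ) : ℝ := if n.Prime then Real.log n else 0

/-- `log n - ∑_{p ∣ n} log p` -/
noncomputable def ep (n : ℕ) : ℝ := Real.log n - ∑ p ∈ n.primeFactors, Real.log p

/-- `χ(p) log p` on the primes -/
noncomputable def lpc {W : ℕ} (χ : DirichletCharacter ℂ W) (n : ℕ) : ℂ := ((lp n : ℝ) : ℂ) * ch χ n

end Pool.Agent.E3
end

section

/-!
# D1: duality
-/

set_option autoImplicit false

namespace Pool.Agent.E3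

open Finset MeasureTheory Real

/-- the Schur test -/
private theorem D1_schur (T : Finset ℝ) (M : Finset ℕ) (φ : ℝ → ℕ → ℂ) (w : ℕ → ℝ) (B : ℝ)
    (hw : ∀ n ∈ M, 0 ≤ w n)
    (hB : ∀ t ∈ T, ∑ t' ∈ T, ‖∑ n ∈ M, ((w n : ℝ) : ℂ) * (φ t n * (starRingEnd ℂ) (φ t' n))‖ ≤ B)
    (c : ℝ → ℂ) :
    ∑ n ∈ M, w n * ‖∑ t ∈ T, c t * φ t n‖ ^ 2 ≤ B * ∑ t ∈ T, ‖c t‖ ^ 2 := by
  set K : ℝ → ℝ → ℂ := fun t t' => ∑ n ∈ M, ((w n : ℝ) : ℂ) * (φ t n * (starRingEnd ℂ) (φ t' n))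
    with hK
  have hsym : ∀ t t', ‖K t t'‖ = ‖K t' t‖ := by
    intro t t'
    have h1 : (starRingEnd ℂ) (K t t') = K t' t := by
      rw [hK]
      simp only
      rw [map_sum]
      refine Finset.sum_congr rfl fun n _ => ?_
      rw [map_mul, map_mul, Complex.conj_ofReal, Complex.conj_conj, mul_comm (φ t' n)]
    rw [← h1, Complex.norm_conj]
  have hexp : ((∑ n ∈ M, w n * ‖∑ t ∈ T, c t * φ t n‖ ^ 2 : ℝ) : ℂ) =
      ∑ t ∈ T, ∑ t' ∈ T, c t * (starRingEnd ℂ) (c t') * K t t' := by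
    rw [Complex.ofReal_sum]
    have h1 : ∀ n ∈ M, ((w n * ‖∑ t ∈ T, c t * φ t n‖ ^ 2 : ℝ) : ℂ) =
        ∑ t ∈ T, ∑ t' ∈ T, c t * (starRingEnd ℂ) (c t') *
          (((w n : ℝ) : ℂ) * (φ t n * (starRingEnd ℂ) (φ t' n))) := by
      intro n _
      rw [Complex.ofReal_mul, Complex.ofReal_pow, ← Complex.mul_conj', map_sum,
        Finset.sum_mul_sum, Finset.mul_sum]
      refine Finset.sum_congr rfl fun t _ => ?_
      rw [Finset.mul_sum]
      refine Finset.sum_congr rfl fun t' _ => ?_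
      rw [map_mul]
      ring
    rw [Finset.sum_congr rfl h1, Finset.sum_comm]
    refine Finset.sum_congr rfl fun t _ => ?_
    rw [Finset.sum_comm]
    refine Finset.sum_congr rfl fun t' _ => ?_
    rw [hK, Finset.mul_sum]
  have h0 : 0 ≤ ∑ n ∈ M, w n * ‖∑ t ∈ T, c t * φ t n‖ ^ 2 :=
    Finset.sum_nonneg fun n hn => mul_nonneg (hw n hn) (by positivity)
  have h1 : ∑ n ∈ M, w n * ‖∑ t ∈ T, c t * φ t n‖ ^ 2 ≤
      ∑ t ∈ T, ∑ t' ∈ T, (‖c t‖ ^ 2 / 2 * ‖K t t'‖ + ‖c t'‖ ^ 2 / 2 * ‖K t t'‖) := by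
    have h2 : ∑ n ∈ M, w n * ‖∑ t ∈ T, c t * φ t n‖ ^ 2 =
        ‖∑ t ∈ T, ∑ t' ∈ T, c t * (starRingEnd ℂ) (c t') * K t t'‖ := by
      rw [← hexp, Complex.norm_real, Real.norm_of_nonneg h0]
    rw [h2]
    refine (norm_sum_le _ _).trans (Finset.sum_le_sum fun t _ => ?_)
    refine (norm_sum_le _ _).trans (Finset.sum_le_sum fun t' _ => ?_)
    rw [norm_mul, norm_mul, Complex.norm_conj, ← add_mul]
    apply mul_le_mul_of_nonneg_right _ (norm_nonneg _)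
    nlinarith [sq_nonneg (‖c t‖ - ‖c t'‖)]
  have h2 : ∑ t ∈ T, ∑ t' ∈ T, (‖c t‖ ^ 2 / 2 * ‖K t t'‖ + ‖c t'‖ ^ 2 / 2 * ‖K t t'‖) =
      ∑ t ∈ T, ‖c t‖ ^ 2 * ∑ t' ∈ T, ‖K t t'‖ := by
    have h3 : ∑ t ∈ T, ∑ t' ∈ T, ‖c t'‖ ^ 2 / 2 * ‖K t t'‖ =
        ∑ t ∈ T, ∑ t' ∈ T, ‖c t‖ ^ 2 / 2 * ‖K t t'‖ := by
      rw [Finset.sum_comm]
      refine Finset.sum_congr rfl fun t _ => Finset.sum_congr rfl fun t' _ => ?_
      rw [hsym]
    simp only [Finset.sum_add_distrib]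
    rw [h3, ← Finset.sum_add_distrib]
    refine Finset.sum_congr rfl fun t _ => ?_
    rw [← Finset.sum_add_distrib, Finset.mul_sum]
    refine Finset.sum_congr rfl fun t' _ => ?_
    ring
  rw [h2] at h1
  refine h1.trans ?_
  rw [Finset.mul_sum]
  refine Finset.sum_le_sum fun t ht => ?_
  rw [mul_comm B]
  exact mul_le_mul_of_nonneg_left (hB t ht) (by positivity)

/-- PROOF. First, for all `c : ℝ → ℂ`,
`∑_{n ∈ M} w n ‖∑_{t ∈ T} c t φ t n‖² = ∑_{t, t'} c t conj (c t') ∑_{n ∈ M} w n φ t n conj (φ t' n)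
≤ ∑_{t,t'} (‖c t‖² + ‖c t'‖²)/2 · ‖K t t'‖ ≤ B ∑ ‖c t‖²` (`‖K t t'‖ = ‖K t' t‖`). Since `w ≥ 0` the same bound
holds for the sum over `n ∈ N`. Let `S t = ∑_{n ∈ N} b n φ t n` and `c t = conj (S t)`. Then
`∑_t ‖S t‖² = ∑_{n ∈ N} b n ∑_t c t φ t n ≤ (∑_N ‖b n‖² / w n)^(1/2) (∑_N w n ‖∑_t c t φ t n‖²)^(1/2)
≤ (∑_N ‖b n‖² / w n)^(1/2) (B ∑_t ‖S t‖²)^(1/2)`; square and cancel. (`B ≥ 0` unless `T = ∅`.) -/
theorem dual_schur (T : Finset ℝ) (N M : Finset ℕ) (hNM : N ⊆ M) (φ : ℝ → ℕ → ℂ) (w : ℕ → ℝ) (B : ℝ)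
    (hB0 : 0 ≤ B)
    (hw : ∀ n ∈ M, 0 ≤ w n) (hwN : ∀ n ∈ N, 0 < w n)
    (hB : ∀ t ∈ T, ∑ t' ∈ T, ‖∑ n ∈ M, ((w n : ℝ) : ℂ) * (φ t n * (starRingEnd ℂ) (φ t' n))‖ ≤ B)
    (b : ℕ → ℂ) :
    ∑ t ∈ T, ‖∑ n ∈ N, b n * φ t n‖ ^ 2 ≤ B * ∑ n ∈ N, ‖b n‖ ^ 2 / w n := by
  set S : ℝ → ℂ := fun t => ∑ n ∈ N, b n * φ t n with hS
  set c : ℝ → ℂ := fun t => (starRingEnd ℂ) (S t) with hc
  set Q : ℝ := ∑ n ∈ N, ‖b n‖ ^ 2 / w n with hQ
  set A : ℝ := ∑ t ∈ T, ‖S t‖ ^ 2 with hA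
  have hQ0 : 0 ≤ Q := Finset.sum_nonneg fun n hn => div_nonneg (by positivity) (hwN n hn).le
  have hA0 : 0 ≤ A := Finset.sum_nonneg fun t _ => by positivity
  have hcS : ∑ t ∈ T, ‖c t‖ ^ 2 = A := by
    refine Finset.sum_congr rfl fun t _ => ?_
    rw [hc]
    simp only
    rw [Complex.norm_conj]
  have h1 := D1_schur T M φ w B hw hB c
  rw [hcS] at h1
  have h2 : ∑ n ∈ N, w n * ‖∑ t ∈ T, c t * φ t n‖ ^ 2 ≤ B * A :=
    (Finset.sum_le_sum_of_subset_of_nonneg hNM fun n hn _ =>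
      mul_nonneg (hw n hn) (by positivity)).trans h1
  have h3 : (A : ℂ) = ∑ n ∈ N, b n * ∑ t ∈ T, c t * φ t n := by
    have h4 : (A : ℂ) = ∑ t ∈ T, c t * S t := by
      rw [hA, Complex.ofReal_sum]
      refine Finset.sum_congr rfl fun t _ => ?_
      rw [Complex.ofReal_pow, ← Complex.conj_mul']
    rw [h4, hS]
    simp only [Finset.mul_sum]
    rw [Finset.sum_comm]
    refine Finset.sum_congr rfl fun n _ => Finset.sum_congr rfl fun t _ => ?_
    ring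
  have h5 : A ≤ ∑ n ∈ N, ‖b n‖ * ‖∑ t ∈ T, c t * φ t n‖ := by
    have h6 : A = ‖(A : ℂ)‖ := by rw [Complex.norm_real, Real.norm_of_nonneg hA0]
    rw [h6, h3]
    refine (norm_sum_le _ _).trans (Finset.sum_le_sum fun n _ => ?_)
    rw [norm_mul]
  have h7 : (∑ n ∈ N, ‖b n‖ * ‖∑ t ∈ T, c t * φ t n‖) ^ 2 ≤
      Q * ∑ n ∈ N, w n * ‖∑ t ∈ T, c t * φ t n‖ ^ 2 := by
    apply Finset.sum_sq_le_sum_mul_sum_of_sq_le_mul
    · intro n hn
      exact div_nonneg (by positivity) (hwN n hn).le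
    · intro n hn
      exact mul_nonneg (hwN n hn).le (by positivity)
    · intro n hn
      have := (hwN n hn).ne'
      apply le_of_eq
      field_simp
  have h8 : A ^ 2 ≤ Q * (B * A) := by
    calc A ^ 2 ≤ (∑ n ∈ N, ‖b n‖ * ‖∑ t ∈ T, c t * φ t n‖) ^ 2 := by gcongr
      _ ≤ _ := h7
      _ ≤ _ := mul_le_mul_of_nonneg_left h2 hQ0
  rcases hA0.eq_or_lt with h9 | h9
  · rw [← h9]
    positivity
  · have h10 : A * A ≤ (B * Q) * A := by nlinarith
    exact le_of_mul_le_mul_right h10 h9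

/-- PROOF. For `k : ℕ` the points `t ∈ T` with `k ≤ |u - t| < k + 1` lie in two half-open intervals of length `1`,
each containing at most one point of `T`. So the sum is `≤ 2 ∑_k exp (- γ k²) ≤ 2 ∑_k exp (- γ k) = 2/(1 - exp (-γ))`.
(Or: induction-free version: map `t ↦ ⌊t - u⌋`, which is injective on `T`, and sum over the integers.) -/
theorem spaced_gauss (γ : ℝ) (hγ : 0 < γ) : ∃ C : ℝ, 1 ≤ C ∧ ∀ (T : Finset ℝ), Spaced T → ∀ u : ℝ,
    ∑ t ∈ T, Real.exp (-(γ * (u - t) ^ 2)) ≤ C := by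
  classical
  -- the comparison function on the integers
  set g : ℤ → ℝ := fun k => Real.exp γ * Real.exp (-(γ / 2 * |(k : ℝ)|)) with hg
  have hsum : Summable g := by
    refine Summable.mul_left _ ?_
    have h1 : Summable fun n : ℕ => Real.exp (-(γ / 2 * (n : ℝ))) := by
      have h2 := Real.summable_exp_nat_mul_iff (a := -(γ / 2))
      have h3 := h2.2 (by linarith)
      refine h3.congr fun n => ?_
      congr 1
      ring
    refine Summable.of_nat_of_neg ?_ ?_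
    · refine h1.congr fun n => ?_
      rw [Int.cast_natCast, abs_of_nonneg (Nat.cast_nonneg n)]
    · refine h1.congr fun n => ?_
      rw [Int.cast_neg, Int.cast_natCast, abs_neg, abs_of_nonneg (Nat.cast_nonneg n)]
  have hg0 : ∀ k, 0 ≤ g k := fun k => by positivity
  refine ⟨max 1 (∑' k, g k), le_max_left _ _, fun T hT u => ?_⟩
  refine le_trans ?_ (le_max_right _ _)
  have hinj : Set.InjOn (fun t : ℝ => ⌊t - u⌋) (T : Set ℝ) := by
    intro s hs t ht hst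
    by_contra hne
    have h1 := hT s hs t ht hne
    have h2 : |(s - u) - (t - u)| < 1 := Int.abs_sub_lt_one_of_floor_eq_floor hst
    have h3 : (s - u) - (t - u) = s - t := by ring
    rw [h3] at h2
    linarith
  have hle : ∀ t ∈ T, Real.exp (-(γ * (u - t) ^ 2)) ≤ g ⌊t - u⌋ := by
    intro t _
    rw [hg]
    simp only
    rw [← Real.exp_add]
    apply Real.exp_le_exp.2
    set y := t - u with hy
    have h1 : (u - t) ^ 2 = y ^ 2 := by rw [hy]; ring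
    rw [h1]
    have h2 := Int.floor_le y
    have h3 := Int.lt_floor_add_one y
    have h4 : |((⌊y⌋ : ℤ) : ℝ)| ≤ |y| + 1 := by
      have h5 : |((⌊y⌋ : ℤ) : ℝ) - y| ≤ 1 := by
        rw [abs_le]
        constructor <;> linarith
      have h6 := abs_sub_abs_le_abs_sub ((⌊y⌋ : ℤ) : ℝ) y
      linarith
    have h7 : |y| ≤ 1 / 2 + y ^ 2 / 2 := by
      have h8 := sq_nonneg (|y| - 1)
      have h9 := sq_abs y
      nlinarith
    have h10 : γ / 2 * |((⌊y⌋ : ℤ) : ℝ)| ≤ γ / 2 * (3 / 2 + y ^ 2 / 2) := by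
      apply mul_le_mul_of_nonneg_left _ (by linarith)
      linarith
    have h11 : 0 ≤ γ * y ^ 2 := by positivity
    nlinarith
  calc ∑ t ∈ T, Real.exp (-(γ * (u - t) ^ 2)) ≤ ∑ t ∈ T, g ⌊t - u⌋ := Finset.sum_le_sum hle
    _ = ∑ k ∈ T.image (fun t : ℝ => ⌊t - u⌋), g k := by
        rw [Finset.sum_image hinj]
    _ ≤ ∑' k, g k := hsum.sum_le_tsum _ fun k _ => hg0 k

end Pool.Agent.E3
end

section

/-!
# J5: expansion of the square for one multiplier `s` (finite sums only)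
-/

set_option autoImplicit false

namespace Pool.Agent.E3

open Finset

/-- the number of `m ∈ [M, 2M]` with `s m - t` and `s m - t'` both prime -/
def NJ (M s t t' : ℕ) : ℕ := #{m ∈ Icc M (2 * M) | (s * m - t).Prime ∧ (s * m - t').Prime}

/-- the correlation of `f` at distance `h` in the class `b` modulo `s` -/
noncomputable def cb (f : ℕ → ℝ) (H s b h : ℕ) : ℝ :=
  ∑ t ∈ (Icc 1 (H - h)).filter (fun t => t % s = b), f t * f (t + h)

private theorem J5_reflect (g : ℕ → ℝ) (H : ℕ) :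
    ∑ h ∈ Icc 1 H, g (H + 1 - h) = ∑ t ∈ Icc 1 H, g t := by
  refine Finset.sum_nbij' (fun h => H + 1 - h) (fun h => H + 1 - h) ?_ ?_ ?_ ?_ ?_
  · intro a ha
    rw [mem_Icc] at ha ⊢
    omega
  · intro a ha
    rw [mem_Icc] at ha ⊢
    omega
  · intro a ha
    rw [mem_Icc] at ha
    omega
  · intro a ha
    rw [mem_Icc] at ha
    omega
  · intro a _
    rfl

private theorem J5_sym_aux (F : ℕ → ℕ → ℝ) (hF : ∀ a b, F a b = F b a) (H : ℕ) :
    ∑ t ∈ Icc 1 H, ∑ t' ∈ Icc 1 H, F t t'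
      = ∑ t ∈ Icc 1 H, F t t + 2 * ∑ h ∈ Icc 1 H, ∑ t ∈ Icc 1 (H - h), F t (t + h) := by
  induction H with
  | zero => simp
  | succ H ih =>
    have h1 : ∑ t ∈ Icc 1 (H + 1), ∑ t' ∈ Icc 1 (H + 1), F t t'
        = ∑ t ∈ Icc 1 H, ∑ t' ∈ Icc 1 H, F t t' + F (H + 1) (H + 1)
          + 2 * ∑ t ∈ Icc 1 H, F t (H + 1) := by
      rw [Finset.sum_Icc_succ_top (by omega)]
      have h2 : ∀ t, ∑ t' ∈ Icc 1 (H + 1), F t t' = ∑ t' ∈ Icc 1 H, F t t' + F t (H + 1) := by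
        intro t
        rw [Finset.sum_Icc_succ_top (by omega)]
      rw [Finset.sum_congr rfl (fun t _ => h2 t), h2, Finset.sum_add_distrib]
      have h3 : ∑ t' ∈ Icc 1 H, F (H + 1) t' = ∑ t' ∈ Icc 1 H, F t' (H + 1) :=
        Finset.sum_congr rfl (fun t _ => hF _ _)
      rw [h3]
      ring
    have h4 : ∑ h ∈ Icc 1 (H + 1), ∑ t ∈ Icc 1 (H + 1 - h), F t (t + h)
        = ∑ h ∈ Icc 1 H, ∑ t ∈ Icc 1 (H - h), F t (t + h) + ∑ t ∈ Icc 1 H, F t (H + 1) := by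
      rw [Finset.sum_Icc_succ_top (by omega), Nat.sub_self]
      have h5 : ∑ t ∈ Icc 1 0, F t (t + (H + 1)) = 0 := by simp
      rw [h5, add_zero, ← J5_reflect (fun t => F t (H + 1)), ← Finset.sum_add_distrib]
      refine Finset.sum_congr rfl (fun h hh => ?_)
      rw [mem_Icc] at hh
      have h6 : H + 1 - h = (H - h) + 1 := by omega
      rw [h6, Finset.sum_Icc_succ_top (by omega)]
      have h7 : H - h + 1 + h = H + 1 := by omega
      rw [h7]
    rw [h1, h4, ih, Finset.sum_Icc_succ_top (by omega : 1 ≤ H + 1) (fun t => F t t)]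
    ring

private theorem J5_sym (F : ℕ → ℕ → ℝ) (hF : ∀ a b, F a b = F b a) (H : ℕ) :
    ∑ t ∈ Icc 1 H, ∑ t' ∈ Icc 1 H, F t t'
      = ∑ t ∈ Icc 1 H, F t t + 2 * ∑ h ∈ Icc 1 (H - 1), ∑ t ∈ Icc 1 (H - h), F t (t + h) := by
  rw [J5_sym_aux F hF H]
  rcases Nat.eq_zero_or_pos H with h | h
  · subst h
    simp
  · obtain ⟨K, rfl⟩ : ∃ K, H = K + 1 := ⟨H - 1, by omega⟩
    rw [Nat.add_sub_cancel, Finset.sum_Icc_succ_top (by omega : 1 ≤ K + 1)
      (fun h => ∑ t ∈ Icc 1 (K + 1 - h), F t (t + h)), Nat.sub_self]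
    simp

private theorem J5_NJ_symm (M s t t' : ℕ) : NJ M s t t' = NJ M s t' t := by
  rw [NJ, NJ]
  congr 1
  refine Finset.filter_congr (fun m _ => ?_)
  exact and_comm

/-- PROOF. Expand the square: `∑_{t, t'} f t f t' NJ M s t t'` (the product of the two indicators, summed over `m`); the pairs with `t < t'` and
`t > t'` give the same (`NJ` is symmetric); `t' = t + h` with `1 ≤ h ≤ H - 1`, `1 ≤ t ≤ H - h`. -/
theorem sq_expand (f : ℕ → ℝ) (H s M : ℕ) :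
    ∑ m ∈ Icc M (2 * M), (∑ t ∈ Icc 1 H, f t * (if (s * m - t).Prime then 1 else 0)) ^ 2
      = ∑ t ∈ Icc 1 H, f t ^ 2 * NJ M s t t
        + 2 * ∑ h ∈ Icc 1 (H - 1), ∑ t ∈ Icc 1 (H - h), f t * f (t + h) * NJ M s t (t + h) := by
  have h1 : ∑ m ∈ Icc M (2 * M), (∑ t ∈ Icc 1 H, f t * (if (s * m - t).Prime then (1 : ℝ) else 0)) ^ 2
      = ∑ t ∈ Icc 1 H, ∑ t' ∈ Icc 1 H, f t * f t' * NJ M s t t' := by
    have h2 : ∀ m, (∑ t ∈ Icc 1 H, f t * (if (s * m - t).Prime then (1 : ℝ) else 0)) ^ 2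
        = ∑ t ∈ Icc 1 H, ∑ t' ∈ Icc 1 H, f t * f t'
          * (if (s * m - t).Prime ∧ (s * m - t').Prime then (1 : ℝ) else 0) := by
      intro m
      rw [sq, Finset.sum_mul_sum]
      refine Finset.sum_congr rfl (fun t _ => Finset.sum_congr rfl (fun t' _ => ?_))
      by_cases ha : (s * m - t).Prime
      · by_cases hb : (s * m - t').Prime
        · rw [if_pos ha, if_pos hb, if_pos ⟨ha, hb⟩]; ring
        · rw [if_pos ha, if_neg hb, if_neg (fun h => hb h.2)]; ring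
      · rw [if_neg ha, if_neg (show ¬((s * m - t).Prime ∧ (s * m - t').Prime) from fun h => ha h.1)]; ring
    rw [Finset.sum_congr rfl (fun m _ => h2 m), Finset.sum_comm]
    refine Finset.sum_congr rfl (fun t _ => ?_)
    rw [Finset.sum_comm]
    refine Finset.sum_congr rfl (fun t' _ => ?_)
    rw [← Finset.mul_sum, NJ, Finset.card_filter]
    push_cast
    rfl
  rw [h1, J5_sym (fun t t' => f t * f t' * NJ M s t t')
    (fun a b => by rw [J5_NJ_symm M s a b]; ring) H]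
  congr 1
  refine Finset.sum_congr rfl (fun t _ => ?_)
  ring

private theorem J5_shift_card (P : ℕ → Prop) [DecidablePred P] (M k : ℕ) (hk : k ≤ M) :
    #{m ∈ Icc (M - k) (2 * M - k) | P m} ≤ #{m ∈ Icc M (2 * M) | P m} + k ∧
    #{m ∈ Icc M (2 * M) | P m} ≤ #{m ∈ Icc (M - k) (2 * M - k) | P m} + k := by
  constructor
  · have h2 : (Icc (M - k) (2 * M - k)).filter P
        ⊆ ((Icc M (2 * M)).filter P) ∪ Ico (M - k) M := by
      intro m hm
      rw [Finset.mem_filter, mem_Icc] at hm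
      rw [Finset.mem_union, Finset.mem_filter, mem_Icc, mem_Ico]
      obtain ⟨⟨h3, h4⟩, h5⟩ := hm
      by_cases h6 : m < M
      · right; omega
      · left; exact ⟨⟨by omega, by omega⟩, h5⟩
    refine le_trans (Finset.card_le_card h2) (le_trans (Finset.card_union_le _ _) ?_)
    rw [Nat.card_Ico]
    have h7 : M - (M - k) = k := by omega
    rw [h7]
  · have h2 : (Icc M (2 * M)).filter P
        ⊆ ((Icc (M - k) (2 * M - k)).filter P) ∪ Ioc (2 * M - k) (2 * M) := by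
      intro m hm
      rw [Finset.mem_filter, mem_Icc] at hm
      rw [Finset.mem_union, Finset.mem_filter, mem_Icc, mem_Ioc]
      obtain ⟨⟨h3, h4⟩, h5⟩ := hm
      by_cases h6 : 2 * M - k < m
      · right; omega
      · left; exact ⟨⟨by omega, by omega⟩, h5⟩
    refine le_trans (Finset.card_le_card h2) (le_trans (Finset.card_union_le _ _) ?_)
    rw [Nat.card_Ioc]
    have h7 : 2 * M - (2 * M - k) = k := by omega
    rw [h7]

/-- PROOF. In the natural numbers `s m - (u + s k) = s (m - k) - u` (`Nat.sub_sub`, `Nat.mul_sub`), so `m ↦ m - k` maps the set of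
`NJ M s (u + s k) (u + s k + h)` injectively (`k ≤ M`) onto `{m' ∈ [M - k, 2M - k] | ...}` with the condition of `NJ M s u (u + h)`; the sets `[M - k, 2M - k]`
and `[M, 2M]` differ by `k` elements on each side. -/
theorem NJ_shift (M s u h k : ℕ) (hk : k ≤ M) :
    |(NJ M s (u + s * k) (u + s * k + h) : ℝ) - NJ M s u (u + h)| ≤ k := by
  have hsub : ∀ m v : ℕ, s * m - (v + s * k) = s * (m - k) - v := by
    intro m v
    rw [Nat.mul_sub, Nat.sub_sub, Nat.add_comm]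
  have hA : NJ M s (u + s * k) (u + s * k + h)
      = #{m ∈ Icc (M - k) (2 * M - k) | (s * m - u).Prime ∧ (s * m - (u + h)).Prime} := by
    rw [NJ]
    refine Finset.card_nbij' (fun m => m - k) (fun m => m + k) ?_ ?_ ?_ ?_
    · intro m hm
      rw [Finset.mem_coe, Finset.mem_filter, mem_Icc] at hm ⊢
      obtain ⟨⟨h1, h2⟩, h3, h4⟩ := hm
      dsimp only
      refine ⟨⟨by omega, by omega⟩, ?_, ?_⟩
      · rw [hsub] at h3
        exact h3
      · have h5 : u + s * k + h = (u + h) + s * k := by ring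
        rw [h5, hsub] at h4
        exact h4
    · intro m hm
      rw [Finset.mem_coe, Finset.mem_filter, mem_Icc] at hm ⊢
      obtain ⟨⟨h1, h2⟩, h3, h4⟩ := hm
      dsimp only
      refine ⟨⟨by omega, by omega⟩, ?_, ?_⟩
      · rw [hsub, Nat.add_sub_cancel]
        exact h3
      · have h5 : u + s * k + h = (u + h) + s * k := by ring
        rw [h5, hsub, Nat.add_sub_cancel]
        exact h4
    · intro m hm
      rw [Finset.mem_coe, Finset.mem_filter, mem_Icc] at hm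
      dsimp only
      omega
    · intro m hm
      dsimp only
      omega
  rw [hA, NJ]
  obtain ⟨h1, h1'⟩ := J5_shift_card (fun m => (s * m - u).Prime ∧ (s * m - (u + h)).Prime) M k hk
  have h3 : ((#{m ∈ Icc (M - k) (2 * M - k) | (s * m - u).Prime ∧ (s * m - (u + h)).Prime} : ℕ) : ℝ)
      ≤ (#{m ∈ Icc M (2 * M) | (s * m - u).Prime ∧ (s * m - (u + h)).Prime} : ℕ) + k := by
    exact_mod_cast h1
  have h4 : ((#{m ∈ Icc M (2 * M) | (s * m - u).Prime ∧ (s * m - (u + h)).Prime} : ℕ) : ℝ)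
      ≤ (#{m ∈ Icc (M - k) (2 * M - k) | (s * m - u).Prime ∧ (s * m - (u + h)).Prime} : ℕ) + k := by
    exact_mod_cast h1'
  rw [abs_le]
  constructor <;> linarith

/-- PROOF. `t = b + s k` with `b = t % s`, `k = t / s ≤ t ≤ H`: group the `t` by `b`, `NJ_shift` for each `t`. -/
theorem class_expand (f : ℕ → ℝ) (H s M h : ℕ) (hs : 1 ≤ s) (hH : H ≤ M) :
    |∑ t ∈ Icc 1 (H - h), f t * f (t + h) * NJ M s t (t + h) - ∑ b ∈ range s, cb f H s b h * NJ M s b (b + h)|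
      ≤ H * ∑ t ∈ Icc 1 (H - h), |f t * f (t + h)| := by
  have h1 : ∑ b ∈ range s, cb f H s b h * NJ M s b (b + h)
      = ∑ t ∈ Icc 1 (H - h), f t * f (t + h) * NJ M s (t % s) (t % s + h) := by
    have h2 : ∀ b ∈ range s, cb f H s b h * NJ M s b (b + h)
        = ∑ t ∈ (Icc 1 (H - h)).filter (fun t => t % s = b),
            f t * f (t + h) * NJ M s (t % s) (t % s + h) := by
      intro b _
      rw [cb, Finset.sum_mul]
      refine Finset.sum_congr rfl (fun t ht => ?_)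
      rw [(Finset.mem_filter.1 ht).2]
    rw [Finset.sum_congr rfl h2]
    refine Finset.sum_fiberwise_of_maps_to (fun t _ => ?_) _
    rw [Finset.mem_range]
    exact Nat.mod_lt _ hs
  rw [h1, ← Finset.sum_sub_distrib, Finset.mul_sum]
  refine le_trans (Finset.abs_sum_le_sum_abs _ _) (Finset.sum_le_sum (fun t ht => ?_))
  rw [mem_Icc] at ht
  rw [← mul_sub, abs_mul, mul_comm]
  refine mul_le_mul_of_nonneg_right ?_ (abs_nonneg _)
  have h3 : t = t % s + s * (t / s) := (Nat.mod_add_div t s).symm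
  have h4 : t / s ≤ t := Nat.div_le_self t s
  have h5 := NJ_shift M s (t % s) h (t / s) (by omega)
  rw [← h3] at h5
  refine le_trans h5 ?_
  exact_mod_cast (by omega : t / s ≤ H)

/-- PROOF. `sq_expand`, `NJ M s t t ≤ M + 1`, `class_expand`, `∑_h ∑_t |f t f (t + h)| ≤ (∑ |f|)²`, `NJ M s b (b + h) ≤ B (Fr h)²`. -/
theorem one_s_bound (f : ℕ → ℝ) (H s M : ℕ) (B : ℝ) (hs : 1 ≤ s) (hH : H ≤ M)
    (hN : ∀ b h : ℕ, b < s → 1 ≤ h → h ≤ H → (NJ M s b (b + h) : ℝ) ≤ B * (Fr h) ^ 2) :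
    ∑ m ∈ Icc M (2 * M), (∑ t ∈ Icc 1 H, f t * (if (s * m - t).Prime then 1 else 0)) ^ 2
      ≤ (M + 1) * ∑ t ∈ Icc 1 H, f t ^ 2 + 2 * H * (∑ t ∈ Icc 1 H, |f t|) ^ 2
        + 2 * B * ∑ h ∈ Icc 1 H, ∑ b ∈ range s, (Fr h) ^ 2 * |cb f H s b h| := by
  rw [sq_expand]
  have h1 : ∑ t ∈ Icc 1 H, f t ^ 2 * NJ M s t t ≤ (M + 1) * ∑ t ∈ Icc 1 H, f t ^ 2 := by
    rw [Finset.mul_sum]
    refine Finset.sum_le_sum (fun t _ => ?_)
    rw [mul_comm]
    refine mul_le_mul_of_nonneg_right ?_ (sq_nonneg _)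
    have h2 : NJ M s t t ≤ M + 1 := by
      rw [NJ]
      refine le_trans (Finset.card_filter_le _ _) ?_
      rw [Nat.card_Icc]
      omega
    exact_mod_cast h2
  have h2 : ∀ h ∈ Icc 1 (H - 1), ∑ t ∈ Icc 1 (H - h), f t * f (t + h) * NJ M s t (t + h)
      ≤ H * ∑ t ∈ Icc 1 (H - h), |f t| * |f (t + h)|
        + ∑ b ∈ range s, B * ((Fr h) ^ 2 * |cb f H s b h|) := by
    intro h hh
    rw [mem_Icc] at hh
    have h3 := (abs_le.1 (class_expand f H s M h hs hH)).2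
    have h4 : ∑ b ∈ range s, cb f H s b h * NJ M s b (b + h)
        ≤ ∑ b ∈ range s, B * ((Fr h) ^ 2 * |cb f H s b h|) := by
      refine Finset.sum_le_sum (fun b hb => ?_)
      rw [Finset.mem_range] at hb
      have h5 := hN b h hb hh.1 (by omega)
      have h6 : (0 : ℝ) ≤ NJ M s b (b + h) := Nat.cast_nonneg _
      calc cb f H s b h * NJ M s b (b + h) ≤ |cb f H s b h| * NJ M s b (b + h) :=
            mul_le_mul_of_nonneg_right (le_abs_self _) h6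
        _ ≤ |cb f H s b h| * (B * (Fr h) ^ 2) := mul_le_mul_of_nonneg_left h5 (abs_nonneg _)
        _ = B * ((Fr h) ^ 2 * |cb f H s b h|) := by ring
    have h7 : ∑ t ∈ Icc 1 (H - h), |f t * f (t + h)| = ∑ t ∈ Icc 1 (H - h), |f t| * |f (t + h)| :=
      Finset.sum_congr rfl (fun t _ => abs_mul _ _)
    rw [h7] at h3
    linarith
  have h3 := Finset.sum_le_sum h2
  rw [Finset.sum_add_distrib, ← Finset.mul_sum] at h3
  have h4 : 2 * ∑ h ∈ Icc 1 (H - 1), ∑ t ∈ Icc 1 (H - h), |f t| * |f (t + h)|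
      ≤ (∑ t ∈ Icc 1 H, |f t|) ^ 2 := by
    have h5 := J5_sym (fun t t' => |f t| * |f t'|) (fun a b => mul_comm _ _) H
    rw [← Finset.sum_mul_sum, ← sq] at h5
    have h6 : 0 ≤ ∑ t ∈ Icc 1 H, |f t| * |f t| :=
      Finset.sum_nonneg (fun t _ => mul_nonneg (abs_nonneg _) (abs_nonneg _))
    linarith
  have h5 : ∑ h ∈ Icc 1 (H - 1), ∑ b ∈ range s, B * ((Fr h) ^ 2 * |cb f H s b h|)
      ≤ B * ∑ h ∈ Icc 1 H, ∑ b ∈ range s, (Fr h) ^ 2 * |cb f H s b h| := by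
    rw [Finset.mul_sum]
    have h6 : ∀ h ∈ Icc 1 H, B * ∑ b ∈ range s, (Fr h) ^ 2 * |cb f H s b h|
        = ∑ b ∈ range s, B * ((Fr h) ^ 2 * |cb f H s b h|) := fun h _ => Finset.mul_sum _ _ _
    rw [Finset.sum_congr rfl h6]
    refine Finset.sum_le_sum_of_subset_of_nonneg ?_ ?_
    · intro h hh
      rw [mem_Icc] at hh ⊢
      omega
    · intro h hh _
      rw [mem_Icc] at hh
      refine Finset.sum_nonneg (fun b hb => ?_)
      rw [Finset.mem_range] at hb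
      have h7 : (0 : ℝ) ≤ B * (Fr h) ^ 2 :=
        le_trans (Nat.cast_nonneg _) (hN b h hb hh.1 hh.2)
      rw [← mul_assoc]
      exact mul_nonneg h7 (abs_nonneg _)
  have hH0 : (0 : ℝ) ≤ H := Nat.cast_nonneg _
  have hS0 : 0 ≤ (∑ t ∈ Icc 1 H, |f t|) ^ 2 := sq_nonneg _
  have h8 : (H : ℝ) * (2 * ∑ h ∈ Icc 1 (H - 1), ∑ t ∈ Icc 1 (H - h), |f t| * |f (t + h)|)
      ≤ H * (∑ t ∈ Icc 1 H, |f t|) ^ 2 := mul_le_mul_of_nonneg_left h4 hH0
  have h9 : 0 ≤ (H : ℝ) * (∑ t ∈ Icc 1 H, |f t|) ^ 2 := mul_nonneg hH0 hS0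
  linarith

end Pool.Agent.E3
end
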