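import Pool.Agent.Lib.MP_bae66e_nt.Mg.G001
import Pool.Agent.Lib.MP_bae66e_nt.Cheb
import Pool.Agent.Lib.MP_bae66e_nt.Mg.G002
import Pool.Agent.Lib.MP_bae66e_nt.Mg.G012

section

/-!
# U3b: trivial bound for the primes in a window
-/

set_option autoImplicit false

namespace Pool.Agent.E3

open Finset MeasureTheory Real
open Pool.Agent.Lib.MP_bae66e_nt.AP3 (Rough prI KT rset)

private lemma U3b_geom {r : ℝ} (h0 : 0 ≤ r) (h1 : r < 1) (N : ℕ) :
    ∑ i ∈ range N, r ^ i ≤ 1 / (1 - r) := by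
  have h2 : 0 < 1 - r := by linarith
  rw [le_div_iff₀ h2, geom_sum_mul_neg]
  have : 0 ≤ r ^ N := pow_nonneg h0 N
  linarith

private lemma U3b_gauss (b : ℝ) (hb : 0 < b) (J : ℕ) (x : ℝ) (hx : 0 ≤ x) :
    ∑ j ∈ range J, Real.exp (-(b * (x - j) ^ 2)) ≤ 2 / (1 - Real.exp (-b)) := by
  set r := Real.exp (-b) with hr
  have hr0 : 0 ≤ r := (Real.exp_pos _).le
  have hr1 : r < 1 := by rw [hr, Real.exp_lt_one_iff]; linarith
  set n := ⌊x⌋₊ with hn
  have hnx : (n : ℝ) ≤ x := Nat.floor_le hx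
  have hxn : x < n + 1 := Nat.lt_floor_add_one x
  have key : ∀ (i : ℕ) (t : ℝ), (i : ℝ) ≤ |t| → Real.exp (-(b * t ^ 2)) ≤ r ^ i := by
    intro i t ht
    rw [hr, ← Real.exp_nat_mul]
    apply Real.exp_le_exp.mpr
    have h1 : (i : ℝ) ≤ t ^ 2 := by
      have h2 : (i : ℝ) ^ 2 ≤ t ^ 2 := by
        rw [← sq_abs t]
        exact pow_le_pow_left₀ (Nat.cast_nonneg i) ht 2
      have h3 : (i : ℝ) ≤ (i : ℝ) ^ 2 := by
        rcases Nat.eq_zero_or_pos i with h | h
        · rw [h]; simp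
        · have : (1 : ℝ) ≤ i := by exact_mod_cast h
          nlinarith
      linarith
    nlinarith
  rw [← Finset.sum_filter_add_sum_filter_not (range J) (fun j => j ≤ n)]
  have h1 : ∑ j ∈ (range J).filter (fun j => j ≤ n), Real.exp (-(b * (x - j) ^ 2))
      ≤ 1 / (1 - r) := by
    calc ∑ j ∈ (range J).filter (fun j => j ≤ n), Real.exp (-(b * (x - j) ^ 2))
        ≤ ∑ j ∈ (range J).filter (fun j => j ≤ n), r ^ (n - j) := by
          apply Finset.sum_le_sum
          intro j hj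
          rw [Finset.mem_filter] at hj
          apply key
          rw [Nat.cast_sub hj.2]
          exact le_trans (by linarith) (le_abs_self _)
      _ ≤ ∑ j ∈ range (n + 1), r ^ (n - j) := by
          apply Finset.sum_le_sum_of_subset_of_nonneg
          · intro j hj
            rw [Finset.mem_filter] at hj
            rw [Finset.mem_range]
            omega
          · intro i _ _
            exact pow_nonneg hr0 _
      _ = ∑ i ∈ range (n + 1), r ^ i := by
          rw [← Finset.sum_range_reflect]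
          apply Finset.sum_congr rfl
          intro i hi
          rw [Finset.mem_range] at hi
          congr 1
          omega
      _ ≤ 1 / (1 - r) := U3b_geom hr0 hr1 _
  have h2 : ∑ j ∈ (range J).filter (fun j => ¬ j ≤ n), Real.exp (-(b * (x - j) ^ 2))
      ≤ 1 / (1 - r) := by
    calc ∑ j ∈ (range J).filter (fun j => ¬ j ≤ n), Real.exp (-(b * (x - j) ^ 2))
        ≤ ∑ j ∈ (range J).filter (fun j => ¬ j ≤ n), r ^ (j - (n + 1)) := by
          apply Finset.sum_le_sum
          intro j hj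
          rw [Finset.mem_filter] at hj
          apply key
          rw [Nat.cast_sub (by omega), abs_sub_comm]
          push_cast
          have := le_abs_self ((j : ℝ) - x)
          linarith
      _ ≤ ∑ j ∈ Finset.Ico (n + 1) (n + 1 + J), r ^ (j - (n + 1)) := by
          apply Finset.sum_le_sum_of_subset_of_nonneg
          · intro j hj
            rw [Finset.mem_filter, Finset.mem_range] at hj
            rw [Finset.mem_Ico]
            omega
          · intro i _ _
            exact pow_nonneg hr0 _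
      _ = ∑ i ∈ range J, r ^ i := by
          rw [Finset.sum_Ico_eq_sum_range]
          rw [Nat.add_sub_cancel_left]
          apply Finset.sum_congr rfl
          intro i _
          congr 1
          omega
      _ ≤ 1 / (1 - r) := U3b_geom hr0 hr1 _
  have e : 2 / (1 - r) = 1 / (1 - r) + 1 / (1 - r) := by ring
  rw [e]
  linarith

/-- the primes in `[e^j, e^(j+1))` -/
private lemma U3b_block (Z j : ℕ) :
    ∑ p ∈ (prI 0 Z).filter (fun p : ℕ => ⌊Real.log (p : ℝ)⌋₊ = j), 1 / (p : ℝ) ≤ 60 / ((j : ℝ) + 1) := by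
  set N := ⌊Real.exp ((j : ℝ) + 1)⌋₊ with hN
  have hexp1 : (2.7 : ℝ) < Real.exp 1 := by
    have := Real.exp_one_gt_d9; linarith
  have hexp2 : Real.exp 1 < 2.72 := by
    have := Real.exp_one_lt_d9; linarith
  have hej : 1 ≤ Real.exp (j : ℝ) := Real.one_le_exp (Nat.cast_nonneg j)
  have hE : Real.exp ((j : ℝ) + 1) = Real.exp j * Real.exp 1 := Real.exp_add _ _
  have hE2 : 2.7 ≤ Real.exp ((j : ℝ) + 1) := by rw [hE]; nlinarith
  have hN2 : 2 ≤ N := by
    rw [hN]
    apply Nat.le_floor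
    push_cast
    linarith
  have hNle : (N : ℝ) ≤ Real.exp ((j : ℝ) + 1) := Nat.floor_le (Real.exp_pos _).le
  have hNge : Real.exp ((j : ℝ) + 1) < N + 1 := Nat.lt_floor_add_one _
  have hN2' : (2 : ℝ) ≤ N := by exact_mod_cast hN2
  have hsub : ((prI 0 Z).filter (fun p : ℕ => ⌊Real.log (p : ℝ)⌋₊ = j)) ⊆
      (Finset.range (N + 1)).filter Nat.Prime := by
    intro p hp
    rw [Finset.mem_filter] at hp
    have hpp : p.Prime := by
      have := hp.1
      simp only [prI, Finset.mem_filter, Finset.mem_Ioc] at this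
      exact this.2
    rw [Finset.mem_filter, Finset.mem_range]
    refine ⟨?_, hpp⟩
    have hp0 : (0 : ℝ) < p := by exact_mod_cast hpp.pos
    have h1 : Real.log p < (j : ℝ) + 1 := by
      have := Nat.lt_floor_add_one (Real.log p)
      rw [hp.2] at this
      exact this
    have h2 : (p : ℝ) ≤ Real.exp ((j : ℝ) + 1) := by
      rw [← Real.exp_log hp0]
      exact Real.exp_le_exp.mpr h1.le
    have h3 : p ≤ N := Nat.le_floor h2
    omega
  have hcard : (((prI 0 Z).filter (fun p : ℕ => ⌊Real.log (p : ℝ)⌋₊ = j)).card : ℝ)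
      ≤ 5 * N / Real.log N := by
    have h1 := Finset.card_le_card hsub
    have h2 : ((Finset.range (N + 1)).filter Nat.Prime).card = Nat.primeCounting N := by
      rw [Nat.primeCounting, Nat.primeCounting', Nat.count_eq_card_filter_range]
    rw [h2] at h1
    exact le_trans (by exact_mod_cast h1)
      (Pool.Agent.Lib.MP_bae66e_nt.pi_upper N hN2)
  have hlogN : ((j : ℝ) + 1) / 4 ≤ Real.log N := by
    -- `N ≥ e^(j+1) / 2`
    have h1 : Real.exp ((j : ℝ) + 1) / 2 ≤ N := by linarith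
    have h2 : Real.log (Real.exp ((j : ℝ) + 1) / 2) ≤ Real.log N :=
      Real.log_le_log (by positivity) h1
    rw [Real.log_div (Real.exp_pos _).ne' (by norm_num), Real.log_exp] at h2
    have h3 := Real.log_two_lt_d9
    have h4 : (0 : ℝ) ≤ j := Nat.cast_nonneg j
    linarith
  have hj0 : (0 : ℝ) < (j : ℝ) + 1 := by positivity
  have hterm : ∀ p ∈ (prI 0 Z).filter (fun p : ℕ => ⌊Real.log (p : ℝ)⌋₊ = j),
      1 / (p : ℝ) ≤ 1 / Real.exp j := by
    intro p hp
    rw [Finset.mem_filter] at hp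
    have hpp : p.Prime := by
      have := hp.1
      simp only [prI, Finset.mem_filter, Finset.mem_Ioc] at this
      exact this.2
    have hp0 : (0 : ℝ) < p := by exact_mod_cast hpp.pos
    have hp1 : (1 : ℝ) ≤ p := by exact_mod_cast hpp.one_lt.le
    have h1 : (j : ℝ) ≤ Real.log p := by
      rw [← hp.2]
      exact Nat.floor_le (Real.log_nonneg hp1)
    apply one_div_le_one_div_of_le (Real.exp_pos _)
    rw [← Real.exp_log hp0]
    exact Real.exp_le_exp.mpr h1
  calc ∑ p ∈ (prI 0 Z).filter (fun p : ℕ => ⌊Real.log (p : ℝ)⌋₊ = j), 1 / (p : ℝ)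
      ≤ ∑ _p ∈ (prI 0 Z).filter (fun p : ℕ => ⌊Real.log (p : ℝ)⌋₊ = j), 1 / Real.exp j :=
        Finset.sum_le_sum hterm
    _ = (((prI 0 Z).filter (fun p : ℕ => ⌊Real.log (p : ℝ)⌋₊ = j)).card : ℝ) * (1 / Real.exp j) := by
        rw [Finset.sum_const, nsmul_eq_mul]
    _ ≤ (5 * N / Real.log N) * (1 / Real.exp j) :=
        mul_le_mul_of_nonneg_right hcard (by positivity)
    _ ≤ (5 * (Real.exp j * 2.72) / (((j : ℝ) + 1) / 4)) * (1 / Real.exp j) := by
        apply mul_le_mul_of_nonneg_right _ (by positivity)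
        apply div_le_div₀ (by positivity) _ (by positivity) hlogN
        have : (N : ℝ) ≤ Real.exp j * 2.72 := by
          rw [hE] at hNle
          nlinarith [Real.exp_pos (j : ℝ)]
        linarith
    _ = 54.4 / ((j : ℝ) + 1) := by
        field_simp
        ring
    _ ≤ 60 / ((j : ℝ) + 1) := by
        apply div_le_div_of_nonneg_right _ hj0.le
        norm_num

/-- PROOF. The same with `#{p ≤ t} ≤ C t / log t` (Chebyshev) in place of the count of rough integers. For
`x ≥ 1`: the piece `e^j < p ≤ e^(j+1)` contributes `≤ C gs (β/2) x j / (j + 1)`; for `j ≥ x/2` it is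
`≤ (2C/x) gs`, for `j < x/2` the Gaussian is `≤ exp (- β x²/8)` and there are `≤ x` pieces. -/
theorem prime_window_le (β : ℝ) (hβ : 0 < β) : ∃ C : ℝ, 1 ≤ C ∧ ∀ (Z : ℕ) (x : ℝ), 1 ≤ x →
    ∑ p ∈ prI 0 Z, gs β x (Real.log p) / p ≤ C / x := by
  set G := 2 / (1 - Real.exp (-(β / 4))) with hG
  have hr1 : Real.exp (-(β / 4)) < 1 := by rw [Real.exp_lt_one_iff]; linarith
  have hG0 : 0 ≤ G := div_nonneg (by norm_num) (by linarith)
  set C := 60 * Real.exp β * (1 + 4 / β) * G + 1 with hC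
  refine ⟨C, ?_, ?_⟩
  · have : 0 ≤ 60 * Real.exp β * (1 + 4 / β) * G := by positivity
    linarith
  intro Z x hx
  have hx0 : 0 < x := by linarith
  have hmaps : ∀ p ∈ prI 0 Z, ⌊Real.log (p : ℝ)⌋₊ ∈ Finset.range (Z + 1) := by
    intro p hp
    simp only [prI, Finset.mem_filter, Finset.mem_Ioc] at hp
    rw [Finset.mem_range]
    have hp0 : (0 : ℝ) < p := by exact_mod_cast hp.2.pos
    have h1 : Real.log p ≤ p := by
      have := Real.log_le_sub_one_of_pos hp0
      linarith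
    have h2 : ⌊Real.log (p : ℝ)⌋₊ ≤ p := by
      have := Nat.floor_le_floor h1
      rwa [Nat.floor_natCast] at this
    omega
  rw [← Finset.sum_fiberwise_of_maps_to hmaps]
  have hblock : ∀ j ∈ Finset.range (Z + 1),
      ∑ p ∈ (prI 0 Z).filter (fun p : ℕ => ⌊Real.log (p : ℝ)⌋₊ = j), gs β x (Real.log p) / p
        ≤ (60 * Real.exp β * (1 + 4 / β) / x) * Real.exp (-(β / 4 * (x - j) ^ 2)) := by
    intro j _
    have hj0 : (0 : ℝ) < (j : ℝ) + 1 := by positivity
    have h1 : ∑ p ∈ (prI 0 Z).filter (fun p : ℕ => ⌊Real.log (p : ℝ)⌋₊ = j),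
        gs β x (Real.log p) / p ≤ ∑ p ∈ (prI 0 Z).filter (fun p : ℕ => ⌊Real.log (p : ℝ)⌋₊ = j),
        (Real.exp β * Real.exp (-(β / 2 * (x - j) ^ 2))) * (1 / (p : ℝ)) := by
      apply Finset.sum_le_sum
      intro p hp
      rw [Finset.mem_filter] at hp
      have hpp : p.Prime := by
        have := hp.1
        simp only [prI, Finset.mem_filter, Finset.mem_Ioc] at this
        exact this.2
      have hp0 : (0 : ℝ) < p := by exact_mod_cast hpp.pos
      have hp1 : (1 : ℝ) ≤ p := by exact_mod_cast hpp.one_lt.le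
      have ha : (j : ℝ) ≤ Real.log p := by
        rw [← hp.2]
        exact Nat.floor_le (Real.log_nonneg hp1)
      have hb : Real.log p < (j : ℝ) + 1 := by
        have := Nat.lt_floor_add_one (Real.log p)
        rw [hp.2] at this
        exact this
      rw [div_eq_mul_one_div]
      apply mul_le_mul_of_nonneg_right _ (by positivity)
      unfold gs
      rw [← Real.exp_add]
      apply Real.exp_le_exp.mpr
      set t := Real.log (p : ℝ) with ht
      have h2 : (x - j) ^ 2 ≤ 2 * (x - t) ^ 2 + 2 := by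
        nlinarith [sq_nonneg ((x - t) - (t - j)), sq_nonneg (t - j - 1)]
      nlinarith
    have h3 := U3b_block Z j
    have hxj : x ≤ ((j : ℝ) + 1) * (1 + |x - j|) := by
      have := le_abs_self (x - (j : ℝ))
      have h5 := abs_nonneg (x - (j : ℝ))
      have h6 : (0 : ℝ) ≤ j := Nat.cast_nonneg j
      nlinarith
    have hexp : (1 + |x - j|) * Real.exp (-(β / 2 * (x - j) ^ 2))
        ≤ (1 + 4 / β) * Real.exp (-(β / 4 * (x - j) ^ 2)) := by
      have e1 : Real.exp (-(β / 2 * (x - j) ^ 2))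
          = Real.exp (-(β / 4 * (x - j) ^ 2)) * Real.exp (-(β / 4 * (x - j) ^ 2)) := by
        rw [← Real.exp_add]; congr 1; ring
      rw [e1, ← mul_assoc]
      apply mul_le_mul_of_nonneg_right _ (Real.exp_pos _).le
      set s := |x - (j : ℝ)| with hs
      have hs0 : 0 ≤ s := abs_nonneg _
      have hs2 : (x - (j : ℝ)) ^ 2 = s ^ 2 := by rw [hs, sq_abs]
      rw [hs2]
      have h7 : 1 + β / 4 * s ^ 2 ≤ Real.exp (β / 4 * s ^ 2) := by
        have := Real.add_one_le_exp (β / 4 * s ^ 2); linarith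
      have h8 : 1 + s ≤ (1 + 4 / β) * (1 + β / 4 * s ^ 2) := by
        have h9 : (1 + 4 / β) * (1 + β / 4 * s ^ 2)
            = 1 + 4 / β + β / 4 * s ^ 2 + s ^ 2 := by field_simp; ring
        rw [h9]
        have h10 : 0 < 4 / β := by positivity
        rcases le_or_gt s 1 with h | h
        · -- `s ≤ 4/β + β/4 s^2` by AM-GM
          have h11 : s ≤ 4 / β + β / 4 * s ^ 2 := by
            have h12 : 4 / β + β / 4 * s ^ 2 - s = (4 / β) * (1 - β / 4 * s + (β / 4 * s) ^ 2) := by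
              field_simp
              ring
            have h13 : 0 ≤ (4 / β) * (1 - β / 4 * s + (β / 4 * s) ^ 2) := by
              apply mul_nonneg h10.le
              nlinarith [sq_nonneg (β / 4 * s - 1 / 2)]
            linarith
          nlinarith [sq_nonneg s]
        · have : 0 ≤ β / 4 * s ^ 2 := by positivity
          nlinarith
      have h14 : (1 + s) * Real.exp (-(β / 4 * s ^ 2)) ≤ 1 + 4 / β := by
        rw [Real.exp_neg, ← div_eq_mul_inv, div_le_iff₀ (Real.exp_pos _)]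
        calc 1 + s ≤ (1 + 4 / β) * (1 + β / 4 * s ^ 2) := h8
          _ ≤ _ := mul_le_mul_of_nonneg_left h7 (by positivity)
      exact h14
    calc ∑ p ∈ (prI 0 Z).filter (fun p : ℕ => ⌊Real.log (p : ℝ)⌋₊ = j), gs β x (Real.log p) / p
        ≤ (Real.exp β * Real.exp (-(β / 2 * (x - j) ^ 2))) *
          ∑ p ∈ (prI 0 Z).filter (fun p : ℕ => ⌊Real.log (p : ℝ)⌋₊ = j), 1 / (p : ℝ) := by
          rw [Finset.mul_sum]; exact h1
      _ ≤ (Real.exp β * Real.exp (-(β / 2 * (x - j) ^ 2))) * (60 / ((j : ℝ) + 1)) :=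
          mul_le_mul_of_nonneg_left h3 (by positivity)
      _ ≤ (Real.exp β * Real.exp (-(β / 2 * (x - j) ^ 2))) * (60 * (1 + |x - j|) / x) := by
          apply mul_le_mul_of_nonneg_left _ (by positivity)
          rw [div_le_div_iff₀ hj0 hx0]
          nlinarith
      _ = (60 * Real.exp β / x) * ((1 + |x - j|) * Real.exp (-(β / 2 * (x - j) ^ 2))) := by
          ring
      _ ≤ (60 * Real.exp β / x) * ((1 + 4 / β) * Real.exp (-(β / 4 * (x - j) ^ 2))) :=
          mul_le_mul_of_nonneg_left hexp (by positivity)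
      _ = _ := by ring
  calc ∑ j ∈ Finset.range (Z + 1), ∑ p ∈ (prI 0 Z).filter (fun p : ℕ => ⌊Real.log (p : ℝ)⌋₊ = j),
        gs β x (Real.log p) / p
      ≤ ∑ j ∈ Finset.range (Z + 1),
        (60 * Real.exp β * (1 + 4 / β) / x) * Real.exp (-(β / 4 * (x - j) ^ 2)) :=
        Finset.sum_le_sum hblock
    _ = (60 * Real.exp β * (1 + 4 / β) / x) *
        ∑ j ∈ Finset.range (Z + 1), Real.exp (-(β / 4 * (x - j) ^ 2)) := by
        rw [Finset.mul_sum]
    _ ≤ (60 * Real.exp β * (1 + 4 / β) / x) * G :=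
        mul_le_mul_of_nonneg_left (U3b_gauss (β / 4) (by positivity) (Z + 1) x hx0.le)
          (by positivity)
    _ = (60 * Real.exp β * (1 + 4 / β) * G) / x := by ring
    _ ≤ C / x := by
        apply div_le_div_of_nonneg_right _ hx0.le
        rw [hC]; linarith

end Pool.Agent.E3
end

section

/-!
# MVp: sums over primes
-/

set_option autoImplicit false

namespace Pool.Agent.E3

open Finset MeasureTheory Real
open Pool.Agent.Lib.MP_bae66e_nt.AP3 (Rough prI mem_prI)

/-- PROOF. With `v = log p`: `gs 1 x v / p² = exp (- (x - v)² - v) / p = exp (- x + 1/4) gs 1 (x - 1/2) v / p`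
(`(x - 1/2 - v)² = (x - v)² - (x - v) + 1/4`), so `prime_window_le` for `β = 1` at `x - 1/2 ≥ 1` gives
`≤ exp (1/4) exp (-x) C / (x - 1/2)`, and `x - 1/2 ≥ x/2`. -/
theorem prime_window_sq : ∃ C : ℝ, 1 ≤ C ∧ ∀ (Z : ℕ) (x : ℝ), 2 ≤ x →
    ∑ p ∈ prI 0 Z, gs 1 x (Real.log p) / (p : ℝ) ^ 2 ≤ C * Real.exp (-x) / x := by
  obtain ⟨C, hC, h⟩ := prime_window_le 1 one_pos
  refine ⟨4 * C, by linarith, ?_⟩
  intro Z x hx
  have h1 := h Z (x - 1 / 2) (by linarith)
  have hterm : ∀ p ∈ prI 0 Z, gs 1 x (Real.log p) / (p : ℝ) ^ 2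
      = Real.exp (-x) * (Real.exp (1 / 4) * (gs 1 (x - 1 / 2) (Real.log p) / p)) := by
    intro p hp
    have hp0 : (0 : ℝ) < p := by exact_mod_cast (mem_prI.mp hp).2.pos
    have hp1 : (p : ℝ) = Real.exp (Real.log p) := (Real.exp_log hp0).symm
    have e1 : gs 1 x (Real.log p) / (p : ℝ) ^ 2
        = (gs 1 x (Real.log p) * Real.exp (-Real.log p)) / p := by
      rw [Real.exp_neg, Real.exp_log hp0]
      field_simp
    have e2 : gs 1 x (Real.log p) * Real.exp (-Real.log p)
        = Real.exp (-x) * (Real.exp (1 / 4) * gs 1 (x - 1 / 2) (Real.log p)) := by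
      unfold gs
      rw [← Real.exp_add, ← Real.exp_add, ← Real.exp_add]
      congr 1
      ring
    rw [e1, e2]
    ring
  rw [Finset.sum_congr rfl hterm, ← Finset.mul_sum, ← Finset.mul_sum]
  have hexp : Real.exp (1 / 4) ≤ 2 := by
    have h2 : Real.exp (1 / 4) ≤ Real.exp (Real.log 2) := by
      apply Real.exp_le_exp.mpr
      have := Real.log_two_gt_d9
      linarith
    rwa [Real.exp_log (by norm_num)] at h2
  have h3 : C / (x - 1 / 2) ≤ 2 * C / x := by
    rw [div_le_div_iff₀ (by linarith) (by linarith)]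
    nlinarith
  have h4 : 0 ≤ ∑ p ∈ prI 0 Z, gs 1 (x - 1 / 2) (Real.log p) / p := by
    apply Finset.sum_nonneg
    intro p _
    unfold gs
    positivity
  have h5 : Real.exp (1 / 4) * ∑ p ∈ prI 0 Z, gs 1 (x - 1 / 2) (Real.log p) / p
      ≤ 2 * (2 * C / x) :=
    mul_le_mul hexp (h1.trans h3) h4 (by norm_num)
  calc Real.exp (-x) * (Real.exp (1 / 4) * ∑ p ∈ prI 0 Z, gs 1 (x - 1 / 2) (Real.log p) / p)
      ≤ Real.exp (-x) * (2 * (2 * C / x)) := mul_le_mul_of_nonneg_left h5 (Real.exp_pos _).le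
    _ = 4 * C * Real.exp (-x) / x := by ring

/-- PROOF. The primes in `(z, Z]` are `Rough z` and in `Icc 2 Z`: `rough_window_le` for `β = 1`. -/
theorem prime_window_low : ∃ C : ℝ, 1 ≤ C ∧ ∀ (z Z : ℕ) (x : ℝ), 2 ≤ z →
    ∑ p ∈ prI z Z, gs 1 x (Real.log p) / (p : ℝ) ≤ C / Real.log z := by
  classical
  obtain ⟨C, hC, h⟩ := rough_window_le 1 one_pos
  refine ⟨C, hC, ?_⟩
  intro z Z x hz
  refine le_trans ?_ (h z Z x hz)
  apply Finset.sum_le_sum_of_subset_of_nonneg
  · intro p hp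
    have hp' := mem_prI.mp hp
    rw [Finset.mem_filter, Finset.mem_Icc]
    refine ⟨⟨hp'.2.two_le, hp'.1.2⟩, ?_⟩
    intro q hq hqp
    rw [(Nat.prime_dvd_prime_iff_eq hq hp'.2).mp hqp]
    exact hp'.1.1
  · intro n _ _
    unfold gs
    positivity

/-- PROOF. `#(prI R (2R)) ≤ C R / log R` (`PP.card_prI_le` in `PP/B2a.lean`), each term `≤ 1/R`, `≤ 1/R²`. -/
theorem recip_IS : ∃ C : ℝ, 1 ≤ C ∧ ∀ R : ℕ, 2 ≤ R →
    ∑ r ∈ IS R, 1 / (r : ℝ) ≤ C / Real.log R ∧ ∑ r ∈ IS R, 1 / (r : ℝ) ^ 2 ≤ C / (R * Real.log R) := by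
  obtain ⟨C, hC, h⟩ := Pool.Agent.PP.card_prI_le
  refine ⟨C, hC, ?_⟩
  intro R hR
  have hcard := h R hR
  have hR0 : (0 : ℝ) < R := by exact_mod_cast (by omega : 0 < R)
  have hlog : 0 < Real.log R := Real.log_pos (by exact_mod_cast (by omega : 1 < R))
  have hr : ∀ r ∈ IS R, (R : ℝ) ≤ r := by
    intro r hr
    have := (mem_prI.mp hr).1.1
    exact_mod_cast this.le
  constructor
  · calc ∑ r ∈ IS R, 1 / (r : ℝ) ≤ ∑ r ∈ IS R, 1 / (R : ℝ) :=
          Finset.sum_le_sum fun r h' => one_div_le_one_div_of_le hR0 (hr r h')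
      _ = (#(prI R (2 * R)) : ℝ) * (1 / (R : ℝ)) := by
          rw [Finset.sum_const, nsmul_eq_mul]; rfl
      _ ≤ (C * R / Real.log R) * (1 / (R : ℝ)) :=
          mul_le_mul_of_nonneg_right hcard (by positivity)
      _ = C / Real.log R := by field_simp
  · calc ∑ r ∈ IS R, 1 / (r : ℝ) ^ 2 ≤ ∑ r ∈ IS R, 1 / (R : ℝ) ^ 2 :=
          Finset.sum_le_sum fun r h' => one_div_le_one_div_of_le (by positivity)
            (pow_le_pow_left₀ hR0.le (hr r h') 2)
      _ = (#(prI R (2 * R)) : ℝ) * (1 / (R : ℝ) ^ 2) := by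
          rw [Finset.sum_const, nsmul_eq_mul]; rfl
      _ ≤ (C * R / Real.log R) * (1 / (R : ℝ) ^ 2) :=
          mul_le_mul_of_nonneg_right hcard (by positivity)
      _ = C / (R * Real.log R) := by field_simp

/-- PROOF. `#(IS R) ≤ R` (a subset of `Ioc R (2R)`), each term `≤ 1/R`, `≤ 1/R²`. -/
theorem recip_IS_le_one (R : ℕ) (hR : 1 ≤ R) :
    ∑ r ∈ IS R, 1 / (r : ℝ) ≤ 1 ∧ ∑ r ∈ IS R, 1 / (r : ℝ) ^ 2 ≤ 1 / (R : ℝ) := by
  have hR0 : (0 : ℝ) < R := by exact_mod_cast hR
  have hcard : ((IS R).card : ℝ) ≤ R := by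
    have h1 : (IS R).card ≤ (Ioc R (2 * R)).card := by
      unfold IS prI
      exact Finset.card_filter_le _ _
    rw [Nat.card_Ioc] at h1
    exact_mod_cast (by omega : (IS R).card ≤ R)
  have hr : ∀ r ∈ IS R, (R : ℝ) ≤ r := by
    intro r hr
    have := (mem_prI.mp hr).1.1
    exact_mod_cast this.le
  constructor
  · calc ∑ r ∈ IS R, 1 / (r : ℝ) ≤ ∑ r ∈ IS R, 1 / (R : ℝ) :=
          Finset.sum_le_sum fun r h' => one_div_le_one_div_of_le hR0 (hr r h')
      _ = ((IS R).card : ℝ) * (1 / (R : ℝ)) := by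
          rw [Finset.sum_const, nsmul_eq_mul]
      _ ≤ (R : ℝ) * (1 / (R : ℝ)) :=
          mul_le_mul_of_nonneg_right hcard (by positivity)
      _ = 1 := by field_simp
  · calc ∑ r ∈ IS R, 1 / (r : ℝ) ^ 2 ≤ ∑ r ∈ IS R, 1 / (R : ℝ) ^ 2 :=
          Finset.sum_le_sum fun r h' => one_div_le_one_div_of_le (by positivity)
            (pow_le_pow_left₀ hR0.le (hr r h') 2)
      _ = ((IS R).card : ℝ) * (1 / (R : ℝ) ^ 2) := by
          rw [Finset.sum_const, nsmul_eq_mul]
      _ ≤ (R : ℝ) * (1 / (R : ℝ) ^ 2) :=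
          mul_le_mul_of_nonneg_right hcard (by positivity)
      _ = 1 / (R : ℝ) := by field_simp

/-- PROOF. For `|v - w| ≤ 1`: `(y - v)² ≥ (y - w)²/2 - (v - w)² ≥ (y - w)²/2 - 1`; here `v = log q`, `w = log U`,
`0 ≤ v - w ≤ log 2`. -/
theorem gs_block (U q : ℕ) (y : ℝ) (hU : 1 ≤ U) (h1 : U ≤ q) (h2 : q ≤ 2 * U) :
    gs 1 y (Real.log q) ≤ Real.exp 1 * gs (1 / 2) y (Real.log U) := by
  have hU : (0 : ℝ) < U := by exact_mod_cast hU
  have hUq : (U : ℝ) ≤ q := by exact_mod_cast h1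
  have hq : (q : ℝ) ≤ 2 * U := by exact_mod_cast h2
  have hv0 : Real.log U ≤ Real.log q := Real.log_le_log hU hUq
  have hv1 : Real.log q ≤ Real.log 2 + Real.log U := by
    rw [← Real.log_mul (by norm_num) hU.ne']
    exact Real.log_le_log (lt_of_lt_of_le hU hUq) hq
  have hl2 := Real.log_two_lt_d9
  unfold gs
  rw [← Real.exp_add]
  apply Real.exp_le_exp.mpr
  nlinarith [sq_nonneg (y - Real.log U - 2 * (Real.log q - Real.log U))]

/-- PROOF. `exp (- z²) ≤ 1 / z` for `z > 0` (`exp (z²) ≥ 1 + z² ≥ z`), `z = (log 2) / (2 Δ)`, `2 / log 2 ≤ 3`. -/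
theorem exp_far_le (Δ : ℝ) (hΔ : 0 < Δ) : Real.exp (-((Real.log 2) ^ 2 / (4 * Δ ^ 2))) ≤ 3 * Δ := by
  have hl2 := Real.log_two_gt_d9
  have hz : 0 < Real.log 2 / (2 * Δ) := by positivity
  have h1 : Real.log 2 / (2 * Δ) ≤ Real.exp ((Real.log 2) ^ 2 / (4 * Δ ^ 2)) := by
    have h2 := Real.add_one_le_exp ((Real.log 2) ^ 2 / (4 * Δ ^ 2))
    have h3 : (Real.log 2) ^ 2 / (4 * Δ ^ 2) = (Real.log 2 / (2 * Δ)) ^ 2 := by
      rw [div_pow, mul_pow]; norm_num
    rw [h3] at h2 ⊢
    nlinarith [sq_nonneg (Real.log 2 / (2 * Δ) - 1)]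
  rw [Real.exp_neg]
  calc (Real.exp ((Real.log 2) ^ 2 / (4 * Δ ^ 2)))⁻¹ ≤ (Real.log 2 / (2 * Δ))⁻¹ :=
        inv_anti₀ hz h1
    _ = 2 * Δ / Real.log 2 := by rw [inv_div]
    _ ≤ 3 * Δ := by
        rw [div_le_iff₀ (by linarith)]
        nlinarith

end Pool.Agent.E3
end

section

/-!
# Y1a: trivial bounds for windows
-/

set_option autoImplicit false

namespace Pool.Agent.E3

open Finset MeasureTheory Real
open Pool.Agent.Lib.MP_bae66e_nt.AP3 (prI)

private noncomputable def Y1a_Phi (γ x : ℝ) (J : ℕ) : ℝ :=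
  if (J : ℝ) - 1 ≤ x then Real.exp (-(γ * (x - (J - 1)))) else 2 - Real.exp (-(γ * (J - x)))

private theorem Y1a_sum (γ : ℝ) (hγ : 0 < γ) (x : ℝ) (J : ℕ) :
    (1 - Real.exp (-γ)) * ∑ j ∈ range J, Real.exp (-(γ * |x - j|)) ≤ Y1a_Phi γ x J := by
  have hle : ∀ t : ℝ, 0 ≤ t → Real.exp (-(γ * t)) ≤ 1 := fun t ht => by
    rw [Real.exp_le_one_iff]
    have := mul_nonneg hγ.le ht
    linarith
  induction J with
  | zero =>
    rw [Finset.sum_range_zero, mul_zero]
    unfold Y1a_Phi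
    split_ifs with h
    · exact (Real.exp_pos _).le
    · push Not at h
      have := hle (((0 : ℕ) : ℝ) - x) (by linarith)
      linarith
  | succ J ih =>
    rw [Finset.sum_range_succ, mul_add]
    have hmul : ∀ t : ℝ, Real.exp (-γ) * Real.exp (-(γ * t)) = Real.exp (-(γ * (t + 1))) := by
      intro t
      rw [← Real.exp_add]
      congr 1
      ring
    rcases le_or_gt (J : ℝ) x with h | h
    · have e1 : Y1a_Phi γ x (J + 1) = Real.exp (-(γ * (x - J))) := by
        unfold Y1a_Phi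
        have : ((J + 1 : ℕ) : ℝ) - 1 = J := by push_cast; ring
        rw [this, if_pos h]
      have e2 : Y1a_Phi γ x J = Real.exp (-(γ * (x - J + 1))) := by
        unfold Y1a_Phi
        rw [if_pos (by linarith)]
        congr 2
        ring
      rw [abs_of_nonneg (by linarith), e1]
      rw [e2] at ih
      have := hmul (x - J)
      linarith
    · have e1 : Y1a_Phi γ x (J + 1) = 2 - Real.exp (-(γ * (J - x + 1))) := by
        unfold Y1a_Phi
        have : ((J + 1 : ℕ) : ℝ) - 1 = J := by push_cast; ring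
        rw [this, if_neg (not_le.2 h)]
        push_cast
        congr 3
        ring
      have h3 : |x - J| = J - x := by rw [abs_of_neg (by linarith)]; ring
      rw [h3, e1]
      have h4 := hmul ((J : ℝ) - x)
      rcases le_or_gt ((J : ℝ) - 1) x with h5 | h5
      · have e2 : Y1a_Phi γ x J ≤ 1 := by
          unfold Y1a_Phi
          rw [if_pos h5]
          exact hle _ (by linarith)
        have h6 := hle ((J : ℝ) - x) (by linarith)
        linarith
      · have e2 : Y1a_Phi γ x J = 2 - Real.exp (-(γ * (J - x))) := by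
          unfold Y1a_Phi
          rw [if_neg (not_le.2 h5)]
        linarith

private theorem Y1a_gauss (γ : ℝ) (hγ : 0 < γ) : ∃ C : ℝ, 0 ≤ C ∧ ∀ (x : ℝ) (J : ℕ),
    ∑ j ∈ range J, gs γ x j ≤ C := by
  have hr : Real.exp (-γ) < 1 := by
    rw [Real.exp_lt_one_iff]
    linarith
  refine ⟨Real.exp γ * (2 / (1 - Real.exp (-γ))), by
    have : 0 < 1 - Real.exp (-γ) := by linarith
    positivity, ?_⟩
  intro x J
  have h1 := Y1a_sum γ hγ x J
  have h2 : Y1a_Phi γ x J ≤ 2 := by
    unfold Y1a_Phi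
    split_ifs with h
    · have : Real.exp (-(γ * (x - (J - 1)))) ≤ 1 := by
        rw [Real.exp_le_one_iff]
        have := mul_nonneg hγ.le (by linarith : 0 ≤ x - (J - 1))
        linarith
      linarith
    · have := Real.exp_pos (-(γ * (J - x)))
      linarith
  have h3 : ∑ j ∈ range J, Real.exp (-(γ * |x - j|)) ≤ 2 / (1 - Real.exp (-γ)) := by
    rw [le_div_iff₀ (by linarith)]
    linarith
  have h4 : ∀ j ∈ range J, gs γ x j ≤ Real.exp γ * Real.exp (-(γ * |x - j|)) := by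
    intro j _
    unfold gs
    rw [← Real.exp_add]
    apply Real.exp_le_exp.2
    have h5 : |x - j| ≤ (x - j) ^ 2 + 1 := by
      rw [← sq_abs (x - (j : ℝ))]
      nlinarith [sq_nonneg (|x - (j : ℝ)| - 1), abs_nonneg (x - (j : ℝ))]
    nlinarith
  calc ∑ j ∈ range J, gs γ x j ≤ ∑ j ∈ range J, Real.exp γ * Real.exp (-(γ * |x - j|)) :=
        Finset.sum_le_sum h4
    _ = Real.exp γ * ∑ j ∈ range J, Real.exp (-(γ * |x - j|)) := (Finset.mul_sum _ _ _).symm
    _ ≤ _ := mul_le_mul_of_nonneg_left h3 (Real.exp_pos _).le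

private theorem Y1a_exp (β : ℝ) (hβ : 0 < β) (x y : ℝ) :
    (1 + (x - y) ^ 2) * gs β x y ≤ (1 + 2 / β) * gs (β / 2) x y := by
  unfold gs
  have e1 : Real.exp (-(β * (x - y) ^ 2)) =
      Real.exp (-(β / 2 * (x - y) ^ 2)) * Real.exp (-(β / 2 * (x - y) ^ 2)) := by
    rw [← Real.exp_add]
    congr 1
    ring
  rw [e1, ← mul_assoc]
  apply mul_le_mul_of_nonneg_right _ (Real.exp_pos _).le
  have h7 : 1 + β / 2 * (x - y) ^ 2 ≤ Real.exp (β / 2 * (x - y) ^ 2) := by
    have := Real.add_one_le_exp (β / 2 * (x - y) ^ 2)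
    linarith
  have h8 : 1 + (x - y) ^ 2 ≤ (1 + 2 / β) * (1 + β / 2 * (x - y) ^ 2) := by
    have h9 : (1 + 2 / β) * (1 + β / 2 * (x - y) ^ 2)
        = 1 + 2 / β + β / 2 * (x - y) ^ 2 + (x - y) ^ 2 := by
      field_simp
      ring
    rw [h9]
    have h10 : 0 < 2 / β := by positivity
    have h11 : 0 ≤ β / 2 * (x - y) ^ 2 := by positivity
    linarith
  rw [Real.exp_neg, ← div_eq_mul_inv, div_le_iff₀ (Real.exp_pos _)]
  calc 1 + (x - y) ^ 2 ≤ (1 + 2 / β) * (1 + β / 2 * (x - y) ^ 2) := h8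
    _ ≤ _ := mul_le_mul_of_nonneg_left h7 (by positivity)

private theorem Y1a_gs0 (β x y : ℝ) : 0 ≤ gs β x y := by
  unfold gs
  exact (Real.exp_pos _).le

/-- PROOF. `rough_window_le` (`RS z N` is its index set by definition). -/
theorem tb_rough (β : ℝ) (hβ : 0 < β) : ∃ C : ℝ, 1 ≤ C ∧ ∀ (z N : ℕ) (x : ℝ), 2 ≤ z →
    ∑ n ∈ RS z N, gs β x (Real.log n) / n ≤ C / Real.log z := by
  obtain ⟨C, hC, h⟩ := rough_window_le β hβ
  refine ⟨C, hC, ?_⟩
  intro z N x hz
  exact h z N x hz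

/-- PROOF. `(1 + y²) exp (- β y²) ≤ C exp (- (β/2) y²)` and `tb_rough (β/2)`. -/
theorem tb_rough2 (β : ℝ) (hβ : 0 < β) : ∃ C : ℝ, 1 ≤ C ∧ ∀ (z N : ℕ) (x : ℝ), 2 ≤ z →
    ∑ n ∈ RS z N, (1 + (x - Real.log n) ^ 2) * gs β x (Real.log n) / n ≤ C / Real.log z := by
  obtain ⟨C, hC, h⟩ := tb_rough (β / 2) (by linarith)
  have h2 : 0 < 2 / β := by positivity
  refine ⟨(1 + 2 / β) * C, by nlinarith, ?_⟩
  intro z N x hz
  have h3 : ∀ n ∈ RS z N, (1 + (x - Real.log n) ^ 2) * gs β x (Real.log n) / n ≤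
      (1 + 2 / β) * (gs (β / 2) x (Real.log n) / n) := by
    intro n _
    rw [← mul_div_assoc]
    exact div_le_div_of_nonneg_right (Y1a_exp β hβ x _) (Nat.cast_nonneg n)
  calc _ ≤ ∑ n ∈ RS z N, (1 + 2 / β) * (gs (β / 2) x (Real.log n) / n) := Finset.sum_le_sum h3
    _ = (1 + 2 / β) * ∑ n ∈ RS z N, gs (β / 2) x (Real.log n) / n := (Finset.mul_sum _ _ _).symm
    _ ≤ (1 + 2 / β) * (C / Real.log z) := mul_le_mul_of_nonneg_left (h z N x hz) (by positivity)
    _ = _ := by ring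

/-- PROOF. The function `y ↦ gs β x y` is unimodal with integral `√(π/β)` and maximum `1`. Compare the sum over the
`n` with `e^j ≤ n < e^(j+1)`: `∑ 1/n ≤ 2`, `gs β x (log n) ≤ exp β gs (β/2) x j` (as in `rough_window_le`), and
`∑_{j ≥ 0} gs (β/2) x j ≤ 2 + √(2π/β)`. -/
theorem tb_one (β : ℝ) (hβ : 0 < β) : ∃ C : ℝ, 1 ≤ C ∧ ∀ (N : ℕ) (x : ℝ),
    ∑ n ∈ Icc 1 N, gs β x (Real.log n) / n ≤ C := by
  obtain ⟨C₂, hC₂, hgauss⟩ := Y1a_gauss (β / 2) (by linarith)
  refine ⟨max 1 (Real.exp 1 * Real.exp β * C₂), le_max_left _ _, ?_⟩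
  intro N x
  have hmaps : ∀ n ∈ Icc 1 N, ⌊Real.log (n : ℝ)⌋₊ ∈ range (N + 1) := by
    intro n hn
    rw [Finset.mem_Icc] at hn
    rw [Finset.mem_range]
    have h1 : Real.log (n : ℝ) ≤ n := by
      have := Real.log_le_sub_one_of_pos (x := (n : ℝ)) (by
        have : 0 < n := by omega
        exact_mod_cast this)
      linarith
    have h2 : ⌊Real.log (n : ℝ)⌋₊ ≤ n := by
      have := Nat.floor_le_floor h1
      rwa [Nat.floor_natCast] at this
    omega
  rw [← Finset.sum_fiberwise_of_maps_to hmaps]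
  have hpiece : ∀ j ∈ range (N + 1),
      ∑ n ∈ (Icc 1 N).filter (fun n : ℕ => ⌊Real.log (n : ℝ)⌋₊ = j), gs β x (Real.log n) / n ≤
        Real.exp 1 * Real.exp β * gs (β / 2) x j := by
    intro j _
    set Sj := (Icc 1 N).filter (fun n : ℕ => ⌊Real.log (n : ℝ)⌋₊ = j) with hSj
    have hmem : ∀ n ∈ Sj, 1 ≤ n ∧ (j : ℝ) ≤ Real.log n ∧ Real.log n < j + 1 := by
      intro n hn
      rw [hSj, Finset.mem_filter, Finset.mem_Icc] at hn
      have h0 : 0 ≤ Real.log (n : ℝ) := Real.log_natCast_nonneg n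
      refine ⟨hn.1.1, ?_, ?_⟩
      · rw [← hn.2]
        exact Nat.floor_le h0
      · rw [← hn.2]
        exact Nat.lt_floor_add_one _
    have hterm : ∀ n ∈ Sj, gs β x (Real.log n) / n ≤ Real.exp β * gs (β / 2) x j * Real.exp (-j) := by
      intro n hn
      obtain ⟨h2, h3, h4⟩ := hmem n hn
      have hn0 : (0 : ℝ) < n := by
        have : 0 < n := by omega
        exact_mod_cast this
      have h5 : (1 : ℝ) / n ≤ Real.exp (-j) := by
        rw [Real.exp_neg, ← one_div]
        apply one_div_le_one_div_of_le (Real.exp_pos _)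
        rw [← Real.exp_log hn0]
        exact Real.exp_le_exp.2 h3
      have h6 : gs β x (Real.log n) ≤ Real.exp β * gs (β / 2) x j := by
        unfold gs
        rw [← Real.exp_add]
        apply Real.exp_le_exp.2
        have h7 : (x - j) ^ 2 ≤ 2 * (x - Real.log n) ^ 2 + 2 := by
          have h8 : (Real.log n - j) ^ 2 ≤ 1 := by nlinarith
          nlinarith [sq_nonneg ((x - Real.log n) - (Real.log n - j))]
        nlinarith
      calc gs β x (Real.log n) / n = gs β x (Real.log n) * (1 / n) := by ring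
        _ ≤ (Real.exp β * gs (β / 2) x j) * Real.exp (-j) := by
          apply mul_le_mul h6 h5 (by positivity)
          unfold gs
          positivity
    have hcard : (#Sj : ℝ) ≤ Real.exp (j + 1) := by
      have hsub : Sj ⊆ Icc 1 ⌊Real.exp ((j : ℝ) + 1)⌋₊ := by
        intro n hn
        obtain ⟨h2, -, h4⟩ := hmem n hn
        have hn0 : (0 : ℝ) < n := by
          have : 0 < n := by omega
          exact_mod_cast this
        rw [Finset.mem_Icc]
        refine ⟨h2, ?_⟩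
        apply Nat.le_floor
        rw [← Real.exp_log hn0]
        exact Real.exp_le_exp.2 h4.le
      have h1 : #Sj ≤ ⌊Real.exp ((j : ℝ) + 1)⌋₊ := by
        have := Finset.card_le_card hsub
        rwa [Nat.card_Icc, Nat.add_sub_cancel] at this
      have h3 : (⌊Real.exp ((j : ℝ) + 1)⌋₊ : ℝ) ≤ Real.exp (j + 1) :=
        Nat.floor_le (Real.exp_pos _).le
      have h4 : (#Sj : ℝ) ≤ (⌊Real.exp ((j : ℝ) + 1)⌋₊ : ℝ) := by exact_mod_cast h1
      exact h4.trans h3
    have hgs : 0 ≤ gs (β / 2) x j := Y1a_gs0 _ _ _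
    calc ∑ n ∈ Sj, gs β x (Real.log n) / n
        ≤ #Sj • (Real.exp β * gs (β / 2) x j * Real.exp (-j)) :=
          Finset.sum_le_card_nsmul _ _ _ hterm
      _ = #Sj * (Real.exp β * gs (β / 2) x j * Real.exp (-j)) := by rw [nsmul_eq_mul]
      _ ≤ (Real.exp (j + 1)) * (Real.exp β * gs (β / 2) x j * Real.exp (-j)) := by
        apply mul_le_mul_of_nonneg_right hcard
        positivity
      _ = (Real.exp (j + 1) * Real.exp (-j)) * Real.exp β * gs (β / 2) x j := by ring
      _ = Real.exp 1 * Real.exp β * gs (β / 2) x j := by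
        rw [← Real.exp_add]
        congr 3
        ring
  calc _ ≤ ∑ j ∈ range (N + 1), Real.exp 1 * Real.exp β * gs (β / 2) x j :=
        Finset.sum_le_sum hpiece
    _ = Real.exp 1 * Real.exp β * ∑ j ∈ range (N + 1), gs (β / 2) x j :=
        (Finset.mul_sum _ _ _).symm
    _ ≤ Real.exp 1 * Real.exp β * C₂ := by
        apply mul_le_mul_of_nonneg_left (hgauss x (N + 1))
        positivity
    _ ≤ _ := le_max_right _ _

/-- PROOF. For `x ≥ 1`: `log p gs β x (log p) ≤ x gs β x (log p) + |log p - x| gs β x (log p)`; the first part by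
`prime_window_le` (`∑ ≤ x · C / x`), the second by `|y| exp (- β y²) ≤ C exp (- (β/2) y²)` and `tb_one (β/2)`. For `x ≤ 1`:
`log p ≤ 1 + |log p - x|` when `x ≤ 1` and ... (`log p = x + (log p - x) ≤ 1 + |log p - x|`), the same. Primes are a subset of
`Icc 1 N`, all terms are nonnegative. -/
theorem tb_prime (β : ℝ) (hβ : 0 < β) : ∃ C : ℝ, 1 ≤ C ∧ ∀ (N : ℕ) (x : ℝ),
    ∑ n ∈ Icc 1 N, lp n * gs β x (Real.log n) / n ≤ C := by
  obtain ⟨C, hC, h⟩ := tb_one (β / 2) (by linarith)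
  obtain ⟨D, hD, hp⟩ := prime_window_le β hβ
  have h2 : 0 < 2 / β := by positivity
  have hone : ∀ (N : ℕ) (x : ℝ),
      ∑ n ∈ Icc 1 N, (1 + (x - Real.log n) ^ 2) * gs β x (Real.log n) / n ≤ (1 + 2 / β) * C := by
    intro N x
    have h3 : ∀ n ∈ Icc 1 N, (1 + (x - Real.log n) ^ 2) * gs β x (Real.log n) / n ≤
        (1 + 2 / β) * (gs (β / 2) x (Real.log n) / n) := by
      intro n _
      rw [← mul_div_assoc]
      exact div_le_div_of_nonneg_right (Y1a_exp β hβ x _) (Nat.cast_nonneg n)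
    calc _ ≤ ∑ n ∈ Icc 1 N, (1 + 2 / β) * (gs (β / 2) x (Real.log n) / n) := Finset.sum_le_sum h3
      _ = (1 + 2 / β) * ∑ n ∈ Icc 1 N, gs (β / 2) x (Real.log n) / n := (Finset.mul_sum _ _ _).symm
      _ ≤ (1 + 2 / β) * C := mul_le_mul_of_nonneg_left (h N x) (by positivity)
  have hE : 0 ≤ (1 + 2 / β) * C := by positivity
  refine ⟨D + 2 * ((1 + 2 / β) * C), by linarith, ?_⟩
  intro N x
  rcases le_or_gt 1 x with hx | hx
  · have hx0 : 0 < x := by linarith
    have hterm : ∀ n ∈ Icc 1 N, lp n * gs β x (Real.log n) / n ≤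
        (if n.Prime then x * (gs β x (Real.log n) / n) else 0) +
          (1 + (x - Real.log n) ^ 2) * gs β x (Real.log n) / n := by
      intro n _
      have hg := Y1a_gs0 β x (Real.log n)
      have hn : (0 : ℝ) ≤ n := Nat.cast_nonneg n
      unfold lp
      split_ifs with hpr
      · rw [← mul_div_assoc, ← add_div]
        apply div_le_div_of_nonneg_right _ hn
        rw [← add_mul]
        apply mul_le_mul_of_nonneg_right _ hg
        nlinarith [sq_nonneg ((x - Real.log n) + 1 / 2), sq_nonneg ((x - Real.log n) - 1 / 2)]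
      · rw [zero_mul, zero_div, zero_add]
        positivity
    have hprI : ∑ n ∈ Icc 1 N, (if n.Prime then x * (gs β x (Real.log n) / n) else 0) =
        x * ∑ p ∈ prI 0 N, gs β x (Real.log p) / p := by
      rw [← Finset.sum_filter, Finset.mul_sum]
      apply Finset.sum_congr _ (fun _ _ => rfl)
      ext n
      simp only [prI, Finset.mem_filter, Finset.mem_Icc, Finset.mem_Ioc]
      constructor
      · rintro ⟨⟨h1, h2⟩, h3⟩
        exact ⟨⟨by omega, h2⟩, h3⟩
      · rintro ⟨⟨h1, h2⟩, h3⟩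
        exact ⟨⟨by omega, h2⟩, h3⟩
    calc _ ≤ ∑ n ∈ Icc 1 N, ((if n.Prime then x * (gs β x (Real.log n) / n) else 0) +
          (1 + (x - Real.log n) ^ 2) * gs β x (Real.log n) / n) := Finset.sum_le_sum hterm
      _ = x * (∑ p ∈ prI 0 N, gs β x (Real.log p) / p) +
          ∑ n ∈ Icc 1 N, (1 + (x - Real.log n) ^ 2) * gs β x (Real.log n) / n := by
          rw [Finset.sum_add_distrib, hprI]
      _ ≤ x * (D / x) + (1 + 2 / β) * C :=
          add_le_add (mul_le_mul_of_nonneg_left (hp N x hx) hx0.le) (hone N x)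
      _ = D + (1 + 2 / β) * C := by
          field_simp
      _ ≤ _ := by linarith
  · have hterm : ∀ n ∈ Icc 1 N, lp n * gs β x (Real.log n) / n ≤
          2 * ((1 + (x - Real.log n) ^ 2) * gs β x (Real.log n) / n) := by
      intro n _
      have hg := Y1a_gs0 β x (Real.log n)
      have hn : (0 : ℝ) ≤ n := Nat.cast_nonneg n
      unfold lp
      split_ifs with hpr
      · rw [← mul_div_assoc]
        apply div_le_div_of_nonneg_right _ hn
        rw [← mul_assoc]
        apply mul_le_mul_of_nonneg_right _ hg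
        nlinarith [sq_nonneg ((x - Real.log n) + 1 / 2), sq_nonneg ((x - Real.log n) - 1 / 2)]
      · rw [zero_mul, zero_div]
        positivity
    calc _ ≤ ∑ n ∈ Icc 1 N, 2 * ((1 + (x - Real.log n) ^ 2) * gs β x (Real.log n) / n) :=
          Finset.sum_le_sum hterm
      _ = 2 * ∑ n ∈ Icc 1 N, (1 + (x - Real.log n) ^ 2) * gs β x (Real.log n) / n :=
          (Finset.mul_sum _ _ _).symm
      _ ≤ 2 * ((1 + 2 / β) * C) := by
          have := hone N x
          linarith
      _ ≤ _ := by linarith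

end Pool.Agent.E3
end
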