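import Pool.Agent.Lib.MP_bae66e_nt.Mg.G001

section

/-!
# SL2: the factor `n / φ(n)` and the sieve product of dimension two
-/

set_option autoImplicit false

namespace Pool.Agent.E3

open Finset
open Pool.Agent.Lib.MP_bae66e_nt (rho)
open Pool.Agent.Lib.MP_bae66e_nt.AP3 (Rough prI KT FLP cset xb flEta)

/-- PROOF. `φ(n) / n = ∏_{p ∣ n} (1 - 1/p)` (`Nat.totient_eq_mul_prod_factors`, or `AP3.rho_eq` in
`AP3/PairSum.lean`). -/
theorem Fr_eq (n : ℕ) (hn : n ≠ 0) : Fr n = 1 / rho n := by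
  rw [Pool.Agent.Lib.MP_bae66e_nt.AP3.rho_eq n (Nat.pos_of_ne_zero hn), one_div_div]
  rfl

/-- PROOF. `rho n ≤ 1` (`rho_le_one`) and `rho_pos`. -/
theorem Fr_one_le (n : ℕ) (hn : n ≠ 0) : 1 ≤ Fr n := by
  rw [Fr_eq n hn, le_div_iff₀ (Pool.Agent.Lib.MP_bae66e_nt.rho_pos n), one_mul]
  exact Pool.Agent.Lib.MP_bae66e_nt.rho_le_one n

/-- PROOF. `rho_mul_ge`. -/
theorem Fr_mul_le (m n : ℕ) (hm : m ≠ 0) (hn : n ≠ 0) : Fr (m * n) ≤ Fr m * Fr n := by
  have h1 := Pool.Agent.Lib.MP_bae66e_nt.rho_pos m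
  have h2 := Pool.Agent.Lib.MP_bae66e_nt.rho_pos n
  rw [Fr_eq (m * n) (mul_ne_zero hm hn), Fr_eq m hm, Fr_eq n hn, one_div_mul_one_div]
  exact one_div_le_one_div_of_le (mul_pos h1 h2) (Pool.Agent.Lib.MP_bae66e_nt.rho_mul_ge m n hm hn)

/-- PROOF. `p / (p - 1) ≤ 2`. -/
theorem Fr_prime_le (p : ℕ) (hp : p.Prime) : Fr p ≤ 2 := by
  have h2 : (2 : ℝ) ≤ p := by exact_mod_cast hp.two_le
  unfold Fr
  rw [Nat.totient_prime hp, Nat.cast_sub hp.one_lt.le, Nat.cast_one, div_le_iff₀ (by linarith)]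
  linarith

private theorem SL2_prod_subset (f : ℕ → ℝ) (A B : Finset ℕ) (hAB : A ⊆ B)
    (h0 : ∀ ℓ ∈ B, 0 ≤ f ℓ) (h1 : ∀ ℓ ∈ B, f ℓ ≤ 1) : ∏ ℓ ∈ B, f ℓ ≤ ∏ ℓ ∈ A, f ℓ := by
  rw [← Finset.prod_sdiff hAB]
  have h2 : ∏ ℓ ∈ B \ A, f ℓ ≤ 1 :=
    Finset.prod_le_one (fun ℓ hℓ => h0 ℓ (Finset.mem_sdiff.mp hℓ).1)
      (fun ℓ hℓ => h1 ℓ (Finset.mem_sdiff.mp hℓ).1)
  have h3 : 0 ≤ ∏ ℓ ∈ A, f ℓ := Finset.prod_nonneg (fun ℓ hℓ => h0 ℓ (hAB hℓ))
  nlinarith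

private theorem SL2_f_nonneg (ℓ : ℕ) (h : ℓ.Prime) : (0 : ℝ) ≤ 1 - 1 / (ℓ : ℝ) := by
  have h2 : (2 : ℝ) ≤ ℓ := by exact_mod_cast h.two_le
  have : 1 / (ℓ : ℝ) ≤ 1 := by
    rw [div_le_one (by linarith)]
    linarith
  linarith

private theorem SL2_f_le (ℓ : ℕ) : (1 : ℝ) - 1 / (ℓ : ℝ) ≤ 1 := by
  have : 0 ≤ 1 / (ℓ : ℝ) := by positivity
  linarith

private theorem SL2_rest (D T : ℕ) :
    rho D / 3 ≤ ∏ ℓ ∈ (prI 0 T).filter (fun ℓ => ¬ (5 ≤ ℓ ∧ ¬ ℓ ∣ D)), (1 - 1 / (ℓ : ℝ))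
      ∨ D = 0 := by
  by_cases hD : D = 0
  · right; exact hD
  left
  have hsub : (prI 0 T).filter (fun ℓ => ¬ (5 ≤ ℓ ∧ ¬ ℓ ∣ D)) ⊆ ({2, 3} : Finset ℕ) ∪ D.primeFactors := by
    intro ℓ hℓ
    rw [Finset.mem_filter, Pool.Agent.Lib.MP_bae66e_nt.AP3.mem_prI] at hℓ
    obtain ⟨⟨_, hp⟩, h⟩ := hℓ
    rw [Finset.mem_union]
    by_cases hd : ℓ ∣ D
    · right
      exact Nat.mem_primeFactors.mpr ⟨hp, hd, hD⟩
    · left
      have h5 : ¬ 5 ≤ ℓ := fun h5 => h ⟨h5, hd⟩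
      have h2 := hp.two_le
      have h4 : ℓ ≠ 4 := by
        rintro rfl
        exact absurd hp (by norm_num)
      rw [Finset.mem_insert, Finset.mem_singleton]
      omega
  have hpr : ∀ ℓ ∈ ({2, 3} : Finset ℕ) ∪ D.primeFactors, ℓ.Prime := by
    intro ℓ hℓ
    rw [Finset.mem_union, Finset.mem_insert, Finset.mem_singleton] at hℓ
    rcases hℓ with (rfl | rfl) | h
    · exact Nat.prime_two
    · exact Nat.prime_three
    · exact Nat.prime_of_mem_primeFactors h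
  refine le_trans ?_ (SL2_prod_subset (fun ℓ : ℕ => 1 - 1 / (ℓ : ℝ)) _ _ hsub
    (fun ℓ hℓ => SL2_f_nonneg ℓ (hpr ℓ hℓ)) (fun ℓ _ => SL2_f_le ℓ))
  have hui := Finset.prod_union_inter (s₁ := ({2, 3} : Finset ℕ)) (s₂ := D.primeFactors)
    (f := fun ℓ : ℕ => 1 - 1 / (ℓ : ℝ))
  have hI : ∏ ℓ ∈ ({2, 3} : Finset ℕ) ∩ D.primeFactors, (1 - 1 / (ℓ : ℝ)) ≤ 1 := by
    apply Finset.prod_le_one
    · intro ℓ hℓ
      exact SL2_f_nonneg ℓ (Nat.prime_of_mem_primeFactors (Finset.mem_inter.mp hℓ).2)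
    · intro ℓ _
      exact SL2_f_le ℓ
  have hU : 0 ≤ ∏ ℓ ∈ ({2, 3} : Finset ℕ) ∪ D.primeFactors, (1 - 1 / (ℓ : ℝ)) :=
    Finset.prod_nonneg (fun ℓ hℓ => SL2_f_nonneg ℓ (hpr ℓ hℓ))
  have h23 : ∏ ℓ ∈ ({2, 3} : Finset ℕ), (1 - 1 / (ℓ : ℝ)) = 1 / 3 := by
    rw [Finset.prod_insert (by norm_num), Finset.prod_singleton]
    norm_num
  have hrho : ∏ ℓ ∈ D.primeFactors, (1 - 1 / (ℓ : ℝ)) = rho D := rfl
  rw [h23, hrho] at hui
  nlinarith

/-- PROOF. For `ℓ ∈ RS2 D T`: `0 ≤ 1 - 2/ℓ ≤ (1 - 1/ℓ)²`. `KT T = ∏_{prI 0 T} (1 - 1/ℓ)` is the product over `RS2 D T`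
times the product over the `ℓ ∈ prI 0 T` with `ℓ < 5` or `ℓ ∣ D`; these `ℓ` are in `{2, 3} ∪ D.primeFactors` and all the
factors are in `(0, 1]`, so the second product is `≥ (1/2) (2/3) rho D = rho D / 3`. So
`∏_{RS2} (1 - 1/ℓ) ≤ 3 KT T / rho D`, and `KT T ≤ 1 / log (T + 1)` (`AP3.KT_le`), `Fr_eq`. -/
theorem prod_RS2_le (D T : ℕ) (hD : D ≠ 0) (hT : 1 ≤ T) :
    ∏ ℓ ∈ RS2 D T, (1 - 2 / (ℓ : ℝ)) ≤ 9 * (Fr D) ^ 2 / (Real.log (T + 1)) ^ 2 := by
  have hmem : ∀ ℓ ∈ RS2 D T, ℓ.Prime ∧ 5 ≤ ℓ := by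
    intro ℓ hℓ
    unfold RS2 at hℓ
    rw [Finset.mem_filter, Pool.Agent.Lib.MP_bae66e_nt.AP3.mem_prI] at hℓ
    exact ⟨hℓ.1.2, hℓ.2.1⟩
  have h1 : ∏ ℓ ∈ RS2 D T, (1 - 2 / (ℓ : ℝ)) ≤ ∏ ℓ ∈ RS2 D T, (1 - 1 / (ℓ : ℝ)) ^ 2 := by
    apply Finset.prod_le_prod
    · intro ℓ hℓ
      have h5 : (5 : ℝ) ≤ ℓ := by exact_mod_cast (hmem ℓ hℓ).2
      have : 2 / (ℓ : ℝ) ≤ 1 := by
        rw [div_le_one (by linarith)]
        linarith
      linarith
    · intro ℓ hℓ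
      have : 0 ≤ (1 / (ℓ : ℝ)) ^ 2 := sq_nonneg _
      have h2 : 2 / (ℓ : ℝ) = 2 * (1 / (ℓ : ℝ)) := by ring
      rw [h2]
      nlinarith
  rw [Finset.prod_pow] at h1
  have hP0 : 0 ≤ ∏ ℓ ∈ RS2 D T, (1 - 1 / (ℓ : ℝ)) :=
    Finset.prod_nonneg (fun ℓ hℓ => SL2_f_nonneg ℓ (hmem ℓ hℓ).1)
  have hsplit : (∏ ℓ ∈ RS2 D T, (1 - 1 / (ℓ : ℝ))) *
      ∏ ℓ ∈ (prI 0 T).filter (fun ℓ => ¬ (5 ≤ ℓ ∧ ¬ ℓ ∣ D)), (1 - 1 / (ℓ : ℝ)) = KT T := by
    unfold RS2 KT
    exact Finset.prod_filter_mul_prod_filter_not _ _ _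
  have hrest := (SL2_rest D T).resolve_right hD
  have hrho := Pool.Agent.Lib.MP_bae66e_nt.rho_pos D
  have hKT := Pool.Agent.Lib.MP_bae66e_nt.AP3.KT_le T hT
  have hT' : (1 : ℝ) ≤ T := by exact_mod_cast hT
  have hlog : 0 < Real.log (T + 1) := Real.log_pos (by linarith)
  have h2 : (∏ ℓ ∈ RS2 D T, (1 - 1 / (ℓ : ℝ))) * (rho D / 3) ≤ 1 / Real.log (T + 1) := by
    have := mul_le_mul_of_nonneg_left hrest hP0
    linarith
  have h3 : ∏ ℓ ∈ RS2 D T, (1 - 1 / (ℓ : ℝ)) ≤ 3 * Fr D / Real.log (T + 1) := by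
    rw [Fr_eq D hD]
    have h4 : 3 * (1 / rho D) / Real.log (T + 1) = (1 / Real.log (T + 1)) / (rho D / 3) := by
      field_simp
    rw [h4, le_div_iff₀ (by positivity)]
    exact h2
  calc ∏ ℓ ∈ RS2 D T, (1 - 2 / (ℓ : ℝ)) ≤ (∏ ℓ ∈ RS2 D T, (1 - 1 / (ℓ : ℝ))) ^ 2 := h1
    _ ≤ (3 * Fr D / Real.log (T + 1)) ^ 2 := pow_le_pow_left₀ hP0 h3 2
    _ = 9 * (Fr D) ^ 2 / (Real.log (T + 1)) ^ 2 := by ring

end Pool.Agent.E3
end

section

/-!
# G2: Plancherel for finite sums of Gaussians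
-/

set_option autoImplicit false

namespace Pool.Agent.E3

open Finset MeasureTheory Real

private lemma G2_sq {ι : Type} (I : Finset ι) (z : ι → ℂ) :
    ‖∑ i ∈ I, z i‖ ^ 2 = (∑ i ∈ I, ∑ j ∈ I, z i * (starRingEnd ℂ) (z j)).re := by
  rw [← Finset.sum_mul_sum, ← map_sum, Complex.mul_conj, Complex.ofReal_re,
    Complex.normSq_eq_norm_sq]

private lemma G2_ph (y v w : ℝ) : ph y v * (starRingEnd ℂ) (ph y w) = ph y (v - w) := by
  unfold ph
  rw [← Complex.exp_conj, ← Complex.exp_add]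
  congr 1
  rw [map_mul, Complex.conj_ofReal, Complex.conj_I]
  push_cast
  ring

private lemma G2_const (β : ℝ) (hβ : 0 < β) :
    1 / (2 * β) * Real.sqrt (π / (1 / (2 * β))) = Real.sqrt (π / (β + β)) := by
  have h1 : (0 : ℝ) < 1 / (2 * β) := by positivity
  have h2 : 1 / (2 * β) = Real.sqrt ((1 / (2 * β)) ^ 2) := (Real.sqrt_sq h1.le).symm
  rw [h2, ← Real.sqrt_mul (by positivity), ← h2]
  congr 1
  field_simp
  ring

/-- PROOF. `‖z‖² = re (z conj z)`. Expand both squares (finite sums): with `u i j = c i conj (c j)`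
`‖∑ c i gs β x (v i)‖² = re ∑ u i j gs β x (v i) gs β x (v j)`, whose integral is
`re ∑ u i j √(π/(2β)) exp (- (β/2) (v i - v j)²)` by `gs_mul_integral` (`p = q = β`), and
`ph y (v i) conj (ph y (v j)) = ph y (v i - v j)`, so by `gs_fourier` (`c = 1/(2β)`)
`∫ exp (- y²/(2β)) ‖∑ c i ph y (v i)‖² dy = re ∑ u i j √(2πβ) exp (- (β/2) (v i - v j)²)`, and
`(1/(2β)) √(2πβ) = √(π/(2β))`. Integrability: finite sums of integrable functions (`gs_mul_integrable`,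
`gs_fourier_integrable`). -/
theorem planch {ι : Type} (I : Finset ι) (c : ι → ℂ) (v : ι → ℝ) (β : ℝ) (hβ : 0 < β) :
    Integrable (fun x : ℝ => ‖∑ i ∈ I, c i * ((gs β x (v i) : ℝ) : ℂ)‖ ^ 2) ∧
    Integrable (fun y : ℝ => Real.exp (-(y ^ 2 / (2 * β))) * ‖∑ i ∈ I, c i * ph y (v i)‖ ^ 2) ∧
    ∫ x : ℝ, ‖∑ i ∈ I, c i * ((gs β x (v i) : ℝ) : ℂ)‖ ^ 2
      = 1 / (2 * β) * ∫ y : ℝ, Real.exp (-(y ^ 2 / (2 * β))) * ‖∑ i ∈ I, c i * ph y (v i)‖ ^ 2 := by
  have hA : ∀ x : ℝ, ‖∑ i ∈ I, c i * ((gs β x (v i) : ℝ) : ℂ)‖ ^ 2 =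
      ∑ i ∈ I, ∑ j ∈ I, (c i * (starRingEnd ℂ) (c j)).re * (gs β x (v i) * gs β x (v j)) := by
    intro x
    rw [G2_sq, Complex.re_sum]
    refine sum_congr rfl fun i _ => ?_
    rw [Complex.re_sum]
    refine sum_congr rfl fun j _ => ?_
    rw [map_mul, Complex.conj_ofReal]
    have h : c i * ((gs β x (v i) : ℝ) : ℂ) * ((starRingEnd ℂ) (c j) * ((gs β x (v j) : ℝ) : ℂ)) =
        (c i * (starRingEnd ℂ) (c j)) * ((gs β x (v i) * gs β x (v j) : ℝ) : ℂ) := by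
      push_cast
      ring
    rw [h, Complex.re_mul_ofReal]
  have hB : ∀ y : ℝ, Real.exp (-(y ^ 2 / (2 * β))) * ‖∑ i ∈ I, c i * ph y (v i)‖ ^ 2 =
      (∑ i ∈ I, ∑ j ∈ I, (c i * (starRingEnd ℂ) (c j)) *
        (((Real.exp (-(1 / (2 * β) * y ^ 2)) : ℝ) : ℂ) * ph y (v i - v j))).re := by
    intro y
    rw [G2_sq, ← Complex.re_ofReal_mul, Finset.mul_sum]
    congr 1
    refine sum_congr rfl fun i _ => ?_
    rw [Finset.mul_sum]
    refine sum_congr rfl fun j _ => ?_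
    rw [map_mul, ← G2_ph]
    have h : y ^ 2 / (2 * β) = 1 / (2 * β) * y ^ 2 := by ring
    rw [h]
    ring
  have hIA : ∀ i ∈ I, ∀ j ∈ I, Integrable fun x : ℝ =>
      (c i * (starRingEnd ℂ) (c j)).re * (gs β x (v i) * gs β x (v j)) :=
    fun i _ j _ => (gs_mul_integrable β β (v i) (v j) hβ hβ).const_mul _
  have hIB : ∀ i ∈ I, ∀ j ∈ I, Integrable fun y : ℝ => (c i * (starRingEnd ℂ) (c j)) *
        (((Real.exp (-(1 / (2 * β) * y ^ 2)) : ℝ) : ℂ) * ph y (v i - v j)) :=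
    fun i _ j _ => (gs_fourier_integrable (1 / (2 * β)) (v i - v j) (by positivity)).const_mul _
  have hIA' : Integrable fun x : ℝ => ∑ i ∈ I, ∑ j ∈ I,
      (c i * (starRingEnd ℂ) (c j)).re * (gs β x (v i) * gs β x (v j)) :=
    integrable_finsetSum _ fun i hi => integrable_finsetSum _ fun j hj => hIA i hi j hj
  have hIB' : Integrable fun y : ℝ => ∑ i ∈ I, ∑ j ∈ I, (c i * (starRingEnd ℂ) (c j)) *
        (((Real.exp (-(1 / (2 * β) * y ^ 2)) : ℝ) : ℂ) * ph y (v i - v j)) :=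
    integrable_finsetSum _ fun i hi => integrable_finsetSum _ fun j hj => hIB i hi j hj
  simp only [hA, hB]
  refine ⟨hIA', hIB'.re, ?_⟩
  have h1 : ∫ y : ℝ, (∑ i ∈ I, ∑ j ∈ I, (c i * (starRingEnd ℂ) (c j)) *
        (((Real.exp (-(1 / (2 * β) * y ^ 2)) : ℝ) : ℂ) * ph y (v i - v j))).re =
      (∫ y : ℝ, ∑ i ∈ I, ∑ j ∈ I, (c i * (starRingEnd ℂ) (c j)) *
        (((Real.exp (-(1 / (2 * β) * y ^ 2)) : ℝ) : ℂ) * ph y (v i - v j))).re :=
    Complex.reCLM.integral_comp_comm hIB'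
  rw [h1, integral_finsetSum _ fun i hi => integrable_finsetSum _ fun j hj => hIB i hi j hj,
    integral_finsetSum _ fun i hi => integrable_finsetSum _ fun j hj => hIA i hi j hj,
    Complex.re_sum, Finset.mul_sum]
  refine sum_congr rfl fun i hi => ?_
  rw [integral_finsetSum _ fun j hj => hIA i hi j hj,
    integral_finsetSum _ fun j hj => hIB i hi j hj, Complex.re_sum, Finset.mul_sum]
  refine sum_congr rfl fun j hj => ?_
  rw [integral_const_mul, integral_const_mul, gs_mul_integral β β _ _ hβ hβ,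
    gs_fourier _ _ (by positivity), Complex.re_mul_ofReal, ← G2_const β hβ]
  have h2 : β * β / (β + β) * (v i - v j) ^ 2 = (v i - v j) ^ 2 / (4 * (1 / (2 * β))) := by
    field_simp
    ring
  rw [h2]
  ring

end Pool.Agent.E3
end

section

/-!
# B1: Plancherel for the difference of two Gaussians
-/

set_option autoImplicit false

namespace Pool.Agent.E3

open Finset MeasureTheory Real

private lemma B1_sq {ι : Type} (I : Finset ι) (z : ι → ℂ) :
    ‖∑ i ∈ I, z i‖ ^ 2 = (∑ i ∈ I, ∑ j ∈ I, z i * (starRingEnd ℂ) (z j)).re := by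
  rw [← Finset.sum_mul_sum, ← map_sum, Complex.mul_conj, Complex.ofReal_re,
    Complex.normSq_eq_norm_sq]

private lemma B1_ph (y v w : ℝ) : ph y v * (starRingEnd ℂ) (ph y w) = ph y (v - w) := by
  unfold ph
  rw [← Complex.exp_conj, ← Complex.exp_add]
  congr 1
  rw [map_mul, Complex.conj_ofReal, Complex.conj_I]
  push_cast
  ring

private lemma B1_gsn (d x v : ℝ) : gsn d (x - v) = 1 / d * gs (1 / (2 * d ^ 2)) x v := by
  unfold gsn gs
  congr 3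
  ring

private lemma B1_int4 (f g h k : ℝ → ℝ) (hf : Integrable f) (hg : Integrable g)
    (hh : Integrable h) (hk : Integrable k) :
    ∫ x : ℝ, (f x - g x - h x + k x) =
      (∫ x : ℝ, f x) - (∫ x : ℝ, g x) - (∫ x : ℝ, h x) + ∫ x : ℝ, k x := by
  have h1 : Integrable (fun x : ℝ => f x - g x) := hf.sub hg
  have h2 : Integrable (fun x : ℝ => f x - g x - h x) := h1.sub hh
  rw [integral_add h2 hk, integral_sub h1 hh, integral_sub hf hg]

private lemma B1_int3 (f g h : ℝ → ℂ) (hf : Integrable f) (hg : Integrable g)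
    (hh : Integrable h) :
    ∫ x : ℝ, (f x - 2 * g x + h x) =
      (∫ x : ℝ, f x) - 2 * (∫ x : ℝ, g x) + ∫ x : ℝ, h x := by
  have h1 : Integrable (fun x : ℝ => 2 * g x) := hg.const_mul 2
  have h2 : Integrable (fun x : ℝ => f x - 2 * g x) := hf.sub h1
  rw [integral_add h2 hh, integral_sub hf h1, integral_const_mul]

/-- PROOF. `integral_gaussian`. -/
theorem gsn_integral (d v : ℝ) (hd : 0 < d) :
    Integrable (fun x : ℝ => gsn d (x - v)) ∧ ∫ x : ℝ, gsn d (x - v) = Real.sqrt (2 * π) := by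
  have hp : (0 : ℝ) < 1 / (2 * d ^ 2) := by positivity
  simp only [B1_gsn]
  refine ⟨(gs_integrable _ v hp).const_mul _, ?_⟩
  rw [integral_const_mul, gs_integral _ v hp]
  have h2 : 1 / d = Real.sqrt ((1 / d) ^ 2) := (Real.sqrt_sq (by positivity)).symm
  rw [h2, ← Real.sqrt_mul (by positivity)]
  congr 1
  field_simp

/-- PROOF. `gsn d (x - v) = (1/d) gs (1/(2d²)) x v`, `gs_mul_integral` with `p = 1/(2d²)`, `q = 1/(2l²)`:
`√(π/(p+q))/(d l) = √(2π/(d²+l²))`, `p q/(p+q) = 1/(2(d²+l²))`. -/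
theorem gsn_mul_integral (d l v w : ℝ) (hd : 0 < d) (hl : 0 < l) :
    Integrable (fun x : ℝ => gsn d (x - v) * gsn l (x - w)) ∧
    ∫ x : ℝ, gsn d (x - v) * gsn l (x - w)
      = Real.sqrt (2 * π / (d ^ 2 + l ^ 2)) * Real.exp (-((v - w) ^ 2 / (2 * (d ^ 2 + l ^ 2)))) := by
  have hp : (0 : ℝ) < 1 / (2 * d ^ 2) := by positivity
  have hq : (0 : ℝ) < 1 / (2 * l ^ 2) := by positivity
  have he : ∀ x : ℝ, gsn d (x - v) * gsn l (x - w) =
      (1 / d * (1 / l)) * (gs (1 / (2 * d ^ 2)) x v * gs (1 / (2 * l ^ 2)) x w) := by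
    intro x
    rw [B1_gsn, B1_gsn]
    ring
  simp only [he]
  refine ⟨(gs_mul_integrable _ _ v w hp hq).const_mul _, ?_⟩
  rw [integral_const_mul, gs_mul_integral _ _ v w hp hq, ← mul_assoc]
  have h2 : 1 / d * (1 / l) = Real.sqrt ((1 / d * (1 / l)) ^ 2) :=
    (Real.sqrt_sq (by positivity)).symm
  rw [h2, ← Real.sqrt_mul (by positivity)]
  congr 2
  · field_simp
    ring
  · congr 1
    field_simp
    ring

/-- PROOF. As `planch` (file G2): expand both squares. With `u i j = c i conj (c j)` the left side is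
`re ∑ u i j (I(d,d) - I(d,l) - I(l,d) + I(l,l))(v i - v j)` with the integrals `I` of `gsn_mul_integral`, and on the right side
`(exp (- d²y²/2) - exp (- l²y²/2))² = exp (- d²y²) - 2 exp (- (d²+l²)y²/2) + exp (- l²y²)` and by `gs_fourier` with
`c = (d² + l²)/2` etc. `∫ exp (- (d²+l²)y²/2) ph y (v i - v j) dy = √(2π/(d²+l²)) exp (- (v i - v j)²/(2(d²+l²)))`: the same numbers. -/
theorem planch2 {ι : Type} (I : Finset ι) (c : ι → ℂ) (v : ι → ℝ) (d l : ℝ) (hd : 0 < d) (hl : 0 < l) :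
    Integrable (fun x : ℝ => ‖∑ i ∈ I, c i * ((gsn d (x - v i) - gsn l (x - v i) : ℝ) : ℂ)‖ ^ 2) ∧
    Integrable (fun y : ℝ => (Real.exp (-(d ^ 2 * y ^ 2 / 2)) - Real.exp (-(l ^ 2 * y ^ 2 / 2))) ^ 2
      * ‖∑ i ∈ I, c i * ph y (v i)‖ ^ 2) ∧
    ∫ x : ℝ, ‖∑ i ∈ I, c i * ((gsn d (x - v i) - gsn l (x - v i) : ℝ) : ℂ)‖ ^ 2
      = ∫ y : ℝ, (Real.exp (-(d ^ 2 * y ^ 2 / 2)) - Real.exp (-(l ^ 2 * y ^ 2 / 2))) ^ 2
          * ‖∑ i ∈ I, c i * ph y (v i)‖ ^ 2 := by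
  have hA : ∀ x : ℝ, ‖∑ i ∈ I, c i * ((gsn d (x - v i) - gsn l (x - v i) : ℝ) : ℂ)‖ ^ 2 =
      ∑ i ∈ I, ∑ j ∈ I, (c i * (starRingEnd ℂ) (c j)).re *
        ((gsn d (x - v i) - gsn l (x - v i)) * (gsn d (x - v j) - gsn l (x - v j))) := by
    intro x
    rw [B1_sq, Complex.re_sum]
    refine sum_congr rfl fun i _ => ?_
    rw [Complex.re_sum]
    refine sum_congr rfl fun j _ => ?_
    rw [map_mul, Complex.conj_ofReal]
    have h : c i * ((gsn d (x - v i) - gsn l (x - v i) : ℝ) : ℂ) *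
        ((starRingEnd ℂ) (c j) * ((gsn d (x - v j) - gsn l (x - v j) : ℝ) : ℂ)) =
        (c i * (starRingEnd ℂ) (c j)) *
          (((gsn d (x - v i) - gsn l (x - v i)) * (gsn d (x - v j) - gsn l (x - v j)) : ℝ) : ℂ) := by
      push_cast
      ring
    rw [h, Complex.re_mul_ofReal]
  have hsq : ∀ y : ℝ, (Real.exp (-(d ^ 2 * y ^ 2 / 2)) - Real.exp (-(l ^ 2 * y ^ 2 / 2))) ^ 2 =
      Real.exp (-(d ^ 2 * y ^ 2)) - 2 * Real.exp (-((d ^ 2 + l ^ 2) / 2 * y ^ 2)) +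
        Real.exp (-(l ^ 2 * y ^ 2)) := by
    intro y
    have e1 : Real.exp (-(d ^ 2 * y ^ 2)) = Real.exp (-(d ^ 2 * y ^ 2 / 2)) ^ 2 := by
      rw [← Real.exp_nat_mul]
      congr 1
      push_cast
      ring
    have e2 : Real.exp (-(l ^ 2 * y ^ 2)) = Real.exp (-(l ^ 2 * y ^ 2 / 2)) ^ 2 := by
      rw [← Real.exp_nat_mul]
      congr 1
      push_cast
      ring
    have e3 : Real.exp (-((d ^ 2 + l ^ 2) / 2 * y ^ 2)) =
        Real.exp (-(d ^ 2 * y ^ 2 / 2)) * Real.exp (-(l ^ 2 * y ^ 2 / 2)) := by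
      rw [← Real.exp_add]
      congr 1
      ring
    rw [e1, e2, e3]
    ring
  have hB : ∀ y : ℝ, (Real.exp (-(d ^ 2 * y ^ 2 / 2)) - Real.exp (-(l ^ 2 * y ^ 2 / 2))) ^ 2
      * ‖∑ i ∈ I, c i * ph y (v i)‖ ^ 2 =
      (∑ i ∈ I, ∑ j ∈ I, (c i * (starRingEnd ℂ) (c j)) *
        (((Real.exp (-(d ^ 2 * y ^ 2)) : ℝ) : ℂ) * ph y (v i - v j)
          - 2 * (((Real.exp (-((d ^ 2 + l ^ 2) / 2 * y ^ 2)) : ℝ) : ℂ) * ph y (v i - v j))
          + ((Real.exp (-(l ^ 2 * y ^ 2)) : ℝ) : ℂ) * ph y (v i - v j))).re := by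
    intro y
    rw [hsq, B1_sq, ← Complex.re_ofReal_mul, Finset.mul_sum]
    congr 1
    refine sum_congr rfl fun i _ => ?_
    rw [Finset.mul_sum]
    refine sum_congr rfl fun j _ => ?_
    rw [map_mul, ← B1_ph]
    push_cast
    ring
  have hd2 : (0 : ℝ) < d ^ 2 := by positivity
  have hl2 : (0 : ℝ) < l ^ 2 := by positivity
  have hm2 : (0 : ℝ) < (d ^ 2 + l ^ 2) / 2 := by positivity
  have hexp : ∀ i j (x : ℝ), (gsn d (x - v i) - gsn l (x - v i)) * (gsn d (x - v j) - gsn l (x - v j)) =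
      gsn d (x - v i) * gsn d (x - v j) - gsn d (x - v i) * gsn l (x - v j)
        - gsn l (x - v i) * gsn d (x - v j) + gsn l (x - v i) * gsn l (x - v j) := by
    intro i j x
    ring
  have hI2 : ∀ i j, Integrable fun x : ℝ =>
      (gsn d (x - v i) - gsn l (x - v i)) * (gsn d (x - v j) - gsn l (x - v j)) := by
    intro i j
    simp only [hexp]
    exact (((gsn_mul_integral d d (v i) (v j) hd hd).1.sub
      (gsn_mul_integral d l (v i) (v j) hd hl).1).sub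
      (gsn_mul_integral l d (v i) (v j) hl hd).1).add
      (gsn_mul_integral l l (v i) (v j) hl hl).1
  have hIA : ∀ i ∈ I, ∀ j ∈ I, Integrable fun x : ℝ =>
      (c i * (starRingEnd ℂ) (c j)).re *
        ((gsn d (x - v i) - gsn l (x - v i)) * (gsn d (x - v j) - gsn l (x - v j))) :=
    fun i _ j _ => (hI2 i j).const_mul _
  have hF2 : ∀ i j, Integrable fun y : ℝ =>
        (((Real.exp (-(d ^ 2 * y ^ 2)) : ℝ) : ℂ) * ph y (v i - v j)
          - 2 * (((Real.exp (-((d ^ 2 + l ^ 2) / 2 * y ^ 2)) : ℝ) : ℂ) * ph y (v i - v j))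
          + ((Real.exp (-(l ^ 2 * y ^ 2)) : ℝ) : ℂ) * ph y (v i - v j)) := by
    intro i j
    exact ((gs_fourier_integrable (d ^ 2) (v i - v j) hd2).sub
      ((gs_fourier_integrable ((d ^ 2 + l ^ 2) / 2) (v i - v j) hm2).const_mul 2)).add
      (gs_fourier_integrable (l ^ 2) (v i - v j) hl2)
  have hIB : ∀ i ∈ I, ∀ j ∈ I, Integrable fun y : ℝ => (c i * (starRingEnd ℂ) (c j)) *
        (((Real.exp (-(d ^ 2 * y ^ 2)) : ℝ) : ℂ) * ph y (v i - v j)
          - 2 * (((Real.exp (-((d ^ 2 + l ^ 2) / 2 * y ^ 2)) : ℝ) : ℂ) * ph y (v i - v j))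
          + ((Real.exp (-(l ^ 2 * y ^ 2)) : ℝ) : ℂ) * ph y (v i - v j)) :=
    fun i _ j _ => (hF2 i j).const_mul _
  have hIA' : Integrable fun x : ℝ => ∑ i ∈ I, ∑ j ∈ I,
      (c i * (starRingEnd ℂ) (c j)).re *
        ((gsn d (x - v i) - gsn l (x - v i)) * (gsn d (x - v j) - gsn l (x - v j))) :=
    integrable_finsetSum _ fun i hi => integrable_finsetSum _ fun j hj => hIA i hi j hj
  have hIB' : Integrable fun y : ℝ => ∑ i ∈ I, ∑ j ∈ I, (c i * (starRingEnd ℂ) (c j)) *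
        (((Real.exp (-(d ^ 2 * y ^ 2)) : ℝ) : ℂ) * ph y (v i - v j)
          - 2 * (((Real.exp (-((d ^ 2 + l ^ 2) / 2 * y ^ 2)) : ℝ) : ℂ) * ph y (v i - v j))
          + ((Real.exp (-(l ^ 2 * y ^ 2)) : ℝ) : ℂ) * ph y (v i - v j)) :=
    integrable_finsetSum _ fun i hi => integrable_finsetSum _ fun j hj => hIB i hi j hj
  simp only [hA, hB]
  refine ⟨hIA', hIB'.re, ?_⟩
  have h1 := Complex.reCLM.integral_comp_comm hIB'
  simp only [Complex.reCLM_apply] at h1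
  rw [h1, integral_finsetSum _ fun i hi => integrable_finsetSum _ fun j hj => hIB i hi j hj,
    integral_finsetSum _ fun i hi => integrable_finsetSum _ fun j hj => hIA i hi j hj,
    Complex.re_sum]
  refine sum_congr rfl fun i hi => ?_
  rw [integral_finsetSum _ fun j hj => hIA i hi j hj,
    integral_finsetSum _ fun j hj => hIB i hi j hj, Complex.re_sum]
  refine sum_congr rfl fun j hj => ?_
  rw [integral_const_mul, integral_const_mul]
  have hL : ∫ x : ℝ, (gsn d (x - v i) - gsn l (x - v i)) * (gsn d (x - v j) - gsn l (x - v j)) =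
      Real.sqrt (2 * π / (d ^ 2 + d ^ 2)) * Real.exp (-((v i - v j) ^ 2 / (2 * (d ^ 2 + d ^ 2))))
      - Real.sqrt (2 * π / (d ^ 2 + l ^ 2)) * Real.exp (-((v i - v j) ^ 2 / (2 * (d ^ 2 + l ^ 2))))
      - Real.sqrt (2 * π / (l ^ 2 + d ^ 2)) * Real.exp (-((v i - v j) ^ 2 / (2 * (l ^ 2 + d ^ 2))))
      + Real.sqrt (2 * π / (l ^ 2 + l ^ 2)) * Real.exp (-((v i - v j) ^ 2 / (2 * (l ^ 2 + l ^ 2)))) := by
    simp only [hexp]
    rw [B1_int4 _ _ _ _ (gsn_mul_integral d d (v i) (v j) hd hd).1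
      (gsn_mul_integral d l (v i) (v j) hd hl).1 (gsn_mul_integral l d (v i) (v j) hl hd).1
      (gsn_mul_integral l l (v i) (v j) hl hl).1, (gsn_mul_integral d d (v i) (v j) hd hd).2,
      (gsn_mul_integral d l (v i) (v j) hd hl).2, (gsn_mul_integral l d (v i) (v j) hl hd).2,
      (gsn_mul_integral l l (v i) (v j) hl hl).2]
  have hR : ∫ y : ℝ, (((Real.exp (-(d ^ 2 * y ^ 2)) : ℝ) : ℂ) * ph y (v i - v j)
          - 2 * (((Real.exp (-((d ^ 2 + l ^ 2) / 2 * y ^ 2)) : ℝ) : ℂ) * ph y (v i - v j))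
          + ((Real.exp (-(l ^ 2 * y ^ 2)) : ℝ) : ℂ) * ph y (v i - v j)) =
      ((Real.sqrt (π / d ^ 2) * Real.exp (-((v i - v j) ^ 2 / (4 * d ^ 2)))
        - 2 * (Real.sqrt (π / ((d ^ 2 + l ^ 2) / 2)) * Real.exp (-((v i - v j) ^ 2 / (4 * ((d ^ 2 + l ^ 2) / 2)))))
        + Real.sqrt (π / l ^ 2) * Real.exp (-((v i - v j) ^ 2 / (4 * l ^ 2))) : ℝ) : ℂ) := by
    rw [B1_int3 _ _ _ (gs_fourier_integrable (d ^ 2) (v i - v j) hd2)
      (gs_fourier_integrable ((d ^ 2 + l ^ 2) / 2) (v i - v j) hm2)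
      (gs_fourier_integrable (l ^ 2) (v i - v j) hl2),
      gs_fourier _ _ hd2, gs_fourier _ _ hm2, gs_fourier _ _ hl2]
    push_cast
    ring
  rw [hL, hR, Complex.re_mul_ofReal]
  congr 1
  have k1 : 2 * π / (d ^ 2 + d ^ 2) = π / d ^ 2 := by
    field_simp
    ring
  have k2 : 2 * π / (l ^ 2 + l ^ 2) = π / l ^ 2 := by
    field_simp
    ring
  have k3 : π / ((d ^ 2 + l ^ 2) / 2) = 2 * π / (d ^ 2 + l ^ 2) := by
    field_simp
  have k4 : 2 * (d ^ 2 + d ^ 2) = 4 * d ^ 2 := by ring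
  have k5 : 2 * (l ^ 2 + l ^ 2) = 4 * l ^ 2 := by ring
  have k6 : 4 * ((d ^ 2 + l ^ 2) / 2) = 2 * (d ^ 2 + l ^ 2) := by ring
  rw [k1, k2, k3, k4, k5, k6, add_comm (l ^ 2) (d ^ 2)]
  ring

end Pool.Agent.E3
end

section

/-!
# G3: Plancherel for windows and bilinear windows
-/

set_option autoImplicit false

namespace Pool.Agent.E3

open Finset MeasureTheory Real

/-- the bilinear window: the window of the Dirichlet product of `a` over `S` and `b` over `S'` -/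
noncomputable def BW (a b : ℕ → ℂ) (S S' : Finset ℕ) (β t x : ℝ) : ℂ :=
  ∑ d ∈ S, ∑ m ∈ S', a d * b m * (ph t (Real.log d) * ph t (Real.log m)) *
    (((gs β x (Real.log d + Real.log m) / (d * m) : ℝ)) : ℂ)

private lemma G3_add (t y v : ℝ) : ph (t + y) v = ph t v * ph y v := by
  unfold ph
  rw [← Complex.exp_add]
  congr 1
  push_cast
  ring

private lemma G3_add' (y v w : ℝ) : ph y (v + w) = ph y v * ph y w := by
  unfold ph
  rw [← Complex.exp_add]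
  congr 1
  push_cast
  ring

/-- PROOF. `planch` with `c n = a n ph t (log n) / n`, `v n = log n`; `ph t v ph y v = ph (t + y) v`. -/
theorem planch_WIN (a : ℕ → ℂ) (S : Finset ℕ) (β t : ℝ) (hβ : 0 < β) :
    Integrable (fun x : ℝ => ‖WIN a β S t x‖ ^ 2) ∧
    Integrable (fun y : ℝ => Real.exp (-(y ^ 2 / (2 * β))) * ‖DP a S (t + y)‖ ^ 2) ∧
    ∫ x : ℝ, ‖WIN a β S t x‖ ^ 2
      = 1 / (2 * β) * ∫ y : ℝ, Real.exp (-(y ^ 2 / (2 * β))) * ‖DP a S (t + y)‖ ^ 2 := by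
  have h := planch S (fun n : ℕ => a n * ph t (Real.log n) * (((1 / n : ℝ)) : ℂ))
    (fun n : ℕ => Real.log n) β hβ
  have h1 : ∀ x : ℝ, WIN a β S t x = ∑ n ∈ S, a n * ph t (Real.log n) * (((1 / n : ℝ)) : ℂ) *
      ((gs β x (Real.log n) : ℝ) : ℂ) := by
    intro x
    unfold WIN
    refine sum_congr rfl fun n _ => ?_
    push_cast
    ring
  have h2 : ∀ y : ℝ, DP a S (t + y) = ∑ n ∈ S, a n * ph t (Real.log n) * (((1 / n : ℝ)) : ℂ) *
      ph y (Real.log n) := by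
    intro y
    unfold DP
    refine sum_congr rfl fun n _ => ?_
    rw [G3_add]
    ring
  simp only [h1, h2]
  exact h

/-- PROOF. `planch` with the index set `S ×ˢ S'`, `v (d, m) = log d + log m`,
`c (d, m) = a d b m ph t (log d) ph t (log m) / (d m)`;
`∑_{d, m} c (d, m) ph y (v (d, m)) = DP a S (t + y) * DP b S' (t + y)`. -/
theorem planch_BW (a b : ℕ → ℂ) (S S' : Finset ℕ) (β t : ℝ) (hβ : 0 < β) :
    Integrable (fun x : ℝ => ‖BW a b S S' β t x‖ ^ 2) ∧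
    Integrable (fun y : ℝ => Real.exp (-(y ^ 2 / (2 * β))) *
      (‖DP a S (t + y)‖ ^ 2 * ‖DP b S' (t + y)‖ ^ 2)) ∧
    ∫ x : ℝ, ‖BW a b S S' β t x‖ ^ 2
      = 1 / (2 * β) * ∫ y : ℝ, Real.exp (-(y ^ 2 / (2 * β))) *
          (‖DP a S (t + y)‖ ^ 2 * ‖DP b S' (t + y)‖ ^ 2) := by
  have h := planch (S ×ˢ S') (fun p : ℕ × ℕ => a p.1 * b p.2 *
    (ph t (Real.log p.1) * ph t (Real.log p.2)) * (((1 / (p.1 * p.2) : ℝ)) : ℂ))
    (fun p : ℕ × ℕ => Real.log p.1 + Real.log p.2) β hβ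
  have h1 : ∀ x : ℝ, BW a b S S' β t x = ∑ p ∈ S ×ˢ S', a p.1 * b p.2 *
      (ph t (Real.log p.1) * ph t (Real.log p.2)) * (((1 / (p.1 * p.2) : ℝ)) : ℂ) *
      ((gs β x (Real.log p.1 + Real.log p.2) : ℝ) : ℂ) := by
    intro x
    unfold BW
    rw [Finset.sum_product]
    refine sum_congr rfl fun d _ => sum_congr rfl fun m _ => ?_
    push_cast
    ring
  have h2 : ∀ y : ℝ, ‖DP a S (t + y)‖ ^ 2 * ‖DP b S' (t + y)‖ ^ 2 =
      ‖∑ p ∈ S ×ˢ S', a p.1 * b p.2 *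
      (ph t (Real.log p.1) * ph t (Real.log p.2)) * (((1 / (p.1 * p.2) : ℝ)) : ℂ) *
      ph y (Real.log p.1 + Real.log p.2)‖ ^ 2 := by
    intro y
    rw [← mul_pow, ← norm_mul]
    congr 2
    unfold DP
    rw [Finset.sum_mul_sum, Finset.sum_product]
    refine sum_congr rfl fun d _ => sum_congr rfl fun m _ => ?_
    rw [G3_add, G3_add, G3_add']
    push_cast
    ring
  simp only [h1, h2]
  exact h

end Pool.Agent.E3
end

section

/-!
# G5: from windows to the Dirichlet polynomial, pointwise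
-/

set_option autoImplicit false

namespace Pool.Agent.E3

open Finset MeasureTheory Real

private theorem G5_norm_ph (u x : ℝ) : ‖ph u x‖ = 1 := by
  unfold ph; exact Complex.norm_exp_ofReal_mul_I _

private theorem G5_gs_nonneg (β x y : ℝ) : 0 ≤ gs β x y := (Real.exp_pos _).le

private theorem G5_gs_cont (β y : ℝ) : Continuous (fun x : ℝ => gs β x y) := by
  unfold gs; fun_prop

private theorem G5_WIN_cont (a : ℕ → ℂ) (S : Finset ℕ) (β t : ℝ) : Continuous (fun x : ℝ => WIN a β S t x) := by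
  unfold WIN
  refine continuous_finsetSum _ fun n _ => ?_
  refine continuous_const.mul ?_
  exact Complex.continuous_ofReal.comp ((G5_gs_cont β (Real.log n)).div_const _)

/-- PROOF. `DP a S t = √(2/π) ∫ WIN a 2 S t x dx` (`gs_integral`, `β = 2`; finite sum). Split the integral at
`x = -L` and `x = 2L`. On `[-L, 2L]`: Cauchy-Schwarz, `∫ ‖WIN‖ ≤ √(3L) (∫ ‖WIN‖²)^(1/2)`. For `x` outside,
`|x - log n| ≥ L` for all `n ∈ S` (`0 ≤ log n ≤ L`), and
`∫_{|x - v| ≥ L} exp (- 2 (x-v)²) dx ≤ exp (- L²) ∫ exp (- (x-v)²) dx = √π exp (-L²) ≤ 2 exp (- L)`. `√(2/π) ≤ 1`. -/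
theorem DP_le (a : ℕ → ℂ) (S : Finset ℕ) (t L : ℝ) (hL : 1 ≤ L)
    (hS : ∀ n ∈ S, 1 ≤ n ∧ Real.log n ≤ L) :
    ‖DP a S t‖ ≤ Real.sqrt (3 * L) * Real.sqrt (∫ x : ℝ, ‖WIN a 2 S t x‖ ^ 2)
      + 2 * Real.exp (-L) * ∑ n ∈ S, ‖a n‖ / n := by
  classical
  have hcont := G5_WIN_cont a S 2 t
  have hgi : ∀ n : ℕ, Integrable (fun x : ℝ => gs 2 x (Real.log n)) := fun n => gs_integrable 2 _ two_pos
  have hterm : ∀ n ∈ S, Integrable (fun x : ℝ => a n * ph t (Real.log n) * (((gs 2 x (Real.log n) / n : ℝ)) : ℂ)) := by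
    intro n _
    exact (((hgi n).div_const _).ofReal).const_mul _
  have hWint : Integrable (fun x : ℝ => WIN a 2 S t x) := by
    unfold WIN
    exact integrable_finsetSum _ hterm
  have hWsq : Integrable (fun x : ℝ => ‖WIN a 2 S t x‖ ^ 2) := (planch_WIN a S 2 t two_pos).1
  have hint : ∫ x : ℝ, WIN a 2 S t x = ((Real.sqrt (π / 2) : ℝ) : ℂ) * DP a S t := by
    unfold WIN DP
    rw [integral_finsetSum _ hterm, Finset.mul_sum]
    refine Finset.sum_congr rfl fun n _ => ?_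
    rw [integral_const_mul, integral_complex_ofReal, integral_div, gs_integral 2 _ two_pos]
    push_cast
    ring
  set M : ℝ := ∑ n ∈ S, ‖a n‖ / n with hM
  have hM0 : 0 ≤ M := Finset.sum_nonneg fun n _ => by positivity
  set A : ℝ := ∫ x : ℝ, ‖WIN a 2 S t x‖ ^ 2 with hA
  have hA0 : 0 ≤ A := integral_nonneg fun x => by positivity
  -- pointwise bound
  set I : Set ℝ := Set.Icc (-L) (2 * L) with hI
  have hpt : ∀ x : ℝ, ‖WIN a 2 S t x‖ ≤ I.indicator (fun x => ‖WIN a 2 S t x‖) x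
      + Real.exp (-L ^ 2) * ∑ n ∈ S, ‖a n‖ / n * gs 1 x (Real.log n) := by
    intro x
    by_cases hx : x ∈ I
    · rw [Set.indicator_of_mem hx]
      have : 0 ≤ Real.exp (-L ^ 2) * ∑ n ∈ S, ‖a n‖ / n * gs 1 x (Real.log n) := by
        refine mul_nonneg (Real.exp_pos _).le (Finset.sum_nonneg fun n _ => ?_)
        exact mul_nonneg (by positivity) (G5_gs_nonneg _ _ _)
      linarith
    · rw [Set.indicator_of_notMem hx, zero_add]
      unfold WIN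
      refine (norm_sum_le _ _).trans ?_
      rw [Finset.mul_sum]
      refine Finset.sum_le_sum fun n hn => ?_
      obtain ⟨hn1, hnL⟩ := hS n hn
      have hlog0 : 0 ≤ Real.log n := Real.log_nonneg (by exact_mod_cast hn1)
      have hdist : L ^ 2 ≤ (x - Real.log n) ^ 2 := by
        have hx' : x < -L ∨ 2 * L < x := by
          by_contra hcon
          push Not at hcon
          exact hx ⟨hcon.1, hcon.2⟩
        rcases hx' with h | h <;> nlinarith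
      have hgs : gs 2 x (Real.log n) ≤ Real.exp (-L ^ 2) * gs 1 x (Real.log n) := by
        unfold gs
        rw [← Real.exp_add]
        apply Real.exp_le_exp.mpr
        nlinarith
      have hn0 : (0 : ℝ) < n := by exact_mod_cast hn1
      rw [norm_mul, norm_mul, G5_norm_ph, mul_one, Complex.norm_real, Real.norm_eq_abs,
        abs_of_nonneg (div_nonneg (G5_gs_nonneg _ _ _) hn0.le)]
      calc ‖a n‖ * (gs 2 x (Real.log n) / n) = ‖a n‖ / n * gs 2 x (Real.log n) := by ring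
        _ ≤ ‖a n‖ / n * (Real.exp (-L ^ 2) * gs 1 x (Real.log n)) :=
            mul_le_mul_of_nonneg_left hgs (by positivity)
        _ = _ := by ring
  have hIm : MeasurableSet I := measurableSet_Icc
  have hi1 : Integrable (fun x => I.indicator (fun x => ‖WIN a 2 S t x‖) x) := hWint.norm.indicator hIm
  have hi2 : Integrable (fun x : ℝ => Real.exp (-L ^ 2) * ∑ n ∈ S, ‖a n‖ / n * gs 1 x (Real.log n)) := by
    refine (integrable_finsetSum _ fun n _ => ?_).const_mul _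
    exact (gs_integrable 1 _ one_pos).const_mul _
  have hnorm : ∫ x : ℝ, ‖WIN a 2 S t x‖ ≤ (∫ x in I, ‖WIN a 2 S t x‖) + Real.exp (-L ^ 2) * (M * Real.sqrt π) := by
    refine (integral_mono hWint.norm (hi1.add hi2) hpt).trans ?_
    have e1 : ∫ x : ℝ, ((fun x => I.indicator (fun x => ‖WIN a 2 S t x‖) x) + fun x : ℝ =>
        Real.exp (-L ^ 2) * ∑ n ∈ S, ‖a n‖ / n * gs 1 x (Real.log n)) x
        = (∫ x in I, ‖WIN a 2 S t x‖) + Real.exp (-L ^ 2) * (M * Real.sqrt π) := by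
      rw [integral_add' hi1 hi2]
      congr 1
      · exact integral_indicator hIm
      · rw [integral_const_mul, integral_finsetSum _ (fun n _ => (gs_integrable 1 _ one_pos).const_mul _)]
        congr 1
        rw [hM, Finset.sum_mul]
        refine Finset.sum_congr rfl fun n _ => ?_
        rw [integral_const_mul, gs_integral 1 _ one_pos, div_one]
    exact e1.le
  -- Cauchy-Schwarz
  have hCS : ∫ x in I, ‖WIN a 2 S t x‖ ≤ Real.sqrt (3 * L) * Real.sqrt A := by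
    set B : ℝ := ∫ x in I, ‖WIN a 2 S t x‖ with hB
    have hB0 : 0 ≤ B := integral_nonneg fun x => norm_nonneg _
    have hA1 : ∫ x in I, ‖WIN a 2 S t x‖ ^ 2 ≤ A :=
      setIntegral_le_integral hWsq (Filter.Eventually.of_forall fun x => by positivity)
    have h3L : 0 < 3 * L := by linarith
    have hvol : (volume.restrict I).real Set.univ = 3 * L := by
      rw [measureReal_restrict_apply MeasurableSet.univ, Set.univ_inter, hI, Real.volume_real_Icc_of_le (by linarith)]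
      ring
    have hkey : 0 ≤ ∫ x in I, (‖WIN a 2 S t x‖ - B / (3 * L)) ^ 2 := integral_nonneg fun x => by positivity
    have hexp : ∫ x in I, (‖WIN a 2 S t x‖ - B / (3 * L)) ^ 2
        = (∫ x in I, ‖WIN a 2 S t x‖ ^ 2) - 2 * (B / (3 * L)) * B + (B / (3 * L)) ^ 2 * (3 * L) := by
      have h1 : ∀ x : ℝ, (‖WIN a 2 S t x‖ - B / (3 * L)) ^ 2
          = (‖WIN a 2 S t x‖ ^ 2 - 2 * (B / (3 * L)) * ‖WIN a 2 S t x‖) + (B / (3 * L)) ^ 2 := fun x => by ring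
      simp_rw [h1]
      have hf : IsFiniteMeasure (volume.restrict I) := by
        rw [hI]; infer_instance
      have j1 : Integrable (fun x => ‖WIN a 2 S t x‖ ^ 2) (volume.restrict I) := hWsq.restrict
      have j2 : Integrable (fun x => 2 * (B / (3 * L)) * ‖WIN a 2 S t x‖) (volume.restrict I) :=
        (hWint.norm.restrict).const_mul _
      have j3 : Integrable (fun _ : ℝ => (B / (3 * L)) ^ 2) (volume.restrict I) := integrable_const _
      have j4 : Integrable (fun x => ‖WIN a 2 S t x‖ ^ 2 - 2 * (B / (3 * L)) * ‖WIN a 2 S t x‖)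
          (volume.restrict I) := j1.sub j2
      rw [integral_add j4 j3, integral_sub j1 j2, integral_const_mul, integral_const, hvol, smul_eq_mul]
      ring
    have h2 : B ^ 2 ≤ 3 * L * A := by
      have h3 : (∫ x in I, ‖WIN a 2 S t x‖ ^ 2) - 2 * (B / (3 * L)) * B + (B / (3 * L)) ^ 2 * (3 * L)
          = (∫ x in I, ‖WIN a 2 S t x‖ ^ 2) - B ^ 2 / (3 * L) := by
        field_simp
        ring
      rw [hexp, h3] at hkey
      have h4 : B ^ 2 / (3 * L) ≤ A := by linarith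
      rw [div_le_iff₀ h3L] at h4
      linarith
    rw [← Real.sqrt_mul h3L.le]
    exact Real.le_sqrt_of_sq_le h2
  have hsq : Real.sqrt (π / 2) * ‖DP a S t‖ ≤ ∫ x : ℝ, ‖WIN a 2 S t x‖ := by
    have h := norm_integral_le_integral_norm (fun x : ℝ => WIN a 2 S t x) (μ := volume)
    rw [hint, norm_mul, Complex.norm_real, Real.norm_eq_abs, abs_of_nonneg (Real.sqrt_nonneg _)] at h
    exact h
  have hpi : (1 : ℝ) ≤ Real.sqrt (π / 2) := by
    rw [show (1 : ℝ) = Real.sqrt 1 by simp]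
    apply Real.sqrt_le_sqrt
    have := Real.pi_gt_three
    linarith
  -- √π ≤ 2 √(π/2)
  have hsp : Real.sqrt π ≤ 2 * Real.sqrt (π / 2) := by
    rw [show (2 : ℝ) * Real.sqrt (π / 2) = Real.sqrt (4 * (π / 2)) by
      rw [Real.sqrt_mul (by norm_num), show (4 : ℝ) = 2 ^ 2 by norm_num, Real.sqrt_sq (by norm_num)]]
    apply Real.sqrt_le_sqrt
    have := Real.pi_pos
    linarith
  have hLL : Real.exp (-L ^ 2) ≤ Real.exp (-L) := by
    apply Real.exp_le_exp.mpr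
    nlinarith
  set K := Real.sqrt (3 * L) * Real.sqrt A with hK
  have hK0 : 0 ≤ K := by positivity
  have hfin : Real.sqrt (π / 2) * ‖DP a S t‖ ≤ Real.sqrt (π / 2) * (K + 2 * Real.exp (-L) * M) := by
    have h1 : Real.exp (-L ^ 2) * (M * Real.sqrt π) ≤ Real.exp (-L) * (M * (2 * Real.sqrt (π / 2))) := by
      apply mul_le_mul hLL _ (by positivity) (Real.exp_pos _).le
      exact mul_le_mul_of_nonneg_left hsp hM0
    have h2 : K ≤ Real.sqrt (π / 2) * K := le_mul_of_one_le_left hK0 hpi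
    calc Real.sqrt (π / 2) * ‖DP a S t‖ ≤ K + Real.exp (-L) * (M * (2 * Real.sqrt (π / 2))) := by linarith
      _ ≤ Real.sqrt (π / 2) * K + Real.exp (-L) * (M * (2 * Real.sqrt (π / 2))) := by linarith
      _ = _ := by ring
  exact le_of_mul_le_mul_left hfin (by linarith)

end Pool.Agent.E3
end

section

/-!
# G6: sharp cut-offs of windows
-/

set_option autoImplicit false

namespace Pool.Agent.E3

open Finset MeasureTheory Real

private theorem G6_norm_ph (u x : ℝ) : ‖ph u x‖ = 1 := by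
  unfold ph; exact Complex.norm_exp_ofReal_mul_I _

private theorem G6_gs_nonneg (β x y : ℝ) : 0 ≤ gs β x y := (Real.exp_pos _).le

/-- bound of a window by the window of the norms with half of the exponent -/
private theorem G6_aux (a : ℕ → ℂ) (T S : Finset ℕ) (hT : T ⊆ S) (t τ x E : ℝ) (hE : 0 ≤ E)
    (hτ : ∑ n ∈ S, ‖a n‖ * gs 1 x (Real.log n) / n ≤ τ)
    (h : ∀ n ∈ T, gs 2 x (Real.log n) ≤ E * gs 1 x (Real.log n)) :
    ‖WIN a 2 T t x‖ ≤ E * τ := by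
  have h1 : ‖WIN a 2 T t x‖ ≤ ∑ n ∈ T, E * (‖a n‖ * gs 1 x (Real.log n) / n) := by
    unfold WIN
    refine (norm_sum_le _ _).trans (Finset.sum_le_sum fun n hn => ?_)
    rw [norm_mul, norm_mul, G6_norm_ph, mul_one, Complex.norm_real, Real.norm_eq_abs,
      abs_of_nonneg (div_nonneg (G6_gs_nonneg _ _ _) (Nat.cast_nonneg n))]
    calc ‖a n‖ * (gs 2 x (Real.log n) / n) = ‖a n‖ / n * gs 2 x (Real.log n) := by ring
      _ ≤ ‖a n‖ / n * (E * gs 1 x (Real.log n)) :=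
          mul_le_mul_of_nonneg_left (h n hn) (by positivity)
      _ = _ := by ring
  refine h1.trans ?_
  rw [← Finset.mul_sum]
  refine mul_le_mul_of_nonneg_left (le_trans ?_ hτ) hE
  refine Finset.sum_le_sum_of_subset_of_nonneg hT fun n _ _ => ?_
  exact div_nonneg (mul_nonneg (norm_nonneg _) (G6_gs_nonneg _ _ _)) (Nat.cast_nonneg n)

/-- PROOF. Put `l₁ = log N₁`, `l₂ = log N₂`, `S' = {n ∈ S : N₁ < n ≤ N₂}`.
For `x ∈ [l₁, l₂]`, `r = min (x - l₁) (l₂ - x)`: `WIN a 2 S' t x = WIN a 2 S t x - ∑_{n ∈ S \ S'}`, and for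
`n ∈ S \ S'` one has `|x - log n| ≥ r`, so `gs 2 x (log n) ≤ exp (- r²) gs 1 x (log n)`: the last sum is
`≤ τ exp (- r²)`. So `‖WIN a 2 S' t x‖² ≤ 2 ‖WIN a 2 S t x‖² + 2 τ² exp (- 2 r²)`, and
`exp (- 2 r²) ≤ exp (- 2 (x-l₁)²) + exp (- 2 (x - l₂)²)`, with total integral `≤ 2 √(π/2) ≤ 3`.
For `x ∉ [l₁, l₂]` the distance `ρ` of `x` to `[l₁, l₂]` is `≤ |x - log n|` for all `n ∈ S'`, so
`‖WIN a 2 S' t x‖ ≤ τ exp (- ρ²)`, whose square has integral `≤ τ² √(π/2)` over the complement. Total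
`2 ∫ + 6 τ² + 2 τ²`. -/
theorem cut_WIN (a : ℕ → ℂ) (S : Finset ℕ) (t τ : ℝ) (N₁ N₂ : ℕ) (hN₁ : 1 ≤ N₁) (hN : N₁ ≤ N₂)
    (hS : ∀ n ∈ S, 1 ≤ n)
    (hτ : ∀ x : ℝ, ∑ n ∈ S, ‖a n‖ * gs 1 x (Real.log n) / n ≤ τ) :
    ∫ x : ℝ, ‖WIN a 2 (S.filter (fun n => N₁ < n ∧ n ≤ N₂)) t x‖ ^ 2
      ≤ 2 * (∫ x in Set.Icc (Real.log N₁) (Real.log N₂), ‖WIN a 2 S t x‖ ^ 2) + 10 * τ ^ 2 := by
  classical
  have hτ0 : 0 ≤ τ := by
    refine le_trans (Finset.sum_nonneg fun n _ => ?_) (hτ 0)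
    exact div_nonneg (mul_nonneg (norm_nonneg _) (G6_gs_nonneg _ _ _)) (Nat.cast_nonneg n)
  set l₁ : ℝ := Real.log N₁ with hl₁
  set l₂ : ℝ := Real.log N₂ with hl₂
  set S' : Finset ℕ := S.filter (fun n => N₁ < n ∧ n ≤ N₂) with hS'
  have hN₁' : (0 : ℝ) < N₁ := by exact_mod_cast hN₁
  have hl12 : l₁ ≤ l₂ := Real.log_le_log hN₁' (by exact_mod_cast hN)
  set I : Set ℝ := Set.Icc l₁ l₂ with hI
  -- the maximum
  have hgs1 : ∀ x v l : ℝ, (x - l) ^ 2 ≤ (x - v) ^ 2 → gs 2 x v ≤ gs 1 x l * gs 1 x v := by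
    intro x v l h
    unfold gs
    rw [← Real.exp_add]
    apply Real.exp_le_exp.mpr
    nlinarith
  have hmax2 : ∀ x : ℝ, (max (gs 1 x l₁) (gs 1 x l₂)) ^ 2 ≤ gs 2 x l₁ + gs 2 x l₂ := by
    intro x
    have hsq : ∀ l : ℝ, (gs 1 x l) ^ 2 = gs 2 x l := by
      intro l
      unfold gs
      rw [← Real.exp_nat_mul]
      congr 1
      push_cast
      ring
    rcases max_choice (gs 1 x l₁) (gs 1 x l₂) with h | h <;> rw [h, hsq]
    · linarith [G6_gs_nonneg 2 x l₂]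
    · linarith [G6_gs_nonneg 2 x l₁]
  have hmax0 : ∀ x : ℝ, 0 ≤ max (gs 1 x l₁) (gs 1 x l₂) := fun x => le_max_of_le_left (G6_gs_nonneg _ _ _)
  have hpt : ∀ x : ℝ, ‖WIN a 2 S' t x‖ ^ 2 ≤ 2 * I.indicator (fun x => ‖WIN a 2 S t x‖ ^ 2) x
      + 2 * τ ^ 2 * (gs 2 x l₁ + gs 2 x l₂) := by
    intro x
    set E := max (gs 1 x l₁) (gs 1 x l₂) with hE
    by_cases hx : x ∈ I
    · rw [Set.indicator_of_mem hx]
      have hsplit : WIN a 2 S t x = WIN a 2 S' t x + WIN a 2 (S.filter (fun n => ¬ (N₁ < n ∧ n ≤ N₂))) t x := by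
        unfold WIN
        rw [hS', Finset.sum_filter_add_sum_filter_not]
      have hb : ‖WIN a 2 (S.filter (fun n => ¬ (N₁ < n ∧ n ≤ N₂))) t x‖ ≤ E * τ := by
        refine G6_aux a _ S (Finset.filter_subset _ _) t τ x E (hmax0 x) (hτ x) fun n hn => ?_
        rw [Finset.mem_filter] at hn
        obtain ⟨hnS, hn2⟩ := hn
        have hn0 : (0 : ℝ) < n := by exact_mod_cast hS n hnS
        by_cases hc : N₁ < n
        · have hgt : N₂ < n := by
            by_contra hcon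
            exact hn2 ⟨hc, not_lt.mp hcon⟩
          have hlg : l₂ ≤ Real.log n := Real.log_le_log (lt_of_lt_of_le hN₁' (by exact_mod_cast hN)) (by exact_mod_cast hgt.le)
          have h1 : (x - l₂) ^ 2 ≤ (x - Real.log n) ^ 2 := by
            have := hx.2
            nlinarith
          exact (hgs1 x _ l₂ h1).trans (mul_le_mul_of_nonneg_right (le_max_right _ _) (G6_gs_nonneg _ _ _))
        · have hle : n ≤ N₁ := not_lt.mp hc
          have hlg : Real.log n ≤ l₁ := Real.log_le_log hn0 (by exact_mod_cast hle)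
          have h1 : (x - l₁) ^ 2 ≤ (x - Real.log n) ^ 2 := by
            have := hx.1
            nlinarith
          exact (hgs1 x _ l₁ h1).trans (mul_le_mul_of_nonneg_right (le_max_left _ _) (G6_gs_nonneg _ _ _))
      set Z := WIN a 2 (S.filter (fun n => ¬ (N₁ < n ∧ n ≤ N₂))) t x with hZ
      have h1 : ‖WIN a 2 S' t x‖ ≤ ‖WIN a 2 S t x‖ + ‖Z‖ := by
        have : WIN a 2 S' t x = WIN a 2 S t x - Z := by rw [hsplit]; ring
        rw [this]
        exact norm_sub_le _ _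
      have h2 : ‖WIN a 2 S' t x‖ ^ 2 ≤ 2 * ‖WIN a 2 S t x‖ ^ 2 + 2 * ‖Z‖ ^ 2 := by
        have h3 := pow_le_pow_left₀ (norm_nonneg _) h1 2
        nlinarith [sq_nonneg (‖WIN a 2 S t x‖ - ‖Z‖)]
      have h3 : ‖Z‖ ^ 2 ≤ τ ^ 2 * (gs 2 x l₁ + gs 2 x l₂) := by
        calc ‖Z‖ ^ 2 ≤ (E * τ) ^ 2 := pow_le_pow_left₀ (norm_nonneg _) hb 2
          _ = τ ^ 2 * E ^ 2 := by ring
          _ ≤ _ := mul_le_mul_of_nonneg_left (hmax2 x) (by positivity)
      linarith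
    · rw [Set.indicator_of_notMem hx, mul_zero, zero_add]
      have hb : ‖WIN a 2 S' t x‖ ≤ E * τ := by
        refine G6_aux a _ S (Finset.filter_subset _ _) t τ x E (hmax0 x) (hτ x) fun n hn => ?_
        rw [Finset.mem_filter] at hn
        obtain ⟨hnS, hn1, hn2⟩ := hn
        have hn0 : (0 : ℝ) < n := by exact_mod_cast hS n hnS
        have hlg1 : l₁ ≤ Real.log n := Real.log_le_log hN₁' (by exact_mod_cast hn1.le)
        have hlg2 : Real.log n ≤ l₂ := Real.log_le_log hn0 (by exact_mod_cast hn2)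
        have hx' : x < l₁ ∨ l₂ < x := by
          by_contra hcon
          push Not at hcon
          exact hx ⟨hcon.1, hcon.2⟩
        rcases hx' with h | h
        · have h1 : (x - l₁) ^ 2 ≤ (x - Real.log n) ^ 2 := by nlinarith
          exact (hgs1 x _ l₁ h1).trans (mul_le_mul_of_nonneg_right (le_max_left _ _) (G6_gs_nonneg _ _ _))
        · have h1 : (x - l₂) ^ 2 ≤ (x - Real.log n) ^ 2 := by nlinarith
          exact (hgs1 x _ l₂ h1).trans (mul_le_mul_of_nonneg_right (le_max_right _ _) (G6_gs_nonneg _ _ _))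
      have h3 : ‖WIN a 2 S' t x‖ ^ 2 ≤ τ ^ 2 * (gs 2 x l₁ + gs 2 x l₂) := by
        calc ‖WIN a 2 S' t x‖ ^ 2 ≤ (E * τ) ^ 2 := pow_le_pow_left₀ (norm_nonneg _) hb 2
          _ = τ ^ 2 * E ^ 2 := by ring
          _ ≤ _ := mul_le_mul_of_nonneg_left (hmax2 x) (by positivity)
      have h4 : 0 ≤ τ ^ 2 * (gs 2 x l₁ + gs 2 x l₂) :=
        mul_nonneg (by positivity) (add_nonneg (G6_gs_nonneg _ _ _) (G6_gs_nonneg _ _ _))
      linarith
  have hIm : MeasurableSet I := measurableSet_Icc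
  have hi0 : Integrable (fun x : ℝ => ‖WIN a 2 S' t x‖ ^ 2) := (planch_WIN a S' 2 t two_pos).1
  have hiS : Integrable (fun x : ℝ => ‖WIN a 2 S t x‖ ^ 2) := (planch_WIN a S 2 t two_pos).1
  have hi1 : Integrable (fun x => 2 * I.indicator (fun x => ‖WIN a 2 S t x‖ ^ 2) x) :=
    (hiS.indicator hIm).const_mul _
  have hi3 : Integrable (fun x : ℝ => gs 2 x l₁ + gs 2 x l₂) :=
    (gs_integrable 2 l₁ two_pos).add (gs_integrable 2 l₂ two_pos)
  have hi2 : Integrable (fun x : ℝ => 2 * τ ^ 2 * (gs 2 x l₁ + gs 2 x l₂)) := hi3.const_mul _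
  have hmono := integral_mono hi0 (hi1.add hi2) hpt
  refine hmono.trans ?_
  rw [integral_add' hi1 hi2, integral_const_mul, integral_const_mul,
    integral_add (gs_integrable 2 l₁ two_pos) (gs_integrable 2 l₂ two_pos), gs_integral 2 l₁ two_pos,
    gs_integral 2 l₂ two_pos, integral_indicator hIm]
  have hpi : Real.sqrt (π / 2) ≤ 2 := by
    rw [Real.sqrt_le_left (by norm_num)]
    have := Real.pi_le_four
    linarith
  have h5 : 2 * τ ^ 2 * (Real.sqrt (π / 2) + Real.sqrt (π / 2)) ≤ 10 * τ ^ 2 := by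
    nlinarith [sq_nonneg τ]
  linarith

end Pool.Agent.E3
end
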