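import Pool.Agent.Lib.MP_bae66e_nt.Mg.G001

section

/-!
# S1: one block of the sieve
-/

set_option autoImplicit false

namespace Pool.Agent.E3

open Finset
open Pool.Agent.Lib.MP_bae66e_nt.AP3 (es alt bonferroni abs_prod_sub_alt_le prod_one_sub_ge es_le_pow)

private noncomputable def s1_u (B : Finset ℕ) (r d : ℕ) : ℝ :=
  if d ∣ ∏ ℓ ∈ B, ℓ ∧ #d.primeFactors < r then (-1) ^ #d.primeFactors else 0

private noncomputable def s1_e (B : Finset ℕ) (r d : ℕ) : ℝ :=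
  if d ∣ ∏ ℓ ∈ B, ℓ ∧ #d.primeFactors = r then 1 else 0

private theorem s1_P_ne (B : Finset ℕ) (hB : ∀ ℓ ∈ B, ℓ.Prime) : ∏ ℓ ∈ B, ℓ ≠ 0 :=
  prod_ne_zero_iff.2 fun ℓ h => (hB ℓ h).ne_zero

private theorem s1_sq (B : Finset ℕ) (hB : ∀ ℓ ∈ B, ℓ.Prime) : Squarefree (∏ ℓ ∈ B, ℓ) := by
  have h := Nat.primeFactors_prod hB
  rw [Nat.squarefree_iff_prime_squarefree]
  intro p hp hpp
  have hpB : p ∈ B := by
    rw [← h]
    exact Nat.mem_primeFactors.2 ⟨hp, dvd_trans (dvd_mul_left p p) hpp, s1_P_ne B hB⟩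
  rw [← mul_prod_erase B _ hpB] at hpp
  have h3 : p ∣ ∏ ℓ ∈ B.erase p, ℓ := Nat.dvd_of_mul_dvd_mul_left hp.pos hpp
  obtain ⟨q, hq, hpq⟩ := (Prime.dvd_finsetProd_iff hp.prime _).1 h3
  have h4 := (Nat.prime_dvd_prime_iff_eq hp (hB q (mem_of_mem_erase hq))).1 hpq
  exact ne_of_mem_erase hq h4.symm

private theorem s1_sum (B : Finset ℕ) (hB : ∀ ℓ ∈ B, ℓ.Prime) (F : ℕ → ℝ) :
    ∑ d ∈ (∏ ℓ ∈ B, ℓ).divisors, F d = ∑ T ∈ B.powerset, F (∏ ℓ ∈ T, ℓ) := by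
  symm
  refine sum_nbij' (fun T => ∏ ℓ ∈ T, ℓ) (fun d => d.primeFactors) ?_ ?_ ?_ ?_ ?_
  · intro T hT
    exact Nat.mem_divisors.2 ⟨prod_dvd_prod_of_subset _ _ _ (mem_powerset.1 hT), s1_P_ne B hB⟩
  · intro d hd
    rw [mem_powerset, ← Nat.primeFactors_prod hB]
    exact Nat.primeFactors_mono (Nat.dvd_of_mem_divisors hd) (s1_P_ne B hB)
  · intro T hT
    exact Nat.primeFactors_prod fun p hp => hB p (mem_powerset.1 hT hp)
  · intro d hd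
    exact Nat.prod_primeFactors_of_squarefree
      ((s1_sq B hB).squarefree_of_dvd (Nat.dvd_of_mem_divisors hd))
  · intro T hT
    rfl

private theorem s1_ind (T : Finset ℕ) (hT : ∀ ℓ ∈ T, ℓ.Prime) (n : ℕ) :
    ∏ ℓ ∈ T, (if ℓ ∣ n then (1 : ℝ) else 0) = if ∏ ℓ ∈ T, ℓ ∣ n then 1 else 0 := by
  by_cases h : ∀ ℓ ∈ T, ℓ ∣ n
  · rw [prod_congr rfl fun ℓ hℓ => if_pos (h ℓ hℓ), prod_const_one, if_pos]
    exact prod_primes_dvd n (fun ℓ hℓ => (hT ℓ hℓ).prime) h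
  · push Not at h
    obtain ⟨ℓ, hℓ, hn⟩ := h
    rw [prod_eq_zero hℓ (if_neg hn), if_neg]
    exact fun hd => hn ((dvd_prod_of_mem _ hℓ).trans hd)

private theorem s1_alt (x : ℕ → ℝ) (B : Finset ℕ) (r : ℕ) :
    alt x r B = ∑ T ∈ B.powerset, if #T < r then (-1) ^ #T * ∏ ℓ ∈ T, x ℓ else 0 := by
  unfold alt es
  have h1 : ∀ j ∈ range r, (-1 : ℝ) ^ j * ∑ T ∈ powersetCard j B, ∏ i ∈ T, x i =
      ∑ T ∈ B.powerset, if #T = j then (-1) ^ #T * ∏ ℓ ∈ T, x ℓ else 0 := by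
    intro j hj
    rw [powersetCard_eq_filter, sum_filter, mul_sum]
    refine sum_congr rfl fun T hT => ?_
    by_cases h : #T = j
    · rw [if_pos h, if_pos h, h]
    · rw [if_neg h, if_neg h, mul_zero]
  rw [sum_congr rfl h1, sum_comm]
  refine sum_congr rfl fun T hT => ?_
  rw [sum_ite_eq]
  simp only [mem_range]

private theorem s1_es (x : ℕ → ℝ) (B : Finset ℕ) (r : ℕ) :
    es x r B = ∑ T ∈ B.powerset, if #T = r then ∏ ℓ ∈ T, x ℓ else 0 := by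
  unfold es
  rw [powersetCard_eq_filter, sum_filter]

private theorem s1_uT (B : Finset ℕ) (hB : ∀ ℓ ∈ B, ℓ.Prime) (r : ℕ) {T : Finset ℕ}
    (hT : T ∈ B.powerset) : s1_u B r (∏ ℓ ∈ T, ℓ) = if #T < r then (-1) ^ #T else 0 := by
  unfold s1_u
  rw [Nat.primeFactors_prod fun p hp => hB p (mem_powerset.1 hT hp)]
  have h : ∏ ℓ ∈ T, ℓ ∣ ∏ ℓ ∈ B, ℓ := prod_dvd_prod_of_subset _ _ _ (mem_powerset.1 hT)
  simp only [h, true_and]

private theorem s1_eT (B : Finset ℕ) (hB : ∀ ℓ ∈ B, ℓ.Prime) (r : ℕ) {T : Finset ℕ}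
    (hT : T ∈ B.powerset) : s1_e B r (∏ ℓ ∈ T, ℓ) = if #T = r then 1 else 0 := by
  unfold s1_e
  rw [Nat.primeFactors_prod fun p hp => hB p (mem_powerset.1 hT hp)]
  have h : ∏ ℓ ∈ T, ℓ ∣ ∏ ℓ ∈ B, ℓ := prod_dvd_prod_of_subset _ _ _ (mem_powerset.1 hT)
  simp only [h, true_and]

private theorem s1_dsum (B : Finset ℕ) (hB : ∀ ℓ ∈ B, ℓ.Prime) (F : ℕ → ℝ)
    (hF : ∀ d, F d ≠ 0 → d ∣ ∏ ℓ ∈ B, ℓ) {n : ℕ} (hn : 1 ≤ n) :
    dsum F n = ∑ T ∈ B.powerset, F (∏ ℓ ∈ T, ℓ) * ∏ ℓ ∈ T, (if ℓ ∣ n then (1 : ℝ) else 0) := by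
  have h1 : dsum F n = ∑ d ∈ (∏ ℓ ∈ B, ℓ).divisors, if d ∣ n then F d else 0 := by
    unfold dsum
    rw [← sum_filter, ← sum_filter_add_sum_filter_not n.divisors (fun d => d ∣ ∏ ℓ ∈ B, ℓ) F]
    rw [sum_eq_zero (s := n.divisors.filter fun d => ¬ d ∣ ∏ ℓ ∈ B, ℓ), add_zero]
    · refine sum_congr ?_ fun _ _ => rfl
      ext d
      simp only [mem_filter, Nat.mem_divisors]
      have := s1_P_ne B hB
      constructor
      · rintro ⟨⟨a, b⟩, c⟩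
        exact ⟨⟨c, this⟩, a⟩
      · rintro ⟨⟨a, b⟩, c⟩
        exact ⟨⟨c, by omega⟩, a⟩
    · intro d hd
      by_contra hne
      exact (mem_filter.1 hd).2 (hF d hne)
  rw [h1, s1_sum B hB]
  refine sum_congr rfl fun T hT => ?_
  rw [s1_ind T (fun p hp => hB p (mem_powerset.1 hT hp))]
  split_ifs <;> simp

private theorem s1_free (B : Finset ℕ) (n : ℕ) :
    free B n = ∏ ℓ ∈ B, (1 - (if ℓ ∣ n then (1 : ℝ) else 0)) := by
  unfold free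
  by_cases h : ∀ ℓ ∈ B, ¬ ℓ ∣ n
  · rw [if_pos h, prod_congr rfl fun ℓ hℓ => by rw [if_neg (h ℓ hℓ), sub_zero], prod_const_one]
  · rw [if_neg h]
    push Not at h
    obtain ⟨ℓ, hℓ, hn⟩ := h
    rw [prod_eq_zero hℓ]
    rw [if_pos hn, sub_self]

private theorem s1_usupp (B : Finset ℕ) (z r : ℕ) (hz : 1 ≤ z)
    (hB : ∀ ℓ ∈ B, ℓ.Prime ∧ ℓ ≤ z) {d : ℕ} (h1 : d ∣ ∏ ℓ ∈ B, ℓ) (h2 : #d.primeFactors ≤ r) :
    (d : ℝ) ≤ (z : ℝ) ^ r := by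
  have hB' : ∀ ℓ ∈ B, ℓ.Prime := fun ℓ h => (hB ℓ h).1
  have hd := Nat.prod_primeFactors_of_squarefree ((s1_sq B hB').squarefree_of_dvd h1)
  have hsub : d.primeFactors ⊆ B := by
    rw [← Nat.primeFactors_prod hB']
    exact Nat.primeFactors_mono h1 (s1_P_ne B hB')
  have h3 : d ≤ z ^ r := by
    calc d = ∏ p ∈ d.primeFactors, p := hd.symm
      _ ≤ ∏ p ∈ d.primeFactors, z := prod_le_prod' fun p hp => (hB p (hsub hp)).2
      _ = z ^ #d.primeFactors := prod_const z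
      _ ≤ z ^ r := Nat.pow_le_pow_right hz h2
  exact_mod_cast h3

/-- PROOF. Let `P = ∏ B` (squarefree), `ω d = #d.primeFactors`,
`u d = μ d` if `d ∣ P`, `ω d < r`, else `0`; `e d = 1` if `d ∣ P`, `ω d = r`, else `0`. The divisors `d` of `P`
correspond to the subsets `T` of `B` (`d = ∏ T`, `ω d = #T`, `μ d = (-1)^#T`). With `x ℓ = 1` if `ℓ ∣ n`, else `0`:
`dsum u n = ∑_{T ⊆ B, #T < r} (-1)^#T ∏_{T} x = alt x r B`, `dsum e n = es x r B`, `free B n = ∏_B (1 - x ℓ)`;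
with `x ℓ = 1/ℓ`: `∑ u d / d = alt x r B`, `∑ e d / d = es x r B`, `VR B = ∏_B (1 - x ℓ)`. Since `r` is odd
`bonferroni` gives `∏ (1 - x) ≤ alt x r B ≤ ∏ (1 - x) + es x r B`; and `es x r B ≤ L^r / r!` (`es_le_pow`),
`VR B ≥ exp (-2 ∑ 1/ℓ) ≥ exp (-2 L)` (`prod_one_sub_ge`), so `es x r B ≤ exp (2L) L^r / r! · VR B`.
Support: `ω d ≤ r` and all primes are `≤ z`, so `d ≤ z^r` (here `z ≥ 1`). -/
theorem block_SW (B : Finset ℕ) (z r : ℕ) (L : ℝ) (hr : Odd r) (hz : 1 ≤ z)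
    (hB : ∀ ℓ ∈ B, ℓ.Prime ∧ ℓ ≤ z) (hL : ∑ ℓ ∈ B, 1 / (ℓ : ℝ) ≤ L) :
    ∃ u e : ℕ → ℝ, SW B ((z : ℝ) ^ r) 1 (Real.exp (2 * L) * (L ^ r / r.factorial)) u e := by
  have hB' : ∀ ℓ ∈ B, ℓ.Prime := fun ℓ h => (hB ℓ h).1
  have hL0 : 0 ≤ L := le_trans (sum_nonneg fun ℓ _ => by positivity) hL
  have hu0 : ∀ d, s1_u B r d ≠ 0 → d ∣ ∏ ℓ ∈ B, ℓ ∧ #d.primeFactors < r := fun d h => by
    by_contra hc
    exact h (if_neg hc)
  have he0 : ∀ d, s1_e B r d ≠ 0 → d ∣ ∏ ℓ ∈ B, ℓ ∧ #d.primeFactors = r := fun d h => by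
    by_contra hc
    exact h (if_neg hc)
  have hm1 : (-1 : ℝ) ^ r = -1 := hr.neg_one_pow
  -- the indicator of the divisors of `n`
  have hbn : ∀ n, 1 ≤ n → free B n ≤ dsum (s1_u B r) n ∧
      dsum (s1_u B r) n - free B n ≤ dsum (s1_e B r) n := by
    intro n hn
    have ha : dsum (s1_u B r) n = alt (fun ℓ => if ℓ ∣ n then (1 : ℝ) else 0) r B := by
      rw [s1_dsum B hB' _ (fun d h => (hu0 d h).1) hn, s1_alt]
      refine sum_congr rfl fun T hT => ?_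
      rw [s1_uT B hB' r hT]
      split_ifs <;> simp
    have hb : dsum (s1_e B r) n = es (fun ℓ => if ℓ ∣ n then (1 : ℝ) else 0) r B := by
      rw [s1_dsum B hB' _ (fun d h => (he0 d h).1) hn, s1_es]
      refine sum_congr rfl fun T hT => ?_
      rw [s1_eT B hB' r hT]
      split_ifs <;> simp
    have h := bonferroni (fun ℓ => if ℓ ∣ n then (1 : ℝ) else 0)
      (fun ℓ => by split_ifs <;> norm_num)
      (fun ℓ => by split_ifs <;> norm_num) B r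
    rw [hm1, ← s1_free, ← ha, ← hb] at h
    constructor <;> linarith [h.1, h.2]
  -- the densities
  let x : ℕ → ℝ := fun ℓ => if ℓ ∈ B then 1 / (ℓ : ℝ) else 0
  have hx0 : ∀ ℓ, 0 ≤ x ℓ := fun ℓ => by
    dsimp only [x]
    split_ifs <;> positivity
  have hx2 : ∀ ℓ, x ℓ ≤ 1 / 2 := fun ℓ => by
    dsimp only [x]
    split_ifs with h
    · have h2 : (2 : ℝ) ≤ ℓ := by exact_mod_cast (hB' ℓ h).two_le
      exact one_div_le_one_div_of_le (by norm_num) h2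
    · norm_num
  have hx1 : ∀ ℓ, x ℓ ≤ 1 := fun ℓ => (hx2 ℓ).trans (by norm_num)
  have hxB : ∀ ℓ ∈ B, x ℓ = 1 / (ℓ : ℝ) := fun ℓ h => if_pos h
  have hprod : ∀ T ∈ B.powerset, ∏ ℓ ∈ T, x ℓ = 1 / ((∏ ℓ ∈ T, ℓ : ℕ) : ℝ) := by
    intro T hT
    rw [prod_congr rfl fun ℓ hℓ => hxB ℓ (mem_powerset.1 hT hℓ), Nat.cast_prod]
    simp only [one_div, prod_inv_distrib]
  have hua : ∑ d ∈ (∏ ℓ ∈ B, ℓ).divisors, s1_u B r d / d = alt x r B := by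
    rw [s1_sum B hB' (fun d => s1_u B r d / d), s1_alt]
    refine sum_congr rfl fun T hT => ?_
    rw [s1_uT B hB' r hT, hprod T hT]
    split_ifs
    · rw [mul_one_div]
    · rw [zero_div]
  have hea : ∑ d ∈ (∏ ℓ ∈ B, ℓ).divisors, s1_e B r d / d = es x r B := by
    rw [s1_sum B hB' (fun d => s1_e B r d / d), s1_es]
    refine sum_congr rfl fun T hT => ?_
    rw [s1_eT B hB' r hT, hprod T hT]
    split_ifs
    · rfl
    · rw [zero_div]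
  have hV : VR B = ∏ ℓ ∈ B, (1 - x ℓ) := prod_congr rfl fun ℓ hℓ => by rw [hxB ℓ hℓ]
  have hs : ∑ ℓ ∈ B, x ℓ ≤ L := by
    rw [sum_congr rfl hxB]
    exact hL
  have hVR : Real.exp (-(2 * L)) ≤ VR B := by
    rw [hV]
    refine le_trans (Real.exp_le_exp.2 ?_) (prod_one_sub_ge x B hx0 hx2)
    linarith
  have hVR0 : 0 < VR B := (Real.exp_pos _).trans_le hVR
  have hes : es x r B ≤ Real.exp (2 * L) * (L ^ r / r.factorial) * VR B := by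
    have h1 : es x r B ≤ L ^ r / r.factorial := by
      refine (es_le_pow x hx0 B r).trans ?_
      apply div_le_div_of_nonneg_right _ (by positivity)
      exact pow_le_pow_left₀ (sum_nonneg fun i _ => hx0 i) hs r
    have h2 : 1 ≤ Real.exp (2 * L) * VR B := by
      have := mul_le_mul_of_nonneg_left hVR (Real.exp_pos (2 * L)).le
      rwa [← Real.exp_add, add_neg_cancel, Real.exp_zero] at this
    have h3 : 0 ≤ L ^ r / r.factorial := by positivity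
    calc es x r B ≤ L ^ r / r.factorial * 1 := by rw [mul_one]; exact h1
      _ ≤ L ^ r / r.factorial * (Real.exp (2 * L) * VR B) := mul_le_mul_of_nonneg_left h2 h3
      _ = _ := by ring
  have hbx := bonferroni x hx0 hx1 B r
  rw [hm1, ← hV] at hbx
  have hes0 : 0 ≤ es x r B := sum_nonneg fun T _ => prod_nonneg fun i _ => hx0 i
  refine ⟨s1_u B r, s1_e B r, ?_, ?_, ?_, ?_, fun n hn => (hbn n hn).1, fun n hn => (hbn n hn).2,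
    ?_, ?_, ?_, ?_⟩
  · intro d hd
    exact ⟨(hu0 d hd).1, s1_usupp B z r hz hB (hu0 d hd).1 (hu0 d hd).2.le⟩
  · intro d hd
    exact ⟨(he0 d hd).1, s1_usupp B z r hz hB (he0 d hd).1 (he0 d hd).2.le⟩
  · intro d
    unfold s1_u
    split_ifs
    · rw [abs_pow, abs_neg, abs_one, one_pow]
    · rw [abs_zero]; norm_num
  · intro d
    unfold s1_e
    split_ifs
    · rw [abs_one]
    · rw [abs_zero]; norm_num
  · rw [hua]
    linarith [hbx.1]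
  · rw [hua]
    linarith [hbx.2]
  · rw [hea]
    exact hes0
  · rw [hea]
    exact hes

end Pool.Agent.E3
end

section

/-!
# S2: products of sieve weights
-/

set_option autoImplicit false

namespace Pool.Agent.E3

open Finset

private theorem S2_gcd_left {P Q d₁ d₂ : ℕ} (h : Nat.Coprime P Q) (h₁ : d₁ ∣ P) (h₂ : d₂ ∣ Q) :
    Nat.gcd (d₁ * d₂) P = d₁ := by
  have hc : Nat.Coprime d₂ P := (Nat.Coprime.coprime_dvd_right h₂ h).symm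
  rw [Nat.Coprime.gcd_mul_right_cancel d₁ hc]
  exact Nat.gcd_eq_left h₁

private theorem S2_gcd_right {P Q d₁ d₂ : ℕ} (h : Nat.Coprime P Q) (h₁ : d₁ ∣ P) (h₂ : d₂ ∣ Q) :
    Nat.gcd (d₁ * d₂) Q = d₂ := by
  rw [mul_comm]
  exact S2_gcd_left h.symm h₂ h₁

private theorem S2_gcd_mul {P Q d : ℕ} (h : Nat.Coprime P Q) (hd : d ∣ P * Q) :
    Nat.gcd d P * Nat.gcd d Q = d := by
  rw [← Nat.Coprime.gcd_mul d h]
  exact Nat.gcd_eq_left hd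

/-- sums over the divisors of a product -/
private theorem S2_sum {P Q : ℕ} (hP : P ≠ 0) (hQ : Q ≠ 0) (h : Nat.Coprime P Q) (f : ℕ → ℝ) :
    ∑ d ∈ (P * Q).divisors, f d = ∑ x ∈ P.divisors ×ˢ Q.divisors, f (x.1 * x.2) := by
  refine Finset.sum_nbij' (fun d => (Nat.gcd d P, Nat.gcd d Q)) (fun x => x.1 * x.2) ?_ ?_ ?_ ?_ ?_
  · intro d hd
    rw [Finset.mem_product, Nat.mem_divisors, Nat.mem_divisors]
    exact ⟨⟨Nat.gcd_dvd_right _ _, hP⟩, ⟨Nat.gcd_dvd_right _ _, hQ⟩⟩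
  · intro x hx
    rw [Finset.mem_product, Nat.mem_divisors, Nat.mem_divisors] at hx
    rw [Nat.mem_divisors]
    exact ⟨Nat.mul_dvd_mul hx.1.1 hx.2.1, Nat.mul_ne_zero hP hQ⟩
  · intro d hd
    exact S2_gcd_mul h (Nat.dvd_of_mem_divisors hd)
  · intro x hx
    rw [Finset.mem_product, Nat.mem_divisors, Nat.mem_divisors] at hx
    exact Prod.ext (S2_gcd_left h hx.1.1 hx.2.1) (S2_gcd_right h hx.1.1 hx.2.1)
  · intro d hd
    exact congrArg f (S2_gcd_mul h (Nat.dvd_of_mem_divisors hd)).symm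

/-- the product of two weights -/
private noncomputable def S2_pr (P Q : ℕ) (a b : ℕ → ℝ) (d : ℕ) : ℝ :=
  if d ∣ P * Q then a (Nat.gcd d P) * b (Nat.gcd d Q) else 0

private theorem S2_pr_sum {P Q : ℕ} (hP : P ≠ 0) (hQ : Q ≠ 0) (h : Nat.Coprime P Q)
    (a b w : ℕ → ℝ) (hw : ∀ d₁ d₂, d₁ ∣ P → d₂ ∣ Q → w (d₁ * d₂) = w d₁ * w d₂) :
    ∑ d ∈ (P * Q).divisors, S2_pr P Q a b d * w d =
      (∑ d ∈ P.divisors, a d * w d) * (∑ d ∈ Q.divisors, b d * w d) := by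
  rw [S2_sum hP hQ h, Finset.sum_mul_sum, ← Finset.sum_product']
  refine Finset.sum_congr rfl fun x hx => ?_
  rw [Finset.mem_product, Nat.mem_divisors, Nat.mem_divisors] at hx
  unfold S2_pr
  rw [if_pos (Nat.mul_dvd_mul hx.1.1 hx.2.1), S2_gcd_left h hx.1.1 hx.2.1,
    S2_gcd_right h hx.1.1 hx.2.1, hw _ _ hx.1.1 hx.2.1]
  ring

/-- `dsum` as a sum over the divisors of the product of the primes -/
private theorem S2_dsum {P n : ℕ} (hP : P ≠ 0) (hn : 1 ≤ n) (a : ℕ → ℝ)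
    (ha : ∀ d, a d ≠ 0 → d ∣ P) :
    dsum a n = ∑ d ∈ P.divisors, a d * (if d ∣ n then 1 else 0) := by
  unfold dsum
  have h1 : ∑ d ∈ P.divisors, a d * (if d ∣ n then (1 : ℝ) else 0) =
      ∑ d ∈ P.divisors.filter (· ∣ n), a d := by
    rw [Finset.sum_filter]
    refine Finset.sum_congr rfl fun d _ => ?_
    split_ifs <;> simp
  rw [h1]
  symm
  refine Finset.sum_subset ?_ ?_
  · intro d hd
    rw [Finset.mem_filter] at hd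
    rw [Nat.mem_divisors]
    exact ⟨hd.2, by omega⟩
  · intro d hd hd2
    by_contra h3
    apply hd2
    rw [Finset.mem_filter, Nat.mem_divisors]
    exact ⟨⟨ha d h3, hP⟩, Nat.dvd_of_mem_divisors hd⟩

private theorem S2_pr_supp {P Q : ℕ} {a b : ℕ → ℝ} {d : ℕ} (h : S2_pr P Q a b d ≠ 0) :
    d ∣ P * Q ∧ a (Nat.gcd d P) ≠ 0 ∧ b (Nat.gcd d Q) ≠ 0 := by
  unfold S2_pr at h
  split_ifs at h with h1
  · exact ⟨h1, left_ne_zero_of_mul h, right_ne_zero_of_mul h⟩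
  · exact absurd rfl h

private theorem S2_dsum_pr {P Q n : ℕ} (hP : P ≠ 0) (hQ : Q ≠ 0) (h : Nat.Coprime P Q) (hn : 1 ≤ n)
    (a b : ℕ → ℝ) (ha : ∀ d, a d ≠ 0 → d ∣ P) (hb : ∀ d, b d ≠ 0 → d ∣ Q) :
    dsum (S2_pr P Q a b) n = dsum a n * dsum b n := by
  rw [S2_dsum (Nat.mul_ne_zero hP hQ) hn _ fun d hd => (S2_pr_supp hd).1, S2_dsum hP hn a ha,
    S2_dsum hQ hn b hb]
  refine S2_pr_sum hP hQ h a b _ fun d₁ d₂ h₁ h₂ => ?_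
  have hc : Nat.Coprime d₁ d₂ := Nat.Coprime.coprime_dvd_left h₁ (Nat.Coprime.coprime_dvd_right h₂ h)
  have h3 : d₁ * d₂ ∣ n ↔ d₁ ∣ n ∧ d₂ ∣ n :=
    ⟨fun h4 => ⟨dvd_of_mul_right_dvd h4, dvd_of_mul_left_dvd h4⟩,
      fun h4 => Nat.Coprime.mul_dvd_of_dvd_of_dvd hc h4.1 h4.2⟩
  by_cases h4 : d₁ ∣ n
  · by_cases h5 : d₂ ∣ n
    · rw [if_pos h4, if_pos h5, if_pos (h3.2 ⟨h4, h5⟩), one_mul]
    · rw [if_neg h5, if_neg fun h6 => h5 (h3.1 h6).2, mul_zero]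
  · rw [if_neg h4, if_neg fun h6 => h4 (h3.1 h6).1, zero_mul]

private theorem S2_div_pr {P Q : ℕ} (hP : P ≠ 0) (hQ : Q ≠ 0) (h : Nat.Coprime P Q)
    (a b : ℕ → ℝ) :
    ∑ d ∈ (P * Q).divisors, S2_pr P Q a b d / d =
      (∑ d ∈ P.divisors, a d / d) * (∑ d ∈ Q.divisors, b d / d) := by
  have h1 := S2_pr_sum hP hQ h a b (fun d => ((d : ℝ))⁻¹) fun d₁ d₂ _ _ => by
    rw [Nat.cast_mul, mul_inv]
  simpa only [div_eq_mul_inv] using h1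

private theorem S2_abs {P Q : ℕ} {a b : ℕ → ℝ} {x y : ℝ} (hy : 0 ≤ y) (hx : 0 ≤ x)
    (ha : ∀ d, |a d| ≤ x) (hb : ∀ d, |b d| ≤ y) (d : ℕ) : |S2_pr P Q a b d| ≤ x * y := by
  unfold S2_pr
  split_ifs with h1
  · rw [abs_mul]
    exact mul_le_mul (ha _) (hb _) (abs_nonneg _) hx
  · rw [abs_zero]
    exact mul_nonneg hx hy

private theorem S2_level {P Q : ℕ} (h : Nat.Coprime P Q) {a b : ℕ → ℝ} {D₁ D₂ : ℝ}
    (hD₁ : 0 ≤ D₁)
    (ha : ∀ d, a d ≠ 0 → d ∣ P ∧ (d : ℝ) ≤ D₁) (hb : ∀ d, b d ≠ 0 → d ∣ Q ∧ (d : ℝ) ≤ D₂) {d : ℕ}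
    (hd : S2_pr P Q a b d ≠ 0) : d ∣ P * Q ∧ (d : ℝ) ≤ D₁ * D₂ := by
  obtain ⟨h1, h2, h3⟩ := S2_pr_supp hd
  refine ⟨h1, ?_⟩
  have h4 : (d : ℝ) = (Nat.gcd d P : ℝ) * (Nat.gcd d Q : ℝ) := by
    rw [← Nat.cast_mul, S2_gcd_mul h h1]
  rw [h4]
  exact mul_le_mul (ha _ h2).2 (hb _ h3).2 (Nat.cast_nonneg _) hD₁

private theorem S2_free_nonneg (R : Finset ℕ) (n : ℕ) : 0 ≤ free R n := by
  unfold free
  split_ifs <;> norm_num

private theorem S2_free_union (B R : Finset ℕ) (n : ℕ) : free (B ∪ R) n = free B n * free R n := by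
  unfold free
  by_cases h1 : ∀ ℓ ∈ B, ¬ ℓ ∣ n
  · by_cases h2 : ∀ ℓ ∈ R, ¬ ℓ ∣ n
    · rw [if_pos h1, if_pos h2, if_pos, one_mul]
      intro ℓ hℓ
      rcases Finset.mem_union.1 hℓ with h | h
      · exact h1 ℓ h
      · exact h2 ℓ h
    · rw [if_neg h2, if_neg, mul_zero]
      intro h3
      exact h2 fun ℓ hℓ => h3 ℓ (Finset.mem_union_right _ hℓ)
  · rw [if_neg h1, if_neg, zero_mul]
    intro h3
    exact h1 fun ℓ hℓ => h3 ℓ (Finset.mem_union_left _ hℓ)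

private theorem S2_VR_nonneg (R : Finset ℕ) (hR : ∀ ℓ ∈ R, ℓ.Prime) : 0 ≤ VR R := by
  unfold VR
  refine Finset.prod_nonneg fun ℓ hℓ => ?_
  have h1 : (1 : ℝ) ≤ ℓ := by exact_mod_cast (hR ℓ hℓ).one_lt.le
  have h2 : 1 / (ℓ : ℝ) ≤ 1 := by
    rw [div_le_one (by linarith)]
    exact h1
  linarith

private theorem S2_dsum_add (a b : ℕ → ℝ) (n : ℕ) :
    dsum (fun d => a d + b d) n = dsum a n + dsum b n := by
  unfold dsum
  exact Finset.sum_add_distrib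

/-- PROOF. Let `P = ∏ B`, `Q = ∏ R` (squarefree, coprime). Put, for `d ∣ P Q`, `u d = u₁ (gcd d P) u₂ (gcd d Q)`,
`e d = e₁ (gcd d P) u₂ (gcd d Q) + u₁ (gcd d P) e₂ (gcd d Q)`, and `0` for the other `d`. Every divisor of `P Q` is
uniquely `d₁ d₂` with `d₁ ∣ P`, `d₂ ∣ Q`, and `d₁ d₂ ∣ n ↔ d₁ ∣ n ∧ d₂ ∣ n`; so
`dsum u n = dsum u₁ n · dsum u₂ n`, `dsum e n = dsum e₁ n dsum u₂ n + dsum u₁ n dsum e₂ n` (the supports of
`u₁, e₁` are divisors of `P` etc.), and the same for the sums `∑ u d / d`; `free (B ∪ R) n = free B n · free R n`,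
`VR (B ∪ R) = VR B · VR R`. `low`: product of `0 ≤ free ≤ dsum u`. `up`:
`U₁ U₂ - ρ₁ ρ₂ = (U₁ - ρ₁) U₂ + ρ₁ (U₂ - ρ₂) ≤ E₁ U₂ + U₁ E₂` (`E₂ ≥ U₂ - ρ₂ ≥ 0`, `0 ≤ ρ₁ ≤ U₁`, `U₂ ≥ 0`).
`usum`: `(1 + η₁)(1 + η₂) ≤ 1 + η`; `esum`: `η₁ (1 + η₂) + (1 + η₁) η₂ = η`, `η = η₁ + η₂ + 2 η₁ η₂`. -/
theorem SW_mul (B R : Finset ℕ) (hB : ∀ ℓ ∈ B, ℓ.Prime) (hR : ∀ ℓ ∈ R, ℓ.Prime) (hd : Disjoint B R)
    (D₁ D₂ J₁ J₂ η₁ η₂ : ℝ) (hD₁ : 1 ≤ D₁) (hD₂ : 1 ≤ D₂) (hη₁ : 0 ≤ η₁) (hη₂ : 0 ≤ η₂)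
    (u₁ e₁ u₂ e₂ : ℕ → ℝ) (h₁ : SW B D₁ J₁ η₁ u₁ e₁) (h₂ : SW R D₂ J₂ η₂ u₂ e₂) :
    ∃ u e : ℕ → ℝ, SW (B ∪ R) (D₁ * D₂) (J₁ + J₂) (η₁ + η₂ + 2 * η₁ * η₂) u e := by
  obtain ⟨P, hPdef⟩ : ∃ P, P = ∏ ℓ ∈ B, ℓ := ⟨_, rfl⟩
  obtain ⟨Q, hQdef⟩ : ∃ Q, Q = ∏ ℓ ∈ R, ℓ := ⟨_, rfl⟩
  have hP : P ≠ 0 := by
    rw [hPdef, Finset.prod_ne_zero_iff]
    exact fun ℓ hℓ => (hB ℓ hℓ).ne_zero
  have hQ : Q ≠ 0 := by
    rw [hQdef, Finset.prod_ne_zero_iff]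
    exact fun ℓ hℓ => (hR ℓ hℓ).ne_zero
  have hPQ : Nat.Coprime P Q := by
    rw [hPdef, hQdef]
    refine Nat.Coprime.prod_left fun p hp => Nat.Coprime.prod_right fun r hr => ?_
    rw [Nat.coprime_primes (hB p hp) (hR r hr)]
    rintro rfl
    exact (Finset.disjoint_left.1 hd hp) hr
  have hprod : ∏ ℓ ∈ B ∪ R, ℓ = P * Q := by
    rw [Finset.prod_union hd, hPdef, hQdef]
  have hVR : VR (B ∪ R) = VR B * VR R := by
    unfold VR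
    exact Finset.prod_union hd
  have hJ₁ : 0 ≤ J₁ := le_trans (abs_nonneg _) (h₁.ebd 0)
  have hJ₂ : 0 ≤ J₂ := le_trans (abs_nonneg _) (h₂.ebd 0)
  have hVB := S2_VR_nonneg B hB
  have hVQ := S2_VR_nonneg R hR
  have su₁ : ∀ d, u₁ d ≠ 0 → d ∣ P ∧ (d : ℝ) ≤ D₁ := by rw [hPdef]; exact h₁.usupp
  have se₁ : ∀ d, e₁ d ≠ 0 → d ∣ P ∧ (d : ℝ) ≤ D₁ := by rw [hPdef]; exact h₁.esupp
  have su₂ : ∀ d, u₂ d ≠ 0 → d ∣ Q ∧ (d : ℝ) ≤ D₂ := by rw [hQdef]; exact h₂.usupp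
  have se₂ : ∀ d, e₂ d ≠ 0 → d ∣ Q ∧ (d : ℝ) ≤ D₂ := by rw [hQdef]; exact h₂.esupp
  have a1 := h₁.usum0
  have a2 := h₁.usum
  have a3 := h₁.esum0
  have a4 := h₁.esum
  have b1 := h₂.usum0
  have b2 := h₂.usum
  have b3 := h₂.esum0
  have b4 := h₂.esum
  rw [← hPdef] at a1 a2 a3 a4
  rw [← hQdef] at b1 b2 b3 b4
  have hD0 : (0 : ℝ) ≤ D₁ := by linarith
  refine ⟨S2_pr P Q u₁ u₂, fun d => S2_pr P Q e₁ u₂ d + S2_pr P Q u₁ e₂ d, ?_⟩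
  refine ⟨?_, ?_, ?_, ?_, ?_, ?_, ?_, ?_, ?_, ?_⟩
  · intro d h3
    rw [hprod]
    exact S2_level hPQ hD0 su₁ su₂ h3
  · intro d h3
    rw [hprod]
    by_cases h4 : S2_pr P Q e₁ u₂ d = 0
    · have h5 : S2_pr P Q u₁ e₂ d ≠ 0 := fun h6 => h3 (by
        change S2_pr P Q e₁ u₂ d + S2_pr P Q u₁ e₂ d = 0
        rw [h4, h6, add_zero])
      exact S2_level hPQ hD0 su₁ se₂ h5
    · exact S2_level hPQ hD0 se₁ su₂ h4
  · intro d
    have := S2_abs (P := P) (Q := Q) zero_le_one zero_le_one h₁.ubd h₂.ubd d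
    rwa [one_mul] at this
  · intro d
    have t1 := S2_abs (P := P) (Q := Q) zero_le_one hJ₁ h₁.ebd h₂.ubd d
    have t2 := S2_abs (P := P) (Q := Q) hJ₂ zero_le_one h₁.ubd h₂.ebd d
    rw [mul_one] at t1
    rw [one_mul] at t2
    exact le_trans (abs_add_le _ _) (add_le_add t1 t2)
  · intro n hn
    rw [S2_free_union, S2_dsum_pr hP hQ hPQ hn u₁ u₂ (fun d h => (su₁ d h).1) fun d h => (su₂ d h).1]
    exact mul_le_mul (h₁.low n hn) (h₂.low n hn) (S2_free_nonneg _ _)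
      (le_trans (S2_free_nonneg _ _) (h₁.low n hn))
  · intro n hn
    rw [S2_free_union, S2_dsum_add,
      S2_dsum_pr hP hQ hPQ hn u₁ u₂ (fun d h => (su₁ d h).1) fun d h => (su₂ d h).1,
      S2_dsum_pr hP hQ hPQ hn e₁ u₂ (fun d h => (se₁ d h).1) fun d h => (su₂ d h).1,
      S2_dsum_pr hP hQ hPQ hn u₁ e₂ (fun d h => (su₁ d h).1) fun d h => (se₂ d h).1]
    have c1 := h₁.low n hn
    have c2 := h₁.up n hn
    have c3 := h₂.low n hn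
    have c4 := h₂.up n hn
    have c5 := S2_free_nonneg B n
    have c6 := S2_free_nonneg R n
    have d1 : (dsum u₁ n - free B n) * dsum u₂ n ≤ dsum e₁ n * dsum u₂ n :=
      mul_le_mul_of_nonneg_right c2 (le_trans c6 c3)
    have d2 : free B n * (dsum u₂ n - free R n) ≤ dsum u₁ n * dsum e₂ n :=
      mul_le_mul c1 c4 (by linarith) (le_trans c5 c1)
    nlinarith
  · rw [hprod, S2_div_pr hP hQ hPQ]
    exact mul_nonneg a1 b1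
  · rw [hprod, S2_div_pr hP hQ hPQ, hVR]
    have d1 : (∑ d ∈ P.divisors, u₁ d / d) * (∑ d ∈ Q.divisors, u₂ d / d) ≤
        ((1 + η₁) * VR B) * ((1 + η₂) * VR R) :=
      mul_le_mul a2 b2 b1 (mul_nonneg (by linarith) hVB)
    have d2 : 0 ≤ (η₁ * η₂) * (VR B * VR R) :=
      mul_nonneg (mul_nonneg hη₁ hη₂) (mul_nonneg hVB hVQ)
    nlinarith
  · rw [hprod]
    have h5 : ∑ d ∈ (P * Q).divisors, (S2_pr P Q e₁ u₂ d + S2_pr P Q u₁ e₂ d) / (d : ℝ) =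
        (∑ d ∈ P.divisors, e₁ d / d) * (∑ d ∈ Q.divisors, u₂ d / d) +
          (∑ d ∈ P.divisors, u₁ d / d) * (∑ d ∈ Q.divisors, e₂ d / d) := by
      rw [← S2_div_pr hP hQ hPQ, ← S2_div_pr hP hQ hPQ, ← Finset.sum_add_distrib]
      exact Finset.sum_congr rfl fun d _ => add_div _ _ _
    rw [h5]
    exact add_nonneg (mul_nonneg a3 b1) (mul_nonneg a1 b3)
  · rw [hprod]
    have h5 : ∑ d ∈ (P * Q).divisors, (S2_pr P Q e₁ u₂ d + S2_pr P Q u₁ e₂ d) / (d : ℝ) =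
        (∑ d ∈ P.divisors, e₁ d / d) * (∑ d ∈ Q.divisors, u₂ d / d) +
          (∑ d ∈ P.divisors, u₁ d / d) * (∑ d ∈ Q.divisors, e₂ d / d) := by
      rw [← S2_div_pr hP hQ hPQ, ← S2_div_pr hP hQ hPQ, ← Finset.sum_add_distrib]
      exact Finset.sum_congr rfl fun d _ => add_div _ _ _
    rw [h5, hVR]
    have d1 : (∑ d ∈ P.divisors, e₁ d / d) * (∑ d ∈ Q.divisors, u₂ d / d) ≤
        (η₁ * VR B) * ((1 + η₂) * VR R) :=
      mul_le_mul a4 b2 b1 (mul_nonneg hη₁ hVB)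
    have d2 : (∑ d ∈ P.divisors, u₁ d / d) * (∑ d ∈ Q.divisors, e₂ d / d) ≤
        ((1 + η₁) * VR B) * (η₂ * VR R) :=
      mul_le_mul a2 b4 b3 (mul_nonneg (by linarith) hVB)
    nlinarith

end Pool.Agent.E3
end
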