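import Pool.Agent.Lib.MP_bae66e_nt.Mg.G001
import Pool.Agent.Lib.MP_bae66e_nt.Mg.G013
import Pool.Agent.Lib.MP_bae66e_nt.Mg.G005
import Pool.Agent.Lib.MP_bae66e_nt.Mg.G006
import Pool.Agent.Lib.MP_bae66e_nt.Rho

section

/-!
# S3a: a numerical inequality
-/

set_option autoImplicit false

namespace Pool.Agent.E3

open Finset

/-- PROOF. Factorials beat exponentials: with `κ b = exp (2L) L^(2b+1) / (2b+1)!` one has, for `b ≥ b₀(L)`,
`3 κ b ≤ exp (-b) (1 - exp (-1))`. -/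
theorem exists_b0 (L : ℝ) (hL : 1 ≤ L) : ∃ b0 : ℕ, ∀ b : ℕ, b0 ≤ b →
    3 * (Real.exp (2 * L) * (L ^ (2 * b + 1) / (2 * b + 1).factorial))
      ≤ Real.exp (-(b : ℝ)) * (1 - Real.exp (-1)) := by
  have hc : 0 < (1 - Real.exp (-1)) / (3 * Real.exp (2 * L)) := by
    have h1 : Real.exp (-1) < 1 := by
      rw [Real.exp_lt_one_iff]
      norm_num
    have h2 := Real.exp_pos (2 * L)
    have h3 : 0 < 1 - Real.exp (-1) := by linarith
    positivity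
  have ht := FloorSemiring.tendsto_pow_div_factorial_atTop (L * Real.exp 1)
  have hev := ht.eventually (gt_mem_nhds hc)
  obtain ⟨N, hN⟩ := Filter.eventually_atTop.1 hev
  refine ⟨N, fun b hb => ?_⟩
  have h1 := hN (2 * b + 1) (by omega)
  have h2 := Real.exp_pos (2 * L)
  have h3 : (L * Real.exp 1) ^ (2 * b + 1) = L ^ (2 * b + 1) * Real.exp ((2 * b + 1 : ℕ) : ℝ) := by
    rw [mul_pow, ← Real.exp_nat_mul, mul_one]
  rw [h3] at h1
  rw [lt_div_iff₀ (by positivity)] at h1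
  have h4 : Real.exp ((b : ℝ)) ≤ Real.exp ((2 * b + 1 : ℕ) : ℝ) := by
    apply Real.exp_le_exp.2
    push_cast
    have : (0 : ℝ) ≤ b := Nat.cast_nonneg b
    linarith
  have hf : (0 : ℝ) < ((2 * b + 1).factorial : ℝ) := by
    exact_mod_cast Nat.factorial_pos _
  have hL0 : (0 : ℝ) ≤ L ^ (2 * b + 1) := by positivity
  have h5 : L ^ (2 * b + 1) * Real.exp (b : ℝ) / (2 * b + 1).factorial * (3 * Real.exp (2 * L))
      ≤ 1 - Real.exp (-1) := by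
    refine le_trans ?_ h1.le
    gcongr
  have h6 : Real.exp (-(b : ℝ)) * Real.exp (b : ℝ) = 1 := by
    rw [← Real.exp_add]
    simp
  have h7 := mul_le_mul_of_nonneg_left h5 (Real.exp_pos (-(b : ℝ))).le
  refine le_trans (le_of_eq ?_) h7
  calc 3 * (Real.exp (2 * L) * (L ^ (2 * b + 1) / (2 * b + 1).factorial))
      = (Real.exp (-(b : ℝ)) * Real.exp (b : ℝ)) *
          (3 * (Real.exp (2 * L) * (L ^ (2 * b + 1) / (2 * b + 1).factorial))) := by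
        rw [h6, one_mul]
    _ = _ := by ring

end Pool.Agent.E3
end

section

/-!
# S3b: the weights of the fundamental lemma, induction
-/

set_option autoImplicit false

namespace Pool.Agent.E3

open Finset
open Pool.Agent.Lib.MP_bae66e_nt.AP3 (exists_L0)

private theorem S3b_VR_nonneg (R : Finset ℕ) (hR : ∀ ℓ ∈ R, ℓ.Prime) : 0 ≤ VR R := by
  unfold VR
  refine Finset.prod_nonneg fun ℓ hℓ => ?_
  have h1 : (1 : ℝ) ≤ ℓ := by exact_mod_cast (hR ℓ hℓ).one_lt.le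
  have h2 : 1 / (ℓ : ℝ) ≤ 1 := by
    rw [div_le_one (by linarith)]
    exact h1
  linarith

private theorem S3b_mono {R : Finset ℕ} (hR : ∀ ℓ ∈ R, ℓ.Prime) {D D' J J' η η' : ℝ}
    {u e : ℕ → ℝ} (h : SW R D J η u e) (hD : D ≤ D') (hJ : J ≤ J') (hη : η ≤ η') :
    SW R D' J' η' u e where
  usupp d hd := ⟨(h.usupp d hd).1, (h.usupp d hd).2.trans hD⟩
  esupp d hd := ⟨(h.esupp d hd).1, (h.esupp d hd).2.trans hD⟩
  ubd := h.ubd
  ebd d := (h.ebd d).trans hJ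
  low := h.low
  up := h.up
  usum0 := h.usum0
  usum := h.usum.trans (mul_le_mul_of_nonneg_right (by linarith) (S3b_VR_nonneg R hR))
  esum0 := h.esum0
  esum := h.esum.trans (mul_le_mul_of_nonneg_right hη (S3b_VR_nonneg R hR))

private theorem S3b_empty (D η : ℝ) (hD : 1 ≤ D) (hη : 0 ≤ η) :
    SW ∅ D 0 η (fun d => if d = 1 then 1 else 0) (fun _ => 0) := by
  have h1 : ∀ n : ℕ, 1 ≤ n → dsum (fun d => if d = 1 then (1 : ℝ) else 0) n = 1 := by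
    intro n hn
    unfold dsum
    rw [Finset.sum_ite_eq' n.divisors 1 fun _ => (1 : ℝ), if_pos]
    rw [Nat.mem_divisors]
    exact ⟨one_dvd n, by omega⟩
  have h2 : ∀ n : ℕ, free ∅ n = 1 := by
    intro n
    unfold free
    rw [if_pos]
    intro ℓ hℓ
    exact absurd hℓ (Finset.notMem_empty ℓ)
  have h3 : VR ∅ = 1 := by
    unfold VR
    exact Finset.prod_empty
  have h4 : ∑ d ∈ (∏ ℓ ∈ (∅ : Finset ℕ), ℓ).divisors, (if d = 1 then (1 : ℝ) else 0) / (d : ℝ) = 1 := by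
    rw [Finset.prod_empty, Nat.divisors_one, Finset.sum_singleton, if_pos rfl, Nat.cast_one, div_one]
  have h5 : ∑ d ∈ (∏ ℓ ∈ (∅ : Finset ℕ), ℓ).divisors, (0 : ℝ) / (d : ℝ) = 0 := by
    refine Finset.sum_eq_zero fun d _ => ?_
    rw [zero_div]
  refine ⟨?_, ?_, ?_, ?_, ?_, ?_, ?_, ?_, ?_, ?_⟩
  · intro d hd
    by_cases h : d = 1
    · subst h
      refine ⟨one_dvd _, ?_⟩
      rw [Nat.cast_one]
      exact hD
    · exact absurd (if_neg h) hd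
  · intro d hd
    exact absurd rfl hd
  · intro d
    by_cases h : d = 1
    · rw [if_pos h, abs_one]
    · rw [if_neg h, abs_zero]
      exact zero_le_one
  · intro d
    rw [abs_zero]
  · intro n hn
    rw [h1 n hn, h2 n]
  · intro n hn
    rw [h1 n hn, h2 n, sub_self]
    unfold dsum
    rw [Finset.sum_const_zero]
  · rw [h4]
    exact zero_le_one
  · rw [h4, h3, mul_one]
    linarith
  · rw [h5]
  · rw [h5, h3, mul_one]
    exact hη

/-- PROOF. Take `L` from `exists_L0` (`L0`), `b0` from `exists_b0`. Induction on `J`, for all `b, z, R`.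
`J = 0`: `z < 2`, `R = ∅`, `u 1 = 1`, `u d = 0` otherwise, `e = 0`. Step: `B = R.filter (Nat.sqrt z < ·)`,
`R' = R.filter (· ≤ Nat.sqrt z)`, `z' = Nat.sqrt z`, `z' < 2^(2^J)`; `block_SW` for `B` with `r = 2 b + 1`,
the induction hypothesis for `R'` with `b + 1`, and `SW_mul`. New level `z^(2b+1) z'^(4(b+1)+6) ≤ z^(4b+6)`
(`z'² ≤ z`; enlarge the level: `SW` is monotone in `D`, `J`, `η`), new `J`: `1 + J`, new `η`:
`κ + η' + 2 κ η' ≤ 3 κ + η' ≤ exp (-b)` with `η' = exp (-(b+1)) ≤ 1`. -/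
theorem fl_weights_J : ∃ b0 : ℕ, ∀ (J b z : ℕ) (R : Finset ℕ), b0 ≤ b → 1 ≤ z → z < 2 ^ (2 ^ J) →
    (∀ ℓ ∈ R, ℓ.Prime ∧ ℓ ≤ z) →
    ∃ u e : ℕ → ℝ, SW R ((z : ℝ) ^ (4 * b + 6)) J (Real.exp (-(b : ℝ))) u e := by
  obtain ⟨L, hL1, hL⟩ := exists_L0
  obtain ⟨b0, hb0⟩ := exists_b0 L hL1
  refine ⟨b0, fun J => ?_⟩
  induction J with
  | zero =>
    intro b z R hb hz1 hz hR
    have hz' : z = 1 := by
      rw [pow_zero, pow_one] at hz
      omega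
    have hR' : R = ∅ := by
      refine Finset.eq_empty_of_forall_notMem fun ℓ hℓ => ?_
      obtain ⟨h1, h2⟩ := hR ℓ hℓ
      have := h1.two_le
      omega
    subst hz'
    subst hR'
    refine ⟨fun d => if d = 1 then 1 else 0, fun _ => 0, ?_⟩
    rw [Nat.cast_zero]
    exact S3b_empty _ _ (by rw [Nat.cast_one, one_pow]) (Real.exp_pos _).le
  | succ J ih =>
    intro b z R hb hz1 hz hR
    obtain ⟨z', hz'⟩ : ∃ z', z' = Nat.sqrt z := ⟨_, rfl⟩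
    have hz'1 : 1 ≤ z' := by
      rw [hz', Nat.le_sqrt]
      omega
    have hz'2 : z' * z' ≤ z := by
      rw [hz']
      exact Nat.sqrt_le z
    have hz'3 : z' < 2 ^ (2 ^ J) := by
      rw [hz', Nat.sqrt_lt, ← pow_add]
      have h1 : 2 ^ J + 2 ^ J = 2 ^ (J + 1) := by rw [pow_succ]; ring
      rw [h1]
      exact hz
    obtain ⟨B, hB⟩ : ∃ B, B = R.filter (z' < ·) := ⟨_, rfl⟩
    obtain ⟨R', hR'⟩ : ∃ R', R' = R.filter (· ≤ z') := ⟨_, rfl⟩
    have hBp : ∀ ℓ ∈ B, ℓ.Prime ∧ ℓ ≤ z := by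
      intro ℓ hℓ
      rw [hB, Finset.mem_filter] at hℓ
      exact hR ℓ hℓ.1
    have hR'p : ∀ ℓ ∈ R', ℓ.Prime ∧ ℓ ≤ z' := by
      intro ℓ hℓ
      rw [hR', Finset.mem_filter] at hℓ
      exact ⟨(hR ℓ hℓ.1).1, hℓ.2⟩
    have hdis : Disjoint B R' := by
      rw [Finset.disjoint_left]
      intro ℓ h1 h2
      rw [hB, Finset.mem_filter] at h1
      rw [hR', Finset.mem_filter] at h2
      omega
    have hun : B ∪ R' = R := by
      ext ℓ
      rw [Finset.mem_union, hB, hR', Finset.mem_filter, Finset.mem_filter]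
      constructor
      · rintro (h | h)
        · exact h.1
        · exact h.1
      · intro h
        rcases Nat.lt_or_ge z' ℓ with h1 | h1
        · exact Or.inl ⟨h, h1⟩
        · exact Or.inr ⟨h, h1⟩
    have hBL : ∑ ℓ ∈ B, 1 / (ℓ : ℝ) ≤ L := by
      have h1 : B ⊆ (Ioc (Nat.sqrt z) z).filter Nat.Prime := by
        intro ℓ hℓ
        have h2 := hBp ℓ hℓ
        rw [hB, Finset.mem_filter] at hℓ
        rw [Finset.mem_filter, Finset.mem_Ioc, ← hz']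
        exact ⟨⟨hℓ.2, h2.2⟩, h2.1⟩
      refine le_trans (le_trans ?_ (Finset.sum_le_sum_of_subset_of_nonneg h1 ?_)) (hL z)
      · refine Finset.sum_le_sum fun ℓ _ => ?_
        exact div_le_div_of_nonneg_right (by norm_num) (Nat.cast_nonneg _)
      · intro ℓ _ _
        positivity
    obtain ⟨u₁, e₁, h₁⟩ := block_SW B z (2 * b + 1) L ⟨b, rfl⟩ hz1 hBp hBL
    obtain ⟨u₂, e₂, h₂⟩ := ih (b + 1) z' R' (by omega) hz'1 hz'3 hR'p
    have hzr : (1 : ℝ) ≤ z := by exact_mod_cast hz1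
    have hzr' : (1 : ℝ) ≤ z' := by exact_mod_cast hz'1
    have hκ0 : 0 ≤ Real.exp (2 * L) * (L ^ (2 * b + 1) / (2 * b + 1).factorial) := by positivity
    obtain ⟨u, e, h⟩ := SW_mul B R' (fun ℓ hℓ => (hBp ℓ hℓ).1) (fun ℓ hℓ => (hR'p ℓ hℓ).1) hdis
      ((z : ℝ) ^ (2 * b + 1)) ((z' : ℝ) ^ (4 * (b + 1) + 6)) 1 J _ _
      (one_le_pow₀ hzr) (one_le_pow₀ hzr') hκ0 (Real.exp_pos _).le u₁ e₁ u₂ e₂ h₁ h₂
    rw [hun] at h
    refine ⟨u, e, S3b_mono (fun ℓ hℓ => (hR ℓ hℓ).1) h ?_ ?_ ?_⟩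
    · have h1 : (z' : ℝ) ^ 2 ≤ z := by
        rw [sq]
        exact_mod_cast hz'2
      have h2 : (z' : ℝ) ^ (4 * (b + 1) + 6) ≤ (z : ℝ) ^ (2 * b + 5) := by
        have h3 : (z' : ℝ) ^ (4 * (b + 1) + 6) = ((z' : ℝ) ^ 2) ^ (2 * b + 5) := by
          rw [← pow_mul]
          congr 1
          ring
        rw [h3]
        exact pow_le_pow_left₀ (by positivity) h1 _
      calc (z : ℝ) ^ (2 * b + 1) * (z' : ℝ) ^ (4 * (b + 1) + 6)
          ≤ (z : ℝ) ^ (2 * b + 1) * (z : ℝ) ^ (2 * b + 5) :=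
            mul_le_mul_of_nonneg_left h2 (by positivity)
        _ = (z : ℝ) ^ (4 * b + 6) := by
            rw [← pow_add]
            congr 1
            ring
    · push_cast
      linarith
    · have h1 := hb0 b hb
      have h2 : Real.exp (-((b + 1 : ℕ) : ℝ)) = Real.exp (-(b : ℝ)) * Real.exp (-1) := by
        rw [← Real.exp_add]
        congr 1
        push_cast
        ring
      have h3 : Real.exp (-((b + 1 : ℕ) : ℝ)) ≤ 1 := by
        rw [Real.exp_le_one_iff]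
        have : (0 : ℝ) ≤ ((b + 1 : ℕ) : ℝ) := Nat.cast_nonneg _
        linarith
      have h4 : Real.exp (2 * L) * (L ^ (2 * b + 1) / (2 * b + 1).factorial) *
          Real.exp (-((b + 1 : ℕ) : ℝ)) ≤
          Real.exp (2 * L) * (L ^ (2 * b + 1) / (2 * b + 1).factorial) * 1 :=
        mul_le_mul_of_nonneg_left h3 hκ0
      nlinarith

end Pool.Agent.E3
end

section

/-!
# S3c: the weights of the fundamental lemma
-/

set_option autoImplicit false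

namespace Pool.Agent.E3

open Finset

private theorem S3c_J (z : ℕ) (hz : 2 ≤ z) : ∃ J : ℕ, z < 2 ^ (2 ^ J) ∧
    (J : ℝ) ≤ 3 + 3 * Real.log z := by
  have hex : ∃ J : ℕ, z < 2 ^ (2 ^ J) :=
    ⟨z, (Nat.lt_two_pow_self).trans (Nat.pow_lt_pow_right (by norm_num) Nat.lt_two_pow_self)⟩
  have hlz : 0 ≤ Real.log z := Real.log_natCast_nonneg z
  refine ⟨Nat.find hex, Nat.find_spec hex, ?_⟩
  rcases Nat.eq_zero_or_pos (Nat.find hex) with h0 | h0
  · rw [h0, Nat.cast_zero]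
    linarith
  · obtain ⟨j, hj⟩ : ∃ j, Nat.find hex = j + 1 := ⟨Nat.find hex - 1, by omega⟩
    have h1 : ¬ z < 2 ^ (2 ^ j) := Nat.find_min hex (by omega)
    have h2 : 2 ^ (2 ^ j) ≤ z := Nat.le_of_not_lt h1
    have h3 : (j : ℝ) * Real.log 2 ≤ Real.log z := by
      have h4 : ((2 : ℝ) ^ (2 ^ j : ℕ)) ≤ (z : ℝ) := by exact_mod_cast h2
      have h5 := Real.log_le_log (by positivity) h4
      rw [Real.log_pow] at h5
      have h6 : (j : ℝ) ≤ ((2 ^ j : ℕ) : ℝ) := by exact_mod_cast Nat.lt_two_pow_self.le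
      have h7 : (j : ℝ) * Real.log 2 ≤ ((2 ^ j : ℕ) : ℝ) * Real.log 2 :=
        mul_le_mul_of_nonneg_right h6 (Real.log_nonneg (by norm_num))
      linarith
    have h8 : (1 : ℝ) / 3 ≤ Real.log 2 := by
      have := Real.log_two_gt_d9
      linarith
    have h9 : (j : ℝ) * (1 / 3) ≤ (j : ℝ) * Real.log 2 :=
      mul_le_mul_of_nonneg_left h8 (Nat.cast_nonneg _)
    rw [hj]
    push_cast
    linarith

/-- PROOF. `fl_weights_J` with the least `J` such that `z < 2^(2^J)`: then `J = 0` or `2^(2^(J-1)) ≤ z`, so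
`2^(J-1) log 2 ≤ log z`, `J - 1 ≤ 2^(J-1) ≤ log z / log 2`, `J ≤ 1 + 2 log z`. -/
theorem fl_weights : ∃ b0 : ℕ, ∀ (b z : ℕ) (R : Finset ℕ), b0 ≤ b → 2 ≤ z →
    (∀ ℓ ∈ R, ℓ.Prime ∧ ℓ ≤ z) →
    ∃ u e : ℕ → ℝ, SW R ((z : ℝ) ^ (4 * b + 6)) (3 + 3 * Real.log z) (Real.exp (-(b : ℝ))) u e := by
  obtain ⟨b0, hb0⟩ := fl_weights_J
  refine ⟨b0, fun b z R hb hz hR => ?_⟩
  obtain ⟨J, hJ1, hJ2⟩ := S3c_J z hz
  obtain ⟨u, e, h⟩ := hb0 J b z R hb (by omega) hJ1 hR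
  refine ⟨u, e, h.usupp, h.esupp, h.ubd, fun d => (h.ebd d).trans hJ2, h.low, h.up, h.usum0, h.usum,
    h.esum0, h.esum⟩

end Pool.Agent.E3
end

section

/-!
# A1b: the variance by Cauchy-Schwarz
-/

set_option autoImplicit false

namespace Pool.Agent.E3

open Finset
open Pool.Agent.Lib.MP_bae66e_nt.LL (corr)

/-- PROOF. `Fr_eq` (`Fr n = 1/rho n`) and `sum_inv_rho_pow_four_le` (`Rho.lean`), `C = exp 30`. -/
theorem sum_Fr_four : ∃ C : ℝ, 1 ≤ C ∧ ∀ N : ℕ, ∑ n ∈ Icc 1 N, (Fr n) ^ 4 ≤ C * N := by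
  refine ⟨Real.exp 30, Real.one_le_exp (by norm_num), fun N => ?_⟩
  refine le_trans (le_of_eq ?_) (Pool.Agent.Lib.MP_bae66e_nt.sum_inv_rho_pow_four_le N)
  refine Finset.sum_congr rfl fun n hn => ?_
  have hn1 := (Finset.mem_Icc.mp hn).1
  rw [Fr_eq n (by omega), one_div_pow]

private theorem A1b_two (H : ℕ) (G : ℕ → ℝ) (hG : ∀ n, 0 ≤ G n) :
    ∑ d ∈ (Icc (-(H : ℤ)) (H : ℤ)).filter (fun d => d ≠ 0), G d.natAbs
      ≤ 2 * ∑ n ∈ Icc 1 H, G n := by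
  classical
  have hmaps : ∀ d ∈ (Icc (-(H : ℤ)) (H : ℤ)).filter (fun d => d ≠ 0), d.natAbs ∈ Icc 1 H := by
    intro d hd
    rw [Finset.mem_filter, Finset.mem_Icc] at hd
    rw [Finset.mem_Icc]
    omega
  rw [← Finset.sum_fiberwise_of_maps_to hmaps, Finset.mul_sum]
  refine Finset.sum_le_sum fun n _ => ?_
  have h1 : ∑ d ∈ ((Icc (-(H : ℤ)) (H : ℤ)).filter (fun d => d ≠ 0)).filter
      (fun d => d.natAbs = n), G d.natAbs =
      ∑ d ∈ ((Icc (-(H : ℤ)) (H : ℤ)).filter (fun d => d ≠ 0)).filter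
      (fun d => d.natAbs = n), G n :=
    Finset.sum_congr rfl fun d hd => by rw [(Finset.mem_filter.mp hd).2]
  rw [h1, Finset.sum_const, nsmul_eq_mul]
  refine mul_le_mul_of_nonneg_right ?_ (hG n)
  have h2 : #(((Icc (-(H : ℤ)) (H : ℤ)).filter (fun d => d ≠ 0)).filter
      (fun d => d.natAbs = n)) ≤ 2 := by
    refine (Finset.card_le_card (t := {(n : ℤ), -(n : ℤ)}) ?_).trans Finset.card_le_two
    intro d hd
    have h3 := (Finset.mem_filter.mp hd).2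
    rw [Finset.mem_insert, Finset.mem_singleton]
    omega
  exact_mod_cast h2

/-- PROOF. `C = √(2 C')`, `C'` from `sum_Fr_four` (and `≥ 1`). `var_expand`; the term `d = 0` is `≤ D₀ A₀` (`corr H E 0 ≥ 0` is a sum of squares,
`cc f N 0 ≤ A₀`, `0 ≤ A₀`). The others: Cauchy-Schwarz with `∑_{d ≠ 0} (corr)² ≤ ε H³` and
`∑_{0 < |d| ≤ H} (cc |d|)² ≤ 2 B² ∑_{d ≤ H} (Fr d)^4 ≤ 2 C' B² H` (`0 ≤ cc d ≤ B (Fr d)²`):
`√(ε H³) √(2 C' B² H) = √(2 C') √ε B H²`. -/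
theorem var_bound : ∃ C : ℝ, 1 ≤ C ∧ ∀ (H N : ℕ) (E : ℤ → ℝ) (f : ℕ → ℝ) (M : Finset ℕ) (A₀ B D₀ ε : ℝ),
    (∀ n : ℤ, ¬ (1 ≤ n ∧ n ≤ (H : ℤ)) → E n = 0) → f 0 = 0 → (∀ n, N ≤ n → f n = 0) → (∀ n, 0 ≤ f n) →
    0 ≤ A₀ → 0 ≤ B → 0 ≤ ε → cc f N 0 ≤ A₀ → (∀ d, 1 ≤ d → d ≤ H → cc f N d ≤ B * (Fr d) ^ 2) →
    corr H E 0 ≤ D₀ → ∑ d ∈ (Icc (-(H : ℤ)) (H : ℤ)).filter (fun d => d ≠ 0), (corr H E d) ^ 2 ≤ ε * (H : ℝ) ^ 3 →
    ∑ m ∈ M, (∑ t ∈ Icc 1 H, E (t : ℤ) * f (m - t)) ^ 2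
      ≤ D₀ * A₀ + C * Real.sqrt ε * B * (H : ℝ) ^ 2 := by
  obtain ⟨C', hC', hFr⟩ := sum_Fr_four
  refine ⟨Real.sqrt (2 * C'), ?_, ?_⟩
  · rw [Real.one_le_sqrt]
    linarith
  intro H N E f M A₀ B D₀ ε hE h0 hN hf hA₀ hB hε hcc0 hcc hD₀ hcorr
  refine (var_expand H N E hE f h0 hN M).trans ?_
  have hmem : (0 : ℤ) ∈ Icc (-(H : ℤ)) (H : ℤ) := by
    rw [Finset.mem_Icc]
    omega
  rw [← Finset.add_sum_erase _ _ hmem, ← Finset.filter_ne']
  refine add_le_add ?_ ?_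
  · have hc0 : 0 ≤ corr H E 0 := by
      unfold Pool.Agent.Lib.MP_bae66e_nt.LL.corr
      refine Finset.sum_nonneg fun n _ => ?_
      rw [add_zero]
      exact mul_self_nonneg _
    calc corr H E 0 * cc f N (0 : ℤ).natAbs ≤ corr H E 0 * A₀ :=
          mul_le_mul_of_nonneg_left hcc0 hc0
      _ ≤ D₀ * A₀ := mul_le_mul_of_nonneg_right hD₀ hA₀
  · have hccnn : ∀ d, 0 ≤ cc f N d := fun d => Finset.sum_nonneg fun n _ => mul_nonneg (hf _) (hf _)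
    have h1 : ∑ d ∈ (Icc (-(H : ℤ)) (H : ℤ)).filter (fun d => d ≠ 0), (cc f N d.natAbs) ^ 2
        ≤ 2 * C' * B ^ 2 * H := by
      calc ∑ d ∈ (Icc (-(H : ℤ)) (H : ℤ)).filter (fun d => d ≠ 0), (cc f N d.natAbs) ^ 2
          ≤ ∑ d ∈ (Icc (-(H : ℤ)) (H : ℤ)).filter (fun d => d ≠ 0),
              (B ^ 2 * (Fr d.natAbs) ^ 4) := by
            refine Finset.sum_le_sum fun d hd => ?_
            rw [Finset.mem_filter, Finset.mem_Icc] at hd
            have h2 := hcc d.natAbs (by omega) (by omega)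
            calc (cc f N d.natAbs) ^ 2 ≤ (B * (Fr d.natAbs) ^ 2) ^ 2 :=
                  pow_le_pow_left₀ (hccnn _) h2 2
              _ = B ^ 2 * (Fr d.natAbs) ^ 4 := by ring
        _ ≤ 2 * ∑ n ∈ Icc 1 H, (B ^ 2 * (Fr n) ^ 4) :=
            A1b_two H (fun n => B ^ 2 * (Fr n) ^ 4) (fun n => by positivity)
        _ = 2 * B ^ 2 * ∑ n ∈ Icc 1 H, (Fr n) ^ 4 := by rw [← Finset.mul_sum]; ring
        _ ≤ 2 * B ^ 2 * (C' * H) := mul_le_mul_of_nonneg_left (hFr H) (by positivity)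
        _ = 2 * C' * B ^ 2 * H := by ring
    have hHH : (0 : ℝ) ≤ H := Nat.cast_nonneg H
    calc ∑ d ∈ (Icc (-(H : ℤ)) (H : ℤ)).filter (fun d => d ≠ 0), corr H E d * cc f N d.natAbs
        ≤ Real.sqrt (∑ d ∈ (Icc (-(H : ℤ)) (H : ℤ)).filter (fun d => d ≠ 0), (corr H E d) ^ 2) *
          Real.sqrt (∑ d ∈ (Icc (-(H : ℤ)) (H : ℤ)).filter (fun d => d ≠ 0),
            (cc f N d.natAbs) ^ 2) := Real.sum_mul_le_sqrt_mul_sqrt _ _ _
      _ ≤ Real.sqrt (ε * (H : ℝ) ^ 3) * Real.sqrt (2 * C' * B ^ 2 * H) :=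
          mul_le_mul (Real.sqrt_le_sqrt hcorr) (Real.sqrt_le_sqrt h1) (Real.sqrt_nonneg _)
            (Real.sqrt_nonneg _)
      _ = Real.sqrt (2 * C') * Real.sqrt ε * B * (H : ℝ) ^ 2 := by
          rw [← Real.sqrt_mul (by positivity)]
          have e : ε * (H : ℝ) ^ 3 * (2 * C' * B ^ 2 * H) = (2 * C') * ε * (B * (H : ℝ) ^ 2) ^ 2 := by
            ring
          rw [e, Real.sqrt_mul (by positivity), Real.sqrt_sq (by positivity),
            Real.sqrt_mul (by positivity)]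
          ring

end Pool.Agent.E3
end
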