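import Pool.Agent.Lib.MP_bae66e_nt.Mg.G006
import Pool.Agent.Lib.MP_bae66e_nt.Mg.G003
import Pool.Agent.Lib.MP_bae66e_nt.Mg.G012

section

/-!
# G8: the twist by `n^(-σ)`
-/

set_option autoImplicit false

namespace Pool.Agent.E3

open Finset MeasureTheory Real

/-- the coefficients `a(n) n^(-σ)` -/
noncomputable def tw (σ : ℝ) (a : ℕ → ℂ) (n : ℕ) : ℂ := a n * ((Real.exp (-(σ * Real.log n)) : ℝ) : ℂ)

private theorem G8_norm_ph (u x : ℝ) : ‖ph u x‖ = 1 := by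
  unfold ph; exact Complex.norm_exp_ofReal_mul_I _

private theorem G8_gs_nonneg (β x y : ℝ) : 0 ≤ gs β x y := (Real.exp_pos _).le

private theorem G8_norm_tw (σ : ℝ) (a : ℕ → ℂ) (n : ℕ) :
    ‖tw σ a n‖ = ‖a n‖ * Real.exp (-(σ * Real.log n)) := by
  unfold tw
  rw [norm_mul, Complex.norm_real, Real.norm_eq_abs, abs_of_nonneg (Real.exp_pos _).le]

/-- PROOF. `- β (x - v)² - σ v = - β (x - σ/(2β) - v)² - σ x + σ²/(4β)`. -/
theorem gs_tw (β σ x v : ℝ) (hβ : 0 < β) :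
    Real.exp (-(σ * v)) * gs β x v
      = Real.exp (-(σ * x) + σ ^ 2 / (4 * β)) * gs β (x - σ / (2 * β)) v := by
  unfold gs
  rw [← Real.exp_add, ← Real.exp_add]
  congr 1
  field_simp
  ring

/-- PROOF. `gs_tw`. -/
theorem WIN_tw (a : ℕ → ℂ) (S : Finset ℕ) (β σ t x : ℝ) (hβ : 0 < β) :
    WIN (tw σ a) β S t x
      = ((Real.exp (-(σ * x) + σ ^ 2 / (4 * β)) : ℝ) : ℂ) * WIN a β S t (x - σ / (2 * β)) := by
  unfold WIN tw
  rw [Finset.mul_sum]
  refine Finset.sum_congr rfl fun n _ => ?_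
  have h := gs_tw β σ x (Real.log n) hβ
  have h' : ((Real.exp (-(σ * Real.log n)) : ℝ) : ℂ) * ((gs β x (Real.log n) : ℝ) : ℂ)
      = ((Real.exp (-(σ * x) + σ ^ 2 / (4 * β)) : ℝ) : ℂ) * ((gs β (x - σ / (2 * β)) (Real.log n) : ℝ) : ℂ) := by
    exact_mod_cast congrArg (fun r : ℝ => (r : ℂ)) h
  push_cast at h' ⊢
  linear_combination (a n * ph t (Real.log n) / (n : ℂ)) * h'

/-- the pointwise bound of the twisted windows of the norms -/
private theorem G8_pt (β : ℝ) (hβ : 0 < β) (a : ℕ → ℂ) (S : Finset ℕ) (σ τ : ℝ) (hσ : 0 < σ) (hσ1 : σ ≤ 1)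
    (hS : ∀ n ∈ S, 1 ≤ n) (hτ : ∀ x : ℝ, ∑ n ∈ S, ‖a n‖ * gs β x (Real.log n) / n ≤ τ) (hτ0 : 0 ≤ τ) (x : ℝ) :
    ∑ n ∈ S, ‖tw σ a n‖ * (gs β x (Real.log n) / n)
      ≤ τ * (Real.exp (1 / (4 * β)) * (Set.Ioi (0 : ℝ)).indicator (fun x => Real.exp (-(σ * x))) x + gs β x 0) := by
  by_cases hx : 0 < x
  · rw [Set.indicator_of_mem (show x ∈ Set.Ioi (0 : ℝ) from hx)]
    have h1 : ∑ n ∈ S, ‖tw σ a n‖ * (gs β x (Real.log n) / n)
        = Real.exp (-(σ * x) + σ ^ 2 / (4 * β)) * ∑ n ∈ S, ‖a n‖ * gs β (x - σ / (2 * β)) (Real.log n) / n := by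
      rw [Finset.mul_sum]
      refine Finset.sum_congr rfl fun n _ => ?_
      rw [G8_norm_tw]
      have h := gs_tw β σ x (Real.log n) hβ
      calc ‖a n‖ * Real.exp (-(σ * Real.log n)) * (gs β x (Real.log n) / n)
          = ‖a n‖ / n * (Real.exp (-(σ * Real.log n)) * gs β x (Real.log n)) := by ring
        _ = ‖a n‖ / n * (Real.exp (-(σ * x) + σ ^ 2 / (4 * β)) * gs β (x - σ / (2 * β)) (Real.log n)) := by rw [h]
        _ = _ := by ring
    rw [h1]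
    have h2 : Real.exp (-(σ * x) + σ ^ 2 / (4 * β)) ≤ Real.exp (1 / (4 * β)) * Real.exp (-(σ * x)) := by
      rw [← Real.exp_add]
      apply Real.exp_le_exp.mpr
      have h3 : σ ^ 2 / (4 * β) ≤ 1 / (4 * β) := by
        apply div_le_div_of_nonneg_right _ (by positivity)
        nlinarith
      linarith
    have h4 := hτ (x - σ / (2 * β))
    calc _ ≤ Real.exp (-(σ * x) + σ ^ 2 / (4 * β)) * τ := mul_le_mul_of_nonneg_left h4 (Real.exp_pos _).le
      _ ≤ (Real.exp (1 / (4 * β)) * Real.exp (-(σ * x))) * τ := mul_le_mul_of_nonneg_right h2 hτ0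
      _ ≤ _ := by
        have := mul_nonneg hτ0 (G8_gs_nonneg β x 0)
        linarith
  · rw [Set.indicator_of_notMem (show x ∉ Set.Ioi (0 : ℝ) from hx), mul_zero, zero_add]
    have hx' : x ≤ 0 := not_lt.mp hx
    have h1 : ∑ n ∈ S, ‖tw σ a n‖ * (gs β x (Real.log n) / n)
        ≤ gs β x 0 * ∑ n ∈ S, ‖a n‖ * gs β 0 (Real.log n) / n := by
      rw [Finset.mul_sum]
      refine Finset.sum_le_sum fun n hn => ?_
      rw [G8_norm_tw]
      have hlog : 0 ≤ Real.log n := Real.log_nonneg (by exact_mod_cast hS n hn)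
      have h2 : Real.exp (-(σ * Real.log n)) * gs β x (Real.log n) ≤ gs β x 0 * gs β 0 (Real.log n) := by
        unfold gs
        rw [← Real.exp_add, ← Real.exp_add]
        apply Real.exp_le_exp.mpr
        have h3 : 0 ≤ σ * Real.log n := mul_nonneg hσ.le hlog
        have h4 : 0 ≤ β * (-x * Real.log n) := mul_nonneg hβ.le (mul_nonneg (by linarith) hlog)
        nlinarith
      calc ‖a n‖ * Real.exp (-(σ * Real.log n)) * (gs β x (Real.log n) / n)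
          = ‖a n‖ / n * (Real.exp (-(σ * Real.log n)) * gs β x (Real.log n)) := by ring
        _ ≤ ‖a n‖ / n * (gs β x 0 * gs β 0 (Real.log n)) := mul_le_mul_of_nonneg_left h2 (by positivity)
        _ = _ := by ring
    have h5 := mul_le_mul_of_nonneg_left (hτ 0) (G8_gs_nonneg β x 0)
    linarith

private theorem G8_WIN_le (a : ℕ → ℂ) (S : Finset ℕ) (β t x : ℝ) :
    ‖WIN a β S t x‖ ≤ ∑ n ∈ S, ‖a n‖ * (gs β x (Real.log n) / n) := by
  unfold WIN
  refine (norm_sum_le _ _).trans (Finset.sum_le_sum fun n _ => ?_)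
  rw [norm_mul, norm_mul, G8_norm_ph, mul_one, Complex.norm_real, Real.norm_eq_abs,
    abs_of_nonneg (div_nonneg (G8_gs_nonneg _ _ _) (Nat.cast_nonneg n))]

private theorem G8_tau_nonneg (β : ℝ) (a : ℕ → ℂ) (S : Finset ℕ) (τ : ℝ)
    (hτ : ∀ x : ℝ, ∑ n ∈ S, ‖a n‖ * gs β x (Real.log n) / n ≤ τ) : 0 ≤ τ := by
  refine le_trans (Finset.sum_nonneg fun n _ => ?_) (hτ 0)
  exact div_nonneg (mul_nonneg (norm_nonneg _) (G8_gs_nonneg _ _ _)) (Nat.cast_nonneg n)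

private theorem G8_exp_int (c : ℝ) (hc : 0 < c) :
    Integrable (fun x => (Set.Ioi (0 : ℝ)).indicator (fun x => Real.exp (-(c * x))) x) ∧
    ∫ x, (Set.Ioi (0 : ℝ)).indicator (fun x => Real.exp (-(c * x))) x = 1 / c := by
  have h1 : (fun x : ℝ => Real.exp (-(c * x))) = fun x : ℝ => Real.exp (-c * x) := by
    funext x; congr 1; ring
  have h0 : -c < 0 := by linarith
  constructor
  · rw [h1]
    exact (integrableOn_exp_mul_Ioi h0 0).integrable_indicator measurableSet_Ioi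
  · rw [integral_indicator measurableSet_Ioi, h1, integral_exp_mul_Ioi h0 0]
    simp

/-- PROOF. By `WIN_tw`, for `x ≥ 0`: `‖WIN (tw σ a) β S t x‖ ≤ exp (- σ x + σ²/(4β)) τ`. For `x ≤ 0`: since
`log n ≥ 0`, `(x - log n)² ≥ x² + (log n)²`, so `gs β x (log n) ≤ exp (- β x²) gs β 0 (log n)` and
`‖WIN (tw σ a) β S t x‖ ≤ exp (- β x²) τ`. So the integral is
`≤ τ² (exp (1/(2β)) ∫_0^∞ exp (- 2σ x) dx + √(π/(2β))) ≤ τ² (exp (1/(2β)) / σ + √(π/(2β)))`, and `1 ≤ 1/σ`. -/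
theorem tw_ms (β : ℝ) (hβ : 0 < β) : ∃ C : ℝ, 1 ≤ C ∧ ∀ (a : ℕ → ℂ) (S : Finset ℕ) (σ t τ : ℝ), 0 < σ → σ ≤ 1 →
    (∀ n ∈ S, 1 ≤ n) → (∀ x : ℝ, ∑ n ∈ S, ‖a n‖ * gs β x (Real.log n) / n ≤ τ) →
    ∫ x : ℝ, ‖WIN (tw σ a) β S t x‖ ^ 2 ≤ C * τ ^ 2 / σ := by
  refine ⟨2 * Real.exp (1 / (4 * β)) ^ 2 + 2 * Real.sqrt (π / (2 * β)), ?_, ?_⟩
  · have h1 : 1 ≤ Real.exp (1 / (4 * β)) := Real.one_le_exp (by positivity)
    have h2 : 0 ≤ Real.sqrt (π / (2 * β)) := Real.sqrt_nonneg _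
    nlinarith
  intro a S σ t τ hσ hσ1 hS hτ
  have hτ0 := G8_tau_nonneg β a S τ hτ
  set E := Real.exp (1 / (4 * β)) with hE
  have hE0 : 0 < E := Real.exp_pos _
  have hpt : ∀ x : ℝ, ‖WIN (tw σ a) β S t x‖ ^ 2
      ≤ 2 * τ ^ 2 * E ^ 2 * (Set.Ioi (0 : ℝ)).indicator (fun x => Real.exp (-(2 * σ * x))) x
        + 2 * τ ^ 2 * gs (2 * β) x 0 := by
    intro x
    have h1 := (G8_WIN_le (tw σ a) S β t x).trans (G8_pt β hβ a S σ τ hσ hσ1 hS hτ hτ0 x)
    have h2 := pow_le_pow_left₀ (norm_nonneg _) h1 2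
    refine h2.trans ?_
    have h3 : ((Set.Ioi (0 : ℝ)).indicator (fun x => Real.exp (-(σ * x))) x) ^ 2
        = (Set.Ioi (0 : ℝ)).indicator (fun x => Real.exp (-(2 * σ * x))) x := by
      by_cases hx : x ∈ Set.Ioi (0 : ℝ)
      · rw [Set.indicator_of_mem hx, Set.indicator_of_mem hx, ← Real.exp_nat_mul]
        congr 1
        push_cast
        ring
      · rw [Set.indicator_of_notMem hx, Set.indicator_of_notMem hx]
        norm_num
    have h4 : (gs β x 0) ^ 2 = gs (2 * β) x 0 := by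
      unfold gs
      rw [← Real.exp_nat_mul]
      congr 1
      push_cast
      ring
    rw [← h3, ← h4]
    set u := (Set.Ioi (0 : ℝ)).indicator (fun x => Real.exp (-(σ * x))) x with hu
    set v := gs β x 0 with hv
    nlinarith [mul_nonneg (sq_nonneg τ) (sq_nonneg (E * u - v))]
  obtain ⟨hi1, hI1⟩ := G8_exp_int (2 * σ) (by linarith)
  have hi2 := gs_integrable (2 * β) 0 (by linarith)
  have hI2 := gs_integral (2 * β) 0 (by linarith)
  have hi0 : Integrable (fun x : ℝ => ‖WIN (tw σ a) β S t x‖ ^ 2) := (planch_WIN (tw σ a) S β t hβ).1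
  have hmono := integral_mono hi0 ((hi1.const_mul (2 * τ ^ 2 * E ^ 2)).add (hi2.const_mul (2 * τ ^ 2))) hpt
  refine hmono.trans ?_
  rw [integral_add' (hi1.const_mul _) (hi2.const_mul _), integral_const_mul, integral_const_mul, hI1, hI2]
  have h1 : 2 * τ ^ 2 * Real.sqrt (π / (2 * β)) ≤ 2 * τ ^ 2 * Real.sqrt (π / (2 * β)) / σ := by
    rw [le_div_iff₀ hσ]
    exact mul_le_of_le_one_right (by positivity) hσ1
  have h2 : 2 * τ ^ 2 * E ^ 2 * (1 / (2 * σ)) ≤ 2 * τ ^ 2 * E ^ 2 / σ := by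
    rw [mul_one_div]
    apply div_le_div_of_nonneg_left (by positivity) hσ
    linarith
  calc _ ≤ 2 * τ ^ 2 * E ^ 2 / σ + 2 * τ ^ 2 * Real.sqrt (π / (2 * β)) / σ := by linarith
    _ = _ := by ring

/-- PROOF. `∑ ‖a n‖ n^(-1-σ) = √(β/π) ∫ ∑ ‖a n‖ exp (- σ log n) gs β x (log n) / n dx` and the bounds of `tw_ms`:
the integrand is `≤ τ exp (- σ x + σ²/(4β))` for `x ≥ 0` and `≤ τ exp (- β x²)` for `x ≤ 0`. -/
theorem tw_sup (β : ℝ) (hβ : 0 < β) : ∃ C : ℝ, 1 ≤ C ∧ ∀ (a : ℕ → ℂ) (S : Finset ℕ) (σ τ : ℝ), 0 < σ → σ ≤ 1 →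
    (∀ n ∈ S, 1 ≤ n) → (∀ x : ℝ, ∑ n ∈ S, ‖a n‖ * gs β x (Real.log n) / n ≤ τ) →
    ∑ n ∈ S, ‖tw σ a n‖ / n ≤ C * τ / σ := by
  set P := Real.sqrt (π / β) with hP
  have hP0 : 0 < P := Real.sqrt_pos.mpr (by positivity)
  refine ⟨Real.exp (1 / (4 * β)) / P + 1, ?_, ?_⟩
  · have : 0 ≤ Real.exp (1 / (4 * β)) / P := by positivity
    linarith
  intro a S σ τ hσ hσ1 hS hτ
  have hτ0 := G8_tau_nonneg β a S τ hτ
  set E := Real.exp (1 / (4 * β)) with hE
  have hE0 : 0 < E := Real.exp_pos _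
  obtain ⟨hi1, hI1⟩ := G8_exp_int σ hσ
  have hi2 := gs_integrable β 0 hβ
  have hI2 := gs_integral β 0 hβ
  have hterm : ∀ n ∈ S, Integrable (fun x : ℝ => ‖tw σ a n‖ * (gs β x (Real.log n) / n)) := by
    intro n _
    exact ((gs_integrable β (Real.log n) hβ).div_const _).const_mul _
  have hi0 : Integrable (fun x : ℝ => ∑ n ∈ S, ‖tw σ a n‖ * (gs β x (Real.log n) / n)) :=
    integrable_finsetSum _ hterm
  have hI0 : ∫ x : ℝ, ∑ n ∈ S, ‖tw σ a n‖ * (gs β x (Real.log n) / n) = P * ∑ n ∈ S, ‖tw σ a n‖ / n := by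
    rw [integral_finsetSum _ hterm, Finset.mul_sum]
    refine Finset.sum_congr rfl fun n _ => ?_
    rw [integral_const_mul, integral_div, gs_integral β _ hβ]
    ring
  have hi3 : Integrable (fun x : ℝ => τ * (E * (Set.Ioi (0 : ℝ)).indicator (fun x => Real.exp (-(σ * x))) x + gs β x 0)) :=
    ((hi1.const_mul E).add hi2).const_mul τ
  have hmono := integral_mono hi0 hi3 (G8_pt β hβ a S σ τ hσ hσ1 hS hτ hτ0)
  rw [hI0, integral_const_mul, integral_add (hi1.const_mul E) hi2, integral_const_mul, hI1, hI2] at hmono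
  have h1 : ∑ n ∈ S, ‖tw σ a n‖ / n ≤ τ * (E * (1 / σ) + P) / P := by
    rw [le_div_iff₀ hP0]
    linarith
  refine h1.trans ?_
  have h2 : τ * (E * (1 / σ) + P) / P = E / P * τ / σ + τ := by
    field_simp
  rw [h2]
  have h3 : τ ≤ τ / σ := by
    rw [le_div_iff₀ hσ]
    exact mul_le_of_le_one_right hτ0 hσ1
  calc E / P * τ / σ + τ ≤ E / P * τ / σ + τ / σ := by linarith
    _ = _ := by ring

end Pool.Agent.E3
end

section

/-!
# G7: the mean square of a bilinear window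
-/

set_option autoImplicit false

namespace Pool.Agent.E3

open Finset MeasureTheory Real

private lemma G7_exp (y T₀ : ℝ) (hT₀ : 0 ≤ T₀) (h : T₀ / 2 ≤ |y|) :
    Real.exp (-(y ^ 2 / (2 * 2))) ≤ Real.exp (-(T₀ ^ 2 / 32)) * Real.exp (-(y ^ 2 / (2 * 4))) := by
  rw [← Real.exp_add]
  apply Real.exp_le_exp.mpr
  have h1 : (T₀ / 2) ^ 2 ≤ |y| ^ 2 := pow_le_pow_left₀ (by positivity) h 2
  rw [sq_abs] at h1
  nlinarith

private lemma G7_pt (A B E E' e M b₀ : ℝ) (hA : 0 ≤ A) (hB : 0 ≤ B) (hE : 0 ≤ E) (hE' : 0 ≤ E')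
    (he : 0 ≤ e) (h : A ≤ M ∨ (B ≤ b₀ ∧ E ≤ e * E')) :
    E * (A ^ 2 * B ^ 2) ≤ M ^ 2 * (E * B ^ 2) + e * b₀ ^ 2 * (E' * A ^ 2) := by
  rcases h with h | ⟨h1, h2⟩
  · have h3 : A ^ 2 ≤ M ^ 2 := pow_le_pow_left₀ hA h 2
    have h4 : 0 ≤ E * B ^ 2 := mul_nonneg hE (sq_nonneg B)
    have h5 : 0 ≤ e * b₀ ^ 2 * (E' * A ^ 2) :=
      mul_nonneg (mul_nonneg he (sq_nonneg b₀)) (mul_nonneg hE' (sq_nonneg A))
    calc E * (A ^ 2 * B ^ 2) = A ^ 2 * (E * B ^ 2) := by ring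
      _ ≤ M ^ 2 * (E * B ^ 2) := mul_le_mul_of_nonneg_right h3 h4
      _ ≤ _ := le_add_of_nonneg_right h5
  · have h3 : B ^ 2 ≤ b₀ ^ 2 := pow_le_pow_left₀ hB h1 2
    have h4 : 0 ≤ M ^ 2 * (E * B ^ 2) := mul_nonneg (sq_nonneg M) (mul_nonneg hE (sq_nonneg B))
    calc E * (A ^ 2 * B ^ 2) = (E * A ^ 2) * B ^ 2 := by ring
      _ ≤ (e * E' * A ^ 2) * b₀ ^ 2 := by
          apply mul_le_mul _ h3 (sq_nonneg B)
          · exact mul_nonneg (mul_nonneg he hE') (sq_nonneg A)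
          · exact mul_le_mul_of_nonneg_right h2 (sq_nonneg A)
      _ = e * b₀ ^ 2 * (E' * A ^ 2) := by ring
      _ ≤ _ := le_add_of_nonneg_left h4

/-- PROOF. `planch_BW` with `β = 2`: the left side is `(1/4) ∫ exp (- y²/4) |A(t+y)|² |B(t+y)|² dy`. Split the `y`:
(good) `T₀/2 ≤ |t + y| ≤ 2U`: `|A| ≤ M`, contribution `≤ (M²/4) ∫ exp (-y²/4) |B(t+y)|² dy = M² ∫ ‖WIN b 2 S' t x‖² dx`
(`planch_WIN`, `β = 2`). (bad) the others: if `|t+y| < T₀/2` then `|y| ≥ |t| - T₀/2 ≥ T₀/2`; if `|t+y| > 2U` then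
`|y| ≥ U ≥ |t| ≥ T₀`. So `exp (- y²/4) ≤ exp (- T₀²/32) exp (- y²/8)`, and with `|B| ≤ b₀` the contribution is
`≤ (1/4) exp (- T₀²/32) b₀² ∫ exp (- y²/8) |A(t+y)|² dy = 2 exp (- T₀²/32) b₀² ∫ ‖WIN a 4 S t x‖² dx`
(`planch_WIN` with `β = 4`). -/
theorem BW_ms (a b : ℕ → ℂ) (S S' : Finset ℕ) (t T₀ U M b₀ : ℝ) (hT₀ : 0 ≤ T₀) (ht : T₀ ≤ |t|) (htU : |t| ≤ U)
    (hM : ∀ u : ℝ, T₀ / 2 ≤ |u| → |u| ≤ 2 * U → ‖DP a S u‖ ≤ M)
    (hb₀ : ∀ u : ℝ, ‖DP b S' u‖ ≤ b₀) :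
    ∫ x : ℝ, ‖BW a b S S' 2 t x‖ ^ 2
      ≤ M ^ 2 * (∫ x : ℝ, ‖WIN b 2 S' t x‖ ^ 2)
        + 2 * Real.exp (-(T₀ ^ 2 / 32)) * b₀ ^ 2 * (∫ x : ℝ, ‖WIN a 4 S t x‖ ^ 2) := by
  obtain ⟨-, hBi, hBe⟩ := planch_BW a b S S' 2 t (by norm_num)
  obtain ⟨-, hb2, hbe⟩ := planch_WIN b S' 2 t (by norm_num)
  obtain ⟨-, ha4, hae⟩ := planch_WIN a S 4 t (by norm_num)
  have hpt : ∀ y : ℝ, Real.exp (-(y ^ 2 / (2 * 2))) * (‖DP a S (t + y)‖ ^ 2 * ‖DP b S' (t + y)‖ ^ 2)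
      ≤ M ^ 2 * (Real.exp (-(y ^ 2 / (2 * 2))) * ‖DP b S' (t + y)‖ ^ 2)
        + Real.exp (-(T₀ ^ 2 / 32)) * b₀ ^ 2 *
          (Real.exp (-(y ^ 2 / (2 * 4))) * ‖DP a S (t + y)‖ ^ 2) := by
    intro y
    refine G7_pt _ _ _ _ _ _ _ (norm_nonneg _) (norm_nonneg _) (Real.exp_pos _).le
      (Real.exp_pos _).le (Real.exp_pos _).le ?_
    by_cases hgood : T₀ / 2 ≤ |t + y| ∧ |t + y| ≤ 2 * U
    · exact Or.inl (hM _ hgood.1 hgood.2)
    · refine Or.inr ⟨hb₀ _, G7_exp y T₀ hT₀ ?_⟩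
      have h1 : |t| ≤ |t + y| + |y| := by
        have := abs_sub (t + y) y
        rwa [add_sub_cancel_right] at this
      have h2 : |t + y| ≤ |t| + |y| := abs_add_le t y
      by_cases hlow : T₀ / 2 ≤ |t + y|
      · have h3 : 2 * U < |t + y| := by
          by_contra hcon
          exact hgood ⟨hlow, not_lt.mp hcon⟩
        linarith
      · have h3 : |t + y| < T₀ / 2 := not_le.mp hlow
        linarith
  have hint := integral_mono hBi ((hb2.const_mul (M ^ 2)).add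
    (ha4.const_mul (Real.exp (-(T₀ ^ 2 / 32)) * b₀ ^ 2))) hpt
  have hsum : ∫ y : ℝ, (M ^ 2 * (Real.exp (-(y ^ 2 / (2 * 2))) * ‖DP b S' (t + y)‖ ^ 2)
        + Real.exp (-(T₀ ^ 2 / 32)) * b₀ ^ 2 *
          (Real.exp (-(y ^ 2 / (2 * 4))) * ‖DP a S (t + y)‖ ^ 2)) =
      M ^ 2 * (∫ y : ℝ, Real.exp (-(y ^ 2 / (2 * 2))) * ‖DP b S' (t + y)‖ ^ 2) +
        Real.exp (-(T₀ ^ 2 / 32)) * b₀ ^ 2 *
          (∫ y : ℝ, Real.exp (-(y ^ 2 / (2 * 4))) * ‖DP a S (t + y)‖ ^ 2) := by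
    rw [integral_add (hb2.const_mul _) (ha4.const_mul _), integral_const_mul, integral_const_mul]
  have hint' := hint.trans_eq hsum
  rw [hBe, hbe, hae]
  calc 1 / (2 * 2) * ∫ y : ℝ, Real.exp (-(y ^ 2 / (2 * 2))) *
          (‖DP a S (t + y)‖ ^ 2 * ‖DP b S' (t + y)‖ ^ 2)
      ≤ 1 / (2 * 2) * (M ^ 2 * (∫ y : ℝ, Real.exp (-(y ^ 2 / (2 * 2))) * ‖DP b S' (t + y)‖ ^ 2) +
        Real.exp (-(T₀ ^ 2 / 32)) * b₀ ^ 2 *
          (∫ y : ℝ, Real.exp (-(y ^ 2 / (2 * 4))) * ‖DP a S (t + y)‖ ^ 2)) :=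
        mul_le_mul_of_nonneg_left hint' (by norm_num)
    _ = _ := by ring

end Pool.Agent.E3
end

section

/-!
# Y6: mean squares
-/

set_option autoImplicit false

namespace Pool.Agent.E3

open Finset MeasureTheory Real

private theorem Y6_norm_ph (u x : ℝ) : ‖ph u x‖ = 1 := by
  unfold ph; exact Complex.norm_exp_ofReal_mul_I _

private theorem Y6_gs_nonneg (β x y : ℝ) : 0 ≤ gs β x y := (Real.exp_pos _).le

private theorem Y6_WIN_le (a : ℕ → ℂ) (S : Finset ℕ) (β t x : ℝ) :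
    ‖WIN a β S t x‖ ≤ ∑ n ∈ S, ‖a n‖ * gs β x (Real.log n) / n := by
  unfold WIN
  refine (norm_sum_le _ _).trans (Finset.sum_le_sum fun n _ => ?_)
  rw [norm_mul, norm_mul, Y6_norm_ph, mul_one, Complex.norm_real, Real.norm_eq_abs,
    abs_of_nonneg (div_nonneg (Y6_gs_nonneg _ _ _) (Nat.cast_nonneg n)), mul_div_assoc]

private theorem Y6_tau_nonneg (β : ℝ) (a : ℕ → ℂ) (S : Finset ℕ) (τ : ℝ)
    (hτ : ∀ x : ℝ, ∑ n ∈ S, ‖a n‖ * gs β x (Real.log n) / n ≤ τ) : 0 ≤ τ := by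
  refine le_trans (Finset.sum_nonneg fun n _ => ?_) (hτ 0)
  exact div_nonneg (mul_nonneg (norm_nonneg _) (Y6_gs_nonneg _ _ _)) (Nat.cast_nonneg n)

private theorem Y6_scale (β : ℝ) (a : ℕ → ℂ) (S : Finset ℕ) (x x' w : ℝ)
    (h : ∀ n ∈ S, gs β x (Real.log n) ≤ w * gs β x' (Real.log n)) :
    ∑ n ∈ S, ‖a n‖ * gs β x (Real.log n) / n
      ≤ w * ∑ n ∈ S, ‖a n‖ * gs β x' (Real.log n) / n := by
  rw [Finset.mul_sum]
  refine Finset.sum_le_sum fun n hn => ?_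
  calc ‖a n‖ * gs β x (Real.log n) / n = ‖a n‖ / n * gs β x (Real.log n) := by ring
    _ ≤ ‖a n‖ / n * (w * gs β x' (Real.log n)) :=
        mul_le_mul_of_nonneg_left (h n hn) (by positivity)
    _ = _ := by ring

private theorem Y6_pt (β : ℝ) (hβ : 0 < β) (a : ℕ → ℂ) (S : Finset ℕ) (τ L : ℝ)
    (hS : ∀ n ∈ S, 1 ≤ n ∧ Real.log n ≤ L)
    (hτ : ∀ x : ℝ, ∑ n ∈ S, ‖a n‖ * gs β x (Real.log n) / n ≤ τ) (x : ℝ) :
    ∑ n ∈ S, ‖a n‖ * gs β x (Real.log n) / n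
      ≤ τ * ((Set.Icc (0 : ℝ) L).indicator (fun _ => (1 : ℝ)) x + gs β x 0 + gs β x L) := by
  have hτ0 := Y6_tau_nonneg β a S τ hτ
  have g0 := Y6_gs_nonneg β x 0
  have gL := Y6_gs_nonneg β x L
  by_cases hx : x ∈ Set.Icc (0 : ℝ) L
  · rw [Set.indicator_of_mem hx]
    have h1 := hτ x
    nlinarith
  · rw [Set.indicator_of_notMem hx, zero_add]
    by_cases hx0 : 0 ≤ x
    · have hxL : L < x := by
        by_contra hcon
        exact hx ⟨hx0, not_lt.mp hcon⟩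
      have h1 := Y6_scale β a S x L (gs β x L) (by
        intro n hn
        unfold gs
        rw [← Real.exp_add]
        apply Real.exp_le_exp.mpr
        have h2 := (hS n hn).2
        have h3 : 0 ≤ (x - L) * (L - Real.log n) :=
          mul_nonneg (by linarith) (by linarith)
        have h4 : (x - Real.log n) ^ 2
            = (x - L) ^ 2 + (L - Real.log n) ^ 2 + 2 * ((x - L) * (L - Real.log n)) := by ring
        rw [h4]
        have h5 : 0 ≤ β * ((x - L) * (L - Real.log n)) := mul_nonneg hβ.le h3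
        linarith)
      have h2 := mul_le_mul_of_nonneg_left (hτ L) gL
      nlinarith
    · have h1 := Y6_scale β a S x 0 (gs β x 0) (by
        intro n hn
        unfold gs
        rw [← Real.exp_add]
        apply Real.exp_le_exp.mpr
        have h2 : 0 ≤ Real.log n := Real.log_nonneg (by exact_mod_cast (hS n hn).1)
        have h3 : 0 ≤ (-x) * Real.log n := mul_nonneg (by linarith) h2
        have h5 : 0 ≤ β * ((-x) * Real.log n) := mul_nonneg hβ.le h3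
        nlinarith)
      have h2 := mul_le_mul_of_nonneg_left (hτ 0) g0
      nlinarith

private theorem Y6_ind (L : ℝ) (hL : 0 ≤ L) :
    Integrable (fun x => (Set.Icc (0 : ℝ) L).indicator (fun _ => (1 : ℝ)) x) ∧
      ∫ x, (Set.Icc (0 : ℝ) L).indicator (fun _ => (1 : ℝ)) x = L := by
  constructor
  · exact (integrableOn_const (by simp)).integrable_indicator measurableSet_Icc
  · rw [integral_indicator measurableSet_Icc, integral_const]
    simp [hL]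

/-- PROOF. For `x ∈ [0, L]` the integrand is `≤ τ²`. For `x ≤ 0`: `gs β x v ≤ exp (- β x²) gs β 0 v` (`v ≥ 0`), for `x ≥ L`:
`gs β x v ≤ exp (- β (x - L)²) gs β L v` (`v ≤ L`: `(x - v)² ≥ (x - L)² + (L - v)²`). So the integral is
`≤ τ² (L + √(π/(2β)))`. -/
theorem win_ms (β : ℝ) (hβ : 0 < β) : ∃ C : ℝ, 1 ≤ C ∧ ∀ (a : ℕ → ℂ) (S : Finset ℕ) (t τ L : ℝ), 0 ≤ L →
    (∀ n ∈ S, 1 ≤ n ∧ Real.log n ≤ L) → (∀ x : ℝ, ∑ n ∈ S, ‖a n‖ * gs β x (Real.log n) / n ≤ τ) →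
    ∫ x : ℝ, ‖WIN a β S t x‖ ^ 2 ≤ C * τ ^ 2 * (L + 1) := by
  refine ⟨3 + 6 * Real.sqrt (π / (2 * β)), ?_, ?_⟩
  · have h2 : 0 ≤ Real.sqrt (π / (2 * β)) := Real.sqrt_nonneg _
    linarith
  intro a S t τ L hL hS hτ
  set Q := Real.sqrt (π / (2 * β)) with hQ
  have hQ0 : 0 ≤ Q := Real.sqrt_nonneg _
  have hτ0 := Y6_tau_nonneg β a S τ hτ
  have hpt : ∀ x : ℝ, ‖WIN a β S t x‖ ^ 2
      ≤ 3 * τ ^ 2 * ((Set.Icc (0 : ℝ) L).indicator (fun _ => (1 : ℝ)) x + gs (2 * β) x 0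
        + gs (2 * β) x L) := by
    intro x
    have h1 := (Y6_WIN_le a S β t x).trans (Y6_pt β hβ a S τ L hS hτ x)
    have h2 := pow_le_pow_left₀ (norm_nonneg _) h1 2
    refine h2.trans ?_
    have h3 : ((Set.Icc (0 : ℝ) L).indicator (fun _ => (1 : ℝ)) x) ^ 2
        = (Set.Icc (0 : ℝ) L).indicator (fun _ => (1 : ℝ)) x := by
      by_cases hx : x ∈ Set.Icc (0 : ℝ) L
      · rw [Set.indicator_of_mem hx]; norm_num
      · rw [Set.indicator_of_notMem hx]; norm_num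
    have h4 : ∀ y : ℝ, (gs β x y) ^ 2 = gs (2 * β) x y := by
      intro y
      unfold gs
      rw [← Real.exp_nat_mul]
      congr 1
      push_cast
      ring
    have h40 := h4 0
    have h4L := h4 L
    set u := (Set.Icc (0 : ℝ) L).indicator (fun _ => (1 : ℝ)) x with hu
    set v := gs β x 0 with hv
    set w := gs β x L with hw
    have h5 : (u + v + w) ^ 2 ≤ 3 * (u ^ 2 + v ^ 2 + w ^ 2) := by
      nlinarith [sq_nonneg (u - v), sq_nonneg (v - w), sq_nonneg (u - w)]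
    calc (τ * (u + v + w)) ^ 2 = τ ^ 2 * (u + v + w) ^ 2 := by ring
      _ ≤ τ ^ 2 * (3 * (u ^ 2 + v ^ 2 + w ^ 2)) := mul_le_mul_of_nonneg_left h5 (sq_nonneg τ)
      _ = 3 * τ ^ 2 * (u + gs (2 * β) x 0 + gs (2 * β) x L) := by
          rw [h3, h40, h4L]; ring
  obtain ⟨hi1, hI1⟩ := Y6_ind L hL
  have hi2 := gs_integrable (2 * β) 0 (by linarith)
  have hI2 := gs_integral (2 * β) 0 (by linarith)
  have hi3 := gs_integrable (2 * β) L (by linarith)
  have hI3 := gs_integral (2 * β) L (by linarith)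
  have hi0 : Integrable (fun x : ℝ => ‖WIN a β S t x‖ ^ 2) := (planch_WIN a S β t hβ).1
  have hmono := integral_mono hi0 (((hi1.add hi2).add hi3).const_mul (3 * τ ^ 2)) hpt
  have he : ∫ x : ℝ, 3 * τ ^ 2 * ((Set.Icc (0 : ℝ) L).indicator (fun _ => (1 : ℝ)) x
      + gs (2 * β) x 0 + gs (2 * β) x L) = 3 * τ ^ 2 * (L + Q + Q) := by
    rw [integral_const_mul]
    have e1 : ∫ x : ℝ, ((Set.Icc (0 : ℝ) L).indicator (fun _ => (1 : ℝ)) x
        + gs (2 * β) x 0 + gs (2 * β) x L)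
        = (∫ x : ℝ, ((Set.Icc (0 : ℝ) L).indicator (fun _ => (1 : ℝ)) x + gs (2 * β) x 0))
          + ∫ x : ℝ, gs (2 * β) x L := integral_add (hi1.add hi2) hi3
    have e2 : ∫ x : ℝ, ((Set.Icc (0 : ℝ) L).indicator (fun _ => (1 : ℝ)) x + gs (2 * β) x 0)
        = (∫ x : ℝ, (Set.Icc (0 : ℝ) L).indicator (fun _ => (1 : ℝ)) x)
          + ∫ x : ℝ, gs (2 * β) x 0 := integral_add hi1 hi2
    rw [e1, e2, hI1, hI2, hI3]
  have hmono' := hmono.trans_eq he
  refine hmono'.trans ?_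
  have h6 : 0 ≤ τ ^ 2 := sq_nonneg τ
  have h7 : 3 * (L + Q + Q) ≤ (3 + 6 * Q) * (L + 1) := by nlinarith
  calc 3 * τ ^ 2 * (L + Q + Q) = τ ^ 2 * (3 * (L + Q + Q)) := by ring
    _ ≤ τ ^ 2 * ((3 + 6 * Q) * (L + 1)) := mul_le_mul_of_nonneg_left h7 h6
    _ = _ := by ring

/-- PROOF. `∑ ‖a n‖ / n = √(β/π) ∫ ∑ ‖a n‖ gs β x (log n) / n dx` and the bounds in `win_ms`. -/
theorem win_sum (β : ℝ) (hβ : 0 < β) : ∃ C : ℝ, 1 ≤ C ∧ ∀ (a : ℕ → ℂ) (S : Finset ℕ) (τ L : ℝ), 0 ≤ L →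
    (∀ n ∈ S, 1 ≤ n ∧ Real.log n ≤ L) → (∀ x : ℝ, ∑ n ∈ S, ‖a n‖ * gs β x (Real.log n) / n ≤ τ) →
    ∑ n ∈ S, ‖a n‖ / n ≤ C * τ * (L + 1) := by
  set P := Real.sqrt (π / β) with hP
  have hP0 : 0 < P := Real.sqrt_pos.mpr (by positivity)
  refine ⟨1 / P + 2, ?_, ?_⟩
  · have : 0 < 1 / P := by positivity
    linarith
  intro a S τ L hL hS hτ
  have hτ0 := Y6_tau_nonneg β a S τ hτ
  obtain ⟨hi1, hI1⟩ := Y6_ind L hL
  have hi2 := gs_integrable β 0 hβ
  have hI2 := gs_integral β 0 hβ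
  have hi3 := gs_integrable β L hβ
  have hI3 := gs_integral β L hβ
  have hterm : ∀ n ∈ S, Integrable (fun x : ℝ => ‖a n‖ * gs β x (Real.log n) / n) := by
    intro n _
    exact ((gs_integrable β (Real.log n) hβ).const_mul _).div_const _
  have hi0 : Integrable (fun x : ℝ => ∑ n ∈ S, ‖a n‖ * gs β x (Real.log n) / n) :=
    integrable_finsetSum _ hterm
  have hI0 : ∫ x : ℝ, ∑ n ∈ S, ‖a n‖ * gs β x (Real.log n) / n = P * ∑ n ∈ S, ‖a n‖ / n := by
    rw [integral_finsetSum _ hterm, Finset.mul_sum]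
    refine Finset.sum_congr rfl fun n _ => ?_
    rw [integral_div, integral_const_mul, gs_integral β _ hβ]
    ring
  have hmono := integral_mono hi0 (((hi1.add hi2).add hi3).const_mul τ)
    (Y6_pt β hβ a S τ L hS hτ)
  have he : ∫ x : ℝ, τ * ((Set.Icc (0 : ℝ) L).indicator (fun _ => (1 : ℝ)) x
      + gs β x 0 + gs β x L) = τ * (L + P + P) := by
    rw [integral_const_mul]
    have e1 : ∫ x : ℝ, ((Set.Icc (0 : ℝ) L).indicator (fun _ => (1 : ℝ)) x
        + gs β x 0 + gs β x L)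
        = (∫ x : ℝ, ((Set.Icc (0 : ℝ) L).indicator (fun _ => (1 : ℝ)) x + gs β x 0))
          + ∫ x : ℝ, gs β x L := integral_add (hi1.add hi2) hi3
    have e2 : ∫ x : ℝ, ((Set.Icc (0 : ℝ) L).indicator (fun _ => (1 : ℝ)) x + gs β x 0)
        = (∫ x : ℝ, (Set.Icc (0 : ℝ) L).indicator (fun _ => (1 : ℝ)) x)
          + ∫ x : ℝ, gs β x 0 := integral_add hi1 hi2
    rw [e1, e2, hI1, hI2, hI3]
  have hmono' := hmono.trans_eq he
  rw [hI0] at hmono'
  have h1 : ∑ n ∈ S, ‖a n‖ / n ≤ τ * (L + P + P) / P := by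
    rw [le_div_iff₀ hP0]
    linarith
  refine h1.trans ?_
  have h2 : τ * (L + P + P) / P = τ * (1 / P * L + 2) := by
    field_simp
    ring
  rw [h2]
  have h3 : 1 / P * L + 2 ≤ (1 / P + 2) * (L + 1) := by
    have : 0 < 1 / P := by positivity
    nlinarith
  calc τ * (1 / P * L + 2) ≤ τ * ((1 / P + 2) * (L + 1)) := mul_le_mul_of_nonneg_left h3 hτ0
    _ = _ := by ring

/-- PROOF. `‖DP b S' u‖ ≤ ∑ ‖b n‖ / n`. `BW_ms` with `a = tw (1/L) (lpc χ)`, `b = tw (1/L) (ch χ)`, `S = Icc 1 N`, `S' = RS z N`, `U = exp L`,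
`b₀ = C L / log z` (`tw_sup 2` and `tb_rough 2`: `τ = C/log z`, `σ = 1/L`; `‖ch χ n‖ ≤ 1`);
`∫ ‖WIN b 2 S' t x‖² ≤ C (C/log z)² L` (`tw_ms 2`, `tb_rough 2`), `∫ ‖WIN a 4 S t x‖² ≤ C L` (`tw_ms 4`, `tb_prime 4`, `‖lpc χ n‖ ≤ lp n`). -/
theorem BW_full_ms : ∃ C : ℝ, 1 ≤ C ∧ ∀ (W : ℕ) (χ : DirichletCharacter ℂ W) (L T₀ t M : ℝ) (z N : ℕ), 1 ≤ L →
    2 ≤ z → 0 ≤ T₀ → T₀ ≤ |t| → |t| ≤ Real.exp L →
    (∀ u : ℝ, T₀ / 2 ≤ |u| → |u| ≤ 2 * Real.exp L → ‖DP (tw (1 / L) (lpc χ)) (Icc 1 N) u‖ ≤ M) →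
    ∫ x : ℝ, ‖BW (tw (1 / L) (lpc χ)) (tw (1 / L) (ch χ)) (Icc 1 N) (RS z N) 2 t x‖ ^ 2
      ≤ C * (M ^ 2 * L / (Real.log z) ^ 2 + Real.exp (-(T₀ ^ 2 / 32)) * (L / Real.log z) ^ 2 * L) := by
  obtain ⟨C1, hC1, hr⟩ := tb_rough 2 (by norm_num)
  obtain ⟨C2, hC2, hp⟩ := tb_prime 4 (by norm_num)
  obtain ⟨C3, hC3, hm2⟩ := tw_ms 2 (by norm_num)
  obtain ⟨C4, hC4, hm4⟩ := tw_ms 4 (by norm_num)
  obtain ⟨C5, hC5, hs⟩ := tw_sup 2 (by norm_num)
  have hA : 1 ≤ C3 * C1 ^ 2 := by nlinarith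
  refine ⟨C3 * C1 ^ 2 + 2 * C5 ^ 2 * C1 ^ 2 * (C4 * C2 ^ 2), ?_, ?_⟩
  · have : 0 ≤ 2 * C5 ^ 2 * C1 ^ 2 * (C4 * C2 ^ 2) := by positivity
    linarith
  intro W χ L T₀ t M z N hL hz hT₀ hT₀t htL hM
  have hL0 : 0 < L := by linarith
  have hlz : 0 < Real.log z := Real.log_pos (by exact_mod_cast (by omega : 1 < z))
  have hσ0 : 0 < 1 / L := by positivity
  have hσ1 : 1 / L ≤ 1 := by rw [div_le_one hL0]; exact hL
  have hch : ∀ n : ℕ, ‖ch χ n‖ ≤ 1 := fun n => DirichletCharacter.norm_le_one χ _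
  have hlp : ∀ n : ℕ, 0 ≤ lp n := by
    intro n
    unfold lp
    split_ifs with h
    · exact Real.log_nonneg (by exact_mod_cast h.one_lt.le)
    · exact le_rfl
  have hRS : ∀ n ∈ RS z N, 1 ≤ n := by
    intro n hn
    unfold RS at hn
    classical
    have := (Finset.mem_Icc.mp (Finset.mem_filter.mp hn).1).1
    omega
  have hIc : ∀ n ∈ Icc 1 N, 1 ≤ n := fun n hn => (Finset.mem_Icc.mp hn).1
  have hτb : ∀ x : ℝ, ∑ n ∈ RS z N, ‖ch χ n‖ * gs 2 x (Real.log n) / n ≤ C1 / Real.log z := by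
    intro x
    refine le_trans (Finset.sum_le_sum fun n _ => ?_) (hr z N x hz)
    apply div_le_div_of_nonneg_right _ (Nat.cast_nonneg n)
    calc ‖ch χ n‖ * gs 2 x (Real.log n) ≤ 1 * gs 2 x (Real.log n) :=
          mul_le_mul_of_nonneg_right (hch n) (Y6_gs_nonneg _ _ _)
      _ = _ := one_mul _
  have hτa : ∀ x : ℝ, ∑ n ∈ Icc 1 N, ‖lpc χ n‖ * gs 4 x (Real.log n) / n ≤ C2 := by
    intro x
    refine le_trans (Finset.sum_le_sum fun n _ => ?_) (hp N x)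
    apply div_le_div_of_nonneg_right _ (Nat.cast_nonneg n)
    apply mul_le_mul_of_nonneg_right _ (Y6_gs_nonneg _ _ _)
    unfold lpc
    rw [norm_mul, Complex.norm_real, Real.norm_eq_abs, abs_of_nonneg (hlp n)]
    exact mul_le_of_le_one_right (hlp n) (hch n)
  have hb1 := hm2 (ch χ) (RS z N) (1 / L) t (C1 / Real.log z) hσ0 hσ1 hRS hτb
  have ha1 := hm4 (lpc χ) (Icc 1 N) (1 / L) t C2 hσ0 hσ1 hIc hτa
  have hs1 := hs (ch χ) (RS z N) (1 / L) (C1 / Real.log z) hσ0 hσ1 hRS hτb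
  have hDP : ∀ u : ℝ, ‖DP (tw (1 / L) (ch χ)) (RS z N) u‖ ≤ C5 * (C1 / Real.log z) / (1 / L) := by
    intro u
    refine le_trans ?_ hs1
    unfold DP
    refine (norm_sum_le _ _).trans (Finset.sum_le_sum fun n _ => ?_)
    rw [norm_mul, norm_mul, Y6_norm_ph, mul_one, Complex.norm_real, Real.norm_eq_abs,
      abs_of_nonneg (by positivity), mul_one_div]
  have hmain := BW_ms (tw (1 / L) (lpc χ)) (tw (1 / L) (ch χ)) (Icc 1 N) (RS z N) t T₀ (Real.exp L) M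
    (C5 * (C1 / Real.log z) / (1 / L)) hT₀ hT₀t htL hM hDP
  refine hmain.trans ?_
  set E := Real.exp (-(T₀ ^ 2 / 32)) with hE
  have hE0 : 0 < E := Real.exp_pos _
  set l := Real.log z with hl
  have k1 : M ^ 2 * (∫ x : ℝ, ‖WIN (tw (1 / L) (ch χ)) 2 (RS z N) t x‖ ^ 2)
      ≤ C3 * C1 ^ 2 * (M ^ 2 * L / l ^ 2) := by
    calc _ ≤ M ^ 2 * (C3 * (C1 / l) ^ 2 / (1 / L)) := mul_le_mul_of_nonneg_left hb1 (sq_nonneg M)
      _ = _ := by field_simp
  have k2 : 2 * E * (C5 * (C1 / l) / (1 / L)) ^ 2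
        * (∫ x : ℝ, ‖WIN (tw (1 / L) (lpc χ)) 4 (Icc 1 N) t x‖ ^ 2)
      ≤ 2 * C5 ^ 2 * C1 ^ 2 * (C4 * C2 ^ 2) * (E * (L / l) ^ 2 * L) := by
    calc _ ≤ 2 * E * (C5 * (C1 / l) / (1 / L)) ^ 2 * (C4 * C2 ^ 2 / (1 / L)) :=
          mul_le_mul_of_nonneg_left ha1 (by positivity)
      _ = _ := by field_simp
  have k3 : 0 ≤ C3 * C1 ^ 2 * (E * (L / l) ^ 2 * L) := by positivity
  have k4 : 0 ≤ 2 * C5 ^ 2 * C1 ^ 2 * (C4 * C2 ^ 2) * (M ^ 2 * L / l ^ 2) := by positivity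
  calc _ ≤ C3 * C1 ^ 2 * (M ^ 2 * L / l ^ 2)
        + 2 * C5 ^ 2 * C1 ^ 2 * (C4 * C2 ^ 2) * (E * (L / l) ^ 2 * L) := add_le_add k1 k2
    _ ≤ _ := by nlinarith

end Pool.Agent.E3
end

section

/-!
# ZA: the character `χ` restricted to the `y`-rough integers
-/

set_option autoImplicit false

namespace Pool.Agent.E3

open Finset MeasureTheory Real
open Pool.Agent.Lib.MP_bae66e_nt.AP3 (Rough)

/-- the character modulo `W · ∏_{p ≤ y} p` induced by `χ` -/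
noncomputable def chy {W : ℕ} (χ : DirichletCharacter ℂ W) (y : ℕ) : DirichletCharacter ℂ (W * primorial y) :=
  DirichletCharacter.changeLevel (dvd_mul_right W (primorial y)) χ

open Classical in
/-- PROOF. If `n` is `y`-rough then it is coprime to `primorial y` and (all primes dividing `W ≤ y` are `≤ y`) to `W`, so it is a
unit modulo `W * primorial y` and `changeLevel` does not change the value (`DirichletCharacter.changeLevel_eq_cast_of_dvd`).
Otherwise a prime `p ≤ y` divides `n` and `primorial y`, so `n` is not a unit and the value is `0`. -/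
theorem chy_apply {W : ℕ} (χ : DirichletCharacter ℂ W) (y n : ℕ) (hW : 1 ≤ W) (hWy : W ≤ y) (hn : 1 ≤ n) :
    ch (chy χ y) n = if Rough y n then ch χ n else 0 := by
  have hW0 : W ≠ 0 := by omega
  have hP0 : primorial y ≠ 0 := (primorial_pos y).ne'
  have : NeZero W := ⟨hW0⟩
  have : NeZero (W * primorial y) := ⟨mul_ne_zero hW0 hP0⟩
  unfold ch chy
  by_cases hr : Rough y n
  · rw [if_pos hr]
    have hc1 : Nat.Coprime n (primorial y) := by
      rw [Nat.coprime_comm, primorial]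
      refine Nat.Coprime.prod_left fun p hp => ?_
      rw [Finset.mem_filter, Finset.mem_range] at hp
      rw [Nat.Prime.coprime_iff_not_dvd hp.2]
      intro hd
      have := hr p hp.2 hd
      omega
    have hc2 : Nat.Coprime n W := by
      rw [Nat.coprime_comm]
      refine Nat.coprime_of_dvd fun p hp hpW hpn => ?_
      have h1 := hr p hp hpn
      have h2 := Nat.le_of_dvd (by omega) hpW
      omega
    have hc : Nat.Coprime n (W * primorial y) := Nat.Coprime.mul_right hc2 hc1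
    have h1 := DirichletCharacter.changeLevel_eq_cast_of_dvd χ (dvd_mul_right W (primorial y))
      (ZMod.unitOfCoprime n hc)
    rw [ZMod.coe_unitOfCoprime] at h1
    rw [h1]
    congr 1
    rw [ZMod.cast_natCast (dvd_mul_right W (primorial y))]
  · rw [if_neg hr]
    unfold Rough at hr
    push Not at hr
    obtain ⟨p, hp, hpn, hpy⟩ := hr
    refine MulChar.map_nonunit _ fun hu => ?_
    rw [ZMod.isUnit_iff_coprime] at hu
    have h1 : p ∣ primorial y := by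
      rw [primorial]
      exact Finset.dvd_prod_of_mem _ (Finset.mem_filter.2 ⟨Finset.mem_range.2 (by omega), hp⟩)
    exact hp.one_lt.ne' (Nat.dvd_one.1 (hu.gcd_eq_one ▸ Nat.dvd_gcd hpn (h1.mul_left W)))

/-- PROOF. `changeLevel` is a group homomorphism. -/
theorem chy_sq {W : ℕ} (χ : DirichletCharacter ℂ W) (y : ℕ) : (chy χ y) ^ 2 = chy (χ ^ 2) y := by
  unfold chy
  rw [map_pow]

/-- PROOF. `changeLevel` is a group homomorphism. -/
theorem chy_one {W : ℕ} (y : ℕ) : chy (1 : DirichletCharacter ℂ W) y = 1 := by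
  unfold chy
  rw [map_one]

/-- PROOF. `ph` and `exp (- τ log n)`: `1 / n^s = exp (- s log n)` with `s = 1 + τ + i u`. -/
theorem cpow_eq (n : ℕ) (hn : 1 ≤ n) (τ u : ℝ) (a : ℂ) :
    a / (n : ℂ) ^ ((1 : ℂ) + τ + u * Complex.I)
      = tw τ (fun _ => a) n * ph u (Real.log n) * (((1 / n : ℝ)) : ℂ) := by
  have hn0 : (n : ℂ) ≠ 0 := by
    have : n ≠ 0 := by omega
    exact_mod_cast this
  have hnr : (0 : ℝ) < n := by exact_mod_cast hn
  unfold tw ph
  have h1 : (((1 / n : ℝ)) : ℂ) = Complex.exp (-((Real.log n : ℝ) : ℂ)) := by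
    rw [← Complex.ofReal_neg, ← Complex.ofReal_exp, Real.exp_neg, Real.exp_log hnr]
    push_cast
    rw [one_div]
  rw [h1, Complex.ofReal_exp, mul_assoc, mul_assoc, ← Complex.exp_add, ← Complex.exp_add, div_eq_mul_inv,
    Complex.cpow_def_of_ne_zero hn0, ← Complex.exp_neg, Complex.natCast_log]
  congr 2
  push_cast
  ring

end Pool.Agent.E3
end

section

/-!
# ZB: the L-series over the rough integers as a limit
-/

set_option autoImplicit false

namespace Pool.Agent.E3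

open Finset MeasureTheory Real Filter
open Pool.Agent.Lib.MP_bae66e_nt.AP3 (Rough)

/-- the L-series of `χ` over the `y`-rough integers at `1 + τ + i u` -/
noncomputable def LY {W : ℕ} (χ : DirichletCharacter ℂ W) (y : ℕ) (τ u : ℝ) : ℂ :=
  LSeries (ch (chy χ y)) ((1 : ℂ) + τ + u * Complex.I)

/-- the derivative of the L-series of `χ` over the `y`-rough integers at `1 + τ + i u` -/
noncomputable def dLY {W : ℕ} (χ : DirichletCharacter ℂ W) (y : ℕ) (τ u : ℝ) : ℂ :=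
  deriv (LSeries (ch (chy χ y))) ((1 : ℂ) + τ + u * Complex.I)

open Classical in
/-- partial sums of an L-series supported on the rough integers -/
private lemma ZB_aux (y : ℕ) (τ u : ℝ) (f g : ℕ → ℂ)
    (hf : LSeriesSummable f ((1 : ℂ) + τ + u * Complex.I))
    (hfg : ∀ n : ℕ, 1 ≤ n → f n = if Rough y n then g n else 0) :
    Tendsto (fun N : ℕ => DP (tw τ g) (RS y N) u) atTop
      (nhds (LSeries f ((1 : ℂ) + τ + u * Complex.I) - f 1)) := by
  set s : ℂ := (1 : ℂ) + τ + u * Complex.I with hs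
  have h1 : Tendsto (fun N : ℕ => ∑ n ∈ range (N + 1), LSeries.term f s n) atTop
      (nhds (LSeries f s)) :=
    (hf.hasSum.tendsto_sum_nat).comp (tendsto_add_atTop_nat 1)
  have h2 : Tendsto (fun N : ℕ => ∑ n ∈ range (N + 1), LSeries.term f s n - f 1) atTop
      (nhds (LSeries f s - f 1)) := h1.sub_const _
  refine h2.congr' ?_
  filter_upwards [eventually_ge_atTop 1] with N hN
  have h3 : ∑ n ∈ range (N + 1), LSeries.term f s n
      = LSeries.term f s 0 + LSeries.term f s 1 + ∑ n ∈ Icc 2 N, LSeries.term f s n := by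
    have h4 : range (N + 1) = insert 0 (insert 1 (Icc 2 N)) := by
      ext k; simp only [Finset.mem_range, Finset.mem_insert, Finset.mem_Icc]; omega
    rw [h4, Finset.sum_insert, Finset.sum_insert, add_assoc]
    · simp
    · simp
  rw [h3, LSeries.term_zero, LSeries.term_of_ne_zero one_ne_zero]
  simp only [Nat.cast_one, Complex.one_cpow, div_one, zero_add, add_sub_cancel_left]
  unfold DP RS
  rw [Finset.sum_filter]
  refine Finset.sum_congr rfl fun n hn => ?_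
  have hn2 := (Finset.mem_Icc.1 hn).1
  rw [LSeries.term_of_ne_zero (by omega), hfg n (by omega)]
  split_ifs with hR
  · rw [hs, cpow_eq n (by omega) τ u (g n)]
    rfl
  · simp

private lemma ZB_re (τ u : ℝ) : ((1 : ℂ) + τ + u * Complex.I).re = 1 + τ := by
  simp

private lemma ZB_ch {W : ℕ} (χ : DirichletCharacter ℂ W) : ch χ 1 = 1 := by
  unfold ch; simp

/-- PROOF. `DirichletCharacter.LSeriesSummable_of_one_lt_re`, so the partial sums over `n < N + 1` of the terms converge to the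
L-series (`HasSum.tendsto_sum_nat`). The term for `n = 0` is `0`, for `n = 1` it is `1`, for `n ≥ 2` it is given by `chy_apply` and
`cpow_eq`. -/
theorem LY_tendsto {W : ℕ} (χ : DirichletCharacter ℂ W) (y : ℕ) (hW : 1 ≤ W) (hWy : W ≤ y) (τ u : ℝ) (hτ : 0 < τ) :
    Tendsto (fun N : ℕ => DP (tw τ (ch χ)) (RS y N) u) atTop (nhds (LY χ y τ u - 1)) := by
  classical
  have hsum : LSeriesSummable (ch (chy χ y)) ((1 : ℂ) + τ + u * Complex.I) := by
    unfold ch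
    exact DirichletCharacter.LSeriesSummable_of_one_lt_re (chy χ y) (by rw [ZB_re]; linarith)
  have h := ZB_aux y τ u (ch (chy χ y)) (ch χ) hsum (fun n hn => chy_apply χ y n hW hWy hn)
  rw [ZB_ch] at h
  exact h

/-- PROOF. `LSeries_deriv`: `deriv (LSeries f) s = - LSeries (logMul f) s`, and the L-series of `logMul f` is summable for
`1 < re s` (`LSeriesSummable_logMul_of_lt_re`, abscissa of convergence `≤ 1`). The term for `n = 1` is `0`. -/
theorem dLY_tendsto {W : ℕ} (χ : DirichletCharacter ℂ W) (y : ℕ) (hW : 1 ≤ W) (hWy : W ≤ y) (τ u : ℝ)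
    (hτ : 0 < τ) :
    Tendsto (fun N : ℕ => DP (fun n => ((Real.log n : ℝ) : ℂ) * tw τ (ch χ) n) (RS y N) u) atTop
      (nhds (-(dLY χ y τ u))) := by
  classical
  have hne : W * primorial y ≠ 0 := Nat.mul_ne_zero (by omega) (primorial_pos y).ne'
  have habs : LSeries.abscissaOfAbsConv (ch (chy χ y)) < ((1 : ℂ) + τ + u * Complex.I).re := by
    have h1 : LSeries.abscissaOfAbsConv (ch (chy χ y)) = 1 :=
      DirichletCharacter.absicssaOfAbsConv_eq_one hne (chy χ y)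
    rw [h1, ZB_re, ← EReal.coe_one, EReal.coe_lt_coe_iff]
    linarith
  have hsum : LSeriesSummable (LSeries.logMul (ch (chy χ y))) ((1 : ℂ) + τ + u * Complex.I) :=
    LSeriesSummable_logMul_of_lt_re habs
  have h := ZB_aux y τ u (LSeries.logMul (ch (chy χ y)))
    (fun n => ((Real.log n : ℝ) : ℂ) * ch χ n) hsum (fun n hn => by
      unfold LSeries.logMul
      rw [chy_apply χ y n hW hWy hn, Complex.ofReal_log (Nat.cast_nonneg n)]
      split_ifs <;> simp)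
  have h1 : LSeries.logMul (ch (chy χ y)) 1 = 0 := by simp [LSeries.logMul]
  rw [h1, sub_zero] at h
  have h2 : -(dLY χ y τ u) = LSeries (LSeries.logMul (ch (chy χ y))) ((1 : ℂ) + τ + u * Complex.I) := by
    unfold dLY
    rw [LSeries_deriv habs, neg_neg]
  rw [h2]
  refine h.congr fun N => ?_
  unfold DP
  refine Finset.sum_congr rfl fun n _ => ?_
  simp only [tw]
  ring

end Pool.Agent.E3
end

section

/-!
# ZC0: Dirichlet polynomials are bounded by the integrals of their windows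
-/

set_option autoImplicit false

namespace Pool.Agent.E3

open Finset MeasureTheory Real

private theorem ZC0_gs_int (β v : ℝ) (hβ : 0 < β) : Integrable (fun x : ℝ => gs β x v) := by
  have h0 : Integrable (fun w : ℝ => Real.exp (-β * w ^ 2)) := integrable_exp_neg_mul_sq hβ
  have h1 := h0.comp_sub_right v
  refine h1.congr (Filter.Eventually.of_forall fun x => ?_)
  simp only [gs]
  congr 1
  ring

private theorem ZC0_mul_gs_int (β v : ℝ) (hβ : 0 < β) : Integrable (fun x : ℝ => x * gs β x v) := by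
  have h0 : Integrable (fun w : ℝ => w * Real.exp (-β * w ^ 2)) := integrable_mul_exp_neg_mul_sq hβ
  have h1 := h0.comp_sub_right v
  have h2 := (ZC0_gs_int β v hβ).const_mul v
  refine (h1.add h2).congr (Filter.Eventually.of_forall fun x => ?_)
  simp only [gs, Pi.add_apply]
  have e : -β * (x - v) ^ 2 = -(β * (x - v) ^ 2) := by ring
  rw [e]
  ring

private theorem ZC0_gs_val (v : ℝ) : ∫ x : ℝ, gs 2 x v = Real.sqrt (π / 2) := by
  have h : (fun x : ℝ => gs 2 x v) = fun x : ℝ => (fun w : ℝ => Real.exp (-2 * w ^ 2)) (x - v) := by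
    funext x
    simp only [gs]
    congr 1
    ring
  rw [h, integral_sub_right_eq_self (fun w : ℝ => Real.exp (-2 * w ^ 2)) v, integral_gaussian]

private theorem ZC0_odd : ∫ w : ℝ, w * Real.exp (-2 * w ^ 2) = 0 := by
  have h := integral_neg_eq_self (fun w : ℝ => w * Real.exp (-2 * w ^ 2)) volume
  have h2 : (fun w : ℝ => (-w) * Real.exp (-2 * (-w) ^ 2)) = fun w : ℝ => -(w * Real.exp (-2 * w ^ 2)) := by
    funext w
    rw [neg_sq]
    ring
  rw [h2, integral_neg] at h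
  linarith

private theorem ZC0_mul_gs_val (v : ℝ) : ∫ x : ℝ, x * gs 2 x v = v * Real.sqrt (π / 2) := by
  have h : (fun x : ℝ => x * gs 2 x v)
      = fun x : ℝ => (fun w : ℝ => w * Real.exp (-2 * w ^ 2)) (x - v) + v * gs 2 x v := by
    funext x
    simp only [gs]
    have e : -2 * (x - v) ^ 2 = -(2 * (x - v) ^ 2) := by ring
    rw [e]
    ring
  have h0 : Integrable (fun w : ℝ => w * Real.exp (-2 * w ^ 2)) := integrable_mul_exp_neg_mul_sq (by norm_num)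
  rw [h, integral_add (h0.comp_sub_right v) ((ZC0_gs_int 2 v (by norm_num)).const_mul v),
    integral_sub_right_eq_self (fun w : ℝ => w * Real.exp (-2 * w ^ 2)) v, ZC0_odd, integral_const_mul,
    ZC0_gs_val, zero_add]

private theorem ZC0_sqrt : 1 ≤ Real.sqrt (π / 2) := by
  rw [Real.one_le_sqrt]
  have := Real.pi_gt_three
  linarith

private theorem ZC0_term (a : ℕ → ℂ) (β t : ℝ) (hβ : 0 < β) (n : ℕ) :
    Integrable (fun x : ℝ => a n * ph t (Real.log n) * (((gs β x (Real.log n) / n : ℝ)) : ℂ)) := by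
  have h1 : Integrable (fun x : ℝ => gs β x (Real.log n) / n) := (ZC0_gs_int β (Real.log n) hβ).div_const _
  exact h1.ofReal.const_mul _

private theorem ZC0_term_mul (a : ℕ → ℂ) (β t : ℝ) (hβ : 0 < β) (n : ℕ) :
    Integrable (fun x : ℝ => ((x : ℝ) : ℂ) *
      (a n * ph t (Real.log n) * (((gs β x (Real.log n) / n : ℝ)) : ℂ))) := by
  have h1 : Integrable (fun x : ℝ => x * gs β x (Real.log n) / n) :=
    (ZC0_mul_gs_int β (Real.log n) hβ).div_const _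
  have h2 : Integrable (fun x : ℝ => (((x * gs β x (Real.log n) / n : ℝ)) : ℂ)) := h1.ofReal
  refine (h2.const_mul (a n * ph t (Real.log n))).congr (Filter.Eventually.of_forall fun x => ?_)
  push_cast
  ring

private theorem ZC0_WIN_mul (a : ℕ → ℂ) (S : Finset ℕ) (β t : ℝ) (hβ : 0 < β) :
    Integrable (fun x : ℝ => ((x : ℝ) : ℂ) * WIN a β S t x) := by
  have h : (fun x : ℝ => ((x : ℝ) : ℂ) * WIN a β S t x) = fun x : ℝ => ∑ n ∈ S, ((x : ℝ) : ℂ) *
      (a n * ph t (Real.log n) * (((gs β x (Real.log n) / n : ℝ)) : ℂ)) := by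
    funext x
    rw [WIN, Finset.mul_sum]
  rw [h]
  exact integrable_finsetSum _ fun n _ => ZC0_term_mul a β t hβ n

/-- PROOF. A finite sum of Gaussians. -/
theorem WIN_integrable (a : ℕ → ℂ) (S : Finset ℕ) (β t : ℝ) (hβ : 0 < β) :
    Integrable (fun x : ℝ => WIN a β S t x) := by
  unfold WIN
  exact integrable_finsetSum _ fun n _ => ZC0_term a β t hβ n

/-- PROOF. A finite sum of Gaussians times `x`. -/
theorem WIN_mul_integrable (a : ℕ → ℂ) (S : Finset ℕ) (β t : ℝ) (hβ : 0 < β) :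
    Integrable (fun x : ℝ => |x| * ‖WIN a β S t x‖) := by
  refine (ZC0_WIN_mul a S β t hβ).norm.congr (Filter.Eventually.of_forall fun x => ?_)
  simp only [norm_mul, Complex.norm_real, Real.norm_eq_abs]

/-- PROOF. `∫ gs 2 x v dx = √(π/2)`, so `DP a S t = √(2/π) ∫ WIN a 2 S t x dx`, and `√(2/π) ≤ 1`. -/
theorem DP_le_int (a : ℕ → ℂ) (S : Finset ℕ) (t : ℝ) : ‖DP a S t‖ ≤ ∫ x : ℝ, ‖WIN a 2 S t x‖ := by
  have key : ∫ x : ℝ, WIN a 2 S t x = ((Real.sqrt (π / 2) : ℝ) : ℂ) * DP a S t := by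
    unfold WIN DP
    rw [integral_finsetSum _ fun n _ => ZC0_term a 2 t (by norm_num) n, Finset.mul_sum]
    refine Finset.sum_congr rfl fun n _ => ?_
    rw [integral_const_mul, integral_complex_ofReal, integral_div, ZC0_gs_val]
    push_cast
    ring
  calc ‖DP a S t‖ ≤ Real.sqrt (π / 2) * ‖DP a S t‖ := by
        nlinarith [ZC0_sqrt, norm_nonneg (DP a S t)]
    _ = ‖∫ x : ℝ, WIN a 2 S t x‖ := by
        rw [key, norm_mul, Complex.norm_real, Real.norm_eq_abs, abs_of_nonneg (Real.sqrt_nonneg _)]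
    _ ≤ ∫ x : ℝ, ‖WIN a 2 S t x‖ := norm_integral_le_integral_norm _

/-- PROOF. `∫ x gs 2 x v dx = v √(π/2)`, so `DP (log · a) S t = √(2/π) ∫ x WIN a 2 S t x dx`. -/
theorem DP_log_le_int (a : ℕ → ℂ) (S : Finset ℕ) (t : ℝ) :
    ‖DP (fun n => ((Real.log n : ℝ) : ℂ) * a n) S t‖ ≤ ∫ x : ℝ, |x| * ‖WIN a 2 S t x‖ := by
  set D := DP (fun n => ((Real.log n : ℝ) : ℂ) * a n) S t with hD
  have key : ∫ x : ℝ, ((x : ℝ) : ℂ) * WIN a 2 S t x = ((Real.sqrt (π / 2) : ℝ) : ℂ) * D := by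
    have h : (fun x : ℝ => ((x : ℝ) : ℂ) * WIN a 2 S t x) = fun x : ℝ => ∑ n ∈ S, ((x : ℝ) : ℂ) *
        (a n * ph t (Real.log n) * (((gs 2 x (Real.log n) / n : ℝ)) : ℂ)) := by
      funext x
      rw [WIN, Finset.mul_sum]
    rw [h, integral_finsetSum _ fun n _ => ZC0_term_mul a 2 t (by norm_num) n, hD, DP, Finset.mul_sum]
    refine Finset.sum_congr rfl fun n _ => ?_
    have e : (fun x : ℝ => ((x : ℝ) : ℂ) * (a n * ph t (Real.log n) * (((gs 2 x (Real.log n) / n : ℝ)) : ℂ)))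
        = fun x : ℝ => (a n * ph t (Real.log n)) * (((x * gs 2 x (Real.log n) / n : ℝ)) : ℂ) := by
      funext x
      push_cast
      ring
    rw [e, integral_const_mul, integral_complex_ofReal, integral_div, ZC0_mul_gs_val]
    push_cast
    ring
  calc ‖D‖ ≤ Real.sqrt (π / 2) * ‖D‖ := by
        nlinarith [ZC0_sqrt, norm_nonneg D]
    _ = ‖∫ x : ℝ, ((x : ℝ) : ℂ) * WIN a 2 S t x‖ := by
        rw [key, norm_mul, Complex.norm_real, Real.norm_eq_abs, abs_of_nonneg (Real.sqrt_nonneg _)]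
    _ ≤ ∫ x : ℝ, ‖((x : ℝ) : ℂ) * WIN a 2 S t x‖ := norm_integral_le_integral_norm _
    _ = ∫ x : ℝ, |x| * ‖WIN a 2 S t x‖ := by
        congr 1
        funext x
        rw [norm_mul, Complex.norm_real, Real.norm_eq_abs]

end Pool.Agent.E3
end
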