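import Pool.Agent.Lib.MP_bae66e_nt.Mg.G020
import Pool.Agent.Lib.MP_bae66e_nt.Mg.G014
import Pool.Agent.Lib.MP_bae66e_nt.Mg.G003
import Pool.Agent.Lib.MP_bae66e_nt.Mg.G023

section

/-!
# U2: rough integers in Gaussian windows, twisted by `χ(n) n^(-iu)`
-/

set_option autoImplicit false

namespace Pool.Agent.E3

open Finset MeasureTheory Real
open Pool.Agent.Lib.MP_bae66e_nt.AP3 (Rough prI KT)

open Classical in
/-- the window sum over the rough integers `2 ≤ n ≤ Z` -/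
noncomputable def rwin {W : ℕ} (χ : DirichletCharacter ℂ W) (β : ℝ) (z Z : ℕ) (u x : ℝ) : ℂ :=
  ∑ n ∈ (Icc 2 Z).filter (Rough z), ch χ n * ph u (Real.log n) * (((gs β x (Real.log n) / n : ℝ)) : ℂ)

private theorem U2_norm_ph (u x : ℝ) : ‖ph u x‖ = 1 := by
  unfold ph
  exact Complex.norm_exp_ofReal_mul_I _

private theorem U2_ch_one {W : ℕ} (n : ℕ) :
    ch (1 : DirichletCharacter ℂ W) n = if W.Coprime n then (1 : ℂ) else 0 := by
  unfold ch
  by_cases h : W.Coprime n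
  · rw [if_pos h]
    exact MulChar.one_apply ((ZMod.isUnit_iff_coprime n W).2 h.symm)
  · rw [if_neg h]
    exact MulChar.map_nonunit _ fun h' => h ((ZMod.isUnit_iff_coprime n W).1 h').symm

private theorem U2_ch_norm {W : ℕ} (χ : DirichletCharacter ℂ W) (n : ℕ) :
    ‖ch χ n‖ ≤ if W.Coprime n then (1 : ℝ) else 0 := by
  by_cases h : W.Coprime n
  · rw [if_pos h]
    exact (PC_ch χ).bd n
  · rw [if_neg h]
    have h1 : ch χ n = 0 := by
      unfold ch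
      exact MulChar.map_nonunit _ fun h' => h ((ZMod.isUnit_iff_coprime n W).1 h').symm
    rw [h1, norm_zero]

private theorem U2_gs_nonneg (β x y : ℝ) : 0 ≤ gs β x y := (Real.exp_pos _).le

/-- the main term of the principal character -/
private theorem U2_sum_div {W : ℕ} (R : Finset ℕ) (hR : ∀ ℓ ∈ R, ℓ.Prime ∧ ¬ ℓ ∣ W) (D : ℕ)
    (w : ℕ → ℝ) (hw : ∀ d, w d ≠ 0 → d ∣ ∏ ℓ ∈ R, ℓ ∧ (d : ℝ) ≤ (D : ℝ)) :
    ∑ d ∈ Icc 1 D, ((w d / d : ℝ) : ℂ) * ch (1 : DirichletCharacter ℂ W) d =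
      ((∑ d ∈ (∏ ℓ ∈ R, ℓ).divisors, w d / d : ℝ) : ℂ) := by
  classical
  have hP0 : ∏ ℓ ∈ R, ℓ ≠ 0 := Finset.prod_ne_zero_iff.2 fun ℓ hℓ => (hR ℓ hℓ).1.ne_zero
  have hcop : W.Coprime (∏ ℓ ∈ R, ℓ) := by
    refine Nat.Coprime.prod_right fun ℓ hℓ => ?_
    exact (((hR ℓ hℓ).1.coprime_iff_not_dvd).2 (hR ℓ hℓ).2).symm
  have h1 : ∑ d ∈ Icc 1 D, ((w d / d : ℝ) : ℂ) * ch (1 : DirichletCharacter ℂ W) d =
      ((∑ d ∈ Icc 1 D, w d / d : ℝ) : ℂ) := by
    rw [Complex.ofReal_sum]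
    refine Finset.sum_congr rfl fun d _ => ?_
    by_cases h0 : w d = 0
    · rw [h0, zero_div, Complex.ofReal_zero, zero_mul]
    · rw [U2_ch_one, if_pos (hcop.coprime_dvd_right (hw d h0).1), mul_one]
  rw [h1]
  congr 1
  rw [← Finset.sum_filter_ne_zero, ← Finset.sum_filter_ne_zero (s := (∏ ℓ ∈ R, ℓ).divisors)]
  refine Finset.sum_congr ?_ fun _ _ => rfl
  ext d
  simp only [Finset.mem_filter, Finset.mem_Icc, Nat.mem_divisors]
  constructor
  · rintro ⟨_, h0⟩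
    have h2 : w d ≠ 0 := fun h => h0 (by rw [h, zero_div])
    exact ⟨⟨(hw d h2).1, hP0⟩, h0⟩
  · rintro ⟨⟨hd, _⟩, h0⟩
    have h2 : w d ≠ 0 := fun h => h0 (by rw [h, zero_div])
    refine ⟨⟨Nat.pos_of_dvd_of_pos hd (Nat.pos_of_ne_zero hP0), ?_⟩, h0⟩
    exact_mod_cast (hw d h2).2

/-- the errors -/
private theorem U2_err {c x : ℝ} (hc : 0 < c) (hc1 : c ≤ 1 / 2) (hx : 0 ≤ x) :
    (1 + x) ^ 2 * Real.exp (-(c * x)) ≤ 16 / c ^ 2 * Real.exp (-(c / 2 * x)) := by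
  have h1 : c / 4 * (1 + x) ≤ Real.exp (c * x / 4) := by
    have h2 := Real.add_one_le_exp (c * x / 4)
    nlinarith
  have h3 : 0 ≤ c / 4 * (1 + x) := by positivity
  have h4 : (c / 4 * (1 + x)) ^ 2 ≤ Real.exp (c * x / 2) := by
    calc (c / 4 * (1 + x)) ^ 2 ≤ Real.exp (c * x / 4) ^ 2 := by gcongr
      _ = Real.exp (c * x / 2) := by
        rw [← Real.exp_nat_mul]
        congr 1
        push_cast
        ring
  have h5 : (1 + x) ^ 2 ≤ 16 / c ^ 2 * Real.exp (c * x / 2) := by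
    have h6 : (1 + x) ^ 2 = 16 / c ^ 2 * (c / 4 * (1 + x)) ^ 2 := by
      field_simp
      ring
    rw [h6]
    gcongr
  calc (1 + x) ^ 2 * Real.exp (-(c * x))
      ≤ 16 / c ^ 2 * Real.exp (c * x / 2) * Real.exp (-(c * x)) := by gcongr
    _ = 16 / c ^ 2 * Real.exp (-(c / 2 * x)) := by
        rw [mul_assoc, ← Real.exp_add]
        congr 2
        ring

private theorem U2_gauss {β c x : ℝ} (hβ : 0 < β) :
    Real.exp (-(β * x ^ 2)) ≤ Real.exp (c ^ 2 / (4 * β)) * Real.exp (-(c * x)) := by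
  rw [← Real.exp_add]
  apply Real.exp_le_exp.2
  have h1 : 0 ≤ β * (x - c / (2 * β)) ^ 2 := by positivity
  have h2 : β * (x - c / (2 * β)) ^ 2 = β * x ^ 2 - c * x + c ^ 2 / (4 * β) := by
    field_simp
    ring
  linarith

open Classical in
/-- PROOF. `b0` from `fl_weights`, `c, C` from `type_one A W β` (halve `c` and enlarge `C` at the end). Let
`R = (prI 0 z).filter (¬ · ∣ W)` and `u, e` (call them `a, e`) the weights of `fl_weights b z R`, `D = z^(4b+6)`,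
`2 log D ≤ x`. By `rough_free` the sum is `∑_{n ≤ Z} free R n · F n - F 1`, `F n = χ n ph u (log n) gs β x (log n) / n`,
`|F 1| = exp (- β x²)` (bounded by `C exp (-x/2)`). By `low`, `up`, `|∑ free R n F n - ∑ dsum a n F n| ≤ ∑ dsum e n |F n|`
and `|F n| = ch 1 n · gs / n`. `type_one` for `dsum e`, the principal character, `u = 0`: the last sum is
`≤ (φ(W)/W) (∑ e d / d) √(π/β) + error ≤ √(π/β) exp (-b) KT z + error` (the `d` with `e d ≠ 0` are coprime to `W`, so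
`ch 1 d = 1`; they divide `∏ R`; `KT_split`). `type_one` for `dsum a` and `χ`: for `χ ≠ 1` the main term is `0`; for
`χ = 1` it is `≤ (1 + exp (-b)) KT z √(π/β) exp (- u²/(4β))`. Errors:
`C (3 + 3 log z) (1 + log D) exp (- c x) ≤ C' (1 + x)² exp (- c x) ≤ C'' exp (- c x/2)`. -/
theorem rough_window (β : ℝ) (hβ : 0 < β) : ∃ b0 : ℕ, ∀ (A : ℕ), 1 ≤ A → ∀ (W : ℕ), 1 ≤ W →
    ∃ c C : ℝ, 0 < c ∧ c ≤ 1 / 2 ∧ 1 ≤ C ∧ ∀ (χ : DirichletCharacter ℂ W) (b z : ℕ), b0 ≤ b → 2 ≤ z →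
      W ≤ z → ∀ (x u : ℝ) (Z : ℕ), (8 * b + 12) * Real.log z ≤ x → Real.exp (2 * x) ≤ Z →
      |u| ≤ Real.exp (A * x) →
      ‖rwin χ β z Z u x‖ ≤ Real.sqrt (π / β) * KT z *
          ((if χ = 1 then 2 * Real.exp (-(u ^ 2 / (4 * β))) else 0) + Real.exp (-(b : ℝ)))
        + C * Real.exp (-(c * x)) := by
  obtain ⟨b0, hb0⟩ := fl_weights
  refine ⟨b0, fun A hA W hW => ?_⟩
  obtain ⟨c, hc, hc1, hT0⟩ := type_one A hA
  obtain ⟨C, hC, hT⟩ := hT0 W hW β hβ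
  refine ⟨c / 2, 6 * C * (16 / c ^ 2) + Real.exp ((c / 2) ^ 2 / (4 * β)), by linarith,
    by linarith, ?_, ?_⟩
  · have h1 : 1 ≤ Real.exp ((c / 2) ^ 2 / (4 * β)) := Real.one_le_exp (by positivity)
    have h2 : 0 ≤ 6 * C * (16 / c ^ 2) := by positivity
    linarith
  intro χ b z hb hz hWz x u Z hx hZ hu
  have hz1 : (1 : ℝ) ≤ z := by exact_mod_cast (by omega : 1 ≤ z)
  have hlz : 0 ≤ Real.log z := Real.log_nonneg hz1
  have hbn : (0 : ℝ) ≤ b := Nat.cast_nonneg b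
  have hx0 : 0 ≤ x := le_trans (by positivity) hx
  have hlzx : Real.log z ≤ x := by nlinarith
  set R := (prI 0 z).filter (fun ℓ => ¬ ℓ ∣ W) with hRdef
  have hR1 : ∀ ℓ ∈ R, ℓ.Prime ∧ ℓ ≤ z := by
    intro ℓ hℓ
    rw [hRdef, Finset.mem_filter, Pool.Agent.Lib.MP_bae66e_nt.AP3.mem_prI] at hℓ
    exact ⟨hℓ.1.2, hℓ.1.1.2⟩
  have hR2 : ∀ ℓ ∈ R, ℓ.Prime ∧ ¬ ℓ ∣ W := by
    intro ℓ hℓ
    refine ⟨(hR1 ℓ hℓ).1, ?_⟩
    rw [hRdef, Finset.mem_filter] at hℓ
    exact hℓ.2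
  obtain ⟨a, e, hw⟩ := hb0 b z R hb hz hR1
  have hDc : ((z ^ (4 * b + 6) : ℕ) : ℝ) = (z : ℝ) ^ (4 * b + 6) := by push_cast; ring
  set D : ℕ := z ^ (4 * b + 6) with hD
  have hD1 : 1 ≤ D := Nat.one_le_pow _ _ (by omega)
  have hlogD : Real.log D = (4 * b + 6) * Real.log z := by
    rw [hDc, Real.log_pow]
    push_cast
    ring
  have hDx : 2 * Real.log D ≤ x := by
    rw [hlogD]
    linarith
  have hDx' : Real.log D ≤ x := by
    have : 0 ≤ Real.log D := by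
      rw [hlogD]
      positivity
    linarith
  have hlogD0 : 0 ≤ Real.log D := by
    rw [hlogD]
    positivity
  have hasupp : ∀ d, a d ≠ 0 → d ∣ ∏ ℓ ∈ R, ℓ ∧ (d : ℝ) ≤ (D : ℝ) := fun d hd => by
    rw [hDc]
    exact hw.usupp d hd
  have hesupp : ∀ d, e d ≠ 0 → d ∣ ∏ ℓ ∈ R, ℓ ∧ (d : ℝ) ≤ (D : ℝ) := fun d hd => by
    rw [hDc]
    exact hw.esupp d hd
  have haD : ∀ d, D < d → a d = 0 := by
    intro d hd
    by_contra h
    have h1 : d ≤ D := by exact_mod_cast (hasupp d h).2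
    omega
  have heD : ∀ d, D < d → e d = 0 := by
    intro d hd
    by_contra h
    have h1 : d ≤ D := by exact_mod_cast (hesupp d h).2
    omega
  have hTa := hT (ch χ) (PC_ch χ) a D 1 hD1 haD hw.ubd x u Z hx0 hDx hZ hu
  have hTe := hT (ch 1) (PC_ch 1) e D (3 + 3 * Real.log z) hD1 heD hw.ebd x 0 Z hx0 hDx hZ
    (by rw [abs_zero]; exact (Real.exp_pos _).le)
  rw [U2_sum_div R hR2 D e hesupp, mv_ch_one hW] at hTe
  -- notation
  set sp := Real.sqrt (π / β) with hsp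
  have hsp0 : 0 ≤ sp := Real.sqrt_nonneg _
  set F : ℕ → ℂ := fun n => ch χ n * ph u (Real.log n) * (((gs β x (Real.log n) / n : ℝ)) : ℂ)
    with hF
  set g : ℕ → ℝ := fun n => (if W.Coprime n then (1 : ℝ) else 0) * (gs β x (Real.log n) / n) with hg
  have hg0 : ∀ n, 0 ≤ g n := by
    intro n
    have h1 : 0 ≤ gs β x (Real.log n) / n := div_nonneg (U2_gs_nonneg _ _ _) (Nat.cast_nonneg n)
    have h2 : (0 : ℝ) ≤ if W.Coprime n then (1 : ℝ) else 0 := by split_ifs <;> norm_num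
    exact mul_nonneg h2 h1
  have hFg : ∀ n, ‖F n‖ ≤ g n := by
    intro n
    have h1 : 0 ≤ gs β x (Real.log n) / n := div_nonneg (U2_gs_nonneg _ _ _) (Nat.cast_nonneg n)
    rw [hF, hg]
    simp only
    rw [norm_mul, norm_mul, U2_norm_ph, mul_one, Complex.norm_real, Real.norm_of_nonneg h1]
    exact mul_le_mul_of_nonneg_right (U2_ch_norm χ n) h1
  -- the sum over rough integers
  have hZ1 : 1 ≤ Z := by
    have h1 : (0 : ℝ) < Z := lt_of_lt_of_le (Real.exp_pos _) hZ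
    exact_mod_cast h1
  have hIcc : Icc 1 Z = insert 1 (Icc 2 Z) := by
    ext n
    simp only [Finset.mem_Icc, Finset.mem_insert]
    omega
  have hr1 : Rough z 1 := by
    intro p hp h1
    exact absurd (Nat.dvd_one.1 h1) hp.one_lt.ne'
  have hrw : rwin χ β z Z u x = (∑ n ∈ Icc 1 Z, ((free R n : ℝ) : ℂ) * F n) - F 1 := by
    have h1 : ∀ n ∈ Icc 1 Z, ((free R n : ℝ) : ℂ) * F n = if Rough z n then F n else 0 := by
      intro n hn
      have h2 := rough_free hW χ z n (Finset.mem_Icc.1 hn).1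
      rw [hF]
      simp only
      rw [mul_assoc (ch χ n), ← mul_assoc, hRdef, ← h2]
      by_cases hr : Rough z n
      · rw [if_pos hr, if_pos hr]
      · rw [if_neg hr, if_neg hr, zero_mul]
    rw [Finset.sum_congr rfl h1, hIcc, Finset.sum_insert (by simp), if_pos hr1,
      add_sub_cancel_left]
    unfold rwin
    rw [Finset.sum_filter]
  -- replacing the indicator by the weights
  have hdiff : ‖(∑ n ∈ Icc 1 Z, ((free R n : ℝ) : ℂ) * F n) -
      ∑ n ∈ Icc 1 Z, (dsum a n : ℂ) * F n‖ ≤ ∑ n ∈ Icc 1 Z, dsum e n * g n := by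
    rw [← Finset.sum_sub_distrib]
    refine (norm_sum_le _ _).trans (Finset.sum_le_sum fun n hn => ?_)
    have hn1 := (Finset.mem_Icc.1 hn).1
    have h1 := hw.low n hn1
    have h2 := hw.up n hn1
    rw [← sub_mul, norm_mul, ← Complex.ofReal_sub, Complex.norm_real, Real.norm_eq_abs,
      abs_sub_comm, abs_of_nonneg (by linarith)]
    exact mul_le_mul h2 (hFg n) (norm_nonneg _) (by linarith)
  -- the error sum
  have hesum : ∑ n ∈ Icc 1 Z, dsum e n * g n ≤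
      sp * KT z * Real.exp (-(b : ℝ)) +
        C * (3 + 3 * Real.log z) * (1 + Real.log D) * Real.exp (-(c * x)) := by
    have h1 : ∑ n ∈ Icc 1 Z, (dsum e n : ℂ) * (ch (1 : DirichletCharacter ℂ W) n *
        ph 0 (Real.log n) * (((gs β x (Real.log n) / n : ℝ)) : ℂ)) =
        ((∑ n ∈ Icc 1 Z, dsum e n * g n : ℝ) : ℂ) := by
      rw [Complex.ofReal_sum]
      refine Finset.sum_congr rfl fun n _ => ?_
      have h2 : ph 0 (Real.log n) = 1 := by
        unfold ph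
        simp
      rw [h2, mul_one, U2_ch_one, hg]
      simp only
      rw [Complex.ofReal_mul, Complex.ofReal_mul]
      congr 2
      split_ifs <;> simp
    have hph : ph 0 x = 1 := by
      unfold ph
      simp
    rw [h1, hph, mul_one, ← Complex.ofReal_mul, ← Complex.ofReal_mul, ← Complex.ofReal_sub,
      Complex.norm_real, Real.norm_eq_abs] at hTe
    have h3 := (abs_le.1 hTe).2
    have h4 : (Nat.totient W / W : ℝ) * (∑ d ∈ (∏ ℓ ∈ R, ℓ).divisors, e d / d) ≤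
        Real.exp (-(b : ℝ)) * KT z := by
      rw [← KT_split W z hW hWz]
      have h5 : (0 : ℝ) ≤ Nat.totient W / W := by positivity
      calc (Nat.totient W / W : ℝ) * (∑ d ∈ (∏ ℓ ∈ R, ℓ).divisors, e d / d)
          ≤ (Nat.totient W / W : ℝ) * (Real.exp (-(b : ℝ)) * VR R) :=
            mul_le_mul_of_nonneg_left hw.esum h5
        _ = _ := by ring
    have h6 : (Nat.totient W / W : ℝ) * (∑ d ∈ (∏ ℓ ∈ R, ℓ).divisors, e d / d) *
        (sp * Real.exp (-(0 ^ 2 / (4 * β)))) ≤ sp * KT z * Real.exp (-(b : ℝ)) := by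
      have h7 : Real.exp (-((0 : ℝ) ^ 2 / (4 * β))) = 1 := by simp
      rw [h7, mul_one]
      calc (Nat.totient W / W : ℝ) * (∑ d ∈ (∏ ℓ ∈ R, ℓ).divisors, e d / d) * sp
          ≤ (Real.exp (-(b : ℝ)) * KT z) * sp := mul_le_mul_of_nonneg_right h4 hsp0
        _ = _ := by ring
    linarith
  -- the main sum
  have hmain : ‖∑ n ∈ Icc 1 Z, (dsum a n : ℂ) * F n‖ ≤
      sp * KT z * (if χ = 1 then 2 * Real.exp (-(u ^ 2 / (4 * β))) else 0) +
        C * 1 * (1 + Real.log D) * Real.exp (-(c * x)) := by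
    by_cases hχ : χ = 1
    · rw [if_pos hχ]
      have h0 : ‖(mv W (ch χ) * ∑ d ∈ Icc 1 D, ((a d / d : ℝ) : ℂ) * ch χ d)
            * ((sp * Real.exp (-(u ^ 2 / (4 * β))) : ℝ) : ℂ) * ph u x‖ ≤
          sp * KT z * (2 * Real.exp (-(u ^ 2 / (4 * β)))) := by
        rw [hχ, U2_sum_div R hR2 D a hasupp, mv_ch_one hW, norm_mul, U2_norm_ph, mul_one,
          ← Complex.ofReal_mul, ← Complex.ofReal_mul, Complex.norm_real]
        have h5 : (0 : ℝ) ≤ Nat.totient W / W := by positivity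
        have h6 := hw.usum0
        have hE := Real.exp_pos (-(u ^ 2 / (4 * β)))
        rw [Real.norm_of_nonneg (by positivity)]
        have h7 : (∑ d ∈ (∏ ℓ ∈ R, ℓ).divisors, a d / d) ≤ 2 * VR R := by
          have h8 : Real.exp (-(b : ℝ)) ≤ 1 := Real.exp_le_one_iff.2 (by linarith)
          have h9 : 0 ≤ VR R := by
            unfold VR
            refine Finset.prod_nonneg fun ℓ hℓ => ?_
            exact (Pool.Agent.Lib.MP_bae66e_nt.AP3.one_sub_inv_pos (hR1 ℓ hℓ).1).le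
          have h10 := hw.usum
          nlinarith
        calc (Nat.totient W / W : ℝ) * (∑ d ∈ (∏ ℓ ∈ R, ℓ).divisors, a d / d) *
              (sp * Real.exp (-(u ^ 2 / (4 * β))))
            ≤ (Nat.totient W / W : ℝ) * (2 * VR R) * (sp * Real.exp (-(u ^ 2 / (4 * β)))) := by
              gcongr
          _ = sp * ((Nat.totient W / W : ℝ) * VR R) * (2 * Real.exp (-(u ^ 2 / (4 * β)))) := by
              ring
          _ = _ := by rw [KT_split W z hW hWz]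
      have h1 := norm_le_norm_add_norm_sub' (∑ n ∈ Icc 1 Z, (dsum a n : ℂ) * F n)
        ((mv W (ch χ) * ∑ d ∈ Icc 1 D, ((a d / d : ℝ) : ℂ) * ch χ d)
            * ((sp * Real.exp (-(u ^ 2 / (4 * β))) : ℝ) : ℂ) * ph u x)
      linarith
    · rw [if_neg hχ, mul_zero, zero_add]
      rw [mv_ch_ne hW χ hχ, zero_mul, zero_mul, zero_mul, sub_zero] at hTa
      exact hTa
  -- the first term
  have hF1 : ‖F 1‖ ≤ Real.exp (-(β * x ^ 2)) := by
    refine (hFg 1).trans ?_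
    rw [hg]
    simp only [Nat.coprime_one_right_eq_true, if_true, one_mul, Nat.cast_one, Real.log_one,
      div_one]
    unfold gs
    rw [sub_zero]
  have herr := U2_err hc hc1 hx0
  have hgau := U2_gauss (c := c / 2) (x := x) hβ
  have hE0 := Real.exp_pos (-(c * x))
  have hfin : C * (3 + 3 * Real.log z) * (1 + Real.log D) * Real.exp (-(c * x)) ≤
      3 * C * ((1 + x) ^ 2 * Real.exp (-(c * x))) := by
    have h1 : (3 + 3 * Real.log z) * (1 + Real.log D) ≤ 3 * (1 + x) ^ 2 := by nlinarith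
    calc C * (3 + 3 * Real.log z) * (1 + Real.log D) * Real.exp (-(c * x))
        = C * ((3 + 3 * Real.log z) * (1 + Real.log D)) * Real.exp (-(c * x)) := by ring
      _ ≤ C * (3 * (1 + x) ^ 2) * Real.exp (-(c * x)) := by gcongr
      _ = _ := by ring
  have hfin2 : C * 1 * (1 + Real.log D) * Real.exp (-(c * x)) ≤
      3 * C * ((1 + x) ^ 2 * Real.exp (-(c * x))) := by
    have h1 : 1 * (1 + Real.log D) ≤ 3 * (1 + x) ^ 2 := by nlinarith
    calc C * 1 * (1 + Real.log D) * Real.exp (-(c * x))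
        = C * (1 * (1 + Real.log D)) * Real.exp (-(c * x)) := by ring
      _ ≤ C * (3 * (1 + x) ^ 2) * Real.exp (-(c * x)) := by gcongr
      _ = _ := by ring
  have hfin3 : 3 * C * ((1 + x) ^ 2 * Real.exp (-(c * x))) ≤
      3 * C * (16 / c ^ 2 * Real.exp (-(c / 2 * x))) :=
    mul_le_mul_of_nonneg_left herr (by positivity)
  have htri : ‖rwin χ β z Z u x‖ ≤ ‖(∑ n ∈ Icc 1 Z, ((free R n : ℝ) : ℂ) * F n) -
      ∑ n ∈ Icc 1 Z, (dsum a n : ℂ) * F n‖ + ‖∑ n ∈ Icc 1 Z, (dsum a n : ℂ) * F n‖ + ‖F 1‖ := by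
    rw [hrw]
    refine (norm_sub_le _ _).trans ?_
    gcongr
    have h1 := norm_le_norm_add_norm_sub' (∑ n ∈ Icc 1 Z, ((free R n : ℝ) : ℂ) * F n)
      (∑ n ∈ Icc 1 Z, (dsum a n : ℂ) * F n)
    linarith
  have hring : (6 * C * (16 / c ^ 2) + Real.exp ((c / 2) ^ 2 / (4 * β))) *
      Real.exp (-(c / 2 * x)) = 3 * C * (16 / c ^ 2 * Real.exp (-(c / 2 * x))) +
        3 * C * (16 / c ^ 2 * Real.exp (-(c / 2 * x))) +
        Real.exp ((c / 2) ^ 2 / (4 * β)) * Real.exp (-(c / 2 * x)) := by ring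
  rw [hring, mul_add]
  linarith

end Pool.Agent.E3
end

section

/-!
# D2: sums with the weights of the fundamental lemma
-/

set_option autoImplicit false

namespace Pool.Agent.E3

open Finset MeasureTheory Real
open Pool.Agent.Lib.MP_bae66e_nt.AP3 (Rough prI KT)

private theorem D2_norm_ph (u x : ℝ) : ‖ph u x‖ = 1 := by
  unfold ph
  exact Complex.norm_exp_ofReal_mul_I _

private theorem D2_ch_one {W : ℕ} (n : ℕ) :
    ch (1 : DirichletCharacter ℂ W) n = if W.Coprime n then (1 : ℂ) else 0 := by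
  unfold ch
  by_cases h : W.Coprime n
  · rw [if_pos h]
    exact MulChar.one_apply ((ZMod.isUnit_iff_coprime n W).2 h.symm)
  · rw [if_neg h]
    exact MulChar.map_nonunit _ fun h' => h ((ZMod.isUnit_iff_coprime n W).1 h').symm

/-- the main term of the principal character -/
private theorem D2_sum_div {W : ℕ} (R : Finset ℕ) (hR : ∀ ℓ ∈ R, ℓ.Prime ∧ ¬ ℓ ∣ W) (D : ℕ)
    (w : ℕ → ℝ) (hw : ∀ d, w d ≠ 0 → d ∣ ∏ ℓ ∈ R, ℓ ∧ (d : ℝ) ≤ (D : ℝ)) :
    ∑ d ∈ Icc 1 D, ((w d / d : ℝ) : ℂ) * ch (1 : DirichletCharacter ℂ W) d =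
      ((∑ d ∈ (∏ ℓ ∈ R, ℓ).divisors, w d / d : ℝ) : ℂ) := by
  classical
  have hP0 : ∏ ℓ ∈ R, ℓ ≠ 0 := Finset.prod_ne_zero_iff.2 fun ℓ hℓ => (hR ℓ hℓ).1.ne_zero
  have hcop : W.Coprime (∏ ℓ ∈ R, ℓ) := by
    refine Nat.Coprime.prod_right fun ℓ hℓ => ?_
    exact (((hR ℓ hℓ).1.coprime_iff_not_dvd).2 (hR ℓ hℓ).2).symm
  have h1 : ∑ d ∈ Icc 1 D, ((w d / d : ℝ) : ℂ) * ch (1 : DirichletCharacter ℂ W) d =
      ((∑ d ∈ Icc 1 D, w d / d : ℝ) : ℂ) := by
    rw [Complex.ofReal_sum]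
    refine Finset.sum_congr rfl fun d _ => ?_
    by_cases h0 : w d = 0
    · rw [h0, zero_div, Complex.ofReal_zero, zero_mul]
    · rw [D2_ch_one, if_pos (hcop.coprime_dvd_right (hw d h0).1), mul_one]
  rw [h1]
  congr 1
  rw [← Finset.sum_filter_ne_zero, ← Finset.sum_filter_ne_zero (s := (∏ ℓ ∈ R, ℓ).divisors)]
  refine Finset.sum_congr ?_ fun _ _ => rfl
  ext d
  simp only [Finset.mem_filter, Finset.mem_Icc, Nat.mem_divisors]
  constructor
  · rintro ⟨_, h0⟩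
    have h2 : w d ≠ 0 := fun h => h0 (by rw [h, zero_div])
    exact ⟨⟨(hw d h2).1, hP0⟩, h0⟩
  · rintro ⟨⟨hd, _⟩, h0⟩
    have h2 : w d ≠ 0 := fun h => h0 (by rw [h, zero_div])
    refine ⟨⟨Nat.pos_of_dvd_of_pos hd (Nat.pos_of_ne_zero hP0), ?_⟩, h0⟩
    exact_mod_cast (hw d h2).2

/-- the errors -/
private theorem D2_err {c x : ℝ} (hc : 0 < c) (hc1 : c ≤ 1 / 2) (hx : 0 ≤ x) :
    (1 + x) ^ 2 * Real.exp (-(c * x)) ≤ 16 / c ^ 2 * Real.exp (-(c / 2 * x)) := by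
  have h1 : c / 4 * (1 + x) ≤ Real.exp (c * x / 4) := by
    have h2 := Real.add_one_le_exp (c * x / 4)
    nlinarith
  have h3 : 0 ≤ c / 4 * (1 + x) := by positivity
  have h4 : (c / 4 * (1 + x)) ^ 2 ≤ Real.exp (c * x / 2) := by
    calc (c / 4 * (1 + x)) ^ 2 ≤ Real.exp (c * x / 4) ^ 2 := by gcongr
      _ = Real.exp (c * x / 2) := by
        rw [← Real.exp_nat_mul]
        congr 1
        push_cast
        ring
  have h5 : (1 + x) ^ 2 ≤ 16 / c ^ 2 * Real.exp (c * x / 2) := by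
    have h6 : (1 + x) ^ 2 = 16 / c ^ 2 * (c / 4 * (1 + x)) ^ 2 := by
      field_simp
      ring
    rw [h6]
    gcongr
  calc (1 + x) ^ 2 * Real.exp (-(c * x))
      ≤ 16 / c ^ 2 * Real.exp (c * x / 2) * Real.exp (-(c * x)) := by gcongr
    _ = 16 / c ^ 2 * Real.exp (-(c / 2 * x)) := by
        rw [mul_assoc, ← Real.exp_add]
        congr 2
        ring

open Classical in
/-- one weight function -/
private theorem D2_one {W : ℕ} (hW : 1 ≤ W) (β : ℝ) (χ : DirichletCharacter ℂ W) (R : Finset ℕ)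
    (hR : ∀ ℓ ∈ R, ℓ.Prime ∧ ¬ ℓ ∣ W) (D : ℕ) (a : ℕ → ℝ)
    (hasupp : ∀ d, a d ≠ 0 → d ∣ ∏ ℓ ∈ R, ℓ ∧ (d : ℝ) ≤ (D : ℝ)) (S : ℂ) (x v E M K : ℝ)
    (hT : ‖S - (mv W (ch χ) * ∑ d ∈ Icc 1 D, ((a d / d : ℝ) : ℂ) * ch χ d)
            * ((Real.sqrt (π / β) * Real.exp (-(v ^ 2 / (4 * β))) : ℝ) : ℂ) * ph v x‖ ≤ E)
    (hs0 : 0 ≤ ∑ d ∈ (∏ ℓ ∈ R, ℓ).divisors, a d / d)
    (hs : (Nat.totient W / W : ℝ) * (∑ d ∈ (∏ ℓ ∈ R, ℓ).divisors, a d / d) ≤ M * K) :
    ‖S‖ ≤ (if χ = 1 then M * (Real.sqrt (π / β) * K * Real.exp (-(v ^ 2 / (4 * β)))) else 0) + E := by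
  set sp := Real.sqrt (π / β) with hsp
  have hsp0 : 0 ≤ sp := Real.sqrt_nonneg _
  by_cases hχ : χ = 1
  · rw [if_pos hχ]
    have h0 : ‖(mv W (ch χ) * ∑ d ∈ Icc 1 D, ((a d / d : ℝ) : ℂ) * ch χ d)
          * ((sp * Real.exp (-(v ^ 2 / (4 * β))) : ℝ) : ℂ) * ph v x‖ ≤
        M * (sp * K * Real.exp (-(v ^ 2 / (4 * β)))) := by
      rw [hχ, D2_sum_div R hR D a hasupp, mv_ch_one hW, norm_mul, D2_norm_ph, mul_one,
        ← Complex.ofReal_mul, ← Complex.ofReal_mul, Complex.norm_real]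
      have h5 : (0 : ℝ) ≤ Nat.totient W / W := by positivity
      have hE := Real.exp_pos (-(v ^ 2 / (4 * β)))
      rw [Real.norm_of_nonneg (by positivity)]
      calc (Nat.totient W / W : ℝ) * (∑ d ∈ (∏ ℓ ∈ R, ℓ).divisors, a d / d) *
            (sp * Real.exp (-(v ^ 2 / (4 * β))))
          ≤ (M * K) * (sp * Real.exp (-(v ^ 2 / (4 * β)))) :=
            mul_le_mul_of_nonneg_right hs (by positivity)
        _ = _ := by ring
    have h1 := norm_le_norm_add_norm_sub' S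
      ((mv W (ch χ) * ∑ d ∈ Icc 1 D, ((a d / d : ℝ) : ℂ) * ch χ d)
          * ((sp * Real.exp (-(v ^ 2 / (4 * β))) : ℝ) : ℂ) * ph v x)
    linarith
  · rw [if_neg hχ, zero_add]
    rw [mv_ch_ne hW χ hχ, zero_mul, zero_mul, zero_mul, sub_zero] at hT
    exact hT

open Classical in
/-- PROOF. `b0` from `fl_weights`, `c₁, C₁` from `type_one 5` (`C₁` for `W, β`), `c = c₁ / 2`. `R = (prI 0 z).filter (¬ · ∣ W)`,
`u, e` the weights of `fl_weights b z R`; their level is `D = z^(4b+6)` (natural), `2 log D ≤ x`, and `|u| ≤ 1`,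
`|e| ≤ 3 + 3 log z`. Apply `type_one` (with `χ` replaced by the function `ch χ`, `PC_ch`) to `u` and to `e`:
the error is `≤ C₁ (3 + 3 log z) (1 + log D) exp (- c₁ x) ≤ C₁ (3 + 3 x) (1 + x) exp (- c₁ x) ≤ C exp (- c x)`.
The main term: for `χ ≠ 1` zero (`mv_ch_ne`); for `χ = 1` it is `(φ(W)/W) (∑_{d ≤ D} (u d / d) ch 1 d) ·
√(π/β) exp (- v²/(4β)) · ph`, where all `d` with `u d ≠ 0` divide `∏ R`, hence are coprime to `W`, so `ch 1 d = 1` and the sum
is `∑_{d ∣ ∏ R} u d / d` (a divisor `d` of `∏ R` with `d > D` has `u d = 0`), between `0` and `(1 + exp (-b)) VR R ≤ 2 VR R`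
(for `e`: `≤ exp (-b) VR R`), and `(φ(W)/W) VR R = KT z` (`KT_split`). (The same argument as in `rough_window`.) -/
theorem kernel : ∃ b0 : ℕ, ∃ c : ℝ, 0 < c ∧ c ≤ 1 / 4 ∧ ∀ β : ℝ, 0 < β → ∀ W : ℕ, 1 ≤ W → ∃ C : ℝ, 1 ≤ C ∧
    ∀ b z : ℕ, b0 ≤ b → 2 ≤ z → W ≤ z → ∃ u e : ℕ → ℝ,
      (∀ n, 1 ≤ n → free ((prI 0 z).filter (fun ℓ => ¬ ℓ ∣ W)) n ≤ dsum u n ∧
        dsum u n - free ((prI 0 z).filter (fun ℓ => ¬ ℓ ∣ W)) n ≤ dsum e n) ∧
      ∀ (χ : DirichletCharacter ℂ W) (x v : ℝ) (Z : ℕ), (8 * b + 12) * Real.log z ≤ x →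
        Real.exp (2 * x) ≤ Z → |v| ≤ Real.exp (5 * x) →
        ‖∑ n ∈ Icc 1 Z, ((dsum u n : ℝ) : ℂ) *
            (ch χ n * ph v (Real.log n) * (((gs β x (Real.log n) / n : ℝ)) : ℂ))‖
          ≤ (if χ = 1 then 2 * (Real.sqrt (π / β) * KT z * Real.exp (-(v ^ 2 / (4 * β)))) else 0)
            + C * Real.exp (-(c * x)) ∧
        ‖∑ n ∈ Icc 1 Z, ((dsum e n : ℝ) : ℂ) *
            (ch χ n * ph v (Real.log n) * (((gs β x (Real.log n) / n : ℝ)) : ℂ))‖
          ≤ (if χ = 1 then Real.exp (-(b : ℝ)) * (Real.sqrt (π / β) * KT z * Real.exp (-(v ^ 2 / (4 * β))))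
              else 0) + C * Real.exp (-(c * x)) := by
  obtain ⟨b0, hb0⟩ := fl_weights
  obtain ⟨c, hc, hc1, hT1⟩ := type_one 5 (by norm_num)
  refine ⟨b0, c / 2, by linarith, by linarith, fun β hβ W hW => ?_⟩
  obtain ⟨C, hC, hT⟩ := hT1 W hW β hβ
  refine ⟨3 * C * (16 / c ^ 2), ?_, ?_⟩
  · have h1 : 1 ≤ 16 / c ^ 2 := by
      rw [le_div_iff₀ (by positivity)]
      nlinarith
    nlinarith
  intro b z hb hz hWz
  have hz1 : (1 : ℝ) ≤ z := by exact_mod_cast (by omega : 1 ≤ z)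
  have hlz : 0 ≤ Real.log z := Real.log_nonneg hz1
  have hbn : (0 : ℝ) ≤ b := Nat.cast_nonneg b
  set R := (prI 0 z).filter (fun ℓ => ¬ ℓ ∣ W) with hRdef
  have hR1 : ∀ ℓ ∈ R, ℓ.Prime ∧ ℓ ≤ z := by
    intro ℓ hℓ
    rw [hRdef, Finset.mem_filter, Pool.Agent.Lib.MP_bae66e_nt.AP3.mem_prI] at hℓ
    exact ⟨hℓ.1.2, hℓ.1.1.2⟩
  have hR2 : ∀ ℓ ∈ R, ℓ.Prime ∧ ¬ ℓ ∣ W := by
    intro ℓ hℓ
    refine ⟨(hR1 ℓ hℓ).1, ?_⟩
    rw [hRdef, Finset.mem_filter] at hℓ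
    exact hℓ.2
  obtain ⟨a, e, hw⟩ := hb0 b z R hb hz hR1
  refine ⟨a, e, fun n hn => ⟨hw.low n hn, hw.up n hn⟩, ?_⟩
  intro χ x v Z hx hZ hv
  have hx0 : 0 ≤ x := le_trans (by positivity) hx
  have hlzx : Real.log z ≤ x := by nlinarith
  have hDc : ((z ^ (4 * b + 6) : ℕ) : ℝ) = (z : ℝ) ^ (4 * b + 6) := by push_cast; ring
  set D : ℕ := z ^ (4 * b + 6) with hD
  have hD1 : 1 ≤ D := Nat.one_le_pow _ _ (by omega)
  have hlogD : Real.log D = (4 * b + 6) * Real.log z := by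
    rw [hDc, Real.log_pow]
    push_cast
    ring
  have hDx : 2 * Real.log D ≤ x := by
    rw [hlogD]
    linarith
  have hlogD0 : 0 ≤ Real.log D := by
    rw [hlogD]
    positivity
  have hDx' : Real.log D ≤ x := by linarith
  have hasupp : ∀ d, a d ≠ 0 → d ∣ ∏ ℓ ∈ R, ℓ ∧ (d : ℝ) ≤ (D : ℝ) := fun d hd => by
    rw [hDc]
    exact hw.usupp d hd
  have hesupp : ∀ d, e d ≠ 0 → d ∣ ∏ ℓ ∈ R, ℓ ∧ (d : ℝ) ≤ (D : ℝ) := fun d hd => by
    rw [hDc]
    exact hw.esupp d hd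
  have haD : ∀ d, D < d → a d = 0 := by
    intro d hd
    by_contra h
    have h1 : d ≤ D := by exact_mod_cast (hasupp d h).2
    omega
  have heD : ∀ d, D < d → e d = 0 := by
    intro d hd
    by_contra h
    have h1 : d ≤ D := by exact_mod_cast (hesupp d h).2
    omega
  have hv5 : |v| ≤ Real.exp (((5 : ℕ) : ℝ) * x) := by
    push_cast
    exact hv
  have hTa := hT (ch χ) (PC_ch χ) a D 1 hD1 haD hw.ubd x v Z hx0 hDx hZ hv5
  have hTe := hT (ch χ) (PC_ch χ) e D (3 + 3 * Real.log z) hD1 heD hw.ebd x v Z hx0 hDx hZ hv5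
  have herr := D2_err hc hc1 hx0
  have hE0 := Real.exp_pos (-(c * x))
  have hfin : C * (3 + 3 * Real.log z) * (1 + Real.log D) * Real.exp (-(c * x)) ≤
      3 * C * (16 / c ^ 2) * Real.exp (-(c / 2 * x)) := by
    have h1 : (3 + 3 * Real.log z) * (1 + Real.log D) ≤ 3 * (1 + x) ^ 2 := by nlinarith
    calc C * (3 + 3 * Real.log z) * (1 + Real.log D) * Real.exp (-(c * x))
        = C * ((3 + 3 * Real.log z) * (1 + Real.log D)) * Real.exp (-(c * x)) := by ring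
      _ ≤ C * (3 * (1 + x) ^ 2) * Real.exp (-(c * x)) := by gcongr
      _ = 3 * C * ((1 + x) ^ 2 * Real.exp (-(c * x))) := by ring
      _ ≤ 3 * C * (16 / c ^ 2 * Real.exp (-(c / 2 * x))) :=
        mul_le_mul_of_nonneg_left herr (by positivity)
      _ = _ := by ring
  have hfin2 : C * 1 * (1 + Real.log D) * Real.exp (-(c * x)) ≤
      3 * C * (16 / c ^ 2) * Real.exp (-(c / 2 * x)) := by
    refine le_trans ?_ hfin
    have h2 : C * 1 ≤ C * (3 + 3 * Real.log z) := by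
      apply mul_le_mul_of_nonneg_left _ (by linarith)
      linarith
    gcongr
  have h5 : (0 : ℝ) ≤ Nat.totient W / W := by positivity
  have hVR0 : 0 ≤ VR R := by
    unfold VR
    refine Finset.prod_nonneg fun ℓ hℓ => ?_
    exact (Pool.Agent.Lib.MP_bae66e_nt.AP3.one_sub_inv_pos (hR1 ℓ hℓ).1).le
  refine ⟨?_, ?_⟩
  · refine (D2_one hW β χ R hR2 D a hasupp _ x v _ 2 (KT z) hTa hw.usum0 ?_).trans ?_
    · rw [← KT_split W z hW hWz]
      have h7 : (∑ d ∈ (∏ ℓ ∈ R, ℓ).divisors, a d / d) ≤ 2 * VR R := by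
        have h8 : Real.exp (-(b : ℝ)) ≤ 1 := Real.exp_le_one_iff.2 (by linarith)
        have h10 := hw.usum
        nlinarith
      calc (Nat.totient W / W : ℝ) * (∑ d ∈ (∏ ℓ ∈ R, ℓ).divisors, a d / d)
          ≤ (Nat.totient W / W : ℝ) * (2 * VR R) := mul_le_mul_of_nonneg_left h7 h5
        _ = _ := by ring
    · linarith
  · refine (D2_one hW β χ R hR2 D e hesupp _ x v _ (Real.exp (-(b : ℝ))) (KT z) hTe hw.esum0
      ?_).trans ?_
    · rw [← KT_split W z hW hWz]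
      calc (Nat.totient W / W : ℝ) * (∑ d ∈ (∏ ℓ ∈ R, ℓ).divisors, e d / d)
          ≤ (Nat.totient W / W : ℝ) * (Real.exp (-(b : ℝ)) * VR R) :=
            mul_le_mul_of_nonneg_left hw.esum h5
        _ = _ := by ring
    · linarith

end Pool.Agent.E3
end

section

/-!
# Y3: the windows of the rough integers are small
-/

set_option autoImplicit false

namespace Pool.Agent.E3

open Finset MeasureTheory Real
open Pool.Agent.Lib.MP_bae66e_nt.AP3 (KT)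

private lemma Y3_exp (c x : ℝ) (hc : 0 < c) (hx : 0 < x) :
    Real.exp (-(c * x)) ≤ 2 / (c ^ 2 * x) / x := by
  have hcx : 0 < c * x := mul_pos hc hx
  have h1 := Real.quadratic_le_exp_of_nonneg hcx.le
  have h2 : (c * x) ^ 2 / 2 ≤ Real.exp (c * x) := by linarith
  have h3 : 0 < (c * x) ^ 2 / 2 := by positivity
  rw [Real.exp_neg]
  calc (Real.exp (c * x))⁻¹ ≤ ((c * x) ^ 2 / 2)⁻¹ := inv_anti₀ h3 h2
    _ = 2 / (c ^ 2 * x) / x := by
        field_simp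

/-- PROOF. `rough_window 2` with `A = ⌈2/η⌉₊`: `|t| ≤ 2 exp L ≤ exp (2 L) ≤ exp (A x)` (`L ≥ 1`). `WIN (ch χ) 2 (RS z Z) t x = rwin χ 2 z Z t x`.
`√(π/2) ≤ 2`, `KT z ≤ 1/log z` (`KT_le`, `log z ≤ log (z+1)`), and for `x ≥ η L ≥ η L₀`: `C exp (- c x) ≤ κ / x ≤ κ / log z`
(`log z ≤ x`). -/
theorem rough_small : ∃ b0 : ℕ, ∃ C₀ : ℝ, 1 ≤ C₀ ∧ ∀ W : ℕ, 1 ≤ W → ∀ η κ : ℝ, 0 < η → η ≤ 1 → 0 < κ →
    ∃ L₀ : ℝ, 1 ≤ L₀ ∧ ∀ L : ℝ, L₀ ≤ L → ∀ (χ : DirichletCharacter ℂ W) (b z : ℕ), b0 ≤ b → 2 ≤ z → W ≤ z →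
    ∀ (x t : ℝ) (Z : ℕ), η * L ≤ x → (8 * b + 12) * Real.log z ≤ x → Real.exp (2 * x) ≤ Z →
      |t| ≤ 2 * Real.exp L →
      ‖WIN (ch χ) 2 (RS z Z) t x‖ ≤ C₀ / Real.log z * (Real.exp (-(t ^ 2 / 8)) + Real.exp (-(b : ℝ)) + κ) := by
  classical
  obtain ⟨b0, hb0⟩ := rough_window 2 (by norm_num)
  refine ⟨b0, 4, by norm_num, ?_⟩
  intro W hW η κ hη hη1 hκ
  have hA1 : 1 ≤ ⌈2 / η⌉₊ := Nat.one_le_ceil_iff.mpr (by positivity)
  obtain ⟨c, C, hc, hc2, hC, hrw⟩ := hb0 ⌈2 / η⌉₊ hA1 W hW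
  have hC0 : 0 < C := by linarith
  refine ⟨1 + 2 * C / (c ^ 2 * κ * η), by
    have : 0 ≤ 2 * C / (c ^ 2 * κ * η) := by positivity
    linarith, ?_⟩
  intro L hL χ b z hb hz hWz x t Z hx hlz hZ ht
  have hL1 : 1 ≤ L := by
    have : 0 ≤ 2 * C / (c ^ 2 * κ * η) := by positivity
    linarith
  have hL2 : 2 * C / (c ^ 2 * κ * η) ≤ L := by linarith
  have hzR : (2 : ℝ) ≤ (z : ℝ) := by exact_mod_cast hz
  have hlogz : 0 < Real.log z := Real.log_pos (by linarith)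
  have hηL : 0 < η * L := by positivity
  have hx0 : 0 < x := by linarith
  have hlx : Real.log z ≤ x := by
    have hb' : (0 : ℝ) ≤ (b : ℝ) := Nat.cast_nonneg b
    nlinarith
  have ht2 : |t| ≤ Real.exp ((⌈2 / η⌉₊ : ℝ) * x) := by
    have h1 : 2 ≤ Real.exp L := by
      have := Real.add_one_le_exp L
      linarith
    have h2 : 2 * Real.exp L ≤ Real.exp (2 * L) := by
      have h3 : Real.exp (2 * L) = Real.exp L * Real.exp L := by
        rw [← Real.exp_add]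
        congr 1
        ring
      rw [h3]
      exact mul_le_mul_of_nonneg_right h1 (Real.exp_pos _).le
    have h3 : 2 * L ≤ (⌈2 / η⌉₊ : ℝ) * x := by
      have h4 : 2 / η ≤ (⌈2 / η⌉₊ : ℝ) := Nat.le_ceil _
      calc 2 * L = 2 / η * (η * L) := by field_simp
        _ ≤ (⌈2 / η⌉₊ : ℝ) * x := mul_le_mul h4 hx hηL.le (Nat.cast_nonneg _)
    exact le_trans ht (le_trans h2 (Real.exp_le_exp.mpr h3))
  have hmain := hrw χ b z hb hz hWz x t Z hlz hZ ht2
  have heq : WIN (ch χ) 2 (RS z Z) t x = rwin χ 2 z Z t x := rfl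
  rw [heq]
  refine le_trans hmain ?_
  have hpi : Real.sqrt (π / 2) ≤ 2 := by
    rw [Real.sqrt_le_left (by norm_num)]
    have := Real.pi_le_four
    linarith
  have hKT0 : 0 < KT z := Pool.Agent.Lib.MP_bae66e_nt.AP3.KT_pos z
  have hKT : KT z ≤ 1 / Real.log z := by
    refine le_trans (Pool.Agent.Lib.MP_bae66e_nt.AP3.KT_le z (by omega)) ?_
    apply one_div_le_one_div_of_le hlogz
    apply Real.log_le_log (by linarith)
    linarith
  have hE : (if χ = 1 then 2 * Real.exp (-(t ^ 2 / (4 * 2))) else 0) + Real.exp (-(b : ℝ))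
      ≤ 2 * (Real.exp (-(t ^ 2 / 8)) + Real.exp (-(b : ℝ))) := by
    have h8 : (4 * 2 : ℝ) = 8 := by norm_num
    have h9 := (Real.exp_pos (-(t ^ 2 / 8))).le
    have h10 := (Real.exp_pos (-(b : ℝ))).le
    rw [h8]
    split_ifs <;> linarith
  have hE0 : 0 ≤ (if χ = 1 then 2 * Real.exp (-(t ^ 2 / (4 * 2))) else 0)
      + Real.exp (-(b : ℝ)) := by
    have h9 := (Real.exp_pos (-(t ^ 2 / (4 * 2)))).le
    have h10 := (Real.exp_pos (-(b : ℝ))).le
    split_ifs <;> linarith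
  have h1 : Real.sqrt (π / 2) * KT z *
      ((if χ = 1 then 2 * Real.exp (-(t ^ 2 / (4 * 2))) else 0) + Real.exp (-(b : ℝ)))
      ≤ 2 * (1 / Real.log z) * (2 * (Real.exp (-(t ^ 2 / 8)) + Real.exp (-(b : ℝ)))) := by
    apply mul_le_mul _ hE hE0 (by positivity)
    exact mul_le_mul hpi hKT hKT0.le (by norm_num)
  have h2 : C * Real.exp (-(c * x)) ≤ 1 / Real.log z * κ := by
    have hxL : 2 * C / (c ^ 2 * κ) ≤ x := by
      calc 2 * C / (c ^ 2 * κ) = η * (2 * C / (c ^ 2 * κ * η)) := by field_simp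
        _ ≤ η * L := mul_le_mul_of_nonneg_left hL2 hη.le
        _ ≤ x := hx
    have h3 := Y3_exp c x hc hx0
    calc C * Real.exp (-(c * x)) ≤ C * (2 / (c ^ 2 * x) / x) :=
          mul_le_mul_of_nonneg_left h3 hC0.le
      _ = (2 * C / c ^ 2 / x) * (1 / x) := by field_simp
      _ ≤ κ * (1 / Real.log z) := by
          apply mul_le_mul _ (one_div_le_one_div_of_le hlogz hlx) (by positivity) hκ.le
          rw [div_le_iff₀ hx0]
          rw [div_le_iff₀ (by positivity)] at hxL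
          rw [div_le_iff₀ (by positivity)]
          linarith
      _ = 1 / Real.log z * κ := by ring
  have h3 : 0 ≤ 1 / Real.log z * κ := by positivity
  calc Real.sqrt (π / 2) * KT z *
      ((if χ = 1 then 2 * Real.exp (-(t ^ 2 / (4 * 2))) else 0) + Real.exp (-(b : ℝ)))
        + C * Real.exp (-(c * x))
      ≤ 2 * (1 / Real.log z) * (2 * (Real.exp (-(t ^ 2 / 8)) + Real.exp (-(b : ℝ))))
        + 4 * (1 / Real.log z * κ) := by linarith
    _ = 4 / Real.log z * (Real.exp (-(t ^ 2 / 8)) + Real.exp (-(b : ℝ)) + κ) := by ring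

end Pool.Agent.E3
end

section

/-!
# Y4: the twisted windows of the rough integers, and the contribution of the small primes
-/

set_option autoImplicit false

namespace Pool.Agent.E3

open Finset MeasureTheory Real

/-- PROOF. `n = p` runs over the primes. `gs 1 (j + 1/2) (log p) ≥ exp (-1/4)` for `e^j < p ≤ e^(j+1)`, so by `tb_prime 1`
`∑_{e^j < p ≤ e^(j+1)} log p / p ≤ C`; there are `≤ log z + 1` values of `j`, and `1 ≤ 2 log z`. -/
theorem sum_lp_le : ∃ C : ℝ, 1 ≤ C ∧ ∀ z : ℕ, 2 ≤ z → ∑ n ∈ Icc 1 z, lp n / n ≤ C * Real.log z := by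
  refine ⟨3, by norm_num, ?_⟩
  intro z hz
  have h := Pool.Agent.Lib.MP_bae66e_nt.sum_log_div_le z (by omega)
  have hzR : (2 : ℝ) ≤ (z : ℝ) := by exact_mod_cast hz
  have hl : Real.log 2 ≤ Real.log z := Real.log_le_log (by norm_num) hzR
  have h4 : Real.log 4 = 2 * Real.log 2 := by
    rw [show (4 : ℝ) = 2 ^ 2 by norm_num, Real.log_pow]
    norm_num
  have heq : ∑ n ∈ Icc 1 z, lp n / n
      = ∑ p ∈ Pool.Agent.Lib.MP_bae66e_nt.prms z, Real.log p / p := by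
    have h1 : ∀ n ∈ Icc 1 z, lp n / (n : ℝ) = if n.Prime then Real.log n / n else 0 := by
      intro n _
      unfold lp
      split_ifs
      · rfl
      · simp
    rw [Finset.sum_congr rfl h1, ← Finset.sum_filter]
    apply Finset.sum_congr _ (fun _ _ => rfl)
    ext p
    rw [Finset.mem_filter, Finset.mem_Icc, Pool.Agent.Lib.MP_bae66e_nt.mem_prms]
    constructor
    · rintro ⟨⟨_, h2⟩, h3⟩
      exact ⟨h2, h3⟩
    · rintro ⟨h2, h3⟩
      exact ⟨⟨h3.one_le, h2⟩, h3⟩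
  rw [heq]
  linarith

private lemma Y4_BW (a b : ℕ → ℂ) (S S' : Finset ℕ) (β t x : ℝ) :
    BW a b S S' β t x = ∑ d ∈ S, (a d * ph t (Real.log d) * (((1 / d : ℝ)) : ℂ))
      * WIN b β S' t (x - Real.log d) := by
  unfold BW WIN
  apply Finset.sum_congr rfl
  intro d _
  rw [Finset.mul_sum]
  apply Finset.sum_congr rfl
  intro m _
  have hg : gs β x (Real.log d + Real.log m) = gs β (x - Real.log d) (Real.log m) := by
    unfold gs
    congr 2
    ring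
  rw [hg]
  push_cast
  by_cases hd : (d : ℂ) = 0
  · rw [hd]
    simp
  · by_cases hm : (m : ℂ) = 0
    · rw [hm]
      simp
    · field_simp

private lemma Y4_ph (t x : ℝ) : ‖ph t x‖ = 1 := by
  unfold ph
  exact Complex.norm_exp_ofReal_mul_I _

/-- PROOF. `b0, C₁` from `rough_small` (use it with `η/2`), `σ = 1/L`. (1) `WIN_tw`: for `x' ≥ (η/2) L + 1`, `x' ≤ L + 1`:
`‖WIN (tw σ (ch χ)) 2 (RS z N) t x'‖ = exp (- σ x' + σ²/8) ‖WIN (ch χ) 2 (RS z N) t (x' - σ/4)‖ ≤ 2 ‖…‖`, and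
`x' - σ/4 ≥ (η/2) L ≥ (8b+12) log z`, so it is `≤ (2 C₁/log z)(…)`. The first claim is the case `x' = x`.
(2) `BW … x = ∑_{p ≤ z} (lp p tw σ (ch χ) p ph t (log p) / p) · WIN (tw σ (ch χ)) 2 (RS z N) t (x - log p)`, because
`gs 2 x (log p + log m) = gs 2 (x - log p) (log m)`; `x - log p ≥ η L - log z ≥ (η/2) L + 1`; `sum_lp_le`. -/
theorem small_primes : ∃ b0 : ℕ, ∃ C₀ : ℝ, 1 ≤ C₀ ∧ ∀ W : ℕ, 1 ≤ W → ∀ η κ : ℝ, 0 < η → η ≤ 1 → 0 < κ →
    ∃ L₀ : ℝ, 1 ≤ L₀ ∧ ∀ L : ℝ, L₀ ≤ L → ∀ (χ : DirichletCharacter ℂ W) (b z : ℕ), b0 ≤ b → 2 ≤ z → W ≤ z →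
    ∀ (x t : ℝ) (N : ℕ), η * L ≤ x → x ≤ L + 1 → (8 * b + 12) * Real.log z ≤ η / 2 * L →
      Real.log z + 1 ≤ η / 2 * L → Real.exp (2 * (L + 1)) ≤ N → |t| ≤ 2 * Real.exp L →
      ‖WIN (tw (1 / L) (ch χ)) 2 (RS z N) t x‖
        ≤ C₀ / Real.log z * (Real.exp (-(t ^ 2 / 8)) + Real.exp (-(b : ℝ)) + κ) ∧
      ‖BW (tw (1 / L) (lpc χ)) (tw (1 / L) (ch χ)) (Icc 1 z) (RS z N) 2 t x‖
        ≤ C₀ * (Real.exp (-(t ^ 2 / 8)) + Real.exp (-(b : ℝ)) + κ) := by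
  obtain ⟨b0, C₁, hC₁, hrs⟩ := rough_small
  obtain ⟨C₂, hC₂, hlp⟩ := sum_lp_le
  refine ⟨b0, 2 * C₁ * C₂, by nlinarith, ?_⟩
  intro W hW η κ hη hη1 hκ
  obtain ⟨L₀, hL₀, hrs'⟩ := hrs W hW (η / 2) κ (by linarith) (by linarith) hκ
  refine ⟨L₀, hL₀, ?_⟩
  intro L hL χ b z hb hz hWz x t N hx hx1 hlz hlz1 hN ht
  have hL1 : 1 ≤ L := by linarith
  have hL0 : 0 < L := by linarith
  have hzR : (2 : ℝ) ≤ (z : ℝ) := by exact_mod_cast hz
  have hlogz : 0 < Real.log z := Real.log_pos (by linarith)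
  set E : ℝ := Real.exp (-(t ^ 2 / 8)) + Real.exp (-(b : ℝ)) + κ with hE
  have hE0 : 0 < E := by positivity
  have hσ0 : 0 < 1 / L := by positivity
  have hσ1 : 1 / L ≤ 1 := by
    rw [div_le_one hL0]
    exact hL1
  have hmain : ∀ x' : ℝ, η / 2 * L + 1 ≤ x' → x' ≤ L + 1 →
      ‖WIN (tw (1 / L) (ch χ)) 2 (RS z N) t x'‖ ≤ 2 * C₁ / Real.log z * E := by
    intro x' h1 h2
    have hx'0 : 0 ≤ x' := by
      have : 0 < η / 2 * L := by positivity
      linarith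
    have hx'' : 1 / L / (2 * 2) ≤ 1 := by linarith
    have hbd := hrs' L hL χ b z hb hz hWz (x' - 1 / L / (2 * 2)) t N (by linarith)
      (by linarith) (le_trans (Real.exp_le_exp.mpr (by linarith)) hN) ht
    rw [WIN_tw _ _ _ _ _ _ (by norm_num : (0 : ℝ) < 2), norm_mul, Complex.norm_real,
      Real.norm_of_nonneg (Real.exp_pos _).le]
    have he : Real.exp (-(1 / L * x') + (1 / L) ^ 2 / (4 * 2)) ≤ 2 := by
      have h3 : (1 / L) ^ 2 ≤ 1 := by
        have := pow_le_pow_left₀ hσ0.le hσ1 2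
        simpa using this
      have h4 : 0 ≤ 1 / L * x' := mul_nonneg hσ0.le hx'0
      have h5 : Real.exp (-(1 / L * x') + (1 / L) ^ 2 / (4 * 2)) ≤ Real.exp (1 / 8) := by
        apply Real.exp_le_exp.mpr
        linarith
      have h6 : Real.exp (1 / 8) ≤ 2 := by
        rw [← Real.le_log_iff_exp_le (by norm_num)]
        have := Real.log_two_gt_d9
        linarith
      linarith
    calc Real.exp (-(1 / L * x') + (1 / L) ^ 2 / (4 * 2))
          * ‖WIN (ch χ) 2 (RS z N) t (x' - 1 / L / (2 * 2))‖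
        ≤ 2 * (C₁ / Real.log z * E) := mul_le_mul he hbd (norm_nonneg _) (by norm_num)
      _ = 2 * C₁ / Real.log z * E := by ring
  constructor
  · have hx2 : η / 2 * L + 1 ≤ x := by linarith
    refine le_trans (hmain x hx2 hx1) ?_
    apply mul_le_mul_of_nonneg_right _ hE0.le
    apply div_le_div_of_nonneg_right _ hlogz.le
    nlinarith
  · rw [Y4_BW]
    refine le_trans (norm_sum_le _ _) ?_
    have hterm : ∀ d ∈ Icc 1 z, ‖(tw (1 / L) (lpc χ) d * ph t (Real.log d)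
        * (((1 / d : ℝ)) : ℂ)) * WIN (tw (1 / L) (ch χ)) 2 (RS z N) t (x - Real.log d)‖
        ≤ lp d / d * (2 * C₁ / Real.log z * E) := by
      intro d hd
      obtain ⟨hd1, hd2⟩ := Finset.mem_Icc.mp hd
      have hd1R : (1 : ℝ) ≤ (d : ℝ) := by exact_mod_cast hd1
      have hd2R : (d : ℝ) ≤ (z : ℝ) := by exact_mod_cast hd2
      have hld0 : 0 ≤ Real.log d := Real.log_nonneg hd1R
      have hldz : Real.log d ≤ Real.log z := Real.log_le_log (by linarith) hd2R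
      have hw := hmain (x - Real.log d) (by linarith) (by linarith)
      have hlp0 : 0 ≤ lp d := by
        unfold lp
        split_ifs
        · exact hld0
        · exact le_refl 0
      have ha : ‖tw (1 / L) (lpc χ) d‖ ≤ lp d := by
        unfold tw lpc
        rw [norm_mul, norm_mul, Complex.norm_real, Complex.norm_real,
          Real.norm_of_nonneg hlp0, Real.norm_of_nonneg (Real.exp_pos _).le]
        have h1 : ‖ch χ d‖ ≤ 1 := by
          unfold ch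
          exact DirichletCharacter.norm_le_one χ _
        have h2 : Real.exp (-(1 / L * Real.log d)) ≤ 1 := by
          apply Real.exp_le_one_iff.mpr
          have := mul_nonneg hσ0.le hld0
          linarith
        calc lp d * ‖ch χ d‖ * Real.exp (-(1 / L * Real.log d)) ≤ lp d * 1 * 1 := by
              apply mul_le_mul _ h2 (Real.exp_pos _).le (by linarith)
              exact mul_le_mul_of_nonneg_left h1 hlp0
          _ = lp d := by ring
      rw [norm_mul, norm_mul, norm_mul, Y4_ph, mul_one, Complex.norm_real,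
        Real.norm_of_nonneg (by positivity : (0 : ℝ) ≤ 1 / d)]
      apply mul_le_mul _ hw (norm_nonneg _) (div_nonneg hlp0 (by linarith))
      calc ‖tw (1 / L) (lpc χ) d‖ * (1 / d) ≤ lp d * (1 / d) :=
            mul_le_mul_of_nonneg_right ha (by positivity)
        _ = lp d / d := by ring
    refine le_trans (Finset.sum_le_sum hterm) ?_
    rw [← Finset.sum_mul]
    calc (∑ d ∈ Icc 1 z, lp d / (d : ℝ)) * (2 * C₁ / Real.log z * E)
        ≤ (C₂ * Real.log z) * (2 * C₁ / Real.log z * E) :=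
          mul_le_mul_of_nonneg_right (hlp z hz) (by positivity)
      _ = 2 * C₁ * C₂ * E := by
          field_simp

end Pool.Agent.E3
end
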