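import Pool.Agent.Lib.MP_bae66e_nt.Mg.G001
import Pool.Agent.Lib.MP_bae66e_nt.Mg.G006

section

/-!
# T4: Gaussian windows of `χ(k) k ^ (- 1 - i u)`, small `u`
-/

set_option autoImplicit false

namespace Pool.Agent.E3

open Finset MeasureTheory Real
open Pool.Agent.MC (ee)

/-- the function `exp (- i u s) exp (- β (x - s)²) exp (- s)` -/
private noncomputable def T4_h (β x u s : ℝ) : ℂ :=
  Complex.exp (((-(β * (x - s) ^ 2) - s : ℝ) : ℂ) + ((-(u * s) : ℝ) : ℂ) * Complex.I)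

/-- its derivative -/
private noncomputable def T4_d (β x u s : ℝ) : ℂ :=
  T4_h β x u s * (((2 * β * (x - s) - 1 : ℝ) : ℂ) + ((-u : ℝ) : ℂ) * Complex.I)

private lemma T4_hd (β x u s : ℝ) : HasDerivAt (T4_h β x u) (T4_d β x u s) s := by
  have h1 : HasDerivAt (fun s : ℝ => -(β * (x - s) ^ 2) - s) (2 * β * (x - s) - 1) s := by
    have h2 : HasDerivAt (fun s : ℝ => x - s) (-1) s := (hasDerivAt_id s).const_sub x
    have h3 := (((h2.pow 2).const_mul β).neg).sub (hasDerivAt_id s)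
    refine h3.congr_deriv ?_
    simp
    ring
  have h2 : HasDerivAt (fun s : ℝ => -(u * s)) (-u) s := by
    have h3 : HasDerivAt (fun s : ℝ => (-u) * s) (-u) s := by
      simpa using (hasDerivAt_id s).const_mul (-u)
    have h4 : (fun s : ℝ => -(u * s)) = fun s : ℝ => (-u) * s := by
      funext s
      ring
    rw [h4]
    exact h3
  have h3 := (h1.ofReal_comp.add (h2.ofReal_comp.mul_const Complex.I)).cexp
  exact h3

private lemma T4_norm (β x u s : ℝ) : ‖T4_h β x u s‖ = Real.exp (-(β * (x - s) ^ 2) - s) := by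
  unfold T4_h
  rw [Complex.norm_exp]
  congr 1
  rw [Complex.add_re, Complex.re_ofReal_mul, Complex.I_re, mul_zero, add_zero, Complex.ofReal_re]

private lemma T4_norm_d (β : ℝ) (hβ : 0 < β) (x u s : ℝ) : ‖T4_d β x u s‖ ≤
    (1 + |u|) * ((1 + 2 * β * |s - x|) * Real.exp (-(β * (x - s) ^ 2) + -1 * s)) := by
  unfold T4_d
  rw [norm_mul, T4_norm]
  have h1 : ‖(((2 * β * (x - s) - 1 : ℝ) : ℂ) + ((-u : ℝ) : ℂ) * Complex.I)‖ ≤
      (1 + |u|) * (1 + 2 * β * |s - x|) := by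
    refine (norm_add_le _ _).trans ?_
    rw [norm_mul, Complex.norm_I, mul_one, Complex.norm_real, Complex.norm_real,
      Real.norm_eq_abs, Real.norm_eq_abs, abs_neg]
    have h2 : |2 * β * (x - s) - 1| ≤ 2 * β * |s - x| + 1 := by
      refine (abs_sub _ _).trans ?_
      rw [abs_mul, abs_of_pos (by positivity : (0 : ℝ) < 2 * β), abs_one, abs_sub_comm x s]
    have h3 : 0 ≤ 2 * β * |s - x| := by positivity
    nlinarith [abs_nonneg u, mul_nonneg (abs_nonneg u) h3]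
  have h2 : -(β * (x - s) ^ 2) - s = -(β * (x - s) ^ 2) + -1 * s := by ring
  rw [h2]
  calc Real.exp (-(β * (x - s) ^ 2) + -1 * s) *
        ‖(((2 * β * (x - s) - 1 : ℝ) : ℂ) + ((-u : ℝ) : ℂ) * Complex.I)‖
      ≤ Real.exp (-(β * (x - s) ^ 2) + -1 * s) * ((1 + |u|) * (1 + 2 * β * |s - x|)) :=
        mul_le_mul_of_nonneg_left h1 (Real.exp_pos _).le
    _ = _ := by ring

private lemma T4_int (β : ℝ) (hβ : 0 < β) (x lam c : ℝ) (hc : 0 ≤ c) :
    Integrable (fun s : ℝ => (1 + c * |s - x|) * Real.exp (-(β * (x - s) ^ 2) + lam * s)) := by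
  have h0 : Integrable (fun s : ℝ => Real.exp (-(β / 2) * s ^ 2)) :=
    integrable_exp_neg_mul_sq (by positivity)
  have h1 := (h0.comp_sub_right x).const_mul
    (Real.exp ((c + |lam|) ^ 2 / (2 * β) + lam * x))
  refine h1.mono' (by fun_prop) (Filter.Eventually.of_forall fun s => ?_)
  have hpos : 0 ≤ 1 + c * |s - x| := by positivity
  rw [Real.norm_of_nonneg (mul_nonneg hpos (Real.exp_pos _).le)]
  have h2 : 1 + c * |s - x| ≤ Real.exp (c * |s - x|) := by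
    have := Real.add_one_le_exp (c * |s - x|)
    linarith
  refine (mul_le_mul_of_nonneg_right h2 (Real.exp_pos _).le).trans ?_
  rw [← Real.exp_add, ← Real.exp_add, Real.exp_le_exp]
  set t := s - x with ht
  have hs : s = t + x := by rw [ht]; ring
  have hxs : (x - s) ^ 2 = |t| ^ 2 := by rw [sq_abs, ht]; ring
  have hlt : lam * t ≤ |lam| * |t| := by
    rw [← abs_mul]
    exact le_abs_self _
  have hkey : (c + |lam|) * |t| ≤ β / 2 * |t| ^ 2 + (c + |lam|) ^ 2 / (2 * β) := by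
    have h3 : β / 2 * |t| ^ 2 + (c + |lam|) ^ 2 / (2 * β) - (c + |lam|) * |t| =
        β / 2 * (|t| - (c + |lam|) / β) ^ 2 := by
      field_simp
      ring
    have h4 : 0 ≤ β / 2 * (|t| - (c + |lam|) / β) ^ 2 := by positivity
    linarith
  rw [hxs]
  have h5 : lam * s = lam * t + lam * x := by rw [hs]; ring
  rw [h5, ← sq_abs t]
  nlinarith

private lemma T4_cont (β x u : ℝ) : Continuous (T4_h β x u) := by
  unfold T4_h
  fun_prop

private lemma T4_contd (β x u : ℝ) : Continuous (T4_d β x u) := by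
  unfold T4_d
  have := T4_cont β x u
  fun_prop

private lemma T4_ih (β : ℝ) (hβ : 0 < β) (x u : ℝ) : Integrable (T4_h β x u) := by
  refine (T4_int β hβ x (-1) 0 le_rfl).mono' (T4_cont β x u).aestronglyMeasurable
    (Filter.Eventually.of_forall fun s => ?_)
  rw [T4_norm]
  refine le_of_eq ?_
  rw [zero_mul, add_zero, one_mul]
  congr 1
  ring

private lemma T4_id (β : ℝ) (hβ : 0 < β) (x u : ℝ) : Integrable (T4_d β x u) := by
  refine ((T4_int β hβ x (-1) (2 * β) (by positivity)).const_mul (1 + |u|)).mono'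
    (T4_contd β x u).aestronglyMeasurable (Filter.Eventually.of_forall fun s => ?_)
  exact T4_norm_d β hβ x u s

private lemma T4_ip (β : ℝ) (hβ : 0 < β) (x u : ℝ) :
    Integrable (fun s : ℝ => ((Real.exp s : ℝ) : ℂ) * T4_h β x u s) := by
  have hc := T4_cont β x u
  refine (T4_int β hβ x 0 0 le_rfl).mono' (Continuous.aestronglyMeasurable (by fun_prop))
    (Filter.Eventually.of_forall fun s => ?_)
  rw [norm_mul, T4_norm, Complex.norm_real, Real.norm_of_nonneg (Real.exp_pos s).le,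
    ← Real.exp_add]
  refine le_of_eq ?_
  rw [zero_mul, add_zero, one_mul]
  congr 1
  ring

private lemma T4_ipd (β : ℝ) (hβ : 0 < β) (x u : ℝ) :
    Integrable (fun s : ℝ => ((Real.exp s : ℝ) : ℂ) * T4_d β x u s) := by
  have hc := T4_contd β x u
  refine ((T4_int β hβ x 0 (2 * β) (by positivity)).const_mul (1 + |u|)).mono'
    (Continuous.aestronglyMeasurable (by fun_prop)) (Filter.Eventually.of_forall fun s => ?_)
  rw [norm_mul, Complex.norm_real, Real.norm_of_nonneg (Real.exp_pos s).le]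
  refine (mul_le_mul_of_nonneg_left (T4_norm_d β hβ x u s) (Real.exp_pos s).le).trans ?_
  refine le_of_eq ?_
  have h1 : Real.exp (-(β * (x - s) ^ 2) + 0 * s) =
      Real.exp s * Real.exp (-(β * (x - s) ^ 2) + -1 * s) := by
    rw [← Real.exp_add]
    congr 1
    ring
  rw [h1]
  ring

private lemma T4_hdp (β x u α s : ℝ) :
    HasDerivAt (fun s : ℝ => ((Real.exp s - α : ℝ) : ℂ) * T4_h β x u s)
      (((Real.exp s : ℝ) : ℂ) * T4_h β x u s + ((Real.exp s - α : ℝ) : ℂ) * T4_d β x u s) s := by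
  have h1 : HasDerivAt (fun s : ℝ => Real.exp s - α) (Real.exp s) s :=
    (Real.hasDerivAt_exp s).sub_const α
  exact h1.ofReal_comp.mul (T4_hd β x u s)

/-- the half line, first form -/
private lemma T4_half0 (β : ℝ) (hβ : 0 < β) (x u b : ℝ) :
    ‖T4_h β x u b‖ ≤ ∫ s in Set.Iic b, ‖T4_d β x u s‖ := by
  have h0 : Filter.Tendsto (T4_h β x u) Filter.atBot (nhds 0) :=
    tendsto_zero_of_hasDerivAt_of_integrableOn_Iic (a := b) (fun s _ => T4_hd β x u s)
      (T4_id β hβ x u).integrableOn (T4_ih β hβ x u).integrableOn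
  have h1 := integral_Iic_of_hasDerivAt_of_tendsto' (a := b) (fun s _ => T4_hd β x u s)
    (T4_id β hβ x u).integrableOn h0
  rw [sub_zero] at h1
  rw [← h1]
  exact norm_integral_le_integral_norm _

/-- the half line, second form -/
private lemma T4_half1 (β : ℝ) (hβ : 0 < β) (x u b : ℝ) :
    ‖((Real.exp b : ℝ) : ℂ) * T4_h β x u b -
      ∫ s in Set.Iic b, ((Real.exp s : ℝ) : ℂ) * T4_h β x u s‖ ≤
      Real.exp b * ∫ s in Set.Iic b, ‖T4_d β x u s‖ := by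
  have hd : ∀ s ∈ Set.Iic b, HasDerivAt (fun s : ℝ => ((Real.exp s : ℝ) : ℂ) * T4_h β x u s)
      (((Real.exp s : ℝ) : ℂ) * T4_h β x u s + ((Real.exp s : ℝ) : ℂ) * T4_d β x u s) s := by
    intro s _
    have h1 := T4_hdp β x u 0 s
    simpa using h1
  have hi : IntegrableOn (fun s : ℝ => ((Real.exp s : ℝ) : ℂ) * T4_h β x u s +
      ((Real.exp s : ℝ) : ℂ) * T4_d β x u s) (Set.Iic b) :=
    ((T4_ip β hβ x u).add (T4_ipd β hβ x u)).integrableOn
  have h0 : Filter.Tendsto (fun s : ℝ => ((Real.exp s : ℝ) : ℂ) * T4_h β x u s)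
      Filter.atBot (nhds 0) :=
    tendsto_zero_of_hasDerivAt_of_integrableOn_Iic hd hi (T4_ip β hβ x u).integrableOn
  have h1 := integral_Iic_of_hasDerivAt_of_tendsto' hd hi h0
  rw [sub_zero, integral_add (T4_ip β hβ x u).integrableOn (T4_ipd β hβ x u).integrableOn] at h1
  rw [← h1, add_sub_cancel_left]
  have h2 : ‖∫ s in Set.Iic b, ((Real.exp s : ℝ) : ℂ) * T4_d β x u s‖ ≤
      ∫ s in Set.Iic b, Real.exp b * ‖T4_d β x u s‖ := by
    refine norm_integral_le_of_norm_le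
      (((T4_id β hβ x u).norm.const_mul (Real.exp b)).integrableOn) ?_
    filter_upwards [ae_restrict_mem measurableSet_Iic] with s hs
    rw [norm_mul, Complex.norm_real, Real.norm_of_nonneg (Real.exp_pos s).le]
    exact mul_le_mul_of_nonneg_right (Real.exp_le_exp.mpr hs) (norm_nonneg _)
  rwa [integral_const_mul] at h2

/-- an interval -/
private lemma T4_step (β : ℝ) (hβ : 0 < β) (x u a b : ℝ) (hab : a ≤ b) :
    ‖((Real.exp b - Real.exp a : ℝ) : ℂ) * T4_h β x u b -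
      ∫ s in a..b, ((Real.exp s : ℝ) : ℂ) * T4_h β x u s‖ ≤
      (Real.exp b - Real.exp a) * ∫ s in a..b, ‖T4_d β x u s‖ := by
  have hc := T4_cont β x u
  have hcd := T4_contd β x u
  have c1 : Continuous fun s : ℝ => ((Real.exp s : ℝ) : ℂ) * T4_h β x u s := by fun_prop
  have c2 : Continuous fun s : ℝ => ((Real.exp s - Real.exp a : ℝ) : ℂ) * T4_d β x u s := by
    fun_prop
  have c12 : Continuous fun s : ℝ => ((Real.exp s : ℝ) : ℂ) * T4_h β x u s +
      ((Real.exp s - Real.exp a : ℝ) : ℂ) * T4_d β x u s := c1.add c2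
  have h1 := intervalIntegral.integral_eq_sub_of_hasDerivAt (a := a) (b := b)
    (fun s _ => T4_hdp β x u (Real.exp a) s) (c12.intervalIntegrable _ _)
  rw [intervalIntegral.integral_add (c1.intervalIntegrable _ _) (c2.intervalIntegrable _ _),
    sub_self, Complex.ofReal_zero, zero_mul, sub_zero] at h1
  rw [← h1, add_sub_cancel_left, ← intervalIntegral.integral_const_mul]
  refine intervalIntegral.norm_integral_le_of_norm_le hab ?_
    ((hcd.norm.const_mul _).intervalIntegrable _ _)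
  filter_upwards with s hs
  rw [norm_mul, Complex.norm_real, Real.norm_eq_abs, abs_of_nonneg]
  · exact mul_le_mul_of_nonneg_right (sub_le_sub_right (Real.exp_le_exp.mpr hs.2) _)
      (norm_nonneg _)
  · exact sub_nonneg.mpr (Real.exp_le_exp.mpr hs.1.le)

/-- the finite sums -/
private lemma T4_fin (β : ℝ) (hβ : 0 < β) (x u : ℝ) (W a : ℕ) (ha : 1 ≤ a) (haW : a ≤ W)
    (N : ℕ) :
    ‖(W : ℂ) * ∑ m ∈ range (N + 1), T4_h β x u (Real.log ((a + W * m : ℕ) : ℝ)) -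
      ∫ s in Set.Iic (Real.log ((a + W * N : ℕ) : ℝ)), ((Real.exp s : ℝ) : ℂ) * T4_h β x u s‖ ≤
      W * ∫ s in Set.Iic (Real.log ((a + W * N : ℕ) : ℝ)), ‖T4_d β x u s‖ := by
  have hpos : ∀ m : ℕ, (0 : ℝ) < ((a + W * m : ℕ) : ℝ) := fun m => by
    exact_mod_cast (by omega : 0 < a + W * m)
  have hexp : ∀ m : ℕ, Real.exp (Real.log ((a + W * m : ℕ) : ℝ)) = ((a + W * m : ℕ) : ℝ) :=
    fun m => Real.exp_log (hpos m)
  induction N with
  | zero =>
    rw [zero_add, sum_range_one]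
    set b := Real.log ((a + W * 0 : ℕ) : ℝ) with hb
    have hb' : Real.exp b = (a : ℝ) := by
      rw [hb, hexp]
      simp
    have h1 := T4_half1 β hβ x u b
    have h0 := T4_half0 β hβ x u b
    rw [hb'] at h1
    have haW' : (a : ℝ) ≤ W := by exact_mod_cast haW
    have e : (W : ℂ) * T4_h β x u b -
        ∫ s in Set.Iic b, ((Real.exp s : ℝ) : ℂ) * T4_h β x u s =
        ((W - a : ℝ) : ℂ) * T4_h β x u b + (((a : ℝ) : ℂ) * T4_h β x u b -
          ∫ s in Set.Iic b, ((Real.exp s : ℝ) : ℂ) * T4_h β x u s) := by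
      push_cast
      ring
    rw [e]
    refine (norm_add_le _ _).trans ?_
    rw [norm_mul, Complex.norm_real, Real.norm_of_nonneg (by linarith)]
    have h2 := mul_le_mul_of_nonneg_left h0 (by linarith : (0 : ℝ) ≤ W - a)
    nlinarith
  | succ N ih =>
    rw [sum_range_succ]
    set b := Real.log ((a + W * N : ℕ) : ℝ) with hb
    set b' := Real.log ((a + W * (N + 1) : ℕ) : ℝ) with hb'
    have hbb : b ≤ b' := by
      refine Real.log_le_log (hpos N) ?_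
      exact_mod_cast (by nlinarith : a + W * N ≤ a + W * (N + 1))
    have he : Real.exp b' - Real.exp b = W := by
      rw [hb, hb', hexp, hexp]
      push_cast
      ring
    have h1 := T4_step β hβ x u b b' hbb
    rw [he] at h1
    have h2 := intervalIntegral.integral_Iic_sub_Iic (a := b) (b := b')
      (T4_ip β hβ x u).integrableOn (T4_ip β hβ x u).integrableOn
    have h3 := intervalIntegral.integral_Iic_sub_Iic (a := b) (b := b')
      (T4_id β hβ x u).norm.integrableOn (T4_id β hβ x u).norm.integrableOn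
    rw [← h2, ← h3] at h1
    have e : (W : ℂ) * (∑ m ∈ range (N + 1), T4_h β x u (Real.log ((a + W * m : ℕ) : ℝ)) +
        T4_h β x u b') - ∫ s in Set.Iic b', ((Real.exp s : ℝ) : ℂ) * T4_h β x u s =
        ((W : ℂ) * ∑ m ∈ range (N + 1), T4_h β x u (Real.log ((a + W * m : ℕ) : ℝ)) -
          ∫ s in Set.Iic b, ((Real.exp s : ℝ) : ℂ) * T4_h β x u s) +
        (((W : ℝ) : ℂ) * T4_h β x u b' -
          ((∫ s in Set.Iic b', ((Real.exp s : ℝ) : ℂ) * T4_h β x u s) -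
            ∫ s in Set.Iic b, ((Real.exp s : ℝ) : ℂ) * T4_h β x u s)) := by
      push_cast
      ring
    rw [e]
    refine (norm_add_le _ _).trans ((add_le_add ih h1).trans (le_of_eq ?_))
    ring

private lemma T4_J (β : ℝ) (hβ : 0 < β) (x u : ℝ) :
    ∫ s, ‖T4_d β x u s‖ ≤ (1 + |u|) * (Real.exp (-x) *
      ∫ t : ℝ, (1 + 2 * β * |t - 0|) * Real.exp (-(β * (0 - t) ^ 2) + -1 * t)) := by
  have h1 : ∫ s, ‖T4_d β x u s‖ ≤ ∫ s, (1 + |u|) * ((1 + 2 * β * |s - x|) *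
      Real.exp (-(β * (x - s) ^ 2) + -1 * s)) :=
    integral_mono (T4_id β hβ x u).norm
      ((T4_int β hβ x (-1) (2 * β) (by positivity)).const_mul _)
      fun s => T4_norm_d β hβ x u s
  refine h1.trans (le_of_eq ?_)
  rw [integral_const_mul]
  congr 1
  have h2 := integral_sub_right_eq_self (μ := volume) (fun t : ℝ => (1 + 2 * β * |t - 0|) *
    Real.exp (-(β * (0 - t) ^ 2) + -1 * t)) x
  rw [← h2, ← integral_const_mul]
  refine integral_congr_ae (Filter.Eventually.of_forall fun s => ?_)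
  show (1 + 2 * β * |s - x|) * Real.exp (-(β * (x - s) ^ 2) + -1 * s) =
    Real.exp (-x) * ((1 + 2 * β * |s - x - 0|) *
      Real.exp (-(β * (0 - (s - x)) ^ 2) + -1 * (s - x)))
  rw [sub_zero]
  have h3 : Real.exp (-(β * (x - s) ^ 2) + -1 * s) =
      Real.exp (-x) * Real.exp (-(β * (0 - (s - x)) ^ 2) + -1 * (s - x)) := by
    rw [← Real.exp_add]
    congr 1
    ring
  rw [h3]
  ring

private lemma T4_val (β : ℝ) (hβ : 0 < β) (x u : ℝ) :
    ∫ s : ℝ, ((Real.exp s : ℝ) : ℂ) * T4_h β x u s =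
      ((Real.sqrt (π / β) * Real.exp (-(u ^ 2 / (4 * β))) : ℝ) : ℂ) * ph u x := by
  have h1 : ∀ s : ℝ, ((Real.exp s : ℝ) : ℂ) * T4_h β x u s =
      Complex.exp ((-(β : ℂ)) * (s : ℂ) ^ 2 + (2 * β * x - u * Complex.I) * s +
        (-(β * x ^ 2) : ℂ)) := by
    intro s
    unfold T4_h
    rw [Complex.ofReal_exp, ← Complex.exp_add]
    congr 1
    push_cast
    ring
  simp only [h1]
  have hre : (-(β : ℂ)).re < 0 := by
    rw [Complex.neg_re, Complex.ofReal_re]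
    linarith
  rw [integral_cexp_quadratic hre, neg_neg]
  have hβ0 : (β : ℂ) ≠ 0 := by exact_mod_cast hβ.ne'
  have h2 : ((π : ℂ) / β) ^ (1 / 2 : ℂ) = ((Real.sqrt (π / β) : ℝ) : ℂ) := by
    rw [Real.sqrt_eq_rpow, Complex.ofReal_cpow (by positivity)]
    push_cast
    rfl
  rw [h2]
  have h3 : Complex.exp ((-(β * x ^ 2) : ℂ) - (2 * β * x - u * Complex.I) ^ 2 / (4 * -(β : ℂ))) =
      ((Real.exp (-(u ^ 2 / (4 * β))) : ℝ) : ℂ) * ph u x := by
    unfold ph
    rw [Complex.ofReal_exp, ← Complex.exp_add]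
    congr 1
    push_cast
    field_simp
    linear_combination ((u : ℂ) ^ 2) * Complex.I_sq
  rw [h3, Complex.ofReal_mul]
  ring

/-- PROOF. Let `g v = ph u (log v) gs β x (log v) / v` on `(0, ∞)`. Substitution `v = exp s`:
`∫_0^∞ g = ∫_ℝ exp (- i u s) exp (- β (x - s)²) ds = √(π/β) exp (- u²/(4β)) ph u x` (Fourier transform of the
Gaussian, Mathlib), and `|g' v| ≤ v⁻² (1 + |u| + 2 β |x - log v|) gs β x (log v)`, so
`∫_0^∞ |g'| ≤ ∫ exp (-s) (1 + |u| + 2 β |x - s|) exp (- β (x - s)²) ds ≤ C exp (-x) (1 + |u|)`.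
For `a ∈ {1, …, W}`: `|∑_{k ≡ a, k ≥ 1} g k - (1/W) ∫_0^∞ g| ≤ ∫_0^∞ |g'|` (on each interval of length `W`
ending at `k`: `|W g k - ∫_{k-W}^{k} g| ≤ W ∫_{k-W}^k |g'|`; the piece `(0, a)` of the first interval is similar). -/
theorem class_sum (W : ℕ) (hW : 1 ≤ W) (β : ℝ) (hβ : 0 < β) : ∃ C : ℝ, 1 ≤ C ∧
    ∀ (x u : ℝ) (a : ℕ), 0 ≤ x → 1 ≤ a → a ≤ W →
      Summable (fun m : ℕ => gs β x (Real.log ((a + W * m : ℕ) : ℝ)) / ((a + W * m : ℕ) : ℝ)) ∧
      ‖(∑' m : ℕ, ph u (Real.log ((a + W * m : ℕ) : ℝ)) *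
          (((gs β x (Real.log ((a + W * m : ℕ) : ℝ)) / ((a + W * m : ℕ) : ℝ) : ℝ)) : ℂ))
        - ((Real.sqrt (π / β) * Real.exp (-(u ^ 2 / (4 * β))) / W : ℝ) : ℂ) * ph u x‖
      ≤ C * Real.exp (-x) * (1 + |u|) := by
  set J : ℝ := ∫ t : ℝ, (1 + 2 * β * |t - 0|) * Real.exp (-(β * (0 - t) ^ 2) + -1 * t) with hJ
  have hJ0 : 0 ≤ J := by
    refine integral_nonneg fun t => ?_
    show 0 ≤ (1 + 2 * β * |t - 0|) * Real.exp (-(β * (0 - t) ^ 2) + -1 * t)
    positivity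
  refine ⟨J + 1, by linarith, ?_⟩
  intro x u a hx ha haW
  have hWr : (1 : ℝ) ≤ W := by exact_mod_cast hW
  have hpos : ∀ m : ℕ, (0 : ℝ) < ((a + W * m : ℕ) : ℝ) := fun m => by
    exact_mod_cast (by omega : 0 < a + W * m)
  have hterm : ∀ (v : ℝ) (m : ℕ), ph v (Real.log ((a + W * m : ℕ) : ℝ)) *
      (((gs β x (Real.log ((a + W * m : ℕ) : ℝ)) / ((a + W * m : ℕ) : ℝ) : ℝ)) : ℂ) =
      T4_h β x v (Real.log ((a + W * m : ℕ) : ℝ)) := by
    intro v m
    have h1 : gs β x (Real.log ((a + W * m : ℕ) : ℝ)) / ((a + W * m : ℕ) : ℝ) =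
        Real.exp (-(β * (x - Real.log ((a + W * m : ℕ) : ℝ)) ^ 2) -
          Real.log ((a + W * m : ℕ) : ℝ)) := by
      unfold gs
      rw [Real.exp_sub, Real.exp_log (hpos m)]
    rw [h1]
    unfold ph T4_h
    rw [Complex.ofReal_exp, ← Complex.exp_add, add_comm]
  have hf : ∀ (v : ℝ) (m : ℕ), gs β x (Real.log ((a + W * m : ℕ) : ℝ)) /
      ((a + W * m : ℕ) : ℝ) = ‖T4_h β x v (Real.log ((a + W * m : ℕ) : ℝ))‖ := by
    intro v m
    rw [T4_norm, Real.exp_sub, Real.exp_log (hpos m)]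
    rfl
  have hsumm : Summable (fun m : ℕ => gs β x (Real.log ((a + W * m : ℕ) : ℝ)) /
      ((a + W * m : ℕ) : ℝ)) := by
    have hnn : ∀ m : ℕ, 0 ≤ gs β x (Real.log ((a + W * m : ℕ) : ℝ)) /
        ((a + W * m : ℕ) : ℝ) := by
      intro m
      rw [hf 0 m]
      exact norm_nonneg _
    refine summable_of_sum_range_le (c := (∫ s, ‖((Real.exp s : ℝ) : ℂ) * T4_h β x 0 s‖) +
      W * ∫ s, ‖T4_d β x 0 s‖) hnn fun n => ?_
    have h1 := T4_fin β hβ x 0 W a ha haW n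
    have h2 : (∑ m ∈ range (n + 1), T4_h β x 0 (Real.log ((a + W * m : ℕ) : ℝ))) =
        ((∑ m ∈ range (n + 1), gs β x (Real.log ((a + W * m : ℕ) : ℝ)) /
          ((a + W * m : ℕ) : ℝ) : ℝ) : ℂ) := by
      rw [Complex.ofReal_sum]
      refine Finset.sum_congr rfl fun m _ => ?_
      rw [← hterm 0 m]
      unfold ph
      simp
    rw [h2] at h1
    set S : ℝ := ∑ m ∈ range (n + 1), gs β x (Real.log ((a + W * m : ℕ) : ℝ)) /
      ((a + W * m : ℕ) : ℝ) with hS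
    have hS0 : 0 ≤ S := Finset.sum_nonneg fun m _ => hnn m
    have h3 : ‖∫ s in Set.Iic (Real.log ((a + W * n : ℕ) : ℝ)),
        ((Real.exp s : ℝ) : ℂ) * T4_h β x 0 s‖ ≤
        ∫ s, ‖((Real.exp s : ℝ) : ℂ) * T4_h β x 0 s‖ :=
      (norm_integral_le_integral_norm _).trans
        (setIntegral_le_integral (T4_ip β hβ x 0).norm
          (Filter.Eventually.of_forall fun s => norm_nonneg _))
    have h4 : ∫ s in Set.Iic (Real.log ((a + W * n : ℕ) : ℝ)), ‖T4_d β x 0 s‖ ≤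
        ∫ s, ‖T4_d β x 0 s‖ :=
      setIntegral_le_integral (T4_id β hβ x 0).norm
        (Filter.Eventually.of_forall fun s => norm_nonneg _)
    have h5 : ‖(W : ℂ) * ((S : ℝ) : ℂ)‖ = W * S := by
      rw [norm_mul, Complex.norm_natCast, Complex.norm_real, Real.norm_of_nonneg hS0]
    have h6 : W * S ≤ (∫ s, ‖((Real.exp s : ℝ) : ℂ) * T4_h β x 0 s‖) +
        W * ∫ s, ‖T4_d β x 0 s‖ := by
      rw [← h5]
      have h7 := norm_sub_norm_le ((W : ℂ) * ((S : ℝ) : ℂ))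
        (∫ s in Set.Iic (Real.log ((a + W * n : ℕ) : ℝ)),
          ((Real.exp s : ℝ) : ℂ) * T4_h β x 0 s)
      have h8 := mul_le_mul_of_nonneg_left h4 (by linarith : (0 : ℝ) ≤ W)
      linarith
    have h7 : ∑ m ∈ range n, gs β x (Real.log ((a + W * m : ℕ) : ℝ)) /
        ((a + W * m : ℕ) : ℝ) ≤ S := by
      rw [hS, sum_range_succ]
      linarith [hnn n]
    have h8 : S ≤ W * S := le_mul_of_one_le_left hS0 hWr
    linarith
  refine ⟨hsumm, ?_⟩
  simp only [hterm]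
  have hsummC : Summable (fun m : ℕ => T4_h β x u (Real.log ((a + W * m : ℕ) : ℝ))) := by
    refine Summable.of_norm ?_
    refine hsumm.congr fun m => ?_
    exact hf u m
  have hlim : Filter.Tendsto (fun N : ℕ => Real.log ((a + W * N : ℕ) : ℝ)) Filter.atTop
      Filter.atTop := by
    refine Real.tendsto_log_atTop.comp ?_
    refine Filter.tendsto_atTop_mono (f := fun N : ℕ => (N : ℝ)) (fun N => ?_)
      tendsto_natCast_atTop_atTop
    exact_mod_cast (by nlinarith : N ≤ a + W * N)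
  have hI : Filter.Tendsto (fun N : ℕ => ∫ s in Set.Iic (Real.log ((a + W * N : ℕ) : ℝ)),
      ((Real.exp s : ℝ) : ℂ) * T4_h β x u s) Filter.atTop
      (nhds (∫ s, ((Real.exp s : ℝ) : ℂ) * T4_h β x u s)) :=
    (aecover_Iic hlim).integral_tendsto_of_countably_generated (T4_ip β hβ x u)
  have hS : Filter.Tendsto (fun N : ℕ => (W : ℂ) *
      ∑ m ∈ range (N + 1), T4_h β x u (Real.log ((a + W * m : ℕ) : ℝ))) Filter.atTop
      (nhds ((W : ℂ) * ∑' m : ℕ, T4_h β x u (Real.log ((a + W * m : ℕ) : ℝ)))) := by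
    refine Filter.Tendsto.const_mul _ ?_
    exact (hsummC.hasSum.tendsto_sum_nat).comp (Filter.tendsto_add_atTop_nat 1)
  have hle : ‖(W : ℂ) * ∑' m : ℕ, T4_h β x u (Real.log ((a + W * m : ℕ) : ℝ)) -
      ∫ s, ((Real.exp s : ℝ) : ℂ) * T4_h β x u s‖ ≤ W * ∫ s, ‖T4_d β x u s‖ := by
    refine le_of_tendsto (hS.sub hI).norm (Filter.Eventually.of_forall fun N => ?_)
    refine (T4_fin β hβ x u W a ha haW N).trans ?_
    refine mul_le_mul_of_nonneg_left ?_ (by linarith)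
    exact setIntegral_le_integral (T4_id β hβ x u).norm
      (Filter.Eventually.of_forall fun s => norm_nonneg _)
  rw [T4_val β hβ x u] at hle
  have hW0 : (W : ℂ) ≠ 0 := by exact_mod_cast (by omega : W ≠ 0)
  have e : (W : ℂ) * ∑' m : ℕ, T4_h β x u (Real.log ((a + W * m : ℕ) : ℝ)) -
      ((Real.sqrt (π / β) * Real.exp (-(u ^ 2 / (4 * β))) : ℝ) : ℂ) * ph u x =
      (W : ℂ) * (∑' m : ℕ, T4_h β x u (Real.log ((a + W * m : ℕ) : ℝ)) -
        ((Real.sqrt (π / β) * Real.exp (-(u ^ 2 / (4 * β))) / W : ℝ) : ℂ) * ph u x) := by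
    push_cast
    field_simp
  rw [e, norm_mul, Complex.norm_natCast] at hle
  have h9 := le_of_mul_le_mul_left hle (by linarith)
  refine h9.trans ((T4_J β hβ x u).trans ?_)
  rw [← hJ]
  have h10 : 0 ≤ Real.exp (-x) * (1 + |u|) := by positivity
  nlinarith

end Pool.Agent.E3
end

section

/-!
# T5: Gaussian windows of `χ(k) k ^ (- 1 - i u)`, small `u`, with a character
-/

set_option autoImplicit false

namespace Pool.Agent.E3

open Finset MeasureTheory Real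
open Pool.Agent.MC (ee)

private lemma T5_norm_ph (u x : ℝ) : ‖ph u x‖ = 1 := by
  unfold ph
  exact Complex.norm_exp_ofReal_mul_I _

/-- pointwise bound far away -/
private lemma T5_pt (β : ℝ) (hβ : 0 < β) (x : ℝ) (k : ℕ) (hk : 1 ≤ k)
    (hx : 2 * x ≤ Real.log k) :
    gs β x (Real.log k) / k ≤ Real.exp (1 / β) / (k : ℝ) ^ 2 := by
  have hk0 : (0 : ℝ) < k := by exact_mod_cast hk
  have h1 : gs β x (Real.log k) ≤ Real.exp (1 / β) / k := by
    unfold gs
    have h2 : Real.exp (1 / β) / k = Real.exp (1 / β - Real.log k) := by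
      rw [Real.exp_sub, Real.exp_log hk0]
    rw [h2, Real.exp_le_exp]
    set s := Real.log k
    have h3 : β * (x - s) ^ 2 + 1 / β - 2 * (s - x) = β * ((s - x) - 1 / β) ^ 2 := by
      field_simp
      ring
    have h4 : 0 ≤ β * ((s - x) - 1 / β) ^ 2 := by positivity
    linarith
  rw [pow_two, ← div_div]
  exact div_le_div_of_nonneg_right h1 hk0.le

/-- the tail -/
private lemma T5_tail (β : ℝ) (hβ : 0 < β) (x : ℝ) (Z : ℕ) (hx : 0 ≤ x)
    (hZ : Real.exp (2 * x) ≤ Z) :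
    ∑' k : ℕ, gs β x (Real.log ((k + (Z + 1) : ℕ) : ℝ)) / ((k + (Z + 1) : ℕ) : ℝ) ≤
      Real.exp (1 / β) * Real.exp (-(x / 2)) := by
  have hZ0 : (0 : ℝ) < Z := (Real.exp_pos _).trans_le hZ
  have hZ1 : 0 < Z := by exact_mod_cast hZ0
  have hpt : ∀ k : ℕ, gs β x (Real.log ((k + (Z + 1) : ℕ) : ℝ)) / ((k + (Z + 1) : ℕ) : ℝ) ≤
      Real.exp (1 / β) * (1 / ((k + Z : ℕ) : ℝ) - 1 / ((k + (Z + 1) : ℕ) : ℝ)) := by
    intro k
    have hlog : 2 * x ≤ Real.log ((k + (Z + 1) : ℕ) : ℝ) := by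
      rw [← Real.log_exp (2 * x)]
      refine Real.log_le_log (Real.exp_pos _) (hZ.trans ?_)
      exact_mod_cast (by omega : Z ≤ k + (Z + 1))
    have h1 := T5_pt β hβ x (k + (Z + 1)) (by omega) hlog
    refine h1.trans ?_
    rw [div_eq_mul_inv]
    refine mul_le_mul_of_nonneg_left ?_ (Real.exp_pos _).le
    have hn : (0 : ℝ) < ((k + Z : ℕ) : ℝ) := by exact_mod_cast (by omega : 0 < k + Z)
    have e : ((k + (Z + 1) : ℕ) : ℝ) = ((k + Z : ℕ) : ℝ) + 1 := by push_cast; ring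
    rw [e]
    set n := ((k + Z : ℕ) : ℝ)
    have h2 : 1 / n - 1 / (n + 1) = (n * (n + 1))⁻¹ := by
      field_simp
      ring
    rw [h2]
    exact inv_anti₀ (by positivity) (by nlinarith)
  have h0 : ∀ k : ℕ, 0 ≤ gs β x (Real.log ((k + (Z + 1) : ℕ) : ℝ)) / ((k + (Z + 1) : ℕ) : ℝ) :=
    fun k => div_nonneg (Real.exp_pos _).le (Nat.cast_nonneg _)
  have hfin : ∀ n : ℕ, ∑ k ∈ range n,
      gs β x (Real.log ((k + (Z + 1) : ℕ) : ℝ)) / ((k + (Z + 1) : ℕ) : ℝ) ≤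
      Real.exp (1 / β) * (1 / (Z : ℝ)) := by
    intro n
    refine (Finset.sum_le_sum fun k _ => hpt k).trans ?_
    rw [← mul_sum]
    refine mul_le_mul_of_nonneg_left ?_ (Real.exp_pos _).le
    have h3 : ∀ n : ℕ, ∑ k ∈ range n, (1 / ((k + Z : ℕ) : ℝ) - 1 / ((k + (Z + 1) : ℕ) : ℝ)) =
        1 / (Z : ℝ) - 1 / ((n + Z : ℕ) : ℝ) := by
      intro n
      induction n with
      | zero => simp
      | succ n ih =>
        rw [sum_range_succ, ih]
        have h4 : n + 1 + Z = n + (Z + 1) := by ring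
        rw [h4]
        ring
    rw [h3]
    have h5 : 0 ≤ 1 / ((n + Z : ℕ) : ℝ) := by positivity
    linarith
  refine (Real.tsum_le_of_sum_range_le h0 hfin).trans ?_
  refine mul_le_mul_of_nonneg_left ?_ (Real.exp_pos _).le
  rw [one_div, Real.exp_neg]
  exact inv_anti₀ (Real.exp_pos _) ((Real.exp_le_exp.mpr (by linarith)).trans hZ)

private lemma T5_zmod (W : ℕ) [NeZero W] (f : ℕ → ℂ) :
    ∑ j : ZMod W, f j.val = ∑ r ∈ range W, f r := by
  obtain ⟨n, rfl⟩ : ∃ n, W = n + 1 := ⟨W - 1, by have := NeZero.pos W; omega⟩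
  exact (Finset.sum_range f).symm

/-- PROOF. The terms of a decreasing tail: for `x ≥ 0`, `Z ≥ exp (2x)`:
`∑_{k > Z} gs β x (log k) / k ≤ ∫_{log Z}^∞ exp (- β (s - x)²) ds + 1/Z ≤ C exp (- x)` (the summand is decreasing
in `k` for `log k ≥ x`; `∫_{2x}^∞ exp (- β (s-x)²) ds = ∫_x^∞ exp (- β s²) ds ≤ C exp (-x)`). Together with
`class_sum` for `a = 1, …, W` (`χ (a + W m) = χ a`), `∑_{a=1}^{W} χ a = ∑_{a<W} χ a = W mv W χ`, and
`exp (-x) (1 + |u|) ≤ 2 exp (- x/2)`. -/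
theorem window_small (W : ℕ) (hW : 1 ≤ W) (β : ℝ) (hβ : 0 < β) : ∃ C : ℝ, 1 ≤ C ∧
    ∀ (χ : ℕ → ℂ), (∀ n, χ (n + W) = χ n) → (∀ n, ‖χ n‖ ≤ 1) →
    ∀ (x u : ℝ) (Z : ℕ), 0 ≤ x → Real.exp (2 * x) ≤ Z → |u| ≤ Real.exp (x / 2) →
      ‖∑ k ∈ Icc 1 Z, χ k * ph u (Real.log k) * (((gs β x (Real.log k) / k : ℝ)) : ℂ)
        - mv W χ * ((Real.sqrt (π / β) * Real.exp (-(u ^ 2 / (4 * β))) : ℝ) : ℂ) * ph u x‖
        ≤ C * Real.exp (-(x / 2)) := by
  obtain ⟨C, hC1, hC⟩ := class_sum W hW β hβ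
  obtain ⟨C₁, _, hC₁⟩ := class_sum 1 le_rfl β hβ
  have hWr : (1 : ℝ) ≤ W := by exact_mod_cast hW
  refine ⟨W * (2 * C) + Real.exp (1 / β), ?_, ?_⟩
  · have h1 : (1 : ℝ) ≤ Real.exp (1 / β) := Real.one_le_exp (by positivity)
    have h2 : (0 : ℝ) ≤ W * (2 * C) := by positivity
    linarith
  intro χ hper hbd x u Z hx hZ hu
  set G : ℕ → ℝ := fun k => gs β x (Real.log k) / k with hG
  set F : ℕ → ℂ := fun k => χ k * ph u (Real.log k) * ((G k : ℝ) : ℂ) with hF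
  set M : ℝ := Real.sqrt (π / β) * Real.exp (-(u ^ 2 / (4 * β))) with hM
  have hG0 : ∀ k, 0 ≤ G k := fun k => div_nonneg (Real.exp_pos _).le (Nat.cast_nonneg _)
  have hGs1 : Summable (fun m : ℕ => G (m + 1)) := by
    have h1 := (hC₁ x u 1 hx le_rfl le_rfl).1
    refine h1.congr fun m => ?_
    simp only [hG]
    rw [one_mul, add_comm]
  have hGs : Summable G := (summable_nat_add_iff 1).mp hGs1
  have hFn : ∀ k, ‖F k‖ ≤ G k := by
    intro k
    simp only [hF]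
    rw [norm_mul, norm_mul, T5_norm_ph, mul_one, Complex.norm_real,
      Real.norm_of_nonneg (hG0 k)]
    calc ‖χ k‖ * G k ≤ 1 * G k := mul_le_mul_of_nonneg_right (hbd k) (hG0 k)
      _ = G k := one_mul _
  have hFs : Summable F := Summable.of_norm_bounded hGs hFn
  have hF0 : F 0 = 0 := by simp [hF, hG]
  have hIcc : ∑ k ∈ Icc 1 Z, F k = ∑ k ∈ range (Z + 1), F k := by
    rw [Finset.range_eq_Ico, Finset.sum_eq_sum_Ico_succ_bot (by omega), hF0, zero_add]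
    refine Finset.sum_congr ?_ fun _ _ => rfl
    ext k
    simp only [mem_Icc, mem_Ico]
    omega
  have htail : ‖∑' k, F (k + (Z + 1))‖ ≤ Real.exp (1 / β) * Real.exp (-(x / 2)) := by
    have hs : Summable fun k => G (k + (Z + 1)) := (summable_nat_add_iff (Z + 1)).mpr hGs
    refine (tsum_of_norm_bounded hs.hasSum fun k => hFn _).trans ?_
    exact T5_tail β hβ x Z hx hZ
  have hsplit : ∑' k, F k = ∑ k ∈ range (Z + 1), F k + ∑' k, F (k + (Z + 1)) :=
    (hFs.sum_add_tsum_nat_add (Z + 1)).symm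
  have hshift : ∑' k, F k = ∑' k, F (k + 1) := by
    rw [hFs.tsum_eq_zero_add, hF0, zero_add]
  have hFs1 : Summable fun k => F (k + 1) := (summable_nat_add_iff 1).mpr hFs
  set S : ℕ → ℂ := fun a => ∑' m : ℕ, ph u (Real.log ((a + W * m : ℕ) : ℝ)) *
    (((gs β x (Real.log ((a + W * m : ℕ) : ℝ)) / ((a + W * m : ℕ) : ℝ) : ℝ)) : ℂ) with hS
  have hmod : ∀ a m : ℕ, χ (a + W * m) = χ a := by
    intro a m
    induction m with
    | zero => rw [mul_zero, add_zero]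
    | succ m ih =>
      have h1 : a + W * (m + 1) = (a + W * m) + W := by ring
      rw [h1, hper, ih]
  have hcls : ∑' k, F (k + 1) = ∑ r ∈ range W, χ (r + 1) * S (r + 1) := by
    have : NeZero W := ⟨by omega⟩
    rw [Nat.sumByResidueClasses hFs1 W,
      T5_zmod W (fun r => ∑' m, F (r + W * m + 1))]
    refine Finset.sum_congr rfl fun r _ => ?_
    rw [hS]
    simp only
    rw [← tsum_mul_left]
    refine tsum_congr fun m => ?_
    have h1 : r + W * m + 1 = (r + 1) + W * m := by ring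
    rw [h1]
    simp only [hF, hG]
    rw [hmod, mul_assoc]
  have hsum : ∑ r ∈ range W, χ (r + 1) = (W : ℂ) * mv W χ := by
    have h1 : ∑ r ∈ range W, χ (r + 1) = ∑ r ∈ range W, χ r := by
      have h2 := Finset.sum_range_succ' χ W
      rw [Finset.sum_range_succ] at h2
      have h3 : χ W = χ 0 := by
        have := hper 0
        rwa [zero_add] at this
      rw [h3] at h2
      exact (add_right_cancel h2).symm
    have hW0 : (W : ℂ) ≠ 0 := by
      exact_mod_cast (by omega : W ≠ 0)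
    rw [h1]
    unfold mv
    field_simp
  have hkey : ∑ k ∈ Icc 1 Z, F k - mv W χ * ((M : ℝ) : ℂ) * ph u x =
      ∑ r ∈ range W, χ (r + 1) * (S (r + 1) - ((M / W : ℝ) : ℂ) * ph u x) -
        ∑' k, F (k + (Z + 1)) := by
    have h1 : ∑ k ∈ Icc 1 Z, F k = ∑ r ∈ range W, χ (r + 1) * S (r + 1) -
        ∑' k, F (k + (Z + 1)) := by
      rw [← hcls, ← hshift, hsplit, hIcc]
      ring
    have h2 : ∑ r ∈ range W, χ (r + 1) * (S (r + 1) - ((M / W : ℝ) : ℂ) * ph u x) =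
        ∑ r ∈ range W, χ (r + 1) * S (r + 1) -
          (∑ r ∈ range W, χ (r + 1)) * (((M / W : ℝ) : ℂ) * ph u x) := by
      rw [Finset.sum_mul, ← Finset.sum_sub_distrib]
      refine Finset.sum_congr rfl fun r _ => ?_
      ring
    have hW0 : (W : ℂ) ≠ 0 := by
      exact_mod_cast (by omega : W ≠ 0)
    rw [h1, h2, hsum]
    push_cast
    field_simp
    ring
  have hterm : ∀ r ∈ range W, ‖χ (r + 1) * (S (r + 1) - ((M / W : ℝ) : ℂ) * ph u x)‖ ≤
      2 * C * Real.exp (-(x / 2)) := by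
    intro r hr
    rw [mem_range] at hr
    have h1 := (hC x u (r + 1) hx (by omega) (by omega)).2
    rw [norm_mul]
    have h2 : Real.exp (-x) * (1 + |u|) ≤ 2 * Real.exp (-(x / 2)) := by
      have h3 : Real.exp (-x) ≤ Real.exp (-(x / 2)) := Real.exp_le_exp.mpr (by linarith)
      have h4 : Real.exp (-x) * |u| ≤ Real.exp (-x) * Real.exp (x / 2) :=
        mul_le_mul_of_nonneg_left hu (Real.exp_pos _).le
      have h5 : Real.exp (-x) * Real.exp (x / 2) = Real.exp (-(x / 2)) := by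
        rw [← Real.exp_add]
        congr 1
        ring
      rw [h5] at h4
      linarith
    have h6 : C * Real.exp (-x) * (1 + |u|) ≤ 2 * C * Real.exp (-(x / 2)) := by
      have h7 := mul_le_mul_of_nonneg_left h2 (by linarith : (0 : ℝ) ≤ C)
      linarith
    calc ‖χ (r + 1)‖ * ‖S (r + 1) - ((M / W : ℝ) : ℂ) * ph u x‖
        ≤ 1 * ‖S (r + 1) - ((M / W : ℝ) : ℂ) * ph u x‖ :=
          mul_le_mul_of_nonneg_right (hbd _) (norm_nonneg _)
      _ ≤ _ := by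
          rw [one_mul]
          exact h1.trans h6
  have hsumb : ‖∑ r ∈ range W, χ (r + 1) * (S (r + 1) - ((M / W : ℝ) : ℂ) * ph u x)‖ ≤
      W * (2 * C * Real.exp (-(x / 2))) := by
    refine (norm_sum_le_of_le _ hterm).trans ?_
    rw [sum_const, card_range, nsmul_eq_mul]
  calc ‖∑ k ∈ Icc 1 Z, F k - mv W χ * ((M : ℝ) : ℂ) * ph u x‖
      ≤ W * (2 * C * Real.exp (-(x / 2))) + Real.exp (1 / β) * Real.exp (-(x / 2)) := by
        rw [hkey]
        exact (norm_sub_le _ _).trans (add_le_add hsumb htail)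
    _ = _ := by ring

end Pool.Agent.E3
end

section

/-!
# G4: bilinear windows by convolution and Cauchy-Schwarz
-/

set_option autoImplicit false

namespace Pool.Agent.E3

open Finset MeasureTheory Real

private lemma G4_flip (x y w : ℝ) : gs 2 (x - y) w = gs 2 y (x - w) := by
  unfold gs
  congr 1
  ring

/-- PROOF. `gs 2 (x - x') w = gs 2 x' (x - w)`, so by `gs_mul_integral` (`p = q = 2`) the integral is
`√(π/4) exp (- (v - (x - w))²) = (√π / 2) gs 1 x (v + w)`. -/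
theorem gs_conv (x v w : ℝ) :
    gs 1 x (v + w) = 2 / Real.sqrt π * ∫ x' : ℝ, gs 2 x' v * gs 2 (x - x') w := by
  simp only [G4_flip]
  rw [gs_mul_integral 2 2 v (x - w) (by norm_num) (by norm_num)]
  have h1 : Real.sqrt (π / (2 + 2)) = Real.sqrt π / 2 := by
    rw [Real.sqrt_div pi_pos.le]
    congr 1
    rw [show (2 + 2 : ℝ) = 2 ^ 2 by norm_num, Real.sqrt_sq (by norm_num)]
  have h2 : (2 : ℝ) * 2 / (2 + 2) * (v - (x - w)) ^ 2 = 1 * (x - (v + w)) ^ 2 := by ring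
  rw [h1, h2]
  have h3 : Real.sqrt π ≠ 0 := (Real.sqrt_pos.mpr pi_pos).ne'
  unfold gs
  field_simp

private lemma G4_cs (f g : ℝ → ℂ) (hf : AEStronglyMeasurable f) (hg : AEStronglyMeasurable g)
    (hf2 : Integrable fun x => ‖f x‖ ^ 2) (hg2 : Integrable fun x => ‖g x‖ ^ 2) :
    ‖∫ x : ℝ, f x * g x‖ ^ 2 ≤ (∫ x : ℝ, ‖f x‖ ^ 2) * ∫ x : ℝ, ‖g x‖ ^ 2 := by
  have hfm : MemLp f (ENNReal.ofReal 2) := by
    rw [ENNReal.ofReal_ofNat]
    exact (memLp_two_iff_integrable_sq_norm hf).mpr hf2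
  have hgm : MemLp g (ENNReal.ofReal 2) := by
    rw [ENNReal.ofReal_ofNat]
    exact (memLp_two_iff_integrable_sq_norm hg).mpr hg2
  have h1 := integral_mul_norm_le_Lp_mul_Lq (μ := volume) Real.HolderConjugate.two_two hfm hgm
  have h2 : ‖∫ x : ℝ, f x * g x‖ ≤ ∫ x : ℝ, ‖f x‖ * ‖g x‖ := by
    refine (norm_integral_le_integral_norm _).trans (le_of_eq ?_)
    simp only [norm_mul]
  have hA : 0 ≤ ∫ x : ℝ, ‖f x‖ ^ (2 : ℝ) := integral_nonneg fun x => by positivity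
  have hB : 0 ≤ ∫ x : ℝ, ‖g x‖ ^ (2 : ℝ) := integral_nonneg fun x => by positivity
  have h3 := pow_le_pow_left₀ (norm_nonneg _) (h2.trans h1) 2
  rw [mul_pow, ← Real.rpow_natCast, ← Real.rpow_natCast, ← Real.rpow_natCast,
    ← Real.rpow_mul hA, ← Real.rpow_mul hB] at h3
  norm_num at h3
  exact h3

private lemma G4_WIN_cont (a : ℕ → ℂ) (β : ℝ) (S : Finset ℕ) (t : ℝ) :
    Continuous (WIN a β S t) := by
  unfold WIN gs
  fun_prop

private lemma G4_eq (a b : ℕ → ℂ) (S S' : Finset ℕ) (t x : ℝ) :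
    BW a b S S' 1 t x =
      ((2 / Real.sqrt π : ℝ) : ℂ) * ∫ y : ℝ, WIN a 2 S t y * WIN b 2 S' t (x - y) := by
  have h1 : ∀ y : ℝ, WIN a 2 S t y * WIN b 2 S' t (x - y) =
      ∑ d ∈ S, ∑ m ∈ S', a d * b m * (ph t (Real.log d) * ph t (Real.log m)) *
        (((1 / (d * m) : ℝ)) : ℂ) * ((gs 2 y (Real.log d) * gs 2 (x - y) (Real.log m) : ℝ) : ℂ) := by
    intro y
    unfold WIN
    rw [Finset.sum_mul_sum]
    refine sum_congr rfl fun d _ => sum_congr rfl fun m _ => ?_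
    push_cast
    ring
  have hI : ∀ d ∈ S, ∀ m ∈ S', Integrable fun y : ℝ =>
      a d * b m * (ph t (Real.log d) * ph t (Real.log m)) *
        (((1 / (d * m) : ℝ)) : ℂ) *
        ((gs 2 y (Real.log d) * gs 2 (x - y) (Real.log m) : ℝ) : ℂ) := by
    intro d _ m _
    refine Integrable.const_mul ?_ _
    refine Integrable.ofReal ?_
    simp only [G4_flip]
    exact gs_mul_integrable 2 2 _ _ (by norm_num) (by norm_num)
  simp only [h1]
  rw [integral_finsetSum _ fun d hd => integrable_finsetSum _ fun m hm => hI d hd m hm,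
    Finset.mul_sum]
  unfold BW
  refine sum_congr rfl fun d hd => ?_
  rw [integral_finsetSum _ fun m hm => hI d hd m hm, Finset.mul_sum]
  refine sum_congr rfl fun m hm => ?_
  rw [integral_const_mul, integral_complex_ofReal, gs_conv]
  push_cast
  ring

/-- PROOF. By `gs_conv` (finite sums, `gs_mul_integrable`)
`BW a b S S' 1 t x = (2/√π) ∫ WIN a 2 S t x' * WIN b 2 S' t (x - x') dx'`; Cauchy-Schwarz for integrals and
`∫ ‖WIN b 2 S' t (x - x')‖² dx' = ∫ ‖WIN b 2 S' t x'‖² dx'`; `4/π ≤ 2`. -/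
theorem BW_le (a b : ℕ → ℂ) (S S' : Finset ℕ) (t x : ℝ) :
    ‖BW a b S S' 1 t x‖ ^ 2
      ≤ 2 * ((∫ x' : ℝ, ‖WIN a 2 S t x'‖ ^ 2) * ∫ x' : ℝ, ‖WIN b 2 S' t x'‖ ^ 2) := by
  have hca := G4_WIN_cont a 2 S t
  have hcb := G4_WIN_cont b 2 S' t
  have hia := (planch_WIN a S 2 t (by norm_num)).1
  have hib := (planch_WIN b S' 2 t (by norm_num)).1
  have hib' : Integrable fun y : ℝ => ‖WIN b 2 S' t (x - y)‖ ^ 2 := hib.comp_sub_left x
  have heq : ∫ y : ℝ, ‖WIN b 2 S' t (x - y)‖ ^ 2 = ∫ y : ℝ, ‖WIN b 2 S' t y‖ ^ 2 :=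
    integral_sub_left_eq_self (fun y : ℝ => ‖WIN b 2 S' t y‖ ^ 2) volume x
  have h1 := G4_cs (WIN a 2 S t) (fun y => WIN b 2 S' t (x - y)) hca.aestronglyMeasurable
    (hcb.comp (continuous_const.sub continuous_id)).aestronglyMeasurable hia hib'
  rw [heq] at h1
  rw [G4_eq, norm_mul, mul_pow, Complex.norm_real, Real.norm_of_nonneg (by positivity), div_pow,
    Real.sq_sqrt pi_pos.le]
  have h2 : (2 : ℝ) ^ 2 / π ≤ 2 := by
    rw [div_le_iff₀ pi_pos]
    have := Real.pi_gt_three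
    linarith
  exact mul_le_mul h2 h1 (by positivity) (by norm_num)

end Pool.Agent.E3
end

section

/-!
# SL3: the sieve for two linear forms
-/

set_option autoImplicit false

namespace Pool.Agent.E3

open Finset
open Pool.Agent.Lib.MP_bae66e_nt (rho)
open Pool.Agent.Lib.MP_bae66e_nt.AP3 (Rough prI KT FLP cset xb flEta exists_fl)

private theorem SL3_log_sq_le (T : ℕ) (hT : 2 ≤ T) : (Real.log T) ^ 2 ≤ T := by
  have hT' : (0 : ℝ) < T := by
    have : 0 < T := by omega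
    exact_mod_cast this
  have hy : 0 < Real.sqrt T := Real.sqrt_pos.mpr hT'
  have h1 : Real.log T = 2 * Real.log (Real.sqrt T) := by
    rw [Real.log_sqrt hT'.le]
    ring
  have h2 : Real.log (Real.sqrt T) = Real.log (Real.sqrt T / 2) + Real.log 2 := by
    rw [← Real.log_mul (by positivity) (by norm_num)]
    congr 1
    ring
  have h3 := Real.log_le_sub_one_of_pos (show 0 < Real.sqrt T / 2 by positivity)
  have h4 : Real.log 2 < 1 := by
    have := Real.log_two_lt_d9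
    linarith
  have h5 : Real.log T ≤ Real.sqrt T := by
    rw [h1, h2]
    linarith
  have h6 : 0 ≤ Real.log T := Real.log_nonneg (by exact_mod_cast (by omega : 1 ≤ T))
  calc (Real.log T) ^ 2 ≤ (Real.sqrt T) ^ 2 := pow_le_pow_left₀ h6 h5 2
    _ = T := Real.sq_sqrt hT'.le

private theorem SL3_dvd (a b ℓ k : ℕ) (h : ℓ ∣ a * (k % ℓ) + b) : ℓ ∣ a * k + b := by
  have h1 : a * k + b = (a * (k % ℓ) + b) + ℓ * (a * (k / ℓ)) := by
    conv_lhs => rw [← Nat.mod_add_div k ℓ]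
    ring
  rw [h1]
  exact dvd_add h (dvd_mul_right _ _)

private theorem SL3_subset (T N A a b c d D : ℕ) :
    {k ∈ Ioc A (A + N) | ∀ ℓ ∈ prI 0 T, ¬ ℓ ∣ a * k + b ∧ ¬ ℓ ∣ c * k + d}
      ⊆ cset (Om2 a b c d D) A (A + N) 1 0 ∅ (RS2 D T) := by
  intro k hk
  rw [Finset.mem_filter] at hk
  obtain ⟨hk1, hk2⟩ := hk
  unfold cset
  rw [Finset.mem_filter]
  refine ⟨hk1, Nat.modEq_one, fun ℓ hℓ => absurd hℓ (Finset.notMem_empty ℓ), ?_⟩
  intro ℓ hℓ hmem
  unfold RS2 at hℓ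
  rw [Finset.mem_filter] at hℓ
  have h3 := hk2 ℓ hℓ.1
  unfold Om2 at hmem
  split_ifs at hmem with hc
  · rw [Finset.mem_filter] at hmem
    rcases hmem.2 with h | h
    · exact h3.1 (SL3_dvd a b ℓ k h)
    · exact h3.2 (SL3_dvd c d ℓ k h)
  · exact absurd hmem (Finset.notMem_empty _)

private theorem SL3_eta (L0 : ℝ) (hL0 : 1 ≤ L0) : ∃ b1 : ℕ, ∀ b : ℕ, b1 ≤ b → flEta L0 b ≤ 1 := by
  obtain ⟨b1, h1⟩ := Pool.Agent.Lib.MP_bae66e_nt.AP3.exists_flEta_mul L0 hL0 1 one_pos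
  refine ⟨b1 + 1, fun b hb => ?_⟩
  have h2 := h1 b (by omega)
  have h3 : 0 ≤ flEta L0 b := by
    unfold flEta
    positivity
  have h4 : 0 ≤ Real.log b := Real.log_nonneg (by exact_mod_cast (by omega : 1 ≤ b))
  nlinarith

/-- PROOF. `exists_fl` (file `AP3/FLFinal.lean`) gives `L0, b0`; choose `b ≥ b0` with `flEta L0 b = L0^b / b! ≤ 1`, then `T0`
for this `b`; `κ = 2 b + 6`. The set is contained in `cset (Om2 a b c d D) A (A + N) 1 0 ∅ (RS2 D T)`: for `ℓ ∈ RS2 D T` and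
`k` in the set, `k % ℓ ∈ Om2 a b' c d D ℓ` would give `ℓ ∣ a (k % ℓ) + b'` or `ℓ ∣ c (k % ℓ) + d`, hence `ℓ ∣ a k + b'` or
`ℓ ∣ c k + d`. `FLP` with `q = 1`, `a = 0` (`Om2_xb_le`, `Om2_card_le`, `Om2_lt`): the cardinality is at most
`2 N ∏_{RS2 D T} (1 - xb ℓ) + T^(2b+5)`, where `xb ℓ = 2 / ℓ` for `ℓ ∈ RS2 D T` (`Om2_card`), so it is
`≤ 18 N (Fr D)² / (log (T+1))² + N / T` (`prod_RS2_le`, `T^(2b+6) ≤ N`), and `1 / T ≤ 1 / (log T)²` (`(log T)² ≤ T`),
`1 ≤ (Fr D)²`. -/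
theorem forms_sieve : ∃ κ T₀ : ℕ, 1 ≤ κ ∧ 2 ≤ T₀ ∧ ∀ (T N A a b c d h D : ℕ), T₀ ≤ T → T ^ κ ≤ N → 1 ≤ h →
    a * d = c * b + h → a ∣ D → c ∣ D → h ∣ D → D ≠ 0 →
    (#{k ∈ Ioc A (A + N) | ∀ ℓ ∈ prI 0 T, ¬ ℓ ∣ a * k + b ∧ ¬ ℓ ∣ c * k + d} : ℝ)
      ≤ 20 * N * (Fr D) ^ 2 / (Real.log T) ^ 2 := by
  obtain ⟨L0, hL0, b0, hfl⟩ := exists_fl
  obtain ⟨b1, hb1⟩ := SL3_eta L0 hL0
  obtain ⟨T0, hT02, hfl⟩ := hfl (max b0 b1) (le_max_left _ _)
  have heta := hb1 (max b0 b1) (le_max_right _ _)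
  have heta0 : 0 ≤ flEta L0 (max b0 b1) := by
    unfold flEta
    positivity
  generalize hm : max b0 b1 = m at hfl heta heta0
  refine ⟨2 * m + 6, T0, by omega, hT02, ?_⟩
  intro T N A a b c d h D hT hTN hh hdet ha hc hhD hD
  have hT2 : 2 ≤ T := hT02.trans hT
  have hTR : (2 : ℝ) ≤ T := by exact_mod_cast hT2
  have hF := hfl T hT (Om2 a b c d D) A (A + N) (Nat.le_add_right A N)
    (fun ℓ => Om2_xb_le a b c d h D ℓ hdet ha hc hhD)
    (fun ℓ => Om2_card_le a b c d h D ℓ hdet ha hc hhD) (RS2 D T)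
    (fun ℓ hℓ => by
      unfold RS2 at hℓ
      rw [Finset.mem_filter, Pool.Agent.Lib.MP_bae66e_nt.AP3.mem_prI] at hℓ
      exact ⟨hℓ.1.2, hℓ.1.1.2⟩)
    (fun ℓ _ => Om2_lt a b c d D ℓ) 1 0 Nat.one_pos (fun ℓ _ => Nat.coprime_one_right ℓ)
  have hprod : ∏ ℓ ∈ RS2 D T, (1 - xb (Om2 a b c d D) ℓ) = ∏ ℓ ∈ RS2 D T, (1 - 2 / (ℓ : ℝ)) := by
    refine Finset.prod_congr rfl fun ℓ hℓ => ?_
    unfold RS2 at hℓ
    rw [Finset.mem_filter, Pool.Agent.Lib.MP_bae66e_nt.AP3.mem_prI] at hℓ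
    unfold xb
    rw [Om2_card a b c d h D ℓ hdet ha hc hhD hℓ.1.2 hℓ.2.1 hℓ.2.2]
    norm_num
  have hBA : (((A + N : ℕ) : ℝ) - A) / ((1 : ℕ) : ℝ) = N := by
    push_cast
    ring
  rw [hprod, hBA] at hF
  have hP0 : 0 ≤ ∏ ℓ ∈ RS2 D T, (1 - 2 / (ℓ : ℝ)) := by
    refine Finset.prod_nonneg fun ℓ hℓ => ?_
    unfold RS2 at hℓ
    rw [Finset.mem_filter] at hℓ
    have h5 : (5 : ℝ) ≤ ℓ := by exact_mod_cast hℓ.2.1
    have : 2 / (ℓ : ℝ) ≤ 1 := by
      rw [div_le_one (by linarith)]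
      linarith
    linarith
  have hP := prod_RS2_le D T hD (by omega)
  have hN0 : (0 : ℝ) ≤ N := Nat.cast_nonneg N
  have hlog : 0 < Real.log T := Real.log_pos (by linarith)
  have hlog1 : Real.log T ≤ Real.log (T + 1) := Real.log_le_log (by linarith) (by linarith)
  have hFr := Fr_one_le D hD
  have hcard : (#{k ∈ Ioc A (A + N) | ∀ ℓ ∈ prI 0 T, ¬ ℓ ∣ a * k + b ∧ ¬ ℓ ∣ c * k + d} : ℝ)
      ≤ (#(cset (Om2 a b c d D) A (A + N) 1 0 ∅ (RS2 D T)) : ℝ) := by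
    exact_mod_cast Finset.card_le_card (SL3_subset T N A a b c d D)
  have h1 : (#(cset (Om2 a b c d D) A (A + N) 1 0 ∅ (RS2 D T)) : ℝ)
      ≤ 2 * (N * ∏ ℓ ∈ RS2 D T, (1 - 2 / (ℓ : ℝ))) + (T : ℝ) ^ (2 * m + 5) := by
    have h2 := (abs_le.mp hF).2
    have h3 : flEta L0 m * ((N : ℝ) * ∏ ℓ ∈ RS2 D T, (1 - 2 / (ℓ : ℝ)))
        ≤ 1 * ((N : ℝ) * ∏ ℓ ∈ RS2 D T, (1 - 2 / (ℓ : ℝ))) :=
      mul_le_mul_of_nonneg_right heta (mul_nonneg hN0 hP0)
    linarith
  have h2 : (N : ℝ) * ∏ ℓ ∈ RS2 D T, (1 - 2 / (ℓ : ℝ)) ≤ 9 * N * (Fr D) ^ 2 / (Real.log T) ^ 2 := by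
    calc (N : ℝ) * ∏ ℓ ∈ RS2 D T, (1 - 2 / (ℓ : ℝ))
        ≤ N * (9 * (Fr D) ^ 2 / (Real.log (T + 1)) ^ 2) := mul_le_mul_of_nonneg_left hP hN0
      _ ≤ N * (9 * (Fr D) ^ 2 / (Real.log T) ^ 2) := by gcongr
      _ = 9 * N * (Fr D) ^ 2 / (Real.log T) ^ 2 := by ring
  have h3 : (T : ℝ) ^ (2 * m + 5) ≤ N * (Fr D) ^ 2 / (Real.log T) ^ 2 := by
    have h4 : (T : ℝ) ^ (2 * m + 6) ≤ N := by exact_mod_cast hTN
    have h5 := SL3_log_sq_le T hT2
    rw [le_div_iff₀ (by positivity)]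
    calc (T : ℝ) ^ (2 * m + 5) * (Real.log T) ^ 2 ≤ (T : ℝ) ^ (2 * m + 5) * T := by gcongr
      _ = (T : ℝ) ^ (2 * m + 6) := by ring
      _ ≤ N := h4
      _ = N * 1 := (mul_one _).symm
      _ ≤ N * (Fr D) ^ 2 := by
          have h6 : 1 ≤ (Fr D) ^ 2 := one_le_pow₀ hFr
          gcongr
  have h4 : 0 ≤ (N : ℝ) * (Fr D) ^ 2 / (Real.log T) ^ 2 := by positivity
  have h5 : 9 * (N : ℝ) * (Fr D) ^ 2 / (Real.log T) ^ 2 = 9 * (N * (Fr D) ^ 2 / (Real.log T) ^ 2) := by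
    ring
  have h6 : 20 * (N : ℝ) * (Fr D) ^ 2 / (Real.log T) ^ 2 = 20 * (N * (Fr D) ^ 2 / (Real.log T) ^ 2) := by
    ring
  rw [h5] at h2
  rw [h6]
  linarith

end Pool.Agent.E3
end
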