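import Mathlib

section

/-!
# Definitions for the law of `g(m) / (log m loglog m)`
-/

set_option autoImplicit false

open Finset

namespace Pool.Agent.Lib.MP_bae66e_nt.LL

/-- `W / φ(W)` on the integers coprime to `W`, and `0` elsewhere. -/
noncomputable def nu (W : ℕ) (n : ℤ) : ℝ :=
  if IsCoprime n (W : ℤ) then (W : ℝ) / (Nat.totient W : ℝ) else 0

/-- `log Y` on the primes in `[1, Y]`, and `0` elsewhere. -/
noncomputable def fP (Y : ℕ) (n : ℤ) : ℝ :=
  if 1 ≤ n ∧ n ≤ (Y : ℤ) ∧ n.toNat.Prime then Real.log Y else 0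

/-- The restriction of `nu W` to `[1, Y]`. -/
noncomputable def gW (W Y : ℕ) (n : ℤ) : ℝ :=
  if 1 ≤ n ∧ n ≤ (Y : ℤ) then nu W n else 0

/-- The correlations of a function (used for functions supported in `[1, Y]`). -/
noncomputable def corr (Y : ℕ) (f : ℤ → ℝ) (d : ℤ) : ℝ :=
  ∑ n ∈ Finset.Icc (1 : ℤ) (Y : ℤ), f n * f (n + d)

end Pool.Agent.Lib.MP_bae66e_nt.LL
end

section

/-!
# Module N: definitions for the Wiener-Ikehara theorem
-/

set_option autoImplicit false

open Finset

namespace Pool.Agent.Lib.MP_bae66e_nt.LL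

/-- The partial sums of `c`. -/
noncomputable def psum (c : ℕ → ℝ) (x : ℝ) : ℝ := ∑ n ∈ Finset.Icc 1 ⌊x⌋₊, c n

/-- The normalised partial sums `exp(-u) ∑_{n ≤ exp(u)} c(n)`. It is `0` for `u < 0`. -/
noncomputable def fW (c : ℕ → ℝ) (u : ℝ) : ℝ := Real.exp (-u) * psum c (Real.exp u)

/-- The Fejer kernel `2 (1 - cos x) / x²`, as an integral. -/
noncomputable def fej (x : ℝ) : ℝ := ∫ t in (-1 : ℝ)..1, (1 - |t|) * Real.cos (t * x)

end Pool.Agent.Lib.MP_bae66e_nt.LL
end

section

/-!
# N01: elementary properties of `psum` and `fW`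
-/

set_option autoImplicit false

open Finset Filter Topology

namespace Pool.Agent.Lib.MP_bae66e_nt.LL

/-- `psum c` is monotone if `c ≥ 0`. -/
lemma psum_mono (c : ℕ → ℝ) (hc : ∀ n, 0 ≤ c n) : Monotone (psum c) := by
  intro x y hxy
  unfold psum
  apply Finset.sum_le_sum_of_subset_of_nonneg
  · exact Finset.Icc_subset_Icc_right (Nat.floor_mono hxy)
  · intro n _ _
    exact hc n

lemma psum_nonneg (c : ℕ → ℝ) (hc : ∀ n, 0 ≤ c n) (x : ℝ) : 0 ≤ psum c x := by
  unfold psum
  exact Finset.sum_nonneg fun n _ => hc n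

/-- `fW c u = 0` for `u < 0` (then `exp u < 1`, `⌊exp u⌋₊ = 0`). -/
lemma fW_neg (c : ℕ → ℝ) (u : ℝ) (hu : u < 0) : fW c u = 0 := by
  have h : ⌊Real.exp u⌋₊ = 0 := Nat.floor_eq_zero.mpr (by rw [← Real.exp_zero]; exact Real.exp_lt_exp.mpr hu)
  unfold fW psum
  rw [h]
  simp

lemma fW_nonneg (c : ℕ → ℝ) (hc : ∀ n, 0 ≤ c n) (u : ℝ) : 0 ≤ fW c u := by
  unfold fW
  exact mul_nonneg (Real.exp_pos _).le (psum_nonneg c hc _)

lemma fW_le (c : ℕ → ℝ) (C : ℝ) (hC : ∀ x : ℝ, 0 ≤ x → psum c x ≤ C * x) (u : ℝ) :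
    fW c u ≤ C := by
  unfold fW
  calc Real.exp (-u) * psum c (Real.exp u) ≤ Real.exp (-u) * (C * Real.exp u) :=
        mul_le_mul_of_nonneg_left (hC _ (Real.exp_pos u).le) (Real.exp_pos _).le
    _ = C * (Real.exp (-u) * Real.exp u) := by ring
    _ = C := by rw [← Real.exp_add, neg_add_cancel, Real.exp_zero, mul_one]

/-- `psum c` is monotone, hence measurable. -/
lemma fW_measurable (c : ℕ → ℝ) (hc : ∀ n, 0 ≤ c n) : Measurable (fW c) := by
  unfold fW
  have h1 : Measurable (psum c) := (psum_mono c hc).measurable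
  exact (Real.measurable_exp.comp measurable_neg).mul (h1.comp Real.measurable_exp)

/-- The Tauberian condition: `exp(u) fW(u)` is monotone. -/
lemma fW_le_of_le (c : ℕ → ℝ) (hc : ∀ n, 0 ≤ c n) (u v : ℝ) (huv : u ≤ v) :
    fW c u ≤ Real.exp (v - u) * fW c v := by
  unfold fW
  have h1 : psum c (Real.exp u) ≤ psum c (Real.exp v) :=
    psum_mono c hc (Real.exp_le_exp.mpr huv)
  have h2 : Real.exp (v - u) * (Real.exp (-v) * psum c (Real.exp v)) =
      Real.exp (-u) * psum c (Real.exp v) := by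
    rw [← mul_assoc, ← Real.exp_add]
    congr 2
    ring
  rw [h2]
  exact mul_le_mul_of_nonneg_left h1 (Real.exp_pos _).le

/-- `psum c x / x = fW c (log x)` for `x > 0`. -/
lemma psum_div_eq (c : ℕ → ℝ) (x : ℝ) (hx : 0 < x) : psum c x / x = fW c (Real.log x) := by
  unfold fW
  rw [Real.exp_neg, Real.exp_log hx, div_eq_mul_inv, mul_comm]

end Pool.Agent.Lib.MP_bae66e_nt.LL
end

section

/-!
# N03: the Fejer kernel
-/

set_option autoImplicit false

open Finset Filter Topology MeasureTheory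

namespace Pool.Agent.Lib.MP_bae66e_nt.LL

private lemma N03_cont (x : ℝ) : Continuous (fun t : ℝ => (1 - |t|) * Real.cos (t * x)) := by
  fun_prop

private lemma N03_split (x : ℝ) : fej x = (∫ t in (-1 : ℝ)..0, (1 + t) * Real.cos (t * x)) +
    ∫ t in (0 : ℝ)..1, (1 - t) * Real.cos (t * x) := by
  unfold fej
  rw [← intervalIntegral.integral_add_adjacent_intervals
    ((N03_cont x).intervalIntegrable (-1) 0) ((N03_cont x).intervalIntegrable 0 1)]
  congr 1
  · apply intervalIntegral.integral_congr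
    intro t ht
    rw [Set.uIcc_of_le (by norm_num)] at ht
    simp only
    rw [abs_of_nonpos ht.2, sub_neg_eq_add]
  · apply intervalIntegral.integral_congr
    intro t ht
    rw [Set.uIcc_of_le (by norm_num)] at ht
    simp only
    rw [abs_of_nonneg ht.1]

private lemma N03_d1 (x t : ℝ) (hx : x ≠ 0) :
    HasDerivAt (fun t : ℝ => (1 - t) * Real.sin (t * x) / x - Real.cos (t * x) / x ^ 2)
      ((1 - t) * Real.cos (t * x)) t := by
  have h1 : HasDerivAt (fun t : ℝ => t * x) x t := by
    simpa using (hasDerivAt_id t).mul_const x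
  have h2 := h1.sin
  have h3 := h1.cos
  have h4 : HasDerivAt (fun t : ℝ => 1 - t) (-1) t := by
    simpa using (hasDerivAt_id t).const_sub 1
  refine (((h4.mul h2).div_const x).sub (h3.div_const (x ^ 2))).congr_deriv ?_
  field_simp
  ring

private lemma N03_d2 (x t : ℝ) (hx : x ≠ 0) :
    HasDerivAt (fun t : ℝ => (1 + t) * Real.sin (t * x) / x + Real.cos (t * x) / x ^ 2)
      ((1 + t) * Real.cos (t * x)) t := by
  have h1 : HasDerivAt (fun t : ℝ => t * x) x t := by
    simpa using (hasDerivAt_id t).mul_const x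
  have h2 := h1.sin
  have h3 := h1.cos
  have h4 : HasDerivAt (fun t : ℝ => 1 + t) 1 t := by
    simpa using (hasDerivAt_id t).const_add 1
  refine (((h4.mul h2).div_const x).add (h3.div_const (x ^ 2))).congr_deriv ?_
  field_simp
  ring

/-- `∫_{-1}^{1} (1 - |t|) cos(t x) dt = 2 (1 - cos x) / x²` for `x ≠ 0`.

PROOF. By symmetry it is `2 ∫_0^1 (1 - t) cos(t x) dt`; an antiderivative of `(1 - t) cos(t x)` in
`t` is `(1 - t) sin(t x) / x - cos(t x) / x²`. -/
lemma fej_eq (x : ℝ) (hx : x ≠ 0) : fej x = 2 * (1 - Real.cos x) / x ^ 2 := by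
  rw [N03_split x]
  rw [intervalIntegral.integral_eq_sub_of_hasDerivAt (fun t _ => N03_d2 x t hx)
    (Continuous.intervalIntegrable (by fun_prop) _ _),
    intervalIntegral.integral_eq_sub_of_hasDerivAt (fun t _ => N03_d1 x t hx)
    (Continuous.intervalIntegrable (by fun_prop) _ _)]
  simp
  field_simp
  ring

/-- `fej 0 = 1`. -/
lemma fej_zero : fej 0 = 1 := by
  rw [N03_split 0]
  have h1 : (∫ t in (-1 : ℝ)..0, (1 + t) * Real.cos (t * 0)) = 1 / 2 := by
    simp only [mul_zero, Real.cos_zero, mul_one]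
    have hd : ∀ t ∈ Set.uIcc (-1 : ℝ) 0, HasDerivAt (fun t : ℝ => t + t ^ 2 / 2) (1 + t) t := by
      intro t _
      refine ((hasDerivAt_id t).add ((hasDerivAt_pow 2 t).div_const 2)).congr_deriv ?_
      simp
    rw [intervalIntegral.integral_eq_sub_of_hasDerivAt hd
      (Continuous.intervalIntegrable (by fun_prop) _ _)]
    norm_num
  have h2 : (∫ t in (0 : ℝ)..1, (1 - t) * Real.cos (t * 0)) = 1 / 2 := by
    simp only [mul_zero, Real.cos_zero, mul_one]
    have hd : ∀ t ∈ Set.uIcc (0 : ℝ) 1, HasDerivAt (fun t : ℝ => t - t ^ 2 / 2) (1 - t) t := by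
      intro t _
      refine ((hasDerivAt_id t).sub ((hasDerivAt_pow 2 t).div_const 2)).congr_deriv ?_
      simp
    rw [intervalIntegral.integral_eq_sub_of_hasDerivAt hd
      (Continuous.intervalIntegrable (by fun_prop) _ _)]
    norm_num
  rw [h1, h2]
  norm_num

lemma fej_nonneg (x : ℝ) : 0 ≤ fej x := by
  by_cases hx : x = 0
  · rw [hx, fej_zero]
    norm_num
  · rw [fej_eq x hx]
    have := Real.cos_le_one x
    exact div_nonneg (by linarith) (sq_nonneg x)

/-- from the integral, as `|cos| ≤ 1` and `∫ (1 - |t|) = 1`. -/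
lemma fej_le_one (x : ℝ) : fej x ≤ 1 := by
  have h1 : fej x ≤ ∫ t in (-1 : ℝ)..1, (1 - |t|) * Real.cos (t * 0) := by
    unfold fej
    apply intervalIntegral.integral_mono_on (by norm_num)
      ((N03_cont x).intervalIntegrable _ _) ((N03_cont 0).intervalIntegrable _ _)
    intro t ht
    have h2 : |t| ≤ 1 := abs_le.mpr ⟨ht.1, ht.2⟩
    rw [mul_zero, Real.cos_zero]
    exact mul_le_mul_of_nonneg_left (Real.cos_le_one _) (by linarith)
  exact h1.trans (le_of_eq fej_zero)

/-- from `fej_eq`; for `x = 0` the right-hand side is `0 / 0`-like, so `x ≠ 0` is assumed. -/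
lemma fej_le (x : ℝ) (hx : x ≠ 0) : fej x ≤ 4 / x ^ 2 := by
  rw [fej_eq x hx]
  have := Real.neg_one_le_cos x
  exact div_le_div_of_nonneg_right (by linarith) (sq_nonneg x)

/-- continuity under the integral sign (e.g. `intervalIntegral.continuous_parametric_intervalIntegral_of_continuous`). -/
lemma fej_continuous : Continuous fej := by
  unfold fej
  apply intervalIntegral.continuous_parametric_intervalIntegral_of_continuous'
  fun_prop

/-- `0 ≤ fej x ≤ min 1 (4 / x²)`, e.g. `fej x ≤ 8 / (1 + x²)` (for `|x| ≤ 1` by `fej_le_one`, for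
`|x| ≥ 1` by `fej_le`), and `integrable_inv_one_add_sq`. -/
lemma fej_integrable : Integrable fej := by
  refine Integrable.mono' (integrable_inv_one_add_sq.const_mul 8)
    fej_continuous.aestronglyMeasurable ?_
  filter_upwards with x
  rw [Real.norm_of_nonneg (fej_nonneg x)]
  have h0 : 0 < 1 + x ^ 2 := by positivity
  rw [← div_eq_mul_inv, le_div_iff₀ h0]
  by_cases hx : x ^ 2 ≤ 1
  · have := fej_le_one x
    have h1 := fej_nonneg x
    nlinarith
  · push Not at hx
    have hx0 : x ≠ 0 := by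
      intro h
      rw [h] at hx
      norm_num at hx
    have h2 := fej_le x hx0
    have h3 : 0 < x ^ 2 := by positivity
    rw [le_div_iff₀ h3] at h2
    have h1 := fej_nonneg x
    nlinarith

/-- continuous, nonnegative and positive at `0`. -/
lemma fej_integral_pos : 0 < ∫ x, fej x := by
  rw [integral_pos_iff_support_of_nonneg fej_nonneg fej_integrable]
  have hne : (Function.support fej).Nonempty := by
    refine ⟨0, ?_⟩
    rw [Function.mem_support, fej_zero]
    norm_num
  exact fej_continuous.isOpen_support.measure_pos volume hne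

/-- The complex form with a scaling parameter: `∫_{-L}^{L} (1 - |t| / L) exp(i t x) dt = L fej(L x)`.

PROOF. Substitute `t = L τ`; the imaginary part `∫ (1 - |τ|) sin(τ L x) dτ` vanishes since the
integrand is odd. -/
lemma fej_complex (L x : ℝ) (hL : 0 < L) :
    ∫ t in (-L)..L, ((1 - |t| / L : ℝ) : ℂ) * Complex.exp (((t * x : ℝ) : ℂ) * Complex.I)
      = ((L * fej (L * x) : ℝ) : ℂ) := by
  have hodd : ∫ t in (-1 : ℝ)..1, (1 - |t|) * Real.sin (t * (L * x)) = 0 := by
    have h := intervalIntegral.integral_comp_neg (a := (-1 : ℝ)) (b := 1)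
      (fun t : ℝ => (1 - |t|) * Real.sin (t * (L * x)))
    simp only [abs_neg, neg_mul, Real.sin_neg, mul_neg, neg_neg,
      intervalIntegral.integral_neg] at h
    linarith
  have h := intervalIntegral.smul_integral_comp_mul_left (a := (-1 : ℝ)) (b := 1)
    (fun t : ℝ => ((1 - |t| / L : ℝ) : ℂ) * Complex.exp (((t * x : ℝ) : ℂ) * Complex.I)) L
  rw [mul_neg, mul_one] at h
  rw [← h]
  have h2 : ∀ τ : ℝ, ((1 - |L * τ| / L : ℝ) : ℂ) *
      Complex.exp (((L * τ * x : ℝ) : ℂ) * Complex.I) =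
      (((1 - |τ|) * Real.cos (τ * (L * x)) : ℝ) : ℂ) +
        (((1 - |τ|) * Real.sin (τ * (L * x)) : ℝ) : ℂ) * Complex.I := by
    intro τ
    have e1 : |L * τ| / L = |τ| := by
      rw [abs_mul, abs_of_pos hL, mul_div_cancel_left₀ _ hL.ne']
    have e2 : L * τ * x = τ * (L * x) := by ring
    rw [e1, e2, Complex.exp_mul_I, ← Complex.ofReal_cos, ← Complex.ofReal_sin]
    push_cast
    ring
  simp only [h2]
  have hc1 : Continuous (fun τ : ℝ => (((1 - |τ|) * Real.cos (τ * (L * x)) : ℝ) : ℂ)) :=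
    Complex.continuous_ofReal.comp (by fun_prop)
  have hc2 : Continuous (fun τ : ℝ => (((1 - |τ|) * Real.sin (τ * (L * x)) : ℝ) : ℂ) *
      Complex.I) :=
    (Complex.continuous_ofReal.comp (by fun_prop)).mul continuous_const
  rw [intervalIntegral.integral_add (hc1.intervalIntegrable _ _) (hc2.intervalIntegrable _ _),
    intervalIntegral.integral_mul_const, intervalIntegral.integral_ofReal,
    intervalIntegral.integral_ofReal, hodd]
  unfold fej
  rw [Complex.real_smul]
  push_cast
  ring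

end Pool.Agent.Lib.MP_bae66e_nt.LL
end
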