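import Pool.Agent.Lib.MP_bae66e_nt.Mg.G077

section

/-!
# Asymptotics for `HH`
-/

set_option autoImplicit false

namespace Pool.Agent.Lib.MP_bae66e_nt.AP3

open Finset Nat

lemma HH_lower (T : ℕ) (hT : 1 ≤ T) (t : ℝ) :
    (1 - 1 / (T : ℝ)) * (KT T * t) ≤ HH T ⌊Real.exp t⌋₊ := by
  set n := ⌊Real.exp t⌋₊ with hn
  have h1 : t ≤ Real.log (n + 1) := by
    rw [Real.le_log_iff_exp_le (by positivity)]
    exact (Nat.lt_floor_add_one _).le
  have hT0 : (0 : ℝ) < T := by exact_mod_cast hT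
  have hT1 : 0 ≤ 1 - 1 / (T : ℝ) := by
    rw [sub_nonneg, div_le_one hT0]; exact_mod_cast hT
  calc (1 - 1 / (T : ℝ)) * (KT T * t) ≤ (1 - 1 / (T : ℝ)) * (KT T * Real.log (n + 1)) := by
        have := (KT_pos T).le
        gcongr
    _ ≤ (1 - 1 / (T : ℝ)) * ∑ r ∈ rset T n, 1 / (r : ℝ) := by
        gcongr
        exact sum_rset_ge T n
    _ ≤ ∑ r ∈ dset T n, 1 / (r : ℝ) := sum_dset_ge T n hT
    _ ≤ HH T n := by
        unfold HH
        apply sum_le_sum
        intro r hr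
        have hr' := mem_dset.mp hr
        have h2 : (0 : ℝ) < φ r := by exact_mod_cast Nat.totient_pos.mpr hr'.1.1.1
        apply one_div_le_one_div_of_le h2
        exact_mod_cast Nat.totient_le r

lemma HH_upper (T M n : ℕ) (hT : 1 ≤ T) (hn : n ≤ T ^ M) (hM : 2 * M ≤ T) :
    HH T n ≤ (1 + 2 * (M / (T : ℝ))) * ∑ r ∈ rset T n, 1 / (r : ℝ) := by
  have hT0 : (0 : ℝ) < T := by exact_mod_cast hT
  set x : ℝ := M / (T : ℝ) with hx
  have hx0 : 0 ≤ x := by positivity
  have hx1 : x ≤ 1 / 2 := by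
    rw [hx, div_le_iff₀ hT0]
    have : (2 * M : ℝ) ≤ T := by exact_mod_cast hM
    linarith
  unfold HH
  calc ∑ r ∈ dset T n, 1 / (φ r : ℝ) ≤ ∑ r ∈ dset T n, (1 + 2 * x) * (1 / (r : ℝ)) := by
        apply sum_le_sum
        intro r hr
        have hr' := mem_dset.mp hr
        have hr0 : (0 : ℝ) < r := by exact_mod_cast hr'.1.1.1
        have h2 : (0 : ℝ) < φ r := by exact_mod_cast Nat.totient_pos.mpr hr'.1.1.1
        have h3 := totient_ge T M r hT (mem_dset.mpr
          ⟨⟨⟨hr'.1.1.1, hr'.1.1.2.trans hn⟩, hr'.1.2⟩, hr'.2⟩)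
        rw [← hx] at h3
        rw [div_le_iff₀ h2]
        have h4 : 1 ≤ (1 + 2 * x) * (1 - x) := by nlinarith
        calc (1 : ℝ) ≤ (1 + 2 * x) * (1 - x) := h4
          _ = (1 + 2 * x) * (1 / (r : ℝ)) * ((1 - x) * r) := by field_simp
          _ ≤ (1 + 2 * x) * (1 / (r : ℝ)) * (φ r : ℝ) := by
              apply mul_le_mul_of_nonneg_left h3; positivity
    _ = (1 + 2 * x) * ∑ r ∈ dset T n, 1 / (r : ℝ) := by rw [mul_sum]
    _ ≤ (1 + 2 * x) * ∑ r ∈ rset T n, 1 / (r : ℝ) := by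
        apply mul_le_mul_of_nonneg_left _ (by positivity)
        exact sum_le_sum_of_subset_of_nonneg (filter_subset _ _) fun _ _ _ => by positivity

theorem exists_HH_raw : ∃ L0 : ℝ, 1 ≤ L0 ∧ ∃ C1 : ℝ, 0 ≤ C1 ∧ ∃ b0 : ℕ, ∀ b : ℕ, b0 ≤ b →
    ∀ M : ℕ, ∃ T0 : ℕ, 2 ≤ T0 ∧ ∀ T : ℕ, T0 ≤ T → ∀ t : ℝ, 0 ≤ t → t ≤ M * Real.log T →
    |HH T ⌊Real.exp t⌋₊ - KT T * t|
      ≤ KT T * Real.log T * (3 * flEta L0 b * M + C1 * (b + 1)) := by
  obtain ⟨L0, hL01, b0, h⟩ := exists_rough_count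
  obtain ⟨c, hc, hK⟩ := exists_KT_ge
  refine ⟨L0, hL01, 2 + 7 / c, by positivity, b0, ?_⟩
  intro b hb M
  obtain ⟨T0, hT02, hT0⟩ := h b hb
  have hη : 0 < flEta L0 b := by unfold flEta; positivity
  set η := flEta L0 b with hηdef
  set Q : ℝ := 2 * η * M + 1 + (2 * b + 7) / c with hQ
  have hQ0 : 0 ≤ Q := by positivity
  refine ⟨max T0 (max (2 * M) (max ⌈Real.exp (1 + 2 * η)⌉₊ ⌈2 * M * (M + Q)⌉₊)),
    le_max_of_le_left hT02, ?_⟩
  intro T hT t ht0 htM
  have hTT0 : T0 ≤ T := (le_max_left _ _).trans hT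
  have hT' := (le_max_right _ _).trans hT
  have hT2M : 2 * M ≤ T := (le_max_left _ _).trans hT'
  have hT'' := (le_max_right _ _).trans hT'
  have hTexp : Real.exp (1 + 2 * η) ≤ T :=
    (Nat.le_ceil _).trans (by exact_mod_cast (le_max_left _ _).trans hT'')
  have hTQ : 2 * M * (M + Q) ≤ T :=
    (Nat.le_ceil _).trans (by exact_mod_cast (le_max_right _ _).trans hT'')
  have hT2 : 2 ≤ T := hT02.trans hTT0
  have hT1 : 1 ≤ T := by omega
  have hT0' : (0 : ℝ) < T := by positivity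
  have hlT : 0 < Real.log T := Real.log_pos (by exact_mod_cast hT2)
  have hlog1 : 1 + 2 * η ≤ Real.log T := by
    rwa [Real.le_log_iff_exp_le hT0']
  have hK0 := KT_pos T
  set K := KT T with hKdef
  set n := ⌊Real.exp t⌋₊ with hn
  have hnle : (n : ℝ) ≤ Real.exp t := Nat.floor_le (Real.exp_pos t).le
  have hn1 : 1 ≤ n := by
    rw [hn]; exact Nat.le_floor (by simpa using Real.one_le_exp ht0)
  have hnM : n ≤ T ^ M := by
    have : (n : ℝ) ≤ (T : ℝ) ^ M := by
      calc (n : ℝ) ≤ Real.exp t := hnle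
        _ ≤ Real.exp (M * Real.log T) := Real.exp_le_exp.mpr htM
        _ = (T : ℝ) ^ M := by
            rw [mul_comm, Real.exp_mul, Real.exp_log hT0', Real.rpow_natCast]
    exact_mod_cast this
  have hn0 : (0 : ℝ) < n := by exact_mod_cast hn1
  have hlogn : Real.log n ≤ t := by
    rw [Real.log_le_iff_le_exp hn0]; exact hnle
  -- lower bound
  have hlow := HH_lower T hT1 t
  rw [← hn, ← hKdef] at hlow
  have hup := HH_upper T M n hT1 hnM hT2M
  -- bound for the rough sum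
  set t0 : ℕ := T ^ (2 * b + 7) with ht0def
  have ht01 : 1 ≤ t0 := Nat.one_le_pow _ _ (by omega)
  have ht0T : T ≤ t0 := by
    calc T = T ^ 1 := (pow_one T).symm
      _ ≤ T ^ (2 * b + 7) := Nat.pow_le_pow_right (by omega) (by omega)
  have hlt0 : Real.log t0 = (2 * b + 7) * Real.log T := by
    rw [ht0def]; push_cast; rw [Real.log_pow]; push_cast; ring
  have hS0 : ∑ r ∈ rset T t0, 1 / (r : ℝ) ≤ K * ((2 * b + 7) / c * Real.log T) := by
    have h1 := sum_rset_le T t0 ht0T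
    have h2 := hK t0 (by omega)
    have h3 : 0 < KT t0 := KT_pos t0
    have h4 : 0 < Real.log t0 := by rw [hlt0]; positivity
    calc _ ≤ K / KT t0 := h1
      _ ≤ K / (c / Real.log t0) := by
          apply div_le_div_of_nonneg_left hK0.le (by positivity) h2
      _ = _ := by rw [hlt0]; field_simp
  have hS : ∑ r ∈ rset T n, 1 / (r : ℝ) ≤ K * t + K * Real.log T * Q := by
    have hexp : K * t + K * Real.log T * Q = K * ((2 * b + 7) / c * Real.log T)
        + (K * t + K * (Real.log T * (2 * η * M) + Real.log T)) := by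
      rw [hQ]; ring
    have hposs : 0 ≤ K * t + K * (Real.log T * (2 * η * M) + Real.log T) := by positivity
    rcases le_or_gt t0 n with h1 | h1
    · have h2 : ∑ r ∈ rset T n, 1 / (r : ℝ) ≤ ∑ r ∈ rset T t0, 1 / (r : ℝ)
          + ∑ r ∈ (rset T n).filter (fun r => t0 < r), 1 / (r : ℝ) := by
        rw [← sum_filter_add_sum_filter_not (rset T n) (fun r => t0 < r), add_comm]
        gcongr
        intro r hr
        have h3 := mem_filter.mp hr
        have h4 := mem_rset.mp h3.1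
        rw [mem_rset]
        exact ⟨⟨h4.1.1, not_lt.mp h3.2⟩, h4.2⟩
      have h3 := sum_rough_Ioc_le T t0 n (K * (1 + 2 * η)) ht01 h1 (by positivity)
        (fun m hm => by
          have h4 := hT0 T hTT0 m hm
          rw [abs_le] at h4
          have := h4.2
          rw [← hKdef] at this
          linarith)
      have h4 : K * (1 + 2 * η) * (1 + (Real.log n - Real.log t0))
          ≤ K * t + K * (Real.log T * (2 * η * M) + Real.log T) := by
        have h5 : 0 ≤ Real.log t0 := by rw [hlt0]; positivity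
        have h6 : (1 + 2 * η) * (1 + (Real.log n - Real.log t0))
            ≤ t + (Real.log T * (2 * η * M) + Real.log T) := by
          calc (1 + 2 * η) * (1 + (Real.log n - Real.log t0)) ≤ (1 + 2 * η) * (1 + t) := by
                gcongr; linarith
            _ = t + (2 * η * t) + (1 + 2 * η) := by ring
            _ ≤ t + (2 * η * (M * Real.log T)) + Real.log T := by gcongr
            _ = _ := by ring
        calc _ = K * ((1 + 2 * η) * (1 + (Real.log n - Real.log t0))) := by ring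
          _ ≤ K * (t + (Real.log T * (2 * η * M) + Real.log T)) := by gcongr
          _ = _ := by ring
      linarith
    · have h2 := sum_rset_mono T h1.le
      linarith
  have hMlog : K * t ≤ K * (M * Real.log T) := mul_le_mul_of_nonneg_left htM hK0.le
  have hx : 2 * (M / (T : ℝ)) * (M + Q) ≤ 1 := by
    rw [show 2 * (M / (T : ℝ)) * (M + Q) = (2 * M * (M + Q)) / T by ring, div_le_one hT0']
    exact hTQ
  have hx1 : 1 / (T : ℝ) * M ≤ 1 := by
    rw [one_div_mul_eq_div, div_le_one hT0']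
    have : (2 * M : ℝ) ≤ T := by exact_mod_cast hT2M
    have h0 : (0 : ℝ) ≤ M := by positivity
    linarith
  have hfin : K * Real.log T * (Q + 1)
      ≤ K * Real.log T * (3 * η * M + (2 + 7 / c) * (b + 1)) := by
    apply mul_le_mul_of_nonneg_left _ (by positivity)
    rw [hQ]
    have h1 : 0 ≤ η * M := by positivity
    have h2 : (2 * (b : ℝ) + 7) / c ≤ 7 / c * (b + 1) := by
      rw [div_mul_eq_mul_div]
      apply div_le_div_of_nonneg_right _ hc.le
      have : (0 : ℝ) ≤ b := by positivity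
      linarith
    have h3 : (0 : ℝ) ≤ b := by positivity
    nlinarith
  rw [abs_le]
  constructor
  · have h1 : (1 - 1 / (T : ℝ)) * (K * t) ≥ K * t - K * Real.log T := by
      have h2 : 1 / (T : ℝ) * (K * t) ≤ K * Real.log T := by
        calc 1 / (T : ℝ) * (K * t) ≤ 1 / (T : ℝ) * (K * (M * Real.log T)) := by gcongr
          _ = (1 / (T : ℝ) * M) * (K * Real.log T) := by ring
          _ ≤ 1 * (K * Real.log T) := by gcongr
          _ = _ := one_mul _
      linarith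
    have h2 : K * Real.log T ≤ K * Real.log T * (Q + 1) := by
      nlinarith [mul_pos hK0 hlT]
    linarith
  · have h1 : (1 + 2 * (M / (T : ℝ))) * (K * t + K * Real.log T * Q)
        ≤ K * t + K * Real.log T * (Q + 1) := by
      have h2 : 2 * (M / (T : ℝ)) * (K * t + K * Real.log T * Q) ≤ K * Real.log T := by
        calc _ ≤ 2 * (M / (T : ℝ)) * (K * (M * Real.log T) + K * Real.log T * Q) := by
              gcongr
          _ = (2 * (M / (T : ℝ)) * (M + Q)) * (K * Real.log T) := by ring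
          _ ≤ 1 * (K * Real.log T) := by gcongr
          _ = _ := one_mul _
      linarith
    have h3 : (1 + 2 * (M / (T : ℝ))) * ∑ r ∈ rset T n, 1 / (r : ℝ)
        ≤ (1 + 2 * (M / (T : ℝ))) * (K * t + K * Real.log T * Q) := by gcongr
    linarith

open Filter Topology in
lemma exists_flEta_mul (L0 : ℝ) (hL0 : 1 ≤ L0) (δ : ℝ) (hδ : 0 < δ) :
    ∃ b0 : ℕ, ∀ b : ℕ, b0 ≤ b → flEta L0 b * (1 + Real.log b) ≤ δ := by
  have h1 := FloorSemiring.tendsto_pow_div_factorial_atTop (2 * L0)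
  have h2 := h1.eventually (gt_mem_nhds hδ)
  obtain ⟨b0, hb0⟩ := eventually_atTop.mp h2
  refine ⟨b0 + 1, ?_⟩
  intro b hb
  have h3 := hb0 b (by omega)
  have hb1 : (0 : ℝ) < b := by exact_mod_cast (by omega : 0 < b)
  have h4 : 1 + Real.log b ≤ 2 ^ b := by
    have h5 := Real.log_le_sub_one_of_pos hb1
    have h6 : (b : ℝ) ≤ 2 ^ b := by exact_mod_cast (Nat.lt_two_pow_self).le
    linarith
  have h7 : 0 ≤ flEta L0 b := by unfold flEta; positivity
  calc flEta L0 b * (1 + Real.log b) ≤ flEta L0 b * 2 ^ b := by gcongr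
    _ = (2 * L0) ^ b / b.factorial := by unfold flEta; rw [mul_pow]; ring
    _ ≤ δ := h3.le

open Filter Topology in
lemma exists_small_log (δ : ℝ) (hδ : 0 < δ) :
    ∃ b0 : ℕ, ∀ b : ℕ, b0 ≤ b → ((b : ℝ) + 1) * (1 + Real.log b) ≤ δ * (b : ℝ) ^ 2 := by
  refine ⟨⌈(6 / δ) ^ 2⌉₊ + 1, ?_⟩
  intro b hb
  have hb1 : (1 : ℝ) ≤ b := by exact_mod_cast (by omega : 1 ≤ b)
  have hb0 : (0 : ℝ) < b := by linarith
  have hb2 : (6 / δ) ^ 2 ≤ b := (Nat.le_ceil _).trans (by exact_mod_cast (by omega))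
  have hs0 : 0 < Real.sqrt b := Real.sqrt_pos.mpr hb0
  have hs1 : 1 ≤ Real.sqrt b := by
    rw [show (1 : ℝ) = Real.sqrt 1 by simp]; exact Real.sqrt_le_sqrt hb1
  have hss : Real.sqrt b * Real.sqrt b = b := Real.mul_self_sqrt hb0.le
  have hs2 : 6 / δ ≤ Real.sqrt b := by
    rw [← Real.sqrt_sq (by positivity : 0 ≤ 6 / δ)]
    exact Real.sqrt_le_sqrt hb2
  have hlog : Real.log b ≤ 2 * Real.sqrt b := by
    have h1 := Real.log_le_sub_one_of_pos hs0
    have h2 : Real.log b = 2 * Real.log (Real.sqrt b) := by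
      rw [Real.log_sqrt hb0.le]; ring
    linarith
  rw [div_le_iff₀ hδ] at hs2
  have h3 : 1 + Real.log b ≤ 3 * Real.sqrt b := by linarith
  have h4 : 0 ≤ 1 + Real.log b := by
    have := Real.log_nonneg hb1
    linarith
  calc ((b : ℝ) + 1) * (1 + Real.log b) ≤ (2 * b) * (3 * Real.sqrt b) := by
        gcongr; linarith
    _ = 6 * (b * Real.sqrt b) := by ring
    _ ≤ (Real.sqrt b * δ) * (b * Real.sqrt b) := by gcongr
    _ = δ * (b * (Real.sqrt b * Real.sqrt b)) := by ring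
    _ = δ * (b : ℝ) ^ 2 := by rw [hss]; ring

/-- the asymptotic formula for `HH` with a small relative error -/
theorem exists_HH_asymp (A : ℕ) (δ : ℝ) (hδ : 0 < δ) : ∃ b0 : ℕ, ∀ b : ℕ, b0 ≤ b →
    ∃ T0 : ℕ, 2 ≤ T0 ∧ ∀ T : ℕ, T0 ≤ T → ∀ t : ℝ, 0 ≤ t → t ≤ A * (b : ℝ) ^ 2 * Real.log T →
    |HH T ⌊Real.exp t⌋₊ - KT T * t| * (1 + Real.log b)
      ≤ δ * (KT T * ((b : ℝ) ^ 2 * Real.log T)) := by
  obtain ⟨L0, hL01, C1, hC1, b0, h⟩ := exists_HH_raw
  obtain ⟨b1, hb1⟩ := exists_flEta_mul L0 hL01 (δ / (6 * (A + 1))) (by positivity)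
  obtain ⟨b2, hb2⟩ := exists_small_log (δ / (2 * (C1 + 1))) (by positivity)
  refine ⟨max 1 (max b0 (max b1 b2)), ?_⟩
  intro b hb
  have hbone : 1 ≤ b := (le_max_left _ _).trans hb
  have hb' := (le_max_right _ _).trans hb
  have hbb0 : b0 ≤ b := (le_max_left _ _).trans hb'
  have hb'' := (le_max_right _ _).trans hb'
  have hbb1 : b1 ≤ b := (le_max_left _ _).trans hb''
  have hbb2 : b2 ≤ b := (le_max_right _ _).trans hb''
  obtain ⟨T0, hT02, hT0⟩ := h b hbb0 (A * b ^ 2)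
  refine ⟨T0, hT02, ?_⟩
  intro T hT t ht0 htM
  have hT2 : 2 ≤ T := hT02.trans hT
  have hlT : 0 < Real.log T := Real.log_pos (by exact_mod_cast hT2)
  have hK0 := KT_pos T
  have h1 := hT0 T hT t ht0 (by push_cast; exact htM)
  have h2 := hb1 b hbb1
  have h3 := hb2 b hbb2
  have hb1' : (1 : ℝ) ≤ b := by exact_mod_cast hbone
  have h4 : 0 ≤ 1 + Real.log b := by
    have := Real.log_nonneg hb1'
    linarith
  set η := flEta L0 b
  push_cast at h1
  have h5 : (3 * η * (A * (b : ℝ) ^ 2) + C1 * (b + 1)) * (1 + Real.log b) ≤ δ * (b : ℝ) ^ 2 := by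
    have e1 : 3 * η * (A * (b : ℝ) ^ 2) * (1 + Real.log b) ≤ δ / 2 * (b : ℝ) ^ 2 := by
      calc 3 * η * (A * (b : ℝ) ^ 2) * (1 + Real.log b)
          = (3 * A * (b : ℝ) ^ 2) * (η * (1 + Real.log b)) := by ring
        _ ≤ (3 * A * (b : ℝ) ^ 2) * (δ / (6 * (A + 1))) := by gcongr
        _ = δ / 2 * (b : ℝ) ^ 2 * (A / (A + 1)) := by field_simp; ring
        _ ≤ δ / 2 * (b : ℝ) ^ 2 * 1 := by
            apply mul_le_mul_of_nonneg_left _ (by positivity)
            rw [div_le_one (by positivity)]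
            linarith
        _ = _ := mul_one _
    have e2 : C1 * (b + 1) * (1 + Real.log b) ≤ δ / 2 * (b : ℝ) ^ 2 := by
      calc C1 * (b + 1) * (1 + Real.log b) = C1 * (((b : ℝ) + 1) * (1 + Real.log b)) := by ring
        _ ≤ C1 * (δ / (2 * (C1 + 1)) * (b : ℝ) ^ 2) := by gcongr
        _ = δ / 2 * (b : ℝ) ^ 2 * (C1 / (C1 + 1)) := by field_simp
        _ ≤ δ / 2 * (b : ℝ) ^ 2 * 1 := by
            apply mul_le_mul_of_nonneg_left _ (by positivity)
            rw [div_le_one (by positivity)]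
            linarith
        _ = _ := mul_one _
    linarith
  calc |HH T ⌊Real.exp t⌋₊ - KT T * t| * (1 + Real.log b)
      ≤ KT T * Real.log T * (3 * η * (A * (b : ℝ) ^ 2) + C1 * (b + 1)) * (1 + Real.log b) := by
        gcongr
    _ = KT T * Real.log T *
        ((3 * η * (A * (b : ℝ) ^ 2) + C1 * (b + 1)) * (1 + Real.log b)) := by ring
    _ ≤ KT T * Real.log T * (δ * (b : ℝ) ^ 2) := by gcongr
    _ = _ := by ring

end Pool.Agent.Lib.MP_bae66e_nt.AP3
end

section

/-!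
# Selberg weights and diagonalisation
-/

set_option autoImplicit false

namespace Pool.Agent.Lib.MP_bae66e_nt.AP3

open Finset Nat ArithmeticFunction

open scoped ArithmeticFunction.Moebius

/-- a finite set of squarefree positive integers closed under divisors -/
def DivClosed (S : Finset ℕ) : Prop :=
  ∀ r ∈ S, Squarefree r ∧ ∀ d : ℕ, d ∣ r → d ∈ S

lemma DivClosed.pos {S : Finset ℕ} (h : DivClosed S) {r : ℕ} (hr : r ∈ S) : 0 < r :=
  Nat.pos_of_ne_zero (h r hr).1.ne_zero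

lemma divClosed_dset (T t : ℕ) : DivClosed (dset T t) := by
  intro r hr
  have hr' := mem_dset.mp hr
  refine ⟨hr'.2, fun d hd => ?_⟩
  have hd0 : 0 < d := Nat.pos_of_dvd_of_pos hd hr'.1.1.1
  exact mem_dset.mpr ⟨⟨⟨hd0, (Nat.le_of_dvd hr'.1.1.1 hd).trans hr'.1.1.2⟩, hr'.1.2.dvd hd⟩,
    hr'.2.squarefree_of_dvd hd⟩

/-- the Selberg weights attached to `y` -/
noncomputable def lam (S : Finset ℕ) (y : ℕ → ℝ) (d : ℕ) : ℝ :=
  (μ d : ℝ) * d * ∑ r ∈ S.filter (fun r => d ∣ r), y r / φ r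

lemma sum_moebius_between (r r' : ℕ) (hr' : Squarefree r') :
    ∑ d ∈ r'.divisors.filter (fun d => r ∣ d), (μ d : ℝ) = if r = r' then (μ r : ℝ) else 0 := by
  have hr0 : r' ≠ 0 := hr'.ne_zero
  by_cases hd : r ∣ r'
  · obtain ⟨s, rfl⟩ := hd
    have hr1 : r ≠ 0 := by rintro rfl; simp at hr0
    have hs0 : s ≠ 0 := by rintro rfl; simp at hr0
    have himg : (r * s).divisors.filter (fun d => r ∣ d) = s.divisors.image (fun e => r * e) := by
      ext d
      simp only [mem_filter, Nat.mem_divisors, mem_image]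
      constructor
      · rintro ⟨⟨h1, _⟩, ⟨e, rfl⟩⟩
        exact ⟨e, ⟨Nat.dvd_of_mul_dvd_mul_left (Nat.pos_of_ne_zero hr1) h1, hs0⟩, rfl⟩
      · rintro ⟨e, ⟨he, _⟩, rfl⟩
        exact ⟨⟨Nat.mul_dvd_mul_left r he, hr0⟩, Dvd.intro _ rfl⟩
    rw [himg, sum_image (fun a _ b _ h => Nat.eq_of_mul_eq_mul_left (Nat.pos_of_ne_zero hr1) h)]
    have hmul : ∀ e ∈ s.divisors, (μ (r * e) : ℝ) = μ r * μ e := by
      intro e he
      have he' := Nat.dvd_of_mem_divisors he
      have hcop : Nat.Coprime r e := by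
        have h1 : Nat.Coprime r s := (Nat.squarefree_mul_iff.mp hr').1
        exact Nat.Coprime.coprime_dvd_right he' h1
      rw [isMultiplicative_moebius.map_mul_of_coprime hcop]
      push_cast; ring
    rw [sum_congr rfl hmul, ← mul_sum]
    have h1 : ∑ e ∈ s.divisors, (μ e : ℝ) = if s = 1 then 1 else 0 := by
      have h2 : ((moebius : ArithmeticFunction ℝ) * zeta) s = (1 : ArithmeticFunction ℝ) s := by
        rw [coe_moebius_mul_coe_zeta]
      rw [coe_mul_zeta_apply, one_apply] at h2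
      simpa [intCoe_apply] using h2
    rw [h1]
    by_cases hs1 : s = 1
    · simp [hs1]
    · rw [if_neg hs1, if_neg, mul_zero]
      intro h
      apply hs1
      have : r * 1 = r * s := by rw [mul_one]; exact h
      exact (Nat.eq_of_mul_eq_mul_left (Nat.pos_of_ne_zero hr1) this).symm
  · rw [if_neg (by rintro rfl; exact hd dvd_rfl)]
    apply sum_eq_zero
    intro d hd'
    have h1 := mem_filter.mp hd'
    exact absurd (h1.2.trans (Nat.dvd_of_mem_divisors h1.1)) hd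

/-- the inversion formula -/
lemma sum_lam_div (S : Finset ℕ) (hS : DivClosed S) (y : ℕ → ℝ) (r : ℕ) :
    ∑ d ∈ S.filter (fun d => r ∣ d), lam S y d / d
      = if r ∈ S then (μ r : ℝ) * y r / φ r else 0 := by
  have h1 : ∀ d ∈ S.filter (fun d => r ∣ d), lam S y d / d
      = ∑ r' ∈ S, if d ∣ r' then (μ d : ℝ) * (y r' / φ r') else 0 := by
    intro d hd
    have hd0 : (d : ℝ) ≠ 0 := by
      have := hS.pos (mem_filter.mp hd).1
      positivity
    unfold lam
    have e1 : (μ d : ℝ) * d * (∑ r ∈ S.filter (fun r => d ∣ r), y r / φ r) / d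
        = (μ d : ℝ) * ∑ r ∈ S.filter (fun r => d ∣ r), y r / φ r := by
      field_simp
    rw [e1, sum_filter, mul_sum]
    apply sum_congr rfl
    intro r' _
    split_ifs <;> simp
  rw [sum_congr rfl h1, sum_comm]
  have h2 : ∀ r' ∈ S, ∑ d ∈ S.filter (fun d => r ∣ d),
      (if d ∣ r' then (μ d : ℝ) * (y r' / φ r') else 0)
      = if r = r' then (μ r : ℝ) * (y r' / φ r') else 0 := by
    intro r' hr'
    have h3 := sum_moebius_between r r' (hS r' hr').1
    have h4 : (S.filter (fun d => r ∣ d)).filter (fun d => d ∣ r')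
        = r'.divisors.filter (fun d => r ∣ d) := by
      ext d
      simp only [mem_filter, Nat.mem_divisors]
      constructor
      · rintro ⟨⟨_, h5⟩, h6⟩
        exact ⟨⟨h6, (hS r' hr').1.ne_zero⟩, h5⟩
      · rintro ⟨⟨h5, _⟩, h6⟩
        exact ⟨⟨(hS r' hr').2 d h5, h6⟩, h5⟩
    rw [← sum_filter, h4, ← sum_mul, h3]
    split_ifs <;> simp
  rw [sum_congr rfl h2, sum_ite_eq]
  split_ifs
  · ring
  · rfl

lemma lam_eq_zero_of_notMem (S : Finset ℕ) (hS : DivClosed S) (y : ℕ → ℝ) (d : ℕ) (hd : d ∉ S) :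
    lam S y d = 0 := by
  unfold lam
  rw [filter_eq_empty_iff.mpr, sum_empty, mul_zero]
  intro r hr hdr
  exact hd ((hS r hr).2 d hdr)

lemma lam_one (S : Finset ℕ) (y : ℕ → ℝ) : lam S y 1 = ∑ r ∈ S, y r / φ r := by
  unfold lam
  simp

/-- general diagonalisation -/
lemma sum_sum_gcd (S : Finset ℕ) (hS : DivClosed S) (g : ℕ → ℝ) (P : ℕ → Prop)
    [DecidablePred P] :
    ∑ d₁ ∈ S, ∑ d₂ ∈ S, g d₁ * g d₂ *
      ∑ r ∈ (Nat.gcd d₁ d₂).divisors.filter P, (φ r : ℝ)
    = ∑ r ∈ S.filter P, (φ r : ℝ) * (∑ d ∈ S.filter (fun d => r ∣ d), g d) ^ 2 := by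
  have h1 : ∀ d₁ ∈ S, ∀ d₂ ∈ S, g d₁ * g d₂ *
      ∑ r ∈ (Nat.gcd d₁ d₂).divisors.filter P, (φ r : ℝ)
      = ∑ r ∈ S.filter P, if r ∣ d₁ ∧ r ∣ d₂ then (φ r : ℝ) * (g d₁ * g d₂) else 0 := by
    intro d₁ hd₁ d₂ hd₂
    have hg : Nat.gcd d₁ d₂ ≠ 0 := by
      have := hS.pos hd₁
      exact (Nat.gcd_pos_of_pos_left _ this).ne'
    have h2 : (Nat.gcd d₁ d₂).divisors.filter P
        = (S.filter P).filter (fun r => r ∣ d₁ ∧ r ∣ d₂) := by
      ext r
      simp only [mem_filter, Nat.mem_divisors, Nat.dvd_gcd_iff]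
      constructor
      · rintro ⟨⟨⟨h3, h4⟩, _⟩, h5⟩
        exact ⟨⟨(hS d₁ hd₁).2 r h3, h5⟩, h3, h4⟩
      · rintro ⟨⟨_, h5⟩, h3, h4⟩
        exact ⟨⟨⟨h3, h4⟩, hg⟩, h5⟩
    rw [h2, mul_sum, sum_filter]
    apply sum_congr rfl
    intro r _
    split_ifs <;> ring
  rw [sum_congr rfl (fun d₁ hd₁ => sum_congr rfl (fun d₂ hd₂ => h1 d₁ hd₁ d₂ hd₂))]
  rw [sum_congr rfl (fun d₁ _ => sum_comm), sum_comm]
  apply sum_congr rfl
  intro r _
  rw [pow_two, sum_mul_sum, sum_filter, mul_sum]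
  apply sum_congr rfl
  intro d₁ _
  by_cases h : r ∣ d₁
  · simp only [h, true_and, if_true]
    rw [← sum_filter, mul_sum]
  · simp [h]

lemma inv_lcm (a b : ℕ) (ha : 0 < a) (hb : 0 < b) :
    1 / (Nat.lcm a b : ℝ) = 1 / a * (1 / b) * ∑ r ∈ (Nat.gcd a b).divisors, (φ r : ℝ) := by
  have h1 : ∑ r ∈ (Nat.gcd a b).divisors, (φ r : ℝ) = (Nat.gcd a b : ℝ) := by
    exact_mod_cast Nat.sum_totient (Nat.gcd a b)
  rw [h1]
  have h2 : (Nat.gcd a b : ℝ) * (Nat.lcm a b : ℝ) = a * b := by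
    exact_mod_cast Nat.gcd_mul_lcm a b
  have ha' : (a : ℝ) ≠ 0 := by positivity
  have hb' : (b : ℝ) ≠ 0 := by positivity
  have hl : (Nat.lcm a b : ℝ) ≠ 0 := by
    have := Nat.lcm_pos ha hb
    positivity
  field_simp
  linarith

/-- remove a prime -/
def flat (p d : ℕ) : ℕ := if p ∣ d then d / p else d

lemma flat_pos {p d : ℕ} (hp : p.Prime) (hd : 0 < d) : 0 < flat p d := by
  unfold flat
  split_ifs with h
  · exact Nat.div_pos (Nat.le_of_dvd hd h) hp.pos
  · exact hd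

lemma flat_coprime {p d : ℕ} (hp : p.Prime) (hd : Squarefree d) : ¬ p ∣ flat p d := by
  unfold flat
  split_ifs with h
  · intro h2
    have h3 : p * p ∣ d := by
      obtain ⟨e, he⟩ := h2
      rw [← Nat.mul_div_cancel' h, he]
      exact ⟨e, by ring⟩
    have := hd p h3
    exact hp.one_lt.ne' (Nat.isUnit_iff.mp this)
  · exact h

lemma flat_dvd_iff {p d r : ℕ} (hp : p.Prime) (hd : Squarefree d) :
    r ∣ flat p d ↔ r ∣ d ∧ ¬ p ∣ r := by
  constructor
  · intro h
    refine ⟨h.trans ?_, fun h2 => flat_coprime hp hd (h2.trans h)⟩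
    unfold flat
    split_ifs with h3
    · exact Nat.div_dvd_of_dvd h3
    · exact dvd_rfl
  · rintro ⟨h1, h2⟩
    unfold flat
    split_ifs with h3
    · have h4 : r ∣ p * (d / p) := by rw [Nat.mul_div_cancel' h3]; exact h1
      exact (Nat.Coprime.dvd_of_dvd_mul_left
        ((Nat.Prime.coprime_iff_not_dvd hp).mpr h2).symm h4)
    · exact h1

lemma lcm_flat {p d₁ d₂ : ℕ} (hp : p.Prime) (hd₁ : Squarefree d₁) (hd₂ : Squarefree d₂) :
    Nat.lcm (Nat.lcm d₁ d₂) p = p * Nat.lcm (flat p d₁) (flat p d₂) := by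
  have key : ∀ d : ℕ, Squarefree d → ∀ n : ℕ, p ∣ n → (d ∣ n ↔ flat p d ∣ n) := by
    intro d hd n hpn
    unfold flat
    split_ifs with h
    · constructor
      · intro h2; exact (Nat.div_dvd_of_dvd h).trans h2
      · intro h2
        have h3 : Nat.Coprime p (d / p) := by
          rw [Nat.Prime.coprime_iff_not_dvd hp]
          have := flat_coprime hp hd
          unfold flat at this
          rwa [if_pos h] at this
        rw [← Nat.mul_div_cancel' h]
        exact Nat.Coprime.mul_dvd_of_dvd_of_dvd h3 hpn h2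
    · rfl
  have hcop : Nat.Coprime p (Nat.lcm (flat p d₁) (flat p d₂)) := by
    apply Nat.Coprime.symm
    apply Nat.Coprime.coprime_dvd_left (Nat.lcm_dvd_mul _ _)
    apply Nat.Coprime.mul_left
    · exact ((Nat.Prime.coprime_iff_not_dvd hp).mpr (flat_coprime hp hd₁)).symm
    · exact ((Nat.Prime.coprime_iff_not_dvd hp).mpr (flat_coprime hp hd₂)).symm
  apply Nat.dvd_antisymm
  · apply Nat.lcm_dvd
    · apply Nat.lcm_dvd
      · rw [key d₁ hd₁ _ (Dvd.intro _ rfl)]
        exact (Nat.dvd_lcm_left _ _).trans (Dvd.intro_left _ rfl)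
      · rw [key d₂ hd₂ _ (Dvd.intro _ rfl)]
        exact (Nat.dvd_lcm_right _ _).trans (Dvd.intro_left _ rfl)
    · exact Dvd.intro _ rfl
  · apply Nat.Coprime.mul_dvd_of_dvd_of_dvd hcop (Nat.dvd_lcm_right _ _)
    have h0 : p ∣ Nat.lcm (Nat.lcm d₁ d₂) p := Nat.dvd_lcm_right _ _
    apply Nat.lcm_dvd
    · rw [← key d₁ hd₁ _ h0]
      exact (Nat.dvd_lcm_left d₁ d₂).trans (Nat.dvd_lcm_left _ _)
    · rw [← key d₂ hd₂ _ h0]
      exact (Nat.dvd_lcm_right d₁ d₂).trans (Nat.dvd_lcm_left _ _)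

lemma inv_flat {p d : ℕ} (hp : p.Prime) (hd : 0 < d) :
    1 / (flat p d : ℝ) = (1 + (if p ∣ d then (p : ℝ) - 1 else 0)) * (1 / d) := by
  unfold flat
  split_ifs with h
  · obtain ⟨e, rfl⟩ := h
    have hp0 : (p : ℝ) ≠ 0 := by have := hp.pos; positivity
    have he : 0 < e := Nat.pos_of_mul_pos_left hd |> fun _ => by
      rcases Nat.eq_zero_or_pos e with h | h
      · simp [h] at hd
      · exact h
    have he0 : (e : ℝ) ≠ 0 := by positivity
    rw [Nat.mul_div_cancel_left e hp.pos]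
    push_cast
    field_simp
    ring
  · ring

/-- the quadratic form at a prime `p` -/
lemma quad_prime (S : Finset ℕ) (hS : DivClosed S) (y : ℕ → ℝ) (p : ℕ) (hp : p.Prime) :
    ∑ d₁ ∈ S, ∑ d₂ ∈ S, lam S y d₁ * lam S y d₂ * (1 / (Nat.lcm (Nat.lcm d₁ d₂) p : ℝ))
    = 1 / p * ∑ r ∈ S.filter (fun r => ¬ p ∣ r),
        (y r - (if p * r ∈ S then y (p * r) else 0)) ^ 2 / φ r := by
  have hp0 : (p : ℝ) ≠ 0 := by have := hp.pos; positivity
  set g : ℕ → ℝ := fun d => lam S y d * (1 / (flat p d : ℝ)) with hg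
  have h1 : ∀ d₁ ∈ S, ∀ d₂ ∈ S,
      lam S y d₁ * lam S y d₂ * (1 / (Nat.lcm (Nat.lcm d₁ d₂) p : ℝ))
      = 1 / p * (g d₁ * g d₂ *
        ∑ r ∈ (Nat.gcd d₁ d₂).divisors.filter (fun r => ¬ p ∣ r), (φ r : ℝ)) := by
    intro d₁ hd₁ d₂ hd₂
    have hs₁ := (hS d₁ hd₁).1
    have hs₂ := (hS d₂ hd₂).1
    have hf₁ := flat_pos hp (hS.pos hd₁)
    have hf₂ := flat_pos hp (hS.pos hd₂)
    have h2 : (Nat.gcd d₁ d₂).divisors.filter (fun r => ¬ p ∣ r)
        = (Nat.gcd (flat p d₁) (flat p d₂)).divisors := by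
      ext r
      simp only [mem_filter, Nat.mem_divisors, Nat.dvd_gcd_iff, flat_dvd_iff hp hs₁,
        flat_dvd_iff hp hs₂]
      have h3 : Nat.gcd d₁ d₂ ≠ 0 := (Nat.gcd_pos_of_pos_left _ (hS.pos hd₁)).ne'
      have h4 : Nat.gcd (flat p d₁) (flat p d₂) ≠ 0 := (Nat.gcd_pos_of_pos_left _ hf₁).ne'
      tauto
    rw [h2, lcm_flat hp hs₁ hs₂]
    push_cast
    have e0 : 1 / ((p : ℝ) * (Nat.lcm (flat p d₁) (flat p d₂) : ℝ))
        = 1 / p * (1 / (Nat.lcm (flat p d₁) (flat p d₂) : ℝ)) := by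
      rw [one_div_mul_one_div]
    rw [e0, inv_lcm _ _ hf₁ hf₂]
    simp only [hg]
    ring
  rw [sum_congr rfl (fun d₁ hd₁ => sum_congr rfl (fun d₂ hd₂ => h1 d₁ hd₁ d₂ hd₂))]
  simp_rw [← mul_sum]
  rw [sum_sum_gcd S hS g]
  congr 1
  apply sum_congr rfl
  intro r hr
  have hr' := mem_filter.mp hr
  have hrS := hr'.1
  have hpr := hr'.2
  have hφ : (0 : ℝ) < φ r := by exact_mod_cast Nat.totient_pos.mpr (hS.pos hrS)
  have h3 : ∑ d ∈ S.filter (fun d => r ∣ d), g d
      = ∑ d ∈ S.filter (fun d => r ∣ d), lam S y d / d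
        + ((p : ℝ) - 1) * ∑ d ∈ S.filter (fun d => p * r ∣ d), lam S y d / d := by
    have h4 : S.filter (fun d => p * r ∣ d)
        = (S.filter (fun d => r ∣ d)).filter (fun d => p ∣ d) := by
      ext d
      simp only [mem_filter]
      constructor
      · rintro ⟨h5, h6⟩
        exact ⟨⟨h5, (Dvd.intro_left _ rfl : r ∣ p * r).trans h6⟩,
          (Dvd.intro _ rfl : p ∣ p * r).trans h6⟩
      · rintro ⟨⟨h5, h6⟩, h7⟩
        exact ⟨h5, Nat.Coprime.mul_dvd_of_dvd_of_dvd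
          ((Nat.Prime.coprime_iff_not_dvd hp).mpr hpr) h7 h6⟩
    rw [h4, sum_filter (p := fun d => p ∣ d), mul_sum, ← sum_add_distrib]
    apply sum_congr rfl
    intro d hd
    simp only [hg]
    rw [inv_flat hp (hS.pos (mem_filter.mp hd).1)]
    split_ifs <;> ring
  rw [h3, sum_lam_div S hS, sum_lam_div S hS, if_pos hrS]
  have hmu : (μ r : ℝ) ^ 2 = 1 := by
    exact_mod_cast moebius_sq_eq_one_of_squarefree (hS r hrS).1
  have hcop : Nat.Coprime p r := (Nat.Prime.coprime_iff_not_dvd hp).mpr hpr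
  have hmupr : (μ (p * r) : ℝ) = - μ r := by
    rw [isMultiplicative_moebius.map_mul_of_coprime hcop, moebius_apply_prime hp]
    push_cast; ring
  have hφpr : (φ (p * r) : ℝ) = ((p : ℝ) - 1) * φ r := by
    rw [Nat.totient_mul hcop, Nat.totient_prime hp]
    push_cast [Nat.cast_sub hp.one_lt.le]
    ring
  have hp1 : (0 : ℝ) < (p : ℝ) - 1 := by
    have : (1 : ℝ) < p := by exact_mod_cast hp.one_lt
    linarith
  have h5 : (μ r : ℝ) * y r / φ r
      + ((p : ℝ) - 1) * (if p * r ∈ S then (μ (p * r) : ℝ) * y (p * r) / φ (p * r) else 0)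
      = μ r * (y r - (if p * r ∈ S then y (p * r) else 0)) / φ r := by
    split_ifs with h6
    · rw [hmupr, hφpr]
      field_simp
      ring
    · ring
  rw [h5, div_pow, mul_pow, hmu, one_mul]
  field_simp

/-- the quadratic form without a prime -/
lemma quad_one (S : Finset ℕ) (hS : DivClosed S) (y : ℕ → ℝ) :
    ∑ d₁ ∈ S, ∑ d₂ ∈ S, lam S y d₁ * lam S y d₂ * (1 / (Nat.lcm (Nat.lcm d₁ d₂) 1 : ℝ))
    = ∑ r ∈ S, y r ^ 2 / φ r := by
  set g : ℕ → ℝ := fun d => lam S y d / d with hg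
  have h1 : ∀ d₁ ∈ S, ∀ d₂ ∈ S,
      lam S y d₁ * lam S y d₂ * (1 / (Nat.lcm (Nat.lcm d₁ d₂) 1 : ℝ))
      = (g d₁ * g d₂ *
        ∑ r ∈ (Nat.gcd d₁ d₂).divisors.filter (fun _ => True), (φ r : ℝ)) := by
    intro d₁ hd₁ d₂ hd₂
    rw [filter_true, Nat.lcm_one_right, inv_lcm _ _ (hS.pos hd₁) (hS.pos hd₂)]
    simp only [hg]
    ring
  rw [sum_congr rfl (fun d₁ hd₁ => sum_congr rfl (fun d₂ hd₂ => h1 d₁ hd₁ d₂ hd₂))]
  rw [sum_sum_gcd S hS g, filter_true]
  apply sum_congr rfl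
  intro r hrS
  have hφ : (0 : ℝ) < φ r := by exact_mod_cast Nat.totient_pos.mpr (hS.pos hrS)
  have hmu : (μ r : ℝ) ^ 2 = 1 := by
    exact_mod_cast moebius_sq_eq_one_of_squarefree (hS r hrS).1
  simp only [hg]
  rw [sum_lam_div S hS, if_pos hrS, div_pow, mul_pow, hmu, one_mul]
  field_simp

end Pool.Agent.Lib.MP_bae66e_nt.AP3
end

section

/-!
# The weighted sieve function
-/

set_option autoImplicit false

namespace Pool.Agent.Lib.MP_bae66e_nt.AP3

open Finset Nat ArithmeticFunction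

open scoped ArithmeticFunction.Moebius

lemma card_primeFactors_le {T M n : ℕ} (hT : 1 ≤ T) (hn0 : 0 < n) (hn : n ≤ T ^ M)
    (hr : Rough T n) : #n.primeFactors ≤ M := by
  by_contra hlt
  push Not at hlt
  have h4 : (T + 1) ^ #n.primeFactors ≤ ∏ p ∈ n.primeFactors, p := by
    rw [← prod_const]
    apply prod_le_prod'
    intro p hp
    exact (hr p (Nat.prime_of_mem_primeFactors hp) (Nat.dvd_of_mem_primeFactors hp))
  have h5 : ∏ p ∈ n.primeFactors, p ≤ n := Nat.le_of_dvd hn0 (Nat.prod_primeFactors_dvd n)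
  have h7 : (T + 1) ^ (M + 1) ≤ (T + 1) ^ #n.primeFactors :=
    Nat.pow_le_pow_right (by omega) hlt
  have h8 : T ^ M < (T + 1) ^ (M + 1) := by
    calc T ^ M ≤ (T + 1) ^ M := Nat.pow_le_pow_left (by omega) _
      _ < (T + 1) ^ (M + 1) := Nat.pow_lt_pow_right (by omega) (by omega)
  omega

lemma card_sqfree_divisors_le (n : ℕ) :
    #(n.divisors.filter Squarefree) ≤ 2 ^ #n.primeFactors := by
  rw [← card_powerset]
  apply card_le_card_of_injOn (fun d => d.primeFactors)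
  · intro d hd
    have h1 := mem_filter.mp hd
    have h2 := Nat.mem_divisors.mp h1.1
    exact mem_powerset.mpr (Nat.primeFactors_mono h2.1 h2.2)
  · intro a ha b hb hab
    have h1 := mem_filter.mp ha
    have h2 := mem_filter.mp hb
    simp only at hab
    rw [← Nat.prod_primeFactors_of_squarefree h1.2, ← Nat.prod_primeFactors_of_squarefree h2.2,
      hab]

lemma card_divisors_le_of_squarefree {n : ℕ} (hn : Squarefree n) :
    #n.divisors ≤ 2 ^ #n.primeFactors := by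
  have h := card_sqfree_divisors_le n
  rwa [filter_true_of_mem (fun d hd => hn.squarefree_of_dvd (Nat.dvd_of_mem_divisors hd))] at h

lemma squarefree_lcm {a b : ℕ} (ha : Squarefree a) (hb : Squarefree b) :
    Squarefree (Nat.lcm a b) := by
  have ha0 := ha.ne_zero
  have hb0 := hb.ne_zero
  rw [Nat.squarefree_iff_factorization_le_one (Nat.lcm_ne_zero ha0 hb0)]
  intro p
  rw [Nat.factorization_lcm ha0 hb0]
  have h1 := (Nat.squarefree_iff_factorization_le_one ha0).mp ha p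
  have h2 := (Nat.squarefree_iff_factorization_le_one hb0).mp hb p
  exact sup_le h1 h2

lemma Rough.lcm {T a b : ℕ} (ha : Rough T a) (hb : Rough T b) : Rough T (Nat.lcm a b) :=
  (ha.mul hb).dvd (Nat.lcm_dvd_mul a b)

lemma rough_prime {T p : ℕ} (hp : p.Prime) (h : T < p) : Rough T p := by
  intro q hq hqp
  rwa [(Nat.prime_dvd_prime_iff_eq hq hp).mp hqp]

/-- level for the prime `q` -/
noncomputable def RR (Z q : ℕ) : ℕ := ⌊Real.exp ((3 * Real.log Z - Real.log q) / 2)⌋₊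

/-- the support of the weights attached to `p` -/
noncomputable def SS (T Z p : ℕ) : Finset ℕ := if p ≤ Z then dset T Z else dset T (RR Z p)

/-- the profile -/
noncomputable def Yf (Z : ℕ) (r : ℕ) : ℝ := 5 - 4 * (Real.log r / Real.log Z)

/-- normalisation -/
noncomputable def S1 (T Z : ℕ) : ℝ := ∑ r ∈ dset T Z, Yf Z r / φ r

/-- the `y` variables -/
noncomputable def yy (T Z p : ℕ) (r : ℕ) : ℝ :=
  if p ≤ Z then Yf Z r / S1 T Z else 1 / HH T (RR Z p)

/-- the outer coefficients -/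
noncomputable def aa (Z N p : ℕ) : ℝ :=
  if p = 1 then 1 else if p ≤ Z then -1 else -(1 - 3 * (Real.log p / Real.log N))

/-- the Selberg weights -/
noncomputable def ll (T Z p d : ℕ) : ℝ := lam (SS T Z p) (yy T Z p) d

/-- the outer index set -/
def P0 (T Y : ℕ) : Finset ℕ := insert 1 (prI T Y)

/-- the full index set -/
noncomputable def II (T Z Y : ℕ) : Finset (Σ _ : ℕ, ℕ × ℕ) :=
  (P0 T Y).sigma (fun p => SS T Z p ×ˢ SS T Z p)

/-- coefficient -/
noncomputable def cc (T Z N : ℕ) (i : Σ _ : ℕ, ℕ × ℕ) : ℝ :=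
  aa Z N i.1 * (ll T Z i.1 i.2.1 * ll T Z i.1 i.2.2)

/-- modulus -/
def DD (i : Σ _ : ℕ, ℕ × ℕ) : ℕ := Nat.lcm (Nat.lcm i.2.1 i.2.2) i.1

/-- collapsed coefficient -/
noncomputable def ww (T Z Y N D : ℕ) : ℝ := ∑ i ∈ (II T Z Y).filter (fun i => DD i = D), cc T Z N i

/-- inner divisor sum -/
noncomputable def AA (T Z p n : ℕ) : ℝ := ∑ d ∈ (SS T Z p).filter (fun d => d ∣ n), ll T Z p d

/-- the weighted sieve function -/
noncomputable def FF (T Z Y N n : ℕ) : ℝ :=
  ∑ p ∈ (P0 T Y).filter (fun p => p ∣ n), aa Z N p * AA T Z p n ^ 2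

lemma divClosed_SS (T Z p : ℕ) : DivClosed (SS T Z p) := by
  unfold SS
  split_ifs <;> exact divClosed_dset _ _

lemma HH_pos (T t : ℕ) (ht : 1 ≤ t) : 0 < HH T t := by
  unfold HH
  apply sum_pos'
  · intro _ _; positivity
  · refine ⟨1, mem_dset.mpr ⟨⟨⟨one_pos, ht⟩, rough_one T⟩, squarefree_one⟩, ?_⟩
    simp

lemma Yf_ge {Z r : ℕ} (hZ : 2 ≤ Z) (hr0 : 0 < r) (hr : r ≤ Z) : 1 ≤ Yf Z r := by
  unfold Yf
  have hl : 0 < Real.log Z := Real.log_pos (by exact_mod_cast hZ)
  have h1 : Real.log r ≤ Real.log Z :=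
    Real.log_le_log (by exact_mod_cast hr0) (by exact_mod_cast hr)
  have h2 : Real.log r / Real.log Z ≤ 1 := by rw [div_le_one hl]; exact h1
  linarith

lemma Yf_le {Z r : ℕ} (hr0 : 0 < r) : Yf Z r ≤ 5 := by
  unfold Yf
  have h1 : 0 ≤ Real.log r := Real.log_nonneg (by exact_mod_cast hr0)
  have h2 : 0 ≤ Real.log Z := Real.log_natCast_nonneg Z
  have h3 : 0 ≤ Real.log r / Real.log Z := by positivity
  linarith

lemma S1_ge (T Z : ℕ) (hZ : 2 ≤ Z) : HH T Z ≤ S1 T Z := by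
  unfold HH S1
  apply sum_le_sum
  intro r hr
  have hr' := mem_dset.mp hr
  apply div_le_div_of_nonneg_right (Yf_ge hZ hr'.1.1.1 hr'.1.1.2) (by positivity)

lemma S1_pos (T Z : ℕ) (hZ : 2 ≤ Z) : 0 < S1 T Z :=
  (HH_pos T Z (by omega)).trans_le (S1_ge T Z hZ)

/-- hypotheses on the parameters -/
structure Par (T Z Y N : ℕ) : Prop where
  hT : 2 ≤ T
  hTZ : T ≤ Z
  hZY : Z ≤ Y
  hYZ : Y ≤ Z ^ 3
  hN : N = Y ^ 3

lemma RR_le {T Z Y N : ℕ} (h : Par T Z Y N) {q : ℕ} (hq : Z < q) : RR Z q ≤ Z := by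
  have hZ0 : (0 : ℝ) < Z := by have := h.hT; have := h.hTZ; exact_mod_cast (by omega : 0 < Z)
  have h1 : Real.log Z ≤ Real.log q := Real.log_le_log hZ0 (by exact_mod_cast hq.le)
  have h2 : Real.exp ((3 * Real.log Z - Real.log q) / 2) ≤ Z := by
    calc Real.exp ((3 * Real.log Z - Real.log q) / 2) ≤ Real.exp (Real.log Z) := by
          apply Real.exp_le_exp.mpr; linarith
      _ = Z := Real.exp_log hZ0
  exact_mod_cast (Nat.floor_le (Real.exp_pos _).le).trans h2

lemma one_le_RR {T Z Y N : ℕ} (h : Par T Z Y N) {q : ℕ} (hq0 : 0 < q) (hq : q ≤ Y) :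
    1 ≤ RR Z q := by
  apply Nat.le_floor
  have hZ0 : (0 : ℝ) < Z := by have := h.hT; have := h.hTZ; exact_mod_cast (by omega : 0 < Z)
  have hq0' : (0 : ℝ) < q := by exact_mod_cast hq0
  have h1 : Real.log q ≤ 3 * Real.log Z := by
    have h2 : (q : ℝ) ≤ (Z : ℝ) ^ 3 := by exact_mod_cast hq.trans h.hYZ
    have h3 := Real.log_le_log hq0' h2
    rwa [Real.log_pow, Nat.cast_ofNat] at h3
  simp only [Nat.cast_one]
  apply Real.one_le_exp
  linarith

lemma RR_sq {T Z Y N : ℕ} (h : Par T Z Y N) {q : ℕ} (hq0 : 0 < q) :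
    RR Z q * RR Z q * q ≤ Z ^ 3 := by
  have hZ0 : (0 : ℝ) < Z := by have := h.hT; have := h.hTZ; exact_mod_cast (by omega : 0 < Z)
  have hq0' : (0 : ℝ) < q := by exact_mod_cast hq0
  have h1 : (RR Z q : ℝ) ≤ Real.exp ((3 * Real.log Z - Real.log q) / 2) :=
    Nat.floor_le (Real.exp_pos _).le
  have h2 : Real.exp ((3 * Real.log Z - Real.log q) / 2)
      * Real.exp ((3 * Real.log Z - Real.log q) / 2) * q = (Z : ℝ) ^ 3 := by
    rw [← Real.exp_add]
    have : (3 * Real.log Z - Real.log q) / 2 + (3 * Real.log Z - Real.log q) / 2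
        = Real.log ((Z : ℝ) ^ 3) - Real.log q := by
      rw [Real.log_pow]; push_cast; ring
    rw [this, Real.exp_sub, Real.exp_log (by positivity), Real.exp_log hq0',
      div_mul_cancel₀ _ hq0'.ne']
  have h3 : (RR Z q : ℝ) * RR Z q * q ≤ (Z : ℝ) ^ 3 := by
    rw [← h2]
    gcongr
  exact_mod_cast h3

lemma ll_one {T Z Y N : ℕ} (h : Par T Z Y N) {p : ℕ} (hp : p ≤ Y) (hp0 : 0 < p) :
    ll T Z p 1 = 1 := by
  have hZ2 : 2 ≤ Z := h.hT.trans h.hTZ
  unfold ll
  rw [lam_one]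
  unfold SS yy
  split_ifs with hpZ
  · have h1 := S1_pos T Z hZ2
    have : ∑ r ∈ dset T Z, Yf Z r / S1 T Z / φ r = (∑ r ∈ dset T Z, Yf Z r / φ r) / S1 T Z := by
      rw [sum_div]
      apply sum_congr rfl
      intro r _; ring
    rw [this]
    exact div_self h1.ne'
  · have h1 := HH_pos T (RR Z p) (one_le_RR h hp0 hp)
    have : ∑ r ∈ dset T (RR Z p), 1 / HH T (RR Z p) / φ r
        = (∑ r ∈ dset T (RR Z p), 1 / (φ r : ℝ)) / HH T (RR Z p) := by
      rw [sum_div]
      apply sum_congr rfl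
      intro r _; ring
    rw [this]
    exact div_self h1.ne'

lemma SS_subset {T Z Y N : ℕ} (h : Par T Z Y N) (p : ℕ) : SS T Z p ⊆ dset T Z := by
  unfold SS
  split_ifs with hpZ
  · exact subset_rfl
  · intro r hr
    have hr' := mem_dset.mp hr
    exact mem_dset.mpr ⟨⟨⟨hr'.1.1.1, hr'.1.1.2.trans (RR_le h (not_le.mp hpZ))⟩, hr'.1.2⟩, hr'.2⟩

lemma AA_rough {T Z Y N : ℕ} (h : Par T Z Y N) {p n : ℕ} (hp : p ≤ Y) (hp0 : 0 < p)
    (hn : Rough Z n) : AA T Z p n = 1 := by
  unfold AA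
  have h1 : (SS T Z p).filter (fun d => d ∣ n) = {1} := by
    ext d
    rw [mem_filter, mem_singleton]
    constructor
    · rintro ⟨h2, h3⟩
      have h4 := mem_dset.mp (SS_subset h p h2)
      by_contra hd1
      obtain ⟨ℓ, hℓ, hℓd⟩ := Nat.exists_prime_and_dvd hd1
      have h5 := hn ℓ hℓ (hℓd.trans h3)
      have h6 := (Nat.le_of_dvd h4.1.1.1 hℓd).trans h4.1.1.2
      omega
    · rintro rfl
      refine ⟨?_, one_dvd _⟩
      unfold SS
      split_ifs with hpZ
      · exact mem_dset.mpr ⟨⟨⟨one_pos, by have := h.hT; have := h.hTZ; omega⟩, rough_one T⟩,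
          squarefree_one⟩
      · exact mem_dset.mpr ⟨⟨⟨one_pos, one_le_RR h hp0 hp⟩, rough_one T⟩, squarefree_one⟩
  rw [h1, sum_singleton, ll_one h hp hp0]

lemma aa_nonpos {T Z Y N : ℕ} (h : Par T Z Y N) {p : ℕ} (hp : p ≤ Y) (hp1 : 1 < p) :
    aa Z N p ≤ 0 := by
  have hT := h.hT
  have hTZ := h.hTZ
  have hZY := h.hZY
  unfold aa
  rw [if_neg hp1.ne']
  split_ifs
  · norm_num
  · have hY0 : (0 : ℝ) < Y := by exact_mod_cast (by omega : 0 < Y)
    have hlY : 0 < Real.log Y := Real.log_pos (by exact_mod_cast (by omega : 1 < Y))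
    have hlN : Real.log N = 3 * Real.log Y := by
      rw [h.hN]; push_cast; rw [Real.log_pow]; push_cast; ring
    have h1 : Real.log p ≤ Real.log Y :=
      Real.log_le_log (by exact_mod_cast (by omega : 0 < p)) (by exact_mod_cast hp)
    have h2 : 3 * (Real.log p / Real.log N) ≤ 1 := by
      rw [hlN, ← mul_div_assoc, div_le_one (by positivity)]
      linarith
    linarith

/-- positivity of the weight forces an almost prime -/
theorem FF_pos_imp {T Z Y N : ℕ} (h : Par T Z Y N) {n : ℕ} (hn0 : 0 < n) (hnN : n ≤ N)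
    (hn : Rough T n) (hF : 0 < FF T Z Y N n) :
    Rough Z n ∧ (cardFactors n ≤ 3 ∨ ∃ q : ℕ, q.Prime ∧ Z < q ∧ q * q ∣ n) := by
  have hT := h.hT
  have hTZ := h.hTZ
  have hZY := h.hZY
  have h1mem : (1 : ℕ) ∉ prI T Y := fun h1 => (mem_prI.mp h1).2.one_lt.ne' rfl
  have hsplit : FF T Z Y N n = AA T Z 1 n ^ 2
      + ∑ p ∈ (prI T Y).filter (fun p => p ∣ n), aa Z N p * AA T Z p n ^ 2 := by
    unfold FF P0
    rw [filter_insert, if_pos (one_dvd n), sum_insert (by simp [h1mem])]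
    simp [aa]
  have hrough : Rough Z n := by
    by_contra hnot
    unfold Rough at hnot
    push Not at hnot
    obtain ⟨p, hp, hpn, hpZ⟩ := hnot
    have hTp := hn p hp hpn
    have hmem : p ∈ (prI T Y).filter (fun p => p ∣ n) :=
      mem_filter.mpr ⟨mem_prI.mpr ⟨⟨hTp, hpZ.trans hZY⟩, hp⟩, hpn⟩
    have h2 : ∑ p ∈ (prI T Y).filter (fun p => p ∣ n), aa Z N p * AA T Z p n ^ 2
        ≤ aa Z N p * AA T Z p n ^ 2 := by
      rw [← add_sum_erase _ _ hmem]
      have : ∑ x ∈ ((prI T Y).filter (fun p => p ∣ n)).erase p, aa Z N x * AA T Z x n ^ 2 ≤ 0 := by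
        apply sum_nonpos
        intro q hq
        have hq' := mem_prI.mp (mem_filter.mp (mem_of_mem_erase hq)).1
        exact mul_nonpos_of_nonpos_of_nonneg (aa_nonpos h hq'.1.2 hq'.2.one_lt) (sq_nonneg _)
      linarith
    have h3 : aa Z N p = -1 := by
      unfold aa
      rw [if_neg hp.one_lt.ne', if_pos hpZ]
    have h4 : AA T Z p n = AA T Z 1 n := by
      unfold AA ll
      have e1 : SS T Z p = SS T Z 1 := by
        unfold SS; rw [if_pos hpZ, if_pos (by omega)]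
      have e2 : yy T Z p = yy T Z 1 := by
        funext r
        unfold yy; rw [if_pos hpZ, if_pos (by omega)]
      rw [e1, e2]
    rw [h3, h4] at h2
    linarith
  refine ⟨hrough, ?_⟩
  by_contra hcon
  push Not at hcon
  obtain ⟨hΩ, hsq⟩ := hcon
  -- n is squarefree
  have hsqf : Squarefree n := by
    rw [Nat.squarefree_iff_prime_squarefree]
    intro q hq hqq
    exact hsq q hq (hrough q hq ((Dvd.intro _ rfl).trans hqq)) hqq
  have hcard : 4 ≤ #n.primeFactors := by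
    have h5 : cardDistinctFactors n = cardFactors n :=
      (cardDistinctFactors_eq_cardFactors_iff_squarefree hn0.ne').mpr hsqf
    have h6 : cardDistinctFactors n = #n.primeFactors := by
      rw [cardDistinctFactors_apply]
      rfl
    omega
  have hlY : 0 < Real.log Y := Real.log_pos (by exact_mod_cast (by omega : 1 < Y))
  have hlN : Real.log N = 3 * Real.log Y := by
    rw [h.hN]; push_cast; rw [Real.log_pow]; push_cast; ring
  have hlN0 : 0 < Real.log N := by rw [hlN]; positivity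
  -- the sum over prime factors
  have h5 : (1 : ℝ) ≤ ∑ p ∈ n.primeFactors, (1 - 3 * (Real.log p / Real.log N)) := by
    rw [sum_sub_distrib, sum_const, nsmul_eq_mul, mul_one, ← mul_sum, ← sum_div]
    have h6 : ∑ p ∈ n.primeFactors, Real.log p = Real.log n := by
      rw [← Real.log_prod (fun p hp => by
        have := (Nat.prime_of_mem_primeFactors hp).pos
        positivity)]
      rw [← Nat.cast_prod, Nat.prod_primeFactors_of_squarefree hsqf]
    rw [h6]
    have h7 : Real.log n ≤ Real.log N :=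
      Real.log_le_log (by exact_mod_cast hn0) (by exact_mod_cast hnN)
    have h8 : Real.log n / Real.log N ≤ 1 := by rw [div_le_one hlN0]; exact h7
    have h9 : (4 : ℝ) ≤ #n.primeFactors := by exact_mod_cast hcard
    linarith
  have h6 : ∑ p ∈ (prI T Y).filter (fun p => p ∣ n), aa Z N p * AA T Z p n ^ 2
      ≤ -∑ p ∈ n.primeFactors, (1 - 3 * (Real.log p / Real.log N)) := by
    have e1 : ∀ p ∈ (prI T Y).filter (fun p => p ∣ n), aa Z N p * AA T Z p n ^ 2
        = -(1 - 3 * (Real.log p / Real.log N)) := by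
      intro p hp
      have hp1 := mem_filter.mp hp
      have hp2 := mem_prI.mp hp1.1
      have hpZ := hrough p hp2.2 hp1.2
      rw [AA_rough h hp2.1.2 hp2.2.pos hrough]
      unfold aa
      rw [if_neg hp2.2.one_lt.ne', if_neg (by omega)]
      ring
    rw [sum_congr rfl e1, sum_neg_distrib, neg_le_neg_iff]
    have hsub : (prI T Y).filter (fun p => p ∣ n) ⊆ n.primeFactors := by
      intro p hp
      have hp1 := mem_filter.mp hp
      exact Nat.mem_primeFactors.mpr ⟨(mem_prI.mp hp1.1).2, hp1.2, hn0.ne'⟩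
    rw [← sum_sdiff hsub]
    have : ∑ p ∈ n.primeFactors \ (prI T Y).filter (fun p => p ∣ n),
        (1 - 3 * (Real.log p / Real.log N)) ≤ 0 := by
      apply sum_nonpos
      intro p hp
      rw [mem_sdiff] at hp
      have hp1 := Nat.mem_primeFactors.mp hp.1
      have hpY : Y < p := by
        by_contra hle
        apply hp.2
        exact mem_filter.mpr ⟨mem_prI.mpr ⟨⟨hn p hp1.1 hp1.2.1, not_lt.mp hle⟩, hp1.1⟩, hp1.2.1⟩
      have h7 : Real.log Y ≤ Real.log p :=
        Real.log_le_log (by exact_mod_cast (by omega : 0 < Y)) (by exact_mod_cast hpY.le)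
      have h8 : 1 ≤ 3 * (Real.log p / Real.log N) := by
        rw [hlN, ← mul_div_assoc, le_div_iff₀ (by positivity)]
        linarith
      linarith
    linarith
  rw [hsplit, AA_rough h (by omega) one_pos hrough] at hF
  linarith

end Pool.Agent.Lib.MP_bae66e_nt.AP3
end

section

/-!
# Expansion of the weighted sieve function
-/

set_option autoImplicit false

namespace Pool.Agent.Lib.MP_bae66e_nt.AP3

open Finset Nat ArithmeticFunction

open scoped ArithmeticFunction.Moebius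

lemma DD_mem {T Z Y N L : ℕ} (h : Par T Z Y N) (hL : Z ^ 3 ≤ T ^ L) {i : Σ _ : ℕ, ℕ × ℕ}
    (hi : i ∈ II T Z Y) : DD i ∈ dset T (T ^ L) := by
  obtain ⟨p, d₁, d₂⟩ := i
  simp only [II, mem_sigma, mem_product] at hi
  obtain ⟨hp, hd₁, hd₂⟩ := hi
  have h1 := divClosed_SS T Z p d₁ hd₁
  have h2 := divClosed_SS T Z p d₂ hd₂
  have hd₁' := mem_dset.mp (SS_subset h p hd₁)
  have hd₂' := mem_dset.mp (SS_subset h p hd₂)
  have hp' : Squarefree p ∧ Rough T p ∧ 0 < p := by
    unfold P0 at hp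
    rw [mem_insert] at hp
    rcases hp with rfl | hp
    · exact ⟨squarefree_one, rough_one T, one_pos⟩
    · have := mem_prI.mp hp
      exact ⟨this.2.squarefree, rough_prime this.2 this.1.1, this.2.pos⟩
  unfold DD
  simp only
  refine mem_dset.mpr ⟨⟨⟨Nat.lcm_pos (Nat.lcm_pos hd₁'.1.1.1 hd₂'.1.1.1) hp'.2.2, ?_⟩,
    (hd₁'.1.2.lcm hd₂'.1.2).lcm hp'.2.1⟩, squarefree_lcm (squarefree_lcm h1.1 h2.1) hp'.1⟩
  refine le_trans ?_ hL
  have h3 : Nat.lcm (Nat.lcm d₁ d₂) p ≤ d₁ * d₂ * p := by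
    apply Nat.le_of_dvd (Nat.mul_pos (Nat.mul_pos hd₁'.1.1.1 hd₂'.1.1.1) hp'.2.2)
    exact (Nat.lcm_dvd_mul _ _).trans (Nat.mul_dvd_mul_right (Nat.lcm_dvd_mul _ _) p)
  refine h3.trans ?_
  by_cases hpZ : p ≤ Z
  · calc d₁ * d₂ * p ≤ Z * Z * Z := Nat.mul_le_mul (Nat.mul_le_mul hd₁'.1.1.2 hd₂'.1.1.2) hpZ
      _ = Z ^ 3 := by ring
  · have e : SS T Z p = dset T (RR Z p) := by unfold SS; rw [if_neg hpZ]
    rw [e] at hd₁ hd₂
    have h4 := (mem_dset.mp hd₁).1.1.2
    have h5 := (mem_dset.mp hd₂).1.1.2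
    calc d₁ * d₂ * p ≤ RR Z p * RR Z p * p := Nat.mul_le_mul_right p (Nat.mul_le_mul h4 h5)
      _ ≤ Z ^ 3 := RR_sq h hp'.2.2

/-- collapsing the coefficients -/
lemma sum_ww {T Z Y N L : ℕ} (h : Par T Z Y N) (hL : Z ^ 3 ≤ T ^ L) (g : ℕ → ℝ) :
    ∑ D ∈ dset T (T ^ L), ww T Z Y N D * g D = ∑ i ∈ II T Z Y, cc T Z N i * g (DD i) := by
  rw [← sum_fiberwise_of_maps_to (g := DD) (fun i hi => DD_mem h hL hi)]
  apply sum_congr rfl
  intro D _
  unfold ww
  rw [sum_mul]
  apply sum_congr rfl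
  intro i hi
  rw [(mem_filter.mp hi).2]

/-- the weighted sieve function as a divisor sum -/
lemma FF_eq {T Z Y N L : ℕ} (h : Par T Z Y N) (hL : Z ^ 3 ≤ T ^ L) (n : ℕ) :
    FF T Z Y N n = ∑ D ∈ dset T (T ^ L), ww T Z Y N D * (if D ∣ n then 1 else 0) := by
  rw [sum_ww h hL (fun D => if D ∣ n then 1 else 0)]
  unfold FF II
  rw [sum_sigma, sum_filter]
  apply sum_congr rfl
  intro p _
  unfold AA
  rw [sum_product, pow_two, sum_mul_sum, mul_sum]
  by_cases hp : p ∣ n
  · rw [if_pos hp, sum_filter]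
    apply sum_congr rfl
    intro d₁ _
    by_cases hd₁ : d₁ ∣ n
    · rw [if_pos hd₁, mul_sum, sum_filter]
      apply sum_congr rfl
      intro d₂ _
      unfold cc DD
      simp only [Nat.lcm_dvd_iff, hp, hd₁, and_true, true_and]
      split_ifs <;> ring
    · rw [if_neg hd₁]
      symm
      apply sum_eq_zero
      intro d₂ _
      unfold DD
      simp only [Nat.lcm_dvd_iff, hd₁, false_and, if_false, mul_zero]
  · rw [if_neg hp]
    symm
    apply sum_eq_zero
    intro d₁ _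
    apply sum_eq_zero
    intro d₂ _
    unfold DD
    simp only [Nat.lcm_dvd_iff, hp, and_false, if_false, mul_zero]

/-- bound for the Selberg weights -/
lemma abs_lam_le {T M Z : ℕ} (hT : 1 ≤ T) (hM : 2 * M ≤ T) (hZ : Z ≤ T ^ M) (y : ℕ → ℝ)
    (B : ℝ) (hB : 0 ≤ B) (hy : ∀ r ∈ dset T Z, |y r| ≤ B) (d : ℕ) :
    |lam (dset T Z) y d| ≤ 2 * (B * HH T Z) := by
  have hH : 0 ≤ HH T Z := by unfold HH; exact sum_nonneg fun _ _ => by positivity
  by_cases hd : d ∈ dset T Z
  · have hd' := mem_dset.mp hd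
    have hd0 : (0 : ℝ) < d := by exact_mod_cast hd'.1.1.1
    have hφd : (0 : ℝ) < φ d := by exact_mod_cast Nat.totient_pos.mpr hd'.1.1.1
    have hT0 : (0 : ℝ) < T := by exact_mod_cast hT
    have hdφ : (d : ℝ) ≤ 2 * φ d := by
      have h1 := totient_ge T M d hT (mem_dset.mpr
        ⟨⟨⟨hd'.1.1.1, hd'.1.1.2.trans hZ⟩, hd'.1.2⟩, hd'.2⟩)
      have h2 : (M : ℝ) / T ≤ 1 / 2 := by
        rw [div_le_iff₀ hT0]
        have : (2 * M : ℝ) ≤ T := by exact_mod_cast hM
        linarith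
      nlinarith
    -- the inner sum
    have hinner : |∑ r ∈ (dset T Z).filter (fun r => d ∣ r), y r / φ r| ≤ B * (HH T Z / φ d) := by
      calc |∑ r ∈ (dset T Z).filter (fun r => d ∣ r), y r / φ r|
          ≤ ∑ r ∈ (dset T Z).filter (fun r => d ∣ r), |y r / φ r| := abs_sum_le_sum_abs _ _
        _ ≤ ∑ r ∈ (dset T Z).filter (fun r => d ∣ r), B / φ r := by
            apply sum_le_sum
            intro r hr
            rw [abs_div, Nat.abs_cast]
            apply div_le_div_of_nonneg_right (hy r (mem_filter.mp hr).1) (by positivity)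
        _ = B * ∑ r ∈ (dset T Z).filter (fun r => d ∣ r), 1 / (φ r : ℝ) := by
            rw [mul_sum]; apply sum_congr rfl; intro r _; ring
        _ ≤ B * (HH T Z / φ d) := by
            apply mul_le_mul_of_nonneg_left _ hB
            rw [le_div_iff₀ hφd, sum_mul]
            have e1 : ∀ r ∈ (dset T Z).filter (fun r => d ∣ r),
                1 / (φ r : ℝ) * φ d = 1 / (φ (r / d) : ℝ) := by
              intro r hr
              have hr1 := mem_filter.mp hr
              obtain ⟨e, rfl⟩ := hr1.2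
              have hr2 := mem_dset.mp hr1.1
              have hcop : Nat.Coprime d e := (Nat.squarefree_mul_iff.mp hr2.2).1
              rw [Nat.mul_div_cancel_left e hd'.1.1.1, Nat.totient_mul hcop]
              have he : 0 < e := Nat.pos_of_ne_zero (by rintro rfl; simp at hr2)
              have hφe : (0 : ℝ) < φ e := by exact_mod_cast Nat.totient_pos.mpr he
              push_cast
              field_simp
            rw [sum_congr rfl e1]
            have hinj : Set.InjOn (fun r => r / d)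
                (((dset T Z).filter (fun r => d ∣ r) : Finset ℕ) : Set ℕ) := by
              intro a ha b hb hab
              have ha' := (mem_filter.mp (mem_coe.mp ha)).2
              have hb' := (mem_filter.mp (mem_coe.mp hb)).2
              simp only at hab
              rw [← Nat.div_mul_cancel ha', ← Nat.div_mul_cancel hb', hab]
            rw [← sum_image (f := fun m : ℕ => 1 / (φ m : ℝ)) hinj]
            unfold HH
            apply sum_le_sum_of_subset_of_nonneg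
            · intro m hm
              obtain ⟨r, hr, rfl⟩ := mem_image.mp hm
              have hr1 := mem_filter.mp hr
              exact (divClosed_dset T Z r hr1.1).2 _ (Nat.div_dvd_of_dvd hr1.2)
            · intro _ _ _; positivity
    unfold lam
    have hmu : |(μ d : ℝ)| ≤ 1 := by exact_mod_cast abs_moebius_le_one (n := d)
    rw [abs_mul, abs_mul, Nat.abs_cast]
    calc |(μ d : ℝ)| * d * |∑ r ∈ (dset T Z).filter (fun r => d ∣ r), y r / φ r|
        ≤ 1 * d * (B * (HH T Z / φ d)) := by gcongr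
      _ ≤ 1 * (2 * φ d) * (B * (HH T Z / φ d)) := by gcongr
      _ = 2 * (B * HH T Z) := by field_simp
  · rw [lam_eq_zero_of_notMem _ (divClosed_dset T Z) y d hd, abs_zero]
    positivity

lemma abs_ll_le {T Z Y N M : ℕ} (h : Par T Z Y N) (hM : 2 * M ≤ T) (hZ : Z ≤ T ^ M) {p : ℕ}
    (hp0 : 0 < p) (hp : p ≤ Y) (d : ℕ) : |ll T Z p d| ≤ 10 := by
  have hT1 : 1 ≤ T := by have := h.hT; omega
  have hZ2 : 2 ≤ Z := h.hT.trans h.hTZ
  unfold ll
  by_cases hpZ : p ≤ Z
  · have e : SS T Z p = dset T Z := by unfold SS; rw [if_pos hpZ]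
    rw [e]
    have hS := S1_pos T Z hZ2
    have h1 := abs_lam_le hT1 hM hZ (yy T Z p) (5 / S1 T Z) (by positivity) (by
      intro r hr
      have hr' := mem_dset.mp hr
      unfold yy
      rw [if_pos hpZ, abs_div, abs_of_pos hS]
      apply div_le_div_of_nonneg_right _ hS.le
      rw [abs_of_nonneg (by linarith [Yf_ge hZ2 hr'.1.1.1 hr'.1.1.2])]
      exact Yf_le hr'.1.1.1) d
    refine h1.trans ?_
    have h2 := S1_ge T Z hZ2
    have h3 : 5 / S1 T Z * HH T Z ≤ 5 := by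
      rw [div_mul_eq_mul_div, div_le_iff₀ hS]
      linarith
    linarith
  · have e : SS T Z p = dset T (RR Z p) := by unfold SS; rw [if_neg hpZ]
    rw [e]
    have hH := HH_pos T (RR Z p) (one_le_RR h hp0 hp)
    have h1 := abs_lam_le hT1 hM ((RR_le h (not_le.mp hpZ)).trans hZ) (yy T Z p)
      (1 / HH T (RR Z p)) (by positivity) (by
      intro r hr
      unfold yy
      rw [if_neg hpZ, abs_of_pos (by positivity)]) d
    refine h1.trans ?_
    rw [one_div_mul_cancel hH.ne']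
    norm_num

lemma abs_aa_le {T Z Y N : ℕ} (h : Par T Z Y N) {p : ℕ} (hp0 : 0 < p) (hp : p ≤ Y) :
    |aa Z N p| ≤ 1 := by
  have hT := h.hT
  have hTZ := h.hTZ
  have hZY := h.hZY
  unfold aa
  split_ifs with h1 h2
  · simp
  · simp
  · have hlY : 0 < Real.log Y := Real.log_pos (by exact_mod_cast (by omega : 1 < Y))
    have hlN : Real.log N = 3 * Real.log Y := by
      rw [h.hN]; push_cast; rw [Real.log_pow]; push_cast; ring
    have h3 : Real.log p ≤ Real.log Y :=
      Real.log_le_log (by exact_mod_cast hp0) (by exact_mod_cast hp)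
    have h4 : 0 ≤ Real.log p := Real.log_natCast_nonneg p
    have h5 : 3 * (Real.log p / Real.log N) ≤ 1 := by
      rw [hlN, ← mul_div_assoc, div_le_one (by positivity)]
      linarith
    have h6 : 0 ≤ 3 * (Real.log p / Real.log N) := by
      have : 0 ≤ Real.log N := Real.log_natCast_nonneg N
      positivity
    rw [abs_neg, abs_le]
    constructor <;> linarith

lemma abs_cc_le {T Z Y N M : ℕ} (h : Par T Z Y N) (hM : 2 * M ≤ T) (hZ : Z ≤ T ^ M)
    {i : Σ _ : ℕ, ℕ × ℕ} (hi : i ∈ II T Z Y) : |cc T Z N i| ≤ 100 := by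
  obtain ⟨p, d₁, d₂⟩ := i
  simp only [II, mem_sigma, mem_product] at hi
  obtain ⟨hp, hd₁, hd₂⟩ := hi
  have hp' : 0 < p ∧ p ≤ Y := by
    unfold P0 at hp
    rw [mem_insert] at hp
    rcases hp with rfl | hp
    · exact ⟨one_pos, by have := h.hT; have := h.hTZ; have := h.hZY; omega⟩
    · have := mem_prI.mp hp
      exact ⟨this.2.pos, this.1.2⟩
  unfold cc
  simp only
  rw [abs_mul, abs_mul]
  have h1 := abs_aa_le h hp'.1 hp'.2
  have h2 := abs_ll_le h hM hZ hp'.1 hp'.2 d₁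
  have h3 := abs_ll_le h hM hZ hp'.1 hp'.2 d₂
  calc |aa Z N p| * (|ll T Z p d₁| * |ll T Z p d₂|) ≤ 1 * (10 * 10) := by gcongr
    _ = 100 := by norm_num

/-- the collapsed coefficients are bounded -/
lemma abs_ww_le {T Z Y N M L : ℕ} (h : Par T Z Y N) (hM : 2 * M ≤ T) (hZ : Z ≤ T ^ M)
    {D : ℕ} (hD : D ∈ dset T (T ^ L)) : |ww T Z Y N D| ≤ 100 * 8 ^ L := by
  have hD' := mem_dset.mp hD
  have hT1 : 1 ≤ T := by have := h.hT; omega
  unfold ww
  calc |∑ i ∈ (II T Z Y).filter (fun i => DD i = D), cc T Z N i|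
      ≤ ∑ i ∈ (II T Z Y).filter (fun i => DD i = D), |cc T Z N i| := abs_sum_le_sum_abs _ _
    _ ≤ ∑ i ∈ (II T Z Y).filter (fun i => DD i = D), 100 := by
        apply sum_le_sum
        intro i hi
        exact abs_cc_le h hM hZ (mem_filter.mp hi).1
    _ = #((II T Z Y).filter (fun i => DD i = D)) * 100 := by rw [sum_const, nsmul_eq_mul]
    _ ≤ (8 : ℝ) ^ L * 100 := by
        apply mul_le_mul_of_nonneg_right _ (by norm_num)
        have h1 : #((II T Z Y).filter (fun i => DD i = D))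
            ≤ #(D.divisors.sigma (fun _ : ℕ => D.divisors ×ˢ D.divisors)) := by
          apply card_le_card
          rintro ⟨p, d₁, d₂⟩ hi
          have h2 := (mem_filter.mp hi).2
          unfold DD at h2
          simp only at h2
          have hp : p ∣ D := h2 ▸ Nat.dvd_lcm_right _ _
          have hd₁ : d₁ ∣ D := h2 ▸ (Nat.dvd_lcm_left d₁ d₂).trans (Nat.dvd_lcm_left _ _)
          have hd₂ : d₂ ∣ D := h2 ▸ (Nat.dvd_lcm_right d₁ d₂).trans (Nat.dvd_lcm_left _ _)
          have hD0 : D ≠ 0 := by omega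
          simp only [mem_sigma, mem_product, Nat.mem_divisors]
          exact ⟨⟨hp, hD0⟩, ⟨hd₁, hD0⟩, ⟨hd₂, hD0⟩⟩
        have h3 : #(D.divisors.sigma (fun _ : ℕ => D.divisors ×ˢ D.divisors)) = #D.divisors ^ 3 := by
          rw [card_sigma, sum_const, card_product, smul_eq_mul]; ring
        have h4 : #D.divisors ≤ 2 ^ L := (card_divisors_le_of_squarefree hD'.2).trans
          (Nat.pow_le_pow_right (by norm_num)
            (card_primeFactors_le hT1 hD'.1.1.1 hD'.1.1.2 hD'.1.2))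
        have h5 : #((II T Z Y).filter (fun i => DD i = D)) ≤ 8 ^ L := by
          calc _ ≤ #D.divisors ^ 3 := h1.trans h3.le
            _ ≤ (2 ^ L) ^ 3 := Nat.pow_le_pow_left h4 3
            _ = 8 ^ L := by
              rw [← pow_mul, mul_comm, pow_mul]; norm_num
        exact_mod_cast h5
    _ = _ := by ring

end Pool.Agent.Lib.MP_bae66e_nt.AP3
end
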