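import Pool.Agent.Lib.MP_9cfc0a_nt.Arcs
import Pool.Agent.Lib.MP_bae66e_nt.Mg.G078
import Pool.Agent.Lib.MP_bae66e_nt.Mg.G079
import Pool.Agent.Lib.MP_bae66e_nt.Mg.G074
import Pool.Agent.Lib.MP_bae66e_nt.AP3.FLFinal

section

/-!
# Almost all even numbers are a small prime plus a product of three primes: definitions
-/

set_option autoImplicit false

namespace Pool.Agent.E3

open Finset MeasureTheory Real
open Pool.Agent.MC (ee)
open Pool.Agent.Lib.MP_bae66e_nt.AP3 (Rough rset dset prI KT flEta)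

/-- `ph u x = exp (- i u x)`; so `ph u (log n) = n ^ (- i u)`. -/
noncomputable def ph (u x : ℝ) : ℂ := Complex.exp (((-(u * x) : ℝ) : ℂ) * Complex.I)

/-- the Gaussian `exp (- β (x - y)²)` -/
noncomputable def gs (β x y : ℝ) : ℝ := Real.exp (-(β * (x - y) ^ 2))

/-- the difference condition: all the differences `Δ_{r₁} ⋯ Δ_{r_k} Δ₁ Δ₁ f` (inside `[0, M)`) are
between `λ r₁ ⋯ r_k` and `h λ r₁ ⋯ r_k` -/
def DC : ℕ → ℕ → ℝ → ℝ → (ℕ → ℝ) → Prop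
  | 0, M, lam, h, f => ∀ n, n + 2 < M →
      lam ≤ f (n + 2) - 2 * f (n + 1) + f n ∧ f (n + 2) - 2 * f (n + 1) + f n ≤ h * lam
  | k + 1, M, lam, h, f => ∀ r : ℕ, 1 ≤ r → r < M →
      DC k (M - r) (r * lam) h (fun n => f (n + r) - f n)

/-- the mean value over a period -/
noncomputable def mv (W : ℕ) (χ : ℕ → ℂ) : ℂ := (∑ a ∈ range W, χ a) / W

/-- `χ` is completely multiplicative, periodic modulo `W` and bounded by `1` -/
structure PC (W : ℕ) (χ : ℕ → ℂ) : Prop where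
  per : ∀ n, χ (n + W) = χ n
  mul : ∀ m n, χ (m * n) = χ m * χ n
  bd : ∀ n, ‖χ n‖ ≤ 1

/-- the values of a Dirichlet character at the natural numbers -/
noncomputable def ch {W : ℕ} (χ : DirichletCharacter ℂ W) (n : ℕ) : ℂ := χ (n : ZMod W)

/-- sum over the divisors -/
noncomputable def dsum (a : ℕ → ℝ) (n : ℕ) : ℝ := ∑ d ∈ n.divisors, a d

/-- the sieve product -/
noncomputable def VR (R : Finset ℕ) : ℝ := ∏ ℓ ∈ R, (1 - 1 / (ℓ : ℝ))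

/-- the indicator of the integers without a prime factor in `R` -/
noncomputable def free (R : Finset ℕ) (n : ℕ) : ℝ := if ∀ ℓ ∈ R, ¬ ℓ ∣ n then 1 else 0

/-- `u` are upper bound sieve weights for `R` of level `D`, and `e` bounds their error -/
structure SW (R : Finset ℕ) (D J η : ℝ) (u e : ℕ → ℝ) : Prop where
  usupp : ∀ d, u d ≠ 0 → d ∣ ∏ ℓ ∈ R, ℓ ∧ (d : ℝ) ≤ D
  esupp : ∀ d, e d ≠ 0 → d ∣ ∏ ℓ ∈ R, ℓ ∧ (d : ℝ) ≤ D
  ubd : ∀ d, |u d| ≤ 1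
  ebd : ∀ d, |e d| ≤ J
  low : ∀ n, 1 ≤ n → free R n ≤ dsum u n
  up : ∀ n, 1 ≤ n → dsum u n - free R n ≤ dsum e n
  usum0 : 0 ≤ ∑ d ∈ (∏ ℓ ∈ R, ℓ).divisors, u d / d
  usum : ∑ d ∈ (∏ ℓ ∈ R, ℓ).divisors, u d / d ≤ (1 + η) * VR R
  esum0 : 0 ≤ ∑ d ∈ (∏ ℓ ∈ R, ℓ).divisors, e d / d
  esum : ∑ d ∈ (∏ ℓ ∈ R, ℓ).divisors, e d / d ≤ η * VR R

end Pool.Agent.E3
end

section

/-!
# Almost all even numbers are a small prime plus a product of three primes: definitions, second part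
-/

set_option autoImplicit false

namespace Pool.Agent.E3

open Finset MeasureTheory Real
open Pool.Agent.Lib.MP_bae66e_nt.AP3 (prI)

/-- the window at `x` of the Dirichlet polynomial with the coefficients `a` over `S`:
`∑ a(n) n^(-1-it) exp (- β (x - log n)²)` -/
noncomputable def WIN (a : ℕ → ℂ) (β : ℝ) (S : Finset ℕ) (t x : ℝ) : ℂ :=
  ∑ n ∈ S, a n * ph t (Real.log n) * (((gs β x (Real.log n) / n : ℝ)) : ℂ)

/-- the Dirichlet polynomial `∑ a(n) n^(-1-it)` over `S` -/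
noncomputable def DP (a : ℕ → ℂ) (S : Finset ℕ) (t : ℝ) : ℂ :=
  ∑ n ∈ S, a n * ph t (Real.log n) * (((1 / n : ℝ)) : ℂ)

/-- `R₁ = ⌊(log X)^(ε/2)⌋` -/
noncomputable def RR1 (ε : ℝ) (X : ℕ) : ℕ := ⌊(Real.log X) ^ (ε / 2)⌋₊

/-- the exponent `ℓ` with `R₂ = R₁^ℓ ≥ (log X)^a` -/
noncomputable def ell (ε a : ℝ) : ℕ := ⌈2 * a / ε⌉₊ + 1

/-- `R₂ = R₁^ℓ` -/
noncomputable def RR2 (ε a : ℝ) (X : ℕ) : ℕ := RR1 ε X ^ ell ε a

/-- `H = ⌊(log X)^(1+ε)⌋` -/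
noncomputable def HH (ε : ℝ) (X : ℕ) : ℕ := ⌊(Real.log X) ^ (1 + ε)⌋₊

/-- `Y = X / (R₁ R₂)` -/
noncomputable def YY (ε a : ℝ) (X : ℕ) : ℝ := (X : ℝ) / ((RR1 ε X : ℝ) * RR2 ε a X)

/-- the primes in `(R, 2R]` -/
def IS (R : ℕ) : Finset ℕ := prI R (2 * R)

/-- the primes in `(√X, X²]` -/
def QS (X : ℕ) : Finset ℕ := prI (Nat.sqrt X) (X ^ 2)

/-- the weight of the prime `q` -/
noncomputable def om (Y : ℝ) (q : ℕ) : ℝ := gs 1 (Real.log Y) (Real.log q)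

/-- the products `r₁ r₂` -/
def SS (R₁ R₂ : ℕ) : Finset ℕ := (IS R₁ ×ˢ IS R₂).image (fun r => r.1 * r.2)

/-- `f(n) = ∑ ω(q)` over `n = s q`, `s ∈ S` -/
noncomputable def fS (S : Finset ℕ) (Y : ℝ) (X n : ℕ) : ℝ :=
  ∑ s ∈ S, ∑ q ∈ QS X, if s * q = n then om Y q else 0

/-- the function `f` of the E3 theorem -/
noncomputable def fE (ε a : ℝ) (X n : ℕ) : ℝ := fS (SS (RR1 ε X) (RR2 ε a X)) (YY ε a X) X n

/-- the expected size of `f`: `1 / (log R₁ log R₂ log X)` -/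
noncomputable def FF (ε a : ℝ) (X : ℕ) : ℝ :=
  1 / (Real.log (RR1 ε X) * Real.log (RR2 ε a X) * Real.log X)

/-- the normalised Gaussian `(1/L) exp (- v² / (2 L²))` -/
noncomputable def gsn (L v : ℝ) : ℝ := 1 / L * Real.exp (-(v ^ 2 / (2 * L ^ 2)))

/-- the Dirichlet polynomial of the primes `r` in `(R, 2R]`: `∑ χ(r) r^(-1-it)` -/
noncomputable def PR {W : ℕ} (χ : DirichletCharacter ℂ W) (R : ℕ) (t : ℝ) : ℂ := DP (ch χ) (IS R) t

/-- the Dirichlet polynomial of the primes `q`: `∑ χ(q) ω(q) q^(-1-it)` -/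
noncomputable def PQ {W : ℕ} (χ : DirichletCharacter ℂ W) (X : ℕ) (Y : ℝ) (t : ℝ) : ℂ :=
  WIN (ch χ) 1 (QS X) t (Real.log Y)

/-- a finite set of reals with mutual distances at least `1` -/
def Spaced (T : Finset ℝ) : Prop := ∀ s ∈ T, ∀ t ∈ T, s ≠ t → 1 ≤ |s - t|

end Pool.Agent.E3
end

section

/-!
# Interfaces of the modules (statements as `def ... : Prop`)
-/

set_option autoImplicit false

namespace Pool.Agent.E3

open Finset MeasureTheory Real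

/-- the factor `n / φ(n)` -/
noncomputable def Fr (n : ℕ) : ℝ := (n : ℝ) / (Nat.totient n : ℝ)

/-- SL (helper55): the pair sieve. `c`, `C` absolute. -/
def SLP : Prop := ∃ c C : ℝ, 0 < c ∧ c ≤ 1 ∧ 1 ≤ C ∧ ∃ U₀ : ℕ, ∀ (U s s' h : ℕ), U₀ ≤ U → 1 ≤ s → 1 ≤ s' → 1 ≤ h →
  (s : ℝ) ≤ (U : ℝ) ^ c → (s' : ℝ) ≤ (U : ℝ) ^ c →
  (#{q ∈ IS U | s' ∣ s * q + h ∧ ((s * q + h) / s').Prime} : ℝ)
    ≤ if Nat.gcd s s' ∣ h then C * (Nat.gcd s s' * U / (s' * (Real.log U) ^ 2)) * (Fr (s * s' * h)) ^ 2 else 0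

/-- SL (helper55): the mean of the factors -/
def SLF : Prop := ∃ C : ℝ, 1 ≤ C ∧ ∀ M : ℝ, 0 < M →
  (Summable fun k : ℕ => (Fr (k + 1)) ^ 4 * Real.exp (-(((k : ℝ) + 1) / M) ^ 2)) ∧
  ∑' k : ℕ, (Fr (k + 1)) ^ 4 * Real.exp (-(((k : ℝ) + 1) / M) ^ 2) ≤ C * M

/-- MV1 (helper55): the Gaussian mean value of `R Q`, with the pair sieve. `C` absolute. -/
def MV1 : Prop := ∃ C : ℝ, 1 ≤ C ∧ ∀ B : ℕ, ∃ X₀ : ℕ, ∀ X : ℕ, X₀ ≤ X →
  ∀ (W : ℕ) (χ χ' : DirichletCharacter ℂ W) (R : ℕ), 2 ≤ R → (R : ℝ) ≤ (Real.log X) ^ B →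
  ∀ Y Δ : ℝ, (X : ℝ) ^ (0.99 : ℝ) ≤ Y → Y ≤ X → 0 < Δ → Δ ≤ (X : ℝ) ^ (-(1 / 2) : ℝ) →
    ∫ t : ℝ, Real.exp (-(Δ * t) ^ 2) * ‖PR χ R t * PQ χ' X Y t‖ ^ 2
      ≤ C * (1 / (Δ * R * Y * Real.log X * Real.log R) + 1 / ((Real.log X) ^ 2 * (Real.log R) ^ 2))

/-- MV2 (helper55): the Gaussian mean value of `R^(ℓ+1) Q`, trivial version. -/
def MV2 : Prop := ∀ B ℓ : ℕ, ∃ C : ℝ, 1 ≤ C ∧ ∃ X₀ : ℕ, ∀ X : ℕ, X₀ ≤ X →
  ∀ (W : ℕ) (χ χ' : DirichletCharacter ℂ W) (R : ℕ), 2 ≤ R → (R : ℝ) ≤ (Real.log X) ^ B →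
  ∀ Y Δ : ℝ, (X : ℝ) ^ (0.99 : ℝ) ≤ Y → Y ≤ X → 0 < Δ → Δ ≤ (X : ℝ) ^ (-(1 / 2) : ℝ) →
    1 ≤ Δ * (R : ℝ) ^ (ℓ + 1) * Y →
    ∫ t : ℝ, Real.exp (-(Δ * t) ^ 2) * ‖(PR χ R t) ^ (ℓ + 1) * PQ χ' X Y t‖ ^ 2 ≤ C / Real.log X

/-- NLV (helper55): the number of large values of `R`. -/
def NLV : Prop := ∀ a : ℝ, 1 ≤ a → ∀ B : ℕ, ∀ α : ℝ, 0 < α → α ≤ 1 → ∃ X₀ : ℕ,
  ∀ X : ℕ, X₀ ≤ X → ∀ (W : ℕ) (χ : DirichletCharacter ℂ W) (R : ℕ), (Real.log X) ^ a ≤ R →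
    (R : ℝ) ≤ (Real.log X) ^ B → ∀ T : Finset ℝ, Spaced T →
    (∀ t ∈ T, |t| ≤ X ∧ (R : ℝ) ^ (-α) ≤ ‖PR χ R t‖) →
    (#T : ℝ) ≤ (X : ℝ) ^ (2 * α + 2 / a)

/-- T3Q (helper17): the values of `Q` at well spaced points. `θ` absolute. -/
def T3Q (θ : ℝ) : Prop := ∀ W : ℕ, 1 ≤ W → ∀ δ : ℝ, 0 < δ → ∃ T₀ : ℝ, 1 ≤ T₀ ∧ ∃ X₀ : ℕ,
  ∀ X : ℕ, X₀ ≤ X → ∀ (χ : DirichletCharacter ℂ W) (Y : ℝ), (X : ℝ) ^ (0.99 : ℝ) ≤ Y → Y ≤ X →
    ∀ T : Finset ℝ, Spaced T → (∀ t ∈ T, T₀ ≤ |t| ∧ |t| ≤ X) → (#T : ℝ) ≤ (X : ℝ) ^ θ →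
      ∑ t ∈ T, ‖PQ χ X Y t‖ ^ 2 ≤ δ / (Real.log X) ^ 2

/-- CORE (helper17): the Dirichlet polynomial of `f` is small in mean square off the real axis. `a` is absolute.
(Three characters, `R` and `Δ` are general, for use in other theorems.) -/
def CORE (a : ℝ) : Prop := ∀ ε : ℝ, 0 < ε → ε ≤ 1 → ∀ W : ℕ, 1 ≤ W → ∀ δ : ℝ, 0 < δ →
  ∃ T₀ : ℝ, 1 ≤ T₀ ∧ ∃ X₀ : ℕ, ∀ X : ℕ, X₀ ≤ X → ∀ χ₁ χ₂ χ₃ : DirichletCharacter ℂ W,
  ∀ R : ℕ, (Real.log X) ^ (ε / 4) ≤ R → (R : ℝ) ≤ (Real.log X) ^ (ε / 2) →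
    (Real.log X) ^ a ≤ (R : ℝ) ^ (ell ε a) →
  ∀ Y Δ : ℝ, (X : ℝ) ^ (0.99 : ℝ) ≤ Y → Y ≤ X → 0 < Δ → Δ ≤ (X : ℝ) ^ (-(1 / 2) : ℝ) →
    (Real.log X) ^ (1 + ε / 4) ≤ Δ * (R : ℝ) ^ (ell ε a) * Y → Real.log X ≤ Δ * X →
    ∫ t in {t : ℝ | T₀ ≤ |t|}, Real.exp (-(Δ * t) ^ 2) *
      ‖PR χ₁ R t * PR χ₂ (R ^ ell ε a) t * PQ χ₃ X Y t‖ ^ 2
      ≤ δ * (1 / (Real.log R * Real.log ((R : ℝ) ^ ell ε a) * Real.log X)) ^ 2

/-- PAP (helper5): lower bound for long Gaussian windows in progressions (fixed width `L`). `c₁` absolute. -/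
def PAP : Prop := ∃ c₁ : ℝ, 0 < c₁ ∧ ∀ a : ℝ, 3 ≤ a → ∀ ε : ℝ, 0 < ε → ε ≤ 1 → ∀ W : ℕ, 1 ≤ W →
  ∀ L : ℝ, 0 < L → L ≤ 1 → ∃ X₀ : ℕ, ∀ X : ℕ, X₀ ≤ X → ∀ c : ℕ, Nat.Coprime c W → ∀ x : ℝ,
    |x - Real.log X| ≤ 1 →
    c₁ * FF ε a X / Nat.totient W ≤
      ∑ s ∈ SS (RR1 ε X) (RR2 ε a X), ∑ q ∈ (QS X).filter (fun q => s * q ≡ c [MOD W]),
        om (YY ε a X) q / (s * q) * gsn L (x - Real.log (s * q))

/-- WINB (helper17): for every coprime class modulo `W`, almost all short intervals contain many `n` weighted by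
`f`; `c₀` is absolute. -/
def WINB (a : ℝ) : Prop := ∃ c₀ : ℝ, 0 < c₀ ∧ ∀ ε : ℝ, 0 < ε → ε ≤ 1 → ∀ W : ℕ, 1 ≤ W → ∀ δ : ℝ, 0 < δ →
  ∃ X₀ : ℕ, ∀ X : ℕ, X₀ ≤ X → ∀ c : ℕ, Nat.Coprime c W →
    (#{m ∈ Icc X (2 * X) | ∑ n ∈ (Ico (m - HH ε X) m).filter (fun n => n ≡ c [MOD W]), fE ε a X n
        < c₀ * HH ε X * FF ε a X / Nat.totient W} : ℝ) ≤ δ * X

/-- VARA (helper5): the variance of the primes against the W-model, weighted by `f`. -/
def VARA (a : ℝ) : Prop := ∀ ε : ℝ, 0 < ε → ε ≤ 1 → ∀ η : ℝ, 0 < η → ∃ w₀ : ℕ, ∀ w : ℕ, w₀ ≤ w → ∃ X₀ : ℕ,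
  ∀ X : ℕ, X₀ ≤ X →
    ∑ m ∈ Icc X (2 * X), (∑ t ∈ Icc 1 (HH ε X),
        (Pool.Agent.Lib.MP_bae66e_nt.LL.fP (HH ε X) (t : ℤ)
          - Pool.Agent.Lib.MP_bae66e_nt.LL.gW (primorial w) (HH ε X) (t : ℤ)) * fE ε a X (m - t)) ^ 2
      ≤ η * X * ((HH ε X : ℝ) * FF ε a X) ^ 2

open Classical in
/-- FIN (helper5): the theorem -/
def FINAL (a : ℝ) : Prop := ∀ ε : ℝ, 0 < ε → ∀ δ : ℝ, 0 < δ → ∃ N₀ : ℕ, ∀ N : ℕ, N₀ ≤ N →
  (#{m ∈ Icc 1 N | Even m ∧ ¬ ∃ p r₁ r₂ q : ℕ, p.Prime ∧ r₁.Prime ∧ r₂.Prime ∧ q.Prime ∧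
      m = p + r₁ * r₂ * q ∧ (p : ℝ) ≤ (Real.log m) ^ (1 + ε) ∧ (r₁ : ℝ) ≤ (Real.log m) ^ ε ∧
      ((r₁ * r₂ : ℕ) : ℝ) ≤ (Real.log m) ^ (a + 2)} : ℝ) ≤ δ * N

end Pool.Agent.E3
end

section

/-!
# T2: Gaussian weights on dyadic blocks
-/

set_option autoImplicit false

namespace Pool.Agent.E3

open Finset MeasureTheory Real
open Pool.Agent.MC (ee)

/-- the weight -/
private noncomputable def T2_w (β x : ℝ) (k : ℕ) : ℝ := gs β x (Real.log k) / k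

private lemma T2_w_eq (β x : ℝ) (k : ℕ) (hk : 1 ≤ k) :
    T2_w β x k = Real.exp (-(β * (x - Real.log k) ^ 2) - Real.log k) := by
  have hk0 : (0 : ℝ) < k := by exact_mod_cast hk
  unfold T2_w gs
  rw [Real.exp_sub, Real.exp_log hk0]

private lemma T2_w_nonneg (β x : ℝ) (k : ℕ) : 0 ≤ T2_w β x k := by
  unfold T2_w gs
  positivity

private lemma T2_dec (β : ℝ) (hβ : 0 < β) (x : ℝ) (k : ℕ) (hk : 1 ≤ k)
    (h : T2_w β x (k + 1) < T2_w β x k) (j : ℕ) (hj : k ≤ j) :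
    T2_w β x (j + 1) ≤ T2_w β x j := by
  have hk0 : (0 : ℝ) < k := by exact_mod_cast hk
  have hj0 : (0 : ℝ) < j := by exact_mod_cast (hk.trans hj)
  rw [T2_w_eq β x _ (by omega), T2_w_eq β x _ hk, Real.exp_lt_exp] at h
  rw [T2_w_eq β x _ (by omega), T2_w_eq β x _ (by omega), Real.exp_le_exp]
  push_cast at h ⊢
  have h1 : Real.log k < Real.log (k + 1) := Real.log_lt_log hk0 (by linarith)
  have h2 : Real.log j < Real.log (j + 1) := Real.log_lt_log hj0 (by linarith)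
  have hkj : (k : ℝ) ≤ j := by exact_mod_cast hj
  have h3 : Real.log k ≤ Real.log j := Real.log_le_log hk0 hkj
  have h4 : Real.log (k + 1) ≤ Real.log (j + 1) := Real.log_le_log (by linarith) (by linarith)
  set a := Real.log k
  set b := Real.log (k + 1)
  set s := Real.log j
  set t := Real.log (j + 1)
  have h5 : (b - a) * (β * (2 * x - a - b) - 1) < 0 := by
    have e : (b - a) * (β * (2 * x - a - b) - 1) =
        (-(β * (x - b) ^ 2) - b) - (-(β * (x - a) ^ 2) - a) := by ring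
    rw [e]
    linarith
  have h6 : β * (2 * x - a - b) - 1 < 0 := by
    by_contra h7
    push Not at h7
    have := mul_nonneg (sub_nonneg.mpr h1.le) h7
    linarith
  have h7 : β * (2 * x - s - t) - 1 ≤ 0 := by
    have h8 : β * (2 * x - s - t) ≤ β * (2 * x - a - b) :=
      mul_le_mul_of_nonneg_left (by linarith) hβ.le
    linarith
  have h9 : (t - s) * (β * (2 * x - s - t) - 1) ≤ 0 :=
    mul_nonpos_of_nonneg_of_nonpos (by linarith) h7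
  have e : (t - s) * (β * (2 * x - s - t) - 1) =
      (-(β * (x - t) ^ 2) - t) - (-(β * (x - s) ^ 2) - s) := by ring
  rw [e] at h9
  linarith

private lemma T2_tv (w : ℕ → ℝ) (a : ℕ) (M : ℝ)
    (hP : ∀ k, a ≤ k → w (k + 1) < w k → ∀ j, k ≤ j → w (j + 1) ≤ w j) (n : ℕ)
    (hM : ∀ k, a ≤ k → k ≤ a + n → w k ≤ M) :
    (∑ j ∈ Ico a (a + n), |w (j + 1) - w j| = w (a + n) - w a) ∨
    (∑ j ∈ Ico a (a + n), |w (j + 1) - w j| ≤ 2 * M - w a - w (a + n) ∧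
      ∀ j, a + n ≤ j → w (j + 1) ≤ w j) := by
  induction n with
  | zero =>
    left
    simp
  | succ n ih =>
    have hsum : ∑ j ∈ Ico a (a + (n + 1)), |w (j + 1) - w j| =
        ∑ j ∈ Ico a (a + n), |w (j + 1) - w j| + |w (a + n + 1) - w (a + n)| := by
      rw [← add_assoc, Finset.sum_Ico_succ_top (by omega)]
    rw [hsum]
    rcases ih (fun k h1 h2 => hM k h1 (by omega)) with h | ⟨h1, h2⟩
    · rw [h]
      rcases le_or_gt (w (a + n)) (w (a + n + 1)) with h3 | h3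
      · left
        rw [abs_of_nonneg (by linarith), ← add_assoc]
        ring
      · right
        rw [abs_of_neg (by linarith), ← add_assoc]
        refine ⟨?_, fun j hj => hP (a + n) (by omega) h3 j (by omega)⟩
        have h4 := hM (a + n) (by omega) (by omega)
        linarith
    · right
      have h3 := h2 (a + n) le_rfl
      rw [abs_of_nonpos (by linarith), ← add_assoc]
      exact ⟨by linarith, fun j hj => h2 j (by omega)⟩

private lemma T2_abel (g : ℕ → ℂ) (w : ℕ → ℝ) (K n : ℕ) :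
    ∑ k ∈ Ioc K (K + (n + 1)), g k * ((w k : ℝ) : ℂ) =
      (∑ k ∈ Ioc K (K + (n + 1)), g k) * ((w (K + (n + 1)) : ℝ) : ℂ) -
        ∑ j ∈ Ico (K + 1) (K + 1 + n), (∑ k ∈ Ioc K j, g k) * ((w (j + 1) - w j : ℝ) : ℂ) := by
  have hs : ∀ (f : ℕ → ℂ) (m : ℕ), ∑ k ∈ Ioc K (K + (m + 1)), f k =
      ∑ k ∈ Ioc K (K + m), f k + f (K + (m + 1)) := by
    intro f m
    rw [← add_assoc, Finset.sum_Ioc_succ_top (by omega)]
  induction n with
  | zero =>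
    rw [hs, hs]
    simp
  | succ n ih =>
    rw [hs, ih, hs g (n + 1)]
    have h1 : ∑ j ∈ Ico (K + 1) (K + 1 + (n + 1)),
        (∑ k ∈ Ioc K j, g k) * ((w (j + 1) - w j : ℝ) : ℂ) =
        ∑ j ∈ Ico (K + 1) (K + 1 + n), (∑ k ∈ Ioc K j, g k) * ((w (j + 1) - w j : ℝ) : ℂ) +
          (∑ k ∈ Ioc K (K + (n + 1)), g k) *
            ((w (K + (n + 1 + 1)) - w (K + (n + 1)) : ℝ) : ℂ) := by
      rw [← add_assoc, Finset.sum_Ico_succ_top (by omega)]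
      have e1 : K + 1 + n = K + (n + 1) := by ring
      have e2 : K + (n + 1) + 1 = K + (n + 1 + 1) := by ring
      rw [e1, e2]
    rw [h1]
    push_cast
    ring

/-- PROOF. Abel summation with the weight `w k = gs β x (log k) / k = exp (- β (x - v)² - v)`, `v = log k`. The
exponent is a concave function of `v`, so `w` is nonnegative and unimodal in `k`: its total variation on the
block is at most `2 max w`. So the sum is at most `3 B max w`, and `max w ≤ (1/K) sup gs β x v` over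
`v ∈ [log K, log (2K)]`, which is `≤ exp(β) ... `: for `|v - log K| ≤ 1` we have
`(x - v)² ≥ (x - log K)² / 2 - 1`, hence `gs β x v ≤ exp β · gs (β/2) x (log K)`. -/
theorem abel_gauss (β : ℝ) (hβ : 0 < β) (g : ℕ → ℂ) (K K' : ℕ) (x B : ℝ) (hK : 1 ≤ K) (hK' : K ≤ K')
    (hK2 : K' ≤ 2 * K) (hB : 0 ≤ B)
    (hg : ∀ k, K ≤ k → k ≤ K' → ‖∑ n ∈ Ioc K k, g n‖ ≤ B) :
    ‖∑ k ∈ Ioc K K', g k * (((gs β x (Real.log k) / k : ℝ)) : ℂ)‖
      ≤ 3 * Real.exp β * (B / K) * gs (β / 2) x (Real.log K) := by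
  have hKr : (1 : ℝ) ≤ K := by exact_mod_cast hK
  have hgs0 : 0 ≤ gs (β / 2) x (Real.log K) := by
    unfold gs
    positivity
  rcases Nat.eq_or_lt_of_le hK' with h | hlt
  · rw [← h]
    simp only [Ioc_self, sum_empty, norm_zero]
    positivity
  obtain ⟨n, rfl⟩ : ∃ n, K' = K + (n + 1) := ⟨K' - K - 1, by omega⟩
  set M : ℝ := Real.exp β * gs (β / 2) x (Real.log K) / K with hM
  have hM0 : 0 ≤ M := by
    rw [hM]
    positivity
  have hMb : ∀ k, K + 1 ≤ k → k ≤ K + 1 + n → T2_w β x k ≤ M := by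
    intro k hk1 hk2
    have hk0 : (K : ℝ) ≤ k := by exact_mod_cast (by omega : K ≤ k)
    have hk3 : (k : ℝ) ≤ 2 * K := by exact_mod_cast (by omega : k ≤ 2 * K)
    have hk4 : (0 : ℝ) < k := by linarith
    have h1 : Real.log K ≤ Real.log k := Real.log_le_log (by linarith) hk0
    have h2 : Real.log k ≤ Real.log K + 1 := by
      have h3 : Real.log k ≤ Real.log (2 * K) := Real.log_le_log hk4 hk3
      rw [Real.log_mul (by norm_num) (by linarith)] at h3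
      have := Real.log_two_lt_d9
      linarith
    have h3 : gs β x (Real.log k) ≤ Real.exp β * gs (β / 2) x (Real.log K) := by
      unfold gs
      rw [← Real.exp_add, Real.exp_le_exp]
      have h4 : (x - Real.log K) ^ 2 / 2 - 1 ≤ (x - Real.log k) ^ 2 := by
        nlinarith [sq_nonneg ((x - Real.log K) - 2 * (Real.log k - Real.log K)),
          mul_nonneg (sub_nonneg.mpr h1) (by linarith : 0 ≤ 1 - (Real.log k - Real.log K))]
      nlinarith [mul_le_mul_of_nonneg_left h4 hβ.le]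
    unfold T2_w
    rw [hM]
    calc gs β x (Real.log k) / k ≤ (Real.exp β * gs (β / 2) x (Real.log K)) / k :=
          div_le_div_of_nonneg_right h3 hk4.le
      _ ≤ _ := div_le_div_of_nonneg_left (by positivity) (by linarith) hk0
  have htv : ∑ j ∈ Ico (K + 1) (K + 1 + n), |T2_w β x (j + 1) - T2_w β x j| ≤
      2 * M - T2_w β x (K + 1) - T2_w β x (K + 1 + n) := by
    rcases T2_tv (T2_w β x) (K + 1) M (fun k hk h j hj => T2_dec β hβ x k (by omega) h j hj) n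
      hMb with h | ⟨h, -⟩
    · rw [h]
      have h1 := hMb (K + 1 + n) (by omega) le_rfl
      linarith
    · exact h
  have hab := T2_abel g (T2_w β x) K n
  have hgoal : ∑ k ∈ Ioc K (K + (n + 1)), g k * (((gs β x (Real.log k) / k : ℝ)) : ℂ) =
      ∑ k ∈ Ioc K (K + (n + 1)), g k * ((T2_w β x k : ℝ) : ℂ) := rfl
  rw [hgoal, hab]
  have h1 : ‖(∑ k ∈ Ioc K (K + (n + 1)), g k) * ((T2_w β x (K + (n + 1)) : ℝ) : ℂ)‖ ≤
      B * T2_w β x (K + 1 + n) := by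
    rw [norm_mul, Complex.norm_real, Real.norm_of_nonneg (T2_w_nonneg _ _ _)]
    have e : K + (n + 1) = K + 1 + n := by ring
    rw [e]
    exact mul_le_mul_of_nonneg_right (hg _ (by omega) (by omega)) (T2_w_nonneg _ _ _)
  have h2 : ‖∑ j ∈ Ico (K + 1) (K + 1 + n), (∑ k ∈ Ioc K j, g k) *
      ((T2_w β x (j + 1) - T2_w β x j : ℝ) : ℂ)‖ ≤
      B * ∑ j ∈ Ico (K + 1) (K + 1 + n), |T2_w β x (j + 1) - T2_w β x j| := by
    refine (norm_sum_le _ _).trans ?_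
    rw [Finset.mul_sum]
    refine Finset.sum_le_sum fun j hj => ?_
    rw [mem_Ico] at hj
    rw [norm_mul, Complex.norm_real, Real.norm_eq_abs]
    exact mul_le_mul_of_nonneg_right (hg _ (by omega) (by omega)) (abs_nonneg _)
  refine (norm_sub_le _ _).trans ((add_le_add h1 h2).trans ?_)
  have h3 := mul_le_mul_of_nonneg_left htv hB
  have h4 : 0 ≤ B * T2_w β x (K + 1) := mul_nonneg hB (T2_w_nonneg _ _ _)
  have h5 : 3 * Real.exp β * (B / K) * gs (β / 2) x (Real.log K) = 3 * (B * M) := by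
    rw [hM]
    ring
  rw [h5]
  have h6 : 0 ≤ B * M := mul_nonneg hB hM0
  nlinarith

private lemma T2_anti (b t₀ : ℝ) (hb : 0 < b) {s t : ℝ} (h1 : t₀ ≤ s) (h2 : s ≤ t) :
    Real.exp (-b * (t - t₀) ^ 2) ≤ Real.exp (-b * (s - t₀) ^ 2) := by
  rw [Real.exp_le_exp]
  have h3 : (s - t₀) ^ 2 ≤ (t - t₀) ^ 2 := pow_le_pow_left₀ (by linarith) (by linarith) 2
  nlinarith [mul_le_mul_of_nonneg_left h3 hb.le]

private lemma T2_mono (b t₀ : ℝ) (hb : 0 < b) {s t : ℝ} (h1 : t ≤ t₀) (h2 : s ≤ t) :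
    Real.exp (-b * (s - t₀) ^ 2) ≤ Real.exp (-b * (t - t₀) ^ 2) := by
  rw [Real.exp_le_exp]
  have h3 : (t₀ - t) ^ 2 ≤ (t₀ - s) ^ 2 := pow_le_pow_left₀ (by linarith) (by linarith) 2
  nlinarith [mul_le_mul_of_nonneg_left h3 hb.le]

private lemma T2_sum (b t₀ : ℝ) (hb : 0 < b) (n : ℕ) :
    ∑ j ∈ range n, Real.exp (-b * ((j : ℝ) - t₀) ^ 2) ≤ 2 + Real.sqrt (π / b) := by
  set f : ℝ → ℝ := fun t => Real.exp (-b * (t - t₀) ^ 2) with hf
  have hf0 : ∀ t, 0 ≤ f t := fun t => (Real.exp_pos _).le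
  have hf1 : ∀ t, f t ≤ 1 := by
    intro t
    rw [hf]
    exact Real.exp_le_one_iff.mpr (by nlinarith [mul_nonneg hb.le (sq_nonneg (t - t₀))])
  have hint : Integrable f := (integrable_exp_neg_mul_sq hb).comp_sub_right t₀
  have hval : ∫ t, f t = Real.sqrt (π / b) := by
    rw [hf, integral_sub_right_eq_self (fun t : ℝ => Real.exp (-b * t ^ 2)) t₀, integral_gaussian]
  set p := ⌊t₀⌋₊ with hp
  have hpt : t₀ < p + 1 := Nat.lt_floor_add_one t₀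
  have hA : ∑ j ∈ range n, f (j : ℝ) ≤ ∑ j ∈ range (p + (2 + n)), f (j : ℝ) :=
    Finset.sum_le_sum_of_subset_of_nonneg (by
      intro j hj
      rw [mem_range] at hj ⊢
      omega) fun j _ _ => hf0 _
  have hB : ∑ j ∈ range (p + (2 + n)), f (j : ℝ) = ∑ j ∈ range p, f (j : ℝ) +
      (f (p : ℝ) + f ((p : ℝ) + 1) + ∑ i ∈ range n, f ((p + 1 : ℝ) + ((i + 1 : ℕ) : ℝ))) := by
    rw [Finset.sum_range_add]
    congr 1
    rw [Finset.sum_range_add]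
    congr 1
    · rw [Finset.sum_range_succ, Finset.sum_range_succ, Finset.sum_range_zero]
      push_cast
      ring_nf
    · refine Finset.sum_congr rfl fun i _ => ?_
      congr 1
      push_cast
      ring
  have hI1 : ∑ j ∈ range p, f (j : ℝ) ≤ ∫ t in (0 : ℝ)..(p : ℝ), f t := by
    have hmono : MonotoneOn f (Set.Icc (0 : ℝ) (0 + (p : ℕ))) := by
      rcases Nat.eq_zero_or_pos p with h0 | h0
      · intro s hs t ht _
        rw [h0] at hs ht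
        simp only [Nat.cast_zero, add_zero, Set.Icc_self, Set.mem_singleton_iff] at hs ht
        rw [hs, ht]
      · have ht0 : 0 ≤ t₀ := by
          by_contra hneg
          push Not at hneg
          have := Nat.floor_of_nonpos hneg.le
          omega
        have hpt' : (p : ℝ) ≤ t₀ := Nat.floor_le ht0
        intro s hs t ht hst
        rw [zero_add] at ht
        exact T2_mono b t₀ hb (ht.2.trans hpt') hst
    have h1 := hmono.sum_le_integral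
    simpa using h1
  have hI2 : ∑ i ∈ range n, f ((p + 1 : ℝ) + ((i + 1 : ℕ) : ℝ)) ≤
      ∫ t in (p + 1 : ℝ)..(p + 1 + (n : ℝ)), f t := by
    have hanti : AntitoneOn f (Set.Icc (p + 1 : ℝ) (p + 1 + (n : ℕ))) := by
      intro s hs t ht hst
      exact T2_anti b t₀ hb (hpt.le.trans hs.1) hst
    exact hanti.sum_le_integral
  have hp0 : (0 : ℝ) ≤ p := Nat.cast_nonneg p
  have hn0 : (0 : ℝ) ≤ n := Nat.cast_nonneg n
  have hI3 : (∫ t in (0 : ℝ)..(p : ℝ), f t) + ∫ t in (p + 1 : ℝ)..(p + 1 + (n : ℝ)), f t ≤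
      ∫ t, f t := by
    rw [intervalIntegral.integral_of_le hp0, intervalIntegral.integral_of_le (by linarith),
      ← setIntegral_union ?_ measurableSet_Ioc hint.integrableOn hint.integrableOn]
    · exact setIntegral_le_integral hint (Filter.Eventually.of_forall hf0)
    · rw [Set.disjoint_left]
      intro t h1 h2
      have := h1.2
      have := h2.1
      linarith
  show ∑ j ∈ range n, f (j : ℝ) ≤ _
  rw [hB] at hA
  have h1 := hf1 (p : ℝ)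
  have h2 := hf1 ((p : ℝ) + 1)
  linarith

/-- PROOF. `|x - j log 2|` for `j = 0, 1, 2, …`: at most `2` of the `j` lie with `|x - j log 2|` in any interval
`[i, i + 1/2)`, ... more simply: the sum over `j ∈ ℤ` of `exp (- γ (x - j log 2)²)` is bounded by
`2 + ∫ exp (- γ (x - t log 2)²) dt ≤ 2 + (1 / log 2) √(π / γ)` (unimodal function: sum over the integers is at
most the integral plus twice the maximum). -/
theorem sum_gauss_dyadic (γ : ℝ) (hγ : 0 < γ) (x : ℝ) (n : ℕ) :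
    ∑ j ∈ range n, gs γ x (Real.log ((2 ^ j : ℕ) : ℝ)) ≤ 2 + 2 * Real.sqrt (π / γ) := by
  have hl : (0 : ℝ) < Real.log 2 := Real.log_pos (by norm_num)
  have hl2 : 1 / 2 ≤ Real.log 2 := by
    have := Real.log_two_gt_d9
    linarith
  have h1 : ∀ j : ℕ, gs γ x (Real.log ((2 ^ j : ℕ) : ℝ)) =
      Real.exp (-(γ * Real.log 2 ^ 2) * ((j : ℝ) - x / Real.log 2) ^ 2) := by
    intro j
    unfold gs
    push_cast
    rw [Real.log_pow]
    congr 1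
    field_simp
    ring
  simp only [h1]
  refine (T2_sum (γ * Real.log 2 ^ 2) (x / Real.log 2) (by positivity) n).trans ?_
  have h2 : Real.sqrt (π / (γ * Real.log 2 ^ 2)) = Real.sqrt (π / γ) / Real.log 2 := by
    rw [← div_div, Real.sqrt_div (by positivity), Real.sqrt_sq hl.le]
  rw [h2]
  have h3 : Real.sqrt (π / γ) / Real.log 2 ≤ 2 * Real.sqrt (π / γ) := by
    rw [div_le_iff₀ hl]
    have := Real.sqrt_nonneg (π / γ)
    nlinarith
  linarith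

end Pool.Agent.E3
end

section

/-!
# Interfaces of the sharper version: `p ≤ log m (log log m)^C`

`R₁ = ⌊(log log X)^c⌋`, `R₂ = R₁^ℓ ≥ (log X)^a`, `H = ⌊log X (log log X)^(c+4)⌋`; `a` and `c` are absolute.
-/

set_option autoImplicit false

namespace Pool.Agent.E3

open Finset MeasureTheory Real

/-- `log log X` -/
noncomputable def ll (X : ℕ) : ℝ := Real.log (Real.log X)

/-- `R₁ = ⌊(log log X)^c⌋` -/
noncomputable def RA (c : ℝ) (X : ℕ) : ℕ := ⌊(ll X) ^ c⌋₊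

/-- the least `ℓ` with `R₁^ℓ ≥ (log X)^a` -/
noncomputable def LA (c a : ℝ) (X : ℕ) : ℕ := ⌈a * ll X / Real.log (RA c X)⌉₊

/-- `R₂ = R₁^ℓ` -/
noncomputable def RB (c a : ℝ) (X : ℕ) : ℕ := RA c X ^ LA c a X

/-- `H = ⌊log X (log log X)^(c+4)⌋` -/
noncomputable def HA (c : ℝ) (X : ℕ) : ℕ := ⌊Real.log X * (ll X) ^ (c + 4)⌋₊

/-- `Y = X / (R₁ R₂)` -/
noncomputable def YA (c a : ℝ) (X : ℕ) : ℝ := (X : ℝ) / ((RA c X : ℝ) * RB c a X)

/-- the function `f` -/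
noncomputable def fA (c a : ℝ) (X n : ℕ) : ℝ := fS (SS (RA c X) (RB c a X)) (YA c a X) X n

/-- the expected size of `f`: `1 / (log R₁ log R₂ log X)` -/
noncomputable def FA (c a : ℝ) (X : ℕ) : ℝ :=
  1 / (Real.log (RA c X) * Real.log (RB c a X) * Real.log X)

/-- MV3 (helper55): MV2 with the explicit constant; `C` absolute. -/
def MV3 : Prop := ∃ C : ℝ, 1 ≤ C ∧ ∀ B : ℕ, ∃ X₀ : ℕ, ∀ X : ℕ, X₀ ≤ X →
  ∀ (W : ℕ) (χ χ' : DirichletCharacter ℂ W) (R ℓ : ℕ), 2 ≤ R → (R : ℝ) ^ (ℓ + 1) ≤ (Real.log X) ^ B →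
  ∀ Y Δ : ℝ, (X : ℝ) ^ (0.99 : ℝ) ≤ Y → Y ≤ X → 0 < Δ → Δ ≤ (X : ℝ) ^ (-(1 / 2) : ℝ) →
    1 ≤ Δ * (R : ℝ) ^ (ℓ + 1) * Y →
    ∫ t : ℝ, Real.exp (-(Δ * t) ^ 2) * ‖(PR χ R t) ^ (ℓ + 1) * PQ χ' X Y t‖ ^ 2
      ≤ C * (ℓ + 1).factorial / Real.log X

/-- CORE2 (helper55): from T3Q, NLV, MV1, MV3; there are (large, absolute) `a`, `c` with CORE2 a c. -/
def CORE2 (a c : ℝ) : Prop := ∀ W : ℕ, 1 ≤ W → ∀ δ : ℝ, 0 < δ →
  ∃ T₀ : ℝ, 1 ≤ T₀ ∧ ∃ X₀ : ℕ, ∀ X : ℕ, X₀ ≤ X → ∀ χ₁ χ₂ χ₃ : DirichletCharacter ℂ W,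
  ∀ R ℓ : ℕ, (ll X) ^ c / 4 ≤ R → (R : ℝ) ≤ (ll X) ^ c →
    (Real.log X) ^ a ≤ (R : ℝ) ^ ℓ → (R : ℝ) ^ ℓ ≤ (Real.log X) ^ (a + 1) →
  ∀ Y Δ : ℝ, (X : ℝ) ^ (0.99 : ℝ) ≤ Y → Y ≤ X → 0 < Δ → Δ ≤ (X : ℝ) ^ (-(1 / 2) : ℝ) →
    Real.log X * (ll X) ^ 3 ≤ Δ * (R : ℝ) ^ ℓ * Y → Real.log X ≤ Δ * X →
    ∫ t in {t : ℝ | T₀ ≤ |t|}, Real.exp (-(Δ * t) ^ 2) *
      ‖PR χ₁ R t * PR χ₂ (R ^ ℓ) t * PQ χ₃ X Y t‖ ^ 2
      ≤ δ * (1 / (Real.log R * Real.log ((R : ℝ) ^ ℓ) * Real.log X)) ^ 2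

/-- PAP2 (helper5): lower bound for long Gaussian windows in progressions (fixed width `L`). `c₁` absolute. -/
def PAP2 : Prop := ∃ c₁ : ℝ, 0 < c₁ ∧ ∀ a c : ℝ, 3 ≤ a → 2 ≤ c → ∀ W : ℕ, 1 ≤ W →
  ∀ L : ℝ, 0 < L → L ≤ 1 → ∃ X₀ : ℕ, ∀ X : ℕ, X₀ ≤ X → ∀ v : ℕ, Nat.Coprime v W → ∀ x : ℝ,
    |x - Real.log X| ≤ 1 →
    c₁ * FA c a X / Nat.totient W ≤
      ∑ s ∈ SS (RA c X) (RB c a X), ∑ q ∈ (QS X).filter (fun q => s * q ≡ v [MOD W]),
        om (YA c a X) q / (s * q) * gsn L (x - Real.log (s * q))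

/-- WINB2 (helper55): almost all short intervals contain many `n ≡ v (mod W)` weighted by `f`. -/
def WINB2 (a c : ℝ) : Prop := ∃ c₀ : ℝ, 0 < c₀ ∧ ∀ W : ℕ, 1 ≤ W → ∀ δ : ℝ, 0 < δ →
  ∃ X₀ : ℕ, ∀ X : ℕ, X₀ ≤ X → ∀ v : ℕ, Nat.Coprime v W →
    (#{m ∈ Icc X (2 * X) | ∑ n ∈ (Ico (m - HA c X) m).filter (fun n => n ≡ v [MOD W]), fA c a X n
        < c₀ * HA c X * FA c a X / Nat.totient W} : ℝ) ≤ δ * X

/-- VARA2 (helper5): the variance of the primes against the W-model, weighted by `f` (for `a ≥ 3`, `c ≥ 2`). -/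
def VARA2 (a c : ℝ) : Prop := ∀ η : ℝ, 0 < η → ∃ w₀ : ℕ, ∀ w : ℕ, w₀ ≤ w → ∃ X₀ : ℕ,
  ∀ X : ℕ, X₀ ≤ X →
    ∑ m ∈ Icc X (2 * X), (∑ t ∈ Icc 1 (HA c X),
        (Pool.Agent.Lib.MP_bae66e_nt.LL.fP (HA c X) (t : ℤ)
          - Pool.Agent.Lib.MP_bae66e_nt.LL.gW (primorial w) (HA c X) (t : ℤ)) * fA c a X (m - t)) ^ 2
      ≤ η * X * ((HA c X : ℝ) * FA c a X) ^ 2

open Classical in
/-- FINAL2 (helper5): the theorem -/
def FINAL2 : Prop := ∃ C : ℝ, 0 < C ∧ ∀ δ : ℝ, 0 < δ → ∃ N₀ : ℕ, ∀ N : ℕ, N₀ ≤ N →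
  (#{m ∈ Icc 1 N | Even m ∧ ¬ ∃ p r₁ r₂ q : ℕ, p.Prime ∧ r₁.Prime ∧ r₂.Prime ∧ q.Prime ∧
      m = p + r₁ * r₂ * q ∧ (p : ℝ) ≤ Real.log m * (Real.log (Real.log m)) ^ C ∧
      (r₁ : ℝ) ≤ (Real.log (Real.log m)) ^ C ∧ (r₂ : ℝ) ≤ (Real.log m) ^ C} : ℝ) ≤ δ * N

end Pool.Agent.E3
end

section

/-!
# SL1: the forbidden classes of two linear forms
-/

set_option autoImplicit false

namespace Pool.Agent.E3

open Finset
open Pool.Agent.Lib.MP_bae66e_nt.AP3 (Rough prI KT FLP cset xb flEta)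

/-- the classes `k` modulo `ℓ` in which one of the forms `a k + b`, `c k + d` vanishes, for the primes `ℓ ≥ 5` not
dividing `D` (and no classes for the other `ℓ`) -/
def Om2 (a b c d D ℓ : ℕ) : Finset ℕ :=
  if ℓ.Prime ∧ 5 ≤ ℓ ∧ ¬ ℓ ∣ D then (range ℓ).filter (fun k => ℓ ∣ a * k + b ∨ ℓ ∣ c * k + d) else ∅

/-- the primes `5 ≤ ℓ ≤ T` not dividing `D` -/
def RS2 (D T : ℕ) : Finset ℕ := (prI 0 T).filter (fun ℓ => 5 ≤ ℓ ∧ ¬ ℓ ∣ D)

/-- PROOF. By definition. -/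
theorem Om2_lt (a b c d D ℓ : ℕ) : ∀ k ∈ Om2 a b c d D ℓ, k < ℓ := by
  intro k hk
  unfold Om2 at hk
  split_ifs at hk
  · exact mem_range.1 (mem_filter.1 hk).1
  · simp at hk

/-- a linear congruence has one solution -/
private theorem SL1_aux (a b ℓ : ℕ) (hℓ : ℓ.Prime) (ha : ¬ ℓ ∣ a) :
    ∃ k₀ : ℕ, k₀ < ℓ ∧ ℓ ∣ a * k₀ + b ∧ ∀ k : ℕ, k < ℓ → ℓ ∣ a * k + b → k = k₀ := by
  haveI : Fact ℓ.Prime := ⟨hℓ⟩
  have ha' : (a : ZMod ℓ) ≠ 0 := by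
    intro h
    exact ha ((ZMod.natCast_eq_zero_iff a ℓ).1 h)
  refine ⟨(-(b : ZMod ℓ) * (a : ZMod ℓ)⁻¹).val, ZMod.val_lt _, ?_, ?_⟩
  · rw [← ZMod.natCast_eq_zero_iff]
    push_cast
    rw [ZMod.natCast_zmod_val]
    field_simp
    ring
  · intro k hk hdvd
    have h1 : (a : ZMod ℓ) * (k : ZMod ℓ) + (b : ZMod ℓ) = 0 := by
      have := (ZMod.natCast_eq_zero_iff (a * k + b) ℓ).2 hdvd
      push_cast at this
      exact this
    have h2 : (k : ZMod ℓ) = -(b : ZMod ℓ) * (a : ZMod ℓ)⁻¹ := by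
      field_simp
      linear_combination h1
    rw [← h2, ZMod.val_natCast, Nat.mod_eq_of_lt hk]

/-- PROOF. Let `ℓ` be prime, `ℓ ≥ 5`, `¬ ℓ ∣ D`, so `ℓ` divides none of `a`, `c`, `h`. The congruence `a k + b ≡ 0` mod `ℓ`
has exactly one solution `k₁ ∈ [0, ℓ)` (`a` is a unit modulo `ℓ`; e.g. work in `ZMod ℓ`), `c k + d ≡ 0` exactly one
solution `k₂`, and `k₁ ≠ k₂`: if `ℓ` divides both `a k + b` and `c k + d` then it divides
`a (c k + d) - c (a k + b) = a d - c b = h`. So the filter is `{k₁, k₂}` with two elements. -/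
theorem Om2_card (a b c d h D ℓ : ℕ) (hdet : a * d = c * b + h) (ha : a ∣ D) (hc : c ∣ D) (hh : h ∣ D)
    (hℓ : ℓ.Prime) (h5 : 5 ≤ ℓ) (hD : ¬ ℓ ∣ D) : #(Om2 a b c d D ℓ) = 2 := by
  have hna : ¬ ℓ ∣ a := fun h => hD (h.trans ha)
  have hnc : ¬ ℓ ∣ c := fun h => hD (h.trans hc)
  have hnh : ¬ ℓ ∣ h := fun h' => hD (h'.trans hh)
  obtain ⟨k₁, hk₁, hd₁, hu₁⟩ := SL1_aux a b ℓ hℓ hna
  obtain ⟨k₂, hk₂, hd₂, hu₂⟩ := SL1_aux c d ℓ hℓ hnc
  have hne : k₁ ≠ k₂ := by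
    intro he
    subst he
    apply hnh
    have h1 : ℓ ∣ a * (c * k₁ + d) := hd₂.mul_left a
    have h2 : ℓ ∣ c * (a * k₁ + b) := hd₁.mul_left c
    have h3 : a * (c * k₁ + d) = c * (a * k₁ + b) + h := by
      calc a * (c * k₁ + d) = a * c * k₁ + a * d := by ring
        _ = a * c * k₁ + (c * b + h) := by rw [hdet]
        _ = c * (a * k₁ + b) + h := by ring
    rw [h3] at h1
    exact (Nat.dvd_add_right h2).1 h1
  have hset : Om2 a b c d D ℓ = {k₁, k₂} := by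
    unfold Om2
    rw [if_pos ⟨hℓ, h5, hD⟩]
    ext k
    rw [mem_filter, mem_range, mem_insert, mem_singleton]
    constructor
    · rintro ⟨hk, h1 | h1⟩
      · exact Or.inl (hu₁ k hk h1)
      · exact Or.inr (hu₂ k hk h1)
    · rintro (rfl | rfl)
      · exact ⟨hk₁, Or.inl hd₁⟩
      · exact ⟨hk₂, Or.inr hd₂⟩
  rw [hset, card_pair hne]

/-- PROOF. `Om2_card` or the empty set. -/
theorem Om2_card_le (a b c d h D ℓ : ℕ) (hdet : a * d = c * b + h) (ha : a ∣ D) (hc : c ∣ D) (hh : h ∣ D) :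
    #(Om2 a b c d D ℓ) ≤ 2 := by
  by_cases h0 : ℓ.Prime ∧ 5 ≤ ℓ ∧ ¬ ℓ ∣ D
  · exact le_of_eq (Om2_card a b c d h D ℓ hdet ha hc hh h0.1 h0.2.1 h0.2.2)
  · unfold Om2
    rw [if_neg h0]
    simp

/-- PROOF. `2 / ℓ ≤ 2 / 5 ≤ 1 / 2`, or `0`. -/
theorem Om2_xb_le (a b c d h D ℓ : ℕ) (hdet : a * d = c * b + h) (ha : a ∣ D) (hc : c ∣ D) (hh : h ∣ D) :
    xb (Om2 a b c d D) ℓ ≤ 1 / 2 := by
  unfold xb
  by_cases h0 : ℓ.Prime ∧ 5 ≤ ℓ ∧ ¬ ℓ ∣ D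
  · rw [Om2_card a b c d h D ℓ hdet ha hc hh h0.1 h0.2.1 h0.2.2]
    have h5 : (5 : ℝ) ≤ (ℓ : ℝ) := by exact_mod_cast h0.2.1
    rw [div_le_iff₀ (by linarith)]
    push_cast
    linarith
  · have h1 : Om2 a b c d D ℓ = ∅ := by
      unfold Om2
      rw [if_neg h0]
    rw [h1, card_empty]
    simp

end Pool.Agent.E3
end

section

/-!
# C1: from integrals to points of unit intervals
-/

set_option autoImplicit false

namespace Pool.Agent.E3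

open Finset MeasureTheory Real

/-- PROOF. If `g = 0` on `S` take any point; otherwise let `M > 0` be the supremum of `g` on `S` and take a point with
`g s > M/2`. -/
theorem exists_half_sup (S : Set ℝ) (g : ℝ → ℝ) (M : ℝ) (hS : S.Nonempty) (hg : ∀ t, 0 ≤ g t) (hM : ∀ t, g t ≤ M) :
    ∃ s ∈ S, ∀ t ∈ S, g t ≤ 2 * g s := by
  have hb : BddAbove (g '' S) := ⟨M, by rintro _ ⟨t, -, rfl⟩; exact hM t⟩
  have hle : ∀ t ∈ S, g t ≤ sSup (g '' S) := fun t ht => le_csSup hb ⟨t, ht, rfl⟩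
  obtain ⟨s₀, hs₀⟩ := hS
  rcases le_or_gt (sSup (g '' S)) 0 with h | h
  · exact ⟨s₀, hs₀, fun t ht => by
      have h1 := hle t ht
      have h2 := hg s₀
      linarith⟩
  · have hlt : sSup (g '' S) / 2 < sSup (g '' S) := by linarith
    have hne : (g '' S).Nonempty := ⟨g s₀, s₀, hs₀, rfl⟩
    obtain ⟨_, ⟨s, hs, rfl⟩, h1⟩ := exists_lt_of_lt_csSup hne hlt
    exact ⟨s, hs, fun t ht => by
      have h2 := hle t ht
      linarith⟩

/-- PROOF. Let `J` be the (finite) set of the integers `j` with `S ∩ [j, j+1)` nonempty (`|j| ≤ X + 1`). For `j ∈ J` let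
`t_j ∈ S ∩ [j, j+1)` be as in `exists_half_sup`. `T₁ = {t_j : j even}`, `T₂ = {t_j : j odd}`: for `j ≠ j'` of the same
parity `|j - j'| ≥ 2`, so `|t_j - t_j'| > 1`. `S` is the disjoint union of the `S ∩ [j, j+1)`, and
`∫_{S ∩ [j, j+1)} g ≤ 2 g(t_j)`; the `t_j` are distinct. (`g` is bounded and measurable, so all the integrals exist.) -/
theorem unit_points (S : Set ℝ) (g : ℝ → ℝ) (M X : ℝ) (hS : MeasurableSet S) (hgm : Measurable g)
    (hg : ∀ t, 0 ≤ g t) (hM : ∀ t, g t ≤ M) (hSX : ∀ t ∈ S, |t| ≤ X) :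
    ∃ T₁ T₂ : Finset ℝ, Spaced T₁ ∧ Spaced T₂ ∧ (∀ t ∈ T₁, t ∈ S) ∧ (∀ t ∈ T₂, t ∈ S) ∧
      ∫ t in S, g t ≤ 2 * (∑ t ∈ T₁, g t + ∑ t ∈ T₂, g t) := by
  classical
  -- the pieces
  let P : ℤ → Set ℝ := fun j => S ∩ Set.Ico (j : ℝ) ((j : ℝ) + 1)
  have hP : ∀ j t, t ∈ P j ↔ t ∈ S ∧ ⌊t⌋ = j := by
    intro j t
    change t ∈ S ∧ ((j : ℝ) ≤ t ∧ t < (j : ℝ) + 1) ↔ _
    rw [Int.floor_eq_iff]
  let J : Finset ℤ := (Finset.Icc ⌊-X⌋ ⌊X⌋).filter fun j => (P j).Nonempty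
  have hJ : ∀ j ∈ J, (P j).Nonempty := fun j hj => (Finset.mem_filter.1 hj).2
  have hex : ∀ j : ℤ, ∃ s : ℝ, j ∈ J → s ∈ P j ∧ ∀ t ∈ P j, g t ≤ 2 * g s := by
    intro j
    by_cases hj : j ∈ J
    · obtain ⟨s, hs, h⟩ := exists_half_sup (P j) g M (hJ j hj) hg hM
      exact ⟨s, fun _ => ⟨hs, h⟩⟩
    · exact ⟨0, fun h => absurd h hj⟩
  choose τ hτ using hex
  have hτS : ∀ j ∈ J, τ j ∈ S := fun j hj => ((hP j _).1 (hτ j hj).1).1
  have hτf : ∀ j ∈ J, ⌊τ j⌋ = j := fun j hj => ((hP j _).1 (hτ j hj).1).2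
  have hinj : Set.InjOn τ (J : Set ℤ) := by
    intro j hj j' hj' h
    rw [← hτf j hj, ← hτf j' hj', h]
  -- distances
  have hdist : ∀ j ∈ J, ∀ j' ∈ J, (Even j ↔ Even j') → τ j ≠ τ j' → 1 ≤ |τ j - τ j'| := by
    intro j hj j' hj' hp hne
    have hjj : j ≠ j' := fun h => hne (by rw [h])
    have h1 := (hτ j hj).1.2
    have h2 := (hτ j' hj').1.2
    have h3 : j + 2 ≤ j' ∨ j' + 2 ≤ j := by
      rcases Int.even_or_odd j with ⟨a, ha⟩ | ⟨a, ha⟩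
      · obtain ⟨b, hb⟩ := hp.1 ⟨a, ha⟩
        omega
      · have : ¬ Even j' := by
          rw [← hp]
          exact Int.not_even_iff_odd.2 ⟨a, ha⟩
        obtain ⟨b, hb⟩ := Int.not_even_iff_odd.1 this
        omega
    rcases h3 with h3 | h3
    · have h4 : (j : ℝ) + 2 ≤ j' := by exact_mod_cast h3
      rw [abs_sub_comm, le_abs]
      left
      have h5 := h1.2
      have h6 := h2.1
      linarith
    · have h4 : (j' : ℝ) + 2 ≤ j := by exact_mod_cast h3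
      rw [le_abs]
      left
      have h5 := h1.1
      have h6 := h2.2
      linarith
  -- the decomposition of `S`
  have hU : S = ⋃ j ∈ J, P j := by
    ext t
    simp only [Set.mem_iUnion, exists_prop]
    constructor
    · intro ht
      refine ⟨⌊t⌋, ?_, (hP _ _).2 ⟨ht, rfl⟩⟩
      have h1 := abs_le.1 (hSX t ht)
      exact Finset.mem_filter.2 ⟨Finset.mem_Icc.2 ⟨Int.floor_le_floor h1.1, Int.floor_le_floor h1.2⟩,
        t, (hP _ _).2 ⟨ht, rfl⟩⟩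
    · rintro ⟨j, -, hj⟩
      exact hj.1
  have hPm : ∀ j, MeasurableSet (P j) := fun j => hS.inter measurableSet_Ico
  have hvol : ∀ j, volume (P j) ≤ 1 := by
    intro j
    refine (measure_mono Set.inter_subset_right).trans ?_
    rw [Real.volume_Ico]
    simp
  have hPi : ∀ j, IntegrableOn g (P j) := by
    intro j
    refine Measure.integrableOn_of_bounded (M := M) ((hvol j).trans_lt ENNReal.one_lt_top).ne
      hgm.aestronglyMeasurable ?_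
    refine Filter.Eventually.of_forall fun t => ?_
    rw [Real.norm_of_nonneg (hg t)]
    exact hM t
  have hdisj : (J : Set ℤ).Pairwise (Function.onFun Disjoint P) := by
    intro j _ j' _ hne
    rw [Function.onFun, Set.disjoint_left]
    intro t h1 h2
    exact hne (((hP j t).1 h1).2.symm.trans ((hP j' t).1 h2).2)
  have hint : ∫ t in S, g t = ∑ j ∈ J, ∫ t in P j, g t := by
    conv_lhs => rw [hU]
    exact integral_biUnion_finset J (fun j _ => hPm j) hdisj fun j _ => hPi j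
  have hone : ∀ j ∈ J, ∫ t in P j, g t ≤ 2 * g (τ j) := by
    intro j hj
    have h1 : ‖∫ t in P j, g t‖ ≤ 2 * g (τ j) * volume.real (P j) :=
      norm_setIntegral_le_of_norm_le_const ((hvol j).trans_lt ENNReal.one_lt_top) fun t ht => by
        rw [Real.norm_of_nonneg (hg t)]
        exact (hτ j hj).2 t ht
    have h2 : volume.real (P j) ≤ 1 := by
      rw [Measure.real]
      exact ENNReal.toReal_le_of_le_ofReal zero_le_one (by rw [ENNReal.ofReal_one]; exact hvol j)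
    have h3 := hg (τ j)
    have h4 := le_abs_self (∫ t in P j, g t)
    rw [Real.norm_eq_abs] at h1
    have h5 : (0 : ℝ) ≤ volume.real (P j) := measureReal_nonneg
    nlinarith
  refine ⟨(J.filter fun j => Even j).image τ, (J.filter fun j => ¬ Even j).image τ, ?_, ?_, ?_, ?_, ?_⟩
  · intro s hs t ht hst
    obtain ⟨j, hj, rfl⟩ := Finset.mem_image.1 hs
    obtain ⟨j', hj', rfl⟩ := Finset.mem_image.1 ht
    rw [Finset.mem_filter] at hj hj'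
    exact hdist j hj.1 j' hj'.1 ⟨fun _ => hj'.2, fun _ => hj.2⟩ hst
  · intro s hs t ht hst
    obtain ⟨j, hj, rfl⟩ := Finset.mem_image.1 hs
    obtain ⟨j', hj', rfl⟩ := Finset.mem_image.1 ht
    rw [Finset.mem_filter] at hj hj'
    exact hdist j hj.1 j' hj'.1 ⟨fun h => absurd h hj.2, fun h => absurd h hj'.2⟩ hst
  · intro s hs
    obtain ⟨j, hj, rfl⟩ := Finset.mem_image.1 hs
    exact hτS j (Finset.mem_filter.1 hj).1
  · intro s hs
    obtain ⟨j, hj, rfl⟩ := Finset.mem_image.1 hs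
    exact hτS j (Finset.mem_filter.1 hj).1
  · rw [Finset.sum_image, Finset.sum_image, Finset.sum_filter_add_sum_filter_not, Finset.mul_sum, hint]
    · exact Finset.sum_le_sum hone
    · exact fun j hj j' hj' h => hinj (Finset.mem_filter.1 hj).1 (Finset.mem_filter.1 hj').1 h
    · exact fun j hj j' hj' h => hinj (Finset.mem_filter.1 hj).1 (Finset.mem_filter.1 hj').1 h

end Pool.Agent.E3
end

section

/-!
# G1: Gaussian integrals
-/

set_option autoImplicit false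

namespace Pool.Agent.E3

open Finset MeasureTheory Real

/-- PROOF. `integrable_exp_neg_mul_sq` and translation. -/
theorem gs_integrable (β v : ℝ) (hβ : 0 < β) : Integrable (fun x : ℝ => gs β x v) := by
  have h := (integrable_exp_neg_mul_sq hβ).comp_sub_right v
  refine h.congr (Filter.Eventually.of_forall fun x => ?_)
  show Real.exp (-β * (x - v) ^ 2) = Real.exp (-(β * (x - v) ^ 2))
  rw [neg_mul]

/-- PROOF. `integral_gaussian` and translation. -/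
theorem gs_integral (β v : ℝ) (hβ : 0 < β) : ∫ x : ℝ, gs β x v = Real.sqrt (π / β) := by
  rw [← integral_gaussian β,
    ← integral_sub_right_eq_self (μ := volume) (fun t : ℝ => Real.exp (-β * t ^ 2)) v]
  refine integral_congr_ae (Filter.Eventually.of_forall fun x => ?_)
  show Real.exp (-(β * (x - v) ^ 2)) = Real.exp (-β * (x - v) ^ 2)
  rw [neg_mul]

private lemma G1_mul (p q v w x : ℝ) (hp : 0 < p) (hq : 0 < q) :
    gs p x v * gs q x w = Real.exp (-(p * q / (p + q) * (v - w) ^ 2)) *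
      gs (p + q) x ((p * v + q * w) / (p + q)) := by
  unfold gs
  rw [← Real.exp_add, ← Real.exp_add]
  congr 1
  have : p + q ≠ 0 := by positivity
  field_simp
  ring

/-- PROOF. `p (x-v)² + q (x-w)² = (p+q) (x - (p v + q w)/(p+q))² + (p q/(p+q)) (v-w)²`; `gs_integrable`. -/
theorem gs_mul_integrable (p q v w : ℝ) (hp : 0 < p) (hq : 0 < q) :
    Integrable (fun x : ℝ => gs p x v * gs q x w) := by
  simp only [G1_mul p q v w _ hp hq]
  exact (gs_integrable (p + q) _ (by positivity)).const_mul _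

/-- PROOF. `p (x-v)² + q (x-w)² = (p+q) (x - (p v + q w)/(p+q))² + (p q/(p+q)) (v-w)²`; `gs_integral`. -/
theorem gs_mul_integral (p q v w : ℝ) (hp : 0 < p) (hq : 0 < q) :
    ∫ x : ℝ, gs p x v * gs q x w
      = Real.sqrt (π / (p + q)) * Real.exp (-(p * q / (p + q) * (v - w) ^ 2)) := by
  simp only [G1_mul p q v w _ hp hq]
  rw [integral_const_mul, gs_integral (p + q) _ (by positivity), mul_comm]

/-- PROOF. The norm of the integrand is `exp (-(c y²))` (`‖ph y v‖ = 1`). -/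
theorem gs_fourier_integrable (c v : ℝ) (hc : 0 < c) :
    Integrable (fun y : ℝ => ((Real.exp (-(c * y ^ 2)) : ℝ) : ℂ) * ph y v) := by
  have h := gs_integrable c 0 hc
  refine h.mono' (Continuous.aestronglyMeasurable (by unfold ph; fun_prop))
    (Filter.Eventually.of_forall fun y => ?_)
  have h1 : ‖ph y v‖ = 1 := by
    unfold ph
    exact Complex.norm_exp_ofReal_mul_I _
  rw [norm_mul, h1, mul_one, Complex.norm_real, Real.norm_of_nonneg (Real.exp_pos _).le]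
  unfold gs
  rw [sub_zero]

/-- PROOF. The Fourier transform of the Gaussian (`fourierIntegral_gaussian` or `integral_cexp_quadratic`
in Mathlib): `∫ exp (- c y² - i y v) dy = √(π/c) exp (- v²/(4c))`. -/
theorem gs_fourier (c v : ℝ) (hc : 0 < c) :
    ∫ y : ℝ, ((Real.exp (-(c * y ^ 2)) : ℝ) : ℂ) * ph y v
      = ((Real.sqrt (π / c) * Real.exp (-(v ^ 2 / (4 * c))) : ℝ) : ℂ) := by
  have h1 : ∀ y : ℝ, ((Real.exp (-(c * y ^ 2)) : ℝ) : ℂ) * ph y v =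
      Complex.exp ((-(c : ℂ)) * (y : ℂ) ^ 2 + (-(v * Complex.I)) * y + 0) := by
    intro y
    unfold ph
    rw [Complex.ofReal_exp, ← Complex.exp_add]
    congr 1
    push_cast
    ring
  simp only [h1]
  have hre : (-(c : ℂ)).re < 0 := by
    rw [Complex.neg_re, Complex.ofReal_re]
    linarith
  rw [integral_cexp_quadratic hre, neg_neg]
  have hc0 : (c : ℂ) ≠ 0 := by exact_mod_cast hc.ne'
  have h2 : ((π : ℂ) / c) ^ (1 / 2 : ℂ) = ((Real.sqrt (π / c) : ℝ) : ℂ) := by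
    rw [Real.sqrt_eq_rpow, Complex.ofReal_cpow (by positivity)]
    push_cast
    rfl
  rw [h2, Complex.ofReal_mul, Complex.ofReal_exp]
  congr 2
  push_cast
  field_simp
  linear_combination ((v : ℂ) ^ 2) * Complex.I_sq

end Pool.Agent.E3
end
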