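import Pool.Agent.Lib.MP_bae66e_nt.Mg.G001

section

/-!
# B6a: the intervals `J_m`
-/

set_option autoImplicit false

namespace Pool.Agent.E3

open Finset MeasureTheory Real

/-- the `x` with `m - 2H/3 ≤ exp x ≤ m - H/3` -/
noncomputable def JJ (H m : ℕ) : Set ℝ :=
  Set.Icc (Real.log ((m : ℝ) - 2 * H / 3)) (Real.log ((m : ℝ) - H / 3))

private lemma B6a_log {a b : ℝ} (ha : 0 < a) (hab : a ≤ b) :
    (b - a) / b ≤ Real.log b - Real.log a := by
  have hb : 0 < b := by linarith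
  have h1 := Real.log_le_sub_one_of_pos (show 0 < a / b by positivity)
  rw [Real.log_div ha.ne' hb.ne'] at h1
  have h2 : (b - a) / b = 1 - a / b := by
    field_simp
  rw [h2]
  linarith

private lemma B6a_mem {H X m : ℕ} (hX : 100 * H ≤ X) (hm : m ∈ Icc X (2 * X)) :
    (X : ℝ) ≤ m ∧ (m : ℝ) ≤ 2 * X ∧ 100 * (H : ℝ) ≤ X := by
  obtain ⟨h1, h2⟩ := Finset.mem_Icc.1 hm
  exact ⟨by exact_mod_cast h1, by exact_mod_cast h2, by exact_mod_cast hX⟩

private lemma B6a_exp {H X m : ℕ} {x : ℝ} (hH : 1 ≤ H) (hX : 100 * H ≤ X)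
    (hm : m ∈ Icc X (2 * X)) (hx : x ∈ JJ H m) :
    (m : ℝ) - 2 * H / 3 ≤ Real.exp x ∧ Real.exp x ≤ (m : ℝ) - H / 3 := by
  obtain ⟨h1, h2, h3⟩ := B6a_mem hX hm
  have hHr : (1 : ℝ) ≤ H := by exact_mod_cast hH
  obtain ⟨h4, h5⟩ := hx
  exact ⟨(Real.log_le_iff_le_exp (by linarith)).1 h4, (Real.le_log_iff_exp_le (by linarith)).1 h5⟩

private lemma B6a_card (S : Finset ℕ) (α L : ℝ) (hα : 0 ≤ α) (hL : 0 ≤ L)
    (hS : ∀ m ∈ S, α ≤ (m : ℝ) ∧ (m : ℝ) ≤ α + L) : (#S : ℝ) ≤ L + 1 := by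
  have h1 : S ⊆ Finset.Icc ⌈α⌉₊ ⌊α + L⌋₊ := by
    intro m hm
    obtain ⟨h2, h3⟩ := hS m hm
    rw [Finset.mem_Icc]
    exact ⟨Nat.ceil_le.2 h2, Nat.le_floor h3⟩
  have h2 := Finset.card_le_card h1
  rw [Nat.card_Icc] at h2
  have h3 : (#S : ℝ) ≤ ((⌊α + L⌋₊ + 1 - ⌈α⌉₊ : ℕ) : ℝ) := by exact_mod_cast h2
  rcases le_or_gt ⌈α⌉₊ (⌊α + L⌋₊ + 1) with h4 | h4
  · rw [Nat.cast_sub h4] at h3
    have h5 := Nat.floor_le (show 0 ≤ α + L by linarith)
    have h6 := Nat.le_ceil α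
    push_cast at h3
    linarith
  · have h5 : ⌊α + L⌋₊ + 1 - ⌈α⌉₊ = 0 := by omega
    rw [h5, Nat.cast_zero] at h3
    linarith

/-- PROOF. `m - 2H/3 ≥ X (1 - 1/100)` and `m - H/3 ≤ 2 X`, `log 2 ≤ 1`, `log (99/100) ≥ -1`. -/
theorem JJ_sub (H X m : ℕ) (hH : 1 ≤ H) (hX : 100 * H ≤ X) (hm : m ∈ Icc X (2 * X)) :
    JJ H m ⊆ Set.Icc (Real.log X - 1) (Real.log X + 1) := by
  obtain ⟨h1, h2, h3⟩ := B6a_mem hX hm
  have hHr : (1 : ℝ) ≤ H := by exact_mod_cast hH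
  have hX0 : (0 : ℝ) < X := by linarith
  have hl2 : Real.log 2 ≤ 1 := by
    have := Real.log_le_sub_one_of_pos (show (0 : ℝ) < 2 by norm_num)
    linarith
  refine Set.Icc_subset_Icc ?_ ?_
  · have h4 : Real.log ((X : ℝ) / 2) ≤ Real.log ((m : ℝ) - 2 * H / 3) :=
      Real.log_le_log (by positivity) (by linarith)
    rw [Real.log_div hX0.ne' (by norm_num)] at h4
    linarith
  · have h4 : Real.log ((m : ℝ) - H / 3) ≤ Real.log (2 * (X : ℝ)) :=
      Real.log_le_log (by linarith) (by linarith)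
    rw [Real.log_mul (by norm_num) hX0.ne'] at h4
    linarith

/-- PROOF. `log (b/a) ≥ 1 - a/b = (b - a)/b` with `b - a = H/3`, `b ≤ 2 X`. -/
theorem JJ_len (H X m : ℕ) (hH : 1 ≤ H) (hX : 100 * H ≤ X) (hm : m ∈ Icc X (2 * X)) :
    (H : ℝ) / (6 * X) ≤ Real.log ((m : ℝ) - H / 3) - Real.log ((m : ℝ) - 2 * H / 3) := by
  obtain ⟨h1, h2, h3⟩ := B6a_mem hX hm
  have hHr : (1 : ℝ) ≤ H := by exact_mod_cast hH
  have hX0 : (0 : ℝ) < X := by linarith
  have h4 := B6a_log (a := (m : ℝ) - 2 * H / 3) (b := (m : ℝ) - H / 3) (by linarith)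
    (by linarith)
  refine le_trans ?_ h4
  have h5 : (m : ℝ) - H / 3 - (m - 2 * H / 3) = H / 3 := by ring
  rw [h5, div_le_div_iff₀ (by positivity) (by linarith)]
  nlinarith

open Classical in
/-- PROOF. `x ∈ JJ H m` means `exp x + H/3 ≤ m ≤ exp x + 2H/3`: at most `H/3 + 1` integers. -/
theorem JJ_count (H X : ℕ) (hH : 1 ≤ H) (hX : 100 * H ≤ X) (x : ℝ) :
    (#{m ∈ Icc X (2 * X) | x ∈ JJ H m} : ℝ) ≤ (H : ℝ) / 3 + 1 := by
  rcases Finset.eq_empty_or_nonempty ({m ∈ Icc X (2 * X) | x ∈ JJ H m}) with h0 | ⟨m₀, hm₀⟩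
  · rw [h0, Finset.card_empty, Nat.cast_zero]
    positivity
  · refine B6a_card _ (Real.exp x + H / 3) ((H : ℝ) / 3) (by positivity) (by positivity) ?_
    intro m hm
    rw [Finset.mem_filter] at hm
    obtain ⟨h1, h2⟩ := B6a_exp hH hX hm.1 hm.2
    constructor
    · linarith
    · linarith

/-- PROOF. Let `y = exp x ∈ [m - 2H/3, m - H/3]`, `y ≤ 2 X`. If `n ≥ m` then `n ≥ y + H/3`, so
`log n - x ≥ log (1 + H/(3y)) ≥ log (1 + H/(6X)) ≥ H/(12 X)`. If `n < m - H` (as an integer inequality `n + H < m`, because `m ≥ H`) then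
`n ≤ y - H/3` and `x - log n ≥ 1 - n/y ≥ H/(3y) ≥ H/(6X)`. -/
theorem JJ_far (H X m n : ℕ) (x : ℝ) (hH : 1 ≤ H) (hX : 100 * H ≤ X) (hm : m ∈ Icc X (2 * X)) (hn : 1 ≤ n)
    (hx : x ∈ JJ H m) (hnm : n ∉ Ico (m - H) m) : (H : ℝ) / (12 * X) ≤ |x - Real.log n| := by
  obtain ⟨h1, h2, h3⟩ := B6a_mem hX hm
  obtain ⟨h4, h5⟩ := B6a_exp hH hX hm hx
  have hHr : (1 : ℝ) ≤ H := by exact_mod_cast hH
  have hX0 : (0 : ℝ) < X := by linarith
  have hn0 : (1 : ℝ) ≤ n := by exact_mod_cast hn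
  have hy0 : 0 < Real.exp x := Real.exp_pos x
  have hb : ∀ b : ℝ, 0 < b → b ≤ 2 * X → (H : ℝ) / (12 * X) ≤ (H / 3) / b := by
    intro b hb0 hb1
    rw [div_le_div_iff₀ (by positivity) hb0]
    nlinarith
  rw [Finset.mem_Ico, not_and_or, not_le, not_lt] at hnm
  rcases hnm with h6 | h6
  · have h7 : n + H < m := by omega
    have h8 : (n : ℝ) + H < m := by exact_mod_cast h7
    have h9 := B6a_log (a := (n : ℝ)) (b := Real.exp x) (by linarith) (by linarith)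
    rw [Real.log_exp] at h9
    have h10 := hb (Real.exp x) hy0 (by linarith)
    have h11 : (H / 3 : ℝ) / Real.exp x ≤ (Real.exp x - n) / Real.exp x :=
      div_le_div_of_nonneg_right (by linarith) hy0.le
    exact (h10.trans (h11.trans h9)).trans (le_abs_self _)
  · have h7 : (m : ℝ) ≤ n := by exact_mod_cast h6
    have h8 : Real.log m ≤ Real.log n := Real.log_le_log (by linarith) h7
    have h9 := B6a_log (a := Real.exp x) (b := (m : ℝ)) hy0 (by linarith)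
    rw [Real.log_exp] at h9
    have h10 := hb (m : ℝ) (by linarith) h2
    have h11 : (H / 3 : ℝ) / m ≤ (m - Real.exp x) / m :=
      div_le_div_of_nonneg_right (by linarith) (by linarith)
    rw [abs_sub_comm]
    exact (h10.trans (h11.trans (h9.trans (by linarith)))).trans (le_abs_self _)

/-- PROOF. With `v² ≥ (K d/12)²`: `exp (- v²/(2d²)) = exp (- v²/(4d²)) exp (- v²/(4d²)) ≤ exp (- K²/576) exp (- v²/(4d²))`, and
`gsn (√2 d) v = (1/(√2 d)) exp (- v²/(4d²))`. -/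
theorem gsn_far (d K v : ℝ) (hd : 0 < d) (hK : 0 ≤ K) (hv : K * d / 12 ≤ |v|) :
    gsn d v ≤ Real.exp (-(K ^ 2 / 576)) * (Real.sqrt 2 * gsn (Real.sqrt 2 * d) v) := by
  unfold gsn
  have h2 : (0 : ℝ) < Real.sqrt 2 := Real.sqrt_pos.2 (by norm_num)
  have h3 : (Real.sqrt 2) ^ 2 = 2 := Real.sq_sqrt (by norm_num)
  have h4 : Real.sqrt 2 * (1 / (Real.sqrt 2 * d) * Real.exp (-(v ^ 2 / (2 * (Real.sqrt 2 * d) ^ 2))))
      = 1 / d * Real.exp (-(v ^ 2 / (4 * d ^ 2))) := by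
    rw [mul_pow, h3, ← mul_assoc]
    congr 1
    · field_simp
    · congr 3
      ring
  rw [h4]
  have h5 : Real.exp (-(v ^ 2 / (2 * d ^ 2))) = Real.exp (-(v ^ 2 / (4 * d ^ 2))) *
      Real.exp (-(v ^ 2 / (4 * d ^ 2))) := by
    rw [← Real.exp_add]
    congr 1
    field_simp
    ring
  have h6 : K ^ 2 / 576 ≤ v ^ 2 / (4 * d ^ 2) := by
    rw [div_le_div_iff₀ (by norm_num) (by positivity)]
    have h7 : (K * d / 12) ^ 2 ≤ v ^ 2 := by
      rw [← sq_abs v]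
      exact pow_le_pow_left₀ (by positivity) hv 2
    nlinarith
  have h8 : Real.exp (-(v ^ 2 / (4 * d ^ 2))) ≤ Real.exp (-(K ^ 2 / 576)) :=
    Real.exp_le_exp.2 (by linarith)
  rw [h5]
  have h9 : 0 ≤ 1 / d * Real.exp (-(v ^ 2 / (4 * d ^ 2))) := by positivity
  calc 1 / d * (Real.exp (-(v ^ 2 / (4 * d ^ 2))) * Real.exp (-(v ^ 2 / (4 * d ^ 2))))
      = Real.exp (-(v ^ 2 / (4 * d ^ 2))) * (1 / d * Real.exp (-(v ^ 2 / (4 * d ^ 2)))) := by ring
    _ ≤ Real.exp (-(K ^ 2 / 576)) * (1 / d * Real.exp (-(v ^ 2 / (4 * d ^ 2)))) :=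
        mul_le_mul_of_nonneg_right h8 h9

end Pool.Agent.E3
end

section

/-!
# B6b: double counting
-/

set_option autoImplicit false

namespace Pool.Agent.E3

open Finset MeasureTheory Real

/-- PROOF. `∑_m ∫_{J_m} g = ∑_m ∫_I 1_{J_m} g = ∫_I (∑_m 1_{J_m}) g ≤ (H/3 + 1) ∫_I g` with `I = [log X - 1, log X + 1]` (`JJ_sub`,
`JJ_count`). -/
theorem sum_JJ (H X : ℕ) (g : ℝ → ℝ) (hH : 1 ≤ H) (hX : 100 * H ≤ X) (hg : ∀ x, 0 ≤ g x)
    (hgi : IntegrableOn g (Set.Icc (Real.log X - 1) (Real.log X + 1))) :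
    ∑ m ∈ Icc X (2 * X), ∫ x in JJ H m, g x
      ≤ ((H : ℝ) / 3 + 1) * ∫ x in Set.Icc (Real.log X - 1) (Real.log X + 1), g x := by
  classical
  have hmeas : ∀ m, MeasurableSet (JJ H m) := fun m => measurableSet_Icc
  have h1 : ∀ m ∈ Icc X (2 * X), ∫ x in JJ H m, g x =
      ∫ x in Set.Icc (Real.log X - 1) (Real.log X + 1), (JJ H m).indicator g x := by
    intro m hm
    rw [setIntegral_indicator (hmeas m), Set.inter_eq_self_of_subset_right (JJ_sub H X m hH hX hm)]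
  have h2 : ∀ m ∈ Icc X (2 * X), IntegrableOn ((JJ H m).indicator g)
      (Set.Icc (Real.log X - 1) (Real.log X + 1)) := by
    intro m hm
    exact hgi.indicator (hmeas m)
  rw [Finset.sum_congr rfl h1, ← integral_finsetSum _ h2, ← integral_const_mul]
  apply integral_mono_ae
  · exact integrable_finsetSum _ h2
  · exact hgi.const_mul _
  · refine Filter.Eventually.of_forall ?_
    intro x
    have h3 : ∑ m ∈ Icc X (2 * X), (JJ H m).indicator g x =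
        (#{m ∈ Icc X (2 * X) | x ∈ JJ H m} : ℝ) * g x := by
      rw [← nsmul_eq_mul, ← Finset.sum_const, Finset.sum_filter]
      apply Finset.sum_congr rfl
      intro m hm
      rw [Set.indicator_apply]
    show ∑ m ∈ Icc X (2 * X), (JJ H m).indicator g x ≤ ((H : ℝ) / 3 + 1) * g x
    rw [h3]
    refine mul_le_mul_of_nonneg_right ?_ (hg x)
    convert JJ_count H X hH hX x

open Classical in
/-- PROOF. Markov: `#bad · H B/(24X) ≤ ∑_m ∫_{J_m} g ≤ (H/3 + 1) ∫ g ≤ (4H/3) ∫ g`. -/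
theorem markov_JJ (H X : ℕ) (g : ℝ → ℝ) (B : ℝ) (hH : 1 ≤ H) (hX : 100 * H ≤ X) (hB : 0 < B) (hg : ∀ x, 0 ≤ g x)
    (hgi : IntegrableOn g (Set.Icc (Real.log X - 1) (Real.log X + 1))) :
    (#{m ∈ Icc X (2 * X) | H * B / (24 * X) ≤ ∫ x in JJ H m, g x} : ℝ)
      ≤ 32 * X / B * ∫ x in Set.Icc (Real.log X - 1) (Real.log X + 1), g x := by
  have h1 := sum_JJ H X g hH hX hg hgi
  have hHr : (1 : ℝ) ≤ H := by exact_mod_cast hH
  have hXr : 100 * (H : ℝ) ≤ X := by exact_mod_cast hX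
  have hX0 : (0 : ℝ) < X := by linarith
  set I := ∫ x in Set.Icc (Real.log X - 1) (Real.log X + 1), g x with hI
  have hI0 : 0 ≤ I := integral_nonneg hg
  have h2 : (#{m ∈ Icc X (2 * X) | H * B / (24 * X) ≤ ∫ x in JJ H m, g x} : ℝ) * (H * B / (24 * X))
      ≤ ∑ m ∈ Icc X (2 * X), ∫ x in JJ H m, g x := by
    rw [← nsmul_eq_mul, ← Finset.sum_const]
    calc ∑ m ∈ Icc X (2 * X) with H * B / (24 * X) ≤ ∫ x in JJ H m, g x, (H * B / (24 * X))
        ≤ ∑ m ∈ Icc X (2 * X) with H * B / (24 * X) ≤ ∫ x in JJ H m, g x, ∫ x in JJ H m, g x := by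
          apply Finset.sum_le_sum
          intro m hm
          exact (Finset.mem_filter.1 hm).2
      _ ≤ _ := by
          apply Finset.sum_le_sum_of_subset_of_nonneg (Finset.filter_subset _ _)
          intro m _ _
          exact integral_nonneg hg
  have h3 : (H : ℝ) / 3 + 1 ≤ 4 * H / 3 := by linarith
  have h4 : ((H : ℝ) / 3 + 1) * I ≤ 4 * H / 3 * I := mul_le_mul_of_nonneg_right h3 hI0
  have h5 : (0 : ℝ) < H * B / (24 * X) := by positivity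
  set c := (#{m ∈ Icc X (2 * X) | H * B / (24 * X) ≤ ∫ x in JJ H m, g x} : ℝ) with hc
  have h6 : c * (H * B / (24 * X)) ≤ 4 * H / 3 * I := by linarith
  have h7 : 32 * X / B * I = 4 * H / 3 * I / (H * B / (24 * X)) := by
    field_simp
    ring
  rw [h7, le_div_iff₀ h5]
  exact h6

end Pool.Agent.E3
end

section

/-!
# MVg1: the Gaussian mean value identity
-/

set_option autoImplicit false

namespace Pool.Agent.E3

open Finset MeasureTheory Real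

/-- PROOF. The Fourier transform of the Gaussian (Mathlib, e.g. `fourierIntegral_gaussian` or `integral_cexp_quadratic`):
`∫ exp (- Δ² t²) exp (- i t v) dt = (√π / Δ) exp (- v² / (4 Δ²))`. -/
theorem gauss_int (Δ : ℝ) (hΔ : 0 < Δ) (v : ℝ) :
    ∫ t : ℝ, ((Real.exp (-(Δ * t) ^ 2) : ℝ) : ℂ) * ph t v
      = ((Real.sqrt π / Δ * Real.exp (-(v ^ 2 / (4 * Δ ^ 2))) : ℝ) : ℂ) := by
  have hb : ((-(Δ ^ 2) : ℝ) : ℂ).re < 0 := by
    rw [Complex.ofReal_re]; have := pow_pos hΔ 2; linarith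
  have h := integral_cexp_quadratic hb (-(v * Complex.I)) 0
  have e1 : ∀ t : ℝ, ((Real.exp (-(Δ * t) ^ 2) : ℝ) : ℂ) * ph t v
      = Complex.exp (((-(Δ ^ 2) : ℝ) : ℂ) * (t : ℂ) ^ 2 + (-(v * Complex.I)) * t + 0) := by
    intro t
    unfold ph
    rw [Complex.ofReal_exp, ← Complex.exp_add]
    congr 1
    push_cast
    ring
  simp_rw [e1]
  rw [h]
  have hΔ2 : (Δ : ℂ) ≠ 0 := by exact_mod_cast hΔ.ne'
  have e2 : ((π : ℂ) / -((-(Δ ^ 2) : ℝ) : ℂ)) ^ (1 / 2 : ℂ) = ((Real.sqrt π / Δ : ℝ) : ℂ) := by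
    have e3 : ((π : ℂ) / -((-(Δ ^ 2) : ℝ) : ℂ)) = ((π / Δ ^ 2 : ℝ) : ℂ) := by
      push_cast
      rw [neg_neg]
    rw [e3, show (1 / 2 : ℂ) = (((1 / 2 : ℝ)) : ℂ) by push_cast; rfl,
      ← Complex.ofReal_cpow (by positivity), ← Real.sqrt_eq_rpow, Real.sqrt_div Real.pi_pos.le,
      Real.sqrt_sq hΔ.le]
  rw [e2, Complex.ofReal_mul, Complex.ofReal_exp]
  congr 2
  push_cast
  have : (v * Complex.I : ℂ) ^ 2 = -(v : ℂ) ^ 2 := by
    rw [mul_pow, Complex.I_sq]; ring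
  rw [neg_sq, this]
  field_simp
  ring

lemma MVg1_norm_ph (t v : ℝ) : ‖ph t v‖ = 1 := by
  unfold ph
  exact Complex.norm_exp_ofReal_mul_I _

lemma MVg1_cont_ph (v : ℝ) : Continuous (fun t : ℝ => ph t v) := by
  unfold ph
  fun_prop

lemma MVg1_int_exp (Δ : ℝ) (hΔ : 0 < Δ) : Integrable (fun t : ℝ => Real.exp (-(Δ * t) ^ 2)) := by
  have h := integrable_exp_neg_mul_sq (b := Δ ^ 2) (by positivity)
  refine h.congr (Filter.Eventually.of_forall fun t => ?_)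
  simp only
  congr 1
  ring

/-- PROOF. A continuous bounded function times an integrable Gaussian. -/
theorem gauss_mv_integrable {ι : Type*} (s : Finset ι) (x : ι → ℂ) (y : ι → ℝ) (Δ : ℝ) (hΔ : 0 < Δ) :
    Integrable (fun t : ℝ => Real.exp (-(Δ * t) ^ 2) * ‖∑ i ∈ s, x i * ph t (y i)‖ ^ 2) := by
  have hc : Continuous (fun t : ℝ => ‖∑ i ∈ s, x i * ph t (y i)‖ ^ 2) := by
    refine Continuous.pow (Continuous.norm (continuous_finset_sum _ fun i _ => ?_)) 2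
    exact continuous_const.mul (MVg1_cont_ph (y i))
  refine Integrable.mono' ((MVg1_int_exp Δ hΔ).mul_const ((∑ i ∈ s, ‖x i‖) ^ 2)) ?_ ?_
  · refine Continuous.aestronglyMeasurable ?_
    exact (by fun_prop : Continuous (fun t : ℝ => Real.exp (-(Δ * t) ^ 2))).mul hc
  · refine Filter.Eventually.of_forall fun t => ?_
    rw [Real.norm_eq_abs, abs_of_nonneg (by positivity)]
    refine mul_le_mul_of_nonneg_left ?_ (Real.exp_pos _).le
    refine pow_le_pow_left₀ (norm_nonneg _) ?_ 2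
    refine (norm_sum_le _ _).trans (Finset.sum_le_sum fun i _ => ?_)
    rw [norm_mul, MVg1_norm_ph, mul_one]

lemma MVg1_ph_conj (t u v : ℝ) : ph t u * (starRingEnd ℂ) (ph t v) = ph t (u - v) := by
  unfold ph
  rw [← Complex.exp_conj, ← Complex.exp_add]
  congr 1
  rw [map_mul, Complex.conj_ofReal, Complex.conj_I]
  push_cast
  ring

lemma MVg1_expand {ι : Type*} (s : Finset ι) (x : ι → ℂ) (y : ι → ℝ) (t : ℝ) :
    ‖∑ i ∈ s, x i * ph t (y i)‖ ^ 2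
      = (∑ i ∈ s, ∑ j ∈ s, x i * (starRingEnd ℂ) (x j) * ph t (y i - y j)).re := by
  have h : ((‖∑ i ∈ s, x i * ph t (y i)‖ ^ 2 : ℝ) : ℂ)
      = ∑ i ∈ s, ∑ j ∈ s, x i * (starRingEnd ℂ) (x j) * ph t (y i - y j) := by
    rw [Complex.ofReal_pow, ← Complex.mul_conj', map_sum, Finset.sum_mul_sum]
    refine Finset.sum_congr rfl fun i _ => Finset.sum_congr rfl fun j _ => ?_
    rw [map_mul, ← MVg1_ph_conj]
    ring
  rw [← h, Complex.ofReal_re]

/-- PROOF. `‖∑ x_i ph t (y_i)‖² = Re ∑_i ∑_j x_i conj(x_j) ph t (y_i - y_j)`; integrate term by term (`gauss_int`); the integral is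
`(√π/Δ) ∑∑ Re (x_i conj x_j) exp (- (y_i - y_j)²/(4Δ²))`, and `Re (x_i conj x_j) ≤ ‖x_i‖ ‖x_j‖`. -/
theorem gauss_mv {ι : Type*} (s : Finset ι) (x : ι → ℂ) (y : ι → ℝ) (Δ : ℝ) (hΔ : 0 < Δ) :
    ∫ t : ℝ, Real.exp (-(Δ * t) ^ 2) * ‖∑ i ∈ s, x i * ph t (y i)‖ ^ 2
      ≤ Real.sqrt π / Δ * ∑ i ∈ s, ∑ j ∈ s,
          ‖x i‖ * ‖x j‖ * Real.exp (-((y i - y j) ^ 2 / (4 * Δ ^ 2))) := by
  have hint : ∀ v : ℝ, Integrable (fun t : ℝ => ((Real.exp (-(Δ * t) ^ 2) : ℝ) : ℂ) * ph t v) := by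
    intro v
    refine Integrable.mono' (MVg1_int_exp Δ hΔ) ?_ ?_
    · refine Continuous.aestronglyMeasurable ?_
      exact (Complex.continuous_ofReal.comp
        (by fun_prop : Continuous (fun t : ℝ => Real.exp (-(Δ * t) ^ 2)))).mul (MVg1_cont_ph v)
    · refine Filter.Eventually.of_forall fun t => ?_
      rw [norm_mul, MVg1_norm_ph, mul_one, Complex.norm_real, Real.norm_eq_abs,
        abs_of_nonneg (Real.exp_pos _).le]
  have e1 : ∀ t : ℝ, Real.exp (-(Δ * t) ^ 2) * ‖∑ i ∈ s, x i * ph t (y i)‖ ^ 2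
      = (∑ i ∈ s, ∑ j ∈ s, x i * (starRingEnd ℂ) (x j)
          * (((Real.exp (-(Δ * t) ^ 2) : ℝ) : ℂ) * ph t (y i - y j))).re := by
    intro t
    rw [MVg1_expand, ← Complex.re_ofReal_mul, Finset.mul_sum]
    congr 1
    refine Finset.sum_congr rfl fun i _ => ?_
    rw [Finset.mul_sum]
    refine Finset.sum_congr rfl fun j _ => ?_
    ring
  have hI : ∀ i j, Integrable (fun t : ℝ => x i * (starRingEnd ℂ) (x j)
      * (((Real.exp (-(Δ * t) ^ 2) : ℝ) : ℂ) * ph t (y i - y j))) := fun i j =>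
    (hint _).const_mul _
  simp_rw [e1]
  have e2 : ∫ t : ℝ, (∑ i ∈ s, ∑ j ∈ s, x i * (starRingEnd ℂ) (x j)
          * (((Real.exp (-(Δ * t) ^ 2) : ℝ) : ℂ) * ph t (y i - y j))).re
      = (∫ t : ℝ, ∑ i ∈ s, ∑ j ∈ s, x i * (starRingEnd ℂ) (x j)
          * (((Real.exp (-(Δ * t) ^ 2) : ℝ) : ℂ) * ph t (y i - y j))).re := by
    have := integral_re (𝕜 := ℂ) (μ := volume) (f := fun t : ℝ => ∑ i ∈ s, ∑ j ∈ s, x i * (starRingEnd ℂ) (x j)
          * (((Real.exp (-(Δ * t) ^ 2) : ℝ) : ℂ) * ph t (y i - y j)))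
        (integrable_finset_sum _ fun i _ => integrable_finset_sum _ fun j _ => hI i j)
    simpa using this
  rw [e2, integral_finset_sum _ fun i _ => integrable_finset_sum _ fun j _ => hI i j, Complex.re_sum,
    Finset.mul_sum]
  refine Finset.sum_le_sum fun i _ => ?_
  rw [integral_finset_sum _ fun j _ => hI i j, Complex.re_sum, Finset.mul_sum]
  refine Finset.sum_le_sum fun j _ => ?_
  rw [integral_const_mul, gauss_int Δ hΔ]
  have hK : 0 ≤ Real.sqrt π / Δ * Real.exp (-((y i - y j) ^ 2 / (4 * Δ ^ 2))) := by positivity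
  rw [mul_comm (x i * (starRingEnd ℂ) (x j)), Complex.re_ofReal_mul]
  calc Real.sqrt π / Δ * Real.exp (-((y i - y j) ^ 2 / (4 * Δ ^ 2))) * (x i * (starRingEnd ℂ) (x j)).re
      ≤ Real.sqrt π / Δ * Real.exp (-((y i - y j) ^ 2 / (4 * Δ ^ 2))) * (‖x i‖ * ‖x j‖) := by
        refine mul_le_mul_of_nonneg_left ?_ hK
        refine (Complex.re_le_norm _).trans ?_
        rw [norm_mul, RCLike.norm_conj]
    _ = _ := by ring

end Pool.Agent.E3
end
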