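import Pool.Agent.Lib.MP_bae66e_nt.Mg.G006
import Pool.Agent.Lib.MP_bae66e_nt.Mg.G007
import Pool.Agent.Lib.MP_bae66e_nt.Mg.G003
import Pool.Agent.Lib.MP_bae66e_nt.Mg.G002
import Pool.Agent.Lib.MP_bae66e_nt.Mg.G001

section

/-!
# B6c: from Gaussian windows to intervals of integers
-/

set_option autoImplicit false

namespace Pool.Agent.E3

open Finset MeasureTheory Real

private theorem B6c_gsn_nonneg (L v : ℝ) (hL : 0 < L) : 0 ≤ gsn L v := by
  unfold gsn; positivity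

private theorem B6c_sqrt_two_pi : Real.sqrt (2 * π) ≤ 2.574 := by
  rw [Real.sqrt_le_left (by norm_num)]
  have := Real.pi_lt_d4
  linarith

private theorem B6c_sqrt_two : Real.sqrt 2 * Real.sqrt (2 * π) ≤ 4 := by
  rw [← Real.sqrt_mul (by norm_num), Real.sqrt_le_left (by norm_num)]
  have := Real.pi_lt_d4
  linarith

open Classical in
/-- PROOF. Let `d = H/(K X)`, `S x = ∑ (u/n) gsn d (x - log n)`, and let `G x = exp (- K²/576) ∑ (u/n) √2 gsn (√2 d) (x - log n)`; by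
`gsn_integral` `∫ G ≤ exp (- K²/576) √2 √(2π) M ≤ 4 exp (- K²/576) M`. For `m` in `[X, 2X]` let `U m` be the sum of the `u p`
with `n p ∈ [m - H, m)`. For `x ∈ J_m` the terms of `S x` with `n p ∉ [m - H, m)` add up to at most `G x`
(`JJ_far`: `|x - log n| ≥ H/(12X) = K d/12`, `gsn_far`), and the integral over `J_m` of the others is `≤ √(2π) ∑ u p/n p`
`≤ (2.6/X) U m` (`n p ≥ X - H ≥ 0.99 X`). With `JJ_len` and `hlow` (on `J_m ⊆ [log X - 1, log X + 1]`):
`H B/(6X) ≤ B |J_m| ≤ (2.6/X) U m + ∫_{J_m} G + ∫_{J_m} E`. If both last integrals are `< H B/(24X)` then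
`U m > H B/(12 · 2.6) ≥ H B/50`. So the bad `m` are in the two sets of `markov_JJ` for `g = G` and `g = E`:
their number is `≤ (32 X/B)(4 exp (- K²/576) M + η)`. -/
theorem win_to_m {ι : Type} (P : Finset ι) (n : ι → ℕ) (u : ι → ℝ) (H X : ℕ) (K B η M : ℝ) (E : ℝ → ℝ)
    (hn : ∀ p ∈ P, 1 ≤ n p) (hu : ∀ p ∈ P, 0 ≤ u p) (hH : 1 ≤ H) (hX : 100 * H ≤ X) (hK : 1 ≤ K) (hB : 0 < B)
    (hE : ∀ x, 0 ≤ E x) (hEi : IntegrableOn E (Set.Icc (Real.log X - 1) (Real.log X + 1)))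
    (hEη : ∫ x in Set.Icc (Real.log X - 1) (Real.log X + 1), E x ≤ η)
    (hM : ∑ p ∈ P, u p / n p ≤ M)
    (hlow : ∀ x ∈ Set.Icc (Real.log X - 1) (Real.log X + 1),
      B ≤ ∑ p ∈ P, u p / n p * gsn (H / (K * X)) (x - Real.log (n p)) + E x) :
    (#{m ∈ Icc X (2 * X) | ∑ p ∈ P with n p ∈ Ico (m - H) m, u p < H * B / 50} : ℝ)
      ≤ X / B * (32 * η + 130 * Real.exp (-(K ^ 2 / 576)) * M) := by
  set I : Set ℝ := Set.Icc (Real.log X - 1) (Real.log X + 1) with hI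
  have hH0 : (0 : ℝ) < H := by exact_mod_cast hH
  have hX100 : (100 : ℝ) * H ≤ X := by exact_mod_cast hX
  have hX0 : (0 : ℝ) < X := by linarith
  have hK0 : 0 < K := by linarith
  set d : ℝ := (H : ℝ) / (K * X) with hd
  have hd0 : 0 < d := by positivity
  have hKd : K * d / 12 = (H : ℝ) / (12 * X) := by
    rw [hd]
    field_simp
  set ex : ℝ := Real.exp (-(K ^ 2 / 576)) with hex
  have hex0 : 0 < ex := Real.exp_pos _
  have hs2 : (0 : ℝ) < Real.sqrt 2 := Real.sqrt_pos.mpr (by norm_num)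
  have hsd0 : 0 < Real.sqrt 2 * d := by positivity
  set G : ℝ → ℝ := fun x => ex * ∑ p ∈ P, u p / n p * (Real.sqrt 2 * gsn (Real.sqrt 2 * d) (x - Real.log (n p))) with hG
  have hun : ∀ p ∈ P, 0 ≤ u p / n p := fun p hp => div_nonneg (hu p hp) (Nat.cast_nonneg _)
  have hG0 : ∀ x, 0 ≤ G x := by
    intro x
    refine mul_nonneg hex0.le (Finset.sum_nonneg fun p hp => mul_nonneg (hun p hp) ?_)
    exact mul_nonneg hs2.le (B6c_gsn_nonneg _ _ hsd0)
  have hGt : ∀ p ∈ P, Integrable (fun x : ℝ => u p / n p * (Real.sqrt 2 * gsn (Real.sqrt 2 * d) (x - Real.log (n p)))) :=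
    fun p _ => ((gsn_integral (Real.sqrt 2 * d) (Real.log (n p)) hsd0).1.const_mul _).const_mul _
  have hGi : Integrable G := (integrable_finsetSum _ hGt).const_mul ex
  have hGint : ∫ x, G x ≤ 4 * ex * M := by
    simp only [hG]
    rw [integral_const_mul, integral_finsetSum _ hGt]
    have h1 : ∀ p ∈ P, ∫ x : ℝ, u p / n p * (Real.sqrt 2 * gsn (Real.sqrt 2 * d) (x - Real.log (n p)))
        = u p / n p * (Real.sqrt 2 * Real.sqrt (2 * π)) := by
      intro p _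
      rw [integral_const_mul, integral_const_mul, (gsn_integral (Real.sqrt 2 * d) (Real.log (n p)) hsd0).2]
    rw [Finset.sum_congr rfl h1, ← Finset.sum_mul]
    have hs0 : 0 ≤ ∑ p ∈ P, u p / n p := Finset.sum_nonneg hun
    calc ex * ((∑ p ∈ P, u p / n p) * (Real.sqrt 2 * Real.sqrt (2 * π)))
        ≤ ex * ((∑ p ∈ P, u p / n p) * 4) := by
          have := B6c_sqrt_two
          gcongr
      _ ≤ ex * (M * 4) := by gcongr
      _ = _ := by ring
  have hGI : ∫ x in I, G x ≤ 4 * ex * M :=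
    (setIntegral_le_integral hGi (Filter.Eventually.of_forall hG0)).trans hGint
  -- the key inequality for one m
  have key : ∀ m ∈ Icc X (2 * X), (H : ℝ) * B / (6 * X)
      ≤ 2.6 / X * (∑ p ∈ P with n p ∈ Ico (m - H) m, u p) + (∫ x in JJ H m, G x) + ∫ x in JJ H m, E x := by
    intro m hm
    have hmX : X ≤ m := (Finset.mem_Icc.mp hm).1
    have hJI := JJ_sub H X m hH hX hm
    have hJm : MeasurableSet (JJ H m) := measurableSet_Icc
    set Q := P.filter (fun p => n p ∈ Ico (m - H) m) with hQ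
    set N : ℝ → ℝ := fun x => ∑ p ∈ Q, u p / n p * gsn d (x - Real.log (n p)) with hN
    have hNt : ∀ p ∈ Q, Integrable (fun x : ℝ => u p / n p * gsn d (x - Real.log (n p))) :=
      fun p _ => (gsn_integral d (Real.log (n p)) hd0).1.const_mul _
    have hNi : Integrable N := integrable_finsetSum _ hNt
    have hN0 : ∀ x, 0 ≤ N x := fun x => Finset.sum_nonneg fun p hp =>
      mul_nonneg (hun p (Finset.mem_filter.mp hp).1) (B6c_gsn_nonneg _ _ hd0)
    have hNint : ∫ x in JJ H m, N x ≤ 2.6 / X * ∑ p ∈ Q, u p := by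
      refine (setIntegral_le_integral hNi (Filter.Eventually.of_forall hN0)).trans ?_
      simp only [hN]
      rw [integral_finsetSum _ hNt, Finset.mul_sum]
      refine Finset.sum_le_sum fun p hp => ?_
      rw [integral_const_mul, (gsn_integral d (Real.log (n p)) hd0).2]
      rw [hQ, Finset.mem_filter, Finset.mem_Ico] at hp
      have hup := hu p hp.1
      have hnp : (0.99 : ℝ) * X ≤ n p := by
        have h1 : m ≤ n p + H := by omega
        have h2 : (m : ℝ) ≤ n p + H := by exact_mod_cast h1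
        have h3 : (X : ℝ) ≤ m := by exact_mod_cast hmX
        linarith
      have hnp0 : (0 : ℝ) < n p := by
        have : (0 : ℝ) < 0.99 * X := by positivity
        linarith
      calc u p / n p * Real.sqrt (2 * π) ≤ u p / (0.99 * X) * 2.574 := by
            have := B6c_sqrt_two_pi
            gcongr
        _ = 2.6 / X * u p := by
            field_simp
            ring
    have hpt : ∀ x ∈ JJ H m, B ≤ N x + G x + E x := by
      intro x hx
      refine (hlow x (hJI hx)).trans ?_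
      have h1 : ∑ p ∈ P, u p / n p * gsn d (x - Real.log (n p)) ≤ N x + G x := by
        rw [← Finset.sum_filter_add_sum_filter_not P (fun p => n p ∈ Ico (m - H) m)]
        refine add_le_add le_rfl ?_
        simp only [hG]
        rw [Finset.mul_sum]
        refine le_trans (Finset.sum_le_sum (g := fun p => ex * (u p / n p * (Real.sqrt 2 * gsn (Real.sqrt 2 * d) (x - Real.log (n p))))) ?_) ?_
        · intro p hp
          rw [Finset.mem_filter] at hp
          have hfar := JJ_far H X m (n p) x hH hX hm (hn p hp.1) hx hp.2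
          have h2 := gsn_far d K (x - Real.log (n p)) hd0 hK0.le (by rw [hKd]; exact hfar)
          calc u p / n p * gsn d (x - Real.log (n p))
              ≤ u p / n p * (ex * (Real.sqrt 2 * gsn (Real.sqrt 2 * d) (x - Real.log (n p)))) :=
                mul_le_mul_of_nonneg_left h2 (hun p hp.1)
            _ = _ := by ring
        · refine Finset.sum_le_sum_of_subset_of_nonneg (Finset.filter_subset _ _) fun p hp _ => ?_
          exact mul_nonneg hex0.le (mul_nonneg (hun p hp) (mul_nonneg hs2.le (B6c_gsn_nonneg _ _ hsd0)))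
      linarith
    have hEJ : IntegrableOn E (JJ H m) := hEi.mono_set hJI
    have hNJ : IntegrableOn N (JJ H m) := hNi.integrableOn
    have hGJ : IntegrableOn G (JJ H m) := hGi.integrableOn
    have hlen := JJ_len H X m hH hX hm
    have hvol : volume.real (JJ H m) = Real.log ((m : ℝ) - H / 3) - Real.log ((m : ℝ) - 2 * H / 3) := by
      unfold JJ
      rw [Real.volume_real_Icc_of_le]
      have : (0 : ℝ) < (H : ℝ) / (6 * X) := by positivity
      linarith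
    have hBint : B * volume.real (JJ H m) ≤ ∫ x in JJ H m, (N x + G x + E x) := by
      have h1 : ∫ _x in JJ H m, B = B * volume.real (JJ H m) := by
        rw [setIntegral_const, smul_eq_mul, mul_comm]
      rw [← h1]
      refine setIntegral_mono_on ?_ ((hNJ.add hGJ).add hEJ) hJm hpt
      refine integrableOn_const ?_
      unfold JJ
      simp
    have hsplit : ∫ x in JJ H m, (N x + G x + E x)
        = (∫ x in JJ H m, N x) + (∫ x in JJ H m, G x) + ∫ x in JJ H m, E x := by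
      have hNG : IntegrableOn (fun x => N x + G x) (JJ H m) := hNJ.add hGJ
      rw [integral_add hNG hEJ, integral_add hNJ hGJ]
    have h2 : (H : ℝ) * B / (6 * X) ≤ B * volume.real (JJ H m) := by
      rw [hvol]
      calc (H : ℝ) * B / (6 * X) = B * ((H : ℝ) / (6 * X)) := by ring
        _ ≤ _ := mul_le_mul_of_nonneg_left hlen hB.le
    linarith
  -- the bad set
  have hsub : ({m ∈ Icc X (2 * X) | ∑ p ∈ P with n p ∈ Ico (m - H) m, u p < H * B / 50} : Finset ℕ)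
      ⊆ {m ∈ Icc X (2 * X) | (H : ℝ) * B / (24 * X) ≤ ∫ x in JJ H m, G x}
        ∪ {m ∈ Icc X (2 * X) | (H : ℝ) * B / (24 * X) ≤ ∫ x in JJ H m, E x} := by
    intro m hm
    rw [Finset.mem_filter] at hm
    rw [Finset.mem_union, Finset.mem_filter, Finset.mem_filter]
    by_contra hcon
    push Not at hcon
    have h1 := hcon.1 hm.1
    have h2 := hcon.2 hm.1
    have h3 := key m hm.1
    have h4 : 2.6 / (X : ℝ) * (∑ p ∈ P with n p ∈ Ico (m - H) m, u p) ≤ 2.6 / X * (H * B / 50) :=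
      mul_le_mul_of_nonneg_left hm.2.le (by positivity)
    have h5 : 2.6 / (X : ℝ) * (H * B / 50) = 0.052 * (H * B / X) := by ring
    have h6 : (H : ℝ) * B / (24 * X) = 1 / 24 * (H * B / X) := by field_simp
    have h7 : (H : ℝ) * B / (6 * X) = 1 / 6 * (H * B / X) := by field_simp
    have h8 : 0 < (H : ℝ) * B / X := by positivity
    rw [h6] at h1 h2
    rw [h7] at h3
    rw [h5] at h4
    linarith
  have hc1 := markov_JJ H X G B hH hX hB hG0 hGi.integrableOn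
  have hc2 := markov_JJ H X E B hH hX hB hE hEi
  have hcard : (#{m ∈ Icc X (2 * X) | ∑ p ∈ P with n p ∈ Ico (m - H) m, u p < H * B / 50} : ℝ)
      ≤ (#{m ∈ Icc X (2 * X) | (H : ℝ) * B / (24 * X) ≤ ∫ x in JJ H m, G x} : ℝ)
        + (#{m ∈ Icc X (2 * X) | (H : ℝ) * B / (24 * X) ≤ ∫ x in JJ H m, E x} : ℝ) := by
    exact_mod_cast (Finset.card_le_card hsub).trans (Finset.card_union_le _ _)
  have hXB : 0 < 32 * (X : ℝ) / B := by positivity
  have hM0 : 0 ≤ M := le_trans (Finset.sum_nonneg hun) hM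
  calc _ ≤ 32 * (X : ℝ) / B * (4 * ex * M) + 32 * (X : ℝ) / B * η := by
        have h1 := mul_le_mul_of_nonneg_left hGI hXB.le
        have h2 := mul_le_mul_of_nonneg_left hEη hXB.le
        linarith
    _ = X / B * (32 * η + 128 * ex * M) := by ring
    _ ≤ _ := by
        gcongr
        norm_num

end Pool.Agent.E3
end

section

/-!
# C2: trivial bounds
-/

set_option autoImplicit false

namespace Pool.Agent.E3

open Finset MeasureTheory Real
open Pool.Agent.Lib.MP_bae66e_nt.AP3 (prI mem_prI)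

private theorem C2_norm_ph (u x : ℝ) : ‖ph u x‖ = 1 := by
  rw [ph]
  exact Complex.norm_exp_ofReal_mul_I _

private theorem C2_continuous_ph (x : ℝ) : Continuous fun t : ℝ => ph t x := by
  unfold ph
  fun_prop

private theorem C2_gs_nonneg (β x y : ℝ) : 0 ≤ gs β x y := (Real.exp_pos _).le

/-- PROOF. `‖ch χ r ph t (log r)/r‖ ≤ 1/r` and `recip_IS`. -/
theorem PR_norm_le : ∃ C : ℝ, 1 ≤ C ∧ ∀ (W : ℕ) (χ : DirichletCharacter ℂ W) (R : ℕ) (t : ℝ), 2 ≤ R →
    ‖PR χ R t‖ ≤ C / Real.log R := by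
  obtain ⟨C, hC, h⟩ := recip_IS
  refine ⟨C, hC, fun W χ R t hR => ?_⟩
  refine le_trans ?_ (h R hR).1
  unfold PR DP
  refine (norm_sum_le _ _).trans (Finset.sum_le_sum fun n _ => ?_)
  have h1 := ch_norm_le χ n
  have h2 : (0 : ℝ) ≤ 1 / n := by positivity
  rw [norm_mul, norm_mul, C2_norm_ph, mul_one, Complex.norm_real, Real.norm_of_nonneg h2]
  exact mul_le_of_le_one_left h2 h1

/-- PROOF. `≤ ∑_{p ∈ prI 0 (X²)} gs 1 (log Y) (log p)/p ≤ C/log Y` (`prime_window_le`, `log Y ≥ 0.99 log X ≥ 1` for `X ≥ 8`). -/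
theorem PQ_norm_le : ∃ C : ℝ, 1 ≤ C ∧ ∀ (W : ℕ) (χ : DirichletCharacter ℂ W) (X : ℕ) (Y t : ℝ), 8 ≤ X →
    (X : ℝ) ^ (0.99 : ℝ) ≤ Y → Y ≤ X → ‖PQ χ X Y t‖ ≤ C / Real.log X := by
  obtain ⟨C, hC, h⟩ := prime_window_le 1 one_pos
  refine ⟨2 * C, by linarith, fun W χ X Y t hX hY1 hY2 => ?_⟩
  obtain ⟨hY0, hlY, -, -⟩ := logY_bounds X Y (by omega) hY1 hY2
  have hX8 : (8 : ℝ) ≤ X := by exact_mod_cast hX
  have hlX : 2 ≤ Real.log X := by
    have e1 : Real.log 8 ≤ Real.log X := Real.log_le_log (by norm_num) hX8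
    have e2 : Real.log 8 = 3 * Real.log 2 := by
      rw [show (8 : ℝ) = 2 ^ 3 by norm_num, Real.log_pow]
      norm_num
    have e3 := Real.log_two_gt_d9
    linarith
  have hx1 : 1 ≤ Real.log Y := by linarith
  have h1 : ‖PQ χ X Y t‖ ≤ ∑ p ∈ prI 0 (X ^ 2), gs 1 (Real.log Y) (Real.log p) / p := by
    unfold PQ WIN
    refine (norm_sum_le _ _).trans ?_
    have e1 : ∀ n ∈ QS X, ‖ch χ n * ph t (Real.log n) *
        (((gs 1 (Real.log Y) (Real.log n) / n : ℝ)) : ℂ)‖ ≤ gs 1 (Real.log Y) (Real.log n) / n := by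
      intro n _
      have h1 := ch_norm_le χ n
      have h2 : (0 : ℝ) ≤ gs 1 (Real.log Y) (Real.log n) / n :=
        div_nonneg (C2_gs_nonneg _ _ _) (Nat.cast_nonneg n)
      rw [norm_mul, norm_mul, C2_norm_ph, mul_one, Complex.norm_real, Real.norm_of_nonneg h2]
      exact mul_le_of_le_one_left h2 h1
    refine (Finset.sum_le_sum e1).trans (Finset.sum_le_sum_of_subset_of_nonneg ?_ ?_)
    · intro p hp
      rw [QS, mem_prI] at hp
      rw [mem_prI]
      exact ⟨by omega, hp.2⟩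
    · intro p _ _
      exact div_nonneg (C2_gs_nonneg _ _ _) (Nat.cast_nonneg p)
  refine h1.trans ((h (X ^ 2) (Real.log Y) hx1).trans ?_)
  rw [div_le_div_iff₀ (by linarith) (by linarith)]
  nlinarith

/-- PROOF. A finite sum of continuous functions. -/
theorem PR_continuous {W : ℕ} (χ : DirichletCharacter ℂ W) (R : ℕ) : Continuous (PR χ R) := by
  unfold PR DP
  exact continuous_finsetSum _ fun n _ =>
    (continuous_const.mul (C2_continuous_ph _)).mul continuous_const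

/-- PROOF. A finite sum of continuous functions. -/
theorem PQ_continuous {W : ℕ} (χ : DirichletCharacter ℂ W) (X : ℕ) (Y : ℝ) : Continuous (PQ χ X Y) := by
  unfold PQ WIN
  exact continuous_finsetSum _ fun n _ =>
    (continuous_const.mul (C2_continuous_ph _)).mul continuous_const

/-- PROOF. A continuous bounded function (finite sums) times an integrable Gaussian (`integrable_exp_neg_mul_sq`). -/
theorem gauss_integrable_of_bounded (Δ M : ℝ) (hΔ : 0 < Δ) (g : ℝ → ℝ) (hg : Continuous g) (hM : ∀ t, |g t| ≤ M) :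
    Integrable (fun t : ℝ => Real.exp (-(Δ * t) ^ 2) * g t) := by
  have h0 : Integrable (fun t : ℝ => Real.exp (-(Δ ^ 2) * t ^ 2)) :=
    integrable_exp_neg_mul_sq (by positivity)
  have h1 : Integrable (fun t : ℝ => M * Real.exp (-(Δ ^ 2) * t ^ 2)) := h0.const_mul M
  refine h1.mono' ?_ (Filter.Eventually.of_forall fun t => ?_)
  · exact (Continuous.mul (by fun_prop) hg).aestronglyMeasurable
  · have e1 : -(Δ * t) ^ 2 = -(Δ ^ 2) * t ^ 2 := by ring
    rw [norm_mul, Real.norm_of_nonneg (Real.exp_pos _).le, Real.norm_eq_abs, e1, mul_comm]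
    exact mul_le_mul_of_nonneg_right (hM t) (Real.exp_pos _).le

/-- PROOF. `exp (- (Δ t)²) ≤ exp (- (Δ X)²/2) exp (- (Δ t)²/2)` for `|t| > X`, and `∫ exp (- (Δ t)²/2) dt = √(2π)/Δ`. -/
theorem gauss_tail (Δ X : ℝ) (hΔ : 0 < Δ) (hX : 0 ≤ X) :
    ∫ t in {t : ℝ | X < |t|}, Real.exp (-(Δ * t) ^ 2) ≤ Real.exp (-((Δ * X) ^ 2 / 2)) * (3 / Δ) := by
  have hΔ2 : 0 < Δ ^ 2 / 2 := by positivity
  have hi : Integrable (fun t : ℝ => Real.exp (-(Δ ^ 2 / 2) * t ^ 2)) := integrable_exp_neg_mul_sq hΔ2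
  have hi1 : Integrable (fun t : ℝ => Real.exp (-((Δ * X) ^ 2 / 2)) * Real.exp (-(Δ ^ 2 / 2) * t ^ 2)) :=
    hi.const_mul _
  have hi0 : Integrable (fun t : ℝ => Real.exp (-(Δ * t) ^ 2)) := by
    have h0 : Integrable (fun t : ℝ => Real.exp (-(Δ ^ 2) * t ^ 2)) :=
      integrable_exp_neg_mul_sq (by positivity)
    refine h0.congr (Filter.Eventually.of_forall fun t => ?_)
    change Real.exp (-(Δ ^ 2) * t ^ 2) = Real.exp (-(Δ * t) ^ 2)
    congr 1
    ring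
  have hms : MeasurableSet {t : ℝ | X < |t|} := measurableSet_lt measurable_const continuous_abs.measurable
  have h1 : ∫ t in {t : ℝ | X < |t|}, Real.exp (-(Δ * t) ^ 2) ≤
      ∫ t in {t : ℝ | X < |t|}, Real.exp (-((Δ * X) ^ 2 / 2)) * Real.exp (-(Δ ^ 2 / 2) * t ^ 2) := by
    refine setIntegral_mono_on hi0.integrableOn hi1.integrableOn hms fun t ht => ?_
    rw [← Real.exp_add, Real.exp_le_exp]
    have h2 : X ^ 2 ≤ t ^ 2 := by
      rw [← sq_abs t]
      exact pow_le_pow_left₀ hX (le_of_lt ht) 2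
    have h3 : 0 ≤ Δ ^ 2 := sq_nonneg Δ
    nlinarith
  have h2 : ∫ t in {t : ℝ | X < |t|}, Real.exp (-((Δ * X) ^ 2 / 2)) * Real.exp (-(Δ ^ 2 / 2) * t ^ 2) ≤
      ∫ t, Real.exp (-((Δ * X) ^ 2 / 2)) * Real.exp (-(Δ ^ 2 / 2) * t ^ 2) :=
    setIntegral_le_integral hi1 (Filter.Eventually.of_forall fun t => by positivity)
  refine (h1.trans h2).trans ?_
  rw [integral_const_mul, integral_gaussian]
  refine mul_le_mul_of_nonneg_left ?_ (Real.exp_pos _).le
  rw [Real.sqrt_le_left (by positivity), div_pow, div_le_div_iff₀ hΔ2 (by positivity)]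
  have hpi := Real.pi_lt_d2
  have h3 : 0 ≤ Δ ^ 2 := sq_nonneg Δ
  nlinarith

end Pool.Agent.E3
end

section

/-!
# M0: general parameters `R₁, R₂, H`
-/

set_option autoImplicit false

namespace Pool.Agent.E3

open Finset MeasureTheory Real
open Pool.Agent.Lib.MP_bae66e_nt.AP3 (prI mem_prI)

/-- `Y = X/(R₁ R₂)` -/
noncomputable def YG (R₁ R₂ X : ℕ) : ℝ := (X : ℝ) / ((R₁ : ℝ) * R₂)

/-- `1 / (log R₁ log R₂ log X)` -/
noncomputable def FG (R₁ R₂ X : ℕ) : ℝ := 1 / (Real.log R₁ * Real.log R₂ * Real.log X)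

/-- the Dirichlet polynomial of the products `r₁ r₂ q` -/
noncomputable def PPP {W : ℕ} (χ : DirichletCharacter ℂ W) (R₁ R₂ X : ℕ) (t : ℝ) : ℂ :=
  PR χ R₁ t * PR χ R₂ t * PQ χ X (YG R₁ R₂ X) t

/-- the window of width `d` of the products `s q`, twisted by `χ` -/
noncomputable def WX {W : ℕ} (χ : DirichletCharacter ℂ W) (R₁ R₂ X : ℕ) (d x : ℝ) : ℂ :=
  ∑ s ∈ SS R₁ R₂, ∑ q ∈ QS X,
    ch χ (s * q) * ((om (YG R₁ R₂ X) q / (s * q) * gsn d (x - Real.log (s * q)) : ℝ) : ℂ)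

/-- the window of width `d` of the products `s q ≡ v` modulo `W` -/
noncomputable def WV (W v R₁ R₂ X : ℕ) (d x : ℝ) : ℝ :=
  ∑ s ∈ SS R₁ R₂, ∑ q ∈ (QS X).filter (fun q => s * q ≡ v [MOD W]),
    om (YG R₁ R₂ X) q / (s * q) * gsn d (x - Real.log (s * q))

/-- the conditions on the parameters -/
structure PG (R₁ R₂ X : ℕ) : Prop where
  X8 : 8 ≤ X
  R1 : 2 ≤ R₁
  R2 : 2 * R₁ ≤ R₂
  Ylow : (X : ℝ) ^ (0.99 : ℝ) ≤ YG R₁ R₂ X

/-- PROOF. `R₁ R₂ ≥ 1`. -/
theorem PG.Yup {R₁ R₂ X : ℕ} (h : PG R₁ R₂ X) : YG R₁ R₂ X ≤ X := by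
  have h1 : (1 : ℝ) ≤ (R₁ : ℝ) * R₂ := by
    have h2 : 1 ≤ R₁ * R₂ := by
      have h3 := h.R1
      have h4 := h.R2
      exact Nat.one_le_iff_ne_zero.2 (Nat.mul_ne_zero (by omega) (by omega))
    exact_mod_cast h2
  exact div_le_self (Nat.cast_nonneg X) h1

private theorem M0_logs {R₁ R₂ X : ℕ} (h : PG R₁ R₂ X) :
    0 < Real.log R₁ ∧ 0 < Real.log R₂ ∧ 0 < Real.log X := by
  have h3 := h.R1
  have h4 := h.R2
  have h5 := h.X8
  have e1 : (1 : ℝ) < R₁ := by exact_mod_cast (by omega : 1 < R₁)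
  have e2 : (1 : ℝ) < R₂ := by exact_mod_cast (by omega : 1 < R₂)
  have e3 : (1 : ℝ) < X := by exact_mod_cast (by omega : 1 < X)
  exact ⟨Real.log_pos e1, Real.log_pos e2, Real.log_pos e3⟩

/-- PROOF. The logarithms are positive. -/
theorem PG.pos {R₁ R₂ X : ℕ} (h : PG R₁ R₂ X) : 0 < FG R₁ R₂ X := by
  obtain ⟨h1, h2, h3⟩ := M0_logs h
  unfold FG
  positivity

private theorem M0_mass_q : ∃ C : ℝ, 1 ≤ C ∧ ∀ (X : ℕ) (Y : ℝ), 8 ≤ X →
    (X : ℝ) ^ (0.99 : ℝ) ≤ Y → Y ≤ X → ∑ q ∈ QS X, om Y q / q ≤ C / Real.log X := by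
  obtain ⟨C, hC, h⟩ := prime_window_le 1 one_pos
  refine ⟨2 * C, by linarith, fun X Y hX hY1 hY2 => ?_⟩
  obtain ⟨hY0, hlY, -, -⟩ := logY_bounds X Y (by omega) hY1 hY2
  have hX8 : (8 : ℝ) ≤ X := by exact_mod_cast hX
  have hlX : 2 ≤ Real.log X := by
    have e1 : Real.log 8 ≤ Real.log X := Real.log_le_log (by norm_num) hX8
    have e2 : Real.log 8 = 3 * Real.log 2 := by
      rw [show (8 : ℝ) = 2 ^ 3 by norm_num, Real.log_pow]
      norm_num
    have e3 := Real.log_two_gt_d9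
    linarith
  have hx1 : 1 ≤ Real.log Y := by linarith
  have h1 : ∑ q ∈ QS X, om Y q / q ≤ ∑ p ∈ prI 0 (X ^ 2), gs 1 (Real.log Y) (Real.log p) / p := by
    refine Finset.sum_le_sum_of_subset_of_nonneg (f := fun q : ℕ => om Y q / q) ?_ ?_
    · intro p hp
      rw [QS, mem_prI] at hp
      rw [mem_prI]
      exact ⟨by omega, hp.2⟩
    · intro p _ _
      exact div_nonneg (Real.exp_pos _).le (Nat.cast_nonneg p)
  refine h1.trans ((h (X ^ 2) (Real.log Y) hx1).trans ?_)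
  rw [div_le_div_iff₀ (by linarith) (by linarith)]
  nlinarith

/-- PROOF. `sum_SS`: the sum is `(∑_{IS R₁} 1/r)(∑_{IS R₂} 1/r')(∑_q om q/q)`; `recip_IS` twice and `prime_window_le` (`β = 1`,
`x = log Y ≥ 0.99 log X ≥ 1`, `QS X ⊆ prI 0 (X²)`). -/
theorem mass_g : ∃ C : ℝ, 1 ≤ C ∧ ∀ R₁ R₂ X : ℕ, PG R₁ R₂ X →
    ∑ s ∈ SS R₁ R₂, ∑ q ∈ QS X, om (YG R₁ R₂ X) q / (s * q) ≤ C * FG R₁ R₂ X := by
  obtain ⟨C₁, hC₁, h1⟩ := recip_IS
  obtain ⟨C₂, hC₂, h2⟩ := M0_mass_q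
  refine ⟨C₁ * C₁ * C₂, one_le_mul_of_one_le_of_one_le
    (one_le_mul_of_one_le_of_one_le hC₁ hC₁) hC₂, fun R₁ R₂ X h => ?_⟩
  obtain ⟨g1, g2, g3⟩ := M0_logs h
  have hR1 := h.R1
  have hR2 := h.R2
  have e1 := (h1 R₁ hR1).1
  have e2 := (h1 R₂ (by omega)).1
  have e3 := h2 X (YG R₁ R₂ X) h.X8 h.Ylow h.Yup
  have e4 : ∑ s ∈ SS R₁ R₂, ∑ q ∈ QS X, om (YG R₁ R₂ X) q / (s * q) =
      ((∑ r ∈ IS R₁, (1 / r : ℝ)) * ∑ r ∈ IS R₂, (1 / r : ℝ)) *
        ∑ q ∈ QS X, om (YG R₁ R₂ X) q / q := by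
    rw [sum_SS R₁ R₂ hR2, Finset.sum_mul_sum, Finset.sum_mul]
    refine Finset.sum_congr rfl fun r _ => ?_
    rw [Finset.sum_mul]
    refine Finset.sum_congr rfl fun r' _ => ?_
    rw [Finset.mul_sum]
    refine Finset.sum_congr rfl fun q _ => ?_
    rw [one_div_mul_one_div, div_mul_div_comm, one_mul]
    push_cast
    rfl
  have f1 : 0 ≤ ∑ r ∈ IS R₁, (1 / r : ℝ) :=
    Finset.sum_nonneg fun r _ => by positivity
  have f2 : 0 ≤ ∑ r ∈ IS R₂, (1 / r : ℝ) :=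
    Finset.sum_nonneg fun r _ => by positivity
  have f3 : 0 ≤ ∑ q ∈ QS X, om (YG R₁ R₂ X) q / q :=
    Finset.sum_nonneg fun q _ => div_nonneg (Real.exp_pos _).le (Nat.cast_nonneg q)
  rw [e4]
  calc ((∑ r ∈ IS R₁, (1 / r : ℝ)) * ∑ r ∈ IS R₂, (1 / r : ℝ)) *
        ∑ q ∈ QS X, om (YG R₁ R₂ X) q / q
      ≤ ((C₁ / Real.log R₁) * (C₁ / Real.log R₂)) * (C₂ / Real.log X) := by
        apply mul_le_mul (mul_le_mul e1 e2 f2 (by positivity)) e3 f3 (by positivity)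
    _ = C₁ * C₁ * C₂ * FG R₁ R₂ X := by
        unfold FG
        field_simp

/-- PROOF. `PR_norm_le` twice and `PQ_norm_le`. -/
theorem PPP_norm_g : ∃ C : ℝ, 1 ≤ C ∧ ∀ R₁ R₂ X : ℕ, PG R₁ R₂ X →
    ∀ (W : ℕ) (χ : DirichletCharacter ℂ W) (t : ℝ), ‖PPP χ R₁ R₂ X t‖ ≤ C * FG R₁ R₂ X := by
  obtain ⟨C₁, hC₁, h1⟩ := PR_norm_le
  obtain ⟨C₂, hC₂, h2⟩ := PQ_norm_le
  refine ⟨C₁ * C₁ * C₂, one_le_mul_of_one_le_of_one_le
    (one_le_mul_of_one_le_of_one_le hC₁ hC₁) hC₂, fun R₁ R₂ X h W χ t => ?_⟩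
  obtain ⟨g1, g2, g3⟩ := M0_logs h
  have hR1 := h.R1
  have hR2 := h.R2
  have e1 := h1 W χ R₁ t hR1
  have e2 := h1 W χ R₂ t (by omega)
  have e3 := h2 W χ X (YG R₁ R₂ X) t h.X8 h.Ylow h.Yup
  unfold PPP
  rw [norm_mul, norm_mul]
  calc ‖PR χ R₁ t‖ * ‖PR χ R₂ t‖ * ‖PQ χ X (YG R₁ R₂ X) t‖
      ≤ ((C₁ / Real.log R₁) * (C₁ / Real.log R₂)) * (C₂ / Real.log X) := by
        apply mul_le_mul (mul_le_mul e1 e2 (norm_nonneg _) (by positivity)) e3
          (norm_nonneg _) (by positivity)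
    _ = C₁ * C₁ * C₂ * FG R₁ R₂ X := by
        unfold FG
        field_simp

end Pool.Agent.E3
end

section

/-!
# M4: short and long windows of one character
-/

set_option autoImplicit false

namespace Pool.Agent.E3

open Finset MeasureTheory Real
open Pool.Agent.Lib.MP_bae66e_nt.AP3 (prI mem_prI)

/-- PROOF. `planch2` with the index set `SS ×ˢ QS X`, `v (s, q) = log (s q)`, `c (s, q) = ch χ (s q) om q/(s q)`, and `PRPRPQ_eq`. -/
theorem WX_planch {W : ℕ} (χ : DirichletCharacter ℂ W) (R₁ R₂ X : ℕ) (d l : ℝ) (hd : 0 < d) (hl : 0 < l)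
    (hR : 2 * R₁ ≤ R₂) :
    Integrable (fun x : ℝ => ‖WX χ R₁ R₂ X d x - WX χ R₁ R₂ X l x‖ ^ 2) ∧
    Integrable (fun y : ℝ => (Real.exp (-(d ^ 2 * y ^ 2 / 2)) - Real.exp (-(l ^ 2 * y ^ 2 / 2))) ^ 2
      * ‖PPP χ R₁ R₂ X y‖ ^ 2) ∧
    ∫ x : ℝ, ‖WX χ R₁ R₂ X d x - WX χ R₁ R₂ X l x‖ ^ 2
      = ∫ y : ℝ, (Real.exp (-(d ^ 2 * y ^ 2 / 2)) - Real.exp (-(l ^ 2 * y ^ 2 / 2))) ^ 2
          * ‖PPP χ R₁ R₂ X y‖ ^ 2 := by
  set I : Finset (ℕ × ℕ) := SS R₁ R₂ ×ˢ QS X with hI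
  let c : ℕ × ℕ → ℂ := fun p => ch χ (p.1 * p.2) * ((om (YG R₁ R₂ X) p.2 / (p.1 * p.2) : ℝ) : ℂ)
  let v : ℕ × ℕ → ℝ := fun p => Real.log (p.1 * p.2)
  have h1 : ∀ x : ℝ, WX χ R₁ R₂ X d x - WX χ R₁ R₂ X l x =
      ∑ i ∈ I, c i * ((gsn d (x - v i) - gsn l (x - v i) : ℝ) : ℂ) := by
    intro x
    unfold WX
    rw [← Finset.sum_sub_distrib, hI, Finset.sum_product]
    refine Finset.sum_congr rfl fun s _ => ?_
    rw [← Finset.sum_sub_distrib]
    refine Finset.sum_congr rfl fun q _ => ?_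
    simp only [c, v]
    push_cast
    ring
  have h2 : ∀ y : ℝ, PPP χ R₁ R₂ X y = ∑ i ∈ I, c i * ph y (v i) := by
    intro y
    unfold PPP
    rw [PRPRPQ_eq χ _ _ X _ y hR, hI, Finset.sum_product]
  have h := planch2 I c v d l hd hl
  simp only [h1, h2]
  exact h

/-- PROOF. `C = C₀²` with `C₀` from `PPP_norm_g`. By `WX_planch` split the integral over `y` at `|y| = T`. For `|y| < T`:
`0 ≤ exp (- d²y²/2) - exp (- l²y²/2) ≤ 1 - exp (- l²y²/2) ≤ l² T²/2 = T^(-2)/2`, and `‖PPP‖² ≤ C FG²`: together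
`≤ 2 T · T^(-4)/4 · C FG² ≤ C FG²/T`. For `|y| ≥ T`: the square is `≤ exp (- d²y²) = exp (- (d y)²)` (`0 ≤ a - b ≤ a`) and the set
`{T ≤ |y|}` is contained in `{T₀ ≤ |y|}`: the hypothesis (integrability of `exp (- (d y)²) ‖PPP‖²` by `gauss_integrable_of_bounded`,
`PR_continuous`, `PQ_continuous`). -/
theorem char_window_g : ∃ C : ℝ, 1 ≤ C ∧ ∀ (R₁ R₂ X : ℕ), PG R₁ R₂ X →
    ∀ (W : ℕ) (χ : DirichletCharacter ℂ W) (T₀ T d η : ℝ), 1 ≤ T → T₀ ≤ T → 0 < d → d ≤ 1 / T ^ 2 →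
      ∫ t in {t : ℝ | T₀ ≤ |t|}, Real.exp (-(d * t) ^ 2) * ‖PPP χ R₁ R₂ X t‖ ^ 2 ≤ η * (FG R₁ R₂ X) ^ 2 →
      ∫ x : ℝ, ‖WX χ R₁ R₂ X d x - WX χ R₁ R₂ X (1 / T ^ 2) x‖ ^ 2 ≤ (C / T + η) * (FG R₁ R₂ X) ^ 2 := by
  obtain ⟨C, hC1, hPPP⟩ := PPP_norm_g
  refine ⟨C ^ 2, one_le_pow₀ hC1, ?_⟩
  intro R₁ R₂ X hPG W χ T₀ T d η hT1 hT0T hd0 hdl hcoreX
  have hT0 : 0 < T := by linarith
  set l : ℝ := 1 / T ^ 2 with hl
  have hl0 : 0 < l := by positivity
  obtain ⟨_, hJ2, hJ3⟩ := WX_planch χ R₁ R₂ X d l hd0 hl0 hPG.R2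
  set F : ℝ → ℝ := fun y => ‖PPP χ R₁ R₂ X y‖ ^ 2 with hF
  have hFc : Continuous F := by
    simp only [hF, PPP]
    exact ((((PR_continuous χ _).mul (PR_continuous χ _)).mul (PQ_continuous χ _ _)).norm).pow 2
  have hF0 : ∀ y, 0 ≤ F y := fun y => by simp only [hF]; positivity
  have hFb : ∀ y, F y ≤ C ^ 2 * (FG R₁ R₂ X) ^ 2 := by
    intro y
    have h := hPPP R₁ R₂ X hPG W χ y
    simp only [hF]
    calc _ ≤ (C * FG R₁ R₂ X) ^ 2 := pow_le_pow_left₀ (norm_nonneg _) h 2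
      _ = _ := by ring
  have hFb' : ∀ y, |F y| ≤ C ^ 2 * (FG R₁ R₂ X) ^ 2 := fun y => by
    rw [abs_of_nonneg (hF0 y)]; exact hFb y
  rw [hJ3]
  -- pointwise bound
  set S : Set ℝ := {t : ℝ | T₀ ≤ |t|} with hS
  have hSm : MeasurableSet S := measurableSet_le measurable_const measurable_abs
  set c₀ : ℝ := (1 / (2 * T ^ 2)) ^ 2 * (C ^ 2 * (FG R₁ R₂ X) ^ 2) with hc₀
  have hc₀0 : 0 ≤ c₀ := by positivity
  have hpt : ∀ y : ℝ, (Real.exp (-(d ^ 2 * y ^ 2 / 2)) - Real.exp (-(l ^ 2 * y ^ 2 / 2))) ^ 2 * F y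
      ≤ (Set.Icc (-T) T).indicator (fun _ => c₀) y
        + S.indicator (fun y => Real.exp (-(d * y) ^ 2) * F y) y := by
    intro y
    have hdiff0 : 0 ≤ Real.exp (-(d ^ 2 * y ^ 2 / 2)) - Real.exp (-(l ^ 2 * y ^ 2 / 2)) := by
      have h1 : d ^ 2 * y ^ 2 / 2 ≤ l ^ 2 * y ^ 2 / 2 := by
        have : d ^ 2 ≤ l ^ 2 := pow_le_pow_left₀ hd0.le hdl 2
        have := mul_le_mul_of_nonneg_right this (sq_nonneg y)
        linarith
      have := Real.exp_le_exp.mpr (neg_le_neg h1)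
      linarith
    by_cases hy : |y| < T
    · have hyI : y ∈ Set.Icc (-T) T := by
        rw [abs_lt] at hy
        exact ⟨hy.1.le, hy.2.le⟩
      rw [Set.indicator_of_mem hyI]
      have h2 : 0 ≤ S.indicator (fun y => Real.exp (-(d * y) ^ 2) * F y) y :=
        Set.indicator_nonneg (fun y _ => mul_nonneg (Real.exp_pos _).le (hF0 y)) y
      have h3 : Real.exp (-(d ^ 2 * y ^ 2 / 2)) - Real.exp (-(l ^ 2 * y ^ 2 / 2)) ≤ 1 / (2 * T ^ 2) := by
        have h4 : Real.exp (-(d ^ 2 * y ^ 2 / 2)) ≤ 1 := by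
          rw [Real.exp_le_one_iff]
          have : 0 ≤ d ^ 2 * y ^ 2 / 2 := by positivity
          linarith
        have h5 : 1 - l ^ 2 * y ^ 2 / 2 ≤ Real.exp (-(l ^ 2 * y ^ 2 / 2)) := by
          have := Real.add_one_le_exp (-(l ^ 2 * y ^ 2 / 2))
          linarith
        have h6 : y ^ 2 ≤ T ^ 2 := by
          rw [← sq_abs y]
          exact pow_le_pow_left₀ (abs_nonneg _) hy.le 2
        have h7 : l ^ 2 * y ^ 2 / 2 ≤ 1 / (2 * T ^ 2) := by
          have h8 : l ^ 2 * y ^ 2 ≤ l ^ 2 * T ^ 2 := mul_le_mul_of_nonneg_left h6 (by positivity)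
          have h9 : l ^ 2 * T ^ 2 / 2 = 1 / (2 * T ^ 2) := by
            rw [hl]
            field_simp
          linarith
        linarith
      have h10 := pow_le_pow_left₀ hdiff0 h3 2
      have h11 := mul_le_mul h10 (hFb y) (hF0 y) (by positivity)
      linarith
    · have hy' : T ≤ |y| := not_lt.mp hy
      have hyS : y ∈ S := hT0T.trans hy'
      rw [Set.indicator_of_mem hyS]
      have h2 : 0 ≤ (Set.Icc (-T) T).indicator (fun _ => c₀) y := Set.indicator_nonneg (fun _ _ => hc₀0) y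
      have h3 : (Real.exp (-(d ^ 2 * y ^ 2 / 2)) - Real.exp (-(l ^ 2 * y ^ 2 / 2))) ^ 2 ≤ Real.exp (-(d * y) ^ 2) := by
        have h4 : Real.exp (-(d ^ 2 * y ^ 2 / 2)) - Real.exp (-(l ^ 2 * y ^ 2 / 2)) ≤ Real.exp (-(d ^ 2 * y ^ 2 / 2)) := by
          have := Real.exp_pos (-(l ^ 2 * y ^ 2 / 2))
          linarith
        refine (pow_le_pow_left₀ hdiff0 h4 2).trans (le_of_eq ?_)
        rw [← Real.exp_nat_mul]
        congr 1
        push_cast
        ring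
      have h5 := mul_le_mul_of_nonneg_right h3 (hF0 y)
      linarith
  have hi1 : Integrable (fun y => (Set.Icc (-T) T).indicator (fun _ => c₀) y) := by
    rw [integrable_indicator_iff measurableSet_Icc]
    exact integrableOn_const (by simp)
  have hi2 : Integrable (fun y => S.indicator (fun y => Real.exp (-(d * y) ^ 2) * F y) y) :=
    (gauss_integrable_of_bounded d _ hd0 F hFc hFb').indicator hSm
  have hmono := integral_mono hJ2 (hi1.add hi2) hpt
  refine hmono.trans ?_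
  rw [integral_add' hi1 hi2, integral_indicator hSm, integral_indicator measurableSet_Icc, setIntegral_const,
    Real.volume_real_Icc_of_le (by linarith), smul_eq_mul]
  have hA : (T - -T) * c₀ ≤ C ^ 2 / T * (FG R₁ R₂ X) ^ 2 := by
    have h1 : (T - -T) * c₀ = C ^ 2 / (2 * T ^ 3) * (FG R₁ R₂ X) ^ 2 := by
      rw [hc₀]
      field_simp
      ring
    rw [h1]
    refine mul_le_mul_of_nonneg_right ?_ (by positivity)
    refine div_le_div_of_nonneg_left (by positivity) hT0 ?_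
    have h2 : T ≤ T ^ 3 := by nlinarith [mul_self_nonneg (T - 1)]
    linarith
  linarith

end Pool.Agent.E3
end
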