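import Pool.Agent.Lib.MP_bae66e_nt.Mg.G015

section

/-!
# V3: the second difference test
-/

set_option autoImplicit false

namespace Pool.Agent.E3

open Finset MeasureTheory Real
open Pool.Agent.MC (ee)

private theorem V3_aux_norm (x : ℝ) : ‖ee x‖ = 1 := by
  unfold Pool.Agent.MC.ee
  rw [show (2 * (π : ℂ) * x * Complex.I) = ((2 * π * x : ℝ) : ℂ) * Complex.I by push_cast; ring]
  exact Complex.norm_exp_ofReal_mul_I _

private theorem V3_aux_inc (δ : ℕ → ℝ) (N : ℕ) (lam H : ℝ)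
    (hδ : ∀ n, n + 1 < N → lam ≤ δ (n + 1) - δ n ∧ δ (n + 1) - δ n ≤ H) (i j : ℕ) (hij : i ≤ j)
    (hj : j < N) : ((j : ℝ) - i) * lam ≤ δ j - δ i ∧ δ j - δ i ≤ ((j : ℝ) - i) * H := by
  induction j, hij using Nat.le_induction with
  | base => simp
  | succ j hij ih =>
    have h1 := ih (by omega)
    have h2 := hδ j hj
    push_cast
    constructor
    · nlinarith [h1.1, h2.1]
    · nlinarith [h1.2, h2.2]

private theorem V3_aux_cut (δ : ℕ → ℝ) (N : ℕ)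
    (hmono : ∀ i j, i ≤ j → j < N → δ i ≤ δ j) (y : ℝ) :
    ∃ m ≤ N, (∀ n < m, δ n < y) ∧ ∀ n, m ≤ n → n < N → y ≤ δ n := by
  classical
  have hex : ∃ n, N ≤ n ∨ y ≤ δ n := ⟨N, Or.inl le_rfl⟩
  refine ⟨Nat.find hex, Nat.find_min' hex (Or.inl le_rfl), ?_, ?_⟩
  · intro n hn
    have h1 := Nat.find_min hex hn
    push Not at h1
    exact h1.2
  · intro n hn hN
    rcases Nat.find_spec hex with h | h
    · omega
    · exact h.trans (hmono _ _ hn hN)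

private theorem V3_aux_card (f : ℕ → ℝ) (δ : ℕ → ℝ) (N : ℕ) (lam H : ℝ) (hl : 0 < lam)
    (hδ : ∀ n, n + 1 < N → lam ≤ δ (n + 1) - δ n ∧ δ (n + 1) - δ n ≤ H) (a b : ℕ) (hb : b ≤ N)
    (y θ : ℝ) (hθ : 0 ≤ θ) (h1 : ∀ n, a ≤ n → n < b → y ≤ δ n) (h2 : ∀ n, a ≤ n → n < b → δ n ≤ y + θ) :
    ‖∑ n ∈ Ico a b, ee (f n)‖ ≤ θ / lam + 1 := by
  have h3 : ‖∑ n ∈ Ico a b, ee (f n)‖ ≤ ((b - a : ℕ) : ℝ) := by
    calc ‖∑ n ∈ Ico a b, ee (f n)‖ ≤ ∑ n ∈ Ico a b, ‖ee (f n)‖ := norm_sum_le _ _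
      _ = ((b - a : ℕ) : ℝ) := by
        rw [Finset.sum_congr rfl fun n _ => V3_aux_norm (f n)]
        simp
  refine h3.trans ?_
  rcases Nat.lt_or_ge a b with hab | hab
  · have h4 := (V3_aux_inc δ N lam H hδ a (b - 1) (by omega) (by omega)).1
    have h5 := h1 a le_rfl hab
    have h6 := h2 (b - 1) (by omega) (by omega)
    have h7 : (((b - 1 : ℕ) : ℝ) - a) * lam ≤ θ := by linarith
    have h8 : ((b - 1 : ℕ) : ℝ) - a ≤ θ / lam := by
      rw [le_div_iff₀ hl]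
      exact h7
    have h9 : ((b - 1 : ℕ) : ℝ) = b - 1 := by
      rw [Nat.cast_sub (by omega)]
      simp
    have h10 : ((b - a : ℕ) : ℝ) = b - a := Nat.cast_sub hab.le
    rw [h9] at h8
    rw [h10]
    linarith
  · have : b - a = 0 := by omega
    rw [this]
    have := div_nonneg hθ hl.le
    push_cast
    linarith

private theorem V3_aux_split (g : ℕ → ℂ) (a b c : ℕ) (hab : a ≤ b) (hbc : b ≤ c) :
    ∑ n ∈ Ico a c, g n = ∑ n ∈ Ico a b, g n + ∑ n ∈ Ico b c, g n :=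
  (Finset.sum_Ico_consecutive g hab hbc).symm

/-- PROOF. `δ n = f (n+1) - f n` for `n + 1 < M` is strictly increasing with steps in `[λ, h λ]`. Put
`θ = √λ / 2 ≤ 1/2`. Let `k` run over the integers `⌊δ 0⌋ ≤ k ≤ ⌊δ (M-2)⌋`, at most `h λ M + 2` of them
(`δ (M-2) - δ 0 ≤ h λ M`). For such `k` the set `{n + 1 < M : k ≤ δ n < k + 1}` is an interval `[a, b)` of
integers, cut by monotonicity into three intervals: `k ≤ δ n < k + θ`, `k + θ ≤ δ n ≤ k + 1 - θ`,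
`k + 1 - θ < δ n < k + 1`. The first and the third have at most `θ / λ + 1` elements; for the middle one use
`kusmin` (on `[a', b' + 1)`, i.e. with one more term, or drop the last term): at most `2 / θ + 1`. So
`|∑| ≤ 1 + (h λ M + 2) (2 θ / λ + 2 + 2 / θ + 1)`, and `2 θ / λ = 1 / √λ`, `2 / θ = 4 / √λ`, `3 ≤ 3 / √λ`:
`≤ 1 + (h λ M + 2) · 8 / √λ ≤ 8 h M √λ + 17 / √λ`. (In Lean it may be simpler to cut `range M` at the points
`m k = #{n : n + 1 < M, δ n < k}` etc., since `{n : δ n < y}` is an initial segment for every `y`.)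
If `M ≤ 1` the bound is trivial. -/
theorem second_test (f : ℕ → ℝ) (M : ℕ) (lam h : ℝ) (hl : 0 < lam) (hl1 : lam ≤ 1) (hh : 1 ≤ h)
    (hf : ∀ n, n + 2 < M → lam ≤ f (n + 2) - 2 * f (n + 1) + f n ∧
      f (n + 2) - 2 * f (n + 1) + f n ≤ h * lam) :
    ‖∑ n ∈ range M, ee (f n)‖ ≤ 20 * (h * M * Real.sqrt lam + 1 / Real.sqrt lam) := by
  have hs : 0 < Real.sqrt lam := Real.sqrt_pos.2 hl
  have hs1 : Real.sqrt lam ≤ 1 := by
    rw [Real.sqrt_le_one]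
    exact hl1
  have hsq : Real.sqrt lam * Real.sqrt lam = lam := Real.mul_self_sqrt hl.le
  have hinv : 1 ≤ 1 / Real.sqrt lam := by
    rw [le_div_iff₀ hs]
    linarith
  have hMs : 0 ≤ h * M * Real.sqrt lam := by positivity
  rcases Nat.lt_or_ge M 2 with hM | hM
  · have h1 : ‖∑ n ∈ range M, ee (f n)‖ ≤ (M : ℝ) := by
      calc ‖∑ n ∈ range M, ee (f n)‖ ≤ ∑ n ∈ range M, ‖ee (f n)‖ := norm_sum_le _ _
        _ = (M : ℝ) := by
          rw [Finset.sum_congr rfl fun n _ => V3_aux_norm (f n)]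
          simp
    have h2 : (M : ℝ) ≤ 1 := by exact_mod_cast (by omega : M ≤ 1)
    linarith
  · obtain ⟨N, rfl⟩ : ∃ N, M = N + 1 := ⟨M - 1, by omega⟩
    have hN : 1 ≤ N := by omega
    obtain ⟨δ, hδdef⟩ : ∃ δ : ℕ → ℝ, ∀ n, δ n = f (n + 1) - f n := ⟨_, fun _ => rfl⟩
    have hδ : ∀ n, n + 1 < N → lam ≤ δ (n + 1) - δ n ∧ δ (n + 1) - δ n ≤ h * lam := by
      intro n hn
      have h1 := hf n (by omega)
      rw [hδdef, hδdef]
      constructor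
      · linarith [h1.1]
      · linarith [h1.2]
    have hmono : ∀ i j, i ≤ j → j < N → δ i ≤ δ j := by
      intro i j hij hj
      have h1 := (V3_aux_inc δ N lam (h * lam) hδ i j hij hj).1
      have h2 : (0 : ℝ) ≤ ((j : ℝ) - i) * lam := by
        have : (i : ℝ) ≤ j := by exact_mod_cast hij
        exact mul_nonneg (by linarith) hl.le
      linarith
    choose m hmN hm1 hm2 using V3_aux_cut δ N hmono
    have hmm : ∀ y y', y ≤ y' → m y ≤ m y' := by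
      intro y y' hy
      by_contra hcon
      push Not at hcon
      have h1 := hm1 y (m y') hcon
      have h2 := hm2 y' (m y') le_rfl (lt_of_lt_of_le hcon (hmN y))
      linarith
    set θ := Real.sqrt lam / 2 with hθdef
    have hθ : 0 < θ := by positivity
    have hθ2 : θ ≤ 1 / 2 := by
      rw [hθdef]
      linarith
    set B := 2 * (θ / lam + 1) + 2 / θ with hB
    have hθl : θ / lam = 1 / (2 * Real.sqrt lam) := by
      rw [hθdef, div_eq_div_iff hl.ne' (by positivity)]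
      linear_combination (1 : ℝ) * hsq
    have h2θ : 2 / θ = 4 / Real.sqrt lam := by
      rw [hθdef]
      field_simp
      norm_num
    have hBle : B ≤ 7 * (1 / Real.sqrt lam) := by
      rw [hB, hθl, h2θ]
      have e1 : 1 / (2 * Real.sqrt lam) = 1 / 2 * (1 / Real.sqrt lam) := by
        field_simp
      have e2 : 4 / Real.sqrt lam = 4 * (1 / Real.sqrt lam) := by ring
      rw [e1, e2]
      linarith
    have hB0 : 0 ≤ B := by positivity
    -- one period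
    have hblock : ∀ k : ℤ, ‖∑ n ∈ Ico (m (k : ℝ)) (m ((k : ℝ) + 1)), ee (f n)‖ ≤ B := by
      intro k
      have o1 : m (k : ℝ) ≤ m ((k : ℝ) + θ) := hmm _ _ (by linarith)
      have o2 : m ((k : ℝ) + θ) ≤ m ((k : ℝ) + 1 - θ) := hmm _ _ (by linarith)
      have o3 : m ((k : ℝ) + 1 - θ) ≤ m ((k : ℝ) + 1) := hmm _ _ (by linarith)
      rw [V3_aux_split _ _ _ _ o1 (o2.trans o3), V3_aux_split _ _ _ _ o2 o3]
      have b1 : ‖∑ n ∈ Ico (m (k : ℝ)) (m ((k : ℝ) + θ)), ee (f n)‖ ≤ θ / lam + 1 := by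
        refine V3_aux_card f δ N lam (h * lam) hl hδ _ _ (hmN _) k θ hθ.le ?_ ?_
        · intro n h1 h2
          exact hm2 _ n h1 (lt_of_lt_of_le h2 (hmN _))
        · intro n h1 h2
          exact (hm1 _ n h2).le
      have b3 : ‖∑ n ∈ Ico (m ((k : ℝ) + 1 - θ)) (m ((k : ℝ) + 1)), ee (f n)‖ ≤ θ / lam + 1 := by
        refine V3_aux_card f δ N lam (h * lam) hl hδ _ _ (hmN _) ((k : ℝ) + 1 - θ) θ hθ.le ?_ ?_
        · intro n h1 h2
          exact hm2 _ n h1 (lt_of_lt_of_le h2 (hmN _))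
        · intro n h1 h2
          have := (hm1 _ n h2).le
          linarith
      have b2 : ‖∑ n ∈ Ico (m ((k : ℝ) + θ)) (m ((k : ℝ) + 1 - θ)), ee (f n)‖ ≤ 2 / θ := by
        refine kusmin f _ _ k θ hθ hθ2 ?_ ?_ ?_
        · intro n h1 h2
          have h3 := hmN ((k : ℝ) + 1 - θ)
          have h4 := hmono n (n + 1) (by omega) (by omega)
          rw [hδdef, hδdef] at h4
          exact h4
        · intro n h1 h2
          have h3 := hmN ((k : ℝ) + 1 - θ)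
          have h4 := hm2 _ n h1 (by omega)
          rw [hδdef] at h4
          exact h4
        · intro n h1 h2
          have h4 := (hm1 _ n (by omega : n < m ((k : ℝ) + 1 - θ))).le
          rw [hδdef] at h4
          exact h4
      calc _ ≤ ‖∑ n ∈ Ico (m (k : ℝ)) (m ((k : ℝ) + θ)), ee (f n)‖ +
            (‖∑ n ∈ Ico (m ((k : ℝ) + θ)) (m ((k : ℝ) + 1 - θ)), ee (f n)‖ +
            ‖∑ n ∈ Ico (m ((k : ℝ) + 1 - θ)) (m ((k : ℝ) + 1)), ee (f n)‖) :=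
            (norm_add_le _ _).trans (by gcongr; exact norm_add_le _ _)
        _ ≤ (θ / lam + 1) + (2 / θ + (θ / lam + 1)) := by gcongr
        _ = B := by rw [hB]; ring
    -- all periods
    set K := ⌊δ 0⌋ with hK
    have hm0 : m (K : ℝ) = 0 := by
      by_contra hcon
      have h1 := hm1 (K : ℝ) 0 (Nat.pos_of_ne_zero hcon)
      have h2 := Int.floor_le (δ 0)
      linarith
    have hall : ∀ j : ℕ, ‖∑ n ∈ Ico 0 (m ((K + j : ℤ) : ℝ)), ee (f n)‖ ≤ j * B := by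
      intro j
      induction j with
      | zero =>
        simp only [Nat.cast_zero, add_zero]
        rw [hm0]
        simp
      | succ j ih =>
        have h1 : ((K + (j + 1 : ℕ) : ℤ) : ℝ) = ((K + j : ℤ) : ℝ) + 1 := by
          push_cast
          ring
        rw [h1, V3_aux_split _ 0 _ _ (Nat.zero_le _) (hmm ((K + j : ℤ) : ℝ) _ (by linarith))]
        calc _ ≤ ‖∑ n ∈ Ico 0 (m ((K + j : ℤ) : ℝ)), ee (f n)‖ +
              ‖∑ n ∈ Ico (m ((K + j : ℤ) : ℝ)) (m (((K + j : ℤ) : ℝ) + 1)), ee (f n)‖ :=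
              norm_add_le _ _
          _ ≤ j * B + B := add_le_add ih (hblock _)
          _ = ((j + 1 : ℕ) : ℝ) * B := by push_cast; ring
    set J := (⌊δ (N - 1)⌋ - K + 1).toNat with hJ
    have hfl : K ≤ ⌊δ (N - 1)⌋ := Int.floor_le_floor (hmono 0 (N - 1) (by omega) (by omega))
    have hJz : (J : ℤ) = ⌊δ (N - 1)⌋ - K + 1 := by
      rw [hJ, Int.toNat_of_nonneg (by omega)]
    have hmJ : m ((K + J : ℤ) : ℝ) = N := by
      by_contra hcon
      have h0 := hmN ((K + J : ℤ) : ℝ)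
      have h1 := hm2 ((K + J : ℤ) : ℝ) (N - 1) (by omega) (by omega)
      have h2 : ((K + J : ℤ) : ℝ) = (⌊δ (N - 1)⌋ : ℝ) + 1 := by
        rw [hJz]
        push_cast
        ring
      have h3 := Int.lt_floor_add_one (δ (N - 1))
      linarith
    have htot := hall J
    rw [hmJ] at htot
    have hJr : (J : ℝ) ≤ h * lam * N + 2 := by
      have h1 : (J : ℝ) = (⌊δ (N - 1)⌋ : ℝ) - K + 1 := by
        have : ((J : ℤ) : ℝ) = ((⌊δ (N - 1)⌋ - K + 1 : ℤ) : ℝ) := by rw [hJz]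
        push_cast at this
        linarith
      have h2 := Int.floor_le (δ (N - 1))
      have h3 := Int.lt_floor_add_one (δ 0)
      have h4 := (V3_aux_inc δ N lam (h * lam) hδ 0 (N - 1) (by omega) (by omega)).2
      have h5 : ((N - 1 : ℕ) : ℝ) ≤ N := by exact_mod_cast Nat.sub_le _ _
      have h6 : (((N - 1 : ℕ) : ℝ) - (0 : ℕ)) * (h * lam) ≤ h * lam * N := by
        have : 0 ≤ h * lam := by positivity
        push_cast
        nlinarith
      rw [h1]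
      rw [← hK] at h3
      linarith
    rw [Finset.sum_range_succ]
    have hlast : ‖ee (f N)‖ = 1 := V3_aux_norm _
    rw [Nat.Ico_zero_eq_range] at htot
    have hlamN : lam * (1 / Real.sqrt lam) = Real.sqrt lam := by
      rw [mul_one_div, div_eq_iff hs.ne']
      exact hsq.symm
    calc _ ≤ ‖∑ n ∈ range N, ee (f n)‖ + ‖ee (f N)‖ := norm_add_le _ _
      _ ≤ J * B + 1 := by rw [hlast]; linarith
      _ ≤ (h * lam * N + 2) * (7 * (1 / Real.sqrt lam)) + 1 := by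
        gcongr
      _ = 7 * (h * N * (lam * (1 / Real.sqrt lam))) + 14 * (1 / Real.sqrt lam) + 1 := by ring
      _ = 7 * (h * N * Real.sqrt lam) + 14 * (1 / Real.sqrt lam) + 1 := by rw [hlamN]
      _ ≤ 20 * (h * ((N + 1 : ℕ) : ℝ) * Real.sqrt lam + 1 / Real.sqrt lam) := by
        have h1 : h * N * Real.sqrt lam ≤ h * ((N + 1 : ℕ) : ℝ) * Real.sqrt lam := by
          gcongr
          push_cast
          linarith
        have h2 : 0 ≤ h * N * Real.sqrt lam := by positivity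
        linarith

end Pool.Agent.E3
end

section

/-!
# V4: the k-th difference test
-/

set_option autoImplicit false

namespace Pool.Agent.E3

open Finset MeasureTheory Real
open Pool.Agent.MC (ee)

private theorem V4_aux_pow {N : ℕ} (hN : 1 ≤ N) {a b : ℝ} (h : a ≤ b) : (N : ℝ) ^ a ≤ (N : ℝ) ^ b :=
  Real.rpow_le_rpow_of_exponent_le (by exact_mod_cast hN) h

private theorem V4_aux_triv (g : ℕ → ℝ) (M : ℕ) : ‖∑ n ∈ range M, ee (g n)‖ ≤ (M : ℝ) := by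
  calc ‖∑ n ∈ range M, ee (g n)‖ ≤ ∑ n ∈ range M, ‖ee (g n)‖ := norm_sum_le _ _
    _ = (M : ℝ) := by
      rw [Finset.sum_congr rfl fun n _ => Pool.Agent.MC.norm_ee (g n)]
      simp

private theorem V4_aux_base (κ₁ κ₂ h : ℝ) (h1 : 0 < κ₁) (h12 : κ₁ ≤ κ₂) (h2 : κ₂ < 2) (hh : 1 ≤ h) :
    ∃ c C : ℝ, 0 < c ∧ c ≤ 1 ∧ 1 ≤ C ∧ ∀ (N M : ℕ) (lam : ℝ) (f : ℕ → ℝ), 1 ≤ N → M ≤ N →
      (N : ℝ) ^ (-κ₂) ≤ lam → lam ≤ (N : ℝ) ^ (-κ₁) → DC 0 M lam h f →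
      ‖∑ n ∈ range M, ee (f n)‖ ≤ C * (N : ℝ) ^ (1 - c) := by
  refine ⟨min (κ₁ / 2) (1 - κ₂ / 2), 40 * h, lt_min (by linarith) (by linarith),
    (min_le_left _ _).trans (by linarith), by linarith, ?_⟩
  intro N M lam f hN hMN hl1 hl2 hDC
  set c := min (κ₁ / 2) (1 - κ₂ / 2) with hc
  have hNr : (1 : ℝ) ≤ N := by exact_mod_cast hN
  have hN0 : (0 : ℝ) < N := by linarith
  have hlam : 0 < lam := lt_of_lt_of_le (Real.rpow_pos_of_pos hN0 _) hl1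
  have hlam1 : lam ≤ 1 := hl2.trans (by
    have := V4_aux_pow hN (show -κ₁ ≤ 0 by linarith)
    rwa [Real.rpow_zero] at this)
  have hs : 0 < Real.sqrt lam := Real.sqrt_pos.2 hlam
  have key := second_test f M lam h hlam hlam1 hh hDC
  have e1 : Real.sqrt lam ≤ (N : ℝ) ^ (-(κ₁ / 2)) := by
    rw [show (N : ℝ) ^ (-(κ₁ / 2)) = Real.sqrt ((N : ℝ) ^ (-κ₁)) by
      rw [Real.sqrt_eq_rpow, ← Real.rpow_mul hN0.le]
      congr 1
      ring]
    exact Real.sqrt_le_sqrt hl2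
  have e2 : 1 / Real.sqrt lam ≤ (N : ℝ) ^ (κ₂ / 2) := by
    have e3 : (N : ℝ) ^ (-(κ₂ / 2)) ≤ Real.sqrt lam := by
      rw [show (N : ℝ) ^ (-(κ₂ / 2)) = Real.sqrt ((N : ℝ) ^ (-κ₂)) by
        rw [Real.sqrt_eq_rpow, ← Real.rpow_mul hN0.le]
        congr 1
        ring]
      exact Real.sqrt_le_sqrt hl1
    rw [div_le_iff₀ hs]
    calc (1 : ℝ) = (N : ℝ) ^ (κ₂ / 2) * (N : ℝ) ^ (-(κ₂ / 2)) := by
          rw [← Real.rpow_add hN0, add_neg_cancel, Real.rpow_zero]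
      _ ≤ (N : ℝ) ^ (κ₂ / 2) * Real.sqrt lam :=
          mul_le_mul_of_nonneg_left e3 (Real.rpow_nonneg hN0.le _)
  have e4 : h * M * Real.sqrt lam ≤ h * (N : ℝ) ^ (1 - c) := by
    have e5 : (M : ℝ) * Real.sqrt lam ≤ (N : ℝ) ^ (1 - c) := by
      calc (M : ℝ) * Real.sqrt lam ≤ N * (N : ℝ) ^ (-(κ₁ / 2)) := by
            have : (M : ℝ) ≤ N := by exact_mod_cast hMN
            exact mul_le_mul this e1 hs.le hN0.le
        _ = (N : ℝ) ^ (1 + -(κ₁ / 2)) := by rw [Real.rpow_add hN0, Real.rpow_one]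
        _ ≤ (N : ℝ) ^ (1 - c) := V4_aux_pow hN (by
            have := min_le_left (κ₁ / 2) (1 - κ₂ / 2)
            linarith)
    rw [mul_assoc]
    exact mul_le_mul_of_nonneg_left e5 (by linarith)
  have e6 : 1 / Real.sqrt lam ≤ (N : ℝ) ^ (1 - c) := e2.trans (V4_aux_pow hN (by
    have := min_le_right (κ₁ / 2) (1 - κ₂ / 2)
    linarith))
  have e7 : 0 ≤ (N : ℝ) ^ (1 - c) := Real.rpow_nonneg hN0.le _
  calc _ ≤ 20 * (h * M * Real.sqrt lam + 1 / Real.sqrt lam) := key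
    _ ≤ 20 * (h * (N : ℝ) ^ (1 - c) + (N : ℝ) ^ (1 - c)) := by linarith
    _ ≤ 40 * h * (N : ℝ) ^ (1 - c) := by nlinarith

private theorem V4_aux_step (k : ℕ) (κ₁ κ₂ h c' C' : ℝ) (h1 : 0 < κ₁) (h12 : κ₁ ≤ κ₂) (hh : 1 ≤ h)
    (hc' : 0 < c') (hC' : 1 ≤ C')
    (ih : ∀ (N M : ℕ) (lam : ℝ) (f : ℕ → ℝ), 1 ≤ N → M ≤ N →
      (N : ℝ) ^ (-κ₂) ≤ lam → lam ≤ (N : ℝ) ^ (-(κ₁ / 2)) → DC k M lam h f →
      ‖∑ n ∈ range M, ee (f n)‖ ≤ C' * (N : ℝ) ^ (1 - c')) :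
    ∃ c C : ℝ, 0 < c ∧ c ≤ 1 ∧ 1 ≤ C ∧ ∀ (N M : ℕ) (lam : ℝ) (f : ℕ → ℝ), 1 ≤ N → M ≤ N →
      (N : ℝ) ^ (-κ₂) ≤ lam → lam ≤ (N : ℝ) ^ (-κ₁) → DC (k + 1) M lam h f →
      ‖∑ n ∈ range M, ee (f n)‖ ≤ C * (N : ℝ) ^ (1 - c) := by
  obtain ⟨ε, hεdef⟩ : ∃ ε, ε = min (κ₁ / 2) (1 / 2) := ⟨_, rfl⟩
  have hε : 0 < ε := by rw [hεdef]; exact lt_min (by linarith) (by norm_num)
  have hε1 : ε ≤ κ₁ / 2 := by rw [hεdef]; exact min_le_left _ _
  have hε2 : ε ≤ 1 / 2 := by rw [hεdef]; exact min_le_right _ _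
  obtain ⟨c, hcdef⟩ : ∃ c, c = min ε c' / 2 := ⟨_, rfl⟩
  have hm1 := min_le_left ε c'
  have hm2 := min_le_right ε c'
  have hc : 0 < c := by
    rw [hcdef]
    have := lt_min hε hc'
    linarith
  refine ⟨c, 3 * C', hc, by linarith, by linarith, ?_⟩
  intro N M lam f hN hMN hl1 hl2 hDC
  have hNr : (1 : ℝ) ≤ N := by exact_mod_cast hN
  have hN0 : (0 : ℝ) < N := by linarith
  have hlam : 0 < lam := lt_of_lt_of_le (Real.rpow_pos_of_pos hN0 _) hl1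
  have hNε : 1 ≤ (N : ℝ) ^ ε := by
    have := V4_aux_pow hN hε.le
    rwa [Real.rpow_zero] at this
  have hNc : 0 ≤ (N : ℝ) ^ (1 - c) := Real.rpow_nonneg hN0.le _
  obtain ⟨R, hRdef⟩ : ∃ R, R = ⌈(N : ℝ) ^ ε⌉₊ := ⟨_, rfl⟩
  have hR1 : (N : ℝ) ^ ε ≤ R := by rw [hRdef]; exact Nat.le_ceil _
  have hR2 : (R : ℝ) < (N : ℝ) ^ ε + 1 := by rw [hRdef]; exact Nat.ceil_lt_add_one (by linarith)
  have hR : 1 ≤ R := by
    have : (1 : ℝ) ≤ R := hNε.trans hR1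
    exact_mod_cast this
  have hR0 : (0 : ℝ) < R := by linarith
  rcases Nat.lt_or_ge R M with hRM | hRM
  · have key := vdc M R hR hRM.le (fun n => ee (f n)) (fun n => (Pool.Agent.MC.norm_ee _).le)
    have hterm : ∀ r ∈ Icc 1 (R - 1),
        ‖∑ n ∈ range (M - r), ee (f (n + r)) * (starRingEnd ℂ) (ee (f n))‖ ≤
          C' * (N : ℝ) ^ (1 - c') := by
      intro r hr
      rw [Finset.mem_Icc] at hr
      have hr1 : (1 : ℝ) ≤ r := by exact_mod_cast hr.1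
      have hrR : (r : ℝ) ≤ (N : ℝ) ^ ε := by
        have h5 : r + 1 ≤ R := by omega
        have h6 : (r : ℝ) + 1 ≤ R := by exact_mod_cast h5
        linarith
      have h3 := hDC r hr.1 (by omega)
      have h4 := ih N (M - r) (r * lam) (fun n => f (n + r) - f n) hN
        (le_trans (Nat.sub_le _ _) hMN) ?_ ?_ h3
      · refine le_of_eq_of_le ?_ h4
        congr 1
        refine Finset.sum_congr rfl fun n _ => ?_
        rw [Pool.Agent.MC.conj_ee, ← Pool.Agent.MC.ee_add]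
        congr 1
      · calc (N : ℝ) ^ (-κ₂) ≤ lam := hl1
          _ ≤ r * lam := by nlinarith
      · calc (r : ℝ) * lam ≤ (N : ℝ) ^ ε * (N : ℝ) ^ (-κ₁) :=
              mul_le_mul hrR hl2 hlam.le (by linarith)
          _ = (N : ℝ) ^ (ε + -κ₁) := (Real.rpow_add hN0 _ _).symm
          _ ≤ (N : ℝ) ^ (-(κ₁ / 2)) := V4_aux_pow hN (by linarith)
    have hsum : ∑ r ∈ Icc 1 (R - 1),
        ‖∑ n ∈ range (M - r), ee (f (n + r)) * (starRingEnd ℂ) (ee (f n))‖ ≤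
          R * (C' * (N : ℝ) ^ (1 - c')) := by
      have hpos : 0 ≤ C' * (N : ℝ) ^ (1 - c') :=
        mul_nonneg (by linarith) (Real.rpow_nonneg hN0.le _)
      calc _ ≤ ∑ r ∈ Icc 1 (R - 1), C' * (N : ℝ) ^ (1 - c') := Finset.sum_le_sum hterm
        _ = ((R - 1 : ℕ) : ℝ) * (C' * (N : ℝ) ^ (1 - c')) := by
          rw [Finset.sum_const, Nat.card_Icc, nsmul_eq_mul]
          congr 2
        _ ≤ R * (C' * (N : ℝ) ^ (1 - c')) := by
          gcongr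
          exact Nat.sub_le _ _
    have hMr : (M : ℝ) ≤ N := by exact_mod_cast hMN
    have hM0 : (0 : ℝ) ≤ M := Nat.cast_nonneg _
    have t1 : 2 * (M : ℝ) ^ 2 / R ≤ 2 * ((N : ℝ) ^ (1 - c)) ^ 2 := by
      have e1 : (N : ℝ) ^ 2 / (N : ℝ) ^ ε ≤ ((N : ℝ) ^ (1 - c)) ^ 2 := by
        rw [← Real.rpow_natCast ((N : ℝ) ^ (1 - c)) 2, ← Real.rpow_mul hN0.le,
          ← Real.rpow_natCast (N : ℝ) 2, ← Real.rpow_sub hN0]
        refine V4_aux_pow hN ?_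
        push_cast
        rw [hcdef]
        linarith
      calc 2 * (M : ℝ) ^ 2 / R = 2 * ((M : ℝ) ^ 2 / R) := by ring
        _ ≤ 2 * ((N : ℝ) ^ 2 / (N : ℝ) ^ ε) := by
          gcongr
        _ ≤ _ := by linarith
    have t2 : 4 * (M : ℝ) / R * (R * (C' * (N : ℝ) ^ (1 - c'))) ≤
        4 * C' * ((N : ℝ) ^ (1 - c)) ^ 2 := by
      have e1 : (N : ℝ) * (N : ℝ) ^ (1 - c') ≤ ((N : ℝ) ^ (1 - c)) ^ 2 := by
        rw [← Real.rpow_natCast ((N : ℝ) ^ (1 - c)) 2, ← Real.rpow_mul hN0.le]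
        nth_rw 1 [← Real.rpow_one (N : ℝ)]
        rw [← Real.rpow_add hN0]
        refine V4_aux_pow hN ?_
        push_cast
        rw [hcdef]
        linarith
      calc 4 * (M : ℝ) / R * (R * (C' * (N : ℝ) ^ (1 - c'))) =
            4 * C' * (M * (N : ℝ) ^ (1 - c')) := by
            field_simp
        _ ≤ 4 * C' * (N * (N : ℝ) ^ (1 - c')) := by
          have : 0 ≤ (N : ℝ) ^ (1 - c') := Real.rpow_nonneg hN0.le _
          gcongr
        _ ≤ _ := by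
          have : 0 ≤ 4 * C' := by linarith
          exact mul_le_mul_of_nonneg_left e1 this
    have hcoef : 0 ≤ 4 * (M : ℝ) / R := by positivity
    have hfin : ‖∑ n ∈ range M, ee (f n)‖ ^ 2 ≤ (3 * C' * (N : ℝ) ^ (1 - c)) ^ 2 := by
      calc _ ≤ 2 * (M : ℝ) ^ 2 / R + 4 * M / R * ∑ r ∈ Icc 1 (R - 1),
            ‖∑ n ∈ range (M - r), ee (f (n + r)) * (starRingEnd ℂ) (ee (f n))‖ := key
        _ ≤ 2 * (M : ℝ) ^ 2 / R + 4 * M / R * (R * (C' * (N : ℝ) ^ (1 - c'))) := by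
          gcongr
        _ ≤ 2 * ((N : ℝ) ^ (1 - c)) ^ 2 + 4 * C' * ((N : ℝ) ^ (1 - c)) ^ 2 := add_le_add t1 t2
        _ = (2 + 4 * C') * ((N : ℝ) ^ (1 - c)) ^ 2 := by ring
        _ ≤ (9 * C' ^ 2) * ((N : ℝ) ^ (1 - c)) ^ 2 := by
          refine mul_le_mul_of_nonneg_right ?_ (sq_nonneg _)
          nlinarith
        _ = (3 * C' * (N : ℝ) ^ (1 - c)) ^ 2 := by ring
    exact abs_le_of_sq_le_sq' hfin (by positivity) |>.2
  · calc ‖∑ n ∈ range M, ee (f n)‖ ≤ (M : ℝ) := V4_aux_triv f M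
      _ ≤ R := by exact_mod_cast hRM
      _ ≤ 2 * (N : ℝ) ^ ε := by linarith
      _ ≤ 2 * (N : ℝ) ^ (1 - c) := by
        have := V4_aux_pow hN (show ε ≤ 1 - c by linarith)
        linarith
      _ ≤ 3 * C' * (N : ℝ) ^ (1 - c) := by nlinarith

/-- PROOF. Induction on `k`. `k = 0`: `second_test` (note `λ ≤ N^(-κ₁) ≤ 1`): the sum is
`≤ 20 (h N N^(-κ₁/2) + N^(κ₂/2)) ≤ 40 h N^(1 - c)` with `c = min (κ₁/2) (1 - κ₂/2)`.
Step: let `c', C'` be the constants for `k` with `κ₁/2` in place of `κ₁`; put `ε = min (κ₁/2) (1/2)`,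
`R = ⌈N^ε⌉` (so `1 ≤ R ≤ 2 N^ε ≤ 2 N^(1/2)`). If `M ≤ R` use the trivial bound `M`. Otherwise `vdc` with
`z n = ee (f n)`: `z (n + r) conj (z n) = ee (f (n+r) - f n)`, to which the induction hypothesis applies with
`M - r`, `r λ` in `[N^(-κ₂), N^(-κ₁/2)]` (`1 ≤ r < R`, i.e. `r ≤ N^ε`, `N^ε N^(-κ₁) ≤ N^(-κ₁/2)`). Hence
`|S|² ≤ 2 N² / N^ε + 4 N · C' N^(1 - c')`, so `|S| ≤ 3 √C' N^(1 - min ε c' / 2)`. -/
theorem kth_test (k : ℕ) : ∀ κ₁ κ₂ h : ℝ, 0 < κ₁ → κ₁ ≤ κ₂ → κ₂ < 2 → 1 ≤ h →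
    ∃ c C : ℝ, 0 < c ∧ c ≤ 1 ∧ 1 ≤ C ∧ ∀ (N M : ℕ) (lam : ℝ) (f : ℕ → ℝ), 1 ≤ N → M ≤ N →
      (N : ℝ) ^ (-κ₂) ≤ lam → lam ≤ (N : ℝ) ^ (-κ₁) → DC k M lam h f →
      ‖∑ n ∈ range M, ee (f n)‖ ≤ C * (N : ℝ) ^ (1 - c) := by
  induction k with
  | zero => exact fun κ₁ κ₂ h h1 h12 h2 hh => V4_aux_base κ₁ κ₂ h h1 h12 h2 hh
  | succ k ih =>
    intro κ₁ κ₂ h h1 h12 h2 hh
    obtain ⟨c', C', hc', -, hC', hI⟩ := ih (κ₁ / 2) κ₂ h (by linarith) (by linarith) h2 hh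
    exact V4_aux_step k κ₁ κ₂ h c' C' h1 h12 hh hc' hC' hI

end Pool.Agent.E3
end
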