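import Pool.Agent.Lib.MP_bae66e_nt.Mg.G010
import Pool.Agent.Lib.MP_bae66e_nt.Mg.G003
import Pool.Agent.Lib.MP_bae66e_nt.Mg.G016
import Pool.Agent.Lib.MP_bae66e_nt.Mg.G017

section

/-!
# MVd1: the mean value of a power of a prime polynomial times a long prime polynomial
-/

set_option autoImplicit false

namespace Pool.Agent.E3

open Finset MeasureTheory Real
open Pool.Agent.Lib.MP_bae66e_nt.AP3 (prI mem_prI)

private theorem MVd1_ph_mul (t : ℝ) (a b : ℕ) (ha : 1 ≤ a) (hb : 1 ≤ b) :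
    ph t (Real.log a) * ph t (Real.log b) = ph t (Real.log ((a * b : ℕ) : ℝ)) := by
  unfold ph
  rw [← Complex.exp_add]
  congr 1
  have ha' : (a : ℝ) ≠ 0 := by
    have : (0 : ℝ) < a := by exact_mod_cast ha
    exact this.ne'
  have hb' : (b : ℝ) ≠ 0 := by
    have : (0 : ℝ) < b := by exact_mod_cast hb
    exact this.ne'
  rw [Nat.cast_mul, Real.log_mul ha' hb']
  push_cast
  ring

private theorem MVd1_gs_nonneg (β x y : ℝ) : 0 ≤ gs β x y := (Real.exp_pos _).le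

private theorem MVd1_gs_le_one (x y : ℝ) : gs 1 x y ≤ 1 := by
  unfold gs
  rw [Real.exp_le_one_iff]
  nlinarith [sq_nonneg (x - y)]

/-- PROOF. `pow_expand` for `DP f (IS R) t = ∑ (f r/r) ph t (log r)`; the product is a sum over
`(φ, q) ∈ piFinset (fun _ : Fin k => IS R) ×ˢ prI z Z` with the frequencies `log n`, `n = (∏ φ i) q`, and coefficients of modulus
`≤ gs 1 y (log q)/n`. `mv_fiber` with `J = (k+1)!` (`prime_fiber'`): the integral is `≤ (√π/Δ) (k+1)! ∑ (gs²/n²)(1 + 10 Δ n)`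
`= (√π/Δ) (k+1)! [(∑_r 1/r²)^k ∑_q gs²/q² + 10 Δ (∑_r 1/r)^k ∑_q gs²/q]` (`pow_expand_real`). Now `gs² ≤ gs`, `prI z Z ⊆ prI 0 Z`,
`∑ 1/r² ≤ 1/R`, `∑ 1/r ≤ 1` (`recip_IS_le_one`), `prime_window_sq`, `prime_window_le` (`β = 1`). -/
theorem mv_pow : ∃ C : ℝ, 1 ≤ C ∧ ∀ (k z Z R : ℕ) (y Δ : ℝ) (f g : ℕ → ℂ), 1 ≤ R → 2 ≤ y → 0 < Δ → Δ ≤ 1 →
      (∀ n, ‖f n‖ ≤ 1) → (∀ n, ‖g n‖ ≤ 1) →
      ∫ t : ℝ, Real.exp (-(Δ * t) ^ 2) * ‖(DP f (IS R) t) ^ k * WIN g 1 (prI z Z) t y‖ ^ 2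
        ≤ C * (k + 1).factorial * (Real.exp (-y) / (Δ * (R : ℝ) ^ k * y) + 1 / y) := by
  classical
  obtain ⟨C1, hC1, h1⟩ := prime_window_sq
  obtain ⟨C2, hC2, h2⟩ := prime_window_le 1 one_pos
  refine ⟨2 * (C1 + 10 * C2), by linarith, ?_⟩
  intro k z Z R y Δ f g hR hy hΔ hΔ1 hf hg
  set P := Fintype.piFinset (fun _ : Fin k => IS R) with hP
  set Q := prI z Z with hQ
  let n : (Fin k → ℕ) × ℕ → ℕ := fun x => (∏ i, x.1 i) * x.2
  let X : (Fin k → ℕ) × ℕ → ℂ := fun x =>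
    (∏ i, f (x.1 i) / (x.1 i : ℂ)) * (g x.2 * ((gs 1 y (Real.log x.2) / x.2 : ℝ) : ℂ))
  have hISp : ∀ r ∈ IS R, r.Prime := fun r hr => (mem_prI.mp hr).2
  have hQp : ∀ q ∈ Q, q.Prime := fun q hq => (mem_prI.mp hq).2
  have hn1 : ∀ x ∈ P ×ˢ Q, 1 ≤ ∏ i, x.1 i ∧ 1 ≤ x.2 ∧ ∀ i, 1 ≤ x.1 i := by
    intro x hx
    rw [Finset.mem_product] at hx
    have hx1 : ∀ i, x.1 i ∈ IS R := Fintype.mem_piFinset.mp hx.1
    have hx2 : ∀ i, 1 ≤ x.1 i := fun i => (hISp _ (hx1 i)).one_lt.le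
    exact ⟨Nat.one_le_iff_ne_zero.mpr (Finset.prod_ne_zero_iff.mpr fun i _ => by have := hx2 i; omega),
      (hQp _ hx.2).one_lt.le, hx2⟩
  have hexp : ∀ t, (DP f (IS R) t) ^ k * WIN g 1 Q t y = ∑ i ∈ P ×ˢ Q, X i * ph t (Real.log (n i)) := by
    intro t
    have e1 : DP f (IS R) t = ∑ r ∈ IS R, (f r / (r : ℂ)) * ph t (Real.log r) := by
      unfold DP
      refine Finset.sum_congr rfl fun r _ => ?_
      push_cast
      ring
    rw [e1, pow_expand (IS R) (fun r hr => (hISp r hr).one_lt.le) (fun r => f r / (r : ℂ)) t k]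
    unfold WIN
    rw [Finset.sum_mul_sum, ← Finset.sum_product']
    refine Finset.sum_congr rfl fun x hx => ?_
    obtain ⟨ha, hb, _⟩ := hn1 x hx
    have h3 := MVd1_ph_mul t (∏ i, x.1 i) x.2 ha hb
    show _ = X x * ph t (Real.log ((n x : ℕ) : ℝ))
    rw [show n x = (∏ i, x.1 i) * x.2 from rfl, ← h3]
    simp only [X]
    ring
  have hJ : ∀ m, (#{i ∈ P ×ˢ Q | n i = m} : ℝ) ≤ ((k + 1).factorial : ℝ) := fun m => by
    exact_mod_cast prime_fiber' (IS R) Q hISp hQp k m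
  have hmain := mv_fiber (P ×ˢ Q) X n ((k + 1).factorial : ℝ) Δ hΔ hΔ1
    (fun x hx => by
      obtain ⟨ha, hb, _⟩ := hn1 x hx
      exact Nat.one_le_iff_ne_zero.mpr (Nat.mul_ne_zero (by omega) (by omega))) hJ
  simp_rw [hexp]
  refine hmain.trans ?_
  -- the sum
  have hR0 : (0 : ℝ) < R := by exact_mod_cast hR
  have hy0 : 0 < y := by linarith
  have hterm : ∀ x ∈ P ×ˢ Q, ‖X x‖ ^ 2 * (1 + 10 * Δ * n x)
      ≤ (∏ i, 1 / (x.1 i : ℝ) ^ 2) * (gs 1 y (Real.log x.2) / (x.2 : ℝ) ^ 2)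
        + 10 * Δ * ((∏ i, 1 / (x.1 i : ℝ)) * (gs 1 y (Real.log x.2) / (x.2 : ℝ))) := by
    intro x hx
    obtain ⟨ha, hb, hc⟩ := hn1 x hx
    have hq0 : (0 : ℝ) < x.2 := by exact_mod_cast hb
    set G := gs 1 y (Real.log x.2) with hG
    have hG0 : 0 ≤ G := MVd1_gs_nonneg _ _ _
    have hG1 : G ≤ 1 := MVd1_gs_le_one _ _
    set U : ℝ := ∏ i, 1 / (x.1 i : ℝ) with hU
    have hU0 : 0 ≤ U := Finset.prod_nonneg fun i _ => by positivity
    have hUX : ‖X x‖ ≤ U * (G / x.2) := by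
      simp only [X]
      rw [norm_mul, norm_mul, norm_prod, Complex.norm_real, Real.norm_eq_abs,
        abs_of_nonneg (div_nonneg hG0 hq0.le)]
      refine mul_le_mul ?_ ?_ (by positivity) hU0
      · refine Finset.prod_le_prod (fun i _ => norm_nonneg _) fun i _ => ?_
        rw [norm_div, Complex.norm_natCast]
        exact div_le_div_of_nonneg_right (hf _) (Nat.cast_nonneg _)
      · exact mul_le_of_le_one_left (div_nonneg hG0 hq0.le) (hg _)
    have hU2 : ∏ i, 1 / (x.1 i : ℝ) ^ 2 = U ^ 2 := by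
      rw [hU, ← Finset.prod_pow]
      refine Finset.prod_congr rfl fun i _ => ?_
      rw [div_pow, one_pow]
    have hUn : U * (n x : ℝ) = x.2 := by
      have h4 : U * ((∏ i, x.1 i : ℕ) : ℝ) = 1 := by
        rw [hU, Nat.cast_prod, ← Finset.prod_mul_distrib]
        refine Finset.prod_eq_one fun i _ => ?_
        have : (x.1 i : ℝ) ≠ 0 := by
          have : (0 : ℝ) < x.1 i := by exact_mod_cast hc i
          exact this.ne'
        field_simp
      show U * (((∏ i, x.1 i) * x.2 : ℕ) : ℝ) = x.2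
      rw [Nat.cast_mul, ← mul_assoc, h4, one_mul]
    have hX2 : ‖X x‖ ^ 2 ≤ (U * (G / x.2)) ^ 2 := pow_le_pow_left₀ (norm_nonneg _) hUX 2
    have hGG : G ^ 2 ≤ G := by nlinarith
    rw [hU2]
    have hn0 : (0 : ℝ) ≤ n x := Nat.cast_nonneg _
    calc ‖X x‖ ^ 2 * (1 + 10 * Δ * n x) ≤ (U * (G / x.2)) ^ 2 * (1 + 10 * Δ * n x) :=
          mul_le_mul_of_nonneg_right hX2 (by positivity)
      _ = U ^ 2 * (G ^ 2 / (x.2 : ℝ) ^ 2) + 10 * Δ * (U * (G ^ 2 / (x.2 : ℝ) ^ 2) * (U * n x)) := by ring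
      _ = U ^ 2 * (G ^ 2 / (x.2 : ℝ) ^ 2) + 10 * Δ * (U * (G ^ 2 / (x.2 : ℝ))) := by
          rw [hUn]
          field_simp
      _ ≤ _ := by
          have j1 : U ^ 2 * (G ^ 2 / (x.2 : ℝ) ^ 2) ≤ U ^ 2 * (G / (x.2 : ℝ) ^ 2) := by gcongr
          have j2 : 10 * Δ * (U * (G ^ 2 / (x.2 : ℝ))) ≤ 10 * Δ * (U * (G / (x.2 : ℝ))) := by gcongr
          linarith
  have hsum : ∑ x ∈ P ×ˢ Q, ‖X x‖ ^ 2 * (1 + 10 * Δ * n x)
      ≤ (1 / (R : ℝ)) ^ k * (C1 * Real.exp (-y) / y) + 10 * Δ * (C2 / y) := by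
    refine (Finset.sum_le_sum hterm).trans ?_
    rw [Finset.sum_add_distrib, ← Finset.mul_sum]
    have e2 : ∑ x ∈ P ×ˢ Q, (∏ i, 1 / (x.1 i : ℝ) ^ 2) * (gs 1 y (Real.log x.2) / (x.2 : ℝ) ^ 2)
        = (∑ r ∈ IS R, 1 / (r : ℝ) ^ 2) ^ k * ∑ q ∈ Q, gs 1 y (Real.log q) / (q : ℝ) ^ 2 := by
      rw [← pow_expand_real (IS R) (fun r => 1 / (r : ℝ) ^ 2) k, Finset.sum_mul_sum, ← Finset.sum_product']
    have e3 : ∑ x ∈ P ×ˢ Q, (∏ i, 1 / (x.1 i : ℝ)) * (gs 1 y (Real.log x.2) / (x.2 : ℝ))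
        = (∑ r ∈ IS R, 1 / (r : ℝ)) ^ k * ∑ q ∈ Q, gs 1 y (Real.log q) / (q : ℝ) := by
      rw [← pow_expand_real (IS R) (fun r => 1 / (r : ℝ)) k, Finset.sum_mul_sum, ← Finset.sum_product']
    rw [e2, e3]
    obtain ⟨hr1, hr2⟩ := recip_IS_le_one R hR
    have hsub : Q ⊆ prI 0 Z := by
      intro q hq
      rw [hQ, mem_prI] at hq
      rw [mem_prI]
      exact ⟨⟨hq.2.pos, hq.1.2⟩, hq.2⟩
    have hq1 : ∑ q ∈ Q, gs 1 y (Real.log q) / (q : ℝ) ^ 2 ≤ C1 * Real.exp (-y) / y :=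
      (Finset.sum_le_sum_of_subset_of_nonneg hsub fun q _ _ =>
        div_nonneg (MVd1_gs_nonneg _ _ _) (by positivity)).trans (h1 Z y hy)
    have hq2 : ∑ q ∈ Q, gs 1 y (Real.log q) / (q : ℝ) ≤ C2 / y :=
      (Finset.sum_le_sum_of_subset_of_nonneg hsub fun q _ _ =>
        div_nonneg (MVd1_gs_nonneg _ _ _) (by positivity)).trans (h2 Z y (by linarith))
    have hs1 : 0 ≤ ∑ q ∈ Q, gs 1 y (Real.log q) / (q : ℝ) ^ 2 :=
      Finset.sum_nonneg fun q _ => div_nonneg (MVd1_gs_nonneg _ _ _) (by positivity)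
    have hs2 : 0 ≤ ∑ q ∈ Q, gs 1 y (Real.log q) / (q : ℝ) :=
      Finset.sum_nonneg fun q _ => div_nonneg (MVd1_gs_nonneg _ _ _) (by positivity)
    have ht1 : 0 ≤ ∑ r ∈ IS R, 1 / (r : ℝ) ^ 2 := Finset.sum_nonneg fun r _ => by positivity
    have ht2 : 0 ≤ ∑ r ∈ IS R, 1 / (r : ℝ) := Finset.sum_nonneg fun r _ => by positivity
    have k1 : (∑ r ∈ IS R, 1 / (r : ℝ) ^ 2) ^ k ≤ (1 / (R : ℝ)) ^ k := pow_le_pow_left₀ ht1 hr2 k
    have k2 : (∑ r ∈ IS R, 1 / (r : ℝ)) ^ k ≤ 1 := pow_le_one₀ ht2 hr1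
    have m1 := mul_le_mul k1 hq1 hs1 (by positivity)
    have m2 := mul_le_mul k2 hq2 hs2 (by norm_num)
    rw [one_mul] at m2
    have m3 := mul_le_mul_of_nonneg_left m2 (show (0 : ℝ) ≤ 10 * Δ by positivity)
    linarith
  have hpi : Real.sqrt π ≤ 2 := by
    rw [Real.sqrt_le_left (by norm_num)]
    have := Real.pi_le_four
    linarith
  have hF0 : (0 : ℝ) ≤ ((k + 1).factorial : ℝ) := Nat.cast_nonneg _
  have hS0 : 0 ≤ (1 / (R : ℝ)) ^ k * (C1 * Real.exp (-y) / y) + 10 * Δ * (C2 / y) := by positivity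
  calc Real.sqrt π / Δ * ((k + 1).factorial : ℝ) * ∑ x ∈ P ×ˢ Q, ‖X x‖ ^ 2 * (1 + 10 * Δ * n x)
      ≤ Real.sqrt π / Δ * ((k + 1).factorial : ℝ)
          * ((1 / (R : ℝ)) ^ k * (C1 * Real.exp (-y) / y) + 10 * Δ * (C2 / y)) :=
        mul_le_mul_of_nonneg_left hsum (by positivity)
    _ ≤ 2 / Δ * ((k + 1).factorial : ℝ)
          * ((1 / (R : ℝ)) ^ k * (C1 * Real.exp (-y) / y) + 10 * Δ * (C2 / y)) := by
        gcongr
    _ = 2 * ((k + 1).factorial : ℝ) * (C1 * (Real.exp (-y) / (Δ * (R : ℝ) ^ k * y)) + 10 * C2 * (1 / y)) := by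
        rw [one_div, inv_pow]
        field_simp
    _ ≤ 2 * ((k + 1).factorial : ℝ) * ((C1 + 10 * C2) * (Real.exp (-y) / (Δ * (R : ℝ) ^ k * y))
          + (C1 + 10 * C2) * (1 / y)) := by
        gcongr
        · linarith
        · linarith
    _ = _ := by ring

end Pool.Agent.E3
end

section

/-!
# V6: the sums of `(n + θ) ^ (- i u)`, large `u`
-/

set_option autoImplicit false

namespace Pool.Agent.E3

open Finset MeasureTheory Real
open Pool.Agent.MC (ee)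

private lemma V6_sum (s : Finset ℕ) (y : ℕ → ℝ) (u e : ℝ) (he : e = 1 ∨ e = -1) :
    ‖∑ n ∈ s, ph u (y n)‖ = ‖∑ n ∈ s, ee (e * (|u| / (2 * π)) * y n)‖ := by
  have h1 : ∀ n, ee (e * (|u| / (2 * π)) * y n) =
      Complex.exp (((e * |u| * y n : ℝ) : ℂ) * Complex.I) := by
    intro n
    unfold ee
    congr 1
    push_cast
    have : (π : ℂ) ≠ 0 := by exact_mod_cast Real.pi_ne_zero
    field_simp
  have h2 : e * |u| = -u ∨ e * |u| = u := by
    rcases he with rfl | rfl <;> rcases abs_choice u with h | h <;> rw [h] <;> simp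
  simp only [h1]
  rcases h2 with h2 | h2
  · congr 1
    refine Finset.sum_congr rfl fun n _ => ?_
    rw [h2]
    unfold ph
    congr 2
    push_cast
    ring
  · have h3 : ∑ n ∈ s, ph u (y n) = (starRingEnd ℂ) (∑ n ∈ s,
        Complex.exp (((e * |u| * y n : ℝ) : ℂ) * Complex.I)) := by
      rw [map_sum]
      refine Finset.sum_congr rfl fun n _ => ?_
      rw [← Complex.exp_conj, map_mul, Complex.conj_I, Complex.conj_ofReal, h2]
      unfold ph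
      congr 1
      push_cast
      ring
    rw [h3, Complex.norm_conj]

private lemma V6_triv (M : ℕ) (y : ℕ → ℝ) (u : ℝ) : ‖∑ n ∈ range M, ph u (y n)‖ ≤ M := by
  refine (norm_sum_le _ _).trans ?_
  have : ∀ n ∈ range M, ‖ph u (y n)‖ ≤ 1 := by
    intro n _
    unfold ph
    rw [Complex.norm_exp_ofReal_mul_I]
  refine (Finset.sum_le_sum this).trans ?_
  simp

/-- PROOF. We may suppose `u > 0` (conjugation: `ph (-u) x = conj (ph u x)`). Let `c₀, C₀` be the minimum and the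
maximum of the constants of `kth_test k (1/4) (7/4) (3^(k+2))` over `k ≤ A + 1`. Write `u = N^κ`, `1/2 ≤ κ ≤ A`
(for `N ≥ 2`), and let `k + 2 = ⌊κ + 1/2⌋ + 1 ≥ 2`, so `k ≤ A`, and `ρ = k + 2 - κ` is in `[1/2, 3/2]`. The number
`λ = (u / 2π) (k+1)! / (3N)^(k+2) = ((k+1)! / (2π 3^(k+2))) N^(-ρ)` is in `[N^(-7/4), N^(-1/4)]` for `N ≥ N₀(A)`.
By `dc_log` and `kth_test`, `|∑_{n<M} ee (± (u/2π) log (N+n+θ))| ≤ C₀ N^(1-c₀)`, and
`ee ((u/2π) y) = ph (-u) y`, `ee (-(u/2π) y) = ph u y`, so up to conjugation this is our sum.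
For `N < N₀(A)` use the trivial bound `M ≤ N ≤ N₀`. -/
theorem expsum_large (A : ℕ) (hA : 1 ≤ A) : ∃ c C : ℝ, 0 < c ∧ c ≤ 1 ∧ 1 ≤ C ∧
    ∀ (N M : ℕ) (θ u : ℝ), 1 ≤ N → M ≤ N → 0 ≤ θ → θ ≤ 1 →
      (N : ℝ) ^ (1 / 2 : ℝ) ≤ |u| → |u| ≤ (N : ℝ) ^ (A : ℝ) →
      ‖∑ n ∈ range M, ph u (Real.log (N + n + θ))‖ ≤ C * (N : ℝ) ^ (1 - c) := by
  have hk := fun k : ℕ => kth_test k (1 / 4) (7 / 4) (3 ^ (k + 2)) (by norm_num) (by norm_num)
    (by norm_num) (one_le_pow₀ (by norm_num))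
  choose c C hc0 hc1 hC1 hcC using hk
  obtain ⟨k₀, -, hk₀⟩ := Finset.exists_min_image (range (A + 2)) c ⟨0, by simp⟩
  obtain ⟨k₁, -, hk₁⟩ := Finset.exists_max_image (range (A + 2)) C ⟨0, by simp⟩
  obtain ⟨B, hB⟩ : ∃ B : ℝ, B = ((A + 1).factorial : ℝ) + 7 * 3 ^ (A + 2) := ⟨_, rfl⟩
  have hfac1 : (1 : ℝ) ≤ ((A + 1).factorial : ℝ) := by exact_mod_cast (A + 1).factorial_pos
  have h3A : (0 : ℝ) < 3 ^ (A + 2) := by positivity
  have hB1 : 1 ≤ B := by rw [hB]; linarith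
  have hB2 : 7 * 3 ^ (A + 2) ≤ B := by rw [hB]; linarith
  have hB3 : ((A + 1).factorial : ℝ) ≤ B := by rw [hB]; linarith
  have hB7 : 7 ≤ B := by
    have : (1 : ℝ) ≤ 3 ^ (A + 2) := one_le_pow₀ (by norm_num)
    linarith
  have hB4 : 0 ≤ B ^ 4 := by positivity
  refine ⟨c k₀, C k₁ + B ^ 4, hc0 k₀, hc1 k₀, by linarith [hC1 k₁], ?_⟩
  intro N M θ u hN hM hθ hθ1 hu1 hu2
  have hN1 : (1 : ℝ) ≤ N := by exact_mod_cast hN
  have hN0 : (0 : ℝ) < N := by linarith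
  have hMN : (M : ℝ) ≤ N := by exact_mod_cast hM
  have hpow1 : 1 ≤ (N : ℝ) ^ (1 - c k₀) := Real.one_le_rpow hN1 (by linarith [hc1 k₀])
  have hC0 : 0 ≤ C k₁ := by linarith [hC1 k₁]
  by_cases hNB : (N : ℝ) < B ^ 4
  · calc ‖∑ n ∈ range M, ph u (Real.log (N + n + θ))‖ ≤ M := V6_triv M _ u
      _ ≤ B ^ 4 * 1 := by linarith
      _ ≤ (C k₁ + B ^ 4) * (N : ℝ) ^ (1 - c k₀) := by
          refine mul_le_mul (by linarith) hpow1 (by norm_num) (by positivity)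
  push Not at hNB
  have hN14 : B ≤ (N : ℝ) ^ (1 / 4 : ℝ) := by
    calc B = (B ^ 4) ^ (1 / 4 : ℝ) := by
          rw [← Real.rpow_natCast, ← Real.rpow_mul (by linarith)]
          norm_num
      _ ≤ (N : ℝ) ^ (1 / 4 : ℝ) := Real.rpow_le_rpow (by positivity) hNB (by norm_num)
  have hN2 : (1 : ℝ) < N := by
    have : (1 : ℝ) < B ^ 4 := one_lt_pow₀ (by linarith) (by norm_num)
    linarith
  have hlogN : 0 < Real.log N := Real.log_pos hN2
  have hu0 : 0 < |u| := lt_of_lt_of_le (by positivity) hu1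
  obtain ⟨κ, hκ⟩ : ∃ κ : ℝ, κ = Real.log |u| / Real.log N := ⟨_, rfl⟩
  have huκ : |u| = (N : ℝ) ^ κ := by
    rw [hκ, Real.rpow_def_of_pos hN0, mul_div_cancel₀ _ hlogN.ne', Real.exp_log hu0]
  have hκ1 : 1 / 2 ≤ κ := by
    rw [hκ, le_div_iff₀ hlogN, ← Real.log_rpow hN0]
    exact Real.log_le_log (by positivity) hu1
  have hκ2 : κ ≤ A := by
    rw [hκ, div_le_iff₀ hlogN, ← Real.log_rpow hN0]
    exact Real.log_le_log hu0 hu2
  obtain ⟨m, hm⟩ : ∃ m : ℕ, m = ⌊κ + 1 / 2⌋₊ := ⟨_, rfl⟩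
  have hm1 : (m : ℝ) ≤ κ + 1 / 2 := by rw [hm]; exact Nat.floor_le (by linarith)
  have hm2 : κ + 1 / 2 < m + 1 := by rw [hm]; exact Nat.lt_floor_add_one _
  have hm3 : 1 ≤ m := by
    rw [hm]
    exact Nat.le_floor (by push_cast; linarith)
  have hmA : m ≤ A := by
    have h1 : (m : ℝ) < A + 1 := by linarith
    have h2 : m < A + 1 := by exact_mod_cast h1
    omega
  obtain ⟨k, rfl⟩ : ∃ k, m = k + 1 := ⟨m - 1, by omega⟩
  push_cast at hm1 hm2
  have hfk1 : (1 : ℝ) ≤ ((k + 1).factorial : ℝ) := by exact_mod_cast (k + 1).factorial_pos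
  have hfk2 : ((k + 1).factorial : ℝ) ≤ ((A + 1).factorial : ℝ) := by
    exact_mod_cast Nat.factorial_le (by omega)
  have h3k : (3 : ℝ) ^ (k + 2) ≤ 3 ^ (A + 2) := pow_le_pow_right₀ (by norm_num) (by omega)
  have h3k1 : (1 : ℝ) ≤ 3 ^ (k + 2) := one_le_pow₀ (by norm_num)
  have hpi0 := Real.pi_pos
  have hpi3 := Real.pi_gt_three
  have hpi4 : π < 3.15 := Real.pi_lt_d2
  obtain ⟨c', hc'⟩ : ∃ c' : ℝ, c' = ((k + 1).factorial : ℝ) / (2 * π * 3 ^ (k + 2)) := ⟨_, rfl⟩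
  have hc'1 : c' ≤ (N : ℝ) ^ (1 / 4 : ℝ) := by
    have h1 : c' ≤ ((k + 1).factorial : ℝ) := by
      rw [hc']
      refine div_le_self (by positivity) ?_
      nlinarith
    linarith
  have hc'2 : (N : ℝ) ^ (-(1 / 4) : ℝ) ≤ c' := by
    have h1 : 1 / (7 * 3 ^ (A + 2)) ≤ c' := by
      rw [hc']
      refine div_le_div₀ (by positivity) hfk1 (by positivity) ?_
      refine mul_le_mul (by linarith) h3k (by positivity) (by norm_num)
    have h2 : (N : ℝ) ^ (-(1 / 4) : ℝ) ≤ 1 / (7 * 3 ^ (A + 2)) := by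
      rw [Real.rpow_neg hN0.le, ← one_div]
      exact one_div_le_one_div_of_le (by positivity) (by linarith)
    linarith
  obtain ⟨lam, hlam⟩ : ∃ lam : ℝ, lam = |u| / (2 * π) * (k + 1).factorial / (3 * (N : ℝ)) ^ (k + 2) :=
    ⟨_, rfl⟩
  have hlam' : lam = c' * (N : ℝ) ^ (κ - (k + 2)) := by
    have h1 : (N : ℝ) ^ (κ - (k + 2)) = (N : ℝ) ^ κ / (N : ℝ) ^ (k + 2) := by
      rw [Real.rpow_sub hN0]
      congr 1
      rw [← Real.rpow_natCast]
      push_cast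
      rfl
    rw [hlam, hc', h1, huκ, mul_pow]
    field_simp
  have hlam1 : (N : ℝ) ^ (-(7 / 4) : ℝ) ≤ lam := by
    rw [hlam']
    have h1 : (N : ℝ) ^ (-(3 / 2) : ℝ) ≤ (N : ℝ) ^ (κ - (k + 2)) :=
      Real.rpow_le_rpow_of_exponent_le hN1 (by linarith)
    calc (N : ℝ) ^ (-(7 / 4) : ℝ) = (N : ℝ) ^ (-(1 / 4) : ℝ) * (N : ℝ) ^ (-(3 / 2) : ℝ) := by
          rw [← Real.rpow_add hN0]; norm_num
      _ ≤ c' * (N : ℝ) ^ (κ - (k + 2)) := by
          refine mul_le_mul hc'2 h1 (by positivity) ?_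
          exact le_trans (by positivity) hc'2
  have hlam2 : lam ≤ (N : ℝ) ^ (-(1 / 4) : ℝ) := by
    rw [hlam']
    have h1 : (N : ℝ) ^ (κ - (k + 2)) ≤ (N : ℝ) ^ (-(1 / 2) : ℝ) :=
      Real.rpow_le_rpow_of_exponent_le hN1 (by linarith)
    calc c' * (N : ℝ) ^ (κ - (k + 2)) ≤ (N : ℝ) ^ (1 / 4 : ℝ) * (N : ℝ) ^ (-(1 / 2) : ℝ) :=
          mul_le_mul hc'1 h1 (by positivity) (by positivity)
      _ = (N : ℝ) ^ (-(1 / 4) : ℝ) := by
          rw [← Real.rpow_add hN0]; norm_num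
  have hdc := dc_log k N M hN hM θ |u| hθ hθ1 hu0
  rw [← hlam] at hdc
  have hmain := hcC k N M lam _ hN hM hlam1 hlam2 hdc
  have hsum := V6_sum (range M) (fun n => Real.log (N + n + θ)) u ((-1) ^ (k + 1)) (by
    rcases neg_one_pow_eq_or ℝ (k + 1) with h | h
    · exact Or.inl h
    · exact Or.inr h)
  rw [hsum]
  refine hmain.trans ?_
  have hkA : k ∈ range (A + 2) := by rw [Finset.mem_range]; omega
  have e1 := hk₀ k hkA
  have e2 := hk₁ k hkA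
  have e3 : (N : ℝ) ^ (1 - c k) ≤ (N : ℝ) ^ (1 - c k₀) :=
    Real.rpow_le_rpow_of_exponent_le hN1 (by linarith)
  have e4 : 0 ≤ B ^ 4 := by positivity
  exact mul_le_mul (by linarith) e3 (by positivity) (by linarith)

end Pool.Agent.E3
end

section

/-!
# V7: the sums of `(n + θ) ^ (- i u)`, all `u`
-/

set_option autoImplicit false

namespace Pool.Agent.E3

open Finset MeasureTheory Real
open Pool.Agent.MC (ee)

private theorem V7_norm_ph (u x : ℝ) : ‖ph u x‖ = 1 := by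
  unfold ph
  exact Complex.norm_exp_ofReal_mul_I _

private theorem V7_ph_sub (u α β : ℝ) : ‖ph u α - ph u β‖ ≤ |u| * |α - β| := by
  have h : ph u α - ph u β =
      ph u β * (Complex.exp (Complex.I * ((-(u * (α - β)) : ℝ) : ℂ)) - 1) := by
    unfold ph
    rw [mul_sub, mul_one, ← Complex.exp_add]
    congr 1
    congr 1
    push_cast
    ring
  rw [h, norm_mul, V7_norm_ph, one_mul]
  refine (Real.norm_exp_I_mul_ofReal_sub_one_le).trans ?_
  rw [Real.norm_eq_abs, abs_neg, abs_mul]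

private theorem V7_deriv_ph (u a x : ℝ) (h : 0 < a + x) :
    HasDerivAt (fun t : ℝ => ph u (Real.log (a + t)))
      (ph u (Real.log (a + x)) * (((-(u * (1 / (a + x))) : ℝ) : ℂ) * Complex.I)) x := by
  have h1 : HasDerivAt (fun t : ℝ => Real.log (a + t)) (1 / (a + x)) x := by
    have := (hasDerivAt_id x).const_add a
    exact this.log (ne_of_gt h)
  have h2 : HasDerivAt (fun t : ℝ => -(u * Real.log (a + t))) (-(u * (1 / (a + x)))) x :=
    (h1.const_mul u).neg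
  have h3 := (h2.ofReal_comp.mul_const Complex.I).cexp
  exact h3

private theorem V7_deriv_G (u a x : ℝ) (h : 0 < a + x) :
    HasDerivAt (fun t : ℝ => (((a + t : ℝ) : ℂ) * ph u (Real.log (a + t))) / (1 - (u : ℂ) * Complex.I))
      (ph u (Real.log (a + x))) x := by
  have h1 : HasDerivAt (fun t : ℝ => a + t) 1 x := (hasDerivAt_id x).const_add a
  have h2 := ((h1.ofReal_comp).mul (V7_deriv_ph u a x h)).div_const (1 - (u : ℂ) * Complex.I)
  have hne : (1 - (u : ℂ) * Complex.I) ≠ 0 := by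
    intro h0
    have := congrArg Complex.re h0
    simp at this
  have hx : ((a + x : ℝ) : ℂ) ≠ 0 := by exact_mod_cast ne_of_gt h
  have e : ph u (Real.log (a + x)) = (((1 : ℝ) : ℂ) * ph u (Real.log (a + x)) + ((a + x : ℝ) : ℂ) *
      (ph u (Real.log (a + x)) * (((-(u * (1 / (a + x))) : ℝ) : ℂ) * Complex.I))) /
      (1 - (u : ℂ) * Complex.I) := by
    rw [eq_div_iff hne]
    push_cast at hx ⊢
    field_simp
    ring
  rw [e]
  exact h2

private theorem V7_step (u a : ℝ) (n : ℕ) (ha : 0 < a) :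
    ‖((((a + (n + 1 : ℕ) : ℝ) : ℂ) * ph u (Real.log (a + (n + 1 : ℕ)))) / (1 - (u : ℂ) * Complex.I)
      - (((a + (n : ℕ) : ℝ) : ℂ) * ph u (Real.log (a + (n : ℕ)))) / (1 - (u : ℂ) * Complex.I))
      - ph u (Real.log (a + n))‖ ≤ |u| / a := by
  set G : ℝ → ℂ := fun t : ℝ =>
    (((a + t : ℝ) : ℂ) * ph u (Real.log (a + t))) / (1 - (u : ℂ) * Complex.I) with hG
  set c : ℂ := ph u (Real.log (a + n)) with hc
  have hn0 : (0 : ℝ) ≤ n := Nat.cast_nonneg n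
  have key := norm_image_sub_le_of_norm_deriv_le_segment' (f := fun t : ℝ => G t - (t : ℂ) * c)
    (f' := fun t : ℝ => ph u (Real.log (a + t)) - c) (a := (n : ℝ)) (b := (n : ℝ) + 1) (C := |u| / a)
    (fun x hx => by
      have hx0 : 0 < a + x := by linarith [hx.1]
      have h1 := V7_deriv_G u a x hx0
      have h2 : HasDerivAt (fun t : ℝ => (t : ℂ) * c) (1 * c) x := by
        have := (hasDerivAt_id x).ofReal_comp
        exact (by simpa using this.mul_const c)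
      have h3 := h1.sub h2
      rw [one_mul] at h3
      exact h3.hasDerivWithinAt)
    (fun x hx => by
      have hx0 : 0 < a + x := by linarith [hx.1]
      have hxn : 0 < a + n := by linarith
      refine (V7_ph_sub u _ _).trans ?_
      have hlog : |Real.log (a + x) - Real.log (a + n)| ≤ 1 / a := by
        rw [← Real.log_div (ne_of_gt hx0) (ne_of_gt hxn)]
        have hr : 1 ≤ (a + x) / (a + n) := by
          rw [le_div_iff₀ hxn]
          linarith [hx.1]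
        rw [abs_of_nonneg (Real.log_nonneg hr)]
        refine (Real.log_le_sub_one_of_pos (by positivity)).trans ?_
        rw [div_sub_one (ne_of_gt hxn), div_le_div_iff₀ hxn ha]
        nlinarith [hx.1, hx.2]
      calc |u| * |Real.log (a + x) - Real.log (a + n)| ≤ |u| * (1 / a) :=
            mul_le_mul_of_nonneg_left hlog (abs_nonneg _)
        _ = |u| / a := by ring)
    ((n : ℝ) + 1) (by constructor <;> linarith)
  have e1 : G ((n : ℝ) + 1) - (((n : ℝ) + 1 : ℝ) : ℂ) * c - (G (n : ℝ) - ((n : ℝ) : ℂ) * c)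
      = G ((n : ℝ) + 1) - G (n : ℝ) - c := by
    push_cast
    ring
  have e2 : |u| / a * ((n : ℝ) + 1 - n) = |u| / a := by ring
  rw [e2] at key
  have key' : ‖G ((n : ℝ) + 1) - G (n : ℝ) - c‖ ≤ |u| / a := by
    rw [← e1]
    exact key
  have e3 : (((n + 1 : ℕ)) : ℝ) = (n : ℝ) + 1 := by push_cast; ring
  rw [e3]
  exact key'

private theorem V7_sum (u a : ℝ) (M : ℕ) (ha : 0 < a) (hu : 1 ≤ |u|) :
    ‖∑ n ∈ range M, ph u (Real.log (a + n))‖ ≤ (2 * a + M) / |u| + M * (|u| / a) := by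
  set G : ℕ → ℂ := fun n : ℕ =>
    (((a + (n : ℕ) : ℝ) : ℂ) * ph u (Real.log (a + (n : ℕ)))) / (1 - (u : ℂ) * Complex.I) with hG
  have htel : ∑ n ∈ range M, (G (n + 1) - G n) = G M - G 0 := Finset.sum_range_sub G M
  have hbd : ∀ n : ℕ, ‖G n‖ ≤ (a + n) / |u| := by
    intro n
    rw [hG]
    simp only
    rw [norm_div, norm_mul, V7_norm_ph, mul_one, Complex.norm_real, Real.norm_eq_abs,
      abs_of_nonneg (by positivity : (0 : ℝ) ≤ a + n)]
    have hden : |u| ≤ ‖(1 - (u : ℂ) * Complex.I)‖ := by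
      have := Complex.abs_im_le_norm (1 - (u : ℂ) * Complex.I)
      simpa using this
    exact div_le_div_of_nonneg_left (by positivity) (by linarith) hden
  have hsum : ∑ n ∈ range M, ph u (Real.log (a + n))
      = (G M - G 0) - ∑ n ∈ range M, ((G (n + 1) - G n) - ph u (Real.log (a + n))) := by
    rw [Finset.sum_sub_distrib, htel]
    ring
  rw [hsum]
  refine (norm_sub_le _ _).trans ?_
  have h1 : ‖G M - G 0‖ ≤ (2 * a + M) / |u| := by
    refine (norm_sub_le _ _).trans ?_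
    have := hbd M
    have h0 := hbd 0
    calc ‖G M‖ + ‖G 0‖ ≤ (a + M) / |u| + (a + (0 : ℕ)) / |u| := add_le_add this h0
      _ = (2 * a + M) / |u| := by push_cast; ring
  have h2 : ‖∑ n ∈ range M, ((G (n + 1) - G n) - ph u (Real.log (a + n)))‖ ≤ M * (|u| / a) := by
    refine (norm_sum_le _ _).trans ?_
    calc ∑ n ∈ range M, ‖(G (n + 1) - G n) - ph u (Real.log (a + n))‖
        ≤ ∑ _n ∈ range M, |u| / a := Finset.sum_le_sum (fun n _ => V7_step u a n ha)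
      _ = M * (|u| / a) := by rw [Finset.sum_const, Finset.card_range, nsmul_eq_mul]
  linarith

/-- PROOF. For `|u| ≥ N^(1/2)` this is `expsum_large`. For `1 ≤ |u| ≤ N^(1/2)` compare with the integral:
`g x = ph u (log (N + x + θ))` has `|g' x| ≤ |u| / N`, so
`|∑_{n<M} g n - ∫_0^M g| ≤ M |u| / N ≤ |u|`, and a primitive of `g` is
`(N + x + θ) g x / (1 - i u)`, so `|∫_0^M g| ≤ 2 · 3 N / |u|`. Total `≤ 6 N / |u| + |u| ≤ 7 N / |u|`, because
`|u|² ≤ N`. -/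
theorem expsum_all (A : ℕ) (hA : 1 ≤ A) : ∃ c C : ℝ, 0 < c ∧ c ≤ 1 ∧ 1 ≤ C ∧
    ∀ (N M : ℕ) (θ u : ℝ), 1 ≤ N → M ≤ N → 0 ≤ θ → θ ≤ 1 →
      1 ≤ |u| → |u| ≤ (N : ℝ) ^ (A : ℝ) →
      ‖∑ n ∈ range M, ph u (Real.log (N + n + θ))‖ ≤ C * ((N : ℝ) ^ (1 - c) + N / |u|) := by
  obtain ⟨c, C, hc0, hc1, hC, h⟩ := expsum_large A hA
  refine ⟨c, max C 7, hc0, hc1, le_max_of_le_left hC, ?_⟩
  intro N M θ u hN hM hθ0 hθ1 hu1 hu2
  have hNpos : (0 : ℝ) < N := by exact_mod_cast hN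
  have hN1 : (1 : ℝ) ≤ N := by exact_mod_cast hN
  have hupos : 0 < |u| := by linarith
  have hpow : (0 : ℝ) ≤ (N : ℝ) ^ (1 - c) := Real.rpow_nonneg hNpos.le _
  have hdiv : 0 ≤ (N : ℝ) / |u| := by positivity
  by_cases hlarge : (N : ℝ) ^ (1 / 2 : ℝ) ≤ |u|
  · refine (h N M θ u hN hM hθ0 hθ1 hlarge hu2).trans ?_
    calc C * (N : ℝ) ^ (1 - c) ≤ max C 7 * (N : ℝ) ^ (1 - c) :=
          mul_le_mul_of_nonneg_right (le_max_left _ _) hpow
      _ ≤ max C 7 * ((N : ℝ) ^ (1 - c) + N / |u|) := by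
          refine mul_le_mul_of_nonneg_left (by linarith) ?_
          exact le_trans (by norm_num) (le_max_right C 7)
  · have hsmall : |u| < (N : ℝ) ^ (1 / 2 : ℝ) := not_le.mp hlarge
    have hsq : |u| * |u| ≤ N := by
      have h1 : |u| * |u| ≤ (N : ℝ) ^ (1 / 2 : ℝ) * (N : ℝ) ^ (1 / 2 : ℝ) :=
        mul_le_mul hsmall.le hsmall.le hupos.le (Real.rpow_nonneg hNpos.le _)
      rw [← Real.rpow_add hNpos, show (1 / 2 : ℝ) + 1 / 2 = 1 by norm_num, Real.rpow_one] at h1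
      exact h1
    have ha : (0 : ℝ) < N + θ := by linarith
    have hs := V7_sum u ((N : ℝ) + θ) M ha hu1
    have hcongr : ∑ n ∈ range M, ph u (Real.log (N + n + θ))
        = ∑ n ∈ range M, ph u (Real.log (((N : ℝ) + θ) + n)) := by
      refine Finset.sum_congr rfl (fun n _ => ?_)
      congr 2
      ring
    rw [hcongr]
    refine hs.trans ?_
    have hMr : (M : ℝ) ≤ N := by exact_mod_cast hM
    have h1 : (2 * ((N : ℝ) + θ) + M) / |u| ≤ 5 * (N / |u|) := by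
      rw [← mul_div_assoc]
      exact div_le_div_of_nonneg_right (by linarith) hupos.le
    have h2 : (M : ℝ) * (|u| / ((N : ℝ) + θ)) ≤ N / |u| := by
      have h3 : (M : ℝ) * (|u| / ((N : ℝ) + θ)) ≤ |u| := by
        rw [← mul_div_assoc, div_le_iff₀ ha]
        nlinarith [hupos]
      refine h3.trans ?_
      rw [le_div_iff₀ hupos]
      exact hsq
    calc (2 * ((N : ℝ) + θ) + M) / |u| + M * (|u| / ((N : ℝ) + θ))
        ≤ 5 * (N / |u|) + N / |u| := add_le_add h1 h2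
      _ ≤ 7 * ((N : ℝ) ^ (1 - c) + N / |u|) := by linarith
      _ ≤ max C 7 * ((N : ℝ) ^ (1 - c) + N / |u|) :=
          mul_le_mul_of_nonneg_right (le_max_right _ _) (by linarith)

end Pool.Agent.E3
end
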