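import Pool.Agent.Lib.MP_bae66e_nt.Mg.G019
import Pool.Agent.Lib.MP_bae66e_nt.Mg.G017
import Pool.Agent.Lib.MP_bae66e_nt.E3.F1

section

/-!
# SL4: the pair sieve
-/

set_option autoImplicit false

namespace Pool.Agent.E3

open Finset
open Pool.Agent.Lib.MP_bae66e_nt.AP3 (Rough prI KT mem_prI)

/-- The largest `T` with `T^K ≤ U`. -/
private theorem sl4_exists_root (K U S : ℕ) (hK : 2 ≤ K) (hS : S ^ K ≤ U) :
    ∃ T : ℕ, S ≤ T ∧ T ^ K ≤ U ∧ U < (T + 1) ^ K := by
  classical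
  let P : ℕ → Prop := fun t => t ^ K ≤ U
  have hP0 : P 0 := by
    show 0 ^ K ≤ U
    rw [zero_pow (by omega)]
    exact Nat.zero_le _
  have hbound : ∀ t, P t → t ≤ U := by
    intro t ht
    calc t ≤ t ^ K := Nat.le_self_pow (by omega) t
      _ ≤ U := ht
  refine ⟨Nat.findGreatest P U, ?_, ?_, ?_⟩
  · exact Nat.le_findGreatest (hbound S hS) hS
  · exact Nat.findGreatest_spec (P := P) (Nat.zero_le U) hP0
  · by_contra h
    push Not at h
    have h1 : Nat.findGreatest P U + 1 ≤ Nat.findGreatest P U :=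
      Nat.le_findGreatest (hbound _ h) h
    omega

/-- The case where `s` and `s'` are coprime. PROOF. If the set is empty there is nothing to prove. Otherwise let `q₀` be an
element, `b = q₀ % s'`; then `s' ∣ s b + h`; put `d = (s b + h) / s'`, so `s' d = s b + h`. Every `q` of the set has
`s' ∣ s q + h`, so `s' ∣ s (q - q₀)`, hence `q ≡ q₀ ≡ b [MOD s']` (coprime), i.e. `q = s' k + b` with `k = q / s'`, and
`(s q + h) / s' = s k + d`. As `U < q ≤ 2 U` we have `k ∈ Ioc A (A + N)` with `A = U / s' - 1` and `N = U / s' + 2`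
(note `U / s' ≥ 1`). The map `q ↦ q / s'` is injective on the set. Both `s' k + b = q > U` and
`s k + d = (s q + h) / s' ≥ q / s' ≥ U / s'` are primes larger than `T` if `T < U / s'` (real division), so no
prime `ℓ ≤ T` divides them. Let `κ, T₀` be from `forms_sieve`, and let `T` be the largest integer with
`T^(2κ) ≤ U`, so `U < (T+1)^(2κ)`. If `U ≥ U₀ = (T₀ + 2)^(2κ)`, then `T ≥ T₀`, and `T^κ ≤ √U ≤ U^(3/4) ≤ U / s' ≤ N`
for `s'^4 ≤ U`; `T < U^(3/4)`. `forms_sieve` (with its `a, c` being `s', s`, and `D = s s' h`) bounds the number by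
`20 N Fr(s s' h)² / (log T)²`; `N ≤ 3 U / s'`, and `log U ≤ 2κ log (T+1) ≤ 4 κ log T`. So `C = 60 · 16 κ²` works. -/
theorem pair_coprime : ∃ C : ℝ, 1 ≤ C ∧ ∃ U₀ : ℕ, 2 ≤ U₀ ∧ ∀ (U s s' h : ℕ), U₀ ≤ U → 1 ≤ s → 1 ≤ s' → 1 ≤ h →
    s' ^ 4 ≤ U → Nat.Coprime s s' →
    (#{q ∈ IS U | s' ∣ s * q + h ∧ ((s * q + h) / s').Prime} : ℝ)
      ≤ C * (U / (s' * (Real.log U) ^ 2)) * (Fr (s * s' * h)) ^ 2 := by
  classical
  obtain ⟨κ, T₀, hκ, hT₀, hsieve⟩ := forms_sieve
  have hκR : (1 : ℝ) ≤ κ := by exact_mod_cast hκ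
  have hbase : 16 ≤ (T₀ + 2) ^ (2 * κ) := by
    calc 16 = 4 ^ 2 := by norm_num
      _ ≤ (T₀ + 2) ^ 2 := Nat.pow_le_pow_left (by omega) 2
      _ ≤ (T₀ + 2) ^ (2 * κ) := Nat.pow_le_pow_right (by omega) (by omega)
  refine ⟨960 * κ ^ 2, by nlinarith, (T₀ + 2) ^ (2 * κ), by omega, ?_⟩
  intro U s s' h hU hs hs' hh hs4 hcop
  have hU16 : 16 ≤ U := hbase.trans hU
  obtain ⟨T, hT1, hT2, hT3⟩ := sl4_exists_root (2 * κ) U (T₀ + 2) (by omega) hU
  have hT4 : T₀ ≤ T := by omega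
  have hTpos : 4 ≤ T := by omega
  -- s' * T ^ κ ≤ U
  have hA1 : s' * T ^ κ ≤ U := by
    have h1 : (s' * T ^ κ) ^ 4 ≤ U ^ 4 := by
      calc (s' * T ^ κ) ^ 4 = s' ^ 4 * (T ^ (2 * κ)) ^ 2 := by
            rw [mul_pow, ← pow_mul, ← pow_mul]
            congr 2
            ring
        _ ≤ U * U ^ 2 := Nat.mul_le_mul hs4 (Nat.pow_le_pow_left hT2 2)
        _ = U ^ 3 := by ring
        _ ≤ U ^ 4 := Nat.pow_le_pow_right (by omega) (by omega)
    exact (Nat.pow_le_pow_iff_left (by norm_num)).1 h1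
  have hT2' : T ^ 2 ≤ U := le_trans (Nat.pow_le_pow_right (by omega) (by omega)) hT2
  have hA2 : s' * (T + 1) ≤ U := by
    have h1 : (s' * (T + 1)) ^ 4 ≤ U ^ 4 := by
      calc (s' * (T + 1)) ^ 4 = s' ^ 4 * (T + 1) ^ 4 := mul_pow _ _ _
        _ ≤ U * (2 * T) ^ 4 := Nat.mul_le_mul hs4 (Nat.pow_le_pow_left (by omega) 4)
        _ = 16 * U * (T ^ 2) ^ 2 := by ring
        _ ≤ 16 * U * U ^ 2 := Nat.mul_le_mul_left _ (Nat.pow_le_pow_left hT2' 2)
        _ ≤ U * U * U ^ 2 := Nat.mul_le_mul_right _ (Nat.mul_le_mul_right _ hU16)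
        _ = U ^ 4 := by ring
    exact (Nat.pow_le_pow_iff_left (by norm_num)).1 h1
  have hdiv1 : T ^ κ ≤ U / s' := (Nat.le_div_iff_mul_le (by omega)).2 (by rw [mul_comm]; exact hA1)
  have hdiv2 : T + 1 ≤ U / s' := (Nat.le_div_iff_mul_le (by omega)).2 (by rw [mul_comm]; exact hA2)
  have hlogT : 0 < Real.log T := Real.log_pos (by exact_mod_cast (show 1 < T by omega))
  have hlogU : 0 < Real.log U := Real.log_pos (by exact_mod_cast (show 1 < U by omega))
  have hlog : Real.log U ≤ 4 * κ * Real.log T := by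
    have h1 : (U : ℝ) ≤ ((T : ℝ) + 1) ^ (2 * κ) := by exact_mod_cast hT3.le
    have h2 : Real.log U ≤ ((2 * κ : ℕ) : ℝ) * Real.log ((T : ℝ) + 1) := by
      rw [← Real.log_pow]
      exact Real.log_le_log (by positivity) h1
    have h3 : Real.log ((T : ℝ) + 1) ≤ 2 * Real.log T := by
      have : (T : ℝ) + 1 ≤ (T : ℝ) ^ 2 := by
        have : (4 : ℝ) ≤ T := by exact_mod_cast hTpos
        nlinarith
      calc Real.log ((T : ℝ) + 1) ≤ Real.log ((T : ℝ) ^ 2) := Real.log_le_log (by positivity) this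
        _ = 2 * Real.log T := by rw [Real.log_pow]; norm_num
    push_cast at h2
    nlinarith
  set A : ℕ := U / s' - 1 with hA
  set N : ℕ := U / s' + 2 with hN
  have hs'R : (0 : ℝ) < s' := by exact_mod_cast hs'
  have hNR : (N : ℝ) ≤ 3 * (U / s') := by
    have h1 : ((U / s' : ℕ) : ℝ) ≤ (U : ℝ) / s' := Nat.cast_div_le
    have h2 : (1 : ℝ) ≤ ((U / s' : ℕ) : ℝ) := by exact_mod_cast (by omega : 1 ≤ U / s')
    have h3 : (N : ℝ) = ((U / s' : ℕ) : ℝ) + 2 := by rw [hN]; push_cast; ring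
    rw [h3]
    linarith
  have hD : s * s' * h ≠ 0 := by positivity
  have hFr : 0 ≤ (Fr (s * s' * h)) ^ 2 := sq_nonneg _
  have hfin : 20 * (N : ℝ) * (Fr (s * s' * h)) ^ 2 / (Real.log T) ^ 2 ≤
      960 * κ ^ 2 * (U / (s' * (Real.log U) ^ 2)) * (Fr (s * s' * h)) ^ 2 := by
    have h1 : (Real.log U) ^ 2 ≤ 16 * κ ^ 2 * (Real.log T) ^ 2 := by
      calc (Real.log U) ^ 2 ≤ (4 * κ * Real.log T) ^ 2 := pow_le_pow_left₀ hlogU.le hlog 2
        _ = 16 * κ ^ 2 * (Real.log T) ^ 2 := by ring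
    have h2 : 20 * (N : ℝ) / (Real.log T) ^ 2 ≤
        960 * κ ^ 2 * (U / (s' * (Real.log U) ^ 2)) := by
      rw [div_le_iff₀ (by positivity)]
      have h3 : 960 * (κ : ℝ) ^ 2 * (U / (s' * (Real.log U) ^ 2)) * (Real.log T) ^ 2 =
          60 * (U / s') * ((16 * κ ^ 2 * (Real.log T) ^ 2) / (Real.log U) ^ 2) := by
        field_simp
        ring
      rw [h3]
      have h4 : 1 ≤ (16 * (κ : ℝ) ^ 2 * (Real.log T) ^ 2) / (Real.log U) ^ 2 := by
        rw [one_le_div (by positivity)]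
        exact h1
      have h5 : (0 : ℝ) ≤ 60 * (U / s') := by positivity
      nlinarith
    calc 20 * (N : ℝ) * (Fr (s * s' * h)) ^ 2 / (Real.log T) ^ 2
        = 20 * (N : ℝ) / (Real.log T) ^ 2 * (Fr (s * s' * h)) ^ 2 := by ring
      _ ≤ _ := mul_le_mul_of_nonneg_right h2 hFr
  refine le_trans ?_ hfin
  rcases Finset.eq_empty_or_nonempty
    ({q ∈ IS U | s' ∣ s * q + h ∧ ((s * q + h) / s').Prime} : Finset ℕ) with he | ⟨q₀, hq₀⟩
  · rw [he, Finset.card_empty, Nat.cast_zero]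
    positivity
  rw [Finset.mem_filter] at hq₀
  obtain ⟨hq₀1, hq₀2, hq₀3⟩ := hq₀
  set b : ℕ := q₀ % s' with hb
  have hmod : ∀ q : ℕ, s' ∣ s * q + h → q % s' = b := by
    intro q hq
    have h1 : s * q + h ≡ s * q₀ + h [MOD s'] :=
      ((Nat.modEq_zero_iff_dvd.2 hq).trans (Nat.modEq_zero_iff_dvd.2 hq₀2).symm)
    have h2 : s * q ≡ s * q₀ [MOD s'] := Nat.ModEq.add_right_cancel' h h1
    exact Nat.ModEq.cancel_left_of_coprime (by rw [Nat.gcd_comm]; exact hcop) h2
  have hbdvd : s' ∣ s * b + h := by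
    have h1 : s * b + h ≡ s * q₀ + h [MOD s'] :=
      Nat.ModEq.add_right h (Nat.ModEq.mul_left s (Nat.mod_modEq q₀ s'))
    exact (Nat.modEq_zero_iff_dvd.1 (h1.trans (Nat.modEq_zero_iff_dvd.2 hq₀2)))
  obtain ⟨d, hd⟩ := hbdvd
  have hform : ∀ q : ℕ, s' ∣ s * q + h → s' * (q / s') + b = q ∧
      (s * q + h) / s' = s * (q / s') + d := by
    intro q hq
    have h1 : s' * (q / s') + b = q := by
      rw [← hmod q hq]
      exact Nat.div_add_mod q s'
    refine ⟨h1, ?_⟩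
    have h2 : s * q + h = s' * (s * (q / s') + d) := by
      calc s * q + h = s * (s' * (q / s') + b) + h := by rw [h1]
        _ = s' * (s * (q / s')) + (s * b + h) := by ring
        _ = s' * (s * (q / s')) + s' * d := by rw [hd]
        _ = s' * (s * (q / s') + d) := by ring
    rw [h2, Nat.mul_div_cancel_left _ (by omega)]
  have hsv := hsieve T N A s' b s d h (s * s' * h) hT4 (hdiv1.trans (by omega)) hh
    (by rw [← hd]) ⟨s * h, by ring⟩ ⟨s' * h, by ring⟩ ⟨s * s', by ring⟩ hD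
  refine le_trans ?_ hsv
  rw [Nat.cast_le]
  refine Finset.card_le_card_of_injOn (fun q => q / s') ?_ ?_
  · intro q hq
    rw [Finset.mem_coe, Finset.mem_filter] at hq
    obtain ⟨hq1, hq2, hq3⟩ := hq
    obtain ⟨hf1, hf2⟩ := hform q hq2
    rw [IS, mem_prI] at hq1
    rw [Finset.mem_coe, Finset.mem_filter, Finset.mem_Ioc]
    have hlo : U / s' ≤ q / s' := Nat.div_le_div_right hq1.1.1.le
    have hhi : q / s' ≤ 2 * (U / s') + 1 := by
      have h1 : q / s' ≤ 2 * U / s' := Nat.div_le_div_right hq1.1.2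
      have h2 : 2 * U / s' < 2 * (U / s') + 2 := by
        rw [Nat.div_lt_iff_lt_mul (by omega)]
        have h3 := Nat.lt_div_mul_add (a := U) (b := s') (by omega)
        nlinarith
      omega
    refine ⟨?_, ?_⟩
    · show A < q / s' ∧ q / s' ≤ A + N
      constructor <;> omega
    intro ℓ hℓ
    show ¬ ℓ ∣ s' * (q / s') + b ∧ ¬ ℓ ∣ s * (q / s') + d
    rw [mem_prI] at hℓ
    constructor
    · rw [hf1]
      intro hdvd
      have h1 := (Nat.prime_dvd_prime_iff_eq hℓ.2 hq1.2).1 hdvd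
      have h2 : T + 1 ≤ U := hdiv2.trans (Nat.div_le_self U s')
      omega
    · rw [← hf2]
      intro hdvd
      have h1 := (Nat.prime_dvd_prime_iff_eq hℓ.2 hq3).1 hdvd
      have h2 : q / s' ≤ (s * q + h) / s' := by
        refine Nat.div_le_div_right ?_
        nlinarith
      omega
  · intro q hq q' hq' heq
    rw [Finset.mem_coe, Finset.mem_filter] at hq hq'
    have h1 := (hform q hq.2.1).1
    have h2 := (hform q' hq'.2.1).1
    have h3 : q / s' = q' / s' := heq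
    rw [← h1, ← h2, h3]

private theorem sl4_Fr_mono {m n : ℕ} (hm : m ≠ 0) (hn : n ≠ 0) (hmn : m ∣ n) : Fr m ≤ Fr n := by
  rw [Fr_eq m hm, Fr_eq n hn]
  have hpos := Pool.Agent.Lib.MP_bae66e_nt.rho_pos n
  refine one_div_le_one_div_of_le hpos ?_
  unfold Pool.Agent.Lib.MP_bae66e_nt.rho
  rw [← Finset.prod_sdiff (Nat.primeFactors_mono hmn hn)]
  have h1 : ∀ p ∈ n.primeFactors, 0 ≤ 1 - 1 / (p : ℝ) ∧ 1 - 1 / (p : ℝ) ≤ 1 := by
    intro p hp
    have hp1 : (1 : ℝ) ≤ p := by exact_mod_cast (Nat.prime_of_mem_primeFactors hp).one_lt.le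
    have h2 : 1 / (p : ℝ) ≤ 1 := by
      rw [div_le_one (by linarith)]
      exact hp1
    have h3 : 0 ≤ 1 / (p : ℝ) := by positivity
    constructor <;> linarith
  have h4 : ∏ p ∈ n.primeFactors \ m.primeFactors, (1 - 1 / (p : ℝ)) ≤ 1 :=
    Finset.prod_le_one (fun p hp => (h1 p (Finset.mem_sdiff.1 hp).1).1)
      (fun p hp => (h1 p (Finset.mem_sdiff.1 hp).1).2)
  have h5 : 0 ≤ ∏ p ∈ m.primeFactors, (1 - 1 / (p : ℝ)) :=
    Finset.prod_nonneg fun p hp => (h1 p (Nat.primeFactors_mono hmn hn hp)).1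
  exact mul_le_of_le_one_left h5 h4

/-- PROOF. Take `c = 1/4`. Let `g = gcd(s, s')`. If `g ∤ h` the set is empty (`g ∣ s' ∣ s q + h`, `g ∣ s`). Otherwise
`s = g s₁`, `s' = g s₁'`, `h = g h₁`, and `s' ∣ s q + h ↔ s₁' ∣ s₁ q + h₁`, `(s q + h) / s' = (s₁ q + h₁) / s₁'`:
`pair_coprime` for `s₁, s₁', h₁` (`s₁'^4 ≤ s'^4 ≤ U`), and `U / s₁' = g U / s'`, and `Fr (s₁ s₁' h₁) ≤ Fr (s s' h)`, because the prime
factors of `s₁ s₁' h₁` are among those of `s s' h = g³ s₁ s₁' h₁` (`Fr = 1 / rho`, `rho` is a product of factors in `(0, 1]` over the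
prime factors). -/
theorem slp : SLP := by
  classical
  obtain ⟨C, hC, U₀, hU₀, hpair⟩ := pair_coprime
  refine ⟨1 / 4, C, by norm_num, by norm_num, hC, U₀, ?_⟩
  intro U s s' h hU hs hs' hh hsU hs'U
  have hs4 : s' ^ 4 ≤ U := by
    have h1 : ((s' : ℝ)) ^ 4 ≤ U := by
      calc ((s' : ℝ)) ^ 4 ≤ ((U : ℝ) ^ (1 / 4 : ℝ)) ^ 4 :=
            pow_le_pow_left₀ (by positivity) hs'U 4
        _ = U := by
            rw [← Real.rpow_natCast, ← Real.rpow_mul (by positivity)]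
            norm_num
    exact_mod_cast h1
  have hgpos : 0 < Nat.gcd s s' := Nat.gcd_pos_of_pos_left _ (by omega)
  by_cases hg : Nat.gcd s s' ∣ h
  · rw [if_pos hg]
    set g := Nat.gcd s s' with hgdef
    obtain ⟨s₁, hs₁⟩ : g ∣ s := Nat.gcd_dvd_left s s'
    obtain ⟨s₁', hs₁'⟩ : g ∣ s' := Nat.gcd_dvd_right s s'
    obtain ⟨h₁, hh₁⟩ := hg
    have hs₁p : 1 ≤ s₁ := by
      rcases Nat.eq_zero_or_pos s₁ with h0 | h0
      · rw [h0, mul_zero] at hs₁
        omega
      · exact h0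
    have hs₁'p : 1 ≤ s₁' := by
      rcases Nat.eq_zero_or_pos s₁' with h0 | h0
      · rw [h0, mul_zero] at hs₁'
        omega
      · exact h0
    have hh₁p : 1 ≤ h₁ := by
      rcases Nat.eq_zero_or_pos h₁ with h0 | h0
      · rw [h0, mul_zero] at hh₁
        omega
      · exact h0
    have hcop : Nat.Coprime s₁ s₁' := by
      have h1 : Nat.gcd (g * s₁) (g * s₁') = g * Nat.gcd s₁ s₁' := Nat.gcd_mul_left g s₁ s₁'
      rw [← hs₁, ← hs₁', ← hgdef] at h1
      have h2 : g * 1 = g * Nat.gcd s₁ s₁' := by rw [mul_one]; exact h1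
      exact (Nat.eq_of_mul_eq_mul_left hgpos h2).symm
    have hs₁4 : s₁' ^ 4 ≤ U := by
      refine le_trans (Nat.pow_le_pow_left ?_ 4) hs4
      rw [hs₁']
      exact Nat.le_mul_of_pos_left _ hgpos
    have hset : ({q ∈ IS U | s' ∣ s * q + h ∧ ((s * q + h) / s').Prime} : Finset ℕ) =
        {q ∈ IS U | s₁' ∣ s₁ * q + h₁ ∧ ((s₁ * q + h₁) / s₁').Prime} := by
      refine Finset.filter_congr fun q _ => ?_
      have h1 : s * q + h = g * (s₁ * q + h₁) := by
        rw [hs₁, hh₁]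
        ring
      rw [h1, hs₁', Nat.mul_div_mul_left _ _ hgpos, Nat.mul_dvd_mul_iff_left hgpos]
    rw [hset]
    refine (hpair U s₁ s₁' h₁ hU hs₁p hs₁'p hh₁p hs₁4 hcop).trans ?_
    have hgR : (0 : ℝ) < g := by exact_mod_cast hgpos
    have hs₁'R : (0 : ℝ) < s₁' := by exact_mod_cast hs₁'p
    have h2 : (U : ℝ) / (s₁' * (Real.log U) ^ 2) = g * U / (s' * (Real.log U) ^ 2) := by
      rw [hs₁']
      push_cast
      rw [mul_assoc (g : ℝ) (s₁' : ℝ), mul_div_mul_left _ _ hgR.ne']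
    rw [h2]
    have h3 : Fr (s₁ * s₁' * h₁) ≤ Fr (s * s' * h) := by
      refine sl4_Fr_mono (by positivity) (by positivity) ⟨g ^ 3, ?_⟩
      rw [hs₁, hs₁', hh₁]
      ring
    have h4 : 0 ≤ Fr (s₁ * s₁' * h₁) := by
      unfold Fr
      positivity
    refine mul_le_mul_of_nonneg_left (pow_le_pow_left₀ h4 h3 2) ?_
    positivity
  · rw [if_neg hg]
    have hempty : ({q ∈ IS U | s' ∣ s * q + h ∧ ((s * q + h) / s').Prime} : Finset ℕ) = ∅ := by
      rw [Finset.filter_eq_empty_iff]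
      intro q _ hq
      apply hg
      have h1 : Nat.gcd s s' ∣ s * q + h := (Nat.gcd_dvd_right s s').trans hq.1
      exact (Nat.dvd_add_right (Dvd.dvd.mul_right (Nat.gcd_dvd_left s s') q)).1 h1
    rw [hempty, Finset.card_empty, Nat.cast_zero]

end Pool.Agent.E3
end

section

/-!
# FJ1: lower bound for the model, multiples `r m`
-/

set_option autoImplicit false

namespace Pool.Agent.E3

open Finset
open Pool.Agent.Lib.MP_bae66e_nt.LL (fP gW nu)

private theorem FJ1_coprime {W : ℕ} {m q s v : ℕ} (hs : Nat.Coprime s W) (h : q ≡ s * v [MOD W])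
    (hv : IsCoprime ((m : ℤ) - (v : ℤ)) (W : ℤ)) :
    IsCoprime (((s * m : ℕ) : ℤ) - (q : ℤ)) (W : ℤ) := by
  have h1 : ((s * v : ℕ) : ℤ) ≡ q [ZMOD W] := ((Int.natCast_modEq_iff).2 h).symm
  obtain ⟨k, hk⟩ := (Int.modEq_iff_dvd).1 h1
  have h2 : ((s * m : ℕ) : ℤ) - (q : ℤ) = (s : ℤ) * ((m : ℤ) - (v : ℤ)) + (W : ℤ) * (-k) := by
    push_cast at hk ⊢
    linarith
  rw [h2, IsCoprime.add_mul_left_left_iff]
  have h3 : IsCoprime (s : ℤ) (W : ℤ) := (Nat.isCoprime_iff_coprime).2 hs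
  exact h3.mul_left hv

/-- PROOF. `W = primorial w`; every `s ∈ IS R` is a prime `> R > w`, so coprime to `W`. Substitute `q = s m - t`,
`q ∈ Ico (s m - H) (s m)` (`H ≤ m ≤ s m`). For a class `v` with `v` and `m - v` coprime to `W`, the `q ≡ s v` have
`s m - q ≡ s (m - v)` coprime to `W`, and `v` is determined by `q` and `s`. So the sum is at least
`(W/φ(W)) ∑_v ∑_s #{q ≡ s v} ≥ (W/φ(W)) · #classes · B/φ(W) ≥ B` (`card_classes`). -/
theorem model_lowerJ (a B : ℝ) (hB : 0 ≤ B) (M w m : ℕ) (hw : 2 ≤ w) (hm : Even m)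
    (hR : w < RJ a M) (hH : HJ a M ≤ m)
    (hv : ∀ v : ℕ, Nat.Coprime v (primorial w) →
      B / Nat.totient (primorial w) ≤ ∑ s ∈ IS (RJ a M),
        (#{q ∈ Ico (s * m - HJ a M) (s * m) | q.Prime ∧ q ≡ s * v [MOD primorial w]} : ℝ)) :
    B ≤ ∑ s ∈ IS (RJ a M), ∑ t ∈ Icc 1 (HJ a M),
      gW (primorial w) (HJ a M) (t : ℤ) * (if (s * m - t).Prime then 1 else 0) := by
  classical
  set W := primorial w with hW
  set H := HJ a M with hHdef
  have hWpos : 0 < W := primorial_pos w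
  have hWr : (0 : ℝ) < W := by exact_mod_cast hWpos
  have hφ : (0 : ℝ) < Nat.totient W := by exact_mod_cast Nat.totient_pos.2 hWpos
  set κ : ℝ := (W : ℝ) / (Nat.totient W : ℝ) with hκ
  have hκ0 : 0 < κ := by positivity
  set V := (range W).filter (fun v => Nat.Coprime v W ∧ IsCoprime ((m : ℤ) - (v : ℤ)) (W : ℤ))
    with hV
  have hcard := card_classes w m hw hm
  have hscop : ∀ s ∈ IS (RJ a M), Nat.Coprime s W ∧ 1 ≤ s := by
    intro s hs
    unfold IS at hs
    have hs' : s.Prime ∧ RJ a M < s := by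
      simp only [Pool.Agent.Lib.MP_bae66e_nt.AP3.prI, Finset.mem_filter, Finset.mem_Ioc] at hs
      exact ⟨hs.2, hs.1.1⟩
    refine ⟨?_, hs'.1.one_lt.le⟩
    rw [hW]
    unfold primorial
    refine Nat.Coprime.prod_right fun p hp => ?_
    rw [Finset.mem_filter, Finset.mem_range] at hp
    refine (Nat.coprime_primes hs'.1 hp.2).2 ?_
    omega
  -- one `s`
  have hone : ∀ s ∈ IS (RJ a M), ∑ v ∈ V, κ *
      (#{q ∈ Ico (s * m - H) (s * m) | q.Prime ∧ q ≡ s * v [MOD W]} : ℝ) ≤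
      ∑ t ∈ Icc 1 H, gW W H (t : ℤ) * (if (s * m - t).Prime then 1 else 0) := by
    intro s hs
    obtain ⟨hsW, hs1⟩ := hscop s hs
    have hHs : H ≤ s * m := hH.trans (Nat.le_mul_of_pos_left m hs1)
    have hsub : ∑ t ∈ Icc 1 H, gW W H (t : ℤ) * (if (s * m - t).Prime then (1 : ℝ) else 0) =
        ∑ q ∈ Ico (s * m - H) (s * m), nu W (((s * m : ℕ) : ℤ) - (q : ℤ)) *
          (if q.Prime then (1 : ℝ) else 0) := by
      refine Finset.sum_bij' (fun t _ => s * m - t) (fun n _ => s * m - n) ?_ ?_ ?_ ?_ ?_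
      · intro t ht
        rw [Finset.mem_Icc] at ht
        rw [Finset.mem_Ico]
        omega
      · intro n hn
        rw [Finset.mem_Ico] at hn
        rw [Finset.mem_Icc]
        omega
      · intro t ht
        rw [Finset.mem_Icc] at ht
        omega
      · intro n hn
        rw [Finset.mem_Ico] at hn
        omega
      · intro t ht
        rw [Finset.mem_Icc] at ht
        have h1 : ((s * m : ℕ) : ℤ) - ((s * m - t : ℕ) : ℤ) = t := by
          rw [Nat.cast_sub (by omega : t ≤ s * m)]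
          ring
        rw [h1]
        unfold gW
        rw [if_pos ⟨by exact_mod_cast ht.1, by exact_mod_cast ht.2⟩]
    rw [hsub]
    have hpt : ∀ q ∈ Ico (s * m - H) (s * m),
        (∑ v ∈ V, if (q.Prime ∧ q ≡ s * v [MOD W]) then κ else 0) ≤
        nu W (((s * m : ℕ) : ℤ) - (q : ℤ)) * (if q.Prime then (1 : ℝ) else 0) := by
      intro q _
      by_cases hq : q.Prime
      · rw [if_pos hq, mul_one]
        by_cases hex : ∃ v ∈ V, q ≡ s * v [MOD W]
        · obtain ⟨v, hvV, hqv⟩ := hex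
          rw [Finset.sum_eq_single v]
          · rw [if_pos ⟨hq, hqv⟩]
            have hvV' := hvV
            rw [hV, Finset.mem_filter] at hvV'
            unfold nu
            rw [if_pos (FJ1_coprime hsW hqv hvV'.2.2)]
          · intro v' hv' hne
            rw [if_neg]
            rintro ⟨-, h⟩
            apply hne
            have h1 : s * v' ≡ s * v [MOD W] := h.symm.trans hqv
            have h2 : v' ≡ v [MOD W] :=
              Nat.ModEq.cancel_left_of_coprime (by rw [Nat.gcd_comm]; exact hsW) h1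
            rw [hV, Finset.mem_filter, Finset.mem_range] at hv' hvV
            exact Nat.ModEq.eq_of_lt_of_lt h2 hv'.1 hvV.1
          · intro h
            exact absurd hvV h
        · rw [Finset.sum_eq_zero]
          · unfold nu
            split_ifs
            · exact hκ0.le
            · exact le_rfl
          · intro v hv'
            rw [if_neg]
            rintro ⟨-, h⟩
            exact hex ⟨v, hv', h⟩
      · rw [if_neg hq, mul_zero, Finset.sum_eq_zero]
        intro v _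
        rw [if_neg (fun h => hq h.1)]
    refine le_trans (le_of_eq ?_) (Finset.sum_le_sum hpt)
    rw [Finset.sum_comm]
    refine Finset.sum_congr rfl fun v _ => ?_
    rw [← Finset.sum_filter, Finset.sum_const, nsmul_eq_mul, mul_comm]
  refine le_trans ?_ (Finset.sum_le_sum hone)
  rw [Finset.sum_comm]
  have hin : ∀ v ∈ V, κ * (B / Nat.totient W) ≤ ∑ s ∈ IS (RJ a M), κ *
      (#{q ∈ Ico (s * m - H) (s * m) | q.Prime ∧ q ≡ s * v [MOD W]} : ℝ) := by
    intro v hv'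
    rw [hV, Finset.mem_filter] at hv'
    rw [← Finset.mul_sum]
    exact mul_le_mul_of_nonneg_left (hv v hv'.2.1) hκ0.le
  refine le_trans ?_ (Finset.sum_le_sum hin)
  rw [Finset.sum_const, nsmul_eq_mul]
  have h6 : 0 ≤ κ * (B / Nat.totient W) := by positivity
  calc B = ((Nat.totient W : ℝ)) ^ 2 / (W : ℝ) * (κ * (B / Nat.totient W)) := by
        rw [hκ]
        field_simp
    _ ≤ (#V : ℝ) * (κ * (B / Nat.totient W)) := by
        apply mul_le_mul_of_nonneg_right _ h6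
        refine hcard.trans (le_of_eq ?_)
        rw [hV]

end Pool.Agent.E3
end

section

/-!
# FJ2: the exceptional set in `[M, 2M]`, multiples `r m`
-/

set_option autoImplicit false

namespace Pool.Agent.E3

open Finset
open Pool.Agent.Lib.MP_bae66e_nt.LL (fP gW nu)

/-- PROOF. For large `M`: `R = ⌊(log M)^a⌋ → ∞`, and `2 (log M)^(2a) ≤ M`. -/
theorem GJ_pos (a : ℝ) (ha : 3 ≤ a) (w : ℕ) : ∃ M₀ : ℕ, ∀ M : ℕ, M₀ ≤ M →
    0 < GJ a M ∧ HJ a M ≤ M ∧ w < RJ a M := by
  have t0 : Filter.Tendsto (fun X : ℕ => (X : ℝ)) Filter.atTop Filter.atTop :=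
    tendsto_natCast_atTop_atTop
  have t1 : Filter.Tendsto (fun X : ℕ => Real.log (X : ℝ)) Filter.atTop Filter.atTop :=
    Real.tendsto_log_atTop.comp t0
  have e1 := t1.eventually_ge_atTop ((w : ℝ) + 3)
  have e3 : ∀ᶠ X : ℕ in Filter.atTop, (Real.log X) ^ (2 * a) ≤ 1 / 2 * X := by
    have h := (isLittleO_log_rpow_rpow_atTop (2 * a) (zero_lt_one)).bound
      (by norm_num : (0 : ℝ) < 1 / 2)
    have h' := t0.eventually (h.and (Filter.eventually_ge_atTop (1 : ℝ)))
    filter_upwards [h', e1] with X hX h1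
    obtain ⟨hX1, hX2⟩ := hX
    have hw0 : (0 : ℝ) ≤ w := Nat.cast_nonneg w
    have h0 : (0 : ℝ) ≤ (Real.log X) ^ (2 * a) := Real.rpow_nonneg (by linarith) _
    rw [Real.norm_eq_abs, abs_of_nonneg h0, Real.rpow_one, Real.norm_eq_abs,
      abs_of_nonneg (by linarith)] at hX1
    exact hX1
  obtain ⟨M₀, hM₀⟩ := Filter.eventually_atTop.1 (e1.and e3)
  refine ⟨M₀, fun M hM => ?_⟩
  obtain ⟨h1, h2⟩ := hM₀ M hM
  have hw0 : (0 : ℝ) ≤ w := Nat.cast_nonneg w
  have hL1 : 1 ≤ Real.log M := by linarith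
  have hLa : Real.log M ≤ (Real.log M) ^ a := by
    calc Real.log M = (Real.log M) ^ (1 : ℝ) := (Real.rpow_one _).symm
      _ ≤ (Real.log M) ^ a := Real.rpow_le_rpow_of_exponent_le hL1 (by linarith)
  have hR3 : w + 3 ≤ RJ a M := by
    apply Nat.le_floor
    push_cast
    linarith
  have hRr : (3 : ℝ) ≤ (RJ a M : ℝ) := by
    have : 3 ≤ RJ a M := by omega
    exact_mod_cast this
  have hRle : (RJ a M : ℝ) ≤ (Real.log M) ^ a :=
    Nat.floor_le (Real.rpow_nonneg (by linarith) _)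
  have hlogR : 0 < Real.log (RJ a M) := Real.log_pos (by linarith)
  have hHpos : (0 : ℝ) < (HJ a M : ℝ) := by
    unfold HJ
    push_cast
    positivity
  refine ⟨?_, ?_, by omega⟩
  · unfold GJ
    have hR0 : (0 : ℝ) < (RJ a M : ℝ) := by linarith
    have hL0 : 0 < Real.log M := by linarith
    positivity
  · have : (HJ a M : ℝ) ≤ M := by
      unfold HJ
      push_cast
      calc 2 * (RJ a M : ℝ) ^ 2 ≤ 2 * ((Real.log M) ^ a) ^ 2 := by gcongr
        _ = 2 * (Real.log M) ^ (2 * a) := by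
            rw [← Real.rpow_natCast ((Real.log M) ^ a), ← Real.rpow_mul (by linarith)]
            congr 2
            push_cast
            ring
        _ ≤ 2 * (1 / 2 * M) := by gcongr
        _ = M := by ring
    exact_mod_cast this

/-- PROOF. As `pos_of` (file F3). `c₀` from `WINJ`; `η = c₀² δ / 16` in `VARJ`, `w = max w₀ 2`, `W = primorial w`, and `WINJ` with this `W` and
`δ' = δ/(2 W)` for the classes `v < W` coprime to `W`. Let `B = c₀ GJ`. An even `m ∈ [M, 2M]` outside the exceptional sets of all the classes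
satisfies `model_lowerJ`; by `VARJ` and Chebyshev, the number of `m` with `|∑ (fP - gW)| ≥ B/2` is `≤ δ M/4`. -/
theorem pos_ofJ (a : ℝ) (ha : 3 ≤ a) (h1 : WINJ a) (h2 : VARJ a) (δ : ℝ) (hδ : 0 < δ) :
    ∃ M₀ : ℕ, ∀ M : ℕ, M₀ ≤ M →
      (#{m ∈ Icc M (2 * M) | Even m ∧
        ∑ s ∈ IS (RJ a M), ∑ t ∈ Icc 1 (HJ a M),
          fP (HJ a M) (t : ℤ) * (if (s * m - t).Prime then 1 else 0) ≤ 0} : ℝ) ≤ δ * M := by
  classical
  obtain ⟨c₀, hc₀, hwin⟩ := h1
  have hη : 0 < c₀ ^ 2 * δ / 16 := by positivity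
  obtain ⟨w₀, hvar⟩ := h2 _ hη
  set w := max w₀ 2 with hw
  have hw2 : 2 ≤ w := le_max_right _ _
  obtain ⟨X₁, hX₁⟩ := hvar w (le_max_left _ _)
  set W := primorial w with hW
  have hWpos : 0 < W := primorial_pos w
  have hWr : (0 : ℝ) < (W : ℝ) := by exact_mod_cast hWpos
  obtain ⟨X₂, hX₂⟩ := hwin W hWpos (δ / (2 * W)) (by positivity)
  obtain ⟨X₃, hX₃⟩ := GJ_pos a ha w
  refine ⟨max X₁ (max X₂ (max X₃ 1)), fun X hX => ?_⟩
  have hXa : X₁ ≤ X := le_trans (le_max_left _ _) hX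
  have hXb : X₂ ≤ X := le_trans (le_trans (le_max_left _ _) (le_max_right _ _)) hX
  have hXc : X₃ ≤ X := le_trans (le_trans (le_trans (le_max_left _ _) (le_max_right _ _))
    (le_max_right _ _)) hX
  have hXd : 1 ≤ X := le_trans (le_trans (le_trans (le_max_right _ _) (le_max_right _ _))
    (le_max_right _ _)) hX
  obtain ⟨hGpos, hHX, hwR⟩ := hX₃ X hXc
  have hV := hX₁ X hXa
  have hWin := hX₂ X hXb
  have hXr : (0 : ℝ) < (X : ℝ) := by exact_mod_cast hXd
  set H := HJ a X with hH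
  set B := c₀ * GJ a X with hB
  have hBpos : 0 < B := mul_pos hc₀ hGpos
  -- the exceptional sets
  set E : ℕ → Finset ℕ := fun v => {m ∈ Icc X (2 * X) |
    ∑ s ∈ IS (RJ a X), (#{q ∈ Ico (s * m - H) (s * m) | q.Prime ∧ q ≡ s * v [MOD W]} : ℝ)
      < B / Nat.totient W} with hE
  set D : ℕ → ℝ := fun m => ∑ s ∈ IS (RJ a X), ∑ t ∈ Icc 1 H,
    (fP H (t : ℤ) - gW W H (t : ℤ)) * (if (s * m - t).Prime then (1 : ℝ) else 0) with hD
  set Z : Finset ℕ := {m ∈ Icc X (2 * X) | B / 2 ≤ |D m|} with hZ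
  set V : Finset ℕ := {v ∈ range W | Nat.Coprime v W} with hVd
  have hEcard : ∀ v ∈ V, ((E v).card : ℝ) ≤ δ / (2 * W) * X := by
    intro v hv
    have hv' := (Finset.mem_filter.1 hv).2
    exact hWin v hv'
  have hZcard : (Z.card : ℝ) ≤ δ / 4 * X := by
    have e1 : (Z.card : ℝ) * (B / 2) ^ 2 ≤ ∑ m ∈ Icc X (2 * X), (D m) ^ 2 := by
      calc (Z.card : ℝ) * (B / 2) ^ 2 = ∑ m ∈ Z, (B / 2) ^ 2 := by
            rw [Finset.sum_const, nsmul_eq_mul]
        _ ≤ ∑ m ∈ Z, (D m) ^ 2 := by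
            apply Finset.sum_le_sum
            intro m hm
            have h := (Finset.mem_filter.1 hm).2
            rw [← sq_abs (D m)]
            exact pow_le_pow_left₀ (by positivity) h 2
        _ ≤ _ := Finset.sum_le_sum_of_subset_of_nonneg (Finset.filter_subset _ _)
            (fun _ _ _ => sq_nonneg _)
    have e2 : (Z.card : ℝ) * (B / 2) ^ 2 ≤ c₀ ^ 2 * δ / 16 * X * (GJ a X) ^ 2 :=
      e1.trans hV
    have e3 : c₀ ^ 2 * δ / 16 * X * (GJ a X) ^ 2 = (δ / 4 * X) * (B / 2) ^ 2 := by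
      rw [hB]; ring
    rw [e3] at e2
    exact le_of_mul_le_mul_right e2 (by positivity)
  have hsub : ({m ∈ Icc X (2 * X) | Even m ∧
      ∑ s ∈ IS (RJ a X), ∑ t ∈ Icc 1 H,
          fP H (t : ℤ) * (if (s * m - t).Prime then (1 : ℝ) else 0) ≤ 0} : Finset ℕ) ⊆
        V.biUnion E ∪ Z := by
    intro m hm
    obtain ⟨hm1, hm2, hm3⟩ := Finset.mem_filter.1 hm
    by_contra hcon
    rw [Finset.mem_union, not_or] at hcon
    obtain ⟨hc1, hc2⟩ := hcon
    have hmX : X ≤ m := (Finset.mem_Icc.1 hm1).1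
    have key : B ≤ ∑ s ∈ IS (RJ a X), ∑ t ∈ Icc 1 H,
        gW W H (t : ℤ) * (if (s * m - t).Prime then (1 : ℝ) else 0) := by
      apply model_lowerJ a B hBpos.le X w m hw2 hm2 hwR (hHX.trans hmX)
      intro v hv
      have hv' : v % W ∈ V := by
        rw [hVd, Finset.mem_filter, Finset.mem_range]
        refine ⟨Nat.mod_lt _ hWpos, ?_⟩
        have : Nat.gcd (v % W) W = Nat.gcd W v := (Nat.gcd_rec W v).symm
        rw [Nat.Coprime, this, Nat.gcd_comm]
        exact hv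
      have h5 : m ∉ E (v % W) := fun h => hc1 (Finset.mem_biUnion.2 ⟨_, hv', h⟩)
      rw [hE] at h5
      simp only [Finset.mem_filter, not_and, not_lt] at h5
      have h6 := h5 hm1
      refine h6.trans (le_of_eq ?_)
      refine Finset.sum_congr rfl fun s _ => ?_
      congr 2
      apply Finset.filter_congr
      intro n _
      have h8 : s * (v % W) ≡ s * v [MOD W] := (Nat.mod_modEq v W).mul_left s
      constructor
      · rintro ⟨h, h'⟩; exact ⟨h, h'.trans h8⟩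
      · rintro ⟨h, h'⟩; exact ⟨h, h'.trans h8.symm⟩
    have hD1 : |D m| < B / 2 := by
      by_contra h
      exact hc2 (Finset.mem_filter.2 ⟨hm1, not_lt.1 h⟩)
    have hD2 : D m = ∑ s ∈ IS (RJ a X), ∑ t ∈ Icc 1 H,
          fP H (t : ℤ) * (if (s * m - t).Prime then (1 : ℝ) else 0) -
        ∑ s ∈ IS (RJ a X), ∑ t ∈ Icc 1 H,
          gW W H (t : ℤ) * (if (s * m - t).Prime then (1 : ℝ) else 0) := by
      rw [hD, ← Finset.sum_sub_distrib]
      apply Finset.sum_congr rfl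
      intro s _
      rw [← Finset.sum_sub_distrib]
      apply Finset.sum_congr rfl
      intro t _
      ring
    have := (abs_lt.1 hD1).1
    rw [hD2] at this
    linarith
  have hVcard : (V.card : ℝ) ≤ W := by
    have : V.card ≤ (range W).card := Finset.card_filter_le _ _
    rw [Finset.card_range] at this
    exact_mod_cast this
  calc (#{m ∈ Icc X (2 * X) | Even m ∧
        ∑ s ∈ IS (RJ a X), ∑ t ∈ Icc 1 H,
          fP H (t : ℤ) * (if (s * m - t).Prime then (1 : ℝ) else 0) ≤ 0} : ℝ)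
      ≤ ((V.biUnion E ∪ Z).card : ℝ) := by exact_mod_cast Finset.card_le_card hsub
    _ ≤ ((V.biUnion E).card : ℝ) + (Z.card : ℝ) := by exact_mod_cast Finset.card_union_le _ _
    _ ≤ (∑ v ∈ V, ((E v).card : ℝ)) + (Z.card : ℝ) := by
        have : (V.biUnion E).card ≤ ∑ v ∈ V, (E v).card := Finset.card_biUnion_le
        have h' : ((V.biUnion E).card : ℝ) ≤ ∑ v ∈ V, ((E v).card : ℝ) := by exact_mod_cast this
        linarith
    _ ≤ (∑ v ∈ V, δ / (2 * W) * X) + δ / 4 * X := by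
        have := Finset.sum_le_sum hEcard
        linarith
    _ = (V.card : ℝ) * (δ / (2 * W) * X) + δ / 4 * X := by rw [Finset.sum_const, nsmul_eq_mul]
    _ ≤ (W : ℝ) * (δ / (2 * W) * X) + δ / 4 * X := by
        have := mul_le_mul_of_nonneg_right hVcard (by positivity : 0 ≤ δ / (2 * W) * X)
        linarith
    _ ≤ δ * X := by
        have e : (W : ℝ) * (δ / (2 * W) * X) = δ / 2 * X := by field_simp
        rw [e]
        nlinarith

end Pool.Agent.E3
end
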