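import Mathlib
import Pool.Agent.Lib.MP_9cfc0a_nt.ZDBasic

section

/-!
# Good moduli: definitions
-/

set_option autoImplicit false

namespace Pool.Agent.GM

open Complex Metric Set

/-- von Mangoldt's function as a real number -/
noncomputable abbrev vM (n : ℕ) : ℝ := ArithmeticFunction.vonMangoldt n

/-- the weight `(log n)^k / (k! n^2)`; it is concentrated near `n = e^k` -/
noncomputable def wk (k n : ℕ) : ℝ := (Real.log n) ^ k / (k.factorial * (n : ℝ) ^ 2)

/-- the Dirichlet series of `χ Λ` -/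
noncomputable def DD (q : ℕ) (χ : DirichletCharacter ℂ q) (s : ℂ) : ℂ :=
  LSeries (fun n => χ n * ((vM n : ℝ) : ℂ)) s

/-- the sum of `χ Λ` with the weight `wk` -/
noncomputable def Sk (q : ℕ) (χ : DirichletCharacter ℂ q) (k : ℕ) : ℂ :=
  ∑' n : ℕ, ((vM n : ℝ) : ℂ) * χ n * ((wk k n : ℝ) : ℂ)

/-- the L-function has a zero in the closed disc of radius `1 + κ` around `2` -/
def NearZero (q : ℕ) [NeZero q] (χ : DirichletCharacter ℂ q) (κ : ℝ) : Prop :=
  ∃ ρ : ℂ, χ.LFunction ρ = 0 ∧ ‖ρ - 2‖ ≤ 1 + κ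

/-- the product of the primes `≤ z` outside `D` -/
def Mz (z : ℕ) (D : Finset ℕ) : ℕ :=
  ∏ p ∈ (Finset.range (z + 1)).filter (fun p => p.Prime ∧ p ∉ D), p

lemma Mz_pos (z : ℕ) (D : Finset ℕ) : 0 < Mz z D :=
  Finset.prod_pos fun p hp => (Finset.mem_filter.mp hp).2.1.pos

instance (z : ℕ) (D : Finset ℕ) : NeZero (Mz z D) := ⟨(Mz_pos z D).ne'⟩

/-- The bound for real parts of the Dirichlet series `DD` with constant `C`
(proved in `Z4.lean` for some `C`). -/
def ReBound (C : ℝ) : Prop :=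
  1 ≤ C ∧ ∀ (q : ℕ) [NeZero q] (χ : DirichletCharacter ℂ q) (t σ : ℝ), |t| ≤ 2 → 1 < σ → σ ≤ 2 →
    ∀ S : Finset ℂ, (∀ ρ ∈ S, MC.FF q χ ρ = 0 ∧ ‖ρ - (2 + t * I)‖ ≤ 7 / 4) →
      (χ ≠ 1 → (DD q χ (σ + t * I)).re
        ≤ C * Real.log (q + 2) - ∑ ρ ∈ S, (((σ : ℂ) + t * I - ρ)⁻¹).re) ∧
      (χ = 1 → (DD q χ (σ + t * I)).re
        ≤ C * Real.log (q + 2) + (((σ : ℂ) + t * I - 1)⁻¹).re
          - ∑ ρ ∈ S, (((σ : ℂ) + t * I - ρ)⁻¹).re)

end Pool.Agent.GM
end

section

set_option autoImplicit false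

namespace Pool.Agent.GM

/-- the primes in `(√z, z]` -/
def Pz (z : ℕ) : Finset ℕ := (Finset.range (z + 1)).filter (fun p => p.Prime ∧ z < p ^ 2)

/-- C2a. PROOF. `Mz z D ∣ primorial z` (`primorial` is the product over
`(Finset.range (z + 1)).filter Nat.Prime`), `primorial_le_four_pow` (Mathlib), `log 4 ≤ 2`. -/
lemma log_Mz_le (z : ℕ) (D : Finset ℕ) : Real.log (Mz z D) ≤ 2 * z := by
  have h1 : Mz z D ∣ primorial z := by
    unfold Mz primorial
    apply Finset.prod_dvd_prod_of_subset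
    intro p hp
    rw [Finset.mem_filter] at hp ⊢
    exact ⟨hp.1, hp.2.1⟩
  have h2 : Mz z D ≤ 4 ^ z :=
    (Nat.le_of_dvd (primorial_pos z) h1).trans (primorial_le_four_pow z)
  have h3 : (Mz z D : ℝ) ≤ (4 : ℝ) ^ z := by exact_mod_cast h2
  have hpos : (0 : ℝ) < Mz z D := by exact_mod_cast Mz_pos z D
  have h4 : Real.log (Mz z D) ≤ z * Real.log 4 := by
    rw [← Real.log_pow]
    exact Real.log_le_log hpos h3
  have h5 : Real.log 4 ≤ 2 := by
    have : (4 : ℝ) = 2 ^ 2 := by norm_num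
    rw [this, Real.log_pow]
    have := Real.log_two_lt_d9
    push_cast
    linarith
  have hz : (0 : ℝ) ≤ z := Nat.cast_nonneg z
  nlinarith

/-- C2b. -/
lemma Mz_dvd (z : ℕ) (D : Finset ℕ) : Mz z D ∣ Mz z ∅ := by
  unfold Mz
  apply Finset.prod_dvd_prod_of_subset
  intro p hp
  rw [Finset.mem_filter] at hp ⊢
  exact ⟨hp.1, hp.2.1, by simp⟩

/-- C2c. A product of distinct primes is squarefree. -/
lemma Mz_squarefree (z : ℕ) (D : Finset ℕ) : Squarefree (Mz z D) := by
  unfold Mz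
  apply Finset.squarefree_prod_of_pairwise_isCoprime
  · intro p hp q hq hpq
    have hp' := (Finset.mem_filter.mp hp).2.1
    have hq' := (Finset.mem_filter.mp hq).2.1
    exact Nat.coprime_iff_isRelPrime.mp ((Nat.coprime_primes hp' hq').mpr hpq)
  · intro p hp
    exact (Finset.mem_filter.mp hp).2.1.squarefree

/-- C2d. -/
lemma prime_dvd_Mz (z : ℕ) (D : Finset ℕ) (p : ℕ) (hp : p.Prime) :
    p ∣ Mz z D ↔ p ≤ z ∧ p ∉ D := by
  unfold Mz
  rw [Prime.dvd_finset_prod_iff hp.prime]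
  constructor
  · rintro ⟨q, hq, hpq⟩
    rw [Finset.mem_filter, Finset.mem_range] at hq
    have : p = q := (Nat.prime_dvd_prime_iff_eq hp hq.2.1).mp hpq
    subst this
    exact ⟨by omega, hq.2.2⟩
  · rintro ⟨h1, h2⟩
    exact ⟨p, by rw [Finset.mem_filter, Finset.mem_range]; exact ⟨by omega, hp, h2⟩, dvd_rfl⟩

/-- C2e. PROOF. `d` is squarefree with all prime factors `≤ z`, so
`log d = ∑_{p ∣ d} log p ≤ ∑_{p ∣ d} log z`; the prime factors with `p ^ 2 ≤ z` are `≤ √z`, at most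
`√z` of them, the others are in `Pz z`. -/
lemma log_le_of_dvd (z d : ℕ) (hz : 1 ≤ z) (hd : d ∣ Mz z ∅) :
    Real.log d ≤ (Real.sqrt z + ((Pz z).filter (fun p => p ∣ d)).card) * Real.log z := by
  have hd0 : d ≠ 0 := by
    rintro rfl
    exact (Mz_pos z ∅).ne' (zero_dvd_iff.mp hd)
  have hsq : Squarefree d := (Mz_squarefree z ∅).squarefree_of_dvd hd
  have hprod : ∏ p ∈ d.primeFactors, p = d := Nat.prod_primeFactors_of_squarefree hsq
  have hle : ∀ p ∈ d.primeFactors, p ≤ z := by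
    intro p hp
    have hp' := Nat.prime_of_mem_primeFactors hp
    exact ((prime_dvd_Mz z ∅ p hp').mp ((Nat.dvd_of_mem_primeFactors hp).trans hd)).1
  have hlogz : 0 ≤ Real.log z := Real.log_nonneg (by exact_mod_cast hz)
  have h1 : Real.log d ≤ d.primeFactors.card * Real.log z := by
    calc Real.log d = Real.log ((∏ p ∈ d.primeFactors, p : ℕ) : ℝ) := by rw [hprod]
      _ = ∑ p ∈ d.primeFactors, Real.log p := by
          rw [Nat.cast_prod, Real.log_prod]
          intro p hp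
          exact_mod_cast (Nat.prime_of_mem_primeFactors hp).ne_zero
      _ ≤ ∑ _p ∈ d.primeFactors, Real.log z := by
          apply Finset.sum_le_sum
          intro p hp
          apply Real.log_le_log
          · exact_mod_cast (Nat.prime_of_mem_primeFactors hp).pos
          · exact_mod_cast hle p hp
      _ = d.primeFactors.card * Real.log z := by simp
  have h2 : (d.primeFactors.card : ℝ) ≤
      Real.sqrt z + ((Pz z).filter (fun p => p ∣ d)).card := by
    have hsub : d.primeFactors ⊆ Finset.Icc 1 (Nat.sqrt z) ∪ (Pz z).filter (fun p => p ∣ d) := by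
      intro p hp
      have hp' := Nat.prime_of_mem_primeFactors hp
      rw [Finset.mem_union, Finset.mem_Icc, Finset.mem_filter]
      rcases Nat.lt_or_ge z (p ^ 2) with h | h
      · right
        refine ⟨?_, Nat.dvd_of_mem_primeFactors hp⟩
        unfold Pz
        rw [Finset.mem_filter, Finset.mem_range]
        exact ⟨by have := hle p hp; omega, hp', h⟩
      · left
        exact ⟨hp'.pos, Nat.le_sqrt'.mpr h⟩
    have h3 := (Finset.card_le_card hsub).trans (Finset.card_union_le _ _)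
    rw [Nat.card_Icc] at h3
    have h4 : ((Nat.sqrt z : ℕ) : ℝ) ≤ Real.sqrt z := Real.nat_sqrt_le_real_sqrt
    have h5 : (d.primeFactors.card : ℝ) ≤
        (Nat.sqrt z : ℝ) + (((Pz z).filter (fun p => p ∣ d)).card : ℝ) := by
      exact_mod_cast (by simpa using h3)
    linarith
  exact h1.trans (mul_le_mul_of_nonneg_right h2 hlogz)

/-- C2f. Lifting a character from `Mz z D` to `Mz z ∅`: see S1.
PROOF. `χ' = DirichletCharacter.changeLevel (Mz_dvd z D) χ`; `changeLevel_eq_one_iff`,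
`zero_changeLevel` of S1 (not imported here; repeat its one-line proof by
`DirichletCharacter.LFunction_changeLevel`), `DirichletCharacter.conductor_changeLevel`,
`DirichletCharacter.conductor_dvd_level`. -/
lemma lift_bad (z : ℕ) (D : Finset ℕ) (κ : ℝ) (χ : DirichletCharacter ℂ (Mz z D)) (hχ : χ ≠ 1)
    (h : NearZero (Mz z D) χ κ) : ∃ χ' : DirichletCharacter ℂ (Mz z ∅), χ' ≠ 1 ∧
      NearZero (Mz z ∅) χ' κ ∧ χ'.conductor ∣ Mz z D := by
  refine ⟨DirichletCharacter.changeLevel (Mz_dvd z D) χ, ?_, ?_, ?_⟩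
  · intro h1
    exact hχ ((DirichletCharacter.changeLevel_eq_one_iff (Mz_dvd z D)).mp h1)
  · obtain ⟨ρ, hρ, hρ2⟩ := h
    refine ⟨ρ, ?_, hρ2⟩
    rw [DirichletCharacter.LFunction_changeLevel (Mz_dvd z D) χ (Or.inl hχ), hρ, zero_mul]
  · rw [DirichletCharacter.conductor_changeLevel]
    exact DirichletCharacter.conductor_dvd_level χ

end Pool.Agent.GM
end
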