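import Mathlib
import Pool.Agent.Lib.MP_bae66e_nt.Mg.G033

section

/-!
# Maier's phenomenon for Goldbach's problem: definitions
-/

set_option autoImplicit false

namespace Pool.Agent.MG

open Pool.Agent.GM

/-- the number of primes `p ≤ y` such that `m - p` is prime -/
noncomputable def repCount (m : ℕ) (y : ℝ) : ℕ :=
  ((Finset.range m).filter (fun p => p.Prime ∧ (m - p).Prime ∧ (p : ℝ) ≤ y)).card

/-- the twin prime constant, the product of `1 - 1/(p-1)^2` over the odd primes `p` -/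
noncomputable def twinConst : ℝ :=
  ∏' p : Nat.Primes, (if (p : ℕ) = 2 then (1 : ℝ) else 1 - 1 / (((p : ℕ) : ℝ) - 1) ^ 2)

/-- the singular series of Goldbach's problem (for even `m`) -/
noncomputable def sing (m : ℕ) : ℝ :=
  2 * twinConst * ∏ p ∈ m.primeFactors.erase 2, (((p : ℝ) - 1) / ((p : ℝ) - 2))

/-- number of primes up to a real number -/
noncomputable def piR (y : ℝ) : ℝ := (Nat.primeCounting ⌊y⌋₊ : ℝ)

/-- the scale `lam t^B (log t)^β`, used with `t = log m` -/
noncomputable def scale (lam B β t : ℝ) : ℝ := lam * t ^ B * (Real.log t) ^ β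

/-- conditions on the deleted primes -/
def Adm (K k z p₁ : ℕ) (D₀ : Finset ℕ) : Prop :=
  p₁.Prime ∧ K ≤ p₁ ∧ p₁ ≤ z ∧ D₀ ⊆ Pz z ∧ (D₀.card : ℝ) ≤ (Real.log k) ^ 4

/-- the primes near `e^k` are equidistributed mod `M` -/
def GoodM (δ : ℝ) (k M : ℕ) : Prop := ∀ c : ℕ, c.Coprime M →
  |(M.totient : ℝ) * ∑' n : ℕ, (if n ≡ c [MOD M] then vM n * wk k n else 0) - 1| ≤ δ

/-- the even numbers in `(z^v₁, z^v₂]` -/
noncomputable def aSet (z : ℕ) (v₁ v₂ : ℝ) : Finset ℕ :=
  (Finset.Ioc ⌊(z : ℝ) ^ v₁⌋₊ ⌊(z : ℝ) ^ v₂⌋₊).filter Even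

/-- the number of primes `p ≤ Y` such that `a - p` is coprime to `M` (for `Y < a`) -/
noncomputable def RR (M a : ℕ) (Y : ℝ) : ℕ :=
  ((Finset.range (⌊Y⌋₊ + 1)).filter (fun p => p.Prime ∧ (a - p).Coprime M)).card

/-- the integers `m` with `(1 - θ) k ≤ log m ≤ (1 + θ) k` (`k ≥ 1`, `θ < 1`) -/
noncomputable def cenSet (θ : ℝ) (k : ℕ) : Finset ℕ :=
  (Finset.range (⌊Real.exp ((1 + θ) * k)⌋₊ + 1)).filter (fun m => (1 - θ) * k ≤ Real.log m)

/-- actual count, row `a` -/
noncomputable def TA (θ lam B β : ℝ) (k M a : ℕ) : ℝ :=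
  ∑ m ∈ (cenSet θ k).filter (fun m => m ≡ a [MOD M]),
    wk k m * Real.log m * (repCount m (scale lam B β (Real.log m)) : ℝ)

/-- expected count, row `a` -/
noncomputable def TE (θ lam B β : ℝ) (k M a : ℕ) : ℝ :=
  ∑ m ∈ (cenSet θ k).filter (fun m => m ≡ a [MOD M]),
    wk k m * (sing m * piR (scale lam B β (Real.log m)))

/-- the function `ω` is Buchstab's function on `[1, ∞)`, in the form used here -/
def BuchLog (ω : ℝ → ℝ) : Prop := ∀ v₁ v₂ : ℝ, 1 ≤ v₁ → v₁ < v₂ →
  Filter.Tendsto (fun z : ℕ => ∑ n ∈ (Finset.Ioc ⌊(z : ℝ) ^ v₁⌋₊ ⌊(z : ℝ) ^ v₂⌋₊).filter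
    (fun n => Nat.Coprime n (primorial z)), (1 : ℝ) / n) Filter.atTop
      (nhds (∫ x in v₁..v₂, ω x))

lemma mem_cenSet {θ : ℝ} {k m : ℕ} (hk : 1 ≤ k) (hθ : θ < 1) : m ∈ cenSet θ k ↔
    (1 - θ) * k ≤ Real.log m ∧ Real.log m ≤ (1 + θ) * k := by
  have hk' : (1 : ℝ) ≤ k := by exact_mod_cast hk
  unfold cenSet
  rw [Finset.mem_filter, Finset.mem_range, Nat.lt_succ_iff]
  constructor
  · rintro ⟨h1, h2⟩
    refine ⟨h2, ?_⟩
    have hm : 0 < m := by
      rcases Nat.eq_zero_or_pos m with h | h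
      · rw [h] at h2; simp at h2; nlinarith
      · exact h
    have h3 : (m : ℝ) ≤ Real.exp ((1 + θ) * k) :=
      (Nat.le_floor_iff (Real.exp_pos _).le).mp h1
    have := Real.log_le_log (by exact_mod_cast hm) h3
    rwa [Real.log_exp] at this
  · rintro ⟨h2, h1⟩
    refine ⟨?_, h2⟩
    have hm : 0 < m := by
      rcases Nat.eq_zero_or_pos m with h | h
      · rw [h] at h2; simp at h2; nlinarith
      · exact h
    rw [Nat.le_floor_iff (Real.exp_pos _).le]
    exact (Real.log_le_iff_le_exp (by exact_mod_cast hm)).mp h1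

end Pool.Agent.MG
end

section

set_option autoImplicit false

namespace Pool.Agent.MG

open Pool.Agent.GM

/-- S1a. PROOF. For odd primes `1 / (p-1)^2 ≤ 1/4`, summable; e.g. `Real.multipliable_of_summable_log`
or `Real.rexp_tsum_eq_tprod`: the product is `exp` of a convergent sum of logarithms, so positive;
all factors are `≤ 1`, so the product is `≤ 1`. -/
lemma twinConst_pos : 0 < twinConst ∧ twinConst ≤ 1 := by
  set g : Nat.Primes → ℝ := fun p =>
    if (p : ℕ) = 2 then (0 : ℝ) else - (1 / (((p : ℕ) : ℝ) - 1) ^ 2) with hg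
  set f : Nat.Primes → ℝ := fun p =>
    if (p : ℕ) = 2 then (1 : ℝ) else 1 - 1 / (((p : ℕ) : ℝ) - 1) ^ 2 with hf
  have hfg : ∀ p, f p = 1 + g p := by
    intro p
    simp only [hf, hg]
    split_ifs <;> ring
  have hp2 : ∀ p : Nat.Primes, (2 : ℝ) ≤ ((p : ℕ) : ℝ) := fun p => by exact_mod_cast p.2.two_le
  have hgb : ∀ p, ‖g p‖ ≤ 4 * (1 / (((p : ℕ) : ℝ)) ^ 2) := by
    intro p
    have h2 := hp2 p
    simp only [hg]
    split_ifs with h
    · rw [norm_zero]; positivity
    · rw [norm_neg, Real.norm_of_nonneg (by positivity)]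
      rw [mul_one_div, div_le_div_iff₀ (by nlinarith) (by positivity)]
      nlinarith
  have hsg : Summable g := by
    refine Summable.of_norm_bounded ?_ hgb
    refine Summable.mul_left _ ?_
    exact (Real.summable_one_div_nat_pow.mpr one_lt_two).comp_injective
      Nat.Primes.coe_nat_injective
  have hfpos : ∀ p, 0 < f p := by
    intro p
    simp only [hf]
    split_ifs with h
    · exact one_pos
    · have h3 : (3 : ℝ) ≤ ((p : ℕ) : ℝ) := by
        have := p.2.two_le
        have : 3 ≤ (p : ℕ) := by omega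
        exact_mod_cast this
      rw [sub_pos, div_lt_one (by nlinarith)]
      nlinarith
  have hfle : ∀ p, f p ≤ 1 := by
    intro p
    simp only [hf]
    split_ifs with h
    · exact le_rfl
    · have : 0 ≤ 1 / (((p : ℕ) : ℝ) - 1) ^ 2 := by positivity
      linarith
  have hlog : Summable (fun p => Real.log (f p)) := by
    have := Real.summable_log_one_add_of_summable hsg
    refine this.congr (fun p => ?_)
    rw [hfg p]
  have hexp : Real.exp (∑' p, Real.log (f p)) = twinConst :=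
    Real.rexp_tsum_eq_tprod hfpos hlog
  constructor
  · rw [← hexp]; exact Real.exp_pos _
  · rw [← hexp, Real.exp_le_one_iff]
    exact tsum_nonpos (fun p => Real.log_nonpos (hfpos p).le (hfle p))

end Pool.Agent.MG
end
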