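import Pool.Agent.Lib.MP_bae66e_nt.Mg.G076
import Pool.Agent.Lib.MP_bae66e_nt.AP3.FLFinal
import Pool.Agent.Lib.MP_bae66e_nt.BrunT

section

/-!
# N10: the prime number theorem in arithmetic progressions for `θ` and `π`
-/

set_option autoImplicit false

open Finset Filter Topology
open scoped ArithmeticFunction.vonMangoldt

namespace Pool.Agent.Lib.MP_bae66e_nt.LL

private lemma N10_diff (q : ℕ) (a : ZMod q) (x : ℝ) :
    0 ≤ (∑ n ∈ Finset.Icc 1 ⌊x⌋₊, if ((n : ℕ) : ZMod q) = a then Λ n else 0) -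
      (∑ p ∈ (Finset.Icc 1 ⌊x⌋₊).filter (fun p => p.Prime ∧ ((p : ℕ) : ZMod q) = a),
        Real.log p) ∧
    (∑ n ∈ Finset.Icc 1 ⌊x⌋₊, if ((n : ℕ) : ZMod q) = a then Λ n else 0) -
      (∑ p ∈ (Finset.Icc 1 ⌊x⌋₊).filter (fun p => p.Prime ∧ ((p : ℕ) : ZMod q) = a),
        Real.log p) ≤ Chebyshev.psi x - Chebyshev.theta x := by
  rw [Finset.sum_filter, ← Finset.sum_sub_distrib, Chebyshev.psi_sub_theta_eq_sum_not_prime,
    Finset.sum_filter]
  have e : Finset.Ioc 0 ⌊x⌋₊ = Finset.Icc 1 ⌊x⌋₊ := by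
    ext n
    simp only [Finset.mem_Icc, Finset.mem_Ioc]
    omega
  rw [e]
  have key : ∀ n : ℕ, 0 ≤ (if ((n : ℕ) : ZMod q) = a then Λ n else 0) -
        (if n.Prime ∧ ((n : ℕ) : ZMod q) = a then Real.log n else 0) ∧
      (if ((n : ℕ) : ZMod q) = a then Λ n else 0) -
        (if n.Prime ∧ ((n : ℕ) : ZMod q) = a then Real.log n else 0) ≤
        if ¬ n.Prime then Λ n else 0 := by
    intro n
    have h0 : 0 ≤ Λ n := ArithmeticFunction.vonMangoldt_nonneg
    by_cases hp : n.Prime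
    · have h1 : Λ n = Real.log n := ArithmeticFunction.vonMangoldt_apply_prime hp
      by_cases hn : ((n : ℕ) : ZMod q) = a
      · simp [hp, hn, h1]
      · simp [hp, hn]
    · by_cases hn : ((n : ℕ) : ZMod q) = a
      · simp [hp, hn]
      · simp [hp, hn]
  exact ⟨Finset.sum_nonneg fun n _ => (key n).1, Finset.sum_le_sum fun n _ => (key n).2⟩

private lemma N10_count (q : ℕ) (a : ZMod q) (η x : ℝ) (h0 : 0 < η) (h1 : η < 1) (hx : 1 < x) :
    (∑ p ∈ (Finset.Icc 1 ⌊x⌋₊).filter (fun p => p.Prime ∧ ((p : ℕ) : ZMod q) = a),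
        Real.log p) ≤
      (((Finset.Icc 1 ⌊x⌋₊).filter (fun p => p.Prime ∧ ((p : ℕ) : ZMod q) = a)).card : ℝ)
        * Real.log x ∧
    (((Finset.Icc 1 ⌊x⌋₊).filter (fun p => p.Prime ∧ ((p : ℕ) : ZMod q) = a)).card : ℝ)
        * Real.log x ≤
      (∑ p ∈ (Finset.Icc 1 ⌊x⌋₊).filter (fun p => p.Prime ∧ ((p : ℕ) : ZMod q) = a),
        Real.log p) / (1 - η) + x ^ (1 - η) * Real.log x := by
  classical
  have hx0 : 0 < x := by linarith
  have hlx : 0 < Real.log x := Real.log_pos hx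
  set F := (Finset.Icc 1 ⌊x⌋₊).filter (fun p => p.Prime ∧ ((p : ℕ) : ZMod q) = a) with hF
  have hmem : ∀ p ∈ F, 1 ≤ p ∧ (p : ℝ) ≤ x := by
    intro p hp
    have h2 := (Finset.mem_Icc.1 (Finset.mem_filter.1 hp).1)
    exact ⟨h2.1, (Nat.le_floor_iff hx0.le).1 h2.2⟩
  have hlog0 : ∀ p ∈ F, 0 ≤ Real.log p := fun p _ => Real.log_natCast_nonneg p
  constructor
  · calc ∑ p ∈ F, Real.log p ≤ ∑ _p ∈ F, Real.log x := by
          refine Finset.sum_le_sum fun p hp => ?_
          have := (hmem p hp).1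
          exact Real.log_le_log (by exact_mod_cast this) (hmem p hp).2
      _ = (F.card : ℝ) * Real.log x := by rw [Finset.sum_const, nsmul_eq_mul]
  · set y : ℝ := x ^ (1 - η) with hy
    have hy0 : 0 < y := Real.rpow_pos_of_pos hx0 _
    have hly : Real.log y = (1 - η) * Real.log x := Real.log_rpow hx0 _
    have hcard : F.card = (F.filter (fun p : ℕ => (p : ℝ) ≤ y)).card +
        (F.filter (fun p : ℕ => ¬ (p : ℝ) ≤ y)).card :=
      (Finset.card_filter_add_card_filter_not _).symm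
    have hc1 : ((F.filter (fun p : ℕ => (p : ℝ) ≤ y)).card : ℝ) ≤ y := by
      have h2 : F.filter (fun p : ℕ => (p : ℝ) ≤ y) ⊆ Finset.Icc 1 ⌊y⌋₊ := by
        intro p hp
        obtain ⟨hp1, hp2⟩ := Finset.mem_filter.1 hp
        exact Finset.mem_Icc.2 ⟨(hmem p hp1).1, Nat.le_floor hp2⟩
      have h3 := Finset.card_le_card h2
      rw [Nat.card_Icc, Nat.add_sub_cancel] at h3
      calc ((F.filter (fun p : ℕ => (p : ℝ) ≤ y)).card : ℝ) ≤ (⌊y⌋₊ : ℝ) := by exact_mod_cast h3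
        _ ≤ y := Nat.floor_le hy0.le
    have hc2 : ((F.filter (fun p : ℕ => ¬ (p : ℝ) ≤ y)).card : ℝ) * ((1 - η) * Real.log x) ≤
        ∑ p ∈ F, Real.log p := by
      calc ((F.filter (fun p : ℕ => ¬ (p : ℝ) ≤ y)).card : ℝ) * ((1 - η) * Real.log x)
          = ∑ _p ∈ F.filter (fun p : ℕ => ¬ (p : ℝ) ≤ y), Real.log y := by
            rw [Finset.sum_const, nsmul_eq_mul, hly]
        _ ≤ ∑ p ∈ F.filter (fun p : ℕ => ¬ (p : ℝ) ≤ y), Real.log p := by
            refine Finset.sum_le_sum fun p hp => ?_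
            have := (Finset.mem_filter.1 hp).2
            push Not at this
            exact Real.log_le_log hy0 this.le
        _ ≤ ∑ p ∈ F, Real.log p :=
            Finset.sum_le_sum_of_subset_of_nonneg (Finset.filter_subset _ _)
              fun p hp _ => hlog0 p hp
    have hη : 0 < 1 - η := by linarith
    have hc3 : ((F.filter (fun p : ℕ => ¬ (p : ℝ) ≤ y)).card : ℝ) * Real.log x ≤
        (∑ p ∈ F, Real.log p) / (1 - η) := by
      rw [le_div_iff₀ hη]
      linarith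
    rw [hcard]
    push_cast
    have hc4 := mul_le_mul_of_nonneg_right hc1 hlx.le
    linarith

/-- `θ(x; q, a) ~ x / φ(q)`.

PROOF. `0 ≤ ψ(x; q, a) - θ(x; q, a) ≤ ψ(x) - θ(x) ≤ 2 √x log x` for `x ≥ 1`
(`Chebyshev.psi_sub_theta_le`, `Chebyshev.psi_sub_theta_eq_sum_not_prime`), and
`√x log x / x → 0`. -/
theorem tendsto_thetaAP (q : ℕ) [NeZero q] (a : ZMod q) (ha : IsUnit a) :
    Tendsto (fun x : ℝ => (∑ p ∈ (Finset.Icc 1 ⌊x⌋₊).filter (fun p => p.Prime ∧ ((p : ℕ) : ZMod q) = a),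
      Real.log p) / x) atTop (𝓝 (1 / (q.totient : ℝ))) := by
  have hψ := tendsto_psiAP q a ha
  obtain ⟨C, hC⟩ := Chebyshev.psi_sub_theta_le_mul_sqrt
  have hd : Tendsto (fun x : ℝ =>
      ((∑ n ∈ Finset.Icc 1 ⌊x⌋₊, if ((n : ℕ) : ZMod q) = a then Λ n else 0) -
      (∑ p ∈ (Finset.Icc 1 ⌊x⌋₊).filter (fun p => p.Prime ∧ ((p : ℕ) : ZMod q) = a),
        Real.log p)) / x) atTop (𝓝 0) := by
    have hlim : Tendsto (fun x : ℝ => C * (Real.sqrt x)⁻¹) atTop (𝓝 0) := by
      have h := (tendsto_inv_atTop_zero.comp Real.tendsto_sqrt_atTop).const_mul C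
      rw [mul_zero] at h
      exact h
    refine squeeze_zero' ?_ ?_ hlim
    · filter_upwards [eventually_gt_atTop (0 : ℝ)] with x hx
      exact div_nonneg (N10_diff q a x).1 hx.le
    · filter_upwards [eventually_gt_atTop (0 : ℝ)] with x hx
      rw [div_le_iff₀ hx]
      refine ((N10_diff q a x).2.trans (hC x)).trans (le_of_eq ?_)
      have hs : 0 < Real.sqrt x := Real.sqrt_pos.2 hx
      have hs2 : Real.sqrt x * Real.sqrt x = x := Real.mul_self_sqrt hx.le
      calc C * Real.sqrt x = C * (Real.sqrt x)⁻¹ * (Real.sqrt x * Real.sqrt x) := by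
            field_simp
        _ = C * (Real.sqrt x)⁻¹ * x := by rw [hs2]
  have h := hψ.sub hd
  rw [sub_zero] at h
  refine h.congr fun x => ?_
  rw [← sub_div]
  congr 1
  ring

/-- `π(x; q, a) log x ~ x / φ(q)`.

PROOF. `θ(x; q, a) ≤ π(x; q, a) log x`, which gives the lower bound. For `0 < η < 1`,
`θ(x; q, a) ≥ (1 - η) log x (π(x; q, a) - x^{1-η})`, i.e.
`π(x; q, a) log x ≤ θ(x; q, a) / (1 - η) + x^{1-η} log x`, so
`limsup π(x; q, a) log x / x ≤ 1 / ((1 - η) φ(q))`; let `η → 0`. -/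
theorem tendsto_piAP (q : ℕ) [NeZero q] (a : ZMod q) (ha : IsUnit a) :
    Tendsto (fun x : ℝ =>
      (((Finset.Icc 1 ⌊x⌋₊).filter (fun p => p.Prime ∧ ((p : ℕ) : ZMod q) = a)).card : ℝ)
        * Real.log x / x) atTop (𝓝 (1 / (q.totient : ℝ))) := by
  have hθ := tendsto_thetaAP q a ha
  have hA0 : (0 : ℝ) ≤ 1 / (q.totient : ℝ) := by positivity
  refine tendsto_order.2 ⟨fun b hb => ?_, fun b hb => ?_⟩
  · filter_upwards [(tendsto_order.1 hθ).1 b hb, eventually_gt_atTop (1 : ℝ)] with x h1 h2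
    refine lt_of_lt_of_le h1 ?_
    exact div_le_div_of_nonneg_right (N10_count q a (1 / 2) x (by norm_num) (by norm_num) h2).1
      (by linarith)
  · have hb0 : 0 < b := lt_of_le_of_lt hA0 hb
    set A : ℝ := 1 / (q.totient : ℝ) with hAdef
    set η : ℝ := (b - A) / (2 * b) with hη
    have hη0 : 0 < η := div_pos (by linarith) (by linarith)
    have hη1 : η < 1 := by
      rw [hη, div_lt_one (by linarith)]
      linarith
    have hlog : Tendsto (fun x : ℝ => Real.log x / x ^ η) atTop (𝓝 0) :=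
      (isLittleO_log_rpow_atTop hη0).tendsto_div_nhds_zero
    have hR := (hθ.div_const (1 - η)).add hlog
    rw [add_zero] at hR
    have hAb : A / (1 - η) < b := by
      rw [div_lt_iff₀ (by linarith)]
      have e : b * (1 - η) = b - (b - A) / 2 := by
        rw [hη]
        field_simp
      rw [e]
      linarith
    filter_upwards [(tendsto_order.1 hR).2 b hAb, eventually_gt_atTop (1 : ℝ)] with x h1 h2
    refine lt_of_le_of_lt ?_ h1
    have hx0 : 0 < x := by linarith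
    rw [div_le_iff₀ hx0]
    refine (N10_count q a η x hη0 hη1 h2).2.trans (le_of_eq ?_)
    have e : x ^ (1 - η) = x / x ^ η := by
      rw [Real.rpow_sub hx0, Real.rpow_one]
    have hpx : x ^ η ≠ 0 := (Real.rpow_pos_of_pos hx0 _).ne'
    have h3 : 1 - η ≠ 0 := by linarith
    rw [e]
    field_simp

end Pool.Agent.Lib.MP_bae66e_nt.LL
end

section

/-!
# The prime number theorem in arithmetic progressions, fixed modulus

`tendsto_psiAP` is in `N09`, `tendsto_thetaAP` and `tendsto_piAP` are in `N10`.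
-/
end

section

/-!
# Rough numbers
-/

set_option autoImplicit false

namespace Pool.Agent.Lib.MP_bae66e_nt.AP3

open Finset

/-- all prime factors exceed `T` -/
def Rough (T n : ℕ) : Prop := ∀ p : ℕ, p.Prime → p ∣ n → T < p

open Classical in
/-- rough integers in `(0, t]` -/
noncomputable def rset (T t : ℕ) : Finset ℕ := (Ioc 0 t).filter (Rough T)

lemma mem_rset {T t n : ℕ} : n ∈ rset T t ↔ (0 < n ∧ n ≤ t) ∧ Rough T n := by
  simp [rset]

/-- squarefree rough integers in `(0, t]` -/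
noncomputable def dset (T t : ℕ) : Finset ℕ := (rset T t).filter Squarefree

lemma mem_dset {T t n : ℕ} :
    n ∈ dset T t ↔ ((0 < n ∧ n ≤ t) ∧ Rough T n) ∧ Squarefree n := by
  simp [dset, mem_rset]

lemma rough_one (T : ℕ) : Rough T 1 := by
  intro p hp h
  exact absurd (Nat.dvd_one.mp h) hp.one_lt.ne'

lemma Rough.dvd {T n d : ℕ} (h : Rough T n) (hd : d ∣ n) : Rough T d :=
  fun p hp hpd => h p hp (hpd.trans hd)

lemma Rough.mul {T m n : ℕ} (hm : Rough T m) (hn : Rough T n) : Rough T (m * n) := by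
  intro p hp hpd
  rcases (Nat.Prime.dvd_mul hp).mp hpd with h | h
  · exact hm p hp h
  · exact hn p hp h

lemma rough_iff (T n : ℕ) : Rough T n ↔ ∀ p ∈ prI 0 T, ¬ p ∣ n := by
  constructor
  · intro h p hp hpd
    have := mem_prI.mp hp
    have := h p this.2 hpd
    omega
  · intro h p hp hpd
    by_contra hlt
    exact h p (mem_prI.mpr ⟨⟨hp.pos, by omega⟩, hp⟩) hpd

/-- lower bound for the harmonic sum over rough integers -/
lemma sum_rset_ge (T t : ℕ) : KT T * Real.log (t + 1) ≤ ∑ n ∈ rset T t, 1 / (n : ℝ) := by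
  have h1 := prod_mul_harmonic_le (prI 0 T) (fun p hp => (mem_prI.mp hp).2) t
  have h2 : rset T t = {n ∈ Finset.Icc 1 t | ∀ p ∈ prI 0 T, ¬ p ∣ n} := by
    ext n
    rw [mem_rset, rough_iff, mem_filter, mem_Icc]
    constructor
    · rintro ⟨⟨h1, h2⟩, h3⟩; exact ⟨⟨h1, h2⟩, h3⟩
    · rintro ⟨⟨h1, h2⟩, h3⟩; exact ⟨⟨h1, h2⟩, h3⟩
  rw [h2]
  refine le_trans ?_ h1
  exact mul_le_mul_of_nonneg_left (sum_one_div_ge_log t) (KT_pos T).le

/-- upper bound by the Euler product -/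
lemma sum_rset_le_prod (T t : ℕ) :
    ∑ n ∈ rset T t, 1 / (n : ℝ) ≤ ∏ p ∈ prI T t, (1 - 1 / (p : ℝ))⁻¹ := by
  have hnorm : ∀ {p : ℕ}, p.Prime → ‖invHom p‖ < 1 := by
    intro p hp
    rw [invHom_apply, Real.norm_of_nonneg (by positivity)]
    have : (1 : ℝ) < p := by exact_mod_cast hp.one_lt
    rw [div_lt_one (by linarith)]
    exact this
  obtain ⟨_, hsum⟩ := EulerProduct.summable_and_hasSum_factoredNumbers_prod_filter_prime_geometric
    (f := invHom) hnorm (prI T t)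
  have hsum' := (hasSum_subtype_iff_indicator (f := fun n : ℕ => invHom n)).mp hsum
  rw [Finset.filter_true_of_mem (fun p hp => (mem_prI.mp hp).2)] at hsum'
  have h2 : ∑ n ∈ rset T t, 1 / (n : ℝ)
      = ∑ n ∈ rset T t,
        (Nat.factoredNumbers (prI T t)).indicator (fun n : ℕ => invHom n) n := by
    apply Finset.sum_congr rfl
    intro n hn
    have hn' := mem_rset.mp hn
    rw [Set.indicator_of_mem, invHom_apply]
    apply Nat.mem_factoredNumbers_of_primeFactors_subset (by omega)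
    intro p hp
    have hp' := Nat.mem_primeFactors.mp hp
    exact mem_prI.mpr ⟨⟨hn'.2 p hp'.1 hp'.2.1,
      (Nat.le_of_dvd hn'.1.1 hp'.2.1).trans hn'.1.2⟩, hp'.1⟩
  rw [h2]
  have h3 := sum_le_hasSum (rset T t) (fun i _ => Set.indicator_nonneg (fun x _ => by
    rw [invHom_apply]; positivity) i) hsum'
  simpa [invHom_apply] using h3

lemma prod_prI_split (T t : ℕ) (h : T ≤ t) :
    KT t = KT T * ∏ p ∈ prI T t, (1 - 1 / (p : ℝ)) := by
  unfold KT
  have : prI 0 t = prI 0 T ∪ prI T t := by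
    ext p
    rw [mem_union, mem_prI, mem_prI, mem_prI]
    constructor
    · rintro ⟨⟨h1, h2⟩, h3⟩
      rcases le_or_gt p T with h4 | h4
      · exact Or.inl ⟨⟨h1, h4⟩, h3⟩
      · exact Or.inr ⟨⟨h4, h2⟩, h3⟩
    · rintro (⟨⟨h1, h2⟩, h3⟩ | ⟨⟨h1, h2⟩, h3⟩)
      · exact ⟨⟨h1, h2.trans h⟩, h3⟩
      · exact ⟨⟨by omega, h2⟩, h3⟩
  rw [this, prod_union]
  rw [disjoint_left]
  intro p hp hp'
  have := mem_prI.mp hp
  have := mem_prI.mp hp'
  omega

lemma sum_rset_le (T t : ℕ) (h : T ≤ t) :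
    ∑ n ∈ rset T t, 1 / (n : ℝ) ≤ KT T / KT t := by
  refine (sum_rset_le_prod T t).trans ?_
  rw [prod_inv_distrib, prod_prI_split T t h]
  have h1 := KT_pos T
  have h2 : 0 < ∏ p ∈ prI T t, (1 - 1 / (p : ℝ)) :=
    prod_pos fun _ hp => one_sub_inv_pos (mem_prI.mp hp).2
  rw [div_mul_eq_div_div, div_self h1.ne', one_div]

/-- forbidden class `0` for every prime -/
def Om0 (ℓ : ℕ) : Finset ℕ := if ℓ.Prime then {0} else ∅

lemma xb_Om0 {p : ℕ} (hp : p.Prime) : xb Om0 p = 1 / (p : ℝ) := by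
  simp [xb, Om0, hp]

lemma xb_Om0_le (ℓ : ℕ) : xb Om0 ℓ ≤ 1 / 2 := by
  by_cases h : ℓ.Prime
  · rw [xb_Om0 h]
    exact div_le_div_of_nonneg_left (by norm_num) (by norm_num) (by exact_mod_cast h.two_le)
  · simp [xb, Om0, h]

lemma card_Om0_le (ℓ : ℕ) : #(Om0 ℓ) ≤ 2 := by
  unfold Om0; split_ifs <;> simp

/-- the fundamental lemma for rough integers -/
theorem exists_rough_count : ∃ L0 : ℝ, 1 ≤ L0 ∧ ∃ b0 : ℕ, ∀ b : ℕ, b0 ≤ b → ∃ T0 : ℕ, 2 ≤ T0 ∧
    ∀ T : ℕ, T0 ≤ T → ∀ t : ℕ, T ^ (2 * b + 7) ≤ t →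
    |(#(rset T t) : ℝ) - KT T * t| ≤ 2 * flEta L0 b * (KT T * t) := by
  obtain ⟨L0, hL01, b0, h⟩ := exists_fl
  obtain ⟨c, hc, hK⟩ := exists_KT_ge
  refine ⟨L0, hL01, b0, ?_⟩
  intro b hb
  obtain ⟨T0, hT02, hT0⟩ := h b hb
  have hη : 0 < flEta L0 b := by unfold flEta; positivity
  obtain ⟨T1, hT1⟩ : ∃ T1 : ℕ, ∀ T : ℕ, T1 ≤ T → 1 ≤ flEta L0 b * (KT T * (T : ℝ) ^ 2) := by
    refine ⟨max 2 ⌈1 / (flEta L0 b * c)⌉₊, ?_⟩
    intro T hT
    have hT2 : 2 ≤ T := (le_max_left _ _).trans hT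
    have hT3 : 1 / (flEta L0 b * c) ≤ T :=
      (Nat.le_ceil _).trans (by exact_mod_cast (le_max_right _ _).trans hT)
    have hlT : 0 < Real.log T := Real.log_pos (by exact_mod_cast hT2)
    have hT0' : (0 : ℝ) < T := by positivity
    have h1 := hK T hT2
    have h2 : Real.log T ≤ T := (Real.log_le_sub_one_of_pos hT0').trans (by linarith)
    have h3 : c ≤ KT T * T := by
      rw [div_le_iff₀ hlT] at h1
      exact h1.trans (mul_le_mul_of_nonneg_left h2 (KT_pos T).le)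
    rw [div_le_iff₀ (by positivity)] at hT3
    calc (1 : ℝ) ≤ T * (flEta L0 b * c) := hT3
      _ ≤ T * (flEta L0 b * (KT T * T)) := by gcongr
      _ = _ := by ring
  refine ⟨max T0 T1, le_max_of_le_left hT02, ?_⟩
  intro T hT t ht
  have hTT0 : T0 ≤ T := (le_max_left _ _).trans hT
  have hTT1 : T1 ≤ T := (le_max_right _ _).trans hT
  have hT2 : 2 ≤ T := hT02.trans hTT0
  have hfl := hT0 T hTT0 Om0 0 t (Nat.zero_le _) xb_Om0_le card_Om0_le (prI 0 T)
    (fun ℓ hℓ => ⟨(mem_prI.mp hℓ).2, (mem_prI.mp hℓ).1.2⟩)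
    (fun ℓ hℓ c hc => by
      have hp := (mem_prI.mp hℓ).2
      simp [Om0, hp] at hc
      rw [hc]; exact hp.pos)
    1 0 one_pos (fun ℓ _ => Nat.coprime_one_right ℓ)
  have e1 : cset Om0 0 t 1 0 ∅ (prI 0 T) = rset T t := by
    ext n
    rw [mem_rset, rough_iff]
    simp only [cset, mem_filter, mem_Ioc, notMem_empty, IsEmpty.forall_iff, implies_true,
      true_and]
    constructor
    · rintro ⟨h1, _, h3⟩
      refine ⟨h1, fun p hp hpd => ?_⟩
      have := h3 p hp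
      simp [Om0, (mem_prI.mp hp).2, Nat.mod_eq_zero_of_dvd hpd] at this
    · rintro ⟨h1, h3⟩
      refine ⟨h1, Nat.modEq_one, fun p hp => ?_⟩
      have := h3 p hp
      simp only [Om0, (mem_prI.mp hp).2, if_true, mem_singleton]
      intro h4
      exact this (Nat.dvd_of_mod_eq_zero h4)
  have e2 : ∏ ℓ ∈ prI 0 T, (1 - xb Om0 ℓ) = KT T := by
    unfold KT
    apply prod_congr rfl
    intro p hp
    rw [xb_Om0 (mem_prI.mp hp).2]
  rw [e1, e2] at hfl
  have e3 : ((t : ℝ) - ((0 : ℕ) : ℝ)) / ((1 : ℕ) : ℝ) * KT T = KT T * t := by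
    push_cast; ring
  rw [e3] at hfl
  refine hfl.trans ?_
  have h4 := hT1 T hTT1
  have h5 : ((T : ℝ)) ^ (2 * b + 7) ≤ t := by exact_mod_cast ht
  have h6 : (T : ℝ) ^ (2 * b + 5) ≤ flEta L0 b * (KT T * t) := by
    calc (T : ℝ) ^ (2 * b + 5) = 1 * (T : ℝ) ^ (2 * b + 5) := (one_mul _).symm
      _ ≤ flEta L0 b * (KT T * (T : ℝ) ^ 2) * (T : ℝ) ^ (2 * b + 5) :=
          mul_le_mul_of_nonneg_right h4 (by positivity)
      _ = flEta L0 b * (KT T * (T : ℝ) ^ (2 * b + 7)) := by ring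
      _ ≤ flEta L0 b * (KT T * t) := by
          have := (KT_pos T).le
          gcongr
  linarith

end Pool.Agent.Lib.MP_bae66e_nt.AP3
end

section

/-!
# Asymptotics for the sum of `1/φ(r)` over squarefree rough integers
-/

set_option autoImplicit false

namespace Pool.Agent.Lib.MP_bae66e_nt.AP3

open Finset Nat

/-- the sum of `1/φ(r)` over squarefree rough `r ≤ t` -/
noncomputable def HH (T t : ℕ) : ℝ := ∑ r ∈ dset T t, 1 / (φ r : ℝ)

lemma rset_mono (T : ℕ) {s t : ℕ} (h : s ≤ t) : rset T s ⊆ rset T t := by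
  intro n hn
  rw [mem_rset] at hn ⊢
  exact ⟨⟨hn.1.1, hn.1.2.trans h⟩, hn.2⟩

lemma sum_rset_mono (T : ℕ) {s t : ℕ} (h : s ≤ t) :
    ∑ n ∈ rset T s, 1 / (n : ℝ) ≤ ∑ n ∈ rset T t, 1 / (n : ℝ) :=
  sum_le_sum_of_subset_of_nonneg (rset_mono T h) fun _ _ _ => by positivity

/-- partial summation over rough integers in `(t0, t]` -/
lemma sum_rough_Ioc_le (T t0 t : ℕ) (κ : ℝ) (ht0 : 1 ≤ t0) (htt : t0 ≤ t) (hκ : 0 ≤ κ)
    (hcount : ∀ n : ℕ, t0 ≤ n → (#(rset T n) : ℝ) ≤ κ * n) :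
    ∑ n ∈ (rset T t).filter (fun n => t0 < n), 1 / (n : ℝ)
      ≤ κ * (1 + (Real.log t - Real.log t0)) := by
  set s := (rset T t).filter (fun n => t0 < n) with hs
  have ht0' : (0 : ℝ) < t0 := by exact_mod_cast ht0
  have htt' : (t0 : ℝ) ≤ t := by exact_mod_cast htt
  have ht' : (0 : ℝ) < t := lt_of_lt_of_le ht0' htt'
  have hcont : ContinuousOn (fun x : ℝ => -(x ^ 2)⁻¹) (Set.Icc (t0 : ℝ) t) := by
    apply ContinuousOn.neg
    apply ContinuousOn.inv₀ (by fun_prop)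
    intro x hx
    have h0 : 0 < x := lt_of_lt_of_le ht0' hx.1
    exact (pow_pos h0 2).ne'
  obtain ⟨hint, heq⟩ := abel_eq s (fun n => (n : ℝ)) (fun _ => (1 : ℝ)) t0 t htt'
    (fun n hn => by
      have h1 := mem_filter.mp hn
      have h2 := mem_rset.mp h1.1
      exact ⟨by exact_mod_cast h1.2.le, by exact_mod_cast h2.1.2⟩)
    (fun x => x⁻¹) (fun x => -(x ^ 2)⁻¹)
    (fun x hx => hasDerivAt_inv (lt_of_lt_of_le ht0' hx.1).ne') hcont
  have hcum : ∀ x ∈ Set.Icc (t0 : ℝ) t, cum s (fun n => (n : ℝ)) (fun _ => (1 : ℝ)) x ≤ κ * x := by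
    intro x hx
    have hx0 : 0 ≤ x := ht0'.le.trans hx.1
    have h1 : cum s (fun n => (n : ℝ)) (fun _ => (1 : ℝ)) x ≤ (#(rset T ⌊x⌋₊) : ℝ) := by
      unfold cum
      rw [sum_const, nsmul_eq_mul, mul_one]
      have : #(s.filter (fun i : ℕ => (i : ℝ) ≤ x)) ≤ #(rset T ⌊x⌋₊) := by
        apply card_le_card
        intro n hn
        have h1 := mem_filter.mp hn
        have h2 := mem_rset.mp (mem_filter.mp h1.1).1
        rw [mem_rset]
        exact ⟨⟨h2.1.1, Nat.le_floor h1.2⟩, h2.2⟩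
      exact_mod_cast this
    have h2 := hcount ⌊x⌋₊ (Nat.le_floor hx.1)
    have h3 : (⌊x⌋₊ : ℝ) ≤ x := Nat.floor_le hx0
    calc _ ≤ (#(rset T ⌊x⌋₊) : ℝ) := h1
      _ ≤ κ * ⌊x⌋₊ := h2
      _ ≤ κ * x := mul_le_mul_of_nonneg_left h3 hκ
  have e1 : ∑ n ∈ s, 1 / (n : ℝ) = ∑ n ∈ s, 1 * ((n : ℝ))⁻¹ := by
    apply sum_congr rfl
    intro n _; rw [one_mul, one_div]
  rw [e1, heq]
  have h4 : cum s (fun n => (n : ℝ)) (fun _ => (1 : ℝ)) t * (t : ℝ)⁻¹ ≤ κ := by
    have := hcum t ⟨htt', le_rfl⟩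
    rw [← div_eq_mul_inv, div_le_iff₀ ht']
    exact this
  have h5 : -∫ x in (t0 : ℝ)..t, -(x ^ 2)⁻¹ * cum s (fun n => (n : ℝ)) (fun _ => (1 : ℝ)) x
      ≤ κ * (Real.log t - Real.log t0) := by
    rw [← intervalIntegral.integral_neg]
    have h6 : ∫ x in (t0 : ℝ)..t, κ * x⁻¹ = κ * (Real.log t - Real.log t0) := by
      rw [intervalIntegral.integral_const_mul, integral_inv_of_pos ht0' ht',
        Real.log_div ht'.ne' ht0'.ne']
    rw [← h6]
    apply intervalIntegral.integral_mono_on htt' hint.neg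
    · apply ContinuousOn.intervalIntegrable
      rw [Set.uIcc_of_le htt']
      apply ContinuousOn.mul continuousOn_const
      apply ContinuousOn.inv₀ continuousOn_id
      intro x hx
      exact (lt_of_lt_of_le ht0' hx.1).ne'
    · intro x hx
      have h0 : 0 < x := lt_of_lt_of_le ht0' hx.1
      have h7 := hcum x hx
      have h8 : 0 ≤ (x ^ 2)⁻¹ := by positivity
      calc -(-(x ^ 2)⁻¹ * cum s (fun n => (n : ℝ)) (fun _ => (1 : ℝ)) x)
          = (x ^ 2)⁻¹ * cum s (fun n => (n : ℝ)) (fun _ => (1 : ℝ)) x := by ring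
        _ ≤ (x ^ 2)⁻¹ * (κ * x) := mul_le_mul_of_nonneg_left h7 h8
        _ = κ * x⁻¹ := by field_simp
  linarith

lemma sum_inv_sq_Ioc_le (T t : ℕ) (hT : 1 ≤ T) :
    ∑ p ∈ prI T t, 1 / (p : ℝ) ^ 2 ≤ 1 / (T : ℝ) := by
  rcases le_or_gt T t with h | h
  · have h1 := sum_Ioc_inv_sq_le_sub (α := ℝ) (k := T) (n := t) (by omega) h
    calc ∑ p ∈ prI T t, 1 / (p : ℝ) ^ 2 ≤ ∑ p ∈ Ioc T t, ((p : ℝ) ^ 2)⁻¹ := by
          simp only [one_div]
          exact sum_le_sum_of_subset_of_nonneg (filter_subset _ _) fun _ _ _ => by positivity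
      _ ≤ (T : ℝ)⁻¹ - (t : ℝ)⁻¹ := h1
      _ ≤ 1 / T := by
          have : (0 : ℝ) ≤ (t : ℝ)⁻¹ := by positivity
          rw [one_div]; linarith
  · have : prI T t = ∅ := by
      rw [eq_empty_iff_forall_notMem]
      intro p hp
      have := mem_prI.mp hp
      omega
    rw [this, sum_empty]
    positivity

/-- squarefree rough integers carry almost the full harmonic mass -/
lemma sum_dset_ge (T t : ℕ) (hT : 1 ≤ T) :
    (1 - 1 / (T : ℝ)) * ∑ n ∈ rset T t, 1 / (n : ℝ) ≤ ∑ n ∈ dset T t, 1 / (n : ℝ) := by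
  set L := ∑ n ∈ rset T t, 1 / (n : ℝ) with hL
  have hsplit : L = ∑ n ∈ dset T t, 1 / (n : ℝ)
      + ∑ n ∈ (rset T t).filter (fun n => ¬ Squarefree n), 1 / (n : ℝ) := by
    rw [hL, dset, sum_filter_add_sum_filter_not]
  have hL0 : 0 ≤ L := sum_nonneg fun _ _ => by positivity
  have h1 : ∑ n ∈ (rset T t).filter (fun n => ¬ Squarefree n), 1 / (n : ℝ)
      ≤ ∑ p ∈ prI T t, ∑ m ∈ rset T t, 1 / (p : ℝ) ^ 2 * (1 / (m : ℝ)) := by
    have hex : ∀ n ∈ (rset T t).filter (fun n => ¬ Squarefree n),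
        ∃ p : ℕ, p ∈ prI T t ∧ p * p ∣ n := by
      intro n hn
      have h1 := mem_filter.mp hn
      have h2 := mem_rset.mp h1.1
      have h3 := h1.2
      rw [Nat.squarefree_iff_prime_squarefree] at h3
      push Not at h3
      obtain ⟨p, hp, hpd⟩ := h3
      have hpn : p ∣ n := (Dvd.intro _ rfl).trans hpd
      exact ⟨p, mem_prI.mpr ⟨⟨h2.2 p hp hpn, (Nat.le_of_dvd h2.1.1 hpn).trans h2.1.2⟩, hp⟩, hpd⟩
    calc ∑ n ∈ (rset T t).filter (fun n => ¬ Squarefree n), 1 / (n : ℝ)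
        ≤ ∑ n ∈ (rset T t).filter (fun n => ¬ Squarefree n),
            ∑ p ∈ prI T t, if p * p ∣ n then 1 / (n : ℝ) else 0 := by
          apply sum_le_sum
          intro n hn
          obtain ⟨p, hp, hpd⟩ := hex n hn
          have := single_le_sum (f := fun p => if p * p ∣ n then 1 / (n : ℝ) else 0)
            (fun i _ => by split_ifs <;> positivity) hp
          simpa [hpd] using this
      _ = ∑ p ∈ prI T t, ∑ n ∈ (rset T t).filter (fun n => ¬ Squarefree n),
            if p * p ∣ n then 1 / (n : ℝ) else 0 := sum_comm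
      _ ≤ _ := by
          apply sum_le_sum
          intro p hp
          have hp' := (mem_prI.mp hp).2
          rw [← sum_filter]
          have hinj : Set.InjOn (fun n => n / (p * p))
              ((((rset T t).filter (fun n => ¬ Squarefree n)).filter (fun n => p * p ∣ n) :
                Finset ℕ) : Set ℕ) := by
            intro a ha b hb hab
            have ha' := (mem_filter.mp (mem_coe.mp ha)).2
            have hb' := (mem_filter.mp (mem_coe.mp hb)).2
            rw [← Nat.div_mul_cancel ha', ← Nat.div_mul_cancel hb']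
            simp only at hab
            rw [hab]
          have e : ∑ n ∈ ((rset T t).filter (fun n => ¬ Squarefree n)).filter (fun n => p * p ∣ n),
              1 / (n : ℝ) = ∑ n ∈ ((rset T t).filter (fun n => ¬ Squarefree n)).filter
                (fun n => p * p ∣ n), 1 / (p : ℝ) ^ 2 * (1 / ((n / (p * p) : ℕ) : ℝ)) := by
            apply sum_congr rfl
            intro n hn
            have hn' := (mem_filter.mp hn).2
            conv_lhs => rw [← Nat.div_mul_cancel hn']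
            push_cast
            rw [one_div_mul_one_div]
            congr 1; ring
          rw [e, ← sum_image (f := fun m : ℕ => 1 / (p : ℝ) ^ 2 * (1 / (m : ℝ))) hinj]
          apply sum_le_sum_of_subset_of_nonneg
          · intro m hm
            obtain ⟨n, hn, rfl⟩ := mem_image.mp hm
            have h1 := mem_filter.mp hn
            have h2 := mem_rset.mp (mem_filter.mp h1.1).1
            rw [mem_rset]
            refine ⟨⟨Nat.div_pos (Nat.le_of_dvd h2.1.1 h1.2) (Nat.mul_pos hp'.pos hp'.pos),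
              (Nat.div_le_self _ _).trans h2.1.2⟩, h2.2.dvd (Nat.div_dvd_of_dvd h1.2)⟩
          · intro m _ _; positivity
  have h2 : ∑ p ∈ prI T t, ∑ m ∈ rset T t, 1 / (p : ℝ) ^ 2 * (1 / (m : ℝ))
      ≤ 1 / T * L := by
    simp_rw [← mul_sum]
    rw [← sum_mul]
    exact mul_le_mul_of_nonneg_right (sum_inv_sq_Ioc_le T t hT) hL0
  linarith

lemma totient_ge (T M r : ℕ) (hT : 1 ≤ T) (hr : r ∈ dset T (T ^ M)) :
    (1 - M / (T : ℝ)) * r ≤ φ r := by
  have hr' := mem_dset.mp hr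
  have hr0 : r ≠ 0 := by omega
  have hT0 : (0 : ℝ) < T := by exact_mod_cast hT
  have h1 : (φ r : ℝ) = r * ∏ p ∈ r.primeFactors, (1 - ((p : ℝ))⁻¹) := by
    have h := Nat.totient_eq_mul_prod_factors r
    have h2 := congrArg (fun q : ℚ => (q : ℝ)) h
    push_cast at h2
    exact h2
  have hcard : #r.primeFactors ≤ M := by
    by_contra hlt
    push Not at hlt
    have h2 : T ^ (M + 1) ≤ T ^ #r.primeFactors := Nat.pow_le_pow_right (by omega) hlt
    have h3 : T ^ #r.primeFactors ≤ ∏ p ∈ r.primeFactors, p := by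
      rw [← prod_const]
      apply prod_le_prod'
      intro p hp
      exact (hr'.1.2 p (Nat.prime_of_mem_primeFactors hp) (Nat.dvd_of_mem_primeFactors hp)).le
    have h4 : (T + 1) ^ #r.primeFactors ≤ ∏ p ∈ r.primeFactors, p := by
      rw [← prod_const]
      apply prod_le_prod'
      intro p hp
      exact (hr'.1.2 p (Nat.prime_of_mem_primeFactors hp) (Nat.dvd_of_mem_primeFactors hp))
    have h5 : ∏ p ∈ r.primeFactors, p ≤ r := Nat.le_of_dvd hr'.1.1.1 (Nat.prod_primeFactors_dvd r)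
    have h6 : r ≤ T ^ M := hr'.1.1.2
    have h7 : (T + 1) ^ (M + 1) ≤ (T + 1) ^ #r.primeFactors :=
      Nat.pow_le_pow_right (by omega) hlt
    have h8 : T ^ M < (T + 1) ^ (M + 1) := by
      calc T ^ M ≤ (T + 1) ^ M := Nat.pow_le_pow_left (by omega) _
        _ < (T + 1) ^ (M + 1) := Nat.pow_lt_pow_right (by omega) (by omega)
    omega
  have h2 : (1 - M / (T : ℝ)) ≤ ∏ p ∈ r.primeFactors, (1 - ((p : ℝ))⁻¹) := by
    have hT1 : 0 ≤ 1 - 1 / (T : ℝ) := by
      rw [sub_nonneg, div_le_one hT0]; exact_mod_cast hT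
    calc (1 - M / (T : ℝ)) = 1 + M * (-(1 / (T : ℝ))) := by ring
      _ ≤ (1 + -(1 / (T : ℝ))) ^ M := by
          apply one_add_mul_le_pow
          have : 1 / (T : ℝ) ≤ 1 := by rw [div_le_one hT0]; exact_mod_cast hT
          linarith
      _ = (1 - 1 / (T : ℝ)) ^ M := by ring
      _ ≤ (1 - 1 / (T : ℝ)) ^ #r.primeFactors := by
          apply pow_le_pow_of_le_one hT1 _ hcard
          have : 0 ≤ 1 / (T : ℝ) := by positivity
          linarith
      _ = ∏ p ∈ r.primeFactors, (1 - 1 / (T : ℝ)) := by rw [prod_const]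
      _ ≤ _ := by
          apply prod_le_prod
          · intro _ _; exact hT1
          · intro p hp
            have h3 := hr'.1.2 p (Nat.prime_of_mem_primeFactors hp) (Nat.dvd_of_mem_primeFactors hp)
            have h4 : ((p : ℝ))⁻¹ ≤ 1 / T := by
              rw [inv_eq_one_div]
              apply one_div_le_one_div_of_le hT0
              exact_mod_cast h3.le
            linarith
  rw [h1, mul_comm]
  exact mul_le_mul_of_nonneg_left h2 (by positivity)

end Pool.Agent.Lib.MP_bae66e_nt.AP3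
end
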