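import Pool.Agent.Lib.MP_bae66e_nt.Mg.G075
import Pool.Agent.Lib.MP_bae66e_nt.Mg.G077

section

/-!
# Module J: definitions for the lower bound by Jensen's inequality
-/

set_option autoImplicit false

open Finset

namespace Pool.Agent.Lib.MP_bae66e_nt.LL

/-- The number of primes `≤ X` in the class `b` modulo `W`. -/
noncomputable def piC (X W : ℕ) (b : ℤ) : ℕ :=
  ((Finset.Ioc 0 X).filter (fun q : ℕ => q.Prime ∧ (q : ℤ) ≡ b [ZMOD (W : ℤ)])).card

/-- The mean over the even classes `a` modulo `W` of `exp(-t SS W (0, a))`. -/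
noncomputable def EE (W : ℕ) (t : ℝ) : ℝ :=
  2 / (W : ℝ) * ∑ a ∈ (Finset.range W).filter (fun a => Even a),
    Real.exp (-t * SS W (![0, (a : ℤ)] : Fin 2 → ℤ))

/-- The members of `(0, X]` in the class `a` modulo `W`. -/
noncomputable def clX (X W : ℕ) (a : ℤ) : Finset ℤ :=
  (Finset.Ioc (0 : ℤ) (X : ℤ)).filter (fun m => m ≡ a [ZMOD (W : ℤ)])

end Pool.Agent.Lib.MP_bae66e_nt.LL
end

section

/-!
# J02: the prime number theorem for all classes of a fixed modulus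
-/

set_option autoImplicit false

open Finset Filter Topology

namespace Pool.Agent.Lib.MP_bae66e_nt.LL

private lemma J02_piC_eq (X W : ℕ) (b : ℤ) :
    (piC X W b : ℝ) = (((Finset.Icc 1 ⌊(X : ℝ)⌋₊).filter
      (fun p => p.Prime ∧ ((p : ℕ) : ZMod W) = (b : ZMod W))).card : ℝ) := by
  unfold piC
  congr 2
  ext p
  rw [Nat.floor_natCast, Finset.mem_filter, Finset.mem_filter, Finset.mem_Ioc, Finset.mem_Icc]
  have : ((p : ℤ) ≡ b [ZMOD (W : ℤ)]) ↔ ((p : ℕ) : ZMod W) = (b : ZMod W) := by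
    rw [← ZMod.intCast_eq_intCast_iff]
    simp
  rw [this]
  constructor
  · rintro ⟨⟨h1, h2⟩, h3⟩
    exact ⟨⟨h1, h2⟩, h3⟩
  · rintro ⟨⟨h1, h2⟩, h3⟩
    exact ⟨⟨h1, h2⟩, h3⟩

private lemma J02_unit (W : ℕ) (b : ℤ) (hb : IsCoprime b (W : ℤ)) : IsUnit ((b : ZMod W)) := by
  rw [ZMod.coe_int_isUnit_iff_isCoprime]
  exact hb.symm

/-- For fixed `W ≥ 1` and `δ > 0`, for large `X` and all `b` coprime to `W`:
`π(X; W, b) ≤ (1 + δ) X / (φ(W) log X)`.

PROOF. `tendsto_piAP` for the finitely many units of `ZMod W`, along the natural numbers. -/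
theorem piC_le (W : ℕ) (hW : 1 ≤ W) (δ : ℝ) (hδ : 0 < δ) : ∃ X₀ : ℕ, ∀ X : ℕ, X₀ ≤ X → ∀ b : ℤ,
    IsCoprime b (W : ℤ) → (piC X W b : ℝ) ≤ (1 + δ) * (X / ((Nat.totient W : ℝ) * Real.log X)) := by
  have : NeZero W := ⟨by omega⟩
  have hphi : (0 : ℝ) < (Nat.totient W : ℝ) := by exact_mod_cast Nat.totient_pos.2 (by omega)
  have hlt : 1 / (Nat.totient W : ℝ) < (1 + δ) * (1 / (Nat.totient W : ℝ)) := by
    have : (0 : ℝ) < 1 / (Nat.totient W : ℝ) := by positivity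
    nlinarith
  have h1 : ∀ a : ZMod W, ∀ᶠ X : ℕ in atTop, IsUnit a →
      (((Finset.Icc 1 ⌊(X : ℝ)⌋₊).filter (fun p => p.Prime ∧ ((p : ℕ) : ZMod W) = a)).card : ℝ)
        * Real.log (X : ℝ) / (X : ℝ) < (1 + δ) * (1 / (Nat.totient W : ℝ)) := by
    intro a
    by_cases ha : IsUnit a
    · have := (tendsto_piAP W a ha).comp (tendsto_natCast_atTop_atTop (R := ℝ))
      filter_upwards [this.eventually (gt_mem_nhds hlt)] with X hX _
      exact hX
    · exact Filter.Eventually.of_forall (fun X h => absurd h ha)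
  have h2 := Filter.eventually_all.2 h1
  obtain ⟨X₀, hX₀⟩ := Filter.eventually_atTop.1 h2
  refine ⟨X₀ + 2, fun X hX b hb => ?_⟩
  have h3 := hX₀ X (by omega) (b : ZMod W) (J02_unit W b hb)
  rw [← J02_piC_eq] at h3
  have hX1 : (1 : ℝ) < X := by exact_mod_cast (by omega : 1 < X)
  have hlog : 0 < Real.log X := Real.log_pos hX1
  have hXpos : (0 : ℝ) < X := by linarith
  have h4 : (piC X W b : ℝ) * Real.log X < (1 + δ) * (1 / (Nat.totient W : ℝ)) * X := by
    rwa [div_lt_iff₀ hXpos] at h3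
  have h5 : (1 + δ) * (X / ((Nat.totient W : ℝ) * Real.log X))
      = (1 + δ) * (1 / (Nat.totient W : ℝ)) * X / Real.log X := by
    field_simp
  rw [h5, le_div_iff₀ hlog]
  exact h4.le

/-- The same lower bound: `π(X; W, b) ≥ (1 - δ) X / (φ(W) log X)`. -/
theorem le_piC (W : ℕ) (hW : 1 ≤ W) (δ : ℝ) (hδ : 0 < δ) : ∃ X₀ : ℕ, ∀ X : ℕ, X₀ ≤ X → ∀ b : ℤ,
    IsCoprime b (W : ℤ) → (1 - δ) * (X / ((Nat.totient W : ℝ) * Real.log X)) ≤ (piC X W b : ℝ) := by
  have : NeZero W := ⟨by omega⟩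
  have hphi : (0 : ℝ) < (Nat.totient W : ℝ) := by exact_mod_cast Nat.totient_pos.2 (by omega)
  have hlt : (1 - δ) * (1 / (Nat.totient W : ℝ)) < 1 / (Nat.totient W : ℝ) := by
    have : (0 : ℝ) < 1 / (Nat.totient W : ℝ) := by positivity
    nlinarith
  have h1 : ∀ a : ZMod W, ∀ᶠ X : ℕ in atTop, IsUnit a →
      (1 - δ) * (1 / (Nat.totient W : ℝ)) <
      (((Finset.Icc 1 ⌊(X : ℝ)⌋₊).filter (fun p => p.Prime ∧ ((p : ℕ) : ZMod W) = a)).card : ℝ)
        * Real.log (X : ℝ) / (X : ℝ) := by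
    intro a
    by_cases ha : IsUnit a
    · have := (tendsto_piAP W a ha).comp (tendsto_natCast_atTop_atTop (R := ℝ))
      filter_upwards [this.eventually (lt_mem_nhds hlt)] with X hX _
      exact hX
    · exact Filter.Eventually.of_forall (fun X h => absurd h ha)
  have h2 := Filter.eventually_all.2 h1
  obtain ⟨X₀, hX₀⟩ := Filter.eventually_atTop.1 h2
  refine ⟨X₀ + 2, fun X hX b hb => ?_⟩
  have h3 := hX₀ X (by omega) (b : ZMod W) (J02_unit W b hb)
  rw [← J02_piC_eq] at h3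
  have hX1 : (1 : ℝ) < X := by exact_mod_cast (by omega : 1 < X)
  have hlog : 0 < Real.log X := Real.log_pos hX1
  have hXpos : (0 : ℝ) < X := by linarith
  have h4 : (1 - δ) * (1 / (Nat.totient W : ℝ)) * X < (piC X W b : ℝ) * Real.log X := by
    rwa [lt_div_iff₀ hXpos] at h3
  have h5 : (1 - δ) * (X / ((Nat.totient W : ℝ) * Real.log X))
      = (1 - δ) * (1 / (Nat.totient W : ℝ)) * X / Real.log X := by
    field_simp
  rw [h5, div_le_iff₀ hlog]
  exact h4.le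

end Pool.Agent.Lib.MP_bae66e_nt.LL
end
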