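import Pool.Agent.Lib.MP_bae66e_nt.Mg.G001
import Pool.Agent.Lib.MP_bae66e_nt.Mg.G099
import Pool.Agent.Lib.MP_bae66e_nt.Mg.G002

section

/-!
# P1: primes in progressions in intervals `(A, exp (2L) A]`
-/

set_option autoImplicit false

namespace Pool.Agent.E3

open Finset Real Filter
open Pool.Agent.Lib.MP_bae66e_nt.AP3 (prI mem_prI)
open Pool.Agent.Lib.MP_bae66e_nt.LL (piC piC_le le_piC)

/-- PROOF. `piC n W b` counts the primes `q ∈ (0, n]` with `q ≡ b`, and `⌊A⌋ ≤ ⌊exp (2L) A⌋`. -/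
theorem card_AP_eq (W : ℕ) (b : ℤ) (m n : ℕ) (hmn : m ≤ n) :
    (#((prI m n).filter (fun q : ℕ => (q : ℤ) ≡ b [ZMOD (W : ℤ)])) : ℝ) = (piC n W b : ℝ) - piC m W b := by
  have h1 : #((prI m n).filter (fun q : ℕ => (q : ℤ) ≡ b [ZMOD (W : ℤ)])) + piC m W b = piC n W b := by
    unfold piC
    rw [← Finset.card_union_of_disjoint]
    · congr 1
      ext q
      simp only [Finset.mem_union, Finset.mem_filter, mem_prI, Finset.mem_Ioc]
      constructor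
      · rintro (⟨⟨⟨h1, h2⟩, h3⟩, h4⟩ | ⟨⟨h1, h2⟩, h3, h4⟩)
        · exact ⟨⟨by omega, h2⟩, h3, h4⟩
        · exact ⟨⟨h1, h2.trans hmn⟩, h3, h4⟩
      · rintro ⟨⟨h1, h2⟩, h3, h4⟩
        rcases Nat.lt_or_ge m q with h | h
        · exact Or.inl ⟨⟨⟨h, h2⟩, h3⟩, h4⟩
        · exact Or.inr ⟨⟨h1, h⟩, h3, h4⟩
    · rw [Finset.disjoint_left]
      intro q h1 h2
      have h3 := (mem_prI.mp (Finset.mem_filter.mp h1).1).1.1
      have h4 := (Finset.mem_Ioc.mp (Finset.mem_filter.mp h2).1).2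
      omega
  rw [← h1]
  push_cast
  ring

/-- PROOF. Let `δ = L/20`, `B = exp (2L) A ≥ (1 + 2L) A`, `A` large. By `le_piC` and `piC_le` (with `δ`, at `n = ⌊B⌋` and `m = ⌊A⌋`) and
`card_AP_eq` the number is `≥ (1/φ(W)) ((1 - δ) n/log n - (1 + δ) m/log m)`. For large `A`: `n ≥ B - 1 ≥ (1 + 2L - δ) A`,
`log n ≤ log A + 2 ≤ (1 + δ) log A`, `m ≤ A`, `log m ≥ log (A/2) ≥ (1 - δ) log A`. So it is `≥ (A/(φ(W) log A)) ((1 - δ)(1 + 2L - δ)/(1 + δ) - (1 + δ)/(1 - δ))` and the last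
factor is `≥ (1 - 2δ)(1 + 2L - δ) - (1 + 3δ) ≥ 2L - 10 δ ≥ L`. -/
theorem primes_AP_interval (W : ℕ) (hW : 1 ≤ W) (L : ℝ) (hL : 0 < L) (hL1 : L ≤ 1) : ∃ A₀ : ℝ, 2 ≤ A₀ ∧
    ∀ A : ℝ, A₀ ≤ A → ∀ b : ℤ, IsCoprime b (W : ℤ) →
      L * A / ((Nat.totient W : ℝ) * Real.log A)
        ≤ (#((prI ⌊A⌋₊ ⌊Real.exp (2 * L) * A⌋₊).filter (fun q : ℕ => (q : ℤ) ≡ b [ZMOD (W : ℤ)])) : ℝ) := by
  set δ := L / 20 with hδdef
  have hδ : 0 < δ := by positivity
  have hδ1 : δ ≤ 1 / 20 := by rw [hδdef]; linarith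
  obtain ⟨X1, hX1⟩ := le_piC W hW δ hδ
  obtain ⟨X2, hX2⟩ := piC_le W hW δ hδ
  refine ⟨Real.exp (2 / δ) + 1 / δ + X1 + X2 + 2, ?_, ?_⟩
  · have h1 := Real.exp_pos (2 / δ)
    have h2 : 0 < 1 / δ := by positivity
    have h3 : (0 : ℝ) ≤ X1 := Nat.cast_nonneg _
    have h4 : (0 : ℝ) ≤ X2 := Nat.cast_nonneg _
    linarith
  intro A hA b hb
  have h1 := Real.exp_pos (2 / δ)
  have h2 : 0 < 1 / δ := by positivity
  have h3 : (0 : ℝ) ≤ X1 := Nat.cast_nonneg _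
  have h4 : (0 : ℝ) ≤ X2 := Nat.cast_nonneg _
  have hA2 : 2 ≤ A := by linarith
  have hA0 : 0 < A := by linarith
  have hlA : 2 / δ ≤ Real.log A := by
    rw [← Real.log_exp (2 / δ)]
    exact Real.log_le_log h1 (by linarith)
  have hlA' : 2 ≤ δ * Real.log A := by
    rw [div_le_iff₀ hδ] at hlA
    linarith
  have hlA0 : 0 < Real.log A := lt_of_lt_of_le (by positivity) hlA
  have hδA : 1 ≤ δ * A := by
    have : 1 / δ ≤ A := by linarith
    rw [div_le_iff₀ hδ] at this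
    linarith
  set m := ⌊A⌋₊ with hm
  set n := ⌊Real.exp (2 * L) * A⌋₊ with hn
  have hmA : (m : ℝ) ≤ A := Nat.floor_le hA0.le
  have hmA' : A < m + 1 := Nat.lt_floor_add_one A
  have hB0 : 0 ≤ Real.exp (2 * L) * A := by positivity
  have hnB : (n : ℝ) ≤ Real.exp (2 * L) * A := Nat.floor_le hB0
  have hnB' : Real.exp (2 * L) * A < n + 1 := Nat.lt_floor_add_one _
  have hexp1 : 1 + 2 * L ≤ Real.exp (2 * L) := by
    have := Real.add_one_le_exp (2 * L)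
    linarith
  have hmn : m ≤ n := by
    apply Nat.floor_le_floor
    nlinarith
  have hmX1 : X1 ≤ m := by
    have : (X1 : ℝ) < m + 1 := by linarith
    have h5 : X1 < m + 1 := by exact_mod_cast this
    omega
  have hmX2 : X2 ≤ m := by
    have : (X2 : ℝ) < m + 1 := by linarith
    have h5 : X2 < m + 1 := by exact_mod_cast this
    omega
  rw [card_AP_eq W b m n hmn]
  have hlow := hX1 n (hmX1.trans hmn) b hb
  have hup := hX2 m hmX2 b hb
  have hphi : (0 : ℝ) < (Nat.totient W : ℝ) := by exact_mod_cast Nat.totient_pos.2 (by omega)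
  -- estimates for `n`
  have hn1 : (1 + 2 * L - δ) * A ≤ n := by nlinarith
  have hn2 : 1 < (n : ℝ) := by nlinarith
  have hlogn : Real.log n ≤ (1 + δ) * Real.log A := by
    have h5 : Real.log n ≤ Real.log (Real.exp (2 * L) * A) := Real.log_le_log (by linarith) hnB
    rw [Real.log_mul (Real.exp_pos _).ne' hA0.ne', Real.log_exp] at h5
    linarith
  have hlogn0 : 0 < Real.log n := Real.log_pos hn2
  -- estimates for `m`
  have hm1 : A / 2 ≤ m := by linarith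
  have hlogm : (1 - δ) * Real.log A ≤ Real.log m := by
    have h5 : Real.log (A / 2) ≤ Real.log m := Real.log_le_log (by positivity) hm1
    rw [Real.log_div hA0.ne' (by norm_num)] at h5
    have h6 := Real.log_two_lt_d9
    linarith
  have hlogm0 : 0 < (1 - δ) * Real.log A := mul_pos (by linarith) hlA0
  set T : ℝ := A / ((Nat.totient W : ℝ) * Real.log A) with hT
  have hT0 : 0 < T := by positivity
  have e1 : (1 - δ) * (1 + 2 * L - δ) / (1 + δ) * T ≤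
      (1 - δ) * ((n : ℝ) / ((Nat.totient W : ℝ) * Real.log n)) := by
    have h5 : (1 + 2 * L - δ) * A / ((Nat.totient W : ℝ) * ((1 + δ) * Real.log A)) ≤
        (n : ℝ) / ((Nat.totient W : ℝ) * Real.log n) := by
      apply div_le_div₀ (Nat.cast_nonneg _) hn1 (by positivity)
      exact mul_le_mul_of_nonneg_left hlogn hphi.le
    calc (1 - δ) * (1 + 2 * L - δ) / (1 + δ) * T
        = (1 - δ) * ((1 + 2 * L - δ) * A / ((Nat.totient W : ℝ) * ((1 + δ) * Real.log A))) := by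
          rw [hT]
          field_simp
      _ ≤ _ := mul_le_mul_of_nonneg_left h5 (by linarith)
  have e2 : (1 + δ) * ((m : ℝ) / ((Nat.totient W : ℝ) * Real.log m)) ≤ (1 + δ) / (1 - δ) * T := by
    have h5 : (m : ℝ) / ((Nat.totient W : ℝ) * Real.log m) ≤
        A / ((Nat.totient W : ℝ) * ((1 - δ) * Real.log A)) := by
      apply div_le_div₀ hA0.le hmA (by positivity)
      exact mul_le_mul_of_nonneg_left hlogm hphi.le
    have h7 : (1 - δ) ≠ 0 := by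
      have : 0 < 1 - δ := by linarith
      exact this.ne'
    calc (1 + δ) * ((m : ℝ) / ((Nat.totient W : ℝ) * Real.log m))
        ≤ (1 + δ) * (A / ((Nat.totient W : ℝ) * ((1 - δ) * Real.log A))) :=
          mul_le_mul_of_nonneg_left h5 (by linarith)
      _ = (1 + δ) / (1 - δ) * T := by
          rw [hT]
          field_simp
  have e3 : L ≤ (1 - δ) * (1 + 2 * L - δ) / (1 + δ) - (1 + δ) / (1 - δ) := by
    have h6 : (1 - 2 * δ) ≤ (1 - δ) / (1 + δ) := by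
      rw [le_div_iff₀ (by linarith)]
      nlinarith
    have h7 : (1 + δ) / (1 - δ) ≤ 1 + 3 * δ := by
      rw [div_le_iff₀ (by linarith)]
      nlinarith
    have h8 : (1 - δ) * (1 + 2 * L - δ) / (1 + δ) = (1 - δ) / (1 + δ) * (1 + 2 * L - δ) := by ring
    have h9 : (1 - 2 * δ) * (1 + 2 * L - δ) ≤ (1 - δ) / (1 + δ) * (1 + 2 * L - δ) :=
      mul_le_mul_of_nonneg_right h6 (by linarith)
    have hL20 : L = 20 * δ := by rw [hδdef]; ring
    rw [h8]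
    rw [hL20] at h9 ⊢
    nlinarith
  have e4 : L * T ≤ ((1 - δ) * (1 + 2 * L - δ) / (1 + δ) - (1 + δ) / (1 - δ)) * T :=
    mul_le_mul_of_nonneg_right e3 hT0.le
  have e5 : L * A / ((Nat.totient W : ℝ) * Real.log A) = L * T := by rw [hT]; ring
  rw [e5]
  have e6 : ((1 - δ) * (1 + 2 * L - δ) / (1 + δ) - (1 + δ) / (1 - δ)) * T =
      (1 - δ) * (1 + 2 * L - δ) / (1 + δ) * T - (1 + δ) / (1 - δ) * T := by ring
  linarith

end Pool.Agent.E3
end

section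

/-!
# P3: the sum over `s`
-/

set_option autoImplicit false

namespace Pool.Agent.E3

open Finset Real Filter
open Pool.Agent.Lib.MP_bae66e_nt.AP3 (prI mem_prI)

/-- PROOF. `primes_AP_interval` with `W = 1`, `L = (log 2)/2`, `A = R`: `exp (2L) R = 2R`, so `#(IS R) ≥ (log 2/2) R/log R`, and each `1/r ≥ 1/(2R)`; `log 2/4 ≥ 1/8`. -/
theorem recip_IS_ge : ∃ R₀ : ℕ, 2 ≤ R₀ ∧ ∀ R : ℕ, R₀ ≤ R → 1 / (8 * Real.log R) ≤ ∑ r ∈ IS R, 1 / (r : ℝ) := by
  have hl2 : (0 : ℝ) < Real.log 2 := Real.log_pos (by norm_num)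
  have hl2' : Real.log 2 ≤ 1 := by
    have := Real.log_two_lt_d9
    linarith
  obtain ⟨A₀, hA₀, h⟩ := primes_AP_interval 1 le_rfl (Real.log 2 / 2) (by linarith) (by linarith)
  refine ⟨max 2 ⌈A₀⌉₊, le_max_left _ _, fun R hR => ?_⟩
  have hR2 : 2 ≤ R := (le_max_left _ _).trans hR
  have hRA : A₀ ≤ (R : ℝ) := (Nat.le_ceil A₀).trans (by exact_mod_cast (le_max_right _ _).trans hR)
  have hR0 : (0 : ℝ) < R := by exact_mod_cast (by omega : 0 < R)
  have hlog : 0 < Real.log R := Real.log_pos (by exact_mod_cast (by omega : 1 < R))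
  have h1 := h R hRA 1 isCoprime_one_left
  have e1 : Real.exp (2 * (Real.log 2 / 2)) * (R : ℝ) = ((2 * R : ℕ) : ℝ) := by
    rw [mul_div_cancel₀ _ (two_ne_zero), Real.exp_log (by norm_num)]
    push_cast
    ring
  rw [e1, Nat.floor_natCast, Nat.floor_natCast] at h1
  have h2 : (#((prI R (2 * R)).filter (fun q : ℕ => (q : ℤ) ≡ 1 [ZMOD ((1 : ℕ) : ℤ)])) : ℝ)
      ≤ #(IS R) := by
    exact_mod_cast Finset.card_filter_le _ _
  have h3 : (#(IS R) : ℝ) * (1 / (2 * R)) ≤ ∑ r ∈ IS R, 1 / (r : ℝ) := by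
    rw [← nsmul_eq_mul]
    refine Finset.card_nsmul_le_sum _ _ _ fun r hr => ?_
    have h4 := mem_prI.mp hr
    have h5 : (r : ℝ) ≤ 2 * R := by exact_mod_cast h4.1.2
    have h6 : (0 : ℝ) < r := by exact_mod_cast h4.2.pos
    exact one_div_le_one_div_of_le h6 h5
  refine le_trans ?_ h3
  have h7 : Real.log 2 / 2 * R / Real.log R ≤ (#(IS R) : ℝ) := by
    refine le_trans (le_of_eq ?_) (h1.trans h2)
    rw [Nat.totient_one]
    norm_num
  calc 1 / (8 * Real.log R) ≤ Real.log 2 / 2 * R / Real.log R * (1 / (2 * R)) := by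
        have e : Real.log 2 / 2 * R / Real.log R * (1 / (2 * R)) = Real.log 2 / 4 / Real.log R := by
          field_simp
          norm_num
        rw [e, div_le_div_iff₀ (by positivity) hlog]
        have := Real.log_two_gt_d9
        nlinarith
    _ ≤ _ := mul_le_mul_of_nonneg_right h7 (by positivity)

/-- PROOF. `sum_SS` (`B2.lean`): `∑_{s ∈ SS} 1/s = (∑_{IS R₁} 1/r)(∑_{IS R₂} 1/r')`, and `recip_IS_ge` twice (`R₂ ≥ R₁ ≥ R₀`). -/
theorem recip_SS_ge : ∃ R₀ : ℕ, 2 ≤ R₀ ∧ ∀ R₁ R₂ : ℕ, R₀ ≤ R₁ → 2 * R₁ ≤ R₂ →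
    1 / (64 * (Real.log R₁ * Real.log R₂)) ≤ ∑ s ∈ SS R₁ R₂, 1 / (s : ℝ) := by
  obtain ⟨R₀, hR₀, h⟩ := recip_IS_ge
  refine ⟨R₀, hR₀, fun R₁ R₂ h1 h2 => ?_⟩
  have hl1 : 0 < Real.log R₁ := Real.log_pos (by exact_mod_cast (by omega : 1 < R₁))
  have hl2 : 0 < Real.log R₂ := Real.log_pos (by exact_mod_cast (by omega : 1 < R₂))
  rw [sum_SS R₁ R₂ h2 (fun s => 1 / (s : ℝ))]
  have e : ∑ r ∈ IS R₁, ∑ r' ∈ IS R₂, 1 / (((r * r' : ℕ) : ℕ) : ℝ) =
      (∑ r ∈ IS R₁, 1 / (r : ℝ)) * ∑ r' ∈ IS R₂, 1 / (r' : ℝ) := by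
    rw [Finset.sum_mul_sum]
    refine Finset.sum_congr rfl fun r _ => Finset.sum_congr rfl fun r' _ => ?_
    push_cast
    rw [one_div_mul_one_div]
  rw [e]
  have h3 := h R₁ h1
  have h4 := h R₂ (by omega)
  calc 1 / (64 * (Real.log R₁ * Real.log R₂)) = 1 / (8 * Real.log R₁) * (1 / (8 * Real.log R₂)) := by
        rw [one_div_mul_one_div]
        ring_nf
    _ ≤ _ := mul_le_mul h3 h4 (by positivity) (le_trans (by positivity) h3)

/-- PROOF. `s = r₁ r₂` with primes `r₁, r₂ > R₁ ≥ W ≥ 1`, which do not divide `W`; `R₁ R₂ ≤ s ≤ 4 R₁ R₂`. -/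
theorem SS_props (R₁ R₂ W s : ℕ) (hW : 1 ≤ W) (h1 : W ≤ R₁) (h2 : R₁ ≤ R₂) (hs : s ∈ SS R₁ R₂) :
    Nat.Coprime s W ∧ R₁ * R₂ ≤ s ∧ s ≤ 4 * (R₁ * R₂) ∧ 1 ≤ s := by
  unfold SS at hs
  rw [Finset.mem_image] at hs
  obtain ⟨r, hr, rfl⟩ := hs
  rw [Finset.mem_product] at hr
  have hr1 := mem_prI.mp hr.1
  have hr2 := mem_prI.mp hr.2
  have hc : ∀ p : ℕ, p.Prime → W < p → Nat.Coprime p W := fun p hp hlt =>
    (Nat.Prime.coprime_iff_not_dvd hp).mpr fun hd => by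
      have := Nat.le_of_dvd (by omega) hd
      omega
  have hm1 : R₁ * R₂ ≤ r.1 * r.2 := Nat.mul_le_mul (by omega) (by omega)
  have hm2 : r.1 * r.2 ≤ (2 * R₁) * (2 * R₂) := Nat.mul_le_mul hr1.1.2 hr2.1.2
  refine ⟨Nat.Coprime.mul_left (hc _ hr1.2 (by omega)) (hc _ hr2.2 (by omega)), hm1, ?_, ?_⟩
  · calc r.1 * r.2 ≤ (2 * R₁) * (2 * R₂) := hm2
      _ = 4 * (R₁ * R₂) := by ring
  · exact Nat.mul_pos hr1.2.pos hr2.2.pos

end Pool.Agent.E3
end
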