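import Pool.Agent.Lib.MP_bae66e_nt.Mg.G017
import Pool.Agent.Lib.MP_bae66e_nt.AC.Defs
import Pool.Agent.Lib.MP_bae66e_nt.Mg.G034
import Pool.Agent.Lib.MP_bae66e_nt.Mg.G006
import Pool.Agent.Lib.MP_bae66e_nt.Mg.G036

section

/-!
# Almost all even numbers are `p + r q` with `p`, `r` small: definitions

`m ∈ [M, 2M]`, `R = RJ a M = ⌊(log M)^a⌋`, `H = HJ a M = 2 R²`, `r = s ∈ IS R`, `q` of size `M / R`, `p = t ≤ H`.
-/

set_option autoImplicit false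

namespace Pool.Agent.Lib.MP_bae66e_nt.E2

open Finset MeasureTheory Real
open Pool.Agent.E3
open Pool.Agent.Lib.MP_bae66e_nt.LL (fP gW)
open Pool.Agent.Lib.MP_bae66e_nt.AC (Sg)

/-- `Y = X / R` -/
noncomputable def YR (R X : ℕ) : ℝ := (X : ℝ) / R

/-- `1 / (log R log X)` -/
noncomputable def FR (R X : ℕ) : ℝ := 1 / (Real.log R * Real.log X)

/-- the weighted indicator of the products `s q`, `s ∈ IS R` -/
noncomputable def fR (a : ℝ) (M n : ℕ) : ℝ := fS (IS (RJ a M)) (YR (RJ a M) M) M n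

/-- the expected size of the number of the `(s, q)` with `s ∈ IS R`, `m - s q ∈ (0, H]`: `H / (log R log M)` -/
noncomputable def GE (a : ℝ) (M : ℕ) : ℝ := HJ a M * FR (RJ a M) M

/-- the conditions on the parameters -/
structure PH (R X : ℕ) : Prop where
  X8 : 8 ≤ X
  R2 : 2 ≤ R
  Ylow : (X : ℝ) ^ (0.99 : ℝ) ≤ YR R X

/-- the Dirichlet polynomial of the products `r q` -/
noncomputable def PP {W : ℕ} (χ : DirichletCharacter ℂ W) (R X : ℕ) (t : ℝ) : ℂ :=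
  PR χ R t * PQ χ X (YR R X) t

/-- the window of width `d` of the products `s q`, twisted by `χ` -/
noncomputable def XX {W : ℕ} (χ : DirichletCharacter ℂ W) (R X : ℕ) (d x : ℝ) : ℂ :=
  ∑ s ∈ IS R, ∑ q ∈ QS X,
    ch χ (s * q) * ((om (YR R X) q / (s * q) * gsn d (x - Real.log (s * q)) : ℝ) : ℂ)

/-- the window of width `d` of the products `s q ≡ v` modulo `W` -/
noncomputable def XV (W v R X : ℕ) (d x : ℝ) : ℝ :=
  ∑ s ∈ IS R, ∑ q ∈ (QS X).filter (fun q => s * q ≡ v [MOD W]),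
    om (YR R X) q / (s * q) * gsn d (x - Real.log (s * q))

/-- lower bound for long Gaussian windows (fixed width `L`), with the constant `c₁` -/
def PAPE (c₁ : ℝ) : Prop := ∀ a : ℝ, 3 ≤ a → ∀ W : ℕ, 1 ≤ W →
  ∀ L : ℝ, 0 < L → L ≤ 1 → ∃ X₀ : ℕ, ∀ X : ℕ, X₀ ≤ X → ∀ v : ℕ, Nat.Coprime v W → ∀ x : ℝ,
    |x - Real.log X| ≤ 1 → c₁ * FR (RJ a X) X / Nat.totient W ≤ XV W v (RJ a X) X L x

/-- almost all short intervals contain many `n ≡ v` modulo `W` weighted by `f`, with the constant `c₀` -/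
def WINE (c₀ a : ℝ) : Prop := ∀ W : ℕ, 1 ≤ W → ∀ δ : ℝ, 0 < δ →
  ∃ M₀ : ℕ, ∀ M : ℕ, M₀ ≤ M → ∀ v : ℕ, Nat.Coprime v W →
    (#{m ∈ Icc M (2 * M) | ∑ n ∈ (Ico (m - HJ a M) m).filter (fun n => n ≡ v [MOD W]), fR a M n
        < c₀ * GE a M / Nat.totient W} : ℝ) ≤ δ * M

/-- the variance of the primes against the W-model, weighted by `f` -/
def VARE (a : ℝ) : Prop := ∀ η : ℝ, 0 < η → ∃ w₀ : ℕ, ∀ w : ℕ, w₀ ≤ w → ∃ M₀ : ℕ,
  ∀ M : ℕ, M₀ ≤ M →
    ∑ m ∈ Icc M (2 * M), (∑ t ∈ Icc 1 (HJ a M),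
        (fP (HJ a M) (t : ℤ) - gW (primorial w) (HJ a M) (t : ℤ)) * fR a M (m - t)) ^ 2
      ≤ η * M * (GE a M) ^ 2

/-- the lower bound for the first moment, with the constant `c₀` -/
def FIRE (c₀ a : ℝ) : Prop := ∀ δ : ℝ, 0 < δ → ∃ w₀ : ℕ, ∀ w : ℕ, w₀ ≤ w → ∃ M₀ : ℕ, ∀ M : ℕ, M₀ ≤ M →
  (#{m ∈ Icc M (2 * M) | Even m ∧ ∑ t ∈ Icc 1 (HJ a M), fP (HJ a M) (t : ℤ) * fR a M (m - t) <
    c₀ / 2 * Sg (primorial w) m * GE a M} : ℝ) ≤ δ * M

/-- the number of the `t ≤ H` with `m - t` equal to `s` times a prime, weighted by `fP` -/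
noncomputable def SE (a : ℝ) (M s m : ℕ) : ℝ :=
  ∑ t ∈ Icc 1 (HJ a M), fP (HJ a M) (t : ℤ) * (if s ∣ m - t ∧ ((m - t) / s).Prime then (1 : ℝ) else 0)

/-- `U = R / log R`, the size of `#(IS R)` -/
noncomputable def UE (a : ℝ) (M : ℕ) : ℝ := RJ a M / Real.log (RJ a M)

/-- `V = H / (R log M)`, the expected size of `SE` -/
noncomputable def VE (a : ℝ) (M : ℕ) : ℝ := HJ a M / (RJ a M * Real.log M)

/-- the upper bound for the second moment, with the constant `C` -/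
def SECE (C a : ℝ) : Prop := ∀ δ : ℝ, 0 < δ → ∃ w₀ : ℕ, ∀ w : ℕ, w₀ ≤ w → ∃ M₀ : ℕ, ∀ M : ℕ, M₀ ≤ M →
  (#{m ∈ Icc M (2 * M) | Even m ∧ C * (Sg (primorial w) m) ^ 2 * UE a M * (VE a M) ^ 2 <
    ∑ s ∈ IS (RJ a M), (SE a M s m) ^ 2} : ℝ) ≤ δ * M

/-- the `s ∈ IS R` such that `m - t` is `s` times a prime for many primes `t ≤ H` -/
noncomputable def GQE (a τ : ℝ) (M m : ℕ) : Finset ℕ :=
  {s ∈ IS (RJ a M) | τ * VE a M ≤ SE a M s m}

open Classical in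
/-- the number of the primes `p ≤ y` such that `m - p` is `r` times a prime -/
noncomputable def reps (m r : ℕ) (y : ℝ) : ℕ :=
  #{p ∈ Icc 1 ⌊y⌋₊ | p.Prime ∧ ∃ q : ℕ, q.Prime ∧ m = p + r * q}

/-- the primes `r ≤ z` such that `m - p` is `r` times a prime for at least `c π(z²) / (z log m)` primes `p ≤ z²` -/
noncomputable def goodR (c : ℝ) (m : ℕ) (z : ℝ) : Finset ℕ :=
  {r ∈ Icc 1 ⌊z⌋₊ | r.Prime ∧ c * ((Nat.primeCounting ⌊z ^ 2⌋₊ : ℝ) / (z * Real.log m)) ≤ reps m r (z ^ 2)}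

end Pool.Agent.Lib.MP_bae66e_nt.E2
end

section

/-!
# The Hardy-Littlewood formula for almost all `m = p + r q`: definitions

`m ∈ [X, 2X]`, `R` between `(log X)^(a - 1/2)` and `(log X)^(a + 1/2)`, `H = 2 R²`, `r = s ∈ IS R` with
the weight `α(s) ∈ [0, 1]`, `q` of size `X / R`, `p = t ≤ H`. Everything is uniform in `R` and `α`.
-/

set_option autoImplicit false

namespace Pool.Agent.Lib.MP_bae66e_nt.EF

open Finset MeasureTheory Real
open Pool.Agent.E3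
open Pool.Agent.Lib.MP_bae66e_nt.E2 (YR FR PH)
open Pool.Agent.Lib.MP_bae66e_nt.LL (fP gW)
open Pool.Agent.Lib.MP_bae66e_nt.AC (Sg VV)

/-- the range of `R` -/
structure PX (a : ℝ) (R X : ℕ) : Prop where
  lo : (Real.log X) ^ (a - 1 / 2) ≤ R
  up : (R : ℝ) ≤ (Real.log X) ^ (a + 1 / 2)

/-- the weights are between `0` and `1` -/
def Wt (α : ℕ → ℝ) : Prop := ∀ s, 0 ≤ α s ∧ α s ≤ 1

/-- `H = 2 R²` -/
def HR (R : ℕ) : ℕ := 2 * R ^ 2

/-- the weighted number of the representations `n = s q` -/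
noncomputable def fA (α : ℕ → ℝ) (R X n : ℕ) : ℝ :=
  ∑ s ∈ IS R, ∑ q ∈ QS X, if s * q = n then α s * om (YR R X) q else 0

/-- the coefficients `α(n) χ(n)` -/
noncomputable def gA {W : ℕ} (χ : DirichletCharacter ℂ W) (α : ℕ → ℝ) (n : ℕ) : ℂ := (α n : ℂ) * ch χ n

/-- the Dirichlet polynomial of the products `s q` with the weights `α(s)` -/
noncomputable def PPA {W : ℕ} (χ : DirichletCharacter ℂ W) (α : ℕ → ℝ) (R X : ℕ) (t : ℝ) : ℂ :=
  DP (gA χ α) (IS R) t * PQ χ X (YR R X) t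

/-- the window of width `d` of the products `s q`, twisted by `χ` -/
noncomputable def XXA {W : ℕ} (χ : DirichletCharacter ℂ W) (α : ℕ → ℝ) (R X : ℕ) (d x : ℝ) : ℂ :=
  ∑ s ∈ IS R, ∑ q ∈ QS X, (α s : ℂ) * (ch χ (s * q) *
    ((om (YR R X) q / (s * q) * gsn d (x - Real.log (s * q)) : ℝ) : ℂ))

/-- the window of width `d` of the products `s q ≡ v` modulo `W` -/
noncomputable def XVA (α : ℕ → ℝ) (W v R X : ℕ) (d x : ℝ) : ℝ :=
  ∑ s ∈ IS R, ∑ q ∈ (QS X).filter (fun q => s * q ≡ v [MOD W]),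
    α s * (om (YR R X) q / (s * q) * gsn d (x - Real.log (s * q)))

/-- the limit of the windows at `x`, up to the factor `√(2π)/(φ(W) log X)` -/
noncomputable def AA (α : ℕ → ℝ) (R X : ℕ) (x : ℝ) : ℝ :=
  ∑ s ∈ IS R, α s / s * Real.exp (-(x - Real.log s - Real.log (YR R X)) ^ 2)

/-- the Dirichlet polynomial of `g(r) r^(-1-it)`, times that of the primes `q`, is small in mean square off the
real axis, uniformly in the coefficients `g` of modulus at most `1` -/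
def COREG (a : ℝ) : Prop := ∀ W : ℕ, 1 ≤ W → ∀ δ : ℝ, 0 < δ →
  ∃ T₀ : ℝ, 1 ≤ T₀ ∧ ∃ X₀ : ℕ, ∀ X : ℕ, X₀ ≤ X → ∀ (g : ℕ → ℂ) (χ : DirichletCharacter ℂ W),
  (∀ n, ‖g n‖ ≤ 1) → ∀ R : ℕ, (Real.log X) ^ a ≤ R → (R : ℝ) ≤ (Real.log X) ^ (a + 1) →
  ∀ Y Δ : ℝ, (X : ℝ) ^ (0.99 : ℝ) ≤ Y → Y ≤ X → 0 < Δ → Δ ≤ (X : ℝ) ^ (-(1 / 2) : ℝ) →
    1 ≤ Δ * Y → Real.log X ≤ Δ * X →
    ∫ t in {t : ℝ | T₀ ≤ |t|}, Real.exp (-(Δ * t) ^ 2) * ‖DP g (IS R) t * PQ χ X Y t‖ ^ 2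
      ≤ δ * (1 / (Real.log R * Real.log X)) ^ 2

/-- the asymptotic formula for long windows -/
def LONGA (a : ℝ) : Prop := ∀ W : ℕ, 1 ≤ W → ∀ ε : ℝ, 0 < ε → ∃ L₀ : ℝ, 0 < L₀ ∧ ∀ L : ℝ, 0 < L → L ≤ L₀ →
  ∃ X₀ : ℕ, ∀ X : ℕ, X₀ ≤ X → ∀ R : ℕ, PX a R X → ∀ α : ℕ → ℝ, Wt α → ∀ v : ℕ, Nat.Coprime v W →
  ∀ x : ℝ, |x - Real.log X| ≤ 1 →
    |XVA α W v R X L x - Real.sqrt (2 * π) / (Nat.totient W * Real.log X) * AA α R X x|
      ≤ ε * FR R X / Nat.totient W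

/-- the asymptotic formula in almost all short intervals -/
def WINF (a : ℝ) : Prop := ∀ W : ℕ, 1 ≤ W → ∀ ε δ : ℝ, 0 < ε → 0 < δ →
  ∃ X₀ : ℕ, ∀ X : ℕ, X₀ ≤ X → ∀ R : ℕ, PX a R X → ∀ α : ℕ → ℝ, Wt α → ∀ v : ℕ, Nat.Coprime v W →
    (#{m ∈ Icc X (2 * X) | ε * (HR R * FR R X) / Nat.totient W <
      |∑ n ∈ (Ico (m - HR R) m).filter (fun n => n ≡ v [MOD W]), fA α R X n
        - HR R / (Nat.totient W * Real.log X) * AA α R X (Real.log m)|} : ℝ) ≤ δ * X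

/-- the variance of the primes against the W-model, weighted by `fA` -/
def VAREG (a : ℝ) : Prop := ∀ η : ℝ, 0 < η → ∃ w₀ : ℕ, ∀ w : ℕ, w₀ ≤ w → ∃ X₀ : ℕ,
  ∀ X : ℕ, X₀ ≤ X → ∀ R : ℕ, PX a R X → ∀ α : ℕ → ℝ, Wt α →
    ∑ m ∈ Icc X (2 * X), (∑ t ∈ Icc 1 (HR R),
        (fP (HR R) (t : ℤ) - gW (primorial w) (HR R) (t : ℤ)) * fA α R X (m - t)) ^ 2
      ≤ η * X * (HR R * FR R X) ^ 2

/-- the asymptotic formula for the first moment -/
def FIRF (a : ℝ) : Prop := ∀ ε δ : ℝ, 0 < ε → 0 < δ → ∃ w₀ : ℕ, ∀ w : ℕ, w₀ ≤ w → ∃ X₀ : ℕ,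
  ∀ X : ℕ, X₀ ≤ X → ∀ R : ℕ, PX a R X → ∀ α : ℕ → ℝ, Wt α →
    (#{m ∈ Icc X (2 * X) | Even m ∧ ε * (Sg (primorial w) m * (HR R * FR R X)) <
      |∑ t ∈ Icc 1 (HR R), fP (HR R) (t : ℤ) * fA α R X (m - t)
        - Sg (primorial w) m * (HR R / Real.log X * AA α R X (Real.log m))|} : ℝ) ≤ δ * X

/-- the weighted number of the representations `m = t + s q`, `t ≤ 2 R²` -/
noncomputable def cnt (α : ℕ → ℝ) (R m : ℕ) : ℝ :=
  ∑ s ∈ IS R, α s * (#{t ∈ Icc 1 (HR R) | t.Prime ∧ s ∣ m - t ∧ ((m - t) / s).Prime} : ℝ)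

/-- the asymptotic formula for the number of representations -/
def COUNTA (a : ℝ) : Prop := ∀ ε : ℝ, 0 < ε → ∃ κ : ℝ, 0 < κ ∧ κ ≤ 1 ∧ ∀ δ : ℝ, 0 < δ → ∃ w₀ : ℕ,
  ∀ w : ℕ, w₀ ≤ w → ∃ X₀ : ℕ, ∀ X : ℕ, X₀ ≤ X → ∀ R : ℕ, PX a R X → ∀ α : ℕ → ℝ, Wt α →
    (#{m ∈ Icc X (2 * X) | Even m ∧ ((m : ℕ) : ℝ) ≤ (1 + κ) * X ∧
      ε * (Sg (primorial w) m * (HR R / (Real.log (HR R) * Real.log X * Real.log R))) <
        |cnt α R m - Sg (primorial w) m * (HR R / (Real.log (HR R) * Real.log X)) *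
          ∑ s ∈ IS R, α s / s|} : ℝ) ≤ δ * X

/-- the singular series is almost its part at the primes `≤ w` for almost all `m` -/
def SINGA : Prop := ∀ ε δ : ℝ, 0 < ε → 0 < δ → ∃ w₀ : ℕ, ∀ w : ℕ, w₀ ≤ w → ∀ N : ℕ,
  (#{m ∈ Icc 1 N | Even m ∧ ε * Pool.Agent.MG.sing m < |Sg (primorial w) m - Pool.Agent.MG.sing m|} : ℝ) ≤ δ * N

/-- the Hardy-Littlewood formula for almost all even `m ≤ N` -/
def FINF (a : ℝ) : Prop := ∀ ε δ : ℝ, 0 < ε → 0 < δ → ∃ N₀ : ℕ, ∀ N : ℕ, N₀ ≤ N → ∀ α : ℕ → ℝ, Wt α →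
  ∀ R : ℕ, R = ⌊(Real.log N) ^ a⌋₊ →
    (#{m ∈ Icc 1 N | Even m ∧
      ε * (Pool.Agent.MG.sing m * (Nat.primeCounting (HR R) / (Real.log N * Real.log R))) <
        |cnt α R m - Pool.Agent.MG.sing m * (Nat.primeCounting (HR R) / Real.log N) *
          ∑ s ∈ IS R, α s / s|} : ℝ) ≤ δ * N

end Pool.Agent.Lib.MP_bae66e_nt.EF
end

section

/-!
# Row P2: the Gaussian integral
-/

set_option autoImplicit false

namespace Pool.Agent.Lib.MP_bae66e_nt.EF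

open Finset MeasureTheory Real
open Pool.Agent.E3
open Pool.Agent.Lib.MP_bae66e_nt.E2 (YR FR PH)
open Pool.Agent.Lib.MP_bae66e_nt.LL (fP gW)
open Pool.Agent.Lib.MP_bae66e_nt.AC (Sg VV)
open Pool.Agent.Lib.MP_bae66e_nt.AP3 (prI mem_prI)

/-- the product of the two Gaussians -/
noncomputable def gg (L x y u : ℝ) : ℝ := Real.exp (-(u - y) ^ 2) * gsn L (x - u)

theorem gsn_nn (L v : ℝ) (hL : 0 < L) : 0 ≤ gsn L v := by
  unfold gsn; positivity

theorem gsn_cont (L : ℝ) : Continuous (gsn L) := by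
  unfold gsn; fun_prop

theorem gsn_even (L v : ℝ) : gsn L (-v) = gsn L v := by
  unfold gsn; rw [neg_sq]

theorem gsn_le (L v : ℝ) (hL : 0 < L) : gsn L v ≤ 1 / L := by
  unfold gsn
  have h1 : Real.exp (-(v ^ 2 / (2 * L ^ 2))) ≤ 1 := by
    rw [Real.exp_le_one_iff]
    have : 0 ≤ v ^ 2 / (2 * L ^ 2) := by positivity
    linarith
  have h2 : 0 < 1 / L := by positivity
  nlinarith

/-- `exp (- v²)` is Lipschitz with the constant `1` -/
theorem exp_sq_lip (a b : ℝ) : |Real.exp (-a ^ 2) - Real.exp (-b ^ 2)| ≤ |a - b| := by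
  have hd : ∀ x : ℝ, HasDerivAt (fun t : ℝ => Real.exp (-t ^ 2)) (Real.exp (-x ^ 2) * (-(2 * x))) x := by
    intro x
    have h1 : HasDerivAt (fun t : ℝ => -t ^ 2) (-(2 * x)) x := by
      have := (hasDerivAt_pow 2 x).fun_neg
      simpa using this
    exact h1.exp
  have hb : ∀ x : ℝ, ‖Real.exp (-x ^ 2) * (-(2 * x))‖ ≤ 1 := by
    intro x
    rw [Real.norm_eq_abs, abs_mul, abs_neg, abs_of_pos (Real.exp_pos _), Real.exp_neg]
    have h1 : x ^ 2 + 1 ≤ Real.exp (x ^ 2) := Real.add_one_le_exp _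
    have h2 : |2 * x| ≤ x ^ 2 + 1 := by
      rw [abs_le]
      constructor <;> nlinarith [sq_nonneg (x - 1), sq_nonneg (x + 1)]
    rw [inv_mul_le_iff₀ (Real.exp_pos _)]
    linarith
  have h := Convex.norm_image_sub_le_of_norm_hasDerivWithin_le (s := Set.univ)
    (f := fun t : ℝ => Real.exp (-t ^ 2)) (f' := fun x => Real.exp (-x ^ 2) * (-(2 * x))) (C := 1)
    (fun x _ => (hd x).hasDerivWithinAt) (fun x _ => hb x) convex_univ (Set.mem_univ b) (Set.mem_univ a)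
  simpa [Real.norm_eq_abs] using h

/-- PROOF. `0 ≤ gg ≤ gsn L (x - u) ≤ 1/L`. -/
theorem gg_bd (L x y u : ℝ) (hL : 0 < L) : 0 ≤ gg L x y u ∧ gg L x y u ≤ gsn L (x - u) ∧ gg L x y u ≤ 1 / L := by
  have h1 : Real.exp (-(u - y) ^ 2) ≤ 1 := by
    rw [Real.exp_le_one_iff]
    have := sq_nonneg (u - y)
    linarith
  have h2 := gsn_nn L (x - u) hL
  have h3 := gsn_le L (x - u) hL
  have h4 := Real.exp_pos (-(u - y) ^ 2)
  unfold gg
  refine ⟨by positivity, ?_, ?_⟩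
  · nlinarith
  · nlinarith

private theorem P2_gsn_lip (L v v' : ℝ) (hL : 0 < L) : |gsn L v - gsn L v'| ≤ 1 / L ^ 2 * |v - v'| := by
  have h2 : (0 : ℝ) < Real.sqrt 2 := Real.sqrt_pos.2 (by norm_num)
  have h3 : (Real.sqrt 2) ^ 2 = 2 := Real.sq_sqrt (by norm_num)
  have h21 : (1 : ℝ) ≤ Real.sqrt 2 := by rw [Real.one_le_sqrt]; norm_num
  have e : ∀ w : ℝ, gsn L w = 1 / L * Real.exp (-(w / (Real.sqrt 2 * L)) ^ 2) := by
    intro w
    unfold gsn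
    rw [div_pow, mul_pow, h3]
  rw [e, e, ← mul_sub, abs_mul, abs_of_pos (by positivity : 0 < 1 / L)]
  have h4 := exp_sq_lip (v / (Real.sqrt 2 * L)) (v' / (Real.sqrt 2 * L))
  have h5 : v / (Real.sqrt 2 * L) - v' / (Real.sqrt 2 * L) = (v - v') / (Real.sqrt 2 * L) := by ring
  rw [h5, abs_div, abs_of_pos (by positivity : 0 < Real.sqrt 2 * L)] at h4
  have h6 : |v - v'| / (Real.sqrt 2 * L) ≤ |v - v'| / L := by
    apply div_le_div_of_nonneg_left (abs_nonneg _) hL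
    nlinarith
  calc 1 / L * |Real.exp (-(v / (Real.sqrt 2 * L)) ^ 2) - Real.exp (-(v' / (Real.sqrt 2 * L)) ^ 2)|
      ≤ 1 / L * (|v - v'| / L) := mul_le_mul_of_nonneg_left (h4.trans h6) (by positivity)
    _ = 1 / L ^ 2 * |v - v'| := by field_simp

/-- PROOF. The functions `exp (- v²)` and `v ↦ L gsn L v = exp (- v²/(2L²))` are Lipschitz with the constants `1` and `1/L`, and both are at most `1`. -/
theorem gg_lip (L x y u u' : ℝ) (hL : 0 < L) (hL1 : L ≤ 1) : |gg L x y u - gg L x y u'| ≤ 2 / L ^ 2 * |u - u'| := by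
  unfold gg
  have h1 := exp_sq_lip (u - y) (u' - y)
  rw [show u - y - (u' - y) = u - u' by ring] at h1
  have h2 := P2_gsn_lip L (x - u) (x - u') hL
  rw [show x - u - (x - u') = -(u - u') by ring, abs_neg] at h2
  have h3 := gsn_nn L (x - u) hL
  have h4 := gsn_le L (x - u) hL
  have h5 : Real.exp (-(u' - y) ^ 2) ≤ 1 := by
    rw [Real.exp_le_one_iff]
    have := sq_nonneg (u' - y)
    linarith
  have h6 := Real.exp_pos (-(u' - y) ^ 2)
  have e : Real.exp (-(u - y) ^ 2) * gsn L (x - u) - Real.exp (-(u' - y) ^ 2) * gsn L (x - u') =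
      (Real.exp (-(u - y) ^ 2) - Real.exp (-(u' - y) ^ 2)) * gsn L (x - u) +
        Real.exp (-(u' - y) ^ 2) * (gsn L (x - u) - gsn L (x - u')) := by ring
  rw [e]
  refine (abs_add_le _ _).trans ?_
  rw [abs_mul, abs_mul, abs_of_nonneg h3, abs_of_pos h6]
  have h7 : |Real.exp (-(u - y) ^ 2) - Real.exp (-(u' - y) ^ 2)| * gsn L (x - u) ≤ |u - u'| * (1 / L) :=
    mul_le_mul h1 h4 h3 (abs_nonneg _)
  have h8 : Real.exp (-(u' - y) ^ 2) * |gsn L (x - u) - gsn L (x - u')| ≤ 1 * (1 / L ^ 2 * |u - u'|) :=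
    mul_le_mul h5 h2 (abs_nonneg _) zero_le_one
  have h9 : 1 / L ≤ 1 / L ^ 2 := by
    apply one_div_le_one_div_of_le (by positivity)
    nlinarith
  have h10 := mul_le_mul_of_nonneg_left h9 (abs_nonneg (u - u'))
  calc _ ≤ |u - u'| * (1 / L) + 1 * (1 / L ^ 2 * |u - u'|) := add_le_add h7 h8
    _ ≤ |u - u'| * (1 / L ^ 2) + 1 * (1 / L ^ 2 * |u - u'|) := by linarith
    _ = 2 / L ^ 2 * |u - u'| := by ring

/-- PROOF. For `|v| ≥ K L`: `gsn L v ≤ exp (- K²/4) √2 gsn (√2 L) v`. -/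
theorem gsn_tail (L K v : ℝ) (hL : 0 < L) (hK : 0 ≤ K) (hv : K * L ≤ |v|) :
    gsn L v ≤ Real.exp (-(K ^ 2 / 4)) * (Real.sqrt 2 * gsn (Real.sqrt 2 * L) v) := by
  unfold gsn
  have h2 : (0 : ℝ) < Real.sqrt 2 := Real.sqrt_pos.2 (by norm_num)
  have h3 : (Real.sqrt 2) ^ 2 = 2 := Real.sq_sqrt (by norm_num)
  have h4 : Real.sqrt 2 * (1 / (Real.sqrt 2 * L) * Real.exp (-(v ^ 2 / (2 * (Real.sqrt 2 * L) ^ 2))))
      = 1 / L * Real.exp (-(v ^ 2 / (4 * L ^ 2))) := by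
    rw [mul_pow, h3, ← mul_assoc]
    congr 1
    · field_simp
    · congr 3
      ring
  rw [h4]
  have h5 : Real.exp (-(v ^ 2 / (2 * L ^ 2))) = Real.exp (-(v ^ 2 / (4 * L ^ 2))) *
      Real.exp (-(v ^ 2 / (4 * L ^ 2))) := by
    rw [← Real.exp_add]
    congr 1
    field_simp
    ring
  have h6 : K ^ 2 / 4 ≤ v ^ 2 / (4 * L ^ 2) := by
    rw [div_le_div_iff₀ (by norm_num) (by positivity)]
    have h7 : (K * L) ^ 2 ≤ v ^ 2 := by
      rw [← sq_abs v]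
      exact pow_le_pow_left₀ (by positivity) hv 2
    nlinarith
  have h8 : Real.exp (-(v ^ 2 / (4 * L ^ 2))) ≤ Real.exp (-(K ^ 2 / 4)) :=
    Real.exp_le_exp.2 (by linarith)
  rw [h5]
  have h9 : 0 ≤ 1 / L * Real.exp (-(v ^ 2 / (4 * L ^ 2))) := by positivity
  calc 1 / L * (Real.exp (-(v ^ 2 / (4 * L ^ 2))) * Real.exp (-(v ^ 2 / (4 * L ^ 2))))
      = Real.exp (-(v ^ 2 / (4 * L ^ 2))) * (1 / L * Real.exp (-(v ^ 2 / (4 * L ^ 2)))) := by ring
    _ ≤ Real.exp (-(K ^ 2 / 4)) * (1 / L * Real.exp (-(v ^ 2 / (4 * L ^ 2)))) :=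
        mul_le_mul_of_nonneg_right h8 h9

/-- the integral of `gsn L (x - u)` over `u` -/
theorem gsn_integral' (L x : ℝ) (hL : 0 < L) :
    Integrable (fun u : ℝ => gsn L (x - u)) ∧ ∫ u : ℝ, gsn L (x - u) = Real.sqrt (2 * π) := by
  have h : (fun u : ℝ => gsn L (x - u)) = fun u : ℝ => gsn L (u - x) := by
    funext u
    rw [← gsn_even, neg_sub]
  rw [h]
  exact gsn_integral L x hL

theorem gg_cont (L x y : ℝ) : Continuous (gg L x y) := by
  have := gsn_cont L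
  unfold gg
  fun_prop

theorem gg_integrable (L x y : ℝ) (hL : 0 < L) : Integrable (gg L x y) := by
  refine (gsn_integral' L x hL).1.mono' (gg_cont L x y).aestronglyMeasurable ?_
  refine Filter.Eventually.of_forall fun u => ?_
  rw [Real.norm_eq_abs, abs_of_nonneg (gg_bd L x y u hL).1]
  exact (gg_bd L x y u hL).2.1

private theorem P2_abs (L v : ℝ) (hL : 0 < L) : |v| * gsn L v ≤ L * (Real.sqrt 2 * gsn (Real.sqrt 2 * L) v) := by
  unfold gsn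
  have h2 : (0 : ℝ) < Real.sqrt 2 := Real.sqrt_pos.2 (by norm_num)
  have h3 : (Real.sqrt 2) ^ 2 = 2 := Real.sq_sqrt (by norm_num)
  have h4 : Real.sqrt 2 * (1 / (Real.sqrt 2 * L) * Real.exp (-(v ^ 2 / (2 * (Real.sqrt 2 * L) ^ 2))))
      = 1 / L * Real.exp (-(v ^ 2 / (4 * L ^ 2))) := by
    rw [mul_pow, h3, ← mul_assoc]
    congr 1
    · field_simp
    · congr 3
      ring
  rw [h4]
  have h5 : Real.exp (-(v ^ 2 / (2 * L ^ 2))) = Real.exp (-(v ^ 2 / (4 * L ^ 2))) *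
      Real.exp (-(v ^ 2 / (4 * L ^ 2))) := by
    rw [← Real.exp_add]
    congr 1
    field_simp
    ring
  have h6 : |v| / L ≤ Real.exp (v ^ 2 / (4 * L ^ 2)) := by
    have h7 := Real.add_one_le_exp (v ^ 2 / (4 * L ^ 2))
    have h8 : v ^ 2 / (4 * L ^ 2) = (|v| / L) ^ 2 / 4 := by
      rw [div_pow, sq_abs]
      field_simp
    rw [h8] at h7 ⊢
    nlinarith [sq_nonneg (|v| / L - 2)]
  have h9 : |v| / L * Real.exp (-(v ^ 2 / (4 * L ^ 2))) ≤ 1 := by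
    have h10 := mul_le_mul_of_nonneg_right h6 (Real.exp_pos (-(v ^ 2 / (4 * L ^ 2)))).le
    rw [← Real.exp_add, add_neg_cancel, Real.exp_zero] at h10
    exact h10
  rw [h5]
  have h11 := mul_le_mul_of_nonneg_right h9 (Real.exp_pos (-(v ^ 2 / (4 * L ^ 2)))).le
  calc |v| * (1 / L * (Real.exp (-(v ^ 2 / (4 * L ^ 2))) * Real.exp (-(v ^ 2 / (4 * L ^ 2)))))
      = |v| / L * Real.exp (-(v ^ 2 / (4 * L ^ 2))) * Real.exp (-(v ^ 2 / (4 * L ^ 2))) := by ring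
    _ ≤ 1 * Real.exp (-(v ^ 2 / (4 * L ^ 2))) := h11
    _ = L * (1 / L * Real.exp (-(v ^ 2 / (4 * L ^ 2)))) := by field_simp

private theorem P2_sqrt : Real.sqrt 2 * Real.sqrt (2 * π) ≤ 4 := by
  rw [← Real.sqrt_mul (by norm_num), Real.sqrt_le_left (by norm_num)]
  have := Real.pi_lt_d4
  linarith

/-- PROOF. `|exp (-(u - y)²) - exp (-(x - y)²)| ≤ |u - x|` and `∫ |v| gsn L v dv ≤ √2 √(2π) L ≤ 4 L`, `gsn_integral` (E3/B1). -/
theorem gg_integral (L x y : ℝ) (hL : 0 < L) :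
    Integrable (gg L x y) ∧ |(∫ u : ℝ, gg L x y u) - Real.sqrt (2 * π) * Real.exp (-(x - y) ^ 2)| ≤ 4 * L := by
  have hi := gg_integrable L x y hL
  refine ⟨hi, ?_⟩
  obtain ⟨h1, h2⟩ := gsn_integral' L x hL
  have hs2 : (0 : ℝ) < Real.sqrt 2 := Real.sqrt_pos.2 (by norm_num)
  obtain ⟨h3, h4⟩ := gsn_integral' (Real.sqrt 2 * L) x (by positivity)
  have e1 : Real.sqrt (2 * π) * Real.exp (-(x - y) ^ 2) = ∫ u : ℝ, Real.exp (-(x - y) ^ 2) * gsn L (x - u) := by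
    rw [integral_const_mul, h2, mul_comm]
  rw [e1, ← integral_sub hi (h1.const_mul _)]
  have hpt : ∀ u : ℝ, |gg L x y u - Real.exp (-(x - y) ^ 2) * gsn L (x - u)| ≤
      L * (Real.sqrt 2 * gsn (Real.sqrt 2 * L) (x - u)) := by
    intro u
    unfold gg
    rw [← sub_mul, abs_mul, abs_of_nonneg (gsn_nn L (x - u) hL)]
    have h5 := exp_sq_lip (u - y) (x - y)
    rw [show u - y - (x - y) = -(x - u) by ring, abs_neg] at h5
    exact (mul_le_mul_of_nonneg_right h5 (gsn_nn L (x - u) hL)).trans (P2_abs L (x - u) hL)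
  refine abs_integral_le_integral_abs.trans ?_
  have h6 : Integrable (fun u : ℝ => L * (Real.sqrt 2 * gsn (Real.sqrt 2 * L) (x - u))) :=
    (h3.const_mul _).const_mul _
  refine (integral_mono (hi.sub (h1.const_mul _)).abs h6 hpt).trans ?_
  rw [integral_const_mul, integral_const_mul, h4]
  have := P2_sqrt
  nlinarith

/-- PROOF. The tail of `∫ gg`: `gsn_tail` and `gsn_integral`; `√2 √(2π) ≤ 4`. -/
theorem gg_tail (L K x y : ℝ) (hL : 0 < L) (hK : 0 ≤ K) :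
    |(∫ u : ℝ, gg L x y u) - ∫ u in Set.Ioc (x - K * L) (x + K * L), gg L x y u| ≤ 4 * Real.exp (-(K ^ 2 / 4)) := by
  have hi := gg_integrable L x y hL
  have hs2 : (0 : ℝ) < Real.sqrt 2 := Real.sqrt_pos.2 (by norm_num)
  obtain ⟨h3, h4⟩ := gsn_integral' (Real.sqrt 2 * L) x (by positivity)
  have e1 : (∫ u : ℝ, gg L x y u) - ∫ u in Set.Ioc (x - K * L) (x + K * L), gg L x y u =
      ∫ u in (Set.Ioc (x - K * L) (x + K * L))ᶜ, gg L x y u := by
    have := integral_add_compl (μ := volume) (f := gg L x y) (s := Set.Ioc (x - K * L) (x + K * L)) measurableSet_Ioc hi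
    linarith
  rw [e1, abs_of_nonneg (integral_nonneg fun u => (gg_bd L x y u hL).1)]
  have hdom : Integrable (fun u : ℝ => Real.exp (-(K ^ 2 / 4)) * (Real.sqrt 2 * gsn (Real.sqrt 2 * L) (x - u))) :=
    (h3.const_mul _).const_mul _
  have hdn : ∀ u : ℝ, 0 ≤ Real.exp (-(K ^ 2 / 4)) * (Real.sqrt 2 * gsn (Real.sqrt 2 * L) (x - u)) := fun u =>
    mul_nonneg (Real.exp_pos _).le (mul_nonneg hs2.le (gsn_nn _ _ (by positivity)))
  calc ∫ u in (Set.Ioc (x - K * L) (x + K * L))ᶜ, gg L x y u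
      ≤ ∫ u in (Set.Ioc (x - K * L) (x + K * L))ᶜ, Real.exp (-(K ^ 2 / 4)) * (Real.sqrt 2 * gsn (Real.sqrt 2 * L) (x - u)) := by
        refine setIntegral_mono_on hi.integrableOn hdom.integrableOn measurableSet_Ioc.compl ?_
        intro u hu
        refine (gg_bd L x y u hL).2.1.trans (gsn_tail L K (x - u) hL hK ?_)
        rw [Set.mem_compl_iff, Set.mem_Ioc, not_and_or, not_lt, not_le] at hu
        have hKL : 0 ≤ K * L := by positivity
        rcases hu with h | h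
        · rw [abs_of_nonneg (by linarith)]; linarith
        · rw [abs_of_nonpos (by linarith)]; linarith
    _ ≤ ∫ u : ℝ, Real.exp (-(K ^ 2 / 4)) * (Real.sqrt 2 * gsn (Real.sqrt 2 * L) (x - u)) :=
        setIntegral_le_integral hdom (Filter.Eventually.of_forall hdn)
    _ = Real.exp (-(K ^ 2 / 4)) * (Real.sqrt 2 * Real.sqrt (2 * π)) := by
        rw [integral_const_mul, integral_const_mul, h4]
    _ ≤ 4 * Real.exp (-(K ^ 2 / 4)) := by
        have h5 := P2_sqrt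
        have h6 := Real.exp_pos (-(K ^ 2 / 4))
        nlinarith

end Pool.Agent.Lib.MP_bae66e_nt.EF
end

section

/-!
# Row P1: the primes of a class in a short logarithmic cell
-/

set_option autoImplicit false

namespace Pool.Agent.Lib.MP_bae66e_nt.EF

open Finset MeasureTheory Real
open Pool.Agent.E3
open Pool.Agent.Lib.MP_bae66e_nt.LL (piC le_piC piC_le)
open Pool.Agent.Lib.MP_bae66e_nt.AP3 (prI mem_prI)

/-- the number of the primes `≤ exp c A` in a class -/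
private theorem P1_pi (W : ℕ) (hW : 1 ≤ W) (c δ : ℝ) (hc : 0 ≤ c) (hc1 : c ≤ 1) (hδ : 0 < δ) (hδ1 : δ ≤ 1) : ∃ A₀ : ℝ, 2 ≤ A₀ ∧
    ∀ A : ℝ, A₀ ≤ A → ∀ b : ℤ, IsCoprime b (W : ℤ) →
      |(piC ⌊Real.exp c * A⌋₊ W b : ℝ) - Real.exp c * (A / ((Nat.totient W : ℝ) * Real.log A))| ≤
        δ * (A / ((Nat.totient W : ℝ) * Real.log A)) := by
  obtain ⟨η, hη⟩ : ∃ η : ℝ, η = δ / 20 := ⟨_, rfl⟩
  have hη0 : 0 < η := by rw [hη]; positivity
  have hη1 : η ≤ 1 / 20 := by rw [hη]; linarith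
  obtain ⟨X1, hX1⟩ := le_piC W hW η hη0
  obtain ⟨X2, hX2⟩ := piC_le W hW η hη0
  refine ⟨Real.exp (1 / η) + 1 / η + X1 + X2 + 2, ?_, ?_⟩
  · have h1 := Real.exp_pos (1 / η)
    have h2 : 0 < 1 / η := by positivity
    have h3 : (0 : ℝ) ≤ X1 := Nat.cast_nonneg _
    have h4 : (0 : ℝ) ≤ X2 := Nat.cast_nonneg _
    linarith
  intro A hA b hb
  have h1 := Real.exp_pos (1 / η)
  have h2 : 0 < 1 / η := by positivity
  have h3 : (0 : ℝ) ≤ X1 := Nat.cast_nonneg _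
  have h4 : (0 : ℝ) ≤ X2 := Nat.cast_nonneg _
  have hA2 : 2 ≤ A := by linarith
  have hA0 : 0 < A := by linarith
  have hlA : 1 / η ≤ Real.log A := by
    rw [← Real.log_exp (1 / η)]
    exact Real.log_le_log h1 (by linarith)
  have hlA' : 1 ≤ η * Real.log A := by
    rw [div_le_iff₀ hη0] at hlA
    linarith
  have hlA0 : 0 < Real.log A := lt_of_lt_of_le (by positivity) hlA
  have hηA : 1 ≤ η * A := by
    have : 1 / η ≤ A := by linarith
    rw [div_le_iff₀ hη0] at this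
    linarith
  obtain ⟨B, hB⟩ : ∃ B : ℝ, B = Real.exp c := ⟨_, rfl⟩
  have hB1 : 1 ≤ B := by rw [hB]; exact Real.one_le_exp hc
  have hB3 : B ≤ 3 := by
    rw [hB]
    have h5 := Real.exp_le_exp.2 hc1
    have h6 := Real.exp_one_lt_d9
    linarith
  rw [← hB]
  have hBA0 : 0 ≤ B * A := by positivity
  obtain ⟨n, hn⟩ : ∃ n : ℕ, n = ⌊B * A⌋₊ := ⟨_, rfl⟩
  rw [← hn]
  have hnB : (n : ℝ) ≤ B * A := by rw [hn]; exact Nat.floor_le hBA0
  have hnB' : B * A < n + 1 := by rw [hn]; exact Nat.lt_floor_add_one _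
  have hABA : A ≤ B * A := by nlinarith
  have hnX1 : X1 ≤ n := by
    have : (X1 : ℝ) < n + 1 := by linarith
    have h5 : X1 < n + 1 := by exact_mod_cast this
    omega
  have hnX2 : X2 ≤ n := by
    have : (X2 : ℝ) < n + 1 := by linarith
    have h5 : X2 < n + 1 := by exact_mod_cast this
    omega
  have hlow := hX1 n hnX1 b hb
  have hup := hX2 n hnX2 b hb
  have hphi : (0 : ℝ) < (Nat.totient W : ℝ) := by exact_mod_cast Nat.totient_pos.2 (by omega)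
  have hn1 : (1 - η) * (B * A) ≤ n := by nlinarith
  have hn2 : A / 2 ≤ n := by linarith
  have hn0 : (0 : ℝ) < n := by linarith
  have hlogn : Real.log n ≤ (1 + η) * Real.log A := by
    have h5 : Real.log n ≤ Real.log (B * A) := Real.log_le_log hn0 hnB
    rw [Real.log_mul (by linarith) hA0.ne', hB, Real.log_exp] at h5
    linarith
  have hlogm : (1 - η) * Real.log A ≤ Real.log n := by
    have h5 : Real.log (A / 2) ≤ Real.log n := Real.log_le_log (by positivity) hn2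
    rw [Real.log_div hA0.ne' (by norm_num)] at h5
    have h6 := Real.log_two_lt_d9
    linarith
  have hlogm0 : 0 < (1 - η) * Real.log A := mul_pos (by linarith) hlA0
  have hlogn0 : 0 < Real.log n := lt_of_lt_of_le hlogm0 hlogm
  obtain ⟨T, hT⟩ : ∃ T : ℝ, T = A / ((Nat.totient W : ℝ) * Real.log A) := ⟨_, rfl⟩
  have hT0 : 0 < T := by rw [hT]; positivity
  rw [← hT]
  have e1 : (1 - η) * (1 - η) / (1 + η) * B * T ≤
      (1 - η) * ((n : ℝ) / ((Nat.totient W : ℝ) * Real.log n)) := by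
    have h5 : (1 - η) * (B * A) / ((Nat.totient W : ℝ) * ((1 + η) * Real.log A)) ≤
        (n : ℝ) / ((Nat.totient W : ℝ) * Real.log n) := by
      apply div_le_div₀ (Nat.cast_nonneg _) hn1 (by positivity)
      exact mul_le_mul_of_nonneg_left hlogn hphi.le
    calc (1 - η) * (1 - η) / (1 + η) * B * T
        = (1 - η) * ((1 - η) * (B * A) / ((Nat.totient W : ℝ) * ((1 + η) * Real.log A))) := by
          rw [hT]
          field_simp
      _ ≤ _ := mul_le_mul_of_nonneg_left h5 (by linarith)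
  have e2 : (1 + η) * ((n : ℝ) / ((Nat.totient W : ℝ) * Real.log n)) ≤ (1 + η) / (1 - η) * B * T := by
    have h5 : (n : ℝ) / ((Nat.totient W : ℝ) * Real.log n) ≤
        B * A / ((Nat.totient W : ℝ) * ((1 - η) * Real.log A)) := by
      apply div_le_div₀ hBA0 hnB (by positivity)
      exact mul_le_mul_of_nonneg_left hlogm hphi.le
    have h7 : (1 - η) ≠ 0 := by
      have : 0 < 1 - η := by linarith
      exact this.ne'
    calc (1 + η) * ((n : ℝ) / ((Nat.totient W : ℝ) * Real.log n))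
        ≤ (1 + η) * (B * A / ((Nat.totient W : ℝ) * ((1 - η) * Real.log A))) :=
          mul_le_mul_of_nonneg_left h5 (by linarith)
      _ = (1 + η) / (1 - η) * B * T := by
          rw [hT]
          field_simp
  have e3 : 1 - 4 * η ≤ (1 - η) * (1 - η) / (1 + η) := by
    rw [le_div_iff₀ (by linarith)]
    nlinarith
  have e4 : (1 + η) / (1 - η) ≤ 1 + 4 * η := by
    rw [div_le_iff₀ (by linarith)]
    nlinarith
  have hBT : 0 ≤ B * T := by positivity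
  have e5 : (1 - 4 * η) * (B * T) ≤ (1 - η) * (1 - η) / (1 + η) * B * T := by
    have := mul_le_mul_of_nonneg_right e3 hBT
    linarith [mul_assoc ((1 - η) * (1 - η) / (1 + η)) B T]
  have e6 : (1 + η) / (1 - η) * B * T ≤ (1 + 4 * η) * (B * T) := by
    have := mul_le_mul_of_nonneg_right e4 hBT
    linarith [mul_assoc ((1 + η) / (1 - η)) B T]
  have e7 : 4 * η * (B * T) ≤ δ * T := by
    have h8 : B * T ≤ 3 * T := mul_le_mul_of_nonneg_right hB3 hT0.le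
    have h9 : 4 * η * (B * T) ≤ 4 * η * (3 * T) := mul_le_mul_of_nonneg_left h8 (by positivity)
    have h10 : 4 * η * (3 * T) = 12 * η * T := by ring
    have h11 : 12 * η * T ≤ δ * T := mul_le_mul_of_nonneg_right (by rw [hη]; linarith) hT0.le
    linarith
  rw [abs_le]
  constructor
  · linarith
  · linarith

/-- PROOF. As `primes_AP_interval` (E3/P1), both sides: with `card_AP_eq`, `le_piC`, `piC_le` (for a small `δ`) the number of these primes is `(A/(φ(W) log A)) (exp lam - 1 + o(1))`, and each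
`1/q` is between `exp (-lam)/A` and `1/A`; `exp lam - 1 ≤ lam + lam²`, `1 - exp (-lam) ≥ lam - lam²`. -/
theorem cell_asymp (W : ℕ) (hW : 1 ≤ W) (lam ε : ℝ) (h0 : 0 < lam) (h1 : lam ≤ 1) (hε : 0 < ε) : ∃ A₀ : ℝ, 2 ≤ A₀ ∧
    ∀ A : ℝ, A₀ ≤ A → ∀ b : ℤ, IsCoprime b (W : ℤ) →
      |∑ q ∈ (prI ⌊A⌋₊ ⌊Real.exp lam * A⌋₊).filter (fun q : ℕ => (q : ℤ) ≡ b [ZMOD (W : ℤ)]), 1 / (q : ℝ)
        - lam / ((Nat.totient W : ℝ) * Real.log A)| ≤ (2 * lam ^ 2 + ε) / ((Nat.totient W : ℝ) * Real.log A) := by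
  obtain ⟨δ, hδd⟩ : ∃ δ : ℝ, δ = min (ε / 2) 1 := ⟨_, rfl⟩
  have hδ : 0 < δ := by rw [hδd]; exact lt_min (by positivity) one_pos
  have hδ1 : δ ≤ 1 := by rw [hδd]; exact min_le_right _ _
  have hδε : 2 * δ ≤ ε := by
    have : δ ≤ ε / 2 := by rw [hδd]; exact min_le_left _ _
    linarith
  obtain ⟨A₁, hA1, H1⟩ := P1_pi W hW 0 δ le_rfl zero_le_one hδ hδ1
  obtain ⟨A₂, hA2, H2⟩ := P1_pi W hW lam δ h0.le h1 hδ hδ1
  refine ⟨max A₁ A₂, hA1.trans (le_max_left _ _), ?_⟩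
  intro A hA b hb
  have hAA1 : A₁ ≤ A := (le_max_left _ _).trans hA
  have hAA2 : A₂ ≤ A := (le_max_right _ _).trans hA
  have hAge : 2 ≤ A := hA1.trans hAA1
  have hA0 : 0 < A := by linarith
  have k1 := H1 A hAA1 b hb
  have k2 := H2 A hAA2 b hb
  rw [Real.exp_zero, one_mul, one_mul] at k1
  have hphi : (0 : ℝ) < (Nat.totient W : ℝ) := by exact_mod_cast Nat.totient_pos.2 (by omega)
  have hlA0 : 0 < Real.log A := Real.log_pos (by linarith)
  obtain ⟨t, ht⟩ : ∃ t : ℝ, t = 1 / ((Nat.totient W : ℝ) * Real.log A) := ⟨_, rfl⟩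
  have ht0 : 0 < t := by rw [ht]; positivity
  have hT : A / ((Nat.totient W : ℝ) * Real.log A) = A * t := by rw [ht]; ring
  rw [hT] at k1 k2
  have g1 : lam / ((Nat.totient W : ℝ) * Real.log A) = lam * t := by rw [ht]; ring
  have g2 : (2 * lam ^ 2 + ε) / ((Nat.totient W : ℝ) * Real.log A) = (2 * lam ^ 2 + ε) * t := by rw [ht]; ring
  rw [g1, g2]
  have hexp1 : 1 ≤ Real.exp lam := Real.one_le_exp h0.le
  have hmn : ⌊A⌋₊ ≤ ⌊Real.exp lam * A⌋₊ := Nat.floor_le_floor (by nlinarith)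
  have hcard := card_AP_eq W b ⌊A⌋₊ ⌊Real.exp lam * A⌋₊ hmn
  obtain ⟨S, hS⟩ : ∃ S : Finset ℕ, S = (prI ⌊A⌋₊ ⌊Real.exp lam * A⌋₊).filter (fun q : ℕ => (q : ℤ) ≡ b [ZMOD (W : ℤ)]) := ⟨_, rfl⟩
  rw [← hS] at hcard ⊢
  rw [abs_le] at k1 k2
  have hq : ∀ q ∈ S, Real.exp (-lam) / A ≤ 1 / (q : ℝ) ∧ 1 / (q : ℝ) ≤ 1 / A := by
    intro q hq
    rw [hS, Finset.mem_filter] at hq
    obtain ⟨⟨q1, q2⟩, -⟩ := mem_prI.mp hq.1
    have q3 : A < q := by
      have := Nat.lt_floor_add_one A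
      have q4 : (⌊A⌋₊ : ℝ) + 1 ≤ q := by exact_mod_cast q1
      linarith
    have q5 : (q : ℝ) ≤ Real.exp lam * A := by
      have h5 : (q : ℝ) ≤ (⌊Real.exp lam * A⌋₊ : ℝ) := by exact_mod_cast q2
      exact h5.trans (Nat.floor_le (by positivity))
    refine ⟨?_, one_div_le_one_div_of_le hA0 q3.le⟩
    have h6 : Real.exp (-lam) / A = 1 / (Real.exp lam * A) := by
      rw [Real.exp_neg]
      field_simp
    rw [h6]
    exact one_div_le_one_div_of_le (by linarith) q5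
  have hsum1 : ∑ q ∈ S, 1 / (q : ℝ) ≤ (#S : ℝ) * (1 / A) := by
    rw [← nsmul_eq_mul, ← Finset.sum_const]
    exact Finset.sum_le_sum fun q hq' => (hq q hq').2
  have hsum2 : (#S : ℝ) * (Real.exp (-lam) / A) ≤ ∑ q ∈ S, 1 / (q : ℝ) := by
    rw [← nsmul_eq_mul, ← Finset.sum_const]
    exact Finset.sum_le_sum fun q hq' => (hq q hq').1
  have hS1 : (#S : ℝ) ≤ (Real.exp lam - 1 + 2 * δ) * (A * t) := by
    rw [hcard]; nlinarith
  have hS2 : (Real.exp lam - 1 - 2 * δ) * (A * t) ≤ (#S : ℝ) := by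
    rw [hcard]; nlinarith
  have b1 := Real.abs_exp_sub_one_sub_id_le (x := lam) (by rw [abs_of_pos h0]; exact h1)
  have b2 := Real.abs_exp_sub_one_sub_id_le (x := -lam) (by rw [abs_neg, abs_of_pos h0]; exact h1)
  rw [abs_le] at b1 b2
  have hl2 : (-lam) ^ 2 = lam ^ 2 := by ring
  rw [hl2] at b2
  have hem : 0 < Real.exp (-lam) := Real.exp_pos _
  have hem1 : Real.exp (-lam) ≤ 1 := Real.exp_le_one_iff.2 (by linarith)
  have hee : Real.exp (-lam) * Real.exp lam = 1 := by rw [← Real.exp_add]; simp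
  have u1 : ∑ q ∈ S, 1 / (q : ℝ) ≤ (Real.exp lam - 1 + 2 * δ) * t := by
    refine hsum1.trans ?_
    calc (#S : ℝ) * (1 / A) ≤ (Real.exp lam - 1 + 2 * δ) * (A * t) * (1 / A) :=
          mul_le_mul_of_nonneg_right hS1 (by positivity)
      _ = _ := by field_simp
  have u2 : (1 - Real.exp (-lam) - 2 * δ * Real.exp (-lam)) * t ≤ ∑ q ∈ S, 1 / (q : ℝ) := by
    refine le_trans ?_ hsum2
    calc (1 - Real.exp (-lam) - 2 * δ * Real.exp (-lam)) * t
        = (Real.exp lam - 1 - 2 * δ) * (A * t) * (Real.exp (-lam) / A) := by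
          have h6 : (Real.exp lam - 1 - 2 * δ) * (A * t) * (Real.exp (-lam) / A) =
            (Real.exp (-lam) * Real.exp lam - Real.exp (-lam) - 2 * δ * Real.exp (-lam)) * t := by
            field_simp
          rw [h6, hee]
      _ ≤ _ := mul_le_mul_of_nonneg_right hS2 (by positivity)
  have u3 : (Real.exp lam - 1 + 2 * δ) * t ≤ (lam + (2 * lam ^ 2 + ε)) * t :=
    mul_le_mul_of_nonneg_right (by nlinarith [sq_nonneg lam]) ht0.le
  have u4 : (lam - (2 * lam ^ 2 + ε)) * t ≤ (1 - Real.exp (-lam) - 2 * δ * Real.exp (-lam)) * t := by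
    apply mul_le_mul_of_nonneg_right _ ht0.le
    have : 2 * δ * Real.exp (-lam) ≤ ε := by nlinarith
    nlinarith [sq_nonneg lam]
  rw [abs_le]
  constructor
  · linarith
  · linarith

end Pool.Agent.Lib.MP_bae66e_nt.EF
end

section

/-!
# The number of representations with a given `r`: definitions
-/

set_option autoImplicit false

namespace Pool.Agent.Lib.MP_bae66e_nt.EF

open Finset MeasureTheory Real
open Pool.Agent.E3
open Pool.Agent.Lib.MP_bae66e_nt.LL (fP gW)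
open Pool.Agent.Lib.MP_bae66e_nt.AC (Sg VV)

/-- the number of the primes `t ≤ 2 R²` such that `m - t` is `s` times a prime -/
def cs (R m s : ℕ) : ℕ := #{t ∈ Icc 1 (HR R) | t.Prime ∧ s ∣ m - t ∧ ((m - t) / s).Prime}

/-- the same, weighted by `fP` -/
noncomputable def SF (R s m : ℕ) : ℝ :=
  ∑ t ∈ Icc 1 (HR R), fP (HR R) (t : ℤ) * (if s ∣ m - t ∧ ((m - t) / s).Prime then (1 : ℝ) else 0)

/-- `V = H / (R log X)`, the expected size of `SF` -/
noncomputable def VF (R X : ℕ) : ℝ := HR R / (R * Real.log X)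

/-- the upper bound for the second moment, with the constant `C` -/
def SECF (C a : ℝ) : Prop := ∀ δ : ℝ, 0 < δ → ∃ w₀ : ℕ, ∀ w : ℕ, w₀ ≤ w → ∃ X₀ : ℕ, ∀ X : ℕ, X₀ ≤ X →
  ∀ R : ℕ, PX a R X →
  (#{m ∈ Icc X (2 * X) | Even m ∧ C * (Sg (primorial w) m) ^ 2 * (R / Real.log R) * (VF R X) ^ 2 <
    ∑ s ∈ IS R, (SF R s m) ^ 2} : ℝ) ≤ δ * X

/-- the `s ∈ IS R` with at least `c` times the expected number of representations -/
noncomputable def goodF (c : ℝ) (N R m : ℕ) : Finset ℕ :=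
  {s ∈ IS R | c * (Pool.Agent.MG.sing m * (Nat.primeCounting (HR R) / (s * Real.log N))) ≤ cs R m s}

/-- for almost all even `m ≤ N` a positive proportion of the primes `s ∈ (R, 2R]` is good -/
def POSF (c a : ℝ) : Prop := ∀ δ : ℝ, 0 < δ → ∃ N₀ : ℕ, ∀ N : ℕ, N₀ ≤ N →
  ∀ R : ℕ, (Real.log N) ^ (a - 1 / 4) ≤ R → (R : ℝ) ≤ (Real.log N) ^ (a + 1 / 4) →
    (#{m ∈ Icc 1 N | Even m ∧ ((goodF c N R m).card : ℝ) < c * (IS R).card} : ℝ) ≤ δ * N

end Pool.Agent.Lib.MP_bae66e_nt.EF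
end
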