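import Pool.Agent.Lib.MP_bae66e_nt.Mg.G001
import Pool.Agent.Lib.MP_bae66e_nt.E3.F1

section

/-!
# F2: lower bound for the model
-/

set_option autoImplicit false

namespace Pool.Agent.E3

open Finset
open Pool.Agent.Lib.MP_bae66e_nt.LL (fP gW nu)

/-- PROOF. Every summand of `fS` is `0` or a value of `om`, which is an exponential. -/
theorem fA_nonneg (c a : ℝ) (X n : ℕ) : 0 ≤ fA c a X n := by
  unfold fA fS
  refine Finset.sum_nonneg fun s _ => Finset.sum_nonneg fun q _ => ?_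
  split_ifs
  · unfold om gs
    exact (Real.exp_pos _).le
  · exact le_rfl

private theorem F2_coprime {W m n v : ℕ} (h : n ≡ v [MOD W])
    (hv : IsCoprime ((m : ℤ) - (v : ℤ)) (W : ℤ)) : IsCoprime ((m : ℤ) - (n : ℤ)) (W : ℤ) := by
  have h1 : (v : ℤ) ≡ n [ZMOD W] := ((Int.natCast_modEq_iff).2 h).symm
  obtain ⟨k, hk⟩ := (Int.modEq_iff_dvd).1 h1
  have h2 : (m : ℤ) - (n : ℤ) = ((m : ℤ) - (v : ℤ)) + (W : ℤ) * (-k) := by linarith
  rw [h2, IsCoprime.add_mul_left_left_iff]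
  exact hv

/-- PROOF. `W = primorial w`. For `1 ≤ t ≤ H`: `gW W H t = W/φ(W)` if `t` is coprime to `W`, else `0`. Substitute `n = m - t`, `n ∈ Ico (m - H) m`
(`H ≤ m`), and sort the `n` by their class `v = n % W`: the classes `v` with `v` and `m - v` coprime to `W` give `t = m - n` coprime to `W`. All
terms are nonnegative (`fA_nonneg`), so the sum is at least
`(W/φ(W)) ∑_v ∑_{n ∈ Ico (m - H) m, n ≡ v} fA n ≥ (W/φ(W)) · #classes · B/φ(W) ≥ B` by `card_classes`. -/
theorem model_lower (c a B : ℝ) (hB : 0 ≤ B) (X w m H : ℕ) (hw : 2 ≤ w) (hm : Even m) (hH : H ≤ m)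
    (hv : ∀ v : ℕ, Nat.Coprime v (primorial w) →
      B / Nat.totient (primorial w) ≤
        ∑ n ∈ (Ico (m - H) m).filter (fun n => n ≡ v [MOD primorial w]), fA c a X n) :
    B ≤ ∑ t ∈ Icc 1 H, gW (primorial w) H (t : ℤ) * fA c a X (m - t) := by
  classical
  set W := primorial w with hW
  have hWpos : 0 < W := primorial_pos w
  have hWr : (0 : ℝ) < W := by exact_mod_cast hWpos
  have hφ : (0 : ℝ) < Nat.totient W := by exact_mod_cast Nat.totient_pos.2 hWpos
  set κ : ℝ := (W : ℝ) / (Nat.totient W : ℝ) with hκ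
  have hκ0 : 0 < κ := by positivity
  set V := (range W).filter (fun v => Nat.Coprime v W ∧ IsCoprime ((m : ℤ) - (v : ℤ)) (W : ℤ))
    with hV
  have hcard := card_classes w m hw hm
  -- substitution
  have hsub : ∑ t ∈ Icc 1 H, gW W H (t : ℤ) * fA c a X (m - t) =
      ∑ n ∈ Ico (m - H) m, nu W ((m : ℤ) - (n : ℤ)) * fA c a X n := by
    refine Finset.sum_bij' (fun t _ => m - t) (fun n _ => m - n) ?_ ?_ ?_ ?_ ?_
    · intro t ht
      rw [Finset.mem_Icc] at ht
      rw [Finset.mem_Ico]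
      omega
    · intro n hn
      rw [Finset.mem_Ico] at hn
      rw [Finset.mem_Icc]
      omega
    · intro t ht
      rw [Finset.mem_Icc] at ht
      omega
    · intro n hn
      rw [Finset.mem_Ico] at hn
      omega
    · intro t ht
      rw [Finset.mem_Icc] at ht
      have h1 : (m : ℤ) - ((m - t : ℕ) : ℤ) = t := by
        rw [Nat.cast_sub (by omega)]
        ring
      rw [h1]
      unfold gW
      rw [if_pos ⟨by exact_mod_cast ht.1, by exact_mod_cast ht.2⟩]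
  rw [hsub]
  -- sorting
  have hpt : ∀ n ∈ Ico (m - H) m, (∑ v ∈ V, if n ≡ v [MOD W] then κ * fA c a X n else 0) ≤
      nu W ((m : ℤ) - (n : ℤ)) * fA c a X n := by
    intro n _
    have hf := fA_nonneg c a X n
    by_cases hn : n % W ∈ V
    · rw [Finset.sum_eq_single (n % W)]
      · rw [if_pos (Nat.mod_modEq n W).symm]
        rw [hV, Finset.mem_filter] at hn
        have h1 : IsCoprime ((m : ℤ) - (n : ℤ)) (W : ℤ) :=
          F2_coprime (Nat.mod_modEq n W).symm hn.2.2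
        unfold nu
        rw [if_pos h1]
      · intro v hv' hne
        rw [if_neg]
        intro h
        apply hne
        rw [hV, Finset.mem_filter, Finset.mem_range] at hv'
        have h2 : n % W = v % W := h
        rw [Nat.mod_eq_of_lt hv'.1] at h2
        exact h2.symm
      · intro h
        exact absurd hn h
    · rw [Finset.sum_eq_zero]
      · apply mul_nonneg _ hf
        unfold nu
        split_ifs
        · exact hκ0.le
        · exact le_rfl
      · intro v hv'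
        rw [if_neg]
        intro h
        apply hn
        have h2 : n % W = v % W := h
        rw [h2]
        have h3 := hv'
        rw [hV, Finset.mem_filter, Finset.mem_range] at h3
        rw [Nat.mod_eq_of_lt h3.1]
        exact hv'
  refine le_trans ?_ (Finset.sum_le_sum hpt)
  rw [Finset.sum_comm]
  have hin : ∀ v ∈ V, κ * (B / Nat.totient W) ≤
      ∑ n ∈ Ico (m - H) m, if n ≡ v [MOD W] then κ * fA c a X n else 0 := by
    intro v hv'
    rw [hV, Finset.mem_filter] at hv'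
    rw [← Finset.sum_filter, ← Finset.mul_sum]
    exact mul_le_mul_of_nonneg_left (hv v hv'.2.1) hκ0.le
  refine le_trans ?_ (Finset.sum_le_sum hin)
  rw [Finset.sum_const, nsmul_eq_mul]
  have h6 : 0 ≤ κ * (B / Nat.totient W) := by positivity
  calc B = ((Nat.totient W : ℝ)) ^ 2 / (W : ℝ) * (κ * (B / Nat.totient W)) := by
        rw [hκ]
        field_simp
    _ ≤ (#V : ℝ) * (κ * (B / Nat.totient W)) := by
        apply mul_le_mul_of_nonneg_right _ h6
        refine hcard.trans (le_of_eq ?_)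
        rw [hV]

end Pool.Agent.E3
end

section

/-!
# F3: the exceptional set in `[X, 2X]`
-/

set_option autoImplicit false

namespace Pool.Agent.E3

open Finset
open Pool.Agent.Lib.MP_bae66e_nt.LL (fP gW nu)

/-- eventual inequalities -/
private theorem F3_aux_ev (c : ℝ) : ∃ X₀ : ℕ, ∀ X : ℕ, X₀ ≤ X → 2 ≤ ll X ∧ 1 ≤ Real.log X ∧
    (ll X) ^ (c + 4) ≤ Real.log X ∧ (Real.log X) ^ (2 : ℝ) ≤ X := by
  have t0 : Filter.Tendsto (fun X : ℕ => (X : ℝ)) Filter.atTop Filter.atTop :=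
    tendsto_natCast_atTop_atTop
  have t1 : Filter.Tendsto (fun X : ℕ => Real.log (X : ℝ)) Filter.atTop Filter.atTop :=
    Real.tendsto_log_atTop.comp t0
  have t2 : Filter.Tendsto (fun X : ℕ => ll X) Filter.atTop Filter.atTop :=
    Real.tendsto_log_atTop.comp t1
  have e1 := t2.eventually_ge_atTop 2
  have e2 := t1.eventually_ge_atTop 1
  have e3 : ∀ᶠ X : ℕ in Filter.atTop, (ll X) ^ (c + 4) ≤ Real.log X := by
    have h := (isLittleO_log_rpow_rpow_atTop (c + 4) (zero_lt_one)).bound (zero_lt_one)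
    have h' := t1.eventually (h.and (Filter.eventually_ge_atTop (1 : ℝ)))
    filter_upwards [h', e1] with X hX h1
    obtain ⟨hX1, hX2⟩ := hX
    have h0 : (0 : ℝ) ≤ (ll X) ^ (c + 4) := Real.rpow_nonneg (by linarith) _
    have h3 : ‖Real.log (Real.log (X : ℝ)) ^ (c + 4)‖ = (ll X) ^ (c + 4) := by
      rw [Real.norm_eq_abs]; exact abs_of_nonneg h0
    rw [h3, Real.rpow_one, Real.norm_eq_abs, abs_of_nonneg (by linarith), one_mul] at hX1
    exact hX1
  have e4 : ∀ᶠ X : ℕ in Filter.atTop, (Real.log X) ^ (2 : ℝ) ≤ X := by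
    have h := (isLittleO_log_rpow_rpow_atTop (2 : ℝ) (zero_lt_one)).bound (zero_lt_one)
    have h' := t0.eventually (h.and (Filter.eventually_ge_atTop (1 : ℝ)))
    filter_upwards [h', e2] with X hX h1
    obtain ⟨hX1, hX2⟩ := hX
    have h0 : (0 : ℝ) ≤ (Real.log X) ^ (2 : ℝ) := Real.rpow_nonneg (by linarith) _
    rw [Real.norm_eq_abs, abs_of_nonneg h0, Real.rpow_one, Real.norm_eq_abs,
      abs_of_nonneg (by linarith), one_mul] at hX1
    exact hX1
  exact Filter.eventually_atTop.1 (e1.and (e2.and (e3.and e4)))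

/-- PROOF. For large `X`: `HA c X ≥ 1`, `RA c X ≥ 2`, `RB c a X ≥ 2`, `log X > 0`, so the product is positive; and
`log X (log log X)^(c+4) ≤ X`. -/
theorem HF_pos (c a : ℝ) (hc : 2 ≤ c) (ha : 3 ≤ a) : ∃ X₀ : ℕ, ∀ X : ℕ, X₀ ≤ X →
    0 < (HA c X : ℝ) * FA c a X ∧ HA c X ≤ X := by
  obtain ⟨X₀, hX₀⟩ := F3_aux_ev c
  refine ⟨X₀, fun X hX => ?_⟩
  obtain ⟨h1, h2, h3, h4⟩ := hX₀ X hX
  have hl0 : 0 < ll X := by linarith
  have hl1 : 1 ≤ ll X := by linarith
  have hLpos : 0 < Real.log X := by linarith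
  have h2c : (4 : ℝ) ≤ (ll X) ^ c := by
    calc (4 : ℝ) = (2 : ℝ) ^ (2 : ℝ) := by norm_num
      _ ≤ (ll X) ^ (2 : ℝ) := Real.rpow_le_rpow (by norm_num) h1 (by norm_num)
      _ ≤ (ll X) ^ c := Real.rpow_le_rpow_of_exponent_le hl1 hc
  have hRA4 : 4 ≤ RA c X := Nat.le_floor (by exact_mod_cast h2c)
  have hRAr : (4 : ℝ) ≤ (RA c X : ℝ) := by exact_mod_cast hRA4
  have hlogRA : 0 < Real.log (RA c X) := Real.log_pos (by linarith)
  have hLA : 0 < LA c a X := Nat.ceil_pos.2 (div_pos (mul_pos (by linarith) hl0) hlogRA)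
  have hRB : 1 < (RB c a X : ℝ) := by
    have : 1 < RB c a X := by
      unfold RB
      exact Nat.one_lt_pow (by omega) (by omega)
    exact_mod_cast this
  have hlogRB : 0 < Real.log (RB c a X) := Real.log_pos hRB
  have hFA : 0 < FA c a X := by
    unfold FA
    positivity
  have h4' : (1 : ℝ) ≤ (ll X) ^ (c + 4) := Real.one_le_rpow hl1 (by linarith)
  have hHA : 1 ≤ HA c X := by
    apply Nat.le_floor
    push_cast
    nlinarith
  refine ⟨?_, ?_⟩
  · have : (0 : ℝ) < (HA c X : ℝ) := by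
      have : 0 < HA c X := hHA
      exact_mod_cast this
    exact mul_pos this hFA
  · have : (HA c X : ℝ) ≤ X := by
      calc (HA c X : ℝ) ≤ Real.log X * (ll X) ^ (c + 4) :=
            Nat.floor_le (mul_nonneg hLpos.le (Real.rpow_nonneg hl0.le _))
        _ ≤ Real.log X * Real.log X := mul_le_mul_of_nonneg_left h3 hLpos.le
        _ = (Real.log X) ^ (2 : ℝ) := by
            rw [show (2 : ℝ) = ((2 : ℕ) : ℝ) by norm_num, Real.rpow_natCast]; ring
        _ ≤ X := h4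
    exact_mod_cast this

/-- PROOF. `c₀` from `WINB2`. Take `η = c₀² δ / 16` in `VARA2`, `w = max w₀ 2`, `W = primorial w`, and `WINB2` with this `W` and
`δ' = δ/(2 W)` for the classes `v < W` coprime to `W` (for other `v` use `v % W`). Let `B = c₀ HA FA`. An even `m ∈ [X, 2X]` outside the
exceptional sets of all the classes (total `≤ W δ' X = δX/2`) satisfies `model_lower`: `B ≤ ∑ gW fA(m - t)`. By `VARA2` and Chebyshev, the number of
`m` with `|∑ (fP - gW) fA(m - t)| ≥ B/2` is `≤ η X (HA FA)² / (B/2)² = 4 η X/c₀² = δX/4`. For the remaining even `m`: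
`∑ fP fA(m - t) ≥ B - B/2 > 0`. -/
theorem pos_of (a c : ℝ) (hc : 2 ≤ c) (ha : 3 ≤ a) (h1 : WINB2 a c) (h2 : VARA2 a c) (δ : ℝ) (hδ : 0 < δ) :
    ∃ X₀ : ℕ, ∀ X : ℕ, X₀ ≤ X →
      (#{m ∈ Icc X (2 * X) | Even m ∧
        ∑ t ∈ Icc 1 (HA c X), fP (HA c X) (t : ℤ) * fA c a X (m - t) ≤ 0} : ℝ) ≤ δ * X := by
  classical
  obtain ⟨c₀, hc₀, hwin⟩ := h1
  have hη : 0 < c₀ ^ 2 * δ / 16 := by positivity
  obtain ⟨w₀, hvar⟩ := h2 _ hη
  set w := max w₀ 2 with hw
  have hw2 : 2 ≤ w := le_max_right _ _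
  obtain ⟨X₁, hX₁⟩ := hvar w (le_max_left _ _)
  set W := primorial w with hW
  have hWpos : 0 < W := primorial_pos w
  have hWr : (0 : ℝ) < (W : ℝ) := by exact_mod_cast hWpos
  obtain ⟨X₂, hX₂⟩ := hwin W hWpos (δ / (2 * W)) (by positivity)
  obtain ⟨X₃, hX₃⟩ := HF_pos c a hc ha
  refine ⟨max X₁ (max X₂ (max X₃ 1)), fun X hX => ?_⟩
  have hXa : X₁ ≤ X := le_trans (le_max_left _ _) hX
  have hXb : X₂ ≤ X := le_trans (le_trans (le_max_left _ _) (le_max_right _ _)) hX
  have hXc : X₃ ≤ X := le_trans (le_trans (le_trans (le_max_left _ _) (le_max_right _ _))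
    (le_max_right _ _)) hX
  have hXd : 1 ≤ X := le_trans (le_trans (le_trans (le_max_right _ _) (le_max_right _ _))
    (le_max_right _ _)) hX
  obtain ⟨hHF, hHX⟩ := hX₃ X hXc
  have hV := hX₁ X hXa
  have hWin := hX₂ X hXb
  have hXr : (0 : ℝ) < (X : ℝ) := by exact_mod_cast hXd
  set H := HA c X with hH
  set B := c₀ * H * FA c a X with hB
  have hBpos : 0 < B := by
    rw [hB, mul_assoc]; exact mul_pos hc₀ hHF
  -- the exceptional sets
  set E : ℕ → Finset ℕ := fun v => {m ∈ Icc X (2 * X) |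
    ∑ n ∈ (Ico (m - H) m).filter (fun n => n ≡ v [MOD W]), fA c a X n < B / Nat.totient W} with hE
  set D : ℕ → ℝ := fun m => ∑ t ∈ Icc 1 H, (fP H (t : ℤ) - gW W H (t : ℤ)) * fA c a X (m - t) with hD
  set Z : Finset ℕ := {m ∈ Icc X (2 * X) | B / 2 ≤ |D m|} with hZ
  set V : Finset ℕ := {v ∈ range W | Nat.Coprime v W} with hVd
  have hEcard : ∀ v ∈ V, ((E v).card : ℝ) ≤ δ / (2 * W) * X := by
    intro v hv
    have hv' := (Finset.mem_filter.1 hv).2
    exact hWin v hv'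
  have hZcard : (Z.card : ℝ) ≤ δ / 4 * X := by
    have e1 : (Z.card : ℝ) * (B / 2) ^ 2 ≤ ∑ m ∈ Icc X (2 * X), (D m) ^ 2 := by
      calc (Z.card : ℝ) * (B / 2) ^ 2 = ∑ m ∈ Z, (B / 2) ^ 2 := by
            rw [Finset.sum_const, nsmul_eq_mul]
        _ ≤ ∑ m ∈ Z, (D m) ^ 2 := by
            apply Finset.sum_le_sum
            intro m hm
            have h := (Finset.mem_filter.1 hm).2
            rw [← sq_abs (D m)]
            exact pow_le_pow_left₀ (by positivity) h 2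
        _ ≤ _ := Finset.sum_le_sum_of_subset_of_nonneg (Finset.filter_subset _ _)
            (fun _ _ _ => sq_nonneg _)
    have e2 : (Z.card : ℝ) * (B / 2) ^ 2 ≤ c₀ ^ 2 * δ / 16 * X * ((H : ℝ) * FA c a X) ^ 2 :=
      e1.trans hV
    have e3 : c₀ ^ 2 * δ / 16 * X * ((H : ℝ) * FA c a X) ^ 2 = (δ / 4 * X) * (B / 2) ^ 2 := by
      rw [hB]; ring
    rw [e3] at e2
    exact le_of_mul_le_mul_right e2 (by positivity)
  have hsub : ({m ∈ Icc X (2 * X) | Even m ∧
      ∑ t ∈ Icc 1 H, fP H (t : ℤ) * fA c a X (m - t) ≤ 0} : Finset ℕ) ⊆ V.biUnion E ∪ Z := by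
    intro m hm
    obtain ⟨hm1, hm2, hm3⟩ := Finset.mem_filter.1 hm
    by_contra hcon
    rw [Finset.mem_union, not_or] at hcon
    obtain ⟨hc1, hc2⟩ := hcon
    have hmX : X ≤ m := (Finset.mem_Icc.1 hm1).1
    have key : B ≤ ∑ t ∈ Icc 1 H, gW W H (t : ℤ) * fA c a X (m - t) := by
      apply model_lower c a B hBpos.le X w m H hw2 hm2 (hHX.trans hmX)
      intro v hv
      have hv' : v % W ∈ V := by
        rw [hVd, Finset.mem_filter, Finset.mem_range]
        refine ⟨Nat.mod_lt _ hWpos, ?_⟩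
        have : Nat.gcd (v % W) W = Nat.gcd W v := (Nat.gcd_rec W v).symm
        rw [Nat.Coprime, this, Nat.gcd_comm]
        exact hv
      have h5 : m ∉ E (v % W) := fun h => hc1 (Finset.mem_biUnion.2 ⟨_, hv', h⟩)
      rw [hE] at h5
      simp only [Finset.mem_filter, not_and, not_lt] at h5
      have h6 := h5 hm1
      have h7 : (Ico (m - H) m).filter (fun n => n ≡ v % W [MOD W]) =
          (Ico (m - H) m).filter (fun n => n ≡ v [MOD W]) := by
        apply Finset.filter_congr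
        intro n _
        constructor
        · intro h; exact h.trans (Nat.mod_modEq v W)
        · intro h; exact h.trans (Nat.mod_modEq v W).symm
      rw [h7] at h6
      exact h6
    have hD1 : |D m| < B / 2 := by
      by_contra h
      exact hc2 (Finset.mem_filter.2 ⟨hm1, not_lt.1 h⟩)
    have hD2 : D m = ∑ t ∈ Icc 1 H, fP H (t : ℤ) * fA c a X (m - t) -
        ∑ t ∈ Icc 1 H, gW W H (t : ℤ) * fA c a X (m - t) := by
      rw [hD, ← Finset.sum_sub_distrib]
      apply Finset.sum_congr rfl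
      intro t _
      ring
    have := (abs_lt.1 hD1).1
    rw [hD2] at this
    linarith
  have hVcard : (V.card : ℝ) ≤ W := by
    have : V.card ≤ (range W).card := Finset.card_filter_le _ _
    rw [Finset.card_range] at this
    exact_mod_cast this
  calc (#{m ∈ Icc X (2 * X) | Even m ∧
        ∑ t ∈ Icc 1 H, fP H (t : ℤ) * fA c a X (m - t) ≤ 0} : ℝ)
      ≤ ((V.biUnion E ∪ Z).card : ℝ) := by exact_mod_cast Finset.card_le_card hsub
    _ ≤ ((V.biUnion E).card : ℝ) + (Z.card : ℝ) := by exact_mod_cast Finset.card_union_le _ _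
    _ ≤ (∑ v ∈ V, ((E v).card : ℝ)) + (Z.card : ℝ) := by
        have : (V.biUnion E).card ≤ ∑ v ∈ V, (E v).card := Finset.card_biUnion_le
        have h' : ((V.biUnion E).card : ℝ) ≤ ∑ v ∈ V, ((E v).card : ℝ) := by exact_mod_cast this
        linarith
    _ ≤ (∑ v ∈ V, δ / (2 * W) * X) + δ / 4 * X := by
        have := Finset.sum_le_sum hEcard
        linarith
    _ = (V.card : ℝ) * (δ / (2 * W) * X) + δ / 4 * X := by rw [Finset.sum_const, nsmul_eq_mul]
    _ ≤ (W : ℝ) * (δ / (2 * W) * X) + δ / 4 * X := by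
        have := mul_le_mul_of_nonneg_right hVcard (by positivity : 0 ≤ δ / (2 * W) * X)
        linarith
    _ ≤ δ * X := by
        have e : (W : ℝ) * (δ / (2 * W) * X) = δ / 2 * X := by field_simp
        rw [e]
        nlinarith
end Pool.Agent.E3
end

section

/-!
# F4: representations
-/

set_option autoImplicit false

namespace Pool.Agent.E3

open Finset
open Pool.Agent.Lib.MP_bae66e_nt.LL (fP gW nu)

/-- eventual inequalities -/
private theorem F4_aux_ev (c : ℝ) : ∃ X₀ : ℕ, ∀ X : ℕ, X₀ ≤ X → 2 ≤ ll X ∧ 1 ≤ Real.log X ∧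
    (ll X) ^ (c + 4) ≤ Real.log X ∧ 2 ≤ X := by
  have t1 : Filter.Tendsto (fun X : ℕ => Real.log (X : ℝ)) Filter.atTop Filter.atTop :=
    Real.tendsto_log_atTop.comp tendsto_natCast_atTop_atTop
  have t2 : Filter.Tendsto (fun X : ℕ => ll X) Filter.atTop Filter.atTop :=
    Real.tendsto_log_atTop.comp t1
  have e1 := t2.eventually_ge_atTop 2
  have e2 := t1.eventually_ge_atTop 1
  have e3 : ∀ᶠ X : ℕ in Filter.atTop, (ll X) ^ (c + 4) ≤ Real.log X := by
    have h := (isLittleO_log_rpow_rpow_atTop (c + 4) (zero_lt_one)).bound (zero_lt_one)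
    have h' := t1.eventually (h.and (Filter.eventually_ge_atTop (1 : ℝ)))
    filter_upwards [h', e1] with X hX h1
    obtain ⟨hX1, hX2⟩ := hX
    have h0 : (0 : ℝ) ≤ (ll X) ^ (c + 4) := Real.rpow_nonneg (by linarith) _
    have h3 : ‖Real.log (Real.log (X : ℝ)) ^ (c + 4)‖ = (ll X) ^ (c + 4) := by
      rw [Real.norm_eq_abs]; exact abs_of_nonneg h0
    rw [h3, Real.rpow_one, Real.norm_eq_abs, abs_of_nonneg (by linarith), one_mul] at hX1
    exact hX1
  have e4 := Filter.eventually_ge_atTop (2 : ℕ)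
  exact Filter.eventually_atTop.1 (e1.and (e2.and (e3.and e4)))

/-- PROOF. Some `t` has `fP (HA c X) t * fA c a X (m - t) ≠ 0`, so `t` is a prime `≤ HA c X` and `m - t = s q` with `s = r₁ r₂`,
`r₁ ∈ IS (RA c X)`, `r₂ ∈ IS (RB c a X)`, `q ∈ QS X`. -/
theorem rep_of_pos (c a : ℝ) (X m : ℕ)
    (h : 0 < ∑ t ∈ Icc 1 (HA c X), fP (HA c X) (t : ℤ) * fA c a X (m - t)) :
    ∃ p r₁ r₂ q : ℕ, p.Prime ∧ r₁.Prime ∧ r₂.Prime ∧ q.Prime ∧ m = p + r₁ * r₂ * q ∧
      p ≤ HA c X ∧ r₁ ≤ 2 * RA c X ∧ r₂ ≤ 2 * RB c a X := by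
  obtain ⟨t, ht, hne⟩ := Finset.exists_ne_zero_of_sum_ne_zero (ne_of_gt h)
  have h1 : fP (HA c X) (t : ℤ) ≠ 0 := left_ne_zero_of_mul hne
  have h2 : fA c a X (m - t) ≠ 0 := right_ne_zero_of_mul hne
  have hp : t.Prime := by
    by_contra hcon
    apply h1
    unfold fP
    rw [if_neg]
    rintro ⟨-, -, h3⟩
    apply hcon
    simpa using h3
  unfold fA fS at h2
  obtain ⟨s, hs, h3⟩ := Finset.exists_ne_zero_of_sum_ne_zero h2
  obtain ⟨q, hq, h4⟩ := Finset.exists_ne_zero_of_sum_ne_zero h3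
  have h5 : s * q = m - t := by
    by_contra hcon
    rw [if_neg hcon] at h4
    exact h4 rfl
  unfold SS at hs
  obtain ⟨⟨r₁, r₂⟩, hr, rfl⟩ := Finset.mem_image.1 hs
  obtain ⟨hr1, hr2⟩ := Finset.mem_product.1 hr
  simp only at hr1 hr2 h5
  unfold IS at hr1 hr2
  unfold QS at hq
  have memprI : ∀ {A B p : ℕ}, p ∈ Pool.Agent.Lib.MP_bae66e_nt.AP3.prI A B → p.Prime ∧ A < p ∧ p ≤ B := by
    intro A B p hp'
    simp only [Pool.Agent.Lib.MP_bae66e_nt.AP3.prI, Finset.mem_filter, Finset.mem_Ioc] at hp'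
    exact ⟨hp'.2, hp'.1.1, hp'.1.2⟩
  have a1 := memprI hr1
  have a2 := memprI hr2
  have a3 := memprI hq
  have hpos : 0 < r₁ * r₂ * q := Nat.mul_pos (Nat.mul_pos a1.1.pos a2.1.pos) a3.1.pos
  refine ⟨t, r₁, r₂, q, hp, a1.1, a2.1, a3.1, by omega, (Finset.mem_Icc.1 ht).2, a1.2.2, a2.2.2⟩

/-- PROOF. `L = log X`, `l = log log X`, both large. `HA c X ≤ L l^(c+4)`. `2 RA c X ≤ 2 l^c ≤ l^(c+1)`. `RB c a X = RA^ℓ` with
`ℓ ≤ a l / log RA + 1`, so `RB ≤ exp (a l) RA ≤ L^a l^c`, `2 RB ≤ L^(a+1)`. All the right sides increase when `X` is replaced by `m ≥ X` and the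
exponents by `C = max (c+4) (a+1)`. -/
theorem sizes (c a : ℝ) (hc : 2 ≤ c) (ha : 3 ≤ a) : ∃ X₀ : ℕ, ∀ X m : ℕ, X₀ ≤ X → X ≤ m →
    (HA c X : ℝ) ≤ Real.log m * (Real.log (Real.log m)) ^ (max (c + 4) (a + 1)) ∧
    ((2 * RA c X : ℕ) : ℝ) ≤ (Real.log (Real.log m)) ^ (max (c + 4) (a + 1)) ∧
    ((2 * RB c a X : ℕ) : ℝ) ≤ (Real.log m) ^ (max (c + 4) (a + 1)) := by
  obtain ⟨X₀, hX₀⟩ := F4_aux_ev c
  refine ⟨X₀, fun X m hX hm => ?_⟩
  obtain ⟨h1, h2, h3, h4⟩ := hX₀ X hX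
  set C := max (c + 4) (a + 1) with hC
  have hC1 : c + 4 ≤ C := le_max_left _ _
  have hC2 : a + 1 ≤ C := le_max_right _ _
  have hXpos : (0 : ℝ) < X := by
    have : 0 < X := by omega
    exact_mod_cast this
  have hmX : (X : ℝ) ≤ m := by exact_mod_cast hm
  have hL : Real.log X ≤ Real.log m := Real.log_le_log hXpos hmX
  have hl : ll X ≤ Real.log (Real.log m) := Real.log_le_log (by linarith) hL
  have hl0 : 0 < ll X := by linarith
  have hl1 : 1 ≤ ll X := by linarith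
  have hRA : (RA c X : ℝ) ≤ (ll X) ^ c := Nat.floor_le (Real.rpow_nonneg hl0.le _)
  have h2c : (4 : ℝ) ≤ (ll X) ^ c := by
    calc (4 : ℝ) = (2 : ℝ) ^ (2 : ℝ) := by norm_num
      _ ≤ (ll X) ^ (2 : ℝ) := Real.rpow_le_rpow (by norm_num) h1 (by norm_num)
      _ ≤ (ll X) ^ c := Real.rpow_le_rpow_of_exponent_le hl1 hc
  have hRA4 : 4 ≤ RA c X := Nat.le_floor (by exact_mod_cast h2c)
  have hRAr : (4 : ℝ) ≤ (RA c X : ℝ) := by exact_mod_cast hRA4
  have hlogRA : 0 < Real.log (RA c X) := Real.log_pos (by linarith)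
  refine ⟨?_, ?_, ?_⟩
  · have e1 : (HA c X : ℝ) ≤ Real.log X * (ll X) ^ (c + 4) :=
      Nat.floor_le (mul_nonneg (by linarith) (Real.rpow_nonneg hl0.le _))
    refine e1.trans ?_
    apply mul_le_mul hL _ (Real.rpow_nonneg hl0.le _) (by linarith)
    calc (ll X) ^ (c + 4) ≤ (ll X) ^ C := Real.rpow_le_rpow_of_exponent_le hl1 hC1
      _ ≤ _ := Real.rpow_le_rpow hl0.le hl (by linarith)
  · push_cast
    calc (2 : ℝ) * (RA c X : ℝ) ≤ ll X * (ll X) ^ c := by
          apply mul_le_mul h1 hRA (by positivity) hl0.le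
      _ = (ll X) ^ (c + 1) := by rw [Real.rpow_add hl0, Real.rpow_one, mul_comm]
      _ ≤ (ll X) ^ C := Real.rpow_le_rpow_of_exponent_le hl1 (by linarith)
      _ ≤ _ := Real.rpow_le_rpow hl0.le hl (by linarith)
  · push_cast
    have hLpos : 0 < Real.log X := by linarith
    have hLA : (LA c a X : ℝ) ≤ a * ll X / Real.log (RA c X) + 1 :=
      (Nat.ceil_lt_add_one (div_nonneg (mul_nonneg (by linarith) hl0.le) hlogRA.le)).le
    have hRB : (RB c a X : ℝ) ≤ (Real.log X) ^ a * (ll X) ^ c := by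
      unfold RB
      push_cast
      have e1 : (RA c X : ℝ) ^ (LA c a X) = Real.exp ((LA c a X : ℝ) * Real.log (RA c X)) := by
        rw [Real.exp_nat_mul, Real.exp_log (by linarith)]
      have e2 : (Real.log X) ^ a = Real.exp (a * ll X) := by
        rw [Real.rpow_def_of_pos hLpos, mul_comm]; rfl
      have e3 : Real.exp (Real.log (RA c X)) = (RA c X : ℝ) := Real.exp_log (by linarith)
      rw [e1, e2]
      calc Real.exp ((LA c a X : ℝ) * Real.log (RA c X))
          ≤ Real.exp (a * ll X + Real.log (RA c X)) := by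
            apply Real.exp_le_exp.2
            calc (LA c a X : ℝ) * Real.log (RA c X)
                ≤ (a * ll X / Real.log (RA c X) + 1) * Real.log (RA c X) :=
                  mul_le_mul_of_nonneg_right hLA hlogRA.le
              _ = a * ll X + Real.log (RA c X) := by field_simp
        _ = Real.exp (a * ll X) * (RA c X : ℝ) := by rw [Real.exp_add, e3]
        _ ≤ _ := mul_le_mul_of_nonneg_left hRA (Real.exp_pos _).le
    calc (2 : ℝ) * (RB c a X : ℝ) ≤ 2 * ((Real.log X) ^ a * (ll X) ^ c) :=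
          mul_le_mul_of_nonneg_left hRB (by norm_num)
      _ = (Real.log X) ^ a * (2 * (ll X) ^ c) := by ring
      _ ≤ (Real.log X) ^ a * Real.log X := by
          apply mul_le_mul_of_nonneg_left _ (Real.rpow_nonneg hLpos.le _)
          refine le_trans ?_ h3
          have h16 : (2 : ℝ) ≤ (ll X) ^ (4 : ℝ) := by
            calc (2 : ℝ) ≤ (2 : ℝ) ^ (4 : ℝ) := by norm_num
              _ ≤ (ll X) ^ (4 : ℝ) := Real.rpow_le_rpow (by norm_num) h1 (by norm_num)
          rw [Real.rpow_add hl0, mul_comm]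
          exact mul_le_mul_of_nonneg_left h16 (Real.rpow_nonneg hl0.le _)
      _ = (Real.log X) ^ (a + 1) := by rw [Real.rpow_add hLpos, Real.rpow_one]
      _ ≤ (Real.log X) ^ C := Real.rpow_le_rpow_of_exponent_le h2 hC2
      _ ≤ _ := Real.rpow_le_rpow hLpos.le hL (by linarith)

end Pool.Agent.E3
end

section

/-!
# F5: the theorem
-/

set_option autoImplicit false

namespace Pool.Agent.E3

open Finset

/-- PROOF. Induction on `N` (strong): for `N ≥ 2 X₀` let `X = N / 2 + 1 ≤ N` (so `X ≥ X₀`); the bad `m ≤ N` are either `≤ N/2` or in `[X, 2X]`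
(`N ≤ 2X`). So `f(N) ≤ f(N/2) + δ (N/2 + 1)` where `f(N)` is the number of bad `m ≤ N`; with `f(N) ≤ 2X₀` for `N ≤ 2X₀`:
`f(N) ≤ 2 X₀ + δ N + 2 δ log₂ N ≤ 2X₀ + 3 δ N`. -/
theorem dyadic_bad (P : ℕ → Prop) [DecidablePred P] (δ : ℝ) (hδ : 0 < δ) (X₀ : ℕ)
    (h : ∀ X : ℕ, X₀ ≤ X → (#{m ∈ Icc X (2 * X) | P m} : ℝ) ≤ δ * X) :
    ∃ N₀ : ℕ, ∀ N : ℕ, N₀ ≤ N → (#{m ∈ Icc 1 N | P m} : ℝ) ≤ 4 * δ * N := by
  have key : ∀ N : ℕ, (#{m ∈ Icc 1 N | P m} : ℝ) ≤ 2 * X₀ + 3 * δ * N := by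
    intro N
    induction N using Nat.strong_induction_on with
    | _ N ih =>
      rcases Nat.eq_zero_or_pos N with h0 | h0
      · subst h0
        simp
      by_cases hN : N < 2 * X₀
      · have h1 : #{m ∈ Icc 1 N | P m} ≤ N := by
          refine (Finset.card_filter_le _ _).trans ?_
          simp
        have h2 : (#{m ∈ Icc 1 N | P m} : ℝ) ≤ N := by exact_mod_cast h1
        have h3 : (N : ℝ) ≤ 2 * X₀ := by exact_mod_cast hN.le
        have h4 : 0 ≤ 3 * δ * N := by positivity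
        linarith
      · have h1 : #{m ∈ Icc 1 N | P m} ≤ #{m ∈ Icc 1 (N / 2) | P m} +
            #{m ∈ Icc (N / 2 + 1) (2 * (N / 2 + 1)) | P m} := by
          refine le_trans (Finset.card_le_card ?_) (Finset.card_union_le _ _)
          intro m hm
          rw [Finset.mem_filter, Finset.mem_Icc] at hm
          rw [Finset.mem_union, Finset.mem_filter, Finset.mem_filter, Finset.mem_Icc, Finset.mem_Icc]
          by_cases h2 : m ≤ N / 2
          · exact Or.inl ⟨⟨hm.1.1, h2⟩, hm.2⟩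
          · exact Or.inr ⟨⟨by omega, by omega⟩, hm.2⟩
        have h2 : (#{m ∈ Icc 1 N | P m} : ℝ) ≤ (#{m ∈ Icc 1 (N / 2) | P m} : ℝ) +
            (#{m ∈ Icc (N / 2 + 1) (2 * (N / 2 + 1)) | P m} : ℝ) := by exact_mod_cast h1
        have h3 := ih (N / 2) (by omega)
        have h4 := h (N / 2 + 1) (by omega)
        have h5 : ((N / 2 : ℕ) : ℝ) ≤ (N : ℝ) / 2 := Nat.cast_div_le
        have h6 : (((N / 2 + 1 : ℕ)) : ℝ) ≤ (N : ℝ) / 2 + 1 := by push_cast; linarith
        have h7 : (1 : ℝ) ≤ N := by exact_mod_cast h0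
        have h8 : 3 * δ * ((N / 2 : ℕ) : ℝ) ≤ 3 * δ * ((N : ℝ) / 2) :=
          mul_le_mul_of_nonneg_left h5 (by positivity)
        have h9 : δ * (((N / 2 + 1 : ℕ)) : ℝ) ≤ δ * ((N : ℝ) / 2 + 1) :=
          mul_le_mul_of_nonneg_left h6 hδ.le
        have h10 : δ * 1 ≤ δ * N := mul_le_mul_of_nonneg_left h7 hδ.le
        nlinarith
  refine ⟨⌈2 * (X₀ : ℝ) / δ⌉₊, fun N hN => (key N).trans ?_⟩
  have h1 : 2 * (X₀ : ℝ) / δ ≤ N := (Nat.le_ceil _).trans (by exact_mod_cast hN)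
  rw [div_le_iff₀ hδ] at h1
  linarith

/-- PROOF. `C = max (c+4) (a+1)`. `pos_of` with `δ/4`, `rep_of_pos`, `sizes`, `dyadic_bad` (with `P m` the property in `FINAL2`: `m` even and not
representable; for `m ∈ [X, 2X]`, `X ≥ X₀`, a bad `m` is in the set of `pos_of`). -/
theorem final2_of (a c : ℝ) (hc : 2 ≤ c) (ha : 3 ≤ a) (h1 : WINB2 a c) (h2 : VARA2 a c) : FINAL2 := by
  classical
  refine ⟨max (c + 4) (a + 1), lt_max_of_lt_left (by linarith), fun δ hδ => ?_⟩
  obtain ⟨X1, hX1⟩ := pos_of a c hc ha h1 h2 (δ / 4) (by positivity)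
  obtain ⟨X2, hX2⟩ := sizes c a hc ha
  have h4 : ∀ N : ℕ, δ * N = 4 * (δ / 4) * N := fun N => by ring
  simp only [h4]
  refine @dyadic_bad _ _ (δ / 4) (by positivity) (max X1 X2) ?_
  intro X hX
  refine le_trans ?_ (hX1 X ((le_max_left _ _).trans hX))
  rw [Nat.cast_le]
  apply Finset.card_le_card
  intro m hm
  obtain ⟨hm1, hm2, hm3⟩ := Finset.mem_filter.1 hm
  rw [Finset.mem_filter]
  refine ⟨hm1, hm2, ?_⟩
  by_contra hcon
  push Not at hcon
  apply hm3
  obtain ⟨p, r₁, r₂, q, hp, hr1, hr2, hq, he, b1, b2, b3⟩ := rep_of_pos c a X m hcon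
  obtain ⟨s1, s2, s3⟩ := hX2 X m ((le_max_right _ _).trans hX) (Finset.mem_Icc.1 hm1).1
  refine ⟨p, r₁, r₂, q, hp, hr1, hr2, hq, he, ?_, ?_, ?_⟩
  · exact le_trans (by exact_mod_cast b1) s1
  · exact le_trans (Nat.cast_le.2 b2) s2
  · exact le_trans (Nat.cast_le.2 b3) s3

end Pool.Agent.E3
end
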