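import Mathlib.NumberTheory.MulChar.Lemmas
import Pool.Agent.Lib.MP_bae66e_nt.Mg.G017
import Pool.Agent.Lib.MP_bae66e_nt.Mg.G006
import Pool.Agent.Lib.MP_bae66e_nt.Mg.G008
import Pool.Agent.Lib.MP_bae66e_nt.Mg.G032
import Pool.Agent.Lib.MP_bae66e_nt.Mg.G029
import Pool.Agent.Lib.MP_bae66e_nt.Mg.G103

section

/-!
# W4: short and long windows of the quotients `q / s`, one character
-/

set_option autoImplicit false

namespace Pool.Agent.E3

open Finset MeasureTheory Real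
open Pool.Agent.Lib.MP_bae66e_nt.AP3 (prI mem_prI)

/-- `1 / (log R log X)` -/
noncomputable def FJ (R X : ℕ) : ℝ := 1 / (Real.log R * Real.log X)

/-- the Dirichlet polynomial of `r` and `q` -/
noncomputable def PJ {W : ℕ} (χ : DirichletCharacter ℂ W) (R X : ℕ) (t : ℝ) : ℂ :=
  PR χ R t * PQ χ X X t

/-- the window of width `d` of the quotients `q / s`, twisted by `χ` -/
noncomputable def WXJ {W : ℕ} (χ : DirichletCharacter ℂ W) (R X : ℕ) (d x : ℝ) : ℂ :=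
  ∑ s ∈ IS R, ∑ q ∈ QS X, (starRingEnd ℂ (ch χ s) * ch χ q) *
    ((om X q / (s * q) * gsn d (x - Real.log ((q : ℝ) / s)) : ℝ) : ℂ)

theorem J4_Ylow (X : ℕ) (hX : 8 ≤ X) : (X : ℝ) ^ (0.99 : ℝ) ≤ X := by
  have h1 : (1 : ℝ) ≤ X := by exact_mod_cast (by omega : 1 ≤ X)
  calc (X : ℝ) ^ (0.99 : ℝ) ≤ (X : ℝ) ^ (1 : ℝ) := Real.rpow_le_rpow_of_exponent_le h1 (by norm_num)
    _ = X := Real.rpow_one _

private theorem J4_logs {R X : ℕ} (hX : 8 ≤ X) (hR : 2 ≤ R) : 0 < Real.log R ∧ 0 < Real.log X := by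
  have e1 : (1 : ℝ) < R := by exact_mod_cast (by omega : 1 < R)
  have e3 : (1 : ℝ) < X := by exact_mod_cast (by omega : 1 < X)
  exact ⟨Real.log_pos e1, Real.log_pos e3⟩

theorem FJ_pos {R X : ℕ} (hX : 8 ≤ X) (hR : 2 ≤ R) : 0 < FJ R X := by
  obtain ⟨h1, h2⟩ := J4_logs hX hR
  unfold FJ
  positivity

private theorem J4_mass_q : ∃ C : ℝ, 1 ≤ C ∧ ∀ (X : ℕ) (Y : ℝ), 8 ≤ X →
    (X : ℝ) ^ (0.99 : ℝ) ≤ Y → Y ≤ X → ∑ q ∈ QS X, om Y q / q ≤ C / Real.log X := by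
  obtain ⟨C, hC, h⟩ := prime_window_le 1 one_pos
  refine ⟨2 * C, by linarith, fun X Y hX hY1 hY2 => ?_⟩
  obtain ⟨hY0, hlY, -, -⟩ := logY_bounds X Y (by omega) hY1 hY2
  have hX8 : (8 : ℝ) ≤ X := by exact_mod_cast hX
  have hlX : 2 ≤ Real.log X := by
    have e1 : Real.log 8 ≤ Real.log X := Real.log_le_log (by norm_num) hX8
    have e2 : Real.log 8 = 3 * Real.log 2 := by
      rw [show (8 : ℝ) = 2 ^ 3 by norm_num, Real.log_pow]
      norm_num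
    have e3 := Real.log_two_gt_d9
    linarith
  have hx1 : 1 ≤ Real.log Y := by linarith
  have h1 : ∑ q ∈ QS X, om Y q / q ≤ ∑ p ∈ prI 0 (X ^ 2), gs 1 (Real.log Y) (Real.log p) / p := by
    refine Finset.sum_le_sum_of_subset_of_nonneg (f := fun q : ℕ => om Y q / q) ?_ ?_
    · intro p hp
      rw [QS, mem_prI] at hp
      rw [mem_prI]
      exact ⟨by omega, hp.2⟩
    · intro p _ _
      exact div_nonneg (Real.exp_pos _).le (Nat.cast_nonneg p)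
  refine h1.trans ((h (X ^ 2) (Real.log Y) hx1).trans ?_)
  rw [div_le_div_iff₀ (by linarith) (by linarith)]
  nlinarith

theorem mass_J : ∃ C : ℝ, 1 ≤ C ∧ ∀ R X : ℕ, 8 ≤ X → 2 ≤ R →
    ∑ s ∈ IS R, ∑ q ∈ QS X, om X q / (s * q) ≤ C * FJ R X := by
  obtain ⟨C₁, hC₁, h1⟩ := recip_IS
  obtain ⟨C₂, hC₂, h2⟩ := J4_mass_q
  refine ⟨C₁ * C₂, one_le_mul_of_one_le_of_one_le hC₁ hC₂, fun R X hX hR => ?_⟩
  obtain ⟨g1, g3⟩ := J4_logs hX hR
  have e1 := (h1 R hR).1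
  have e3 := h2 X X hX (J4_Ylow X hX) le_rfl
  have e4 : ∑ s ∈ IS R, ∑ q ∈ QS X, om X q / (s * q) =
      (∑ r ∈ IS R, (1 / r : ℝ)) * ∑ q ∈ QS X, om X q / q := by
    rw [Finset.sum_mul_sum]
    refine Finset.sum_congr rfl fun r _ => Finset.sum_congr rfl fun q _ => ?_
    rw [div_mul_div_comm, one_mul]
  have f3 : 0 ≤ ∑ q ∈ QS X, om X q / q :=
    Finset.sum_nonneg fun q _ => div_nonneg (Real.exp_pos _).le (Nat.cast_nonneg q)
  rw [e4]
  calc (∑ r ∈ IS R, (1 / r : ℝ)) * ∑ q ∈ QS X, om X q / q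
      ≤ (C₁ / Real.log R) * (C₂ / Real.log X) := mul_le_mul e1 e3 f3 (by positivity)
    _ = C₁ * C₂ * FJ R X := by
        unfold FJ
        field_simp

theorem PJ_norm : ∃ C : ℝ, 1 ≤ C ∧ ∀ R X : ℕ, 8 ≤ X → 2 ≤ R →
    ∀ (W : ℕ) (χ : DirichletCharacter ℂ W) (t : ℝ), ‖PJ χ R X t‖ ≤ C * FJ R X := by
  obtain ⟨C₁, hC₁, h1⟩ := PR_norm_le
  obtain ⟨C₂, hC₂, h2⟩ := PQ_norm_le
  refine ⟨C₁ * C₂, one_le_mul_of_one_le_of_one_le hC₁ hC₂, fun R X hX hR W χ t => ?_⟩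
  obtain ⟨g1, g3⟩ := J4_logs hX hR
  have e1 := h1 W χ R t hR
  have e3 := h2 W χ X X t hX (J4_Ylow X hX) le_rfl
  unfold PJ
  rw [norm_mul]
  calc ‖PR χ R t‖ * ‖PQ χ X X t‖
      ≤ (C₁ / Real.log R) * (C₂ / Real.log X) := mul_le_mul e1 e3 (norm_nonneg _) (by positivity)
    _ = C₁ * C₂ * FJ R X := by
        unfold FJ
        field_simp

private theorem J4_conj_ph (u x : ℝ) : starRingEnd ℂ (ph u x) = ph u (-x) := by
  unfold ph
  rw [← Complex.exp_conj]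
  congr 1
  rw [map_mul, Complex.conj_I, Complex.conj_ofReal]
  push_cast
  ring

private theorem J4_ph_add (u x y : ℝ) : ph u (x + y) = ph u x * ph u y := by
  unfold ph
  rw [← Complex.exp_add]
  congr 1
  push_cast
  ring

/-- the Dirichlet polynomial of the quotients -/
theorem PJ_quot {W : ℕ} (χ : DirichletCharacter ℂ W) (R X : ℕ) (t : ℝ) :
    starRingEnd ℂ (PR χ R t) * PQ χ X X t = ∑ s ∈ IS R, ∑ q ∈ QS X,
      (starRingEnd ℂ (ch χ s) * ch χ q) * ((om X q / (s * q) : ℝ) : ℂ) * ph t (Real.log ((q : ℝ) / s)) := by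
  unfold PR DP PQ WIN
  rw [map_sum, Finset.sum_mul_sum]
  refine Finset.sum_congr rfl fun s hs => Finset.sum_congr rfl fun q hq => ?_
  have hs0 : (0 : ℝ) < s := by
    have := (mem_prI.mp hs).2.pos
    exact_mod_cast this
  have hq0 : (0 : ℝ) < q := by
    have := (mem_prI.mp hq).2.pos
    exact_mod_cast this
  rw [Real.log_div hq0.ne' hs0.ne', sub_eq_add_neg, J4_ph_add, ← J4_conj_ph, map_mul, map_mul,
    Complex.conj_ofReal]
  unfold om
  push_cast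
  ring

theorem PJ_quot_norm {W : ℕ} (χ : DirichletCharacter ℂ W) (R X : ℕ) (t : ℝ) :
    ‖starRingEnd ℂ (PR χ R t) * PQ χ X X t‖ = ‖PJ χ R X t‖ := by
  unfold PJ
  rw [norm_mul, norm_mul, RCLike.norm_conj]

/-- PROOF. `planch2` with the index set `IS R ×ˢ QS X`, `v (s, q) = log (q/s)`. -/
theorem WXJ_planch {W : ℕ} (χ : DirichletCharacter ℂ W) (R X : ℕ) (d l : ℝ) (hd : 0 < d) (hl : 0 < l) :
    Integrable (fun x : ℝ => ‖WXJ χ R X d x - WXJ χ R X l x‖ ^ 2) ∧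
    Integrable (fun y : ℝ => (Real.exp (-(d ^ 2 * y ^ 2 / 2)) - Real.exp (-(l ^ 2 * y ^ 2 / 2))) ^ 2
      * ‖PJ χ R X y‖ ^ 2) ∧
    ∫ x : ℝ, ‖WXJ χ R X d x - WXJ χ R X l x‖ ^ 2
      = ∫ y : ℝ, (Real.exp (-(d ^ 2 * y ^ 2 / 2)) - Real.exp (-(l ^ 2 * y ^ 2 / 2))) ^ 2
          * ‖PJ χ R X y‖ ^ 2 := by
  set I : Finset (ℕ × ℕ) := IS R ×ˢ QS X with hI
  let c : ℕ × ℕ → ℂ := fun p => (starRingEnd ℂ (ch χ p.1) * ch χ p.2) * ((om X p.2 / (p.1 * p.2) : ℝ) : ℂ)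
  let v : ℕ × ℕ → ℝ := fun p => Real.log ((p.2 : ℝ) / p.1)
  have h1 : ∀ x : ℝ, WXJ χ R X d x - WXJ χ R X l x =
      ∑ i ∈ I, c i * ((gsn d (x - v i) - gsn l (x - v i) : ℝ) : ℂ) := by
    intro x
    unfold WXJ
    rw [← Finset.sum_sub_distrib, hI, Finset.sum_product]
    refine Finset.sum_congr rfl fun s _ => ?_
    rw [← Finset.sum_sub_distrib]
    refine Finset.sum_congr rfl fun q _ => ?_
    simp only [c, v]
    push_cast
    ring
  have h2 : ∀ y : ℝ, ‖PJ χ R X y‖ = ‖∑ i ∈ I, c i * ph y (v i)‖ := by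
    intro y
    rw [← PJ_quot_norm, PJ_quot, hI, Finset.sum_product]
  have h := planch2 I c v d l hd hl
  simp only [h1, h2]
  exact h

/-- PROOF. `C = C₀²` with `C₀` from `PJ_norm`. By `WX_planch` split the integral over `y` at `|y| = T`. For `|y| < T`:
`0 ≤ exp (- d²y²/2) - exp (- l²y²/2) ≤ 1 - exp (- l²y²/2) ≤ l² T²/2 = T^(-2)/2`, and `‖PPP‖² ≤ C FG²`: together
`≤ 2 T · T^(-4)/4 · C FG² ≤ C FG²/T`. For `|y| ≥ T`: the square is `≤ exp (- d²y²) = exp (- (d y)²)` (`0 ≤ a - b ≤ a`) and the set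
`{T ≤ |y|}` is contained in `{T₀ ≤ |y|}`: the hypothesis (integrability of `exp (- (d y)²) ‖PPP‖²` by `gauss_integrable_of_bounded`,
`PR_continuous`, `PQ_continuous`). -/
theorem char_window_J : ∃ C : ℝ, 1 ≤ C ∧ ∀ (R X : ℕ), 8 ≤ X → 2 ≤ R →
    ∀ (W : ℕ) (χ : DirichletCharacter ℂ W) (T₀ T d η : ℝ), 1 ≤ T → T₀ ≤ T → 0 < d → d ≤ 1 / T ^ 2 →
      ∫ t in {t : ℝ | T₀ ≤ |t|}, Real.exp (-(d * t) ^ 2) * ‖PJ χ R X t‖ ^ 2 ≤ η * (FJ R X) ^ 2 →
      ∫ x : ℝ, ‖WXJ χ R X d x - WXJ χ R X (1 / T ^ 2) x‖ ^ 2 ≤ (C / T + η) * (FJ R X) ^ 2 := by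
  obtain ⟨C, hC1, hPPP⟩ := PJ_norm
  refine ⟨C ^ 2, one_le_pow₀ hC1, ?_⟩
  intro R X hX8 hR2 W χ T₀ T d η hT1 hT0T hd0 hdl hcoreX
  have hT0 : 0 < T := by linarith
  set l : ℝ := 1 / T ^ 2 with hl
  have hl0 : 0 < l := by positivity
  obtain ⟨_, hJ2, hJ3⟩ := WXJ_planch χ R X d l hd0 hl0
  set F : ℝ → ℝ := fun y => ‖PJ χ R X y‖ ^ 2 with hF
  have hFc : Continuous F := by
    simp only [hF, PJ]
    exact (((PR_continuous χ _).mul (PQ_continuous χ _ _)).norm).pow 2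
  have hF0 : ∀ y, 0 ≤ F y := fun y => by simp only [hF]; positivity
  have hFb : ∀ y, F y ≤ C ^ 2 * (FJ R X) ^ 2 := by
    intro y
    have h := hPPP R X hX8 hR2 W χ y
    simp only [hF]
    calc _ ≤ (C * FJ R X) ^ 2 := pow_le_pow_left₀ (norm_nonneg _) h 2
      _ = _ := by ring
  have hFb' : ∀ y, |F y| ≤ C ^ 2 * (FJ R X) ^ 2 := fun y => by
    rw [abs_of_nonneg (hF0 y)]; exact hFb y
  rw [hJ3]
  -- pointwise bound
  set S : Set ℝ := {t : ℝ | T₀ ≤ |t|} with hS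
  have hSm : MeasurableSet S := measurableSet_le measurable_const measurable_abs
  set c₀ : ℝ := (1 / (2 * T ^ 2)) ^ 2 * (C ^ 2 * (FJ R X) ^ 2) with hc₀
  have hc₀0 : 0 ≤ c₀ := by positivity
  have hpt : ∀ y : ℝ, (Real.exp (-(d ^ 2 * y ^ 2 / 2)) - Real.exp (-(l ^ 2 * y ^ 2 / 2))) ^ 2 * F y
      ≤ (Set.Icc (-T) T).indicator (fun _ => c₀) y
        + S.indicator (fun y => Real.exp (-(d * y) ^ 2) * F y) y := by
    intro y
    have hdiff0 : 0 ≤ Real.exp (-(d ^ 2 * y ^ 2 / 2)) - Real.exp (-(l ^ 2 * y ^ 2 / 2)) := by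
      have h1 : d ^ 2 * y ^ 2 / 2 ≤ l ^ 2 * y ^ 2 / 2 := by
        have : d ^ 2 ≤ l ^ 2 := pow_le_pow_left₀ hd0.le hdl 2
        have := mul_le_mul_of_nonneg_right this (sq_nonneg y)
        linarith
      have := Real.exp_le_exp.mpr (neg_le_neg h1)
      linarith
    by_cases hy : |y| < T
    · have hyI : y ∈ Set.Icc (-T) T := by
        rw [abs_lt] at hy
        exact ⟨hy.1.le, hy.2.le⟩
      rw [Set.indicator_of_mem hyI]
      have h2 : 0 ≤ S.indicator (fun y => Real.exp (-(d * y) ^ 2) * F y) y :=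
        Set.indicator_nonneg (fun y _ => mul_nonneg (Real.exp_pos _).le (hF0 y)) y
      have h3 : Real.exp (-(d ^ 2 * y ^ 2 / 2)) - Real.exp (-(l ^ 2 * y ^ 2 / 2)) ≤ 1 / (2 * T ^ 2) := by
        have h4 : Real.exp (-(d ^ 2 * y ^ 2 / 2)) ≤ 1 := by
          rw [Real.exp_le_one_iff]
          have : 0 ≤ d ^ 2 * y ^ 2 / 2 := by positivity
          linarith
        have h5 : 1 - l ^ 2 * y ^ 2 / 2 ≤ Real.exp (-(l ^ 2 * y ^ 2 / 2)) := by
          have := Real.add_one_le_exp (-(l ^ 2 * y ^ 2 / 2))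
          linarith
        have h6 : y ^ 2 ≤ T ^ 2 := by
          rw [← sq_abs y]
          exact pow_le_pow_left₀ (abs_nonneg _) hy.le 2
        have h7 : l ^ 2 * y ^ 2 / 2 ≤ 1 / (2 * T ^ 2) := by
          have h8 : l ^ 2 * y ^ 2 ≤ l ^ 2 * T ^ 2 := mul_le_mul_of_nonneg_left h6 (by positivity)
          have h9 : l ^ 2 * T ^ 2 / 2 = 1 / (2 * T ^ 2) := by
            rw [hl]
            field_simp
          linarith
        linarith
      have h10 := pow_le_pow_left₀ hdiff0 h3 2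
      have h11 := mul_le_mul h10 (hFb y) (hF0 y) (by positivity)
      linarith
    · have hy' : T ≤ |y| := not_lt.mp hy
      have hyS : y ∈ S := hT0T.trans hy'
      rw [Set.indicator_of_mem hyS]
      have h2 : 0 ≤ (Set.Icc (-T) T).indicator (fun _ => c₀) y := Set.indicator_nonneg (fun _ _ => hc₀0) y
      have h3 : (Real.exp (-(d ^ 2 * y ^ 2 / 2)) - Real.exp (-(l ^ 2 * y ^ 2 / 2))) ^ 2 ≤ Real.exp (-(d * y) ^ 2) := by
        have h4 : Real.exp (-(d ^ 2 * y ^ 2 / 2)) - Real.exp (-(l ^ 2 * y ^ 2 / 2)) ≤ Real.exp (-(d ^ 2 * y ^ 2 / 2)) := by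
          have := Real.exp_pos (-(l ^ 2 * y ^ 2 / 2))
          linarith
        refine (pow_le_pow_left₀ hdiff0 h4 2).trans (le_of_eq ?_)
        rw [← Real.exp_nat_mul]
        congr 1
        push_cast
        ring
      have h5 := mul_le_mul_of_nonneg_right h3 (hF0 y)
      linarith
  have hi1 : Integrable (fun y => (Set.Icc (-T) T).indicator (fun _ => c₀) y) := by
    rw [integrable_indicator_iff measurableSet_Icc]
    exact integrableOn_const (by simp)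
  have hi2 : Integrable (fun y => S.indicator (fun y => Real.exp (-(d * y) ^ 2) * F y) y) :=
    (gauss_integrable_of_bounded d _ hd0 F hFc hFb').indicator hSm
  have hmono := integral_mono hJ2 (hi1.add hi2) hpt
  refine hmono.trans ?_
  rw [integral_add' hi1 hi2, integral_indicator hSm, integral_indicator measurableSet_Icc, setIntegral_const,
    Real.volume_real_Icc_of_le (by linarith), smul_eq_mul]
  have hA : (T - -T) * c₀ ≤ C ^ 2 / T * (FJ R X) ^ 2 := by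
    have h1 : (T - -T) * c₀ = C ^ 2 / (2 * T ^ 3) * (FJ R X) ^ 2 := by
      rw [hc₀]
      field_simp
      ring
    rw [h1]
    refine mul_le_mul_of_nonneg_right ?_ (by positivity)
    refine div_le_div_of_nonneg_left (by positivity) hT0 ?_
    have h2 : T ≤ T ^ 3 := by nlinarith [mul_self_nonneg (T - 1)]
    linarith
  linarith

end Pool.Agent.E3
end

section

/-!
# The Hardy-Littlewood formula for almost all `m` and its multiples `s m = t + q`: definitions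

`m ∈ [M, 2M]`, `R` between `(log M)^(a - 1/2)` and `(log M)^(a + 1/2)` (`EF.PX a R M`), `H = 2 R²` (`EF.HR R`), `s ∈ IS R` with
the weight `α(s) ∈ [0, 1]` (`EF.Wt α`), `X = M R`, `q` of size `X`, `t ≤ H`. Everything is uniform in `R` and `α`.
-/

set_option autoImplicit false

namespace Pool.Agent.Lib.MP_bae66e_nt.MF

open Finset MeasureTheory Real
open Pool.Agent.E3
open Pool.Agent.Lib.MP_bae66e_nt.EF (PX Wt HR gA COREG)
open Pool.Agent.Lib.MP_bae66e_nt.LL (fP gW)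
open Pool.Agent.Lib.MP_bae66e_nt.AC (Sg VV)

/-- the Dirichlet polynomial `∑ α(s) χ(s) s^(-1-it) · ∑ χ(q) om(q) q^(-1-it)` -/
noncomputable def PPK {W : ℕ} (χ : DirichletCharacter ℂ W) (α : ℕ → ℝ) (R X : ℕ) (t : ℝ) : ℂ :=
  DP (gA χ α) (IS R) t * PQ χ X X t

/-- the window of width `d` of the quotients `q / s`, twisted by `χ` -/
noncomputable def XXK {W : ℕ} (χ : DirichletCharacter ℂ W) (α : ℕ → ℝ) (R X : ℕ) (d x : ℝ) : ℂ :=
  ∑ s ∈ IS R, ∑ q ∈ QS X, (α s : ℂ) * ((starRingEnd ℂ (ch χ s) * ch χ q) *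
    ((om X q / (s * q) * gsn d (x - Real.log ((q : ℝ) / s)) : ℝ) : ℂ))

/-- the window of width `d` of the quotients `q / s`, `q ≡ s v` modulo `W` -/
noncomputable def XVK (α : ℕ → ℝ) (W v R X : ℕ) (d x : ℝ) : ℝ :=
  ∑ s ∈ IS R, ∑ q ∈ (QS X).filter (fun q => q ≡ s * v [MOD W]),
    α s * (om X q / (s * q) * gsn d (x - Real.log ((q : ℝ) / s)))

/-- the limit of the windows at `x`, up to the factor `√(2π)/(φ(W) log X)` -/
noncomputable def AAK (α : ℕ → ℝ) (R X : ℕ) (x : ℝ) : ℝ :=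
  ∑ s ∈ IS R, α s / s * Real.exp (-(x + Real.log s - Real.log X) ^ 2)

/-- the expected size of the sums over `s` and `q`: `R H / (log R log M)` -/
noncomputable def GK (R M : ℕ) : ℝ := R * HR R / (Real.log R * Real.log M)

/-- the asymptotic formula for long windows -/
def LONGK (a : ℝ) : Prop := ∀ W : ℕ, 1 ≤ W → ∀ ε : ℝ, 0 < ε → ∃ L₀ : ℝ, 0 < L₀ ∧ ∀ L : ℝ, 0 < L → L ≤ L₀ →
  ∃ M₀ : ℕ, ∀ M : ℕ, M₀ ≤ M → ∀ R : ℕ, PX a R M → ∀ α : ℕ → ℝ, Wt α → ∀ v : ℕ, Nat.Coprime v W →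
  ∀ x : ℝ, |x - Real.log M| ≤ 1 →
    |XVK α W v R (M * R) L x - Real.sqrt (2 * π) / (Nat.totient W * Real.log (M * R : ℕ)) * AAK α R (M * R) x|
      ≤ ε * FJ R (M * R) / Nat.totient W

/-- the weighted number of the `(s, q)` with `q ≡ s v` modulo `W` and `m - h ≤ q / s < m` -/
noncomputable def NH (α : ℕ → ℝ) (W v R X h m : ℕ) : ℝ :=
  ∑ s ∈ IS R, ∑ q ∈ (QS X).filter (fun q => q ≡ s * v [MOD W] ∧ (m - h) * s ≤ q ∧ q < m * s), α s * om X q

/-- the asymptotic formula in almost all short intervals `[m - h, m)` for the quotients, `h` of size `R` -/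
def WINH (a : ℝ) : Prop := ∀ W : ℕ, 1 ≤ W → ∀ ε δ : ℝ, 0 < ε → 0 < δ →
  ∃ M₀ : ℕ, ∀ M : ℕ, M₀ ≤ M → ∀ R : ℕ, PX a R M → ∀ α : ℕ → ℝ, Wt α → ∀ v : ℕ, Nat.Coprime v W →
  ∀ h : ℕ, R ≤ 2 * h → h ≤ 8 * R →
    (#{m ∈ Icc M (2 * M) | ε * GK R M / Nat.totient W <
      |NH α W v R (M * R) h m - h / (Nat.totient W * Real.log M) *
        ∑ s ∈ IS R, α s * s * Real.exp (-(Real.log m + Real.log s - Real.log (M * R : ℕ)) ^ 2)|} : ℝ) ≤ δ * M

/-- the weighted number of the `(s, q)` with `q ∈ [s m - H, s m)` prime and `q ≡ s v` modulo `W` -/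
noncomputable def NK (α : ℕ → ℝ) (W v R m : ℕ) : ℝ :=
  ∑ s ∈ IS R, α s * (#{q ∈ Ico (s * m - HR R) (s * m) | q.Prime ∧ q ≡ s * v [MOD W]} : ℝ)

/-- the asymptotic formula for these numbers, for almost all `m ∈ [M, (1 + κ) M]` -/
def WINK (a : ℝ) : Prop := ∀ ε : ℝ, 0 < ε → ∃ κ : ℝ, 0 < κ ∧ κ ≤ 1 ∧ ∀ W : ℕ, 1 ≤ W → ∀ δ : ℝ, 0 < δ →
  ∃ M₀ : ℕ, ∀ M : ℕ, M₀ ≤ M → ∀ R : ℕ, PX a R M → ∀ α : ℕ → ℝ, Wt α → ∀ v : ℕ, Nat.Coprime v W →
    (#{m ∈ Icc M (2 * M) | ((m : ℕ) : ℝ) ≤ (1 + κ) * M ∧ ε * GK R M / Nat.totient W <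
      |NK α W v R m - HR R / (Nat.totient W * Real.log M) * ∑ s ∈ IS R, α s|} : ℝ) ≤ δ * M

/-- the variance of the primes against the W-model over the `t ≤ H` with `s m - t` prime -/
def VARK (a : ℝ) : Prop := ∀ η : ℝ, 0 < η → ∃ w₀ : ℕ, ∀ w : ℕ, w₀ ≤ w → ∃ M₀ : ℕ,
  ∀ M : ℕ, M₀ ≤ M → ∀ R : ℕ, PX a R M → ∀ α : ℕ → ℝ, Wt α →
    ∑ m ∈ Icc M (2 * M), (∑ s ∈ IS R, α s * ∑ t ∈ Icc 1 (HR R),
        (fP (HR R) (t : ℤ) - gW (primorial w) (HR R) (t : ℤ)) * (if (s * m - t).Prime then 1 else 0)) ^ 2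
      ≤ η * M * (GK R M) ^ 2

/-- the number of the primes `t ≤ H` with `s m - t` prime -/
def ck (R m s : ℕ) : ℕ := #{t ∈ Icc 1 (HR R) | t.Prime ∧ (s * m - t).Prime}

/-- the same, weighted by `fP` -/
noncomputable def SK (R s m : ℕ) : ℝ :=
  ∑ t ∈ Icc 1 (HR R), fP (HR R) (t : ℤ) * (if (s * m - t).Prime then (1 : ℝ) else 0)

/-- the asymptotic formula for the first moment, for almost all `m ∈ [M, (1 + κ) M]` -/
def FIRK (a : ℝ) : Prop := ∀ ε : ℝ, 0 < ε → ∃ κ : ℝ, 0 < κ ∧ κ ≤ 1 ∧ ∀ δ : ℝ, 0 < δ → ∃ w₀ : ℕ,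
  ∀ w : ℕ, w₀ ≤ w → ∃ M₀ : ℕ, ∀ M : ℕ, M₀ ≤ M → ∀ R : ℕ, PX a R M → ∀ α : ℕ → ℝ, Wt α →
    (#{m ∈ Icc M (2 * M) | Even m ∧ ((m : ℕ) : ℝ) ≤ (1 + κ) * M ∧
      ε * (Sg (primorial w) m * GK R M) <
        |∑ s ∈ IS R, α s * SK R s m - Sg (primorial w) m * (HR R / Real.log M * ∑ s ∈ IS R, α s)|} : ℝ) ≤ δ * M

/-- the weighted number of the representations -/
noncomputable def cntK (α : ℕ → ℝ) (R m : ℕ) : ℝ := ∑ s ∈ IS R, α s * (ck R m s : ℝ)

/-- the Hardy-Littlewood formula for almost all even `m ≤ N`, uniformly in `R` -/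
def FINK (a : ℝ) : Prop := ∀ ε δ : ℝ, 0 < ε → 0 < δ → ∃ N₀ : ℕ, ∀ N : ℕ, N₀ ≤ N → ∀ α : ℕ → ℝ, Wt α →
  ∀ R : ℕ, (Real.log N) ^ (a - 1 / 4) ≤ R → (R : ℝ) ≤ (Real.log N) ^ (a + 1 / 4) →
    (#{m ∈ Icc 1 N | Even m ∧
      ε * (Pool.Agent.MG.sing m * (Nat.primeCounting (HR R) * R / (Real.log N * Real.log R))) <
        |cntK α R m - Pool.Agent.MG.sing m * (Nat.primeCounting (HR R) / Real.log N) * ∑ s ∈ IS R, α s|} : ℝ)
      ≤ δ * N

/-- the upper bound for the second moment, with the constant `C` -/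
def SECK (C a : ℝ) : Prop := ∀ δ : ℝ, 0 < δ → ∃ w₀ : ℕ, ∀ w : ℕ, w₀ ≤ w → ∃ M₀ : ℕ, ∀ M : ℕ, M₀ ≤ M →
  ∀ R : ℕ, PX a R M →
  (#{m ∈ Icc M (2 * M) | Even m ∧ C * (Sg (primorial w) m) ^ 2 * (R / Real.log R) * (HR R / Real.log M) ^ 2 <
    ∑ s ∈ IS R, (SK R s m) ^ 2} : ℝ) ≤ δ * M

/-- the `s ∈ IS R` with at least `c` times the expected number of representations -/
noncomputable def goodK (c : ℝ) (N R m : ℕ) : Finset ℕ :=
  {s ∈ IS R | c * (Pool.Agent.MG.sing m * (Nat.primeCounting (HR R) / Real.log N)) ≤ ck R m s}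

/-- for almost all even `m ≤ N` a positive proportion of the primes `s ∈ (R, 2R]` is good -/
def POSK (c a : ℝ) : Prop := ∀ δ : ℝ, 0 < δ → ∃ N₀ : ℕ, ∀ N : ℕ, N₀ ≤ N →
  ∀ R : ℕ, (Real.log N) ^ (a - 1 / 4) ≤ R → (R : ℝ) ≤ (Real.log N) ^ (a + 1 / 4) →
    (#{m ∈ Icc 1 N | Even m ∧ ((goodK c N R m).card : ℝ) < c * (IS R).card} : ℝ) ≤ δ * N

end Pool.Agent.Lib.MP_bae66e_nt.MF
end

section

/-!
# FJ3: the theorem on the multiples `r m`
-/

set_option autoImplicit false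

namespace Pool.Agent.E3

open Finset
open Pool.Agent.Lib.MP_bae66e_nt.LL (fP gW nu)

/-- PROOF. Some pair `s, t` has `fP H t ≠ 0` and `s m - t` prime, so `t` is a prime `≤ H`, `s` is a prime `≤ 2R` and `s m = t + (s m - t)`. -/
theorem rep_of_posJ (a : ℝ) (M m : ℕ)
    (h : 0 < ∑ s ∈ IS (RJ a M), ∑ t ∈ Icc 1 (HJ a M),
      fP (HJ a M) (t : ℤ) * (if (s * m - t).Prime then (1 : ℝ) else 0)) :
    ∃ p r q : ℕ, p.Prime ∧ r.Prime ∧ q.Prime ∧ r * m = p + q ∧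
      p ≤ HJ a M ∧ r ≤ 2 * RJ a M := by
  obtain ⟨s, hs, hne1⟩ := Finset.exists_ne_zero_of_sum_ne_zero (ne_of_gt h)
  obtain ⟨t, ht, hne⟩ := Finset.exists_ne_zero_of_sum_ne_zero hne1
  have h1 : fP (HJ a M) (t : ℤ) ≠ 0 := left_ne_zero_of_mul hne
  have h2 : (if (s * m - t).Prime then (1 : ℝ) else 0) ≠ 0 := right_ne_zero_of_mul hne
  have hq : (s * m - t).Prime := by
    by_contra hcon
    exact h2 (if_neg hcon)
  have hp : t.Prime := by
    by_contra hcon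
    apply h1
    unfold fP
    rw [if_neg]
    rintro ⟨-, -, h3⟩
    apply hcon
    simpa using h3
  unfold IS at hs
  have hs' : s.Prime ∧ s ≤ 2 * RJ a M := by
    simp only [Pool.Agent.Lib.MP_bae66e_nt.AP3.prI, Finset.mem_filter, Finset.mem_Ioc] at hs
    exact ⟨hs.2, hs.1.2⟩
  have hpos := hq.pos
  exact ⟨t, s, s * m - t, hp, hs'.1, hq, by omega, (Finset.mem_Icc.1 ht).2, hs'.2⟩

/-- PROOF. `H = 2 R² ≤ 2 L^(2a) ≤ L^(2a+1)`, `2 R ≤ 2 L^a ≤ L^(2a+1)`, `L = log M ≤ log m`. -/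
theorem sizesJ (a : ℝ) (ha : 3 ≤ a) : ∃ M₀ : ℕ, ∀ M m : ℕ, M₀ ≤ M → M ≤ m →
    (HJ a M : ℝ) ≤ (Real.log m) ^ (2 * a + 1) ∧
    ((2 * RJ a M : ℕ) : ℝ) ≤ (Real.log m) ^ (2 * a + 1) := by
  have t0 : Filter.Tendsto (fun X : ℕ => (X : ℝ)) Filter.atTop Filter.atTop :=
    tendsto_natCast_atTop_atTop
  have t1 : Filter.Tendsto (fun X : ℕ => Real.log (X : ℝ)) Filter.atTop Filter.atTop :=
    Real.tendsto_log_atTop.comp t0
  obtain ⟨M₀, hM₀⟩ := Filter.eventually_atTop.1 (t1.eventually_ge_atTop 2)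
  refine ⟨max M₀ 1, fun M m hM hm => ?_⟩
  have hL := hM₀ M ((le_max_left _ _).trans hM)
  have hM1 : 1 ≤ M := (le_max_right _ _).trans hM
  have hMr : (0 : ℝ) < M := by exact_mod_cast hM1
  have hLm : Real.log M ≤ Real.log m := Real.log_le_log hMr (by exact_mod_cast hm)
  have hRle : (RJ a M : ℝ) ≤ (Real.log M) ^ a :=
    Nat.floor_le (Real.rpow_nonneg (by linarith) _)
  have hL0 : 0 < Real.log M := by linarith
  have hfin : (Real.log M) ^ (2 * a + 1) ≤ (Real.log m) ^ (2 * a + 1) :=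
    Real.rpow_le_rpow hL0.le hLm (by linarith)
  have hone : (1 : ℝ) ≤ (Real.log M) ^ a := Real.one_le_rpow (by linarith) (by linarith)
  have h2a : (Real.log M) ^ (2 * a) = ((Real.log M) ^ a) ^ 2 := by
    rw [← Real.rpow_natCast ((Real.log M) ^ a), ← Real.rpow_mul hL0.le]
    congr 1
    push_cast
    ring
  have hbig : 2 * ((Real.log M) ^ a) ^ 2 ≤ (Real.log M) ^ (2 * a + 1) := by
    rw [Real.rpow_add hL0, Real.rpow_one, h2a, mul_comm]
    exact mul_le_mul_of_nonneg_left hL (by positivity)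
  refine ⟨?_, ?_⟩
  · refine le_trans ?_ (hbig.trans hfin)
    unfold HJ
    push_cast
    gcongr
  · refine le_trans ?_ (hbig.trans hfin)
    push_cast
    nlinarith

/-- PROOF. `C = 2a + 1`. `pos_ofJ` with `δ/4`, `rep_of_posJ`, `sizesJ`, `dyadic_bad`. -/
theorem finalJ_of (a : ℝ) (ha : 3 ≤ a) (h1 : WINJ a) (h2 : VARJ a) : FINALJ := by
  classical
  refine ⟨2 * a + 1, by linarith, fun δ hδ => ?_⟩
  obtain ⟨X1, hX1⟩ := pos_ofJ a ha h1 h2 (δ / 4) (by positivity)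
  obtain ⟨X2, hX2⟩ := sizesJ a ha
  have h4 : ∀ N : ℕ, δ * N = 4 * (δ / 4) * N := fun N => by ring
  simp only [h4]
  refine @dyadic_bad _ _ (δ / 4) (by positivity) (max X1 X2) ?_
  intro X hX
  refine le_trans ?_ (hX1 X ((le_max_left _ _).trans hX))
  rw [Nat.cast_le]
  apply Finset.card_le_card
  intro m hm
  obtain ⟨hm1, hm2, hm3⟩ := Finset.mem_filter.1 hm
  rw [Finset.mem_filter]
  refine ⟨hm1, hm2, ?_⟩
  by_contra hcon
  push Not at hcon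
  apply hm3
  obtain ⟨p, r, q, hp, hr, hq, he, b1, b2⟩ := rep_of_posJ a X m hcon
  obtain ⟨s1, s2⟩ := hX2 X m ((le_max_right _ _).trans hX) (Finset.mem_Icc.1 hm1).1
  exact ⟨p, r, q, hp, hr, hq, he, le_trans (Nat.cast_le.2 b1) s1, le_trans (Nat.cast_le.2 b2) s2⟩

end Pool.Agent.E3
end

section

/-!
# W5: windows of the quotients in residue classes
-/

set_option autoImplicit false

namespace Pool.Agent.E3

open Finset MeasureTheory Real
open Pool.Agent.Lib.MP_bae66e_nt.AP3 (prI mem_prI)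

private lemma J5_orth (W c n : ℕ) (hW : 1 ≤ W) (hc : Nat.Coprime c W) :
    ∑ χ : DirichletCharacter ℂ W, χ ((c : ZMod W)⁻¹) * ch χ n =
      if n ≡ c [MOD W] then (Nat.totient W : ℂ) else 0 := by
  have : NeZero W := ⟨by omega⟩
  have hu : IsUnit (c : ZMod W) := (ZMod.isUnit_iff_coprime c W).2 hc
  have h := DirichletCharacter.sum_char_inv_mul_char_eq ℂ hu (n : ZMod W)
  unfold ch
  rw [h]
  by_cases hn : n ≡ c [MOD W]
  · rw [if_pos hn, if_pos ((ZMod.natCast_eq_natCast_iff c n W).2 hn.symm)]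
  · rw [if_neg hn, if_neg (fun h => hn ((ZMod.natCast_eq_natCast_iff c n W).1 h).symm)]

private lemma J5_char (W s v : ℕ) (hW : 1 ≤ W) (hs : Nat.Coprime s W) (hv : Nat.Coprime v W)
    (χ : DirichletCharacter ℂ W) :
    χ ((v : ZMod W)⁻¹) * starRingEnd ℂ (ch χ s) = χ ((((s * v : ℕ) : ZMod W))⁻¹) := by
  have : NeZero W := ⟨by omega⟩
  have hsu : IsUnit (s : ZMod W) := (ZMod.isUnit_iff_coprime s W).2 hs
  have hvu : IsUnit (v : ZMod W) := (ZMod.isUnit_iff_coprime v W).2 hv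
  have hsv : IsUnit (((s * v : ℕ) : ZMod W)) :=
    (ZMod.isUnit_iff_coprime (s * v) W).2 (Nat.Coprime.mul_left hs hv)
  have h1 : χ (((s * v : ℕ) : ZMod W)) * χ ((((s * v : ℕ) : ZMod W))⁻¹) = 1 := by
    rw [← map_mul, ZMod.mul_inv_of_unit _ hsv, map_one]
  have h2 : χ (v : ZMod W) * χ ((v : ZMod W)⁻¹) = 1 := by
    rw [← map_mul, ZMod.mul_inv_of_unit _ hvu, map_one]
  have h3 : χ (s : ZMod W) * starRingEnd ℂ (ch χ s) = 1 := by
    have e1 : starRingEnd ℂ (ch χ s) = χ⁻¹ (s : ZMod W) := MulChar.star_apply' χ (s : ZMod W)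
    rw [e1, ← MulChar.mul_apply, mul_inv_cancel, MulChar.one_apply hsu]
  have h4 : χ (((s * v : ℕ) : ZMod W)) = χ (s : ZMod W) * χ (v : ZMod W) := by
    rw [Nat.cast_mul, map_mul]
  have h5 : χ (((s * v : ℕ) : ZMod W)) ≠ 0 := by
    intro h0
    rw [h0, zero_mul] at h1
    exact zero_ne_one h1
  refine mul_left_cancel₀ h5 ?_
  rw [h1, h4]
  calc χ (s : ZMod W) * χ (v : ZMod W) * (χ ((v : ZMod W)⁻¹) * starRingEnd ℂ (ch χ s))
      = (χ (s : ZMod W) * starRingEnd ℂ (ch χ s)) * (χ (v : ZMod W) * χ ((v : ZMod W)⁻¹)) := by ring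
    _ = 1 := by rw [h3, h2, one_mul]

/-- PROOF. Orthogonality. -/
theorem WJ_eq (W v : ℕ) (hW : 1 ≤ W) (hv : Nat.Coprime v W) (R X : ℕ) (hR : W ≤ R) (d x : ℝ) :
    ((WJ W v R X d x : ℝ) : ℂ)
      = 1 / (Nat.totient W : ℂ) * ∑ χ : DirichletCharacter ℂ W, χ ((v : ZMod W)⁻¹) * WXJ χ R X d x := by
  have hW0 : (Nat.totient W : ℂ) ≠ 0 := by exact_mod_cast (Nat.totient_pos.2 hW).ne'
  have h1 : ∑ χ : DirichletCharacter ℂ W, χ ((v : ZMod W)⁻¹) * WXJ χ R X d x =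
      ∑ s ∈ IS R, ∑ q ∈ QS X,
        (∑ χ : DirichletCharacter ℂ W, χ ((((s * v : ℕ) : ZMod W))⁻¹) * ch χ q) *
          ((om X q / (s * q) * gsn d (x - Real.log ((q : ℝ) / s)) : ℝ) : ℂ) := by
    unfold WXJ
    simp only [Finset.mul_sum, Finset.sum_mul]
    rw [Finset.sum_comm]
    refine sum_congr rfl fun s hs => ?_
    have hs1 := mem_prI.mp hs
    have hsc : Nat.Coprime s W := (Nat.Prime.coprime_iff_not_dvd hs1.2).mpr fun hd => by
      have := Nat.le_of_dvd (by omega) hd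
      omega
    rw [Finset.sum_comm]
    refine sum_congr rfl fun q _ => ?_
    refine sum_congr rfl fun χ _ => ?_
    rw [← J5_char W s v hW hsc hv χ]
    ring
  rw [h1, Finset.mul_sum]
  unfold WJ
  rw [Complex.ofReal_sum]
  refine sum_congr rfl fun s hs => ?_
  have hs1 := mem_prI.mp hs
  have hsc : Nat.Coprime s W := (Nat.Prime.coprime_iff_not_dvd hs1.2).mpr fun hd => by
    have := Nat.le_of_dvd (by omega) hd
    omega
  rw [Finset.sum_filter, Complex.ofReal_sum, Finset.mul_sum]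
  refine sum_congr rfl fun q _ => ?_
  rw [J5_orth W (s * v) q hW (Nat.Coprime.mul_left hsc hv)]
  by_cases hn : q ≡ s * v [MOD W]
  · rw [if_pos hn, if_pos hn, ← mul_assoc, one_div, inv_mul_cancel₀ hW0, one_mul]
  · rw [if_neg hn, if_neg hn]
    simp

private lemma J5_cont (W v : ℕ) (R X : ℕ) (w : ℝ) : Continuous (fun x : ℝ => WJ W v R X w x) := by
  unfold WJ
  refine continuous_finsetSum _ fun s _ => continuous_finsetSum _ fun q _ => ?_
  unfold gsn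
  fun_prop

/-- PROOF. `WJ_eq` and Cauchy's inequality: `(WV d - WV l)² ≤ (1/φ(W)) ∑_χ ‖WX χ d - WX χ l‖²` (there are `φ(W)` characters,
`‖χ(v⁻¹)‖ ≤ 1`); integrate with the hypothesis; integrability by `WX_planch` (and continuity of `WV`). -/
theorem class_window_J (W v : ℕ) (hW : 1 ≤ W) (hv : Nat.Coprime v W) (R X : ℕ) (d l B : ℝ) (hd : 0 < d) (hl : 0 < l)
    (hR : W ≤ R)
    (h : ∀ χ : DirichletCharacter ℂ W, ∫ x : ℝ, ‖WXJ χ R X d x - WXJ χ R X l x‖ ^ 2 ≤ B) :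
    Integrable (fun x : ℝ => (WJ W v R X d x - WJ W v R X l x) ^ 2) ∧
    ∫ x : ℝ, (WJ W v R X d x - WJ W v R X l x) ^ 2 ≤ B := by
  have : NeZero W := ⟨by omega⟩
  have hφ : (0 : ℝ) < (Nat.totient W : ℝ) := by exact_mod_cast Nat.totient_pos.2 hW
  have hcard : (Fintype.card (DirichletCharacter ℂ W) : ℝ) = (Nat.totient W : ℝ) := by
    rw [← Nat.card_eq_fintype_card, DirichletCharacter.card_eq_totient_of_hasEnoughRootsOfUnity ℂ W]
  have heq : ∀ x : ℝ, ((WJ W v R X d x - WJ W v R X l x : ℝ) : ℂ) =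
      1 / (Nat.totient W : ℂ) * ∑ χ : DirichletCharacter ℂ W,
        χ ((v : ZMod W)⁻¹) * (WXJ χ R X d x - WXJ χ R X l x) := by
    intro x
    rw [Complex.ofReal_sub, WJ_eq W v hW hv R X hR, WJ_eq W v hW hv R X hR, ← mul_sub, ← Finset.sum_sub_distrib]
    congr 1
    exact sum_congr rfl fun χ _ => (mul_sub _ _ _).symm
  have hpt : ∀ x : ℝ, (WJ W v R X d x - WJ W v R X l x) ^ 2 ≤
      1 / (Nat.totient W : ℝ) * ∑ χ : DirichletCharacter ℂ W, ‖WXJ χ R X d x - WXJ χ R X l x‖ ^ 2 := by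
    intro x
    have h1 : (WJ W v R X d x - WJ W v R X l x) ^ 2 =
        ‖((WJ W v R X d x - WJ W v R X l x : ℝ) : ℂ)‖ ^ 2 := by
      rw [Complex.norm_real, Real.norm_eq_abs, sq_abs]
    have h2 : ‖((WJ W v R X d x - WJ W v R X l x : ℝ) : ℂ)‖ ≤
        1 / (Nat.totient W : ℝ) * ∑ χ : DirichletCharacter ℂ W, ‖WXJ χ R X d x - WXJ χ R X l x‖ := by
      rw [heq, norm_mul]
      have h3 : ‖(1 / (Nat.totient W : ℂ))‖ = 1 / (Nat.totient W : ℝ) := by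
        rw [norm_div, norm_one, Complex.norm_natCast]
      rw [h3]
      refine mul_le_mul_of_nonneg_left ?_ (by positivity)
      refine (norm_sum_le _ _).trans (sum_le_sum fun χ _ => ?_)
      rw [norm_mul]
      exact mul_le_of_le_one_left (norm_nonneg _) (DirichletCharacter.norm_le_one χ _)
    have h4 : (∑ χ : DirichletCharacter ℂ W, ‖WXJ χ R X d x - WXJ χ R X l x‖) ^ 2 ≤
        (Nat.totient W : ℝ) * ∑ χ : DirichletCharacter ℂ W, ‖WXJ χ R X d x - WXJ χ R X l x‖ ^ 2 := by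
      rw [← hcard]
      exact sq_sum_le_card_mul_sum_sq
    rw [h1]
    calc ‖((WJ W v R X d x - WJ W v R X l x : ℝ) : ℂ)‖ ^ 2
        ≤ (1 / (Nat.totient W : ℝ) *
            ∑ χ : DirichletCharacter ℂ W, ‖WXJ χ R X d x - WXJ χ R X l x‖) ^ 2 :=
          pow_le_pow_left₀ (norm_nonneg _) h2 2
      _ = (1 / (Nat.totient W : ℝ)) ^ 2 *
            (∑ χ : DirichletCharacter ℂ W, ‖WXJ χ R X d x - WXJ χ R X l x‖) ^ 2 := by
          rw [mul_pow]
      _ ≤ (1 / (Nat.totient W : ℝ)) ^ 2 *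
          ((Nat.totient W : ℝ) *
            ∑ χ : DirichletCharacter ℂ W, ‖WXJ χ R X d x - WXJ χ R X l x‖ ^ 2) :=
          mul_le_mul_of_nonneg_left h4 (by positivity)
      _ = 1 / (Nat.totient W : ℝ) *
            ∑ χ : DirichletCharacter ℂ W, ‖WXJ χ R X d x - WXJ χ R X l x‖ ^ 2 := by
          field_simp
  have hIχ : ∀ χ : DirichletCharacter ℂ W,
      Integrable (fun x : ℝ => ‖WXJ χ R X d x - WXJ χ R X l x‖ ^ 2) :=
    fun χ => (WXJ_planch χ R X d l hd hl).1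
  have hIs : Integrable (fun x : ℝ => 1 / (Nat.totient W : ℝ) *
      ∑ χ : DirichletCharacter ℂ W, ‖WXJ χ R X d x - WXJ χ R X l x‖ ^ 2) :=
    (integrable_finsetSum _ fun χ _ => hIχ χ).const_mul _
  have hI : Integrable (fun x : ℝ => (WJ W v R X d x - WJ W v R X l x) ^ 2) := by
    refine hIs.mono' (((J5_cont W v R X d).sub (J5_cont W v R X l)).pow 2).aestronglyMeasurable
      (Filter.Eventually.of_forall fun x => ?_)
    rw [Real.norm_of_nonneg (sq_nonneg _)]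
    exact hpt x
  refine ⟨hI, ?_⟩
  calc ∫ x : ℝ, (WJ W v R X d x - WJ W v R X l x) ^ 2
      ≤ ∫ x : ℝ, 1 / (Nat.totient W : ℝ) *
          ∑ χ : DirichletCharacter ℂ W, ‖WXJ χ R X d x - WXJ χ R X l x‖ ^ 2 :=
        integral_mono hI hIs hpt
    _ = 1 / (Nat.totient W : ℝ) *
          ∑ χ : DirichletCharacter ℂ W, ∫ x : ℝ, ‖WXJ χ R X d x - WXJ χ R X l x‖ ^ 2 := by
        rw [integral_const_mul, integral_finsetSum _ fun χ _ => hIχ χ]
    _ ≤ 1 / (Nat.totient W : ℝ) * ∑ χ : DirichletCharacter ℂ W, B :=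
        mul_le_mul_of_nonneg_left (sum_le_sum fun χ _ => h χ) (by positivity)
    _ = B := by
        rw [Finset.sum_const, nsmul_eq_mul, Finset.card_univ, hcard]
        field_simp

/-- PROOF. Cauchy-Schwarz on the interval of length `2`. -/
theorem class_window_JL1 (W v : ℕ) (R X : ℕ) (d l B y : ℝ) (hd : 0 < d) (hl : 0 < l)
    (hi : Integrable (fun x : ℝ => (WJ W v R X d x - WJ W v R X l x) ^ 2))
    (h : ∫ x : ℝ, (WJ W v R X d x - WJ W v R X l x) ^ 2 ≤ B) :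
    IntegrableOn (fun x : ℝ => |WJ W v R X d x - WJ W v R X l x|) (Set.Icc (y - 1) (y + 1)) ∧
    ∫ x in Set.Icc (y - 1) (y + 1), |WJ W v R X d x - WJ W v R X l x| ≤ Real.sqrt (2 * B) := by
  set f : ℝ → ℝ := fun x => WJ W v R X d x - WJ W v R X l x with hf
  have hcont : Continuous f := (J5_cont W v R X d).sub (J5_cont W v R X l)
  have hI1 : IntegrableOn (fun x : ℝ => |f x|) (Set.Icc (y - 1) (y + 1)) :=
    hcont.abs.continuousOn.integrableOn_compact isCompact_Icc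
  have hI2 : IntegrableOn (fun x : ℝ => (f x) ^ 2) (Set.Icc (y - 1) (y + 1)) :=
    (hcont.pow 2).continuousOn.integrableOn_compact isCompact_Icc
  refine ⟨hI1, ?_⟩
  have hvol : volume.real (Set.Icc (y - 1) (y + 1)) = 2 := by
    rw [Real.volume_real_Icc_of_le (by linarith)]
    ring
  have hB : ∫ x in Set.Icc (y - 1) (y + 1), (f x) ^ 2 ≤ B :=
    (setIntegral_le_integral hi (Filter.Eventually.of_forall fun x => sq_nonneg _)).trans h
  set A : ℝ := ∫ x in Set.Icc (y - 1) (y + 1), |f x| with hA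
  have hA0 : 0 ≤ A := integral_nonneg fun x => abs_nonneg _
  -- `0 ≤ ∫ (|f| - A/2)²`
  have hkey : 0 ≤ ∫ x in Set.Icc (y - 1) (y + 1), (|f x| - A / 2) ^ 2 :=
    integral_nonneg fun x => sq_nonneg _
  have hexp : ∫ x in Set.Icc (y - 1) (y + 1), (|f x| - A / 2) ^ 2 =
      (∫ x in Set.Icc (y - 1) (y + 1), (f x) ^ 2) - A * A + (A / 2) ^ 2 * 2 := by
    have h1 : ∀ x, (|f x| - A / 2) ^ 2 = (f x) ^ 2 - A * |f x| + (A / 2) ^ 2 := by
      intro x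
      rw [sub_sq, sq_abs]
      ring
    simp only [h1]
    have hI3 : IntegrableOn (fun x : ℝ => A * |f x|) (Set.Icc (y - 1) (y + 1)) := hI1.const_mul A
    have hI4 : IntegrableOn (fun x : ℝ => (f x) ^ 2 - A * |f x|) (Set.Icc (y - 1) (y + 1)) :=
      hI2.sub hI3
    have hI5 : IntegrableOn (fun _ : ℝ => (A / 2) ^ 2) (Set.Icc (y - 1) (y + 1)) :=
      integrableOn_const (by simp)
    have e1 : ∫ x in Set.Icc (y - 1) (y + 1), ((f x) ^ 2 - A * |f x| + (A / 2) ^ 2) =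
        (∫ x in Set.Icc (y - 1) (y + 1), ((f x) ^ 2 - A * |f x|)) +
          ∫ _x in Set.Icc (y - 1) (y + 1), (A / 2) ^ 2 := integral_add hI4 hI5
    have e2 : ∫ x in Set.Icc (y - 1) (y + 1), ((f x) ^ 2 - A * |f x|) =
        (∫ x in Set.Icc (y - 1) (y + 1), (f x) ^ 2) - ∫ x in Set.Icc (y - 1) (y + 1), A * |f x| :=
      integral_sub hI2 hI3
    rw [e1, e2, integral_const_mul, setIntegral_const, hvol, ← hA, smul_eq_mul]
    ring
  rw [hexp] at hkey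
  refine Real.le_sqrt_of_sq_le ?_
  nlinarith

end Pool.Agent.E3
end
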