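import Pool.Agent.Lib.MP_bae66e_nt.Mg.G037
import Pool.Agent.Lib.MP_bae66e_nt.Mg.G100
import Pool.Agent.Lib.MP_bae66e_nt.E3.W6

section

/-!
# W3: the parameters
-/

set_option autoImplicit false

namespace Pool.Agent.E3

open Finset Real Filter

/-- the conditions on the parameters for `COREJ (a - 1/2)` -/
theorem parJ (a K B : ℝ) (ha : 3 ≤ a) (hK : 1 ≤ K) (hB : 0 < B) : ∃ M₀ : ℕ, ∀ M : ℕ, M₀ ≤ M →
    27 ≤ M ∧ 3 ≤ Real.log M ∧ B ≤ RJ a M ∧ 2 ≤ RJ a M ∧ 100 * RJ a M ≤ M ∧ M ≤ XJ a M ∧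
      (Real.log (XJ a M)) ^ (a - 1 / 2) ≤ RJ a M ∧ (RJ a M : ℝ) ≤ (Real.log (XJ a M)) ^ (a - 1 / 2 + 1) ∧
      0 < (RJ a M : ℝ) / (K * M) ∧ (RJ a M : ℝ) / (K * M) ≤ (XJ a M : ℝ) ^ (-(1 / 2) : ℝ) ∧
      1 ≤ (RJ a M : ℝ) / (K * M) * XJ a M ∧ Real.log (XJ a M) ≤ (RJ a M : ℝ) / (K * M) * XJ a M ∧
      (RJ a M : ℝ) / (K * M) ≤ 1 / B ∧ Real.log M ≤ Real.log (XJ a M) := by
  obtain ⟨M₁, hM₁⟩ := RJ_basic a (|B| + (2 : ℝ) ^ (2 * a + 1) + 2 * K) ha
  refine ⟨M₁, fun M hM => ?_⟩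
  obtain ⟨g1, g2, g3, g4, g5, g6, g7, g8⟩ := hM₁ M hM
  have hM0 : (0 : ℝ) < M := by exact_mod_cast (by omega : 0 < M)
  have hR0 : (0 : ℝ) < (RJ a M : ℝ) := by linarith
  have hB0 := abs_nonneg B
  have hB1 := le_abs_self B
  have h2a : (0 : ℝ) < (2 : ℝ) ^ (2 * a + 1) := by positivity
  have hK0 : 0 < K := by linarith
  have hXc : (XJ a M : ℝ) = M * RJ a M := by
    unfold XJ
    push_cast
    ring
  have hlX : Real.log (XJ a M) = Real.log M + Real.log (RJ a M) := by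
    rw [hXc, Real.log_mul hM0.ne' hR0.ne']
  have hlR : 0 < Real.log (RJ a M) := Real.log_pos (by linarith)
  have hX0 : (0 : ℝ) < (XJ a M : ℝ) := by
    rw [hXc]
    positivity
  obtain ⟨R, hR⟩ : ∃ R : ℝ, R = (RJ a M : ℝ) := ⟨_, rfl⟩
  obtain ⟨lam, hlam⟩ : ∃ lam : ℝ, lam = Real.log M := ⟨_, rfl⟩
  obtain ⟨N, hN⟩ : ∃ N : ℝ, N = (M : ℝ) := ⟨_, rfl⟩
  have hR2 : 2 ≤ RJ a M := by
    have : (2 : ℝ) ≤ (RJ a M : ℝ) := by linarith
    exact_mod_cast this
  have hMX : M ≤ XJ a M := by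
    unfold XJ
    exact Nat.le_mul_of_pos_right M (by omega)
  rw [← hR, ← hlam] at g4 g5 g6
  rw [← hlam] at g2 g3
  rw [← hR, ← hlam] at g7
  rw [← hR, ← hN] at g8
  rw [← hR] at hR0 hlR
  rw [← hN] at hM0
  rw [← hR, ← hN] at hXc
  rw [← hlam, ← hR] at hlX
  have hR3 : 1 ≤ R := by linarith
  have h100 : 100 * R ≤ N := by
    have e3 : R ≤ R ^ 3 := by nlinarith [mul_self_nonneg (R - 1)]
    have e4 : 0 < R ^ 3 := by positivity
    linarith
  -- (log X)^(a-1/2) ≤ R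
  have hlow : (Real.log (XJ a M)) ^ (a - 1 / 2) ≤ R := by
    have e1 : Real.log (XJ a M) ≤ 2 * lam := by linarith
    have e2 : 0 ≤ Real.log (XJ a M) := by linarith
    refine (Real.rpow_le_rpow e2 e1 (by linarith)).trans (le_trans ?_ g6)
    rw [Real.mul_rpow (by norm_num) (by linarith)]
    have e3 : lam ^ a = lam ^ (a - 1 / 2) * lam ^ (1 / 2 : ℝ) := by
      rw [← Real.rpow_add (by linarith)]
      congr 1
      ring
    have e4 : (2 : ℝ) ^ (a + 1 / 2) ≤ lam ^ (1 / 2 : ℝ) := by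
      have e5 : (2 : ℝ) ^ (a + 1 / 2) = ((2 : ℝ) ^ (2 * a + 1)) ^ (1 / 2 : ℝ) := by
        rw [← Real.rpow_mul (by norm_num)]
        congr 1
        ring
      rw [e5]
      exact Real.rpow_le_rpow (by positivity) (by linarith) (by norm_num)
    have e6 : (2 : ℝ) ^ (a + 1 / 2) = (2 : ℝ) ^ (a - 1 / 2) * 2 := by
      have : (2 : ℝ) ^ (a - 1 / 2) * 2 = (2 : ℝ) ^ (a - 1 / 2) * (2 : ℝ) ^ (1 : ℝ) := by
        rw [Real.rpow_one]
      rw [this, ← Real.rpow_add (by norm_num)]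
      congr 1
      ring
    have e7 : 0 < lam ^ (a - 1 / 2) := Real.rpow_pos_of_pos (by linarith) _
    rw [e3]
    rw [e6] at e4
    calc (2 : ℝ) ^ (a - 1 / 2) * lam ^ (a - 1 / 2) = lam ^ (a - 1 / 2) * ((2 : ℝ) ^ (a - 1 / 2) * 2) / 2 := by
          ring
      _ ≤ lam ^ (a - 1 / 2) * lam ^ (1 / 2 : ℝ) / 2 := by
          refine div_le_div_of_nonneg_right ?_ (by norm_num)
          exact mul_le_mul_of_nonneg_left e4 e7.le
  have hup : R ≤ (Real.log (XJ a M)) ^ (a - 1 / 2 + 1) := by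
    have e1 : lam ≤ Real.log (XJ a M) := by linarith
    refine g5.trans ((Real.rpow_le_rpow_of_exponent_le (by linarith) (by linarith : a ≤ a - 1 / 2 + 1)).trans ?_)
    exact Real.rpow_le_rpow (by linarith) e1 (by linarith)
  have hd0 : 0 < R / (K * N) := by positivity
  have hd1 : R / (K * N) * XJ a M = R ^ 2 / K := by
    rw [hXc]
    field_simp
  have hRR : 2 * lam * K ≤ R ^ 2 := by
    have e1 : 2 * K ≤ lam := by linarith
    have e2 : lam * (2 * K) ≤ lam * lam := mul_le_mul_of_nonneg_left e1 (by linarith)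
    have e3 : lam * lam ≤ R * R := mul_le_mul g4 g4 (by linarith) hR0.le
    nlinarith
  have hdX : 2 * lam ≤ R ^ 2 / K := by
    rw [le_div_iff₀ hK0]
    exact hRR
  have hsmall : R / (K * N) ≤ (XJ a M : ℝ) ^ (-(1 / 2) : ℝ) := by
    rw [Real.rpow_neg hX0.le, ← Real.sqrt_eq_rpow, ← one_div, le_div_iff₀ (Real.sqrt_pos.mpr hX0), hXc]
    have e1 : R / (K * N) ≤ R / N := by
      refine div_le_div_of_nonneg_left hR0.le hM0 ?_
      nlinarith
    have e2 : R / N * Real.sqrt (N * R) ≤ 1 := by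
      have e3 : Real.sqrt (N * R) ≤ N / R := by
        rw [Real.sqrt_le_left (by positivity), div_pow, le_div_iff₀ (by positivity)]
        have : R ^ 3 ≤ N := by
          have : 0 < R ^ 3 := by positivity
          linarith
        nlinarith
      calc R / N * Real.sqrt (N * R) ≤ R / N * (N / R) := mul_le_mul_of_nonneg_left e3 (by positivity)
        _ = 1 := by field_simp
    calc R / (K * N) * Real.sqrt (N * R) ≤ R / N * Real.sqrt (N * R) :=
          mul_le_mul_of_nonneg_right e1 (Real.sqrt_nonneg _)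
      _ ≤ 1 := e2
  have hBR : B ≤ R := by linarith
  have hdB : R / (K * N) ≤ 1 / B := by
    rw [div_le_div_iff₀ (by positivity) hB, one_mul]
    calc R * B ≤ R * R := mul_le_mul_of_nonneg_left hBR hR0.le
      _ ≤ R ^ 3 := by nlinarith [mul_pos hR0 hR0]
      _ ≤ N := by
          have : 0 < R ^ 3 := by positivity
          linarith
      _ ≤ K * N := by nlinarith
  refine ⟨g1, ?_, ?_, hR2, ?_, hMX, ?_, ?_, ?_, ?_, ?_, ?_, ?_, ?_⟩
  · rw [← hlam]
    exact g2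
  · rw [← hR]
    linarith
  · have : (100 : ℝ) * (RJ a M : ℝ) ≤ (M : ℝ) := by
      rw [← hR, ← hN]
      exact h100
    exact_mod_cast this
  · rw [← hR]
    exact hlow
  · rw [← hR]
    exact hup
  · rw [← hR, ← hN]
    exact hd0
  · rw [← hR, ← hN]
    exact hsmall
  · rw [← hR, ← hN, hd1]
    linarith
  · rw [← hR, ← hN, hd1]
    linarith
  · rw [← hR, ← hN]
    exact hdB
  · rw [← hlam]
    linarith

end Pool.Agent.E3
end

section

/-!
# W7: WINJ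
-/

set_option autoImplicit false

namespace Pool.Agent.E3

open Finset MeasureTheory Real Filter
open Pool.Agent.Lib.MP_bae66e_nt.AP3 (prI mem_prI)

private lemma J7_om_nonneg (Y : ℝ) (q : ℕ) : 0 ≤ om Y q := (Real.exp_pos _).le

private lemma J7_om_le (Y : ℝ) (q : ℕ) : om Y q ≤ 1 := by
  unfold om gs
  rw [Real.exp_le_one_iff]
  have := sq_nonneg (Real.log Y - Real.log q)
  linarith

/-- the pairs of the window give primes in `[s m - 2 R², s m)` -/
private lemma J7_count (R X m W v : ℕ) (hR : 1 ≤ R) :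
    ∑ p ∈ ((IS R ×ˢ QS X).filter (fun p => p.2 ≡ p.1 * v [MOD W])) with
        ((m : ℕ) : ℝ) - R ≤ (p.2 : ℝ) / p.1 ∧ (p.2 : ℝ) / p.1 < (m : ℕ), om X p.2 / (p.1 : ℝ) ^ 2
      ≤ 1 / (R : ℝ) ^ 2 * ∑ s ∈ IS R,
        (#{q ∈ Ico (s * m - 2 * R ^ 2) (s * m) | q.Prime ∧ q ≡ s * v [MOD W]} : ℝ) := by
  have hR0 : (0 : ℝ) < R := by exact_mod_cast (by omega : 0 < R)
  rw [Finset.mul_sum, Finset.filter_filter, Finset.sum_filter, Finset.sum_product]
  refine Finset.sum_le_sum fun s hs => ?_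
  have hs1 := mem_prI.mp hs
  have hs0 : (0 : ℝ) < s := by exact_mod_cast hs1.2.pos
  have hsR : (R : ℝ) ≤ s := by exact_mod_cast hs1.1.1.le
  have hsR2 : (s : ℝ) ≤ 2 * R := by exact_mod_cast hs1.1.2
  rw [← Finset.sum_filter]
  have h1 : ∀ q ∈ (QS X).filter (fun q => q ≡ s * v [MOD W] ∧
      (((m : ℕ) : ℝ) - R ≤ (q : ℝ) / s ∧ (q : ℝ) / s < (m : ℕ))), om X q / (s : ℝ) ^ 2 ≤ 1 / (R : ℝ) ^ 2 := by
    intro q _
    exact div_le_div₀ zero_le_one (J7_om_le _ _) (by positivity) (pow_le_pow_left₀ hR0.le hsR 2)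
  refine (Finset.sum_le_sum h1).trans ?_
  rw [Finset.sum_const, nsmul_eq_mul, mul_comm]
  refine mul_le_mul_of_nonneg_left ?_ (by positivity)
  refine Nat.cast_le.2 (Finset.card_le_card fun q hq => ?_)
  rw [Finset.mem_filter] at hq
  obtain ⟨hq1, hq2, hq3, hq4⟩ := hq
  have hq5 := mem_prI.mp hq1
  rw [Finset.mem_filter, Finset.mem_Ico]
  rw [le_div_iff₀ hs0] at hq3
  rw [div_lt_iff₀ hs0] at hq4
  refine ⟨⟨?_, ?_⟩, hq5.2, hq2⟩
  · rw [Nat.sub_le_iff_le_add]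
    have h2 : ((s * m : ℕ) : ℝ) ≤ ((q + 2 * R ^ 2 : ℕ) : ℝ) := by
      push_cast
      nlinarith
    exact_mod_cast h2
  · have h2 : (q : ℝ) < ((s * m : ℕ) : ℝ) := by
      push_cast
      linarith
    exact_mod_cast h2

/-- one `M` -/
theorem winj_one : ∃ C : ℝ, 1 ≤ C ∧ ∀ (R X M W v : ℕ) (K l η B : ℝ), 8 ≤ X → 2 ≤ R → 100 * R ≤ M → 1 ≤ W →
    W ≤ R → Nat.Coprime v W → 1 ≤ K → 0 < l → 0 ≤ η → 0 < B →
    (∀ χ : DirichletCharacter ℂ W,
      ∫ x : ℝ, ‖WXJ χ R X (R / (K * M)) x - WXJ χ R X l x‖ ^ 2 ≤ η * (FJ R X) ^ 2) →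
    (∀ x : ℝ, |x - Real.log M| ≤ 1 → B ≤ WJ W v R X l x) →
    (#{m ∈ Icc M (2 * M) | ∑ s ∈ IS R,
        (#{q ∈ Ico (s * m - 2 * R ^ 2) (s * m) | q.Prime ∧ q ≡ s * v [MOD W]} : ℝ) < (R : ℝ) ^ 3 * B / 50} : ℝ)
      ≤ M / B * (32 * (Real.sqrt (2 * η) * FJ R X) + 130 * Real.exp (-(K ^ 2 / 576)) * (C * FJ R X)) := by
  obtain ⟨C, hC, hmass⟩ := mass_J
  refine ⟨C, hC, fun R X M W v K l η B hX hR hM hW hWR hv hK hl hη hB hχ hpap => ?_⟩
  set F : ℝ := FJ R X with hF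
  have hF0 : 0 < F := FJ_pos hX hR
  have hM0 : (0 : ℝ) < (M : ℝ) := by exact_mod_cast (by omega : 0 < M)
  have hR0 : (0 : ℝ) < (R : ℝ) := by exact_mod_cast (by omega : 0 < R)
  have hd : (0 : ℝ) < (R : ℝ) / (K * M) := by positivity
  obtain ⟨hi, hint⟩ := class_window_J W v hW hv R X (R / (K * M)) l (η * F ^ 2) hd hl hWR hχ
  obtain ⟨hEi, hEη⟩ := class_window_JL1 W v R X (R / (K * M)) l (η * F ^ 2) (Real.log M) hd hl hi hint
  have hsq : Real.sqrt (2 * (η * F ^ 2)) = Real.sqrt (2 * η) * F := by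
    rw [← mul_assoc, Real.sqrt_mul (by positivity), Real.sqrt_sq hF0.le]
  rw [hsq] at hEη
  set P : Finset (ℕ × ℕ) := (IS R ×ˢ QS X).filter (fun p => p.2 ≡ p.1 * v [MOD W]) with hP
  have hpos : ∀ p ∈ P, (0 : ℝ) < p.1 ∧ (0 : ℝ) < p.2 := by
    intro p hp
    rw [hP, Finset.mem_filter, Finset.mem_product] at hp
    have h1 := (mem_prI.mp hp.1.1).2.pos
    have h2 := (mem_prI.mp hp.1.2).2.pos
    exact ⟨by exact_mod_cast h1, by exact_mod_cast h2⟩
  have huv : ∀ p ∈ P, om X p.2 / (p.1 : ℝ) ^ 2 / ((p.2 : ℝ) / p.1) = om X p.2 / (p.1 * p.2) := by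
    intro p hp
    obtain ⟨h1, h2⟩ := hpos p hp
    field_simp
  have hsum : ∀ x : ℝ, ∑ p ∈ P, om X p.2 / (p.1 : ℝ) ^ 2 / ((p.2 : ℝ) / p.1) *
      gsn (R / (K * M)) (x - Real.log ((p.2 : ℝ) / p.1)) = WJ W v R X (R / (K * M)) x := by
    intro x
    have h1 : ∑ p ∈ P, om X p.2 / (p.1 : ℝ) ^ 2 / ((p.2 : ℝ) / p.1) *
        gsn (R / (K * M)) (x - Real.log ((p.2 : ℝ) / p.1)) =
        ∑ p ∈ P, om X p.2 / (p.1 * p.2) * gsn (R / (K * M)) (x - Real.log ((p.2 : ℝ) / p.1)) :=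
      Finset.sum_congr rfl fun p hp => by rw [huv p hp]
    rw [h1, hP]
    unfold WJ
    rw [Finset.sum_filter, Finset.sum_product]
    refine sum_congr rfl fun s _ => ?_
    rw [Finset.sum_filter]
  have hMs : ∑ p ∈ P, om X p.2 / (p.1 : ℝ) ^ 2 / ((p.2 : ℝ) / p.1) ≤ C * F := by
    have h1 : ∑ p ∈ P, om X p.2 / (p.1 : ℝ) ^ 2 / ((p.2 : ℝ) / p.1) =
        ∑ p ∈ P, om X p.2 / (p.1 * p.2) := Finset.sum_congr rfl fun p hp => huv p hp
    rw [h1, hP]
    refine le_trans (Finset.sum_le_sum_of_subset_of_nonneg (Finset.filter_subset _ _) fun p _ _ => ?_) ?_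
    · exact div_nonneg (J7_om_nonneg _ _) (by positivity)
    · rw [Finset.sum_product]
      exact hmass R X hX hR
  have key := win_to_mR P (fun p => (p.2 : ℝ) / p.1) (fun p => om X p.2 / (p.1 : ℝ) ^ 2) R M K B
    (Real.sqrt (2 * η) * F) (C * F)
    (fun x => |WJ W v R X (R / (K * M)) x - WJ W v R X l x|)
    (fun p hp => div_pos (hpos p hp).2 (hpos p hp).1)
    (fun p _ => div_nonneg (J7_om_nonneg _ _) (by positivity)) (by omega) hM hK hB
    (fun x => abs_nonneg _) hEi hEη hMs ?_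
  · refine le_trans ?_ key
    refine Nat.cast_le.2 (Finset.card_le_card fun m hm => ?_)
    rw [Finset.mem_filter] at hm ⊢
    refine ⟨hm.1, ?_⟩
    have h1 := J7_count R X m W v (by omega)
    refine lt_of_le_of_lt h1 ?_
    have h2 := hm.2
    have h3 : 1 / (R : ℝ) ^ 2 * ((R : ℝ) ^ 3 * B / 50) = R * B / 50 := by
      field_simp
    rw [← h3]
    exact mul_lt_mul_of_pos_left h2 (by positivity)
  · intro x hx
    have h1 : |x - Real.log M| ≤ 1 := by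
      rw [abs_le]
      constructor
      · linarith [hx.1]
      · linarith [hx.2]
    have h2 := hpap x h1
    have h3 := neg_abs_le (WJ W v R X (R / (K * M)) x - WJ W v R X l x)
    have h4 := hsum x
    rw [h4]
    linarith

theorem winj_of (a : ℝ) (ha : 3 ≤ a) (hC : COREJ (a - 1 / 2)) (hP : PAPJ) : WINJ a := by
  obtain ⟨c₁, hc₁, hP⟩ := hP
  obtain ⟨C, hC1, hwin⟩ := winj_one
  obtain ⟨C', hC'1, hchar⟩ := char_window_J
  refine ⟨c₁ / 100, by positivity, fun W hW δ hδ => ?_⟩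
  have hφ : (0 : ℝ) < (Nat.totient W : ℝ) := by exact_mod_cast Nat.totient_pos.2 hW
  -- the choice of `K`
  set A : ℝ := 130 * C * (Nat.totient W / c₁) with hA
  have hA0 : 0 < A := by positivity
  set K : ℝ := max 1 (1152 * A / δ) with hKdef
  have hK1 : 1 ≤ K := le_max_left _ _
  have hKA : A * Real.exp (-(K ^ 2 / 576)) ≤ δ / 2 := by
    have h1 : 1152 * A / δ ≤ K := le_max_right _ _
    have h2 : Real.exp (-(K ^ 2 / 576)) ≤ 576 / K := by
      have h3 : K ^ 2 / 576 ≤ Real.exp (K ^ 2 / 576) := by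
        have := Real.add_one_le_exp (K ^ 2 / 576)
        linarith
      rw [Real.exp_neg]
      calc (Real.exp (K ^ 2 / 576))⁻¹ ≤ (K ^ 2 / 576)⁻¹ := inv_anti₀ (by positivity) h3
        _ = 576 / K / K := by field_simp
        _ ≤ 576 / K := div_le_self (by positivity) hK1
    calc A * Real.exp (-(K ^ 2 / 576)) ≤ A * (576 / K) := mul_le_mul_of_nonneg_left h2 hA0.le
      _ ≤ δ / 2 := by
          rw [div_le_iff₀ hδ] at h1
          rw [← mul_div_assoc, div_le_iff₀ (by positivity)]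
          linarith
  -- the choice of `η`
  set s : ℝ := δ * c₁ / (64 * Nat.totient W) with hs
  have hs0 : 0 < s := by positivity
  set η : ℝ := s ^ 2 / 2 with hη
  have hη0 : 0 < η := by positivity
  have hsη : Real.sqrt (2 * η) = s := by
    rw [hη, show 2 * (s ^ 2 / 2) = s ^ 2 by ring, Real.sqrt_sq hs0.le]
  obtain ⟨T₀, hT₀, X₁, hcore⟩ := hC W hW (η / 2) (by positivity)
  set T : ℝ := max T₀ (2 * C' / η) with hT
  have hT1 : T₀ ≤ T := le_max_left _ _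
  have hT2 : 2 * C' / η ≤ T := le_max_right _ _
  have hT3 : 1 ≤ T := hT₀.trans hT1
  have hT0 : 0 < T := by linarith
  have hl0 : 0 < 1 / T ^ 2 := by positivity
  have hl1 : 1 / T ^ 2 ≤ 1 := by
    rw [div_le_one (by positivity)]
    exact one_le_pow₀ hT3
  obtain ⟨X₂, hpap⟩ := hP a ha W hW (1 / T ^ 2) hl0 hl1
  have hWr : (1 : ℝ) ≤ W := by exact_mod_cast hW
  obtain ⟨X₃, hpar⟩ := parJ a K ((W : ℝ) + T ^ 2) ha hK1 (by positivity)
  refine ⟨max X₁ (max X₂ X₃), fun M hM v hv => ?_⟩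
  have hM1 : X₁ ≤ M := (le_max_left _ _).trans hM
  have hM2 : X₂ ≤ M := ((le_max_left _ _).trans (le_max_right _ _)).trans hM
  have hM3 : X₃ ≤ M := ((le_max_right _ _).trans (le_max_right _ _)).trans hM
  obtain ⟨g1, g2, g3, g4, g5, g6, g7, g8, g9, g10, g11, g12, g13, g14⟩ := hpar M hM3
  have hM0 : (0 : ℝ) < M := by exact_mod_cast (by omega : 0 < M)
  have hWR : W ≤ RJ a M := by
    have h1 : (0 : ℝ) ≤ T ^ 2 := by positivity
    have : (W : ℝ) ≤ RJ a M := by linarith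
    exact_mod_cast this
  have hd1 : (RJ a M : ℝ) / (K * M) ≤ 1 / T ^ 2 := by
    refine g13.trans ?_
    refine one_div_le_one_div_of_le (by positivity) ?_
    linarith
  have hX8 : 8 ≤ XJ a M := by omega
  have hR1 : (1 : ℝ) < RJ a M := by exact_mod_cast (by omega : 1 < RJ a M)
  have hlR : 0 < Real.log (RJ a M) := Real.log_pos hR1
  have hlM : 0 < Real.log M := by linarith
  have hFJ0 : 0 < FJ (RJ a M) (XJ a M) := FJ_pos hX8 g4
  have hχ : ∀ χ : DirichletCharacter ℂ W,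
      ∫ x : ℝ, ‖WXJ χ (RJ a M) (XJ a M) (RJ a M / (K * M)) x -
        WXJ χ (RJ a M) (XJ a M) (1 / T ^ 2) x‖ ^ 2 ≤ η * (FJ (RJ a M) (XJ a M)) ^ 2 := by
    intro χ
    have h1 := hcore (XJ a M) (hM1.trans g6) χ χ (RJ a M) g7 g8 (XJ a M) (RJ a M / (K * M))
      (J4_Ylow _ hX8) le_rfl g9 g10 g11 g12
    have h2 := hchar (RJ a M) (XJ a M) hX8 g4 W χ T₀ T (RJ a M / (K * M)) (η / 2) hT3 hT1 g9 hd1 h1
    refine h2.trans (mul_le_mul_of_nonneg_right ?_ (by positivity))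
    have h3 : C' / T ≤ η / 2 := by
      rw [div_le_iff₀ hη0] at hT2
      rw [div_le_iff₀ hT0]
      linarith
    linarith
  obtain ⟨B, hBdef⟩ : ∃ B : ℝ, B = c₁ / (Real.log (RJ a M) * Real.log M) / Nat.totient W := ⟨_, rfl⟩
  have hB0 : 0 < B := by
    rw [hBdef]
    positivity
  have hlow : ∀ x : ℝ, |x - Real.log M| ≤ 1 → B ≤ WJ W v (RJ a M) (XJ a M) (1 / T ^ 2) x := by
    intro x hx
    rw [hBdef]
    exact hpap M hM2 v hv x hx
  have key := hwin (RJ a M) (XJ a M) M W v K (1 / T ^ 2) η B hX8 g4 g5 hW hWR hv hK1 hl0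
    hη0.le hB0 hχ hlow
  have hGJ : c₁ / 100 * GJ a M / Nat.totient W = (RJ a M : ℝ) ^ 3 * B / 50 := by
    rw [hBdef]
    unfold GJ HJ
    push_cast
    field_simp
    norm_num
  rw [hGJ]
  unfold HJ
  refine le_trans key ?_
  rw [hsη]
  have hMB : (M : ℝ) / B * FJ (RJ a M) (XJ a M) ≤ M * (Nat.totient W / c₁) := by
    have e1 : (M : ℝ) / B * FJ (RJ a M) (XJ a M) =
        M * (Nat.totient W / c₁) * (Real.log M / Real.log (XJ a M)) := by
      rw [hBdef]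
      unfold FJ
      have : 0 < Real.log (XJ a M) := by linarith
      field_simp
    rw [e1]
    have e2 : Real.log M / Real.log (XJ a M) ≤ 1 := by
      rw [div_le_one (by linarith)]
      exact g14
    have e3 : 0 ≤ (M : ℝ) * (Nat.totient W / c₁) := by positivity
    nlinarith
  have h5 : (M : ℝ) / B * (32 * (s * FJ (RJ a M) (XJ a M)) +
      130 * Real.exp (-(K ^ 2 / 576)) * (C * FJ (RJ a M) (XJ a M))) =
      (32 * s + 130 * Real.exp (-(K ^ 2 / 576)) * C) * ((M : ℝ) / B * FJ (RJ a M) (XJ a M)) := by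
    ring
  rw [h5]
  have h6 : 0 ≤ 32 * s + 130 * Real.exp (-(K ^ 2 / 576)) * C := by positivity
  refine (mul_le_mul_of_nonneg_left hMB h6).trans ?_
  have h7 : (32 * s + 130 * Real.exp (-(K ^ 2 / 576)) * C) * ((M : ℝ) * (Nat.totient W / c₁)) =
      M * (32 * s * (Nat.totient W / c₁) + A * Real.exp (-(K ^ 2 / 576))) := by
    rw [hA]
    ring
  have h8 : 32 * s * (Nat.totient W / c₁) = δ / 2 := by
    rw [hs]
    field_simp
    ring
  rw [h7, h8, mul_comm]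
  refine mul_le_mul_of_nonneg_right ?_ (Nat.cast_nonneg _)
  linarith

end Pool.Agent.E3
end
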