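import Pool.Agent.Lib.MP_bae66e_nt.Mg.G079

section

/-!
# V1: distance to the nearest integer, geometric sums
-/

set_option autoImplicit false

namespace Pool.Agent.PP

open Finset MeasureTheory Real
open Pool.Agent.MC (ee expSum frac frac' arcSum fareySet)
open Pool.Agent.Lib.MP_bae66e_nt.AP3 (Rough rset dset prI KT flEta FLP cset Om0 xb prm)

lemma dn_nonneg (x : ℝ) : 0 ≤ dn x := abs_nonneg _

/-- Mathlib: `abs_sub_round`. -/
lemma dn_le_half (x : ℝ) : dn x ≤ 1 / 2 := abs_sub_round x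

/-- Mathlib: `round_le`. -/
lemma dn_le (x : ℝ) (n : ℤ) : dn x ≤ |x - n| := round_le x n

/-- Two applications of `dn_le`. -/
lemma dn_neg (x : ℝ) : dn (-x) = dn x := by
  apply le_antisymm
  · have h := dn_le (-x) (-round x)
    refine h.trans (le_of_eq ?_)
    unfold dn
    rw [← abs_neg]
    congr 1
    push_cast
    ring
  · have h := dn_le x (-round (-x))
    refine h.trans (le_of_eq ?_)
    unfold dn
    rw [← abs_neg]
    congr 1
    push_cast
    ring

lemma dn_add_int (x : ℝ) (n : ℤ) : dn (x + n) = dn x := by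
  unfold dn
  rw [round_add_intCast]
  congr 1
  push_cast
  ring

/-- The nearest integer to `x` is `0` (or `x = ± 1/2`): combine `dn_le x 0` with: for an integer `n`
other than `0`, `|x - n| ≥ |n| - |x| ≥ 1/2 ≥ |x|`. -/
lemma dn_eq_abs {x : ℝ} (hx : |x| ≤ 1 / 2) : dn x = |x| := by
  apply le_antisymm
  · have := dn_le x 0
    simpa using this
  · unfold dn
    by_cases h : round x = 0
    · rw [h]; simp
    · have h1 : (1 : ℝ) ≤ |((round x : ℤ) : ℝ)| := by
        have : (1 : ℤ) ≤ |round x| := Int.one_le_abs h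
        exact_mod_cast this
      have h2 : |((round x : ℤ) : ℝ)| ≤ |x| + |x - round x| := by
        have : ((round x : ℤ) : ℝ) = x + -(x - round x) := by ring
        calc |((round x : ℤ) : ℝ)| = |x + -(x - round x)| := by rw [← this]
          _ ≤ |x| + |-(x - round x)| := abs_add_le _ _
          _ = |x| + |x - round x| := by rw [abs_neg]
      linarith

/-- `dn` is 1-Lipschitz: `dn x ≤ |x - round y| ≤ |x - y| + dn y`. -/
lemma dn_sub_le (x y : ℝ) : dn x ≤ dn y + |x - y| := by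
  have h := dn_le x (round y)
  refine h.trans ?_
  unfold dn
  have : x - (round y : ℤ) = (y - (round y : ℤ)) + (x - y) := by ring
  rw [this]
  exact abs_add_le _ _

/-- If `q ∤ k` then `k a / q` has distance at least `1/q` from the integers. For an integer `n`,
`|k a / q - n| = |k a - n q| / q` and `k a - n q ≠ 0` is an integer (since `q ∣ k a` would give `q ∣ k`). -/
lemma dn_rat_ge (q : ℕ) (hq : 1 ≤ q) (a k : ℤ) (ha : IsCoprime a (q : ℤ)) (hk : ¬ (q : ℤ) ∣ k) :
    1 / (q : ℝ) ≤ dn ((k : ℝ) * (a / q)) := by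
  have hq0 : (0 : ℝ) < q := by exact_mod_cast hq
  unfold dn
  set n : ℤ := round ((k : ℝ) * (a / q)) with hn
  have hne : k * a - n * q ≠ 0 := by
    intro h
    apply hk
    have h1 : (q : ℤ) ∣ k * a := ⟨n, by linarith⟩
    exact ha.symm.dvd_of_dvd_mul_right h1
  have h1 : (1 : ℝ) ≤ |((k * a - n * q : ℤ) : ℝ)| := by
    have : (1 : ℤ) ≤ |k * a - n * q| := Int.one_le_abs hne
    exact_mod_cast this
  have h2 : (k : ℝ) * (a / q) - n = ((k * a - n * q : ℤ) : ℝ) / q := by
    push_cast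
    field_simp
  rw [h2, abs_div, abs_of_pos hq0]
  exact div_le_div_of_nonneg_right h1 hq0.le

lemma GG_nonneg {N : ℝ} (x : ℝ) (hN : 0 ≤ N) : 0 ≤ GG N x := by
  unfold GG
  have : (0 : ℝ) ≤ max 1 (N * dn x) := zero_le_one.trans (le_max_left _ _)
  exact div_nonneg hN this

lemma GG_le {N : ℝ} (x : ℝ) (hN : 0 ≤ N) : GG N x ≤ N := by
  unfold GG
  exact div_le_self hN (le_max_left _ _)

/-- `max 1 (N dn x) ≥ N dn x`; the case `N = 0` is trivial. -/
lemma GG_le_inv {N x : ℝ} (hN : 0 ≤ N) (hx : 0 < dn x) : GG N x ≤ 1 / dn x := by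
  unfold GG
  have h1 : (0 : ℝ) < max 1 (N * dn x) := zero_lt_one.trans_le (le_max_left _ _)
  rw [div_le_div_iff₀ h1 hx, one_mul]
  exact le_max_right _ _

/-- Monotone in `N`: if `N dn x ≤ 1` then `GG N x = N`; else `GG N x = 1/dn x = GG N' x`. -/
lemma GG_mono {N N' : ℝ} (x : ℝ) (hN : 0 ≤ N) (hNN : N ≤ N') : GG N x ≤ GG N' x := by
  unfold GG
  have h1 : (0 : ℝ) < max 1 (N * dn x) := zero_lt_one.trans_le (le_max_left _ _)
  have h2 : (0 : ℝ) < max 1 (N' * dn x) := zero_lt_one.trans_le (le_max_left _ _)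
  have hN' : 0 ≤ N' := hN.trans hNN
  rw [div_le_div_iff₀ h1 h2]
  rcases max_cases 1 (N' * dn x) with h | h
  · rw [h.1, mul_one]
    calc N ≤ N' := hNN
      _ = N' * 1 := (mul_one _).symm
      _ ≤ N' * max 1 (N * dn x) := mul_le_mul_of_nonneg_left (le_max_left _ _) hN'
  · rw [h.1]
    calc N * (N' * dn x) = N' * (N * dn x) := by ring
      _ ≤ N' * max 1 (N * dn x) := mul_le_mul_of_nonneg_left (le_max_right _ _) hN'

/-- `GG N x = min (N, 1/dn x)`: lower bound form. -/
lemma le_GG {t N x : ℝ} (hN : 0 ≤ N) (ht : t ≤ N) (h : t * dn x ≤ 1) (ht0 : 0 ≤ t) : t ≤ GG N x := by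
  unfold GG
  have h1 : (0 : ℝ) < max 1 (N * dn x) := zero_lt_one.trans_le (le_max_left _ _)
  rw [le_div_iff₀ h1]
  rcases max_cases 1 (N * dn x) with h2 | h2
  · rw [h2.1, mul_one]; exact ht
  · rw [h2.1]
    calc t * (N * dn x) = N * (t * dn x) := by ring
      _ ≤ N * 1 := mul_le_mul_of_nonneg_left h hN
      _ = N := mul_one _

lemma GG_neg (N x : ℝ) : GG N (-x) = GG N x := by
  simp only [GG, dn_neg]

lemma V1_norm_ee_sub_one (x : ℝ) : ‖ee x - 1‖ = 2 * |Real.sin (π * x)| := by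
  have h : ee x - 1 = Complex.exp ((π * x : ℝ) * Complex.I) *
      (2 * Complex.I * Complex.sin ((π * x : ℝ) : ℂ)) := by
    unfold ee
    rw [Complex.sin]
    have h1 : Complex.exp (2 * π * x * Complex.I)
        = Complex.exp ((π * x : ℝ) * Complex.I) * Complex.exp ((π * x : ℝ) * Complex.I) := by
      rw [← Complex.exp_add]
      congr 1
      push_cast
      ring
    have h2 : Complex.exp ((π * x : ℝ) * Complex.I) * Complex.exp (-((π * x : ℝ) : ℂ) * Complex.I)
        = 1 := by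
      rw [← Complex.exp_add]
      simp
    rw [h1]
    linear_combination (1 : ℂ) * h2 - (Complex.exp ((π * x : ℝ) * Complex.I) *
      (Complex.exp (-((π * x : ℝ) : ℂ) * Complex.I) - Complex.exp ((π * x : ℝ) * Complex.I))) *
      Complex.I_sq
  rw [h, norm_mul, Complex.norm_exp_ofReal_mul_I, one_mul, norm_mul, norm_mul,
    Complex.norm_I, ← Complex.ofReal_sin, Complex.norm_real]
  simp

lemma V1_two_dn_le (x : ℝ) : 2 * dn x ≤ |Real.sin (π * x)| := by
  set n : ℤ := round x with hn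
  have h1 : |Real.sin (π * x)| = |Real.sin (π * (x - n))| := by
    have : π * (x - n) = π * x - n * π := by ring
    rw [this, Real.sin_sub_int_mul_pi, abs_mul, abs_neg_one_zpow, one_mul]
  have hh : |x - n| ≤ 1 / 2 := dn_le_half x
  have h2 : |π * (x - n)| ≤ π / 2 := by
    rw [abs_mul, abs_of_pos Real.pi_pos]
    nlinarith [Real.pi_pos]
  have h3 := Real.mul_abs_le_abs_sin h2
  rw [h1]
  refine le_trans (le_of_eq ?_) h3
  rw [abs_mul, abs_of_pos Real.pi_pos]
  have hpi := Real.pi_pos.ne'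
  unfold dn
  rw [← hn]
  field_simp

lemma V1_tele (x : ℝ) (a b : ℕ) (hab : a ≤ b) :
    (∑ m ∈ Ioc a b, ee (m * x)) * (ee x - 1)
      = ee (((b + 1 : ℕ) : ℝ) * x) - ee (((a + 1 : ℕ) : ℝ) * x) := by
  induction b, hab using Nat.le_induction with
  | base => simp
  | succ b hb ih =>
    rw [Finset.sum_Ioc_succ_top hb, add_mul, ih]
    have h1 : ee (((b + 1 + 1 : ℕ) : ℝ) * x) = ee (((b + 1 : ℕ) : ℝ) * x) * ee x := by
      rw [← Pool.Agent.MC.ee_add]
      congr 1
      push_cast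
      ring
    rw [h1]
    ring

/-- The geometric sum. Trivially `≤ b - a`. If `dn x > 0` then `ee x ≠ 1` and
`∑ = ee ((a+1) x) (ee ((b-a) x) - 1)/(ee x - 1)`, so the norm is `≤ 2/‖ee x - 1‖ = 1/|sin (π x)| ≤ 1/(2 dn x)`
(`|sin (π x)| = sin (π dn x) ≥ 2 dn x`, since `sin (π t) ≥ 2 t` on `[0,1/2]`: `Real.mul_le_sin`).
See `MC.norm_ee_sub_one` in `Lib/MP_9cfc0a_nt/Gallagher.lean` for `‖ee x - 1‖ = 2 |sin (π x)|` (copy the proof).
Conclude with `le_GG`. -/
lemma geo_sum (x : ℝ) (a b : ℕ) (hab : a ≤ b) :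
    ‖∑ m ∈ Ioc a b, ee (m * x)‖ ≤ GG ((b : ℝ) - a) x := by
  have hab' : (a : ℝ) ≤ b := by exact_mod_cast hab
  apply le_GG (by linarith)
  · refine (norm_sum_le _ _).trans (le_of_eq ?_)
    rw [Finset.sum_congr rfl (fun (m : ℕ) _ => Pool.Agent.MC.norm_ee ((m : ℝ) * x))]
    rw [Finset.sum_const, Nat.card_Ioc, nsmul_eq_mul, mul_one, Nat.cast_sub hab]
  · have h := congrArg norm (V1_tele x a b hab)
    rw [norm_mul, V1_norm_ee_sub_one] at h
    have h2 : ‖ee (((b + 1 : ℕ) : ℝ) * x) - ee (((a + 1 : ℕ) : ℝ) * x)‖ ≤ 2 := by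
      refine (norm_sub_le _ _).trans ?_
      rw [Pool.Agent.MC.norm_ee, Pool.Agent.MC.norm_ee]
      norm_num
    have h3 := V1_two_dn_le x
    have h4 : 0 ≤ ‖∑ m ∈ Ioc a b, ee (m * x)‖ := norm_nonneg _
    have h5 := dn_nonneg x
    nlinarith
  · exact norm_nonneg _

end Pool.Agent.PP
end

section

/-!
# F1: the fourth moment is the sum of the squares of the autocorrelations
-/

set_option autoImplicit false

namespace Pool.Agent.PP

open Finset MeasureTheory Real
open Pool.Agent.MC (ee expSum frac frac' arcSum fareySet)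
open Pool.Agent.Lib.MP_bae66e_nt.AP3 (Rough rset dset prI KT flEta FLP cset Om0 xb prm)

/-- PROOF. `S(α) = expSum f (y+1) α`. `‖S‖² ee (y α) = ∑_{n, n' ≤ y} f(n) f(n') ee ((n + y - n') α) = expSum g (2 y + 1) α` with
`g m = ∑_{n, n' ≤ y, n + y - n' = m} f(n) f(n')`, so `‖S‖⁴ = ‖expSum g (2y+1) α‖²` and `MC.parseval` gives
`∫ ‖S‖⁴ = ∑_{m < 2y+1} ‖g m‖² ≥ ∑_{d < y} (g (y + d))²`, and `g (y + d) = ∑_{n - n' = d} f(n) f(n') = corr f y d` (`f 0 = 0`). -/
lemma corr_sq_le (f : ℕ → ℝ) (hf0 : f 0 = 0) (y : ℕ) :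
    ∑ d ∈ range y, corr f y d ^ 2
      ≤ ∫ α in (0:ℝ)..1, ‖expSum (fun n => ((f n : ℝ) : ℂ)) (y + 1) α‖ ^ 4 := by
  classical
  set P : Finset (ℕ × ℕ) := range (y + 1) ×ˢ range (y + 1) with hP
  set gR : ℕ → ℝ := fun m => ∑ p ∈ P.filter (fun p => p.1 + (y - p.2) = m), f p.1 * f p.2 with hgR
  have hpt : ∀ α : ℝ, ‖expSum (fun n => ((f n : ℝ) : ℂ)) (y + 1) α‖ ^ 4 =
      ‖expSum (fun m => ((gR m : ℝ) : ℂ)) (2 * y + 1) α‖ ^ 2 := by
    intro α
    have h1 : expSum (fun m => ((gR m : ℝ) : ℂ)) (2 * y + 1) α =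
        ee (y * α) * (expSum (fun n => ((f n : ℝ) : ℂ)) (y + 1) α *
          (starRingEnd ℂ) (expSum (fun n => ((f n : ℝ) : ℂ)) (y + 1) α)) := by
      have h2 : expSum (fun m => ((gR m : ℝ) : ℂ)) (2 * y + 1) α =
          ∑ p ∈ P, ((f p.1 : ℝ) : ℂ) * ((f p.2 : ℝ) : ℂ) *
            ee (((p.1 + (y - p.2) : ℕ) : ℝ) * α) := by
        unfold expSum
        rw [← Finset.sum_fiberwise_of_maps_to (s := P) (t := range (2 * y + 1))
          (g := fun p => p.1 + (y - p.2))]
        · refine Finset.sum_congr rfl fun m _ => ?_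
          simp only [hgR]
          push_cast
          rw [Finset.sum_mul]
          refine Finset.sum_congr rfl fun p hp => ?_
          rw [Finset.mem_filter] at hp
          rw [← hp.2]
          push_cast
          rfl
        · intro p hp
          rw [hP, Finset.mem_product, Finset.mem_range, Finset.mem_range] at hp
          rw [Finset.mem_range]
          omega
      rw [h2]
      unfold expSum
      rw [map_sum, Finset.sum_mul_sum, hP, Finset.sum_product, Finset.mul_sum]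
      refine Finset.sum_congr rfl fun n _ => ?_
      rw [Finset.mul_sum]
      refine Finset.sum_congr rfl fun m hm => ?_
      have hm' : m ≤ y := by
        have := Finset.mem_range.1 hm
        omega
      have h3 : (((n + (y - m) : ℕ) : ℝ)) * α = y * α + (n * α + -(m * α)) := by
        rw [Nat.cast_add, Nat.cast_sub hm']
        ring
      rw [map_mul, Pool.Agent.MC.conj_ee, Complex.conj_ofReal]
      dsimp only
      rw [h3, Pool.Agent.MC.ee_add, Pool.Agent.MC.ee_add]
      ring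
    rw [h1, norm_mul, Pool.Agent.MC.norm_ee, one_mul, norm_mul, RCLike.norm_conj]
    ring
  have hint : ∫ α in (0:ℝ)..1, ‖expSum (fun n => ((f n : ℝ) : ℂ)) (y + 1) α‖ ^ 4 =
      ∑ m ∈ range (2 * y + 1), ‖((gR m : ℝ) : ℂ)‖ ^ 2 := by
    rw [← Pool.Agent.MC.parseval]
    exact intervalIntegral.integral_congr fun α _ => hpt α
  rw [hint]
  have hcorr : ∀ d ∈ range y, corr f y d = gR (y + d) := by
    intro d hd
    have hd' := Finset.mem_range.1 hd
    simp only [hgR]
    unfold corr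
    symm
    have h1 : ∑ p ∈ P.filter (fun p => p.1 + (y - p.2) = y + d), f p.1 * f p.2 =
        ∑ n ∈ range (y - d + 1), f (n + d) * f n := by
      refine Finset.sum_nbij' (fun p => p.2) (fun n => (n + d, n)) ?_ ?_ ?_ ?_ ?_
      · intro p hp
        rw [Finset.mem_filter, hP, Finset.mem_product, Finset.mem_range, Finset.mem_range] at hp
        rw [Finset.mem_range]
        omega
      · intro n hn
        rw [Finset.mem_range] at hn
        rw [Finset.mem_filter, hP, Finset.mem_product, Finset.mem_range, Finset.mem_range]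
        refine ⟨⟨?_, ?_⟩, ?_⟩
        · change n + d < y + 1
          omega
        · change n < y + 1
          omega
        · change n + d + (y - n) = y + d
          omega
      · intro p hp
        rw [Finset.mem_filter, hP, Finset.mem_product, Finset.mem_range, Finset.mem_range] at hp
        refine Prod.ext ?_ rfl
        change p.2 + d = p.1
        omega
      · intro n _
        rfl
      · intro p hp
        rw [Finset.mem_filter, hP, Finset.mem_product, Finset.mem_range, Finset.mem_range] at hp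
        have : p.1 = p.2 + d := by omega
        rw [this]
    rw [h1, Finset.range_eq_Ico, Finset.sum_eq_sum_Ico_succ_bot (by omega), hf0, mul_zero, zero_add]
    have h2 : Finset.Ico (0 + 1) (y - d + 1) = Finset.Icc 1 (y - d) := by
      ext n
      rw [Finset.mem_Ico, Finset.mem_Icc]
      omega
    rw [h2]
    exact Finset.sum_congr rfl fun n _ => mul_comm _ _
  rw [Finset.sum_congr rfl fun d hd => by rw [hcorr d hd]]
  have h3 : ∀ m, ‖((gR m : ℝ) : ℂ)‖ ^ 2 = gR m ^ 2 := by
    intro m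
    rw [Complex.norm_real, Real.norm_eq_abs, sq_abs]
  simp only [h3]
  have h4 : ∑ d ∈ range y, gR (y + d) ^ 2 = ∑ m ∈ (range y).map (addLeftEmbedding y), gR m ^ 2 := by
    rw [Finset.sum_map]
    rfl
  rw [h4]
  refine Finset.sum_le_sum_of_subset_of_nonneg ?_ (fun m _ _ => sq_nonneg _)
  intro m hm
  rw [Finset.mem_map] at hm
  obtain ⟨d, hd, rfl⟩ := hm
  rw [Finset.mem_range] at hd ⊢
  change y + d < 2 * y + 1
  omega

end Pool.Agent.PP
end

section

/-!
# L1: twisting by squarefree moduli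
-/

set_option autoImplicit false

namespace Pool.Agent.PP

open Finset MeasureTheory Real
open Pool.Agent.MC (ee expSum frac frac' arcSum fareySet)
open Pool.Agent.Lib.MP_bae66e_nt.AP3 (Rough rset dset prI KT flEta FLP cset Om0 xb prm)

/-- PROOF. Induction on the number of prime factors of `r` (e.g. `Nat.recOnPosPrimePosCoprime`, `induction_on_primes`
or strong induction: `r = l r'` with `l = r.minFac`, `l ∤ r'`), with `MC.arcSum_twist` applied to `q r'` and the prime `l`;
`φ(l r') = (l - 1) φ(r')`. For `r = 1` equality. -/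
lemma arcSum_twist_sqf (f : ℕ → ℂ) (B q r : ℕ) (hq : 1 ≤ q) (hr : Squarefree r)
    (hqr : Nat.Coprime q r) (hf : ∀ l : ℕ, l.Prime → l ∣ r → ∀ n, l ∣ n → f n = 0) (β : ℝ) :
    arcSum f B q β ≤ (Nat.totient r : ℝ) * arcSum f B (q * r) β := by
  induction r using Nat.strong_induction_on with
  | _ r ih =>
    by_cases hr1 : r = 1
    · subst hr1
      rw [Nat.totient_one, Nat.cast_one, one_mul, mul_one]
    · have hr0 : r ≠ 0 := hr.ne_zero
      have hl : r.minFac.Prime := Nat.minFac_prime hr1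
      obtain ⟨r', hr'⟩ := Nat.minFac_dvd r
      set l := r.minFac with hldef
      have hr'0 : 0 < r' := by
        rcases Nat.eq_zero_or_pos r' with h | h
        · rw [h, mul_zero] at hr'
          exact absurd hr' hr0
        · exact h
      have hcop : Nat.Coprime l r' := by
        have := hr
        rw [hr'] at this
        exact Nat.coprime_of_squarefree_mul this
      have hr'sq : Squarefree r' := by
        have := hr
        rw [hr'] at this
        exact this.of_mul_right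
      have hlt : r' < r := by
        rw [hr']
        have := hl.two_le
        nlinarith
      have hqr' : Nat.Coprime q r' := Nat.Coprime.coprime_dvd_right ⟨l, by rw [hr']; ring⟩ hqr
      have hql : Nat.Coprime q l := Nat.Coprime.coprime_dvd_right ⟨r', hr'⟩ hqr
      have h1 := ih r' hlt hr'sq hqr' (fun l' hl' hd => hf l' hl' (hd.trans ⟨l, by rw [hr']; ring⟩))
      have hnd : ¬ l ∣ q * r' := by
        intro h
        rcases (Nat.Prime.dvd_mul hl).mp h with h | h
        · exact ((hl.coprime_iff_not_dvd).mp hql.symm) h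
        · exact ((hl.coprime_iff_not_dvd).mp hcop) h
      have h2 := Pool.Agent.MC.arcSum_twist f B (q * r') l (Nat.mul_pos hq hr'0) hl hnd
        (fun n hn => hf l hl ⟨r', hr'⟩ n hn) β
      have h3 : (Nat.totient r : ℝ) = ((l : ℝ) - 1) * Nat.totient r' := by
        have h4 : Nat.totient r = (l - 1) * Nat.totient r' := by
          conv_lhs => rw [hr']
          rw [Nat.totient_mul hcop, Nat.totient_prime hl]
        rw [h4, Nat.cast_mul, Nat.cast_sub hl.one_lt.le, Nat.cast_one]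
      have h5 : q * r' * l = q * r := by rw [hr']; ring
      rw [h5] at h2
      calc arcSum f B q β ≤ (Nat.totient r' : ℝ) * arcSum f B (q * r') β := h1
        _ ≤ (Nat.totient r' : ℝ) * (((l : ℝ) - 1) * arcSum f B (q * r) β) :=
            mul_le_mul_of_nonneg_left h2 (Nat.cast_nonneg _)
        _ = (Nat.totient r : ℝ) * arcSum f B (q * r) β := by rw [h3]; ring

end Pool.Agent.PP
end

section

/-!
# L2: small denominators carry a small part of the mass
-/

set_option autoImplicit false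

namespace Pool.Agent.PP

open Finset MeasureTheory Real
open Pool.Agent.MC (ee expSum frac frac' arcSum fareySet)
open Pool.Agent.Lib.MP_bae66e_nt.AP3 (Rough rset dset prI KT flEta FLP cset Om0 xb prm)

/-- PROOF (as `MC.small_arcs`, file `Lib/MP_9cfc0a_nt/Arcs.lean`). Put `I q = ∫_{-T}^{T} arcSum f B q ≥ 0`. For `q ≤ D` and
`r ∈ dset D (Q / D)` (squarefree, all prime factors `> D`, `r ≤ Q/D`) `q` and `r` are coprime and all primes dividing `r`
are `≤ Q`, so `arcSum_twist_sqf` gives `I q ≤ φ(r) I (q r)`. Hence `(∑_r 1/φ(r)) ∑_q I q ≤ ∑_{(q,r)} I (q r)`. The map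
`(q, r) ↦ q r` is injective (`r` is the part of `q r` composed of primes `> D`: if `q r = q' r'` then `r ∣ q' r'` and
`r` coprime to `q' ≤ D` give `r ∣ r'`, and conversely) with values in `Icc 1 Q`, so the sum is `≤ ∑_{q ≤ Q} I q ≤ ∑ ‖f n‖²`
by `MC.sum_arcs_le`. -/
lemma small_arcs_rough (f : ℕ → ℂ) (B D Q : ℕ) (hD : 1 ≤ D) (hDQ : D ≤ Q)
    (hf : ∀ l n : ℕ, l.Prime → l ≤ Q → l ∣ n → f n = 0) (T : ℝ) (hT0 : 0 ≤ T)
    (hT : 2 * T ≤ 1 / (Q : ℝ) ^ 2) :
    (∑ r ∈ dset D (Q / D), 1 / (Nat.totient r : ℝ)) *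
      ∑ q ∈ Icc 1 D, ∫ β in (-T)..T, arcSum f B q β ≤ ∑ n ∈ range B, ‖f n‖ ^ 2 := by
  classical
  set I : ℕ → ℝ := fun q => ∫ β in (-T)..T, arcSum f B q β with hI
  have hI0 : ∀ q, 0 ≤ I q := fun q => by
    simp only [hI]
    exact intervalIntegral.integral_nonneg (by linarith) fun β _ => Pool.Agent.MC.arcSum_nonneg f B q β
  have hmemd : ∀ r ∈ dset D (Q / D), (0 < r ∧ r * D ≤ Q) ∧ Rough D r ∧ Squarefree r := by
    intro r hr
    rw [Pool.Agent.Lib.MP_bae66e_nt.AP3.mem_dset] at hr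
    exact ⟨⟨hr.1.1.1, (Nat.le_div_iff_mul_le hD).mp hr.1.1.2⟩, hr.1.2, hr.2⟩
  have hcop : ∀ q ∈ Icc 1 D, ∀ r, Rough D r → Nat.Coprime q r := by
    intro q hq r hr
    rw [Finset.mem_Icc] at hq
    rw [Nat.coprime_iff_gcd_eq_one]
    by_contra hne
    obtain ⟨p, hp, hpd⟩ := Nat.exists_prime_and_dvd hne
    have h1 := Nat.le_of_dvd (by omega) (hpd.trans (Nat.gcd_dvd_left q r))
    have h2 := hr p hp (hpd.trans (Nat.gcd_dvd_right q r))
    omega
  have htw : ∀ q ∈ Icc 1 D, ∀ r ∈ dset D (Q / D), 1 / (Nat.totient r : ℝ) * I q ≤ I (q * r) := by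
    intro q hq r hr
    obtain ⟨⟨hr0, hrQ⟩, hrr, hrs⟩ := hmemd r hr
    have hc := hcop q hq r hrr
    rw [Finset.mem_Icc] at hq
    have hphi : (0 : ℝ) < (Nat.totient r : ℝ) := by exact_mod_cast Nat.totient_pos.mpr hr0
    have hrQ' : r ≤ Q := le_trans (Nat.le_mul_of_pos_right r hD) hrQ
    have hle : I q ≤ (Nat.totient r : ℝ) * I (q * r) := by
      simp only [hI]
      rw [← intervalIntegral.integral_const_mul]
      refine intervalIntegral.integral_mono_on (by linarith)
        ((Pool.Agent.MC.continuous_arcSum f B q).intervalIntegrable _ _)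
        ((continuous_const.mul (Pool.Agent.MC.continuous_arcSum f B (q * r))).intervalIntegrable _ _) ?_
      intro β _
      refine arcSum_twist_sqf f B q r hq.1 hrs hc ?_ β
      intro l hl hlr n hln
      exact hf l n hl ((Nat.le_of_dvd hr0 hlr).trans hrQ') hln
    rw [one_div, inv_mul_le_iff₀ hphi]
    exact hle
  have h1 : (∑ r ∈ dset D (Q / D), 1 / (Nat.totient r : ℝ)) * ∑ q ∈ Icc 1 D, I q
      ≤ ∑ x ∈ Icc 1 D ×ˢ dset D (Q / D), I (x.1 * x.2) := by
    rw [Finset.sum_mul_sum, Finset.sum_comm, Finset.sum_product]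
    apply Finset.sum_le_sum
    intro q hq
    apply Finset.sum_le_sum
    intro r hr
    exact htw q hq r hr
  have hinj : Set.InjOn (fun x : ℕ × ℕ => x.1 * x.2) (Icc 1 D ×ˢ dset D (Q / D) : Finset (ℕ × ℕ)) := by
    intro x hx y hy hxy
    rw [Finset.mem_coe, Finset.mem_product] at hx hy
    obtain ⟨⟨hx0, _⟩, hxr, _⟩ := hmemd _ hx.2
    obtain ⟨⟨hy0, _⟩, hyr, _⟩ := hmemd _ hy.2
    have hxy' : x.1 * x.2 = y.1 * y.2 := hxy
    have hd1 : x.2 ∣ y.1 * y.2 := ⟨x.1, by rw [← hxy']; ring⟩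
    have hd2 : y.2 ∣ x.1 * x.2 := ⟨y.1, by rw [hxy']; ring⟩
    have hd3 : x.2 ∣ y.2 := (hcop y.1 hy.1 x.2 hxr).symm.dvd_of_dvd_mul_left hd1
    have hd4 : y.2 ∣ x.2 := (hcop x.1 hx.1 y.2 hyr).symm.dvd_of_dvd_mul_left hd2
    have h2 : x.2 = y.2 := Nat.dvd_antisymm hd3 hd4
    have h3 : x.1 = y.1 := by
      rw [h2] at hxy'
      exact Nat.eq_of_mul_eq_mul_right hy0 hxy'
    exact Prod.ext h3 h2
  have h2 : ∑ x ∈ Icc 1 D ×ˢ dset D (Q / D), I (x.1 * x.2)
      = ∑ q ∈ (Icc 1 D ×ˢ dset D (Q / D)).image (fun x : ℕ × ℕ => x.1 * x.2), I q := by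
    rw [Finset.sum_image hinj]
  have hsub : ((Icc 1 D ×ˢ dset D (Q / D)).image (fun x : ℕ × ℕ => x.1 * x.2)) ⊆ Icc 1 Q := by
    intro q hq
    rw [Finset.mem_image] at hq
    obtain ⟨x, hx, rfl⟩ := hq
    rw [Finset.mem_product] at hx
    obtain ⟨⟨hx0, hxQ⟩, _, _⟩ := hmemd _ hx.2
    have hx1 := Finset.mem_Icc.mp hx.1
    rw [Finset.mem_Icc]
    refine ⟨Nat.mul_pos (by omega) hx0, ?_⟩
    calc x.1 * x.2 ≤ D * x.2 := Nat.mul_le_mul_right _ hx1.2
      _ ≤ Q := by rw [mul_comm]; exact hxQ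
  refine h1.trans ?_
  rw [h2]
  refine (Finset.sum_le_sum_of_subset_of_nonneg hsub fun q _ _ => hI0 q).trans ?_
  exact Pool.Agent.MC.sum_arcs_le f B Q (by omega) T hT0 hT

end Pool.Agent.PP
end
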