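import Pool.Agent.Lib.MP_bae66e_nt.Mg.G012
import Pool.Agent.Lib.MP_9cfc0a_nt.LargeSieve
import Pool.Agent.Lib.MP_bae66e_nt.Mg.G079
import Pool.Agent.Lib.MP_bae66e_nt.Mg.G080
import Pool.Agent.Lib.MP_bae66e_nt.Mg.G017
import Pool.Agent.Lib.MP_9cfc0a_nt.Arcs
import Pool.Agent.Lib.MP_bae66e_nt.Mg.G006
import Pool.Agent.Lib.MP_bae66e_nt.Mg.G019

section

/-!
# J6: the energy in residue classes
-/

set_option autoImplicit false

namespace Pool.Agent.E3

open Finset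

private theorem J6_upper (G : ℕ → ℝ) (H s t : ℕ) (hG : ∀ x, H < x → G x = 0) :
    ∑ u ∈ (Icc 1 H).filter (fun u => s ∣ u), G (t + u)
      = ∑ t' ∈ (Icc 1 H).filter (fun t' => t < t' ∧ t' % s = t % s), G t' := by
  classical
  have h1 : ∑ u ∈ (Icc 1 H).filter (fun u => s ∣ u), G (t + u)
      = ∑ u ∈ (Icc 1 (H - t)).filter (fun u => s ∣ u), G (t + u) := by
    symm
    apply Finset.sum_subset
    · intro u hu
      simp only [mem_filter, mem_Icc] at hu ⊢
      exact ⟨⟨hu.1.1, by omega⟩, hu.2⟩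
    · intro u hu hu'
      simp only [mem_filter, mem_Icc] at hu hu'
      apply hG
      by_contra hc
      exact hu' ⟨⟨hu.1.1, by omega⟩, hu.2⟩
  rw [h1]
  refine Finset.sum_bij' (fun u _ => t + u) (fun t' _ => t' - t) ?_ ?_ ?_ ?_ ?_
  · intro u hu
    simp only [mem_filter, mem_Icc] at hu ⊢
    obtain ⟨⟨h2, h3⟩, k, rfl⟩ := hu
    refine ⟨⟨by omega, by omega⟩, by omega, ?_⟩
    simp
  · intro t' ht'
    simp only [mem_filter, mem_Icc] at ht' ⊢
    obtain ⟨⟨h2, h3⟩, h4, h5⟩ := ht'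
    refine ⟨⟨by omega, by omega⟩, ?_⟩
    exact (Nat.modEq_iff_dvd' h4.le).mp h5.symm
  · intro u hu
    simp
  · intro t' ht'
    simp only [mem_filter, mem_Icc] at ht'
    show t + (t' - t) = t'
    omega
  · intro u hu
    rfl

private theorem J6_pair (G : ℕ → ℝ) (H s : ℕ) (hs : 1 ≤ s) (hG : ∀ x, H < x → G x = 0) :
    ∑ b ∈ range s, (∑ t ∈ (Icc 1 H).filter (fun t => t % s = b), G t) ^ 2
      = ∑ t ∈ Icc 1 H, G t ^ 2
        + 2 * ∑ u ∈ (Icc 1 H).filter (fun u => s ∣ u), ∑ t ∈ Icc 1 H, G t * G (t + u) := by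
  classical
  have h1 : ∑ b ∈ range s, (∑ t ∈ (Icc 1 H).filter (fun t => t % s = b), G t) ^ 2
      = ∑ t ∈ Icc 1 H, ∑ t' ∈ (Icc 1 H).filter (fun t' => t' % s = t % s), G t * G t' := by
    have h2 : ∀ b ∈ range s, (∑ t ∈ (Icc 1 H).filter (fun t => t % s = b), G t) ^ 2
        = ∑ t ∈ (Icc 1 H).filter (fun t => t % s = b),
            ∑ t' ∈ (Icc 1 H).filter (fun t' => t' % s = t % s), G t * G t' := by
      intro b hb
      rw [sq, Finset.sum_mul]
      refine Finset.sum_congr rfl fun t ht => ?_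
      rw [(mem_filter.mp ht).2, Finset.mul_sum]
    rw [Finset.sum_congr rfl h2]
    exact Finset.sum_fiberwise_of_maps_to (fun t _ => mem_range.mpr (Nat.mod_lt _ (by omega))) _
  rw [h1]
  have hsplit : ∀ t ∈ Icc 1 H, ∑ t' ∈ (Icc 1 H).filter (fun t' => t' % s = t % s), G t * G t'
      = G t ^ 2 + ∑ t' ∈ (Icc 1 H).filter (fun t' => t < t' ∧ t' % s = t % s), G t * G t'
        + ∑ t' ∈ (Icc 1 H).filter (fun t' => t' < t ∧ t' % s = t % s), G t * G t' := by
    intro t ht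
    have e1 : ∀ t' : ℕ, (if t' % s = t % s then G t * G t' else 0)
        = (if t' = t then G t * G t' else 0) + (if (t < t' ∧ t' % s = t % s) then G t * G t' else 0)
          + (if (t' < t ∧ t' % s = t % s) then G t * G t' else 0) := by
      intro t'
      rcases lt_trichotomy t t' with h | h | h
      · have h' : ¬ t' < t := by omega
        have h'' : t' ≠ t := by omega
        simp [h, h', h'']
      · subst h
        simp
      · have h' : ¬ t < t' := by omega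
        have h'' : t' ≠ t := by omega
        simp [h, h', h'']
    rw [Finset.sum_filter, Finset.sum_congr rfl (fun t' _ => e1 t'), Finset.sum_add_distrib,
      Finset.sum_add_distrib, Finset.sum_ite_eq' (Icc 1 H) t, if_pos ht, Finset.sum_filter,
      Finset.sum_filter, sq]
  rw [Finset.sum_congr rfl hsplit, Finset.sum_add_distrib, Finset.sum_add_distrib]
  have hA : ∑ t ∈ Icc 1 H, ∑ t' ∈ (Icc 1 H).filter (fun t' => t < t' ∧ t' % s = t % s), G t * G t'
      = ∑ u ∈ (Icc 1 H).filter (fun u => s ∣ u), ∑ t ∈ Icc 1 H, G t * G (t + u) := by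
    rw [Finset.sum_comm' (s := (Icc 1 H).filter (fun u => s ∣ u)) (t := fun _ => Icc 1 H)
      (t' := Icc 1 H) (s' := fun _ => (Icc 1 H).filter (fun u => s ∣ u))
      (by intro x y; tauto)]
    refine Finset.sum_congr rfl fun t _ => ?_
    rw [← Finset.mul_sum, ← Finset.mul_sum, J6_upper G H s t hG]
  have hB : ∑ t ∈ Icc 1 H, ∑ t' ∈ (Icc 1 H).filter (fun t' => t' < t ∧ t' % s = t % s), G t * G t'
      = ∑ t ∈ Icc 1 H, ∑ t' ∈ (Icc 1 H).filter (fun t' => t < t' ∧ t' % s = t % s), G t * G t' := by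
    rw [Finset.sum_comm' (t' := Icc 1 H)
      (s' := fun t' => (Icc 1 H).filter (fun t => t' < t ∧ t % s = t' % s))]
    · refine Finset.sum_congr rfl fun t _ => Finset.sum_congr rfl fun t' _ => mul_comm _ _
    · intro x y
      simp only [mem_filter]
      constructor
      · rintro ⟨h1, h2, h3, h4⟩
        exact ⟨⟨h1, h3, h4.symm⟩, h2⟩
      · rintro ⟨⟨h1, h3, h4⟩, h2⟩
        exact ⟨h1, h2, h3, h4.symm⟩
  rw [hB, hA]
  ring

/-- PROOF. Let `F t = f t` for `1 ≤ t ≤ H` and `0` elsewhere. `∑_b cb(b, h)² = ∑_{t ≡ t' (s)} F t F(t+h) F t' F(t'+h)` (over `t, t' ≤ H - h`). The terms with `t = t'`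
give, summed over `h ≥ 1`, at most `(∑ f²)²`. The terms with `t' = t + u`, `u ≥ 1`, `s ∣ u`, and those with `t = t' + u`, give
`2 ∑_{u} ∑_{h ≥ 1} ∑_t F t F(t+u) F(t+h) F(t+u+h)`. And `(corr f H u)² = ∑_{x, y} F x F(x+u) F y F(y+u) = ∑_x (F x F(x+u))² +
2 ∑_{h ≥ 1} ∑_t F t F(t+u) F(t+h) F(t+h+u)` (`y = x + h` or `x = y + h`). So it is at most `∑_u (corr f H u)²`. -/
theorem cb_energy (f : ℕ → ℝ) (H s : ℕ) (hs : 1 ≤ s) :
    ∑ h ∈ Icc 1 H, ∑ b ∈ range s, (cb f H s b h) ^ 2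
      ≤ (∑ t ∈ Icc 1 H, f t ^ 2) ^ 2 + ∑ u ∈ (Icc 1 H).filter (fun u => s ∣ u), (Pool.Agent.PP.corr f H u) ^ 2 := by
  classical
  set F : ℕ → ℝ := fun t => if 1 ≤ t ∧ t ≤ H then f t else 0 with hF
  have hF1 : ∀ t ∈ Icc 1 H, F t = f t := by
    intro t ht
    rw [hF]
    exact if_pos (mem_Icc.mp ht)
  have hF0 : ∀ t, H < t → F t = 0 := by
    intro t ht
    rw [hF]
    exact if_neg (by omega)
  set G : ℕ → ℕ → ℝ := fun h t => F t * F (t + h) with hGdef
  have hG0 : ∀ h x, H < x → G h x = 0 := by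
    intro h x hx
    simp only [hGdef]
    rw [hF0 x hx, zero_mul]
  have hcorr : ∀ u, 1 ≤ u → Pool.Agent.PP.corr f H u = ∑ t ∈ Icc 1 H, G u t := by
    intro u hu
    unfold Pool.Agent.PP.corr
    have e1 : ∑ n ∈ Icc 1 (H - u), f n * f (n + u) = ∑ n ∈ Icc 1 (H - u), G u n := by
      refine Finset.sum_congr rfl fun n hn => ?_
      rw [mem_Icc] at hn
      simp only [hGdef]
      rw [hF1 n (mem_Icc.mpr ⟨hn.1, by omega⟩), hF1 (n + u) (mem_Icc.mpr ⟨by omega, by omega⟩)]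
    rw [e1]
    apply Finset.sum_subset
    · exact Finset.Icc_subset_Icc le_rfl (by omega)
    · intro x hx hx'
      rw [mem_Icc] at hx hx'
      simp only [hGdef]
      rw [hF0 (x + u) (by omega), mul_zero]
  have hcb : ∀ h b, 1 ≤ h → cb f H s b h = ∑ t ∈ (Icc 1 H).filter (fun t => t % s = b), G h t := by
    intro h b hh
    unfold cb
    have e1 : ∑ t ∈ (Icc 1 (H - h)).filter (fun t => t % s = b), f t * f (t + h)
        = ∑ t ∈ (Icc 1 (H - h)).filter (fun t => t % s = b), G h t := by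
      refine Finset.sum_congr rfl fun n hn => ?_
      rw [mem_filter, mem_Icc] at hn
      simp only [hGdef]
      rw [hF1 n (mem_Icc.mpr ⟨hn.1.1, by omega⟩), hF1 (n + h) (mem_Icc.mpr ⟨by omega, by omega⟩)]
    rw [e1]
    apply Finset.sum_subset
    · exact Finset.filter_subset_filter _ (Finset.Icc_subset_Icc le_rfl (by omega))
    · intro x hx hx'
      rw [mem_filter, mem_Icc] at hx hx'
      simp only [hGdef]
      rw [hF0 (x + h) ?_, mul_zero]
      by_contra hc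
      exact hx' ⟨⟨hx.1.1, by omega⟩, hx.2⟩
  have hswap : ∀ h u t, G h t * G h (t + u) = G u t * G u (t + h) := by
    intro h u t
    simp only [hGdef]
    rw [add_right_comm t u h]
    ring
  -- left side
  have hL : ∑ h ∈ Icc 1 H, ∑ b ∈ range s, (cb f H s b h) ^ 2
      = ∑ h ∈ Icc 1 H, ∑ t ∈ Icc 1 H, G h t ^ 2
        + 2 * ∑ u ∈ (Icc 1 H).filter (fun u => s ∣ u), ∑ h ∈ Icc 1 H, ∑ t ∈ Icc 1 H, G u t * G u (t + h) := by
    have e1 : ∀ h ∈ Icc 1 H, ∑ b ∈ range s, (cb f H s b h) ^ 2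
        = ∑ t ∈ Icc 1 H, G h t ^ 2
          + 2 * ∑ u ∈ (Icc 1 H).filter (fun u => s ∣ u), ∑ t ∈ Icc 1 H, G u t * G u (t + h) := by
      intro h hh
      rw [← Finset.sum_congr rfl (fun u _ => Finset.sum_congr rfl (fun t _ => hswap h u t)),
        ← J6_pair (G h) H s hs (hG0 h)]
      refine Finset.sum_congr rfl fun b _ => ?_
      rw [hcb h b (mem_Icc.mp hh).1]
    rw [Finset.sum_congr rfl e1, Finset.sum_add_distrib, ← Finset.mul_sum,
      Finset.sum_comm (s := Icc 1 H) (t := (Icc 1 H).filter (fun u => s ∣ u))]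
  -- squares of the correlations
  have hC : ∀ u ∈ (Icc 1 H).filter (fun u => s ∣ u),
      2 * ∑ h ∈ Icc 1 H, ∑ t ∈ Icc 1 H, G u t * G u (t + h) ≤ (Pool.Agent.PP.corr f H u) ^ 2 := by
    intro u hu
    have hu1 : 1 ≤ u := (mem_Icc.mp (mem_filter.mp hu).1).1
    have h2 := J6_pair (G u) H 1 le_rfl (hG0 u)
    have h3 : ∑ b ∈ range 1, (∑ t ∈ (Icc 1 H).filter (fun t => t % 1 = b), G u t) ^ 2
        = (∑ t ∈ Icc 1 H, G u t) ^ 2 := by
      rw [Finset.sum_range_one]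
      congr 2
      exact Finset.filter_true_of_mem (fun t _ => Nat.mod_one t)
    have h4 : (Icc 1 H).filter (fun u => 1 ∣ u) = Icc 1 H :=
      Finset.filter_true_of_mem (fun t _ => one_dvd t)
    rw [h3, h4] at h2
    rw [hcorr u hu1, h2]
    have h5 : 0 ≤ ∑ t ∈ Icc 1 H, G u t ^ 2 := Finset.sum_nonneg fun t _ => sq_nonneg _
    linarith
  -- the diagonal
  have hD : ∑ h ∈ Icc 1 H, ∑ t ∈ Icc 1 H, G h t ^ 2 ≤ (∑ t ∈ Icc 1 H, f t ^ 2) ^ 2 := by
    have e1 : ∑ t ∈ Icc 1 H, f t ^ 2 = ∑ t ∈ Icc 1 H, F t ^ 2 :=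
      Finset.sum_congr rfl fun t ht => by rw [hF1 t ht]
    rw [e1, Finset.sum_comm, sq, Finset.sum_mul]
    refine Finset.sum_le_sum fun t ht => ?_
    have e2 : ∑ h ∈ Icc 1 H, G h t ^ 2 = F t ^ 2 * ∑ h ∈ Icc 1 H, F (t + h) ^ 2 := by
      rw [Finset.mul_sum]
      refine Finset.sum_congr rfl fun h _ => ?_
      simp only [hGdef]
      ring
    rw [e2]
    refine mul_le_mul_of_nonneg_left ?_ (sq_nonneg _)
    have h6 := J6_upper (fun x => F x ^ 2) H 1 t (fun x hx => by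
      show F x ^ 2 = 0
      rw [hF0 x hx]
      norm_num)
    have h4 : (Icc 1 H).filter (fun u => 1 ∣ u) = Icc 1 H :=
      Finset.filter_true_of_mem (fun t _ => one_dvd t)
    rw [h4] at h6
    rw [h6]
    exact Finset.sum_le_sum_of_subset_of_nonneg (Finset.filter_subset _ _) (fun i _ _ => sq_nonneg _)
  rw [hL]
  refine add_le_add hD ?_
  rw [Finset.mul_sum]
  exact Finset.sum_le_sum hC

end Pool.Agent.E3
end

section

/-!
# J7: correlations at multiples of `s`, by exponential sums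
-/

set_option autoImplicit false

namespace Pool.Agent.E3

open Finset MeasureTheory Real
open Pool.Agent.MC (ee expSum frac frac' arcSum)

/-- the exponential sum of `f` over `[0, H]` -/
noncomputable def SF (f : ℕ → ℝ) (H : ℕ) (θ : ℝ) : ℂ := expSum (fun n => ((f n : ℝ) : ℂ)) (H + 1) θ

/-- a symmetric integer interval split into `0` and pairs -/
private lemma J7_sum_symm (g : ℤ → ℂ) (H : ℕ) :
    ∑ k ∈ Finset.Icc (-(H : ℤ)) H, g k = g 0 + ∑ d ∈ Icc 1 H, (g (d : ℤ) + g (-(d : ℤ))) := by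
  induction H with
  | zero => simp
  | succ H ih =>
    have h1 : Finset.Icc (-((H + 1 : ℕ) : ℤ)) ((H + 1 : ℕ) : ℤ) =
        insert ((H + 1 : ℕ) : ℤ) (insert (-((H + 1 : ℕ) : ℤ)) (Finset.Icc (-(H : ℤ)) H)) := by
      ext k
      simp only [Finset.mem_Icc, Finset.mem_insert]
      push_cast
      omega
    rw [h1, Finset.sum_insert, Finset.sum_insert, ih]
    · have h2 : Icc 1 (H + 1) = insert (H + 1) (Icc 1 H) := by
        ext k
        simp only [Finset.mem_Icc, Finset.mem_insert]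
        omega
      rw [h2, Finset.sum_insert (by simp)]
      ring
    · simp only [Finset.mem_Icc]
      push_cast
      omega
    · simp only [Finset.mem_Icc, Finset.mem_insert]
      push_cast
      omega

/-- the pairs with difference `d ≥ 0` -/
private lemma J7_fiber (f : ℕ → ℝ) (hf0 : f 0 = 0) (H d : ℕ) (hd : d ≤ H) :
    ∑ p ∈ (range (H + 1) ×ˢ range (H + 1)).filter (fun p => (p.1 : ℤ) - p.2 = d), f p.1 * f p.2
      = Pool.Agent.PP.corr f H d := by
  unfold Pool.Agent.PP.corr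
  have h1 : ∑ p ∈ (range (H + 1) ×ˢ range (H + 1)).filter (fun p => (p.1 : ℤ) - p.2 = d),
      f p.1 * f p.2 = ∑ n ∈ range (H - d + 1), f (n + d) * f n := by
    refine Finset.sum_nbij' (fun p => p.2) (fun n => (n + d, n)) ?_ ?_ ?_ ?_ ?_
    · intro p hp
      rw [Finset.mem_filter, Finset.mem_product, Finset.mem_range, Finset.mem_range] at hp
      rw [Finset.mem_range]
      omega
    · intro n hn
      rw [Finset.mem_range] at hn
      rw [Finset.mem_filter, Finset.mem_product, Finset.mem_range, Finset.mem_range]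
      refine ⟨⟨?_, ?_⟩, ?_⟩
      · change n + d < H + 1
        omega
      · change n < H + 1
        omega
      · change ((n + d : ℕ) : ℤ) - n = d
        push_cast
        ring
    · intro p hp
      rw [Finset.mem_filter, Finset.mem_product, Finset.mem_range, Finset.mem_range] at hp
      refine Prod.ext ?_ rfl
      change p.2 + d = p.1
      omega
    · intro n _
      rfl
    · intro p hp
      rw [Finset.mem_filter, Finset.mem_product, Finset.mem_range, Finset.mem_range] at hp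
      have : p.1 = p.2 + d := by omega
      rw [this]
  rw [h1, Finset.range_eq_Ico, Finset.sum_eq_sum_Ico_succ_bot (by omega), hf0, mul_zero, zero_add]
  have h2 : Finset.Ico (0 + 1) (H - d + 1) = Finset.Icc 1 (H - d) := by
    ext n
    rw [Finset.mem_Ico, Finset.mem_Icc]
    omega
  rw [h2]
  exact Finset.sum_congr rfl fun n _ => mul_comm _ _

/-- the pairs with a given difference -/
private lemma J7_fiber_int (f : ℕ → ℝ) (hf0 : f 0 = 0) (H : ℕ) (k : ℤ)
    (hk : k ∈ Finset.Icc (-(H : ℤ)) H) :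
    ∑ p ∈ (range (H + 1) ×ˢ range (H + 1)).filter (fun p => (p.1 : ℤ) - p.2 = k), f p.1 * f p.2
      = Pool.Agent.PP.corr f H k.natAbs := by
  rw [Finset.mem_Icc] at hk
  rcases le_total 0 k with h | h
  · obtain ⟨d, rfl⟩ := Int.eq_ofNat_of_zero_le h
    rw [Int.natAbs_natCast]
    exact J7_fiber f hf0 H d (by omega)
  · obtain ⟨d, hd⟩ := Int.eq_ofNat_of_zero_le (show 0 ≤ -k by omega)
    obtain rfl : k = -(d : ℤ) := by omega
    rw [Int.natAbs_neg, Int.natAbs_natCast, ← J7_fiber f hf0 H d (by omega)]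
    refine Finset.sum_nbij' (fun p => (p.2, p.1)) (fun p => (p.2, p.1)) ?_ ?_ ?_ ?_ ?_
    · intro p hp
      rw [Finset.mem_filter, Finset.mem_product] at hp ⊢
      refine ⟨⟨hp.1.2, hp.1.1⟩, ?_⟩
      change (p.2 : ℤ) - p.1 = d
      omega
    · intro p hp
      rw [Finset.mem_filter, Finset.mem_product] at hp ⊢
      refine ⟨⟨hp.1.2, hp.1.1⟩, ?_⟩
      change (p.2 : ℤ) - p.1 = -(d : ℤ)
      omega
    · intro p _
      rfl
    · intro p _
      rfl
    · intro p _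
      change f p.1 * f p.2 = f p.2 * f p.1
      ring

/-- `‖SF‖²` as a sum over the differences -/
private lemma J7_sq (f : ℕ → ℝ) (hf0 : f 0 = 0) (H : ℕ) (θ : ℝ) :
    ((‖SF f H θ‖ ^ 2 : ℝ) : ℂ) = ∑ k ∈ Finset.Icc (-(H : ℤ)) H,
      ((Pool.Agent.PP.corr f H k.natAbs : ℝ) : ℂ) * ee ((k : ℝ) * θ) := by
  unfold SF expSum
  rw [Pool.Agent.MC.norm_sq_sum_eq, ← Finset.sum_product']
  rw [← Finset.sum_fiberwise_of_maps_to (t := Finset.Icc (-(H : ℤ)) H)
    (g := fun p : ℕ × ℕ => (p.1 : ℤ) - p.2)]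
  · refine Finset.sum_congr rfl fun k hk => ?_
    rw [← J7_fiber_int f hf0 H k hk]
    push_cast
    rw [Finset.sum_mul]
    refine Finset.sum_congr rfl fun p hp => ?_
    rw [Finset.mem_filter] at hp
    rw [map_mul, Pool.Agent.MC.conj_ee, Complex.conj_ofReal]
    have h1 : ee ((k : ℝ) * θ) = ee (p.1 * θ) * ee (-(p.2 * θ)) := by
      rw [← Pool.Agent.MC.ee_add]
      congr 1
      rw [← hp.2]
      push_cast
      ring
    rw [h1]
    ring
  · intro p hp
    rw [Finset.mem_product, Finset.mem_range, Finset.mem_range] at hp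
    rw [Finset.mem_Icc]
    omega

/-- PROOF. Expand `‖S‖² = ∑_{n, n'} f n f n' ee ((n - n') θ)` and group by `d = n - n'` (`f 0 = 0`; `corr f H d = ∑_{n ∈ [1, H - d]} f n f (n + d)`):
`‖SF θ‖² = corr 0 + ∑_{d = 1}^{H} corr(d) (ee (d θ) + ee (- d θ))` (`corr f H H = 0` as `Icc 1 0 = ∅`). See `PP/F1.lean`. -/
theorem SF_sq (f : ℕ → ℝ) (hf0 : f 0 = 0) (H : ℕ) (θ : ℝ) :
    ((‖SF f H θ‖ ^ 2 : ℝ) : ℂ) = ((Pool.Agent.PP.corr f H 0 : ℝ) : ℂ)
      + ∑ d ∈ Icc 1 H, ((Pool.Agent.PP.corr f H d : ℝ) : ℂ) * (ee (d * θ) + ee (-(d * θ))) := by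
  rw [J7_sq f hf0 H θ, J7_sum_symm]
  have h0 : ee (((0 : ℤ) : ℝ) * θ) = 1 := by
    rw [Int.cast_zero, zero_mul, Pool.Agent.MC.ee_zero]
  rw [h0, Int.natAbs_zero, mul_one]
  congr 1
  refine Finset.sum_congr rfl fun d _ => ?_
  rw [Int.natAbs_neg, Int.natAbs_natCast]
  push_cast
  rw [neg_mul]
  ring

/-- PROOF. By `SF_sq` `∑_{a < s} ‖SF (θ + a/s)‖² = s (corr 0 + ∑_{d ≤ H, s ∣ d} corr(d) (ee (d θ) + ee (- d θ)))` (`∑_{a < s} ee (d a/s)` is `s` if `s ∣ d`, else `0`);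
multiply by `‖SF θ‖²` (`SF_sq`) and integrate over `[0, 1]` (`∫ ee (k θ) = 0` for integers `k ≠ 0`): the result is
`s (corr 0² + 2 ∑_{d ≤ H, s ∣ d} corr(d)²) ≥ s ∑_{d, s ∣ d} corr(d)²`. -/
theorem corr_mult_le (f : ℕ → ℝ) (hf0 : f 0 = 0) (H s : ℕ) (hs : 1 ≤ s) :
    s * ∑ u ∈ (Icc 1 H).filter (fun u => s ∣ u), (Pool.Agent.PP.corr f H u) ^ 2
      ≤ ∑ a ∈ range s, ∫ θ in (0:ℝ)..1, ‖SF f H θ‖ ^ 2 * ‖SF f H (θ + a / s)‖ ^ 2 := by
  have hs0 : s ≠ 0 := by omega
  have hsR : (s : ℝ) ≠ 0 := by exact_mod_cast hs0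
  set K : Finset ℤ := Finset.Icc (-(H : ℤ)) H with hK
  set C : ℤ → ℂ := fun k => ((Pool.Agent.PP.corr f H k.natAbs : ℝ) : ℂ) with hC
  have hCneg : ∀ k, C (-k) = C k := by
    intro k
    simp only [hC, Int.natAbs_neg]
  -- the integral for one `a`
  have hint : ∀ a : ℕ, ((∫ θ in (0:ℝ)..1, ‖SF f H θ‖ ^ 2 * ‖SF f H (θ + a / s)‖ ^ 2 : ℝ) : ℂ)
      = ∑ k ∈ K, C k ^ 2 * ee ((a : ℝ) * (k : ℝ) / s) := by
    intro a
    rw [← intervalIntegral.integral_ofReal]
    have h1 : ∀ θ : ℝ, ((‖SF f H θ‖ ^ 2 * ‖SF f H (θ + a / s)‖ ^ 2 : ℝ) : ℂ)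
        = ∑ k ∈ K, ∑ l ∈ K, (C k * C l * ee ((a : ℝ) * (l : ℝ) / s)) * ee (((k + l : ℤ) : ℝ) * θ) := by
      intro θ
      rw [Complex.ofReal_mul, J7_sq f hf0 H θ, J7_sq f hf0 H (θ + a / s), Finset.sum_mul_sum]
      refine Finset.sum_congr rfl fun k _ => Finset.sum_congr rfl fun l _ => ?_
      have h2 : ee ((l : ℝ) * (θ + a / s)) = ee ((a : ℝ) * (l : ℝ) / s) * ee ((l : ℝ) * θ) := by
        rw [← Pool.Agent.MC.ee_add]
        congr 1
        ring
      have h3 : ee (((k + l : ℤ) : ℝ) * θ) = ee ((k : ℝ) * θ) * ee ((l : ℝ) * θ) := by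
        rw [← Pool.Agent.MC.ee_add]
        congr 1
        push_cast
        ring
      rw [h2, h3]
      ring
    have h2 : ∫ θ in (0:ℝ)..1, ((‖SF f H θ‖ ^ 2 * ‖SF f H (θ + a / s)‖ ^ 2 : ℝ) : ℂ)
        = ∑ k ∈ K, ∑ l ∈ K, (C k * C l * ee ((a : ℝ) * (l : ℝ) / s)) *
            ∫ θ in (0:ℝ)..1, ee (((k + l : ℤ) : ℝ) * θ) := by
      simp_rw [h1]
      rw [intervalIntegral.integral_finsetSum]
      · refine Finset.sum_congr rfl fun i _ => ?_
        rw [intervalIntegral.integral_finsetSum]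
        · refine Finset.sum_congr rfl fun j _ => ?_
          rw [intervalIntegral.integral_const_mul]
        · intro j _
          refine Continuous.intervalIntegrable ?_ _ _
          exact continuous_const.mul (Pool.Agent.MC.continuous_ee.comp (by fun_prop))
      · intro i _
        refine Continuous.intervalIntegrable ?_ _ _
        refine continuous_finsetSum _ fun j _ => ?_
        exact continuous_const.mul (Pool.Agent.MC.continuous_ee.comp (by fun_prop))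
    rw [h2]
    simp_rw [Pool.Agent.MC.integral_ee_int]
    rw [Finset.sum_comm]
    refine Finset.sum_congr rfl fun l hl => ?_
    rw [Finset.sum_eq_single (-l)]
    · rw [if_pos (by ring), hCneg]
      ring
    · intro k _ hk
      rw [if_neg (by omega), mul_zero]
    · intro h
      exfalso
      apply h
      rw [hK, Finset.mem_Icc] at hl ⊢
      omega
  have hsum : ((∑ a ∈ range s, ∫ θ in (0:ℝ)..1, ‖SF f H θ‖ ^ 2 * ‖SF f H (θ + a / s)‖ ^ 2 : ℝ) : ℂ)
      = ∑ k ∈ K, C k ^ 2 * (if (s : ℤ) ∣ k then (s : ℂ) else 0) := by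
    rw [Complex.ofReal_sum, Finset.sum_congr rfl fun a _ => hint a, Finset.sum_comm]
    refine Finset.sum_congr rfl fun k _ => ?_
    rw [← Finset.mul_sum, Pool.Agent.MC.sum_ee_range s hs0]
  have hfin : (∑ a ∈ range s, ∫ θ in (0:ℝ)..1, ‖SF f H θ‖ ^ 2 * ‖SF f H (θ + a / s)‖ ^ 2)
      = s * (Pool.Agent.PP.corr f H 0 ^ 2
        + 2 * ∑ u ∈ (Icc 1 H).filter (fun u => s ∣ u), (Pool.Agent.PP.corr f H u) ^ 2) := by
    apply Complex.ofReal_injective
    rw [hsum, hK, J7_sum_symm]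
    simp only [dvd_zero, if_true, dvd_neg, Int.natCast_dvd_natCast, hCneg]
    rw [Finset.sum_filter]
    push_cast
    rw [mul_add, Finset.mul_sum, Finset.mul_sum]
    have h0 : C 0 = ((Pool.Agent.PP.corr f H 0 : ℝ) : ℂ) := rfl
    rw [h0, mul_comm]
    congr 1
    refine Finset.sum_congr rfl fun d _ => ?_
    have hd : C (d : ℤ) = ((Pool.Agent.PP.corr f H d : ℝ) : ℂ) := rfl
    rw [hd]
    split_ifs with h
    · push_cast
      ring
    · push_cast
      ring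
  rw [hfin]
  have hnn : 0 ≤ ∑ u ∈ (Icc 1 H).filter (fun u => s ∣ u), (Pool.Agent.PP.corr f H u) ^ 2 :=
    Finset.sum_nonneg fun u _ => sq_nonneg _
  have := sq_nonneg (Pool.Agent.PP.corr f H 0)
  refine mul_le_mul_of_nonneg_left ?_ (Nat.cast_nonneg s)
  linarith

end Pool.Agent.E3
end

section

/-!
# J8: the large sieve, average over `s`
-/

set_option autoImplicit false

namespace Pool.Agent.E3

open Finset MeasureTheory Real
open Pool.Agent.MC (ee expSum frac frac' arcSum)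
open Pool.Agent.Lib.MP_bae66e_nt.AP3 (prI mem_prI)

/-- PROOF. `MC.large_sieve` (`Lib/MP_9cfc0a_nt/LargeSieve.lean`) for `n ↦ f n ee (n θ)`, `B = H + 1`, `Q = 2R`: for a prime `s`, `frac s = {1, .., s - 1}`, and
`expSum (f ee(· θ)) B (a/s + 0) = SF f H (θ + a/s)`. `IS R ⊆ Icc 1 (2R)`, the terms `arcSum` are nonnegative. -/
theorem ls_shift (f : ℕ → ℝ) (H R : ℕ) (hR : 1 ≤ R) (θ : ℝ) :
    ∑ s ∈ IS R, ∑ a ∈ (range s).erase 0, ‖SF f H (θ + a / s)‖ ^ 2
      ≤ π ^ 2 / 4 * ((2 * R : ℝ) ^ 2 + 2 * (H + 1)) * ∑ n ∈ range (H + 1), f n ^ 2 := by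
  have h0 := Pool.Agent.MC.large_sieve (fun n => ((f n : ℝ) : ℂ) * ee (n * θ)) (H + 1) (2 * R)
    (by omega)
  have h1 : ∀ s ∈ IS R, ∑ a ∈ (range s).erase 0, ‖SF f H (θ + a / s)‖ ^ 2
      = arcSum (fun n => ((f n : ℝ) : ℂ) * ee (n * θ)) (H + 1) s 0 := by
    intro s hs
    have hp : s.Prime := (mem_prI.mp hs).2
    unfold arcSum
    have hfr : frac s = (range s).erase 0 := by
      ext b
      simp only [frac, mem_filter, mem_range, mem_erase]
      constructor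
      · rintro ⟨hb, hc⟩
        refine ⟨?_, hb⟩
        rintro rfl
        have := hp.one_lt
        simp at hc
        omega
      · rintro ⟨hb0, hb⟩
        refine ⟨hb, ?_⟩
        exact (Nat.coprime_of_lt_prime hb0 hb hp).symm
    rw [hfr]
    refine Finset.sum_congr rfl fun b _ => ?_
    congr 2
    unfold SF expSum
    refine Finset.sum_congr rfl fun n _ => ?_
    rw [mul_assoc, ← Pool.Agent.MC.ee_add]
    congr 2
    ring
  rw [Finset.sum_congr rfl h1]
  have h2 : ∑ s ∈ IS R, arcSum (fun n => ((f n : ℝ) : ℂ) * ee (n * θ)) (H + 1) s 0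
      ≤ ∑ q ∈ Icc 1 (2 * R), arcSum (fun n => ((f n : ℝ) : ℂ) * ee (n * θ)) (H + 1) q 0 := by
    refine Finset.sum_le_sum_of_subset_of_nonneg ?_ fun q _ _ => Pool.Agent.MC.arcSum_nonneg _ _ _ _
    intro s hs
    have h := mem_prI.mp hs
    rw [mem_Icc]
    omega
  refine h2.trans (h0.trans (le_of_eq ?_))
  have h3 : ∀ n ∈ range (H + 1), ‖((f n : ℝ) : ℂ) * ee (n * θ)‖ ^ 2 = f n ^ 2 := by
    intro n _
    rw [norm_mul, Pool.Agent.MC.norm_ee, mul_one, Complex.norm_real, Real.norm_eq_abs, sq_abs]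
  rw [Finset.sum_congr rfl h3]
  push_cast
  ring

/-- PROOF. `corr_mult_le` divided by `s`; the term `a = 0` is `(1/s) ∫ ‖SF‖⁴`; for `a ≠ 0` use `1/s ≤ 1/R` (nonnegative terms), exchange the sum and the
integral, `ls_shift`, and `∫ ‖SF‖² = ∑ f²` (`MC.parseval`). -/
theorem energy_IS (f : ℕ → ℝ) (hf0 : f 0 = 0) (H R : ℕ) (hR : 1 ≤ R) :
    ∑ s ∈ IS R, ∑ u ∈ (Icc 1 H).filter (fun u => s ∣ u), (Pool.Agent.PP.corr f H u) ^ 2
      ≤ (∑ s ∈ IS R, 1 / (s : ℝ)) * (∫ θ in (0:ℝ)..1, ‖SF f H θ‖ ^ 4)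
        + 1 / R * (π ^ 2 / 4 * ((2 * R : ℝ) ^ 2 + 2 * (H + 1))) * (∑ n ∈ range (H + 1), f n ^ 2) ^ 2 := by
  have hR0 : (0 : ℝ) < R := by exact_mod_cast hR
  have hcont : Continuous (SF f H) := Pool.Agent.MC.continuous_expSum _ _
  have hcs : ∀ c : ℝ, Continuous fun θ : ℝ => ‖SF f H (θ + c)‖ ^ 2 := fun c =>
    ((hcont.comp (continuous_id.add continuous_const)).norm).pow 2
  have hc0 : Continuous fun θ : ℝ => ‖SF f H θ‖ ^ 2 := hcont.norm.pow 2
  -- one prime
  have h1 : ∀ s ∈ IS R, ∑ u ∈ (Icc 1 H).filter (fun u => s ∣ u), (Pool.Agent.PP.corr f H u) ^ 2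
      ≤ 1 / (s : ℝ) * (∫ θ in (0:ℝ)..1, ‖SF f H θ‖ ^ 4)
        + 1 / R * (∫ θ in (0:ℝ)..1, ‖SF f H θ‖ ^ 2 * ∑ a ∈ (range s).erase 0, ‖SF f H (θ + a / s)‖ ^ 2) := by
    intro s hs
    have hm := mem_prI.mp hs
    have hs1 : 1 ≤ s := hm.2.one_lt.le
    have hs0 : (0 : ℝ) < s := by exact_mod_cast hs1
    have h2 := corr_mult_le f hf0 H s hs1
    have hmem : 0 ∈ range s := by rw [mem_range]; omega
    rw [← Finset.add_sum_erase _ _ hmem] at h2
    have h3 : ∫ θ in (0:ℝ)..1, ‖SF f H θ‖ ^ 2 * ‖SF f H (θ + ((0 : ℕ) : ℝ) / s)‖ ^ 2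
        = ∫ θ in (0:ℝ)..1, ‖SF f H θ‖ ^ 4 := by
      congr 1
      ext θ
      rw [Nat.cast_zero, zero_div, add_zero]
      ring
    rw [h3] at h2
    have h4 : ∑ a ∈ (range s).erase 0, ∫ θ in (0:ℝ)..1, ‖SF f H θ‖ ^ 2 * ‖SF f H (θ + a / s)‖ ^ 2
        = ∫ θ in (0:ℝ)..1, ‖SF f H θ‖ ^ 2 * ∑ a ∈ (range s).erase 0, ‖SF f H (θ + a / s)‖ ^ 2 := by
      rw [← intervalIntegral.integral_finsetSum]
      · congr 1
        ext θ
        rw [Finset.mul_sum]
      · intro a _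
        exact (hc0.mul (hcs _)).intervalIntegrable _ _
    rw [h4] at h2
    have h5 : (0 : ℝ) ≤ ∫ θ in (0:ℝ)..1, ‖SF f H θ‖ ^ 2 * ∑ a ∈ (range s).erase 0, ‖SF f H (θ + a / s)‖ ^ 2 := by
      apply intervalIntegral.integral_nonneg (by norm_num)
      intro θ _
      positivity
    have h6 : 1 / (s : ℝ) ≤ 1 / R := by
      apply one_div_le_one_div_of_le hR0
      exact_mod_cast hm.1.1.le
    have h7 : ∑ u ∈ (Icc 1 H).filter (fun u => s ∣ u), (Pool.Agent.PP.corr f H u) ^ 2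
        ≤ 1 / (s : ℝ) * ((∫ θ in (0:ℝ)..1, ‖SF f H θ‖ ^ 4)
          + ∫ θ in (0:ℝ)..1, ‖SF f H θ‖ ^ 2 * ∑ a ∈ (range s).erase 0, ‖SF f H (θ + a / s)‖ ^ 2) := by
      rw [one_div_mul_eq_div, le_div_iff₀ hs0]
      linarith
    refine h7.trans ?_
    rw [mul_add]
    have := mul_le_mul_of_nonneg_right h6 h5
    linarith
  refine (Finset.sum_le_sum h1).trans ?_
  rw [Finset.sum_add_distrib, ← Finset.sum_mul, ← Finset.mul_sum]
  refine add_le_add le_rfl ?_
  rw [mul_assoc]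
  refine mul_le_mul_of_nonneg_left ?_ (by positivity)
  rw [← intervalIntegral.integral_finsetSum]
  · have h8 : ∫ θ in (0:ℝ)..1, ∑ s ∈ IS R, ‖SF f H θ‖ ^ 2 * ∑ a ∈ (range s).erase 0, ‖SF f H (θ + a / s)‖ ^ 2
        ≤ ∫ θ in (0:ℝ)..1, ‖SF f H θ‖ ^ 2 *
          (π ^ 2 / 4 * ((2 * R : ℝ) ^ 2 + 2 * (H + 1)) * ∑ n ∈ range (H + 1), f n ^ 2) := by
      apply intervalIntegral.integral_mono_on (by norm_num)
      · apply Continuous.intervalIntegrable
        refine continuous_finsetSum _ fun s _ => hc0.mul (continuous_finsetSum _ fun a _ => hcs _)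
      · exact (hc0.mul continuous_const).intervalIntegrable _ _
      · intro θ _
        rw [← Finset.mul_sum]
        exact mul_le_mul_of_nonneg_left (ls_shift f H R hR θ) (by positivity)
    refine h8.trans (le_of_eq ?_)
    rw [intervalIntegral.integral_mul_const]
    have h9 : ∫ θ in (0:ℝ)..1, ‖SF f H θ‖ ^ 2 = ∑ n ∈ range (H + 1), f n ^ 2 := by
      unfold SF
      rw [Pool.Agent.MC.parseval]
      refine Finset.sum_congr rfl fun n _ => ?_
      rw [Complex.norm_real, Real.norm_eq_abs, sq_abs]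
    rw [h9]
    ring
  · intro s _
    apply Continuous.intervalIntegrable
    exact hc0.mul (continuous_finsetSum _ fun a _ => hcs _)

end Pool.Agent.E3
end

section

/-!
# J9: the pair sieve for `s m - b`, `s m - b - h`
-/

set_option autoImplicit false

namespace Pool.Agent.E3

open Finset
open Pool.Agent.Lib.MP_bae66e_nt.AP3 (prI mem_prI)

/-- The largest `T` with `T^K ≤ U`. -/
private theorem J9_exists_root (K U S : ℕ) (hK : 2 ≤ K) (hS : S ^ K ≤ U) :
    ∃ T : ℕ, S ≤ T ∧ T ^ K ≤ U ∧ U < (T + 1) ^ K := by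
  classical
  let P : ℕ → Prop := fun t => t ^ K ≤ U
  have hP0 : P 0 := by
    show 0 ^ K ≤ U
    rw [zero_pow (by omega)]
    exact Nat.zero_le _
  have hbound : ∀ t, P t → t ≤ U := by
    intro t ht
    calc t ≤ t ^ K := Nat.le_self_pow (by omega) t
      _ ≤ U := ht
  refine ⟨Nat.findGreatest P U, ?_, ?_, ?_⟩
  · exact Nat.le_findGreatest (hbound S hS) hS
  · exact Nat.findGreatest_spec (P := P) (Nat.zero_le U) hP0
  · by_contra h
    push Not at h
    have h1 : Nat.findGreatest P U + 1 ≤ Nat.findGreatest P U :=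
      Nat.le_findGreatest (hbound _ h) h
    omega

/-- PROOF. Let `K = b + h ≤ M/2` and `m = k + K`: `s m - (b + h) = s k + b'` with `b' = s K - K`, and `s m - b = s k + d'` with `d' = s K - b = b' + h`;
`s d' = s b' + s h`. `forms_sieve` (SL3.lean) with its `a, c := s, s`, `b, d := b', d'`, `h := s h`, `D := s h`, `A = M - K - 1`, `N = M + 1`: the set of the
`k ∈ Ioc A (A + N)` such that no prime `l ≤ T` divides `s k + b'` or `s k + d'` contains all `m - K`, `m` in the set of `NJ M s b (b + h)`, provided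
`T < M/2` (both numbers are primes `≥ m - K ≥ M/2 > T`). Choose `T` maximal with `T^(2κ) ≤ M` as in the proof of `pair_coprime` (SL4.lean), so
`T^κ ≤ √M ≤ N`, `T < M/2`, `log M ≤ 4 κ log T`. The bound is `20 (M + 1) (Fr (s h))²/(log T)²`, and `Fr (s h) ≤ Fr s Fr h ≤ 2 Fr h`
(`Fr_mul_le`, `Fr_prime_le`). `C = 40 · 4 · 16 κ²` works. -/
theorem pair_m : ∃ C : ℝ, 1 ≤ C ∧ ∃ M₀ : ℕ, ∀ M : ℕ, M₀ ≤ M → ∀ s b h : ℕ, s.Prime → 1 ≤ h → 2 * (b + h) ≤ M →
    (NJ M s b (b + h) : ℝ) ≤ C * (M / (Real.log M) ^ 2) * (Fr h) ^ 2 := by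
  classical
  obtain ⟨κ, T₀, hκ, hT₀, hsieve⟩ := forms_sieve
  have hκR : (1 : ℝ) ≤ κ := by exact_mod_cast hκ
  have hbase : 16 ≤ (T₀ + 2) ^ (2 * κ) := by
    calc 16 = 4 ^ 2 := by norm_num
      _ ≤ (T₀ + 2) ^ 2 := Nat.pow_le_pow_left (by omega) 2
      _ ≤ (T₀ + 2) ^ (2 * κ) := Nat.pow_le_pow_right (by omega) (by omega)
  refine ⟨2560 * κ ^ 2, by nlinarith, (T₀ + 2) ^ (2 * κ), ?_⟩
  intro M hM s b h hs hh hbh
  have hM16 : 16 ≤ M := hbase.trans hM
  obtain ⟨T, hT1, hT2, hT3⟩ := J9_exists_root (2 * κ) M (T₀ + 2) (by omega) hM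
  have hTpos : 4 ≤ T := by omega
  have hT2' : T ^ 2 ≤ M := le_trans (Nat.pow_le_pow_right (by omega) (by omega)) hT2
  have hTM : 2 * T < M := by nlinarith
  have hTN : T ^ κ ≤ M + 1 :=
    le_trans (le_trans (Nat.pow_le_pow_right (by omega) (by omega)) hT2) (by omega)
  have hs2 := hs.two_le
  have hlogT : 0 < Real.log T := Real.log_pos (by exact_mod_cast (show 1 < T by omega))
  have hlogM : 0 < Real.log M := Real.log_pos (by exact_mod_cast (show 1 < M by omega))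
  have hlog : Real.log M ≤ 4 * κ * Real.log T := by
    have h1 : (M : ℝ) ≤ ((T : ℝ) + 1) ^ (2 * κ) := by exact_mod_cast hT3.le
    have h2 : Real.log M ≤ ((2 * κ : ℕ) : ℝ) * Real.log ((T : ℝ) + 1) := by
      rw [← Real.log_pow]
      exact Real.log_le_log (by positivity) h1
    have h3 : Real.log ((T : ℝ) + 1) ≤ 2 * Real.log T := by
      have : (T : ℝ) + 1 ≤ (T : ℝ) ^ 2 := by
        have : (4 : ℝ) ≤ T := by exact_mod_cast hTpos
        nlinarith
      calc Real.log ((T : ℝ) + 1) ≤ Real.log ((T : ℝ) ^ 2) := Real.log_le_log (by positivity) this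
        _ = 2 * Real.log T := by rw [Real.log_pow]; norm_num
    push_cast at h2
    nlinarith
  -- the parameters
  obtain ⟨K, hK⟩ : ∃ K, K = b + h := ⟨_, rfl⟩
  have hKM : 2 * K ≤ M := by omega
  obtain ⟨b', hb'⟩ : ∃ b', b' = (s - 1) * K := ⟨_, rfl⟩
  have hsK : b' + K = s * K := by
    rw [hb', Nat.sub_one_mul, Nat.sub_add_cancel (Nat.le_mul_of_pos_left K (by omega))]
  have hD : s * h ≠ 0 := Nat.mul_ne_zero (by omega) (by omega)
  have hsv := hsieve T (M + 1) (M - K - 1) s b' s (b' + h) (s * h) (s * h) (by omega) hTN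
    (Nat.one_le_iff_ne_zero.2 hD) (by ring) (dvd_mul_right _ _) (dvd_mul_right _ _) dvd_rfl hD
  have hFr1 : Fr (s * h) ≤ 2 * Fr h := by
    have h1 := Fr_mul_le s h (by omega) (by omega)
    have h2 := Fr_prime_le s hs
    have h3 := Fr_one_le h (by omega)
    nlinarith
  have hFr0 : 0 ≤ Fr (s * h) := le_trans zero_le_one (Fr_one_le _ hD)
  have hFrh := Fr_one_le h (by omega)
  have hfin : 20 * ((M + 1 : ℕ) : ℝ) * (Fr (s * h)) ^ 2 / (Real.log T) ^ 2 ≤
      2560 * κ ^ 2 * (M / (Real.log M) ^ 2) * (Fr h) ^ 2 := by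
    have h1 : (Real.log M) ^ 2 ≤ 16 * κ ^ 2 * (Real.log T) ^ 2 := by
      calc (Real.log M) ^ 2 ≤ (4 * κ * Real.log T) ^ 2 := pow_le_pow_left₀ hlogM.le hlog 2
        _ = 16 * κ ^ 2 * (Real.log T) ^ 2 := by ring
    have hMR : (16 : ℝ) ≤ M := by exact_mod_cast hM16
    have h2 : ((M + 1 : ℕ) : ℝ) ≤ 2 * M := by
      push_cast
      linarith
    have h3 : (Fr (s * h)) ^ 2 ≤ 4 * (Fr h) ^ 2 := by
      calc (Fr (s * h)) ^ 2 ≤ (2 * Fr h) ^ 2 := pow_le_pow_left₀ hFr0 hFr1 2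
        _ = 4 * (Fr h) ^ 2 := by ring
    have h4 : 1 / (Real.log T) ^ 2 ≤ 16 * κ ^ 2 / (Real.log M) ^ 2 := by
      rw [div_le_div_iff₀ (by positivity) (by positivity)]
      linarith
    calc 20 * ((M + 1 : ℕ) : ℝ) * (Fr (s * h)) ^ 2 / (Real.log T) ^ 2
        = (20 * ((M + 1 : ℕ) : ℝ)) * (Fr (s * h)) ^ 2 * (1 / (Real.log T) ^ 2) := by ring
      _ ≤ (20 * (2 * M)) * (4 * (Fr h) ^ 2) * (16 * κ ^ 2 / (Real.log M) ^ 2) := by
          gcongr
      _ = 2560 * κ ^ 2 * (M / (Real.log M) ^ 2) * (Fr h) ^ 2 := by ring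
  refine le_trans ?_ hfin
  refine le_trans ?_ hsv
  rw [NJ, Nat.cast_le]
  refine Finset.card_le_card_of_injOn (fun m => m - K) ?_ ?_
  · intro m hm
    rw [Finset.mem_coe, Finset.mem_filter, Finset.mem_Icc] at hm
    obtain ⟨⟨hm1, hm2⟩, hp1, hp2⟩ := hm
    rw [Finset.mem_coe, Finset.mem_filter, Finset.mem_Ioc]
    obtain ⟨k, hk⟩ : ∃ k, m = k + K := ⟨m - K, by omega⟩
    have hkK : m - K = k := by omega
    have e1 : s * m - (b + h) = s * k + b' := by
      rw [hk, ← hK, mul_add, ← hsK, ← add_assoc, Nat.add_sub_cancel]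
    have e2 : s * m - b = s * k + (b' + h) := by
      rw [hk, mul_add, ← hsK]
      omega
    rw [e1] at hp2
    rw [e2] at hp1
    show (M - K - 1 < m - K ∧ m - K ≤ M - K - 1 + (M + 1)) ∧ ∀ ℓ ∈ prI 0 T,
      ¬ ℓ ∣ s * (m - K) + b' ∧ ¬ ℓ ∣ s * (m - K) + (b' + h)
    rw [hkK]
    refine ⟨⟨by omega, by omega⟩, ?_⟩
    intro ℓ hℓ
    rw [mem_prI] at hℓ
    have hkT : T < k := by omega
    have hsk : k ≤ s * k := Nat.le_mul_of_pos_left k (by omega)
    constructor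
    · intro hdvd
      have h1 := (Nat.prime_dvd_prime_iff_eq hℓ.2 hp2).1 hdvd
      omega
    · intro hdvd
      have h1 := (Nat.prime_dvd_prime_iff_eq hℓ.2 hp1).1 hdvd
      omega
  · intro m hm m' hm' heq
    rw [Finset.mem_coe, Finset.mem_filter, Finset.mem_Icc] at hm hm'
    have h3 : m - K = m' - K := heq
    omega

end Pool.Agent.E3
end
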