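import Pool.Agent.Lib.MP_bae66e_nt.Mg.G004
import Pool.Agent.Lib.MP_bae66e_nt.Mg.G031
import Pool.Agent.Lib.MP_bae66e_nt.Mg.G014
import Pool.Agent.Lib.MP_bae66e_nt.Mg.G003

section

/-!
# Y5: the window of the primes by rough integers and bilinear windows
-/

set_option autoImplicit false

namespace Pool.Agent.E3

open Finset MeasureTheory Real

private lemma Y5_split (z N : ℕ) (hzN : z ≤ N) (F : ℕ → ℂ)
    (hF : ∀ n, ¬ n.Prime → F n = 0) :
    ∑ n ∈ Icc 1 N, F n = ∑ n ∈ RS z N, F n + ∑ n ∈ Icc 1 z, F n := by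
  classical
  have h0 : ∀ S : Finset ℕ, ∑ n ∈ S, F n = ∑ n ∈ S.filter Nat.Prime, F n := by
    intro S
    rw [Finset.sum_filter]
    apply Finset.sum_congr rfl
    intro n _
    split_ifs with h
    · rfl
    · exact hF n h
  rw [h0 (Icc 1 N), h0 (RS z N), h0 (Icc 1 z), ← Finset.sum_union]
  · apply Finset.sum_congr _ (fun _ _ => rfl)
    ext p
    simp only [Finset.mem_filter, Finset.mem_union, Finset.mem_Icc, RS]
    constructor
    · rintro ⟨⟨h1, h2⟩, hp⟩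
      by_cases hpz : p ≤ z
      · exact Or.inr ⟨⟨h1, hpz⟩, hp⟩
      · refine Or.inl ⟨⟨⟨hp.two_le, h2⟩, ?_⟩, hp⟩
        intro q hq hqp
        have : q = p := (Nat.prime_dvd_prime_iff_eq hq hp).mp hqp
        omega
    · rintro (⟨⟨⟨h1, h2⟩, _⟩, hp⟩ | ⟨⟨h1, h2⟩, hp⟩)
      · exact ⟨⟨by omega, h2⟩, hp⟩
      · exact ⟨⟨h1, by omega⟩, hp⟩
  · rw [Finset.disjoint_left]
    intro p hp hp2
    simp only [Finset.mem_filter, Finset.mem_Icc, RS] at hp hp2
    have := hp.1.2 p hp.2 (dvd_refl p)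
    omega

private lemma Y5_ph (t x : ℝ) : ‖ph t x‖ = 1 := by
  unfold ph
  exact Complex.norm_exp_ofReal_mul_I _

/-- PROOF. `log_win_le 2`. Since `lp` is supported on the primes and `z ≤ N` (`2 log z ≤ x ≤ (log N)/2`), and a prime `p ≤ N` is in
`RS z N` iff `p > z`: `BW … (RS z N) (RS z N) = BW … (Icc 1 N) (RS z N) - BW … (Icc 1 z) (RS z N)`, and
`WIN (lp c) 2 (Icc 1 N) - WIN (lp c) 2 (RS z N) = WIN (lp c) 2 (Icc 1 z)`, which is
`≤ ∑_{n ≤ z} lp n gs 2 x (log n) / n ≤ exp (- x²/4) ∑ lp n gs 1 x (log n) / n ≤ C exp (- x²/4) ≤ C'/log z`, because `x - log n ≥ x/2`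
(`gs 2 = gs 1 · gs 1`), `tb_prime 1`, `log z ≤ x/2`. -/
theorem prime_win_le : ∃ C : ℝ, 1 ≤ C ∧ ∀ (c : ℕ → ℂ),
    (∀ m n, 1 ≤ m → 1 ≤ n → c (m * n) = c m * c n) → (∀ n, ‖c n‖ ≤ 1) →
    ∀ (t x : ℝ) (z N : ℕ), 2 ≤ z → 1 ≤ N → 2 * x ≤ Real.log N → x ≤ Real.sqrt z → 2 * Real.log z ≤ x →
    ‖WIN (fun n => ((lp n : ℝ) : ℂ) * c n) 2 (Icc 1 N) t x‖
      ≤ x * ‖WIN c 2 (RS z N) t x‖
        + ‖BW (fun n => ((lp n : ℝ) : ℂ) * c n) c (Icc 1 N) (RS z N) 2 t x‖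
        + ‖BW (fun n => ((lp n : ℝ) : ℂ) * c n) c (Icc 1 z) (RS z N) 2 t x‖ + C / Real.log z := by
  obtain ⟨C₁, hC₁, hlw⟩ := log_win_le 2 (by norm_num)
  obtain ⟨C₂, hC₂, htp⟩ := tb_prime 1 (by norm_num)
  refine ⟨C₁ + C₂, by linarith, ?_⟩
  intro c hc hc1 t x z N hz hN hxN hxz hzx
  have hzR : (2 : ℝ) ≤ (z : ℝ) := by exact_mod_cast hz
  have hNR : (1 : ℝ) ≤ (N : ℝ) := by exact_mod_cast hN
  have hlogz : 0 < Real.log z := Real.log_pos (by linarith)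
  have hx0 : 0 < x := by linarith
  have hzN : z ≤ N := by
    have h1 : Real.log z ≤ Real.log N := by linarith
    have h2 := (Real.log_le_log_iff (by linarith) (by linarith)).mp h1
    exact_mod_cast h2
  have hlp0 : ∀ n, ¬ n.Prime → lp n = 0 := by
    intro n hn
    unfold lp
    rw [if_neg hn]
  have hlpn : ∀ n, 0 ≤ lp n := by
    intro n
    unfold lp
    split_ifs
    · exact Real.log_natCast_nonneg n
    · exact le_refl 0
  have hBW : BW (fun n => ((lp n : ℝ) : ℂ) * c n) c (Icc 1 N) (RS z N) 2 t x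
      = BW (fun n => ((lp n : ℝ) : ℂ) * c n) c (RS z N) (RS z N) 2 t x
        + BW (fun n => ((lp n : ℝ) : ℂ) * c n) c (Icc 1 z) (RS z N) 2 t x := by
    unfold BW
    apply Y5_split z N hzN
    intro n hn
    apply Finset.sum_eq_zero
    intro m _
    simp only [hlp0 n hn]
    simp
  have hWIN : WIN (fun n => ((lp n : ℝ) : ℂ) * c n) 2 (Icc 1 N) t x
      = WIN (fun n => ((lp n : ℝ) : ℂ) * c n) 2 (RS z N) t x
        + WIN (fun n => ((lp n : ℝ) : ℂ) * c n) 2 (Icc 1 z) t x := by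
    unfold WIN
    apply Y5_split z N hzN
    intro n hn
    simp only [hlp0 n hn]
    simp
  have hsmall : ‖WIN (fun n => ((lp n : ℝ) : ℂ) * c n) 2 (Icc 1 z) t x‖ ≤ C₂ / Real.log z := by
    unfold WIN
    refine le_trans (norm_sum_le _ _) ?_
    have hterm : ∀ n ∈ Icc 1 z, ‖(fun n => ((lp n : ℝ) : ℂ) * c n) n * ph t (Real.log n)
        * (((gs 2 x (Real.log n) / n : ℝ)) : ℂ)‖
        ≤ Real.exp (-(x ^ 2 / 4)) * (lp n * gs 1 x (Real.log n) / n) := by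
      intro n hn
      obtain ⟨hn1, hn2⟩ := Finset.mem_Icc.mp hn
      have hn1R : (1 : ℝ) ≤ (n : ℝ) := by exact_mod_cast hn1
      have hn2R : (n : ℝ) ≤ (z : ℝ) := by exact_mod_cast hn2
      have hl0 : 0 ≤ Real.log n := Real.log_nonneg hn1R
      have hlz : Real.log n ≤ Real.log z := Real.log_le_log (by linarith) hn2R
      have hg0 : 0 ≤ gs 2 x (Real.log n) := (Real.exp_pos _).le
      have hgs : gs 2 x (Real.log n) ≤ Real.exp (-(x ^ 2 / 4)) * gs 1 x (Real.log n) := by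
        unfold gs
        rw [← Real.exp_add]
        apply Real.exp_le_exp.mpr
        have h1 : x / 2 ≤ x - Real.log n := by linarith
        have h2 : (x / 2) ^ 2 ≤ (x - Real.log n) ^ 2 := pow_le_pow_left₀ (by linarith) h1 2
        nlinarith
      rw [norm_mul, norm_mul, norm_mul, Y5_ph, mul_one, Complex.norm_real, Complex.norm_real,
        Real.norm_of_nonneg (hlpn n), Real.norm_of_nonneg (div_nonneg hg0 (by linarith))]
      calc lp n * ‖c n‖ * (gs 2 x (Real.log n) / n)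
          ≤ lp n * 1 * ((Real.exp (-(x ^ 2 / 4)) * gs 1 x (Real.log n)) / n) := by
            apply mul_le_mul _ _ (div_nonneg hg0 (by linarith)) (by linarith [hlpn n])
            · exact mul_le_mul_of_nonneg_left (hc1 n) (hlpn n)
            · exact div_le_div_of_nonneg_right hgs (by linarith)
        _ = Real.exp (-(x ^ 2 / 4)) * (lp n * gs 1 x (Real.log n) / n) := by ring
    refine le_trans (Finset.sum_le_sum hterm) ?_
    rw [← Finset.mul_sum]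
    have hexp : Real.exp (-(x ^ 2 / 4)) ≤ 1 / Real.log z := by
      rw [Real.exp_neg, ← one_div]
      apply one_div_le_one_div_of_le hlogz
      have h1 := Real.add_one_le_exp (x ^ 2 / 4)
      nlinarith [sq_nonneg (x / 2 - 1)]
    calc Real.exp (-(x ^ 2 / 4)) * ∑ n ∈ Icc 1 z, lp n * gs 1 x (Real.log n) / n
        ≤ 1 / Real.log z * C₂ := by
          apply mul_le_mul hexp (htp z x) _ (by positivity)
          apply Finset.sum_nonneg
          intro n _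
          have hg0 : 0 ≤ gs 1 x (Real.log n) := (Real.exp_pos _).le
          exact div_nonneg (mul_nonneg (hlpn n) hg0) (Nat.cast_nonneg n)
      _ = C₂ / Real.log z := by ring
  have hmain := hlw c hc hc1 t x z N hz hN hx0.le hxN hxz
  have hW : ‖WIN (fun n => ((lp n : ℝ) : ℂ) * c n) 2 (RS z N) t x‖
      ≤ x * ‖WIN c 2 (RS z N) t x‖
        + ‖BW (fun n => ((lp n : ℝ) : ℂ) * c n) c (RS z N) (RS z N) 2 t x‖
        + C₁ / Real.log z := by
    set P := WIN (fun n => ((lp n : ℝ) : ℂ) * c n) 2 (RS z N) t x with hP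
    set Q := WIN c 2 (RS z N) t x with hQ
    set R := BW (fun n => ((lp n : ℝ) : ℂ) * c n) c (RS z N) (RS z N) 2 t x with hR
    have heq : P = ((x : ℂ) * Q - R) - ((x : ℂ) * Q - P - R) := by ring
    have hxQ : ‖(x : ℂ) * Q‖ = x * ‖Q‖ := by
      rw [norm_mul, Complex.norm_real, Real.norm_of_nonneg hx0.le]
    calc ‖P‖ = ‖((x : ℂ) * Q - R) - ((x : ℂ) * Q - P - R)‖ := by rw [← heq]
      _ ≤ ‖(x : ℂ) * Q - R‖ + ‖(x : ℂ) * Q - P - R‖ := norm_sub_le _ _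
      _ ≤ (‖(x : ℂ) * Q‖ + ‖R‖) + C₁ / Real.log z := add_le_add (norm_sub_le _ _) hmain
      _ = x * ‖Q‖ + ‖R‖ + C₁ / Real.log z := by rw [hxQ]
  have hR : ‖BW (fun n => ((lp n : ℝ) : ℂ) * c n) c (RS z N) (RS z N) 2 t x‖
      ≤ ‖BW (fun n => ((lp n : ℝ) : ℂ) * c n) c (Icc 1 N) (RS z N) 2 t x‖
        + ‖BW (fun n => ((lp n : ℝ) : ℂ) * c n) c (Icc 1 z) (RS z N) 2 t x‖ := by
    have h1 : BW (fun n => ((lp n : ℝ) : ℂ) * c n) c (RS z N) (RS z N) 2 t x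
        = BW (fun n => ((lp n : ℝ) : ℂ) * c n) c (Icc 1 N) (RS z N) 2 t x
          - BW (fun n => ((lp n : ℝ) : ℂ) * c n) c (Icc 1 z) (RS z N) 2 t x := by
      rw [hBW]
      ring
    rw [h1]
    exact norm_sub_le _ _
  have hadd : (C₁ + C₂) / Real.log z = C₁ / Real.log z + C₂ / Real.log z := add_div _ _ _
  rw [hWIN]
  refine le_trans (norm_add_le _ _) ?_
  rw [hadd]
  linarith

end Pool.Agent.E3
end

section

/-!
# J10: the variance, all the finite sums together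
-/

set_option autoImplicit false

namespace Pool.Agent.E3

open Finset MeasureTheory Real
open Pool.Agent.Lib.MP_bae66e_nt.AP3 (prI mem_prI)

/-- PROOF. `recip_IS` (MVp.lean) gives `∑ 1/r ≤ C/log R`, and `#(IS R) ≤ 2R ∑ 1/r`. -/
theorem IS_bounds : ∃ C : ℝ, 1 ≤ C ∧ ∀ R : ℕ, 2 ≤ R →
    (#(IS R) : ℝ) ≤ C * R / Real.log R ∧ ∑ r ∈ IS R, 1 / (r : ℝ) ≤ C / Real.log R := by
  obtain ⟨C, hC, h⟩ := recip_IS
  refine ⟨2 * C, by linarith, fun R hR => ?_⟩
  obtain ⟨h1, -⟩ := h R hR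
  have hR0 : (0 : ℝ) < R := by exact_mod_cast (by omega : 0 < R)
  have hlog : 0 < Real.log R := Real.log_pos (by exact_mod_cast (by omega : 1 < R))
  refine ⟨?_, ?_⟩
  · have h2 : (#(IS R) : ℝ) ≤ 2 * R * ∑ r ∈ IS R, 1 / (r : ℝ) := by
      rw [Finset.mul_sum]
      calc (#(IS R) : ℝ) = ∑ r ∈ IS R, (1 : ℝ) := by simp
        _ ≤ ∑ r ∈ IS R, 2 * (R : ℝ) * (1 / (r : ℝ)) := by
            refine Finset.sum_le_sum fun r hr => ?_
            have hr' := mem_prI.mp hr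
            have hr0 : (0 : ℝ) < r := by exact_mod_cast hr'.2.pos
            have hr2 : (r : ℝ) ≤ 2 * R := by exact_mod_cast hr'.1.2
            rw [mul_one_div, le_div_iff₀ hr0]
            linarith
    calc (#(IS R) : ℝ) ≤ 2 * R * ∑ r ∈ IS R, 1 / (r : ℝ) := h2
      _ ≤ 2 * R * (C / Real.log R) := mul_le_mul_of_nonneg_left h1 (by positivity)
      _ = 2 * C * R / Real.log R := by ring
  · refine h1.trans (div_le_div_of_nonneg_right (by linarith) hlog.le)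

/-- PROOF. Cauchy-Schwarz: the square of the left side is at most `(∑_s ∑_h ∑_{b < s} (Fr h)^4) (∑_s ∑_h ∑_b cb²)`; the first factor is
`≤ #(IS R) · 2R · C H` (`s ≤ 2R`, `sum_Fr_four`), the second by `cb_energy` and `energy_IS`. -/
theorem class_sum_le : ∃ C : ℝ, 1 ≤ C ∧ ∀ (f : ℕ → ℝ) (H R : ℕ), f 0 = 0 → 1 ≤ R →
    ∑ s ∈ IS R, ∑ h ∈ Icc 1 H, ∑ b ∈ range s, (Fr h) ^ 2 * |cb f H s b h|
      ≤ Real.sqrt (#(IS R) * (2 * R) * (C * H)) *
        Real.sqrt (#(IS R) * (∑ n ∈ Icc 1 H, f n ^ 2) ^ 2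
          + (∑ s ∈ IS R, 1 / (s : ℝ)) * (∫ θ in (0:ℝ)..1, ‖SF f H θ‖ ^ 4)
          + 1 / R * (π ^ 2 / 4 * ((2 * R : ℝ) ^ 2 + 2 * (H + 1))) * (∑ n ∈ Icc 1 H, f n ^ 2) ^ 2) := by
  obtain ⟨C, hC, hFr⟩ := sum_Fr_four
  refine ⟨C, hC, fun f H R hf0 hR => ?_⟩
  have hR0 : (0 : ℝ) < R := by exact_mod_cast hR
  have e1 : ∑ s ∈ IS R, ∑ h ∈ Icc 1 H, ∑ b ∈ range s, (Fr h) ^ 2 * |cb f H s b h|
      = ∑ x ∈ (IS R).sigma (fun s => (Icc 1 H) ×ˢ range s),
          (Fr x.2.1) ^ 2 * |cb f H x.1 x.2.2 x.2.1| := by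
    rw [Finset.sum_sigma]
    refine Finset.sum_congr rfl fun s _ => ?_
    rw [Finset.sum_product]
  rw [e1]
  refine (Real.sum_mul_le_sqrt_mul_sqrt _ _ _).trans ?_
  refine mul_le_mul ?_ ?_ (Real.sqrt_nonneg _) (Real.sqrt_nonneg _)
  · refine Real.sqrt_le_sqrt ?_
    rw [Finset.sum_sigma]
    calc ∑ s ∈ IS R, ∑ x ∈ (Icc 1 H) ×ˢ range s, ((Fr x.1) ^ 2) ^ 2
        = ∑ s ∈ IS R, (s : ℝ) * ∑ h ∈ Icc 1 H, (Fr h) ^ 4 := by
          refine Finset.sum_congr rfl fun s _ => ?_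
          rw [Finset.sum_product, Finset.mul_sum]
          refine Finset.sum_congr rfl fun h _ => ?_
          simp only [Finset.sum_const, card_range, nsmul_eq_mul]
          ring
      _ ≤ ∑ s ∈ IS R, (2 * (R : ℝ)) * (C * H) := by
          refine Finset.sum_le_sum fun s hs => ?_
          have hs2 : (s : ℝ) ≤ 2 * R := by exact_mod_cast (mem_prI.mp hs).1.2
          exact mul_le_mul hs2 (hFr H) (Finset.sum_nonneg fun h _ => by positivity) (by positivity)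
      _ = #(IS R) * (2 * R) * (C * H) := by
          rw [Finset.sum_const, nsmul_eq_mul]
          ring
  · refine Real.sqrt_le_sqrt ?_
    rw [Finset.sum_sigma]
    have e2 : ∀ s ∈ IS R, ∑ x ∈ (Icc 1 H) ×ˢ range s, |cb f H s x.2 x.1| ^ 2
        ≤ (∑ n ∈ Icc 1 H, f n ^ 2) ^ 2
          + ∑ u ∈ (Icc 1 H).filter (fun u => s ∣ u), (Pool.Agent.PP.corr f H u) ^ 2 := by
      intro s hs
      rw [Finset.sum_product]
      refine le_trans (le_of_eq ?_) (cb_energy f H s (mem_prI.mp hs).2.one_lt.le)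
      refine Finset.sum_congr rfl fun h _ => Finset.sum_congr rfl fun b _ => ?_
      rw [sq_abs]
    refine (Finset.sum_le_sum e2).trans ?_
    rw [Finset.sum_add_distrib, Finset.sum_const, nsmul_eq_mul, add_assoc]
    refine add_le_add le_rfl ?_
    have h3 := energy_IS f hf0 H R hR
    have h4 : ∑ n ∈ range (H + 1), f n ^ 2 = ∑ n ∈ Icc 1 H, f n ^ 2 := by
      rw [Finset.sum_range_succ', hf0]
      simp only [ne_eq, OfNat.ofNat_ne_zero, not_false_eq_true, zero_pow, add_zero]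
      rw [Finset.sum_bij' (fun i _ => i + 1) (fun i _ => i - 1)]
      · intro i hi
        rw [mem_range] at hi
        rw [mem_Icc]
        omega
      · intro i hi
        rw [mem_Icc] at hi
        rw [mem_range]
        omega
      · intro i _
        simp
      · intro i hi
        rw [mem_Icc] at hi
        show i - 1 + 1 = i
        omega
      · intro i _
        rfl
    rw [h4] at h3
    exact h3

/-- PROOF. Cauchy-Schwarz over `s`, exchange the sums over `s` and `m`, `one_s_bound` for each `s ∈ IS R` and sum over `s`. -/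
theorem var_total (f : ℕ → ℝ) (H R M : ℕ) (B : ℝ) (hH : H ≤ M)
    (hN : ∀ s b h : ℕ, s ∈ IS R → b < s → 1 ≤ h → h ≤ H → (NJ M s b (b + h) : ℝ) ≤ B * (Fr h) ^ 2) :
    ∑ m ∈ Icc M (2 * M), (∑ s ∈ IS R, ∑ t ∈ Icc 1 H, f t * (if (s * m - t).Prime then 1 else 0)) ^ 2
      ≤ #(IS R) * (#(IS R) * ((M + 1) * ∑ t ∈ Icc 1 H, f t ^ 2 + 2 * H * (∑ t ∈ Icc 1 H, |f t|) ^ 2)
        + 2 * B * ∑ s ∈ IS R, ∑ h ∈ Icc 1 H, ∑ b ∈ range s, (Fr h) ^ 2 * |cb f H s b h|) := by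
  calc ∑ m ∈ Icc M (2 * M), (∑ s ∈ IS R, ∑ t ∈ Icc 1 H, f t * (if (s * m - t).Prime then 1 else 0)) ^ 2
      ≤ ∑ m ∈ Icc M (2 * M), (#(IS R) : ℝ) *
          ∑ s ∈ IS R, (∑ t ∈ Icc 1 H, f t * (if (s * m - t).Prime then 1 else 0)) ^ 2 :=
        Finset.sum_le_sum fun m _ => sq_sum_le_card_mul_sum_sq
    _ = (#(IS R) : ℝ) * ∑ s ∈ IS R, ∑ m ∈ Icc M (2 * M),
          (∑ t ∈ Icc 1 H, f t * (if (s * m - t).Prime then 1 else 0)) ^ 2 := by
        rw [← Finset.mul_sum, Finset.sum_comm]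
    _ ≤ (#(IS R) : ℝ) * ∑ s ∈ IS R, ((M + 1) * ∑ t ∈ Icc 1 H, f t ^ 2 + 2 * H * (∑ t ∈ Icc 1 H, |f t|) ^ 2
        + 2 * B * ∑ h ∈ Icc 1 H, ∑ b ∈ range s, (Fr h) ^ 2 * |cb f H s b h|) := by
        refine mul_le_mul_of_nonneg_left (Finset.sum_le_sum fun s hs => ?_) (Nat.cast_nonneg _)
        exact one_s_bound f H s M B (mem_prI.mp hs).2.one_lt.le hH (fun b h hb h1 h2 => hN s b h hs hb h1 h2)
    _ = _ := by
        rw [Finset.sum_add_distrib, Finset.sum_const, nsmul_eq_mul, ← Finset.mul_sum]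

end Pool.Agent.E3
end
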