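import Pool.Agent.Lib.MP_bae66e_nt.AC.RowA
import Pool.Agent.Lib.MP_bae66e_nt.AC.RowV
import Pool.Agent.Lib.MP_bae66e_nt.AC.RowD
import Pool.Agent.Lib.MP_bae66e_nt.AC.RowE
import Pool.Agent.Lib.MP_bae66e_nt.AC.RowF
import Pool.Agent.Lib.MP_bae66e_nt.Mg.G029
import Pool.Agent.Lib.MP_bae66e_nt.Mg.G024

section

set_option autoImplicit false

namespace Pool.Agent.Lib.MP_bae66e_nt.AC

open Finset
open Pool.Agent.Lib.MP_bae66e_nt
open Pool.Agent.Lib.MP_bae66e_nt.AP3 (prI mem_prI)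
open Pool.Agent.Lib.MP_bae66e_nt.LL (fP)

/-- `φ(W)/W` for `W = primorial w` -/
private lemma H_rho (w : ℕ) :
    (Nat.totient (primorial w) : ℝ) = primorial w * ∏ p ∈ prms w, (1 - 1 / (p : ℝ)) := by
  have h1 := Nat.totient_eq_mul_prod_factors (primorial w)
  have h2 : (primorial w).primeFactors = prms w := by
    rw [primeFactors_primorial]
    ext p
    rw [mem_prms, Nat.mem_primesLE]
  rw [h2] at h1
  have h3 : ((Nat.totient (primorial w) : ℚ) : ℝ) =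
      (((primorial w : ℚ) * ∏ p ∈ prms w, (1 - (p : ℚ)⁻¹) : ℚ) : ℝ) := by rw [h1]
  push_cast at h3
  rw [h3]
  simp only [one_div]

private lemma H_inv {t : ℝ} (h0 : 0 ≤ t) (h1 : t ≤ 1 / 2) : (1 - t)⁻¹ ≤ Real.exp (t + 2 * t ^ 2) := by
  have h2 : (1 - t)⁻¹ ≤ 1 + (t + 2 * t ^ 2) := by
    rw [inv_le_iff_one_le_mul₀ (by linarith)]
    nlinarith [mul_nonneg (mul_nonneg h0 h0) (by linarith : (0 : ℝ) ≤ 1 - 2 * t)]
  refine h2.trans ?_
  rw [add_comm]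
  exact Real.add_one_le_exp _

/-- PROOF. `φ(W)/W = ∏_{p ≤ w} (1 - 1/p)`, `1/(1 - 1/p) ≤ exp(1/p + 2/p²)`, `sum_inv_prms_le`, `sum_prms_inv_sq_le`. -/
theorem mertens_W : ∃ K : ℝ, 1 ≤ K ∧ ∀ w : ℕ, 2 ≤ w →
    (primorial w : ℝ) / Nat.totient (primorial w) ≤ K * (Real.log w) ^ (6 : ℕ) := by
  refine ⟨Real.exp 6, Real.one_le_exp (by norm_num), fun w hw => ?_⟩
  have hW : (0 : ℝ) < primorial w := by exact_mod_cast primorial_pos w
  have hlog : 0 < Real.log w := Real.log_pos (by exact_mod_cast hw)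
  rw [H_rho, div_mul_eq_div_div, div_self hW.ne', one_div, ← Finset.prod_inv_distrib]
  calc ∏ p ∈ prms w, (1 - 1 / (p : ℝ))⁻¹
      ≤ ∏ p ∈ prms w, Real.exp (1 / (p : ℝ) + 2 * (1 / (p : ℝ)) ^ 2) := by
        refine Finset.prod_le_prod (fun p hp => ?_) (fun p hp => ?_)
        · have h2 : (2 : ℝ) ≤ p := by exact_mod_cast (mem_prms.1 hp).2.two_le
          have h3 : 1 / (p : ℝ) ≤ 1 / 2 := one_div_le_one_div_of_le (by norm_num) h2
          exact inv_nonneg.2 (by linarith)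
        · have h2 : (2 : ℝ) ≤ p := by exact_mod_cast (mem_prms.1 hp).2.two_le
          exact H_inv (by positivity) (one_div_le_one_div_of_le (by norm_num) h2)
    _ = Real.exp (∑ p ∈ prms w, (1 / (p : ℝ) + 2 * (1 / (p : ℝ)) ^ 2)) := by rw [Real.exp_sum]
    _ ≤ Real.exp (6 * Real.log (Real.log w) + 6) := by
        apply Real.exp_le_exp.2
        rw [Finset.sum_add_distrib, ← Finset.mul_sum]
        have h1 := sum_inv_prms_le w hw
        have h2 := sum_prms_inv_sq_le w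
        have h3 : ∑ p ∈ prms w, (1 / (p : ℝ)) ^ 2 = ∑ p ∈ prms w, 1 / (p : ℝ) ^ 2 :=
          Finset.sum_congr rfl fun p _ => by rw [one_div_pow]
        rw [h3]
        linarith
    _ = Real.exp 6 * Real.log w ^ 6 := by
        rw [add_comm, Real.exp_add]
        congr 1
        have h1 : 6 * Real.log (Real.log w) = Real.log (Real.log w ^ 6) := by
          rw [Real.log_pow]; norm_num
        rw [h1, Real.exp_log (by positivity)]

/-- the final numerical estimate -/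
private lemma H_final {X l H lh tK G K CE g W T w η : ℝ} (hX : 1 ≤ X) (hl : 1 ≤ l) (hH : 1 ≤ H)
    (htK : 0 ≤ tK) (hK : 0 ≤ K) (hCE : 0 ≤ CE) (hg : 0 < g) (hw : 0 < w)
    (hG : g * l / 32 ≤ G) (hA : tK * lh ^ 2 * l ≤ 2 * H) (hA2 : 12288 * K ≤ η * (g ^ 2 * l))
    (hB : 6144 * K * CE ≤ η * (g ^ 2 * w)) (hC : 12 * W * lh ^ 2 * l ^ 2 * T ^ 4 ≤ η * X) :
    (X + 1) * (1 / G ^ 2 * (K * tK * (H * lh ^ 2) + K * (CE * H ^ 2) / w)) + 4 * W * (H * lh) ^ 2 * T ^ 4 ≤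
      η * X * (H / l) ^ 2 := by
  have hl0 : 0 < l := by linarith
  have hgl : 0 < g * l := mul_pos hg hl0
  have hGi : 1 / G ^ 2 ≤ 1024 / (g ^ 2 * l ^ 2) := by
    rw [div_le_div_iff₀ (by nlinarith [sq_nonneg G, hG, hgl]) (by positivity)]
    have h1 : (g * l / 32) ^ 2 ≤ G ^ 2 := pow_le_pow_left₀ (by positivity) hG 2
    nlinarith
  have hS0 : 0 ≤ K * tK * (H * lh ^ 2) + K * (CE * H ^ 2) / w := by positivity
  have h1 : (X + 1) * (1 / G ^ 2 * (K * tK * (H * lh ^ 2) + K * (CE * H ^ 2) / w)) ≤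
      (2 * X) * (1024 / (g ^ 2 * l ^ 2) * (K * tK * (H * lh ^ 2) + K * (CE * H ^ 2) / w)) := by
    refine mul_le_mul (by linarith) (mul_le_mul_of_nonneg_right hGi hS0) ?_ (by positivity)
    exact mul_nonneg (by positivity) hS0
  have h2 : (2 * X) * (1024 / (g ^ 2 * l ^ 2) * (K * tK * (H * lh ^ 2))) ≤ η / 3 * X * (H / l) ^ 2 := by
    have e1 : (2 * X) * (1024 / (g ^ 2 * l ^ 2) * (K * tK * (H * lh ^ 2))) =
        (2048 * X * K * H / (g ^ 2 * l ^ 3)) * (tK * lh ^ 2 * l) := by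
      field_simp; ring
    have e2 : η / 3 * X * (H / l) ^ 2 = (X * H ^ 2 / (3 * l ^ 3 * g ^ 2)) * (η * (g ^ 2 * l)) := by
      field_simp
    rw [e1, e2]
    calc (2048 * X * K * H / (g ^ 2 * l ^ 3)) * (tK * lh ^ 2 * l)
        ≤ (2048 * X * K * H / (g ^ 2 * l ^ 3)) * (2 * H) := mul_le_mul_of_nonneg_left hA (by positivity)
      _ = (X * H ^ 2 / (3 * l ^ 3 * g ^ 2)) * (12288 * K) := by field_simp; ring
      _ ≤ _ := mul_le_mul_of_nonneg_left hA2 (by positivity)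
  have h3 : (2 * X) * (1024 / (g ^ 2 * l ^ 2) * (K * (CE * H ^ 2) / w)) ≤ η / 3 * X * (H / l) ^ 2 := by
    have e1 : (2 * X) * (1024 / (g ^ 2 * l ^ 2) * (K * (CE * H ^ 2) / w)) =
        (X * H ^ 2 / (3 * l ^ 2 * g ^ 2 * w)) * (6144 * K * CE) := by
      field_simp; ring
    have e2 : η / 3 * X * (H / l) ^ 2 = (X * H ^ 2 / (3 * l ^ 2 * g ^ 2 * w)) * (η * (g ^ 2 * w)) := by
      field_simp
    rw [e1, e2]
    exact mul_le_mul_of_nonneg_left hB (by positivity)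
  have h4 : 4 * W * (H * lh) ^ 2 * T ^ 4 ≤ η / 3 * X * (H / l) ^ 2 := by
    have e1 : 4 * W * (H * lh) ^ 2 * T ^ 4 = (H ^ 2 / (3 * l ^ 2)) * (12 * W * lh ^ 2 * l ^ 2 * T ^ 4) := by
      field_simp; ring
    have e2 : η / 3 * X * (H / l) ^ 2 = (H ^ 2 / (3 * l ^ 2)) * (η * X) := by
      field_simp
    rw [e1, e2]
    exact mul_le_mul_of_nonneg_left hC (by positivity)
  have h5 : (2 * X) * (1024 / (g ^ 2 * l ^ 2) * (K * tK * (H * lh ^ 2) + K * (CE * H ^ 2) / w)) =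
      (2 * X) * (1024 / (g ^ 2 * l ^ 2) * (K * tK * (H * lh ^ 2))) +
        (2 * X) * (1024 / (g ^ 2 * l ^ 2) * (K * (CE * H ^ 2) / w)) := by ring
  rw [h5] at h1
  linarith

private lemma H_fP_nonneg (H : ℕ) (t : ℤ) : 0 ≤ fP H t := by
  unfold fP
  split_ifs
  · exact Real.log_natCast_nonneg H
  · exact le_rfl

private lemma H_fP_le (H : ℕ) (t : ℤ) : fP H t ≤ Real.log H := by
  unfold fP
  split_ifs
  · exact le_rfl
  · exact Real.log_natCast_nonneg H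

private lemma H_FC (H W s m t : ℕ) : 0 ≤ FC H W s m t ∧ FC H W s m t ≤ fP H (t : ℤ) := by
  unfold FC
  split_ifs
  · exact ⟨H_fP_nonneg _ _, le_rfl⟩
  · exact ⟨le_rfl, H_fP_nonneg _ _⟩

private lemma H_Ek_nonneg (H k : ℕ) (F : ℕ → ℝ) (hF : ∀ t, 0 ≤ F t) : 0 ≤ Ek H k F := by
  unfold Ek
  refine sum_nonneg fun t _ => sum_nonneg fun t' _ => ?_
  split_ifs
  · exact mul_nonneg (hF t) (hF t')
  · exact le_rfl

/-- the finite part: the sum over all classes -/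
private lemma H_finite {K CE : ℝ}
    (hEk : ∀ (H k : ℕ) (F : ℕ → ℝ), 2 ≤ H → 1 ≤ k →
      (∀ t ∈ Icc 1 H, 0 ≤ F t ∧ F t ≤ fP H (t : ℤ)) →
      Ek H k F ≤ H * (Real.log H) ^ 2 + CE * (H : ℝ) ^ 2 / (k * rho k ^ 2))
    (hSE : ∀ (D T w : ℕ) (G L Q : ℝ) (lam E : ℕ → ℝ), 1 ≤ w → 3 ≤ T → D ≠ 0 → primorial w ∣ D →
      0 ≤ L → 0 ≤ Q → SD (sProd D T) T G lam → (∀ k, 1 ≤ k → 0 ≤ E k ∧ E k ≤ L + Q / (k * rho k ^ 2)) →
      ∑ e ∈ (sProd D T).divisors with e ≠ 1, (Uc (sProd D T) lam e) ^ 2 * ∑ k ∈ e.divisors, (k : ℝ) * E k ≤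
      1 / G ^ 2 * (K * (Real.log T) ^ K * L + K * Q / w))
    (hCE : 0 ≤ CE) {D T w : ℕ} {G : ℝ} {lam : ℕ → ℝ} (hsd : SD (sProd D T) T G lam) (hw : 1 ≤ w)
    (hT : 3 ≤ T) (hD : D ≠ 0) (hWD : primorial w ∣ D) {s M H : ℕ} (hs : 1 ≤ s) (hsD : s ∣ D)
    (hH : 2 ≤ H) (hHM : H ≤ M) (hM : 1 ≤ M) :
    ∑ m ∈ Icc M (2 * M), ((∑ t ∈ Icc 1 H, FC H (primorial w) s m t * sg (sProd D T) lam (s * m - t)) -
      (∑ t ∈ Icc 1 H, FC H (primorial w) s m t) / G) ^ 2 ≤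
    ((M : ℝ) + 1) * (1 / G ^ 2 * (K * (Real.log T) ^ K * (H * (Real.log H) ^ 2) + K * (CE * (H : ℝ) ^ 2) / w)) +
      4 * (primorial w) * (H * Real.log H) ^ 2 * (T : ℝ) ^ 4 := by
  have hW : 1 ≤ primorial w := primorial_pos w
  set W := primorial w with hWdef
  set S : ℝ := 1 / G ^ 2 * (K * (Real.log T) ^ K * (H * (Real.log H) ^ 2) + K * (CE * (H : ℝ) ^ 2) / w) with hS
  have hW0 : (0 : ℝ) < W := by exact_mod_cast hW
  have hcl : ∀ c ∈ range W, ∑ m ∈ Icc M (2 * M) with m % W = c,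
      ((∑ t ∈ Icc 1 H, FC H W s m t * sg (sProd D T) lam (s * m - t)) -
      (∑ t ∈ Icc 1 H, FC H W s m t) / G) ^ 2 ≤
      ((M : ℝ) + 1) / W * S + 4 * (H * Real.log H) ^ 2 * (T : ℝ) ^ 4 := by
    intro c hc
    have hcW : c % W = c := Nat.mod_eq_of_lt (mem_range.1 hc)
    have h1 : ∑ m ∈ Icc M (2 * M) with m % W = c,
        ((∑ t ∈ Icc 1 H, FC H W s m t * sg (sProd D T) lam (s * m - t)) -
        (∑ t ∈ Icc 1 H, FC H W s m t) / G) ^ 2 =
        ∑ m ∈ Icc M (2 * M) with m ≡ c [MOD W],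
        ((∑ t ∈ Icc 1 H, FC H W s c t * sg (sProd D T) lam (s * m - t)) -
        (∑ t ∈ Icc 1 H, FC H W s c t) / G) ^ 2 := by
      refine sum_congr ?_ fun m hm => ?_
      · ext m
        simp only [mem_filter]
        unfold Nat.ModEq
        rw [hcW]
      · have h2 : m ≡ c [MOD W] := by
          unfold Nat.ModEq
          rw [hcW]
          simp only [mem_filter] at hm
          unfold Nat.ModEq at hm
          rw [hcW] at hm
          exact hm.2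
        have h3 : ∀ t, FC H W s m t = FC H W s c t := fun t => FC_congr H W s m c t h2
        simp only [h3]
    rw [h1]
    refine (variance hsd M W c s H (FC H W s c) (by omega) hW
      (Nat.Coprime.coprime_dvd_right hWD (coprime_sProd D T))
      (Nat.Coprime.coprime_dvd_right hsD (coprime_sProd D T)) hs hHM hM).trans ?_
    have habs : ∀ t, |FC H W s c t| = FC H W s c t := fun t => abs_of_nonneg (H_FC H W s c t).1
    simp only [habs]
    have h2 : ∑ e ∈ (sProd D T).divisors with e ≠ 1, (Uc (sProd D T) lam e) ^ 2 *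
        ∑ k ∈ e.divisors, (k : ℝ) * Ek H k (fun t => FC H W s c t) ≤ S := by
      refine hSE D T w G _ _ lam (fun k => Ek H k (fun t => FC H W s c t)) hw hT hD hWD ?_ ?_ hsd
        fun k hk => ⟨?_, ?_⟩
      · positivity
      · positivity
      · exact H_Ek_nonneg _ _ _ fun t => (H_FC H W s c t).1
      · exact hEk H k _ hH hk fun t _ => H_FC H W s c t
    have h3 : ∑ t ∈ Icc 1 H, FC H W s c t ≤ H * Real.log H := by
      calc ∑ t ∈ Icc 1 H, FC H W s c t ≤ ∑ _t ∈ Icc 1 H, Real.log H :=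
            sum_le_sum fun t _ => (H_FC H W s c t).2.trans (H_fP_le _ _)
        _ = H * Real.log H := by rw [sum_const, Nat.card_Icc, nsmul_eq_mul, Nat.add_sub_cancel]
    have h4 : 0 ≤ ∑ t ∈ Icc 1 H, FC H W s c t := sum_nonneg fun t _ => (H_FC H W s c t).1
    refine add_le_add (mul_le_mul_of_nonneg_left h2 (by positivity)) ?_
    refine mul_le_mul_of_nonneg_right ?_ (by positivity)
    exact mul_le_mul_of_nonneg_left (pow_le_pow_left₀ h4 h3 2) (by norm_num)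
  have hmaps : ∀ m ∈ Icc M (2 * M), m % W ∈ range W := fun m _ => mem_range.2 (Nat.mod_lt _ hW)
  rw [← sum_fiberwise_of_maps_to hmaps]
  refine (sum_le_sum hcl).trans (le_of_eq ?_)
  rw [sum_const, card_range, nsmul_eq_mul]
  field_simp

open Filter in
private lemma H_ev_w (c η : ℝ) (hη : 0 < η) : ∃ w₁ : ℕ, ∀ w : ℕ, w₁ ≤ w → c * (Real.log w) ^ 12 ≤ η * w := by
  have h1 : (fun x : ℝ => Real.log x ^ (12 : ℝ)) =o[atTop] fun x => x ^ (1 : ℝ) :=
    isLittleO_log_rpow_rpow_atTop 12 one_pos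
  have h2 := (h1.bound (show 0 < η / (|c| + 1) by positivity)).and (eventually_ge_atTop (1 : ℝ))
  have h3 := tendsto_natCast_atTop_atTop.eventually h2
  obtain ⟨w₁, hw₁⟩ := eventually_atTop.1 h3
  refine ⟨w₁, fun w hw => ?_⟩
  obtain ⟨h4, h5⟩ := hw₁ w hw
  have hl : 0 ≤ Real.log w := Real.log_natCast_nonneg w
  have e1 : Real.log w ^ (12 : ℝ) = Real.log w ^ 12 := by
    rw [← Real.rpow_natCast]; norm_num
  rw [e1, Real.rpow_one, Real.norm_of_nonneg (by positivity), Real.norm_of_nonneg (by positivity)] at h4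
  have h6 : (|c| + 1) * Real.log w ^ 12 ≤ η * w := by
    calc (|c| + 1) * Real.log w ^ 12 ≤ (|c| + 1) * (η / (|c| + 1) * w) :=
          mul_le_mul_of_nonneg_left h4 (by positivity)
      _ = η * w := by field_simp
  have h7 : c * Real.log w ^ 12 ≤ (|c| + 1) * Real.log w ^ 12 :=
    mul_le_mul_of_nonneg_right (by linarith [le_abs_self c]) (by positivity)
  linarith

open Filter in
private lemma H_ev_M (a : ℝ) (ha : 0 < a) (N₀ : ℕ) (A B : ℝ) : ∃ M₀ : ℕ, ∀ M : ℕ, M₀ ≤ M →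
    N₀ ≤ ⌊(Real.log M) ^ a⌋₊ ∧ A ≤ Real.log M ∧ B ≤ (M : ℝ) ^ (1 / 16 : ℝ) ∧
      (Real.log M) ^ a ≤ ((M : ℝ) ^ (1 / 16 : ℝ)) ^ 2 ∧ 1 ≤ M := by
  have hc := tendsto_natCast_atTop_atTop (R := ℝ)
  have hl : Tendsto (fun M : ℕ => Real.log M) atTop atTop := Real.tendsto_log_atTop.comp hc
  have h1 : ∀ᶠ M : ℕ in atTop, N₀ ≤ ⌊(Real.log M) ^ a⌋₊ :=
    (tendsto_nat_floor_atTop.comp ((tendsto_rpow_atTop ha).comp hl)).eventually_ge_atTop N₀
  have h2 : ∀ᶠ M : ℕ in atTop, A ≤ Real.log M := hl.eventually_ge_atTop A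
  have h3 : ∀ᶠ M : ℕ in atTop, B ≤ (M : ℝ) ^ (1 / 16 : ℝ) :=
    ((tendsto_rpow_atTop (by norm_num : (0 : ℝ) < 1 / 16)).comp hc).eventually_ge_atTop B
  have h4 : ∀ᶠ x : ℝ in atTop, ‖Real.log x ^ a‖ ≤ 1 * ‖x ^ (1 / 8 : ℝ)‖ :=
    (isLittleO_log_rpow_rpow_atTop a (by norm_num : (0 : ℝ) < 1 / 8)).bound one_pos
  have h5 := hc.eventually h4
  obtain ⟨M₀, hM₀⟩ := eventually_atTop.1 (((h1.and h2).and (h3.and h5)).and (eventually_ge_atTop 1))
  refine ⟨M₀, fun M hM => ?_⟩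
  obtain ⟨⟨⟨g1, g2⟩, g3, g4⟩, g5⟩ := hM₀ M hM
  refine ⟨g1, g2, g3, ?_, g5⟩
  have hM0 : (0 : ℝ) ≤ M := Nat.cast_nonneg M
  have h6 : ((M : ℝ) ^ (1 / 16 : ℝ)) ^ 2 = (M : ℝ) ^ (1 / 8 : ℝ) := by
    rw [← Real.rpow_natCast, ← Real.rpow_mul hM0]
    norm_num
  rw [h6]
  rw [one_mul, Real.norm_of_nonneg (Real.rpow_nonneg hM0 _)] at g4
  exact (le_abs_self _).trans g4

/-- The sums over one multiplier `s`.
PROOF. `W = primorial w`, `T = ⌊M^(1/16)⌋₊`, `D = W ∏_{p ∈ prI R (2R)} p`, `P = sProd D T` (coprime to `D`, so to `W` and to `s`: `coprime_sProd`), `G, lam` from `exists_SD`;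
`G ≥ rho D log(T+1) ≥ (φ(W)/W) (log M)/32` (`rho_D`, `T + 1 ≥ M^(1/16)`). `Pm m = ∑_t FC H W s m t · sg P lam (s m - t)` (`majorant`), `B m = (∑_t FC H W s m t)/G`; for even `m` `#VV ≥ 1`
(`card_classes` of E3/F1 has exactly this set; it is a hypothesis `hVV` here) and `A_bound` gives `B m ≤ 20 H #VV/φ(W) · 32 (W/φ(W))/log M = 640 Sg H/log M`.
Sum over the classes `c < W`: in the class of `c` the function `FC H W s m` is `FC H W s c` (`FC_congr`), so `variance` with `F = FC H W s c`, `Ek_bound`, `sum_e` (`L = H (log H)²`, `Q = C H²`) give for each class at most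
`((M+1)/W) (1/G²)(K (log T)^K H (log H)² + K C H²/w) + 4 (H log H)² T⁴`; times `W`; `1/G² ≤ (32 W/φ(W))²/(log M)²`, `(W/φ(W))²/w → 0` (`mertens_W`), and `(log M)^K (log H)² /H → 0` if `a ≥ K + 3`, `W (H log H)² M^(1/4)/M → 0`. -/
theorem var_class : ∃ C a₁ : ℝ, 1 ≤ C ∧ 3 ≤ a₁ ∧ ∀ a : ℝ, a₁ ≤ a → ∀ η : ℝ, 0 < η → ∃ w₀ : ℕ, ∀ w : ℕ, w₀ ≤ w →
    (∀ m : ℕ, Even m → 1 ≤ #(VV (primorial w) m)) →
    ∃ M₀ : ℕ, ∀ M : ℕ, M₀ ≤ M → ∀ R H : ℕ, R = ⌊(Real.log M) ^ a⌋₊ → H = 2 * R ^ 2 → ∀ s ∈ prI R (2 * R),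
    ∃ B Pm : ℕ → ℝ,
      (∀ m ∈ Icc M (2 * M), ∑ t ∈ Icc 1 H, fP H (t : ℤ) * (if (s * m - t).Prime then (1 : ℝ) else 0) ≤ Pm m) ∧
      (∀ m ∈ Icc M (2 * M), Even m → 0 ≤ B m ∧ B m ≤ C * Sg (primorial w) m * (H / Real.log M)) ∧
      ∑ m ∈ Icc M (2 * M) with Even m, (Pm m - B m) ^ 2 ≤ η * M * ((H : ℝ) / Real.log M) ^ 2 := by
  obtain ⟨CE, hCE, hEk⟩ := Ek_bound
  obtain ⟨K, hK, hSE⟩ := sum_e
  obtain ⟨Km, hKm, hmert⟩ := mertens_W
  obtain ⟨R₀, hR₀⟩ := rho_D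
  refine ⟨640, K + 3, by norm_num, by linarith, fun a ha η hη => ?_⟩
  have ha0 : 0 < a := by linarith
  obtain ⟨w₁, hw₁⟩ := H_ev_w (6144 * K * CE * Km ^ 2) η hη
  refine ⟨max 2 w₁, fun w hw hVV => ?_⟩
  have hw2 : 2 ≤ w := (le_max_left _ _).trans hw
  have hw1' := hw₁ w ((le_max_right _ _).trans hw)
  have hwR : (0 : ℝ) < w := by exact_mod_cast (show 0 < w by omega)
  obtain ⟨H₀, hH₀⟩ := A_bound w hw2
  have hmw := hmert w hw2
  have hW : 1 ≤ primorial w := primorial_pos w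
  set W := primorial w with hWdef
  have hW0 : (0 : ℝ) < W := by exact_mod_cast hW
  have hφ : (0 : ℝ) < Nat.totient W := by exact_mod_cast Nat.totient_pos.2 hW
  obtain ⟨g, hgdef⟩ : ∃ g : ℝ, g = (Nat.totient W : ℝ) / W := ⟨_, rfl⟩
  have hg : 0 < g := by rw [hgdef]; positivity
  have hl6 : 0 ≤ Real.log w ^ 6 := pow_nonneg (Real.log_natCast_nonneg w) 6
  have hg1 : 1 ≤ g * (Km * Real.log w ^ 6) := by
    have h1 : g * ((W : ℝ) / Nat.totient W) = 1 := by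
      rw [hgdef]; field_simp
    rw [← h1]
    exact mul_le_mul_of_nonneg_left hmw hg.le
  have hB : 6144 * K * CE ≤ η * (g ^ 2 * w) := by
    have h1 : 1 ≤ (g * (Km * Real.log w ^ 6)) ^ 2 := one_le_pow₀ hg1
    have h2 : 0 ≤ 6144 * K * CE := by positivity
    calc 6144 * K * CE ≤ 6144 * K * CE * (g * (Km * Real.log w ^ 6)) ^ 2 := le_mul_of_one_le_right h2 h1
      _ = g ^ 2 * (6144 * K * CE * Km ^ 2 * Real.log w ^ 12) := by ring
      _ ≤ g ^ 2 * (η * w) := mul_le_mul_of_nonneg_left hw1' (by positivity)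
      _ = η * (g ^ 2 * w) := by ring
  obtain ⟨M₀, hM₀⟩ := H_ev_M a ha0 (R₀ + w + H₀ + 3) (max 1 (12288 * K / (η * g ^ 2)))
    (max 4 (max w (12 * W / η)))
  refine ⟨M₀, fun M hM R H hR hH s hs => ?_⟩
  obtain ⟨hR1, hl, hy, hly, hM1⟩ := hM₀ M hM
  rw [← hR] at hR1
  obtain ⟨l, hldef⟩ : ∃ l : ℝ, l = Real.log M := ⟨_, rfl⟩
  obtain ⟨y, hydef⟩ : ∃ y : ℝ, y = (M : ℝ) ^ (1 / 16 : ℝ) := ⟨_, rfl⟩
  rw [← hldef] at hR hl hly ⊢
  rw [← hydef] at hy hly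
  have hMR : (1 : ℝ) ≤ M := by exact_mod_cast hM1
  have hl1 : 1 ≤ l := (le_max_left _ _).trans hl
  have hl0 : 0 < l := by linarith
  have hy4 : 4 ≤ y := (le_max_left _ _).trans hy
  have hyw : (w : ℝ) ≤ y := (le_max_left _ _).trans ((le_max_right _ _).trans hy)
  have hyW : 12 * W / η ≤ y := (le_max_right _ _).trans ((le_max_right _ _).trans hy)
  have hy16 : y ^ 16 = M := by
    rw [hydef, ← Real.rpow_natCast, ← Real.rpow_mul (by linarith)]
    norm_num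
  have hlogy : Real.log y = l / 16 := by
    rw [hydef, Real.log_rpow (by linarith), ← hldef]
    ring
  -- R and H
  have hla0 : 0 ≤ l ^ a := Real.rpow_nonneg hl0.le _
  have hRle : (R : ℝ) ≤ l ^ a := by rw [hR]; exact Nat.floor_le hla0
  have hRlt : l ^ a < R + 1 := by rw [hR]; exact Nat.lt_floor_add_one _
  have hR3 : (3 : ℝ) ≤ R := by exact_mod_cast (show 3 ≤ R by omega)
  have hHR : (H : ℝ) = 2 * (R : ℝ) ^ 2 := by rw [hH]; push_cast; ring
  have hHl : l ^ a ≤ H := by rw [hHR]; nlinarith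
  have hHR2 : R ≤ H := by rw [hH]; nlinarith [Nat.zero_le R]
  have hHy : (H : ℝ) ≤ 2 * y ^ 4 := by
    have h1 : (R : ℝ) ≤ y ^ 2 := hRle.trans hly
    have h2 : (R : ℝ) ^ 2 ≤ (y ^ 2) ^ 2 := pow_le_pow_left₀ (by positivity) h1 2
    rw [hHR]
    calc 2 * (R : ℝ) ^ 2 ≤ 2 * (y ^ 2) ^ 2 := by linarith
      _ = 2 * y ^ 4 := by ring
  -- T
  obtain ⟨T, hTdef⟩ : ∃ T : ℕ, T = ⌊y⌋₊ := ⟨_, rfl⟩
  have hT4 : 4 ≤ T := by rw [hTdef]; exact Nat.le_floor (by exact_mod_cast hy4)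
  have hTy : (T : ℝ) ≤ y := by rw [hTdef]; exact Nat.floor_le (by linarith)
  have hTlt : y < T + 1 := by rw [hTdef]; exact Nat.lt_floor_add_one _
  have hTR : (4 : ℝ) ≤ T := by exact_mod_cast hT4
  have hy12 : 16 ≤ y ^ 12 := by
    have h1 : (4 : ℝ) ^ 12 ≤ y ^ 12 := pow_le_pow_left₀ (by norm_num) hy4 12
    norm_num at h1
    linarith
  have hyy4 : y ≤ y ^ 4 := le_self_pow₀ (by linarith) (by norm_num)
  have hy4pos : 0 < y ^ 4 := by positivity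
  have hsum : (H : ℝ) + T + w < M := by
    rw [← hy16]
    have h1 : y ^ 16 = y ^ 4 * y ^ 12 := by ring
    have h2 : y ^ 4 * 16 ≤ y ^ 4 * y ^ 12 := mul_le_mul_of_nonneg_left hy12 hy4pos.le
    rw [h1]
    linarith
  have hsumN : H + T + w < M := by exact_mod_cast hsum
  have hHM : H ≤ M := by omega
  have hH2 : 2 ≤ H := by omega
  have hHpos : (1 : ℝ) ≤ H := by exact_mod_cast (show 1 ≤ H by omega)
  have hlh0 : 0 ≤ Real.log H := Real.log_natCast_nonneg H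
  have hlhl : Real.log H ≤ l := by
    rw [hldef]
    exact Real.log_le_log (by linarith) (by exact_mod_cast hHM)
  have hlT0 : 0 ≤ Real.log T := Real.log_natCast_nonneg T
  have hlTl : Real.log T ≤ l := by
    rw [hldef]
    exact Real.log_le_log (by linarith) (by exact_mod_cast (show T ≤ M by omega))
  -- s
  obtain ⟨⟨hs1, hs2⟩, hsp⟩ := mem_prI.1 hs
  have hwRR : w < R := by omega
  have hs0 : 1 ≤ s := hsp.one_lt.le
  have hsW : Nat.Coprime s W := by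
    rw [hsp.coprime_iff_not_dvd, hWdef, hsp.dvd_primorial_iff]
    omega
  -- D
  obtain ⟨D, hDdef⟩ : ∃ D : ℕ, D = W * ∏ p ∈ prI R (2 * R), p := ⟨_, rfl⟩
  have hD1 : 1 ≤ D := by
    rw [hDdef]
    exact Nat.mul_pos hW (prod_pos fun p hp => (mem_prI.1 hp).2.pos)
  have hWD : W ∣ D := by rw [hDdef]; exact Dvd.intro _ rfl
  have hsD : s ∣ D := by rw [hDdef]; exact (dvd_prod_of_mem (fun p => p) hs).mul_left _
  obtain ⟨G, lam, hGD, hsd⟩ := exists_SD D T hD1 (by omega)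
  have hG : g * l / 32 ≤ G := by
    have h1 := hR₀ R w (by omega) hwRR
    rw [← hWdef, ← hDdef, ← hgdef] at h1
    have h2 : l / 16 ≤ Real.log ((T : ℝ) + 1) := by
      rw [← hlogy]
      exact Real.log_le_log (by linarith) hTlt.le
    calc g * l / 32 = g / 2 * (l / 16) := by ring
      _ ≤ rho D * Real.log ((T : ℝ) + 1) := mul_le_mul h1 h2 (by positivity) (rho_pos D).le
      _ ≤ G := hGD
  have hG0 : 0 < G := lt_of_lt_of_le (by positivity) hG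
  refine ⟨fun m => (∑ t ∈ Icc 1 H, FC H W s m t) / G,
    fun m => ∑ t ∈ Icc 1 H, FC H W s m t * sg (sProd D T) lam (s * m - t), ?_, ?_, ?_⟩
  · intro m hm
    exact majorant hsd H w s m (lt_of_lt_of_le hsumN (mem_Icc.1 hm).1) hs0
  · intro m hm hme
    have hn : 0 ≤ ∑ t ∈ Icc 1 H, FC H W s m t := sum_nonneg fun t _ => (H_FC H W s m t).1
    refine ⟨div_nonneg hn hG0.le, ?_⟩
    have h1 := hH₀ H s m (by omega) hs0 hsW (hVV m hme)
    have h2 : (∑ t ∈ Icc 1 H, FC H W s m t) / G ≤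
        (20 * H * (#(VV W m) : ℝ) / Nat.totient W) / (g * l / 32) :=
      div_le_div₀ (hn.trans h1) h1 (by positivity) hG
    refine h2.trans (le_of_eq ?_)
    unfold Sg
    rw [hgdef]
    field_simp
    ring
  · refine (sum_le_sum_of_subset_of_nonneg (filter_subset _ _) fun m _ _ => sq_nonneg _).trans ?_
    refine (H_finite hEk hSE (by linarith) hsd (by omega) (by omega) (by omega) (by rw [← hWdef]; exact hWD)
      hs0 hsD hH2 hHM hM1).trans ?_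
    have hKl : (Real.log T) ^ K ≤ l ^ K := Real.rpow_le_rpow hlT0 hlTl (by linarith)
    have hKl0 : 0 ≤ (Real.log T) ^ K := Real.rpow_nonneg hlT0 _
    have hA : (Real.log T) ^ K * (Real.log H) ^ 2 * l ≤ 2 * H := by
      have h1 : (Real.log H) ^ 2 ≤ l ^ 2 := pow_le_pow_left₀ hlh0 hlhl 2
      calc (Real.log T) ^ K * (Real.log H) ^ 2 * l ≤ l ^ K * l ^ 2 * l := by
            refine mul_le_mul_of_nonneg_right (mul_le_mul hKl h1 (by positivity) (by positivity)) hl0.le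
        _ = l ^ (K + 3) := by
            rw [Real.rpow_add hl0, mul_assoc]
            congr 1
            have : (l : ℝ) ^ (3 : ℝ) = l ^ 3 := by
              rw [← Real.rpow_natCast]; norm_num
            rw [this]; ring
        _ ≤ l ^ a := Real.rpow_le_rpow_of_exponent_le hl1 ha
        _ ≤ 2 * H := by linarith
    have hA2 : 12288 * K ≤ η * (g ^ 2 * l) := by
      have h1 : 12288 * K / (η * g ^ 2) ≤ l := (le_max_right _ _).trans hl
      rw [div_le_iff₀ (by positivity)] at h1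
      linarith
    have hll : l ≤ y ^ 2 := by
      have h1 : l ^ (1 : ℝ) ≤ l ^ a := Real.rpow_le_rpow_of_exponent_le hl1 (by linarith)
      rw [Real.rpow_one] at h1
      exact h1.trans hly
    have hC : 12 * W * (Real.log H) ^ 2 * l ^ 2 * (T : ℝ) ^ 4 ≤ η * M := by
      have h1 : (Real.log H) ^ 2 ≤ (y ^ 2) ^ 2 := pow_le_pow_left₀ hlh0 (hlhl.trans hll) 2
      have h2 : l ^ 2 ≤ (y ^ 2) ^ 2 := pow_le_pow_left₀ hl0.le hll 2
      have h3 : (T : ℝ) ^ 4 ≤ y ^ 4 := pow_le_pow_left₀ (by positivity) hTy 4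
      have h4 : 12 * (W : ℝ) ≤ η * y := by
        rw [div_le_iff₀ hη] at hyW
        linarith
      have h5 : η * y ≤ η * y ^ 4 := mul_le_mul_of_nonneg_left hyy4 hη.le
      calc 12 * W * (Real.log H) ^ 2 * l ^ 2 * (T : ℝ) ^ 4
          ≤ 12 * W * (y ^ 2) ^ 2 * (y ^ 2) ^ 2 * y ^ 4 := by gcongr
        _ = (12 * W) * y ^ 12 := by ring
        _ ≤ (η * y ^ 4) * y ^ 12 := mul_le_mul_of_nonneg_right (h4.trans h5) (by positivity)
        _ = η * M := by rw [← hy16]; ring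
    exact H_final hMR hl1 hHpos hKl0 (by linarith) (by linarith) hg hwR hG hA hA2 hB hC

end Pool.Agent.Lib.MP_bae66e_nt.AC
end

section

/-!
# Row I: the second moment over the multipliers, for almost all `m`
-/

set_option autoImplicit false

namespace Pool.Agent.Lib.MP_bae66e_nt.AC

open Finset
open Pool.Agent.Lib.MP_bae66e_nt
open Pool.Agent.Lib.MP_bae66e_nt.AP3 (prI mem_prI)
open Pool.Agent.Lib.MP_bae66e_nt.LL (fP)
open Pool.Agent.E3 (RJ HJ GJ IS IS_bounds card_classes GJ_pos)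

/-- PROOF. `card_classes` (E3/F1): `φ(W)²/W ≤ #VV`. -/
theorem one_le_Sg (w m : ℕ) (hw : 2 ≤ w) (hm : Even m) : 1 ≤ Sg (primorial w) m ∧ 1 ≤ #(VV (primorial w) m) := by
  have h := card_classes w m hw hm
  have hWpos : 0 < primorial w := primorial_pos w
  have hW : (0 : ℝ) < (primorial w : ℝ) := by exact_mod_cast hWpos
  have hφ : (0 : ℝ) < (Nat.totient (primorial w) : ℝ) := by exact_mod_cast Nat.totient_pos.2 hWpos
  have h' : (Nat.totient (primorial w) : ℝ) ^ 2 / (primorial w : ℝ) ≤ (#(VV (primorial w) m) : ℝ) := h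
  constructor
  · unfold Sg
    rw [le_div_iff₀ (by positivity), one_mul]
    rw [div_le_iff₀ hW] at h'
    linarith
  · have h2 : (0 : ℝ) < (#(VV (primorial w) m) : ℝ) := lt_of_lt_of_le (by positivity) h'
    have h3 : 0 < #(VV (primorial w) m) := by exact_mod_cast h2
    omega

theorem fP_nn (H : ℕ) (n : ℤ) : 0 ≤ fP H n := by
  unfold fP
  split_ifs
  · exact Real.log_natCast_nonneg H
  · exact le_rfl

theorem second_most : ∃ C a₁ : ℝ, 1 ≤ C ∧ 3 ≤ a₁ ∧ ∀ a : ℝ, a₁ ≤ a → ∀ δ : ℝ, 0 < δ → ∃ w₀ : ℕ, ∀ w : ℕ, w₀ ≤ w →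
    ∃ M₀ : ℕ, ∀ M : ℕ, M₀ ≤ M →
      (#{m ∈ Icc M (2 * M) | Even m ∧ C * (Sg (primorial w) m) ^ 2 * (RJ a M / Real.log (RJ a M)) *
          (HJ a M / Real.log M) ^ 2 < ∑ s ∈ IS (RJ a M), (∑ t ∈ Icc 1 (HJ a M),
            fP (HJ a M) (t : ℤ) * (if (s * m - t).Prime then (1 : ℝ) else 0)) ^ 2} : ℝ) ≤ δ * M := by
  classical
  obtain ⟨C₀, a₁, hC₀, ha₁, hvar⟩ := var_class
  obtain ⟨C₃, hC₃, hIS⟩ := IS_bounds
  have hCC : 1 ≤ C₀ ^ 2 * C₃ := by
    have : 1 ≤ C₀ ^ 2 := one_le_pow₀ hC₀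
    nlinarith
  refine ⟨4 * (C₀ ^ 2 * C₃), a₁, by linarith, ha₁, fun a ha δ hδ => ?_⟩
  obtain ⟨w₀, hw₀⟩ := hvar a ha δ hδ
  refine ⟨max w₀ 2, fun w hw => ?_⟩
  have hw2 : 2 ≤ w := (le_max_right _ _).trans hw
  obtain ⟨M₁, hM₁⟩ := hw₀ w ((le_max_left _ _).trans hw) (fun m hm => (one_le_Sg w m hw2 hm).2)
  obtain ⟨M₂, hM₂⟩ := GJ_pos a (ha₁.trans ha) 3
  refine ⟨max M₁ (max M₂ 16), fun M hM => ?_⟩
  have hMa : M₁ ≤ M := (le_max_left _ _).trans hM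
  have hMb : M₂ ≤ M := ((le_max_left _ _).trans (le_max_right _ _)).trans hM
  have hMc : 16 ≤ M := ((le_max_right _ _).trans (le_max_right _ _)).trans hM
  obtain ⟨-, -, hR3⟩ := hM₂ M hMb
  have key := hM₁ M hMa (RJ a M) (HJ a M) rfl rfl
  set R := RJ a M with hR
  set H := HJ a M with hH
  have hMr : (16 : ℝ) ≤ M := by exact_mod_cast hMc
  have hRr : (3 : ℝ) < R := by exact_mod_cast hR3
  have hlR : 0 < Real.log R := Real.log_pos (by linarith)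
  have hlM : 0 < Real.log M := Real.log_pos (by linarith)
  have hHpos : (0 : ℝ) < H := by
    have : 0 < H := by
      rw [hH]
      unfold HJ
      have : 0 < RJ a M := by omega
      positivity
    exact_mod_cast this
  set V : ℝ := (H : ℝ) / Real.log M with hV
  have hV0 : 0 < V := by positivity
  have hIScard := (hIS R (by omega)).1
  -- the functions
  have key' : ∀ s : ℕ, ∃ B Pm : ℕ → ℝ, s ∈ IS R →
      (∀ m ∈ Icc M (2 * M), ∑ t ∈ Icc 1 H, fP H (t : ℤ) * (if (s * m - t).Prime then (1 : ℝ) else 0) ≤ Pm m) ∧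
      (∀ m ∈ Icc M (2 * M), Even m → 0 ≤ B m ∧ B m ≤ C₀ * Sg (primorial w) m * V) ∧
      ∑ m ∈ Icc M (2 * M) with Even m, (Pm m - B m) ^ 2 ≤ δ * M * V ^ 2 := by
    intro s
    by_cases hs : s ∈ IS R
    · obtain ⟨B, Pm, h⟩ := key s hs
      exact ⟨B, Pm, fun _ => h⟩
    · exact ⟨fun _ => 0, fun _ => 0, fun h => absurd h hs⟩
  choose B Pm hBP using key'
  set S : ℕ → ℕ → ℝ := fun s m => ∑ t ∈ Icc 1 H, fP H (t : ℤ) * (if (s * m - t).Prime then (1 : ℝ) else 0)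
    with hS
  have hS0 : ∀ s m, 0 ≤ S s m := fun s m => Finset.sum_nonneg fun t _ =>
    mul_nonneg (fP_nn _ _) (by split_ifs <;> norm_num)
  set n : ℝ := (#(IS R) : ℝ) with hn
  have hn0 : 0 ≤ n := Nat.cast_nonneg _
  rcases Finset.eq_empty_or_nonempty (IS R) with hemp | hne
  · -- no multipliers
    have h0 : ({m ∈ Icc M (2 * M) | Even m ∧ 4 * (C₀ ^ 2 * C₃) * (Sg (primorial w) m) ^ 2 * (R / Real.log R) *
        (V) ^ 2 < ∑ s ∈ IS R, (S s m) ^ 2} : Finset ℕ) = ∅ := by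
      rw [Finset.filter_eq_empty_iff]
      rintro m _ ⟨-, h⟩
      rw [hemp, Finset.sum_empty] at h
      have : 0 ≤ 4 * (C₀ ^ 2 * C₃) * (Sg (primorial w) m) ^ 2 * (R / Real.log R) * (V) ^ 2 := by positivity
      linarith
    rw [h0, Finset.card_empty]
    push_cast
    positivity
  have hn1 : 0 < n := by
    rw [hn]
    exact_mod_cast hne.card_pos
  set Bad : Finset ℕ := {m ∈ (Icc M (2 * M)).filter Even | n * V ^ 2 < ∑ s ∈ IS R, (Pm s m - B s m) ^ 2} with hBad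
  have hBadc : (Bad.card : ℝ) ≤ δ * M := by
    have e1 : (Bad.card : ℝ) * (n * V ^ 2) ≤ ∑ m ∈ (Icc M (2 * M)).filter Even, ∑ s ∈ IS R, (Pm s m - B s m) ^ 2 := by
      calc (Bad.card : ℝ) * (n * V ^ 2) = ∑ m ∈ Bad, n * V ^ 2 := by
            rw [Finset.sum_const, nsmul_eq_mul]
        _ ≤ ∑ m ∈ Bad, ∑ s ∈ IS R, (Pm s m - B s m) ^ 2 :=
            Finset.sum_le_sum fun m hm => (Finset.mem_filter.1 hm).2.le
        _ ≤ _ := Finset.sum_le_sum_of_subset_of_nonneg (Finset.filter_subset _ _)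
            (fun _ _ _ => Finset.sum_nonneg fun _ _ => sq_nonneg _)
    have e2 : ∑ m ∈ (Icc M (2 * M)).filter Even, ∑ s ∈ IS R, (Pm s m - B s m) ^ 2 ≤ n * (δ * M * V ^ 2) := by
      rw [Finset.sum_comm, hn, ← nsmul_eq_mul]
      exact Finset.sum_le_card_nsmul _ _ _ fun s hs => (hBP s hs).2.2
    have e3 : (Bad.card : ℝ) * (n * V ^ 2) ≤ (δ * M) * (n * V ^ 2) := by
      refine (e1.trans e2).trans (le_of_eq ?_)
      ring
    exact le_of_mul_le_mul_right e3 (by positivity)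
  refine le_trans (Nat.cast_le.2 (Finset.card_le_card ?_)) hBadc
  intro m hm
  obtain ⟨hm1, hm2, hm3⟩ := Finset.mem_filter.1 hm
  rw [hBad, Finset.mem_filter, Finset.mem_filter]
  refine ⟨⟨hm1, hm2⟩, ?_⟩
  by_contra hcon
  rw [not_lt] at hcon
  have hSg := (one_le_Sg w m hw2 hm2).1
  have g1 : ∑ s ∈ IS R, (S s m) ^ 2 ≤ ∑ s ∈ IS R, (2 * (Pm s m - B s m) ^ 2 + 2 * (C₀ * Sg (primorial w) m * V) ^ 2) := by
    refine Finset.sum_le_sum fun s hs => ?_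
    obtain ⟨h1, h2, -⟩ := hBP s hs
    have h3 : S s m ≤ Pm s m := h1 m hm1
    obtain ⟨h4, h5⟩ := h2 m hm1 hm2
    have h6 : (S s m) ^ 2 ≤ (Pm s m) ^ 2 := pow_le_pow_left₀ (hS0 s m) h3 2
    have h7 : (B s m) ^ 2 ≤ (C₀ * Sg (primorial w) m * V) ^ 2 := pow_le_pow_left₀ h4 h5 2
    nlinarith [sq_nonneg (Pm s m - 2 * B s m)]
  have g2 : ∑ s ∈ IS R, (2 * (Pm s m - B s m) ^ 2 + 2 * (C₀ * Sg (primorial w) m * V) ^ 2) ≤
      n * (4 * (C₀ * Sg (primorial w) m * V) ^ 2) := by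
    rw [Finset.sum_add_distrib, ← Finset.mul_sum, Finset.sum_const, nsmul_eq_mul, ← hn]
    have h1 : V ^ 2 ≤ (C₀ * Sg (primorial w) m * V) ^ 2 := by
      apply pow_le_pow_left₀ hV0.le
      have h2 : 1 ≤ C₀ * Sg (primorial w) m := by nlinarith
      nlinarith
    have h2 : n * V ^ 2 ≤ n * (C₀ * Sg (primorial w) m * V) ^ 2 := mul_le_mul_of_nonneg_left h1 hn0
    nlinarith
  have g3 : n * (4 * (C₀ * Sg (primorial w) m * V) ^ 2) ≤
      4 * (C₀ ^ 2 * C₃) * (Sg (primorial w) m) ^ 2 * (R / Real.log R) * V ^ 2 := by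
    calc n * (4 * (C₀ * Sg (primorial w) m * V) ^ 2) ≤
        (C₃ * R / Real.log R) * (4 * (C₀ * Sg (primorial w) m * V) ^ 2) :=
          mul_le_mul_of_nonneg_right hIScard (by positivity)
      _ = _ := by ring
  have hm3' : 4 * (C₀ ^ 2 * C₃) * (Sg (primorial w) m) ^ 2 * (R / Real.log R) * V ^ 2 <
      ∑ s ∈ IS R, (S s m) ^ 2 := hm3
  linarith

end Pool.Agent.Lib.MP_bae66e_nt.AC
end
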