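import Pool.Agent.Lib.MP_bae66e_nt.Mg.G036
import Pool.Agent.Lib.MP_bae66e_nt.Mg.G017
import Pool.Agent.Lib.MP_bae66e_nt.Mg.G032
import Pool.Agent.Lib.MP_bae66e_nt.E3.A0a

section

/-!
# W1: long windows of the primes in a progression
-/

set_option autoImplicit false

namespace Pool.Agent.E3

open Finset Real Filter
open Pool.Agent.Lib.MP_bae66e_nt.AP3 (prI mem_prI)

theorem term_geJ (X q : ℕ) (x L : ℝ) (hX : 1 ≤ X) (hq : 1 ≤ q) (hL : 0 < L) (hL1 : L ≤ 1)
    (hx : |x - Real.log X| ≤ 2) (h : |x - Real.log q| ≤ L) :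
    Real.exp (-9) / q * (1 / L * Real.exp (-(1 / 2))) ≤ om X q / q * gsn L (x - Real.log q) := by
  have hX0 : (0 : ℝ) < X := by exact_mod_cast (by omega : 0 < X)
  have hq0 : (0 : ℝ) < q := by exact_mod_cast (by omega : 0 < q)
  have h3 := abs_le.mp hx
  have h4 := abs_le.mp h
  have h5 : (Real.log X - Real.log q) ^ 2 ≤ 9 := by
    have h6 : -3 ≤ Real.log X - Real.log q := by linarith [h3.1, h3.2, h4.1, h4.2]
    have h7 : Real.log X - Real.log q ≤ 3 := by linarith [h3.1, h3.2, h4.1, h4.2]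
    nlinarith
  have h8 : Real.exp (-9) ≤ om X q := by
    unfold om gs
    apply Real.exp_le_exp.mpr
    rw [one_mul]
    linarith
  have h9 : 1 / L * Real.exp (-(1 / 2)) ≤ gsn L (x - Real.log q) := by
    unfold gsn
    refine mul_le_mul_of_nonneg_left ?_ (by positivity)
    apply Real.exp_le_exp.mpr
    have h10 : (x - Real.log q) ^ 2 ≤ L ^ 2 := sq_le_sq' (abs_le.mp h).1 (abs_le.mp h).2
    have h11 : (x - Real.log q) ^ 2 / (2 * L ^ 2) ≤ 1 / 2 := by
      rw [div_le_div_iff₀ (by positivity) (by norm_num)]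
      linarith
    linarith
  refine mul_le_mul ?_ h9 (by positivity) ?_
  · exact div_le_div_of_nonneg_right h8 (by positivity)
  · exact div_nonneg ((Real.exp_pos _).le.trans h8) (by positivity)

/-- The long window of the primes `q ≡ b (mod W)` at `x`, `|x - log X| ≤ 2`. -/
theorem one_sJ (W : ℕ) (hW : 1 ≤ W) (L : ℝ) (hL : 0 < L) (hL1 : L ≤ 1) : ∃ X₀ : ℕ, ∀ X : ℕ, X₀ ≤ X →
    ∀ (x : ℝ) (b : ℤ), |x - Real.log X| ≤ 2 → IsCoprime b (W : ℤ) →
      Real.exp (-16) / ((Nat.totient W : ℝ) * Real.log X) ≤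
        ∑ q ∈ (QS X).filter (fun q : ℕ => (q : ℤ) ≡ b [ZMOD (W : ℤ)]),
          om X q / q * gsn L (x - Real.log q) := by
  obtain ⟨A₀, hA₀, hAP⟩ := primes_AP_interval W hW L hL hL1
  have hlim : Tendsto (fun X : ℕ => (X : ℝ) ^ (1 / 2 : ℝ)) atTop atTop :=
    (tendsto_rpow_atTop (by norm_num)).comp tendsto_natCast_atTop_atTop
  obtain ⟨X₁, hX₁⟩ := eventually_atTop.mp (hlim.eventually_ge_atTop (Real.exp 3 * A₀))
  refine ⟨max 27 X₁, fun X hX x b hx hb1 => ?_⟩
  have hX8 : 27 ≤ X := (le_max_left _ _).trans hX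
  have hXp := hX₁ X ((le_max_right _ _).trans hX)
  have hX8' : (27 : ℝ) ≤ X := by exact_mod_cast hX8
  have hX0 : (0 : ℝ) < X := by linarith
  have hx' := abs_le.mp hx
  have he1 := Real.exp_one_lt_d9
  have he2 : Real.exp 2 ≤ 8 := by
    have h2 : Real.exp 2 = Real.exp 1 * Real.exp 1 := by rw [← Real.exp_add]; norm_num
    rw [h2]
    nlinarith [Real.exp_pos 1]
  have he3 : Real.exp 3 ≤ 27 := by
    have h2 : Real.exp 3 = Real.exp 2 * Real.exp 1 := by rw [← Real.exp_add]; norm_num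
    rw [h2]
    nlinarith [Real.exp_pos 1, Real.exp_pos 2]
  have hlogX : 2 ≤ Real.log X := by
    rw [Real.le_log_iff_exp_le hX0]
    linarith
  -- the point A
  obtain ⟨A, hA⟩ : ∃ A : ℝ, A = Real.exp (x - L) := ⟨_, rfl⟩
  have hBs : Real.exp (2 * L) * A = Real.exp (x + L) := by
    rw [hA, ← Real.exp_add]
    congr 1
    ring
  have hexplow : (X : ℝ) * Real.exp (-3) ≤ A := by
    rw [hA]
    calc (X : ℝ) * Real.exp (-3) = Real.exp (Real.log X + -3) := by
          rw [Real.exp_add, Real.exp_log hX0]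
      _ ≤ _ := Real.exp_le_exp.mpr (by linarith [hx'.1])
  have hexpup : Real.exp (x + L) ≤ (X : ℝ) * Real.exp 3 := by
    calc Real.exp (x + L) ≤ Real.exp (Real.log X + 3) := Real.exp_le_exp.mpr (by linarith [hx'.2])
      _ = _ := by rw [Real.exp_add, Real.exp_log hX0]
  have hroot0 : (0 : ℝ) < (X : ℝ) ^ (1 / 2 : ℝ) := Real.rpow_pos_of_pos hX0 _
  have hXdec : (X : ℝ) = (X : ℝ) ^ (1 / 2 : ℝ) * (X : ℝ) ^ (1 / 2 : ℝ) := by
    rw [← Real.rpow_add hX0]
    norm_num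
  have hA1 : (X : ℝ) ^ (1 / 2 : ℝ) * A₀ ≤ A := by
    refine le_trans ?_ hexplow
    calc (X : ℝ) ^ (1 / 2 : ℝ) * A₀ = (X : ℝ) ^ (1 / 2 : ℝ) * (Real.exp 3 * A₀) * Real.exp (-3) := by
            rw [Real.exp_neg]
            field_simp
      _ ≤ (X : ℝ) ^ (1 / 2 : ℝ) * (X : ℝ) ^ (1 / 2 : ℝ) * Real.exp (-3) := by
            refine mul_le_mul_of_nonneg_right ?_ (Real.exp_pos _).le
            exact mul_le_mul_of_nonneg_left hXp (by positivity)
      _ = (X : ℝ) * Real.exp (-3) := by rw [← hXdec]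
  have hroot1 : (1 : ℝ) ≤ (X : ℝ) ^ (1 / 2 : ℝ) := Real.one_le_rpow (by linarith) (by norm_num)
  have hA2 : A₀ ≤ A := le_trans (by nlinarith) hA1
  have hA3 : (X : ℝ) ^ (1 / 2 : ℝ) ≤ A := le_trans (by nlinarith) hA1
  have hApos : 0 < A := by linarith
  have hlogA : 0 < Real.log A := Real.log_pos (by linarith)
  have hlogA2 : Real.log A ≤ 2 * Real.log X := by
    rw [hA, Real.log_exp]
    linarith [hx'.2]
  have hsqrt : Nat.sqrt X ≤ ⌊A⌋₊ := by
    apply Nat.le_floor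
    refine le_trans ?_ hA3
    rw [← Real.sqrt_eq_rpow]
    exact Real.nat_sqrt_le_real_sqrt
  have hup : ⌊Real.exp (2 * L) * A⌋₊ ≤ X ^ 2 := by
    have h1 : Real.exp (2 * L) * A ≤ ((X ^ 2 : ℕ) : ℝ) := by
      push_cast
      rw [hBs]
      refine hexpup.trans ?_
      nlinarith
    exact Nat.floor_le_of_le h1
  set T : Finset ℕ := (prI ⌊A⌋₊ ⌊Real.exp (2 * L) * A⌋₊).filter
    (fun q : ℕ => (q : ℤ) ≡ b [ZMOD (W : ℤ)]) with hT
  have hcard : L * A / ((Nat.totient W : ℝ) * Real.log A) ≤ (#T : ℝ) := hAP A hA2 b hb1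
  have hsub : T ⊆ (QS X).filter (fun q : ℕ => (q : ℤ) ≡ b [ZMOD (W : ℤ)]) := by
    intro q hq
    rw [hT, Finset.mem_filter] at hq
    have hq1 := mem_prI.mp hq.1
    rw [Finset.mem_filter]
    exact ⟨mem_prI.mpr ⟨⟨by omega, hq1.1.2.trans hup⟩, hq1.2⟩, hq.2⟩
  have hterm : ∀ q ∈ (QS X).filter (fun q : ℕ => (q : ℤ) ≡ b [ZMOD (W : ℤ)]),
      0 ≤ om X q / q * gsn L (x - Real.log q) := by
    intro q _
    unfold om gs gsn
    positivity
  have hφ : (0 : ℝ) < Nat.totient W := by exact_mod_cast Nat.totient_pos.mpr hW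
  calc Real.exp (-16) / ((Nat.totient W : ℝ) * Real.log X)
      ≤ (L * A / ((Nat.totient W : ℝ) * Real.log A)) *
        (Real.exp (-9) / (Real.exp 2 * A) * (1 / L * Real.exp (-(1 / 2)))) := by
        have e1 : (L * A / ((Nat.totient W : ℝ) * Real.log A)) *
            (Real.exp (-9) / (Real.exp 2 * A) * (1 / L * Real.exp (-(1 / 2)))) =
            Real.exp (-(23 / 2)) / ((Nat.totient W : ℝ) * Real.log A) := by
          have e2 : Real.exp (-(23 / 2)) = Real.exp (-9) * Real.exp (-(1 / 2)) / Real.exp 2 := by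
            rw [← Real.exp_add, ← Real.exp_sub]
            norm_num
          rw [e2]
          field_simp
        rw [e1, div_le_div_iff₀ (by positivity) (by positivity)]
        have h1 : Real.exp (-16) * 2 ≤ Real.exp (-(23 / 2)) := by
          have e3 : Real.exp (-(23 / 2)) = Real.exp (-16) * Real.exp (9 / 2) := by
            rw [← Real.exp_add]
            norm_num
          rw [e3]
          have h2 := Real.add_one_le_exp (9 / 2 : ℝ)
          exact mul_le_mul_of_nonneg_left (by linarith) (Real.exp_pos _).le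
        calc Real.exp (-16) * ((Nat.totient W : ℝ) * Real.log A)
            ≤ Real.exp (-16) * ((Nat.totient W : ℝ) * (2 * Real.log X)) := by
              refine mul_le_mul_of_nonneg_left ?_ (Real.exp_pos _).le
              exact mul_le_mul_of_nonneg_left hlogA2 hφ.le
          _ = (Real.exp (-16) * 2) * ((Nat.totient W : ℝ) * Real.log X) := by ring
          _ ≤ _ := mul_le_mul_of_nonneg_right h1 (by positivity)
    _ ≤ (#T : ℝ) * (Real.exp (-9) / (Real.exp 2 * A) * (1 / L * Real.exp (-(1 / 2)))) :=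
        mul_le_mul_of_nonneg_right hcard (by positivity)
    _ ≤ ∑ q ∈ T, om X q / q * gsn L (x - Real.log q) := by
        rw [← nsmul_eq_mul]
        refine Finset.card_nsmul_le_sum _ _ _ fun q hq => ?_
        rw [hT, Finset.mem_filter] at hq
        have hq1 := mem_prI.mp hq.1
        have hq0 : (0 : ℝ) < q := by exact_mod_cast hq1.2.pos
        have hqA : A < q := (Nat.floor_lt hApos.le).mp hq1.1.1
        have hqB : (q : ℝ) ≤ Real.exp (2 * L) * A :=
          (Nat.le_floor_iff (by positivity)).mp hq1.1.2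
        have hl1 : x - L ≤ Real.log q := by
          rw [Real.le_log_iff_exp_le (by positivity), ← hA]
          exact hqA.le
        have hl2 : Real.log q ≤ x + L := by
          rw [Real.log_le_iff_le_exp (by positivity), ← hBs]
          exact hqB
        have hab : |x - Real.log q| ≤ L := abs_le.mpr ⟨by linarith, by linarith⟩
        refine le_trans ?_ (term_geJ X q x L (by omega) hq1.2.one_lt.le hL hL1 hx hab)
        refine mul_le_mul_of_nonneg_right ?_ (by positivity)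
        refine div_le_div_of_nonneg_left (Real.exp_pos _).le (by positivity) ?_
        refine hqB.trans ?_
        exact mul_le_mul_of_nonneg_right (Real.exp_le_exp.mpr (by linarith)) hApos.le
    _ ≤ _ := Finset.sum_le_sum_of_subset_of_nonneg hsub fun q hq _ => hterm q hq

end Pool.Agent.E3
end

section

/-!
# W2: PAPJ
-/

set_option autoImplicit false

namespace Pool.Agent.E3

open Finset Real Filter
open Pool.Agent.Lib.MP_bae66e_nt.AP3 (prI mem_prI)

/-- `R = ⌊(log M)^a⌋` tends to infinity and is small against `M`. -/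
theorem RJ_basic (a B : ℝ) (ha : 3 ≤ a) : ∃ M₀ : ℕ, ∀ M : ℕ, M₀ ≤ M →
    27 ≤ M ∧ 3 ≤ Real.log M ∧ B ≤ Real.log M ∧ Real.log M ≤ RJ a M ∧ (RJ a M : ℝ) ≤ (Real.log M) ^ a ∧
      (Real.log M) ^ a / 2 ≤ RJ a M ∧ Real.log (RJ a M) ≤ Real.log M ∧ (1000 : ℝ) * (RJ a M : ℝ) ^ 3 ≤ M := by
  have h1 : ∀ᶠ x : ℝ in atTop, x ^ (3 * a) ≤ 1 / 1000 * Real.exp x := by
    have h := tendsto_rpow_mul_exp_neg_mul_atTop_nhds_zero (3 * a) 1 one_pos
    filter_upwards [h.eventually (gt_mem_nhds (by norm_num : (0 : ℝ) < 1 / 1000))] with x hx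
    have h2 : x ^ (3 * a) * Real.exp (-1 * x) * Real.exp x = x ^ (3 * a) := by
      rw [mul_assoc, ← Real.exp_add, show -1 * x + x = 0 by ring, Real.exp_zero, mul_one]
    have h3 := mul_le_mul_of_nonneg_right hx.le (Real.exp_pos x).le
    rw [h2] at h3
    exact h3
  have h2 : Tendsto (fun M : ℕ => Real.log (M : ℝ)) atTop atTop :=
    Real.tendsto_log_atTop.comp tendsto_natCast_atTop_atTop
  obtain ⟨M₀, hM₀⟩ := eventually_atTop.1 ((h2.eventually (h1.and ((eventually_ge_atTop 3).and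
    (eventually_ge_atTop B)))).and (eventually_ge_atTop 27))
  refine ⟨M₀, fun M hM => ?_⟩
  obtain ⟨⟨g1, g2, g3⟩, g4⟩ := hM₀ M hM
  set lam : ℝ := Real.log M with hlam
  have hM0 : (0 : ℝ) < M := by exact_mod_cast (by omega : 0 < M)
  have hMe : Real.exp lam = M := Real.exp_log hM0
  have hla : lam ^ (3 : ℝ) ≤ lam ^ a := Real.rpow_le_rpow_of_exponent_le (by linarith) ha
  have hl3 : lam ^ (3 : ℝ) = lam ^ 3 := by norm_cast
  have hl3' : 3 * lam ≤ lam ^ 3 := by nlinarith [mul_self_nonneg (lam - 3)]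
  have hla2 : 3 * lam ≤ lam ^ a := by
    rw [hl3] at hla
    exact hl3'.trans hla
  have hR1 : (RJ a M : ℝ) ≤ lam ^ a := Nat.floor_le (Real.rpow_nonneg (by linarith) _)
  have hR2 : lam ^ a - 1 < (RJ a M : ℝ) := by
    have := Nat.lt_floor_add_one (lam ^ a)
    unfold RJ
    rw [← hlam]
    linarith
  clear_value lam
  obtain ⟨A, hA⟩ : ∃ A : ℝ, A = lam ^ a := ⟨_, rfl⟩
  rw [← hA] at hla2 hR1 hR2 ⊢
  have hR3 : A / 2 ≤ (RJ a M : ℝ) := by linarith
  have hR4 : lam ≤ (RJ a M : ℝ) := by linarith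
  have hR0 : (0 : ℝ) < (RJ a M : ℝ) := by linarith
  have hcube : (1000 : ℝ) * (RJ a M : ℝ) ^ 3 ≤ M := by
    have e1 : A ^ 3 = lam ^ (3 * a) := by
      rw [hA, mul_comm, Real.rpow_mul (by linarith)]
      norm_cast
    have e2 : (RJ a M : ℝ) ^ 3 ≤ A ^ 3 := pow_le_pow_left₀ hR0.le hR1 3
    rw [e1] at e2
    rw [hMe] at g1
    linarith
  have hRM : (RJ a M : ℝ) ≤ M := by
    have e3 : (RJ a M : ℝ) ≤ (RJ a M : ℝ) ^ 3 := by nlinarith [mul_self_nonneg ((RJ a M : ℝ) - 1)]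
    have e4 : 0 < (RJ a M : ℝ) ^ 3 := by positivity
    linarith
  refine ⟨g4, g2, g3, hR4, hR1, hR3, ?_, hcube⟩
  rw [hlam]
  exact Real.log_le_log hR0 hRM

theorem papj : PAPJ := by
  refine ⟨Real.exp (-16) / 16, by positivity, ?_⟩
  intro a ha W hW L hL hL1
  obtain ⟨X₃, hone⟩ := one_sJ W hW L hL hL1
  obtain ⟨R₀, hR₀, hrec⟩ := recip_IS_ge
  obtain ⟨M₁, hM₁⟩ := RJ_basic a ((W : ℝ) + R₀) ha
  refine ⟨max M₁ X₃, fun M hM v hv x hx => ?_⟩
  obtain ⟨g1, g2, g3, g4, g5, g6, g7, g8⟩ := hM₁ M ((le_max_left _ _).trans hM)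
  have hMX : X₃ ≤ M := (le_max_right _ _).trans hM
  have hM0 : (0 : ℝ) < M := by exact_mod_cast (by omega : 0 < M)
  have hR0 : (0 : ℝ) < (RJ a M : ℝ) := by linarith
  have hR1 : 1 ≤ RJ a M := by
    have : (0 : ℝ) < (RJ a M : ℝ) := hR0
    exact_mod_cast this
  have hWR : W ≤ RJ a M := by
    have h1 : (0 : ℝ) ≤ R₀ := Nat.cast_nonneg _
    have : (W : ℝ) ≤ RJ a M := by linarith
    exact_mod_cast this
  have hRR : R₀ ≤ RJ a M := by
    have h1 : (0 : ℝ) ≤ W := Nat.cast_nonneg _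
    have : (R₀ : ℝ) ≤ RJ a M := by linarith
    exact_mod_cast this
  have hXM : X₃ ≤ XJ a M := by
    unfold XJ
    exact hMX.trans (Nat.le_mul_of_pos_right M hR1)
  have hXc : (XJ a M : ℝ) = M * RJ a M := by
    unfold XJ
    push_cast
    ring
  have hlogX : Real.log (XJ a M) = Real.log M + Real.log (RJ a M) := by
    rw [hXc, Real.log_mul hM0.ne' hR0.ne']
  have hlR : 0 < Real.log (RJ a M) := Real.log_pos (by linarith)
  have hlM : 0 < Real.log M := by linarith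
  have hlX0 : 0 < Real.log (XJ a M) := by linarith
  have hlX2 : Real.log (XJ a M) ≤ 2 * Real.log M := by linarith
  have hφ : (0 : ℝ) < (Nat.totient W : ℝ) := by
    exact_mod_cast Nat.totient_pos.mpr (by omega)
  have hx' := abs_le.mp hx
  have hterm : ∀ s ∈ IS (RJ a M), Real.exp (-16) / ((Nat.totient W : ℝ) * (2 * Real.log M)) * (1 / (s : ℝ)) ≤
      ∑ q ∈ (QS (XJ a M)).filter (fun q => q ≡ s * v [MOD W]),
        om (XJ a M) q / (s * q) * gsn L (x - Real.log ((q : ℝ) / s)) := by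
    intro s hs
    have hs1 := mem_prI.mp hs
    have hs0 : (0 : ℝ) < s := by exact_mod_cast hs1.2.pos
    have hsc : Nat.Coprime s W := (Nat.Prime.coprime_iff_not_dvd hs1.2).mpr fun hd => by
      have := Nat.le_of_dvd (by omega) hd
      omega
    have hsR : (RJ a M : ℝ) < s := by exact_mod_cast hs1.1.1
    have hsR2 : (s : ℝ) ≤ 2 * RJ a M := by exact_mod_cast hs1.1.2
    have hls1 : Real.log (RJ a M) ≤ Real.log s := Real.log_le_log hR0 hsR.le
    have hls2 : Real.log s ≤ Real.log 2 + Real.log (RJ a M) := by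
      rw [← Real.log_mul (by norm_num) hR0.ne']
      exact Real.log_le_log hs0 hsR2
    have hlog2 := Real.log_two_lt_d9
    have hxs : |x + Real.log s - Real.log (XJ a M)| ≤ 2 := by
      rw [hlogX, abs_le]
      constructor
      · linarith [hx'.1]
      · linarith [hx'.2]
    have hcop : IsCoprime ((s : ℤ) * v) (W : ℤ) :=
      (Nat.isCoprime_iff_coprime.mpr hsc).mul_left (Nat.isCoprime_iff_coprime.mpr hv)
    have h := hone (XJ a M) hXM (x + Real.log s) ((s : ℤ) * v) hxs hcop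
    have hfil : (QS (XJ a M)).filter (fun q => q ≡ s * v [MOD W]) =
        (QS (XJ a M)).filter (fun q : ℕ => (q : ℤ) ≡ (s : ℤ) * v [ZMOD (W : ℤ)]) := by
      refine Finset.filter_congr fun q _ => ?_
      rw [← Int.natCast_modEq_iff]
      push_cast
      rfl
    rw [hfil]
    calc Real.exp (-16) / ((Nat.totient W : ℝ) * (2 * Real.log M)) * (1 / (s : ℝ))
        ≤ Real.exp (-16) / ((Nat.totient W : ℝ) * Real.log (XJ a M)) * (1 / (s : ℝ)) := by
          refine mul_le_mul_of_nonneg_right ?_ (by positivity)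
          refine div_le_div_of_nonneg_left (Real.exp_pos _).le (by positivity) ?_
          exact mul_le_mul_of_nonneg_left hlX2 hφ.le
      _ ≤ (∑ q ∈ (QS (XJ a M)).filter (fun q : ℕ => (q : ℤ) ≡ (s : ℤ) * v [ZMOD (W : ℤ)]),
            om (XJ a M) q / q * gsn L (x + Real.log s - Real.log q)) * (1 / (s : ℝ)) :=
          mul_le_mul_of_nonneg_right h (by positivity)
      _ = _ := by
          rw [Finset.sum_mul]
          refine Finset.sum_congr rfl fun q hq => ?_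
          have hq1 := mem_prI.mp (Finset.mem_filter.mp hq).1
          have hq0 : (0 : ℝ) < q := by exact_mod_cast hq1.2.pos
          have e1 : x + Real.log s - Real.log q = x - Real.log ((q : ℝ) / s) := by
            rw [Real.log_div hq0.ne' hs0.ne']
            ring
          rw [e1]
          field_simp
  have hrec' := hrec (RJ a M) hRR
  have hA : 0 ≤ Real.exp (-16) / ((Nat.totient W : ℝ) * (2 * Real.log M)) := by positivity
  unfold WJ
  calc Real.exp (-16) / 16 / (Real.log (RJ a M) * Real.log M) / Nat.totient W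
      = Real.exp (-16) / ((Nat.totient W : ℝ) * (2 * Real.log M)) * (1 / (8 * Real.log (RJ a M))) := by
        field_simp
        norm_num
    _ ≤ Real.exp (-16) / ((Nat.totient W : ℝ) * (2 * Real.log M)) * ∑ s ∈ IS (RJ a M), 1 / (s : ℝ) :=
        mul_le_mul_of_nonneg_left hrec' hA
    _ = ∑ s ∈ IS (RJ a M), Real.exp (-16) / ((Nat.totient W : ℝ) * (2 * Real.log M)) * (1 / (s : ℝ)) := by
        rw [Finset.mul_sum]
    _ ≤ _ := Finset.sum_le_sum hterm

end Pool.Agent.E3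
end

section

/-!
# Row A: the parameters
-/

set_option autoImplicit false

namespace Pool.Agent.Lib.MP_bae66e_nt.EF

open Finset MeasureTheory Real
open Pool.Agent.E3
open Pool.Agent.Lib.MP_bae66e_nt.E2 (YR FR PH)
open Pool.Agent.Lib.MP_bae66e_nt.LL (fP gW)
open Pool.Agent.Lib.MP_bae66e_nt.AC (Sg VV)
open Pool.Agent.Lib.MP_bae66e_nt.AP3 (prI mem_prI)

/-- `X^(1/4) ≤ ⌊√X⌋`. -/
theorem A_quart (X : ℕ) (hX : 16 ≤ X) : (X : ℝ) ^ (1 / 4 : ℝ) ≤ Nat.sqrt X := by
  have hX0 : (0 : ℝ) < X := by exact_mod_cast (by omega : 0 < X)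
  set y : ℝ := (X : ℝ) ^ (1 / 4 : ℝ) with hy
  have hy0 : 0 ≤ y := Real.rpow_nonneg hX0.le _
  have hy4 : y ^ 4 = X := by
    rw [hy, ← Real.rpow_natCast, ← Real.rpow_mul hX0.le]
    norm_num
  have hX16 : (16 : ℝ) ≤ X := by exact_mod_cast hX
  have hy2 : 2 ≤ y := by
    by_contra hcon
    push Not at hcon
    have : y ^ 4 < 2 ^ 4 := pow_lt_pow_left₀ hcon hy0 (by norm_num)
    rw [hy4] at this
    linarith
  have h1 : (X : ℝ) < ((Nat.sqrt X : ℝ) + 1) ^ 2 := by
    have h2 := Nat.lt_succ_sqrt' X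
    exact_mod_cast h2
  have h3 : y ^ 2 < (Nat.sqrt X : ℝ) + 1 := by
    by_contra hcon
    push Not at hcon
    have h4 : (0 : ℝ) ≤ (Nat.sqrt X : ℝ) + 1 := by positivity
    have h5 : ((Nat.sqrt X : ℝ) + 1) ^ 2 ≤ (y ^ 2) ^ 2 := pow_le_pow_left₀ h4 hcon 2
    have h6 : (y ^ 2) ^ 2 = X := by rw [← hy4]; ring
    linarith
  nlinarith

theorem A_u2 {u : ℝ} (h : 3 ≤ u) : 9 ≤ u ^ 2 := by nlinarith

theorem A_u4 {u : ℝ} (h : 3 ≤ u) : 81 ≤ u ^ 4 := by
  have h2 := A_u2 h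
  have h4 : u ^ 4 = u ^ 2 * u ^ 2 := by ring
  rw [h4]
  nlinarith

theorem A_u8 {u : ℝ} (h : 3 ≤ u) : 192 * u ^ 2 ≤ u ^ 8 := by
  have h2 := A_u2 h
  have h4 := A_u4 h
  have h6 : 192 ≤ u ^ 2 * u ^ 4 := by nlinarith
  have h8 : u ^ 8 = u ^ 2 * u ^ 4 * u ^ 2 := by ring
  rw [h8]
  exact mul_le_mul_of_nonneg_right h6 (by positivity)

theorem A_u5 {u : ℝ} (h : 3 ≤ u) : u ≤ u ^ 5 := by
  have h4 := A_u4 h
  have h5 : u ^ 5 = u * u ^ 4 := by ring
  rw [h5]
  nlinarith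

theorem A_sq {x y : ℝ} (hx : 0 ≤ x) (h : x ≤ 3 * y) : x ^ 2 ≤ 9 * y ^ 2 := by
  have h1 : x ^ 2 ≤ (3 * y) ^ 2 := pow_le_pow_left₀ hx h 2
  calc x ^ 2 ≤ (3 * y) ^ 2 := h1
    _ = 9 * y ^ 2 := by ring

/-- The parameters. PROOF. As `par_V` (E2/V3) and `par_E` (E2/W3) with a general `R` (`PX a R X`): for large `L = log X`: `R ≥ L^(5/2) ≥ max (L²) K`, `R ≤ L^(a+1/2)`, `H = 2R²`;
`pow_compare` (E3/A0a) for the powers of `X`; `H FR = 2R²/(log R L) ≥ R ≥ K (1 + (log H)²)`. -/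
theorem parA (a K κ : ℝ) (ha : 3 ≤ a) (hκ : 0 < κ) : ∃ X₀ : ℕ, ∀ X : ℕ, X₀ ≤ X → ∀ R : ℕ, PX a R X →
    64 ≤ X ∧ K ≤ Real.log X ∧ 4 ≤ Real.log X ∧ (Real.log X) ^ 2 ≤ R ∧ K ≤ R ∧ 3 ≤ R ∧ Real.log R ≤ Real.log X ∧
      K ≤ Real.log R ∧ 1 ≤ Real.log R ∧
      2 * R ≤ Nat.sqrt X ∧ (1000 : ℝ) * (R : ℝ) ^ 3 ≤ X ∧ K * (HR R : ℝ) ^ 2 ≤ X ∧ 100 * HR R ≤ X ∧
      ((2 * R : ℕ) : ℝ) ≤ (Nat.sqrt X : ℝ) ^ κ ∧
      (X : ℝ) ^ (0.99 : ℝ) ≤ YR R X ∧ YR R X ≤ X ∧ 0 < FR R X ∧ PH R X ∧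
      Real.log (HR R) * Real.log R ≤ R ∧ K * (1 + (Real.log (HR R)) ^ 2) ≤ HR R * FR R X := by
  obtain ⟨X₂, hp2⟩ := pow_compare (3 * (a + 1 / 2)) 0 1000 1 one_pos
  obtain ⟨X₃, hp3⟩ := pow_compare (a + 1 / 2) 0 1 (1 / 100) (by norm_num)
  obtain ⟨X₄, hp4⟩ := pow_compare (a + 1 / 2) 0 2 (κ / 4) (by positivity)
  obtain ⟨X₅, hp5⟩ := pow_compare (4 * (a + 1 / 2)) 0 (4 * |K|) 1 one_pos
  obtain ⟨X₁, hX₁⟩ := Filter.eventually_atTop.mp
    ((Real.tendsto_log_atTop.comp tendsto_natCast_atTop_atTop).eventually_ge_atTop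
      ((2560 * |K| + 3) ^ 8 + |K| + Real.exp |K| + 4))
  refine ⟨max (max (max X₁ 64) X₂) (max X₃ (max X₄ X₅)), fun X hX R hPX => ?_⟩
  have hXa : max (max X₁ 64) X₂ ≤ X := (le_max_left _ _).trans hX
  have hXb : max X₃ (max X₄ X₅) ≤ X := (le_max_right _ _).trans hX
  have q1 : (2560 * |K| + 3) ^ 8 + |K| + Real.exp |K| + 4 ≤ Real.log X :=
    hX₁ X ((le_max_left _ _).trans ((le_max_left _ _).trans hXa))
  have hX64 : 64 ≤ X := (le_max_right _ _).trans ((le_max_left _ _).trans hXa)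
  have q2 := (hp2 X ((le_max_right _ _).trans hXa)).2
  have q3 := (hp3 X ((le_max_left _ _).trans hXb)).2
  have q4 := (hp4 X ((le_max_left _ _).trans ((le_max_right _ _).trans hXb))).2
  have q5 := (hp5 X ((le_max_right _ _).trans ((le_max_right _ _).trans hXb))).2
  rw [Real.rpow_zero, mul_one] at q2 q3 q4 q5
  rw [Real.rpow_one] at q2 q5
  obtain ⟨hlo, hup⟩ := hPX
  have hX0 : (0 : ℝ) < X := by exact_mod_cast (by omega : 0 < X)
  have hX1 : (1 : ℝ) ≤ X := by exact_mod_cast (by omega : 1 ≤ X)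
  have hK0 := abs_nonneg K
  have hK1 := le_abs_self K
  have hB0 : (0 : ℝ) ≤ (2560 * |K| + 3) ^ 8 := by positivity
  have hE0 : 0 < Real.exp |K| := Real.exp_pos _
  have hL4 : 4 ≤ Real.log X := by linarith
  have hL1 : 1 ≤ Real.log X := by linarith
  have hL0 : 0 < Real.log X := by linarith
  have hKL : K ≤ Real.log X := by linarith
  -- lower bounds for `R`
  have hR2 : (Real.log X) ^ 2 ≤ (R : ℝ) := by
    refine le_trans ?_ hlo
    rw [← Real.rpow_natCast]
    exact Real.rpow_le_rpow_of_exponent_le hL1 (by push_cast; linarith)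
  have hLR : Real.log X ≤ (R : ℝ) := by
    have e0 : Real.log X * 1 ≤ Real.log X * Real.log X := mul_le_mul_of_nonneg_left hL1 hL0.le
    have e1 : (Real.log X) ^ 2 = Real.log X * Real.log X := sq _
    linarith
  set r : ℝ := (R : ℝ) with hr
  have hr4 : 4 ≤ r := by linarith
  have hr0 : 0 < r := by linarith
  have hKr : K ≤ r := by linarith
  have hR3 : 3 ≤ R := by
    have h1 : (3 : ℝ) ≤ (R : ℝ) := by rw [← hr]; linarith
    exact_mod_cast h1
  -- powers of `R`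
  have hr3 : r ^ 3 ≤ (Real.log X) ^ (3 * (a + 1 / 2)) := by
    calc r ^ 3 ≤ ((Real.log X) ^ (a + 1 / 2)) ^ 3 := pow_le_pow_left₀ hr0.le hup 3
      _ = (Real.log X) ^ (3 * (a + 1 / 2)) := by
          rw [← Real.rpow_natCast, ← Real.rpow_mul hL0.le]
          congr 1
          push_cast
          ring
  have hr4' : r ^ 4 ≤ (Real.log X) ^ (4 * (a + 1 / 2)) := by
    calc r ^ 4 ≤ ((Real.log X) ^ (a + 1 / 2)) ^ 4 := pow_le_pow_left₀ hr0.le hup 4
      _ = (Real.log X) ^ (4 * (a + 1 / 2)) := by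
          rw [← Real.rpow_natCast, ← Real.rpow_mul hL0.le]
          congr 1
          push_cast
          ring
  have h1000 : 1000 * r ^ 3 ≤ X := by linarith
  have hr1 : (1 : ℝ) ≤ r := by linarith
  have hr13 : r ≤ r ^ 3 := by
    calc r = r ^ 1 := (pow_one r).symm
      _ ≤ r ^ 3 := pow_le_pow_right₀ hr1 (by norm_num)
  have hr23 : r ^ 2 ≤ r ^ 3 := pow_le_pow_right₀ hr1 (by norm_num)
  have hrX : r ≤ X := by linarith
  have hlr0 : 0 < Real.log r := Real.log_pos (by linarith)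
  have hlrX : Real.log r ≤ Real.log X := Real.log_le_log hr0 hrX
  have hKlr : K ≤ Real.log r := by
    refine hK1.trans ?_
    rw [Real.le_log_iff_exp_le hr0]
    linarith
  have hl1 : 1 ≤ Real.log r := by
    rw [Real.le_log_iff_exp_le hr0]
    have := Real.exp_one_lt_d9
    linarith
  have hHc : (HR R : ℝ) = 2 * r ^ 2 := by
    unfold HR
    push_cast
    ring
  have hFRd : FR R X = 1 / (Real.log r * Real.log X) := rfl
  have hYRd : YR R X = (X : ℝ) / r := rfl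
  have hYlow : (X : ℝ) ^ (0.99 : ℝ) ≤ YR R X := by
    rw [hYRd, le_div_iff₀ hr0]
    have e1 : (X : ℝ) ^ (0.99 : ℝ) * (X : ℝ) ^ (1 / 100 : ℝ) = X := by
      rw [← Real.rpow_add hX0]
      norm_num
    calc (X : ℝ) ^ (0.99 : ℝ) * r ≤ (X : ℝ) ^ (0.99 : ℝ) * (X : ℝ) ^ (1 / 100 : ℝ) :=
          mul_le_mul_of_nonneg_left (by linarith) (Real.rpow_nonneg hX0.le _)
      _ = X := e1
  -- the eighth root
  obtain ⟨u, hu0, hu8⟩ : ∃ u : ℝ, 0 ≤ u ∧ u ^ 8 = r := by
    refine ⟨r ^ (1 / 8 : ℝ), Real.rpow_nonneg hr0.le _, ?_⟩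
    rw [← Real.rpow_natCast, ← Real.rpow_mul hr0.le]
    norm_num
  have huB : 2560 * |K| + 3 ≤ u := by
    by_contra hcon
    push Not at hcon
    have h5 : u ^ 8 < (2560 * |K| + 3) ^ 8 := pow_lt_pow_left₀ hcon hu0 (by norm_num)
    rw [hu8] at h5
    linarith
  have hu3 : 3 ≤ u := by linarith
  have hupos : 0 < u := by linarith
  have hlr : Real.log r ≤ 8 * u := by
    rw [← hu8, Real.log_pow]
    have := Real.log_le_sub_one_of_pos hupos
    push_cast
    linarith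
  have hlH : Real.log (HR R) ≤ 3 * Real.log r := by
    rw [hHc, Real.log_mul (by norm_num) (by positivity), Real.log_pow]
    have h2 : Real.log 2 ≤ Real.log r := Real.log_le_log (by norm_num) (by linarith)
    push_cast
    linarith
  have hlH0 : 0 ≤ Real.log (HR R) := Real.log_natCast_nonneg _
  refine ⟨hX64, hKL, hL4, hR2, hKr, hR3, hlrX, hKlr, hl1, ?_, h1000, ?_, ?_, ?_, hYlow, ?_, ?_,
    ⟨by omega, by omega, hYlow⟩, ?_, ?_⟩
  · rw [Nat.le_sqrt']
    have e1 : (((2 * R) ^ 2 : ℕ) : ℝ) ≤ (X : ℝ) := by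
      push_cast
      rw [← hr]
      have e2 : (2 * r) ^ 2 = 4 * r ^ 2 := by ring
      linarith
    exact_mod_cast e1
  · rw [hHc]
    have e1 : K * (2 * r ^ 2) ^ 2 = 4 * K * r ^ 4 := by ring
    rw [e1]
    have e2 : 4 * K * r ^ 4 ≤ 4 * |K| * r ^ 4 := mul_le_mul_of_nonneg_right (by linarith) (by positivity)
    have e3 : 4 * |K| * r ^ 4 ≤ 4 * |K| * (Real.log X) ^ (4 * (a + 1 / 2)) := mul_le_mul_of_nonneg_left hr4' (by positivity)
    linarith
  · have e1 : ((100 * HR R : ℕ) : ℝ) ≤ (X : ℝ) := by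
      push_cast
      rw [hHc]
      linarith
    exact_mod_cast e1
  · push_cast
    have e1 : (X : ℝ) ^ (κ / 4) = ((X : ℝ) ^ (1 / 4 : ℝ)) ^ κ := by
      rw [← Real.rpow_mul hX0.le]
      congr 1
      ring
    rw [← hr]
    calc 2 * r ≤ (X : ℝ) ^ (κ / 4) := by linarith
      _ = ((X : ℝ) ^ (1 / 4 : ℝ)) ^ κ := e1
      _ ≤ _ := Real.rpow_le_rpow (Real.rpow_nonneg hX0.le _) (A_quart X (by omega)) hκ.le
  · rw [hYRd]
    exact div_le_self hX0.le (by linarith)
  · rw [hFRd]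
    positivity
  · calc Real.log (HR R) * Real.log r ≤ (3 * Real.log r) * Real.log r :=
          mul_le_mul_of_nonneg_right hlH (by linarith)
      _ ≤ (3 * (8 * u)) * (8 * u) := by
          apply mul_le_mul (by linarith) hlr (by linarith) (by positivity)
      _ = 192 * u ^ 2 := by ring
      _ ≤ u ^ 8 := A_u8 hu3
      _ = r := hu8
  · rw [hFRd]
    have e1 : (Real.log (HR R)) ^ 2 ≤ 9 * (Real.log r) ^ 2 := A_sq hlH0 hlH
    have e2 : 1 ≤ (Real.log r) ^ 2 := one_le_pow₀ hl1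
    have e3 : K * (1 + (Real.log (HR R)) ^ 2) ≤ |K| * (10 * (Real.log r) ^ 2) := by
      calc K * (1 + (Real.log (HR R)) ^ 2) ≤ |K| * (1 + (Real.log (HR R)) ^ 2) :=
            mul_le_mul_of_nonneg_right hK1 (by positivity)
        _ ≤ |K| * (10 * (Real.log r) ^ 2) := mul_le_mul_of_nonneg_left (by linarith) hK0
    refine e3.trans ?_
    rw [hHc]
    have e4 : 2 * r ^ 2 * (1 / (Real.log r * r)) ≤ 2 * r ^ 2 * (1 / (Real.log r * Real.log X)) := by
      apply mul_le_mul_of_nonneg_left _ (by positivity)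
      apply one_div_le_one_div_of_le (by positivity)
      apply mul_le_mul_of_nonneg_left _ (by linarith)
      linarith
    refine le_trans ?_ e4
    have e5 : 2 * r ^ 2 * (1 / (Real.log r * r)) = 2 * r / Real.log r := by
      field_simp
    rw [e5, le_div_iff₀ (by linarith)]
    have e6 : (Real.log r) ^ 3 ≤ (8 * u) ^ 3 := pow_le_pow_left₀ (by linarith) hlr 3
    calc |K| * (10 * (Real.log r) ^ 2) * Real.log r = 10 * |K| * (Real.log r) ^ 3 := by ring
      _ ≤ 10 * |K| * (8 * u) ^ 3 := mul_le_mul_of_nonneg_left e6 (by positivity)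
      _ = 2 * (u ^ 3 * (2560 * |K|)) := by ring
      _ ≤ 2 * (u ^ 3 * u ^ 5) := by
          have e8 : u ≤ u ^ 5 := A_u5 hu3
          have e7 : 2560 * |K| ≤ u ^ 5 := by linarith
          have e9 : 0 ≤ u ^ 3 := by positivity
          have e10 := mul_le_mul_of_nonneg_left e7 e9
          linarith
      _ = 2 * r := by rw [← hu8]; ring

end Pool.Agent.Lib.MP_bae66e_nt.EF
end
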