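import Pool.Agent.Lib.MP_bae66e_nt.Mg.G079

section

/-!
# B3: Cauchy's inequality for one block
-/

set_option autoImplicit false

namespace Pool.Agent.PP

open Finset MeasureTheory Real
open Pool.Agent.MC (ee expSum frac frac' arcSum fareySet)
open Pool.Agent.Lib.MP_bae66e_nt.AP3 (Rough rset dset prI KT flEta FLP cset Om0 xb prm)

open Classical in
/-- PROOF. Exchange: the sum is `∑_{m ∈ Icc 2 (y/M), Rough M m} S_m` with `S_m = ∑_{p ∈ prI M (2M), p m ≤ y} ee (p m α)`
(`p > M`, `m ≤ y/p` implies `m ≤ y/M`). Cauchy: `‖∑_m S_m‖² ≤ #{m} ∑_m ‖S_m‖² ≤ #{m} ∑_{m ∈ Icc 1 (y/M), Rough z m} ‖S_m‖²` (`Rough M → Rough z`,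
all terms `≥ 0`), and expanding `‖S_m‖²` (`MC.norm_sq_sum_eq`) `∑_m ‖S_m‖² = ∑_{p,p'} ∑_{m rough z, m ≤ y/p, m ≤ y/p'} ee (m (p - p') α)`;
`min (y/p) (y/p') = y / max p p'`. Triangle inequality. -/
lemma block_cauchy (y M z : ℕ) (hM : 1 ≤ M) (hzM : z ≤ M) (α : ℝ) :
    ‖∑ p ∈ prI M (2 * M), ∑ m ∈ (Icc 2 (y / p)).filter (fun m => Rough M m),
        ee (((p * m : ℕ) : ℝ) * α)‖ ^ 2
      ≤ (#((Icc 2 (y / M)).filter (fun m => Rough M m)) : ℝ)
        * ∑ p ∈ prI M (2 * M), ∑ p' ∈ prI M (2 * M),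
          ‖∑ m ∈ (Icc 1 (y / max p p')).filter (fun m => Rough z m),
            ee ((m : ℝ) * (((p : ℝ) - p') * α))‖ := by
  set P := prI M (2 * M) with hP
  have hPpos : ∀ p ∈ P, M < p ∧ 0 < p := by
    intro p hp
    have := Pool.Agent.Lib.MP_bae66e_nt.AP3.mem_prI.mp hp
    exact ⟨this.1.1, this.2.pos⟩
  -- exchange of the summations
  have hex : ∑ p ∈ P, ∑ m ∈ (Icc 2 (y / p)).filter (fun m => Rough M m), ee (((p * m : ℕ) : ℝ) * α)
      = ∑ m ∈ (Icc 2 (y / M)).filter (fun m => Rough M m),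
          ∑ p ∈ P.filter (fun p => p * m ≤ y), ee (((p * m : ℕ) : ℝ) * α) := by
    apply Finset.sum_comm'
    intro p m
    rw [Finset.mem_filter, Finset.mem_filter, Finset.mem_filter, Finset.mem_Icc, Finset.mem_Icc]
    constructor
    · rintro ⟨h1, ⟨h2, h3⟩, h4⟩
      have h5 := hPpos p h1
      have h6 := (Nat.le_div_iff_mul_le h5.2).mp h3
      refine ⟨⟨h1, by rw [mul_comm]; exact h6⟩, ⟨h2, ?_⟩, h4⟩
      exact h3.trans (Nat.div_le_div_left h5.1.le hM)
    · rintro ⟨⟨h1, h2⟩, ⟨h3, h4⟩, h5⟩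
      have h6 := hPpos p h1
      refine ⟨h1, ⟨h3, ?_⟩, h5⟩
      rw [Nat.le_div_iff_mul_le h6.2, mul_comm]
      exact h2
  rw [hex]
  set S : ℕ → ℂ := fun m => ∑ p ∈ P.filter (fun p => p * m ≤ y), ee (((p * m : ℕ) : ℝ) * α) with hS
  have hcs : ‖∑ m ∈ (Icc 2 (y / M)).filter (fun m => Rough M m), S m‖ ^ 2
      ≤ (#((Icc 2 (y / M)).filter (fun m => Rough M m)) : ℝ)
        * ∑ m ∈ (Icc 2 (y / M)).filter (fun m => Rough M m), ‖S m‖ ^ 2 := by
    have h1 : ‖∑ m ∈ (Icc 2 (y / M)).filter (fun m => Rough M m), S m‖ ^ 2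
        ≤ (∑ m ∈ (Icc 2 (y / M)).filter (fun m => Rough M m), ‖S m‖) ^ 2 :=
      pow_le_pow_left₀ (norm_nonneg _) (norm_sum_le _ _) 2
    exact h1.trans (sq_sum_le_card_mul_sum_sq)
  refine hcs.trans ?_
  apply mul_le_mul_of_nonneg_left _ (Nat.cast_nonneg _)
  have hsub : (Icc 2 (y / M)).filter (fun m => Rough M m) ⊆ (Icc 1 (y / M)).filter (fun m => Rough z m) := by
    intro m hm
    rw [Finset.mem_filter, Finset.mem_Icc] at hm ⊢
    refine ⟨⟨by omega, hm.1.2⟩, fun q hq hqm => ?_⟩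
    exact lt_of_le_of_lt hzM (hm.2 q hq hqm)
  refine (Finset.sum_le_sum_of_subset_of_nonneg hsub (fun m _ _ => sq_nonneg _)).trans ?_
  -- expansion of the square
  have hexp : ((∑ m ∈ (Icc 1 (y / M)).filter (fun m => Rough z m), ‖S m‖ ^ 2 : ℝ) : ℂ)
      = ∑ p ∈ P, ∑ p' ∈ P, ∑ m ∈ (Icc 1 (y / max p p')).filter (fun m => Rough z m),
          ee ((m : ℝ) * (((p : ℝ) - p') * α)) := by
    rw [Complex.ofReal_sum]
    have h1 : ∀ m ∈ (Icc 1 (y / M)).filter (fun m => Rough z m), ((‖S m‖ ^ 2 : ℝ) : ℂ)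
        = ∑ p ∈ P, ∑ p' ∈ P, if p * m ≤ y ∧ p' * m ≤ y then ee ((m : ℝ) * (((p : ℝ) - p') * α)) else 0 := by
      intro m _
      rw [hS]
      simp only
      rw [Pool.Agent.MC.norm_sq_sum_eq, Finset.sum_filter]
      apply Finset.sum_congr rfl
      intro p _
      split_ifs with hp
      · rw [Finset.sum_filter]
        apply Finset.sum_congr rfl
        intro p' _
        by_cases hp' : p' * m ≤ y
        · rw [if_pos hp', if_pos ⟨hp, hp'⟩, Pool.Agent.MC.conj_ee, ← Pool.Agent.MC.ee_add]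
          congr 1
          push_cast
          ring
        · rw [if_neg hp', if_neg (fun h => hp' h.2)]
      · symm
        apply Finset.sum_eq_zero
        intro p' _
        rw [if_neg (fun h => hp h.1)]
    rw [Finset.sum_congr rfl h1, Finset.sum_comm]
    apply Finset.sum_congr rfl
    intro p hp
    rw [Finset.sum_comm]
    apply Finset.sum_congr rfl
    intro p' hp'
    rw [← Finset.sum_filter]
    apply Finset.sum_congr _ (fun _ _ => rfl)
    ext m
    rw [Finset.mem_filter, Finset.mem_filter, Finset.mem_filter, Finset.mem_Icc, Finset.mem_Icc]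
    have h5 := hPpos p hp
    have h5' := hPpos p' hp'
    constructor
    · rintro ⟨⟨⟨h2, h3⟩, h4⟩, h6, h7⟩
      refine ⟨⟨h2, ?_⟩, h4⟩
      rw [Nat.le_div_iff_mul_le (lt_max_of_lt_left h5.2)]
      rcases max_choice p p' with h | h
      · rw [h, mul_comm]; exact h6
      · rw [h, mul_comm]; exact h7
    · rintro ⟨⟨h2, h3⟩, h4⟩
      rw [Nat.le_div_iff_mul_le (lt_max_of_lt_left h5.2)] at h3
      have h6 : p * m ≤ y := by
        rw [mul_comm]
        exact (Nat.mul_le_mul_left m (le_max_left p p')).trans h3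
      have h7 : p' * m ≤ y := by
        rw [mul_comm]
        exact (Nat.mul_le_mul_left m (le_max_right p p')).trans h3
      refine ⟨⟨⟨h2, ?_⟩, h4⟩, h6, h7⟩
      rw [Nat.le_div_iff_mul_le hM, mul_comm]
      exact (Nat.mul_le_mul_right m h5.1.le).trans h6
  have hnn : 0 ≤ ∑ m ∈ (Icc 1 (y / M)).filter (fun m => Rough z m), ‖S m‖ ^ 2 :=
    Finset.sum_nonneg (fun _ _ => sq_nonneg _)
  have hnorm : ∑ m ∈ (Icc 1 (y / M)).filter (fun m => Rough z m), ‖S m‖ ^ 2
      = ‖((∑ m ∈ (Icc 1 (y / M)).filter (fun m => Rough z m), ‖S m‖ ^ 2 : ℝ) : ℂ)‖ := by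
    rw [Complex.norm_real, Real.norm_of_nonneg hnn]
  rw [hnorm, hexp]
  refine (norm_sum_le _ _).trans ?_
  apply Finset.sum_le_sum
  intro p _
  exact norm_sum_le _ _

end Pool.Agent.PP
end

section

/-!
# B4a: pairs of primes of a block
-/

set_option autoImplicit false

namespace Pool.Agent.PP

open Finset MeasureTheory Real
open Pool.Agent.MC (ee expSum frac frac' arcSum fareySet)
open Pool.Agent.Lib.MP_bae66e_nt.AP3 (Rough rset dset prI KT flEta FLP cset Om0 xb prm)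

private lemma B4a_div_totient_le (n : ℕ) (hn : 0 < n) :
    (n : ℝ) / Nat.totient n ≤ (#n.divisors : ℝ) := by
  have hφ : (0 : ℝ) < Nat.totient n := by exact_mod_cast Nat.totient_pos.mpr hn
  rw [div_le_iff₀ hφ]
  have h1 := Nat.totient_mul_prod_primeFactors n
  have h2 : ∏ p ∈ n.primeFactors, p ≤ ∏ p ∈ n.primeFactors, (2 * (p - 1)) := by
    refine Finset.prod_le_prod' fun p hp => ?_
    have := (Nat.prime_of_mem_primeFactors hp).two_le
    omega
  rw [Finset.prod_mul_distrib, Finset.prod_const] at h2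
  have h3 : 2 ^ #n.primeFactors ≤ #n.divisors := by
    rw [Nat.card_divisors hn.ne', ← Finset.prod_const]
    refine Finset.prod_le_prod' fun p hp => ?_
    have h4 : 1 ≤ n.factorization p := by
      have hp' := Nat.prime_of_mem_primeFactors hp
      exact hp'.factorization_pos_of_dvd hn.ne' (Nat.dvd_of_mem_primeFactors hp)
    omega
  have h4 : 0 < ∏ p ∈ n.primeFactors, (p - 1) := by
    refine Finset.prod_pos fun p hp => ?_
    have := (Nat.prime_of_mem_primeFactors hp).two_le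
    omega
  have h5 : n * ∏ p ∈ n.primeFactors, (p - 1) ≤
      (#n.divisors * n.totient) * ∏ p ∈ n.primeFactors, (p - 1) := by
    rw [← h1]
    calc n.totient * ∏ p ∈ n.primeFactors, p
        ≤ n.totient * (2 ^ #n.primeFactors * ∏ p ∈ n.primeFactors, (p - 1)) :=
          Nat.mul_le_mul_left _ h2
      _ ≤ n.totient * (#n.divisors * ∏ p ∈ n.primeFactors, (p - 1)) :=
          Nat.mul_le_mul_left _ (Nat.mul_le_mul_right _ h3)
      _ = (#n.divisors * n.totient) * ∏ p ∈ n.primeFactors, (p - 1) := by ring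
  have h6 : n ≤ #n.divisors * n.totient := Nat.le_of_mul_le_mul_right h5 h4
  exact_mod_cast h6

/-- PROOF. `n/φ(n) = ∑_{e ∣ n} μ(e)²/φ(e) ≤ d(n)` (`MC.sum_moebius_sq_div_totient`, file `Lib/MP_9cfc0a_nt/TotientLemmas.lean`, or
`∏ (1 + 1/(p-1)) ≤ 2^{ω(n)} ≤ d(n)`). So `1/(φ(g) φ(q/g)) ≤ d(g) d(q/g)/q ≤ d(q)²/q`, the sum is `≤ d(q)³/q`, and
`d(q) ≤ C q^(1/6)` (`MP_d807e3_co.divisor_bound`). -/
lemma tot_conv : ∃ C : ℝ, 0 < C ∧ ∀ q : ℕ, 1 ≤ q →
    ∑ g ∈ q.divisors, 1 / ((Nat.totient g : ℝ) * Nat.totient (q / g)) ≤ C / Real.sqrt q := by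
  obtain ⟨C, hC, hd⟩ := Pool.Agent.MP_d807e3_co.divisor_bound (ε := 1 / 6) (by norm_num)
  refine ⟨C ^ 3, by positivity, fun q hq => ?_⟩
  have hqpos : (0 : ℝ) < q := by exact_mod_cast hq
  have hterm : ∀ g ∈ q.divisors, 1 / ((Nat.totient g : ℝ) * Nat.totient (q / g)) ≤
      (#q.divisors : ℝ) ^ 2 / q := by
    intro g hg
    have hgq := Nat.dvd_of_mem_divisors hg
    have hg0 : 0 < g := Nat.pos_of_mem_divisors hg
    have hqg : 0 < q / g := Nat.div_pos (Nat.le_of_dvd hq hgq) hg0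
    have h1 := B4a_div_totient_le g hg0
    have h2 := B4a_div_totient_le (q / g) hqg
    have h3 : (#g.divisors : ℝ) ≤ #q.divisors := by
      exact_mod_cast Finset.card_le_card (Nat.divisors_subset_of_dvd (by omega) hgq)
    have h4 : (#(q / g).divisors : ℝ) ≤ #q.divisors := by
      exact_mod_cast Finset.card_le_card
        (Nat.divisors_subset_of_dvd (by omega) (Nat.div_dvd_of_dvd hgq))
    have hφ1 : (0 : ℝ) < Nat.totient g := by exact_mod_cast Nat.totient_pos.mpr hg0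
    have hφ2 : (0 : ℝ) < Nat.totient (q / g) := by exact_mod_cast Nat.totient_pos.mpr hqg
    have h5 : (g : ℝ) * ((q / g : ℕ) : ℝ) = q := by
      exact_mod_cast Nat.mul_div_cancel' hgq
    have h6 : 1 / ((Nat.totient g : ℝ) * Nat.totient (q / g)) =
        (g / Nat.totient g) * (((q / g : ℕ) : ℝ) / Nat.totient (q / g)) / q := by
      rw [← h5]
      have hg' : (g : ℝ) ≠ 0 := by exact_mod_cast hg0.ne'
      have hqg' : ((q / g : ℕ) : ℝ) ≠ 0 := by exact_mod_cast hqg.ne'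
      field_simp
    rw [h6, sq]
    refine div_le_div_of_nonneg_right ?_ hqpos.le
    exact mul_le_mul (h1.trans h3) (h2.trans h4) (by positivity) (by positivity)
  refine le_trans (Finset.sum_le_card_nsmul _ _ _ hterm) ?_
  rw [nsmul_eq_mul]
  have h7 := hd q hq
  have h8 : (#q.divisors : ℝ) ^ 3 ≤ (C * (q : ℝ) ^ (1 / 6 : ℝ)) ^ 3 :=
    pow_le_pow_left₀ (by positivity) h7 3
  have h9 : (C * (q : ℝ) ^ (1 / 6 : ℝ)) ^ 3 = C ^ 3 * Real.sqrt q := by
    rw [mul_pow, ← Real.rpow_natCast ((q : ℝ) ^ (1 / 6 : ℝ)), ← Real.rpow_mul hqpos.le,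
      Real.sqrt_eq_rpow]
    norm_num
  rw [h9] at h8
  have hs : 0 < Real.sqrt q := Real.sqrt_pos.2 hqpos
  have hss : Real.sqrt q * Real.sqrt q = q := Real.mul_self_sqrt hqpos.le
  calc (#q.divisors : ℝ) * ((#q.divisors : ℝ) ^ 2 / q) = (#q.divisors : ℝ) ^ 3 / q := by ring
    _ ≤ C ^ 3 * Real.sqrt q / q := div_le_div_of_nonneg_right h8 hqpos.le
    _ = C ^ 3 / Real.sqrt q := by
      rw [div_eq_div_iff hqpos.ne' hs.ne', mul_assoc, hss]

end Pool.Agent.PP
end

section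

/-!
# R1: a Ramanujan type sum
-/

set_option autoImplicit false

namespace Pool.Agent.PP

open Finset MeasureTheory Real
open Pool.Agent.MC (ee expSum frac frac' arcSum fareySet)
open Pool.Agent.Lib.MP_bae66e_nt.AP3 (Rough rset dset prI KT flEta FLP cset Om0 xb prm)

/-- PROOF. Moebius inversion over `d ∣ P` (as in `MC.ramanujan_coprime`, file `Lib/MP_9cfc0a_nt/Arcs.lean`):
`1_{gcd(b,P)=1} = ∑_{d ∣ P, d ∣ b} μ(d)`, and for `d ∣ P ∣ q`, `∑_{b < q, d ∣ b} ee (b a/q) = ∑_{c < q/d} ee (c a/(q/d))`, which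
is `0` unless `d = q` (geometric sum, `a` coprime to `q/d`), when it is `1`. So the sum is `μ(q)` if `P = q` and `0` otherwise. -/
lemma ram_sub (q P a : ℕ) (hq : 1 ≤ q) (ha : Nat.Coprime a q) (hP : P ∣ q) :
    ‖∑ b ∈ (range q).filter (fun b => Nat.Coprime b P), ee ((b : ℝ) * a / q)‖ ≤ 1 := by
  classical
  have hq0 : q ≠ 0 := by omega
  have hP0 : P ≠ 0 := by
    rintro rfl
    exact hq0 (Nat.eq_zero_of_zero_dvd hP)
  have hqR : (q : ℝ) ≠ 0 := by exact_mod_cast hq0
  have h1 : ∀ b ∈ range q, (if Nat.Coprime b P then ee ((b : ℝ) * a / q) else 0)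
      = ∑ d ∈ P.divisors, if d ∣ b then (ArithmeticFunction.moebius d : ℂ) * ee ((b : ℝ) * a / q)
        else 0 := by
    intro b _
    have h2 : ∑ d ∈ P.divisors, (if d ∣ b then (ArithmeticFunction.moebius d : ℂ) *
        ee ((b : ℝ) * a / q) else 0)
        = (∑ d ∈ (Nat.gcd b P).divisors, (ArithmeticFunction.moebius d : ℂ)) *
          ee ((b : ℝ) * a / q) := by
      rw [Finset.sum_mul, ← Finset.sum_filter]
      refine Finset.sum_congr ?_ fun _ _ => rfl
      ext d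
      simp only [Finset.mem_filter, Nat.mem_divisors, Nat.dvd_gcd_iff]
      constructor
      · rintro ⟨⟨h3, _⟩, h4⟩
        exact ⟨⟨h4, h3⟩, Nat.gcd_ne_zero_right hP0⟩
      · rintro ⟨⟨h3, h4⟩, _⟩
        exact ⟨⟨h4, hP0⟩, h3⟩
    rw [h2]
    have h4 : ∑ d ∈ (Nat.gcd b P).divisors, (ArithmeticFunction.moebius d : ℤ)
        = if Nat.gcd b P = 1 then 1 else 0 := by
      have := congrArg (fun F => F (Nat.gcd b P)) (ArithmeticFunction.moebius_mul_coe_zeta)
      simp only [ArithmeticFunction.one_apply] at this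
      rw [← this, ArithmeticFunction.coe_mul_zeta_apply]
    have h5 : (∑ d ∈ (Nat.gcd b P).divisors, (ArithmeticFunction.moebius d : ℂ))
        = if Nat.gcd b P = 1 then 1 else 0 := by
      exact_mod_cast congrArg (fun z : ℤ => (z : ℂ)) h4
    rw [h5]
    by_cases hc : Nat.Coprime b P
    · rw [if_pos hc, if_pos hc, one_mul]
    · rw [if_neg hc, if_neg hc, zero_mul]
  rw [Finset.sum_filter, Finset.sum_congr rfl h1, Finset.sum_comm]
  have h6 : ∀ d ∈ P.divisors, ∑ b ∈ range q, (if d ∣ b then (ArithmeticFunction.moebius d : ℂ) *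
      ee ((b : ℝ) * a / q) else 0)
      = if d = q then (ArithmeticFunction.moebius q : ℂ) else 0 := by
    intro d hd
    rw [Nat.mem_divisors] at hd
    obtain ⟨m, hm⟩ := hd.1.trans hP
    have hd0 : d ≠ 0 := by
      rintro rfl
      simp at hm
      exact hq0 hm
    have hm0 : m ≠ 0 := by
      rintro rfl
      simp at hm
      exact hq0 hm
    have h7 : ∑ b ∈ range q, (if d ∣ b then (ArithmeticFunction.moebius d : ℂ) *
      ee ((b : ℝ) * a / q) else 0)
        = (ArithmeticFunction.moebius d : ℂ) * ∑ j ∈ range m, ee ((j : ℝ) * (a : ℤ) / m) := by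
      rw [← Finset.sum_filter, Finset.mul_sum]
      refine Finset.sum_nbij' (fun b => b / d) (fun j => d * j) ?_ ?_ ?_ ?_ ?_
      · intro b hb
        simp only [Finset.mem_filter, Finset.mem_range] at hb ⊢
        rw [Nat.div_lt_iff_lt_mul (Nat.pos_of_ne_zero hd0)]
        rw [hm] at hb
        linarith [hb.1]
      · intro j hj
        simp only [Finset.mem_filter, Finset.mem_range] at hj ⊢
        refine ⟨?_, dvd_mul_right d j⟩
        rw [hm]
        exact Nat.mul_lt_mul_of_pos_left hj (Nat.pos_of_ne_zero hd0)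
      · intro b hb
        simp only [Finset.mem_filter] at hb
        exact Nat.mul_div_cancel' hb.2
      · intro j _
        exact Nat.mul_div_cancel_left j (Nat.pos_of_ne_zero hd0)
      · intro b hb
        simp only [Finset.mem_filter, Finset.mem_range] at hb
        obtain ⟨_, ⟨j, rfl⟩⟩ := hb
        rw [Nat.mul_div_cancel_left j (Nat.pos_of_ne_zero hd0)]
        congr 2
        have hmR : (m : ℝ) ≠ 0 := by exact_mod_cast hm0
        have hdR : (d : ℝ) ≠ 0 := by exact_mod_cast hd0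
        rw [hm]
        push_cast
        field_simp
    rw [h7, Pool.Agent.MC.sum_ee_range m hm0]
    by_cases hdq : d = q
    · have hm1 : m = 1 := by
        rw [hdq] at hm
        have : q * m = q * 1 := by omega
        exact Nat.eq_of_mul_eq_mul_left (Nat.pos_of_ne_zero hq0) this
      rw [if_pos hdq, hm1]
      simp [hdq]
    · rw [if_neg hdq, if_neg, mul_zero]
      intro hmb
      have hmb' : m ∣ a := by exact_mod_cast hmb
      have hmq : m ∣ q := ⟨d, by rw [hm]; ring⟩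
      have h1' : m ∣ Nat.gcd a q := Nat.dvd_gcd hmb' hmq
      rw [ha] at h1'
      have hm1 : m = 1 := Nat.dvd_one.mp h1'
      apply hdq
      rw [hm, hm1, mul_one]
  rw [Finset.sum_congr rfl h6, Finset.sum_ite_eq']
  split_ifs with h8
  · have h9 : |ArithmeticFunction.moebius q| ≤ 1 := ArithmeticFunction.abs_moebius_le_one
    rw [Complex.norm_intCast]
    exact_mod_cast h9
  · rw [norm_zero]
    exact zero_le_one

end Pool.Agent.PP
end

section

/-!
# R2: rough integers in residue classes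
-/

set_option autoImplicit false

namespace Pool.Agent.PP

open Finset MeasureTheory Real
open Pool.Agent.MC (ee expSum frac frac' arcSum fareySet)
open Pool.Agent.Lib.MP_bae66e_nt.AP3 (Rough rset dset prI KT flEta FLP cset Om0 xb prm)

private lemma R2_mem_RR {z q l : ℕ} : l ∈ RR z q ↔ l ∈ prI 0 z ∧ ¬ l ∣ q := by
  unfold RR
  rw [Finset.mem_filter]

private lemma R2_prod_split (z q : ℕ) :
    KT z = (∏ l ∈ (prI 0 z).filter (fun l => l ∣ q), (1 - 1 / (l : ℝ))) * ∏ l ∈ RR z q, (1 - 1 / (l : ℝ)) := by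
  unfold KT RR
  rw [Finset.prod_filter_mul_prod_filter_not]

private lemma R2_cop_count (P m : ℕ) :
    #((range (P * m)).filter (fun b => Nat.Coprime b P)) = m * Nat.totient P := by
  induction m with
  | zero => simp
  | succ m ih =>
    have h1 : range (P * (m + 1)) = range (P * m) ∪ Finset.Ico (P * m) (P * m + P) := by
      ext x
      rw [Finset.mem_union, Finset.mem_range, Finset.mem_range, Finset.mem_Ico, mul_add, mul_one]
      omega
    have hdisj : Disjoint ((range (P * m)).filter (fun b => Nat.Coprime b P))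
        ((Finset.Ico (P * m) (P * m + P)).filter (fun b => Nat.Coprime b P)) := by
      rw [Finset.disjoint_left]
      intro x hx hx'
      rw [Finset.mem_filter, Finset.mem_range] at hx
      rw [Finset.mem_filter, Finset.mem_Ico] at hx'
      omega
    rw [h1, Finset.filter_union, Finset.card_union_of_disjoint hdisj, ih]
    have h2 := Nat.filter_coprime_Ico_eq_totient P (P * m)
    have h3 : (Finset.Ico (P * m) (P * m + P)).filter (fun b => Nat.Coprime b P)
        = (Finset.Ico (P * m) (P * m + P)).filter (fun x => P.Coprime x) := by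
      apply Finset.filter_congr
      intro x _
      exact Nat.coprime_comm
    rw [h3, h2]
    ring

private lemma R2_PZ_prime {z q : ℕ} : ∀ l ∈ (prI 0 z).filter (fun l => l ∣ q), l.Prime := by
  intro l hl
  rw [Finset.mem_filter, Pool.Agent.Lib.MP_bae66e_nt.AP3.mem_prI] at hl
  exact hl.1.2

private lemma R2_PZ_pos (z q : ℕ) : 0 < PZ z q := by
  unfold PZ
  exact Finset.prod_pos (fun l hl => (R2_PZ_prime l hl).pos)

private lemma R2_totient_PZ (z q : ℕ) :
    (Nat.totient (PZ z q) : ℝ) / (PZ z q : ℝ)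
      = ∏ l ∈ (prI 0 z).filter (fun l => l ∣ q), (1 - 1 / (l : ℝ)) := by
  rw [← Pool.Agent.Lib.MP_bae66e_nt.AP3.rho_eq _ (R2_PZ_pos z q)]
  unfold Pool.Agent.Lib.MP_bae66e_nt.rho
  have : (PZ z q).primeFactors = (prI 0 z).filter (fun l => l ∣ q) := by
    unfold PZ
    exact Nat.primeFactors_prod R2_PZ_prime
  rw [this]

/-- The rough integers of a class `b` mod `q`, `b` coprime to the primes `≤ z` dividing `q`: the set is
`cset Om0 A B q b ∅ (RR z q)` (for `m ≡ b [MOD q]` no prime `l ≤ z`, `l ∣ q`, divides `m`; for `l ∤ q`, `m % l ∉ Om0 l = {0}`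
means `¬ l ∣ m`), so this is the hypothesis `FLP` (`xb_Om0`; the primes of `RR z q` are coprime to `q`). See
`AP3.exists_rough_count` in `AP3/Rough.lean`. -/
lemma class_count (z q b A B : ℕ) (η E : ℝ) (hq : 1 ≤ q) (hFL : FLP Om0 A B (RR z q) η E)
    (hb : Nat.Coprime b (PZ z q)) :
    |(#((Ioc A B).filter (fun m => m ≡ b [MOD q] ∧ ∀ l ∈ prI 0 z, ¬ l ∣ m)) : ℝ)
        - ((B : ℝ) - A) / q * ∏ l ∈ RR z q, (1 - 1 / (l : ℝ))|
      ≤ η * (((B : ℝ) - A) / q * ∏ l ∈ RR z q, (1 - 1 / (l : ℝ))) + E := by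
  have h := hFL q b (by omega) (by
    intro l hl
    rw [R2_mem_RR, Pool.Agent.Lib.MP_bae66e_nt.AP3.mem_prI] at hl
    exact (hl.1.2.coprime_iff_not_dvd).mpr hl.2)
  have hprod : ∏ l ∈ RR z q, (1 - xb Om0 l) = ∏ l ∈ RR z q, (1 - 1 / (l : ℝ)) := by
    apply Finset.prod_congr rfl
    intro l hl
    rw [R2_mem_RR, Pool.Agent.Lib.MP_bae66e_nt.AP3.mem_prI] at hl
    rw [Pool.Agent.Lib.MP_bae66e_nt.AP3.xb_Om0 hl.1.2]
  rw [hprod] at h
  have hset : cset Om0 A B q b ∅ (RR z q)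
      = (Ioc A B).filter (fun m => m ≡ b [MOD q] ∧ ∀ l ∈ prI 0 z, ¬ l ∣ m) := by
    unfold cset
    apply Finset.filter_congr
    intro m _
    constructor
    · rintro ⟨h1, _, h3⟩
      refine ⟨h1, ?_⟩
      intro l hl hlm
      by_cases hlq : l ∣ q
      · have h4 : l ∣ b := by
          have h5 : m ≡ b [MOD l] := h1.of_dvd hlq
          exact (h5.dvd_iff (dvd_refl l)).mp hlm
        have h6 : l ∣ PZ z q := by
          unfold PZ
          exact Finset.dvd_prod_of_mem _ (Finset.mem_filter.mpr ⟨hl, hlq⟩)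
        have h7 : l ∣ 1 := by
          have := Nat.dvd_gcd h4 h6
          rwa [hb] at this
        have h8 := (Pool.Agent.Lib.MP_bae66e_nt.AP3.mem_prI.mp hl).2
        exact h8.one_lt.ne' (Nat.dvd_one.mp h7)
      · have h4 := h3 l (R2_mem_RR.mpr ⟨hl, hlq⟩)
        have h8 := (Pool.Agent.Lib.MP_bae66e_nt.AP3.mem_prI.mp hl).2
        apply h4
        unfold Om0
        rw [if_pos h8, Finset.mem_singleton]
        exact Nat.mod_eq_zero_of_dvd hlm
    · rintro ⟨h1, h3⟩
      refine ⟨h1, fun l hl => absurd hl (Finset.notMem_empty l), ?_⟩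
      intro l hl hm
      have hl' := R2_mem_RR.mp hl
      have h8 := (Pool.Agent.Lib.MP_bae66e_nt.AP3.mem_prI.mp hl'.1).2
      unfold Om0 at hm
      rw [if_pos h8, Finset.mem_singleton] at hm
      exact h3 l hl'.1 (Nat.dvd_of_mod_eq_zero hm)
  rw [hset] at h
  exact h

/-- If a prime `l ≤ z` divides `q` and `b`, it divides every `m ≡ b [MOD q]`. -/
lemma class_count_zero (z q b A B : ℕ) (hb : ¬ Nat.Coprime b (PZ z q)) :
    (Ioc A B).filter (fun m => m ≡ b [MOD q] ∧ ∀ l ∈ prI 0 z, ¬ l ∣ m) = ∅ := by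
  rw [Finset.filter_eq_empty_iff]
  rintro m _ ⟨h1, h2⟩
  obtain ⟨l, hlp, hlb, hlP⟩ := Nat.Prime.not_coprime_iff_dvd.mp hb
  unfold PZ at hlP
  rw [(Nat.prime_iff.mp hlp).dvd_finsetProd_iff] at hlP
  obtain ⟨l', hl', hll'⟩ := hlP
  have h3 := (Nat.prime_dvd_prime_iff_eq hlp (R2_PZ_prime l' hl')).mp hll'
  subst h3
  rw [Finset.mem_filter] at hl'
  apply h2 l hl'.1
  have h5 : m ≡ b [MOD l] := h1.of_dvd hl'.2
  exact (h5.dvd_iff (dvd_refl l)).mpr hlb

lemma PZ_dvd (z q : ℕ) (hq : 1 ≤ q) : PZ z q ∣ q := by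
  unfold PZ
  apply Finset.prod_primes_dvd
  · intro l hl
    exact Nat.prime_iff.mp (R2_PZ_prime l hl)
  · intro l hl
    exact (Finset.mem_filter.mp hl).2

/-- PROOF. The number of `b < q` coprime to `P = PZ z q ∣ q` is `(q/P) φ(P) = q ∏_{l ∣ q, l ≤ z} (1 - 1/l)` (`P` squarefree), and
`KT z = ∏_{l ≤ z} (1 - 1/l)` is the product over `l ∣ q` times the product over `RR z q`. -/
lemma card_cop (z q : ℕ) (hq : 1 ≤ q) :
    (#((range q).filter (fun b => Nat.Coprime b (PZ z q))) : ℝ) * (1 / q * ∏ l ∈ RR z q, (1 - 1 / (l : ℝ)))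
      = KT z := by
  obtain ⟨m, hm⟩ := PZ_dvd z q hq
  have hP := R2_PZ_pos z q
  have hP' : ((PZ z q : ℕ) : ℝ) ≠ 0 := by exact_mod_cast hP.ne'
  have hm0 : m ≠ 0 := by
    rintro rfl
    rw [mul_zero] at hm
    omega
  have hm' : (m : ℝ) ≠ 0 := by exact_mod_cast hm0
  have hcard : (#((range q).filter (fun b => Nat.Coprime b (PZ z q))) : ℝ)
      = m * Nat.totient (PZ z q) := by
    have h1 := R2_cop_count (PZ z q) m
    rw [← hm] at h1
    exact_mod_cast h1
  have hqR : (q : ℝ) = (PZ z q : ℝ) * m := by exact_mod_cast hm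
  rw [hcard, R2_prod_split z q, ← R2_totient_PZ z q, hqR]
  field_simp

/-- PROOF. `KT z = ∏_{l ∣ q, l ≤ z} (1 - 1/l) ∏_{RR z q} (1 - 1/l)` and `∏_{l ∣ q, l ≤ z} (1 - 1/l) ≥ ∏_{l ∣ q} (1 - 1/l) = φ(q)/q`
(`Nat.totient_eq_mul_prod_factors`; see `AP3.rho_eq`). -/
lemma prod_RR_le (z q : ℕ) (hq : 1 ≤ q) :
    1 / (q : ℝ) * ∏ l ∈ RR z q, (1 - 1 / (l : ℝ)) ≤ KT z / Nat.totient q := by
  have hq0 : (0 : ℝ) < q := by exact_mod_cast hq
  have hphi : (0 : ℝ) < (Nat.totient q : ℝ) := by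
    exact_mod_cast Nat.totient_pos.mpr hq
  have hRR : 0 ≤ ∏ l ∈ RR z q, (1 - 1 / (l : ℝ)) := by
    apply Finset.prod_nonneg
    intro l hl
    rw [R2_mem_RR, Pool.Agent.Lib.MP_bae66e_nt.AP3.mem_prI] at hl
    exact (Pool.Agent.Lib.MP_bae66e_nt.AP3.one_sub_inv_pos hl.1.2).le
  have hrho : (Nat.totient q : ℝ) / q ≤ ∏ l ∈ (prI 0 z).filter (fun l => l ∣ q), (1 - 1 / (l : ℝ)) := by
    rw [← Pool.Agent.Lib.MP_bae66e_nt.AP3.rho_eq q hq]
    unfold Pool.Agent.Lib.MP_bae66e_nt.rho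
    have hsub : (prI 0 z).filter (fun l => l ∣ q) ⊆ q.primeFactors := by
      intro l hl
      have h1 := R2_PZ_prime l hl
      exact Nat.mem_primeFactors.mpr ⟨h1, (Finset.mem_filter.mp hl).2, by omega⟩
    apply Finset.prod_le_prod_of_subset_of_le_one hsub
    · intro p hp
      exact (Pool.Agent.Lib.MP_bae66e_nt.AP3.one_sub_inv_pos (Nat.prime_of_mem_primeFactors hp)).le
    · intro p hp _
      have : (0 : ℝ) ≤ 1 / (p : ℝ) := by positivity
      linarith
  rw [le_div_iff₀ hphi, R2_prod_split z q]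
  calc (1 / (q : ℝ) * ∏ l ∈ RR z q, (1 - 1 / (l : ℝ))) * (Nat.totient q : ℝ)
      = ((Nat.totient q : ℝ) / q) * ∏ l ∈ RR z q, (1 - 1 / (l : ℝ)) := by ring
    _ ≤ _ := mul_le_mul_of_nonneg_right hrho hRR

lemma prod_RR_nonneg (z q : ℕ) : 0 ≤ ∏ l ∈ RR z q, (1 - 1 / (l : ℝ)) := by
  apply Finset.prod_nonneg
  intro l hl
  rw [R2_mem_RR, Pool.Agent.Lib.MP_bae66e_nt.AP3.mem_prI] at hl
  exact (Pool.Agent.Lib.MP_bae66e_nt.AP3.one_sub_inv_pos hl.1.2).le

end Pool.Agent.PP
end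

section

/-!
# R3: rough integers in a short interval, twisted by `a/q`
-/

set_option autoImplicit false

namespace Pool.Agent.PP

open Finset MeasureTheory Real
open Pool.Agent.MC (ee expSum frac frac' arcSum fareySet)
open Pool.Agent.Lib.MP_bae66e_nt.AP3 (Rough rset dset prI KT flEta FLP cset Om0 xb prm)

/-- PROOF. `κ = (1/q) ∏_{RR z q} (1 - 1/l) · ∑_{b < q, gcd(b, PZ z q) = 1} ee (b a/q)`; `‖κ‖ ≤ KT z/φ(q)` by `ram_sub` and `prod_RR_le`.
Split `m` into classes mod `q`: `∑_m ee (m a/q) = ∑_{b < q} ee (b a/q) #{m ∈ Ioc A B, m ≡ b, m rough}`; for `gcd(b, PZ) > 1` the count is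
`0` (`class_count_zero`), for the others `class_count`; the sum of the errors is
`≤ #{b} (η (B - A)/q ∏ + E) = η (B - A) KT z + #{b} E` (`card_cop`), and `#{b} ≤ q`. -/
lemma rough_piece (z q a : ℕ) (hq : 1 ≤ q) (ha : Nat.Coprime a q) :
    ∃ κ : ℂ, ‖κ‖ ≤ KT z / Nat.totient q ∧ ∀ (A B : ℕ) (η E : ℝ), A ≤ B → 0 ≤ η → 0 ≤ E →
      FLP Om0 A B (RR z q) η E →
      ‖∑ m ∈ (Ioc A B).filter (fun m => ∀ l ∈ prI 0 z, ¬ l ∣ m), ee ((m : ℝ) * (a / q))
          - κ * (((B : ℝ) - A : ℝ) : ℂ)‖ ≤ η * (((B : ℝ) - A) * KT z) + q * E := by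
  have hq0 : q ≠ 0 := by omega
  have hqR : (0 : ℝ) < q := by exact_mod_cast hq
  set Pr : ℝ := ∏ l ∈ RR z q, (1 - 1 / (l : ℝ)) with hPr
  have hPr0 : 0 ≤ Pr := prod_RR_nonneg z q
  set bs : Finset ℕ := (range q).filter (fun b => Nat.Coprime b (PZ z q)) with hbs
  refine ⟨((1 / (q : ℝ) * Pr : ℝ) : ℂ) * ∑ b ∈ bs, ee ((b : ℝ) * a / q), ?_, ?_⟩
  · rw [norm_mul, Complex.norm_real, Real.norm_of_nonneg (by positivity)]
    have h1 := ram_sub q (PZ z q) a hq ha (PZ_dvd z q hq)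
    have h2 := prod_RR_le z q hq
    calc (1 / (q : ℝ) * Pr) * ‖∑ b ∈ bs, ee ((b : ℝ) * a / q)‖ ≤ (1 / (q : ℝ) * Pr) * 1 :=
          mul_le_mul_of_nonneg_left h1 (by positivity)
      _ ≤ KT z / Nat.totient q := by rw [mul_one]; exact h2
  · intro A B η E hAB hη hE hFL
    have hBA : (0 : ℝ) ≤ (B : ℝ) - A := by
      have : (A : ℝ) ≤ B := by exact_mod_cast hAB
      linarith
    set N : ℕ → ℕ := fun b => #((Ioc A B).filter (fun m => m ≡ b [MOD q] ∧ ∀ l ∈ prI 0 z, ¬ l ∣ m)) with hN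
    have hsplit : ∑ m ∈ (Ioc A B).filter (fun m => ∀ l ∈ prI 0 z, ¬ l ∣ m), ee ((m : ℝ) * (a / q))
        = ∑ b ∈ bs, (N b : ℂ) * ee ((b : ℝ) * a / q) := by
      have h1 : ∑ m ∈ (Ioc A B).filter (fun m => ∀ l ∈ prI 0 z, ¬ l ∣ m), ee ((m : ℝ) * (a / q))
          = ∑ b ∈ range q, ∑ m ∈ ((Ioc A B).filter (fun m => ∀ l ∈ prI 0 z, ¬ l ∣ m)).filter
              (fun m => m % q = b), ee ((m : ℝ) * (a / q)) := by
        rw [Finset.sum_fiberwise_of_maps_to]
        intro m _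
        exact Finset.mem_range.mpr (Nat.mod_lt _ hq)
      have h2 : ∀ b ∈ range q, ∑ m ∈ ((Ioc A B).filter (fun m => ∀ l ∈ prI 0 z, ¬ l ∣ m)).filter
              (fun m => m % q = b), ee ((m : ℝ) * (a / q)) = (N b : ℂ) * ee ((b : ℝ) * a / q) := by
        intro b hb
        rw [Finset.mem_range] at hb
        have h3 : ((Ioc A B).filter (fun m => ∀ l ∈ prI 0 z, ¬ l ∣ m)).filter (fun m => m % q = b)
            = (Ioc A B).filter (fun m => m ≡ b [MOD q] ∧ ∀ l ∈ prI 0 z, ¬ l ∣ m) := by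
          rw [Finset.filter_filter]
          apply Finset.filter_congr
          intro m _
          have h4 : m % q = b ↔ m ≡ b [MOD q] := by
            unfold Nat.ModEq
            rw [Nat.mod_eq_of_lt hb]
          rw [h4]
          exact and_comm
        rw [h3]
        have h5 : ∀ m ∈ (Ioc A B).filter (fun m => m ≡ b [MOD q] ∧ ∀ l ∈ prI 0 z, ¬ l ∣ m),
            ee ((m : ℝ) * (a / q)) = ee ((b : ℝ) * a / q) := by
          intro m hm
          rw [Finset.mem_filter] at hm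
          have h6 : m % q = b := by
            have := hm.2.1
            unfold Nat.ModEq at this
            rw [Nat.mod_eq_of_lt hb] at this
            exact this
          have h7 : (m : ℝ) = (b : ℝ) + q * ((m / q : ℕ) : ℝ) := by
            have := Nat.mod_add_div m q
            rw [h6] at this
            exact_mod_cast this.symm
          have h8 : (m : ℝ) * (a / q) = (b : ℝ) * a / q + ((((m / q : ℕ) * a : ℕ) : ℤ) : ℝ) := by
            rw [Int.cast_natCast, Nat.cast_mul, h7]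
            field_simp
          rw [h8, Pool.Agent.MC.ee_add_int]
        rw [Finset.sum_congr rfl h5, Finset.sum_const, nsmul_eq_mul]
      rw [h1, Finset.sum_congr rfl h2, hbs, Finset.sum_filter]
      apply Finset.sum_congr rfl
      intro b _
      split_ifs with hc
      · rfl
      · have : N b = 0 := by
          rw [hN]
          simp only
          rw [class_count_zero z q b A B hc, Finset.card_empty]
        rw [this, Nat.cast_zero, zero_mul]
    rw [hsplit]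
    have hdiff : ∑ b ∈ bs, (N b : ℂ) * ee ((b : ℝ) * a / q)
        - (((1 / (q : ℝ) * Pr : ℝ) : ℂ) * ∑ b ∈ bs, ee ((b : ℝ) * a / q)) * (((B : ℝ) - A : ℝ) : ℂ)
        = ∑ b ∈ bs, (((N b : ℝ) - ((B : ℝ) - A) / q * Pr : ℝ) : ℂ) * ee ((b : ℝ) * a / q) := by
      rw [Finset.mul_sum, Finset.sum_mul, ← Finset.sum_sub_distrib]
      apply Finset.sum_congr rfl
      intro b _
      push_cast
      ring
    rw [hdiff]
    refine (norm_sum_le _ _).trans ?_
    have hterm : ∀ b ∈ bs, ‖(((N b : ℝ) - ((B : ℝ) - A) / q * Pr : ℝ) : ℂ) * ee ((b : ℝ) * a / q)‖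
        ≤ η * (((B : ℝ) - A) / q * Pr) + E := by
      intro b hb
      rw [hbs, Finset.mem_filter] at hb
      rw [norm_mul, Pool.Agent.MC.norm_ee, mul_one, Complex.norm_real, Real.norm_eq_abs]
      exact class_count z q b A B η E hq hFL hb.2
    refine (Finset.sum_le_sum hterm).trans ?_
    rw [Finset.sum_const, nsmul_eq_mul]
    have hcc := card_cop z q hq
    have hcard : (bs.card : ℝ) ≤ q := by
      have : bs.card ≤ q := by
        rw [hbs]
        refine (Finset.card_filter_le _ _).trans ?_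
        rw [Finset.card_range]
      exact_mod_cast this
    have h9 : (bs.card : ℝ) * (η * (((B : ℝ) - A) / q * Pr) + E)
        = η * (((B : ℝ) - A) * ((bs.card : ℝ) * (1 / q * Pr))) + bs.card * E := by ring
    rw [h9, hcc]
    have h10 : (bs.card : ℝ) * E ≤ q * E := mul_le_mul_of_nonneg_right hcard hE
    linarith

end Pool.Agent.PP
end
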