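import Pool.Agent.Lib.MP_bae66e_nt.Mg.G080
import Pool.Agent.Lib.MP_bae66e_nt.Mg.G083
import Pool.Agent.Lib.MP_bae66e_nt.Mg.G085

section

/-!
# L3b: the mean square of the exponential sum over primes on the arcs with small denominators
-/

set_option autoImplicit false

namespace Pool.Agent.PP

open Finset MeasureTheory Real
open Pool.Agent.MC (ee expSum frac frac' arcSum fareySet)
open Pool.Agent.Lib.MP_bae66e_nt.AP3 (Rough rset dset prI KT flEta FLP cset Om0 xb prm)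

private lemma L3b_th_nonneg (n : ℕ) : 0 ≤ th n := by
  unfold th
  split_ifs with h
  · exact Real.log_nonneg (by exact_mod_cast h.one_lt.le)
  · exact le_refl _

private lemma L3b_sum_th (y : ℕ) : ∑ n ∈ range (y + 1), th n ≤ 2 * y := by
  have h1 := Chebyshev.theta_le_log4_mul_x (x := (y : ℝ)) (Nat.cast_nonneg y)
  have h2 : ∑ n ∈ range (y + 1), th n = Chebyshev.theta (y : ℝ) := by
    unfold Chebyshev.theta th
    rw [Nat.floor_natCast, Finset.sum_filter]
    symm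
    apply Finset.sum_subset
    · intro n hn
      rw [Finset.mem_Ioc] at hn
      rw [Finset.mem_range]
      omega
    · intro n hn hn'
      rw [Finset.mem_range] at hn
      rw [Finset.mem_Ioc] at hn'
      have : n = 0 := by omega
      subst this
      simp
  rw [h2]
  have h3 := Real.log_two_lt_d9
  have h4 : Real.log 4 = 2 * Real.log 2 := by
    rw [show (4 : ℝ) = 2 ^ 2 by norm_num, Real.log_pow]
    norm_num
  have hy : (0 : ℝ) ≤ y := Nat.cast_nonneg y
  nlinarith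

/-- the part of `th` on the large primes -/
private noncomputable def L3b_f1 (Q n : ℕ) : ℂ := if Q < n then ((th n : ℝ) : ℂ) else 0

/-- the part of `th` on the small primes -/
private noncomputable def L3b_f2 (Q n : ℕ) : ℂ := if Q < n then 0 else ((th n : ℝ) : ℂ)

private lemma L3b_split (Q y q : ℕ) (β : ℝ) :
    arcSum (fun n => ((th n : ℝ) : ℂ)) (y + 1) q β
      ≤ 2 * arcSum (L3b_f1 Q) (y + 1) q β + 2 * arcSum (L3b_f2 Q) (y + 1) q β := by
  unfold arcSum
  rw [Finset.mul_sum, Finset.mul_sum, ← Finset.sum_add_distrib]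
  apply Finset.sum_le_sum
  intro b _
  have h1 : expSum (fun n => ((th n : ℝ) : ℂ)) (y + 1) ((b : ℝ) / q + β)
      = expSum (L3b_f1 Q) (y + 1) ((b : ℝ) / q + β) + expSum (L3b_f2 Q) (y + 1) ((b : ℝ) / q + β) := by
    unfold expSum
    rw [← Finset.sum_add_distrib]
    apply Finset.sum_congr rfl
    intro n _
    unfold L3b_f1 L3b_f2
    split_ifs <;> ring
  rw [h1]
  have h2 := norm_add_le (expSum (L3b_f1 Q) (y + 1) ((b : ℝ) / q + β)) (expSum (L3b_f2 Q) (y + 1) ((b : ℝ) / q + β))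
  have h3 := norm_nonneg (expSum (L3b_f1 Q) (y + 1) ((b : ℝ) / q + β) + expSum (L3b_f2 Q) (y + 1) ((b : ℝ) / q + β))
  have h4 : ‖expSum (L3b_f1 Q) (y + 1) ((b : ℝ) / q + β) + expSum (L3b_f2 Q) (y + 1) ((b : ℝ) / q + β)‖ ^ 2
      ≤ (‖expSum (L3b_f1 Q) (y + 1) ((b : ℝ) / q + β)‖ + ‖expSum (L3b_f2 Q) (y + 1) ((b : ℝ) / q + β)‖) ^ 2 :=
    pow_le_pow_left₀ h3 h2 2
  nlinarith [sq_nonneg (‖expSum (L3b_f1 Q) (y + 1) ((b : ℝ) / q + β)‖ - ‖expSum (L3b_f2 Q) (y + 1) ((b : ℝ) / q + β)‖)]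

private lemma L3b_small (Q y q : ℕ) (hQy : Q ≤ y) (β : ℝ) :
    arcSum (L3b_f2 Q) (y + 1) q β ≤ q * (2 * Q) ^ 2 := by
  unfold arcSum
  have h1 : ∀ b ∈ frac q, ‖expSum (L3b_f2 Q) (y + 1) ((b : ℝ) / q + β)‖ ^ 2 ≤ (2 * (Q : ℝ)) ^ 2 := by
    intro b _
    apply pow_le_pow_left₀ (norm_nonneg _)
    unfold expSum
    refine (norm_sum_le _ _).trans ?_
    have h2 : ∀ n ∈ range (y + 1), ‖L3b_f2 Q n * ee ((n : ℝ) * ((b : ℝ) / q + β))‖
        = if n ∈ range (Q + 1) then th n else 0 := by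
      intro n _
      rw [norm_mul, Pool.Agent.MC.norm_ee, mul_one]
      unfold L3b_f2
      by_cases h : Q < n
      · rw [if_pos h, norm_zero, if_neg]
        rw [Finset.mem_range]
        omega
      · rw [if_neg h, if_pos (by rw [Finset.mem_range]; omega), Complex.norm_real,
          Real.norm_of_nonneg (L3b_th_nonneg n)]
    rw [Finset.sum_congr rfl h2, Finset.sum_ite_mem]
    have h3 : range (y + 1) ∩ range (Q + 1) = range (Q + 1) := by
      apply Finset.inter_eq_right.mpr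
      exact Finset.range_subset_range.mpr (by omega)
    rw [h3]
    exact L3b_sum_th Q
  refine (Finset.sum_le_sum h1).trans ?_
  rw [Finset.sum_const, nsmul_eq_mul]
  apply mul_le_mul_of_nonneg_right _ (by positivity)
  have h4 : #(frac q) ≤ q := by
    unfold frac
    refine (Finset.card_filter_le _ _).trans ?_
    rw [Finset.card_range]
  exact_mod_cast h4

private lemma L3b_norm_sq (Q y : ℕ) (hy : 1 ≤ y) :
    ∑ n ∈ range (y + 1), ‖L3b_f1 Q n‖ ^ 2 ≤ 2 * y * Real.log y := by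
  have hly : 0 ≤ Real.log (y : ℝ) := Real.log_nonneg (by exact_mod_cast hy)
  have h1 : ∀ n ∈ range (y + 1), ‖L3b_f1 Q n‖ ^ 2 ≤ Real.log y * th n := by
    intro n hn
    rw [Finset.mem_range] at hn
    have h0 := L3b_th_nonneg n
    unfold L3b_f1
    split_ifs
    · rw [Complex.norm_real, Real.norm_of_nonneg h0, sq]
      apply mul_le_mul_of_nonneg_right _ h0
      unfold th
      split_ifs with hp
      · exact Real.log_le_log (by exact_mod_cast hp.pos) (by exact_mod_cast (by omega : n ≤ y))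
      · exact hly
    · rw [norm_zero, zero_pow two_ne_zero]
      positivity
  refine (Finset.sum_le_sum h1).trans ?_
  rw [← Finset.mul_sum]
  have h2 := mul_le_mul_of_nonneg_left (L3b_sum_th y) hly
  linarith

/-- PROOF. We may take `D ≥ 2` (the left side increases with `D`). `Q = ⌊y^(1/4)⌋₊`, so `2 T ≤ 1/√y ≤ 1/Q²`, and `D² ≤ Q`,
`Q / D + 1 ≥ y^(1/8)`. Split `th = f₁ + f₂`, `f₁` supported on the primes `> Q`, `f₂` on the primes `≤ Q`:
`arcSum th ≤ 2 arcSum f₁ + 2 arcSum f₂`, `arcSum f₂ ≤ φ(q) (∑_{p ≤ Q} log p)² ≤ D (2 Q)²` (`θ(Q) ≤ (log 4) Q`), whose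
contribution is `≤ D · D · 4 Q² · 2 T ≤ 4 D² ≤ 4 y`. For `f₁` use `small_arcs_rough` and `gain` with
`∑ ‖f₁ n‖² ≤ log y · θ(y) ≤ 2 y log y`. -/
lemma arcs_L2 : ∃ C : ℝ, 0 < C ∧ ∃ y₀ : ℕ, ∀ y : ℕ, y₀ ≤ y → ∀ D : ℕ, 1 ≤ D →
    (D : ℝ) ^ 8 ≤ y → ∀ T : ℝ, 0 ≤ T → 2 * T * Real.sqrt y ≤ 1 →
    ∑ q ∈ Icc 1 D, ∫ β in (-T)..T, arcSum (fun n => ((th n : ℝ) : ℂ)) (y + 1) q β
      ≤ C * y * (1 + Real.log D) := by
  obtain ⟨c, hc, hgain⟩ := gain
  have key : ∀ y : ℕ, 256 ≤ y → ∀ D : ℕ, 2 ≤ D →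
      (D : ℝ) ^ 8 ≤ y → ∀ T : ℝ, 0 ≤ T → 2 * T * Real.sqrt y ≤ 1 →
      ∑ q ∈ Icc 1 D, ∫ β in (-T)..T, arcSum (fun n => ((th n : ℝ) : ℂ)) (y + 1) q β
        ≤ (32 / c + 8) * y * (1 + Real.log D) := by
    intro y hy D hD hDy T hT0 hT
    set s := Nat.sqrt y with hs
    set Q := Nat.sqrt s with hQ
    have hss : s * s ≤ y := Nat.sqrt_le y
    have hQQ : Q * Q ≤ s := Nat.sqrt_le s
    have hDy' : D ^ 8 ≤ y := by exact_mod_cast hDy
    have hDs : D ^ 4 ≤ s := by
      rw [hs, Nat.le_sqrt]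
      calc D ^ 4 * D ^ 4 = D ^ 8 := by ring
        _ ≤ y := hDy'
    have hDQ2 : D ^ 2 ≤ Q := by
      rw [hQ, Nat.le_sqrt]
      calc D ^ 2 * D ^ 2 = D ^ 4 := by ring
        _ ≤ s := hDs
    have hDQ : D ≤ Q := by nlinarith
    have hQ1 : 1 ≤ Q := by omega
    have hQy : Q ≤ y := (Nat.sqrt_le_self s).trans (Nat.sqrt_le_self y)
    have hy0 : (0 : ℝ) < y := by
      have : 0 < y := by omega
      exact_mod_cast this
    have hsqrt : ((Q : ℝ)) ^ 2 ≤ Real.sqrt y := by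
      apply Real.le_sqrt_of_sq_le
      have h1 : (Q * Q) * (Q * Q) ≤ y := (Nat.mul_le_mul hQQ hQQ).trans hss
      have h2 : ((Q : ℝ) * Q) * (Q * Q) ≤ y := by exact_mod_cast h1
      calc ((Q : ℝ) ^ 2) ^ 2 = ((Q : ℝ) * Q) * (Q * Q) := by ring
        _ ≤ y := h2
    have hQ0 : (0 : ℝ) < Q := by exact_mod_cast hQ1
    have hTQ : 2 * T * (Q : ℝ) ^ 2 ≤ 1 := by
      calc 2 * T * (Q : ℝ) ^ 2 ≤ 2 * T * Real.sqrt y := mul_le_mul_of_nonneg_left hsqrt (by linarith)
        _ ≤ 1 := hT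
    have hTQ' : 2 * T ≤ 1 / (Q : ℝ) ^ 2 := by
      rw [le_div_iff₀ (by positivity)]
      exact hTQ
    -- the large primes
    have hsm := small_arcs_rough (L3b_f1 Q) (y + 1) D Q (by omega) hDQ (by
      intro l n hl hlQ hln
      unfold L3b_f1
      split_ifs with h
      · unfold th
        rw [if_neg, Complex.ofReal_zero]
        intro hp
        have := (Nat.prime_dvd_prime_iff_eq hl hp).mp hln
        omega
      · rfl) T hT0 hTQ'
    have hns := L3b_norm_sq Q y (by omega)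
    have hg := hgain D (Q / D) hD
    have hlD : 0 < Real.log (D : ℝ) := Real.log_pos (by exact_mod_cast (by omega : 1 < D))
    have hly : 0 < Real.log (y : ℝ) := Real.log_pos (by exact_mod_cast (by omega : 1 < y))
    have hlog : Real.log y / 8 ≤ Real.log (((Q / D : ℕ) : ℝ) + 1) := by
      have hD0 : (0 : ℝ) < D := by exact_mod_cast (by omega : 0 < D)
      have h1 : (Q + 1 : ℝ) ≤ (((Q / D : ℕ) : ℝ) + 1) * D := by
        have h2 : Q < (Q / D + 1) * D := Nat.lt_mul_of_div_lt (Nat.lt_succ_self _) (by omega)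
        exact_mod_cast h2
      have h3 : Real.log ((Q : ℝ) + 1) ≤ Real.log (((Q / D : ℕ) : ℝ) + 1) + Real.log D := by
        rw [← Real.log_mul (by positivity) hD0.ne']
        exact Real.log_le_log (by positivity) h1
      have h4 : Real.log y ≤ 4 * Real.log ((Q : ℝ) + 1) := by
        have h5 : s < (Q + 1) * (Q + 1) := Nat.lt_succ_sqrt s
        have h6 : y < (s + 1) * (s + 1) := Nat.lt_succ_sqrt y
        have h7 : (s + 1) * (s + 1) ≤ ((Q + 1) * (Q + 1)) * ((Q + 1) * (Q + 1)) :=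
          Nat.mul_le_mul h5 h5
        have h8 : (y : ℝ) ≤ ((Q : ℝ) + 1) ^ 4 := by
          have h9 : y ≤ (Q + 1) ^ 4 := by
            have : ((Q + 1) * (Q + 1)) * ((Q + 1) * (Q + 1)) = (Q + 1) ^ 4 := by ring
            omega
          exact_mod_cast h9
        have h10 := Real.log_le_log hy0 h8
        rw [Real.log_pow] at h10
        exact_mod_cast h10
      have h11 : 8 * Real.log D ≤ Real.log y := by
        have h12 := Real.log_le_log (by positivity) hDy
        rw [Real.log_pow] at h12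
        exact_mod_cast h12
      linarith
    have hbig : ∑ q ∈ Icc 1 D, ∫ β in (-T)..T, arcSum (L3b_f1 Q) (y + 1) q β
        ≤ 16 / c * y * Real.log D := by
      set S := ∑ q ∈ Icc 1 D, ∫ β in (-T)..T, arcSum (L3b_f1 Q) (y + 1) q β with hS
      have hS0 : 0 ≤ S := by
        rw [hS]
        apply Finset.sum_nonneg
        intro q _
        exact intervalIntegral.integral_nonneg (by linarith)
          fun β _ => Pool.Agent.MC.arcSum_nonneg _ _ q β
      have h1 : (c * (Real.log y / 8) / Real.log D) * S ≤ 2 * y * Real.log y := by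
        have h2 : c * (Real.log y / 8) / Real.log D ≤ ∑ r ∈ dset D (Q / D), 1 / (Nat.totient r : ℝ) := by
          refine le_trans ?_ hg
          apply div_le_div_of_nonneg_right _ hlD.le
          exact mul_le_mul_of_nonneg_left hlog hc.le
        exact (mul_le_mul_of_nonneg_right h2 hS0).trans (hsm.trans hns)
      have h3 : (c * (Real.log y / 8) / Real.log D) * S = (Real.log y) * (c / (8 * Real.log D) * S) := by
        field_simp
      rw [h3] at h1
      have h4 : c / (8 * Real.log D) * S ≤ 2 * y := by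
        have h5 : Real.log y * (c / (8 * Real.log D) * S) ≤ Real.log y * (2 * y) := by linarith
        exact le_of_mul_le_mul_left h5 hly
      have h6 : S = (8 * Real.log D / c) * (c / (8 * Real.log D) * S) := by
        field_simp
      rw [h6]
      calc (8 * Real.log D / c) * (c / (8 * Real.log D) * S) ≤ (8 * Real.log D / c) * (2 * y) :=
            mul_le_mul_of_nonneg_left h4 (by positivity)
        _ = 16 / c * y * Real.log D := by ring
    -- the small primes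
    have hsmall : ∑ q ∈ Icc 1 D, ∫ β in (-T)..T, arcSum (L3b_f2 Q) (y + 1) q β ≤ 4 * y := by
      have h1 : ∀ q ∈ Icc 1 D, ∫ β in (-T)..T, arcSum (L3b_f2 Q) (y + 1) q β ≤ 4 * D := by
        intro q hq
        rw [Finset.mem_Icc] at hq
        have h2 : ∫ β in (-T)..T, arcSum (L3b_f2 Q) (y + 1) q β ≤ ∫ _β in (-T)..T, ((q : ℝ) * (2 * Q) ^ 2) := by
          apply intervalIntegral.integral_mono_on (by linarith)
            ((Pool.Agent.MC.continuous_arcSum _ _ q).intervalIntegrable _ _)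
            (continuous_const.intervalIntegrable _ _)
          intro β _
          exact L3b_small Q y q hQy β
        rw [intervalIntegral.integral_const, smul_eq_mul] at h2
        refine h2.trans ?_
        have h3 : (T - -T) * ((q : ℝ) * (2 * Q) ^ 2) = 4 * q * (2 * T * (Q : ℝ) ^ 2) := by ring
        rw [h3]
        have h4 : (q : ℝ) ≤ D := by exact_mod_cast hq.2
        have h5 : (0 : ℝ) ≤ q := Nat.cast_nonneg q
        have h6 : 0 ≤ 2 * T * (Q : ℝ) ^ 2 := by positivity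
        calc 4 * q * (2 * T * (Q : ℝ) ^ 2) ≤ 4 * q * 1 := mul_le_mul_of_nonneg_left hTQ (by linarith)
          _ ≤ 4 * D := by linarith
      refine (Finset.sum_le_sum h1).trans ?_
      rw [Finset.sum_const, Nat.card_Icc, nsmul_eq_mul]
      have h7 : D * D ≤ y := by
        have h8 : D ^ 2 ≤ D ^ 8 := Nat.pow_le_pow_right (by omega) (by norm_num)
        nlinarith
      have h9 : (D : ℝ) * D ≤ y := by exact_mod_cast h7
      have h10 : ((D + 1 - 1 : ℕ) : ℝ) = D := by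
        rw [Nat.add_sub_cancel]
      rw [h10]
      linarith
    have hsum : ∑ q ∈ Icc 1 D, ∫ β in (-T)..T, arcSum (fun n => ((th n : ℝ) : ℂ)) (y + 1) q β
        ≤ 2 * (∑ q ∈ Icc 1 D, ∫ β in (-T)..T, arcSum (L3b_f1 Q) (y + 1) q β)
          + 2 * (∑ q ∈ Icc 1 D, ∫ β in (-T)..T, arcSum (L3b_f2 Q) (y + 1) q β) := by
      rw [Finset.mul_sum, Finset.mul_sum, ← Finset.sum_add_distrib]
      apply Finset.sum_le_sum
      intro q _
      have i1 : IntervalIntegrable (fun β => 2 * arcSum (L3b_f1 Q) (y + 1) q β) volume (-T) T :=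
        (continuous_const.mul (Pool.Agent.MC.continuous_arcSum _ _ q)).intervalIntegrable _ _
      have i2 : IntervalIntegrable (fun β => 2 * arcSum (L3b_f2 Q) (y + 1) q β) volume (-T) T :=
        (continuous_const.mul (Pool.Agent.MC.continuous_arcSum _ _ q)).intervalIntegrable _ _
      have i3 : IntervalIntegrable (fun β => arcSum (fun n => ((th n : ℝ) : ℂ)) (y + 1) q β) volume (-T) T :=
        (Pool.Agent.MC.continuous_arcSum _ _ q).intervalIntegrable _ _
      rw [← intervalIntegral.integral_const_mul, ← intervalIntegral.integral_const_mul,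
        ← intervalIntegral.integral_add i1 i2]
      apply intervalIntegral.integral_mono_on (by linarith) i3 (i1.add i2)
      intro β _
      exact L3b_split Q y q β
    refine hsum.trans ?_
    have h11 : 0 ≤ 16 / c * y * Real.log D := by positivity
    have h12 : 0 ≤ 32 / c * y := by positivity
    have h13 : 0 ≤ y * Real.log D := by positivity
    have h14 : (32 / c + 8) * y * (1 + Real.log D) = 32 / c * y + 2 * (16 / c * y * Real.log D) + 8 * y
        + 8 * (y * Real.log D) := by ring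
    rw [h14]
    linarith
  refine ⟨2 * (32 / c + 8), by positivity, 256, ?_⟩
  intro y hy D hD hDy T hT0 hT
  have hy0 : (0 : ℝ) ≤ y := Nat.cast_nonneg y
  have hC : 0 ≤ (32 / c + 8) * y := by positivity
  have hlD : 0 ≤ Real.log (D : ℝ) := Real.log_nonneg (by exact_mod_cast hD)
  rcases Nat.lt_or_ge D 2 with h2 | h2
  · have hD1 : D = 1 := by omega
    subst hD1
    have h3 := key y hy 2 (le_refl 2) (by
      have : (256 : ℝ) ≤ y := by exact_mod_cast hy
      have h256 : ((2 : ℕ) : ℝ) ^ 8 = 256 := by norm_num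
      rw [h256]
      exact this) T hT0 hT
    have h4 : ∑ q ∈ Icc 1 1, ∫ β in (-T)..T, arcSum (fun n => ((th n : ℝ) : ℂ)) (y + 1) q β
        ≤ ∑ q ∈ Icc 1 2, ∫ β in (-T)..T, arcSum (fun n => ((th n : ℝ) : ℂ)) (y + 1) q β := by
      apply Finset.sum_le_sum_of_subset_of_nonneg
      · exact Finset.Icc_subset_Icc_right (by norm_num)
      · intro q _ _
        exact intervalIntegral.integral_nonneg (by linarith)
          fun β _ => Pool.Agent.MC.arcSum_nonneg _ _ q β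
    refine h4.trans (h3.trans ?_)
    have h5 := Real.log_two_lt_d9
    rw [Nat.cast_one, Real.log_one, add_zero, mul_one, Nat.cast_two]
    nlinarith
  · refine (key y hy D h2 hDy T hT0 hT).trans ?_
    have h6 : 0 ≤ (32 / c + 8) * y * (1 + Real.log D) := by positivity
    linarith

end Pool.Agent.PP
end

section

/-!
# F5: the weighted mean square on the arcs
-/

set_option autoImplicit false

namespace Pool.Agent.PP

open Finset MeasureTheory Real
open Pool.Agent.MC (ee expSum frac frac' arcSum fareySet)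
open Pool.Agent.Lib.MP_bae66e_nt.AP3 (Rough rset dset prI KT flEta FLP cset Om0 xb prm)

/-- powers are eventually smaller than exponentials -/
private lemma F5_ev (k : ℕ) (c K : ℝ) (hc : 0 < c) :
    ∀ᶠ L : ℝ in Filter.atTop, K * L ^ k ≤ Real.exp (c * L) := by
  have h1 := (isLittleO_pow_exp_pos_mul_atTop (k := k) hc).bound
    (show (0 : ℝ) < 1 / (|K| + 1) by positivity)
  filter_upwards [h1] with L hL
  rw [Real.norm_eq_abs, Real.norm_eq_abs, abs_of_pos (Real.exp_pos _)] at hL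
  have hK : 0 ≤ |K| := abs_nonneg K
  have h2 : K * L ^ k ≤ |K| * |L ^ k| := by
    rw [← abs_mul]
    exact le_abs_self _
  have h3 : |K| * |L ^ k| ≤ |K| * (1 / (|K| + 1) * Real.exp (c * L)) :=
    mul_le_mul_of_nonneg_left hL hK
  have h4 : |K| * (1 / (|K| + 1) * Real.exp (c * L)) =
      |K| / (|K| + 1) * Real.exp (c * L) := by ring
  have h5 : |K| / (|K| + 1) ≤ 1 := by
    rw [div_le_one (by positivity)]
    linarith
  have h6 := mul_le_of_le_one_left (Real.exp_pos (c * L)).le h5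
  linarith

private lemma F5_log_tendsto :
    Filter.Tendsto (fun y : ℕ => Real.log (y : ℝ)) Filter.atTop Filter.atTop :=
  Real.tendsto_log_atTop.comp tendsto_natCast_atTop_atTop

private lemma F5_ev2 : ∀ᶠ L : ℝ in Filter.atTop,
    1 + Real.log 2 + 12 * Real.log L ≤ L ^ (1 / 2 : ℝ) := by
  have h1 := (isLittleO_log_rpow_atTop (r := 1 / 2) (by norm_num)).bound
    (show (0 : ℝ) < 1 / 24 by norm_num)
  have h2 : Filter.Tendsto (fun L : ℝ => L ^ (1 / 2 : ℝ)) Filter.atTop Filter.atTop :=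
    tendsto_rpow_atTop (by norm_num)
  filter_upwards [h1, h2.eventually_ge_atTop 4, Filter.eventually_ge_atTop 1] with L h3 h4 h5
  rw [Real.norm_eq_abs, Real.norm_eq_abs, abs_of_nonneg (by positivity : 0 ≤ L ^ (1 / 2 : ℝ))] at h3
  have h6 := le_abs_self (Real.log L)
  have h7 := Real.log_two_lt_d9
  linarith

private lemma F5_summable :
    Summable (fun k : ℕ => (2 + (k : ℝ)) * ((2 : ℝ) ^ (-(1 / 9) : ℝ)) ^ k) := by
  have hx1 : ‖(2 : ℝ) ^ (-(1 / 9) : ℝ)‖ < 1 := by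
    rw [Real.norm_eq_abs, abs_of_pos (by positivity)]
    exact Real.rpow_lt_one_of_one_lt_of_neg (by norm_num) (by norm_num)
  have h1 := (summable_geometric_of_norm_lt_one hx1).mul_left 2
  have h2 := summable_pow_mul_geometric_of_norm_lt_one 1 hx1
  refine (h1.add h2).congr fun k => ?_
  ring

/-- PROOF. Let `I q = ∫ arcSum ≥ 0` and `S(D') = ∑_{q ≤ D'} I q ≤ C y (1 + log D')` for `D' ≤ D` (`arcs_L2`). For the first weight,
split `(0, D]` into `q ≤ 1` and `2^k < q ≤ 2^(k+1)`, `0 ≤ k`: there `(max Q0 q)^(-2/9) ≤ Q0^(-1/9) 2^(-k/9)`, so the sum is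
`≤ Q0^(-1/9) ∑_k 2^(-k/9) C y (2 + k) ≤ C' y Q0^(-1/9)`. The second is `S(D)/log y ≤ C y (1 + log D)/log y ≤ C y (log y)^(-1/2)` for
`D ≤ 2 (log y)^12`, `y` large. -/
lemma weighted_L2 : ∃ C : ℝ, 0 < C ∧ ∃ y₀ : ℕ, ∀ y : ℕ, y₀ ≤ y → ∀ Q0 D : ℕ, 1 ≤ Q0 → 1 ≤ D →
    (D : ℝ) ≤ 2 * Real.log y ^ 12 → ∀ T : ℝ, 0 ≤ T → 2 * T * Real.sqrt y ≤ 1 →
    ∑ q ∈ Icc 1 D, (((max Q0 q : ℕ) : ℝ) ^ (-(2 / 9) : ℝ) + 1 / Real.log y) *
      ∫ β in (-T)..T, arcSum (fun n => ((th n : ℝ) : ℂ)) (y + 1) q β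
      ≤ C * y * ((Q0 : ℝ) ^ (-(1 / 9) : ℝ) + Real.log y ^ (-(1 / 2) : ℝ)) := by
  obtain ⟨CA, hCA, yA, hA⟩ := arcs_L2
  have hsum := F5_summable
  set c9 : ℝ := ∑' k : ℕ, (2 + (k : ℝ)) * ((2 : ℝ) ^ (-(1 / 9) : ℝ)) ^ k with hc9
  have hc9' : 0 ≤ c9 := tsum_nonneg fun k => by positivity
  have hev : ∀ᶠ y : ℕ in Filter.atTop, 1 ≤ Real.log y ∧
      256 * Real.log y ^ 96 ≤ Real.exp (1 * Real.log y) ∧
      1 + Real.log 2 + 12 * Real.log (Real.log y) ≤ Real.log y ^ (1 / 2 : ℝ) := by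
    refine F5_log_tendsto.eventually (p := fun L : ℝ => 1 ≤ L ∧
      256 * L ^ 96 ≤ Real.exp (1 * L) ∧
      1 + Real.log 2 + 12 * Real.log L ≤ L ^ (1 / 2 : ℝ)) ?_
    filter_upwards [Filter.eventually_ge_atTop 1, F5_ev 96 1 256 (by norm_num), F5_ev2]
      with L h1 h2 h3
    exact ⟨h1, h2, h3⟩
  obtain ⟨y₀, hy₀⟩ := Filter.eventually_atTop.1 hev
  refine ⟨CA * (c9 + 1), by positivity, max (max y₀ yA) 1, fun y hy Q0 D hQ0 hD hDL T hT hT2 => ?_⟩
  obtain ⟨hL1, hL96, hLlog⟩ := hy₀ y (le_trans (le_trans (le_max_left _ _) (le_max_left _ _)) hy)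
  have hyA : yA ≤ y := le_trans (le_trans (le_max_right _ _) (le_max_left _ _)) hy
  have hy1 : 1 ≤ y := le_trans (le_max_right _ _) hy
  have hypos : (0 : ℝ) < y := by exact_mod_cast hy1
  set L : ℝ := Real.log y with hLdef
  have hLpos : 0 < L := by linarith
  have hyL : Real.exp (1 * L) = y := by rw [one_mul, hLdef, Real.exp_log hypos]
  have hDr : (1 : ℝ) ≤ D := by exact_mod_cast hD
  have hQ0r : (1 : ℝ) ≤ Q0 := by exact_mod_cast hQ0
  set I : ℕ → ℝ := fun q => ∫ β in (-T)..T, arcSum (fun n => ((th n : ℝ) : ℂ)) (y + 1) q β with hI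
  have hI0 : ∀ q, 0 ≤ I q := fun q =>
    intervalIntegral.integral_nonneg (by linarith) fun β _ => Pool.Agent.MC.arcSum_nonneg _ _ _ _
  have hD8 : (D : ℝ) ^ 8 ≤ y := by
    calc (D : ℝ) ^ 8 ≤ (2 * L ^ 12) ^ 8 := pow_le_pow_left₀ (by positivity) hDL 8
      _ = 256 * L ^ 96 := by ring
      _ ≤ y := by rw [← hyL]; exact hL96
  have hS : ∀ D' : ℕ, 1 ≤ D' → D' ≤ D → ∑ q ∈ Icc 1 D', I q ≤ CA * y * (1 + Real.log D') := by
    intro D' h1 h2
    refine hA y hyA D' h1 ?_ T hT hT2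
    refine le_trans (pow_le_pow_left₀ (by positivity) ?_ 8) hD8
    exact_mod_cast h2
  have hsplit : ∑ q ∈ Icc 1 D, (((max Q0 q : ℕ) : ℝ) ^ (-(2 / 9) : ℝ) + 1 / L) * I q =
      ∑ q ∈ Icc 1 D, ((max Q0 q : ℕ) : ℝ) ^ (-(2 / 9) : ℝ) * I q +
        1 / L * ∑ q ∈ Icc 1 D, I q := by
    rw [Finset.mul_sum, ← Finset.sum_add_distrib]
    exact Finset.sum_congr rfl fun q _ => by ring
  have h2nd : 1 / L * ∑ q ∈ Icc 1 D, I q ≤ CA * y * L ^ (-(1 / 2) : ℝ) := by
    have h1 := hS D hD le_rfl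
    have h2 : 1 + Real.log D ≤ L ^ (1 / 2 : ℝ) := by
      have h3 : Real.log D ≤ Real.log (2 * L ^ 12) := Real.log_le_log (by linarith) hDL
      rw [Real.log_mul (by norm_num) (by positivity), Real.log_pow] at h3
      push_cast at h3
      linarith
    have h4 : L ^ (1 / 2 : ℝ) / L = L ^ (-(1 / 2) : ℝ) := by
      rw [div_eq_iff hLpos.ne']
      nth_rewrite 3 [← Real.rpow_one L]
      rw [← Real.rpow_add hLpos]
      norm_num
    calc 1 / L * ∑ q ∈ Icc 1 D, I q ≤ 1 / L * (CA * y * L ^ (1 / 2 : ℝ)) := by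
          refine mul_le_mul_of_nonneg_left (h1.trans ?_) (by positivity)
          exact mul_le_mul_of_nonneg_left h2 (by positivity)
      _ = CA * y * (L ^ (1 / 2 : ℝ) / L) := by ring
      _ = CA * y * L ^ (-(1 / 2) : ℝ) := by rw [h4]
  have h1st : ∑ q ∈ Icc 1 D, ((max Q0 q : ℕ) : ℝ) ^ (-(2 / 9) : ℝ) * I q ≤
      CA * c9 * y * (Q0 : ℝ) ^ (-(1 / 9) : ℝ) := by
    set x : ℝ := (2 : ℝ) ^ (-(1 / 9) : ℝ) with hx
    have hx0 : 0 < x := by positivity
    have hw : ∀ q ∈ Icc 1 D, ((max Q0 q : ℕ) : ℝ) ^ (-(2 / 9) : ℝ) * I q ≤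
        (Q0 : ℝ) ^ (-(1 / 9) : ℝ) *
          ∑ k ∈ range (D + 1), x ^ k * (if q < 2 ^ (k + 1) then I q else 0) := by
      intro q hq
      rw [Finset.mem_Icc] at hq
      have hqr : (1 : ℝ) ≤ q := by exact_mod_cast hq.1
      have hm1 : (Q0 : ℝ) ≤ ((max Q0 q : ℕ) : ℝ) := by exact_mod_cast le_max_left _ _
      have hm2 : (q : ℝ) ≤ ((max Q0 q : ℕ) : ℝ) := by exact_mod_cast le_max_right _ _
      have hmpos : (0 : ℝ) < ((max Q0 q : ℕ) : ℝ) := by linarith
      have e1 : ((max Q0 q : ℕ) : ℝ) ^ (-(2 / 9) : ℝ) =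
          ((max Q0 q : ℕ) : ℝ) ^ (-(1 / 9) : ℝ) * ((max Q0 q : ℕ) : ℝ) ^ (-(1 / 9) : ℝ) := by
        rw [← Real.rpow_add hmpos]
        norm_num
      have e2 : ((max Q0 q : ℕ) : ℝ) ^ (-(1 / 9) : ℝ) ≤ (Q0 : ℝ) ^ (-(1 / 9) : ℝ) :=
        Real.rpow_le_rpow_of_nonpos (by linarith) hm1 (by norm_num)
      have e3 : ((max Q0 q : ℕ) : ℝ) ^ (-(1 / 9) : ℝ) ≤ (q : ℝ) ^ (-(1 / 9) : ℝ) :=
        Real.rpow_le_rpow_of_nonpos (by linarith) hm2 (by norm_num)
      set k : ℕ := Nat.log 2 q with hk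
      have hk1 : 2 ^ k ≤ q := Nat.pow_log_le_self 2 (by omega)
      have hk2 : q < 2 ^ (k + 1) := Nat.lt_pow_succ_log_self (by norm_num) q
      have hkD : k < D + 1 := by
        have : k < 2 ^ k := Nat.lt_two_pow_self
        omega
      have e4 : (q : ℝ) ^ (-(1 / 9) : ℝ) ≤ x ^ k := by
        have h5 : ((2 : ℝ) ^ k) ≤ q := by exact_mod_cast hk1
        have h6 : (q : ℝ) ^ (-(1 / 9) : ℝ) ≤ ((2 : ℝ) ^ k) ^ (-(1 / 9) : ℝ) :=
          Real.rpow_le_rpow_of_nonpos (by positivity) h5 (by norm_num)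
        refine le_trans h6 (le_of_eq ?_)
        rw [hx, ← Real.rpow_natCast, ← Real.rpow_natCast, ← Real.rpow_mul (by norm_num),
          ← Real.rpow_mul (by norm_num), mul_comm]
      have e5 : x ^ k * I q ≤
          ∑ k ∈ range (D + 1), x ^ k * (if q < 2 ^ (k + 1) then I q else 0) := by
        have h7 := Finset.single_le_sum (f := fun k : ℕ =>
          x ^ k * (if q < 2 ^ (k + 1) then I q else 0)) (s := range (D + 1)) (fun i _ => by
            refine mul_nonneg (by positivity) ?_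
            split_ifs
            · exact hI0 q
            · exact le_rfl) (Finset.mem_range.2 hkD)
        simp only [if_pos hk2] at h7
        exact h7
      have hQ9 : 0 ≤ (Q0 : ℝ) ^ (-(1 / 9) : ℝ) := by positivity
      calc ((max Q0 q : ℕ) : ℝ) ^ (-(2 / 9) : ℝ) * I q
          ≤ ((Q0 : ℝ) ^ (-(1 / 9) : ℝ) * x ^ k) * I q := by
            refine mul_le_mul_of_nonneg_right ?_ (hI0 q)
            rw [e1]
            exact mul_le_mul e2 (e3.trans e4) (by positivity) hQ9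
        _ = (Q0 : ℝ) ^ (-(1 / 9) : ℝ) * (x ^ k * I q) := by ring
        _ ≤ _ := mul_le_mul_of_nonneg_left e5 hQ9
    refine le_trans (Finset.sum_le_sum hw) ?_
    rw [← Finset.mul_sum, Finset.sum_comm]
    have hk : ∀ k ∈ range (D + 1),
        ∑ q ∈ Icc 1 D, x ^ k * (if q < 2 ^ (k + 1) then I q else 0) ≤
          CA * y * ((2 + (k : ℝ)) * x ^ k) := by
      intro k _
      rw [← Finset.mul_sum, ← Finset.sum_filter]
      set D' : ℕ := min D (2 ^ (k + 1)) with hD'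
      have hD'1 : 1 ≤ D' := le_min hD Nat.one_le_two_pow
      have h1 : ∑ q ∈ (Icc 1 D).filter (fun q => q < 2 ^ (k + 1)), I q ≤ ∑ q ∈ Icc 1 D', I q := by
        refine Finset.sum_le_sum_of_subset_of_nonneg ?_ (fun q _ _ => hI0 q)
        intro q hq
        rw [Finset.mem_filter, Finset.mem_Icc] at hq
        rw [Finset.mem_Icc]
        exact ⟨hq.1.1, le_min hq.1.2 hq.2.le⟩
      have h2 := hS D' hD'1 (min_le_left _ _)
      have h3 : Real.log D' ≤ k + 1 := by
        have h4 : (D' : ℝ) ≤ 2 ^ (k + 1) := by exact_mod_cast min_le_right _ _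
        have h5 : Real.log D' ≤ Real.log ((2 : ℝ) ^ (k + 1)) :=
          Real.log_le_log (by exact_mod_cast hD'1) h4
        rw [Real.log_pow] at h5
        push_cast at h5
        have h6 : Real.log 2 ≤ 1 := by
          have := Real.log_two_lt_d9
          linarith
        have h7 : ((k : ℝ) + 1) * Real.log 2 ≤ ((k : ℝ) + 1) * 1 :=
          mul_le_mul_of_nonneg_left h6 (by positivity)
        linarith
      calc x ^ k * ∑ q ∈ (Icc 1 D).filter (fun q => q < 2 ^ (k + 1)), I q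
          ≤ x ^ k * (CA * y * (2 + k)) := by
            refine mul_le_mul_of_nonneg_left (h1.trans (h2.trans ?_)) (by positivity)
            exact mul_le_mul_of_nonneg_left (by linarith) (by positivity)
        _ = CA * y * ((2 + (k : ℝ)) * x ^ k) := by ring
    have hQ9 : 0 ≤ (Q0 : ℝ) ^ (-(1 / 9) : ℝ) := by positivity
    have hfin : ∑ k ∈ range (D + 1), (2 + (k : ℝ)) * x ^ k ≤ c9 :=
      hsum.sum_le_tsum _ (fun k _ => by positivity)
    calc (Q0 : ℝ) ^ (-(1 / 9) : ℝ) * ∑ k ∈ range (D + 1),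
          ∑ q ∈ Icc 1 D, x ^ k * (if q < 2 ^ (k + 1) then I q else 0)
        ≤ (Q0 : ℝ) ^ (-(1 / 9) : ℝ) * ∑ k ∈ range (D + 1), CA * y * ((2 + (k : ℝ)) * x ^ k) :=
          mul_le_mul_of_nonneg_left (Finset.sum_le_sum hk) hQ9
      _ = (Q0 : ℝ) ^ (-(1 / 9) : ℝ) * (CA * y * ∑ k ∈ range (D + 1), (2 + (k : ℝ)) * x ^ k) := by
          rw [← Finset.mul_sum]
      _ ≤ (Q0 : ℝ) ^ (-(1 / 9) : ℝ) * (CA * y * c9) :=
          mul_le_mul_of_nonneg_left (mul_le_mul_of_nonneg_left hfin (by positivity)) hQ9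
      _ = CA * c9 * y * (Q0 : ℝ) ^ (-(1 / 9) : ℝ) := by ring
  rw [hsplit]
  have hQ9 : 0 ≤ (Q0 : ℝ) ^ (-(1 / 9) : ℝ) := by positivity
  have hL9 : 0 ≤ L ^ (-(1 / 2) : ℝ) := by positivity
  calc _ ≤ CA * c9 * y * (Q0 : ℝ) ^ (-(1 / 9) : ℝ) + CA * y * L ^ (-(1 / 2) : ℝ) :=
        add_le_add h1st h2nd
    _ ≤ CA * (c9 + 1) * y * ((Q0 : ℝ) ^ (-(1 / 9) : ℝ) + L ^ (-(1 / 2) : ℝ)) := by
        have e1 : 0 ≤ CA * y * (Q0 : ℝ) ^ (-(1 / 9) : ℝ) := by positivity
        have e2 : 0 ≤ CA * c9 * y * L ^ (-(1 / 2) : ℝ) := by positivity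
        nlinarith

end Pool.Agent.PP
end

section

/-!
# B4b: pairs of primes of a block
-/

set_option autoImplicit false

namespace Pool.Agent.PP

open Finset MeasureTheory Real
open Pool.Agent.MC (ee expSum frac frac' arcSum fareySet)
open Pool.Agent.Lib.MP_bae66e_nt.AP3 (Rough rset dset prI KT flEta FLP cset Om0 xb prm)

/-- PROOF. For each `p ∈ prI M (2M)` the number of `p' ∈ prI M (2M)` with `p' ≡ p [MOD g]` is `≤ 32 (M/log M)/φ(g)`
(`AP3.card_class_small`), and `card_prI_le`. -/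
lemma pair_class : ∃ C : ℝ, 0 < C ∧ ∀ M g : ℕ, 2 ≤ M → 1 ≤ g → g * g ≤ M →
    (#((prI M (2 * M) ×ˢ prI M (2 * M)).filter (fun x => x.1 ≡ x.2 [MOD g])) : ℝ)
      ≤ C * (M / Real.log M) ^ 2 / Nat.totient g := by
  obtain ⟨C, hC, hcard⟩ := card_prI_le
  refine ⟨C * 32, by positivity, fun M g hM hg hgM => ?_⟩
  have hlog : 0 < Real.log M := Real.log_pos (by exact_mod_cast hM)
  have hφ : (0 : ℝ) < Nat.totient g := by exact_mod_cast Nat.totient_pos.mpr hg
  have h1 : (#((prI M (2 * M) ×ˢ prI M (2 * M)).filter (fun x => x.1 ≡ x.2 [MOD g])) : ℝ) =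
      ∑ a ∈ prI M (2 * M), (#((prI M (2 * M)).filter (fun b => b ≡ a [MOD g])) : ℝ) := by
    rw [Finset.card_filter, Finset.sum_product, Nat.cast_sum]
    refine Finset.sum_congr rfl fun a _ => ?_
    rw [Finset.card_filter]
    congr 1
    refine Finset.sum_congr rfl fun b _ => ?_
    exact if_congr (Nat.ModEq.comm) rfl rfl
  rw [h1]
  have h2 : ∀ a ∈ prI M (2 * M), (#((prI M (2 * M)).filter (fun b => b ≡ a [MOD g])) : ℝ) ≤
      32 * (M / Real.log M) * (1 / Nat.totient g) := by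
    intro a ha
    have ha' := (Pool.Agent.Lib.MP_bae66e_nt.AP3.mem_prI.1 ha).1.1
    exact Pool.Agent.Lib.MP_bae66e_nt.AP3.card_class_small hg hM hgM ha'
  refine le_trans (Finset.sum_le_card_nsmul _ _ _ h2) ?_
  rw [nsmul_eq_mul]
  have h3 := hcard M hM
  have h4 : 0 ≤ 32 * ((M : ℝ) / Real.log M) * (1 / Nat.totient g) := by positivity
  calc (#(prI M (2 * M)) : ℝ) * (32 * (M / Real.log M) * (1 / Nat.totient g))
      ≤ C * M / Real.log M * (32 * (M / Real.log M) * (1 / Nat.totient g)) :=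
        mul_le_mul_of_nonneg_right h3 h4
    _ = C * 32 * (M / Real.log M) ^ 2 / Nat.totient g := by ring

end Pool.Agent.PP
end

section

/-!
# B4d: average over the pairs of primes of a block
-/

set_option autoImplicit false

namespace Pool.Agent.PP

open Finset MeasureTheory Real
open Pool.Agent.MC (ee expSum frac frac' arcSum fareySet)
open Pool.Agent.Lib.MP_bae66e_nt.AP3 (Rough rset dset prI KT flEta FLP cset Om0 xb prm)

/-- the weight of a pair -/
noncomputable def pw (q M : ℕ) (u : ℝ) (x : ℕ × ℕ) : ℝ :=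
  1 / ((Nat.totient (q / Nat.gcd q (Nat.dist x.1 x.2)) : ℝ) *
    max 1 (u * Nat.dist x.1 x.2 / (4 * M)))

/-- Case A. PROOF. `pw ≤ 1/φ(q/g)`, `g = gcd(q, |p - p'|)`; the pairs with a given `g ∣ q` satisfy `p ≡ p' [MOD g]`
(`Nat.dist` and `Nat.modEq_iff_dvd'`), `g ≤ q`, `g² ≤ M`: `∑ ≤ ∑_{g ∣ q} (1/φ(q/g)) C (M/log M)²/φ(g)` (`pair_class`) and `tot_conv`. -/
lemma pair_avg_q : ∃ C : ℝ, 0 < C ∧ ∀ (M q : ℕ) (u : ℝ), 2 ≤ M → 1 ≤ q → q * q ≤ M → 0 ≤ u →
    ∑ x ∈ prI M (2 * M) ×ˢ prI M (2 * M), pw q M u x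
      ≤ C * (M / Real.log M) ^ 2 / Real.sqrt q := by
  classical
  obtain ⟨C1, hC1, hcl⟩ := pair_class
  obtain ⟨C2, hC2, htc⟩ := tot_conv
  refine ⟨C1 * C2, by positivity, ?_⟩
  intro M q u hM hq hqM hu
  set P := prI M (2 * M) with hP
  have hq0 : 0 < q := by omega
  have hterm : ∀ x ∈ P ×ˢ P, pw q M u x
      ≤ ∑ g ∈ q.divisors, (if x.1 ≡ x.2 [MOD g] then 1 / (Nat.totient (q / g) : ℝ) else 0) := by
    intro x _
    set g := Nat.gcd q (Nat.dist x.1 x.2) with hg
    have hgq : g ∈ q.divisors := Nat.mem_divisors.mpr ⟨Nat.gcd_dvd_left _ _, hq0.ne'⟩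
    have hgd : g ∣ Nat.dist x.1 x.2 := Nat.gcd_dvd_right _ _
    have hmod : x.1 ≡ x.2 [MOD g] := by
      rcases le_total x.1 x.2 with h | h
      · rw [Nat.modEq_iff_dvd' h]
        rw [Nat.dist_eq_sub_of_le h] at hgd
        exact hgd
      · apply Nat.ModEq.symm
        rw [Nat.modEq_iff_dvd' h]
        rw [Nat.dist_comm, Nat.dist_eq_sub_of_le h] at hgd
        exact hgd
    have hg0 : 0 < g := Nat.gcd_pos_of_pos_left _ hq0
    have h1 : 0 < q / g := Nat.div_pos (Nat.le_of_dvd hq0 (Nat.gcd_dvd_left _ _)) hg0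
    have h2 : (1 : ℝ) ≤ (Nat.totient (q / g) : ℝ) := by exact_mod_cast Nat.totient_pos.mpr h1
    have h3 : (1 : ℝ) ≤ max 1 (u * Nat.dist x.1 x.2 / (4 * M)) := le_max_left _ _
    have h4 : pw q M u x ≤ 1 / (Nat.totient (q / g) : ℝ) := by
      unfold pw
      apply one_div_le_one_div_of_le (by linarith)
      nlinarith
    refine h4.trans ?_
    have h5 := Finset.single_le_sum (f := fun g => (if x.1 ≡ x.2 [MOD g] then 1 / (Nat.totient (q / g) : ℝ) else 0))
      (fun g _ => by split_ifs <;> positivity) hgq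
    rw [if_pos hmod] at h5
    exact h5
  refine (Finset.sum_le_sum hterm).trans ?_
  rw [Finset.sum_comm]
  have hg : ∀ g ∈ q.divisors, ∑ x ∈ P ×ˢ P, (if x.1 ≡ x.2 [MOD g] then 1 / (Nat.totient (q / g) : ℝ) else 0)
      ≤ C1 * (M / Real.log M) ^ 2 * (1 / ((Nat.totient g : ℝ) * Nat.totient (q / g))) := by
    intro g hg
    have hgq : g ≤ q := Nat.divisor_le hg
    have hg0 : 0 < g := Nat.pos_of_mem_divisors hg
    rw [← Finset.sum_filter, Finset.sum_const, nsmul_eq_mul]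
    have h1 := hcl M g hM hg0 (by nlinarith)
    rw [← hP] at h1
    calc (#((P ×ˢ P).filter (fun x => x.1 ≡ x.2 [MOD g])) : ℝ) * (1 / (Nat.totient (q / g) : ℝ))
        ≤ (C1 * (M / Real.log M) ^ 2 / Nat.totient g) * (1 / (Nat.totient (q / g) : ℝ)) := by
          apply mul_le_mul_of_nonneg_right h1 (by positivity)
      _ = C1 * (M / Real.log M) ^ 2 * (1 / ((Nat.totient g : ℝ) * Nat.totient (q / g))) := by
          rw [mul_one_div, div_div, mul_one_div]
  refine (Finset.sum_le_sum hg).trans ?_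
  rw [← Finset.mul_sum]
  calc C1 * (M / Real.log M) ^ 2 * ∑ g ∈ q.divisors, 1 / ((Nat.totient g : ℝ) * Nat.totient (q / g))
      ≤ C1 * (M / Real.log M) ^ 2 * (C2 / Real.sqrt q) := by
        apply mul_le_mul_of_nonneg_left (htc q hq) (by positivity)
    _ = C1 * C2 * (M / Real.log M) ^ 2 / Real.sqrt q := by ring

end Pool.Agent.PP
end
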