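import Pool.Agent.Lib.MP_bae66e_nt.Mg.G080
import Pool.Agent.Lib.MP_bae66e_nt.Mg.G085

section

/-!
# R4: exponential sums over rough integers
-/

set_option autoImplicit false

namespace Pool.Agent.PP

open Finset MeasureTheory Real
open Pool.Agent.MC (ee expSum frac frac' arcSum fareySet)
open Pool.Agent.Lib.MP_bae66e_nt.AP3 (Rough rset dset prI KT flEta FLP cset Om0 xb prm)

private lemma R4_lip (x y : ℝ) : ‖ee x - ee y‖ ≤ 7 * |x - y| := by
  have h1 : ee x - ee y = ee y * (ee (x - y) - 1) := by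
    rw [mul_sub, mul_one, ← Pool.Agent.MC.ee_add]
    congr 2
    ring
  rw [h1, norm_mul, Pool.Agent.MC.norm_ee, one_mul]
  have h2 : ee (x - y) = Complex.exp (Complex.I * ((2 * π * (x - y) : ℝ) : ℂ)) := by
    unfold ee
    congr 1
    push_cast
    ring
  rw [h2]
  refine Real.norm_exp_I_mul_ofReal_sub_one_le.trans ?_
  rw [Real.norm_eq_abs, abs_mul, abs_of_pos (by positivity : (0 : ℝ) < 2 * π)]
  have := Real.pi_lt_d2
  exact mul_le_mul_of_nonneg_right (by linarith) (abs_nonneg _)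

private lemma R4_cut (G N : ℕ) (hG : 0 < G) (F : ℕ → ℂ) :
    ∑ m ∈ Ioc 0 N, F m = ∑ i ∈ range G, ∑ m ∈ Ioc (i * N / G) ((i + 1) * N / G), F m := by
  have h : ∀ n : ℕ, ∑ m ∈ Ioc 0 (n * N / G), F m
      = ∑ i ∈ range n, ∑ m ∈ Ioc (i * N / G) ((i + 1) * N / G), F m := by
    intro n
    induction n with
    | zero => simp
    | succ n ih =>
      rw [Finset.sum_range_succ, ← ih]
      rw [Finset.sum_Ioc_consecutive F (Nat.zero_le _)
        (Nat.div_le_div_right (Nat.mul_le_mul_right N (Nat.le_succ n)))]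
  have h1 := h G
  rw [Nat.mul_div_cancel_left N hG] at h1
  exact h1

private lemma R4_len (G N i : ℕ) (hG : 0 < G) :
    ((((i + 1) * N / G : ℕ) : ℝ) - ((i * N / G : ℕ) : ℝ)) ≤ (N : ℝ) / G + 1 := by
  have hG' : (0 : ℝ) < G := by exact_mod_cast hG
  have h1 : (((i + 1) * N / G : ℕ) : ℝ) ≤ ((i : ℝ) + 1) * N / G := by
    refine Nat.cast_div_le.trans ?_
    push_cast
    exact le_refl _
  have h2 : ((i : ℝ) * N / G) - 1 < ((i * N / G : ℕ) : ℝ) := by
    have h3 : i * N < (i * N / G + 1) * G := Nat.lt_mul_of_div_lt (Nat.lt_succ_self _) hG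
    have h4 : (i : ℝ) * N < (((i * N / G : ℕ) : ℝ) + 1) * G := by exact_mod_cast h3
    have h5 : (i : ℝ) * N / G < ((i * N / G : ℕ) : ℝ) + 1 := by
      rw [div_lt_iff₀ hG']
      exact h4
    linarith
  have h6 : ((i : ℝ) + 1) * N / G = (i : ℝ) * N / G + N / G := by ring
  linarith

/-- replacing the phase by a constant on each piece -/
private lemma R4_step (G N : ℕ) (hG : 0 < G) (θ δ : ℝ) (g : ℕ → ℂ)
    (hδ : 7 * (((N : ℝ) / G + 1) * |θ|) ≤ δ) :
    ‖∑ m ∈ Ioc 0 N, g m * ee ((m : ℝ) * θ)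
      - ∑ i ∈ range G, ee (((i * N / G : ℕ) : ℝ) * θ) * ∑ m ∈ Ioc (i * N / G) ((i + 1) * N / G), g m‖
      ≤ δ * ∑ m ∈ Ioc 0 N, ‖g m‖ := by
  rw [R4_cut G N hG (fun m => g m * ee ((m : ℝ) * θ)), ← Finset.sum_sub_distrib]
  have hR : ∑ m ∈ Ioc 0 N, ‖g m‖ = ∑ i ∈ range G, ∑ m ∈ Ioc (i * N / G) ((i + 1) * N / G), ‖g m‖ := by
    have h1 := R4_cut G N hG (fun m => ((‖g m‖ : ℝ) : ℂ))
    exact_mod_cast h1
  rw [hR, Finset.mul_sum]
  refine (norm_sum_le _ _).trans (Finset.sum_le_sum ?_)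
  intro i _
  rw [Finset.mul_sum, ← Finset.sum_sub_distrib, Finset.mul_sum]
  refine (norm_sum_le _ _).trans (Finset.sum_le_sum ?_)
  intro m hm
  rw [Finset.mem_Ioc] at hm
  have h1 : g m * ee ((m : ℝ) * θ) - ee (((i * N / G : ℕ) : ℝ) * θ) * g m
      = g m * (ee ((m : ℝ) * θ) - ee (((i * N / G : ℕ) : ℝ) * θ)) := by ring
  rw [h1, norm_mul, mul_comm]
  apply mul_le_mul_of_nonneg_right _ (norm_nonneg _)
  refine (R4_lip _ _).trans (le_trans ?_ hδ)
  have h2 : |(m : ℝ) * θ - ((i * N / G : ℕ) : ℝ) * θ| = ((m : ℝ) - ((i * N / G : ℕ) : ℝ)) * |θ| := by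
    rw [← sub_mul, abs_mul, abs_of_nonneg]
    have : ((i * N / G : ℕ) : ℝ) ≤ m := by exact_mod_cast hm.1.le
    linarith
  rw [h2]
  have h3 : (m : ℝ) ≤ (((i + 1) * N / G : ℕ) : ℝ) := by exact_mod_cast hm.2
  have h4 := R4_len G N i hG
  have h5 : ((m : ℝ) - ((i * N / G : ℕ) : ℝ)) * |θ| ≤ ((N : ℝ) / G + 1) * |θ| := by
    apply mul_le_mul_of_nonneg_right _ (abs_nonneg _)
    linarith
  linarith

/-- PROOF. If `N < B0²` the left side is `≤ N ≤ B0² q E`. So let `N ≥ B0² ≥ 4`. Let `G = ⌈B0²⌉₊` (`≤ 2 B0²`) and cut `(0, N]` at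
`A_i = i N / G` (natural division), `0 ≤ i ≤ G`; pieces of length `≤ N/G + 1 ≤ N/B0² + 1 ≤ 2 N/B0²`. On the piece `i`,
`‖ee (m θ) - ee (A_i θ)‖ ≤ 2 π |θ| 2 N/B0² ≤ 4 π/B0 ≤ 13/B0` (as `N |θ| ≤ B0`). Hence with `κ` of `rough_piece`
`‖∑_{m ≤ N rough} ee (m (a/q + θ)) - ∑_i ee (A_i θ) κ (A_{i+1} - A_i)‖ ≤ (13/B0) #{m ≤ N rough} + ∑_i (η (A_{i+1} - A_i) KT z + q E)
≤ (13/B0) (2 KT z N + E) + η KT z N + 2 B0² q E` (count: FLP for `q = 1`, `a = 0`, `RR z 1 = prI 0 z`, `η ≤ 1`).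
Also `‖∑_i ee (A_i θ) (A_{i+1} - A_i) - ∑_{m ≤ N} ee (m θ)‖ ≤ 13 N/B0` and `‖∑_{m ≤ N} ee (m θ)‖ ≤ GG N θ = N/max 1 (N |θ|)`
(`geo_sum`, `dn_eq_abs`, `|θ| ≤ B0/N ≤ 1/B0 ≤ 1/2`), and `‖κ‖ ≤ KT z/φ(q) ≤ KT z`. -/
lemma rough_exp_of_FLP (z q a N : ℕ) (θ B0 η E : ℝ) (hq : 1 ≤ q) (ha : Nat.Coprime a q)
    (hB0 : 2 ≤ B0) (hθ : N * |θ| ≤ B0) (hη : 0 ≤ η) (hη1 : η ≤ 1) (hE : 1 ≤ E)
    (hFL : ∀ A B : ℕ, A ≤ B → B ≤ N → FLP Om0 A B (RR z q) η E ∧ FLP Om0 A B (RR z 1) η E) :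
    ‖∑ m ∈ (Icc 1 N).filter (fun m => ∀ l ∈ prI 0 z, ¬ l ∣ m), ee ((m : ℝ) * (a / q + θ))‖
      ≤ 100 * (KT z * N / (Nat.totient q * max 1 (N * |θ|)) + KT z * N * (η + 1 / B0)
        + B0 ^ 2 * q * E) := by
  have hKT0 : 0 < KT z := Pool.Agent.Lib.MP_bae66e_nt.AP3.KT_pos z
  have hq1 : (1 : ℝ) ≤ q := by exact_mod_cast hq
  have hphi : (1 : ℝ) ≤ (Nat.totient q : ℝ) := by
    exact_mod_cast Nat.totient_pos.mpr hq
  have hN0 : (0 : ℝ) ≤ N := Nat.cast_nonneg N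
  have hmax : (1 : ℝ) ≤ max 1 (N * |θ|) := le_max_left _ _
  have hB00 : 0 < B0 := by linarith
  have hterm1 : 0 ≤ KT z * N / (Nat.totient q * max 1 (N * |θ|)) := by positivity
  have hterm2 : 0 ≤ KT z * N * (η + 1 / B0) := by positivity
  have hBq : B0 ^ 2 ≤ B0 ^ 2 * q * E := by
    have h1 : 1 ≤ q * E := one_le_mul_of_one_le_of_one_le hq1 hE
    have h2 : 0 ≤ B0 ^ 2 := sq_nonneg _
    rw [mul_assoc]
    exact le_mul_of_one_le_right h2 h1
  rcases lt_or_ge (N : ℝ) (B0 ^ 2) with hNB | hNB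
  · -- few integers
    have h1 : ‖∑ m ∈ (Icc 1 N).filter (fun m => ∀ l ∈ prI 0 z, ¬ l ∣ m), ee ((m : ℝ) * (a / q + θ))‖ ≤ N := by
      refine (norm_sum_le _ _).trans ?_
      have h2 : ∀ m ∈ (Icc 1 N).filter (fun m => ∀ l ∈ prI 0 z, ¬ l ∣ m),
          ‖ee ((m : ℝ) * (a / q + θ))‖ = 1 := fun m _ => Pool.Agent.MC.norm_ee _
      rw [Finset.sum_congr rfl h2, Finset.sum_const, nsmul_eq_mul, mul_one]
      have h3 : #((Icc 1 N).filter (fun m => ∀ l ∈ prI 0 z, ¬ l ∣ m)) ≤ N := by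
        refine (Finset.card_filter_le _ _).trans ?_
        rw [Nat.card_Icc]
        omega
      exact_mod_cast h3
    have h4 : 0 ≤ B0 ^ 2 * q * E := (sq_nonneg _).trans hBq
    linarith
  · obtain ⟨κ, hκ, hpiece⟩ := rough_piece z q a hq ha
    set G := ⌈B0 ^ 2⌉₊ with hG
    have hGge : B0 ^ 2 ≤ G := Nat.le_ceil _
    have hGle : (G : ℝ) ≤ 2 * B0 ^ 2 := by
      have h1 : (G : ℝ) < B0 ^ 2 + 1 := Nat.ceil_lt_add_one (sq_nonneg _)
      have h2 : 1 ≤ B0 ^ 2 := one_le_pow₀ (by linarith)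
      linarith
    have hB4 : (4 : ℝ) ≤ B0 ^ 2 := by
      calc (4 : ℝ) = 2 ^ 2 := by norm_num
        _ ≤ B0 ^ 2 := pow_le_pow_left₀ (by norm_num) hB0 2
    have hGpos : 0 < G := by
      have : (0 : ℝ) < G := by linarith
      exact_mod_cast this
    have hGR : (0 : ℝ) < G := by exact_mod_cast hGpos
    have hNpos : (0 : ℝ) < N := by linarith
    -- the phase varies little
    have hδ : 7 * (((N : ℝ) / G + 1) * |θ|) ≤ 14 / B0 := by
      have h1 : (N : ℝ) / G + 1 ≤ 2 * (N / B0 ^ 2) := by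
        have h2 : (N : ℝ) / G ≤ N / B0 ^ 2 := div_le_div_of_nonneg_left hN0 (by positivity) hGge
        have h3 : 1 ≤ (N : ℝ) / B0 ^ 2 := by
          rw [le_div_iff₀ (by positivity)]
          linarith
        linarith
      have h4 : ((N : ℝ) / G + 1) * |θ| ≤ 2 / B0 := by
        calc ((N : ℝ) / G + 1) * |θ| ≤ (2 * (N / B0 ^ 2)) * |θ| :=
              mul_le_mul_of_nonneg_right h1 (abs_nonneg _)
          _ = 2 * (N * |θ|) / B0 ^ 2 := by ring
          _ ≤ 2 * B0 / B0 ^ 2 := by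
              apply div_le_div_of_nonneg_right _ (by positivity)
              linarith
          _ = 2 / B0 := by field_simp
      calc 7 * (((N : ℝ) / G + 1) * |θ|) ≤ 7 * (2 / B0) := by linarith
        _ = 14 / B0 := by ring
    set g : ℕ → ℂ := fun m => if ∀ l ∈ prI 0 z, ¬ l ∣ m then ee ((m : ℝ) * (a / q)) else 0 with hg
    have hgn : ∀ m, ‖g m‖ = if ∀ l ∈ prI 0 z, ¬ l ∣ m then 1 else 0 := by
      intro m
      rw [hg]
      simp only
      split_ifs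
      · exact Pool.Agent.MC.norm_ee _
      · exact norm_zero
    have hLHS : ∑ m ∈ (Icc 1 N).filter (fun m => ∀ l ∈ prI 0 z, ¬ l ∣ m), ee ((m : ℝ) * (a / q + θ))
        = ∑ m ∈ Ioc 0 N, g m * ee ((m : ℝ) * θ) := by
      have h0 : Icc 1 N = Ioc 0 N := by
        ext x
        rw [Finset.mem_Icc, Finset.mem_Ioc]
        exact Iff.rfl
      rw [h0, Finset.sum_filter]
      apply Finset.sum_congr rfl
      intro m _
      rw [hg]
      simp only
      split_ifs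
      · rw [← Pool.Agent.MC.ee_add]
        congr 1
        ring
      · rw [zero_mul]
    rw [hLHS]
    -- the count of rough integers
    have hcount : ∑ m ∈ Ioc 0 N, ‖g m‖ ≤ 2 * (KT z * N) + E := by
      have h1 : ∑ m ∈ Ioc 0 N, ‖g m‖ = (#((Ioc 0 N).filter (fun m => ∀ l ∈ prI 0 z, ¬ l ∣ m)) : ℝ) := by
        rw [Finset.sum_congr rfl (fun m _ => hgn m), Finset.sum_ite, Finset.sum_const_zero, add_zero,
          Finset.sum_const, nsmul_eq_mul, mul_one]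
      have hfl1 := (hFL 0 N (Nat.zero_le _) (le_refl _)).2
      have hP1 : Nat.Coprime 0 (PZ z 1) := by
        have : PZ z 1 = 1 := by
          have := PZ_dvd z 1 (le_refl 1)
          exact Nat.dvd_one.mp this
        rw [this]
        exact Nat.coprime_one_right 0
      have h2 := class_count z 1 0 0 N η E (le_refl 1) hfl1 hP1
      have h3 : (Ioc 0 N).filter (fun m => m ≡ 0 [MOD 1] ∧ ∀ l ∈ prI 0 z, ¬ l ∣ m)
          = (Ioc 0 N).filter (fun m => ∀ l ∈ prI 0 z, ¬ l ∣ m) := by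
        apply Finset.filter_congr
        intro m _
        constructor
        · intro h; exact h.2
        · intro h; exact ⟨Nat.modEq_one, h⟩
      have h4 : ∏ l ∈ RR z 1, (1 - 1 / (l : ℝ)) = KT z := by
        unfold RR KT
        apply Finset.prod_congr _ (fun _ _ => rfl)
        apply Finset.filter_true_of_mem
        intro l hl hl1
        have := (Pool.Agent.Lib.MP_bae66e_nt.AP3.mem_prI.mp hl).2.one_lt
        have := Nat.dvd_one.mp hl1
        omega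
      rw [h3, h4] at h2
      rw [h1]
      simp only [Nat.cast_zero, sub_zero, Nat.cast_one, div_one] at h2
      have h5 := (abs_le.mp h2).2
      have h6 : η * (N * KT z) ≤ 1 * (N * KT z) := mul_le_mul_of_nonneg_right hη1 (by positivity)
      linarith
    have hs1 := R4_step G N hGpos θ (14 / B0) g hδ
    -- the model
    have hs2 := R4_step G N hGpos θ (14 / B0) (fun _ => 1) hδ
    -- pieces
    have hpc : ‖∑ i ∈ range G, ee (((i * N / G : ℕ) : ℝ) * θ) * ∑ m ∈ Ioc (i * N / G) ((i + 1) * N / G), g m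
        - κ * ∑ i ∈ range G, ee (((i * N / G : ℕ) : ℝ) * θ)
            * ∑ m ∈ Ioc (i * N / G) ((i + 1) * N / G), (1 : ℂ)‖
        ≤ η * (N * KT z) + G * (q * E) := by
      rw [Finset.mul_sum, ← Finset.sum_sub_distrib]
      have hone : ∀ i ∈ range G, ‖ee (((i * N / G : ℕ) : ℝ) * θ) * ∑ m ∈ Ioc (i * N / G) ((i + 1) * N / G), g m
          - κ * (ee (((i * N / G : ℕ) : ℝ) * θ) * ∑ m ∈ Ioc (i * N / G) ((i + 1) * N / G), (1 : ℂ))‖
          ≤ η * KT z * ∑ m ∈ Ioc (i * N / G) ((i + 1) * N / G), (1 : ℝ) + q * E := by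
        intro i hi
        rw [Finset.mem_range] at hi
        have hle : i * N / G ≤ (i + 1) * N / G :=
          Nat.div_le_div_right (Nat.mul_le_mul_right N (Nat.le_succ i))
        have hleN : (i + 1) * N / G ≤ N := by
          calc (i + 1) * N / G ≤ G * N / G := Nat.div_le_div_right (Nat.mul_le_mul_right N hi)
            _ = N := Nat.mul_div_cancel_left N hGpos
        have h1 := hpiece _ _ η E hle hη (by linarith) (hFL _ _ hle hleN).1
        have h2 : ∑ m ∈ Ioc (i * N / G) ((i + 1) * N / G), g m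
            = ∑ m ∈ (Ioc (i * N / G) ((i + 1) * N / G)).filter (fun m => ∀ l ∈ prI 0 z, ¬ l ∣ m),
              ee ((m : ℝ) * (a / q)) := by
          rw [Finset.sum_filter]
        have h3 : ∀ c : ℂ, c * ee (((i * N / G : ℕ) : ℝ) * θ) = ee (((i * N / G : ℕ) : ℝ) * θ) * c :=
          fun c => mul_comm _ _
        have h4 : ∑ m ∈ Ioc (i * N / G) ((i + 1) * N / G), (1 : ℂ)
            = ((((((i + 1) * N / G : ℕ) : ℝ) - ((i * N / G : ℕ) : ℝ)) : ℝ) : ℂ) := by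
          rw [Finset.sum_const, Nat.card_Ioc, nsmul_eq_mul, mul_one, Nat.cast_sub hle]
          push_cast
          rfl
        have h5 : ∑ m ∈ Ioc (i * N / G) ((i + 1) * N / G), (1 : ℝ)
            = (((i + 1) * N / G : ℕ) : ℝ) - ((i * N / G : ℕ) : ℝ) := by
          rw [Finset.sum_const, Nat.card_Ioc, nsmul_eq_mul, mul_one, Nat.cast_sub hle]
        rw [← h2] at h1
        rw [h4, h5]
        have h6 : ee (((i * N / G : ℕ) : ℝ) * θ) * ∑ m ∈ Ioc (i * N / G) ((i + 1) * N / G), g m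
            - κ * (ee (((i * N / G : ℕ) : ℝ) * θ)
              * ((((((i + 1) * N / G : ℕ) : ℝ) - ((i * N / G : ℕ) : ℝ)) : ℝ) : ℂ))
            = ee (((i * N / G : ℕ) : ℝ) * θ) * (∑ m ∈ Ioc (i * N / G) ((i + 1) * N / G), g m
              - κ * ((((((i + 1) * N / G : ℕ) : ℝ) - ((i * N / G : ℕ) : ℝ)) : ℝ) : ℂ)) := by
          ring
        rw [h6, norm_mul, Pool.Agent.MC.norm_ee, one_mul]
        refine h1.trans (le_of_eq ?_)
        ring
      refine (norm_sum_le _ _).trans ((Finset.sum_le_sum hone).trans ?_)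
      rw [Finset.sum_add_distrib, ← Finset.mul_sum, Finset.sum_const, Finset.card_range, nsmul_eq_mul]
      have h7 : ∑ i ∈ range G, ∑ m ∈ Ioc (i * N / G) ((i + 1) * N / G), (1 : ℝ) = N := by
        have h8 := R4_cut G N hGpos (fun _ => 1)
        have h9 : ∑ m ∈ Ioc 0 N, (1 : ℝ) = ∑ i ∈ range G, ∑ m ∈ Ioc (i * N / G) ((i + 1) * N / G), (1 : ℝ) := by
          exact_mod_cast h8
        rw [← h9]
        simp
      rw [h7]
      linarith
    -- the geometric sum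
    have hgeo : ‖∑ m ∈ Ioc 0 N, (1 : ℂ) * ee ((m : ℝ) * θ)‖ ≤ N / max 1 (N * |θ|) := by
      have h1 := geo_sum θ 0 N (Nat.zero_le _)
      have h2 : |θ| ≤ 1 / 2 := by
        have h3 : |θ| ≤ B0 / N := by
          rw [le_div_iff₀ hNpos, mul_comm]
          exact hθ
        have h4 : B0 / N ≤ 1 / B0 := by
          rw [div_le_div_iff₀ hNpos hB00, one_mul, ← sq]
          exact hNB
        have h5 : 1 / B0 ≤ 1 / 2 := div_le_div_of_nonneg_left (by norm_num) (by norm_num) hB0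
        linarith
      simp only [one_mul]
      refine h1.trans (le_of_eq ?_)
      unfold GG
      rw [dn_eq_abs h2, Nat.cast_zero, sub_zero]
    have hsum1 : ∑ m ∈ Ioc 0 N, ‖(1 : ℂ)‖ = N := by simp
    rw [hsum1] at hs2
    have hκ1 : ‖κ‖ ≤ KT z := by
      refine hκ.trans ?_
      rw [div_le_iff₀ (by linarith)]
      exact le_mul_of_one_le_right hKT0.le hphi
    -- assembly
    set S0 := ∑ m ∈ Ioc 0 N, g m * ee ((m : ℝ) * θ) with hS0
    set S1 := ∑ i ∈ range G, ee (((i * N / G : ℕ) : ℝ) * θ) * ∑ m ∈ Ioc (i * N / G) ((i + 1) * N / G), g m with hS1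
    set T0 := ∑ m ∈ Ioc 0 N, (1 : ℂ) * ee ((m : ℝ) * θ) with hT0
    set T1 := ∑ i ∈ range G, ee (((i * N / G : ℕ) : ℝ) * θ)
      * ∑ m ∈ Ioc (i * N / G) ((i + 1) * N / G), (1 : ℂ) with hT1
    have hdec : S0 = (S0 - S1) + (S1 - κ * T1) + κ * T0 - κ * (T0 - T1) := by ring
    have hn : ‖S0‖ ≤ ‖S0 - S1‖ + ‖S1 - κ * T1‖ + ‖κ‖ * ‖T0‖ + ‖κ‖ * ‖T0 - T1‖ := by
      conv_lhs => rw [hdec]
      refine (norm_sub_le _ _).trans ?_
      rw [norm_mul κ (T0 - T1)]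
      have h1 : ‖(S0 - S1) + (S1 - κ * T1) + κ * T0‖ ≤ ‖S0 - S1‖ + ‖S1 - κ * T1‖ + ‖κ‖ * ‖T0‖ := by
        refine (norm_add_le _ _).trans ?_
        rw [norm_mul κ T0]
        have := norm_add_le (S0 - S1) (S1 - κ * T1)
        linarith
      linarith
    have b1 : ‖S0 - S1‖ ≤ 14 / B0 * (2 * (KT z * N) + E) :=
      hs1.trans (mul_le_mul_of_nonneg_left hcount (by positivity))
    have b2 : ‖κ‖ * ‖T0‖ ≤ KT z * N / (Nat.totient q * max 1 (N * |θ|)) := by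
      calc ‖κ‖ * ‖T0‖ ≤ (KT z / Nat.totient q) * (N / max 1 (N * |θ|)) :=
            mul_le_mul hκ hgeo (norm_nonneg _) (by positivity)
        _ = KT z * N / (Nat.totient q * max 1 (N * |θ|)) := by
            rw [div_mul_div_comm]
    have b3 : ‖κ‖ * ‖T0 - T1‖ ≤ KT z * (14 / B0 * N) :=
      mul_le_mul hκ1 hs2 (norm_nonneg _) hKT0.le
    have b4 : 14 / B0 * E ≤ 7 * (B0 ^ 2 * q * E) := by
      have h1 : 14 / B0 ≤ 7 := by
        rw [div_le_iff₀ hB00]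
        linarith
      have h2 : E ≤ B0 ^ 2 * q * E := by
        have h3 : 1 ≤ B0 ^ 2 * q := one_le_mul_of_one_le_of_one_le (one_le_pow₀ (by linarith)) hq1
        exact le_mul_of_one_le_left (by linarith) h3
      calc 14 / B0 * E ≤ 7 * E := mul_le_mul_of_nonneg_right h1 (by linarith)
        _ ≤ 7 * (B0 ^ 2 * q * E) := by linarith
    have b5 : (G : ℝ) * (q * E) ≤ 2 * (B0 ^ 2 * q * E) := by
      have h1 : 0 ≤ q * E := by positivity
      calc (G : ℝ) * (q * E) ≤ (2 * B0 ^ 2) * (q * E) := mul_le_mul_of_nonneg_right hGle h1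
        _ = 2 * (B0 ^ 2 * q * E) := by ring
    have e1 : 14 / B0 * (2 * (KT z * N) + E) = 28 * (KT z * N * (1 / B0)) + 14 / B0 * E := by ring
    have e2 : KT z * (14 / B0 * N) = 14 * (KT z * N * (1 / B0)) := by ring
    have e3 : KT z * N * (η + 1 / B0) = KT z * N * η + KT z * N * (1 / B0) := by ring
    have p1 : 0 ≤ KT z * N * η := by positivity
    have p2 : 0 ≤ KT z * N * (1 / B0) := by positivity
    have p3 : 0 ≤ B0 ^ 2 * q * E := (sq_nonneg _).trans hBq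
    have e4 : η * (N * KT z) = KT z * N * η := by ring
    rw [e1] at b1
    rw [e2] at b3
    rw [e3]
    have hpc' := hpc
    rw [e4] at hpc'
    linarith

end Pool.Agent.PP
end

section

/-!
# R5: exponential sums over rough integers, with the fundamental lemma
-/

set_option autoImplicit false

namespace Pool.Agent.PP

open Finset MeasureTheory Real
open Pool.Agent.MC (ee expSum frac frac' arcSum fareySet)
open Pool.Agent.Lib.MP_bae66e_nt.AP3 (Rough rset dset prI KT flEta FLP cset Om0 xb prm)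

open Classical in
/-- PROOF. `AP3.exists_L0`, `AP3.fl_main` (with `Om0`: `xb_Om0_le`, `card_Om0_le`; `b0` large enough for its hypothesis and so that
`flEta L0 b ≤ 1`), `E = E0 J b z ≥ 1`, and `rough_exp_of_FLP`. (`Rough z m ↔ ∀ l ∈ prI 0 z, ¬ l ∣ m`: `AP3.rough_iff`.) -/
theorem rough_exp : ∃ L0 : ℝ, 1 ≤ L0 ∧ ∃ b0 : ℕ, ∀ b J z : ℕ, b0 ≤ b → 2 ≤ z → z < 2 ^ (2 ^ J) →
    flEta L0 b ≤ 1 ∧ ∀ (q a N : ℕ) (θ B0 : ℝ), 1 ≤ q → Nat.Coprime a q → 2 ≤ B0 → N * |θ| ≤ B0 →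
    ‖∑ m ∈ (Icc 1 N).filter (fun m => Rough z m), ee ((m : ℝ) * (a / q + θ))‖
      ≤ 100 * (KT z * N / (Nat.totient q * max 1 (N * |θ|)) + KT z * N * (flEta L0 b + 1 / B0)
        + B0 ^ 2 * q * E0 J b z) := by
  obtain ⟨L0, hL01, hL0⟩ := Pool.Agent.Lib.MP_bae66e_nt.AP3.exists_L0
  have hlim := FloorSemiring.tendsto_pow_div_factorial_atTop L0
  obtain ⟨b1, hb1⟩ := Filter.eventually_atTop.mp
    ((tendsto_order.mp hlim).2 1 one_pos)
  refine ⟨L0, hL01, max ⌈(Real.exp (3 * L0) + 2 * Real.exp (2 * L0)) * L0⌉₊ b1, ?_⟩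
  intro b J z hb hz hzJ
  have hη1 : flEta L0 b ≤ 1 := (hb1 b ((le_max_right _ _).trans hb)).le
  have hη0 : 0 ≤ flEta L0 b := by
    unfold flEta
    positivity
  refine ⟨hη1, ?_⟩
  intro q a N θ B0 hq ha hB0 hθ
  have hE1 : 1 ≤ E0 J b z := by
    unfold E0
    have h1 : (1 : ℝ) ≤ 3 ^ ((J + 1) * (b + J + 1)) := one_le_pow₀ (by norm_num)
    have h2 : (1 : ℝ) ≤ (z : ℝ) ^ (2 * b + 4) := one_le_pow₀ (by exact_mod_cast (by omega : 1 ≤ z))
    nlinarith
  have hFL : ∀ (q' : ℕ) (A B : ℕ), A ≤ B → FLP Om0 A B (RR z q') (flEta L0 b) (E0 J b z) := by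
    intro q' A B hAB
    apply Pool.Agent.Lib.MP_bae66e_nt.AP3.fl_main L0 hL01 hL0
      ⌈(Real.exp (3 * L0) + 2 * Real.exp (2 * L0)) * L0⌉₊ (by
        have := Nat.le_ceil ((Real.exp (3 * L0) + 2 * Real.exp (2 * L0)) * L0)
        linarith) J b z ((le_max_left _ _).trans hb) (by omega) hzJ Om0 A B hAB
        Pool.Agent.Lib.MP_bae66e_nt.AP3.xb_Om0_le Pool.Agent.Lib.MP_bae66e_nt.AP3.card_Om0_le
    · intro l hl
      unfold RR at hl
      rw [Finset.mem_filter, Pool.Agent.Lib.MP_bae66e_nt.AP3.mem_prI] at hl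
      exact ⟨hl.1.2, hl.1.1.2⟩
    · intro l hl c hc
      unfold RR at hl
      rw [Finset.mem_filter, Pool.Agent.Lib.MP_bae66e_nt.AP3.mem_prI] at hl
      have hp := hl.1.2
      simp [Om0, hp] at hc
      rw [hc]
      exact hp.pos
  have h := rough_exp_of_FLP z q a N θ B0 (flEta L0 b) (E0 J b z) hq ha hB0 hθ hη0 hη1 hE1
    (fun A B hAB _ => ⟨hFL q A B hAB, hFL 1 A B hAB⟩)
  have hset : (Icc 1 N).filter (fun m => Rough z m) = (Icc 1 N).filter (fun m => ∀ l ∈ prI 0 z, ¬ l ∣ m) := by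
    apply Finset.filter_congr
    intro m _
    exact Pool.Agent.Lib.MP_bae66e_nt.AP3.rough_iff z m
  rw [hset]
  exact h

end Pool.Agent.PP
end

section

/-!
# M3: partial summation
-/

set_option autoImplicit false

namespace Pool.Agent.PP

open Finset MeasureTheory Real
open Pool.Agent.MC (ee expSum frac frac' arcSum fareySet)
open Pool.Agent.Lib.MP_bae66e_nt.AP3 (Rough rset dset prI KT flEta FLP cset Om0 xb prm)

private lemma aux_parts (g : ℕ → ℂ) (c : ℂ) (β : ℝ) (y : ℕ) :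
    ∑ n ∈ Icc 1 y, (g n - c) * ee (n * β) =
      (∑ n ∈ Icc 1 y, g n - c * (y : ℂ)) * ee (y * β) +
      ∑ x ∈ range y, (∑ n ∈ Icc 1 x, g n - c * (x : ℂ)) *
        (ee (x * β) - ee (((x + 1 : ℕ) : ℝ) * β)) := by
  induction y with
  | zero => simp
  | succ y ih =>
    rw [Finset.sum_Icc_succ_top (by omega), ih, Finset.sum_range_succ,
      Finset.sum_Icc_succ_top (by omega) (f := g)]
    push_cast
    ring

private lemma aux_ee (x β : ℝ) : ‖ee (x * β) - ee ((x + 1) * β)‖ ≤ 2 * π * |β| := by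
  have h1 : ee ((x + 1) * β) = ee (x * β) * ee β := by
    rw [← Pool.Agent.MC.ee_add]
    congr 1
    ring
  have h2 : ee (x * β) - ee (x * β) * ee β = ee (x * β) * (-(ee β - 1)) := by ring
  rw [h1, h2, norm_mul, Pool.Agent.MC.norm_ee, one_mul, norm_neg]
  have h3 : ee β = Complex.exp (Complex.I * ((2 * π * β : ℝ) : ℂ)) := by
    unfold Pool.Agent.MC.ee
    congr 1
    push_cast
    ring
  rw [h3]
  refine (Real.norm_exp_I_mul_ofReal_sub_one_le).trans ?_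
  rw [Real.norm_eq_abs, abs_mul, abs_of_pos (show (0 : ℝ) < 2 * π by positivity)]

/-- PROOF. `∑ g(n) ee (n β) = c ∑ ee (n β) + ∑ (g(n) - c) ee (n β)`. First: `geo_sum` and `dn_eq_abs`. Second: summation by parts with
`H(x) = ∑_{n ≤ x} (g(n) - c)`, `‖H(x)‖ ≤ Δ`: `≤ Δ (1 + ∑_{n < y} ‖ee (n β) - ee ((n+1) β)‖) ≤ Δ (1 + 2 π y |β|)`
(`‖ee x - 1‖ ≤ 2 π |x|`). -/
lemma abel_exp (g : ℕ → ℂ) (c : ℂ) (y : ℕ) (Δ : ℝ)
    (h : ∀ x : ℕ, x ≤ y → ‖∑ n ∈ Icc 1 x, g n - c * (x : ℂ)‖ ≤ Δ) (β : ℝ) (hβ : |β| ≤ 1 / 2) :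
    ‖∑ n ∈ Icc 1 y, g n * ee (n * β)‖
      ≤ ‖c‖ * (y / max 1 (y * |β|)) + Δ * (1 + 2 * π * (y * |β|)) := by
  have hΔ : 0 ≤ Δ := (norm_nonneg _).trans (h 0 (Nat.zero_le _))
  have h1 : ∑ n ∈ Icc 1 y, g n * ee (n * β) =
      c * ∑ m ∈ Ioc 0 y, ee (m * β) + ∑ n ∈ Icc 1 y, (g n - c) * ee (n * β) := by
    have h2 : Ioc 0 y = Icc 1 y := by
      ext n
      rw [Finset.mem_Ioc, Finset.mem_Icc]
      constructor
      · rintro ⟨a1, a2⟩; exact ⟨by omega, a2⟩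
      · rintro ⟨a1, a2⟩; exact ⟨by omega, a2⟩
    rw [h2, Finset.mul_sum, ← Finset.sum_add_distrib]
    apply Finset.sum_congr rfl
    intro n _
    ring
  rw [h1]
  refine (norm_add_le _ _).trans (add_le_add ?_ ?_)
  · rw [norm_mul]
    apply mul_le_mul_of_nonneg_left _ (norm_nonneg _)
    have h2 := geo_sum β 0 y (Nat.zero_le _)
    rw [Nat.cast_zero, sub_zero] at h2
    unfold GG at h2
    rw [dn_eq_abs hβ] at h2
    exact h2
  · rw [aux_parts]
    refine (norm_add_le _ _).trans ?_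
    have h2 : ‖(∑ n ∈ Icc 1 y, g n - c * (y : ℂ)) * ee (y * β)‖ ≤ Δ := by
      rw [norm_mul, Pool.Agent.MC.norm_ee, mul_one]
      exact h y le_rfl
    have h3 : ‖∑ x ∈ range y, (∑ n ∈ Icc 1 x, g n - c * (x : ℂ)) *
        (ee (x * β) - ee (((x + 1 : ℕ) : ℝ) * β))‖ ≤ y * (Δ * (2 * π * |β|)) := by
      refine (norm_sum_le _ _).trans ?_
      have h4 : ∀ x ∈ range y, ‖(∑ n ∈ Icc 1 x, g n - c * (x : ℂ)) *
          (ee (x * β) - ee (((x + 1 : ℕ) : ℝ) * β))‖ ≤ Δ * (2 * π * |β|) := by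
        intro x hx
        rw [Finset.mem_range] at hx
        rw [norm_mul]
        apply mul_le_mul (h x hx.le) _ (norm_nonneg _) hΔ
        have := aux_ee (x : ℝ) β
        push_cast
        exact this
      refine (Finset.sum_le_card_nsmul _ _ _ h4).trans ?_
      rw [Finset.card_range, nsmul_eq_mul]
    calc _ ≤ Δ + y * (Δ * (2 * π * |β|)) := add_le_add h2 h3
      _ = Δ * (1 + 2 * π * (y * |β|)) := by ring

end Pool.Agent.PP
end
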