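import Pool.Agent.Lib.MP_bae66e_nt.Mg.G081
import Pool.Agent.Lib.MP_bae66e_nt.Mg.G077
import Pool.Agent.Lib.MP_bae66e_nt.Mg.G087
import Pool.Agent.Lib.MP_bae66e_nt.Mg.G084

section

/-!
# M1: mean values on the major arcs, from the prime number theorem in arithmetic progressions
-/

set_option autoImplicit false

namespace Pool.Agent.PP

open Finset MeasureTheory Real
open Pool.Agent.MC (ee expSum frac frac' arcSum fareySet)
open Pool.Agent.Lib.MP_bae66e_nt.AP3 (Rough rset dset prI KT flEta FLP cset Om0 xb prm)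

open Filter Topology

private lemma aux_bdd (f : ℕ → ℂ) (K : ℝ) (h : ∀ x, ‖f x‖ ≤ K) :
    Tendsto (fun x : ℕ => f x / (x : ℂ)) atTop (𝓝 0) := by
  rw [tendsto_zero_iff_norm_tendsto_zero]
  have h1 : Tendsto (fun x : ℕ => K * (1 / (x : ℝ))) atTop (𝓝 0) := by
    have := (tendsto_one_div_atTop_nhds_zero_nat (𝕜 := ℝ)).const_mul K
    rwa [mul_zero] at this
  apply squeeze_zero (fun x => norm_nonneg _) _ h1
  intro x
  rw [norm_div, Complex.norm_natCast, div_eq_mul_one_div]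
  exact mul_le_mul_of_nonneg_right (h x) (by positivity)

private lemma aux_th_nonneg (n : ℕ) : 0 ≤ th n := by
  unfold th
  split_ifs
  · exact Real.log_natCast_nonneg n
  · exact le_rfl

private lemma aux_bad (q b : ℕ) (hq : 1 ≤ q) (hb : ¬ Nat.Coprime b q) (x : ℕ) :
    ‖(((∑ n ∈ (Icc 1 x).filter (fun n => n ≡ b [MOD q]), th n : ℝ)) : ℂ)‖ ≤
      ∑ n ∈ Icc 1 q, th n := by
  rw [Complex.norm_real, Real.norm_eq_abs, abs_of_nonneg (Finset.sum_nonneg fun n _ =>
    aux_th_nonneg n)]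
  have h1 : ∑ n ∈ (Icc 1 x).filter (fun n => n ≡ b [MOD q]), th n =
      ∑ n ∈ ((Icc 1 x).filter (fun n => n ≡ b [MOD q])).filter Nat.Prime, th n := by
    symm
    apply Finset.sum_filter_of_ne
    intro n _ hn
    by_contra hcon
    exact hn (by unfold th; rw [if_neg hcon])
  rw [h1]
  apply Finset.sum_le_sum_of_subset_of_nonneg _ (fun n _ _ => aux_th_nonneg n)
  intro n hn
  rw [Finset.mem_filter, Finset.mem_filter, Finset.mem_Icc] at hn
  obtain ⟨⟨⟨h2, _⟩, h3⟩, h4⟩ := hn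
  rw [Finset.mem_Icc]
  refine ⟨h2, ?_⟩
  have h5 : ¬ Nat.Coprime n q := by
    intro h6
    apply hb
    have := h3.gcd_eq
    unfold Nat.Coprime at h6 ⊢
    rw [← this]
    exact h6
  rw [Nat.Prime.coprime_iff_not_dvd h4, not_not] at h5
  exact Nat.le_of_dvd (by omega) h5

/-- The prime number theorem for arithmetic progressions (the input). -/
def PNTAP : Prop := ∀ q b : ℕ, 1 ≤ q → Nat.Coprime b q →
  Tendsto (fun x : ℕ => (∑ n ∈ (Icc 1 x).filter (fun n => n ≡ b [MOD q]), th n) / (x : ℝ)) atTop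
    (𝓝 (1 / (Nat.totient q : ℝ)))

/-- PROOF. Split `n` into classes `b` mod `q`: `∑ th n ee (n a/q) = ∑_{b < q} ee (b a/q) ∑_{n ≡ b} th n`. The classes with
`gcd(b,q) > 1` contain at most one prime each (bounded sums), the others have mean `1/φ(q)`; and
`∑_{b ∈ frac q} ee (b a/q) = μ(q)` (`MC.ramanujan_coprime`). -/
lemma th_mean (hP : PNTAP) (q a : ℕ) (hq : 1 ≤ q) (ha : Nat.Coprime a q) :
    Tendsto (fun x : ℕ => (∑ n ∈ Icc 1 x, ((th n : ℝ) : ℂ) * ee ((n : ℝ) * (a / q))) / (x : ℂ)) atTop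
      (𝓝 ((ArithmeticFunction.moebius q : ℂ) / (Nat.totient q : ℂ))) := by
  have hq0 : (0 : ℝ) < q := by exact_mod_cast hq
  have hsplit : ∀ x : ℕ, ∑ n ∈ Icc 1 x, ((th n : ℝ) : ℂ) * ee ((n : ℝ) * (a / q)) =
      ∑ b ∈ range q, ee ((b : ℝ) * a / q) *
        (((∑ n ∈ (Icc 1 x).filter (fun n => n ≡ b [MOD q]), th n : ℝ)) : ℂ) := by
    intro x
    have h1 : ∀ b ∈ range q, ee ((b : ℝ) * a / q) *
        (((∑ n ∈ (Icc 1 x).filter (fun n => n ≡ b [MOD q]), th n : ℝ)) : ℂ) =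
        ∑ n ∈ Icc 1 x, (if n ≡ b [MOD q] then ((th n : ℝ) : ℂ) * ee ((n : ℝ) * (a / q)) else 0) := by
      intro b _
      rw [← Finset.sum_filter]
      push_cast
      rw [Finset.mul_sum]
      apply Finset.sum_congr rfl
      intro n hn
      rw [Finset.mem_filter] at hn
      have h2 : ee ((n : ℝ) * (a / q)) = ee ((b : ℝ) * a / q) := by
        obtain ⟨k, hk⟩ := (Nat.modEq_iff_dvd.1 hn.2)
        have h3 : (n : ℝ) * (a / q) = (b : ℝ) * a / q + ((-(k * a) : ℤ) : ℝ) := by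
          have h4 : ((b : ℤ) : ℝ) - ((n : ℤ) : ℝ) = (q : ℝ) * k := by exact_mod_cast hk
          push_cast at h4 ⊢
          field_simp
          linear_combination (-(a : ℝ)) * h4
        rw [h3, Pool.Agent.MC.ee_add_int]
      rw [h2]
      ring
    rw [Finset.sum_congr rfl h1, Finset.sum_comm]
    apply Finset.sum_congr rfl
    intro n _
    rw [Finset.sum_eq_single (n % q)]
    · rw [if_pos (Nat.mod_modEq n q).symm]
    · intro b hb hne
      rw [if_neg]
      intro h2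
      apply hne
      rw [Finset.mem_range] at hb
      have h3 : n % q = b % q := h2
      rw [h3, Nat.mod_eq_of_lt hb]
    · intro h2
      exact absurd (Finset.mem_range.2 (Nat.mod_lt n (by omega))) h2
  have hlim : (ArithmeticFunction.moebius q : ℂ) / (Nat.totient q : ℂ) =
      ∑ b ∈ range q, ee ((b : ℝ) * a / q) *
        (if Nat.Coprime b q then 1 / (Nat.totient q : ℂ) else 0) := by
    have h1 : ∀ b ∈ range q, ee ((b : ℝ) * a / q) *
        (if Nat.Coprime b q then 1 / (Nat.totient q : ℂ) else 0) =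
        (if Nat.Coprime b q then ee ((b : ℝ) * a / q) * (1 / (Nat.totient q : ℂ)) else 0) := by
      intro b _
      split_ifs
      · rfl
      · rw [mul_zero]
    rw [Finset.sum_congr rfl h1, ← Finset.sum_filter, ← Finset.sum_mul]
    have h2 := Pool.Agent.MC.ramanujan_coprime q a (by omega) ha
    unfold Pool.Agent.MC.frac at h2
    rw [h2]
    ring
  rw [hlim]
  have h3 : (fun x : ℕ => (∑ n ∈ Icc 1 x, ((th n : ℝ) : ℂ) * ee ((n : ℝ) * (a / q))) / (x : ℂ)) =
      (fun x : ℕ => ∑ b ∈ range q, ee ((b : ℝ) * a / q) *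
        ((((∑ n ∈ (Icc 1 x).filter (fun n => n ≡ b [MOD q]), th n : ℝ)) : ℂ) / (x : ℂ))) := by
    funext x
    rw [hsplit x, Finset.sum_div]
    apply Finset.sum_congr rfl
    intro b _
    rw [mul_div_assoc]
  rw [h3]
  apply tendsto_finsetSum
  intro b _
  apply Tendsto.const_mul
  split_ifs with hb
  · have h4 := (Complex.continuous_ofReal.tendsto (1 / (Nat.totient q : ℝ))).comp (hP q b hq hb)
    have e1 : (fun x : ℕ => (((∑ n ∈ (Icc 1 x).filter (fun n => n ≡ b [MOD q]), th n : ℝ)) : ℂ) /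
        (x : ℂ)) = (fun t : ℝ => (t : ℂ)) ∘
        (fun x : ℕ => (∑ n ∈ (Icc 1 x).filter (fun n => n ≡ b [MOD q]), th n) / (x : ℝ)) := by
      funext x
      simp only [Function.comp_apply]
      push_cast
      rfl
    have e2 : (1 / (Nat.totient q : ℂ)) = ((1 / (Nat.totient q : ℝ) : ℝ) : ℂ) := by push_cast; rfl
    rw [e1, e2]
    exact h4
  · exact aux_bdd _ _ (aux_bad q b hq hb)

/-- the density of `EE W` at `a/q` -/
noncomputable def cE (W q : ℕ) : ℂ :=
  if q ∣ W then 0 else (ArithmeticFunction.moebius q : ℂ) / (Nat.totient q : ℂ)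

/-- `th_mean` minus `nu_mean`. -/
lemma EE_mean (hP : PNTAP) (W q a : ℕ) (hW : Squarefree W) (hW1 : 1 ≤ W) (hq : 1 ≤ q)
    (ha : Nat.Coprime a q) :
    Tendsto (fun x : ℕ => (∑ n ∈ Icc 1 x, ((EE W n : ℝ) : ℂ) * ee ((n : ℝ) * (a / q))) / (x : ℂ)) atTop
      (𝓝 (cE W q)) := by
  have h1 := (th_mean hP q a hq ha).sub (nu_mean W q a hW hW1 hq ha)
  have e1 : (fun x : ℕ => (∑ n ∈ Icc 1 x, ((EE W n : ℝ) : ℂ) * ee ((n : ℝ) * (a / q))) / (x : ℂ)) =
      (fun x : ℕ => (∑ n ∈ Icc 1 x, ((th n : ℝ) : ℂ) * ee ((n : ℝ) * (a / q))) / (x : ℂ) -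
        (∑ n ∈ Icc 1 x, ((nu W n : ℝ) : ℂ) * ee ((n : ℝ) * (a / q))) / (x : ℂ)) := by
    funext x
    rw [← sub_div, ← Finset.sum_sub_distrib]
    congr 1
    apply Finset.sum_congr rfl
    intro n _
    unfold EE
    push_cast
    ring
  rw [e1]
  have e2 : cE W q = (ArithmeticFunction.moebius q : ℂ) / (Nat.totient q : ℂ) -
      (if q ∣ W then ((ArithmeticFunction.moebius q : ℂ) / (Nat.totient q : ℂ)) else 0) := by
    unfold cE
    split_ifs
    · rw [sub_self]
    · rw [sub_zero]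
  rw [e2]
  exact h1

end Pool.Agent.PP
end

section

/-!
# G1: the input from the prime number theorem in arithmetic progressions
-/

set_option autoImplicit false

namespace Pool.Agent.PP

open Finset MeasureTheory Real Filter Topology
open Pool.Agent.Lib.MP_bae66e_nt.AP3 (Rough rset dset prI KT flEta FLP cset Om0 xb prm)

/-- `LL.tendsto_thetaAP` along the integers (`⌊(x : ℝ)⌋₊ = x`); `n ≡ b [MOD q]` is `(n : ZMod q) = b` (`ZMod.natCast_eq_natCast_iff`), `b` is a unit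
(`ZMod.unitOfCoprime`), and the sum of `th` over a class is the sum of `log` over its primes. -/
theorem pntap : PNTAP := by
  intro q b hq hb
  haveI : NeZero q := ⟨by omega⟩
  have hu : IsUnit ((b : ℕ) : ZMod q) := (ZMod.isUnit_iff_coprime b q).mpr hb
  have h := (Pool.Agent.Lib.MP_bae66e_nt.LL.tendsto_thetaAP q ((b : ℕ) : ZMod q) hu).comp
    (tendsto_natCast_atTop_atTop (R := ℝ))
  refine h.congr ?_
  intro x
  show (∑ p ∈ (Finset.Icc 1 ⌊(x : ℝ)⌋₊).filter (fun p => p.Prime ∧ ((p : ℕ) : ZMod q) = ((b : ℕ) : ZMod q)),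
      Real.log p) / (x : ℝ) = _
  congr 1
  rw [Nat.floor_natCast]
  unfold th
  rw [← Finset.sum_filter, Finset.filter_filter]
  apply Finset.sum_congr _ fun _ _ => rfl
  apply Finset.filter_congr
  intro n _
  rw [ZMod.natCast_eq_natCast_iff]
  exact and_comm

end Pool.Agent.PP
end

section

/-!
# B5a: bound for one block
-/

set_option autoImplicit false

namespace Pool.Agent.PP

open Finset MeasureTheory Real
open Pool.Agent.MC (ee expSum frac frac' arcSum fareySet)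
open Pool.Agent.Lib.MP_bae66e_nt.AP3 (Rough rset dset prI KT flEta FLP cset Om0 xb prm)

private lemma norm_sum_ee_neg (S : Finset ℕ) (x : ℕ → ℝ) :
    ‖∑ m ∈ S, ee (-(x m))‖ = ‖∑ m ∈ S, ee (x m)‖ := by
  have h : ∑ m ∈ S, ee (-(x m)) = (starRingEnd ℂ) (∑ m ∈ S, ee (x m)) := by
    rw [map_sum]
    exact Finset.sum_congr rfl fun m _ => (MC.conj_ee (x m)).symm
  rw [h, RCLike.norm_conj]

private lemma E0_nonneg (J b z : ℕ) : 0 ≤ E0 J b z := by
  unfold E0; positivity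

private lemma flEta_nonneg {L0 : ℝ} (hL : 1 ≤ L0) (b : ℕ) : 0 ≤ flEta L0 b := by
  unfold flEta; positivity

open Classical in
private lemma one_pair_lt (L0 : ℝ) (hL : 1 ≤ L0) (b J z : ℕ)
    (H : ∀ (q a N : ℕ) (θ B0 : ℝ), 1 ≤ q → Nat.Coprime a q → 2 ≤ B0 → N * |θ| ≤ B0 →
      ‖∑ m ∈ (Icc 1 N).filter (fun m => Rough z m), ee ((m : ℝ) * (a / q + θ))‖
      ≤ 100 * (KT z * N / (Nat.totient q * max 1 (N * |θ|)) + KT z * N * (flEta L0 b + 1 / B0)
        + B0 ^ 2 * q * E0 J b z))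
    (y M q a : ℕ) (β : ℝ) (hM : 2 ≤ M) (hy : 4 * M ≤ y) (hq : 1 ≤ q) (ha : Nat.Coprime a q)
    (p p' : ℕ) (hp : M < p ∧ p ≤ 2 * M) (hp' : M < p' ∧ p' ≤ 2 * M) (hlt : p' < p) :
    ‖∑ m ∈ (Icc 1 (y / max p p')).filter (fun m => Rough z m),
        ee ((m : ℝ) * (((p : ℝ) - p') * (a / q + β)))‖
      ≤ 100 * (KT z * (y / M) * pw q M (y * |β|) (p, p')
        + KT z * (y / M) * (flEta L0 b + 1 / (q * max 1 (y * |β|)))
        + 4 * (q * max 1 (y * |β|)) ^ 3 * E0 J b z) := by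
  obtain ⟨h, rfl⟩ : ∃ h : ℕ, p = p' + h := ⟨p - p', by omega⟩
  have hh0 : 0 < h := by omega
  have hhM : h ≤ M := by omega
  have hmax : max (p' + h) p' = p' + h := by omega
  have hdist : Nat.dist (p' + h) p' = h := by
    rw [Nat.dist_comm, Nat.dist_eq_sub_of_le (by omega)]; omega
  set g : ℕ := Nat.gcd q h with hg
  have hg0 : 0 < g := Nat.gcd_pos_of_pos_left h (by omega)
  obtain ⟨q', hq'⟩ : g ∣ q := Nat.gcd_dvd_left q h
  obtain ⟨h', hh'⟩ : g ∣ h := Nat.gcd_dvd_right q h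
  have hq'0 : 0 < q' := by
    rcases Nat.eq_zero_or_pos q' with h0 | h0
    · rw [h0, mul_zero] at hq'; omega
    · exact h0
  have hqg : q / g = q' := by rw [hq']; exact Nat.mul_div_cancel_left q' hg0
  have hcop1 : Nat.Coprime h' q' := by
    have h1 := Nat.coprime_div_gcd_div_gcd (m := q) (n := h) hg0
    rw [← hg, hqg] at h1
    have h2 : h / g = h' := by rw [hh']; exact Nat.mul_div_cancel_left h' hg0
    rw [h2] at h1
    exact h1.symm
  have hcop : Nat.Coprime (h' * a) q' :=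
    Nat.Coprime.mul_left hcop1 (Nat.Coprime.coprime_dvd_right ⟨g, by rw [hq']; ring⟩ ha)
  set Q : ℝ := q * max 1 (y * |β|) with hQ
  have hqR : (1 : ℝ) ≤ q := by exact_mod_cast hq
  have hmx : (1 : ℝ) ≤ max 1 (y * |β|) := le_max_left _ _
  have hQ1 : 1 ≤ Q := one_le_mul_of_one_le_of_one_le hqR hmx
  have hqQ : (q : ℝ) ≤ Q := le_mul_of_one_le_right (by linarith) hmx
  have hyQ : y * |β| ≤ Q := by
    have h1 : y * |β| ≤ max 1 (y * |β|) := le_max_right _ _
    have h2 : max 1 (y * |β|) ≤ Q := le_mul_of_one_le_left (by linarith) hqR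
    linarith
  have hMR : (0 : ℝ) < M := by exact_mod_cast (by omega : 0 < M)
  have hM2 : (2 : ℝ) ≤ M := by exact_mod_cast hM
  have hyR : (4 : ℝ) * M ≤ y := by exact_mod_cast hy
  have hpR1 : (M : ℝ) < ((p' + h : ℕ) : ℝ) := by exact_mod_cast hp.1
  have hpR2 : ((p' + h : ℕ) : ℝ) ≤ 2 * M := by exact_mod_cast hp.2
  have hpR0 : (0 : ℝ) < ((p' + h : ℕ) : ℝ) := by linarith
  rw [hmax]
  set N : ℕ := y / (p' + h) with hN
  have hNup : (N : ℝ) ≤ y / M := by
    have h1 : (N : ℝ) ≤ y / ((p' + h : ℕ) : ℝ) := Nat.cast_div_le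
    refine h1.trans ?_
    apply div_le_div_of_nonneg_left (by positivity) hMR hpR1.le
  have hNlow : (y : ℝ) / (4 * M) ≤ N := by
    have h1 : (y : ℝ) / ((p' + h : ℕ) : ℝ) < N + 1 := by
      rw [div_lt_iff₀ hpR0]
      have h2 : y < (p' + h) * (y / (p' + h) + 1) := by
        have := Nat.lt_mul_div_succ y (show 0 < p' + h by omega)
        simpa using this
      have h3 : (y : ℝ) < ((p' + h) * (N + 1) : ℕ) := by exact_mod_cast h2
      push_cast at h3 ⊢
      linarith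
    have h4 : (y : ℝ) / (2 * M) ≤ y / ((p' + h : ℕ) : ℝ) := by
      apply div_le_div_of_nonneg_left (by positivity) hpR0 hpR2
    have h5 : (2 : ℝ) ≤ y / (2 * M) := by
      rw [le_div_iff₀ (by positivity)]; linarith
    have h6 : (y : ℝ) / (4 * M) = (y / (2 * M)) / 2 := by
      field_simp; norm_num
    rw [h6]; linarith
  have hhR0 : (0 : ℝ) < h := by exact_mod_cast hh0
  have hhRM : (h : ℝ) ≤ M := by exact_mod_cast hhM
  have hβ0 := abs_nonneg β
  have hcast : (((p' + h : ℕ) : ℝ) - p') = h := by push_cast; ring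
  have hsum : ∀ m : ℕ, (m : ℝ) * ((((p' + h : ℕ) : ℝ) - p') * ((a : ℝ) / q + β))
      = (m : ℝ) * (((h' * a : ℕ) : ℝ) / (q' : ℝ) + h * β) := by
    intro m
    rw [hcast]
    have hqq : (q : ℝ) = g * q' := by exact_mod_cast hq'
    have hhh : (h : ℝ) = g * h' := by exact_mod_cast hh'
    have hgR : (g : ℝ) ≠ 0 := by exact_mod_cast hg0.ne'
    have hq'R : (q' : ℝ) ≠ 0 := by exact_mod_cast hq'0.ne'
    have e1 : (h : ℝ) * ((a : ℝ) / q) = ((h' * a : ℕ) : ℝ) / (q' : ℝ) := by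
      rw [hqq, hhh]; push_cast; field_simp
    rw [mul_add, e1]
  have habs : |(h : ℝ) * β| = h * |β| := by rw [abs_mul, abs_of_pos hhR0]
  have hNθ : (N : ℝ) * |(h : ℝ) * β| ≤ y * |β| := by
    rw [habs]
    calc (N : ℝ) * (h * |β|) ≤ (y / M) * (M * |β|) := by gcongr
      _ = y * |β| := by field_simp
  have key := H q' (h' * a) N (h * β) (2 * Q) hq'0 hcop (by linarith) (by linarith)
  have hKT := (Pool.Agent.Lib.MP_bae66e_nt.AP3.KT_pos z).le
  have hfl := flEta_nonneg hL b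
  have hE := E0_nonneg J b z
  have hq'q : (q' : ℝ) ≤ Q := by
    have : q' ≤ q := by rw [hq']; exact Nat.le_mul_of_pos_left q' hg0
    have h2 : (q' : ℝ) ≤ q := by exact_mod_cast this
    linarith
  have hφ : (0 : ℝ) < Nat.totient q' := by exact_mod_cast Nat.totient_pos.mpr hq'0
  have hY0 : (0 : ℝ) ≤ y / M := by positivity
  -- main term
  have hm1 : KT z * N / (Nat.totient q' * max 1 (N * |(h : ℝ) * β|))
      ≤ KT z * (y / M) * pw q M (y * |β|) (p' + h, p') := by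
    have e2 : pw q M (y * |β|) (p' + h, p')
        = 1 / ((Nat.totient q' : ℝ) * max 1 (y * |β| * h / (4 * M))) := by
      unfold pw
      simp only
      rw [hdist, ← hg, hqg]
    rw [e2, mul_one_div]
    apply div_le_div₀ (by positivity) (by gcongr) (by positivity)
    have h7 : y * |β| * h / (4 * M) ≤ N * |(h : ℝ) * β| := by
      rw [habs]
      calc y * |β| * h / (4 * M) = (y / (4 * M)) * (h * |β|) := by ring
        _ ≤ N * (h * |β|) := by gcongr
    gcongr
  have hm2 : KT z * N * (flEta L0 b + 1 / (2 * Q)) ≤ KT z * (y / M) * (flEta L0 b + 1 / Q) := by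
    have h8 : 1 / (2 * Q) ≤ 1 / Q := by
      apply one_div_le_one_div_of_le (by linarith) (by linarith)
    have h9 : 0 ≤ flEta L0 b + 1 / (2 * Q) := by positivity
    gcongr
  have hm3 : (2 * Q) ^ 2 * q' * E0 J b z ≤ 4 * Q ^ 3 * E0 J b z := by
    have h10 : (2 * Q) ^ 2 * q' ≤ 4 * Q ^ 3 := by
      calc (2 * Q) ^ 2 * q' ≤ (2 * Q) ^ 2 * Q := by gcongr
        _ = 4 * Q ^ 3 := by ring
    gcongr
  have e3 : ∑ m ∈ (Icc 1 N).filter (fun m => Rough z m),
        ee ((m : ℝ) * ((((p' + h : ℕ) : ℝ) - p') * (a / q + β)))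
      = ∑ m ∈ (Icc 1 N).filter (fun m => Rough z m),
        ee ((m : ℝ) * (((h' * a : ℕ) : ℝ) / (q' : ℝ) + h * β)) :=
    Finset.sum_congr rfl fun m _ => by rw [hsum m]
  rw [e3]
  refine key.trans ?_
  have := add_le_add (add_le_add hm1 hm2) hm3
  linarith

open Classical in
/-- One pair of different primes. PROOF. Let `h = dist p p' ≥ 1`, `g = gcd q h`, `q' = q/g`, `a' = (h/g) a`, coprime to `q'`. Up to
conjugation (`‖∑ ee (-x_m)‖ = ‖∑ ee (x_m)‖`, `MC.conj_ee`) `(p - p') α` may be replaced by `h α = a'/q' + h β`.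
`N = y / max p p'`, `y/(4 M) ≤ N ≤ y/M` (as `max p p' ≤ 2 M`, `4 M ≤ y`), `N h |β| ≤ (y/M) M |β| = y |β| ≤ Q`
(`h ≤ M` since both are in `(M, 2M]`). Apply `rough_exp` with `B0 = 2 Q`, `Q = q max 1 (y|β|) ≥ 1`, `q' ≤ q ≤ Q`;
`N/max 1 (N h |β|) ≤ (y/M)/max 1 (y |β| h/(4M))`. -/
lemma one_pair : ∃ L0 : ℝ, 1 ≤ L0 ∧ ∃ b0 : ℕ, ∀ b J z : ℕ, b0 ≤ b → 2 ≤ z → z < 2 ^ (2 ^ J) →
    flEta L0 b ≤ 1 ∧ ∀ (y M q a : ℕ) (β : ℝ), 2 ≤ M → 4 * M ≤ y → 1 ≤ q → Nat.Coprime a q →
    ∀ p ∈ prI M (2 * M), ∀ p' ∈ prI M (2 * M), p ≠ p' →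
    ‖∑ m ∈ (Icc 1 (y / max p p')).filter (fun m => Rough z m),
        ee ((m : ℝ) * (((p : ℝ) - p') * (a / q + β)))‖
      ≤ 100 * (KT z * (y / M) * pw q M (y * |β|) (p, p')
        + KT z * (y / M) * (flEta L0 b + 1 / (q * max 1 (y * |β|)))
        + 4 * (q * max 1 (y * |β|)) ^ 3 * E0 J b z) := by
  obtain ⟨L0, hL, b0, H⟩ := rough_exp
  refine ⟨L0, hL, b0, fun b J z hb hz hJ => ⟨(H b J z hb hz hJ).1, ?_⟩⟩
  have H' := (H b J z hb hz hJ).2
  intro y M q a β hM hy hq ha p hp p' hp' hne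
  have h1 := (Pool.Agent.Lib.MP_bae66e_nt.AP3.mem_prI.mp hp).1
  have h2 := (Pool.Agent.Lib.MP_bae66e_nt.AP3.mem_prI.mp hp').1
  rcases lt_or_gt_of_ne hne with hlt | hlt
  · have key := one_pair_lt L0 hL b J z H' y M q a β hM hy hq ha p' p h2 h1 hlt
    have e1 : pw q M (y * |β|) (p', p) = pw q M (y * |β|) (p, p') := by
      unfold pw
      simp only
      rw [Nat.dist_comm]
    rw [max_comm, e1] at key
    have e2 : ‖∑ m ∈ (Icc 1 (y / max p p')).filter (fun m => Rough z m),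
          ee ((m : ℝ) * (((p : ℝ) - p') * (a / q + β)))‖
        = ‖∑ m ∈ (Icc 1 (y / max p p')).filter (fun m => Rough z m),
          ee ((m : ℝ) * (((p' : ℝ) - p) * (a / q + β)))‖ := by
      rw [← norm_sum_ee_neg]
      congr 1
      refine Finset.sum_congr rfl fun m _ => ?_
      congr 1
      ring
    rw [e2]
    exact key
  · exact one_pair_lt L0 hL b J z H' y M q a β hM hy hq ha p p' h1 h2 hlt

end Pool.Agent.PP
end

section

/-!
# M4: the finitely many main arcs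
-/

set_option autoImplicit false

namespace Pool.Agent.PP

open Finset MeasureTheory Real
open Pool.Agent.MC (ee expSum frac frac' arcSum fareySet)
open Pool.Agent.Lib.MP_bae66e_nt.AP3 (Rough rset dset prI KT flEta FLP cset Om0 xb prm)

private lemma aux_one (hP : PNTAP) (W Q0 : ℕ) (hW : Squarefree W) (hW2 : 2 ≤ W) (δ : ℝ)
    (hδ : 0 < δ) (q a : ℕ) (hq : 1 ≤ q) (ha : Nat.Coprime a q) :
    ∃ y₀ : ℕ, ∀ y : ℕ, y₀ ≤ y → ∀ β : ℝ, y * |β| ≤ Q0 →
    ‖expSum (fun n => ((EE W n : ℝ) : ℂ)) (y + 1) ((a : ℝ) / q + β)‖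
      ≤ ‖cE W q‖ * (y / max 1 (y * |β|)) + δ * y := by
  obtain ⟨δ', hδ'⟩ : ∃ δ', δ' = δ / (1 + 2 * π * Q0) := ⟨_, rfl⟩
  have hpos : (0 : ℝ) < 1 + 2 * π * Q0 := by positivity
  have hδ0 : 0 < δ' := by rw [hδ']; positivity
  have h1 := EE_mean hP W q a hW (by omega) hq ha
  rw [Metric.tendsto_atTop] at h1
  obtain ⟨x₀, hx₀⟩ := h1 δ' hδ0
  obtain ⟨G, hG⟩ : ∃ G : ℕ → ℂ, G = fun x => ∑ n ∈ Icc 1 x, ((EE W n : ℝ) : ℂ) *
    ee ((n : ℝ) * (a / q)) - cE W q * (x : ℂ) := ⟨_, rfl⟩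
  obtain ⟨K, hK⟩ : ∃ K : ℝ, K = ∑ x ∈ range (x₀ + 1), ‖G x‖ := ⟨_, rfl⟩
  obtain ⟨y₁, hy₁⟩ := exists_nat_ge (K / δ')
  refine ⟨max (max 1 y₁) (2 * Q0), ?_⟩
  intro y hy β hβ
  have c1 : 1 ≤ y := le_trans (le_trans (le_max_left _ _) (le_max_left _ _)) hy
  have c2 : y₁ ≤ y := le_trans (le_trans (le_max_right _ _) (le_max_left _ _)) hy
  have c3 : 2 * Q0 ≤ y := le_trans (le_max_right _ _) hy
  have hy0 : (0 : ℝ) < y := by exact_mod_cast c1
  have hΔ : ∀ x : ℕ, x ≤ y → ‖G x‖ ≤ δ' * y := by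
    intro x hx
    by_cases hxx : x < x₀ + 1
    · have h2 : ‖G x‖ ≤ K := by
        rw [hK]
        exact Finset.single_le_sum (f := fun x => ‖G x‖) (fun _ _ => norm_nonneg _)
          (Finset.mem_range.2 hxx)
      have h3 : K / δ' ≤ (y : ℝ) := hy₁.trans (by exact_mod_cast c2)
      rw [div_le_iff₀ hδ0] at h3
      linarith
    · have hxx' : x₀ ≤ x := by omega
      have hx0 : (0 : ℝ) < x := by
        have : 0 < x := by omega
        exact_mod_cast this
      have hx0c : (x : ℂ) ≠ 0 := by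
        have : x ≠ 0 := by omega
        exact_mod_cast this
      have h2 := hx₀ x hxx'
      rw [dist_eq_norm] at h2
      have h3 : G x = ((∑ n ∈ Icc 1 x, ((EE W n : ℝ) : ℂ) * ee ((n : ℝ) * (a / q))) / (x : ℂ) -
          cE W q) * (x : ℂ) := by
        rw [hG, sub_mul, div_mul_cancel₀ _ hx0c]
      rw [h3, norm_mul, Complex.norm_natCast]
      calc _ ≤ δ' * (x : ℝ) := mul_le_mul_of_nonneg_right h2.le hx0.le
        _ ≤ δ' * y := mul_le_mul_of_nonneg_left (by exact_mod_cast hx) hδ0.le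
  have hβ2 : |β| ≤ 1 / 2 := by
    have h2 : (2 : ℝ) * Q0 ≤ y := by exact_mod_cast c3
    have h3 : (y : ℝ) * |β| ≤ y / 2 := by linarith
    by_contra hcon
    rw [not_le] at hcon
    nlinarith
  have h2 := abel_exp (fun n => ((EE W n : ℝ) : ℂ) * ee ((n : ℝ) * (a / q))) (cE W q) y (δ' * y)
    (by
      intro x hx
      have := hΔ x hx
      rw [hG] at this
      exact this) β hβ2
  have h3 : expSum (fun n => ((EE W n : ℝ) : ℂ)) (y + 1) ((a : ℝ) / q + β) =
      ∑ n ∈ Icc 1 y, ((EE W n : ℝ) : ℂ) * ee ((n : ℝ) * (a / q)) * ee (n * β) := by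
    unfold Pool.Agent.MC.expSum
    rw [Finset.sum_range_succ']
    have h0 : EE W 0 = 0 := by
      unfold EE th nu
      rw [if_neg (by decide), if_neg, sub_zero]
      intro h
      unfold Nat.Coprime at h
      rw [Nat.gcd_zero_left] at h
      omega
    simp only [h0, Complex.ofReal_zero, zero_mul, add_zero]
    rw [Finset.range_eq_Ico, Finset.sum_Ico_add' (fun n => ((EE W n : ℝ) : ℂ) *
      ee ((n : ℝ) * ((a : ℝ) / q + β))) 0 y 1]
    have h5 : Finset.Ico (0 + 1) (y + 1) = Icc 1 y := by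
      ext n
      rw [Finset.mem_Ico, Finset.mem_Icc]
      omega
    rw [h5]
    apply Finset.sum_congr rfl
    intro n _
    rw [mul_add, Pool.Agent.MC.ee_add, mul_assoc]
  rw [h3]
  refine h2.trans (add_le_add le_rfl ?_)
  calc δ' * y * (1 + 2 * π * (y * |β|)) ≤ δ' * y * (1 + 2 * π * Q0) := by
        apply mul_le_mul_of_nonneg_left _ (by positivity)
        have : 2 * π * ((y : ℝ) * |β|) ≤ 2 * π * Q0 :=
          mul_le_mul_of_nonneg_left hβ (by positivity)
        linarith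
    _ = δ * y := by rw [hδ']; field_simp

/-- PROOF. For each of the finitely many pairs `(q, a)`, `q ≤ Q0`, `a < q` coprime (take the maximum of the `y₀`'s): by `EE_mean`, for every `δ' > 0` there
is `x₀` with `‖G(x) - c x‖ ≤ δ' x` for `x ≥ x₀`, `G(x) = ∑_{n ≤ x} EE W n ee (n a/q)`, `c = cE W q`; for `x < x₀` it is bounded. So
`‖G(x) - c x‖ ≤ δ' y` for all `x ≤ y` when `y` is large. `abel_exp` with `g n = EE W n ee (n a/q)`, `Δ = δ' y`,
`δ' = δ/(1 + 2 π Q0)`; `|β| ≤ Q0/y ≤ 1/2`. (`expSum _ (y+1)` has the extra term `n = 0`, where `EE W 0 = 0` as `W ≥ 2`.) -/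
lemma main_arcs (hP : PNTAP) (W Q0 : ℕ) (hW : Squarefree W) (hW2 : 2 ≤ W) (δ : ℝ) (hδ : 0 < δ) :
    ∃ y₀ : ℕ, ∀ y : ℕ, y₀ ≤ y → ∀ q ∈ Icc 1 Q0, ∀ a ∈ frac' q, ∀ β : ℝ, y * |β| ≤ Q0 →
    ‖expSum (fun n => ((EE W n : ℝ) : ℂ)) (y + 1) ((a : ℝ) / q + β)‖
      ≤ ‖cE W q‖ * (y / max 1 (y * |β|)) + δ * y := by
  have h1 : ∀ q a : ℕ, ∃ y₀ : ℕ, 1 ≤ q → Nat.Coprime a q → ∀ y : ℕ, y₀ ≤ y → ∀ β : ℝ,
      y * |β| ≤ Q0 → ‖expSum (fun n => ((EE W n : ℝ) : ℂ)) (y + 1) ((a : ℝ) / q + β)‖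
      ≤ ‖cE W q‖ * (y / max 1 (y * |β|)) + δ * y := by
    intro q a
    by_cases h : 1 ≤ q ∧ Nat.Coprime a q
    · obtain ⟨y₀, hy₀⟩ := aux_one hP W Q0 hW hW2 δ hδ q a h.1 h.2
      exact ⟨y₀, fun _ _ => hy₀⟩
    · exact ⟨0, fun h1 h2 => absurd ⟨h1, h2⟩ h⟩
  choose Y hY using h1
  refine ⟨∑ q ∈ Icc 1 Q0, ∑ a ∈ frac' q, Y q a, ?_⟩
  intro y hy q hq a ha β hβ
  have h2 : Y q a ≤ ∑ q ∈ Icc 1 Q0, ∑ a ∈ frac' q, Y q a := by
    calc Y q a ≤ ∑ a ∈ frac' q, Y q a :=
          Finset.single_le_sum (f := fun a => Y q a) (fun _ _ => Nat.zero_le _) ha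
      _ ≤ ∑ q ∈ Icc 1 Q0, ∑ a ∈ frac' q, Y q a :=
          Finset.single_le_sum (f := fun q => ∑ a ∈ frac' q, Y q a) (fun _ _ => Nat.zero_le _) hq
  have ha2 : Nat.Coprime a q := by
    unfold Pool.Agent.MC.frac' at ha
    exact (Finset.mem_filter.1 ha).2
  exact hY q a (Finset.mem_Icc.1 hq).1 ha2 y (h2.trans hy) β hβ

end Pool.Agent.PP
end

section

/-!
# F7c: integrals of the explicit bounds
-/

set_option autoImplicit false

namespace Pool.Agent.PP

open Finset MeasureTheory Real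
open Pool.Agent.MC (ee expSum frac frac' arcSum fareySet)
open Pool.Agent.Lib.MP_bae66e_nt.AP3 (Rough rset dset prI KT flEta FLP cset Om0 xb prm)

private lemma F7c_prod (S : Finset ℕ) (hS : ∀ p ∈ S, p.Prime) :
    ∏ p ∈ S, p ≤ (if 2 ∈ S then 2 else 1) * ∏ p ∈ S, (p - 1) ^ 2 := by
  induction S using Finset.induction_on with
  | empty => simp
  | insert a S ha ih =>
    have ih' := ih fun p hp => hS p (Finset.mem_insert_of_mem hp)
    have hap := hS a (Finset.mem_insert_self a S)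
    rw [Finset.prod_insert ha, Finset.prod_insert ha]
    by_cases h2 : a = 2
    · subst h2
      rw [if_pos (Finset.mem_insert_self 2 S)]
      rw [if_neg ha] at ih'
      have : (2 - 1) ^ 2 = 1 := by norm_num
      rw [this]
      nlinarith
    · have ha3 : 3 ≤ a := by
        have := hap.two_le
        omega
      have h3 : a ≤ (a - 1) ^ 2 := by
        obtain ⟨b, rfl⟩ : ∃ b, a = b + 3 := ⟨a - 3, by omega⟩
        show b + 3 ≤ (b + 2) ^ 2
        nlinarith
      have hif : (if 2 ∈ insert a S then 2 else 1) = (if 2 ∈ S then 2 else 1) := by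
        by_cases h : 2 ∈ S
        · rw [if_pos h, if_pos (Finset.mem_insert_of_mem h)]
        · rw [if_neg h, if_neg]
          intro h'
          rcases Finset.mem_insert.mp h' with h' | h'
          · exact h2 h'.symm
          · exact h h'
      rw [hif]
      calc a * ∏ p ∈ S, p ≤ (a - 1) ^ 2 * ((if 2 ∈ S then 2 else 1) * ∏ p ∈ S, (p - 1) ^ 2) :=
            Nat.mul_le_mul h3 ih'
        _ = _ := by ring

private lemma F7c_tot (q : ℕ) (hq : Squarefree q) : (q : ℝ) ≤ 2 * (Nat.totient q : ℝ) ^ 2 := by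
  have h1 : ∏ p ∈ q.primeFactors, p = q := Nat.prod_primeFactors_of_squarefree hq
  have h2 := Nat.totient_mul_prod_primeFactors q
  rw [h1] at h2
  have hq0 : 0 < q := Nat.pos_of_ne_zero hq.ne_zero
  have h3 : Nat.totient q = ∏ p ∈ q.primeFactors, (p - 1) := by
    apply Nat.eq_of_mul_eq_mul_left hq0
    rw [mul_comm, h2]
  have h4 := F7c_prod q.primeFactors fun p hp => Nat.prime_of_mem_primeFactors hp
  rw [h1, Finset.prod_pow, ← h3] at h4
  have h5 : q ≤ 2 * Nat.totient q ^ 2 := by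
    refine h4.trans (Nat.mul_le_mul_right _ ?_)
    split_ifs <;> norm_num
  exact_mod_cast h5

/-- PROOF. `cE (prm w) q ≠ 0` implies `q ∤ prm w` and `q` squarefree, hence `q > w` (a squarefree `q ≤ w` divides `prm w`). Then
`φ(q) ‖c‖⁴ ≤ φ(q)^(-3) ≤ (2/q)^(3/2)` (`MC.le_two_mul_totient_sq`) and `∑_{q > w} q^(-3/2) ≤ 2/√w` (compare with `2/√(q-1) - 2/√q`). -/
lemma sum_cE (w Q0 : ℕ) (hw : 1 ≤ w) :
    ∑ q ∈ Icc 1 Q0, (Nat.totient q : ℝ) * ‖cE (prm w) q‖ ^ 4 ≤ 6 / Real.sqrt w := by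
  have hterm : ∀ q ∈ Icc 1 Q0, (Nat.totient q : ℝ) * ‖cE (prm w) q‖ ^ 4
      ≤ if w < q then 3 * (1 / ((q : ℝ) * Real.sqrt q)) else 0 := by
    intro q hq
    have hq1 : 1 ≤ q := (Finset.mem_Icc.mp hq).1
    by_cases hd : q ∣ prm w
    · unfold cE
      rw [if_pos hd, norm_zero, zero_pow (by norm_num), mul_zero]
      split_ifs
      · positivity
      · exact le_refl _
    · unfold cE
      rw [if_neg hd]
      by_cases hsq : Squarefree q
      · have hwq : w < q := by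
          by_contra hle
          apply hd
          have h1 : ∏ p ∈ q.primeFactors, p = q := Nat.prod_primeFactors_of_squarefree hsq
          rw [← h1]
          unfold prm
          apply Finset.prod_dvd_prod_of_subset
          intro p hp
          rw [Pool.Agent.Lib.MP_bae66e_nt.AP3.mem_prI]
          have hp' := Nat.prime_of_mem_primeFactors hp
          have hpq := Nat.le_of_mem_primeFactors hp
          exact ⟨⟨hp'.pos, by omega⟩, hp'⟩
        rw [if_pos hwq]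
        have hf : (0 : ℝ) < Nat.totient q := by exact_mod_cast Nat.totient_pos.mpr (by omega)
        have hq0 : (0 : ℝ) < q := by exact_mod_cast (by omega : 0 < q)
        have hle := F7c_tot q hsq
        set f : ℝ := (Nat.totient q : ℝ) with hfdef
        have hs : Real.sqrt q ≤ 3 / 2 * f := by
          rw [Real.sqrt_le_left (by positivity)]
          nlinarith [sq_nonneg f]
        have hsp : 0 < Real.sqrt q := Real.sqrt_pos.mpr hq0
        have hprod : (q : ℝ) * Real.sqrt q ≤ 3 * f ^ 3 := by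
          calc (q : ℝ) * Real.sqrt q ≤ (2 * f ^ 2) * (3 / 2 * f) :=
                mul_le_mul hle hs hsp.le (by positivity)
            _ = 3 * f ^ 3 := by ring
        have hnorm : ‖(ArithmeticFunction.moebius q : ℂ) / (Nat.totient q : ℂ)‖ ≤ 1 / f := by
          rw [norm_div, Complex.norm_intCast, Complex.norm_natCast]
          have := ArithmeticFunction.abs_moebius_le_one (n := q)
          have h2 : |((ArithmeticFunction.moebius q : ℤ) : ℝ)| ≤ 1 := by exact_mod_cast this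
          gcongr
        calc f * ‖(ArithmeticFunction.moebius q : ℂ) / (Nat.totient q : ℂ)‖ ^ 4
            ≤ f * (1 / f) ^ 4 := by gcongr
          _ = 1 / f ^ 3 := by
              field_simp
          _ ≤ 3 * (1 / ((q : ℝ) * Real.sqrt q)) := by
              rw [mul_one_div, div_le_div_iff₀ (by positivity) (by positivity)]
              linarith
      · rw [ArithmeticFunction.moebius_eq_zero_of_not_squarefree hsq]
        simp only [Int.cast_zero, zero_div, norm_zero]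
        rw [zero_pow (by norm_num), mul_zero]
        split_ifs
        · positivity
        · exact le_refl _
  have htel : ∀ Q : ℕ, w ≤ Q →
      ∑ q ∈ Ioc w Q, 1 / ((q : ℝ) * Real.sqrt q) ≤ 2 / Real.sqrt w - 2 / Real.sqrt Q := by
    intro Q hQ
    induction Q, hQ using Nat.le_induction with
    | base => simp
    | succ Q hQ ih =>
      rw [Finset.sum_Ioc_succ_top (by omega)]
      have hQ0 : (0 : ℝ) < Q := by exact_mod_cast (by omega : 0 < Q)
      set a := Real.sqrt Q with ha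
      set c := Real.sqrt ((Q + 1 : ℕ) : ℝ) with hc
      have ha0 : 0 < a := Real.sqrt_pos.mpr hQ0
      have hac : a ≤ c := Real.sqrt_le_sqrt (by push_cast; linarith)
      have hc0 : 0 < c := lt_of_lt_of_le ha0 hac
      have ha2 : a ^ 2 = Q := Real.sq_sqrt hQ0.le
      have hc2 : c ^ 2 = ((Q + 1 : ℕ) : ℝ) := Real.sq_sqrt (by positivity)
      have hdiff : c ^ 2 - a ^ 2 = 1 := by
        rw [hc2, ha2]
        push_cast
        ring
      have hkey : 1 / (((Q + 1 : ℕ) : ℝ) * c) ≤ 2 / a - 2 / c := by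
        rw [← hc2, div_sub_div _ _ ha0.ne' hc0.ne', div_le_div_iff₀ (by positivity) (by positivity)]
        have h1 : (c - a) * (c + a) = 1 := by nlinarith
        have h2 : 0 ≤ c - a := by linarith
        have h3 : 1 ≤ (c - a) * (2 * c) := by nlinarith
        have h4 : 1 * (a * c) ≤ ((c - a) * (2 * c)) * (a * c) :=
          mul_le_mul_of_nonneg_right h3 (by positivity)
        have h5 : ((c - a) * (2 * c)) * (a * c) ≤ ((c - a) * (2 * c)) * (c * c) := by
          apply mul_le_mul_of_nonneg_left _ (by positivity)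
          exact mul_le_mul_of_nonneg_right hac hc0.le
        nlinarith
      linarith
  calc ∑ q ∈ Icc 1 Q0, (Nat.totient q : ℝ) * ‖cE (prm w) q‖ ^ 4
      ≤ ∑ q ∈ Icc 1 Q0, (if w < q then 3 * (1 / ((q : ℝ) * Real.sqrt q)) else 0) :=
        Finset.sum_le_sum hterm
    _ = ∑ q ∈ (Icc 1 Q0).filter (fun q => w < q), 3 * (1 / ((q : ℝ) * Real.sqrt q)) := by
        rw [Finset.sum_filter]
    _ ≤ ∑ q ∈ Ioc w (max w Q0), 3 * (1 / ((q : ℝ) * Real.sqrt q)) := by
        apply Finset.sum_le_sum_of_subset_of_nonneg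
        · intro q hq
          rw [Finset.mem_filter, Finset.mem_Icc] at hq
          rw [Finset.mem_Ioc]
          exact ⟨hq.2, hq.1.2.trans (le_max_right _ _)⟩
        · intro q _ _
          positivity
    _ = 3 * ∑ q ∈ Ioc w (max w Q0), 1 / ((q : ℝ) * Real.sqrt q) := by rw [Finset.mul_sum]
    _ ≤ 3 * (2 / Real.sqrt w - 2 / Real.sqrt ((max w Q0 : ℕ) : ℝ)) := by
        have := htel (max w Q0) (le_max_left _ _)
        linarith
    _ ≤ 3 * (2 / Real.sqrt w) := by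
        have : 0 ≤ 2 / Real.sqrt ((max w Q0 : ℕ) : ℝ) := by positivity
        linarith
    _ = 6 / Real.sqrt w := by ring

end Pool.Agent.PP
end
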