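import Pool.Agent.Lib.MP_bae66e_nt.Mg.G079

section

/-!
# B7a: choice of the parameters
-/

set_option autoImplicit false

namespace Pool.Agent.PP

open Finset MeasureTheory Real
open Pool.Agent.MC (ee expSum frac frac' arcSum fareySet)
open Pool.Agent.Lib.MP_bae66e_nt.AP3 (Rough rset dset prI KT flEta FLP cset Om0 xb prm)

/-- PROOF. `b! ≥ (b/e)^b` (`Nat.factorial` lower bound, e.g. from `Real.exp_one_lt_d9`-free argument: `b^b/b! ≤ e^b` as a term of the
exponential series, `Real.pow_div_factorial_le_exp`), so `flEta L0 b = L0^b/b! ≤ (e L0/b)^b ≤ e^(-b)` for `b ≥ e² L0`. -/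
lemma flEta_le (L0 : ℝ) (hL0 : 1 ≤ L0) : ∃ b1 : ℕ, ∀ b : ℕ, b1 ≤ b → flEta L0 b ≤ Real.exp (-b) := by
  obtain ⟨b1, hb1⟩ := exists_nat_ge (Real.exp 2 * L0)
  refine ⟨b1, ?_⟩
  intro b hb
  have h1 : Real.exp 2 * L0 ≤ (b : ℝ) := hb1.trans (by exact_mod_cast hb)
  have h2 := Real.pow_div_factorial_le_exp (Real.exp 2 * L0) (by positivity) b
  unfold flEta
  have h3 : L0 ^ b / b.factorial = ((Real.exp 2 * L0) ^ b / b.factorial) * Real.exp (-(2 * b)) := by
    rw [mul_pow, ← Real.exp_nat_mul]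
    have : Real.exp ((b : ℝ) * 2) * Real.exp (-(2 * b)) = 1 := by
      rw [← Real.exp_add]
      have : (b : ℝ) * 2 + -(2 * b) = 0 := by ring
      rw [this, Real.exp_zero]
    calc L0 ^ b / b.factorial = (L0 ^ b / b.factorial) * 1 := by ring
      _ = (L0 ^ b / b.factorial) * (Real.exp ((b : ℝ) * 2) * Real.exp (-(2 * b))) := by rw [this]
      _ = _ := by ring
  rw [h3]
  calc ((Real.exp 2 * L0) ^ b / b.factorial) * Real.exp (-(2 * b))
      ≤ Real.exp (Real.exp 2 * L0) * Real.exp (-(2 * b)) :=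
        mul_le_mul_of_nonneg_right h2 (Real.exp_pos _).le
    _ = Real.exp (Real.exp 2 * L0 + -(2 * b)) := by rw [← Real.exp_add]
    _ ≤ Real.exp (-b) := by
        apply Real.exp_le_exp.2
        linarith

end Pool.Agent.PP
end

section

/-!
# B8b: the log-free bound near rationals with small denominators
-/

set_option autoImplicit false

namespace Pool.Agent.PP

open Finset MeasureTheory Real
open Pool.Agent.MC (ee expSum frac frac' arcSum fareySet)
open Pool.Agent.Lib.MP_bae66e_nt.AP3 (Rough rset dset prI KT flEta FLP cset Om0 xb prm)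

private lemma aux_step (y : ℕ) (hy : 2 ≤ y) :
    ∑ p ∈ prI 0 (y + 1), (Real.log ((y + 1 : ℕ) : ℝ) - Real.log p) ≤
      ∑ p ∈ prI 0 y, (Real.log y - Real.log p) + 5 / Real.log y := by
  have hyr : (2 : ℝ) ≤ y := by exact_mod_cast hy
  have h1 : ∑ p ∈ prI 0 (y + 1), (Real.log ((y + 1 : ℕ) : ℝ) - Real.log p) =
      ∑ p ∈ prI 0 y, (Real.log ((y + 1 : ℕ) : ℝ) - Real.log p) := by
    symm
    apply Finset.sum_subset
    · intro p hp
      unfold prI at hp ⊢
      rw [Finset.mem_filter, Finset.mem_Ioc] at hp ⊢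
      exact ⟨⟨hp.1.1, by omega⟩, hp.2⟩
    · intro p hp hp'
      unfold prI at hp hp'
      rw [Finset.mem_filter, Finset.mem_Ioc] at hp hp'
      have : p = y + 1 := by
        by_contra hne
        exact hp' ⟨⟨hp.1.1, by omega⟩, hp.2⟩
      rw [this, sub_self]
  rw [h1]
  have h2 : ∑ p ∈ prI 0 y, (Real.log ((y + 1 : ℕ) : ℝ) - Real.log p) =
      ∑ p ∈ prI 0 y, (Real.log y - Real.log p) +
        ((prI 0 y).card : ℝ) * (Real.log ((y + 1 : ℕ) : ℝ) - Real.log y) := by
    rw [← nsmul_eq_mul, ← Finset.sum_const, ← Finset.sum_add_distrib]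
    apply Finset.sum_congr rfl
    intro p _
    ring
  rw [h2]
  apply add_le_add le_rfl
  have h3 : ((prI 0 y).card : ℝ) ≤ 5 * y / Real.log y := by
    have h4 : (prI 0 y).card = Nat.primeCounting y := by
      rw [Nat.primeCounting, Nat.primeCounting', Nat.count_eq_card_filter_range]
      congr 1
      ext p
      unfold prI
      rw [Finset.mem_filter, Finset.mem_filter, Finset.mem_Ioc, Finset.mem_range]
      constructor
      · rintro ⟨⟨a1, a2⟩, a3⟩
        exact ⟨by omega, a3⟩
      · rintro ⟨a1, a2⟩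
        exact ⟨⟨a2.pos, by omega⟩, a2⟩
    rw [h4]
    exact Pool.Agent.Lib.MP_bae66e_nt.pi_upper y hy
  have h5 : Real.log ((y + 1 : ℕ) : ℝ) - Real.log y ≤ 1 / y := by
    rw [← Real.log_div (by positivity) (by positivity)]
    have h6 := Real.log_le_sub_one_of_pos (show (0 : ℝ) < ((y + 1 : ℕ) : ℝ) / y by positivity)
    have h7 : ((y + 1 : ℕ) : ℝ) / y - 1 = 1 / y := by
      push_cast
      field_simp
      ring
    linarith
  have hl : 0 < Real.log y := Real.log_pos (by linarith)
  calc ((prI 0 y).card : ℝ) * (Real.log ((y + 1 : ℕ) : ℝ) - Real.log y)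
      ≤ ((prI 0 y).card : ℝ) * (1 / y) := mul_le_mul_of_nonneg_left h5 (Nat.cast_nonneg _)
    _ ≤ (5 * y / Real.log y) * (1 / y) := mul_le_mul_of_nonneg_right h3 (by positivity)
    _ = 5 / Real.log y := by field_simp

private lemma aux_sum (y : ℕ) (hy : 2 ≤ y) :
    ∑ p ∈ prI 0 y, (Real.log y - Real.log p) ≤ ∑ n ∈ Finset.Ico 2 y, 5 / Real.log n := by
  induction y, hy using Nat.le_induction with
  | base =>
    rw [Finset.Ico_self, Finset.sum_empty]
    apply le_of_eq
    apply Finset.sum_eq_zero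
    intro p hp
    unfold prI at hp
    rw [Finset.mem_filter, Finset.mem_Ioc] at hp
    have h1 := hp.2.two_le
    have : p = 2 := by omega
    rw [this]
    simp
  | succ y hy ih =>
    rw [Finset.sum_Ico_succ_top hy]
    exact (aux_step y hy).trans (add_le_add ih le_rfl)

private lemma aux_split (y : ℕ) (hy : 2 ≤ y) :
    ∑ n ∈ Finset.Ico 2 y, 5 / Real.log n ≤ 50 * y / Real.log y := by
  have hyr : (2 : ℝ) ≤ y := by exact_mod_cast hy
  have hl : 0 < Real.log y := Real.log_pos (by linarith)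
  have hl2 : 1 / 2 ≤ Real.log 2 := by
    have := Real.log_two_gt_d9
    linarith
  have hsq : Real.sqrt y ≤ 2 * y / Real.log y := by
    rw [le_div_iff₀ hl]
    have h1 := Pool.Agent.Lib.MP_bae66e_nt.log_le_two_sqrt (show (0 : ℝ) < y by linarith)
    have h2 := Real.mul_self_sqrt (show (0 : ℝ) ≤ y by linarith)
    nlinarith [Real.sqrt_nonneg (y : ℝ)]
  rw [← Finset.sum_filter_add_sum_filter_not (Finset.Ico 2 y) (fun n => n ≤ ⌊Real.sqrt y⌋₊)]
  have h1 : ∑ n ∈ (Finset.Ico 2 y).filter (fun n => n ≤ ⌊Real.sqrt y⌋₊), 5 / Real.log n ≤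
      10 * Real.sqrt y := by
    have h2 : ∀ n ∈ (Finset.Ico 2 y).filter (fun n => n ≤ ⌊Real.sqrt y⌋₊), 5 / Real.log n ≤ 10 := by
      intro n hn
      rw [Finset.mem_filter, Finset.mem_Ico] at hn
      have h3 : Real.log 2 ≤ Real.log n := Real.log_le_log (by norm_num) (by exact_mod_cast hn.1.1)
      rw [div_le_iff₀ (by linarith)]
      linarith
    refine (Finset.sum_le_card_nsmul _ _ _ h2).trans ?_
    rw [nsmul_eq_mul]
    have h3 : ((Finset.Ico 2 y).filter (fun n => n ≤ ⌊Real.sqrt y⌋₊)).card ≤ ⌊Real.sqrt y⌋₊ := by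
      have h4 : (Finset.Ico 2 y).filter (fun n => n ≤ ⌊Real.sqrt y⌋₊) ⊆
          Finset.Icc 1 ⌊Real.sqrt y⌋₊ := by
        intro n hn
        rw [Finset.mem_filter, Finset.mem_Ico] at hn
        rw [Finset.mem_Icc]
        exact ⟨by omega, hn.2⟩
      have h5 := Finset.card_le_card h4
      rw [Nat.card_Icc, Nat.add_sub_cancel] at h5
      exact h5
    have h4 : (((Finset.Ico 2 y).filter (fun n => n ≤ ⌊Real.sqrt y⌋₊)).card : ℝ) ≤
        (⌊Real.sqrt y⌋₊ : ℝ) := by exact_mod_cast h3
    have h5 := Nat.floor_le (Real.sqrt_nonneg (y : ℝ))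
    linarith
  have h2 : ∑ n ∈ (Finset.Ico 2 y).filter (fun n => ¬ n ≤ ⌊Real.sqrt y⌋₊), 5 / Real.log n ≤
      y * (10 / Real.log y) := by
    have h3 : ∀ n ∈ (Finset.Ico 2 y).filter (fun n => ¬ n ≤ ⌊Real.sqrt y⌋₊),
        5 / Real.log n ≤ 10 / Real.log y := by
      intro n hn
      rw [Finset.mem_filter, not_le] at hn
      have h4 : Real.sqrt y < n := (Nat.floor_lt (Real.sqrt_nonneg _)).1 hn.2
      have h5 := Real.log_le_log (Real.sqrt_pos.2 (by linarith)) h4.le
      rw [Real.log_sqrt (by linarith)] at h5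
      have h6 : 0 < Real.log n := by linarith
      rw [div_le_div_iff₀ h6 hl]
      linarith
    refine (Finset.sum_le_card_nsmul _ _ _ h3).trans ?_
    rw [nsmul_eq_mul]
    apply mul_le_mul_of_nonneg_right _ (by positivity)
    have h4 : ((Finset.Ico 2 y).filter (fun n => ¬ n ≤ ⌊Real.sqrt y⌋₊)).card ≤ y := by
      refine (Finset.card_filter_le _ _).trans ?_
      rw [Nat.card_Ico]
      omega
    exact_mod_cast h4
  calc _ ≤ 10 * Real.sqrt y + y * (10 / Real.log y) := add_le_add h1 h2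
    _ ≤ 10 * (2 * y / Real.log y) + y * (10 / Real.log y) := by linarith
    _ = 30 * y / Real.log y := by ring
    _ ≤ 50 * y / Real.log y := by
        apply div_le_div_of_nonneg_right _ hl.le
        linarith

/-- `∑_{p ≤ y} (log y - log p) ≤ C y/log y`. PROOF. `∑_{p ≤ y} log (y/p) = ∑_{p ≤ y} ∑_{p ≤ n < y} (log (n+1) - log n) ≤
∑_{n < y} π(n)/n ≤ C ∑_{2 ≤ n ≤ y} 1/log n ≤ C' y/log y` (`Cheb.pi_upper`; split the last sum at `√y`). -/
lemma sum_log_ratio_le : ∃ C : ℝ, 0 < C ∧ ∀ y : ℕ, 2 ≤ y →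
    ∑ p ∈ prI 0 y, (Real.log y - Real.log p) ≤ C * y / Real.log y := by
  exact ⟨50, by norm_num, fun y hy => (aux_sum y hy).trans (aux_split y hy)⟩

end Pool.Agent.PP
end

section

/-!
# F2: covering lemmas
-/

set_option autoImplicit false

namespace Pool.Agent.PP

open Finset MeasureTheory Real
open Pool.Agent.MC (ee expSum frac frac' arcSum fareySet)
open Pool.Agent.Lib.MP_bae66e_nt.AP3 (Rough rset dset prI KT flEta FLP cset Om0 xb prm)

/-- As `MC.integral_le_sum_cover` (file `Lib/MP_9cfc0a_nt/Farey.lean`), but only the points where `F ≠ 0` need to be covered; the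
same proof (where `F x = 0` the inequality of the integrands is trivial). -/
lemma integral_le_sum_cover_supp {ι : Type*} (F : ℝ → ℝ) (hF : Continuous F) (hF0 : ∀ x, 0 ≤ F x)
    (u v : ℝ) (huv : u ≤ v) (s : Finset ι) (c T : ι → ℝ) (hT : ∀ i ∈ s, 0 ≤ T i)
    (hcov : ∀ x ∈ Set.Ioo u v, F x ≠ 0 → ∃ i ∈ s, |x - c i| ≤ T i) :
    ∫ x in u..v, F x ≤ ∑ i ∈ s, ∫ β in (-(T i))..(T i), F (c i + β) := by
  have h1 : ∫ x in u..v, F x = ∫ x, (Set.Ioo u v).indicator F x := by
    rw [intervalIntegral.integral_of_le huv, integral_Ioc_eq_integral_Ioo,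
      integral_indicator measurableSet_Ioo]
  have h2 : ∀ i ∈ s, ∫ β in (-(T i))..(T i), F (c i + β)
      = ∫ x, (Set.Icc (c i - T i) (c i + T i)).indicator F x := by
    intro i hi
    rw [intervalIntegral.integral_comp_add_left (fun x => F x) (c i), integral_indicator
      measurableSet_Icc, intervalIntegral.integral_of_le (by linarith [hT i hi]),
      integral_Icc_eq_integral_Ioc]
    rfl
  rw [h1, Finset.sum_congr rfl h2]
  have hint : ∀ i ∈ s, Integrable ((Set.Icc (c i - T i) (c i + T i)).indicator F) := by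
    intro i _
    rw [integrable_indicator_iff measurableSet_Icc]
    exact hF.continuousOn.integrableOn_Icc
  rw [← integral_finsetSum _ hint]
  refine integral_mono ?_ (integrable_finsetSum _ hint) ?_
  · rw [integrable_indicator_iff measurableSet_Ioo]
    exact (hF.continuousOn.integrableOn_Icc).mono_set Set.Ioo_subset_Icc_self
  · intro x
    by_cases hx : x ∈ Set.Ioo u v
    · rw [Set.indicator_of_mem hx]
      by_cases hFx : F x = 0
      · rw [hFx]
        exact Finset.sum_nonneg fun j _ => Set.indicator_nonneg (fun y _ => hF0 y) x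
      · obtain ⟨i, hi, hxi⟩ := hcov x hx hFx
        have hmem : x ∈ Set.Icc (c i - T i) (c i + T i) := by
          rw [abs_le] at hxi
          constructor <;> linarith [hxi.1, hxi.2]
        calc F x = (Set.Icc (c i - T i) (c i + T i)).indicator F x :=
              (Set.indicator_of_mem hmem F).symm
          _ ≤ ∑ j ∈ s, (Set.Icc (c j - T j) (c j + T j)).indicator F x :=
              Finset.single_le_sum (f := fun j => (Set.Icc (c j - T j) (c j + T j)).indicator F x)
                (fun j _ => Set.indicator_nonneg (fun y _ => hF0 y) x) hi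
    · rw [Set.indicator_of_notMem hx]
      exact Finset.sum_nonneg fun j _ => Set.indicator_nonneg (fun y _ => hF0 y) x

/-- Dirichlet: exactly the argument inside `MC.le_sum_farey_arcs` (file `Lib/MP_9cfc0a_nt/Farey.lean`), copy it. -/
lemma farey_cover (N : ℕ) (hN : 1 ≤ N) (x : ℝ)
    (hx : x ∈ Set.Ioo (1 / ((N : ℝ) + 1)) (1 / ((N : ℝ) + 1) + 1)) :
    ∃ q ∈ Icc 1 N, ∃ b ∈ frac' q, |x - (b : ℝ) / q| ≤ 1 / ((q : ℝ) * N) := by
  have hNR : (1 : ℝ) ≤ N := by exact_mod_cast hN
  obtain ⟨r, hr, hden⟩ := Real.exists_rat_abs_sub_le_and_den_le x (show 0 < N by omega)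
  have hqpos : (0 : ℝ) < r.den := by exact_mod_cast r.pos
  have hq1 : (1 : ℝ) ≤ r.den := by exact_mod_cast r.pos
  have hqN : (r.den : ℝ) ≤ N := by exact_mod_cast hden
  have hrR : (r : ℝ) = (r.num : ℝ) / r.den := by
    exact_mod_cast (Rat.num_div_den r).symm
  have hN1 : (0 : ℝ) < (N : ℝ) + 1 := by linarith
  have hsmall : 1 / (((N : ℝ) + 1) * r.den) ≤ 1 / ((N : ℝ) + 1) := by
    apply one_div_le_one_div_of_le hN1
    nlinarith
  rw [abs_le] at hr
  have hnum1 : 1 ≤ r.num := by
    by_contra hcon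
    have hle : r.num ≤ 0 := by omega
    have : (r : ℝ) ≤ 0 := by exact_mod_cast Rat.num_nonpos.mp hle
    have := hx.1
    linarith [hr.2]
  have hnum2 : r.num ≤ r.den := by
    by_contra hcon
    have hge : (r.den : ℤ) + 1 ≤ r.num := by omega
    have hgeR : (r.den : ℝ) + 1 ≤ r.num := by exact_mod_cast hge
    have h3 : 1 + 1 / (r.den : ℝ) ≤ r := by
      rw [hrR, le_div_iff₀ hqpos]
      field_simp
      linarith
    have h4 : x < 1 / ((N : ℝ) + 1) + 1 := hx.2
    have h5 : 1 / (((N : ℝ) + 1) * r.den) + 1 / ((N : ℝ) + 1) ≤ 1 / (r.den : ℝ) := by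
      rw [div_add_div _ _ (by positivity) (by positivity), div_le_div_iff₀ (by positivity)
        (by positivity)]
      nlinarith [mul_pos hN1 hqpos, mul_pos hN1 hN1]
    linarith [hr.1]
  obtain ⟨b, hb⟩ : ∃ b : ℕ, (b : ℤ) = r.num := ⟨r.num.toNat, by omega⟩
  refine ⟨r.den, Finset.mem_Icc.2 ⟨r.pos, hden⟩, b, ?_, ?_⟩
  · rw [frac', Finset.mem_filter, Finset.mem_Icc]
    refine ⟨⟨by omega, by omega⟩, ?_⟩
    have := r.reduced
    rw [← hb] at this
    simpa using this
  · have hbR : (b : ℝ) = r.num := by exact_mod_cast hb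
    rw [hbR, ← hrR, abs_le]
    have h6 : 1 / (((N : ℝ) + 1) * r.den) ≤ 1 / ((r.den : ℝ) * N) := by
      apply one_div_le_one_div_of_le (by positivity)
      nlinarith
    constructor <;> linarith [hr.1, hr.2]

end Pool.Agent.PP
end

section

/-!
# G2: from `log p` to `log y`
-/

set_option autoImplicit false

namespace Pool.Agent.PP

open Finset MeasureTheory Real
open Pool.Agent.MC (ee expSum frac frac' arcSum fareySet)
open Pool.Agent.Lib.MP_bae66e_nt.AP3 (Rough rset dset prI KT flEta FLP cset Om0 xb prm)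

/-- `log (y/n)` on the primes `n ≤ y` -/
noncomputable def dl (y n : ℕ) : ℝ := if n.Prime ∧ n ≤ y then Real.log y - Real.log n else 0

lemma G2_fact (y : ℕ) (hy : 1 ≤ y) : ∑ n ∈ Icc 1 y, (Real.log y - Real.log n) ≤ y := by
  have hy0 : (0 : ℝ) < y := by exact_mod_cast hy
  have h1 : ∑ n ∈ Icc 1 y, Real.log (n : ℝ) = Real.log ((y.factorial : ℕ) : ℝ) := by
    clear hy hy0
    induction y with
    | zero => simp
    | succ y ih =>
      rw [Finset.sum_Icc_succ_top (by omega), ih, Nat.factorial_succ, Nat.cast_mul,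
        Real.log_mul (by positivity) (by positivity)]
      ring
  have hf : (0 : ℝ) < ((y.factorial : ℕ) : ℝ) := by exact_mod_cast Nat.factorial_pos y
  have h2 := Real.pow_div_factorial_le_exp (x := (y : ℝ)) hy0.le y
  have h3 := Real.log_le_log (by positivity) h2
  rw [Real.log_exp, Real.log_div (by positivity) hf.ne', Real.log_pow] at h3
  rw [Finset.sum_sub_distrib, h1]
  simp only [Finset.sum_const, Nat.card_Icc, Nat.add_sub_cancel, nsmul_eq_mul]
  exact h3

lemma G2_tel (y p : ℕ) (hp : 1 ≤ p) (m : ℕ) (hpm : p ≤ m) : m ≤ y →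
    (Real.log y - Real.log p) ^ 2 - (Real.log y - Real.log m) ^ 2
      ≤ ∑ n ∈ Ico p m, 2 * (Real.log y - Real.log n) / n := by
  induction m, hpm using Nat.le_induction with
  | base => intro _; simp
  | succ m hm ih =>
    intro hmy
    have hm0 : (0 : ℝ) < m := by exact_mod_cast (by omega : 0 < m)
    have ih' := ih (by omega)
    rw [Finset.sum_Ico_succ_top hm]
    have h1 : Real.log ((m + 1 : ℕ) : ℝ) - Real.log m ≤ 1 / m := by
      rw [← Real.log_div (by positivity) hm0.ne']
      have h2 := Real.log_le_sub_one_of_pos (x := ((m + 1 : ℕ) : ℝ) / m) (by positivity)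
      have h3 : ((m + 1 : ℕ) : ℝ) / m - 1 = 1 / m := by
        push_cast
        field_simp
        ring
      rwa [h3] at h2
    have h4 : Real.log m ≤ Real.log ((m + 1 : ℕ) : ℝ) :=
      Real.log_le_log hm0 (by push_cast; linarith)
    have h5 : Real.log ((m + 1 : ℕ) : ℝ) ≤ Real.log y :=
      Real.log_le_log (by positivity) (by exact_mod_cast hmy)
    set u := Real.log y - Real.log m with hu
    set v := Real.log y - Real.log ((m + 1 : ℕ) : ℝ) with hv
    have huv : u - v ≤ 1 / m := by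
      rw [hu, hv]
      linarith
    have hvu : v ≤ u := by
      rw [hu, hv]
      linarith
    have hv0 : 0 ≤ v := by
      rw [hv]
      linarith
    have h6 : u ^ 2 - v ^ 2 ≤ 2 * u / m := by
      have h7 : u ^ 2 - v ^ 2 = (u - v) * (u + v) := by ring
      rw [h7]
      calc (u - v) * (u + v) ≤ (1 / m) * (2 * u) := by
            apply mul_le_mul huv (by linarith) (by linarith) (by positivity)
        _ = 2 * u / m := by ring
    linarith

lemma G2_card (n : ℕ) : ((prI 0 n).card : ℝ) ≤ Nat.primeCounting n := by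
  have h : (prI 0 n).card ≤ Nat.primeCounting n := by
    unfold Nat.primeCounting Nat.primeCounting'
    rw [Nat.count_eq_card_filter_range]
    apply Finset.card_le_card
    intro p hp
    rw [Pool.Agent.Lib.MP_bae66e_nt.AP3.mem_prI] at hp
    rw [Finset.mem_filter, Finset.mem_range]
    exact ⟨by omega, hp.2⟩
  exact_mod_cast h

lemma G2_term (y n : ℕ) (hn : 2 ≤ n) (hny : n ≤ y) :
    (Nat.primeCounting n : ℝ) * (2 * (Real.log y - Real.log n) / n) ≤
      (if n ≤ Nat.sqrt y then 15 * Real.log y else 0) + 20 / Real.log y * (Real.log y - Real.log n) := by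
  have hn0 : (0 : ℝ) < n := by exact_mod_cast (by omega : 0 < n)
  have hy2 : (2 : ℝ) ≤ y := by exact_mod_cast (hn.trans hny)
  have hln : Real.log 2 ≤ Real.log n := Real.log_le_log (by norm_num) (by exact_mod_cast hn)
  have hl2 : (0.69 : ℝ) < Real.log 2 := by
    have := Real.log_two_gt_d9
    linarith
  have hly : Real.log n ≤ Real.log y := Real.log_le_log hn0 (by exact_mod_cast hny)
  have hlp : 0 < Real.log n := by linarith
  have hlyp : 0 < Real.log y := by linarith
  have hu : 0 ≤ Real.log y - Real.log n := by linarith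
  have h1 : (Nat.primeCounting n : ℝ) * (2 * (Real.log y - Real.log n) / n) ≤
      10 * (Real.log y - Real.log n) / Real.log n := by
    calc (Nat.primeCounting n : ℝ) * (2 * (Real.log y - Real.log n) / n)
        ≤ (5 * n / Real.log n) * (2 * (Real.log y - Real.log n) / n) :=
          mul_le_mul_of_nonneg_right (Pool.Agent.Lib.MP_bae66e_nt.pi_upper n hn) (by positivity)
      _ = 10 * (Real.log y - Real.log n) / Real.log n := by
          field_simp
          ring
  refine h1.trans ?_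
  split_ifs with hs
  · have h2 : 10 * (Real.log y - Real.log n) / Real.log n ≤ 15 * Real.log y := by
      rw [div_le_iff₀ hlp]
      have h3 : 10 * Real.log y ≤ 15 * Real.log y * Real.log n := by nlinarith
      linarith
    have h4 : 0 ≤ 20 / Real.log y * (Real.log y - Real.log n) := by positivity
    linarith
  · push Not at hs
    have h5 : y < n * n := Nat.sqrt_lt.1 hs
    have h6 : Real.log y ≤ 2 * Real.log n := by
      have h7 : Real.log y ≤ Real.log ((n : ℝ) * n) :=
        Real.log_le_log (by linarith) (by exact_mod_cast h5.le)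
      rw [Real.log_mul hn0.ne' hn0.ne'] at h7
      linarith
    rw [zero_add, div_mul_eq_mul_div, div_le_div_iff₀ hlp hlyp]
    nlinarith

lemma G2_main (y : ℕ) (hy : 2 ≤ y) :
    ∑ p ∈ prI 0 y, (Real.log y - Real.log p) ^ 2 ≤ 260 * y / Real.log y := by
  have hy0 : (0 : ℝ) < y := by exact_mod_cast (by omega : 0 < y)
  have hlyp : 0 < Real.log y := Real.log_pos (by exact_mod_cast (by omega : 1 < y))
  have h1 : ∑ p ∈ prI 0 y, (Real.log y - Real.log p) ^ 2 ≤
      ∑ p ∈ prI 0 y, ∑ n ∈ Ico p y, 2 * (Real.log y - Real.log n) / n := by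
    apply Finset.sum_le_sum
    intro p hp
    rw [Pool.Agent.Lib.MP_bae66e_nt.AP3.mem_prI] at hp
    have h2 := G2_tel y p hp.2.one_le y hp.1.2 le_rfl
    rw [sub_self] at h2
    linarith
  have h2 : ∑ p ∈ prI 0 y, ∑ n ∈ Ico p y, 2 * (Real.log y - Real.log n) / n =
      ∑ n ∈ range y, ∑ p ∈ prI 0 n, 2 * (Real.log y - Real.log n) / n := by
    apply Finset.sum_comm'
    intro p n
    rw [Pool.Agent.Lib.MP_bae66e_nt.AP3.mem_prI, Pool.Agent.Lib.MP_bae66e_nt.AP3.mem_prI,
      Finset.mem_Ico, Finset.mem_range]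
    constructor
    · rintro ⟨⟨⟨h3, h4⟩, h5⟩, h6, h7⟩
      exact ⟨⟨⟨h3, h6⟩, h5⟩, h7⟩
    · rintro ⟨⟨⟨h3, h6⟩, h5⟩, h7⟩
      exact ⟨⟨⟨h3, by omega⟩, h5⟩, h6, h7⟩
  have h3 : ∑ n ∈ range y, ∑ p ∈ prI 0 n, 2 * (Real.log y - Real.log n) / n ≤
      ∑ n ∈ Icc 1 y, ((if n ≤ Nat.sqrt y then 15 * Real.log y else 0) +
        20 / Real.log y * (Real.log y - Real.log n)) := by
    have hsub : ∑ n ∈ range y, ∑ p ∈ prI 0 n, 2 * (Real.log y - Real.log n) / n =
        ∑ n ∈ Ico 1 y, ∑ p ∈ prI 0 n, 2 * (Real.log y - Real.log n) / n := by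
      rw [Finset.range_eq_Ico, Finset.sum_eq_sum_Ico_succ_bot (by omega : 0 < y)]
      simp [prI]
    rw [hsub]
    have hnn : ∀ n ∈ Icc 1 y, (0 : ℝ) ≤ (if n ≤ Nat.sqrt y then 15 * Real.log y else 0) +
        20 / Real.log y * (Real.log y - Real.log n) := by
      intro n hn
      rw [Finset.mem_Icc] at hn
      have hn0 : (0 : ℝ) < n := by exact_mod_cast (by omega : 0 < n)
      have hly : Real.log n ≤ Real.log y := Real.log_le_log hn0 (by exact_mod_cast hn.2)
      have h4 : 0 ≤ 20 / Real.log y * (Real.log y - Real.log n) :=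
        mul_nonneg (by positivity) (by linarith)
      have h5 : (0 : ℝ) ≤ (if n ≤ Nat.sqrt y then 15 * Real.log y else 0) := by
        split_ifs <;> positivity
      linarith
    calc ∑ n ∈ Ico 1 y, ∑ p ∈ prI 0 n, 2 * (Real.log y - Real.log n) / n
        ≤ ∑ n ∈ Ico 1 y, ((if n ≤ Nat.sqrt y then 15 * Real.log y else 0) +
          20 / Real.log y * (Real.log y - Real.log n)) := by
          apply Finset.sum_le_sum
          intro n hn
          rw [Finset.mem_Ico] at hn
          have hn0 : (0 : ℝ) < n := by exact_mod_cast (by omega : 0 < n)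
          have hly : Real.log n ≤ Real.log y := Real.log_le_log hn0 (by exact_mod_cast hn.2.le)
          rw [Finset.sum_const, nsmul_eq_mul]
          by_cases hn1 : n = 1
          · subst hn1
            have h6 : prI 0 1 = ∅ := by
              ext p
              rw [Pool.Agent.Lib.MP_bae66e_nt.AP3.mem_prI]
              simp only [Finset.notMem_empty, iff_false]
              rintro ⟨⟨h7, h8⟩, h9⟩
              have := h9.two_le
              omega
            rw [h6, Finset.card_empty, Nat.cast_zero, zero_mul]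
            exact hnn 1 (Finset.mem_Icc.2 ⟨le_rfl, by omega⟩)
          · calc ((prI 0 n).card : ℝ) * (2 * (Real.log y - Real.log n) / n)
                ≤ (Nat.primeCounting n : ℝ) * (2 * (Real.log y - Real.log n) / n) := by
                  apply mul_le_mul_of_nonneg_right (G2_card n)
                  apply div_nonneg _ hn0.le
                  linarith
              _ ≤ _ := G2_term y n (by omega) (by omega)
      _ ≤ _ := by
          apply Finset.sum_le_sum_of_subset_of_nonneg
          · intro n hn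
            rw [Finset.mem_Ico] at hn
            rw [Finset.mem_Icc]
            exact ⟨hn.1, hn.2.le⟩
          · intro n hn _
            exact hnn n hn
  have h4 : ∑ n ∈ Icc 1 y, ((if n ≤ Nat.sqrt y then 15 * Real.log y else 0) +
        20 / Real.log y * (Real.log y - Real.log n)) ≤ 15 * Real.log y * √(y : ℝ) + 20 / Real.log y * y := by
    rw [Finset.sum_add_distrib, ← Finset.mul_sum]
    apply add_le_add
    · rw [← Finset.sum_filter, Finset.sum_const, nsmul_eq_mul, mul_comm]
      apply mul_le_mul_of_nonneg_left _ (by positivity)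
      have h5 : ((Icc 1 y).filter (fun n => n ≤ Nat.sqrt y)).card ≤ Nat.sqrt y := by
        calc ((Icc 1 y).filter (fun n => n ≤ Nat.sqrt y)).card ≤ (Icc 1 (Nat.sqrt y)).card := by
              apply Finset.card_le_card
              intro n hn
              rw [Finset.mem_filter, Finset.mem_Icc] at hn
              rw [Finset.mem_Icc]
              exact ⟨hn.1.1, hn.2⟩
          _ = Nat.sqrt y := by simp
      calc ((((Icc 1 y).filter (fun n => n ≤ Nat.sqrt y)).card : ℕ) : ℝ) ≤ ((Nat.sqrt y : ℕ) : ℝ) := by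
            exact_mod_cast h5
        _ ≤ √(y : ℝ) := Real.nat_sqrt_le_real_sqrt
    · exact mul_le_mul_of_nonneg_left (G2_fact y (by omega)) (by positivity)
  have h5 : Real.log y * √(y : ℝ) ≤ 16 * y / Real.log y := by
    rw [le_div_iff₀ hlyp]
    have hs : 0 < √(y : ℝ) := Real.sqrt_pos.2 hy0
    have h6 := Pool.Agent.Lib.MP_bae66e_nt.log_le_two_sqrt (x := √(y : ℝ)) hs
    rw [Real.log_sqrt hy0.le] at h6
    have h7 : Real.log y ≤ 4 * √(√(y : ℝ)) := by linarith
    have h8 : Real.log y * Real.log y ≤ 16 * √(y : ℝ) := by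
      calc Real.log y * Real.log y ≤ (4 * √(√(y : ℝ))) * (4 * √(√(y : ℝ))) :=
            mul_le_mul h7 h7 hlyp.le (by positivity)
        _ = 16 * (√(√(y : ℝ)) * √(√(y : ℝ))) := by ring
        _ = 16 * √(y : ℝ) := by rw [Real.mul_self_sqrt hs.le]
    calc Real.log y * √(y : ℝ) * Real.log y = (Real.log y * Real.log y) * √(y : ℝ) := by ring
      _ ≤ (16 * √(y : ℝ)) * √(y : ℝ) := mul_le_mul_of_nonneg_right h8 hs.le
      _ = 16 * (√(y : ℝ) * √(y : ℝ)) := by ring
      _ = 16 * y := by rw [Real.mul_self_sqrt hy0.le]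
  calc ∑ p ∈ prI 0 y, (Real.log y - Real.log p) ^ 2
      ≤ 15 * Real.log y * √(y : ℝ) + 20 / Real.log y * y := by
        rw [h2] at h1
        exact h1.trans (h3.trans h4)
    _ ≤ 15 * (16 * y / Real.log y) + 20 / Real.log y * y := by
        have : 15 * Real.log y * √(y : ℝ) = 15 * (Real.log y * √(y : ℝ)) := by ring
        rw [this]
        linarith
    _ = 260 * y / Real.log y := by ring

lemma G2_sum (y : ℕ) (k : ℕ) (hk : 1 ≤ k) : ∑ n ∈ range (y + 1), dl y n ^ k =
    ∑ p ∈ prI 0 y, (Real.log y - Real.log p) ^ k := by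
  have h1 : prI 0 y = (range (y + 1)).filter (fun n => n.Prime ∧ n ≤ y) := by
    ext p
    rw [Pool.Agent.Lib.MP_bae66e_nt.AP3.mem_prI, Finset.mem_filter, Finset.mem_range]
    constructor
    · rintro ⟨⟨_, h2⟩, h3⟩
      exact ⟨by omega, h3, h2⟩
    · rintro ⟨_, h3, h2⟩
      exact ⟨⟨h3.pos, h2⟩, h3⟩
  rw [h1, Finset.sum_filter]
  apply Finset.sum_congr rfl
  intro n _
  unfold dl
  split_ifs with h
  · rfl
  · exact zero_pow (by omega)

/-- `∑_{p ≤ y} log² (y/p) ≤ C y/log y`. PROOF. For `2^(-k-1) y < p ≤ 2^(-k) y` we have `log (y/p) ≤ (k+1) log 2 ≤ k + 1`; the number of such `p` is at most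
`π(y/2^k) ≤ 5 (y/2^k)/log (y/2^k) ≤ 10 (y/2^k)/log y` for `2^k ≤ √y` (`Cheb.pi_upper`), and the primes `≤ √y + 1` contribute at most
`(√y + 1) log² y`. `∑ (k+1)²/2^k ≤ 12`. (Alternatively partial summation as in `sum_log_ratio_le`.) -/
lemma sum_dl_sq : ∃ C : ℝ, 0 < C ∧ ∀ y : ℕ, 2 ≤ y →
    ∑ n ∈ range (y + 1), dl y n ^ 2 ≤ C * y / Real.log y := by
  refine ⟨260, by norm_num, ?_⟩
  intro y hy
  rw [G2_sum y 2 (by norm_num)]
  exact G2_main y hy

/-- PROOF. `‖D α‖ ≤ ∑ dl y n ≤ C y/log y` (`sum_log_ratio_le`), so `∫ ‖D‖⁴ ≤ (C y/log y)² ∫ ‖D‖² = (C y/log y)² ∑ dl²` (`MC.parseval`), `sum_dl_sq`. -/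
lemma fourth_dl : ∃ C : ℝ, 0 < C ∧ ∀ y : ℕ, 2 ≤ y →
    ∫ α in (0:ℝ)..1, ‖expSum (fun n => ((dl y n : ℝ) : ℂ)) (y + 1) α‖ ^ 4
      ≤ C * (y : ℝ) ^ 3 / Real.log y ^ 3 := by
  obtain ⟨C1, hC1, h1⟩ := sum_log_ratio_le
  obtain ⟨C2, hC2, h2⟩ := sum_dl_sq
  refine ⟨C1 ^ 2 * C2, by positivity, ?_⟩
  intro y hy
  have hy0 : (0 : ℝ) < y := by exact_mod_cast (by omega : 0 < y)
  have hlyp : 0 < Real.log y := Real.log_pos (by exact_mod_cast (by omega : 1 < y))
  have hdl : ∀ n, 0 ≤ dl y n := by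
    intro n
    unfold dl
    split_ifs with h
    · have hn0 : (0 : ℝ) < n := by exact_mod_cast h.1.pos
      have hly : Real.log n ≤ Real.log y := Real.log_le_log hn0 (by exact_mod_cast h.2)
      linarith
    · exact le_rfl
  have hsum : ∑ n ∈ range (y + 1), dl y n ≤ C1 * y / Real.log y := by
    have h3 := G2_sum y 1 le_rfl
    simp only [pow_one] at h3
    rw [h3]
    exact h1 y hy
  have hbound : ∀ α : ℝ, ‖expSum (fun n => ((dl y n : ℝ) : ℂ)) (y + 1) α‖ ≤ C1 * y / Real.log y := by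
    intro α
    refine le_trans ?_ hsum
    unfold expSum
    refine (norm_sum_le _ _).trans ?_
    apply Finset.sum_le_sum
    intro n _
    rw [norm_mul, Pool.Agent.MC.norm_ee, mul_one, Complex.norm_real, Real.norm_eq_abs, abs_of_nonneg (hdl n)]
  have hc : Continuous (fun α : ℝ => ‖expSum (fun n => ((dl y n : ℝ) : ℂ)) (y + 1) α‖) :=
    (Pool.Agent.MC.continuous_expSum _ _).norm
  calc ∫ α in (0:ℝ)..1, ‖expSum (fun n => ((dl y n : ℝ) : ℂ)) (y + 1) α‖ ^ 4
      ≤ ∫ α in (0:ℝ)..1, (C1 * y / Real.log y) ^ 2 *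
          ‖expSum (fun n => ((dl y n : ℝ) : ℂ)) (y + 1) α‖ ^ 2 := by
        apply intervalIntegral.integral_mono_on (by norm_num)
        · exact (hc.pow 4).intervalIntegrable _ _
        · exact (continuous_const.mul (hc.pow 2)).intervalIntegrable _ _
        · intro α _
          have h3 : ‖expSum (fun n => ((dl y n : ℝ) : ℂ)) (y + 1) α‖ ^ 4 =
            ‖expSum (fun n => ((dl y n : ℝ) : ℂ)) (y + 1) α‖ ^ 2 *
            ‖expSum (fun n => ((dl y n : ℝ) : ℂ)) (y + 1) α‖ ^ 2 := by ring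
          rw [h3]
          apply mul_le_mul_of_nonneg_right _ (by positivity)
          exact pow_le_pow_left₀ (norm_nonneg _) (hbound α) 2
    _ = (C1 * y / Real.log y) ^ 2 * ∑ n ∈ range (y + 1), dl y n ^ 2 := by
        rw [intervalIntegral.integral_const_mul, Pool.Agent.MC.parseval]
        congr 1
        apply Finset.sum_congr rfl
        intro n _
        rw [Complex.norm_real, Real.norm_eq_abs, sq_abs]
    _ ≤ (C1 * y / Real.log y) ^ 2 * (C2 * y / Real.log y) :=
        mul_le_mul_of_nonneg_left (h2 y hy) (by positivity)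
    _ = C1 ^ 2 * C2 * (y : ℝ) ^ 3 / Real.log y ^ 3 := by
        field_simp

end Pool.Agent.PP
end
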