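import Pool.Agent.Lib.MP_bae66e_nt.Mg.G080
import Pool.Agent.Lib.MP_bae66e_nt.Mg.G079

section

/-!
# W1b: exponential sums over the model
-/

set_option autoImplicit false

namespace Pool.Agent.PP

open Finset MeasureTheory Real
open Pool.Agent.MC (ee expSum frac frac' arcSum fareySet)
open Pool.Agent.Lib.MP_bae66e_nt.AP3 (Rough rset dset prI KT flEta FLP cset Om0 xb prm)

/-- multiples of `d` up to `x` -/
lemma w1b_mult (d x : ℕ) (hd : 1 ≤ d) (f : ℕ → ℂ) :
    ∑ n ∈ (Icc 1 x).filter (fun n => d ∣ n), f n = ∑ m ∈ Ioc 0 (x / d), f (m * d) := by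
  symm
  apply Finset.sum_bij (fun m _ => m * d)
  · intro m hm
    rw [Finset.mem_Ioc] at hm
    rw [Finset.mem_filter, Finset.mem_Icc]
    refine ⟨⟨Nat.mul_pos hm.1 hd, ?_⟩, Dvd.intro_left m rfl⟩
    exact (Nat.le_div_iff_mul_le hd).1 hm.2
  · intro m₁ _ m₂ _ h
    exact Nat.eq_of_mul_eq_mul_right hd h
  · intro n hn
    rw [Finset.mem_filter, Finset.mem_Icc] at hn
    obtain ⟨⟨h1, h2⟩, m, hm⟩ := hn
    refine ⟨m, ?_, by rw [hm]; ring⟩
    rw [Finset.mem_Ioc]
    constructor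
    · rcases Nat.eq_zero_or_pos m with h | h
      · rw [h] at hm; omega
      · exact h
    · rw [Nat.le_div_iff_mul_le hd]
      rw [hm] at h2
      linarith [mul_comm d m]
  · intro m _
    rfl

/-- the sum of `nu` against a function -/
lemma w1b_nu (W x : ℕ) (hW : 1 ≤ W) (f : ℕ → ℂ) :
    ∑ n ∈ Icc 1 x, ((nu W n : ℝ) : ℂ) * f n = ((W : ℂ) / (Nat.totient W : ℂ)) *
      ∑ d ∈ W.divisors, (ArithmeticFunction.moebius d : ℂ) *
        ∑ m ∈ Ioc 0 (x / d), f (m * d) := by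
  have h1 : ∀ n ∈ Icc 1 x, ((nu W n : ℝ) : ℂ) * f n = ((W : ℂ) / (Nat.totient W : ℂ)) *
      ∑ d ∈ W.divisors, (if d ∣ n then (ArithmeticFunction.moebius d : ℂ) * f n else 0) := by
    intro n _
    rw [nu_eq W n hW]
    push_cast
    rw [mul_assoc, Finset.sum_mul]
    congr 1
    apply Finset.sum_congr rfl
    intro d _
    split_ifs
    · push_cast
      rfl
    · push_cast
      rw [zero_mul]
  rw [Finset.sum_congr rfl h1, ← Finset.mul_sum, Finset.sum_comm]
  congr 1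
  apply Finset.sum_congr rfl
  intro d hd
  have hd1 : 1 ≤ d := Nat.pos_of_mem_divisors hd
  rw [← w1b_mult d x hd1 f, Finset.mul_sum, Finset.sum_filter]

private lemma aux_bound (W x : ℕ) (hW : 2 ≤ W) (α K : ℝ) (hK0 : 0 ≤ K)
    (hK : ∀ d ∈ W.divisors, 0 < dn (d * α) ∧ 1 / dn (d * α) ≤ K) :
    ‖∑ n ∈ Icc 1 x, ((nu W n : ℝ) : ℂ) * ee (n * α)‖ ≤ (W : ℝ) ^ 2 * K := by
  rw [w1b_nu W x (by omega) (fun n => ee (n * α)), norm_mul]
  have hφ : (1 : ℝ) ≤ (Nat.totient W : ℝ) := by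
    exact_mod_cast Nat.totient_pos.2 (by omega)
  have h1 : ‖((W : ℂ) / (Nat.totient W : ℂ))‖ ≤ W := by
    rw [norm_div, Complex.norm_natCast, Complex.norm_natCast]
    exact div_le_self (Nat.cast_nonneg _) hφ
  have h2 : ‖∑ d ∈ W.divisors, (ArithmeticFunction.moebius d : ℂ) *
        ∑ m ∈ Ioc 0 (x / d), ee (((m * d : ℕ) : ℝ) * α)‖ ≤ W * K := by
    refine (norm_sum_le _ _).trans ?_
    have h3 : ∀ d ∈ W.divisors, ‖(ArithmeticFunction.moebius d : ℂ) *
        ∑ m ∈ Ioc 0 (x / d), ee (((m * d : ℕ) : ℝ) * α)‖ ≤ K := by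
      intro d hd
      rw [norm_mul]
      have h4 : ‖(ArithmeticFunction.moebius d : ℂ)‖ ≤ 1 := by
        rw [Complex.norm_intCast]
        exact_mod_cast ArithmeticFunction.abs_moebius_le_one
      have h5 : ‖∑ m ∈ Ioc 0 (x / d), ee (((m * d : ℕ) : ℝ) * α)‖ ≤ K := by
        have h6 := geo_sum ((d : ℝ) * α) 0 (x / d) (Nat.zero_le _)
        have h7 : ∀ m ∈ Ioc 0 (x / d), ee (((m * d : ℕ) : ℝ) * α) =
            ee ((m : ℝ) * ((d : ℝ) * α)) := by
          intro m _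
          congr 1
          push_cast
          ring
        rw [Finset.sum_congr rfl h7]
        refine h6.trans ?_
        exact (GG_le_inv (by simp) (hK d hd).1).trans (hK d hd).2
      calc ‖(ArithmeticFunction.moebius d : ℂ)‖ *
            ‖∑ m ∈ Ioc 0 (x / d), ee (((m * d : ℕ) : ℝ) * α)‖ ≤ 1 * K :=
            mul_le_mul h4 h5 (norm_nonneg _) (by norm_num)
        _ = K := one_mul K
    refine (Finset.sum_le_card_nsmul _ _ _ h3).trans ?_
    rw [nsmul_eq_mul]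
    apply mul_le_mul_of_nonneg_right _ hK0
    have h4 : W.divisors ⊆ Icc 1 W := by
      intro d hd
      rw [Finset.mem_Icc]
      exact ⟨Nat.pos_of_mem_divisors hd, Nat.divisor_le hd⟩
    have h5 := Finset.card_le_card h4
    rw [Nat.card_Icc, Nat.add_sub_cancel] at h5
    exact_mod_cast h5
  calc ‖((W : ℂ) / (Nat.totient W : ℂ))‖ * ‖∑ d ∈ W.divisors, (ArithmeticFunction.moebius d : ℂ) *
        ∑ m ∈ Ioc 0 (x / d), ee (((m * d : ℕ) : ℝ) * α)‖ ≤ W * (W * K) :=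
        mul_le_mul h1 h2 (norm_nonneg _) (Nat.cast_nonneg _)
    _ = (W : ℝ) ^ 2 * K := by ring

private lemma aux_dn (W q a d : ℕ) (hq : 1 ≤ q) (ha : Nat.Coprime a q) (β : ℝ)
    (hβ : W * |β| ≤ 1 / (2 * q)) (hd : d ∈ W.divisors) (hqd : ¬ q ∣ d) :
    1 / (2 * (q : ℝ)) ≤ dn (d * (a / q + β)) := by
  have hq0 : (0 : ℝ) < q := by exact_mod_cast hq
  have h1 := dn_rat_ge q hq (a : ℤ) (d : ℤ) (Nat.isCoprime_iff_coprime.2 ha)
    (by intro h; exact hqd (by exact_mod_cast h))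
  have h2 := dn_sub_le (((d : ℤ) : ℝ) * (((a : ℤ) : ℝ) / q)) (d * (a / q + β))
  have h3 : |((d : ℤ) : ℝ) * (((a : ℤ) : ℝ) / q) - d * (a / q + β)| = d * |β| := by
    have : ((d : ℤ) : ℝ) * (((a : ℤ) : ℝ) / q) - d * (a / q + β) = -(d * β) := by
      push_cast
      ring
    rw [this, abs_neg, abs_mul, Nat.abs_cast]
  rw [h3] at h2
  have h4 : (d : ℝ) * |β| ≤ W * |β| := by
    apply mul_le_mul_of_nonneg_right _ (abs_nonneg _)
    exact_mod_cast Nat.divisor_le hd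
  have h5 : 1 / (q : ℝ) = 1 / (2 * q) + 1 / (2 * q) := by field_simp; norm_num
  linarith

/-- PROOF. `nu_eq`: the sum is `(W/φ(W)) ∑_{d ∣ W} μ(d) ∑_{m ≤ x/d} ee (m d α)`, `α = a/q + β`. For `d ∣ W` we have `q ∤ d`, so
`dn (d α) ≥ dn (d a/q) - d|β| ≥ 1/q - 1/(2q) = 1/(2 q)` (`dn_rat_ge`, `dn_sub_le`, `d ≤ W`) and the inner sum is `≤ 2 q`
(`geo_sum`, `GG_le_inv`). At most `W` divisors, `W/φ(W) ≤ W`, `2 ≤ W`. -/
lemma nu_exp_not_dvd (W q a x : ℕ) (hW : 2 ≤ W) (hq : 1 ≤ q) (ha : Nat.Coprime a q) (β : ℝ)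
    (hβ : W * |β| ≤ 1 / (2 * q)) (hqW : ¬ q ∣ W) :
    ‖∑ n ∈ Icc 1 x, ((nu W n : ℝ) : ℂ) * ee (n * (a / q + β))‖ ≤ (W : ℝ) ^ 3 * q := by
  have hq0 : (0 : ℝ) < q := by exact_mod_cast hq
  have hWr : (2 : ℝ) ≤ W := by exact_mod_cast hW
  refine (aux_bound W x hW (a / q + β) (2 * q) (by positivity) ?_).trans ?_
  · intro d hd
    have hqd : ¬ q ∣ d := fun h => hqW (h.trans (Nat.dvd_of_mem_divisors hd))
    have h1 := aux_dn W q a d hq ha β hβ hd hqd
    have h0 : 0 < 1 / (2 * (q : ℝ)) := by positivity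
    refine ⟨lt_of_lt_of_le h0 h1, ?_⟩
    calc 1 / dn (d * (a / q + β)) ≤ 1 / (1 / (2 * (q : ℝ))) := one_div_le_one_div_of_le h0 h1
      _ = 2 * q := by field_simp
  · calc (W : ℝ) ^ 2 * (2 * q) = 2 * ((W : ℝ) ^ 2 * q) := by ring
      _ ≤ W * ((W : ℝ) ^ 2 * q) := mul_le_mul_of_nonneg_right hWr (by positivity)
      _ = (W : ℝ) ^ 3 * q := by ring

/-- PROOF. As `nu_exp_not_dvd`; the new terms are the `d` with `q ∣ d ∣ W`: then `d α` is `d β` plus an integer, `dn (d α) = d |β|`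
(`dn_add_int`, `dn_eq_abs`; `d |β| ≤ W |β| ≤ 1/2`), and the inner sum is `≤ 1/(d |β|) ≤ 1/|β|`. -/
lemma nu_exp_dvd (W q a x : ℕ) (hW : 2 ≤ W) (hq : 1 ≤ q) (ha : Nat.Coprime a q) (β : ℝ)
    (hβ : W * |β| ≤ 1 / (2 * q)) (hβ0 : β ≠ 0) :
    ‖∑ n ∈ Icc 1 x, ((nu W n : ℝ) : ℂ) * ee (n * (a / q + β))‖ ≤ (W : ℝ) ^ 3 * (q + 1 / |β|) := by
  have hq0 : (0 : ℝ) < q := by exact_mod_cast hq
  have hq1 : (1 : ℝ) ≤ q := by exact_mod_cast hq
  have hWr : (2 : ℝ) ≤ W := by exact_mod_cast hW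
  have hβa : 0 < |β| := abs_pos.2 hβ0
  refine (aux_bound W x hW (a / q + β) (2 * (q + 1 / |β|)) (by positivity) ?_).trans ?_
  · intro d hd
    have hi : 0 < 1 / |β| := by positivity
    by_cases hqd : q ∣ d
    · obtain ⟨e, he⟩ := hqd
      have hd1 : 1 ≤ d := Nat.pos_of_mem_divisors hd
      have hd1r : (1 : ℝ) ≤ d := by exact_mod_cast hd1
      have h1 : (d : ℝ) * (a / q + β) = d * β + ((e * a : ℕ) : ℤ) := by
        rw [he]
        push_cast
        field_simp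
        ring
      have h2 : |(d : ℝ) * β| = d * |β| := by rw [abs_mul, Nat.abs_cast]
      have h3 : (d : ℝ) * |β| ≤ W * |β| := by
        apply mul_le_mul_of_nonneg_right _ (abs_nonneg _)
        exact_mod_cast Nat.divisor_le hd
      have h4 : 1 / (2 * (q : ℝ)) ≤ 1 / 2 := by
        apply one_div_le_one_div_of_le (by norm_num)
        linarith
      have h5 : dn (d * (a / q + β)) = d * |β| := by
        rw [h1, dn_add_int, dn_eq_abs (by rw [h2]; linarith), h2]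
      rw [h5]
      have h6 : |β| ≤ d * |β| := by nlinarith
      refine ⟨by positivity, ?_⟩
      calc 1 / (d * |β|) ≤ 1 / |β| := one_div_le_one_div_of_le hβa h6
        _ ≤ 2 * (q + 1 / |β|) := by linarith
    · have h1 := aux_dn W q a d hq ha β hβ hd hqd
      have h0 : 0 < 1 / (2 * (q : ℝ)) := by positivity
      refine ⟨lt_of_lt_of_le h0 h1, ?_⟩
      calc 1 / dn (d * (a / q + β)) ≤ 1 / (1 / (2 * (q : ℝ))) := one_div_le_one_div_of_le h0 h1
        _ = 2 * q := by field_simp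
        _ ≤ 2 * (q + 1 / |β|) := by linarith
  · calc (W : ℝ) ^ 2 * (2 * (q + 1 / |β|)) = 2 * ((W : ℝ) ^ 2 * (q + 1 / |β|)) := by ring
      _ ≤ W * ((W : ℝ) ^ 2 * (q + 1 / |β|)) := mul_le_mul_of_nonneg_right hWr (by positivity)
      _ = (W : ℝ) ^ 3 * (q + 1 / |β|) := by ring

end Pool.Agent.PP
end

section

/-!
# W2: mean values of the model
-/

set_option autoImplicit false

namespace Pool.Agent.PP

open Finset MeasureTheory Real
open Pool.Agent.MC (ee expSum frac frac' arcSum fareySet)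
open Pool.Agent.Lib.MP_bae66e_nt.AP3 (Rough rset dset prI KT flEta FLP cset Om0 xb prm)

open Filter Topology

private lemma aux_totient (m : ℕ) (hm : 1 ≤ m) :
    ∑ e ∈ m.divisors, (ArithmeticFunction.moebius e : ℂ) / (e : ℂ) =
      (Nat.totient m : ℂ) / (m : ℂ) := by
  have h1 := (ArithmeticFunction.sum_eq_iff_sum_mul_moebius_eq (R := ℂ)
    (f := fun n => (Nat.totient n : ℂ)) (g := fun n => (n : ℂ))).1 (by
      intro n _
      have := Nat.sum_totient n
      exact_mod_cast this) m (by omega)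
  have hm0 : (m : ℂ) ≠ 0 := by
    have : m ≠ 0 := by omega
    exact_mod_cast this
  rw [eq_div_iff hm0, ← h1, Finset.sum_mul, ← Nat.map_div_right_divisors, Finset.sum_map]
  apply Finset.sum_congr rfl
  intro e he
  have he0 : (e : ℂ) ≠ 0 := by
    have := Nat.pos_of_mem_divisors he
    have : e ≠ 0 := by omega
    exact_mod_cast this
  change _ = (ArithmeticFunction.moebius e : ℂ) * ((m / e : ℕ) : ℂ)
  rw [Nat.cast_div (Nat.dvd_of_mem_divisors he) he0]
  ring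

private lemma aux_dens (W q : ℕ) (hW : Squarefree W) (hW1 : 1 ≤ W) (hq : 1 ≤ q) :
    ((W : ℂ) / (Nat.totient W : ℂ)) * ∑ d ∈ W.divisors, (ArithmeticFunction.moebius d : ℂ) *
      (if q ∣ d then 1 / (d : ℂ) else 0) =
      (if q ∣ W then ((ArithmeticFunction.moebius q : ℂ) / (Nat.totient q : ℂ)) else 0) := by
  split_ifs with hqW
  · obtain ⟨e', he'⟩ := hqW
    have he0 : e' ≠ 0 := by
      rintro rfl
      rw [mul_zero] at he'
      omega
    have hcop : Nat.Coprime q e' := by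
      rw [he'] at hW
      exact Nat.coprime_of_squarefree_mul hW
    have h1 : ∑ d ∈ W.divisors, (ArithmeticFunction.moebius d : ℂ) *
        (if q ∣ d then 1 / (d : ℂ) else 0) =
        (ArithmeticFunction.moebius q : ℂ) / q * ((Nat.totient e' : ℂ) / (e' : ℂ)) := by
      rw [← aux_totient e' (by omega), Finset.mul_sum]
      have h2 : ∑ d ∈ W.divisors, (ArithmeticFunction.moebius d : ℂ) *
          (if q ∣ d then 1 / (d : ℂ) else 0) = ∑ d ∈ W.divisors.filter (fun d => q ∣ d),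
          (ArithmeticFunction.moebius d : ℂ) * (1 / (d : ℂ)) := by
        rw [Finset.sum_filter]
        apply Finset.sum_congr rfl
        intro d _
        split_ifs
        · rfl
        · rw [mul_zero]
      rw [h2]
      symm
      apply Finset.sum_bij (fun e _ => q * e)
      · intro e he
        rw [Finset.mem_filter, Nat.mem_divisors]
        refine ⟨⟨?_, by omega⟩, Dvd.intro e rfl⟩
        rw [he']
        exact Nat.mul_dvd_mul_left q (Nat.dvd_of_mem_divisors he)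
      · intro a _ b _ h
        exact Nat.eq_of_mul_eq_mul_left hq h
      · intro d hd
        rw [Finset.mem_filter, Nat.mem_divisors] at hd
        obtain ⟨⟨h3, h4⟩, e, he⟩ := hd
        refine ⟨e, ?_, he.symm⟩
        rw [Nat.mem_divisors]
        refine ⟨?_, he0⟩
        rw [he, he'] at h3
        exact Nat.dvd_of_mul_dvd_mul_left hq h3
      · intro e he
        have hce : Nat.Coprime q e := Nat.Coprime.coprime_dvd_right (Nat.dvd_of_mem_divisors he) hcop
        have hmul := ArithmeticFunction.isMultiplicative_moebius.map_mul_of_coprime hce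
        rw [hmul]
        push_cast
        have hq0 : (q : ℂ) ≠ 0 := by
          have : q ≠ 0 := by omega
          exact_mod_cast this
        have he0' : (e : ℂ) ≠ 0 := by
          have := Nat.pos_of_mem_divisors he
          have : e ≠ 0 := by omega
          exact_mod_cast this
        field_simp
    rw [h1, he', Nat.totient_mul hcop]
    push_cast
    have hq0 : (q : ℂ) ≠ 0 := by
      have : q ≠ 0 := by omega
      exact_mod_cast this
    have he1 : (e' : ℂ) ≠ 0 := by exact_mod_cast he0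
    have hφq : (Nat.totient q : ℂ) ≠ 0 := by
      have := Nat.totient_pos.2 hq
      have : Nat.totient q ≠ 0 := by omega
      exact_mod_cast this
    have hφe : (Nat.totient e' : ℂ) ≠ 0 := by
      have := Nat.totient_pos.2 (Nat.pos_of_ne_zero he0)
      have : Nat.totient e' ≠ 0 := by omega
      exact_mod_cast this
    field_simp
  · have h1 : ∑ d ∈ W.divisors, (ArithmeticFunction.moebius d : ℂ) *
        (if q ∣ d then 1 / (d : ℂ) else 0) = 0 := by
      apply Finset.sum_eq_zero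
      intro d hd
      rw [if_neg (fun h => hqW (h.trans (Nat.dvd_of_mem_divisors hd))), mul_zero]
    rw [h1, mul_zero]

private lemma aux_floor (d : ℕ) (hd : 1 ≤ d) :
    Tendsto (fun x : ℕ => ((x / d : ℕ) : ℂ) / (x : ℂ)) atTop (𝓝 (1 / (d : ℂ))) := by
  have hd0 : (0 : ℝ) < d := by exact_mod_cast hd
  have h1 : Tendsto (fun x : ℕ => ((x / d : ℕ) : ℝ) / (x : ℝ)) atTop (𝓝 (1 / (d : ℝ))) := by
    have h2 : Tendsto (fun x : ℕ => 1 / (d : ℝ) - 1 / (x : ℝ)) atTop (𝓝 (1 / (d : ℝ))) := by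
      have := (tendsto_const_nhds (x := 1 / (d : ℝ))).sub (tendsto_one_div_atTop_nhds_zero_nat (𝕜 := ℝ))
      rwa [sub_zero] at this
    apply tendsto_of_tendsto_of_tendsto_of_le_of_le' h2 tendsto_const_nhds
    · filter_upwards [eventually_ge_atTop 1] with x hx
      have hx0 : (0 : ℝ) < x := by exact_mod_cast hx
      have h3 : (x : ℝ) / d - 1 ≤ ((x / d : ℕ) : ℝ) := by
        have h4 := Nat.lt_floor_add_one ((x : ℝ) / d)
        rw [Nat.floor_div_natCast, Nat.floor_natCast] at h4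
        linarith
      calc 1 / (d : ℝ) - 1 / (x : ℝ) = ((x : ℝ) / d - 1) / x := by field_simp
        _ ≤ ((x / d : ℕ) : ℝ) / (x : ℝ) := div_le_div_of_nonneg_right h3 hx0.le
    · filter_upwards [eventually_ge_atTop 1] with x hx
      have hx0 : (0 : ℝ) < x := by exact_mod_cast hx
      have h3 : ((x / d : ℕ) : ℝ) ≤ (x : ℝ) / d := Nat.cast_div_le
      calc ((x / d : ℕ) : ℝ) / (x : ℝ) ≤ ((x : ℝ) / d) / x := div_le_div_of_nonneg_right h3 hx0.le
        _ = 1 / (d : ℝ) := by field_simp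
  have h5 := (Complex.continuous_ofReal.tendsto (1 / (d : ℝ))).comp h1
  have e1 : (fun x : ℕ => ((x / d : ℕ) : ℂ) / (x : ℂ)) =
      (fun t : ℝ => (t : ℂ)) ∘ (fun x : ℕ => ((x / d : ℕ) : ℝ) / (x : ℝ)) := by
    funext x
    simp only [Function.comp_apply]
    push_cast
    rfl
  have e2 : (1 / (d : ℂ)) = ((1 / (d : ℝ) : ℝ) : ℂ) := by push_cast; rfl
  rw [e1, e2]
  exact h5

private lemma aux_bdd (f : ℕ → ℂ) (K : ℝ) (h : ∀ x, ‖f x‖ ≤ K) :
    Tendsto (fun x : ℕ => f x / (x : ℂ)) atTop (𝓝 0) := by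
  rw [tendsto_zero_iff_norm_tendsto_zero]
  have h1 : Tendsto (fun x : ℕ => K * (1 / (x : ℝ))) atTop (𝓝 0) := by
    have := (tendsto_one_div_atTop_nhds_zero_nat (𝕜 := ℝ)).const_mul K
    rwa [mul_zero] at this
  apply squeeze_zero (fun x => norm_nonneg _) _ h1
  intro x
  rw [norm_div, Complex.norm_natCast, div_eq_mul_one_div]
  exact mul_le_mul_of_nonneg_right (h x) (by positivity)

private lemma aux_inner (q a d : ℕ) (hq : 1 ≤ q) (ha : Nat.Coprime a q) (hd : 1 ≤ d) :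
    Tendsto (fun x : ℕ => (∑ m ∈ Ioc 0 (x / d), ee (((m * d : ℕ) : ℝ) * (a / q))) / (x : ℂ)) atTop
      (𝓝 (if q ∣ d then 1 / (d : ℂ) else 0)) := by
  have hq0 : (0 : ℝ) < q := by exact_mod_cast hq
  split_ifs with hqd
  · obtain ⟨e, he⟩ := hqd
    have h1 : (fun x : ℕ => (∑ m ∈ Ioc 0 (x / d), ee (((m * d : ℕ) : ℝ) * (a / q))) / (x : ℂ)) =
        (fun x : ℕ => ((x / d : ℕ) : ℂ) / (x : ℂ)) := by
      funext x
      have h2 : ∀ m ∈ Ioc 0 (x / d), ee (((m * d : ℕ) : ℝ) * (a / q)) = 1 := by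
        intro m _
        have h3 : ((m * d : ℕ) : ℝ) * (a / q) = ((m * e * a : ℕ) : ℝ) := by
          rw [he]
          push_cast
          field_simp
        rw [h3, Pool.Agent.MC.ee_nat]
      rw [Finset.sum_congr rfl h2, Finset.sum_const, Nat.card_Ioc, Nat.sub_zero, nsmul_eq_mul,
        mul_one]
    rw [h1]
    exact aux_floor d hd
  · apply aux_bdd _ (q : ℝ)
    intro x
    have h6 := geo_sum ((d : ℝ) * (a / q)) 0 (x / d) (Nat.zero_le _)
    have h7 : ∀ m ∈ Ioc 0 (x / d), ee (((m * d : ℕ) : ℝ) * (a / q)) =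
        ee ((m : ℝ) * ((d : ℝ) * (a / q))) := by
      intro m _
      congr 1
      push_cast
      ring
    rw [Finset.sum_congr rfl h7]
    refine h6.trans ?_
    have h1 := dn_rat_ge q hq (a : ℤ) (d : ℤ) (Nat.isCoprime_iff_coprime.2 ha)
      (by intro h; exact hqd (by exact_mod_cast h))
    have h8 : ((d : ℤ) : ℝ) * (((a : ℤ) : ℝ) / q) = (d : ℝ) * (a / q) := by push_cast; rfl
    rw [h8] at h1
    have h0 : 0 < 1 / (q : ℝ) := by positivity
    refine (GG_le_inv (by simp) (lt_of_lt_of_le h0 h1)).trans ?_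
    calc 1 / dn ((d : ℝ) * (a / q)) ≤ 1 / (1 / (q : ℝ)) := one_div_le_one_div_of_le h0 h1
      _ = q := by field_simp

/-- PROOF. `nu_eq`; for `d ∣ W`: `∑_{m ≤ x/d} ee (m d a/q)` is `⌊x/d⌋` if `q ∣ d` and bounded (by `2 q`, `geo_sum`) otherwise. So the mean value
is `(W/φ(W)) ∑_{q ∣ d ∣ W} μ(d)/d`. If `q ∤ W` it is `0`; if `q ∣ W`, `d = q e`, `e ∣ W/q`, `μ(q e) = μ(q) μ(e)` (`W` squarefree), and
`∑_{e ∣ W/q} μ(e)/e = φ(W/q)/(W/q)`, `φ(W) = φ(q) φ(W/q)`: the mean is `μ(q)/φ(q)`. -/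
lemma nu_mean (W q a : ℕ) (hW : Squarefree W) (hW1 : 1 ≤ W) (hq : 1 ≤ q) (ha : Nat.Coprime a q) :
    Tendsto (fun x : ℕ => (∑ n ∈ Icc 1 x, ((nu W n : ℝ) : ℂ) * ee ((n : ℝ) * (a / q))) / (x : ℂ)) atTop
      (𝓝 (if q ∣ W then ((ArithmeticFunction.moebius q : ℂ) / (Nat.totient q : ℂ)) else 0)) := by
  rw [← aux_dens W q hW hW1 hq]
  have h1 : (fun x : ℕ => (∑ n ∈ Icc 1 x, ((nu W n : ℝ) : ℂ) * ee ((n : ℝ) * (a / q))) / (x : ℂ)) =
      (fun x : ℕ => ((W : ℂ) / (Nat.totient W : ℂ)) *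
      ∑ d ∈ W.divisors, (ArithmeticFunction.moebius d : ℂ) *
        ((∑ m ∈ Ioc 0 (x / d), ee (((m * d : ℕ) : ℝ) * (a / q))) / (x : ℂ))) := by
    funext x
    rw [w1b_nu W x hW1 (fun n => ee ((n : ℝ) * (a / q))), mul_div_assoc, Finset.sum_div]
    congr 1
    apply Finset.sum_congr rfl
    intro d _
    rw [mul_div_assoc]
  rw [h1]
  apply Tendsto.const_mul
  apply tendsto_finsetSum
  intro d hd
  apply Tendsto.const_mul
  exact aux_inner q a d hq ha (Nat.pos_of_mem_divisors hd)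

end Pool.Agent.PP
end
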