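import Pool.Agent.Lib.MP_bae66e_nt.Mg.G079

section

/-!
# V3: Vaughan's identity
-/

set_option autoImplicit false

namespace Pool.Agent.PP

open Finset MeasureTheory Real
open Pool.Agent.MC (ee expSum frac frac' arcSum fareySet)
open Pool.Agent.Lib.MP_bae66e_nt.AP3 (Rough rset dset prI KT flEta FLP cset Om0 xb prm)

open ArithmeticFunction
open scoped ArithmeticFunction.Moebius ArithmeticFunction.zeta

/-- truncation to `n ≤ U` -/
noncomputable def lo (f : ArithmeticFunction ℝ) (U : ℕ) : ArithmeticFunction ℝ :=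
  ⟨fun n => if n ≤ U then f n else 0, by simp⟩

/-- truncation to `n > U` -/
noncomputable def hi (f : ArithmeticFunction ℝ) (U : ℕ) : ArithmeticFunction ℝ :=
  ⟨fun n => if U < n then f n else 0, by simp⟩

/-- the Moebius function with real values -/
noncomputable def muR : ArithmeticFunction ℝ := ((μ : ArithmeticFunction ℤ) : ArithmeticFunction ℝ)

/-- the constant function one with real values -/
noncomputable def zR : ArithmeticFunction ℝ := ((ζ : ArithmeticFunction ℕ) : ArithmeticFunction ℝ)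

lemma lo_apply (f : ArithmeticFunction ℝ) (U n : ℕ) : lo f U n = if n ≤ U then f n else 0 := rfl

lemma hi_apply (f : ArithmeticFunction ℝ) (U n : ℕ) : hi f U n = if U < n then f n else 0 := rfl

lemma muR_apply (n : ℕ) : muR n = (μ n : ℝ) := rfl

lemma lo_add_hi (f : ArithmeticFunction ℝ) (U : ℕ) : lo f U + hi f U = f := by
  ext n
  rw [ArithmeticFunction.add_apply, lo_apply, hi_apply]
  by_cases h : n ≤ U
  · rw [if_pos h, if_neg (by omega), add_zero]
  · rw [if_neg h, if_pos (by omega), zero_add]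

/-- Vaughan's identity. PROOF. `hi Λ U = hi Λ U * (μ * ζ) = hi Λ U * lo μ V * ζ + hi Λ U * (hi μ V * ζ)`, and
`hi Λ U * lo μ V * ζ = (Λ - lo Λ U) * lo μ V * ζ = lo μ V * log - lo Λ U * lo μ V * ζ` as `Λ * ζ = log`
(`vonMangoldt_mul_zeta`, `coe_moebius_mul_coe_zeta`). -/
theorem vaughan_id (U V : ℕ) : vonMangoldt
    = lo vonMangoldt U + lo muR V * ArithmeticFunction.log - lo vonMangoldt U * lo muR V * zR
      + hi vonMangoldt U * (hi muR V * zR) := by
  have h1 := lo_add_hi vonMangoldt U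
  have h2 := lo_add_hi muR V
  have h3 : muR * zR = 1 := ArithmeticFunction.coe_moebius_mul_coe_zeta
  have h4 : vonMangoldt * zR = ArithmeticFunction.log := ArithmeticFunction.vonMangoldt_mul_zeta
  have h5 : (lo muR V + hi muR V) * zR = 1 := by rw [h2, h3]
  have h6 : (lo vonMangoldt U + hi vonMangoldt U) * zR = ArithmeticFunction.log := by rw [h1, h4]
  rw [← h6]
  nth_rewrite 1 [← h1]
  linear_combination (- hi vonMangoldt U) * h5

/-- Summation of a convolution: both sides are the sum over pairs `(d, m)` with `d, m ≥ 1`, `d m ≤ y`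
(e.g. `Nat.sum_divisorsAntidiagonal` and `Finset.sum_nbij'`; see also Mathlib's
`ArithmeticFunction.sum_Ioc_mul_eq_sum_sum` and its proof). -/
lemma sum_conv (A B : ArithmeticFunction ℝ) (φ : ℕ → ℂ) (y : ℕ) :
    ∑ n ∈ Icc 1 y, (((A * B) n : ℝ) : ℂ) * φ n
      = ∑ d ∈ Icc 1 y, ∑ m ∈ Icc 1 (y / d), ((A d : ℝ) : ℂ) * ((B m : ℝ) : ℂ) * φ (d * m) := by
  have hL : ∀ n ∈ Icc 1 y, (((A * B) n : ℝ) : ℂ) * φ n
      = ∑ x ∈ n.divisorsAntidiagonal, ((A x.1 : ℝ) : ℂ) * ((B x.2 : ℝ) : ℂ) * φ n := by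
    intro n _
    rw [ArithmeticFunction.mul_apply]
    push_cast
    rw [Finset.sum_mul]
  rw [Finset.sum_congr rfl hL, Finset.sum_sigma', Finset.sum_sigma']
  refine Finset.sum_bij' (fun x _ => (⟨x.2.1, x.2.2⟩ : (_ : ℕ) × ℕ))
    (fun y _ => (⟨y.1 * y.2, (y.1, y.2)⟩ : (_ : ℕ) × (ℕ × ℕ))) ?_ ?_ ?_ ?_ ?_
  · rintro ⟨n, d, m⟩ h
    rw [Finset.mem_sigma, Finset.mem_Icc, Nat.mem_divisorsAntidiagonal] at h
    obtain ⟨⟨h1, h2⟩, h3, h4⟩ := h
    simp only at h1 h2 h3 h4
    rw [Finset.mem_sigma, Finset.mem_Icc, Finset.mem_Icc]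
    simp only
    have hd : 0 < d := Nat.pos_of_ne_zero (by rintro rfl; simp at h3; omega)
    have hm : 0 < m := Nat.pos_of_ne_zero (by rintro rfl; simp at h3; omega)
    refine ⟨⟨hd, ?_⟩, hm, ?_⟩
    · calc d ≤ d * m := Nat.le_mul_of_pos_right d hm
        _ ≤ y := by rw [h3]; exact h2
    · rw [Nat.le_div_iff_mul_le hd, mul_comm, h3]; exact h2
  · rintro ⟨d, m⟩ h
    rw [Finset.mem_sigma, Finset.mem_Icc, Finset.mem_Icc] at h
    obtain ⟨⟨h1, h2⟩, h3, h4⟩ := h
    simp only at h1 h2 h3 h4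
    rw [Finset.mem_sigma, Finset.mem_Icc, Nat.mem_divisorsAntidiagonal]
    simp only
    refine ⟨⟨Nat.mul_pos h1 h3, ?_⟩, trivial, (Nat.mul_pos h1 h3).ne'⟩
    rw [mul_comm]
    exact (Nat.le_div_iff_mul_le h1).mp h4
  · rintro ⟨n, d, m⟩ h
    rw [Finset.mem_sigma, Finset.mem_Icc, Nat.mem_divisorsAntidiagonal] at h
    obtain ⟨_, h3, _⟩ := h
    simp only at h3
    simp only [h3]
  · rintro ⟨d, m⟩ h
    rfl
  · rintro ⟨n, d, m⟩ h
    rw [Finset.mem_sigma, Finset.mem_Icc, Nat.mem_divisorsAntidiagonal] at h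
    obtain ⟨_, h3, _⟩ := h
    simp only at h3
    simp only [h3]

end Pool.Agent.PP
end

section

/-!
# V6a: the mean square of the divisor function
-/

set_option autoImplicit false

namespace Pool.Agent.PP

open Finset MeasureTheory Real
open Pool.Agent.MC (ee expSum frac frac' arcSum fareySet)
open Pool.Agent.Lib.MP_bae66e_nt.AP3 (Rough rset dset prI KT flEta FLP cset Om0 xb prm)

private lemma V6a_swap (X : ℕ) (f : ℕ → ℕ → ℝ) :
    ∑ k ∈ Icc 1 X, ∑ a ∈ k.divisors, f a (k / a)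
      = ∑ a ∈ Icc 1 X, ∑ m ∈ Icc 1 (X / a), f a m := by
  rw [Finset.sum_sigma', Finset.sum_sigma']
  refine Finset.sum_nbij' (fun x => ⟨x.2, x.1 / x.2⟩) (fun x => ⟨x.1 * x.2, x.1⟩) ?_ ?_ ?_ ?_ ?_
  · rintro ⟨k, a⟩ h
    simp only [Finset.mem_sigma, Finset.mem_Icc, Nat.mem_divisors] at h ⊢
    obtain ⟨⟨h1, h2⟩, h3, h4⟩ := h
    have ha : 0 < a := Nat.pos_of_dvd_of_pos h3 (by omega)
    refine ⟨⟨ha, (Nat.le_of_dvd (by omega) h3).trans h2⟩, ?_, Nat.div_le_div_right h2⟩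
    exact Nat.div_pos (Nat.le_of_dvd (by omega) h3) ha
  · rintro ⟨a, m⟩ h
    simp only [Finset.mem_sigma, Finset.mem_Icc, Nat.mem_divisors] at h ⊢
    obtain ⟨⟨h1, h2⟩, h3, h4⟩ := h
    have h5 : 0 < a * m := Nat.mul_pos h1 h3
    refine ⟨⟨h5, ?_⟩, Dvd.intro m rfl, by omega⟩
    calc a * m ≤ a * (X / a) := Nat.mul_le_mul_left a h4
      _ ≤ X := Nat.mul_div_le X a
  · rintro ⟨k, a⟩ h
    simp only [Finset.mem_sigma, Finset.mem_Icc, Nat.mem_divisors] at h
    obtain ⟨⟨h1, h2⟩, h3, h4⟩ := h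
    simp only [Nat.mul_div_cancel' h3]
  · rintro ⟨a, m⟩ h
    simp only [Finset.mem_sigma, Finset.mem_Icc] at h
    simp only [Nat.mul_div_cancel_left m h.1.1]
  · rintro ⟨k, a⟩ h
    rfl

private lemma V6a_harm (X : ℕ) : ∑ a ∈ Icc 1 X, (1 : ℝ) / a ≤ 1 + Real.log X := by
  have h := harmonic_le_one_add_log X
  rw [harmonic_eq_sum_Icc] at h
  push_cast at h
  simpa [one_div] using h

private lemma V6a_card (a b : ℕ) : #(a * b).divisors ≤ #a.divisors * #b.divisors := by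
  rw [Nat.divisors_mul]
  exact Finset.card_mul_le

private lemma V6a_dsum (X : ℕ) (Y : ℕ) (hXY : Y ≤ X) (hY : 1 ≤ Y) :
    ∑ m ∈ Icc 1 Y, ((#m.divisors : ℕ) : ℝ) ≤ Y * (1 + Real.log X) := by
  have h1 : ∑ m ∈ Icc 1 Y, ((#m.divisors : ℕ) : ℝ) = ∑ k ∈ Icc 1 Y, ∑ _a ∈ k.divisors, (1 : ℝ) := by
    apply Finset.sum_congr rfl
    intro m _
    simp
  rw [h1, V6a_swap Y (fun _ _ => 1)]
  calc ∑ a ∈ Icc 1 Y, ∑ _m ∈ Icc 1 (Y / a), (1 : ℝ) ≤ ∑ a ∈ Icc 1 Y, (Y : ℝ) * (1 / a) := by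
        apply Finset.sum_le_sum
        intro a _
        simp only [Finset.sum_const, Nat.card_Icc, add_tsub_cancel_right, nsmul_eq_mul, mul_one]
        rw [mul_one_div]
        exact Nat.cast_div_le
    _ = Y * ∑ a ∈ Icc 1 Y, (1 : ℝ) / a := by rw [Finset.mul_sum]
    _ ≤ Y * (1 + Real.log X) := by
        apply mul_le_mul_of_nonneg_left _ (Nat.cast_nonneg Y)
        refine (V6a_harm Y).trans ?_
        have : Real.log Y ≤ Real.log X :=
          Real.log_le_log (by exact_mod_cast hY) (by exact_mod_cast hXY)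
        linarith

/-- PROOF. `d(k)² = ∑_{a ∣ k, b ∣ k} 1`, so the sum is `∑_{a, b ≤ X} ⌊X/lcm(a,b)⌋ ≤ X ∑_{a,b ≤ X} gcd(a,b)/(a b)
≤ X ∑_{g ≤ X} ∑_{a', b' ≤ X} 1/(g a' b')` (`a = g a'`, `b = g b'`; drop the coprimality condition)
`= X (∑_{g ≤ X} 1/g)³ ≤ X (1 + log X)³` (`harmonic_le_one_add_log`). -/
lemma dsq_sum (X : ℕ) (hX : 1 ≤ X) :
    ∑ k ∈ Icc 1 X, ((#k.divisors : ℕ) : ℝ) ^ 2 ≤ X * (1 + Real.log X) ^ 3 := by
  have hL : 0 ≤ Real.log X := Real.log_nonneg (by exact_mod_cast hX)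
  have h1 : ∑ k ∈ Icc 1 X, ((#k.divisors : ℕ) : ℝ) ^ 2
      ≤ ∑ k ∈ Icc 1 X, ∑ a ∈ k.divisors, ((#a.divisors : ℕ) : ℝ) * ((#(k / a).divisors : ℕ) : ℝ) := by
    apply Finset.sum_le_sum
    intro k hk
    have e : ((#k.divisors : ℕ) : ℝ) ^ 2 = ∑ _a ∈ k.divisors, ((#k.divisors : ℕ) : ℝ) := by
      rw [Finset.sum_const, nsmul_eq_mul, sq]
    rw [e]
    apply Finset.sum_le_sum
    intro a ha
    have hd := (Nat.mem_divisors.mp ha).1
    have h2 := V6a_card a (k / a)
    rw [Nat.mul_div_cancel' hd] at h2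
    exact_mod_cast h2
  refine h1.trans ?_
  rw [V6a_swap X (fun a m => ((#a.divisors : ℕ) : ℝ) * ((#m.divisors : ℕ) : ℝ))]
  have h2 : ∀ a ∈ Icc 1 X, ∑ m ∈ Icc 1 (X / a), ((#a.divisors : ℕ) : ℝ) * ((#m.divisors : ℕ) : ℝ)
      ≤ (X * (1 + Real.log X)) * (((#a.divisors : ℕ) : ℝ) / a) := by
    intro a ha
    rw [Finset.mem_Icc] at ha
    have ha0 : (0 : ℝ) < a := by exact_mod_cast ha.1
    rw [← Finset.mul_sum]
    have h3 : 1 ≤ X / a := Nat.div_pos ha.2 ha.1
    have h4 := V6a_dsum X (X / a) (Nat.div_le_self X a) h3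
    have h5 : ((X / a : ℕ) : ℝ) ≤ (X : ℝ) / a := Nat.cast_div_le
    calc ((#a.divisors : ℕ) : ℝ) * ∑ m ∈ Icc 1 (X / a), ((#m.divisors : ℕ) : ℝ)
        ≤ ((#a.divisors : ℕ) : ℝ) * ((X : ℝ) / a * (1 + Real.log X)) := by
          apply mul_le_mul_of_nonneg_left _ (Nat.cast_nonneg _)
          exact h4.trans (mul_le_mul_of_nonneg_right h5 (by linarith))
      _ = _ := by ring
  refine (Finset.sum_le_sum h2).trans ?_
  rw [← Finset.mul_sum]
  have h3 : ∑ a ∈ Icc 1 X, ((#a.divisors : ℕ) : ℝ) / a ≤ (1 + Real.log X) ^ 2 := by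
    have h4 : ∑ a ∈ Icc 1 X, ((#a.divisors : ℕ) : ℝ) / a
        = ∑ k ∈ Icc 1 X, ∑ a ∈ k.divisors, (1 : ℝ) / (a * ((k / a : ℕ) : ℝ)) := by
      apply Finset.sum_congr rfl
      intro k _
      have e : ∀ a ∈ k.divisors, (1 : ℝ) / (a * ((k / a : ℕ) : ℝ)) = 1 / k := by
        intro a ha
        rw [← Nat.cast_mul, Nat.mul_div_cancel' (Nat.mem_divisors.mp ha).1]
      rw [Finset.sum_congr rfl e, Finset.sum_const, nsmul_eq_mul, mul_one_div]
    rw [h4, V6a_swap X (fun a m => (1 : ℝ) / (a * m))]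
    calc ∑ a ∈ Icc 1 X, ∑ m ∈ Icc 1 (X / a), (1 : ℝ) / (a * m)
        ≤ ∑ a ∈ Icc 1 X, ∑ m ∈ Icc 1 X, (1 : ℝ) / (a * m) := by
          apply Finset.sum_le_sum
          intro a _
          apply Finset.sum_le_sum_of_subset_of_nonneg
          · exact Finset.Icc_subset_Icc le_rfl (Nat.div_le_self X a)
          · intro m _ _
            positivity
      _ = (∑ a ∈ Icc 1 X, (1 : ℝ) / a) ^ 2 := by
          rw [sq, Finset.sum_mul_sum]
          apply Finset.sum_congr rfl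
          intro a _
          apply Finset.sum_congr rfl
          intro m _
          rw [one_div_mul_one_div]
      _ ≤ (1 + Real.log X) ^ 2 := by
          apply pow_le_pow_left₀ _ (V6a_harm X)
          exact Finset.sum_nonneg fun a _ => by positivity
  calc (X : ℝ) * (1 + Real.log X) * ∑ a ∈ Icc 1 X, ((#a.divisors : ℕ) : ℝ) / a
      ≤ (X : ℝ) * (1 + Real.log X) * (1 + Real.log X) ^ 2 :=
        mul_le_mul_of_nonneg_left h3 (by positivity)
    _ = _ := by ring

end Pool.Agent.PP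
end

section

/-!
# V7a: Vaughan's bound for the exponential sum over primes
-/

set_option autoImplicit false

namespace Pool.Agent.PP

open Finset MeasureTheory Real
open Pool.Agent.MC (ee expSum frac frac' arcSum fareySet)
open Pool.Agent.Lib.MP_bae66e_nt.AP3 (Rough rset dset prI KT flEta FLP cset Om0 xb prm)

open ArithmeticFunction

/-- The type I coefficients: `A = lo Λ U * lo μ V` has `|A n| ≤ ∑_{d ∣ n} Λ(d) = log n ≤ log (U V)` for `1 ≤ n ≤ U V` and
`A n = 0` for `n > U V` (`vonMangoldt_sum`). -/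
lemma lolo_bound (U V n : ℕ) (hU : 1 ≤ U) (hV : 1 ≤ V) :
    |(lo vonMangoldt U * lo muR V) n| ≤ Real.log (U * V) ∧
      (U * V < n → (lo vonMangoldt U * lo muR V) n = 0) := by
  have hUV : (1 : ℝ) ≤ (U : ℝ) * V := by
    have h1 : (1 : ℝ) ≤ U := by exact_mod_cast hU
    have h2 : (1 : ℝ) ≤ V := by exact_mod_cast hV
    nlinarith
  have hlog : 0 ≤ Real.log ((U : ℝ) * V) := Real.log_nonneg hUV
  have hzero : U * V < n → (lo vonMangoldt U * lo muR V) n = 0 := by
    intro h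
    rw [ArithmeticFunction.mul_apply]
    apply Finset.sum_eq_zero
    rintro ⟨d, e⟩ hde
    rw [Nat.mem_divisorsAntidiagonal] at hde
    simp only at hde ⊢
    rw [lo_apply, lo_apply]
    by_cases h1 : d ≤ U
    · by_cases h2 : e ≤ V
      · exfalso
        have := Nat.mul_le_mul h1 h2
        omega
      · rw [if_neg h2, mul_zero]
    · rw [if_neg h1, zero_mul]
  refine ⟨?_, hzero⟩
  rcases lt_or_ge (U * V) n with h | h
  · rw [hzero h, abs_zero]; exact hlog
  · rcases Nat.eq_zero_or_pos n with h0 | h0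
    · rw [h0, ArithmeticFunction.map_zero, abs_zero]; exact hlog
    · rw [ArithmeticFunction.mul_apply]
      refine (Finset.abs_sum_le_sum_abs _ _).trans ?_
      have h1 : ∀ x ∈ n.divisorsAntidiagonal,
          |lo vonMangoldt U x.1 * lo muR V x.2| ≤ vonMangoldt x.1 := by
        intro x _
        rw [abs_mul, lo_apply, lo_apply]
        have h2 : 0 ≤ vonMangoldt x.1 := vonMangoldt_nonneg
        have h3 : |if x.1 ≤ U then vonMangoldt x.1 else 0| ≤ vonMangoldt x.1 := by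
          split_ifs
          · rw [abs_of_nonneg h2]
          · rw [abs_zero]; exact h2
        have h4 : |if x.2 ≤ V then muR x.2 else 0| ≤ 1 := by
          split_ifs
          · rw [muR_apply]
            have := ArithmeticFunction.abs_moebius_le_one (n := x.2)
            exact_mod_cast this
          · rw [abs_zero]; norm_num
        calc |if x.1 ≤ U then vonMangoldt x.1 else 0| * |if x.2 ≤ V then muR x.2 else 0|
            ≤ vonMangoldt x.1 * 1 := mul_le_mul h3 h4 (abs_nonneg _) h2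
          _ = _ := mul_one _
      refine (Finset.sum_le_sum h1).trans ?_
      rw [Nat.sum_divisorsAntidiagonal (fun d _ => vonMangoldt d), vonMangoldt_sum]
      apply Real.log_le_log (by exact_mod_cast h0)
      exact_mod_cast h

end Pool.Agent.PP
end

section

/-!
# F9a: prime pairs on average
-/

set_option autoImplicit false

namespace Pool.Agent.PP

open Finset MeasureTheory Real
open Pool.Agent.MC (ee expSum frac frac' arcSum fareySet)
open Pool.Agent.Lib.MP_bae66e_nt.AP3 (Rough rset dset prI KT flEta FLP cset Om0 xb prm)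

/-- The mean square: `∑ (th - nu)² ≤ 2 ∑ th² + 2 ∑ nu² ≤ 2 log y θ(y) + 2 W² (y + 1)`. -/
lemma sum_EE_sq (W : ℕ) (hW : 2 ≤ W) : ∃ y₀ : ℕ, ∀ y : ℕ, y₀ ≤ y →
    ∑ n ∈ range (y + 1), ‖((EE W n : ℝ) : ℂ)‖ ^ 2 ≤ 4 * y * Real.log y := by
  refine ⟨max 2 ⌈Real.exp (4 * (W : ℝ) ^ 2)⌉₊, ?_⟩
  intro y hy
  have hy2 : 2 ≤ y := (le_max_left _ _).trans hy
  have hy3 : Real.exp (4 * (W : ℝ) ^ 2) ≤ (y : ℝ) :=
    (Nat.le_ceil _).trans (by exact_mod_cast (le_max_right _ _).trans hy)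
  have hy0 : (0 : ℝ) < y := by positivity
  have hlog : 4 * (W : ℝ) ^ 2 ≤ Real.log y := by
    rw [Real.le_log_iff_exp_le hy0]
    exact hy3
  have hy1 : (1 : ℝ) ≤ y := by exact_mod_cast (by omega : 1 ≤ y)
  have hl0 : 0 ≤ Real.log y := Real.log_nonneg hy1
  -- the primes
  have hth0 : ∀ n, 0 ≤ th n := by
    intro n
    unfold th
    split_ifs
    · exact Real.log_natCast_nonneg n
    · exact le_refl _
  have hth : ∑ n ∈ range (y + 1), th n ^ 2 ≤ Real.log y * (Real.log 4 * y) := by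
    have h1 : ∑ n ∈ range (y + 1), th n ^ 2 ≤ ∑ n ∈ range (y + 1), Real.log y * th n := by
      apply Finset.sum_le_sum
      intro n hn
      rw [sq]
      apply mul_le_mul_of_nonneg_right _ (hth0 n)
      unfold th
      split_ifs with hp
      · exact Real.log_le_log (by exact_mod_cast hp.pos)
          (by exact_mod_cast Nat.lt_succ_iff.mp (Finset.mem_range.mp hn))
      · exact hl0
    refine h1.trans ?_
    rw [← Finset.mul_sum]
    apply mul_le_mul_of_nonneg_left _ hl0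
    have h2 : ∑ n ∈ range (y + 1), th n = Chebyshev.theta y := by
      rw [Chebyshev.theta_eq_sum_Icc, Nat.floor_natCast]
      unfold th
      rw [← Finset.sum_filter]
      apply Finset.sum_congr _ fun _ _ => rfl
      ext n
      simp only [Finset.mem_filter, Finset.mem_range, Finset.mem_Icc]
      constructor
      · rintro ⟨h1, h2⟩
        exact ⟨⟨by omega, by omega⟩, h2⟩
      · rintro ⟨h1, h2⟩
        exact ⟨by omega, h2⟩
    rw [h2]
    exact Chebyshev.theta_le_log4_mul_x hy0.le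
  -- the model
  have hφ : (1 : ℝ) ≤ Nat.totient W := by exact_mod_cast Nat.totient_pos.mpr (by omega)
  have hW0 : (0 : ℝ) ≤ W := by positivity
  have hnu : ∑ n ∈ range (y + 1), nu W n ^ 2 ≤ ((y : ℝ) + 1) * (W : ℝ) ^ 2 := by
    have h1 : ∀ n ∈ range (y + 1), nu W n ^ 2 ≤ (W : ℝ) ^ 2 := by
      intro n _
      unfold nu
      split_ifs
      · apply pow_le_pow_left₀ (by positivity)
        exact div_le_self hW0 hφ
      · rw [zero_pow (by norm_num)]
        positivity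
    refine (Finset.sum_le_sum h1).trans ?_
    rw [Finset.sum_const, Finset.card_range, nsmul_eq_mul]
    push_cast
    exact le_refl _
  have hmain : ∑ n ∈ range (y + 1), ‖((EE W n : ℝ) : ℂ)‖ ^ 2
      ≤ 2 * ∑ n ∈ range (y + 1), th n ^ 2 + 2 * ∑ n ∈ range (y + 1), nu W n ^ 2 := by
    rw [Finset.mul_sum, Finset.mul_sum, ← Finset.sum_add_distrib]
    apply Finset.sum_le_sum
    intro n _
    rw [Complex.norm_real, Real.norm_eq_abs, sq_abs]
    unfold EE
    nlinarith [sq_nonneg (th n + nu W n)]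
  have hl4 : Real.log 4 ≤ 1.4 := by
    have : Real.log 4 = 2 * Real.log 2 := by
      rw [show (4 : ℝ) = 2 ^ 2 by norm_num, Real.log_pow]
      norm_num
    rw [this]
    have := Real.log_two_lt_d9
    linarith
  have e1 : Real.log y * (Real.log 4 * y) ≤ 1.4 * (y * Real.log y) := by
    have : 0 ≤ y * Real.log y := by positivity
    nlinarith
  have e2 : ((y : ℝ) + 1) * (W : ℝ) ^ 2 ≤ 1 / 2 * (y * Real.log y) := by
    have h1 : ((y : ℝ) + 1) * (W : ℝ) ^ 2 ≤ (2 * y) * (W : ℝ) ^ 2 := by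
      apply mul_le_mul_of_nonneg_right (by linarith) (by positivity)
    nlinarith
  have e3 : 0 ≤ y * Real.log y := by positivity
  linarith

end Pool.Agent.PP
end
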