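import Pool.Agent.Lib.MP_bae66e_nt.PP.V7c
import Pool.Agent.Lib.MP_bae66e_nt.Mg.G081
import Pool.Agent.Lib.MP_bae66e_nt.Mg.G090
import Pool.Agent.Lib.MP_bae66e_nt.Mg.G094

section

/-!
# F4: the minor arcs
-/

set_option autoImplicit false

namespace Pool.Agent.PP

open Finset MeasureTheory Real
open Pool.Agent.MC (ee expSum frac frac' arcSum fareySet)
open Pool.Agent.Lib.MP_bae66e_nt.AP3 (Rough rset dset prI KT flEta FLP cset Om0 xb prm)

/-- powers are eventually smaller than exponentials -/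
private lemma F4_ev (k : ℕ) (c K : ℝ) (hc : 0 < c) :
    ∀ᶠ L : ℝ in Filter.atTop, K * L ^ k ≤ Real.exp (c * L) := by
  have h1 := (isLittleO_pow_exp_pos_mul_atTop (k := k) hc).bound
    (show (0 : ℝ) < 1 / (|K| + 1) by positivity)
  filter_upwards [h1] with L hL
  rw [Real.norm_eq_abs, Real.norm_eq_abs, abs_of_pos (Real.exp_pos _)] at hL
  have hK : 0 ≤ |K| := abs_nonneg K
  have h2 : K * L ^ k ≤ |K| * |L ^ k| := by
    rw [← abs_mul]
    exact le_abs_self _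
  have h3 : |K| * |L ^ k| ≤ |K| * (1 / (|K| + 1) * Real.exp (c * L)) :=
    mul_le_mul_of_nonneg_left hL hK
  have h4 : |K| * (1 / (|K| + 1) * Real.exp (c * L)) =
      |K| / (|K| + 1) * Real.exp (c * L) := by ring
  have h5 : |K| / (|K| + 1) ≤ 1 := by
    rw [div_le_one (by positivity)]
    linarith
  have h6 := mul_le_of_le_one_left (Real.exp_pos (c * L)).le h5
  linarith

private lemma F4_log_tendsto :
    Filter.Tendsto (fun y : ℕ => Real.log (y : ℝ)) Filter.atTop Filter.atTop :=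
  Real.tendsto_log_atTop.comp tendsto_natCast_atTop_atTop

/-- PROOF. Write `L = log y`, `N = y / Q1` (natural division, `N ≥ y/(2 Q1)`), `L^12 ≤ Q1 ≤ 2 L^12`. As `q ≤ N`, `|α - a/q| ≤ 1/(q N) ≤ 1/q²` and `vaughan_th`
gives `≤ C (1+L)^4 (y/√Q1 + y^(4/5) + √(y · y/Q1)) ≤ C' y/L`. For the model: `q > Q1 ≥ W`, so `q ∤ W`, `W |β| ≤ W/(q N) ≤ 1/(2 q)` for `y`
large: `nu_exp_not_dvd` gives `≤ W³ q ≤ W³ y/Q1 ≤ y/L`. (`expSum` over `n < y + 1`; the term `n = 0` vanishes.) The constant `C` does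
not depend on `W`. -/
lemma minor_bound : ∃ C : ℝ, 0 < C ∧ ∀ W : ℕ, 2 ≤ W → ∃ y₀ : ℕ, ∀ (y Q1 : ℕ), y₀ ≤ y →
    Real.log y ^ 12 ≤ Q1 → (Q1 : ℝ) ≤ 2 * Real.log y ^ 12 →
    ∀ q ∈ Icc 1 (y / Q1), Q1 < q → ∀ a ∈ frac' q, ∀ α : ℝ, |α - (a : ℝ) / q| ≤ 1 / ((q : ℝ) * (y / Q1 : ℕ)) →
    ‖expSum (fun n => ((EE W n : ℝ) : ℂ)) (y + 1) α‖ ≤ C * (y / Real.log y) := by
  obtain ⟨CV, hCV, hV⟩ := vaughan_th
  refine ⟨48 * CV + 1, by positivity, fun W hW => ?_⟩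
  have hev : ∀ᶠ y : ℕ in Filter.atTop, 1 ≤ Real.log y ∧
      1 * Real.log y ^ 6 ≤ Real.exp (1 / 5 * Real.log y) ∧
      ((2 * W + 1) * 2) * Real.log y ^ 12 ≤ Real.exp (1 * Real.log y) ∧
      (W : ℝ) ^ 3 ≤ Real.log y := by
    refine F4_log_tendsto.eventually (p := fun L : ℝ => 1 ≤ L ∧
      1 * L ^ 6 ≤ Real.exp (1 / 5 * L) ∧
      ((2 * W + 1) * 2) * L ^ 12 ≤ Real.exp (1 * L) ∧ (W : ℝ) ^ 3 ≤ L) ?_
    filter_upwards [Filter.eventually_ge_atTop 1, F4_ev 6 (1 / 5) 1 (by norm_num),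
      F4_ev 12 1 ((2 * W + 1) * 2) (by norm_num), Filter.eventually_ge_atTop ((W : ℝ) ^ 3)]
      with L h1 h2 h3 h4
    exact ⟨h1, h2, h3, h4⟩
  obtain ⟨y₀, hy₀⟩ := Filter.eventually_atTop.1 hev
  refine ⟨max y₀ 1, fun y Q1 hy hQ1 hQ2 q hq hqQ a ha α hα => ?_⟩
  obtain ⟨hL1, hL6, hL12, hLW⟩ := hy₀ y (le_trans (le_max_left _ _) hy)
  have hy1 : 1 ≤ y := le_trans (le_max_right _ _) hy
  have hypos : (0 : ℝ) < y := by exact_mod_cast hy1
  set L : ℝ := Real.log y with hLdef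
  have hLpos : 0 < L := by linarith
  have hyL : Real.exp (1 * L) = y := by rw [one_mul, hLdef, Real.exp_log hypos]
  have hW1 : (2 : ℝ) ≤ W := by exact_mod_cast hW
  rw [Finset.mem_Icc] at hq
  have hq1 : 1 ≤ q := hq.1
  have hqpos : (0 : ℝ) < q := by exact_mod_cast hq1
  have hL12pos : 0 < L ^ 12 := by positivity
  have hQ1pos : (0 : ℝ) < Q1 := lt_of_lt_of_le hL12pos hQ1
  have hQ1n : 0 < Q1 := by exact_mod_cast hQ1pos
  set N : ℕ := y / Q1 with hN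
  have hNpos : 0 < N := lt_of_lt_of_le hq1 hq.2
  have hNr : (0 : ℝ) < N := by exact_mod_cast hNpos
  have hqN : (q : ℝ) ≤ N := by exact_mod_cast hq.2
  have hNy : (N : ℝ) ≤ y / Q1 := Nat.cast_div_le
  have hqL : (q : ℝ) ≤ y / L ^ 12 := by
    refine le_trans (hqN.trans hNy) ?_
    exact div_le_div_of_nonneg_left hypos.le hL12pos hQ1
  have hqgt : L ^ 12 < q := by
    have : (Q1 : ℝ) < q := by exact_mod_cast hqQ
    linarith
  have hN2W : 2 * (W : ℝ) ≤ N := by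
    have h1 : (y : ℝ) / Q1 < N + 1 := by
      rw [div_lt_iff₀ hQ1pos]
      have h2 : y < (N + 1) * Q1 := by
        rw [hN, add_mul, one_mul]
        exact Nat.lt_div_mul_add hQ1n
      exact_mod_cast h2
    have h2 : (2 * (W : ℝ) + 1) ≤ y / Q1 := by
      rw [le_div_iff₀ hQ1pos]
      rw [hyL] at hL12
      have h3 : (2 * (W : ℝ) + 1) * Q1 ≤ (2 * (W : ℝ) + 1) * (2 * L ^ 12) :=
        mul_le_mul_of_nonneg_left hQ2 (by positivity)
      linarith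
    linarith
  have hexp : expSum (fun n => ((EE W n : ℝ) : ℂ)) (y + 1) α =
      expSum (fun n => ((th n : ℝ) : ℂ)) (y + 1) α -
        ∑ n ∈ Icc 1 y, ((nu W n : ℝ) : ℂ) * ee (n * (a / q + (α - a / q))) := by
    have h1 : ∑ n ∈ Icc 1 y, ((nu W n : ℝ) : ℂ) * ee (n * (a / q + (α - a / q))) =
        expSum (fun n => ((nu W n : ℝ) : ℂ)) (y + 1) α := by
      unfold expSum
      rw [Finset.range_eq_Ico, Finset.sum_eq_sum_Ico_succ_bot (by omega)]
      have h2 : nu W 0 = 0 := by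
        unfold nu
        rw [if_neg]
        rw [Nat.coprime_zero_left]
        omega
      have h3 : Finset.Ico (0 + 1) (y + 1) = Finset.Icc 1 y := by
        ext n
        rw [Finset.mem_Ico, Finset.mem_Icc]
        omega
      rw [h3]
      simp only [h2, Complex.ofReal_zero, zero_mul, zero_add]
      refine Finset.sum_congr rfl fun n _ => ?_
      have h4 : (a : ℝ) / q + (α - a / q) = α := by ring
      rw [h4]
    rw [h1]
    unfold expSum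
    rw [← Finset.sum_sub_distrib]
    refine Finset.sum_congr rfl fun n _ => ?_
    unfold EE
    push_cast
    ring
  have ha' := ha
  rw [frac', Finset.mem_filter, Finset.mem_Icc] at ha'
  have hth : ‖expSum (fun n => ((th n : ℝ) : ℂ)) (y + 1) α‖ ≤ 48 * CV * (y / L) := by
    have h1 : |α - ((a : ℤ) : ℝ) / q| ≤ 1 / (q : ℝ) ^ 2 := by
      rw [Int.cast_natCast]
      refine le_trans hα ?_
      refine one_div_le_one_div_of_le (by positivity) ?_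
      rw [sq]
      exact mul_le_mul_of_nonneg_left hqN hqpos.le
    have hqy : q ≤ y := le_trans hq.2 (Nat.div_le_self _ _)
    have h2 := hV y q (a : ℤ) α hq1 hqy (Nat.isCoprime_iff_coprime.2 ha'.2) h1
    rw [← hLdef] at h2
    refine le_trans h2 ?_
    have hL6pos : 0 < L ^ 6 := by positivity
    have e1 : (y : ℝ) / Real.sqrt q ≤ y / L ^ 6 := by
      refine div_le_div_of_nonneg_left hypos.le hL6pos ?_
      refine Real.le_sqrt_of_sq_le ?_
      have h9 : (L ^ 6) ^ 2 = L ^ 12 := by ring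
      rw [h9]
      exact hqgt.le
    have e2 : (y : ℝ) ^ (4 / 5 : ℝ) ≤ y / L ^ 6 := by
      rw [le_div_iff₀ hL6pos]
      have h3 : (y : ℝ) ^ (1 / 5 : ℝ) = Real.exp (1 / 5 * L) := by
        rw [Real.rpow_def_of_pos hypos, mul_comm]
      have h4 : (y : ℝ) ^ (4 / 5 : ℝ) * (y : ℝ) ^ (1 / 5 : ℝ) = y := by
        rw [← Real.rpow_add hypos]
        norm_num
      calc (y : ℝ) ^ (4 / 5 : ℝ) * L ^ 6 ≤ (y : ℝ) ^ (4 / 5 : ℝ) * (y : ℝ) ^ (1 / 5 : ℝ) := by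
            refine mul_le_mul_of_nonneg_left ?_ (by positivity)
            rw [h3]
            linarith
        _ = y := h4
    have e3 : Real.sqrt (y * q) ≤ y / L ^ 6 := by
      refine Real.sqrt_le_iff.2 ⟨by positivity, ?_⟩
      calc (y : ℝ) * q ≤ y * (y / L ^ 12) := mul_le_mul_of_nonneg_left hqL hypos.le
        _ = (y / L ^ 6) ^ 2 := by
          field_simp
    have e4 : (1 + L) ^ 4 ≤ 16 * L ^ 4 := by
      calc (1 + L) ^ 4 ≤ (2 * L) ^ 4 := pow_le_pow_left₀ (by linarith) (by linarith) 4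
        _ = 16 * L ^ 4 := by ring
    have e5 : 0 ≤ (y : ℝ) / Real.sqrt q + (y : ℝ) ^ (4 / 5 : ℝ) + Real.sqrt (y * q) := by
      positivity
    calc CV * (1 + L) ^ 4 * ((y : ℝ) / Real.sqrt q + (y : ℝ) ^ (4 / 5 : ℝ) + Real.sqrt (y * q))
        ≤ CV * (16 * L ^ 4) * (y / L ^ 6 + y / L ^ 6 + y / L ^ 6) := by
          refine mul_le_mul (mul_le_mul_of_nonneg_left e4 hCV.le) (by linarith) e5 (by positivity)
      _ = 48 * CV * (y / L) * (1 / L) := by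
          field_simp
          ring
      _ ≤ 48 * CV * (y / L) := by
          refine mul_le_of_le_one_right (by positivity) ?_
          rw [div_le_one hLpos]
          exact hL1
  have hnu : ‖∑ n ∈ Icc 1 y, ((nu W n : ℝ) : ℂ) * ee (n * (a / q + (α - a / q)))‖ ≤ y / L := by
    have h1 : (W : ℝ) * |α - a / q| ≤ 1 / (2 * q) := by
      calc (W : ℝ) * |α - a / q| ≤ W * (1 / ((q : ℝ) * N)) :=
            mul_le_mul_of_nonneg_left hα (by positivity)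
        _ ≤ 1 / (2 * q) := by
          rw [mul_one_div, div_le_div_iff₀ (by positivity) (by positivity)]
          nlinarith
    have h2 : ¬ q ∣ W := by
      intro hd
      have h3 : q ≤ W := Nat.le_of_dvd (by omega) hd
      have h4 : (q : ℝ) ≤ W := by exact_mod_cast h3
      have h5 : (W : ℝ) ≤ (W : ℝ) ^ 3 := le_self_pow₀ (by linarith) (by norm_num)
      have h6 : L ≤ L ^ 12 := le_self_pow₀ hL1 (by norm_num)
      linarith
    refine le_trans (nu_exp_not_dvd W q a y hW hq1 ha'.2 _ h1 h2) ?_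
    calc (W : ℝ) ^ 3 * q ≤ L * (y / L ^ 12) := mul_le_mul hLW hqL hqpos.le hLpos.le
      _ = (y / L) * (1 / L ^ 10) := by
        field_simp
      _ ≤ y / L := by
        refine mul_le_of_le_one_right (by positivity) ?_
        rw [div_le_one (by positivity)]
        exact one_le_pow₀ hL1
  rw [hexp]
  calc _ ≤ ‖expSum (fun n => ((th n : ℝ) : ℂ)) (y + 1) α‖ +
        ‖∑ n ∈ Icc 1 y, ((nu W n : ℝ) : ℂ) * ee (n * (a / q + (α - a / q)))‖ := norm_sub_le _ _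
    _ ≤ 48 * CV * (y / L) + y / L := add_le_add hth hnu
    _ = (48 * CV + 1) * (y / L) := by ring

end Pool.Agent.PP
end

section

/-!
# F9b: prime pairs on average
-/

set_option autoImplicit false

namespace Pool.Agent.PP

open Finset MeasureTheory Real
open Pool.Agent.MC (ee expSum frac frac' arcSum fareySet)
open Pool.Agent.Lib.MP_bae66e_nt.AP3 (Rough rset dset prI KT flEta FLP cset Om0 xb prm)

/-- For large `y` one has `2 (log y)^12 ≤ y`. -/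
private lemma F9b_log_pow : ∃ y₀ : ℕ, ∀ y : ℕ, y₀ ≤ y → 2 * Real.log y ^ 12 ≤ y := by
  have h := (isLittleO_pow_log_id_atTop (n := 12)).bound (show (0 : ℝ) < 1 / 2 by norm_num)
  have h' := tendsto_natCast_atTop_atTop.eventually h
  obtain ⟨y₀, hy₀⟩ := Filter.eventually_atTop.mp h'
  refine ⟨y₀, fun y hy => ?_⟩
  have h1 := hy₀ y hy
  have h2 : Real.log (y : ℝ) ^ 12 ≤ ‖Real.log (y : ℝ) ^ 12‖ := le_abs_self _
  have h3 : ‖(id (y : ℝ) : ℝ)‖ = y := by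
    rw [id, Real.norm_eq_abs, abs_of_nonneg (Nat.cast_nonneg y)]
  rw [h3] at h1
  linarith

/-- PROOF. `Q1 = ⌈(log y)^12⌉₊`, `N = y / Q1`, `u = 1/(N+1)`, `κ = C y/log y` (`minor_bound`), `S = expSum (EE W) (y+1)` (periodic, so `∫_0^1 = ∫_u^{u+1}`),
`G(α) = max 0 (‖S α‖⁴ - κ² ‖S α‖²)`, continuous, `≥ 0`, `≤ ‖S‖⁴`. If `G(α) ≠ 0`, the `q` of `farey_cover` (with this `N`) is `≤ Q1` (otherwise `minor_bound` gives
`‖S α‖ ≤ κ`), and `1/(q N) ≤ 2 Q1/(q y)`. So by `integral_le_sum_cover_supp` with the index set `fareySet Q1`: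
`∫ ‖S‖⁴ ≤ κ² ∫ ‖S‖² + ∑_{q ≤ Q1} ∑_{a ∈ frac' q} ∫_{|β| ≤ 2 Q1/(q y)} ‖S(a/q + β)‖⁴ dβ`. First term: `MC.integral_norm_sq_shift`, `sum_EE_sq`: `≤ 4 C² y³/log y`. -/
lemma fourth_moment_arcs : ∃ C : ℝ, 0 < C ∧ ∀ W : ℕ, 2 ≤ W → ∃ y₀ : ℕ, ∀ y : ℕ, y₀ ≤ y →
    ∃ Q1 : ℕ, 1 ≤ Q1 ∧ (Q1 : ℝ) ≤ 2 * Real.log y ^ 12 ∧
    ∫ α in (0:ℝ)..1, ‖expSum (fun n => ((EE W n : ℝ) : ℂ)) (y + 1) α‖ ^ 4
      ≤ C * (y : ℝ) ^ 3 / Real.log y + ∑ q ∈ Icc 1 Q1, ∑ a ∈ frac' q,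
        ∫ β in (-(2 * (Q1 : ℝ) / (q * y)))..(2 * (Q1 : ℝ) / (q * y)),
          ‖expSum (fun n => ((EE W n : ℝ) : ℂ)) (y + 1) ((a : ℝ) / q + β)‖ ^ 4 := by
  obtain ⟨C, hC, hminor⟩ := minor_bound
  refine ⟨4 * C ^ 2, by positivity, fun W hW => ?_⟩
  obtain ⟨y₁, h₁⟩ := hminor W hW
  obtain ⟨y₂, h₂⟩ := sum_EE_sq W hW
  obtain ⟨y₃, h₃⟩ := F9b_log_pow
  refine ⟨max (max y₁ y₂) (max y₃ 3), fun y hy => ?_⟩
  have hy1 : y₁ ≤ y := le_trans (le_max_left _ _ |>.trans (le_max_left _ _)) hy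
  have hy2 : y₂ ≤ y := le_trans (le_max_right _ _ |>.trans (le_max_left _ _)) hy
  have hy3 : y₃ ≤ y := le_trans (le_max_left _ _ |>.trans (le_max_right _ _)) hy
  have hy4 : 3 ≤ y := le_trans (le_max_right _ _ |>.trans (le_max_right _ _)) hy
  have hyR : (3 : ℝ) ≤ y := by exact_mod_cast hy4
  have hy0 : (0 : ℝ) < y := by linarith
  have hlog : (1 : ℝ) ≤ Real.log y := by
    rw [Real.le_log_iff_exp_le hy0]
    have := Real.exp_one_lt_d9
    linarith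
  have hlog12 : (1 : ℝ) ≤ Real.log y ^ 12 := one_le_pow₀ hlog
  obtain ⟨Q1, hQ1⟩ : ∃ Q1 : ℕ, Q1 = ⌈Real.log y ^ 12⌉₊ := ⟨_, rfl⟩
  have hQle : Real.log y ^ 12 ≤ Q1 := by
    rw [hQ1]
    exact Nat.le_ceil _
  have hQlt : (Q1 : ℝ) < Real.log y ^ 12 + 1 := by
    rw [hQ1]
    exact Nat.ceil_lt_add_one (by linarith)
  have hQ2 : (Q1 : ℝ) ≤ 2 * Real.log y ^ 12 := by linarith
  have hQ3 : 1 ≤ Q1 := by
    have : (1 : ℝ) ≤ Q1 := le_trans hlog12 hQle
    exact_mod_cast this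
  have hQy : Q1 ≤ y := by
    have : (Q1 : ℝ) ≤ y := hQ2.trans (h₃ y hy3)
    exact_mod_cast this
  refine ⟨Q1, hQ3, hQ2, ?_⟩
  obtain ⟨N, hN⟩ : ∃ N : ℕ, N = y / Q1 := ⟨_, rfl⟩
  have hN1 : 1 ≤ N := by
    rw [hN]
    exact (Nat.one_le_div_iff (by omega)).mpr hQy
  have hN2 : y ≤ 2 * Q1 * N := by
    have h := Nat.lt_mul_div_succ y (show 0 < Q1 by omega)
    rw [← hN] at h
    have h' : Q1 * (N + 1) ≤ Q1 * (2 * N) := Nat.mul_le_mul_left _ (by omega)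
    calc y ≤ Q1 * (2 * N) := (h.trans_le h').le
      _ = 2 * Q1 * N := by ring
  have hN2R : (y : ℝ) ≤ 2 * Q1 * N := by exact_mod_cast hN2
  have hNR : (1 : ℝ) ≤ N := by exact_mod_cast hN1
  have hQR : (1 : ℝ) ≤ Q1 := by exact_mod_cast hQ3
  obtain ⟨f, hf⟩ : ∃ f : ℕ → ℂ, f = fun n => ((EE W n : ℝ) : ℂ) := ⟨_, rfl⟩
  obtain ⟨κ, hκ⟩ : ∃ κ : ℝ, κ = C * (y / Real.log y) := ⟨_, rfl⟩
  have hκ0 : 0 < κ := by
    rw [hκ]
    have : 0 < Real.log (y : ℝ) := by linarith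
    positivity
  have hSc : Continuous fun x => ‖expSum f (y + 1) x‖ :=
    (Pool.Agent.MC.continuous_expSum f (y + 1)).norm
  obtain ⟨F, hF⟩ : ∃ F : ℝ → ℝ, F = fun x => ‖expSum f (y + 1) x‖ := ⟨_, rfl⟩
  have hFc : Continuous F := by
    rw [hF]
    exact hSc
  have hF0 : ∀ x, 0 ≤ F x := fun x => by
    rw [hF]
    exact norm_nonneg _
  obtain ⟨G, hG⟩ : ∃ G : ℝ → ℝ, G = fun x => max 0 (F x ^ 4 - κ ^ 2 * F x ^ 2) := ⟨_, rfl⟩
  have hGc : Continuous G := by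
    rw [hG]
    exact continuous_const.max ((hFc.pow 4).sub (continuous_const.mul (hFc.pow 2)))
  have hG0 : ∀ x, 0 ≤ G x := fun x => by
    rw [hG]
    exact le_max_left _ _
  have hG4 : ∀ x, G x ≤ F x ^ 4 := fun x => by
    rw [hG]
    refine max_le (by positivity) ?_
    have : 0 ≤ κ ^ 2 * F x ^ 2 := by positivity
    linarith
  have hGF : ∀ x, F x ^ 4 ≤ G x + κ ^ 2 * F x ^ 2 := fun x => by
    have : F x ^ 4 - κ ^ 2 * F x ^ 2 ≤ G x := by
      rw [hG]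
      exact le_max_right _ _
    linarith
  have hGz : ∀ x, F x ≤ κ → G x = 0 := fun x hx => by
    rw [hG]
    refine max_eq_left ?_
    have h1 : F x ^ 2 ≤ κ ^ 2 := pow_le_pow_left₀ (hF0 x) hx 2
    have h2 : F x ^ 2 * F x ^ 2 ≤ κ ^ 2 * F x ^ 2 :=
      mul_le_mul_of_nonneg_right h1 (by positivity)
    have h3 : F x ^ 4 = F x ^ 2 * F x ^ 2 := by ring
    linarith
  -- shift the interval
  obtain ⟨u, hu⟩ : ∃ u : ℝ, u = 1 / ((N : ℝ) + 1) := ⟨_, rfl⟩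
  have hshift : ∫ α in (0 : ℝ)..1, F α ^ 4 = ∫ α in u..(u + 1), F α ^ 4 := by
    have hper : Function.Periodic (fun x => F x ^ 4) 1 := by
      intro x
      simp only [hF]
      rw [Pool.Agent.MC.periodic_expSum f (y + 1) x]
    have h := hper.intervalIntegral_add_eq u 0
    rw [h, zero_add]
  -- the mean square
  have hsq : ∫ α in u..(u + 1), F α ^ 2 ≤ 4 * y * Real.log y := by
    have h := Pool.Agent.MC.integral_norm_sq_shift f (y + 1) u
    have h' : ∫ α in u..(u + 1), F α ^ 2 = ∑ n ∈ range (y + 1), ‖f n‖ ^ 2 := by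
      rw [← h, hF]
    rw [h', hf]
    exact h₂ y hy2
  have hint4 : IntervalIntegrable (fun x => F x ^ 4) volume u (u + 1) :=
    (hFc.pow 4).intervalIntegrable _ _
  have hintG : IntervalIntegrable G volume u (u + 1) := hGc.intervalIntegrable _ _
  have hint2 : IntervalIntegrable (fun x => κ ^ 2 * F x ^ 2) volume u (u + 1) :=
    (continuous_const.mul (hFc.pow 2)).intervalIntegrable _ _
  have hstep1 : ∫ α in u..(u + 1), F α ^ 4 ≤
      (∫ α in u..(u + 1), G α) + κ ^ 2 * ∫ α in u..(u + 1), F α ^ 2 := by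
    rw [← intervalIntegral.integral_const_mul, ← intervalIntegral.integral_add hintG hint2]
    exact intervalIntegral.integral_mono_on (by linarith) hint4 (hintG.add hint2)
      fun x _ => hGF x
  -- the covering
  have hcover : ∫ α in u..(u + 1), G α ≤ ∑ i ∈ fareySet Q1,
      ∫ β in (-(2 * (Q1 : ℝ) / (i.1 * y)))..(2 * (Q1 : ℝ) / (i.1 * y)),
        G ((i.2 : ℝ) / i.1 + β) := by
    refine integral_le_sum_cover_supp G hGc hG0 u (u + 1) (by linarith) (fareySet Q1)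
      (fun i => (i.2 : ℝ) / i.1) (fun i => 2 * (Q1 : ℝ) / (i.1 * y)) (fun i _ => by positivity) ?_
    intro x hx hGx
    rw [hu] at hx
    obtain ⟨q, hq, b, hb, hqb⟩ := farey_cover N hN1 x hx
    have hqN := Finset.mem_Icc.mp hq
    have hqR : (0 : ℝ) < q := by
      have : 0 < q := by omega
      exact_mod_cast this
    have hqQ : q ≤ Q1 := by
      by_contra hcon
      rw [not_le] at hcon
      refine hGx (hGz x ?_)
      rw [hN] at hq hqb
      have h := h₁ y Q1 hy1 hQle hQ2 q hq hcon b hb x hqb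
      rw [hF, hf, hκ]
      exact h
    refine ⟨⟨q, b⟩, ?_, ?_⟩
    · rw [fareySet, Finset.mem_sigma]
      exact ⟨Finset.mem_Icc.mpr ⟨hqN.1, hqQ⟩, hb⟩
    · refine hqb.trans ?_
      change 1 / ((q : ℝ) * N) ≤ 2 * (Q1 : ℝ) / (q * y)
      rw [div_le_div_iff₀ (by positivity) (by positivity)]
      have h := mul_le_mul_of_nonneg_left hN2R hqR.le
      calc 1 * ((q : ℝ) * y) = q * y := one_mul _
        _ ≤ q * (2 * Q1 * N) := h
        _ = 2 * Q1 * (q * N) := by ring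
  have hle4 : ∑ i ∈ fareySet Q1,
      ∫ β in (-(2 * (Q1 : ℝ) / (i.1 * y)))..(2 * (Q1 : ℝ) / (i.1 * y)),
        G ((i.2 : ℝ) / i.1 + β) ≤ ∑ i ∈ fareySet Q1,
      ∫ β in (-(2 * (Q1 : ℝ) / (i.1 * y)))..(2 * (Q1 : ℝ) / (i.1 * y)),
        F ((i.2 : ℝ) / i.1 + β) ^ 4 := by
    refine Finset.sum_le_sum fun i _ => ?_
    have hT : 0 ≤ 2 * (Q1 : ℝ) / (i.1 * y) := by positivity
    refine intervalIntegral.integral_mono_on (by linarith) ?_ ?_ fun x _ => hG4 _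
    · exact (hGc.comp (by fun_prop : Continuous fun β : ℝ => (i.2 : ℝ) / i.1 + β)).intervalIntegrable
        _ _
    · exact ((hFc.comp (by fun_prop : Continuous fun β : ℝ => (i.2 : ℝ) / i.1 + β)).pow
        4).intervalIntegrable _ _
  have hfinal : ∑ i ∈ fareySet Q1,
      ∫ β in (-(2 * (Q1 : ℝ) / (i.1 * y)))..(2 * (Q1 : ℝ) / (i.1 * y)),
        F ((i.2 : ℝ) / i.1 + β) ^ 4 = ∑ q ∈ Icc 1 Q1, ∑ a ∈ frac' q,
        ∫ β in (-(2 * (Q1 : ℝ) / (q * y)))..(2 * (Q1 : ℝ) / (q * y)),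
          F ((a : ℝ) / q + β) ^ 4 := by
    rw [fareySet, Finset.sum_sigma]
  have hκsq : κ ^ 2 * ∫ α in u..(u + 1), F α ^ 2 ≤ 4 * C ^ 2 * (y : ℝ) ^ 3 / Real.log y := by
    have h := mul_le_mul_of_nonneg_left hsq (by positivity : 0 ≤ κ ^ 2)
    refine h.trans_eq ?_
    rw [hκ]
    have : Real.log (y : ℝ) ≠ 0 := by
      have : 0 < Real.log (y : ℝ) := by linarith
      exact this.ne'
    field_simp
  have hgoal : ∫ α in (0 : ℝ)..1, F α ^ 4 ≤ 4 * C ^ 2 * (y : ℝ) ^ 3 / Real.log y +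
      ∑ q ∈ Icc 1 Q1, ∑ a ∈ frac' q,
        ∫ β in (-(2 * (Q1 : ℝ) / (q * y)))..(2 * (Q1 : ℝ) / (q * y)),
          F ((a : ℝ) / q + β) ^ 4 := by
    rw [hshift, ← hfinal]
    linarith
  rw [hF, hf] at hgoal
  exact hgoal

end Pool.Agent.PP
end
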