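import Pool.Agent.Lib.MP_bae66e_nt.Mg.G091
import Pool.Agent.Lib.MP_bae66e_nt.Mg.G080
import Pool.Agent.Lib.MP_bae66e_nt.Mg.G084
import Pool.Agent.Lib.MP_bae66e_nt.Mg.G082
import Pool.Agent.Lib.MP_bae66e_nt.Mg.G097

section

/-!
# F7a: integrals of the explicit bounds
-/

set_option autoImplicit false

namespace Pool.Agent.PP

open Finset MeasureTheory Real
open Pool.Agent.MC (ee expSum frac frac' arcSum fareySet)
open Pool.Agent.Lib.MP_bae66e_nt.AP3 (Rough rset dset prI KT flEta FLP cset Om0 xb prm)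

/-- powers are eventually smaller than exponentials -/
private lemma F7a_ev (k : ℕ) (c K : ℝ) (hc : 0 < c) :
    ∀ᶠ L : ℝ in Filter.atTop, K * L ^ k ≤ Real.exp (c * L) := by
  have h1 := (isLittleO_pow_exp_pos_mul_atTop (k := k) hc).bound
    (show (0 : ℝ) < 1 / (|K| + 1) by positivity)
  filter_upwards [h1] with L hL
  rw [Real.norm_eq_abs, Real.norm_eq_abs, abs_of_pos (Real.exp_pos _)] at hL
  have hK : 0 ≤ |K| := abs_nonneg K
  have h2 : K * L ^ k ≤ |K| * |L ^ k| := by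
    rw [← abs_mul]
    exact le_abs_self _
  have h3 : |K| * |L ^ k| ≤ |K| * (1 / (|K| + 1) * Real.exp (c * L)) :=
    mul_le_mul_of_nonneg_left hL hK
  have h4 : |K| * (1 / (|K| + 1) * Real.exp (c * L)) =
      |K| / (|K| + 1) * Real.exp (c * L) := by ring
  have h5 : |K| / (|K| + 1) ≤ 1 := by
    rw [div_le_one (by positivity)]
    linarith
  have h6 := mul_le_of_le_one_left (Real.exp_pos (c * L)).le h5
  linarith

private lemma F7a_log_tendsto :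
    Filter.Tendsto (fun y : ℕ => Real.log (y : ℝ)) Filter.atTop Filter.atTop :=
  Real.tendsto_log_atTop.comp tendsto_natCast_atTop_atTop

private lemma F7a_int (b T : ℝ) (hb : 0 < b) (hT : 0 ≤ T) :
    ∫ β in (0 : ℝ)..T, 16 / (β + b) ^ 4 ≤ 16 / (3 * b ^ 3) := by
  have hpos : ∀ x ∈ Set.uIcc 0 T, 0 < x + b := by
    intro x hx
    rw [Set.uIcc_of_le hT] at hx
    linarith [hx.1]
  have hd : ∀ x ∈ Set.uIcc 0 T,
      HasDerivAt (fun x : ℝ => -(16 / 3) * ((x + b) ^ 3)⁻¹) (16 / (x + b) ^ 4) x := by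
    intro x hx
    have hx' := hpos x hx
    have h1 : HasDerivAt (fun x : ℝ => x + b) 1 x := (hasDerivAt_id x).add_const b
    have h2 := (h1.fun_pow 3).fun_inv (pow_ne_zero 3 hx'.ne')
    have h3 := h2.const_mul (-(16 / 3) : ℝ)
    refine h3.congr_deriv ?_
    field_simp
    push_cast
    ring
  have hint : IntervalIntegrable (fun x : ℝ => 16 / (x + b) ^ 4) volume 0 T := by
    apply ContinuousOn.intervalIntegrable
    refine ContinuousOn.div continuousOn_const (by fun_prop) ?_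
    intro x hx
    exact pow_ne_zero 4 (hpos x hx).ne'
  rw [intervalIntegral.integral_eq_sub_of_hasDerivAt hd hint]
  have h4 : 0 < ((T + b) ^ 3)⁻¹ := by positivity
  have h5 : 16 / (3 * b ^ 3) = (16 / 3) * ((0 + b) ^ 3)⁻¹ := by
    rw [zero_add]
    field_simp
  rw [h5]
  linarith

private lemma F7a_int2 (b T : ℝ) (hb : 0 < b) (hT : 0 ≤ T) :
    ∫ β in (-T)..T, 16 / (|β| + b) ^ 4 ≤ 32 / (3 * b ^ 3) := by
  have hc : Continuous (fun β : ℝ => 16 / (|β| + b) ^ 4) := by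
    refine Continuous.div continuous_const (by fun_prop) ?_
    intro x
    have := abs_nonneg x
    positivity
  have h1 : ∫ β in (-T)..T, 16 / (|β| + b) ^ 4 =
      (∫ β in (-T)..0, 16 / (|β| + b) ^ 4) + ∫ β in (0 : ℝ)..T, 16 / (|β| + b) ^ 4 :=
    (intervalIntegral.integral_add_adjacent_intervals (hc.intervalIntegrable _ _)
      (hc.intervalIntegrable _ _)).symm
  have h2 : ∫ β in (-T)..0, 16 / (|β| + b) ^ 4 = ∫ β in (0 : ℝ)..T, 16 / (|β| + b) ^ 4 := by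
    have h3 := intervalIntegral.integral_comp_neg (a := 0) (b := T)
      (fun β : ℝ => 16 / (|β| + b) ^ 4)
    simp only [abs_neg, neg_zero] at h3
    exact h3.symm
  have h3 : ∫ β in (0 : ℝ)..T, 16 / (|β| + b) ^ 4 = ∫ β in (0 : ℝ)..T, 16 / (β + b) ^ 4 := by
    refine intervalIntegral.integral_congr fun x hx => ?_
    rw [Set.uIcc_of_le hT] at hx
    show 16 / (|x| + b) ^ 4 = 16 / (x + b) ^ 4
    rw [abs_of_nonneg hx.1]
  have h4 := F7a_int b T hb hT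
  rw [h1, h2, h3]
  have h5 : 32 / (3 * b ^ 3) = 16 / (3 * b ^ 3) + 16 / (3 * b ^ 3) := by
    rw [← add_div]
    norm_num
  rw [h5]
  linarith

lemma continuous_nb (W Q0 D y q : ℕ) (hW : 1 ≤ W) (hQ0 : 1 ≤ Q0) (hy : 1 ≤ y) :
    Continuous (nb W Q0 D y q) := by
  have hb : (0 : ℝ) < Q0 / (W * y) := by
    have h1 : (0 : ℝ) < W := by exact_mod_cast hW
    have h2 : (0 : ℝ) < Q0 := by exact_mod_cast hQ0
    have h3 : (0 : ℝ) < y := by exact_mod_cast hy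
    positivity
  unfold nb
  by_cases hd : q ∣ W
  · simp only [hd, if_true]
    refine continuous_const.mul (continuous_const.add ?_)
    refine Continuous.div continuous_const (by fun_prop) ?_
    intro x
    have := abs_nonneg x
    positivity
  · simp only [hd, if_false]
    exact continuous_const

private lemma F7a_one (W Q0 D y q : ℕ) (hW : 1 ≤ W) (hQ0 : 1 ≤ Q0) (hy : 1 ≤ y) (T : ℝ)
    (hT : 0 ≤ T) : ∫ β in (-T)..T, nb W Q0 D y q β ^ 4 ≤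
      8 * (W : ℝ) ^ 12 * (2 * T * (D : ℝ) ^ 4 +
        if q ∣ W then 32 / (3 * ((Q0 : ℝ) / (W * y)) ^ 3) else 0) := by
  have hWp : (0 : ℝ) < W := by exact_mod_cast hW
  have hQp : (0 : ℝ) < Q0 := by exact_mod_cast hQ0
  have hyp : (0 : ℝ) < y := by exact_mod_cast hy
  set b : ℝ := (Q0 : ℝ) / (W * y) with hb
  have hbp : 0 < b := by positivity
  have hab : ∀ s t : ℝ, (s + t) ^ 4 ≤ 8 * (s ^ 4 + t ^ 4) := by
    intro s t
    nlinarith [sq_nonneg (s - t), sq_nonneg (s ^ 2 - t ^ 2), sq_nonneg (s + t),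
      sq_nonneg ((s - t) * (s + t)), sq_nonneg ((s - t) ^ 2)]
  have hnbc : Continuous (fun β => nb W Q0 D y q β ^ 4) :=
    (continuous_nb W Q0 D y q hW hQ0 hy).pow 4
  by_cases hd : q ∣ W
  · rw [if_pos hd]
    have hc : Continuous (fun β : ℝ => 16 / (|β| + b) ^ 4) := by
      refine Continuous.div continuous_const (by fun_prop) ?_
      intro x
      have := abs_nonneg x
      positivity
    have hc2 : Continuous (fun β : ℝ => 8 * (W : ℝ) ^ 12 * ((D : ℝ) ^ 4 + 16 / (|β| + b) ^ 4)) :=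
      continuous_const.mul (continuous_const.add hc)
    have h1 : ∫ β in (-T)..T, nb W Q0 D y q β ^ 4 ≤
        ∫ β in (-T)..T, 8 * (W : ℝ) ^ 12 * ((D : ℝ) ^ 4 + 16 / (|β| + b) ^ 4) := by
      refine intervalIntegral.integral_mono (by linarith) (hnbc.intervalIntegrable _ _)
        (hc2.intervalIntegrable _ _) fun β => ?_
      simp only
      unfold nb
      rw [if_pos hd]
      rw [mul_pow]
      have h2 := hab (D : ℝ) (2 / (|β| + b))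
      have h3 : (2 / (|β| + b)) ^ 4 = 16 / (|β| + b) ^ 4 := by
        rw [div_pow]
        norm_num
      rw [h3] at h2
      calc ((W : ℝ) ^ 3) ^ 4 * ((D : ℝ) + 2 / (|β| + b)) ^ 4
          ≤ ((W : ℝ) ^ 3) ^ 4 * (8 * ((D : ℝ) ^ 4 + 16 / (|β| + b) ^ 4)) :=
            mul_le_mul_of_nonneg_left h2 (by positivity)
        _ = _ := by ring
    refine h1.trans ?_
    rw [intervalIntegral.integral_const_mul]
    refine mul_le_mul_of_nonneg_left ?_ (by positivity)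
    rw [intervalIntegral.integral_add (continuous_const.intervalIntegrable _ _)
      (hc.intervalIntegrable _ _), intervalIntegral.integral_const]
    have h2 := F7a_int2 b T hbp hT
    have h3 : (T - -T) • (D : ℝ) ^ 4 = 2 * T * (D : ℝ) ^ 4 := by
      rw [smul_eq_mul]
      ring
    rw [h3]
    linarith
  · rw [if_neg hd, add_zero]
    have h1 : ∫ β in (-T)..T, nb W Q0 D y q β ^ 4 ≤
        ∫ _β in (-T)..T, (W : ℝ) ^ 12 * (D : ℝ) ^ 4 := by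
      refine intervalIntegral.integral_mono (by linarith) (hnbc.intervalIntegrable _ _)
        (continuous_const.intervalIntegrable _ _) fun β => ?_
      simp only
      unfold nb
      rw [if_neg hd, add_zero, mul_pow]
      exact le_of_eq (by ring)
    refine h1.trans ?_
    rw [intervalIntegral.integral_const, smul_eq_mul]
    have h2 : 0 ≤ T * (W : ℝ) ^ 12 * (D : ℝ) ^ 4 := by positivity
    nlinarith

/-- PROOF. `nb⁴ ≤ 8 W^12 (D⁴ + (2/(|β| + b))⁴ [q ∣ W])`, `b = Q0/(W y)`; `∫_{-T}^{T} ≤ 8 W^12 (2 T D⁴ + 32/(3 b³) [q ∣ W])`; sum over `q ≤ D` with the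
factor `φ(q) ≤ D`: `≤ 8 W^12 (2 T D^6 + W² · 11 (W y/Q0)³)`. The first part is `≤ y²` for `y` large (`T ≤ 2 D/y`, `D ≤ 2 (log y)^12`). -/
lemma sum_int_nb (W : ℕ) (hW : 2 ≤ W) (η : ℝ) (hη : 0 < η) : ∃ Q₀ : ℕ, ∀ Q0 : ℕ, Q₀ ≤ Q0 → ∃ y₀ : ℕ,
    ∀ (y D : ℕ), y₀ ≤ y → (D : ℝ) ≤ 2 * Real.log y ^ 12 → ∀ T : ℝ, 0 ≤ T → T ≤ 2 * D / y →
    ∑ q ∈ Icc 1 D, (Nat.totient q : ℝ) * ∫ β in (-T)..T, nb W Q0 D y q β ^ 4 ≤ η * (y : ℝ) ^ 3 := by
  have hWp : (0 : ℝ) < W := by exact_mod_cast (by omega : 0 < W)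
  refine ⟨⌈200 * (W : ℝ) ^ 16 / η⌉₊ + 1, fun Q0 hQ0 => ?_⟩
  have hQ1 : 1 ≤ Q0 := by omega
  have hQp : (0 : ℝ) < Q0 := by exact_mod_cast hQ1
  have hQ1r : (1 : ℝ) ≤ Q0 := by exact_mod_cast hQ1
  have hQ2 : 200 * (W : ℝ) ^ 16 / η ≤ Q0 := by
    have h1 : (⌈200 * (W : ℝ) ^ 16 / η⌉₊ : ℝ) ≤ Q0 := Nat.cast_le.2 (by omega)
    exact (Nat.le_ceil _).trans h1
  have hQ3 : 200 * (W : ℝ) ^ 16 ≤ η * Q0 ^ 3 := by
    rw [div_le_iff₀ hη] at hQ2
    have h1 : (Q0 : ℝ) ≤ Q0 ^ 3 := le_self_pow₀ hQ1r (by norm_num)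
    have h2 := mul_le_mul_of_nonneg_right h1 hη.le
    linarith
  have hev : ∀ᶠ y : ℕ in Filter.atTop, 0 ≤ Real.log y ∧
      (8192 * (W : ℝ) ^ 12 / η) * Real.log y ^ 84 ≤ Real.exp (1 * Real.log y) := by
    refine F7a_log_tendsto.eventually (p := fun L : ℝ => 0 ≤ L ∧
      (8192 * (W : ℝ) ^ 12 / η) * L ^ 84 ≤ Real.exp (1 * L)) ?_
    filter_upwards [Filter.eventually_ge_atTop 0,
      F7a_ev 84 1 (8192 * (W : ℝ) ^ 12 / η) (by norm_num)] with L h1 h2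
    exact ⟨h1, h2⟩
  obtain ⟨y₀, hy₀⟩ := Filter.eventually_atTop.1 hev
  refine ⟨max y₀ 1, fun y D hy hDL T hT0 hT => ?_⟩
  obtain ⟨hL0, hL⟩ := hy₀ y (le_trans (le_max_left _ _) hy)
  have hy1 : 1 ≤ y := le_trans (le_max_right _ _) hy
  have hyp : (0 : ℝ) < y := by exact_mod_cast hy1
  have hy1r : (1 : ℝ) ≤ y := by exact_mod_cast hy1
  rw [one_mul, Real.exp_log hyp] at hL
  set L : ℝ := Real.log y with hLdef
  have hD0 : (0 : ℝ) ≤ D := Nat.cast_nonneg D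
  set b : ℝ := (Q0 : ℝ) / (W * y) with hb
  have hbp : 0 < b := by positivity
  set R : ℝ := 32 / (3 * b ^ 3) with hR
  have hRp : 0 < R := by positivity
  have h1 : ∑ q ∈ Icc 1 D, (Nat.totient q : ℝ) * ∫ β in (-T)..T, nb W Q0 D y q β ^ 4 ≤
      ∑ q ∈ Icc 1 D, (16 * (W : ℝ) ^ 12 * T * (D : ℝ) ^ 5 +
        8 * (W : ℝ) ^ 12 * R * (if q ∣ W then (Nat.totient q : ℝ) else 0)) := by
    refine Finset.sum_le_sum fun q hq => ?_
    have hq' := Finset.mem_Icc.1 hq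
    have h2 := F7a_one W Q0 D y q (by omega) hQ1 hy1 T hT0
    have h3 : (Nat.totient q : ℝ) ≤ D := by
      have : Nat.totient q ≤ q := Nat.totient_le q
      exact_mod_cast this.trans hq'.2
    have h4 : (0 : ℝ) ≤ Nat.totient q := Nat.cast_nonneg _
    calc (Nat.totient q : ℝ) * ∫ β in (-T)..T, nb W Q0 D y q β ^ 4
        ≤ (Nat.totient q : ℝ) * (8 * (W : ℝ) ^ 12 * (2 * T * (D : ℝ) ^ 4 +
            if q ∣ W then 32 / (3 * ((Q0 : ℝ) / (W * y)) ^ 3) else 0)) :=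
          mul_le_mul_of_nonneg_left h2 h4
      _ = (Nat.totient q : ℝ) * (16 * (W : ℝ) ^ 12 * T * (D : ℝ) ^ 4) +
            8 * (W : ℝ) ^ 12 * R * (if q ∣ W then (Nat.totient q : ℝ) else 0) := by
          by_cases hd : q ∣ W
          · rw [if_pos hd, if_pos hd]
            ring
          · rw [if_neg hd, if_neg hd]
            ring
      _ ≤ D * (16 * (W : ℝ) ^ 12 * T * (D : ℝ) ^ 4) +
            8 * (W : ℝ) ^ 12 * R * (if q ∣ W then (Nat.totient q : ℝ) else 0) := by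
          have h5 := mul_le_mul_of_nonneg_right h3
            (show 0 ≤ 16 * (W : ℝ) ^ 12 * T * (D : ℝ) ^ 4 by positivity)
          linarith
      _ = _ := by ring
  refine h1.trans ?_
  rw [Finset.sum_add_distrib, Finset.sum_const, Nat.card_Icc, ← Finset.mul_sum]
  have h2 : ∑ q ∈ Icc 1 D, (if q ∣ W then (Nat.totient q : ℝ) else 0) ≤ W := by
    rw [← Finset.sum_filter]
    have h3 : (∑ q ∈ W.divisors, (Nat.totient q : ℝ)) = W := by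
      have := Nat.sum_totient W
      exact_mod_cast this
    rw [← h3]
    refine Finset.sum_le_sum_of_subset_of_nonneg ?_ (fun _ _ _ => Nat.cast_nonneg _)
    intro q hq
    rw [Finset.mem_filter] at hq
    exact Nat.mem_divisors.2 ⟨hq.2, by omega⟩
  have h3 : 8 * (W : ℝ) ^ 12 * R * ∑ q ∈ Icc 1 D, (if q ∣ W then (Nat.totient q : ℝ) else 0) ≤
      8 * (W : ℝ) ^ 12 * R * W := mul_le_mul_of_nonneg_left h2 (by positivity)
  have h4 : 8 * (W : ℝ) ^ 12 * R * W ≤ η / 2 * (y : ℝ) ^ 3 := by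
    have e1 : 8 * (W : ℝ) ^ 12 * R * W = 256 / 3 * (W : ℝ) ^ 16 / Q0 ^ 3 * y ^ 3 := by
      rw [hR, hb]
      field_simp
      ring
    rw [e1]
    refine mul_le_mul_of_nonneg_right ?_ (by positivity)
    rw [div_le_iff₀ (by positivity)]
    have : 0 ≤ (W : ℝ) ^ 16 := by positivity
    linarith
  have h5 : (D + 1 - 1) • (16 * (W : ℝ) ^ 12 * T * (D : ℝ) ^ 5) ≤ η / 2 * (y : ℝ) ^ 3 := by
    rw [Nat.add_sub_cancel, nsmul_eq_mul]
    have e1 : (D : ℝ) * (16 * (W : ℝ) ^ 12 * T * (D : ℝ) ^ 5) ≤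
        D * (16 * (W : ℝ) ^ 12 * (2 * D / y) * (D : ℝ) ^ 5) := by
      refine mul_le_mul_of_nonneg_left ?_ hD0
      refine mul_le_mul_of_nonneg_right ?_ (by positivity)
      exact mul_le_mul_of_nonneg_left hT (by positivity)
    refine e1.trans ?_
    have e2 : (D : ℝ) * (16 * (W : ℝ) ^ 12 * (2 * D / y) * (D : ℝ) ^ 5) =
        32 * (W : ℝ) ^ 12 * (D : ℝ) ^ 7 / y := by
      field_simp
      ring
    rw [e2, div_le_iff₀ hyp]
    have e3 : (D : ℝ) ^ 7 ≤ 128 * L ^ 84 := by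
      calc (D : ℝ) ^ 7 ≤ (2 * L ^ 12) ^ 7 := pow_le_pow_left₀ hD0 hDL 7
        _ = 128 * L ^ 84 := by ring
    have e4 : 8192 * (W : ℝ) ^ 12 * L ^ 84 ≤ η * y := by
      have e5 : 8192 * (W : ℝ) ^ 12 / η * L ^ 84 = 8192 * (W : ℝ) ^ 12 * L ^ 84 / η := by ring
      rw [e5, div_le_iff₀ hη] at hL
      linarith
    have e6 : (y : ℝ) ≤ y ^ 4 := le_self_pow₀ hy1r (by norm_num)
    calc 32 * (W : ℝ) ^ 12 * (D : ℝ) ^ 7 ≤ 32 * (W : ℝ) ^ 12 * (128 * L ^ 84) :=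
          mul_le_mul_of_nonneg_left e3 (by positivity)
      _ = (8192 * (W : ℝ) ^ 12 * L ^ 84) / 2 := by ring
      _ ≤ η * y / 2 := by linarith
      _ ≤ η * y ^ 4 / 2 := by
          have := mul_le_mul_of_nonneg_left e6 hη.le
          linarith
      _ = η / 2 * (y : ℝ) ^ 3 * y := by ring
  linarith

end Pool.Agent.PP
end

section

/-!
# F7b: integrals of the explicit bounds
-/

set_option autoImplicit false

namespace Pool.Agent.PP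

open Finset MeasureTheory Real
open Pool.Agent.MC (ee expSum frac frac' arcSum fareySet)
open Pool.Agent.Lib.MP_bae66e_nt.AP3 (Rough rset dset prI KT flEta FLP cset Om0 xb prm)

private lemma F7b_cont1 (y : ℝ) : Continuous (fun β : ℝ => (max 1 (y * |β|))⁻¹) := by
  apply Continuous.inv₀
  · fun_prop
  · intro β
    have : (1 : ℝ) ≤ max 1 (y * |β|) := le_max_left _ _
    positivity

private lemma F7b_cont2 (y Q : ℝ) (hy : 0 ≤ y) (hQ : 0 ≤ Q) :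
    Continuous (fun β : ℝ => (1 + y * |β| / Q)⁻¹) := by
  apply Continuous.inv₀
  · fun_prop
  · intro β
    have : 0 ≤ y * |β| / Q := by positivity
    positivity

lemma continuous_mb (W Q0 y q : ℕ) (hQ0 : 1 ≤ Q0) (δ : ℝ) : Continuous (mb W Q0 y q δ) := by
  by_cases hq : q ≤ Q0
  · have h1 := F7b_cont1 (y : ℝ)
    have h2 := F7b_cont2 (y : ℝ) (Q0 : ℝ) (Nat.cast_nonneg _) (Nat.cast_nonneg _)
    have h3 : mb W Q0 y q δ = fun β => (y : ℝ) * (‖cE W q‖ * (max 1 ((y : ℝ) * |β|))⁻¹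
        + δ * (2 * (1 + (y : ℝ) * |β| / Q0)⁻¹)) := by
      funext β
      unfold mb
      rw [if_pos hq, div_eq_mul_inv ‖cE W q‖, div_eq_mul_inv (2 : ℝ)]
    rw [h3]
    fun_prop
  · have h3 : mb W Q0 y q δ = fun _ => 0 := by
      funext β
      unfold mb
      rw [if_neg hq]
    rw [h3]
    exact continuous_const

private lemma F7b_int (a b s T : ℝ) (ha : 0 ≤ a) (hb : 0 < b) (hs : 0 ≤ s) (hsT : s ≤ T)
    (h0 : 0 < a + b * s) :
    ∫ β in s..T, ((a + b * β) ^ 4)⁻¹ ≤ 1 / (3 * b) * ((a + b * s) ^ 3)⁻¹ := by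
  have hpos : ∀ β ∈ Set.uIcc s T, 0 < a + b * β := by
    intro β hβ
    rw [Set.uIcc_of_le hsT, Set.mem_Icc] at hβ
    have : b * s ≤ b * β := mul_le_mul_of_nonneg_left hβ.1 hb.le
    linarith
  have hder : ∀ β ∈ Set.uIcc s T,
      HasDerivAt (fun β : ℝ => -(1 / (3 * b)) * ((a + b * β) ^ 3)⁻¹) ((a + b * β) ^ 4)⁻¹ β := by
    intro β hβ
    have hp := hpos β hβ
    have h1 : HasDerivAt (fun β : ℝ => a + b * β) b β := by
      simpa using ((hasDerivAt_id β).const_mul b).const_add a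
    have h2 := (h1.pow 3).inv (pow_pos hp 3).ne'
    have h3 := h2.const_mul (-(1 / (3 * b)))
    refine h3.congr_deriv ?_
    simp only [Pi.pow_apply]
    field_simp
    norm_num
  have hcont : ContinuousOn (fun β : ℝ => ((a + b * β) ^ 4)⁻¹) (Set.uIcc s T) := by
    apply ContinuousOn.inv₀
    · fun_prop
    · intro β hβ
      have := hpos β hβ
      positivity
  rw [intervalIntegral.integral_eq_sub_of_hasDerivAt hder hcont.intervalIntegrable]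
  have hT := hpos T (Set.right_mem_uIcc)
  have h4 : 0 ≤ 1 / (3 * b) * ((a + b * T) ^ 3)⁻¹ := by positivity
  linarith

private lemma F7b_intmax (y T : ℝ) (hy : 0 < y) (hT : 0 ≤ T) :
    ∫ β in (0 : ℝ)..T, ((max 1 (y * |β|))⁻¹) ^ 4 ≤ 4 / (3 * y) := by
  have hc : Continuous (fun β : ℝ => ((max 1 (y * |β|))⁻¹) ^ 4) := (F7b_cont1 y).pow 4
  have hle1 : ∀ β : ℝ, ((max 1 (y * |β|))⁻¹) ^ 4 ≤ 1 := by
    intro β
    have h1 : (1 : ℝ) ≤ max 1 (y * |β|) := le_max_left _ _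
    apply pow_le_one₀
    · positivity
    · exact inv_le_one_of_one_le₀ h1
  have hstep : ∀ S : ℝ, 0 ≤ S → ∫ β in (0 : ℝ)..S, ((max 1 (y * |β|))⁻¹) ^ 4 ≤ S := by
    intro S hS
    have h2 : ∫ β in (0 : ℝ)..S, ((max 1 (y * |β|))⁻¹) ^ 4 ≤ ∫ β in (0 : ℝ)..S, (1 : ℝ) :=
      intervalIntegral.integral_mono_on hS (hc.intervalIntegrable _ _)
        (continuous_const.intervalIntegrable _ _) (fun β _ => hle1 β)
    rw [intervalIntegral.integral_const, smul_eq_mul, mul_one, sub_zero] at h2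
    exact h2
  rcases le_total T (1 / y) with h | h
  · refine (hstep T hT).trans (h.trans ?_)
    rw [div_le_div_iff₀ hy (by positivity)]
    linarith
  · have hy1 : 0 ≤ 1 / y := by positivity
    rw [← intervalIntegral.integral_add_adjacent_intervals (hc.intervalIntegrable 0 (1 / y))
      (hc.intervalIntegrable (1 / y) T)]
    have h3 := hstep (1 / y) hy1
    have h4 : ∫ β in (1 / y)..T, ((max 1 (y * |β|))⁻¹) ^ 4
        = ∫ β in (1 / y)..T, ((0 + y * β) ^ 4)⁻¹ := by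
      apply intervalIntegral.integral_congr
      intro β hβ
      rw [Set.uIcc_of_le h, Set.mem_Icc] at hβ
      have h5 : 0 ≤ β := hy1.trans hβ.1
      have h6 : 1 ≤ y * β := by
        have := mul_le_mul_of_nonneg_left hβ.1 hy.le
        rwa [mul_one_div_cancel hy.ne'] at this
      simp only
      rw [abs_of_nonneg h5, max_eq_right h6, zero_add, inv_pow]
    have h7 := F7b_int 0 y (1 / y) T le_rfl hy hy1 h (by rw [mul_one_div_cancel hy.ne']; norm_num)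
    rw [mul_one_div_cancel hy.ne', zero_add, one_pow, inv_one, mul_one] at h7
    rw [h4]
    have h8 : 4 / (3 * y) = 1 / y + 1 / (3 * y) := by
      field_simp
      norm_num
    rw [h8]
    linarith

private lemma F7b_intQ (y Q T : ℝ) (hy : 0 < y) (hQ : 0 < Q) (hT : 0 ≤ T) :
    ∫ β in (0 : ℝ)..T, ((1 + y * |β| / Q)⁻¹) ^ 4 ≤ Q / (3 * y) := by
  have h4 : ∫ β in (0 : ℝ)..T, ((1 + y * |β| / Q)⁻¹) ^ 4
      = ∫ β in (0 : ℝ)..T, ((1 + y / Q * β) ^ 4)⁻¹ := by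
    apply intervalIntegral.integral_congr
    intro β hβ
    rw [Set.uIcc_of_le hT, Set.mem_Icc] at hβ
    simp only
    rw [abs_of_nonneg hβ.1, inv_pow]
    congr 2
    ring
  rw [h4]
  have h7 := F7b_int 1 (y / Q) 0 T zero_le_one (by positivity) le_rfl hT (by simp)
  rw [mul_zero, add_zero, one_pow, inv_one, mul_one] at h7
  refine h7.trans (le_of_eq ?_)
  field_simp

private lemma F7b_even (f : ℝ → ℝ) (hf : Continuous f) (heven : ∀ β, f (-β) = f β) (T : ℝ) :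
    ∫ β in (-T)..T, f β = 2 * ∫ β in (0 : ℝ)..T, f β := by
  rw [← intervalIntegral.integral_add_adjacent_intervals (hf.intervalIntegrable (-T) 0)
      (hf.intervalIntegrable 0 T)]
  have h1 : ∫ β in (-T)..0, f β = ∫ β in (0 : ℝ)..T, f β := by
    have h2 := intervalIntegral.integral_comp_neg (a := 0) (b := T) f
    rw [neg_zero] at h2
    rw [← h2]
    apply intervalIntegral.integral_congr
    intro β _
    exact heven β
  rw [h1]
  ring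

private lemma F7b_one (W Q0 y q : ℕ) (hQ0 : 1 ≤ Q0) (hy : 1 ≤ y) (δ : ℝ) (hδ : 0 ≤ δ) (T : ℝ)
    (hT : 0 ≤ T) (hq : q ≤ Q0) :
    ∫ β in (-T)..T, mb W Q0 y q δ β ^ 4
      ≤ 24 * (y : ℝ) ^ 3 * ‖cE W q‖ ^ 4 + 100 * δ ^ 4 * (Q0 : ℝ) * (y : ℝ) ^ 3 := by
  have hyR : (0 : ℝ) < y := by exact_mod_cast (show 0 < y by omega)
  have hQR : (0 : ℝ) < Q0 := by exact_mod_cast (show 0 < Q0 by omega)
  have hc1 : Continuous (fun β : ℝ => ((max 1 ((y : ℝ) * |β|))⁻¹) ^ 4) := (F7b_cont1 y).pow 4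
  have hc2 : Continuous (fun β : ℝ => ((1 + (y : ℝ) * |β| / Q0)⁻¹) ^ 4) :=
    (F7b_cont2 y Q0 hyR.le hQR.le).pow 4
  have hcm : Continuous (fun β : ℝ => mb W Q0 y q δ β ^ 4) := (continuous_mb W Q0 y q hQ0 δ).pow 4
  have hc0 : 0 ≤ ‖cE W q‖ := norm_nonneg _
  have hpt : ∀ β : ℝ, mb W Q0 y q δ β ^ 4 ≤ (8 * (y : ℝ) ^ 4 * ‖cE W q‖ ^ 4) *
      ((max 1 ((y : ℝ) * |β|))⁻¹) ^ 4 + (128 * (y : ℝ) ^ 4 * δ ^ 4) *
        ((1 + (y : ℝ) * |β| / Q0)⁻¹) ^ 4 := by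
    intro β
    have hfour : ∀ s t : ℝ, 0 ≤ s → 0 ≤ t → (s + t) ^ 4 ≤ 8 * (s ^ 4 + t ^ 4) := by
      intro s t hs ht
      have e1 : (s + t) ^ 2 ≤ 2 * (s ^ 2 + t ^ 2) := by nlinarith [sq_nonneg (s - t)]
      have e2 : ((s + t) ^ 2) ^ 2 ≤ (2 * (s ^ 2 + t ^ 2)) ^ 2 :=
        pow_le_pow_left₀ (sq_nonneg _) e1 2
      nlinarith [sq_nonneg (s ^ 2 - t ^ 2)]
    have h1 : mb W Q0 y q δ β = (y : ℝ) * (‖cE W q‖ * (max 1 ((y : ℝ) * |β|))⁻¹
        + δ * (2 * (1 + (y : ℝ) * |β| / Q0)⁻¹)) := by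
      unfold mb
      rw [if_pos hq, div_eq_mul_inv ‖cE W q‖, div_eq_mul_inv (2 : ℝ)]
    have hm : 0 ≤ (max 1 ((y : ℝ) * |β|))⁻¹ := by positivity
    have hq' : 0 ≤ (1 + (y : ℝ) * |β| / Q0)⁻¹ := by positivity
    rw [h1, mul_pow]
    have h2 := hfour (‖cE W q‖ * (max 1 ((y : ℝ) * |β|))⁻¹)
      (δ * (2 * (1 + (y : ℝ) * |β| / Q0)⁻¹)) (mul_nonneg hc0 hm) (by positivity)
    calc (y : ℝ) ^ 4 * (‖cE W q‖ * (max 1 ((y : ℝ) * |β|))⁻¹
        + δ * (2 * (1 + (y : ℝ) * |β| / Q0)⁻¹)) ^ 4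
        ≤ (y : ℝ) ^ 4 * (8 * ((‖cE W q‖ * (max 1 ((y : ℝ) * |β|))⁻¹) ^ 4
          + (δ * (2 * (1 + (y : ℝ) * |β| / Q0)⁻¹)) ^ 4)) :=
          mul_le_mul_of_nonneg_left h2 (by positivity)
      _ = _ := by ring
  have hint : ∫ β in (-T)..T, mb W Q0 y q δ β ^ 4 ≤
      ∫ β in (-T)..T, ((8 * (y : ℝ) ^ 4 * ‖cE W q‖ ^ 4) *
      ((max 1 ((y : ℝ) * |β|))⁻¹) ^ 4 + (128 * (y : ℝ) ^ 4 * δ ^ 4) *
        ((1 + (y : ℝ) * |β| / Q0)⁻¹) ^ 4) := by
    apply intervalIntegral.integral_mono_on (by linarith) (hcm.intervalIntegrable _ _)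
    · apply Continuous.intervalIntegrable
      exact (continuous_const.mul hc1).add (continuous_const.mul hc2)
    · intro β _
      exact hpt β
  refine hint.trans ?_
  have hd1 : Continuous (fun β : ℝ => (8 * (y : ℝ) ^ 4 * ‖cE W q‖ ^ 4) *
      ((max 1 ((y : ℝ) * |β|))⁻¹) ^ 4) := continuous_const.mul hc1
  have hd2 : Continuous (fun β : ℝ => (128 * (y : ℝ) ^ 4 * δ ^ 4) *
        ((1 + (y : ℝ) * |β| / Q0)⁻¹) ^ 4) := continuous_const.mul hc2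
  rw [intervalIntegral.integral_add (hd1.intervalIntegrable _ _)
    (hd2.intervalIntegrable _ _), intervalIntegral.integral_const_mul,
    intervalIntegral.integral_const_mul, F7b_even _ hc1 (by intro β; rw [abs_neg]) T,
    F7b_even _ hc2 (by intro β; rw [abs_neg]) T]
  have i1 := F7b_intmax (y : ℝ) T hyR hT
  have i2 := F7b_intQ (y : ℝ) (Q0 : ℝ) T hyR hQR hT
  have j1 : 8 * (y : ℝ) ^ 4 * ‖cE W q‖ ^ 4 * (2 * ∫ β in (0 : ℝ)..T,
      ((max 1 ((y : ℝ) * |β|))⁻¹) ^ 4) ≤ 24 * (y : ℝ) ^ 3 * ‖cE W q‖ ^ 4 := by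
    calc 8 * (y : ℝ) ^ 4 * ‖cE W q‖ ^ 4 * (2 * ∫ β in (0 : ℝ)..T,
        ((max 1 ((y : ℝ) * |β|))⁻¹) ^ 4)
        ≤ 8 * (y : ℝ) ^ 4 * ‖cE W q‖ ^ 4 * (2 * (4 / (3 * y))) := by gcongr
      _ = 64 / 3 * (y : ℝ) ^ 3 * ‖cE W q‖ ^ 4 := by
          field_simp
          ring
      _ ≤ 24 * (y : ℝ) ^ 3 * ‖cE W q‖ ^ 4 := by
          gcongr
          norm_num
  have j2 : 128 * (y : ℝ) ^ 4 * δ ^ 4 * (2 * ∫ β in (0 : ℝ)..T,
      ((1 + (y : ℝ) * |β| / Q0)⁻¹) ^ 4) ≤ 100 * δ ^ 4 * (Q0 : ℝ) * (y : ℝ) ^ 3 := by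
    calc 128 * (y : ℝ) ^ 4 * δ ^ 4 * (2 * ∫ β in (0 : ℝ)..T,
        ((1 + (y : ℝ) * |β| / Q0)⁻¹) ^ 4)
        ≤ 128 * (y : ℝ) ^ 4 * δ ^ 4 * (2 * ((Q0 : ℝ) / (3 * y))) := by gcongr
      _ = 256 / 3 * (δ ^ 4 * (Q0 : ℝ) * (y : ℝ) ^ 3) := by
          field_simp
          ring
      _ ≤ 100 * (δ ^ 4 * (Q0 : ℝ) * (y : ℝ) ^ 3) := by
          apply mul_le_mul_of_nonneg_right (by norm_num) (by positivity)
      _ = 100 * δ ^ 4 * (Q0 : ℝ) * (y : ℝ) ^ 3 := by ring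
  exact add_le_add j1 j2

/-- PROOF. `mb⁴ ≤ 8 y⁴ (‖c‖⁴/(max 1 (y|β|))⁴ + 16 δ⁴/(1 + y|β|/Q0)⁴)` and `∫_ℝ 1/(max 1 (y|β|))⁴ = 8/(3 y)`,
`∫_ℝ 1/(1 + y|β|/Q0)⁴ = 2 Q0/(3 y)` (both integrals over `(-T, T)` are smaller). `φ(q) ≤ Q0`, at most `Q0` values of `q`. -/
lemma sum_int_mb (W Q0 y D : ℕ) (hQ0 : 1 ≤ Q0) (hy : 1 ≤ y) (δ : ℝ) (hδ : 0 ≤ δ) (T : ℝ) (hT : 0 ≤ T) :
    ∑ q ∈ Icc 1 D, (Nat.totient q : ℝ) * ∫ β in (-T)..T, mb W Q0 y q δ β ^ 4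
      ≤ 24 * (y : ℝ) ^ 3 * (∑ q ∈ Icc 1 Q0, (Nat.totient q : ℝ) * ‖cE W q‖ ^ 4)
        + 100 * δ ^ 4 * (Q0 : ℝ) ^ 3 * (y : ℝ) ^ 3 := by
  have h1 : ∑ q ∈ Icc 1 D, (Nat.totient q : ℝ) * ∫ β in (-T)..T, mb W Q0 y q δ β ^ 4
      ≤ ∑ q ∈ Icc 1 D with q ≤ Q0, (Nat.totient q : ℝ) *
        (24 * (y : ℝ) ^ 3 * ‖cE W q‖ ^ 4 + 100 * δ ^ 4 * (Q0 : ℝ) * (y : ℝ) ^ 3) := by
    rw [Finset.sum_filter]
    apply Finset.sum_le_sum
    intro q _
    split_ifs with hq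
    · exact mul_le_mul_of_nonneg_left (F7b_one W Q0 y q hQ0 hy δ hδ T hT hq) (Nat.cast_nonneg _)
    · have h2 : ∀ β : ℝ, mb W Q0 y q δ β ^ 4 = 0 := by
        intro β
        unfold mb
        rw [if_neg hq]
        norm_num
      simp only [h2]
      simp
  refine h1.trans ?_
  have h3 : ∑ q ∈ Icc 1 D with q ≤ Q0, (Nat.totient q : ℝ) *
        (24 * (y : ℝ) ^ 3 * ‖cE W q‖ ^ 4 + 100 * δ ^ 4 * (Q0 : ℝ) * (y : ℝ) ^ 3)
      ≤ ∑ q ∈ Icc 1 Q0, (Nat.totient q : ℝ) *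
        (24 * (y : ℝ) ^ 3 * ‖cE W q‖ ^ 4 + 100 * δ ^ 4 * (Q0 : ℝ) * (y : ℝ) ^ 3) := by
    apply Finset.sum_le_sum_of_subset_of_nonneg
    · intro q hq
      simp only [Finset.mem_filter, Finset.mem_Icc] at hq ⊢
      exact ⟨hq.1.1, hq.2⟩
    · intro q _ _
      positivity
  refine h3.trans ?_
  have h4 : ∑ q ∈ Icc 1 Q0, (Nat.totient q : ℝ) *
        (24 * (y : ℝ) ^ 3 * ‖cE W q‖ ^ 4 + 100 * δ ^ 4 * (Q0 : ℝ) * (y : ℝ) ^ 3)
      = 24 * (y : ℝ) ^ 3 * (∑ q ∈ Icc 1 Q0, (Nat.totient q : ℝ) * ‖cE W q‖ ^ 4)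
        + (∑ q ∈ Icc 1 Q0, (Nat.totient q : ℝ)) * (100 * δ ^ 4 * (Q0 : ℝ) * (y : ℝ) ^ 3) := by
    rw [Finset.mul_sum, Finset.sum_mul, ← Finset.sum_add_distrib]
    apply Finset.sum_congr rfl
    intro q _
    ring
  rw [h4]
  have h5 : ∑ q ∈ Icc 1 Q0, (Nat.totient q : ℝ) ≤ (Q0 : ℝ) ^ 2 := by
    calc ∑ q ∈ Icc 1 Q0, (Nat.totient q : ℝ) ≤ ∑ _q ∈ Icc 1 Q0, (Q0 : ℝ) := by
          apply Finset.sum_le_sum
          intro q hq
          rw [Finset.mem_Icc] at hq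
          exact_mod_cast (Nat.totient_le q).trans hq.2
      _ = (Q0 : ℝ) ^ 2 := by
          rw [Finset.sum_const, Nat.card_Icc, nsmul_eq_mul, Nat.add_sub_cancel]
          ring
  have h6 : (∑ q ∈ Icc 1 Q0, (Nat.totient q : ℝ)) * (100 * δ ^ 4 * (Q0 : ℝ) * (y : ℝ) ^ 3)
      ≤ (Q0 : ℝ) ^ 2 * (100 * δ ^ 4 * (Q0 : ℝ) * (y : ℝ) ^ 3) :=
    mul_le_mul_of_nonneg_right h5 (by positivity)
  have h7 : (Q0 : ℝ) ^ 2 * (100 * δ ^ 4 * (Q0 : ℝ) * (y : ℝ) ^ 3)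
      = 100 * δ ^ 4 * (Q0 : ℝ) ^ 3 * (y : ℝ) ^ 3 := by ring
  rw [h7] at h6
  exact add_le_add le_rfl h6

end Pool.Agent.PP
end

section

/-!
# F9c: prime pairs on average
-/

set_option autoImplicit false

namespace Pool.Agent.PP

open Finset MeasureTheory Real
open Pool.Agent.MC (ee expSum frac frac' arcSum fareySet)
open Pool.Agent.Lib.MP_bae66e_nt.AP3 (Rough rset dset prI KT flEta FLP cset Om0 xb prm)

private lemma F9c_card (q : ℕ) : ((frac' q).card : ℝ) = Nat.totient q := by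
  have h1 : (frac q).card = Nat.totient q := by
    unfold Pool.Agent.MC.frac
    rw [Nat.totient_eq_card_coprime]
    congr 1
    refine Finset.filter_congr fun x _ => ?_
    rw [Nat.coprime_comm]
  have h2 := Pool.Agent.MC.sum_frac_eq (G := fun _ => (1 : ℝ)) (fun x => rfl) q
  simp only [Finset.sum_const, nsmul_eq_mul, mul_one] at h2
  rw [← h2, h1]

/-- the contribution of the arcs with denominator `q` -/
private lemma F9c_arc (f g : ℕ → ℂ) (B q : ℕ) (t T κ : ℝ) (ht : 0 ≤ t) (htT : t ≤ T) (hκ : 0 ≤ κ)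
    (nn mm : ℝ → ℝ) (hn : Continuous nn) (hm : Continuous mm)
    (h : ∀ a ∈ frac' q, ∀ β : ℝ, |β| ≤ t → ‖expSum f B ((a : ℝ) / q + β)‖ ^ 4
      ≤ κ * ‖expSum g B ((a : ℝ) / q + β)‖ ^ 2 + 8 * nn β ^ 4 + mm β ^ 4) :
    ∑ a ∈ frac' q, ∫ β in (-t)..t, ‖expSum f B ((a : ℝ) / q + β)‖ ^ 4
      ≤ κ * (∫ β in (-T)..T, arcSum g B q β)
        + 8 * ((Nat.totient q : ℝ) * ∫ β in (-T)..T, nn β ^ 4)
        + (Nat.totient q : ℝ) * ∫ β in (-T)..T, mm β ^ 4 := by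
  have hcf : ∀ a : ℕ, Continuous fun β : ℝ => ‖expSum f B ((a : ℝ) / q + β)‖ ^ 4 := fun a =>
    ((Pool.Agent.MC.continuous_expSum f B).comp (by fun_prop)).norm.pow 4
  have hcg : ∀ a : ℕ, Continuous fun β : ℝ => ‖expSum g B ((a : ℝ) / q + β)‖ ^ 2 := fun a =>
    ((Pool.Agent.MC.continuous_expSum g B).comp (by fun_prop)).norm.pow 2
  have hcR : ∀ a : ℕ, Continuous fun β : ℝ => κ * ‖expSum g B ((a : ℝ) / q + β)‖ ^ 2
      + 8 * nn β ^ 4 + mm β ^ 4 := fun a =>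
    ((continuous_const.mul (hcg a)).add (continuous_const.mul (hn.pow 4))).add (hm.pow 4)
  have hR0 : ∀ (a : ℕ) (β : ℝ), 0 ≤ κ * ‖expSum g B ((a : ℝ) / q + β)‖ ^ 2
      + 8 * nn β ^ 4 + mm β ^ 4 := by
    intro a β
    have e1 : 0 ≤ nn β ^ 4 := by positivity
    have e2 : 0 ≤ mm β ^ 4 := by positivity
    have e3 : 0 ≤ κ * ‖expSum g B ((a : ℝ) / q + β)‖ ^ 2 := by positivity
    linarith
  have h1 : ∀ a ∈ frac' q, ∫ β in (-t)..t, ‖expSum f B ((a : ℝ) / q + β)‖ ^ 4 ≤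
      ∫ β in (-T)..T, (κ * ‖expSum g B ((a : ℝ) / q + β)‖ ^ 2 + 8 * nn β ^ 4 + mm β ^ 4) := by
    intro a ha
    have e1 : ∫ β in (-t)..t, ‖expSum f B ((a : ℝ) / q + β)‖ ^ 4 ≤
        ∫ β in (-t)..t, (κ * ‖expSum g B ((a : ℝ) / q + β)‖ ^ 2 + 8 * nn β ^ 4 + mm β ^ 4) :=
      intervalIntegral.integral_mono_on (by linarith) ((hcf a).intervalIntegrable _ _)
        ((hcR a).intervalIntegrable _ _) (fun β hβ => h a ha β (abs_le.2 hβ))
    refine e1.trans ?_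
    exact intervalIntegral.integral_mono_interval (by linarith) (by linarith) htT
      (Filter.Eventually.of_forall (hR0 a)) ((hcR a).intervalIntegrable _ _)
  refine (Finset.sum_le_sum h1).trans (le_of_eq ?_)
  rw [← intervalIntegral.integral_finsetSum (fun a _ => (hcR a).intervalIntegrable _ _)]
  have e2 : ∀ β : ℝ, ∑ a ∈ frac' q, (κ * ‖expSum g B ((a : ℝ) / q + β)‖ ^ 2
      + 8 * nn β ^ 4 + mm β ^ 4) = κ * arcSum g B q β
        + 8 * ((Nat.totient q : ℝ) * nn β ^ 4) + (Nat.totient q : ℝ) * mm β ^ 4 := by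
    intro β
    rw [Pool.Agent.MC.arcSum_eq', Finset.sum_add_distrib, Finset.sum_add_distrib,
      Finset.sum_const, Finset.sum_const, ← Finset.mul_sum, nsmul_eq_mul, nsmul_eq_mul,
      F9c_card q]
    ring
  simp only [e2]
  have i1 : IntervalIntegrable (fun β => κ * arcSum g B q β) volume (-T) T :=
    (continuous_const.mul (Pool.Agent.MC.continuous_arcSum g B q)).intervalIntegrable _ _
  have i2 : IntervalIntegrable (fun β => 8 * ((Nat.totient q : ℝ) * nn β ^ 4)) volume (-T) T :=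
    (continuous_const.mul (continuous_const.mul (hn.pow 4))).intervalIntegrable _ _
  have i3 : IntervalIntegrable (fun β => (Nat.totient q : ℝ) * mm β ^ 4) volume (-T) T :=
    (continuous_const.mul (hm.pow 4)).intervalIntegrable _ _
  rw [intervalIntegral.integral_add (i1.add i2) i3, intervalIntegral.integral_add i1 i2,
    intervalIntegral.integral_const_mul, intervalIntegral.integral_const_mul,
    intervalIntegral.integral_const_mul, intervalIntegral.integral_const_mul]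

private lemma F9c_prm (w : ℕ) (hw : 2 ≤ w) : Squarefree (prm w) ∧ 2 ≤ prm w := by
  constructor
  · unfold Pool.Agent.Lib.MP_bae66e_nt.AP3.prm
    refine Finset.squarefree_prod_of_pairwise_isCoprime (fun p hp q hq hpq ↦ ?_) ?_
    · have hp' := (Pool.Agent.Lib.MP_bae66e_nt.AP3.mem_prI.mp (Finset.mem_coe.mp hp)).2
      have hq' := (Pool.Agent.Lib.MP_bae66e_nt.AP3.mem_prI.mp (Finset.mem_coe.mp hq)).2
      exact Nat.coprime_iff_isRelPrime.mp ((Nat.coprime_primes hp' hq').mpr hpq)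
    · intro p hp
      exact (Pool.Agent.Lib.MP_bae66e_nt.AP3.mem_prI.mp hp).2.prime.squarefree
  · have h1 : 2 ∣ prm w := Pool.Agent.Lib.MP_bae66e_nt.AP3.dvd_prm
      (Pool.Agent.Lib.MP_bae66e_nt.AP3.mem_prI.mpr ⟨⟨by norm_num, hw⟩, Nat.prime_two⟩)
    exact Nat.le_of_dvd (Pool.Agent.Lib.MP_bae66e_nt.AP3.prm_pos w) h1

/-- the conditions on `y` -/
private lemma F9c_ev (A B η θ : ℝ) (hη : 0 < η) (hθ : 0 < θ) : ∃ y₀ : ℕ, ∀ y : ℕ, y₀ ≤ y →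
    1 ≤ y ∧ 1 ≤ Real.log y ∧ A / Real.log y ≤ η ∧ B * Real.log y ^ (-(1 / 2) : ℝ) ≤ θ ∧
      8 * Real.log y ^ 12 ≤ Real.sqrt y := by
  have T1 : Filter.Tendsto (fun y : ℕ => Real.log (y : ℝ)) Filter.atTop Filter.atTop :=
    Real.tendsto_log_atTop.comp tendsto_natCast_atTop_atTop
  have e1 : ∀ᶠ y : ℕ in Filter.atTop, A / Real.log y ≤ η := by
    have h : Filter.Tendsto (fun y : ℕ => A / Real.log (y : ℝ)) Filter.atTop (nhds 0) :=
      T1.const_div_atTop A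
    exact (h.eventually (gt_mem_nhds hη)).mono (fun y hy => hy.le)
  have e2 : ∀ᶠ y : ℕ in Filter.atTop, B * Real.log y ^ (-(1 / 2) : ℝ) ≤ θ := by
    have h : Filter.Tendsto (fun y : ℕ => B * Real.log (y : ℝ) ^ (-(1 / 2) : ℝ)) Filter.atTop
        (nhds (B * 0)) :=
      ((tendsto_rpow_neg_atTop (show (0 : ℝ) < 1 / 2 by norm_num)).comp T1).const_mul B
    rw [mul_zero] at h
    exact (h.eventually (gt_mem_nhds hθ)).mono (fun y hy => hy.le)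
  have e3 : ∀ᶠ y : ℕ in Filter.atTop, Real.log (y : ℝ) ^ 24 ≤ 1 / 64 * (y : ℝ) := by
    have h := (Real.isLittleO_pow_log_id_atTop (n := 24)).bound
      (show (0 : ℝ) < 1 / 64 by norm_num)
    have h' := tendsto_natCast_atTop_atTop (R := ℝ) |>.eventually h
    filter_upwards [h'] with y hy
    rw [id_eq, Real.norm_eq_abs, Real.norm_eq_abs,
      abs_of_nonneg (show (0 : ℝ) ≤ (y : ℝ) from Nat.cast_nonneg y)] at hy
    exact (le_abs_self _).trans hy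
  obtain ⟨y₀, h⟩ := Filter.eventually_atTop.1 ((e1.and e2).and (e3.and
    ((T1.eventually (Filter.eventually_ge_atTop 1)).and (Filter.eventually_ge_atTop 1))))
  refine ⟨y₀, fun y hy => ?_⟩
  obtain ⟨⟨a1, a2⟩, a3, a4, a5⟩ := h y hy
  refine ⟨a5, a4, a1, a2, ?_⟩
  apply Real.le_sqrt_of_sq_le
  calc (8 * Real.log (y : ℝ) ^ 12) ^ 2 = 64 * Real.log (y : ℝ) ^ 24 := by ring
    _ ≤ 64 * (1 / 64 * (y : ℝ)) := mul_le_mul_of_nonneg_left a3 (by norm_num)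
    _ = y := by ring

/-- The fourth moment. PROOF. Given `ε`. `C₀` from `fourth_moment_arcs`, `C₁` from `arc_pointwise`, `C₂` from `weighted_L2`. Choose `w₀ ≥ 2` with `24 · 6/√w₀ ≤ ε/5`. For
`w ≥ w₀`, `W = prm w` (squarefree, `≥ 2`), choose `Q0 ≥ W` with `C₁ C₂ Q0^(-1/9) ≤ ε/10` and `8 η ≤ ε/5` in `sum_int_nb`; then `δ` with `100 δ⁴ Q0³ ≤ ε/10`; then
`y` large. By `fourth_moment_arcs` and `arc_pointwise` (enlarge the interval of integration to `|β| ≤ T = 2 Q1/y` for the three nonnegative terms on the right;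
`∑_{a ∈ frac' q} ‖·‖² = arcSum`: `MC.arcSum_eq'`; `#frac' q = φ(q)`): the integral is
`≤ C₀ y³/log y + C₁ y² · C₂ y (Q0^(-1/9) + (log y)^(-1/2)) + 8 η y³ + 24 y³ 6/√w + 100 δ⁴ Q0³ y³ ≤ ε y³`. -/
theorem fourth_moment_small (hP : PNTAP) : ∀ ε : ℝ, 0 < ε → ∃ w₀ : ℕ, ∀ w : ℕ, w₀ ≤ w → ∃ y₀ : ℕ,
    ∀ y : ℕ, y₀ ≤ y →
    ∫ α in (0:ℝ)..1, ‖expSum (fun n => ((EE (prm w) n : ℝ) : ℂ)) (y + 1) α‖ ^ 4 ≤ ε * (y : ℝ) ^ 3 := by
  intro ε hε
  obtain ⟨C₀, hC₀, h0⟩ := fourth_moment_arcs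
  obtain ⟨C₁, hC₁, h1⟩ := arc_pointwise hP
  obtain ⟨C₂, hC₂, y₂, h2⟩ := weighted_L2
  obtain ⟨w₁, hw₁⟩ := exists_nat_ge ((720 / ε) ^ 2)
  refine ⟨max 2 w₁, fun w hw => ?_⟩
  have hw2 : 2 ≤ w := (le_max_left _ _).trans hw
  have hww1 : w₁ ≤ w := (le_max_right _ _).trans hw
  have hww : 24 * (6 / Real.sqrt w) ≤ ε / 5 := by
    have e1 : 720 / ε ≤ Real.sqrt w := by
      apply Real.le_sqrt_of_sq_le
      exact hw₁.trans (by exact_mod_cast hww1)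
    have e2 : 0 < Real.sqrt w := lt_of_lt_of_le (by positivity) e1
    have e3 : 720 ≤ Real.sqrt w * ε := (div_le_iff₀ hε).1 e1
    rw [mul_div_assoc', div_le_iff₀ e2]
    linarith
  obtain ⟨hWsq, hW2⟩ := F9c_prm w hw2
  have hcE : ∀ Q0 : ℕ, ∑ q ∈ Icc 1 Q0, (Nat.totient q : ℝ) * ‖cE (prm w) q‖ ^ 4 ≤
      6 / Real.sqrt w := fun Q0 => sum_cE w Q0 (by omega)
  set W := prm w with hW
  obtain ⟨Q₀, hQ₀⟩ := sum_int_nb W hW2 (ε / 40) (by positivity)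
  have hq1 : ∀ᶠ Q : ℕ in Filter.atTop, C₁ * C₂ * (Q : ℝ) ^ (-(1 / 9) : ℝ) ≤ ε / 10 := by
    have h : Filter.Tendsto (fun Q : ℕ => C₁ * C₂ * (Q : ℝ) ^ (-(1 / 9) : ℝ)) Filter.atTop
        (nhds (C₁ * C₂ * 0)) :=
      ((tendsto_rpow_neg_atTop (show (0 : ℝ) < 1 / 9 by norm_num)).comp
        tendsto_natCast_atTop_atTop).const_mul (C₁ * C₂)
    rw [mul_zero] at h
    exact (h.eventually (gt_mem_nhds (show (0 : ℝ) < ε / 10 by positivity))).mono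
      (fun y hy => hy.le)
  obtain ⟨Q0, ⟨hQ0a, hQ0b⟩, hQ0c⟩ := ((hq1.and (Filter.eventually_ge_atTop W)).and
    (Filter.eventually_ge_atTop Q₀)).exists
  have hQ01 : 1 ≤ Q0 := by omega
  have hQ0r : (1 : ℝ) ≤ Q0 := by exact_mod_cast hQ01
  set δ : ℝ := min 1 (ε / (1000 * (Q0 : ℝ) ^ 3)) with hδdef
  have hδ : 0 < δ := lt_min one_pos (by positivity)
  have hδ1 : δ ≤ 1 := min_le_left _ _
  have hδ2 : 100 * δ ^ 4 * (Q0 : ℝ) ^ 3 ≤ ε / 10 := by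
    have e1 : δ ^ 4 ≤ δ := by
      calc δ ^ 4 ≤ δ ^ 1 := pow_le_pow_of_le_one hδ.le hδ1 (by norm_num)
        _ = δ := pow_one δ
    have e2 : δ ≤ ε / (1000 * (Q0 : ℝ) ^ 3) := min_le_right _ _
    rw [le_div_iff₀ (by positivity)] at e2
    have e3 : δ ^ 4 * (Q0 : ℝ) ^ 3 ≤ δ * (Q0 : ℝ) ^ 3 :=
      mul_le_mul_of_nonneg_right e1 (by positivity)
    nlinarith
  obtain ⟨y0, hy0⟩ := h0 W hW2
  obtain ⟨y1, hy1⟩ := h1 W Q0 hWsq hW2 hQ0b δ hδ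
  obtain ⟨y3, hy3⟩ := hQ₀ Q0 hQ0c
  obtain ⟨y4, hy4⟩ := F9c_ev C₀ (C₁ * C₂) (ε / 5) (ε / 10) (by positivity) (by positivity)
  refine ⟨max (max y0 y1) (max y₂ (max y3 y4)), fun y hy => ?_⟩
  have g0 : y0 ≤ y := ((le_max_left _ _).trans (le_max_left _ _)).trans hy
  have g1 : y1 ≤ y := ((le_max_right _ _).trans (le_max_left _ _)).trans hy
  have g2 : y₂ ≤ y := ((le_max_left _ _).trans (le_max_right _ _)).trans hy
  have g3 : y3 ≤ y :=
    ((le_max_left _ _).trans ((le_max_right _ _).trans (le_max_right _ _))).trans hy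
  have g4 : y4 ≤ y :=
    ((le_max_right _ _).trans ((le_max_right _ _).trans (le_max_right _ _))).trans hy
  obtain ⟨b1, b2, b3, b4, b5⟩ := hy4 y g4
  have hyr : (1 : ℝ) ≤ y := by exact_mod_cast b1
  have hy0' : (0 : ℝ) < y := by linarith
  have hl0 : 0 < Real.log (y : ℝ) := by linarith
  obtain ⟨Q1, hQ1, hQ1b, hmain⟩ := hy0 y g0
  have hQ1r : (1 : ℝ) ≤ Q1 := by exact_mod_cast hQ1
  set T : ℝ := 2 * Q1 / y with hT
  have hT0 : 0 ≤ T := by positivity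
  have hTs : 2 * T * Real.sqrt y ≤ 1 := by
    have e1 : 4 * (Q1 : ℝ) ≤ Real.sqrt y := by linarith
    have e2 : Real.sqrt y * Real.sqrt y = y := Real.mul_self_sqrt hy0'.le
    have e3 : 4 * (Q1 : ℝ) * Real.sqrt y ≤ Real.sqrt y * Real.sqrt y :=
      mul_le_mul_of_nonneg_right e1 (Real.sqrt_nonneg _)
    have e4 : 2 * T * Real.sqrt y = 4 * (Q1 : ℝ) * Real.sqrt y / y := by
      rw [hT]
      ring
    rw [e4, div_le_one hy0']
    linarith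
  -- the arcs
  have harc : ∀ q ∈ Icc 1 Q1, ∑ a ∈ frac' q,
      ∫ β in (-(2 * (Q1 : ℝ) / (q * y)))..(2 * (Q1 : ℝ) / (q * y)),
        ‖expSum (fun n => ((EE W n : ℝ) : ℂ)) (y + 1) ((a : ℝ) / q + β)‖ ^ 4
      ≤ C₁ * (y : ℝ) ^ 2 * (((max Q0 q : ℕ) : ℝ) ^ (-(2 / 9) : ℝ) + 1 / Real.log y) *
          (∫ β in (-T)..T, arcSum (fun n => ((th n : ℝ) : ℂ)) (y + 1) q β)
        + 8 * ((Nat.totient q : ℝ) * ∫ β in (-T)..T, nb W Q0 Q1 y q β ^ 4)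
        + (Nat.totient q : ℝ) * ∫ β in (-T)..T, mb W Q0 y q δ β ^ 4 := by
    intro q hq
    have hq1 : 1 ≤ q := (Finset.mem_Icc.1 hq).1
    have hqr : (1 : ℝ) ≤ q := by exact_mod_cast hq1
    refine F9c_arc _ _ (y + 1) q _ T _ (by positivity) ?_ (by positivity) _ _
      (continuous_nb W Q0 Q1 y q (by omega) hQ01 b1) (continuous_mb W Q0 y q hQ01 δ) ?_
    · rw [hT]
      refine div_le_div_of_nonneg_left (by positivity) hy0' ?_
      nlinarith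
    · intro a ha β hβ
      exact hy1 y Q1 g1 hQ1b q hq a ha β hβ
  have hsum := Finset.sum_le_sum harc
  rw [Finset.sum_add_distrib, Finset.sum_add_distrib, ← Finset.mul_sum] at hsum
  have s1 : ∑ q ∈ Icc 1 Q1,
      C₁ * (y : ℝ) ^ 2 * (((max Q0 q : ℕ) : ℝ) ^ (-(2 / 9) : ℝ) + 1 / Real.log y) *
        (∫ β in (-T)..T, arcSum (fun n => ((th n : ℝ) : ℂ)) (y + 1) q β) ≤
      C₁ * (y : ℝ) ^ 2 * (C₂ * y * ((Q0 : ℝ) ^ (-(1 / 9) : ℝ) + Real.log y ^ (-(1 / 2) : ℝ))) := by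
    have e1 := h2 y g2 Q0 Q1 hQ01 hQ1 hQ1b T hT0 hTs
    have e2 : ∑ q ∈ Icc 1 Q1,
        C₁ * (y : ℝ) ^ 2 * (((max Q0 q : ℕ) : ℝ) ^ (-(2 / 9) : ℝ) + 1 / Real.log y) *
          (∫ β in (-T)..T, arcSum (fun n => ((th n : ℝ) : ℂ)) (y + 1) q β) =
        C₁ * (y : ℝ) ^ 2 * ∑ q ∈ Icc 1 Q1,
          (((max Q0 q : ℕ) : ℝ) ^ (-(2 / 9) : ℝ) + 1 / Real.log y) *
          (∫ β in (-T)..T, arcSum (fun n => ((th n : ℝ) : ℂ)) (y + 1) q β) := by
      rw [Finset.mul_sum]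
      exact Finset.sum_congr rfl (fun q _ => by ring)
    rw [e2]
    exact mul_le_mul_of_nonneg_left e1 (by positivity)
  have s2 := hy3 y Q1 g3 hQ1b T hT0 (le_of_eq hT)
  have s3 := sum_int_mb W Q0 y Q1 hQ01 b1 δ hδ.le T hT0
  have s4 : 24 * (y : ℝ) ^ 3 * (∑ q ∈ Icc 1 Q0, (Nat.totient q : ℝ) * ‖cE W q‖ ^ 4) ≤
      ε / 5 * (y : ℝ) ^ 3 := by
    calc 24 * (y : ℝ) ^ 3 * (∑ q ∈ Icc 1 Q0, (Nat.totient q : ℝ) * ‖cE W q‖ ^ 4)
        ≤ 24 * (y : ℝ) ^ 3 * (6 / Real.sqrt w) :=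
          mul_le_mul_of_nonneg_left (hcE Q0) (by positivity)
      _ = (24 * (6 / Real.sqrt w)) * (y : ℝ) ^ 3 := by ring
      _ ≤ ε / 5 * (y : ℝ) ^ 3 := mul_le_mul_of_nonneg_right hww (by positivity)
  have s5 : 100 * δ ^ 4 * (Q0 : ℝ) ^ 3 * (y : ℝ) ^ 3 ≤ ε / 10 * (y : ℝ) ^ 3 :=
    mul_le_mul_of_nonneg_right hδ2 (by positivity)
  have s6 : C₁ * (y : ℝ) ^ 2 * (C₂ * y * ((Q0 : ℝ) ^ (-(1 / 9) : ℝ) +
      Real.log y ^ (-(1 / 2) : ℝ))) ≤ ε / 5 * (y : ℝ) ^ 3 := by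
    have e1 : C₁ * (y : ℝ) ^ 2 * (C₂ * y * ((Q0 : ℝ) ^ (-(1 / 9) : ℝ) +
        Real.log y ^ (-(1 / 2) : ℝ))) = (C₁ * C₂ * (Q0 : ℝ) ^ (-(1 / 9) : ℝ) +
        C₁ * C₂ * Real.log y ^ (-(1 / 2) : ℝ)) * (y : ℝ) ^ 3 := by ring
    rw [e1]
    refine mul_le_mul_of_nonneg_right ?_ (by positivity)
    linarith
  have s7 : C₀ * (y : ℝ) ^ 3 / Real.log y ≤ ε / 5 * (y : ℝ) ^ 3 := by
    have e1 : C₀ * (y : ℝ) ^ 3 / Real.log y = C₀ / Real.log y * (y : ℝ) ^ 3 := by ring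
    rw [e1]
    exact mul_le_mul_of_nonneg_right b3 (by positivity)
  have hy3' : 0 ≤ ε * (y : ℝ) ^ 3 := by positivity
  linarith

/-- `corr_sq_le` (`EE W 0 = 0` for `W ≥ 2`) and `fourth_moment_small`. -/
theorem prime_pairs (hP : PNTAP) : ∀ ε : ℝ, 0 < ε → ∃ w₀ : ℕ, ∀ w : ℕ, w₀ ≤ w → ∃ y₀ : ℕ,
    ∀ y : ℕ, y₀ ≤ y → ∑ d ∈ range y, corr (EE (prm w)) y d ^ 2 ≤ ε * (y : ℝ) ^ 3 := by
  intro ε hε
  obtain ⟨w₀, h⟩ := fourth_moment_small hP ε hε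
  refine ⟨max 2 w₀, fun w hw => ?_⟩
  have hw2 : 2 ≤ w := (le_max_left _ _).trans hw
  obtain ⟨y₀, h1⟩ := h w ((le_max_right _ _).trans hw)
  refine ⟨y₀, fun y hy => ?_⟩
  refine (corr_sq_le (EE (prm w)) ?_ y).trans (h1 y hy)
  have h2 : ¬ Nat.Coprime 0 (prm w) := by
    rw [Nat.coprime_zero_left]
    have := (F9c_prm w hw2).2
    omega
  unfold EE th nu
  rw [if_neg Nat.not_prime_zero, if_neg h2, sub_zero]

end Pool.Agent.PP
end
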