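import Pool.Agent.Lib.MP_bae66e_nt.Mg.G080
import Pool.Agent.Lib.MP_bae66e_nt.Mg.G092
import Pool.Agent.Lib.MP_bae66e_nt.Mg.G090
import Pool.Agent.Lib.MP_bae66e_nt.PP.G3a
import Pool.Agent.Lib.MP_bae66e_nt.Mg.G074
import Pool.Agent.Lib.MP_bae66e_nt.Mg.G082

section

/-!
# G3b: the energy in the notation of LL
-/

set_option autoImplicit false

namespace Pool.Agent.PP

open Finset MeasureTheory Real
open Pool.Agent.MC (ee expSum frac frac' arcSum fareySet)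
open Pool.Agent.Lib.MP_bae66e_nt.AP3 (Rough rset dset prI KT flEta FLP cset Om0 xb prm)

private lemma G3b_two_le_prm (w : ℕ) (hw : 2 ≤ w) : 2 ≤ prm w := by
  have h2 : 2 ∣ prm w := Pool.Agent.Lib.MP_bae66e_nt.AP3.dvd_prm
    (Pool.Agent.Lib.MP_bae66e_nt.AP3.mem_prI.mpr ⟨⟨by omega, hw⟩, Nat.prime_two⟩)
  exact Nat.le_of_dvd (Pool.Agent.Lib.MP_bae66e_nt.AP3.prm_pos w) h2

private lemma G3b_split (W y n : ℕ) (hW : 2 ≤ W) (hn : n ≤ y) : EL W y n = EE W n + dl y n := by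
  unfold EL EE dl th
  by_cases h1 : 1 ≤ n
  · rw [if_pos ⟨h1, hn⟩]
    by_cases hp : n.Prime
    · rw [if_pos hp, if_pos hp, if_pos ⟨hp, hn⟩]
      ring
    · rw [if_neg hp, if_neg hp, if_neg (fun h => hp h.1)]
      ring
  · have h0 : n = 0 := by omega
    subst h0
    rw [if_neg (fun h => h1 h.1), if_neg Nat.not_prime_zero, if_neg (fun h => Nat.not_prime_zero h.1)]
    unfold nu
    rw [if_neg]
    · ring
    · intro h
      rw [Nat.coprime_zero_left] at h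
      omega

private lemma G3b_expSum (W y : ℕ) (hW : 2 ≤ W) (α : ℝ) :
    expSum (fun n => ((EL W y n : ℝ) : ℂ)) (y + 1) α
      = expSum (fun n => ((EE W n : ℝ) : ℂ)) (y + 1) α + expSum (fun n => ((dl y n : ℝ) : ℂ)) (y + 1) α := by
  unfold expSum
  rw [← Finset.sum_add_distrib]
  apply Finset.sum_congr rfl
  intro n hn
  show ((EL W y n : ℝ) : ℂ) * _ = _
  rw [G3b_split W y n hW (Nat.lt_succ_iff.mp (Finset.mem_range.mp hn))]
  push_cast
  ring

private lemma G3b_four (a b : ℝ) : (a + b) ^ 4 ≤ 8 * a ^ 4 + 8 * b ^ 4 := by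
  nlinarith [sq_nonneg (a - b), sq_nonneg (a ^ 2 - b ^ 2), mul_nonneg (sq_nonneg (a - b)) (sq_nonneg (a + b)),
    mul_nonneg (sq_nonneg (a - b)) (sq_nonneg a), mul_nonneg (sq_nonneg (a - b)) (sq_nonneg b),
    mul_nonneg (sq_nonneg (a - b)) (sq_nonneg (a - b))]

private lemma G3b_integral (W y : ℕ) (hW : 2 ≤ W) :
    ∫ α in (0:ℝ)..1, ‖expSum (fun n => ((EL W y n : ℝ) : ℂ)) (y + 1) α‖ ^ 4
      ≤ 8 * (∫ α in (0:ℝ)..1, ‖expSum (fun n => ((EE W n : ℝ) : ℂ)) (y + 1) α‖ ^ 4)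
        + 8 * (∫ α in (0:ℝ)..1, ‖expSum (fun n => ((dl y n : ℝ) : ℂ)) (y + 1) α‖ ^ 4) := by
  have hc : ∀ f : ℕ → ℂ, IntervalIntegrable (fun α : ℝ => ‖expSum f (y + 1) α‖ ^ 4) volume 0 1 := by
    intro f
    apply Continuous.intervalIntegrable
    exact ((Pool.Agent.MC.continuous_expSum f (y + 1)).norm).pow 4
  rw [← intervalIntegral.integral_const_mul, ← intervalIntegral.integral_const_mul,
    ← intervalIntegral.integral_add ((hc _).const_mul 8) ((hc _).const_mul 8)]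
  apply intervalIntegral.integral_mono_on (by norm_num) (hc _)
    (((hc _).const_mul 8).add ((hc _).const_mul 8))
  intro α _
  rw [G3b_expSum W y hW α]
  refine (pow_le_pow_left₀ (norm_nonneg _) (norm_add_le _ _) 4).trans ?_
  exact G3b_four _ _

/-- PROOF. `EL W y = EE W + dl y` on `[1, y]`, so `‖Ê_L‖⁴ ≤ 8 (‖Ê‖⁴ + ‖D‖⁴)`: `fourth_moment_small` (with `ε/16`) and `fourth_dl`. (The value at `n = 0` is `0` for all.) -/
lemma fourth_EL (hP : PNTAP) : ∀ ε : ℝ, 0 < ε → ∃ w₀ : ℕ, ∀ w : ℕ, w₀ ≤ w → ∃ y₀ : ℕ,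
    ∀ y : ℕ, y₀ ≤ y →
    ∫ α in (0:ℝ)..1, ‖expSum (fun n => ((EL (primorial w) y n : ℝ) : ℂ)) (y + 1) α‖ ^ 4 ≤ ε * (y : ℝ) ^ 3 := by
  intro ε hε
  obtain ⟨w₁, hw₁⟩ := fourth_moment_small hP (ε / 16) (by positivity)
  obtain ⟨C, hC, hdl⟩ := fourth_dl
  refine ⟨max w₁ 2, ?_⟩
  intro w hw
  obtain ⟨y₁, hy₁⟩ := hw₁ w ((le_max_left _ _).trans hw)
  have hW : 2 ≤ prm w := G3b_two_le_prm w ((le_max_right _ _).trans hw)
  refine ⟨max (max y₁ 2) ⌈Real.exp (max 1 (16 * C / ε))⌉₊, ?_⟩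
  intro y hy
  have hy1 : y₁ ≤ y := (le_max_left _ _).trans ((le_max_left _ _).trans hy)
  have hy2 : 2 ≤ y := (le_max_right _ _).trans ((le_max_left _ _).trans hy)
  have hy3 : Real.exp (max 1 (16 * C / ε)) ≤ (y : ℝ) :=
    (Nat.le_ceil _).trans (by exact_mod_cast (le_max_right _ _).trans hy)
  have hlog : max 1 (16 * C / ε) ≤ Real.log y := by
    rw [Real.le_log_iff_exp_le (by positivity)]
    exact hy3
  have hl1 : 1 ≤ Real.log y := (le_max_left _ _).trans hlog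
  have hl2 : 16 * C / ε ≤ Real.log y := (le_max_right _ _).trans hlog
  have hl3 : Real.log y ≤ Real.log y ^ 3 := le_self_pow₀ hl1 (by norm_num)
  have hl4 : 16 * C ≤ ε * Real.log y ^ 3 := by
    have := (div_le_iff₀ hε).mp (hl2.trans hl3)
    linarith
  have hpos : 0 < Real.log y ^ 3 := by positivity
  have h1 := hy₁ y hy1
  have h2 := hdl y hy2
  have h3 : C * (y : ℝ) ^ 3 / Real.log y ^ 3 ≤ ε / 16 * (y : ℝ) ^ 3 := by
    rw [div_le_iff₀ hpos]
    have hy0 : (0 : ℝ) ≤ (y : ℝ) ^ 3 := by positivity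
    nlinarith
  rw [← prm_eq_primorial]
  have h4 := G3b_integral (prm w) y hW
  have h5 : (0 : ℝ) ≤ (y : ℝ) ^ 3 := by positivity
  have h6 := h2.trans h3
  linarith

/-- PROOF. `corr_LL`, each `k = |d|`, `0 < k < Y`, occurs for two `d`: the sum is `≤ 2 ∑_{k < Y} corr (EL W Y) Y k ² ≤ 2 ∫ ‖Ê_L‖⁴` (`corr_sq_le`), `fourth_EL` with `ε/2`. -/
theorem energy_small_of_PNTAP (hP : PNTAP) (ε : ℝ) (hε : 0 < ε) :
    ∃ w₀ : ℕ, ∀ w : ℕ, w₀ ≤ w → ∃ Y₀ : ℕ, ∀ Y : ℕ, Y₀ ≤ Y →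
      ∑ d ∈ (Finset.Icc (-(Y : ℤ)) (Y : ℤ)).filter (fun d => d ≠ 0),
        (Pool.Agent.Lib.MP_bae66e_nt.LL.corr Y (fun n => Pool.Agent.Lib.MP_bae66e_nt.LL.fP Y n
          - Pool.Agent.Lib.MP_bae66e_nt.LL.gW (primorial w) Y n) d) ^ 2 ≤ ε * (Y : ℝ) ^ 3 := by
  obtain ⟨w₀, hw₀⟩ := fourth_EL hP (ε / 2) (by positivity)
  refine ⟨w₀, ?_⟩
  intro w hw
  obtain ⟨y₀, hy₀⟩ := hw₀ w hw
  refine ⟨y₀, ?_⟩
  intro Y hY
  have h1 := hy₀ Y hY
  have h2 := corr_sq_le (EL (primorial w) Y) (by unfold EL; rw [if_neg (by omega)]) Y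
  set g : ℕ → ℝ := fun k => (if k < Y then corr (EL (primorial w) Y) Y k else 0) ^ 2 with hg
  have hgnn : ∀ k, 0 ≤ g k := fun k => sq_nonneg _
  have e1 : ∑ d ∈ (Finset.Icc (-(Y : ℤ)) (Y : ℤ)).filter (fun d => d ≠ 0),
        (Pool.Agent.Lib.MP_bae66e_nt.LL.corr Y (fun n => Pool.Agent.Lib.MP_bae66e_nt.LL.fP Y n
          - Pool.Agent.Lib.MP_bae66e_nt.LL.gW (primorial w) Y n) d) ^ 2
      = ∑ d ∈ (Finset.Icc (-(Y : ℤ)) (Y : ℤ)).filter (fun d => d ≠ 0), g d.natAbs := by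
    apply Finset.sum_congr rfl
    intro d hd
    rw [corr_LL w Y d (Finset.mem_filter.mp hd).1]
  have e2 : ∑ d ∈ (Finset.Icc (-(Y : ℤ)) (Y : ℤ)).filter (fun d => d ≠ 0), g d.natAbs
      = ∑ k ∈ Finset.Icc 1 Y, g k + ∑ k ∈ Finset.Icc 1 Y, g k := by
    rw [← Finset.sum_filter_add_sum_filter_not _ (fun d : ℤ => 0 < d)]
    congr 1
    · apply Finset.sum_nbij' (fun d : ℤ => d.natAbs) (fun k : ℕ => (k : ℤ))
      · intro a ha
        rw [Finset.mem_filter, Finset.mem_filter, Finset.mem_Icc] at ha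
        rw [Finset.mem_Icc]
        omega
      · intro a ha
        rw [Finset.mem_Icc] at ha
        rw [Finset.mem_filter, Finset.mem_filter, Finset.mem_Icc]
        omega
      · intro a ha
        rw [Finset.mem_filter, Finset.mem_filter, Finset.mem_Icc] at ha
        show (a.natAbs : ℤ) = a
        omega
      · intro a _
        exact Int.natAbs_natCast a
      · intro a _
        rfl
    · apply Finset.sum_nbij' (fun d : ℤ => d.natAbs) (fun k : ℕ => -(k : ℤ))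
      · intro a ha
        rw [Finset.mem_filter, Finset.mem_filter, Finset.mem_Icc] at ha
        rw [Finset.mem_Icc]
        omega
      · intro a ha
        rw [Finset.mem_Icc] at ha
        rw [Finset.mem_filter, Finset.mem_filter, Finset.mem_Icc]
        omega
      · intro a ha
        rw [Finset.mem_filter, Finset.mem_filter, Finset.mem_Icc] at ha
        show -(a.natAbs : ℤ) = a
        omega
      · intro a _
        show (-(a : ℤ)).natAbs = a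
        omega
      · intro a _
        rfl
  have e3 : ∑ k ∈ Finset.Icc 1 Y, g k ≤ ∑ k ∈ range Y, corr (EL (primorial w) Y) Y k ^ 2 := by
    have hsub : Finset.Icc 1 Y ⊆ range (Y + 1) := by
      intro k hk
      rw [Finset.mem_Icc] at hk
      rw [Finset.mem_range]
      omega
    refine (Finset.sum_le_sum_of_subset_of_nonneg hsub fun k _ _ => hgnn k).trans ?_
    rw [Finset.sum_range_succ]
    have hY0 : g Y = 0 := by
      simp only [hg, lt_irrefl, if_false]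
      norm_num
    rw [hY0, add_zero]
    apply le_of_eq
    apply Finset.sum_congr rfl
    intro k hk
    simp only [hg, Finset.mem_range.mp hk, if_true]
  rw [e1, e2]
  linarith

end Pool.Agent.PP
end

section

/-!
# Prime pairs on average without logarithmic loss (module P)
-/

set_option autoImplicit false

open Finset

namespace Pool.Agent.Lib.MP_bae66e_nt.LL

/-- Prime pairs on average: if `E n = log Y 1_P(n) - (W / φ(W)) 1_{(n, W) = 1}` on `[1, Y]`, with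
`W` the product of the primes up to `w`, then `∑_{0 < |d| ≤ Y} |∑_n E(n) E(n + d)|² ≤ ε Y³` for
`w ≥ w₀(ε)`, `Y ≥ Y₀(w, ε)`. -/
theorem energy_small (ε : ℝ) (hε : 0 < ε) :
    ∃ w₀ : ℕ, ∀ w : ℕ, w₀ ≤ w → ∃ Y₀ : ℕ, ∀ Y : ℕ, Y₀ ≤ Y →
      ∑ d ∈ (Finset.Icc (-(Y : ℤ)) (Y : ℤ)).filter (fun d => d ≠ 0),
        (corr Y (fun n => fP Y n - gW (primorial w) Y n) d) ^ 2 ≤ ε * (Y : ℝ) ^ 3 :=
  Pool.Agent.PP.energy_small_of_PNTAP Pool.Agent.PP.pntap ε hε

end Pool.Agent.Lib.MP_bae66e_nt.LL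
end
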