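import Pool.Agent.Lib.MP_bae66e_nt.Mg.G001
import Pool.Agent.Lib.MP_bae66e_nt.Mg.G003
import Pool.Agent.Lib.MP_bae66e_nt.Mg.G002
import Pool.Agent.Lib.MP_bae66e_nt.Mg.G006

section

/-!
# A3: pairs of primes `q`, `(s q + d)/s'`, weighted by `om`
-/

set_option autoImplicit false

namespace Pool.Agent.E3

open Finset Real
open Pool.Agent.Lib.MP_bae66e_nt.AP3 (prI mem_prI)

/-- PROOF. With `y = log Y`, `u = log (2^j)`: `exp u · gs (1/2) y u = exp (u - (y - u)²/2) = exp (y + 1/2) exp (- (y + 1 - u)²/2)`, i.e.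
`2^j gs (1/2) y u = exp (1/2) Y gs (1/2) (y + 1) u`; `sum_gauss_dyadic` (`T2.lean`) with `γ = 1/2`. -/
theorem sum_gauss_dyadic_weighted : ∃ C : ℝ, 1 ≤ C ∧ ∀ (Y : ℝ) (n : ℕ), 0 < Y →
    ∑ j ∈ range n, ((2 ^ j : ℕ) : ℝ) * gs (1 / 2) (Real.log Y) (Real.log ((2 ^ j : ℕ) : ℝ)) ≤ C * Y := by
  have hsq : 0 ≤ Real.sqrt (π / (1 / 2)) := Real.sqrt_nonneg _
  have he : (1 : ℝ) ≤ Real.exp (1 / 2) := Real.one_le_exp (by norm_num)
  refine ⟨Real.exp (1 / 2) * (2 + 2 * Real.sqrt (π / (1 / 2))), by nlinarith, ?_⟩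
  intro Y n hY
  have h : ∀ j ∈ range n, ((2 ^ j : ℕ) : ℝ) * gs (1 / 2) (Real.log Y) (Real.log ((2 ^ j : ℕ) : ℝ))
      = Real.exp (1 / 2) * Y * gs (1 / 2) (Real.log Y + 1) (Real.log ((2 ^ j : ℕ) : ℝ)) := by
    intro j _
    have h2 : (0 : ℝ) < ((2 ^ j : ℕ) : ℝ) := by positivity
    unfold gs
    have e1 : ((2 ^ j : ℕ) : ℝ) = Real.exp (Real.log ((2 ^ j : ℕ) : ℝ)) := (Real.exp_log h2).symm
    have e2 : Y = Real.exp (Real.log Y) := (Real.exp_log hY).symm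
    calc ((2 ^ j : ℕ) : ℝ) * Real.exp (-(1 / 2 * (Real.log Y - Real.log ((2 ^ j : ℕ) : ℝ)) ^ 2))
        = Real.exp (Real.log ((2 ^ j : ℕ) : ℝ)) *
            Real.exp (-(1 / 2 * (Real.log Y - Real.log ((2 ^ j : ℕ) : ℝ)) ^ 2)) := by rw [← e1]
      _ = Real.exp (1 / 2) * Real.exp (Real.log Y) *
            Real.exp (-(1 / 2 * (Real.log Y + 1 - Real.log ((2 ^ j : ℕ) : ℝ)) ^ 2)) := by
          rw [← Real.exp_add, ← Real.exp_add, ← Real.exp_add]
          congr 1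
          ring
      _ = _ := by rw [← e2]
  rw [Finset.sum_congr rfl h, ← Finset.mul_sum]
  calc Real.exp (1 / 2) * Y * ∑ j ∈ range n, gs (1 / 2) (Real.log Y + 1) (Real.log ((2 ^ j : ℕ) : ℝ))
      ≤ Real.exp (1 / 2) * Y * (2 + 2 * Real.sqrt (π / (1 / 2))) :=
        mul_le_mul_of_nonneg_left (sum_gauss_dyadic (1 / 2) (by norm_num) _ n) (by positivity)
    _ = _ := by ring

private lemma A3_blocks (z Z : ℕ) (hz : 4 ≤ z) (f : ℕ → ℝ) (hf : ∀ q, 0 ≤ f q) :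
    ∑ q ∈ prI z Z, f q ≤ ∑ j ∈ (range (Nat.log 2 Z + 1)).filter (fun j => z < 2 ^ (j + 1)),
      ∑ q ∈ IS (2 ^ j), f q := by
  have hdisj : ∀ i ∈ (range (Nat.log 2 Z + 1)).filter (fun j => z < 2 ^ (j + 1)),
      ∀ j ∈ (range (Nat.log 2 Z + 1)).filter (fun j => z < 2 ^ (j + 1)), i ≠ j →
        Disjoint (IS (2 ^ i)) (IS (2 ^ j)) := by
    intro i _ j _ hij
    rw [Finset.disjoint_left]
    intro q hq1 hq2
    have a := mem_prI.1 hq1
    have b := mem_prI.1 hq2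
    rcases lt_or_gt_of_ne hij with h | h
    · have h1 : 2 ^ (i + 1) ≤ 2 ^ j := Nat.pow_le_pow_right (by norm_num) h
      have h2 : 2 ^ (i + 1) = 2 * 2 ^ i := by ring
      omega
    · have h1 : 2 ^ (j + 1) ≤ 2 ^ i := Nat.pow_le_pow_right (by norm_num) h
      have h2 : 2 ^ (j + 1) = 2 * 2 ^ j := by ring
      omega
  rw [← Finset.sum_biUnion hdisj]
  refine Finset.sum_le_sum_of_subset_of_nonneg ?_ (fun i _ _ => hf i)
  intro q hq
  have hq1 := mem_prI.1 hq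
  rw [mem_biUnion]
  have hq0 : q - 1 ≠ 0 := by omega
  have hlow : 2 ^ Nat.log 2 (q - 1) ≤ q - 1 := Nat.pow_log_le_self 2 hq0
  have hup : q - 1 < 2 ^ (Nat.log 2 (q - 1) + 1) := Nat.lt_pow_succ_log_self (by norm_num) _
  have e2 : 2 ^ (Nat.log 2 (q - 1) + 1) = 2 * 2 ^ (Nat.log 2 (q - 1)) := by ring
  refine ⟨Nat.log 2 (q - 1), ?_, ?_⟩
  · rw [mem_filter, mem_range]
    refine ⟨?_, by omega⟩
    have : Nat.log 2 (q - 1) ≤ Nat.log 2 Z := Nat.log_mono_right (by omega)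
    omega
  · refine mem_prI.2 ⟨⟨by omega, by omega⟩, hq1.2⟩

/-- PROOF. As in `MVb2.near_pair`. Let `z = Nat.sqrt X`. Every prime `q ∈ QS X = prI z (X²)` lies in exactly one block `IS (2^j)`, `2^j < q ≤ 2^(j+1)`
(`q` is not a power of `2`, or simply `2^j ≤ q ≤ 2^(j+1)` with `j = Nat.log 2 (q - 1)`), and `2^j ≥ q/2 > z/2`. By `gs_block`
`om Y q ≤ e gs (1/2) (log Y) (log 2^j)`. By `SLP` (constants `c₀, C₀, U₀`) for `U = 2^j` (`z ≥ z₀ ≥ 2 U₀`, and `s, s' ≤ z^(c₀/2) ≤ (z/2)^(c₀) ≤ U^(c₀)` for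
`z ≥ 4`, as `√z ≤ z/2`) the number of `q` in the block with the two properties is `0` if `gcd(s, s') ∤ d`, and
`≤ C₀ (gcd U/(s' (log U)²)) (Fr (s s' d))²` otherwise; `log U ≥ log (z/2) ≥ (log z)/2 ≥ (log X)/8` (`log_sqrt_ge`). Sum over `j` with
`sum_gauss_dyadic_weighted`. -/
theorem pair_om (hSL : SLP) : ∃ c C : ℝ, 0 < c ∧ c ≤ 1 ∧ 1 ≤ C ∧ ∃ z₀ : ℕ, 4 ≤ z₀ ∧
    ∀ (X s s' d : ℕ) (Y : ℝ), z₀ ≤ Nat.sqrt X → 1 ≤ s → 1 ≤ s' → 1 ≤ d → 0 < Y →
      (s : ℝ) ≤ (Nat.sqrt X : ℝ) ^ c → (s' : ℝ) ≤ (Nat.sqrt X : ℝ) ^ c →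
      ∑ q ∈ (QS X).filter (fun q => s' ∣ s * q + d ∧ ((s * q + d) / s').Prime), om Y q
        ≤ if Nat.gcd s s' ∣ d then C * (Nat.gcd s s' * Y / (s' * (Real.log X) ^ 2)) * (Fr (s * s' * d)) ^ 2 else 0 := by
  obtain ⟨c, C, hc0, hc1, hC, U₀, hB⟩ := hSL
  obtain ⟨C₁, hC₁, hW⟩ := sum_gauss_dyadic_weighted
  have hexp : (1 : ℝ) ≤ Real.exp 1 := Real.one_le_exp (by norm_num)
  have hCC : 1 ≤ C * C₁ := by nlinarith
  refine ⟨c / 2, 64 * Real.exp 1 * (C * C₁), by positivity, by linarith, by nlinarith,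
    max (2 * U₀) 4, le_max_right _ _, ?_⟩
  intro X s s' d Y hz hs hs' hd hY hsz hs'z
  set z : ℕ := Nat.sqrt X with hzdef
  have hz4 : 4 ≤ z := (le_max_right _ _).trans hz
  have hzU : 2 * U₀ ≤ z := (le_max_left _ _).trans hz
  have hz4' : (4 : ℝ) ≤ z := by exact_mod_cast hz4
  have hX16 : 16 ≤ X := by
    have h1 : 4 * 4 ≤ z * z := Nat.mul_le_mul hz4 hz4
    have h2 : z * z ≤ X := Nat.sqrt_le X
    omega
  have hlogX : 0 < Real.log X := Real.log_pos (by exact_mod_cast (by omega : 1 < X))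
  have hlz := (log_sqrt_ge X hX16).2
  rw [← hzdef] at hlz
  have hroot : Real.sqrt z ≤ z / 2 := by
    rw [Real.sqrt_le_left (by linarith)]
    nlinarith
  have hlog2 : Real.log z / 2 ≤ Real.log (z / 2) := by
    rw [← Real.log_sqrt (by linarith)]
    exact Real.log_le_log (Real.sqrt_pos.2 (by linarith)) hroot
  have hom : ∀ q, 0 ≤ om Y q := fun q => by unfold om gs; positivity
  have hs'0 : (0 : ℝ) < s' := by exact_mod_cast hs'
  rw [Finset.sum_filter]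
  unfold QS
  rw [← hzdef]
  refine (A3_blocks z (X ^ 2) hz4 _ (fun q => ?_)).trans ?_
  · split_ifs
    · exact hom q
    · exact le_rfl
  have hj : ∀ j ∈ (range (Nat.log 2 (X ^ 2) + 1)).filter (fun j => z < 2 ^ (j + 1)),
      ∑ q ∈ IS (2 ^ j), (if s' ∣ s * q + d ∧ ((s * q + d) / s').Prime then om Y q else 0)
        ≤ (if Nat.gcd s s' ∣ d then
            64 * Real.exp 1 * C * (Nat.gcd s s' / (s' * (Real.log X) ^ 2)) * (Fr (s * s' * d)) ^ 2 else 0)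
          * (((2 ^ j : ℕ) : ℝ) * gs (1 / 2) (Real.log Y) (Real.log ((2 ^ j : ℕ) : ℝ))) := by
    intro j hj
    rw [mem_filter] at hj
    have hzj : z < 2 * 2 ^ j := by
      have := hj.2
      rw [pow_succ] at this
      omega
    have hzj' : (z : ℝ) / 2 ≤ ((2 ^ j : ℕ) : ℝ) := by
      have : (z : ℝ) < 2 * ((2 ^ j : ℕ) : ℝ) := by exact_mod_cast hzj
      linarith
    have hpow : (z : ℝ) ^ (c / 2) ≤ ((2 ^ j : ℕ) : ℝ) ^ c := by
      have e : (z : ℝ) ^ (c / 2) = (Real.sqrt z) ^ c := by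
        rw [Real.sqrt_eq_rpow, ← Real.rpow_mul (by linarith)]
        congr 1
        ring
      rw [e]
      exact Real.rpow_le_rpow (Real.sqrt_nonneg _) (hroot.trans hzj') hc0.le
    have hb := hB (2 ^ j) s s' d (by omega) hs hs' hd (hsz.trans hpow) (hs'z.trans hpow)
    have hG : 0 ≤ gs (1 / 2) (Real.log Y) (Real.log ((2 ^ j : ℕ) : ℝ)) := by unfold gs; positivity
    have h2j : (0 : ℝ) < ((2 ^ j : ℕ) : ℝ) := by positivity
    have h1 : ∑ q ∈ IS (2 ^ j), (if s' ∣ s * q + d ∧ ((s * q + d) / s').Prime then om Y q else 0)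
        ≤ (#{q ∈ IS (2 ^ j) | s' ∣ s * q + d ∧ ((s * q + d) / s').Prime} : ℝ) *
          (Real.exp 1 * gs (1 / 2) (Real.log Y) (Real.log ((2 ^ j : ℕ) : ℝ))) := by
      rw [← Finset.sum_filter, ← nsmul_eq_mul]
      apply Finset.sum_le_card_nsmul
      intro q hq
      have hq1 := mem_prI.1 (mem_filter.1 hq).1
      unfold om
      exact gs_block (2 ^ j) q (Real.log Y) (Nat.one_le_two_pow) hq1.1.1.le hq1.1.2
    refine h1.trans ?_
    have hE : 0 ≤ Real.exp 1 * gs (1 / 2) (Real.log Y) (Real.log ((2 ^ j : ℕ) : ℝ)) := by positivity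
    refine (mul_le_mul_of_nonneg_right hb hE).trans ?_
    by_cases hg : Nat.gcd s s' ∣ d
    swap
    · rw [if_neg hg, if_neg hg, zero_mul, zero_mul]
    rw [if_pos hg, if_pos hg]
    have hlj : Real.log X / 8 ≤ Real.log ((2 ^ j : ℕ) : ℝ) := by
      have h3 := Real.log_le_log (by linarith : (0 : ℝ) < z / 2) hzj'
      linarith
    have h3 : (Real.log X / 8) ^ 2 ≤ (Real.log ((2 ^ j : ℕ) : ℝ)) ^ 2 :=
      pow_le_pow_left₀ (by positivity) hlj 2
    have h4 : (Nat.gcd s s' : ℝ) * ((2 ^ j : ℕ) : ℝ) / (s' * (Real.log ((2 ^ j : ℕ) : ℝ)) ^ 2)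
        ≤ (Nat.gcd s s' : ℝ) * ((2 ^ j : ℕ) : ℝ) / (s' * (Real.log X / 8) ^ 2) :=
      div_le_div_of_nonneg_left (by positivity) (by positivity)
        (mul_le_mul_of_nonneg_left h3 hs'0.le)
    have hFr : 0 ≤ (Fr (s * s' * d)) ^ 2 := sq_nonneg _
    calc C * ((Nat.gcd s s' : ℝ) * ((2 ^ j : ℕ) : ℝ) / (s' * (Real.log ((2 ^ j : ℕ) : ℝ)) ^ 2)) *
          (Fr (s * s' * d)) ^ 2 *
          (Real.exp 1 * gs (1 / 2) (Real.log Y) (Real.log ((2 ^ j : ℕ) : ℝ)))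
        ≤ C * ((Nat.gcd s s' : ℝ) * ((2 ^ j : ℕ) : ℝ) / (s' * (Real.log X / 8) ^ 2)) *
          (Fr (s * s' * d)) ^ 2 *
          (Real.exp 1 * gs (1 / 2) (Real.log Y) (Real.log ((2 ^ j : ℕ) : ℝ))) := by
          apply mul_le_mul_of_nonneg_right _ hE
          apply mul_le_mul_of_nonneg_right _ hFr
          exact mul_le_mul_of_nonneg_left h4 (by linarith)
      _ = _ := by
          field_simp
          ring
  refine (Finset.sum_le_sum hj).trans ?_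
  rw [← Finset.mul_sum]
  by_cases hg : Nat.gcd s s' ∣ d
  swap
  · rw [if_neg hg, if_neg hg, zero_mul]
  rw [if_pos hg, if_pos hg]
  have hsub : ∑ j ∈ (range (Nat.log 2 (X ^ 2) + 1)).filter (fun j => z < 2 ^ (j + 1)),
      (((2 ^ j : ℕ) : ℝ) * gs (1 / 2) (Real.log Y) (Real.log ((2 ^ j : ℕ) : ℝ))) ≤ C₁ * Y :=
    (Finset.sum_le_sum_of_subset_of_nonneg (Finset.filter_subset _ _)
      (fun i _ _ => by unfold gs; positivity)).trans (hW Y _ hY)
  calc 64 * Real.exp 1 * C * ((Nat.gcd s s' : ℝ) / (s' * (Real.log X) ^ 2)) * (Fr (s * s' * d)) ^ 2 * _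
      ≤ 64 * Real.exp 1 * C * ((Nat.gcd s s' : ℝ) / (s' * (Real.log X) ^ 2)) * (Fr (s * s' * d)) ^ 2 *
        (C₁ * Y) := mul_le_mul_of_nonneg_left hsub (by positivity)
    _ = _ := by ring

end Pool.Agent.E3
end

section

/-!
# A2b: the number of products and of primes
-/

set_option autoImplicit false

namespace Pool.Agent.E3

open Finset Real
open Pool.Agent.Lib.MP_bae66e_nt.AP3 (prI mem_prI)

/-- PROOF. `#(IS R) ≤ C R/log R` (`PP.card_prI_le` of `PP/B2a.lean`), and `SS` is an image of `IS R₁ ×ˢ IS R₂`. -/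
theorem card_SS_le : ∃ C : ℝ, 1 ≤ C ∧ (∀ R : ℕ, 2 ≤ R → (#(IS R) : ℝ) ≤ C * R / Real.log R) ∧
    ∀ R₁ R₂ : ℕ, 2 ≤ R₁ → 2 ≤ R₂ →
      (#(SS R₁ R₂) : ℝ) ≤ C * (R₁ * R₂) / (Real.log R₁ * Real.log R₂) := by
  obtain ⟨C, hC, h⟩ := Pool.Agent.PP.card_prI_le
  have hC2 : C ≤ C ^ 2 := by nlinarith
  refine ⟨C ^ 2, one_le_pow₀ hC, ?_, ?_⟩
  · intro R hR
    refine (h R hR).trans ?_
    have hlog : 0 < Real.log R := Real.log_pos (by exact_mod_cast (by omega : 1 < R))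
    have hR0 : (0 : ℝ) ≤ R := Nat.cast_nonneg R
    exact div_le_div_of_nonneg_right (mul_le_mul_of_nonneg_right hC2 hR0) hlog.le
  · intro R₁ R₂ h1 h2
    have hlog1 : 0 < Real.log R₁ := Real.log_pos (by exact_mod_cast (by omega : 1 < R₁))
    have hlog2 : 0 < Real.log R₂ := Real.log_pos (by exact_mod_cast (by omega : 1 < R₂))
    have hcard : #(SS R₁ R₂) ≤ #(IS R₁) * #(IS R₂) := by
      unfold SS
      exact Finset.card_image_le.trans (Finset.card_product _ _).le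
    have h3 : (#(IS R₁) : ℝ) ≤ C * R₁ / Real.log R₁ := h R₁ h1
    have h4 : (#(IS R₂) : ℝ) ≤ C * R₂ / Real.log R₂ := h R₂ h2
    calc (#(SS R₁ R₂) : ℝ) ≤ (#(IS R₁) : ℝ) * (#(IS R₂) : ℝ) := by exact_mod_cast hcard
      _ ≤ (C * R₁ / Real.log R₁) * (C * R₂ / Real.log R₂) :=
          mul_le_mul h3 h4 (Nat.cast_nonneg _) ((Nat.cast_nonneg _).trans h3)
      _ = C ^ 2 * (R₁ * R₂) / (Real.log R₁ * Real.log R₂) := by
          field_simp

/-- PROOF. With `y = log Y`, `v = log q`: `exp v · gs 1 y v = exp (v - (y - v)²) = exp (y + 1/4) exp (- (y + 1/2 - v)²)`, so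
`om Y q = exp (1/4) Y gs 1 (y + 1/2) (log q)/q`; `prime_window_le` (`U3b.lean`, `β = 1`) at `x = y + 1/2 ≥ 1` gives
`∑_q om Y q ≤ exp (1/4) Y C/(y + 1/2)`, and `y ≥ (log X)/2` (`logY_bounds`). `QS X ⊆ prI 0 (X²)`. -/
theorem sum_om_le : ∃ C : ℝ, 1 ≤ C ∧ ∀ (X : ℕ) (Y : ℝ), 16 ≤ X → (X : ℝ) ^ (0.99 : ℝ) ≤ Y → Y ≤ X →
    ∑ q ∈ QS X, om Y q ≤ C * (Y / Real.log X) := by
  obtain ⟨C, hC, h⟩ := prime_window_le 1 one_pos
  refine ⟨4 * C, by linarith, ?_⟩
  intro X Y hX hY1 hY2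
  obtain ⟨hY0, hly, -, -⟩ := logY_bounds X Y (by omega) hY1 hY2
  have hlX : 2 < Real.log X := by
    have h16 : (16 : ℝ) ≤ X := by exact_mod_cast hX
    have h1 : Real.log 16 ≤ Real.log X := Real.log_le_log (by norm_num) h16
    have h2 : Real.log 16 = 4 * Real.log 2 := by
      rw [show (16 : ℝ) = 2 ^ 4 by norm_num, Real.log_pow]
      norm_num
    have := Real.log_two_gt_d9
    linarith
  set y := Real.log Y with hy
  have h1 := h (X ^ 2) (y + 1 / 2) (by linarith)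
  have hterm : ∀ q ∈ QS X, om Y q = Real.exp (1 / 4) * Y * (gs 1 (y + 1 / 2) (Real.log q) / q) := by
    intro q hq
    have hq0 : (0 : ℝ) < q := by exact_mod_cast (mem_prI.mp hq).2.pos
    have e1 : om Y q = Real.exp (1 / 4) * (Real.exp y * Real.exp (-Real.log q)) *
        gs 1 (y + 1 / 2) (Real.log q) := by
      unfold om gs
      rw [← Real.exp_add, ← Real.exp_add, ← Real.exp_add]
      congr 1
      rw [← hy]
      ring
    rw [e1, Real.exp_neg, Real.exp_log hq0, hy, Real.exp_log hY0]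
    field_simp
  rw [Finset.sum_congr rfl hterm, ← Finset.mul_sum]
  have hexp : Real.exp (1 / 4) ≤ 2 := by
    have h2 : Real.exp (1 / 4) ≤ Real.exp (Real.log 2) := by
      apply Real.exp_le_exp.mpr
      have := Real.log_two_gt_d9
      linarith
    rwa [Real.exp_log (by norm_num)] at h2
  have hsub : ∑ q ∈ QS X, gs 1 (y + 1 / 2) (Real.log q) / (q : ℝ)
      ≤ ∑ q ∈ prI 0 (X ^ 2), gs 1 (y + 1 / 2) (Real.log q) / (q : ℝ) := by
    apply Finset.sum_le_sum_of_subset_of_nonneg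
    · intro q hq
      have hq' := mem_prI.mp hq
      exact mem_prI.mpr ⟨⟨hq'.2.pos, hq'.1.2⟩, hq'.2⟩
    · intro q _ _
      unfold gs
      positivity
  have h3 : C / (y + 1 / 2) ≤ 2 * C / Real.log X := by
    rw [div_le_div_iff₀ (by linarith) (by linarith)]
    nlinarith
  have h4 : ∑ q ∈ QS X, gs 1 (y + 1 / 2) (Real.log q) / (q : ℝ) ≤ 2 * C / Real.log X :=
    hsub.trans (h1.trans h3)
  have h5 : 0 ≤ ∑ q ∈ QS X, gs 1 (y + 1 / 2) (Real.log q) / (q : ℝ) := by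
    apply Finset.sum_nonneg
    intro q _
    unfold gs
    positivity
  calc Real.exp (1 / 4) * Y * ∑ q ∈ QS X, gs 1 (y + 1 / 2) (Real.log q) / (q : ℝ)
      ≤ (2 * Y) * (2 * C / Real.log X) :=
        mul_le_mul (mul_le_mul_of_nonneg_right hexp hY0.le) h4 h5 (by positivity)
    _ = 4 * C * (Y / Real.log X) := by ring

/-- PROOF. `cc_zero_sum`, `card_SS_le`, `sum_om_le`. -/
theorem cc_zero_le : ∃ C : ℝ, 1 ≤ C ∧ ∀ (R₁ R₂ X N : ℕ) (Y : ℝ), 2 ≤ R₁ → 2 * R₁ ≤ R₂ → 2 * R₂ ≤ Nat.sqrt X → 16 ≤ X →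
    (X : ℝ) ^ (0.99 : ℝ) ≤ Y → Y ≤ X →
    cc (fS (SS R₁ R₂) Y X) N 0 ≤ C * ((R₁ * R₂) * Y / (Real.log R₁ * Real.log R₂ * Real.log X)) := by
  obtain ⟨C1, hC1, -, h1⟩ := card_SS_le
  obtain ⟨C2, hC2, h2⟩ := sum_om_le
  refine ⟨C1 * C2, by nlinarith, ?_⟩
  intro R₁ R₂ X N Y hR1 hR12 hR2 hX hY1 hY2
  have hlog1 : 0 < Real.log R₁ := Real.log_pos (by exact_mod_cast (by omega : 1 < R₁))
  have hlog2 : 0 < Real.log R₂ := Real.log_pos (by exact_mod_cast (by omega : 1 < R₂))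
  have hlogX : 0 < Real.log X := Real.log_pos (by exact_mod_cast (by omega : 1 < X))
  have h3 := h1 R₁ R₂ hR1 (by omega)
  have h4 := h2 X Y hX hY1 hY2
  have h5 : 0 ≤ ∑ q ∈ QS X, om Y q := Finset.sum_nonneg fun q _ => (om_bounds Y q).1.le
  refine (cc_zero_sum R₁ R₂ X N Y hR12 hR2).trans ?_
  calc (#(SS R₁ R₂) : ℝ) * ∑ q ∈ QS X, om Y q
      ≤ (C1 * (R₁ * R₂) / (Real.log R₁ * Real.log R₂)) * (C2 * (Y / Real.log X)) :=
        mul_le_mul h3 h4 h5 ((Nat.cast_nonneg _).trans h3)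
    _ = C1 * C2 * ((R₁ * R₂) * Y / (Real.log R₁ * Real.log R₂ * Real.log X)) := by
        field_simp

end Pool.Agent.E3
end

section

/-!
# A4: the sum over the pairs `(s, s')`
-/

set_option autoImplicit false

namespace Pool.Agent.E3

open Finset Real
open Pool.Agent.Lib.MP_bae66e_nt.AP3 (prI mem_prI)

/-- PROOF. The product of these distinct primes divides `d`, and each is `> R`; so `R^k ≤ d`, `k log R ≤ log d`. -/
theorem card_dvd_le (R d : ℕ) (hR : 2 ≤ R) (hd : 1 ≤ d) :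
    (#((IS R).filter (fun r => r ∣ d)) : ℝ) * Real.log R ≤ Real.log d := by
  have hR0 : (0 : ℝ) < R := by exact_mod_cast (by omega : 0 < R)
  have hdvd : ∏ r ∈ (IS R).filter (fun r => r ∣ d), r ∣ d :=
    Finset.prod_primes_dvd d (fun r hr => (mem_prI.mp (mem_filter.mp hr).1).2.prime)
      (fun r hr => (mem_filter.mp hr).2)
  have h1 : R ^ #((IS R).filter (fun r => r ∣ d)) ≤ d := by
    refine le_trans ?_ (Nat.le_of_dvd hd hdvd)
    rw [← Finset.prod_const]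
    exact Finset.prod_le_prod' fun r hr => (mem_prI.mp (mem_filter.mp hr).1).1.1.le
  rw [← Real.log_pow]
  apply Real.log_le_log (by positivity)
  exact_mod_cast h1

/-- PROOF. `Fr_mul_le`, `Fr_prime_le` for the four primes `r₁, r₂, r₁', r₂'`: `Fr (r₁ r₂ r₁' r₂' d) ≤ 16 Fr d`. -/
theorem Fr_SS_le (R₁ R₂ s s' d : ℕ) (hs : s ∈ SS R₁ R₂) (hs' : s' ∈ SS R₁ R₂) (hd : 1 ≤ d) :
    (Fr (s * s' * d)) ^ 2 ≤ 256 * (Fr d) ^ 2 := by
  unfold SS at hs hs'
  rw [Finset.mem_image] at hs hs'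
  obtain ⟨r, hr, rfl⟩ := hs
  obtain ⟨t, ht, rfl⟩ := hs'
  rw [Finset.mem_product] at hr ht
  have p1 := (mem_prI.mp hr.1).2
  have p2 := (mem_prI.mp hr.2).2
  have q1 := (mem_prI.mp ht.1).2
  have q2 := (mem_prI.mp ht.2).2
  have hd0 : d ≠ 0 := by omega
  have hpos : ∀ n : ℕ, 0 ≤ Fr n := fun n => by unfold Fr; positivity
  have key : ∀ p m : ℕ, p.Prime → m ≠ 0 → Fr (p * m) ≤ 2 * Fr m := by
    intro p m hp hm
    refine (Fr_mul_le p m hp.ne_zero hm).trans ?_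
    exact mul_le_mul_of_nonneg_right (Fr_prime_le p hp) (hpos m)
  have e : r.1 * r.2 * (t.1 * t.2) * d = r.1 * (r.2 * (t.1 * (t.2 * d))) := by ring
  have h4 := key t.2 d q2 hd0
  have h3 := key t.1 (t.2 * d) q1 (mul_ne_zero q2.ne_zero hd0)
  have h2 := key r.2 (t.1 * (t.2 * d)) p2 (mul_ne_zero q1.ne_zero (mul_ne_zero q2.ne_zero hd0))
  have h1 := key r.1 (r.2 * (t.1 * (t.2 * d))) p1
    (mul_ne_zero p2.ne_zero (mul_ne_zero q1.ne_zero (mul_ne_zero q2.ne_zero hd0)))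
  have h5 : Fr (r.1 * r.2 * (t.1 * t.2) * d) ≤ 16 * Fr d := by
    rw [e]
    linarith
  calc (Fr (r.1 * r.2 * (t.1 * t.2) * d)) ^ 2 ≤ (16 * Fr d) ^ 2 :=
        pow_le_pow_left₀ (hpos _) h5 2
    _ = 256 * (Fr d) ^ 2 := by ring

private theorem A4_term (R₁ R₂ d : ℕ) (h12 : 2 * R₁ ≤ R₂) (hR : 2 ≤ R₁) (hd : 1 ≤ d) (hd2 : d ≤ R₂)
    {a b a' b' : ℕ} (ha : a ∈ IS R₁) (hb : b ∈ IS R₂) (ha' : a' ∈ IS R₁) (hb' : b' ∈ IS R₂) :
    (if Nat.gcd (a * b) (a' * b') ∣ d then (Nat.gcd (a * b) (a' * b') : ℝ) / ((a' * b' : ℕ) : ℝ) else 0)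
      ≤ 1 / ((R₁ : ℝ) * R₂) + (if a = a' ∧ a ∣ d then 1 / (R₂ : ℝ) else 0) := by
  have ma := mem_prI.mp ha
  have mb := mem_prI.mp hb
  have ma' := mem_prI.mp ha'
  have mb' := mem_prI.mp hb'
  have hR1 : (0 : ℝ) < R₁ := by exact_mod_cast (by omega : 0 < R₁)
  have hR2 : (0 : ℝ) < R₂ := by exact_mod_cast (by omega : 0 < R₂)
  have hnn : (0 : ℝ) ≤ (if a = a' ∧ a ∣ d then 1 / (R₂ : ℝ) else 0) := by
    split_ifs
    · positivity
    · exact le_rfl
  have hnn1 : (0 : ℝ) ≤ 1 / ((R₁ : ℝ) * R₂) := by positivity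
  by_cases hg : Nat.gcd (a * b) (a' * b') ∣ d
  swap
  · rw [if_neg hg]
    linarith
  rw [if_pos hg]
  have hbb : b ≠ b' := by
    rintro rfl
    have h1 : b ∣ Nat.gcd (a * b) (a' * b) := Nat.dvd_gcd (Dvd.intro_left _ rfl) (Dvd.intro_left _ rfl)
    have h2 := Nat.le_of_dvd hd (h1.trans hg)
    omega
  have c1 : Nat.Coprime b b' := (Nat.coprime_primes mb.2 mb'.2).2 hbb
  have c2 : Nat.Coprime a b' := (Nat.coprime_primes ma.2 mb'.2).2 (by omega)
  have c3 : Nat.Coprime b a' := (Nat.coprime_primes mb.2 ma'.2).2 (by omega)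
  have ha'0 : (0 : ℝ) < a' := by exact_mod_cast ma'.2.pos
  have hb'0 : (0 : ℝ) < b' := by exact_mod_cast mb'.2.pos
  by_cases haa : a = a'
  · subst haa
    have e : Nat.gcd (a * b) (a * b') = a := by
      rw [Nat.gcd_mul_left, c1, mul_one]
    rw [e] at hg ⊢
    rw [if_pos ⟨rfl, hg⟩]
    have h1 : (a : ℝ) / ((a * b' : ℕ) : ℝ) = 1 / (b' : ℝ) := by
      push_cast
      field_simp
    rw [h1]
    have h2 : 1 / (b' : ℝ) ≤ 1 / (R₂ : ℝ) :=
      one_div_le_one_div_of_le hR2 (by exact_mod_cast mb'.1.1.le)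
    linarith
  · have c4 : Nat.Coprime a a' := (Nat.coprime_primes ma.2 ma'.2).2 haa
    have e : Nat.gcd (a * b) (a' * b') = 1 :=
      Nat.Coprime.mul_left (Nat.Coprime.mul_right c4 c2) (Nat.Coprime.mul_right c3 c1)
    rw [e]
    have h2 : (1 : ℝ) / ((a' * b' : ℕ) : ℝ) ≤ 1 / ((R₁ : ℝ) * R₂) := by
      apply one_div_le_one_div_of_le (by positivity)
      push_cast
      exact mul_le_mul (by exact_mod_cast ma'.1.1.le) (by exact_mod_cast mb'.1.1.le) hR2.le ha'0.le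
    push_cast at h2 ⊢
    linarith

/-- PROOF. Let `s = r₁ r₂`, `s' = r₁' r₂'` (`r₁, r₁' ≤ 2R₁ ≤ R₂ < r₂, r₂'`). If `r₂ = r₂'` then `r₂ ∣ gcd(s, s')`, and `r₂ > R₂ ≥ d` does not divide `d`: the term is
`0`. Let `r₂ ≠ r₂'`. If `r₁ ≠ r₁'` the gcd is `1` and the term is `1/s' ≤ 1/(R₁ R₂)`; together `≤ (#SS)²/(R₁ R₂)`. If `r₁ = r₁'` the gcd is `r₁`, the term
is `0` unless `r₁ ∣ d`, and then `r₁/s' = 1/r₂' ≤ 1/R₂`; together `≤ #{r₁ ∣ d} (#IS R₂)²/R₂ ≤ (log d/log R₁) C² R₂/(log R₂)²`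
(`card_dvd_le`) `≤ C² R₁ R₂/(log R₁ log R₂)²` by `hlog`. (`card_SS_le`; `sum_SS` writes the sums over `SS` as double sums.) -/
theorem sum_gcd_le : ∃ C : ℝ, 1 ≤ C ∧ ∀ R₁ R₂ d : ℕ, 2 ≤ R₁ → 2 * R₁ ≤ R₂ → 1 ≤ d → d ≤ R₂ →
    Real.log d * Real.log R₁ ≤ R₁ →
    ∑ s ∈ SS R₁ R₂, ∑ s' ∈ SS R₁ R₂, (if Nat.gcd s s' ∣ d then (Nat.gcd s s' : ℝ) / s' else 0)
      ≤ C * ((R₁ * R₂) / (Real.log R₁ * Real.log R₂) ^ 2) := by
  obtain ⟨C, hC, hcard, -⟩ := card_SS_le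
  refine ⟨C ^ 4 + C ^ 2, by nlinarith [sq_nonneg (C ^ 2), sq_nonneg C], ?_⟩
  intro R₁ R₂ d hR h12 hd hd2 hlog
  have hR1 : (2 : ℝ) ≤ R₁ := by exact_mod_cast hR
  have hR2 : (2 : ℝ) ≤ R₂ := by exact_mod_cast (by omega : 2 ≤ R₂)
  have hl1 : 0 < Real.log R₁ := Real.log_pos (by linarith)
  have hl2 : 0 < Real.log R₂ := Real.log_pos (by linarith)
  have n1 := hcard R₁ hR
  have n2 := hcard R₂ (by omega)
  set m1 : ℝ := (#(IS R₁) : ℝ) with hm1
  set m2 : ℝ := (#(IS R₂) : ℝ) with hm2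
  have m10 : 0 ≤ m1 := Nat.cast_nonneg _
  have m20 : 0 ≤ m2 := Nat.cast_nonneg _
  rw [sum_SS R₁ R₂ h12]
  simp only [sum_SS R₁ R₂ h12]
  have h1 : ∑ a ∈ IS R₁, ∑ b ∈ IS R₂, ∑ a' ∈ IS R₁, ∑ b' ∈ IS R₂,
      (if Nat.gcd (a * b) (a' * b') ∣ d then (Nat.gcd (a * b) (a' * b') : ℝ) / ((a' * b' : ℕ) : ℝ) else 0)
      ≤ ∑ a ∈ IS R₁, ∑ b ∈ IS R₂, ∑ a' ∈ IS R₁, ∑ b' ∈ IS R₂,
        (1 / ((R₁ : ℝ) * R₂) + (if a = a' ∧ a ∣ d then 1 / (R₂ : ℝ) else 0)) :=
    Finset.sum_le_sum fun a ha => Finset.sum_le_sum fun b hb => Finset.sum_le_sum fun a' ha' =>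
      Finset.sum_le_sum fun b' hb' => A4_term R₁ R₂ d h12 hR hd hd2 ha hb ha' hb'
  refine h1.trans ?_
  have h2 : ∑ a ∈ IS R₁, ∑ b ∈ IS R₂, ∑ a' ∈ IS R₁, ∑ b' ∈ IS R₂,
        (1 / ((R₁ : ℝ) * R₂) + (if a = a' ∧ a ∣ d then 1 / (R₂ : ℝ) else 0))
      = m1 ^ 2 * m2 ^ 2 / ((R₁ : ℝ) * R₂) +
        (#((IS R₁).filter (fun r => r ∣ d)) : ℝ) * m2 ^ 2 / R₂ := by
    have e1 : ∀ a ∈ IS R₁, ∑ b ∈ IS R₂, ∑ a' ∈ IS R₁, ∑ b' ∈ IS R₂,
        (1 / ((R₁ : ℝ) * R₂) + (if a = a' ∧ a ∣ d then 1 / (R₂ : ℝ) else 0))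
        = m1 * m2 ^ 2 / ((R₁ : ℝ) * R₂) + (if a ∣ d then m2 ^ 2 / (R₂ : ℝ) else 0) := by
      intro a ha
      have e2 : ∑ a' ∈ IS R₁, ∑ b' ∈ IS R₂,
          (1 / ((R₁ : ℝ) * R₂) + (if a = a' ∧ a ∣ d then 1 / (R₂ : ℝ) else 0))
          = m1 * m2 / ((R₁ : ℝ) * R₂) + (if a ∣ d then m2 / (R₂ : ℝ) else 0) := by
        have e3 : ∀ a' ∈ IS R₁, ∑ b' ∈ IS R₂,
            (1 / ((R₁ : ℝ) * R₂) + (if a = a' ∧ a ∣ d then 1 / (R₂ : ℝ) else 0))
            = m2 / ((R₁ : ℝ) * R₂) + (if a = a' then (if a ∣ d then m2 / (R₂ : ℝ) else 0) else 0) := by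
          intro a' _
          rw [Finset.sum_const, nsmul_eq_mul, ← hm2]
          by_cases h : a = a'
          · by_cases h' : a ∣ d
            · rw [if_pos ⟨h, h'⟩, if_pos h, if_pos h']
              ring
            · rw [if_neg (fun hh => h' hh.2), if_pos h, if_neg h']
              ring
          · rw [if_neg (fun hh => h hh.1), if_neg h]
            ring
        rw [Finset.sum_congr rfl e3, Finset.sum_add_distrib, Finset.sum_const, nsmul_eq_mul,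
          Finset.sum_ite_eq, if_pos ha, ← hm1]
        ring
      rw [e2, Finset.sum_const, nsmul_eq_mul, ← hm2]
      split_ifs
      · ring
      · ring
    rw [Finset.sum_congr rfl e1, Finset.sum_add_distrib, Finset.sum_const, nsmul_eq_mul,
      ← Finset.sum_filter, Finset.sum_const, nsmul_eq_mul, ← hm1]
    ring
  rw [h2]
  have hA : m1 ^ 2 * m2 ^ 2 / ((R₁ : ℝ) * R₂) ≤
      C ^ 4 * ((R₁ * R₂) / (Real.log R₁ * Real.log R₂) ^ 2) := by
    have a1 : m1 ^ 2 ≤ (C * R₁ / Real.log R₁) ^ 2 := pow_le_pow_left₀ m10 n1 2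
    have a2 : m2 ^ 2 ≤ (C * R₂ / Real.log R₂) ^ 2 := pow_le_pow_left₀ m20 n2 2
    calc m1 ^ 2 * m2 ^ 2 / ((R₁ : ℝ) * R₂) ≤
        (C * R₁ / Real.log R₁) ^ 2 * (C * R₂ / Real.log R₂) ^ 2 / ((R₁ : ℝ) * R₂) := by
          apply div_le_div_of_nonneg_right _ (by positivity)
          exact mul_le_mul a1 a2 (by positivity) (by positivity)
      _ = _ := by
          field_simp
  have hB : (#((IS R₁).filter (fun r => r ∣ d)) : ℝ) * m2 ^ 2 / R₂ ≤
      C ^ 2 * ((R₁ * R₂) / (Real.log R₁ * Real.log R₂) ^ 2) := by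
    have a0 := card_dvd_le R₁ d hR hd
    have a1 : (#((IS R₁).filter (fun r => r ∣ d)) : ℝ) ≤ R₁ / (Real.log R₁) ^ 2 := by
      rw [le_div_iff₀ (by positivity)]
      calc (#((IS R₁).filter (fun r => r ∣ d)) : ℝ) * (Real.log R₁) ^ 2
          = ((#((IS R₁).filter (fun r => r ∣ d)) : ℝ) * Real.log R₁) * Real.log R₁ := by ring
        _ ≤ Real.log d * Real.log R₁ := mul_le_mul_of_nonneg_right a0 hl1.le
        _ ≤ R₁ := hlog
    have a2 : m2 ^ 2 ≤ (C * R₂ / Real.log R₂) ^ 2 := pow_le_pow_left₀ m20 n2 2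
    calc (#((IS R₁).filter (fun r => r ∣ d)) : ℝ) * m2 ^ 2 / R₂ ≤
        (R₁ / (Real.log R₁) ^ 2) * (C * R₂ / Real.log R₂) ^ 2 / R₂ := by
          apply div_le_div_of_nonneg_right _ (by positivity)
          exact mul_le_mul a1 a2 (by positivity) (by positivity)
      _ = _ := by
          field_simp
  linarith

end Pool.Agent.E3
end

section

/-!
# A5: the correlations of `f`
-/

set_option autoImplicit false

namespace Pool.Agent.E3

open Finset Real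
open Pool.Agent.Lib.MP_bae66e_nt.AP3 (prI mem_prI)

private theorem A5_SS_bd {R₁ R₂ s : ℕ} (hs : s ∈ SS R₁ R₂) : 1 ≤ s ∧ s ≤ 4 * (R₁ * R₂) := by
  unfold SS at hs
  rw [Finset.mem_image] at hs
  obtain ⟨r, hr, rfl⟩ := hs
  rw [Finset.mem_product] at hr
  have h1 := mem_prI.mp hr.1
  have h2 := mem_prI.mp hr.2
  refine ⟨Nat.mul_pos h1.2.pos h2.2.pos, ?_⟩
  calc r.1 * r.2 ≤ (2 * R₁) * (2 * R₂) := Nat.mul_le_mul (by omega) (by omega)
    _ = 4 * (R₁ * R₂) := by ring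

/-- PROOF. `c, C₀, z₀` from `pair_om`. `cc_pair_sum`; for each pair `s, s' ∈ SS` (`≤ 4 R₁ R₂ ≤ (Nat.sqrt X)^c`) `pair_om` and `Fr_SS_le` give
`≤ 256 C₀ (Y/(log X)²) (Fr d)² · [gcd ∣ d] gcd/s'`; sum with `sum_gcd_le`. -/
theorem cc_le (hSL : SLP) : ∃ c C : ℝ, 0 < c ∧ c ≤ 1 ∧ 1 ≤ C ∧ ∃ z₀ : ℕ, 4 ≤ z₀ ∧
    ∀ (R₁ R₂ X N d : ℕ) (Y : ℝ), z₀ ≤ Nat.sqrt X → 2 ≤ R₁ → 2 * R₁ ≤ R₂ → 1 ≤ d → d ≤ R₂ → 0 < Y →
      Real.log d * Real.log R₁ ≤ R₁ → ((4 * (R₁ * R₂) : ℕ) : ℝ) ≤ (Nat.sqrt X : ℝ) ^ c →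
      cc (fS (SS R₁ R₂) Y X) N d
        ≤ C * (((R₁ * R₂) * Y) * (1 / (Real.log R₁ * Real.log R₂ * Real.log X)) ^ 2) * (Fr d) ^ 2 := by
  obtain ⟨c, C₀, hc0, hc1, hC0, z₀, hz4, hpair⟩ := pair_om hSL
  obtain ⟨C₁, hC1, hsum⟩ := sum_gcd_le
  refine ⟨c, 256 * C₀ * C₁, hc0, hc1, by nlinarith, z₀, hz4, ?_⟩
  intro R₁ R₂ X N d Y hz h2 h12 hd hdR hY hlog hsz
  have hK : 0 ≤ 256 * C₀ * (Y / (Real.log X) ^ 2) * (Fr d) ^ 2 := by positivity
  have hterm : ∀ s ∈ SS R₁ R₂, ∀ s' ∈ SS R₁ R₂,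
      ∑ q ∈ (QS X).filter (fun q => s' ∣ s * q + d ∧ ((s * q + d) / s').Prime), om Y q ≤
        256 * C₀ * (Y / (Real.log X) ^ 2) * (Fr d) ^ 2 *
          (if Nat.gcd s s' ∣ d then (Nat.gcd s s' : ℝ) / s' else 0) := by
    intro s hs s' hs'
    obtain ⟨a1, a2⟩ := A5_SS_bd hs
    obtain ⟨b1, b2⟩ := A5_SS_bd hs'
    have a3 : (s : ℝ) ≤ (Nat.sqrt X : ℝ) ^ c := le_trans (by exact_mod_cast a2) hsz
    have b3 : (s' : ℝ) ≤ (Nat.sqrt X : ℝ) ^ c := le_trans (by exact_mod_cast b2) hsz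
    refine (hpair X s s' d Y hz a1 b1 hd hY a3 b3).trans ?_
    by_cases hg : Nat.gcd s s' ∣ d
    · rw [if_pos hg, if_pos hg]
      have hF := Fr_SS_le R₁ R₂ s s' d hs hs' hd
      have hA : 0 ≤ C₀ * (Nat.gcd s s' * Y / (s' * (Real.log X) ^ 2)) := by positivity
      calc C₀ * (Nat.gcd s s' * Y / (s' * (Real.log X) ^ 2)) * (Fr (s * s' * d)) ^ 2
          ≤ C₀ * (Nat.gcd s s' * Y / (s' * (Real.log X) ^ 2)) * (256 * (Fr d) ^ 2) :=
            mul_le_mul_of_nonneg_left hF hA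
        _ = 256 * C₀ * (Y / (Real.log X) ^ 2) * (Fr d) ^ 2 * ((Nat.gcd s s' : ℝ) / s') := by
            ring
    · rw [if_neg hg, if_neg hg, mul_zero]
  calc cc (fS (SS R₁ R₂) Y X) N d
      ≤ ∑ s ∈ SS R₁ R₂, ∑ s' ∈ SS R₁ R₂,
        ∑ q ∈ (QS X).filter (fun q => s' ∣ s * q + d ∧ ((s * q + d) / s').Prime), om Y q :=
        cc_pair_sum R₁ R₂ X N d Y
    _ ≤ ∑ s ∈ SS R₁ R₂, ∑ s' ∈ SS R₁ R₂, 256 * C₀ * (Y / (Real.log X) ^ 2) * (Fr d) ^ 2 *
          (if Nat.gcd s s' ∣ d then (Nat.gcd s s' : ℝ) / s' else 0) :=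
        Finset.sum_le_sum fun s hs => Finset.sum_le_sum fun s' hs' => hterm s hs s' hs'
    _ = 256 * C₀ * (Y / (Real.log X) ^ 2) * (Fr d) ^ 2 *
          ∑ s ∈ SS R₁ R₂, ∑ s' ∈ SS R₁ R₂,
          (if Nat.gcd s s' ∣ d then (Nat.gcd s s' : ℝ) / s' else 0) := by
        rw [Finset.mul_sum]
        exact Finset.sum_congr rfl fun s _ => by rw [Finset.mul_sum]
    _ ≤ 256 * C₀ * (Y / (Real.log X) ^ 2) * (Fr d) ^ 2 *
          (C₁ * ((R₁ * R₂) / (Real.log R₁ * Real.log R₂) ^ 2)) :=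
        mul_le_mul_of_nonneg_left (hsum R₁ R₂ d h2 h12 hd hdR hlog) hK
    _ = 256 * C₀ * C₁ * (((R₁ * R₂) * Y) *
          (1 / (Real.log R₁ * Real.log R₂ * Real.log X)) ^ 2) * (Fr d) ^ 2 := by
        ring

end Pool.Agent.E3
end

section

/-!
# Y1b: the contribution of the prime powers
-/

set_option autoImplicit false

namespace Pool.Agent.E3

open Finset MeasureTheory Real
open Pool.Agent.Lib.MP_bae66e_nt.AP3 (Rough)

private lemma Y1b_log_nonneg (n : ℕ) : 0 ≤ Real.log (n : ℝ) := Real.log_natCast_nonneg n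

private lemma Y1b_sum_nonneg (n : ℕ) : 0 ≤ ∑ p ∈ n.primeFactors, Real.log p :=
  Finset.sum_nonneg fun p _ => Y1b_log_nonneg p

/-- PROOF. `log n = ∑_{p ∣ n} v_p(n) log p` (`n ≥ 1`), so `ep n = ∑_{p ∣ n} (v_p(n) - 1) log p ≥ 0`. -/
theorem ep_nonneg (n : ℕ) (hn : 1 ≤ n) : 0 ≤ ep n := by
  have h1 : ∑ p ∈ n.primeFactors, Real.log (p : ℝ) = Real.log ((∏ p ∈ n.primeFactors, p : ℕ) : ℝ) := by
    rw [Nat.cast_prod, Real.log_prod]
    intro p hp
    exact_mod_cast (Nat.prime_of_mem_primeFactors hp).ne_zero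
  have h2 : (∏ p ∈ n.primeFactors, p) ≤ n := Nat.le_of_dvd hn (Nat.prod_primeFactors_dvd n)
  have h3 : 0 < ∏ p ∈ n.primeFactors, p :=
    Finset.prod_pos fun p hp => (Nat.prime_of_mem_primeFactors hp).pos
  unfold ep
  rw [h1, sub_nonneg]
  exact Real.log_le_log (by exact_mod_cast h3) (by exact_mod_cast h2)

/-- PROOF. `∑_{p ∣ n} log p ≥ 0`. -/
theorem ep_le (n : ℕ) (hn : 1 ≤ n) : ep n ≤ Real.log n := by
  unfold ep
  linarith [Y1b_sum_nonneg n]

private lemma Y1b_gs_nonneg (β x y : ℝ) : 0 ≤ gs β x y := (Real.exp_pos _).le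

private lemma Y1b_shift (β x : ℝ) (q m : ℕ) (hq : 1 ≤ q) (hm : 1 ≤ m) :
    gs β x (Real.log ((q * m : ℕ) : ℝ)) / ((q * m : ℕ) : ℝ) =
      (1 / (q : ℝ)) * (gs β (x - Real.log (q : ℝ)) (Real.log m) / m) := by
  have hq0 : (q : ℝ) ≠ 0 := by exact_mod_cast (by omega : q ≠ 0)
  have hm0 : (m : ℝ) ≠ 0 := by exact_mod_cast (by omega : m ≠ 0)
  rw [Nat.cast_mul, Real.log_mul hq0 hm0]
  unfold gs
  rw [sub_sub]
  field_simp

private lemma Y1b_mult (β C₁ : ℝ) (h1 : ∀ (N : ℕ) (x : ℝ),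
    ∑ n ∈ Icc 1 N, gs β x (Real.log n) / n ≤ C₁) (N q : ℕ) (x : ℝ) (hq : 1 ≤ q) :
    ∑ n ∈ (Icc 1 N).filter (fun n => q ∣ n), gs β x (Real.log n) / n ≤ C₁ / (q : ℝ) := by
  have hsub : (Icc 1 N).filter (fun n => q ∣ n) ⊆ (Icc 1 N).image (fun m => q * m) := by
    intro n hn
    rw [Finset.mem_filter, Finset.mem_Icc] at hn
    obtain ⟨⟨hn1, hnN⟩, m, rfl⟩ := hn
    rw [Finset.mem_image]
    refine ⟨m, ?_, rfl⟩
    rw [Finset.mem_Icc]
    constructor
    · rcases Nat.eq_zero_or_pos m with h | h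
      · rw [h, mul_zero] at hn1
        omega
      · exact h
    · calc m = 1 * m := (one_mul m).symm
        _ ≤ q * m := Nat.mul_le_mul_right m hq
        _ ≤ N := hnN
  have hinj : ∀ a ∈ Icc 1 N, ∀ b ∈ Icc 1 N, q * a = q * b → a = b := by
    intro a _ b _ hab
    exact Nat.eq_of_mul_eq_mul_left (by omega) hab
  have e1 : ∑ n ∈ (Icc 1 N).image (fun m => q * m), gs β x (Real.log n) / n =
      ∑ m ∈ Icc 1 N, gs β x (Real.log ((q * m : ℕ) : ℝ)) / ((q * m : ℕ) : ℝ) :=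
    Finset.sum_image (fun a ha b hb hab => hinj a ha b hb hab)
  calc ∑ n ∈ (Icc 1 N).filter (fun n => q ∣ n), gs β x (Real.log n) / n
      ≤ ∑ n ∈ (Icc 1 N).image (fun m => q * m), gs β x (Real.log n) / n :=
        Finset.sum_le_sum_of_subset_of_nonneg hsub fun n _ _ =>
          div_nonneg (Y1b_gs_nonneg _ _ _) (Nat.cast_nonneg n)
    _ = ∑ m ∈ Icc 1 N, gs β x (Real.log ((q * m : ℕ) : ℝ)) / ((q * m : ℕ) : ℝ) := e1
    _ = ∑ m ∈ Icc 1 N, (1 / (q : ℝ)) *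
          (gs β (x - Real.log (q : ℝ)) (Real.log m) / m) :=
        Finset.sum_congr rfl fun m hm => Y1b_shift β x q m hq (Finset.mem_Icc.mp hm).1
    _ = (1 / (q : ℝ)) *
          ∑ m ∈ Icc 1 N, gs β (x - Real.log (q : ℝ)) (Real.log m) / m := by
        rw [Finset.mul_sum]
    _ ≤ (1 / (q : ℝ)) * C₁ := mul_le_mul_of_nonneg_left (h1 _ _) (by positivity)
    _ = C₁ / (q : ℝ) := by ring

open Classical in
private lemma Y1b_mem (z N n : ℕ) (hn : n ∈ RS z N) : 2 ≤ n ∧ n ≤ N ∧ Rough z n := by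
  unfold RS at hn
  have h1 := Finset.mem_filter.mp hn
  have h2 := Finset.mem_Icc.mp h1.1
  exact ⟨h2.1, h2.2, h1.2⟩

private lemma Y1b_ep (z N n : ℕ) (hn : n ∈ RS z N) :
    ep n ≤ 2 * ∑ k ∈ (Ioc z N).filter (fun k => k ^ 2 ∣ n), Real.log k := by
  obtain ⟨hn2, hnN, hrough⟩ := Y1b_mem z N n hn
  obtain ⟨a, b, hab, hsq⟩ := Nat.sq_mul_squarefree n
  have hn0 : n ≠ 0 := by omega
  have ha0 : a ≠ 0 := by
    rintro rfl
    rw [mul_zero] at hab
    omega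
  have hb0 : b ≠ 0 := by
    rintro rfl
    rw [zero_pow two_ne_zero, zero_mul] at hab
    omega
  have hlog : Real.log (n : ℝ) = 2 * Real.log b + Real.log a := by
    have h1 : (n : ℝ) = (b : ℝ) ^ 2 * a := by rw [← hab]; push_cast; ring
    rw [h1, Real.log_mul (pow_ne_zero _ (by exact_mod_cast hb0)) (by exact_mod_cast ha0),
      Real.log_pow]
    push_cast
    ring
  have hloga : Real.log (a : ℝ) = ∑ p ∈ a.primeFactors, Real.log (p : ℝ) := by
    have h1 : ∏ p ∈ a.primeFactors, p = a := Nat.prod_primeFactors_of_squarefree hsq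
    have h2 : (a : ℝ) = ∏ p ∈ a.primeFactors, (p : ℝ) := by
      rw [← Nat.cast_prod, h1]
    have h3 : Real.log (∏ p ∈ a.primeFactors, (p : ℝ)) =
        ∑ p ∈ a.primeFactors, Real.log (p : ℝ) := by
      rw [Real.log_prod]
      intro p hp
      exact_mod_cast (Nat.prime_of_mem_primeFactors hp).ne_zero
    rw [← h3, ← h2]
  have hsub : a.primeFactors ⊆ n.primeFactors :=
    Nat.primeFactors_mono (Dvd.intro_left _ hab) hn0
  have hle : ∑ p ∈ a.primeFactors, Real.log (p : ℝ) ≤ ∑ p ∈ n.primeFactors, Real.log (p : ℝ) :=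
    Finset.sum_le_sum_of_subset_of_nonneg hsub fun p _ _ => Y1b_log_nonneg p
  have hep : ep n ≤ 2 * Real.log b := by
    unfold ep
    linarith
  refine hep.trans ?_
  have hnn : ∀ k ∈ (Ioc z N).filter (fun k => k ^ 2 ∣ n), 0 ≤ Real.log (k : ℝ) :=
    fun k _ => Y1b_log_nonneg k
  by_cases hb1 : b = 1
  · rw [hb1, Nat.cast_one, Real.log_one, mul_zero]
    exact mul_nonneg (by norm_num) (Finset.sum_nonneg hnn)
  · have hbd : b ∣ n := by
      rw [← hab]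
      exact Dvd.dvd.mul_right (dvd_pow_self b two_ne_zero) a
    have hzb : z < b := by
      have hp := Nat.minFac_prime hb1
      have h1 : z < b.minFac := hrough _ hp ((Nat.minFac_dvd b).trans hbd)
      exact lt_of_lt_of_le h1 (Nat.minFac_le (Nat.pos_of_ne_zero hb0))
    have hbN : b ≤ N := (Nat.le_of_dvd (Nat.pos_of_ne_zero hn0) hbd).trans hnN
    have hmem : b ∈ (Ioc z N).filter (fun k => k ^ 2 ∣ n) := by
      rw [Finset.mem_filter, Finset.mem_Ioc]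
      exact ⟨⟨hzb, hbN⟩, Dvd.intro _ hab⟩
    have h2 := Finset.single_le_sum hnn hmem
    linarith

private lemma Y1b_step (a : ℕ) (ha : 1 ≤ a) :
    Real.log ((a + 1 : ℕ) : ℝ) / ((a + 1 : ℕ) : ℝ) ^ 2 +
      (2 + Real.log ((a + 1 : ℕ) : ℝ)) / ((a + 1 : ℕ) : ℝ) ≤ (2 + Real.log a) / a := by
  have ha0 : (0 : ℝ) < a := by exact_mod_cast ha
  have ha1 : (1 : ℝ) ≤ a := by exact_mod_cast ha
  have hk0 : (0 : ℝ) < ((a + 1 : ℕ) : ℝ) := by positivity
  have hke : ((a + 1 : ℕ) : ℝ) = a + 1 := by push_cast; ring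
  set L : ℝ := Real.log ((a + 1 : ℕ) : ℝ) with hL
  have hL0 : 0 ≤ L := Y1b_log_nonneg _
  have hl : L - 1 / a ≤ Real.log a := by
    have h1 : L - Real.log a = Real.log (((a + 1 : ℕ) : ℝ) / a) := by
      rw [Real.log_div hk0.ne' ha0.ne']
    have h2 := Real.log_le_sub_one_of_pos (div_pos hk0 ha0)
    have h3 : ((a + 1 : ℕ) : ℝ) / a - 1 = 1 / a := by
      rw [hke]
      field_simp
      ring
    linarith
  set u : ℝ := 1 / a with hu
  set w : ℝ := 1 / ((a + 1 : ℕ) : ℝ) with hw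
  have hu0 : 0 ≤ u := by positivity
  have hw0 : 0 ≤ w := by positivity
  have huw : u - w = u * w := by
    rw [hu, hw, hke]
    have : (a : ℝ) + 1 ≠ 0 := by positivity
    field_simp
    ring
  have hwu : 0 ≤ u - w := by rw [huw]; exact mul_nonneg hu0 hw0
  have huw2 : 0 ≤ 2 * w - u := by
    rw [hu, hw, hke, sub_nonneg, mul_one_div, div_le_div_iff₀ ha0 (by positivity)]
    linarith
  have e1 : L / ((a + 1 : ℕ) : ℝ) ^ 2 + (2 + L) / ((a + 1 : ℕ) : ℝ) = L * w ^ 2 + (2 + L) * w := by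
    rw [hw]
    field_simp
  have e2 : (2 + Real.log a) / a = (2 + Real.log a) * u := by
    rw [hu]
    ring
  rw [e1, e2]
  have h3 : (2 + (L - u)) * u ≤ (2 + Real.log a) * u := by
    apply mul_le_mul_of_nonneg_right _ hu0
    linarith
  refine le_trans ?_ h3
  have h4 : (2 + L) * (u - w) = (2 + L) * (u * w) := by rw [huw]
  have h5 : 0 ≤ u * (2 * w - u) := mul_nonneg hu0 huw2
  have h6 : 0 ≤ L * w * (u - w) := mul_nonneg (mul_nonneg hL0 hw0) hwu
  nlinarith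

private lemma Y1b_tail (z N : ℕ) (hz : 2 ≤ z) :
    ∑ k ∈ Ioc z N, Real.log (k : ℝ) / (k : ℝ) ^ 2 ≤ (2 + Real.log z) / z := by
  have hz0 : (0 : ℝ) ≤ (2 + Real.log z) / z :=
    div_nonneg (by linarith [Y1b_log_nonneg z]) (Nat.cast_nonneg z)
  rcases Nat.lt_or_ge N z with h | h
  · rw [Finset.Ioc_eq_empty (by omega), Finset.sum_empty]
    exact hz0
  · have key : ∑ k ∈ Ioc z N, Real.log (k : ℝ) / (k : ℝ) ^ 2 + (2 + Real.log N) / N ≤
        (2 + Real.log z) / z := by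
      induction N, h using Nat.le_induction with
      | base => rw [Finset.Ioc_self, Finset.sum_empty, zero_add]
      | succ n hn ih =>
        rw [Finset.sum_Ioc_succ_top hn]
        have h1 := Y1b_step n (by omega)
        linarith
    have h2 : (0 : ℝ) ≤ (2 + Real.log N) / N :=
      div_nonneg (by linarith [Y1b_log_nonneg N]) (Nat.cast_nonneg N)
    linarith

private lemma Y1b_log_z (z : ℕ) (hz : 2 ≤ z) : (1 : ℝ) / 2 < Real.log z := by
  have h1 : Real.log 2 ≤ Real.log z := Real.log_le_log (by norm_num) (by exact_mod_cast hz)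
  linarith [Real.log_two_gt_d9]

/-- PROOF. For `n ∈ RS z N`: `ep n = ∑_{p ∣ n} (v_p(n) - 1) log p = ∑_{j ≥ 2} ∑_{p^j ∣ n} log p ≤ ∑_{k² ∣ n ...}`. Precisely
`ep n ≤ ∑_{(p, j) : j ≥ 2, p^j ∣ n} log p`, all these `p` are `> z`. Write `n = p^j m`: then
`gs β x (log n) / n = gs β (x - log (p^j)) (log m) / (p^j m)` and `∑_{m ≤ N} gs β x' (log m) / m ≤ C` (`tb_one`), so the sum is
`≤ C ∑_{p > z} ∑_{j ≥ 2} log p / p^j ≤ 2 C ∑_{k > z} log k / k² ≤ 2 C · 3 (1 + log z) / z`. (`∑_{j ≥ 2} p^(-j) ≤ 2/p²`;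
`j ≤ log N / log 2` so all sums are finite.) -/
theorem tb_ep (β : ℝ) (hβ : 0 < β) : ∃ C : ℝ, 1 ≤ C ∧ ∀ (z N : ℕ) (x : ℝ), 2 ≤ z →
    ∑ n ∈ RS z N, ep n * gs β x (Real.log n) / n ≤ C * (Real.log z / z) := by
  obtain ⟨C₁, hC₁, h1⟩ := tb_one β hβ
  refine ⟨10 * C₁, by linarith, fun z N x hz => ?_⟩
  have hz0 : (0 : ℝ) < z := by exact_mod_cast (by omega : 0 < z)
  have hlz := Y1b_log_z z hz
  have hsub : RS z N ⊆ Icc 1 N := by
    intro n hn
    have h5 := Y1b_mem z N n hn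
    rw [Finset.mem_Icc]
    exact ⟨by omega, h5.2.1⟩
  have hg : ∀ n : ℕ, 0 ≤ gs β x (Real.log n) / n := fun n =>
    div_nonneg (Y1b_gs_nonneg _ _ _) (Nat.cast_nonneg n)
  calc ∑ n ∈ RS z N, ep n * gs β x (Real.log n) / n
      ≤ ∑ n ∈ RS z N, (2 * ∑ k ∈ (Ioc z N).filter (fun k => k ^ 2 ∣ n), Real.log k) *
          (gs β x (Real.log n) / n) := by
        refine Finset.sum_le_sum fun n hn => ?_
        rw [mul_div_assoc]
        exact mul_le_mul_of_nonneg_right (Y1b_ep z N n hn) (hg n)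
    _ ≤ ∑ n ∈ Icc 1 N, (2 * ∑ k ∈ (Ioc z N).filter (fun k => k ^ 2 ∣ n), Real.log k) *
          (gs β x (Real.log n) / n) := by
        refine Finset.sum_le_sum_of_subset_of_nonneg hsub fun n _ _ => ?_
        exact mul_nonneg (mul_nonneg (by norm_num)
          (Finset.sum_nonneg fun k _ => Y1b_log_nonneg k)) (hg n)
    _ = ∑ n ∈ Icc 1 N, ∑ k ∈ Ioc z N,
          2 * (Real.log k * (if k ^ 2 ∣ n then gs β x (Real.log n) / n else 0)) := by
        refine Finset.sum_congr rfl fun n _ => ?_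
        rw [Finset.sum_filter, Finset.mul_sum, Finset.sum_mul]
        refine Finset.sum_congr rfl fun k _ => ?_
        split_ifs
        · ring
        · ring
    _ = ∑ k ∈ Ioc z N, 2 * (Real.log k *
          ∑ n ∈ (Icc 1 N).filter (fun n => k ^ 2 ∣ n), gs β x (Real.log n) / n) := by
        rw [Finset.sum_comm]
        refine Finset.sum_congr rfl fun k _ => ?_
        rw [Finset.sum_filter, Finset.mul_sum, Finset.mul_sum]
    _ ≤ ∑ k ∈ Ioc z N, 2 * (Real.log k * (C₁ / (k : ℝ) ^ 2)) := by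
        refine Finset.sum_le_sum fun k hk => ?_
        rw [Finset.mem_Ioc] at hk
        have h5 := Y1b_mult β C₁ h1 N (k ^ 2) x (Nat.one_le_pow _ _ (by omega))
        rw [Nat.cast_pow] at h5
        exact mul_le_mul_of_nonneg_left (mul_le_mul_of_nonneg_left h5 (Y1b_log_nonneg k))
          (by norm_num)
    _ = 2 * C₁ * ∑ k ∈ Ioc z N, Real.log (k : ℝ) / (k : ℝ) ^ 2 := by
        rw [Finset.mul_sum]
        refine Finset.sum_congr rfl fun k _ => ?_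
        ring
    _ ≤ 2 * C₁ * ((2 + Real.log z) / z) :=
        mul_le_mul_of_nonneg_left (Y1b_tail z N hz) (by linarith)
    _ ≤ 2 * C₁ * ((5 * Real.log z) / z) := by
        apply mul_le_mul_of_nonneg_left _ (by linarith)
        apply div_le_div_of_nonneg_right _ hz0.le
        linarith
    _ = 10 * C₁ * (Real.log z / z) := by ring

private lemma Y1b_lz1 (z : ℕ) (hz : 2 ≤ z) : Real.log z ^ 2 ≤ 16 * Real.sqrt z := by
  have hz0 : (0 : ℝ) < z := by exact_mod_cast (by omega : 0 < z)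
  have hs : 0 < Real.sqrt z := Real.sqrt_pos.mpr hz0
  have hss : 0 < Real.sqrt (Real.sqrt z) := Real.sqrt_pos.mpr hs
  have h1 : Real.log z = 4 * Real.log (Real.sqrt (Real.sqrt z)) := by
    rw [Real.log_sqrt hs.le, Real.log_sqrt hz0.le]
    ring
  have h2 : Real.log (Real.sqrt (Real.sqrt z)) ≤ Real.sqrt (Real.sqrt z) := by
    have := Real.log_le_sub_one_of_pos hss
    linarith
  have h3 : 0 ≤ Real.log (z : ℝ) := Y1b_log_nonneg z
  have h4 : Real.log z ≤ 4 * Real.sqrt (Real.sqrt z) := by linarith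
  calc Real.log z ^ 2 ≤ (4 * Real.sqrt (Real.sqrt z)) ^ 2 := pow_le_pow_left₀ h3 h4 2
    _ = 16 * Real.sqrt z := by
        rw [mul_pow, Real.sq_sqrt hs.le]
        norm_num

private lemma Y1b_lz2 (z : ℕ) (hz : 2 ≤ z) (x K : ℝ) (hx0 : 0 ≤ x) (hx : x ≤ Real.sqrt z)
    (hK : 0 ≤ K) : (x + K) * (Real.log z / z) ≤ 16 * (1 + K) / Real.log z := by
  have hz1 : (1 : ℝ) ≤ z := by exact_mod_cast (by omega : 1 ≤ z)
  have hz0 : (0 : ℝ) < z := by linarith
  have hlz := Y1b_log_z z hz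
  have hs1 : 1 ≤ Real.sqrt z := by
    rw [Real.one_le_sqrt]
    exact hz1
  have hss : Real.sqrt z * Real.sqrt z = z := Real.mul_self_sqrt hz0.le
  have h1 := Y1b_lz1 z hz
  rw [← mul_div_assoc, div_le_div_iff₀ hz0 (by linarith)]
  have h2 : x + K ≤ (1 + K) * Real.sqrt z := by nlinarith
  calc (x + K) * Real.log z * Real.log z = (x + K) * Real.log z ^ 2 := by ring
    _ ≤ ((1 + K) * Real.sqrt z) * (16 * Real.sqrt z) := by
        apply mul_le_mul h2 h1 (sq_nonneg _) (by positivity)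
    _ = 16 * (1 + K) * (Real.sqrt z * Real.sqrt z) := by ring
    _ = 16 * (1 + K) * z := by rw [hss]

private lemma Y1b_gauss (β : ℝ) (hβ : 0 < β) (x y : ℝ) (hx : 0 ≤ x) :
    (x + |x - y|) * gs β x y ≤ (x + (1 + 2 / β)) * gs (β / 2) x y := by
  set t : ℝ := |x - y| with ht
  have ht0 : 0 ≤ t := abs_nonneg _
  have ht2 : (x - y) ^ 2 = t ^ 2 := by rw [ht, sq_abs]
  have e1 : gs β x y = gs (β / 2) x y * Real.exp (-(β / 2 * t ^ 2)) := by
    unfold gs
    rw [← Real.exp_add, ht2]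
    congr 1
    ring
  have h0 : 0 ≤ gs (β / 2) x y := Y1b_gs_nonneg _ _ _
  have h1 : Real.exp (-(β / 2 * t ^ 2)) ≤ 1 := by
    apply Real.exp_le_one_iff.mpr
    have : 0 ≤ β / 2 * t ^ 2 := by positivity
    linarith
  have h2 : t * Real.exp (-(β / 2 * t ^ 2)) ≤ 1 + 2 / β := by
    have h3 : 1 + β / 2 * t ^ 2 ≤ Real.exp (β / 2 * t ^ 2) := by
      have := Real.add_one_le_exp (β / 2 * t ^ 2)
      linarith
    rw [Real.exp_neg, ← div_eq_mul_inv, div_le_iff₀ (Real.exp_pos _)]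
    have h4 : t ≤ 1 + t ^ 2 := by nlinarith [sq_nonneg (t - 1)]
    have h5 : (1 + 2 / β) * (1 + β / 2 * t ^ 2) = 1 + 2 / β + β / 2 * t ^ 2 + t ^ 2 := by
      field_simp
      ring
    have h6 : 0 < 2 / β := by positivity
    have h7 : 0 ≤ β / 2 * t ^ 2 := by positivity
    calc t ≤ 1 + t ^ 2 := h4
      _ ≤ (1 + 2 / β) * (1 + β / 2 * t ^ 2) := by rw [h5]; linarith
      _ ≤ (1 + 2 / β) * Real.exp (β / 2 * t ^ 2) :=
          mul_le_mul_of_nonneg_left h3 (by positivity)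
  rw [e1]
  calc (x + t) * (gs (β / 2) x y * Real.exp (-(β / 2 * t ^ 2)))
      = gs (β / 2) x y * (x * Real.exp (-(β / 2 * t ^ 2)) + t * Real.exp (-(β / 2 * t ^ 2))) := by
        ring
    _ ≤ gs (β / 2) x y * (x * 1 + (1 + 2 / β)) := by
        apply mul_le_mul_of_nonneg_left _ h0
        exact add_le_add (mul_le_mul_of_nonneg_left h1 hx) h2
    _ = (x + (1 + 2 / β)) * gs (β / 2) x y := by ring

/-- PROOF. `k = 1`: `tb_rough2` (`|y| ≤ 1 + y²`) and `tb_ep` (`log z / z ≤ C / log z`). `k = 2`: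
`(|x - log n| + ep n)² ≤ 2 (x - log n)² + 2 (ep n)²`, `(ep n)² ≤ log n ep n ≤ (x + |x - log n|) ep n`,
`(x + |x - log n|) gs β x (log n) ≤ C (1 + x) gs (β/2) x (log n)`; `tb_ep (β/2)`:
`(1 + x) log z / z ≤ (1 + √z) log z / z ≤ C / log z`. -/
theorem tb_err (β : ℝ) (hβ : 0 < β) : ∃ C : ℝ, 1 ≤ C ∧ ∀ (z N : ℕ) (x : ℝ), 2 ≤ z → 0 ≤ x →
    x ≤ Real.sqrt z →
    ∑ n ∈ RS z N, (|x - Real.log n| + ep n) * gs β x (Real.log n) / n ≤ C / Real.log z ∧
    ∑ n ∈ RS z N, (|x - Real.log n| + ep n) ^ 2 * gs β x (Real.log n) / n ≤ C / Real.log z := by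
  obtain ⟨C₂, hC₂, h2⟩ := tb_rough2 β hβ
  obtain ⟨C₃, hC₃, h3⟩ := tb_ep β hβ
  obtain ⟨C₄, hC₄, h4⟩ := tb_ep (β / 2) (by positivity)
  set K : ℝ := 1 + 2 / β with hK
  have hK0 : 0 ≤ K := by positivity
  refine ⟨2 * C₂ + C₃ * (16 * (1 + 1)) + 2 * (C₄ * (16 * (1 + K))), ?_, fun z N x hz hx0 hx => ?_⟩
  · have : 0 ≤ 2 * (C₄ * (16 * (1 + K))) := by positivity
    linarith
  have hlz := Y1b_log_z z hz
  have hlz0 : 0 < Real.log z := by linarith
  have hmem : ∀ n ∈ RS z N, 1 ≤ n := by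
    intro n hn
    have h5 := Y1b_mem z N n hn
    omega
  have hn0 : ∀ n : ℕ, (0 : ℝ) ≤ n := fun n => Nat.cast_nonneg n
  have hA := h2 z N x hz
  have hB := h3 z N x hz
  have hB' := h4 z N x hz
  constructor
  · have e1 : ∑ n ∈ RS z N, (|x - Real.log n| + ep n) * gs β x (Real.log n) / n ≤
        ∑ n ∈ RS z N, (1 + (x - Real.log n) ^ 2) * gs β x (Real.log n) / n +
          ∑ n ∈ RS z N, ep n * gs β x (Real.log n) / n := by
      rw [← Finset.sum_add_distrib]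
      refine Finset.sum_le_sum fun n _ => ?_
      rw [← add_div, ← add_mul]
      apply div_le_div_of_nonneg_right _ (hn0 n)
      apply mul_le_mul_of_nonneg_right _ (Y1b_gs_nonneg _ _ _)
      have h5 : |x - Real.log n| ≤ 1 + (x - Real.log n) ^ 2 := by
        rw [← sq_abs (x - Real.log n)]
        nlinarith [sq_nonneg (|x - Real.log n| - 1), abs_nonneg (x - Real.log n)]
      linarith
    have e2 : C₃ * (Real.log z / z) ≤ C₃ * (16 * (1 + 1) / Real.log z) := by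
      apply mul_le_mul_of_nonneg_left _ (by linarith)
      have h6 := Y1b_lz2 z hz 0 1 le_rfl (Real.sqrt_nonneg _) zero_le_one
      rwa [zero_add, one_mul] at h6
    calc _ ≤ _ := e1
      _ ≤ C₂ / Real.log z + C₃ * (16 * (1 + 1) / Real.log z) := add_le_add hA (hB.trans e2)
      _ = (C₂ + C₃ * (16 * (1 + 1))) / Real.log z := by ring
      _ ≤ _ := by
        apply div_le_div_of_nonneg_right _ hlz0.le
        have : 0 ≤ 2 * (C₄ * (16 * (1 + K))) := by positivity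
        linarith
  · have e1 : ∑ n ∈ RS z N, (|x - Real.log n| + ep n) ^ 2 * gs β x (Real.log n) / n ≤
        2 * (∑ n ∈ RS z N, (1 + (x - Real.log n) ^ 2) * gs β x (Real.log n) / n) +
          2 * ((x + K) * ∑ n ∈ RS z N, ep n * gs (β / 2) x (Real.log n) / n) := by
      rw [Finset.mul_sum, Finset.mul_sum, Finset.mul_sum, ← Finset.sum_add_distrib]
      refine Finset.sum_le_sum fun n hn => ?_
      have hn1 := hmem n hn
      have hep0 := ep_nonneg n hn1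
      have hep1 := ep_le n hn1
      have hg := Y1b_gs_nonneg β x (Real.log n)
      have hg2 := Y1b_gs_nonneg (β / 2) x (Real.log n)
      have h5 : (|x - Real.log n| + ep n) ^ 2 ≤ 2 * (1 + (x - Real.log n) ^ 2) + 2 * (ep n) ^ 2 := by
        rw [← sq_abs (x - Real.log n)]
        nlinarith [sq_nonneg (|x - Real.log n| - ep n)]
      have h6 : Real.log n ≤ x + |x - Real.log n| := by
        have := neg_abs_le (x - Real.log n)
        linarith
      have h7 : (ep n) ^ 2 * gs β x (Real.log n) ≤ (x + K) * (ep n * gs (β / 2) x (Real.log n)) := by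
        calc (ep n) ^ 2 * gs β x (Real.log n)
            = ep n * (ep n * gs β x (Real.log n)) := by ring
          _ ≤ ep n * ((x + |x - Real.log n|) * gs β x (Real.log n)) := by
              apply mul_le_mul_of_nonneg_left _ hep0
              exact mul_le_mul_of_nonneg_right (hep1.trans h6) hg
          _ ≤ ep n * ((x + K) * gs (β / 2) x (Real.log n)) :=
              mul_le_mul_of_nonneg_left (Y1b_gauss β hβ x _ hx0) hep0
          _ = (x + K) * (ep n * gs (β / 2) x (Real.log n)) := by ring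
      calc (|x - Real.log n| + ep n) ^ 2 * gs β x (Real.log n) / n
          ≤ (2 * (1 + (x - Real.log n) ^ 2) + 2 * (ep n) ^ 2) * gs β x (Real.log n) / n := by
            apply div_le_div_of_nonneg_right _ (hn0 n)
            exact mul_le_mul_of_nonneg_right h5 hg
        _ = 2 * ((1 + (x - Real.log n) ^ 2) * gs β x (Real.log n) / n) +
              2 * ((ep n) ^ 2 * gs β x (Real.log n)) / n := by ring
        _ ≤ 2 * ((1 + (x - Real.log n) ^ 2) * gs β x (Real.log n) / n) +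
              2 * ((x + K) * (ep n * gs (β / 2) x (Real.log n))) / n := by
            apply add_le_add le_rfl
            apply div_le_div_of_nonneg_right _ (hn0 n)
            linarith
        _ = 2 * ((1 + (x - Real.log n) ^ 2) * gs β x (Real.log n) / n) +
              2 * ((x + K) * (ep n * gs (β / 2) x (Real.log n) / n)) := by ring
    have e2 : (x + K) * (C₄ * (Real.log z / z)) ≤ C₄ * (16 * (1 + K) / Real.log z) := by
      have h6 := Y1b_lz2 z hz x K hx0 hx hK0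
      calc (x + K) * (C₄ * (Real.log z / z)) = C₄ * ((x + K) * (Real.log z / z)) := by ring
        _ ≤ C₄ * (16 * (1 + K) / Real.log z) := mul_le_mul_of_nonneg_left h6 (by linarith)
    have e3 : (x + K) * ∑ n ∈ RS z N, ep n * gs (β / 2) x (Real.log n) / n ≤
        (x + K) * (C₄ * (Real.log z / z)) := mul_le_mul_of_nonneg_left hB' (by linarith)
    calc _ ≤ _ := e1
      _ ≤ 2 * (C₂ / Real.log z) + 2 * (C₄ * (16 * (1 + K) / Real.log z)) := by
          apply add_le_add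
          · linarith
          · linarith
      _ = (2 * C₂ + 2 * (C₄ * (16 * (1 + K)))) / Real.log z := by ring
      _ ≤ _ := by
        apply div_le_div_of_nonneg_right _ hlz0.le
        have : 0 ≤ C₃ * (16 * (1 + 1)) := by positivity
        linarith

end Pool.Agent.E3
end

section

/-!
# Y2: the identity `log n = ∑_{p ∣ n} log p + ep n` over the rough integers
-/

set_option autoImplicit false

namespace Pool.Agent.E3

open Finset MeasureTheory Real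
open Pool.Agent.Lib.MP_bae66e_nt.AP3 (Rough)

private lemma Y2_mem {z N n : ℕ} : n ∈ RS z N ↔ (2 ≤ n ∧ n ≤ N) ∧ Rough z n := by
  simp [RS, Finset.mem_filter, Finset.mem_Icc]

private lemma Y2_rough_of_dvd {z m n : ℕ} (h : Rough z n) (hd : m ∣ n) : Rough z m :=
  fun p hp hpm => h p hp (hpm.trans hd)

private lemma Y2_rough_prime {z p : ℕ} (hp : p.Prime) (h : z < p) : Rough z p := by
  intro q hq hqp
  rcases (Nat.dvd_prime hp).1 hqp with h1 | h1
  · exact absurd h1 hq.one_lt.ne'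
  · rw [h1]; exact h

private lemma Y2_rough_mul {z m n : ℕ} (hm : Rough z m) (hn : Rough z n) : Rough z (m * n) := by
  intro p hp hpd
  rcases (hp.dvd_mul).1 hpd with h | h
  · exact hm p hp h
  · exact hn p hp h

/-- the sum over the multiples of a prime -/
private lemma Y2_mult (z N p : ℕ) (F : ℕ → ℂ) (hp : p.Prime) (hpR : p ∈ RS z N) :
    ∑ n ∈ RS z N, (if p ∣ n then F n else 0)
      = F p + ∑ m ∈ RS z N, (if p * m ≤ N then F (p * m) else 0) := by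
  classical
  rw [← Finset.sum_filter, ← Finset.sum_filter]
  have hset : (RS z N).filter (fun n => p ∣ n)
      = insert p (((RS z N).filter (fun m => p * m ≤ N)).image (fun m => p * m)) := by
    ext n
    simp only [Finset.mem_filter, Finset.mem_insert, Finset.mem_image, Y2_mem]
    constructor
    · rintro ⟨⟨⟨h2, hN⟩, hR⟩, m, rfl⟩
      rcases Nat.lt_or_ge 1 m with hm | hm
      · right
        refine ⟨m, ⟨⟨⟨hm, ?_⟩, Y2_rough_of_dvd hR (Dvd.intro_left p rfl)⟩, hN⟩, rfl⟩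
        exact le_trans (Nat.le_mul_of_pos_left m hp.pos) hN
      · left
        interval_cases m
        · omega
        · simp
    · rintro (rfl | ⟨m, ⟨⟨⟨h2, hN⟩, hR⟩, hpm⟩, rfl⟩)
      · exact ⟨Y2_mem.1 hpR, dvd_refl _⟩
      · refine ⟨⟨⟨?_, hpm⟩, Y2_rough_mul (Y2_mem.1 hpR).2 hR⟩, dvd_mul_right _ _⟩
        exact le_trans h2 (Nat.le_mul_of_pos_left m hp.pos)
  rw [hset, Finset.sum_insert, Finset.sum_image]
  · intro a _ b _ hab
    exact Nat.eq_of_mul_eq_mul_left hp.pos hab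
  · simp only [Finset.mem_image, Finset.mem_filter, Y2_mem, not_exists, not_and]
    rintro m ⟨⟨⟨h2, -⟩, -⟩, -⟩ hm
    have := hp.pos
    nlinarith

private lemma Y2_log (z N n : ℕ) (hn : n ∈ RS z N) :
    ∑ p ∈ n.primeFactors, Real.log p = ∑ p ∈ RS z N, if p ∣ n then lp p else 0 := by
  classical
  rw [← Finset.sum_filter]
  have hn' := Y2_mem.1 hn
  symm
  have hsub : n.primeFactors ⊆ (RS z N).filter (fun p => p ∣ n) := by
    intro p hp
    have hpp := Nat.prime_of_mem_primeFactors hp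
    have hpd := Nat.dvd_of_mem_primeFactors hp
    have hle : p ≤ n := Nat.le_of_dvd (by omega) hpd
    simp only [Finset.mem_filter, Y2_mem]
    exact ⟨⟨⟨hpp.two_le, hle.trans hn'.1.2⟩, Y2_rough_of_dvd hn'.2 hpd⟩, hpd⟩
  rw [← Finset.sum_subset hsub]
  · refine Finset.sum_congr rfl fun p hp => ?_
    simp [lp, Nat.prime_of_mem_primeFactors hp]
  · intro p hp hnp
    simp only [Finset.mem_filter, Y2_mem] at hp
    unfold lp
    rw [if_neg]
    intro hpp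
    exact hnp (Nat.mem_primeFactors.2 ⟨hpp, hp.2, by omega⟩)

/-- PROOF. `log n = ∑_{p ∣ n} log p + ep n`. In `∑_{n ∈ RS z N} ∑_{p ∣ n} log p · F n` write `n = p m`: either `m = 1`, `n = p`
is a prime in `RS z N`, or `m ≥ 2`, and then `p` and `m` are in `RS z N` with `p m ≤ N`; conversely for `p` prime, `p, m ∈ RS z N` with
`p m ≤ N` we have `p m ∈ RS z N` (for `p` not prime `lp p = 0`). -/
theorem rough_log_sum (z N : ℕ) (F : ℕ → ℂ) :
    ∑ n ∈ RS z N, ((Real.log n : ℝ) : ℂ) * F n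
      = ∑ p ∈ RS z N, ((lp p : ℝ) : ℂ) * F p
        + ∑ p ∈ RS z N, ∑ m ∈ RS z N, (if p * m ≤ N then ((lp p : ℝ) : ℂ) * F (p * m) else 0)
        + ∑ n ∈ RS z N, ((ep n : ℝ) : ℂ) * F n := by
  classical
  have h1 : ∀ n ∈ RS z N, ((Real.log n : ℝ) : ℂ) * F n
      = (∑ p ∈ RS z N, ((lp p : ℝ) : ℂ) * (if p ∣ n then F n else 0)) + ((ep n : ℝ) : ℂ) * F n := by
    intro n hn
    have h2 : (Real.log n : ℝ) = (∑ p ∈ RS z N, if p ∣ n then lp p else 0) + ep n := by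
      rw [← Y2_log z N n hn]; unfold ep; ring
    have h3 : ((Real.log n : ℝ) : ℂ) = (∑ p ∈ RS z N, if p ∣ n then ((lp p : ℝ) : ℂ) else 0)
        + ((ep n : ℝ) : ℂ) := by
      rw [h2]; push_cast
      congr 1
      refine Finset.sum_congr rfl fun p _ => ?_
      split_ifs <;> simp
    rw [h3, add_mul, Finset.sum_mul]
    congr 1
    refine Finset.sum_congr rfl fun p _ => ?_
    split_ifs <;> simp
  rw [Finset.sum_congr rfl h1, Finset.sum_add_distrib, Finset.sum_comm]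
  congr 1
  rw [← Finset.sum_add_distrib]
  refine Finset.sum_congr rfl fun p hp => ?_
  rw [← Finset.mul_sum]
  by_cases hpp : p.Prime
  · rw [Y2_mult z N p F hpp hp, mul_add, Finset.mul_sum]
    congr 1
    refine Finset.sum_congr rfl fun m _ => ?_
    split_ifs <;> simp
  · have : lp p = 0 := by simp [lp, hpp]
    simp [this]

private lemma Y2_ph_norm (u x : ℝ) : ‖ph u x‖ = 1 := by
  unfold ph; exact Complex.norm_exp_ofReal_mul_I _

private lemma Y2_ph_add (u x y : ℝ) : ph u (x + y) = ph u x * ph u y := by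
  unfold ph
  rw [← Complex.exp_add]
  congr 1
  push_cast
  ring

private lemma Y2_lp_nonneg (n : ℕ) : 0 ≤ lp n := by
  unfold lp
  split_ifs
  · exact Real.log_natCast_nonneg n
  · exact le_rfl

private lemma Y2_lp_le (n N : ℕ) (h0 : 1 ≤ n) (h : n ≤ N) : lp n ≤ Real.log N := by
  unfold lp
  split_ifs
  · exact Real.log_le_log (by exact_mod_cast h0) (by exact_mod_cast h)
  · exact Real.log_natCast_nonneg N

private lemma Y2_harm (z N : ℕ) : ∑ m ∈ RS z N, (1 : ℝ) / m ≤ 1 + Real.log N := by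
  have h1 : ∑ m ∈ RS z N, (1 : ℝ) / m ≤ ∑ m ∈ Icc 1 N, (1 : ℝ) / m := by
    apply Finset.sum_le_sum_of_subset_of_nonneg
    · intro m hm
      have := Y2_mem.1 hm
      exact Finset.mem_Icc.2 ⟨by omega, this.1.2⟩
    · intro m _ _
      positivity
  refine h1.trans ?_
  have h2 := harmonic_le_one_add_log N
  rw [harmonic_eq_sum_Icc] at h2
  push_cast at h2
  simpa [one_div] using h2

private lemma Y2_gs_nonneg (β x y : ℝ) : 0 ≤ gs β x y := (Real.exp_pos _).le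

/-- PROOF. `rough_log_sum` with `F n = c n ph t (log n) gs β x (log n) / n`; `F (p m)` is the summand of `BW`. So the left side
is the norm of `∑_{p, m ∈ RS z N, p m > N} lp p c p c m …`, and for `p m > N` one has
`log (p m) - x ≥ log N - x ≥ (log N)/2`, so `gs β x ≤ exp (- β (log N)²/4)`; `∑_{p ≤ N} log p / p ≤ log N (1 + log N)`,
`∑_{m ≤ N} 1/m ≤ 1 + log N`. -/
theorem log_win (β : ℝ) (hβ : 0 < β) (c : ℕ → ℂ) (hc : ∀ m n, 1 ≤ m → 1 ≤ n → c (m * n) = c m * c n)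
    (hc1 : ∀ n, ‖c n‖ ≤ 1) (t x : ℝ) (z N : ℕ) (hN : 1 ≤ N) (hx : 2 * x ≤ Real.log N) :
    ‖(x : ℂ) * WIN c β (RS z N) t x - WIN (fun n => ((lp n : ℝ) : ℂ) * c n) β (RS z N) t x
        - BW (fun n => ((lp n : ℝ) : ℂ) * c n) c (RS z N) (RS z N) β t x
        - WIN (fun n => ((x - Real.log n + ep n : ℝ) : ℂ) * c n) β (RS z N) t x‖
      ≤ (1 + Real.log N) ^ 3 * Real.exp (-(β * (Real.log N) ^ 2 / 4)) := by
  classical
  set F : ℕ → ℂ := fun n => c n * ph t (Real.log n) * (((gs β x (Real.log n) / n : ℝ)) : ℂ) with hF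
  set L := Real.log N with hL
  have hL0 : 0 ≤ L := Real.log_natCast_nonneg N
  set E := Real.exp (-(β * L ^ 2 / 4)) with hE
  have hE0 : 0 ≤ E := (Real.exp_pos _).le
  have hW1 : (x : ℂ) * WIN c β (RS z N) t x = ∑ n ∈ RS z N, (x : ℂ) * F n := by
    unfold WIN; rw [Finset.mul_sum]
  have hW2 : WIN (fun n => ((lp n : ℝ) : ℂ) * c n) β (RS z N) t x
      = ∑ n ∈ RS z N, ((lp n : ℝ) : ℂ) * F n := by
    unfold WIN
    refine Finset.sum_congr rfl fun n _ => ?_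
    simp only [hF]; ring
  have hW3 : WIN (fun n => ((x - Real.log n + ep n : ℝ) : ℂ) * c n) β (RS z N) t x
      = ∑ n ∈ RS z N, (x : ℂ) * F n - ∑ n ∈ RS z N, ((Real.log n : ℝ) : ℂ) * F n
        + ∑ n ∈ RS z N, ((ep n : ℝ) : ℂ) * F n := by
    unfold WIN
    rw [← Finset.sum_sub_distrib, ← Finset.sum_add_distrib]
    refine Finset.sum_congr rfl fun n _ => ?_
    simp only [hF]; push_cast; ring
  have hB : BW (fun n => ((lp n : ℝ) : ℂ) * c n) c (RS z N) (RS z N) β t x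
      = ∑ p ∈ RS z N, ∑ m ∈ RS z N, ((lp p : ℝ) : ℂ) * F (p * m) := by
    unfold BW
    refine Finset.sum_congr rfl fun p hp => Finset.sum_congr rfl fun m hm => ?_
    have hp1 := (Y2_mem.1 hp).1.1
    have hm1 := (Y2_mem.1 hm).1.1
    have hlog : Real.log ((p * m : ℕ) : ℝ) = Real.log p + Real.log m := by
      push_cast
      exact Real.log_mul (by positivity) (by positivity)
    simp only [hF]
    rw [hlog, hc p m (by omega) (by omega), Y2_ph_add]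
    push_cast
    ring
  have hdiff : (x : ℂ) * WIN c β (RS z N) t x - WIN (fun n => ((lp n : ℝ) : ℂ) * c n) β (RS z N) t x
        - BW (fun n => ((lp n : ℝ) : ℂ) * c n) c (RS z N) (RS z N) β t x
        - WIN (fun n => ((x - Real.log n + ep n : ℝ) : ℂ) * c n) β (RS z N) t x
      = - ∑ p ∈ RS z N, ∑ m ∈ RS z N, (if p * m ≤ N then 0 else ((lp p : ℝ) : ℂ) * F (p * m)) := by
    rw [hW1, hW2, hW3, hB, rough_log_sum z N F]
    have : ∑ p ∈ RS z N, ∑ m ∈ RS z N, ((lp p : ℝ) : ℂ) * F (p * m)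
        = ∑ p ∈ RS z N, ∑ m ∈ RS z N, (if p * m ≤ N then ((lp p : ℝ) : ℂ) * F (p * m) else 0)
          + ∑ p ∈ RS z N, ∑ m ∈ RS z N, (if p * m ≤ N then 0 else ((lp p : ℝ) : ℂ) * F (p * m)) := by
      rw [← Finset.sum_add_distrib]
      refine Finset.sum_congr rfl fun p _ => ?_
      rw [← Finset.sum_add_distrib]
      refine Finset.sum_congr rfl fun m _ => ?_
      split_ifs <;> simp
    rw [this]; ring
  rw [hdiff, norm_neg]
  have hterm : ∀ p ∈ RS z N, ∀ m ∈ RS z N,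
      ‖(if p * m ≤ N then (0 : ℂ) else ((lp p : ℝ) : ℂ) * F (p * m))‖
        ≤ (L * E) * ((1 / (p : ℝ)) * (1 / (m : ℝ))) := by
    intro p hp m hm
    have hp1 := (Y2_mem.1 hp).1
    have hm1 := (Y2_mem.1 hm).1
    have hp0 : (0 : ℝ) < p := by exact_mod_cast (by omega : 0 < p)
    have hm0 : (0 : ℝ) < m := by exact_mod_cast (by omega : 0 < m)
    split_ifs with h
    · rw [norm_zero]
      positivity
    · push Not at h
      have hlog : L ≤ Real.log ((p * m : ℕ) : ℝ) := by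
        apply Real.log_le_log (by exact_mod_cast hN)
        exact_mod_cast h.le
      have hgs : gs β x (Real.log ((p * m : ℕ) : ℝ)) ≤ E := by
        unfold gs
        rw [hE]
        apply Real.exp_le_exp.2
        have h2 : L / 2 ≤ Real.log ((p * m : ℕ) : ℝ) - x := by linarith
        have h3 : (L / 2) ^ 2 ≤ (Real.log ((p * m : ℕ) : ℝ) - x) ^ 2 :=
          pow_le_pow_left₀ (by positivity) h2 2
        nlinarith
      have hnF : ‖F (p * m)‖ ≤ E * ((1 / (p : ℝ)) * (1 / (m : ℝ))) := by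
        simp only [hF]
        rw [norm_mul, norm_mul, Y2_ph_norm, mul_one, Complex.norm_real, Real.norm_eq_abs,
          abs_of_nonneg (div_nonneg (Y2_gs_nonneg _ _ _) (Nat.cast_nonneg _))]
        have hq : gs β x (Real.log ((p * m : ℕ) : ℝ)) / ((p * m : ℕ) : ℝ)
            ≤ E * ((1 / (p : ℝ)) * (1 / (m : ℝ))) := by
          rw [show E * ((1 / (p : ℝ)) * (1 / (m : ℝ))) = E / ((p * m : ℕ) : ℝ) by
            push_cast; field_simp]
          exact div_le_div_of_nonneg_right hgs (Nat.cast_nonneg _)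
        calc ‖c (p * m)‖ * (gs β x (Real.log ((p * m : ℕ) : ℝ)) / ((p * m : ℕ) : ℝ))
            ≤ 1 * (E * ((1 / (p : ℝ)) * (1 / (m : ℝ)))) := by
              apply mul_le_mul (hc1 _) hq (div_nonneg (Y2_gs_nonneg _ _ _) (Nat.cast_nonneg _)) zero_le_one
          _ = _ := one_mul _
      rw [norm_mul, Complex.norm_real, Real.norm_eq_abs, abs_of_nonneg (Y2_lp_nonneg p), mul_assoc]
      exact mul_le_mul (Y2_lp_le p N (by omega) hp1.2) hnF (norm_nonneg _) hL0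
  have hH := Y2_harm z N
  have hH0 : 0 ≤ ∑ m ∈ RS z N, (1 : ℝ) / m := Finset.sum_nonneg fun m _ => by positivity
  calc ‖∑ p ∈ RS z N, ∑ m ∈ RS z N, (if p * m ≤ N then (0 : ℂ) else ((lp p : ℝ) : ℂ) * F (p * m))‖
      ≤ ∑ p ∈ RS z N, ∑ m ∈ RS z N, (L * E) * ((1 / (p : ℝ)) * (1 / (m : ℝ))) := by
        refine (norm_sum_le _ _).trans (Finset.sum_le_sum fun p hp => ?_)
        exact (norm_sum_le _ _).trans (Finset.sum_le_sum fun m hm => hterm p hp m hm)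
    _ = (L * E) * ((∑ m ∈ RS z N, (1 : ℝ) / m) * (∑ m ∈ RS z N, (1 : ℝ) / m)) := by
        rw [Finset.sum_mul_sum, Finset.mul_sum]
        refine Finset.sum_congr rfl fun p _ => ?_
        rw [Finset.mul_sum]
    _ ≤ (L * E) * ((1 + L) * (1 + L)) := by
        apply mul_le_mul_of_nonneg_left _ (by positivity)
        exact mul_le_mul hH hH hH0 (by positivity)
    _ ≤ (1 + L) ^ 3 * E := by
        have : (1 + L) ^ 3 * E - (L * E) * ((1 + L) * (1 + L)) = E * (1 + L) ^ 2 := by ring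
        have h2 : 0 ≤ E * (1 + L) ^ 2 := by positivity
        linarith

private lemma Y2_exp_bound (β L : ℝ) (hβ : 0 < β) (hL : 0 ≤ L) :
    (1 + L) ^ 4 * Real.exp (-(β * L ^ 2 / 4)) ≤ 8 * (1 + 32 / β ^ 2) := by
  set y := β * L ^ 2 / 4 with hy
  have hy0 : 0 ≤ y := by positivity
  have h1 : Real.exp (-y) ≤ 1 := Real.exp_le_one_iff.2 (by linarith)
  have h2 : y ^ 2 / 2 ≤ Real.exp y := by
    have := Real.quadratic_le_exp_of_nonneg hy0
    linarith
  have h3 : L ^ 4 * Real.exp (-y) ≤ 32 / β ^ 2 := by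
    rw [Real.exp_neg, ← div_eq_mul_inv, div_le_div_iff₀ (Real.exp_pos _) (by positivity)]
    have : L ^ 4 * β ^ 2 = 16 * y ^ 2 := by rw [hy]; ring
    rw [this]
    linarith
  have h4 : (1 + L) ^ 4 ≤ 8 * (1 + L ^ 4) := by
    have h5 : (1 + L) ^ 2 ≤ 2 * (1 + L ^ 2) := by nlinarith [sq_nonneg (1 - L)]
    have h6 : ((1 + L) ^ 2) ^ 2 ≤ (2 * (1 + L ^ 2)) ^ 2 := pow_le_pow_left₀ (by positivity) h5 2
    nlinarith [sq_nonneg (1 - L ^ 2)]
  have hE := (Real.exp_pos (-y)).le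
  calc (1 + L) ^ 4 * Real.exp (-y) ≤ 8 * (1 + L ^ 4) * Real.exp (-y) :=
        mul_le_mul_of_nonneg_right h4 hE
    _ = 8 * (Real.exp (-y) + L ^ 4 * Real.exp (-y)) := by ring
    _ ≤ 8 * (1 + 32 / β ^ 2) := by linarith

/-- PROOF. `log_win` and `tb_err`: the last window in `log_win` is `≤ C / log z`. The right side of `log_win` is
`≤ C / (1 + log N)`, and `≤ C / log z` if `z ≤ N`; if `z > N` then `RS z N = ∅` and everything vanishes. -/
theorem log_win_le (β : ℝ) (hβ : 0 < β) : ∃ C : ℝ, 1 ≤ C ∧ ∀ (c : ℕ → ℂ),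
    (∀ m n, 1 ≤ m → 1 ≤ n → c (m * n) = c m * c n) → (∀ n, ‖c n‖ ≤ 1) →
    ∀ (t x : ℝ) (z N : ℕ), 2 ≤ z → 1 ≤ N → 0 ≤ x → 2 * x ≤ Real.log N → x ≤ Real.sqrt z →
    ‖(x : ℂ) * WIN c β (RS z N) t x - WIN (fun n => ((lp n : ℝ) : ℂ) * c n) β (RS z N) t x
        - BW (fun n => ((lp n : ℝ) : ℂ) * c n) c (RS z N) (RS z N) β t x‖ ≤ C / Real.log z := by
  obtain ⟨C₁, hC₁, htb⟩ := tb_err β hβ
  refine ⟨8 * (1 + 32 / β ^ 2) + C₁, ?_, ?_⟩
  · have : 0 ≤ 8 * (1 + 32 / β ^ 2) := by positivity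
    linarith
  intro c hc hc1 t x z N hz hN hx0 hx hxz
  have hlz : 0 < Real.log z := Real.log_pos (by exact_mod_cast hz)
  have hK0 : 0 ≤ 8 * (1 + 32 / β ^ 2) := by positivity
  rcases Finset.eq_empty_or_nonempty (RS z N) with hemp | ⟨n, hn⟩
  · have h0 : (x : ℂ) * WIN c β (RS z N) t x - WIN (fun n => ((lp n : ℝ) : ℂ) * c n) β (RS z N) t x
        - BW (fun n => ((lp n : ℝ) : ℂ) * c n) c (RS z N) (RS z N) β t x = 0 := by
      simp [hemp, WIN, BW]
    rw [h0, norm_zero]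
    positivity
  · have hzN : z ≤ N := by
      have h1 := Y2_mem.1 hn
      have h2 : n ≠ 1 := by omega
      have h3 := h1.2 n.minFac (Nat.minFac_prime h2) (Nat.minFac_dvd n)
      have h4 := Nat.minFac_le (n := n) (by omega)
      omega
    have hlzN : Real.log z ≤ Real.log N :=
      Real.log_le_log (by exact_mod_cast (by omega : 0 < z)) (by exact_mod_cast hzN)
    set L := Real.log N with hL
    have hL0 : 0 ≤ L := Real.log_natCast_nonneg N
    have hA := log_win β hβ c hc hc1 t x z N hN hx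
    have hA' : (1 + L) ^ 3 * Real.exp (-(β * L ^ 2 / 4)) ≤ 8 * (1 + 32 / β ^ 2) / Real.log z := by
      rw [le_div_iff₀ hlz]
      have hE := (Real.exp_pos (-(β * L ^ 2 / 4))).le
      calc (1 + L) ^ 3 * Real.exp (-(β * L ^ 2 / 4)) * Real.log z
          ≤ (1 + L) ^ 3 * Real.exp (-(β * L ^ 2 / 4)) * (1 + L) := by
            apply mul_le_mul_of_nonneg_left (by linarith) (by positivity)
        _ = (1 + L) ^ 4 * Real.exp (-(β * L ^ 2 / 4)) := by ring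
        _ ≤ _ := Y2_exp_bound β L hβ hL0
    have hB : ‖WIN (fun n => ((x - Real.log n + ep n : ℝ) : ℂ) * c n) β (RS z N) t x‖
        ≤ C₁ / Real.log z := by
      refine le_trans ?_ (htb z N x hz hx0 hxz).1
      unfold WIN
      refine (norm_sum_le _ _).trans (Finset.sum_le_sum fun k hk => ?_)
      have hk1 := Y2_mem.1 hk
      have hep := ep_nonneg k (by omega)
      rw [norm_mul, norm_mul, norm_mul, Y2_ph_norm, mul_one, Complex.norm_real, Complex.norm_real,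
        Real.norm_eq_abs, Real.norm_eq_abs,
        abs_of_nonneg (div_nonneg (Y2_gs_nonneg _ _ _) (Nat.cast_nonneg k))]
      rw [mul_div_assoc]
      apply mul_le_mul_of_nonneg_right _ (div_nonneg (Y2_gs_nonneg _ _ _) (Nat.cast_nonneg k))
      have h5 : |x - Real.log k + ep k| ≤ |x - Real.log k| + ep k := by
        refine (abs_add_le _ _).trans ?_
        rw [abs_of_nonneg hep]
      calc |x - Real.log k + ep k| * ‖c k‖ ≤ |x - Real.log k + ep k| * 1 :=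
            mul_le_mul_of_nonneg_left (hc1 k) (abs_nonneg _)
        _ ≤ _ := by rw [mul_one]; exact h5
    set P := (x : ℂ) * WIN c β (RS z N) t x - WIN (fun n => ((lp n : ℝ) : ℂ) * c n) β (RS z N) t x
        - BW (fun n => ((lp n : ℝ) : ℂ) * c n) c (RS z N) (RS z N) β t x with hP
    set Q := WIN (fun n => ((x - Real.log n + ep n : ℝ) : ℂ) * c n) β (RS z N) t x with hQ
    calc ‖P‖ = ‖(P - Q) + Q‖ := by rw [sub_add_cancel]
      _ ≤ ‖P - Q‖ + ‖Q‖ := norm_add_le _ _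
      _ ≤ 8 * (1 + 32 / β ^ 2) / Real.log z + C₁ / Real.log z := add_le_add (hA.trans hA') hB
      _ = _ := by rw [← add_div]

end Pool.Agent.E3
end
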