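import Pool.Agent.Lib.MP_bae66e_nt.Mg.G008
import Pool.Agent.Lib.MP_bae66e_nt.Mg.G011

section

/-!
# M5: windows in residue classes
-/

set_option autoImplicit false

namespace Pool.Agent.E3

open Finset MeasureTheory Real
open Pool.Agent.Lib.MP_bae66e_nt.AP3 (prI mem_prI)

private lemma M5_orth (W c n : ℕ) (hW : 1 ≤ W) (hc : Nat.Coprime c W) :
    ∑ χ : DirichletCharacter ℂ W, χ ((c : ZMod W)⁻¹) * ch χ n =
      if n ≡ c [MOD W] then (Nat.totient W : ℂ) else 0 := by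
  have : NeZero W := ⟨by omega⟩
  have hu : IsUnit (c : ZMod W) := (ZMod.isUnit_iff_coprime c W).2 hc
  have h := DirichletCharacter.sum_char_inv_mul_char_eq ℂ hu (n : ZMod W)
  unfold ch
  rw [h]
  by_cases hn : n ≡ c [MOD W]
  · rw [if_pos hn, if_pos ((ZMod.natCast_eq_natCast_iff c n W).2 hn.symm)]
  · rw [if_neg hn, if_neg (fun h => hn ((ZMod.natCast_eq_natCast_iff c n W).1 h).symm)]

/-- PROOF. Orthogonality (`DirichletCharacter.sum_char_inv_mul_char_eq`): for `v` coprime to `W`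
`∑_χ χ(v⁻¹) ch χ n = φ(W)` if `n ≡ v [MOD W]`, and `0` otherwise. -/
theorem WV_eq (W v : ℕ) (hW : 1 ≤ W) (hv : Nat.Coprime v W) (R₁ R₂ X : ℕ) (d x : ℝ) :
    ((WV W v R₁ R₂ X d x : ℝ) : ℂ)
      = 1 / (Nat.totient W : ℂ) * ∑ χ : DirichletCharacter ℂ W, χ ((v : ZMod W)⁻¹) * WX χ R₁ R₂ X d x := by
  have hW0 : (Nat.totient W : ℂ) ≠ 0 := by exact_mod_cast (Nat.totient_pos.2 hW).ne'
  have h1 : ∑ χ : DirichletCharacter ℂ W, χ ((v : ZMod W)⁻¹) * WX χ R₁ R₂ X d x =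
      ∑ s ∈ SS R₁ R₂, ∑ q ∈ QS X,
        (∑ χ : DirichletCharacter ℂ W, χ ((v : ZMod W)⁻¹) * ch χ (s * q)) *
          ((om (YG R₁ R₂ X) q / (s * q) * gsn d (x - Real.log (s * q)) : ℝ) : ℂ) := by
    unfold WX
    simp only [Finset.mul_sum, Finset.sum_mul]
    rw [Finset.sum_comm]
    refine sum_congr rfl fun s _ => ?_
    rw [Finset.sum_comm]
    refine sum_congr rfl fun q _ => ?_
    refine sum_congr rfl fun χ _ => ?_
    ring
  rw [h1, Finset.mul_sum]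
  unfold WV
  rw [Complex.ofReal_sum]
  refine sum_congr rfl fun s _ => ?_
  rw [Finset.sum_filter, Complex.ofReal_sum, Finset.mul_sum]
  refine sum_congr rfl fun q _ => ?_
  rw [M5_orth W v (s * q) hW hv]
  by_cases hn : s * q ≡ v [MOD W]
  · rw [if_pos hn, if_pos hn, ← mul_assoc, one_div, inv_mul_cancel₀ hW0, one_mul]
  · rw [if_neg hn, if_neg hn]
    simp

private lemma M5_cont (W v : ℕ) (R₁ R₂ X : ℕ) (w : ℝ) : Continuous (fun x : ℝ => WV W v R₁ R₂ X w x) := by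
  unfold WV
  refine continuous_finsetSum _ fun s _ => continuous_finsetSum _ fun q _ => ?_
  unfold gsn
  fun_prop

/-- PROOF. `WV_eq` and Cauchy's inequality: `(WV d - WV l)² ≤ (1/φ(W)) ∑_χ ‖WX χ d - WX χ l‖²` (there are `φ(W)` characters,
`‖χ(v⁻¹)‖ ≤ 1`); integrate with the hypothesis; integrability by `WX_planch` (and continuity of `WV`). -/
theorem class_window_g (W v : ℕ) (hW : 1 ≤ W) (hv : Nat.Coprime v W) (R₁ R₂ X : ℕ) (d l B : ℝ) (hd : 0 < d) (hl : 0 < l)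
    (hR : 2 * R₁ ≤ R₂)
    (h : ∀ χ : DirichletCharacter ℂ W, ∫ x : ℝ, ‖WX χ R₁ R₂ X d x - WX χ R₁ R₂ X l x‖ ^ 2 ≤ B) :
    Integrable (fun x : ℝ => (WV W v R₁ R₂ X d x - WV W v R₁ R₂ X l x) ^ 2) ∧
    ∫ x : ℝ, (WV W v R₁ R₂ X d x - WV W v R₁ R₂ X l x) ^ 2 ≤ B := by
  have : NeZero W := ⟨by omega⟩
  have hφ : (0 : ℝ) < (Nat.totient W : ℝ) := by exact_mod_cast Nat.totient_pos.2 hW
  have hcard : (Fintype.card (DirichletCharacter ℂ W) : ℝ) = (Nat.totient W : ℝ) := by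
    rw [← Nat.card_eq_fintype_card, DirichletCharacter.card_eq_totient_of_hasEnoughRootsOfUnity ℂ W]
  have heq : ∀ x : ℝ, ((WV W v R₁ R₂ X d x - WV W v R₁ R₂ X l x : ℝ) : ℂ) =
      1 / (Nat.totient W : ℂ) * ∑ χ : DirichletCharacter ℂ W,
        χ ((v : ZMod W)⁻¹) * (WX χ R₁ R₂ X d x - WX χ R₁ R₂ X l x) := by
    intro x
    rw [Complex.ofReal_sub, WV_eq W v hW hv, WV_eq W v hW hv, ← mul_sub, ← Finset.sum_sub_distrib]
    congr 1
    exact sum_congr rfl fun χ _ => (mul_sub _ _ _).symm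
  have hpt : ∀ x : ℝ, (WV W v R₁ R₂ X d x - WV W v R₁ R₂ X l x) ^ 2 ≤
      1 / (Nat.totient W : ℝ) * ∑ χ : DirichletCharacter ℂ W, ‖WX χ R₁ R₂ X d x - WX χ R₁ R₂ X l x‖ ^ 2 := by
    intro x
    have h1 : (WV W v R₁ R₂ X d x - WV W v R₁ R₂ X l x) ^ 2 =
        ‖((WV W v R₁ R₂ X d x - WV W v R₁ R₂ X l x : ℝ) : ℂ)‖ ^ 2 := by
      rw [Complex.norm_real, Real.norm_eq_abs, sq_abs]
    have h2 : ‖((WV W v R₁ R₂ X d x - WV W v R₁ R₂ X l x : ℝ) : ℂ)‖ ≤
        1 / (Nat.totient W : ℝ) * ∑ χ : DirichletCharacter ℂ W, ‖WX χ R₁ R₂ X d x - WX χ R₁ R₂ X l x‖ := by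
      rw [heq, norm_mul]
      have h3 : ‖(1 / (Nat.totient W : ℂ))‖ = 1 / (Nat.totient W : ℝ) := by
        rw [norm_div, norm_one, Complex.norm_natCast]
      rw [h3]
      refine mul_le_mul_of_nonneg_left ?_ (by positivity)
      refine (norm_sum_le _ _).trans (sum_le_sum fun χ _ => ?_)
      rw [norm_mul]
      exact mul_le_of_le_one_left (norm_nonneg _) (DirichletCharacter.norm_le_one χ _)
    have h4 : (∑ χ : DirichletCharacter ℂ W, ‖WX χ R₁ R₂ X d x - WX χ R₁ R₂ X l x‖) ^ 2 ≤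
        (Nat.totient W : ℝ) * ∑ χ : DirichletCharacter ℂ W, ‖WX χ R₁ R₂ X d x - WX χ R₁ R₂ X l x‖ ^ 2 := by
      rw [← hcard]
      exact sq_sum_le_card_mul_sum_sq
    rw [h1]
    calc ‖((WV W v R₁ R₂ X d x - WV W v R₁ R₂ X l x : ℝ) : ℂ)‖ ^ 2
        ≤ (1 / (Nat.totient W : ℝ) *
            ∑ χ : DirichletCharacter ℂ W, ‖WX χ R₁ R₂ X d x - WX χ R₁ R₂ X l x‖) ^ 2 :=
          pow_le_pow_left₀ (norm_nonneg _) h2 2
      _ = (1 / (Nat.totient W : ℝ)) ^ 2 *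
            (∑ χ : DirichletCharacter ℂ W, ‖WX χ R₁ R₂ X d x - WX χ R₁ R₂ X l x‖) ^ 2 := by
          rw [mul_pow]
      _ ≤ (1 / (Nat.totient W : ℝ)) ^ 2 *
          ((Nat.totient W : ℝ) *
            ∑ χ : DirichletCharacter ℂ W, ‖WX χ R₁ R₂ X d x - WX χ R₁ R₂ X l x‖ ^ 2) :=
          mul_le_mul_of_nonneg_left h4 (by positivity)
      _ = 1 / (Nat.totient W : ℝ) *
            ∑ χ : DirichletCharacter ℂ W, ‖WX χ R₁ R₂ X d x - WX χ R₁ R₂ X l x‖ ^ 2 := by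
          field_simp
  have hIχ : ∀ χ : DirichletCharacter ℂ W,
      Integrable (fun x : ℝ => ‖WX χ R₁ R₂ X d x - WX χ R₁ R₂ X l x‖ ^ 2) :=
    fun χ => (WX_planch χ R₁ R₂ X d l hd hl hR).1
  have hIs : Integrable (fun x : ℝ => 1 / (Nat.totient W : ℝ) *
      ∑ χ : DirichletCharacter ℂ W, ‖WX χ R₁ R₂ X d x - WX χ R₁ R₂ X l x‖ ^ 2) :=
    (integrable_finsetSum _ fun χ _ => hIχ χ).const_mul _
  have hI : Integrable (fun x : ℝ => (WV W v R₁ R₂ X d x - WV W v R₁ R₂ X l x) ^ 2) := by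
    refine hIs.mono' (((M5_cont W v R₁ R₂ X d).sub (M5_cont W v R₁ R₂ X l)).pow 2).aestronglyMeasurable
      (Filter.Eventually.of_forall fun x => ?_)
    rw [Real.norm_of_nonneg (sq_nonneg _)]
    exact hpt x
  refine ⟨hI, ?_⟩
  calc ∫ x : ℝ, (WV W v R₁ R₂ X d x - WV W v R₁ R₂ X l x) ^ 2
      ≤ ∫ x : ℝ, 1 / (Nat.totient W : ℝ) *
          ∑ χ : DirichletCharacter ℂ W, ‖WX χ R₁ R₂ X d x - WX χ R₁ R₂ X l x‖ ^ 2 :=
        integral_mono hI hIs hpt
    _ = 1 / (Nat.totient W : ℝ) *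
          ∑ χ : DirichletCharacter ℂ W, ∫ x : ℝ, ‖WX χ R₁ R₂ X d x - WX χ R₁ R₂ X l x‖ ^ 2 := by
        rw [integral_const_mul, integral_finsetSum _ fun χ _ => hIχ χ]
    _ ≤ 1 / (Nat.totient W : ℝ) * ∑ χ : DirichletCharacter ℂ W, B :=
        mul_le_mul_of_nonneg_left (sum_le_sum fun χ _ => h χ) (by positivity)
    _ = B := by
        rw [Finset.sum_const, nsmul_eq_mul, Finset.card_univ, hcard]
        field_simp

/-- PROOF. Cauchy-Schwarz on the interval of length `2`. -/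
theorem class_window_L1 (W v : ℕ) (R₁ R₂ X : ℕ) (d l B y : ℝ) (hd : 0 < d) (hl : 0 < l)
    (hi : Integrable (fun x : ℝ => (WV W v R₁ R₂ X d x - WV W v R₁ R₂ X l x) ^ 2))
    (h : ∫ x : ℝ, (WV W v R₁ R₂ X d x - WV W v R₁ R₂ X l x) ^ 2 ≤ B) :
    IntegrableOn (fun x : ℝ => |WV W v R₁ R₂ X d x - WV W v R₁ R₂ X l x|) (Set.Icc (y - 1) (y + 1)) ∧
    ∫ x in Set.Icc (y - 1) (y + 1), |WV W v R₁ R₂ X d x - WV W v R₁ R₂ X l x| ≤ Real.sqrt (2 * B) := by
  set f : ℝ → ℝ := fun x => WV W v R₁ R₂ X d x - WV W v R₁ R₂ X l x with hf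
  have hcont : Continuous f := (M5_cont W v R₁ R₂ X d).sub (M5_cont W v R₁ R₂ X l)
  have hI1 : IntegrableOn (fun x : ℝ => |f x|) (Set.Icc (y - 1) (y + 1)) :=
    hcont.abs.continuousOn.integrableOn_compact isCompact_Icc
  have hI2 : IntegrableOn (fun x : ℝ => (f x) ^ 2) (Set.Icc (y - 1) (y + 1)) :=
    (hcont.pow 2).continuousOn.integrableOn_compact isCompact_Icc
  refine ⟨hI1, ?_⟩
  have hvol : volume.real (Set.Icc (y - 1) (y + 1)) = 2 := by
    rw [Real.volume_real_Icc_of_le (by linarith)]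
    ring
  have hB : ∫ x in Set.Icc (y - 1) (y + 1), (f x) ^ 2 ≤ B :=
    (setIntegral_le_integral hi (Filter.Eventually.of_forall fun x => sq_nonneg _)).trans h
  set A : ℝ := ∫ x in Set.Icc (y - 1) (y + 1), |f x| with hA
  have hA0 : 0 ≤ A := integral_nonneg fun x => abs_nonneg _
  -- `0 ≤ ∫ (|f| - A/2)²`
  have hkey : 0 ≤ ∫ x in Set.Icc (y - 1) (y + 1), (|f x| - A / 2) ^ 2 :=
    integral_nonneg fun x => sq_nonneg _
  have hexp : ∫ x in Set.Icc (y - 1) (y + 1), (|f x| - A / 2) ^ 2 =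
      (∫ x in Set.Icc (y - 1) (y + 1), (f x) ^ 2) - A * A + (A / 2) ^ 2 * 2 := by
    have h1 : ∀ x, (|f x| - A / 2) ^ 2 = (f x) ^ 2 - A * |f x| + (A / 2) ^ 2 := by
      intro x
      rw [sub_sq, sq_abs]
      ring
    simp only [h1]
    have hI3 : IntegrableOn (fun x : ℝ => A * |f x|) (Set.Icc (y - 1) (y + 1)) := hI1.const_mul A
    have hI4 : IntegrableOn (fun x : ℝ => (f x) ^ 2 - A * |f x|) (Set.Icc (y - 1) (y + 1)) :=
      hI2.sub hI3
    have hI5 : IntegrableOn (fun _ : ℝ => (A / 2) ^ 2) (Set.Icc (y - 1) (y + 1)) :=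
      integrableOn_const (by simp)
    have e1 : ∫ x in Set.Icc (y - 1) (y + 1), ((f x) ^ 2 - A * |f x| + (A / 2) ^ 2) =
        (∫ x in Set.Icc (y - 1) (y + 1), ((f x) ^ 2 - A * |f x|)) +
          ∫ _x in Set.Icc (y - 1) (y + 1), (A / 2) ^ 2 := integral_add hI4 hI5
    have e2 : ∫ x in Set.Icc (y - 1) (y + 1), ((f x) ^ 2 - A * |f x|) =
        (∫ x in Set.Icc (y - 1) (y + 1), (f x) ^ 2) - ∫ x in Set.Icc (y - 1) (y + 1), A * |f x| :=
      integral_sub hI2 hI3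
    rw [e1, e2, integral_const_mul, setIntegral_const, hvol, ← hA, smul_eq_mul]
    ring
  rw [hexp] at hkey
  refine Real.le_sqrt_of_sq_le ?_
  nlinarith

end Pool.Agent.E3
end

section

/-!
# M7: from the Dirichlet polynomial to short intervals, general parameters
-/

set_option autoImplicit false

namespace Pool.Agent.E3

open Finset MeasureTheory Real
open Pool.Agent.Lib.MP_bae66e_nt.AP3 (prI mem_prI)

/-- PROOF. `fS n = ∑_s ∑_q [s q = n] om q`; exchange the sums. -/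
theorem sum_fS (R₁ R₂ X W v H m : ℕ) (Y : ℝ) :
    ∑ n ∈ (Ico (m - H) m).filter (fun n => n ≡ v [MOD W]), fS (SS R₁ R₂) Y X n
      = ∑ p ∈ ((SS R₁ R₂ ×ˢ QS X).filter (fun p => p.1 * p.2 ≡ v [MOD W])) with
          p.1 * p.2 ∈ Ico (m - H) m, om Y p.2 := by
  unfold fS
  rw [Finset.sum_comm, Finset.filter_filter, Finset.sum_filter, Finset.sum_product]
  refine sum_congr rfl fun s _ => ?_
  rw [Finset.sum_comm]
  refine sum_congr rfl fun q _ => ?_
  rw [Finset.sum_ite_eq]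
  by_cases h : s * q ∈ (Ico (m - H) m).filter (fun n => n ≡ v [MOD W])
  · rw [if_pos h, if_pos]
    rw [Finset.mem_filter] at h
    exact ⟨h.2, h.1⟩
  · rw [if_neg h, if_neg]
    intro h2
    exact h (Finset.mem_filter.2 ⟨h2.2, h2.1⟩)

private lemma M7_om_nonneg (Y : ℝ) (q : ℕ) : 0 ≤ om Y q := (Real.exp_pos _).le

private lemma M7_one_le {R₁ R₂ X : ℕ} {p : ℕ × ℕ} (hp : p ∈ SS R₁ R₂ ×ˢ QS X) : 1 ≤ p.1 * p.2 := by
  rw [Finset.mem_product] at hp
  obtain ⟨h1, h2⟩ := hp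
  have h3 : 0 < p.1 := by
    unfold SS at h1
    rw [Finset.mem_image] at h1
    obtain ⟨r, hr, hr2⟩ := h1
    rw [Finset.mem_product] at hr
    unfold IS at hr
    rw [mem_prI, mem_prI] at hr
    rw [← hr2]
    exact Nat.mul_pos (by omega) (by omega)
  have h4 : 0 < p.2 := by
    unfold QS at h2
    rw [mem_prI] at h2
    omega
  exact Nat.mul_pos h3 h4

/-- One `X`. PROOF. Let `F = FG R₁ R₂ X`, `d = H/(K X)`, `E x = |WV d x - WV l x|`, `B = c₁ F/φ(W)`. `class_window_L1` with `y = log X`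
gives `∫_I E ≤ √(2 η F²) = √(2η) F`. `hpap` gives `B ≤ WV l x ≤ WV d x + E x` on `I = [log X - 1, log X + 1]`. Apply `win_to_m` to
`P = (SS ×ˢ QS X).filter (· ≡ v)`, `n p = p.1 p.2`, `u p = om p.2`, `M = C F` (`mass_g`; a subset of nonnegative terms): with
`sum_fS` the number of the bad `m` (`∑ < H B/50`) is `≤ X φ(W)/(c₁ F) (32 √(2η) F + 130 exp (- K²/576) C F)`. `C` is the constant of
`mass_g`, and `P` is a filter of a product: the sum over `P` of `om/(s q) gsn` is `WV d x`. -/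
theorem winb_one : ∃ C : ℝ, 1 ≤ C ∧ ∀ (R₁ R₂ X H W v : ℕ) (K l η c₁ : ℝ), PG R₁ R₂ X → 1 ≤ H → 100 * H ≤ X → 1 ≤ W →
    Nat.Coprime v W → 1 ≤ K → 0 < l → 0 ≤ η → 0 < c₁ →
    (∀ χ : DirichletCharacter ℂ W,
      ∫ x : ℝ, ‖WX χ R₁ R₂ X (H / (K * X)) x - WX χ R₁ R₂ X l x‖ ^ 2 ≤ η * (FG R₁ R₂ X) ^ 2) →
    (∀ x : ℝ, |x - Real.log X| ≤ 1 → c₁ * FG R₁ R₂ X / Nat.totient W ≤ WV W v R₁ R₂ X l x) →
    (#{m ∈ Icc X (2 * X) | ∑ n ∈ (Ico (m - H) m).filter (fun n => n ≡ v [MOD W]), fS (SS R₁ R₂) (YG R₁ R₂ X) X n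
        < c₁ / 50 * H * FG R₁ R₂ X / Nat.totient W} : ℝ)
      ≤ X * (Nat.totient W / c₁) * (32 * Real.sqrt (2 * η) + 130 * Real.exp (-(K ^ 2 / 576)) * C) := by
  obtain ⟨C, hC, hmass⟩ := mass_g
  refine ⟨C, hC, fun R₁ R₂ X H W v K l η c₁ hPG hH hHX hW hv hK hl hη hc₁ hχ hpap => ?_⟩
  set F : ℝ := FG R₁ R₂ X with hF
  set Y : ℝ := YG R₁ R₂ X with hY
  have hF0 : 0 < F := hPG.pos
  have hφ : (0 : ℝ) < (Nat.totient W : ℝ) := by exact_mod_cast Nat.totient_pos.2 hW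
  have hX0 : (0 : ℝ) < (X : ℝ) := by exact_mod_cast (by omega : 0 < X)
  have hH0 : (0 : ℝ) < (H : ℝ) := by exact_mod_cast (by omega : 0 < H)
  have hd : (0 : ℝ) < (H : ℝ) / (K * X) := by positivity
  obtain ⟨hi, hint⟩ := class_window_g W v hW hv R₁ R₂ X (H / (K * X)) l (η * F ^ 2) hd hl hPG.R2 hχ
  obtain ⟨hEi, hEη⟩ := class_window_L1 W v R₁ R₂ X (H / (K * X)) l (η * F ^ 2) (Real.log X) hd hl hi hint
  have hsq : Real.sqrt (2 * (η * F ^ 2)) = Real.sqrt (2 * η) * F := by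
    rw [← mul_assoc, Real.sqrt_mul (by positivity), Real.sqrt_sq hF0.le]
  rw [hsq] at hEη
  have hB : 0 < c₁ * F / Nat.totient W := by positivity
  have hsum : ∀ x : ℝ, ∑ p ∈ (SS R₁ R₂ ×ˢ QS X).filter (fun p => p.1 * p.2 ≡ v [MOD W]),
      om Y p.2 / ((p.1 * p.2 : ℕ) : ℝ) * gsn (H / (K * X)) (x - Real.log ((p.1 * p.2 : ℕ) : ℝ)) =
      WV W v R₁ R₂ X (H / (K * X)) x := by
    intro x
    unfold WV
    rw [Finset.sum_filter, Finset.sum_product]
    refine sum_congr rfl fun s _ => ?_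
    rw [Finset.sum_filter]
    refine sum_congr rfl fun q _ => ?_
    simp only [Nat.cast_mul]
    rfl
  have hM : ∑ p ∈ (SS R₁ R₂ ×ˢ QS X).filter (fun p => p.1 * p.2 ≡ v [MOD W]),
      om Y p.2 / ((p.1 * p.2 : ℕ) : ℝ) ≤ C * F := by
    refine le_trans (Finset.sum_le_sum_of_subset_of_nonneg (Finset.filter_subset _ _) fun p _ _ => ?_) ?_
    · exact div_nonneg (M7_om_nonneg _ _) (Nat.cast_nonneg _)
    · rw [Finset.sum_product]
      simp only [Nat.cast_mul]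
      exact hmass R₁ R₂ X hPG
  have key := win_to_m ((SS R₁ R₂ ×ˢ QS X).filter (fun p => p.1 * p.2 ≡ v [MOD W]))
    (fun p => p.1 * p.2) (fun p => om Y p.2) H X K (c₁ * F / Nat.totient W) (Real.sqrt (2 * η) * F) (C * F)
    (fun x => |WV W v R₁ R₂ X (H / (K * X)) x - WV W v R₁ R₂ X l x|)
    (fun p hp => M7_one_le (Finset.mem_filter.1 hp).1) (fun p _ => M7_om_nonneg _ _) hH hHX hK hB
    (fun x => abs_nonneg _) hEi hEη hM ?_
  · refine le_trans ?_ (le_of_le_of_eq key ?_)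
    · refine Nat.cast_le.2 (Finset.card_le_card fun m hm => ?_)
      rw [Finset.mem_filter] at hm ⊢
      refine ⟨hm.1, ?_⟩
      have h2 := hm.2
      rw [sum_fS] at h2
      have h3 : c₁ / 50 * H * F / Nat.totient W = H * (c₁ * F / Nat.totient W) / 50 := by ring
      rw [h3] at h2
      convert h2 using 3
    · field_simp
  · intro x hx
    have h1 : |x - Real.log X| ≤ 1 := by
      rw [abs_le]
      constructor
      · linarith [hx.1]
      · linarith [hx.2]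
    have h2 := hpap x h1
    have h3 := neg_abs_le (WV W v R₁ R₂ X (H / (K * X)) x - WV W v R₁ R₂ X l x)
    have h4 := hsum x
    rw [h4]
    linarith

end Pool.Agent.E3
end

section

/-!
# T1: dyadic blocks of the sums of `χ(k) k ^ (- i u)`
-/

set_option autoImplicit false

namespace Pool.Agent.E3

open Finset MeasureTheory Real
open Pool.Agent.MC (ee)

private lemma T1_norm_ph (u x : ℝ) : ‖ph u x‖ = 1 := by
  unfold ph
  exact Complex.norm_exp_ofReal_mul_I _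

private lemma T1_ph_add (u x y : ℝ) : ph u (x + y) = ph u x * ph u y := by
  unfold ph
  rw [← Complex.exp_add]
  congr 1
  push_cast
  ring

private lemma T1_lt (W K a m : ℕ) (hW : 1 ≤ W) (ha : a < W) :
    (K + W - a) / W ≤ m ↔ K < W * m + a := by
  rw [Nat.div_le_iff_le_mul_add_pred (by omega)]
  omega

private lemma T1_class (W K K' a : ℕ) (hW : 1 ≤ W) (ha : a < W) (f : ℕ → ℂ) :
    ∑ k ∈ (Ioc K K').filter (fun k => k % W = a), f k =
      ∑ m ∈ Ico ((K + W - a) / W) ((K' + W - a) / W), f (W * m + a) := by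
  refine Finset.sum_bij' (fun k _ => k / W) (fun m _ => W * m + a) ?_ ?_ ?_ ?_ ?_
  · intro k hk
    rw [mem_filter, mem_Ioc] at hk
    obtain ⟨⟨h1, h2⟩, h3⟩ := hk
    have h4 : W * (k / W) + a = k := by
      have := Nat.div_add_mod k W
      omega
    rw [mem_Ico]
    refine ⟨(T1_lt W K a _ hW ha).mpr (by omega), ?_⟩
    by_contra h5
    have h6 := (T1_lt W K' a _ hW ha).mp (not_lt.mp h5)
    omega
  · intro m hm
    rw [mem_Ico] at hm
    obtain ⟨h1, h2⟩ := hm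
    rw [mem_filter, mem_Ioc]
    refine ⟨⟨(T1_lt W K a _ hW ha).mp h1, ?_⟩, ?_⟩
    · by_contra h5
      have h6 := (T1_lt W K' a m hW ha).mpr (not_le.mp h5)
      omega
    · rw [Nat.mul_add_mod, Nat.mod_eq_of_lt ha]
  · intro k hk
    rw [mem_filter, mem_Ioc] at hk
    have := Nat.div_add_mod k W
    omega
  · intro m hm
    show (W * m + a) / W = m
    rw [Nat.mul_add_div (by omega), Nat.div_eq_of_lt ha, add_zero]
  · intro k hk
    rw [mem_filter, mem_Ioc] at hk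
    have h4 : W * (k / W) + a = k := by
      have := Nat.div_add_mod k W
      omega
    rw [h4]

private lemma T1_m (W K K' a : ℕ) (hW : 1 ≤ W) (ha : a < W) (hK : K' ≤ 2 * K) :
    (K' + W - a) / W ≤ 2 * ((K + W - a) / W) + 1 := by
  set q := (K + W - a) / W with hq
  have h1 : K + W - a < W * (q + 1) := by
    rw [mul_comm]
    exact Nat.lt_mul_of_div_lt (by omega) (by omega)
  have h2 : K' + W - a < (2 * q + 2) * W := by
    have h3 : (2 * q + 2) * W = 2 * (W * (q + 1)) := by ring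
    rw [h3]
    omega
  have h4 : (K' + W - a) / W < 2 * q + 2 := Nat.div_lt_of_lt_mul (by rw [mul_comm]; exact h2)
  omega

/-- PROOF. `expsum_all (2 A)` gives `c, C`. Split into residue classes: `k = W m + a`, `0 ≤ a < W`, `χ k = χ a`,
`ph u (log k) = ph u (log W) ph u (log (m + a / W))`. For fixed `a` the condition `K < k ≤ K'` is
`m₀ ≤ m < m₁`; put `N = max 1 m₀`. Since `K' ≤ 2 K` one has `m₁ - m₀ ≤ K / W + 1 ≤ m₀ + 2`; the first `N`
terms (or fewer) are treated by `expsum_all` with `θ = a / W` (`m = N + n`), the at most `3` other terms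
trivially. `K / W - 1 ≤ N ≤ K + 1`; if `K ≥ K₀(W)` then `N ≥ √K`, so `|u| ≤ K^A ≤ N^(2A)`. The case
`K < K₀(W)` is trivial (bound `K₀`). Constants: `W` classes, each `≤ C (N^(1-c) + N / |u|) + 3`; and
`3 ≤ 3 K^(1-c)`, `c ≤ 1`. -/
theorem block_sum (A : ℕ) (hA : 1 ≤ A) : ∃ c : ℝ, 0 < c ∧ c ≤ 1 ∧ ∀ W : ℕ, 1 ≤ W → ∃ C : ℝ, 1 ≤ C ∧
    ∀ (χ : ℕ → ℂ), (∀ n, χ (n + W) = χ n) → (∀ n, ‖χ n‖ ≤ 1) →
    ∀ (K K' : ℕ) (u : ℝ), 1 ≤ K → K ≤ K' → K' ≤ 2 * K → 1 ≤ |u| → |u| ≤ (K : ℝ) ^ (A : ℝ) →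
      ‖∑ k ∈ Ioc K K', χ k * ph u (Real.log k)‖ ≤ C * ((K : ℝ) ^ (1 - c) + K / |u|) := by
  obtain ⟨c, C, hc0, hc1, hC1, hC⟩ := expsum_all (2 * A) (by omega)
  refine ⟨c, hc0, hc1, fun W hW => ?_⟩
  have hWr : (1 : ℝ) ≤ W := by exact_mod_cast hW
  refine ⟨W * (2 * C + 1) + 4 * W ^ 2, by nlinarith, ?_⟩
  intro χ hper hbd K K' u hK hKK' hK2 hu huA
  have hKr : (1 : ℝ) ≤ K := by exact_mod_cast hK
  have hu0 : 0 < |u| := by linarith
  have hKc : 1 ≤ (K : ℝ) ^ (1 - c) := Real.one_le_rpow hKr (by linarith)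
  have hKu : 0 ≤ (K : ℝ) / |u| := by positivity
  have hterm : ∀ k : ℕ, ‖χ k * ph u (Real.log k)‖ ≤ 1 := by
    intro k
    rw [norm_mul, T1_norm_ph, mul_one]
    exact hbd k
  by_cases hsmall : K < 4 * W ^ 2
  · have h1 : ‖∑ k ∈ Ioc K K', χ k * ph u (Real.log k)‖ ≤ (K : ℝ) := by
      refine (norm_sum_le _ _).trans ?_
      refine (Finset.sum_le_sum fun k _ => hterm k).trans ?_
      rw [sum_const, Nat.card_Ioc, nsmul_eq_mul, mul_one]
      exact_mod_cast (by omega : K' - K ≤ K)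
    have h2 : (K : ℝ) ≤ 4 * W ^ 2 := by
      have h3 : (K : ℝ) < ((4 * W ^ 2 : ℕ) : ℝ) := by exact_mod_cast hsmall
      push_cast at h3
      linarith
    refine h1.trans (h2.trans ?_)
    have h4 : (0 : ℝ) ≤ 4 * W ^ 2 := by positivity
    have h5 : (0 : ℝ) ≤ W * (2 * C + 1) := by positivity
    nlinarith [mul_nonneg h4 hKu, mul_nonneg h5 hKu, mul_nonneg h5 (by linarith : (0 : ℝ) ≤ (K : ℝ) ^ (1 - c)),
      mul_le_mul_of_nonneg_left hKc h4]
  push Not at hsmall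
  have hmod : ∀ a m : ℕ, χ (W * m + a) = χ a := by
    intro a m
    induction m with
    | zero => rw [mul_zero, zero_add]
    | succ m ih =>
      have h1 : W * (m + 1) + a = (W * m + a) + W := by ring
      rw [h1, hper, ih]
  have hsplit : ∑ k ∈ Ioc K K', χ k * ph u (Real.log k) =
      ∑ a ∈ range W, ∑ m ∈ Ico ((K + W - a) / W) ((K' + W - a) / W),
        χ (W * m + a) * ph u (Real.log ((W * m + a : ℕ) : ℝ)) := by
    rw [← Finset.sum_fiberwise_of_maps_to (s := Ioc K K') (t := range W) (g := fun k => k % W)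
      (fun k _ => mem_range.mpr (Nat.mod_lt _ (by omega)))]
    refine Finset.sum_congr rfl fun a ha => ?_
    exact T1_class W K K' a hW (mem_range.mp ha) fun k => χ k * ph u (Real.log k)
  have hclass : ∀ a ∈ range W, ‖∑ m ∈ Ico ((K + W - a) / W) ((K' + W - a) / W),
        χ (W * m + a) * ph u (Real.log ((W * m + a : ℕ) : ℝ))‖ ≤
      C * (2 * (K : ℝ) ^ (1 - c) + 2 * (K / |u|)) + 1 := by
    intro a ha
    have haW : a < W := mem_range.mp ha
    set m₀ := (K + W - a) / W with hm₀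
    set m₁ := (K' + W - a) / W with hm₁
    have hm : m₁ ≤ 2 * m₀ + 1 := T1_m W K K' a hW haW hK2
    have hWm : K < W * m₀ + a := (T1_lt W K a m₀ hW haW).mp le_rfl
    have hm₀K : m₀ ≤ 2 * K := by
      have h1 : m₀ ≤ (K + W) / W := Nat.div_le_div_right (by omega)
      rw [Nat.add_div_right _ (by omega)] at h1
      have h2 : K / W ≤ K := Nat.div_le_self _ _
      omega
    have hm₀r : ((K : ℝ)) / W - 1 ≤ m₀ := by
      rw [sub_le_iff_le_add, div_le_iff₀ (by linarith)]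
      have h1 : (K : ℝ) < W * m₀ + a := by exact_mod_cast hWm
      have h2 : (a : ℝ) ≤ W := by exact_mod_cast haW.le
      nlinarith
    have hsq : Real.sqrt K ≤ m₀ := by
      have h1 : 2 * (W : ℝ) ≤ Real.sqrt K := by
        refine Real.le_sqrt_of_sq_le ?_
        have h3 : ((4 * W ^ 2 : ℕ) : ℝ) ≤ K := by exact_mod_cast hsmall
        push_cast at h3
        nlinarith
      have h2 : Real.sqrt K * Real.sqrt K = K := Real.mul_self_sqrt (by linarith)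
      refine le_trans ?_ hm₀r
      rw [le_sub_iff_add_le, le_div_iff₀ (by linarith)]
      nlinarith
    have hm₀1 : 1 ≤ m₀ := by
      have h1 : (1 : ℝ) ≤ Real.sqrt K := Real.one_le_sqrt.mpr hKr
      have h2 : (1 : ℝ) ≤ m₀ := h1.trans hsq
      exact_mod_cast h2
    have hm₀r1 : (1 : ℝ) ≤ m₀ := by exact_mod_cast hm₀1
    have huN : |u| ≤ (m₀ : ℝ) ^ (((2 * A : ℕ)) : ℝ) := by
      refine huA.trans ?_
      have h1 : (K : ℝ) ≤ (m₀ : ℝ) ^ (2 : ℝ) := by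
        have h2 : Real.sqrt K * Real.sqrt K = K := Real.mul_self_sqrt (by linarith)
        rw [Real.rpow_two, sq]
        calc (K : ℝ) = Real.sqrt K * Real.sqrt K := h2.symm
          _ ≤ m₀ * m₀ := mul_le_mul hsq hsq (Real.sqrt_nonneg _) (by linarith)
      calc (K : ℝ) ^ (A : ℝ) ≤ ((m₀ : ℝ) ^ (2 : ℝ)) ^ (A : ℝ) :=
            Real.rpow_le_rpow (by linarith) h1 (by positivity)
        _ = (m₀ : ℝ) ^ (((2 * A : ℕ)) : ℝ) := by
            rw [← Real.rpow_mul (by linarith)]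
            push_cast
            rfl
    -- rewrite the terms
    have hF : ∀ n : ℕ, χ (W * (m₀ + n) + a) * ph u (Real.log ((W * (m₀ + n) + a : ℕ) : ℝ)) =
        χ a * ph u (Real.log W) * ph u (Real.log ((m₀ : ℝ) + n + (a : ℝ) / W)) := by
      intro n
      have h1 : ((W * (m₀ + n) + a : ℕ) : ℝ) = (W : ℝ) * ((m₀ : ℝ) + n + (a : ℝ) / W) := by
        push_cast
        field_simp
      have h2 : 0 < (m₀ : ℝ) + n + (a : ℝ) / W := by positivity
      rw [hmod, h1, Real.log_mul (by positivity) h2.ne', T1_ph_add, mul_assoc]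
    rw [Finset.sum_Ico_eq_sum_range]
    have hMle : m₁ - m₀ ≤ m₀ + 1 := by omega
    have hkey : ∀ M : ℕ, M ≤ m₀ → ‖∑ n ∈ range M, χ (W * (m₀ + n) + a) *
        ph u (Real.log ((W * (m₀ + n) + a : ℕ) : ℝ))‖ ≤
        C * (2 * (K : ℝ) ^ (1 - c) + 2 * (K / |u|)) := by
      intro M hM
      simp only [hF]
      rw [← Finset.mul_sum, norm_mul, norm_mul, T1_norm_ph, mul_one]
      have h1 := hC m₀ M ((a : ℝ) / W) u hm₀1 hM (by positivity)
        (by rw [div_le_one (by linarith)]; exact_mod_cast haW.le) hu huN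
      have h2 : (m₀ : ℝ) ^ (1 - c) ≤ 2 * (K : ℝ) ^ (1 - c) := by
        have h3 : (m₀ : ℝ) ≤ 2 * K := by exact_mod_cast hm₀K
        calc (m₀ : ℝ) ^ (1 - c) ≤ (2 * (K : ℝ)) ^ (1 - c) :=
              Real.rpow_le_rpow (by linarith) h3 (by linarith)
          _ = (2 : ℝ) ^ (1 - c) * (K : ℝ) ^ (1 - c) := Real.mul_rpow (by norm_num) (by linarith)
          _ ≤ 2 * (K : ℝ) ^ (1 - c) := by
              refine mul_le_mul_of_nonneg_right ?_ (by linarith)
              have h4 := Real.rpow_le_rpow_of_exponent_le (x := (2 : ℝ)) (by norm_num)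
                (by linarith : 1 - c ≤ 1)
              rwa [Real.rpow_one] at h4
      have h5 : (m₀ : ℝ) / |u| ≤ 2 * (K / |u|) := by
        rw [← mul_div_assoc]
        refine div_le_div_of_nonneg_right ?_ hu0.le
        exact_mod_cast hm₀K
      calc ‖χ a‖ * ‖∑ n ∈ range M, ph u (Real.log ((m₀ : ℝ) + n + (a : ℝ) / W))‖
          ≤ 1 * ‖∑ n ∈ range M, ph u (Real.log ((m₀ : ℝ) + n + (a : ℝ) / W))‖ :=
            mul_le_mul_of_nonneg_right (hbd a) (norm_nonneg _)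
        _ ≤ C * ((m₀ : ℝ) ^ (1 - c) + m₀ / |u|) := by rw [one_mul]; exact h1
        _ ≤ _ := mul_le_mul_of_nonneg_left (add_le_add h2 h5) (by linarith)
    rcases Nat.lt_or_ge m₀ (m₁ - m₀) with h | h
    · have h1 : m₁ - m₀ = m₀ + 1 := by omega
      rw [h1, sum_range_succ]
      refine (norm_add_le _ _).trans (add_le_add (hkey m₀ le_rfl) (hterm _))
    · refine (hkey _ h).trans ?_
      linarith
  rw [hsplit]
  refine (norm_sum_le _ _).trans ((Finset.sum_le_sum hclass).trans ?_)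
  rw [sum_const, card_range, nsmul_eq_mul]
  have h4 : (0 : ℝ) ≤ 4 * W ^ 2 := by positivity
  have h5 : (0 : ℝ) ≤ (K : ℝ) ^ (1 - c) + K / |u| := by linarith
  have h6 : C * (2 * (K : ℝ) ^ (1 - c) + 2 * (K / |u|)) + 1 ≤
      (2 * C + 1) * ((K : ℝ) ^ (1 - c) + K / |u|) := by nlinarith
  calc (W : ℝ) * (C * (2 * (K : ℝ) ^ (1 - c) + 2 * (K / |u|)) + 1)
      ≤ W * ((2 * C + 1) * ((K : ℝ) ^ (1 - c) + K / |u|)) :=
        mul_le_mul_of_nonneg_left h6 (by linarith)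
    _ ≤ (W * (2 * C + 1) + 4 * W ^ 2) * ((K : ℝ) ^ (1 - c) + K / |u|) := by
        nlinarith [mul_nonneg h4 h5]

end Pool.Agent.E3
end
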