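import Pool.Agent.Lib.MP_bae66e_nt.Mg.G032
import Pool.Agent.Lib.MP_bae66e_nt.Mg.G008
import Pool.Agent.Lib.MP_bae66e_nt.Mg.G009

section

/-!
# Row W1: the windows of the products `s q` (port of E3/B2, E3/M0, E3/M4 with one factor `PR` less)
-/

set_option autoImplicit false

namespace Pool.Agent.Lib.MP_bae66e_nt.E2

open Finset MeasureTheory Real
open Pool.Agent.E3
open Pool.Agent.Lib.MP_bae66e_nt.AP3 (prI mem_prI)

/-- PROOF. `R ≥ 1`. (Template: `PG.Yup`.) -/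
theorem PH.Yup {R X : ℕ} (h : PH R X) : YR R X ≤ X := by
  have h1 : (1 : ℝ) ≤ (R : ℝ) := by
    have h3 := h.R2
    exact_mod_cast (by omega : 1 ≤ R)
  exact div_le_self (Nat.cast_nonneg X) h1

private theorem W1_logs {R X : ℕ} (h : PH R X) : 0 < Real.log R ∧ 0 < Real.log X := by
  have h3 := h.R2
  have h5 := h.X8
  have e1 : (1 : ℝ) < R := by exact_mod_cast (by omega : 1 < R)
  have e3 : (1 : ℝ) < X := by exact_mod_cast (by omega : 1 < X)
  exact ⟨Real.log_pos e1, Real.log_pos e3⟩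

/-- PROOF. The logarithms are positive. -/
theorem PH.pos {R X : ℕ} (h : PH R X) : 0 < FR R X := by
  obtain ⟨h1, h2⟩ := W1_logs h
  unfold FR
  positivity

private theorem W1_ph_mul (t a b : ℝ) (ha : 0 < a) (hb : 0 < b) :
    ph t (Real.log a) * ph t (Real.log b) = ph t (Real.log (a * b)) := by
  unfold ph
  rw [← Complex.exp_add]
  congr 1
  rw [Real.log_mul ha.ne' hb.ne']
  push_cast
  ring

/-- PROOF. As `PRPRPQ_eq` (E3/B2): expand the product of the two sums; `ch χ` is multiplicative, `ph t (log r) ph t (log q) = ph t (log (r q))`. -/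
theorem PP_eq {W : ℕ} (χ : DirichletCharacter ℂ W) (R X : ℕ) (t : ℝ) :
    PP χ R X t = ∑ s ∈ IS R, ∑ q ∈ QS X,
      ch χ (s * q) * ((om (YR R X) q / (s * q) : ℝ) : ℂ) * ph t (Real.log (s * q)) := by
  unfold PP PR PQ DP WIN
  rw [Finset.sum_mul_sum]
  refine Finset.sum_congr rfl fun r hr => ?_
  refine Finset.sum_congr rfl fun q hq => ?_
  have h1 : (0 : ℝ) < r := by exact_mod_cast (mem_prI.mp hr).2.pos
  have h3 : (0 : ℝ) < q := by exact_mod_cast (mem_prI.mp hq).2.pos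
  have e1 : ch χ (r * q) = ch χ r * ch χ q := by
    unfold ch
    push_cast
    rw [map_mul]
  have e2 : ph t (Real.log ((r : ℝ) * q)) = ph t (Real.log r) * ph t (Real.log q) := by
    rw [W1_ph_mul t _ _ h1 h3]
  rw [e1, e2]
  unfold om
  push_cast
  have h1' : (r : ℂ) ≠ 0 := by exact_mod_cast h1.ne'
  have h3' : (q : ℂ) ≠ 0 := by exact_mod_cast h3.ne'
  field_simp

private theorem W1_mass_q : ∃ C : ℝ, 1 ≤ C ∧ ∀ (X : ℕ) (Y : ℝ), 8 ≤ X →
    (X : ℝ) ^ (0.99 : ℝ) ≤ Y → Y ≤ X → ∑ q ∈ QS X, om Y q / q ≤ C / Real.log X := by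
  obtain ⟨C, hC, h⟩ := prime_window_le 1 one_pos
  refine ⟨2 * C, by linarith, fun X Y hX hY1 hY2 => ?_⟩
  obtain ⟨hY0, hlY, -, -⟩ := logY_bounds X Y (by omega) hY1 hY2
  have hX8 : (8 : ℝ) ≤ X := by exact_mod_cast hX
  have hlX : 2 ≤ Real.log X := by
    have e1 : Real.log 8 ≤ Real.log X := Real.log_le_log (by norm_num) hX8
    have e2 : Real.log 8 = 3 * Real.log 2 := by
      rw [show (8 : ℝ) = 2 ^ 3 by norm_num, Real.log_pow]
      norm_num
    have e3 := Real.log_two_gt_d9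
    linarith
  have hx1 : 1 ≤ Real.log Y := by linarith
  have h1 : ∑ q ∈ QS X, om Y q / q ≤ ∑ p ∈ prI 0 (X ^ 2), gs 1 (Real.log Y) (Real.log p) / p := by
    refine Finset.sum_le_sum_of_subset_of_nonneg (f := fun q : ℕ => om Y q / q) ?_ ?_
    · intro p hp
      rw [QS, mem_prI] at hp
      rw [mem_prI]
      exact ⟨by omega, hp.2⟩
    · intro p _ _
      exact div_nonneg (Real.exp_pos _).le (Nat.cast_nonneg p)
  refine h1.trans ((h (X ^ 2) (Real.log Y) hx1).trans ?_)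
  rw [div_le_div_iff₀ (by linarith) (by linarith)]
  nlinarith

/-- PROOF. As `mass_g` (E3/M0): the sum is `(∑_{IS R} 1/r)(∑_q om q/q)`; `recip_IS` and `prime_window_le` (private `M0_mass_q` there, copy it). -/
theorem mass_e : ∃ C : ℝ, 1 ≤ C ∧ ∀ R X : ℕ, PH R X →
    ∑ s ∈ IS R, ∑ q ∈ QS X, om (YR R X) q / (s * q) ≤ C * FR R X := by
  obtain ⟨C₁, hC₁, h1⟩ := recip_IS
  obtain ⟨C₂, hC₂, h2⟩ := W1_mass_q
  refine ⟨C₁ * C₂, one_le_mul_of_one_le_of_one_le hC₁ hC₂, fun R X h => ?_⟩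
  obtain ⟨g1, g3⟩ := W1_logs h
  have hR2 := h.R2
  have e1 := (h1 R hR2).1
  have e3 := h2 X (YR R X) h.X8 h.Ylow h.Yup
  have e4 : ∑ s ∈ IS R, ∑ q ∈ QS X, om (YR R X) q / (s * q) =
      (∑ r ∈ IS R, (1 / r : ℝ)) * ∑ q ∈ QS X, om (YR R X) q / q := by
    rw [Finset.sum_mul]
    refine Finset.sum_congr rfl fun r _ => ?_
    rw [Finset.mul_sum]
    refine Finset.sum_congr rfl fun q _ => ?_
    rw [div_mul_div_comm, one_mul]
  have f3 : 0 ≤ ∑ q ∈ QS X, om (YR R X) q / q :=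
    Finset.sum_nonneg fun q _ => div_nonneg (Real.exp_pos _).le (Nat.cast_nonneg q)
  rw [e4]
  calc (∑ r ∈ IS R, (1 / r : ℝ)) * ∑ q ∈ QS X, om (YR R X) q / q
      ≤ (C₁ / Real.log R) * (C₂ / Real.log X) := by
        apply mul_le_mul e1 e3 f3 (by positivity)
    _ = C₁ * C₂ * FR R X := by
        unfold FR
        field_simp

/-- PROOF. As `PPP_norm_g` (E3/M0): `PR_norm_le` and `PQ_norm_le`. -/
theorem PP_norm_e : ∃ C : ℝ, 1 ≤ C ∧ ∀ R X : ℕ, PH R X →
    ∀ (W : ℕ) (χ : DirichletCharacter ℂ W) (t : ℝ), ‖PP χ R X t‖ ≤ C * FR R X := by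
  obtain ⟨C₁, hC₁, h1⟩ := PR_norm_le
  obtain ⟨C₂, hC₂, h2⟩ := PQ_norm_le
  refine ⟨C₁ * C₂, one_le_mul_of_one_le_of_one_le hC₁ hC₂, fun R X h W χ t => ?_⟩
  obtain ⟨g1, g3⟩ := W1_logs h
  have hR2 := h.R2
  have e1 := h1 W χ R t hR2
  have e3 := h2 W χ X (YR R X) t h.X8 h.Ylow h.Yup
  unfold PP
  rw [norm_mul]
  calc ‖PR χ R t‖ * ‖PQ χ X (YR R X) t‖
      ≤ (C₁ / Real.log R) * (C₂ / Real.log X) := by
        apply mul_le_mul e1 e3 (norm_nonneg _) (by positivity)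
    _ = C₁ * C₂ * FR R X := by
        unfold FR
        field_simp

/-- PROOF. As `WX_planch` (E3/M4): `planch2` with the index set `IS R ×ˢ QS X`, and `PP_eq`. -/
theorem XX_planch {W : ℕ} (χ : DirichletCharacter ℂ W) (R X : ℕ) (d l : ℝ) (hd : 0 < d) (hl : 0 < l) :
    Integrable (fun x : ℝ => ‖XX χ R X d x - XX χ R X l x‖ ^ 2) ∧
    Integrable (fun y : ℝ => (Real.exp (-(d ^ 2 * y ^ 2 / 2)) - Real.exp (-(l ^ 2 * y ^ 2 / 2))) ^ 2
      * ‖PP χ R X y‖ ^ 2) ∧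
    ∫ x : ℝ, ‖XX χ R X d x - XX χ R X l x‖ ^ 2
      = ∫ y : ℝ, (Real.exp (-(d ^ 2 * y ^ 2 / 2)) - Real.exp (-(l ^ 2 * y ^ 2 / 2))) ^ 2
          * ‖PP χ R X y‖ ^ 2 := by
  set I : Finset (ℕ × ℕ) := IS R ×ˢ QS X with hI
  let c : ℕ × ℕ → ℂ := fun p => ch χ (p.1 * p.2) * ((om (YR R X) p.2 / (p.1 * p.2) : ℝ) : ℂ)
  let v : ℕ × ℕ → ℝ := fun p => Real.log (p.1 * p.2)
  have h1 : ∀ x : ℝ, XX χ R X d x - XX χ R X l x =
      ∑ i ∈ I, c i * ((gsn d (x - v i) - gsn l (x - v i) : ℝ) : ℂ) := by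
    intro x
    unfold XX
    rw [← Finset.sum_sub_distrib, hI, Finset.sum_product]
    refine Finset.sum_congr rfl fun s _ => ?_
    rw [← Finset.sum_sub_distrib]
    refine Finset.sum_congr rfl fun q _ => ?_
    simp only [c, v]
    push_cast
    ring
  have h2 : ∀ y : ℝ, PP χ R X y = ∑ i ∈ I, c i * ph y (v i) := by
    intro y
    rw [PP_eq χ R X y, hI, Finset.sum_product]
  have h := planch2 I c v d l hd hl
  simp only [h1, h2]
  exact h

/-- PROOF. As `char_window_g` (E3/M4). -/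
theorem char_window_e : ∃ C : ℝ, 1 ≤ C ∧ ∀ (R X : ℕ), PH R X →
    ∀ (W : ℕ) (χ : DirichletCharacter ℂ W) (T₀ T d η : ℝ), 1 ≤ T → T₀ ≤ T → 0 < d → d ≤ 1 / T ^ 2 →
      ∫ t in {t : ℝ | T₀ ≤ |t|}, Real.exp (-(d * t) ^ 2) * ‖PP χ R X t‖ ^ 2 ≤ η * (FR R X) ^ 2 →
      ∫ x : ℝ, ‖XX χ R X d x - XX χ R X (1 / T ^ 2) x‖ ^ 2 ≤ (C / T + η) * (FR R X) ^ 2 := by
  obtain ⟨C, hC1, hPPP⟩ := PP_norm_e
  refine ⟨C ^ 2, one_le_pow₀ hC1, ?_⟩
  intro R X hPG W χ T₀ T d η hT1 hT0T hd0 hdl hcoreX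
  have hT0 : 0 < T := by linarith
  set l : ℝ := 1 / T ^ 2 with hl
  have hl0 : 0 < l := by positivity
  obtain ⟨_, hJ2, hJ3⟩ := XX_planch χ R X d l hd0 hl0
  set F : ℝ → ℝ := fun y => ‖PP χ R X y‖ ^ 2 with hF
  have hFc : Continuous F := by
    simp only [hF, PP]
    exact (((PR_continuous χ _).mul (PQ_continuous χ _ _)).norm).pow 2
  have hF0 : ∀ y, 0 ≤ F y := fun y => by simp only [hF]; positivity
  have hFb : ∀ y, F y ≤ C ^ 2 * (FR R X) ^ 2 := by
    intro y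
    have h := hPPP R X hPG W χ y
    simp only [hF]
    calc _ ≤ (C * FR R X) ^ 2 := pow_le_pow_left₀ (norm_nonneg _) h 2
      _ = _ := by ring
  have hFb' : ∀ y, |F y| ≤ C ^ 2 * (FR R X) ^ 2 := fun y => by
    rw [abs_of_nonneg (hF0 y)]; exact hFb y
  rw [hJ3]
  -- pointwise bound
  set S : Set ℝ := {t : ℝ | T₀ ≤ |t|} with hS
  have hSm : MeasurableSet S := measurableSet_le measurable_const measurable_abs
  set c₀ : ℝ := (1 / (2 * T ^ 2)) ^ 2 * (C ^ 2 * (FR R X) ^ 2) with hc₀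
  have hc₀0 : 0 ≤ c₀ := by positivity
  have hpt : ∀ y : ℝ, (Real.exp (-(d ^ 2 * y ^ 2 / 2)) - Real.exp (-(l ^ 2 * y ^ 2 / 2))) ^ 2 * F y
      ≤ (Set.Icc (-T) T).indicator (fun _ => c₀) y
        + S.indicator (fun y => Real.exp (-(d * y) ^ 2) * F y) y := by
    intro y
    have hdiff0 : 0 ≤ Real.exp (-(d ^ 2 * y ^ 2 / 2)) - Real.exp (-(l ^ 2 * y ^ 2 / 2)) := by
      have h1 : d ^ 2 * y ^ 2 / 2 ≤ l ^ 2 * y ^ 2 / 2 := by
        have : d ^ 2 ≤ l ^ 2 := pow_le_pow_left₀ hd0.le hdl 2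
        have := mul_le_mul_of_nonneg_right this (sq_nonneg y)
        linarith
      have := Real.exp_le_exp.mpr (neg_le_neg h1)
      linarith
    by_cases hy : |y| < T
    · have hyI : y ∈ Set.Icc (-T) T := by
        rw [abs_lt] at hy
        exact ⟨hy.1.le, hy.2.le⟩
      rw [Set.indicator_of_mem hyI]
      have h2 : 0 ≤ S.indicator (fun y => Real.exp (-(d * y) ^ 2) * F y) y :=
        Set.indicator_nonneg (fun y _ => mul_nonneg (Real.exp_pos _).le (hF0 y)) y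
      have h3 : Real.exp (-(d ^ 2 * y ^ 2 / 2)) - Real.exp (-(l ^ 2 * y ^ 2 / 2)) ≤ 1 / (2 * T ^ 2) := by
        have h4 : Real.exp (-(d ^ 2 * y ^ 2 / 2)) ≤ 1 := by
          rw [Real.exp_le_one_iff]
          have : 0 ≤ d ^ 2 * y ^ 2 / 2 := by positivity
          linarith
        have h5 : 1 - l ^ 2 * y ^ 2 / 2 ≤ Real.exp (-(l ^ 2 * y ^ 2 / 2)) := by
          have := Real.add_one_le_exp (-(l ^ 2 * y ^ 2 / 2))
          linarith
        have h6 : y ^ 2 ≤ T ^ 2 := by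
          rw [← sq_abs y]
          exact pow_le_pow_left₀ (abs_nonneg _) hy.le 2
        have h7 : l ^ 2 * y ^ 2 / 2 ≤ 1 / (2 * T ^ 2) := by
          have h8 : l ^ 2 * y ^ 2 ≤ l ^ 2 * T ^ 2 := mul_le_mul_of_nonneg_left h6 (by positivity)
          have h9 : l ^ 2 * T ^ 2 / 2 = 1 / (2 * T ^ 2) := by
            rw [hl]
            field_simp
          linarith
        linarith
      have h10 := pow_le_pow_left₀ hdiff0 h3 2
      have h11 := mul_le_mul h10 (hFb y) (hF0 y) (by positivity)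
      linarith
    · have hy' : T ≤ |y| := not_lt.mp hy
      have hyS : y ∈ S := hT0T.trans hy'
      rw [Set.indicator_of_mem hyS]
      have h2 : 0 ≤ (Set.Icc (-T) T).indicator (fun _ => c₀) y := Set.indicator_nonneg (fun _ _ => hc₀0) y
      have h3 : (Real.exp (-(d ^ 2 * y ^ 2 / 2)) - Real.exp (-(l ^ 2 * y ^ 2 / 2))) ^ 2 ≤ Real.exp (-(d * y) ^ 2) := by
        have h4 : Real.exp (-(d ^ 2 * y ^ 2 / 2)) - Real.exp (-(l ^ 2 * y ^ 2 / 2)) ≤ Real.exp (-(d ^ 2 * y ^ 2 / 2)) := by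
          have := Real.exp_pos (-(l ^ 2 * y ^ 2 / 2))
          linarith
        refine (pow_le_pow_left₀ hdiff0 h4 2).trans (le_of_eq ?_)
        rw [← Real.exp_nat_mul]
        congr 1
        push_cast
        ring
      have h5 := mul_le_mul_of_nonneg_right h3 (hF0 y)
      linarith
  have hi1 : Integrable (fun y => (Set.Icc (-T) T).indicator (fun _ => c₀) y) := by
    rw [integrable_indicator_iff measurableSet_Icc]
    exact integrableOn_const (by simp)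
  have hi2 : Integrable (fun y => S.indicator (fun y => Real.exp (-(d * y) ^ 2) * F y) y) :=
    (gauss_integrable_of_bounded d _ hd0 F hFc hFb').indicator hSm
  have hmono := integral_mono hJ2 (hi1.add hi2) hpt
  refine hmono.trans ?_
  rw [integral_add' hi1 hi2, integral_indicator hSm, integral_indicator measurableSet_Icc, setIntegral_const,
    Real.volume_real_Icc_of_le (by linarith), smul_eq_mul]
  have hA : (T - -T) * c₀ ≤ C ^ 2 / T * (FR R X) ^ 2 := by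
    have h1 : (T - -T) * c₀ = C ^ 2 / (2 * T ^ 3) * (FR R X) ^ 2 := by
      rw [hc₀]
      field_simp
      ring
    rw [h1]
    refine mul_le_mul_of_nonneg_right ?_ (by positivity)
    refine div_le_div_of_nonneg_left (by positivity) hT0 ?_
    have h2 : T ≤ T ^ 3 := by nlinarith [mul_self_nonneg (T - 1)]
    linarith
  linarith

end Pool.Agent.Lib.MP_bae66e_nt.E2
end

section

/-!
# Row W2: residue classes and one `X` (port of E3/M5, E3/M7)
-/

set_option autoImplicit false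

namespace Pool.Agent.Lib.MP_bae66e_nt.E2

open Finset MeasureTheory Real
open Pool.Agent.E3
open Pool.Agent.Lib.MP_bae66e_nt.AP3 (prI mem_prI)

private lemma W2_orth (W c n : ℕ) (hW : 1 ≤ W) (hc : Nat.Coprime c W) :
    ∑ χ : DirichletCharacter ℂ W, χ ((c : ZMod W)⁻¹) * ch χ n =
      if n ≡ c [MOD W] then (Nat.totient W : ℂ) else 0 := by
  have : NeZero W := ⟨by omega⟩
  have hu : IsUnit (c : ZMod W) := (ZMod.isUnit_iff_coprime c W).2 hc
  have h := DirichletCharacter.sum_char_inv_mul_char_eq ℂ hu (n : ZMod W)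
  unfold ch
  rw [h]
  by_cases hn : n ≡ c [MOD W]
  · rw [if_pos hn, if_pos ((ZMod.natCast_eq_natCast_iff c n W).2 hn.symm)]
  · rw [if_neg hn, if_neg (fun h => hn ((ZMod.natCast_eq_natCast_iff c n W).1 h).symm)]

private lemma W2_cont (W v : ℕ) (R X : ℕ) (w : ℝ) : Continuous (fun x : ℝ => XV W v R X w x) := by
  unfold XV
  refine continuous_finsetSum _ fun s _ => continuous_finsetSum _ fun q _ => ?_
  unfold gsn
  fun_prop

private lemma W2_om_nonneg (Y : ℝ) (q : ℕ) : 0 ≤ om Y q := (Real.exp_pos _).le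

private lemma W2_one_le {R X : ℕ} {p : ℕ × ℕ} (hp : p ∈ IS R ×ˢ QS X) : 1 ≤ p.1 * p.2 := by
  rw [Finset.mem_product] at hp
  obtain ⟨h1, h2⟩ := hp
  have h3 : 0 < p.1 := by
    unfold IS at h1
    rw [mem_prI] at h1
    omega
  have h4 : 0 < p.2 := by
    unfold QS at h2
    rw [mem_prI] at h2
    omega
  exact Nat.mul_pos h3 h4

/-- PROOF. As `WV_eq` (E3/M5). -/
theorem XV_eq (W v : ℕ) (hW : 1 ≤ W) (hv : Nat.Coprime v W) (R X : ℕ) (d x : ℝ) :
    ((XV W v R X d x : ℝ) : ℂ)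
      = 1 / (Nat.totient W : ℂ) * ∑ χ : DirichletCharacter ℂ W, χ ((v : ZMod W)⁻¹) * XX χ R X d x := by
  have hW0 : (Nat.totient W : ℂ) ≠ 0 := by exact_mod_cast (Nat.totient_pos.2 hW).ne'
  have h1 : ∑ χ : DirichletCharacter ℂ W, χ ((v : ZMod W)⁻¹) * XX χ R X d x =
      ∑ s ∈ IS R, ∑ q ∈ QS X,
        (∑ χ : DirichletCharacter ℂ W, χ ((v : ZMod W)⁻¹) * ch χ (s * q)) *
          ((om (YR R X) q / (s * q) * gsn d (x - Real.log (s * q)) : ℝ) : ℂ) := by
    unfold XX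
    simp only [Finset.mul_sum, Finset.sum_mul]
    rw [Finset.sum_comm]
    refine sum_congr rfl fun s _ => ?_
    rw [Finset.sum_comm]
    refine sum_congr rfl fun q _ => ?_
    refine sum_congr rfl fun χ _ => ?_
    ring
  rw [h1, Finset.mul_sum]
  unfold XV
  rw [Complex.ofReal_sum]
  refine sum_congr rfl fun s _ => ?_
  rw [Finset.sum_filter, Complex.ofReal_sum, Finset.mul_sum]
  refine sum_congr rfl fun q _ => ?_
  rw [W2_orth W v (s * q) hW hv]
  by_cases hn : s * q ≡ v [MOD W]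
  · rw [if_pos hn, if_pos hn, ← mul_assoc, one_div, inv_mul_cancel₀ hW0, one_mul]
  · rw [if_neg hn, if_neg hn]
    simp

/-- PROOF. As `class_window_g` (E3/M5). -/
theorem class_window_e (W v : ℕ) (hW : 1 ≤ W) (hv : Nat.Coprime v W) (R X : ℕ) (d l B : ℝ) (hd : 0 < d) (hl : 0 < l)
    (h : ∀ χ : DirichletCharacter ℂ W, ∫ x : ℝ, ‖XX χ R X d x - XX χ R X l x‖ ^ 2 ≤ B) :
    Integrable (fun x : ℝ => (XV W v R X d x - XV W v R X l x) ^ 2) ∧
    ∫ x : ℝ, (XV W v R X d x - XV W v R X l x) ^ 2 ≤ B := by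
  have : NeZero W := ⟨by omega⟩
  have hφ : (0 : ℝ) < (Nat.totient W : ℝ) := by exact_mod_cast Nat.totient_pos.2 hW
  have hcard : (Fintype.card (DirichletCharacter ℂ W) : ℝ) = (Nat.totient W : ℝ) := by
    rw [← Nat.card_eq_fintype_card, DirichletCharacter.card_eq_totient_of_hasEnoughRootsOfUnity ℂ W]
  have heq : ∀ x : ℝ, ((XV W v R X d x - XV W v R X l x : ℝ) : ℂ) =
      1 / (Nat.totient W : ℂ) * ∑ χ : DirichletCharacter ℂ W,
        χ ((v : ZMod W)⁻¹) * (XX χ R X d x - XX χ R X l x) := by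
    intro x
    rw [Complex.ofReal_sub, XV_eq W v hW hv, XV_eq W v hW hv, ← mul_sub, ← Finset.sum_sub_distrib]
    congr 1
    exact sum_congr rfl fun χ _ => (mul_sub _ _ _).symm
  have hpt : ∀ x : ℝ, (XV W v R X d x - XV W v R X l x) ^ 2 ≤
      1 / (Nat.totient W : ℝ) * ∑ χ : DirichletCharacter ℂ W, ‖XX χ R X d x - XX χ R X l x‖ ^ 2 := by
    intro x
    have h1 : (XV W v R X d x - XV W v R X l x) ^ 2 =
        ‖((XV W v R X d x - XV W v R X l x : ℝ) : ℂ)‖ ^ 2 := by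
      rw [Complex.norm_real, Real.norm_eq_abs, sq_abs]
    have h2 : ‖((XV W v R X d x - XV W v R X l x : ℝ) : ℂ)‖ ≤
        1 / (Nat.totient W : ℝ) * ∑ χ : DirichletCharacter ℂ W, ‖XX χ R X d x - XX χ R X l x‖ := by
      rw [heq, norm_mul]
      have h3 : ‖(1 / (Nat.totient W : ℂ))‖ = 1 / (Nat.totient W : ℝ) := by
        rw [norm_div, norm_one, Complex.norm_natCast]
      rw [h3]
      refine mul_le_mul_of_nonneg_left ?_ (by positivity)
      refine (norm_sum_le _ _).trans (sum_le_sum fun χ _ => ?_)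
      rw [norm_mul]
      exact mul_le_of_le_one_left (norm_nonneg _) (DirichletCharacter.norm_le_one χ _)
    have h4 : (∑ χ : DirichletCharacter ℂ W, ‖XX χ R X d x - XX χ R X l x‖) ^ 2 ≤
        (Nat.totient W : ℝ) * ∑ χ : DirichletCharacter ℂ W, ‖XX χ R X d x - XX χ R X l x‖ ^ 2 := by
      rw [← hcard]
      exact sq_sum_le_card_mul_sum_sq
    rw [h1]
    calc ‖((XV W v R X d x - XV W v R X l x : ℝ) : ℂ)‖ ^ 2
        ≤ (1 / (Nat.totient W : ℝ) *
            ∑ χ : DirichletCharacter ℂ W, ‖XX χ R X d x - XX χ R X l x‖) ^ 2 :=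
          pow_le_pow_left₀ (norm_nonneg _) h2 2
      _ = (1 / (Nat.totient W : ℝ)) ^ 2 *
            (∑ χ : DirichletCharacter ℂ W, ‖XX χ R X d x - XX χ R X l x‖) ^ 2 := by
          rw [mul_pow]
      _ ≤ (1 / (Nat.totient W : ℝ)) ^ 2 *
          ((Nat.totient W : ℝ) *
            ∑ χ : DirichletCharacter ℂ W, ‖XX χ R X d x - XX χ R X l x‖ ^ 2) :=
          mul_le_mul_of_nonneg_left h4 (by positivity)
      _ = 1 / (Nat.totient W : ℝ) *
            ∑ χ : DirichletCharacter ℂ W, ‖XX χ R X d x - XX χ R X l x‖ ^ 2 := by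
          field_simp
  have hIχ : ∀ χ : DirichletCharacter ℂ W,
      Integrable (fun x : ℝ => ‖XX χ R X d x - XX χ R X l x‖ ^ 2) :=
    fun χ => (XX_planch χ R X d l hd hl).1
  have hIs : Integrable (fun x : ℝ => 1 / (Nat.totient W : ℝ) *
      ∑ χ : DirichletCharacter ℂ W, ‖XX χ R X d x - XX χ R X l x‖ ^ 2) :=
    (integrable_finsetSum _ fun χ _ => hIχ χ).const_mul _
  have hI : Integrable (fun x : ℝ => (XV W v R X d x - XV W v R X l x) ^ 2) := by
    refine hIs.mono' (((W2_cont W v R X d).sub (W2_cont W v R X l)).pow 2).aestronglyMeasurable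
      (Filter.Eventually.of_forall fun x => ?_)
    rw [Real.norm_of_nonneg (sq_nonneg _)]
    exact hpt x
  refine ⟨hI, ?_⟩
  calc ∫ x : ℝ, (XV W v R X d x - XV W v R X l x) ^ 2
      ≤ ∫ x : ℝ, 1 / (Nat.totient W : ℝ) *
          ∑ χ : DirichletCharacter ℂ W, ‖XX χ R X d x - XX χ R X l x‖ ^ 2 :=
        integral_mono hI hIs hpt
    _ = 1 / (Nat.totient W : ℝ) *
          ∑ χ : DirichletCharacter ℂ W, ∫ x : ℝ, ‖XX χ R X d x - XX χ R X l x‖ ^ 2 := by
        rw [integral_const_mul, integral_finsetSum _ fun χ _ => hIχ χ]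
    _ ≤ 1 / (Nat.totient W : ℝ) * ∑ χ : DirichletCharacter ℂ W, B :=
        mul_le_mul_of_nonneg_left (sum_le_sum fun χ _ => h χ) (by positivity)
    _ = B := by
        rw [Finset.sum_const, nsmul_eq_mul, Finset.card_univ, hcard]
        field_simp

/-- PROOF. As `class_window_L1` (E3/M5). -/
theorem class_window_L1e (W v : ℕ) (R X : ℕ) (d l B y : ℝ) (hd : 0 < d) (hl : 0 < l)
    (hi : Integrable (fun x : ℝ => (XV W v R X d x - XV W v R X l x) ^ 2))
    (h : ∫ x : ℝ, (XV W v R X d x - XV W v R X l x) ^ 2 ≤ B) :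
    IntegrableOn (fun x : ℝ => |XV W v R X d x - XV W v R X l x|) (Set.Icc (y - 1) (y + 1)) ∧
    ∫ x in Set.Icc (y - 1) (y + 1), |XV W v R X d x - XV W v R X l x| ≤ Real.sqrt (2 * B) := by
  set f : ℝ → ℝ := fun x => XV W v R X d x - XV W v R X l x with hf
  have hcont : Continuous f := (W2_cont W v R X d).sub (W2_cont W v R X l)
  have hI1 : IntegrableOn (fun x : ℝ => |f x|) (Set.Icc (y - 1) (y + 1)) :=
    hcont.abs.continuousOn.integrableOn_compact isCompact_Icc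
  have hI2 : IntegrableOn (fun x : ℝ => (f x) ^ 2) (Set.Icc (y - 1) (y + 1)) :=
    (hcont.pow 2).continuousOn.integrableOn_compact isCompact_Icc
  refine ⟨hI1, ?_⟩
  have hvol : volume.real (Set.Icc (y - 1) (y + 1)) = 2 := by
    rw [Real.volume_real_Icc_of_le (by linarith)]
    ring
  have hB : ∫ x in Set.Icc (y - 1) (y + 1), (f x) ^ 2 ≤ B :=
    (setIntegral_le_integral hi (Filter.Eventually.of_forall fun x => sq_nonneg _)).trans h
  set A : ℝ := ∫ x in Set.Icc (y - 1) (y + 1), |f x| with hA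
  have hA0 : 0 ≤ A := integral_nonneg fun x => abs_nonneg _
  -- `0 ≤ ∫ (|f| - A/2)²`
  have hkey : 0 ≤ ∫ x in Set.Icc (y - 1) (y + 1), (|f x| - A / 2) ^ 2 :=
    integral_nonneg fun x => sq_nonneg _
  have hexp : ∫ x in Set.Icc (y - 1) (y + 1), (|f x| - A / 2) ^ 2 =
      (∫ x in Set.Icc (y - 1) (y + 1), (f x) ^ 2) - A * A + (A / 2) ^ 2 * 2 := by
    have h1 : ∀ x, (|f x| - A / 2) ^ 2 = (f x) ^ 2 - A * |f x| + (A / 2) ^ 2 := by
      intro x
      rw [sub_sq, sq_abs]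
      ring
    simp only [h1]
    have hI3 : IntegrableOn (fun x : ℝ => A * |f x|) (Set.Icc (y - 1) (y + 1)) := hI1.const_mul A
    have hI4 : IntegrableOn (fun x : ℝ => (f x) ^ 2 - A * |f x|) (Set.Icc (y - 1) (y + 1)) :=
      hI2.sub hI3
    have hI5 : IntegrableOn (fun _ : ℝ => (A / 2) ^ 2) (Set.Icc (y - 1) (y + 1)) :=
      integrableOn_const (by simp)
    have e1 : ∫ x in Set.Icc (y - 1) (y + 1), ((f x) ^ 2 - A * |f x| + (A / 2) ^ 2) =
        (∫ x in Set.Icc (y - 1) (y + 1), ((f x) ^ 2 - A * |f x|)) +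
          ∫ _x in Set.Icc (y - 1) (y + 1), (A / 2) ^ 2 := integral_add hI4 hI5
    have e2 : ∫ x in Set.Icc (y - 1) (y + 1), ((f x) ^ 2 - A * |f x|) =
        (∫ x in Set.Icc (y - 1) (y + 1), (f x) ^ 2) - ∫ x in Set.Icc (y - 1) (y + 1), A * |f x| :=
      integral_sub hI2 hI3
    rw [e1, e2, integral_const_mul, setIntegral_const, hvol, ← hA, smul_eq_mul]
    ring
  rw [hexp] at hkey
  refine Real.le_sqrt_of_sq_le ?_
  nlinarith

/-- PROOF. As `sum_fS` (E3/M7); `fS` is defined for any finite set `S`. -/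
theorem sum_fSe (R X W v H m : ℕ) (Y : ℝ) :
    ∑ n ∈ (Ico (m - H) m).filter (fun n => n ≡ v [MOD W]), fS (IS R) Y X n
      = ∑ p ∈ ((IS R ×ˢ QS X).filter (fun p => p.1 * p.2 ≡ v [MOD W])) with
          p.1 * p.2 ∈ Ico (m - H) m, om Y p.2 := by
  unfold fS
  rw [Finset.sum_comm, Finset.filter_filter, Finset.sum_filter, Finset.sum_product]
  refine sum_congr rfl fun s _ => ?_
  rw [Finset.sum_comm]
  refine sum_congr rfl fun q _ => ?_
  rw [Finset.sum_ite_eq]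
  by_cases h : s * q ∈ (Ico (m - H) m).filter (fun n => n ≡ v [MOD W])
  · rw [if_pos h, if_pos]
    rw [Finset.mem_filter] at h
    exact ⟨h.2, h.1⟩
  · rw [if_neg h, if_neg]
    intro h2
    exact h (Finset.mem_filter.2 ⟨h2.2, h2.1⟩)

/-- PROOF. As `winb_one` (E3/M7): `class_window_L1e`, `mass_e`, `win_to_m` (E3/B6c), `sum_fSe`. -/
theorem wine_one : ∃ C : ℝ, 1 ≤ C ∧ ∀ (R X H W v : ℕ) (K l η c₁ : ℝ), PH R X → 1 ≤ H → 100 * H ≤ X → 1 ≤ W →
    Nat.Coprime v W → 1 ≤ K → 0 < l → 0 ≤ η → 0 < c₁ →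
    (∀ χ : DirichletCharacter ℂ W,
      ∫ x : ℝ, ‖XX χ R X (H / (K * X)) x - XX χ R X l x‖ ^ 2 ≤ η * (FR R X) ^ 2) →
    (∀ x : ℝ, |x - Real.log X| ≤ 1 → c₁ * FR R X / Nat.totient W ≤ XV W v R X l x) →
    (#{m ∈ Icc X (2 * X) | ∑ n ∈ (Ico (m - H) m).filter (fun n => n ≡ v [MOD W]), fS (IS R) (YR R X) X n
        < c₁ / 50 * H * FR R X / Nat.totient W} : ℝ)
      ≤ X * (Nat.totient W / c₁) * (32 * Real.sqrt (2 * η) + 130 * Real.exp (-(K ^ 2 / 576)) * C) := by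
  obtain ⟨C, hC, hmass⟩ := mass_e
  refine ⟨C, hC, fun R X H W v K l η c₁ hPH hH hHX hW hv hK hl hη hc₁ hχ hpap => ?_⟩
  set F : ℝ := FR R X with hF
  set Y : ℝ := YR R X with hY
  have hF0 : 0 < F := hPH.pos
  have hφ : (0 : ℝ) < (Nat.totient W : ℝ) := by exact_mod_cast Nat.totient_pos.2 hW
  have hX0 : (0 : ℝ) < (X : ℝ) := by exact_mod_cast (by omega : 0 < X)
  have hH0 : (0 : ℝ) < (H : ℝ) := by exact_mod_cast (by omega : 0 < H)
  have hd : (0 : ℝ) < (H : ℝ) / (K * X) := by positivity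
  obtain ⟨hi, hint⟩ := class_window_e W v hW hv R X (H / (K * X)) l (η * F ^ 2) hd hl  hχ
  obtain ⟨hEi, hEη⟩ := class_window_L1e W v R X (H / (K * X)) l (η * F ^ 2) (Real.log X) hd hl hi hint
  have hsq : Real.sqrt (2 * (η * F ^ 2)) = Real.sqrt (2 * η) * F := by
    rw [← mul_assoc, Real.sqrt_mul (by positivity), Real.sqrt_sq hF0.le]
  rw [hsq] at hEη
  have hB : 0 < c₁ * F / Nat.totient W := by positivity
  have hsum : ∀ x : ℝ, ∑ p ∈ (IS R ×ˢ QS X).filter (fun p => p.1 * p.2 ≡ v [MOD W]),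
      om Y p.2 / ((p.1 * p.2 : ℕ) : ℝ) * gsn (H / (K * X)) (x - Real.log ((p.1 * p.2 : ℕ) : ℝ)) =
      XV W v R X (H / (K * X)) x := by
    intro x
    unfold XV
    rw [Finset.sum_filter, Finset.sum_product]
    refine sum_congr rfl fun s _ => ?_
    rw [Finset.sum_filter]
    refine sum_congr rfl fun q _ => ?_
    simp only [Nat.cast_mul]
    rfl
  have hM : ∑ p ∈ (IS R ×ˢ QS X).filter (fun p => p.1 * p.2 ≡ v [MOD W]),
      om Y p.2 / ((p.1 * p.2 : ℕ) : ℝ) ≤ C * F := by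
    refine le_trans (Finset.sum_le_sum_of_subset_of_nonneg (Finset.filter_subset _ _) fun p _ _ => ?_) ?_
    · exact div_nonneg (W2_om_nonneg _ _) (Nat.cast_nonneg _)
    · rw [Finset.sum_product]
      simp only [Nat.cast_mul]
      exact hmass R X hPH
  have key := win_to_m ((IS R ×ˢ QS X).filter (fun p => p.1 * p.2 ≡ v [MOD W]))
    (fun p => p.1 * p.2) (fun p => om Y p.2) H X K (c₁ * F / Nat.totient W) (Real.sqrt (2 * η) * F) (C * F)
    (fun x => |XV W v R X (H / (K * X)) x - XV W v R X l x|)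
    (fun p hp => W2_one_le (Finset.mem_filter.1 hp).1) (fun p _ => W2_om_nonneg _ _) hH hHX hK hB
    (fun x => abs_nonneg _) hEi hEη hM ?_
  · refine le_trans ?_ (le_of_le_of_eq key ?_)
    · refine Nat.cast_le.2 (Finset.card_le_card fun m hm => ?_)
      rw [Finset.mem_filter] at hm ⊢
      refine ⟨hm.1, ?_⟩
      have h2 := hm.2
      rw [sum_fSe] at h2
      have h3 : c₁ / 50 * H * F / Nat.totient W = H * (c₁ * F / Nat.totient W) / 50 := by ring
      rw [h3] at h2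
      convert h2 using 3
    · field_simp
  · intro x hx
    have h1 : |x - Real.log X| ≤ 1 := by
      rw [abs_le]
      constructor
      · linarith [hx.1]
      · linarith [hx.2]
    have h2 := hpap x h1
    have h3 := neg_abs_le (XV W v R X (H / (K * X)) x - XV W v R X l x)
    have h4 := hsum x
    rw [h4]
    linarith

end Pool.Agent.Lib.MP_bae66e_nt.E2
end

section

/-!
# Row W1: the windows of one character (port of E2/W1)
-/

set_option autoImplicit false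

namespace Pool.Agent.Lib.MP_bae66e_nt.EF

open Finset MeasureTheory Real
open Pool.Agent.E3
open Pool.Agent.Lib.MP_bae66e_nt.E2 (YR FR PH)
open Pool.Agent.Lib.MP_bae66e_nt.LL (fP gW)
open Pool.Agent.Lib.MP_bae66e_nt.AC (Sg VV)
open Pool.Agent.Lib.MP_bae66e_nt.AP3 (prI mem_prI)

private theorem W1_norm_ph (u x : ℝ) : ‖ph u x‖ = 1 := by
  unfold ph
  exact Complex.norm_exp_ofReal_mul_I _

private theorem W1_ph_mul (t a b : ℝ) (ha : 0 < a) (hb : 0 < b) :
    ph t (Real.log a) * ph t (Real.log b) = ph t (Real.log (a * b)) := by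
  unfold ph
  rw [← Complex.exp_add]
  congr 1
  rw [Real.log_mul ha.ne' hb.ne']
  push_cast
  ring

private theorem W1_cont {W : ℕ} (χ : DirichletCharacter ℂ W) (α : ℕ → ℝ) (R X : ℕ) :
    Continuous (PPA χ α R X) := by
  have h1 : Continuous (DP (gA χ α) (IS R)) := by
    unfold DP
    refine continuous_finsetSum _ fun n _ => (continuous_const.mul ?_).mul continuous_const
    unfold ph
    fun_prop
  unfold PPA
  exact h1.mul (PQ_continuous χ X _)

/-- PROOF. As `PP_eq` (E2/W1): expand the product of the two sums. -/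
theorem PPA_eq {W : ℕ} (χ : DirichletCharacter ℂ W) (α : ℕ → ℝ) (R X : ℕ) (t : ℝ) :
    PPA χ α R X t = ∑ s ∈ IS R, ∑ q ∈ QS X,
      (α s : ℂ) * (ch χ (s * q) * ((om (YR R X) q / (s * q) : ℝ) : ℂ)) * ph t (Real.log (s * q)) := by
  unfold PPA PQ DP WIN gA
  rw [Finset.sum_mul_sum]
  refine Finset.sum_congr rfl fun r hr => ?_
  refine Finset.sum_congr rfl fun q hq => ?_
  have h1 : (0 : ℝ) < r := by exact_mod_cast (mem_prI.mp hr).2.pos
  have h3 : (0 : ℝ) < q := by exact_mod_cast (mem_prI.mp hq).2.pos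
  have e1 : ch χ (r * q) = ch χ r * ch χ q := by
    unfold ch
    push_cast
    rw [map_mul]
  have e2 : ph t (Real.log ((r : ℝ) * q)) = ph t (Real.log r) * ph t (Real.log q) := by
    rw [W1_ph_mul t _ _ h1 h3]
  rw [e1, e2]
  unfold om
  push_cast
  have h1' : (r : ℂ) ≠ 0 := by exact_mod_cast h1.ne'
  have h3' : (q : ℂ) ≠ 0 := by exact_mod_cast h3.ne'
  field_simp

/-- PROOF. As `PP_norm_e` (E2/W1): the coefficients are bounded by those of `mass_e`. -/
theorem PPA_norm : ∃ C : ℝ, 1 ≤ C ∧ ∀ R X : ℕ, PH R X → ∀ α : ℕ → ℝ, Wt α →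
    ∀ (W : ℕ) (χ : DirichletCharacter ℂ W) (t : ℝ), ‖PPA χ α R X t‖ ≤ C * FR R X := by
  obtain ⟨C, hC, h⟩ := Pool.Agent.Lib.MP_bae66e_nt.E2.mass_e
  refine ⟨C, hC, fun R X hP α hα W χ t => ?_⟩
  refine le_trans ?_ (h R X hP)
  rw [PPA_eq]
  refine (norm_sum_le _ _).trans (Finset.sum_le_sum fun s _ => ?_)
  refine (norm_sum_le _ _).trans (Finset.sum_le_sum fun q _ => ?_)
  have h0 : (0 : ℝ) ≤ om (YR R X) q / (s * q) := div_nonneg (Real.exp_pos _).le (by positivity)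
  have h1 : ‖(α s : ℂ)‖ ≤ 1 := by
    rw [Complex.norm_real, Real.norm_of_nonneg (hα s).1]
    exact (hα s).2
  have h3 : ‖((om (YR R X) q / (s * q) : ℝ) : ℂ)‖ = om (YR R X) q / (s * q) := by
    rw [Complex.norm_real, Real.norm_of_nonneg h0]
  rw [norm_mul, norm_mul, norm_mul, W1_norm_ph, mul_one, h3]
  have h2 : ‖ch χ (s * q)‖ * (om (YR R X) q / (s * q)) ≤ om (YR R X) q / (s * q) :=
    mul_le_of_le_one_left h0 (ch_norm_le χ _)
  calc ‖(α s : ℂ)‖ * (‖ch χ (s * q)‖ * (om (YR R X) q / (s * q)))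
      ≤ 1 * (om (YR R X) q / (s * q)) :=
        mul_le_mul h1 h2 (mul_nonneg (norm_nonneg _) h0) zero_le_one
    _ = _ := one_mul _

/-- PROOF. As `XX_planch` (E2/W1): `planch2` with the index set `IS R ×ˢ QS X`, and `PPA_eq`. -/
theorem XXA_planch {W : ℕ} (χ : DirichletCharacter ℂ W) (α : ℕ → ℝ) (R X : ℕ) (d l : ℝ) (hd : 0 < d) (hl : 0 < l) :
    Integrable (fun x : ℝ => ‖XXA χ α R X d x - XXA χ α R X l x‖ ^ 2) ∧
    Integrable (fun y : ℝ => (Real.exp (-(d ^ 2 * y ^ 2 / 2)) - Real.exp (-(l ^ 2 * y ^ 2 / 2))) ^ 2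
      * ‖PPA χ α R X y‖ ^ 2) ∧
    ∫ x : ℝ, ‖XXA χ α R X d x - XXA χ α R X l x‖ ^ 2
      = ∫ y : ℝ, (Real.exp (-(d ^ 2 * y ^ 2 / 2)) - Real.exp (-(l ^ 2 * y ^ 2 / 2))) ^ 2
          * ‖PPA χ α R X y‖ ^ 2 := by
  set I : Finset (ℕ × ℕ) := IS R ×ˢ QS X with hI
  let c : ℕ × ℕ → ℂ := fun p =>
    (α p.1 : ℂ) * (ch χ (p.1 * p.2) * ((om (YR R X) p.2 / (p.1 * p.2) : ℝ) : ℂ))
  let v : ℕ × ℕ → ℝ := fun p => Real.log (p.1 * p.2)
  have h1 : ∀ x : ℝ, XXA χ α R X d x - XXA χ α R X l x =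
      ∑ i ∈ I, c i * ((gsn d (x - v i) - gsn l (x - v i) : ℝ) : ℂ) := by
    intro x
    unfold XXA
    rw [← Finset.sum_sub_distrib, hI, Finset.sum_product]
    refine Finset.sum_congr rfl fun s _ => ?_
    rw [← Finset.sum_sub_distrib]
    refine Finset.sum_congr rfl fun q _ => ?_
    simp only [c, v]
    push_cast
    ring
  have h2 : ∀ y : ℝ, PPA χ α R X y = ∑ i ∈ I, c i * ph y (v i) := by
    intro y
    rw [PPA_eq χ α R X y, hI, Finset.sum_product]
  have h := planch2 I c v d l hd hl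
  simp only [h1, h2]
  exact h

/-- PROOF. As `char_window_e` (E2/W1). -/
theorem char_window_a : ∃ C : ℝ, 1 ≤ C ∧ ∀ (R X : ℕ), PH R X → ∀ α : ℕ → ℝ, Wt α →
    ∀ (W : ℕ) (χ : DirichletCharacter ℂ W) (T₀ T d η : ℝ), 1 ≤ T → T₀ ≤ T → 0 < d → d ≤ 1 / T ^ 2 →
      ∫ t in {t : ℝ | T₀ ≤ |t|}, Real.exp (-(d * t) ^ 2) * ‖PPA χ α R X t‖ ^ 2 ≤ η * (FR R X) ^ 2 →
      ∫ x : ℝ, ‖XXA χ α R X d x - XXA χ α R X (1 / T ^ 2) x‖ ^ 2 ≤ (C / T + η) * (FR R X) ^ 2 := by
  obtain ⟨C, hC1, hPPP⟩ := PPA_norm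
  refine ⟨C ^ 2, one_le_pow₀ hC1, ?_⟩
  intro R X hPG α hα W χ T₀ T d η hT1 hT0T hd0 hdl hcoreX
  have hT0 : 0 < T := by linarith
  set l : ℝ := 1 / T ^ 2 with hl
  have hl0 : 0 < l := by positivity
  obtain ⟨_, hJ2, hJ3⟩ := XXA_planch χ α R X d l hd0 hl0
  set F : ℝ → ℝ := fun y => ‖PPA χ α R X y‖ ^ 2 with hF
  have hFc : Continuous F := by
    simp only [hF]
    exact ((W1_cont χ α R X).norm).pow 2
  have hF0 : ∀ y, 0 ≤ F y := fun y => by simp only [hF]; positivity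
  have hFb : ∀ y, F y ≤ C ^ 2 * (FR R X) ^ 2 := by
    intro y
    have h := hPPP R X hPG α hα W χ y
    simp only [hF]
    calc _ ≤ (C * FR R X) ^ 2 := pow_le_pow_left₀ (norm_nonneg _) h 2
      _ = _ := by ring
  have hFb' : ∀ y, |F y| ≤ C ^ 2 * (FR R X) ^ 2 := fun y => by
    rw [abs_of_nonneg (hF0 y)]; exact hFb y
  rw [hJ3]
  -- pointwise bound
  set S : Set ℝ := {t : ℝ | T₀ ≤ |t|} with hS
  have hSm : MeasurableSet S := measurableSet_le measurable_const measurable_abs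
  set c₀ : ℝ := (1 / (2 * T ^ 2)) ^ 2 * (C ^ 2 * (FR R X) ^ 2) with hc₀
  have hc₀0 : 0 ≤ c₀ := by positivity
  have hpt : ∀ y : ℝ, (Real.exp (-(d ^ 2 * y ^ 2 / 2)) - Real.exp (-(l ^ 2 * y ^ 2 / 2))) ^ 2 * F y
      ≤ (Set.Icc (-T) T).indicator (fun _ => c₀) y
        + S.indicator (fun y => Real.exp (-(d * y) ^ 2) * F y) y := by
    intro y
    have hdiff0 : 0 ≤ Real.exp (-(d ^ 2 * y ^ 2 / 2)) - Real.exp (-(l ^ 2 * y ^ 2 / 2)) := by
      have h1 : d ^ 2 * y ^ 2 / 2 ≤ l ^ 2 * y ^ 2 / 2 := by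
        have : d ^ 2 ≤ l ^ 2 := pow_le_pow_left₀ hd0.le hdl 2
        have := mul_le_mul_of_nonneg_right this (sq_nonneg y)
        linarith
      have := Real.exp_le_exp.mpr (neg_le_neg h1)
      linarith
    by_cases hy : |y| < T
    · have hyI : y ∈ Set.Icc (-T) T := by
        rw [abs_lt] at hy
        exact ⟨hy.1.le, hy.2.le⟩
      rw [Set.indicator_of_mem hyI]
      have h2 : 0 ≤ S.indicator (fun y => Real.exp (-(d * y) ^ 2) * F y) y :=
        Set.indicator_nonneg (fun y _ => mul_nonneg (Real.exp_pos _).le (hF0 y)) y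
      have h3 : Real.exp (-(d ^ 2 * y ^ 2 / 2)) - Real.exp (-(l ^ 2 * y ^ 2 / 2)) ≤ 1 / (2 * T ^ 2) := by
        have h4 : Real.exp (-(d ^ 2 * y ^ 2 / 2)) ≤ 1 := by
          rw [Real.exp_le_one_iff]
          have : 0 ≤ d ^ 2 * y ^ 2 / 2 := by positivity
          linarith
        have h5 : 1 - l ^ 2 * y ^ 2 / 2 ≤ Real.exp (-(l ^ 2 * y ^ 2 / 2)) := by
          have := Real.add_one_le_exp (-(l ^ 2 * y ^ 2 / 2))
          linarith
        have h6 : y ^ 2 ≤ T ^ 2 := by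
          rw [← sq_abs y]
          exact pow_le_pow_left₀ (abs_nonneg _) hy.le 2
        have h7 : l ^ 2 * y ^ 2 / 2 ≤ 1 / (2 * T ^ 2) := by
          have h8 : l ^ 2 * y ^ 2 ≤ l ^ 2 * T ^ 2 := mul_le_mul_of_nonneg_left h6 (by positivity)
          have h9 : l ^ 2 * T ^ 2 / 2 = 1 / (2 * T ^ 2) := by
            rw [hl]
            field_simp
          linarith
        linarith
      have h10 := pow_le_pow_left₀ hdiff0 h3 2
      have h11 := mul_le_mul h10 (hFb y) (hF0 y) (by positivity)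
      linarith
    · have hy' : T ≤ |y| := not_lt.mp hy
      have hyS : y ∈ S := hT0T.trans hy'
      rw [Set.indicator_of_mem hyS]
      have h2 : 0 ≤ (Set.Icc (-T) T).indicator (fun _ => c₀) y := Set.indicator_nonneg (fun _ _ => hc₀0) y
      have h3 : (Real.exp (-(d ^ 2 * y ^ 2 / 2)) - Real.exp (-(l ^ 2 * y ^ 2 / 2))) ^ 2 ≤ Real.exp (-(d * y) ^ 2) := by
        have h4 : Real.exp (-(d ^ 2 * y ^ 2 / 2)) - Real.exp (-(l ^ 2 * y ^ 2 / 2)) ≤ Real.exp (-(d ^ 2 * y ^ 2 / 2)) := by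
          have := Real.exp_pos (-(l ^ 2 * y ^ 2 / 2))
          linarith
        refine (pow_le_pow_left₀ hdiff0 h4 2).trans (le_of_eq ?_)
        rw [← Real.exp_nat_mul]
        congr 1
        push_cast
        ring
      have h5 := mul_le_mul_of_nonneg_right h3 (hF0 y)
      linarith
  have hi1 : Integrable (fun y => (Set.Icc (-T) T).indicator (fun _ => c₀) y) := by
    rw [integrable_indicator_iff measurableSet_Icc]
    exact integrableOn_const (by simp)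
  have hi2 : Integrable (fun y => S.indicator (fun y => Real.exp (-(d * y) ^ 2) * F y) y) :=
    (gauss_integrable_of_bounded d _ hd0 F hFc hFb').indicator hSm
  have hmono := integral_mono hJ2 (hi1.add hi2) hpt
  refine hmono.trans ?_
  rw [integral_add' hi1 hi2, integral_indicator hSm, integral_indicator measurableSet_Icc, setIntegral_const,
    Real.volume_real_Icc_of_le (by linarith), smul_eq_mul]
  have hA : (T - -T) * c₀ ≤ C ^ 2 / T * (FR R X) ^ 2 := by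
    have h1 : (T - -T) * c₀ = C ^ 2 / (2 * T ^ 3) * (FR R X) ^ 2 := by
      rw [hc₀]
      field_simp
      ring
    rw [h1]
    refine mul_le_mul_of_nonneg_right ?_ (by positivity)
    refine div_le_div_of_nonneg_left (by positivity) hT0 ?_
    have h2 : T ≤ T ^ 3 := by nlinarith [mul_self_nonneg (T - 1)]
    linarith
  linarith

end Pool.Agent.Lib.MP_bae66e_nt.EF
end
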