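import Pool.Agent.Lib.MP_bae66e_nt.Mg.G032
import Pool.Agent.Lib.MP_bae66e_nt.Mg.G119
import Pool.Agent.Lib.MP_bae66e_nt.Mg.G004

section

/-!
# Row M: masses and support
-/

set_option autoImplicit false

namespace Pool.Agent.Lib.MP_bae66e_nt.EF

open Finset MeasureTheory Real
open Pool.Agent.E3
open Pool.Agent.Lib.MP_bae66e_nt.E2 (YR FR PH)
open Pool.Agent.Lib.MP_bae66e_nt.LL (fP gW)
open Pool.Agent.Lib.MP_bae66e_nt.AC (Sg VV)
open Pool.Agent.Lib.MP_bae66e_nt.AP3 (prI mem_prI)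

private theorem M_om_nonneg (Y : ℝ) (q : ℕ) : 0 ≤ om Y q := (Real.exp_pos _).le

/-- PROOF. `mass_e` (E2/W1) and `α ≤ 1`. -/
theorem mass_a : ∃ C : ℝ, 1 ≤ C ∧ ∀ (R X : ℕ) (α : ℕ → ℝ), PH R X → Wt α →
    ∑ s ∈ IS R, ∑ q ∈ QS X, α s * om (YR R X) q / (s * q) ≤ C * FR R X := by
  obtain ⟨C, hC, h⟩ := Pool.Agent.Lib.MP_bae66e_nt.E2.mass_e
  refine ⟨C, hC, fun R X α hP hα =>
    le_trans (Finset.sum_le_sum fun s _ => Finset.sum_le_sum fun q _ => ?_) (h R X hP)⟩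
  have h1 : α s * om (YR R X) q ≤ om (YR R X) q :=
    mul_le_of_le_one_left (M_om_nonneg _ _) (hα s).2
  exact div_le_div_of_nonneg_right h1 (by positivity)

/-- PROOF. `card_SS_le` (first part), `sum_om_le` (E3/A2b), `YR = X/R`. -/
theorem mass_u : ∃ C : ℝ, 1 ≤ C ∧ ∀ (R X : ℕ) (α : ℕ → ℝ), PH R X → 16 ≤ X → YR R X ≤ X → Wt α →
    ∑ s ∈ IS R, ∑ q ∈ QS X, α s * om (YR R X) q ≤ C * FR R X * X := by
  obtain ⟨C₁, hC₁, h1, -⟩ := card_SS_le
  obtain ⟨C₂, hC₂, h2⟩ := sum_om_le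
  refine ⟨C₁ * C₂, one_le_mul_of_one_le_of_one_le hC₁ hC₂, fun R X α hP hX hY hα => ?_⟩
  have hR2 := hP.R2
  have hR0 : (0 : ℝ) < R := by exact_mod_cast (by omega : 0 < R)
  have hX0 : (0 : ℝ) < X := by exact_mod_cast (by omega : 0 < X)
  have hlR : 0 < Real.log R := Real.log_pos (by exact_mod_cast (by omega : 1 < R))
  have hlX : 0 < Real.log X := Real.log_pos (by exact_mod_cast (by omega : 1 < X))
  have e1 := h1 R hR2
  have e2 := h2 X (YR R X) hX hP.Ylow hY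
  have e0 : 0 ≤ ∑ q ∈ QS X, om (YR R X) q := Finset.sum_nonneg fun q _ => M_om_nonneg _ _
  calc ∑ s ∈ IS R, ∑ q ∈ QS X, α s * om (YR R X) q
      ≤ ∑ s ∈ IS R, ∑ q ∈ QS X, om (YR R X) q :=
        Finset.sum_le_sum fun s _ => Finset.sum_le_sum fun q _ =>
          mul_le_of_le_one_left (M_om_nonneg _ _) (hα s).2
    _ = (#(IS R) : ℝ) * ∑ q ∈ QS X, om (YR R X) q := by
        rw [Finset.sum_const, nsmul_eq_mul]
    _ ≤ (C₁ * R / Real.log R) * (C₂ * (YR R X / Real.log X)) := by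
        apply mul_le_mul e1 e2 e0 (by positivity)
    _ = C₁ * C₂ * FR R X * X := by
        unfold YR FR
        field_simp

/-- PROOF. As `sum_fSe` (E2/W2). -/
theorem sum_fA (α : ℕ → ℝ) (R X W v H m : ℕ) :
    ∑ n ∈ (Ico (m - H) m).filter (fun n => n ≡ v [MOD W]), fA α R X n
      = ∑ p ∈ ((IS R ×ˢ QS X).filter (fun p => p.1 * p.2 ≡ v [MOD W])) with
          p.1 * p.2 ∈ Ico (m - H) m, α p.1 * om (YR R X) p.2 := by
  unfold fA
  rw [Finset.sum_comm, Finset.filter_filter, Finset.sum_filter, Finset.sum_product]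
  refine sum_congr rfl fun s _ => ?_
  rw [Finset.sum_comm]
  refine sum_congr rfl fun q _ => ?_
  rw [Finset.sum_ite_eq]
  by_cases h : s * q ∈ (Ico (m - H) m).filter (fun n => n ≡ v [MOD W])
  · rw [if_pos h, if_pos]
    rw [Finset.mem_filter] at h
    exact ⟨h.2, h.1⟩
  · rw [if_neg h, if_neg]
    intro h2
    exact h (Finset.mem_filter.2 ⟨h2.2, h2.1⟩)

/-- PROOF. The terms are nonnegative. -/
theorem fA_nonneg (α : ℕ → ℝ) (hα : Wt α) (R X n : ℕ) : 0 ≤ fA α R X n := by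
  unfold fA
  refine Finset.sum_nonneg fun s _ => Finset.sum_nonneg fun q _ => ?_
  split_ifs
  · exact mul_nonneg (hα s).1 (M_om_nonneg _ _)
  · exact le_rfl

/-- PROOF. `α ≤ 1`. -/
theorem fA_le (α : ℕ → ℝ) (hα : Wt α) (R X n : ℕ) : fA α R X n ≤ fS (IS R) (YR R X) X n := by
  unfold fA fS
  refine Finset.sum_le_sum fun s _ => Finset.sum_le_sum fun q _ => ?_
  split_ifs
  · exact mul_le_of_le_one_left (M_om_nonneg _ _) (hα s).2
  · exact le_rfl

/-- PROOF. `n = s q` with primes `s > R ≥ w` and `q > √X ≥ w` is coprime to `primorial w`. -/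
theorem fA_support (α : ℕ → ℝ) (R X w n : ℕ) (h1 : w ≤ R) (h2 : w ≤ Nat.sqrt X) (hn : ¬ Nat.Coprime n (primorial w)) :
    fA α R X n = 0 := by
  unfold fA
  refine Finset.sum_eq_zero fun s hs => Finset.sum_eq_zero fun q hq => ?_
  rw [if_neg]
  rintro rfl
  apply hn
  obtain ⟨hs1, hs2⟩ := mem_prI.mp hs
  obtain ⟨hq1, hq2⟩ := mem_prI.mp hq
  have key : ∀ p : ℕ, p.Prime → w < p → Nat.Coprime p (primorial w) := by
    intro p hp hwp
    rw [hp.coprime_iff_not_dvd]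
    intro hdvd
    unfold primorial at hdvd
    rw [Prime.dvd_finset_prod_iff hp.prime] at hdvd
    obtain ⟨r, hr, hpr⟩ := hdvd
    rw [Finset.mem_filter, Finset.mem_range] at hr
    have := (Nat.prime_dvd_prime_iff_eq hp hr.2).1 hpr
    omega
  exact Nat.Coprime.mul_left (key s hs2 (by omega)) (key q hq2 (by omega))

end Pool.Agent.Lib.MP_bae66e_nt.EF
end

section

/-!
# Row W2: the windows in a class (port of E2/W2)
-/

set_option autoImplicit false

namespace Pool.Agent.Lib.MP_bae66e_nt.EF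

open Finset MeasureTheory Real
open Pool.Agent.E3
open Pool.Agent.Lib.MP_bae66e_nt.E2 (YR FR PH)
open Pool.Agent.Lib.MP_bae66e_nt.LL (fP gW)
open Pool.Agent.Lib.MP_bae66e_nt.AC (Sg VV)
open Pool.Agent.Lib.MP_bae66e_nt.AP3 (prI mem_prI)

private lemma W2_orth (W c n : ℕ) (hW : 1 ≤ W) (hc : Nat.Coprime c W) :
    ∑ χ : DirichletCharacter ℂ W, χ ((c : ZMod W)⁻¹) * ch χ n =
      if n ≡ c [MOD W] then (Nat.totient W : ℂ) else 0 := by
  have : NeZero W := ⟨by omega⟩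
  have hu : IsUnit (c : ZMod W) := (ZMod.isUnit_iff_coprime c W).2 hc
  have h := DirichletCharacter.sum_char_inv_mul_char_eq ℂ hu (n : ZMod W)
  unfold ch
  rw [h]
  by_cases hn : n ≡ c [MOD W]
  · rw [if_pos hn, if_pos ((ZMod.natCast_eq_natCast_iff c n W).2 hn.symm)]
  · rw [if_neg hn, if_neg (fun h => hn ((ZMod.natCast_eq_natCast_iff c n W).1 h).symm)]

private lemma W2_cont (α : ℕ → ℝ) (W v : ℕ) (R X : ℕ) (w : ℝ) : Continuous (fun x : ℝ => XVA α W v R X w x) := by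
  unfold XVA
  refine continuous_finsetSum _ fun s _ => continuous_finsetSum _ fun q _ => ?_
  unfold gsn
  fun_prop

/-- PROOF. As `XV_eq` (E2/W2). -/
theorem XVA_eq (α : ℕ → ℝ) (W v : ℕ) (hW : 1 ≤ W) (hv : Nat.Coprime v W) (R X : ℕ) (d x : ℝ) :
    ((XVA α W v R X d x : ℝ) : ℂ)
      = 1 / (Nat.totient W : ℂ) * ∑ χ : DirichletCharacter ℂ W, χ ((v : ZMod W)⁻¹) * XXA χ α R X d x := by
  have hW0 : (Nat.totient W : ℂ) ≠ 0 := by exact_mod_cast (Nat.totient_pos.2 hW).ne'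
  have h1 : ∑ χ : DirichletCharacter ℂ W, χ ((v : ZMod W)⁻¹) * XXA χ α R X d x =
      ∑ s ∈ IS R, ∑ q ∈ QS X,
        (∑ χ : DirichletCharacter ℂ W, χ ((v : ZMod W)⁻¹) * ch χ (s * q)) *
          ((α s : ℂ) * ((om (YR R X) q / (s * q) * gsn d (x - Real.log (s * q)) : ℝ) : ℂ)) := by
    unfold XXA
    simp only [Finset.mul_sum, Finset.sum_mul]
    rw [Finset.sum_comm]
    refine sum_congr rfl fun s _ => ?_
    rw [Finset.sum_comm]
    refine sum_congr rfl fun q _ => ?_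
    refine sum_congr rfl fun χ _ => ?_
    ring
  rw [h1, Finset.mul_sum]
  unfold XVA
  rw [Complex.ofReal_sum]
  refine sum_congr rfl fun s _ => ?_
  rw [Finset.sum_filter, Complex.ofReal_sum, Finset.mul_sum]
  refine sum_congr rfl fun q _ => ?_
  rw [W2_orth W v (s * q) hW hv]
  by_cases hn : s * q ≡ v [MOD W]
  · rw [if_pos hn, if_pos hn, one_div, inv_mul_cancel_left₀ hW0, Complex.ofReal_mul]
  · rw [if_neg hn, if_neg hn]
    simp

/-- PROOF. As `class_window_g` (E3/M5). -/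
private theorem W2_cw2 (α : ℕ → ℝ) (W v : ℕ) (hW : 1 ≤ W) (hv : Nat.Coprime v W) (R X : ℕ) (d l B : ℝ)
    (hi : ∀ χ : DirichletCharacter ℂ W, Integrable (fun x : ℝ => ‖XXA χ α R X d x - XXA χ α R X l x‖ ^ 2))
    (h : ∀ χ : DirichletCharacter ℂ W, ∫ x : ℝ, ‖XXA χ α R X d x - XXA χ α R X l x‖ ^ 2 ≤ B) :
    Integrable (fun x : ℝ => (XVA α W v R X d x - XVA α W v R X l x) ^ 2) ∧
    ∫ x : ℝ, (XVA α W v R X d x - XVA α W v R X l x) ^ 2 ≤ B := by
  have : NeZero W := ⟨by omega⟩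
  have hφ : (0 : ℝ) < (Nat.totient W : ℝ) := by exact_mod_cast Nat.totient_pos.2 hW
  have hcard : (Fintype.card (DirichletCharacter ℂ W) : ℝ) = (Nat.totient W : ℝ) := by
    rw [← Nat.card_eq_fintype_card, DirichletCharacter.card_eq_totient_of_hasEnoughRootsOfUnity ℂ W]
  have heq : ∀ x : ℝ, ((XVA α W v R X d x - XVA α W v R X l x : ℝ) : ℂ) =
      1 / (Nat.totient W : ℂ) * ∑ χ : DirichletCharacter ℂ W,
        χ ((v : ZMod W)⁻¹) * (XXA χ α R X d x - XXA χ α R X l x) := by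
    intro x
    rw [Complex.ofReal_sub, XVA_eq α W v hW hv, XVA_eq α W v hW hv, ← mul_sub, ← Finset.sum_sub_distrib]
    congr 1
    exact sum_congr rfl fun χ _ => (mul_sub _ _ _).symm
  have hpt : ∀ x : ℝ, (XVA α W v R X d x - XVA α W v R X l x) ^ 2 ≤
      1 / (Nat.totient W : ℝ) * ∑ χ : DirichletCharacter ℂ W, ‖XXA χ α R X d x - XXA χ α R X l x‖ ^ 2 := by
    intro x
    have h1 : (XVA α W v R X d x - XVA α W v R X l x) ^ 2 =
        ‖((XVA α W v R X d x - XVA α W v R X l x : ℝ) : ℂ)‖ ^ 2 := by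
      rw [Complex.norm_real, Real.norm_eq_abs, sq_abs]
    have h2 : ‖((XVA α W v R X d x - XVA α W v R X l x : ℝ) : ℂ)‖ ≤
        1 / (Nat.totient W : ℝ) * ∑ χ : DirichletCharacter ℂ W, ‖XXA χ α R X d x - XXA χ α R X l x‖ := by
      rw [heq, norm_mul]
      have h3 : ‖(1 / (Nat.totient W : ℂ))‖ = 1 / (Nat.totient W : ℝ) := by
        rw [norm_div, norm_one, Complex.norm_natCast]
      rw [h3]
      refine mul_le_mul_of_nonneg_left ?_ (by positivity)
      refine (norm_sum_le _ _).trans (sum_le_sum fun χ _ => ?_)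
      rw [norm_mul]
      exact mul_le_of_le_one_left (norm_nonneg _) (DirichletCharacter.norm_le_one χ _)
    have h4 : (∑ χ : DirichletCharacter ℂ W, ‖XXA χ α R X d x - XXA χ α R X l x‖) ^ 2 ≤
        (Nat.totient W : ℝ) * ∑ χ : DirichletCharacter ℂ W, ‖XXA χ α R X d x - XXA χ α R X l x‖ ^ 2 := by
      rw [← hcard]
      exact sq_sum_le_card_mul_sum_sq
    rw [h1]
    calc ‖((XVA α W v R X d x - XVA α W v R X l x : ℝ) : ℂ)‖ ^ 2
        ≤ (1 / (Nat.totient W : ℝ) *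
            ∑ χ : DirichletCharacter ℂ W, ‖XXA χ α R X d x - XXA χ α R X l x‖) ^ 2 :=
          pow_le_pow_left₀ (norm_nonneg _) h2 2
      _ = (1 / (Nat.totient W : ℝ)) ^ 2 *
            (∑ χ : DirichletCharacter ℂ W, ‖XXA χ α R X d x - XXA χ α R X l x‖) ^ 2 := by
          rw [mul_pow]
      _ ≤ (1 / (Nat.totient W : ℝ)) ^ 2 *
          ((Nat.totient W : ℝ) *
            ∑ χ : DirichletCharacter ℂ W, ‖XXA χ α R X d x - XXA χ α R X l x‖ ^ 2) :=
          mul_le_mul_of_nonneg_left h4 (by positivity)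
      _ = 1 / (Nat.totient W : ℝ) *
            ∑ χ : DirichletCharacter ℂ W, ‖XXA χ α R X d x - XXA χ α R X l x‖ ^ 2 := by
          field_simp
  have hIχ : ∀ χ : DirichletCharacter ℂ W,
      Integrable (fun x : ℝ => ‖XXA χ α R X d x - XXA χ α R X l x‖ ^ 2) :=
    hi
  have hIs : Integrable (fun x : ℝ => 1 / (Nat.totient W : ℝ) *
      ∑ χ : DirichletCharacter ℂ W, ‖XXA χ α R X d x - XXA χ α R X l x‖ ^ 2) :=
    (integrable_finsetSum _ fun χ _ => hIχ χ).const_mul _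
  have hI : Integrable (fun x : ℝ => (XVA α W v R X d x - XVA α W v R X l x) ^ 2) := by
    refine hIs.mono' (((W2_cont α W v R X d).sub (W2_cont α W v R X l)).pow 2).aestronglyMeasurable
      (Filter.Eventually.of_forall fun x => ?_)
    rw [Real.norm_of_nonneg (sq_nonneg _)]
    exact hpt x
  refine ⟨hI, ?_⟩
  calc ∫ x : ℝ, (XVA α W v R X d x - XVA α W v R X l x) ^ 2
      ≤ ∫ x : ℝ, 1 / (Nat.totient W : ℝ) *
          ∑ χ : DirichletCharacter ℂ W, ‖XXA χ α R X d x - XXA χ α R X l x‖ ^ 2 :=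
        integral_mono hI hIs hpt
    _ = 1 / (Nat.totient W : ℝ) *
          ∑ χ : DirichletCharacter ℂ W, ∫ x : ℝ, ‖XXA χ α R X d x - XXA χ α R X l x‖ ^ 2 := by
        rw [integral_const_mul, integral_finsetSum _ fun χ _ => hIχ χ]
    _ ≤ 1 / (Nat.totient W : ℝ) * ∑ χ : DirichletCharacter ℂ W, B :=
        mul_le_mul_of_nonneg_left (sum_le_sum fun χ _ => h χ) (by positivity)
    _ = B := by
        rw [Finset.sum_const, nsmul_eq_mul, Finset.card_univ, hcard]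
        field_simp

/-- PROOF. As `class_window_L1` (E3/M5). -/
private theorem W2_cw1 (α : ℕ → ℝ) (W v : ℕ) (R X : ℕ) (d l B y : ℝ)
    (hi : Integrable (fun x : ℝ => (XVA α W v R X d x - XVA α W v R X l x) ^ 2))
    (h : ∫ x : ℝ, (XVA α W v R X d x - XVA α W v R X l x) ^ 2 ≤ B) :
    IntegrableOn (fun x : ℝ => |XVA α W v R X d x - XVA α W v R X l x|) (Set.Icc (y - 1) (y + 1)) ∧
    ∫ x in Set.Icc (y - 1) (y + 1), |XVA α W v R X d x - XVA α W v R X l x| ≤ Real.sqrt (2 * B) := by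
  set f : ℝ → ℝ := fun x => XVA α W v R X d x - XVA α W v R X l x with hf
  have hcont : Continuous f := (W2_cont α W v R X d).sub (W2_cont α W v R X l)
  have hI1 : IntegrableOn (fun x : ℝ => |f x|) (Set.Icc (y - 1) (y + 1)) :=
    hcont.abs.continuousOn.integrableOn_compact isCompact_Icc
  have hI2 : IntegrableOn (fun x : ℝ => (f x) ^ 2) (Set.Icc (y - 1) (y + 1)) :=
    (hcont.pow 2).continuousOn.integrableOn_compact isCompact_Icc
  refine ⟨hI1, ?_⟩
  have hvol : volume.real (Set.Icc (y - 1) (y + 1)) = 2 := by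
    rw [Real.volume_real_Icc_of_le (by linarith)]
    ring
  have hB : ∫ x in Set.Icc (y - 1) (y + 1), (f x) ^ 2 ≤ B :=
    (setIntegral_le_integral hi (Filter.Eventually.of_forall fun x => sq_nonneg _)).trans h
  set A : ℝ := ∫ x in Set.Icc (y - 1) (y + 1), |f x| with hA
  have hA0 : 0 ≤ A := integral_nonneg fun x => abs_nonneg _
  -- `0 ≤ ∫ (|f| - A/2)²`
  have hkey : 0 ≤ ∫ x in Set.Icc (y - 1) (y + 1), (|f x| - A / 2) ^ 2 :=
    integral_nonneg fun x => sq_nonneg _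
  have hexp : ∫ x in Set.Icc (y - 1) (y + 1), (|f x| - A / 2) ^ 2 =
      (∫ x in Set.Icc (y - 1) (y + 1), (f x) ^ 2) - A * A + (A / 2) ^ 2 * 2 := by
    have h1 : ∀ x, (|f x| - A / 2) ^ 2 = (f x) ^ 2 - A * |f x| + (A / 2) ^ 2 := by
      intro x
      rw [sub_sq, sq_abs]
      ring
    simp only [h1]
    have hI3 : IntegrableOn (fun x : ℝ => A * |f x|) (Set.Icc (y - 1) (y + 1)) := hI1.const_mul A
    have hI4 : IntegrableOn (fun x : ℝ => (f x) ^ 2 - A * |f x|) (Set.Icc (y - 1) (y + 1)) :=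
      hI2.sub hI3
    have hI5 : IntegrableOn (fun _ : ℝ => (A / 2) ^ 2) (Set.Icc (y - 1) (y + 1)) :=
      integrableOn_const (by simp)
    have e1 : ∫ x in Set.Icc (y - 1) (y + 1), ((f x) ^ 2 - A * |f x| + (A / 2) ^ 2) =
        (∫ x in Set.Icc (y - 1) (y + 1), ((f x) ^ 2 - A * |f x|)) +
          ∫ _x in Set.Icc (y - 1) (y + 1), (A / 2) ^ 2 := integral_add hI4 hI5
    have e2 : ∫ x in Set.Icc (y - 1) (y + 1), ((f x) ^ 2 - A * |f x|) =
        (∫ x in Set.Icc (y - 1) (y + 1), (f x) ^ 2) - ∫ x in Set.Icc (y - 1) (y + 1), A * |f x| :=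
      integral_sub hI2 hI3
    rw [e1, e2, integral_const_mul, setIntegral_const, hvol, ← hA, smul_eq_mul]
    ring
  rw [hexp] at hkey
  refine Real.le_sqrt_of_sq_le ?_
  nlinarith

/-- PROOF. As `class_window_e` and `class_window_L1e` (E2/W2): the first needs the integrability of `‖XXA d - XXA l‖²`, which is the first part of `XXA_planch` (row W1, hypothesis `hi` here). -/
theorem class_window_a (α : ℕ → ℝ) (W v : ℕ) (hW : 1 ≤ W) (hv : Nat.Coprime v W) (R X : ℕ) (d l B y : ℝ) (hd : 0 < d) (hl : 0 < l)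
    (hi : ∀ χ : DirichletCharacter ℂ W, Integrable (fun x : ℝ => ‖XXA χ α R X d x - XXA χ α R X l x‖ ^ 2))
    (h : ∀ χ : DirichletCharacter ℂ W, ∫ x : ℝ, ‖XXA χ α R X d x - XXA χ α R X l x‖ ^ 2 ≤ B) :
    IntegrableOn (fun x : ℝ => |XVA α W v R X d x - XVA α W v R X l x|) (Set.Icc (y - 1) (y + 1)) ∧
    ∫ x in Set.Icc (y - 1) (y + 1), |XVA α W v R X d x - XVA α W v R X l x| ≤ Real.sqrt (2 * B) := by
  obtain ⟨h1, h2⟩ := W2_cw2 α W v hW hv R X d l B hi h
  exact W2_cw1 α W v R X d l B y h1 h2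

end Pool.Agent.Lib.MP_bae66e_nt.EF
end
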