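import Pool.Agent.Lib.MP_bae66e_nt.Mg.G123
import Pool.Agent.Lib.MP_bae66e_nt.Mg.G037
import Pool.Agent.Lib.MP_bae66e_nt.E3.A0a
import Pool.Agent.Lib.MP_bae66e_nt.Mg.G014
import Pool.Agent.Lib.MP_bae66e_nt.Mg.G005
import Pool.Agent.Lib.MP_bae66e_nt.Mg.G098
import Pool.Agent.Lib.MP_bae66e_nt.Mg.G120
import Pool.Agent.Lib.MP_bae66e_nt.Mg.G029

section

/-!
# Row V3: the variance (port of E3/A7)
-/

set_option autoImplicit false

namespace Pool.Agent.Lib.MP_bae66e_nt.E2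

open Finset MeasureTheory Real
open Pool.Agent.E3
open Pool.Agent.Lib.MP_bae66e_nt.AP3 (prI mem_prI)
open Pool.Agent.Lib.MP_bae66e_nt.LL (corr fP gW)

private theorem V3_quart (X : ℕ) (hX : 16 ≤ X) : (X : ℝ) ^ (1 / 4 : ℝ) ≤ Nat.sqrt X := by
  set s : ℝ := (X : ℝ) ^ (1 / 4 : ℝ) with hs
  set N : ℕ := Nat.sqrt X with hN
  have hX0 : (0 : ℝ) ≤ X := Nat.cast_nonneg X
  have hs0 : 0 ≤ s := Real.rpow_nonneg hX0 _
  have h4 : s ^ 4 = X := by
    rw [hs, ← Real.rpow_natCast, ← Real.rpow_mul hX0]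
    norm_num
  have hX16 : (16 : ℝ) ≤ X := by exact_mod_cast hX
  have hs2 : 2 ≤ s := by
    by_contra hcon
    push Not at hcon
    have h5 : s ^ 4 < 2 ^ 4 := pow_lt_pow_left₀ hcon hs0 (by norm_num)
    rw [h4] at h5
    norm_num at h5
    linarith
  have h6 : X < (N + 1) * (N + 1) := Nat.lt_succ_sqrt X
  have h7 : (X : ℝ) < ((N : ℝ) + 1) * ((N : ℝ) + 1) := by exact_mod_cast h6
  have h8 : s ^ 2 < (N : ℝ) + 1 := by
    by_contra hcon
    push Not at hcon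
    have h9 : ((N : ℝ) + 1) * ((N : ℝ) + 1) ≤ s ^ 2 * s ^ 2 :=
      mul_le_mul hcon hcon (by positivity) (by positivity)
    have h10 : s ^ 2 * s ^ 2 = X := by rw [← h4]; ring
    linarith
  nlinarith

/-- The parameters. PROOF. `R = ⌊L^a⌋ → ∞`, `L = log X`, `H = 2R²`; `H FR = 2R²/(log R L) ≥ R` (as `R ≥ L^a/2`, `a ≥ 3`) and `K (1 + (log H)²) ≤ R`; `2R ≤ (Nat.sqrt X)^κ`. -/
theorem par_V (a K κ : ℝ) (ha : 3 ≤ a) (hκ : 0 < κ) : ∃ X₀ : ℕ, ∀ X : ℕ, X₀ ≤ X →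
    16 ≤ X ∧ K ≤ X ∧ 2 ≤ RJ a X ∧ 2 * RJ a X ≤ Nat.sqrt X ∧ 1 ≤ HJ a X ∧ K ≤ HJ a X ∧
      (X : ℝ) ^ (0.99 : ℝ) ≤ YR (RJ a X) X ∧ YR (RJ a X) X ≤ X ∧
      ((2 * RJ a X : ℕ) : ℝ) ≤ (Nat.sqrt X : ℝ) ^ κ ∧ 0 < FR (RJ a X) X ∧
      Real.log (HJ a X) * Real.log (RJ a X) ≤ RJ a X ∧
      K * (1 + (Real.log (HJ a X)) ^ 2) ≤ HJ a X * FR (RJ a X) X := by
  obtain ⟨X₁, hbas⟩ := RJ_basic a ((2560 * |K| + 3) ^ 8 + |K|) ha
  obtain ⟨X₂, hp2⟩ := pow_compare a 0 2 (1 / 4) (by norm_num)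
  obtain ⟨X₃, hp3⟩ := pow_compare a 0 1 (1 / 100) (by norm_num)
  obtain ⟨X₄, hp4⟩ := pow_compare a 0 2 (κ / 4) (by positivity)
  refine ⟨max (max X₁ X₂) (max X₃ X₄), fun X hX => ?_⟩
  obtain ⟨g1, g2, g3, g4, g5, g6, g7, g8⟩ := hbas X
    ((le_max_left _ _).trans ((le_max_left _ _).trans hX))
  have q2 := (hp2 X ((le_max_right _ _).trans ((le_max_left _ _).trans hX))).2
  have q3 := (hp3 X ((le_max_left _ _).trans ((le_max_right _ _).trans hX))).2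
  have q4 := (hp4 X ((le_max_right _ _).trans ((le_max_right _ _).trans hX))).2
  rw [Real.rpow_zero, mul_one] at q2 q3 q4
  have hq := V3_quart X (by omega)
  have hX0 : (0 : ℝ) < X := by exact_mod_cast (by omega : 0 < X)
  have hlX : Real.log X ≤ X := Real.log_le_self hX0.le
  have hK0 := abs_nonneg K
  have hK1 := le_abs_self K
  have hB0 : (0 : ℝ) ≤ (2560 * |K| + 3) ^ 8 := by positivity
  have hFRd : FR (RJ a X) X = 1 / (Real.log (RJ a X) * Real.log X) := rfl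
  have hYRd : YR (RJ a X) X = (X : ℝ) / (RJ a X : ℕ) := rfl
  have hHc : (HJ a X : ℝ) = 2 * (RJ a X : ℝ) ^ 2 := by
    unfold HJ
    push_cast
    ring
  generalize hRdef : RJ a X = Rn at *
  set r : ℝ := (Rn : ℝ) with hr
  have hr3 : 3 ≤ r := by linarith
  have hr0 : 0 < r := by linarith
  have hR2 : 2 ≤ Rn := by
    have h1 : (2 : ℝ) ≤ Rn := by rw [← hr]; linarith
    exact_mod_cast h1
  -- the eighth root
  obtain ⟨u, hu0, hu8⟩ : ∃ u : ℝ, 0 ≤ u ∧ u ^ 8 = r := by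
    refine ⟨r ^ (1 / 8 : ℝ), Real.rpow_nonneg hr0.le _, ?_⟩
    rw [← Real.rpow_natCast, ← Real.rpow_mul hr0.le]
    norm_num
  have huB : 2560 * |K| + 3 ≤ u := by
    by_contra hcon
    push Not at hcon
    have h5 : u ^ 8 < (2560 * |K| + 3) ^ 8 := pow_lt_pow_left₀ hcon hu0 (by norm_num)
    rw [hu8] at h5
    linarith
  have hu3 : 3 ≤ u := by linarith
  have hupos : 0 < u := by linarith
  have hlr : Real.log r ≤ 8 * u := by
    rw [← hu8, Real.log_pow]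
    have := Real.log_le_sub_one_of_pos hupos
    push_cast
    linarith
  have hl1 : 1 ≤ Real.log r := by
    rw [Real.le_log_iff_exp_le hr0]
    have := Real.exp_one_lt_d9
    linarith
  have hlH : Real.log (HJ a X) ≤ 3 * Real.log r := by
    rw [hHc, Real.log_mul (by norm_num) (by positivity), Real.log_pow]
    have h2 : Real.log 2 ≤ Real.log r := Real.log_le_log (by norm_num) (by linarith)
    push_cast
    linarith
  have hlH0 : 0 ≤ Real.log (HJ a X) := Real.log_natCast_nonneg _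
  have hu2 : 9 ≤ u ^ 2 := by nlinarith
  have hu4 : 81 ≤ u ^ 4 := by nlinarith [sq_nonneg (u ^ 2)]
  have hHr : r ≤ (HJ a X : ℝ) := by
    rw [hHc]
    nlinarith
  refine ⟨by omega, by linarith, hR2, ?_, ?_, by linarith, ?_, ?_, ?_, ?_, ?_, ?_⟩
  · have e1 : (2 : ℝ) * Rn ≤ Nat.sqrt X := by
      rw [← hr]
      linarith
    exact_mod_cast e1
  · have e1 : (1 : ℝ) ≤ HJ a X := by linarith
    exact_mod_cast e1
  · rw [hYRd, le_div_iff₀ hr0]
    have e1 : (X : ℝ) ^ (0.99 : ℝ) * (X : ℝ) ^ (1 / 100 : ℝ) = X := by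
      rw [← Real.rpow_add hX0]
      norm_num
    calc (X : ℝ) ^ (0.99 : ℝ) * r ≤ (X : ℝ) ^ (0.99 : ℝ) * (X : ℝ) ^ (1 / 100 : ℝ) :=
          mul_le_mul_of_nonneg_left (by linarith) (Real.rpow_nonneg hX0.le _)
      _ = X := e1
  · rw [hYRd]
    exact div_le_self hX0.le (by linarith)
  · push_cast
    have e1 : (X : ℝ) ^ (κ / 4) = ((X : ℝ) ^ (1 / 4 : ℝ)) ^ κ := by
      rw [← Real.rpow_mul hX0.le]
      congr 1
      ring
    rw [← hr]
    calc 2 * r ≤ (X : ℝ) ^ (κ / 4) := by linarith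
      _ = ((X : ℝ) ^ (1 / 4 : ℝ)) ^ κ := e1
      _ ≤ _ := Real.rpow_le_rpow (Real.rpow_nonneg hX0.le _) hq hκ.le
  · rw [hFRd]
    have : 0 < Real.log X := by linarith
    positivity
  · calc Real.log (HJ a X) * Real.log r ≤ (3 * Real.log r) * Real.log r :=
          mul_le_mul_of_nonneg_right hlH (by linarith)
      _ ≤ (3 * (8 * u)) * (8 * u) := by
          apply mul_le_mul (by linarith) hlr (by linarith) (by positivity)
      _ = 192 * u ^ 2 := by ring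
      _ ≤ u ^ 8 := by
          have e1 : u ^ 8 = u ^ 2 * (u ^ 2 * u ^ 4) := by ring
          rw [e1]
          have e2 : 192 ≤ u ^ 2 * u ^ 4 := by nlinarith
          nlinarith
      _ = r := hu8
  · rw [hFRd]
    have hlX0 : 0 < Real.log X := by linarith
    have e1 : (Real.log (HJ a X)) ^ 2 ≤ 9 * (Real.log r) ^ 2 := by nlinarith
    have e2 : 1 ≤ (Real.log r) ^ 2 := by nlinarith
    have e3 : K * (1 + (Real.log (HJ a X)) ^ 2) ≤ |K| * (10 * (Real.log r) ^ 2) := by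
      calc K * (1 + (Real.log (HJ a X)) ^ 2) ≤ |K| * (1 + (Real.log (HJ a X)) ^ 2) :=
            mul_le_mul_of_nonneg_right hK1 (by positivity)
        _ ≤ |K| * (10 * (Real.log r) ^ 2) := mul_le_mul_of_nonneg_left (by linarith) hK0
    refine e3.trans ?_
    rw [hHc]
    have e4 : 2 * r ^ 2 * (1 / (Real.log r * r)) ≤ 2 * r ^ 2 * (1 / (Real.log r * Real.log X)) := by
      apply mul_le_mul_of_nonneg_left _ (by positivity)
      apply one_div_le_one_div_of_le (by positivity)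
      apply mul_le_mul_of_nonneg_left _ (by linarith)
      linarith
    refine le_trans ?_ e4
    have e5 : 2 * r ^ 2 * (1 / (Real.log r * r)) = 2 * r / Real.log r := by
      field_simp
    rw [e5, le_div_iff₀ (by linarith)]
    have e6 : (Real.log r) ^ 3 ≤ (8 * u) ^ 3 := pow_le_pow_left₀ (by linarith) hlr 3
    calc |K| * (10 * (Real.log r) ^ 2) * Real.log r = 10 * |K| * (Real.log r) ^ 3 := by ring
      _ ≤ 10 * |K| * (8 * u) ^ 3 := mul_le_mul_of_nonneg_left e6 (by positivity)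
      _ = 2 * (u ^ 3 * (2560 * |K|)) := by ring
      _ ≤ 2 * (u ^ 3 * u ^ 5) := by
          have e7 : 2560 * |K| ≤ u ^ 5 := by
            have e8 : u ≤ u ^ 5 := by
              have : u ^ 5 = u * u ^ 4 := by ring
              nlinarith
            linarith
          have e9 : 0 ≤ u ^ 3 := by positivity
          nlinarith [mul_le_mul_of_nonneg_left e7 e9]
      _ = 2 * r := by rw [← hu8]; ring

/-- PROOF. As `vara2_of` (E3/A7), with `var_bound` (E3/A1b), `cce_zero_le`, `cce_le`, `corr_zero_le`, `EE_supp` (E3/A6), `energy_small`, `par_V`;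
`R YR = X`, `N = 2 R X² + 1`, `fe_small`, `fe_big`. -/
theorem vare_of (hSL : SLP) (a : ℝ) (ha : 3 ≤ a) : VARE a := by
  intro η hη
  obtain ⟨C₁, hC1, hz⟩ := cce_zero_le
  obtain ⟨κ, C₂, hκ0, hκ1, hC2, z₀, hz0, hcc⟩ := cce_le hSL
  obtain ⟨C₃, hC3, hvar⟩ := var_bound
  have hC1p : 0 < C₁ := by linarith
  have hC2p : 0 < C₂ := by linarith
  have hC3p : 0 < C₃ := by linarith
  have he0 : 0 < η / (2 * C₃ * C₂) := by positivity
  have hε : 0 < (η / (2 * C₃ * C₂)) ^ 2 := by positivity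
  have hsqrt : Real.sqrt ((η / (2 * C₃ * C₂)) ^ 2) = η / (2 * C₃ * C₂) := Real.sqrt_sq he0.le
  obtain ⟨w₀, hw⟩ := Pool.Agent.Lib.MP_bae66e_nt.LL.energy_small ((η / (2 * C₃ * C₂)) ^ 2) hε
  refine ⟨w₀, fun w hww => ?_⟩
  obtain ⟨Y₀, hY⟩ := hw w hww
  have hW1 : 1 ≤ primorial w := primorial_pos w
  obtain ⟨X₁, hPA⟩ := par_V a (max ((Y₀ : ℝ) + 1) (2 * C₁ * (1 + (primorial w : ℝ) ^ 2) / η)) κ ha hκ0
  refine ⟨max X₁ (z₀ * z₀), fun X hX => ?_⟩
  obtain ⟨p16, -, pR2, pRX, pH1, pHK, pYl, pYu, psX, pF, plog, pdiag⟩ :=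
    hPA X ((le_max_left _ _).trans hX)
  have hzX : z₀ ≤ Nat.sqrt X := Nat.le_sqrt.2 ((le_max_right _ _).trans hX)
  have hRpos : (0 : ℝ) < RJ a X := by exact_mod_cast (by omega : 0 < RJ a X)
  have hXpos : (0 : ℝ) < X := by exact_mod_cast (by omega : 0 < X)
  have hYeq : (RJ a X : ℝ) * YR (RJ a X) X = X := by
    unfold YR
    field_simp
  have hYpos : 0 < YR (RJ a X) X := by
    unfold YR
    positivity
  have hFdef : FR (RJ a X) X = 1 / (Real.log (RJ a X) * Real.log X) := rfl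
  have hH0 : (0 : ℝ) ≤ HJ a X := Nat.cast_nonneg _
  have hY₀H : Y₀ ≤ HJ a X := by
    have h1 : (Y₀ : ℝ) + 1 ≤ HJ a X := (le_max_left _ _).trans pHK
    have h2 : (Y₀ : ℝ) ≤ HJ a X := by linarith
    exact_mod_cast h2
  have h8 : cc (fS (IS (RJ a X)) (YR (RJ a X) X) X) (2 * RJ a X * X ^ 2 + 1) 0
      ≤ C₁ * X * FR (RJ a X) X := by
    refine (hz (RJ a X) X (2 * RJ a X * X ^ 2 + 1) (YR (RJ a X) X) pR2 pRX p16 pYl pYu).trans
      (le_of_eq ?_)
    rw [hYeq, hFdef]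
    ring
  have h9 : ∀ d, 1 ≤ d → d ≤ HJ a X →
      cc (fS (IS (RJ a X)) (YR (RJ a X) X) X) (2 * RJ a X * X ^ 2 + 1) d
        ≤ (C₂ * X * (FR (RJ a X) X) ^ 2) * (Fr d) ^ 2 := by
    intro d hd hdH
    have hlogd : Real.log d * Real.log (RJ a X) ≤ RJ a X := by
      have h1 : Real.log d ≤ Real.log (HJ a X) := by
        apply Real.log_le_log
        · exact_mod_cast hd
        · exact_mod_cast hdH
      have h2 : 0 ≤ Real.log (RJ a X) := Real.log_natCast_nonneg _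
      exact (mul_le_mul_of_nonneg_right h1 h2).trans plog
    refine (hcc (RJ a X) X (2 * RJ a X * X ^ 2 + 1) d (YR (RJ a X) X) hzX pR2 hd hYpos hlogd
      psX).trans (le_of_eq ?_)
    rw [hYeq, hFdef]
    ring
  have hmain := hvar (HJ a X) (2 * RJ a X * X ^ 2 + 1)
    (fun n => fP (HJ a X) n - gW (primorial w) (HJ a X) n)
    (fS (IS (RJ a X)) (YR (RJ a X) X) X) (Icc X (2 * X)) (C₁ * X * FR (RJ a X) X)
    (C₂ * X * (FR (RJ a X) X) ^ 2)
    ((HJ a X : ℝ) * ((Real.log (HJ a X)) ^ 2 + (primorial w : ℝ) ^ 2)) ((η / (2 * C₃ * C₂)) ^ 2)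
    (EE_supp (primorial w) (HJ a X))
    (fe_small _ X 0 _ (Nat.zero_le _))
    (fun n hn => fe_big _ X n _ hn) (fun n => fS_nonneg _ _ X n)
    (by positivity) (by positivity) hε.le h8 h9 (corr_zero_le (primorial w) (HJ a X) hW1 pH1)
    (hY (HJ a X) hY₀H)
  have hgoal : ∑ m ∈ Icc X (2 * X), (∑ t ∈ Icc 1 (HJ a X),
        (fP (HJ a X) (t : ℤ) - gW (primorial w) (HJ a X) (t : ℤ)) * fR a X (m - t)) ^ 2
      ≤ (HJ a X : ℝ) * ((Real.log (HJ a X)) ^ 2 + (primorial w : ℝ) ^ 2) *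
          (C₁ * X * FR (RJ a X) X) +
        C₃ * Real.sqrt ((η / (2 * C₃ * C₂)) ^ 2) * (C₂ * X * (FR (RJ a X) X) ^ 2) *
          (HJ a X : ℝ) ^ 2 :=
    hmain
  refine hgoal.trans ?_
  rw [hsqrt]
  have hGE : GE a X = (HJ a X : ℝ) * FR (RJ a X) X := rfl
  rw [hGE]
  have hsecond : C₃ * (η / (2 * C₃ * C₂)) * (C₂ * X * (FR (RJ a X) X) ^ 2) * (HJ a X : ℝ) ^ 2
      = η / 2 * X * ((HJ a X : ℝ) * FR (RJ a X) X) ^ 2 := by
    field_simp
  rw [hsecond]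
  have hK2 : 2 * C₁ * (1 + (primorial w : ℝ) ^ 2) / η * (1 + (Real.log (HJ a X)) ^ 2)
      ≤ HJ a X * FR (RJ a X) X := by
    refine le_trans ?_ pdiag
    apply mul_le_mul_of_nonneg_right (le_max_right _ _)
    positivity
  have hfirst : C₁ * ((Real.log (HJ a X)) ^ 2 + (primorial w : ℝ) ^ 2)
      ≤ η / 2 * (HJ a X * FR (RJ a X) X) := by
    have h1 : (Real.log (HJ a X)) ^ 2 + (primorial w : ℝ) ^ 2
        ≤ (1 + (primorial w : ℝ) ^ 2) * (1 + (Real.log (HJ a X)) ^ 2) := by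
      have h2 : 0 ≤ (primorial w : ℝ) ^ 2 * (Real.log (HJ a X)) ^ 2 := by positivity
      nlinarith
    have h3 : C₁ * ((1 + (primorial w : ℝ) ^ 2) * (1 + (Real.log (HJ a X)) ^ 2))
        = η / 2 * (2 * C₁ * (1 + (primorial w : ℝ) ^ 2) / η * (1 + (Real.log (HJ a X)) ^ 2)) := by
      field_simp
    calc C₁ * ((Real.log (HJ a X)) ^ 2 + (primorial w : ℝ) ^ 2)
        ≤ C₁ * ((1 + (primorial w : ℝ) ^ 2) * (1 + (Real.log (HJ a X)) ^ 2)) :=
          mul_le_mul_of_nonneg_left h1 hC1p.le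
      _ = η / 2 * (2 * C₁ * (1 + (primorial w : ℝ) ^ 2) / η * (1 + (Real.log (HJ a X)) ^ 2)) := h3
      _ ≤ η / 2 * (HJ a X * FR (RJ a X) X) := mul_le_mul_of_nonneg_left hK2 (by positivity)
  have hHXF : 0 ≤ (HJ a X : ℝ) * X * FR (RJ a X) X := by positivity
  have h5 := mul_le_mul_of_nonneg_left hfirst hHXF
  calc (HJ a X : ℝ) * ((Real.log (HJ a X)) ^ 2 + (primorial w : ℝ) ^ 2) *
        (C₁ * X * FR (RJ a X) X) +
        η / 2 * X * ((HJ a X : ℝ) * FR (RJ a X) X) ^ 2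
      = (HJ a X : ℝ) * X * FR (RJ a X) X *
          (C₁ * ((Real.log (HJ a X)) ^ 2 + (primorial w : ℝ) ^ 2)) +
        η / 2 * X * ((HJ a X : ℝ) * FR (RJ a X) X) ^ 2 := by ring
    _ ≤ (HJ a X : ℝ) * X * FR (RJ a X) X * (η / 2 * (HJ a X * FR (RJ a X) X)) +
        η / 2 * X * ((HJ a X : ℝ) * FR (RJ a X) X) ^ 2 := by linarith
    _ = η * X * ((HJ a X : ℝ) * FR (RJ a X) X) ^ 2 := by ring

end Pool.Agent.Lib.MP_bae66e_nt.E2
end

section

/-!
# Row V: the variance (port of E2/V3)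
-/

set_option autoImplicit false

namespace Pool.Agent.Lib.MP_bae66e_nt.EF

open Finset MeasureTheory Real
open Pool.Agent.E3
open Pool.Agent.Lib.MP_bae66e_nt.E2 (YR FR PH)
open Pool.Agent.Lib.MP_bae66e_nt.LL (fP gW)
open Pool.Agent.Lib.MP_bae66e_nt.AC (Sg VV)
open Pool.Agent.Lib.MP_bae66e_nt.AP3 (prI mem_prI)

/-- PROOF. Port of `vare_of` (E2/V3) with a general `R` (`parA` in place of `par_V`) and `fA` in place of `fS`: `0 ≤ fA ≤ fS` (`fA_nonneg`, `fA_le`), so `cc fA N d ≤ cc fS N d`, and `fA` vanishes where `fS` does (`fe_small`, `fe_big`).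
`slp` (E3/SL4, as in E2/Fin) gives `SLP`. -/
theorem vareg_of (a : ℝ) (ha : 3 ≤ a) : VAREG a := by
  intro η hη
  obtain ⟨C₁, hC1, hz⟩ := Pool.Agent.Lib.MP_bae66e_nt.E2.cce_zero_le
  obtain ⟨κ, C₂, hκ0, hκ1, hC2, z₀, hz0, hcc⟩ := Pool.Agent.Lib.MP_bae66e_nt.E2.cce_le slp
  obtain ⟨C₃, hC3, hvar⟩ := var_bound
  have hC1p : 0 < C₁ := by linarith
  have hC2p : 0 < C₂ := by linarith
  have hC3p : 0 < C₃ := by linarith
  have he0 : 0 < η / (2 * C₃ * C₂) := by positivity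
  have hε : 0 < (η / (2 * C₃ * C₂)) ^ 2 := by positivity
  have hsqrt : Real.sqrt ((η / (2 * C₃ * C₂)) ^ 2) = η / (2 * C₃ * C₂) := Real.sqrt_sq he0.le
  obtain ⟨w₀, hw⟩ := Pool.Agent.Lib.MP_bae66e_nt.LL.energy_small ((η / (2 * C₃ * C₂)) ^ 2) hε
  refine ⟨w₀, fun w hww => ?_⟩
  obtain ⟨Y₀, hY⟩ := hw w hww
  have hW1 : 1 ≤ primorial w := primorial_pos w
  obtain ⟨X₁, hPA⟩ := parA a (max ((Y₀ : ℝ) + 1) (2 * C₁ * (1 + (primorial w : ℝ) ^ 2) / η)) κ ha hκ0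
  refine ⟨max X₁ (z₀ * z₀), fun X hX R hR α hα => ?_⟩
  obtain ⟨p64, -, -, -, pKR, p3R, -, -, -, pRX, -, -, -, psX, pYl, pYu, pF, -, plog, pdiag⟩ :=
    hPA X ((le_max_left _ _).trans hX) R hR
  have pR2 : 2 ≤ R := by omega
  have p16 : 16 ≤ X := le_trans (by norm_num) p64
  have hRH : R ≤ HR R := by
    unfold HR
    nlinarith
  have pH1 : 1 ≤ HR R := by omega
  have pHK : max ((Y₀ : ℝ) + 1) (2 * C₁ * (1 + (primorial w : ℝ) ^ 2) / η) ≤ HR R := by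
    have h1 : (R : ℝ) ≤ HR R := by exact_mod_cast hRH
    exact pKR.trans h1
  have hzX : z₀ ≤ Nat.sqrt X := Nat.le_sqrt.2 ((le_max_right _ _).trans hX)
  have hRpos : (0 : ℝ) < R := by exact_mod_cast (by omega : 0 < R)
  have hXpos : (0 : ℝ) < X := by exact_mod_cast (by omega : 0 < X)
  have hYeq : (R : ℝ) * YR R X = X := by
    unfold YR
    field_simp
  have hYpos : 0 < YR R X := by
    unfold YR
    positivity
  have hFdef : FR R X = 1 / (Real.log R * Real.log X) := rfl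
  have hH0 : (0 : ℝ) ≤ HR R := Nat.cast_nonneg _
  have hY₀H : Y₀ ≤ HR R := by
    have h1 : (Y₀ : ℝ) + 1 ≤ HR R := (le_max_left _ _).trans pHK
    have h2 : (Y₀ : ℝ) ≤ HR R := by linarith
    exact_mod_cast h2
  have hcmp : ∀ d, cc (fA α R X) (2 * R * X ^ 2 + 1) d
      ≤ cc (fS (IS R) (YR R X) X) (2 * R * X ^ 2 + 1) d := by
    intro d
    unfold cc
    refine Finset.sum_le_sum fun n _ => ?_
    exact mul_le_mul (fA_le α hα R X n) (fA_le α hα R X (n + d)) (fA_nonneg α hα R X _)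
      (fS_nonneg _ _ X n)
  have h8 : cc (fA α R X) (2 * R * X ^ 2 + 1) 0
      ≤ C₁ * X * FR R X := by
    refine (hcmp 0).trans ((hz R X (2 * R * X ^ 2 + 1) (YR R X) pR2 pRX p16 pYl pYu).trans
      (le_of_eq ?_))
    rw [hYeq, hFdef]
    ring
  have h9 : ∀ d, 1 ≤ d → d ≤ HR R →
      cc (fA α R X) (2 * R * X ^ 2 + 1) d
        ≤ (C₂ * X * (FR R X) ^ 2) * (Fr d) ^ 2 := by
    intro d hd hdH
    have hlogd : Real.log d * Real.log R ≤ R := by
      have h1 : Real.log d ≤ Real.log (HR R) := by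
        apply Real.log_le_log
        · exact_mod_cast hd
        · exact_mod_cast hdH
      have h2 : 0 ≤ Real.log R := Real.log_natCast_nonneg _
      exact (mul_le_mul_of_nonneg_right h1 h2).trans plog
    refine (hcmp d).trans ((hcc R X (2 * R * X ^ 2 + 1) d (YR R X) hzX pR2 hd hYpos hlogd
      psX).trans (le_of_eq ?_))
    rw [hYeq, hFdef]
    ring
  have hsm : ∀ n, n ≤ Nat.sqrt X → fA α R X n = 0 := by
    intro n hn
    refine le_antisymm ?_ (fA_nonneg α hα R X n)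
    rw [← Pool.Agent.Lib.MP_bae66e_nt.E2.fe_small R X n (YR R X) hn]
    exact fA_le α hα R X n
  have hbg : ∀ n, 2 * R * X ^ 2 + 1 ≤ n → fA α R X n = 0 := by
    intro n hn
    refine le_antisymm ?_ (fA_nonneg α hα R X n)
    rw [← Pool.Agent.Lib.MP_bae66e_nt.E2.fe_big R X n (YR R X) hn]
    exact fA_le α hα R X n
  have hmain := hvar (HR R) (2 * R * X ^ 2 + 1)
    (fun n => fP (HR R) n - gW (primorial w) (HR R) n)
    (fA α R X) (Icc X (2 * X)) (C₁ * X * FR R X)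
    (C₂ * X * (FR R X) ^ 2)
    ((HR R : ℝ) * ((Real.log (HR R)) ^ 2 + (primorial w : ℝ) ^ 2)) ((η / (2 * C₃ * C₂)) ^ 2)
    (EE_supp (primorial w) (HR R))
    (hsm 0 (Nat.zero_le _))
    (fun n hn => hbg n hn) (fun n => fA_nonneg α hα R X n)
    (by positivity) (by positivity) hε.le h8 h9 (corr_zero_le (primorial w) (HR R) hW1 pH1)
    (hY (HR R) hY₀H)
  have hgoal : ∑ m ∈ Icc X (2 * X), (∑ t ∈ Icc 1 (HR R),
        (fP (HR R) (t : ℤ) - gW (primorial w) (HR R) (t : ℤ)) * fA α R X (m - t)) ^ 2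
      ≤ (HR R : ℝ) * ((Real.log (HR R)) ^ 2 + (primorial w : ℝ) ^ 2) *
          (C₁ * X * FR R X) +
        C₃ * Real.sqrt ((η / (2 * C₃ * C₂)) ^ 2) * (C₂ * X * (FR R X) ^ 2) *
          (HR R : ℝ) ^ 2 :=
    hmain
  refine hgoal.trans ?_
  rw [hsqrt]
  have hsecond : C₃ * (η / (2 * C₃ * C₂)) * (C₂ * X * (FR R X) ^ 2) * (HR R : ℝ) ^ 2
      = η / 2 * X * ((HR R : ℝ) * FR R X) ^ 2 := by
    field_simp
  rw [hsecond]
  have hK2 : 2 * C₁ * (1 + (primorial w : ℝ) ^ 2) / η * (1 + (Real.log (HR R)) ^ 2)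
      ≤ HR R * FR R X := by
    refine le_trans ?_ pdiag
    apply mul_le_mul_of_nonneg_right (le_max_right _ _)
    positivity
  have hfirst : C₁ * ((Real.log (HR R)) ^ 2 + (primorial w : ℝ) ^ 2)
      ≤ η / 2 * (HR R * FR R X) := by
    have h1 : (Real.log (HR R)) ^ 2 + (primorial w : ℝ) ^ 2
        ≤ (1 + (primorial w : ℝ) ^ 2) * (1 + (Real.log (HR R)) ^ 2) := by
      have h2 : 0 ≤ (primorial w : ℝ) ^ 2 * (Real.log (HR R)) ^ 2 := by positivity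
      nlinarith
    have h3 : C₁ * ((1 + (primorial w : ℝ) ^ 2) * (1 + (Real.log (HR R)) ^ 2))
        = η / 2 * (2 * C₁ * (1 + (primorial w : ℝ) ^ 2) / η * (1 + (Real.log (HR R)) ^ 2)) := by
      field_simp
    calc C₁ * ((Real.log (HR R)) ^ 2 + (primorial w : ℝ) ^ 2)
        ≤ C₁ * ((1 + (primorial w : ℝ) ^ 2) * (1 + (Real.log (HR R)) ^ 2)) :=
          mul_le_mul_of_nonneg_left h1 hC1p.le
      _ = η / 2 * (2 * C₁ * (1 + (primorial w : ℝ) ^ 2) / η * (1 + (Real.log (HR R)) ^ 2)) := h3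
      _ ≤ η / 2 * (HR R * FR R X) := mul_le_mul_of_nonneg_left hK2 (by positivity)
  have hHXF : 0 ≤ (HR R : ℝ) * X * FR R X := by positivity
  have h5 := mul_le_mul_of_nonneg_left hfirst hHXF
  calc (HR R : ℝ) * ((Real.log (HR R)) ^ 2 + (primorial w : ℝ) ^ 2) *
        (C₁ * X * FR R X) +
        η / 2 * X * ((HR R : ℝ) * FR R X) ^ 2
      = (HR R : ℝ) * X * FR R X *
          (C₁ * ((Real.log (HR R)) ^ 2 + (primorial w : ℝ) ^ 2)) +
        η / 2 * X * ((HR R : ℝ) * FR R X) ^ 2 := by ring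
    _ ≤ (HR R : ℝ) * X * FR R X * (η / 2 * (HR R * FR R X)) +
        η / 2 * X * ((HR R : ℝ) * FR R X) ^ 2 := by linarith
    _ = η * X * ((HR R : ℝ) * FR R X) ^ 2 := by ring

end Pool.Agent.Lib.MP_bae66e_nt.EF
end
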