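import Pool.Agent.Lib.MP_bae66e_nt.Mg.G001
import Pool.Agent.Lib.MP_bae66e_nt.Mg.G006

section

/-!
# K0: the conditions of CORE2 and their asymptotic consequences
-/

set_option autoImplicit false

namespace Pool.Agent.E3

open Finset MeasureTheory Real Filter
open Pool.Agent.Lib.MP_bae66e_nt.AP3 (prI mem_prI)

/-- the hypotheses of CORE2 on the parameters -/
structure CH2 (a c : ℝ) (X R ℓ : ℕ) (Y Δ : ℝ) : Prop where
  Rlow : (ll X) ^ c / 4 ≤ R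
  Rup : (R : ℝ) ≤ (ll X) ^ c
  R2low : (Real.log X) ^ a ≤ (R : ℝ) ^ ℓ
  R2up : (R : ℝ) ^ ℓ ≤ (Real.log X) ^ (a + 1)
  Ylow : (X : ℝ) ^ (0.99 : ℝ) ≤ Y
  Yup : Y ≤ X
  Dpos : 0 < Δ
  Dup : Δ ≤ (X : ℝ) ^ (-(1 / 2) : ℝ)
  DRY : Real.log X * (ll X) ^ 3 ≤ Δ * (R : ℝ) ^ ℓ * Y
  DX : Real.log X ≤ Δ * X

/-- the size in CORE2 -/
noncomputable def TG2 (X R ℓ : ℕ) : ℝ :=
  (1 / (Real.log R * Real.log ((R : ℝ) ^ ℓ) * Real.log X)) ^ 2

private theorem K0_ll (K : ℝ) : ∃ X₀ : ℕ, ∀ X : ℕ, X₀ ≤ X → K ≤ ll X ∧ 3 ≤ X := by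
  have h := (Real.tendsto_log_atTop.comp (Real.tendsto_log_atTop.comp
    (tendsto_natCast_atTop_atTop (R := ℝ)))).eventually_ge_atTop K
  obtain ⟨X₀, h⟩ := eventually_atTop.mp h
  exact ⟨max X₀ 3, fun X hX => ⟨h X (le_trans (le_max_left _ _) hX),
    le_trans (le_max_right _ _) hX⟩⟩

private theorem K0_rpow (η K : ℝ) (hη : 0 < η) : ∃ y₀ : ℝ, ∀ y : ℝ, y₀ ≤ y → K ≤ y ^ η :=
  eventually_atTop.mp ((tendsto_rpow_atTop hη).eventually_ge_atTop K)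

private theorem K0_logX (X : ℕ) (hX : 3 ≤ X) : 1 < Real.log X := by
  have hX3 : (3 : ℝ) ≤ X := by exact_mod_cast hX
  rw [Real.lt_log_iff_exp_lt (by linarith)]
  have := Real.exp_one_lt_d9
  linarith

private theorem K0_l {a c : ℝ} (ha : 3 ≤ a) {X R ℓ : ℕ} {Y Δ : ℝ} (hX : 3 ≤ X)
    (h : CH2 a c X R ℓ Y Δ) : ℓ ≠ 0 := by
  intro h0
  have hL := K0_logX X hX
  have h1 := h.R2low
  rw [h0, pow_zero] at h1
  have h2 : 1 < (Real.log X) ^ a := Real.one_lt_rpow hL (by linarith)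
  linarith

private theorem K0_ll_le (X : ℕ) (hX : 3 ≤ X) : ll X ≤ Real.log X := by
  have hL := K0_logX X hX
  have := Real.log_le_sub_one_of_pos (show 0 < Real.log X by linarith)
  unfold ll
  linarith

private theorem K0_exp (X : ℕ) (hX : 3 ≤ X) : Real.exp (ll X) = Real.log X := by
  have hL := K0_logX X hX
  exact Real.exp_log (by linarith)

private theorem K0_log_R2 {a c : ℝ} {X R ℓ : ℕ} {Y Δ : ℝ} (hX : 3 ≤ X) (hR : 1 ≤ R)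
    (h : CH2 a c X R ℓ Y Δ) : Real.log ((R : ℝ) ^ ℓ) ≤ (a + 1) * ll X := by
  have hL := K0_logX X hX
  have hR' : (1 : ℝ) ≤ R := by exact_mod_cast hR
  have h1 := Real.log_le_log (pow_pos (by linarith) ℓ) h.R2up
  rwa [Real.log_rpow (by linarith)] at h1

/-- PROOF. `R^ℓ ≤ (log X)^(a+1) ≤ (log X)^(⌈a⌉+1)` (`log X ≥ 1` for `X ≥ 3`). As `R^ℓ ≥ (log X)^a > 1` we have `ℓ ≥ 1`, `R ≥ 1`, so
`R ≤ R^ℓ`. -/
theorem CH2_R2_le (a c : ℝ) (ha : 3 ≤ a) (X R ℓ : ℕ) (Y Δ : ℝ) (hX : 3 ≤ X)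
    (h : CH2 a c X R ℓ Y Δ) :
    (R : ℝ) ^ ℓ ≤ (Real.log X) ^ (⌈a⌉₊ + 1) ∧ (R : ℝ) ≤ (Real.log X) ^ (⌈a⌉₊ + 1) := by
  have hL := K0_logX X hX
  have hca : a ≤ (⌈a⌉₊ : ℝ) := Nat.le_ceil a
  have h1 : (R : ℝ) ^ ℓ ≤ (Real.log X) ^ (⌈a⌉₊ + 1) := by
    calc (R : ℝ) ^ ℓ ≤ (Real.log X) ^ (a + 1) := h.R2up
      _ ≤ (Real.log X) ^ ((⌈a⌉₊ + 1 : ℕ) : ℝ) := by
          apply Real.rpow_le_rpow_of_exponent_le hL.le
          push_cast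
          linarith
      _ = (Real.log X) ^ (⌈a⌉₊ + 1) := Real.rpow_natCast _ _
  have h2 : (R : ℝ) ≤ (R : ℝ) ^ ℓ := by
    exact_mod_cast Nat.le_self_pow (K0_l ha hX h) R
  exact ⟨h1, le_trans h2 h1⟩

/-- PROOF. `ll X → ∞`, so `R ≥ (ll X)^c/4 → ∞`; `ℓ ≥ 1` since `R^ℓ ≥ (log X)^a > 1`. -/
theorem CH2_large (a c : ℝ) (ha : 3 ≤ a) (hc : 2 ≤ c) (K : ℝ) : ∃ X₀ : ℕ, ∀ X : ℕ, X₀ ≤ X →
    ∀ (R ℓ : ℕ) (Y Δ : ℝ), CH2 a c X R ℓ Y Δ → K ≤ R ∧ K ≤ Real.log X ∧ 1 ≤ ℓ := by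
  obtain ⟨X₀, h0⟩ := K0_ll (1 + 4 * |K|)
  refine ⟨X₀, fun X hX R ℓ Y Δ h => ?_⟩
  obtain ⟨h1, h3⟩ := h0 X hX
  have hK := le_abs_self K
  have hK0 := abs_nonneg K
  have hll1 : 1 ≤ ll X := by linarith
  have h4 : ll X ≤ (ll X) ^ c := by
    calc ll X = (ll X) ^ (1 : ℝ) := (Real.rpow_one _).symm
      _ ≤ (ll X) ^ c := Real.rpow_le_rpow_of_exponent_le hll1 (by linarith)
  have h5 := h.Rlow
  have h6 := K0_ll_le X h3
  refine ⟨by linarith, by linarith, Nat.one_le_iff_ne_zero.2 (K0_l ha h3 h)⟩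

/-- PROOF. `log (R^ℓ) ≤ (a + 1) ll X` and `K (a+1) ll X ≤ (ll X)^3` for large `X` (if `K ≤ 0` it is trivial). Also
`log R ≤ log (R^ℓ)` (`ℓ ≥ 1`, `R ≥ 1`, `CH2_large`). -/
theorem CH2_log_R2 (a c K : ℝ) (ha : 3 ≤ a) (hc : 2 ≤ c) : ∃ X₀ : ℕ, ∀ X : ℕ, X₀ ≤ X →
    ∀ (R ℓ : ℕ) (Y Δ : ℝ), CH2 a c X R ℓ Y Δ →
      0 < Real.log R ∧ Real.log R ≤ Real.log ((R : ℝ) ^ ℓ) ∧
      K * Real.log ((R : ℝ) ^ ℓ) ≤ (ll X) ^ 3 := by
  obtain ⟨X₁, h1⟩ := CH2_large a c ha hc 2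
  obtain ⟨X₂, h2⟩ := K0_ll (1 + |K| * (a + 1))
  refine ⟨max X₁ X₂, fun X hX R ℓ Y Δ h => ?_⟩
  obtain ⟨g1, -, g3⟩ := h1 X (le_trans (le_max_left _ _) hX) R ℓ Y Δ h
  obtain ⟨g4, g5⟩ := h2 X (le_trans (le_max_right _ _) hX)
  have hK0 := abs_nonneg K
  have hKa : 0 ≤ |K| * (a + 1) := by positivity
  have hR1 : 1 ≤ R := by
    have : (1 : ℝ) ≤ R := by linarith
    exact_mod_cast this
  have hlR : 0 < Real.log R := Real.log_pos (by linarith)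
  have hlR2 : Real.log R ≤ Real.log ((R : ℝ) ^ ℓ) := by
    rw [Real.log_pow]
    exact le_mul_of_one_le_left hlR.le (by exact_mod_cast g3)
  refine ⟨hlR, hlR2, ?_⟩
  have h3 := K0_log_R2 g5 hR1 h
  have hll1 : 1 ≤ ll X := by linarith
  calc K * Real.log ((R : ℝ) ^ ℓ) ≤ |K| * Real.log ((R : ℝ) ^ ℓ) :=
        mul_le_mul_of_nonneg_right (le_abs_self K) (by linarith)
    _ ≤ |K| * ((a + 1) * ll X) := mul_le_mul_of_nonneg_left h3 hK0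
    _ = (|K| * (a + 1)) * ll X := by ring
    _ ≤ ll X * ll X := mul_le_mul_of_nonneg_right (by linarith) (by linarith)
    _ ≤ (ll X) ^ 3 := by nlinarith [mul_nonneg (mul_self_nonneg (ll X)) (sub_nonneg.2 hll1)]

/-- PROOF. `R → ∞` (`CH2_large`) and `(log R)² R^(-2α) → 0` as `R → ∞` (as in `CH_T1`, file C0). -/
theorem CH2_T1 (a c α K δ : ℝ) (ha : 3 ≤ a) (hc : 2 ≤ c) (hα : 0 < α) (hδ : 0 < δ) : ∃ X₀ : ℕ, ∀ X : ℕ, X₀ ≤ X →
    ∀ (R ℓ : ℕ) (Y Δ : ℝ), CH2 a c X R ℓ Y Δ → K * (Real.log R) ^ 2 * (R : ℝ) ^ (-(2 * α)) ≤ δ := by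
  obtain ⟨y₀, hy⟩ := K0_rpow α (|K| * (4 / α ^ 2) / δ) hα
  obtain ⟨X₁, h1⟩ := CH2_large a c ha hc (max y₀ 1)
  refine ⟨X₁, fun X hX R ℓ Y Δ h => ?_⟩
  have hR := (h1 X hX R ℓ Y Δ h).1
  have hR1 : (1 : ℝ) ≤ R := le_trans (le_max_right _ _) hR
  have hR0 : (0 : ℝ) < R := by linarith
  have h2 := hy _ (le_trans (le_max_left _ _) hR)
  rw [div_le_iff₀ hδ] at h2
  have hl0 : 0 ≤ Real.log R := Real.log_nonneg hR1
  have h3 : Real.log R ≤ (R : ℝ) ^ (α / 2) / (α / 2) :=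
    Real.log_le_rpow_div hR0.le (by positivity)
  have h4 : (Real.log R) ^ 2 ≤ (4 / α ^ 2) * (R : ℝ) ^ α := by
    calc (Real.log R) ^ 2 ≤ ((R : ℝ) ^ (α / 2) / (α / 2)) ^ 2 := pow_le_pow_left₀ hl0 h3 2
      _ = (4 / α ^ 2) * ((R : ℝ) ^ (α / 2) * (R : ℝ) ^ (α / 2)) := by field_simp; ring
      _ = (4 / α ^ 2) * (R : ℝ) ^ α := by
          rw [← Real.rpow_add hR0]
          congr 2; ring
  have h5 : (R : ℝ) ^ α * (R : ℝ) ^ (-(2 * α)) = ((R : ℝ) ^ α)⁻¹ := by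
    rw [← Real.rpow_add hR0, ← Real.rpow_neg hR0.le]
    congr 1; ring
  have hRα : 0 < (R : ℝ) ^ α := Real.rpow_pos_of_pos hR0 _
  have hRn : 0 < (R : ℝ) ^ (-(2 * α)) := Real.rpow_pos_of_pos hR0 _
  calc K * (Real.log R) ^ 2 * (R : ℝ) ^ (-(2 * α))
      ≤ |K| * (Real.log R) ^ 2 * (R : ℝ) ^ (-(2 * α)) := by
        apply mul_le_mul_of_nonneg_right _ hRn.le
        exact mul_le_mul_of_nonneg_right (le_abs_self K) (sq_nonneg _)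
    _ ≤ |K| * ((4 / α ^ 2) * (R : ℝ) ^ α) * (R : ℝ) ^ (-(2 * α)) := by
        apply mul_le_mul_of_nonneg_right _ hRn.le
        exact mul_le_mul_of_nonneg_left h4 (abs_nonneg K)
    _ = |K| * (4 / α ^ 2) * ((R : ℝ) ^ α * (R : ℝ) ^ (-(2 * α))) := by ring
    _ = |K| * (4 / α ^ 2) * ((R : ℝ) ^ α)⁻¹ := by rw [h5]
    _ ≤ δ := by
        rw [← div_eq_mul_inv, div_le_iff₀ hRα]
        linarith

/-- PROOF. Let `λ = ll X`, `L = log X = exp λ`. `log R ≥ c log λ - log 4 ≥ (c/2) log λ` for large `X`, and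
`ℓ log R ≤ (a + 1) λ`, so `ℓ ≤ 2 (a+1) λ/(c log λ) ≤ 2 λ/log λ`; for large `X` also `ℓ + 2 ≤ λ`, hence
`log (ℓ+2)! ≤ (ℓ+2) log (ℓ+2) ≤ (2 λ/log λ + 2) log λ = 2 λ + 2 log λ`, i.e. `(ℓ+2)! ≤ L² λ²`. -/
theorem CH2_fact (a c : ℝ) (ha : 3 ≤ a) (hc : a + 1 ≤ c) : ∃ X₀ : ℕ, ∀ X : ℕ, X₀ ≤ X →
    ∀ (R ℓ : ℕ) (Y Δ : ℝ), CH2 a c X R ℓ Y Δ →
      ((ℓ + 2).factorial : ℝ) ≤ (Real.log X) ^ 2 * (ll X) ^ 2 := by
  obtain ⟨X₁, h1⟩ := CH2_large a c ha (by linarith) 2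
  obtain ⟨X₂, h2⟩ := K0_ll (Real.exp 4)
  refine ⟨max X₁ X₂, fun X hX R ℓ Y Δ h => ?_⟩
  obtain ⟨g1, -, g3⟩ := h1 X (le_trans (le_max_left _ _) hX) R ℓ Y Δ h
  obtain ⟨g4, g5⟩ := h2 X (le_trans (le_max_right _ _) hX)
  have hR1 : 1 ≤ R := by
    have : (1 : ℝ) ≤ R := by linarith
    exact_mod_cast this
  have h3 := K0_log_R2 g5 hR1 h
  have he : (5 : ℝ) ≤ Real.exp 4 := by
    have := Real.add_one_le_exp (4 : ℝ)
    linarith
  set lam := ll X with hlam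
  have hlam0 : 0 < lam := by linarith
  set t := Real.log lam with ht
  have ht4 : 4 ≤ t := by
    rw [ht, Real.le_log_iff_exp_le hlam0]
    exact g4
  have hc0 : 0 < c := by linarith
  have hlR : c / 2 * t ≤ Real.log R := by
    have e1 : Real.log (lam ^ c / 4) ≤ Real.log R :=
      Real.log_le_log (by positivity) h.Rlow
    rw [Real.log_div (by positivity) (by norm_num), Real.log_rpow hlam0] at e1
    have e2 : Real.log 4 ≤ 4 - 1 := Real.log_le_sub_one_of_pos (by norm_num)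
    have e3 : 4 ≤ c := by linarith
    nlinarith
  rw [Real.log_pow] at h3
  have hl0 : (0 : ℝ) ≤ (ℓ : ℝ) := Nat.cast_nonneg _
  have h4 : (ℓ : ℝ) * t ≤ 2 * lam := by
    have e1 : (ℓ : ℝ) * (c / 2 * t) ≤ ℓ * Real.log R := mul_le_mul_of_nonneg_left hlR hl0
    have e2 : (a + 1) * lam ≤ c * lam := mul_le_mul_of_nonneg_right hc hlam0.le
    have e3 : c * ((ℓ : ℝ) * t) ≤ c * (2 * lam) := by nlinarith
    exact le_of_mul_le_mul_left e3 hc0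
  have h5 : (ℓ : ℝ) + 2 ≤ lam := by
    have e1 : (ℓ : ℝ) * 4 ≤ ℓ * t := mul_le_mul_of_nonneg_left ht4 hl0
    linarith
  calc ((ℓ + 2).factorial : ℝ) ≤ (((ℓ + 2) ^ (ℓ + 2) : ℕ) : ℝ) := by
        exact_mod_cast Nat.factorial_le_pow (ℓ + 2)
    _ = ((ℓ : ℝ) + 2) ^ (ℓ + 2) := by push_cast; rfl
    _ ≤ lam ^ (ℓ + 2) := pow_le_pow_left₀ (by positivity) h5 _
    _ = Real.exp (((ℓ + 2 : ℕ) : ℝ) * t) := by
        rw [ht, mul_comm, Real.exp_mul, Real.exp_log hlam0, Real.rpow_natCast]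
    _ ≤ Real.exp (2 * lam + 2 * t) := by
        apply Real.exp_le_exp.2
        push_cast
        linarith
    _ = (Real.log X) ^ 2 * lam ^ 2 := by
        rw [Real.exp_add, two_mul lam, two_mul t, Real.exp_add, Real.exp_add, ht,
          Real.exp_log hlam0, hlam, K0_exp X g5]
        ring

/-- PROOF. With `L = log X`, `λ = ll X`: `(R^ℓ)^(-2γ) ≤ L^(-2aγ) ≤ L^(-4)` (`R^ℓ ≥ L^a`, `L ≥ 1`), so by `CH2_fact` the left side is
`≤ K L^(-4) L² λ²/L = K λ² L^(-3)` (`K ≤ 0` trivial), and `TG2 ≥ 1/(((a+1) λ)⁴ L²)` (`log R ≤ log R^ℓ ≤ (a+1) λ`). The claim follows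
from `K (a+1)⁴ λ⁶ ≤ δ L`, true for large `X`. -/
theorem CH2_T2 (a c γ K δ : ℝ) (ha : 3 ≤ a) (hc : a + 1 ≤ c) (hγ : 0 < γ) (haγ : 2 ≤ a * γ) (hδ : 0 < δ) :
    ∃ X₀ : ℕ, ∀ X : ℕ, X₀ ≤ X →
    ∀ (R ℓ : ℕ) (Y Δ : ℝ), CH2 a c X R ℓ Y Δ →
      ((R : ℝ) ^ ℓ) ^ (-(2 * γ)) * (K * (ℓ + 2).factorial / Real.log X) ≤ δ * TG2 X R ℓ := by
  obtain ⟨X₁, h1⟩ := CH2_log_R2 a c 1 ha (by linarith)
  obtain ⟨X₂, h2⟩ := CH2_fact a c ha hc
  obtain ⟨X₃, h3⟩ := K0_ll (1 + 5040 * (|K| * (a + 1) ^ 4) / δ)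
  obtain ⟨X₄, h4⟩ := CH2_large a c ha (by linarith) 1
  refine ⟨max (max X₁ X₂) (max X₃ X₄), fun X hX R ℓ Y Δ h => ?_⟩
  have hX1 : X₁ ≤ X := le_trans (le_trans (le_max_left _ _) (le_max_left _ _)) hX
  have hX2 : X₂ ≤ X := le_trans (le_trans (le_max_right _ _) (le_max_left _ _)) hX
  have hX3 : X₃ ≤ X := le_trans (le_trans (le_max_left _ _) (le_max_right _ _)) hX
  have hX4 : X₄ ≤ X := le_trans (le_trans (le_max_right _ _) (le_max_right _ _)) hX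
  obtain ⟨g1, g2, -⟩ := h1 X hX1 R ℓ Y Δ h
  have g3 := h2 X hX2 R ℓ Y Δ h
  obtain ⟨g4, g5⟩ := h3 X hX3
  have g6 := (h4 X hX4 R ℓ Y Δ h).1
  have hR1 : 1 ≤ R := by exact_mod_cast g6
  have g7 := K0_log_R2 g5 hR1 h
  have hexp := K0_exp X g5
  have hL1 := (K0_logX X g5).le
  have hRlow := h.R2low
  unfold TG2
  set L := Real.log X with hL
  set lam := ll X with hlam
  set S := (R : ℝ) ^ ℓ with hS
  have hK0 := abs_nonneg K
  have hL0 : 0 < L := by linarith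
  have hq : 0 ≤ 5040 * (|K| * (a + 1) ^ 4) / δ := by positivity
  have hlam1 : 1 ≤ lam := by linarith
  have hlS : 0 < Real.log S := by linarith
  have hLa : 0 < L ^ a := Real.rpow_pos_of_pos hL0 _
  have hS0 : 0 < S := lt_of_lt_of_le hLa hRlow
  have e3 : S ^ (-(2 * γ)) ≤ 1 / L ^ 4 := by
    calc S ^ (-(2 * γ)) ≤ (L ^ a) ^ (-(2 * γ)) :=
          Real.rpow_le_rpow_of_nonpos hLa hRlow (by linarith)
      _ = L ^ (a * (-(2 * γ))) := (Real.rpow_mul hL0.le _ _).symm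
      _ ≤ L ^ (-(4 : ℝ)) := by
          apply Real.rpow_le_rpow_of_exponent_le hL1
          nlinarith
      _ = 1 / L ^ 4 := by
          rw [Real.rpow_neg hL0.le, one_div]
          congr 1
          exact_mod_cast Real.rpow_natCast L 4
  -- `|K| (a+1)^4 λ^6 ≤ δ L`
  have e4 : |K| * (a + 1) ^ 4 * lam ^ 6 ≤ δ * L := by
    have f1 : lam ^ 7 / (Nat.factorial 7 : ℝ) ≤ Real.exp lam :=
      Real.pow_div_factorial_le_exp lam (by linarith) 7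
    have f2 : ((Nat.factorial 7 : ℕ) : ℝ) = 5040 := by norm_num [Nat.factorial]
    rw [f2, hexp, div_le_iff₀ (by norm_num)] at f1
    have f3 : 5040 * (|K| * (a + 1) ^ 4) ≤ δ * lam := by
      have : 5040 * (|K| * (a + 1) ^ 4) / δ ≤ lam := by linarith
      rwa [div_le_iff₀ hδ, mul_comm lam] at this
    have hl6 : 0 ≤ lam ^ 6 := by positivity
    have f4 : 5040 * (|K| * (a + 1) ^ 4) * lam ^ 6 ≤ δ * lam * lam ^ 6 :=
      mul_le_mul_of_nonneg_right f3 hl6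
    have f5 : δ * lam * lam ^ 6 ≤ δ * (L * 5040) := by
      have : δ * lam * lam ^ 6 = δ * lam ^ 7 := by ring
      rw [this]
      exact mul_le_mul_of_nonneg_left f1 hδ.le
    linarith
  have e5 : (Real.log R * Real.log S * L) ^ 2 ≤ (a + 1) ^ 4 * lam ^ 4 * L ^ 2 := by
    have f1 : Real.log R * Real.log S ≤ ((a + 1) * lam) * ((a + 1) * lam) :=
      mul_le_mul (g2.trans g7) g7 hlS.le (by positivity)
    have f2 : Real.log R * Real.log S * L ≤ ((a + 1) * lam) * ((a + 1) * lam) * L :=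
      mul_le_mul_of_nonneg_right f1 hL0.le
    calc (Real.log R * Real.log S * L) ^ 2 ≤ (((a + 1) * lam) * ((a + 1) * lam) * L) ^ 2 :=
          pow_le_pow_left₀ (by positivity) f2 2
      _ = _ := by ring
  have hD0 : 0 < (Real.log R * Real.log S * L) ^ 2 := by positivity
  have e6 : 1 / ((a + 1) ^ 4 * lam ^ 4 * L ^ 2) ≤ (1 / (Real.log R * Real.log S * L)) ^ 2 := by
    rw [div_pow, one_pow]
    exact one_div_le_one_div_of_le hD0 e5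
  have hD1 : 0 < (a + 1) ^ 4 * lam ^ 4 * L ^ 2 := by positivity
  calc S ^ (-(2 * γ)) * (K * (ℓ + 2).factorial / L)
      ≤ S ^ (-(2 * γ)) * (|K| * (L ^ 2 * lam ^ 2) / L) := by
        apply mul_le_mul_of_nonneg_left _ (Real.rpow_nonneg hS0.le _)
        apply div_le_div_of_nonneg_right _ hL0.le
        exact mul_le_mul (le_abs_self K) g3 (Nat.cast_nonneg _) hK0
    _ ≤ 1 / L ^ 4 * (|K| * (L ^ 2 * lam ^ 2) / L) :=
        mul_le_mul_of_nonneg_right e3 (by positivity)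
    _ = |K| * lam ^ 2 / L ^ 3 := by field_simp
    _ ≤ δ * (1 / ((a + 1) ^ 4 * lam ^ 4 * L ^ 2)) := by
        rw [mul_one_div, div_le_div_iff₀ (by positivity) hD1]
        have f1 : |K| * lam ^ 2 * ((a + 1) ^ 4 * lam ^ 4 * L ^ 2) =
            (|K| * (a + 1) ^ 4 * lam ^ 6) * L ^ 2 := by ring
        have f2 : δ * L ^ 3 = (δ * L) * L ^ 2 := by ring
        rw [f1, f2]
        exact mul_le_mul_of_nonneg_right e4 (by positivity)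
    _ ≤ _ := mul_le_mul_of_nonneg_left e6 hδ.le

end Pool.Agent.E3
end

section

/-!
# SL5: Gaussian means of `(n / φ(n))^4`
-/

set_option autoImplicit false

namespace Pool.Agent.E3

open Finset
open Pool.Agent.Lib.MP_bae66e_nt (rho)

private theorem SL5_jexp (j : ℕ) : ((j : ℝ) + 1) * Real.exp (-((j : ℝ)) ^ 2) ≤ 4 * (1 / 2 : ℝ) ^ j := by
  have h1 : Real.exp (-((j : ℝ)) ^ 2) ≤ Real.exp (-(j : ℝ)) := by
    apply Real.exp_le_exp.mpr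
    have h2 : (j : ℝ) ≤ (j : ℝ) ^ 2 := by
      have h3 : j ≤ j ^ 2 := Nat.le_self_pow (by norm_num) j
      exact_mod_cast h3
    have h4 : (-((j : ℝ)) ^ 2) = -((j : ℝ) ^ 2) := by ring
    have h5 : -((j : ℝ) ^ 2) ≤ -(j : ℝ) := by linarith
    exact h5
  have h2 : (2.7 : ℝ) ^ j ≤ Real.exp j := by
    have h3 : Real.exp (j : ℝ) = Real.exp 1 ^ j := by
      rw [← Real.exp_nat_mul, mul_one]
    rw [h3]
    have := Real.exp_one_gt_d9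
    exact pow_le_pow_left₀ (by norm_num) (by linarith) j
  have h3 : 1 + (j : ℝ) * 0.35 ≤ (1.35 : ℝ) ^ j := by
    have := one_add_mul_le_pow (by norm_num : (-2 : ℝ) ≤ 0.35) j
    norm_num at this ⊢
    linarith
  have h4 : (2.7 : ℝ) ^ j = 2 ^ j * 1.35 ^ j := by
    rw [← mul_pow]; norm_num
  have h5 : (0 : ℝ) < 2 ^ j := by positivity
  have h6 : 0 < Real.exp (j : ℝ) := Real.exp_pos _
  have h7 : ((j : ℝ) + 1) * 2 ^ j ≤ 4 * Real.exp j := by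
    have h8 : (2 : ℝ) ^ j * (1 + (j : ℝ) * 0.35) ≤ 2 ^ j * 1.35 ^ j :=
      mul_le_mul_of_nonneg_left h3 h5.le
    have h9 : (0 : ℝ) ≤ j := Nat.cast_nonneg j
    nlinarith
  calc ((j : ℝ) + 1) * Real.exp (-((j : ℝ)) ^ 2) ≤ ((j : ℝ) + 1) * Real.exp (-(j : ℝ)) :=
        mul_le_mul_of_nonneg_left h1 (by positivity)
    _ ≤ 4 * (1 / 2 : ℝ) ^ j := by
        rw [Real.exp_neg, one_div, inv_pow, ← div_eq_mul_inv, ← div_eq_mul_inv,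
          div_le_div_iff₀ h6 h5]
        exact h7

/-- PROOF. For `k ≥ 1` let `j = ⌈k / M⌉ - 1 ≥ 0`, so `j M < k ≤ (j + 1) M` and `exp (- (k/M)²) ≤ exp (- j²)`. So for
every `J ≥ N / M + 1`: `exp (- (k/M)²) ≤ ∑_{j < J} [k ≤ (j+1) M] exp (- j²)` for `1 ≤ k ≤ N`. Exchange the sums;
`∑_{1 ≤ k ≤ (j+1) M} Fr(k)^4 ≤ exp 30 · (j + 1) M` by `sum_inv_rho_pow_four_le` (file `Lib/MP_bae66e_nt/Rho.lean`) for
`⌊(j+1) M⌋` and `Fr_eq`. Finally `∑_j (j + 1) exp (- j²) ≤ 1 + 2 exp (-1) + ∑_{j ≥ 2} (j+1) exp (-2j) ≤ 4` (or any bound: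
`(j + 1) exp (- j²) ≤ 4 · 2^(-j)`). `C = 8 exp 30` works. -/
theorem gauss_Fr_finite : ∃ C : ℝ, 1 ≤ C ∧ ∀ (M : ℝ) (N : ℕ), 0 < M →
    ∑ k ∈ Icc 1 N, (Fr k) ^ 4 * Real.exp (-((k : ℝ) / M) ^ 2) ≤ C * M := by
  refine ⟨8 * Real.exp 30, ?_, ?_⟩
  · have := Real.add_one_le_exp (30 : ℝ)
    linarith
  intro M N hM
  set J : ℕ := ⌈(N : ℝ) / M⌉₊ + 1 with hJ
  have hFr : ∀ k : ℕ, 0 ≤ (Fr k) ^ 4 := fun k => by
    unfold Fr
    positivity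
  have hk : ∀ k ∈ Icc 1 N, (Fr k) ^ 4 * Real.exp (-((k : ℝ) / M) ^ 2)
      ≤ ∑ j ∈ range J, if (k : ℝ) ≤ ((j : ℝ) + 1) * M then
          (Fr k) ^ 4 * Real.exp (-((j : ℝ)) ^ 2) else 0 := by
    intro k hk
    rw [Finset.mem_Icc] at hk
    have hkpos : (0 : ℝ) < k := by exact_mod_cast (by omega : 0 < k)
    have hkM : 0 < (k : ℝ) / M := div_pos hkpos hM
    have hc1 : 1 ≤ ⌈(k : ℝ) / M⌉₊ := Nat.one_le_iff_ne_zero.mpr (by
      intro h0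
      rw [Nat.ceil_eq_zero] at h0
      linarith)
    obtain ⟨j, hj⟩ : ∃ j : ℕ, ⌈(k : ℝ) / M⌉₊ = j + 1 := ⟨⌈(k : ℝ) / M⌉₊ - 1, by omega⟩
    have hle : (k : ℝ) / M ≤ (j : ℝ) + 1 := by
      have := Nat.le_ceil ((k : ℝ) / M)
      rw [hj] at this
      push_cast at this
      exact this
    have hlt : (j : ℝ) < (k : ℝ) / M := by
      have := Nat.ceil_lt_add_one hkM.le
      rw [hj] at this
      push_cast at this
      linarith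
    have hjJ : j ∈ range J := by
      rw [Finset.mem_range]
      have h1 : ⌈(k : ℝ) / M⌉₊ ≤ ⌈(N : ℝ) / M⌉₊ := by
        apply Nat.ceil_mono
        apply div_le_div_of_nonneg_right _ hM.le
        exact_mod_cast hk.2
      omega
    have hkj : (k : ℝ) ≤ ((j : ℝ) + 1) * M := by
      rwa [div_le_iff₀ hM] at hle
    calc (Fr k) ^ 4 * Real.exp (-((k : ℝ) / M) ^ 2)
        ≤ (Fr k) ^ 4 * Real.exp (-((j : ℝ)) ^ 2) := by
          apply mul_le_mul_of_nonneg_left _ (hFr k)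
          apply Real.exp_le_exp.mpr
          have hj0 : (0 : ℝ) ≤ j := Nat.cast_nonneg j
          have h2 : (j : ℝ) ^ 2 ≤ ((k : ℝ) / M) ^ 2 := pow_le_pow_left₀ hj0 hlt.le 2
          have h3 : (-((k : ℝ) / M) ^ 2) = -(((k : ℝ) / M) ^ 2) := by ring
          have h4 : (-((j : ℝ)) ^ 2) = -((j : ℝ) ^ 2) := by ring
          linarith
      _ = if (k : ℝ) ≤ ((j : ℝ) + 1) * M then
          (Fr k) ^ 4 * Real.exp (-((j : ℝ)) ^ 2) else 0 := by rw [if_pos hkj]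
      _ ≤ _ := by
          apply Finset.single_le_sum (f := fun j : ℕ => if (k : ℝ) ≤ ((j : ℝ) + 1) * M then
            (Fr k) ^ 4 * Real.exp (-((j : ℝ)) ^ 2) else 0) _ hjJ
          intro i _
          split_ifs
          · exact mul_nonneg (hFr k) (Real.exp_pos _).le
          · exact le_refl _
  have hj : ∀ j ∈ range J, (∑ k ∈ Icc 1 N, if (k : ℝ) ≤ ((j : ℝ) + 1) * M then
      (Fr k) ^ 4 * Real.exp (-((j : ℝ)) ^ 2) else 0)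
      ≤ Real.exp 30 * M * (4 * (1 / 2 : ℝ) ^ j) := by
    intro j _
    have hjM : 0 ≤ ((j : ℝ) + 1) * M := by positivity
    have h1 : (∑ k ∈ Icc 1 N, if (k : ℝ) ≤ ((j : ℝ) + 1) * M then
        (Fr k) ^ 4 * Real.exp (-((j : ℝ)) ^ 2) else 0)
        ≤ ∑ k ∈ Icc 1 ⌊((j : ℝ) + 1) * M⌋₊, (1 / (rho k) ^ 4) * Real.exp (-((j : ℝ)) ^ 2) := by
      rw [← Finset.sum_filter]
      have hsub : (Icc 1 N).filter (fun k : ℕ => (k : ℝ) ≤ ((j : ℝ) + 1) * M)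
          ⊆ Icc 1 ⌊((j : ℝ) + 1) * M⌋₊ := by
        intro k hk
        rw [Finset.mem_filter, Finset.mem_Icc] at hk
        rw [Finset.mem_Icc]
        exact ⟨hk.1.1, Nat.le_floor hk.2⟩
      refine le_trans (Finset.sum_le_sum_of_subset_of_nonneg hsub fun k _ _ =>
        mul_nonneg (hFr k) (Real.exp_pos _).le) ?_
      apply Finset.sum_le_sum
      intro k hk
      rw [Finset.mem_Icc] at hk
      rw [Fr_eq k (by omega), div_pow, one_pow]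
    refine h1.trans ?_
    rw [← Finset.sum_mul]
    have h2 := Pool.Agent.Lib.MP_bae66e_nt.sum_inv_rho_pow_four_le ⌊((j : ℝ) + 1) * M⌋₊
    have h3 : ((⌊((j : ℝ) + 1) * M⌋₊ : ℕ) : ℝ) ≤ ((j : ℝ) + 1) * M := Nat.floor_le hjM
    have hE : 0 < Real.exp 30 := Real.exp_pos _
    have h4 : ∑ k ∈ Icc 1 ⌊((j : ℝ) + 1) * M⌋₊, (1 / (rho k) ^ 4)
        ≤ Real.exp 30 * (((j : ℝ) + 1) * M) := by
      refine h2.trans ?_
      exact mul_le_mul_of_nonneg_left h3 hE.le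
    calc (∑ k ∈ Icc 1 ⌊((j : ℝ) + 1) * M⌋₊, (1 / (rho k) ^ 4)) * Real.exp (-((j : ℝ)) ^ 2)
        ≤ Real.exp 30 * (((j : ℝ) + 1) * M) * Real.exp (-((j : ℝ)) ^ 2) :=
          mul_le_mul_of_nonneg_right h4 (Real.exp_pos _).le
      _ = Real.exp 30 * M * (((j : ℝ) + 1) * Real.exp (-((j : ℝ)) ^ 2)) := by ring
      _ ≤ Real.exp 30 * M * (4 * (1 / 2 : ℝ) ^ j) :=
          mul_le_mul_of_nonneg_left (SL5_jexp j) (by positivity)
  calc ∑ k ∈ Icc 1 N, (Fr k) ^ 4 * Real.exp (-((k : ℝ) / M) ^ 2)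
      ≤ ∑ k ∈ Icc 1 N, ∑ j ∈ range J, (if (k : ℝ) ≤ ((j : ℝ) + 1) * M then
          (Fr k) ^ 4 * Real.exp (-((j : ℝ)) ^ 2) else 0) := Finset.sum_le_sum hk
    _ = ∑ j ∈ range J, ∑ k ∈ Icc 1 N, (if (k : ℝ) ≤ ((j : ℝ) + 1) * M then
          (Fr k) ^ 4 * Real.exp (-((j : ℝ)) ^ 2) else 0) := Finset.sum_comm
    _ ≤ ∑ j ∈ range J, Real.exp 30 * M * (4 * (1 / 2 : ℝ) ^ j) := Finset.sum_le_sum hj
    _ = Real.exp 30 * M * 4 * ∑ j ∈ range J, (1 / 2 : ℝ) ^ j := by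
        rw [Finset.mul_sum]
        apply Finset.sum_congr rfl
        intro j _
        ring
    _ ≤ Real.exp 30 * M * 4 * 2 :=
        mul_le_mul_of_nonneg_left (sum_geometric_two_le J) (by positivity)
    _ = 8 * Real.exp 30 * M := by ring

/-- PROOF. Nonnegative terms with bounded partial sums (`summable_of_sum_range_le`, `Real.tsum_le_of_sum_range_le`;
`∑_{k < N}` of the shifted terms is the sum over `Icc 1 N`). -/
theorem slf : SLF := by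
  obtain ⟨C, hC, h⟩ := gauss_Fr_finite
  refine ⟨C, hC, ?_⟩
  intro M hM
  have hnn : ∀ k : ℕ, 0 ≤ (Fr (k + 1)) ^ 4 * Real.exp (-(((k : ℝ) + 1) / M) ^ 2) := by
    intro k
    unfold Fr
    positivity
  have hsum : ∀ n : ℕ, ∑ k ∈ range n, (Fr (k + 1)) ^ 4 * Real.exp (-(((k : ℝ) + 1) / M) ^ 2)
      ≤ C * M := by
    intro n
    have heq : ∑ k ∈ range n, (Fr (k + 1)) ^ 4 * Real.exp (-(((k : ℝ) + 1) / M) ^ 2)
        = ∑ k ∈ Icc 1 n, (Fr k) ^ 4 * Real.exp (-((k : ℝ) / M) ^ 2) := by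
      induction n with
      | zero => simp
      | succ n ih =>
        rw [Finset.sum_range_succ, ih, Finset.sum_Icc_succ_top (by omega)]
        push_cast
        rfl
    rw [heq]
    exact h M n hM
  exact ⟨summable_of_sum_range_le hnn hsum, Real.tsum_le_of_sum_range_le hnn hsum⟩

end Pool.Agent.E3
end
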