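import Pool.Agent.Lib.MP_bae66e_nt.Mg.G110
import Pool.Agent.Lib.MP_bae66e_nt.Mg.G001
import Pool.Agent.Lib.MP_bae66e_nt.Mg.G008
import Pool.Agent.Lib.MP_bae66e_nt.Mg.G006
import Pool.Agent.Lib.MP_bae66e_nt.Mg.G003
import Pool.Agent.Lib.MP_bae66e_nt.Mg.G007

section

/-!
# K5: the region where `R₂` is large (parameters of CORE2)
-/

set_option autoImplicit false

namespace Pool.Agent.E3

open Finset MeasureTheory Real
open Pool.Agent.Lib.MP_bae66e_nt.AP3 (prI mem_prI)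

/-- PROOF. Let `C₁, C₂` be the constants of `PR_norm_le`, `PQ_norm_le` and `δ' = δ/(8 C₁⁴)`; `T₀, X₀` from `T3Q θ` for `W, δ'`.
Let `S` be the set; the integrand is at most `‖PR χ₁‖² ‖PR χ₂‖² g`, `g = ‖PQ χ₃‖²`, and `‖PR χ₁‖ ≤ C₁/log R`,
`‖PR χ₂‖ ≤ C₁/log (R^ell)`. `unit_points` for `g` (continuous, bounded by `(C₂/log X)²`) on `S`: the integral of `g` over `S` is
`≤ 2 (∑_{T₁} g + ∑_{T₂} g)` with spaced `T_i ⊆ S`. By `NLV` (with its `a := a`, `B = ⌈a⌉ + 1`, `α = α₂`,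
`R := R^ell ≥ (log X)^a`): `#T_i ≤ X^(2α₂ + 2/a) ≤ X^θ`. By `T3Q`: `∑_{T_i} g ≤ δ'/(log X)²`. Total
`≤ C₁⁴/((log R)² (log R^ell)²) · 4 δ'/(log X)² ≤ δ TG`. -/
theorem core2_T3 (θ : ℝ) (hT3 : T3Q θ) (hN : NLV) (a c α₂ δ : ℝ) (ha : 3 ≤ a) (hc : 2 ≤ c)
    (hα₂ : 0 < α₂) (hα₂1 : α₂ ≤ 1) (hθ : 2 * α₂ + 2 / a ≤ θ) (hδ : 0 < δ) (W : ℕ) (hW : 1 ≤ W) :
    ∃ T₀ : ℝ, 1 ≤ T₀ ∧ ∃ X₀ : ℕ, ∀ X : ℕ, X₀ ≤ X → ∀ (χ₁ χ₂ χ₃ : DirichletCharacter ℂ W) (R ℓ : ℕ) (Y Δ : ℝ),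
      CH2 a c X R ℓ Y Δ →
      ∫ t in {t : ℝ | T₀ ≤ |t| ∧ |t| ≤ X ∧ ((R ^ ℓ : ℕ) : ℝ) ^ (-α₂) ≤ ‖PR χ₂ (R ^ ℓ) t‖},
        Real.exp (-(Δ * t) ^ 2) *
        ‖PR χ₁ R t * PR χ₂ (R ^ ℓ) t * PQ χ₃ X Y t‖ ^ 2 ≤ δ * TG2 X R ℓ := by
  obtain ⟨C₁, hC₁, hPR⟩ := PR_norm_le
  obtain ⟨C₂, hC₂, hPQ⟩ := PQ_norm_le
  have hC₁0 : 0 < C₁ := by linarith
  obtain ⟨T₀, hT₀, X₁, hT3'⟩ := hT3 W hW (δ / (4 * C₁ ^ 4)) (by positivity)
  obtain ⟨X₂, hN'⟩ := hN a (by linarith) (⌈a⌉₊ + 1) α₂ hα₂ hα₂1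
  obtain ⟨X₃, h3⟩ := CH2_large a c ha hc 8
  obtain ⟨X₄, h4⟩ := CH2_log_R2 a c 0 ha hc
  refine ⟨T₀, hT₀, max (max X₁ X₂) (max X₃ X₄), fun X hX χ₁ χ₂ χ₃ R ℓ Y Δ h => ?_⟩
  have hX1 : X₁ ≤ X := le_trans (le_trans (le_max_left _ _) (le_max_left _ _)) hX
  have hX2 : X₂ ≤ X := le_trans (le_trans (le_max_right _ _) (le_max_left _ _)) hX
  have hX3 : X₃ ≤ X := le_trans (le_trans (le_max_left _ _) (le_max_right _ _)) hX
  have hX4 : X₄ ≤ X := le_trans (le_trans (le_max_right _ _) (le_max_right _ _)) hX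
  obtain ⟨hR8, hL8, hell1⟩ := h3 X hX3 R ℓ Y Δ h
  obtain ⟨hlR, hlR2, -⟩ := h4 X hX4 R ℓ Y Δ h
  have hX0 : (0 : ℝ) < X := by
    by_contra hc
    push Not at hc
    have : (X : ℝ) = 0 := le_antisymm hc (Nat.cast_nonneg X)
    rw [this, Real.log_zero] at hL8
    linarith
  have hX8 : 8 ≤ X := by
    have := Real.log_le_sub_one_of_pos hX0
    have h8 : (8 : ℝ) ≤ X := by linarith
    exact_mod_cast h8
  have hX1R : (1 : ℝ) ≤ X := by
    have : (8 : ℝ) ≤ X := by exact_mod_cast hX8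
    linarith
  have hR2 : 2 ≤ R := by
    have : (2 : ℝ) ≤ R := by linarith
    exact_mod_cast this
  have hell : ℓ ≠ 0 := by omega
  have hRl2 : 2 ≤ R ^ ℓ := le_trans hR2 (Nat.le_self_pow hell R)
  have hcast : (((R ^ ℓ : ℕ)) : ℝ) = (R : ℝ) ^ ℓ := Nat.cast_pow _ _
  have hL0 : 0 < Real.log X := by linarith
  have hlS : 0 < Real.log ((R : ℝ) ^ ℓ) := by linarith
  set S : Set ℝ := {t : ℝ | T₀ ≤ |t| ∧ |t| ≤ X ∧
    ((R ^ ℓ : ℕ) : ℝ) ^ (-α₂) ≤ ‖PR χ₂ (R ^ ℓ) t‖} with hS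
  have hms : MeasurableSet S := by
    apply MeasurableSet.inter
    · exact measurableSet_le measurable_const continuous_abs.measurable
    · apply MeasurableSet.inter
      · exact measurableSet_le continuous_abs.measurable measurable_const
      · exact measurableSet_le measurable_const (PR_continuous χ₂ _).norm.measurable
  set g : ℝ → ℝ := fun t => ‖PQ χ₃ X Y t‖ ^ 2 with hg
  have hgc : Continuous g := (PQ_continuous χ₃ X Y).norm.pow 2
  have hg0 : ∀ t, 0 ≤ g t := fun t => by positivity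
  have e1 : ∀ t, ‖PR χ₁ R t‖ ≤ C₁ / Real.log R := fun t => hPR W χ₁ R t hR2
  have e2 : ∀ t, ‖PR χ₂ (R ^ ℓ) t‖ ≤ C₁ / Real.log ((R : ℝ) ^ ℓ) := by
    intro t
    have := hPR W χ₂ (R ^ ℓ) t hRl2
    rw [hcast] at this
    exact this
  have e3 : ∀ t, ‖PQ χ₃ X Y t‖ ≤ C₂ / Real.log X := fun t => hPQ W χ₃ X Y t hX8 h.Ylow h.Yup
  have hgM : ∀ t, g t ≤ (C₂ / Real.log X) ^ 2 := fun t =>
    pow_le_pow_left₀ (norm_nonneg _) (e3 t) 2
  obtain ⟨T₁, T₂, hs1, hs2, hm1, hm2, hint⟩ := unit_points S g ((C₂ / Real.log X) ^ 2) X hms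
    hgc.measurable hg0 hgM (fun t ht => ht.2.1)
  have hRB := (CH2_R2_le a c ha X R ℓ Y Δ (by omega) h).1
  have hRlow := h.R2low
  rw [← hcast] at hRB hRlow
  have hT : ∀ T : Finset ℝ, Spaced T → (∀ t ∈ T, t ∈ S) →
      ∑ t ∈ T, g t ≤ δ / (4 * C₁ ^ 4) / (Real.log X) ^ 2 := by
    intro T hsT hmT
    have hcard := hN' X hX2 W χ₂ (R ^ ℓ) hRlow hRB T hsT
      (fun t ht => ⟨(hmT t ht).2.1, (hmT t ht).2.2⟩)
    have hcard2 : (#T : ℝ) ≤ (X : ℝ) ^ θ :=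
      le_trans hcard (Real.rpow_le_rpow_of_exponent_le hX1R hθ)
    exact hT3' X hX1 χ₃ Y h.Ylow h.Yup T hsT
      (fun t ht => ⟨(hmT t ht).1, (hmT t ht).2.1⟩) hcard2
  have hi1 : Integrable fun t : ℝ => Real.exp (-(Δ * t) ^ 2) *
      ‖PR χ₁ R t * PR χ₂ (R ^ ℓ) t * PQ χ₃ X Y t‖ ^ 2 := by
    have hc1 : Continuous fun t : ℝ => ‖PR χ₁ R t * PR χ₂ (R ^ ℓ) t * PQ χ₃ X Y t‖ ^ 2 :=
      (((((PR_continuous χ₁ R).mul (PR_continuous χ₂ _)).mul (PQ_continuous χ₃ X Y)).norm).pow 2)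
    apply gauss_integrable_of_bounded Δ ((C₁ / Real.log R * (C₁ / Real.log ((R : ℝ) ^ ℓ))
      * (C₂ / Real.log X)) ^ 2) h.Dpos _ hc1
    intro t
    rw [abs_of_nonneg (by positivity), norm_mul, norm_mul]
    apply pow_le_pow_left₀ (by positivity)
    apply mul_le_mul _ (e3 t) (norm_nonneg _) (by positivity)
    exact mul_le_mul (e1 t) (e2 t) (norm_nonneg _) (by positivity)
  set κ : ℝ := (C₁ / Real.log R * (C₁ / Real.log ((R : ℝ) ^ ℓ))) ^ 2 with hκ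
  have hκ0 : 0 ≤ κ := sq_nonneg _
  have hi2 : IntegrableOn (fun t : ℝ => κ * g t) S := by
    have hI : IntegrableOn (fun t : ℝ => κ * g t) (Set.Icc (-(X : ℝ)) X) :=
      (continuous_const.mul hgc).integrableOn_Icc
    apply hI.mono_set
    intro t ht
    exact abs_le.mp ht.2.1
  calc ∫ t in S, Real.exp (-(Δ * t) ^ 2) *
        ‖PR χ₁ R t * PR χ₂ (R ^ ℓ) t * PQ χ₃ X Y t‖ ^ 2
      ≤ ∫ t in S, κ * g t := by
        apply setIntegral_mono_on hi1.integrableOn hi2 hms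
        intro t _
        have hexp : Real.exp (-(Δ * t) ^ 2) ≤ 1 := by
          apply Real.exp_le_one_iff.mpr
          have := sq_nonneg (Δ * t)
          linarith
        rw [norm_mul, norm_mul]
        calc Real.exp (-(Δ * t) ^ 2) * (‖PR χ₁ R t‖ * ‖PR χ₂ (R ^ ℓ) t‖ * ‖PQ χ₃ X Y t‖) ^ 2
            ≤ 1 * (‖PR χ₁ R t‖ * ‖PR χ₂ (R ^ ℓ) t‖ * ‖PQ χ₃ X Y t‖) ^ 2 :=
              mul_le_mul_of_nonneg_right hexp (sq_nonneg _)
          _ = (‖PR χ₁ R t‖ * ‖PR χ₂ (R ^ ℓ) t‖) ^ 2 * g t := by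
              rw [hg]
              ring
          _ ≤ κ * g t := by
              apply mul_le_mul_of_nonneg_right _ (hg0 t)
              apply pow_le_pow_left₀ (by positivity)
              exact mul_le_mul (e1 t) (e2 t) (norm_nonneg _) (by positivity)
    _ = κ * ∫ t in S, g t := integral_const_mul _ _
    _ ≤ κ * (2 * (∑ t ∈ T₁, g t + ∑ t ∈ T₂, g t)) := mul_le_mul_of_nonneg_left hint hκ0
    _ ≤ κ * (2 * (δ / (4 * C₁ ^ 4) / (Real.log X) ^ 2 + δ / (4 * C₁ ^ 4) / (Real.log X) ^ 2)) := by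
        apply mul_le_mul_of_nonneg_left _ hκ0
        have f1 := hT T₁ hs1 hm1
        have f2 := hT T₂ hs2 hm2
        linarith
    _ = δ * TG2 X R ℓ := by
        rw [hκ]
        unfold TG2
        field_simp
        ring

end Pool.Agent.E3
end

section

/-!
# K6: the region `|t| > X` (parameters of CORE2)
-/

set_option autoImplicit false

namespace Pool.Agent.E3

open Finset MeasureTheory Real
open Pool.Agent.Lib.MP_bae66e_nt.AP3 (prI mem_prI)

private lemma K6_num (L D X : ℝ) (hL : 4 ≤ L) (hX : X = Real.exp L) (hD : 0 < D)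
    (hDX : L ≤ D * X) : Real.exp (-((D * X) ^ 2 / 2)) * (3 / D) ≤ 3 / L := by
  have hX0 : 0 < X := by rw [hX]; exact Real.exp_pos _
  have hL0 : 0 < L := by linarith
  have h1 : 1 / D ≤ Real.exp L := by
    rw [← hX, div_le_iff₀ hD]
    nlinarith
  have h2 : Real.exp (-((D * X) ^ 2 / 2)) ≤ Real.exp (-(L ^ 2 / 2)) := by
    apply Real.exp_le_exp.mpr
    have := pow_le_pow_left₀ hL0.le hDX 2
    linarith
  have h3 : Real.exp (-(L ^ 2 / 2)) * Real.exp L ≤ 1 / L := by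
    rw [← Real.exp_add]
    have h4 : -(L ^ 2 / 2) + L ≤ -L := by nlinarith
    have h5 : Real.exp (-L) ≤ 1 / L := by
      rw [Real.exp_neg, ← one_div]
      apply one_div_le_one_div_of_le hL0
      have := Real.add_one_le_exp L
      linarith
    exact le_trans (Real.exp_le_exp.mpr h4) h5
  calc Real.exp (-((D * X) ^ 2 / 2)) * (3 / D)
      = 3 * (Real.exp (-((D * X) ^ 2 / 2)) * (1 / D)) := by ring
    _ ≤ 3 * (Real.exp (-(L ^ 2 / 2)) * Real.exp L) := by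
        apply mul_le_mul_of_nonneg_left _ (by norm_num)
        exact mul_le_mul h2 h1 (by positivity) (Real.exp_pos _).le
    _ ≤ 3 * (1 / L) := mul_le_mul_of_nonneg_left h3 (by norm_num)
    _ = 3 / L := by ring

/-- PROOF. The square is `≤ (C₁² C₂)² TG` (`PR_norm_le`, `PQ_norm_le`), and by `gauss_tail`, `Δ X ≥ L = log X`, `1/Δ ≤ X/L ≤ X`
the integral of the Gaussian is `≤ exp (- L²/2) · 3 X = 3 exp (L - L²/2) → 0`. -/
theorem core2_T4 (a c δ : ℝ) (ha : 3 ≤ a) (hc : 2 ≤ c) (hδ : 0 < δ) :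
    ∃ X₀ : ℕ, ∀ X : ℕ, X₀ ≤ X → ∀ (W : ℕ) (χ₁ χ₂ χ₃ : DirichletCharacter ℂ W) (R ℓ : ℕ) (Y Δ : ℝ),
      CH2 a c X R ℓ Y Δ →
      ∫ t in {t : ℝ | (X : ℝ) < |t|}, Real.exp (-(Δ * t) ^ 2) *
        ‖PR χ₁ R t * PR χ₂ (R ^ ℓ) t * PQ χ₃ X Y t‖ ^ 2 ≤ δ * TG2 X R ℓ := by
  obtain ⟨C₁, hC₁, hPR⟩ := PR_norm_le
  obtain ⟨C₂, hC₂, hPQ⟩ := PQ_norm_le
  set M : ℝ := (C₁ * C₁ * C₂) ^ 2 with hM
  have hM0 : 0 < M := by positivity
  obtain ⟨X₁, h1⟩ := CH2_large a c ha hc (max 8 (3 * M / δ))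
  obtain ⟨X₂, h2⟩ := CH2_log_R2 a c 0 ha hc
  refine ⟨max X₁ X₂, fun X hX W χ₁ χ₂ χ₃ R ℓ Y Δ h => ?_⟩
  obtain ⟨hRK, hLK, hell1⟩ := h1 X (le_trans (le_max_left _ _) hX) R ℓ Y Δ h
  obtain ⟨hlR, hlR2, -⟩ := h2 X (le_trans (le_max_right _ _) hX) R ℓ Y Δ h
  have hR8 : (8 : ℝ) ≤ R := le_trans (le_max_left _ _) hRK
  have hL8 : 8 ≤ Real.log X := le_trans (le_max_left _ _) hLK
  have hLM : 3 * M / δ ≤ Real.log X := le_trans (le_max_right _ _) hLK
  have hX0 : (0 : ℝ) < X := by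
    by_contra hc
    push Not at hc
    have : (X : ℝ) = 0 := le_antisymm hc (Nat.cast_nonneg X)
    rw [this, Real.log_zero] at hL8
    linarith
  have hX8 : 8 ≤ X := by
    have := Real.log_le_sub_one_of_pos hX0
    have h8 : (8 : ℝ) ≤ X := by linarith
    exact_mod_cast h8
  have hR2 : 2 ≤ R := by
    have : (2 : ℝ) ≤ R := by linarith
    exact_mod_cast this
  have hell : ℓ ≠ 0 := by omega
  have hRl2 : 2 ≤ R ^ ℓ := le_trans hR2 (Nat.le_self_pow hell R)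
  have hcast : (((R ^ ℓ : ℕ)) : ℝ) = (R : ℝ) ^ ℓ := Nat.cast_pow _ _
  have hL0 : 0 < Real.log X := by linarith
  have hlS : 0 < Real.log ((R : ℝ) ^ ℓ) := by linarith
  have hTG : 0 ≤ TG2 X R ℓ := by unfold TG2; positivity
  have hbd : ∀ t : ℝ, ‖PR χ₁ R t * PR χ₂ (R ^ ℓ) t * PQ χ₃ X Y t‖ ^ 2 ≤ M * TG2 X R ℓ := by
    intro t
    have e1 := hPR W χ₁ R t hR2
    have e2 := hPR W χ₂ (R ^ ℓ) t hRl2
    rw [hcast] at e2
    have e3 := hPQ W χ₃ X Y t hX8 h.Ylow h.Yup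
    rw [norm_mul, norm_mul]
    calc (‖PR χ₁ R t‖ * ‖PR χ₂ (R ^ ℓ) t‖ * ‖PQ χ₃ X Y t‖) ^ 2
        ≤ (C₁ / Real.log R * (C₁ / Real.log ((R : ℝ) ^ ℓ)) * (C₂ / Real.log X)) ^ 2 := by
          apply pow_le_pow_left₀ (by positivity)
          apply mul_le_mul _ e3 (norm_nonneg _) (by positivity)
          exact mul_le_mul e1 e2 (norm_nonneg _) (by positivity)
      _ = M * TG2 X R ℓ := by
          rw [hM]
          unfold TG2
          field_simp
  have hcont : Continuous fun t : ℝ => ‖PR χ₁ R t * PR χ₂ (R ^ ℓ) t * PQ χ₃ X Y t‖ ^ 2 :=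
    ((((PR_continuous χ₁ R).mul (PR_continuous χ₂ _)).mul (PQ_continuous χ₃ X Y)).norm).pow 2
  have hint := gauss_integrable_of_bounded Δ (M * TG2 X R ℓ) h.Dpos _ hcont (fun t => by
    rw [abs_of_nonneg (by positivity)]
    exact hbd t)
  have hint2 : Integrable (fun t : ℝ => Real.exp (-(Δ * t) ^ 2) * (M * TG2 X R ℓ)) :=
    gauss_integrable_of_bounded Δ (M * TG2 X R ℓ) h.Dpos _ continuous_const (fun t => by
      rw [abs_of_nonneg (by positivity)])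
  have hms : MeasurableSet {t : ℝ | (X : ℝ) < |t|} :=
    measurableSet_lt measurable_const continuous_abs.measurable
  calc ∫ t in {t : ℝ | (X : ℝ) < |t|}, Real.exp (-(Δ * t) ^ 2) *
        ‖PR χ₁ R t * PR χ₂ (R ^ ℓ) t * PQ χ₃ X Y t‖ ^ 2
      ≤ ∫ t in {t : ℝ | (X : ℝ) < |t|}, Real.exp (-(Δ * t) ^ 2) * (M * TG2 X R ℓ) := by
        apply setIntegral_mono_on hint.integrableOn hint2.integrableOn hms
        intro t _
        exact mul_le_mul_of_nonneg_left (hbd t) (Real.exp_pos _).le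
    _ = (∫ t in {t : ℝ | (X : ℝ) < |t|}, Real.exp (-(Δ * t) ^ 2)) * (M * TG2 X R ℓ) :=
        integral_mul_const _ _
    _ ≤ (Real.exp (-((Δ * X) ^ 2 / 2)) * (3 / Δ)) * (M * TG2 X R ℓ) :=
        mul_le_mul_of_nonneg_right (gauss_tail Δ X h.Dpos hX0.le) (by positivity)
    _ ≤ (3 / Real.log X) * (M * TG2 X R ℓ) := by
        apply mul_le_mul_of_nonneg_right _ (by positivity)
        exact K6_num (Real.log X) Δ X (by linarith) (Real.exp_log hX0).symm h.Dpos h.DX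
    _ = (3 * M / Real.log X) * TG2 X R ℓ := by ring
    _ ≤ δ * TG2 X R ℓ := by
        apply mul_le_mul_of_nonneg_right _ hTG
        rw [div_le_iff₀ hL0]
        rw [div_le_iff₀ hδ] at hLM
        linarith

end Pool.Agent.E3
end

section

/-!
# MVb1: pairs of products, one dyadic block
-/

set_option autoImplicit false

namespace Pool.Agent.E3

open Finset MeasureTheory Real
open Pool.Agent.Lib.MP_bae66e_nt.AP3 (prI mem_prI)

lemma MVb1_sum_Icc (F : ℕ → ℝ) (N : ℕ) : ∑ k ∈ Icc 1 N, F k = ∑ k ∈ range N, F (k + 1) := by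
  induction N with
  | zero => simp
  | succ n ih => rw [Finset.sum_Icc_succ_top (by omega), ih, Finset.sum_range_succ]

lemma MVb1_sum_div (F : ℕ → ℝ) (hF : ∀ k, 0 ≤ F k) (g N : ℕ) (hg : 1 ≤ g) :
    ∑ h ∈ (Icc 1 N).filter (fun h => g ∣ h), F (h / g) ≤ ∑ k ∈ Icc 1 N, F k := by
  have hinj : Set.InjOn (fun h : ℕ => h / g) ((Icc 1 N).filter (fun h => g ∣ h) : Finset ℕ) := by
    intro a ha b hb hab
    simp only [coe_filter, mem_Icc, Set.mem_setOf_eq] at ha hb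
    simp only at hab
    obtain ⟨a', rfl⟩ := ha.2
    obtain ⟨b', rfl⟩ := hb.2
    rw [Nat.mul_div_cancel_left _ (by omega), Nat.mul_div_cancel_left _ (by omega)] at hab
    rw [hab]
  rw [← Finset.sum_image (f := F) hinj]
  refine Finset.sum_le_sum_of_subset_of_nonneg ?_ (fun i _ _ => hF i)
  intro k hk
  simp only [mem_image, mem_filter, mem_Icc] at hk
  obtain ⟨h, ⟨⟨h1, h2⟩, ⟨m, rfl⟩⟩, rfl⟩ := hk
  rw [Nat.mul_div_cancel_left _ (by omega)]
  rw [mem_Icc]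
  constructor
  · rcases Nat.eq_zero_or_pos m with h0 | h0
    · rw [h0] at h1; simp at h1
    · exact h0
  · nlinarith

/-- PROOF. Let `g = gcd(s, s')`, so `g = 1` or `g = s = s'`. For `h ≥ 1` not divisible by `g` the set is empty by `SLP`. For
`h = g k`: `Fr (s s' h) ≤ Fr s · Fr s' · Fr g · Fr k ≤ 8 Fr k` (`Fr_mul_le`, `Fr_prime_le`, `Fr 1 = 1`), so by `SLP` the number is
`≤ C₀ (g U / (s' (log U)²)) · 64 (Fr k)^2 ≤ … (Fr k)^4` (`Fr_one_le`). With `M > 0` and `M' = M / g`: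
`exp (- (h/M)²) = exp (- (k/M')²)`, and `∑_{k ≥ 1} (Fr k)^4 exp (- (k/M')²) ≤ C₁ M / g` by `SLF` (a finite initial sum is at
most the `tsum`). So the factors `g` cancel: total `≤ 64 C₀ C₁ U M / (s' (log U)²)`. -/
theorem block_count (hSL : SLP) (hF : SLF) : ∃ c C : ℝ, 0 < c ∧ c ≤ 1 ∧ 1 ≤ C ∧ ∃ U₀ : ℕ, 2 ≤ U₀ ∧
    ∀ (U s s' N : ℕ) (M : ℝ), U₀ ≤ U → s.Prime → s'.Prime → (s : ℝ) ≤ (U : ℝ) ^ c → (s' : ℝ) ≤ (U : ℝ) ^ c →
      0 < M →
      ∑ h ∈ Icc 1 N, (#{q ∈ IS U | s' ∣ s * q + h ∧ ((s * q + h) / s').Prime} : ℝ)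
          * Real.exp (-((h : ℝ) / M) ^ 2)
        ≤ C * (U * M / (s' * (Real.log U) ^ 2)) := by
  obtain ⟨c, C₀, hc0, hc1, hC₀, U₀, hS⟩ := hSL
  obtain ⟨C₁, hC₁, hFF⟩ := hF
  refine ⟨c, 64 * C₀ * C₁, hc0, hc1, by nlinarith, max U₀ 2, le_max_right _ _, ?_⟩
  intro U s s' N M hU hs hs' hsU hs'U hM
  have hU0 : U₀ ≤ U := (le_max_left _ _).trans hU
  have hU2 : 2 ≤ U := (le_max_right _ _).trans hU
  set g : ℕ := Nat.gcd s s' with hg
  have hg1 : 1 ≤ g := Nat.gcd_pos_of_pos_left _ hs.pos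
  have hFg : Fr g ≤ 2 := by
    rcases (Nat.dvd_prime hs).1 (Nat.gcd_dvd_left s s') with h | h
    · rw [hg, h]; unfold Fr; simp
    · rw [hg, h]; exact Fr_prime_le s hs
  have hg1' : (1 : ℝ) ≤ g := by exact_mod_cast hg1
  have hgpos : (0 : ℝ) < g := by linarith
  have hs'pos : (0 : ℝ) < s' := by exact_mod_cast hs'.pos
  have hlog : 0 < Real.log U := Real.log_pos (by exact_mod_cast hU2)
  have hUpos : (0 : ℝ) < U := by exact_mod_cast (by omega : 0 < U)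
  have hFr0 : ∀ k : ℕ, 0 ≤ Fr k := fun k => by unfold Fr; positivity
  set F : ℕ → ℝ := fun k => (Fr k) ^ 4 * Real.exp (-((k : ℝ) / (M / g)) ^ 2) with hFdef
  have hFn : ∀ k, 0 ≤ F k := fun k => mul_nonneg (pow_nonneg (hFr0 k) 4) (Real.exp_pos _).le
  set K : ℝ := 64 * C₀ * (g * U / (s' * (Real.log U) ^ 2)) with hK
  have hK0 : 0 ≤ K := by positivity
  have hterm : ∀ h ∈ Icc 1 N, (#{q ∈ IS U | s' ∣ s * q + h ∧ ((s * q + h) / s').Prime} : ℝ)
          * Real.exp (-((h : ℝ) / M) ^ 2) ≤ if g ∣ h then K * F (h / g) else 0 := by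
    intro h hh
    rw [mem_Icc] at hh
    have hb := hS U s s' h hU0 hs.one_le hs'.one_le hh.1 hsU hs'U
    rw [← hg] at hb
    by_cases hd : g ∣ h
    · rw [if_pos hd] at hb ⊢
      obtain ⟨k, rfl⟩ := hd
      have hk : k ≠ 0 := by rintro rfl; simp at hh
      rw [Nat.mul_div_cancel_left _ (by omega)]
      have h1 : Fr (s * s' * (g * k)) ≤ 8 * Fr k := by
        have a1 := Fr_mul_le (s * s') (g * k) (mul_ne_zero hs.ne_zero hs'.ne_zero)
          (mul_ne_zero (by omega) hk)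
        have a2 := Fr_mul_le s s' hs.ne_zero hs'.ne_zero
        have a3 := Fr_mul_le g k (by omega) hk
        have a4 := Fr_prime_le s hs
        have a5 := Fr_prime_le s' hs'
        have b1 : Fr s * Fr s' ≤ 2 * 2 := mul_le_mul a4 a5 (hFr0 _) (by norm_num)
        have b2 : Fr g * Fr k ≤ 2 * Fr k := mul_le_mul_of_nonneg_right hFg (hFr0 _)
        calc Fr (s * s' * (g * k)) ≤ Fr (s * s') * Fr (g * k) := a1
          _ ≤ (2 * 2) * (2 * Fr k) :=
            mul_le_mul (a2.trans b1) (a3.trans b2) (hFr0 _) (by norm_num)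
          _ = _ := by ring
      have h2 : (Fr (s * s' * (g * k))) ^ 2 ≤ 64 * (Fr k) ^ 4 := by
        have c1 : (Fr (s * s' * (g * k))) ^ 2 ≤ (8 * Fr k) ^ 2 := pow_le_pow_left₀ (hFr0 _) h1 2
        have c2 : (1 : ℝ) ≤ (Fr k) ^ 2 := one_le_pow₀ (Fr_one_le k hk)
        nlinarith [sq_nonneg (Fr k)]
      have h3 : (#{q ∈ IS U | s' ∣ s * q + g * k ∧ ((s * q + g * k) / s').Prime} : ℝ)
          ≤ K * (Fr k) ^ 4 := by
        refine hb.trans ?_
        rw [hK]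
        have : 0 ≤ C₀ * (g * U / (s' * (Real.log U) ^ 2)) := by positivity
        calc C₀ * (g * U / (s' * (Real.log U) ^ 2)) * (Fr (s * s' * (g * k))) ^ 2
            ≤ C₀ * (g * U / (s' * (Real.log U) ^ 2)) * (64 * (Fr k) ^ 4) :=
              mul_le_mul_of_nonneg_left h2 this
          _ = _ := by ring
      have h4 : ((g * k : ℕ) : ℝ) / M = (k : ℝ) / (M / g) := by
        push_cast
        field_simp
      rw [h4, hFdef]
      simp only
      rw [← mul_assoc]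
      exact mul_le_mul_of_nonneg_right h3 (Real.exp_pos _).le
    · rw [if_neg hd] at hb ⊢
      have : (#{q ∈ IS U | s' ∣ s * q + h ∧ ((s * q + h) / s').Prime} : ℝ) = 0 :=
        le_antisymm hb (Nat.cast_nonneg _)
      rw [this, zero_mul]
  refine (Finset.sum_le_sum hterm).trans ?_
  rw [← Finset.sum_filter, ← Finset.mul_sum]
  have hs1 := MVb1_sum_div F hFn g N hg1
  have hs2 : ∑ k ∈ Icc 1 N, F k ≤ C₁ * (M / g) := by
    rw [MVb1_sum_Icc]
    obtain ⟨hsum, hle⟩ := hFF (M / g) (by positivity)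
    have e : ∀ k : ℕ, F (k + 1) = (Fr (k + 1)) ^ 4 * Real.exp (-(((k : ℝ) + 1) / (M / g)) ^ 2) := by
      intro k
      rw [hFdef]
      simp only
      push_cast
      rfl
    simp_rw [e]
    exact (hsum.sum_le_tsum (range N) (fun i _ => by positivity)).trans hle
  calc K * ∑ h ∈ (Icc 1 N).filter (fun h => g ∣ h), F (h / g) ≤ K * (C₁ * (M / g)) :=
        mul_le_mul_of_nonneg_left (hs1.trans hs2) hK0
    _ = 64 * C₀ * C₁ * (U * M / (s' * (Real.log U) ^ 2)) := by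
        rw [hK]
        field_simp

lemma MVb1_log_ge {x : ℝ} (h0 : 0 ≤ x) (h1 : x ≤ 1) : x / 2 ≤ Real.log (1 + x) := by
  have h := Real.one_sub_inv_le_log_of_pos (x := 1 + x) (by linarith)
  have h2 : x / 2 ≤ 1 - (1 + x)⁻¹ := by
    rw [inv_eq_one_div, div_le_iff₀ (by norm_num : (0 : ℝ) < 2), sub_mul, div_mul_eq_mul_div,
      le_sub_iff_add_le, ← le_sub_iff_add_le', div_le_iff₀ (by linarith)]
    nlinarith
  linarith

/-- PROOF. For `q ∈ IS U` and `q'` in the filter put `h = s' q' - s q`, `1 ≤ h ≤ s q ≤ 2 s U`. The term is at most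
`e gs (1/2) y (log U) (s U)⁻² exp (- (h/M)²)` with `M = 8 s U Δ`: `gs_block`; `1/(s q) ≤ 1/(s U)`, `1/(s' q') ≤ 1/(s q) ≤ 1/(s U)`;
`log (s' q') - log (s q) = log (1 + h/(s q)) ≥ h/(2 s q) ≥ h/(4 s U)` (`log (1 + x) ≥ x/2` for `0 ≤ x ≤ 1`), and
`(h/(4 s U))²/(4Δ²) = (h/M)²`. The pairs `(q, q')` with a given `h` inject (by `q`) into the set of `block_count`
(`q' = (s q + h)/s'`). So the double sum is `≤ e gs (s U)⁻² · C U M/(s' (log U)²) = 8 e C Δ gs/(s s' (log U)²)`. -/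
theorem block_pair (hSL : SLP) (hF : SLF) : ∃ c C : ℝ, 0 < c ∧ c ≤ 1 ∧ 1 ≤ C ∧ ∃ U₀ : ℕ, 2 ≤ U₀ ∧
    ∀ (U s s' : ℕ) (y Δ : ℝ) (Q : Finset ℕ), U₀ ≤ U → s.Prime → s'.Prime →
      (s : ℝ) ≤ (U : ℝ) ^ c → (s' : ℝ) ≤ (U : ℝ) ^ c → 0 < Δ → (∀ q ∈ Q, q.Prime) →
      ∑ q ∈ IS U, ∑ q' ∈ Q.filter (fun q' => s * q < s' * q' ∧ s' * q' ≤ 2 * (s * q)),
          gs 1 y (Real.log q) / (s * q) * (1 / (s' * q'))
            * Real.exp (-((Real.log ((s * q : ℕ) : ℝ) - Real.log ((s' * q' : ℕ) : ℝ)) ^ 2 / (4 * Δ ^ 2)))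
        ≤ C * Δ / (s * s' * (Real.log U) ^ 2) * gs (1 / 2) y (Real.log U) := by
  obtain ⟨c, C, hc0, hc1, hC, U₀, hU₀, hB⟩ := block_count hSL hF
  have he1 : 1 ≤ Real.exp 1 := Real.one_le_exp (by norm_num)
  refine ⟨c, 8 * Real.exp 1 * C, hc0, hc1, by nlinarith, U₀, hU₀, ?_⟩
  intro U s s' y Δ Q hU hs hs' hsU hs'U hΔ hQ
  have hU2 : 2 ≤ U := hU₀.trans hU
  have hUpos : (0 : ℝ) < U := by exact_mod_cast (by omega : 0 < U)
  have hspos : (0 : ℝ) < s := by exact_mod_cast hs.pos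
  have hs'pos : (0 : ℝ) < s' := by exact_mod_cast hs'.pos
  have hlog : 0 < Real.log U := Real.log_pos (by exact_mod_cast hU2)
  set M : ℝ := 8 * s * U * Δ with hM
  have hMpos : 0 < M := by positivity
  set G : ℝ := gs (1 / 2) y (Real.log U) with hG
  have hG0 : 0 ≤ G := by rw [hG]; unfold gs; positivity
  set K : ℝ := Real.exp 1 * G / (s * U) ^ 2 with hK
  have hK0 : 0 ≤ K := by positivity
  set N : ℕ := 2 * s * U with hN
  -- bound for each term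
  have hterm : ∀ q ∈ IS U, ∀ q' ∈ Q.filter (fun q' => s * q < s' * q' ∧ s' * q' ≤ 2 * (s * q)),
      gs 1 y (Real.log q) / (s * q) * (1 / (s' * q'))
            * Real.exp (-((Real.log ((s * q : ℕ) : ℝ) - Real.log ((s' * q' : ℕ) : ℝ)) ^ 2 / (4 * Δ ^ 2)))
        ≤ K * Real.exp (-(((s' * q' - s * q : ℕ) : ℝ) / M) ^ 2) := by
    intro q hq q' hq'
    rw [mem_filter] at hq'
    obtain ⟨hq'Q, hlt, hle⟩ := hq'
    have hq2 := mem_prI.1 hq
    have hUq : U ≤ q := hq2.1.1.le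
    have hqU : q ≤ 2 * U := hq2.1.2
    have hqpos : (0 : ℝ) < q := by exact_mod_cast hq2.2.pos
    have hq'pos : (0 : ℝ) < q' := by exact_mod_cast (hQ q' hq'Q).pos
    have hUq' : (U : ℝ) ≤ q := by exact_mod_cast hUq
    have hqU' : (q : ℝ) ≤ 2 * U := by exact_mod_cast hqU
    have hlt' : (s : ℝ) * q < s' * q' := by exact_mod_cast hlt
    have hle' : (s' : ℝ) * q' ≤ 2 * (s * q) := by exact_mod_cast hle
    have t1 : gs 1 y (Real.log q) ≤ Real.exp 1 * G := gs_block U q y (by omega) hUq hqU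
    have t2 : 1 / ((s : ℝ) * q) ≤ 1 / (s * U) :=
      one_div_le_one_div_of_le (by positivity) (mul_le_mul_of_nonneg_left hUq' hspos.le)
    have t3 : 1 / ((s' : ℝ) * q') ≤ 1 / (s * U) :=
      (one_div_le_one_div_of_le (by positivity) hlt'.le).trans t2
    set h : ℝ := (s' : ℝ) * q' - s * q with hh
    have hcast : ((s' * q' - s * q : ℕ) : ℝ) = h := by
      rw [Nat.cast_sub hlt.le]; push_cast; rfl
    have hh0 : 0 ≤ h := by rw [hh]; linarith
    have t4 : h / (4 * (s * U)) ≤ Real.log ((s' * q' : ℕ) : ℝ) - Real.log ((s * q : ℕ) : ℝ) := by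
      push_cast
      rw [← Real.log_div (by positivity) (by positivity)]
      have e : (s' : ℝ) * q' / (s * q) = 1 + h / (s * q) := by
        rw [hh]; field_simp; ring
      rw [e]
      have hx1 : h / (s * q) ≤ 1 := by
        rw [div_le_one (by positivity)]; rw [hh]; linarith
      refine le_trans ?_ (MVb1_log_ge (by positivity) hx1)
      rw [div_div]
      refine div_le_div_of_nonneg_left hh0 (by positivity) ?_
      nlinarith
    have t5 : (h / M) ^ 2 ≤ (Real.log ((s * q : ℕ) : ℝ) - Real.log ((s' * q' : ℕ) : ℝ)) ^ 2 / (4 * Δ ^ 2) := by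
      have e1 : (h / M) ^ 2 = (h / (4 * (s * U))) ^ 2 / (4 * Δ ^ 2) := by
        rw [hM]; field_simp; ring
      rw [e1]
      refine div_le_div_of_nonneg_right ?_ (by positivity)
      rw [← neg_sq (Real.log ((s * q : ℕ) : ℝ) - Real.log ((s' * q' : ℕ) : ℝ)), neg_sub]
      exact pow_le_pow_left₀ (by positivity) t4 2
    have t6 : Real.exp (-((Real.log ((s * q : ℕ) : ℝ) - Real.log ((s' * q' : ℕ) : ℝ)) ^ 2 / (4 * Δ ^ 2)))
        ≤ Real.exp (-(h / M) ^ 2) := by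
      apply Real.exp_le_exp.2
      linarith
    rw [hcast]
    have hgs0 : 0 ≤ gs 1 y (Real.log q) := by unfold gs; positivity
    have t7 : gs 1 y (Real.log q) / (s * q) * (1 / (s' * q')) ≤ K := by
      have u1 : gs 1 y (Real.log q) / (s * q) ≤ Real.exp 1 * G * (1 / (s * U)) := by
        rw [div_eq_mul_one_div]
        exact mul_le_mul t1 t2 (by positivity) (by positivity)
      calc gs 1 y (Real.log q) / (s * q) * (1 / (s' * q'))
          ≤ Real.exp 1 * G * (1 / (s * U)) * (1 / (s * U)) :=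
            mul_le_mul u1 t3 (by positivity) (by positivity)
        _ = K := by rw [hK]; field_simp
    exact mul_le_mul t7 t6 (Real.exp_pos _).le hK0
  -- inner sums
  have hinner : ∀ q ∈ IS U, ∑ q' ∈ Q.filter (fun q' => s * q < s' * q' ∧ s' * q' ≤ 2 * (s * q)),
      K * Real.exp (-(((s' * q' - s * q : ℕ) : ℝ) / M) ^ 2)
      ≤ ∑ h ∈ Icc 1 N, if (s' ∣ s * q + h ∧ ((s * q + h) / s').Prime) then
          K * Real.exp (-((h : ℝ) / M) ^ 2) else 0 := by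
    intro q hq
    have hq2 := mem_prI.1 hq
    have hqU : q ≤ 2 * U := hq2.1.2
    set S := Q.filter (fun q' => s * q < s' * q' ∧ s' * q' ≤ 2 * (s * q)) with hS
    have hinj : Set.InjOn (fun q' : ℕ => s' * q' - s * q) (S : Finset ℕ) := by
      intro a ha b hb hab
      simp only [hS, coe_filter, Set.mem_setOf_eq] at ha hb
      simp only at hab
      have : s' * a = s' * b := by omega
      exact Nat.eq_of_mul_eq_mul_left hs'.pos this
    rw [← Finset.sum_image (f := fun h : ℕ => K * Real.exp (-((h : ℝ) / M) ^ 2)) hinj, ← Finset.sum_filter]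
    refine Finset.sum_le_sum_of_subset_of_nonneg ?_ (fun i _ _ => by positivity)
    intro h hh
    rw [mem_image] at hh
    obtain ⟨q', hq', rfl⟩ := hh
    rw [hS, mem_filter] at hq'
    obtain ⟨hq'Q, hlt, hle⟩ := hq'
    have e : s * q + (s' * q' - s * q) = s' * q' := by omega
    rw [mem_filter, mem_Icc, e]
    refine ⟨⟨by omega, ?_⟩, dvd_mul_right _ _, ?_⟩
    · have : s * q ≤ s * (2 * U) := Nat.mul_le_mul_left _ hqU
      have e2 : s * (2 * U) = N := by rw [hN]; ring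
      omega
    · rw [Nat.mul_div_cancel_left _ hs'.pos]
      exact hQ q' hq'Q
  calc ∑ q ∈ IS U, ∑ q' ∈ Q.filter (fun q' => s * q < s' * q' ∧ s' * q' ≤ 2 * (s * q)),
          gs 1 y (Real.log q) / (s * q) * (1 / (s' * q'))
            * Real.exp (-((Real.log ((s * q : ℕ) : ℝ) - Real.log ((s' * q' : ℕ) : ℝ)) ^ 2 / (4 * Δ ^ 2)))
      ≤ ∑ q ∈ IS U, ∑ h ∈ Icc 1 N, (if (s' ∣ s * q + h ∧ ((s * q + h) / s').Prime) then
          K * Real.exp (-((h : ℝ) / M) ^ 2) else 0) :=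
        Finset.sum_le_sum fun q hq => (Finset.sum_le_sum fun q' hq' => hterm q hq q' hq').trans (hinner q hq)
    _ = ∑ h ∈ Icc 1 N, ∑ q ∈ IS U, (if (s' ∣ s * q + h ∧ ((s * q + h) / s').Prime) then
          K * Real.exp (-((h : ℝ) / M) ^ 2) else 0) := Finset.sum_comm
    _ = K * ∑ h ∈ Icc 1 N, (#{q ∈ IS U | s' ∣ s * q + h ∧ ((s * q + h) / s').Prime} : ℝ)
          * Real.exp (-((h : ℝ) / M) ^ 2) := by
        rw [Finset.mul_sum]
        refine Finset.sum_congr rfl fun h _ => ?_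
        rw [← Finset.sum_filter, Finset.sum_const, nsmul_eq_mul]
        ring
    _ ≤ K * (C * (U * M / (s' * (Real.log U) ^ 2))) :=
        mul_le_mul_of_nonneg_left (hB U s s' N M hU hs hs' hsU hs'U hMpos) hK0
    _ = 8 * Real.exp 1 * C * Δ / (s * s' * (Real.log U) ^ 2) * G := by
        rw [hK, hM]
        field_simp

end Pool.Agent.E3
end

section

/-!
# MVb2: pairs of products
-/

set_option autoImplicit false

namespace Pool.Agent.E3

open Finset MeasureTheory Real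
open Pool.Agent.Lib.MP_bae66e_nt.AP3 (prI mem_prI)

lemma MVb2_blocks (z Z : ℕ) (hz : 4 ≤ z) (f : ℕ → ℝ) (hf : ∀ q, 0 ≤ f q) :
    ∑ q ∈ prI z Z, f q ≤ ∑ j ∈ (range (Nat.log 2 Z + 1)).filter (fun j => z < 2 ^ (j + 1)),
      ∑ q ∈ IS (2 ^ j), f q := by
  have hdisj : ∀ i ∈ (range (Nat.log 2 Z + 1)).filter (fun j => z < 2 ^ (j + 1)),
      ∀ j ∈ (range (Nat.log 2 Z + 1)).filter (fun j => z < 2 ^ (j + 1)), i ≠ j →
        Disjoint (IS (2 ^ i)) (IS (2 ^ j)) := by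
    intro i _ j _ hij
    rw [Finset.disjoint_left]
    intro q hq1 hq2
    have a := mem_prI.1 hq1
    have b := mem_prI.1 hq2
    rcases lt_or_gt_of_ne hij with h | h
    · have h1 : 2 ^ (i + 1) ≤ 2 ^ j := Nat.pow_le_pow_right (by norm_num) h
      have h2 : 2 ^ (i + 1) = 2 * 2 ^ i := by ring
      omega
    · have h1 : 2 ^ (j + 1) ≤ 2 ^ i := Nat.pow_le_pow_right (by norm_num) h
      have h2 : 2 ^ (j + 1) = 2 * 2 ^ j := by ring
      omega
  rw [← Finset.sum_biUnion hdisj]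
  refine Finset.sum_le_sum_of_subset_of_nonneg ?_ (fun i _ _ => hf i)
  intro q hq
  have hq1 := mem_prI.1 hq
  rw [mem_biUnion]
  have hq0 : q - 1 ≠ 0 := by omega
  have hlow : 2 ^ Nat.log 2 (q - 1) ≤ q - 1 := Nat.pow_log_le_self 2 hq0
  have hup : q - 1 < 2 ^ (Nat.log 2 (q - 1) + 1) := Nat.lt_pow_succ_log_self (by norm_num) _
  have e2 : 2 ^ (Nat.log 2 (q - 1) + 1) = 2 * 2 ^ (Nat.log 2 (q - 1)) := by ring
  refine ⟨Nat.log 2 (q - 1), ?_, ?_⟩
  · rw [mem_filter, mem_range]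
    refine ⟨?_, by omega⟩
    have : Nat.log 2 (q - 1) ≤ Nat.log 2 Z := Nat.log_mono_right (by omega)
    omega
  · refine mem_prI.2 ⟨⟨by omega, by omega⟩, hq1.2⟩

/-- PROOF. Every prime `q ∈ prI z Z` lies in exactly one block `IS (2^j)`, `2^j < q ≤ 2^(j+1)`, and then `2^j ≥ q/2 > z/2`,
`j < n` for `n = log₂ Z + 1`. So the sum over `q` is at most the sum over `j < n` with `2^j > z/2` of the sums of
`block_pair` (`c, C, U₀` from there) for `U = 2^j`; if `z ≥ z₀ = max (2 U₀) 4` then `2^j ≥ U₀`, `log (2^j) ≥ log (z/2) ≥ (log z)/2`, and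
`z^(c/2) ≤ (z/2)^c ≤ (2^j)^c` (`√z ≤ z/2` for `z ≥ 4`), so the new exponent is `c/2`. The Gaussians add up to
`≤ 2 + 2 √(2π)` by `sum_gauss_dyadic` with `γ = 1/2`. -/
theorem near_pair (hSL : SLP) (hF : SLF) : ∃ c C : ℝ, 0 < c ∧ c ≤ 1 ∧ 1 ≤ C ∧ ∃ z₀ : ℕ, 4 ≤ z₀ ∧
    ∀ (z Z s s' : ℕ) (y Δ : ℝ), z₀ ≤ z → s.Prime → s'.Prime →
      (s : ℝ) ≤ (z : ℝ) ^ c → (s' : ℝ) ≤ (z : ℝ) ^ c → 0 < Δ →
      ∑ q ∈ prI z Z, ∑ q' ∈ (prI z Z).filter (fun q' => s * q < s' * q' ∧ s' * q' ≤ 2 * (s * q)),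
          gs 1 y (Real.log q) / (s * q) * (1 / (s' * q'))
            * Real.exp (-((Real.log ((s * q : ℕ) : ℝ) - Real.log ((s' * q' : ℕ) : ℝ)) ^ 2 / (4 * Δ ^ 2)))
        ≤ C * Δ / (s * s' * (Real.log z) ^ 2) := by
  obtain ⟨c, C, hc0, hc1, hC, U₀, hU₀, hB⟩ := block_pair hSL hF
  have hsq : 0 ≤ Real.sqrt (π / (1 / 2)) := Real.sqrt_nonneg _
  refine ⟨c / 2, 4 * C * (2 + 2 * Real.sqrt (π / (1 / 2))), by positivity, by linarith, by nlinarith,
    max (2 * U₀) 4, le_max_right _ _, ?_⟩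
  intro z Z s s' y Δ hz hs hs' hsz hs'z hΔ
  have hz4 : 4 ≤ z := (le_max_right _ _).trans hz
  have hzU : 2 * U₀ ≤ z := (le_max_left _ _).trans hz
  have hz4' : (4 : ℝ) ≤ z := by exact_mod_cast hz4
  have hspos : (0 : ℝ) < s := by exact_mod_cast hs.pos
  have hs'pos : (0 : ℝ) < s' := by exact_mod_cast hs'.pos
  have hlogz : 0 < Real.log z := Real.log_pos (by linarith)
  -- facts on `z`
  have hroot : Real.sqrt z ≤ z / 2 := by
    rw [Real.sqrt_le_left (by linarith)]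
    nlinarith
  have hlog2 : Real.log z / 2 ≤ Real.log (z / 2) := by
    rw [← Real.log_sqrt (by linarith)]
    exact Real.log_le_log (Real.sqrt_pos.2 (by linarith)) hroot
  have hgs0 : ∀ x, 0 ≤ gs 1 y x := fun x => by unfold gs; positivity
  refine (MVb2_blocks z Z hz4 _ (fun q => Finset.sum_nonneg fun q' _ => ?_)).trans ?_
  · have := hgs0 (Real.log q)
    positivity
  have hj : ∀ j ∈ (range (Nat.log 2 Z + 1)).filter (fun j => z < 2 ^ (j + 1)),
      ∑ q ∈ IS (2 ^ j), ∑ q' ∈ (prI z Z).filter (fun q' => s * q < s' * q' ∧ s' * q' ≤ 2 * (s * q)),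
          gs 1 y (Real.log q) / (s * q) * (1 / (s' * q'))
            * Real.exp (-((Real.log ((s * q : ℕ) : ℝ) - Real.log ((s' * q' : ℕ) : ℝ)) ^ 2 / (4 * Δ ^ 2)))
        ≤ 4 * C * Δ / (s * s' * (Real.log z) ^ 2) * gs (1 / 2) y (Real.log ((2 ^ j : ℕ) : ℝ)) := by
    intro j hj
    rw [mem_filter] at hj
    have hzj : z < 2 * 2 ^ j := by
      have := hj.2
      rw [pow_succ] at this
      omega
    have hzj' : (z : ℝ) / 2 ≤ ((2 ^ j : ℕ) : ℝ) := by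
      have : (z : ℝ) < 2 * ((2 ^ j : ℕ) : ℝ) := by exact_mod_cast hzj
      linarith
    have hpow : (z : ℝ) ^ (c / 2) ≤ ((2 ^ j : ℕ) : ℝ) ^ c := by
      have e : (z : ℝ) ^ (c / 2) = (Real.sqrt z) ^ c := by
        rw [Real.sqrt_eq_rpow, ← Real.rpow_mul (by linarith)]
        congr 1
        ring
      rw [e]
      exact Real.rpow_le_rpow (Real.sqrt_nonneg _) (hroot.trans hzj') hc0.le
    have hb := hB (2 ^ j) s s' y Δ (prI z Z) (by omega) hs hs' (hsz.trans hpow) (hs'z.trans hpow) hΔ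
      (fun q hq => (mem_prI.1 hq).2)
    refine hb.trans ?_
    have hG : 0 ≤ gs (1 / 2) y (Real.log ((2 ^ j : ℕ) : ℝ)) := by unfold gs; positivity
    refine mul_le_mul_of_nonneg_right ?_ hG
    have hlj : Real.log z / 2 ≤ Real.log ((2 ^ j : ℕ) : ℝ) :=
      hlog2.trans (Real.log_le_log (by linarith) hzj')
    have h1 : (Real.log z / 2) ^ 2 ≤ (Real.log ((2 ^ j : ℕ) : ℝ)) ^ 2 :=
      pow_le_pow_left₀ (by positivity) hlj 2
    have e : 4 * C * Δ / (s * s' * (Real.log z) ^ 2) = C * Δ / (s * s' * (Real.log z / 2) ^ 2) := by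
      field_simp
      ring
    rw [e]
    refine div_le_div_of_nonneg_left (by positivity) (by positivity) ?_
    exact mul_le_mul_of_nonneg_left h1 (by positivity)
  refine (Finset.sum_le_sum hj).trans ?_
  rw [← Finset.mul_sum]
  have hsub : ∑ j ∈ (range (Nat.log 2 Z + 1)).filter (fun j => z < 2 ^ (j + 1)),
      gs (1 / 2) y (Real.log ((2 ^ j : ℕ) : ℝ)) ≤ 2 + 2 * Real.sqrt (π / (1 / 2)) :=
    (Finset.sum_le_sum_of_subset_of_nonneg (Finset.filter_subset _ _)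
      (fun i _ _ => by unfold gs; positivity)).trans (sum_gauss_dyadic (1 / 2) (by norm_num) y _)
  calc 4 * C * Δ / (s * s' * (Real.log z) ^ 2) * _
      ≤ 4 * C * Δ / (s * s' * (Real.log z) ^ 2) * (2 + 2 * Real.sqrt (π / (1 / 2))) :=
        mul_le_mul_of_nonneg_left hsub (by positivity)
    _ = _ := by ring

/-- PROOF. The pairs with `s' q' ≤ 2 s q`: `gs ≤ 1` for `q'` and `near_pair`. The pairs with `s' q' > 2 s q`: the exponential is
`≤ exp (- (log 2)²/(4Δ²)) ≤ 3 Δ` (`exp_far_le`), and the remaining double sum is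
`≤ (1/(s s')) (∑_{q ∈ prI z Z} gs 1 y (log q)/q)² ≤ C²/(s s' (log z)²)` (`prime_window_low`). -/
theorem pair_total (hSL : SLP) (hF : SLF) : ∃ c C : ℝ, 0 < c ∧ c ≤ 1 ∧ 1 ≤ C ∧ ∃ z₀ : ℕ, 4 ≤ z₀ ∧
    ∀ (z Z s s' : ℕ) (y Δ : ℝ), z₀ ≤ z → s.Prime → s'.Prime →
      (s : ℝ) ≤ (z : ℝ) ^ c → (s' : ℝ) ≤ (z : ℝ) ^ c → 0 < Δ →
      ∑ q ∈ prI z Z, ∑ q' ∈ (prI z Z).filter (fun q' => s * q < s' * q'),
          gs 1 y (Real.log q) / (s * q) * (gs 1 y (Real.log q') / (s' * q'))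
            * Real.exp (-((Real.log ((s * q : ℕ) : ℝ) - Real.log ((s' * q' : ℕ) : ℝ)) ^ 2 / (4 * Δ ^ 2)))
        ≤ C * Δ / (s * s' * (Real.log z) ^ 2) := by
  obtain ⟨c, C, hc0, hc1, hC, z₀, hz₀, hN⟩ := near_pair hSL hF
  obtain ⟨C₂, hC₂, hW⟩ := prime_window_low
  refine ⟨c, C + 3 * C₂ ^ 2, hc0, hc1, by nlinarith, z₀, hz₀, ?_⟩
  intro z Z s s' y Δ hz hs hs' hsz hs'z hΔ
  have hz4 : 4 ≤ z := hz₀.trans hz
  have hz4' : (4 : ℝ) ≤ z := by exact_mod_cast hz4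
  have hspos : (0 : ℝ) < s := by exact_mod_cast hs.pos
  have hs'pos : (0 : ℝ) < s' := by exact_mod_cast hs'.pos
  have hlogz : 0 < Real.log z := Real.log_pos (by linarith)
  have hgs0 : ∀ x, 0 ≤ gs 1 y x := fun x => by unfold gs; positivity
  have hgs1 : ∀ x, gs 1 y x ≤ 1 := fun x => by
    unfold gs
    rw [Real.exp_le_one_iff]
    have := sq_nonneg (y - x)
    linarith
  have hnear := hN z Z s s' y Δ hz hs hs' hsz hs'z hΔ
  have hsplit : ∀ q ∈ prI z Z, ∑ q' ∈ (prI z Z).filter (fun q' => s * q < s' * q'),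
          gs 1 y (Real.log q) / (s * q) * (gs 1 y (Real.log q') / (s' * q'))
            * Real.exp (-((Real.log ((s * q : ℕ) : ℝ) - Real.log ((s' * q' : ℕ) : ℝ)) ^ 2 / (4 * Δ ^ 2)))
      ≤ (∑ q' ∈ (prI z Z).filter (fun q' => s * q < s' * q' ∧ s' * q' ≤ 2 * (s * q)),
          gs 1 y (Real.log q) / (s * q) * (1 / (s' * q'))
            * Real.exp (-((Real.log ((s * q : ℕ) : ℝ) - Real.log ((s' * q' : ℕ) : ℝ)) ^ 2 / (4 * Δ ^ 2))))
        + ∑ q' ∈ prI z Z, gs 1 y (Real.log q) / (s * q) * (gs 1 y (Real.log q') / (s' * q')) * (3 * Δ) := by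
    intro q hq
    have hqpos : (0 : ℝ) < q := by exact_mod_cast (mem_prI.1 hq).2.pos
    rw [← Finset.sum_filter_add_sum_filter_not ((prI z Z).filter (fun q' => s * q < s' * q'))
      (fun q' => s' * q' ≤ 2 * (s * q)), Finset.filter_filter, Finset.filter_filter]
    refine add_le_add ?_ ?_
    · refine Finset.sum_le_sum fun q' hq' => ?_
      refine mul_le_mul_of_nonneg_right ?_ (Real.exp_pos _).le
      refine mul_le_mul_of_nonneg_left ?_ (div_nonneg (hgs0 _) (by positivity))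
      exact div_le_div_of_nonneg_right (hgs1 _) (by positivity)
    · refine (Finset.sum_le_sum (g := fun q' : ℕ => gs 1 y (Real.log q) / (s * q) *
        (gs 1 y (Real.log q') / (s' * q')) * (3 * Δ)) fun q' hq' => ?_).trans
        (Finset.sum_le_sum_of_subset_of_nonneg (Finset.filter_subset _ _) fun i _ _ => ?_)
      · rw [mem_filter] at hq'
        obtain ⟨hq'1, hlt, hnle⟩ := hq'
        rw [not_le] at hnle
        have hq'pos : (0 : ℝ) < q' := by exact_mod_cast (mem_prI.1 hq'1).2.pos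
        refine mul_le_mul_of_nonneg_left ?_
          (mul_nonneg (div_nonneg (hgs0 _) (by positivity)) (div_nonneg (hgs0 _) (by positivity)))
        refine le_trans ?_ (exp_far_le Δ hΔ)
        apply Real.exp_le_exp.2
        have h1 : Real.log 2 ≤ Real.log ((s' * q' : ℕ) : ℝ) - Real.log ((s * q : ℕ) : ℝ) := by
          push_cast
          rw [← Real.log_div (by positivity) (by positivity)]
          apply Real.log_le_log (by norm_num)
          rw [le_div_iff₀ (by positivity)]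
          exact_mod_cast hnle.le
        have h2 : (Real.log 2) ^ 2 ≤ (Real.log ((s * q : ℕ) : ℝ) - Real.log ((s' * q' : ℕ) : ℝ)) ^ 2 := by
          rw [← neg_sq (Real.log ((s * q : ℕ) : ℝ) - Real.log ((s' * q' : ℕ) : ℝ)), neg_sub]
          exact pow_le_pow_left₀ (Real.log_nonneg (by norm_num)) h1 2
        have h3 : (Real.log 2) ^ 2 / (4 * Δ ^ 2) ≤
            (Real.log ((s * q : ℕ) : ℝ) - Real.log ((s' * q' : ℕ) : ℝ)) ^ 2 / (4 * Δ ^ 2) :=
          div_le_div_of_nonneg_right h2 (by positivity)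
        linarith
      · have a := hgs0 (Real.log q)
        have b := hgs0 (Real.log i)
        positivity
  refine (Finset.sum_le_sum hsplit).trans ?_
  rw [Finset.sum_add_distrib]
  have hfar : ∑ q ∈ prI z Z, ∑ q' ∈ prI z Z,
      gs 1 y (Real.log q) / (s * q) * (gs 1 y (Real.log q') / (s' * q')) * (3 * Δ)
      ≤ 3 * C₂ ^ 2 * Δ / (s * s' * (Real.log z) ^ 2) := by
    set A : ℝ := ∑ q ∈ prI z Z, gs 1 y (Real.log q) / (q : ℝ) with hA
    have hA0 : 0 ≤ A := Finset.sum_nonneg fun q _ => div_nonneg (hgs0 _) (Nat.cast_nonneg _)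
    have hA1 : A ≤ C₂ / Real.log z := hW z Z y (by omega)
    have e : ∑ q ∈ prI z Z, ∑ q' ∈ prI z Z,
      gs 1 y (Real.log q) / (s * q) * (gs 1 y (Real.log q') / (s' * q')) * (3 * Δ)
        = 3 * Δ / (s * s') * (A * A) := by
      rw [hA, Finset.sum_mul_sum, Finset.mul_sum]
      refine Finset.sum_congr rfl fun q hq => ?_
      rw [Finset.mul_sum]
      refine Finset.sum_congr rfl fun q' hq' => ?_
      have hqpos : (q : ℝ) ≠ 0 := by exact_mod_cast (mem_prI.1 hq).2.ne_zero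
      have hq'pos : (q' : ℝ) ≠ 0 := by exact_mod_cast (mem_prI.1 hq').2.ne_zero
      field_simp
    rw [e]
    have h1 : A * A ≤ (C₂ / Real.log z) * (C₂ / Real.log z) := mul_le_mul hA1 hA1 hA0 (by positivity)
    calc 3 * Δ / (s * s') * (A * A) ≤ 3 * Δ / (s * s') * ((C₂ / Real.log z) * (C₂ / Real.log z)) :=
          mul_le_mul_of_nonneg_left h1 (by positivity)
      _ = _ := by field_simp
  calc _ ≤ C * Δ / (s * s' * (Real.log z) ^ 2) + 3 * C₂ ^ 2 * Δ / (s * s' * (Real.log z) ^ 2) :=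
        add_le_add hnear hfar
    _ = _ := by ring

end Pool.Agent.E3
end

section

/-!
# MVc1: the mean value of a product of two prime polynomials
-/

set_option autoImplicit false

namespace Pool.Agent.E3

open Finset MeasureTheory Real
open Pool.Agent.Lib.MP_bae66e_nt.AP3 (prI mem_prI)

private theorem MVc1_ph_mul (t : ℝ) (a b : ℕ) (ha : 1 ≤ a) (hb : 1 ≤ b) :
    ph t (Real.log a) * ph t (Real.log b) = ph t (Real.log ((a * b : ℕ) : ℝ)) := by
  unfold ph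
  rw [← Complex.exp_add]
  congr 1
  have ha' : (a : ℝ) ≠ 0 := by
    have : (0 : ℝ) < a := by exact_mod_cast ha
    exact this.ne'
  have hb' : (b : ℝ) ≠ 0 := by
    have : (0 : ℝ) < b := by exact_mod_cast hb
    exact this.ne'
  rw [Nat.cast_mul, Real.log_mul ha' hb']
  push_cast
  ring

private theorem MVc1_gs_nonneg (β x y : ℝ) : 0 ≤ gs β x y := (Real.exp_pos _).le

private theorem MVc1_gs_le_one (x y : ℝ) : gs 1 x y ≤ 1 := by
  unfold gs
  rw [Real.exp_le_one_iff]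
  nlinarith [sq_nonneg (x - y)]

/-- symmetric double sums over a finite set with an injective function to `ℕ` -/
private theorem MVc1_double (S : Finset (ℕ × ℕ)) (n : ℕ × ℕ → ℕ) (T : ℕ × ℕ → ℕ × ℕ → ℝ)
    (hinj : ∀ i ∈ S, ∀ j ∈ S, n i = n j → i = j) (hsym : ∀ i j, T i j = T j i) :
    ∑ i ∈ S, ∑ j ∈ S, T i j
      = ∑ i ∈ S, T i i + 2 * ∑ i ∈ S, ∑ j ∈ S, (if n i < n j then T i j else 0) := by
  classical
  have h1 : ∀ i ∈ S, ∀ j ∈ S, T i j = (if i = j then T i j else 0) + (if n i < n j then T i j else 0)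
      + (if n j < n i then T i j else 0) := by
    intro i hi j hj
    rcases lt_trichotomy (n i) (n j) with h | h | h
    · have hne : i ≠ j := by rintro rfl; exact lt_irrefl _ h
      rw [if_neg hne, if_pos h, if_neg (not_lt.mpr h.le)]
      ring
    · have he := hinj i hi j hj h
      rw [if_pos he, if_neg (by rw [h]; exact lt_irrefl _), if_neg (by rw [h]; exact lt_irrefl _)]
      ring
    · have hne : i ≠ j := by rintro rfl; exact lt_irrefl _ h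
      rw [if_neg hne, if_neg (not_lt.mpr h.le), if_pos h]
      ring
  have h2 : ∑ i ∈ S, ∑ j ∈ S, T i j = ∑ i ∈ S, ∑ j ∈ S, (if i = j then T i j else 0)
      + ∑ i ∈ S, ∑ j ∈ S, (if n i < n j then T i j else 0)
      + ∑ i ∈ S, ∑ j ∈ S, (if n j < n i then T i j else 0) := by
    rw [← Finset.sum_add_distrib, ← Finset.sum_add_distrib]
    refine Finset.sum_congr rfl fun i hi => ?_
    rw [← Finset.sum_add_distrib, ← Finset.sum_add_distrib]
    exact Finset.sum_congr rfl fun j hj => h1 i hi j hj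
  have h3 : ∑ i ∈ S, ∑ j ∈ S, (if i = j then T i j else 0) = ∑ i ∈ S, T i i := by
    refine Finset.sum_congr rfl fun i hi => ?_
    rw [Finset.sum_ite_eq, if_pos hi]
  have h4 : ∑ i ∈ S, ∑ j ∈ S, (if n j < n i then T i j else 0)
      = ∑ i ∈ S, ∑ j ∈ S, (if n i < n j then T i j else 0) := by
    rw [Finset.sum_comm]
    refine Finset.sum_congr rfl fun i _ => Finset.sum_congr rfl fun j _ => ?_
    rw [hsym j i]
  rw [h2, h3, h4]
  ring

/-- PROOF. The product is `∑_{(r,q) ∈ IS R ×ˢ prI z Z} x_(r,q) ph t (log (r q))` with `x_(r,q) = f r · g q · gs 1 y (log q)/(r q)`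
(`ph t (log r) ph t (log q) = ph t (log (r q))`), `‖x_(r,q)‖ ≤ gs 1 y (log q)/(r q)`. By `gauss_mv` the integral is at most `√π/Δ`
times the double sum over `((r,q), (r',q'))`. If `r q = r' q'` then `q ∣ r' q'` and `q > z ≥ 2 R ≥ r'` (`z ≥ z^c`), so
`q = q'`, `r = r'`: the diagonal is `∑_r 1/r² ∑_q gs²/q² ≤ (C/(R log R)) (C exp (-y)/y)` (`recip_IS`, `gs² ≤ gs`, `prime_window_sq`;
`prI z Z ⊆ prI 0 Z`). The terms with `r q < r' q'` are for fixed `(r, r')` the sum of `pair_total` with `s = r`, `s' = r'`, so they are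
`≤ ∑_{r,r'} C Δ/(r r' (log z)²) ≤ C' Δ/((log R)² (log z)²)`; the terms with `r q > r' q'` are symmetric. -/
theorem mv_RQ (hSL : SLP) (hF : SLF) : ∃ c C : ℝ, 0 < c ∧ c ≤ 1 ∧ 1 ≤ C ∧ ∃ z₀ : ℕ, 4 ≤ z₀ ∧
    ∀ (z Z R : ℕ) (y Δ : ℝ) (f g : ℕ → ℂ), z₀ ≤ z → 2 ≤ R → (2 * R : ℝ) ≤ (z : ℝ) ^ c → 2 ≤ y → 0 < Δ →
      (∀ n, ‖f n‖ ≤ 1) → (∀ n, ‖g n‖ ≤ 1) →
      ∫ t : ℝ, Real.exp (-(Δ * t) ^ 2) * ‖DP f (IS R) t * WIN g 1 (prI z Z) t y‖ ^ 2
        ≤ C * (Real.exp (-y) / (Δ * R * Real.log R * y) + 1 / ((Real.log R) ^ 2 * (Real.log z) ^ 2)) := by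
  classical
  obtain ⟨c, C0, hc0, hc1, hC0, z₀, hz₀, hpt⟩ := pair_total hSL hF
  obtain ⟨C1, hC1, h1⟩ := prime_window_sq
  obtain ⟨C2, hC2, h2⟩ := recip_IS
  have hC12 : 1 ≤ C1 * C2 := one_le_mul_of_one_le_of_one_le hC1 hC2
  have hC02 : 0 ≤ C0 * C2 ^ 2 := by positivity
  refine ⟨c, 2 * (C1 * C2 + 2 * (C0 * C2 ^ 2)), hc0, hc1, by linarith, z₀, hz₀, ?_⟩
  intro z Z R y Δ f g hz hR hRz hy hΔ hf hg
  set Q := prI z Z with hQ
  set S := IS R ×ˢ Q with hS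
  let n : ℕ × ℕ → ℕ := fun x => x.1 * x.2
  let X : ℕ × ℕ → ℂ := fun x => (f x.1 / (x.1 : ℂ)) * (g x.2 * ((gs 1 y (Real.log x.2) / x.2 : ℝ) : ℂ))
  let w : ℕ × ℕ → ℝ := fun x => gs 1 y (Real.log x.2) / (x.1 * x.2)
  let T : ℕ × ℕ → ℕ × ℕ → ℝ := fun i j =>
    w i * w j * Real.exp (-((Real.log ((n i : ℕ) : ℝ) - Real.log ((n j : ℕ) : ℝ)) ^ 2 / (4 * Δ ^ 2)))
  have hISp : ∀ r ∈ IS R, r.Prime := fun r hr => (mem_prI.mp hr).2
  have hISb : ∀ r ∈ IS R, r ≤ 2 * R := fun r hr => (mem_prI.mp hr).1.2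
  have hQp : ∀ q ∈ Q, q.Prime := fun q hq => (mem_prI.mp hq).2
  have hQb : ∀ q ∈ Q, z < q := fun q hq => (mem_prI.mp hq).1.1
  have hz4 : 4 ≤ z := hz₀.trans hz
  have hz1 : (1 : ℝ) ≤ z := by exact_mod_cast (by omega : 1 ≤ z)
  have hzc : (z : ℝ) ^ c ≤ z := by
    calc (z : ℝ) ^ c ≤ (z : ℝ) ^ (1 : ℝ) := Real.rpow_le_rpow_of_exponent_le hz1 hc1
      _ = z := Real.rpow_one _
  have h2Rz : 2 * R ≤ z := by
    have : (2 * R : ℝ) ≤ z := hRz.trans hzc
    exact_mod_cast this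
  have hR0 : (0 : ℝ) < R := by exact_mod_cast (by omega : 0 < R)
  have hlR : 0 < Real.log R := Real.log_pos (by exact_mod_cast (by omega : 1 < R))
  have hlz : 0 < Real.log z := Real.log_pos (by exact_mod_cast (by omega : 1 < z))
  have hy0 : 0 < y := by linarith
  have hw0 : ∀ i, 0 ≤ w i := fun i => div_nonneg (MVc1_gs_nonneg _ _ _) (by positivity)
  -- expansion
  have hexp : ∀ t, DP f (IS R) t * WIN g 1 Q t y = ∑ i ∈ S, X i * ph t (Real.log (n i)) := by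
    intro t
    unfold DP WIN
    rw [Finset.sum_mul_sum, ← Finset.sum_product']
    refine Finset.sum_congr rfl fun x hx => ?_
    rw [hS, Finset.mem_product] at hx
    have h3 := MVc1_ph_mul t x.1 x.2 (hISp _ hx.1).one_lt.le (hQp _ hx.2).one_lt.le
    show _ = X x * ph t (Real.log ((n x : ℕ) : ℝ))
    rw [show n x = x.1 * x.2 from rfl, ← h3]
    simp only [X]
    push_cast
    ring
  have hXw : ∀ i ∈ S, ‖X i‖ ≤ w i := by
    intro x _
    simp only [X, w]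
    rw [norm_mul, norm_mul, norm_div, Complex.norm_natCast, Complex.norm_real, Real.norm_eq_abs,
      abs_of_nonneg (div_nonneg (MVc1_gs_nonneg _ _ _) (Nat.cast_nonneg _))]
    have hG := MVc1_gs_nonneg 1 y (Real.log x.2)
    calc ‖f x.1‖ / (x.1 : ℝ) * (‖g x.2‖ * (gs 1 y (Real.log x.2) / x.2))
        ≤ 1 / (x.1 : ℝ) * (1 * (gs 1 y (Real.log x.2) / x.2)) := by
          have := hf x.1
          have := hg x.2
          gcongr
      _ = _ := by
          rw [one_mul, div_mul_div_comm, one_mul]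
  simp_rw [hexp]
  refine (gauss_mv S X (fun i => Real.log (n i)) Δ hΔ).trans ?_
  have hle : ∑ i ∈ S, ∑ j ∈ S, ‖X i‖ * ‖X j‖ * Real.exp (-((Real.log (n i) - Real.log (n j)) ^ 2 / (4 * Δ ^ 2)))
      ≤ ∑ i ∈ S, ∑ j ∈ S, T i j := by
    refine Finset.sum_le_sum fun i hi => Finset.sum_le_sum fun j hj => ?_
    refine mul_le_mul_of_nonneg_right ?_ (Real.exp_pos _).le
    exact mul_le_mul (hXw i hi) (hXw j hj) (norm_nonneg _) (hw0 i)
  have hinj : ∀ i ∈ S, ∀ j ∈ S, n i = n j → i = j := by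
    intro i hi j hj hij
    rw [hS, Finset.mem_product] at hi hj
    have hpi := hQp _ hi.2
    have hpj := hQp _ hj.2
    have hij' : i.1 * i.2 = j.1 * j.2 := hij
    have hdvd : i.2 ∣ j.1 * j.2 := hij' ▸ Dvd.intro_left _ rfl
    have h3 : i.2 = j.2 := by
      rcases (Nat.Prime.dvd_mul hpi).mp hdvd with h | h
      · exfalso
        have h4 := Nat.le_of_dvd (hISp _ hj.1).pos h
        have h5 := hISb _ hj.1
        have h6 := hQb _ hi.2
        omega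
      · exact (Nat.prime_dvd_prime_iff_eq hpi hpj).mp h
    have h4 : i.1 = j.1 := by
      rw [h3] at hij'
      exact Nat.eq_of_mul_eq_mul_right hpj.pos hij'
    exact Prod.ext h4 h3
  have hsym : ∀ i j, T i j = T j i := by
    intro i j
    simp only [T]
    rw [mul_comm (w i) (w j), show (Real.log ((n i : ℕ) : ℝ) - Real.log ((n j : ℕ) : ℝ)) ^ 2
      = (Real.log ((n j : ℕ) : ℝ) - Real.log ((n i : ℕ) : ℝ)) ^ 2 by ring]
  have hdouble := MVc1_double S n T hinj hsym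
  -- the diagonal
  obtain ⟨hr1, hr2⟩ := h2 R hR
  have hsub : Q ⊆ prI 0 Z := by
    intro q hq
    rw [hQ, mem_prI] at hq
    rw [mem_prI]
    exact ⟨⟨hq.2.pos, hq.1.2⟩, hq.2⟩
  have hq1 : ∑ q ∈ Q, gs 1 y (Real.log q) / (q : ℝ) ^ 2 ≤ C1 * Real.exp (-y) / y :=
    (Finset.sum_le_sum_of_subset_of_nonneg hsub fun q _ _ =>
      div_nonneg (MVc1_gs_nonneg _ _ _) (by positivity)).trans (h1 Z y hy)
  have hs1 : 0 ≤ ∑ q ∈ Q, gs 1 y (Real.log q) / (q : ℝ) ^ 2 :=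
    Finset.sum_nonneg fun q _ => div_nonneg (MVc1_gs_nonneg _ _ _) (by positivity)
  have hdiag : ∑ i ∈ S, T i i ≤ C2 / (R * Real.log R) * (C1 * Real.exp (-y) / y) := by
    have h3 : ∀ i ∈ S, T i i ≤ 1 / (i.1 : ℝ) ^ 2 * (gs 1 y (Real.log i.2) / (i.2 : ℝ) ^ 2) := by
      intro i _
      simp only [T, w]
      rw [sub_self]
      have h4 : Real.exp (-((0 : ℝ) ^ 2 / (4 * Δ ^ 2))) = 1 := by simp
      rw [h4, mul_one]
      have hG0 := MVc1_gs_nonneg 1 y (Real.log i.2)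
      have hG1 := MVc1_gs_le_one y (Real.log i.2)
      set G := gs 1 y (Real.log i.2) with hG
      have hGG : G ^ 2 ≤ G := by nlinarith
      calc G / (↑i.1 * ↑i.2) * (G / (↑i.1 * ↑i.2)) = 1 / (i.1 : ℝ) ^ 2 * (G ^ 2 / (i.2 : ℝ) ^ 2) := by
            rw [div_mul_div_comm, div_mul_div_comm]
            congr 1
            · ring
            · ring
        _ ≤ _ := by gcongr
    refine (Finset.sum_le_sum h3).trans ?_
    have h5 : ∑ i ∈ S, 1 / (i.1 : ℝ) ^ 2 * (gs 1 y (Real.log i.2) / (i.2 : ℝ) ^ 2)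
        = (∑ r ∈ IS R, 1 / (r : ℝ) ^ 2) * ∑ q ∈ Q, gs 1 y (Real.log q) / (q : ℝ) ^ 2 := by
      rw [hS, Finset.sum_product, Finset.sum_mul_sum]
    rw [h5]
    exact mul_le_mul hr2 hq1 hs1 (by positivity)
  -- off the diagonal
  have hoff : ∑ i ∈ S, ∑ j ∈ S, (if n i < n j then T i j else 0)
      ≤ C0 * Δ / (Real.log z) ^ 2 * (C2 / Real.log R) ^ 2 := by
    have e1 : ∑ i ∈ S, ∑ j ∈ S, (if n i < n j then T i j else 0)
        = ∑ r ∈ IS R, ∑ r' ∈ IS R, ∑ q ∈ Q, ∑ q' ∈ Q.filter (fun q' => r * q < r' * q'),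
          gs 1 y (Real.log q) / (r * q) * (gs 1 y (Real.log q') / (r' * q'))
            * Real.exp (-((Real.log ((r * q : ℕ) : ℝ) - Real.log ((r' * q' : ℕ) : ℝ)) ^ 2 / (4 * Δ ^ 2))) := by
      rw [hS, Finset.sum_product]
      refine Finset.sum_congr rfl fun r _ => ?_
      rw [Finset.sum_comm]
      rw [← Finset.sum_comm]
      have e2 : ∀ q ∈ Q, ∑ j ∈ IS R ×ˢ Q, (if n (r, q) < n j then T (r, q) j else 0)
          = ∑ r' ∈ IS R, ∑ q' ∈ Q.filter (fun q' => r * q < r' * q'),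
            gs 1 y (Real.log q) / (r * q) * (gs 1 y (Real.log q') / (r' * q'))
            * Real.exp (-((Real.log ((r * q : ℕ) : ℝ) - Real.log ((r' * q' : ℕ) : ℝ)) ^ 2 / (4 * Δ ^ 2))) := by
        intro q _
        rw [Finset.sum_product]
        refine Finset.sum_congr rfl fun r' _ => ?_
        rw [Finset.sum_filter]
      rw [Finset.sum_congr rfl e2, Finset.sum_comm]
    rw [e1]
    have e3 : ∀ r ∈ IS R, ∀ r' ∈ IS R, ∑ q ∈ Q, ∑ q' ∈ Q.filter (fun q' => r * q < r' * q'),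
          gs 1 y (Real.log q) / (r * q) * (gs 1 y (Real.log q') / (r' * q'))
            * Real.exp (-((Real.log ((r * q : ℕ) : ℝ) - Real.log ((r' * q' : ℕ) : ℝ)) ^ 2 / (4 * Δ ^ 2)))
        ≤ C0 * Δ / (Real.log z) ^ 2 * (1 / (r : ℝ) * (1 / (r' : ℝ))) := by
      intro r hr r' hr'
      have hb : ∀ r ∈ IS R, (r : ℝ) ≤ (z : ℝ) ^ c := by
        intro r hr
        refine le_trans ?_ hRz
        exact_mod_cast hISb r hr
      have h3 := hpt z Z r r' y Δ hz (hISp r hr) (hISp r' hr') (hb r hr) (hb r' hr') hΔ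
      refine h3.trans (le_of_eq ?_)
      have hr0 : (0 : ℝ) < r := by exact_mod_cast (hISp r hr).pos
      have hr0' : (0 : ℝ) < r' := by exact_mod_cast (hISp r' hr').pos
      field_simp
    refine (Finset.sum_le_sum fun r hr => Finset.sum_le_sum fun r' hr' => e3 r hr r' hr').trans ?_
    have e4 : ∑ r ∈ IS R, ∑ r' ∈ IS R, C0 * Δ / (Real.log z) ^ 2 * (1 / (r : ℝ) * (1 / (r' : ℝ)))
        = C0 * Δ / (Real.log z) ^ 2 * ((∑ r ∈ IS R, 1 / (r : ℝ)) * (∑ r ∈ IS R, 1 / (r : ℝ))) := by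
      rw [Finset.sum_mul_sum, Finset.mul_sum]
      refine Finset.sum_congr rfl fun r _ => ?_
      rw [Finset.mul_sum]
    rw [e4]
    have ht2 : 0 ≤ ∑ r ∈ IS R, 1 / (r : ℝ) := Finset.sum_nonneg fun r _ => by positivity
    refine mul_le_mul_of_nonneg_left ?_ (by positivity)
    rw [sq]
    exact mul_le_mul hr1 hr1 ht2 (by positivity)
  have hpi : Real.sqrt π ≤ 2 := by
    rw [Real.sqrt_le_left (by norm_num)]
    have := Real.pi_le_four
    linarith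
  have hsum : ∑ i ∈ S, ∑ j ∈ S, ‖X i‖ * ‖X j‖ * Real.exp (-((Real.log (n i) - Real.log (n j)) ^ 2 / (4 * Δ ^ 2)))
      ≤ C2 / (R * Real.log R) * (C1 * Real.exp (-y) / y) + 2 * (C0 * Δ / (Real.log z) ^ 2 * (C2 / Real.log R) ^ 2) := by
    refine hle.trans ?_
    rw [hdouble]
    linarith
  have hpos : 0 ≤ C2 / (R * Real.log R) * (C1 * Real.exp (-y) / y)
      + 2 * (C0 * Δ / (Real.log z) ^ 2 * (C2 / Real.log R) ^ 2) := by positivity
  set Sg := ∑ i ∈ S, ∑ j ∈ S, ‖X i‖ * ‖X j‖ * Real.exp (-((Real.log (n i) - Real.log (n j)) ^ 2 / (4 * Δ ^ 2)))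
    with hSg
  set E1 := Real.exp (-y) / (Δ * R * Real.log R * y) with hE1
  set E2 := 1 / ((Real.log R) ^ 2 * (Real.log z) ^ 2) with hE2
  have hE1' : 0 ≤ E1 := by positivity
  have hE2' : 0 ≤ E2 := by positivity
  calc Real.sqrt π / Δ * Sg
      ≤ Real.sqrt π / Δ * (C2 / (R * Real.log R) * (C1 * Real.exp (-y) / y)
          + 2 * (C0 * Δ / (Real.log z) ^ 2 * (C2 / Real.log R) ^ 2)) :=
        mul_le_mul_of_nonneg_left hsum (by positivity)
    _ ≤ 2 / Δ * (C2 / (R * Real.log R) * (C1 * Real.exp (-y) / y)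
          + 2 * (C0 * Δ / (Real.log z) ^ 2 * (C2 / Real.log R) ^ 2)) := by
        gcongr
    _ = 2 * (C1 * C2 * E1 + 2 * (C0 * C2 ^ 2) * E2) := by
        rw [hE1, hE2]
        field_simp
    _ ≤ 2 * ((C1 * C2 + 2 * (C0 * C2 ^ 2)) * E1 + (C1 * C2 + 2 * (C0 * C2 ^ 2)) * E2) := by
        gcongr
        · linarith
        · linarith
    _ = _ := by ring

end Pool.Agent.E3
end
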