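import Pool.Agent.Lib.MP_bae66e_nt.Mg.G111
import Pool.Agent.Lib.MP_bae66e_nt.Mg.G112
import Pool.Agent.Lib.MP_bae66e_nt.Mg.G002
import Pool.Agent.Lib.MP_bae66e_nt.Mg.G008
import Pool.Agent.Lib.MP_bae66e_nt.Mg.G032
import Pool.Agent.Lib.MP_bae66e_nt.E3.A0a

section

/-!
# K7: CORE2
-/

set_option autoImplicit false

namespace Pool.Agent.E3

open Finset MeasureTheory Real
open Pool.Agent.Lib.MP_bae66e_nt.AP3 (prI mem_prI)

private theorem K7_T3Q_min (θ : ℝ) (hT3 : T3Q θ) : T3Q (min θ 1) := by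
  intro W hW δ hδ
  obtain ⟨T₀, hT₀, X₀, h⟩ := hT3 W hW δ hδ
  refine ⟨T₀, hT₀, max X₀ 1, fun X hX χ Y hY1 hY2 T hT1 hT2 hT3' => ?_⟩
  refine h X (le_trans (le_max_left _ _) hX) χ Y hY1 hY2 T hT1 hT2 (hT3'.trans ?_)
  have hX1 : (1 : ℝ) ≤ (X : ℝ) := by exact_mod_cast le_trans (le_max_right _ _) hX
  exact Real.rpow_le_rpow_of_exponent_le hX1 (min_le_left _ _)

private theorem K7_union {F : ℝ → ℝ} (hF : Integrable F) (h0 : ∀ t, 0 ≤ F t) {S A B C D : Set ℝ}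
    (hS : S ⊆ A ∪ B ∪ C ∪ D) : ∫ t in S, F t ≤
      (∫ t in A, F t) + (∫ t in B, F t) + (∫ t in C, F t) + ∫ t in D, F t := by
  have h1 : (volume.restrict S : Measure ℝ) ≤ volume.restrict A + volume.restrict B +
      volume.restrict C + volume.restrict D := by
    refine (Measure.restrict_mono_set volume hS).trans ?_
    refine (Measure.restrict_union_le _ _).trans (add_le_add_left ?_ _)
    refine (Measure.restrict_union_le _ _).trans (add_le_add_left ?_ _)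
    exact Measure.restrict_union_le _ _
  have hA : Integrable F (volume.restrict A) := hF.integrableOn
  have hB : Integrable F (volume.restrict B) := hF.integrableOn
  have hC : Integrable F (volume.restrict C) := hF.integrableOn
  have hD : Integrable F (volume.restrict D) := hF.integrableOn
  refine (integral_mono_measure h1 (Filter.Eventually.of_forall h0)
    (((hA.add_measure hB).add_measure hC).add_measure hD)).trans (le_of_eq ?_)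
  rw [integral_add_measure ((hA.add_measure hB).add_measure hC) hD,
    integral_add_measure (hA.add_measure hB) hC, integral_add_measure hA hB]

/-- PROOF. `T3Q` for `θ` implies it for every smaller `θ'` (`X^θ' ≤ X^θ`), so we may suppose `θ ≤ 1`: replace `θ` by `min θ 1`. Let
`α₂ = θ/8`, `α₁ = θ/16`, `a = 32/θ + 3`, `c = a + 1`: then `2α₂ + 2/a ≤ θ/4 + θ/16 ≤ θ`, `a (α₂ - α₁) ≥ 2`. The set `{T₀ ≤ |t|}` is contained in
the union of the sets of `core2_T1 (α = α₁)`, `core2_T2`, `core2_T3` (`T₀` from there) and `core2_T4`, each with `δ/4`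
(`setIntegral_mono_set`, the integral over a union is at most the sum of the integrals; all integrands are nonnegative and integrable by
`gauss_integrable_of_bounded`). The hypotheses of `CORE2` are the fields of `CH2`, and the bound is `δ TG2`. -/
theorem core2_of (θ : ℝ) (hθ : 0 < θ) (hT3 : T3Q θ) (hN : NLV) (hMV1 : MV1) :
    ∃ a c : ℝ, 3 ≤ a ∧ 2 ≤ c ∧ CORE2 a c := by
  obtain ⟨θ', hθ', hθ'1, hT3'⟩ : ∃ θ' : ℝ, 0 < θ' ∧ θ' ≤ 1 ∧ T3Q θ' :=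
    ⟨min θ 1, lt_min hθ one_pos, min_le_right _ _, K7_T3Q_min θ hT3⟩
  have h32 : 0 < 32 / θ' := by positivity
  have ha : (3 : ℝ) ≤ 32 / θ' + 3 := by linarith
  refine ⟨32 / θ' + 3, 32 / θ' + 3 + 1, ha, by linarith, ?_⟩
  set a : ℝ := 32 / θ' + 3 with hadef
  set c : ℝ := a + 1 with hcdef
  have hc1 : a + 1 ≤ c := le_of_eq hcdef.symm
  have hc2 : 2 ≤ c := by linarith
  have hα₁ : 0 < θ' / 16 := by positivity
  have hα₂ : θ' / 16 < θ' / 8 := by linarith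
  have hα₂0 : 0 < θ' / 8 := by positivity
  have hα₂1 : θ' / 8 ≤ 1 := by linarith
  have haα : 2 ≤ a * (θ' / 8 - θ' / 16) := by
    have h1 : a * (θ' / 8 - θ' / 16) = 2 + 3 * θ' / 16 := by
      rw [hadef]
      field_simp
      ring
    rw [h1]
    linarith
  have h2a : 2 * (θ' / 8) + 2 / a ≤ θ' := by
    have h1 : 2 / a ≤ 2 / (32 / θ') := by
      apply div_le_div_of_nonneg_left (by norm_num) h32
      linarith
    have h2 : 2 / (32 / θ') = θ' / 16 := by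
      field_simp
      norm_num
    linarith
  intro W hW δ hδ
  have hδ4 : 0 < δ / 4 := by positivity
  obtain ⟨X₁, hX₁⟩ := core2_T1 hMV1 a c (θ' / 16) (δ / 4) ha hc2 hα₁ hδ4
  obtain ⟨X₂, hX₂⟩ := core2_T2 a c (θ' / 16) (θ' / 8) (δ / 4) ha hc1 hα₁ hα₂ haα hδ4
  obtain ⟨T₀, hT₀, X₃, hX₃⟩ := core2_T3 θ' hT3' hN a c (θ' / 8) (δ / 4) ha hc2 hα₂0 hα₂1 h2a
    hδ4 W hW
  obtain ⟨X₄, hX₄⟩ := core2_T4 a c (δ / 4) ha hc2 hδ4
  obtain ⟨X₅, hX₅⟩ := CH2_large a c ha hc2 2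
  obtain ⟨C₁, hC₁, hR⟩ := PR_norm_le
  obtain ⟨C₂, hC₂, hQ⟩ := PQ_norm_le
  refine ⟨T₀, hT₀, max (max (max X₁ X₂) (max X₃ X₄)) (max X₅ 8), ?_⟩
  intro X hX χ₁ χ₂ χ₃ R ℓ h1 h2 h3 h3' Y Δ h4 h5 h6 h7 h8 h9
  have hXX₁ : X₁ ≤ X := by
    have := hX
    simp only [max_le_iff] at this
    exact this.1.1.1
  have hXX₂ : X₂ ≤ X := by
    have := hX
    simp only [max_le_iff] at this
    exact this.1.1.2
  have hXX₃ : X₃ ≤ X := by
    have := hX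
    simp only [max_le_iff] at this
    exact this.1.2.1
  have hXX₄ : X₄ ≤ X := by
    have := hX
    simp only [max_le_iff] at this
    exact this.1.2.2
  have hXX₅ : X₅ ≤ X := by
    have := hX
    simp only [max_le_iff] at this
    exact this.2.1
  have hX8 : 8 ≤ X := by
    have := hX
    simp only [max_le_iff] at this
    exact this.2.2
  have hCH : CH2 a c X R ℓ Y Δ := ⟨h1, h2, h3, h3', h4, h5, h6, h7, h8, h9⟩
  have hR2 : 2 ≤ R := by exact_mod_cast (hX₅ X hXX₅ R ℓ Y Δ hCH).1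
  have hRe2 : 2 ≤ R ^ ℓ := by
    have hell : ℓ ≠ 0 := by
      have := (hX₅ X hXX₅ R ℓ Y Δ hCH).2.2
      omega
    exact hR2.trans (Nat.le_self_pow hell R)
  have hint : Integrable (fun t : ℝ => Real.exp (-(Δ * t) ^ 2) *
      ‖PR χ₁ R t * PR χ₂ (R ^ ℓ) t * PQ χ₃ X Y t‖ ^ 2) := by
    refine gauss_integrable_of_bounded Δ
      ((C₁ / Real.log R * (C₁ / Real.log ((R ^ ℓ : ℕ) : ℝ)) * (C₂ / Real.log X)) ^ 2) h6
      (fun t => ‖PR χ₁ R t * PR χ₂ (R ^ ℓ) t * PQ χ₃ X Y t‖ ^ 2) ?_ ?_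
    · exact ((((PR_continuous χ₁ R).mul (PR_continuous χ₂ _)).mul (PQ_continuous χ₃ X Y)).norm).pow 2
    · intro t
      rw [abs_of_nonneg (by positivity)]
      refine pow_le_pow_left₀ (norm_nonneg _) ?_ 2
      rw [norm_mul, norm_mul]
      have e1 := hR W χ₁ R t hR2
      have e2 := hR W χ₂ (R ^ ℓ) t hRe2
      have e3 := hQ W χ₃ X Y t hX8 h4 h5
      have n1 := norm_nonneg (PR χ₁ R t)
      have n2 := norm_nonneg (PR χ₂ (R ^ ℓ) t)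
      have n3 := norm_nonneg (PQ χ₃ X Y t)
      exact mul_le_mul (mul_le_mul e1 e2 n2 (n1.trans e1)) e3 n3
        (mul_nonneg (n1.trans e1) (n2.trans e2))
  have hnn : ∀ t : ℝ, 0 ≤ Real.exp (-(Δ * t) ^ 2) *
      ‖PR χ₁ R t * PR χ₂ (R ^ ℓ) t * PQ χ₃ X Y t‖ ^ 2 := fun t => by positivity
  have hcov : {t : ℝ | T₀ ≤ |t|} ⊆ {t : ℝ | ‖PR χ₁ R t‖ ≤ (R : ℝ) ^ (-(θ' / 16))} ∪
      {t : ℝ | (R : ℝ) ^ (-(θ' / 16)) < ‖PR χ₁ R t‖ ∧
        ‖PR χ₂ (R ^ ℓ) t‖ ≤ ((R ^ ℓ : ℕ) : ℝ) ^ (-(θ' / 8))} ∪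
      {t : ℝ | T₀ ≤ |t| ∧ |t| ≤ X ∧ ((R ^ ℓ : ℕ) : ℝ) ^ (-(θ' / 8)) ≤
        ‖PR χ₂ (R ^ ℓ) t‖} ∪ {t : ℝ | (X : ℝ) < |t|} := by
    intro t ht
    by_cases hc4 : (X : ℝ) < |t|
    · exact Or.inr hc4
    · left
      by_cases hc1 : ‖PR χ₁ R t‖ ≤ (R : ℝ) ^ (-(θ' / 16))
      · exact Or.inl (Or.inl hc1)
      · by_cases hc2 : ‖PR χ₂ (R ^ ℓ) t‖ ≤ ((R ^ ℓ : ℕ) : ℝ) ^ (-(θ' / 8))
        · exact Or.inl (Or.inr ⟨not_le.1 hc1, hc2⟩)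
        · exact Or.inr ⟨ht, not_lt.1 hc4, le_of_lt (not_le.1 hc2)⟩
  have hmain := K7_union hint hnn hcov
  have b1 := hX₁ X hXX₁ W χ₁ χ₂ χ₃ R ℓ Y Δ hCH
  have b2 := hX₂ X hXX₂ W χ₁ χ₂ χ₃ R ℓ Y Δ hCH
  have b3 := hX₃ X hXX₃ χ₁ χ₂ χ₃ R ℓ Y Δ hCH
  have b4 := hX₄ X hXX₄ W χ₁ χ₂ χ₃ R ℓ Y Δ hCH
  refine hmain.trans ?_
  change _ ≤ δ * TG2 X R ℓ
  linarith

end Pool.Agent.E3
end

section

/-!
# MVc2: the mean value of `R Q`
-/

set_option autoImplicit false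

namespace Pool.Agent.E3

open Finset MeasureTheory Real Filter
open Pool.Agent.Lib.MP_bae66e_nt.AP3 (prI mem_prI)

/-- PROOF. `mv_RQ` (constants `c, C₁, z₀`) with `z = Nat.sqrt X`, `Z = X^2`, `y = log Y`, `f = ch χ`, `g = ch χ'`:
`PR χ R t = DP (ch χ) (IS R) t` and `PQ χ' X Y t = WIN (ch χ') 1 (prI z Z) t (log Y)` by definition. For large `X`
(depending on `B`): `z ≥ z₀`, `2 R ≤ 2 (log X)^B ≤ X^(c/4) = (X^(1/4))^c ≤ z^c` (`log_pow_small`, `log_sqrt_ge`), `y ≥ (log X)/2 ≥ 2`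
(`logY_bounds`). Then `exp (-y)/(Δ R log R y) ≤ 2/(Δ R Y log R log X)`, and `1/(log z)² ≤ 16/(log X)²`. So `C = 16 C₁`, which
depends on nothing. -/
theorem mv1 (hSL : SLP) (hF : SLF) : MV1 := by
  obtain ⟨c, C₁, hc, hc1, hC1, z₀, hz4, hmv⟩ := mv_RQ hSL hF
  refine ⟨16 * C₁, by linarith, fun B => ?_⟩
  obtain ⟨X₁, hX₁⟩ := log_pow_small B (c / 4) (by positivity)
  refine ⟨max (max X₁ 16) (max ((z₀ + 1) ^ 2) 55), fun X hX W χ χ' R hR hRX Y Δ hY1 hY2 hΔ hΔ2 => ?_⟩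
  have hXX₁ : X₁ ≤ X := le_trans (le_trans (le_max_left _ _) (le_max_left _ _)) hX
  have hX16 : 16 ≤ X := le_trans (le_trans (le_max_right _ _) (le_max_left _ _)) hX
  have hXz : (z₀ + 1) ^ 2 ≤ X := le_trans (le_trans (le_max_left _ _) (le_max_right _ _)) hX
  have hX55 : 55 ≤ X := le_trans (le_trans (le_max_right _ _) (le_max_right _ _)) hX
  have hX0 : (0 : ℝ) < X := by exact_mod_cast (by omega : 0 < X)
  obtain ⟨hY0, hyl, hyu, hexp⟩ := logY_bounds X Y (by omega) hY1 hY2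
  obtain ⟨hs1, hs2⟩ := log_sqrt_ge X hX16
  have hlogX : (4 : ℝ) ≤ Real.log X := by
    rw [Real.le_log_iff_exp_le hX0]
    have h1 : Real.exp 4 = Real.exp 1 ^ 4 := by rw [← Real.exp_nat_mul]; norm_num
    have h2 : Real.exp 1 < 2.7182818286 := Real.exp_one_lt_d9
    have h3 : Real.exp 1 ^ 4 ≤ 2.7182818286 ^ 4 := by
      gcongr
    have h4 : (2.7182818286 : ℝ) ^ 4 ≤ 55 := by norm_num
    have h5 : (55 : ℝ) ≤ X := by exact_mod_cast hX55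
    linarith
  have hz : z₀ ≤ Nat.sqrt X := by
    rw [Nat.le_sqrt]
    nlinarith
  have hR2 : (2 * R : ℝ) ≤ ((Nat.sqrt X : ℕ) : ℝ) ^ c := by
    calc (2 * R : ℝ) ≤ 2 * (Real.log X) ^ B := by linarith
      _ ≤ (X : ℝ) ^ (c / 4) := hX₁ X hXX₁
      _ = ((X : ℝ) ^ (1 / 4 : ℝ)) ^ c := by
          rw [← Real.rpow_mul hX0.le]
          congr 1
          ring
      _ ≤ ((Nat.sqrt X : ℕ) : ℝ) ^ c := Real.rpow_le_rpow (by positivity) hs1 hc.le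
  have hy2 : 2 ≤ Real.log Y := by linarith
  have h := hmv (Nat.sqrt X) (X ^ 2) R (Real.log Y) Δ (ch χ) (ch χ') hz hR hR2 hy2 hΔ
    (ch_norm_le χ) (ch_norm_le χ')
  have e1 : (∫ t : ℝ, Real.exp (-(Δ * t) ^ 2) * ‖PR χ R t * PQ χ' X Y t‖ ^ 2) =
      ∫ t : ℝ, Real.exp (-(Δ * t) ^ 2) *
        ‖DP (ch χ) (IS R) t * WIN (ch χ') 1 (prI (Nat.sqrt X) (X ^ 2)) t (Real.log Y)‖ ^ 2 := rfl
  rw [e1]
  refine h.trans ?_
  have hR1 : (2 : ℝ) ≤ R := by exact_mod_cast hR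
  have hlR : 0 < Real.log R := Real.log_pos (by linarith)
  have hlX : 0 < Real.log X := by linarith
  have hlz : 0 < Real.log (Nat.sqrt X : ℕ) := by linarith
  have hR0 : (0 : ℝ) < R := by linarith
  have k1 : Real.exp (-Real.log Y) / (Δ * R * Real.log R * Real.log Y) ≤
      16 * (1 / (Δ * R * Y * Real.log X * Real.log R)) := by
    rw [hexp, div_div, mul_one_div, div_le_div_iff₀ (by positivity) (by positivity)]
    have : Real.log X ≤ 2 * Real.log Y := by linarith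
    have h3 : 0 ≤ Δ * R * Y * Real.log R := by positivity
    nlinarith [mul_le_mul_of_nonneg_left this h3, mul_nonneg h3 hlX.le,
      mul_nonneg h3 (by linarith : (0:ℝ) ≤ Real.log Y)]
  have k2 : 1 / ((Real.log R) ^ 2 * (Real.log (Nat.sqrt X : ℕ)) ^ 2) ≤
      16 * (1 / ((Real.log X) ^ 2 * (Real.log R) ^ 2)) := by
    rw [mul_one_div, div_le_div_iff₀ (by positivity) (by positivity)]
    have h4 : (Real.log X) ^ 2 ≤ 16 * (Real.log (Nat.sqrt X : ℕ)) ^ 2 := by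
      have : Real.log X ≤ 4 * Real.log (Nat.sqrt X : ℕ) := by linarith
      nlinarith
    nlinarith [mul_le_mul_of_nonneg_left h4 (sq_nonneg (Real.log R))]
  calc C₁ * (Real.exp (-Real.log Y) / (Δ * R * Real.log R * Real.log Y) +
        1 / ((Real.log R) ^ 2 * (Real.log (Nat.sqrt X : ℕ)) ^ 2))
      ≤ C₁ * (16 * (1 / (Δ * R * Y * Real.log X * Real.log R)) +
        16 * (1 / ((Real.log X) ^ 2 * (Real.log R) ^ 2))) := by
        gcongr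
    _ = 16 * C₁ * (1 / (Δ * R * Y * Real.log X * Real.log R) +
        1 / ((Real.log X) ^ 2 * (Real.log R) ^ 2)) := by ring

end Pool.Agent.E3
end

section

/-!
# The Hardy-Littlewood formula for almost all `m = p + r₁ r₂ q` with `p ≤ log m (log log m)^C`: definitions

`m ∈ [X, 2X]`, `r₁ ∈ (R, 2R]`, `r₂ ∈ (R^ℓ, 2 R^ℓ]`, `p ≤ H`; `R` is about `(log log X)^c`, `R^ℓ` between
`(log X)^a` and `(log X)^(a+1)`, `H` between `log X (log log X)^(c+4)` and `(log X)^a`. Everything is uniform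
in `R`, `ℓ`, `H`. `s = r₁ r₂`, `Y = X e^τ / (R R^ℓ)` is the size of the primes `q`.
-/

set_option autoImplicit false

namespace Pool.Agent.Lib.MP_bae66e_nt.TF

open Finset MeasureTheory Real
open Pool.Agent.E3
open Pool.Agent.Lib.MP_bae66e_nt.LL (fP gW)
open Pool.Agent.Lib.MP_bae66e_nt.AC (Sg VV)

/-- the range of the parameters -/
structure PT (a c : ℝ) (R ℓ H X : ℕ) : Prop where
  lo1 : (ll X) ^ c / 4 ≤ R
  up1 : (R : ℝ) ≤ (ll X) ^ c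
  lo2 : (Real.log X) ^ a ≤ (R : ℝ) ^ ℓ
  up2 : (R : ℝ) ^ ℓ ≤ (Real.log X) ^ (a + 1)
  loH : Real.log X * (ll X) ^ (c + 4) ≤ H
  upH : (H : ℝ) ≤ (Real.log X) ^ a

/-- the conditions on `R₁, R₂, Y` -/
structure PY (R₁ R₂ X : ℕ) (Y : ℝ) : Prop where
  X16 : 16 ≤ X
  R1 : 2 ≤ R₁
  R2 : 2 * R₁ ≤ R₂
  Ylow : (X : ℝ) ^ (0.99 : ℝ) ≤ Y
  Yup : Y ≤ X

/-- `Y = X e^τ / (R R^ℓ)` -/
noncomputable def YT (R ℓ X : ℕ) (τ : ℝ) : ℝ := YG R (R ^ ℓ) X * Real.exp τ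

/-- the expected size `1 / (log R log R^ℓ log X)` -/
noncomputable def FT (R ℓ X : ℕ) : ℝ := FG R (R ^ ℓ) X

/-- the weighted number of the representations `n = r₁ r₂ q` -/
noncomputable def fT (R ℓ X : ℕ) (τ : ℝ) (n : ℕ) : ℝ := fS (SS R (R ^ ℓ)) (YT R ℓ X τ) X n

/-- the properties of the parameters for large `X` -/
structure QT (K κ : ℝ) (R ℓ H X : ℕ) : Prop where
  X64 : 64 ≤ X
  R3 : 3 ≤ R
  KR : K ≤ R
  KH : K ≤ H
  KX : K ≤ Nat.sqrt X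
  R2 : 2 * R ≤ R ^ ℓ
  R2X : 2 * R ^ ℓ ≤ Nat.sqrt X
  HR2 : H ≤ R ^ ℓ
  H2 : 2 ≤ H
  XH : 100 * H ≤ X
  KH2 : K * (H : ℝ) ^ 2 ≤ X
  logHR : Real.log H * Real.log R ≤ R
  sX : ((4 * (R * R ^ ℓ) : ℕ) : ℝ) ≤ (Nat.sqrt X : ℝ) ^ κ
  sX2 : ((4 * (R * R ^ ℓ) : ℕ) : ℝ) * (Nat.sqrt X + 1) + H ≤ X
  ls : Real.log ((4 * (R * R ^ ℓ) : ℕ) : ℝ) ≤ κ * Real.log X
  diag : K * (1 + (Real.log H) ^ 2) ≤ H * FT R ℓ X
  core : K * (Real.log X * (ll X) ^ 3) ≤ H / R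
  KL : K * Real.log X ≤ H
  Y : ∀ τ : ℝ, |τ| ≤ K → (X : ℝ) ^ (0.99 : ℝ) ≤ YT R ℓ X τ ∧ YT R ℓ X τ ≤ X
  F0 : 0 < FT R ℓ X
  lX : 1 ≤ Real.log X
  lR : 1 ≤ Real.log R
  lR2 : 1 ≤ Real.log ((R ^ ℓ : ℕ) : ℝ)
  lK : K ≤ Real.log X

/-- the Dirichlet polynomial of the products `r₁ r₂ q` -/
noncomputable def PP3 {W : ℕ} (χ : DirichletCharacter ℂ W) (R₁ R₂ X : ℕ) (Y t : ℝ) : ℂ :=
  PR χ R₁ t * PR χ R₂ t * PQ χ X Y t

/-- the window of width `d` of the products `s q`, twisted by `χ` -/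
noncomputable def XX3 {W : ℕ} (χ : DirichletCharacter ℂ W) (R₁ R₂ X : ℕ) (Y d x : ℝ) : ℂ :=
  ∑ s ∈ SS R₁ R₂, ∑ q ∈ QS X,
    ch χ (s * q) * ((om Y q / (s * q) * gsn d (x - Real.log (s * q)) : ℝ) : ℂ)

/-- the window of width `d` of the products `s q ≡ v` modulo `W` -/
noncomputable def XV3 (W v R₁ R₂ X : ℕ) (Y d x : ℝ) : ℝ :=
  ∑ s ∈ SS R₁ R₂, ∑ q ∈ (QS X).filter (fun q => s * q ≡ v [MOD W]),
    om Y q / (s * q) * gsn d (x - Real.log (s * q))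

/-- the limit of the windows at `x`, up to the factor `√(2π)/(φ(W) log X)` -/
noncomputable def A3 (R₁ R₂ : ℕ) (Y x : ℝ) : ℝ :=
  ∑ s ∈ SS R₁ R₂, 1 / (s : ℝ) * Real.exp (-(x - Real.log s - Real.log Y) ^ 2)

/-- the asymptotic formula for long windows -/
def LONGT (a c : ℝ) : Prop := ∀ W : ℕ, 1 ≤ W → ∀ K ε : ℝ, 0 < K → 0 < ε → ∃ L₀ : ℝ, 0 < L₀ ∧
  ∀ L : ℝ, 0 < L → L ≤ L₀ → ∃ X₀ : ℕ, ∀ X : ℕ, X₀ ≤ X → ∀ R ℓ H : ℕ, PT a c R ℓ H X →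
  ∀ τ : ℝ, |τ| ≤ K → ∀ v : ℕ, Nat.Coprime v W → ∀ x : ℝ, |x - Real.log X| ≤ 1 →
    |XV3 W v R (R ^ ℓ) X (YT R ℓ X τ) L x
      - Real.sqrt (2 * π) / (Nat.totient W * Real.log X) * A3 R (R ^ ℓ) (YT R ℓ X τ) x|
      ≤ ε * FT R ℓ X / Nat.totient W

/-- the asymptotic formula in almost all short intervals -/
def WINT (a c : ℝ) : Prop := ∀ W : ℕ, 1 ≤ W → ∀ K ε δ : ℝ, 0 < K → 0 < ε → 0 < δ →
  ∃ X₀ : ℕ, ∀ X : ℕ, X₀ ≤ X → ∀ R ℓ H : ℕ, PT a c R ℓ H X → ∀ τ : ℝ, |τ| ≤ K →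
  ∀ v : ℕ, Nat.Coprime v W →
    (#{m ∈ Icc X (2 * X) | ε * (H * FT R ℓ X) / Nat.totient W <
      |∑ n ∈ (Ico (m - H) m).filter (fun n => n ≡ v [MOD W]), fT R ℓ X τ n
        - H / (Nat.totient W * Real.log X) * A3 R (R ^ ℓ) (YT R ℓ X τ) (Real.log m)|} : ℝ) ≤ δ * X

/-- the variance of the primes against the W-model, weighted by `fT` -/
def VART (a c : ℝ) : Prop := ∀ K η : ℝ, 0 < K → 0 < η → ∃ w₀ : ℕ, ∀ w : ℕ, w₀ ≤ w → ∃ X₀ : ℕ,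
  ∀ X : ℕ, X₀ ≤ X → ∀ R ℓ H : ℕ, PT a c R ℓ H X → ∀ τ : ℝ, |τ| ≤ K →
    ∑ m ∈ Icc X (2 * X), (∑ t ∈ Icc 1 H,
        (fP H (t : ℤ) - gW (primorial w) H (t : ℤ)) * fT R ℓ X τ (m - t)) ^ 2
      ≤ η * X * (H * FT R ℓ X) ^ 2

/-- the asymptotic formula for the first moment -/
def FIRT (a c : ℝ) : Prop := ∀ K ε δ : ℝ, 0 < K → 0 < ε → 0 < δ → ∃ w₀ : ℕ, ∀ w : ℕ, w₀ ≤ w → ∃ X₀ : ℕ,
  ∀ X : ℕ, X₀ ≤ X → ∀ R ℓ H : ℕ, PT a c R ℓ H X → ∀ τ : ℝ, |τ| ≤ K →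
    (#{m ∈ Icc X (2 * X) | Even m ∧ ε * (Sg (primorial w) m * (H * FT R ℓ X)) <
      |∑ t ∈ Icc 1 H, fP H (t : ℤ) * fT R ℓ X τ (m - t)
        - Sg (primorial w) m * (H / Real.log X * A3 R (R ^ ℓ) (YT R ℓ X τ) (Real.log m))|} : ℝ) ≤ δ * X

/-- the number of the representations `m = t + r₁ r₂ q`, `t ≤ H` -/
noncomputable def cntT (R ℓ H m : ℕ) : ℝ :=
  ∑ s ∈ SS R (R ^ ℓ), (#{t ∈ Icc 1 H | t.Prime ∧ s ∣ m - t ∧ ((m - t) / s).Prime} : ℝ)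

/-- `∑ 1 / (r₁ r₂)` -/
noncomputable def BT (R ℓ : ℕ) : ℝ := ∑ s ∈ SS R (R ^ ℓ), 1 / (s : ℝ)

/-- the asymptotic formula for the number of representations -/
def COUNTT (a c : ℝ) : Prop := ∀ ε δ : ℝ, 0 < ε → 0 < δ → ∃ w₀ : ℕ, ∀ w : ℕ, w₀ ≤ w → ∃ X₀ : ℕ,
  ∀ X : ℕ, X₀ ≤ X → ∀ R ℓ H : ℕ, PT a c R ℓ H X →
    (#{m ∈ Icc X (2 * X) | Even m ∧
      ε * (Sg (primorial w) m * (H / (Real.log H * Real.log X)) * BT R ℓ) <
        |cntT R ℓ H m - Sg (primorial w) m * (H / (Real.log H * Real.log X)) * BT R ℓ|} : ℝ) ≤ δ * X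

/-- the Hardy-Littlewood formula for almost all even `m ≤ N` -/
def FINT (a c : ℝ) : Prop := ∀ ε δ : ℝ, 0 < ε → 0 < δ → ∃ N₀ : ℕ, ∀ N : ℕ, N₀ ≤ N → ∀ R ℓ H : ℕ,
  (ll N) ^ c / 4 ≤ R → (R : ℝ) ≤ (ll N) ^ c / 2 →
  (Real.log N) ^ a ≤ (R : ℝ) ^ ℓ → (R : ℝ) ^ ℓ ≤ (Real.log N) ^ (a + 1) / 2 →
  Real.log N * (ll N) ^ (c + 4) ≤ H → (H : ℝ) ≤ (Real.log N) ^ a / 2 →
    (#{m ∈ Icc 1 N | Even m ∧
      ε * (Pool.Agent.MG.sing m * (Nat.primeCounting H / Real.log m) * BT R ℓ) <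
        |cntT R ℓ H m - Pool.Agent.MG.sing m * (Nat.primeCounting H / Real.log m) * BT R ℓ|} : ℝ) ≤ δ * N

end Pool.Agent.Lib.MP_bae66e_nt.TF
end

section

/-!
# Row Pa: the parameters, first part
-/

set_option autoImplicit false

namespace Pool.Agent.Lib.MP_bae66e_nt.TF

open Finset MeasureTheory Real
open Pool.Agent.E3
open Pool.Agent.Lib.MP_bae66e_nt.LL (fP gW)
open Pool.Agent.Lib.MP_bae66e_nt.AC (Sg VV)
open Pool.Agent.Lib.MP_bae66e_nt.AP3 (prI mem_prI)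

/-- PROOF. With `lam = ll X = log log X`, `L = log X = exp lam`: `R ≥ lam^c/4`, `H ≥ L lam^(c+4)`, `R^ℓ ≥ L^a ≥ H` (`upH`, `lo2`),
`R^ℓ ≥ L^3 ≥ 2 lam^c ≥ 2 R` for large `X`; `log R^ℓ ≥ a lam`. (Template: E3/A0b, E3/K0, EF/A.) -/
theorem parT1 (a c K : ℝ) (ha : 3 ≤ a) (hc : 2 ≤ c) : ∃ X₀ : ℕ, ∀ X : ℕ, X₀ ≤ X → ∀ R ℓ H : ℕ, PT a c R ℓ H X →
    64 ≤ X ∧ 3 ≤ R ∧ K ≤ R ∧ K ≤ H ∧ K ≤ Nat.sqrt X ∧ 2 * R ≤ R ^ ℓ ∧ H ≤ R ^ ℓ ∧ 2 ≤ H ∧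
      1 ≤ Real.log X ∧ 1 ≤ Real.log R ∧ 1 ≤ Real.log ((R ^ ℓ : ℕ) : ℝ) ∧ 0 < FT R ℓ X ∧ K ≤ Real.log X := by
  obtain ⟨X₁, h1⟩ := ll_large (max K 4)
  obtain ⟨X₂, h2⟩ := pow_compare 0 c 2 3 (by norm_num)
  refine ⟨max (max X₁ X₂) (max 64 (⌈K⌉₊ ^ 2)), fun X hX R ℓ H hP => ?_⟩
  have hX1 : X₁ ≤ X := (le_max_left _ _).trans ((le_max_left _ _).trans hX)
  have hX2 : X₂ ≤ X := (le_max_right _ _).trans ((le_max_left _ _).trans hX)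
  have hX64 : 64 ≤ X := (le_max_left _ _).trans ((le_max_right _ _).trans hX)
  have hXK : ⌈K⌉₊ ^ 2 ≤ X := (le_max_right _ _).trans ((le_max_right _ _).trans hX)
  obtain ⟨g1, g2, -⟩ := h1 X hX1
  have q := (h2 X hX2).1
  rw [Real.rpow_zero, one_mul, zero_add] at q
  obtain ⟨lo1, up1, lo2, up2, loH, upH⟩ := hP
  set lam := ll X with hlam
  set L := Real.log X with hL
  have hl4 : 4 ≤ lam := (le_max_right _ _).trans g1
  have hlK : K ≤ lam := (le_max_left _ _).trans g1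
  have hL4 : 4 ≤ L := (le_max_right _ _).trans g2
  have hLK : K ≤ L := (le_max_left _ _).trans g2
  have hL1 : 1 ≤ L := by linarith
  have hL0 : 0 < L := by linarith
  -- `R`
  have hlc : lam ^ 2 ≤ lam ^ c := by
    rw [← Real.rpow_natCast]
    exact Real.rpow_le_rpow_of_exponent_le (by linarith) (by push_cast; linarith)
  have hRl : lam ≤ R := by
    have e1 : 4 * lam ≤ lam ^ 2 := by nlinarith
    linarith
  have hR4 : (4 : ℝ) ≤ R := by linarith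
  have hR0 : (0 : ℝ) < R := by linarith
  have hR3 : 3 ≤ R := by
    have e1 : (3 : ℝ) ≤ (R : ℝ) := by linarith
    exact_mod_cast e1
  -- `R ^ ℓ`
  have hRl' : ((R ^ ℓ : ℕ) : ℝ) = (R : ℝ) ^ ℓ := by push_cast; rfl
  have hLa : L ^ (3 : ℝ) ≤ L ^ a := Real.rpow_le_rpow_of_exponent_le hL1 ha
  have h2R : 2 * (R : ℝ) ≤ (R : ℝ) ^ ℓ := by linarith
  have h2Rn : 2 * R ≤ R ^ ℓ := by
    have e1 : ((2 * R : ℕ) : ℝ) ≤ ((R ^ ℓ : ℕ) : ℝ) := by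
      rw [hRl']; push_cast; exact h2R
    exact_mod_cast e1
  have hHRn : H ≤ R ^ ℓ := by
    have e1 : ((H : ℕ) : ℝ) ≤ ((R ^ ℓ : ℕ) : ℝ) := by
      rw [hRl']; exact upH.trans lo2
    exact_mod_cast e1
  -- `H`
  have hHL : L ≤ H := by
    have e1 : 1 ≤ lam ^ (c + 4) := Real.one_le_rpow (by linarith) (by linarith)
    have e2 : L * 1 ≤ L * lam ^ (c + 4) := mul_le_mul_of_nonneg_left e1 hL0.le
    linarith
  have hH2 : 2 ≤ H := by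
    have e1 : (2 : ℝ) ≤ (H : ℝ) := by linarith
    exact_mod_cast e1
  have hKs : K ≤ Nat.sqrt X := by
    have e1 : ⌈K⌉₊ ≤ Nat.sqrt X := Nat.le_sqrt'.2 hXK
    exact (Nat.le_ceil K).trans (by exact_mod_cast e1)
  have hlR : 1 ≤ Real.log R := by
    rw [Real.le_log_iff_exp_le hR0]
    have := Real.exp_one_lt_d9
    linarith
  have hlRl : 1 ≤ Real.log ((R ^ ℓ : ℕ) : ℝ) := by
    rw [hRl', Real.le_log_iff_exp_le (by positivity)]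
    have := Real.exp_one_lt_d9
    linarith
  refine ⟨hX64, hR3, hlK.trans hRl, hLK.trans hHL, hKs, h2Rn, hHRn, hH2, hL1, hlR, hlRl, ?_, hLK⟩
  unfold FT FG
  rw [← hL]
  have e1 : 0 < Real.log R := by linarith
  have e2 : 0 < Real.log ((R ^ ℓ : ℕ) : ℝ) := by linarith
  positivity

end Pool.Agent.Lib.MP_bae66e_nt.TF
end

section

/-!
# Row Pb: the parameters, second part
-/

set_option autoImplicit false

namespace Pool.Agent.Lib.MP_bae66e_nt.TF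

open Finset MeasureTheory Real
open Pool.Agent.E3
open Pool.Agent.Lib.MP_bae66e_nt.LL (fP gW)
open Pool.Agent.Lib.MP_bae66e_nt.AC (Sg VV)
open Pool.Agent.Lib.MP_bae66e_nt.AP3 (prI mem_prI)

/-- `X^(1/4) ≤ ⌊√X⌋`. -/
private theorem Pb_quart (X : ℕ) (hX : 16 ≤ X) : (X : ℝ) ^ (1 / 4 : ℝ) ≤ Nat.sqrt X := by
  have hX0 : (0 : ℝ) < X := by exact_mod_cast (by omega : 0 < X)
  set y : ℝ := (X : ℝ) ^ (1 / 4 : ℝ) with hy
  have hy0 : 0 ≤ y := Real.rpow_nonneg hX0.le _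
  have hy4 : y ^ 4 = X := by
    rw [hy, ← Real.rpow_natCast, ← Real.rpow_mul hX0.le]
    norm_num
  have hX16 : (16 : ℝ) ≤ X := by exact_mod_cast hX
  have hy2 : 2 ≤ y := by
    by_contra hcon
    push Not at hcon
    have : y ^ 4 < 2 ^ 4 := pow_lt_pow_left₀ hcon hy0 (by norm_num)
    rw [hy4] at this
    linarith
  have h1 : (X : ℝ) < ((Nat.sqrt X : ℝ) + 1) ^ 2 := by
    have h2 := Nat.lt_succ_sqrt' X
    exact_mod_cast h2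
  have h3 : y ^ 2 < (Nat.sqrt X : ℝ) + 1 := by
    by_contra hcon
    push Not at hcon
    have h4 : (0 : ℝ) ≤ (Nat.sqrt X : ℝ) + 1 := by positivity
    have h5 : ((Nat.sqrt X : ℝ) + 1) ^ 2 ≤ (y ^ 2) ^ 2 := pow_le_pow_left₀ h4 hcon 2
    have h6 : (y ^ 2) ^ 2 = X := by rw [← hy4]; ring
    linarith
  nlinarith

/-- PROOF. `H ≤ R^ℓ ≤ (log X)^(a+1)`, `R ≤ (ll X)^c ≤ log X`, so `4 R R^ℓ ≤ 4 (log X)^(a+2)`, and powers of `log X` are smaller than any power of `X`;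
`YT = X e^τ/(R R^ℓ)`. (Template: E3/A0b, E3/M8 `par2`, EF/A.) -/
theorem parT2 (a c K κ : ℝ) (ha : 3 ≤ a) (hc : 2 ≤ c) (hκ : 0 < κ) : ∃ X₀ : ℕ, ∀ X : ℕ, X₀ ≤ X →
    ∀ R ℓ H : ℕ, PT a c R ℓ H X →
    100 * H ≤ X ∧ K * (H : ℝ) ^ 2 ≤ X ∧ 2 * R ^ ℓ ≤ Nat.sqrt X ∧
      ((4 * (R * R ^ ℓ) : ℕ) : ℝ) ≤ (Nat.sqrt X : ℝ) ^ κ ∧
      ((4 * (R * R ^ ℓ) : ℕ) : ℝ) * (Nat.sqrt X + 1) + H ≤ X ∧
      Real.log ((4 * (R * R ^ ℓ) : ℕ) : ℝ) ≤ κ * Real.log X ∧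
      ∀ τ : ℝ, |τ| ≤ K → (X : ℝ) ^ (0.99 : ℝ) ≤ YT R ℓ X τ ∧ YT R ℓ X τ ≤ X := by
  obtain ⟨X₀, hp0⟩ := ll_large (Real.exp |K| + 100)
  obtain ⟨X₁, hp1⟩ := pow_compare a 0 100 1 one_pos
  obtain ⟨X₂, hp2⟩ := pow_compare (2 * a) 0 |K| 1 one_pos
  obtain ⟨X₃, hp3⟩ := pow_compare (a + 1) 0 2 (1 / 4) (by norm_num)
  obtain ⟨X₄, hp4⟩ := pow_compare (a + 1) c 4 (κ / 4) (by positivity)
  obtain ⟨X₅, hp5⟩ := pow_compare (a + 1) c 4 (1 / 4) (by norm_num)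
  obtain ⟨X₆, hp6⟩ := pow_compare a 0 1 (1 / 4) (by norm_num)
  obtain ⟨X₇, hp7⟩ := pow_compare (a + 1) c (Real.exp |K|) (1 / 100) (by norm_num)
  refine ⟨max (max (max X₀ X₁) (max X₂ X₃)) (max (max X₄ X₅) (max X₆ X₇)), fun X hX R ℓ H hPT => ?_⟩
  have hXa : max (max X₀ X₁) (max X₂ X₃) ≤ X := (le_max_left _ _).trans hX
  have hXb : max (max X₄ X₅) (max X₆ X₇) ≤ X := (le_max_right _ _).trans hX
  obtain ⟨g1, g2, g3⟩ := hp0 X ((le_max_left _ _).trans ((le_max_left _ _).trans hXa))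
  have q1 := (hp1 X ((le_max_right _ _).trans ((le_max_left _ _).trans hXa))).2
  have q2 := (hp2 X ((le_max_left _ _).trans ((le_max_right _ _).trans hXa))).2
  have q3 := (hp3 X ((le_max_right _ _).trans ((le_max_right _ _).trans hXa))).2
  have q4 := (hp4 X ((le_max_left _ _).trans ((le_max_left _ _).trans hXb))).2
  have q5 := (hp5 X ((le_max_right _ _).trans ((le_max_left _ _).trans hXb))).2
  have q6 := (hp6 X ((le_max_left _ _).trans ((le_max_right _ _).trans hXb))).2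
  have q7 := (hp7 X ((le_max_right _ _).trans ((le_max_right _ _).trans hXb))).2
  rw [Real.rpow_zero, mul_one] at q1 q2 q3 q6
  rw [Real.rpow_one] at q1 q2
  rw [one_mul] at q6
  obtain ⟨hlo1, hup1, hlo2, hup2, hloH, hupH⟩ := hPT
  have hE0 : 1 ≤ Real.exp |K| := Real.one_le_exp (abs_nonneg K)
  have hX100 : (100 : ℝ) ≤ X := by linarith
  have hX16 : 16 ≤ X := by
    have h1 : (16 : ℝ) ≤ (X : ℝ) := by linarith
    exact_mod_cast h1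
  have hX0 : (0 : ℝ) < X := by linarith
  have hX1 : (1 : ℝ) ≤ X := by linarith
  have hL1 : 1 ≤ Real.log X := by linarith
  have hL0 : 0 < Real.log X := by linarith
  have hl1 : 1 ≤ ll X := by linarith
  have hl0 : 0 < ll X := by linarith
  have hH0 : (0 : ℝ) ≤ H := Nat.cast_nonneg _
  have hR0 : (0 : ℝ) ≤ R := Nat.cast_nonneg _
  have hK1 := le_abs_self K
  -- lower bounds for `R` and `R ^ ℓ`
  have hl2c : (ll X) ^ (2 : ℕ) ≤ (ll X) ^ c := by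
    rw [← Real.rpow_natCast]
    exact Real.rpow_le_rpow_of_exponent_le hl1 (by exact_mod_cast hc)
  have hR4 : 1 ≤ (R : ℝ) := by
    have h1 : (100 : ℝ) * 100 ≤ ll X * ll X := mul_le_mul (by linarith) (by linarith) (by norm_num) hl0.le
    have h2 : (ll X) ^ (2 : ℕ) = ll X * ll X := sq _
    linarith
  have hLa : Real.log X ≤ (Real.log X) ^ a := by
    conv_lhs => rw [← Real.rpow_one (Real.log X)]
    exact Real.rpow_le_rpow_of_exponent_le hL1 (by linarith)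
  have hRl : Real.exp |K| ≤ (R : ℝ) ^ ℓ := by linarith
  have hRl1 : 1 ≤ (R : ℝ) ^ ℓ := by linarith
  have hprod : (R : ℝ) * (R : ℝ) ^ ℓ ≤ (Real.log X) ^ (a + 1) * (ll X) ^ c := by
    calc (R : ℝ) * (R : ℝ) ^ ℓ ≤ (ll X) ^ c * (Real.log X) ^ (a + 1) :=
          mul_le_mul hup1 hup2 (by linarith) (Real.rpow_nonneg hl0.le _)
      _ = (Real.log X) ^ (a + 1) * (ll X) ^ c := mul_comm _ _
  have hprod1 : 1 ≤ (R : ℝ) * (R : ℝ) ^ ℓ := by nlinarith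
  have hcast : ((4 * (R * R ^ ℓ) : ℕ) : ℝ) = 4 * ((R : ℝ) * (R : ℝ) ^ ℓ) := by
    push_cast
    ring
  have h4q : 4 * ((R : ℝ) * (R : ℝ) ^ ℓ) ≤ (X : ℝ) ^ (κ / 4) := by linarith
  have h5q : 4 * ((R : ℝ) * (R : ℝ) ^ ℓ) ≤ (X : ℝ) ^ (1 / 4 : ℝ) := by linarith
  have hquart := Pb_quart X hX16
  refine ⟨?_, ?_, ?_, ?_, ?_, ?_, ?_⟩
  · have e1 : ((100 * H : ℕ) : ℝ) ≤ (X : ℝ) := by
      push_cast
      linarith
    exact_mod_cast e1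
  · have e1 : (H : ℝ) ^ 2 ≤ (Real.log X) ^ (2 * a) := by
      calc (H : ℝ) ^ 2 ≤ ((Real.log X) ^ a) ^ 2 := pow_le_pow_left₀ hH0 hupH 2
        _ = (Real.log X) ^ (2 * a) := by
            rw [← Real.rpow_natCast, ← Real.rpow_mul hL0.le]
            congr 1
            push_cast
            ring
    calc K * (H : ℝ) ^ 2 ≤ |K| * (H : ℝ) ^ 2 := mul_le_mul_of_nonneg_right hK1 (by positivity)
      _ ≤ |K| * (Real.log X) ^ (2 * a) := mul_le_mul_of_nonneg_left e1 (abs_nonneg K)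
      _ ≤ X := q2
  · have e1 : ((2 * R ^ ℓ : ℕ) : ℝ) ≤ (Nat.sqrt X : ℝ) := by
      push_cast
      linarith
    exact_mod_cast e1
  · rw [hcast]
    have e1 : (X : ℝ) ^ (κ / 4) = ((X : ℝ) ^ (1 / 4 : ℝ)) ^ κ := by
      rw [← Real.rpow_mul hX0.le]
      congr 1
      ring
    calc 4 * ((R : ℝ) * (R : ℝ) ^ ℓ) ≤ (X : ℝ) ^ (κ / 4) := h4q
      _ = ((X : ℝ) ^ (1 / 4 : ℝ)) ^ κ := e1
      _ ≤ _ := Real.rpow_le_rpow (Real.rpow_nonneg hX0.le _) hquart hκ.le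
  · rw [hcast]
    set y : ℝ := (X : ℝ) ^ (1 / 4 : ℝ) with hy
    have hy0 : 0 ≤ y := Real.rpow_nonneg hX0.le _
    have hy4 : y ^ 4 = X := by
      rw [hy, ← Real.rpow_natCast, ← Real.rpow_mul hX0.le]
      norm_num
    have hy2 : 2 ≤ y := by
      by_contra hcon
      push Not at hcon
      have : y ^ 4 < 2 ^ 4 := pow_lt_pow_left₀ hcon hy0 (by norm_num)
      rw [hy4] at this
      linarith
    have hs : (Nat.sqrt X : ℝ) ≤ y ^ 2 := by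
      have h1 : ((Nat.sqrt X : ℕ) : ℝ) ^ 2 ≤ X := by
        have h2 := Nat.sqrt_le' X
        exact_mod_cast h2
      have h3 : (Nat.sqrt X : ℝ) ^ 2 ≤ (y ^ 2) ^ 2 := by
        calc (Nat.sqrt X : ℝ) ^ 2 ≤ X := h1
          _ = (y ^ 2) ^ 2 := by rw [← hy4]; ring
      exact (pow_le_pow_iff_left₀ (Nat.cast_nonneg _) (by positivity) (by norm_num)).1 h3
    have hHy : (H : ℝ) ≤ y := by linarith
    have e1 : 4 * ((R : ℝ) * (R : ℝ) ^ ℓ) * ((Nat.sqrt X : ℝ) + 1) ≤ y * (y ^ 2 + 1) :=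
      mul_le_mul h5q (by linarith) (by positivity) hy0
    have e2 : y * (y ^ 2 + 1) + y ≤ y ^ 4 := by
      have e3 : y ^ 4 - (y * (y ^ 2 + 1) + y) = y * ((y - 2) * (y ^ 2 + y + 2) + 2) := by ring
      have e4 : 0 ≤ y * ((y - 2) * (y ^ 2 + y + 2) + 2) := by
        have e5 : 0 ≤ (y - 2) * (y ^ 2 + y + 2) := mul_nonneg (by linarith) (by positivity)
        exact mul_nonneg hy0 (by linarith)
      linarith
    linarith
  · rw [hcast]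
    have e0 : 0 < 4 * ((R : ℝ) * (R : ℝ) ^ ℓ) := by linarith
    have e1 := Real.log_le_log e0 h4q
    rw [Real.log_rpow hX0] at e1
    have e2 : κ / 4 * Real.log X ≤ κ * Real.log X := mul_le_mul_of_nonneg_right (by linarith) hL0.le
    exact e1.trans e2
  · intro τ hτ
    have hτ1 : τ ≤ |K| := (le_abs_self τ).trans (hτ.trans hK1)
    have hτ2 : -|K| ≤ τ := by
      have := neg_abs_le τ
      linarith
    have eYT : YT R ℓ X τ = (X : ℝ) / ((R : ℝ) * (R : ℝ) ^ ℓ) * Real.exp τ := by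
      unfold YT YG
      push_cast
      ring
    have hD0 : 0 < (R : ℝ) * (R : ℝ) ^ ℓ := by linarith
    rw [eYT]
    constructor
    · have e1 : (X : ℝ) ^ (0.99 : ℝ) * (X : ℝ) ^ (1 / 100 : ℝ) = X := by
        rw [← Real.rpow_add hX0]
        norm_num
      have e2 : Real.exp |K| * ((R : ℝ) * (R : ℝ) ^ ℓ) ≤ (X : ℝ) ^ (1 / 100 : ℝ) :=
        (mul_le_mul_of_nonneg_left hprod (by linarith)).trans q7
      have e3 : (X : ℝ) ^ (0.99 : ℝ) * (Real.exp |K| * ((R : ℝ) * (R : ℝ) ^ ℓ)) ≤ X := by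
        calc (X : ℝ) ^ (0.99 : ℝ) * (Real.exp |K| * ((R : ℝ) * (R : ℝ) ^ ℓ))
            ≤ (X : ℝ) ^ (0.99 : ℝ) * (X : ℝ) ^ (1 / 100 : ℝ) :=
              mul_le_mul_of_nonneg_left e2 (Real.rpow_nonneg hX0.le _)
          _ = X := e1
      have e4 : Real.exp |K| * Real.exp τ ≥ 1 := by
        rw [← Real.exp_add]
        exact Real.one_le_exp (by linarith)
      have e5 : 0 ≤ (X : ℝ) ^ (0.99 : ℝ) := Real.rpow_nonneg hX0.le _
      rw [div_mul_eq_mul_div, le_div_iff₀ hD0]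
      have e6 : 0 ≤ (X : ℝ) ^ (0.99 : ℝ) * ((R : ℝ) * (R : ℝ) ^ ℓ) := by positivity
      calc (X : ℝ) ^ (0.99 : ℝ) * ((R : ℝ) * (R : ℝ) ^ ℓ)
          ≤ (X : ℝ) ^ (0.99 : ℝ) * ((R : ℝ) * (R : ℝ) ^ ℓ) * (Real.exp |K| * Real.exp τ) :=
            le_mul_of_one_le_right e6 e4
        _ = (X : ℝ) ^ (0.99 : ℝ) * (Real.exp |K| * ((R : ℝ) * (R : ℝ) ^ ℓ)) * Real.exp τ := by ring
        _ ≤ X * Real.exp τ := mul_le_mul_of_nonneg_right e3 (Real.exp_pos _).le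
    · have e1 : Real.exp τ ≤ (R : ℝ) * (R : ℝ) ^ ℓ := by
        calc Real.exp τ ≤ Real.exp |K| := Real.exp_le_exp.2 hτ1
          _ ≤ (R : ℝ) ^ ℓ := hRl
          _ ≤ (R : ℝ) * (R : ℝ) ^ ℓ := le_mul_of_one_le_left (by linarith) hR4
      rw [div_mul_eq_mul_div, div_le_iff₀ hD0]
      exact mul_le_mul_of_nonneg_left e1 hX0.le

end Pool.Agent.Lib.MP_bae66e_nt.TF
end
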