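import Pool.Agent.Lib.MP_bae66e_nt.Mg.G032
import Pool.Agent.Lib.MP_bae66e_nt.Mg.G030
import Pool.Agent.Lib.MP_bae66e_nt.Mg.G034

section

/-!
# Row J1: the model
-/

set_option autoImplicit false

namespace Pool.Agent.Lib.MP_bae66e_nt.EF

open Finset MeasureTheory Real
open Pool.Agent.E3
open Pool.Agent.Lib.MP_bae66e_nt.E2 (YR FR PH)
open Pool.Agent.Lib.MP_bae66e_nt.LL (fP gW nu)
open Pool.Agent.Lib.MP_bae66e_nt.AC (Sg VV)
open Pool.Agent.Lib.MP_bae66e_nt.AP3 (prI mem_prI)

private theorem J1_coprime {W : ℕ} {m n v : ℕ} (h : n ≡ v [MOD W]) :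
    IsCoprime ((m : ℤ) - (v : ℤ)) (W : ℤ) ↔ IsCoprime ((m : ℤ) - (n : ℤ)) (W : ℤ) := by
  have h1 : (v : ℤ) ≡ n [ZMOD W] := ((Int.natCast_modEq_iff).2 h).symm
  obtain ⟨k, hk⟩ := (Int.modEq_iff_dvd).1 h1
  have h2 : (m : ℤ) - (n : ℤ) = ((m : ℤ) - (v : ℤ)) + (W : ℤ) * (-k) := by linarith
  rw [h2, IsCoprime.add_mul_left_left_iff]

/-- PROOF. Substitute `n = m - t`: `gW W H t = W/φ(W)` if `t` is coprime to `W`, else `0` (`LL/Defs`). The `n` which are not coprime to `W` have `f n = 0`; for the others with `m - n` coprime to `W` the class `v = n % W` is in `VV W m`. -/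
theorem model_eq (f : ℕ → ℝ) (W m H : ℕ) (hW : 1 ≤ W) (hH : H ≤ m) (hf : ∀ n, ¬ Nat.Coprime n W → f n = 0) :
    ∑ t ∈ Icc 1 H, gW W H (t : ℤ) * f (m - t) =
      (W : ℝ) / Nat.totient W * ∑ v ∈ VV W m, ∑ n ∈ (Ico (m - H) m).filter (fun n => n ≡ v [MOD W]), f n := by
  classical
  have hWpos : 0 < W := hW
  -- substitution
  have hsub : ∑ t ∈ Icc 1 H, gW W H (t : ℤ) * f (m - t) =
      ∑ n ∈ Ico (m - H) m, nu W ((m : ℤ) - (n : ℤ)) * f n := by
    refine Finset.sum_bij' (fun t _ => m - t) (fun n _ => m - n) ?_ ?_ ?_ ?_ ?_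
    · intro t ht
      rw [Finset.mem_Icc] at ht
      rw [Finset.mem_Ico]
      omega
    · intro n hn
      rw [Finset.mem_Ico] at hn
      rw [Finset.mem_Icc]
      omega
    · intro t ht
      rw [Finset.mem_Icc] at ht
      omega
    · intro n hn
      rw [Finset.mem_Ico] at hn
      omega
    · intro t ht
      rw [Finset.mem_Icc] at ht
      have h1 : (m : ℤ) - ((m - t : ℕ) : ℤ) = t := by
        rw [Nat.cast_sub (by omega)]
        ring
      rw [h1]
      unfold gW
      rw [if_pos ⟨by exact_mod_cast ht.1, by exact_mod_cast ht.2⟩]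
  rw [hsub, Finset.mul_sum]
  simp only [Finset.sum_filter, Finset.mul_sum]
  rw [Finset.sum_comm]
  refine Finset.sum_congr rfl fun n _ => ?_
  by_cases hn : n % W ∈ VV W m
  · rw [Finset.sum_eq_single (n % W)]
    · rw [if_pos (Nat.mod_modEq n W).symm]
      unfold VV at hn
      rw [Finset.mem_filter] at hn
      have h1 : IsCoprime ((m : ℤ) - (n : ℤ)) (W : ℤ) :=
        (J1_coprime (Nat.mod_modEq n W).symm).1 hn.2.2
      unfold nu
      rw [if_pos h1]
    · intro v hv' hne
      rw [if_neg, mul_zero]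
      intro h
      apply hne
      unfold VV at hv'
      rw [Finset.mem_filter, Finset.mem_range] at hv'
      have h2 : n % W = v % W := h
      rw [Nat.mod_eq_of_lt hv'.1] at h2
      exact h2.symm
    · intro h
      exact absurd hn h
  · rw [Finset.sum_eq_zero]
    · by_cases hc : Nat.Coprime n W
      · have h3 : ¬ IsCoprime ((m : ℤ) - (n : ℤ)) (W : ℤ) := by
          intro h4
          apply hn
          unfold VV
          rw [Finset.mem_filter, Finset.mem_range]
          refine ⟨Nat.mod_lt _ hWpos, ?_, (J1_coprime (Nat.mod_modEq n W).symm).2 h4⟩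
          have : Nat.gcd (n % W) W = Nat.gcd W n := (Nat.gcd_rec W n).symm
          rw [Nat.Coprime, this, Nat.gcd_comm]
          exact hc
        unfold nu
        rw [if_neg h3, zero_mul]
      · rw [hf n hc, mul_zero]
    · intro v hv'
      rw [if_neg, mul_zero]
      intro h
      apply hn
      have h2 : n % W = v % W := h
      rw [h2]
      have h3 := hv'
      unfold VV at h3
      rw [Finset.mem_filter, Finset.mem_range] at h3
      rw [Nat.mod_eq_of_lt h3.1]
      exact hv'

end Pool.Agent.Lib.MP_bae66e_nt.EF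
end

section

/-!
# Row G1: the singular series for one integer
-/

set_option autoImplicit false

namespace Pool.Agent.Lib.MP_bae66e_nt.EF

open Finset MeasureTheory Real
open Pool.Agent.E3
open Pool.Agent.Lib.MP_bae66e_nt.E2 (YR FR PH)
open Pool.Agent.Lib.MP_bae66e_nt.LL (fP gW)
open Pool.Agent.Lib.MP_bae66e_nt.AC (Sg VV)
open Pool.Agent.Lib.MP_bae66e_nt.AP3 (prI mem_prI)

private theorem G1_local (p m : ℕ) (hp : p.Prime) :
    #(VV p m) = p - (if p ∣ m then 1 else 2) := by
  have h1 : VV p m = range p \ {0, m % p} := by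
    ext v
    unfold VV
    rw [Finset.mem_filter, Finset.mem_sdiff, Finset.mem_range, Finset.mem_insert,
      Finset.mem_singleton, not_or]
    refine and_congr_right fun hvp => and_congr ?_ ?_
    · rw [Nat.coprime_comm, hp.coprime_iff_not_dvd]
      constructor
      · intro h h0
        exact h (h0 ▸ dvd_zero p)
      · intro h0 h
        exact h0 (Nat.eq_zero_of_dvd_of_lt h hvp)
    · rw [isCoprime_comm]
      have hpi : Prime (p : ℤ) := Nat.prime_iff_prime_int.1 hp
      rw [hpi.coprime_iff_not_dvd]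
      have h5 : ((p : ℤ) ∣ (m : ℤ) - v) ↔ v = m % p := by
        rw [← Int.modEq_iff_dvd, Int.natCast_modEq_iff]
        unfold Nat.ModEq
        rw [Nat.mod_eq_of_lt hvp]
      rw [h5]
  have h2 : ({0, m % p} : Finset ℕ) ⊆ range p := by
    intro v hv
    rw [Finset.mem_insert, Finset.mem_singleton] at hv
    rw [Finset.mem_range]
    rcases hv with h | h
    · rw [h]
      exact hp.pos
    · rw [h]
      exact Nat.mod_lt _ hp.pos
  rw [h1, Finset.card_sdiff_of_subset h2, Finset.card_range]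
  congr 1
  by_cases h : p ∣ m
  · rw [if_pos h, Nat.mod_eq_zero_of_dvd h]
    rfl
  · rw [if_neg h]
    apply Finset.card_pair
    intro h0
    exact h (Nat.dvd_of_mod_eq_zero h0.symm)

private theorem G1_main (w m : ℕ) (hw : 2 ≤ w) (hm : Even m) :
    (#(VV (primorial w) m) : ℝ) = ((Nat.totient (primorial w) : ℝ)) ^ 2 / (primorial w : ℝ) * (2 *
      (∏ p ∈ (Icc 3 w).filter Nat.Prime, (1 - 1 / ((p : ℝ) - 1) ^ 2)) *
      ∏ p ∈ (Icc 3 w).filter (fun p => p.Prime ∧ p ∣ m), (((p : ℝ) - 1) / ((p : ℝ) - 2))) := by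
  induction w, hw using Nat.le_induction with
  | base =>
    have h2 : primorial 2 = 2 := by decide
    have h3 : Icc 3 2 = (∅ : Finset ℕ) := by decide
    have h4 := G1_local 2 m Nat.prime_two
    rw [if_pos hm.two_dvd] at h4
    rw [h2, h3, Finset.filter_empty, Finset.filter_empty, Finset.prod_empty, Finset.prod_empty, h4,
      Nat.totient_two]
    norm_num
  | succ w hw ih =>
    have hIcc : Icc 3 (w + 1) = insert (w + 1) (Icc 3 w) := by
      ext x
      rw [Finset.mem_insert, Finset.mem_Icc, Finset.mem_Icc]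
      omega
    have hnot : w + 1 ∉ Icc 3 w := by
      rw [Finset.mem_Icc]
      omega
    by_cases hp : (w + 1).Prime
    · have hprim : primorial (w + 1) = primorial w * (w + 1) := by
        unfold primorial
        rw [Finset.range_add_one, Finset.filter_insert, if_pos hp, Finset.prod_insert (by simp),
          mul_comm]
      have hM : 0 < primorial w := primorial_pos w
      have hcop : Nat.Coprime (primorial w) (w + 1) := by
        unfold primorial
        refine Nat.Coprime.prod_left fun q hq => ?_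
        rw [Finset.mem_filter, Finset.mem_range] at hq
        exact (Nat.coprime_primes hq.2 hp).2 (by omega)
      have hw2 : (2 : ℝ) ≤ w := by exact_mod_cast hw
      have hcount : #(VV (primorial (w + 1)) m) = #(VV (primorial w) m) * #(VV (w + 1) m) := by
        have key : ∀ (M : ℕ) (v : ℕ), (Nat.Coprime v M ∧ IsCoprime ((m : ℤ) - (v : ℤ)) (M : ℤ)) ↔
            (Nat.Coprime (v % M) M ∧ IsCoprime ((m : ℤ) - ((v % M : ℕ) : ℤ)) (M : ℤ)) := by
          intro M v
          have h1 : Nat.Coprime v M ↔ Nat.Coprime (v % M) M := by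
            unfold Nat.Coprime
            rw [Nat.gcd_comm v M, Nat.gcd_rec M v]
          have h2 : (m : ℤ) - (v : ℤ) =
              ((m : ℤ) - ((v % M : ℕ) : ℤ)) + (M : ℤ) * (-((v / M : ℕ) : ℤ)) := by
            have h3 : (v : ℤ) = ((v % M : ℕ) : ℤ) + (M : ℤ) * ((v / M : ℕ) : ℤ) := by
              exact_mod_cast (Nat.mod_add_div v M).symm
            linarith
          rw [h1, h2, IsCoprime.add_mul_left_left_iff]
        have h1 := card_crt (primorial w) (w + 1) hM (by omega) hcop
          (fun v => Nat.Coprime v (primorial w) ∧ IsCoprime ((m : ℤ) - (v : ℤ)) (primorial w : ℤ))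
          (fun v => Nat.Coprime v (w + 1) ∧ IsCoprime ((m : ℤ) - (v : ℤ)) ((w + 1 : ℕ) : ℤ))
          (key (primorial w)) (key (w + 1))
        unfold VV
        rw [← h1, hprim]
        congr 1
        refine Finset.filter_congr fun v _ => ?_
        rw [Nat.coprime_mul_iff_right, Nat.cast_mul, IsCoprime.mul_right_iff]
        tauto
      have hprod : ∏ p ∈ (Icc 3 (w + 1)).filter Nat.Prime, (1 - 1 / ((p : ℝ) - 1) ^ 2) =
          (1 - 1 / (w : ℝ) ^ 2) * ∏ p ∈ (Icc 3 w).filter Nat.Prime, (1 - 1 / ((p : ℝ) - 1) ^ 2) := by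
        rw [hIcc, Finset.filter_insert, if_pos hp, Finset.prod_insert (by
          rw [Finset.mem_filter]
          exact fun h => hnot h.1)]
        congr 1
        push_cast
        ring
      have hMr : (0 : ℝ) < primorial w := by exact_mod_cast hM
      have hw1 : (0 : ℝ) < (w : ℝ) := by linarith
      have hwm : (0 : ℝ) < (w : ℝ) - 1 := by linarith
      by_cases hd : (w + 1) ∣ m
      · have hprod2 : ∏ p ∈ (Icc 3 (w + 1)).filter (fun p => p.Prime ∧ p ∣ m),
            (((p : ℝ) - 1) / ((p : ℝ) - 2)) = ((w : ℝ) / ((w : ℝ) - 1)) *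
            ∏ p ∈ (Icc 3 w).filter (fun p => p.Prime ∧ p ∣ m), (((p : ℝ) - 1) / ((p : ℝ) - 2)) := by
          rw [hIcc, Finset.filter_insert, if_pos ⟨hp, hd⟩, Finset.prod_insert (by
            rw [Finset.mem_filter]
            exact fun h => hnot h.1)]
          congr 1
          push_cast
          have e1 : (w : ℝ) + 1 - 1 = w := by ring
          have e2 : (w : ℝ) + 1 - 2 = (w : ℝ) - 1 := by ring
          rw [e1, e2]
        have hloc : (#(VV (w + 1) m) : ℝ) = w := by
          rw [G1_local (w + 1) m hp, if_pos hd, Nat.add_sub_cancel]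
        rw [hcount, hprod, hprod2, hprim, Nat.totient_mul hcop, Nat.totient_prime hp, Nat.cast_mul,
          Nat.cast_mul, Nat.add_sub_cancel, Nat.cast_mul, ih, hloc]
        push_cast
        field_simp
        ring
      · have hprod2 : ∏ p ∈ (Icc 3 (w + 1)).filter (fun p => p.Prime ∧ p ∣ m),
            (((p : ℝ) - 1) / ((p : ℝ) - 2)) =
            ∏ p ∈ (Icc 3 w).filter (fun p => p.Prime ∧ p ∣ m), (((p : ℝ) - 1) / ((p : ℝ) - 2)) := by
          rw [hIcc, Finset.filter_insert, if_neg (fun h => hd h.2)]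
        have hloc : (#(VV (w + 1) m) : ℝ) = (w : ℝ) - 1 := by
          rw [G1_local (w + 1) m hp, if_neg hd, show w + 1 - 2 = w - 1 from rfl,
            Nat.cast_sub (by omega : 1 ≤ w), Nat.cast_one]
        rw [hcount, hprod, hprod2, hprim, Nat.totient_mul hcop, Nat.totient_prime hp, Nat.cast_mul,
          Nat.cast_mul, Nat.add_sub_cancel, Nat.cast_mul, ih, hloc]
        push_cast
        field_simp
        ring
    · have hprim : primorial (w + 1) = primorial w := by
        unfold primorial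
        rw [Finset.range_add_one, Finset.filter_insert, if_neg hp]
      rw [hprim, hIcc, Finset.filter_insert, if_neg hp, Finset.filter_insert,
        if_neg (fun h => hp h.1)]
      exact ih

/-- PROOF. The number of the classes `v` modulo `primorial w` with `v` and `m - v` prime to all `p ≤ w` is `∏_{p ≤ w} (p - 1 or p - 2)` (`p - 1` if `p ∣ m`; Chinese remainder theorem). With `φ(W) = ∏ (p - 1)`. -/
theorem Sg_eq (w m : ℕ) (hw : 2 ≤ w) (hm : Even m) : Sg (primorial w) m =
    2 * (∏ p ∈ (Icc 3 w).filter Nat.Prime, (1 - 1 / ((p : ℝ) - 1) ^ 2)) *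
      ∏ p ∈ (Icc 3 w).filter (fun p => p.Prime ∧ p ∣ m), (((p : ℝ) - 1) / ((p : ℝ) - 2)) := by
  have hWpos : 0 < primorial w := primorial_pos w
  have hW : (0 : ℝ) < (primorial w : ℝ) := by exact_mod_cast hWpos
  have hφ : (0 : ℝ) < (Nat.totient (primorial w) : ℝ) := by exact_mod_cast Nat.totient_pos.2 hWpos
  unfold Sg
  rw [G1_main w m hw hm]
  field_simp

end Pool.Agent.Lib.MP_bae66e_nt.EF
end

section

/-!
# Row G2: the singular series for almost all integers
-/

set_option autoImplicit false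

namespace Pool.Agent.Lib.MP_bae66e_nt.EF

open Finset MeasureTheory Real
open Pool.Agent.E3
open Pool.Agent.Lib.MP_bae66e_nt.E2 (YR FR PH)
open Pool.Agent.Lib.MP_bae66e_nt.LL (fP gW)
open Pool.Agent.Lib.MP_bae66e_nt.AC (Sg VV)
open Pool.Agent.Lib.MP_bae66e_nt.AP3 (prI mem_prI)

/-- the partial products -/
private noncomputable def tf (p : ℕ) : ℝ := if p = 2 then (1 : ℝ) else 1 - 1 / ((p : ℝ) - 1) ^ 2

private theorem tf_prod (w : ℕ) (hw : 2 ≤ w) :
    ∏ p ∈ (range (w + 1)).filter Nat.Prime, tf p =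
      ∏ p ∈ (Icc 3 w).filter Nat.Prime, (1 - 1 / ((p : ℝ) - 1) ^ 2) := by
  have h1 : (range (w + 1)).filter Nat.Prime = insert 2 ((Icc 3 w).filter Nat.Prime) := by
    ext p
    rw [Finset.mem_insert, Finset.mem_filter, Finset.mem_filter, Finset.mem_range, Finset.mem_Icc]
    constructor
    · rintro ⟨h1, h2⟩
      have := h2.two_le
      by_cases h3 : p = 2
      · exact Or.inl h3
      · exact Or.inr ⟨⟨by omega, by omega⟩, h2⟩
    · rintro (h | ⟨⟨h1, h2⟩, h3⟩)
      · subst h
        exact ⟨by omega, Nat.prime_two⟩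
      · exact ⟨by omega, h3⟩
  rw [h1, Finset.prod_insert (by
    rw [Finset.mem_filter, Finset.mem_Icc]
    rintro ⟨⟨h, -⟩, -⟩
    omega)]
  unfold tf
  rw [if_pos rfl, one_mul]
  refine Finset.prod_congr rfl fun p hp => ?_
  rw [Finset.mem_filter, Finset.mem_Icc] at hp
  rw [if_neg (by omega)]

private theorem tf_tendsto : Filter.Tendsto
    (fun w : ℕ => ∏ p ∈ (range (w + 1)).filter Nat.Prime, tf p) Filter.atTop
    (nhds Pool.Agent.MG.twinConst) := by
  set g : Nat.Primes → ℝ := fun p =>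
    if (p : ℕ) = 2 then (0 : ℝ) else - (1 / (((p : ℕ) : ℝ) - 1) ^ 2) with hg
  set f : Nat.Primes → ℝ := fun p =>
    if (p : ℕ) = 2 then (1 : ℝ) else 1 - 1 / (((p : ℕ) : ℝ) - 1) ^ 2 with hf
  have hfg : ∀ p, f p = 1 + g p := by
    intro p
    simp only [hf, hg]
    split_ifs <;> ring
  have hp2 : ∀ p : Nat.Primes, (2 : ℝ) ≤ ((p : ℕ) : ℝ) := fun p => by exact_mod_cast p.2.two_le
  have hgb : ∀ p, ‖g p‖ ≤ 4 * (1 / (((p : ℕ) : ℝ)) ^ 2) := by
    intro p
    have h2 := hp2 p
    simp only [hg]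
    split_ifs with h
    · rw [norm_zero]; positivity
    · rw [norm_neg, Real.norm_of_nonneg (by positivity)]
      rw [mul_one_div, div_le_div_iff₀ (by nlinarith) (by positivity)]
      nlinarith
  have hsg : Summable g := by
    refine Summable.of_norm_bounded ?_ hgb
    refine Summable.mul_left _ ?_
    exact (Real.summable_one_div_nat_pow.mpr one_lt_two).comp_injective
      Nat.Primes.coe_nat_injective
  have hfpos : ∀ p, 0 < f p := by
    intro p
    simp only [hf]
    split_ifs with h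
    · exact one_pos
    · have h3 : (3 : ℝ) ≤ ((p : ℕ) : ℝ) := by
        have := p.2.two_le
        have : 3 ≤ (p : ℕ) := by omega
        exact_mod_cast this
      rw [sub_pos, div_lt_one (by nlinarith)]
      nlinarith
  have hlog : Summable (fun p => Real.log (f p)) := by
    have := Real.summable_log_one_add_of_summable hsg
    refine this.congr (fun p => ?_)
    rw [hfg p]
  have hmul : Multipliable f := Real.multipliable_of_summable_log hfpos hlog
  have h1 : Filter.Tendsto (fun s : Finset Nat.Primes => ∏ p ∈ s, f p) Filter.atTop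
      (nhds (∏' p, f p)) := hmul.hasProd
  have h2 : Filter.Tendsto (fun w : ℕ => ((range (w + 1)).subtype Nat.Prime : Finset Nat.Primes))
      Filter.atTop Filter.atTop := by
    apply Filter.tendsto_atTop_finset_of_monotone
    · intro a b hab x hx
      rw [Finset.mem_subtype, Finset.mem_range] at hx ⊢
      omega
    · intro x
      refine ⟨(x : ℕ), ?_⟩
      rw [Finset.mem_subtype, Finset.mem_range]
      exact Nat.lt_succ_self _
  have h3 := h1.comp h2
  refine h3.congr fun w => ?_
  show ∏ p ∈ ((range (w + 1)).subtype Nat.Prime : Finset Nat.Primes), f p = _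
  rw [← Finset.prod_subtype_eq_prod_filter]
  rfl

/-- PROOF. The partial products of `twinConst` converge to it (`MG/S1a`, `S1c`; it is positive), from above. For `m ≥ 1` even: `sing m/Sg = (twinConst/∏_{2<p≤w} (1 - 1/(p-1)²)) ∏_{p ∣ m, p > w} (p-1)/(p-2)`; the last product is between `1` and
`exp (∑_{p ∣ m, p > w} 1/(p-2))`. -/
theorem Sg_near (ε : ℝ) (hε : 0 < ε) : ∃ w₀ : ℕ, ∀ w : ℕ, w₀ ≤ w → ∀ m : ℕ, 1 ≤ m → Even m →
    ∑ p ∈ m.primeFactors.filter (fun p => w < p), 1 / (p : ℝ) ≤ ε / 8 →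
    |Sg (primorial w) m - Pool.Agent.MG.sing m| ≤ ε * Pool.Agent.MG.sing m := by
  obtain ⟨hT0, -⟩ := Pool.Agent.MG.twinConst_pos
  have hev := (Metric.tendsto_atTop.1 tf_tendsto) (ε / 4 * Pool.Agent.MG.twinConst) (by positivity)
  obtain ⟨w₁, hw₁⟩ := hev
  refine ⟨max w₁ 3, fun w hw m hm1 hm hsum => ?_⟩
  have hwa : w₁ ≤ w := (le_max_left _ _).trans hw
  have hwb : 3 ≤ w := (le_max_right _ _).trans hw
  have hP := hw₁ w hwa
  rw [tf_prod w (by omega), Real.dist_eq] at hP
  set T := Pool.Agent.MG.twinConst with hT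
  set P := ∏ p ∈ (Icc 3 w).filter Nat.Prime, (1 - 1 / ((p : ℝ) - 1) ^ 2) with hPdef
  set A := ∏ p ∈ (Icc 3 w).filter (fun p => p.Prime ∧ p ∣ m), (((p : ℝ) - 1) / ((p : ℝ) - 2)) with hA
  set D := ∏ p ∈ m.primeFactors.filter (fun p => w < p), (((p : ℝ) - 1) / ((p : ℝ) - 2)) with hD
  have hP0 : 0 ≤ P := by
    refine Finset.prod_nonneg fun p hp => ?_
    rw [Finset.mem_filter, Finset.mem_Icc] at hp
    have h3 : (3 : ℝ) ≤ (p : ℝ) := by exact_mod_cast hp.1.1
    rw [sub_nonneg, div_le_one (by nlinarith)]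
    nlinarith
  have hA0 : 0 < A := by
    refine Finset.prod_pos fun p hp => ?_
    rw [Finset.mem_filter, Finset.mem_Icc] at hp
    have h3 : (3 : ℝ) ≤ (p : ℝ) := by exact_mod_cast hp.1.1
    apply div_pos <;> linarith
  have hpw : ∀ p ∈ m.primeFactors.filter (fun p => w < p), (4 : ℝ) ≤ (p : ℝ) := by
    intro p hp
    rw [Finset.mem_filter] at hp
    exact_mod_cast (by omega : 4 ≤ p)
  have hD1 : 1 ≤ D := by
    refine Finset.prod_induction _ (fun x : ℝ => 1 ≤ x)
      (fun a b ha hb => one_le_mul_of_one_le_of_one_le ha hb) le_rfl ?_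
    intro p hp
    have h4 := hpw p hp
    rw [le_div_iff₀ (by linarith)]
    linarith
  have hD2 : D ≤ Real.exp (ε / 4) := by
    calc D ≤ ∏ p ∈ m.primeFactors.filter (fun p => w < p), Real.exp (2 * (1 / (p : ℝ))) := by
          refine Finset.prod_le_prod (fun p hp => ?_) (fun p hp => ?_)
          · have h4 := hpw p hp
            apply div_nonneg <;> linarith
          · have h4 := hpw p hp
            have h5 : ((p : ℝ) - 1) / ((p : ℝ) - 2) = 1 / ((p : ℝ) - 2) + 1 := by
              have : (p : ℝ) - 2 ≠ 0 := by linarith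
              field_simp
              ring
            rw [h5]
            refine (Real.add_one_le_exp _).trans (Real.exp_le_exp.2 ?_)
            rw [mul_one_div, div_le_div_iff₀ (by linarith) (by linarith)]
            linarith
      _ = Real.exp (2 * ∑ p ∈ m.primeFactors.filter (fun p => w < p), 1 / (p : ℝ)) := by
          rw [← Real.exp_sum, ← Finset.mul_sum]
      _ ≤ Real.exp (ε / 4) := by
          apply Real.exp_le_exp.2
          linarith
  have hsing : Pool.Agent.MG.sing m = 2 * T * (A * D) := by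
    unfold Pool.Agent.MG.sing
    rw [← hT, hA, hD, ← Finset.prod_union]
    · congr 1
      refine Finset.prod_congr ?_ fun _ _ => rfl
      ext p
      rw [Finset.mem_erase, Finset.mem_union, Finset.mem_filter, Finset.mem_filter, Finset.mem_Icc,
        Nat.mem_primeFactors]
      constructor
      · rintro ⟨h1, h2, h3, h4⟩
        have := h2.two_le
        by_cases h5 : w < p
        · exact Or.inr ⟨⟨h2, h3, h4⟩, h5⟩
        · exact Or.inl ⟨⟨by omega, by omega⟩, h2, h3⟩
      · rintro (⟨⟨h1, h2⟩, h3, h4⟩ | ⟨⟨h1, h2, h3⟩, h4⟩)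
        · exact ⟨by omega, h3, h4, by omega⟩
        · exact ⟨by omega, h1, h2, h3⟩
    · rw [Finset.disjoint_left]
      intro p hp hp'
      rw [Finset.mem_filter, Finset.mem_Icc] at hp
      rw [Finset.mem_filter] at hp'
      omega
  have hSg : Sg (primorial w) m = 2 * P * A := Sg_eq w m (by omega) hm
  rw [hsing, hSg]
  rw [abs_lt] at hP
  obtain ⟨hPa, hPb⟩ := hP
  have hTD : T ≤ T * D := by nlinarith
  have key : |P - T * D| ≤ ε * (T * D) := by
    rw [abs_le]
    constructor
    · by_cases h1 : ε ≤ 1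
      · have hexp : Real.exp (ε / 4) ≤ 1 + ε / 2 := by
          have h2 := Real.abs_exp_sub_one_le (x := ε / 4) (by rw [abs_of_nonneg (by positivity)]; linarith)
          rw [abs_of_nonneg (by positivity : (0 : ℝ) ≤ ε / 4)] at h2
          have := le_of_abs_le h2
          linarith
        have h3 : D - 1 + ε / 4 ≤ ε * D := by nlinarith
        nlinarith
      · nlinarith
    · nlinarith
  have h2 : 2 * P * A - 2 * T * (A * D) = 2 * A * (P - T * D) := by ring
  rw [h2, abs_mul, abs_of_pos (by positivity : 0 < 2 * A)]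
  calc 2 * A * |P - T * D| ≤ 2 * A * (ε * (T * D)) := mul_le_mul_of_nonneg_left key (by positivity)
    _ = _ := by ring

/-- PROOF. `∑_{m ≤ N} ∑_{p ∣ m, p > w} 1/p ≤ ∑_{p > w} N/p² ≤ N/w`; Markov and `Sg_near`. (For `ε > 1` use `ε = 1`.) -/
theorem singa : SINGA := by
  intro ε δ hε hδ
  obtain ⟨w₁, hw₁⟩ := Sg_near ε hε
  obtain ⟨w₂, hw₂⟩ := exists_nat_ge (8 / (ε * δ))
  refine ⟨max w₁ (max w₂ 1), fun w hw N => ?_⟩
  have hwa : w₁ ≤ w := (le_max_left _ _).trans hw
  have hwb : w₂ ≤ w := ((le_max_left _ _).trans (le_max_right _ _)).trans hw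
  have hwc : 1 ≤ w := ((le_max_right _ _).trans (le_max_right _ _)).trans hw
  have hwr : (0 : ℝ) < w := by exact_mod_cast hwc
  set Bad : Finset ℕ := {m ∈ Icc 1 N | Even m ∧ ε * Pool.Agent.MG.sing m <
    |Sg (primorial w) m - Pool.Agent.MG.sing m|} with hBad
  have h1 : ∀ m ∈ Bad, ε / 8 ≤ ∑ p ∈ m.primeFactors.filter (fun p => w < p), 1 / (p : ℝ) := by
    intro m hm
    rw [hBad, Finset.mem_filter, Finset.mem_Icc] at hm
    by_contra hcon
    rw [not_le] at hcon
    have := hw₁ w hwa m hm.1.1 hm.2.1 hcon.le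
    linarith [hm.2.2]
  have h2 : (#Bad : ℝ) * (ε / 8) ≤
      ∑ m ∈ Icc 1 N, ∑ p ∈ m.primeFactors.filter (fun p => w < p), 1 / (p : ℝ) := by
    calc (#Bad : ℝ) * (ε / 8) = ∑ _m ∈ Bad, ε / 8 := by
          rw [Finset.sum_const, nsmul_eq_mul]
      _ ≤ ∑ m ∈ Bad, ∑ p ∈ m.primeFactors.filter (fun p => w < p), 1 / (p : ℝ) :=
          Finset.sum_le_sum h1
      _ ≤ _ := Finset.sum_le_sum_of_subset_of_nonneg (Finset.filter_subset _ _)
          (fun _ _ _ => Finset.sum_nonneg fun _ _ => by positivity)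
  have h3 : ∑ m ∈ Icc 1 N, ∑ p ∈ m.primeFactors.filter (fun p => w < p), 1 / (p : ℝ) ≤ N / w := by
    calc ∑ m ∈ Icc 1 N, ∑ p ∈ m.primeFactors.filter (fun p => w < p), 1 / (p : ℝ)
        ≤ ∑ m ∈ Icc 1 N, ∑ p ∈ Ioc w N, (if p ∣ m then 1 / (p : ℝ) else 0) := by
          refine Finset.sum_le_sum fun m hm => ?_
          rw [Finset.mem_Icc] at hm
          rw [← Finset.sum_filter]
          refine Finset.sum_le_sum_of_subset_of_nonneg ?_ (fun _ _ _ => by positivity)
          intro p hp
          rw [Finset.mem_filter, Nat.mem_primeFactors] at hp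
          rw [Finset.mem_filter, Finset.mem_Ioc]
          exact ⟨⟨hp.2, (Nat.le_of_dvd (by omega) hp.1.2.1).trans hm.2⟩, hp.1.2.1⟩
      _ = ∑ p ∈ Ioc w N, ∑ m ∈ Icc 1 N, (if p ∣ m then 1 / (p : ℝ) else 0) := Finset.sum_comm
      _ ≤ ∑ p ∈ Ioc w N, N * ((p : ℝ) ^ 2)⁻¹ := by
          refine Finset.sum_le_sum fun p hp => ?_
          rw [Finset.mem_Ioc] at hp
          have hp0 : (0 : ℝ) < p := by exact_mod_cast (by omega : 0 < p)
          rw [← Finset.sum_filter, Finset.sum_const, nsmul_eq_mul]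
          have h4 : #((Icc 1 N).filter (fun m => p ∣ m)) = N / p := Nat.Ioc_filter_dvd_card_eq_div N p
          rw [h4]
          have h5 : ((N / p : ℕ) : ℝ) ≤ N / p := Nat.cast_div_le
          calc ((N / p : ℕ) : ℝ) * (1 / p) ≤ (N / p) * (1 / p) :=
                mul_le_mul_of_nonneg_right h5 (by positivity)
            _ = _ := by field_simp
      _ = N * ∑ p ∈ Ioc w N, ((p : ℝ) ^ 2)⁻¹ := by rw [Finset.mul_sum]
      _ ≤ N * (1 / w) := by
          refine mul_le_mul_of_nonneg_left ?_ (Nat.cast_nonneg _)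
          rcases Nat.lt_or_ge N w with h | h
          · rw [Finset.Ioc_eq_empty (by omega), Finset.sum_empty]
            positivity
          · refine (sum_Ioc_inv_sq_le_sub (by omega) h).trans ?_
            have : (0 : ℝ) ≤ (N : ℝ)⁻¹ := by positivity
            rw [one_div]
            linarith
      _ = N / w := by ring
  have h4 : (#Bad : ℝ) * (ε / 8) ≤ (δ * N) * (ε / 8) := by
    refine (h2.trans h3).trans ?_
    rw [div_le_iff₀ hwr]
    have h5 : 8 / (ε * δ) ≤ w := hw₂.trans (by exact_mod_cast hwb)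
    rw [div_le_iff₀ (by positivity)] at h5
    have h6 : (0 : ℝ) ≤ N := Nat.cast_nonneg _
    nlinarith
  exact le_of_mul_le_mul_right h4 (by positivity)

end Pool.Agent.Lib.MP_bae66e_nt.EF
end
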