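import Pool.Agent.Lib.MP_bae66e_nt.Mg.G038
import Pool.Agent.Lib.MP_bae66e_nt.E3.A0a
import Pool.Agent.Lib.MP_bae66e_nt.Mg.G037
import Pool.Agent.Lib.MP_bae66e_nt.Mg.G032
import Pool.Agent.Lib.MP_bae66e_nt.Mg.G003

section

/-!
# Row P3: the long window for one multiplier, second part
-/

set_option autoImplicit false

namespace Pool.Agent.Lib.MP_bae66e_nt.EF

open Finset MeasureTheory Real Filter
open Pool.Agent.E3
open Pool.Agent.Lib.MP_bae66e_nt.AP3 (prI mem_prI)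

/-- The other primes. PROOF. They have `|x - log q| ≥ K L`, so `gsn_tail` and `prime_window_le` (E3/U3b) with `β = 1/(4 L²)`: the sum is at most
`exp (-K²/4) (1/L) C_L/x`; choose `K` large. -/
theorem outside (W : ℕ) (hW : 1 ≤ W) (L ε K₁ : ℝ) (hL : 0 < L) (hε : 0 < ε) : ∃ K : ℝ, 1 ≤ K ∧ K₁ ≤ K ∧
    ∀ (Z : ℕ) (x y : ℝ), 1 ≤ x →
      ∑ q ∈ (prI 0 Z).filter (fun q : ℕ => K * L ≤ |x - Real.log q|), gg L x y (Real.log q) / q
        ≤ ε / ((Nat.totient W : ℝ) * x) := by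
  obtain ⟨C, hC, h⟩ := prime_window_le (1 / (4 * L ^ 2)) (by positivity)
  have hphi : (0 : ℝ) < (Nat.totient W : ℝ) := by exact_mod_cast Nat.totient_pos.2 (by omega)
  obtain ⟨K, hK⟩ : ∃ K : ℝ, K = 1 + |K₁| + 4 * C * (Nat.totient W : ℝ) / (L * ε) := ⟨_, rfl⟩
  have hK3 : 0 ≤ 4 * C * (Nat.totient W : ℝ) / (L * ε) := by positivity
  have hK1 : 1 ≤ K := by
    have := abs_nonneg K₁
    linarith
  have hK2 : K₁ ≤ K := by
    have := le_abs_self K₁
    linarith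
  have hK4 : 4 * C * (Nat.totient W : ℝ) / (L * ε) ≤ K := by
    have := abs_nonneg K₁
    linarith
  refine ⟨K, hK1, hK2, fun Z x y hx => ?_⟩
  have hx0 : 0 < x := by linarith
  have h1 := h Z x hx
  have hs2 : (0 : ℝ) < Real.sqrt 2 := Real.sqrt_pos.2 (by norm_num)
  have hs3 : (Real.sqrt 2) ^ 2 = 2 := Real.sq_sqrt (by norm_num)
  have hconv : ∀ v : ℝ, Real.sqrt 2 * gsn (Real.sqrt 2 * L) (x - v) = 1 / L * gs (1 / (4 * L ^ 2)) x v := by
    intro v
    unfold gsn gs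
    rw [mul_pow, hs3, ← mul_assoc]
    congr 1
    · field_simp
    · congr 2
      ring
  have hterm : ∀ q ∈ (prI 0 Z).filter (fun q : ℕ => K * L ≤ |x - Real.log q|),
      gg L x y (Real.log q) / q ≤ Real.exp (-(K ^ 2 / 4)) * (1 / L) * (gs (1 / (4 * L ^ 2)) x (Real.log q) / q) := by
    intro q hq
    rw [Finset.mem_filter] at hq
    have h2 := (gg_bd L x y (Real.log q) hL).2.1.trans (gsn_tail L K (x - Real.log q) hL (by linarith) hq.2)
    rw [hconv] at h2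
    have h3 := div_le_div_of_nonneg_right h2 (Nat.cast_nonneg (α := ℝ) q)
    refine h3.trans (le_of_eq ?_)
    ring
  refine (Finset.sum_le_sum hterm).trans ?_
  rw [← Finset.mul_sum]
  have h4 : ∑ q ∈ (prI 0 Z).filter (fun q : ℕ => K * L ≤ |x - Real.log q|), gs (1 / (4 * L ^ 2)) x (Real.log q) / q ≤ C / x := by
    refine le_trans (Finset.sum_le_sum_of_subset_of_nonneg (Finset.filter_subset _ _) ?_) h1
    intro q _ _
    unfold gs
    positivity
  have h5 : Real.exp (-(K ^ 2 / 4)) ≤ 4 / K := by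
    rw [Real.exp_neg, ← one_div, div_le_div_iff₀ (Real.exp_pos _) (by linarith)]
    have := Real.add_one_le_exp (K ^ 2 / 4)
    nlinarith
  calc Real.exp (-(K ^ 2 / 4)) * (1 / L) * ∑ q ∈ (prI 0 Z).filter (fun q : ℕ => K * L ≤ |x - Real.log q|),
        gs (1 / (4 * L ^ 2)) x (Real.log q) / q
      ≤ Real.exp (-(K ^ 2 / 4)) * (1 / L) * (C / x) := mul_le_mul_of_nonneg_left h4 (by positivity)
    _ ≤ 4 / K * (1 / L) * (C / x) := by gcongr
    _ ≤ ε / ((Nat.totient W : ℝ) * x) := by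
        rw [div_le_iff₀ (by positivity)] at hK4
        have h6 : 4 / K * (1 / L) * (C / x) = (4 * C / (K * L)) / x := by field_simp
        have h7 : ε / ((Nat.totient W : ℝ) * x) = (ε / (Nat.totient W : ℝ)) / x := by field_simp
        rw [h6, h7]
        apply div_le_div_of_nonneg_right _ hx0.le
        rw [div_le_div_iff₀ (by positivity) hphi]
        nlinarith

private theorem P3_class (W s v : ℕ) (hs : Nat.Coprime s W) (hv : Nat.Coprime v W) : ∃ b : ℤ, IsCoprime b (W : ℤ) ∧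
    ∀ q : ℕ, (s * q ≡ v [MOD W] ↔ (q : ℤ) ≡ b [ZMOD (W : ℤ)]) := by
  obtain ⟨a, c, hac⟩ : IsCoprime (s : ℤ) (W : ℤ) := Nat.isCoprime_iff_coprime.mpr hs
  refine ⟨a * v, IsCoprime.mul_left ⟨s, c, by rw [← hac]; ring⟩ (Nat.isCoprime_iff_coprime.mpr hv), ?_⟩
  intro q
  rw [← Int.natCast_modEq_iff, Int.modEq_iff_dvd, Int.modEq_iff_dvd]
  push_cast
  constructor
  · rintro ⟨k, hk⟩
    refine ⟨a * k - c * q, ?_⟩
    have h1 : a * (v - s * q) = a * (W * k) := by rw [hk]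
    linear_combination h1 + (q : ℤ) * hac
  · rintro ⟨k, hk⟩
    refine ⟨s * k + c * v, ?_⟩
    have h1 : (s : ℤ) * (a * v - q) = s * (W * k) := by rw [hk]
    linear_combination h1 - (v : ℤ) * hac

/-- PROOF. `log (s q) = log s + log q`: the sum is `(1/s) ∑_{q ∈ QS X, q ≡ b} gg L (x - log s) (log Y) (log q)/q` with `s b ≡ v` (`om Y q = exp (-(log Y - log q)²)`). `K` from `outside`, the primes with
`|x - log s - log q| < K L` are in `QS X` for large `X`, `cells`, `gg_tail` (enlarge `K`), `gg_integral` (`4 L ≤ ε/8`), and `x - log s = (1 + o(1)) log X` as `log s ≤ log 2 + (a + 1/2) log log X`. -/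
theorem one_s_asymp (a : ℝ) (W : ℕ) (hW : 1 ≤ W) (ε : ℝ) (hε : 0 < ε) : ∃ L₀ : ℝ, 0 < L₀ ∧ ∀ L : ℝ, 0 < L → L ≤ L₀ →
    ∃ X₀ : ℕ, ∀ X : ℕ, X₀ ≤ X →
    ∀ (Y x : ℝ) (s v : ℕ), |x - Real.log X| ≤ 1 → 1 ≤ s → (s : ℝ) ≤ 2 * (Real.log X) ^ (a + 1 / 2) →
      Nat.Coprime s W → Nat.Coprime v W →
      |∑ q ∈ (QS X).filter (fun q => s * q ≡ v [MOD W]), om Y q / (s * q) * gsn L (x - Real.log (s * q))
        - Real.sqrt (2 * π) * Real.exp (-(x - Real.log s - Real.log Y) ^ 2) / (s * ((Nat.totient W : ℝ) * Real.log X))|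
        ≤ ε / (s * ((Nat.totient W : ℝ) * Real.log X)) := by
  refine ⟨min 1 (ε / 32), lt_min one_pos (by positivity), fun L hL hL0 => ?_⟩
  have hL1 : L ≤ 1 := hL0.trans (min_le_left _ _)
  have hL2 : 4 * L ≤ ε / 8 := by
    have := hL0.trans (min_le_right _ _)
    linarith
  obtain ⟨K, hK1, hK2, hout⟩ := outside W hW L (ε / 8) (128 / ε) hL (by positivity)
  obtain ⟨z₀, hz0, hcells⟩ := cells W hW L K (ε / 8) hL hL1 hK1 (by positivity)
  obtain ⟨η, hη⟩ : ∃ η : ℝ, η = min (1 / 4) (ε / 48) := ⟨_, rfl⟩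
  have hη0 : 0 < η := by rw [hη]; exact lt_min (by norm_num) (by positivity)
  have hη1 : η ≤ 1 / 4 := by rw [hη]; exact min_le_left _ _
  have hη2 : η ≤ ε / 48 := by rw [hη]; exact min_le_right _ _
  obtain ⟨X₁, hpow⟩ := pow_compare (a + 1 / 2) 0 2 (η / 2) (by positivity)
  have hLt : Tendsto (fun X : ℕ => Real.log X) atTop atTop :=
    Real.tendsto_log_atTop.comp tendsto_natCast_atTop_atTop
  obtain ⟨X₂, hX₂⟩ := eventually_atTop.mp (hLt.eventually_ge_atTop (2 / η + 4 * K * L + 2 * z₀ + 8))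
  refine ⟨max X₁ (max X₂ 8), fun X hX Y x s v hx hs hsX hsW hvW => ?_⟩
  have hX1 : X₁ ≤ X := (le_max_left _ _).trans hX
  have hX2 : X₂ ≤ X := ((le_max_left _ _).trans (le_max_right _ _)).trans hX
  have hX8 : 8 ≤ X := ((le_max_right _ _).trans (le_max_right _ _)).trans hX
  have hlog := hX₂ X hX2
  have hp := (hpow X hX1).2
  rw [Real.rpow_zero, mul_one] at hp
  obtain ⟨ℓ, hℓ⟩ : ∃ ℓ : ℝ, ℓ = Real.log X := ⟨_, rfl⟩
  rw [← hℓ] at hlog hx hsX hp ⊢
  have hKL0 : 0 < K * L := by positivity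
  have h2η : 0 < 2 / η := by positivity
  have hℓ8 : 8 ≤ ℓ := by linarith
  have hℓ0 : 0 < ℓ := by linarith
  have hX0 : (0 : ℝ) < X := by exact_mod_cast (by omega : 0 < X)
  have hexpℓ : Real.exp ℓ = X := by rw [hℓ, Real.exp_log hX0]
  have hs1 : (1 : ℝ) ≤ s := by exact_mod_cast hs
  have hs0 : (0 : ℝ) < s := by linarith
  have hlogs0 : 0 ≤ Real.log s := Real.log_nonneg hs1
  have hlogs : Real.log s ≤ η / 2 * ℓ := by
    have h1 : (s : ℝ) ≤ (X : ℝ) ^ (η / 2) := hsX.trans hp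
    have h2 := Real.log_le_log hs0 h1
    rw [Real.log_rpow hX0, ← hℓ] at h2
    exact h2
  have hone : 1 ≤ η / 2 * ℓ := by
    have h1 : 2 / η ≤ ℓ := by linarith
    rw [div_le_iff₀ hη0] at h1
    linarith
  have hx' := abs_le.mp hx
  obtain ⟨x₁, hx₁⟩ : ∃ x₁ : ℝ, x₁ = x - Real.log s := ⟨_, rfl⟩
  have hdx : |x₁ - ℓ| ≤ η * ℓ := by
    rw [abs_le]
    constructor
    · linarith [hx'.1]
    · linarith [hx'.2]
  have hdx' := abs_le.mp hdx
  have hx1low : 3 / 4 * ℓ ≤ x₁ := by nlinarith [hdx'.1]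
  have hx1up : x₁ ≤ 5 / 4 * ℓ := by nlinarith [hdx'.2]
  have hx1z : z₀ ≤ x₁ := by linarith
  have hx11 : 1 ≤ x₁ := by linarith
  have hx10 : 0 < x₁ := by linarith
  have hKL : K * L ≤ ℓ / 4 := by linarith
  obtain ⟨b, hb, hbiff⟩ := P3_class W s v hsW hvW
  obtain ⟨y, hy⟩ : ∃ y : ℝ, y = Real.log Y := ⟨_, rfl⟩
  have hφ : (0 : ℝ) < Nat.totient W := by exact_mod_cast Nat.totient_pos.mpr hW
  obtain ⟨φ, hφd⟩ : ∃ φ : ℝ, φ = (Nat.totient W : ℝ) := ⟨_, rfl⟩
  have hc := hcells x₁ y hx1z b hb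
  have ho := hout (X ^ 2) x₁ y hx11
  have hgt := gg_tail L K x₁ y hL (by linarith)
  have hgi := (gg_integral L x₁ y hL).2
  rw [← hφd] at hc ho hφ ⊢
  -- the filter
  have hfil : (QS X).filter (fun q => s * q ≡ v [MOD W]) = (QS X).filter (fun q : ℕ => (q : ℤ) ≡ b [ZMOD (W : ℤ)]) :=
    Finset.filter_congr fun q _ => hbiff q
  rw [hfil]
  set QB := (QS X).filter (fun q : ℕ => (q : ℤ) ≡ b [ZMOD (W : ℤ)]) with hQB
  have hterm : ∀ q ∈ QB, om Y q / (s * q) * gsn L (x - Real.log (s * q)) = 1 / s * (gg L x₁ y (Real.log q) / q) := by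
    intro q hq
    rw [hQB, Finset.mem_filter] at hq
    have hq0 : (0 : ℝ) < q := by
      have := (mem_prI.mp hq.1).2.pos
      exact_mod_cast this
    unfold om gs gg
    rw [Real.log_mul hs0.ne' hq0.ne', hx₁, hy, one_mul, show (Real.log Y - Real.log q) ^ 2 = (Real.log q - Real.log Y) ^ 2 by ring,
      show x - (Real.log s + Real.log q) = x - Real.log s - Real.log q by ring]
    field_simp
  rw [Finset.sum_congr rfl hterm, ← Finset.mul_sum]
  -- split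
  set w : Finset ℕ := (prI ⌊Real.exp (x₁ - K * L)⌋₊ ⌊Real.exp (x₁ + K * L)⌋₊).filter (fun q : ℕ => (q : ℤ) ≡ b [ZMOD (W : ℤ)]) with hw
  have hsub : w ⊆ QB := by
    intro q hq
    rw [hw, Finset.mem_filter] at hq
    have hq1 := mem_prI.mp hq.1
    rw [hQB, Finset.mem_filter]
    refine ⟨mem_prI.mpr ⟨⟨?_, ?_⟩, hq1.2⟩, hq.2⟩
    · refine lt_of_le_of_lt ?_ hq1.1.1
      apply Nat.le_floor
      refine (Real.nat_sqrt_le_real_sqrt).trans ?_
      rw [Real.sqrt_eq_rpow, ← hexpℓ, ← Real.exp_mul]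
      apply Real.exp_le_exp.2
      linarith
    · refine hq1.1.2.trans ?_
      apply Nat.floor_le_of_le
      push_cast
      rw [← hexpℓ, ← Real.exp_nat_mul]
      apply Real.exp_le_exp.2
      push_cast
      linarith
  have hnn : ∀ q : ℕ, 0 ≤ gg L x₁ y (Real.log q) / q := fun q =>
    div_nonneg (gg_bd L x₁ y _ hL).1 (Nat.cast_nonneg q)
  have hrest : QB \ w ⊆ (prI 0 (X ^ 2)).filter (fun q : ℕ => K * L ≤ |x₁ - Real.log q|) := by
    intro q hq
    rw [Finset.mem_sdiff] at hq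
    have hq1 : q ∈ QS X ∧ (q : ℤ) ≡ b [ZMOD (W : ℤ)] := by
      have := hq.1
      rw [hQB, Finset.mem_filter] at this
      exact this
    have hq2 := mem_prI.mp hq1.1
    have hq0 : (0 : ℝ) < q := by exact_mod_cast hq2.2.pos
    rw [Finset.mem_filter]
    refine ⟨mem_prI.mpr ⟨⟨hq2.2.pos, hq2.1.2⟩, hq2.2⟩, ?_⟩
    have hnw : ¬ (⌊Real.exp (x₁ - K * L)⌋₊ < q ∧ q ≤ ⌊Real.exp (x₁ + K * L)⌋₊) := by
      intro hcon
      apply hq.2
      rw [hw, Finset.mem_filter]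
      exact ⟨mem_prI.mpr ⟨hcon, hq2.2⟩, hq1.2⟩
    rw [not_and_or, not_lt, not_le] at hnw
    rcases hnw with h | h
    · have h1 : (q : ℝ) ≤ Real.exp (x₁ - K * L) := by
        have h2 : (q : ℝ) ≤ (⌊Real.exp (x₁ - K * L)⌋₊ : ℝ) := by exact_mod_cast h
        exact h2.trans (Nat.floor_le (Real.exp_pos _).le)
      have h2 := (Real.log_le_iff_le_exp hq0).2 h1
      exact le_trans (by linarith) (le_abs_self _)
    · have h1 : Real.exp (x₁ + K * L) ≤ q := by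
        have h2 := Nat.lt_floor_add_one (Real.exp (x₁ + K * L))
        have h3 : (⌊Real.exp (x₁ + K * L)⌋₊ : ℝ) + 1 ≤ q := by exact_mod_cast h
        linarith
      have h2 := (Real.le_log_iff_exp_le hq0).2 h1
      rw [abs_sub_comm]
      exact le_trans (by linarith) (le_abs_self _)
  obtain ⟨S, hS⟩ : ∃ S : ℝ, S = ∑ q ∈ QB, gg L x₁ y (Real.log q) / q := ⟨_, rfl⟩
  obtain ⟨Sw, hSw⟩ : ∃ S : ℝ, S = ∑ q ∈ w, gg L x₁ y (Real.log q) / q := ⟨_, rfl⟩
  obtain ⟨Iw, hIw⟩ : ∃ I : ℝ, I = ∫ u in Set.Ioc (x₁ - K * L) (x₁ + K * L), gg L x₁ y u := ⟨_, rfl⟩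
  obtain ⟨I, hI⟩ : ∃ I : ℝ, I = ∫ u : ℝ, gg L x₁ y u := ⟨_, rfl⟩
  have hsplit : S = Sw + ∑ q ∈ QB \ w, gg L x₁ y (Real.log q) / q := by
    rw [hS, hSw, add_comm, Finset.sum_sdiff hsub]
  have hr0 : 0 ≤ ∑ q ∈ QB \ w, gg L x₁ y (Real.log q) / q := Finset.sum_nonneg fun q _ => hnn q
  have hr1 : ∑ q ∈ QB \ w, gg L x₁ y (Real.log q) / q ≤ ε / 8 / (φ * x₁) :=
    (Finset.sum_le_sum_of_subset_of_nonneg hrest fun q _ _ => hnn q).trans ho
  rw [← hS]
  rw [← hSw, ← hIw] at hc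
  rw [← hI, ← hIw] at hgt
  rw [← hI] at hgi
  -- sizes
  have hIw0 : 0 ≤ Iw := by rw [hIw]; exact integral_nonneg fun u => (gg_bd L x₁ y u hL).1
  have hIw1 : Iw ≤ 3 := by
    rw [hIw]
    have h1 := gsn_integral' L x₁ hL
    refine (setIntegral_le_integral (gg_integrable L x₁ y hL) (Filter.Eventually.of_forall fun u => (gg_bd L x₁ y u hL).1)).trans ?_
    refine (integral_mono (gg_integrable L x₁ y hL) h1.1 (fun u => (gg_bd L x₁ y u hL).2.1)).trans ?_
    rw [h1.2, Real.sqrt_le_left (by norm_num)]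
    have := Real.pi_lt_d4
    linarith
  have hK3 : 4 * Real.exp (-(K ^ 2 / 4)) ≤ ε / 8 := by
    have h5 : Real.exp (-(K ^ 2 / 4)) ≤ 4 / K := by
      rw [Real.exp_neg, ← one_div, div_le_div_iff₀ (Real.exp_pos _) (by linarith)]
      have := Real.add_one_le_exp (K ^ 2 / 4)
      nlinarith
    have h6 : 4 / K ≤ ε / 32 := by
      rw [div_le_div_iff₀ (by linarith) (by norm_num)]
      rw [div_le_iff₀ hε] at hK2
      linarith
    linarith
  obtain ⟨t, ht⟩ : ∃ t : ℝ, t = 1 / (φ * ℓ) := ⟨_, rfl⟩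
  have ht0 : 0 < t := by rw [ht]; positivity
  obtain ⟨t₁, ht₁⟩ : ∃ t : ℝ, t = 1 / (φ * x₁) := ⟨_, rfl⟩
  have ht10 : 0 < t₁ := by rw [ht₁]; positivity
  have ht1t : t₁ ≤ 2 * t := by
    rw [ht₁, ht, mul_one_div, div_le_div_iff₀ (by positivity) (by positivity)]
    nlinarith
  have htd : |t₁ - t| ≤ 2 * η * t := by
    have e1 : t₁ - t = (ℓ - x₁) / x₁ * t := by
      rw [ht₁, ht]
      field_simp
    rw [e1, abs_mul, abs_of_pos ht0]
    apply mul_le_mul_of_nonneg_right _ ht0.le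
    rw [abs_div, abs_of_pos hx10, div_le_iff₀ hx10, abs_sub_comm]
    nlinarith
  have c1 : |Sw - t₁ * Iw| ≤ ε / 8 * t₁ := by
    rw [ht₁]
    refine hc.trans (le_of_eq ?_)
    ring
  have c2 : ε / 8 / (φ * x₁) = ε / 8 * t₁ := by rw [ht₁]; ring
  rw [c2] at hr1
  have key : |S - t * (Real.sqrt (2 * π) * Real.exp (-(x₁ - y) ^ 2))| ≤ ε * t := by
    obtain ⟨E, hE⟩ : ∃ E : ℝ, E = Real.sqrt (2 * π) * Real.exp (-(x₁ - y) ^ 2) := ⟨_, rfl⟩
    rw [← hE] at hgi ⊢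
    have e1 : S - t * E = (Sw - t₁ * Iw) + (S - Sw) + (t₁ - t) * Iw + t * (Iw - I) + t * (I - E) := by ring
    have e2 : |(t₁ - t) * Iw| ≤ 2 * η * t * 3 := by
      rw [abs_mul, abs_of_nonneg hIw0]
      exact mul_le_mul htd hIw1 hIw0 (by positivity)
    have e3 : |t * (Iw - I)| ≤ t * (ε / 8) := by
      rw [abs_mul, abs_of_pos ht0, abs_sub_comm]
      exact mul_le_mul_of_nonneg_left (hgt.trans hK3) ht0.le
    have e4 : |t * (I - E)| ≤ t * (ε / 8) := by
      rw [abs_mul, abs_of_pos ht0]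
      exact mul_le_mul_of_nonneg_left (hgi.trans hL2) ht0.le
    have e5 : |S - Sw| ≤ ε / 8 * t₁ := by
      rw [hsplit, add_sub_cancel_left, abs_of_nonneg hr0]
      exact hr1
    rw [e1]
    have f1 := abs_add_le ((Sw - t₁ * Iw) + (S - Sw) + (t₁ - t) * Iw + t * (Iw - I)) (t * (I - E))
    have f2 := abs_add_le ((Sw - t₁ * Iw) + (S - Sw) + (t₁ - t) * Iw) (t * (Iw - I))
    have f3 := abs_add_le ((Sw - t₁ * Iw) + (S - Sw)) ((t₁ - t) * Iw)
    have f4 := abs_add_le (Sw - t₁ * Iw) (S - Sw)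
    have g1 : ε / 8 * t₁ ≤ ε / 8 * (2 * t) := mul_le_mul_of_nonneg_left ht1t (by positivity)
    have g2 : 2 * η * t * 3 ≤ ε / 8 * t := by nlinarith
    linarith
  have fin1 : 1 / (s : ℝ) * S - Real.sqrt (2 * π) * Real.exp (-(x - Real.log s - Real.log Y) ^ 2) / (s * (φ * ℓ)) =
      1 / s * (S - t * (Real.sqrt (2 * π) * Real.exp (-(x₁ - y) ^ 2))) := by
    rw [ht, hx₁, hy]
    field_simp
  rw [fin1, abs_mul, abs_of_pos (by positivity : 0 < 1 / (s : ℝ))]
  calc 1 / (s : ℝ) * |S - t * (Real.sqrt (2 * π) * Real.exp (-(x₁ - y) ^ 2))| ≤ 1 / s * (ε * t) :=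
        mul_le_mul_of_nonneg_left key (by positivity)
    _ = ε / (s * (φ * ℓ)) := by
        rw [ht]
        field_simp

end Pool.Agent.Lib.MP_bae66e_nt.EF
end

section

/-!
# Row P4: the long windows
-/

set_option autoImplicit false

namespace Pool.Agent.Lib.MP_bae66e_nt.EF

open Finset MeasureTheory Real
open Pool.Agent.E3
open Pool.Agent.Lib.MP_bae66e_nt.E2 (YR FR PH)
open Pool.Agent.Lib.MP_bae66e_nt.LL (fP gW)
open Pool.Agent.Lib.MP_bae66e_nt.AC (Sg VV)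
open Pool.Agent.Lib.MP_bae66e_nt.AP3 (prI mem_prI)

/-- PROOF. `one_s_asymp` for each `s ∈ IS R` (a prime `> R ≥ W`, so coprime to `W`; `X/s ≤ YR ≤ 4X/s`), times `α s ∈ [0, 1]`; `∑_{IS R} 1/s ≤ C/log R` (`recip_IS`, E3/MVp); use it with `ε/C`. -/
theorem long_a (a : ℝ) (ha : 3 ≤ a) : LONGA a := by
  obtain ⟨C, hC, hrec⟩ := recip_IS
  have hC0 : 0 < C := by linarith
  intro W hW ε hε
  obtain ⟨L₀, hL₀, hone⟩ := one_s_asymp a W hW (ε / C) (by positivity)
  refine ⟨L₀, hL₀, fun L hL hLL => ?_⟩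
  obtain ⟨X₁, h1⟩ := hone L hL hLL
  obtain ⟨X₂, h2⟩ := parA a ((W : ℝ) + 2) 1 ha one_pos
  refine ⟨max X₁ X₂, fun X hX R hR α hα v hv x hx => ?_⟩
  have hX1 : X₁ ≤ X := (le_max_left _ _).trans hX
  have hX2 : X₂ ≤ X := (le_max_right _ _).trans hX
  obtain ⟨-, -, p3, -, p5, p6, -, -, p9, -⟩ := h2 X hX2 R hR
  have hlogX : 0 < Real.log X := by linarith
  have hlogR : 0 < Real.log R := by linarith
  have hphi : 0 < (Nat.totient W : ℝ) := by exact_mod_cast Nat.totient_pos.mpr hW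
  have hmem : ∀ s ∈ IS R, Nat.Prime s ∧ R < s ∧ s ≤ 2 * R := by
    intro s hs
    obtain ⟨hs1, hs2⟩ := mem_prI.mp hs
    exact ⟨hs2, hs1.1, hs1.2⟩
  have hterm : ∀ s ∈ IS R,
      |α s * ∑ q ∈ (QS X).filter (fun q => s * q ≡ v [MOD W]), om (YR R X) q / (s * q) * gsn L (x - Real.log (s * q))
        - Real.sqrt (2 * π) / (Nat.totient W * Real.log X) *
          (α s / s * Real.exp (-(x - Real.log s - Real.log (YR R X)) ^ 2))|
        ≤ ε / C / ((Nat.totient W : ℝ) * Real.log X) * (1 / (s : ℝ)) := by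
    intro s hs
    obtain ⟨g1, g2, g3⟩ := hmem s hs
    have hs0 : (0 : ℝ) < s := by exact_mod_cast g1.pos
    have hsW : Nat.Coprime s W := by
      rw [Nat.Prime.coprime_iff_not_dvd g1]
      intro hd
      have hle := Nat.le_of_dvd (by omega) hd
      have : (W : ℝ) < s := by
        have h5 : (R : ℝ) < s := by exact_mod_cast g2
        linarith
      have hle' : (s : ℝ) ≤ W := by exact_mod_cast hle
      linarith
    have hsX : (s : ℝ) ≤ 2 * (Real.log X) ^ (a + 1 / 2) := by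
      have h5 : (s : ℝ) ≤ 2 * R := by exact_mod_cast g3
      have := hR.up
      linarith
    have h3 := h1 X hX1 (YR R X) x s v hx g1.one_le hsX hsW hv
    have hα0 := (hα s).1
    have hα1 := (hα s).2
    have e : α s * ∑ q ∈ (QS X).filter (fun q => s * q ≡ v [MOD W]), om (YR R X) q / (s * q) * gsn L (x - Real.log (s * q))
        - Real.sqrt (2 * π) / (Nat.totient W * Real.log X) *
          (α s / s * Real.exp (-(x - Real.log s - Real.log (YR R X)) ^ 2)) =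
        α s * (∑ q ∈ (QS X).filter (fun q => s * q ≡ v [MOD W]), om (YR R X) q / (s * q) * gsn L (x - Real.log (s * q))
        - Real.sqrt (2 * π) * Real.exp (-(x - Real.log s - Real.log (YR R X)) ^ 2) /
          (s * ((Nat.totient W : ℝ) * Real.log X))) := by
      field_simp
    rw [e, abs_mul, abs_of_nonneg hα0]
    have e2 : ε / C / ((Nat.totient W : ℝ) * Real.log X) * (1 / (s : ℝ)) =
        ε / C / (s * ((Nat.totient W : ℝ) * Real.log X)) := by field_simp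
    rw [e2]
    exact (mul_le_of_le_one_left (abs_nonneg _) hα1).trans h3
  have hsum : XVA α W v R X L x - Real.sqrt (2 * π) / (Nat.totient W * Real.log X) * AA α R X x =
      ∑ s ∈ IS R, (α s * ∑ q ∈ (QS X).filter (fun q => s * q ≡ v [MOD W]), om (YR R X) q / (s * q) * gsn L (x - Real.log (s * q))
        - Real.sqrt (2 * π) / (Nat.totient W * Real.log X) *
          (α s / s * Real.exp (-(x - Real.log s - Real.log (YR R X)) ^ 2))) := by
    unfold XVA AA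
    rw [Finset.sum_sub_distrib, Finset.mul_sum]
    congr 1
    refine Finset.sum_congr rfl fun s _ => ?_
    rw [Finset.mul_sum]
  rw [hsum]
  refine (Finset.abs_sum_le_sum_abs _ _).trans ((Finset.sum_le_sum hterm).trans ?_)
  rw [← Finset.mul_sum]
  have hR2 : 2 ≤ R := by omega
  have h4 := (hrec R hR2).1
  calc ε / C / ((Nat.totient W : ℝ) * Real.log X) * ∑ s ∈ IS R, 1 / (s : ℝ)
      ≤ ε / C / ((Nat.totient W : ℝ) * Real.log X) * (C / Real.log R) :=
        mul_le_mul_of_nonneg_left h4 (by positivity)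
    _ = ε * FR R X / Nat.totient W := by
        unfold FR
        field_simp

/-- PROOF. `0 ≤ α ≤ 1`, `0 < exp (- u²) ≤ 1`, and `exp (- u²)` is Lipschitz with the constant `1`; `recip_IS`. -/
theorem AA_bd : ∃ C : ℝ, 1 ≤ C ∧ ∀ (R X : ℕ) (α : ℕ → ℝ), 2 ≤ R → Wt α →
    (∀ x, 0 ≤ AA α R X x ∧ AA α R X x ≤ C / Real.log R) ∧
    ∀ x y, |AA α R X x - AA α R X y| ≤ C / Real.log R * |x - y| := by
  obtain ⟨C, hC, hrec⟩ := recip_IS
  refine ⟨C, hC, fun R X α hR hα => ⟨fun x => ⟨?_, ?_⟩, fun x y => ?_⟩⟩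
  · unfold AA
    refine Finset.sum_nonneg fun s _ => ?_
    have := (hα s).1
    positivity
  · refine le_trans ?_ (hrec R hR).1
    unfold AA
    refine Finset.sum_le_sum fun s hs => ?_
    have h1 := (hα s).1
    have h2 := (hα s).2
    have h3 : Real.exp (-(x - Real.log s - Real.log (YR R X)) ^ 2) ≤ 1 := by
      rw [Real.exp_le_one_iff]
      have := sq_nonneg (x - Real.log s - Real.log (YR R X))
      linarith
    have h4 : 0 ≤ α s / s := by positivity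
    calc α s / s * Real.exp (-(x - Real.log s - Real.log (YR R X)) ^ 2) ≤ α s / s * 1 :=
          mul_le_mul_of_nonneg_left h3 h4
      _ = α s / s := mul_one _
      _ ≤ 1 / s := div_le_div_of_nonneg_right h2 (by positivity)
  · have e : AA α R X x - AA α R X y = ∑ s ∈ IS R, α s / s *
        (Real.exp (-(x - Real.log s - Real.log (YR R X)) ^ 2) -
          Real.exp (-(y - Real.log s - Real.log (YR R X)) ^ 2)) := by
      unfold AA
      rw [← Finset.sum_sub_distrib]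
      exact Finset.sum_congr rfl fun s _ => by ring
    rw [e]
    calc |∑ s ∈ IS R, α s / s *
        (Real.exp (-(x - Real.log s - Real.log (YR R X)) ^ 2) -
          Real.exp (-(y - Real.log s - Real.log (YR R X)) ^ 2))|
        ≤ ∑ s ∈ IS R, |α s / s *
        (Real.exp (-(x - Real.log s - Real.log (YR R X)) ^ 2) -
          Real.exp (-(y - Real.log s - Real.log (YR R X)) ^ 2))| := Finset.abs_sum_le_sum_abs _ _
      _ ≤ ∑ s ∈ IS R, 1 / (s : ℝ) * |x - y| := by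
          refine Finset.sum_le_sum fun s hs => ?_
          have h1 := (hα s).1
          have h2 := (hα s).2
          have h4 : 0 ≤ α s / s := by positivity
          rw [abs_mul, abs_of_nonneg h4]
          have h5 := exp_sq_lip (x - Real.log s - Real.log (YR R X)) (y - Real.log s - Real.log (YR R X))
          rw [show x - Real.log s - Real.log (YR R X) - (y - Real.log s - Real.log (YR R X)) = x - y by ring] at h5
          exact mul_le_mul (div_le_div_of_nonneg_right h2 (by positivity)) h5 (abs_nonneg _) (by positivity)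
      _ = (∑ s ∈ IS R, 1 / (s : ℝ)) * |x - y| := by rw [Finset.sum_mul]
      _ ≤ C / Real.log R * |x - y| := mul_le_mul_of_nonneg_right (hrec R hR).1 (abs_nonneg _)

end Pool.Agent.Lib.MP_bae66e_nt.EF
end

section

/-!
# Row U1: the weights
-/

set_option autoImplicit false

namespace Pool.Agent.Lib.MP_bae66e_nt.EF

open Finset MeasureTheory Real
open Pool.Agent.E3
open Pool.Agent.Lib.MP_bae66e_nt.E2 (YR FR PH)
open Pool.Agent.Lib.MP_bae66e_nt.LL (fP gW)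
open Pool.Agent.Lib.MP_bae66e_nt.AC (Sg VV)
open Pool.Agent.Lib.MP_bae66e_nt.AP3 (prI mem_prI)

/-- `β(s) = α(s) exp ((log (s/R))²)/2` -/
noncomputable def bet (α : ℕ → ℝ) (R s : ℕ) : ℝ :=
  if s ∈ IS R then α s * Real.exp ((Real.log ((s : ℝ) / R)) ^ 2) / 2 else 0

theorem U1_IS {R s : ℕ} (h : s ∈ IS R) : R < s ∧ s ≤ 2 * R ∧ s.Prime := by
  unfold IS at h
  rw [mem_prI] at h
  exact ⟨h.1.1, h.1.2, h.2⟩

/-- `0 ≤ log (s/R) ≤ log 2` -/
theorem U1_b {R s : ℕ} (h : s ∈ IS R) :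
    0 ≤ Real.log ((s : ℝ) / R) ∧ Real.log ((s : ℝ) / R) ≤ Real.log 2 := by
  obtain ⟨h1, h2, -⟩ := U1_IS h
  have hR : 0 < R := by omega
  have hR' : (0 : ℝ) < R := by exact_mod_cast hR
  have h1' : (R : ℝ) ≤ s := by exact_mod_cast h1.le
  have h2' : (s : ℝ) ≤ 2 * R := by exact_mod_cast h2
  constructor
  · apply Real.log_nonneg
    rw [le_div_iff₀ hR']
    linarith
  · apply Real.log_le_log
    · exact div_pos (by linarith) hR'
    · rw [div_le_iff₀ hR']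
      exact h2'

/-- PROOF. For `s ∈ (R, 2R]`: `0 < log (s/R) ≤ log 2`, `exp ((log 2)²) ≤ 2`. -/
theorem bet_Wt (α : ℕ → ℝ) (hα : Wt α) (R : ℕ) : Wt (bet α R) := by
  intro s
  unfold bet
  split_ifs with h
  · obtain ⟨hb0, hb1⟩ := U1_b h
    obtain ⟨ha0, ha1⟩ := hα s
    have hl : Real.log 2 ≤ 1 := by have := Real.log_two_lt_d9; linarith
    have hl0 : 0 ≤ Real.log 2 := Real.log_nonneg (by norm_num)
    have he : Real.exp ((Real.log ((s : ℝ) / R)) ^ 2) ≤ 2 := by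
      calc Real.exp ((Real.log ((s : ℝ) / R)) ^ 2) ≤ Real.exp (Real.log 2) := by
            apply Real.exp_le_exp.mpr
            nlinarith
        _ = 2 := Real.exp_log (by norm_num)
    have hp := Real.exp_pos ((Real.log ((s : ℝ) / R)) ^ 2)
    constructor
    · positivity
    · have : α s * Real.exp ((Real.log ((s : ℝ) / R)) ^ 2) ≤ 1 * 2 := mul_le_mul ha1 he hp.le (by norm_num)
      linarith
  · exact ⟨le_refl _, zero_le_one⟩

/-- PROOF. `(b - e)² = b² - 2 b e + e²`: `exp (b²) exp (-(e - b)²) = exp (2 b e - e²)` with `0 ≤ b ≤ log 2`, `|e| ≤ κ ≤ 1/10`: the exponent is at most `2.5 κ ≤ 1/4` in absolute value. -/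
theorem weight_near (b e κ : ℝ) (hb0 : 0 ≤ b) (hb : b ≤ Real.log 2) (he : |e| ≤ κ) (hκ : κ ≤ 1 / 10) :
    |Real.exp (b ^ 2) * Real.exp (-(e - b) ^ 2) - 1| ≤ 4 * κ := by
  have hl : Real.log 2 ≤ 7 / 10 := by have := Real.log_two_lt_d9; linarith
  have hκ0 : 0 ≤ κ := (abs_nonneg e).trans he
  have hb7 : b ≤ 7 / 10 := hb.trans hl
  have h1 : |2 * b * e - e ^ 2| ≤ 3 / 2 * κ := by
    have h2 : |2 * b * e| ≤ 7 / 5 * κ := by
      rw [abs_mul, abs_of_nonneg (by linarith : (0 : ℝ) ≤ 2 * b)]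
      exact mul_le_mul (by linarith) he (abs_nonneg _) (by norm_num)
    have h3 : |e ^ 2| ≤ 1 / 10 * κ := by
      rw [abs_of_nonneg (sq_nonneg e), ← sq_abs]
      nlinarith [abs_nonneg e]
    calc |2 * b * e - e ^ 2| ≤ |2 * b * e| + |e ^ 2| := abs_sub _ _
      _ ≤ 7 / 5 * κ + 1 / 10 * κ := add_le_add h2 h3
      _ = 3 / 2 * κ := by ring
  have h4 : Real.exp (b ^ 2) * Real.exp (-(e - b) ^ 2) = Real.exp (2 * b * e - e ^ 2) := by
    rw [← Real.exp_add]
    congr 1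
    ring
  rw [h4]
  have h5 : |2 * b * e - e ^ 2| ≤ 1 := by linarith
  have h6 := Real.abs_exp_sub_one_le h5
  linarith

/-- PROOF. `log m - log s - log YR = log (m/X) - log (s/R)`, `0 ≤ log (m/X) ≤ κ`; `weight_near`, sum over `s`. -/
theorem AA_bet (α : ℕ → ℝ) (hα : Wt α) (R X m : ℕ) (κ : ℝ) (hR : 1 ≤ R) (hX : 1 ≤ X) (hκ : κ ≤ 1 / 10) (h1 : X ≤ m) (h2 : (m : ℝ) ≤ (1 + κ) * X) :
    |2 * AA (bet α R) R X (Real.log m) - ∑ s ∈ IS R, α s / s| ≤ 4 * κ * ∑ s ∈ IS R, α s / s := by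
  have hX' : (1 : ℝ) ≤ X := by exact_mod_cast hX
  have hX0 : (0 : ℝ) < X := by linarith
  have hR' : (1 : ℝ) ≤ R := by exact_mod_cast hR
  have hR0 : (0 : ℝ) < R := by linarith
  have hm : (X : ℝ) ≤ m := by exact_mod_cast h1
  have hm0 : (0 : ℝ) < m := by linarith
  have hκ0 : 0 ≤ κ := by
    by_contra hcon
    push Not at hcon
    nlinarith
  have he0 : 0 ≤ Real.log ((m : ℝ) / X) := Real.log_nonneg (by rw [le_div_iff₀ hX0]; linarith)
  have he1 : Real.log ((m : ℝ) / X) ≤ κ := by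
    have h3 : (m : ℝ) / X ≤ 1 + κ := by rw [div_le_iff₀ hX0]; exact h2
    have h4 : Real.log ((m : ℝ) / X) ≤ (m : ℝ) / X - 1 := Real.log_le_sub_one_of_pos (div_pos hm0 hX0)
    linarith
  have heκ : |Real.log ((m : ℝ) / X)| ≤ κ := by rw [abs_of_nonneg he0]; exact he1
  unfold AA
  rw [Finset.mul_sum, ← Finset.sum_sub_distrib, Finset.mul_sum]
  refine (Finset.abs_sum_le_sum_abs _ _).trans (Finset.sum_le_sum fun s hs => ?_)
  obtain ⟨h1s, h2s, hps⟩ := U1_IS hs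
  obtain ⟨hb0, hb1⟩ := U1_b hs
  obtain ⟨ha0, ha1⟩ := hα s
  have hs0 : (0 : ℝ) < s := by exact_mod_cast hps.pos
  have hexp : Real.log m - Real.log s - Real.log (YR R X) = Real.log ((m : ℝ) / X) - Real.log ((s : ℝ) / R) := by
    unfold YR
    rw [Real.log_div hX0.ne' hR0.ne', Real.log_div hm0.ne' hX0.ne', Real.log_div hs0.ne' hR0.ne']
    ring
  have hw := weight_near (Real.log ((s : ℝ) / R)) (Real.log ((m : ℝ) / X)) κ hb0 hb1 heκ hκ
  have hdiv : 0 ≤ α s / s := div_nonneg ha0 hs0.le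
  rw [hexp]
  unfold bet
  rw [if_pos hs]
  have heq : 2 * (α s * Real.exp (Real.log ((s : ℝ) / R) ^ 2) / 2 / s * Real.exp (-(Real.log ((m : ℝ) / X) - Real.log ((s : ℝ) / R)) ^ 2)) - α s / s
      = α s / s * (Real.exp (Real.log ((s : ℝ) / R) ^ 2) * Real.exp (-(Real.log ((m : ℝ) / X) - Real.log ((s : ℝ) / R)) ^ 2) - 1) := by
    ring
  rw [heq, abs_mul, abs_of_nonneg hdiv]
  calc α s / s * _ ≤ α s / s * (4 * κ) := mul_le_mul_of_nonneg_left hw hdiv
    _ = 4 * κ * (α s / s) := by ring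

/-- the inner sum over `q` -/
theorem U1_q (α : ℕ → ℝ) (R X m s t : ℕ) (κ : ℝ) (hR : 1 ≤ R) (h1 : X ≤ m) (h2 : (m : ℝ) ≤ (1 + κ) * X) (hκ : κ ≤ 1 / 10)
    (hq : 2 * R * (Nat.sqrt X + 1) + HR R ≤ X) (hX : 4 ≤ X) (hs : s ∈ IS R) (ht : t ≤ HR R) :
    ∑ q ∈ QS X, (if s * q = m - t then bet α R s * om (YR R X) q else 0) =
      if s ∣ m - t ∧ ((m - t) / s).Prime then bet α R s * om (YR R X) ((m - t) / s) else 0 := by
  obtain ⟨h1s, h2s, hps⟩ := U1_IS hs
  have hs0 : 0 < s := hps.pos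
  split_ifs with h
  · obtain ⟨hd, hp⟩ := h
    have hmem : (m - t) / s ∈ QS X := by
      unfold QS
      rw [mem_prI]
      refine ⟨⟨?_, ?_⟩, hp⟩
      · have h3 : s * (Nat.sqrt X + 1) ≤ m - t := by
          have h4 : s * (Nat.sqrt X + 1) ≤ 2 * R * (Nat.sqrt X + 1) := Nat.mul_le_mul_right _ h2s
          omega
        have h5 : Nat.sqrt X + 1 ≤ (m - t) / s := by
          rw [Nat.le_div_iff_mul_le hs0, mul_comm]
          exact h3
        omega
      · have h6 : (m - t) / s ≤ m := (Nat.div_le_self _ _).trans (Nat.sub_le _ _)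
        have h7 : m ≤ X ^ 2 := by
          have hX0 : (0 : ℝ) < X := by exact_mod_cast (by omega : 0 < X)
          have h8 : (m : ℝ) ≤ 2 * X := by nlinarith
          have h9 : m ≤ 2 * X := by exact_mod_cast h8
          nlinarith
        exact h6.trans h7
    rw [Finset.sum_eq_single ((m - t) / s)]
    · rw [if_pos (Nat.mul_div_cancel' hd)]
    · intro q _ hne
      rw [if_neg]
      intro hc
      apply hne
      rw [← hc, Nat.mul_div_cancel_left _ hs0]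
    · intro hn
      exact absurd hmem hn
  · apply Finset.sum_eq_zero
    intro q hqm
    rw [if_neg]
    intro hc
    apply h
    unfold QS at hqm
    rw [mem_prI] at hqm
    refine ⟨⟨q, hc.symm⟩, ?_⟩
    rw [← hc, Nat.mul_div_cancel_left _ hs0]
    exact hqm.2

/-- the weight of one representation -/
theorem U1_w (α : ℕ → ℝ) (hα : Wt α) (R X m s t : ℕ) (κ : ℝ) (hR : 1 ≤ R) (hκ : κ ≤ 1 / 10) (h1 : X ≤ m) (h2 : (m : ℝ) ≤ (1 + κ) * X)
    (hH : 2 * (HR R : ℝ) ≤ κ * X) (hX : 4 ≤ X) (hs : s ∈ IS R) (ht : t ≤ HR R) (hd : s ∣ m - t)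
    (hp : ((m - t) / s).Prime) :
    |2 * (bet α R s * om (YR R X) ((m - t) / s)) - α s| ≤ 4 * κ * α s := by
  obtain ⟨h1s, h2s, hps⟩ := U1_IS hs
  obtain ⟨hb0, hb1⟩ := U1_b hs
  obtain ⟨ha0, ha1⟩ := hα s
  have hs0 : (0 : ℝ) < s := by exact_mod_cast hps.pos
  have hX' : (4 : ℝ) ≤ X := by exact_mod_cast hX
  have hX0 : (0 : ℝ) < X := by linarith
  have hR' : (1 : ℝ) ≤ R := by exact_mod_cast hR
  have hR0 : (0 : ℝ) < R := by linarith
  have hm : (X : ℝ) ≤ m := by exact_mod_cast h1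
  have hH0 : (0 : ℝ) ≤ (HR R : ℝ) := Nat.cast_nonneg _
  have hκ0 : 0 ≤ κ := by
    by_contra hcon
    push Not at hcon
    nlinarith
  have ht' : (t : ℝ) ≤ HR R := by exact_mod_cast ht
  have htX : (t : ℝ) ≤ κ * X / 2 := by linarith
  have htm : t ≤ m := by
    have : (t : ℝ) ≤ m := by nlinarith
    exact_mod_cast this
  have hcast : ((m - t : ℕ) : ℝ) = (m : ℝ) - t := by push_cast [htm]; ring
  have hn0 : (0 : ℝ) < ((m - t : ℕ) : ℝ) := by rw [hcast]; nlinarith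
  have hcast2 : (((m - t) / s : ℕ) : ℝ) = ((m - t : ℕ) : ℝ) / s := by
    rw [Nat.cast_div hd hs0.ne']
  have hup : ((m - t : ℕ) : ℝ) / X ≤ 1 + κ := by
    rw [div_le_iff₀ hX0, hcast]
    have : (0 : ℝ) ≤ t := Nat.cast_nonneg _
    linarith
  have hlo : 1 - κ / 2 ≤ ((m - t : ℕ) : ℝ) / X := by
    rw [le_div_iff₀ hX0, hcast]
    linarith
  have hq0 : (0 : ℝ) < ((m - t : ℕ) : ℝ) / X := div_pos hn0 hX0
  have heκ : |Real.log (((m - t : ℕ) : ℝ) / X)| ≤ κ := by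
    rw [abs_le]
    constructor
    · have h3 : Real.log (1 - κ / 2) ≤ Real.log (((m - t : ℕ) : ℝ) / X) := Real.log_le_log (by linarith) hlo
      have h4 : 1 - (1 - κ / 2)⁻¹ ≤ Real.log (1 - κ / 2) := Real.one_sub_inv_le_log_of_pos (by linarith)
      have h5 : (1 - κ / 2)⁻¹ ≤ 1 + κ := by
        rw [inv_le_comm₀ (by linarith) (by linarith), inv_eq_one_div, div_le_iff₀ (by linarith)]
        nlinarith
      linarith
    · have h4 : Real.log (((m - t : ℕ) : ℝ) / X) ≤ ((m - t : ℕ) : ℝ) / X - 1 := Real.log_le_sub_one_of_pos hq0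
      linarith
  have hw := weight_near (Real.log ((s : ℝ) / R)) (Real.log (((m - t : ℕ) : ℝ) / X)) κ hb0 hb1 heκ hκ
  have hom : om (YR R X) ((m - t) / s) = Real.exp (-(Real.log (((m - t : ℕ) : ℝ) / X) - Real.log ((s : ℝ) / R)) ^ 2) := by
    unfold om gs YR
    rw [hcast2, Real.log_div hX0.ne' hR0.ne', Real.log_div hn0.ne' hs0.ne', Real.log_div hn0.ne' hX0.ne',
      Real.log_div hs0.ne' hR0.ne']
    congr 1
    ring
  rw [hom]
  unfold bet
  rw [if_pos hs]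
  have heq : 2 * (α s * Real.exp (Real.log ((s : ℝ) / R) ^ 2) / 2 * Real.exp (-(Real.log (((m - t : ℕ) : ℝ) / X) - Real.log ((s : ℝ) / R)) ^ 2)) - α s
      = α s * (Real.exp (Real.log ((s : ℝ) / R) ^ 2) * Real.exp (-(Real.log (((m - t : ℕ) : ℝ) / X) - Real.log ((s : ℝ) / R)) ^ 2) - 1) := by
    ring
  rw [heq, abs_mul, abs_of_nonneg ha0]
  calc α s * _ ≤ α s * (4 * κ) := mul_le_mul_of_nonneg_left hw ha0
    _ = 4 * κ * α s := by ring

/-- PROOF. Exchange the sums: `∑_t fP fA (m - t) = log H ∑_s β(s) ∑_{t ≤ H prime, m - t = s q} om q`; for given `s`, `t` there is at most one `q = (m - t)/s`, a prime in `QS X` (`√X < (X - H)/(2R) ≤ q ≤ 2X ≤ X²`), and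
`om YR q = exp (-(log YR - log q)²)`, `log YR - log q = log (s/R) - log ((m - t)/X)`, `|log ((m - t)/X)| ≤ κ` (as `H ≤ κ X/2`); `weight_near`. -/
theorem cnt_bet (α : ℕ → ℝ) (hα : Wt α) (R X m : ℕ) (κ : ℝ) (hR : 1 ≤ R) (hκ : κ ≤ 1 / 10) (h1 : X ≤ m) (h2 : (m : ℝ) ≤ (1 + κ) * X)
    (hH : 2 * (HR R : ℝ) ≤ κ * X) (hq : 2 * R * (Nat.sqrt X + 1) + HR R ≤ X) (hX : 4 ≤ X) :
    |2 * ∑ t ∈ Icc 1 (HR R), fP (HR R) (t : ℤ) * fA (bet α R) R X (m - t) - Real.log (HR R) * cnt α R m| ≤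
      4 * κ * (Real.log (HR R) * cnt α R m) := by
  have hHR : 1 ≤ HR R := by unfold HR; nlinarith [Nat.pow_le_pow_left hR 2]
  have hlog : 0 ≤ Real.log (HR R) := Real.log_nonneg (by exact_mod_cast hHR)
  have hcnt : Real.log (HR R) * cnt α R m = ∑ t ∈ Icc 1 (HR R), ∑ s ∈ IS R,
      (if t.Prime ∧ s ∣ m - t ∧ ((m - t) / s).Prime then Real.log (HR R) * α s else 0) := by
    unfold cnt
    rw [Finset.sum_comm, Finset.mul_sum]
    refine Finset.sum_congr rfl fun s _ => ?_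
    rw [← Finset.sum_filter, Finset.sum_const, nsmul_eq_mul]
    ring
  have hfP : 2 * ∑ t ∈ Icc 1 (HR R), fP (HR R) (t : ℤ) * fA (bet α R) R X (m - t) = ∑ t ∈ Icc 1 (HR R), ∑ s ∈ IS R,
      (if t.Prime ∧ s ∣ m - t ∧ ((m - t) / s).Prime then
        Real.log (HR R) * (2 * (bet α R s * om (YR R X) ((m - t) / s))) else 0) := by
    rw [Finset.mul_sum]
    refine Finset.sum_congr rfl fun t ht => ?_
    obtain ⟨ht1, ht2⟩ := Finset.mem_Icc.mp ht
    unfold fA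
    have hin : ∀ s ∈ IS R, ∑ q ∈ QS X, (if s * q = m - t then bet α R s * om (YR R X) q else 0) =
      if s ∣ m - t ∧ ((m - t) / s).Prime then bet α R s * om (YR R X) ((m - t) / s) else 0 := fun s hs =>
      U1_q α R X m s t κ hR h1 h2 hκ hq hX hs ht2
    rw [Finset.sum_congr rfl hin, Finset.mul_sum, Finset.mul_sum]
    refine Finset.sum_congr rfl fun s _ => ?_
    unfold fP
    have hc : (1 ≤ (t : ℤ) ∧ (t : ℤ) ≤ (HR R : ℤ) ∧ (t : ℤ).toNat.Prime) ↔ t.Prime := by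
      constructor
      · intro h; simpa using h.2.2
      · intro h; exact ⟨by exact_mod_cast ht1, by exact_mod_cast ht2, by simpa using h⟩
    by_cases hp : t.Prime
    · rw [if_pos (hc.mpr hp)]
      by_cases hd : s ∣ m - t ∧ ((m - t) / s).Prime
      · rw [if_pos hd, if_pos ⟨hp, hd⟩]; ring
      · rw [if_neg hd, if_neg (fun h => hd h.2)]; ring
    · rw [if_neg (fun h => hp (hc.mp h)), zero_mul, mul_zero, if_neg (fun h => hp h.1)]
  rw [hfP, hcnt, ← Finset.sum_sub_distrib, Finset.mul_sum]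
  refine (Finset.abs_sum_le_sum_abs _ _).trans (Finset.sum_le_sum fun t ht => ?_)
  obtain ⟨ht1, ht2⟩ := Finset.mem_Icc.mp ht
  rw [← Finset.sum_sub_distrib, Finset.mul_sum]
  refine (Finset.abs_sum_le_sum_abs _ _).trans (Finset.sum_le_sum fun s hs => ?_)
  split_ifs with h
  · have hw := U1_w α hα R X m s t κ hR hκ h1 h2 hH hX hs ht2 h.2.1 h.2.2
    rw [← mul_sub, abs_mul, abs_of_nonneg hlog]
    calc Real.log (HR R) * _ ≤ Real.log (HR R) * (4 * κ * α s) := mul_le_mul_of_nonneg_left hw hlog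
      _ = 4 * κ * (Real.log (HR R) * α s) := by ring
  · simp

end Pool.Agent.Lib.MP_bae66e_nt.EF
end
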