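import Pool.Agent.Lib.MP_bae66e_nt.Mg.G018
import Pool.Agent.Lib.MP_bae66e_nt.Mg.G039
import Pool.Agent.Lib.MP_bae66e_nt.Mg.G037
import Pool.Agent.Lib.MP_bae66e_nt.Mg.G030
import Pool.Agent.Lib.MP_bae66e_nt.Mg.G035
import Pool.Agent.Lib.MP_bae66e_nt.Mg.G077

section

/-!
# T7: Gaussian windows with divisor weights (type I sums)
-/

set_option autoImplicit false

namespace Pool.Agent.E3

open Finset MeasureTheory Real
open Pool.Agent.MC (ee)

private theorem T7_dsum {a : ℕ → ℝ} {D n : ℕ} (hn : 1 ≤ n) (ha : ∀ d, D < d → a d = 0) :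
    dsum a n = ∑ d ∈ Icc 1 D, if d ∣ n then a d else 0 := by
  unfold dsum
  rw [← Finset.sum_filter]
  symm
  refine Finset.sum_subset (fun d hd => ?_) (fun d hd hd' => ?_)
  · rw [Finset.mem_filter] at hd
    exact Nat.mem_divisors.mpr ⟨hd.2, by omega⟩
  · rw [Nat.mem_divisors] at hd
    apply ha
    by_contra hcon
    apply hd'
    rw [Finset.mem_filter, Finset.mem_Icc]
    exact ⟨⟨Nat.pos_of_dvd_of_pos hd.1 (by omega), by omega⟩, hd.1⟩

private theorem T7_mult (F : ℕ → ℂ) (Z : ℕ) {d : ℕ} (hd : 1 ≤ d) :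
    ∑ n ∈ (Icc 1 Z).filter (fun n => d ∣ n), F n = ∑ k ∈ Icc 1 (Z / d), F (d * k) := by
  have h1 : (Icc 1 Z).filter (fun n => d ∣ n) = (Icc 1 (Z / d)).image (fun k => d * k) := by
    ext n
    rw [Finset.mem_filter, Finset.mem_image, Finset.mem_Icc]
    constructor
    · rintro ⟨⟨h1, h2⟩, k, rfl⟩
      refine ⟨k, ?_, rfl⟩
      rw [Finset.mem_Icc]
      exact ⟨Nat.pos_of_ne_zero (by rintro rfl; simp at h1), (Nat.le_div_iff_mul_le (by omega)).mpr
        (by rw [mul_comm]; exact h2)⟩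
    · rintro ⟨k, hk, rfl⟩
      rw [Finset.mem_Icc] at hk
      have h3 := (Nat.le_div_iff_mul_le (by omega)).mp hk.2
      exact ⟨⟨Nat.mul_pos (by omega) (by omega), by rw [mul_comm]; exact h3⟩, dvd_mul_right _ _⟩
  rw [h1, Finset.sum_image]
  intro k _ l _ h
  exact Nat.eq_of_mul_eq_mul_left (by omega) h

private theorem T7_swap {a : ℕ → ℝ} {D : ℕ} (ha : ∀ d, D < d → a d = 0) (F : ℕ → ℂ) (Z : ℕ) :
    ∑ n ∈ Icc 1 Z, (dsum a n : ℂ) * F n =
      ∑ d ∈ Icc 1 D, (a d : ℂ) * ∑ k ∈ Icc 1 (Z / d), F (d * k) := by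
  have h1 : ∀ n ∈ Icc 1 Z, (dsum a n : ℂ) * F n =
      ∑ d ∈ Icc 1 D, if d ∣ n then (a d : ℂ) * F n else 0 := by
    intro n hn
    rw [Finset.mem_Icc] at hn
    rw [T7_dsum hn.1 ha, Complex.ofReal_sum, Finset.sum_mul]
    refine Finset.sum_congr rfl fun d _ => ?_
    split_ifs
    · rfl
    · rw [Complex.ofReal_zero, zero_mul]
  rw [Finset.sum_congr rfl h1, Finset.sum_comm]
  refine Finset.sum_congr rfl fun d hd => ?_
  rw [Finset.mem_Icc] at hd
  rw [← Finset.sum_filter, ← Finset.mul_sum, T7_mult F Z hd.1]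

private theorem T7_ph_add (u x y : ℝ) : ph u (x + y) = ph u x * ph u y := by
  unfold ph
  rw [← Complex.exp_add]
  congr 1
  push_cast
  ring

private theorem T7_ph_norm (u x : ℝ) : ‖ph u x‖ = 1 := by
  unfold ph
  exact Complex.norm_exp_ofReal_mul_I _

private theorem T7_harm (D : ℕ) : ∑ d ∈ Icc 1 D, (1 / (d : ℝ)) ≤ 1 + Real.log D := by
  have h1 := harmonic_le_one_add_log D
  rw [harmonic_eq_sum_Icc] at h1
  push_cast at h1
  simpa only [one_div] using h1

private theorem T7_floor {d Z : ℕ} {x : ℝ} (hd : 1 ≤ d) (hdx : 2 * Real.log d ≤ x)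
    (hZ : Real.exp (2 * x) ≤ Z) : Real.exp (2 * (x - Real.log d)) ≤ ((Z / d : ℕ) : ℝ) := by
  have hd0 : (0 : ℝ) < d := by exact_mod_cast hd
  have hx0 : 0 ≤ x := by
    have := Real.log_nonneg (by exact_mod_cast hd : (1 : ℝ) ≤ d)
    linarith
  have h1 : Real.exp (2 * (x - Real.log d)) * (d : ℝ) ^ 2 = Real.exp (2 * x) := by
    have h2 : (d : ℝ) ^ 2 = Real.exp (2 * Real.log d) := by
      rw [mul_comm, Real.exp_mul, Real.exp_log hd0]
      norm_num
    rw [h2, ← Real.exp_add]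
    congr 1
    ring
  rcases Nat.lt_or_ge 1 d with h2 | h2
  · have h3 : (Z : ℝ) < d * (((Z / d : ℕ) : ℝ) + 1) := by
      exact_mod_cast Nat.lt_mul_div_succ Z (by omega : 0 < d)
    have h4 : 1 ≤ Real.exp (2 * (x - Real.log d)) := Real.one_le_exp (by linarith)
    have h5 : (2 : ℝ) ≤ d := by exact_mod_cast h2
    have h6 : Real.exp (2 * (x - Real.log d)) * d < ((Z / d : ℕ) : ℝ) + 1 := by
      have h7 : (d : ℝ) * (Real.exp (2 * (x - Real.log d)) * d) <
          d * (((Z / d : ℕ) : ℝ) + 1) := by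
        calc (d : ℝ) * (Real.exp (2 * (x - Real.log d)) * d)
            = Real.exp (2 * (x - Real.log d)) * (d : ℝ) ^ 2 := by ring
          _ = Real.exp (2 * x) := h1
          _ ≤ Z := hZ
          _ < _ := h3
      exact lt_of_mul_lt_mul_left h7 hd0.le
    nlinarith
  · obtain rfl : d = 1 := by omega
    simpa using hZ

/-- PROOF. Exchange the sums: `∑_{n ≤ Z} (∑_{d ∣ n} a d) F n = ∑_{d ≤ D} a d ∑_{k ≤ Z/d} F (d k)` (terms with
`a d = 0` for `d > D` vanish; `d ≥ 1`), with `F (d k) = χ d χ k ph u (log d) ph u (log k) gs β (x - log d) (log k)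
/ (d k)`. The inner sum is `window (2 A)` at `x - log d ≥ x/2 ≥ 0`; `⌊Z/d⌋ ≥ exp (2 (x - log d))` because
`Z / d ≥ exp (2x) / d = d exp (2 (x - log d))` (for `d = 1` it is the hypothesis, for `d ≥ 2` use
`⌊y⌋ ≥ y / 2`), `|u| ≤ exp (A x) ≤ exp (2 A (x - log d))`. The main terms add up because
`ph u (log d) ph u (x - log d) = ph u x`. The errors: `∑_{d ≤ D} (B / d) C exp (- c x / 2) ≤ B (1 + log D) C exp (- c x/2)`. -/
theorem type_one (A : ℕ) (hA : 1 ≤ A) : ∃ c : ℝ, 0 < c ∧ c ≤ 1 / 2 ∧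
    ∀ (W : ℕ), 1 ≤ W → ∀ (β : ℝ), 0 < β → ∃ C : ℝ, 1 ≤ C ∧
    ∀ (χ : ℕ → ℂ), PC W χ → ∀ (a : ℕ → ℝ) (D : ℕ) (B : ℝ), 1 ≤ D → (∀ d, D < d → a d = 0) →
    (∀ d, |a d| ≤ B) → ∀ (x u : ℝ) (Z : ℕ), 0 ≤ x → 2 * Real.log D ≤ x → Real.exp (2 * x) ≤ Z →
      |u| ≤ Real.exp (A * x) →
      ‖∑ n ∈ Icc 1 Z, (dsum a n : ℂ) * (χ n * ph u (Real.log n) * (((gs β x (Real.log n) / n : ℝ)) : ℂ))
        - (mv W χ * ∑ d ∈ Icc 1 D, ((a d / d : ℝ) : ℂ) * χ d)
            * ((Real.sqrt (π / β) * Real.exp (-(u ^ 2 / (4 * β))) : ℝ) : ℂ) * ph u x‖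
        ≤ C * B * (1 + Real.log D) * Real.exp (-(c * x)) := by
  classical
  obtain ⟨c₀, hc₀, hc₀', H0⟩ := window (2 * A) (by omega)
  refine ⟨c₀ / 2, by linarith, by linarith, ?_⟩
  intro W hW β hβ
  obtain ⟨C₀, hC₀, H⟩ := H0 W hW β hβ
  refine ⟨C₀, hC₀, ?_⟩
  intro χ hχ a D B hD ha haB x u Z hx hxD hZ hu
  have hB : 0 ≤ B := (abs_nonneg _).trans (haB 0)
  have hD0 : (0 : ℝ) < D := by exact_mod_cast hD
  set g : ℂ := ((Real.sqrt (π / β) * Real.exp (-(u ^ 2 / (4 * β))) : ℝ) : ℂ) with hg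
  rw [T7_swap ha (fun n => χ n * ph u (Real.log n) * (((gs β x (Real.log n) / n : ℝ)) : ℂ)) Z]
  -- the inner sums
  let S : ℕ → ℂ := fun d => ∑ k ∈ Icc 1 (Z / d), χ k * ph u (Real.log k) *
    (((gs β (x - Real.log d) (Real.log k) / k : ℝ)) : ℂ)
  have hin : ∀ d ∈ Icc 1 D, (a d : ℂ) * ∑ k ∈ Icc 1 (Z / d), χ (d * k) *
      ph u (Real.log ((d * k : ℕ) : ℝ)) *
        (((gs β x (Real.log ((d * k : ℕ) : ℝ)) / ((d * k : ℕ) : ℝ) : ℝ)) : ℂ) =
      (a d : ℂ) * (χ d * ph u (Real.log d) * ((1 / d : ℝ) : ℂ) * S d) := by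
    intro d hd
    rw [Finset.mem_Icc] at hd
    congr 1
    simp only [S]
    rw [Finset.mul_sum]
    refine Finset.sum_congr rfl fun k hk => ?_
    rw [Finset.mem_Icc] at hk
    have hd0 : (d : ℝ) ≠ 0 := by
      have : 0 < d := by omega
      positivity
    have hk0 : (k : ℝ) ≠ 0 := by
      have : 0 < k := by omega
      positivity
    have e1 : Real.log ((d * k : ℕ) : ℝ) = Real.log d + Real.log k := by
      rw [Nat.cast_mul, Real.log_mul hd0 hk0]
    have e2 : gs β x (Real.log d + Real.log k) = gs β (x - Real.log d) (Real.log k) := by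
      unfold gs
      congr 2
      ring
    rw [e1, T7_ph_add, e2, hχ.mul]
    have e3 : ((gs β (x - Real.log d) (Real.log k) / ((d * k : ℕ) : ℝ) : ℝ) : ℂ) =
        ((1 / d : ℝ) : ℂ) * ((gs β (x - Real.log d) (Real.log k) / k : ℝ) : ℂ) := by
      rw [← Complex.ofReal_mul]
      congr 1
      push_cast
      field_simp
    rw [e3]
    ring
  rw [Finset.sum_congr rfl hin]
  -- the main term
  have hmain : (mv W χ * ∑ d ∈ Icc 1 D, ((a d / d : ℝ) : ℂ) * χ d) * g * ph u x =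
      ∑ d ∈ Icc 1 D, (a d : ℂ) * (χ d * ph u (Real.log d) * ((1 / d : ℝ) : ℂ) *
        (mv W χ * g * ph u (x - Real.log d))) := by
    rw [Finset.mul_sum, Finset.sum_mul, Finset.sum_mul]
    refine Finset.sum_congr rfl fun d _ => ?_
    have e1 : ph u x = ph u (Real.log d) * ph u (x - Real.log d) := by
      rw [← T7_ph_add]
      congr 1
      ring
    rw [e1]
    push_cast
    ring
  rw [hmain, ← Finset.sum_sub_distrib]
  have hterm : ∀ d ∈ Icc 1 D,
      ‖(a d : ℂ) * (χ d * ph u (Real.log d) * ((1 / d : ℝ) : ℂ) * S d) -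
        (a d : ℂ) * (χ d * ph u (Real.log d) * ((1 / d : ℝ) : ℂ) *
          (mv W χ * g * ph u (x - Real.log d)))‖ ≤
      B * C₀ * Real.exp (-(c₀ / 2 * x)) * (1 / (d : ℝ)) := by
    intro d hd
    rw [Finset.mem_Icc] at hd
    have hd1 : (1 : ℝ) ≤ d := by exact_mod_cast hd.1
    have hd0 : (0 : ℝ) < d := by linarith
    have hlog : Real.log d ≤ Real.log D :=
      Real.log_le_log hd0 (by exact_mod_cast hd.2)
    have hlog0 : 0 ≤ Real.log d := Real.log_nonneg hd1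
    have hx2 : x / 2 ≤ x - Real.log d := by linarith
    have hH := H χ hχ.per hχ.bd (x - Real.log d) u (Z / d) (by linarith)
      (T7_floor hd.1 (by linarith) hZ) (hu.trans (by
        apply Real.exp_le_exp.mpr
        have hA0 : (0 : ℝ) ≤ A := Nat.cast_nonneg A
        push_cast
        nlinarith))
    rw [← mul_sub, ← mul_sub, norm_mul, norm_mul, norm_mul, norm_mul, T7_ph_norm, mul_one,
      Complex.norm_real, Complex.norm_real, Real.norm_eq_abs, Real.norm_eq_abs,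
      abs_of_pos (by positivity : (0 : ℝ) < 1 / d)]
    have h1 : C₀ * Real.exp (-(c₀ * (x - Real.log d))) ≤ C₀ * Real.exp (-(c₀ / 2 * x)) := by
      have h2 : Real.exp (-(c₀ * (x - Real.log d))) ≤ Real.exp (-(c₀ / 2 * x)) := by
        apply Real.exp_le_exp.mpr
        nlinarith
      exact mul_le_mul_of_nonneg_left h2 (by linarith)
    have h3 := hH.trans h1
    have h4 : ‖χ d‖ * (1 / (d : ℝ)) ≤ 1 / (d : ℝ) :=
      mul_le_of_le_one_left (by positivity) (hχ.bd d)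
    calc |a d| * (‖χ d‖ * (1 / (d : ℝ)) * ‖S d - mv W χ * g * ph u (x - Real.log d)‖)
        ≤ B * (1 / (d : ℝ) * (C₀ * Real.exp (-(c₀ / 2 * x)))) := by
          have := haB d
          gcongr
      _ = B * C₀ * Real.exp (-(c₀ / 2 * x)) * (1 / (d : ℝ)) := by ring
  refine (norm_sum_le _ _).trans ((Finset.sum_le_sum hterm).trans ?_)
  rw [← Finset.mul_sum]
  have h5 := T7_harm D
  have h6 : 0 ≤ B * C₀ * Real.exp (-(c₀ / 2 * x)) := by
    have : 0 ≤ C₀ := by linarith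
    positivity
  calc B * C₀ * Real.exp (-(c₀ / 2 * x)) * ∑ d ∈ Icc 1 D, (1 / (d : ℝ))
      ≤ B * C₀ * Real.exp (-(c₀ / 2 * x)) * (1 + Real.log D) :=
        mul_le_mul_of_nonneg_left h5 h6
    _ = C₀ * B * (1 + Real.log D) * Real.exp (-(c₀ / 2 * x)) := by ring

end Pool.Agent.E3
end

section

/-!
# U1: characters
-/

set_option autoImplicit false

namespace Pool.Agent.E3

open Finset MeasureTheory Real
open Pool.Agent.Lib.MP_bae66e_nt.AP3 (Rough prI KT)

/-- PROOF. Immediate. -/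
theorem PC_ch {W : ℕ} (χ : DirichletCharacter ℂ W) : PC W (ch χ) where
  per n := by
    unfold ch
    rw [Nat.cast_add, ZMod.natCast_self, add_zero]
  mul m n := by
    unfold ch
    rw [Nat.cast_mul, map_mul]
  bd n := DirichletCharacter.norm_le_one χ _

private theorem U1_sum_range {W : ℕ} (hW : 1 ≤ W) [Fintype (ZMod W)] (f : ZMod W → ℂ) :
    ∑ a ∈ range W, f (a : ZMod W) = ∑ x : ZMod W, f x := by
  haveI : NeZero W := ⟨by omega⟩
  refine Finset.sum_nbij' (fun a => (a : ZMod W)) ZMod.val ?_ ?_ ?_ ?_ ?_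
  · intro a _
    exact Finset.mem_univ _
  · intro x _
    exact Finset.mem_range.2 (ZMod.val_lt x)
  · intro a ha
    exact ZMod.val_natCast_of_lt (Finset.mem_range.1 ha)
  · intro x _
    exact ZMod.natCast_zmod_val x
  · intro a _
    rfl

/-- PROOF. `MulChar.sum_eq_zero_of_ne_one`: the sum over `range W` is the sum over `ZMod W`. -/
theorem mv_ch_ne {W : ℕ} (hW : 1 ≤ W) (χ : DirichletCharacter ℂ W) (hχ : χ ≠ 1) : mv W (ch χ) = 0 := by
  haveI : NeZero W := ⟨by omega⟩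
  unfold mv ch
  rw [U1_sum_range hW (fun x => χ x), MulChar.sum_eq_zero_of_ne_one hχ, zero_div]

/-- PROOF. `ch 1 n = 1` if `n` is coprime to `W` and `0` otherwise; `φ(W)` such `n < W`. -/
theorem mv_ch_one {W : ℕ} (hW : 1 ≤ W) :
    mv W (ch (1 : DirichletCharacter ℂ W)) = ((Nat.totient W / W : ℝ) : ℂ) := by
  classical
  unfold mv ch
  have h1 : ∑ a ∈ range W, (1 : DirichletCharacter ℂ W) (a : ZMod W) =
      ∑ a ∈ range W, if W.Coprime a then (1 : ℂ) else 0 := by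
    refine Finset.sum_congr rfl fun a _ => ?_
    by_cases h : W.Coprime a
    · rw [if_pos h]
      exact MulChar.one_apply ((ZMod.isUnit_iff_coprime a W).2 h.symm)
    · rw [if_neg h]
      exact MulChar.map_nonunit _ fun h' => h ((ZMod.isUnit_iff_coprime a W).1 h').symm
  rw [h1, ← Finset.sum_filter, Finset.sum_const, nsmul_eq_mul, mul_one,
    ← Nat.totient_eq_card_coprime]
  push_cast
  rfl

/-- PROOF. `∏_{p ≤ z} (1 - 1/p) = ∏_{p ∣ W} (1 - 1/p) ∏_{p ≤ z, p ∤ W} (1 - 1/p)` for `W ≤ z`, and the first product is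
`φ(W)/W` (`Nat.totient_eq_mul_prod_factors`). `KT z = ∏_{p ∈ prI 0 z} (1 - 1/p)` by definition. -/
theorem KT_split (W z : ℕ) (hW : 1 ≤ W) (hWz : W ≤ z) :
    (Nat.totient W / W : ℝ) * VR ((prI 0 z).filter (fun ℓ => ¬ ℓ ∣ W)) = KT z := by
  have h1 : (prI 0 z).filter (fun ℓ => ℓ ∣ W) = W.primeFactors := by
    ext p
    rw [Finset.mem_filter, Pool.Agent.Lib.MP_bae66e_nt.AP3.mem_prI, Nat.mem_primeFactors]
    constructor
    · rintro ⟨⟨_, hp⟩, hd⟩
      exact ⟨hp, hd, by omega⟩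
    · rintro ⟨hp, hd, _⟩
      exact ⟨⟨⟨hp.pos, (Nat.le_of_dvd hW hd).trans hWz⟩, hp⟩, hd⟩
  have h2 : (Nat.totient W : ℝ) = W * ∏ p ∈ W.primeFactors, (1 - (p : ℝ)⁻¹) := by
    have h3 := Nat.totient_eq_mul_prod_factors W
    have h4 : ((Nat.totient W : ℚ) : ℝ) = ((W * ∏ p ∈ W.primeFactors, (1 - (p : ℚ)⁻¹) : ℚ) : ℝ) := by
      rw [h3]
    push_cast at h4
    exact h4
  have hW0 : (W : ℝ) ≠ 0 := by
    have : (0 : ℝ) < W := by exact_mod_cast hW
    exact this.ne'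
  unfold KT VR
  rw [← Finset.prod_filter_mul_prod_filter_not (prI 0 z) (fun ℓ => ℓ ∣ W), h1, h2,
    mul_div_cancel_left₀ _ hW0]
  congr 1
  refine Finset.prod_congr rfl fun p _ => ?_
  rw [one_div]

open Classical in
/-- PROOF. If `χ n ≠ 0` then `n` is coprime to `W`, so the prime factors of `n` do not divide `W`. -/
theorem rough_free {W : ℕ} (hW : 1 ≤ W) (χ : DirichletCharacter ℂ W) (z n : ℕ) (hn : 1 ≤ n) :
    (if Rough z n then ch χ n else 0)
      = ((free ((prI 0 z).filter (fun ℓ => ¬ ℓ ∣ W)) n : ℝ) : ℂ) * ch χ n := by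
  by_cases hR : Rough z n
  · rw [if_pos hR]
    have h1 : free ((prI 0 z).filter (fun ℓ => ¬ ℓ ∣ W)) n = 1 := by
      unfold free
      rw [if_pos]
      intro ℓ hℓ hd
      rw [Finset.mem_filter, Pool.Agent.Lib.MP_bae66e_nt.AP3.mem_prI] at hℓ
      have := hR ℓ hℓ.1.2 hd
      omega
    rw [h1, Complex.ofReal_one, one_mul]
  · rw [if_neg hR]
    unfold Pool.Agent.Lib.MP_bae66e_nt.AP3.Rough at hR
    push Not at hR
    obtain ⟨p, hp, hd, hpz⟩ := hR
    by_cases hW' : p ∣ W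
    · have h1 : ch χ n = 0 := by
        unfold ch
        refine MulChar.map_nonunit _ fun h' => ?_
        have h2 := (ZMod.isUnit_iff_coprime n W).1 h'
        exact hp.one_lt.ne' (Nat.dvd_one.1 (h2 ▸ Nat.dvd_gcd hd hW'))
      rw [h1, mul_zero]
    · have h1 : free ((prI 0 z).filter (fun ℓ => ¬ ℓ ∣ W)) n = 0 := by
        unfold free
        rw [if_neg]
        intro hall
        refine hall p ?_ hd
        rw [Finset.mem_filter, Pool.Agent.Lib.MP_bae66e_nt.AP3.mem_prI]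
        exact ⟨⟨⟨hp.pos, hpz⟩, hp⟩, hW'⟩
      rw [h1, Complex.ofReal_zero, zero_mul]

end Pool.Agent.E3
end

section

/-!
# Row U2: the number of representations
-/

set_option autoImplicit false

namespace Pool.Agent.Lib.MP_bae66e_nt.EF

open Finset MeasureTheory Real
open Pool.Agent.E3
open Pool.Agent.Lib.MP_bae66e_nt.E2 (YR FR PH)
open Pool.Agent.Lib.MP_bae66e_nt.LL (fP gW)
open Pool.Agent.Lib.MP_bae66e_nt.AC (Sg VV)
open Pool.Agent.Lib.MP_bae66e_nt.AP3 (prI mem_prI)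

/-- the arithmetic of one integer -/
private theorem U2_one (ε κ C S H l lX lR Sig cnt T A : ℝ) (hε : 0 < ε) (hC : 1 ≤ C) (hκ0 : 0 < κ)
    (hκ1 : κ ≤ 1 / 10) (hκ2 : 100 * C * κ ≤ ε) (hS : 0 < S) (hH : 0 < H) (hl : 0 < l) (hlX : 0 < lX)
    (hlR : 0 < lR) (hSig : Sig ≤ C / lR) (hcnt : 0 ≤ cnt)
    (h1 : |T - S * (H / lX * A)| ≤ ε / 8 * (S * (H * (1 / (lR * lX)))))
    (h2 : |2 * A - Sig| ≤ 4 * κ * Sig) (h3 : |2 * T - l * cnt| ≤ 4 * κ * (l * cnt)) :
    |cnt - S * (H / (l * lX)) * Sig| ≤ ε * (S * (H / (l * lX * lR))) := by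
  obtain ⟨E, hE⟩ : ∃ E : ℝ, E = S * (H * (1 / (lR * lX))) := ⟨_, rfl⟩
  obtain ⟨F, hF⟩ : ∃ F : ℝ, F = S * (H / lX) := ⟨_, rfl⟩
  have hE0 : 0 < E := by
    rw [hE]
    positivity
  have hF0 : 0 < F := by
    rw [hF]
    positivity
  have hFE : F * Sig ≤ C * E := by
    calc F * Sig ≤ F * (C / lR) := mul_le_mul_of_nonneg_left hSig hF0.le
      _ = C * E := by
          rw [hF, hE]
          field_simp
  rw [← hE] at h1
  have e1 : S * (H / lX * A) = F * A := by
    rw [hF]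
    ring
  rw [e1] at h1
  have h4 : |F * (2 * A - Sig)| ≤ 4 * κ * (C * E) := by
    rw [abs_mul, abs_of_pos hF0]
    calc F * |2 * A - Sig| ≤ F * (4 * κ * Sig) := mul_le_mul_of_nonneg_left h2 hF0.le
      _ = 4 * κ * (F * Sig) := by ring
      _ ≤ 4 * κ * (C * E) := mul_le_mul_of_nonneg_left hFE (by positivity)
  obtain ⟨a1, a2⟩ := abs_le.1 h1
  obtain ⟨b1, b2⟩ := abs_le.1 h4
  obtain ⟨c1, c2⟩ := abs_le.1 h3
  have hlc : 0 ≤ l * cnt := by positivity
  have d1 : l * cnt ≤ 2 * (2 * T) := by nlinarith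
  have d2 : 2 * T ≤ (C + ε / 4 + 4 * κ * C) * E := by nlinarith
  have d3 : 4 * κ * (l * cnt) ≤ (ε / 2) * E := by
    have f1 : 4 * κ * (l * cnt) ≤ 4 * κ * (2 * ((C + ε / 4 + 4 * κ * C) * E)) :=
      mul_le_mul_of_nonneg_left (by linarith) (by positivity)
    refine f1.trans ?_
    have f2 : 4 * κ * (2 * (C + ε / 4 + 4 * κ * C)) ≤ ε / 2 := by
      have g1 : κ * C ≤ ε / 100 := by linarith
      have g2 : κ * (κ * C) ≤ 1 / 10 * (ε / 100) := mul_le_mul hκ1 g1 (by positivity) (by norm_num)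
      have g3 : κ * ε ≤ 1 / 10 * ε := mul_le_mul_of_nonneg_right hκ1 hε.le
      nlinarith
    calc 4 * κ * (2 * ((C + ε / 4 + 4 * κ * C) * E)) = (4 * κ * (2 * (C + ε / 4 + 4 * κ * C))) * E := by
          ring
      _ ≤ ε / 2 * E := mul_le_mul_of_nonneg_right f2 hE0.le
  have d4 : 4 * κ * (C * E) ≤ ε / 25 * E := by
    have g1 : 4 * κ * C ≤ ε / 25 := by linarith
    calc 4 * κ * (C * E) = (4 * κ * C) * E := by ring
      _ ≤ ε / 25 * E := mul_le_mul_of_nonneg_right g1 hE0.le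
  have d5 : |l * cnt - F * Sig| ≤ ε * E := by
    have hp : 0 ≤ ε * E := by positivity
    rw [abs_le]
    constructor <;> nlinarith
  have e2 : cnt - S * (H / (l * lX)) * Sig = (l * cnt - F * Sig) / l := by
    rw [hF]
    field_simp
  have e3 : ε * (S * (H / (l * lX * lR))) = ε * E / l := by
    rw [hE]
    field_simp
  rw [e2, e3, abs_div, abs_of_pos hl]
  exact div_le_div_of_nonneg_right d5 hl.le

/-- PROOF. `κ = min (1/10) (ε/(100 C))`, `C` from `recip_IS` (E3/MVp): `Σ = ∑ α/s ≤ C/log R`. `FIRF` for `ε/8` and the weights `bet α R` (`bet_Wt`). For an even `m` which is not bad there, with `S = Sg`, `l = log H`, `A = 2 AA (bet)`, `T = 2 ∑ fP fA`: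
`|T - S H/log X · A| ≤ (ε/4) S H FR`, `|A - Σ| ≤ 4κ Σ` (`AA_bet`), `|T - l cnt| ≤ 4κ l cnt` (`cnt_bet`, `4κ ≤ 2/5`). So `l cnt ≤ 2 T ≤ ...` and
`|l cnt - S H/log X Σ| ≤ 4κ l cnt + (ε/4) S H FR + 4κ S H/log X Σ ≤ ε S H FR`; divide by `l > 0`; `FR = 1/(log R log X)`. -/
theorem counta_of (a : ℝ) (ha : 3 ≤ a) (h : FIRF a) : COUNTA a := by
  classical
  intro ε hε
  obtain ⟨C, hC, hrec⟩ := recip_IS
  set κ : ℝ := min (1 / 10) (ε / (100 * C)) with hκ
  have hκ0 : 0 < κ := lt_min (by norm_num) (by positivity)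
  have hκ1 : κ ≤ 1 / 10 := min_le_left _ _
  have hκ2 : 100 * C * κ ≤ ε := by
    have h1 : κ ≤ ε / (100 * C) := min_le_right _ _
    rw [le_div_iff₀ (by positivity)] at h1
    linarith
  refine ⟨κ, hκ0, by linarith, fun δ hδ => ?_⟩
  obtain ⟨w₁, hw₁⟩ := h (ε / 8) δ (by positivity) hδ
  refine ⟨max w₁ 2, fun w hw => ?_⟩
  have hwa : w₁ ≤ w := (le_max_left _ _).trans hw
  have hwc : 2 ≤ w := (le_max_right _ _).trans hw
  obtain ⟨X₁, hX₁⟩ := hw₁ w hwa
  obtain ⟨X₂, hX₂⟩ := parA a (2 / κ) 1 ha one_pos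
  refine ⟨max X₁ X₂, fun X hX R hR α hα => ?_⟩
  have key := hX₁ X ((le_max_left _ _).trans hX) R hR (bet α R) (bet_Wt α hα R)
  obtain ⟨p1, -, p3, -, -, p6, -, -, p9, -, p11, p12, p13, -⟩ :=
    hX₂ X ((le_max_right _ _).trans hX) R hR
  have hRr : (3 : ℝ) ≤ R := by exact_mod_cast p6
  have hR3 : 3 ≤ R := by exact_mod_cast p6
  have hH2 : 2 ≤ HR R := by
    unfold HR
    nlinarith
  have hHr : (2 : ℝ) ≤ (HR R : ℝ) := by exact_mod_cast hH2
  have hlH : 0 < Real.log (HR R) := Real.log_pos (by linarith)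
  have hX64 : 64 ≤ X := by exact_mod_cast p1
  have hH : 2 * (HR R : ℝ) ≤ κ * X := by
    have h1 : (HR R : ℝ) ≤ (HR R : ℝ) ^ 2 := by nlinarith
    have h2 : 2 / κ * (HR R : ℝ) ≤ X :=
      (mul_le_mul_of_nonneg_left h1 (by positivity)).trans p12
    rw [div_mul_eq_mul_div, div_le_iff₀ hκ0] at h2
    linarith
  have hq : 2 * R * (Nat.sqrt X + 1) + HR R ≤ X := by
    have h1 : 1000 * R ^ 3 ≤ X := by exact_mod_cast p11
    have h2 : 8 * R ≤ Nat.sqrt X := by
      rw [Nat.le_sqrt]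
      have : 64 * R ^ 2 ≤ 1000 * R ^ 3 := by
        have : R ^ 3 = R ^ 2 * R := by ring
        rw [this]
        have h3 : R ^ 2 * 1 ≤ R ^ 2 * R := Nat.mul_le_mul_left _ (by omega)
        omega
      nlinarith
    have h3 : 8 * R * Nat.sqrt X ≤ X := (Nat.mul_le_mul_right _ h2).trans (Nat.sqrt_le X)
    have h4 : 100 * HR R ≤ X := by exact_mod_cast p13
    have h5 : 1 ≤ Nat.sqrt X := by omega
    have h6 : 2 * R * (Nat.sqrt X + 1) ≤ 4 * R * Nat.sqrt X := by nlinarith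
    have h7 : 2 * (4 * R * Nat.sqrt X) = 8 * R * Nat.sqrt X := by ring
    omega
  refine le_trans (Nat.cast_le.2 (Finset.card_le_card ?_)) key
  intro m hm
  rw [Finset.mem_filter] at hm ⊢
  obtain ⟨hm1, hm2, hm3, hm4⟩ := hm
  rw [Finset.mem_Icc] at hm1
  refine ⟨Finset.mem_Icc.2 hm1, hm2, ?_⟩
  by_contra hcon
  rw [not_lt] at hcon
  have hS : 0 < Sg (primorial w) m := by
    have := (AC.one_le_Sg w m hwc hm2).1
    linarith
  have hSig : ∑ s ∈ IS R, α s / s ≤ C / Real.log R := by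
    refine le_trans (Finset.sum_le_sum fun s _ => ?_) (hrec R (by omega)).1
    exact div_le_div_of_nonneg_right (hα s).2 (Nat.cast_nonneg _)
  have hcnt0 : 0 ≤ cnt α R m :=
    Finset.sum_nonneg fun s _ => mul_nonneg (hα s).1 (Nat.cast_nonneg _)
  have h2 := AA_bet α hα R X m κ (by omega) (by omega) hκ1 hm1.1 hm3
  have h3 := cnt_bet α hα R X m κ (by omega) hκ1 hm1.1 hm3 hH hq (by omega)
  have hfin := U2_one ε κ C (Sg (primorial w) m) (HR R) (Real.log (HR R)) (Real.log X) (Real.log R)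
    (∑ s ∈ IS R, α s / s) (cnt α R m)
    (∑ t ∈ Icc 1 (HR R), fP (HR R) (t : ℤ) * fA (bet α R) R X (m - t))
    (AA (bet α R) R X (Real.log m)) hε hC hκ0 hκ1 hκ2 hS (by linarith) hlH (by linarith)
    (by linarith) hSig hcnt0 hcon h2 h3
  linarith

end Pool.Agent.Lib.MP_bae66e_nt.EF
end

section

/-!
# Row F: all even numbers up to `N`
-/

set_option autoImplicit false

namespace Pool.Agent.Lib.MP_bae66e_nt.EF

open Finset MeasureTheory Real
open Pool.Agent.E3
open Pool.Agent.Lib.MP_bae66e_nt.E2 (YR FR PH)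
open Pool.Agent.Lib.MP_bae66e_nt.LL (fP gW)
open Pool.Agent.Lib.MP_bae66e_nt.AC (Sg VV)
open Pool.Agent.Lib.MP_bae66e_nt.AP3 (prI mem_prI)

/-- PROOF. `tendsto_piAP` (LL/N/N10) with `q = 1`, or `le_piC` and `piC_le` (LL/J/J02) with `W = 1`. -/
theorem pi_near (ε : ℝ) (hε : 0 < ε) : ∃ R₀ : ℕ, 2 ≤ R₀ ∧ ∀ R : ℕ, R₀ ≤ R →
    |(Nat.primeCounting (HR R) : ℝ) - HR R / Real.log (HR R)| ≤ ε * (HR R / Real.log (HR R)) := by
  have h := LL.tendsto_piAP 1 (0 : ZMod 1) (isUnit_of_subsingleton _)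
  have h2 : Filter.Tendsto (fun R : ℕ => ((HR R : ℕ) : ℝ)) Filter.atTop Filter.atTop := by
    refine tendsto_natCast_atTop_atTop.comp ?_
    refine Filter.tendsto_atTop_mono (f := fun R : ℕ => R) (fun R => ?_) Filter.tendsto_id
    show R ≤ HR R
    unfold HR
    nlinarith
  have h3 := h.comp h2
  have h4 : (1 / (Nat.totient 1 : ℝ)) = 1 := by simp
  rw [h4] at h3
  obtain ⟨R₁, hR₁⟩ := Metric.tendsto_atTop.1 h3 ε hε
  refine ⟨max R₁ 2, le_max_right _ _, fun R hR => ?_⟩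
  have hRa : R₁ ≤ R := (le_max_left _ _).trans hR
  have hRb : 2 ≤ R := (le_max_right _ _).trans hR
  have h5 := hR₁ R hRa
  have hH : 2 ≤ HR R := by
    unfold HR
    nlinarith
  have hHr : (2 : ℝ) ≤ (HR R : ℝ) := by exact_mod_cast hH
  have hlog : 0 < Real.log (HR R) := Real.log_pos (by linarith)
  have h6 : ((Finset.Icc 1 ⌊((HR R : ℕ) : ℝ)⌋₊).filter
      (fun p => p.Prime ∧ ((p : ℕ) : ZMod 1) = 0)).card = Nat.primeCounting (HR R) := by
    rw [Nat.floor_natCast, Nat.primeCounting, Nat.primeCounting', Nat.count_eq_card_filter_range]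
    congr 1
    ext p
    rw [Finset.mem_filter, Finset.mem_filter, Finset.mem_Icc, Finset.mem_range]
    constructor
    · rintro ⟨⟨h1, h2⟩, h3, -⟩
      exact ⟨by omega, h3⟩
    · rintro ⟨h1, h2⟩
      have := h2.two_le
      exact ⟨⟨by omega, by omega⟩, h2, Subsingleton.elim _ _⟩
  simp only [Function.comp] at h5
  rw [h6, Real.dist_eq] at h5
  have h7 : 0 < (HR R : ℝ) / Real.log (HR R) := by positivity
  have h8 : (Nat.primeCounting (HR R) : ℝ) - HR R / Real.log (HR R) =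
      ((Nat.primeCounting (HR R) : ℝ) * Real.log (HR R) / (HR R) - 1) *
        (HR R / Real.log (HR R)) := by
    field_simp
  rw [h8, abs_mul, abs_of_pos h7]
  exact mul_le_mul_of_nonneg_right h5.le h7.le

/-- the parameters of a block -/
theorem F_par (a c K η : ℝ) (ha : 3 ≤ a) (hc : 0 < c) (hc1 : c ≤ 1) (hη : 0 < η) :
    ∃ N₀ : ℕ, ∀ N : ℕ, N₀ ≤ N → ∀ R : ℕ, (Real.log N) ^ (a - 1 / 4) ≤ R →
      (R : ℝ) ≤ (Real.log N) ^ (a + 1 / 4) → ∀ X : ℕ, c * N ≤ X → X ≤ N →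
      K ≤ X ∧ 4 ≤ Real.log N ∧ 1 ≤ Real.log X ∧ PX a R X ∧
        Real.log N ≤ (1 + η) * Real.log X ∧ K ≤ R := by
  set c₁ : ℝ := -Real.log c with hc₁
  have hc₁0 : 0 ≤ c₁ := by
    rw [hc₁]
    linarith [Real.log_nonpos hc.le hc1]
  set D : ℝ := ((2 : ℝ) ^ (a + 1 / 4)) ^ 4 with hD
  have hD0 : 0 < D := by positivity
  set L₀ : ℝ := 4 + 2 * c₁ + 2 * D + (1 + η) * c₁ / η + |K| + 1 with hL₀
  have hq : 0 ≤ (1 + η) * c₁ / η := by positivity
  have hK0 := abs_nonneg K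
  have hlim : Filter.Tendsto (fun N : ℕ => Real.log (N : ℝ)) Filter.atTop Filter.atTop :=
    Real.tendsto_log_atTop.comp tendsto_natCast_atTop_atTop
  obtain ⟨N₁, hN₁⟩ := Filter.eventually_atTop.1 (hlim.eventually_ge_atTop L₀)
  obtain ⟨N₂, hN₂⟩ := exists_nat_ge (|K| / c)
  refine ⟨max N₁ (max N₂ 1), fun N hN R hRlo hRup X hX1 hX2 => ?_⟩
  have hNa : N₁ ≤ N := (le_max_left _ _).trans hN
  have hNb : N₂ ≤ N := ((le_max_left _ _).trans (le_max_right _ _)).trans hN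
  have hNc : 1 ≤ N := ((le_max_right _ _).trans (le_max_right _ _)).trans hN
  have hL := hN₁ N hNa
  set L := Real.log N with hLdef
  have hNr : (0 : ℝ) < N := by exact_mod_cast hNc
  have hXr : (0 : ℝ) < X := lt_of_lt_of_le (by positivity) hX1
  have hlX : L - c₁ ≤ Real.log X := by
    have h1 : Real.log (c * N) ≤ Real.log X := Real.log_le_log (by positivity) hX1
    rw [Real.log_mul hc.ne' hNr.ne'] at h1
    rw [hc₁]
    linarith
  have hlX2 : Real.log X ≤ L := Real.log_le_log hXr (by exact_mod_cast hX2)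
  have hKX : K ≤ X := by
    have h1 : |K| / c ≤ N := hN₂.trans (by exact_mod_cast hNb)
    rw [div_le_iff₀ hc] at h1
    have := le_abs_self K
    linarith
  have hL4 : 4 ≤ L := by linarith
  have hhalf : L / 2 ≤ Real.log X := by linarith
  have hlX1 : 1 ≤ Real.log X := by linarith
  have hL0 : 0 < L := by linarith
  have hLa : L ≤ L ^ (a - 1 / 4) := by
    calc L = L ^ (1 : ℝ) := (Real.rpow_one L).symm
      _ ≤ L ^ (a - 1 / 4) := Real.rpow_le_rpow_of_exponent_le (by linarith) (by linarith)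
  refine ⟨hKX, hL4, hlX1, ⟨?_, ?_⟩, ?_, ?_⟩
  · refine le_trans ?_ hRlo
    have h1 : (Real.log X) ^ (a - 1 / 2) ≤ L ^ (a - 1 / 2) :=
      Real.rpow_le_rpow (by linarith) hlX2 (by linarith)
    exact h1.trans (Real.rpow_le_rpow_of_exponent_le (by linarith) (by linarith))
  · refine hRup.trans ?_
    have h1 : L ^ (a + 1 / 4) ≤ (2 * Real.log X) ^ (a + 1 / 4) :=
      Real.rpow_le_rpow hL0.le (by linarith) (by linarith)
    refine h1.trans ?_
    have h5 : Real.log X ^ (a + 1 / 2) = Real.log X ^ (1 / 4 : ℝ) * Real.log X ^ (a + 1 / 4) := by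
      rw [← Real.rpow_add (by linarith)]
      congr 1
      ring
    rw [Real.mul_rpow (by norm_num) (by linarith), h5]
    have h2 : (2 : ℝ) ^ (a + 1 / 4) = D ^ (1 / 4 : ℝ) := by
      rw [hD, ← Real.rpow_natCast, ← Real.rpow_mul (by positivity)]
      norm_num
    have h3 : D ^ (1 / 4 : ℝ) ≤ (Real.log X) ^ (1 / 4 : ℝ) :=
      Real.rpow_le_rpow hD0.le (by linarith) (by norm_num)
    rw [h2]
    have h4 : 0 ≤ Real.log X ^ (a + 1 / 4) := Real.rpow_nonneg (by linarith) _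
    exact mul_le_mul_of_nonneg_right h3 h4
  · have h1 : (1 + η) * c₁ ≤ η * L := by
      have h2 : (1 + η) * c₁ / η ≤ L := by linarith
      rw [div_le_iff₀ hη] at h2
      linarith
    nlinarith
  · have := le_abs_self K
    linarith

/-- the blocks cover -/
theorem F_cover (b : ℝ) (J : ℕ) (N m : ℝ) (hN : m ≤ N) (hm : N / b ^ J < m) :
    ∃ j < J, N / b ^ (j + 1) < m ∧ m ≤ N / b ^ j := by
  classical
  have hex : ∃ j : ℕ, N / b ^ j < m := ⟨J, hm⟩
  have h1 := Nat.find_spec hex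
  have h2 : Nat.find hex ≠ 0 := by
    intro h
    rw [h, pow_zero, div_one] at h1
    linarith
  obtain ⟨j, hj⟩ := Nat.exists_eq_succ_of_ne_zero h2
  refine ⟨j, ?_, ?_, ?_⟩
  · have := Nat.find_min' hex hm
    omega
  · rw [hj] at h1
    exact h1
  · have := Nat.find_min hex (m := j) (by omega)
    linarith

/-- the arithmetic of one integer -/
private theorem F_one (ε' C S s U P lX lN lR Sig cnt : ℝ) (hC : 1 ≤ C) (he : 0 < ε') (he1 : ε' ≤ 1 / 2)
    (hs : 0 < s) (hU : 0 < U) (hlX : 1 ≤ lX) (hlXN : lX ≤ lN) (hlR : 0 < lR) (hSig0 : 0 ≤ Sig)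
    (hSig : Sig ≤ C / lR) (hS : |S - s| ≤ ε' * s) (hP : |P - U| ≤ ε' * U) (hlN : lN ≤ (1 + ε') * lX)
    (hc : |cnt - S * (U / lX) * Sig| ≤ ε' * (S * (U / (lX * lR)))) :
    |cnt - s * (P / lN) * Sig| ≤ 17 * C * ε' * (s * (P / (lN * lR))) := by
  have hlX0 : 0 < lX := by linarith
  have hlN0 : 0 < lN := by linarith
  obtain ⟨hS1, hS2⟩ := abs_le.1 hS
  obtain ⟨hP1, hP2⟩ := abs_le.1 hP
  have hP0 : 0 < P := by nlinarith
  have hUP : U ≤ 2 * P := by nlinarith
  have hUX : U / lX ≤ 4 * (P / lN) := by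
    rw [div_le_iff₀ hlX0, show 4 * (P / lN) * lX = 4 * P * lX / lN by ring, le_div_iff₀ hlN0]
    have h2 : lN ≤ 2 * lX := by nlinarith
    calc U * lN ≤ (2 * P) * (2 * lX) := mul_le_mul hUP h2 hlN0.le (by positivity)
      _ = 4 * P * lX := by ring
  have hUX0 : 0 < U / lX := by positivity
  have hPN0 : 0 < P / lN := by positivity
  have hS3 : S ≤ 2 * s := by nlinarith
  -- first part
  have h1 : ε' * (S * (U / (lX * lR))) ≤ 8 * ε' * (s * (P / (lN * lR))) := by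
    have e1 : U / (lX * lR) = U / lX / lR := by rw [div_div]
    have e2 : P / (lN * lR) = P / lN / lR := by rw [div_div]
    rw [e1, e2]
    calc ε' * (S * (U / lX / lR)) ≤ ε' * ((2 * s) * (4 * (P / lN) / lR)) := by
          refine mul_le_mul_of_nonneg_left ?_ he.le
          refine mul_le_mul hS3 ?_ (by positivity) (by positivity)
          exact div_le_div_of_nonneg_right hUX hlR.le
      _ = _ := by ring
  -- second part
  have h2 : |S * (U / lX) - s * (P / lN)| ≤ 9 * ε' * (s * (P / lN)) := by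
    have e1 : S * (U / lX) - s * (P / lN) = (S - s) * (U / lX) + s * ((U - P) / lX) +
        s * (P / lN * ((lN - lX) / lX)) := by
      field_simp
      ring
    have g1 : |(S - s) * (U / lX)| ≤ 4 * ε' * (s * (P / lN)) := by
      rw [abs_mul, abs_of_pos hUX0]
      calc |S - s| * (U / lX) ≤ (ε' * s) * (4 * (P / lN)) :=
            mul_le_mul hS hUX hUX0.le (by positivity)
        _ = _ := by ring
    have g2 : |s * ((U - P) / lX)| ≤ 4 * ε' * (s * (P / lN)) := by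
      rw [abs_mul, abs_of_pos hs, abs_div, abs_of_pos hlX0, abs_sub_comm]
      calc s * (|P - U| / lX) ≤ s * (ε' * U / lX) := by
            refine mul_le_mul_of_nonneg_left ?_ hs.le
            exact div_le_div_of_nonneg_right hP hlX0.le
        _ = ε' * s * (U / lX) := by ring
        _ ≤ ε' * s * (4 * (P / lN)) := mul_le_mul_of_nonneg_left hUX (by positivity)
        _ = _ := by ring
    have g3 : |s * (P / lN * ((lN - lX) / lX))| ≤ ε' * (s * (P / lN)) := by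
      have g4 : 0 ≤ (lN - lX) / lX := div_nonneg (by linarith) hlX0.le
      have g5 : (lN - lX) / lX ≤ ε' := by
        rw [div_le_iff₀ hlX0]
        linarith
      rw [abs_of_nonneg (by positivity)]
      calc s * (P / lN * ((lN - lX) / lX)) = (s * (P / lN)) * ((lN - lX) / lX) := by ring
        _ ≤ (s * (P / lN)) * ε' := mul_le_mul_of_nonneg_left g5 (by positivity)
        _ = _ := by ring
    rw [e1]
    calc _ ≤ |(S - s) * (U / lX) + s * ((U - P) / lX)| + |s * (P / lN * ((lN - lX) / lX))| :=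
          abs_add_le _ _
      _ ≤ |(S - s) * (U / lX)| + |s * ((U - P) / lX)| + |s * (P / lN * ((lN - lX) / lX))| := by
          gcongr
          exact abs_add_le _ _
      _ ≤ _ := by linarith
  have h3 : |S * (U / lX) * Sig - s * (P / lN) * Sig| ≤ 9 * C * ε' * (s * (P / (lN * lR))) := by
    rw [← sub_mul, abs_mul, abs_of_nonneg hSig0]
    calc |S * (U / lX) - s * (P / lN)| * Sig ≤ (9 * ε' * (s * (P / lN))) * (C / lR) :=
          mul_le_mul h2 hSig hSig0 (by positivity)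
      _ = _ := by
          field_simp
  have h4 : cnt - s * (P / lN) * Sig = (cnt - S * (U / lX) * Sig) +
      (S * (U / lX) * Sig - s * (P / lN) * Sig) := by ring
  rw [h4]
  have h5 : 0 ≤ ε' * (s * (P / (lN * lR))) := by positivity
  calc _ ≤ |cnt - S * (U / lX) * Sig| + |S * (U / lX) * Sig - s * (P / lN) * Sig| := abs_add_le _ _
    _ ≤ 8 * ε' * (s * (P / (lN * lR))) + 9 * C * ε' * (s * (P / (lN * lR))) :=
        add_le_add (hc.trans h1) h3
    _ ≤ _ := by nlinarith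

/-- the Hardy-Littlewood formula for almost all even `m ≤ N`, uniformly in `R` -/
def FING (a : ℝ) : Prop := ∀ ε δ : ℝ, 0 < ε → 0 < δ → ∃ N₀ : ℕ, ∀ N : ℕ, N₀ ≤ N → ∀ α : ℕ → ℝ, Wt α →
  ∀ R : ℕ, (Real.log N) ^ (a - 1 / 4) ≤ R → (R : ℝ) ≤ (Real.log N) ^ (a + 1 / 4) →
    (#{m ∈ Icc 1 N | Even m ∧
      ε * (Pool.Agent.MG.sing m * (Nat.primeCounting (HR R) / (Real.log N * Real.log R))) <
        |cnt α R m - Pool.Agent.MG.sing m * (Nat.primeCounting (HR R) / Real.log N) *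
          ∑ s ∈ IS R, α s / s|} : ℝ) ≤ δ * N

/-- PROOF. `C` from `recip_IS` (E3/MVp): `Σ = ∑ α/s ≤ C/log R`. `κ` from `COUNTA` for `ε' = ε/(64 C)`. Choose `J` with `(1 + κ/2)^(-J) ≤ δ/4`, `X_j = ⌊N (1 + κ/2)^(-(j+1))⌋` (`j < J`): for large `N` every `m ∈ (δ N/4, N]` has `X_j ≤ m ≤ (1 + κ) X_j`, `m ≤ 2 X_j` for some `j`,
`R = ⌊(log N)^a⌋` satisfies `PX a R X_j`, `|log X_j/log N - 1|` is small. Take `w` from `COUNTA` (`δ/(4J)`) and `SINGA` (`ε'`, `δ/4`). Outside of the exceptional sets: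
`cnt = Sg H/(log H log X_j) Σ + O(ε' Sg H/(log H log X_j log R))`, `Sg = (1 + O(ε')) sing`, `H/log H = (1 + O(ε')) π(H)` (`pi_near`), `log X_j = (1 + O(ε')) log N`. -/
theorem fing_of (a : ℝ) (ha : 3 ≤ a) (h : COUNTA a) : FING a := by
  classical
  intro ε δ hε hδ
  obtain ⟨C, hC, hrec⟩ := recip_IS
  -- the constants
  set ε' : ℝ := min (1 / 2) (ε / (17 * C)) with hε'
  have he0 : 0 < ε' := lt_min (by norm_num) (by positivity)
  have he1 : ε' ≤ 1 / 2 := min_le_left _ _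
  have he2 : 17 * C * ε' ≤ ε := by
    have h1 : ε' ≤ ε / (17 * C) := min_le_right _ _
    rw [le_div_iff₀ (by positivity)] at h1
    linarith
  obtain ⟨κ, hκ0, hκ1, hcount⟩ := h ε' he0
  set b : ℝ := 1 + κ / 2 with hb
  have hb1 : 1 < b := by
    rw [hb]
    linarith
  have hb0 : 0 < b := by linarith
  obtain ⟨J, hJ⟩ : ∃ J : ℕ, 4 / δ < b ^ J := pow_unbounded_of_one_lt _ hb1
  have hbJ : 0 < b ^ J := by positivity
  set δ' : ℝ := δ / (4 * (J + 1)) with hδ'
  have hδ'0 : 0 < δ' := by positivity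
  obtain ⟨w₁, hw₁⟩ := hcount δ' hδ'0
  obtain ⟨w₂, hw₂⟩ := singa ε' (δ / 4) he0 (by positivity)
  set w := max w₁ (max w₂ 2) with hw
  have hwa : w₁ ≤ w := le_max_left _ _
  have hwb : w₂ ≤ w := (le_max_left _ _).trans (le_max_right _ _)
  have hwc : 2 ≤ w := (le_max_right _ _).trans (le_max_right _ _)
  obtain ⟨X₀, hX₀⟩ := hw₁ w hwa
  obtain ⟨R₀, hR₀, hpi⟩ := pi_near ε' he0
  -- the parameters
  set c : ℝ := 1 / (2 * b ^ J) with hc
  have hc0 : 0 < c := by positivity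
  have hc1 : c ≤ 1 := by
    rw [hc, div_le_one (by positivity)]
    have : 1 ≤ b ^ J := one_le_pow₀ hb1.le
    linarith
  set K : ℝ := X₀ + R₀ + b / (κ / 2) + 1 with hK
  have hbk : 0 < b / (κ / 2) := by positivity
  obtain ⟨N₁, hN₁⟩ := F_par a c K ε' ha hc0 hc1 he0
  obtain ⟨N₂, hN₂⟩ := exists_nat_ge (2 * b ^ J)
  refine ⟨max N₁ (max N₂ 1), fun N hN α hα R hRlo hRup => ?_⟩
  have hNa : N₁ ≤ N := (le_max_left _ _).trans hN
  have hNb : N₂ ≤ N := ((le_max_left _ _).trans (le_max_right _ _)).trans hN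
  have hNc : 1 ≤ N := ((le_max_right _ _).trans (le_max_right _ _)).trans hN
  have hNr : (0 : ℝ) < N := by exact_mod_cast hNc
  have hNbig : 2 * b ^ J ≤ N := hN₂.trans (by exact_mod_cast hNb)
  -- the blocks
  set X : ℕ → ℕ := fun j => ⌊(N : ℝ) / b ^ (j + 1)⌋₊ with hX
  have hXle : ∀ j, (X j : ℝ) ≤ (N : ℝ) / b ^ (j + 1) := fun j => Nat.floor_le (by positivity)
  have hXN : ∀ j, X j ≤ N := by
    intro j
    have h1 : (X j : ℝ) ≤ N := (hXle j).trans (div_le_self hNr.le (one_le_pow₀ hb1.le))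
    exact_mod_cast h1
  have hXc : ∀ j < J, c * N ≤ X j := by
    intro j hj
    have h1 : (N : ℝ) / b ^ (j + 1) - 1 < X j := by
      have := Nat.lt_floor_add_one ((N : ℝ) / b ^ (j + 1))
      linarith
    have h2 : (N : ℝ) / b ^ J ≤ (N : ℝ) / b ^ (j + 1) := by
      apply div_le_div_of_nonneg_left hNr.le (by positivity)
      exact pow_le_pow_right₀ hb1.le hj
    have h3 : c * N = (N : ℝ) / b ^ J / 2 := by
      rw [hc]
      field_simp
    have h4 : 2 ≤ (N : ℝ) / b ^ J := by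
      rw [le_div_iff₀ hbJ]
      linarith
    rw [h3]
    linarith
  have hpar : ∀ j < J, K ≤ X j ∧ 4 ≤ Real.log N ∧ 1 ≤ Real.log (X j) ∧ PX a R (X j) ∧
      Real.log N ≤ (1 + ε') * Real.log (X j) ∧ K ≤ R := by
    intro j hj
    exact hN₁ N hNa R hRlo hRup (X j) (hXc j hj) (hXN j)
  -- the exceptional sets
  set Bad : ℕ → Finset ℕ := fun j => {m ∈ Icc (X j) (2 * X j) | Even m ∧ ((m : ℕ) : ℝ) ≤ (1 + κ) * X j ∧
      ε' * (Sg (primorial w) m * (HR R / (Real.log (HR R) * Real.log (X j) * Real.log R))) <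
        |cnt α R m - Sg (primorial w) m * (HR R / (Real.log (HR R) * Real.log (X j))) *
          ∑ s ∈ IS R, α s / s|} with hBad
  set BS : Finset ℕ := {m ∈ Icc 1 N | Even m ∧ ε' * Pool.Agent.MG.sing m <
    |Sg (primorial w) m - Pool.Agent.MG.sing m|} with hBS
  set Sm : Finset ℕ := {m ∈ Icc 1 N | ((m : ℕ) : ℝ) ≤ δ / 4 * N} with hSm
  have hBadc : ∀ j < J, (#(Bad j) : ℝ) ≤ δ' * N := by
    intro j hj
    obtain ⟨h1, -, -, h4, -, -⟩ := hpar j hj
    have h5 : X₀ ≤ X j := by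
      have h6 : (X₀ : ℝ) ≤ X j := by
        have : (0 : ℝ) ≤ R₀ := Nat.cast_nonneg _
        linarith
      exact_mod_cast h6
    refine (hX₀ (X j) h5 R h4 α hα).trans ?_
    exact mul_le_mul_of_nonneg_left (by exact_mod_cast hXN j) hδ'0.le
  have hBSc : (#BS : ℝ) ≤ δ / 4 * N := hw₂ w hwb N
  have hSmc : (#Sm : ℝ) ≤ δ / 4 * N := by
    have h1 : Sm ⊆ Icc 1 ⌊δ / 4 * N⌋₊ := by
      intro m hm
      rw [hSm, Finset.mem_filter, Finset.mem_Icc] at hm
      rw [Finset.mem_Icc]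
      exact ⟨hm.1.1, Nat.le_floor hm.2⟩
    calc (#Sm : ℝ) ≤ (#(Icc 1 ⌊δ / 4 * (N : ℝ)⌋₊) : ℝ) := by exact_mod_cast Finset.card_le_card h1
      _ = (⌊δ / 4 * (N : ℝ)⌋₊ : ℝ) := by
          rw [Nat.card_Icc, Nat.add_sub_cancel]
      _ ≤ δ / 4 * N := Nat.floor_le (by positivity)
  -- the inclusion
  set Fin : Finset ℕ := {m ∈ Icc 1 N | Even m ∧
      ε * (Pool.Agent.MG.sing m * (Nat.primeCounting (HR R) / (Real.log N * Real.log R))) <
        |cnt α R m - Pool.Agent.MG.sing m * (Nat.primeCounting (HR R) / Real.log N) *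
          ∑ s ∈ IS R, α s / s|} with hFin
  have hsub : Fin ⊆ Sm ∪ (BS ∪ (range J).biUnion Bad) := by
    intro m hm
    rw [hFin, Finset.mem_filter] at hm
    obtain ⟨hm1, hm2, hm3⟩ := hm
    rw [Finset.mem_Icc] at hm1
    by_contra hcon
    rw [Finset.mem_union, Finset.mem_union, not_or, not_or] at hcon
    obtain ⟨hc1', hc2', hc3'⟩ := hcon
    have hmbig : δ / 4 * N < m := by
      by_contra h1
      rw [not_lt] at h1
      exact hc1' (Finset.mem_filter.2 ⟨Finset.mem_Icc.2 hm1, h1⟩)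
    have hmS : |Sg (primorial w) m - Pool.Agent.MG.sing m| ≤ ε' * Pool.Agent.MG.sing m := by
      by_contra h1
      rw [not_le] at h1
      exact hc2' (Finset.mem_filter.2 ⟨Finset.mem_Icc.2 hm1, hm2, h1⟩)
    have hmJ : (N : ℝ) / b ^ J < m := by
      refine lt_of_le_of_lt ?_ hmbig
      rw [div_le_iff₀ hbJ]
      have h1 : 4 / δ ≤ b ^ J := hJ.le
      rw [div_le_iff₀ hδ] at h1
      nlinarith
    obtain ⟨j, hj, hj1, hj2⟩ := F_cover b J N m (by exact_mod_cast hm1.2) hmJ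
    obtain ⟨g1, g2, g3, g4, g5, g6⟩ := hpar j hj
    have hXm : X j ≤ m := by
      have h1 : (X j : ℝ) ≤ m := (hXle j).trans hj1.le
      exact_mod_cast h1
    have hXr : (0 : ℝ) ≤ X j := Nat.cast_nonneg _
    have hR0 : (0 : ℝ) ≤ R₀ := Nat.cast_nonneg _
    have hX00 : (0 : ℝ) ≤ X₀ := Nat.cast_nonneg _
    have hm4 : (m : ℝ) ≤ (1 + κ) * X j := by
      have h1 : (N : ℝ) / b ^ (j + 1) < X j + 1 := Nat.lt_floor_add_one _
      have h2 : (N : ℝ) / b ^ j = b * ((N : ℝ) / b ^ (j + 1)) := by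
        rw [pow_succ]
        field_simp
      have h3 : b ≤ κ / 2 * X j := by
        have h4 : b / (κ / 2) ≤ X j := by linarith
        rw [div_le_iff₀ (by positivity)] at h4
        linarith
      calc (m : ℝ) ≤ b * ((N : ℝ) / b ^ (j + 1)) := hj2.trans_eq h2
        _ ≤ b * (X j + 1) := mul_le_mul_of_nonneg_left h1.le hb0.le
        _ = X j + κ / 2 * X j + b := by
            rw [hb]
            ring
        _ ≤ (1 + κ) * X j := by linarith
    have hm5 : m ≤ 2 * X j := by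
      have h1 : (m : ℝ) ≤ 2 * X j := hm4.trans (by nlinarith)
      exact_mod_cast h1
    have hmB : |cnt α R m - Sg (primorial w) m * (HR R / (Real.log (HR R) * Real.log (X j))) *
        ∑ s ∈ IS R, α s / s| ≤
        ε' * (Sg (primorial w) m * (HR R / (Real.log (HR R) * Real.log (X j) * Real.log R))) := by
      by_contra h1
      rw [not_le] at h1
      apply hc3'
      rw [Finset.mem_biUnion]
      exact ⟨j, Finset.mem_range.2 hj, Finset.mem_filter.2 ⟨Finset.mem_Icc.2 ⟨hXm, hm5⟩, hm2, hm4, h1⟩⟩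
    have hRR : R₀ ≤ R := by
      have h1 : (R₀ : ℝ) ≤ R := by linarith
      exact_mod_cast h1
    have hR2 : 2 ≤ R := hR₀.trans hRR
    have hRr : (2 : ℝ) ≤ R := by exact_mod_cast hR2
    have hlR : 0 < Real.log R := Real.log_pos (by linarith)
    have hH2 : 2 ≤ HR R := by
      unfold HR
      nlinarith
    have hHr : (2 : ℝ) ≤ (HR R : ℝ) := by exact_mod_cast hH2
    have hlH : 0 < Real.log (HR R) := Real.log_pos (by linarith)
    have hsing : 0 < Pool.Agent.MG.sing m := by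
      have h1 := (AC.one_le_Sg w m hwc hm2).1
      obtain ⟨h2, h3⟩ := abs_le.1 hmS
      nlinarith
    have hSig := (hrec R hR2).1
    have hSig0 : 0 ≤ ∑ s ∈ IS R, α s / s :=
      Finset.sum_nonneg fun s _ => div_nonneg (hα s).1 (Nat.cast_nonneg _)
    have hSig1 : ∑ s ∈ IS R, α s / s ≤ C / Real.log R := by
      refine le_trans (Finset.sum_le_sum fun s _ => ?_) hSig
      exact div_le_div_of_nonneg_right (hα s).2 (Nat.cast_nonneg _)
    have e1 : (HR R : ℝ) / (Real.log (HR R) * Real.log (X j)) =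
        HR R / Real.log (HR R) / Real.log (X j) := by rw [div_div]
    have e2 : (HR R : ℝ) / (Real.log (HR R) * Real.log (X j) * Real.log R) =
        HR R / Real.log (HR R) / (Real.log (X j) * Real.log R) := by rw [div_div, mul_assoc]
    rw [e1, e2] at hmB
    have hlXN : Real.log (X j) ≤ Real.log N := by
      apply Real.log_le_log
      · have : (0 : ℝ) < X j := by linarith
        exact this
      · exact_mod_cast hXN j
    have hfin := F_one ε' C (Sg (primorial w) m) (Pool.Agent.MG.sing m) (HR R / Real.log (HR R))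
      (Nat.primeCounting (HR R)) (Real.log (X j)) (Real.log N) (Real.log R) (∑ s ∈ IS R, α s / s)
      (cnt α R m) hC he0 he1 hsing (by positivity) g3 hlXN hlR hSig0 hSig1 hmS (hpi R hRR) g5 hmB
    have hP0 : (0 : ℝ) ≤ Pool.Agent.MG.sing m *
        ((Nat.primeCounting (HR R) : ℝ) / (Real.log N * Real.log R)) := by
      have : 0 < Real.log N := by linarith
      positivity
    have hfin2 : |cnt α R m - Pool.Agent.MG.sing m * ((Nat.primeCounting (HR R) : ℝ) / Real.log N) *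
        ∑ s ∈ IS R, α s / s| ≤ ε * (Pool.Agent.MG.sing m *
        ((Nat.primeCounting (HR R) : ℝ) / (Real.log N * Real.log R))) :=
      hfin.trans (mul_le_mul_of_nonneg_right he2 hP0)
    linarith
  calc (#Fin : ℝ) ≤ (#(Sm ∪ (BS ∪ (range J).biUnion Bad)) : ℝ) := by
        exact_mod_cast Finset.card_le_card hsub
    _ ≤ (#Sm : ℝ) + ((#BS : ℝ) + (#((range J).biUnion Bad) : ℝ)) := by
        have h1 := Finset.card_union_le Sm (BS ∪ (range J).biUnion Bad)
        have h2 := Finset.card_union_le BS ((range J).biUnion Bad)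
        exact_mod_cast h1.trans (Nat.add_le_add_left h2 _)
    _ ≤ δ / 4 * N + (δ / 4 * N + J * (δ' * N)) := by
        have h3 : (#((range J).biUnion Bad) : ℝ) ≤ J * (δ' * N) := by
          calc (#((range J).biUnion Bad) : ℝ) ≤ ((∑ j ∈ range J, #(Bad j) : ℕ) : ℝ) := by
                exact_mod_cast Finset.card_biUnion_le
            _ = ∑ j ∈ range J, (#(Bad j) : ℝ) := by push_cast; rfl
            _ ≤ ∑ _j ∈ range J, δ' * N :=
                Finset.sum_le_sum fun j hj => hBadc j (Finset.mem_range.1 hj)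
            _ = J * (δ' * N) := by
                rw [Finset.sum_const, Finset.card_range, nsmul_eq_mul]
        linarith
    _ ≤ δ * N := by
        have h4 : (J : ℝ) * (δ' * N) ≤ δ / 4 * N := by
          have h5 : (J : ℝ) * δ' ≤ δ / 4 := by
            rw [hδ', mul_div_assoc', div_le_div_iff₀ (by positivity) (by norm_num)]
            nlinarith
          calc (J : ℝ) * (δ' * N) = ((J : ℝ) * δ') * N := by ring
            _ ≤ δ / 4 * N := mul_le_mul_of_nonneg_right h5 hNr.le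
        have h6 : 0 ≤ δ / 4 * N := by positivity
        linarith

/-- the case `R = ⌊(log N)^a⌋` -/
theorem finf_of (a : ℝ) (ha : 3 ≤ a) (h : COUNTA a) : FINF a := by
  intro ε δ hε hδ
  obtain ⟨N₁, hN₁⟩ := fing_of a ha h ε δ hε hδ
  have hlim : Filter.Tendsto (fun N : ℕ => Real.log (N : ℝ)) Filter.atTop Filter.atTop :=
    Real.tendsto_log_atTop.comp tendsto_natCast_atTop_atTop
  obtain ⟨N₂, hN₂⟩ := Filter.eventually_atTop.1 (hlim.eventually_ge_atTop 16)
  refine ⟨max N₁ N₂, fun N hN α hα R hR => ?_⟩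
  have hL := hN₂ N ((le_max_right _ _).trans hN)
  set L := Real.log N with hLdef
  have hL0 : 0 < L := by linarith
  have hfl : L ^ a - 1 ≤ (R : ℝ) := by
    have := Nat.lt_floor_add_one (L ^ a)
    rw [hR]
    linarith
  have hfu : (R : ℝ) ≤ L ^ a := by
    rw [hR]
    exact Nat.floor_le (by positivity)
  refine hN₁ N ((le_max_left _ _).trans hN) α hα R ?_ ?_
  · have h2 : L ^ a = L ^ (a - 1 / 4) * L ^ (1 / 4 : ℝ) := by
      rw [← Real.rpow_add hL0]
      congr 1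
      ring
    have h3 : (2 : ℝ) ≤ L ^ (1 / 4 : ℝ) := by
      have h5 : (2 : ℝ) = (16 : ℝ) ^ (1 / 4 : ℝ) := by
        rw [show (16 : ℝ) = 2 ^ (4 : ℕ) by norm_num, ← Real.rpow_natCast, ← Real.rpow_mul (by norm_num)]
        norm_num
      calc (2 : ℝ) = (16 : ℝ) ^ (1 / 4 : ℝ) := h5
        _ ≤ L ^ (1 / 4 : ℝ) := Real.rpow_le_rpow (by norm_num) hL (by norm_num)
    have h4 : 1 ≤ L ^ (a - 1 / 4) := Real.one_le_rpow (by linarith) (by linarith)
    nlinarith
  · exact hfu.trans (Real.rpow_le_rpow_of_exponent_le (by linarith) (by linarith))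

end Pool.Agent.Lib.MP_bae66e_nt.EF
end
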