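import Pool.Agent.Lib.MP_bae66e_nt.Mg.G012
import Pool.Agent.Lib.MP_bae66e_nt.Mg.G021
import Pool.Agent.Lib.MP_bae66e_nt.Mg.G006
import Pool.Agent.Lib.MP_bae66e_nt.Mg.G032
import Pool.Agent.Lib.MP_bae66e_nt.Mg.G020
import Pool.Agent.Lib.MP_bae66e_nt.Mg.G035
import Pool.Agent.Lib.MP_bae66e_nt.Mg.G024
import Pool.Agent.Lib.MP_bae66e_nt.Mg.G036

section

/-!
# D3: duality for the rough integers at well spaced points
-/

set_option autoImplicit false

namespace Pool.Agent.E3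

open Finset MeasureTheory Real
open Pool.Agent.Lib.MP_bae66e_nt.AP3 (Rough prI KT)

private theorem D3_ch_mul_conj {W : ℕ} (χ : DirichletCharacter ℂ W) (n : ℕ) :
    ch χ n * (starRingEnd ℂ) (ch χ n) = ch (1 : DirichletCharacter ℂ W) n := by
  unfold ch
  by_cases h : IsUnit (n : ZMod W)
  · rw [MulChar.one_apply h, RCLike.mul_conj]
    obtain ⟨a, ha⟩ := h
    rw [← ha, DirichletCharacter.unit_norm_eq_one]
    simp
  · rw [MulChar.map_nonunit χ h, MulChar.map_nonunit _ h, zero_mul]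

private theorem D3_ph_mul_conj (t t' y : ℝ) :
    ph t y * (starRingEnd ℂ) (ph t' y) = ph (t - t') y := by
  unfold ph
  rw [← Complex.exp_conj, ← Complex.exp_add]
  congr 1
  rw [map_mul, Complex.conj_I, Complex.conj_ofReal]
  push_cast
  ring

private theorem D3_term {W : ℕ} (χ : DirichletCharacter ℂ W) (t t' g d : ℝ) (n : ℕ) (y : ℝ) :
    ((d * g : ℝ) : ℂ) * (ch χ n * ph t y * (starRingEnd ℂ) (ch χ n * ph t' y)) =
      (d : ℂ) * (ch (1 : DirichletCharacter ℂ W) n * ph (t - t') y * (g : ℂ)) := by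
  rw [map_mul, ← D3_ch_mul_conj χ, ← D3_ph_mul_conj t t' y]
  push_cast
  ring

private theorem D3_free (W z n : ℕ) (h : Rough z n) :
    free ((prI 0 z).filter (fun ℓ => ¬ ℓ ∣ W)) n = 1 := by
  unfold free
  rw [if_pos]
  intro ℓ hℓ hd
  rw [Finset.mem_filter, Pool.Agent.Lib.MP_bae66e_nt.AP3.mem_prI] at hℓ
  have := h ℓ hℓ.1.2 hd
  omega

private theorem D3_small {c C x : ℝ} (hc : 0 < c) (hC : 1 ≤ C) (hx : 8 * C / c ^ 2 ≤ x) :
    C * Real.exp (-(c * x / 2)) ≤ 1 / x := by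
  have hx0 : 0 < x := lt_of_lt_of_le (by positivity) hx
  have h1 : (c * x / 2) ^ 2 / 2 ≤ Real.exp (c * x / 2) := by
    have := Real.quadratic_le_exp_of_nonneg (show 0 ≤ c * x / 2 by positivity)
    nlinarith [show 0 ≤ c * x / 2 by positivity]
  rw [Real.exp_neg, ← div_eq_mul_inv, div_le_div_iff₀ (Real.exp_pos _) hx0, one_mul]
  refine le_trans ?_ h1
  rw [div_le_iff₀ (by positivity)] at hx
  nlinarith

/-- PROOF. `b0, c` from `kernel`, `θ = c / 5`, `u` the weights of `kernel` with `b = b0`. Put `Z = max N ⌈exp (2x)⌉`,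
`M = Icc 1 Z` restricted to the `n` coprime to `W` (i.e. `ch 1 n = 1`), `N' = {n ∈ RS z N : n coprime to W}`. The terms with
`ch χ n = 0` vanish, so `WIN (b · ch χ) β (RS z N) t x = ∑_{n ∈ N'} (b n gs β x (log n) / n) φ t n`, `φ t n = ch χ n ph t (log n)`.
`dual_schur` with `w n = dsum u n · gs β x (log n) / n`, which is `≥ gs β x (log n) / n > 0` on `N'` (`free = 1` there, because
`n` is `z`-rough) and `≥ 0` on `M` (`free ≥ 0`). For `t, t' ∈ T`: `φ t n conj (φ t' n) = ch 1 n ph (t - t') (log n)` for `n` coprime to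
`W`, and for the other `n ∈ Icc 1 Z` one has `ch 1 n = 0`; so the kernel sum is that of `kernel` with `χ = 1`, `v = t - t'`,
`|v| ≤ 2 X ≤ exp (5 x)` (`5 x ≥ 2.25 log X`). By `spaced_gauss` (`γ = 1/(4β)`), `KT z ≤ C / log z` (`KT_le`) the row sums are
`≤ C / log z + #T C exp (- c x) ≤ C' / log z`, because `#T ≤ X^θ ≤ exp (c x / 2)` and `exp (- c x / 2) ≤ 1 / x ≤ 1 / log z` for
`X ≥ X₀(W)` (the constant `C` of `kernel` depends on `W`; use `C exp (- c x/2) ≤ 1/x` for large `x`). The right side: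
`‖b n gs / n‖² / w n ≤ ‖b n‖² gs / n`. -/
theorem dual_rough : ∃ θ : ℝ, 0 < θ ∧ θ ≤ 1 / 20 ∧ ∃ b0 : ℕ, ∀ β : ℝ, 0 < β → ∃ C : ℝ, 1 ≤ C ∧
    ∀ W : ℕ, 1 ≤ W → ∃ X₀ : ℕ, ∀ X : ℕ, X₀ ≤ X → ∀ (χ : DirichletCharacter ℂ W) (z : ℕ), 2 ≤ z → W ≤ z →
    ∀ x : ℝ, 0.45 * Real.log X ≤ x → (8 * b0 + 12) * Real.log z ≤ x →
    ∀ T : Finset ℝ, Spaced T → (∀ t ∈ T, |t| ≤ X) → (#T : ℝ) ≤ (X : ℝ) ^ θ →
    ∀ (N : ℕ) (b : ℕ → ℂ),
      ∑ t ∈ T, ‖WIN (fun n => b n * ch χ n) β (RS z N) t x‖ ^ 2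
        ≤ C / Real.log z * ∑ n ∈ RS z N, ‖b n‖ ^ 2 * gs β x (Real.log n) / n := by
  classical
  obtain ⟨b0, c, hc, hc4, HK⟩ := kernel
  refine ⟨c / 5, by positivity, by linarith, b0, fun β hβ => ?_⟩
  obtain ⟨Cg, hCg, HG⟩ := spaced_gauss (1 / (4 * β)) (by positivity)
  refine ⟨2 * Real.sqrt (π / β) * Cg + 1, by
    have : 0 ≤ 2 * Real.sqrt (π / β) * Cg := by positivity
    linarith, fun W hW => ?_⟩
  obtain ⟨Ck, hCk, HK2⟩ := HK β hβ W hW
  refine ⟨⌈Real.exp (8 * Ck / c ^ 2 / 0.45)⌉₊ + 2, ?_⟩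
  intro X hX χ z hz hWz x hxX hxz T hT hTX hTcard N b
  obtain ⟨u, e, hue, hker⟩ := HK2 b0 z le_rfl hz hWz
  have hXe : Real.exp (8 * Ck / c ^ 2 / 0.45) ≤ (X : ℝ) := by
    refine (Nat.le_ceil _).trans ?_
    exact_mod_cast (by omega : ⌈Real.exp (8 * Ck / c ^ 2 / 0.45)⌉₊ ≤ X)
  have hX2 : (2 : ℝ) ≤ X := by exact_mod_cast (by omega : 2 ≤ X)
  have hX0 : (0 : ℝ) < X := by linarith
  have hlogX : 8 * Ck / c ^ 2 / 0.45 ≤ Real.log X := (Real.le_log_iff_exp_le hX0).mpr hXe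
  have hxbig : 8 * Ck / c ^ 2 ≤ x := by
    rw [div_le_iff₀ (by norm_num)] at hlogX
    linarith
  have hx0 : 0 < x := lt_of_lt_of_le (by positivity) hxbig
  have hz' : (2 : ℝ) ≤ z := by exact_mod_cast hz
  have hlz : 0 < Real.log z := Real.log_pos (by linarith)
  have hlzx : Real.log z ≤ x := by
    refine le_trans ?_ hxz
    have : (0 : ℝ) ≤ b0 := Nat.cast_nonneg _
    nlinarith
  -- the set of all integers
  obtain ⟨Z, hZ⟩ : ∃ Z : ℕ, Z = max N ⌈Real.exp (2 * x)⌉₊ := ⟨_, rfl⟩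
  have hZexp : Real.exp (2 * x) ≤ Z := by
    refine (Nat.le_ceil _).trans ?_
    rw [hZ]
    exact_mod_cast le_max_right _ _
  have hsub : RS z N ⊆ Icc 1 Z := by
    intro n hn
    unfold RS at hn
    rw [Finset.mem_filter, Finset.mem_Icc] at hn
    rw [Finset.mem_Icc, hZ]
    exact ⟨by omega, hn.1.2.trans (le_max_left _ _)⟩
  have hdsum0 : ∀ n, 1 ≤ n → 0 ≤ dsum u n := fun n hn => by
    refine le_trans ?_ (hue n hn).1
    unfold free
    split_ifs <;> norm_num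
  have hdsum1 : ∀ n ∈ RS z N, 1 ≤ dsum u n := fun n hn => by
    unfold RS at hn
    rw [Finset.mem_filter, Finset.mem_Icc] at hn
    have := (hue n (by omega)).1
    rwa [D3_free W z n hn.2] at this
  have hgs : ∀ n : ℕ, 1 ≤ n → 0 < gs β x (Real.log n) / n := fun n hn => by
    have : (0 : ℝ) < n := by exact_mod_cast hn
    unfold gs
    positivity
  have key := dual_schur T (RS z N) (Icc 1 Z) hsub (fun t n => ch χ n * ph t (Real.log n))
    (fun n => dsum u n * (gs β x (Real.log n) / n))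
    ((2 * Real.sqrt (π / β) * Cg + 1) / Real.log z) (by positivity)
    (fun n hn => mul_nonneg (hdsum0 n (Finset.mem_Icc.1 hn).1) (hgs n (Finset.mem_Icc.1 hn).1).le)
    (fun n hn => mul_pos (by linarith [hdsum1 n hn]) (hgs n (Finset.mem_Icc.1 (hsub hn)).1))
    ?_ (fun n => b n * ((gs β x (Real.log n) / n : ℝ) : ℂ))
  · have e1 : ∀ t ∈ T, ‖WIN (fun n => b n * ch χ n) β (RS z N) t x‖ ^ 2 =
        ‖∑ n ∈ RS z N, b n * ((gs β x (Real.log n) / n : ℝ) : ℂ) *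
          (ch χ n * ph t (Real.log n))‖ ^ 2 := by
      intro t _
      unfold WIN
      congr 2
      refine Finset.sum_congr rfl fun n _ => ?_
      ring
    rw [Finset.sum_congr rfl e1]
    refine key.trans ?_
    refine mul_le_mul_of_nonneg_left (Finset.sum_le_sum fun n hn => ?_) (by positivity)
    have hg := hgs n (Finset.mem_Icc.1 (hsub hn)).1
    have hd := hdsum1 n hn
    rw [norm_mul, Complex.norm_real, Real.norm_of_nonneg hg.le, mul_div_assoc,
      div_le_iff₀ (mul_pos (by linarith) hg)]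
    have h0 : 0 ≤ ‖b n‖ ^ 2 := by positivity
    have h1 : ‖b n‖ ^ 2 * (gs β x (Real.log n) / n) ^ 2 * 1 ≤
        ‖b n‖ ^ 2 * (gs β x (Real.log n) / n) ^ 2 * dsum u n :=
      mul_le_mul_of_nonneg_left hd (by positivity)
    calc (‖b n‖ * (gs β x (Real.log n) / n)) ^ 2
        = ‖b n‖ ^ 2 * (gs β x (Real.log n) / n) ^ 2 * 1 := by ring
      _ ≤ _ := h1
      _ = ‖b n‖ ^ 2 * (gs β x (Real.log n) / n) * (dsum u n * (gs β x (Real.log n) / n)) := by
        ring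
  · intro t ht
    have hrow : ∀ t' ∈ T, ‖∑ n ∈ Icc 1 Z,
        ((dsum u n * (gs β x (Real.log n) / n) : ℝ) : ℂ) *
          (ch χ n * ph t (Real.log n) * (starRingEnd ℂ) (ch χ n * ph t' (Real.log n)))‖ ≤
        2 * Real.sqrt (π / β) * KT z * Real.exp (-(1 / (4 * β) * (t - t') ^ 2)) +
          Ck * Real.exp (-(c * x)) := by
      intro t' ht'
      have hterm : ∀ n ∈ Icc 1 Z, ((dsum u n * (gs β x (Real.log n) / n) : ℝ) : ℂ) *
          (ch χ n * ph t (Real.log n) * (starRingEnd ℂ) (ch χ n * ph t' (Real.log n))) =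
          ((dsum u n : ℝ) : ℂ) * (ch (1 : DirichletCharacter ℂ W) n * ph (t - t') (Real.log n) *
            ((gs β x (Real.log n) / n : ℝ) : ℂ)) := fun n _ =>
        D3_term χ t t' (gs β x (Real.log n) / n) (dsum u n) n (Real.log n)
      rw [Finset.sum_congr rfl hterm]
      have hv : |t - t'| ≤ Real.exp (5 * x) := by
        have h1 : |t - t'| ≤ 2 * X := by
          refine (abs_sub t t').trans ?_
          linarith [hTX t ht, hTX t' ht']
        refine h1.trans ?_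
        rw [← Real.log_le_iff_le_exp (by positivity), Real.log_mul (by norm_num) hX0.ne']
        have h2 : Real.log 2 ≤ Real.log X := Real.log_le_log (by norm_num) hX2
        have h3 : 0 ≤ Real.log 2 := Real.log_nonneg (by norm_num)
        nlinarith
      have h1 := (hker 1 x (t - t') Z hxz hZexp hv).1
      rw [if_pos rfl] at h1
      refine h1.trans (le_of_eq ?_)
      congr 1
      have h2 : (t - t') ^ 2 / (4 * β) = 1 / (4 * β) * (t - t') ^ 2 := by ring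
      rw [h2]
      ring
    refine (Finset.sum_le_sum hrow).trans ?_
    rw [Finset.sum_add_distrib, ← Finset.mul_sum, Finset.sum_const, nsmul_eq_mul, add_div]
    have hKT0 := Pool.Agent.Lib.MP_bae66e_nt.AP3.KT_pos z
    have hKT : KT z ≤ 1 / Real.log z := by
      refine (Pool.Agent.Lib.MP_bae66e_nt.AP3.KT_le z (by omega)).trans ?_
      exact one_div_le_one_div_of_le hlz (Real.log_le_log (by linarith) (by linarith))
    refine add_le_add ?_ ?_
    · calc 2 * Real.sqrt (π / β) * KT z * ∑ t' ∈ T, Real.exp (-(1 / (4 * β) * (t - t') ^ 2))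
          ≤ 2 * Real.sqrt (π / β) * (1 / Real.log z) * Cg := by
            refine mul_le_mul ?_ (HG T hT t) (Finset.sum_nonneg fun _ _ => (Real.exp_pos _).le)
              (by positivity)
            exact mul_le_mul_of_nonneg_left hKT (by positivity)
        _ = 2 * Real.sqrt (π / β) * Cg / Real.log z := by ring
    · have h1 : (#T : ℝ) ≤ Real.exp (c * x / 2) := by
        refine hTcard.trans ?_
        rw [Real.rpow_def_of_pos hX0]
        refine Real.exp_le_exp.mpr ?_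
        have h2 : Real.log X ≤ x / 0.45 := by
          rw [le_div_iff₀ (by norm_num)]
          linarith
        have h3 : Real.log X * (c / 5) ≤ x / 0.45 * (c / 5) :=
          mul_le_mul_of_nonneg_right h2 (by positivity)
        refine h3.trans ?_
        have h4 : 0 < c * x := by positivity
        have h5 : x / 0.45 * (c / 5) = c * x * (1 / 2.25) := by ring
        rw [h5]
        nlinarith
      have h2 : (#T : ℝ) * (Ck * Real.exp (-(c * x))) ≤ Ck * Real.exp (-(c * x / 2)) := by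
        calc (#T : ℝ) * (Ck * Real.exp (-(c * x)))
            ≤ Real.exp (c * x / 2) * (Ck * Real.exp (-(c * x))) :=
              mul_le_mul_of_nonneg_right h1 (by positivity)
          _ = Ck * Real.exp (-(c * x / 2)) := by
              rw [mul_left_comm, ← Real.exp_add]
              congr 2
              ring
      refine h2.trans ((D3_small hc hCk hxbig).trans ?_)
      exact one_div_le_one_div_of_le hlz hlzx

end Pool.Agent.E3
end

section

/-!
# D5: duality, integrated over the windows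
-/

set_option autoImplicit false

namespace Pool.Agent.E3

open Finset MeasureTheory Real
open Pool.Agent.Lib.MP_bae66e_nt.AP3 (Rough prI KT)

private theorem D5_gs_nonneg (β x y : ℝ) : 0 ≤ gs β x y := (Real.exp_pos _).le

private theorem D5_ph_norm (u x : ℝ) : ‖ph u x‖ = 1 := by
  unfold ph
  exact Complex.norm_exp_ofReal_mul_I _

/-- the trivial bound for the window -/
private theorem D5_win_small (b : ℕ → ℂ) {W : ℕ} (χ : DirichletCharacter ℂ W) (z N : ℕ) (t x L : ℝ)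
    (hL : 0 ≤ L) (hx : x ≤ 0.45 * L) (hb : ∀ n, b n ≠ 0 → 0.47 * L ≤ Real.log n) :
    ‖WIN (fun n => b n * ch χ n) 2 (RS z N) t x‖
      ≤ (∑ n ∈ RS z N, ‖b n‖ / n) * (Real.exp (-(0.0008 * L ^ 2)) * Real.exp (-(2 * (x - 0.45 * L) ^ 2))) := by
  unfold WIN
  refine (norm_sum_le _ _).trans ?_
  rw [Finset.sum_mul]
  refine Finset.sum_le_sum fun n hn => ?_
  by_cases h0 : b n = 0
  · simp [h0]
  have h1 := hb n h0
  have hch : ‖ch χ n‖ ≤ 1 := DirichletCharacter.norm_le_one χ _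
  have hgs : gs 2 x (Real.log n) ≤ Real.exp (-(0.0008 * L ^ 2)) * Real.exp (-(2 * (x - 0.45 * L) ^ 2)) := by
    rw [← Real.exp_add]
    unfold gs
    apply Real.exp_le_exp.mpr
    have h2 : 0.02 * L + (0.45 * L - x) ≤ Real.log n - x := by linarith
    have h3 : 0 ≤ 0.45 * L - x := by linarith
    have h4 : (0.02 * L + (0.45 * L - x)) ^ 2 ≤ (Real.log n - x) ^ 2 := by
      apply pow_le_pow_left₀ _ h2
      positivity
    have h5 : 0 ≤ L * (0.45 * L - x) := mul_nonneg hL h3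
    nlinarith
  rw [norm_mul, norm_mul, norm_mul, D5_ph_norm, mul_one, Complex.norm_real, Real.norm_eq_abs,
    abs_of_nonneg (by have := D5_gs_nonneg 2 x (Real.log n); positivity)]
  calc ‖b n‖ * ‖ch χ n‖ * (gs 2 x (Real.log n) / n)
      ≤ ‖b n‖ * 1 * ((Real.exp (-(0.0008 * L ^ 2)) * Real.exp (-(2 * (x - 0.45 * L) ^ 2))) / n) := by
        have := D5_gs_nonneg 2 x (Real.log n)
        gcongr
    _ = ‖b n‖ / n * (Real.exp (-(0.0008 * L ^ 2)) * Real.exp (-(2 * (x - 0.45 * L) ^ 2))) := by ring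

private theorem D5_large : ∃ X₁ : ℕ, 1 ≤ X₁ ∧ ∀ X : ℕ, X₁ ≤ X →
    0 ≤ Real.log X ∧ (X : ℝ) * Real.exp (-(0.0016 * (Real.log X) ^ 2)) ≤ 1 / X := by
  refine ⟨⌈Real.exp 1250⌉₊ + 1, by omega, fun X hX => ?_⟩
  have h1 : Real.exp 1250 ≤ X := by
    have h2 : (⌈Real.exp 1250⌉₊ : ℝ) ≤ X := by exact_mod_cast (show ⌈Real.exp 1250⌉₊ ≤ X by omega)
    exact (Nat.le_ceil _).trans h2
  have hX0 : (0 : ℝ) < X := lt_of_lt_of_le (Real.exp_pos _) h1
  have hL : 1250 ≤ Real.log X := by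
    rw [Real.le_log_iff_exp_le hX0]
    exact h1
  refine ⟨by linarith, ?_⟩
  have h3 : (X : ℝ) = Real.exp (Real.log X) := (Real.exp_log hX0).symm
  have h4 : (1 : ℝ) / X = Real.exp (-(Real.log X)) := by
    rw [Real.exp_neg, Real.exp_log hX0, one_div]
  rw [h4]
  calc (X : ℝ) * Real.exp (-(0.0016 * (Real.log X) ^ 2))
      = Real.exp (Real.log X) * Real.exp (-(0.0016 * (Real.log X) ^ 2)) := by rw [Real.exp_log hX0]
    _ = Real.exp (Real.log X + -(0.0016 * (Real.log X) ^ 2)) := (Real.exp_add _ _).symm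
    _ ≤ Real.exp (-(Real.log X)) := by
        apply Real.exp_le_exp.mpr
        nlinarith

/-- the pointwise bound -/
private theorem D5_pointwise (C θ : ℝ) (b0 W X : ℕ) (hC : 1 ≤ C) (hL : 0 ≤ Real.log X)
    (χ : DirichletCharacter ℂ W) (z : ℕ) (hz : 2 ≤ z)
    (hzL : (8 * b0 + 12) * Real.log z ≤ 0.45 * Real.log X) (T : Finset ℝ)
    (N : ℕ) (b : ℕ → ℂ) (hb : ∀ n, b n ≠ 0 → 0.47 * Real.log X ≤ Real.log n)
    (H : ∀ x : ℝ, 0.45 * Real.log X ≤ x → (8 * b0 + 12) * Real.log z ≤ x →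
      ∑ t ∈ T, ‖WIN (fun n => b n * ch χ n) 2 (RS z N) t x‖ ^ 2
        ≤ C / Real.log z * ∑ n ∈ RS z N, ‖b n‖ ^ 2 * gs 2 x (Real.log n) / n) (x : ℝ) :
    ∑ t ∈ T, ‖WIN (fun n => b n * ch χ n) 2 (RS z N) t x‖ ^ 2
      ≤ C / Real.log z * (∑ n ∈ RS z N, ‖b n‖ ^ 2 * gs 2 x (Real.log n) / n)
        + (#T : ℝ) * (∑ n ∈ RS z N, ‖b n‖ / n) ^ 2 * Real.exp (-(0.0016 * (Real.log X) ^ 2))
          * gs 4 x (0.45 * Real.log X) := by
  have hlz : 0 < Real.log z := Real.log_pos (by exact_mod_cast hz)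
  have hA : 0 ≤ C / Real.log z * (∑ n ∈ RS z N, ‖b n‖ ^ 2 * gs 2 x (Real.log n) / n) := by
    apply mul_nonneg (by positivity)
    apply Finset.sum_nonneg
    intro n _
    have := D5_gs_nonneg 2 x (Real.log n)
    positivity
  have hB : 0 ≤ (#T : ℝ) * (∑ n ∈ RS z N, ‖b n‖ / n) ^ 2 * Real.exp (-(0.0016 * (Real.log X) ^ 2))
          * gs 4 x (0.45 * Real.log X) := by
    have := D5_gs_nonneg 4 x (0.45 * Real.log X)
    positivity
  rcases le_total (0.45 * Real.log X) x with hx | hx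
  · have := H x hx (hzL.trans hx)
    linarith
  · have h1 : ∀ t ∈ T, ‖WIN (fun n => b n * ch χ n) 2 (RS z N) t x‖ ^ 2
        ≤ (∑ n ∈ RS z N, ‖b n‖ / n) ^ 2 * Real.exp (-(0.0016 * (Real.log X) ^ 2))
          * gs 4 x (0.45 * Real.log X) := by
      intro t _
      have h2 := D5_win_small b χ z N t x (Real.log X) hL hx hb
      have h3 := pow_le_pow_left₀ (norm_nonneg _) h2 2
      refine h3.trans (le_of_eq ?_)
      rw [mul_pow, mul_pow, ← Real.exp_nat_mul, ← Real.exp_nat_mul, ← mul_assoc]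
      unfold gs
      congr 1
      · congr 2
        push_cast
        ring
      · congr 1
        push_cast
        ring
    have h2 := Finset.sum_le_sum h1
    rw [Finset.sum_const, nsmul_eq_mul] at h2
    have h3 : (#T : ℝ) * ((∑ n ∈ RS z N, ‖b n‖ / n) ^ 2 * Real.exp (-(0.0016 * (Real.log X) ^ 2))
          * gs 4 x (0.45 * Real.log X)) = (#T : ℝ) * (∑ n ∈ RS z N, ‖b n‖ / n) ^ 2 *
          Real.exp (-(0.0016 * (Real.log X) ^ 2)) * gs 4 x (0.45 * Real.log X) := by ring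
    rw [h3] at h2
    linarith

/-- PROOF. `θ, b0` from `dual_rough`, `β = 2`. Let `L = log X`. For `x ≥ 0.45 L`: `dual_rough` (the condition `(8 b0 + 12) log z ≤ x` holds);
integrate, `∫ gs 2 x (log n) dx ≤ √(π/2) ≤ 2`: contribution `≤ (2 C / log z) ∑ ‖b n‖² / n`. For `x < 0.45 L`:
all `n` with `b n ≠ 0` have `log n - x ≥ 0.02 L + (0.45 L - x)`, so
`‖WIN‖ ≤ B exp (- 2 (0.02 L + r)²)`, `B = ∑ ‖b n‖ / n`, `r = 0.45 L - x ≥ 0`, and
`∫ ‖WIN‖² ≤ B² exp (- 4 (0.02 L)²) ∫_0^∞ exp (- 4 r²) dr ≤ B² exp (- 0.0016 L²)`; sum over `t ∈ T`: `#T ≤ X`, and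
`X exp (- 0.0016 L²) ≤ X^(-1)` for large `X`. (Exchange of the finite sum over `T` with the integral:
`planch_WIN` gives the integrability.) -/
theorem dual_int : ∃ θ : ℝ, 0 < θ ∧ θ ≤ 1 / 20 ∧ ∃ b0 : ℕ, ∃ C : ℝ, 1 ≤ C ∧
    ∀ W : ℕ, 1 ≤ W → ∃ X₀ : ℕ, ∀ X : ℕ, X₀ ≤ X → ∀ (χ : DirichletCharacter ℂ W) (z : ℕ), 2 ≤ z → W ≤ z →
    (8 * b0 + 12) * Real.log z ≤ 0.45 * Real.log X →
    ∀ T : Finset ℝ, Spaced T → (∀ t ∈ T, |t| ≤ X) → (#T : ℝ) ≤ (X : ℝ) ^ θ →
    ∀ (N : ℕ) (b : ℕ → ℂ), (∀ n, b n ≠ 0 → 0.47 * Real.log X ≤ Real.log n) →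
      ∑ t ∈ T, ∫ x : ℝ, ‖WIN (fun n => b n * ch χ n) 2 (RS z N) t x‖ ^ 2
        ≤ C / Real.log z * (∑ n ∈ RS z N, ‖b n‖ ^ 2 / n) + 1 / X * (∑ n ∈ RS z N, ‖b n‖ / n) ^ 2 := by
  obtain ⟨θ, hθ0, hθ1, b0, hD⟩ := dual_rough
  obtain ⟨C, hC, hD⟩ := hD 2 (by norm_num)
  refine ⟨θ, hθ0, hθ1, b0, 2 * C, by linarith, fun W hW => ?_⟩
  obtain ⟨X₀, hD⟩ := hD W hW
  obtain ⟨X₁, hX₁, hlarge⟩ := D5_large
  refine ⟨max X₀ X₁, fun X hX χ z hz hWz hzL T hT hTX hTc N b hb => ?_⟩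
  obtain ⟨hL, hXe⟩ := hlarge X ((le_max_right _ _).trans hX)
  have hX1 : 1 ≤ X := hX₁.trans ((le_max_right _ _).trans hX)
  have hX1' : (1 : ℝ) ≤ X := by exact_mod_cast hX1
  have hlz : 0 < Real.log z := Real.log_pos (by exact_mod_cast hz)
  have hpt := D5_pointwise C θ b0 W X hC hL χ z hz hzL T N b hb
    (fun x hx hx' => hD X ((le_max_left _ _).trans hX) χ z hz hWz x hx hx' T hT hTX hTc N b)
  have hint : ∀ t ∈ T, Integrable (fun x : ℝ => ‖WIN (fun n => b n * ch χ n) 2 (RS z N) t x‖ ^ 2) :=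
    fun t _ => (planch_WIN (fun n => b n * ch χ n) (RS z N) 2 t (by norm_num)).1
  rw [← integral_finsetSum T hint]
  have hi1 : Integrable (fun x : ℝ => C / Real.log z *
      (∑ n ∈ RS z N, ‖b n‖ ^ 2 * gs 2 x (Real.log n) / n)) := by
    apply Integrable.const_mul
    apply integrable_finsetSum
    intro n _
    exact ((gs_integrable 2 (Real.log n) (by norm_num)).const_mul _).div_const _
  have hi2 : Integrable (fun x : ℝ => (#T : ℝ) * (∑ n ∈ RS z N, ‖b n‖ / n) ^ 2 *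
      Real.exp (-(0.0016 * (Real.log X) ^ 2)) * gs 4 x (0.45 * Real.log X)) :=
    (gs_integrable 4 _ (by norm_num)).const_mul _
  refine (integral_mono (integrable_finsetSum T hint) (hi1.add hi2) hpt).trans ?_
  have hsplit : ∫ x : ℝ, (C / Real.log z * (∑ n ∈ RS z N, ‖b n‖ ^ 2 * gs 2 x (Real.log n) / n)
      + (#T : ℝ) * (∑ n ∈ RS z N, ‖b n‖ / n) ^ 2 *
      Real.exp (-(0.0016 * (Real.log X) ^ 2)) * gs 4 x (0.45 * Real.log X))
      = C / Real.log z * (∑ n ∈ RS z N, ‖b n‖ ^ 2 * Real.sqrt (π / 2) / n)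
        + (#T : ℝ) * (∑ n ∈ RS z N, ‖b n‖ / n) ^ 2 *
      Real.exp (-(0.0016 * (Real.log X) ^ 2)) * Real.sqrt (π / 4) := by
    rw [integral_add hi1 hi2, integral_const_mul, integral_const_mul, gs_integral 4 _ (by norm_num),
      integral_finsetSum]
    · congr 2
      refine Finset.sum_congr rfl fun n _ => ?_
      rw [integral_div, integral_const_mul, gs_integral 2 _ (by norm_num)]
    · intro n _
      exact ((gs_integrable 2 (Real.log n) (by norm_num)).const_mul _).div_const _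
  refine (le_of_eq hsplit).trans ?_
  have hs2 : Real.sqrt (π / 2) ≤ 2 := by
    rw [Real.sqrt_le_left (by norm_num)]
    have := Real.pi_le_four
    linarith
  have hs4 : Real.sqrt (π / 4) ≤ 1 := by
    rw [Real.sqrt_le_one]
    have := Real.pi_le_four
    linarith
  apply add_le_add
  · have h1 : ∑ n ∈ RS z N, ‖b n‖ ^ 2 * Real.sqrt (π / 2) / n ≤ 2 * ∑ n ∈ RS z N, ‖b n‖ ^ 2 / n := by
      rw [Finset.mul_sum]
      refine Finset.sum_le_sum fun n _ => ?_
      have h2 : ‖b n‖ ^ 2 * Real.sqrt (π / 2) / n ≤ ‖b n‖ ^ 2 * 2 / n := by gcongr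
      refine h2.trans (le_of_eq ?_)
      ring
    calc C / Real.log z * (∑ n ∈ RS z N, ‖b n‖ ^ 2 * Real.sqrt (π / 2) / n)
        ≤ C / Real.log z * (2 * ∑ n ∈ RS z N, ‖b n‖ ^ 2 / n) := by gcongr
      _ = 2 * C / Real.log z * ∑ n ∈ RS z N, ‖b n‖ ^ 2 / n := by ring
  · have hTX' : (#T : ℝ) ≤ X := by
      refine hTc.trans ?_
      have : (X : ℝ) ^ θ ≤ (X : ℝ) ^ (1 : ℝ) := Real.rpow_le_rpow_of_exponent_le hX1' (by linarith)
      rwa [Real.rpow_one] at this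
    have hB0 : 0 ≤ (∑ n ∈ RS z N, ‖b n‖ / n) ^ 2 := by positivity
    calc (#T : ℝ) * (∑ n ∈ RS z N, ‖b n‖ / n) ^ 2 * Real.exp (-(0.0016 * (Real.log X) ^ 2))
          * Real.sqrt (π / 4)
        ≤ (X : ℝ) * (∑ n ∈ RS z N, ‖b n‖ / n) ^ 2 * Real.exp (-(0.0016 * (Real.log X) ^ 2)) * 1 := by
          gcongr
      _ = ((X : ℝ) * Real.exp (-(0.0016 * (Real.log X) ^ 2))) * (∑ n ∈ RS z N, ‖b n‖ / n) ^ 2 := by ring
      _ ≤ 1 / X * (∑ n ∈ RS z N, ‖b n‖ / n) ^ 2 := by gcongr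

end Pool.Agent.E3
end

section

/-!
# Row Q3: many `r` (compare E2/K1)
-/

set_option autoImplicit false

namespace Pool.Agent.Lib.MP_bae66e_nt.EF

open Finset MeasureTheory Real
open Pool.Agent.E3
open Pool.Agent.Lib.MP_bae66e_nt.LL (fP gW)
open Pool.Agent.Lib.MP_bae66e_nt.AC (Sg VV)

/-- the weighted sums of the numbers of representations -/
theorem cnt_one (R m : ℕ) : cnt (fun _ => 1) R m = ∑ s ∈ IS R, (cs R m s : ℝ) := by
  unfold cnt cs
  exact Finset.sum_congr rfl fun s _ => one_mul _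

/-- PROOF. `fP (HR R) t = log (HR R)` for the primes `t ≤ HR R`. -/
theorem SF_eq (R s m : ℕ) : SF R s m = Real.log (HR R) * cs R m s := by
  classical
  unfold SF cs
  rw [Finset.card_filter]
  push_cast
  rw [Finset.mul_sum]
  refine Finset.sum_congr rfl fun t ht => ?_
  rw [Finset.mem_Icc] at ht
  by_cases hp : t.Prime
  · by_cases hq : s ∣ m - t ∧ ((m - t) / s).Prime
    · have h5 : (t.Prime ∧ s ∣ m - t ∧ ((m - t) / s).Prime) := ⟨hp, hq⟩
      rw [if_pos h5, if_pos hq, mul_one, mul_one]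
      unfold fP
      rw [if_pos]
      refine ⟨by exact_mod_cast ht.1, by exact_mod_cast ht.2, ?_⟩
      simpa using hp
    · rw [if_neg hq, if_neg (fun h => hq h.2), mul_zero, mul_zero]
  · have h5 : ¬ (t.Prime ∧ s ∣ m - t ∧ ((m - t) / s).Prime) := fun h => hp h.1
    have h6 : fP (HR R) (t : ℤ) = 0 := by
      unfold fP
      rw [if_neg]
      rintro ⟨-, -, h⟩
      exact hp (by simpa using h)
    rw [if_neg h5, h6, zero_mul, mul_zero]

/-- a cover of `(δ N, N]` by dyadic intervals. PROOF. `X_j = N / 2^(j+1) + 1`... with `2^J ≥ 4/δ`; `log X_j ≥ log N - log (8/δ)`. -/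
theorem dy_cover (δ : ℝ) (hδ : 0 < δ) : ∃ J : ℕ, 1 ≤ J ∧ ∀ N : ℕ, ∃ X : ℕ → ℕ, (∀ j, X j ≤ N + 1) ∧
    (∀ j < J, (N : ℝ) ≤ 2 ^ (J + 1) * X j) ∧ ∀ m : ℕ, m ≤ N → δ * N < m → ∃ j < J, X j ≤ m ∧ m ≤ 2 * X j := by
  classical
  obtain ⟨J, hJ⟩ : ∃ J : ℕ, 1 / δ < 2 ^ J := pow_unbounded_of_one_lt _ (by norm_num)
  refine ⟨J + 1, by omega, fun N => ⟨fun j => N / 2 ^ (j + 1) + 1, fun j => ?_, fun j hj => ?_, fun m hm hmδ => ?_⟩⟩
  · have : N / 2 ^ (j + 1) ≤ N := Nat.div_le_self _ _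
    show N / 2 ^ (j + 1) + 1 ≤ N + 1
    omega
  · have h1 : N < 2 ^ (j + 1) * (N / 2 ^ (j + 1) + 1) := Nat.lt_mul_div_succ N (by positivity)
    have h2 : 2 ^ (j + 1) ≤ 2 ^ (J + 1 + 1) := Nat.pow_le_pow_right (by norm_num) (by omega)
    have h3 : N ≤ 2 ^ (J + 1 + 1) * (N / 2 ^ (j + 1) + 1) :=
      h1.le.trans (Nat.mul_le_mul_right _ h2)
    exact_mod_cast h3
  · have hex : ∃ j : ℕ, N / 2 ^ (j + 1) < m := by
      refine ⟨J, ?_⟩
      rw [Nat.div_lt_iff_lt_mul (by positivity)]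
      have h1 : (1 : ℝ) / δ * (δ * N) ≤ 2 ^ J * (δ * N) :=
        mul_le_mul_of_nonneg_right hJ.le (by positivity)
      have h2 : (1 : ℝ) / δ * (δ * N) = N := by field_simp
      have h3 : (2 : ℝ) ^ J * (δ * N) < 2 ^ J * m := mul_lt_mul_of_pos_left hmδ (by positivity)
      have h4 : (N : ℝ) < 2 ^ J * m := by linarith
      have h5 : N < 2 ^ J * m := by exact_mod_cast h4
      calc N < 2 ^ J * m := h5
        _ ≤ m * 2 ^ (J + 1) := by
            rw [pow_succ]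
            nlinarith [Nat.zero_le (2 ^ J * m)]
    have h1 := Nat.find_spec hex
    set j := Nat.find hex with hj
    have hjJ : j < J + 1 := by
      have h2 : N / 2 ^ (J + 1) < m := by
        rw [Nat.div_lt_iff_lt_mul (by positivity)]
        have h1 : (1 : ℝ) / δ * (δ * N) ≤ 2 ^ J * (δ * N) :=
          mul_le_mul_of_nonneg_right hJ.le (by positivity)
        have h2 : (1 : ℝ) / δ * (δ * N) = N := by field_simp
        have h3 : (2 : ℝ) ^ J * (δ * N) < 2 ^ J * m := mul_lt_mul_of_pos_left hmδ (by positivity)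
        have h4 : (N : ℝ) < 2 ^ J * m := by linarith
        have h5 : N < 2 ^ J * m := by exact_mod_cast h4
        calc N < 2 ^ J * m := h5
          _ ≤ m * 2 ^ (J + 1) := by
              rw [pow_succ]
              nlinarith [Nat.zero_le (2 ^ J * m)]
      have := Nat.find_min' hex h2
      omega
    refine ⟨j, hjJ, ?_, ?_⟩
    · show N / 2 ^ (j + 1) + 1 ≤ m
      omega
    · show m ≤ 2 * (N / 2 ^ (j + 1) + 1)
      rcases Nat.eq_zero_or_pos j with h0 | h0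
      · rw [h0]
        norm_num
        omega
      · have h2 := Nat.find_min hex (m := j - 1) (by omega)
        rw [not_lt, Nat.sub_add_cancel h0] at h2
        have h3 : N / 2 ^ (j + 1) = N / 2 ^ j / 2 := by
          rw [pow_succ, Nat.div_div_eq_div_mul]
        rw [h3]
        omega

/-- the parameters of a dyadic interval -/
private theorem Q3_par (a K : ℝ) (J : ℕ) (ha : 3 ≤ a) :
    ∃ N₀ : ℕ, ∀ N : ℕ, N₀ ≤ N → ∀ R : ℕ, (Real.log N) ^ (a - 1 / 4) ≤ R →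
      (R : ℝ) ≤ (Real.log N) ^ (a + 1 / 4) → ∀ X : ℕ, X ≤ N + 1 → (N : ℝ) ≤ 2 ^ (J + 1) * X →
      K ≤ X ∧ 4 ≤ Real.log N ∧ Real.log N ≤ 2 * Real.log X ∧ PX a R X ∧ K ≤ R := by
  have hl2 := Real.log_two_gt_d9
  have hl2' := Real.log_two_lt_d9
  set c₁ : ℝ := (J + 1) * Real.log 2 with hc₁
  have hc₁0 : 0 ≤ c₁ := by positivity
  set D : ℝ := ((2 : ℝ) ^ (a + 1 / 4)) ^ 4 with hD
  have hD0 : 0 < D := by positivity
  have hK0 := abs_nonneg K
  have hKa := le_abs_self K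
  set L₀ : ℝ := 4 + 2 * c₁ + 2 * D + 2 ^ (J + 1) * |K| + |K| + 1 with hL₀
  have hJK : 0 ≤ 2 ^ (J + 1) * |K| := by positivity
  have hlim : Filter.Tendsto (fun N : ℕ => Real.log (N : ℝ)) Filter.atTop Filter.atTop :=
    Real.tendsto_log_atTop.comp tendsto_natCast_atTop_atTop
  obtain ⟨N₁, hN₁⟩ := Filter.eventually_atTop.1 (hlim.eventually_ge_atTop L₀)
  refine ⟨max N₁ 1, fun N hN R hRlo hRup X hX2 hX1 => ?_⟩
  have hNa : N₁ ≤ N := (le_max_left _ _).trans hN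
  have hNc : 1 ≤ N := (le_max_right _ _).trans hN
  have hL := hN₁ N hNa
  have hNr : (0 : ℝ) < N := by exact_mod_cast hNc
  have hNr1 : (1 : ℝ) ≤ N := by exact_mod_cast hNc
  have hLN : Real.log N ≤ N := by
    have := Real.log_le_sub_one_of_pos hNr
    linarith
  set L := Real.log N with hLdef
  have hXr : (0 : ℝ) < X := by
    by_contra h
    have h1 : (X : ℝ) ≤ 0 := not_lt.1 h
    have h2 : (2 : ℝ) ^ (J + 1) * X ≤ 0 := mul_nonpos_of_nonneg_of_nonpos (by positivity) h1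
    linarith
  have hlX : L - c₁ ≤ Real.log X := by
    have h1 : Real.log N ≤ Real.log (2 ^ (J + 1) * X) := Real.log_le_log hNr hX1
    rw [Real.log_mul (by positivity) hXr.ne', Real.log_pow] at h1
    push_cast at h1
    linarith
  have hL0 : 4 ≤ L := by linarith
  have hlX2 : Real.log X ≤ 2 * L := by
    have h1 : (X : ℝ) ≤ 2 * N := by
      have : (X : ℝ) ≤ N + 1 := by exact_mod_cast hX2
      linarith
    have h2 : Real.log X ≤ Real.log (2 * N) := Real.log_le_log hXr h1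
    rw [Real.log_mul (by norm_num) hNr.ne'] at h2
    linarith
  have hKX : K ≤ X := by
    have h1 : 2 ^ (J + 1) * |K| ≤ 2 ^ (J + 1) * X := by linarith
    have h2 := le_of_mul_le_mul_left h1 (by positivity : (0 : ℝ) < 2 ^ (J + 1))
    linarith
  have hhalf : L ≤ 2 * Real.log X := by linarith
  have hlX1 : 1 ≤ Real.log X := by linarith
  have hLa : L ≤ L ^ (a - 1 / 4) := by
    calc L = L ^ (1 : ℝ) := (Real.rpow_one L).symm
      _ ≤ L ^ (a - 1 / 4) := Real.rpow_le_rpow_of_exponent_le (by linarith) (by linarith)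
  have hD4 : (2 : ℝ) ^ (a + 1 / 4) = D ^ (1 / 4 : ℝ) := by
    rw [hD, ← Real.rpow_natCast, ← Real.rpow_mul (by positivity)]
    norm_num
  refine ⟨hKX, hL0, hhalf, ⟨?_, ?_⟩, by linarith⟩
  · refine le_trans ?_ hRlo
    have h1 : (Real.log X) ^ (a - 1 / 2) ≤ (2 * L) ^ (a - 1 / 2) :=
      Real.rpow_le_rpow (by linarith) hlX2 (by linarith)
    refine h1.trans ?_
    rw [Real.mul_rpow (by norm_num) (by linarith)]
    have h2 : (2 : ℝ) ^ (a - 1 / 2) ≤ (2 : ℝ) ^ (a + 1 / 4) :=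
      Real.rpow_le_rpow_of_exponent_le (by norm_num) (by linarith)
    have h3 : D ^ (1 / 4 : ℝ) ≤ L ^ (1 / 4 : ℝ) :=
      Real.rpow_le_rpow hD0.le (by linarith) (by norm_num)
    have h4 : L ^ (a - 1 / 4) = L ^ (1 / 4 : ℝ) * L ^ (a - 1 / 2) := by
      rw [← Real.rpow_add (by linarith)]
      congr 1
      ring
    rw [h4]
    refine mul_le_mul_of_nonneg_right ?_ (Real.rpow_nonneg (by linarith) _)
    rw [hD4] at h2
    exact h2.trans h3
  · refine hRup.trans ?_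
    have h1 : L ^ (a + 1 / 4) ≤ (2 * Real.log X) ^ (a + 1 / 4) :=
      Real.rpow_le_rpow (by linarith) hhalf (by linarith)
    refine h1.trans ?_
    have h5 : Real.log X ^ (a + 1 / 2) = Real.log X ^ (1 / 4 : ℝ) * Real.log X ^ (a + 1 / 4) := by
      rw [← Real.rpow_add (by linarith)]
      congr 1
      ring
    rw [Real.mul_rpow (by norm_num) (by linarith), h5]
    have h3 : D ^ (1 / 4 : ℝ) ≤ (Real.log X) ^ (1 / 4 : ℝ) :=
      Real.rpow_le_rpow hD0.le (by linarith) (by norm_num)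
    rw [hD4]
    exact mul_le_mul_of_nonneg_right h3 (Real.rpow_nonneg (by linarith) _)

/-- the arithmetic of one integer -/
private theorem Q3_one (I : Finset ℕ) (f : ℕ → ℝ) (c C C₀ C₃ E R l : ℝ) (hE : 0 < E) (hR : 0 < R) (hl : 0 < l)
    (hc0 : 0 < c) (hC : 0 < C) (hC₀ : 0 < C₀) (hC₃ : 0 < C₃) (hc : 32 * C₀ * c ≤ 1) (hc' : 16384 * C * C₃ * c ≤ 1)
    (h1 : 3 / 32 * (E / l) ≤ ∑ s ∈ I, f s) (h2 : ∑ s ∈ I, 1 / (s : ℝ) ≤ C₀ / l)
    (h3 : ∑ s ∈ I, (f s) ^ 2 ≤ 64 * C * E ^ 2 / (R * l)) (h4 : (#I : ℝ) ≤ C₃ * R / l) :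
    c * (#I : ℝ) ≤ #{s ∈ I | c * (E / s) ≤ f s} := by
  classical
  set G : Finset ℕ := {s ∈ I | c * (E / s) ≤ f s} with hG
  have g1 : ∑ s ∈ I, f s ≤ (∑ s ∈ G, f s) + 1 / 32 * (E / l) := by
    rw [hG, ← Finset.sum_filter_add_sum_filter_not I (fun s => c * (E / s) ≤ f s)]
    have k2 : ∑ s ∈ I with ¬ c * (E / s) ≤ f s, f s ≤ c * E * (C₀ / l) := by
      calc ∑ s ∈ I with ¬ c * (E / s) ≤ f s, f s
          ≤ ∑ s ∈ I with ¬ c * (E / s) ≤ f s, c * (E / s) :=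
            Finset.sum_le_sum fun s hs => (not_le.1 (Finset.mem_filter.1 hs).2).le
        _ ≤ ∑ s ∈ I, c * (E / s) :=
            Finset.sum_le_sum_of_subset_of_nonneg (Finset.filter_subset _ _) fun s _ _ => by positivity
        _ = c * E * ∑ s ∈ I, 1 / (s : ℝ) := by
            rw [Finset.mul_sum]
            exact Finset.sum_congr rfl fun s _ => by ring
        _ ≤ c * E * (C₀ / l) := mul_le_mul_of_nonneg_left h2 (by positivity)
    have k3 : c * E * (C₀ / l) ≤ 1 / 32 * (E / l) := by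
      have k4 : c * E * (C₀ / l) = (32 * C₀ * c) * (1 / 32 * (E / l)) := by ring
      rw [k4]
      exact mul_le_of_le_one_left (by positivity) hc
    linarith
  have g2 : 1 / 16 * (E / l) ≤ ∑ s ∈ G, f s := by linarith
  have g3 : (∑ s ∈ G, f s) ^ 2 ≤ (#G : ℝ) * ∑ s ∈ G, (f s) ^ 2 := sq_sum_le_card_mul_sum_sq
  have g4 : ∑ s ∈ G, (f s) ^ 2 ≤ 64 * C * E ^ 2 / (R * l) :=
    (Finset.sum_le_sum_of_subset_of_nonneg (Finset.filter_subset _ _) fun _ _ _ => sq_nonneg _).trans h3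
  have g5 : (1 / 16 * (E / l)) ^ 2 ≤ (#G : ℝ) * (64 * C * E ^ 2 / (R * l)) :=
    (pow_le_pow_left₀ (by positivity) g2 2).trans
      (g3.trans (mul_le_mul_of_nonneg_left g4 (Nat.cast_nonneg _)))
  have g6 : R / (16384 * C * l) * (64 * C * E ^ 2 / (R * l)) ≤ (#G : ℝ) * (64 * C * E ^ 2 / (R * l)) := by
    refine le_trans (le_of_eq ?_) g5
    field_simp
    norm_num
  have g7 : R / (16384 * C * l) ≤ (#G : ℝ) := le_of_mul_le_mul_right g6 (by positivity)
  calc c * (#I : ℝ) ≤ c * (C₃ * R / l) := mul_le_mul_of_nonneg_left h4 hc0.le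
    _ = (16384 * C * C₃ * c) * (R / (16384 * C * l)) := by
        field_simp
    _ ≤ R / (16384 * C * l) := mul_le_of_le_one_left (by positivity) hc'
    _ ≤ _ := g7

/-- the second moment -/
private theorem Q3_sec (C S s H P R lH lN lX lR A : ℝ) (hC : 0 < C) (hS0 : 0 ≤ S) (hS : S ≤ 2 * s) (hR : 0 < R)
    (hlR : 0 < lR) (hlH : 0 < lH) (hlN : 0 < lN) (hlX : lN ≤ 2 * lX) (hH : 0 < H) (hP : H / lH ≤ 2 * P)
    (h : lH ^ 2 * A ≤ C * S ^ 2 * (R / lR) * (H / (R * lX)) ^ 2) :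
    A ≤ 64 * C * (s * (P / lN)) ^ 2 / (R * lR) := by
  have hlX0 : 0 < lX := by linarith
  have h1 : A ≤ C * S ^ 2 * (R / lR) * (H / (R * lX)) ^ 2 / lH ^ 2 := by
    rw [le_div_iff₀ (by positivity)]
    linarith
  have h2 : C * S ^ 2 * (R / lR) * (H / (R * lX)) ^ 2 / lH ^ 2 =
      C * (S * ((H / lH) / lX)) ^ 2 / (R * lR) := by
    field_simp
  have h3 : (H / lH) / lX ≤ 4 * (P / lN) := by
    rw [div_le_iff₀ hlX0, show 4 * (P / lN) * lX = (2 * P) * (2 * lX / lN) by ring]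
    have h4 : 1 ≤ 2 * lX / lN := by
      rw [le_div_iff₀ hlN]
      linarith
    have h5 : 0 ≤ 2 * P := le_trans (by positivity) hP
    calc H / lH ≤ 2 * P := hP
      _ ≤ (2 * P) * (2 * lX / lN) := le_mul_of_one_le_right h5 h4
  have h6 : S * ((H / lH) / lX) ≤ 8 * (s * (P / lN)) := by
    have hP0 : 0 ≤ P / lN := by
      have : 0 ≤ 2 * P := le_trans (by positivity) hP
      have : 0 ≤ P := by linarith
      positivity
    calc S * ((H / lH) / lX) ≤ S * (4 * (P / lN)) := mul_le_mul_of_nonneg_left h3 hS0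
      _ ≤ (2 * s) * (4 * (P / lN)) := mul_le_mul_of_nonneg_right hS (by positivity)
      _ = 8 * (s * (P / lN)) := by ring
  rw [h2] at h1
  refine h1.trans ?_
  have h7 : 0 ≤ S * ((H / lH) / lX) := by positivity
  have h8 := pow_le_pow_left₀ h7 h6 2
  refine div_le_div_of_nonneg_right ?_ (by positivity)
  calc C * (S * ((H / lH) / lX)) ^ 2 ≤ C * (8 * (s * (P / lN))) ^ 2 := mul_le_mul_of_nonneg_left h8 hC.le
    _ = 64 * C * (s * (P / lN)) ^ 2 := by ring

/-- PROOF. As `many_e` (E2/K1), for `m ≤ N`. Constants: `c₃ = 1/8`-like from `recip_IS_ge` (E3/P3), `C₁` from `IS_bounds` (E3/J10). `FING` with `α = 1` and `ε = c₃/4`, `SECF` on the dyadic intervals of `dy_cover` (`log X_j ≥ (log N)/2`,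
`PX a R (X_j)`), `SINGA` (`singa`, `ε = 1`: `Sg ≤ 2 sing`), `pi_near` (`H/log H ≤ 2 π(H)`). Outside of the bad sets, with `E = sing m π(H)/log N`: `∑ cs ≥ E (c₃ - c₃/4)/log R`, the `s` which are not good contribute at most
`c E ∑ 1/s ≤ (c₃/4) E/log R`, so `((c₃/2) E/log R)² ≤ good · ∑ cs²`, and `∑ cs² ≤ C (2 sing)² (R/log R) (2 H/(R log N))²/(log H)² ≤ 64 C E²/(R log R)`: `good ≥ (c₃²/(256 C)) R/log R ≥ c #(IS R)`. -/
theorem posf_of (C : ℝ) (hC : 1 ≤ C) : ∃ c : ℝ, 0 < c ∧ ∀ a : ℝ, 3 ≤ a → FING a → SECF C a → POSF c a := by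
  classical
  obtain ⟨C₃, hC₃, hIS⟩ := IS_bounds
  obtain ⟨R₁, hR₁2, hrecge⟩ := recip_IS_ge
  obtain ⟨R₂, hR₂2, hpi⟩ := pi_near (1 / 2) (by norm_num)
  have hC0 : 0 < C := by linarith
  have hC₃0 : 0 < C₃ := by linarith
  refine ⟨1 / (16384 * C * C₃), by positivity, fun a ha h1 h2 δ hδ => ?_⟩
  set c : ℝ := 1 / (16384 * C * C₃) with hcd
  have hc0 : 0 < c := by positivity
  have hc1 : 16384 * C * C₃ * c ≤ 1 := by
    rw [hcd]
    refine le_of_eq ?_
    field_simp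
  have hc2 : 32 * C₃ * c ≤ 1 := by
    refine le_trans ?_ hc1
    refine mul_le_mul_of_nonneg_right ?_ hc0.le
    nlinarith
  obtain ⟨J, hJ1, hcov⟩ := dy_cover (δ / 4) (by positivity)
  have hJ0 : (0 : ℝ) < J := by exact_mod_cast hJ1
  obtain ⟨w₁, hw₁⟩ := h2 (δ / (8 * J)) (by positivity)
  obtain ⟨w₂, hw₂⟩ := singa 1 (δ / 4) one_pos (by positivity)
  set w := max w₁ (max w₂ 2) with hw
  have hwa : w₁ ≤ w := le_max_left _ _
  have hwb : w₂ ≤ w := (le_max_left _ _).trans (le_max_right _ _)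
  have hwc : 2 ≤ w := (le_max_right _ _).trans (le_max_right _ _)
  obtain ⟨X₀, hX₀⟩ := hw₁ w hwa
  obtain ⟨N₁, hN₁⟩ := h1 (1 / 32) (δ / 4) (by norm_num) (by positivity)
  obtain ⟨N₂, hN₂⟩ := Q3_par a (X₀ + R₁ + R₂ + 1) J ha
  refine ⟨max N₁ (max N₂ 1), fun N hN R hRlo hRup => ?_⟩
  have hNa : N₁ ≤ N := (le_max_left _ _).trans hN
  have hNb : N₂ ≤ N := ((le_max_left _ _).trans (le_max_right _ _)).trans hN
  have hNc : 1 ≤ N := ((le_max_right _ _).trans (le_max_right _ _)).trans hN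
  have hNr : (1 : ℝ) ≤ N := by exact_mod_cast hNc
  obtain ⟨X, hXN, hXlo, hXcov⟩ := hcov N
  have hpar : ∀ j < J, (X₀ + R₁ + R₂ + 1 : ℝ) ≤ X j ∧ 4 ≤ Real.log N ∧ Real.log N ≤ 2 * Real.log (X j) ∧
      PX a R (X j) ∧ (X₀ + R₁ + R₂ + 1 : ℝ) ≤ R := by
    intro j hj
    exact hN₂ N hNb R hRlo hRup (X j) (hXN j) (hXlo j hj)
  have n1 : (0 : ℝ) ≤ X₀ := Nat.cast_nonneg _
  have n2 : (0 : ℝ) ≤ R₁ := Nat.cast_nonneg _
  have n3 : (0 : ℝ) ≤ R₂ := Nat.cast_nonneg _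
  have hW1 : Wt (fun _ => (1 : ℝ)) := fun _ => ⟨zero_le_one, le_rfl⟩
  -- the exceptional sets
  set Bad : ℕ → Finset ℕ := fun j => {m ∈ Icc (X j) (2 * X j) | Even m ∧
      C * (Sg (primorial w) m) ^ 2 * (R / Real.log R) * (VF R (X j)) ^ 2 < ∑ s ∈ IS R, (SF R s m) ^ 2} with hBad
  set BF : Finset ℕ := {m ∈ Icc 1 N | Even m ∧
      1 / 32 * (Pool.Agent.MG.sing m * (Nat.primeCounting (HR R) / (Real.log N * Real.log R))) <
        |cnt (fun _ => 1) R m - Pool.Agent.MG.sing m * (Nat.primeCounting (HR R) / Real.log N) *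
          ∑ s ∈ IS R, (fun _ => (1 : ℝ)) s / s|} with hBF
  set BS : Finset ℕ := {m ∈ Icc 1 N | Even m ∧ 1 * Pool.Agent.MG.sing m <
    |Sg (primorial w) m - Pool.Agent.MG.sing m|} with hBS
  set Sm : Finset ℕ := {m ∈ Icc 1 N | ((m : ℕ) : ℝ) ≤ δ / 4 * N} with hSm
  have hBadc : ∀ j < J, (#(Bad j) : ℝ) ≤ δ / (4 * J) * N := by
    intro j hj
    obtain ⟨h1, -, -, h4, -⟩ := hpar j hj
    have h5 : X₀ ≤ X j := by
      have h6 : (X₀ : ℝ) ≤ X j := by linarith
      exact_mod_cast h6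
    refine (hX₀ (X j) h5 R h4).trans ?_
    have h7 : (X j : ℝ) ≤ 2 * N := by
      have : (X j : ℝ) ≤ N + 1 := by exact_mod_cast hXN j
      linarith
    calc δ / (8 * J) * X j ≤ δ / (8 * J) * (2 * N) := mul_le_mul_of_nonneg_left h7 (by positivity)
      _ = δ / (4 * J) * N := by ring
  have hBFc : (#BF : ℝ) ≤ δ / 4 * N := hN₁ N hNa (fun _ => 1) hW1 R hRlo hRup
  have hBSc : (#BS : ℝ) ≤ δ / 4 * N := hw₂ w hwb N
  have hSmc : (#Sm : ℝ) ≤ δ / 4 * N := by
    have h1 : Sm ⊆ Icc 1 ⌊δ / 4 * N⌋₊ := by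
      intro m hm
      rw [hSm, Finset.mem_filter, Finset.mem_Icc] at hm
      rw [Finset.mem_Icc]
      exact ⟨hm.1.1, Nat.le_floor hm.2⟩
    calc (#Sm : ℝ) ≤ (#(Icc 1 ⌊δ / 4 * (N : ℝ)⌋₊) : ℝ) := by exact_mod_cast Finset.card_le_card h1
      _ = (⌊δ / 4 * (N : ℝ)⌋₊ : ℝ) := by
          rw [Nat.card_Icc, Nat.add_sub_cancel]
      _ ≤ δ / 4 * N := Nat.floor_le (by positivity)
  -- the inclusion
  set Fin : Finset ℕ := {m ∈ Icc 1 N | Even m ∧ ((goodF c N R m).card : ℝ) < c * (IS R).card} with hFin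
  have hsub : Fin ⊆ Sm ∪ (BS ∪ (BF ∪ (range J).biUnion Bad)) := by
    intro m hm
    rw [hFin, Finset.mem_filter] at hm
    obtain ⟨hm1, hm2, hm3⟩ := hm
    rw [Finset.mem_Icc] at hm1
    by_contra hcon
    rw [Finset.mem_union, Finset.mem_union, Finset.mem_union, not_or, not_or, not_or] at hcon
    obtain ⟨hc1', hc2', hc4', hc3'⟩ := hcon
    have hmbig : δ / 4 * N < m := by
      by_contra h1
      rw [not_lt] at h1
      exact hc1' (Finset.mem_filter.2 ⟨Finset.mem_Icc.2 hm1, h1⟩)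
    have hmS : |Sg (primorial w) m - Pool.Agent.MG.sing m| ≤ 1 * Pool.Agent.MG.sing m := by
      by_contra h1
      rw [not_le] at h1
      exact hc2' (Finset.mem_filter.2 ⟨Finset.mem_Icc.2 hm1, hm2, h1⟩)
    have hmF : |cnt (fun _ => 1) R m - Pool.Agent.MG.sing m * (Nat.primeCounting (HR R) / Real.log N) *
          ∑ s ∈ IS R, (fun _ => (1 : ℝ)) s / s| ≤
          1 / 32 * (Pool.Agent.MG.sing m * (Nat.primeCounting (HR R) / (Real.log N * Real.log R))) := by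
      by_contra h1
      rw [not_le] at h1
      exact hc4' (Finset.mem_filter.2 ⟨Finset.mem_Icc.2 hm1, hm2, h1⟩)
    obtain ⟨j, hj, hXm, hmX⟩ := hXcov m hm1.2 hmbig
    obtain ⟨g1, g2, g3, g4, g5⟩ := hpar j hj
    have hmB : ∑ s ∈ IS R, (SF R s m) ^ 2 ≤
        C * (Sg (primorial w) m) ^ 2 * (R / Real.log R) * (VF R (X j)) ^ 2 := by
      by_contra h1
      rw [not_le] at h1
      apply hc3'
      rw [Finset.mem_biUnion]
      exact ⟨j, Finset.mem_range.2 hj, Finset.mem_filter.2 ⟨Finset.mem_Icc.2 ⟨hXm, hmX⟩, hm2, h1⟩⟩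
    have hRR₁ : R₁ ≤ R := by
      have h1 : (R₁ : ℝ) ≤ R := by linarith
      exact_mod_cast h1
    have hRR₂ : R₂ ≤ R := by
      have h1 : (R₂ : ℝ) ≤ R := by linarith
      exact_mod_cast h1
    have hR2 : 2 ≤ R := hR₁2.trans hRR₁
    have hRr : (2 : ℝ) ≤ R := by exact_mod_cast hR2
    have hR0 : (0 : ℝ) < R := by linarith
    have hlR : 0 < Real.log R := Real.log_pos (by linarith)
    have hH2 : 2 ≤ HR R := by
      unfold HR
      nlinarith
    have hHr : (2 : ℝ) ≤ (HR R : ℝ) := by exact_mod_cast hH2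
    have hH0 : (0 : ℝ) < (HR R : ℝ) := by linarith
    have hlH : 0 < Real.log (HR R) := Real.log_pos (by linarith)
    have hlN : 0 < Real.log N := by linarith
    have hSg := (Pool.Agent.Lib.MP_bae66e_nt.AC.one_le_Sg w m hwc hm2).1
    rw [one_mul] at hmS
    obtain ⟨-, hS2⟩ := abs_le.1 hmS
    have hsing : 0 < Pool.Agent.MG.sing m := by linarith
    have hpiR := hpi R hRR₂
    obtain ⟨hpi1, -⟩ := abs_le.1 hpiR
    have hHl : 0 < (HR R : ℝ) / Real.log (HR R) := by positivity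
    have hP2 : (HR R : ℝ) / Real.log (HR R) ≤ 2 * (Nat.primeCounting (HR R) : ℝ) := by linarith
    have hP0 : (0 : ℝ) < (Nat.primeCounting (HR R) : ℝ) := by linarith
    set E : ℝ := Pool.Agent.MG.sing m * ((Nat.primeCounting (HR R) : ℝ) / Real.log N) with hE
    have hE0 : 0 < E := by positivity
    have hrec := (hIS R hR2).2
    have hcard := (hIS R hR2).1
    have hrg := hrecge R hRR₁
    -- the first moment
    have hsum1 : ∑ s ∈ IS R, (fun _ => (1 : ℝ)) s / s = ∑ s ∈ IS R, 1 / (s : ℝ) := rfl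
    rw [hsum1, cnt_one] at hmF
    have e1 : Pool.Agent.MG.sing m * ((Nat.primeCounting (HR R) : ℝ) / (Real.log N * Real.log R)) =
        E / Real.log R := by
      rw [hE, ← div_div]
      ring
    rw [e1] at hmF
    have f1 : 3 / 32 * (E / Real.log R) ≤ ∑ s ∈ IS R, (cs R m s : ℝ) := by
      obtain ⟨q1, -⟩ := abs_le.1 hmF
      have q2 : E * (1 / (8 * Real.log R)) ≤ E * ∑ s ∈ IS R, 1 / (s : ℝ) :=
        mul_le_mul_of_nonneg_left hrg hE0.le
      have q3 : E * (1 / (8 * Real.log R)) = 1 / 8 * (E / Real.log R) := by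
        field_simp
      linarith
    -- the second moment
    have f3 : ∑ s ∈ IS R, ((cs R m s : ℝ)) ^ 2 ≤ 64 * C * E ^ 2 / (R * Real.log R) := by
      have q1 : ∑ s ∈ IS R, (SF R s m) ^ 2 = (Real.log (HR R)) ^ 2 * ∑ s ∈ IS R, ((cs R m s : ℝ)) ^ 2 := by
        rw [Finset.mul_sum]
        refine Finset.sum_congr rfl fun s _ => ?_
        rw [SF_eq, mul_pow]
      rw [q1] at hmB
      exact Q3_sec C (Sg (primorial w) m) (Pool.Agent.MG.sing m) (HR R) (Nat.primeCounting (HR R)) R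
        (Real.log (HR R)) (Real.log N) (Real.log (X j)) (Real.log R) _ hC0 (by linarith) (by linarith) hR0
        hlR hlH hlN g3 hH0 hP2 hmB
    have f4 : (#(IS R) : ℝ) ≤ C₃ * R / Real.log R := hcard
    have key := Q3_one (IS R) (fun s => (cs R m s : ℝ)) c C C₃ C₃ E R (Real.log R) hE0 hR0 hlR hc0 hC0 hC₃0 hC₃0
      hc2 hc1 f1 hrec f3 f4
    have hgood : goodF c N R m = (IS R).filter (fun s : ℕ => c * (E / s) ≤ (cs R m s : ℝ)) := by
      unfold goodF
      refine Finset.filter_congr fun s _ => ?_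
      have q1 : Pool.Agent.MG.sing m * ((Nat.primeCounting (HR R) : ℝ) / (s * Real.log N)) = E / s := by
        rw [hE, mul_comm (s : ℝ), ← div_div]
        ring
      rw [q1]
    rw [hgood] at hm3
    linarith
  calc (#Fin : ℝ) ≤ (#(Sm ∪ (BS ∪ (BF ∪ (range J).biUnion Bad))) : ℝ) := by
        exact_mod_cast Finset.card_le_card hsub
    _ ≤ (#Sm : ℝ) + ((#BS : ℝ) + ((#BF : ℝ) + (#((range J).biUnion Bad) : ℝ))) := by
        have h1 := Finset.card_union_le Sm (BS ∪ (BF ∪ (range J).biUnion Bad))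
        have h2 := Finset.card_union_le BS (BF ∪ (range J).biUnion Bad)
        have h3 := Finset.card_union_le BF ((range J).biUnion Bad)
        exact_mod_cast h1.trans (Nat.add_le_add_left (h2.trans (Nat.add_le_add_left h3 _)) _)
    _ ≤ δ / 4 * N + (δ / 4 * N + (δ / 4 * N + J * (δ / (4 * J) * N))) := by
        have h3 : (#((range J).biUnion Bad) : ℝ) ≤ J * (δ / (4 * J) * N) := by
          calc (#((range J).biUnion Bad) : ℝ) ≤ ((∑ j ∈ range J, #(Bad j) : ℕ) : ℝ) := by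
                exact_mod_cast Finset.card_biUnion_le
            _ = ∑ j ∈ range J, (#(Bad j) : ℝ) := by push_cast; rfl
            _ ≤ ∑ _j ∈ range J, δ / (4 * J) * N :=
                Finset.sum_le_sum fun j hj => hBadc j (Finset.mem_range.1 hj)
            _ = J * (δ / (4 * J) * N) := by
                rw [Finset.sum_const, Finset.card_range, nsmul_eq_mul]
        linarith
    _ = δ * N := by
        field_simp
        ring

end Pool.Agent.Lib.MP_bae66e_nt.EF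
end
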