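import Pool.Agent.Lib.MP_bae66e_nt.Mg.G113
import Pool.Agent.Lib.MP_bae66e_nt.Mg.G004
import Pool.Agent.Lib.MP_bae66e_nt.Mg.G009
import Pool.Agent.Lib.MP_bae66e_nt.Mg.G032

section

/-!
# Row Pc: the parameters, third part
-/

set_option autoImplicit false

namespace Pool.Agent.Lib.MP_bae66e_nt.TF

open Finset MeasureTheory Real
open Pool.Agent.E3
open Pool.Agent.Lib.MP_bae66e_nt.LL (fP gW)
open Pool.Agent.Lib.MP_bae66e_nt.AC (Sg VV)
open Pool.Agent.Lib.MP_bae66e_nt.AP3 (prI mem_prI)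

/-- PROOF. With `lam = ll X`, `L = log X`: `log H ≤ a lam`, `log R ≤ c log lam`, `R ≥ lam^c/4` with `c ≥ 2`: the first. `H FT ≥ L lam^(c+4)/(c log lam · (a+1) lam · L)
= lam^(c+3)/(c (a+1) log lam)` and `(log H)² ≤ a² lam²`: the second. `H/R ≥ L lam^4`: the third. `H ≥ L lam^(c+4)`: the fourth. (Template: E3/A0b, E3/M8 `par2`.) -/
theorem parT3 (a c K : ℝ) (ha : 3 ≤ a) (hc : 2 ≤ c) : ∃ X₀ : ℕ, ∀ X : ℕ, X₀ ≤ X → ∀ R ℓ H : ℕ, PT a c R ℓ H X →
    Real.log H * Real.log R ≤ R ∧ K * (1 + (Real.log H) ^ 2) ≤ H * FT R ℓ X ∧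
      K * (Real.log X * (ll X) ^ 3) ≤ H / R ∧ K * Real.log X ≤ H := by
  have ha0 : 0 < a := by linarith
  have hc0 : 0 < c := by linarith
  have h1 : Filter.Tendsto (fun X : ℕ => ll X) Filter.atTop Filter.atTop := by
    unfold ll
    exact Real.tendsto_log_atTop.comp (Real.tendsto_log_atTop.comp tendsto_natCast_atTop_atTop)
  have h2 : ∀ᶠ x : ℝ in Filter.atTop, 4 * a * c * Real.log x ≤ x := by
    have h3 := Real.isLittleO_log_id_atTop.bound (show (0 : ℝ) < 1 / (4 * a * c) by positivity)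
    filter_upwards [h3, Filter.eventually_ge_atTop (1 : ℝ)] with x hx hx1
    have h4 : ‖Real.log x‖ = Real.log x := Real.norm_of_nonneg (Real.log_nonneg hx1)
    have h5 : ‖(id x : ℝ)‖ = x := Real.norm_of_nonneg (by simp only [id]; linarith)
    rw [h4, h5, one_div, ← div_eq_inv_mul, le_div_iff₀ (by positivity)] at hx
    linarith
  have h3 : ∀ᶠ x : ℝ in Filter.atTop, 4 ≤ x ∧ K ≤ x ∧ |K| * (1 + a ^ 2) * c * (a + 1) ≤ x ∧ 4 * a * c * Real.log x ≤ x := by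
    filter_upwards [Filter.eventually_ge_atTop (4 : ℝ), Filter.eventually_ge_atTop K,
      Filter.eventually_ge_atTop (|K| * (1 + a ^ 2) * c * (a + 1)), h2] with x q1 q2 q3 q4
    exact ⟨q1, q2, q3, q4⟩
  obtain ⟨X₀, h₀⟩ := Filter.eventually_atTop.1 (h1.eventually h3)
  refine ⟨X₀, fun X hX R ℓ H hP => ?_⟩
  obtain ⟨hl4, hlK, hlc, hlog⟩ := h₀ X hX
  have lo1 := hP.lo1
  have up1 := hP.up1
  have lo2 := hP.lo2
  have up2 := hP.up2
  have loH := hP.loH
  have upH := hP.upH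
  have hlle : ll X = Real.log (Real.log X) := rfl
  set lam : ℝ := ll X with hlam
  have hlam0 : 0 < lam := by linarith
  -- `log X`
  have hX1 : 0 < Real.log X := by
    by_contra hneg
    have h5 : Real.log (Real.log X) ≤ 0 := by
      rcases eq_or_lt_of_le (not_lt.1 hneg) with h6 | h6
      · rw [h6, Real.log_zero]
      · have h7 : 0 ≤ Real.log X := Real.log_natCast_nonneg X
        linarith
    linarith
  set L : ℝ := Real.log X with hL
  have hLe : L = Real.exp lam := by rw [hlle, Real.exp_log hX1]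
  have hL1 : 1 ≤ L := by
    rw [hLe]
    exact Real.one_le_exp hlam0.le
  have hLa : ∀ s : ℝ, Real.log (L ^ s) = s * lam := by
    intro s
    rw [Real.log_rpow hX1, hlle]
  have hlc0 : 0 < lam ^ c := Real.rpow_pos_of_pos hlam0 c
  have hlc2 : lam ^ 2 ≤ lam ^ c := by
    rw [← Real.rpow_natCast lam 2]
    exact Real.rpow_le_rpow_of_exponent_le (by linarith) (by push_cast; linarith)
  have hlc4 : lam ^ (c + 4) = lam ^ c * lam ^ 4 := by
    rw [Real.rpow_add hlam0, ← Real.rpow_natCast lam 4]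
    norm_num
  -- `R`
  have hR4 : (4 : ℝ) ≤ R := by nlinarith
  have hR0 : (0 : ℝ) < R := by linarith
  have hlR0 : 0 < Real.log R := Real.log_pos (by linarith)
  have hlR : Real.log R ≤ c * Real.log lam := by
    rw [← Real.log_rpow hlam0]
    exact Real.log_le_log hR0 up1
  have hlog0 : 0 < Real.log lam := Real.log_pos (by linarith)
  have hloglam : Real.log lam ≤ lam := by
    have := Real.log_le_sub_one_of_pos hlam0
    linarith
  -- `H`
  have hH0 : (0 : ℝ) < H := lt_of_lt_of_le (by positivity) loH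
  have hlH : Real.log H ≤ a * lam := by
    rw [← hLa]
    exact Real.log_le_log hH0 upH
  have hH1 : (1 : ℝ) ≤ H := by
    have : (0 : ℕ) < H := by exact_mod_cast hH0
    exact_mod_cast this
  have hlH0 : 0 ≤ Real.log H := Real.log_nonneg hH1
  -- `R ^ ℓ`
  have hRl : ((R ^ ℓ : ℕ) : ℝ) = (R : ℝ) ^ ℓ := by push_cast; rfl
  have hRl0 : (0 : ℝ) < (R : ℝ) ^ ℓ := by positivity
  have hlRl : Real.log ((R ^ ℓ : ℕ) : ℝ) ≤ (a + 1) * lam := by
    rw [hRl, ← hLa]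
    exact Real.log_le_log hRl0 up2
  have hlRl0 : 0 < Real.log ((R ^ ℓ : ℕ) : ℝ) := by
    have h5 : a * lam ≤ Real.log ((R ^ ℓ : ℕ) : ℝ) := by
      rw [hRl, ← hLa]
      exact Real.log_le_log (Real.rpow_pos_of_pos hX1 a) lo2
    have h6 : 0 < a * lam := by positivity
    linarith
  refine ⟨?_, ?_, ?_, ?_⟩
  · -- the first
    have h5 : Real.log H * Real.log R ≤ (a * lam) * (c * Real.log lam) :=
      mul_le_mul hlH hlR hlR0.le (by positivity)
    have h6 : (a * lam) * (c * Real.log lam) = lam / 4 * (4 * a * c * Real.log lam) := by ring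
    have h7 : lam / 4 * (4 * a * c * Real.log lam) ≤ lam / 4 * lam :=
      mul_le_mul_of_nonneg_left hlog (by positivity)
    have h8 : lam / 4 * lam = lam ^ 2 / 4 := by ring
    linarith
  · -- the second
    unfold FT FG
    rw [mul_one_div, le_div_iff₀ (by positivity)]
    have h5 : K * (1 + (Real.log H) ^ 2) ≤ |K| * ((1 + a ^ 2) * lam ^ 2) := by
      have h6 : (Real.log H) ^ 2 ≤ (a * lam) ^ 2 := pow_le_pow_left₀ hlH0 hlH 2
      have h7 : 1 + (Real.log H) ^ 2 ≤ (1 + a ^ 2) * lam ^ 2 := by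
        have h8 : 1 ≤ lam ^ 2 := by nlinarith
        nlinarith
      exact mul_le_mul (le_abs_self K) h7 (by positivity) (abs_nonneg K)
    have h6 : Real.log R * Real.log ((R ^ ℓ : ℕ) : ℝ) * L ≤ (c * Real.log lam) * ((a + 1) * lam) * L := by
      refine mul_le_mul_of_nonneg_right ?_ hX1.le
      exact mul_le_mul hlR hlRl hlRl0.le (by positivity)
    have h7 : (c * Real.log lam) * ((a + 1) * lam) * L ≤ (c * lam) * ((a + 1) * lam) * L := by
      gcongr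
    calc K * (1 + (Real.log H) ^ 2) * (Real.log R * Real.log ((R ^ ℓ : ℕ) : ℝ) * L)
        ≤ (|K| * ((1 + a ^ 2) * lam ^ 2)) * ((c * lam) * ((a + 1) * lam) * L) :=
          mul_le_mul h5 (h6.trans h7) (by positivity) (by positivity)
      _ = (|K| * (1 + a ^ 2) * c * (a + 1)) * (L * lam ^ 4) := by ring
      _ ≤ lam * (L * lam ^ 4) := mul_le_mul_of_nonneg_right hlc (by positivity)
      _ ≤ lam ^ c * (L * lam ^ 4) := by
          refine mul_le_mul_of_nonneg_right ?_ (by positivity)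
          nlinarith
      _ = L * lam ^ (c + 4) := by rw [hlc4]; ring
      _ ≤ H := loH
  · -- the third
    rw [le_div_iff₀ hR0]
    calc K * (L * lam ^ 3) * R ≤ lam * (L * lam ^ 3) * lam ^ c := by
          refine mul_le_mul ?_ up1 hR0.le (by positivity)
          exact mul_le_mul_of_nonneg_right hlK (by positivity)
      _ = L * lam ^ (c + 4) := by rw [hlc4]; ring
      _ ≤ H := loH
  · -- the fourth
    have h5 : lam ≤ lam ^ (c + 4) := by
      calc lam = lam ^ (1 : ℝ) := (Real.rpow_one _).symm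
        _ ≤ lam ^ (c + 4) := Real.rpow_le_rpow_of_exponent_le (by linarith) (by linarith)
    calc K * L ≤ lam ^ (c + 4) * L := mul_le_mul_of_nonneg_right (hlK.trans h5) hX1.le
      _ = L * lam ^ (c + 4) := by ring
      _ ≤ H := loH

/-- PROOF. `parT1`, `parT2`, `parT3`. -/
theorem parT (a c K κ : ℝ) (ha : 3 ≤ a) (hc : 2 ≤ c) (hκ : 0 < κ) : ∃ X₀ : ℕ, ∀ X : ℕ, X₀ ≤ X →
    ∀ R ℓ H : ℕ, PT a c R ℓ H X → QT K κ R ℓ H X := by
  obtain ⟨X₁, h1⟩ := parT1 a c K ha hc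
  obtain ⟨X₂, h2⟩ := parT2 a c K κ ha hc hκ
  obtain ⟨X₃, h3⟩ := parT3 a c K ha hc
  refine ⟨max X₁ (max X₂ X₃), fun X hX R ℓ H hP => ?_⟩
  obtain ⟨a1, a2, a3, a4, a5, a6, a7, a8, a9, a10, a11, a12, a13⟩ := h1 X ((le_max_left _ _).trans hX) R ℓ H hP
  obtain ⟨b1, b2, b3, b4, b5, b6, b7⟩ := h2 X (((le_max_left _ _).trans (le_max_right _ _)).trans hX) R ℓ H hP
  obtain ⟨c1, c2, c3, c4⟩ := h3 X (((le_max_right _ _).trans (le_max_right _ _)).trans hX) R ℓ H hP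
  exact ⟨a1, a2, a3, a4, a5, a6, b3, a7, a8, b1, b2, c1, b4, b5, b6, c2, c3, c4, b7, a12, a9, a10, a11, a13⟩

/-- the conditions `PY` -/
theorem QT.py {K κ : ℝ} {R ℓ H X : ℕ} (h : QT K κ R ℓ H X) (τ : ℝ) (hτ : |τ| ≤ K) :
    PY R (R ^ ℓ) X (YT R ℓ X τ) :=
  ⟨by have := h.X64; omega, by have := h.R3; omega, h.R2, (h.Y τ hτ).1, (h.Y τ hτ).2⟩

end Pool.Agent.Lib.MP_bae66e_nt.TF
end

section

/-!
# Row M: masses
-/

set_option autoImplicit false

namespace Pool.Agent.Lib.MP_bae66e_nt.TF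

open Finset MeasureTheory Real
open Pool.Agent.E3
open Pool.Agent.Lib.MP_bae66e_nt.LL (fP gW)
open Pool.Agent.Lib.MP_bae66e_nt.AC (Sg VV)
open Pool.Agent.Lib.MP_bae66e_nt.AP3 (prI mem_prI)

private theorem M_logs {R₁ R₂ X : ℕ} {Y : ℝ} (h : PY R₁ R₂ X Y) :
    0 < Real.log R₁ ∧ 0 < Real.log R₂ ∧ 0 < Real.log X := by
  have h3 := h.R1
  have h4 := h.R2
  have h5 := h.X16
  have e1 : (1 : ℝ) < R₁ := by exact_mod_cast (by omega : 1 < R₁)
  have e2 : (1 : ℝ) < R₂ := by exact_mod_cast (by omega : 1 < R₂)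
  have e3 : (1 : ℝ) < X := by exact_mod_cast (by omega : 1 < X)
  exact ⟨Real.log_pos e1, Real.log_pos e2, Real.log_pos e3⟩

private theorem M_mass_q : ∃ C : ℝ, 1 ≤ C ∧ ∀ (X : ℕ) (Y : ℝ), 8 ≤ X →
    (X : ℝ) ^ (0.99 : ℝ) ≤ Y → Y ≤ X → ∑ q ∈ QS X, om Y q / q ≤ C / Real.log X := by
  obtain ⟨C, hC, h⟩ := prime_window_le 1 one_pos
  refine ⟨2 * C, by linarith, fun X Y hX hY1 hY2 => ?_⟩
  obtain ⟨hY0, hlY, -, -⟩ := logY_bounds X Y (by omega) hY1 hY2
  have hX8 : (8 : ℝ) ≤ X := by exact_mod_cast hX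
  have hlX : 2 ≤ Real.log X := by
    have e1 : Real.log 8 ≤ Real.log X := Real.log_le_log (by norm_num) hX8
    have e2 : Real.log 8 = 3 * Real.log 2 := by
      rw [show (8 : ℝ) = 2 ^ 3 by norm_num, Real.log_pow]
      norm_num
    have e3 := Real.log_two_gt_d9
    linarith
  have hx1 : 1 ≤ Real.log Y := by linarith
  have h1 : ∑ q ∈ QS X, om Y q / q ≤ ∑ p ∈ prI 0 (X ^ 2), gs 1 (Real.log Y) (Real.log p) / p := by
    refine Finset.sum_le_sum_of_subset_of_nonneg (f := fun q : ℕ => om Y q / q) ?_ ?_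
    · intro p hp
      rw [QS, mem_prI] at hp
      rw [mem_prI]
      exact ⟨by omega, hp.2⟩
    · intro p _ _
      exact div_nonneg (Real.exp_pos _).le (Nat.cast_nonneg p)
  refine h1.trans ((h (X ^ 2) (Real.log Y) hx1).trans ?_)
  rw [div_le_div_iff₀ (by linarith) (by linarith)]
  nlinarith

/-- PROOF. As `mass_g` (E3/M0; copy, with a general `Y`). -/
theorem mass_3 : ∃ C : ℝ, 1 ≤ C ∧ ∀ (R₁ R₂ X : ℕ) (Y : ℝ), PY R₁ R₂ X Y →
    ∑ s ∈ SS R₁ R₂, ∑ q ∈ QS X, om Y q / (s * q) ≤ C * FG R₁ R₂ X := by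
  obtain ⟨C₁, hC₁, h1⟩ := recip_IS
  obtain ⟨C₂, hC₂, h2⟩ := M_mass_q
  refine ⟨C₁ * C₁ * C₂, one_le_mul_of_one_le_of_one_le
    (one_le_mul_of_one_le_of_one_le hC₁ hC₁) hC₂, fun R₁ R₂ X Y h => ?_⟩
  obtain ⟨g1, g2, g3⟩ := M_logs h
  have hR1 := h.R1
  have hR2 := h.R2
  have hX := h.X16
  have e1 := (h1 R₁ hR1).1
  have e2 := (h1 R₂ (by omega)).1
  have e3 := h2 X Y (by omega) h.Ylow h.Yup
  have e4 : ∑ s ∈ SS R₁ R₂, ∑ q ∈ QS X, om Y q / (s * q) =
      ((∑ r ∈ IS R₁, (1 / r : ℝ)) * ∑ r ∈ IS R₂, (1 / r : ℝ)) *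
        ∑ q ∈ QS X, om Y q / q := by
    rw [sum_SS R₁ R₂ hR2, Finset.sum_mul_sum, Finset.sum_mul]
    refine Finset.sum_congr rfl fun r _ => ?_
    rw [Finset.sum_mul]
    refine Finset.sum_congr rfl fun r' _ => ?_
    rw [Finset.mul_sum]
    refine Finset.sum_congr rfl fun q _ => ?_
    rw [one_div_mul_one_div, div_mul_div_comm, one_mul]
    push_cast
    rfl
  have f1 : 0 ≤ ∑ r ∈ IS R₁, (1 / r : ℝ) :=
    Finset.sum_nonneg fun r _ => by positivity
  have f2 : 0 ≤ ∑ r ∈ IS R₂, (1 / r : ℝ) :=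
    Finset.sum_nonneg fun r _ => by positivity
  have f3 : 0 ≤ ∑ q ∈ QS X, om Y q / q :=
    Finset.sum_nonneg fun q _ => div_nonneg (Real.exp_pos _).le (Nat.cast_nonneg q)
  rw [e4]
  calc ((∑ r ∈ IS R₁, (1 / r : ℝ)) * ∑ r ∈ IS R₂, (1 / r : ℝ)) *
        ∑ q ∈ QS X, om Y q / q
      ≤ ((C₁ / Real.log R₁) * (C₁ / Real.log R₂)) * (C₂ / Real.log X) := by
        apply mul_le_mul (mul_le_mul e1 e2 f2 (by positivity)) e3 f3 (by positivity)
    _ = C₁ * C₁ * C₂ * FG R₁ R₂ X := by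
        unfold FG
        field_simp

/-- PROOF. `card_SS_le` (both parts), `sum_om_le` (E3/A2b); as `mass_u` (EF/M). -/
theorem mass_3u : ∃ C : ℝ, 1 ≤ C ∧ ∀ (R₁ R₂ X : ℕ) (Y : ℝ), PY R₁ R₂ X Y →
    ∑ s ∈ SS R₁ R₂, ∑ q ∈ QS X, om Y q ≤ C * FG R₁ R₂ X * (R₁ * R₂ * Y) := by
  obtain ⟨C₁, hC₁, -, h1⟩ := card_SS_le
  obtain ⟨C₂, hC₂, h2⟩ := sum_om_le
  refine ⟨C₁ * C₂, one_le_mul_of_one_le_of_one_le hC₁ hC₂, fun R₁ R₂ X Y h => ?_⟩
  obtain ⟨g1, g2, g3⟩ := M_logs h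
  have hR1 := h.R1
  have hR2 := h.R2
  have e1 := h1 R₁ R₂ hR1 (by omega)
  have e2 := h2 X Y h.X16 h.Ylow h.Yup
  have e0 : 0 ≤ ∑ q ∈ QS X, om Y q := Finset.sum_nonneg fun q _ => (Real.exp_pos _).le
  calc ∑ s ∈ SS R₁ R₂, ∑ q ∈ QS X, om Y q
      = (#(SS R₁ R₂) : ℝ) * ∑ q ∈ QS X, om Y q := by
        rw [Finset.sum_const, nsmul_eq_mul]
    _ ≤ (C₁ * (R₁ * R₂) / (Real.log R₁ * Real.log R₂)) * (C₂ * (Y / Real.log X)) := by
        apply mul_le_mul e1 e2 e0 (by positivity)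
    _ = C₁ * C₂ * FG R₁ R₂ X * (R₁ * R₂ * Y) := by
        unfold FG
        field_simp

/-- PROOF. As `PPP_norm_g` (E3/M0). -/
theorem PP3_norm : ∃ C : ℝ, 1 ≤ C ∧ ∀ (R₁ R₂ X : ℕ) (Y : ℝ), PY R₁ R₂ X Y →
    ∀ (W : ℕ) (χ : DirichletCharacter ℂ W) (t : ℝ), ‖PP3 χ R₁ R₂ X Y t‖ ≤ C * FG R₁ R₂ X := by
  obtain ⟨C₁, hC₁, h1⟩ := PR_norm_le
  obtain ⟨C₂, hC₂, h2⟩ := PQ_norm_le
  refine ⟨C₁ * C₁ * C₂, one_le_mul_of_one_le_of_one_le
    (one_le_mul_of_one_le_of_one_le hC₁ hC₁) hC₂, fun R₁ R₂ X Y h W χ t => ?_⟩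
  obtain ⟨g1, g2, g3⟩ := M_logs h
  have hR1 := h.R1
  have hR2 := h.R2
  have hX := h.X16
  have e1 := h1 W χ R₁ t hR1
  have e2 := h1 W χ R₂ t (by omega)
  have e3 := h2 W χ X Y t (by omega) h.Ylow h.Yup
  unfold PP3
  rw [norm_mul, norm_mul]
  calc ‖PR χ R₁ t‖ * ‖PR χ R₂ t‖ * ‖PQ χ X Y t‖
      ≤ ((C₁ / Real.log R₁) * (C₁ / Real.log R₂)) * (C₂ / Real.log X) := by
        apply mul_le_mul (mul_le_mul e1 e2 (norm_nonneg _) (by positivity)) e3
          (norm_nonneg _) (by positivity)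
    _ = C₁ * C₁ * C₂ * FG R₁ R₂ X := by
        unfold FG
        field_simp

/-- PROOF. As `fA_support` (EF/M): `n = r₁ r₂ q` with primes `r₁ > R ≥ w`, `r₂ > R^ℓ ≥ w`, `q > √X ≥ w`. -/
theorem fT_support (R ℓ X w n : ℕ) (τ : ℝ) (h1 : w ≤ R) (h2 : w ≤ Nat.sqrt X) (h3 : 2 * R ≤ R ^ ℓ)
    (hn : ¬ Nat.Coprime n (primorial w)) : fT R ℓ X τ n = 0 := by
  unfold fT fS
  refine Finset.sum_eq_zero fun s hs => Finset.sum_eq_zero fun q hq => ?_
  rw [if_neg]
  rintro rfl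
  apply hn
  unfold SS at hs
  rw [Finset.mem_image] at hs
  obtain ⟨r, hr, rfl⟩ := hs
  rw [Finset.mem_product] at hr
  obtain ⟨ha1, ha2⟩ := mem_prI.mp hr.1
  obtain ⟨hb1, hb2⟩ := mem_prI.mp hr.2
  obtain ⟨hq1, hq2⟩ := mem_prI.mp hq
  have key : ∀ p : ℕ, p.Prime → w < p → Nat.Coprime p (primorial w) := by
    intro p hp hwp
    rw [hp.coprime_iff_not_dvd]
    intro hdvd
    unfold primorial at hdvd
    rw [Prime.dvd_finsetProd_iff hp.prime] at hdvd
    obtain ⟨r, hr, hpr⟩ := hdvd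
    rw [Finset.mem_filter, Finset.mem_range] at hr
    have := (Nat.prime_dvd_prime_iff_eq hp hr.2).1 hpr
    omega
  exact Nat.Coprime.mul_left (Nat.Coprime.mul_left (key _ ha2 (by omega)) (key _ hb2 (by omega)))
    (key q hq2 (by omega))

/-- PROOF. `s = r₁ r₂` with primes `r₁ ∈ (R₁, 2R₁]`, `r₂ ∈ (R₂, 2R₂]`. -/
theorem SS_facts (R₁ R₂ s : ℕ) (hs : s ∈ SS R₁ R₂) (h : 2 * R₁ ≤ R₂) : R₁ * R₂ < s ∧ s ≤ 4 * (R₁ * R₂) ∧
    ∀ p : ℕ, p.Prime → p ∣ s → R₁ < p := by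
  unfold SS at hs
  rw [Finset.mem_image] at hs
  obtain ⟨r, hr, rfl⟩ := hs
  rw [Finset.mem_product] at hr
  obtain ⟨⟨ha1, ha3⟩, ha2⟩ := mem_prI.mp hr.1
  obtain ⟨⟨hb1, hb3⟩, hb2⟩ := mem_prI.mp hr.2
  refine ⟨?_, ?_, ?_⟩
  · exact Nat.mul_lt_mul'' ha1 hb1
  · calc r.1 * r.2 ≤ (2 * R₁) * (2 * R₂) := Nat.mul_le_mul ha3 hb3
      _ = 4 * (R₁ * R₂) := by ring
  · intro p hp hdvd
    rcases (Nat.Prime.dvd_mul hp).1 hdvd with h1 | h1
    · rw [(Nat.prime_dvd_prime_iff_eq hp ha2).1 h1]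
      exact ha1
    · rw [(Nat.prime_dvd_prime_iff_eq hp hb2).1 h1]
      omega

end Pool.Agent.Lib.MP_bae66e_nt.TF
end

section

/-!
# Row GM: the constant function as a sum of Gaussians
-/

set_option autoImplicit false

namespace Pool.Agent.Lib.MP_bae66e_nt.TF

open Finset MeasureTheory Real

private theorem GM_lip (a b : ℝ) : |Real.exp (-a ^ 2) - Real.exp (-b ^ 2)| ≤ |a - b| := by
  have hd : ∀ x : ℝ, HasDerivAt (fun t : ℝ => Real.exp (-t ^ 2)) (Real.exp (-x ^ 2) * (-(2 * x))) x := by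
    intro x
    have h1 : HasDerivAt (fun t : ℝ => -t ^ 2) (-(2 * x)) x := by
      have := (hasDerivAt_pow 2 x).fun_neg
      simpa using this
    exact h1.exp
  have hb : ∀ x : ℝ, ‖Real.exp (-x ^ 2) * (-(2 * x))‖ ≤ 1 := by
    intro x
    rw [Real.norm_eq_abs, abs_mul, abs_neg, abs_of_pos (Real.exp_pos _), Real.exp_neg]
    have h1 : x ^ 2 + 1 ≤ Real.exp (x ^ 2) := Real.add_one_le_exp _
    have h2 : |2 * x| ≤ x ^ 2 + 1 := by
      rw [abs_le]
      constructor <;> nlinarith [sq_nonneg (x - 1), sq_nonneg (x + 1)]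
    rw [inv_mul_le_iff₀ (Real.exp_pos _)]
    linarith
  have h := Convex.norm_image_sub_le_of_norm_hasDerivWithin_le (s := Set.univ)
    (f := fun t : ℝ => Real.exp (-t ^ 2)) (f' := fun x => Real.exp (-x ^ 2) * (-(2 * x))) (C := 1)
    (fun x _ => (hd x).hasDerivWithinAt) (fun x _ => hb x) convex_univ (Set.mem_univ b) (Set.mem_univ a)
  simpa [Real.norm_eq_abs] using h

private theorem GM_cont (u : ℝ) : Continuous (fun y : ℝ => Real.exp (-(u - y) ^ 2)) := by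
  fun_prop

/-- one step of the Riemann sum -/
private theorem GM_step (u a h : ℝ) (hh : 0 < h) :
    |h * Real.exp (-(u - a) ^ 2) - ∫ y in a..(a + h), Real.exp (-(u - y) ^ 2)| ≤ h * h := by
  have h1 : h * Real.exp (-(u - a) ^ 2) = ∫ y in a..(a + h), Real.exp (-(u - a) ^ 2) := by
    rw [intervalIntegral.integral_const]
    simp
  rw [h1, ← intervalIntegral.integral_sub (by simp) ((GM_cont u).intervalIntegrable _ _)]
  have h2 := intervalIntegral.norm_integral_le_of_norm_le_const (a := a) (b := a + h) (C := h)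
    (f := fun y => Real.exp (-(u - a) ^ 2) - Real.exp (-(u - y) ^ 2)) (by
      intro y hy
      rw [Set.uIoc_of_le (by linarith)] at hy
      rw [Real.norm_eq_abs]
      refine (GM_lip _ _).trans ?_
      have : u - a - (u - y) = y - a := by ring
      rw [this, abs_of_pos (by linarith [hy.1])]
      linarith [hy.2])
  rw [Real.norm_eq_abs] at h2
  have h3 : |a + h - a| = h := by rw [add_sub_cancel_left, abs_of_pos hh]
  rw [h3] at h2
  exact h2

private theorem GM_sum (u h : ℝ) (hh : 0 < h) (J : ℕ) :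
    |h * ∑ j ∈ range (2 * J + 1), Real.exp (-(u - ((j : ℝ) - J) * h) ^ 2)
      - ∫ y in (-(J * h))..((J + 1) * h), Real.exp (-(u - y) ^ 2)| ≤ (2 * J + 1) * (h * h) := by
  have h1 : ∫ y in (-(J * h))..((J + 1) * h), Real.exp (-(u - y) ^ 2) =
      ∑ j ∈ range (2 * J + 1), ∫ y in (((j : ℝ) - J) * h)..(((j : ℝ) - J) * h + h),
        Real.exp (-(u - y) ^ 2) := by
    have h2 := intervalIntegral.sum_integral_adjacent_intervals
      (f := fun y : ℝ => Real.exp (-(u - y) ^ 2)) (a := fun j : ℕ => ((j : ℝ) - J) * h)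
      (n := 2 * J + 1) (μ := volume) (fun k _ => (GM_cont u).intervalIntegrable _ _)
    have e1 : (((0 : ℕ) : ℝ) - J) * h = -(J * h) := by push_cast; ring
    have e2 : (((2 * J + 1 : ℕ) : ℝ) - J) * h = (J + 1) * h := by push_cast; ring
    rw [e1, e2] at h2
    rw [← h2]
    refine Finset.sum_congr rfl fun j _ => ?_
    congr 1
    push_cast
    ring
  rw [h1, mul_sum, ← sum_sub_distrib]
  refine (abs_sum_le_sum_abs _ _).trans ?_
  have h3 : ∑ j ∈ range (2 * J + 1), |h * Real.exp (-(u - ((j : ℝ) - J) * h) ^ 2)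
      - ∫ y in (((j : ℝ) - J) * h)..(((j : ℝ) - J) * h + h), Real.exp (-(u - y) ^ 2)|
      ≤ ∑ _j ∈ range (2 * J + 1), h * h :=
    Finset.sum_le_sum fun j _ => GM_step u _ h hh
  refine h3.trans (le_of_eq ?_)
  rw [sum_const, card_range, nsmul_eq_mul]
  push_cast
  ring

private theorem GM_integrable : Integrable (fun v : ℝ => Real.exp (-v ^ 2)) := by
  have := integrable_exp_neg_mul_sq (b := 1) one_pos
  simpa using this

private theorem GM_total : ∫ v : ℝ, Real.exp (-v ^ 2) = Real.sqrt π := by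
  have := integral_gaussian 1
  simpa using this

/-- the tails -/
private theorem GM_tail (ε : ℝ) (hε : 0 < ε) : ∃ T : ℝ, 0 < T ∧ ∀ a b : ℝ, a ≤ -T → T ≤ b →
    |(∫ v in a..b, Real.exp (-v ^ 2)) - Real.sqrt π| ≤ ε := by
  have h1 := intervalIntegral_tendsto_integral (μ := volume) GM_integrable
    (a := fun T : ℝ => -T) (b := fun T : ℝ => T) (l := Filter.atTop)
    Filter.tendsto_neg_atTop_atBot Filter.tendsto_id
  rw [GM_total] at h1
  have h2 := (h1.eventually (lt_mem_nhds (show Real.sqrt π - ε < Real.sqrt π by linarith))).and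
    (Filter.eventually_gt_atTop (0 : ℝ))
  obtain ⟨T, hT1, hT2⟩ := h2.exists
  refine ⟨T, hT2, fun a b ha hb => ?_⟩
  have hnn : ∀ v : ℝ, 0 ≤ Real.exp (-v ^ 2) := fun v => (Real.exp_pos _).le
  have hii : ∀ a b : ℝ, IntervalIntegrable (fun v : ℝ => Real.exp (-v ^ 2)) volume a b :=
    fun a b => GM_integrable.intervalIntegrable
  have h3 : ∫ v in (-T)..T, Real.exp (-v ^ 2) ≤ ∫ v in a..b, Real.exp (-v ^ 2) := by
    apply intervalIntegral.integral_mono_interval ha (by linarith) hb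
    · exact Filter.Eventually.of_forall hnn
    · exact hii _ _
  have h4 : ∫ v in a..b, Real.exp (-v ^ 2) ≤ Real.sqrt π := by
    rw [intervalIntegral.integral_of_le (by linarith), ← GM_total]
    exact setIntegral_le_integral GM_integrable (Filter.Eventually.of_forall hnn)
  rw [abs_le]
  constructor <;> linarith

/-- PROOF. `∫ exp (-(u - y)²) dy = √π`; the part `|y| > K` is `≤ ε/2` for `|u| ≤ 3` and large `K`; on `[-K, K]` the Riemann sum with the step `h = K/J` differs from the integral by at most `2 K h + ...`, as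
`exp (- u²)` is Lipschitz with the constant `1` (`exp_sq_lip`, EF/P2). `J` large. -/
theorem gauss_mix (ε : ℝ) (hε : 0 < ε) : ∃ (J : ℕ) (h : ℝ), 0 < h ∧ ∀ u : ℝ, |u| ≤ 3 →
    |h * ∑ j ∈ range (2 * J + 1), Real.exp (-(u - ((j : ℝ) - J) * h) ^ 2) - Real.sqrt π| ≤ ε := by
  obtain ⟨T, hT0, hT⟩ := GM_tail (ε / 2) (by linarith)
  set K : ℝ := T + 3 with hK
  have hK0 : 0 < K := by linarith
  obtain ⟨J, hJ⟩ := exists_nat_gt (K * (3 * K) / (ε / 2) + 1)
  have hq : 0 ≤ K * (3 * K) / (ε / 2) := by positivity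
  have hJ1 : (1 : ℝ) < J := by linarith
  have hJ0 : (0 : ℝ) < J := by linarith
  refine ⟨J, K / J, by positivity, fun u hu => ?_⟩
  have hu' := abs_le.mp hu
  set h : ℝ := K / J with hh
  have hh0 : 0 < h := by positivity
  have hJh : J * h = K := by rw [hh]; field_simp
  have h1 := GM_sum u h hh0 J
  have h2 : ∫ y in (-(J * h))..((J + 1) * h), Real.exp (-(u - y) ^ 2) =
      ∫ v in (u - (J + 1) * h)..(u + J * h), Real.exp (-v ^ 2) := by
    rw [intervalIntegral.integral_comp_sub_left (fun v => Real.exp (-v ^ 2)) u]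
    rw [sub_neg_eq_add]
  rw [h2] at h1
  have h3 := hT (u - (J + 1) * h) (u + J * h) (by rw [add_mul, hJh, one_mul]; linarith [hu'.2])
    (by rw [hJh]; linarith [hu'.1])
  have h4 : (2 * J + 1) * (h * h) ≤ ε / 2 := by
    have e1 : (2 * (J : ℝ) + 1) * (h * h) ≤ 3 * J * (h * h) := by
      apply mul_le_mul_of_nonneg_right _ (by positivity)
      linarith
    have e2 : 3 * (J : ℝ) * (h * h) = K * (3 * K) / J := by
      rw [hh]; field_simp
    have e3 : K * (3 * K) / J ≤ ε / 2 := by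
      rw [div_le_iff₀ hJ0]
      have e4 : K * (3 * K) / (ε / 2) < J := by linarith
      rw [div_lt_iff₀ (by linarith)] at e4
      linarith
    linarith
  have h5 := abs_le.mp (h1.trans h4)
  have h6 := abs_le.mp h3
  rw [abs_le]
  constructor <;> linarith [h5.1, h5.2, h6.1, h6.2]

end Pool.Agent.Lib.MP_bae66e_nt.TF
end
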