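import Pool.Agent.Lib.MP_bae66e_nt.Mg.G113
import Pool.Agent.Lib.MP_bae66e_nt.Mg.G114
import Pool.Agent.Lib.MP_bae66e_nt.Mg.G020
import Pool.Agent.Lib.MP_bae66e_nt.Mg.G022
import Pool.Agent.Lib.MP_bae66e_nt.E3.A0b
import Pool.Agent.Lib.MP_bae66e_nt.Mg.G014
import Pool.Agent.Lib.MP_bae66e_nt.Mg.G004
import Pool.Agent.Lib.MP_bae66e_nt.Mg.G005
import Pool.Agent.Lib.MP_bae66e_nt.Mg.G098

section

/-!
# Row F: from the blocks `[X, 2X]` to `[1, N]`
-/

set_option autoImplicit false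

namespace Pool.Agent.Lib.MP_bae66e_nt.TF

open Finset MeasureTheory Real
open Pool.Agent.E3
open Pool.Agent.Lib.MP_bae66e_nt.LL (fP gW)
open Pool.Agent.Lib.MP_bae66e_nt.AC (Sg VV)
open Pool.Agent.Lib.MP_bae66e_nt.AP3 (prI mem_prI)

/-- PROOF. As `pi_near` (EF/F), for all `H`. -/
theorem pi_near_all (ε : ℝ) (hε : 0 < ε) : ∃ H₀ : ℕ, 2 ≤ H₀ ∧ ∀ H : ℕ, H₀ ≤ H →
    |(Nat.primeCounting H : ℝ) - H / Real.log H| ≤ ε * (H / Real.log H) := by
  have h := LL.tendsto_piAP 1 (0 : ZMod 1) (isUnit_of_subsingleton _)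
  have h2 : Filter.Tendsto (fun H : ℕ => (H : ℝ)) Filter.atTop Filter.atTop := tendsto_natCast_atTop_atTop
  have h3 := h.comp h2
  have h4 : (1 / (Nat.totient 1 : ℝ)) = 1 := by simp
  rw [h4] at h3
  obtain ⟨H₁, hH₁⟩ := Metric.tendsto_atTop.1 h3 ε hε
  refine ⟨max H₁ 2, le_max_right _ _, fun H hH => ?_⟩
  have hHa : H₁ ≤ H := (le_max_left _ _).trans hH
  have hHb : 2 ≤ H := (le_max_right _ _).trans hH
  have h5 := hH₁ H hHa
  have hHr : (2 : ℝ) ≤ (H : ℝ) := by exact_mod_cast hHb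
  have hlog : 0 < Real.log H := Real.log_pos (by linarith)
  have h6 : ((Finset.Icc 1 ⌊(H : ℝ)⌋₊).filter
      (fun p => p.Prime ∧ ((p : ℕ) : ZMod 1) = 0)).card = Nat.primeCounting H := by
    rw [Nat.floor_natCast, Nat.primeCounting, Nat.primeCounting', Nat.count_eq_card_filter_range]
    congr 1
    ext p
    rw [Finset.mem_filter, Finset.mem_filter, Finset.mem_Icc, Finset.mem_range]
    constructor
    · rintro ⟨⟨h1, h2⟩, h3, -⟩
      exact ⟨by omega, h3⟩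
    · rintro ⟨h1, h2⟩
      have := h2.two_le
      exact ⟨⟨by omega, by omega⟩, h2, Subsingleton.elim _ _⟩
  simp only [Function.comp] at h5
  rw [h6, Real.dist_eq] at h5
  have h7 : 0 < (H : ℝ) / Real.log H := by positivity
  have h8 : (Nat.primeCounting H : ℝ) - H / Real.log H =
      ((Nat.primeCounting H : ℝ) * Real.log H / H - 1) * (H / Real.log H) := by
    field_simp
  rw [h8, abs_mul, abs_of_pos h7]
  exact mul_le_mul_of_nonneg_right h5.le h7.le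

/-- a factor slightly larger than `1` -/
private theorem F_pow (e : ℝ) (he : 0 < e) : ∃ t : ℝ, 1 < t ∧ ∀ x y : ℝ, 0 ≤ x → 0 ≤ y → x ≤ t * y →
    x ^ e ≤ 2 * y ^ e := by
  refine ⟨(2 : ℝ) ^ (1 / e), Real.one_lt_rpow (by norm_num) (by positivity), fun x y hx hy hxy => ?_⟩
  have h1 : x ^ e ≤ ((2 : ℝ) ^ (1 / e) * y) ^ e := Real.rpow_le_rpow hx hxy he.le
  rw [Real.mul_rpow (by positivity) hy, ← Real.rpow_mul (by norm_num), one_div_mul_cancel he.ne',
    Real.rpow_one] at h1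
  exact h1

/-- the parameters of a block -/
private theorem F_par (a c K κ : ℝ) (ha : 3 ≤ a) (hc : 2 ≤ c) (hκ : 0 < κ) (hκ1 : κ ≤ 1) :
    ∃ N₀ : ℕ, ∀ N : ℕ, N₀ ≤ N → ∀ R ℓ H : ℕ,
      (ll N) ^ c / 4 ≤ R → (R : ℝ) ≤ (ll N) ^ c / 2 →
      (Real.log N) ^ a ≤ (R : ℝ) ^ ℓ → (R : ℝ) ^ ℓ ≤ (Real.log N) ^ (a + 1) / 2 →
      Real.log N * (ll N) ^ (c + 4) ≤ H → (H : ℝ) ≤ (Real.log N) ^ a / 2 →
      ∀ X : ℕ, κ * N ≤ X → X ≤ N → K ≤ X ∧ K ≤ Real.log X ∧ K ≤ H ∧ PT a c R ℓ H X := by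
  obtain ⟨t₁, ht₁, hp₁⟩ := F_pow c (by linarith)
  obtain ⟨t₂, ht₂, hp₂⟩ := F_pow (a + 1) (by linarith)
  obtain ⟨t₃, ht₃, hp₃⟩ := F_pow a (by linarith)
  set c₁ : ℝ := -Real.log κ with hc₁
  have hc₁0 : 0 ≤ c₁ := by
    rw [hc₁]
    linarith [Real.log_nonpos hκ.le hκ1]
  set B₁ : ℝ := t₁ * Real.log 2 / (t₁ - 1) with hB₁
  set B₂ : ℝ := t₂ * c₁ / (t₂ - 1) with hB₂
  set B₃ : ℝ := t₃ * c₁ / (t₃ - 1) with hB₃
  have q1 : 0 < t₁ - 1 := by linarith
  have q2 : 0 < t₂ - 1 := by linarith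
  have q3 : 0 < t₃ - 1 := by linarith
  have hl2 : 0 < Real.log 2 := Real.log_pos (by norm_num)
  have hB₁0 : 0 ≤ B₁ := by positivity
  have hB₂0 : 0 ≤ B₂ := by positivity
  have hB₃0 : 0 ≤ B₃ := by positivity
  have hK0 := abs_nonneg K
  have hKa := le_abs_self K
  have hKκ : 0 ≤ |K| / κ := by positivity
  obtain ⟨N₀, hN₀⟩ := ll_large (4 + 2 * c₁ + B₁ + B₂ + B₃ + |K| + |K| / κ)
  refine ⟨max N₀ 2, fun N hN R ℓ H h1 h2 h3 h4 h5 h6 X hX1 hX2 => ?_⟩
  obtain ⟨g1, g2, g3⟩ := hN₀ N ((le_max_left _ _).trans hN)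
  have hN2 : 2 ≤ N := (le_max_right _ _).trans hN
  have hNr : (0 : ℝ) < N := by
    have : (2 : ℝ) ≤ N := by exact_mod_cast hN2
    linarith
  have hXr : (0 : ℝ) < X := lt_of_lt_of_le (by positivity) hX1
  set L := Real.log N with hLdef
  have hlX : L - c₁ ≤ Real.log X := by
    have h1 : Real.log (κ * N) ≤ Real.log X := Real.log_le_log (by positivity) hX1
    rw [Real.log_mul hκ.ne' hNr.ne'] at h1
    rw [hc₁]
    linarith
  have hlX2 : Real.log X ≤ L := Real.log_le_log hXr (by exact_mod_cast hX2)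
  have hKX : K ≤ X := by
    have h1 : |K| / κ ≤ N := by linarith
    rw [div_le_iff₀ hκ] at h1
    linarith
  have hL4 : 4 ≤ L := by linarith
  have hhalf : L / 2 ≤ Real.log X := by linarith
  have hlX1 : 2 ≤ Real.log X := by linarith
  have hL0 : 0 < L := by linarith
  have hKlX : K ≤ Real.log X := by linarith
  -- the double logarithms
  have hllX2 : ll X ≤ ll N := Real.log_le_log (by linarith) hlX2
  have hllX1 : ll N - Real.log 2 ≤ ll X := by
    have e1 : Real.log (L / 2) ≤ Real.log (Real.log X) := Real.log_le_log (by positivity) hhalf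
    rw [Real.log_div hL0.ne' (by norm_num)] at e1
    exact e1
  have hl2' := Real.log_two_lt_d9
  have hllX0 : 0 ≤ ll X := by linarith
  have hllN0 : 0 ≤ ll N := by linarith
  have hr1 : ll N ≤ t₁ * ll X := by
    have e1 : t₁ * Real.log 2 ≤ ll N * (t₁ - 1) := by
      have e2 : B₁ ≤ ll N := by linarith
      rw [hB₁, div_le_iff₀ q1] at e2
      exact e2
    have e3 : t₁ * (ll N - Real.log 2) ≤ t₁ * ll X := mul_le_mul_of_nonneg_left hllX1 (by linarith)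
    nlinarith
  have hr2 : L ≤ t₂ * Real.log X := by
    have e1 : t₂ * c₁ ≤ L * (t₂ - 1) := by
      have e2 : B₂ ≤ L := by linarith
      rw [hB₂, div_le_iff₀ q2] at e2
      exact e2
    have e3 : t₂ * (L - c₁) ≤ t₂ * Real.log X := mul_le_mul_of_nonneg_left hlX (by linarith)
    nlinarith
  have hr3 : L ≤ t₃ * Real.log X := by
    have e1 : t₃ * c₁ ≤ L * (t₃ - 1) := by
      have e2 : B₃ ≤ L := by linarith
      rw [hB₃, div_le_iff₀ q3] at e2
      exact e2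
    have e3 : t₃ * (L - c₁) ≤ t₃ * Real.log X := mul_le_mul_of_nonneg_left hlX (by linarith)
    nlinarith
  have k1 := hp₁ (ll N) (ll X) hllN0 hllX0 hr1
  have k2 := hp₂ L (Real.log X) hL0.le (by linarith) hr2
  have k3 := hp₃ L (Real.log X) hL0.le (by linarith) hr3
  have hlow : Real.log X * (ll X) ^ (c + 4) ≤ L * (ll N) ^ (c + 4) := by
    refine mul_le_mul hlX2 (Real.rpow_le_rpow hllX0 hllX2 (by linarith)) (Real.rpow_nonneg hllX0 _) hL0.le
  have hKH : K ≤ H := by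
    have e1 : (1 : ℝ) ≤ (ll N) ^ (c + 4) := Real.one_le_rpow (by linarith) (by linarith)
    have e2 : L ≤ L * (ll N) ^ (c + 4) := le_mul_of_one_le_right hL0.le e1
    linarith
  refine ⟨hKX, hKlX, hKH, ⟨?_, ?_, ?_, ?_, hlow.trans h5, ?_⟩⟩
  · refine le_trans ?_ h1
    have := Real.rpow_le_rpow hllX0 hllX2 (by linarith : (0 : ℝ) ≤ c)
    linarith
  · linarith
  · exact (Real.rpow_le_rpow (by linarith) hlX2 (by linarith)).trans h3
  · linarith
  · linarith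

/-- the arithmetic of one integer -/
private theorem F_one (ε' S s U P lX lN Sig cnt : ℝ) (he : 0 < ε') (he1 : ε' ≤ 1 / 2)
    (hs : 0 < s) (hU : 0 < U) (hlX : 1 ≤ lX) (hlXN : lX ≤ lN) (hSig0 : 0 ≤ Sig)
    (hS : |S - s| ≤ ε' * s) (hP : |P - U| ≤ ε' * U) (hlN : lN ≤ (1 + ε') * lX)
    (hc : |cnt - S * (U / lX) * Sig| ≤ ε' * (S * (U / lX) * Sig)) :
    |cnt - s * (P / lN) * Sig| ≤ 17 * ε' * (s * (P / lN) * Sig) := by
  have hlX0 : 0 < lX := by linarith
  have hlN0 : 0 < lN := by linarith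
  obtain ⟨hS1, hS2⟩ := abs_le.1 hS
  obtain ⟨hP1, hP2⟩ := abs_le.1 hP
  have hP0 : 0 < P := by nlinarith
  have hUP : U ≤ 2 * P := by nlinarith
  have hUX : U / lX ≤ 4 * (P / lN) := by
    rw [div_le_iff₀ hlX0, show 4 * (P / lN) * lX = 4 * P * lX / lN by ring, le_div_iff₀ hlN0]
    have h2 : lN ≤ 2 * lX := by nlinarith
    calc U * lN ≤ (2 * P) * (2 * lX) := mul_le_mul hUP h2 hlN0.le (by positivity)
      _ = 4 * P * lX := by ring
  have hUX0 : 0 < U / lX := by positivity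
  have hPN0 : 0 < P / lN := by positivity
  have hS3 : S ≤ 2 * s := by nlinarith
  -- first part
  have h1 : ε' * (S * (U / lX) * Sig) ≤ 8 * ε' * (s * (P / lN) * Sig) := by
    calc ε' * (S * (U / lX) * Sig) ≤ ε' * ((2 * s) * (4 * (P / lN)) * Sig) := by
          refine mul_le_mul_of_nonneg_left ?_ he.le
          refine mul_le_mul_of_nonneg_right ?_ hSig0
          exact mul_le_mul hS3 hUX (by positivity) (by positivity)
      _ = _ := by ring
  -- second part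
  have h2 : |S * (U / lX) - s * (P / lN)| ≤ 9 * ε' * (s * (P / lN)) := by
    have e1 : S * (U / lX) - s * (P / lN) = (S - s) * (U / lX) + s * ((U - P) / lX) +
        s * (P / lN * ((lN - lX) / lX)) := by
      field_simp
      ring
    have g1 : |(S - s) * (U / lX)| ≤ 4 * ε' * (s * (P / lN)) := by
      rw [abs_mul, abs_of_pos hUX0]
      calc |S - s| * (U / lX) ≤ (ε' * s) * (4 * (P / lN)) :=
            mul_le_mul hS hUX hUX0.le (by positivity)
        _ = _ := by ring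
    have g2 : |s * ((U - P) / lX)| ≤ 4 * ε' * (s * (P / lN)) := by
      rw [abs_mul, abs_of_pos hs, abs_div, abs_of_pos hlX0, abs_sub_comm]
      calc s * (|P - U| / lX) ≤ s * (ε' * U / lX) := by
            refine mul_le_mul_of_nonneg_left ?_ hs.le
            exact div_le_div_of_nonneg_right hP hlX0.le
        _ = ε' * s * (U / lX) := by ring
        _ ≤ ε' * s * (4 * (P / lN)) := mul_le_mul_of_nonneg_left hUX (by positivity)
        _ = _ := by ring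
    have g3 : |s * (P / lN * ((lN - lX) / lX))| ≤ ε' * (s * (P / lN)) := by
      have g4 : 0 ≤ (lN - lX) / lX := div_nonneg (by linarith) hlX0.le
      have g5 : (lN - lX) / lX ≤ ε' := by
        rw [div_le_iff₀ hlX0]
        linarith
      rw [abs_of_nonneg (by positivity)]
      calc s * (P / lN * ((lN - lX) / lX)) = (s * (P / lN)) * ((lN - lX) / lX) := by ring
        _ ≤ (s * (P / lN)) * ε' := mul_le_mul_of_nonneg_left g5 (by positivity)
        _ = _ := by ring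
    rw [e1]
    calc _ ≤ |(S - s) * (U / lX) + s * ((U - P) / lX)| + |s * (P / lN * ((lN - lX) / lX))| :=
          abs_add_le _ _
      _ ≤ |(S - s) * (U / lX)| + |s * ((U - P) / lX)| + |s * (P / lN * ((lN - lX) / lX))| := by
          gcongr
          exact abs_add_le _ _
      _ ≤ _ := by linarith
  have h3 : |S * (U / lX) * Sig - s * (P / lN) * Sig| ≤ 9 * ε' * (s * (P / lN) * Sig) := by
    rw [← sub_mul, abs_mul, abs_of_nonneg hSig0]
    calc |S * (U / lX) - s * (P / lN)| * Sig ≤ (9 * ε' * (s * (P / lN))) * Sig :=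
          mul_le_mul_of_nonneg_right h2 hSig0
      _ = _ := by ring
  have h4 : cnt - s * (P / lN) * Sig = (cnt - S * (U / lX) * Sig) +
      (S * (U / lX) * Sig - s * (P / lN) * Sig) := by ring
  rw [h4]
  calc _ ≤ |cnt - S * (U / lX) * Sig| + |S * (U / lX) * Sig - s * (P / lN) * Sig| := abs_add_le _ _
    _ ≤ 8 * ε' * (s * (P / lN) * Sig) + 9 * ε' * (s * (P / lN) * Sig) :=
        add_le_add (hc.trans h1) h3
    _ = _ := by ring

/-- PROOF. As `fing_of` (EF/F): cover `(δ N/4, N]` by boundedly many blocks `[X_j, 2 X_j]` with `X_j ≥ c N` (for instance `dy_cover`, EF/Q3); for large `N` the conditions of `FINT` give `PT a c R ℓ H X_j` (`ll X_j = (1 + o(1)) ll N`,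
`log X_j = (1 + o(1)) log N`); `COUNTT` for each `X_j`, `singa` (EF/G2) for `Sg` against `sing`, `pi_near_all` for `H/log H` against `π(H)`, and `log X_j = (1 + o(1)) log m`. -/
theorem fint_of (a c : ℝ) (ha : 3 ≤ a) (hc : 2 ≤ c) (h : COUNTT a c) : FINT a c := by
  classical
  intro ε δ hε hδ
  -- the constants
  set ε' : ℝ := min (1 / 2) (ε / 17) with hε'
  have he0 : 0 < ε' := lt_min (by norm_num) (by positivity)
  have he1 : ε' ≤ 1 / 2 := min_le_left _ _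
  have he2 : 17 * ε' ≤ ε := by
    have h1 : ε' ≤ ε / 17 := min_le_right _ _
    linarith
  set b : ℝ := 3 / 2 with hb
  have hb1 : 1 < b := by
    rw [hb]
    norm_num
  have hb0 : 0 < b := by linarith
  obtain ⟨J, hJ⟩ : ∃ J : ℕ, 4 / δ < b ^ J := pow_unbounded_of_one_lt _ hb1
  have hbJ : 0 < b ^ J := by positivity
  set δ' : ℝ := δ / (4 * (J + 1)) with hδ'
  have hδ'0 : 0 < δ' := by positivity
  obtain ⟨w₁, hw₁⟩ := h ε' δ' he0 hδ'0
  obtain ⟨w₂, hw₂⟩ := EF.singa ε' (δ / 4) he0 (by positivity)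
  set w := max w₁ (max w₂ 2) with hw
  have hwa : w₁ ≤ w := le_max_left _ _
  have hwb : w₂ ≤ w := (le_max_left _ _).trans (le_max_right _ _)
  have hwc : 2 ≤ w := (le_max_right _ _).trans (le_max_right _ _)
  obtain ⟨X₀, hX₀⟩ := hw₁ w hwa
  obtain ⟨H₀, hH₀, hpi⟩ := pi_near_all ε' he0
  -- the parameters
  set κ : ℝ := 1 / (2 * b ^ J) with hκ
  have hκ0 : 0 < κ := by positivity
  have hκ1 : κ ≤ 1 := by
    rw [hκ, div_le_one (by positivity)]
    have : 1 ≤ b ^ J := one_le_pow₀ hb1.le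
    linarith
  set K : ℝ := X₀ + H₀ + Real.log 2 / ε' + 3 with hK
  have hl2 : 0 < Real.log 2 := Real.log_pos (by norm_num)
  have hlK : 0 < Real.log 2 / ε' := by positivity
  have hH00 : (0 : ℝ) ≤ H₀ := Nat.cast_nonneg _
  have hX00 : (0 : ℝ) ≤ X₀ := Nat.cast_nonneg _
  obtain ⟨N₁, hN₁⟩ := F_par a c K κ ha hc hκ0 hκ1
  obtain ⟨N₂, hN₂⟩ := exists_nat_ge (2 * b ^ J)
  refine ⟨max N₁ (max N₂ 1), fun N hN R ℓ H r1 r2 r3 r4 r5 r6 => ?_⟩
  have hNa : N₁ ≤ N := (le_max_left _ _).trans hN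
  have hNb : N₂ ≤ N := ((le_max_left _ _).trans (le_max_right _ _)).trans hN
  have hNc : 1 ≤ N := ((le_max_right _ _).trans (le_max_right _ _)).trans hN
  have hNr : (0 : ℝ) < N := by exact_mod_cast hNc
  have hNbig : 2 * b ^ J ≤ N := hN₂.trans (by exact_mod_cast hNb)
  -- the blocks
  set X : ℕ → ℕ := fun j => ⌊(N : ℝ) / b ^ (j + 1)⌋₊ with hX
  have hXle : ∀ j, (X j : ℝ) ≤ (N : ℝ) / b ^ (j + 1) := fun j => Nat.floor_le (by positivity)
  have hXN : ∀ j, X j ≤ N := by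
    intro j
    have h1 : (X j : ℝ) ≤ N := (hXle j).trans (div_le_self hNr.le (one_le_pow₀ hb1.le))
    exact_mod_cast h1
  have hXc : ∀ j < J, κ * N ≤ X j := by
    intro j hj
    have h1 : (N : ℝ) / b ^ (j + 1) - 1 < X j := by
      have := Nat.lt_floor_add_one ((N : ℝ) / b ^ (j + 1))
      linarith
    have h2 : (N : ℝ) / b ^ J ≤ (N : ℝ) / b ^ (j + 1) := by
      apply div_le_div_of_nonneg_left hNr.le (by positivity)
      exact pow_le_pow_right₀ hb1.le hj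
    have h3 : κ * N = (N : ℝ) / b ^ J / 2 := by
      rw [hκ]
      field_simp
    have h4 : 2 ≤ (N : ℝ) / b ^ J := by
      rw [le_div_iff₀ hbJ]
      linarith
    rw [h3]
    linarith
  have hpar : ∀ j < J, K ≤ X j ∧ K ≤ Real.log (X j) ∧ K ≤ H ∧ PT a c R ℓ H (X j) := by
    intro j hj
    exact hN₁ N hNa R ℓ H r1 r2 r3 r4 r5 r6 (X j) (hXc j hj) (hXN j)
  have hBT0 : 0 ≤ BT R ℓ := Finset.sum_nonneg fun s _ => by positivity
  -- the exceptional sets
  set Bad : ℕ → Finset ℕ := fun j => {m ∈ Icc (X j) (2 * X j) | Even m ∧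
      ε' * (Sg (primorial w) m * (H / (Real.log H * Real.log (X j))) * BT R ℓ) <
        |cntT R ℓ H m - Sg (primorial w) m * (H / (Real.log H * Real.log (X j))) * BT R ℓ|} with hBad
  set BS : Finset ℕ := {m ∈ Icc 1 N | Even m ∧ ε' * Pool.Agent.MG.sing m <
    |Sg (primorial w) m - Pool.Agent.MG.sing m|} with hBS
  set Sm : Finset ℕ := {m ∈ Icc 1 N | ((m : ℕ) : ℝ) ≤ δ / 4 * N} with hSm
  have hBadc : ∀ j < J, (#(Bad j) : ℝ) ≤ δ' * N := by
    intro j hj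
    obtain ⟨h1, -, -, h4⟩ := hpar j hj
    have h5 : X₀ ≤ X j := by
      have h6 : (X₀ : ℝ) ≤ X j := by linarith
      exact_mod_cast h6
    refine (hX₀ (X j) h5 R ℓ H h4).trans ?_
    exact mul_le_mul_of_nonneg_left (by exact_mod_cast hXN j) hδ'0.le
  have hBSc : (BS.card : ℝ) ≤ δ / 4 * N := hw₂ w hwb N
  have hSmc : (Sm.card : ℝ) ≤ δ / 4 * N := by
    have h1 : Sm ⊆ Icc 1 ⌊δ / 4 * N⌋₊ := by
      intro m hm
      rw [hSm, Finset.mem_filter, Finset.mem_Icc] at hm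
      rw [Finset.mem_Icc]
      exact ⟨hm.1.1, Nat.le_floor hm.2⟩
    calc (Sm.card : ℝ) ≤ (#(Icc 1 ⌊δ / 4 * (N : ℝ)⌋₊) : ℝ) := by exact_mod_cast Finset.card_le_card h1
      _ = (⌊δ / 4 * (N : ℝ)⌋₊ : ℝ) := by
          rw [Nat.card_Icc, Nat.add_sub_cancel]
      _ ≤ δ / 4 * N := Nat.floor_le (by positivity)
  -- the inclusion
  set Fin : Finset ℕ := {m ∈ Icc 1 N | Even m ∧
      ε * (Pool.Agent.MG.sing m * (Nat.primeCounting H / Real.log m) * BT R ℓ) <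
        |cntT R ℓ H m - Pool.Agent.MG.sing m * (Nat.primeCounting H / Real.log m) * BT R ℓ|} with hFin
  have hsub : Fin ⊆ Sm ∪ (BS ∪ (range J).biUnion Bad) := by
    intro m hm
    rw [hFin, Finset.mem_filter] at hm
    obtain ⟨hm1, hm2, hm3⟩ := hm
    rw [Finset.mem_Icc] at hm1
    by_contra hcon
    rw [Finset.mem_union, Finset.mem_union, not_or, not_or] at hcon
    obtain ⟨hc1', hc2', hc3'⟩ := hcon
    have hmbig : δ / 4 * N < m := by
      by_contra h1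
      rw [not_lt] at h1
      exact hc1' (Finset.mem_filter.2 ⟨Finset.mem_Icc.2 hm1, h1⟩)
    have hmS : |Sg (primorial w) m - Pool.Agent.MG.sing m| ≤ ε' * Pool.Agent.MG.sing m := by
      by_contra h1
      rw [not_le] at h1
      exact hc2' (Finset.mem_filter.2 ⟨Finset.mem_Icc.2 hm1, hm2, h1⟩)
    have hmJ : (N : ℝ) / b ^ J < m := by
      refine lt_of_le_of_lt ?_ hmbig
      rw [div_le_iff₀ hbJ]
      have h1 : 4 / δ ≤ b ^ J := hJ.le
      rw [div_le_iff₀ hδ] at h1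
      nlinarith
    obtain ⟨j, hj, hj1, hj2⟩ := EF.F_cover b J N m (by exact_mod_cast hm1.2) hmJ
    obtain ⟨g1, g2, g3, g4⟩ := hpar j hj
    have hXm : X j ≤ m := by
      have h1 : (X j : ℝ) ≤ m := (hXle j).trans hj1.le
      exact_mod_cast h1
    have hXr : (3 : ℝ) ≤ X j := by linarith
    have hm5r : (m : ℝ) ≤ 2 * X j := by
      have h1 : (N : ℝ) / b ^ (j + 1) < X j + 1 := Nat.lt_floor_add_one _
      have h2 : (N : ℝ) / b ^ j = b * ((N : ℝ) / b ^ (j + 1)) := by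
        rw [pow_succ]
        field_simp
      calc (m : ℝ) ≤ b * ((N : ℝ) / b ^ (j + 1)) := hj2.trans_eq h2
        _ ≤ b * (X j + 1) := mul_le_mul_of_nonneg_left h1.le hb0.le
        _ ≤ 2 * X j := by
            rw [hb]
            linarith
    have hm5 : m ≤ 2 * X j := by exact_mod_cast hm5r
    have hmB : |cntT R ℓ H m - Sg (primorial w) m * (H / (Real.log H * Real.log (X j))) * BT R ℓ| ≤
        ε' * (Sg (primorial w) m * (H / (Real.log H * Real.log (X j))) * BT R ℓ) := by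
      by_contra h1
      rw [not_le] at h1
      apply hc3'
      rw [Finset.mem_biUnion]
      exact ⟨j, Finset.mem_range.2 hj, Finset.mem_filter.2 ⟨Finset.mem_Icc.2 ⟨hXm, hm5⟩, hm2, h1⟩⟩
    have hHH : H₀ ≤ H := by
      have h1 : (H₀ : ℝ) ≤ H := by linarith
      exact_mod_cast h1
    have hHr : (2 : ℝ) ≤ (H : ℝ) := by exact_mod_cast hH₀.trans hHH
    have hlH : 0 < Real.log H := Real.log_pos (by linarith)
    have hsing : 0 < Pool.Agent.MG.sing m := by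
      have h1 := (AC.one_le_Sg w m hwc hm2).1
      obtain ⟨h2, h3⟩ := abs_le.1 hmS
      nlinarith
    have e1 : (H : ℝ) / (Real.log H * Real.log (X j)) =
        H / Real.log H / Real.log (X j) := by rw [div_div]
    rw [e1] at hmB
    have hX0 : (0 : ℝ) < X j := by linarith
    have hm0 : (0 : ℝ) < m := lt_of_lt_of_le hX0 (by exact_mod_cast hXm)
    have hlXm : Real.log (X j) ≤ Real.log m := Real.log_le_log hX0 (by exact_mod_cast hXm)
    have hlm : Real.log m ≤ (1 + ε') * Real.log (X j) := by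
      have h1 : Real.log m ≤ Real.log (2 * X j) := Real.log_le_log hm0 hm5r
      rw [Real.log_mul (by norm_num) hX0.ne'] at h1
      have h2 : Real.log 2 / ε' ≤ Real.log (X j) := by linarith
      rw [div_le_iff₀ he0] at h2
      linarith
    have hfin := F_one ε' (Sg (primorial w) m) (Pool.Agent.MG.sing m) (H / Real.log H)
      (Nat.primeCounting H) (Real.log (X j)) (Real.log m) (BT R ℓ)
      (cntT R ℓ H m) he0 he1 hsing (by positivity) (by linarith) hlXm hBT0 hmS (hpi H hHH) hlm hmB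
    have hP0 : (0 : ℝ) ≤ Pool.Agent.MG.sing m *
        ((Nat.primeCounting H : ℝ) / Real.log m) * BT R ℓ := by
      have : 0 < Real.log m := by linarith
      positivity
    have hfin2 : |cntT R ℓ H m - Pool.Agent.MG.sing m * ((Nat.primeCounting H : ℝ) / Real.log m) * BT R ℓ| ≤
        ε * (Pool.Agent.MG.sing m * ((Nat.primeCounting H : ℝ) / Real.log m) * BT R ℓ) :=
      hfin.trans (mul_le_mul_of_nonneg_right he2 hP0)
    linarith
  calc (Fin.card : ℝ) ≤ (#(Sm ∪ (BS ∪ (range J).biUnion Bad)) : ℝ) := by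
        exact_mod_cast Finset.card_le_card hsub
    _ ≤ (Sm.card : ℝ) + ((BS.card : ℝ) + (#((range J).biUnion Bad) : ℝ)) := by
        have h1 := Finset.card_union_le Sm (BS ∪ (range J).biUnion Bad)
        have h2 := Finset.card_union_le BS ((range J).biUnion Bad)
        exact_mod_cast h1.trans (Nat.add_le_add_left h2 _)
    _ ≤ δ / 4 * N + (δ / 4 * N + J * (δ' * N)) := by
        have h3 : (#((range J).biUnion Bad) : ℝ) ≤ J * (δ' * N) := by
          calc (#((range J).biUnion Bad) : ℝ) ≤ ((∑ j ∈ range J, #(Bad j) : ℕ) : ℝ) := by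
                exact_mod_cast Finset.card_biUnion_le
            _ = ∑ j ∈ range J, (#(Bad j) : ℝ) := by push_cast; rfl
            _ ≤ ∑ _j ∈ range J, δ' * N :=
                Finset.sum_le_sum fun j hj => hBadc j (Finset.mem_range.1 hj)
            _ = J * (δ' * N) := by
                rw [Finset.sum_const, Finset.card_range, nsmul_eq_mul]
        linarith
    _ ≤ δ * N := by
        have h4 : (J : ℝ) * (δ' * N) ≤ δ / 4 * N := by
          have h5 : (J : ℝ) * δ' ≤ δ / 4 := by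
            rw [hδ', mul_div_assoc', div_le_div_iff₀ (by positivity) (by norm_num)]
            nlinarith
          calc (J : ℝ) * (δ' * N) = ((J : ℝ) * δ') * N := by ring
            _ ≤ δ / 4 * N := mul_le_mul_of_nonneg_right h5 hNr.le
        have h6 : 0 ≤ δ / 4 * N := by positivity
        linarith

end Pool.Agent.Lib.MP_bae66e_nt.TF
end

section

/-!
# A7: the variance (VARA2)
-/

set_option autoImplicit false

namespace Pool.Agent.E3

open Finset Real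
open Pool.Agent.Lib.MP_bae66e_nt.LL (corr fP gW nu)

/-- PROOF. Let `C₁` be the constant of `cc_zero_le`, `κ, C₂, z₀` those of `cc_le`, `C₃` that of `var_bound`. Choose `ε > 0` with
`C₃ √ε C₂ ≤ η/2` and `w₀` from `energy_small ε`; let `w ≥ w₀`, `W = primorial w`, `Y₀` from `energy_small`, and
`K = max (Y₀ + 1) (2 C₁ (1 + W²)/η)`. Take `X` so large that `PA c a K κ X` (`par_A`) and `z₀ ≤ Nat.sqrt X`. Put `H = HA`, `R₁ = RA`, `R₂ = RB`, `Y = YA`,
`F = FA = 1/(log R₁ log R₂ log X)`, so `R₁ R₂ Y = X`; `f = fA c a X = fS (SS R₁ R₂) Y X`; `N = 4 R₁ R₂ X² + 1`, `E = fP H - gW W H`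
(`EE_supp`). Apply `var_bound` with `A₀ = C₁ X F` (`cc_zero_le`), `B = C₂ X F²` (`cc_le`; for `1 ≤ d ≤ H`: `d ≤ H < R₂`,
`log d log R₁ ≤ log H log R₁ ≤ R₁`), `D₀ = H ((log H)² + W²)` (`corr_zero_le`), `f 0 = 0` (`fS_small`), `fS_big`, `fS_nonneg`, the energy by
`energy_small` (`Y₀ ≤ K ≤ H`). The result is `≤ H ((log H)² + W²) C₁ X F + C₃ √ε C₂ X F² H²`. The second term is `≤ (η/2) X (H F)²`. The first: by
`hdiag` `(log H)² + W² ≤ (1 + W²)(1 + (log H)²) ≤ (1 + W²) H F/K ≤ (η/(2 C₁)) H F`. -/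
theorem vara2_of (hSL : SLP) (a c : ℝ) (ha : 3 ≤ a) (hc : 2 ≤ c) : VARA2 a c := by
  intro η hη
  obtain ⟨C₁, hC1, hz⟩ := cc_zero_le
  obtain ⟨κ, C₂, hκ0, hκ1, hC2, z₀, hz0, hcc⟩ := cc_le hSL
  obtain ⟨C₃, hC3, hvar⟩ := var_bound
  have hC1p : 0 < C₁ := by linarith
  have hC2p : 0 < C₂ := by linarith
  have hC3p : 0 < C₃ := by linarith
  have he0 : 0 < η / (2 * C₃ * C₂) := by positivity
  have hε : 0 < (η / (2 * C₃ * C₂)) ^ 2 := by positivity
  have hsqrt : Real.sqrt ((η / (2 * C₃ * C₂)) ^ 2) = η / (2 * C₃ * C₂) := Real.sqrt_sq he0.le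
  obtain ⟨w₀, hw⟩ := Pool.Agent.Lib.MP_bae66e_nt.LL.energy_small ((η / (2 * C₃ * C₂)) ^ 2) hε
  refine ⟨w₀, fun w hww => ?_⟩
  obtain ⟨Y₀, hY⟩ := hw w hww
  have hW1 : 1 ≤ primorial w := primorial_pos w
  obtain ⟨X₁, hPA⟩ := par_A c a (max ((Y₀ : ℝ) + 1) (2 * C₁ * (1 + (primorial w : ℝ) ^ 2) / η)) κ hc ha hκ0
  refine ⟨max X₁ (z₀ * z₀), fun X hX => ?_⟩
  have P := hPA X ((le_max_left _ _).trans hX)
  have hzX : z₀ ≤ Nat.sqrt X := Nat.le_sqrt.2 ((le_max_right _ _).trans hX)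
  have hR1pos : (0 : ℝ) < RA c X := by
    have := P.hR1
    exact_mod_cast (by omega : 0 < RA c X)
  have hR2nat : 0 < RB c a X := by
    have h1 := P.hR12
    have h2 := P.hR1
    omega
  have hR2pos : (0 : ℝ) < RB c a X := by exact_mod_cast hR2nat
  have hXnat : 0 < X := by
    have := P.hX
    omega
  have hXpos : (0 : ℝ) < X := by exact_mod_cast hXnat
  have hYeq : ((RA c X : ℝ) * RB c a X) * YA c a X = X := by
    unfold YA
    field_simp
  have hYpos : 0 < YA c a X := by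
    unfold YA
    positivity
  have hFdef : FA c a X = 1 / (Real.log (RA c X) * Real.log (RB c a X) * Real.log X) := rfl
  have hF := P.hF
  have hH0 : (0 : ℝ) ≤ HA c X := Nat.cast_nonneg _
  have hHK := P.hHK
  have hY₀H : Y₀ ≤ HA c X := by
    have h1 : (Y₀ : ℝ) + 1 ≤ HA c X := (le_max_left _ _).trans hHK
    have h2 : (Y₀ : ℝ) ≤ HA c X := by linarith
    exact_mod_cast h2
  have h8 : cc (fS (SS (RA c X) (RB c a X)) (YA c a X) X) (4 * (RA c X * RB c a X) * X ^ 2 + 1) 0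
      ≤ C₁ * X * FA c a X := by
    refine (hz (RA c X) (RB c a X) X (4 * (RA c X * RB c a X) * X ^ 2 + 1) (YA c a X) P.hR1 P.hR12
      P.hR2X P.hX P.hYl P.hYu).trans (le_of_eq ?_)
    rw [hYeq, hFdef]
    ring
  have h9 : ∀ d, 1 ≤ d → d ≤ HA c X →
      cc (fS (SS (RA c X) (RB c a X)) (YA c a X) X) (4 * (RA c X * RB c a X) * X ^ 2 + 1) d
        ≤ (C₂ * X * (FA c a X) ^ 2) * (Fr d) ^ 2 := by
    intro d hd hdH
    have hlogd : Real.log d * Real.log (RA c X) ≤ RA c X := by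
      have h1 : Real.log d ≤ Real.log (HA c X) := by
        apply Real.log_le_log
        · exact_mod_cast hd
        · exact_mod_cast hdH
      have h2 : 0 ≤ Real.log (RA c X) := Real.log_natCast_nonneg _
      exact (mul_le_mul_of_nonneg_right h1 h2).trans P.hlog
    refine (hcc (RA c X) (RB c a X) X (4 * (RA c X * RB c a X) * X ^ 2 + 1) d (YA c a X) hzX P.hR1
      P.hR12 hd (hdH.trans P.hHR.le) hYpos hlogd P.hsX).trans (le_of_eq ?_)
    rw [hYeq, hFdef]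
    ring
  have hmain := hvar (HA c X) (4 * (RA c X * RB c a X) * X ^ 2 + 1)
    (fun n => fP (HA c X) n - gW (primorial w) (HA c X) n)
    (fS (SS (RA c X) (RB c a X)) (YA c a X) X) (Icc X (2 * X)) (C₁ * X * FA c a X)
    (C₂ * X * (FA c a X) ^ 2)
    ((HA c X : ℝ) * ((Real.log (HA c X)) ^ 2 + (primorial w : ℝ) ^ 2)) ((η / (2 * C₃ * C₂)) ^ 2)
    (EE_supp (primorial w) (HA c X))
    (fS_small _ _ X 0 _ (Nat.zero_le _))
    (fun n hn => fS_big _ _ X n _ hn) (fun n => fS_nonneg _ _ X n)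
    (by positivity) (by positivity) hε.le h8 h9 (corr_zero_le (primorial w) (HA c X) hW1 P.hH1)
    (hY (HA c X) hY₀H)
  have hgoal : ∑ m ∈ Icc X (2 * X), (∑ t ∈ Icc 1 (HA c X),
        (fP (HA c X) (t : ℤ) - gW (primorial w) (HA c X) (t : ℤ)) * fA c a X (m - t)) ^ 2
      ≤ (HA c X : ℝ) * ((Real.log (HA c X)) ^ 2 + (primorial w : ℝ) ^ 2) * (C₁ * X * FA c a X) +
        C₃ * Real.sqrt ((η / (2 * C₃ * C₂)) ^ 2) * (C₂ * X * (FA c a X) ^ 2) * (HA c X : ℝ) ^ 2 :=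
    hmain
  refine hgoal.trans ?_
  rw [hsqrt]
  have hsecond : C₃ * (η / (2 * C₃ * C₂)) * (C₂ * X * (FA c a X) ^ 2) * (HA c X : ℝ) ^ 2
      = η / 2 * X * ((HA c X : ℝ) * FA c a X) ^ 2 := by
    field_simp
  rw [hsecond]
  have hK2 : 2 * C₁ * (1 + (primorial w : ℝ) ^ 2) / η * (1 + (Real.log (HA c X)) ^ 2)
      ≤ HA c X * FA c a X := by
    refine le_trans ?_ P.hdiag
    apply mul_le_mul_of_nonneg_right (le_max_right _ _)
    positivity
  have hfirst : C₁ * ((Real.log (HA c X)) ^ 2 + (primorial w : ℝ) ^ 2)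
      ≤ η / 2 * (HA c X * FA c a X) := by
    have h1 : (Real.log (HA c X)) ^ 2 + (primorial w : ℝ) ^ 2
        ≤ (1 + (primorial w : ℝ) ^ 2) * (1 + (Real.log (HA c X)) ^ 2) := by
      have h2 : 0 ≤ (primorial w : ℝ) ^ 2 * (Real.log (HA c X)) ^ 2 := by positivity
      nlinarith
    have h3 : C₁ * ((1 + (primorial w : ℝ) ^ 2) * (1 + (Real.log (HA c X)) ^ 2))
        = η / 2 * (2 * C₁ * (1 + (primorial w : ℝ) ^ 2) / η * (1 + (Real.log (HA c X)) ^ 2)) := by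
      field_simp
    calc C₁ * ((Real.log (HA c X)) ^ 2 + (primorial w : ℝ) ^ 2)
        ≤ C₁ * ((1 + (primorial w : ℝ) ^ 2) * (1 + (Real.log (HA c X)) ^ 2)) :=
          mul_le_mul_of_nonneg_left h1 hC1p.le
      _ = η / 2 * (2 * C₁ * (1 + (primorial w : ℝ) ^ 2) / η * (1 + (Real.log (HA c X)) ^ 2)) := h3
      _ ≤ η / 2 * (HA c X * FA c a X) := mul_le_mul_of_nonneg_left hK2 (by positivity)
  have hHXF : 0 ≤ (HA c X : ℝ) * X * FA c a X := by positivity
  have h5 := mul_le_mul_of_nonneg_left hfirst hHXF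
  calc (HA c X : ℝ) * ((Real.log (HA c X)) ^ 2 + (primorial w : ℝ) ^ 2) * (C₁ * X * FA c a X) +
        η / 2 * X * ((HA c X : ℝ) * FA c a X) ^ 2
      = (HA c X : ℝ) * X * FA c a X * (C₁ * ((Real.log (HA c X)) ^ 2 + (primorial w : ℝ) ^ 2)) +
        η / 2 * X * ((HA c X : ℝ) * FA c a X) ^ 2 := by ring
    _ ≤ (HA c X : ℝ) * X * FA c a X * (η / 2 * (HA c X * FA c a X)) +
        η / 2 * X * ((HA c X : ℝ) * FA c a X) ^ 2 := by linarith
    _ = η * X * ((HA c X : ℝ) * FA c a X) ^ 2 := by ring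

end Pool.Agent.E3
end

section

/-!
# Row V: the variance
-/

set_option autoImplicit false

namespace Pool.Agent.Lib.MP_bae66e_nt.TF

open Finset MeasureTheory Real
open Pool.Agent.E3
open Pool.Agent.Lib.MP_bae66e_nt.LL (fP gW)
open Pool.Agent.Lib.MP_bae66e_nt.AC (Sg VV)
open Pool.Agent.Lib.MP_bae66e_nt.AP3 (prI mem_prI)

/-- PROOF. As `vara2_of` (E3/A7; copy and adapt, the lemmas used there have general `R₁, R₂, Y`): `R₁ = R`, `R₂ = R^ℓ`, `Y = YT R ℓ X τ`; now `R₁ R₂ Y = X e^τ ≤ X e^K`, which costs the factor `e^K` in both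
bounds (absorb it in `η`: use `ε` and the constant `K'` accordingly); the parameters by `parT` (`QT`: `R2X, HR2, XH, sX, logHR, diag, F0`). -/
theorem vart_of (hSL : SLP) (a c : ℝ) (ha : 3 ≤ a) (hc : 2 ≤ c) : VART a c := by
  intro K η hK hη
  obtain ⟨C₁, hC1, hz⟩ := cc_zero_le
  obtain ⟨κ, C₂, hκ0, hκ1, hC2, z₀, hz0, hcc⟩ := cc_le hSL
  obtain ⟨C₃, hC3, hvar⟩ := var_bound
  have hC1p : 0 < C₁ := by linarith
  have hC2p : 0 < C₂ := by linarith
  have hC3p : 0 < C₃ := by linarith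
  set T : ℝ := Real.exp K with hT
  have hTp : 0 < T := Real.exp_pos K
  have he0 : 0 < η / (2 * C₃ * C₂ * T) := by positivity
  have hε : 0 < (η / (2 * C₃ * C₂ * T)) ^ 2 := by positivity
  have hsqrt : Real.sqrt ((η / (2 * C₃ * C₂ * T)) ^ 2) = η / (2 * C₃ * C₂ * T) := Real.sqrt_sq he0.le
  obtain ⟨w₀, hw⟩ := Pool.Agent.Lib.MP_bae66e_nt.LL.energy_small ((η / (2 * C₃ * C₂ * T)) ^ 2) hε
  refine ⟨w₀, fun w hww => ?_⟩
  obtain ⟨Y₀, hY⟩ := hw w hww
  have hW1 : 1 ≤ primorial w := primorial_pos w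
  obtain ⟨X₁, hPA⟩ := parT a c (max (max ((Y₀ : ℝ) + 1) K) (2 * C₁ * T * (1 + (primorial w : ℝ) ^ 2) / η)) κ ha hc hκ0
  refine ⟨max X₁ (z₀ * z₀), fun X hX R ℓ H hPT τ hτ => ?_⟩
  have P := hPA X ((le_max_left _ _).trans hX) R ℓ H hPT
  have hzX : z₀ ≤ Nat.sqrt X := Nat.le_sqrt.2 ((le_max_right _ _).trans hX)
  have hKK : K ≤ max (max ((Y₀ : ℝ) + 1) K) (2 * C₁ * T * (1 + (primorial w : ℝ) ^ 2) / η) :=
    (le_max_right _ _).trans (le_max_left _ _)
  have hPY := P.py τ (hτ.trans hKK)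
  have hR1nat : 0 < R := by
    have := P.R3
    omega
  have hR1pos : (0 : ℝ) < R := by exact_mod_cast hR1nat
  have hR2nat : 0 < R ^ ℓ := by
    have h1 := P.R2
    omega
  have hR2pos : (0 : ℝ) < ((R ^ ℓ : ℕ) : ℝ) := by exact_mod_cast hR2nat
  have hXnat : 0 < X := by
    have := P.X64
    omega
  have hXpos : (0 : ℝ) < X := by exact_mod_cast hXnat
  have hYeq : ((R : ℝ) * ((R ^ ℓ : ℕ) : ℝ)) * YT R ℓ X τ = X * Real.exp τ := by
    unfold YT YG
    field_simp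
  have hτT : Real.exp τ ≤ T := Real.exp_le_exp.2 ((le_abs_self τ).trans hτ)
  have hYle : ((R : ℝ) * ((R ^ ℓ : ℕ) : ℝ)) * YT R ℓ X τ ≤ X * T := by
    rw [hYeq]
    exact mul_le_mul_of_nonneg_left hτT hXpos.le
  have hYpos : 0 < YT R ℓ X τ := by
    unfold YT YG
    positivity
  have hFdef : FT R ℓ X = 1 / (Real.log R * Real.log ((R ^ ℓ : ℕ) : ℝ) * Real.log X) := rfl
  have hF := P.F0
  have hH0 : (0 : ℝ) ≤ H := Nat.cast_nonneg _
  have hHK := P.KH
  have hH1 : 1 ≤ H := by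
    have := P.H2
    omega
  have hY₀H : Y₀ ≤ H := by
    have h1 : (Y₀ : ℝ) + 1 ≤ H := ((le_max_left _ _).trans (le_max_left _ _)).trans hHK
    have h2 : (Y₀ : ℝ) ≤ H := by linarith
    exact_mod_cast h2
  have h8 : cc (fS (SS R (R ^ ℓ)) (YT R ℓ X τ) X) (4 * (R * R ^ ℓ) * X ^ 2 + 1) 0
      ≤ C₁ * (X * T) * FT R ℓ X := by
    refine (hz R (R ^ ℓ) X (4 * (R * R ^ ℓ) * X ^ 2 + 1) (YT R ℓ X τ) hPY.R1 hPY.R2
      P.R2X hPY.X16 hPY.Ylow hPY.Yup).trans ?_
    have h10 : ((R : ℝ) * ((R ^ ℓ : ℕ) : ℝ)) * YT R ℓ X τ / (Real.log R * Real.log ((R ^ ℓ : ℕ) : ℝ) * Real.log X)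
        = (((R : ℝ) * ((R ^ ℓ : ℕ) : ℝ)) * YT R ℓ X τ) * FT R ℓ X := by
      rw [hFdef]
      ring
    rw [h10]
    have h11 := mul_le_mul_of_nonneg_right hYle hF.le
    have h12 := mul_le_mul_of_nonneg_left h11 hC1p.le
    calc C₁ * (((R : ℝ) * ((R ^ ℓ : ℕ) : ℝ)) * YT R ℓ X τ * FT R ℓ X) ≤ C₁ * (X * T * FT R ℓ X) := h12
      _ = C₁ * (X * T) * FT R ℓ X := by ring
  have h9 : ∀ d, 1 ≤ d → d ≤ H →
      cc (fS (SS R (R ^ ℓ)) (YT R ℓ X τ) X) (4 * (R * R ^ ℓ) * X ^ 2 + 1) d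
        ≤ (C₂ * (X * T) * (FT R ℓ X) ^ 2) * (Fr d) ^ 2 := by
    intro d hd hdH
    have hlogd : Real.log d * Real.log R ≤ R := by
      have h1 : Real.log d ≤ Real.log H := by
        apply Real.log_le_log
        · exact_mod_cast hd
        · exact_mod_cast hdH
      have h2 : 0 ≤ Real.log (R : ℝ) := Real.log_natCast_nonneg _
      exact (mul_le_mul_of_nonneg_right h1 h2).trans P.logHR
    refine (hcc R (R ^ ℓ) X (4 * (R * R ^ ℓ) * X ^ 2 + 1) d (YT R ℓ X τ) hzX hPY.R1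
      hPY.R2 hd (hdH.trans P.HR2) hYpos hlogd P.sX).trans ?_
    have h10 : C₂ * (((R : ℝ) * ((R ^ ℓ : ℕ) : ℝ)) * YT R ℓ X τ *
        (1 / (Real.log R * Real.log ((R ^ ℓ : ℕ) : ℝ) * Real.log X)) ^ 2) * (Fr d) ^ 2
        = (((R : ℝ) * ((R ^ ℓ : ℕ) : ℝ)) * YT R ℓ X τ) * (C₂ * (FT R ℓ X) ^ 2 * (Fr d) ^ 2) := by
      rw [hFdef]
      ring
    rw [h10]
    have h13 : 0 ≤ C₂ * (FT R ℓ X) ^ 2 * (Fr d) ^ 2 := by positivity
    have h11 := mul_le_mul_of_nonneg_right hYle h13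
    calc (((R : ℝ) * ((R ^ ℓ : ℕ) : ℝ)) * YT R ℓ X τ) * (C₂ * (FT R ℓ X) ^ 2 * (Fr d) ^ 2)
        ≤ X * T * (C₂ * (FT R ℓ X) ^ 2 * (Fr d) ^ 2) := h11
      _ = (C₂ * (X * T) * (FT R ℓ X) ^ 2) * (Fr d) ^ 2 := by ring
  have hmain := hvar H (4 * (R * R ^ ℓ) * X ^ 2 + 1)
    (fun n => fP H n - gW (primorial w) H n)
    (fS (SS R (R ^ ℓ)) (YT R ℓ X τ) X) (Icc X (2 * X)) (C₁ * (X * T) * FT R ℓ X)
    (C₂ * (X * T) * (FT R ℓ X) ^ 2)
    ((H : ℝ) * ((Real.log H) ^ 2 + (primorial w : ℝ) ^ 2)) ((η / (2 * C₃ * C₂ * T)) ^ 2)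
    (EE_supp (primorial w) H)
    (fS_small _ _ X 0 _ (Nat.zero_le _))
    (fun n hn => fS_big _ _ X n _ hn) (fun n => fS_nonneg _ _ X n)
    (by positivity) (by positivity) hε.le h8 h9 (corr_zero_le (primorial w) H hW1 hH1)
    (hY H hY₀H)
  have hgoal : ∑ m ∈ Icc X (2 * X), (∑ t ∈ Icc 1 H,
        (fP H (t : ℤ) - gW (primorial w) H (t : ℤ)) * fT R ℓ X τ (m - t)) ^ 2
      ≤ (H : ℝ) * ((Real.log H) ^ 2 + (primorial w : ℝ) ^ 2) * (C₁ * (X * T) * FT R ℓ X) +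
        C₃ * Real.sqrt ((η / (2 * C₃ * C₂ * T)) ^ 2) * (C₂ * (X * T) * (FT R ℓ X) ^ 2) * (H : ℝ) ^ 2 :=
    hmain
  refine hgoal.trans ?_
  rw [hsqrt]
  have hsecond : C₃ * (η / (2 * C₃ * C₂ * T)) * (C₂ * (X * T) * (FT R ℓ X) ^ 2) * (H : ℝ) ^ 2
      = η / 2 * X * ((H : ℝ) * FT R ℓ X) ^ 2 := by
    field_simp
  rw [hsecond]
  have hK2 : 2 * C₁ * T * (1 + (primorial w : ℝ) ^ 2) / η * (1 + (Real.log H) ^ 2)
      ≤ H * FT R ℓ X := by
    refine le_trans ?_ P.diag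
    apply mul_le_mul_of_nonneg_right (le_max_right _ _)
    positivity
  have hfirst : C₁ * T * ((Real.log H) ^ 2 + (primorial w : ℝ) ^ 2)
      ≤ η / 2 * (H * FT R ℓ X) := by
    have h1 : (Real.log H) ^ 2 + (primorial w : ℝ) ^ 2
        ≤ (1 + (primorial w : ℝ) ^ 2) * (1 + (Real.log H) ^ 2) := by
      have h2 : 0 ≤ (primorial w : ℝ) ^ 2 * (Real.log H) ^ 2 := by positivity
      nlinarith
    have h3 : C₁ * T * ((1 + (primorial w : ℝ) ^ 2) * (1 + (Real.log H) ^ 2))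
        = η / 2 * (2 * C₁ * T * (1 + (primorial w : ℝ) ^ 2) / η * (1 + (Real.log H) ^ 2)) := by
      field_simp
    calc C₁ * T * ((Real.log H) ^ 2 + (primorial w : ℝ) ^ 2)
        ≤ C₁ * T * ((1 + (primorial w : ℝ) ^ 2) * (1 + (Real.log H) ^ 2)) :=
          mul_le_mul_of_nonneg_left h1 (by positivity)
      _ = η / 2 * (2 * C₁ * T * (1 + (primorial w : ℝ) ^ 2) / η * (1 + (Real.log H) ^ 2)) := h3
      _ ≤ η / 2 * (H * FT R ℓ X) := mul_le_mul_of_nonneg_left hK2 (by positivity)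
  have hHXF : 0 ≤ (H : ℝ) * X * FT R ℓ X := by positivity
  have h5 := mul_le_mul_of_nonneg_left hfirst hHXF
  calc (H : ℝ) * ((Real.log H) ^ 2 + (primorial w : ℝ) ^ 2) * (C₁ * (X * T) * FT R ℓ X) +
        η / 2 * X * ((H : ℝ) * FT R ℓ X) ^ 2
      = (H : ℝ) * X * FT R ℓ X * (C₁ * T * ((Real.log H) ^ 2 + (primorial w : ℝ) ^ 2)) +
        η / 2 * X * ((H : ℝ) * FT R ℓ X) ^ 2 := by ring
    _ ≤ (H : ℝ) * X * FT R ℓ X * (η / 2 * (H * FT R ℓ X)) +
        η / 2 * X * ((H : ℝ) * FT R ℓ X) ^ 2 := by linarith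
    _ = η * X * ((H : ℝ) * FT R ℓ X) ^ 2 := by ring

end Pool.Agent.Lib.MP_bae66e_nt.TF
end
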