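import Pool.Agent.Lib.MP_bae66e_nt.Mg.G001
import Pool.Agent.Lib.MP_bae66e_nt.Mg.G007

section

/-!
# MVg2: the Gaussian in the logarithm, summed over the integers
-/

set_option autoImplicit false

namespace Pool.Agent.E3

open Finset MeasureTheory Real

/-- PROOF. Let `g v = exp (- (log m - log v)² / (4 Δ²))` on `(0, ∞)`: increasing on `(0, m]`, decreasing on `[m, ∞)`, `g m = 1`.
`∑_{n < m} g n ≤ ∫_1^m g` and `∑_{m < n ≤ N} g n ≤ ∫_m^N g` (`MonotoneOn.sum_le_integral`, `AntitoneOn.sum_le_integral`), so the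
sum is `≤ 1 + ∫_0^∞ g`. Substitution `v = m exp w`: `∫_0^∞ g = m ∫ exp w exp (- w²/(4Δ²)) dw = m · 2 Δ √π exp (Δ²)` (complete
the square), and `2 √π e ≤ 10`. (Any other proof of a bound `1 + 10 Δ m` is fine; if you get a worse constant than
`10`, tell helper55.) -/
theorem log_gauss_sum (Δ : ℝ) (hΔ : 0 < Δ) (hΔ1 : Δ ≤ 1) (m N : ℕ) (hm : 1 ≤ m) :
    ∑ n ∈ Icc 1 N, Real.exp (-((Real.log m - Real.log n) ^ 2 / (4 * Δ ^ 2))) ≤ 1 + 10 * Δ * m := by
  set g : ℝ → ℝ := fun v => Real.exp (-((Real.log m - Real.log v) ^ 2 / (4 * Δ ^ 2))) with hg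
  have hm0 : (0 : ℝ) < m := by exact_mod_cast hm
  have hm1 : (1 : ℝ) ≤ m := by exact_mod_cast hm
  have hD : 0 < 4 * Δ ^ 2 := by positivity
  have hgpos : ∀ v, 0 ≤ g v := fun v => (Real.exp_pos _).le
  -- reduce to `m ≤ N`
  set N' := max N m with hN'
  have hmN : m ≤ N' := le_max_right _ _
  have hstep : ∑ n ∈ Icc 1 N, g n ≤ ∑ n ∈ Icc 1 N', g n := by
    refine Finset.sum_le_sum_of_subset_of_nonneg ?_ fun n _ _ => hgpos n
    exact Finset.Icc_subset_Icc_right (le_max_left _ _)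
  -- split
  have hsplit : ∑ n ∈ Icc 1 N', g n
      = ∑ n ∈ Ico 1 m, g n + g m + ∑ n ∈ Ico m N', g ((n + 1 : ℕ) : ℝ) := by
    have h1 : Icc 1 N' = Ico 1 (N' + 1) := by
      ext n; simp only [Finset.mem_Icc, Finset.mem_Ico]; omega
    rw [h1, ← Finset.sum_Ico_consecutive (fun n : ℕ => g n) hm (by omega : m ≤ N' + 1)]
    rw [Finset.sum_eq_sum_Ico_succ_bot (by omega : m < N' + 1)]
    rw [Finset.sum_Ico_add' (fun n : ℕ => g n) m N' 1]
    ring
  have hgm : g m = 1 := by simp [hg]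
  -- monotonicity
  have hmono : MonotoneOn g (Set.Icc ((1 : ℕ) : ℝ) (m : ℝ)) := by
    intro x hx y hy hxy
    have hx0 : (0 : ℝ) < x := by
      have := hx.1; push_cast at this; linarith
    have h1 : Real.log x ≤ Real.log y := Real.log_le_log hx0 hxy
    have h2 : Real.log y ≤ Real.log m := Real.log_le_log (by linarith) hy.2
    simp only [hg]
    apply Real.exp_le_exp.mpr
    apply neg_le_neg
    apply div_le_div_of_nonneg_right _ hD.le
    apply pow_le_pow_left₀ (by linarith)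
    linarith
  have hanti : AntitoneOn g (Set.Icc (m : ℝ) (N' : ℝ)) := by
    intro x hx y hy hxy
    have hx0 : (0 : ℝ) < x := by
      have := hx.1; linarith
    have h1 : Real.log x ≤ Real.log y := Real.log_le_log hx0 hxy
    have h2 : Real.log m ≤ Real.log x := Real.log_le_log hm0 hx.1
    simp only [hg]
    apply Real.exp_le_exp.mpr
    apply neg_le_neg
    apply div_le_div_of_nonneg_right _ hD.le
    have e1 : (Real.log m - Real.log x) ^ 2 = (Real.log x - Real.log m) ^ 2 := by ring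
    have e2 : (Real.log m - Real.log y) ^ 2 = (Real.log y - Real.log m) ^ 2 := by ring
    rw [e1, e2]
    apply pow_le_pow_left₀ (by linarith)
    linarith
  have hI1 : ∑ n ∈ Ico 1 m, g n ≤ ∫ x in ((1 : ℕ) : ℝ)..m, g x := hmono.sum_le_integral_Ico hm
  have hI2 : ∑ n ∈ Ico m N', g ((n + 1 : ℕ) : ℝ) ≤ ∫ x in (m : ℝ)..N', g x :=
    hanti.sum_le_integral_Ico hmN
  have hgc : ∀ a b : ℝ, 0 < a → a ≤ b → ContinuousOn g (Set.Icc a b) := by
    intro a b ha hab
    refine Real.continuous_exp.comp_continuousOn ?_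
    refine ContinuousOn.neg (ContinuousOn.div_const (ContinuousOn.pow ?_ 2) _)
    refine continuousOn_const.sub (Real.continuousOn_log.mono ?_)
    intro x hx
    have : 0 < x := lt_of_lt_of_le ha hx.1
    exact this.ne'
  have hN1 : (m : ℝ) ≤ N' := by exact_mod_cast hmN
  have hadd : (∫ x in ((1 : ℕ) : ℝ)..m, g x) + (∫ x in (m : ℝ)..N', g x)
      = ∫ x in ((1 : ℕ) : ℝ)..N', g x := by
    apply intervalIntegral.integral_add_adjacent_intervals
    · apply ContinuousOn.intervalIntegrable_of_Icc (by exact_mod_cast hm)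
      exact hgc _ _ (by norm_num) (by exact_mod_cast hm)
    · apply ContinuousOn.intervalIntegrable_of_Icc hN1
      exact hgc _ _ hm0 hN1
  -- the integral
  have hint : ∫ x in ((1 : ℕ) : ℝ)..N', g x ≤ 10 * Δ * m := by
    set c : ℝ := Real.log (1 / m) with hc
    set d : ℝ := Real.log (N' / m) with hd
    have hNpos : (0 : ℝ) < N' := by linarith
    have hcd : c ≤ d := by
      apply Real.log_le_log (by positivity)
      apply div_le_div_of_nonneg_right _ hm0.le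
      linarith
    have hfc : (m : ℝ) * Real.exp c = ((1 : ℕ) : ℝ) := by
      rw [hc, Real.exp_log (by positivity)]; push_cast; field_simp
    have hfd : (m : ℝ) * Real.exp d = N' := by
      rw [hd, Real.exp_log (by positivity)]; field_simp
    have hsub : ∫ w in c..d, (g ∘ fun w => (m : ℝ) * Real.exp w) w * ((m : ℝ) * Real.exp w)
        = ∫ x in ((m : ℝ) * Real.exp c)..((m : ℝ) * Real.exp d), g x := by
      apply intervalIntegral.integral_comp_mul_deriv'
      · intro w _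
        exact (Real.hasDerivAt_exp w).const_mul (m : ℝ)
      · exact (continuous_const.mul Real.continuous_exp).continuousOn
      · rw [Set.uIcc_of_le hcd]
        refine (hgc ((m : ℝ) * Real.exp c) ((m : ℝ) * Real.exp d) (by positivity) ?_).mono ?_
        · exact mul_le_mul_of_nonneg_left (Real.exp_le_exp.mpr hcd) hm0.le
        · rintro _ ⟨w, hw, rfl⟩
          exact ⟨mul_le_mul_of_nonneg_left (Real.exp_le_exp.mpr hw.1) hm0.le,
            mul_le_mul_of_nonneg_left (Real.exp_le_exp.mpr hw.2) hm0.le⟩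
    rw [hfc, hfd] at hsub
    rw [← hsub]
    have hcong : ∀ w : ℝ, (g ∘ fun w => (m : ℝ) * Real.exp w) w * ((m : ℝ) * Real.exp w)
        = (m : ℝ) * Real.exp (Δ ^ 2) * Real.exp (-(1 / (4 * Δ ^ 2)) * (w - 2 * Δ ^ 2) ^ 2) := by
      intro w
      simp only [Function.comp, hg]
      rw [Real.log_mul hm0.ne' (Real.exp_pos w).ne', Real.log_exp]
      have e : Real.exp (-((Real.log m - (Real.log m + w)) ^ 2 / (4 * Δ ^ 2))) * ((m : ℝ) * Real.exp w)
          = m * (Real.exp (-((Real.log m - (Real.log m + w)) ^ 2 / (4 * Δ ^ 2))) * Real.exp w) := by ring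
      rw [e, ← Real.exp_add, mul_assoc, ← Real.exp_add]
      congr 2
      field_simp
      ring
    simp_rw [hcong]
    have hgi : Integrable (fun w : ℝ => (m : ℝ) * Real.exp (Δ ^ 2) *
        Real.exp (-(1 / (4 * Δ ^ 2)) * (w - 2 * Δ ^ 2) ^ 2)) := by
      have h0 : Integrable (fun w : ℝ => Real.exp (-(1 / (4 * Δ ^ 2)) * w ^ 2)) :=
        integrable_exp_neg_mul_sq (by positivity)
      exact (h0.comp_sub_right (2 * Δ ^ 2)).const_mul _
    have hle : ∫ w in c..d, (m : ℝ) * Real.exp (Δ ^ 2) *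
        Real.exp (-(1 / (4 * Δ ^ 2)) * (w - 2 * Δ ^ 2) ^ 2)
        ≤ ∫ w : ℝ, (m : ℝ) * Real.exp (Δ ^ 2) *
        Real.exp (-(1 / (4 * Δ ^ 2)) * (w - 2 * Δ ^ 2) ^ 2) := by
      rw [intervalIntegral.integral_of_le hcd]
      apply setIntegral_le_integral hgi
      filter_upwards with w
      positivity
    refine hle.trans ?_
    rw [integral_const_mul]
    rw [integral_sub_right_eq_self (fun w : ℝ => Real.exp (-(1 / (4 * Δ ^ 2)) * w ^ 2)) (2 * Δ ^ 2)]
    rw [integral_gaussian]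
    have e1 : Real.sqrt (π / (1 / (4 * Δ ^ 2))) = 2 * Δ * Real.sqrt π := by
      have : π / (1 / (4 * Δ ^ 2)) = (2 * Δ) ^ 2 * π := by field_simp; ring
      rw [this, Real.sqrt_mul (by positivity), Real.sqrt_sq (by positivity)]
    rw [e1]
    have e2 : Real.exp (Δ ^ 2) ≤ 2.7182818286 := by
      refine le_trans (Real.exp_le_exp.mpr (?_ : Δ ^ 2 ≤ 1)) Real.exp_one_lt_d9.le
      nlinarith
    have e3 : Real.sqrt π ≤ 1.8 := by
      rw [Real.sqrt_le_left (by norm_num)]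
      have := Real.pi_lt_d2
      norm_num
      linarith
    have e4 : Real.exp (Δ ^ 2) * Real.sqrt π ≤ 5 := by
      calc Real.exp (Δ ^ 2) * Real.sqrt π ≤ 2.7182818286 * 1.8 := by
            apply mul_le_mul e2 e3 (Real.sqrt_nonneg _) (by norm_num)
        _ ≤ 5 := by norm_num
    calc (m : ℝ) * Real.exp (Δ ^ 2) * (2 * Δ * Real.sqrt π)
        = 2 * Δ * m * (Real.exp (Δ ^ 2) * Real.sqrt π) := by ring
      _ ≤ 2 * Δ * m * 5 := mul_le_mul_of_nonneg_left e4 (by positivity)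
      _ = 10 * Δ * m := by ring
  calc ∑ n ∈ Icc 1 N, Real.exp (-((Real.log m - Real.log n) ^ 2 / (4 * Δ ^ 2)))
      = ∑ n ∈ Icc 1 N, g n := rfl
    _ ≤ ∑ n ∈ Icc 1 N', g n := hstep
    _ = ∑ n ∈ Ico 1 m, g n + g m + ∑ n ∈ Ico m N', g ((n + 1 : ℕ) : ℝ) := hsplit
    _ ≤ 1 + 10 * Δ * m := by rw [hgm]; linarith

end Pool.Agent.E3
end

section

/-!
# MVg3: the mean value theorem for Dirichlet polynomials with repeated frequencies
-/

set_option autoImplicit false

namespace Pool.Agent.E3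

open Finset MeasureTheory Real

/-- PROOF. `gauss_mv` with `y i = log (n i)`, and `2 ‖x_i‖ ‖x_j‖ ≤ ‖x_i‖² + ‖x_j‖²` (the kernel is symmetric), so the integral is
`≤ (√π/Δ) ∑_i ‖x_i‖² ∑_{j ∈ s} exp (- (log n_i - log n_j)²/(4Δ²))`. Group the `j` by `m = n_j` (`1 ≤ m ≤ N`, `N = sup n`): the
inner sum is `≤ ∑_{m ∈ Icc 1 N} J exp (- (log n_i - log m)²/(4Δ²)) ≤ J (1 + 10 Δ n_i)` (`log_gauss_sum`). -/
theorem mv_fiber {ι : Type*} (s : Finset ι) (x : ι → ℂ) (n : ι → ℕ) (J Δ : ℝ) (hΔ : 0 < Δ) (hΔ1 : Δ ≤ 1)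
    (hn : ∀ i ∈ s, 1 ≤ n i) (hJ : ∀ m, (#{i ∈ s | n i = m} : ℝ) ≤ J) :
    ∫ t : ℝ, Real.exp (-(Δ * t) ^ 2) * ‖∑ i ∈ s, x i * ph t (Real.log (n i))‖ ^ 2
      ≤ Real.sqrt π / Δ * J * ∑ i ∈ s, ‖x i‖ ^ 2 * (1 + 10 * Δ * n i) := by
  classical
  refine (gauss_mv s x (fun i => Real.log (n i)) Δ hΔ).trans ?_
  rw [mul_assoc]
  refine mul_le_mul_of_nonneg_left ?_ (by positivity)
  set K : ι → ι → ℝ := fun i j =>
    Real.exp (-((Real.log (n i) - Real.log (n j)) ^ 2 / (4 * Δ ^ 2))) with hK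
  have hKs : ∀ i j, K i j = K j i := by
    intro i j
    simp only [hK]
    congr 3
    ring
  have hK0 : ∀ i j, 0 ≤ K i j := fun i j => (Real.exp_pos _).le
  have h1 : ∑ i ∈ s, ∑ j ∈ s, ‖x i‖ * ‖x j‖ * K i j ≤ ∑ i ∈ s, ‖x i‖ ^ 2 * ∑ j ∈ s, K i j := by
    have e1 : ∑ i ∈ s, ∑ j ∈ s, ‖x j‖ ^ 2 * K i j = ∑ i ∈ s, ∑ j ∈ s, ‖x i‖ ^ 2 * K i j := by
      rw [Finset.sum_comm]
      refine Finset.sum_congr rfl fun i _ => Finset.sum_congr rfl fun j _ => ?_
      rw [hKs]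
    have e2 : ∑ i ∈ s, ∑ j ∈ s, ‖x i‖ * ‖x j‖ * K i j ≤
        ∑ i ∈ s, ∑ j ∈ s, (‖x i‖ ^ 2 * K i j / 2 + ‖x j‖ ^ 2 * K i j / 2) := by
      refine Finset.sum_le_sum fun i _ => Finset.sum_le_sum fun j _ => ?_
      nlinarith [mul_nonneg (sq_nonneg (‖x i‖ - ‖x j‖)) (hK0 i j)]
    refine e2.trans (le_of_eq ?_)
    simp only [Finset.sum_add_distrib, ← Finset.sum_div]
    rw [e1]
    simp only [Finset.mul_sum]
    ring
  refine h1.trans ?_
  rw [Finset.mul_sum]
  refine Finset.sum_le_sum fun i hi => ?_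
  have h2 : ∑ j ∈ s, K i j ≤ J * (1 + 10 * Δ * n i) := by
    let N := s.sup n
    have hmaps : ∀ j ∈ s, n j ∈ Icc 1 N := fun j hj =>
      Finset.mem_Icc.2 ⟨hn j hj, Finset.le_sup (f := n) hj⟩
    rw [← Finset.sum_fiberwise_of_maps_to hmaps]
    have e3 : ∀ m ∈ Icc 1 N, ∑ j ∈ s with n j = m, K i j ≤
        J * Real.exp (-((Real.log (n i) - Real.log m) ^ 2 / (4 * Δ ^ 2))) := by
      intro m _
      have : ∑ j ∈ s with n j = m, K i j = ∑ j ∈ s with n j = m,
          Real.exp (-((Real.log (n i) - Real.log m) ^ 2 / (4 * Δ ^ 2))) := by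
        refine Finset.sum_congr rfl fun j hj => ?_
        rw [Finset.mem_filter] at hj
        simp only [hK, hj.2]
      rw [this, Finset.sum_const, nsmul_eq_mul]
      exact mul_le_mul_of_nonneg_right (hJ m) (Real.exp_pos _).le
    refine (Finset.sum_le_sum e3).trans ?_
    rw [← Finset.mul_sum]
    have hJ0 : 0 ≤ J := le_trans (Nat.cast_nonneg _) (hJ 0)
    exact mul_le_mul_of_nonneg_left (log_gauss_sum Δ hΔ hΔ1 (n i) N (hn i hi)) hJ0
  calc ‖x i‖ ^ 2 * ∑ j ∈ s, K i j ≤ ‖x i‖ ^ 2 * (J * (1 + 10 * Δ * n i)) :=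
        mul_le_mul_of_nonneg_left h2 (by positivity)
    _ = J * (‖x i‖ ^ 2 * (1 + 10 * Δ * n i)) := by ring

end Pool.Agent.E3
end

section

/-!
# N3a: powers of a prime polynomial
-/

set_option autoImplicit false

namespace Pool.Agent.E3

open Finset MeasureTheory Real

/-- PROOF. If `∏ f i = m` with primes `f i`, then the list `List.ofFn f` is a permutation of `m.primeFactorsList`
(`Nat.primeFactorsList_unique`). So (if the filter is not empty) `m.primeFactorsList` has length `k`, and `f ↦ List.ofFn f` is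
an injection of the filter into `m.primeFactorsList.permutations.toFinset`, which has at most
`(m.primeFactorsList.permutations).length = k!` elements (`List.length_permutations`). -/
theorem prime_fiber (I : Finset ℕ) (hI : ∀ r ∈ I, r.Prime) (k m : ℕ) :
    #{f ∈ Fintype.piFinset (fun _ : Fin k => I) | ∏ i, f i = m} ≤ k.factorial := by
  classical
  have hperm : ∀ f ∈ {f ∈ Fintype.piFinset (fun _ : Fin k => I) | ∏ i, f i = m},
      (List.ofFn f).Perm m.primeFactorsList := by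
    intro f hf
    obtain ⟨h1, h2⟩ := Finset.mem_filter.mp hf
    rw [Fintype.mem_piFinset] at h1
    apply Nat.primeFactorsList_unique
    · rw [List.prod_ofFn]
      exact h2
    · intro p hp
      rw [List.mem_ofFn] at hp
      obtain ⟨i, rfl⟩ := hp
      exact hI _ (h1 i)
  rcases Finset.eq_empty_or_nonempty
    {f ∈ Fintype.piFinset (fun _ : Fin k => I) | ∏ i, f i = m} with he | ⟨f₀, hf₀⟩
  · rw [he]
    simp
  · have hlen : m.primeFactorsList.length = k := by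
      rw [← (hperm f₀ hf₀).length_eq, List.length_ofFn]
    calc #{f ∈ Fintype.piFinset (fun _ : Fin k => I) | ∏ i, f i = m}
        ≤ #(m.primeFactorsList.permutations.toFinset) := by
          apply Finset.card_le_card_of_injOn (fun f => List.ofFn f)
          · intro f hf
            rw [Finset.mem_coe, List.mem_toFinset, List.mem_permutations]
            exact hperm f hf
          · intro f _ g _ hfg
            exact List.ofFn_injective hfg
      _ ≤ m.primeFactorsList.permutations.length := List.toFinset_card_le _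
      _ = k.factorial := by rw [List.length_permutations, hlen]

/-- PROOF. Inject `(f, q)` to `Fin.cons q f` (or `Fin.snoc`) in the fiber of `prime_fiber` for `k + 1` and `I ∪ Q`. -/
theorem prime_fiber' (I Q : Finset ℕ) (hI : ∀ r ∈ I, r.Prime) (hQ : ∀ q ∈ Q, q.Prime) (k m : ℕ) :
    #{x ∈ Fintype.piFinset (fun _ : Fin k => I) ×ˢ Q | (∏ i, x.1 i) * x.2 = m} ≤ (k + 1).factorial := by
  classical
  refine le_trans ?_ (prime_fiber (I ∪ Q) (fun r hr => ?_) (k + 1) m)
  · apply Finset.card_le_card_of_injOn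
      (fun x => (Fin.cons x.2 x.1 : Fin (k + 1) → ℕ))
    · intro x hx
      have hx' := Finset.mem_filter.mp (Finset.mem_coe.mp hx)
      obtain ⟨h1, h2⟩ := hx'
      rw [Finset.mem_product, Fintype.mem_piFinset] at h1
      rw [Finset.mem_coe, Finset.mem_filter, Fintype.mem_piFinset]
      refine ⟨fun i => ?_, ?_⟩
      · refine Fin.cases ?_ (fun j => ?_) i
        · simp only [Fin.cons_zero]
          exact Finset.mem_union_right _ h1.2
        · simp only [Fin.cons_succ]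
          exact Finset.mem_union_left _ (h1.1 j)
      · rw [Fin.prod_cons, mul_comm]
        exact h2
    · intro x _ x' _ hxx
      have h := Fin.cons_inj.mp hxx
      exact Prod.ext h.2 h.1
  · rcases Finset.mem_union.mp hr with h | h
    · exact hI r h
    · exact hQ r h

private lemma N3a_ph_prod {ι : Type*} (s : Finset ι) (g : ι → ℝ) (t : ℝ) :
    ∏ i ∈ s, ph t (g i) = ph t (∑ i ∈ s, g i) := by
  unfold ph
  rw [← Complex.exp_sum]
  congr 1
  rw [← Finset.sum_mul, ← Complex.ofReal_sum, Finset.mul_sum, Finset.sum_neg_distrib]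

/-- PROOF. `Finset.sum_pow'`/`Finset.prod_univ_sum` (`(∑_{r ∈ I} a r)^k = ∑_{f ∈ piFinset} ∏_i a (f i)`), and
`∏ ph t (log r_i) = ph t (log ∏ r_i)` for `r_i ≥ 1`. -/
theorem pow_expand (I : Finset ℕ) (hI : ∀ r ∈ I, 1 ≤ r) (a : ℕ → ℂ) (t : ℝ) (k : ℕ) :
    (∑ r ∈ I, a r * ph t (Real.log r)) ^ k
      = ∑ f ∈ Fintype.piFinset (fun _ : Fin k => I),
          (∏ i, a (f i)) * ph t (Real.log ((∏ i, f i : ℕ) : ℝ)) := by
  rw [Finset.sum_pow']
  apply Finset.sum_congr rfl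
  intro f hf
  rw [Fintype.mem_piFinset] at hf
  rw [Finset.prod_mul_distrib, N3a_ph_prod]
  congr 2
  rw [Nat.cast_prod, Real.log_prod]
  intro i _
  have h1 : 1 ≤ f i := hI _ (hf i)
  have h2 : (0 : ℝ) < (f i : ℝ) := by exact_mod_cast h1
  exact h2.ne'

/-- PROOF. `Finset.prod_univ_sum`. -/
theorem pow_expand_real (I : Finset ℕ) (a : ℕ → ℝ) (k : ℕ) :
    ∑ f ∈ Fintype.piFinset (fun _ : Fin k => I), ∏ i, a (f i) = (∑ r ∈ I, a r) ^ k := by
  rw [Finset.sum_pow']

end Pool.Agent.E3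
end

section

/-!
# N3b: from integrals to well spaced points
-/

set_option autoImplicit false

namespace Pool.Agent.E3

open Finset MeasureTheory Real

/-- PROOF. `G s = ‖F s‖² ` is `C¹` with `|G' s| ≤ 2 ‖F s‖ ‖F' s‖ ≤ ‖F s‖² + ‖F' s‖²`. For all `s` in `I = [t - 1/2, t + 1/2]`,
`G t = G s + ∫_s^t G' ≤ G s + ∫_I |G'|`; integrate over `s ∈ I` (length `1`). -/
theorem sobolev (F F' : ℝ → ℂ) (hF : ∀ s, HasDerivAt F (F' s) s) (hF' : Continuous F') (t : ℝ) :
    ‖F t‖ ^ 2 ≤ ∫ s in (t - 1 / 2)..(t + 1 / 2), (2 * ‖F s‖ ^ 2 + ‖F' s‖ ^ 2) := by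
  have hFc : Continuous F := continuous_iff_continuousAt.2 fun s => (hF s).continuousAt
  have hG : ∀ s, HasDerivAt (fun s => ‖F s‖ ^ 2) (2 * inner ℝ (F s) (F' s)) s :=
    fun s => (hF s).norm_sq
  have hG'c : Continuous (fun s => 2 * inner ℝ (F s) (F' s)) :=
    continuous_const.mul (hFc.inner hF')
  have hHc : Continuous (fun s => ‖F s‖ ^ 2 + ‖F' s‖ ^ 2) := by fun_prop
  have hbd : ∀ s, |2 * inner ℝ (F s) (F' s)| ≤ ‖F s‖ ^ 2 + ‖F' s‖ ^ 2 := by
    intro s
    have h1 := abs_real_inner_le_norm (F s) (F' s)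
    rw [abs_mul, abs_two]
    nlinarith [sq_nonneg (‖F s‖ - ‖F' s‖)]
  set M : ℝ := ∫ s in (t - 1 / 2)..(t + 1 / 2), (‖F s‖ ^ 2 + ‖F' s‖ ^ 2) with hM
  have hkey : ∀ s ∈ Set.Icc (t - 1 / 2) (t + 1 / 2), ‖F t‖ ^ 2 ≤ ‖F s‖ ^ 2 + M := by
    intro s hs
    have h1 : ∫ u in s..t, 2 * inner ℝ (F u) (F' u) = ‖F t‖ ^ 2 - ‖F s‖ ^ 2 :=
      intervalIntegral.integral_eq_sub_of_hasDerivAt (fun u _ => hG u)
        (hG'c.intervalIntegrable _ _)
    have h2 : |∫ u in s..t, 2 * inner ℝ (F u) (F' u)| ≤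
        |∫ u in s..t, (‖F u‖ ^ 2 + ‖F' u‖ ^ 2)| := by
      rw [← Real.norm_eq_abs]
      refine intervalIntegral.norm_integral_le_abs_of_norm_le ?_ (hHc.intervalIntegrable _ _)
      exact Filter.Eventually.of_forall fun u => by
        rw [Real.norm_eq_abs]
        exact hbd u
    have h3 : |∫ u in s..t, (‖F u‖ ^ 2 + ‖F' u‖ ^ 2)| ≤ |M| := by
      refine intervalIntegral.abs_integral_mono_interval ?_ ?_ (hHc.intervalIntegrable _ _)
      · rw [Set.uIoc_of_le (show t - 1 / 2 ≤ t + 1 / 2 by linarith)]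
        intro u hu
        rw [Set.mem_uIoc] at hu
        rcases hu with hu | hu
        · exact ⟨lt_of_le_of_lt hs.1 hu.1, by linarith [hu.2]⟩
        · exact ⟨by linarith [hu.1], hu.2.trans hs.2⟩
      · exact Filter.Eventually.of_forall fun u => by positivity
    have h4 : 0 ≤ M := intervalIntegral.integral_nonneg (by linarith) fun u _ => by positivity
    rw [abs_of_nonneg h4] at h3
    have h5 := (le_abs_self _).trans (h2.trans h3)
    rw [h1] at h5
    linarith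
  have h6 : ∫ s in (t - 1 / 2)..(t + 1 / 2), ‖F t‖ ^ 2 ≤
      ∫ s in (t - 1 / 2)..(t + 1 / 2), (‖F s‖ ^ 2 + M) := by
    refine intervalIntegral.integral_mono_on (by linarith) ?_ ?_ hkey
    · exact intervalIntegrable_const
    · exact Continuous.intervalIntegrable (by fun_prop) _ _
  rw [intervalIntegral.integral_const, intervalIntegral.integral_add
    (Continuous.intervalIntegrable (by fun_prop) _ _) intervalIntegrable_const,
    intervalIntegral.integral_const] at h6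
  have h7 : t + 1 / 2 - (t - 1 / 2) = 1 := by ring
  rw [h7, one_smul, one_smul] at h6
  refine h6.trans (le_of_eq ?_)
  rw [hM, ← intervalIntegral.integral_add (Continuous.intervalIntegrable (by fun_prop) _ _)
    (hHc.intervalIntegrable _ _)]
  refine intervalIntegral.integral_congr fun s _ => ?_
  show ‖F s‖ ^ 2 + (‖F s‖ ^ 2 + ‖F' s‖ ^ 2) = 2 * ‖F s‖ ^ 2 + ‖F' s‖ ^ 2
  ring

private theorem n3b_exp_le : Real.exp (9 / 4) ≤ 10 := by
  have h1 : Real.exp (9 / 4) ^ 4 ≤ 10 ^ 4 := by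
    rw [← Real.exp_nat_mul]
    have : ((4 : ℕ) : ℝ) * (9 / 4) = ((9 : ℕ) : ℝ) * 1 := by norm_num
    rw [this, Real.exp_nat_mul]
    calc Real.exp 1 ^ 9 ≤ (2.7182818286 : ℝ) ^ 9 :=
          pow_le_pow_left₀ (Real.exp_pos 1).le Real.exp_one_lt_d9.le 9
      _ ≤ 10 ^ 4 := by norm_num
  exact le_of_pow_le_pow_left₀ (by norm_num) (by norm_num) h1

/-- PROOF. `sobolev` for every `t ∈ T`; the open intervals `(t - 1/2, t + 1/2)` are pairwise disjoint (`Spaced`), and on them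
`|s| ≤ X + 1/2 ≤ 3X/2`, so `1 ≤ exp (9/4) exp (- (s/X)²) ≤ 10 exp (- (s/X)²)`. -/
theorem spaced_sum_le (F F' : ℝ → ℂ) (hF : ∀ s, HasDerivAt F (F' s) s) (hF' : Continuous F') (X : ℝ) (hX : 1 ≤ X)
    (T : Finset ℝ) (hT : Spaced T) (hTX : ∀ t ∈ T, |t| ≤ X)
    (h1 : Integrable (fun s : ℝ => Real.exp (-(1 / X * s) ^ 2) * ‖F s‖ ^ 2))
    (h2 : Integrable (fun s : ℝ => Real.exp (-(1 / X * s) ^ 2) * ‖F' s‖ ^ 2)) :
    ∑ t ∈ T, ‖F t‖ ^ 2 ≤ 20 * (∫ s : ℝ, Real.exp (-(1 / X * s) ^ 2) * ‖F s‖ ^ 2)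
      + 10 * (∫ s : ℝ, Real.exp (-(1 / X * s) ^ 2) * ‖F' s‖ ^ 2) := by
  have hFc : Continuous F := continuous_iff_continuousAt.2 fun s => (hF s).continuousAt
  set g : ℝ → ℝ := fun s => 20 * (Real.exp (-(1 / X * s) ^ 2) * ‖F s‖ ^ 2) +
    10 * (Real.exp (-(1 / X * s) ^ 2) * ‖F' s‖ ^ 2) with hg
  have hgi : Integrable g := (h1.const_mul 20).add (h2.const_mul 10)
  have hg0 : ∀ s, 0 ≤ g s := fun s => by
    simp only [hg]
    positivity
  have hint : ∫ s, g s = 20 * (∫ s : ℝ, Real.exp (-(1 / X * s) ^ 2) * ‖F s‖ ^ 2)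
      + 10 * (∫ s : ℝ, Real.exp (-(1 / X * s) ^ 2) * ‖F' s‖ ^ 2) := by
    simp only [hg]
    rw [integral_add (h1.const_mul 20) (h2.const_mul 10), integral_const_mul,
      integral_const_mul]
  rw [← hint]
  have hpt : ∀ t ∈ T, ‖F t‖ ^ 2 ≤ ∫ s in Set.Ioc (t - 1 / 2) (t + 1 / 2), g s := by
    intro t ht
    refine (sobolev F F' hF hF' t).trans ?_
    rw [intervalIntegral.integral_of_le (by linarith)]
    refine setIntegral_mono_on ?_ hgi.integrableOn measurableSet_Ioc ?_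
    · exact (Continuous.integrableOn_Icc (by fun_prop)).mono_set Set.Ioc_subset_Icc_self
    · intro s hs
      have hts := hTX t ht
      rw [abs_le] at hts
      have hs1 : |s| ≤ 3 / 2 * X := by
        rw [abs_le]
        exact ⟨by linarith [hs.1], by linarith [hs.2]⟩
      have hX0 : 0 < X := by linarith
      have hs2 : (1 / X * s) ^ 2 ≤ 9 / 4 := by
        have h3 : |1 / X * s| ≤ 3 / 2 := by
          rw [abs_mul, abs_of_pos (by positivity : 0 < 1 / X), one_div, inv_mul_le_iff₀ hX0]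
          linarith
        have h4 := abs_le.1 h3
        nlinarith
      have hs3 : 1 ≤ 10 * Real.exp (-(1 / X * s) ^ 2) := by
        have h5 : Real.exp (-(9 / 4)) ≤ Real.exp (-(1 / X * s) ^ 2) :=
          Real.exp_le_exp.2 (by linarith)
        have h6 : 1 ≤ 10 * Real.exp (-(9 / 4)) := by
          rw [Real.exp_neg, ← div_eq_mul_inv, one_le_div (Real.exp_pos _)]
          exact n3b_exp_le
        linarith
      have h7 : 0 ≤ 2 * ‖F s‖ ^ 2 + ‖F' s‖ ^ 2 := by positivity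
      calc 2 * ‖F s‖ ^ 2 + ‖F' s‖ ^ 2
          ≤ (10 * Real.exp (-(1 / X * s) ^ 2)) * (2 * ‖F s‖ ^ 2 + ‖F' s‖ ^ 2) :=
            le_mul_of_one_le_left h7 hs3
        _ = g s := by simp only [hg]; ring
  refine (Finset.sum_le_sum hpt).trans ?_
  rw [← integral_biUnion_finset T (fun t _ => measurableSet_Ioc) ?_
    (fun t _ => hgi.integrableOn)]
  · exact setIntegral_le_integral hgi (Filter.Eventually.of_forall hg0)
  · intro s hs t ht hst
    show Disjoint (Set.Ioc (s - 1 / 2) (s + 1 / 2)) (Set.Ioc (t - 1 / 2) (t + 1 / 2))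
    rw [Set.disjoint_left]
    intro u hu1 hu2
    have h3 := hT s hs t ht hst
    rcases le_abs.1 h3 with h4 | h4
    · linarith [hu1.1, hu2.2]
    · linarith [hu1.2, hu2.1]

end Pool.Agent.E3
end

section

/-!
# N3c: the mean value theorem at well spaced points
-/

set_option autoImplicit false

namespace Pool.Agent.E3

open Finset MeasureTheory Real

private lemma N3c_aux_deriv_ph (y t : ℝ) :
    HasDerivAt (fun s : ℝ => ph s y) (-((y : ℂ) * Complex.I) * ph t y) t := by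
  have h1 : HasDerivAt (fun s : ℝ => (((-(s * y) : ℝ) : ℂ) * Complex.I))
      (((-y : ℝ) : ℂ) * Complex.I) t := by
    have h2 : HasDerivAt (fun s : ℝ => -(s * y)) (-y) t := by
      have h3 := (hasDerivAt_mul_const (x := t) y).neg
      exact h3
    exact (h2.ofReal_comp).mul_const Complex.I
  have h4 := h1.cexp
  have e : Complex.exp (((-(t * y) : ℝ) : ℂ) * Complex.I) * (((-y : ℝ) : ℂ) * Complex.I) =
      -((y : ℂ) * Complex.I) * ph t y := by
    rw [ph]
    push_cast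
    ring
  rw [← e]
  exact h4

private lemma N3c_aux_deriv {ι : Type*} (s : Finset ι) (x : ι → ℂ) (y : ι → ℝ) (t : ℝ) :
    HasDerivAt (fun u : ℝ => ∑ i ∈ s, x i * ph u (y i))
      (∑ i ∈ s, (x i * (-((y i : ℂ) * Complex.I))) * ph t (y i)) t := by
  have h : HasDerivAt (fun u : ℝ => ∑ i ∈ s, x i * ph u (y i))
      (∑ i ∈ s, x i * (-((y i : ℂ) * Complex.I) * ph t (y i))) t := by
    have := HasDerivAt.fun_sum (u := s) (A := fun i (u : ℝ) => x i * ph u (y i))
      (A' := fun i => x i * (-((y i : ℂ) * Complex.I) * ph t (y i))) (x := t)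
      (fun i _ => (N3c_aux_deriv_ph (y i) t).const_mul (x i))
    exact this
  have e : ∑ i ∈ s, (x i * (-((y i : ℂ) * Complex.I))) * ph t (y i) =
      ∑ i ∈ s, x i * (-((y i : ℂ) * Complex.I) * ph t (y i)) :=
    Finset.sum_congr rfl fun i _ => by ring
  rw [e]
  exact h

private lemma N3c_aux_cont {ι : Type*} (s : Finset ι) (x : ι → ℂ) (y : ι → ℝ) :
    Continuous (fun u : ℝ => ∑ i ∈ s, x i * ph u (y i)) :=
  continuous_iff_continuousAt.2 fun t => (N3c_aux_deriv s x y t).continuousAt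

/-- PROOF. `F t = ∑ x_i ph t (log n_i)` has the derivative `∑ (- i log n_i) x_i ph t (log n_i)`. `spaced_sum_le`,
`gauss_mv_integrable` and `mv_fiber` with `Δ = 1/X` for `x_i` and for `(- i log n_i) x_i`, `0 ≤ log n_i ≤ log N`:
the sum is `≤ √π X J ∑ ‖x_i‖² (20 + 10 (log N)²) (1 + 10 n_i/X)`, and `√π ≤ 2`. -/
theorem discrete_mv {ι : Type*} (s : Finset ι) (x : ι → ℂ) (n : ι → ℕ) (J X N : ℝ) (hX : 1 ≤ X) (hJ0 : 0 ≤ J)
    (hn : ∀ i ∈ s, 1 ≤ n i ∧ (n i : ℝ) ≤ N) (hJ : ∀ m, (#{i ∈ s | n i = m} : ℝ) ≤ J)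
    (T : Finset ℝ) (hT : Spaced T) (hTX : ∀ t ∈ T, |t| ≤ X) :
    ∑ t ∈ T, ‖∑ i ∈ s, x i * ph t (Real.log (n i))‖ ^ 2
      ≤ 40 * J * (1 + (Real.log N) ^ 2) * ∑ i ∈ s, ‖x i‖ ^ 2 * (X + 10 * n i) := by
  have hX0 : 0 < X := lt_of_lt_of_le one_pos hX
  have hΔ : 0 < 1 / X := by positivity
  have hΔ1 : 1 / X ≤ 1 := by
    rw [div_le_one hX0]
    exact hX
  set L := Real.log N with hL
  set x' : ι → ℂ := fun i => x i * (-(((Real.log (n i) : ℝ) : ℂ) * Complex.I)) with hx'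
  have hS := spaced_sum_le (fun u : ℝ => ∑ i ∈ s, x i * ph u (Real.log (n i)))
    (fun u : ℝ => ∑ i ∈ s, x' i * ph u (Real.log (n i)))
    (fun t => N3c_aux_deriv s x (fun i => Real.log (n i)) t)
    (N3c_aux_cont s x' (fun i => Real.log (n i))) X hX T hT hTX
    (gauss_mv_integrable s x (fun i => Real.log (n i)) (1 / X) hΔ)
    (gauss_mv_integrable s x' (fun i => Real.log (n i)) (1 / X) hΔ)
  have h1 := mv_fiber s x n J (1 / X) hΔ hΔ1 (fun i hi => (hn i hi).1) hJ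
  have h2 := mv_fiber s x' n J (1 / X) hΔ hΔ1 (fun i hi => (hn i hi).1) hJ
  have hsum : ∑ i ∈ s, ‖x' i‖ ^ 2 * (1 + 10 * (1 / X) * n i) ≤
      L ^ 2 * ∑ i ∈ s, ‖x i‖ ^ 2 * (1 + 10 * (1 / X) * n i) := by
    rw [Finset.mul_sum]
    refine Finset.sum_le_sum fun i hi => ?_
    obtain ⟨ha, hb⟩ := hn i hi
    have ha' : (1 : ℝ) ≤ n i := by exact_mod_cast ha
    have hl0 : 0 ≤ Real.log (n i) := Real.log_nonneg ha'
    have hl1 : Real.log (n i) ≤ L := Real.log_le_log (by linarith) hb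
    have hnorm : ‖x' i‖ = ‖x i‖ * Real.log (n i) := by
      rw [hx']
      simp only [norm_mul, norm_neg, Complex.norm_real, Complex.norm_I, mul_one,
        Real.norm_eq_abs, abs_of_nonneg hl0]
    rw [hnorm, mul_pow]
    have hsq : Real.log (n i) ^ 2 ≤ L ^ 2 := pow_le_pow_left₀ hl0 hl1 2
    have hpos : 0 ≤ ‖x i‖ ^ 2 * (1 + 10 * (1 / X) * n i) := by positivity
    nlinarith [mul_le_mul_of_nonneg_left hsq hpos]
  set S : ℝ := ∑ i ∈ s, ‖x i‖ ^ 2 * (1 + 10 * (1 / X) * n i) with hSdef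
  have hS0 : 0 ≤ S := Finset.sum_nonneg fun i _ => by positivity
  have hSX : X * S = ∑ i ∈ s, ‖x i‖ ^ 2 * (X + 10 * n i) := by
    rw [hSdef, Finset.mul_sum]
    refine Finset.sum_congr rfl fun i _ => ?_
    field_simp
  have hpi : Real.sqrt π ≤ 2 := by
    rw [Real.sqrt_le_left (by norm_num)]
    have := Real.pi_le_four
    linarith
  have hp0 : 0 ≤ Real.sqrt π := Real.sqrt_nonneg _
  have hc0 : 0 ≤ Real.sqrt π / (1 / X) * J := by positivity
  have h2' : ∫ t : ℝ, Real.exp (-(1 / X * t) ^ 2) * ‖∑ i ∈ s, x' i * ph t (Real.log (n i))‖ ^ 2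
      ≤ Real.sqrt π / (1 / X) * J * (L ^ 2 * S) :=
    h2.trans (mul_le_mul_of_nonneg_left hsum hc0)
  have hc1 : Real.sqrt π / (1 / X) = Real.sqrt π * X := by
    rw [div_div_eq_mul_div, div_one]
  calc ∑ t ∈ T, ‖∑ i ∈ s, x i * ph t (Real.log (n i))‖ ^ 2
      ≤ 20 * (Real.sqrt π / (1 / X) * J * S) + 10 * (Real.sqrt π / (1 / X) * J * (L ^ 2 * S)) :=
        hS.trans (add_le_add (mul_le_mul_of_nonneg_left h1 (by norm_num))
          (mul_le_mul_of_nonneg_left h2' (by norm_num)))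
    _ = Real.sqrt π * (J * (20 + 10 * L ^ 2) * (X * S)) := by rw [hc1]; ring
    _ ≤ 2 * (J * (20 + 10 * L ^ 2) * (X * S)) :=
        mul_le_mul_of_nonneg_right hpi (by positivity)
    _ ≤ 2 * (J * (20 * (1 + L ^ 2)) * (X * S)) := by
        have : J * (20 + 10 * L ^ 2) * (X * S) ≤ J * (20 * (1 + L ^ 2)) * (X * S) := by
          apply mul_le_mul_of_nonneg_right _ (by positivity)
          apply mul_le_mul_of_nonneg_left _ hJ0
          nlinarith [sq_nonneg L]
        linarith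
    _ = 40 * J * (1 + L ^ 2) * ∑ i ∈ s, ‖x i‖ ^ 2 * (X + 10 * n i) := by rw [← hSX]; ring

end Pool.Agent.E3
end
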