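import Pool.Agent.Lib.MP_bae66e_nt.Mg.G025

section

/-!
# ZG: the bound for the sum over primes
-/

set_option autoImplicit false

namespace Pool.Agent.E3

open Finset MeasureTheory Real Filter

private lemma ZG_lp_nonneg (n : ℕ) : 0 ≤ lp n := by
  unfold lp
  split_ifs
  · exact Real.log_natCast_nonneg n
  · exact le_rfl

private lemma ZG_log3 (y : ℕ) (hy : 3 ≤ y) : 1 ≤ Real.log y := by
  rw [Real.le_log_iff_exp_le (by exact_mod_cast (by omega : 0 < y))]
  have h1 := Real.exp_one_lt_d9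
  have h2 : (3 : ℝ) ≤ y := by exact_mod_cast hy
  linarith

/-- the sum of `log p / p` -/
private lemma ZG_mertens : ∃ C : ℝ, 1 ≤ C ∧ ∀ y : ℕ, 3 ≤ y →
    ∑ n ∈ Icc 1 y, lp n / n ≤ C * Real.log y := by
  obtain ⟨C, hC, h⟩ := tb_prime 1 one_pos
  refine ⟨4 * C, by linarith, fun y hy => ?_⟩
  have hly := ZG_log3 y hy
  set K := ⌊Real.log y⌋₊ with hK
  have h1 : ∀ n ∈ Icc 1 y, lp n / n
      ≤ 2 * ∑ j ∈ range (K + 1), lp n * gs 1 (j + 1 / 2) (Real.log n) / n := by
    intro n hn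
    have hn1 := Finset.mem_Icc.1 hn
    set j := ⌊Real.log n⌋₊ with hj
    have hlog0 : 0 ≤ Real.log n := Real.log_natCast_nonneg n
    have hjK : j ≤ K := by
      apply Nat.floor_le_floor
      exact Real.log_le_log (by exact_mod_cast hn1.1) (by exact_mod_cast hn1.2)
    have hj1 : (j : ℝ) ≤ Real.log n := Nat.floor_le hlog0
    have hj2 : Real.log n < j + 1 := Nat.lt_floor_add_one _
    have hg : (1 : ℝ) / 2 ≤ gs 1 (j + 1 / 2) (Real.log n) := by
      unfold gs
      have h3 : (j + 1 / 2 - Real.log n) ^ 2 ≤ 1 / 4 := by nlinarith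
      have h4 := Real.add_one_le_exp (-(1 * (j + 1 / 2 - Real.log n) ^ 2))
      linarith
    have h5 : lp n * gs 1 (j + 1 / 2) (Real.log n) / n
        ≤ ∑ j ∈ range (K + 1), lp n * gs 1 (j + 1 / 2) (Real.log n) / n := by
      refine Finset.single_le_sum (f := fun j : ℕ => lp n * gs 1 ((j : ℝ) + 1 / 2) (Real.log n) / n)
        (fun i _ => ?_) (Finset.mem_range.2 (by omega))
      exact div_nonneg (mul_nonneg (ZG_lp_nonneg n) (Real.exp_pos _).le) (Nat.cast_nonneg _)
    have h6 : lp n / n ≤ 2 * (lp n * gs 1 (j + 1 / 2) (Real.log n) / n) := by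
      rw [← mul_div_assoc]
      apply div_le_div_of_nonneg_right _ (Nat.cast_nonneg _)
      nlinarith [ZG_lp_nonneg n]
    linarith
  calc ∑ n ∈ Icc 1 y, lp n / n
      ≤ ∑ n ∈ Icc 1 y, 2 * ∑ j ∈ range (K + 1), lp n * gs 1 (j + 1 / 2) (Real.log n) / n :=
        Finset.sum_le_sum h1
    _ = 2 * ∑ j ∈ range (K + 1), ∑ n ∈ Icc 1 y, lp n * gs 1 (j + 1 / 2) (Real.log n) / n := by
        rw [← Finset.mul_sum, Finset.sum_comm]
    _ ≤ 2 * ∑ j ∈ range (K + 1), C := by
        apply mul_le_mul_of_nonneg_left _ (by norm_num)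
        exact Finset.sum_le_sum fun j _ => h y _
    _ = 2 * ((K + 1) * C) := by
        rw [Finset.sum_const, Finset.card_range, nsmul_eq_mul]; push_cast; ring
    _ ≤ 4 * C * Real.log y := by
        have hK1 : (K : ℝ) ≤ Real.log y := Nat.floor_le (by linarith)
        nlinarith

/-- the prime powers which are not primes -/
private lemma ZG_powers : ∃ K : ℝ, 0 ≤ K ∧ ∀ N : ℕ,
    ∑ n ∈ Icc 1 N, (if n.Prime then 0 else ArithmeticFunction.vonMangoldt n) / (n : ℝ) ≤ K := by
  have h := ArithmeticFunction.vonMangoldt.summable_residueClass_non_primes_div (q := 1) (a := 0)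
  have h1 : (fun n : ℕ => (if n.Prime then 0 else
      ArithmeticFunction.vonMangoldt.residueClass (q := 1) 0 n) / (n : ℝ))
      = fun n : ℕ => (if n.Prime then 0 else ArithmeticFunction.vonMangoldt n) / (n : ℝ) := by
    funext n
    have h2 : ArithmeticFunction.vonMangoldt.residueClass (q := 1) 0 n
        = ArithmeticFunction.vonMangoldt n := by
      unfold ArithmeticFunction.vonMangoldt.residueClass
      rw [Set.indicator_of_mem]
      exact Subsingleton.elim _ _
    rw [h2]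
  rw [h1] at h
  have h0 : ∀ n : ℕ, 0 ≤ (if n.Prime then 0 else ArithmeticFunction.vonMangoldt n) / (n : ℝ) := by
    intro n
    split_ifs
    · simp
    · exact div_nonneg ArithmeticFunction.vonMangoldt_nonneg (Nat.cast_nonneg _)
  exact ⟨_, tsum_nonneg h0, fun N => h.sum_le_tsum _ (fun n _ => h0 n)⟩

/-- PROOF. `C` from `LY_bounds`, `c` from `LY_lower`, `s = 1 + τ + i u`, `χ' = chy χ y`. By
`DirichletCharacter.LSeries_twist_vonMangoldt_eq`, `LSeries (χ' Λ) s = - dLY / LY`, of norm `≤ 2 C log y / c` (as in `LY_lower`). The series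
converges, so for large `N` `‖∑_{n ≤ N} χ'(n) Λ(n) n^(-s)‖ ≤ 2 C log y / c + 1`. The `n` with `χ'(n) Λ(n) ≠ 0` are the powers of the primes `> y`
(`chy_apply`). Hence `DP (tw τ (lpc χ)) (Icc 1 N) u = ∑_{p ≤ N} χ(p) log p p^(-s)` differs from this sum by at most
`∑_{p ≤ y} log p / p + ∑_p ∑_{j ≥ 2} log p / p^j ≤ C log y + C` (for the first sum: `∑_{p ≤ y} log p / p ≤ C log y`, e.g.
from `tb_prime 1`: `∑_{e^j < p ≤ e^(j+1)} log p / p ≤ C`). -/
theorem lam_bound : ∃ C : ℝ, 1 ≤ C ∧ ∀ A : ℕ, 1 ≤ A → ∀ W : ℕ, 1 ≤ W → ∃ y₀ : ℕ, 3 ≤ y₀ ∧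
    ∀ y : ℕ, y₀ ≤ y → ∀ (χ : DirichletCharacter ℂ W) (τ u : ℝ), 0 < τ → τ ≤ 1 → |u| ≤ (y : ℝ) ^ A →
      Real.exp (-(u ^ 2 / 8)) ≤ (τ * Real.log y) ^ 2 →
      ∀ᶠ N : ℕ in atTop, ‖DP (tw τ (lpc χ)) (Icc 1 N) u‖ ≤ C * Real.log y := by
  classical
  obtain ⟨C₁, hC₁, hb⟩ := LY_bounds
  obtain ⟨c, hc0, hc1, hl⟩ := LY_lower
  obtain ⟨C₂, hC₂, hm⟩ := ZG_mertens
  obtain ⟨K, hK0, hK⟩ := ZG_powers
  refine ⟨2 * C₁ / c + 1 + C₂ + K, ?_, fun A hA W hW => ?_⟩
  · have : 0 ≤ 2 * C₁ / c := by positivity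
    linarith
  obtain ⟨y₁, hy₁, hWy₁, hb1⟩ := hb A hA W hW
  obtain ⟨y₂, hy₂, hWy₂, hl1⟩ := hl A hA W hW
  refine ⟨max y₁ y₂, le_max_of_le_left hy₁, fun y hy χ τ u hτ hτ1 hu hexp => ?_⟩
  have hyy₁ : y₁ ≤ y := le_trans (le_max_left _ _) hy
  have hyy₂ : y₂ ≤ y := le_trans (le_max_right _ _) hy
  have hWy : W ≤ y := le_trans hWy₁ hyy₁
  have hy3 : 3 ≤ y := le_trans hy₁ hyy₁
  have hly := ZG_log3 y hy3
  have hly0 : 0 < Real.log y := by linarith
  have hd := (hb1 y hyy₁ χ τ u hτ hτ1 hu).2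
  have hlo := hl1 y hyy₂ χ τ u hτ hτ1 hu hexp
  have hd2 : ‖dLY χ y τ u‖ ≤ 2 * C₁ * Real.log y := by
    refine hd.trans ?_
    have h1 : (if χ = 1 then Real.exp (-(u ^ 2 / 8)) / (τ ^ 2 * Real.log y) else 0) ≤ Real.log y := by
      split_ifs
      · rw [div_le_iff₀ (by positivity)]
        calc Real.exp (-(u ^ 2 / 8)) ≤ (τ * Real.log y) ^ 2 := hexp
          _ = Real.log y * (τ ^ 2 * Real.log y) := by ring
      · exact hly0.le
    nlinarith
  set s : ℂ := (1 : ℂ) + τ + u * Complex.I with hs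
  have hsre : 1 < s.re := by rw [hs]; simp; exact hτ
  set f : ℕ → ℂ := fun n => ch (chy χ y) n * (ArithmeticFunction.vonMangoldt n : ℂ) with hf
  have hsum : LSeriesSummable f s :=
    DirichletCharacter.LSeriesSummable_twist_vonMangoldt (chy χ y) hsre
  have hval : LSeries f s = - dLY χ y τ u / LY χ y τ u :=
    DirichletCharacter.LSeries_twist_vonMangoldt_eq (chy χ y) hsre
  have hvaln : ‖LSeries f s‖ ≤ 2 * C₁ / c * Real.log y := by
    rw [hval, norm_div, norm_neg]
    have hpos : 0 < ‖LY χ y τ u‖ := lt_of_lt_of_le hc0 hlo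
    rw [div_le_iff₀ hpos]
    calc ‖dLY χ y τ u‖ ≤ 2 * C₁ * Real.log y := hd2
      _ = 2 * C₁ / c * Real.log y * c := by field_simp
      _ ≤ 2 * C₁ / c * Real.log y * ‖LY χ y τ u‖ := by
          apply mul_le_mul_of_nonneg_left hlo; positivity
  have hlim : Tendsto (fun N : ℕ => ∑ n ∈ Icc 1 N, LSeries.term f s n) atTop (nhds (LSeries f s)) := by
    have h1 : Tendsto (fun N : ℕ => ∑ n ∈ range (N + 1), LSeries.term f s n) atTop
        (nhds (LSeries f s)) :=
      (hsum.hasSum.tendsto_sum_nat).comp (tendsto_add_atTop_nat 1)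
    refine h1.congr fun N => ?_
    have h2 : range (N + 1) = insert 0 (Icc 1 N) := by
      ext k; simp only [Finset.mem_range, Finset.mem_insert, Finset.mem_Icc]; omega
    rw [h2, Finset.sum_insert (by simp), LSeries.term_zero, zero_add]
  have hev := hlim.norm.eventually_lt_const (lt_add_one ‖LSeries f s‖)
  filter_upwards [hev] with N hN
  have hterm : ∀ n ∈ Icc 1 N, LSeries.term f s n
      = f n * ((Real.exp (-(τ * Real.log n)) : ℝ) : ℂ) * ph u (Real.log n) * (((1 / n : ℝ)) : ℂ) := by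
    intro n hn
    have hn1 := (Finset.mem_Icc.1 hn).1
    rw [LSeries.term_of_ne_zero (by omega), hs, cpow_eq n hn1 τ u (f n)]
    rfl
  have hphn : ∀ v : ℝ, ‖ph u v‖ = 1 := fun v => Complex.norm_exp_ofReal_mul_I _
  have hdiff : ‖DP (tw τ (lpc χ)) (Icc 1 N) u - ∑ n ∈ Icc 1 N, LSeries.term f s n‖
      ≤ ∑ n ∈ Icc 1 N, ((if n ≤ y then lp n / n else 0)
        + (if n.Prime then 0 else ArithmeticFunction.vonMangoldt n) / (n : ℝ)) := by
    unfold DP
    rw [← Finset.sum_sub_distrib]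
    refine (norm_sum_le _ _).trans (Finset.sum_le_sum fun n hn => ?_)
    have hn1 := (Finset.mem_Icc.1 hn).1
    have hn0 : (0 : ℝ) < n := by exact_mod_cast hn1
    rw [hterm n hn]
    have h1 : tw τ (lpc χ) n * ph u (Real.log n) * (((1 / n : ℝ)) : ℂ)
        - f n * ((Real.exp (-(τ * Real.log n)) : ℝ) : ℂ) * ph u (Real.log n) * (((1 / n : ℝ)) : ℂ)
        = (lpc χ n - f n) * ((Real.exp (-(τ * Real.log n)) : ℝ) : ℂ) * ph u (Real.log n)
          * (((1 / n : ℝ)) : ℂ) := by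
      simp only [tw]; ring
    rw [h1, norm_mul, norm_mul, norm_mul, hphn, mul_one, Complex.norm_real, Complex.norm_real,
      Real.norm_eq_abs, Real.norm_eq_abs, abs_of_nonneg (Real.exp_pos _).le,
      abs_of_nonneg (by positivity : (0 : ℝ) ≤ 1 / n)]
    have hexp1 : Real.exp (-(τ * Real.log n)) ≤ 1 := by
      apply Real.exp_le_one_iff.2
      have := Real.log_natCast_nonneg n
      have : 0 ≤ τ * Real.log n := by positivity
      linarith
    have hch : ‖ch χ n‖ ≤ 1 := DirichletCharacter.norm_le_one χ _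
    have hD : ‖lpc χ n - f n‖ ≤ (if n ≤ y then lp n else 0)
        + (if n.Prime then 0 else ArithmeticFunction.vonMangoldt n) := by
      have hfn : f n = (if Pool.Agent.Lib.MP_bae66e_nt.AP3.Rough y n then ch χ n else 0)
          * (ArithmeticFunction.vonMangoldt n : ℂ) := by
        simp only [hf]
        rw [chy_apply χ y n hW hWy hn1]
      by_cases hp : n.Prime
      · rw [if_pos hp, add_zero]
        by_cases hny : n ≤ y
        · rw [if_pos hny]
          have hR : ¬ Pool.Agent.Lib.MP_bae66e_nt.AP3.Rough y n := by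
            intro h
            have := h n hp (dvd_refl n)
            omega
          rw [hfn, if_neg hR, zero_mul, sub_zero]
          unfold lpc
          rw [norm_mul, Complex.norm_real, Real.norm_eq_abs, abs_of_nonneg (ZG_lp_nonneg n)]
          exact mul_le_of_le_one_right (ZG_lp_nonneg n) hch
        · rw [if_neg hny]
          have hR : Pool.Agent.Lib.MP_bae66e_nt.AP3.Rough y n := by
            intro q hq hqn
            rcases (Nat.dvd_prime hp).1 hqn with h | h
            · exact absurd h hq.one_lt.ne'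
            · omega
          rw [hfn, if_pos hR, ArithmeticFunction.vonMangoldt_apply_prime hp]
          have : lpc χ n - ch χ n * ((Real.log n : ℝ) : ℂ) = 0 := by
            unfold lpc lp
            rw [if_pos hp]; ring
          rw [this, norm_zero]
      · rw [if_neg hp]
        have hlp : lp n = 0 := by unfold lp; rw [if_neg hp]
        have h2 : lpc χ n = 0 := by unfold lpc; rw [hlp]; simp
        rw [h2, zero_sub, norm_neg, hfn, norm_mul, Complex.norm_real, Real.norm_eq_abs,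
          abs_of_nonneg ArithmeticFunction.vonMangoldt_nonneg, hlp]
        have h3 : ‖(if Pool.Agent.Lib.MP_bae66e_nt.AP3.Rough y n then ch χ n else 0)‖ ≤ 1 := by
          split_ifs
          · exact hch
          · simp
        have h4 : ‖(if Pool.Agent.Lib.MP_bae66e_nt.AP3.Rough y n then ch χ n else 0)‖
            * ArithmeticFunction.vonMangoldt n ≤ ArithmeticFunction.vonMangoldt n :=
          mul_le_of_le_one_left ArithmeticFunction.vonMangoldt_nonneg h3
        have h5 : (if n ≤ y then (0 : ℝ) else 0) = 0 := by split_ifs <;> rfl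
        rw [h5, zero_add]
        exact h4
    calc ‖lpc χ n - f n‖ * Real.exp (-(τ * Real.log n)) * (1 / n)
        ≤ ‖lpc χ n - f n‖ * 1 * (1 / n) := by
          apply mul_le_mul_of_nonneg_right _ (by positivity)
          exact mul_le_mul_of_nonneg_left hexp1 (norm_nonneg _)
      _ = ‖lpc χ n - f n‖ / n := by ring
      _ ≤ ((if n ≤ y then lp n else 0)
            + (if n.Prime then 0 else ArithmeticFunction.vonMangoldt n)) / n :=
          div_le_div_of_nonneg_right hD (Nat.cast_nonneg _)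
      _ = _ := by
          rw [add_div]
          congr 1
          split_ifs <;> simp
  have hs1 : ∑ n ∈ Icc 1 N, (if n ≤ y then lp n / (n : ℝ) else 0) ≤ C₂ * Real.log y := by
    refine le_trans ?_ (hm y hy3)
    rw [← Finset.sum_filter]
    apply Finset.sum_le_sum_of_subset_of_nonneg
    · intro n hn
      simp only [Finset.mem_filter, Finset.mem_Icc] at hn ⊢
      omega
    · intro n _ _
      exact div_nonneg (ZG_lp_nonneg n) (Nat.cast_nonneg _)
  rw [Finset.sum_add_distrib] at hdiff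
  have hs2 := hK N
  have h7 : ‖DP (tw τ (lpc χ)) (Icc 1 N) u‖
      ≤ ‖DP (tw τ (lpc χ)) (Icc 1 N) u - ∑ n ∈ Icc 1 N, LSeries.term f s n‖
        + ‖∑ n ∈ Icc 1 N, LSeries.term f s n‖ := by
    have := norm_add_le (DP (tw τ (lpc χ)) (Icc 1 N) u - ∑ n ∈ Icc 1 N, LSeries.term f s n)
      (∑ n ∈ Icc 1 N, LSeries.term f s n)
    simpa using this
  have h8 : K ≤ K * Real.log y := by nlinarith
  have h9 : (2 * C₁ / c + 1 + C₂ + K) * Real.log y
      = 2 * C₁ / c * Real.log y + Real.log y + C₂ * Real.log y + K * Real.log y := by ring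
  rw [h9]
  linarith

end Pool.Agent.E3
end

section

/-!
# ZH: the Dirichlet polynomial of the primes is small at large heights
-/

set_option autoImplicit false

namespace Pool.Agent.E3

open Finset MeasureTheory Real Filter

private lemma ZH_aux_lp_nonneg (n : ℕ) : 0 ≤ lp n := by
  unfold lp
  split_ifs with h
  · exact Real.log_nonneg (by exact_mod_cast h.one_lt.le)
  · exact le_rfl

private lemma ZH_aux_geom (τ : ℝ) (h0 : 0 < τ) (h1 : τ ≤ 1) (J : ℕ) :
    ∑ j ∈ range J, Real.exp (-(τ * j)) ≤ 2 / τ := by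
  have hr : ∀ j : ℕ, Real.exp (-(τ * j)) = (Real.exp (-τ)) ^ j := by
    intro j
    rw [← Real.exp_nat_mul]
    congr 1
    ring
  have hr1 : Real.exp (-τ) ≤ 1 / (1 + τ) := by
    rw [Real.exp_neg, ← one_div]
    apply one_div_le_one_div_of_le (by linarith)
    have := Real.add_one_le_exp τ
    linarith
  have hgap : τ / 2 ≤ 1 - Real.exp (-τ) := by
    have h2 : 1 / (1 + τ) ≤ 1 - τ / 2 := by
      rw [div_le_iff₀ (by linarith)]
      nlinarith
    linarith
  have hid : (1 - Real.exp (-τ)) * ∑ j ∈ range J, (Real.exp (-τ)) ^ j =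
      1 - (Real.exp (-τ)) ^ J := mul_neg_geom_sum _ _
  have hpow : 0 ≤ (Real.exp (-τ)) ^ J := by positivity
  simp only [hr]
  set S := ∑ j ∈ range J, (Real.exp (-τ)) ^ j with hS
  have hS0 : 0 ≤ S := Finset.sum_nonneg fun j _ => by positivity
  rw [le_div_iff₀ h0]
  nlinarith [mul_le_mul_of_nonneg_right hgap hS0]

/-- PROOF. From `tb_prime 1`: `∑_{e^j < p ≤ e^(j+1)} log p / p ≤ C` for all `j ≥ 0` (`gs 1 (j + 1/2) (log p) ≥ exp (-1/4)`). So
`∑_{N < p ≤ N'} log p · p^(-1-τ) ≤ C ∑_{j ≥ ⌊log N⌋} exp (- τ j) ≤ C exp (- τ (log N - 1)) / (1 - exp (- τ)) ≤ C' exp (- τ log N) / τ`. -/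
theorem lam_tail : ∃ C : ℝ, 1 ≤ C ∧ ∀ (τ : ℝ) (N N' : ℕ), 0 < τ → τ ≤ 1 → 1 ≤ N → N ≤ N' →
    ∑ n ∈ Ioc N N', lp n * Real.exp (-(τ * Real.log n)) / n ≤ C * Real.exp (-(τ * Real.log N)) / τ := by
  obtain ⟨C₁, hC1, hC⟩ := tb_prime 1 one_pos
  have he : (1 : ℝ) ≤ Real.exp 1 := Real.one_le_exp zero_le_one
  refine ⟨2 * Real.exp 1 * C₁, by nlinarith, ?_⟩
  intro τ N N' hτ hτ1 hN hNN'
  have hN0 : (0 : ℝ) < N := by exact_mod_cast hN
  set a := Real.log N with ha
  set J := ⌊Real.log N' - a⌋₊ + 1 with hJ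
  have hterm : ∀ n ∈ Ioc N N', lp n * Real.exp (-(τ * Real.log n)) / n ≤
      ∑ j ∈ range J, Real.exp 1 * Real.exp (-(τ * (a + j))) *
        (lp n * gs 1 (a + j) (Real.log n) / n) := by
    intro n hn
    rw [Finset.mem_Ioc] at hn
    have hn0 : (0 : ℝ) < n := by
      have : 0 < n := by omega
      exact_mod_cast this
    have hNn : (N : ℝ) ≤ n := by exact_mod_cast hn.1.le
    have hnN' : (n : ℝ) ≤ N' := by exact_mod_cast hn.2
    have hl1 : a ≤ Real.log n := Real.log_le_log hN0 hNn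
    have hl2 : Real.log n ≤ Real.log N' := Real.log_le_log hn0 hnN'
    set j := ⌊Real.log n - a⌋₊ with hj
    have hj1 : (j : ℝ) ≤ Real.log n - a := Nat.floor_le (by linarith)
    have hj2 : Real.log n - a < j + 1 := Nat.lt_floor_add_one _
    have hjJ : j ∈ range J := by
      rw [Finset.mem_range, hJ, hj]
      exact Nat.lt_succ_of_le (Nat.floor_le_floor (by linarith))
    have hlp := ZH_aux_lp_nonneg n
    have hnn : ∀ i ∈ range J, 0 ≤ Real.exp 1 * Real.exp (-(τ * (a + i))) *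
        (lp n * gs 1 (a + i) (Real.log n) / n) := by
      intro i _
      have : 0 ≤ gs 1 (a + i) (Real.log n) := by
        unfold gs
        positivity
      positivity
    refine le_trans ?_ (Finset.single_le_sum hnn hjJ)
    have hg : Real.exp (-1) ≤ gs 1 (a + j) (Real.log n) := by
      unfold gs
      apply Real.exp_le_exp.2
      have : (a + j - Real.log n) ^ 2 ≤ 1 := by
        rw [sq_le_one_iff_abs_le_one, abs_le]
        constructor <;> linarith
      linarith
    have hE : Real.exp (-(τ * Real.log n)) ≤ Real.exp (-(τ * (a + j))) := by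
      apply Real.exp_le_exp.2
      have : a + j ≤ Real.log n := by linarith
      nlinarith
    have h1 : 1 ≤ Real.exp 1 * gs 1 (a + j) (Real.log n) := by
      have h2 : Real.exp 1 * Real.exp (-1) = 1 := by
        rw [← Real.exp_add]
        simp
      calc (1 : ℝ) = Real.exp 1 * Real.exp (-1) := h2.symm
        _ ≤ _ := mul_le_mul_of_nonneg_left hg (Real.exp_pos 1).le
    have hb : 0 ≤ lp n / n := by positivity
    calc lp n * Real.exp (-(τ * Real.log n)) / n
        = Real.exp (-(τ * Real.log n)) * (lp n / n) * 1 := by ring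
      _ ≤ Real.exp (-(τ * (a + j))) * (lp n / n) * (Real.exp 1 * gs 1 (a + j) (Real.log n)) := by
          apply mul_le_mul _ h1 zero_le_one
          · positivity
          · exact mul_le_mul_of_nonneg_right hE hb
      _ = Real.exp 1 * Real.exp (-(τ * (a + j))) *
            (lp n * gs 1 (a + j) (Real.log n) / n) := by ring
  calc ∑ n ∈ Ioc N N', lp n * Real.exp (-(τ * Real.log n)) / n
      ≤ ∑ n ∈ Ioc N N', ∑ j ∈ range J, Real.exp 1 * Real.exp (-(τ * (a + j))) *
        (lp n * gs 1 (a + j) (Real.log n) / n) := Finset.sum_le_sum hterm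
    _ = ∑ j ∈ range J, Real.exp 1 * Real.exp (-(τ * (a + j))) *
        ∑ n ∈ Ioc N N', lp n * gs 1 (a + j) (Real.log n) / n := by
        rw [Finset.sum_comm]
        refine Finset.sum_congr rfl fun j _ => ?_
        rw [Finset.mul_sum]
    _ ≤ ∑ j ∈ range J, Real.exp 1 * Real.exp (-(τ * (a + j))) * C₁ := by
        refine Finset.sum_le_sum fun j _ => ?_
        apply mul_le_mul_of_nonneg_left _ (by positivity)
        refine le_trans ?_ (hC N' (a + j))
        apply Finset.sum_le_sum_of_subset_of_nonneg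
        · intro n hn
          rw [Finset.mem_Ioc] at hn
          rw [Finset.mem_Icc]
          omega
        · intro n _ _
          have hlp := ZH_aux_lp_nonneg n
          have : 0 ≤ gs 1 (a + j) (Real.log n) := by
            unfold gs
            positivity
          positivity
    _ = Real.exp 1 * C₁ * Real.exp (-(τ * a)) * ∑ j ∈ range J, Real.exp (-(τ * j)) := by
        rw [Finset.mul_sum]
        refine Finset.sum_congr rfl fun j _ => ?_
        have : Real.exp (-(τ * (a + j))) = Real.exp (-(τ * a)) * Real.exp (-(τ * j)) := by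
          rw [← Real.exp_add]
          congr 1
          ring
        rw [this]
        ring
    _ ≤ Real.exp 1 * C₁ * Real.exp (-(τ * a)) * (2 / τ) := by
        apply mul_le_mul_of_nonneg_left (ZH_aux_geom τ hτ hτ1 J)
        positivity
    _ = 2 * Real.exp 1 * C₁ * Real.exp (-(τ * a)) / τ := by ring

private lemma ZH_aux_norm_ph (u x : ℝ) : ‖ph u x‖ = 1 := by
  unfold ph
  exact Complex.norm_exp_ofReal_mul_I _

private lemma ZH_aux_term {W : ℕ} (χ : DirichletCharacter ℂ W) (τ u : ℝ) (n : ℕ) :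
    ‖tw τ (lpc χ) n * ph u (Real.log n) * (((1 / n : ℝ)) : ℂ)‖ ≤
      lp n * Real.exp (-(τ * Real.log n)) / n := by
  have hlp := ZH_aux_lp_nonneg n
  have hch : ‖ch χ n‖ ≤ 1 := by
    unfold ch
    exact DirichletCharacter.norm_le_one χ _
  have hn : (0 : ℝ) ≤ 1 / n := by positivity
  have h1 : ‖tw τ (lpc χ) n * ph u (Real.log n) * (((1 / n : ℝ)) : ℂ)‖ =
      lp n * ‖ch χ n‖ * Real.exp (-(τ * Real.log n)) * (1 / n) := by
    unfold tw lpc
    rw [norm_mul, norm_mul, norm_mul, norm_mul, ZH_aux_norm_ph, Complex.norm_real,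
      Complex.norm_real, Complex.norm_real, Real.norm_eq_abs, Real.norm_eq_abs, Real.norm_eq_abs,
      abs_of_nonneg hlp, abs_of_nonneg (Real.exp_pos _).le, abs_of_nonneg hn]
    ring
  rw [h1]
  have h2 : lp n * ‖ch χ n‖ ≤ lp n := mul_le_of_le_one_right hlp hch
  calc lp n * ‖ch χ n‖ * Real.exp (-(τ * Real.log n)) * (1 / n)
      ≤ lp n * Real.exp (-(τ * Real.log n)) * (1 / n) := by
        apply mul_le_mul_of_nonneg_right _ hn
        exact mul_le_mul_of_nonneg_right h2 (Real.exp_pos _).le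
    _ = lp n * Real.exp (-(τ * Real.log n)) / n := by ring

/-- PROOF. `C₁` from `lam_bound`, `C₂` from `lam_tail`. Choose `A : ℕ` with `C₁ / A ≤ δ / 8`, `T₁ ≥ 1` with `exp (- T₁²/8) ≤ 1/A²`, `M ≥ 2`
with `C₂ exp (- M) ≤ δ / 2`. For large `L` let `y = ⌈exp ((L+1)/A)⌉₊` (`≥ y₀(A, W)`), so `|u| ≤ 2 exp L ≤ exp (L+1) ≤ y^A`,
`(L+1)/A ≤ log y ≤ (L+1)/A + 1`; with `τ = 1/L`: `τ log y ≥ 1/A`, so the hypothesis of `lam_bound` holds, and for large `N'`
`‖DP (tw τ (lpc χ)) (Icc 1 N') u‖ ≤ C₁ ((L+1)/A + 1) ≤ δ L / 2` for `L ≥ L₀`. The difference of the sums over `Icc 1 N'` and `Icc 1 N`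
is `≤ C₂ exp (- M) L ≤ δ L / 2` by `lam_tail`. -/
theorem zsup : ∀ W : ℕ, 1 ≤ W → ∀ δ : ℝ, 0 < δ → ∃ T₁ M L₀ : ℝ, 1 ≤ T₁ ∧ 2 ≤ M ∧ 1 ≤ L₀ ∧
    ∀ L : ℝ, L₀ ≤ L → ∀ (χ : DirichletCharacter ℂ W) (N : ℕ), Real.exp (M * L) ≤ N →
    ∀ u : ℝ, T₁ ≤ |u| → |u| ≤ 2 * Real.exp L → ‖DP (tw (1 / L) (lpc χ)) (Icc 1 N) u‖ ≤ δ * L := by
  intro W hW δ hδ
  obtain ⟨C₁, hC1, hb⟩ := lam_bound
  obtain ⟨C₂, hC2, ht⟩ := lam_tail
  -- the choice of `A`
  obtain ⟨A, hA⟩ := exists_nat_ge (max 1 (8 * C₁ / δ))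
  have hA1 : (1 : ℝ) ≤ A := le_trans (le_max_left _ _) hA
  have hA1' : 1 ≤ A := by exact_mod_cast hA1
  have hA0 : (0 : ℝ) < A := by linarith
  have hA2 : C₁ / A ≤ δ / 8 := by
    have h := le_trans (le_max_right _ _) hA
    rw [div_le_iff₀ hδ] at h
    rw [div_le_iff₀ hA0]
    linarith
  obtain ⟨y₀, hy3, hy⟩ := hb A hA1' W hW
  -- the choice of `T₁`
  set T₁ : ℝ := max 1 (16 * Real.log A + 1) with hT1
  have hT11 : 1 ≤ T₁ := le_max_left _ _
  have hlogA : 0 ≤ Real.log A := Real.log_nonneg hA1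
  have hexpT : Real.exp (-(T₁ ^ 2 / 8)) ≤ (1 / (A : ℝ)) ^ 2 := by
    have h1 : 16 * Real.log A ≤ T₁ := by
      have := le_max_right 1 (16 * Real.log A + 1)
      linarith
    have h2 : 2 * Real.log A ≤ T₁ ^ 2 / 8 := by nlinarith
    have h3 : (1 / (A : ℝ)) ^ 2 = Real.exp (-(2 * Real.log A)) := by
      rw [Real.exp_neg, two_mul, Real.exp_add, Real.exp_log hA0, one_div, inv_pow, pow_two]
    rw [h3]
    exact Real.exp_le_exp.2 (by linarith)
  -- the choice of `M`
  set M : ℝ := max 2 (2 * C₂ / δ) with hM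
  have hM2 : 2 ≤ M := le_max_left _ _
  have hexpM : C₂ * Real.exp (-M) ≤ δ / 2 := by
    have h1 : 2 * C₂ / δ ≤ M := le_max_right _ _
    have h2 : M ≤ Real.exp M := by
      have := Real.add_one_le_exp M
      linarith
    rw [Real.exp_neg, ← div_eq_mul_inv, div_le_iff₀ (Real.exp_pos _)]
    rw [div_le_iff₀ hδ] at h1
    nlinarith
  -- the choice of `L₀`
  set L₀ : ℝ := max 1 (max (A * Real.log y₀) (4 * C₁ / δ)) with hL0
  refine ⟨T₁, M, L₀, hT11, hM2, le_max_left _ _, ?_⟩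
  intro L hL χ N hN u hu1 hu2
  have hL1 : 1 ≤ L := le_trans (le_max_left _ _) hL
  have hLpos : 0 < L := by linarith
  have hLA : A * Real.log y₀ ≤ L :=
    le_trans (le_trans (le_max_left _ _) (le_max_right _ _)) hL
  have hLC : 4 * C₁ / δ ≤ L :=
    le_trans (le_trans (le_max_right _ _) (le_max_right _ _)) hL
  have hLC' : C₁ ≤ δ / 4 * L := by
    rw [div_le_iff₀ hδ] at hLC
    linarith
  -- the parameter `y`
  set b : ℝ := (L + 1) / A with hbdef
  set y : ℕ := ⌈Real.exp b⌉₊ with hydef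
  have hyb : Real.exp b ≤ y := Nat.le_ceil _
  have hb0 : 0 ≤ b := by positivity
  have hy1 : (1 : ℝ) ≤ y := le_trans (Real.one_le_exp hb0) hyb
  have hypos : (0 : ℝ) < y := by linarith
  have hy0pos : (0 : ℝ) < y₀ := by
    have : 0 < y₀ := by omega
    exact_mod_cast this
  have hyy0 : y₀ ≤ y := by
    have h1 : Real.log y₀ ≤ b := by
      rw [hbdef, le_div_iff₀ hA0]
      linarith
    have h2 : (y₀ : ℝ) ≤ Real.exp b := by
      rw [← Real.exp_log hy0pos]
      exact Real.exp_le_exp.2 h1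
    exact_mod_cast h2.trans hyb
  have hlogy1 : b ≤ Real.log y := by
    rw [Real.le_log_iff_exp_le hypos]
    exact hyb
  have hlogy2 : Real.log y ≤ b + 1 := by
    rw [Real.log_le_iff_le_exp hypos]
    have h1 : (y : ℝ) ≤ Real.exp b + 1 := (Nat.ceil_lt_add_one (Real.exp_pos b).le).le
    have h2 : (1 : ℝ) ≤ Real.exp b := Real.one_le_exp hb0
    have h3 : (2 : ℝ) ≤ Real.exp 1 := by
      have := Real.add_one_le_exp (1 : ℝ)
      linarith
    rw [Real.exp_add]
    nlinarith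
  have hτ : (0 : ℝ) < 1 / L := by positivity
  have hτ1 : 1 / L ≤ 1 := by
    rw [div_le_one hLpos]
    exact hL1
  have huA : |u| ≤ (y : ℝ) ^ A := by
    have h1 : Real.exp b ^ A ≤ (y : ℝ) ^ A := pow_le_pow_left₀ (Real.exp_pos b).le hyb A
    have h2 : Real.exp b ^ A = Real.exp (L + 1) := by
      rw [← Real.exp_nat_mul]
      congr 1
      rw [hbdef]
      field_simp
    have h3 : (2 : ℝ) ≤ Real.exp 1 := by
      have := Real.add_one_le_exp (1 : ℝ)
      linarith
    have h4 : 2 * Real.exp L ≤ Real.exp (L + 1) := by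
      rw [Real.exp_add]
      nlinarith [Real.exp_pos L]
    linarith
  have hcond : Real.exp (-(u ^ 2 / 8)) ≤ (1 / L * Real.log y) ^ 2 := by
    have h1 : T₁ ^ 2 ≤ u ^ 2 := by
      rw [← sq_abs u]
      exact pow_le_pow_left₀ (by linarith) hu1 2
    have h2 : Real.exp (-(u ^ 2 / 8)) ≤ Real.exp (-(T₁ ^ 2 / 8)) :=
      Real.exp_le_exp.2 (by linarith)
    have h3 : 1 / (A : ℝ) ≤ 1 / L * Real.log y := by
      have h4 : 1 / (A : ℝ) ≤ 1 / L * b := by
        rw [hbdef]
        rw [div_mul_div_comm, div_le_div_iff₀ hA0 (by positivity)]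
        nlinarith
      exact h4.trans (mul_le_mul_of_nonneg_left hlogy1 hτ.le)
    have h5 : (1 / (A : ℝ)) ^ 2 ≤ (1 / L * Real.log y) ^ 2 :=
      pow_le_pow_left₀ (by positivity) h3 2
    linarith
  have hev := hy y hyy0 χ (1 / L) u hτ hτ1 huA hcond
  obtain ⟨N', hN'1, hN'2⟩ := (hev.and (eventually_ge_atTop N)).exists
  have hbig : ‖DP (tw (1 / L) (lpc χ)) (Icc 1 N') u‖ ≤ δ / 2 * L := by
    refine hN'1.trans ?_
    have h1 : C₁ * Real.log y ≤ C₁ * (b + 1) := mul_le_mul_of_nonneg_left hlogy2 (by linarith)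
    have h2 : C₁ * b ≤ δ / 8 * (L + 1) := by
      have : C₁ * b = C₁ / A * (L + 1) := by
        rw [hbdef]
        ring
      rw [this]
      exact mul_le_mul_of_nonneg_right hA2 (by linarith)
    nlinarith
  have hMN : (0 : ℝ) < N := lt_of_lt_of_le (Real.exp_pos _) hN
  have hN1 : 1 ≤ N := by exact_mod_cast hMN
  have hlogN : M * L ≤ Real.log N := by
    rw [Real.le_log_iff_exp_le hMN]
    exact hN
  have htail := ht (1 / L) N N' hτ hτ1 hN1 hN'2
  have hsplit : DP (tw (1 / L) (lpc χ)) (Icc 1 N') u =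
      DP (tw (1 / L) (lpc χ)) (Icc 1 N) u + DP (tw (1 / L) (lpc χ)) (Ioc N N') u := by
    unfold DP
    rw [← Finset.sum_union]
    · congr 1
      ext n
      simp only [Finset.mem_union, Finset.mem_Icc, Finset.mem_Ioc]
      omega
    · rw [Finset.disjoint_left]
      intro n h1 h2
      rw [Finset.mem_Icc] at h1
      rw [Finset.mem_Ioc] at h2
      omega
  have htail2 : ‖DP (tw (1 / L) (lpc χ)) (Ioc N N') u‖ ≤ δ / 2 * L := by
    have h1 : ‖DP (tw (1 / L) (lpc χ)) (Ioc N N') u‖ ≤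
        ∑ n ∈ Ioc N N', lp n * Real.exp (-(1 / L * Real.log n)) / n := by
      unfold DP
      exact (norm_sum_le _ _).trans (Finset.sum_le_sum fun n _ => ZH_aux_term χ (1 / L) u n)
    refine (h1.trans htail).trans ?_
    have h2 : Real.exp (-(1 / L * Real.log N)) ≤ Real.exp (-M) := by
      apply Real.exp_le_exp.2
      have : M ≤ 1 / L * Real.log N := by
        rw [one_div, ← div_eq_inv_mul, le_div_iff₀ hLpos]
        exact hlogN
      linarith
    have h3 : C₂ * Real.exp (-(1 / L * Real.log N)) ≤ δ / 2 :=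
      (mul_le_mul_of_nonneg_left h2 (by linarith)).trans hexpM
    rw [div_div_eq_mul_div, div_one]
    exact mul_le_mul_of_nonneg_right h3 hLpos.le
  have hfin : DP (tw (1 / L) (lpc χ)) (Icc 1 N) u =
      DP (tw (1 / L) (lpc χ)) (Icc 1 N') u - DP (tw (1 / L) (lpc χ)) (Ioc N N') u := by
    rw [hsplit]
    ring
  rw [hfin]
  calc ‖DP (tw (1 / L) (lpc χ)) (Icc 1 N') u - DP (tw (1 / L) (lpc χ)) (Ioc N N') u‖
      ≤ ‖DP (tw (1 / L) (lpc χ)) (Icc 1 N') u‖ + ‖DP (tw (1 / L) (lpc χ)) (Ioc N N') u‖ :=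
        norm_sub_le _ _
    _ ≤ δ / 2 * L + δ / 2 * L := add_le_add hbig htail2
    _ = δ * L := by ring

end Pool.Agent.E3
end
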