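import Pool.Agent.Lib.MP_bae66e_nt.Mg.G032
import Pool.Agent.Lib.MP_bae66e_nt.AC.RowF
import Pool.Agent.Lib.MP_bae66e_nt.AC.RowD
import Pool.Agent.Lib.MP_bae66e_nt.AC.RowV
import Pool.Agent.Lib.MP_bae66e_nt.AC.RowE

section

/-!
# Row H1a: the majorant for one `s` (compare AC/RowF)
-/

set_option autoImplicit false

namespace Pool.Agent.Lib.MP_bae66e_nt.E2

open Finset MeasureTheory Real
open Pool.Agent.E3
open Pool.Agent.Lib.MP_bae66e_nt.AP3 (prI mem_prI)

open Pool.Agent.Lib.MP_bae66e_nt.LL (fP)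
open Pool.Agent.Lib.MP_bae66e_nt.AC (SD sg Ek VV Sg FC FC_congr FC_nonneg FC_le sg_nonneg)
open Pool.Agent.Lib.MP_bae66e_nt

/-- the weights in the class of `m` modulo `s`: `t ≡ m` modulo `s` and `m - t` coprime to `W` -/
noncomputable def FE (H W s m t : ℕ) : ℝ := if t ≡ m [MOD s] then FC H W 1 m t else 0

/-- PROOF. `FC_congr` (AC/RowF), and `t ≡ m` iff `t ≡ m'` modulo `s`. -/
theorem FE_congr (H W s m m' t : ℕ) (h : m ≡ m' [MOD W]) (h' : m ≡ m' [MOD s]) : FE H W s m t = FE H W s m' t := by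
  unfold FE
  rw [FC_congr H W 1 m m' t h]
  have h1 : t ≡ m [MOD s] ↔ t ≡ m' [MOD s] := ⟨fun h2 => h2.trans h', fun h2 => h2.trans h'.symm⟩
  simp only [h1]

/-- PROOF. `FC_nonneg`, `FC_le` (AC/RowF). -/
theorem FE_bounds (H W s m t : ℕ) : 0 ≤ FE H W s m t ∧ FE H W s m t ≤ fP H (t : ℤ) ∧ FE H W s m t ≤ FC H W 1 m t := by
  unfold FE
  split_ifs
  · exact ⟨FC_nonneg _ _ _ _ _, FC_le _ _ _ _ _, le_rfl⟩
  · exact ⟨le_rfl, (FC_nonneg H W 1 m t).trans (FC_le H W 1 m t), FC_nonneg _ _ _ _ _⟩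

/-- The majorant. PROOF. Compare `majorant` (AC/RowF). If `s ∣ m - t` and `q = (m - t)/s` is prime, then `m - t = s q`, `q > T` and `q > w` (`m - H > s (T + w + 1)`), so `m - t` is coprime to
`primorial w` (`s` and `q` are primes `> w`), `t ≡ m` modulo `s`, `FE = fP`, and `sg (sProd D T) lam (s q) = 1` (among the divisors of `sProd D T` only `d = 1` divides `s q`:
their prime factors are `≤ T` and do not divide `D`, but `s ∣ D`, `q > T`; compare `sg_prime`). The other terms are `≥ 0`. -/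
theorem majorant_e {D T : ℕ} {G : ℝ} {lam : ℕ → ℝ} (h : SD (sProd D T) T G lam) (H w s m : ℕ) (hs : s.Prime)
    (hsD : s ∣ D) (hws : w < s) (hHm : H + s * (T + w + 1) < m) :
    ∑ t ∈ Icc 1 H, fP H (t : ℤ) * (if s ∣ m - t ∧ ((m - t) / s).Prime then (1 : ℝ) else 0) ≤
      ∑ t ∈ Icc 1 H, FE H (primorial w) s m t * sg (sProd D T) lam (1 * m - t) := by
  classical
  refine Finset.sum_le_sum fun t ht => ?_
  rw [Finset.mem_Icc] at ht
  by_cases hq : s ∣ m - t ∧ ((m - t) / s).Prime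
  · obtain ⟨hd, hp⟩ := hq
    obtain ⟨q, hqd⟩ : ∃ q, q = (m - t) / s := ⟨_, rfl⟩
    rw [← hqd] at hp
    have hmq : m - t = s * q := by
      rw [hqd, Nat.mul_div_cancel' hd]
    have hs0 : 0 < s := hs.pos
    have hqT : T + w + 1 < q := by
      by_contra hc
      have h1 : s * q ≤ s * (T + w + 1) := Nat.mul_le_mul_left s (by omega)
      omega
    have htm : t ≤ m := by omega
    have hsg : sg (sProd D T) lam (1 * m - t) = 1 := by
      rw [one_mul, hmq]
      unfold sg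
      have h1 : ((sProd D T).divisors.filter fun d => d ∣ s * q) = {1} := by
        ext d
        rw [Finset.mem_filter, Nat.mem_divisors, Finset.mem_singleton]
        constructor
        · rintro ⟨⟨h2, h3⟩, h4⟩
          by_contra hd1
          obtain ⟨p, hpp, hpd⟩ := Nat.exists_prime_and_dvd hd1
          have h5 := (prime_dvd_sProd_iff hpp).1 (hpd.trans h2)
          rcases (Nat.Prime.dvd_mul hpp).1 (hpd.trans h4) with h6 | h6
          · have h7 : p = s := (Nat.prime_dvd_prime_iff_eq hpp hs).1 h6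
            rw [h7] at h5
            exact h5.2 hsD
          · have h7 : p = q := (Nat.prime_dvd_prime_iff_eq hpp hp).1 h6
            have := h5.1
            omega
        · rintro rfl
          exact ⟨⟨one_dvd _, h.sqf.ne_zero⟩, one_dvd _⟩
      rw [h1, Finset.sum_singleton, h.one, one_pow]
    have hco : IsCoprime (((1 * m : ℕ) : ℤ) - (t : ℤ)) ((primorial w : ℕ) : ℤ) := by
      have h2 : ((1 * m : ℕ) : ℤ) - (t : ℤ) = ((m - t : ℕ) : ℤ) := by
        rw [one_mul, Nat.cast_sub htm]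
      rw [h2, hmq, Nat.isCoprime_iff_coprime]
      unfold primorial
      refine Nat.Coprime.prod_right fun p hp' => ?_
      rw [Finset.mem_filter, Finset.mem_range] at hp'
      refine Nat.Coprime.mul_left ((Nat.coprime_primes hs hp'.2).2 ?_) ((Nat.coprime_primes hp hp'.2).2 ?_)
      · omega
      · omega
    have hmod : t ≡ m [MOD s] := by
      rw [Nat.modEq_iff_dvd' htm]
      exact hd
    have hif : (if s ∣ m - t ∧ ((m - t) / s).Prime then (1 : ℝ) else 0) = 1 := if_pos ⟨hd, by rw [← hqd]; exact hp⟩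
    rw [hif, hsg]
    unfold FE FC
    rw [if_pos hmod, if_pos hco]
  · rw [if_neg hq, mul_zero]
    exact mul_nonneg (FE_bounds _ _ _ _ _).1 (sg_nonneg _ _ _)

end Pool.Agent.Lib.MP_bae66e_nt.E2
end

section

/-!
# Row H1b: the mean of the weights for one `s` (compare `A_bound` of AC/RowF)
-/

set_option autoImplicit false

namespace Pool.Agent.Lib.MP_bae66e_nt.E2

open Finset MeasureTheory Real
open Pool.Agent.E3
open Pool.Agent.Lib.MP_bae66e_nt.AP3 (prI mem_prI)

open Pool.Agent.Lib.MP_bae66e_nt.LL (fP)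
open Pool.Agent.Lib.MP_bae66e_nt
open Pool.Agent.Lib.MP_bae66e_nt.AC (SD sg Ek VV Sg FC class_card)

/-- The mean. PROOF. As `A_bound` (AC/RowF), `H = 2R²`, `W = primorial w`: `FE ≤ log H` on the primes `t ≤ H` with `t ≡ m` modulo `s` and `m - t` coprime to `W`. The `t ≤ w` contribute at most `w log H`. The other
`t` are coprime to `W`, so `t % W ∈ VV W m`; for each `v ∈ VV W m` the `t ≡ v` modulo `W`, `t ≡ m` modulo `s` are in one class modulo `W s` (`s > R > w`, coprime to `W`): `class_card` with the modulus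
`W s` gives at most `1 + 8 (H/(W s))/(rho (W s) log (H/(W s)))`; `rho (W s) ≥ rho W rho s ≥ rho W/2` (`rho_mul_ge`), `W rho W = φ(W)` (`rho_eq`), and `H/(W s) ≥ R/W - 1`, so
`log (H/(W s)) ≥ (log H)/5` for large `R`. Together `≤ w log H + #VV (log H + 80 H/(s φ(W)))`, and `H/s ≥ R` is large in terms of `w` and `log H`. -/
theorem A_bound_e (w : ℕ) (hw : 2 ≤ w) : ∃ R₀ : ℕ, ∀ R s m : ℕ, R₀ ≤ R → s ∈ IS R →
    1 ≤ #(VV (primorial w) m) →
    ∑ t ∈ Icc 1 (2 * R ^ 2), FE (2 * R ^ 2) (primorial w) s m t ≤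
      400 * ((2 * R ^ 2 : ℕ) : ℝ) / s * (#(VV (primorial w) m) : ℝ) / Nat.totient (primorial w) := by
  classical
  set W := primorial w with hW
  have hWpos : 0 < W := primorial_pos w
  have hWr : (1 : ℝ) ≤ W := by exact_mod_cast hWpos
  refine ⟨(2 * W * (w + 1)) ^ 2, fun R s m hR hs hV => ?_⟩
  obtain ⟨⟨hs1, hs2⟩, hsp⟩ := mem_prI.1 hs
  set φ : ℝ := (Nat.totient W : ℝ) with hφ
  have hφ0 : 0 < φ := by
    rw [hφ]
    exact_mod_cast Nat.totient_pos.2 hWpos
  have hφW : φ ≤ W := by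
    rw [hφ]
    exact_mod_cast Nat.totient_le W
  have hwr : (2 : ℝ) ≤ w := by exact_mod_cast hw
  -- the square root of `R`
  have hRr : (2 * (W : ℝ) * (w + 1)) ^ 2 ≤ R := by exact_mod_cast hR
  set r : ℝ := √(R : ℝ) with hr
  have hr1 : 2 * (W : ℝ) * (w + 1) ≤ r := by
    rw [hr]
    exact Real.le_sqrt_of_sq_le hRr
  have hr0 : 6 ≤ r := by nlinarith
  have hr3 : 2 * (W : ℝ) ≤ r := by nlinarith
  have hrr : r * r = R := Real.mul_self_sqrt (Nat.cast_nonneg R)
  have hR0 : (0 : ℝ) < R := by nlinarith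
  have hR36 : (36 : ℝ) ≤ R := by nlinarith
  have hsR : (R : ℝ) < s := by exact_mod_cast hs1
  have hs2R : (s : ℝ) ≤ 2 * R := by exact_mod_cast hs2
  have hs0 : (0 : ℝ) < s := hR0.trans hsR
  have hwR : w < R := by
    have h1 : (w : ℝ) < R := by nlinarith
    exact_mod_cast h1
  set H : ℕ := 2 * R ^ 2 with hH
  have hHr : (H : ℝ) = 2 * (R : ℝ) ^ 2 := by
    rw [hH]
    push_cast
    ring
  have hH0 : (0 : ℝ) < H := by
    rw [hHr]
    positivity
  have hHs : (R : ℝ) ≤ (H : ℝ) / s := by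
    rw [le_div_iff₀ hs0, hHr]
    nlinarith
  have hcop : Nat.Coprime W s := by
    rw [hW]
    unfold primorial
    refine Nat.Coprime.prod_left fun q hq => ?_
    rw [Finset.mem_filter, Finset.mem_range] at hq
    refine (Nat.coprime_primes hq.2 hsp).2 ?_
    omega
  set N : ℕ := W * s with hN
  have hNpos : 0 < N := Nat.mul_pos hWpos hsp.pos
  have hNr : (N : ℝ) = W * s := by
    rw [hN]
    push_cast
    ring
  have hN0 : (0 : ℝ) < N := by exact_mod_cast hNpos
  have hHN : (H : ℝ) / N = (H : ℝ) / s / W := by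
    rw [hNr]
    field_simp
  have hx1 : r ≤ ((H / N : ℕ) : ℝ) := by
    have h1 : (H : ℝ) / N < ((H / N : ℕ) : ℝ) + 1 := by
      rw [div_lt_iff₀ hN0]
      have h2 : H < (H / N + 1) * N := by
        rw [add_mul, one_mul, mul_comm]
        have h3 := Nat.div_add_mod H N
        have h4 := Nat.mod_lt H hNpos
        omega
      exact_mod_cast h2
    have h2 : 2 * r ≤ (H : ℝ) / N := by
      rw [hHN, le_div_iff₀ (by linarith)]
      refine le_trans ?_ hHs
      rw [← hrr]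
      nlinarith
    linarith
  have hx2 : 2 ≤ H / N := by
    have h1 : (2 : ℝ) ≤ ((H / N : ℕ) : ℝ) := by linarith
    exact_mod_cast h1
  have hxle : ((H / N : ℕ) : ℝ) ≤ (H : ℝ) / N := Nat.cast_div_le
  have hlogR : 0 < Real.log R := Real.log_pos (by linarith)
  have hlogH3 : Real.log H ≤ 3 * Real.log R := by
    rw [hHr, Real.log_mul (by norm_num) (by positivity), Real.log_pow]
    have h1 : Real.log 2 ≤ Real.log R := Real.log_le_log (by norm_num) (by linarith)
    push_cast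
    linarith
  have hlogH : 0 < Real.log H := by
    refine Real.log_pos ?_
    rw [hHr]
    nlinarith
  have hlogx : Real.log R / 2 ≤ Real.log ((H / N : ℕ) : ℝ) := by
    have h1 : Real.log r ≤ Real.log ((H / N : ℕ) : ℝ) := Real.log_le_log (by linarith) hx1
    rwa [hr, Real.log_sqrt (Nat.cast_nonneg R)] at h1
  have hlog2 : Real.log R ≤ 2 * r := log_le_two_sqrt hR0
  have hrho : φ / (2 * W) ≤ rho N := by
    have h1 : rho W * rho s ≤ rho N := rho_mul_ge W s hWpos.ne' hsp.ne_zero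
    have h2 : (1 : ℝ) / 2 ≤ rho s := by
      unfold rho
      rw [hsp.primeFactors, Finset.prod_singleton]
      have h3 : 1 / (s : ℝ) ≤ 1 / 2 := one_div_le_one_div_of_le (by norm_num) (by linarith)
      linarith
    have h3 : rho W = φ / W := AC.rho_eq W hWpos.ne'
    have h4 : φ / (2 * W) = rho W * (1 / 2) := by
      rw [h3]
      field_simp
    rw [h4]
    exact (mul_le_mul_of_nonneg_left h2 (rho_pos W).le).trans h1
  set K : ℝ := 1 + 8 * ((H / N : ℕ) : ℝ) / (rho N * Real.log ((H / N : ℕ) : ℝ)) with hK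
  -- the set
  set V := VV W m with hVdef
  have hset : ((Icc 1 H).filter fun t : ℕ => t.Prime ∧ t ≡ m [MOD s] ∧ IsCoprime (((1 * m : ℕ) : ℤ) - (t : ℤ)) (W : ℤ)) ⊆
      Icc 1 w ∪ V.biUnion fun v => {t ∈ Icc 1 H | t.Prime ∧ t ≡ (Nat.chineseRemainder hcop v m : ℕ) [MOD N]} := by
    intro t ht
    rw [Finset.mem_filter, Finset.mem_Icc] at ht
    obtain ⟨⟨ht1, ht2⟩, ht3, ht5, ht4⟩ := ht
    rw [Finset.mem_union, Finset.mem_Icc, Finset.mem_biUnion]
    by_cases htw : t ≤ w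
    · exact Or.inl ⟨ht1, htw⟩
    · right
      push Not at htw
      have htW : Nat.Coprime t W := by
        rw [hW]
        unfold primorial
        refine Nat.Coprime.prod_right fun p hp => ?_
        rw [Finset.mem_filter, Finset.mem_range] at hp
        refine (Nat.coprime_primes ht3 hp.2).2 ?_
        omega
      have hv2 : t % W ≡ t [MOD W] := Nat.mod_modEq t W
      refine ⟨t % W, ?_, ?_⟩
      · rw [hVdef]
        unfold VV
        rw [Finset.mem_filter, Finset.mem_range]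
        refine ⟨Nat.mod_lt t hWpos, ?_, ?_⟩
        · rw [Nat.Coprime, hv2.gcd_eq]
          exact htW
        · rw [one_mul] at ht4
          refine (AC.icop_congr ?_).1 ht4
          exact Int.ModEq.sub rfl ((Int.natCast_modEq_iff).2 hv2.symm)
      · rw [Finset.mem_filter, Finset.mem_Icc]
        refine ⟨⟨ht1, ht2⟩, ht3, ?_⟩
        obtain ⟨hc1, hc2⟩ := (Nat.chineseRemainder hcop (t % W) m).2
        rw [hN]
        exact (Nat.modEq_and_modEq_iff_modEq_mul hcop).1 ⟨hv2.symm.trans hc1.symm, ht5.trans hc2.symm⟩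
  have hcard : (#((Icc 1 H).filter fun t : ℕ => t.Prime ∧ t ≡ m [MOD s] ∧
      IsCoprime (((1 * m : ℕ) : ℤ) - (t : ℤ)) (W : ℤ)) : ℝ) ≤ w + (#V : ℝ) * K := by
    have h1 := (Finset.card_le_card hset).trans (Finset.card_union_le _ _)
    have h2 : #(V.biUnion fun v => {t ∈ Icc 1 H | t.Prime ∧ t ≡ (Nat.chineseRemainder hcop v m : ℕ) [MOD N]}) ≤
        ∑ v ∈ V, #{t ∈ Icc 1 H | t.Prime ∧ t ≡ (Nat.chineseRemainder hcop v m : ℕ) [MOD N]} := Finset.card_biUnion_le
    have h3 : ∑ v ∈ V, (#{t ∈ Icc 1 H | t.Prime ∧ t ≡ (Nat.chineseRemainder hcop v m : ℕ) [MOD N]} : ℝ) ≤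
        (#V : ℝ) * K := by
      rw [← nsmul_eq_mul]
      exact Finset.sum_le_card_nsmul _ _ _ fun v _ => AC.class_card N _ H hNpos hx2
    have h4 : (#((Icc 1 H).filter fun t : ℕ => t.Prime ∧ t ≡ m [MOD s] ∧
        IsCoprime (((1 * m : ℕ) : ℤ) - (t : ℤ)) (W : ℤ)) : ℝ) ≤
        (#(Icc 1 w) : ℝ) + ∑ v ∈ V, (#{t ∈ Icc 1 H | t.Prime ∧ t ≡ (Nat.chineseRemainder hcop v m : ℕ) [MOD N]} : ℝ) := by
      exact_mod_cast h1.trans (Nat.add_le_add_left h2 _)
    rw [Nat.card_Icc, Nat.add_sub_cancel] at h4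
    linarith
  have hsum : ∑ t ∈ Icc 1 H, FE H W s m t ≤ Real.log H * (w + (#V : ℝ) * K) := by
    have h1 : ∀ t ∈ Icc 1 H, FE H W s m t ≤
        if ((t : ℕ).Prime ∧ t ≡ m [MOD s] ∧ IsCoprime (((1 * m : ℕ) : ℤ) - (t : ℤ)) (W : ℤ)) then Real.log H else 0 := by
      intro t _
      unfold FE
      by_cases hts : t ≡ m [MOD s]
      · rw [if_pos hts]
        by_cases hc : IsCoprime (((1 * m : ℕ) : ℤ) - (t : ℤ)) (W : ℤ)
        · by_cases hp : t.Prime
          · have h5 : (if (t.Prime ∧ t ≡ m [MOD s] ∧ IsCoprime (((1 * m : ℕ) : ℤ) - (t : ℤ)) (W : ℤ)) then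
                Real.log (H : ℝ) else 0) = Real.log H := if_pos ⟨hp, hts, hc⟩
            rw [h5]
            refine (AC.FC_le _ _ _ _ _).trans ?_
            unfold fP
            split_ifs
            · exact le_rfl
            · exact hlogH.le
          · have h5 : (if (t.Prime ∧ t ≡ m [MOD s] ∧ IsCoprime (((1 * m : ℕ) : ℤ) - (t : ℤ)) (W : ℤ)) then
                Real.log (H : ℝ) else 0) = 0 := if_neg fun h => hp h.1
            rw [h5]
            refine (AC.FC_le _ _ _ _ _).trans (le_of_eq ?_)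
            unfold fP
            rw [if_neg]
            rintro ⟨-, -, h⟩
            exact hp (by simpa using h)
        · have h5 : (if (t.Prime ∧ t ≡ m [MOD s] ∧ IsCoprime (((1 * m : ℕ) : ℤ) - (t : ℤ)) (W : ℤ)) then
              Real.log (H : ℝ) else 0) = 0 := if_neg fun h => hc h.2.2
          rw [h5]
          unfold FC
          rw [if_neg hc]
      · rw [if_neg hts]
        split_ifs
        · exact hlogH.le
        · exact le_rfl
    refine (Finset.sum_le_sum h1).trans ?_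
    rw [← Finset.sum_filter, Finset.sum_const, nsmul_eq_mul, mul_comm]
    exact mul_le_mul_of_nonneg_left hcard hlogH.le
  refine hsum.trans ?_
  have hV1 : (1 : ℝ) ≤ (#V : ℝ) := by exact_mod_cast hV
  set h : ℝ := (H : ℝ) / s with hh
  have hh0 : 0 < h := by
    rw [hh]
    positivity
  have hKb : Real.log H * K ≤ Real.log H + 96 * h / φ := by
    have hx0 : (0 : ℝ) < ((H / N : ℕ) : ℝ) := by linarith
    have hlx : 0 < Real.log ((H / N : ℕ) : ℝ) := by linarith
    have hrho0 : 0 < φ / (2 * W) := by positivity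
    have h1 : Real.log H * (8 * ((H / N : ℕ) : ℝ) / (rho N * Real.log ((H / N : ℕ) : ℝ))) ≤ 96 * h / φ := by
      have h2 : 8 * ((H / N : ℕ) : ℝ) / (rho N * Real.log ((H / N : ℕ) : ℝ)) ≤
          8 * ((H : ℝ) / N) / (φ / (2 * W) * (Real.log H / 6)) := by
        have h6 : Real.log H / 6 ≤ Real.log ((H / N : ℕ) : ℝ) := by linarith
        exact div_le_div₀ (by positivity) (by linarith) (by positivity)
          (mul_le_mul hrho h6 (by positivity) (rho_pos N).le)
      have h3 : Real.log H * (8 * ((H : ℝ) / N) / (φ / (2 * W) * (Real.log H / 6))) = 96 * h / φ := by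
        rw [hHN]
        field_simp
        ring
      calc Real.log H * (8 * ((H / N : ℕ) : ℝ) / (rho N * Real.log ((H / N : ℕ) : ℝ))) ≤
          Real.log H * (8 * ((H : ℝ) / N) / (φ / (2 * W) * (Real.log H / 6))) :=
            mul_le_mul_of_nonneg_left h2 hlogH.le
        _ = 96 * h / φ := h3
    rw [hK, mul_add, mul_one]
    linarith
  have hsmall : ((w : ℝ) + 1) * Real.log H ≤ 300 * h / φ := by
    have h1 : 300 * h / W ≤ 300 * h / φ := div_le_div_of_nonneg_left (by positivity) hφ0 hφW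
    refine le_trans ?_ h1
    rw [le_div_iff₀ (by linarith)]
    have h2 : Real.log H ≤ 6 * r := by linarith
    calc ((w : ℝ) + 1) * Real.log H * W ≤ ((w : ℝ) + 1) * (6 * r) * W := by gcongr
      _ = 3 * (2 * (W : ℝ) * (w + 1)) * r := by ring
      _ ≤ 3 * r * r := by gcongr
      _ = 3 * (R : ℝ) := by rw [mul_assoc, hrr]
      _ ≤ 300 * h := by linarith
  calc Real.log H * (w + (#V : ℝ) * K) = w * Real.log H + (#V : ℝ) * (Real.log H * K) := by ring
    _ ≤ (#V : ℝ) * (w * Real.log H) + (#V : ℝ) * (Real.log H + 96 * h / φ) := by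
        refine add_le_add ?_ (mul_le_mul_of_nonneg_left hKb (by linarith))
        have : 0 ≤ (w : ℝ) * Real.log H := by positivity
        nlinarith
    _ = (#V : ℝ) * (((w : ℝ) + 1) * Real.log H + 96 * h / φ) := by ring
    _ ≤ (#V : ℝ) * (300 * h / φ + 96 * h / φ) := by
        apply mul_le_mul_of_nonneg_left _ (by linarith)
        linarith
    _ = 396 * (h * (#V : ℝ) / φ) := by ring
    _ ≤ 400 * (h * (#V : ℝ) / φ) := by
        apply mul_le_mul_of_nonneg_right (by norm_num)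
        positivity
    _ = 400 * (H : ℝ) / s * (#V : ℝ) / φ := by
        rw [hh]
        ring

end Pool.Agent.Lib.MP_bae66e_nt.E2
end

section

/-!
# Row H1c: the energy of the weights, summed over the classes modulo `s` (compare AC/RowD)
-/

set_option autoImplicit false

namespace Pool.Agent.Lib.MP_bae66e_nt.E2

open Finset MeasureTheory Real
open Pool.Agent.E3
open Pool.Agent.Lib.MP_bae66e_nt.AP3 (prI mem_prI)

open Pool.Agent.Lib.MP_bae66e_nt.LL (fP)
open Pool.Agent.Lib.MP_bae66e_nt.AC (SD sg Ek VV Sg FC)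

private lemma H1c_term (W s c₀ H b t : ℕ) (c : ℕ → ℕ) (h1 : c b ≡ b [MOD s]) (h2 : c b ≡ c₀ [MOD W]) (hb : b < s) :
    |FE H W s (c b) t| = if b = t % s then FC H W 1 c₀ t else 0 := by
  rw [abs_of_nonneg (FE_bounds H W s (c b) t).1]
  unfold FE
  have h3 : t ≡ c b [MOD s] ↔ b = t % s := by
    constructor
    · intro h
      have h4 : t ≡ b [MOD s] := h.trans h1
      have h5 : t % s = b % s := h4
      rw [h5, Nat.mod_eq_of_lt hb]
    · intro h
      have h4 : t ≡ b [MOD s] := by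
        show t % s = b % s
        rw [Nat.mod_eq_of_lt hb, ← h]
      exact h4.trans h1.symm
  by_cases h : t ≡ c b [MOD s]
  · rw [if_pos h, if_pos (h3.1 h)]
    exact AC.FC_congr H W 1 (c b) c₀ t h2
  · rw [if_neg h, if_neg (fun h4 => h (h3.2 h4))]

private lemma H1c_sum (H W s k c₀ : ℕ) (c : ℕ → ℕ) (hs : 0 < s) (hks : Nat.Coprime k s)
    (hc : ∀ b ∈ range s, c b ≡ b [MOD s] ∧ c b ≡ c₀ [MOD W]) :
    ∑ b ∈ range s, Ek H k (fun t => |FE H W s (c b) t|) = Ek H (k * s) (FC H W 1 c₀) := by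
  unfold Ek
  rw [Finset.sum_comm]
  refine Finset.sum_congr rfl fun t _ => ?_
  rw [Finset.sum_comm]
  refine Finset.sum_congr rfl fun t' _ => ?_
  by_cases hk : t ≡ t' [MOD k]
  · have h1 : ∀ b ∈ range s, (if t ≡ t' [MOD k] then |FE H W s (c b) t| * |FE H W s (c b) t'| else 0) =
        if b = t % s then (if t % s = t' % s then FC H W 1 c₀ t * FC H W 1 c₀ t' else 0) else 0 := by
      intro b hb
      obtain ⟨h1, h2⟩ := hc b hb
      rw [if_pos hk, H1c_term W s c₀ H b t c h1 h2 (mem_range.1 hb), H1c_term W s c₀ H b t' c h1 h2 (mem_range.1 hb)]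
      by_cases h3 : b = t % s
      · by_cases h4 : t % s = t' % s
        · rw [if_pos h3, if_pos (h3.trans h4), if_pos h3, if_pos h4]
        · rw [if_pos h3, if_neg (fun h5 => h4 (h3.symm.trans h5)), if_pos h3, if_neg h4, mul_zero]
      · rw [if_neg h3, if_neg h3, zero_mul]
    rw [Finset.sum_congr rfl h1, Finset.sum_ite_eq' (range s) (t % s), if_pos (mem_range.2 (Nat.mod_lt t hs))]
    by_cases h4 : t % s = t' % s
    · have h5 : t ≡ t' [MOD k * s] := (Nat.modEq_and_modEq_iff_modEq_mul hks).1 ⟨hk, h4⟩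
      rw [if_pos h4, if_pos h5]
    · rw [if_neg h4, if_neg]
      intro h5
      exact h4 ((Nat.modEq_and_modEq_iff_modEq_mul hks).2 h5).2
  · have h1 : ∀ b ∈ range s, (if t ≡ t' [MOD k] then |FE H W s (c b) t| * |FE H W s (c b) t'| else 0) = 0 :=
      fun b _ => if_neg hk
    rw [Finset.sum_congr rfl h1, Finset.sum_const_zero, if_neg]
    intro h5
    exact hk ((Nat.modEq_and_modEq_iff_modEq_mul hks).2 h5).1

/-- PROOF. `FE H W s (c b) t = if t ≡ b [MOD s] then FC H W 1 c₀ t else 0` (`FC_congr`). Exchange the sums: `∑_{b < s} [t ≡ b (s)] [t' ≡ b (s)] = [t ≡ t' (s)]`, and as `gcd (k, s) = 1` the two congruences `t ≡ t'` modulo `k`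
and modulo `s` are one modulo `k s` (`Nat.modEq_and_modEq_iff_modEq_mul`). So the sum is `Ek H (k s) (FC H W 1 c₀)`, and `Ek_bound` (AC/RowD; `FC_nonneg`, `FC_le`) with `rho (k s) ≥ rho k rho s ≥ rho k/2` gives the bound. -/
theorem Ek_sum_e : ∃ C : ℝ, 1 ≤ C ∧ ∀ (H W s k c₀ : ℕ) (c : ℕ → ℕ), 2 ≤ H → 1 ≤ k → s.Prime → Nat.Coprime k s →
    (∀ b ∈ range s, c b ≡ b [MOD s] ∧ c b ≡ c₀ [MOD W]) →
    ∑ b ∈ range s, Ek H k (fun t => |FE H W s (c b) t|) ≤
      H * (Real.log H) ^ 2 + C * (H : ℝ) ^ 2 / (s * (k * rho k ^ 2)) := by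
  obtain ⟨C, hC, hE⟩ := AC.Ek_bound
  refine ⟨4 * C, by linarith, ?_⟩
  intro H W s k c₀ c hH hk hs hks hc
  rw [H1c_sum H W s k c₀ c hs.pos hks hc]
  have hks1 : 1 ≤ k * s := Nat.mul_pos hk hs.pos
  refine (hE H (k * s) (FC H W 1 c₀) hH hks1 fun t _ => ⟨AC.FC_nonneg H W 1 c₀ t, AC.FC_le H W 1 c₀ t⟩).trans ?_
  have hrk : 0 < rho k := rho_pos k
  have hrs : (1 : ℝ) / 2 ≤ rho s := by
    unfold rho
    rw [Nat.Prime.primeFactors hs, Finset.prod_singleton]
    have h2 : (2 : ℝ) ≤ s := by exact_mod_cast hs.two_le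
    have h3 : 1 / (s : ℝ) ≤ 1 / 2 := one_div_le_one_div_of_le (by norm_num) h2
    linarith
  have hr : rho k / 2 ≤ rho (k * s) := by
    have h1 := rho_mul_ge k s (by omega) hs.ne_zero
    nlinarith
  have hk0 : (0 : ℝ) < k := by exact_mod_cast hk
  have hs0 : (0 : ℝ) < s := by exact_mod_cast hs.pos
  have hH0 : (0 : ℝ) < H := by exact_mod_cast (by omega : 0 < H)
  have h2 : C * (H : ℝ) ^ 2 / (((k * s : ℕ) : ℝ) * rho (k * s) ^ 2) ≤
      C * (H : ℝ) ^ 2 / (((k * s : ℕ) : ℝ) * (rho k / 2) ^ 2) := by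
    push_cast
    gcongr
  have h3 : C * (H : ℝ) ^ 2 / (((k * s : ℕ) : ℝ) * (rho k / 2) ^ 2) =
      4 * C * (H : ℝ) ^ 2 / (s * (k * rho k ^ 2)) := by
    push_cast
    field_simp
    ring
  linarith

end Pool.Agent.Lib.MP_bae66e_nt.E2
end

section

/-!
# Row H2a: the variance of the majorant for one `s`, the finite part (compare `H_finite` of AC/RowH)
-/

set_option autoImplicit false

namespace Pool.Agent.Lib.MP_bae66e_nt.E2

open Finset MeasureTheory Real
open Pool.Agent.E3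
open Pool.Agent.Lib.MP_bae66e_nt.AP3 (prI mem_prI)

open Pool.Agent.Lib.MP_bae66e_nt.LL (fP)
open Pool.Agent.Lib.MP_bae66e_nt.AC (SD sg Ek VV Sg FC Uc sum_e variance)

private lemma h2a_fP_le (H : ℕ) (t : ℤ) : fP H t ≤ Real.log H := by
  unfold fP
  split_ifs
  · exact le_rfl
  · exact Real.log_natCast_nonneg H

private lemma h2a_Ek_nonneg (H k : ℕ) (F : ℕ → ℝ) (hF : ∀ t, 0 ≤ F t) : 0 ≤ Ek H k F := by
  unfold Ek
  refine sum_nonneg fun t _ => sum_nonneg fun t' _ => ?_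
  split_ifs
  · exact mul_nonneg (hF t) (hF t')
  · exact le_rfl

/-- the two classes `m` modulo `W` and modulo `s` as one class modulo `W s` -/
private lemma h2a_filter (W s M c c₀ b : ℕ) (hc₀ : c₀ < W) (hb : b < s) (hco : Nat.Coprime W s)
    (h1 : c ≡ c₀ [MOD W]) (h2 : c ≡ b [MOD s]) :
    ((Icc M (2 * M)).filter fun m => m % W = c₀ ∧ m % s = b) =
      (Icc M (2 * M)).filter fun m => m ≡ c [MOD W * s] := by
  ext m
  simp only [mem_filter]
  refine and_congr_right fun _ => ?_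
  have hcW : c % W = c₀ := by
    unfold Nat.ModEq at h1
    rw [h1, Nat.mod_eq_of_lt hc₀]
  have hcs : c % s = b := by
    unfold Nat.ModEq at h2
    rw [h2, Nat.mod_eq_of_lt hb]
  constructor
  · rintro ⟨h3, h4⟩
    refine (Nat.modEq_and_modEq_iff_modEq_mul hco).1 ⟨?_, ?_⟩
    · unfold Nat.ModEq
      rw [h3, hcW]
    · unfold Nat.ModEq
      rw [h4, hcs]
  · intro h
    obtain ⟨h3, h4⟩ := (Nat.modEq_and_modEq_iff_modEq_mul hco).2 h
    unfold Nat.ModEq at h3 h4
    exact ⟨by rw [h3, hcW], by rw [h4, hcs]⟩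

/-- The finite part. PROOF. As `H_finite` (AC/RowH). Sum over the classes `c` modulo `W s` (`W = primorial w`, coprime to the prime `s > w`): in the class of `c` the function `FE H W s m` is `FE H W s c` (`FE_congr`); `variance` (AC/RowV) with the modulus
`W s`, the multiplier `1` and `F = FE H W s c` gives `((M+1)/(W s)) ∑_{e ≠ 1} Uc² ∑_{k ∣ e} k Ek H k |F| + 4 (∑ |F|)² T⁴`. Write the `W s` classes as pairs (class `c₀` modulo `W`, class `b` modulo `s`), `c b = Nat.chineseRemainder ..`; for each `c₀` apply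
`sum_e` (AC/RowE) with `L = H (log H)²`, `Q = CE H²/s` and `E k = if Nat.Coprime k s then ∑_b Ek H k |FE (c b)| else 0` (`Ek_sum_e`): the `k ∣ e ∣ sProd D T` are coprime to `s ∣ D` (`coprime_sProd`). `∑ |F| ≤ H log H`. -/
theorem finite_e : ∃ K CE : ℝ, 1 ≤ K ∧ 1 ≤ CE ∧ ∀ (D T w : ℕ) (G : ℝ) (lam : ℕ → ℝ), SD (sProd D T) T G lam → 1 ≤ w → 3 ≤ T → D ≠ 0 →
    primorial w ∣ D → ∀ s M H : ℕ, s.Prime → w < s → s ∣ D → 2 ≤ H → H ≤ M → 1 ≤ M →
    ∑ m ∈ Icc M (2 * M), ((∑ t ∈ Icc 1 H, FE H (primorial w) s m t * sg (sProd D T) lam (1 * m - t)) -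
      (∑ t ∈ Icc 1 H, FE H (primorial w) s m t) / G) ^ 2 ≤
    ((M : ℝ) + 1) / s * (1 / G ^ 2 * (K * (Real.log T) ^ K * (H * (Real.log H) ^ 2) + K * (CE * (H : ℝ) ^ 2 / s) / w)) +
      4 * (primorial w * s) * (H * Real.log H) ^ 2 * (T : ℝ) ^ 4 := by
  classical
  obtain ⟨CE, hCE, hEk⟩ := Ek_sum_e
  obtain ⟨K, hK, hSE⟩ := sum_e
  refine ⟨K, CE, hK, hCE, ?_⟩
  intro D T w G lam hsd hw hT hD hWD s M H hsp hws hsD hH hHM hM
  have hW : 1 ≤ primorial w := primorial_pos w
  have hcoWs : Nat.Coprime (primorial w) s := by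
    rw [Nat.coprime_comm, hsp.coprime_iff_not_dvd, hsp.dvd_primorial_iff]
    omega
  have hcoPD := coprime_sProd D T
  have hcoPW : Nat.Coprime (sProd D T) (primorial w) := Nat.Coprime.coprime_dvd_right hWD hcoPD
  have hcoPs : Nat.Coprime (sProd D T) s := Nat.Coprime.coprime_dvd_right hsD hcoPD
  have hcoP : Nat.Coprime (sProd D T) (primorial w * s) := Nat.Coprime.mul_right hcoPW hcoPs
  set W := primorial w with hWdef
  set P := sProd D T with hPdef
  have hs1 : 1 ≤ s := hsp.one_lt.le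
  have hW0 : (0 : ℝ) < W := by exact_mod_cast hW
  have hs0 : (0 : ℝ) < s := by exact_mod_cast hs1
  have hWs : 1 ≤ W * s := Nat.mul_pos hW hs1
  have hwr : (0 : ℝ) < w := by exact_mod_cast hw
  have hlH : 0 ≤ Real.log H := Real.log_natCast_nonneg H
  set S : ℝ := 1 / G ^ 2 * (K * (Real.log T) ^ K * (H * (Real.log H) ^ 2) + K * (CE * (H : ℝ) ^ 2 / s) / w) with hS
  set Fm : ℕ → ℝ := fun m => ((∑ t ∈ Icc 1 H, FE H W s m t * sg P lam (1 * m - t)) -
      (∑ t ∈ Icc 1 H, FE H W s m t) / G) ^ 2 with hFm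
  -- the class of (c₀, b)
  set cc : ℕ → ℕ → ℕ := fun c₀ b => (Nat.chineseRemainder hcoWs c₀ b : ℕ) with hcc
  have hcc1 : ∀ c₀ b, cc c₀ b ≡ c₀ [MOD W] := fun c₀ b => (Nat.chineseRemainder hcoWs c₀ b).2.1
  have hcc2 : ∀ c₀ b, cc c₀ b ≡ b [MOD s] := fun c₀ b => (Nat.chineseRemainder hcoWs c₀ b).2.2
  have hcl : ∀ c₀ ∈ range W, ∀ b ∈ range s,
      ∑ m ∈ (Icc M (2 * M)).filter (fun m => m % W = c₀ ∧ m % s = b), Fm m ≤
        ((M : ℝ) + 1) / (W * s) * (∑ e ∈ P.divisors with e ≠ 1, (Uc P lam e) ^ 2 *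
          ∑ k ∈ e.divisors, (k : ℝ) * Ek H k (fun t => |FE H W s (cc c₀ b) t|)) +
        4 * (H * Real.log H) ^ 2 * (T : ℝ) ^ 4 := by
    intro c₀ hc₀ b hb
    rw [h2a_filter W s M (cc c₀ b) c₀ b (mem_range.1 hc₀) (mem_range.1 hb) hcoWs (hcc1 c₀ b) (hcc2 c₀ b)]
    have h1 : ∑ m ∈ (Icc M (2 * M)).filter (fun m => m ≡ cc c₀ b [MOD W * s]), Fm m =
        ∑ m ∈ Icc M (2 * M) with m ≡ cc c₀ b [MOD W * s],
          ((∑ t ∈ Icc 1 H, FE H W s (cc c₀ b) t * sg P lam (1 * m - t)) -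
            (∑ t ∈ Icc 1 H, FE H W s (cc c₀ b) t) / G) ^ 2 := by
      refine sum_congr rfl fun m hm => ?_
      obtain ⟨h3, h4⟩ := (Nat.modEq_and_modEq_iff_modEq_mul hcoWs).2 (mem_filter.1 hm).2
      have h5 : ∀ t, FE H W s m t = FE H W s (cc c₀ b) t := fun t => FE_congr H W s m (cc c₀ b) t h3 h4
      simp only [hFm, h5]
    rw [h1]
    have h2 := variance hsd M (W * s) (cc c₀ b) 1 H (FE H W s (cc c₀ b)) (by omega) hWs hcoP
      (Nat.coprime_one_right _) le_rfl hHM hM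
    push_cast at h2
    refine h2.trans (add_le_add le_rfl ?_)
    have habs : ∀ t, |FE H W s (cc c₀ b) t| = FE H W s (cc c₀ b) t :=
      fun t => abs_of_nonneg (FE_bounds H W s (cc c₀ b) t).1
    have h3 : ∑ t ∈ Icc 1 H, |FE H W s (cc c₀ b) t| ≤ H * Real.log H := by
      calc ∑ t ∈ Icc 1 H, |FE H W s (cc c₀ b) t| ≤ ∑ _t ∈ Icc 1 H, Real.log H :=
            sum_le_sum fun t _ => by
              rw [habs]
              exact (FE_bounds H W s (cc c₀ b) t).2.1.trans (h2a_fP_le _ _)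
        _ = H * Real.log H := by rw [sum_const, Nat.card_Icc, nsmul_eq_mul, Nat.add_sub_cancel]
    have h4 : 0 ≤ ∑ t ∈ Icc 1 H, |FE H W s (cc c₀ b) t| := sum_nonneg fun t _ => abs_nonneg _
    refine mul_le_mul_of_nonneg_right ?_ (by positivity)
    exact mul_le_mul_of_nonneg_left (pow_le_pow_left₀ h4 h3 2) (by norm_num)
  -- the sum over b for one c₀
  have hc0 : ∀ c₀ ∈ range W, ∑ b ∈ range s,
      ∑ m ∈ (Icc M (2 * M)).filter (fun m => m % W = c₀ ∧ m % s = b), Fm m ≤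
        ((M : ℝ) + 1) / (W * s) * S + s * (4 * (H * Real.log H) ^ 2 * (T : ℝ) ^ 4) := by
    intro c₀ hc₀
    refine (sum_le_sum fun b hb => hcl c₀ hc₀ b hb).trans ?_
    rw [sum_add_distrib, ← mul_sum, sum_const, card_range, nsmul_eq_mul]
    refine add_le_add (mul_le_mul_of_nonneg_left ?_ (by positivity)) le_rfl
    have h1 : ∑ b ∈ range s, ∑ e ∈ P.divisors with e ≠ 1, (Uc P lam e) ^ 2 *
        ∑ k ∈ e.divisors, (k : ℝ) * Ek H k (fun t => |FE H W s (cc c₀ b) t|) =
        ∑ e ∈ P.divisors with e ≠ 1, (Uc P lam e) ^ 2 * ∑ k ∈ e.divisors, (k : ℝ) *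
          (if Nat.Coprime k s then ∑ b ∈ range s, Ek H k (fun t => |FE H W s (cc c₀ b) t|) else 0) := by
      rw [sum_comm]
      refine sum_congr rfl fun e he => ?_
      rw [← mul_sum, sum_comm]
      congr 1
      refine sum_congr rfl fun k hk => ?_
      have hke : k ∣ e := Nat.dvd_of_mem_divisors hk
      have heP : e ∣ P := Nat.dvd_of_mem_divisors (mem_filter.1 he).1
      have hks : Nat.Coprime k s := Nat.Coprime.coprime_dvd_left (hke.trans heP) hcoPs
      rw [if_pos hks, mul_sum]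
    rw [h1]
    refine hSE D T w G (H * (Real.log H) ^ 2) (CE * (H : ℝ) ^ 2 / s) lam _ hw hT hD hWD
      (by positivity) (by positivity) hsd fun k hk => ?_
    by_cases hks : Nat.Coprime k s
    · simp only [if_pos hks]
      refine ⟨sum_nonneg fun b _ => h2a_Ek_nonneg _ _ _ fun t => abs_nonneg _, ?_⟩
      have h2 := hEk H W s k c₀ (cc c₀) hH hk hsp hks fun b _ => ⟨hcc2 c₀ b, hcc1 c₀ b⟩
      rwa [← div_div] at h2
    · simp only [if_neg hks]
      exact ⟨le_rfl, by positivity⟩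
  -- all classes
  have hmaps : ∀ m ∈ Icc M (2 * M), (m % W, m % s) ∈ range W ×ˢ range s := fun m _ =>
    mem_product.2 ⟨mem_range.2 (Nat.mod_lt _ hW), mem_range.2 (Nat.mod_lt _ hs1)⟩
  have htot : ∑ m ∈ Icc M (2 * M), Fm m = ∑ c₀ ∈ range W, ∑ b ∈ range s,
      ∑ m ∈ (Icc M (2 * M)).filter (fun m => m % W = c₀ ∧ m % s = b), Fm m := by
    rw [← sum_fiberwise_of_maps_to hmaps, sum_product]
    refine sum_congr rfl fun c₀ _ => sum_congr rfl fun b _ => ?_
    refine sum_congr ?_ fun _ _ => rfl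
    ext m
    simp only [mem_filter, Prod.mk.injEq]
  change ∑ m ∈ Icc M (2 * M), Fm m ≤ _
  rw [htot]
  refine (sum_le_sum hc0).trans (le_of_eq ?_)
  rw [sum_const, card_range, nsmul_eq_mul]
  field_simp

end Pool.Agent.Lib.MP_bae66e_nt.E2
end
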