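import Pool.Agent.Lib.MP_bae66e_nt.Mg.G035
import Pool.Agent.Lib.MP_bae66e_nt.Mg.G037
import Pool.Agent.Lib.MP_bae66e_nt.Mg.G120
import Pool.Agent.Lib.MP_bae66e_nt.Mg.G032
import Pool.Agent.Lib.MP_bae66e_nt.Mg.G122
import Pool.Agent.Lib.MP_bae66e_nt.Mg.G030
import Pool.Agent.Lib.MP_bae66e_nt.Mg.G024

section

/-!
# Row J2: the first moment
-/

set_option autoImplicit false

namespace Pool.Agent.Lib.MP_bae66e_nt.EF

open Finset MeasureTheory Real
open Pool.Agent.E3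
open Pool.Agent.Lib.MP_bae66e_nt.E2 (YR FR PH)
open Pool.Agent.Lib.MP_bae66e_nt.LL (fP gW)
open Pool.Agent.Lib.MP_bae66e_nt.AC (Sg VV)
open Pool.Agent.Lib.MP_bae66e_nt.AP3 (prI mem_prI)

/-- the sum over the classes -/
private theorem J2_classes (g : ℕ → ℝ) (W m : ℕ) (hW : 1 ≤ W) (c B L A : ℝ)
    (h : ∀ v ∈ VV W m, |g v - B / (Nat.totient W * L) * A| ≤ c / Nat.totient W) :
    |(W : ℝ) / Nat.totient W * ∑ v ∈ VV W m, g v - Sg W m * (B / L * A)| ≤ Sg W m * c := by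
  have hφ : (0 : ℝ) < (Nat.totient W : ℝ) := by exact_mod_cast Nat.totient_pos.2 hW
  have hWr : (0 : ℝ) < (W : ℝ) := by exact_mod_cast hW
  have e1 : (W : ℝ) / Nat.totient W * ∑ v ∈ VV W m, g v - Sg W m * (B / L * A) =
      (W : ℝ) / Nat.totient W * ∑ v ∈ VV W m, (g v - B / (Nat.totient W * L) * A) := by
    rw [Finset.sum_sub_distrib, Finset.sum_const, nsmul_eq_mul, mul_sub]
    congr 1
    unfold Sg
    rw [← div_div]
    field_simp
  have e2 : |∑ v ∈ VV W m, (g v - B / (Nat.totient W * L) * A)| ≤ (#(VV W m) : ℝ) * (c / Nat.totient W) := by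
    refine (Finset.abs_sum_le_sum_abs _ _).trans ?_
    refine (Finset.sum_le_sum h).trans (le_of_eq ?_)
    rw [Finset.sum_const, nsmul_eq_mul]
  rw [e1, abs_mul, abs_of_nonneg (by positivity)]
  calc (W : ℝ) / Nat.totient W * |∑ v ∈ VV W m, (g v - B / (Nat.totient W * L) * A)|
      ≤ (W : ℝ) / Nat.totient W * ((#(VV W m) : ℝ) * (c / Nat.totient W)) :=
        mul_le_mul_of_nonneg_left e2 (by positivity)
    _ = Sg W m * c := by
        unfold Sg
        field_simp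

/-- Chebyshev -/
private theorem J2_cheb (S : Finset ℕ) (D : ℕ → ℝ) (b M : ℝ) (hb : 0 < b) (h : ∑ m ∈ S, (D m) ^ 2 ≤ M * b ^ 2) :
    (#{m ∈ S | b < |D m|} : ℝ) ≤ M := by
  have e1 : (#{m ∈ S | b < |D m|} : ℝ) * b ^ 2 ≤ ∑ m ∈ S, (D m) ^ 2 := by
    calc (#{m ∈ S | b < |D m|} : ℝ) * b ^ 2 = ∑ m ∈ S with b < |D m|, b ^ 2 := by
          rw [Finset.sum_const, nsmul_eq_mul]
      _ ≤ ∑ m ∈ S with b < |D m|, (D m) ^ 2 := by
          apply Finset.sum_le_sum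
          intro m hm
          have h := (Finset.mem_filter.1 hm).2
          rw [← sq_abs (D m)]
          exact pow_le_pow_left₀ hb.le h.le 2
      _ ≤ _ := Finset.sum_le_sum_of_subset_of_nonneg (Finset.filter_subset _ _)
          (fun _ _ _ => sq_nonneg _)
  exact le_of_mul_le_mul_right (e1.trans h) (by positivity)

/-- PROOF. As `fire_of` (E2/J). Let `W = primorial w`. For all but `≤ (δ/2) X` of the `m`, all `v < W` coprime to `W` satisfy `WINF` with `ε/2` and `δ/(2W)`; with `model_eq` (`fA_support`; `w ≤ R`, `w ≤ √X` by `parA`; `HR R ≤ X ≤ m`):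
`|∑ gW fA - (W/φ(W)) #VV (H/(φ(W) log X)) AA| ≤ (W/φ(W)) #VV (ε/2) H FR/φ(W) = (ε/2) Sg H FR`. And by `VAREG` with `η = δ ε²/8` and Chebyshev for all but `≤ (δ/2) X` of the `m`: `|∑ (fP - gW) fA| ≤ (ε/2) H FR ≤ (ε/2) Sg H FR`
(`one_le_Sg`, AC/RowI, for even `m`). -/
theorem firf_of (a : ℝ) (ha : 3 ≤ a) (h1 : WINF a) (h2 : VAREG a) : FIRF a := by
  classical
  intro ε δ hε hδ
  obtain ⟨w₀, hvar⟩ := h2 (δ * ε ^ 2 / 8) (by positivity)
  refine ⟨max w₀ 2, fun w hw => ?_⟩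
  have hw2 : 2 ≤ w := (le_max_right _ _).trans hw
  obtain ⟨X₁, hX₁⟩ := hvar w ((le_max_left _ _).trans hw)
  set W := primorial w with hW
  have hWpos : 0 < W := primorial_pos w
  have hWr : (0 : ℝ) < (W : ℝ) := by exact_mod_cast hWpos
  obtain ⟨X₂, hX₂⟩ := h1 W hWpos (ε / 2) (δ / (2 * W)) (by positivity) (by positivity)
  obtain ⟨X₃, hX₃⟩ := parA a w 1 ha one_pos
  refine ⟨max X₁ (max X₂ X₃), fun X hX R hPX α hα => ?_⟩
  have hXa : X₁ ≤ X := le_trans (le_max_left _ _) hX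
  have hXb : X₂ ≤ X := le_trans (le_trans (le_max_left _ _) (le_max_right _ _)) hX
  have hXc : X₃ ≤ X := le_trans (le_trans (le_max_right _ _) (le_max_right _ _)) hX
  obtain ⟨p1, -, -, -, p5, p6, -, -, -, p10, -, -, p13, -, -, -, p17, -, -, -⟩ := hX₃ X hXc R hPX
  have hwR : w ≤ R := by exact_mod_cast p5
  have hwX : w ≤ Nat.sqrt X := by omega
  have hXr : (0 : ℝ) < (X : ℝ) := by exact_mod_cast (by omega : 0 < X)
  have hR0 : (0 : ℝ) < (R : ℝ) := by exact_mod_cast (by omega : 0 < R)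
  have hH0 : (0 : ℝ) < (HR R : ℝ) := by
    unfold HR
    push_cast
    positivity
  have hV := hX₁ X hXa R hPX α hα
  have hWin := hX₂ X hXb R hPX α hα
  set H := HR R with hH
  set B : ℝ := H * FR R X with hB
  have hBpos : 0 < B := mul_pos hH0 p17
  -- the exceptional sets
  set E : ℕ → Finset ℕ := fun v => {m ∈ Icc X (2 * X) | ε / 2 * B / Nat.totient W <
      |∑ n ∈ (Ico (m - H) m).filter (fun n => n ≡ v [MOD W]), fA α R X n
        - H / (Nat.totient W * Real.log X) * AA α R X (Real.log m)|} with hE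
  set D : ℕ → ℝ := fun m => ∑ t ∈ Icc 1 H, (fP H (t : ℤ) - gW W H (t : ℤ)) * fA α R X (m - t) with hD
  set Z : Finset ℕ := {m ∈ Icc X (2 * X) | ε / 2 * B < |D m|} with hZ
  set V : Finset ℕ := {v ∈ range W | Nat.Coprime v W} with hVd
  have hEcard : ∀ v ∈ V, ((E v).card : ℝ) ≤ δ / (2 * W) * X := by
    intro v hv
    have hv' := (Finset.mem_filter.1 hv).2
    exact hWin v hv'
  have hZcard : (Z.card : ℝ) ≤ δ / 2 * X := by
    refine J2_cheb (Icc X (2 * X)) D (ε / 2 * B) (δ / 2 * X) (by positivity) ?_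
    refine hV.trans (le_of_eq ?_)
    ring
  have hsub : ({m ∈ Icc X (2 * X) | Even m ∧ ε * (Sg W m * B) <
      |∑ t ∈ Icc 1 H, fP H (t : ℤ) * fA α R X (m - t)
        - Sg W m * (H / Real.log X * AA α R X (Real.log m))|} : Finset ℕ) ⊆ V.biUnion E ∪ Z := by
    intro m hm
    obtain ⟨hm1, hm2, hm3⟩ := Finset.mem_filter.1 hm
    by_contra hcon
    rw [Finset.mem_union, not_or] at hcon
    obtain ⟨hc1, hc2⟩ := hcon
    have hmX : X ≤ m := (Finset.mem_Icc.1 hm1).1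
    have hcl : ∀ v ∈ VV W m, |∑ n ∈ (Ico (m - H) m).filter (fun n => n ≡ v [MOD W]), fA α R X n
        - H / (Nat.totient W * Real.log X) * AA α R X (Real.log m)| ≤ ε / 2 * B / Nat.totient W := by
      intro v hv
      have hv' : v ∈ V := by
        rw [hVd, Finset.mem_filter]
        unfold VV at hv
        rw [Finset.mem_filter] at hv
        exact ⟨hv.1, hv.2.1⟩
      have h5 : m ∉ E v := fun h => hc1 (Finset.mem_biUnion.2 ⟨_, hv', h⟩)
      rw [hE] at h5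
      simp only [Finset.mem_filter, not_and, not_lt] at h5
      exact h5 hm1
    have key := J2_classes (fun v => ∑ n ∈ (Ico (m - H) m).filter (fun n => n ≡ v [MOD W]), fA α R X n)
      W m hWpos (ε / 2 * B) H (Real.log X) (AA α R X (Real.log m)) hcl
    have hmod := model_eq (fA α R X) W m H hWpos (by omega)
      (fun n hn => fA_support α R X w n hwR hwX hn)
    rw [← hmod] at key
    have hD1 : |D m| ≤ ε / 2 * B := by
      by_contra h
      exact hc2 (Finset.mem_filter.2 ⟨hm1, not_le.1 h⟩)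
    have hD2 : ∑ t ∈ Icc 1 H, fP H (t : ℤ) * fA α R X (m - t) =
        D m + ∑ t ∈ Icc 1 H, gW W H (t : ℤ) * fA α R X (m - t) := by
      rw [hD, ← Finset.sum_add_distrib]
      apply Finset.sum_congr rfl
      intro t _
      ring
    have hSg : 1 ≤ Sg W m := (Pool.Agent.Lib.MP_bae66e_nt.AC.one_le_Sg w m hw2 hm2).1
    have hSB : ε / 2 * B ≤ Sg W m * (ε / 2 * B) := le_mul_of_one_le_left (by positivity) hSg
    rw [hD2, add_sub_assoc] at hm3
    have h7 := abs_add_le (D m) (∑ t ∈ Icc 1 H, gW W H (t : ℤ) * fA α R X (m - t)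
      - Sg W m * (H / Real.log X * AA α R X (Real.log m)))
    have h8 : ε * (Sg W m * B) = Sg W m * (ε / 2 * B) + Sg W m * (ε / 2 * B) := by ring
    linarith
  have hVcard : (V.card : ℝ) ≤ W := by
    have : V.card ≤ (range W).card := Finset.card_filter_le _ _
    rw [Finset.card_range] at this
    exact_mod_cast this
  calc (#{m ∈ Icc X (2 * X) | Even m ∧ ε * (Sg W m * B) <
      |∑ t ∈ Icc 1 H, fP H (t : ℤ) * fA α R X (m - t)
        - Sg W m * (H / Real.log X * AA α R X (Real.log m))|} : ℝ)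
      ≤ ((V.biUnion E ∪ Z).card : ℝ) := by exact_mod_cast Finset.card_le_card hsub
    _ ≤ ((V.biUnion E).card : ℝ) + (Z.card : ℝ) := by exact_mod_cast Finset.card_union_le _ _
    _ ≤ (∑ v ∈ V, ((E v).card : ℝ)) + (Z.card : ℝ) := by
        have : (V.biUnion E).card ≤ ∑ v ∈ V, (E v).card := Finset.card_biUnion_le
        have h' : ((V.biUnion E).card : ℝ) ≤ ∑ v ∈ V, ((E v).card : ℝ) := by exact_mod_cast this
        linarith
    _ ≤ (∑ v ∈ V, δ / (2 * W) * X) + δ / 2 * X := by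
        have := Finset.sum_le_sum hEcard
        linarith
    _ = (V.card : ℝ) * (δ / (2 * W) * X) + δ / 2 * X := by rw [Finset.sum_const, nsmul_eq_mul]
    _ ≤ (W : ℝ) * (δ / (2 * W) * X) + δ / 2 * X := by
        have := mul_le_mul_of_nonneg_right hVcard (by positivity : 0 ≤ δ / (2 * W) * X)
        linarith
    _ = δ * X := by
        field_simp
        ring

end Pool.Agent.Lib.MP_bae66e_nt.EF
end

section

/-!
# Row Q1: the majorants of the number of representations with a given `r` (port of E2/H2b)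
-/

set_option autoImplicit false

namespace Pool.Agent.Lib.MP_bae66e_nt.EF

open Finset MeasureTheory Real
open Pool.Agent.E3
open Pool.Agent.Lib.MP_bae66e_nt.E2
open Pool.Agent.Lib.MP_bae66e_nt.AP3 (prI mem_prI)

open Pool.Agent.Lib.MP_bae66e_nt.LL (fP)
open Pool.Agent.Lib.MP_bae66e_nt
open Pool.Agent.Lib.MP_bae66e_nt.AC (SD sg Ek VV Sg FC Uc exists_SD rho_D mertens_W)

/-- the final numerical estimate -/
private lemma Q1_final {X l H lh tK G K CE g W T w η R s : ℝ} (hX : 1 ≤ X) (hl : 1 ≤ l) (hR : 1 ≤ R) (hs1 : R ≤ s)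
    (hs2 : s ≤ 2 * R) (hH : H = 2 * R ^ 2)
    (htK : 0 ≤ tK) (hK : 0 ≤ K) (hCE : 0 ≤ CE) (hg : 0 < g) (hw : 0 < w) (hW : 0 ≤ W)
    (hG : g * l / 32 ≤ G) (hA : tK * lh ^ 2 * l ≤ 2 * R) (hA2 : 6144 * K ≤ η * (g ^ 2 * l))
    (hB : 6144 * K * CE ≤ η * (g ^ 2 * w)) (hC : 24 * W * R ^ 3 * lh ^ 2 * l ^ 2 * T ^ 4 ≤ η * X) :
    (X + 1) / s * (1 / G ^ 2 * (K * tK * (H * lh ^ 2) + K * (CE * H ^ 2 / s) / w)) +
      4 * (W * s) * (H * lh) ^ 2 * T ^ 4 ≤ η * X * (H / (R * l)) ^ 2 := by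
  have hl0 : 0 < l := by linarith
  have hR0 : 0 < R := by linarith
  have hs0 : 0 < s := by linarith
  have hH0 : 0 < H := by rw [hH]; positivity
  have hgl : 0 < g * l := mul_pos hg hl0
  have hGi : 1 / G ^ 2 ≤ 1024 / (g ^ 2 * l ^ 2) := by
    rw [div_le_div_iff₀ (by nlinarith [sq_nonneg G, hG, hgl]) (by positivity)]
    have h1 : (g * l / 32) ^ 2 ≤ G ^ 2 := pow_le_pow_left₀ (by positivity) hG 2
    nlinarith
  have hGi0 : 0 ≤ 1 / G ^ 2 := by positivity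
  have hXs : (X + 1) / s ≤ 2 * X / R := by
    rw [div_le_div_iff₀ hs0 hR0]
    nlinarith
  have hCs : K * (CE * H ^ 2 / s) / w ≤ K * (CE * H ^ 2 / R) / w := by
    refine div_le_div_of_nonneg_right ?_ hw.le
    refine mul_le_mul_of_nonneg_left ?_ hK
    exact div_le_div_of_nonneg_left (by positivity) hR0 hs1
  have hS0 : 0 ≤ K * tK * (H * lh ^ 2) + K * (CE * H ^ 2 / s) / w := by positivity
  have h1 : (X + 1) / s * (1 / G ^ 2 * (K * tK * (H * lh ^ 2) + K * (CE * H ^ 2 / s) / w)) ≤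
      (2 * X / R) * (1024 / (g ^ 2 * l ^ 2) * (K * tK * (H * lh ^ 2) + K * (CE * H ^ 2 / R) / w)) := by
    refine mul_le_mul hXs ?_ (mul_nonneg hGi0 hS0) (by positivity)
    exact mul_le_mul hGi (by linarith) hS0 (by positivity)
  have h2 : (2 * X / R) * (1024 / (g ^ 2 * l ^ 2) * (K * tK * (H * lh ^ 2))) ≤ η / 3 * X * (H / (R * l)) ^ 2 := by
    have e1 : (2 * X / R) * (1024 / (g ^ 2 * l ^ 2) * (K * tK * (H * lh ^ 2))) =
        (2048 * X * K * H / (R * g ^ 2 * l ^ 3)) * (tK * lh ^ 2 * l) := by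
      field_simp; ring
    have e2 : η / 3 * X * (H / (R * l)) ^ 2 = (X * H ^ 2 / (3 * R ^ 2 * l ^ 3 * g ^ 2)) * (η * (g ^ 2 * l)) := by
      field_simp
    rw [e1, e2]
    calc (2048 * X * K * H / (R * g ^ 2 * l ^ 3)) * (tK * lh ^ 2 * l)
        ≤ (2048 * X * K * H / (R * g ^ 2 * l ^ 3)) * (2 * R) := mul_le_mul_of_nonneg_left hA (by positivity)
      _ = (X * H ^ 2 / (3 * R ^ 2 * l ^ 3 * g ^ 2)) * (6144 * K) := by
          rw [hH]; field_simp; ring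
      _ ≤ _ := mul_le_mul_of_nonneg_left hA2 (by positivity)
  have h3 : (2 * X / R) * (1024 / (g ^ 2 * l ^ 2) * (K * (CE * H ^ 2 / R) / w)) ≤ η / 3 * X * (H / (R * l)) ^ 2 := by
    have e1 : (2 * X / R) * (1024 / (g ^ 2 * l ^ 2) * (K * (CE * H ^ 2 / R) / w)) =
        (X * H ^ 2 / (3 * R ^ 2 * l ^ 2 * g ^ 2 * w)) * (6144 * K * CE) := by
      field_simp; ring
    have e2 : η / 3 * X * (H / (R * l)) ^ 2 = (X * H ^ 2 / (3 * R ^ 2 * l ^ 2 * g ^ 2 * w)) * (η * (g ^ 2 * w)) := by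
      field_simp
    rw [e1, e2]
    exact mul_le_mul_of_nonneg_left hB (by positivity)
  have h4 : 4 * (W * s) * (H * lh) ^ 2 * T ^ 4 ≤ η / 3 * X * (H / (R * l)) ^ 2 := by
    have e0 : 4 * (W * s) * (H * lh) ^ 2 * T ^ 4 ≤ 4 * (W * (2 * R)) * (H * lh) ^ 2 * T ^ 4 := by
      have hT : 0 ≤ T ^ 4 := by positivity
      refine mul_le_mul_of_nonneg_right ?_ hT
      refine mul_le_mul_of_nonneg_right ?_ (sq_nonneg _)
      exact mul_le_mul_of_nonneg_left (mul_le_mul_of_nonneg_left hs2 hW) (by norm_num)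
    refine e0.trans ?_
    have e1 : 4 * (W * (2 * R)) * (H * lh) ^ 2 * T ^ 4 =
        (H ^ 2 / (3 * R ^ 2 * l ^ 2)) * (24 * W * R ^ 3 * lh ^ 2 * l ^ 2 * T ^ 4) := by
      field_simp; ring
    have e2 : η / 3 * X * (H / (R * l)) ^ 2 = (H ^ 2 / (3 * R ^ 2 * l ^ 2)) * (η * X) := by
      field_simp
    rw [e1, e2]
    exact mul_le_mul_of_nonneg_left hC (by positivity)
  have h5 : (2 * X / R) * (1024 / (g ^ 2 * l ^ 2) * (K * tK * (H * lh ^ 2) + K * (CE * H ^ 2 / R) / w)) =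
      (2 * X / R) * (1024 / (g ^ 2 * l ^ 2) * (K * tK * (H * lh ^ 2))) +
        (2 * X / R) * (1024 / (g ^ 2 * l ^ 2) * (K * (CE * H ^ 2 / R) / w)) := by ring
  rw [h5] at h1
  linarith

open Filter in
private lemma Q1_ev_w (c η : ℝ) (hη : 0 < η) : ∃ w₁ : ℕ, ∀ w : ℕ, w₁ ≤ w → c * (Real.log w) ^ 12 ≤ η * w := by
  have h1 : (fun x : ℝ => Real.log x ^ (12 : ℝ)) =o[atTop] fun x => x ^ (1 : ℝ) :=
    isLittleO_log_rpow_rpow_atTop 12 one_pos
  have h2 := (h1.bound (show 0 < η / (|c| + 1) by positivity)).and (eventually_ge_atTop (1 : ℝ))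
  have h3 := tendsto_natCast_atTop_atTop.eventually h2
  obtain ⟨w₁, hw₁⟩ := eventually_atTop.1 h3
  refine ⟨w₁, fun w hw => ?_⟩
  obtain ⟨h4, h5⟩ := hw₁ w hw
  have hl : 0 ≤ Real.log w := Real.log_natCast_nonneg w
  have e1 : Real.log w ^ (12 : ℝ) = Real.log w ^ 12 := by
    rw [← Real.rpow_natCast]; norm_num
  rw [e1, Real.rpow_one, Real.norm_of_nonneg (by positivity), Real.norm_of_nonneg (by positivity)] at h4
  have h6 : (|c| + 1) * Real.log w ^ 12 ≤ η * w := by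
    calc (|c| + 1) * Real.log w ^ 12 ≤ (|c| + 1) * (η / (|c| + 1) * w) :=
          mul_le_mul_of_nonneg_left h4 (by positivity)
      _ = η * w := by field_simp
  have h7 : c * Real.log w ^ 12 ≤ (|c| + 1) * Real.log w ^ 12 :=
    mul_le_mul_of_nonneg_right (by linarith [le_abs_self c]) (by positivity)
  linarith

open Filter in
private lemma Q1_ev_M (a : ℝ) (ha : 0 < a) (N₀ : ℕ) (A B : ℝ) : ∃ M₀ : ℕ, ∀ M : ℕ, M₀ ≤ M →
    N₀ ≤ ⌊(Real.log M) ^ a⌋₊ ∧ A ≤ Real.log M ∧ B ≤ (M : ℝ) ^ (1 / 16 : ℝ) ∧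
      (Real.log M) ^ a ≤ ((M : ℝ) ^ (1 / 16 : ℝ)) ^ 2 ∧ 1 ≤ M := by
  have hc := tendsto_natCast_atTop_atTop (R := ℝ)
  have hl : Tendsto (fun M : ℕ => Real.log M) atTop atTop := Real.tendsto_log_atTop.comp hc
  have h1 : ∀ᶠ M : ℕ in atTop, N₀ ≤ ⌊(Real.log M) ^ a⌋₊ :=
    (tendsto_nat_floor_atTop.comp ((tendsto_rpow_atTop ha).comp hl)).eventually_ge_atTop N₀
  have h2 : ∀ᶠ M : ℕ in atTop, A ≤ Real.log M := hl.eventually_ge_atTop A
  have h3 : ∀ᶠ M : ℕ in atTop, B ≤ (M : ℝ) ^ (1 / 16 : ℝ) :=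
    ((tendsto_rpow_atTop (by norm_num : (0 : ℝ) < 1 / 16)).comp hc).eventually_ge_atTop B
  have h4 : ∀ᶠ x : ℝ in atTop, ‖Real.log x ^ a‖ ≤ 1 * ‖x ^ (1 / 8 : ℝ)‖ :=
    (isLittleO_log_rpow_rpow_atTop a (by norm_num : (0 : ℝ) < 1 / 8)).bound one_pos
  have h5 := hc.eventually h4
  obtain ⟨M₀, hM₀⟩ := eventually_atTop.1 (((h1.and h2).and (h3.and h5)).and (eventually_ge_atTop 1))
  refine ⟨M₀, fun M hM => ?_⟩
  obtain ⟨⟨⟨g1, g2⟩, g3, g4⟩, g5⟩ := hM₀ M hM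
  refine ⟨g1, g2, g3, ?_, g5⟩
  have hM0 : (0 : ℝ) ≤ M := Nat.cast_nonneg M
  have h6 : ((M : ℝ) ^ (1 / 16 : ℝ)) ^ 2 = (M : ℝ) ^ (1 / 8 : ℝ) := by
    rw [← Real.rpow_natCast, ← Real.rpow_mul hM0]
    norm_num
  rw [h6]
  rw [one_mul, Real.norm_of_nonneg (Real.rpow_nonneg hM0 _)] at g4
  exact (le_abs_self _).trans g4

/-- PROOF. As `var_class_e` (E2/H2b), with a general `R` (`PX a R X`, so `(log X)^(a - 1/2) ≤ R ≤ (log X)^(a + 1/2)`; `a₁ = K + 4`; `HR R = 2R²` for `HJ`, `VF R X` for `VE a M`, `SF R s m` for `SE a M s m`). -/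
theorem var_class_f : ∃ C a₁ : ℝ, 1 ≤ C ∧ 3 ≤ a₁ ∧ ∀ a : ℝ, a₁ ≤ a → ∀ η : ℝ, 0 < η → ∃ w₀ : ℕ, ∀ w : ℕ, w₀ ≤ w →
    (∀ m : ℕ, Even m → 1 ≤ #(VV (primorial w) m)) →
    ∃ X₀ : ℕ, ∀ X : ℕ, X₀ ≤ X → ∀ R : ℕ, PX a R X → ∀ s ∈ IS R,
    ∃ B Pm : ℕ → ℝ,
      (∀ m ∈ Icc X (2 * X), SF R s m ≤ Pm m) ∧
      (∀ m ∈ Icc X (2 * X), Even m → 0 ≤ B m ∧ B m ≤ C * Sg (primorial w) m * VF R X) ∧
      ∑ m ∈ Icc X (2 * X) with Even m, (Pm m - B m) ^ 2 ≤ η * X * (VF R X) ^ 2 := by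
  obtain ⟨K, CE, hK, hCE, hfin⟩ := finite_e
  obtain ⟨Km, hKm, hmert⟩ := mertens_W
  obtain ⟨R₀, hR₀⟩ := rho_D
  refine ⟨12800, K + 4, by norm_num, by linarith, fun a ha η hη => ?_⟩
  have ha0 : 0 < a - 1 / 2 := by linarith
  have ha0' : 0 < a + 1 / 2 := by linarith
  obtain ⟨w₁, hw₁⟩ := Q1_ev_w (6144 * K * CE * Km ^ 2) η hη
  refine ⟨max 2 w₁, fun w hw hVV => ?_⟩
  have hw2 : 2 ≤ w := (le_max_left _ _).trans hw
  have hw1' := hw₁ w ((le_max_right _ _).trans hw)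
  have hwR : (0 : ℝ) < w := by exact_mod_cast (show 0 < w by omega)
  obtain ⟨H₀, hH₀⟩ := A_bound_e w hw2
  have hmw := hmert w hw2
  have hW : 1 ≤ primorial w := primorial_pos w
  set W := primorial w with hWdef
  have hW0 : (0 : ℝ) < W := by exact_mod_cast hW
  have hφ : (0 : ℝ) < Nat.totient W := by exact_mod_cast Nat.totient_pos.2 hW
  obtain ⟨g, hgdef⟩ : ∃ g : ℝ, g = (Nat.totient W : ℝ) / W := ⟨_, rfl⟩
  have hg : 0 < g := by rw [hgdef]; positivity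
  have hl6 : 0 ≤ Real.log w ^ 6 := pow_nonneg (Real.log_natCast_nonneg w) 6
  have hg1 : 1 ≤ g * (Km * Real.log w ^ 6) := by
    have h1 : g * ((W : ℝ) / Nat.totient W) = 1 := by
      rw [hgdef]; field_simp
    rw [← h1]
    exact mul_le_mul_of_nonneg_left hmw hg.le
  have hB : 6144 * K * CE ≤ η * (g ^ 2 * w) := by
    have h1 : 1 ≤ (g * (Km * Real.log w ^ 6)) ^ 2 := one_le_pow₀ hg1
    have h2 : 0 ≤ 6144 * K * CE := by positivity
    calc 6144 * K * CE ≤ 6144 * K * CE * (g * (Km * Real.log w ^ 6)) ^ 2 := le_mul_of_one_le_right h2 h1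
      _ = g ^ 2 * (6144 * K * CE * Km ^ 2 * Real.log w ^ 12) := by ring
      _ ≤ g ^ 2 * (η * w) := mul_le_mul_of_nonneg_left hw1' (by positivity)
      _ = η * (g ^ 2 * w) := by ring
  obtain ⟨M₀, hM₀⟩ := Q1_ev_M (a - 1 / 2) ha0 (R₀ + w + H₀ + 3) (max 1 (6144 * K / (η * g ^ 2)))
    (max 4 (max w (24 * W / η)))
  obtain ⟨M₀', hM₀'⟩ := Q1_ev_M (a + 1 / 2) ha0' 0 0 0
  refine ⟨max M₀ M₀', fun M hM R hPX s hs => ?_⟩
  obtain ⟨hR1, hl, hy, -, hM1⟩ := hM₀ M ((le_max_left _ _).trans hM)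
  obtain ⟨-, -, -, hly, -⟩ := hM₀' M ((le_max_right _ _).trans hM)
  obtain ⟨hRlow, hRle⟩ := hPX
  have hR1 : R₀ + w + H₀ + 3 ≤ R := by
    have h1 : ((R₀ + w + H₀ + 3 : ℕ) : ℝ) ≤ R := by
      refine le_trans ?_ hRlow
      refine le_trans ?_ (Nat.floor_le (Real.rpow_nonneg (Real.log_natCast_nonneg M) _))
      exact_mod_cast hR1
    exact_mod_cast h1
  obtain ⟨H, hHdef⟩ : ∃ H : ℕ, H = HR R := ⟨_, rfl⟩
  have hH : H = 2 * R ^ 2 := by rw [hHdef]; rfl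
  unfold SF VF
  rw [← hHdef]
  obtain ⟨l, hldef⟩ : ∃ l : ℝ, l = Real.log M := ⟨_, rfl⟩
  obtain ⟨y, hydef⟩ : ∃ y : ℝ, y = (M : ℝ) ^ (1 / 16 : ℝ) := ⟨_, rfl⟩
  rw [← hldef] at hRlow hRle hl hly ⊢
  rw [← hydef] at hy hly
  have hMR : (1 : ℝ) ≤ M := by exact_mod_cast hM1
  have hl1 : 1 ≤ l := (le_max_left _ _).trans hl
  have hl0 : 0 < l := by linarith
  have hy4 : 4 ≤ y := (le_max_left _ _).trans hy
  have hy0 : 0 < y := by linarith
  have hyw : (w : ℝ) ≤ y := (le_max_left _ _).trans ((le_max_right _ _).trans hy)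
  have hyW : 24 * W / η ≤ y := (le_max_right _ _).trans ((le_max_right _ _).trans hy)
  have hy16 : y ^ 16 = M := by
    rw [hydef, ← Real.rpow_natCast, ← Real.rpow_mul (by linarith)]
    norm_num
  have hlogy : Real.log y = l / 16 := by
    rw [hydef, Real.log_rpow (by linarith), ← hldef]
    ring
  -- R and H
  have hR3 : (3 : ℝ) ≤ R := by exact_mod_cast (show 3 ≤ R by omega)
  have hHR : (H : ℝ) = 2 * (R : ℝ) ^ 2 := by rw [hH]; push_cast; ring
  have hHR2 : R ≤ H := by rw [hH]; nlinarith [Nat.zero_le R]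
  have hRy : (R : ℝ) ≤ y ^ 2 := hRle.trans hly
  have hHy : (H : ℝ) ≤ 2 * y ^ 4 := by
    have h2 : (R : ℝ) ^ 2 ≤ (y ^ 2) ^ 2 := pow_le_pow_left₀ (by positivity) hRy 2
    rw [hHR]
    calc 2 * (R : ℝ) ^ 2 ≤ 2 * (y ^ 2) ^ 2 := by linarith
      _ = 2 * y ^ 4 := by ring
  -- T
  obtain ⟨T, hTdef⟩ : ∃ T : ℕ, T = ⌊y⌋₊ := ⟨_, rfl⟩
  have hT4 : 4 ≤ T := by rw [hTdef]; exact Nat.le_floor (by exact_mod_cast hy4)
  have hTy : (T : ℝ) ≤ y := by rw [hTdef]; exact Nat.floor_le (by linarith)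
  have hTlt : y < T + 1 := by rw [hTdef]; exact Nat.lt_floor_add_one _
  have hTR : (4 : ℝ) ≤ T := by exact_mod_cast hT4
  have hy12 : 16 ≤ y ^ 12 := by
    have h1 : (4 : ℝ) ^ 12 ≤ y ^ 12 := pow_le_pow_left₀ (by norm_num) hy4 12
    norm_num at h1
    linarith
  have hyy4 : y ≤ y ^ 4 := le_self_pow₀ (by linarith) (by norm_num)
  have hy4pos : 0 < y ^ 4 := by positivity
  -- s
  obtain ⟨⟨hs1, hs2⟩, hsp⟩ := mem_prI.1 hs
  have hsR1 : (R : ℝ) ≤ s := by exact_mod_cast hs1.le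
  have hsR2 : (s : ℝ) ≤ 2 * R := by exact_mod_cast hs2
  have hsum : (H : ℝ) + s * (T + w + 1) < M := by
    have h3 : (T : ℝ) + w + 1 ≤ 3 * y := by linarith
    have h4 : (s : ℝ) * (T + w + 1) ≤ 2 * y ^ 2 * (3 * y) := by
      refine mul_le_mul (by linarith) h3 (by positivity) (by positivity)
    have h5 : 2 * y ^ 2 * (3 * y) = 6 * y ^ 3 := by ring
    have h6 : y ^ 3 ≤ y ^ 4 := pow_le_pow_right₀ (by linarith) (by norm_num)
    rw [← hy16]
    have h1 : y ^ 16 = y ^ 4 * y ^ 12 := by ring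
    have h2 : y ^ 4 * 16 ≤ y ^ 4 * y ^ 12 := mul_le_mul_of_nonneg_left hy12 hy4pos.le
    rw [h1]
    linarith
  have hsumN : H + s * (T + w + 1) < M := by exact_mod_cast hsum
  have hHM : H ≤ M := by
    have := Nat.zero_le (s * (T + w + 1))
    omega
  have hTM : T ≤ M := by
    have h1 : 1 ≤ s := hsp.one_lt.le
    have h2 : T + w + 1 ≤ s * (T + w + 1) := Nat.le_mul_of_pos_left _ h1
    omega
  have hH2 : 2 ≤ H := by omega
  have hHpos : (1 : ℝ) ≤ H := by exact_mod_cast (show 1 ≤ H by omega)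
  have hlh0 : 0 ≤ Real.log H := Real.log_natCast_nonneg H
  have hlhl : Real.log H ≤ l := by
    rw [hldef]
    exact Real.log_le_log (by linarith) (by exact_mod_cast hHM)
  have hlT0 : 0 ≤ Real.log T := Real.log_natCast_nonneg T
  have hlTl : Real.log T ≤ l := by
    rw [hldef]
    exact Real.log_le_log (by linarith) (by exact_mod_cast hTM)
  have hwRR : w < R := by omega
  have hws : w < s := by omega
  have hs0 : 1 ≤ s := hsp.one_lt.le
  -- D
  obtain ⟨D, hDdef⟩ : ∃ D : ℕ, D = W * ∏ p ∈ prI R (2 * R), p := ⟨_, rfl⟩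
  have hD1 : 1 ≤ D := by
    rw [hDdef]
    exact Nat.mul_pos hW (prod_pos fun p hp => (mem_prI.1 hp).2.pos)
  have hWD : W ∣ D := by rw [hDdef]; exact Dvd.intro _ rfl
  have hsD : s ∣ D := by rw [hDdef]; exact (dvd_prod_of_mem (fun p => p) hs).mul_left _
  obtain ⟨G, lam, hGD, hsd⟩ := exists_SD D T hD1 (by omega)
  have hG : g * l / 32 ≤ G := by
    have h1 := hR₀ R w (by omega) hwRR
    rw [← hWdef, ← hDdef, ← hgdef] at h1
    have h2 : l / 16 ≤ Real.log ((T : ℝ) + 1) := by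
      rw [← hlogy]
      exact Real.log_le_log (by linarith) hTlt.le
    calc g * l / 32 = g / 2 * (l / 16) := by ring
      _ ≤ rho D * Real.log ((T : ℝ) + 1) := mul_le_mul h1 h2 (by positivity) (rho_pos D).le
      _ ≤ G := hGD
  have hG0 : 0 < G := lt_of_lt_of_le (by positivity) hG
  refine ⟨fun m => (∑ t ∈ Icc 1 H, FE H W s m t) / G,
    fun m => ∑ t ∈ Icc 1 H, FE H W s m t * sg (sProd D T) lam (1 * m - t), ?_, ?_, ?_⟩
  · intro m hm
    exact majorant_e hsd H w s m hsp hsD hws (lt_of_lt_of_le hsumN (mem_Icc.1 hm).1)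
  · intro m hm hme
    have hn : 0 ≤ ∑ t ∈ Icc 1 H, FE H W s m t := sum_nonneg fun t _ => (FE_bounds H W s m t).1
    refine ⟨div_nonneg hn hG0.le, ?_⟩
    have h1 := hH₀ R s m (by omega) hs (hVV m hme)
    rw [← hH] at h1
    have hSg0 : 0 ≤ Sg W m := by unfold Sg; positivity
    have h2 : (∑ t ∈ Icc 1 H, FE H W s m t) / G ≤
        (400 * (H : ℝ) / s * (#(VV W m) : ℝ) / Nat.totient W) / (g * l / 32) :=
      div_le_div₀ (hn.trans h1) h1 (by positivity) hG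
    have hsr : (0 : ℝ) < s := by exact_mod_cast hs0
    have h3 : (400 * (H : ℝ) / s * (#(VV W m) : ℝ) / Nat.totient W) / (g * l / 32) =
        12800 * Sg W m * (H / (s * l)) := by
      unfold Sg
      rw [hgdef]
      field_simp
      ring
    rw [h3] at h2
    refine h2.trans ?_
    refine mul_le_mul_of_nonneg_left ?_ (by positivity)
    exact div_le_div_of_nonneg_left (by positivity) (by positivity) (mul_le_mul_of_nonneg_right hsR1 hl0.le)
  · refine (sum_le_sum_of_subset_of_nonneg (filter_subset _ _) fun m _ _ => sq_nonneg _).trans ?_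
    refine (hfin D T w G lam hsd (by omega) (by omega) (by omega) (by rw [← hWdef]; exact hWD) s M H hsp hws
      hsD hH2 hHM hM1).trans ?_
    have hKl : (Real.log T) ^ K ≤ l ^ K := Real.rpow_le_rpow hlT0 hlTl (by linarith)
    have hKl0 : 0 ≤ (Real.log T) ^ K := Real.rpow_nonneg hlT0 _
    have hA : (Real.log T) ^ K * (Real.log H) ^ 2 * l ≤ 2 * R := by
      have h1 : (Real.log H) ^ 2 ≤ l ^ 2 := pow_le_pow_left₀ hlh0 hlhl 2
      calc (Real.log T) ^ K * (Real.log H) ^ 2 * l ≤ l ^ K * l ^ 2 * l := by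
            refine mul_le_mul_of_nonneg_right (mul_le_mul hKl h1 (by positivity) (by positivity)) hl0.le
        _ = l ^ (K + 3) := by
            rw [Real.rpow_add hl0, mul_assoc]
            congr 1
            have : (l : ℝ) ^ (3 : ℝ) = l ^ 3 := by
              rw [← Real.rpow_natCast]; norm_num
            rw [this]; ring
        _ ≤ l ^ (a - 1 / 2) := Real.rpow_le_rpow_of_exponent_le hl1 (by linarith)
        _ ≤ 2 * R := by linarith
    have hA2 : 6144 * K ≤ η * (g ^ 2 * l) := by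
      have h1 : 6144 * K / (η * g ^ 2) ≤ l := (le_max_right _ _).trans hl
      rw [div_le_iff₀ (by positivity)] at h1
      linarith
    have hll : l ≤ y := by
      have h1 : l ^ (2 : ℝ) ≤ l ^ (a + 1 / 2) := Real.rpow_le_rpow_of_exponent_le hl1 (by linarith)
      have h2 : l ^ (2 : ℝ) = l ^ 2 := by
        rw [← Real.rpow_natCast]; norm_num
      rw [h2] at h1
      exact (pow_le_pow_iff_left₀ hl0.le hy0.le (by norm_num)).1 (h1.trans hly)
    have hC : 24 * W * (R : ℝ) ^ 3 * (Real.log H) ^ 2 * l ^ 2 * (T : ℝ) ^ 4 ≤ η * M := by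
      have h0 : (R : ℝ) ^ 3 ≤ (y ^ 2) ^ 3 := pow_le_pow_left₀ (by positivity) hRy 3
      have h1 : (Real.log H) ^ 2 ≤ y ^ 2 := pow_le_pow_left₀ hlh0 (hlhl.trans hll) 2
      have h2 : l ^ 2 ≤ y ^ 2 := pow_le_pow_left₀ hl0.le hll 2
      have h3 : (T : ℝ) ^ 4 ≤ y ^ 4 := pow_le_pow_left₀ (by positivity) hTy 4
      have h4 : 24 * (W : ℝ) ≤ η * y := by
        rw [div_le_iff₀ hη] at hyW
        linarith
      have h5 : η * y ≤ η * y ^ 2 := mul_le_mul_of_nonneg_left (le_self_pow₀ (by linarith) (by norm_num)) hη.le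
      calc 24 * W * (R : ℝ) ^ 3 * (Real.log H) ^ 2 * l ^ 2 * (T : ℝ) ^ 4
          ≤ 24 * W * (y ^ 2) ^ 3 * y ^ 2 * y ^ 2 * y ^ 4 := by gcongr
        _ = (24 * W) * y ^ 14 := by ring
        _ ≤ (η * y ^ 2) * y ^ 14 := mul_le_mul_of_nonneg_right (h4.trans h5) (by positivity)
        _ = η * M := by rw [← hy16]; ring
    exact Q1_final hMR hl1 (by linarith) hsR1 hsR2 hHR hKl0 (by linarith) (by linarith) hg hwR hW0.le hG hA hA2 hB hC

end Pool.Agent.Lib.MP_bae66e_nt.EF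
end

section

/-!
# Row Q2: the second moment for almost all `m` (port of E2/I)
-/

set_option autoImplicit false

namespace Pool.Agent.Lib.MP_bae66e_nt.EF

open Finset MeasureTheory Real
open Pool.Agent.E3
open Pool.Agent.Lib.MP_bae66e_nt.AP3 (prI mem_prI)
open Pool.Agent.Lib.MP_bae66e_nt.LL (fP)
open Pool.Agent.Lib.MP_bae66e_nt.AC (Sg VV one_le_Sg)

private theorem Q2_fP_nn (H : ℕ) (n : ℤ) : 0 ≤ fP H n := by
  unfold fP
  split_ifs
  · exact Real.log_natCast_nonneg H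
  · exact le_rfl

/-- PROOF. As `sece_of` (E2/I), with a general `R` (`parA` for `3 ≤ R`). -/
theorem secf_of : ∃ C a₁ : ℝ, 1 ≤ C ∧ 3 ≤ a₁ ∧ ∀ a : ℝ, a₁ ≤ a → SECF C a := by
  classical
  obtain ⟨C₀, a₁, hC₀, ha₁, hvar⟩ := var_class_f
  obtain ⟨C₃, hC₃, hIS⟩ := IS_bounds
  have hCC : 1 ≤ C₀ ^ 2 * C₃ := by
    have : 1 ≤ C₀ ^ 2 := one_le_pow₀ hC₀
    nlinarith
  refine ⟨4 * (C₀ ^ 2 * C₃), a₁, by linarith, ha₁, fun a ha δ hδ => ?_⟩
  obtain ⟨w₀, hw₀⟩ := hvar a ha δ hδ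
  refine ⟨max w₀ 2, fun w hw => ?_⟩
  have hw2 : 2 ≤ w := (le_max_right _ _).trans hw
  obtain ⟨M₁, hM₁⟩ := hw₀ w ((le_max_left _ _).trans hw) (fun m hm => (one_le_Sg w m hw2 hm).2)
  obtain ⟨M₂, hM₂⟩ := parA a 4 1 (ha₁.trans ha) one_pos
  refine ⟨max M₁ (max M₂ 16), fun M hM R hPX => ?_⟩
  have hMa : M₁ ≤ M := (le_max_left _ _).trans hM
  have hMb : M₂ ≤ M := ((le_max_left _ _).trans (le_max_right _ _)).trans hM
  have hMc : 16 ≤ M := ((le_max_right _ _).trans (le_max_right _ _)).trans hM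
  obtain ⟨-, -, -, -, hR4, -⟩ := hM₂ M hMb R hPX
  have hR3 : 3 < R := by
    have : (3 : ℝ) < R := by linarith
    exact_mod_cast this
  have key := hM₁ M hMa R hPX
  have hMr : (16 : ℝ) ≤ M := by exact_mod_cast hMc
  have hRr : (3 : ℝ) < R := by exact_mod_cast hR3
  have hlR : 0 < Real.log (R) := Real.log_pos (by linarith)
  have hlM : 0 < Real.log M := Real.log_pos (by linarith)
  have hHpos : (0 : ℝ) < HR R := by
    have : 0 < HR R := by
      unfold HR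
      have : 0 < R := by omega
      positivity
    exact_mod_cast this
  have hV0 : 0 < VF R M := by
    unfold VF
    have : (0 : ℝ) < R := by linarith
    positivity
  have hU0 : 0 ≤ (R / Real.log R) := by
    have : (0 : ℝ) < R := by linarith
    positivity
  have hIScard : (#(IS (R)) : ℝ) ≤ C₃ * (R / Real.log R) := by
    have h := (hIS (R) (by omega)).1
    calc (#(IS (R)) : ℝ) ≤ _ := h
      _ = _ := by ring
  set V : ℝ := VF R M with hV
  -- the functions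
  have key' : ∀ s : ℕ, ∃ B Pm : ℕ → ℝ, s ∈ IS (R) →
      (∀ m ∈ Icc M (2 * M), SF R s m ≤ Pm m) ∧
      (∀ m ∈ Icc M (2 * M), Even m → 0 ≤ B m ∧ B m ≤ C₀ * Sg (primorial w) m * V) ∧
      ∑ m ∈ Icc M (2 * M) with Even m, (Pm m - B m) ^ 2 ≤ δ * M * V ^ 2 := by
    intro s
    by_cases hs : s ∈ IS (R)
    · obtain ⟨B, Pm, h⟩ := key s hs
      exact ⟨B, Pm, fun _ => h⟩
    · exact ⟨fun _ => 0, fun _ => 0, fun h => absurd h hs⟩
  choose B Pm hBP using key'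
  have hS0 : ∀ s m, 0 ≤ SF R s m := fun s m => Finset.sum_nonneg fun t _ =>
    mul_nonneg (Q2_fP_nn _ _) (by split_ifs <;> norm_num)
  set n : ℝ := (#(IS (R)) : ℝ) with hn
  have hn0 : 0 ≤ n := Nat.cast_nonneg _
  rcases Finset.eq_empty_or_nonempty (IS (R)) with hemp | hne
  · -- no multipliers
    have h0 : ({m ∈ Icc M (2 * M) | Even m ∧ 4 * (C₀ ^ 2 * C₃) * (Sg (primorial w) m) ^ 2 * (R / Real.log R) *
        V ^ 2 < ∑ s ∈ IS (R), (SF R s m) ^ 2} : Finset ℕ) = ∅ := by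
      rw [Finset.filter_eq_empty_iff]
      rintro m _ ⟨-, h⟩
      rw [hemp, Finset.sum_empty] at h
      have : 0 ≤ 4 * (C₀ ^ 2 * C₃) * (Sg (primorial w) m) ^ 2 * (R / Real.log R) * V ^ 2 := by positivity
      linarith
    rw [h0, Finset.card_empty]
    push_cast
    positivity
  have hn1 : 0 < n := by
    rw [hn]
    exact_mod_cast hne.card_pos
  set Bad : Finset ℕ := {m ∈ (Icc M (2 * M)).filter Even |
    n * V ^ 2 < ∑ s ∈ IS (R), (Pm s m - B s m) ^ 2} with hBad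
  have hBadc : (Bad.card : ℝ) ≤ δ * M := by
    have e1 : (Bad.card : ℝ) * (n * V ^ 2) ≤
        ∑ m ∈ (Icc M (2 * M)).filter Even, ∑ s ∈ IS (R), (Pm s m - B s m) ^ 2 := by
      calc (Bad.card : ℝ) * (n * V ^ 2) = ∑ m ∈ Bad, n * V ^ 2 := by
            rw [Finset.sum_const, nsmul_eq_mul]
        _ ≤ ∑ m ∈ Bad, ∑ s ∈ IS (R), (Pm s m - B s m) ^ 2 :=
            Finset.sum_le_sum fun m hm => (Finset.mem_filter.1 hm).2.le
        _ ≤ _ := Finset.sum_le_sum_of_subset_of_nonneg (Finset.filter_subset _ _)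
            (fun _ _ _ => Finset.sum_nonneg fun _ _ => sq_nonneg _)
    have e2 : ∑ m ∈ (Icc M (2 * M)).filter Even, ∑ s ∈ IS (R), (Pm s m - B s m) ^ 2 ≤
        n * (δ * M * V ^ 2) := by
      rw [Finset.sum_comm, hn, ← nsmul_eq_mul]
      exact Finset.sum_le_card_nsmul _ _ _ fun s hs => (hBP s hs).2.2
    have e3 : (Bad.card : ℝ) * (n * V ^ 2) ≤ (δ * M) * (n * V ^ 2) := by
      refine (e1.trans e2).trans (le_of_eq ?_)
      ring
    exact le_of_mul_le_mul_right e3 (by positivity)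
  refine le_trans (Nat.cast_le.2 (Finset.card_le_card ?_)) hBadc
  intro m hm
  obtain ⟨hm1, hm2, hm3⟩ := Finset.mem_filter.1 hm
  rw [hBad, Finset.mem_filter, Finset.mem_filter]
  refine ⟨⟨hm1, hm2⟩, ?_⟩
  by_contra hcon
  rw [not_lt] at hcon
  have hSg := (one_le_Sg w m hw2 hm2).1
  have g1 : ∑ s ∈ IS (R), (SF R s m) ^ 2 ≤ ∑ s ∈ IS (R),
      (2 * (Pm s m - B s m) ^ 2 + 2 * (C₀ * Sg (primorial w) m * V) ^ 2) := by
    refine Finset.sum_le_sum fun s hs => ?_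
    obtain ⟨h1, h2, -⟩ := hBP s hs
    have h3 : SF R s m ≤ Pm s m := h1 m hm1
    obtain ⟨h4, h5⟩ := h2 m hm1 hm2
    have h6 : (SF R s m) ^ 2 ≤ (Pm s m) ^ 2 := pow_le_pow_left₀ (hS0 s m) h3 2
    have h7 : (B s m) ^ 2 ≤ (C₀ * Sg (primorial w) m * V) ^ 2 := pow_le_pow_left₀ h4 h5 2
    nlinarith [sq_nonneg (Pm s m - 2 * B s m)]
  have g2 : ∑ s ∈ IS (R), (2 * (Pm s m - B s m) ^ 2 + 2 * (C₀ * Sg (primorial w) m * V) ^ 2) ≤
      n * (4 * (C₀ * Sg (primorial w) m * V) ^ 2) := by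
    rw [Finset.sum_add_distrib, ← Finset.mul_sum, Finset.sum_const, nsmul_eq_mul, ← hn]
    have h1 : V ^ 2 ≤ (C₀ * Sg (primorial w) m * V) ^ 2 := by
      apply pow_le_pow_left₀ hV0.le
      have h2 : 1 ≤ C₀ * Sg (primorial w) m := by nlinarith
      nlinarith
    have h2 : n * V ^ 2 ≤ n * (C₀ * Sg (primorial w) m * V) ^ 2 := mul_le_mul_of_nonneg_left h1 hn0
    nlinarith
  have g3 : n * (4 * (C₀ * Sg (primorial w) m * V) ^ 2) ≤
      4 * (C₀ ^ 2 * C₃) * (Sg (primorial w) m) ^ 2 * (R / Real.log R) * V ^ 2 := by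
    calc n * (4 * (C₀ * Sg (primorial w) m * V) ^ 2) ≤
        (C₃ * (R / Real.log R)) * (4 * (C₀ * Sg (primorial w) m * V) ^ 2) :=
          mul_le_mul_of_nonneg_right hIScard (by positivity)
      _ = _ := by ring
  linarith

end Pool.Agent.Lib.MP_bae66e_nt.EF
end
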