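import Mathlib
import Pool.Agent.Lib.MP_bae66e_nt.Mg.G034

section

set_option autoImplicit false

namespace Pool.Agent.MG

open Pool.Agent.GM

/-- S3a. PROOF. Induction on `#s` removing the largest element `p` of `s`: the elements of `s` are odd
numbers `≥ 3`, so `p ≥ 2 #s + 1` and `(p-1)/(p-2) ≤ (#s + 1)/#s` (as `p - 2 ≥ 2 #s - 1 ≥ #s`). -/
lemma prod_le_card (s : Finset ℕ) (hs : ∀ p ∈ s, Odd p ∧ 3 ≤ p) :
    ∏ p ∈ s, (((p : ℝ) - 1) / ((p : ℝ) - 2)) ≤ s.card + 1 := by
  induction s using Finset.induction_on_max with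
  | empty => simp
  | insert p t hmax ih =>
    have hpt : p ∉ t := fun h => lt_irrefl p (hmax p h)
    have ih' := ih (fun x hx => hs x (Finset.mem_insert_of_mem hx))
    have hp := hs p (Finset.mem_insert_self p t)
    rw [Finset.prod_insert hpt, Finset.card_insert_of_notMem hpt]
    have hcard : t.card + 1 ≤ (p - 1) / 2 := by
      have h1 : ((insert p t).image (fun x => (x - 1) / 2)).card = (insert p t).card := by
        apply Finset.card_image_of_injOn
        intro x hx y hy hxy
        have h2 := hs x hx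
        have h3 := hs y hy
        simp only at hxy
        obtain ⟨⟨a, ha⟩, _⟩ := h2
        obtain ⟨⟨b, hb⟩, _⟩ := h3
        omega
      have h4 : ((insert p t).image (fun x => (x - 1) / 2)) ⊆ Finset.Icc 1 ((p - 1) / 2) := by
        intro y hy
        rw [Finset.mem_image] at hy
        obtain ⟨x, hx, rfl⟩ := hy
        have h2 := hs x hx
        have h5 : x ≤ p := by
          rcases Finset.mem_insert.mp hx with h | h
          · exact h.le
          · exact (hmax x h).le
        rw [Finset.mem_Icc]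
        omega
      have h6 := Finset.card_le_card h4
      rw [h1, Finset.card_insert_of_notMem hpt, Nat.card_Icc] at h6
      omega
    have hp2 : (t.card : ℝ) + 3 ≤ p := by
      have : t.card + 3 ≤ p := by omega
      exact_mod_cast this
    have ht0 : (0 : ℝ) ≤ t.card := Nat.cast_nonneg _
    have h7 : ((p : ℝ) - 1) / ((p : ℝ) - 2) ≤ ((t.card : ℝ) + 2) / ((t.card : ℝ) + 1) := by
      rw [div_le_div_iff₀ (by linarith) (by linarith)]
      nlinarith
    have h8 : 0 ≤ ∏ x ∈ t, (((x : ℝ) - 1) / ((x : ℝ) - 2)) := by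
      apply Finset.prod_nonneg
      intro x hx
      have h9 : (3 : ℝ) ≤ x := by exact_mod_cast (hs x (Finset.mem_insert_of_mem hx)).2
      apply div_nonneg <;> linarith
    calc ((p : ℝ) - 1) / ((p : ℝ) - 2) * ∏ x ∈ t, (((x : ℝ) - 1) / ((x : ℝ) - 2))
        ≤ (((t.card : ℝ) + 2) / ((t.card : ℝ) + 1)) * ((t.card : ℝ) + 1) :=
          mul_le_mul h7 ih' h8 (by positivity)
      _ = (t.card : ℝ) + 2 := by field_simp
      _ = ((t.card + 1 : ℕ) : ℝ) + 1 := by push_cast; ring

end Pool.Agent.MG
end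

section

set_option autoImplicit false

namespace Pool.Agent.MG

open Pool.Agent.GM

lemma S3b_card (m : ℕ) (hm : 1 ≤ m) : (m.primeFactors.card : ℝ) ≤ 2 * Real.log m := by
  have h1 : 2 ^ m.primeFactors.card ≤ m := by
    calc 2 ^ m.primeFactors.card ≤ ∏ p ∈ m.primeFactors, p :=
          Finset.pow_card_le_prod _ _ _ (fun p hp => (Nat.prime_of_mem_primeFactors hp).two_le)
      _ ≤ m := Nat.le_of_dvd hm (Nat.prod_primeFactors_dvd m)
  have h2 : (2 : ℝ) ^ m.primeFactors.card ≤ m := by exact_mod_cast h1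
  have h3 : (m.primeFactors.card : ℝ) * Real.log 2 ≤ Real.log m := by
    rw [← Real.log_pow]
    exact Real.log_le_log (by positivity) h2
  have h4 := Real.log_two_gt_d9
  have h5 : (0 : ℝ) ≤ m.primeFactors.card := Nat.cast_nonneg _
  nlinarith

/-- S3b. PROOF. `sing m` is `2 twinConst` times a product of factors `> 1` (`twinConst_pos`,
`twinConst ≤ 1`); the upper bound by `prod_le_card` and
`#primeFactors ≤ log₂ m ≤ 2 log m` (`2^(#primeFactors) ≤ m`). -/
lemma sing_bounds (m : ℕ) (hm : 1 ≤ m) :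
    2 * twinConst ≤ sing m ∧ sing m ≤ 4 * Real.log m + 2 := by
  have htc := twinConst_pos
  have hodd : ∀ p ∈ m.primeFactors.erase 2, Odd p ∧ 3 ≤ p := by
    intro p hp
    rw [Finset.mem_erase] at hp
    have hpp := Nat.prime_of_mem_primeFactors hp.2
    refine ⟨hpp.odd_of_ne_two hp.1, ?_⟩
    have := hpp.two_le
    have := hp.1
    omega
  have hge : ∀ p ∈ m.primeFactors.erase 2, (1 : ℝ) ≤ ((p : ℝ) - 1) / ((p : ℝ) - 2) := by
    intro p hp
    have h3 : (3 : ℝ) ≤ p := by exact_mod_cast (hodd p hp).2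
    rw [one_le_div (by linarith)]
    linarith
  have h1 : (1 : ℝ) ≤ ∏ p ∈ m.primeFactors.erase 2, (((p : ℝ) - 1) / ((p : ℝ) - 2)) := by
    have := Finset.prod_le_prod (s := m.primeFactors.erase 2) (f := fun _ : ℕ => (1 : ℝ))
      (g := fun p : ℕ => ((p : ℝ) - 1) / ((p : ℝ) - 2)) (fun _ _ => zero_le_one) hge
    rwa [Finset.prod_const_one] at this
  have h2 := prod_le_card (m.primeFactors.erase 2) hodd
  have h3 : ((m.primeFactors.erase 2).card : ℝ) ≤ m.primeFactors.card := by
    exact_mod_cast Finset.card_le_card (Finset.erase_subset _ _)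
  have h4 := S3b_card m hm
  have hl : 0 ≤ Real.log m := Real.log_natCast_nonneg m
  unfold sing
  constructor
  · calc 2 * twinConst = 2 * twinConst * 1 := (mul_one _).symm
      _ ≤ _ := mul_le_mul_of_nonneg_left h1 (by linarith)
  · calc 2 * twinConst * ∏ p ∈ m.primeFactors.erase 2, (((p : ℝ) - 1) / ((p : ℝ) - 2))
        ≤ 2 * 1 * (2 * Real.log m + 1) := by
          apply mul_le_mul _ _ (by linarith) (by norm_num)
          · linarith
          · linarith
      _ = 4 * Real.log m + 2 := by ring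

end Pool.Agent.MG
end
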