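import Pool.Agent.Lib.MP_bae66e_nt.Mg.G099
import Pool.Agent.Lib.MP_bae66e_nt.Mg.G075
import Pool.Agent.Lib.MP_bae66e_nt.Cheb
import Pool.Agent.Lib.MP_bae66e_nt.Energy

section

/-!
# Module C: definitions for the equivalence with primes in almost all short intervals
-/

set_option autoImplicit false

open Finset

namespace Pool.Agent.Lib.MP_bae66e_nt.LL

/-- `⌊t log X loglog X⌋₊`. -/
noncomputable def yX (t : ℝ) (X : ℕ) : ℕ := ⌊t * Real.log X * Real.log (Real.log X)⌋₊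

/-- The singular series of the pair `(0, m)` at the primes dividing `W`. -/
noncomputable def SP (W : ℕ) (m : ℤ) : ℝ := SS W (![0, m] : Fin 2 → ℤ)

/-- The number of primes `q ≡ b (W)` with `m - y ≤ q < m`, `q ≤ X`. -/
noncomputable def nC (X y W : ℕ) (b m : ℤ) : ℕ :=
  ((QQ 0 X).filter (fun q : ℕ => 1 ≤ m - q ∧ m - q ≤ (y : ℤ) ∧ (q : ℤ) ≡ b [ZMOD (W : ℤ)])).card

open Classical in
/-- The number of even `m ≤ X` such that all primes `p` with `m - p` prime are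
`> t log X loglog X`. -/
noncomputable def cntX (t : ℝ) (X : ℕ) : ℕ :=
  ((Finset.Icc 1 X).filter (fun m : ℕ => Even m ∧ ∀ p q : ℕ, p.Prime → q.Prime → p + q = m →
    t * Real.log X * Real.log (Real.log X) < p)).card

/-- The conjectured limit law: the supremum of the means `EE (primorial z) t`. -/
noncomputable def DDlim (t : ℝ) : ℝ := ⨆ z : ℕ, EE (primorial (z + 2)) t

open Classical in
/-- Equidistribution of the primes modulo every `primorial w` in almost all intervals of length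
`t log X loglog X`. -/
def EquiAt (t : ℝ) : Prop :=
  ∀ w : ℕ, ∀ b : ℤ, IsCoprime b ((primorial w : ℕ) : ℤ) → ∀ ε : ℝ, 0 < ε →
    ∃ X₀ : ℕ, ∀ X : ℕ, X₀ ≤ X →
      (((Finset.Ioc (0 : ℤ) (X : ℤ)).filter (fun m : ℤ =>
        ε * Real.log (Real.log X) < |(nC X (yX t X) (primorial w) b m : ℝ)
          - t * Real.log (Real.log X) / (Nat.totient (primorial w) : ℝ)|)).card : ℝ) ≤ ε * X

/-- The limit law of `g(m) / (log X loglog X)` at `t`. -/
def LimitLawAt (t : ℝ) : Prop :=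
  ∀ ε : ℝ, 0 < ε → ∃ X₀ : ℕ, ∀ X : ℕ, X₀ ≤ X →
    |(cntX t X : ℝ) - DDlim t * X / 2| ≤ ε * X

/-- `κ W`: a function with period `W` which inverts the convolution with `nu W` modulo `W`. For a
prime `p`, `κ_p(n) = 1/p - ((p - 1)/p) 1_{p ∣ n}`. -/
noncomputable def kap (W : ℕ) (n : ℤ) : ℝ :=
  ∏ p ∈ W.primeFactors, (1 / (p : ℝ) - if (p : ℤ) ∣ n then ((p : ℝ) - 1) / p else 0)

end Pool.Agent.Lib.MP_bae66e_nt.LL
end

section

/-!
# Definitions for the joint mixed Poisson law (part 1)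
-/

set_option autoImplicit false

open Finset

namespace Pool.Agent.Lib.MP_bae66e_nt.LP

open Pool.Agent.Lib.MP_bae66e_nt.LL

/-! ### Module B: blocks -/

/-- `∑_{q ∈ Q} G(m - q)`. -/
noncomputable def lamG (G : ℤ → ℝ) (Q : Finset ℕ) (m : ℤ) : ℝ := ∑ q ∈ Q, G (m - q)

/-- `∏_{q ∈ Q} (1 - F(m - q))`. -/
noncomputable def zF (F : ℤ → ℝ) (Q : Finset ℕ) (m : ℤ) : ℝ := ∏ q ∈ Q, (1 - F (m - q))

/-- The intensity of the class `a` for the primes `Q`. -/
noncomputable def UG (Γ : ℤ → ℝ) (Q : Finset ℕ) (a : ℕ) : ℝ := ∑ q ∈ Q, Γ ((a : ℤ) - q)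

/-- The error of order `j` for a set of primes `Q` and a set of integers `S`. -/
noncomputable def ErrG (F G : ℤ → ℝ) (Q : Finset ℕ) (S : Finset ℤ) (j : ℕ) : ℝ :=
  |∑ T ∈ Finset.powersetCard j Q, ∑ m ∈ S, ((∏ q ∈ T, F (m - q)) - ∏ q ∈ T, G (m - q))|

/-- The hypotheses on a function `F` with values in `[0, 1]`, its model `G` and a majorant `Γ` of `G`
with period `W`. -/
structure PairFG (W Y : ℕ) (A : ℝ) (F G Γ : ℤ → ℝ) : Prop where
  F0 : ∀ n, 0 ≤ F n
  F1 : ∀ n, F n ≤ 1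
  G0 : ∀ n, 0 ≤ G n
  G1 : ∀ n, G n ≤ A * W / Real.log Y
  Fs : ∀ n : ℤ, ¬ (1 ≤ n ∧ n ≤ (Y : ℤ)) → F n = 0
  Gs : ∀ n : ℤ, ¬ (1 ≤ n ∧ n ≤ (Y : ℤ)) → G n = 0
  GΓ : ∀ n, G n ≤ Γ n
  Γ0 : ∀ n, 0 ≤ Γ n
  Γp : ∀ n m : ℤ, n ≡ m [ZMOD (W : ℤ)] → Γ n = Γ m
  Γs : ∀ n : ℤ, ∑ a ∈ Finset.range W, Γ ((a : ℤ) - n) ≤ A * W / Real.log Y

/-- The hypothesis on the errors of order `k + 1`. -/
def StarFG (k W Y : ℕ) (F G : ℤ → ℝ) (η : ℝ) : Prop :=
  ∑ h ∈ (shifts k Y).filter (fun h => Function.Injective (hh h)),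
    FF (k + 1) h * DD Y W F G h ≤ η * ((Y : ℝ) / Real.log Y) ^ (k + 1)

/-! ### Module E: energies -/

/-- The energy of a function supported in `[1, Y]`. -/
noncomputable def En (Y : ℕ) (f : ℤ → ℝ) : ℝ := ∑ d ∈ Finset.Icc (-(Y : ℤ)) (Y : ℤ), (corr Y f d) ^ 2

/-- Families: the analogue of `DD` for two families of functions. -/
noncomputable def DDx {j : ℕ} (Y W₀ : ℕ) (f g : Fin j → ℤ → ℝ) : ℝ :=
  ∑ b ∈ Finset.range W₀, |∑ n ∈ (Finset.Icc (1 : ℤ) (Y : ℤ)).filter (fun n => n ≡ (b : ℤ) [ZMOD (W₀ : ℤ)]),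
    ((∏ i, f i n) - ∏ i, g i n)|

/-! ### Module M: the intensities -/

/-- `loglog X`. -/
noncomputable def ell (X : ℕ) : ℝ := Real.log (Real.log X)

/-- The primes `q ≤ X` with `a log X loglog X < m - q ≤ b log X loglog X` (up to rounding). -/
noncomputable def Wd (X : ℕ) (a b : ℝ) (m : ℤ) : Finset ℕ :=
  (QQ 0 X).filter (fun q : ℕ => (yX a X : ℤ) < m - q ∧ m - q ≤ (yX b X : ℤ))

/-- The intensity of the window `(a, b]`. -/
noncomputable def Lam (W X : ℕ) (a b : ℝ) (m : ℤ) : ℝ := (∑ q ∈ Wd X a b m, nu W (m - q)) / ell X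

/-! ### Module R: one residue class -/

/-- `1/loglog X` times the number of the primes `q` of the window with `q ≡ m + r (W₀)`. -/
noncomputable def Th (W₀ : ℕ) (r : ℤ) (X : ℕ) (a b : ℝ) (m : ℤ) : ℝ :=
  (((Wd X a b m).filter (fun q : ℕ => (W₀ : ℤ) ∣ m + r - q)).card : ℝ) / ell X

/-- The same for the window of `m + g` (and the class of `m + r`). -/
noncomputable def ThG (W₀ : ℕ) (r : ℤ) (X : ℕ) (a b : ℝ) (g m : ℤ) : ℝ :=
  (((Wd X a b (m + g)).filter (fun q : ℕ => (W₀ : ℤ) ∣ m + r - q)).card : ℝ) / ell X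

/-- The part of the intensity of `m + g` of the primes `q ≡ m + r (W₀)`. -/
noncomputable def LamR (W W₀ : ℕ) (r : ℤ) (X : ℕ) (a b : ℝ) (g m : ℤ) : ℝ :=
  (∑ q ∈ (Wd X a b (m + g)).filter (fun q : ℕ => (W₀ : ℤ) ∣ m + r - q), nu W (m + g - q)) / ell X

/-! ### Module S: scales -/

/-- The number of the primes `q ≤ X` with `i s < q ≤ (i + 1) s`, `q ≡ b (W₀)`. -/
noncomputable def nb (W₀ X s b i : ℕ) : ℕ :=
  ((QQ 0 X).filter (fun q : ℕ => i * s < q ∧ q ≤ (i + 1) * s ∧ q % W₀ = b)).card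

/-- The energy of the primes at the scale `s`. -/
noncomputable def Es (W₀ X s : ℕ) : ℝ :=
  ∑ b ∈ Finset.range W₀, ∑ i ∈ Finset.range (X / s + 1), ((nb W₀ X s b i : ℝ)) ^ 2

end Pool.Agent.Lib.MP_bae66e_nt.LP
end

section

/-!
# Definitions for the joint mixed Poisson law (part 2)
-/

set_option autoImplicit false

open Finset

namespace Pool.Agent.Lib.MP_bae66e_nt.LP

open Pool.Agent.Lib.MP_bae66e_nt.LL

/-- A finite family of shifts `h i ≤ H`, cutoffs `y i` (`y i = 0` or `Y ≤ C₁ y i`) and coefficients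
`|c i| ≤ 1`, with `y i + H ≤ Y`. -/
structure Cut {ι : Type} (Y H : ℕ) (C₁ : ℝ) (h y : ι → ℕ) (c : ι → ℝ) : Prop where
  hH : ∀ i, h i ≤ H
  hY : ∀ i, y i + H ≤ Y
  hC : ∀ i, y i = 0 ∨ (Y : ℝ) ≤ C₁ * y i
  hc : ∀ i, |c i| ≤ 1

/-- `log Y ∑ c_i 1_P(n - H + h i) 1_{[1, y_i]}(n - H + h i)`. -/
noncomputable def fS {ι : Type} [Fintype ι] (Y H : ℕ) (h y : ι → ℕ) (c : ι → ℝ) (n : ℤ) : ℝ :=
  Real.log Y * ∑ i, c i * pv (y i) (n - H + h i)

/-- The model of `fS`. -/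
noncomputable def gJ {ι : Type} [Fintype ι] (W H : ℕ) (h y : ι → ℕ) (c : ι → ℝ) (n : ℤ) : ℝ :=
  ∑ i, c i * gW W (y i) (n - H + h i)

/-- A function `f` close to `fS`: `0 ≤ f ≤ log Y ∑ 1_P(n - H + h i)`, and `f - fS` is supported on the
`n` such that two of the `n - H + h i` with different `h i` are primes. -/
structure Near {ι : Type} [Fintype ι] (Y H : ℕ) (h y : ι → ℕ) (c : ι → ℝ) (f : ℤ → ℝ) : Prop where
  f0 : ∀ n, 0 ≤ f n
  fP : ∀ n, f n ≤ Real.log Y * ∑ i, pv (Y - H) (n - H + h i)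
  fd : ∀ n, |f n - fS Y H h y c n| ≤ (Fintype.card ι : ℝ) * Real.log Y *
    ∑ i, ∑ l ∈ Finset.univ.filter (fun l => h l ≠ h i),
      pv (Y - H) (n - H + h i) * pv (Y - H) (n - H + h l)

/-- The sum of `ρ(|d + h_l - h_i|)^{-2}`. -/
noncomputable def RR {ι : Type} [Fintype ι] (h : ι → ℕ) (d : ℤ) : ℝ :=
  ∑ i, ∑ l, (1 / rho (d + h l - h i).natAbs) ^ 2

/-- The differences `h i - h l`. -/
noncomputable def D0 {ι : Type} [Fintype ι] (h : ι → ℕ) : Finset ℤ :=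
  Finset.univ.image (fun il : ι × ι => (h il.1 : ℤ) - h il.2)

/-! ### Windows -/

/-- Disjoint windows `(u j, v j]`. -/
structure Win {s : ℕ} (u v : Fin s → ℕ) : Prop where
  le : ∀ j, u j ≤ v j
  dis : ∀ j l, j ≠ l → v j ≤ u l ∨ v l ≤ u j

/-- `∑_j w_j 1_P(n) 1_{(u_j, v_j]}(n)`. -/
noncomputable def phi {s : ℕ} (u v : Fin s → ℕ) (w : Fin s → ℝ) (n : ℤ) : ℝ :=
  ∑ j, w j * (pv (v j) n - pv (u j) n)

/-- `∑_j w_j nu(n) 1_{(u_j, v_j]}(n)`. -/
noncomputable def gphi {s : ℕ} (W : ℕ) (u v : Fin s → ℕ) (w : Fin s → ℝ) (n : ℤ) : ℝ :=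
  ∑ j, w j * (gW W (v j) n - gW W (u j) n)

/-- `F(n) = 1 - ∏_i (1 - φ_i(n - H + h i))`. -/
noncomputable def FJ {r s : ℕ} (H : ℕ) (h : Fin r → ℕ) (u v : Fin r → Fin s → ℕ)
    (w : Fin r → Fin s → ℝ) (n : ℤ) : ℝ :=
  1 - ∏ i, (1 - phi (u i) (v i) (w i) (n - H + h i))

/-- The model `G(n) = (1/log Y) ∑_i γ_i(n - H + h i)`. -/
noncomputable def GJ {r s : ℕ} (W Y H : ℕ) (h : Fin r → ℕ) (u v : Fin r → Fin s → ℕ)
    (w : Fin r → Fin s → ℝ) (n : ℤ) : ℝ :=
  (∑ i, gphi W (u i) (v i) (w i) (n - H + h i)) / Real.log Y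

/-- The conditions on the windows. -/
structure CutW {r s : ℕ} (Y H : ℕ) (C₁ : ℝ) (h : Fin r → ℕ) (u v : Fin r → Fin s → ℕ) : Prop where
  inj : Function.Injective h
  hH : ∀ i, h i ≤ H
  hY : ∀ i j, v i j + H ≤ Y
  hu : ∀ i j, u i j = 0 ∨ (Y : ℝ) ≤ C₁ * u i j
  hv : ∀ i j, v i j = 0 ∨ (Y : ℝ) ≤ C₁ * v i j
  win : ∀ i, Win (u i) (v i)

/-- The number of primes `q ≤ X` of the window such that `m - q` is a prime. -/
noncomputable def Nw (X : ℕ) (a b : ℝ) (m : ℤ) : ℕ :=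
  ((Wd X a b m).filter (fun q : ℕ => (m - q).toNat.Prime)).card

/-- The number of even `m ∈ (0, X]` such that, for all `i`, `j`, exactly `n i j` primes `p` with
`a i j log X loglog X < p ≤ b i j log X loglog X` are such that `m + h i - p` is a prime `≤ X`. -/
noncomputable def cntP {r s : ℕ} (h : Fin r → ℕ) (a b : Fin r → Fin s → ℝ) (n : Fin r → Fin s → ℕ)
    (X : ℕ) : ℕ :=
  ((Finset.Ioc (0 : ℤ) (X : ℤ)).filter (fun m : ℤ =>
    Even m ∧ ∀ i j, Nw X (a i j) (b i j) (m + h i) = n i j)).card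

/-- The number of primes `p` with `x < p ≤ y` such that `m - p` is prime. -/
noncomputable def NN (m : ℕ) (x y : ℝ) : ℕ :=
  ((Finset.range m).filter (fun p : ℕ => p.Prime ∧ (m - p).Prime ∧ x < p ∧ (p : ℝ) ≤ y)).card

end Pool.Agent.Lib.MP_bae66e_nt.LP
end

section

/-!
# E05: averages of `∏ nu W (n - h_i)` over a period (Chinese remainder theorem)
-/

set_option autoImplicit false

open Finset

namespace Pool.Agent.Lib.MP_bae66e_nt.LL

/-- `nu` is multiplicative in `W`: `nu (W₀ W₁) n = nu W₀ n * nu W₁ n` for coprime `W₀, W₁`. -/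
lemma nu_mul (W₀ W₁ : ℕ) (h : Nat.Coprime W₀ W₁) (n : ℤ) : nu (W₀ * W₁) n = nu W₀ n * nu W₁ n := by
  unfold nu
  have h1 : IsCoprime n ((W₀ * W₁ : ℕ) : ℤ) ↔ IsCoprime n (W₀ : ℤ) ∧ IsCoprime n (W₁ : ℤ) := by
    rw [Nat.cast_mul, IsCoprime.mul_right_iff]
  by_cases h2 : IsCoprime n (W₀ : ℤ)
  · by_cases h3 : IsCoprime n (W₁ : ℤ)
    · rw [if_pos (h1.mpr ⟨h2, h3⟩), if_pos h2, if_pos h3, Nat.totient_mul h]
      push_cast
      rw [div_mul_div_comm]
    · rw [if_neg (fun h4 => h3 (h1.mp h4).2), if_neg h3, mul_zero]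
  · rw [if_neg (fun h4 => h2 (h1.mp h4).1), if_neg h2, zero_mul]

/-- `nu W` is periodic modulo `W`. -/
lemma nu_periodic (W : ℕ) (n m : ℤ) (h : n ≡ m [ZMOD (W : ℤ)]) : nu W n = nu W m := by
  have h1 : IsCoprime n (W : ℤ) ↔ IsCoprime m (W : ℤ) := by
    obtain ⟨k, hk⟩ := Int.modEq_iff_dvd.mp h
    have h2 : m = n + (W : ℤ) * k := by linarith
    rw [h2, IsCoprime.add_mul_left_left_iff]
  unfold nu
  by_cases h2 : IsCoprime n (W : ℤ)
  · rw [if_pos h2, if_pos (h1.mp h2)]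
  · rw [if_neg h2, if_neg (fun h3 => h2 (h1.mpr h3))]

lemma nu_nonneg (W : ℕ) (n : ℤ) : 0 ≤ nu W n := by
  unfold nu
  split_ifs
  · positivity
  · exact le_rfl

/-- `nu W n ≤ W` for `W ≥ 1`. -/
lemma nu_le (W : ℕ) (hW : 1 ≤ W) (n : ℤ) : nu W n ≤ W := by
  unfold nu
  have h1 : (1 : ℝ) ≤ Nat.totient W := by
    exact_mod_cast Nat.totient_pos.mpr hW
  split_ifs
  · exact div_le_self (Nat.cast_nonneg W) h1
  · exact Nat.cast_nonneg W

private lemma E05_range (W : ℕ) [NeZero W] (G : ZMod W → ℝ) :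
    ∑ c ∈ Finset.range W, G (c : ZMod W) = ∑ z, G z := by
  apply Finset.sum_nbij' (fun c : ℕ => (c : ZMod W)) (fun z : ZMod W => z.val)
  · intro c _
    exact Finset.mem_univ _
  · intro z _
    exact Finset.mem_range.mpr (ZMod.val_lt z)
  · intro c hc
    exact ZMod.val_natCast_of_lt (Finset.mem_range.mp hc)
  · intro z _
    exact ZMod.natCast_zmod_val z
  · intro c _
    rfl

/-- The sum over a period does not depend on the interval, also after multiplication of the variable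
by a number coprime to the period: for `f` periodic modulo `W₁` and `W₀` coprime to `W₁`,
`∑_{c < W₁} f(b + W₀ c) = ∑_{c < W₁} f(c)`. -/
lemma sum_period_affine (W₀ W₁ : ℕ) (hW₁ : 1 ≤ W₁) (h : Nat.Coprime W₀ W₁) (f : ℤ → ℝ)
    (hf : ∀ n m : ℤ, n ≡ m [ZMOD (W₁ : ℤ)] → f n = f m) (b : ℤ) :
    ∑ c ∈ Finset.range W₁, f (b + W₀ * c) = ∑ c ∈ Finset.range W₁, f c := by
  have _ : NeZero W₁ := ⟨by omega⟩
  have hF : ∀ n : ℤ, f n = f (((n : ZMod W₁).val : ℕ) : ℤ) := by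
    intro n
    apply hf
    rw [ZMod.val_intCast]
    exact (Int.mod_modEq n W₁).symm
  have h1 : ∀ c ∈ Finset.range W₁, f (b + W₀ * c) =
      (fun z : ZMod W₁ => f ((((b : ZMod W₁) + (W₀ : ZMod W₁) * z).val : ℕ) : ℤ))
        (c : ZMod W₁) := by
    intro c _
    rw [hF (b + W₀ * c)]
    push_cast
    rfl
  have h2 : ∀ c ∈ Finset.range W₁, f (c : ℤ) =
      (fun z : ZMod W₁ => f ((z.val : ℕ) : ℤ)) (c : ZMod W₁) := by
    intro c _
    rw [hF (c : ℤ)]
    push_cast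
    rfl
  rw [Finset.sum_congr rfl h1, Finset.sum_congr rfl h2]
  refine (E05_range W₁ (fun z : ZMod W₁ =>
    f ((((b : ZMod W₁) + (W₀ : ZMod W₁) * z).val : ℕ) : ℤ))).trans (Eq.trans ?_
      (E05_range W₁ (fun z : ZMod W₁ => f ((z.val : ℕ) : ℤ))).symm)
  have hu : IsUnit (W₀ : ZMod W₁) := (ZMod.isUnit_iff_coprime W₀ W₁).mpr h
  have hbij : Function.Bijective (fun z : ZMod W₁ => (b : ZMod W₁) + (W₀ : ZMod W₁) * z) := by
    rw [Finite.injective_iff_bijective.symm]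
    intro x y hxy
    simp only [add_right_inj] at hxy
    exact hu.mul_left_cancel hxy
  exact hbij.sum_comp (fun z : ZMod W₁ => f ((z.val : ℕ) : ℤ))

/-- One prime: `∑_{c < p} ∏_i nu p (c - h_i) = p (1 - nup p h / p) / (1 - 1/p)^j`: the product is
`(p / (p - 1))^j` if `c` is none of the residues of the `h_i`, and `0` otherwise (for `j = 0` the
product is `1` and `nup = 0`). -/
lemma sum_nu_prime (p : ℕ) (hp : p.Prime) {j : ℕ} (h : Fin j → ℤ) :
    ∑ c ∈ Finset.range p, ∏ i, nu p ((c : ℤ) - h i)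
      = p * ((1 - (nup p h : ℝ) / p) / (1 - 1 / (p : ℝ)) ^ j) := by
  classical
  have hpR : (2 : ℝ) ≤ p := by exact_mod_cast hp.two_le
  have hp0 : (0 : ℤ) < p := by exact_mod_cast hp.pos
  have hcop : ∀ n : ℤ, IsCoprime n (p : ℤ) ↔ ¬ (p : ℤ) ∣ n := by
    intro n
    rw [isCoprime_comm]
    exact (Nat.prime_iff_prime_int.mp hp).irreducible.coprime_iff_not_dvd
  have hnu : ∀ n : ℤ, nu p n = if (p : ℤ) ∣ n then 0 else (p : ℝ) / ((p : ℝ) - 1) := by
    intro n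
    unfold nu
    rw [Nat.totient_prime hp, Nat.cast_sub hp.one_lt.le, Nat.cast_one]
    by_cases h1 : (p : ℤ) ∣ n
    · rw [if_pos h1, if_neg (fun h2 => (hcop n).mp h2 h1)]
    · rw [if_neg h1, if_pos ((hcop n).mpr h1)]
  have hdvd : ∀ c ∈ Finset.range p, ∀ i, (p : ℤ) ∣ (c : ℤ) - h i ↔ (c : ℤ) = h i % p := by
    intro c hc i
    rw [Finset.mem_range] at hc
    have h1 : (c : ℤ) % p = c := Int.emod_eq_of_lt (by positivity) (by exact_mod_cast hc)
    constructor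
    · intro h2
      have h3 : h i ≡ (c : ℤ) [ZMOD (p : ℤ)] := Int.modEq_iff_dvd.mpr h2
      unfold Int.ModEq at h3
      rw [h3, h1]
    · intro h2
      apply Int.modEq_iff_dvd.mp
      unfold Int.ModEq
      rw [h1, h2]
  have hterm : ∀ c ∈ Finset.range p, ∏ i, nu p ((c : ℤ) - h i) =
      if (c : ℤ) ∈ Finset.univ.image (fun i => h i % (p : ℤ)) then 0
        else ((p : ℝ) / ((p : ℝ) - 1)) ^ j := by
    intro c hc
    split_ifs with h1
    · rw [Finset.mem_image] at h1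
      obtain ⟨i, _, hi⟩ := h1
      apply Finset.prod_eq_zero (Finset.mem_univ i)
      rw [hnu, if_pos ((hdvd c hc i).mpr hi.symm)]
    · have h2 : ∀ i ∈ (Finset.univ : Finset (Fin j)), nu p ((c : ℤ) - h i) =
          (p : ℝ) / ((p : ℝ) - 1) := by
        intro i _
        rw [hnu, if_neg]
        intro h3
        apply h1
        rw [Finset.mem_image]
        exact ⟨i, Finset.mem_univ i, ((hdvd c hc i).mp h3).symm⟩
      rw [Finset.prod_congr rfl h2, Finset.prod_const, Finset.card_univ, Fintype.card_fin]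
  rw [Finset.sum_congr rfl hterm, Finset.sum_ite, Finset.sum_const_zero, zero_add,
    Finset.sum_const, nsmul_eq_mul]
  have hcard1 : ((Finset.range p).filter
      (fun c : ℕ => (c : ℤ) ∈ Finset.univ.image (fun i => h i % (p : ℤ)))).card = nup p h := by
    unfold nup
    rw [← Finset.card_image_of_injective _ (Nat.cast_injective (R := ℤ))]
    congr 1
    ext z
    rw [Finset.mem_image]
    constructor
    · rintro ⟨c, hc, rfl⟩
      rw [Finset.mem_filter] at hc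
      exact hc.2
    · intro hz
      have hz' := hz
      rw [Finset.mem_image] at hz'
      obtain ⟨i, _, hi⟩ := hz'
      have h1 := Int.emod_nonneg (h i) hp0.ne'
      have h2 := Int.emod_lt_of_pos (h i) hp0
      have h3 : ((z.toNat : ℕ) : ℤ) = z := Int.toNat_of_nonneg (by rw [← hi]; exact h1)
      refine ⟨z.toNat, ?_, h3⟩
      rw [Finset.mem_filter, Finset.mem_range, h3]
      refine ⟨?_, hz⟩
      have h4 : z < p := by
        rw [← hi]
        exact h2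
      omega
  have hcard2 : (((Finset.range p).filter
      (fun c : ℕ => ¬ (c : ℤ) ∈ Finset.univ.image (fun i => h i % (p : ℤ)))).card : ℝ) =
      p - nup p h := by
    have h1 := Finset.card_filter_add_card_filter_not (s := Finset.range p)
      (fun c : ℕ => (c : ℤ) ∈ Finset.univ.image (fun i => h i % (p : ℤ)))
    rw [hcard1, Finset.card_range] at h1
    have h2 : (nup p h : ℝ) + (((Finset.range p).filter
      (fun c : ℕ => ¬ (c : ℤ) ∈ Finset.univ.image (fun i => h i % (p : ℤ)))).card : ℝ) = p := by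
      exact_mod_cast h1
    linarith
  rw [hcard2]
  have hp1 : (p : ℝ) - 1 ≠ 0 := by linarith
  have hpne : (p : ℝ) ≠ 0 := by linarith
  have e1 : 1 - 1 / (p : ℝ) = ((p : ℝ) / ((p : ℝ) - 1))⁻¹ := by
    field_simp
  rw [e1, inv_pow, div_inv_eq_mul]
  field_simp

/-- Splitting of the period: for coprime `W₀, W₁ ≥ 1`,
`∑_{c < W₀ W₁} ∏ nu (W₀ W₁) (c - h_i) = (∑_{c < W₀} ∏ nu W₀ (c - h_i)) (∑_{c < W₁} ∏ nu W₁ (c - h_i))`.

PROOF. Write `c = b + W₀ c'` with `b < W₀`, `c' < W₁` (`Nat.divMod` bijection); by `nu_mul` and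
`nu_periodic` the product is `∏ nu W₀ (b - h_i) ∏ nu W₁ (b + W₀ c' - h_i)`; the sum over `c'` is
independent of `b` by `sum_period_affine`. -/
lemma sum_nu_mul (W₀ W₁ : ℕ) (h0 : 1 ≤ W₀) (h1 : 1 ≤ W₁) (hc : Nat.Coprime W₀ W₁) {j : ℕ}
    (h : Fin j → ℤ) :
    ∑ c ∈ Finset.range (W₀ * W₁), ∏ i, nu (W₀ * W₁) ((c : ℤ) - h i)
      = (∑ c ∈ Finset.range W₀, ∏ i, nu W₀ ((c : ℤ) - h i))
        * ∑ c ∈ Finset.range W₁, ∏ i, nu W₁ ((c : ℤ) - h i) := by
  have hbij : ∑ c ∈ Finset.range (W₀ * W₁), ∏ i, nu (W₀ * W₁) ((c : ℤ) - h i) =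
      ∑ x ∈ Finset.range W₀ ×ˢ Finset.range W₁,
        ∏ i, nu (W₀ * W₁) (((x.1 + W₀ * x.2 : ℕ) : ℤ) - h i) := by
    apply Finset.sum_nbij' (fun c : ℕ => (c % W₀, c / W₀)) (fun x : ℕ × ℕ => x.1 + W₀ * x.2)
    · intro c hc
      rw [Finset.mem_range] at hc
      rw [Finset.mem_product, Finset.mem_range, Finset.mem_range]
      exact ⟨Nat.mod_lt _ (by omega), Nat.div_lt_of_lt_mul hc⟩
    · rintro ⟨x, y⟩ hx
      rw [Finset.mem_product, Finset.mem_range, Finset.mem_range] at hx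
      rw [Finset.mem_range]
      obtain ⟨hx1, hx2⟩ := hx
      simp only at hx1 hx2 ⊢
      have h3 : W₀ * (y + 1) ≤ W₀ * W₁ := Nat.mul_le_mul_left W₀ hx2
      calc x + W₀ * y < W₀ + W₀ * y := by omega
        _ = W₀ * (y + 1) := by ring
        _ ≤ W₀ * W₁ := h3
    · intro c _
      exact Nat.mod_add_div c W₀
    · rintro ⟨x, y⟩ hx
      rw [Finset.mem_product, Finset.mem_range, Finset.mem_range] at hx
      obtain ⟨hx1, hx2⟩ := hx
      simp only at hx1 hx2 ⊢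
      rw [Nat.add_mul_mod_self_left, Nat.mod_eq_of_lt hx1, Nat.add_mul_div_left _ _ (by omega),
        Nat.div_eq_of_lt hx1, zero_add]
    · intro c _
      simp only [Nat.mod_add_div]
  rw [hbij, Finset.sum_product, Finset.sum_mul]
  apply Finset.sum_congr rfl
  intro b _
  have h2 : ∀ c ∈ Finset.range W₁, ∏ i, nu (W₀ * W₁) (((b + W₀ * c : ℕ) : ℤ) - h i) =
      (∏ i, nu W₀ ((b : ℤ) - h i)) *
        (fun n : ℤ => ∏ i, nu W₁ (n - h i)) ((b : ℤ) + W₀ * c) := by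
    intro c _
    simp only
    rw [← Finset.prod_mul_distrib]
    apply Finset.prod_congr rfl
    intro i _
    rw [nu_mul W₀ W₁ hc]
    push_cast
    congr 1
    apply nu_periodic
    apply Int.modEq_iff_dvd.mpr
    refine ⟨-c, ?_⟩
    ring
  rw [Finset.sum_congr rfl h2, ← Finset.mul_sum]
  congr 1
  refine sum_period_affine W₀ W₁ h1 hc (fun n : ℤ => ∏ i, nu W₁ (n - h i)) ?_ b
  intro n m hnm
  apply Finset.prod_congr rfl
  intro i _
  apply nu_periodic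
  exact Int.ModEq.sub_right _ hnm

/-- For squarefree `W`: `∑_{c < W} ∏_i nu W (c - h_i) = W * SS W h`. Induction on the prime factors
of `W` (`sum_nu_prime`, `sum_nu_mul`; `W = 1`: both sides are `1`). -/
theorem sum_nu_eq_SS (W : ℕ) (hW : Squarefree W) {j : ℕ} (h : Fin j → ℤ) :
    ∑ c ∈ Finset.range W, ∏ i, nu W ((c : ℤ) - h i) = W * SS W h := by
  induction W using Nat.strong_induction_on with
  | _ W ih =>
    by_cases hW1 : W = 1
    · subst hW1
      unfold SS nu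
      simp [isCoprime_one_right]
    have hW0 : W ≠ 0 := hW.ne_zero
    have hp : W.minFac.Prime := Nat.minFac_prime hW1
    obtain ⟨e, he⟩ := Nat.minFac_dvd W
    have hsq := hW
    rw [he, Nat.squarefree_mul_iff] at hsq
    obtain ⟨hpe, _, hesq⟩ := hsq
    have he0 : e ≠ 0 := by
      intro h0
      rw [h0, mul_zero] at he
      exact hW0 he
    have hlt : e < W := by
      have h2 := hp.two_le
      have h3 : 0 < e := Nat.pos_of_ne_zero he0
      calc e < 2 * e := by omega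
        _ ≤ W.minFac * e := Nat.mul_le_mul_right e h2
        _ = W := he.symm
    have h4 := sum_nu_mul W.minFac e hp.pos (Nat.pos_of_ne_zero he0) hpe h
    rw [← he, sum_nu_prime W.minFac hp h, ih e hlt hesq] at h4
    rw [h4]
    have h5 : SS W h = ((1 - (nup W.minFac h : ℝ) / W.minFac) /
        (1 - 1 / (W.minFac : ℝ)) ^ j) * SS e h := by
      unfold SS
      have h6 : W.primeFactors = W.minFac.primeFactors ∪ e.primeFactors := by
        conv_lhs => rw [he]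
        exact hpe.primeFactors_mul
      rw [h6, Finset.prod_union hpe.disjoint_primeFactors, hp.primeFactors, Finset.prod_singleton]
    rw [h5]
    have h7 : (W : ℝ) = W.minFac * e := by exact_mod_cast he
    rw [h7]
    ring

end Pool.Agent.Lib.MP_bae66e_nt.LL
end

section

/-!
# B04: the bad classes
-/

set_option autoImplicit false

open Finset

namespace Pool.Agent.Lib.MP_bae66e_nt.LL

/-- `∑_{a < W} nu W (a - n) = W`: the period sum of `nu W` is `φ(W) * (W / φ(W))`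
(`sum_period_affine`, `nu_periodic`, E05). -/
lemma sum_nu_class (W : ℕ) (hW : 1 ≤ W) (n : ℤ) :
    ∑ a ∈ Finset.range W, nu W ((a : ℤ) - n) = W := by
  have h1 := sum_period_affine 1 W hW (Nat.coprime_one_left W) (nu W)
    (fun n m h => nu_periodic W n m h) (-n)
  have e1 : ∑ a ∈ Finset.range W, nu W ((a : ℤ) - n) =
      ∑ c ∈ Finset.range W, nu W (-n + ((1 : ℕ) : ℤ) * c) := by
    apply Finset.sum_congr rfl
    intro c _
    congr 1
    push_cast
    ring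
  rw [e1, h1]
  have h2 : ∀ c ∈ Finset.range W, nu W (c : ℤ) =
      if W.Coprime c then (W : ℝ) / (Nat.totient W : ℝ) else 0 := by
    intro c _
    unfold nu
    have h3 : IsCoprime (c : ℤ) (W : ℤ) ↔ W.Coprime c := by
      rw [Nat.isCoprime_iff_coprime, Nat.coprime_comm]
    by_cases h4 : W.Coprime c
    · rw [if_pos h4, if_pos (h3.mpr h4)]
    · rw [if_neg h4, if_neg (fun h5 => h4 (h3.mp h5))]
  have h3 : (0 : ℝ) < Nat.totient W := by exact_mod_cast Nat.totient_pos.mpr hW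
  rw [Finset.sum_congr rfl h2, ← Finset.sum_filter, Finset.sum_const, nsmul_eq_mul,
    ← Nat.totient_eq_card_coprime]
  field_simp

private lemma B04_QQ_zero (L N : ℕ) :
    ∑ i ∈ Finset.range N, (QQ (i * L) L).card = (QQ 0 (N * L)).card := by
  induction N with
  | zero =>
    unfold QQ
    simp
  | succ N ih =>
    rw [Finset.sum_range_succ, ih]
    have hd : Disjoint (QQ 0 (N * L)) (QQ (N * L) L) := by
      rw [Finset.disjoint_left]
      intro q hq hq'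
      unfold QQ at hq hq'
      rw [Finset.mem_filter, Finset.mem_Ioc] at hq hq'
      omega
    rw [← Finset.card_union_of_disjoint hd]
    congr 1
    unfold QQ
    ext q
    rw [Finset.mem_union, Finset.mem_filter, Finset.mem_filter, Finset.mem_filter,
      Finset.mem_Ioc, Finset.mem_Ioc, Finset.mem_Ioc, Nat.add_mul, one_mul]
    constructor
    · rintro (⟨h1, h2⟩ | ⟨h1, h2⟩)
      · exact ⟨⟨by omega, by omega⟩, h2⟩
      · exact ⟨⟨by omega, by omega⟩, h2⟩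
    · rintro ⟨h1, h2⟩
      by_cases h3 : q ≤ N * L
      · exact Or.inl ⟨⟨by omega, by omega⟩, h2⟩
      · exact Or.inr ⟨⟨by omega, by omega⟩, h2⟩

private lemma B04_primeCounting (X : ℕ) : Nat.primeCounting X = (QQ 0 X).card := by
  unfold QQ Nat.primeCounting Nat.primeCounting'
  rw [Nat.count_eq_card_filter_range]
  congr 1
  ext q
  rw [Finset.mem_filter, Finset.mem_filter, Finset.mem_range, Finset.mem_Ioc]
  constructor
  · rintro ⟨h1, h2⟩
    exact ⟨⟨h2.pos, by omega⟩, h2⟩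
  · rintro ⟨h1, h2⟩
    exact ⟨by omega, h2⟩

private lemma B04_mono (A B : ℕ) (h : A ≤ B) : (QQ 0 A).card ≤ (QQ 0 B).card := by
  apply Finset.card_le_card
  intro q hq
  unfold QQ at hq ⊢
  rw [Finset.mem_filter, Finset.mem_Ioc] at hq ⊢
  exact ⟨⟨hq.1.1, by omega⟩, hq.2⟩

/-- The blocks `QQ (i L) L`, `i < X / L`, are disjoint subsets of the primes `≤ X`. -/
lemma sum_card_QQ_le (X L : ℕ) (hL : 0 < L) :
    ∑ i ∈ Finset.range (X / L), ((QQ (i * L) L).card : ℝ) ≤ (Nat.primeCounting X : ℝ) := by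
  have h1 : ∑ i ∈ Finset.range (X / L), (QQ (i * L) L).card ≤ Nat.primeCounting X := by
    rw [B04_QQ_zero, B04_primeCounting]
    exact B04_mono _ _ (Nat.div_mul_le_self X L)
  exact_mod_cast h1

private lemma B04_UU_sum (W y : ℕ) (hW : 1 ≤ W) (Q : Finset ℕ) :
    ∑ a ∈ Finset.range W, UU W y Q a = (Q.card : ℝ) * (W / Real.log y) := by
  unfold UU
  rw [Finset.sum_comm]
  have h1 : ∀ q ∈ Q, ∑ a ∈ Finset.range W, nu W ((a : ℤ) - q) / Real.log y =
      W / Real.log y := by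
    intro q _
    rw [← Finset.sum_div, sum_nu_class W hW]
  rw [Finset.sum_congr rfl h1, Finset.sum_const, nsmul_eq_mul]

private lemma B04_UU_nonneg (W y : ℕ) (Q : Finset ℕ) (a : ℕ) : 0 ≤ UU W y Q a := by
  unfold UU
  exact Finset.sum_nonneg fun q _ => div_nonneg (nu_nonneg W _) (Real.log_natCast_nonneg y)

/-- `∑_i ∑_a UU(i, a) ≤ (W / log y) (5 X / log X)`. (`pi_upper` of `Cheb.lean`.) -/
lemma sum_UU_le (X L W y : ℕ) (hL : 0 < L) (hW : 1 ≤ W) (hy : 2 ≤ y) (hX : 2 ≤ X) :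
    ∑ i ∈ Finset.range (X / L), ∑ a ∈ Finset.range W, UU W y (QQ (i * L) L) a
      ≤ W / Real.log y * (5 * X / Real.log X) := by
  have h1 : ∀ i ∈ Finset.range (X / L), ∑ a ∈ Finset.range W, UU W y (QQ (i * L) L) a =
      ((QQ (i * L) L).card : ℝ) * (W / Real.log y) := fun i _ =>
    B04_UU_sum W y hW _
  rw [Finset.sum_congr rfl h1, ← Finset.sum_mul, mul_comm]
  apply mul_le_mul_of_nonneg_left
  · exact (sum_card_QQ_le X L hL).trans (pi_upper X hX)
  · exact div_nonneg (Nat.cast_nonneg W) (Real.log_natCast_nonneg y)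

/-- Markov: the number of pairs `(i, a)` with `UU > Λ` is at most `(1/Λ) (W / log y) (5 X / log X)`. -/
lemma card_bad_le (X L W y : ℕ) (hL : 0 < L) (hW : 1 ≤ W) (hy : 2 ≤ y) (hX : 2 ≤ X) (Λ : ℝ)
    (hΛ : 0 < Λ) :
    (((Finset.range (X / L) ×ˢ Finset.range W).filter
      (fun ia => Λ < UU W y (QQ (ia.1 * L) L) ia.2)).card : ℝ)
      ≤ 1 / Λ * (W / Real.log y * (5 * X / Real.log X)) := by
  set B : Finset (ℕ × ℕ) := (Finset.range (X / L) ×ˢ Finset.range W).filter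
      (fun ia => Λ < UU W y (QQ (ia.1 * L) L) ia.2) with hB
  have h1 : (B.card : ℝ) * Λ ≤ ∑ ia ∈ B, UU W y (QQ (ia.1 * L) L) ia.2 := by
    rw [← nsmul_eq_mul, ← Finset.sum_const]
    apply Finset.sum_le_sum
    intro ia hia
    rw [hB, Finset.mem_filter] at hia
    exact hia.2.le
  have h2 : ∑ ia ∈ B, UU W y (QQ (ia.1 * L) L) ia.2 ≤
      ∑ ia ∈ Finset.range (X / L) ×ˢ Finset.range W, UU W y (QQ (ia.1 * L) L) ia.2 := by
    apply Finset.sum_le_sum_of_subset_of_nonneg (Finset.filter_subset _ _)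
    intro ia _ _
    exact B04_UU_nonneg W y _ _
  have h3 := sum_UU_le X L W y hL hW hy hX
  rw [Finset.sum_product] at h2
  rw [one_div, ← div_eq_inv_mul, le_div_iff₀ hΛ]
  exact h1.trans (h2.trans h3)

end Pool.Agent.Lib.MP_bae66e_nt.LL
end

section

/-!
# LP/M0a: elementary facts on the scale, the windows and the intensities
-/

set_option autoImplicit false

open Finset Filter Topology

namespace Pool.Agent.Lib.MP_bae66e_nt.LP

open Pool.Agent.Lib.MP_bae66e_nt.LL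

/-- Growth: for every `N` and large `X`: `loglog X ≥ N`, `log X ≥ N`, `loglog X ≤ log X / N`,
`(log X)² ≤ X / N` (`N ≥ 1`), `X ≥ N`. -/
lemma growth (N : ℝ) (hN : 1 ≤ N) : ∃ X₀ : ℕ, ∀ X : ℕ, X₀ ≤ X →
    N ≤ ell X ∧ N ≤ Real.log X ∧ N * ell X ≤ Real.log X ∧ N * (Real.log X) ^ 2 ≤ X ∧ N ≤ X := by
  have hN0 : 0 < N := by linarith
  have hc : (0 : ℝ) < 1 / N := by positivity
  have tN := tendsto_natCast_atTop_atTop (R := ℝ)
  have tL := Real.tendsto_log_atTop.comp tN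
  have tLL := Real.tendsto_log_atTop.comp tL
  have e1 := tLL.eventually (eventually_ge_atTop N)
  have e2 := tL.eventually (eventually_ge_atTop N)
  have e3 := tL.eventually (Real.isLittleO_log_id_atTop.def hc)
  have e4 := tN.eventually ((Real.isLittleO_pow_log_id_atTop (n := 2)).def hc)
  have e5 := tN.eventually (eventually_ge_atTop N)
  obtain ⟨X₀, h⟩ := eventually_atTop.1 ((e1.and e2).and ((e3.and e4).and e5))
  refine ⟨X₀, fun X hX => ?_⟩
  obtain ⟨⟨h1, h2⟩, ⟨⟨h3, h4⟩, h5⟩⟩ := h X hX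
  simp only [Function.comp_apply, id_eq, Real.norm_eq_abs] at h1 h2 h3 h4
  refine ⟨h1, h2, ?_, ?_, h5⟩
  · unfold ell
    have h6 : 0 ≤ Real.log X := by linarith
    rw [abs_of_nonneg h6] at h3
    have h7 := le_trans (le_abs_self _) h3
    calc N * Real.log (Real.log X) ≤ N * (1 / N * Real.log X) :=
          mul_le_mul_of_nonneg_left h7 hN0.le
      _ = Real.log X := by field_simp
  · have h6 : (0 : ℝ) ≤ X := Nat.cast_nonneg X
    rw [abs_of_nonneg h6] at h4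
    have h7 := le_trans (le_abs_self _) h4
    calc N * (Real.log X) ^ 2 ≤ N * (1 / N * X) := mul_le_mul_of_nonneg_left h7 hN0.le
      _ = X := by field_simp

/-- `yX 0 X = 0`. -/
lemma yX_zero (X : ℕ) : yX 0 X = 0 := by
  unfold yX
  simp

/-- `yX` is monotone in `t` if `log X loglog X ≥ 0`. -/
lemma yX_mono (X : ℕ) (hX : 0 ≤ Real.log X * ell X) {a b : ℝ} (hab : a ≤ b) : yX a X ≤ yX b X := by
  unfold yX
  apply Nat.floor_mono
  have h1 : a * (Real.log X * ell X) ≤ b * (Real.log X * ell X) :=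
    mul_le_mul_of_nonneg_right hab hX
  unfold ell at h1
  rw [mul_assoc, mul_assoc]
  exact h1

/-- `t L - 1 ≤ yX t X ≤ t L`, `L = log X loglog X`, `t ≥ 0`. -/
lemma yX_le (X : ℕ) (hX : 0 ≤ Real.log X * ell X) {t : ℝ} (ht : 0 ≤ t) :
    (yX t X : ℝ) ≤ t * (Real.log X * ell X) := by
  unfold yX
  have h1 : 0 ≤ t * (Real.log X * ell X) := mul_nonneg ht hX
  unfold ell at h1 ⊢
  rw [← mul_assoc] at h1 ⊢
  exact Nat.floor_le h1

lemma le_yX (X : ℕ) (t : ℝ) : t * (Real.log X * ell X) - 1 ≤ (yX t X : ℝ) := by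
  unfold yX ell
  rw [← mul_assoc]
  exact (Nat.sub_one_lt_floor _).le

lemma mem_Wd (X : ℕ) (a b : ℝ) (m : ℤ) (q : ℕ) :
    q ∈ Wd X a b m ↔ q ≤ X ∧ q.Prime ∧ (yX a X : ℤ) < m - q ∧ m - q ≤ (yX b X : ℤ) := by
  unfold Wd QQ
  rw [Finset.mem_filter, Finset.mem_filter, Finset.mem_Ioc, zero_add]
  constructor
  · rintro ⟨⟨⟨_, h2⟩, h3⟩, h4, h5⟩
    exact ⟨h2, h3, h4, h5⟩
  · rintro ⟨h2, h3, h4, h5⟩
    exact ⟨⟨⟨h3.pos, h2⟩, h3⟩, h4, h5⟩

end Pool.Agent.Lib.MP_bae66e_nt.LP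
end

section

/-!
# LP/M0c: elementary facts on the scale, the windows and the intensities
-/

set_option autoImplicit false

open Finset Filter Topology

namespace Pool.Agent.Lib.MP_bae66e_nt.LP

open Pool.Agent.Lib.MP_bae66e_nt.LL

private lemma M0c_card_QQ (X : ℕ) : (QQ 0 X).card = Nat.primeCounting X := by
  unfold QQ
  rw [Nat.primeCounting, Nat.primeCounting', Nat.count_eq_card_filter_range, zero_add]
  congr 1
  ext p
  simp only [Finset.mem_filter, Finset.mem_Ioc, Finset.mem_range]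
  constructor
  · rintro ⟨⟨_, h⟩, hp⟩
    exact ⟨by omega, hp⟩
  · rintro ⟨h, hp⟩
    exact ⟨⟨hp.pos, by omega⟩, hp⟩

/-- The number of primes `≤ X`: `X/(4 log X) ≤ #QQ 0 X ≤ 5 X / log X` for `X ≥ 16`. -/
lemma card_QQ_bounds (X : ℕ) (hX : 16 ≤ X) :
    (X : ℝ) / (4 * Real.log X) ≤ ((QQ 0 X).card : ℝ) ∧ ((QQ 0 X).card : ℝ) ≤ 5 * X / Real.log X := by
  rw [M0c_card_QQ]
  exact ⟨pi_lower X hX, pi_upper X (by omega)⟩

/-- Paley-Zygmund: `f ≥ 0` on `S`, `A ≤ ∑ f`, `∑ f² ≤ B`, `τ #S' ≤ A/2` where `S'` contains the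
support, `0 ≤ τ`. Then `(A/2)² ≤ B #{f ≥ τ}`.

PROOF. `∑_{f < τ} f ≤ τ #S' ≤ A/2`, so `∑_{f ≥ τ} f ≥ A/2`; Cauchy-Schwarz. -/
lemma paley_zygmund (S S' : Finset ℤ) (f : ℤ → ℝ) (A B τ : ℝ) (hf : ∀ m ∈ S, 0 ≤ f m)
    (hS' : ∀ m ∈ S, m ∉ S' → f m = 0) (hA : A ≤ ∑ m ∈ S, f m) (hA0 : 0 ≤ A)
    (hB : ∑ m ∈ S, (f m) ^ 2 ≤ B) (hτ0 : 0 ≤ τ) (hτ : τ * S'.card ≤ A / 2) :
    (A / 2) ^ 2 ≤ B * ((S.filter (fun m => τ ≤ f m)).card : ℝ) := by
  classical
  have h1 := Finset.sum_filter_add_sum_filter_not S (fun m => τ ≤ f m) f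
  have h2 : ∑ m ∈ S.filter (fun m => ¬ τ ≤ f m), f m ≤ A / 2 := by
    have h3 : ∑ m ∈ S.filter (fun m => ¬ τ ≤ f m), f m ≤
        ∑ m ∈ (S.filter (fun m => ¬ τ ≤ f m)).filter (fun m => m ∈ S'), τ := by
      rw [← Finset.sum_filter_add_sum_filter_not (S.filter (fun m => ¬ τ ≤ f m)) (fun m => m ∈ S') f]
      have h4 : ∑ m ∈ (S.filter (fun m => ¬ τ ≤ f m)).filter (fun m => ¬ m ∈ S'), f m = 0 := by
        refine Finset.sum_eq_zero fun m hm => ?_
        rw [Finset.mem_filter, Finset.mem_filter] at hm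
        exact hS' m hm.1.1 hm.2
      rw [h4, add_zero]
      refine Finset.sum_le_sum fun m hm => ?_
      rw [Finset.mem_filter, Finset.mem_filter] at hm
      exact (not_le.1 hm.1.2).le
    refine h3.trans (le_trans ?_ hτ)
    rw [Finset.sum_const, nsmul_eq_mul, mul_comm]
    apply mul_le_mul_of_nonneg_left _ hτ0
    have h5 : (S.filter (fun m => ¬ τ ≤ f m)).filter (fun m => m ∈ S') ⊆ S' := by
      intro m hm
      exact (Finset.mem_filter.1 hm).2
    exact_mod_cast Finset.card_le_card h5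
  have h3 : A / 2 ≤ ∑ m ∈ S.filter (fun m => τ ≤ f m), f m := by linarith
  have h4 : (∑ m ∈ S.filter (fun m => τ ≤ f m), f m) ^ 2 ≤
      ((S.filter (fun m => τ ≤ f m)).card : ℝ) * ∑ m ∈ S.filter (fun m => τ ≤ f m), (f m) ^ 2 :=
    sq_sum_le_card_mul_sum_sq
  have h5 : ∑ m ∈ S.filter (fun m => τ ≤ f m), (f m) ^ 2 ≤ B :=
    (Finset.sum_le_sum_of_subset_of_nonneg (Finset.filter_subset _ _) fun m _ _ => sq_nonneg _).trans hB
  calc (A / 2) ^ 2 ≤ (∑ m ∈ S.filter (fun m => τ ≤ f m), f m) ^ 2 := by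
        have : 0 ≤ A / 2 := by linarith
        gcongr
    _ ≤ _ := h4
    _ ≤ ((S.filter (fun m => τ ≤ f m)).card : ℝ) * B :=
        mul_le_mul_of_nonneg_left h5 (Nat.cast_nonneg _)
    _ = _ := mul_comm _ _

/-- Markov: `#{m ∈ S : f m > T} ≤ B / T` if `f ≥ 0`, `∑ f ≤ B`, `T > 0`. -/
lemma markov (S : Finset ℤ) (f : ℤ → ℝ) (B T : ℝ) (hf : ∀ m ∈ S, 0 ≤ f m)
    (hB : ∑ m ∈ S, f m ≤ B) (hT : 0 < T) :
    ((S.filter (fun m => T < f m)).card : ℝ) ≤ B / T := by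
  rw [le_div_iff₀ hT]
  calc ((S.filter (fun m => T < f m)).card : ℝ) * T
      = ∑ m ∈ S.filter (fun m => T < f m), T := by rw [Finset.sum_const, nsmul_eq_mul]
    _ ≤ ∑ m ∈ S.filter (fun m => T < f m), f m :=
        Finset.sum_le_sum fun m hm => (Finset.mem_filter.1 hm).2.le
    _ ≤ ∑ m ∈ S, f m :=
        Finset.sum_le_sum_of_subset_of_nonneg (Finset.filter_subset _ _) fun m hm _ => hf m hm
    _ ≤ B := hB

end Pool.Agent.Lib.MP_bae66e_nt.LP
end

section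

/-!
# J01: the sum of the intensity over a class
-/

set_option autoImplicit false

open Finset

namespace Pool.Agent.Lib.MP_bae66e_nt.LL

private lemma J01_card_class_le (W y : ℕ) (hW : 1 ≤ W) (c a : ℤ) :
    (((Finset.Ioc c (c + y)).filter (fun m => m ≡ a [ZMOD (W : ℤ)])).card : ℝ)
      ≤ (y : ℝ) / W + 1 := by
  have hWpos : (0 : ℤ) < W := by exact_mod_cast hW
  have h := Int.Ioc_filter_modEq_card c (c + y) hWpos a
  have hWq : (0 : ℚ) < (W : ℚ) := by exact_mod_cast hW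
  have h1 : ((((Finset.Ioc c (c + y)).filter (fun m => m ≡ a [ZMOD (W : ℤ)])).card : ℤ) : ℚ)
      ≤ (y : ℚ) / W + 1 := by
    rw [h]
    rcases le_total (⌊((((c + y : ℤ) : ℚ) - (a : ℚ)) / ((W : ℤ) : ℚ))⌋
        - ⌊(((c : ℚ) - (a : ℚ)) / ((W : ℤ) : ℚ))⌋) 0 with h0 | h0
    · rw [max_eq_right h0]
      push_cast
      positivity
    · rw [max_eq_left h0]
      have e1 := Int.floor_le ((((c + y : ℤ) : ℚ) - (a : ℚ)) / ((W : ℤ) : ℚ))
      have e2 := Int.lt_floor_add_one (((c : ℚ) - (a : ℚ)) / ((W : ℤ) : ℚ))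
      have e3 : (((c + y : ℤ) : ℚ) - (a : ℚ)) / ((W : ℤ) : ℚ)
          = ((c : ℚ) - (a : ℚ)) / ((W : ℤ) : ℚ) + (y : ℚ) / W := by
        push_cast
        ring
      rw [e3] at e1 ⊢
      push_cast at e1 e2 ⊢
      linarith
  have h2 : ((((((Finset.Ioc c (c + y)).filter (fun m => m ≡ a [ZMOD (W : ℤ)])).card : ℤ) : ℚ) : ℝ))
      ≤ (((y : ℚ) / W + 1 : ℚ) : ℝ) := by exact_mod_cast h1
  push_cast at h2
  exact h2

/-- `∑_{m ≤ X, m ≡ a (W)} λ(m) ≤ (y/W + 1)/log y * ∑_{q ≤ X} nu W (a - q)`.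

PROOF. Exchange: for fixed `q`, `vv W y (m - q) = nu W (m - q)/log y = nu W (a - q)/log y` if
`1 ≤ m - q ≤ y` and `0` otherwise; the number of `m ≡ a (W)` with `1 ≤ m - q ≤ y` is at most
`y/W + 1`. -/
lemma sum_lam_class_le (X y W : ℕ) (hW : 1 ≤ W) (hy : 2 ≤ y) (a : ℤ) :
    ∑ m ∈ clX X W a, lamQ W y (QQ 0 X) m
      ≤ ((y : ℝ) / W + 1) / Real.log y * ∑ q ∈ QQ 0 X, nu W (a - q) := by
  have hlog : 0 < Real.log y := Real.log_pos (by exact_mod_cast (by omega : 1 < y))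
  unfold lamQ
  rw [Finset.sum_comm, Finset.mul_sum]
  apply Finset.sum_le_sum
  intro q _
  have h1 : ∀ m ∈ clX X W a, vv W y (m - q)
      = if (1 ≤ m - (q : ℤ) ∧ m - (q : ℤ) ≤ (y : ℤ)) then nu W (a - q) / Real.log y else 0 := by
    intro m hm
    have hma := (Finset.mem_filter.1 hm).2
    unfold vv gW
    by_cases h : (1 ≤ m - (q : ℤ) ∧ m - (q : ℤ) ≤ (y : ℤ))
    · rw [if_pos h, if_pos h, nu_periodic W (m - q) (a - q) (Int.ModEq.sub_right _ hma)]
    · rw [if_neg h, if_neg h, zero_div]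
  rw [Finset.sum_congr rfl h1, ← Finset.sum_filter, Finset.sum_const, nsmul_eq_mul]
  have h2 : (((clX X W a).filter (fun m => 1 ≤ m - (q : ℤ) ∧ m - (q : ℤ) ≤ (y : ℤ))).card : ℝ)
      ≤ (y : ℝ) / W + 1 := by
    refine le_trans ?_ (J01_card_class_le W y hW q a)
    have : ((clX X W a).filter (fun m => 1 ≤ m - (q : ℤ) ∧ m - (q : ℤ) ≤ (y : ℤ)))
        ⊆ (Finset.Ioc (q : ℤ) (q + y)).filter (fun m => m ≡ a [ZMOD (W : ℤ)]) := by
      intro m hm
      simp only [clX, Finset.mem_filter, Finset.mem_Ioc] at hm ⊢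
      exact ⟨⟨by omega, by omega⟩, hm.1.2⟩
    exact_mod_cast Finset.card_le_card this
  have h3 : 0 ≤ nu W (a - q) / Real.log y := div_nonneg (nu_nonneg _ _) hlog.le
  calc (((clX X W a).filter (fun m => 1 ≤ m - (q : ℤ) ∧ m - (q : ℤ) ≤ (y : ℤ))).card : ℝ)
        * (nu W (a - q) / Real.log y)
      ≤ ((y : ℝ) / W + 1) * (nu W (a - q) / Real.log y) := mul_le_mul_of_nonneg_right h2 h3
    _ = ((y : ℝ) / W + 1) / Real.log y * nu W (a - q) := by ring

/-- `∑_{q ≤ X} nu W (a - q) ≤ (W/φ(W)) (∑_{b < W, (b, W) = 1, (a - b, W) = 1} π(X; W, b) + W)`: a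
prime `q` either divides `W` (at most `W` such primes) or is in a class `b` coprime to `W`. -/
lemma sum_nu_primes_le (X W : ℕ) (hW : 1 ≤ W) (a : ℤ) :
    ∑ q ∈ QQ 0 X, nu W (a - q)
      ≤ (W : ℝ) / (Nat.totient W : ℝ) * ((∑ b ∈ (Finset.range W).filter
        (fun b : ℕ => IsCoprime (b : ℤ) (W : ℤ) ∧ IsCoprime (a - b) (W : ℤ)),
          (piC X W (b : ℤ) : ℝ)) + W) := by
  classical
  have hWpos : (0 : ℤ) < W := by exact_mod_cast hW
  have h1 : ∑ q ∈ QQ 0 X, nu W (a - q)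
      = (W : ℝ) / (Nat.totient W : ℝ)
        * (((QQ 0 X).filter (fun q : ℕ => IsCoprime (a - (q : ℤ)) (W : ℤ))).card : ℝ) := by
    unfold nu
    rw [← Finset.sum_filter, Finset.sum_const, nsmul_eq_mul, mul_comm]
  rw [h1]
  apply mul_le_mul_of_nonneg_left _ (by positivity)
  set Q := (QQ 0 X).filter (fun q : ℕ => IsCoprime (a - (q : ℤ)) (W : ℤ)) with hQ
  set B := (Finset.range W).filter
        (fun b : ℕ => IsCoprime (b : ℤ) (W : ℤ) ∧ IsCoprime (a - b) (W : ℤ)) with hB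
  have hsplit : Q.card = (Q.filter (fun q => q ∣ W)).card + (Q.filter (fun q => ¬ q ∣ W)).card :=
    (Finset.card_filter_add_card_filter_not (fun q => q ∣ W)).symm
  have hfirst : (Q.filter (fun q => q ∣ W)).card ≤ W := by
    have : Q.filter (fun q => q ∣ W) ⊆ Finset.Icc 1 W := by
      intro q hq
      rw [Finset.mem_filter] at hq
      rw [Finset.mem_Icc]
      exact ⟨Nat.pos_of_dvd_of_pos hq.2 (by omega), Nat.le_of_dvd (by omega) hq.2⟩
    exact (Finset.card_le_card this).trans (by simp)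
  have hmaps : ∀ q ∈ Q.filter (fun q => ¬ q ∣ W), q % W ∈ B := by
    intro q hq
    rw [Finset.mem_filter, hQ, Finset.mem_filter] at hq
    obtain ⟨⟨hq1, hq2⟩, hq3⟩ := hq
    have hqp : q.Prime := (Finset.mem_filter.1 hq1).2
    have hmod : ((q % W : ℕ) : ℤ) ≡ (q : ℤ) [ZMOD (W : ℤ)] := by
      push_cast
      exact Int.mod_modEq _ _
    have hqc : IsCoprime (q : ℤ) (W : ℤ) := by
      rw [Nat.isCoprime_iff_coprime]
      exact (Nat.Prime.coprime_iff_not_dvd hqp).2 hq3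
    rw [hB, Finset.mem_filter, Finset.mem_range]
    refine ⟨Nat.mod_lt _ (by omega), ?_, ?_⟩
    · obtain ⟨t, ht⟩ := hmod.dvd
      have : ((q % W : ℕ) : ℤ) = (q : ℤ) + (-t) * (W : ℤ) := by linarith [mul_comm (W : ℤ) t]
      rw [this]
      exact (IsCoprime.add_mul_right_left_iff).2 hqc
    · obtain ⟨t, ht⟩ := hmod.dvd
      have : a - ((q % W : ℕ) : ℤ) = (a - (q : ℤ)) + t * (W : ℤ) := by linarith [mul_comm (W : ℤ) t]
      rw [this]
      exact (IsCoprime.add_mul_right_left_iff).2 hq2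
  have hsecond : (Q.filter (fun q => ¬ q ∣ W)).card ≤ ∑ b ∈ B, piC X W (b : ℤ) := by
    rw [Finset.card_eq_sum_card_fiberwise hmaps]
    apply Finset.sum_le_sum
    intro b _
    unfold piC
    apply Finset.card_le_card
    intro q hq
    rw [Finset.mem_filter, Finset.mem_filter, hQ, Finset.mem_filter, QQ, Finset.mem_filter] at hq
    obtain ⟨⟨⟨⟨hq1, hq2⟩, _⟩, _⟩, hq3⟩ := hq
    rw [Finset.mem_filter]
    refine ⟨?_, hq2, ?_⟩
    · simpa using hq1
    · rw [← hq3]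
      push_cast
      exact (Int.mod_modEq _ _).symm
  have : (Q.card : ℝ) ≤ ((∑ b ∈ B, piC X W (b : ℤ) + W : ℕ) : ℝ) := by
    exact_mod_cast (by omega : Q.card ≤ ∑ b ∈ B, piC X W (b : ℤ) + W)
  push_cast at this
  exact this

/-- The number of these classes: `#{b < W : (b, W) = 1, (a - b, W) = 1} * W = φ(W)² SS W (0, a)`
for squarefree `W`.

PROOF. `sum_nu_eq_SS` with `h = ![0, a]`: `∑_{c < W} nu W c * nu W (c - a) = W SS W (0, a)`, and
`nu W (c - a) = nu W (a - c)`; each nonzero term is `(W/φ(W))²`. -/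
lemma card_classes (W : ℕ) (hW : Squarefree W) (a : ℤ) :
    ((((Finset.range W).filter
        (fun b : ℕ => IsCoprime (b : ℤ) (W : ℤ) ∧ IsCoprime (a - b) (W : ℤ))).card : ℕ) : ℝ) * W
      = (Nat.totient W : ℝ) ^ 2 * SS W (![0, a] : Fin 2 → ℤ) := by
  have hW1 : 1 ≤ W := Nat.one_le_iff_ne_zero.2 (fun h => by subst h; exact not_squarefree_zero hW)
  have hWR : (0 : ℝ) < W := by exact_mod_cast hW1
  have hphi : (0 : ℝ) < (Nat.totient W : ℝ) := by exact_mod_cast Nat.totient_pos.2 (by omega)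
  have h := sum_nu_eq_SS W hW (![0, a] : Fin 2 → ℤ)
  have h1 : ∀ c ∈ Finset.range W, ∏ i, nu W ((c : ℤ) - (![0, a] : Fin 2 → ℤ) i)
      = if (IsCoprime (c : ℤ) (W : ℤ) ∧ IsCoprime (a - c) (W : ℤ)) then
        ((W : ℝ) / (Nat.totient W : ℝ)) ^ 2 else 0 := by
    intro c _
    rw [Fin.prod_univ_two]
    simp only [Matrix.cons_val_zero, Matrix.cons_val_one, sub_zero]
    unfold nu
    have e : IsCoprime ((c : ℤ) - a) (W : ℤ) ↔ IsCoprime (a - (c : ℤ)) (W : ℤ) := by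
      rw [← neg_sub, IsCoprime.neg_left_iff]
    by_cases h1 : IsCoprime (c : ℤ) (W : ℤ)
    · by_cases h2 : IsCoprime (a - (c : ℤ)) (W : ℤ)
      · rw [if_pos h1, if_pos (e.2 h2), if_pos ⟨h1, h2⟩]; ring
      · rw [if_neg (show ¬ IsCoprime ((c : ℤ) - a) (W : ℤ) from fun h => h2 (e.1 h)),
          if_neg (show ¬ (IsCoprime (c : ℤ) (W : ℤ) ∧ IsCoprime (a - (c : ℤ)) (W : ℤ)) from
            fun h => h2 h.2), mul_zero]
    · rw [if_neg h1, if_neg (show ¬ (IsCoprime (c : ℤ) (W : ℤ) ∧ IsCoprime (a - (c : ℤ)) (W : ℤ)) from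
            fun h => h1 h.1), zero_mul]
  rw [Finset.sum_congr rfl h1, ← Finset.sum_filter, Finset.sum_const, nsmul_eq_mul] at h
  have h2 : ((((Finset.range W).filter
        (fun b : ℕ => IsCoprime (b : ℤ) (W : ℤ) ∧ IsCoprime (a - b) (W : ℤ))).card : ℕ) : ℝ)
      * (W : ℝ) ^ 2 = (Nat.totient W : ℝ) ^ 2 * (W * SS W (![0, a] : Fin 2 → ℤ)) := by
    rw [← h]
    field_simp
  have h3 : (W : ℝ) ≠ 0 := hWR.ne'
  apply mul_right_cancel₀ h3
  linarith [h2]

end Pool.Agent.Lib.MP_bae66e_nt.LL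
end

section

/-!
# LP/J2a: shift of the variable
-/

set_option autoImplicit false

open Finset

namespace Pool.Agent.Lib.MP_bae66e_nt.LP

open Pool.Agent.Lib.MP_bae66e_nt.LL

/-- Shift of the variable by an even number `H`: for `|Φ| ≤ 1` the sums of `Φ(m - H)` and of `Φ(m)`
over the even `m ∈ (0, X]` differ by at most `2 H` (the variable `m - H` runs over the even numbers of
`(-H, X - H]`). -/
lemma sum_shift_even (X H : ℕ) (hH : Even H) (Φ : ℤ → ℝ) (hΦ : ∀ m, |Φ m| ≤ 1) :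
    |(∑ m ∈ (Finset.Ioc (0 : ℤ) (X : ℤ)).filter (fun m => Even m), Φ (m - H))
      - ∑ m ∈ (Finset.Ioc (0 : ℤ) (X : ℤ)).filter (fun m => Even m), Φ m| ≤ 2 * H := by
  classical
  set A : Finset ℤ := (Finset.Ioc (-(H : ℤ)) ((X : ℤ) - H)).filter (fun m => Even m) with hA
  set B : Finset ℤ := (Finset.Ioc (0 : ℤ) (X : ℤ)).filter (fun m => Even m) with hB
  have h1 : ∑ m ∈ B, Φ (m - H) = ∑ m ∈ A, Φ m := by
    refine Finset.sum_bij' (fun m _ => m - H) (fun m _ => m + H) ?_ ?_ ?_ ?_ ?_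
    · intro m hm
      simp only [hB, Finset.mem_filter, Finset.mem_Ioc] at hm
      simp only [hA, Finset.mem_filter, Finset.mem_Ioc]
      refine ⟨⟨by omega, by omega⟩, ?_⟩
      exact hm.2.sub (by exact_mod_cast hH)
    · intro m hm
      simp only [hA, Finset.mem_filter, Finset.mem_Ioc] at hm
      simp only [hB, Finset.mem_filter, Finset.mem_Ioc]
      refine ⟨⟨by omega, by omega⟩, ?_⟩
      exact hm.2.add (by exact_mod_cast hH)
    · intro m _
      ring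
    · intro m _
      ring
    · intro m _
      rfl
  rw [h1]
  have h2 : (∑ m ∈ A, Φ m) - ∑ m ∈ B, Φ m = (∑ m ∈ A \ B, Φ m) - ∑ m ∈ B \ A, Φ m := by
    have e1 := Finset.sum_sdiff_sub_sum_sdiff (s₁ := B) (s₂ := A) (f := Φ)
    linarith
  rw [h2]
  have hcard : ∀ (S : Finset ℤ) (u : ℤ), S ⊆ Finset.Ioc (u - H) u → |∑ m ∈ S, Φ m| ≤ H := by
    intro S u hS
    calc |∑ m ∈ S, Φ m| ≤ ∑ m ∈ S, |Φ m| := Finset.abs_sum_le_sum_abs _ _
      _ ≤ ∑ _m ∈ S, (1 : ℝ) := Finset.sum_le_sum fun m _ => hΦ m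
      _ = (S.card : ℝ) := by simp
      _ ≤ ((Finset.Ioc (u - H) u).card : ℝ) := by
          exact_mod_cast Finset.card_le_card hS
      _ = (H : ℝ) := by
          rw [Int.card_Ioc]
          have : (u - (u - (H : ℤ))).toNat = H := by
            rw [sub_sub_cancel]
            exact Int.toNat_natCast H
          rw [this]
  have h3 := hcard (A \ B) 0 (by
    intro m hm
    simp only [hA, hB, Finset.mem_sdiff, Finset.mem_filter, Finset.mem_Ioc, not_and] at hm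
    simp only [Finset.mem_Ioc]
    obtain ⟨⟨⟨h3, h4⟩, h5⟩, h6⟩ := hm
    refine ⟨by omega, ?_⟩
    by_contra hcon
    exact h6 ⟨by omega, by omega⟩ h5)
  have h4 := hcard (B \ A) (X : ℤ) (by
    intro m hm
    simp only [hA, hB, Finset.mem_sdiff, Finset.mem_filter, Finset.mem_Ioc, not_and] at hm
    simp only [Finset.mem_Ioc]
    obtain ⟨⟨⟨h3, h4⟩, h5⟩, h6⟩ := hm
    refine ⟨?_, by omega⟩
    by_contra hcon
    exact h6 ⟨by omega, by omega⟩ h5)
  have h5 := abs_sub (∑ m ∈ A \ B, Φ m) (∑ m ∈ B \ A, Φ m)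
  linarith

end Pool.Agent.Lib.MP_bae66e_nt.LP
end
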