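import Pool.Agent.Lib.MP_bae66e_nt.Mg.G041
import Pool.Agent.Lib.MP_bae66e_nt.Cheb
import Pool.Agent.Lib.MP_bae66e_nt.Energy
import Pool.Agent.Lib.MP_bae66e_nt.Mg.G099

section

/-!
# LP/M0b: elementary facts on the scale, the windows and the intensities
-/

set_option autoImplicit false

open Finset Filter Topology

namespace Pool.Agent.Lib.MP_bae66e_nt.LP

open Pool.Agent.Lib.MP_bae66e_nt.LL

private lemma M0b_nu_nonneg (W : ℕ) (n : ℤ) : 0 ≤ nu W n := by
  unfold nu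
  split_ifs
  · positivity
  · exact le_refl _

/-- `Lam ≥ 0` if `ell X ≥ 0`. -/
lemma Lam_nonneg (W X : ℕ) (hX : 0 ≤ ell X) (a b : ℝ) (m : ℤ) : 0 ≤ Lam W X a b m := by
  unfold Lam
  exact div_nonneg (Finset.sum_nonneg fun q _ => M0b_nu_nonneg W _) hX

/-- Additivity: `Lam 0 b = Lam 0 a + Lam a b` for `0 ≤ a ≤ b`. -/
lemma Lam_add (W X : ℕ) (hX : 0 ≤ Real.log X * ell X) (a b : ℝ) (ha : 0 ≤ a) (hab : a ≤ b) (m : ℤ) :
    Lam W X 0 b m = Lam W X 0 a m + Lam W X a b m := by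
  unfold Lam
  rw [← add_div]
  congr 1
  have hdisj : Disjoint (Wd X 0 a m) (Wd X a b m) := by
    rw [Finset.disjoint_left]
    intro q h1 h2
    rw [mem_Wd] at h1 h2
    omega
  rw [← Finset.sum_union hdisj]
  congr 1
  ext q
  have h1 : yX 0 X ≤ yX a X := yX_mono X hX ha
  have h2 : yX a X ≤ yX b X := yX_mono X hX hab
  rw [Finset.mem_union, mem_Wd, mem_Wd, mem_Wd]
  constructor
  · rintro ⟨h3, h4, h5, h6⟩
    by_cases h : m - q ≤ (yX a X : ℤ)
    · exact Or.inl ⟨h3, h4, h5, h⟩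
    · exact Or.inr ⟨h3, h4, by omega, h6⟩
  · rintro (⟨h3, h4, h5, h6⟩ | ⟨h3, h4, h5, h6⟩)
    · exact ⟨h3, h4, h5, by omega⟩
    · exact ⟨h3, h4, by omega, h6⟩

/-- Monotonicity in the window: `Lam a' b' ≤ Lam a b` for `a ≤ a'`, `b' ≤ b`. -/
lemma Lam_mono (W X : ℕ) (hX : 0 ≤ Real.log X * ell X) (hX' : 0 ≤ ell X) {a b a' b' : ℝ}
    (h1 : a ≤ a') (h2 : b' ≤ b) (m : ℤ) : Lam W X a' b' m ≤ Lam W X a b m := by
  unfold Lam
  have h3 : yX a X ≤ yX a' X := yX_mono X hX h1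
  have h4 : yX b' X ≤ yX b X := yX_mono X hX h2
  apply div_le_div_of_nonneg_right _ hX'
  apply Finset.sum_le_sum_of_subset_of_nonneg
  · intro q hq
    rw [mem_Wd] at hq ⊢
    exact ⟨hq.1, hq.2.1, by omega, by omega⟩
  · intro q _ _
    exact M0b_nu_nonneg W _

/-- `LamR ≤ Lam` (a part of the sum of nonnegative terms). -/
lemma LamR_le_Lam (W W₀ : ℕ) (r : ℤ) (X : ℕ) (hX : 0 ≤ ell X) (a b : ℝ) (g m : ℤ) :
    LamR W W₀ r X a b g m ≤ Lam W X a b (m + g) := by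
  unfold LamR Lam
  apply div_le_div_of_nonneg_right _ hX
  apply Finset.sum_le_sum_of_subset_of_nonneg
  · exact Finset.filter_subset _ _
  · intro q _ _
    exact M0b_nu_nonneg W _

end Pool.Agent.Lib.MP_bae66e_nt.LP
end

section

end

section

/-!
# LP/F5a: from `log X loglog X` to `log m loglog m`
-/

set_option autoImplicit false

open Finset Filter Topology

namespace Pool.Agent.Lib.MP_bae66e_nt.LP

open Pool.Agent.Lib.MP_bae66e_nt.LL

/-- `L(m) = log m loglog m` varies slowly: for `0 < ε`, `0 < δ < 1`, large `X` and `ε X ≤ m ≤ X`: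
`(1 - δ) L(X) ≤ L(m) ≤ L(X)`, `1 < L(X)`. -/
lemma L_close (ε δ : ℝ) (hε : 0 < ε) (hδ : 0 < δ) : ∃ X₀ : ℕ, ∀ X : ℕ, X₀ ≤ X →
    1 < Real.log X * Real.log (Real.log X) ∧ ∀ m : ℕ, ε * X ≤ m → m ≤ X →
      (1 - δ) * (Real.log X * Real.log (Real.log X)) ≤ Real.log m * Real.log (Real.log m) ∧
      Real.log m * Real.log (Real.log m) ≤ Real.log X * Real.log (Real.log X) := by
  set d : ℝ := min δ 1 / 2 with hd
  have hmin : 0 < min δ 1 := lt_min hδ one_pos
  have hd0 : 0 < d := by positivity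
  have hd1 : d ≤ 1 / 2 := by
    have := min_le_right δ 1
    rw [hd]; linarith
  have hdδ : 2 * d ≤ δ := by
    have := min_le_left δ 1
    rw [hd]; linarith
  have h1d : 0 < 1 - d := by linarith
  obtain ⟨X₀, hX₀⟩ := growth (2 + |Real.log ε| / d + |Real.log (1 - d)| / d) (by
    have h1 : 0 ≤ |Real.log ε| / d := by positivity
    have h2 : 0 ≤ |Real.log (1 - d)| / d := by positivity
    linarith)
  refine ⟨X₀, fun X hX => ?_⟩
  obtain ⟨g1, g2, _, _, g5⟩ := hX₀ X hX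
  have h1 : 0 ≤ |Real.log ε| / d := by positivity
  have h2 : 0 ≤ |Real.log (1 - d)| / d := by positivity
  have hell : ell X = Real.log (Real.log X) := rfl
  rw [hell] at g1
  have hX0 : (0 : ℝ) < X := by linarith
  have hl2 : 2 ≤ Real.log X := by linarith
  have hll2 : 2 ≤ Real.log (Real.log X) := by linarith
  refine ⟨by nlinarith, fun m hm1 hm2 => ?_⟩
  have hm0 : (0 : ℝ) < m := lt_of_lt_of_le (mul_pos hε hX0) hm1
  have hmX : (m : ℝ) ≤ X := by exact_mod_cast hm2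
  -- `log m ≥ (1 - d) log X`
  have e1 : |Real.log ε| ≤ d * Real.log X := by
    have : |Real.log ε| / d ≤ Real.log X := by linarith
    rw [div_le_iff₀ hd0] at this
    linarith
  have e2 : |Real.log (1 - d)| ≤ d * Real.log (Real.log X) := by
    have : |Real.log (1 - d)| / d ≤ Real.log (Real.log X) := by linarith
    rw [div_le_iff₀ hd0] at this
    linarith
  have e3 : (1 - d) * Real.log X ≤ Real.log m := by
    have h3 : Real.log (ε * X) ≤ Real.log m := Real.log_le_log (mul_pos hε hX0) hm1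
    rw [Real.log_mul hε.ne' hX0.ne'] at h3
    have h4 := neg_abs_le (Real.log ε)
    nlinarith
  have hlX : 0 < Real.log X := by linarith
  have e4 : (1 - d) * Real.log (Real.log X) ≤ Real.log (Real.log m) := by
    have h3 : Real.log ((1 - d) * Real.log X) ≤ Real.log (Real.log m) :=
      Real.log_le_log (mul_pos h1d hlX) e3
    rw [Real.log_mul h1d.ne' hlX.ne'] at h3
    have h4 := neg_abs_le (Real.log (1 - d))
    nlinarith
  have hlm : 0 < Real.log m := lt_of_lt_of_le (mul_pos h1d hlX) e3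
  have hllm : 0 < Real.log (Real.log m) := lt_of_lt_of_le (mul_pos h1d (by linarith)) e4
  have hP : 0 < Real.log X * Real.log (Real.log X) := mul_pos hlX (by linarith)
  constructor
  · have h5 : ((1 - d) * Real.log X) * ((1 - d) * Real.log (Real.log X))
        ≤ Real.log m * Real.log (Real.log m) :=
      mul_le_mul e3 e4 (mul_nonneg h1d.le (by linarith)) hlm.le
    have h6 : (1 - δ) ≤ (1 - d) * (1 - d) := by nlinarith
    calc (1 - δ) * (Real.log X * Real.log (Real.log X))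
        ≤ ((1 - d) * (1 - d)) * (Real.log X * Real.log (Real.log X)) :=
          mul_le_mul_of_nonneg_right h6 hP.le
      _ = ((1 - d) * Real.log X) * ((1 - d) * Real.log (Real.log X)) := by ring
      _ ≤ _ := h5
  · exact mul_le_mul (Real.log_le_log hm0 hmX)
      (Real.log_le_log hlm (Real.log_le_log hm0 hmX)) hllm.le hlX.le

end Pool.Agent.Lib.MP_bae66e_nt.LP
end

section

/-!
# LP/F5b: `Nw` and `NN`
-/

set_option autoImplicit false

open Finset Filter Topology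

namespace Pool.Agent.Lib.MP_bae66e_nt.LP

open Pool.Agent.Lib.MP_bae66e_nt.LL

/-- For `n ≤ X`: `Nw X a b n = NN n (a L(X)) (b L(X))`.

PROOF. Bijection `q ↦ p = n - q`: `q ≤ X` is automatic, `p < n` since `q ≥ 2`; `p > ⌊a L⌋` iff `p > a L`, and
`p ≤ ⌊b L⌋` iff `p ≤ b L` (`a L, b L ≥ 0`). -/
lemma Nw_eq_NN (X n : ℕ) (a b : ℝ) (ha : 0 ≤ a) (hab : a ≤ b) (hn : n ≤ X)
    (hL : 0 ≤ Real.log X * Real.log (Real.log X)) :
    Nw X a b (n : ℤ) = NN n (a * (Real.log X * Real.log (Real.log X)))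
      (b * (Real.log X * Real.log (Real.log X))) := by
  classical
  set L := Real.log X * Real.log (Real.log X) with hLdef
  have hb : 0 ≤ b := le_trans ha hab
  have haL : 0 ≤ a * L := mul_nonneg ha hL
  have hbL : 0 ≤ b * L := mul_nonneg hb hL
  have hya : yX a X = ⌊a * L⌋₊ := by unfold yX; rw [mul_assoc]
  have hyb : yX b X = ⌊b * L⌋₊ := by unfold yX; rw [mul_assoc]
  unfold Nw NN Wd
  rw [hya, hyb]
  apply Finset.card_nbij' (fun q => n - q) (fun p => n - p)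
  · intro q hq
    simp only [Finset.coe_filter, Finset.mem_filter, Set.mem_setOf_eq, QQ, Finset.mem_Ioc] at hq
    obtain ⟨⟨⟨⟨hq0, hqX⟩, hqp⟩, h1, h2⟩, h3⟩ := hq
    have hqn : q < n := by
      have : (0 : ℤ) ≤ (⌊a * L⌋₊ : ℤ) := Int.natCast_nonneg _
      omega
    have hcast : ((n : ℤ) - q) = ((n - q : ℕ) : ℤ) := by
      rw [Nat.cast_sub hqn.le]
    rw [hcast, Int.toNat_natCast] at h3
    rw [hcast] at h1 h2
    have h1' : ⌊a * L⌋₊ < n - q := by exact_mod_cast h1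
    have h2' : n - q ≤ ⌊b * L⌋₊ := by exact_mod_cast h2
    simp only [Finset.coe_filter, Set.mem_setOf_eq, Finset.mem_range]
    refine ⟨by omega, h3, ?_, ?_, ?_⟩
    · have : n - (n - q) = q := by omega
      rw [this]
      exact hqp
    · exact (Nat.floor_lt haL).1 h1'
    · exact (Nat.le_floor_iff hbL).1 h2'
  · intro p hp
    simp only [Finset.coe_filter, Set.mem_setOf_eq, Finset.mem_range] at hp
    obtain ⟨hpn, hpp, hqp, h1, h2⟩ := hp
    have hcast : ((n : ℤ) - ((n - p : ℕ) : ℤ)) = (p : ℤ) := by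
      rw [Nat.cast_sub hpn.le]
      ring
    simp only [Finset.coe_filter, Finset.mem_filter, Set.mem_setOf_eq, QQ, Finset.mem_Ioc]
    refine ⟨⟨⟨⟨hqp.pos, by omega⟩, hqp⟩, ?_, ?_⟩, ?_⟩
    · rw [hcast]
      exact_mod_cast (Nat.floor_lt haL).2 h1
    · rw [hcast]
      exact_mod_cast (Nat.le_floor_iff hbL).2 h2
    · rw [hcast, Int.toNat_natCast]
      exact hpp
  · intro q hq
    simp only [Finset.coe_filter, Finset.mem_filter, Set.mem_setOf_eq, QQ, Finset.mem_Ioc] at hq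
    obtain ⟨⟨⟨⟨hq0, hqX⟩, hqp⟩, h1, h2⟩, h3⟩ := hq
    have hqn : q < n := by
      have : (0 : ℤ) ≤ (⌊a * L⌋₊ : ℤ) := Int.natCast_nonneg _
      omega
    show n - (n - q) = q
    omega
  · intro p hp
    simp only [Finset.coe_filter, Set.mem_setOf_eq, Finset.mem_range] at hp
    obtain ⟨hpn, -⟩ := hp
    show n - (n - p) = p
    omega

lemma NN_add (n : ℕ) (x y z : ℝ) (hxy : x ≤ y) (hyz : y ≤ z) : NN n x z = NN n x y + NN n y z := by
  classical
  unfold NN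
  rw [← Finset.card_union_of_disjoint]
  · congr 1
    ext p
    simp only [Finset.mem_filter, Finset.mem_range, Finset.mem_union]
    constructor
    · rintro ⟨h1, h2, h3, h4, h5⟩
      rcases le_or_gt (p : ℝ) y with h | h
      · exact Or.inl ⟨h1, h2, h3, h4, h⟩
      · exact Or.inr ⟨h1, h2, h3, h, h5⟩
    · rintro (⟨h1, h2, h3, h4, h5⟩ | ⟨h1, h2, h3, h4, h5⟩)
      · exact ⟨h1, h2, h3, h4, h5.trans hyz⟩
      · exact ⟨h1, h2, h3, lt_of_le_of_lt hxy h4, h5⟩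
  · rw [Finset.disjoint_left]
    intro p hp hp'
    have h1 := (Finset.mem_filter.1 hp).2.2.2.2
    have h2 := (Finset.mem_filter.1 hp').2.2.2.1
    linarith

/-- If no prime `p ∈ (x', x]` and no prime `p ∈ (y', y]` has `n - p` prime then the counts of `(x, y]` and
`(x', y']` agree (`x' ≤ x`, `y' ≤ y`). -/
lemma NN_eq_of_segments (n : ℕ) (x x' y y' : ℝ) (hx : x' ≤ x) (hy : y' ≤ y)
    (h1 : ∀ p q : ℕ, p.Prime → q.Prime → p + q = n → ¬ (x' < p ∧ (p : ℝ) ≤ x))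
    (h2 : ∀ p q : ℕ, p.Prime → q.Prime → p + q = n → ¬ (y' < p ∧ (p : ℝ) ≤ y)) :
    NN n x' y' = NN n x y := by
  classical
  unfold NN
  congr 1
  ext p
  simp only [Finset.mem_filter, Finset.mem_range]
  constructor
  · rintro ⟨hpn, hpp, hqp, h3, h4⟩
    refine ⟨hpn, hpp, hqp, ?_, h4.trans hy⟩
    by_contra hcon
    exact h1 p (n - p) hpp hqp (by omega) ⟨h3, not_lt.1 hcon⟩
  · rintro ⟨hpn, hpp, hqp, h3, h4⟩
    refine ⟨hpn, hpp, hqp, lt_of_le_of_lt hx h3, ?_⟩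
    by_contra hcon
    exact h2 p (n - p) hpp hqp (by omega) ⟨not_le.1 hcon, h4⟩

/-- The least Goldbach prime, `0` if there is none. -/
noncomputable def gg (m : ℕ) : ℕ := sInf {p : ℕ | p.Prime ∧ ∃ q : ℕ, q.Prime ∧ p + q = m}

/-- `gg m` from the counts. -/
lemma gg_of_NN (m : ℕ) (x y : ℝ) (h1 : NN m 0 x = 0) (h2 : NN m x y ≠ 0) :
    x < gg m ∧ (gg m : ℝ) ≤ y ∧ 0 < gg m := by
  classical
  unfold NN at h1 h2
  rw [Finset.card_eq_zero, Finset.filter_eq_empty_iff] at h1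
  obtain ⟨p, hp⟩ := Finset.card_pos.1 (Nat.pos_of_ne_zero h2)
  rw [Finset.mem_filter, Finset.mem_range] at hp
  obtain ⟨hpm, hpp, hqp, h3, h4⟩ := hp
  have hmem : p ∈ {p : ℕ | p.Prime ∧ ∃ q : ℕ, q.Prime ∧ p + q = m} := ⟨hpp, m - p, hqp, by omega⟩
  have hg : gg m ∈ {p : ℕ | p.Prime ∧ ∃ q : ℕ, q.Prime ∧ p + q = m} := Nat.sInf_mem ⟨p, hmem⟩
  have hle : gg m ≤ p := Nat.sInf_le hmem
  obtain ⟨hgp, q, hq, hgq⟩ := hg
  have hg0 := hgp.pos
  have hq0 := hq.pos
  refine ⟨?_, ?_, hg0⟩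
  · by_contra hcon
    refine h1 (Finset.mem_range.2 (show gg m < m by omega)) ⟨hgp, ?_, by exact_mod_cast hg0, not_lt.1 hcon⟩
    have : m - gg m = q := by omega
    rw [this]
    exact hq
  · have : (gg m : ℝ) ≤ p := by exact_mod_cast hle
    linarith

end Pool.Agent.Lib.MP_bae66e_nt.LP
end

section

/-!
# J03: the mean of the intensity over a class, and Jensen's inequality
-/

set_option autoImplicit false

open Finset

namespace Pool.Agent.Lib.MP_bae66e_nt.LL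

private lemma J03_SS_nonneg (W : ℕ) (hW : Squarefree W) (a : ℤ) :
    0 ≤ SS W (![0, a] : Fin 2 → ℤ) := by
  have h := card_classes W hW a
  have hW1 : 1 ≤ W := Nat.one_le_iff_ne_zero.2 (fun h => by subst h; exact not_squarefree_zero hW)
  have hphi : (0 : ℝ) < (Nat.totient W : ℝ) := by exact_mod_cast Nat.totient_pos.2 (by omega)
  have h1 : 0 ≤ (Nat.totient W : ℝ) ^ 2 * SS W (![0, a] : Fin 2 → ℤ) := by
    rw [← h]; positivity
  exact nonneg_of_mul_nonneg_right h1 (by positivity)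

private lemma J03_log_small (c : ℝ) (hc : 0 < c) : ∃ N : ℕ, ∀ X : ℕ, N ≤ X →
    Real.log X ≤ c * X := by
  have h1 := (Real.isLittleO_log_id_atTop).def hc
  have h2 := (tendsto_natCast_atTop_atTop (R := ℝ)).eventually h1
  obtain ⟨N, hN⟩ := Filter.eventually_atTop.1 h2
  refine ⟨N, fun X hX => ?_⟩
  have := hN X hX
  simp only [id_eq, Real.norm_eq_abs] at this
  rw [Nat.abs_cast] at this
  exact (le_abs_self _).trans this

/-- For squarefree `W`, `C₀ ≥ 0`, `δ > 0`: for `X, y ≥ N₀` with `y ≤ C₀ log X log y` and all `a`: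
`∑_{m ≤ X, m ≡ a (W)} λ(m) ≤ (X/W) ((1 + δ) (y/(log X log y)) SS W (0, a) + δ)`.

PROOF. By `sum_lam_class_le`, `sum_nu_primes_le`, `piC_le` (with `δ₁`), `card_classes`, the sum is at
most `(y/W + 1)/log y * ((1 + δ₁) SS X/log X + W²/φ(W))
= (X/W) (1 + W/y)(1 + δ₁) (y/(log X log y)) SS + (y/W + 1) W²/(φ(W) log y)`; choose `δ₁` with
`(1 + δ₁)² ≤ 1 + δ` and `y ≥ W/δ₁`. The last term is at most `2 W² y/log y ≤ 2 W² C₀ log X ≤ δ X/W`
for large `X`. -/
theorem sum_lam_class_le' (W : ℕ) (hW : Squarefree W) (C₀ δ : ℝ) (hC₀ : 0 ≤ C₀) (hδ : 0 < δ) :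
    ∃ N₀ : ℕ, ∀ X : ℕ, N₀ ≤ X → ∀ y : ℕ, N₀ ≤ y → (y : ℝ) ≤ C₀ * Real.log X * Real.log y →
      ∀ a : ℤ, ∑ m ∈ clX X W a, lamQ W y (QQ 0 X) m
        ≤ (X : ℝ) / W * ((1 + δ) * (y / (Real.log X * Real.log y)) * SS W (![0, a] : Fin 2 → ℤ) + δ) := by
  have hW1 : 1 ≤ W := Nat.one_le_iff_ne_zero.2 (fun h => by subst h; exact not_squarefree_zero hW)
  have hWR : (1 : ℝ) ≤ W := by exact_mod_cast hW1
  have hW0 : (0 : ℝ) < W := by linarith
  have hphi1 : (1 : ℝ) ≤ (Nat.totient W : ℝ) := by exact_mod_cast Nat.totient_pos.2 (by omega)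
  have hphi0 : (0 : ℝ) < (Nat.totient W : ℝ) := by linarith
  set δ₁ : ℝ := min (δ / 3) 1 with hδ₁
  have hδ₁0 : 0 < δ₁ := lt_min (by positivity) one_pos
  have hδ₁1 : δ₁ ≤ 1 := min_le_right _ _
  have hδ₁3 : δ₁ ≤ δ / 3 := min_le_left _ _
  have hsq : (1 + δ₁) * (1 + δ₁) ≤ 1 + δ := by nlinarith
  obtain ⟨X₁, hX₁⟩ := piC_le W hW1 δ₁ hδ₁0
  obtain ⟨X₂, hX₂⟩ := J03_log_small (δ / (2 * (W : ℝ) ^ 3 * (C₀ + 1))) (by positivity)
  refine ⟨X₁ + X₂ + ⌈(W : ℝ) / δ₁⌉₊ + 2, fun X hX y hy hyC a => ?_⟩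
  have hX1 : (1 : ℝ) < X := by exact_mod_cast (by omega : 1 < X)
  have hy1 : (1 : ℝ) < y := by exact_mod_cast (by omega : 1 < y)
  have hX0 : (0 : ℝ) < X := by linarith
  have hy0 : (0 : ℝ) < y := by linarith
  have hlX : 0 < Real.log X := Real.log_pos hX1
  have hly : 0 < Real.log y := Real.log_pos hy1
  have hSS := J03_SS_nonneg W hW a
  have hyW : (W : ℝ) / δ₁ ≤ y :=
    (Nat.le_ceil _).trans (by exact_mod_cast (by omega : ⌈(W : ℝ) / δ₁⌉₊ ≤ y))
  have hWy : (W : ℝ) ≤ δ₁ * y := by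
    rw [div_le_iff₀ hδ₁0] at hyW; linarith
  set B := (Finset.range W).filter
        (fun b : ℕ => IsCoprime (b : ℤ) (W : ℤ) ∧ IsCoprime (a - b) (W : ℤ)) with hB
  have hBc : (B.card : ℝ) * W = (Nat.totient W : ℝ) ^ 2 * SS W (![0, a] : Fin 2 → ℤ) :=
    card_classes W hW a
  have h1 := sum_lam_class_le X y W hW1 (by omega) a
  have h2 := sum_nu_primes_le X W hW1 a
  rw [← hB] at h2
  have h3 : ∑ b ∈ B, (piC X W (b : ℤ) : ℝ)
      ≤ (B.card : ℝ) * ((1 + δ₁) * (X / ((Nat.totient W : ℝ) * Real.log X))) := by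
    rw [← nsmul_eq_mul, ← Finset.sum_const]
    apply Finset.sum_le_sum
    intro b hb
    exact hX₁ X (by omega) b (Finset.mem_filter.1 hb).2.1
  have h4 : ∑ q ∈ QQ 0 X, nu W (a - q)
      ≤ (1 + δ₁) * SS W (![0, a] : Fin 2 → ℤ) * X / Real.log X + (W : ℝ) ^ 2 := by
    refine h2.trans ?_
    calc (W : ℝ) / (Nat.totient W : ℝ) * ((∑ b ∈ B, (piC X W (b : ℤ) : ℝ)) + W)
        ≤ (W : ℝ) / (Nat.totient W : ℝ) * ((B.card : ℝ)
            * ((1 + δ₁) * (X / ((Nat.totient W : ℝ) * Real.log X))) + W) := by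
          gcongr
      _ = ((B.card : ℝ) * W) / (Nat.totient W : ℝ) ^ 2 * ((1 + δ₁) * X / Real.log X)
          + (W : ℝ) ^ 2 / (Nat.totient W : ℝ) := by
          field_simp
      _ ≤ ((B.card : ℝ) * W) / (Nat.totient W : ℝ) ^ 2 * ((1 + δ₁) * X / Real.log X)
          + (W : ℝ) ^ 2 := by
          gcongr
          exact div_le_self (by positivity) hphi1
      _ = (1 + δ₁) * SS W (![0, a] : Fin 2 → ℤ) * X / Real.log X + (W : ℝ) ^ 2 := by
          rw [hBc]
          field_simp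
  have hpos : 0 ≤ ((y : ℝ) / W + 1) / Real.log y := by positivity
  refine h1.trans ((mul_le_mul_of_nonneg_left h4 hpos).trans ?_)
  have e1 : ((y : ℝ) / W + 1) ≤ (1 + δ₁) * (y / W) := by
    have : (1 + δ₁) * ((y : ℝ) / W) = y / W + δ₁ * y / W := by ring
    rw [this]
    have : 1 ≤ δ₁ * y / W := by rw [le_div_iff₀ hW0]; linarith
    linarith
  have e2 : ((y : ℝ) / W + 1) ≤ 2 * y := by
    have : (y : ℝ) / W ≤ y := div_le_self hy0.le hWR
    linarith
  have t1 : ((y : ℝ) / W + 1) / Real.log y * ((1 + δ₁) * SS W (![0, a] : Fin 2 → ℤ) * X / Real.log X)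
      ≤ (X : ℝ) / W * ((1 + δ) * (y / (Real.log X * Real.log y)) * SS W (![0, a] : Fin 2 → ℤ)) := by
    calc ((y : ℝ) / W + 1) / Real.log y * ((1 + δ₁) * SS W (![0, a] : Fin 2 → ℤ) * X / Real.log X)
        ≤ ((1 + δ₁) * (y / W)) / Real.log y
            * ((1 + δ₁) * SS W (![0, a] : Fin 2 → ℤ) * X / Real.log X) := by
          gcongr
      _ = ((1 + δ₁) * (1 + δ₁)) * ((X : ℝ) / W * ((y / (Real.log X * Real.log y))
            * SS W (![0, a] : Fin 2 → ℤ))) := by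
          field_simp
      _ ≤ (1 + δ) * ((X : ℝ) / W * ((y / (Real.log X * Real.log y))
            * SS W (![0, a] : Fin 2 → ℤ))) := by
          gcongr
      _ = (X : ℝ) / W * ((1 + δ) * (y / (Real.log X * Real.log y)) * SS W (![0, a] : Fin 2 → ℤ)) := by
          ring
  have t2 : ((y : ℝ) / W + 1) / Real.log y * (W : ℝ) ^ 2 ≤ (X : ℝ) / W * δ := by
    have h5 : (y : ℝ) / Real.log y ≤ C₀ * Real.log X := by
      rw [div_le_iff₀ hly]; exact hyC
    have h6 := hX₂ X (by omega)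
    calc ((y : ℝ) / W + 1) / Real.log y * (W : ℝ) ^ 2
        ≤ (2 * y) / Real.log y * (W : ℝ) ^ 2 := by gcongr
      _ = 2 * (y / Real.log y) * (W : ℝ) ^ 2 := by ring
      _ ≤ 2 * (C₀ * Real.log X) * (W : ℝ) ^ 2 := by gcongr
      _ ≤ 2 * ((C₀ + 1) * (δ / (2 * (W : ℝ) ^ 3 * (C₀ + 1)) * X)) * (W : ℝ) ^ 2 := by
          gcongr
          linarith
      _ = (X : ℝ) / W * δ := by
          field_simp
  rw [mul_add, mul_add]
  exact add_le_add t1 t2

/-- Jensen's inequality: `∑_{m ∈ S} exp(-λ_m) ≥ #S exp(-(∑ λ_m)/#S)` for nonempty `S`. -/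
lemma jensen_exp (S : Finset ℤ) (hS : S.Nonempty) (f : ℤ → ℝ) :
    (S.card : ℝ) * Real.exp (-(∑ m ∈ S, f m) / (S.card : ℝ)) ≤ ∑ m ∈ S, Real.exp (-f m) := by
  have hn : (0 : ℝ) < S.card := by exact_mod_cast Finset.card_pos.2 hS
  set c : ℝ := (∑ m ∈ S, f m) / (S.card : ℝ) with hc
  have e1 : -(∑ m ∈ S, f m) / (S.card : ℝ) = -c := by rw [hc, neg_div]
  rw [e1]
  have h1 : ∀ m ∈ S, Real.exp (-c) * (1 + (c - f m)) ≤ Real.exp (-f m) := by
    intro m _
    have h2 := Real.add_one_le_exp (c - f m)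
    have h3 : Real.exp (-f m) = Real.exp (-c) * Real.exp (c - f m) := by
      rw [← Real.exp_add]; congr 1; ring
    rw [h3]
    apply mul_le_mul_of_nonneg_left _ (Real.exp_pos _).le
    linarith
  refine le_trans (le_of_eq ?_) (Finset.sum_le_sum h1)
  rw [← Finset.mul_sum, Finset.sum_add_distrib, Finset.sum_sub_distrib, Finset.sum_const,
    Finset.sum_const, nsmul_eq_mul, nsmul_eq_mul]
  have : (S.card : ℝ) * c = ∑ m ∈ S, f m := by rw [hc]; field_simp
  rw [this]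
  ring

private lemma J03_card_class (X W : ℕ) (hW : 1 ≤ W) (a : ℤ) :
    (X : ℝ) / W - 1 ≤ ((clX X W a).card : ℝ) ∧ ((clX X W a).card : ℝ) ≤ (X : ℝ) / W + 1 := by
  have hWpos : (0 : ℤ) < W := by exact_mod_cast hW
  have hWq : (0 : ℚ) < (W : ℚ) := by exact_mod_cast hW
  have h := Int.Ioc_filter_modEq_card 0 (X : ℤ) hWpos a
  have e1 := Int.floor_le ((((X : ℤ) : ℚ) - (a : ℚ)) / ((W : ℤ) : ℚ))
  have e2 := Int.lt_floor_add_one ((((X : ℤ) : ℚ) - (a : ℚ)) / ((W : ℤ) : ℚ))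
  have e3 := Int.floor_le ((((0 : ℤ) : ℚ) - (a : ℚ)) / ((W : ℤ) : ℚ))
  have e4 := Int.lt_floor_add_one ((((0 : ℤ) : ℚ) - (a : ℚ)) / ((W : ℤ) : ℚ))
  have e5 : (((X : ℤ) : ℚ) - (a : ℚ)) / ((W : ℤ) : ℚ)
      = (((0 : ℤ) : ℚ) - (a : ℚ)) / ((W : ℤ) : ℚ) + (X : ℚ) / W := by
    push_cast
    ring
  set u := ⌊((((X : ℤ) : ℚ) - (a : ℚ)) / ((W : ℤ) : ℚ))⌋ with hu
  set v := ⌊((((0 : ℤ) : ℚ) - (a : ℚ)) / ((W : ℤ) : ℚ))⌋ with hv
  have hXW : (0 : ℚ) ≤ (X : ℚ) / W := by positivity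
  have huv : (0 : ℤ) ≤ u - v := by
    have : v ≤ u := by
      rw [hu, hv]
      apply Int.floor_le_floor
      rw [e5]; linarith
    omega
  rw [max_eq_left huv] at h
  have h' : (((clX X W a).card : ℤ) : ℚ) = ((u - v : ℤ) : ℚ) := by
    rw [← h]; rfl
  rw [e5] at e1 e2
  push_cast at h' e1 e2 e3 e4
  constructor
  · have : ((X : ℚ) / W - 1) ≤ ((clX X W a).card : ℚ) := by
      rw [h']; linarith
    have h2 : ((((X : ℚ) / W - 1 : ℚ)) : ℝ) ≤ ((((clX X W a).card : ℚ)) : ℝ) := by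
      exact_mod_cast this
    push_cast at h2
    exact h2
  · have : ((clX X W a).card : ℚ) ≤ ((X : ℚ) / W + 1) := by
      rw [h']; linarith
    have h2 : ((((clX X W a).card : ℚ)) : ℝ) ≤ ((((X : ℚ) / W + 1 : ℚ)) : ℝ) := by
      exact_mod_cast this
    push_cast at h2
    exact h2

lemma card_clX_le (X W : ℕ) (hW : 1 ≤ W) (a : ℤ) : ((clX X W a).card : ℝ) ≤ (X : ℝ) / W + 1 := by
  exact (J03_card_class X W hW a).2

lemma le_card_clX (X W : ℕ) (hW : 1 ≤ W) (a : ℤ) : (X : ℝ) / W - 1 ≤ ((clX X W a).card : ℝ) := by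
  exact (J03_card_class X W hW a).1

end Pool.Agent.Lib.MP_bae66e_nt.LL
end

section

/-!
# J04: lower bound for the sum of `exp(-λ)`
-/

set_option autoImplicit false

open Finset

namespace Pool.Agent.Lib.MP_bae66e_nt.LL

private lemma J04_SS_nonneg (W : ℕ) (a : ℤ) : 0 ≤ SS W (![0, a] : Fin 2 → ℤ) := by
  unfold SS
  refine Finset.prod_nonneg fun p hp => ?_
  have hpp : p.Prime := Nat.prime_of_mem_primeFactors hp
  have hp2 : (2 : ℝ) ≤ p := by exact_mod_cast hpp.two_le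
  have h1 : (nup p (![0, a] : Fin 2 → ℤ) : ℝ) ≤ 2 := by
    unfold nup
    have := Finset.card_image_le (s := (Finset.univ : Finset (Fin 2)))
      (f := fun i => (![0, a] : Fin 2 → ℤ) i % (p : ℤ))
    rw [Finset.card_univ, Fintype.card_fin] at this
    exact_mod_cast this
  have h2 : (nup p (![0, a] : Fin 2 → ℤ) : ℝ) / p ≤ 1 := by
    rw [div_le_one (by linarith)]
    linarith
  refine div_nonneg (by linarith) (pow_nonneg ?_ _)
  have : 1 / (p : ℝ) ≤ 1 := by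
    rw [div_le_one (by linarith)]
    linarith
  linarith

/-- One class: for squarefree `W`, an integer `a`, `t > 0`, `ε > 0` there are `δ > 0` and `N₀` such
that for `X, y ≥ N₀` with `y ≤ (t + δ) log X log y`,
`∑_{m ≤ X, m ≡ a (W)} exp(-λ(m)) ≥ (X/W) (exp(-t SS W (0, a)) - ε)`.

PROOF. Let `s = SS W (0, a)`, `n = #clX`, `X/W - 1 ≤ n`. By `jensen_exp` and `sum_lam_class_le'`
(with `C₀ = t + 1` and `δ ≤ 1`): the sum is at least
`n exp(-(X/(W n)) ((1 + δ)(t + δ) s + δ)) ≥ (X/W - 1) exp(-(1 + δ) ((1 + δ)(t + δ) s + δ))` when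
`X/(W n) ≤ 1 + δ` (large `X`). The exponential tends to `exp(-t s)` as `δ → 0`; choose `δ` such that
it is `≥ exp(-t s) - ε/2`, and `X` with `1 ≤ (ε/2) X/W`. -/
lemma class_lower (W : ℕ) (hW : Squarefree W) (a : ℤ) (t ε : ℝ) (ht : 0 < t) (hε : 0 < ε) :
    ∃ δ : ℝ, 0 < δ ∧ ∃ N₀ : ℕ, ∀ X : ℕ, N₀ ≤ X → ∀ y : ℕ, N₀ ≤ y →
      (y : ℝ) ≤ (t + δ) * Real.log X * Real.log y →
      (X : ℝ) / W * (Real.exp (-t * SS W (![0, a] : Fin 2 → ℤ)) - ε)
        ≤ ∑ m ∈ clX X W a, Real.exp (-lamQ W y (QQ 0 X) m) := by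
  set s := SS W (![0, a] : Fin 2 → ℤ) with hs
  have hs0 : 0 ≤ s := J04_SS_nonneg W a
  have hW1 : 1 ≤ W := Nat.one_le_iff_ne_zero.mpr hW.ne_zero
  have hWr : (0 : ℝ) < W := by exact_mod_cast hW1
  -- choice of `δ`
  have hcont : Filter.Tendsto (fun δ : ℝ => Real.exp (-((1 + δ) * ((1 + δ) * (t + δ) * s + δ))))
      (nhds 0) (nhds (Real.exp (-t * s))) := by
    have h1 : Continuous (fun δ : ℝ => Real.exp (-((1 + δ) * ((1 + δ) * (t + δ) * s + δ)))) := by
      fun_prop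
    have h2 := h1.tendsto 0
    have h3 : -((1 + (0 : ℝ)) * ((1 + 0) * (t + 0) * s + 0)) = -t * s := by ring
    simp only [h3] at h2
    exact h2
  have hev := hcont.eventually (lt_mem_nhds (show Real.exp (-t * s) - ε / 2 < Real.exp (-t * s) by
    linarith))
  obtain ⟨r, hr, hball⟩ := Metric.eventually_nhds_iff.mp hev
  set δ := r / 2 with hδd
  have hδ : 0 < δ := by positivity
  have hE : Real.exp (-t * s) - ε / 2 < Real.exp (-((1 + δ) * ((1 + δ) * (t + δ) * s + δ))) := by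
    apply hball
    rw [Real.dist_eq, sub_zero, abs_of_pos hδ]
    linarith
  obtain ⟨N1, hN1⟩ := sum_lam_class_le' W hW (t + δ) δ (by positivity) hδ
  obtain ⟨N2, hN2⟩ := exists_nat_ge ((W : ℝ) * ((1 + δ) / δ))
  obtain ⟨N3, hN3⟩ := exists_nat_ge ((W : ℝ) * (2 / ε))
  refine ⟨δ, hδ, N1 + N2 + N3 + 3, ?_⟩
  intro X hX y hy hyX
  have hXN1 : N1 ≤ X := by omega
  have hyN1 : N1 ≤ y := by omega
  have h1 := hN1 X hXN1 y hyN1 hyX a
  have hX3 : (3 : ℝ) ≤ X := by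
    have : 3 ≤ X := by omega
    exact_mod_cast this
  have hy3 : (3 : ℝ) ≤ y := by
    have : 3 ≤ y := by omega
    exact_mod_cast this
  have hlX : 0 < Real.log X := Real.log_pos (by linarith)
  have hly : 0 < Real.log y := Real.log_pos (by linarith)
  have hratio : (y : ℝ) / (Real.log X * Real.log y) ≤ t + δ := by
    rw [div_le_iff₀ (by positivity)]
    linarith
  set n := ((clX X W a).card : ℝ) with hn
  have hXW : (1 + δ) / δ ≤ (X : ℝ) / W := by
    rw [le_div_iff₀ hWr]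
    have h2 : (N2 : ℝ) ≤ X := by
      have : N2 ≤ X := by omega
      exact_mod_cast this
    linarith
  have hXW2 : 2 / ε ≤ (X : ℝ) / W := by
    rw [le_div_iff₀ hWr]
    have h2 : (N3 : ℝ) ≤ X := by
      have : N3 ≤ X := by omega
      exact_mod_cast this
    linarith
  have hnle := le_card_clX X W hW1 a
  rw [← hn] at hnle
  have hXW1 : 1 < (X : ℝ) / W := by
    refine lt_of_lt_of_le ?_ hXW
    rw [lt_div_iff₀ hδ]
    linarith
  have hnpos : 0 < n := by linarith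
  have hne : (clX X W a).Nonempty := by
    rw [← Finset.card_pos]
    rw [hn] at hnpos
    exact_mod_cast hnpos
  have hj := jensen_exp (clX X W a) hne (fun m => lamQ W y (QQ 0 X) m)
  rw [← hn] at hj
  set κ := (1 + δ) * (t + δ) * s + δ with hκ
  have hκ0 : 0 ≤ κ := by positivity
  have hsum : ∑ m ∈ clX X W a, lamQ W y (QQ 0 X) m ≤ (X : ℝ) / W * κ := by
    refine h1.trans ?_
    refine mul_le_mul_of_nonneg_left ?_ (by positivity)
    rw [hκ]
    have h4 : (1 + δ) * ((y : ℝ) / (Real.log X * Real.log y)) ≤ (1 + δ) * (t + δ) :=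
      mul_le_mul_of_nonneg_left hratio (by positivity)
    have h5 := mul_le_mul_of_nonneg_right h4 hs0
    linarith
  have hXn : (X : ℝ) / W ≤ (1 + δ) * n := by
    have h6 : (1 + δ) ≤ (X : ℝ) / W * δ := by
      rwa [div_le_iff₀ hδ] at hXW
    have h7 : (1 + δ) * ((X : ℝ) / W - 1) ≤ (1 + δ) * n :=
      mul_le_mul_of_nonneg_left hnle (by positivity)
    nlinarith
  have hdiv : (∑ m ∈ clX X W a, lamQ W y (QQ 0 X) m) / n ≤ (1 + δ) * κ := by
    rw [div_le_iff₀ hnpos]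
    calc _ ≤ (X : ℝ) / W * κ := hsum
      _ ≤ (1 + δ) * n * κ := mul_le_mul_of_nonneg_right hXn hκ0
      _ = (1 + δ) * κ * n := by ring
  have hexp : Real.exp (-((1 + δ) * κ))
      ≤ Real.exp (-(∑ m ∈ clX X W a, lamQ W y (QQ 0 X) m) / n) := by
    apply Real.exp_le_exp.mpr
    rw [neg_div]
    linarith
  set E := Real.exp (-((1 + δ) * κ)) with hEd
  have hE0 : 0 < E := Real.exp_pos _
  have hE1 : E ≤ 1 := by
    rw [hEd, Real.exp_le_one_iff]
    have : 0 ≤ (1 + δ) * κ := by positivity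
    linarith
  have hfin : (X : ℝ) / W * (Real.exp (-t * s) - ε) ≤ ((X : ℝ) / W - 1) * E := by
    have h8 : 1 ≤ (X : ℝ) / W * (ε / 2) := by
      rw [div_le_iff₀ hε] at hXW2
      linarith
    have h9 : (X : ℝ) / W * (Real.exp (-t * s) - ε / 2) ≤ (X : ℝ) / W * E :=
      mul_le_mul_of_nonneg_left hE.le (by positivity)
    nlinarith
  calc (X : ℝ) / W * (Real.exp (-t * s) - ε) ≤ ((X : ℝ) / W - 1) * E := hfin
    _ ≤ n * E := mul_le_mul_of_nonneg_right hnle hE0.le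
    _ ≤ n * Real.exp (-(∑ m ∈ clX X W a, lamQ W y (QQ 0 X) m) / n) :=
        mul_le_mul_of_nonneg_left hexp hnpos.le
    _ ≤ _ := hj

/-- All even classes: for even squarefree `W`,
`∑_{m ≤ X even} exp(-λ(m)) ≥ (EE W t - ε) X / 2`.

PROOF. The even numbers of `(0, X]` are the disjoint union of the classes `a < W`, `a` even
(`W` is even). Sum `class_lower` (with `ε`) over the `W/2` even classes, with the smallest `δ` and the
largest `N₀`. -/
theorem even_lower (W : ℕ) (hW : Squarefree W) (h2 : 2 ∣ W) (t ε : ℝ) (ht : 0 < t) (hε : 0 < ε) :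
    ∃ δ : ℝ, 0 < δ ∧ ∃ N₀ : ℕ, ∀ X : ℕ, N₀ ≤ X → ∀ y : ℕ, N₀ ≤ y →
      (y : ℝ) ≤ (t + δ) * Real.log X * Real.log y →
      (EE W t - ε) * X / 2 ≤ ∑ m ∈ (Finset.Ioc (0 : ℤ) (X : ℤ)).filter (fun m => Even m),
        Real.exp (-lamQ W y (QQ 0 X) m) := by
  have hW0 : W ≠ 0 := hW.ne_zero
  have hWpos : 0 < W := Nat.pos_of_ne_zero hW0
  have hWr : (0 : ℝ) < W := by exact_mod_cast hWpos
  choose D hD N hN using fun a : ℤ => class_lower W hW a t ε ht hε
  set A := (Finset.range W).filter (fun a => Even a) with hA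
  have hAne : A.Nonempty := ⟨0, by simp [hA, hWpos]⟩
  obtain ⟨a0, ha0, hmin⟩ := Finset.exists_min_image A (fun a => D (a : ℤ)) hAne
  refine ⟨D (a0 : ℤ), hD _, A.sup (fun a => N (a : ℤ)), ?_⟩
  intro X hX y hy hyX
  have hcard : A.card * 2 = W := by
    obtain ⟨k, rfl⟩ := h2
    have h1 : A = (Finset.range k).image (fun a => 2 * a) := by
      ext x
      simp only [hA, Finset.mem_filter, Finset.mem_range, Finset.mem_image]
      constructor
      · rintro ⟨hx, r, hr⟩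
        exact ⟨r, by omega, by omega⟩
      · rintro ⟨r, hr, rfl⟩
        exact ⟨by omega, even_two_mul r⟩
    rw [h1, Finset.card_image_of_injective _ (fun a b h => by simpa using h), Finset.card_range]
    ring
  have hclass : ∀ a ∈ A, (X : ℝ) / W * (Real.exp (-t * SS W (![0, (a : ℤ)] : Fin 2 → ℤ)) - ε)
      ≤ ∑ m ∈ clX X W a, Real.exp (-lamQ W y (QQ 0 X) m) := by
    intro a ha
    refine hN (a : ℤ) X ((Finset.le_sup (f := fun a : ℕ => N (a : ℤ)) ha).trans hX) y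
      ((Finset.le_sup (f := fun a : ℕ => N (a : ℤ)) ha).trans hy) (hyX.trans ?_)
    have h3 := hmin a ha
    have h4 : 0 ≤ Real.log X := Real.log_natCast_nonneg X
    have h5 : 0 ≤ Real.log y := Real.log_natCast_nonneg y
    gcongr
  have hmem : ∀ m ∈ (Finset.Ioc (0 : ℤ) (X : ℤ)).filter (fun m => Even m),
      (m % (W : ℤ)).toNat ∈ A := by
    intro m hm
    rw [Finset.mem_filter, Finset.mem_Ioc] at hm
    have h6 : 0 ≤ m % (W : ℤ) := Int.emod_nonneg _ (by exact_mod_cast hW0)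
    have h7 : m % (W : ℤ) < W := Int.emod_lt_of_pos _ (by exact_mod_cast hWpos)
    simp only [hA, Finset.mem_filter, Finset.mem_range]
    refine ⟨by omega, ?_⟩
    have h8 : ((m % (W : ℤ)).toNat : ℤ) = m % (W : ℤ) := Int.toNat_of_nonneg h6
    rw [← Int.even_coe_nat, h8, Int.even_iff, Int.emod_emod_of_dvd m (by exact_mod_cast h2),
      ← Int.even_iff]
    exact hm.2
  have hfiber : ∑ m ∈ (Finset.Ioc (0 : ℤ) (X : ℤ)).filter (fun m => Even m),
      Real.exp (-lamQ W y (QQ 0 X) m)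
      = ∑ a ∈ A, ∑ m ∈ clX X W a, Real.exp (-lamQ W y (QQ 0 X) m) := by
    rw [← Finset.sum_fiberwise_of_maps_to hmem]
    refine Finset.sum_congr rfl fun a ha => Finset.sum_congr ?_ fun _ _ => rfl
    ext m
    simp only [hA, Finset.mem_filter, Finset.mem_range] at ha
    unfold clX
    simp only [Finset.mem_filter]
    have h6 : 0 ≤ m % (W : ℤ) := Int.emod_nonneg _ (by exact_mod_cast hW0)
    have haW : (a : ℤ) % (W : ℤ) = a := Int.emod_eq_of_lt (by positivity) (by exact_mod_cast ha.1)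
    constructor
    · rintro ⟨⟨h7, -⟩, h8⟩
      refine ⟨h7, ?_⟩
      unfold Int.ModEq
      rw [haW]
      omega
    · rintro ⟨h7, h8⟩
      unfold Int.ModEq at h8
      rw [haW] at h8
      refine ⟨⟨h7, ?_⟩, by omega⟩
      rw [Int.even_iff, ← Int.emod_emod_of_dvd m (show (2 : ℤ) ∣ (W : ℤ) by exact_mod_cast h2), h8,
        ← Int.even_iff, Int.even_coe_nat]
      exact ha.2
  rw [hfiber]
  refine le_trans (le_of_eq ?_) (Finset.sum_le_sum hclass)
  rw [← Finset.mul_sum, Finset.sum_sub_distrib, Finset.sum_const, nsmul_eq_mul]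
  unfold EE
  rw [← hA]
  have hcr : (A.card : ℝ) = W / 2 := by
    have : (A.card : ℝ) * 2 = W := by exact_mod_cast hcard
    linarith
  rw [hcr]
  field_simp

end Pool.Agent.Lib.MP_bae66e_nt.LL
end
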