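import Pool.Agent.Lib.MP_bae66e_nt.Mg.G075
import Pool.Agent.Lib.MP_bae66e_nt.Mg.G041

section

/-!
# B03: splitting into blocks
-/

set_option autoImplicit false

open Finset

namespace Pool.Agent.Lib.MP_bae66e_nt.LL

private lemma B03_Ioc_add (F : ℤ → ℝ) (a b c : ℤ) (h1 : a ≤ b) (h2 : b ≤ c) :
    ∑ m ∈ Finset.Ioc a c, F m = ∑ m ∈ Finset.Ioc a b, F m + ∑ m ∈ Finset.Ioc b c, F m := by
  have hd : Disjoint (Finset.Ioc a b) (Finset.Ioc b c) := by
    rw [Finset.disjoint_left]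
    intro m hm hm'
    rw [Finset.mem_Ioc] at hm hm'
    omega
  have hu : Finset.Ioc a c = Finset.Ioc a b ∪ Finset.Ioc b c := by
    ext m
    rw [Finset.mem_union, Finset.mem_Ioc, Finset.mem_Ioc, Finset.mem_Ioc]
    omega
  rw [hu, Finset.sum_union hd]

private lemma B03_blocks (F : ℤ → ℝ) (L N : ℕ) :
    ∑ m ∈ Finset.Ioc (0 : ℤ) ((N * L : ℕ) : ℤ), F m =
      ∑ i ∈ Finset.range N, ∑ m ∈ Finset.Ioc ((i * L : ℕ) : ℤ) (((i + 1) * L : ℕ) : ℤ), F m := by
  induction N with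
  | zero => simp
  | succ N ih =>
    rw [Finset.sum_range_succ, ← ih]
    apply B03_Ioc_add
    · positivity
    · exact_mod_cast Nat.mul_le_mul_right L (Nat.le_succ N)

private lemma B03_abs_le (F : ℤ → ℝ) (hF : ∀ m, |F m| ≤ 1) (S : Finset ℤ) :
    |∑ m ∈ S, F m| ≤ (S.card : ℝ) := by
  refine (Finset.abs_sum_le_sum_abs _ _).trans ?_
  calc ∑ m ∈ S, |F m| ≤ ∑ _m ∈ S, (1 : ℝ) := Finset.sum_le_sum fun m _ => hF m
    _ = (S.card : ℝ) := by simp

private lemma B03_one (F F' : ℤ → ℝ) (hF : ∀ m, |F m| ≤ 1) (hF' : ∀ m, |F' m| ≤ 1) (x L y : ℕ)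
    (heq : ∀ m : ℤ, ((x + y : ℕ) : ℤ) < m → m ≤ ((x + L : ℕ) : ℤ) → F m = F' m) :
    |(∑ m ∈ Finset.Ioc (x : ℤ) ((x + L : ℕ) : ℤ), F m) -
      ∑ m ∈ Finset.Ioc (x : ℤ) ((x + L + y : ℕ) : ℤ), F' m| ≤ 3 * y := by
  set C : Finset ℤ := Finset.Ioc ((x + y : ℕ) : ℤ) ((x + L : ℕ) : ℤ) with hC
  set A : Finset ℤ := Finset.Ioc (x : ℤ) ((x + L : ℕ) : ℤ) with hA
  set B : Finset ℤ := Finset.Ioc (x : ℤ) ((x + L + y : ℕ) : ℤ) with hB
  have hCA : C ⊆ A := by
    intro m hm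
    rw [hC, Finset.mem_Ioc] at hm
    rw [hA, Finset.mem_Ioc]
    omega
  have hCB : C ⊆ B := by
    intro m hm
    rw [hC, Finset.mem_Ioc] at hm
    rw [hB, Finset.mem_Ioc]
    omega
  have h1 := Finset.sum_sdiff hCA (f := F)
  have h2 := Finset.sum_sdiff hCB (f := F')
  have h3 : ∑ m ∈ C, F m = ∑ m ∈ C, F' m := by
    apply Finset.sum_congr rfl
    intro m hm
    rw [hC, Finset.mem_Ioc] at hm
    exact heq m hm.1 hm.2
  have h4 : ((A \ C).card : ℝ) ≤ y := by
    have h5 : A \ C ⊆ Finset.Ioc (x : ℤ) ((x + y : ℕ) : ℤ) := by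
      intro m hm
      rw [Finset.mem_sdiff, hA, hC, Finset.mem_Ioc, Finset.mem_Ioc] at hm
      rw [Finset.mem_Ioc]
      omega
    have h6 := Finset.card_le_card h5
    rw [Int.card_Ioc] at h6
    have h7 : (A \ C).card ≤ y := by omega
    exact_mod_cast h7
  have h5 : ((B \ C).card : ℝ) ≤ 2 * y := by
    have h5 : B \ C ⊆ Finset.Ioc (x : ℤ) ((x + y : ℕ) : ℤ) ∪
        Finset.Ioc ((x + L : ℕ) : ℤ) ((x + L + y : ℕ) : ℤ) := by
      intro m hm
      rw [Finset.mem_sdiff, hB, hC, Finset.mem_Ioc, Finset.mem_Ioc] at hm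
      rw [Finset.mem_union, Finset.mem_Ioc, Finset.mem_Ioc]
      omega
    have h6 := (Finset.card_le_card h5).trans (Finset.card_union_le _ _)
    rw [Int.card_Ioc, Int.card_Ioc] at h6
    have h7 : (B \ C).card ≤ 2 * y := by omega
    exact_mod_cast h7
  have h6 := B03_abs_le F hF (A \ C)
  have h7 := B03_abs_le F' hF' (B \ C)
  rw [← h1, ← h2, h3]
  have h8 : ∑ m ∈ A \ C, F m + ∑ m ∈ C, F' m - (∑ m ∈ B \ C, F' m + ∑ m ∈ C, F' m) =
      ∑ m ∈ A \ C, F m - ∑ m ∈ B \ C, F' m := by ring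
  rw [h8]
  calc |∑ m ∈ A \ C, F m - ∑ m ∈ B \ C, F' m| ≤ |∑ m ∈ A \ C, F m| + |∑ m ∈ B \ C, F' m| :=
        abs_sub _ _
    _ ≤ 3 * y := by linarith

/-- Let `|G|, |G_i| ≤ 1` and `G = G_i` on the core `(i L + y, (i + 1) L]` of the block, `i < X / L`.
Then the sums over the even numbers of `(0, X]` and of the extended blocks `(i L, i L + L + y]`
differ by at most `L + 3 y (X / L)`.

PROOF. `(0, X]` is the disjoint union of the blocks `(i L, (i+1) L]`, `i < X / L`, and of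
`((X / L) L, X]`, which has fewer than `L` elements. In each block the common part is the core; what
remains is `(i L, i L + y]` for `G` (at most `y` numbers) and `(i L, i L + y]`,
`(i L + L, i L + L + y]` for `G_i` (at most `2 y` numbers; if `y > L` the core is empty and the bound
`L + (L + y) ≤ 3 y` holds as well). -/
theorem block_split (X y L : ℕ) (hL : 0 < L) (G : ℤ → ℝ) (Gi : ℕ → ℤ → ℝ) (hG : ∀ m, |G m| ≤ 1)
    (hGi : ∀ i m, |Gi i m| ≤ 1)
    (heq : ∀ i : ℕ, i < X / L → ∀ m : ℤ, ((i * L + y : ℕ) : ℤ) < m → m ≤ (((i + 1) * L : ℕ) : ℤ) →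
      G m = Gi i m) :
    |(∑ m ∈ (Finset.Ioc (0 : ℤ) (X : ℤ)).filter (fun m => Even m), G m)
        - ∑ i ∈ Finset.range (X / L),
          ∑ m ∈ (Finset.Ioc ((i * L : ℕ) : ℤ) ((i * L + L + y : ℕ) : ℤ)).filter (fun m => Even m),
            Gi i m|
      ≤ L + 3 * y * (X / L : ℕ) := by
  set F : ℤ → ℝ := fun m => if Even m then G m else 0 with hF
  set F' : ℕ → ℤ → ℝ := fun i m => if Even m then Gi i m else 0 with hF'
  have hF1 : ∀ m, |F m| ≤ 1 := by
    intro m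
    simp only [hF]
    split_ifs
    · exact hG m
    · rw [abs_zero]
      exact zero_le_one
  have hF'1 : ∀ i m, |F' i m| ≤ 1 := by
    intro i m
    simp only [hF']
    split_ifs
    · exact hGi i m
    · rw [abs_zero]
      exact zero_le_one
  have e1 : ∑ m ∈ (Finset.Ioc (0 : ℤ) (X : ℤ)).filter (fun m => Even m), G m =
      ∑ m ∈ Finset.Ioc (0 : ℤ) (X : ℤ), F m := by
    rw [Finset.sum_filter]
  have e2 : ∑ i ∈ Finset.range (X / L),
      ∑ m ∈ (Finset.Ioc ((i * L : ℕ) : ℤ) ((i * L + L + y : ℕ) : ℤ)).filter (fun m => Even m),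
        Gi i m = ∑ i ∈ Finset.range (X / L),
      ∑ m ∈ Finset.Ioc ((i * L : ℕ) : ℤ) ((i * L + L + y : ℕ) : ℤ), F' i m := by
    apply Finset.sum_congr rfl
    intro i _
    rw [Finset.sum_filter]
  have hNL : X / L * L ≤ X := Nat.div_mul_le_self X L
  have hNL2 : X < X / L * L + L := by
    have := Nat.lt_mul_div_succ X hL
    calc X < L * (X / L) + L := this
      _ = X / L * L + L := by ring
  have e3 := B03_Ioc_add F 0 ((X / L * L : ℕ) : ℤ) (X : ℤ) (by positivity) (by exact_mod_cast hNL)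
  rw [e1, e2, e3, B03_blocks]
  have h1 : |∑ m ∈ Finset.Ioc ((X / L * L : ℕ) : ℤ) (X : ℤ), F m| ≤ L := by
    refine (B03_abs_le F hF1 _).trans ?_
    rw [Int.card_Ioc]
    have : ((X : ℤ) - ((X / L * L : ℕ) : ℤ)).toNat ≤ L := by omega
    exact_mod_cast this
  have h2 : |(∑ i ∈ Finset.range (X / L),
      ∑ m ∈ Finset.Ioc ((i * L : ℕ) : ℤ) (((i + 1) * L : ℕ) : ℤ), F m) -
      ∑ i ∈ Finset.range (X / L),
      ∑ m ∈ Finset.Ioc ((i * L : ℕ) : ℤ) ((i * L + L + y : ℕ) : ℤ), F' i m| ≤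
      3 * y * (X / L : ℕ) := by
    rw [← Finset.sum_sub_distrib]
    refine (Finset.abs_sum_le_sum_abs _ _).trans ?_
    calc ∑ i ∈ Finset.range (X / L),
        |(∑ m ∈ Finset.Ioc ((i * L : ℕ) : ℤ) (((i + 1) * L : ℕ) : ℤ), F m) -
          ∑ m ∈ Finset.Ioc ((i * L : ℕ) : ℤ) ((i * L + L + y : ℕ) : ℤ), F' i m|
        ≤ ∑ _i ∈ Finset.range (X / L), (3 * y : ℝ) := by
          apply Finset.sum_le_sum
          intro i hi
          rw [Finset.mem_range] at hi
          have e4 : (i + 1) * L = i * L + L := by ring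
          have h3 := B03_one F (F' i) hF1 (hF'1 i) (i * L) L y (by
            intro m hm1 hm2
            simp only [hF, hF']
            rw [heq i hi m hm1 (by rw [e4]; exact hm2)])
          rw [e4]
          exact h3
      _ = 3 * y * (X / L : ℕ) := by
          rw [Finset.sum_const, Finset.card_range, nsmul_eq_mul]
          ring
  calc _ = |((∑ i ∈ Finset.range (X / L),
      ∑ m ∈ Finset.Ioc ((i * L : ℕ) : ℤ) (((i + 1) * L : ℕ) : ℤ), F m) -
      ∑ i ∈ Finset.range (X / L),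
      ∑ m ∈ Finset.Ioc ((i * L : ℕ) : ℤ) ((i * L + L + y : ℕ) : ℤ), F' i m) +
      ∑ m ∈ Finset.Ioc ((X / L * L : ℕ) : ℤ) (X : ℤ), F m| := by
        congr 1
        ring
    _ ≤ _ := abs_add_le _ _
    _ ≤ 3 * y * (X / L : ℕ) + L := add_le_add h2 h1
    _ = _ := by ring

/-- On the core the primes of the block decide: for `i L + y < m ≤ (i + 1) L ≤ X`,
`zs s y (QQ 0 X) m = zs s y (QQ (i L) L) m`, and the same for `lamQ`.

PROOF. If `pv y (m - q) ≠ 0` or `vv W y (m - q) ≠ 0` then `1 ≤ m - q ≤ y`, so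
`i L < m - y ≤ q < m ≤ (i + 1) L`. -/
lemma zs_block (s : ℝ) (X y L i : ℕ) (hi : (i + 1) * L ≤ X) (m : ℤ)
    (h1 : ((i * L + y : ℕ) : ℤ) < m)
    (h2 : m ≤ (((i + 1) * L : ℕ) : ℤ)) : zs s y (QQ 0 X) m = zs s y (QQ (i * L) L) m := by
  have e4 : (i + 1) * L = i * L + L := by ring
  rw [e4] at h2 hi
  unfold zs
  symm
  refine Finset.prod_subset ?_ ?_
  · intro q hq
    unfold QQ at hq ⊢
    rw [Finset.mem_filter, Finset.mem_Ioc] at hq ⊢
    exact ⟨⟨by omega, by omega⟩, hq.2⟩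
  · intro q hq hq'
    have hpv : pv y (m - q) = 0 := by
      by_contra hne
      apply hq'
      unfold QQ at hq ⊢
      rw [Finset.mem_filter, Finset.mem_Ioc] at hq ⊢
      have h3 : 1 ≤ m - q ∧ m - q ≤ y := by
        by_contra hcon
        apply hne
        unfold pv
        rw [if_neg]
        rintro ⟨a1, a2, _⟩
        exact hcon ⟨a1, a2⟩
      refine ⟨⟨?_, ?_⟩, hq.2⟩
      · have : ((i * L : ℕ) : ℤ) < q := by push_cast at h1 ⊢; linarith [h3.2]
        exact_mod_cast this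
      · have : (q : ℤ) ≤ ((i * L + L : ℕ) : ℤ) := by linarith [h3.1]
        exact_mod_cast this
    rw [hpv]
    ring

lemma lamQ_block (W X y L i : ℕ) (hi : (i + 1) * L ≤ X) (m : ℤ) (h1 : ((i * L + y : ℕ) : ℤ) < m)
    (h2 : m ≤ (((i + 1) * L : ℕ) : ℤ)) : lamQ W y (QQ 0 X) m = lamQ W y (QQ (i * L) L) m := by
  have e4 : (i + 1) * L = i * L + L := by ring
  rw [e4] at h2 hi
  unfold lamQ
  symm
  apply Finset.sum_subset
  · intro q hq
    unfold QQ at hq ⊢
    rw [Finset.mem_filter, Finset.mem_Ioc] at hq ⊢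
    exact ⟨⟨by omega, by omega⟩, hq.2⟩
  · intro q hq hq'
    have h3 : ¬ (1 ≤ m - (q : ℤ) ∧ m - (q : ℤ) ≤ y) := by
      rintro ⟨a1, a2⟩
      apply hq'
      unfold QQ at hq ⊢
      rw [Finset.mem_filter, Finset.mem_Ioc] at hq ⊢
      refine ⟨⟨?_, ?_⟩, hq.2⟩
      · have : ((i * L : ℕ) : ℤ) < q := by push_cast at h1 ⊢; linarith
        exact_mod_cast this
      · have : (q : ℤ) ≤ ((i * L + L : ℕ) : ℤ) := by linarith
        exact_mod_cast this
    unfold vv gW
    rw [if_neg h3, zero_div]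

/-- Splitting of the even numbers of the extended block into the even classes modulo an even `W`. -/
lemma sum_even_eq_sum_classes (x L y W : ℕ) (hW : 1 ≤ W) (h2 : 2 ∣ W) (f : ℤ → ℝ) :
    ∑ m ∈ (Finset.Ioc (x : ℤ) ((x + L + y : ℕ) : ℤ)).filter (fun m => Even m), f m
      = ∑ a ∈ (Finset.range W).filter (fun a => Even a), ∑ m ∈ extC x L y W a, f m := by
  have hW0 : (0 : ℤ) < W := by exact_mod_cast hW
  obtain ⟨V, hV⟩ := h2
  have hpar : ∀ m : ℤ, ∀ a : ℕ, m ≡ (a : ℤ) [ZMOD (W : ℤ)] → (Even m ↔ Even a) := by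
    intro m a hma
    obtain ⟨k, hk⟩ := Int.modEq_iff_dvd.mp hma
    have h3 : (a : ℤ) = m + 2 * (V * k) := by
      have : (W : ℤ) = 2 * V := by exact_mod_cast hV
      rw [this] at hk
      linarith
    rw [Int.even_iff, Nat.even_iff]
    omega
  have hr : ∀ m : ℤ, (((m % W).toNat : ℕ) : ℤ) = m % W := fun m =>
    Int.toNat_of_nonneg (Int.emod_nonneg m hW0.ne')
  have hmod : ∀ m : ℤ, m ≡ (((m % W).toNat : ℕ) : ℤ) [ZMOD (W : ℤ)] := by
    intro m
    rw [hr]
    exact (Int.mod_modEq m W).symm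
  have hmaps : ∀ m ∈ (Finset.Ioc (x : ℤ) ((x + L + y : ℕ) : ℤ)).filter (fun m => Even m),
      (m % W).toNat ∈ (Finset.range W).filter (fun a => Even a) := by
    intro m hm
    rw [Finset.mem_filter] at hm
    rw [Finset.mem_filter, Finset.mem_range]
    refine ⟨?_, (hpar m _ (hmod m)).mp hm.2⟩
    have h3 := Int.emod_lt_of_pos m hW0
    have h4 := hr m
    omega
  rw [← Finset.sum_fiberwise_of_maps_to hmaps]
  apply Finset.sum_congr rfl
  intro a ha
  rw [Finset.mem_filter, Finset.mem_range] at ha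
  apply Finset.sum_congr _ fun _ _ => rfl
  unfold extC
  ext m
  rw [Finset.mem_filter, Finset.mem_filter, Finset.mem_filter]
  constructor
  · rintro ⟨⟨h3, _⟩, h5⟩
    refine ⟨h3, ?_⟩
    rw [← h5]
    exact hmod m
  · rintro ⟨h3, h4⟩
    refine ⟨⟨h3, (hpar m a h4).mpr ha.2⟩, ?_⟩
    have h5 : m % W = a := by
      have h6 : (a : ℤ) % W = a := Int.emod_eq_of_lt (by positivity) (by exact_mod_cast ha.1)
      unfold Int.ModEq at h4
      rw [h4, h6]
    rw [h5]
    exact Int.toNat_natCast a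

lemma card_extC_le (x L y W a : ℕ) (hW : 1 ≤ W) :
    ((extC x L y W a).card : ℝ) ≤ ((L : ℝ) + y) / W + 1 := by
  have hW0 : (0 : ℤ) < W := by exact_mod_cast hW
  have hWR : (0 : ℝ) < W := by exact_mod_cast hW
  unfold extC
  have h := Int.Ioc_filter_modEq_card (x : ℤ) ((x + L + y : ℕ) : ℤ) hW0 (a : ℤ)
  have h1 : ((((Finset.Ioc (x : ℤ) ((x + L + y : ℕ) : ℤ)).filter
      (fun m => m ≡ (a : ℤ) [ZMOD (W : ℤ)])).card : ℤ) : ℝ) ≤ ((L : ℝ) + y) / W + 1 := by
    rw [h]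
    push_cast
    apply max_le
    · have h2 := Int.floor_le ((((x + L + y : ℕ) : ℤ) - (a : ℤ) : ℚ) / (((W : ℕ) : ℤ) : ℚ))
      have h3 := Int.lt_floor_add_one (((x : ℤ) - (a : ℤ) : ℚ) / (((W : ℕ) : ℤ) : ℚ))
      have h4 : ((⌊(((x + L + y : ℕ) : ℤ) - (a : ℤ) : ℚ) / (((W : ℕ) : ℤ) : ℚ)⌋ : ℤ) : ℚ) -
          ((⌊((x : ℤ) - (a : ℤ) : ℚ) / (((W : ℕ) : ℤ) : ℚ)⌋ : ℤ) : ℚ) ≤
          ((L : ℚ) + y) / W + 1 := by
        have h5 : (((x + L + y : ℕ) : ℤ) - (a : ℤ) : ℚ) / (((W : ℕ) : ℤ) : ℚ) -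
            ((x : ℤ) - (a : ℤ) : ℚ) / (((W : ℕ) : ℤ) : ℚ) = ((L : ℚ) + y) / W := by
          push_cast
          ring
        linarith
      have h6 : (((((⌊(((x + L + y : ℕ) : ℤ) - (a : ℤ) : ℚ) / (((W : ℕ) : ℤ) : ℚ)⌋ : ℤ) : ℚ) -
          ((⌊((x : ℤ) - (a : ℤ) : ℚ) / (((W : ℕ) : ℤ) : ℚ)⌋ : ℤ) : ℚ) : ℚ)) : ℝ) ≤
          ((((L : ℚ) + y) / W + 1 : ℚ) : ℝ) := by
        exact_mod_cast h4
      push_cast at h6
      exact h6
    · positivity
  exact_mod_cast h1

/-- The classes partition the extended block. -/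
lemma sum_card_extC (x L y W : ℕ) (hW : 1 ≤ W) :
    ∑ a ∈ Finset.range W, ((extC x L y W a).card : ℝ) = L + y := by
  have hW0 : (0 : ℤ) < W := by exact_mod_cast hW
  have hr : ∀ m : ℤ, (((m % W).toNat : ℕ) : ℤ) = m % W := fun m =>
    Int.toNat_of_nonneg (Int.emod_nonneg m hW0.ne')
  have hmod : ∀ m : ℤ, m ≡ (((m % W).toNat : ℕ) : ℤ) [ZMOD (W : ℤ)] := by
    intro m
    rw [hr]
    exact (Int.mod_modEq m W).symm
  have hmaps : ∀ m ∈ Finset.Ioc (x : ℤ) ((x + L + y : ℕ) : ℤ),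
      (m % W).toNat ∈ Finset.range W := by
    intro m _
    rw [Finset.mem_range]
    have h3 := Int.emod_lt_of_pos m hW0
    have h4 := hr m
    omega
  have h1 := Finset.card_eq_sum_card_fiberwise (f := fun m : ℤ => (m % W).toNat)
    (s := Finset.Ioc (x : ℤ) ((x + L + y : ℕ) : ℤ)) (t := Finset.range W) (fun m hm => hmaps m hm)
  have h2 : ∀ a ∈ Finset.range W, (extC x L y W a).card =
      ((Finset.Ioc (x : ℤ) ((x + L + y : ℕ) : ℤ)).filter (fun m : ℤ => (m % W).toNat = a)).card := by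
    intro a ha
    rw [Finset.mem_range] at ha
    congr 1
    unfold extC
    ext m
    rw [Finset.mem_filter, Finset.mem_filter]
    constructor
    · rintro ⟨h3, h4⟩
      refine ⟨h3, ?_⟩
      have h5 : m % W = a := by
        have h6 : (a : ℤ) % W = a := Int.emod_eq_of_lt (by positivity) (by exact_mod_cast ha)
        unfold Int.ModEq at h4
        rw [h4, h6]
      rw [h5]
      exact Int.toNat_natCast a
    · rintro ⟨h3, h4⟩
      refine ⟨h3, ?_⟩
      rw [← h4]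
      exact hmod m
  have h3 : ∑ a ∈ Finset.range W, (extC x L y W a).card = L + y := by
    rw [Finset.sum_congr rfl h2, ← h1, Int.card_Ioc]
    omega
  exact_mod_cast h3

end Pool.Agent.Lib.MP_bae66e_nt.LL
end

section

/-!
# B05: from sets of primes to tuples of shifts
-/

set_option autoImplicit false

open Finset

namespace Pool.Agent.Lib.MP_bae66e_nt.LL

private lemma B05_log_pos (y : ℕ) (hy : 2 ≤ y) : 0 < Real.log (y : ℝ) := by
  apply Real.log_pos
  exact_mod_cast (show 1 < y by omega)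

/-- `DD` for the normalised functions: `DD y W (pv y) (vv W y) h = DD y W (fP y) (gW W y) h /
(log y)^{k+1}` for `y ≥ 2` (`fP y = log y * pv y`, `gW W y = log y * vv W y`). -/
lemma DD_pv_vv {k : ℕ} (W y : ℕ) (hy : 2 ≤ y) (h : Fin k → ℤ) :
    DD y W (pv y) (vv W y) h = DD y W (fP y) (gW W y) h / (Real.log y) ^ (k + 1) := by
  have hl := B05_log_pos y hy
  have hp : ∀ n : ℤ, pv y n = fP y n / Real.log y := by
    intro n
    unfold pv fP
    split_ifs
    · rw [div_self hl.ne']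
    · rw [zero_div]
  unfold DD
  rw [Finset.sum_div]
  apply Finset.sum_congr rfl
  intro b _
  have hlk : 0 < (Real.log y) ^ (k + 1) := pow_pos hl _
  rw [← abs_of_pos hlk, ← abs_div, Finset.sum_div]
  congr 1
  apply Finset.sum_congr rfl
  intro n _
  rw [sub_div]
  congr 1
  · simp only [hp]
    rw [Finset.prod_div_distrib, Finset.prod_const, Finset.card_univ, Fintype.card_fin]
  · unfold vv
    rw [Finset.prod_div_distrib, Finset.prod_const, Finset.card_univ, Fintype.card_fin]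

private lemma B05_hh_nonneg {k : ℕ} (h : Fin k → ℤ) (hpos : ∀ i, 1 ≤ h i) (i : Fin (k + 1)) :
    0 ≤ hh h i := by
  refine Fin.cases ?_ ?_ i
  · exact le_of_eq rfl
  · intro j
    have := hpos j
    change 0 ≤ h j
    omega

private lemma B05_prod {k : ℕ} (q : ℕ) (h : Fin k → ℤ) (hinj : Function.Injective (hh h))
    (hpos : ∀ i, 1 ≤ h i) (T : Finset ℕ)
    (hT : ∀ n : ℕ, n ∈ T ↔ ∃ i, (n : ℤ) = q + hh h i) (f : ℤ → ℝ) (m : ℤ) :
    ∏ q' ∈ T, f (m - (q' : ℕ)) = ∏ i, f (m - q - hh h i) := by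
  symm
  apply Finset.prod_bij (fun (i : Fin (k + 1)) _ => ((q : ℤ) + hh h i).toNat)
  · intro i _
    rw [hT]
    refine ⟨i, ?_⟩
    have := B05_hh_nonneg h hpos i
    rw [Int.toNat_of_nonneg (by positivity)]
  · intro i _ j _ hij
    have hi := B05_hh_nonneg h hpos i
    have hj := B05_hh_nonneg h hpos j
    have h1 : (((q : ℤ) + hh h i).toNat : ℤ) = (((q : ℤ) + hh h j).toNat : ℤ) := by rw [hij]
    rw [Int.toNat_of_nonneg (by positivity), Int.toNat_of_nonneg (by positivity)] at h1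
    apply hinj
    linarith
  · intro n hn
    obtain ⟨i, hi⟩ := (hT n).mp hn
    refine ⟨i, Finset.mem_univ _, ?_⟩
    rw [← hi, Int.toNat_natCast]
  · intro i _
    have hi := B05_hh_nonneg h hpos i
    rw [Int.toNat_of_nonneg (by positivity)]
    congr 1
    ring

private lemma B05_pv_zero (y : ℕ) (n : ℤ) (hn : ¬ (1 ≤ n ∧ n ≤ (y : ℤ))) : pv y n = 0 := by
  unfold pv
  rw [if_neg]
  intro h
  exact hn ⟨h.1, h.2.1⟩

private lemma B05_vv_zero (W y : ℕ) (n : ℤ) (hn : ¬ (1 ≤ n ∧ n ≤ (y : ℤ))) : vv W y n = 0 := by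
  unfold vv gW
  rw [if_neg hn, zero_div]

/-- One set of primes. Let `q ≥ 1`, `h : Fin k → ℤ` with `hh h` injective and `h_i ≥ 1`, and
`T = {q, q + h_1, …, q + h_k}` with `q ∈ (x, x + L]`. Then
`∑_{a < W} |∑_{m ∈ extC x L y W a} (∏_{q' ∈ T} pv y (m - q') - ∏_{q' ∈ T} vv W y (m - q'))|
 = DD y W (pv y) (vv W y) h`.

PROOF. Write `∏_{q' ∈ T} f(m - q') = ∏_i f(m - q - hh h i)` (`hh h` is injective). Both products
vanish unless `n = m - q ∈ [1, y]` (factor `i = 0`), and `q + n ∈ (x, x + L + y]` for all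
`n ∈ [1, y]`. So the inner sum is the sum over `n ∈ [1, y]`, `n ≡ a - q (W)`; when `a` runs over the
classes, so does `b = a - q`. -/
lemma sum_class_eq_DD {k : ℕ} (x L y W q : ℕ) (hW : 1 ≤ W) (hq1 : x < q) (hq2 : q ≤ x + L)
    (h : Fin k → ℤ) (hinj : Function.Injective (hh h)) (hpos : ∀ i, 1 ≤ h i) (T : Finset ℕ)
    (hT : ∀ n : ℕ, n ∈ T ↔ ∃ i, (n : ℤ) = q + hh h i) :
    ∑ a ∈ Finset.range W, |∑ m ∈ extC x L y W a,
        ((∏ q' ∈ T, pv y (m - q')) - ∏ q' ∈ T, vv W y (m - q'))|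
      = DD y W (pv y) (vv W y) h := by
  have hWZ : (0 : ℤ) < W := by exact_mod_cast (show 0 < W by omega)
  have hinner : ∀ a b : ℕ, ((a : ℤ) - q) ≡ (b : ℤ) [ZMOD (W : ℤ)] →
      ∑ m ∈ extC x L y W a, ((∏ q' ∈ T, pv y (m - q')) - ∏ q' ∈ T, vv W y (m - q'))
      = ∑ n ∈ (Finset.Icc (1 : ℤ) (y : ℤ)).filter (fun n => n ≡ (b : ℤ) [ZMOD (W : ℤ)]),
        ((∏ i, pv y (n - hh h i)) - ∏ i, vv W y (n - hh h i)) := by
    intro a b hab
    have e1 : ∀ m : ℤ, (∏ q' ∈ T, pv y (m - q')) - ∏ q' ∈ T, vv W y (m - q')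
        = (∏ i, pv y (m - q - hh h i)) - ∏ i, vv W y (m - q - hh h i) := by
      intro m
      rw [B05_prod q h hinj hpos T hT (pv y) m, B05_prod q h hinj hpos T hT (vv W y) m]
    simp only [e1]
    symm
    apply Finset.sum_of_injOn (fun n : ℤ => n + q)
    · intro n _ n' _ hnn
      simpa using hnn
    · intro n hn
      simp only [Finset.coe_filter, Finset.mem_Icc, Set.mem_ofPred_eq] at hn
      simp only [extC, Finset.coe_filter, Finset.mem_Ioc, Set.mem_ofPred_eq]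
      refine ⟨⟨by omega, by push_cast; omega⟩, ?_⟩
      have h2 : n ≡ (a : ℤ) - q [ZMOD (W : ℤ)] := hn.2.trans hab.symm
      have h3 := h2.add_right (q : ℤ)
      rwa [sub_add_cancel] at h3
    · intro m hm hm'
      have hnot : ¬ (1 ≤ m - q ∧ m - q ≤ (y : ℤ)) := by
        rintro ⟨g1, g2⟩
        apply hm'
        refine ⟨m - q, ?_, by simp⟩
        simp only [extC, Finset.mem_filter, Finset.mem_Ioc] at hm
        simp only [Finset.coe_filter, Finset.mem_Icc, Set.mem_ofPred_eq]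
        refine ⟨⟨g1, g2⟩, ?_⟩
        have h4 := hm.2.sub_right (q : ℤ)
        exact h4.trans hab
      have z1 : ∏ i, pv y (m - q - hh h i) = 0 := by
        apply Finset.prod_eq_zero (Finset.mem_univ (0 : Fin (k + 1)))
        have : hh h 0 = 0 := rfl
        rw [this, sub_zero]
        exact B05_pv_zero y _ hnot
      have z2 : ∏ i, vv W y (m - q - hh h i) = 0 := by
        apply Finset.prod_eq_zero (Finset.mem_univ (0 : Fin (k + 1)))
        have : hh h 0 = 0 := rfl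
        rw [this, sub_zero]
        exact B05_vv_zero W y _ hnot
      rw [z1, z2, sub_zero]
    · intro n _
      simp only [add_sub_cancel_right]
  unfold DD
  have hcast : ∀ a : ℕ, ((((a : ℤ) - q) % (W : ℤ)).toNat : ℤ) = ((a : ℤ) - q) % (W : ℤ) :=
    fun a => Int.toNat_of_nonneg (Int.emod_nonneg _ hWZ.ne')
  apply Finset.sum_nbij' (fun a : ℕ => (((a : ℤ) - q) % (W : ℤ)).toNat)
    (fun b : ℕ => (b + q) % W)
  · intro a _
    rw [Finset.mem_range]
    have h1 := Int.emod_lt_of_pos ((a : ℤ) - q) hWZ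
    have h2 := hcast a
    omega
  · intro b _
    rw [Finset.mem_range]
    exact Nat.mod_lt _ (by omega)
  · intro a ha
    rw [Finset.mem_range] at ha
    have h1 : (((((a : ℤ) - q) % (W : ℤ)).toNat + q) % W : ℕ) = a := by
      have h2 : ((((((a : ℤ) - q) % (W : ℤ)).toNat + q) % W : ℕ) : ℤ) = (a : ℤ) := by
        push_cast
        rw [hcast a, Int.emod_add_emod, sub_add_cancel]
        exact Int.emod_eq_of_lt (by positivity) (by exact_mod_cast ha)
      exact_mod_cast h2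
    exact h1
  · intro b hb
    rw [Finset.mem_range] at hb
    have h2 : ((((((b + q) % W : ℕ) : ℤ) - q) % (W : ℤ)).toNat : ℤ) = (b : ℤ) := by
      rw [hcast]
      push_cast
      rw [Int.emod_sub_emod, add_sub_cancel_right]
      exact Int.emod_eq_of_lt (by positivity) (by exact_mod_cast hb)
    exact_mod_cast h2
  · intro a _
    rw [hinner a _ ?_]
    rw [hcast a]
    exact (Int.mod_modEq _ _).symm

/-- If the set `T` has diameter `≥ y`, both products vanish. -/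
lemma prod_eq_zero_of_diam (y W : ℕ) (T : Finset ℕ) (q q' : ℕ) (hq : q ∈ T) (hq' : q' ∈ T)
    (hd : q + y ≤ q') (m : ℤ) :
    (∏ q ∈ T, pv y (m - q)) = 0 ∧ (∏ q ∈ T, vv W y (m - q)) = 0 := by
  by_cases h1 : 1 ≤ m - (q : ℤ) ∧ m - (q : ℤ) ≤ (y : ℤ)
  · have h2 : ¬ (1 ≤ m - (q' : ℤ) ∧ m - (q' : ℤ) ≤ (y : ℤ)) := by
      rintro ⟨g1, _⟩
      have hd' : (q : ℤ) + y ≤ q' := by exact_mod_cast hd
      omega
    exact ⟨Finset.prod_eq_zero hq' (B05_pv_zero y _ h2),
      Finset.prod_eq_zero hq' (B05_vv_zero W y _ h2)⟩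
  · exact ⟨Finset.prod_eq_zero hq (B05_pv_zero y _ h1),
      Finset.prod_eq_zero hq (B05_vv_zero W y _ h1)⟩

private lemma B05_DD_nonneg {k : ℕ} (y W : ℕ) (f g : ℤ → ℝ) (h : Fin k → ℤ) :
    0 ≤ DD y W f g h := Finset.sum_nonneg fun _ _ => abs_nonneg _

/-- For a block: `∑_{a < W} ErrJ(k + 1) ≤ ∑_{h ∈ shiftsP k y} #{q ∈ Q : q + h_i ∈ Q for all i} DD(h)`.

PROOF. `ErrJ` is at most the sum over `T ∈ powersetCard (k+1) Q` of `|∑_m (…)|` (triangle
inequality). For `T` of diameter `≥ y` the term is `0` (`prod_eq_zero_of_diam`). Otherwise let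
`q = min T` and `h` the increasing enumeration of `T \ {q}` minus `q` (`Finset.orderEmbOfFin`):
`h ∈ shiftsP k y`, `q, q + h_i ∈ Q`, and `T = {q, q + h_1, …}` is determined by `(q, h)`; use
`sum_class_eq_DD`. -/
lemma sum_ErrJ_block_le (x L y W k : ℕ) (hW : 1 ≤ W) (hy : 2 ≤ y) :
    ∑ a ∈ Finset.range W, ErrJ W y (QQ x L) (extC x L y W a) (k + 1)
      ≤ ∑ h ∈ shiftsP k y, (((QQ x L).filter (fun q : ℕ => ∀ i, ((q : ℤ) + h i).toNat ∈ QQ x L)).card : ℝ)
        * DD y W (pv y) (vv W y) h := by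
  classical
  set D : Finset ℕ → ℝ := fun T => ∑ a ∈ Finset.range W, |∑ m ∈ extC x L y W a,
        ((∏ q' ∈ T, pv y (m - q')) - ∏ q' ∈ T, vv W y (m - q'))| with hD
  have hD0 : ∀ T, 0 ≤ D T := fun T => Finset.sum_nonneg fun _ _ => abs_nonneg _
  have h1 : ∑ a ∈ Finset.range W, ErrJ W y (QQ x L) (extC x L y W a) (k + 1)
      ≤ ∑ T ∈ Finset.powersetCard (k + 1) (QQ x L), D T := by
    rw [hD]
    simp only
    rw [Finset.sum_comm]
    apply Finset.sum_le_sum
    intro a _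
    exact Finset.abs_sum_le_sum_abs _ _
  refine h1.trans ?_
  set pairs := (shiftsP k y).sigma
    (fun h => (QQ x L).filter (fun q : ℕ => ∀ i, ((q : ℤ) + h i).toNat ∈ QQ x L)) with hpairs
  set Φ : (Σ _ : Fin k → ℤ, ℕ) → Finset ℕ :=
    fun p => Finset.univ.image (fun i => ((p.2 : ℤ) + hh p.1 i).toNat) with hΦ
  have h2 : ∑ T ∈ Finset.powersetCard (k + 1) (QQ x L), D T ≤ ∑ T ∈ pairs.image Φ, D T := by
    have h3 : ∑ T ∈ Finset.powersetCard (k + 1) (QQ x L), D T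
        = ∑ T ∈ (Finset.powersetCard (k + 1) (QQ x L)).filter (fun T => D T ≠ 0), D T :=
      (Finset.sum_filter_ne_zero _).symm
    rw [h3]
    apply Finset.sum_le_sum_of_subset_of_nonneg
    · intro T hT
      rw [Finset.mem_filter, Finset.mem_powersetCard] at hT
      obtain ⟨⟨hTQ, hcard⟩, hne⟩ := hT
      set emb := T.orderEmbOfFin hcard with hemb
      have hmem : ∀ i, emb i ∈ T := fun i => Finset.orderEmbOfFin_mem T hcard i
      have hdiam : ∀ i, emb i < emb 0 + y := by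
        intro i
        by_contra hcon
        rw [not_lt] at hcon
        apply hne
        rw [hD]
        simp only
        apply Finset.sum_eq_zero
        intro a _
        rw [abs_eq_zero]
        apply Finset.sum_eq_zero
        intro m _
        obtain ⟨z1, z2⟩ := prod_eq_zero_of_diam y W T (emb 0) (emb i) (hmem 0) (hmem i) hcon m
        rw [z1, z2, sub_zero]
      have hlt : ∀ i : Fin k, emb 0 < emb i.succ := fun i => emb.strictMono (Fin.succ_pos i)
      rw [Finset.mem_image]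
      refine ⟨⟨fun i => ((emb i.succ : ℕ) : ℤ) - ((emb 0 : ℕ) : ℤ), emb 0⟩, ?_, ?_⟩
      · have hhh : ∀ i : Fin (k + 1), hh (fun i : Fin k => ((emb i.succ : ℕ) : ℤ) - ((emb 0 : ℕ) : ℤ)) i
            = ((emb i : ℕ) : ℤ) - ((emb 0 : ℕ) : ℤ) := by
          intro i
          refine Fin.cases ?_ ?_ i
          · change (0 : ℤ) = _
            rw [sub_self]
          · intro j
            rfl
        rw [hpairs, Finset.mem_sigma]
        refine ⟨?_, ?_⟩
        · simp only [shiftsP, shifts, Finset.mem_filter, Fintype.mem_piFinset, Finset.mem_Icc]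
          refine ⟨fun i => ⟨?_, ?_⟩, ?_, fun i => ?_⟩
          · have := hlt i
            omega
          · have := hdiam i.succ
            omega
          · intro i j hij
            rw [hhh, hhh] at hij
            apply emb.injective
            have : ((emb i : ℕ) : ℤ) = ((emb j : ℕ) : ℤ) := by linarith
            exact_mod_cast this
          · have := hlt i
            omega
        · simp only [Finset.mem_filter]
          refine ⟨hTQ (hmem 0), fun i => ?_⟩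
          have : ((emb 0 : ℕ) : ℤ) + (((emb i.succ : ℕ) : ℤ) - ((emb 0 : ℕ) : ℤ))
              = ((emb i.succ : ℕ) : ℤ) := by ring
          rw [this, Int.toNat_natCast]
          exact hTQ (hmem _)
      · have hhh : ∀ i : Fin (k + 1), hh (fun i : Fin k => ((emb i.succ : ℕ) : ℤ) - ((emb 0 : ℕ) : ℤ)) i
            = ((emb i : ℕ) : ℤ) - ((emb 0 : ℕ) : ℤ) := by
          intro i
          refine Fin.cases ?_ ?_ i
          · change (0 : ℤ) = _
            rw [sub_self]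
          · intro j
            rfl
        rw [hΦ]
        simp only [hhh, add_sub_cancel, Int.toNat_natCast]
        exact Finset.image_orderEmbOfFin_univ T hcard
    · intro T _ _
      exact hD0 T
  refine h2.trans ((Finset.sum_image_le_of_nonneg (fun T _ => hD0 T)).trans (le_of_eq ?_))
  have h4 : ∀ p ∈ pairs, D (Φ p) = DD y W (pv y) (vv W y) p.1 := by
    rintro ⟨h, q⟩ hp
    rw [hpairs, Finset.mem_sigma] at hp
    obtain ⟨hp1, hp2⟩ := hp
    simp only at hp1 hp2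
    simp only [shiftsP, Finset.mem_filter] at hp1
    simp only [QQ, Finset.mem_filter, Finset.mem_Ioc] at hp2
    obtain ⟨_, hinj, hpos⟩ := hp1
    rw [hD]
    simp only
    apply sum_class_eq_DD x L y W q hW hp2.1.1.1 hp2.1.1.2 h hinj hpos
    intro n
    rw [hΦ]
    simp only [Finset.mem_image, Finset.mem_univ, true_and]
    constructor
    · rintro ⟨i, hi⟩
      refine ⟨i, ?_⟩
      rw [← hi]
      have := B05_hh_nonneg h hpos i
      rw [Int.toNat_of_nonneg (by positivity)]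
    · rintro ⟨i, hi⟩
      refine ⟨i, ?_⟩
      rw [← hi, Int.toNat_natCast]
  rw [Finset.sum_congr rfl h4, hpairs, Finset.sum_sigma]
  apply Finset.sum_congr rfl
  intro h _
  simp only
  rw [Finset.sum_const, nsmul_eq_mul]

/-- Sum over the blocks `i < X / L`:
`∑_i ∑_a ErrJ(i, a, k + 1) ≤ ∑_{h ∈ shiftsP k y} #{q ≤ X : q, q + h_i prime} DD(h) / (log y)^{k+1}`,
with `DD` for `fP y`, `gW W y` (the blocks are disjoint, `(i + 1) L ≤ X`). -/
theorem sum_ErrJ_le (X L y W k : ℕ) (hL : 0 < L) (hW : 1 ≤ W) (hy : 2 ≤ y) :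
    ∑ i ∈ Finset.range (X / L), ∑ a ∈ Finset.range W,
        ErrJ W y (QQ (i * L) L) (extC (i * L) L y W a) (k + 1)
      ≤ ∑ h ∈ shiftsP k y,
        (((Finset.Ioc 0 X).filter (fun q => q.Prime ∧ ∀ i, (q + (h i).toNat).Prime)).card : ℝ)
          * (DD y W (fP y) (gW W y) h / (Real.log y) ^ (k + 1)) := by
  classical
  refine (Finset.sum_le_sum fun i _ => sum_ErrJ_block_le (i * L) L y W k hW hy).trans ?_
  rw [Finset.sum_comm]
  apply Finset.sum_le_sum
  intro h hh'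
  rw [← DD_pv_vv W y hy h, ← Finset.sum_mul]
  apply mul_le_mul_of_nonneg_right _ (B05_DD_nonneg y W _ _ h)
  simp only [shiftsP, Finset.mem_filter] at hh'
  have hpos := hh'.2.2
  rw [← Nat.cast_sum]
  have hdisj : ∀ i ∈ Finset.range (X / L), ∀ j ∈ Finset.range (X / L), i ≠ j →
      Disjoint ((QQ (i * L) L).filter (fun q : ℕ => ∀ l, ((q : ℤ) + h l).toNat ∈ QQ (i * L) L))
        ((QQ (j * L) L).filter (fun q : ℕ => ∀ l, ((q : ℤ) + h l).toNat ∈ QQ (j * L) L)) := by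
    intro i _ j _ hij
    rw [Finset.disjoint_left]
    intro q hq hq'
    simp only [QQ, Finset.mem_filter, Finset.mem_Ioc] at hq hq'
    obtain ⟨⟨⟨a1, a2⟩, _⟩, _⟩ := hq
    obtain ⟨⟨⟨b1, b2⟩, _⟩, _⟩ := hq'
    rcases lt_or_gt_of_ne hij with hlt | hlt
    · have : (i + 1) * L ≤ j * L := Nat.mul_le_mul_right L hlt
      rw [add_mul, one_mul] at this
      omega
    · have : (j + 1) * L ≤ i * L := Nat.mul_le_mul_right L hlt
      rw [add_mul, one_mul] at this
      omega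
  rw [← Finset.card_biUnion hdisj]
  have hsub : (Finset.range (X / L)).biUnion (fun i => (QQ (i * L) L).filter
      (fun q : ℕ => ∀ l, ((q : ℤ) + h l).toNat ∈ QQ (i * L) L))
      ⊆ (Finset.Ioc 0 X).filter (fun q => q.Prime ∧ ∀ i, (q + (h i).toNat).Prime) := by
    intro q hq
    rw [Finset.mem_biUnion] at hq
    obtain ⟨i, hi, hq⟩ := hq
    rw [Finset.mem_range] at hi
    simp only [QQ, Finset.mem_filter, Finset.mem_Ioc] at hq ⊢
    obtain ⟨⟨⟨a1, a2⟩, hqp⟩, hq3⟩ := hq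
    refine ⟨⟨by omega, ?_⟩, hqp, fun l => ?_⟩
    · have h5 : (i + 1) * L ≤ X / L * L := Nat.mul_le_mul_right L hi
      have h6 : X / L * L ≤ X := Nat.div_mul_le_self X L
      rw [add_mul, one_mul] at h5
      omega
    · have h7 := (hq3 l).2
      have h8 : ((q : ℤ) + h l).toNat = q + (h l).toNat := by
        have := hpos l
        omega
      rwa [h8] at h7
  exact_mod_cast Finset.card_le_card hsub

end Pool.Agent.Lib.MP_bae66e_nt.LL
end

section

/-!
# E03: telescoping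
-/

set_option autoImplicit false

open Finset

namespace Pool.Agent.Lib.MP_bae66e_nt.LL

/-- `∏ f_i - ∏ g_i = ∑_l (∏_{i < l} g_i) (f_l - g_l) (∏_{i > l} f_i)`, written with `mix`.

Hint: `Finset.prod_sub_ordered` for the functions `f` and `f - g`, or induction on `k`. -/
lemma prod_sub_prod_eq_sum_mix {k : ℕ} (f g : ℤ → ℝ) (x : Fin (k + 1) → ℤ) :
    (∏ i, f (x i)) - ∏ i, g (x i) = ∑ l, ∏ i, mix f g l i (x i) := by
  have h := Finset.prod_sub_ordered (Finset.univ : Finset (Fin (k + 1)))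
    (fun i => f (x i)) (fun i => f (x i) - g (x i))
  have e1 : ∏ i, (f (x i) - (f (x i) - g (x i))) = ∏ i, g (x i) := by
    apply Finset.prod_congr rfl
    intro i _
    ring
  rw [e1] at h
  rw [h, sub_sub_cancel]
  apply Finset.sum_congr rfl
  intro l _
  rw [← Finset.prod_filter_mul_prod_filter_not (Finset.univ : Finset (Fin (k + 1)))
    (fun j => j < l) (fun i => mix f g l i (x i))]
  have e2 : (Finset.univ : Finset (Fin (k + 1))).filter (fun j => ¬ j < l) =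
      insert l ((Finset.univ : Finset (Fin (k + 1))).filter (fun j => l < j)) := by
    ext j
    simp only [Finset.mem_filter, Finset.mem_insert, Finset.mem_univ, true_and, not_lt]
    constructor
    · intro h
      rcases h.lt_or_eq with h | h
      · exact Or.inr h
      · exact Or.inl h.symm
    · rintro (h | h)
      · exact h.ge
      · exact h.le
  rw [e2, Finset.prod_insert (by simp)]
  have e3 : mix f g l l (x l) = f (x l) - g (x l) := by
    unfold mix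
    rw [if_neg (lt_irrefl l), if_pos rfl]
  have e4 : ∏ j ∈ (Finset.univ : Finset (Fin (k + 1))).filter (fun j => j < l),
      mix f g l j (x j) =
      ∏ j ∈ (Finset.univ : Finset (Fin (k + 1))).filter (fun j => j < l),
        (f (x j) - (f (x j) - g (x j))) := by
    apply Finset.prod_congr rfl
    intro j hj
    rw [Finset.mem_filter] at hj
    unfold mix
    rw [if_pos hj.2]
    ring
  have e5 : ∏ j ∈ (Finset.univ : Finset (Fin (k + 1))).filter (fun j => l < j),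
      mix f g l j (x j) =
      ∏ j ∈ (Finset.univ : Finset (Fin (k + 1))).filter (fun j => l < j), f (x j) := by
    apply Finset.prod_congr rfl
    intro j hj
    rw [Finset.mem_filter] at hj
    unfold mix
    rw [if_neg (not_lt.mpr hj.2.le), if_neg hj.2.ne']
  rw [e3, e4, e5]
  ring

/-- Hence `DD ≤ ∑_l ∑_b |∑_{n ≡ b} ∏_i mix f g l i (n - h_i)|` (triangle inequality). -/
lemma DD_le_sum_mix {k : ℕ} (Y W₀ : ℕ) (f g : ℤ → ℝ) (h : Fin k → ℤ) :
    DD Y W₀ f g h ≤ ∑ l : Fin (k + 1), ∑ b ∈ Finset.range W₀,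
      |∑ n ∈ (Finset.Icc (1 : ℤ) (Y : ℤ)).filter (fun n => n ≡ (b : ℤ) [ZMOD (W₀ : ℤ)]),
        ∏ i, mix f g l i (n - hh h i)| := by
  unfold DD
  rw [Finset.sum_comm]
  apply Finset.sum_le_sum
  intro b _
  have e1 : ∑ n ∈ (Finset.Icc (1 : ℤ) (Y : ℤ)).filter (fun n => n ≡ (b : ℤ) [ZMOD (W₀ : ℤ)]),
      ((∏ i, f (n - hh h i)) - ∏ i, g (n - hh h i)) =
      ∑ l : Fin (k + 1), ∑ n ∈ (Finset.Icc (1 : ℤ) (Y : ℤ)).filter
        (fun n => n ≡ (b : ℤ) [ZMOD (W₀ : ℤ)]), ∏ i, mix f g l i (n - hh h i) := by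
    rw [Finset.sum_comm]
    apply Finset.sum_congr rfl
    intro n _
    exact prod_sub_prod_eq_sum_mix f g (fun i => n - hh h i)
  rw [e1]
  exact Finset.abs_sum_le_sum_abs _ _

/-- Cauchy-Schwarz over `h` and `b`:
`∑_h F(h) ∑_b |a(h, b)| ≤ (W₀ ∑_h F(h)²)^{1/2} (∑_h ∑_b a(h, b)²)^{1/2}`. -/
lemma cauchy_hb {ι : Type*} (s : Finset ι) (W₀ : ℕ) (F : ι → ℝ) (a : ι → ℕ → ℝ)
    (hF : ∀ h ∈ s, 0 ≤ F h) :
    ∑ h ∈ s, F h * ∑ b ∈ Finset.range W₀, |a h b|
      ≤ Real.sqrt (W₀ * ∑ h ∈ s, (F h) ^ 2) *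
        Real.sqrt (∑ h ∈ s, ∑ b ∈ Finset.range W₀, (a h b) ^ 2) := by
  have h1 := Real.sum_mul_le_sqrt_mul_sqrt (s ×ˢ Finset.range W₀) (fun p => F p.1)
    (fun p => |a p.1 p.2|)
  have e1 : ∑ p ∈ s ×ˢ Finset.range W₀, F p.1 * |a p.1 p.2| =
      ∑ h ∈ s, F h * ∑ b ∈ Finset.range W₀, |a h b| := by
    rw [Finset.sum_product]
    apply Finset.sum_congr rfl
    intro h _
    rw [Finset.mul_sum]
  have e2 : ∑ p ∈ s ×ˢ Finset.range W₀, (F p.1) ^ 2 = W₀ * ∑ h ∈ s, (F h) ^ 2 := by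
    rw [Finset.sum_product, Finset.mul_sum]
    apply Finset.sum_congr rfl
    intro h _
    change ∑ _y ∈ Finset.range W₀, (F h) ^ 2 = _
    rw [Finset.sum_const, Finset.card_range, nsmul_eq_mul]
  have e3 : ∑ p ∈ s ×ˢ Finset.range W₀, |a p.1 p.2| ^ 2 =
      ∑ h ∈ s, ∑ b ∈ Finset.range W₀, (a h b) ^ 2 := by
    rw [Finset.sum_product]
    apply Finset.sum_congr rfl
    intro h _
    apply Finset.sum_congr rfl
    intro b _
    rw [sq_abs]
  rw [e1, e2, e3] at h1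
  exact h1

end Pool.Agent.Lib.MP_bae66e_nt.LL
end

section

/-!
# LP/E2a: the energy of a sum
-/

set_option autoImplicit false

open Finset

namespace Pool.Agent.Lib.MP_bae66e_nt.LP

open Pool.Agent.Lib.MP_bae66e_nt.LL

lemma En_nonneg (Y : ℕ) (f : ℤ → ℝ) : 0 ≤ En Y f := by
  exact Finset.sum_nonneg fun _ _ => sq_nonneg _

/-- `En Y (c f) = c⁴ En Y f`. -/
lemma En_const_mul (Y : ℕ) (c : ℝ) (f : ℤ → ℝ) : En Y (fun n => c * f n) = c ^ 4 * En Y f := by
  have h1 : ∀ d, corr Y (fun n => c * f n) d = c ^ 2 * corr Y f d := by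
    intro d
    unfold corr
    rw [Finset.mul_sum]
    exact Finset.sum_congr rfl fun n _ => by ring
  unfold En
  simp only [h1]
  rw [Finset.mul_sum]
  exact Finset.sum_congr rfl fun n _ => by ring

/-- Cross correlations: for `a`, `b` supported in `[1, Y]`,
`∑_{|d| ≤ Y} (∑_n a(n) b(n + d))² ≤ √(En a) √(En b)`.

PROOF. `second_moment_le` with `k = 1`, `W = 1`, the functions `a`, `b` (the sum over `b ∈ range 1` is
one term, without restriction on `n`): `∑_{|h| ≤ Y} (∑_n a(n) b(n - h))² ≤ ∑_d |corr a d| |corr b d|`;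
replace `h` by `-d`; Cauchy-Schwarz. -/
lemma sum_cross_sq_le (Y : ℕ) (a b : ℤ → ℝ) (ha : ∀ n : ℤ, ¬ (1 ≤ n ∧ n ≤ (Y : ℤ)) → a n = 0)
    (hb : ∀ n : ℤ, ¬ (1 ≤ n ∧ n ≤ (Y : ℤ)) → b n = 0) :
    ∑ d ∈ Finset.Icc (-(Y : ℤ)) (Y : ℤ), (∑ n ∈ Finset.Icc (1 : ℤ) (Y : ℤ), a n * b (n + d)) ^ 2
      ≤ Real.sqrt (En Y a) * Real.sqrt (En Y b) := by
  have h1 := second_moment_le (k := 1) Y 1 le_rfl ![a, b] (fun i => by
    fin_cases i
    · exact ha
    · exact hb)
  have h2 : ∑ h ∈ shifts 1 Y, ∑ b' ∈ Finset.range 1,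
      (∑ n ∈ (Finset.Icc (1 : ℤ) (Y : ℤ)).filter (fun n => n ≡ (b' : ℤ) [ZMOD ((1 : ℕ) : ℤ)]),
        ∏ i, (![a, b] : Fin 2 → ℤ → ℝ) i (n - hh h i)) ^ 2 =
      ∑ d ∈ Finset.Icc (-(Y : ℤ)) (Y : ℤ),
        (∑ n ∈ Finset.Icc (1 : ℤ) (Y : ℤ), a n * b (n + d)) ^ 2 := by
    apply Finset.sum_nbij' (fun h => -(h 0)) (fun d => fun _ => -d)
    · intro h hh'
      unfold shifts at hh'
      rw [Fintype.mem_piFinset] at hh'
      have := hh' 0
      rw [Finset.mem_Icc] at this ⊢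
      omega
    · intro d hd
      unfold shifts
      rw [Fintype.mem_piFinset]
      intro i
      rw [Finset.mem_Icc] at hd ⊢
      omega
    · intro h _
      funext i
      rw [neg_neg, Subsingleton.elim i 0]
    · intro d _
      exact neg_neg d
    · intro h _
      rw [Finset.sum_range_one]
      congr 1
      rw [Finset.filter_true_of_mem (fun n _ => by
        rw [Nat.cast_one]
        exact Int.modEq_one)]
      refine Finset.sum_congr rfl fun n _ => ?_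
      rw [Fin.prod_univ_two]
      have e1 : hh h 0 = 0 := rfl
      have e2 : hh h 1 = h 0 := rfl
      rw [e1, e2, sub_zero]
      rfl
  rw [h2] at h1
  refine h1.trans ?_
  have e3 : ∀ d, ∏ i : Fin (1 + 1), |corr Y ((![a, b] : Fin 2 → ℤ → ℝ) i) d| =
      |corr Y a d| * |corr Y b d| := fun d => Fin.prod_univ_two _
  have h3 := Real.sum_mul_le_sqrt_mul_sqrt (Finset.Icc (-(Y : ℤ)) (Y : ℤ))
    (fun d => |corr Y a d|) (fun d => |corr Y b d|)
  simp only [sq_abs] at h3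
  exact (Finset.sum_le_sum fun d _ => (e3 d).le).trans h3

/-- The energy of a sum of functions of energy `≤ e`, supported in `[1, Y]`.

PROOF. `corr(∑ E_i)(d) = ∑_{i,l} c_{il}(d)` with the cross correlations; `(∑_{i,l} c_{il})² ≤ R²
∑_{i,l} c_{il}²`, `R = #ι`; sum over `d` with `sum_cross_sq_le`: each of the `R²` pairs contributes at
most `√e √e = e`. -/
theorem En_sum_le {ι : Type} [Fintype ι] (Y : ℕ) (E : ι → ℤ → ℝ) (e : ℝ) (he : 0 ≤ e)
    (hE : ∀ i, ∀ n : ℤ, ¬ (1 ≤ n ∧ n ≤ (Y : ℤ)) → E i n = 0) (hen : ∀ i, En Y (E i) ≤ e) :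
    En Y (fun n => ∑ i, E i n) ≤ (Fintype.card ι : ℝ) ^ 4 * e := by
  obtain ⟨c, hc⟩ : ∃ c : ι × ι → ℤ → ℝ, c = fun p d =>
    ∑ n ∈ Finset.Icc (1 : ℤ) (Y : ℤ), E p.1 n * E p.2 (n + d) := ⟨_, rfl⟩
  have h1 : ∀ d, corr Y (fun n => ∑ i, E i n) d = ∑ p : ι × ι, c p d := by
    intro d
    unfold corr
    rw [hc]
    simp only
    rw [Finset.sum_comm]
    refine Finset.sum_congr rfl fun n _ => ?_
    rw [Finset.sum_mul_sum, Fintype.sum_prod_type]
  have h2 : ∀ d, (∑ p : ι × ι, c p d) ^ 2 ≤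
      (Fintype.card ι : ℝ) ^ 2 * ∑ p : ι × ι, (c p d) ^ 2 := by
    intro d
    have h3 := sq_sum_le_card_mul_sum_sq (s := (Finset.univ : Finset (ι × ι))) (f := fun p => c p d)
    rw [Finset.card_univ, Fintype.card_prod] at h3
    push_cast at h3
    rw [← sq] at h3
    exact h3
  have h4 : ∀ p : ι × ι, ∑ d ∈ Finset.Icc (-(Y : ℤ)) (Y : ℤ), (c p d) ^ 2 ≤ e := by
    intro p
    rw [hc]
    refine (sum_cross_sq_le Y (E p.1) (E p.2) (hE p.1) (hE p.2)).trans ?_
    calc Real.sqrt (En Y (E p.1)) * Real.sqrt (En Y (E p.2)) ≤ Real.sqrt e * Real.sqrt e :=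
          mul_le_mul (Real.sqrt_le_sqrt (hen _)) (Real.sqrt_le_sqrt (hen _)) (Real.sqrt_nonneg _)
            (Real.sqrt_nonneg _)
      _ = e := Real.mul_self_sqrt he
  calc En Y (fun n => ∑ i, E i n) = ∑ d ∈ Finset.Icc (-(Y : ℤ)) (Y : ℤ),
        (∑ p : ι × ι, c p d) ^ 2 := by
        unfold En
        simp only [h1]
    _ ≤ ∑ d ∈ Finset.Icc (-(Y : ℤ)) (Y : ℤ),
        (Fintype.card ι : ℝ) ^ 2 * ∑ p : ι × ι, (c p d) ^ 2 := Finset.sum_le_sum fun d _ => h2 d
    _ = (Fintype.card ι : ℝ) ^ 2 * ∑ p : ι × ι,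
        ∑ d ∈ Finset.Icc (-(Y : ℤ)) (Y : ℤ), (c p d) ^ 2 := by
        rw [← Finset.mul_sum, Finset.sum_comm]
    _ ≤ (Fintype.card ι : ℝ) ^ 2 * ∑ _p : ι × ι, e :=
        mul_le_mul_of_nonneg_left (Finset.sum_le_sum fun p _ => h4 p) (by positivity)
    _ = (Fintype.card ι : ℝ) ^ 4 * e := by
        rw [Finset.sum_const, Finset.card_univ, Fintype.card_prod, nsmul_eq_mul]
        push_cast
        ring

/-- For `f` supported in `[1, y]`:
`En y f ≤ (corr y f 0)² + ∑_{0 < |d| ≤ y} (corr y f d)²` (equality). -/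
lemma En_eq (y : ℕ) (f : ℤ → ℝ) :
    En y f = (corr y f 0) ^ 2 + ∑ d ∈ (Finset.Icc (-(y : ℤ)) (y : ℤ)).filter (fun d => d ≠ 0),
      (corr y f d) ^ 2 := by
  unfold En
  rw [← Finset.sum_filter_add_sum_filter_not (Finset.Icc (-(y : ℤ)) (y : ℤ)) (fun d => d = 0)]
  congr 1
  have h1 : (Finset.Icc (-(y : ℤ)) (y : ℤ)).filter (fun d => d = 0) = {0} := by
    ext d
    rw [Finset.mem_filter, Finset.mem_Icc, Finset.mem_singleton]
    constructor
    · exact fun h => h.2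
    · rintro rfl
      exact ⟨by omega, rfl⟩
  rw [h1, Finset.sum_singleton]

end Pool.Agent.Lib.MP_bae66e_nt.LP
end
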