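import Pool.Agent.Lib.MP_bae66e_nt.Mg.G075
import Pool.Agent.Lib.MP_bae66e_nt.LL.K.K08
import Pool.Agent.Lib.MP_bae66e_nt.Mg.G041

section

/-!
# E01: moments of the weight `FF`
-/

set_option autoImplicit false

open Finset

namespace Pool.Agent.Lib.MP_bae66e_nt.LL

/-- A product of nonnegative numbers over a finite set `s` is at most the sum of their `#s`-th
powers, if `s` is nonempty. (The product is at most `max^{#s}`.) -/
lemma prod_le_sum_pow {ι : Type*} (s : Finset ι) (hs : s.Nonempty) (a : ι → ℝ)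
    (ha : ∀ i ∈ s, 0 ≤ a i) : ∏ i ∈ s, a i ≤ ∑ i ∈ s, (a i) ^ (s.card) := by
  obtain ⟨x, hx, hmax⟩ := Finset.exists_max_image s a hs
  calc ∏ i ∈ s, a i ≤ ∏ _i ∈ s, a x := Finset.prod_le_prod ha hmax
    _ = (a x) ^ s.card := by rw [Finset.prod_const]
    _ ≤ ∑ i ∈ s, (a i) ^ (s.card) :=
        Finset.single_le_sum (f := fun i => (a i) ^ (s.card))
          (fun i hi => pow_nonneg (ha i hi) _) hx

lemma FF_nonneg {k : ℕ} (B : ℕ) (h : Fin k → ℤ) : 0 ≤ FF B h := by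
  unfold FF
  exact Finset.prod_nonneg fun i _ => Finset.prod_nonneg fun l _ =>
    pow_nonneg (one_div_nonneg.mpr (rho_pos _).le) _

private lemma E01_one_le_inv_rho (n : ℕ) : 1 ≤ 1 / rho n := by
  rw [le_div_iff₀ (rho_pos n), one_mul]
  exact rho_le_one n

private lemma E01_one_le_prod {ι : Type*} (s : Finset ι) (f : ι → ℝ) (hf : ∀ i ∈ s, 1 ≤ f i) :
    1 ≤ ∏ i ∈ s, f i := by
  calc (1 : ℝ) = ∏ _i ∈ s, (1 : ℝ) := by rw [Finset.prod_const_one]
    _ ≤ ∏ i ∈ s, f i := Finset.prod_le_prod (fun _ _ => zero_le_one) hf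

/-- every factor `1 / ρ` is `≥ 1`. -/
lemma one_le_FF {k : ℕ} (B : ℕ) (h : Fin k → ℤ) : 1 ≤ FF B h := by
  unfold FF
  exact E01_one_le_prod _ _ fun i _ => E01_one_le_prod _ _ fun l _ =>
    one_le_pow₀ (E01_one_le_inv_rho _)

lemma FF_pow {k : ℕ} (B m : ℕ) (h : Fin k → ℤ) : (FF B h) ^ m = FF (B * m) h := by
  unfold FF
  rw [← Finset.prod_pow]
  apply Finset.prod_congr rfl
  intro i _
  rw [← Finset.prod_pow]
  apply Finset.prod_congr rfl
  intro l _
  rw [← pow_mul]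

lemma FF_mul {k : ℕ} (B B' : ℕ) (h : Fin k → ℤ) : FF B h * FF B' h = FF (B + B') h := by
  unfold FF
  rw [← Finset.prod_mul_distrib]
  apply Finset.prod_congr rfl
  intro i _
  rw [← Finset.prod_mul_distrib]
  apply Finset.prod_congr rfl
  intro l _
  rw [← pow_add]

private lemma E01_split (k Y : ℕ) (l : Fin (k + 1)) (F : (Fin (k + 1) → ℤ) → ℝ) :
    ∑ h ∈ shifts (k + 1) Y, F h =
      ∑ g ∈ shifts k Y, ∑ x ∈ Finset.Icc (-(Y : ℤ)) (Y : ℤ),
        F (Fin.insertNth (α := fun _ => ℤ) l x g) := by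
  rw [← Finset.sum_product']
  refine Finset.sum_bij' (fun h _ => (Fin.removeNth (α := fun _ => ℤ) l h, h l))
    (fun p _ => Fin.insertNth (α := fun _ => ℤ) l p.2 p.1) ?_ ?_ ?_ ?_ ?_
  · intro h hh
    unfold shifts at hh ⊢
    rw [Fintype.mem_piFinset] at hh
    rw [Finset.mem_product, Fintype.mem_piFinset]
    exact ⟨fun i => hh _, hh l⟩
  · rintro ⟨g, x⟩ hp
    unfold shifts at hp ⊢
    rw [Finset.mem_product, Fintype.mem_piFinset] at hp
    rw [Fintype.mem_piFinset, Fin.forall_iff_succAbove l]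
    refine ⟨?_, ?_⟩
    · rw [Fin.insertNth_apply_same]
      exact hp.2
    · intro i
      rw [Fin.insertNth_apply_succAbove]
      exact hp.1 i
  · intro h _
    exact Fin.insertNth_self_removeNth l h
  · rintro ⟨g, x⟩ _
    simp only [Fin.removeNth_insertNth, Fin.insertNth_apply_same]
  · intro h _
    simp only [Fin.insertNth_self_removeNth]

private lemma E01_card (k Y : ℕ) : (shifts k Y).card = (2 * Y + 1) ^ k := by
  unfold shifts
  rw [Fintype.card_piFinset, Finset.prod_const, Finset.card_univ, Fintype.card_fin, Int.card_Icc]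
  congr 1
  omega

private lemma E01_card_le (k Y : ℕ) (hY : 1 ≤ Y) : ((shifts k Y).card : ℝ) ≤ 3 ^ k * (Y : ℝ) ^ k := by
  rw [E01_card, ← mul_pow]
  push_cast
  have : (1 : ℝ) ≤ Y := by exact_mod_cast hY
  exact pow_le_pow_left₀ (by positivity) (by linarith) k

/-- One pair: for `i < l` in `Fin (k + 1)` the average over the shifts of
`ρ(|h_i - h_l|)^{-B}` is bounded.

PROOF. `l = l' + 1` with `l' : Fin k`, so `hh h l = h l'` is a free variable, and `hh h i` does not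
depend on `h l'` and satisfies `|hh h i| ≤ Y`. Sum first over `h l'` (`sum_inv_rho_int_le` with
`a = hh h i`: at most `C Y`), and then over the remaining `k - 1` variables (at most
`(2 Y + 1)^{k-1} ≤ (3 Y)^{k-1}` tuples). To separate a variable of `Fintype.piFinset` use
`Fin.insertNthEquiv`/`Fintype.piFinset` lemmas or sum over fibres of
`h ↦ Function.update h l' 0`. -/
lemma sum_pair_le (k B : ℕ) : ∃ C : ℝ, 1 ≤ C ∧ ∀ Y : ℕ, 1 ≤ Y → ∀ i l : Fin (k + 1), i < l →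
    ∑ h ∈ shifts k Y, (1 / rho (hh h i - hh h l).natAbs) ^ B ≤ C * (Y : ℝ) ^ k := by
  obtain ⟨C, hC1, hC⟩ := sum_inv_rho_int_le B
  have h3k : (1 : ℝ) ≤ 3 ^ k := one_le_pow₀ (by norm_num)
  refine ⟨C * 3 ^ k, one_le_mul_of_one_le_of_one_le hC1 h3k, ?_⟩
  intro Y hY i l hil
  have hYR : (1 : ℝ) ≤ Y := by exact_mod_cast hY
  have hl0 : l ≠ 0 := by
    intro h
    rw [h] at hil
    exact absurd hil (Fin.not_lt_zero i)
  obtain ⟨l', rfl⟩ := Fin.exists_succ_eq.mpr hl0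
  cases k with
  | zero => exact l'.elim0
  | succ k =>
    rw [E01_split k Y l']
    obtain ⟨v, hv1, hv2⟩ : ∃ v : (Fin k → ℤ) → ℤ,
        (∀ g x, hh (Fin.insertNth (α := fun _ => ℤ) l' x g) i = v g) ∧
        ∀ g ∈ shifts k Y, |v g| ≤ Y := by
      by_cases hi0 : i = 0
      · subst hi0
        refine ⟨fun _ => 0, fun g x => ?_, fun g _ => ?_⟩
        · unfold hh
          rw [Fin.cons_zero]
        · simp
      · obtain ⟨i', rfl⟩ := Fin.exists_succ_eq.mpr hi0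
        have hne : i' ≠ l' := by
          intro h
          rw [h] at hil
          exact lt_irrefl _ hil
        obtain ⟨i'', rfl⟩ := Fin.exists_succAbove_eq hne
        refine ⟨fun g => g i'', fun g x => ?_, fun g hg => ?_⟩
        · unfold hh
          rw [Fin.cons_succ, Fin.insertNth_apply_succAbove]
        · unfold shifts at hg
          rw [Fintype.mem_piFinset] at hg
          have := hg i''
          rw [Finset.mem_Icc] at this
          rw [abs_le]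
          exact this
    have hbound : ∀ g ∈ shifts k Y, ∑ x ∈ Finset.Icc (-(Y : ℤ)) (Y : ℤ),
        (1 / rho (hh (Fin.insertNth (α := fun _ => ℤ) l' x g) i -
          hh (Fin.insertNth (α := fun _ => ℤ) l' x g) l'.succ).natAbs) ^ B ≤ C * Y := by
      intro g hg
      refine le_trans (le_of_eq ?_) (hC Y hY (v g) (hv2 g hg))
      apply Finset.sum_congr rfl
      intro x _
      rw [hv1]
      have : hh (Fin.insertNth (α := fun _ => ℤ) l' x g) l'.succ = x := by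
        unfold hh
        rw [Fin.cons_succ, Fin.insertNth_apply_same]
      have h2 : (v g - x).natAbs = (x - v g).natAbs := by omega
      rw [this, h2]
    calc _ ≤ ∑ _g ∈ shifts k Y, C * (Y : ℝ) := Finset.sum_le_sum hbound
      _ = (shifts k Y).card * (C * Y) := by rw [Finset.sum_const, nsmul_eq_mul]
      _ ≤ (3 ^ k * (Y : ℝ) ^ k) * (C * Y) :=
          mul_le_mul_of_nonneg_right (E01_card_le k Y hY) (by positivity)
      _ = (3 ^ k * C) * (Y : ℝ) ^ (k + 1) := by ring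
      _ ≤ (C * 3 ^ (k + 1)) * (Y : ℝ) ^ (k + 1) := by
          apply mul_le_mul_of_nonneg_right _ (by positivity)
          rw [mul_comm]
          apply mul_le_mul_of_nonneg_left _ (by linarith)
          exact pow_le_pow_right₀ (by norm_num) (Nat.le_succ k)

/-- Moments of `FF`: `∑_{h ∈ shifts k Y} FF B h ≤ C Y^k`.

PROOF. `k = 0`: `FF = 1` and there is one tuple. `k ≥ 1`: `FF` is a product over the nonempty set of
the pairs `i < l` (write the double product as a product over a `Finset.sigma`); by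
`prod_le_sum_pow` it is at most the sum over the pairs of `ρ^{-B P}`, `P` the number of pairs;
`sum_pair_le`. -/
theorem sum_FF_le (k B : ℕ) : ∃ C : ℝ, 1 ≤ C ∧ ∀ Y : ℕ, 1 ≤ Y →
    ∑ h ∈ shifts k Y, FF B h ≤ C * (Y : ℝ) ^ k := by
  set P : Finset (Σ _ : Fin (k + 1), Fin (k + 1)) :=
    (Finset.univ : Finset (Fin (k + 1))).sigma (fun i => Finset.Ioi i) with hP
  have hFF : ∀ h : Fin k → ℤ, FF B h = ∏ x ∈ P, (1 / rho (hh h x.1 - hh h x.2).natAbs) ^ B := by
    intro h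
    rw [hP, Finset.prod_sigma]
    rfl
  by_cases hPe : P.Nonempty
  · obtain ⟨C, hC1, hC⟩ := sum_pair_le k (B * P.card)
    have hPc : (1 : ℝ) ≤ P.card := by exact_mod_cast hPe.card_pos
    refine ⟨P.card * C, one_le_mul_of_one_le_of_one_le hPc hC1, ?_⟩
    intro Y hY
    calc ∑ h ∈ shifts k Y, FF B h
        ≤ ∑ h ∈ shifts k Y, ∑ x ∈ P, (1 / rho (hh h x.1 - hh h x.2).natAbs) ^ (B * P.card) := by
          apply Finset.sum_le_sum
          intro h _
          rw [hFF]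
          refine (prod_le_sum_pow P hPe _ fun x _ =>
            pow_nonneg (one_div_nonneg.mpr (rho_pos _).le) _).trans (le_of_eq ?_)
          apply Finset.sum_congr rfl
          intro x _
          rw [← pow_mul]
      _ = ∑ x ∈ P, ∑ h ∈ shifts k Y, (1 / rho (hh h x.1 - hh h x.2).natAbs) ^ (B * P.card) :=
          Finset.sum_comm
      _ ≤ ∑ _x ∈ P, C * (Y : ℝ) ^ k := by
          apply Finset.sum_le_sum
          intro x hx
          rw [hP, Finset.mem_sigma, Finset.mem_Ioi] at hx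
          exact hC Y hY x.1 x.2 hx.2
      _ = P.card * C * (Y : ℝ) ^ k := by
          rw [Finset.sum_const, nsmul_eq_mul, mul_assoc]
  · refine ⟨3 ^ k, one_le_pow₀ (by norm_num), ?_⟩
    intro Y hY
    rw [Finset.not_nonempty_iff_eq_empty] at hPe
    have h1 : ∀ h ∈ shifts k Y, FF B h = 1 := by
      intro h _
      rw [hFF, hPe, Finset.prod_empty]
    rw [Finset.sum_congr rfl h1, Finset.sum_const, nsmul_eq_mul, mul_one]
    exact E01_card_le k Y hY

end Pool.Agent.Lib.MP_bae66e_nt.LL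
end

section

/-!
# E06: bounds for the singular series
-/

set_option autoImplicit false

open Finset

namespace Pool.Agent.Lib.MP_bae66e_nt.LL

private lemma E06_nup_le (p : ℕ) (hp : 0 < p) {j : ℕ} (h : Fin j → ℤ) : nup p h ≤ p := by
  unfold nup
  have h1 : Finset.univ.image (fun i => h i % (p : ℤ)) ⊆ Finset.Ico (0 : ℤ) (p : ℤ) := by
    intro x hx
    rw [Finset.mem_image] at hx
    obtain ⟨i, -, rfl⟩ := hx
    have hp' : (0 : ℤ) < p := by exact_mod_cast hp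
    exact Finset.mem_Ico.2 ⟨Int.emod_nonneg _ hp'.ne', Int.emod_lt_of_pos _ hp'⟩
  have h2 := Finset.card_le_card h1
  simpa using h2

private lemma E06_inv (p : ℕ) (hp : p.Prime) :
    0 < 1 - 1 / (p : ℝ) ∧ 1 ≤ 1 / (1 - 1 / (p : ℝ)) ∧ 1 - 1 / (p : ℝ) ≤ 1 := by
  have hp1 : (1 : ℝ) < p := by exact_mod_cast hp.one_lt
  have h1 : 1 / (p : ℝ) < 1 := (div_lt_one (by linarith)).2 hp1
  have h2 : 0 < 1 / (p : ℝ) := by positivity
  refine ⟨by linarith, ?_, by linarith⟩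
  rw [le_div_iff₀ (by linarith)]
  linarith

private lemma E06_prod (W D j : ℕ) (hD : D ≠ 0) :
    ∏ p ∈ W.primeFactors, (if p ∣ D then (1 / (1 - 1 / (p : ℝ))) ^ j else 1) ≤
      (1 / rho D) ^ j := by
  rw [← Finset.prod_filter]
  have hsub : W.primeFactors.filter (fun p => p ∣ D) ⊆ D.primeFactors := by
    intro p hp
    rw [Finset.mem_filter] at hp
    exact Nat.mem_primeFactors.2 ⟨Nat.prime_of_mem_primeFactors hp.1, hp.2, hD⟩
  have hone : ∀ p ∈ D.primeFactors, (1 : ℝ) ≤ (1 / (1 - 1 / (p : ℝ))) ^ j := fun p hp =>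
    one_le_pow₀ (E06_inv p (Nat.prime_of_mem_primeFactors hp)).2.1
  have e : (1 / rho D) ^ j = ∏ p ∈ D.primeFactors, (1 / (1 - 1 / (p : ℝ))) ^ j := by
    unfold rho
    rw [Finset.prod_pow]
    congr 1
    rw [one_div, ← Finset.prod_inv_distrib]
    exact Finset.prod_congr rfl fun p _ => (one_div _).symm
  rw [e, ← Finset.prod_sdiff hsub]
  have h1 : (1 : ℝ) ≤ ∏ p ∈ D.primeFactors \ W.primeFactors.filter (fun p => p ∣ D),
      (1 / (1 - 1 / (p : ℝ))) ^ j := by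
    refine Finset.prod_induction _ (fun x => (1 : ℝ) ≤ x) (fun a b ha hb => ?_) le_rfl ?_
    · exact one_le_mul_of_one_le_of_one_le ha hb
    · intro p hp
      exact hone p (Finset.mem_sdiff.1 hp).1
  refine le_mul_of_one_le_left (Finset.prod_nonneg fun p hp => ?_) h1
  exact zero_le_one.trans (hone p (hsub hp))

private lemma E06_one_le_prod {ι : Type*} (s : Finset ι) (f : ι → ℝ) (hf : ∀ i ∈ s, 1 ≤ f i) :
    1 ≤ ∏ i ∈ s, f i :=
  Finset.prod_induction f (fun x => (1 : ℝ) ≤ x)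
    (fun _ _ ha hb => one_le_mul_of_one_le_of_one_le ha hb) le_rfl hf

lemma SS_nonneg (W : ℕ) {j : ℕ} (h : Fin j → ℤ) : 0 ≤ SS W h := by
  unfold SS
  refine Finset.prod_nonneg fun p hp => ?_
  have hpp := Nat.prime_of_mem_primeFactors hp
  obtain ⟨h1, -, -⟩ := E06_inv p hpp
  have hp0 : (0 : ℝ) < p := by exact_mod_cast hpp.pos
  refine div_nonneg ?_ (pow_nonneg h1.le _)
  rw [sub_nonneg, div_le_one hp0]
  exact_mod_cast E06_nup_le p hpp.pos h

/-- Pairs: `SS W (0, -d) ≤ 1 / ρ(|d|)` for `d ≠ 0`: the factor at `p` is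
`(1 - 2/p)/(1 - 1/p)² ≤ 1` if `p ∤ d` (for `p = 2` it is `0`) and `1/(1 - 1/p)` if `p ∣ d`. -/
lemma SS_pair_le (W : ℕ) (d : ℤ) (hd : d ≠ 0) :
    SS W (![0, -d] : Fin 2 → ℤ) ≤ 1 / rho d.natAbs := by
  have hD : d.natAbs ≠ 0 := Int.natAbs_ne_zero.2 hd
  refine le_trans ?_ (le_of_le_of_eq (E06_prod W d.natAbs 1 hD) (pow_one _))
  unfold SS
  refine Finset.prod_le_prod (fun p hp => ?_) (fun p hp => ?_)
  · have hpp := Nat.prime_of_mem_primeFactors hp
    obtain ⟨h1, -, -⟩ := E06_inv p hpp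
    have hp0 : (0 : ℝ) < p := by exact_mod_cast hpp.pos
    refine div_nonneg ?_ (pow_nonneg h1.le _)
    rw [sub_nonneg, div_le_one hp0]
    exact_mod_cast E06_nup_le p hpp.pos _
  · have hpp := Nat.prime_of_mem_primeFactors hp
    obtain ⟨h1, h2, h3⟩ := E06_inv p hpp
    have hp0 : (0 : ℝ) < p := by exact_mod_cast hpp.pos
    have hp2 : (2 : ℝ) ≤ p := by exact_mod_cast hpp.two_le
    split_ifs with hdvd
    · rw [pow_one]
      have hn1 : (1 : ℝ) ≤ nup p (![0, -d] : Fin 2 → ℤ) := by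
        have : 1 ≤ nup p (![0, -d] : Fin 2 → ℤ) := by
          unfold nup
          exact Finset.card_pos.2 (Finset.univ_nonempty.image _)
        exact_mod_cast this
      have h4 : 1 - (nup p (![0, -d] : Fin 2 → ℤ) : ℝ) / p ≤ 1 - 1 / (p : ℝ) := by
        have : 1 / (p : ℝ) ≤ (nup p (![0, -d] : Fin 2 → ℤ) : ℝ) / p :=
          div_le_div_of_nonneg_right hn1 hp0.le
        linarith
      rw [div_le_div_iff₀ (pow_pos h1 _) h1, one_mul, sq]
      exact mul_le_mul_of_nonneg_right h4 h1.le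
    · have hnd : ¬ (p : ℤ) ∣ d := fun h => hdvd (Int.natCast_dvd.1 h)
      have hn2 : nup p (![0, -d] : Fin 2 → ℤ) = 2 := by
        unfold nup
        rw [Finset.card_image_of_injective]
        · simp
        · intro a b hab
          by_contra hne
          apply hnd
          have hab' : (![0, -d] : Fin 2 → ℤ) a % (p : ℤ) = (![0, -d] : Fin 2 → ℤ) b % (p : ℤ) := hab
          have hcase : (a = 0 ∧ b = 1) ∨ (a = 1 ∧ b = 0) := by
            fin_cases a <;> fin_cases b <;> simp_all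
          rcases hcase with ⟨rfl, rfl⟩ | ⟨rfl, rfl⟩
          · simp only [Matrix.cons_val_zero, Matrix.cons_val_one] at hab'
            have h5 : (p : ℤ) ∣ (-d) - 0 := Int.ModEq.dvd hab'
            simpa using h5
          · simp only [Matrix.cons_val_zero, Matrix.cons_val_one] at hab'
            have h5 : (p : ℤ) ∣ 0 - (-d) := Int.ModEq.dvd hab'
            simpa using h5
      rw [hn2, div_le_one (pow_pos h1 _)]
      push_cast
      have h6 : (1 - 1 / (p : ℝ)) ^ 2 = 1 - 2 / p + (1 / p) ^ 2 := by ring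
      rw [h6]
      have : (0 : ℝ) ≤ (1 / (p : ℝ)) ^ 2 := by positivity
      linarith

/-- Tuples: `SS W (hh h) ≤ FF (k + 1) h` if `0, h_1, …, h_k` are distinct.

PROOF. Let `j = k + 1`. The factor at `p` is `≤ 1` if `p` divides no difference `h_i - h_l`: then
`nup = j` and `(1 - 1/p)^j ≥ 1 - j/p` (`one_add_mul_le_pow`; if `1 - j/p ≤ 0` the factor is `≤ 0`).
Otherwise it is `≤ (1 - 1/p)^{-(j-1)} ≤ (1 - 1/p)^{-j}` as `nup ≥ 1`. So `SS ≤ ∏ (1 - 1/p)^{-j}` over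
the primes `p` dividing some difference, and each such `p` divides `|h_i - h_l|` for some pair
`i < l`, with `h_i - h_l ≠ 0`. (Use for every `p ∣ W`: factor `≤ ∏_{i<l} (if p ∣ h_i - h_l then
(1-1/p)^{-j} else 1)`, exchange the products, and compare the product over `p ∣ W`,
`p ∣ h_i - h_l`, with the product over all `p ∣ h_i - h_l`.) -/
lemma SS_le_FF {k : ℕ} (W : ℕ) (h : Fin k → ℤ) (hinj : Function.Injective (hh h)) :
    SS W (hh h) ≤ FF (k + 1) h := by
  have hbase : ∀ p ∈ W.primeFactors,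
      (1 - (nup p (hh h) : ℝ) / p) / (1 - 1 / (p : ℝ)) ^ (k + 1) ≤
      ∏ i : Fin (k + 1), ∏ l ∈ Finset.Ioi i,
        (if p ∣ (hh h i - hh h l).natAbs then (1 / (1 - 1 / (p : ℝ))) ^ (k + 1) else 1) := by
    intro p hp
    have hpp := Nat.prime_of_mem_primeFactors hp
    obtain ⟨h1, h2, h3⟩ := E06_inv p hpp
    have hp0 : (0 : ℝ) < p := by exact_mod_cast hpp.pos
    have hc1 : ∀ i l : Fin (k + 1), (1 : ℝ) ≤
        (if p ∣ (hh h i - hh h l).natAbs then (1 / (1 - 1 / (p : ℝ))) ^ (k + 1) else 1) := by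
      intro i l
      split_ifs
      · exact one_le_pow₀ h2
      · exact le_rfl
    by_cases hex : ∃ i l : Fin (k + 1), i < l ∧ p ∣ (hh h i - hh h l).natAbs
    · obtain ⟨i, l, hil, hdvd⟩ := hex
      have h4 : (1 - (nup p (hh h) : ℝ) / p) / (1 - 1 / (p : ℝ)) ^ (k + 1) ≤
          (1 / (1 - 1 / (p : ℝ))) ^ (k + 1) := by
        rw [one_div_pow]
        refine div_le_div_of_nonneg_right ?_ (pow_nonneg h1.le _)
        have : 0 ≤ (nup p (hh h) : ℝ) / p := by positivity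
        linarith
      refine h4.trans ?_
      have h5 : (1 / (1 - 1 / (p : ℝ))) ^ (k + 1) ≤ ∏ l ∈ Finset.Ioi i,
          (if p ∣ (hh h i - hh h l).natAbs then (1 / (1 - 1 / (p : ℝ))) ^ (k + 1) else 1) := by
        rw [← Finset.mul_prod_erase _ _ (Finset.mem_Ioi.2 hil), if_pos hdvd]
        refine le_mul_of_one_le_right (by positivity) ?_
        exact E06_one_le_prod _ _ fun _ _ => hc1 _ _
      refine h5.trans ?_
      rw [← Finset.mul_prod_erase _ _ (Finset.mem_univ i)]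
      refine le_mul_of_one_le_right ?_ ?_
      · exact Finset.prod_nonneg fun _ _ => zero_le_one.trans (hc1 _ _)
      · exact E06_one_le_prod _ _ fun _ _ => E06_one_le_prod _ _ fun _ _ => hc1 _ _
    · push Not at hex
      have hn : nup p (hh h) = k + 1 := by
        unfold nup
        rw [Finset.card_image_of_injective]
        · simp
        · have key : ∀ a b : Fin (k + 1), a < b →
              hh h a % (p : ℤ) ≠ hh h b % (p : ℤ) := by
            intro a b hab heq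
            apply hex a b hab
            have h5 : (p : ℤ) ∣ hh h a - hh h b := Int.ModEq.dvd (Int.ModEq.symm heq)
            exact Int.natCast_dvd.1 h5
          intro a b hab
          rcases lt_trichotomy a b with hlt | heq | hgt
          · exact absurd hab (key a b hlt)
          · exact heq
          · exact absurd hab.symm (key b a hgt)
      have h6 : (1 - (nup p (hh h) : ℝ) / p) / (1 - 1 / (p : ℝ)) ^ (k + 1) ≤ 1 := by
        rw [hn, div_le_one (pow_pos h1 _)]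
        have h7 := one_add_mul_le_pow (a := -(1 / (p : ℝ))) (by
          have : 1 / (p : ℝ) ≤ 1 := by linarith
          linarith) (k + 1)
        have h8 : (1 : ℝ) - ((k + 1 : ℕ) : ℝ) / p = 1 + ((k + 1 : ℕ) : ℝ) * -(1 / (p : ℝ)) := by
          ring
        have h9 : (1 : ℝ) - 1 / (p : ℝ) = 1 + -(1 / (p : ℝ)) := by ring
        rw [h8, h9]
        exact h7
      refine h6.trans ?_
      exact E06_one_le_prod _ _ fun _ _ => E06_one_le_prod _ _ fun _ _ => hc1 _ _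
  have hnn : ∀ p ∈ W.primeFactors,
      0 ≤ (1 - (nup p (hh h) : ℝ) / p) / (1 - 1 / (p : ℝ)) ^ (k + 1) := by
    intro p hp
    have hpp := Nat.prime_of_mem_primeFactors hp
    obtain ⟨h1, -, -⟩ := E06_inv p hpp
    have hp0 : (0 : ℝ) < p := by exact_mod_cast hpp.pos
    refine div_nonneg ?_ (pow_nonneg h1.le _)
    rw [sub_nonneg, div_le_one hp0]
    exact_mod_cast E06_nup_le p hpp.pos _
  unfold SS FF
  refine (Finset.prod_le_prod hnn hbase).trans ?_
  rw [Finset.prod_comm]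
  refine Finset.prod_le_prod (fun i _ => ?_) (fun i _ => ?_)
  · refine Finset.prod_nonneg fun p hp => Finset.prod_nonneg fun l _ => ?_
    have hpp := Nat.prime_of_mem_primeFactors hp
    have := (E06_inv p hpp).2.1
    split_ifs <;> positivity
  · rw [Finset.prod_comm]
    refine Finset.prod_le_prod (fun l _ => ?_) (fun l hl => ?_)
    · refine Finset.prod_nonneg fun p hp => ?_
      have hpp := Nat.prime_of_mem_primeFactors hp
      have := (E06_inv p hpp).2.1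
      split_ifs <;> positivity
    · refine E06_prod W _ (k + 1) ?_
      rw [Int.natAbs_ne_zero, sub_ne_zero]
      exact fun heq => (Finset.mem_Ioi.1 hl).ne (hinj heq)

end Pool.Agent.Lib.MP_bae66e_nt.LL
end

section

/-!
# C02: elementary facts on `SP`, `lamQ`, and a quadratic lower bound for `exp`
-/

set_option autoImplicit false

open Finset

namespace Pool.Agent.Lib.MP_bae66e_nt.LL

/-- `exp(-u) ≥ 1 - u + min(u², 1)/4` for all real `u`.

PROOF. Let `φ(u) = exp(-u) - 1 + u`. For `0 ≤ u ≤ 1`: `exp(-u) ≥ 1 - u + u²/2 - u³/6 ≥ 1 - u + u²/4`.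
For `-1 ≤ u ≤ 0`: `exp(-u) ≥ 1 - u + u²/2`. `φ` is increasing on `[0, ∞)` and decreasing on
`(-∞, 0]`, `φ(1) = 1/e ≥ 1/4` and `φ(-1) = e - 2 ≥ 1/4`. -/
lemma exp_neg_ge (u : ℝ) : 1 - u + min (u ^ 2) 1 / 4 ≤ Real.exp (-u) := by
  rcases le_or_gt u 2 with h | h
  · have h1 : 1 - u / 2 ≤ Real.exp (-u / 2) := by
      have := Real.add_one_le_exp (-u / 2)
      linarith
    have h2 : (1 - u / 2) ^ 2 ≤ Real.exp (-u / 2) ^ 2 :=
      pow_le_pow_left₀ (by linarith) h1 2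
    have h3 : Real.exp (-u / 2) ^ 2 = Real.exp (-u) := by
      rw [← Real.exp_nat_mul]
      congr 1
      push_cast
      ring
    rw [h3] at h2
    have h4 : min (u ^ 2) 1 ≤ u ^ 2 := min_le_left _ _
    nlinarith
  · have h4 : min (u ^ 2) 1 ≤ 1 := min_le_right _ _
    have h5 := Real.exp_pos (-u)
    linarith

lemma SP_nonneg (W : ℕ) (m : ℤ) : 0 ≤ SP W m := by
  exact SS_nonneg W _

/-- `SP W m` depends only on `m` modulo `W`. -/
lemma SP_periodic (W : ℕ) (m n : ℤ) (h : m ≡ n [ZMOD (W : ℤ)]) : SP W m = SP W n := by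
  unfold SP SS
  refine Finset.prod_congr rfl (fun p hp => ?_)
  have hpW : (p : ℤ) ∣ (W : ℤ) := by exact_mod_cast Nat.dvd_of_mem_primeFactors hp
  have h1 : m % (p : ℤ) = n % (p : ℤ) := h.of_dvd hpW
  have h2 : nup p (![0, m] : Fin 2 → ℤ) = nup p (![0, n] : Fin 2 → ℤ) := by
    unfold nup
    congr 1
    apply Finset.image_congr
    intro i _
    fin_cases i
    · rfl
    · exact h1
  rw [h2]

/-- For even `W ≥ 1` and odd `m`, `SP W m = 0` (the factor at `2` is `(1 - 2/2) = 0`). -/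
lemma SP_odd (W : ℕ) (hW : W ≠ 0) (h2 : 2 ∣ W) (m : ℤ) (hm : ¬ Even m) : SP W m = 0 := by
  unfold SP SS
  have h3 : 2 ∈ W.primeFactors := Nat.mem_primeFactors.mpr ⟨Nat.prime_two, h2, hW⟩
  apply Finset.prod_eq_zero h3
  have h4 : nup 2 (![0, m] : Fin 2 → ℤ) = 2 := by
    unfold nup
    have h5 : m % 2 = 1 := by
      rw [Int.not_even_iff] at hm
      exact hm
    have h6 : (Finset.univ.image (fun i => (![0, m] : Fin 2 → ℤ) i % ((2 : ℕ) : ℤ)))
        = {0, 1} := by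
      ext x
      simp only [Finset.mem_image, Finset.mem_univ, true_and, Finset.mem_insert,
        Finset.mem_singleton]
      constructor
      · rintro ⟨i, hi⟩
        fin_cases i
        · left
          simpa using hi.symm
        · right
          have : m % ((2 : ℕ) : ℤ) = x := hi
          push_cast at this
          omega
      · rintro (hx | hx)
        · exact ⟨0, by simp [hx]⟩
        · refine ⟨1, ?_⟩
          show m % ((2 : ℕ) : ℤ) = x
          push_cast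
          omega
    rw [h6]
    rfl
  rw [h4]
  norm_num

/-- `SP W m = (1/W) ∑_{c < W} nu W c * nu W (c - m)` for squarefree `W` (`sum_nu_eq_SS` for
`h = ![0, m]`). -/
lemma SP_eq_conv (W : ℕ) (hW : Squarefree W) (m : ℤ) :
    SP W m = 1 / (W : ℝ) * ∑ c ∈ Finset.range W, nu W c * nu W ((c : ℤ) - m) := by
  have h1 := sum_nu_eq_SS W hW (![0, m] : Fin 2 → ℤ)
  have hW0 : (W : ℝ) ≠ 0 := by exact_mod_cast hW.ne_zero
  have h2 : ∑ c ∈ Finset.range W, nu W c * nu W ((c : ℤ) - m) = W * SP W m := by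
    unfold SP
    rw [← h1]
    refine Finset.sum_congr rfl (fun c _ => ?_)
    rw [Fin.prod_univ_two]
    simp
  rw [h2]
  field_simp

private lemma C02_sum_nu (W : ℕ) (hW : 1 ≤ W) : ∑ c ∈ Finset.range W, nu W (c : ℤ) = W := by
  unfold nu
  rw [← Finset.sum_filter, Finset.sum_const, nsmul_eq_mul]
  have h1 : ((Finset.range W).filter (fun c : ℕ => IsCoprime (c : ℤ) (W : ℤ))).card
      = Nat.totient W := by
    rw [Nat.totient_eq_card_coprime]
    congr 1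
    apply Finset.filter_congr
    intro c _
    rw [Nat.isCoprime_iff_coprime, Nat.coprime_comm]
  rw [h1]
  have h2 : (Nat.totient W : ℝ) ≠ 0 := by
    exact_mod_cast (Nat.totient_pos.mpr hW).ne'
  field_simp

/-- `SP W m ≤ W` for squarefree `W`: from `SP_eq_conv`, `nu W ≤ W/φ(W)` and
`∑_{c < W} nu W c = W`, so `SP ≤ W/φ(W) ≤ W`. -/
lemma SP_le (W : ℕ) (hW : Squarefree W) (m : ℤ) : SP W m ≤ W := by
  rw [SP_eq_conv W hW m]
  have hW1 : 1 ≤ W := Nat.one_le_iff_ne_zero.mpr hW.ne_zero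
  have hW0 : (0 : ℝ) < W := by exact_mod_cast hW1
  have h1 : ∑ c ∈ Finset.range W, nu W c * nu W ((c : ℤ) - m)
      ≤ ∑ c ∈ Finset.range W, nu W c * W := by
    apply Finset.sum_le_sum
    intro c _
    exact mul_le_mul_of_nonneg_left (nu_le W hW1 _) (nu_nonneg W _)
  rw [← Finset.sum_mul, C02_sum_nu W hW1] at h1
  calc 1 / (W : ℝ) * ∑ c ∈ Finset.range W, nu W c * nu W ((c : ℤ) - m)
      ≤ 1 / (W : ℝ) * (W * W) := mul_le_mul_of_nonneg_left h1 (by positivity)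
    _ = W := by field_simp

private lemma C02_nu_even (W : ℕ) (n : ℤ) : nu W (-n) = nu W n := by
  unfold nu
  by_cases h : IsCoprime n (W : ℤ)
  · rw [if_pos h, if_pos (IsCoprime.neg_left_iff n (W : ℤ) |>.mpr h)]
  · rw [if_neg h, if_neg (fun h2 => h (IsCoprime.neg_left_iff n (W : ℤ) |>.mp h2))]

private lemma C02_sum_nu_sub (V : ℕ) (hV : 1 ≤ V) (c : ℤ) :
    ∑ s ∈ Finset.range V, nu V (c - (s : ℤ)) = V := by
  have h1 := sum_period_affine 1 V hV (Nat.coprime_one_left V) (nu V)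
    (fun n m h => nu_periodic V n m h) (-c)
  rw [C02_sum_nu V hV] at h1
  rw [← h1]
  refine Finset.sum_congr rfl (fun s _ => ?_)
  rw [← C02_nu_even]
  congr 1
  push_cast
  ring

private lemma C02_sum_SP (V : ℕ) (hV : Squarefree V) :
    ∑ s ∈ Finset.range V, SP V (s : ℤ) = V := by
  have hV1 : 1 ≤ V := Nat.one_le_iff_ne_zero.mpr hV.ne_zero
  have hV0 : (V : ℝ) ≠ 0 := by exact_mod_cast hV.ne_zero
  have h1 : ∀ s ∈ Finset.range V, SP V (s : ℤ)
      = 1 / (V : ℝ) * ∑ c ∈ Finset.range V, nu V c * nu V ((c : ℤ) - s) :=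
    fun s _ => SP_eq_conv V hV s
  rw [Finset.sum_congr rfl h1, ← Finset.mul_sum, Finset.sum_comm]
  have h2 : ∀ c ∈ Finset.range V, ∑ s ∈ Finset.range V, nu V c * nu V ((c : ℤ) - s)
      = nu V c * V := by
    intro c _
    rw [← Finset.mul_sum, C02_sum_nu_sub V hV1]
  rw [Finset.sum_congr rfl h2, ← Finset.sum_mul, C02_sum_nu V hV1]
  field_simp

private lemma C02_SP_mul (W₁ V : ℕ) (hc : Nat.Coprime W₁ V) (n : ℤ) :
    SP (W₁ * V) n = SP W₁ n * SP V n := by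
  unfold SP SS
  rw [hc.primeFactors_mul, Finset.prod_union hc.disjoint_primeFactors]

/-- The martingale property: `SP W₁ m = (1/V) ∑_{s < V} SP (W₁ V) (m + W₁ s)` for coprime squarefree
`W₁, V`.

PROOF. `SP (W₁ V) n = SP W₁ n * SP V n` (product over the primes), `SP W₁ (m + W₁ s) = SP W₁ m`, and
`∑_{s < V} SP V (m + W₁ s) = ∑_{s < V} SP V s = V` (`sum_period_affine`; by `SP_eq_conv`,
`∑_s SP V s = (1/V) ∑_c nu V c ∑_s nu V (c - s) = (1/V) V V`). -/
lemma SP_average (W₁ V : ℕ) (h1 : Squarefree W₁) (hV : Squarefree V) (hc : Nat.Coprime W₁ V)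
    (m : ℤ) :
    SP W₁ m = 1 / (V : ℝ) * ∑ s ∈ Finset.range V, SP (W₁ * V) (m + W₁ * s) := by
  have hV1 : 1 ≤ V := Nat.one_le_iff_ne_zero.mpr hV.ne_zero
  have hV0 : (V : ℝ) ≠ 0 := by exact_mod_cast hV.ne_zero
  have h2 : ∀ s ∈ Finset.range V, SP (W₁ * V) (m + W₁ * s) = SP W₁ m * SP V (m + W₁ * s) := by
    intro s _
    rw [C02_SP_mul W₁ V hc]
    congr 1
    apply SP_periodic
    apply Int.modEq_iff_dvd.mpr
    exact ⟨-s, by ring⟩
  rw [Finset.sum_congr rfl h2, ← Finset.mul_sum]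
  have h3 := sum_period_affine W₁ V hV1 hc (SP V) (fun n m h => SP_periodic V n m h) m
  rw [h3, C02_sum_SP V hV]
  field_simp

private lemma C02_vv_nonneg (W y : ℕ) (hy : 2 ≤ y) (n : ℤ) : 0 ≤ vv W y n := by
  have hlog : 0 < Real.log y := Real.log_pos (by exact_mod_cast (by omega : 1 < y))
  unfold vv gW
  apply div_nonneg _ hlog.le
  split_ifs
  · exact nu_nonneg W n
  · exact le_rfl

private lemma C02_vv_le (W y : ℕ) (hW : 1 ≤ W) (hy : 2 ≤ y) (n : ℤ) :
    vv W y n ≤ (if 1 ≤ n ∧ n ≤ (y : ℤ) then 1 else 0) * (W / Real.log y) := by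
  have hlog : 0 < Real.log y := Real.log_pos (by exact_mod_cast (by omega : 1 < y))
  unfold vv gW
  split_ifs
  · rw [one_mul]
    exact div_le_div_of_nonneg_right (nu_le W hW n) hlog.le
  · simp

/-- The pointwise bound `lamQ W y Q m ≤ y W / log y` for `W ≥ 1`, `y ≥ 2`: at most `y` integers `q`
satisfy `1 ≤ m - q ≤ y`. -/
lemma lamQ_le (W y : ℕ) (hW : 1 ≤ W) (hy : 2 ≤ y) (Q : Finset ℕ) (m : ℤ) :
    lamQ W y Q m ≤ y * W / Real.log y := by
  have hlog : 0 < Real.log y := Real.log_pos (by exact_mod_cast (by omega : 1 < y))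
  unfold lamQ
  refine (Finset.sum_le_sum (fun (q : ℕ) _ => C02_vv_le W y hW hy (m - (q : ℤ)))).trans ?_
  rw [← Finset.sum_mul, Finset.sum_boole]
  have h1 : (Q.filter (fun q : ℕ => 1 ≤ m - (q : ℤ) ∧ m - (q : ℤ) ≤ (y : ℤ))).card ≤ y := by
    have h2 : ((Q.filter (fun q : ℕ => 1 ≤ m - (q : ℤ) ∧ m - (q : ℤ) ≤ (y : ℤ))).image
        (fun q : ℕ => m - (q : ℤ))) ⊆ Finset.Icc (1 : ℤ) (y : ℤ) := by
      intro x hx
      rw [Finset.mem_image] at hx
      obtain ⟨q, hq, rfl⟩ := hx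
      rw [Finset.mem_filter] at hq
      rw [Finset.mem_Icc]
      exact hq.2
    have h3 := Finset.card_le_card h2
    rw [Finset.card_image_of_injective _ (fun a b hab => by
      omega), Int.card_Icc] at h3
    omega
  have h2 : ((Q.filter (fun q : ℕ => 1 ≤ m - (q : ℤ) ∧ m - (q : ℤ) ≤ (y : ℤ))).card : ℝ) ≤ y := by
    exact_mod_cast h1
  calc ((Q.filter (fun q : ℕ => 1 ≤ m - (q : ℤ) ∧ m - (q : ℤ) ≤ (y : ℤ))).card : ℝ)
        * (W / Real.log y) ≤ y * (W / Real.log y) :=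
        mul_le_mul_of_nonneg_right h2 (by positivity)
    _ = y * W / Real.log y := by ring

lemma lamQ_nonneg (W y : ℕ) (hy : 2 ≤ y) (Q : Finset ℕ) (m : ℤ) : 0 ≤ lamQ W y Q m := by
  unfold lamQ
  exact Finset.sum_nonneg (fun q _ => C02_vv_nonneg W y hy _)

/-- Odd `m`: for even `W ≥ 1`, `∑_{m ≤ X, m odd} λ(m) ≤ y W / log y`: if `m` and `q` are odd then
`m - q` is even and `nu W (m - q) = 0`; so only `q = 2` contributes, for `m ≤ y + 2`. -/
lemma sum_lam_odd_le (W y X : ℕ) (hW : 1 ≤ W) (h2 : 2 ∣ W) (hy : 2 ≤ y) :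
    ∑ m ∈ (Finset.Ioc (0 : ℤ) (X : ℤ)).filter (fun m => ¬ Even m), lamQ W y (QQ 0 X) m
      ≤ y * W / Real.log y := by
  have hlog : 0 < Real.log y := Real.log_pos (by exact_mod_cast (by omega : 1 < y))
  have hW2 : (2 : ℤ) ∣ (W : ℤ) := by exact_mod_cast h2
  have hnu0 : ∀ n : ℤ, Even n → nu W n = 0 := by
    intro n hn
    unfold nu
    rw [if_neg]
    intro hcop
    have h3 : IsUnit (2 : ℤ) := hcop.isUnit_of_dvd' (even_iff_two_dvd.mp hn) hW2
    rw [Int.isUnit_iff] at h3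
    omega
  have hlam : ∀ m ∈ (Finset.Ioc (0 : ℤ) (X : ℤ)).filter (fun m => ¬ Even m),
      lamQ W y (QQ 0 X) m ≤ vv W y (m - 2) := by
    intro m hm
    rw [Finset.mem_filter] at hm
    have hodd : Odd m := Int.not_even_iff_odd.mp hm.2
    unfold lamQ
    by_cases h2Q : 2 ∈ QQ 0 X
    · rw [Finset.sum_eq_single_of_mem 2 h2Q]
      · push_cast
        exact le_rfl
      · intro q hq hq2
        unfold QQ at hq
        rw [Finset.mem_filter] at hq
        have hqo : Odd q := hq.2.odd_of_ne_two hq2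
        have hqo' : Odd (q : ℤ) := by exact_mod_cast hqo
        have h3 : Even (m - (q : ℤ)) := hodd.sub_odd hqo'
        unfold vv gW
        rw [hnu0 _ h3]
        simp
    · have h0 : ∑ q ∈ QQ 0 X, vv W y (m - (q : ℤ)) = 0 := by
        apply Finset.sum_eq_zero
        intro q hq
        have hq2 : q ≠ 2 := fun h => h2Q (h ▸ hq)
        unfold QQ at hq
        rw [Finset.mem_filter] at hq
        have hqo : Odd q := hq.2.odd_of_ne_two hq2
        have hqo' : Odd (q : ℤ) := by exact_mod_cast hqo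
        have h3 : Even (m - (q : ℤ)) := hodd.sub_odd hqo'
        unfold vv gW
        rw [hnu0 _ h3]
        simp
      rw [h0]
      exact C02_vv_nonneg W y hy _
  refine (Finset.sum_le_sum hlam).trans ?_
  refine (Finset.sum_le_sum (fun m _ => C02_vv_le W y hW hy (m - 2))).trans ?_
  rw [← Finset.sum_mul, Finset.sum_boole]
  set F := ((Finset.Ioc (0 : ℤ) (X : ℤ)).filter (fun m => ¬ Even m)).filter
    (fun m => 1 ≤ m - 2 ∧ m - 2 ≤ (y : ℤ)) with hF
  have h3 : F.card ≤ y := by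
    have h4 : F ⊆ Finset.Icc (3 : ℤ) ((y : ℤ) + 2) := by
      intro x hx
      rw [hF, Finset.mem_filter] at hx
      rw [Finset.mem_Icc]
      omega
    have h5 := Finset.card_le_card h4
    rw [Int.card_Icc] at h5
    omega
  have h4 : (F.card : ℝ) ≤ y := by exact_mod_cast h3
  calc (F.card : ℝ) * (W / Real.log y) ≤ y * (W / Real.log y) :=
        mul_le_mul_of_nonneg_right h4 (by positivity)
    _ = y * W / Real.log y := by ring

end Pool.Agent.Lib.MP_bae66e_nt.LL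
end

section

/-!
# B01: Bonferroni inequalities for real numbers in `[0, 1]`
-/

set_option autoImplicit false

open Finset

namespace Pool.Agent.Lib.MP_bae66e_nt.LL

lemma esy_zero {ι : Type*} (Q : Finset ι) (a : ι → ℝ) : esy Q a 0 = 1 := by
  unfold esy
  simp

/-- `e_{j+1}(Q ∪ {q}) = e_{j+1}(Q) + a_q e_j(Q)` (`Finset.powersetCard_succ_insert`). -/
lemma esy_insert {ι : Type*} [DecidableEq ι] (Q : Finset ι) (a : ι → ℝ) (q : ι) (hq : q ∉ Q) (j : ℕ) :
    esy (insert q Q) a (j + 1) = esy Q a (j + 1) + a q * esy Q a j := by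
  unfold esy
  rw [Finset.powersetCard_succ_insert hq, Finset.sum_union]
  · congr 1
    rw [Finset.sum_image, Finset.mul_sum]
    · apply Finset.sum_congr rfl
      intro T hT
      rw [Finset.mem_powersetCard] at hT
      rw [Finset.prod_insert (fun h => hq (hT.1 h))]
    · intro T hT T' hT' hTT
      simp only [Finset.mem_coe, Finset.mem_powersetCard] at hT hT'
      have h1 : (insert q T).erase q = (insert q T').erase q := by
        rw [hTT]
      rwa [Finset.erase_insert (fun h => hq (hT.1 h)),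
        Finset.erase_insert (fun h => hq (hT'.1 h))] at h1
  · rw [Finset.disjoint_left]
    intro T hT hT'
    rw [Finset.mem_powersetCard] at hT
    rw [Finset.mem_image] at hT'
    obtain ⟨T', _, rfl⟩ := hT'
    exact hq (hT.1 (Finset.mem_insert_self q T'))

private lemma B01_esy_empty {ι : Type*} (a : ι → ℝ) (j : ℕ) :
    esy (∅ : Finset ι) a (j + 1) = 0 := by
  unfold esy
  rw [Finset.powersetCard_eq_empty.mpr (by rw [Finset.card_empty]; omega), Finset.sum_empty]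

private lemma B01_alt {ι : Type*} [DecidableEq ι] (Q : Finset ι) (a : ι → ℝ) (q : ι) (hq : q ∉ Q)
    (J : ℕ) :
    (∑ j ∈ Finset.range (J + 1 + 1), (-1 : ℝ) ^ j * esy (insert q Q) a j) =
      (∑ j ∈ Finset.range (J + 1 + 1), (-1 : ℝ) ^ j * esy Q a j) -
        a q * ∑ j ∈ Finset.range (J + 1), (-1 : ℝ) ^ j * esy Q a j := by
  rw [Finset.sum_range_succ' _ (J + 1), Finset.sum_range_succ' _ (J + 1), esy_zero, esy_zero,
    Finset.mul_sum]
  have h1 : ∑ j ∈ Finset.range (J + 1), (-1 : ℝ) ^ (j + 1) * esy (insert q Q) a (j + 1) =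
      (∑ j ∈ Finset.range (J + 1), (-1 : ℝ) ^ (j + 1) * esy Q a (j + 1)) -
        ∑ j ∈ Finset.range (J + 1), a q * ((-1 : ℝ) ^ j * esy Q a j) := by
    rw [← Finset.sum_sub_distrib]
    apply Finset.sum_congr rfl
    intro j _
    rw [esy_insert Q a q hq j, pow_succ]
    ring
  rw [h1]
  ring

/-- Bonferroni: `(-1)^J (∑_{j ≤ J} (-1)^j e_j(a) - ∏ (1 - a_q)) ≥ 0` for `0 ≤ a_q ≤ 1`.

PROOF. Induction on `Q`, for all `J` simultaneously. Let `D_J(Q)` be the difference. For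
`Q ∪ {q}`: `D_J(Q ∪ {q}) = D_J(Q) - a_q D_{J-1}(Q)` for `J ≥ 1`, and
`D_0(Q ∪ {q}) = 1 - (1 - a_q) ∏ (1 - a) ≥ 0`. By induction `(-1)^J D_J(Q) ≥ 0` and
`-(-1)^J a_q D_{J-1}(Q) = a_q (-1)^{J-1} D_{J-1}(Q) ≥ 0`. -/
theorem bonferroni {ι : Type*} (Q : Finset ι) (a : ι → ℝ) (h0 : ∀ q ∈ Q, 0 ≤ a q)
    (h1 : ∀ q ∈ Q, a q ≤ 1) (J : ℕ) :
    0 ≤ (-1 : ℝ) ^ J * ((∑ j ∈ Finset.range (J + 1), (-1 : ℝ) ^ j * esy Q a j) - ∏ q ∈ Q, (1 - a q)) := by
  classical
  induction Q using Finset.induction_on generalizing J with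
  | empty =>
    have h2 : ∑ j ∈ Finset.range (J + 1), (-1 : ℝ) ^ j * esy (∅ : Finset ι) a j = 1 := by
      rw [Finset.sum_range_succ', esy_zero]
      have h3 : ∑ j ∈ Finset.range J, (-1 : ℝ) ^ (j + 1) * esy (∅ : Finset ι) a (j + 1) = 0 := by
        apply Finset.sum_eq_zero
        intro j _
        rw [B01_esy_empty, mul_zero]
      rw [h3]
      norm_num
    rw [h2, Finset.prod_empty, sub_self, mul_zero]
  | insert q Q hq ih =>
    have h0' : ∀ r ∈ Q, 0 ≤ a r := fun r hr => h0 r (Finset.mem_insert_of_mem hr)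
    have h1' : ∀ r ∈ Q, a r ≤ 1 := fun r hr => h1 r (Finset.mem_insert_of_mem hr)
    have ha0 := h0 q (Finset.mem_insert_self q Q)
    have ha1 := h1 q (Finset.mem_insert_self q Q)
    rw [Finset.prod_insert hq]
    cases J with
    | zero =>
      rw [Finset.sum_range_one, esy_zero]
      have h2 : ∏ r ∈ Q, (1 - a r) ≤ 1 :=
        Finset.prod_le_one (fun r hr => by linarith [h1' r hr]) fun r hr => by linarith [h0' r hr]
      have h3 : 0 ≤ ∏ r ∈ Q, (1 - a r) := Finset.prod_nonneg fun r hr => by linarith [h1' r hr]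
      have h4 : (1 - a q) * ∏ r ∈ Q, (1 - a r) ≤ 1 * 1 :=
        mul_le_mul (by linarith) h2 h3 (by norm_num)
      norm_num
      linarith
    | succ J =>
      rw [B01_alt Q a q hq J]
      have h2 := ih h0' h1' (J + 1)
      have h3 := mul_nonneg ha0 (ih h0' h1' J)
      have h4 : (-1 : ℝ) ^ (J + 1) * ((∑ j ∈ Finset.range (J + 1 + 1), (-1 : ℝ) ^ j * esy Q a j) -
          a q * ∑ j ∈ Finset.range (J + 1), (-1 : ℝ) ^ j * esy Q a j -
          (1 - a q) * ∏ r ∈ Q, (1 - a r)) =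
          (-1 : ℝ) ^ (J + 1) * ((∑ j ∈ Finset.range (J + 1 + 1), (-1 : ℝ) ^ j * esy Q a j) -
            ∏ r ∈ Q, (1 - a r)) +
          a q * ((-1 : ℝ) ^ J * ((∑ j ∈ Finset.range (J + 1), (-1 : ℝ) ^ j * esy Q a j) -
            ∏ r ∈ Q, (1 - a r))) := by
        rw [pow_succ]
        ring
      rw [h4]
      exact add_nonneg h2 h3

private lemma B01_pow (S b : ℝ) (hS : 0 ≤ S) (hb : 0 ≤ b) (n : ℕ) :
    S ^ (n + 1) + (n + 1) * b * S ^ n ≤ (S + b) ^ (n + 1) := by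
  induction n with
  | zero =>
    norm_num
  | succ n ih =>
    have h1 : (S ^ (n + 1) + (n + 1) * b * S ^ n) * (S + b) ≤ (S + b) ^ (n + 1) * (S + b) :=
      mul_le_mul_of_nonneg_right ih (by linarith)
    have h2 : 0 ≤ ((n : ℝ) + 1) * b * S ^ n * b := by positivity
    calc S ^ (n + 1 + 1) + ((n + 1 : ℕ) + 1) * b * S ^ (n + 1)
        = (S ^ (n + 1) + (n + 1) * b * S ^ n) * (S + b) - ((n : ℝ) + 1) * b * S ^ n * b := by
          push_cast
          ring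
      _ ≤ (S ^ (n + 1) + (n + 1) * b * S ^ n) * (S + b) := by linarith
      _ ≤ (S + b) ^ (n + 1) * (S + b) := h1
      _ = (S + b) ^ (n + 1 + 1) := by rw [← pow_succ]

/-- `e_j(a) ≤ (∑ a)^j / j!` for `a ≥ 0`.

PROOF. Induction on `Q` for all `j`: `e_{j+1}(Q ∪ q) = e_{j+1}(Q) + a_q e_j(Q)
≤ S^{j+1}/(j+1)! + a_q S^j / j! ≤ (S + a_q)^{j+1}/(j+1)!` since
`(S + a)^{j+1} ≥ S^{j+1} + (j+1) a S^j`. -/
theorem esy_le {ι : Type*} (Q : Finset ι) (a : ι → ℝ) (h0 : ∀ q ∈ Q, 0 ≤ a q) (j : ℕ) :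
    esy Q a j ≤ (∑ q ∈ Q, a q) ^ j / (Nat.factorial j : ℝ) := by
  classical
  induction Q using Finset.induction_on generalizing j with
  | empty =>
    cases j with
    | zero =>
      rw [esy_zero]
      simp
    | succ j =>
      rw [B01_esy_empty, Finset.sum_empty, zero_pow (Nat.succ_ne_zero j), zero_div]
  | insert q Q hq ih =>
    have h0' : ∀ r ∈ Q, 0 ≤ a r := fun r hr => h0 r (Finset.mem_insert_of_mem hr)
    have ha0 := h0 q (Finset.mem_insert_self q Q)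
    cases j with
    | zero =>
      rw [esy_zero]
      simp
    | succ j =>
      rw [esy_insert Q a q hq j, Finset.sum_insert hq]
      have hS : 0 ≤ ∑ r ∈ Q, a r := Finset.sum_nonneg h0'
      have h1 := ih h0' (j + 1)
      have h2 := mul_le_mul_of_nonneg_left (ih h0' j) ha0
      have h3 := B01_pow (∑ r ∈ Q, a r) (a q) hS ha0 j
      have hf : (0 : ℝ) < (Nat.factorial j : ℝ) := by exact_mod_cast Nat.factorial_pos j
      have hf1 : ((Nat.factorial (j + 1) : ℕ) : ℝ) = ((j : ℝ) + 1) * (Nat.factorial j : ℝ) := by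
        rw [Nat.factorial_succ]
        push_cast
        ring
      have hj : (0 : ℝ) < (j : ℝ) + 1 := by positivity
      calc esy Q a (j + 1) + a q * esy Q a j
          ≤ (∑ r ∈ Q, a r) ^ (j + 1) / (Nat.factorial (j + 1) : ℝ) +
            a q * ((∑ r ∈ Q, a r) ^ j / (Nat.factorial j : ℝ)) := add_le_add h1 h2
        _ = ((∑ r ∈ Q, a r) ^ (j + 1) + (j + 1) * a q * (∑ r ∈ Q, a r) ^ j) /
            (Nat.factorial (j + 1) : ℝ) := by
            rw [hf1]
            field_simp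
        _ ≤ (∑ r ∈ Q, a r + a q) ^ (j + 1) / (Nat.factorial (j + 1) : ℝ) :=
            div_le_div_of_nonneg_right h3 (Nat.cast_nonneg _)
        _ = _ := by rw [add_comm (a q)]

lemma esy_nonneg {ι : Type*} (Q : Finset ι) (a : ι → ℝ) (h0 : ∀ q ∈ Q, 0 ≤ a q) (j : ℕ) :
    0 ≤ esy Q a j := by
  unfold esy
  apply Finset.sum_nonneg
  intro T hT
  rw [Finset.mem_powersetCard] at hT
  exact Finset.prod_nonneg fun q hq => h0 q (hT.1 hq)

private lemma B01_prod_sub {ι : Type*} (Q : Finset ι) (u v : ι → ℝ) (hu0 : ∀ q ∈ Q, 0 ≤ u q)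
    (hu1 : ∀ q ∈ Q, u q ≤ 1) (hv0 : ∀ q ∈ Q, 0 ≤ v q) (hv1 : ∀ q ∈ Q, v q ≤ 1) :
    |(∏ q ∈ Q, u q) - ∏ q ∈ Q, v q| ≤ ∑ q ∈ Q, |u q - v q| := by
  classical
  induction Q using Finset.induction_on with
  | empty => simp
  | insert q Q hq ih =>
    have hu0' : ∀ r ∈ Q, 0 ≤ u r := fun r hr => hu0 r (Finset.mem_insert_of_mem hr)
    have hu1' : ∀ r ∈ Q, u r ≤ 1 := fun r hr => hu1 r (Finset.mem_insert_of_mem hr)
    have hv0' : ∀ r ∈ Q, 0 ≤ v r := fun r hr => hv0 r (Finset.mem_insert_of_mem hr)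
    have hv1' : ∀ r ∈ Q, v r ≤ 1 := fun r hr => hv1 r (Finset.mem_insert_of_mem hr)
    have ih' := ih hu0' hu1' hv0' hv1'
    rw [Finset.prod_insert hq, Finset.prod_insert hq, Finset.sum_insert hq]
    have e1 : u q * ∏ r ∈ Q, u r - v q * ∏ r ∈ Q, v r =
        (u q - v q) * ∏ r ∈ Q, u r + v q * ((∏ r ∈ Q, u r) - ∏ r ∈ Q, v r) := by ring
    have h1 : |∏ r ∈ Q, u r| ≤ 1 := by
      rw [abs_of_nonneg (Finset.prod_nonneg hu0')]
      exact Finset.prod_le_one hu0' hu1'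
    have h2 : |v q| ≤ 1 := by
      rw [abs_of_nonneg (hv0 q (Finset.mem_insert_self q Q))]
      exact hv1 q (Finset.mem_insert_self q Q)
    rw [e1]
    calc |(u q - v q) * ∏ r ∈ Q, u r + v q * ((∏ r ∈ Q, u r) - ∏ r ∈ Q, v r)|
        ≤ |(u q - v q) * ∏ r ∈ Q, u r| + |v q * ((∏ r ∈ Q, u r) - ∏ r ∈ Q, v r)| :=
          abs_add_le _ _
      _ = |u q - v q| * |∏ r ∈ Q, u r| + |v q| * |(∏ r ∈ Q, u r) - ∏ r ∈ Q, v r| := by
          rw [abs_mul, abs_mul]
      _ ≤ |u q - v q| * 1 + 1 * |(∏ r ∈ Q, u r) - ∏ r ∈ Q, v r| := by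
          apply add_le_add
          · exact mul_le_mul_of_nonneg_left h1 (abs_nonneg _)
          · exact mul_le_mul_of_nonneg_right h2 (abs_nonneg _)
      _ ≤ |u q - v q| + ∑ r ∈ Q, |u r - v r| := by
          rw [mul_one, one_mul]
          linarith

private lemma B01_exp (x : ℝ) (h0 : 0 ≤ x) (h1 : x ≤ 1) : |(1 - x) - Real.exp (-x)| ≤ x ^ 2 := by
  have h2 : 1 - x ≤ Real.exp (-x) := by
    have := Real.add_one_le_exp (-x)
    linarith
  have h3 : 1 + x ≤ Real.exp x := by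
    have := Real.add_one_le_exp x
    linarith
  have h4 : Real.exp (-x) * (1 + x) ≤ 1 := by
    calc Real.exp (-x) * (1 + x) ≤ Real.exp (-x) * Real.exp x :=
          mul_le_mul_of_nonneg_left h3 (Real.exp_pos _).le
      _ = 1 := by rw [← Real.exp_add, neg_add_cancel, Real.exp_zero]
  have h5 : Real.exp (-x) ≤ 1 - x + x ^ 2 := by
    by_contra hcon
    push Not at hcon
    have h6 : (1 - x + x ^ 2) * (1 + x) < Real.exp (-x) * (1 + x) :=
      mul_lt_mul_of_pos_right hcon (by linarith)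
    have h7 : (1 - x + x ^ 2) * (1 + x) = 1 + x ^ 3 := by ring
    have h8 : 0 ≤ x ^ 3 := by positivity
    linarith
  rw [abs_le]
  constructor
  · linarith
  · have : 0 ≤ x ^ 2 := sq_nonneg x
    linarith

/-- `|∏ (1 - x_q) - exp(-∑ x_q)| ≤ δ ∑ x_q` for `0 ≤ x_q ≤ δ ≤ 1`.

PROOF. `0 ≤ exp(-x) - (1 - x) ≤ x²` for `0 ≤ x ≤ 1`, and `|∏ a - ∏ b| ≤ ∑ |a - b|` for numbers in
`[0, 1]` (induction). So the difference is `≤ ∑ x_q² ≤ δ ∑ x_q`. -/
theorem abs_prod_sub_exp_le {ι : Type*} (Q : Finset ι) (x : ι → ℝ) (δ : ℝ) (hδ : δ ≤ 1)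
    (h0 : ∀ q ∈ Q, 0 ≤ x q) (h1 : ∀ q ∈ Q, x q ≤ δ) :
    |(∏ q ∈ Q, (1 - x q)) - Real.exp (-∑ q ∈ Q, x q)| ≤ δ * ∑ q ∈ Q, x q := by
  rw [← Finset.sum_neg_distrib, Real.exp_sum]
  refine (B01_prod_sub Q _ _ (fun q hq => by linarith [h1 q hq]) (fun q hq => by linarith [h0 q hq])
    (fun q _ => (Real.exp_pos _).le) (fun q hq => ?_)).trans ?_
  · rw [← Real.exp_zero]
    exact Real.exp_le_exp.mpr (by linarith [h0 q hq])
  · rw [Finset.mul_sum]
    apply Finset.sum_le_sum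
    intro q hq
    refine (B01_exp (x q) (h0 q hq) ((h1 q hq).trans hδ)).trans ?_
    rw [sq]
    exact mul_le_mul_of_nonneg_right (h1 q hq) (h0 q hq)

end Pool.Agent.Lib.MP_bae66e_nt.LL
end

section

/-!
# B02: comparison of the sifted count with the sum of `exp(-λ)`
-/

set_option autoImplicit false

open Finset

namespace Pool.Agent.Lib.MP_bae66e_nt.LL

private lemma B02_trunc {ι : Type*} (Q : Finset ι) (a : ι → ℝ) (h0 : ∀ q ∈ Q, 0 ≤ a q)
    (h1 : ∀ q ∈ Q, a q ≤ 1) (J : ℕ) :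
    (-1 : ℝ) ^ J * ((∑ j ∈ Finset.range (J + 1), (-1 : ℝ) ^ j * esy Q a j) - ∏ q ∈ Q, (1 - a q)) ≤
      esy Q a (J + 1) := by
  have h := bonferroni Q a h0 h1 (J + 1)
  rw [Finset.sum_range_succ] at h
  have e : (-1 : ℝ) ^ (J + 1) * ((∑ j ∈ Finset.range (J + 1), (-1 : ℝ) ^ j * esy Q a j) +
      (-1) ^ (J + 1) * esy Q a (J + 1) - ∏ q ∈ Q, (1 - a q)) =
      esy Q a (J + 1) - (-1 : ℝ) ^ J *
        ((∑ j ∈ Finset.range (J + 1), (-1 : ℝ) ^ j * esy Q a j) - ∏ q ∈ Q, (1 - a q)) := by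
    have e1 : (-1 : ℝ) ^ (J + 1) * (-1) ^ (J + 1) = 1 := by
      rw [← mul_pow]
      norm_num
    have e2 : (-1 : ℝ) ^ (J + 1) = -(-1 : ℝ) ^ J := by
      rw [pow_succ]
      ring
    calc _ = (-1 : ℝ) ^ (J + 1) * (-1) ^ (J + 1) * esy Q a (J + 1) + (-1 : ℝ) ^ (J + 1) *
          ((∑ j ∈ Finset.range (J + 1), (-1 : ℝ) ^ j * esy Q a j) - ∏ q ∈ Q, (1 - a q)) := by ring
      _ = _ := by
        rw [e1, e2]
        ring
  rw [e] at h
  linarith

private lemma B02_side {ι : Type*} (Q : Finset ι) (S : Finset ℤ) (p x : ι → ℤ → ℝ) (Λ η : ℝ)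
    (K J : ℕ) (hp0 : ∀ q ∈ Q, ∀ m ∈ S, 0 ≤ p q m) (hp1 : ∀ q ∈ Q, ∀ m ∈ S, p q m ≤ 1)
    (hx0 : ∀ q ∈ Q, ∀ m ∈ S, 0 ≤ x q m) (hx1 : ∀ q ∈ Q, ∀ m ∈ S, x q m ≤ 1)
    (hΛ : ∀ m ∈ S, ∑ q ∈ Q, x q m ≤ Λ)
    (hK : ∀ j : ℕ, K < j → Λ ^ j / (Nat.factorial j : ℝ) ≤ η) (hJ1 : K ≤ J) (hJ2 : J ≤ K + 1) :
    (-1 : ℝ) ^ J * ((∑ m ∈ S, ∏ q ∈ Q, (1 - p q m)) - ∑ m ∈ S, ∏ q ∈ Q, (1 - x q m)) ≤
      (S.card : ℝ) * η + ∑ j ∈ Finset.Icc 1 (K + 1),
        |∑ T ∈ Finset.powersetCard j Q, ∑ m ∈ S, ((∏ q ∈ T, p q m) - ∏ q ∈ T, x q m)| := by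
  set E : ℕ → ℝ := fun j =>
    ∑ T ∈ Finset.powersetCard j Q, ∑ m ∈ S, ((∏ q ∈ T, p q m) - ∏ q ∈ T, x q m) with hE
  have hEe : ∀ j, E j = ∑ m ∈ S, (esy Q (fun q => p q m) j - esy Q (fun q => x q m) j) := by
    intro j
    simp only [hE]
    rw [Finset.sum_comm]
    apply Finset.sum_congr rfl
    intro m _
    unfold esy
    rw [Finset.sum_sub_distrib]
  set P : ℤ → ℝ := fun m => ∑ j ∈ Finset.range (J + 1), (-1 : ℝ) ^ j * esy Q (fun q => p q m) j
    with hP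
  set X : ℤ → ℝ := fun m => ∑ j ∈ Finset.range (J + 1), (-1 : ℝ) ^ j * esy Q (fun q => x q m) j
    with hX
  have h1 : ∀ m ∈ S, (-1 : ℝ) ^ J * ∏ q ∈ Q, (1 - p q m) ≤ (-1 : ℝ) ^ J * P m := by
    intro m hm
    have h := bonferroni Q (fun q => p q m) (fun q hq => hp0 q hq m hm)
      (fun q hq => hp1 q hq m hm) J
    rw [mul_sub] at h
    simp only [hP]
    linarith
  have h2 : ∀ m ∈ S, (-1 : ℝ) ^ J * X m ≤ (-1 : ℝ) ^ J * (∏ q ∈ Q, (1 - x q m)) + η := by
    intro m hm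
    have h := B02_trunc Q (fun q => x q m) (fun q hq => hx0 q hq m hm)
      (fun q hq => hx1 q hq m hm) J
    have h3 := esy_le Q (fun q => x q m) (fun q hq => hx0 q hq m hm) (J + 1)
    have h4 : (∑ q ∈ Q, x q m) ^ (J + 1) / (Nat.factorial (J + 1) : ℝ) ≤
        Λ ^ (J + 1) / (Nat.factorial (J + 1) : ℝ) := by
      apply div_le_div_of_nonneg_right _ (Nat.cast_nonneg _)
      exact pow_le_pow_left₀ (Finset.sum_nonneg fun q hq => hx0 q hq m hm) (hΛ m hm) _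
    have h5 := hK (J + 1) (by omega)
    rw [mul_sub] at h
    simp only [hX]
    linarith
  have h3 : (-1 : ℝ) ^ J * ((∑ m ∈ S, P m) - ∑ m ∈ S, X m) ≤
      ∑ j ∈ Finset.Icc 1 (K + 1), |E j| := by
    have e1 : (∑ m ∈ S, P m) - ∑ m ∈ S, X m = ∑ j ∈ Finset.range (J + 1), (-1 : ℝ) ^ j * E j := by
      simp only [hP, hX]
      rw [Finset.sum_comm, Finset.sum_comm (s := S), ← Finset.sum_sub_distrib]
      apply Finset.sum_congr rfl
      intro j _
      rw [hEe, ← Finset.mul_sum, ← Finset.mul_sum, ← mul_sub, ← Finset.sum_sub_distrib]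
    have e2 : E 0 = 0 := by
      rw [hEe]
      apply Finset.sum_eq_zero
      intro m _
      rw [esy_zero, esy_zero, sub_self]
    rw [e1]
    calc (-1 : ℝ) ^ J * ∑ j ∈ Finset.range (J + 1), (-1 : ℝ) ^ j * E j
        ≤ |(-1 : ℝ) ^ J * ∑ j ∈ Finset.range (J + 1), (-1 : ℝ) ^ j * E j| := le_abs_self _
      _ = |∑ j ∈ Finset.range (J + 1), (-1 : ℝ) ^ j * E j| := by
          rw [abs_mul, abs_pow, abs_neg, abs_one, one_pow, one_mul]
      _ ≤ ∑ j ∈ Finset.range (J + 1), |(-1 : ℝ) ^ j * E j| := Finset.abs_sum_le_sum_abs _ _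
      _ = ∑ j ∈ Finset.range (J + 1), |E j| := by
          apply Finset.sum_congr rfl
          intro j _
          rw [abs_mul, abs_pow, abs_neg, abs_one, one_pow, one_mul]
      _ = ∑ j ∈ (Finset.range (J + 1)).erase 0, |E j| := by
          symm
          apply Finset.sum_erase
          rw [e2, abs_zero]
      _ ≤ ∑ j ∈ Finset.Icc 1 (K + 1), |E j| := by
          apply Finset.sum_le_sum_of_subset_of_nonneg
          · intro j hj
            rw [Finset.mem_erase, Finset.mem_range] at hj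
            rw [Finset.mem_Icc]
            omega
          · intro j _ _
            exact abs_nonneg _
  have h4 : (-1 : ℝ) ^ J * ∑ m ∈ S, ∏ q ∈ Q, (1 - p q m) ≤ (-1 : ℝ) ^ J * ∑ m ∈ S, P m := by
    rw [Finset.mul_sum, Finset.mul_sum]
    exact Finset.sum_le_sum h1
  have h5 : (-1 : ℝ) ^ J * ∑ m ∈ S, X m ≤
      (-1 : ℝ) ^ J * (∑ m ∈ S, ∏ q ∈ Q, (1 - x q m)) + (S.card : ℝ) * η := by
    have e : (-1 : ℝ) ^ J * (∑ m ∈ S, ∏ q ∈ Q, (1 - x q m)) + (S.card : ℝ) * η =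
        ∑ m ∈ S, ((-1 : ℝ) ^ J * (∏ q ∈ Q, (1 - x q m)) + η) := by
      rw [Finset.sum_add_distrib, Finset.mul_sum, Finset.sum_const, nsmul_eq_mul]
    rw [e, Finset.mul_sum]
    exact Finset.sum_le_sum h2
  rw [mul_sub] at h3 ⊢
  linarith

private lemma B02_coprime (W : ℕ) (n m : ℤ) (h : n ≡ m [ZMOD (W : ℤ)]) : nu W n = nu W m := by
  have h1 : IsCoprime n (W : ℤ) ↔ IsCoprime m (W : ℤ) := by
    obtain ⟨k, hk⟩ := Int.modEq_iff_dvd.mp h
    have h2 : m = n + (W : ℤ) * k := by linarith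
    rw [h2, IsCoprime.add_mul_left_left_iff]
  unfold nu
  by_cases h2 : IsCoprime n (W : ℤ)
  · rw [if_pos h2, if_pos (h1.mp h2)]
  · rw [if_neg h2, if_neg (fun h3 => h2 (h1.mpr h3))]

private lemma B02_nu_nonneg (W : ℕ) (n : ℤ) : 0 ≤ nu W n := by
  unfold nu
  split_ifs
  · positivity
  · exact le_rfl

private lemma B02_nu_le (W : ℕ) (hW : 1 ≤ W) (n : ℤ) : nu W n ≤ W := by
  unfold nu
  have h1 : (1 : ℝ) ≤ Nat.totient W := by
    exact_mod_cast Nat.totient_pos.mpr hW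
  split_ifs
  · exact div_le_self (Nat.cast_nonneg W) h1
  · exact Nat.cast_nonneg W

/-- Abstract form. Let `p_q(m) ∈ {0, 1}` (in fact `[0, 1]` is enough), `0 ≤ x_q(m) ≤ δ ≤ 1`,
`∑_q x_q(m) ≤ Λ`, and `Λ^j / j! ≤ η` for `j > K`. Then
`|∑_m ∏_q (1 - p_q(m)) - ∑_m exp(-∑_q x_q(m))|
 ≤ #S (η + δ Λ) + ∑_{1 ≤ j ≤ K+1} |∑_{T ⊂ Q, |T| = j} ∑_m (∏_{q ∈ T} p_q(m) - ∏_{q ∈ T} x_q(m))|`.

PROOF. For `J ∈ {K, K + 1}` let `P_J(m) = ∑_{j ≤ J} (-1)^j e_j(p(m))`, `X_J(m)` the same for `x`. One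
of `K`, `K + 1` is even and the other is odd; by `bonferroni`,
`P_odd(m) ≤ ∏ (1 - p_q(m)) ≤ P_even(m)` and `X_odd ≤ ∏ (1 - x_q) ≤ X_even`. Also
`|X_J(m) - ∏ (1 - x_q(m))| ≤ e_{J+1}(x(m)) ≤ Λ^{J+1}/(J+1)! ≤ η` (the difference `X_J - ∏` and
`X_{J+1} - ∏` have opposite signs and differ by `e_{J+1}`). And
`∑_m (P_J(m) - X_J(m)) = ∑_{1 ≤ j ≤ J} (-1)^j ∑_T ∑_m (∏ p - ∏ x)` (the term `j = 0` cancels), at
most the error sum in absolute value. Finally `|∏ (1 - x_q(m)) - exp(-∑ x_q(m))| ≤ δ Λ`. -/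
theorem sifted_compare {ι : Type*} (Q : Finset ι) (S : Finset ℤ) (p x : ι → ℤ → ℝ) (δ Λ η : ℝ)
    (K : ℕ) (hp0 : ∀ q ∈ Q, ∀ m ∈ S, 0 ≤ p q m) (hp1 : ∀ q ∈ Q, ∀ m ∈ S, p q m ≤ 1)
    (hx0 : ∀ q ∈ Q, ∀ m ∈ S, 0 ≤ x q m) (hx1 : ∀ q ∈ Q, ∀ m ∈ S, x q m ≤ δ) (hδ : δ ≤ 1)
    (hδ0 : 0 ≤ δ) (hΛ : ∀ m ∈ S, ∑ q ∈ Q, x q m ≤ Λ)
    (hK : ∀ j : ℕ, K < j → Λ ^ j / (Nat.factorial j : ℝ) ≤ η) :
    |(∑ m ∈ S, ∏ q ∈ Q, (1 - p q m)) - ∑ m ∈ S, Real.exp (-∑ q ∈ Q, x q m)|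
      ≤ (S.card : ℝ) * (η + δ * Λ) + ∑ j ∈ Finset.Icc 1 (K + 1),
        |∑ T ∈ Finset.powersetCard j Q, ∑ m ∈ S, ((∏ q ∈ T, p q m) - ∏ q ∈ T, x q m)| := by
  have hx1' : ∀ q ∈ Q, ∀ m ∈ S, x q m ≤ 1 := fun q hq m hm => (hx1 q hq m hm).trans hδ
  have h1 := B02_side Q S p x Λ η K K hp0 hp1 hx0 hx1' hΛ hK le_rfl (Nat.le_succ K)
  have h2 := B02_side Q S p x Λ η K (K + 1) hp0 hp1 hx0 hx1' hΛ hK (Nat.le_succ K) le_rfl
  set R : ℝ := ∑ j ∈ Finset.Icc 1 (K + 1),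
        |∑ T ∈ Finset.powersetCard j Q, ∑ m ∈ S, ((∏ q ∈ T, p q m) - ∏ q ∈ T, x q m)| with hR
  have h3 : |(∑ m ∈ S, ∏ q ∈ Q, (1 - p q m)) - ∑ m ∈ S, ∏ q ∈ Q, (1 - x q m)| ≤
      (S.card : ℝ) * η + R := by
    rw [pow_succ] at h2
    rcases neg_one_pow_eq_or ℝ K with h | h <;> rw [h] at h1 h2 <;> rw [abs_le] <;>
      constructor <;> linarith
  have h4 : |(∑ m ∈ S, ∏ q ∈ Q, (1 - x q m)) - ∑ m ∈ S, Real.exp (-∑ q ∈ Q, x q m)| ≤
      (S.card : ℝ) * (δ * Λ) := by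
    rw [← Finset.sum_sub_distrib]
    refine (Finset.abs_sum_le_sum_abs _ _).trans ?_
    rw [← nsmul_eq_mul, ← Finset.sum_const]
    apply Finset.sum_le_sum
    intro m hm
    refine (abs_prod_sub_exp_le Q (fun q => x q m) δ hδ (fun q hq => hx0 q hq m hm)
      (fun q hq => hx1 q hq m hm)).trans ?_
    exact mul_le_mul_of_nonneg_left (hΛ m hm) hδ0
  calc |(∑ m ∈ S, ∏ q ∈ Q, (1 - p q m)) - ∑ m ∈ S, Real.exp (-∑ q ∈ Q, x q m)|
      = |((∑ m ∈ S, ∏ q ∈ Q, (1 - p q m)) - ∑ m ∈ S, ∏ q ∈ Q, (1 - x q m)) +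
          ((∑ m ∈ S, ∏ q ∈ Q, (1 - x q m)) - ∑ m ∈ S, Real.exp (-∑ q ∈ Q, x q m))| := by
        congr 1
        ring
    _ ≤ _ := abs_add_le _ _
    _ ≤ ((S.card : ℝ) * η + R) + (S.card : ℝ) * (δ * Λ) := add_le_add h3 h4
    _ = _ := by ring

lemma B02_pv_nonneg (y : ℕ) (n : ℤ) : 0 ≤ pv y n := by
  unfold pv
  split_ifs <;> norm_num

lemma B02_pv_le_one (y : ℕ) (n : ℤ) : pv y n ≤ 1 := by
  unfold pv
  split_ifs <;> norm_num

/-- `0 ≤ zs ≤ 1` for `0 ≤ s ≤ 1`. -/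
lemma zs_nonneg (s : ℝ) (hs0 : 0 ≤ s) (hs1 : s ≤ 1) (y : ℕ) (Q : Finset ℕ) (m : ℤ) :
    0 ≤ zs s y Q m := by
  unfold zs
  refine Finset.prod_nonneg fun q _ => ?_
  have h1 := B02_pv_nonneg y (m - q)
  have h2 := B02_pv_le_one y (m - q)
  nlinarith

lemma zs_le_one (s : ℝ) (hs0 : 0 ≤ s) (hs1 : s ≤ 1) (y : ℕ) (Q : Finset ℕ) (m : ℤ) :
    zs s y Q m ≤ 1 := by
  unfold zs
  refine Finset.prod_le_one (fun q _ => ?_) (fun q _ => ?_)
  · have h1 := B02_pv_nonneg y (m - q)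
    have h2 := B02_pv_le_one y (m - q)
    nlinarith
  · have h1 := B02_pv_nonneg y (m - q)
    nlinarith

/-- `vv W y n ≤ W / log y` and `vv ≥ 0` for `y ≥ 2`, `W ≥ 1`. -/
lemma vv_nonneg (W y : ℕ) (hy : 2 ≤ y) (n : ℤ) : 0 ≤ vv W y n := by
  unfold vv gW
  have hl : 0 ≤ Real.log y := Real.log_natCast_nonneg y
  split_ifs
  · exact div_nonneg (B02_nu_nonneg W n) hl
  · rw [zero_div]

lemma vv_le (W y : ℕ) (hW : 1 ≤ W) (hy : 2 ≤ y) (n : ℤ) : vv W y n ≤ W / Real.log y := by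
  unfold vv gW
  have hl : 0 ≤ Real.log y := Real.log_natCast_nonneg y
  split_ifs
  · exact div_le_div_of_nonneg_right (B02_nu_le W hW n) hl
  · rw [zero_div]
    exact div_nonneg (Nat.cast_nonneg W) hl

/-- In the class `a`: `λ(m) ≤ UU W y Q a` if `m ≡ a (W)` (as `gW W y (m - q) ≤ nu W (m - q) =
nu W (a - q)`). -/
lemma lamQ_le_UU (W y : ℕ) (hy : 2 ≤ y) (Q : Finset ℕ) (a : ℕ) (m : ℤ)
    (hm : m ≡ (a : ℤ) [ZMOD (W : ℤ)]) : lamQ W y Q m ≤ UU W y Q a := by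
  unfold lamQ UU
  apply Finset.sum_le_sum
  intro q _
  have hl : 0 ≤ Real.log y := Real.log_natCast_nonneg y
  have h1 : nu W ((a : ℤ) - q) = nu W (m - q) :=
    B02_coprime W _ _ (Int.ModEq.sub_right _ hm.symm)
  rw [h1]
  unfold vv gW
  apply div_le_div_of_nonneg_right _ hl
  split_ifs
  · exact le_rfl
  · exact B02_nu_nonneg W _

/-- The good classes: if `UU W y Q a ≤ Λ`, then for every finite set `S` of integers `≡ a (W)`
`|∑_{m ∈ S} zs s y Q m - ∑_{m ∈ S} exp(-s λ(m))| ≤ #S (η + (W / log y) Λ) + ∑_{1 ≤ j ≤ K+1} ErrJ(j)`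
for `0 ≤ s ≤ 1`: `sifted_compare` with `p_q(m) = s pv y (m - q)`, `x_q(m) = s vv W y (m - q)`; the
error sums get the factor `s^j ≤ 1`. -/
theorem good_class (s : ℝ) (hs0 : 0 ≤ s) (hs1 : s ≤ 1) (W y : ℕ) (hW : 1 ≤ W) (hy : 2 ≤ y)
    (hWy : (W : ℝ) / Real.log y ≤ 1)
    (Q : Finset ℕ) (a : ℕ) (S : Finset ℤ) (hS : ∀ m ∈ S, m ≡ (a : ℤ) [ZMOD (W : ℤ)]) (Λ η : ℝ)
    (K : ℕ) (hU : UU W y Q a ≤ Λ) (hK : ∀ j : ℕ, K < j → Λ ^ j / (Nat.factorial j : ℝ) ≤ η) :
    |(∑ m ∈ S, zs s y Q m) - ∑ m ∈ S, Real.exp (-(s * lamQ W y Q m))|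
      ≤ (S.card : ℝ) * (η + (W : ℝ) / Real.log y * Λ)
        + ∑ j ∈ Finset.Icc 1 (K + 1), ErrJ W y Q S j := by
  have hl : 0 ≤ Real.log y := Real.log_natCast_nonneg y
  have hδ0 : 0 ≤ (W : ℝ) / Real.log y := div_nonneg (Nat.cast_nonneg W) hl
  have hsum : ∀ m : ℤ, ∑ q ∈ Q, s * vv W y (m - q) = s * lamQ W y Q m := by
    intro m
    unfold lamQ
    rw [Finset.mul_sum]
  have h := sifted_compare Q S (fun q m => s * pv y (m - q)) (fun q m => s * vv W y (m - q))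
    ((W : ℝ) / Real.log y) Λ η K
    (fun q _ m _ => mul_nonneg hs0 (B02_pv_nonneg y _))
    (fun q _ m _ => by
      have h1 := B02_pv_nonneg y (m - q)
      have h2 := B02_pv_le_one y (m - q)
      nlinarith)
    (fun q _ m _ => mul_nonneg hs0 (vv_nonneg W y hy _))
    (fun q _ m _ => by
      have h1 := vv_nonneg W y hy (m - q)
      have h2 := vv_le W y hW hy (m - q)
      nlinarith) hWy hδ0
    (fun m hm => by
      have h1 := (lamQ_le_UU W y hy Q a m (hS m hm)).trans hU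
      have h2 : 0 ≤ lamQ W y Q m := Finset.sum_nonneg fun q _ => vv_nonneg W y hy _
      change ∑ q ∈ Q, s * vv W y (m - q) ≤ Λ
      rw [hsum m]
      nlinarith) hK
  have e1 : ∑ m ∈ S, zs s y Q m = ∑ m ∈ S, ∏ q ∈ Q, (1 - s * pv y (m - q)) := rfl
  have e2 : ∑ m ∈ S, Real.exp (-(s * lamQ W y Q m))
      = ∑ m ∈ S, Real.exp (-∑ q ∈ Q, s * vv W y (m - q)) :=
    Finset.sum_congr rfl fun m _ => by rw [hsum m]
  rw [e1, e2]
  refine h.trans ?_
  refine add_le_add le_rfl (Finset.sum_le_sum fun j _ => ?_)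
  unfold ErrJ
  have e3 : ∑ T ∈ Finset.powersetCard j Q, ∑ m ∈ S,
      ((∏ q ∈ T, (s * pv y (m - q))) - ∏ q ∈ T, (s * vv W y (m - q)))
      = s ^ j * ∑ T ∈ Finset.powersetCard j Q, ∑ m ∈ S,
        ((∏ q ∈ T, pv y (m - q)) - ∏ q ∈ T, vv W y (m - q)) := by
    rw [Finset.mul_sum]
    refine Finset.sum_congr rfl fun T hT => ?_
    rw [Finset.mul_sum]
    refine Finset.sum_congr rfl fun m _ => ?_
    rw [Finset.prod_mul_distrib, Finset.prod_mul_distrib, Finset.prod_const,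
      (Finset.mem_powersetCard.mp hT).2, mul_sub]
  rw [e3, abs_mul, abs_of_nonneg (pow_nonneg hs0 j)]
  exact mul_le_of_le_one_left (abs_nonneg _) (pow_le_one₀ hs0 hs1)

end Pool.Agent.Lib.MP_bae66e_nt.LL
end
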