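import Pool.Agent.Lib.MP_bae66e_nt.Mg.G041
import Pool.Agent.Lib.MP_bae66e_nt.Mg.G075
import Pool.Agent.Lib.MP_bae66e_nt.Mg.G043
import Pool.Agent.Lib.MP_bae66e_nt.LL.E.E12

section

/-!
# E07: sums of periodic functions over intervals and residue classes
-/

set_option autoImplicit false

open Finset

namespace Pool.Agent.Lib.MP_bae66e_nt.LL

/-- `f` periodic modulo `q`, `|f| ≤ M`: the sum over `N` consecutive integers is
`(N / q) ∑_{period} f` up to `2 q M`.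

PROOF. `N = q u + r` with `r < q`: the sum over `q u` consecutive integers is `u` times the sum over a
period `S`, `|S| ≤ q M`; the rest is at most `r M`, and `|N / q - u| ≤ 1`. -/
lemma abs_sum_periodic_sub_le (q : ℕ) (hq : 1 ≤ q) (f : ℤ → ℝ)
    (hf : ∀ n m : ℤ, n ≡ m [ZMOD (q : ℤ)] → f n = f m) (M : ℝ) (hM : ∀ n, |f n| ≤ M)
    (a : ℤ) (N : ℕ) :
    |(∑ t ∈ Finset.range N, f (a + t)) - (N : ℝ) / q * ∑ c ∈ Finset.range q, f c| ≤ 2 * q * M := by
  have hM0 : 0 ≤ M := (abs_nonneg _).trans (hM 0)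
  have hq0 : (0 : ℝ) < q := by exact_mod_cast hq
  set S : ℝ := ∑ c ∈ Finset.range q, f c with hS
  have hSabs : |S| ≤ q * M := by
    refine (Finset.abs_sum_le_sum_abs _ _).trans ?_
    refine (Finset.sum_le_card_nsmul _ _ M fun c _ => hM _).trans ?_
    rw [Finset.card_range, nsmul_eq_mul]
  have hper : ∀ b : ℤ, ∑ t ∈ Finset.range q, f (b + t) = S := by
    intro b
    have := sum_period_affine 1 q hq (Nat.coprime_one_left q) f hf b
    simpa using this
  have hmul : ∀ (b : ℤ) (u : ℕ), ∑ t ∈ Finset.range (q * u), f (b + t) = u * S := by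
    intro b u
    induction u with
    | zero => simp
    | succ u ih =>
      have e : q * (u + 1) = q * u + q := by ring
      rw [e, Finset.sum_range_add, ih]
      have h2 : ∑ x ∈ Finset.range q, f (b + ((q * u + x : ℕ) : ℤ)) = S := by
        rw [← hper (b + ((q * u : ℕ) : ℤ))]
        refine Finset.sum_congr rfl fun x _ => ?_
        congr 1
        push_cast
        ring
      rw [h2]
      push_cast
      ring
  have hN : N = q * (N / q) + N % q := (Nat.div_add_mod N q).symm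
  have hr : N % q < q := Nat.mod_lt _ hq
  have hsum : ∑ t ∈ Finset.range N, f (a + t) =
      (N / q : ℕ) * S + ∑ x ∈ Finset.range (N % q), f (a + ((q * (N / q) + x : ℕ) : ℤ)) := by
    conv_lhs => rw [hN]
    rw [Finset.sum_range_add, hmul]
  have hrest : |∑ x ∈ Finset.range (N % q), f (a + ((q * (N / q) + x : ℕ) : ℤ))| ≤ q * M := by
    refine (Finset.abs_sum_le_sum_abs _ _).trans ?_
    refine (Finset.sum_le_card_nsmul _ _ M fun c _ => hM _).trans ?_
    rw [Finset.card_range, nsmul_eq_mul]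
    have : ((N % q : ℕ) : ℝ) ≤ q := by exact_mod_cast hr.le
    exact mul_le_mul_of_nonneg_right this hM0
  have hfrac : |((N / q : ℕ) : ℝ) - (N : ℝ) / q| ≤ 1 := by
    have e : (N : ℝ) = q * ((N / q : ℕ) : ℝ) + ((N % q : ℕ) : ℝ) := by exact_mod_cast hN
    have e2 : ((N / q : ℕ) : ℝ) - (N : ℝ) / q = -(((N % q : ℕ) : ℝ) / q) := by
      rw [e]
      field_simp
      ring
    rw [e2, abs_neg, abs_of_nonneg (by positivity), div_le_one hq0]
    exact_mod_cast hr.le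
  rw [hsum]
  have e3 : (N / q : ℕ) * S + ∑ x ∈ Finset.range (N % q), f (a + ((q * (N / q) + x : ℕ) : ℤ)) -
      (N : ℝ) / q * S = (((N / q : ℕ) : ℝ) - (N : ℝ) / q) * S +
        ∑ x ∈ Finset.range (N % q), f (a + ((q * (N / q) + x : ℕ) : ℤ)) := by ring
  rw [e3]
  refine (abs_add_le _ _).trans ?_
  rw [abs_mul]
  have h5 : |((N / q : ℕ) : ℝ) - (N : ℝ) / q| * |S| ≤ 1 * (q * M) :=
    mul_le_mul hfrac hSabs (abs_nonneg _) zero_le_one
  linarith

/-- The number of integers in `[α, β]` in a residue class modulo `W₀`, for functions: `f` periodic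
modulo `W₁`, `W₀, W₁` coprime, `|f| ≤ M`. Then
`∑_{n ∈ [α, β], n ≡ b (W₀)} f(n) = ((β - α + 1) / (W₀ W₁)) ∑_{c < W₁} f(c) + O(4 W₁ M)` if
`α ≤ β + 1`.

PROOF. Let `b' ≥ α` be the smallest integer `≡ b (W₀)`. The integers of the sum are `b' + W₀ t`,
`t < N`, with `|N - (β - α + 1) / W₀| ≤ 1`. The function `t ↦ f(b' + W₀ t)` is periodic modulo `W₁`
with the same sum over a period (`sum_period_affine`); apply `abs_sum_periodic_sub_le`, and
`|(N / W₁) S - ((β-α+1)/(W₀ W₁)) S| ≤ |S| / W₁ ≤ M`. -/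
lemma abs_sum_class_sub_le (W₀ W₁ : ℕ) (h0 : 1 ≤ W₀) (h1 : 1 ≤ W₁) (hc : Nat.Coprime W₀ W₁)
    (f : ℤ → ℝ) (hf : ∀ n m : ℤ, n ≡ m [ZMOD (W₁ : ℤ)] → f n = f m) (M : ℝ)
    (hM : ∀ n, |f n| ≤ M) (b α β : ℤ) (hαβ : α ≤ β + 1) :
    |(∑ n ∈ (Finset.Icc α β).filter (fun n => n ≡ b [ZMOD (W₀ : ℤ)]), f n)
        - ((β - α + 1 : ℤ) : ℝ) / (W₀ * W₁) * ∑ c ∈ Finset.range W₁, f c| ≤ 4 * W₁ * M := by
  have hM0 : 0 ≤ M := (abs_nonneg _).trans (hM 0)
  have hW0 : (0 : ℝ) < W₀ := by exact_mod_cast h0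
  have hW1 : (0 : ℝ) < W₁ := by exact_mod_cast h1
  have hW0z : (0 : ℤ) < W₀ := by exact_mod_cast h0
  have hW1z : (0 : ℤ) < W₁ := by exact_mod_cast h1
  set S : ℝ := ∑ c ∈ Finset.range W₁, f c with hS
  have hSabs : |S| ≤ W₁ * M := by
    refine (Finset.abs_sum_le_sum_abs _ _).trans ?_
    refine (Finset.sum_le_card_nsmul _ _ M fun c _ => hM _).trans ?_
    rw [Finset.card_range, nsmul_eq_mul]
  -- the first element
  set ρ : ℤ := (b - α) % (W₀ : ℤ) with hρ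
  have hρ0 : 0 ≤ ρ := Int.emod_nonneg _ hW0z.ne'
  have hρ1 : ρ < W₀ := Int.emod_lt_of_pos _ hW0z
  have hρb : (α + ρ) ≡ b [ZMOD (W₀ : ℤ)] := by
    have h2 : ρ ≡ b - α [ZMOD (W₀ : ℤ)] := Int.mod_modEq _ _
    have h3 := h2.add_left α
    rwa [add_sub_cancel] at h3
  set A : ℤ := β - (α + ρ) + W₀ with hA
  have hA0 : 0 ≤ A := by omega
  set N : ℕ := (A / (W₀ : ℤ)).toNat with hN
  have hNz : ((N : ℕ) : ℤ) = A / (W₀ : ℤ) := Int.toNat_of_nonneg (Int.ediv_nonneg hA0 hW0z.le)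
  have hlt : ∀ t : ℤ, t < (N : ℤ) ↔ (α + ρ) + W₀ * t ≤ β := by
    intro t
    rw [hNz, ← Int.add_one_le_iff, Int.le_ediv_iff_mul_le hW0z]
    constructor <;> intro h <;> nlinarith
  have hsum : ∑ n ∈ (Finset.Icc α β).filter (fun n => n ≡ b [ZMOD (W₀ : ℤ)]), f n =
      ∑ t ∈ Finset.range N, f ((α + ρ) + W₀ * t) := by
    symm
    refine Finset.sum_bij' (fun (t : ℕ) _ => (α + ρ) + W₀ * (t : ℤ))
      (fun (n : ℤ) _ => ((n - (α + ρ)) / (W₀ : ℤ)).toNat) ?_ ?_ ?_ ?_ ?_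
    · intro t ht
      rw [Finset.mem_range] at ht
      have h2 : (t : ℤ) < N := by exact_mod_cast ht
      rw [Finset.mem_filter, Finset.mem_Icc]
      have h4 : 0 ≤ (W₀ : ℤ) * t := by positivity
      refine ⟨⟨by omega, (hlt t).1 h2⟩, ?_⟩
      have h5 : (α + ρ) + W₀ * (t : ℤ) ≡ b + 0 [ZMOD (W₀ : ℤ)] :=
        hρb.add ((Int.modEq_zero_iff_dvd).2 (dvd_mul_right _ _))
      rwa [add_zero] at h5
    · intro n hn
      rw [Finset.mem_filter, Finset.mem_Icc] at hn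
      obtain ⟨⟨hn1, hn2⟩, hn3⟩ := hn
      obtain ⟨c, hc⟩ := (hρb.trans hn3.symm).dvd
      have hc0 : 0 ≤ c := by
        by_contra hneg
        push Not at hneg
        have : (W₀ : ℤ) * c ≤ W₀ * (-1) := by
          apply mul_le_mul_of_nonneg_left _ hW0z.le
          omega
        omega
      rw [hc, Int.mul_ediv_cancel_left _ hW0z.ne', Finset.mem_range]
      have h6 : c < (N : ℤ) := (hlt c).2 (by rw [← hc]; omega)
      omega
    · intro t _
      simp only [add_sub_cancel_left]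
      rw [Int.mul_ediv_cancel_left _ hW0z.ne', Int.toNat_natCast]
    · intro n hn
      rw [Finset.mem_filter, Finset.mem_Icc] at hn
      obtain ⟨⟨hn1, hn2⟩, hn3⟩ := hn
      obtain ⟨c, hc⟩ := (hρb.trans hn3.symm).dvd
      have hc0 : 0 ≤ c := by
        by_contra hneg
        push Not at hneg
        have : (W₀ : ℤ) * c ≤ W₀ * (-1) := by
          apply mul_le_mul_of_nonneg_left _ hW0z.le
          omega
        omega
      show (α + ρ) + W₀ * ((((n - (α + ρ)) / (W₀ : ℤ)).toNat : ℕ) : ℤ) = n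
      rw [hc, Int.mul_ediv_cancel_left _ hW0z.ne', Int.toNat_of_nonneg hc0]
      omega
    · intro t _
      rfl
  -- the periodic function on the progression
  have hF := abs_sum_periodic_sub_le W₁ h1 (fun t => f ((α + ρ) + W₀ * t))
    (fun n m hnm => hf _ _ ((Int.ModEq.mul_left _ hnm).add_left _)) M (fun n => hM _) 0 N
  simp only [zero_add] at hF
  rw [sum_period_affine W₀ W₁ h1 hc f hf (α + ρ)] at hF
  rw [hsum]
  -- the count
  have hcount : |(N : ℝ) - ((β - α + 1 : ℤ) : ℝ) / W₀| ≤ 1 := by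
    have c1 : (W₀ : ℤ) * N ≤ A := by
      rw [hNz]
      exact Int.mul_ediv_self_le hW0z.ne'
    have c2 : A < W₀ * (N + 1) := by
      rw [hNz]
      have := Int.lt_mul_ediv_self_add (x := A) (k := (W₀ : ℤ)) hW0z
      linarith
    have c3 : (W₀ : ℤ) * N - (β - α + 1) ≤ W₀ := by omega
    have c4 : -(W₀ : ℤ) ≤ W₀ * N - (β - α + 1) := by
      have : (W₀ : ℤ) * (N + 1) = W₀ * N + W₀ := by ring
      omega
    have c3' : (W₀ : ℝ) * N - ((β - α + 1 : ℤ) : ℝ) ≤ W₀ := by exact_mod_cast c3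
    have c4' : -(W₀ : ℝ) ≤ W₀ * N - ((β - α + 1 : ℤ) : ℝ) := by exact_mod_cast c4
    have e : (N : ℝ) - ((β - α + 1 : ℤ) : ℝ) / W₀ =
        (W₀ * N - ((β - α + 1 : ℤ) : ℝ)) / W₀ := by
      field_simp
    rw [e, abs_div, abs_of_pos hW0, div_le_one hW0, abs_le]
    exact ⟨c4', c3'⟩
  have hdiff : |(N : ℝ) / W₁ * S - ((β - α + 1 : ℤ) : ℝ) / (W₀ * W₁) * S| ≤ M := by
    have e : (N : ℝ) / W₁ * S - ((β - α + 1 : ℤ) : ℝ) / (W₀ * W₁) * S =
        ((N : ℝ) - ((β - α + 1 : ℤ) : ℝ) / W₀) * (S / W₁) := by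
      field_simp
    rw [e, abs_mul]
    have h7 : |S / W₁| ≤ M := by
      rw [abs_div, abs_of_pos hW1, div_le_iff₀ hW1]
      linarith
    calc |(N : ℝ) - ((β - α + 1 : ℤ) : ℝ) / W₀| * |S / W₁| ≤ 1 * M :=
          mul_le_mul hcount h7 (abs_nonneg _) zero_le_one
      _ = M := one_mul _
  have hfin : (∑ t ∈ Finset.range N, f ((α + ρ) + W₀ * t)) -
      ((β - α + 1 : ℤ) : ℝ) / (W₀ * W₁) * S =
      ((∑ t ∈ Finset.range N, f ((α + ρ) + W₀ * t)) - (N : ℝ) / W₁ * S) +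
        ((N : ℝ) / W₁ * S - ((β - α + 1 : ℤ) : ℝ) / (W₀ * W₁) * S) := by ring
  rw [hfin]
  refine (abs_add_le _ _).trans ?_
  have hW1' : (1 : ℝ) ≤ W₁ := by exact_mod_cast h1
  have h9 : M ≤ W₁ * M := le_mul_of_one_le_left hM0 hW1'
  nlinarith

end Pool.Agent.Lib.MP_bae66e_nt.LL
end

section

/-!
# E08: correlations of the local model
-/

set_option autoImplicit false

open Finset

namespace Pool.Agent.Lib.MP_bae66e_nt.LL

private lemma E08_pos (W Y : ℕ) (hW : Squarefree W) (hY : 2 * W ^ 3 ≤ Y) (d : ℤ) (hd : 0 < d)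
    (hdY : d ≤ (Y : ℤ)) :
    |corr Y (gW W Y) d| ≤ 2 * (1 / rho d.natAbs) ^ 2 * Y := by
  have hW1 : 1 ≤ W := Nat.pos_of_ne_zero hW.ne_zero
  have hW0 : (0 : ℝ) < W := by exact_mod_cast hW1
  set F : ℤ → ℝ := fun n => nu W n * nu W (n + d) with hF
  have hF0 : ∀ n, 0 ≤ F n := fun n => mul_nonneg (nu_nonneg W n) (nu_nonneg W _)
  have hFM : ∀ n, |F n| ≤ (W : ℝ) ^ 2 := by
    intro n
    rw [abs_of_nonneg (hF0 n), sq]
    exact mul_le_mul (nu_le W hW1 n) (nu_le W hW1 _) (nu_nonneg W _) hW0.le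
  have hFper : ∀ n m : ℤ, n ≡ m [ZMOD (W : ℤ)] → F n = F m := by
    intro n m h
    simp only [hF]
    rw [nu_periodic W n m h, nu_periodic W (n + d) (m + d) (h.add_right d)]
  set N : ℕ := ((Y : ℤ) - d).toNat with hN
  have hNz : ((N : ℕ) : ℤ) = (Y : ℤ) - d := Int.toNat_of_nonneg (by omega)
  have hcorr : corr Y (gW W Y) d = ∑ t ∈ Finset.range N, F (1 + t) := by
    unfold corr
    symm
    rw [← Finset.sum_filter_add_sum_filter_not (Finset.Icc (1 : ℤ) (Y : ℤ))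
      (fun n => n + d ≤ (Y : ℤ))]
    have hz : ∑ n ∈ (Finset.Icc (1 : ℤ) (Y : ℤ)).filter (fun n => ¬ n + d ≤ (Y : ℤ)),
        gW W Y n * gW W Y (n + d) = 0 := by
      refine Finset.sum_eq_zero fun n hn => ?_
      rw [Finset.mem_filter] at hn
      rw [gW_support W Y (n + d) (fun h => hn.2 h.2), mul_zero]
    rw [hz, add_zero]
    refine Finset.sum_bij' (fun (t : ℕ) _ => (1 : ℤ) + t) (fun (n : ℤ) _ => (n - 1).toNat)
      ?_ ?_ ?_ ?_ ?_
    · intro t ht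
      rw [Finset.mem_range] at ht
      rw [Finset.mem_filter, Finset.mem_Icc]
      omega
    · intro n hn
      rw [Finset.mem_filter, Finset.mem_Icc] at hn
      rw [Finset.mem_range]
      omega
    · intro t _
      simp
    · intro n hn
      rw [Finset.mem_filter, Finset.mem_Icc] at hn
      show (1 : ℤ) + (((n - 1).toNat : ℕ) : ℤ) = n
      omega
    · intro t ht
      rw [Finset.mem_range] at ht
      have e1 : gW W Y (1 + t) = nu W (1 + t) := by
        unfold gW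
        rw [if_pos (by omega)]
      have e2 : gW W Y (1 + t + d) = nu W (1 + t + d) := by
        unfold gW
        rw [if_pos (by omega)]
      show F (1 + t) = gW W Y (1 + t) * gW W Y (1 + t + d)
      rw [e1, e2]
  have hSS : ∑ c ∈ Finset.range W, F c = W * SS W (![0, -d] : Fin 2 → ℤ) := by
    rw [← sum_nu_eq_SS W hW]
    refine Finset.sum_congr rfl fun c _ => ?_
    rw [Fin.prod_univ_two]
    simp [hF]
  have hmain := abs_sum_periodic_sub_le W hW1 F hFper ((W : ℝ) ^ 2) hFM 1 N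
  rw [hSS] at hmain
  have hpair := SS_pair_le W d hd.ne'
  have hSS0 := SS_nonneg W (![0, -d] : Fin 2 → ℤ)
  have hr0 := rho_pos d.natAbs
  have hr1 : rho d.natAbs ≤ 1 := rho_le_one _
  have hx1 : 1 ≤ 1 / rho d.natAbs := by rw [le_div_iff₀ hr0]; linarith
  have hnn : 0 ≤ corr Y (gW W Y) d := by
    rw [hcorr]
    exact Finset.sum_nonneg fun t _ => hF0 _
  rw [abs_of_nonneg hnn, hcorr]
  have h1 := (abs_le.1 hmain).2
  have h2 : (N : ℝ) / W * (W * SS W (![0, -d] : Fin 2 → ℤ)) =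
      N * SS W (![0, -d] : Fin 2 → ℤ) := by
    field_simp
  rw [h2] at h1
  have hY' : 2 * (W : ℝ) ^ 3 ≤ Y := by exact_mod_cast hY
  have hNY : (N : ℝ) ≤ Y := by
    have : N ≤ Y := by omega
    exact_mod_cast this
  have hY0 : (0 : ℝ) ≤ Y := Nat.cast_nonneg _
  set x : ℝ := 1 / rho d.natAbs with hx
  have h3 : (N : ℝ) * SS W (![0, -d] : Fin 2 → ℤ) ≤ Y * x :=
    mul_le_mul hNY hpair hSS0 hY0
  have h4 : 2 * (W : ℝ) * (W : ℝ) ^ 2 = 2 * (W : ℝ) ^ 3 := by ring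
  have h5 : (Y : ℝ) * x ≤ Y * x ^ 2 := by
    apply mul_le_mul_of_nonneg_left _ hY0
    nlinarith
  have h6 : (Y : ℝ) ≤ Y * x ^ 2 := by
    have : 1 ≤ x ^ 2 := one_le_pow₀ hx1
    nlinarith
  nlinarith

/-- `|corr Y (gW W Y) d| ≤ 2 ρ(|d|)^{-2} Y` for squarefree `W`, `Y ≥ 2 W³`, `0 < |d| ≤ Y`.

PROOF. By `corr_neg` let `d > 0`. `corr = ∑_{1 ≤ n ≤ Y - d} nu W n * nu W (n + d)`. The function
`f(n) = nu W n nu W (n + d) = ∏_{i : Fin 2} nu W (n - h_i)`, `h = ![0, -d]`, is periodic modulo `W`,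
`0 ≤ f ≤ W²`, and `∑_{c < W} f(c) = W SS W h` (`sum_nu_eq_SS`). By `abs_sum_periodic_sub_le` the sum
is at most `(Y - d) SS W h + 2 W W² ≤ Y / ρ(d) + 2 W³ ≤ 2 Y / ρ(d)²` (`SS_pair_le`, `ρ ≤ 1`). -/
lemma corr_gW_le (W Y : ℕ) (hW : Squarefree W) (hY : 2 * W ^ 3 ≤ Y) (d : ℤ) (hd : d ≠ 0)
    (hdY : |d| ≤ (Y : ℤ)) :
    |corr Y (gW W Y) d| ≤ 2 * (1 / rho d.natAbs) ^ 2 * Y := by
  rcases lt_or_gt_of_ne hd with h | h
  · have h1 := corr_neg Y (gW W Y) (fun n hn => gW_support W Y n hn) d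
    have h2 := E08_pos W Y hW hY (-d) (by omega) (by
      have := abs_le.1 hdY
      omega)
    rw [h1, Int.natAbs_neg] at h2
    exact h2
  · exact E08_pos W Y hW hY d h ((le_abs_self d).trans hdY)

end Pool.Agent.Lib.MP_bae66e_nt.LL
end

section

/-!
# E11: the singular series at the primes `> w`
-/

set_option autoImplicit false

open Finset

namespace Pool.Agent.Lib.MP_bae66e_nt.LL

private lemma E11_inv (p : ℕ) (hp : p.Prime) :
    0 < 1 - 1 / (p : ℝ) ∧ 1 ≤ 1 / (1 - 1 / (p : ℝ)) ∧ 1 - 1 / (p : ℝ) ≤ 1 := by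
  have hp1 : (1 : ℝ) < p := by exact_mod_cast hp.one_lt
  have h1 : 1 / (p : ℝ) < 1 := (div_lt_one (by linarith)).2 hp1
  have h2 : 0 < 1 / (p : ℝ) := by positivity
  refine ⟨by linarith, ?_, by linarith⟩
  rw [le_div_iff₀ (by linarith)]
  linarith

private lemma E11_one_le_prod {ι : Type*} (s : Finset ι) (f : ι → ℝ) (hf : ∀ i ∈ s, 1 ≤ f i) :
    1 ≤ ∏ i ∈ s, f i :=
  Finset.prod_induction f (fun x => (1 : ℝ) ≤ x)
    (fun _ _ ha hb => one_le_mul_of_one_le_of_one_le ha hb) le_rfl hf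

private lemma E11_nup_le {j : ℕ} (p : ℕ) (h : Fin j → ℤ) : nup p h ≤ j := by
  unfold nup
  have h1 := Finset.card_image_le (s := (Finset.univ : Finset (Fin j)))
    (f := fun i => h i % (p : ℤ))
  simpa using h1

private lemma E11_nup_eq {k : ℕ} (p : ℕ) (h : Fin k → ℤ)
    (hex : ∀ i l : Fin (k + 1), i < l → ¬ p ∣ (hh h i - hh h l).natAbs) :
    nup p (hh h) = k + 1 := by
  unfold nup
  rw [Finset.card_image_of_injective]
  · simp
  · have key : ∀ a b : Fin (k + 1), a < b →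
        hh h a % (p : ℤ) ≠ hh h b % (p : ℤ) := by
      intro a b hab heq
      apply hex a b hab
      have h5 : (p : ℤ) ∣ hh h a - hh h b := Int.ModEq.dvd (Int.ModEq.symm heq)
      exact Int.natCast_dvd.1 h5
    intro a b hab
    rcases lt_trichotomy a b with hlt | heq | hgt
    · exact absurd hab (key a b hlt)
    · exact heq
    · exact absurd hab.symm (key b a hgt)

private lemma E11_bern (x : ℝ) (hx1 : x ≤ 1) (j : ℕ) :
    1 - (j : ℝ) * x ≤ (1 - x) ^ j := by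
  have h7 := one_add_mul_le_pow (a := -x) (by linarith) j
  have h8 : 1 - (j : ℝ) * x = 1 + (j : ℝ) * -x := by ring
  rw [h8, sub_eq_add_neg]
  exact h7

private lemma E11_one_sub_prod {ι : Type*} (s : Finset ι) (a : ι → ℝ)
    (h0 : ∀ i ∈ s, 0 ≤ a i) (h1 : ∀ i ∈ s, a i ≤ 1) :
    1 - ∑ i ∈ s, a i ≤ ∏ i ∈ s, (1 - a i) := by
  classical
  have key : 1 - ∑ i ∈ s, a i ≤ ∏ i ∈ s, (1 - a i) ∧ ∏ i ∈ s, (1 - a i) ≤ 1 ∧
      0 ≤ ∏ i ∈ s, (1 - a i) := by
    induction s using Finset.induction_on with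
    | empty => simp
    | insert x s hx ih =>
      obtain ⟨i1, i2, i3⟩ := ih (fun i hi => h0 i (Finset.mem_insert_of_mem hi))
        (fun i hi => h1 i (Finset.mem_insert_of_mem hi))
      have g0 := h0 x (Finset.mem_insert_self x s)
      have g1 := h1 x (Finset.mem_insert_self x s)
      rw [Finset.sum_insert hx, Finset.prod_insert hx]
      refine ⟨?_, ?_, ?_⟩
      · nlinarith
      · nlinarith
      · exact mul_nonneg (by linarith) i3
  exact key.1

/-- exponential of the sum over one difference -/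
private lemma E11_exp_sig (w D j : ℕ) :
    Real.exp (2 * j * sig w D) ≤ (1 / rho D) ^ (2 * j) := by
  have e1 : Real.exp (2 * j * sig w D) =
      ∏ p ∈ D.primeFactors.filter (fun p => w < p), (Real.exp (1 / (p : ℝ))) ^ (2 * j) := by
    unfold sig
    rw [Finset.mul_sum, Real.exp_sum]
    refine Finset.prod_congr rfl fun p _ => ?_
    rw [← Real.exp_nat_mul]
    push_cast
    rfl
  have e2 : (1 / rho D) ^ (2 * j) =
      ∏ p ∈ D.primeFactors, (1 / (1 - 1 / (p : ℝ))) ^ (2 * j) := by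
    unfold rho
    rw [Finset.prod_pow]
    congr 1
    rw [one_div, ← Finset.prod_inv_distrib]
    exact Finset.prod_congr rfl fun p _ => (one_div _).symm
  have hexp : ∀ p ∈ D.primeFactors, Real.exp (1 / (p : ℝ)) ≤ 1 / (1 - 1 / (p : ℝ)) := by
    intro p hp
    obtain ⟨h1, -, -⟩ := E11_inv p (Nat.prime_of_mem_primeFactors hp)
    have h2 := Real.add_one_le_exp (-(1 / (p : ℝ)))
    rw [Real.exp_neg] at h2
    have h3 : 0 < Real.exp (1 / (p : ℝ)) := Real.exp_pos _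
    rw [le_div_iff₀ h1]
    have h4 : 1 - 1 / (p : ℝ) ≤ (Real.exp (1 / (p : ℝ)))⁻¹ := by linarith
    calc Real.exp (1 / (p : ℝ)) * (1 - 1 / (p : ℝ)) ≤
          Real.exp (1 / (p : ℝ)) * (Real.exp (1 / (p : ℝ)))⁻¹ :=
          mul_le_mul_of_nonneg_left h4 h3.le
      _ = 1 := mul_inv_cancel₀ h3.ne'
  rw [e1, e2, ← Finset.prod_sdiff (Finset.filter_subset (fun p => w < p) D.primeFactors)]
  have h5 : ∏ p ∈ D.primeFactors.filter (fun p => w < p), (Real.exp (1 / (p : ℝ))) ^ (2 * j) ≤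
      ∏ p ∈ D.primeFactors.filter (fun p => w < p), (1 / (1 - 1 / (p : ℝ))) ^ (2 * j) := by
    refine Finset.prod_le_prod (fun p _ => by positivity) (fun p hp => ?_)
    exact pow_le_pow_left₀ (Real.exp_pos _).le (hexp p (Finset.mem_filter.1 hp).1) _
  refine h5.trans ?_
  refine le_mul_of_one_le_left (Finset.prod_nonneg fun p hp => ?_)
    (E11_one_le_prod _ _ fun p hp => ?_)
  · have := (E11_inv p (Nat.prime_of_mem_primeFactors (Finset.mem_filter.1 hp).1)).2.1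
    positivity
  · exact one_le_pow₀
      (E11_inv p (Nat.prime_of_mem_primeFactors (Finset.mem_sdiff.1 hp).1)).2.1

/-- sums over the primes of `W` dividing one difference -/
private lemma E11_sum_le_sig (W w D : ℕ) (hD : D ≠ 0) (hW : ∀ p ∈ W.primeFactors, w < p) :
    ∑ p ∈ W.primeFactors, (if p ∣ D then 1 / (p : ℝ) else 0) ≤ sig w D := by
  unfold sig
  rw [← Finset.sum_filter]
  refine Finset.sum_le_sum_of_subset_of_nonneg ?_ (fun _ _ _ => by positivity)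
  intro p hp
  rw [Finset.mem_filter] at hp
  rw [Finset.mem_filter]
  exact ⟨Nat.mem_primeFactors.2 ⟨Nat.prime_of_mem_primeFactors hp.1, hp.2, hD⟩, hW p hp.1⟩

private lemma E11_diff_ne {k : ℕ} (h : Fin k → ℤ) (hinj : Function.Injective (hh h))
    {i l : Fin (k + 1)} (hil : i < l) : (hh h i - hh h l).natAbs ≠ 0 := by
  rw [Int.natAbs_ne_zero, sub_ne_zero]
  exact fun heq => hil.ne (hinj heq)

/-- `∑_{p ∈ S} 1/p² ≤ 1/w` for a set `S` of integers `> w ≥ 1`. (Compare with `∑_{n > w} 1/n²`,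
`sum_Ioc_inv_sq_le_sub` in Mathlib.) -/
lemma sum_inv_sq_le (S : Finset ℕ) (w : ℕ) (hw : 1 ≤ w) (hS : ∀ p ∈ S, w < p) :
    ∑ p ∈ S, 1 / (p : ℝ) ^ 2 ≤ 1 / (w : ℝ) := by
  classical
  set N : ℕ := max w (S.sup id) with hN
  have hsub : S ⊆ Finset.Ioc w N := by
    intro p hp
    rw [Finset.mem_Ioc]
    exact ⟨hS p hp, (Finset.le_sup (f := id) hp).trans (le_max_right _ _)⟩
  have h1 : ∑ p ∈ S, 1 / (p : ℝ) ^ 2 ≤ ∑ p ∈ Finset.Ioc w N, ((p : ℝ) ^ 2)⁻¹ := by
    simp only [one_div]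
    exact Finset.sum_le_sum_of_subset_of_nonneg hsub (fun _ _ _ => by positivity)
  have h2 := sum_Ioc_inv_sq_le_sub (α := ℝ) (k := w) (n := N) (by omega) (le_max_left _ _)
  have h3 : (0 : ℝ) ≤ (N : ℝ)⁻¹ := by positivity
  rw [one_div]
  linarith

/-- Upper bound. Let all prime factors of `W` be `> w ≥ 2 (k + 1)`, and `0, h_1, …, h_k` distinct.
With `j = k + 1`: `SS W (hh h) - 1 ≤ 2 j (∑_{i<l} sig w |h_i - h_l|) FF (2 j) h`.

PROOF. The factor at `p` is `≤ 1` if `p` divides no difference (see `SS_le_FF` in E06), and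
`≤ (1 - 1/p)^{-j} ≤ exp(2 j / p)` otherwise (`1/(1-x) ≤ exp(2x)` for `0 ≤ x ≤ 1/2`). So
`SS ≤ exp(u)`, `u = 2 j ∑_{p ∣ W, p ∣ Δ} 1/p ≤ 2 j ∑_{i<l} sig w |h_i - h_l|`, where `p ∣ Δ` means that
`p` divides some `h_i - h_l`; `exp(u) - 1 ≤ u exp(u)`; and
`exp(u) = ∏ exp(1/p)^{2j} ≤ ∏_{p ∣ Δ} (1 - 1/p)^{-2j} ≤ FF (2 j) h` as `exp(x) ≤ 1/(1-x)`. -/
lemma SS_sub_one_le {k : ℕ} (W w : ℕ) (hw : 2 * (k + 1) ≤ w)
    (hW : ∀ p ∈ W.primeFactors, w < p) (h : Fin k → ℤ) (hinj : Function.Injective (hh h)) :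
    SS W (hh h) - 1 ≤ 2 * (k + 1) * (∑ i : Fin (k + 1), ∑ l ∈ Finset.Ioi i,
      sig w (hh h i - hh h l).natAbs) * FF (2 * (k + 1)) h := by
  have hj0 : (0 : ℝ) ≤ (k : ℝ) + 1 := by positivity
  set u : ℝ := ∑ i : Fin (k + 1), ∑ l ∈ Finset.Ioi i, sig w (hh h i - hh h l).natAbs with hu
  -- the factor at p
  have hbase : ∀ p ∈ W.primeFactors,
      (1 - (nup p (hh h) : ℝ) / p) / (1 - 1 / (p : ℝ)) ^ (k + 1) ≤
      Real.exp (∑ i : Fin (k + 1), ∑ l ∈ Finset.Ioi i,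
        (if p ∣ (hh h i - hh h l).natAbs then 2 * ((k : ℝ) + 1) * (1 / (p : ℝ)) else 0)) := by
    intro p hp
    have hpp := Nat.prime_of_mem_primeFactors hp
    obtain ⟨h1, h2, h3⟩ := E11_inv p hpp
    have hp0 : (0 : ℝ) < p := by exact_mod_cast hpp.pos
    have hp2 : 1 / (p : ℝ) ≤ 1 / 2 := by
      apply one_div_le_one_div_of_le (by norm_num)
      exact_mod_cast hpp.two_le
    have hpi : 0 < 1 / (p : ℝ) := by positivity
    have hc0 : ∀ i l : Fin (k + 1), (0 : ℝ) ≤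
        (if p ∣ (hh h i - hh h l).natAbs then 2 * ((k : ℝ) + 1) * (1 / (p : ℝ)) else 0) := by
      intro i l
      split_ifs <;> positivity
    by_cases hex : ∃ i l : Fin (k + 1), i < l ∧ p ∣ (hh h i - hh h l).natAbs
    · obtain ⟨i, l, hil, hdvd⟩ := hex
      have h4 : (1 - (nup p (hh h) : ℝ) / p) / (1 - 1 / (p : ℝ)) ^ (k + 1) ≤
          (1 / (1 - 1 / (p : ℝ))) ^ (k + 1) := by
        rw [one_div_pow]
        refine div_le_div_of_nonneg_right ?_ (pow_nonneg h1.le _)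
        have : 0 ≤ (nup p (hh h) : ℝ) / p := by positivity
        linarith
      have h5 : 1 / (1 - 1 / (p : ℝ)) ≤ Real.exp (2 * (1 / (p : ℝ))) := by
        have h6 := Real.add_one_le_exp (2 * (1 / (p : ℝ)))
        refine le_trans ?_ h6
        rw [div_le_iff₀ h1]
        nlinarith
      have h7 : (1 / (1 - 1 / (p : ℝ))) ^ (k + 1) ≤
          Real.exp (2 * ((k : ℝ) + 1) * (1 / (p : ℝ))) := by
        refine (pow_le_pow_left₀ (by positivity) h5 _).trans (le_of_eq ?_)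
        rw [← Real.exp_nat_mul]
        congr 1
        push_cast
        ring
      refine h4.trans (h7.trans (Real.exp_le_exp.2 ?_))
      have h8 : 2 * ((k : ℝ) + 1) * (1 / (p : ℝ)) ≤ ∑ l ∈ Finset.Ioi i,
          (if p ∣ (hh h i - hh h l).natAbs then 2 * ((k : ℝ) + 1) * (1 / (p : ℝ)) else 0) := by
        have := Finset.single_le_sum (f := fun l : Fin (k + 1) =>
          (if p ∣ (hh h i - hh h l).natAbs then 2 * ((k : ℝ) + 1) * (1 / (p : ℝ)) else 0))
          (fun l _ => hc0 i l) (Finset.mem_Ioi.2 hil)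
        simp only [if_pos hdvd] at this
        exact this
      refine h8.trans ?_
      exact Finset.single_le_sum (f := fun i : Fin (k + 1) => ∑ l ∈ Finset.Ioi i,
          (if p ∣ (hh h i - hh h l).natAbs then 2 * ((k : ℝ) + 1) * (1 / (p : ℝ)) else 0))
          (fun i _ => Finset.sum_nonneg fun l _ => hc0 i l) (Finset.mem_univ i)
    · push Not at hex
      have hn := E11_nup_eq p h hex
      have h6 : (1 - (nup p (hh h) : ℝ) / p) / (1 - 1 / (p : ℝ)) ^ (k + 1) ≤ 1 := by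
        rw [hn, div_le_one (pow_pos h1 _)]
        have h7 := E11_bern (1 / (p : ℝ)) (by linarith) (k + 1)
        have h8 : (1 : ℝ) - ((k + 1 : ℕ) : ℝ) / p = 1 - ((k + 1 : ℕ) : ℝ) * (1 / (p : ℝ)) := by
          ring
        rw [h8]
        exact h7
      refine h6.trans ?_
      refine Real.one_le_exp ?_
      exact Finset.sum_nonneg fun i _ => Finset.sum_nonneg fun l _ => hc0 i l
  have hnn : ∀ p ∈ W.primeFactors,
      0 ≤ (1 - (nup p (hh h) : ℝ) / p) / (1 - 1 / (p : ℝ)) ^ (k + 1) := by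
    intro p hp
    have hpp := Nat.prime_of_mem_primeFactors hp
    obtain ⟨h1, -, -⟩ := E11_inv p hpp
    have hp0 : (0 : ℝ) < p := by exact_mod_cast hpp.pos
    refine div_nonneg ?_ (pow_nonneg h1.le _)
    rw [sub_nonneg, div_le_one hp0]
    have h2 := E11_nup_le p (hh h)
    have h3 := hW p hp
    have h4 : nup p (hh h) ≤ p := by omega
    exact_mod_cast h4
  have hSS : SS W (hh h) ≤ Real.exp (2 * ((k : ℝ) + 1) * u) := by
    unfold SS
    refine (Finset.prod_le_prod hnn hbase).trans ?_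
    rw [← Real.exp_sum, Real.exp_le_exp, Finset.sum_comm, hu, Finset.mul_sum]
    refine Finset.sum_le_sum fun i _ => ?_
    rw [Finset.sum_comm, Finset.mul_sum]
    refine Finset.sum_le_sum fun l hl => ?_
    have h5 := E11_sum_le_sig W w _ (E11_diff_ne h hinj (Finset.mem_Ioi.1 hl)) hW
    have h6 : ∑ p ∈ W.primeFactors, (if p ∣ (hh h i - hh h l).natAbs then
        2 * ((k : ℝ) + 1) * (1 / (p : ℝ)) else 0) = 2 * ((k : ℝ) + 1) *
        ∑ p ∈ W.primeFactors, (if p ∣ (hh h i - hh h l).natAbs then 1 / (p : ℝ) else 0) := by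
      rw [Finset.mul_sum]
      refine Finset.sum_congr rfl fun p _ => ?_
      split_ifs <;> simp
    rw [h6]
    exact mul_le_mul_of_nonneg_left h5 (by positivity)
  have hFF : Real.exp (2 * ((k : ℝ) + 1) * u) ≤ FF (2 * (k + 1)) h := by
    unfold FF
    rw [hu, Finset.mul_sum, Real.exp_sum]
    refine Finset.prod_le_prod (fun _ _ => (Real.exp_pos _).le) (fun i _ => ?_)
    rw [Finset.mul_sum, Real.exp_sum]
    refine Finset.prod_le_prod (fun _ _ => (Real.exp_pos _).le) (fun l _ => ?_)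
    have := E11_exp_sig w (hh h i - hh h l).natAbs (k + 1)
    push_cast at this ⊢
    exact this
  have hu0 : 0 ≤ u := by
    rw [hu]
    refine Finset.sum_nonneg fun i _ => Finset.sum_nonneg fun l _ => ?_
    unfold sig
    exact Finset.sum_nonneg fun p _ => by positivity
  set v : ℝ := 2 * ((k : ℝ) + 1) * u with hv
  have hv0 : 0 ≤ v := by positivity
  have hexpv : Real.exp v - 1 ≤ v * Real.exp v := by
    have h1 := Real.add_one_le_exp (-v)
    have h2 : 0 < Real.exp v := Real.exp_pos _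
    have h3 : Real.exp (-v) * Real.exp v = 1 := by rw [← Real.exp_add]; simp
    nlinarith
  calc SS W (hh h) - 1 ≤ Real.exp v - 1 := by linarith
    _ ≤ v * Real.exp v := hexpv
    _ ≤ v * FF (2 * (k + 1)) h := mul_le_mul_of_nonneg_left hFF hv0

/-- Lower bound: `SS W (hh h) ≥ 1 - j²/w - j ∑_{i<l} sig w |h_i - h_l|`, `j = k + 1`.

PROOF. The factor at `p` is `≥ (1 - j/p)(1 + j/p) = 1 - j²/p²` if `p` divides no difference (`nup = j`,
`(1 - 1/p)^{-j} ≥ 1 + j/p`), and `≥ 1 - j/p` otherwise (`nup ≤ j`). All these lower bounds are in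
`[0, 1]` as `p > w ≥ 2 j`. Then `∏ (1 - a_p) ≥ 1 - ∑ a_p` and `sum_inv_sq_le`; a prime `p > w` which
divides some difference is counted in `∑_{i<l} sig w |h_i - h_l|`. -/
lemma one_sub_SS_le {k : ℕ} (W w : ℕ) (hw : 2 * (k + 1) ≤ w)
    (hW : ∀ p ∈ W.primeFactors, w < p) (h : Fin k → ℤ) (hinj : Function.Injective (hh h)) :
    1 - SS W (hh h) ≤ ((k : ℝ) + 1) ^ 2 / w + (k + 1) * ∑ i : Fin (k + 1), ∑ l ∈ Finset.Ioi i,
      sig w (hh h i - hh h l).natAbs := by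
  classical
  have hj0 : (0 : ℝ) ≤ (k : ℝ) + 1 := by positivity
  have hw1 : 1 ≤ w := by omega
  set ex : ℕ → Prop := fun p => ∃ i l : Fin (k + 1), i < l ∧ p ∣ (hh h i - hh h l).natAbs
    with hexdef
  set a : ℕ → ℝ := fun p => if ex p then ((k : ℝ) + 1) * (1 / (p : ℝ)) else
    ((k : ℝ) + 1) ^ 2 * (1 / (p : ℝ) ^ 2) with ha
  have hjp : ∀ p ∈ W.primeFactors, ((k : ℝ) + 1) * (1 / (p : ℝ)) ≤ 1 / 2 := by
    intro p hp
    have hpp := Nat.prime_of_mem_primeFactors hp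
    have hp0 : (0 : ℝ) < p := by exact_mod_cast hpp.pos
    have h3 := hW p hp
    have h4 : 2 * (k + 1) ≤ p := by omega
    have h5 : 2 * ((k : ℝ) + 1) ≤ p := by exact_mod_cast h4
    rw [mul_one_div, div_le_div_iff₀ hp0 (by norm_num)]
    linarith
  have ha0 : ∀ p ∈ W.primeFactors, 0 ≤ a p := by
    intro p _
    simp only [ha]
    split_ifs <;> positivity
  have ha1 : ∀ p ∈ W.primeFactors, a p ≤ 1 := by
    intro p hp
    have h1 := hjp p hp
    have h0 : 0 ≤ ((k : ℝ) + 1) * (1 / (p : ℝ)) := by positivity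
    simp only [ha]
    split_ifs
    · linarith
    · have e : ((k : ℝ) + 1) ^ 2 * (1 / (p : ℝ) ^ 2) = (((k : ℝ) + 1) * (1 / (p : ℝ))) ^ 2 := by
        ring
      rw [e]
      nlinarith
  have hfac : ∀ p ∈ W.primeFactors,
      1 - a p ≤ (1 - (nup p (hh h) : ℝ) / p) / (1 - 1 / (p : ℝ)) ^ (k + 1) := by
    intro p hp
    have hpp := Nat.prime_of_mem_primeFactors hp
    obtain ⟨h1, h2, h3⟩ := E11_inv p hpp
    have hp0 : (0 : ℝ) < p := by exact_mod_cast hpp.pos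
    have hpi : 0 < 1 / (p : ℝ) := by positivity
    have h4 := hjp p hp
    rw [le_div_iff₀ (pow_pos h1 _)]
    by_cases hex : ex p
    · have e : a p = ((k : ℝ) + 1) * (1 / (p : ℝ)) := if_pos hex
      rw [e]
      have hn : (nup p (hh h) : ℝ) / p ≤ ((k : ℝ) + 1) * (1 / (p : ℝ)) := by
        rw [mul_one_div]
        apply div_le_div_of_nonneg_right _ hp0.le
        exact_mod_cast E11_nup_le p (hh h)
      have h5 : (1 - 1 / (p : ℝ)) ^ (k + 1) ≤ 1 := pow_le_one₀ h1.le h3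
      have h6 : (1 - ((k : ℝ) + 1) * (1 / (p : ℝ))) * (1 - 1 / (p : ℝ)) ^ (k + 1) ≤
          (1 - ((k : ℝ) + 1) * (1 / (p : ℝ))) * 1 :=
        mul_le_mul_of_nonneg_left h5 (by linarith)
      linarith
    · have e : a p = ((k : ℝ) + 1) ^ 2 * (1 / (p : ℝ) ^ 2) := if_neg hex
      rw [e]
      have hn : nup p (hh h) = k + 1 := E11_nup_eq p h (fun i l hil hd => hex ⟨i, l, hil, hd⟩)
      rw [hn]
      set x : ℝ := 1 / (p : ℝ) with hx
      have e2 : (1 : ℝ) - ((k : ℝ) + 1) ^ 2 * (1 / (p : ℝ) ^ 2) =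
          (1 - ((k : ℝ) + 1) * x) * (1 + ((k : ℝ) + 1) * x) := by
        rw [hx]
        ring
      have e3 : (1 : ℝ) - ((k + 1 : ℕ) : ℝ) / p = 1 - ((k : ℝ) + 1) * x := by
        rw [hx]
        push_cast
        ring
      rw [e2, e3]
      have hb : 1 + ((k : ℝ) + 1) * x ≤ (1 + x) ^ (k + 1) := by
        have := one_add_mul_le_pow (a := x) (by linarith) (k + 1)
        push_cast at this
        exact this
      have hpr : (1 + ((k : ℝ) + 1) * x) * (1 - x) ^ (k + 1) ≤ 1 := by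
        calc (1 + ((k : ℝ) + 1) * x) * (1 - x) ^ (k + 1) ≤ (1 + x) ^ (k + 1) * (1 - x) ^ (k + 1) :=
              mul_le_mul_of_nonneg_right hb (pow_nonneg h1.le _)
          _ = (1 - x ^ 2) ^ (k + 1) := by rw [← mul_pow]; ring
          _ ≤ 1 := by
              apply pow_le_one₀
              · nlinarith
              · nlinarith [sq_nonneg x]
      have h8 : 0 ≤ 1 - ((k : ℝ) + 1) * x := by linarith
      calc (1 - ((k : ℝ) + 1) * x) * (1 + ((k : ℝ) + 1) * x) * (1 - x) ^ (k + 1)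
          = (1 - ((k : ℝ) + 1) * x) * ((1 + ((k : ℝ) + 1) * x) * (1 - x) ^ (k + 1)) := by ring
        _ ≤ (1 - ((k : ℝ) + 1) * x) * 1 := mul_le_mul_of_nonneg_left hpr h8
        _ = 1 - ((k : ℝ) + 1) * x := mul_one _
  have hprod : 1 - ∑ p ∈ W.primeFactors, a p ≤ SS W (hh h) := by
    refine (E11_one_sub_prod _ _ ha0 ha1).trans ?_
    unfold SS
    exact Finset.prod_le_prod (fun p hp => by linarith [ha1 p hp]) hfac
  have hsum : ∑ p ∈ W.primeFactors, a p ≤ ((k : ℝ) + 1) ^ 2 / w + (k + 1) *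
      ∑ i : Fin (k + 1), ∑ l ∈ Finset.Ioi i, sig w (hh h i - hh h l).natAbs := by
    have h1 : ∀ p ∈ W.primeFactors, a p ≤ ((k : ℝ) + 1) ^ 2 * (1 / (p : ℝ) ^ 2) +
        ((k : ℝ) + 1) * ∑ i : Fin (k + 1), ∑ l ∈ Finset.Ioi i,
          (if p ∣ (hh h i - hh h l).natAbs then 1 / (p : ℝ) else 0) := by
      intro p _
      have hc0 : ∀ i l : Fin (k + 1), (0 : ℝ) ≤
          (if p ∣ (hh h i - hh h l).natAbs then 1 / (p : ℝ) else 0) := by
        intro i l
        split_ifs <;> positivity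
      have hq0 : (0 : ℝ) ≤ ((k : ℝ) + 1) ^ 2 * (1 / (p : ℝ) ^ 2) := by positivity
      simp only [ha]
      split_ifs with hex
      · obtain ⟨i, l, hil, hdvd⟩ := hex
        have h8 : 1 / (p : ℝ) ≤ ∑ l ∈ Finset.Ioi i,
            (if p ∣ (hh h i - hh h l).natAbs then 1 / (p : ℝ) else 0) := by
          have := Finset.single_le_sum (f := fun l : Fin (k + 1) =>
            (if p ∣ (hh h i - hh h l).natAbs then 1 / (p : ℝ) else 0))
            (fun l _ => hc0 i l) (Finset.mem_Ioi.2 hil)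
          simp only [if_pos hdvd] at this
          exact this
        have h9 := h8.trans (Finset.single_le_sum (f := fun i : Fin (k + 1) =>
          ∑ l ∈ Finset.Ioi i, (if p ∣ (hh h i - hh h l).natAbs then 1 / (p : ℝ) else 0))
          (fun i _ => Finset.sum_nonneg fun l _ => hc0 i l) (Finset.mem_univ i))
        have h10 := mul_le_mul_of_nonneg_left h9 hj0
        linarith
      · have : 0 ≤ ((k : ℝ) + 1) * ∑ i : Fin (k + 1), ∑ l ∈ Finset.Ioi i,
            (if p ∣ (hh h i - hh h l).natAbs then 1 / (p : ℝ) else 0) :=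
          mul_nonneg hj0 (Finset.sum_nonneg fun i _ => Finset.sum_nonneg fun l _ => hc0 i l)
        linarith
    refine (Finset.sum_le_sum h1).trans ?_
    rw [Finset.sum_add_distrib, ← Finset.mul_sum, ← Finset.mul_sum]
    refine add_le_add ?_ ?_
    · have h2 := sum_inv_sq_le W.primeFactors w hw1 hW
      have h3 : (0 : ℝ) ≤ ((k : ℝ) + 1) ^ 2 := by positivity
      refine (mul_le_mul_of_nonneg_left h2 h3).trans (le_of_eq ?_)
      ring
    · refine mul_le_mul_of_nonneg_left ?_ hj0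
      rw [Finset.sum_comm]
      refine Finset.sum_le_sum fun i _ => ?_
      rw [Finset.sum_comm]
      refine Finset.sum_le_sum fun l hl => ?_
      exact E11_sum_le_sig W w _ (E11_diff_ne h hinj (Finset.mem_Ioi.1 hl)) hW
  linarith

/-- Both bounds together. -/
theorem abs_SS_sub_one_le {k : ℕ} (W w : ℕ) (hw : 2 * (k + 1) ≤ w)
    (hW : ∀ p ∈ W.primeFactors, w < p) (h : Fin k → ℤ) (hinj : Function.Injective (hh h)) :
    |SS W (hh h) - 1| ≤ (((k : ℝ) + 1) ^ 2 / w + 2 * (k + 1) * ∑ i : Fin (k + 1),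
      ∑ l ∈ Finset.Ioi i, sig w (hh h i - hh h l).natAbs) * FF (2 * (k + 1)) h := by
  have h1 := SS_sub_one_le W w hw hW h hinj
  have h2 := one_sub_SS_le W w hw hW h hinj
  have h3 := one_le_FF (2 * (k + 1)) h
  set u : ℝ := ∑ i : Fin (k + 1), ∑ l ∈ Finset.Ioi i, sig w (hh h i - hh h l).natAbs with hu
  have hu0 : 0 ≤ u := by
    rw [hu]
    refine Finset.sum_nonneg fun i _ => Finset.sum_nonneg fun l _ => ?_
    unfold sig
    exact Finset.sum_nonneg fun p _ => by positivity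
  have hk0 : (0 : ℝ) ≤ (k : ℝ) + 1 := by positivity
  have hq0 : (0 : ℝ) ≤ ((k : ℝ) + 1) ^ 2 / w := by positivity
  have hku : 0 ≤ ((k : ℝ) + 1) * u := mul_nonneg hk0 hu0
  have hq : ((k : ℝ) + 1) ^ 2 / w ≤ ((k : ℝ) + 1) ^ 2 / w * FF (2 * (k + 1)) h :=
    le_mul_of_one_le_right hq0 h3
  have hku2 : ((k : ℝ) + 1) * u ≤ ((k : ℝ) + 1) * u * FF (2 * (k + 1)) h :=
    le_mul_of_one_le_right hku h3
  rw [abs_le]
  constructor
  · nlinarith
  · nlinarith

end Pool.Agent.Lib.MP_bae66e_nt.LL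
end

section

/-!
# E13: comparison of two levels of the model for a fixed tuple
-/

set_option autoImplicit false

open Finset

namespace Pool.Agent.Lib.MP_bae66e_nt.LL

private lemma E13_diff {k : ℕ} (Y W₀ W₁ : ℕ) (hc : Nat.Coprime W₀ W₁) (x : Fin (k + 1) → ℤ)
    (n b : ℤ) (hb : n ≡ b [ZMOD (W₀ : ℤ)]) :
    (∏ i, gW (W₀ * W₁) Y (n - x i)) - ∏ i, gW W₀ Y (n - x i)
      = if (∀ i, 1 ≤ n - x i ∧ n - x i ≤ (Y : ℤ)) then
          (∏ i, nu W₀ (b - x i)) * ((∏ i, nu W₁ (n - x i)) - 1) else 0 := by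
  by_cases h : ∀ i, 1 ≤ n - x i ∧ n - x i ≤ (Y : ℤ)
  · rw [if_pos h]
    have h1 : ∀ i ∈ (Finset.univ : Finset (Fin (k + 1))), gW (W₀ * W₁) Y (n - x i)
        = nu W₀ (b - x i) * nu W₁ (n - x i) := by
      intro i _
      unfold gW
      rw [if_pos (h i), nu_mul W₀ W₁ hc, nu_periodic W₀ (n - x i) (b - x i) (Int.ModEq.sub_right _ hb)]
    have h2 : ∀ i ∈ (Finset.univ : Finset (Fin (k + 1))), gW W₀ Y (n - x i)
        = nu W₀ (b - x i) := by
      intro i _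
      unfold gW
      rw [if_pos (h i), nu_periodic W₀ (n - x i) (b - x i) (Int.ModEq.sub_right _ hb)]
    rw [Finset.prod_congr rfl h1, Finset.prod_congr rfl h2, Finset.prod_mul_distrib]
    ring
  · rw [if_neg h]
    push Not at h
    obtain ⟨i, hi⟩ := h
    have hi' : ¬ (1 ≤ n - x i ∧ n - x i ≤ (Y : ℤ)) := by
      rintro ⟨ha, hb⟩
      exact absurd (hi ha) (not_lt.2 hb)
    rw [Finset.prod_eq_zero (Finset.mem_univ i) (by unfold gW; rw [if_neg hi']),
      Finset.prod_eq_zero (Finset.mem_univ i) (by unfold gW; rw [if_neg hi']), sub_zero]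

/-- Let `W₀`, `W₁` be coprime and squarefree. For every tuple `h`,
`DD Y W₀ (gW (W₀ W₁) Y) (gW W₀ Y) h ≤ Y * SS W₀ (hh h) * |SS W₁ (hh h) - 1| + 8 (W₀ W₁)^{k+2}`.

PROOF. The product `∏_i gW W Y (n - h_i)` vanishes unless `n - h_i ∈ [1, Y]` for all `i`, i.e. unless
`n ∈ [α, β]`, `α = max_i (1 + hh h i) ≥ 1`, `β = min_i (Y + hh h i) ≤ Y` (recall `hh h 0 = 0`). If
`α > β` everything is `0`. Let `f₁(n) = ∏_i nu W₁ (n - h_i)`, periodic modulo `W₁`,
`0 ≤ f₁ ≤ W₁^{k+1}`, and `P_b = ∏_i nu W₀ (b - h_i)`. By `nu_mul` and `nu_periodic`, for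
`n ≡ b (W₀)` in `[α, β]`: `∏ gW (W₀ W₁) Y (n - h_i) - ∏ gW W₀ Y (n - h_i) = P_b (f₁(n) - 1)`. By
`abs_sum_class_sub_le` (for `f₁ - 1`, `M = W₁^{k+1} + 1`) and `sum_nu_eq_SS`
(`∑_{c < W₁} f₁(c) = W₁ SS W₁ (hh h)`):
`|∑_{n ∈ [α, β], n ≡ b} (f₁(n) - 1)| ≤ (Y / W₀) |SS W₁ - 1| + 4 W₁ (W₁^{k+1} + 1)`.
Multiply by `P_b ≥ 0` and sum over `b`: `∑_b P_b = W₀ SS W₀ (hh h)`, and
`∑_b P_b ≤ W₀ W₀^{k+1}`, so the error is at most `W₀^{k+2} 4 W₁ (W₁^{k+1} + 1) ≤ 8 (W₀ W₁)^{k+2}`. -/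
theorem DD_model_le {k : ℕ} (Y W₀ W₁ : ℕ) (h0 : Squarefree W₀) (h1 : Squarefree W₁)
    (hc : Nat.Coprime W₀ W₁) (h : Fin k → ℤ) :
    DD Y W₀ (gW (W₀ * W₁) Y) (gW W₀ Y) h
      ≤ Y * SS W₀ (hh h) * |SS W₁ (hh h) - 1| + 8 * ((W₀ * W₁ : ℕ) : ℝ) ^ (k + 2) := by
  have hW₀ : 1 ≤ W₀ := Nat.one_le_iff_ne_zero.2 (fun e => by subst e; exact not_squarefree_zero h0)
  have hW₁ : 1 ≤ W₁ := Nat.one_le_iff_ne_zero.2 (fun e => by subst e; exact not_squarefree_zero h1)
  have hW₀R : (1 : ℝ) ≤ W₀ := by exact_mod_cast hW₀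
  have hW₁R : (1 : ℝ) ≤ W₁ := by exact_mod_cast hW₁
  set x : Fin (k + 1) → ℤ := hh h with hx
  have hx0 : x 0 = 0 := by rw [hx]; rfl
  set f₁ : ℤ → ℝ := fun n => ∏ i, nu W₁ (n - x i) with hf₁
  set P : ℕ → ℝ := fun b => ∏ i, nu W₀ ((b : ℤ) - x i) with hP
  set α : ℤ := Finset.univ.sup' Finset.univ_nonempty (fun i => 1 + x i) with hα
  set β : ℤ := Finset.univ.inf' Finset.univ_nonempty (fun i => (Y : ℤ) + x i) with hβ
  have hα1 : 1 ≤ α := by
    have := Finset.le_sup' (fun i => 1 + x i) (Finset.mem_univ (0 : Fin (k + 1)))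
    simp only [hx0, add_zero] at this
    exact this
  have hβY : β ≤ Y := by
    have := Finset.inf'_le (fun i => (Y : ℤ) + x i) (Finset.mem_univ (0 : Fin (k + 1)))
    simp only [hx0, add_zero] at this
    exact this
  have hmem : ∀ n : ℤ, (∀ i, 1 ≤ n - x i ∧ n - x i ≤ (Y : ℤ)) ↔ (α ≤ n ∧ n ≤ β) := by
    intro n
    rw [hα, hβ, Finset.sup'_le_iff, Finset.le_inf'_iff]
    constructor
    · intro hn
      exact ⟨fun i _ => by have := (hn i).1; omega, fun i _ => by have := (hn i).2; omega⟩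
    · rintro ⟨ha, hb⟩ i
      exact ⟨by have := ha i (Finset.mem_univ i); omega, by have := hb i (Finset.mem_univ i); omega⟩
  have hP0 : ∀ b, 0 ≤ P b := fun b => Finset.prod_nonneg (fun i _ => nu_nonneg _ _)
  have hPle : ∀ b, P b ≤ (W₀ : ℝ) ^ (k + 1) := by
    intro b
    refine (Finset.prod_le_prod (fun i _ => nu_nonneg _ _) (fun i _ => nu_le W₀ hW₀ _)).trans ?_
    rw [Finset.prod_const, Finset.card_univ, Fintype.card_fin]
  have hf0 : ∀ n, 0 ≤ f₁ n := fun n => Finset.prod_nonneg (fun i _ => nu_nonneg _ _)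
  have hfle : ∀ n, f₁ n ≤ (W₁ : ℝ) ^ (k + 1) := by
    intro n
    refine (Finset.prod_le_prod (fun i _ => nu_nonneg _ _) (fun i _ => nu_le W₁ hW₁ _)).trans ?_
    rw [Finset.prod_const, Finset.card_univ, Fintype.card_fin]
  have hfper : ∀ n m : ℤ, n ≡ m [ZMOD (W₁ : ℤ)] → f₁ n - 1 = f₁ m - 1 := by
    intro n m hnm
    simp only [hf₁]
    congr 1
    apply Finset.prod_congr rfl
    intro i _
    exact nu_periodic W₁ _ _ (Int.ModEq.sub_right _ hnm)
  set M : ℝ := (W₁ : ℝ) ^ (k + 1) + 1 with hM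
  have hfM : ∀ n, |f₁ n - 1| ≤ M := by
    intro n
    rw [abs_le, hM]
    constructor
    · have := hf0 n; have : (0:ℝ) ≤ (W₁ : ℝ) ^ (k + 1) := by positivity
      linarith [hf0 n]
    · linarith [hfle n]
  have hM0 : 0 ≤ M := by positivity
  -- the inner sums
  have hinner : ∀ b ∈ Finset.range W₀,
      |∑ n ∈ (Finset.Icc (1 : ℤ) (Y : ℤ)).filter (fun n => n ≡ (b : ℤ) [ZMOD (W₀ : ℤ)]),
        ((∏ i, gW (W₀ * W₁) Y (n - x i)) - ∏ i, gW W₀ Y (n - x i))|
      ≤ P b * ((Y : ℝ) / W₀ * |SS W₁ x - 1| + 4 * W₁ * M) := by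
    intro b _
    have e1 : ∑ n ∈ (Finset.Icc (1 : ℤ) (Y : ℤ)).filter (fun n => n ≡ (b : ℤ) [ZMOD (W₀ : ℤ)]),
        ((∏ i, gW (W₀ * W₁) Y (n - x i)) - ∏ i, gW W₀ Y (n - x i))
        = P b * ∑ n ∈ (Finset.Icc α β).filter (fun n => n ≡ (b : ℤ) [ZMOD (W₀ : ℤ)]),
          (f₁ n - 1) := by
      rw [Finset.mul_sum]
      rw [Finset.sum_congr rfl (fun n hn => E13_diff Y W₀ W₁ hc x n b (Finset.mem_filter.1 hn).2)]
      rw [← Finset.sum_filter]
      apply Finset.sum_congr _ (fun _ _ => rfl)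
      ext n
      simp only [Finset.mem_filter, Finset.mem_Icc, hmem]
      constructor
      · rintro ⟨⟨_, hb⟩, hab⟩
        exact ⟨hab, hb⟩
      · rintro ⟨hab, hb⟩
        exact ⟨⟨⟨by omega, by omega⟩, hb⟩, hab⟩
    rw [e1, abs_mul, abs_of_nonneg (hP0 b)]
    apply mul_le_mul_of_nonneg_left _ (hP0 b)
    have hpos : 0 ≤ (Y : ℝ) / W₀ * |SS W₁ x - 1| + 4 * W₁ * M := by positivity
    by_cases hab : α ≤ β + 1
    · have h2 := abs_sum_class_sub_le W₀ W₁ hW₀ hW₁ hc (fun n => f₁ n - 1) hfper M hfM b α β hab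
      have h3 : ∑ c ∈ Finset.range W₁, (f₁ (c : ℤ) - 1) = W₁ * (SS W₁ x - 1) := by
        rw [Finset.sum_sub_distrib]
        simp only [hf₁]
        rw [sum_nu_eq_SS W₁ h1 x]
        simp
        ring
      have h4 : ((β - α + 1 : ℤ) : ℝ) ≤ Y := by
        have : β - α + 1 ≤ (Y : ℤ) := by omega
        exact_mod_cast this
      have h5 : (0 : ℝ) ≤ ((β - α + 1 : ℤ) : ℝ) := by
        have : 0 ≤ β - α + 1 := by omega
        exact_mod_cast this
      have h6 : |((β - α + 1 : ℤ) : ℝ) / (W₀ * W₁) * ∑ c ∈ Finset.range W₁, (f₁ (c : ℤ) - 1)|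
          ≤ (Y : ℝ) / W₀ * |SS W₁ x - 1| := by
        rw [h3]
        have e : ((β - α + 1 : ℤ) : ℝ) / (W₀ * W₁) * (W₁ * (SS W₁ x - 1))
            = ((β - α + 1 : ℤ) : ℝ) / W₀ * (SS W₁ x - 1) := by
          field_simp
        rw [e, abs_mul, abs_of_nonneg (by positivity)]
        apply mul_le_mul_of_nonneg_right _ (abs_nonneg _)
        gcongr
      have h7 := abs_sub_abs_le_abs_sub
        (∑ n ∈ (Finset.Icc α β).filter (fun n => n ≡ (b : ℤ) [ZMOD (W₀ : ℤ)]), (f₁ n - 1))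
        (((β - α + 1 : ℤ) : ℝ) / (W₀ * W₁) * ∑ c ∈ Finset.range W₁, (f₁ (c : ℤ) - 1))
      linarith
    · have : Finset.Icc α β = ∅ := by
        apply Finset.Icc_eq_empty
        omega
      rw [this]
      simpa using hpos
  unfold DD
  refine (Finset.sum_le_sum hinner).trans ?_
  rw [← Finset.sum_mul]
  have hsum : ∑ b ∈ Finset.range W₀, P b = W₀ * SS W₀ x := sum_nu_eq_SS W₀ h0 x
  have hsumle : ∑ b ∈ Finset.range W₀, P b ≤ (W₀ : ℝ) ^ (k + 2) := by
    refine (Finset.sum_le_sum (fun b _ => hPle b)).trans ?_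
    rw [Finset.sum_const, Finset.card_range, nsmul_eq_mul]
    apply le_of_eq; ring
  rw [mul_add]
  apply add_le_add
  · rw [hsum]
    apply le_of_eq
    field_simp
  · calc (∑ b ∈ Finset.range W₀, P b) * (4 * W₁ * M)
        ≤ (W₀ : ℝ) ^ (k + 2) * (4 * W₁ * M) := mul_le_mul_of_nonneg_right hsumle (by positivity)
      _ ≤ (W₀ : ℝ) ^ (k + 2) * (4 * W₁ * (2 * (W₁ : ℝ) ^ (k + 1))) := by
          have : (1 : ℝ) ≤ (W₁ : ℝ) ^ (k + 1) := one_le_pow₀ hW₁R
          have hM2 : M ≤ 2 * (W₁ : ℝ) ^ (k + 1) := by rw [hM]; linarith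
          gcongr
      _ = 8 * ((W₀ * W₁ : ℕ) : ℝ) ^ (k + 2) := by
          push_cast
          rw [mul_pow]; ring

end Pool.Agent.Lib.MP_bae66e_nt.LL
end

section

/-!
# E14: comparison of two levels of the model on average
-/

set_option autoImplicit false

open Finset

namespace Pool.Agent.Lib.MP_bae66e_nt.LL

/-- `primorial w' = primorial w * W₁` with `W₁` squarefree, coprime to `primorial w`, all of whose
prime factors are `> w` (`W₁` is the product of the primes in `(w, w']`). -/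
lemma primorial_split (w w' : ℕ) (h : w ≤ w') : ∃ W₁ : ℕ, primorial w' = primorial w * W₁ ∧
    Squarefree W₁ ∧ Nat.Coprime (primorial w) W₁ ∧ ∀ p ∈ W₁.primeFactors, w < p := by
  obtain ⟨W₁, hW₁⟩ := primorial_dvd_primorial h
  have hsq : Squarefree (primorial w * W₁) := by
    rw [← hW₁]; exact _root_.squarefree_primorial w'
  have hco : Nat.Coprime (primorial w) W₁ := Nat.coprime_of_squarefree_mul hsq
  refine ⟨W₁, hW₁, hsq.of_mul_right, hco, fun p hp => ?_⟩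
  have hpp := Nat.prime_of_mem_primeFactors hp
  have hpd := Nat.dvd_of_mem_primeFactors hp
  by_contra hlt
  have h1 : p ∣ primorial w := hpp.dvd_primorial_iff.2 (not_lt.1 hlt)
  exact hpp.one_lt.ne' (Nat.eq_one_of_dvd_coprimes hco h1 hpd)

lemma squarefree_primorial (w : ℕ) : Squarefree (primorial w) := by
  exact _root_.squarefree_primorial w

private lemma E14_sig_nonneg (w d : ℕ) : 0 ≤ sig w d :=
  Finset.sum_nonneg (fun _ _ => by positivity)

/-- There is `C = C(k)`: for `w ≥ 2 (k + 1)`, `w' ≥ w` and all large `Y`,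
`∑_{h ∈ shifts, hh h injective} FF(h) DD(h) ≤ (C / √w) Y^{k+1}` for the models of the levels `w'`, `w`
and `W₀ = primorial w`.

PROOF. Let `j = k + 1`. By `DD_model_le`, `SS_le_FF`, `abs_SS_sub_one_le`:
`DD ≤ Y FF(j) (j²/w + 2 j ∑_{i<l} sig) FF(2j) + 8 W^{k+2}`, `W = primorial w'`. Multiply by `FF(j)`:
`FF(j) FF(j) FF(2j) = FF(4j)` (`FF_mul`). Sum over `h` (drop the injectivity, all terms are
nonnegative): `∑ FF(4j) ≤ C₁ Y^k`; by Cauchy-Schwarz `∑ FF(4j) sig ≤ (∑ FF(8j))^{1/2} (∑ sig²)^{1/2}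
≤ (C₂ Y^k)^{1/2} (8 3^k Y^k / w)^{1/2}` for each of the at most `j²` pairs; and
`8 W^{k+2} ∑ FF(j) ≤ 8 W^{k+2} C₃ Y^k ≤ Y^{k+1} / √w` for large `Y`. Note `1/w ≤ 1/√w`. -/
theorem main_two (k : ℕ) : ∃ C : ℝ, 1 ≤ C ∧ ∀ w : ℕ, 2 * (k + 1) ≤ w → ∀ w' : ℕ, w ≤ w' →
    ∃ Y₀ : ℕ, ∀ Y : ℕ, Y₀ ≤ Y →
      ∑ h ∈ (shifts k Y).filter (fun h => Function.Injective (hh h)),
        FF (k + 1) h * DD Y (primorial w) (gW (primorial w') Y) (gW (primorial w) Y) h
        ≤ C / Real.sqrt w * (Y : ℝ) ^ (k + 1) := by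
  obtain ⟨C₁, hC₁, hFF₁⟩ := sum_FF_le k (4 * (k + 1))
  obtain ⟨C₂, hC₂, hFF₂⟩ := sum_FF_le k (8 * (k + 1))
  obtain ⟨C₃, hC₃, hFF₃⟩ := sum_FF_le k (k + 1)
  have hC₁0 : 0 ≤ C₁ := by linarith
  have hC₂0 : 0 ≤ C₂ := by linarith
  have hC₃0 : 0 ≤ C₃ := by linarith
  set j : ℝ := (k : ℝ) + 1 with hj
  have hj1 : 1 ≤ j := by
    have : (0 : ℝ) ≤ k := Nat.cast_nonneg k
    linarith
  set S : ℝ := Real.sqrt (C₂ * (8 * 3 ^ k)) with hS
  have hS0 : 0 ≤ S := Real.sqrt_nonneg _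
  refine ⟨1 + j ^ 2 * C₁ + 2 * j * (j * j * S), ?_, fun w hw w' hww' => ?_⟩
  · have : 0 ≤ j ^ 2 * C₁ := by positivity
    have : 0 ≤ 2 * j * (j * j * S) := by positivity
    linarith
  obtain ⟨W₁, hW, hsqW₁, hcop, hpr⟩ := primorial_split w w' hww'
  set W : ℕ := primorial w' with hWdef
  have hw1 : 1 ≤ w := by omega
  have hwR : (1 : ℝ) ≤ w := by exact_mod_cast hw1
  have hsw1 : 1 ≤ Real.sqrt w := by rw [Real.one_le_sqrt]; exact hwR
  have hsw0 : 0 < Real.sqrt w := by linarith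
  refine ⟨⌈8 * (W : ℝ) ^ (k + 2) * C₃ * Real.sqrt w⌉₊ + 1, fun Y hY => ?_⟩
  have hY1 : 1 ≤ Y := by omega
  have hYR : (1 : ℝ) ≤ Y := by exact_mod_cast hY1
  have hY0 : (0 : ℝ) ≤ Y := by linarith
  have hYbig : 8 * (W : ℝ) ^ (k + 2) * C₃ * Real.sqrt w ≤ Y := by
    refine (Nat.le_ceil _).trans ?_
    exact_mod_cast (by omega : ⌈8 * (W : ℝ) ^ (k + 2) * C₃ * Real.sqrt w⌉₊ ≤ Y)
  -- the pointwise bound
  set G : (Fin k → ℤ) → ℝ := fun h => (Y : ℝ) * (j ^ 2 / w) * FF (4 * (k + 1)) h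
    + (Y : ℝ) * (2 * j) * (∑ i : Fin (k + 1), ∑ l ∈ Finset.Ioi i,
        FF (4 * (k + 1)) h * sig w (hh h i - hh h l).natAbs)
    + 8 * (W : ℝ) ^ (k + 2) * FF (k + 1) h with hG
  have hG0 : ∀ h, 0 ≤ G h := by
    intro h
    have h1 := FF_nonneg (4 * (k + 1)) h
    have h2 := FF_nonneg (k + 1) h
    have h3 : 0 ≤ ∑ i : Fin (k + 1), ∑ l ∈ Finset.Ioi i,
        FF (4 * (k + 1)) h * sig w (hh h i - hh h l).natAbs :=
      Finset.sum_nonneg (fun i _ => Finset.sum_nonneg (fun l _ =>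
        mul_nonneg h1 (E14_sig_nonneg _ _)))
    rw [hG]
    positivity
  have hpt : ∀ h ∈ (shifts k Y).filter (fun h => Function.Injective (hh h)),
      FF (k + 1) h * DD Y (primorial w) (gW W Y) (gW (primorial w) Y) h ≤ G h := by
    intro h hh'
    have hinj := (Finset.mem_filter.1 hh').2
    have h1 := DD_model_le Y (primorial w) W₁ (_root_.squarefree_primorial w) hsqW₁ hcop h
    rw [← hW] at h1
    have h2 := SS_le_FF (primorial w) h hinj
    have h3 := abs_SS_sub_one_le W₁ w hw hpr h hinj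
    have hF0 := FF_nonneg (k + 1) h
    have hF2 := FF_nonneg (2 * (k + 1)) h
    set T : ℝ := ∑ i : Fin (k + 1), ∑ l ∈ Finset.Ioi i, sig w (hh h i - hh h l).natAbs with hT
    have hT0 : 0 ≤ T := Finset.sum_nonneg (fun i _ => Finset.sum_nonneg (fun l _ =>
      E14_sig_nonneg _ _))
    have h4 : FF (k + 1) h * FF (k + 1) h * FF (2 * (k + 1)) h = FF (4 * (k + 1)) h := by
      rw [FF_mul, FF_mul]
      congr 1
      ring
    have h5 : (Y : ℝ) * SS (primorial w) (hh h) * |SS W₁ (hh h) - 1|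
        ≤ (Y : ℝ) * FF (k + 1) h * ((j ^ 2 / w + 2 * j * T) * FF (2 * (k + 1)) h) := by
      apply mul_le_mul (mul_le_mul_of_nonneg_left h2 hY0) h3 (abs_nonneg _) (by positivity)
    calc FF (k + 1) h * DD Y (primorial w) (gW W Y) (gW (primorial w) Y) h
        ≤ FF (k + 1) h * ((Y : ℝ) * FF (k + 1) h * ((j ^ 2 / w + 2 * j * T) * FF (2 * (k + 1)) h)
          + 8 * (W : ℝ) ^ (k + 2)) := by
          apply mul_le_mul_of_nonneg_left _ hF0
          linarith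
      _ = (Y : ℝ) * (j ^ 2 / w) * (FF (k + 1) h * FF (k + 1) h * FF (2 * (k + 1)) h)
          + (Y : ℝ) * (2 * j) * (FF (k + 1) h * FF (k + 1) h * FF (2 * (k + 1)) h * T)
          + 8 * (W : ℝ) ^ (k + 2) * FF (k + 1) h := by ring
      _ = G h := by
          rw [h4, hG, hT, Finset.mul_sum]
          simp only [Finset.mul_sum]
  refine (Finset.sum_le_sum hpt).trans ?_
  refine (Finset.sum_le_sum_of_subset_of_nonneg (Finset.filter_subset _ _)
    (fun h _ _ => hG0 h)).trans ?_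
  -- the three sums
  have hA : ∑ h ∈ shifts k Y, FF (4 * (k + 1)) h ≤ C₁ * (Y : ℝ) ^ k := hFF₁ Y hY1
  have hCC : ∑ h ∈ shifts k Y, FF (k + 1) h ≤ C₃ * (Y : ℝ) ^ k := hFF₃ Y hY1
  have hB : ∀ i : Fin (k + 1), ∀ l ∈ Finset.Ioi i,
      ∑ h ∈ shifts k Y, FF (4 * (k + 1)) h * sig w (hh h i - hh h l).natAbs
        ≤ S / Real.sqrt w * (Y : ℝ) ^ k := by
    intro i l hl
    have hil := Finset.mem_Ioi.1 hl
    have h1 := Finset.sum_mul_sq_le_sq_mul_sq (shifts k Y) (fun h => FF (4 * (k + 1)) h)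
      (fun h => sig w (hh h i - hh h l).natAbs)
    have h2 : ∑ h ∈ shifts k Y, (FF (4 * (k + 1)) h) ^ 2 ≤ C₂ * (Y : ℝ) ^ k := by
      refine le_trans (le_of_eq ?_) (hFF₂ Y hY1)
      apply Finset.sum_congr rfl
      intro h _
      rw [FF_pow]
      congr 1
      ring
    have h3 := sum_sig_shifts_le k w Y hw1 hY1 i l hil
    apply le_of_abs_le
    apply abs_le_of_sq_le_sq _ (by positivity)
    refine h1.trans ?_
    have e1 : (S / Real.sqrt w * (Y : ℝ) ^ k) ^ 2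
        = (C₂ * (Y : ℝ) ^ k) * (8 * 3 ^ k * (Y : ℝ) ^ k / w) := by
      rw [mul_pow, div_pow, hS, Real.sq_sqrt (by positivity), Real.sq_sqrt (by linarith)]
      ring
    rw [e1]
    exact mul_le_mul h2 h3 (Finset.sum_nonneg (fun _ _ => by positivity)) (by positivity)
  have hBsum : ∑ h ∈ shifts k Y, ∑ i : Fin (k + 1), ∑ l ∈ Finset.Ioi i,
      FF (4 * (k + 1)) h * sig w (hh h i - hh h l).natAbs
      ≤ j * j * (S / Real.sqrt w * (Y : ℝ) ^ k) := by
    rw [Finset.sum_comm]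
    have h1 : ∀ i ∈ (Finset.univ : Finset (Fin (k + 1))),
        ∑ h ∈ shifts k Y, ∑ l ∈ Finset.Ioi i,
          FF (4 * (k + 1)) h * sig w (hh h i - hh h l).natAbs
        ≤ j * (S / Real.sqrt w * (Y : ℝ) ^ k) := by
      intro i _
      rw [Finset.sum_comm]
      refine (Finset.sum_le_sum (hB i)).trans ?_
      rw [Finset.sum_const, nsmul_eq_mul]
      apply mul_le_mul_of_nonneg_right _ (by positivity)
      have : (Finset.Ioi i).card ≤ k + 1 := by
        refine (Finset.card_le_univ _).trans ?_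
        simp
      rw [hj]
      exact_mod_cast this
    refine (Finset.sum_le_sum h1).trans ?_
    rw [Finset.sum_const, Finset.card_univ, Fintype.card_fin, nsmul_eq_mul]
    push_cast
    apply le_of_eq
    rw [hj]; ring
  have hsum : ∑ h ∈ shifts k Y, G h
      = (Y : ℝ) * (j ^ 2 / w) * ∑ h ∈ shifts k Y, FF (4 * (k + 1)) h
        + (Y : ℝ) * (2 * j) * ∑ h ∈ shifts k Y, ∑ i : Fin (k + 1), ∑ l ∈ Finset.Ioi i,
            FF (4 * (k + 1)) h * sig w (hh h i - hh h l).natAbs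
        + 8 * (W : ℝ) ^ (k + 2) * ∑ h ∈ shifts k Y, FF (k + 1) h := by
    rw [hG]
    simp only [Finset.sum_add_distrib]
    rw [← Finset.mul_sum, ← Finset.mul_sum, ← Finset.mul_sum]
  rw [hsum]
  have t1 : (Y : ℝ) * (j ^ 2 / w) * ∑ h ∈ shifts k Y, FF (4 * (k + 1)) h
      ≤ j ^ 2 * C₁ / Real.sqrt w * (Y : ℝ) ^ (k + 1) := by
    have hle : j ^ 2 / (w : ℝ) ≤ j ^ 2 / Real.sqrt w := by
      apply div_le_div_of_nonneg_left (by positivity) hsw0
      have := Real.sq_sqrt (show (0:ℝ) ≤ w by linarith)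
      nlinarith
    calc (Y : ℝ) * (j ^ 2 / w) * ∑ h ∈ shifts k Y, FF (4 * (k + 1)) h
        ≤ (Y : ℝ) * (j ^ 2 / Real.sqrt w) * (C₁ * (Y : ℝ) ^ k) := by
          apply mul_le_mul (mul_le_mul_of_nonneg_left hle hY0) hA
            (Finset.sum_nonneg (fun _ _ => FF_nonneg _ _)) (by positivity)
      _ = j ^ 2 * C₁ / Real.sqrt w * (Y : ℝ) ^ (k + 1) := by ring
  have t2 : (Y : ℝ) * (2 * j) * ∑ h ∈ shifts k Y, ∑ i : Fin (k + 1), ∑ l ∈ Finset.Ioi i,
            FF (4 * (k + 1)) h * sig w (hh h i - hh h l).natAbs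
      ≤ 2 * j * (j * j * S) / Real.sqrt w * (Y : ℝ) ^ (k + 1) := by
    refine (mul_le_mul_of_nonneg_left hBsum (by positivity)).trans (le_of_eq ?_)
    ring
  have t3 : 8 * (W : ℝ) ^ (k + 2) * ∑ h ∈ shifts k Y, FF (k + 1) h
      ≤ 1 / Real.sqrt w * (Y : ℝ) ^ (k + 1) := by
    have e2 : 8 * (W : ℝ) ^ (k + 2) * C₃ ≤ Y / Real.sqrt w := by
      rw [le_div_iff₀ hsw0]; exact hYbig
    calc 8 * (W : ℝ) ^ (k + 2) * ∑ h ∈ shifts k Y, FF (k + 1) h
        ≤ 8 * (W : ℝ) ^ (k + 2) * (C₃ * (Y : ℝ) ^ k) :=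
          mul_le_mul_of_nonneg_left hCC (by positivity)
      _ = (8 * (W : ℝ) ^ (k + 2) * C₃) * (Y : ℝ) ^ k := by ring
      _ ≤ (Y / Real.sqrt w) * (Y : ℝ) ^ k := mul_le_mul_of_nonneg_right e2 (by positivity)
      _ = 1 / Real.sqrt w * (Y : ℝ) ^ (k + 1) := by ring
  have e3 : (1 + j ^ 2 * C₁ + 2 * j * (j * j * S)) / Real.sqrt w * (Y : ℝ) ^ (k + 1)
      = 1 / Real.sqrt w * (Y : ℝ) ^ (k + 1) + j ^ 2 * C₁ / Real.sqrt w * (Y : ℝ) ^ (k + 1)
        + 2 * j * (j * j * S) / Real.sqrt w * (Y : ℝ) ^ (k + 1) := by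
    ring
  rw [e3]
  linarith

end Pool.Agent.Lib.MP_bae66e_nt.LL
end

section

/-!
# LP/E3a: cross correlations of the primes and of the model

`pv y n = 1` for a prime `n ∈ [1, y]`; `vv W y n = gW W y n / log y`.
-/

set_option autoImplicit false

open Finset

namespace Pool.Agent.Lib.MP_bae66e_nt.LP

open Pool.Agent.Lib.MP_bae66e_nt.LL

private lemma E3a_lt (Y y y' : ℕ) (hY : 2 ≤ Y) (hy : y ≤ Y) (s s' : ℤ) (hs : s < s') :
    ∑ n ∈ Finset.Icc (1 : ℤ) (Y : ℤ), pv y (n + s) * pv y' (n + s')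
      ≤ 2000 * Y / ((rho (s' - s).natAbs) ^ 2 * (Real.log Y) ^ 2) := by
  classical
  have hD : 1 ≤ (s' - s).natAbs := by omega
  refine le_trans ?_ (card_pairsN_le (s' - s).natAbs Y hD hY)
  have h1 : ∀ n ∈ Finset.Icc (1 : ℤ) (Y : ℤ), pv y (n + s) * pv y' (n + s') ≤
      if (1 ≤ n + s ∧ (n + s).toNat ∈ pairsN (s' - s).natAbs Y) then (1 : ℝ) else 0 := by
    intro n _
    unfold pv
    by_cases h : 1 ≤ n + s ∧ n + s ≤ (y : ℤ) ∧ (n + s).toNat.Prime
    · by_cases h' : 1 ≤ n + s' ∧ n + s' ≤ (y' : ℤ) ∧ (n + s').toNat.Prime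
      · rw [if_pos h, if_pos h', one_mul, if_pos]
        refine ⟨h.1, ?_⟩
        unfold pairsN
        rw [Finset.mem_filter, Finset.mem_Ioc]
        refine ⟨by omega, h.2.2, ?_⟩
        have e : 1 * (n + s).toNat + (s' - s).natAbs = (n + s').toNat := by omega
        rw [e]
        exact h'.2.2
      · rw [if_neg h', mul_zero]
        split_ifs <;> norm_num
    · rw [if_neg h, zero_mul]
      split_ifs <;> norm_num
  refine (Finset.sum_le_sum h1).trans ?_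
  rw [← Finset.sum_filter, Finset.sum_const, nsmul_eq_mul, mul_one]
  have h2 : ((Finset.Icc (1 : ℤ) (Y : ℤ)).filter
      (fun n => 1 ≤ n + s ∧ (n + s).toNat ∈ pairsN (s' - s).natAbs Y)).card ≤
      (pairsN (s' - s).natAbs Y).card := by
    apply Finset.card_le_card_of_injOn (fun n => (n + s).toNat)
    · intro n hn
      rw [Finset.mem_coe, Finset.mem_filter] at hn
      exact hn.2.2
    · intro n hn m hm hnm
      rw [Finset.mem_coe, Finset.mem_filter] at hn hm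
      have e1 := hn.2.1
      have e2 := hm.2.1
      simp only at hnm
      omega
  exact_mod_cast h2

/-- Two primes at distance `e ≠ 0`: for integers `s`, `t` with `s - t = e`... Precisely: for `Y ≥ 2`,
`y, y' ≤ Y`, integers `s`, `s'` with `s' ≠ s`, the number of `n ∈ [1, Y]` such that `n + s` is a prime
in `[1, y]` and `n + s'` is a prime in `[1, y']` is at most `2000 Y / (ρ(|s' - s|) log Y)²`.

PROOF. Let `s < s'` (otherwise exchange). `n ↦ (n + s)` injects into `pairsN (s' - s) Y`; use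
`card_pairsN_le`. -/
lemma sum_pv_pv_le (Y y y' : ℕ) (hY : 2 ≤ Y) (hy : y ≤ Y) (hy' : y' ≤ Y) (s s' : ℤ) (hs : s ≠ s') :
    ∑ n ∈ Finset.Icc (1 : ℤ) (Y : ℤ), pv y (n + s) * pv y' (n + s')
      ≤ 2000 * Y / ((rho (s' - s).natAbs) ^ 2 * (Real.log Y) ^ 2) := by
  rcases lt_or_gt_of_ne hs with h | h
  · exact E3a_lt Y y y' hY hy s s' h
  · have h1 := E3a_lt Y y' y hY hy' s' s h
    have e1 : (s - s').natAbs = (s' - s).natAbs := by omega
    rw [e1] at h1
    refine le_trans (le_of_eq ?_) h1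
    exact Finset.sum_congr rfl fun n _ => mul_comm _ _

end Pool.Agent.Lib.MP_bae66e_nt.LP
end
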