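import Pool.Agent.Lib.MP_bae66e_nt.Mg.G043
import Pool.Agent.Lib.MP_bae66e_nt.Mg.G042
import Pool.Agent.Lib.MP_bae66e_nt.Mg.G046
import Pool.Agent.Lib.MP_bae66e_nt.Mg.G045
import Pool.Agent.Lib.MP_bae66e_nt.Mg.G041

section

/-!
# C03: the defect in Jensen's inequality
-/

set_option autoImplicit false

open Finset

namespace Pool.Agent.Lib.MP_bae66e_nt.LL

/-- One class `a` modulo a squarefree `W`, with `μ = t SP W a`: for `t > 0`, `ε > 0` there are
`δ > 0`, `N₀` such that for `X, y ≥ N₀` with `y ≤ (t + δ) log X log y`: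
`(1/4) exp(-μ) ∑_{m ∈ clX} min((λ(m) - μ)², 1) ≤ ∑_{m ∈ clX} exp(-λ(m)) - (X/W) exp(-μ) + ε X/W`.

PROOF. By `exp_neg_ge` with `u = λ - μ`: `exp(-λ) ≥ exp(-μ) (1 - (λ - μ) + min((λ-μ)², 1)/4)`. Sum
over the class, `n = #clX ∈ [X/W - 1, X/W + 1]`:
`∑ exp(-λ) ≥ exp(-μ) (n - (∑ λ - n μ)) + (1/4) exp(-μ) ∑ min(…)`. By `sum_lam_class_le'` (with
`C₀ = t + 1`, `δ ≤ 1`), `∑ λ ≤ (X/W)((1 + δ)(t + δ) SP + δ)`, so `∑ λ - n μ ≤
(X/W)(((1 + δ)(t + δ) - t) SP + δ) + μ`, which is `≤ (ε/3) X/W` for small `δ` and large `X`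
(`SP ≤ W`); and `(X/W - n) exp(-μ) ≤ 1 ≤ (ε/3) X/W`. -/
lemma defect_class (W : ℕ) (hW : Squarefree W) (a : ℤ) (t ε : ℝ) (ht : 0 < t) (hε : 0 < ε) :
    ∃ δ : ℝ, 0 < δ ∧ ∃ N₀ : ℕ, ∀ X : ℕ, N₀ ≤ X → ∀ y : ℕ, N₀ ≤ y →
      (y : ℝ) ≤ (t + δ) * Real.log X * Real.log y →
      1 / 4 * Real.exp (-(t * SP W a)) *
        ∑ m ∈ clX X W a, min ((lamQ W y (QQ 0 X) m - t * SP W a) ^ 2) 1
        ≤ (∑ m ∈ clX X W a, Real.exp (-lamQ W y (QQ 0 X) m))
          - (X : ℝ) / W * Real.exp (-(t * SP W a)) + ε * (X / W) := by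
  have hW1 : 1 ≤ W := Nat.one_le_iff_ne_zero.mpr hW.ne_zero
  have hWr : (0 : ℝ) < W := by exact_mod_cast hW1
  have hS0 : 0 ≤ SP W a := SP_nonneg W a
  have hSW : SP W a ≤ W := SP_le W hW a
  set S : ℝ := SP W a with hS
  have hSdef : SS W (![0, a] : Fin 2 → ℤ) = S := rfl
  set B : ℝ := 3 * ((t + 2) * W + 1) with hB
  have hB0 : 0 < B := by positivity
  set δ : ℝ := min 1 (ε / B) with hδd
  have hδ : 0 < δ := lt_min one_pos (by positivity)
  have hδ1 : δ ≤ 1 := min_le_left _ _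
  have hδB : δ * B ≤ ε := by
    have h1 : δ ≤ ε / B := min_le_right _ _
    rwa [le_div_iff₀ hB0] at h1
  obtain ⟨N1, hN1⟩ := sum_lam_class_le' W hW (t + δ) δ (by positivity) hδ
  obtain ⟨N2, hN2⟩ := exists_nat_ge ((W : ℝ) * (3 * (t * W) / ε))
  obtain ⟨N3, hN3⟩ := exists_nat_ge ((W : ℝ) * (3 / ε))
  refine ⟨δ, hδ, N1 + N2 + N3 + 3, ?_⟩
  intro X hX y hy hyX
  have h1 := hN1 X (by omega) y (by omega) hyX a
  have hX3 : (3 : ℝ) ≤ X := by
    have : 3 ≤ X := by omega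
    exact_mod_cast this
  have hy3 : (3 : ℝ) ≤ y := by
    have : 3 ≤ y := by omega
    exact_mod_cast this
  have hlX : 0 < Real.log X := Real.log_pos (by linarith)
  have hly : 0 < Real.log y := Real.log_pos (by linarith)
  have hratio : (y : ℝ) / (Real.log X * Real.log y) ≤ t + δ := by
    rw [div_le_iff₀ (by positivity)]
    linarith
  set z : ℝ := (X : ℝ) / W with hz
  have hz0 : 0 ≤ z := by positivity
  have hz2 : t * W ≤ ε / 3 * z := by
    have h2 : (N2 : ℝ) ≤ X := by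
      have : N2 ≤ X := by omega
      exact_mod_cast this
    have h3 : 3 * (t * W) / ε ≤ z := by
      rw [hz, le_div_iff₀ hWr]
      linarith
    rw [div_le_iff₀ hε] at h3
    linarith
  have hz3 : 1 ≤ ε / 3 * z := by
    have h2 : (N3 : ℝ) ≤ X := by
      have : N3 ≤ X := by omega
      exact_mod_cast this
    have h3 : 3 / ε ≤ z := by
      rw [hz, le_div_iff₀ hWr]
      linarith
    rw [div_le_iff₀ hε] at h3
    linarith
  have hnle := le_card_clX X W hW1 a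
  rw [← hz] at hnle
  set n : ℝ := ((clX X W a).card : ℝ) with hn
  set Λ : ℝ := ∑ m ∈ clX X W a, lamQ W y (QQ 0 X) m with hΛ
  set E : ℝ := Real.exp (-(t * S)) with hE
  have hE0 : 0 < E := Real.exp_pos _
  have hE1 : E ≤ 1 := by
    rw [hE, Real.exp_le_one_iff]
    have : 0 ≤ t * S := by positivity
    linarith
  -- the mean of the intensity
  have hmean : Λ - n * (t * S) ≤ 2 * (ε / 3 * z) := by
    have h2 : Λ ≤ z * ((1 + δ) * (t + δ) * S + δ) := by
      refine h1.trans (mul_le_mul_of_nonneg_left ?_ hz0)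
      rw [hSdef]
      have h4 : (1 + δ) * ((y : ℝ) / (Real.log X * Real.log y)) ≤ (1 + δ) * (t + δ) :=
        mul_le_mul_of_nonneg_left hratio (by positivity)
      have h5 := mul_le_mul_of_nonneg_right h4 hS0
      linarith
    have h3 : (z - 1) * (t * S) ≤ n * (t * S) :=
      mul_le_mul_of_nonneg_right hnle (by positivity)
    have h4 : t * S ≤ ε / 3 * z := (mul_le_mul_of_nonneg_left hSW ht.le).trans hz2
    have h5 : (1 + δ) * (t + δ) * S + δ - t * S ≤ ε / 3 := by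
      have h6 : (1 + δ) * (t + δ) - t ≤ δ * (t + 2) := by nlinarith
      have h7 : ((1 + δ) * (t + δ) - t) * S ≤ δ * (t + 2) * S :=
        mul_le_mul_of_nonneg_right h6 hS0
      have h8 : δ * (t + 2) * S ≤ δ * (t + 2) * W :=
        mul_le_mul_of_nonneg_left hSW (by positivity)
      have h9 : δ * B = 3 * (δ * (t + 2) * W + δ) := by
        rw [hB]
        ring
      linarith
    have h6 : z * ((1 + δ) * (t + δ) * S + δ - t * S) ≤ z * (ε / 3) :=
      mul_le_mul_of_nonneg_left h5 hz0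
    nlinarith
  -- the pointwise inequality
  have hpt : ∀ m ∈ clX X W a, E * (1 - (lamQ W y (QQ 0 X) m - t * S) +
      min ((lamQ W y (QQ 0 X) m - t * S) ^ 2) 1 / 4) ≤ Real.exp (-lamQ W y (QQ 0 X) m) := by
    intro m _
    have h2 := exp_neg_ge (lamQ W y (QQ 0 X) m - t * S)
    have h3 : Real.exp (-lamQ W y (QQ 0 X) m) =
        E * Real.exp (-(lamQ W y (QQ 0 X) m - t * S)) := by
      rw [hE, ← Real.exp_add]
      congr 1
      ring
    rw [h3]
    exact mul_le_mul_of_nonneg_left h2 hE0.le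
  have hsum := Finset.sum_le_sum hpt
  rw [← Finset.mul_sum, Finset.sum_add_distrib, Finset.sum_sub_distrib, Finset.sum_sub_distrib,
    Finset.sum_const, Finset.sum_const, nsmul_eq_mul, nsmul_eq_mul, mul_one, ← hn, ← hΛ,
    ← Finset.sum_div] at hsum
  set M : ℝ := ∑ m ∈ clX X W a, min ((lamQ W y (QQ 0 X) m - t * S) ^ 2) 1 with hM
  have h2 : E * (Λ - n * (t * S)) ≤ 2 * (ε / 3 * z) := by
    have h3 : E * (Λ - n * (t * S)) ≤ E * (2 * (ε / 3 * z)) :=
      mul_le_mul_of_nonneg_left hmean hE0.le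
    have h4 : E * (2 * (ε / 3 * z)) ≤ 1 * (2 * (ε / 3 * z)) :=
      mul_le_mul_of_nonneg_right hE1 (by positivity)
    linarith
  have h3 : E * (z - n) ≤ ε / 3 * z := by
    have h4 : E * (z - n) ≤ E * 1 := mul_le_mul_of_nonneg_left (by linarith) hE0.le
    linarith
  have h4 : E * (n - (Λ - n * (t * S)) + M / 4) =
      E * n - E * (Λ - n * (t * S)) + 1 / 4 * E * M := by ring
  rw [h4] at hsum
  have h5 : ε * z = ε / 3 * z + 2 * (ε / 3 * z) := by ring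
  have h6 : E * (z - n) = z * E - E * n := by ring
  linarith

private lemma C03_fiber (W : ℕ) (hW0 : W ≠ 0) (h2 : 2 ∣ W) (X : ℕ) (F : ℤ → ℝ) :
    ∑ m ∈ (Finset.Ioc (0 : ℤ) (X : ℤ)).filter (fun m => Even m), F m
      = ∑ a ∈ (Finset.range W).filter (fun a => Even a), ∑ m ∈ clX X W a, F m := by
  have hWpos : 0 < W := Nat.pos_of_ne_zero hW0
  set A := (Finset.range W).filter (fun a => Even a) with hA
  have hmem : ∀ m ∈ (Finset.Ioc (0 : ℤ) (X : ℤ)).filter (fun m => Even m),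
      (m % (W : ℤ)).toNat ∈ A := by
    intro m hm
    rw [Finset.mem_filter, Finset.mem_Ioc] at hm
    have h6 : 0 ≤ m % (W : ℤ) := Int.emod_nonneg _ (by exact_mod_cast hW0)
    have h7 : m % (W : ℤ) < W := Int.emod_lt_of_pos _ (by exact_mod_cast hWpos)
    simp only [hA, Finset.mem_filter, Finset.mem_range]
    refine ⟨by omega, ?_⟩
    have h8 : ((m % (W : ℤ)).toNat : ℤ) = m % (W : ℤ) := Int.toNat_of_nonneg h6
    rw [← Int.even_coe_nat, h8, Int.even_iff, Int.emod_emod_of_dvd m (by exact_mod_cast h2),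
      ← Int.even_iff]
    exact hm.2
  rw [← Finset.sum_fiberwise_of_maps_to hmem]
  refine Finset.sum_congr rfl fun a ha => Finset.sum_congr ?_ fun _ _ => rfl
  ext m
  simp only [hA, Finset.mem_filter, Finset.mem_range] at ha
  unfold clX
  simp only [Finset.mem_filter]
  have h6 : 0 ≤ m % (W : ℤ) := Int.emod_nonneg _ (by exact_mod_cast hW0)
  have haW : (a : ℤ) % (W : ℤ) = a := Int.emod_eq_of_lt (by positivity) (by exact_mod_cast ha.1)
  constructor
  · rintro ⟨⟨h7, -⟩, h8⟩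
    refine ⟨h7, ?_⟩
    unfold Int.ModEq
    rw [haW]
    omega
  · rintro ⟨h7, h8⟩
    unfold Int.ModEq at h8
    rw [haW] at h8
    refine ⟨⟨h7, ?_⟩, by omega⟩
    rw [Int.even_iff, ← Int.emod_emod_of_dvd m (show (2 : ℤ) ∣ (W : ℤ) by exact_mod_cast h2), h8,
      ← Int.even_iff, Int.even_coe_nat]
    exact ha.2

/-- All even classes: for even squarefree `W`,
`(1/4) ∑_{m ≤ X even} exp(-t SP W m) min((λ(m) - t SP W m)², 1)
 ≤ ∑_{m ≤ X even} exp(-λ(m)) - EE W t X/2 + ε X`.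

PROOF. The even numbers of `(0, X]` are the disjoint union of the classes `clX X W a`, `a < W` even.
Sum `defect_class`; `SP W m = SP W a` on the class; `EE W t = (2/W) ∑_a exp(-t SP W a)`. -/
theorem defect_even (W : ℕ) (hW : Squarefree W) (h2 : 2 ∣ W) (t ε : ℝ) (ht : 0 < t) (hε : 0 < ε) :
    ∃ δ : ℝ, 0 < δ ∧ ∃ N₀ : ℕ, ∀ X : ℕ, N₀ ≤ X → ∀ y : ℕ, N₀ ≤ y →
      (y : ℝ) ≤ (t + δ) * Real.log X * Real.log y →
      1 / 4 * ∑ m ∈ (Finset.Ioc (0 : ℤ) (X : ℤ)).filter (fun m => Even m),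
        Real.exp (-(t * SP W m)) * min ((lamQ W y (QQ 0 X) m - t * SP W m) ^ 2) 1
        ≤ (∑ m ∈ (Finset.Ioc (0 : ℤ) (X : ℤ)).filter (fun m => Even m),
            Real.exp (-lamQ W y (QQ 0 X) m)) - EE W t * X / 2 + ε * X := by
  have hW0 : W ≠ 0 := hW.ne_zero
  have hWpos : 0 < W := Nat.pos_of_ne_zero hW0
  have hWr : (0 : ℝ) < W := by exact_mod_cast hWpos
  choose D hD N hN using fun a : ℤ => defect_class W hW a t ε ht hε
  have hA : ∃ A : Finset ℕ, A = (Finset.range W).filter (fun a => Even a) := ⟨_, rfl⟩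
  obtain ⟨A, hA⟩ := hA
  have hAne : A.Nonempty := ⟨0, by simp [hA, hWpos]⟩
  obtain ⟨a0, ha0, hmin⟩ := Finset.exists_min_image A (fun a => D (a : ℤ)) hAne
  refine ⟨D (a0 : ℤ), hD _, A.sup (fun a => N (a : ℤ)), ?_⟩
  intro X hX y hy hyX
  have hcard : A.card * 2 = W := by
    obtain ⟨k, rfl⟩ := h2
    have h1 : A = (Finset.range k).image (fun a => 2 * a) := by
      ext x
      simp only [hA, Finset.mem_filter, Finset.mem_range, Finset.mem_image]
      constructor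
      · rintro ⟨hx, r, hr⟩
        exact ⟨r, by omega, by omega⟩
      · rintro ⟨r, hr, rfl⟩
        exact ⟨by omega, even_two_mul r⟩
    rw [h1, Finset.card_image_of_injective _ (fun a b h => by simpa using h), Finset.card_range]
    ring
  have hclass : ∀ a ∈ A, 1 / 4 * ∑ m ∈ clX X W (a : ℤ),
      Real.exp (-(t * SP W m)) * min ((lamQ W y (QQ 0 X) m - t * SP W m) ^ 2) 1
      ≤ (∑ m ∈ clX X W a, Real.exp (-lamQ W y (QQ 0 X) m))
          - (X : ℝ) / W * Real.exp (-(t * SP W a)) + ε * (X / W) := by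
    intro a ha
    have h1 := hN (a : ℤ) X ((Finset.le_sup (f := fun a : ℕ => N (a : ℤ)) ha).trans hX) y
      ((Finset.le_sup (f := fun a : ℕ => N (a : ℤ)) ha).trans hy) (hyX.trans (by
        have h3 := hmin a ha
        have h4 : 0 ≤ Real.log X := Real.log_natCast_nonneg X
        have h5 : 0 ≤ Real.log y := Real.log_natCast_nonneg y
        gcongr))
    refine le_trans (le_of_eq ?_) h1
    rw [mul_assoc, Finset.mul_sum (s := clX X W (a : ℤ))
      (a := Real.exp (-(t * SP W (a : ℤ))))]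
    congr 1
    refine Finset.sum_congr rfl fun m hm => ?_
    unfold clX at hm
    rw [Finset.mem_filter] at hm
    rw [SP_periodic W m a hm.2]
  have hcr : (A.card : ℝ) = W / 2 := by
    have : (A.card : ℝ) * 2 = W := by exact_mod_cast hcard
    linarith
  have hsum := Finset.sum_le_sum hclass
  rw [C03_fiber W hW0 h2, C03_fiber W hW0 h2, ← hA, Finset.mul_sum]
  refine hsum.trans ?_
  rw [Finset.sum_add_distrib, Finset.sum_sub_distrib, Finset.sum_const, nsmul_eq_mul, hcr,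
    ← Finset.mul_sum]
  have h3 : EE W t * X / 2 = (X : ℝ) / W * ∑ a ∈ A, Real.exp (-(t * SP W (a : ℤ))) := by
    unfold EE
    rw [← hA]
    have h4 : ∑ a ∈ A, Real.exp (-t * SS W (![0, (a : ℤ)] : Fin 2 → ℤ)) =
        ∑ a ∈ A, Real.exp (-(t * SP W (a : ℤ))) := by
      refine Finset.sum_congr rfl fun a _ => ?_
      unfold SP
      rw [neg_mul]
    rw [h4]
    field_simp
  have h5 : (W : ℝ) / 2 * (ε * (X / W)) = ε * X / 2 := by
    field_simp
  have h6 : 0 ≤ ε * X := by positivity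
  rw [h3, h5]
  linarith

end Pool.Agent.Lib.MP_bae66e_nt.LL
end

section

/-!
# E09: sum over `d` of the products of correlations
-/

set_option autoImplicit false

open Finset

namespace Pool.Agent.Lib.MP_bae66e_nt.LL

/-- For fixed `W ≥ 1`, `k`, `δ > 0`: `(Y (log Y + W)²)^{k+1} ≤ δ Y^{k+2}` for large `Y`. -/
lemma diag_small (W k : ℕ) (δ : ℝ) (hδ : 0 < δ) : ∃ Y₀ : ℕ, ∀ Y : ℕ, Y₀ ≤ Y →
    ((Y : ℝ) * (Real.log Y + W) ^ 2) ^ (k + 1) ≤ δ * (Y : ℝ) ^ (k + 2) := by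
  have hc : (0 : ℝ) < δ / 2 ^ (2 * (k + 1)) := by positivity
  have h1 := (Real.isLittleO_pow_log_id_atTop (n := 2 * (k + 1))).def hc
  have h2 := tendsto_natCast_atTop_atTop (R := ℝ) |>.eventually h1
  have h3 := (Real.tendsto_log_atTop.comp (tendsto_natCast_atTop_atTop (R := ℝ))).eventually
    (Filter.eventually_ge_atTop (W : ℝ))
  obtain ⟨Y₀, hY₀⟩ := Filter.eventually_atTop.1 (h2.and h3)
  refine ⟨Y₀ + 1, fun Y hY => ?_⟩
  obtain ⟨h4, h5⟩ := hY₀ Y (by omega)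
  simp only [Function.comp_apply] at h5
  have hY1 : (1 : ℝ) ≤ Y := by exact_mod_cast (by omega : 1 ≤ Y)
  have hlog : 0 ≤ Real.log Y := Real.log_nonneg hY1
  have hW0 : (0 : ℝ) ≤ W := Nat.cast_nonneg W
  simp only [id_eq, Real.norm_eq_abs] at h4
  rw [abs_of_nonneg (by positivity), abs_of_nonneg (by positivity)] at h4
  have h6 : (Real.log Y + W) ^ (2 * (k + 1)) ≤ δ * Y := by
    calc (Real.log Y + W) ^ (2 * (k + 1)) ≤ (2 * Real.log Y) ^ (2 * (k + 1)) := by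
          apply pow_le_pow_left₀ (by positivity)
          linarith
      _ = 2 ^ (2 * (k + 1)) * Real.log Y ^ (2 * (k + 1)) := by rw [mul_pow]
      _ ≤ 2 ^ (2 * (k + 1)) * (δ / 2 ^ (2 * (k + 1)) * Y) := by
          apply mul_le_mul_of_nonneg_left h4 (by positivity)
      _ = δ * Y := by
          field_simp
  calc ((Y : ℝ) * (Real.log Y + W) ^ 2) ^ (k + 1)
      = (Y : ℝ) ^ (k + 1) * (Real.log Y + W) ^ (2 * (k + 1)) := by rw [mul_pow, ← pow_mul]
    _ ≤ (Y : ℝ) ^ (k + 1) * (δ * Y) := mul_le_mul_of_nonneg_left h6 (by positivity)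
    _ = δ * (Y : ℝ) ^ (k + 2) := by ring

private lemma E09_prod_ite {k : ℕ} (l : Fin (k + 1)) (A D : ℝ) :
    ∏ i : Fin (k + 1), (if i = l then D else A) = A ^ k * D := by
  rw [← Finset.mul_prod_erase Finset.univ _ (Finset.mem_univ l)]
  rw [if_pos rfl]
  have : ∏ i ∈ Finset.univ.erase l, (if i = l then D else A) = A ^ k := by
    rw [Finset.prod_congr rfl (g := fun _ => A)]
    · rw [Finset.prod_const, Finset.card_erase_of_mem (Finset.mem_univ l)]
      simp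
    · intro i hi
      rw [if_neg (Finset.ne_of_mem_erase hi)]
  rw [this]; ring

/-- For `d ≠ 0` the product of the correlations of the mixed tuple.

PROOF. For `i < l`, `mix = gW W Y` and for `i > l`, `mix = fP Y`: both correlations are
`≤ 2000 ρ(|d|)^{-2} Y` (`corr_gW_le`, `corr_fP_le`); for `i = l` it is the correlation of the
difference. There are `k` indices `i ≠ l`. -/
lemma prod_corr_mix_le (k W Y : ℕ) (hW : Squarefree W) (hY : 2 * W ^ 3 ≤ Y) (hY2 : 2 ≤ Y)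
    (l : Fin (k + 1)) (d : ℤ) (hd : d ≠ 0) (hdY : |d| ≤ (Y : ℤ)) :
    ∏ i, |corr Y (mix (fP Y) (gW W Y) l i) d|
      ≤ (2000 * (Y : ℝ)) ^ k * (1 / rho d.natAbs) ^ (2 * k)
        * |corr Y (fun n => fP Y n - gW W Y n) d| := by
  have hr : 0 < rho d.natAbs := rho_pos _
  have key : ∀ i ∈ (Finset.univ : Finset (Fin (k + 1))), |corr Y (mix (fP Y) (gW W Y) l i) d|
      ≤ if i = l then |corr Y (fun n => fP Y n - gW W Y n) d|
        else 2000 * (1 / rho d.natAbs) ^ 2 * Y := by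
    intro i _
    unfold mix
    by_cases h1 : i < l
    · rw [if_pos h1, if_neg (ne_of_lt h1)]
      refine (corr_gW_le W Y hW hY d hd hdY).trans ?_
      have : (0 : ℝ) ≤ (1 / rho d.natAbs) ^ 2 * Y := by positivity
      nlinarith
    · rw [if_neg h1]
      by_cases h2 : i = l
      · rw [if_pos h2, if_pos h2]
      · rw [if_neg h2, if_neg h2]
        exact corr_fP_le Y hY2 d hd
  refine (Finset.prod_le_prod (fun i _ => abs_nonneg _) key).trans ?_
  rw [E09_prod_ite]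
  apply le_of_eq
  congr 1
  rw [pow_mul, ← mul_pow]
  congr 1
  ring

/-- The sum over `d`: there is `C = C(k)` such that for all squarefree `W` and `0 < ε ≤ 1` and all
large `Y` with `EnergyLe W Y ε`, and all `l`,
`∑_{|d| ≤ Y} ∏_i |corr Y (mix …) d| ≤ C √ε Y^{k+2}`.

PROOF. `d = 0`: the term is at most `(Y (log Y + W)²)^{k+1} ≤ √ε Y^{k+2}` (`corr_fP_zero`,
`corr_gW_zero`, `corr_diff_zero`, `diag_small`). `d ≠ 0`: `prod_corr_mix_le` and Cauchy-Schwarz: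
`(2000 Y)^k (∑_{0<|d|≤Y} ρ(|d|)^{-4k})^{1/2} (∑_{0<|d|≤Y} |corr …|²)^{1/2}
≤ (2000 Y)^k (C' Y)^{1/2} (ε Y³)^{1/2}` with `sum_inv_rho_int_le` (`a = 0`, `B = 4 k`, module K,
file K08) and the energy condition. -/
theorem sum_prod_corr_le (k : ℕ) : ∃ C : ℝ, 1 ≤ C ∧ ∀ W : ℕ, Squarefree W → ∀ ε : ℝ, 0 < ε → ε ≤ 1 →
    ∃ Y₀ : ℕ, ∀ Y : ℕ, Y₀ ≤ Y → EnergyLe W Y ε → ∀ l : Fin (k + 1),
      ∑ d ∈ Finset.Icc (-(Y : ℤ)) (Y : ℤ), ∏ i, |corr Y (mix (fP Y) (gW W Y) l i) d|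
        ≤ C * Real.sqrt ε * (Y : ℝ) ^ (k + 2) := by
  obtain ⟨C', hC', hrho⟩ := sum_inv_rho_int_le (4 * k)
  have hC0 : 0 ≤ C' := by linarith
  have hs0 : 0 ≤ Real.sqrt C' := Real.sqrt_nonneg _
  refine ⟨1 + 2000 ^ k * Real.sqrt C', by nlinarith [pow_pos (by norm_num : (0:ℝ) < 2000) k],
    fun W hW ε hε hε1 => ?_⟩
  obtain ⟨Y₁, hY₁⟩ := diag_small W k (Real.sqrt ε) (Real.sqrt_pos.2 hε)
  refine ⟨Y₁ + 2 * W ^ 3 + 2, fun Y hY hE l => ?_⟩
  have hW1 : 1 ≤ W := Nat.one_le_iff_ne_zero.2 (fun h => by subst h; exact not_squarefree_zero hW)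
  have hY1 : 1 ≤ Y := by omega
  have hYR : (1 : ℝ) ≤ Y := by exact_mod_cast hY1
  have hWR : (1 : ℝ) ≤ W := by exact_mod_cast hW1
  have hlog : 0 ≤ Real.log Y := Real.log_nonneg hYR
  -- the term d = 0
  have hzero : ∏ i, |corr Y (mix (fP Y) (gW W Y) l i) 0| ≤ Real.sqrt ε * (Y : ℝ) ^ (k + 2) := by
    have key : ∀ i ∈ (Finset.univ : Finset (Fin (k + 1))), |corr Y (mix (fP Y) (gW W Y) l i) 0|
        ≤ (Y : ℝ) * (Real.log Y + W) ^ 2 := by
      intro i _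
      unfold mix
      by_cases h1 : i < l
      · rw [if_pos h1]
        refine (corr_gW_zero W Y hW1).trans ?_
        apply mul_le_mul_of_nonneg_left _ (by positivity)
        apply pow_le_pow_left₀ (by positivity)
        linarith
      · rw [if_neg h1]
        by_cases h2 : i = l
        · rw [if_pos h2]
          exact corr_diff_zero W Y hW1 hY1
        · rw [if_neg h2]
          refine (corr_fP_zero Y hY1).trans ?_
          apply mul_le_mul_of_nonneg_left _ (by positivity)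
          apply pow_le_pow_left₀ (by positivity)
          linarith
    refine (Finset.prod_le_prod (fun i _ => abs_nonneg _) key).trans ?_
    rw [Finset.prod_const, Finset.card_univ, Fintype.card_fin]
    exact hY₁ Y (by omega)
  -- the terms d ≠ 0
  set I := (Finset.Icc (-(Y : ℤ)) (Y : ℤ)).filter (fun d => d ≠ 0) with hI
  have hsplit : ∑ d ∈ Finset.Icc (-(Y : ℤ)) (Y : ℤ), ∏ i, |corr Y (mix (fP Y) (gW W Y) l i) d|
      = ∏ i, |corr Y (mix (fP Y) (gW W Y) l i) 0|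
        + ∑ d ∈ I, ∏ i, |corr Y (mix (fP Y) (gW W Y) l i) d| := by
    have hmem : (0 : ℤ) ∈ Finset.Icc (-(Y : ℤ)) (Y : ℤ) := by
      rw [Finset.mem_Icc]; constructor <;> omega
    rw [← Finset.add_sum_erase _ _ hmem]
    congr 1
    apply Finset.sum_congr _ (fun _ _ => rfl)
    ext d
    rw [hI, Finset.mem_erase, Finset.mem_filter]
    tauto
  rw [hsplit]
  have hne : ∑ d ∈ I, ∏ i, |corr Y (mix (fP Y) (gW W Y) l i) d|
      ≤ 2000 ^ k * Real.sqrt C' * Real.sqrt ε * (Y : ℝ) ^ (k + 2) := by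
    have h1 : ∑ d ∈ I, ∏ i, |corr Y (mix (fP Y) (gW W Y) l i) d|
        ≤ ∑ d ∈ I, (2000 * (Y : ℝ)) ^ k * ((1 / rho d.natAbs) ^ (2 * k)
          * |corr Y (fun n => fP Y n - gW W Y n) d|) := by
      apply Finset.sum_le_sum
      intro d hd
      rw [hI, Finset.mem_filter, Finset.mem_Icc] at hd
      rw [← mul_assoc]
      exact prod_corr_mix_le k W Y hW (by omega) (by omega) l d hd.2 (abs_le.2 hd.1)
    refine h1.trans ?_
    rw [← Finset.mul_sum]
    have h2 := Finset.sum_mul_sq_le_sq_mul_sq I (fun d => (1 / rho d.natAbs) ^ (2 * k))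
      (fun d => |corr Y (fun n => fP Y n - gW W Y n) d|)
    have h3 : ∑ d ∈ I, ((1 / rho d.natAbs) ^ (2 * k)) ^ 2 ≤ C' * Y := by
      have := hrho Y hY1 0 (by simp)
      refine le_trans ?_ this
      refine (Finset.sum_le_sum_of_subset_of_nonneg (Finset.filter_subset _ _) ?_).trans
        (le_of_eq ?_)
      · intro i _ _
        positivity
      · apply Finset.sum_congr rfl
        intro d _
        rw [← pow_mul, sub_zero]
        congr 1
        ring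
    have h4 : ∑ d ∈ I, |corr Y (fun n => fP Y n - gW W Y n) d| ^ 2 ≤ ε * (Y : ℝ) ^ 3 := by
      unfold EnergyLe at hE
      refine le_trans (le_of_eq ?_) hE
      apply Finset.sum_congr rfl
      intro d _
      rw [sq_abs]
    have h5 : ∑ d ∈ I, (1 / rho d.natAbs) ^ (2 * k) * |corr Y (fun n => fP Y n - gW W Y n) d|
        ≤ Real.sqrt C' * Real.sqrt ε * (Y : ℝ) ^ 2 := by
      apply le_of_abs_le
      apply abs_le_of_sq_le_sq _ (by positivity)
      refine h2.trans ?_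
      have e1 : (Real.sqrt C' * Real.sqrt ε * (Y : ℝ) ^ 2) ^ 2 = (C' * Y) * (ε * (Y : ℝ) ^ 3) := by
        rw [mul_pow, mul_pow, Real.sq_sqrt hC0, Real.sq_sqrt hε.le]; ring
      rw [e1]
      apply mul_le_mul h3 h4 (Finset.sum_nonneg (fun _ _ => by positivity)) (by positivity)
    calc (2000 * (Y : ℝ)) ^ k * ∑ d ∈ I, (1 / rho d.natAbs) ^ (2 * k)
          * |corr Y (fun n => fP Y n - gW W Y n) d|
        ≤ (2000 * (Y : ℝ)) ^ k * (Real.sqrt C' * Real.sqrt ε * (Y : ℝ) ^ 2) :=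
          mul_le_mul_of_nonneg_left h5 (by positivity)
      _ = 2000 ^ k * Real.sqrt C' * Real.sqrt ε * (Y : ℝ) ^ (k + 2) := by
          rw [mul_pow]; ring
  have : (1 + 2000 ^ k * Real.sqrt C') * Real.sqrt ε * (Y : ℝ) ^ (k + 2)
      = Real.sqrt ε * (Y : ℝ) ^ (k + 2) + 2000 ^ k * Real.sqrt C' * Real.sqrt ε * (Y : ℝ) ^ (k + 2) := by
    ring
  rw [this]
  exact add_le_add hzero hne

end Pool.Agent.Lib.MP_bae66e_nt.LL
end

section

/-!
# E10: replacement of the primes by the model of high level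
-/

set_option autoImplicit false

open Finset

namespace Pool.Agent.Lib.MP_bae66e_nt.LL

private lemma E10_mix_support {k : ℕ} (W Y : ℕ) (l i : Fin (k + 1)) (n : ℤ)
    (hn : ¬ (1 ≤ n ∧ n ≤ (Y : ℤ))) : mix (fP Y) (gW W Y) l i n = 0 := by
  unfold mix
  by_cases h1 : i < l
  · rw [if_pos h1]; exact gW_support W Y n hn
  · rw [if_neg h1]
    by_cases h2 : i = l
    · rw [if_pos h2]
      simp only [fP_support Y n hn, gW_support W Y n hn, sub_zero]
    · rw [if_neg h2]; exact fP_support Y n hn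

/-- There is `C = C(k)`: for all `W₀ ≥ 1`, squarefree `W`, `0 < ε ≤ 1` and all large `Y` with
`EnergyLe W Y ε`, `∑_{h ∈ shifts} FF(h) DD(h) ≤ C √W₀ √√ε Y^{k+1}` for the pair `fP Y`, `gW W Y`.

PROOF. `DD_le_sum_mix`; exchange the sums; for each `l`, `cauchy_hb` with `F = FF (k+1)` and
`a(h, b) = ∑_{n ≡ b} ∏_i mix f g l i (n - h_i)`. `∑_h FF(h)² = ∑_h FF (2 (k+1)) h ≤ C₁ Y^k`
(`FF_pow`, `sum_FF_le`); `∑_h ∑_b a² ≤ ∑_d ∏_i |corr Y (mix f g l i) d|` (`second_moment_le`, the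
functions are supported in `[1, Y]` by `fP_support`, `gW_support`) `≤ C₂ √ε Y^{k+2}`
(`sum_prod_corr_le`). So each `l` contributes at most
`√(W₀ C₁ Y^k) √(C₂ √ε Y^{k+2}) = √(C₁ C₂) √W₀ √√ε Y^{k+1}`. -/
theorem main_one (k : ℕ) : ∃ C : ℝ, 1 ≤ C ∧ ∀ W₀ : ℕ, 1 ≤ W₀ → ∀ W : ℕ, Squarefree W →
    ∀ ε : ℝ, 0 < ε → ε ≤ 1 → ∃ Y₀ : ℕ, ∀ Y : ℕ, Y₀ ≤ Y → EnergyLe W Y ε →
      ∑ h ∈ shifts k Y, FF (k + 1) h * DD Y W₀ (fP Y) (gW W Y) h
        ≤ C * Real.sqrt W₀ * Real.sqrt (Real.sqrt ε) * (Y : ℝ) ^ (k + 1) := by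
  obtain ⟨C₁, hC₁, hFF⟩ := sum_FF_le k (2 * (k + 1))
  obtain ⟨C₂, hC₂, hcorr⟩ := sum_prod_corr_le k
  have hC₁0 : 0 ≤ C₁ := by linarith
  have hC₂0 : 0 ≤ C₂ := by linarith
  have hs : 1 ≤ Real.sqrt (C₁ * C₂) := by
    rw [Real.one_le_sqrt]; nlinarith
  refine ⟨((k : ℝ) + 1) * Real.sqrt (C₁ * C₂), ?_, fun W₀ hW₀ W hW ε hε hε1 => ?_⟩
  · have : (0 : ℝ) ≤ k := Nat.cast_nonneg k
    nlinarith
  obtain ⟨Y₀, hY₀⟩ := hcorr W hW ε hε hε1
  refine ⟨Y₀ + 1, fun Y hY hE => ?_⟩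
  have hY1 : 1 ≤ Y := by omega
  set a : Fin (k + 1) → (Fin k → ℤ) → ℕ → ℝ := fun l h b =>
    ∑ n ∈ (Finset.Icc (1 : ℤ) (Y : ℤ)).filter (fun n => n ≡ (b : ℤ) [ZMOD (W₀ : ℤ)]),
        ∏ i, mix (fP Y) (gW W Y) l i (n - hh h i) with ha
  have h1 : ∑ h ∈ shifts k Y, FF (k + 1) h * DD Y W₀ (fP Y) (gW W Y) h
      ≤ ∑ l : Fin (k + 1), ∑ h ∈ shifts k Y, FF (k + 1) h * ∑ b ∈ Finset.range W₀, |a l h b| := by
    rw [Finset.sum_comm]
    apply Finset.sum_le_sum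
    intro h _
    rw [← Finset.mul_sum]
    exact mul_le_mul_of_nonneg_left (DD_le_sum_mix Y W₀ (fP Y) (gW W Y) h) (FF_nonneg _ _)
  refine h1.trans ?_
  have h2 : ∀ l ∈ (Finset.univ : Finset (Fin (k + 1))),
      ∑ h ∈ shifts k Y, FF (k + 1) h * ∑ b ∈ Finset.range W₀, |a l h b|
      ≤ Real.sqrt (C₁ * C₂) * Real.sqrt W₀ * Real.sqrt (Real.sqrt ε) * (Y : ℝ) ^ (k + 1) := by
    intro l _
    refine (cauchy_hb (shifts k Y) W₀ (FF (k + 1)) (a l) (fun h _ => FF_nonneg _ _)).trans ?_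
    have h3 : ∑ h ∈ shifts k Y, (FF (k + 1) h) ^ 2 ≤ C₁ * (Y : ℝ) ^ k := by
      refine le_trans (le_of_eq ?_) (hFF Y hY1)
      apply Finset.sum_congr rfl
      intro h _
      rw [FF_pow]
      congr 1
      ring
    have h4 : ∑ h ∈ shifts k Y, ∑ b ∈ Finset.range W₀, (a l h b) ^ 2
        ≤ C₂ * Real.sqrt ε * (Y : ℝ) ^ (k + 2) := by
      refine le_trans ?_ (hY₀ Y (by omega) hE l)
      exact second_moment_le Y W₀ hW₀ (mix (fP Y) (gW W Y) l)
        (fun i n hn => E10_mix_support W Y l i n hn)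
    calc Real.sqrt (W₀ * ∑ h ∈ shifts k Y, (FF (k + 1) h) ^ 2)
          * Real.sqrt (∑ h ∈ shifts k Y, ∑ b ∈ Finset.range W₀, (a l h b) ^ 2)
        ≤ Real.sqrt (W₀ * (C₁ * (Y : ℝ) ^ k)) * Real.sqrt (C₂ * Real.sqrt ε * (Y : ℝ) ^ (k + 2)) := by
          apply mul_le_mul (Real.sqrt_le_sqrt (mul_le_mul_of_nonneg_left h3 (Nat.cast_nonneg _)))
            (Real.sqrt_le_sqrt h4) (Real.sqrt_nonneg _) (Real.sqrt_nonneg _)
      _ = Real.sqrt ((C₁ * C₂) * W₀ * Real.sqrt ε * ((Y : ℝ) ^ (k + 1)) ^ 2) := by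
          rw [← Real.sqrt_mul (by positivity)]
          congr 1
          ring
      _ = Real.sqrt (C₁ * C₂) * Real.sqrt W₀ * Real.sqrt (Real.sqrt ε) * (Y : ℝ) ^ (k + 1) := by
          rw [Real.sqrt_mul (by positivity), Real.sqrt_mul (by positivity),
            Real.sqrt_mul (by positivity), Real.sqrt_sq (by positivity)]
  refine (Finset.sum_le_sum h2).trans (le_of_eq ?_)
  rw [Finset.sum_const, Finset.card_univ, Fintype.card_fin, nsmul_eq_mul]
  push_cast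
  ring

end Pool.Agent.Lib.MP_bae66e_nt.LL
end

section

/-!
# LP/E7a: the diagonal terms
-/

set_option autoImplicit false

open Finset

namespace Pool.Agent.Lib.MP_bae66e_nt.LP

open Pool.Agent.Lib.MP_bae66e_nt.LL

/-- The diagonal terms: for fixed `W`, `R`, `k`, `δ > 0` and large `Y`:
`R² (4 Y (R log Y + R W)²)^{k+1} ≤ δ Y^{k+2}` (compare `diag_small`, `E09`). -/
lemma diag_smallJ (W R k : ℕ) (δ : ℝ) (hδ : 0 < δ) : ∃ Y₀ : ℕ, ∀ Y : ℕ, Y₀ ≤ Y →
    (R : ℝ) ^ 2 * (4 * Y * (R * Real.log Y + R * W) ^ 2) ^ (k + 1) ≤ δ * (Y : ℝ) ^ (k + 2) := by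
  set c : ℝ := (R : ℝ) ^ 2 * (4 * (R : ℝ) ^ 2) ^ (k + 1) with hc
  have hc0 : 0 ≤ c := by positivity
  obtain ⟨Y₀, hY₀⟩ := diag_small W k (δ / (c + 1)) (by positivity)
  refine ⟨Y₀, fun Y hY => ?_⟩
  have h1 := hY₀ Y hY
  have h2 : (R : ℝ) ^ 2 * (4 * Y * (R * Real.log Y + R * W) ^ 2) ^ (k + 1) =
      c * ((Y : ℝ) * (Real.log Y + W) ^ 2) ^ (k + 1) := by
    rw [hc, mul_assoc ((R : ℝ) ^ 2), ← mul_pow]
    congr 2
    ring
  rw [h2]
  refine (mul_le_mul_of_nonneg_left h1 hc0).trans ?_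
  have h3 : c * (δ / (c + 1)) ≤ δ := by
    rw [mul_div_assoc', div_le_iff₀ (by positivity)]
    nlinarith
  rw [← mul_assoc]
  exact mul_le_mul_of_nonneg_right h3 (by positivity)

end Pool.Agent.Lib.MP_bae66e_nt.LP
end
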