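import Pool.Agent.Lib.MP_bae66e_nt.Mg.G099
import Pool.Agent.Lib.MP_bae66e_nt.Mg.G041
import Pool.Agent.Lib.MP_bae66e_nt.Mg.G046
import Pool.Agent.Lib.MP_bae66e_nt.Mg.G045

section

/-!
# J05: monotonicity of the means `EE`
-/

set_option autoImplicit false

open Finset

namespace Pool.Agent.Lib.MP_bae66e_nt.LL

/-- The local factor at a prime: `nup p (0, a) = 1` if `p ∣ a`, and `2` otherwise. So
`SS W (0, a) = ∏_{p ∣ W} (p/(p-1) if p ∣ a, p (p - 2)/(p - 1)² otherwise)`. -/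
lemma SS_pair_eq (W : ℕ) (a : ℤ) :
    SS W (![0, a] : Fin 2 → ℤ) = ∏ p ∈ W.primeFactors,
      if (p : ℤ) ∣ a then (p : ℝ) / (p - 1) else (p : ℝ) * (p - 2) / ((p : ℝ) - 1) ^ 2 := by
  unfold SS
  refine Finset.prod_congr rfl fun p hp => ?_
  have hpp : p.Prime := Nat.prime_of_mem_primeFactors hp
  have hp2 : (2 : ℝ) ≤ p := by exact_mod_cast hpp.two_le
  have hp0 : (p : ℝ) ≠ 0 := by positivity
  have hp1 : (p : ℝ) - 1 ≠ 0 := by linarith
  have himg : (Finset.univ.image (fun i : Fin 2 => (![0, a] : Fin 2 → ℤ) i % (p : ℤ)))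
      = {0, a % (p : ℤ)} := by
    ext x
    simp only [Finset.mem_image, Finset.mem_univ, true_and, Fin.exists_fin_two, Finset.mem_insert,
      Finset.mem_singleton]
    simp [eq_comm]
  have h1p : (1 : ℝ) - 1 / p = (p - 1) / p := by
    field_simp
  unfold nup
  rw [himg, h1p]
  change (1 - _ / (p : ℝ)) / (((p : ℝ) - 1) / p) ^ 2 = _
  by_cases ha : (p : ℤ) ∣ a
  · rw [if_pos ha, Int.emod_eq_zero_of_dvd ha]
    simp only [Finset.insert_eq_of_mem, Finset.mem_singleton, Finset.card_singleton, Nat.cast_one]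
    field_simp
  · rw [if_neg ha, Finset.card_pair (fun h => ha (Int.dvd_of_emod_eq_zero h.symm))]
    push_cast
    field_simp

/-- The mean of the local factor over the classes modulo `p` is `1`:
`p/(p-1) + (p - 1) p (p - 2)/(p - 1)² = p`. -/
lemma sum_local_factor (p : ℕ) (hp : p.Prime) :
    ∑ a ∈ Finset.range p, (if (p : ℤ) ∣ (a : ℤ) then (p : ℝ) / (p - 1)
      else (p : ℝ) * (p - 2) / ((p : ℝ) - 1) ^ 2) = p := by
  have hp2 : (2 : ℝ) ≤ p := by exact_mod_cast hp.two_le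
  have hp1 : (p : ℝ) - 1 ≠ 0 := by linarith
  obtain ⟨q, rfl⟩ : ∃ q, p = q + 1 := ⟨p - 1, (Nat.succ_pred_eq_of_pos hp.pos).symm⟩
  rw [Finset.sum_range_succ']
  have h1 : ∀ k ∈ Finset.range q, (if ((q + 1 : ℕ) : ℤ) ∣ ((k + 1 : ℕ) : ℤ)
      then ((q + 1 : ℕ) : ℝ) / (((q + 1 : ℕ) : ℝ) - 1)
      else ((q + 1 : ℕ) : ℝ) * (((q + 1 : ℕ) : ℝ) - 2) / (((q + 1 : ℕ) : ℝ) - 1) ^ 2)
      = ((q + 1 : ℕ) : ℝ) * (((q + 1 : ℕ) : ℝ) - 2) / (((q + 1 : ℕ) : ℝ) - 1) ^ 2 := by
    intro k hk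
    rw [Finset.mem_range] at hk
    rw [if_neg]
    intro h
    have h2 := Nat.le_of_dvd (Nat.succ_pos k) (Int.natCast_dvd_natCast.mp h)
    omega
  rw [Finset.sum_congr rfl h1, Finset.sum_const, Finset.card_range, nsmul_eq_mul]
  rw [if_pos (by simp)]
  have hq : (q : ℝ) ≠ 0 := by
    push_cast at hp1
    intro h
    apply hp1
    rw [h]
    ring
  push_cast
  have e1 : (q : ℝ) + 1 - 1 = q := by ring
  rw [e1]
  field_simp
  ring

/-- Adding a prime: `EE W t ≤ EE (W p) t` for even squarefree `W`, a prime `p ∤ W` and all real `t`.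

PROOF. The even classes modulo `W p` are in bijection with the pairs (even class `a` modulo `W`, class
`c` modulo `p`) (Chinese remainder theorem, `p` odd as `2 ∣ W`), and
`SS (W p) (0, ·) = SS W (0, a) s_p(c)`. For fixed `a`, by convexity of `exp`
(`Real.add_one_le_exp` or Jensen), `∑_{c < p} exp(-t S s_p(c)) ≥ p exp(-t S)` as
`∑_c s_p(c) = p` (`sum_local_factor`). -/
lemma EE_le_mul (W p : ℕ) (hW : Squarefree W) (h2 : 2 ∣ W) (hp : p.Prime) (hpW : ¬ p ∣ W) (t : ℝ) :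
    EE W t ≤ EE (W * p) t := by
  have hW0 : W ≠ 0 := hW.ne_zero
  have hWpos : 0 < W := Nat.pos_of_ne_zero hW0
  have hcop : Nat.Coprime W p := ((Nat.Prime.coprime_iff_not_dvd hp).mpr hpW).symm
  set s : ℤ → ℝ := fun n => if (p : ℤ) ∣ n then (p : ℝ) / (p - 1)
    else (p : ℝ) * (p - 2) / ((p : ℝ) - 1) ^ 2 with hs
  have hsper : ∀ n m : ℤ, n ≡ m [ZMOD (p : ℤ)] → s n = s m := by
    intro n m h
    have : (p : ℤ) ∣ n ↔ (p : ℤ) ∣ m := Int.ModEq.dvd_iff h
    simp only [hs, this]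
  have hSS : ∀ a c : ℕ, SS (W * p) (![0, ((a + W * c : ℕ) : ℤ)] : Fin 2 → ℤ)
      = SS W (![0, (a : ℤ)] : Fin 2 → ℤ) * s (a + W * c) := by
    intro a c
    rw [SS_pair_eq, SS_pair_eq, Nat.Coprime.primeFactors_mul hcop,
      Finset.prod_union hcop.disjoint_primeFactors, hp.primeFactors, Finset.prod_singleton]
    congr 1
    · refine Finset.prod_congr rfl fun q hq => ?_
      have hqW : (q : ℤ) ∣ (W : ℤ) := Int.natCast_dvd_natCast.mpr (Nat.dvd_of_mem_primeFactors hq)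
      have : (q : ℤ) ∣ ((a + W * c : ℕ) : ℤ) ↔ (q : ℤ) ∣ (a : ℤ) := by
        push_cast
        exact (Int.dvd_add_left (hqW.mul_right _))
      simp only [this]
  have hev : ∀ a c : ℕ, Even (a + W * c) ↔ Even a := by
    intro a c
    have : Even (W * c) := (even_iff_two_dvd.mpr h2).mul_right c
    rw [Nat.even_add]
    simp [this]
  have hsplit : ∑ b ∈ (Finset.range (W * p)).filter (fun a => Even a),
      Real.exp (-t * SS (W * p) (![0, (b : ℤ)] : Fin 2 → ℤ))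
      = ∑ a ∈ (Finset.range W).filter (fun a => Even a), ∑ c ∈ Finset.range p,
        Real.exp (-t * SS (W * p) (![0, ((a + W * c : ℕ) : ℤ)] : Fin 2 → ℤ)) := by
    rw [← Finset.sum_product']
    symm
    refine Finset.sum_nbij' (fun x => x.1 + W * x.2) (fun b => (b % W, b / W)) ?_ ?_ ?_ ?_ ?_
    · rintro ⟨a, c⟩ h
      simp only [Finset.mem_product, Finset.mem_filter, Finset.mem_range] at h ⊢
      refine ⟨?_, (hev a c).mpr h.1.2⟩
      calc a + W * c < W + W * c := by omega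
        _ = W * (c + 1) := by ring
        _ ≤ W * p := Nat.mul_le_mul_left _ h.2
    · intro b h
      simp only [Finset.mem_product, Finset.mem_filter, Finset.mem_range] at h ⊢
      refine ⟨⟨Nat.mod_lt _ hWpos, ?_⟩, Nat.div_lt_of_lt_mul h.1⟩
      have h3 := hev (b % W) (b / W)
      rw [Nat.mod_add_div] at h3
      exact h3.mp h.2
    · rintro ⟨a, c⟩ h
      simp only [Finset.mem_product, Finset.mem_filter, Finset.mem_range] at h
      have h3 : (a + W * c) % W = a := by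
        rw [Nat.add_mul_mod_self_left, Nat.mod_eq_of_lt h.1.1]
      have h4 : (a + W * c) / W = c := by
        rw [Nat.add_mul_div_left _ _ hWpos, Nat.div_eq_of_lt h.1.1, zero_add]
      simp only [h3, h4]
    · intro b h
      exact Nat.mod_add_div b W
    · rintro ⟨a, c⟩ h
      rfl
  have hinner : ∀ a : ℕ, (p : ℝ) * Real.exp (-t * SS W (![0, (a : ℤ)] : Fin 2 → ℤ))
      ≤ ∑ c ∈ Finset.range p,
        Real.exp (-t * SS (W * p) (![0, ((a + W * c : ℕ) : ℤ)] : Fin 2 → ℤ)) := by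
    intro a
    set S := SS W (![0, (a : ℤ)] : Fin 2 → ℤ) with hS
    have h3 : ∀ c ∈ Finset.range p,
        Real.exp (-t * S) * (1 + (-t * S) * (s (a + W * c) - 1))
        ≤ Real.exp (-t * SS (W * p) (![0, ((a + W * c : ℕ) : ℤ)] : Fin 2 → ℤ)) := by
      intro c _
      rw [hSS, ← hS]
      have h4 := Real.add_one_le_exp ((-t * S) * (s (a + W * c) - 1))
      have h5 : -t * (S * s (a + W * c)) = -t * S + (-t * S) * (s (a + W * c) - 1) := by ring
      rw [h5, Real.exp_add]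
      exact mul_le_mul_of_nonneg_left (by linarith) (Real.exp_pos _).le
    refine le_trans (le_of_eq ?_) (Finset.sum_le_sum h3)
    have h6 : ∑ c ∈ Finset.range p, s ((a : ℤ) + W * c) = ∑ c ∈ Finset.range p, s c :=
      sum_period_affine W p hp.one_le hcop s hsper a
    have h7 : ∑ c ∈ Finset.range p, s (c : ℤ) = p := sum_local_factor p hp
    rw [← Finset.mul_sum]
    have h8 : ∑ c ∈ Finset.range p, (1 + (-t * S) * (s ((a : ℤ) + W * c) - 1)) = p := by
      rw [Finset.sum_add_distrib, ← Finset.mul_sum, Finset.sum_sub_distrib, h6, h7]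
      simp
    rw [h8, mul_comm]
  unfold EE
  rw [hsplit]
  have hWr : (0 : ℝ) < W := by exact_mod_cast hWpos
  have hpr : (0 : ℝ) < p := by exact_mod_cast hp.pos
  calc 2 / (W : ℝ) * ∑ a ∈ (Finset.range W).filter (fun a => Even a),
        Real.exp (-t * SS W (![0, (a : ℤ)] : Fin 2 → ℤ))
      = 2 / ((W * p : ℕ) : ℝ) * ∑ a ∈ (Finset.range W).filter (fun a => Even a),
        (p : ℝ) * Real.exp (-t * SS W (![0, (a : ℤ)] : Fin 2 → ℤ)) := by
        rw [← Finset.mul_sum]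
        push_cast
        field_simp
    _ ≤ _ := by
        refine mul_le_mul_of_nonneg_left (Finset.sum_le_sum fun a _ => hinner a) (by positivity)

/-- `EE (primorial z) t ≤ EE (primorial w) t` for `2 ≤ z ≤ w`: induction on `w`
(`primorial (w + 1)` is `primorial w` or `primorial w * (w + 1)`). -/
theorem EE_mono (z w : ℕ) (hz : 2 ≤ z) (hzw : z ≤ w) (t : ℝ) :
    EE (primorial z) t ≤ EE (primorial w) t := by
  induction w, hzw using Nat.le_induction with
  | base => exact le_rfl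
  | succ w hw ih =>
    refine ih.trans ?_
    by_cases hp : (w + 1).Prime
    · have h1 : primorial (w + 1) = primorial w * (w + 1) := by
        unfold primorial
        rw [Finset.range_add_one (n := w + 1), Finset.filter_insert, if_pos hp,
          Finset.prod_insert (by simp), mul_comm]
      rw [h1]
      refine EE_le_mul _ _ (squarefree_primorial w) ?_ hp ?_ t
      · unfold primorial
        exact Finset.dvd_prod_of_mem _ (by
          rw [Finset.mem_filter, Finset.mem_range]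
          exact ⟨by omega, Nat.prime_two⟩)
      · intro h
        have h3 := (Prime.dvd_finsetProd_iff hp.prime _).mp h
        obtain ⟨q, hq, hq2⟩ := h3
        rw [Finset.mem_filter, Finset.mem_range] at hq
        have h4 := (Nat.prime_dvd_prime_iff_eq hp hq.2).mp hq2
        omega
    · have h1 : primorial (w + 1) = primorial w := by
        unfold primorial
        rw [Finset.range_add_one (n := w + 1), Finset.filter_insert, if_neg hp]
      rw [h1]

/-- `EE 2 t = exp(-2 t)`. -/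
lemma EE_two (t : ℝ) : EE 2 t = Real.exp (-2 * t) := by
  unfold EE
  have h1 : (Finset.range 2).filter (fun a => Even a) = {0} := by decide
  rw [h1, Finset.sum_singleton, SS_pair_eq, Nat.prime_two.primeFactors, Finset.prod_singleton]
  norm_num
  ring

lemma EE_le_one (W : ℕ) (h2 : 2 ∣ W) (t : ℝ) (ht : 0 ≤ t) : EE W t ≤ 1 := by
  unfold EE
  rcases Nat.eq_zero_or_pos W with hW | hW
  · subst hW
    simp
  obtain ⟨k, rfl⟩ := h2
  have hk : 0 < k := by omega
  have hkr : (0 : ℝ) < k := by exact_mod_cast hk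
  have hcard : ((Finset.range (2 * k)).filter (fun a => Even a)).card = k := by
    have h1 : (Finset.range (2 * k)).filter (fun a => Even a)
        = (Finset.range k).image (fun a => 2 * a) := by
      ext x
      simp only [Finset.mem_filter, Finset.mem_range, Finset.mem_image]
      constructor
      · rintro ⟨hx, r, hr⟩
        exact ⟨r, by omega, by omega⟩
      · rintro ⟨r, hr, rfl⟩
        exact ⟨by omega, even_two_mul r⟩
    rw [h1, Finset.card_image_of_injective _ (fun a b h => by simpa using h), Finset.card_range]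
  have h3 : ∑ a ∈ (Finset.range (2 * k)).filter (fun a => Even a),
      Real.exp (-t * SS (2 * k) (![0, (a : ℤ)] : Fin 2 → ℤ)) ≤ k := by
    calc _ ≤ ∑ a ∈ (Finset.range (2 * k)).filter (fun a => Even a), (1 : ℝ) := by
          refine Finset.sum_le_sum fun a _ => ?_
          rw [Real.exp_le_one_iff]
          have := mul_nonneg ht (SS_nonneg (2 * k) (![0, (a : ℤ)] : Fin 2 → ℤ))
          linarith
      _ = k := by
          rw [Finset.sum_const, hcard, nsmul_eq_mul, mul_one]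
  calc 2 / ((2 * k : ℕ) : ℝ) * ∑ a ∈ (Finset.range (2 * k)).filter (fun a => Even a),
      Real.exp (-t * SS (2 * k) (![0, (a : ℤ)] : Fin 2 → ℤ)) ≤ 2 / ((2 * k : ℕ) : ℝ) * k := by
        exact mul_le_mul_of_nonneg_left h3 (by positivity)
    _ = 1 := by
        push_cast
        field_simp

end Pool.Agent.Lib.MP_bae66e_nt.LL
end

section

/-!
# LP/F2a: polynomials and the Poisson law
-/

set_option autoImplicit false

open Finset Filter Topology

namespace Pool.Agent.Lib.MP_bae66e_nt.LP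

open Pool.Agent.Lib.MP_bae66e_nt.LL

/-- For every `n` and `η > 0` there is a polynomial `P` with `|P(2^{-N}) - 1_{N = n}| ≤ η` for all `N`.

PROOF. `f(x) = max 0 (1 - 2^{n+2} |x - 2^{-n}|)` is continuous, `f(2^{-n}) = 1`, and `f(2^{-N}) = 0` for
`N ≠ n`, as `|2^{-N} - 2^{-n}| ≥ 2^{-n-1}`. Weierstrass on `[0, 1]`
(`exists_polynomial_near_of_continuousOn`). -/
lemma poly_indicator (n : ℕ) (η : ℝ) (hη : 0 < η) : ∃ P : Polynomial ℝ, ∀ N : ℕ,
    |P.eval ((1 / 2 : ℝ) ^ N) - (if N = n then 1 else 0)| ≤ η := by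
  obtain ⟨f, hf⟩ : ∃ f : ℝ → ℝ, f = fun x => max 0 (1 - 2 ^ (n + 2) * |x - (1 / 2 : ℝ) ^ n|) :=
    ⟨_, rfl⟩
  have hcont : Continuous f := by
    rw [hf]
    fun_prop
  obtain ⟨P, hP⟩ := exists_polynomial_near_of_continuousOn 0 1 f hcont.continuousOn η hη
  refine ⟨P, fun N => ?_⟩
  have hN : (1 / 2 : ℝ) ^ N ∈ Set.Icc (0 : ℝ) 1 :=
    ⟨by positivity, pow_le_one₀ (by norm_num) (by norm_num)⟩
  have hval : f ((1 / 2 : ℝ) ^ N) = if N = n then 1 else 0 := by
    rw [hf]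
    simp only
    split_ifs with h
    · rw [h, sub_self, abs_zero, mul_zero, sub_zero]
      norm_num
    · have h1 : (1 / 2 : ℝ) ^ (n + 1) ≤ |(1 / 2 : ℝ) ^ N - (1 / 2 : ℝ) ^ n| := by
        rcases lt_or_gt_of_ne h with h2 | h2
        · have h3 : (1 / 2 : ℝ) ^ n ≤ (1 / 2 : ℝ) ^ (N + 1) :=
            pow_le_pow_of_le_one (by norm_num) (by norm_num) h2
          have h4 : (1 / 2 : ℝ) ^ (N + 1) = (1 / 2 : ℝ) ^ N / 2 := by
            rw [pow_succ]
            ring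
          have h5 : (1 / 2 : ℝ) ^ (n + 1) = (1 / 2 : ℝ) ^ n / 2 := by
            rw [pow_succ]
            ring
          have h6 : (0 : ℝ) < (1 / 2 : ℝ) ^ n := by positivity
          rw [abs_of_nonneg (by linarith)]
          linarith
        · have h3 : (1 / 2 : ℝ) ^ N ≤ (1 / 2 : ℝ) ^ (n + 1) :=
            pow_le_pow_of_le_one (by norm_num) (by norm_num) h2
          have h5 : (1 / 2 : ℝ) ^ (n + 1) = (1 / 2 : ℝ) ^ n / 2 := by
            rw [pow_succ]
            ring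
          have h6 : (0 : ℝ) < (1 / 2 : ℝ) ^ n := by positivity
          rw [abs_sub_comm, abs_of_nonneg (by linarith)]
          linarith
      have h2 : (2 : ℝ) ^ (n + 2) * (1 / 2 : ℝ) ^ (n + 1) = 2 := by
        rw [one_div, inv_pow, pow_succ, mul_assoc, mul_comm (2 : ℝ) ((2 ^ (n + 1))⁻¹), ← mul_assoc,
          mul_inv_cancel₀ (by positivity), one_mul]
      have h3 : (2 : ℝ) ^ (n + 2) * (1 / 2 : ℝ) ^ (n + 1) ≤
          2 ^ (n + 2) * |(1 / 2 : ℝ) ^ N - (1 / 2 : ℝ) ^ n| :=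
        mul_le_mul_of_nonneg_left h1 (by positivity)
      exact max_eq_left (by linarith)
  rw [← hval]
  exact (hP _ hN).le

/-- The same approximation for the Poisson law:
`|∑_k c_k exp(-(1 - 2^{-k}) μ) - exp(-μ) μ^n/n!| ≤ η` for `P = ∑ c_k x^k`.

PROOF. With `π_N = exp(-μ) μ^N/N!` (`π_N ≥ 0`, sum `1`): `∑_N π_N (2^{-k})^N = exp(-(1 - 2^{-k}) μ)`
(exponential series), so the first term is `∑_N π_N P(2^{-N})`, and the difference is
`∑_N π_N (P(2^{-N}) - 1_{N = n})`. -/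
lemma poly_poisson (n : ℕ) (η : ℝ) (P : Polynomial ℝ)
    (hP : ∀ N : ℕ, |P.eval ((1 / 2 : ℝ) ^ N) - (if N = n then 1 else 0)| ≤ η) (μ : ℝ)
    (hμ : 0 ≤ μ) :
    |(∑ k ∈ Finset.range (P.natDegree + 1),
        P.coeff k * Real.exp (-((1 - (1 / 2 : ℝ) ^ k) * μ)))
      - Real.exp (-μ) * μ ^ n / (n.factorial : ℝ)| ≤ η := by
  have hexp : ∀ x : ℝ, HasSum (fun N : ℕ => x ^ N / (N.factorial : ℝ)) (Real.exp x) := by
    intro x
    rw [Real.exp_eq_exp_ℝ]
    exact NormedSpace.expSeries_div_hasSum_exp x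
  obtain ⟨q, hq⟩ : ∃ q : ℕ → ℝ, q = fun N => Real.exp (-μ) * μ ^ N / (N.factorial : ℝ) := ⟨_, rfl⟩
  have hq0 : ∀ N, 0 ≤ q N := by
    intro N
    rw [hq]
    positivity
  have hqk : ∀ k : ℕ, HasSum (fun N => q N * ((1 / 2 : ℝ) ^ N) ^ k)
      (Real.exp (-((1 - (1 / 2 : ℝ) ^ k) * μ))) := by
    intro k
    have h1 := (hexp (μ * (1 / 2 : ℝ) ^ k)).mul_left (Real.exp (-μ))
    rw [← Real.exp_add] at h1
    have h2 : -μ + μ * (1 / 2 : ℝ) ^ k = -((1 - (1 / 2 : ℝ) ^ k) * μ) := by ring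
    rw [h2] at h1
    refine h1.congr_fun fun N => ?_
    rw [hq]
    simp only
    rw [mul_pow, ← pow_mul, ← pow_mul, mul_comm k N]
    ring
  have hq1 : HasSum q 1 := by
    have h1 := hqk 0
    simp only [pow_zero, mul_one, sub_self, zero_mul, neg_zero, Real.exp_zero] at h1
    exact h1
  have hP1 : HasSum (fun N => q N * P.eval ((1 / 2 : ℝ) ^ N))
      (∑ k ∈ Finset.range (P.natDegree + 1),
        P.coeff k * Real.exp (-((1 - (1 / 2 : ℝ) ^ k) * μ))) := by
    have h1 := hasSum_sum (s := Finset.range (P.natDegree + 1))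
      (fun k _ => (hqk k).mul_left (P.coeff k))
    refine h1.congr_fun fun N => ?_
    rw [Polynomial.eval_eq_sum_range, Finset.mul_sum]
    exact Finset.sum_congr rfl fun k _ => by ring
  have hn : HasSum (fun N => q N * (if N = n then (1 : ℝ) else 0)) (q n) := by
    have h1 := hasSum_ite_eq n (q n)
    refine h1.congr_fun fun N => ?_
    split_ifs with h
    · rw [h, mul_one]
    · rw [mul_zero]
  have hd := hP1.sub hn
  have hη := hq1.mul_right η
  rw [one_mul] at hη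
  have e1 : Real.exp (-μ) * μ ^ n / (n.factorial : ℝ) = q n := by rw [hq]
  rw [e1, abs_le]
  constructor
  · refine hasSum_le (fun N => ?_) hη.neg hd
    have h1 := (abs_le.1 (hP N)).1
    nlinarith [hq0 N]
  · refine hasSum_le (fun N => ?_) hd hη
    have h1 := (abs_le.1 (hP N)).2
    nlinarith [hq0 N]

/-- The Poisson probabilities are in `[0, 1]` (`μ^n/n! ≤ exp μ`). -/
lemma poisson_mem (μ : ℝ) (hμ : 0 ≤ μ) (n : ℕ) : 0 ≤ Real.exp (-μ) * μ ^ n / (n.factorial : ℝ) ∧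
    Real.exp (-μ) * μ ^ n / (n.factorial : ℝ) ≤ 1 := by
  refine ⟨by positivity, ?_⟩
  have h1 := Real.pow_div_factorial_le_exp μ hμ n
  have h2 : Real.exp (-μ) * Real.exp μ = 1 := by
    rw [← Real.exp_add, neg_add_cancel, Real.exp_zero]
  rw [mul_div_assoc, ← h2]
  exact mul_le_mul_of_nonneg_left h1 (Real.exp_pos _).le

/-- Products of nearby numbers: `|∏ y_i - ∏ x_i| ≤ (1 + η)^R - 1` for `x_i ∈ [0, 1]`,
`|y_i - x_i| ≤ η`, `R = #ι`. (Induction over the finite set.) -/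
lemma prod_near {ι : Type} [Fintype ι] (x y : ι → ℝ) (η : ℝ) (hη : 0 ≤ η)
    (hx : ∀ i, 0 ≤ x i ∧ x i ≤ 1) (hxy : ∀ i, |y i - x i| ≤ η) :
    |(∏ i, y i) - ∏ i, x i| ≤ (1 + η) ^ (Fintype.card ι) - 1 := by
  classical
  have key : ∀ s : Finset ι, |(∏ i ∈ s, y i) - ∏ i ∈ s, x i| ≤ (1 + η) ^ s.card - 1 := by
    intro s
    induction s using Finset.induction_on with
    | empty => simp
    | insert i s hi ih =>
      rw [Finset.prod_insert hi, Finset.prod_insert hi, Finset.card_insert_of_notMem hi]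
      have h1 : |∏ j ∈ s, x j| ≤ 1 := by
        rw [Finset.abs_prod]
        exact Finset.prod_le_one (fun _ _ => abs_nonneg _)
          (fun j _ => by rw [abs_of_nonneg (hx j).1]; exact (hx j).2)
      have h2 : |y i| ≤ 1 + η := by
        have h3 : y i = x i + (y i - x i) := by ring
        rw [h3]
        refine (abs_add_le _ _).trans (add_le_add ?_ (hxy i))
        rw [abs_of_nonneg (hx i).1]
        exact (hx i).2
      have e1 : y i * ∏ j ∈ s, y j - x i * ∏ j ∈ s, x j =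
          (y i - x i) * (∏ j ∈ s, x j) + y i * ((∏ j ∈ s, y j) - ∏ j ∈ s, x j) := by ring
      rw [e1]
      calc |(y i - x i) * (∏ j ∈ s, x j) + y i * ((∏ j ∈ s, y j) - ∏ j ∈ s, x j)|
          ≤ |(y i - x i) * (∏ j ∈ s, x j)| + |y i * ((∏ j ∈ s, y j) - ∏ j ∈ s, x j)| :=
            abs_add_le _ _
        _ = |y i - x i| * |∏ j ∈ s, x j| + |y i| * |(∏ j ∈ s, y j) - ∏ j ∈ s, x j| := by
            rw [abs_mul, abs_mul]
        _ ≤ η * 1 + (1 + η) * ((1 + η) ^ s.card - 1) := by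
            refine add_le_add ?_ ?_
            · exact mul_le_mul (hxy i) h1 (abs_nonneg _) hη
            · exact mul_le_mul h2 ih (abs_nonneg _) (by linarith)
        _ = (1 + η) ^ (s.card + 1) - 1 := by
            rw [pow_succ]
            ring
  exact key Finset.univ

end Pool.Agent.Lib.MP_bae66e_nt.LP
end

section

/-!
# LP/F2b: from the generating function to the frequencies
-/

set_option autoImplicit false

open Finset Filter Topology

namespace Pool.Agent.Lib.MP_bae66e_nt.LP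

open Pool.Agent.Lib.MP_bae66e_nt.LL

private lemma F2b_pow (R : ℕ) (η : ℝ) (h0 : 0 ≤ η) (h1 : η ≤ 1) :
    (1 + η) ^ R ≤ 1 + η * (2 ^ R - 1) := by
  induction R with
  | zero => simp
  | succ R ih =>
    have h2 : (1 : ℝ) ≤ 2 ^ R := one_le_pow₀ (by norm_num)
    calc (1 + η) ^ (R + 1) = (1 + η) ^ R * (1 + η) := pow_succ _ _
      _ ≤ (1 + η * (2 ^ R - 1)) * (1 + η) := mul_le_mul_of_nonneg_right ih (by linarith)
      _ ≤ 1 + η * (2 ^ (R + 1) - 1) := by
          rw [pow_succ]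
          nlinarith [mul_nonneg h0 (sub_nonneg.2 h2), mul_nonneg (mul_nonneg h0 (sub_nonneg.2 h2))
            (sub_nonneg.2 h1)]

/-- **From the joint generating function to the joint frequencies.** For every `n : ι → ℕ` and `ω > 0`
there is `ε > 0` such that for all finite `S`, `N i : ℤ → ℕ`, `μ i ≥ 0`, `V ≥ #S` with
`|∑_S ∏ z_i^{N_i} - ∑_S exp(-∑ (1 - z_i) μ_i)| ≤ ε V` for all `z ∈ [0, 1]^ι`:
`|#{m ∈ S : N_i m = n_i for all i} - ∑_S ∏_i exp(-μ_i) μ_i^{n_i}/n_i!| ≤ ω V`.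

PROOF. Let `η ∈ (0, 1]` with `(1 + η)^R - 1 ≤ ω/4`, `P_i` from `poly_indicator (n i) η`, with coefficients
`c_{i,k}`, `k ≤ d_i`. By `prod_near`, `|∏_i P_i(2^{-N_i m}) - 1_{∀ i, N_i m = n_i}| ≤ ω/4` and, with
`poly_poisson`, `poisson_mem`,
`|∏_i (∑_k c_{i,k} exp(-(1 - 2^{-k}) μ_i)) - ∏_i exp(-μ_i) μ_i^{n_i}/n_i!| ≤ ω/4`. Expand both products
over `κ ∈ ∏_i range (d_i + 1)` (`Finset.prod_univ_sum`): the terms are
`(∏ c_{i,κ_i}) ∏_i (2^{-κ_i})^{N_i}` and `(∏ c_{i,κ_i}) exp(-∑ (1 - 2^{-κ_i}) μ_i)`. The hypothesis with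
`z_i = 2^{-κ_i}` shows that the sums over `S` differ by at most `C ε V`, `C = ∑_κ ∏ |c_{i,κ_i}|`. Take
`ε = ω/(4 (C + 1))`. -/
theorem frequencies_multi {ι : Type} [Fintype ι] [DecidableEq ι] (n : ι → ℕ) (ω : ℝ)
    (hω : 0 < ω) : ∃ ε : ℝ, 0 < ε ∧ ∀ (S : Finset ℤ) (N : ι → ℤ → ℕ) (μ : ι → ℤ → ℝ) (V : ℝ),
    (∀ i, ∀ m ∈ S, 0 ≤ μ i m) → (S.card : ℝ) ≤ V →
    (∀ z : ι → ℝ, (∀ i, 0 ≤ z i ∧ z i ≤ 1) →
      |(∑ m ∈ S, ∏ i, z i ^ (N i m)) - ∑ m ∈ S, Real.exp (-(∑ i, (1 - z i) * μ i m))| ≤ ε * V) →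
    |((S.filter (fun m => ∀ i, N i m = n i)).card : ℝ)
      - ∑ m ∈ S, ∏ i, (Real.exp (-(μ i m)) * (μ i m) ^ (n i) / ((n i).factorial : ℝ))| ≤ ω * V := by
  obtain ⟨R, hR⟩ : ∃ R, R = Fintype.card ι := ⟨_, rfl⟩
  obtain ⟨η, hη⟩ : ∃ η : ℝ, η = min 1 (ω / (4 * 2 ^ R)) := ⟨_, rfl⟩
  have hη0 : 0 < η := by
    rw [hη]
    exact lt_min one_pos (by positivity)
  have hη1 : η ≤ 1 := by
    rw [hη]
    exact min_le_left _ _
  have hηR : (1 + η) ^ (Fintype.card ι) - 1 ≤ ω / 4 := by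
    rw [← hR]
    have h1 := F2b_pow R η hη0.le hη1
    have h2 : η ≤ ω / (4 * 2 ^ R) := by
      rw [hη]
      exact min_le_right _ _
    have h3 : η * 2 ^ R ≤ ω / (4 * 2 ^ R) * 2 ^ R := mul_le_mul_of_nonneg_right h2 (by positivity)
    have h4 : ω / (4 * 2 ^ R) * 2 ^ R = ω / 4 := by
      field_simp
    have h5 : η * (2 ^ R - 1) ≤ η * 2 ^ R := by nlinarith
    linarith
  choose P hP using fun i => poly_indicator (n i) η hη0
  obtain ⟨T, hT⟩ : ∃ T : Finset (ι → ℕ), T = Fintype.piFinset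
    (fun i => Finset.range ((P i).natDegree + 1)) := ⟨_, rfl⟩
  obtain ⟨C, hC⟩ : ∃ C : ℝ, C = ∑ κ ∈ T, ∏ i, |(P i).coeff (κ i)| := ⟨_, rfl⟩
  have hC0 : 0 ≤ C := by
    rw [hC]
    exact Finset.sum_nonneg fun κ _ => Finset.prod_nonneg fun i _ => abs_nonneg _
  refine ⟨ω / (4 * (C + 1)), by positivity, fun S N μ V hμ hV hz => ?_⟩
  have hV0 : 0 ≤ V := le_trans (Nat.cast_nonneg _) hV
  obtain ⟨A, hA⟩ : ∃ A : ℤ → ℝ, A = fun m => ∏ i, (P i).eval ((1 / 2 : ℝ) ^ (N i m)) := ⟨_, rfl⟩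
  obtain ⟨I, hI⟩ : ∃ I : ℤ → ℝ, I = fun m => ∏ i, if N i m = n i then (1 : ℝ) else 0 := ⟨_, rfl⟩
  obtain ⟨B, hB⟩ : ∃ B : ℤ → ℝ, B = fun m => ∏ i, ∑ k ∈ Finset.range ((P i).natDegree + 1),
    (P i).coeff k * Real.exp (-((1 - (1 / 2 : ℝ) ^ k) * μ i m)) := ⟨_, rfl⟩
  obtain ⟨Q, hQ⟩ : ∃ Q : ℤ → ℝ, Q = fun m => ∏ i, (Real.exp (-(μ i m)) * (μ i m) ^ (n i) /
    ((n i).factorial : ℝ)) := ⟨_, rfl⟩
  have h1 : ∀ m, |A m - I m| ≤ ω / 4 := by
    intro m
    rw [hA, hI]
    refine (prod_near _ _ η hη0.le (fun i => ?_) (fun i => hP i (N i m))).trans hηR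
    split_ifs <;> norm_num
  have h2 : ∀ m ∈ S, |B m - Q m| ≤ ω / 4 := by
    intro m hm
    rw [hB, hQ]
    exact (prod_near _ _ η hη0.le (fun i => poisson_mem _ (hμ i m hm) _)
      (fun i => poly_poisson (n i) η (P i) (hP i) (μ i m) (hμ i m hm))).trans hηR
  have h3 : ((S.filter (fun m => ∀ i, N i m = n i)).card : ℝ) = ∑ m ∈ S, I m := by
    rw [Finset.card_filter]
    push_cast
    refine Finset.sum_congr rfl fun m _ => ?_
    rw [hI]
    simp only
    split_ifs with h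
    · exact (Finset.prod_eq_one fun i _ => by rw [if_pos (h i)]).symm
    · push Not at h
      obtain ⟨i, hi⟩ := h
      exact (Finset.prod_eq_zero (Finset.mem_univ i) (by rw [if_neg hi])).symm
  have h4 : ∑ m ∈ S, A m = ∑ κ ∈ T, (∏ i, (P i).coeff (κ i)) *
      ∑ m ∈ S, ∏ i, ((1 / 2 : ℝ) ^ (κ i)) ^ (N i m) := by
    have e1 : ∀ m, A m = ∑ κ ∈ T, (∏ i, (P i).coeff (κ i)) *
        ∏ i, ((1 / 2 : ℝ) ^ (κ i)) ^ (N i m) := by
      intro m
      rw [hA, hT]
      simp only [Polynomial.eval_eq_sum_range]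
      rw [Finset.prod_univ_sum]
      refine Finset.sum_congr rfl fun κ _ => ?_
      rw [← Finset.prod_mul_distrib]
      refine Finset.prod_congr rfl fun i _ => ?_
      rw [← pow_mul, ← pow_mul, mul_comm (N i m)]
    simp only [e1]
    rw [Finset.sum_comm]
    exact Finset.sum_congr rfl fun κ _ => by rw [Finset.mul_sum]
  have h5 : ∑ m ∈ S, B m = ∑ κ ∈ T, (∏ i, (P i).coeff (κ i)) *
      ∑ m ∈ S, Real.exp (-(∑ i, (1 - (1 / 2 : ℝ) ^ (κ i)) * μ i m)) := by
    have e1 : ∀ m, B m = ∑ κ ∈ T, (∏ i, (P i).coeff (κ i)) *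
        Real.exp (-(∑ i, (1 - (1 / 2 : ℝ) ^ (κ i)) * μ i m)) := by
      intro m
      rw [hB, hT]
      simp only
      rw [Finset.prod_univ_sum]
      refine Finset.sum_congr rfl fun κ _ => ?_
      rw [Finset.prod_mul_distrib, ← Real.exp_sum, Finset.sum_neg_distrib]
    simp only [e1]
    rw [Finset.sum_comm]
    exact Finset.sum_congr rfl fun κ _ => by rw [Finset.mul_sum]
  have h6 : |∑ m ∈ S, A m - ∑ m ∈ S, B m| ≤ ω / 4 * V := by
    rw [h4, h5, ← Finset.sum_sub_distrib]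
    refine (Finset.abs_sum_le_sum_abs _ _).trans ?_
    have e1 : ∀ κ ∈ T, |(∏ i, (P i).coeff (κ i)) * ∑ m ∈ S, ∏ i, ((1 / 2 : ℝ) ^ (κ i)) ^ (N i m) -
        (∏ i, (P i).coeff (κ i)) *
          ∑ m ∈ S, Real.exp (-(∑ i, (1 - (1 / 2 : ℝ) ^ (κ i)) * μ i m))| ≤
        (∏ i, |(P i).coeff (κ i)|) * (ω / (4 * (C + 1)) * V) := by
      intro κ _
      rw [← mul_sub, abs_mul, Finset.abs_prod]
      refine mul_le_mul_of_nonneg_left ?_ (Finset.prod_nonneg fun i _ => abs_nonneg _)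
      exact hz (fun i => (1 / 2 : ℝ) ^ (κ i)) fun i =>
        ⟨by positivity, pow_le_one₀ (by norm_num) (by norm_num)⟩
    refine (Finset.sum_le_sum e1).trans ?_
    rw [← Finset.sum_mul, ← hC]
    have e2 : C * (ω / (4 * (C + 1)) * V) = (C / (C + 1)) * (ω / 4 * V) := by
      field_simp
    rw [e2]
    have e3 : C / (C + 1) ≤ 1 := by
      rw [div_le_one (by linarith)]
      linarith
    have e4 : 0 ≤ ω / 4 * V := by positivity
    exact mul_le_of_le_one_left e4 e3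
  have h7 : |∑ m ∈ S, A m - ∑ m ∈ S, I m| ≤ ω / 4 * V := by
    rw [← Finset.sum_sub_distrib]
    refine (Finset.abs_sum_le_sum_abs _ _).trans ((Finset.sum_le_sum fun m _ => h1 m).trans ?_)
    rw [Finset.sum_const, nsmul_eq_mul, mul_comm]
    exact mul_le_mul_of_nonneg_left hV (by positivity)
  have h8 : |∑ m ∈ S, B m - ∑ m ∈ S, Q m| ≤ ω / 4 * V := by
    rw [← Finset.sum_sub_distrib]
    refine (Finset.abs_sum_le_sum_abs _ _).trans ((Finset.sum_le_sum fun m hm => h2 m hm).trans ?_)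
    rw [Finset.sum_const, nsmul_eq_mul, mul_comm]
    exact mul_le_mul_of_nonneg_left hV (by positivity)
  have h9 : ∑ m ∈ S, ∏ i, (Real.exp (-(μ i m)) * (μ i m) ^ (n i) / ((n i).factorial : ℝ)) =
      ∑ m ∈ S, Q m := by rw [hQ]
  rw [h3, h9]
  have hωV : 0 ≤ ω * V := by positivity
  rw [abs_le] at h6 h7 h8 ⊢
  constructor <;> nlinarith [h6.1, h6.2, h7.1, h7.2, h8.1, h8.2]

end Pool.Agent.Lib.MP_bae66e_nt.LP
end

section

/-!
# LP/B2: the primes of a block decide on its core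

Adapt `zs_block`, `lamQ_block` of `LL/B/B03.lean`.
-/

set_option autoImplicit false

open Finset

namespace Pool.Agent.Lib.MP_bae66e_nt.LP

open Pool.Agent.Lib.MP_bae66e_nt.LL

/-- On the core the primes of the block decide: for `i L + Y < m ≤ (i + 1) L ≤ X`. -/
lemma zF_block (Y : ℕ) (F : ℤ → ℝ) (hF : ∀ n : ℤ, ¬ (1 ≤ n ∧ n ≤ (Y : ℤ)) → F n = 0)
    (X L i : ℕ) (hi : (i + 1) * L ≤ X) (m : ℤ)
    (h1 : ((i * L + Y : ℕ) : ℤ) < m)
    (h2 : m ≤ (((i + 1) * L : ℕ) : ℤ)) : zF F (QQ 0 X) m = zF F (QQ (i * L) L) m := by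
  have e4 : (i + 1) * L = i * L + L := by ring
  rw [e4] at h2 hi
  unfold zF
  symm
  refine Finset.prod_subset ?_ ?_
  · intro q hq
    unfold QQ at hq ⊢
    rw [Finset.mem_filter, Finset.mem_Ioc] at hq ⊢
    exact ⟨⟨by omega, by omega⟩, hq.2⟩
  · intro q hq hq'
    have hpv : F (m - q) = 0 := by
      apply hF
      rintro ⟨a1, a2⟩
      apply hq'
      unfold QQ at hq ⊢
      rw [Finset.mem_filter, Finset.mem_Ioc] at hq ⊢
      refine ⟨⟨?_, ?_⟩, hq.2⟩
      · have : ((i * L : ℕ) : ℤ) < q := by push_cast at h1 ⊢; linarith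
        exact_mod_cast this
      · have : (q : ℤ) ≤ ((i * L + L : ℕ) : ℤ) := by linarith
        exact_mod_cast this
    rw [hpv, sub_zero]

lemma lamG_block (Y : ℕ) (G : ℤ → ℝ) (hG : ∀ n : ℤ, ¬ (1 ≤ n ∧ n ≤ (Y : ℤ)) → G n = 0)
    (X L i : ℕ) (hi : (i + 1) * L ≤ X) (m : ℤ) (h1 : ((i * L + Y : ℕ) : ℤ) < m)
    (h2 : m ≤ (((i + 1) * L : ℕ) : ℤ)) : lamG G (QQ 0 X) m = lamG G (QQ (i * L) L) m := by
  have e4 : (i + 1) * L = i * L + L := by ring
  rw [e4] at h2 hi
  unfold lamG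
  symm
  apply Finset.sum_subset
  · intro q hq
    unfold QQ at hq ⊢
    rw [Finset.mem_filter, Finset.mem_Ioc] at hq ⊢
    exact ⟨⟨by omega, by omega⟩, hq.2⟩
  · intro q hq hq'
    apply hG
    rintro ⟨a1, a2⟩
    apply hq'
    unfold QQ at hq ⊢
    rw [Finset.mem_filter, Finset.mem_Ioc] at hq ⊢
    refine ⟨⟨?_, ?_⟩, hq.2⟩
    · have : ((i * L : ℕ) : ℤ) < q := by push_cast at h1 ⊢; linarith
      exact_mod_cast this
    · have : (q : ℤ) ≤ ((i * L + L : ℕ) : ℤ) := by linarith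
      exact_mod_cast this

end Pool.Agent.Lib.MP_bae66e_nt.LP
end
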