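import Pool.Agent.Lib.MP_bae66e_nt.Mg.G041
import Pool.Agent.Lib.MP_bae66e_nt.Mg.G046
import Pool.Agent.Lib.MP_bae66e_nt.LL.K.K08
import Pool.Agent.Lib.MP_bae66e_nt.Mg.G043
import Pool.Agent.Lib.MP_bae66e_nt.Mertens
import Pool.Agent.Lib.MP_bae66e_nt.LL.E.E12

section

/-!
# C01: second moments
-/

set_option autoImplicit false

open Finset

namespace Pool.Agent.Lib.MP_bae66e_nt.LL

private lemma C01_gW_nonneg (W y : ℕ) (n : ℤ) : 0 ≤ gW W y n := by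
  unfold gW
  split_ifs
  · exact nu_nonneg W n
  · exact le_rfl

private lemma C01_corr_nonneg (W y : ℕ) (d : ℤ) : 0 ≤ corr y (gW W y) d :=
  Finset.sum_nonneg fun _ _ => mul_nonneg (C01_gW_nonneg W y _) (C01_gW_nonneg W y _)

private lemma C01_corr_large (W y : ℕ) (d : ℤ) (hd : (y : ℤ) < d) :
    corr y (gW W y) d = 0 := by
  unfold corr
  refine Finset.sum_eq_zero fun n hn => ?_
  rw [Finset.mem_Icc] at hn
  rw [gW_support W y (n + d) (by omega), mul_zero]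

private lemma C01_pair (W y X : ℕ) (q q' : ℤ) :
    ∑ m ∈ Finset.Ioc (0 : ℤ) (X : ℤ), gW W y (m - q) * gW W y (m - q')
      ≤ corr y (gW W y) (q - q') := by
  have h1 : ∑ m ∈ Finset.Ioc (0 : ℤ) (X : ℤ), gW W y (m - q) * gW W y (m - q') =
      ∑ m ∈ (Finset.Ioc (0 : ℤ) (X : ℤ)).filter (fun m => 1 ≤ m - q ∧ m - q ≤ (y : ℤ)),
        gW W y (m - q) * gW W y (m - q') := by
    rw [Finset.sum_filter]
    refine Finset.sum_congr rfl fun m _ => ?_
    split_ifs with h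
    · rfl
    · rw [gW_support W y (m - q) h, zero_mul]
  rw [h1]
  have h2 : ∑ m ∈ (Finset.Ioc (0 : ℤ) (X : ℤ)).filter (fun m => 1 ≤ m - q ∧ m - q ≤ (y : ℤ)),
        gW W y (m - q) * gW W y (m - q') =
      ∑ n ∈ ((Finset.Ioc (0 : ℤ) (X : ℤ)).filter
        (fun m => 1 ≤ m - q ∧ m - q ≤ (y : ℤ))).image (fun m => m - q),
        gW W y n * gW W y (n + (q - q')) := by
    rw [Finset.sum_image (fun a _ b _ hab => by
      have : a - q = b - q := hab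
      omega)]
    refine Finset.sum_congr rfl fun m _ => ?_
    congr 2
    ring
  rw [h2]
  unfold corr
  refine Finset.sum_le_sum_of_subset_of_nonneg ?_ fun n _ _ =>
    mul_nonneg (C01_gW_nonneg W y _) (C01_gW_nonneg W y _)
  intro n hn
  rw [Finset.mem_image] at hn
  obtain ⟨m, hm, rfl⟩ := hn
  rw [Finset.mem_filter] at hm
  exact Finset.mem_Icc.2 hm.2

private lemma C01_lam (W y X : ℕ) (m : ℤ) :
    (lamQ W y (QQ 0 X) m) ^ 2 = (1 / (Real.log y) ^ 2) *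
      ∑ x ∈ QQ 0 X ×ˢ QQ 0 X, gW W y (m - (x.1 : ℤ)) * gW W y (m - (x.2 : ℤ)) := by
  have h1 : lamQ W y (QQ 0 X) m = (∑ q ∈ QQ 0 X, gW W y (m - (q : ℤ))) / Real.log y := by
    unfold lamQ vv
    rw [Finset.sum_div]
  rw [h1, div_pow, sq (∑ q ∈ QQ 0 X, gW W y (m - (q : ℤ))), Finset.sum_mul_sum,
    ← Finset.sum_product']
  ring

private lemma C01_offdiag (W y X : ℕ) :
    ∑ x ∈ (QQ 0 X ×ˢ QQ 0 X).filter (fun x => x.2 < x.1),
      corr y (gW W y) ((x.1 : ℤ) - (x.2 : ℤ))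
      ≤ ∑ d ∈ Finset.Icc 1 y, ((pairsN d X).card : ℝ) * corr y (gW W y) (d : ℤ) := by
  have h1 : ∑ x ∈ (QQ 0 X ×ˢ QQ 0 X).filter (fun x => x.2 < x.1),
      corr y (gW W y) ((x.1 : ℤ) - (x.2 : ℤ)) =
      ∑ x ∈ (QQ 0 X ×ˢ QQ 0 X).filter (fun x => x.2 < x.1 ∧ x.1 ≤ x.2 + y),
        corr y (gW W y) ((x.1 : ℤ) - (x.2 : ℤ)) := by
    rw [Finset.sum_filter, Finset.sum_filter]
    refine Finset.sum_congr rfl fun x _ => ?_
    by_cases h2 : x.2 < x.1
    · by_cases h3 : x.1 ≤ x.2 + y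
      · rw [if_pos h2, if_pos ⟨h2, h3⟩]
      · rw [if_pos h2, if_neg (fun h => h3 h.2)]
        exact C01_corr_large W y _ (by omega)
    · rw [if_neg h2, if_neg (fun h => h2 h.1)]
  rw [h1]
  have hmaps : ∀ x ∈ (QQ 0 X ×ˢ QQ 0 X).filter (fun x => x.2 < x.1 ∧ x.1 ≤ x.2 + y),
      x.1 - x.2 ∈ Finset.Icc 1 y := by
    intro x hx
    rw [Finset.mem_filter] at hx
    rw [Finset.mem_Icc]
    omega
  rw [← Finset.sum_fiberwise_of_maps_to hmaps]
  refine Finset.sum_le_sum fun d _ => ?_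
  have h2 : ∑ x ∈ ((QQ 0 X ×ˢ QQ 0 X).filter (fun x => x.2 < x.1 ∧ x.1 ≤ x.2 + y)).filter
        (fun x => x.1 - x.2 = d), corr y (gW W y) ((x.1 : ℤ) - (x.2 : ℤ)) =
      ∑ x ∈ ((QQ 0 X ×ˢ QQ 0 X).filter (fun x => x.2 < x.1 ∧ x.1 ≤ x.2 + y)).filter
        (fun x => x.1 - x.2 = d), corr y (gW W y) (d : ℤ) := by
    refine Finset.sum_congr rfl fun x hx => ?_
    rw [Finset.mem_filter, Finset.mem_filter] at hx
    congr 1
    omega
  rw [h2, Finset.sum_const, nsmul_eq_mul]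
  refine mul_le_mul_of_nonneg_right ?_ (C01_corr_nonneg W y _)
  have h3 : (((QQ 0 X ×ˢ QQ 0 X).filter (fun x => x.2 < x.1 ∧ x.1 ≤ x.2 + y)).filter
        (fun x => x.1 - x.2 = d)).card ≤ (pairsN d X).card := by
    refine Finset.card_le_card_of_injOn (fun x => x.2) ?_ ?_
    · intro x hx
      rw [Finset.mem_coe, Finset.mem_filter, Finset.mem_filter, Finset.mem_product] at hx
      obtain ⟨⟨⟨hx1, hx2⟩, hx3, hx4⟩, hx5⟩ := hx
      unfold QQ at hx1 hx2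
      rw [Finset.mem_filter, Finset.mem_Ioc] at hx1 hx2
      change x.2 ∈ pairsN d X
      unfold pairsN
      rw [Finset.mem_filter, Finset.mem_Ioc]
      refine ⟨⟨hx2.1.1, by omega⟩, hx2.2, ?_⟩
      have h4 : 1 * x.2 + d = x.1 := by omega
      rw [h4]
      exact hx1.2
    · intro x hx x' hx' h4
      rw [Finset.mem_coe, Finset.mem_filter, Finset.mem_filter] at hx hx'
      have h5 : x.2 = x'.2 := h4
      exact Prod.ext (by omega) h5
  exact_mod_cast h3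

/-- Expansion of the square: the pairs `(q, q')` of primes `≤ X` at distance `< y` and the
correlations of the model.

PROOF. `λ(m)² = (log y)^{-2} ∑_{q, q'} gW(m - q) gW(m - q')`; sum over `m` (all terms are
nonnegative; for fixed `q, q'` put `n = m - q ∈ [1, y]`, `m - q' = n + (q - q')`):
`∑_m gW(m - q) gW(m - q') ≤ corr y gW (q - q')`. The pairs with `q = q'` give
`#QQ corr y gW 0`; the pairs with `|q - q'| = d ≥ 1` number at most `2 #{q ≤ X : q, q + d prime}`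
(`pairsN d X` of `Energy.lean`), and `corr` is even (`corr_neg`) and `0` for `d ≥ y`. -/
lemma sum_lam_sq_le (W y X : ℕ) (hy : 2 ≤ y) :
    ∑ m ∈ Finset.Ioc (0 : ℤ) (X : ℤ), (lamQ W y (QQ 0 X) m) ^ 2
      ≤ (1 / (Real.log y) ^ 2) * (((QQ 0 X).card : ℝ) * corr y (gW W y) 0
        + 2 * ∑ d ∈ Finset.Icc 1 y, ((pairsN d X).card : ℝ) * corr y (gW W y) (d : ℤ)) := by
  have _ := hy
  have h1 : ∑ m ∈ Finset.Ioc (0 : ℤ) (X : ℤ), (lamQ W y (QQ 0 X) m) ^ 2 =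
      (1 / (Real.log y) ^ 2) * ∑ x ∈ QQ 0 X ×ˢ QQ 0 X,
        ∑ m ∈ Finset.Ioc (0 : ℤ) (X : ℤ), gW W y (m - (x.1 : ℤ)) * gW W y (m - (x.2 : ℤ)) := by
    rw [Finset.sum_comm, Finset.mul_sum]
    exact Finset.sum_congr rfl fun m _ => C01_lam W y X m
  rw [h1]
  refine mul_le_mul_of_nonneg_left ?_ (by positivity)
  refine (Finset.sum_le_sum fun x _ => C01_pair W y X x.1 x.2).trans ?_
  have hoff := C01_offdiag W y X
  have h2 : ∑ x ∈ (QQ 0 X ×ˢ QQ 0 X).filter (fun x => x.1 < x.2),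
      corr y (gW W y) ((x.1 : ℤ) - (x.2 : ℤ)) =
      ∑ x ∈ (QQ 0 X ×ˢ QQ 0 X).filter (fun x => x.2 < x.1),
      corr y (gW W y) ((x.1 : ℤ) - (x.2 : ℤ)) := by
    refine Finset.sum_bij' (fun x _ => (x.2, x.1)) (fun x _ => (x.2, x.1)) ?_ ?_ ?_ ?_ ?_
    · intro x hx
      rw [Finset.mem_filter, Finset.mem_product] at hx ⊢
      exact ⟨⟨hx.1.2, hx.1.1⟩, hx.2⟩
    · intro x hx
      rw [Finset.mem_filter, Finset.mem_product] at hx ⊢
      exact ⟨⟨hx.1.2, hx.1.1⟩, hx.2⟩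
    · intro x _
      rfl
    · intro x _
      rfl
    · intro x _
      have h3 := corr_neg y (gW W y) (fun n hn => gW_support W y n hn) ((x.2 : ℤ) - (x.1 : ℤ))
      rw [neg_sub] at h3
      exact h3
  have h3 : ∑ x ∈ (QQ 0 X ×ˢ QQ 0 X).filter (fun x => x.1 = x.2),
      corr y (gW W y) ((x.1 : ℤ) - (x.2 : ℤ)) = ((QQ 0 X).card : ℝ) * corr y (gW W y) 0 := by
    have h4 : ∑ x ∈ (QQ 0 X ×ˢ QQ 0 X).filter (fun x => x.1 = x.2),
        corr y (gW W y) ((x.1 : ℤ) - (x.2 : ℤ)) = ∑ q ∈ QQ 0 X, corr y (gW W y) 0 := by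
      refine Finset.sum_bij' (fun x _ => x.1) (fun q _ => (q, q)) ?_ ?_ ?_ ?_ ?_
      · intro x hx
        rw [Finset.mem_filter, Finset.mem_product] at hx
        exact hx.1.1
      · intro q hq
        rw [Finset.mem_filter, Finset.mem_product]
        exact ⟨⟨hq, hq⟩, rfl⟩
      · intro x hx
        rw [Finset.mem_filter] at hx
        exact Prod.ext rfl hx.2
      · intro q _
        rfl
      · intro x hx
        rw [Finset.mem_filter] at hx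
        rw [hx.2, sub_self]
    rw [h4, Finset.sum_const, nsmul_eq_mul]
  have h4 : ∑ x ∈ QQ 0 X ×ˢ QQ 0 X, corr y (gW W y) ((x.1 : ℤ) - (x.2 : ℤ)) =
      ∑ x ∈ (QQ 0 X ×ˢ QQ 0 X).filter (fun x => x.1 = x.2),
        corr y (gW W y) ((x.1 : ℤ) - (x.2 : ℤ)) +
      (∑ x ∈ (QQ 0 X ×ˢ QQ 0 X).filter (fun x => x.2 < x.1),
        corr y (gW W y) ((x.1 : ℤ) - (x.2 : ℤ)) +
      ∑ x ∈ (QQ 0 X ×ˢ QQ 0 X).filter (fun x => x.1 < x.2),
        corr y (gW W y) ((x.1 : ℤ) - (x.2 : ℤ))) := by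
    rw [Finset.sum_filter, Finset.sum_filter, Finset.sum_filter, ← Finset.sum_add_distrib,
      ← Finset.sum_add_distrib]
    refine Finset.sum_congr rfl fun x _ => ?_
    rcases lt_trichotomy x.1 x.2 with h | h | h
    · rw [if_neg h.ne, if_neg (not_lt.2 h.le), if_pos h, zero_add, zero_add]
    · rw [if_pos h, if_neg (by omega), if_neg (by omega), add_zero, add_zero]
    · rw [if_neg h.ne', if_pos h, if_neg (not_lt.2 h.le), add_zero, zero_add]
  rw [h4, h3, h2]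
  linarith

/-- Second moment of the intensity: there is an absolute `K` such that for squarefree `W`, `C₀ ≥ 0`,
`δ > 0`, and `X, y ≥ N₀` with `y ≤ C₀ log X log y`:
`∑_{m ≤ X} λ(m)² ≤ (K (y/(log X log y))² + δ) X`.

PROOF. `sum_lam_sq_le`. `#QQ ≤ 5 X / log X` (`pi_upper`, see B04), `corr y gW 0 ≤ y W²`
(`corr_gW_zero`): the diagonal is at most `5 W² X y / (log X (log y)²) ≤ 5 W² C₀ X / log y ≤ δ X` for
large `y`. For `1 ≤ d ≤ y`: `#pairsN d X ≤ 2000 X / (ρ(d) log X)²` (`card_pairsN_le`),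
`corr y gW d ≤ 2 y / ρ(d)²` (`corr_gW_le`, `y ≥ 2 W³`), and `∑_{d ≤ y} ρ(d)^{-4} ≤ C y`
(`sum_inv_rho_pow_le 4`). So `K = 8000 C`. -/
theorem second_moment_lam : ∃ K : ℝ, 1 ≤ K ∧ ∀ W : ℕ, Squarefree W → ∀ C₀ : ℝ, 0 ≤ C₀ →
    ∀ δ : ℝ, 0 < δ → ∃ N₀ : ℕ, ∀ X : ℕ, N₀ ≤ X → ∀ y : ℕ, N₀ ≤ y →
      (y : ℝ) ≤ C₀ * Real.log X * Real.log y →
      ∑ m ∈ Finset.Ioc (0 : ℤ) (X : ℤ), (lamQ W y (QQ 0 X) m) ^ 2
        ≤ (K * (y / (Real.log X * Real.log y)) ^ 2 + δ) * X := by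
  obtain ⟨C, hC1, hC⟩ := sum_inv_rho_pow_le 4
  refine ⟨8000 * C, by linarith, ?_⟩
  intro W hW C₀ hC₀ δ hδ
  have hW1 : 1 ≤ W := Nat.pos_of_ne_zero hW.ne_zero
  refine ⟨max (max 2 (2 * W ^ 3)) ⌈Real.exp (5 * (W : ℝ) ^ 2 * C₀ / δ)⌉₊, ?_⟩
  intro X hX y hy hyC
  have hX2 : 2 ≤ X := ((le_max_left _ _).trans (le_max_left _ _)).trans hX
  have hy2 : 2 ≤ y := ((le_max_left _ _).trans (le_max_left _ _)).trans hy
  have hyW : 2 * W ^ 3 ≤ y := ((le_max_right _ _).trans (le_max_left _ _)).trans hy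
  have hye : ⌈Real.exp (5 * (W : ℝ) ^ 2 * C₀ / δ)⌉₊ ≤ y := (le_max_right _ _).trans hy
  have hX1R : (1 : ℝ) < X := by exact_mod_cast (by omega : 1 < X)
  have hy1R : (1 : ℝ) < y := by exact_mod_cast (by omega : 1 < y)
  have hlX : 0 < Real.log X := Real.log_pos hX1R
  have hly : 0 < Real.log y := Real.log_pos hy1R
  have hlog : 5 * (W : ℝ) ^ 2 * C₀ / δ ≤ Real.log y := by
    rw [Real.le_log_iff_exp_le (by linarith)]
    exact (Nat.le_ceil _).trans (by exact_mod_cast hye)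
  have h1 := sum_lam_sq_le W y X hy2
  refine h1.trans ?_
  have hcard : ((QQ 0 X).card : ℝ) ≤ 5 * X / Real.log X := by
    have h2 := sum_card_QQ_le X X (by omega)
    rw [Nat.div_self (by omega), Finset.sum_range_one, Nat.zero_mul] at h2
    exact h2.trans (pi_upper X hX2)
  have hdiag : ((QQ 0 X).card : ℝ) * corr y (gW W y) 0 ≤
      5 * X / Real.log X * (y * (W : ℝ) ^ 2) := by
    refine mul_le_mul hcard ((le_abs_self _).trans (corr_gW_zero W y hW1))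
      (C01_corr_nonneg W y 0) (by positivity)
  have hoff : ∑ d ∈ Finset.Icc 1 y, ((pairsN d X).card : ℝ) * corr y (gW W y) (d : ℤ) ≤
      4000 * X * y / (Real.log X) ^ 2 * (C * y) := by
    refine le_trans ?_ (mul_le_mul_of_nonneg_left (hC y) (by positivity))
    rw [Finset.mul_sum]
    refine Finset.sum_le_sum fun d hd => ?_
    rw [Finset.mem_Icc] at hd
    have h2 := card_pairsN_le d X hd.1 hX2
    have h3 := corr_gW_le W y hW hyW (d : ℤ) (by omega) (by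
      rw [abs_of_nonneg (by omega)]
      exact_mod_cast hd.2)
    rw [Int.natAbs_natCast] at h3
    have h4 : ((pairsN d X).card : ℝ) * corr y (gW W y) (d : ℤ) ≤
        (2000 * X / ((rho d) ^ 2 * (Real.log X) ^ 2)) * (2 * (1 / rho d) ^ 2 * y) := by
      refine mul_le_mul h2 ((le_abs_self _).trans h3) (C01_corr_nonneg W y _) ?_
      have := rho_pos d
      positivity
    refine h4.trans (le_of_eq ?_)
    have h5 := (rho_pos d).ne'
    field_simp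
    ring
  have hL2 : (0 : ℝ) < (Real.log y) ^ 2 := by positivity
  have hfin1 : (1 / (Real.log y) ^ 2) * (5 * X / Real.log X * (y * (W : ℝ) ^ 2)) ≤ δ * X := by
    have h2 : (1 / (Real.log y) ^ 2) * (5 * X / Real.log X * (y * (W : ℝ) ^ 2)) ≤
        (1 / (Real.log y) ^ 2) * (5 * X / Real.log X *
          ((C₀ * Real.log X * Real.log y) * (W : ℝ) ^ 2)) := by
      gcongr
    refine h2.trans ?_
    have h3 : (1 / (Real.log y) ^ 2) * (5 * X / Real.log X *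
          ((C₀ * Real.log X * Real.log y) * (W : ℝ) ^ 2)) =
        (5 * (W : ℝ) ^ 2 * C₀) * X / Real.log y := by
      field_simp
    rw [h3, div_le_iff₀ hly]
    have h4 : 5 * (W : ℝ) ^ 2 * C₀ ≤ Real.log y * δ := (div_le_iff₀ hδ).1 hlog
    have hX0 : (0 : ℝ) ≤ X := by linarith
    nlinarith
  have hfin2 : (1 / (Real.log y) ^ 2) * (2 * (4000 * X * y / (Real.log X) ^ 2 * (C * y))) =
      8000 * C * (y / (Real.log X * Real.log y)) ^ 2 * X := by
    field_simp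
    ring
  calc (1 / (Real.log y) ^ 2) * (((QQ 0 X).card : ℝ) * corr y (gW W y) 0
        + 2 * ∑ d ∈ Finset.Icc 1 y, ((pairsN d X).card : ℝ) * corr y (gW W y) (d : ℤ))
      ≤ (1 / (Real.log y) ^ 2) * (5 * X / Real.log X * (y * (W : ℝ) ^ 2)
        + 2 * (4000 * X * y / (Real.log X) ^ 2 * (C * y))) := by
        refine mul_le_mul_of_nonneg_left (add_le_add hdiag ?_) (by positivity)
        exact mul_le_mul_of_nonneg_left hoff (by norm_num)
    _ ≤ δ * X + 8000 * C * (y / (Real.log X * Real.log y)) ^ 2 * X := by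
        rw [mul_add, hfin2]
        exact add_le_add hfin1 le_rfl
    _ = _ := by ring

/-- Second moment of the singular series: `∑_{m ≤ X} (SP W m)² ≤ K X` with an absolute `K`:
`SP W m ≤ 1 / ρ(m)` for `m ≥ 1` (`SS_pair_le` with `d = -m`) and `sum_inv_rho_pow_le 2`. -/
theorem second_moment_SP : ∃ K : ℝ, 1 ≤ K ∧ ∀ W X : ℕ,
    ∑ m ∈ Finset.Ioc (0 : ℤ) (X : ℤ), (SP W m) ^ 2 ≤ K * X := by
  obtain ⟨C, hC1, hC⟩ := sum_inv_rho_pow_le 2
  refine ⟨C, hC1, fun W X => ?_⟩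
  refine le_trans ?_ (hC X)
  have h1 : ∑ m ∈ Finset.Ioc (0 : ℤ) (X : ℤ), (SP W m) ^ 2 =
      ∑ n ∈ Finset.Icc 1 X, (SP W (n : ℤ)) ^ 2 := by
    refine Finset.sum_bij' (fun (m : ℤ) _ => m.toNat) (fun (n : ℕ) _ => (n : ℤ)) ?_ ?_ ?_ ?_ ?_
    · intro m hm
      rw [Finset.mem_Ioc] at hm
      rw [Finset.mem_Icc]
      omega
    · intro n hn
      rw [Finset.mem_Icc] at hn
      rw [Finset.mem_Ioc]
      omega
    · intro m hm
      rw [Finset.mem_Ioc] at hm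
      exact Int.toNat_of_nonneg hm.1.le
    · intro n _
      exact Int.toNat_natCast n
    · intro m hm
      rw [Finset.mem_Ioc] at hm
      rw [Int.toNat_of_nonneg hm.1.le]
  rw [h1]
  refine Finset.sum_le_sum fun n hn => ?_
  rw [Finset.mem_Icc] at hn
  have h2 := SS_pair_le W (-(n : ℤ)) (by omega)
  rw [neg_neg, Int.natAbs_neg, Int.natAbs_natCast] at h2
  exact pow_le_pow_left₀ (SS_nonneg W _) h2 2

end Pool.Agent.Lib.MP_bae66e_nt.LL
end

section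

/-!
# LP/R0a: arithmetic of `W₀ = primorial w₁`
-/

set_option autoImplicit false

open Finset Filter Topology

namespace Pool.Agent.Lib.MP_bae66e_nt.LP

open Pool.Agent.Lib.MP_bae66e_nt.LL

/-- `ρ(W) = φ(W)/W` for `W ≥ 1` (`Nat.totient_eq_mul_prod_factors`). -/
lemma rho_eq_totient_div (W : ℕ) (hW : 1 ≤ W) : rho W = (Nat.totient W : ℝ) / W := by
  have h1 := Nat.totient_eq_mul_prod_factors W
  have h2 : ((Nat.totient W : ℚ) : ℝ) = (((W : ℚ) * ∏ p ∈ W.primeFactors, (1 - (p : ℚ)⁻¹) : ℚ) : ℝ) := by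
    rw [h1]
  push_cast at h2
  have hW0 : (W : ℝ) ≠ 0 := by exact_mod_cast (by omega : W ≠ 0)
  rw [eq_div_iff hW0, h2, mul_comm]
  unfold rho
  simp only [one_div]

/-- `W₀/φ(W₀)` grows slower than every power: for every `K` there is `w₁ ≥ 4` with
`K (W₀/φ(W₀))^6 ≤ √w₁`, `W₀ = primorial w₁`, and the same for all larger `w₁`.

PROOF. `W₀/φ(W₀) = ∏_{p ≤ w₁} (1 - 1/p)^{-1} ≤ exp(2 ∑_{p ≤ w₁} 1/p) ≤ exp(12 loglog w₁ + 8)
= e^8 (log w₁)^12` (`1/(1 - x) ≤ exp(2 x)` for `0 ≤ x ≤ 1/2`, `sum_inv_prms_le`; the prime factors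
of `primorial w₁` are the primes `≤ w₁`). Powers of `log` are `o(√w₁)`. -/
lemma ratio_small (K : ℝ) : ∃ w₁ : ℕ, 4 ≤ w₁ ∧ ∀ w : ℕ, w₁ ≤ w →
    K * (((primorial w : ℕ) : ℝ) / (Nat.totient (primorial w) : ℝ)) ^ 6 ≤ Real.sqrt w := by
  have hbd : ∀ w : ℕ, 4 ≤ w → ((primorial w : ℕ) : ℝ) / (Nat.totient (primorial w) : ℝ)
      ≤ Real.exp 8 * (Real.log w) ^ 12 := by
    intro w hw
    have hp : 1 ≤ primorial w := primorial_pos w
    have hlw : 1 ≤ Real.log w := by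
      rw [Real.le_log_iff_exp_le (by positivity)]
      have := Real.exp_one_lt_d9
      have h4 : (4 : ℝ) ≤ w := by exact_mod_cast hw
      linarith
    have h1 : ((primorial w : ℕ) : ℝ) / (Nat.totient (primorial w) : ℝ) = 1 / rho (primorial w) := by
      rw [rho_eq_totient_div _ hp, one_div_div]
    rw [h1]
    have h2 : (primorial w).primeFactors = prms w := by
      ext p
      rw [mem_prms, Nat.mem_primeFactors]
      constructor
      · rintro ⟨h3, h4, _⟩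
        exact ⟨h3.dvd_primorial_iff.1 h4, h3⟩
      · rintro ⟨h3, h4⟩
        exact ⟨h4, h4.dvd_primorial_iff.2 h3, by omega⟩
    have h3 : Real.exp (-(2 * ∑ p ∈ prms w, 1 / (p : ℝ))) ≤ rho (primorial w) := by
      unfold rho
      rw [h2, Finset.mul_sum, ← Finset.sum_neg_distrib, Real.exp_sum]
      apply Finset.prod_le_prod (fun _ _ => (Real.exp_pos _).le)
      intro p hp'
      have h5 : (2 : ℝ) ≤ p := by exact_mod_cast (mem_prms.1 hp').2.two_le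
      have h6 : 0 < 1 / (p : ℝ) := by positivity
      have h7 : 1 / (p : ℝ) ≤ 1 / 2 := one_div_le_one_div_of_le (by norm_num) h5
      set x : ℝ := 1 / (p : ℝ) with hx
      have h8 : 1 / (1 - x) ≤ Real.exp (2 * x) := by
        have h9 := Real.add_one_le_exp (2 * x)
        refine le_trans ?_ h9
        rw [div_le_iff₀ (by linarith)]
        nlinarith
      rw [Real.exp_neg, inv_le_comm₀ (Real.exp_pos _) (by linarith), ← one_div]
      exact h8
    have h4 := sum_inv_prms_le w (by omega)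
    have h5 : 1 / rho (primorial w) ≤ Real.exp (2 * ∑ p ∈ prms w, 1 / (p : ℝ)) := by
      rw [Real.exp_neg] at h3
      rw [one_div]
      exact (inv_le_comm₀ (Real.exp_pos _) (rho_pos _)).1 h3
    refine h5.trans ?_
    have h6 : Real.exp 8 * (Real.log w) ^ 12 = Real.exp (12 * Real.log (Real.log w) + 8) := by
      rw [Real.exp_add, mul_comm, show (12 : ℝ) * Real.log (Real.log w) = ((12 : ℕ) : ℝ) * Real.log (Real.log w) by norm_num,
        Real.exp_nat_mul, Real.exp_log (by linarith)]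
    rw [h6]
    apply Real.exp_le_exp.2
    linarith
  -- growth
  have h1 : Tendsto (fun w : ℕ => (w : ℝ)) atTop atTop := tendsto_natCast_atTop_atTop
  have h2 := (isLittleO_log_rpow_rpow_atTop (72 : ℝ) (by norm_num : (0 : ℝ) < 1 / 2)).def
    (show (0 : ℝ) < 1 / ((|K| + 1) * Real.exp 48) by positivity)
  have h3 := h1.eventually h2
  obtain ⟨w₁, hw₁⟩ := Filter.eventually_atTop.1 (h3.and (Filter.eventually_ge_atTop 4))
  refine ⟨max w₁ 4, le_max_right _ _, fun w hw => ?_⟩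
  obtain ⟨h4, h5⟩ := hw₁ w ((le_max_left _ _).trans hw)
  have h6 := hbd w h5
  have hlw : 0 ≤ Real.log w := Real.log_natCast_nonneg w
  rw [Real.norm_of_nonneg (Real.rpow_nonneg hlw _),
    Real.norm_of_nonneg (Real.rpow_nonneg (Nat.cast_nonneg w) _),
    ← Real.sqrt_eq_rpow, show (72 : ℝ) = ((72 : ℕ) : ℝ) by norm_num, Real.rpow_natCast] at h4
  have h7 : 0 ≤ ((primorial w : ℕ) : ℝ) / (Nat.totient (primorial w) : ℝ) := by positivity
  have h8 : (((primorial w : ℕ) : ℝ) / (Nat.totient (primorial w) : ℝ)) ^ 6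
      ≤ Real.exp 48 * (Real.log w) ^ 72 := by
    refine (pow_le_pow_left₀ h7 h6 6).trans (le_of_eq ?_)
    rw [mul_pow, ← pow_mul, ← Real.exp_nat_mul]
    norm_num
  calc K * (((primorial w : ℕ) : ℝ) / (Nat.totient (primorial w) : ℝ)) ^ 6
      ≤ (|K| + 1) * (Real.exp 48 * (Real.log w) ^ 72) := by
        apply mul_le_mul _ h8 (by positivity) (by positivity)
        have := le_abs_self K
        linarith
    _ ≤ (|K| + 1) * (Real.exp 48 * (1 / ((|K| + 1) * Real.exp 48) * Real.sqrt w)) := by gcongr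
    _ = Real.sqrt w := by
        have h9 : (|K| + 1) ≠ 0 := by positivity
        have h10 : Real.exp 48 ≠ 0 := (Real.exp_pos _).ne'
        field_simp

end Pool.Agent.Lib.MP_bae66e_nt.LP
end

section

/-!
# LP/R0b: arithmetic of `W₀ = primorial w₁`
-/

set_option autoImplicit false

open Finset Filter Topology

namespace Pool.Agent.Lib.MP_bae66e_nt.LP

open Pool.Agent.Lib.MP_bae66e_nt.LL

private lemma R0b_filter (W₀ D : ℕ) (hW : 1 ≤ W₀) :
    (Finset.Icc 1 D).filter (fun d => W₀ ∣ d) = (Finset.Icc 1 (D / W₀)).image (fun e => W₀ * e) := by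
  ext d
  simp only [Finset.mem_filter, Finset.mem_Icc, Finset.mem_image]
  constructor
  · rintro ⟨⟨h1, h2⟩, e, rfl⟩
    refine ⟨e, ⟨?_, ?_⟩, rfl⟩
    · rcases Nat.eq_zero_or_pos e with h | h
      · subst h; simp at h1
      · exact h
    · rw [Nat.le_div_iff_mul_le hW, mul_comm]
      exact h2
  · rintro ⟨e, ⟨h1, h2⟩, rfl⟩
    refine ⟨⟨?_, ?_⟩, Nat.dvd_mul_right _ _⟩
    · exact Nat.mul_pos hW h1
    · rw [Nat.le_div_iff_mul_le hW, mul_comm] at h2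
      exact h2

private lemma R0b_sum (W₀ D : ℕ) (hW : 1 ≤ W₀) (f : ℕ → ℝ) :
    ∑ d ∈ (Finset.Icc 1 D).filter (fun d => W₀ ∣ d), f d
      = ∑ e ∈ Finset.Icc 1 (D / W₀), f (W₀ * e) := by
  rw [R0b_filter W₀ D hW, Finset.sum_image]
  intro a _ b _ hab
  exact Nat.eq_of_mul_eq_mul_left hW hab

private lemma R0b_rho (W₀ e B : ℕ) (hW : 1 ≤ W₀) (he : 1 ≤ e) :
    (1 / rho (W₀ * e)) ^ B ≤ (1 / rho W₀) ^ B * (1 / rho e) ^ B := by
  rw [← mul_pow]
  apply pow_le_pow_left₀ (by have := rho_pos (W₀ * e); positivity)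
  have h1 := rho_mul_ge W₀ e (by omega) (by omega)
  have h2 := rho_pos W₀
  have h3 := rho_pos e
  rw [div_mul_div_comm, one_mul]
  exact one_div_le_one_div_of_le (mul_pos h2 h3) h1

/-- Sums over multiples: for `B`, there is `C` with
`∑_{d ≤ D, W₀ ∣ d} ρ(d)^{-B} ≤ C ρ(W₀)^{-B} (D/W₀)` for all `W₀ ≥ 1`, `D`.

PROOF. `d = W₀ e`, `e ≤ D/W₀`, `ρ(W₀ e) ≥ ρ(W₀) ρ(e)` (`rho_mul_ge`), `sum_inv_rho_pow_le`. -/
lemma sum_rho_multiples_le (B : ℕ) : ∃ C : ℝ, 1 ≤ C ∧ ∀ W₀ : ℕ, 1 ≤ W₀ → ∀ D : ℕ,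
    ∑ d ∈ (Finset.Icc 1 D).filter (fun d => W₀ ∣ d), (1 / rho d) ^ B
      ≤ C * (1 / rho W₀) ^ B * ((D : ℝ) / W₀) := by
  obtain ⟨C, hC1, hC⟩ := sum_inv_rho_pow_le B
  refine ⟨C, hC1, fun W₀ hW D => ?_⟩
  rw [R0b_sum W₀ D hW]
  have h1 : ∑ e ∈ Finset.Icc 1 (D / W₀), (1 / rho (W₀ * e)) ^ B
      ≤ (1 / rho W₀) ^ B * ∑ e ∈ Finset.Icc 1 (D / W₀), (1 / rho e) ^ B := by
    rw [Finset.mul_sum]
    exact Finset.sum_le_sum fun e he => R0b_rho W₀ e B hW (Finset.mem_Icc.1 he).1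
  have h2 := hC (D / W₀)
  have h3 : ((D / W₀ : ℕ) : ℝ) ≤ (D : ℝ) / W₀ := Nat.cast_div_le
  have h4 : 0 ≤ (1 / rho W₀) ^ B := by have := rho_pos W₀; positivity
  calc _ ≤ (1 / rho W₀) ^ B * (C * ((D / W₀ : ℕ) : ℝ)) :=
        h1.trans (mul_le_mul_of_nonneg_left h2 h4)
    _ ≤ (1 / rho W₀) ^ B * (C * ((D : ℝ) / W₀)) := by gcongr
    _ = _ := by ring

/-- The same with the factor `sig w₁ d`, `W₀ = primorial w₁`: for every `B` there is `C` with
`∑_{d ≤ D, W₀ ∣ d} ρ(d)^{-B} sig w₁ d ≤ C ρ(W₀)^{-B} (D/W₀)/√w₁`.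

PROOF. `d = W₀ e`: the primes `> w₁` dividing `d` divide `e`, so `sig w₁ d = sig w₁ e` (or `≤`);
Cauchy-Schwarz with `sum_inv_rho_pow_le (2 B)` and `sum_sig_sq_le`: `∑_{e ≤ N} ρ(e)^{-B} sig ≤
(C N)^{1/2} (2 N/w₁)^{1/2}`. -/
lemma sum_rho_sig_multiples_le (B : ℕ) : ∃ C : ℝ, 1 ≤ C ∧ ∀ w₁ : ℕ, 1 ≤ w₁ → ∀ D : ℕ,
    ∑ d ∈ (Finset.Icc 1 D).filter (fun d => primorial w₁ ∣ d), (1 / rho d) ^ B * sig w₁ d
      ≤ C * (1 / rho (primorial w₁)) ^ B * ((D : ℝ) / (primorial w₁ : ℕ)) / Real.sqrt w₁ := by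
  obtain ⟨C, hC1, hC⟩ := sum_inv_rho_pow_le (2 * B)
  refine ⟨2 * C, by linarith, fun w₁ hw D => ?_⟩
  set W₀ : ℕ := primorial w₁ with hW₀
  have hW : 1 ≤ W₀ := primorial_pos w₁
  rw [R0b_sum W₀ D hW]
  set N : ℕ := D / W₀ with hN
  have hsig0 : ∀ d, 0 ≤ sig w₁ d := fun d => Finset.sum_nonneg fun _ _ => by positivity
  have hsig : ∀ e ∈ Finset.Icc 1 N, sig w₁ (W₀ * e) ≤ sig w₁ e := by
    intro e he
    rw [Finset.mem_Icc] at he
    unfold sig
    apply Finset.sum_le_sum_of_subset_of_nonneg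
    · intro p hp
      rw [Finset.mem_filter, Nat.mem_primeFactors] at hp ⊢
      obtain ⟨⟨h1, h2, _⟩, h3⟩ := hp
      refine ⟨⟨h1, ?_, by omega⟩, h3⟩
      rcases (h1.dvd_mul).1 h2 with h4 | h4
      · exfalso
        rw [hW₀, h1.dvd_primorial_iff] at h4
        omega
      · exact h4
    · intro _ _ _; positivity
  have h4 : 0 ≤ (1 / rho W₀) ^ B := by have := rho_pos W₀; positivity
  have h1 : ∑ e ∈ Finset.Icc 1 N, (1 / rho (W₀ * e)) ^ B * sig w₁ (W₀ * e)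
      ≤ (1 / rho W₀) ^ B * ∑ e ∈ Finset.Icc 1 N, (1 / rho e) ^ B * sig w₁ e := by
    rw [Finset.mul_sum]
    refine Finset.sum_le_sum fun e he => ?_
    have h5 := R0b_rho W₀ e B hW (Finset.mem_Icc.1 he).1
    calc _ ≤ ((1 / rho W₀) ^ B * (1 / rho e) ^ B) * sig w₁ e :=
          mul_le_mul h5 (hsig e he) (hsig0 _) (by
            have := rho_pos W₀; have := rho_pos e; positivity)
      _ = _ := by ring
  -- Cauchy-Schwarz
  have h2 : (∑ e ∈ Finset.Icc 1 N, (1 / rho e) ^ B * sig w₁ e) ^ 2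
      ≤ (C * N) * (2 * N / w₁) := by
    refine (Finset.sum_mul_sq_le_sq_mul_sq _ _ _).trans ?_
    apply mul_le_mul _ (sum_sig_sq_le w₁ N hw) (Finset.sum_nonneg fun _ _ => sq_nonneg _)
      (by have : (0 : ℝ) ≤ N := Nat.cast_nonneg _
          nlinarith)
    refine le_trans (le_of_eq ?_) (hC N)
    refine Finset.sum_congr rfl fun e _ => ?_
    rw [← pow_mul, mul_comm B 2]
  have hw0 : (0 : ℝ) < w₁ := by exact_mod_cast hw
  have hN0 : (0 : ℝ) ≤ N := Nat.cast_nonneg _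
  have hs : 0 < Real.sqrt w₁ := Real.sqrt_pos.2 hw0
  have h3 : ∑ e ∈ Finset.Icc 1 N, (1 / rho e) ^ B * sig w₁ e ≤ 2 * C * N / Real.sqrt w₁ := by
    apply abs_le_of_sq_le_sq' _ (by positivity) |>.2
    refine h2.trans ?_
    rw [div_pow, Real.sq_sqrt hw0.le]
    rw [mul_div_assoc', div_le_div_iff_of_pos_right hw0]
    nlinarith [mul_nonneg hN0 hN0, mul_nonneg (mul_nonneg hN0 hN0) (by linarith : (0 : ℝ) ≤ C - 1), mul_nonneg (mul_nonneg hN0 hN0) (by nlinarith : (0 : ℝ) ≤ C * (C - 1))]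
  have h6 : ((N : ℕ) : ℝ) ≤ (D : ℝ) / W₀ := Nat.cast_div_le
  calc _ ≤ (1 / rho W₀) ^ B * (2 * C * N / Real.sqrt w₁) :=
        h1.trans (mul_le_mul_of_nonneg_left h3 h4)
    _ ≤ (1 / rho W₀) ^ B * (2 * C * ((D : ℝ) / W₀) / Real.sqrt w₁) := by gcongr
    _ = _ := by ring

end Pool.Agent.Lib.MP_bae66e_nt.LP
end
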