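import Pool.Agent.Lib.MP_bae66e_nt.Mg.G041
import Pool.Agent.Lib.MP_bae66e_nt.Mertens
import Pool.Agent.Lib.MP_bae66e_nt.LL.K.K08
import Pool.Agent.Lib.MP_bae66e_nt.LL.E.E12
import Pool.Agent.Lib.MP_bae66e_nt.Mg.G046
import Pool.Agent.Lib.MP_bae66e_nt.Mg.G051
import Pool.Agent.Lib.MP_bae66e_nt.Mg.G045
import Pool.Agent.Lib.MP_bae66e_nt.Mg.G043
import Pool.Agent.Lib.MP_bae66e_nt.Mg.G049

section

/-!
# LP/R0c: arithmetic of `W₀ = primorial w₁`
-/

set_option autoImplicit false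

open Finset Filter Topology

namespace Pool.Agent.Lib.MP_bae66e_nt.LP

open Pool.Agent.Lib.MP_bae66e_nt.LL

/-- Admissible shifts: a class `r` with all `h i - r` coprime to the squarefree number `W`.

PROOF. For each prime `p ∣ W` choose `c_p` with `h i ≢ c_p (p)` for all `i`; `r ≡ c_p (p)` by the
Chinese remainder theorem (`Nat.chineseRemainderOfFinset`, or induction on the prime factors). An
integer is coprime to `W` if no prime factor of `W` divides it. -/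
lemma exists_class {r : ℕ} (h : Fin r → ℕ)
    (hadm : ∀ p : ℕ, p.Prime → ∃ c : ℕ, ∀ i, ¬ (h i ≡ c [MOD p])) (W : ℕ) (hW : Squarefree W) :
    ∃ r₀ : ℤ, ∀ i, IsCoprime ((h i : ℤ) - r₀) (W : ℤ) := by
  classical
  choose! c hc using hadm
  have hs : ∀ p ∈ W.primeFactors, (fun p : ℕ => p) p ≠ 0 := fun p hp =>
    (Nat.prime_of_mem_primeFactors hp).ne_zero
  have pp : Set.Pairwise (↑W.primeFactors) (Function.onFun Nat.Coprime (fun p : ℕ => p)) := by
    intro p hp q hq hpq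
    exact (Nat.coprime_primes (Nat.prime_of_mem_primeFactors hp)
      (Nat.prime_of_mem_primeFactors hq)).2 hpq
  obtain ⟨k, hk⟩ := Nat.chineseRemainderOfFinset c (fun p : ℕ => p) W.primeFactors hs pp
  refine ⟨(k : ℤ), fun i => ?_⟩
  rw [Int.isCoprime_iff_gcd_eq_one]
  by_contra hg
  obtain ⟨p, hp, hpd⟩ := Nat.exists_prime_and_dvd hg
  have h1 : (p : ℤ) ∣ (h i : ℤ) - k := (Int.natCast_dvd_natCast.2 hpd).trans (Int.gcd_dvd_left _ _)
  have h2 : (p : ℤ) ∣ (W : ℤ) := (Int.natCast_dvd_natCast.2 hpd).trans (Int.gcd_dvd_right _ _)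
  have h3 : p ∣ W := by exact_mod_cast h2
  have h4 : p ∈ W.primeFactors := Nat.mem_primeFactors.2 ⟨hp, h3, hW.ne_zero⟩
  have h5 := hk p h4
  apply hc p hp i
  have h6 : h i ≡ k [MOD p] := by
    rw [← Int.natCast_modEq_iff]
    exact (Int.modEq_iff_dvd.2 h1).symm
  exact h6.trans h5

end Pool.Agent.Lib.MP_bae66e_nt.LP
end

section

end

section

/-!
# LP/B4: from sets of primes to shifts

Adapt `LL/B/B05.lean` (from `B05_prod` on): `F`, `G` supported in `[1, Y]` for `pv y`, `vv W y`.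
-/

set_option autoImplicit false

open Finset

namespace Pool.Agent.Lib.MP_bae66e_nt.LP

open Pool.Agent.Lib.MP_bae66e_nt.LL

private lemma B4_hh_nonneg {k : ℕ} (h : Fin k → ℤ) (hpos : ∀ i, 1 ≤ h i) (i : Fin (k + 1)) :
    0 ≤ hh h i := by
  refine Fin.cases ?_ ?_ i
  · exact le_of_eq rfl
  · intro j
    have := hpos j
    change 0 ≤ h j
    omega

private lemma B4_prod {k : ℕ} (q : ℕ) (h : Fin k → ℤ) (hinj : Function.Injective (hh h))
    (hpos : ∀ i, 1 ≤ h i) (T : Finset ℕ)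
    (hT : ∀ n : ℕ, n ∈ T ↔ ∃ i, (n : ℤ) = q + hh h i) (f : ℤ → ℝ) (m : ℤ) :
    ∏ q' ∈ T, f (m - (q' : ℕ)) = ∏ i, f (m - q - hh h i) := by
  symm
  apply Finset.prod_bij (fun (i : Fin (k + 1)) _ => ((q : ℤ) + hh h i).toNat)
  · intro i _
    rw [hT]
    refine ⟨i, ?_⟩
    have := B4_hh_nonneg h hpos i
    rw [Int.toNat_of_nonneg (by positivity)]
  · intro i _ j _ hij
    have hi := B4_hh_nonneg h hpos i
    have hj := B4_hh_nonneg h hpos j
    have h1 : (((q : ℤ) + hh h i).toNat : ℤ) = (((q : ℤ) + hh h j).toNat : ℤ) := by rw [hij]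
    rw [Int.toNat_of_nonneg (by positivity), Int.toNat_of_nonneg (by positivity)] at h1
    apply hinj
    linarith
  · intro n hn
    obtain ⟨i, hi⟩ := (hT n).mp hn
    refine ⟨i, Finset.mem_univ _, ?_⟩
    rw [← hi, Int.toNat_natCast]
  · intro i _
    have hi := B4_hh_nonneg h hpos i
    rw [Int.toNat_of_nonneg (by positivity)]
    congr 1
    ring

private lemma B4_diam (Y : ℕ) (F G : ℤ → ℝ)
    (hF : ∀ n : ℤ, ¬ (1 ≤ n ∧ n ≤ (Y : ℤ)) → F n = 0)
    (hG : ∀ n : ℤ, ¬ (1 ≤ n ∧ n ≤ (Y : ℤ)) → G n = 0)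
    (T : Finset ℕ) (q q' : ℕ) (hq : q ∈ T) (hq' : q' ∈ T)
    (hd : q + Y ≤ q') (m : ℤ) :
    (∏ q ∈ T, F (m - q)) = 0 ∧ (∏ q ∈ T, G (m - q)) = 0 := by
  by_cases h1 : 1 ≤ m - (q : ℤ) ∧ m - (q : ℤ) ≤ (Y : ℤ)
  · have h2 : ¬ (1 ≤ m - (q' : ℤ) ∧ m - (q' : ℤ) ≤ (Y : ℤ)) := by
      rintro ⟨g1, _⟩
      have hd' : (q : ℤ) + Y ≤ q' := by exact_mod_cast hd
      omega
    exact ⟨Finset.prod_eq_zero hq' (hF _ h2), Finset.prod_eq_zero hq' (hG _ h2)⟩
  · exact ⟨Finset.prod_eq_zero hq (hF _ h1), Finset.prod_eq_zero hq (hG _ h1)⟩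

private lemma B4_DD_nonneg {k : ℕ} (y W : ℕ) (f g : ℤ → ℝ) (h : Fin k → ℤ) :
    0 ≤ DD y W f g h := Finset.sum_nonneg fun _ _ => abs_nonneg _

/-- One set of primes: see `sum_class_eq_DD`. -/
lemma sum_class_eq_DDG {k : ℕ} (x L Y W q : ℕ) (hW : 1 ≤ W) (F G : ℤ → ℝ)
    (hF : ∀ n : ℤ, ¬ (1 ≤ n ∧ n ≤ (Y : ℤ)) → F n = 0)
    (hG : ∀ n : ℤ, ¬ (1 ≤ n ∧ n ≤ (Y : ℤ)) → G n = 0) (hq1 : x < q) (hq2 : q ≤ x + L)
    (h : Fin k → ℤ) (hinj : Function.Injective (hh h)) (hpos : ∀ i, 1 ≤ h i) (T : Finset ℕ)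
    (hT : ∀ n : ℕ, n ∈ T ↔ ∃ i, (n : ℤ) = q + hh h i) :
    ∑ a ∈ Finset.range W, |∑ m ∈ extC x L Y W a,
        ((∏ q' ∈ T, F (m - q')) - ∏ q' ∈ T, G (m - q'))|
      = DD Y W F G h := by
  have hWZ : (0 : ℤ) < W := by exact_mod_cast (show 0 < W by omega)
  have hinner : ∀ a b : ℕ, ((a : ℤ) - q) ≡ (b : ℤ) [ZMOD (W : ℤ)] →
      ∑ m ∈ extC x L Y W a, ((∏ q' ∈ T, F (m - q')) - ∏ q' ∈ T, G (m - q'))
      = ∑ n ∈ (Finset.Icc (1 : ℤ) (Y : ℤ)).filter (fun n => n ≡ (b : ℤ) [ZMOD (W : ℤ)]),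
        ((∏ i, F (n - hh h i)) - ∏ i, G (n - hh h i)) := by
    intro a b hab
    have e1 : ∀ m : ℤ, (∏ q' ∈ T, F (m - q')) - ∏ q' ∈ T, G (m - q')
        = (∏ i, F (m - q - hh h i)) - ∏ i, G (m - q - hh h i) := by
      intro m
      rw [B4_prod q h hinj hpos T hT F m, B4_prod q h hinj hpos T hT G m]
    simp only [e1]
    symm
    apply Finset.sum_of_injOn (fun n : ℤ => n + q)
    · intro n _ n' _ hnn
      simpa using hnn
    · intro n hn
      simp only [Finset.coe_filter, Finset.mem_Icc, Set.mem_ofPred_eq] at hn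
      simp only [extC, Finset.coe_filter, Finset.mem_Ioc, Set.mem_ofPred_eq]
      refine ⟨⟨by omega, by push_cast; omega⟩, ?_⟩
      have h2 : n ≡ (a : ℤ) - q [ZMOD (W : ℤ)] := hn.2.trans hab.symm
      have h3 := h2.add_right (q : ℤ)
      rwa [sub_add_cancel] at h3
    · intro m hm hm'
      have hnot : ¬ (1 ≤ m - q ∧ m - q ≤ (Y : ℤ)) := by
        rintro ⟨g1, g2⟩
        apply hm'
        refine ⟨m - q, ?_, by simp⟩
        simp only [extC, Finset.mem_filter, Finset.mem_Ioc] at hm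
        simp only [Finset.coe_filter, Finset.mem_Icc, Set.mem_ofPred_eq]
        refine ⟨⟨g1, g2⟩, ?_⟩
        have h4 := hm.2.sub_right (q : ℤ)
        exact h4.trans hab
      have z1 : ∏ i, F (m - q - hh h i) = 0 := by
        apply Finset.prod_eq_zero (Finset.mem_univ (0 : Fin (k + 1)))
        have : hh h 0 = 0 := rfl
        rw [this, sub_zero]
        exact hF _ hnot
      have z2 : ∏ i, G (m - q - hh h i) = 0 := by
        apply Finset.prod_eq_zero (Finset.mem_univ (0 : Fin (k + 1)))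
        have : hh h 0 = 0 := rfl
        rw [this, sub_zero]
        exact hG _ hnot
      rw [z1, z2, sub_zero]
    · intro n _
      simp only [add_sub_cancel_right]
  unfold DD
  have hcast : ∀ a : ℕ, ((((a : ℤ) - q) % (W : ℤ)).toNat : ℤ) = ((a : ℤ) - q) % (W : ℤ) :=
    fun a => Int.toNat_of_nonneg (Int.emod_nonneg _ hWZ.ne')
  apply Finset.sum_nbij' (fun a : ℕ => (((a : ℤ) - q) % (W : ℤ)).toNat)
    (fun b : ℕ => (b + q) % W)
  · intro a _
    rw [Finset.mem_range]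
    have h1 := Int.emod_lt_of_pos ((a : ℤ) - q) hWZ
    have h2 := hcast a
    omega
  · intro b _
    rw [Finset.mem_range]
    exact Nat.mod_lt _ (by omega)
  · intro a ha
    rw [Finset.mem_range] at ha
    have h1 : (((((a : ℤ) - q) % (W : ℤ)).toNat + q) % W : ℕ) = a := by
      have h2 : ((((((a : ℤ) - q) % (W : ℤ)).toNat + q) % W : ℕ) : ℤ) = (a : ℤ) := by
        push_cast
        rw [hcast a, Int.emod_add_emod, sub_add_cancel]
        exact Int.emod_eq_of_lt (by positivity) (by exact_mod_cast ha)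
      exact_mod_cast h2
    exact h1
  · intro b hb
    rw [Finset.mem_range] at hb
    have h2 : ((((((b + q) % W : ℕ) : ℤ) - q) % (W : ℤ)).toNat : ℤ) = (b : ℤ) := by
      rw [hcast]
      push_cast
      rw [Int.emod_sub_emod, add_sub_cancel_right]
      exact Int.emod_eq_of_lt (by positivity) (by exact_mod_cast hb)
    exact_mod_cast h2
  · intro a _
    rw [hinner a _ ?_]
    rw [hcast a]
    exact (Int.mod_modEq _ _).symm

/-- For a block: see `sum_ErrJ_block_le`. -/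
lemma sum_ErrG_block_le (x L Y W k : ℕ) (hW : 1 ≤ W) (F G : ℤ → ℝ)
    (hF : ∀ n : ℤ, ¬ (1 ≤ n ∧ n ≤ (Y : ℤ)) → F n = 0)
    (hG : ∀ n : ℤ, ¬ (1 ≤ n ∧ n ≤ (Y : ℤ)) → G n = 0) :
    ∑ a ∈ Finset.range W, ErrG F G (QQ x L) (extC x L Y W a) (k + 1)
      ≤ ∑ h ∈ shiftsP k Y, (((QQ x L).filter (fun q : ℕ => ∀ i, ((q : ℤ) + h i).toNat ∈ QQ x L)).card : ℝ)
        * DD Y W F G h := by
  classical
  set D : Finset ℕ → ℝ := fun T => ∑ a ∈ Finset.range W, |∑ m ∈ extC x L Y W a,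
        ((∏ q' ∈ T, F (m - q')) - ∏ q' ∈ T, G (m - q'))| with hD
  have hD0 : ∀ T, 0 ≤ D T := fun T => Finset.sum_nonneg fun _ _ => abs_nonneg _
  have h1 : ∑ a ∈ Finset.range W, ErrG F G (QQ x L) (extC x L Y W a) (k + 1)
      ≤ ∑ T ∈ Finset.powersetCard (k + 1) (QQ x L), D T := by
    rw [hD]
    simp only
    rw [Finset.sum_comm]
    apply Finset.sum_le_sum
    intro a _
    exact Finset.abs_sum_le_sum_abs _ _
  refine h1.trans ?_
  set pairs := (shiftsP k Y).sigma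
    (fun h => (QQ x L).filter (fun q : ℕ => ∀ i, ((q : ℤ) + h i).toNat ∈ QQ x L)) with hpairs
  set Φ : (Σ _ : Fin k → ℤ, ℕ) → Finset ℕ :=
    fun p => Finset.univ.image (fun i => ((p.2 : ℤ) + hh p.1 i).toNat) with hΦ
  have h2 : ∑ T ∈ Finset.powersetCard (k + 1) (QQ x L), D T ≤ ∑ T ∈ pairs.image Φ, D T := by
    have h3 : ∑ T ∈ Finset.powersetCard (k + 1) (QQ x L), D T
        = ∑ T ∈ (Finset.powersetCard (k + 1) (QQ x L)).filter (fun T => D T ≠ 0), D T :=
      (Finset.sum_filter_ne_zero _).symm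
    rw [h3]
    apply Finset.sum_le_sum_of_subset_of_nonneg
    · intro T hT
      rw [Finset.mem_filter, Finset.mem_powersetCard] at hT
      obtain ⟨⟨hTQ, hcard⟩, hne⟩ := hT
      set emb := T.orderEmbOfFin hcard with hemb
      have hmem : ∀ i, emb i ∈ T := fun i => Finset.orderEmbOfFin_mem T hcard i
      have hdiam : ∀ i, emb i < emb 0 + Y := by
        intro i
        by_contra hcon
        rw [not_lt] at hcon
        apply hne
        rw [hD]
        simp only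
        apply Finset.sum_eq_zero
        intro a _
        rw [abs_eq_zero]
        apply Finset.sum_eq_zero
        intro m _
        obtain ⟨z1, z2⟩ := B4_diam Y F G hF hG T (emb 0) (emb i) (hmem 0) (hmem i) hcon m
        rw [z1, z2, sub_zero]
      have hlt : ∀ i : Fin k, emb 0 < emb i.succ := fun i => emb.strictMono (Fin.succ_pos i)
      rw [Finset.mem_image]
      refine ⟨⟨fun i => ((emb i.succ : ℕ) : ℤ) - ((emb 0 : ℕ) : ℤ), emb 0⟩, ?_, ?_⟩
      · have hhh : ∀ i : Fin (k + 1), hh (fun i : Fin k => ((emb i.succ : ℕ) : ℤ) - ((emb 0 : ℕ) : ℤ)) i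
            = ((emb i : ℕ) : ℤ) - ((emb 0 : ℕ) : ℤ) := by
          intro i
          refine Fin.cases ?_ ?_ i
          · change (0 : ℤ) = _
            rw [sub_self]
          · intro j
            rfl
        rw [hpairs, Finset.mem_sigma]
        refine ⟨?_, ?_⟩
        · simp only [shiftsP, shifts, Finset.mem_filter, Fintype.mem_piFinset, Finset.mem_Icc]
          refine ⟨fun i => ⟨?_, ?_⟩, ?_, fun i => ?_⟩
          · have := hlt i
            omega
          · have := hdiam i.succ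
            omega
          · intro i j hij
            rw [hhh, hhh] at hij
            apply emb.injective
            have : ((emb i : ℕ) : ℤ) = ((emb j : ℕ) : ℤ) := by linarith
            exact_mod_cast this
          · have := hlt i
            omega
        · simp only [Finset.mem_filter]
          refine ⟨hTQ (hmem 0), fun i => ?_⟩
          have : ((emb 0 : ℕ) : ℤ) + (((emb i.succ : ℕ) : ℤ) - ((emb 0 : ℕ) : ℤ))
              = ((emb i.succ : ℕ) : ℤ) := by ring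
          rw [this, Int.toNat_natCast]
          exact hTQ (hmem _)
      · have hhh : ∀ i : Fin (k + 1), hh (fun i : Fin k => ((emb i.succ : ℕ) : ℤ) - ((emb 0 : ℕ) : ℤ)) i
            = ((emb i : ℕ) : ℤ) - ((emb 0 : ℕ) : ℤ) := by
          intro i
          refine Fin.cases ?_ ?_ i
          · change (0 : ℤ) = _
            rw [sub_self]
          · intro j
            rfl
        rw [hΦ]
        simp only [hhh, add_sub_cancel, Int.toNat_natCast]
        exact Finset.image_orderEmbOfFin_univ T hcard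
    · intro T _ _
      exact hD0 T
  refine h2.trans ((Finset.sum_image_le_of_nonneg (fun T _ => hD0 T)).trans (le_of_eq ?_))
  have h4 : ∀ p ∈ pairs, D (Φ p) = DD Y W F G p.1 := by
    rintro ⟨h, q⟩ hp
    rw [hpairs, Finset.mem_sigma] at hp
    obtain ⟨hp1, hp2⟩ := hp
    simp only at hp1 hp2
    simp only [shiftsP, Finset.mem_filter] at hp1
    simp only [QQ, Finset.mem_filter, Finset.mem_Ioc] at hp2
    obtain ⟨_, hinj, hpos⟩ := hp1
    rw [hD]
    simp only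
    apply sum_class_eq_DDG x L Y W q hW F G hF hG hp2.1.1.1 hp2.1.1.2 h hinj hpos
    intro n
    rw [hΦ]
    simp only [Finset.mem_image, Finset.mem_univ, true_and]
    constructor
    · rintro ⟨i, hi⟩
      refine ⟨i, ?_⟩
      rw [← hi]
      have := B4_hh_nonneg h hpos i
      rw [Int.toNat_of_nonneg (by positivity)]
    · rintro ⟨i, hi⟩
      refine ⟨i, ?_⟩
      rw [← hi, Int.toNat_natCast]
  rw [Finset.sum_congr rfl h4, hpairs, Finset.sum_sigma]
  apply Finset.sum_congr rfl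
  intro h _
  simp only
  rw [Finset.sum_const, nsmul_eq_mul]

/-- Sum over the blocks: see `sum_ErrJ_le`. -/
theorem sum_ErrG_le (X L Y W k : ℕ) (hL : 0 < L) (hW : 1 ≤ W) (F G : ℤ → ℝ)
    (hF : ∀ n : ℤ, ¬ (1 ≤ n ∧ n ≤ (Y : ℤ)) → F n = 0)
    (hG : ∀ n : ℤ, ¬ (1 ≤ n ∧ n ≤ (Y : ℤ)) → G n = 0) :
    ∑ i ∈ Finset.range (X / L), ∑ a ∈ Finset.range W,
        ErrG F G (QQ (i * L) L) (extC (i * L) L Y W a) (k + 1)
      ≤ ∑ h ∈ shiftsP k Y,
        (((Finset.Ioc 0 X).filter (fun q => q.Prime ∧ ∀ i, (q + (h i).toNat).Prime)).card : ℝ)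
          * DD Y W F G h := by
  classical
  refine (Finset.sum_le_sum fun i _ => sum_ErrG_block_le (i * L) L Y W k hW F G hF hG).trans ?_
  rw [Finset.sum_comm]
  apply Finset.sum_le_sum
  intro h hh'
  rw [← Finset.sum_mul]
  apply mul_le_mul_of_nonneg_right _ (B4_DD_nonneg Y W _ _ h)
  simp only [shiftsP, Finset.mem_filter] at hh'
  have hpos := hh'.2.2
  rw [← Nat.cast_sum]
  have hdisj : ∀ i ∈ Finset.range (X / L), ∀ j ∈ Finset.range (X / L), i ≠ j →
      Disjoint ((QQ (i * L) L).filter (fun q : ℕ => ∀ l, ((q : ℤ) + h l).toNat ∈ QQ (i * L) L))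
        ((QQ (j * L) L).filter (fun q : ℕ => ∀ l, ((q : ℤ) + h l).toNat ∈ QQ (j * L) L)) := by
    intro i _ j _ hij
    rw [Finset.disjoint_left]
    intro q hq hq'
    simp only [QQ, Finset.mem_filter, Finset.mem_Ioc] at hq hq'
    obtain ⟨⟨⟨a1, a2⟩, _⟩, _⟩ := hq
    obtain ⟨⟨⟨b1, b2⟩, _⟩, _⟩ := hq'
    rcases lt_or_gt_of_ne hij with hlt | hlt
    · have : (i + 1) * L ≤ j * L := Nat.mul_le_mul_right L hlt
      rw [add_mul, one_mul] at this
      omega
    · have : (j + 1) * L ≤ i * L := Nat.mul_le_mul_right L hlt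
      rw [add_mul, one_mul] at this
      omega
  rw [← Finset.card_biUnion hdisj]
  have hsub : (Finset.range (X / L)).biUnion (fun i => (QQ (i * L) L).filter
      (fun q : ℕ => ∀ l, ((q : ℤ) + h l).toNat ∈ QQ (i * L) L))
      ⊆ (Finset.Ioc 0 X).filter (fun q => q.Prime ∧ ∀ i, (q + (h i).toNat).Prime) := by
    intro q hq
    rw [Finset.mem_biUnion] at hq
    obtain ⟨i, hi, hq⟩ := hq
    rw [Finset.mem_range] at hi
    simp only [QQ, Finset.mem_filter, Finset.mem_Ioc] at hq ⊢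
    obtain ⟨⟨⟨a1, a2⟩, hqp⟩, hq3⟩ := hq
    refine ⟨⟨by omega, ?_⟩, hqp, fun l => ?_⟩
    · have h5 : (i + 1) * L ≤ X / L * L := Nat.mul_le_mul_right L hi
      have h6 : X / L * L ≤ X := Nat.div_mul_le_self X L
      rw [add_mul, one_mul] at h5
      omega
    · have h7 := (hq3 l).2
      have h8 : ((q : ℤ) + h l).toNat = q + (h l).toNat := by
        have := hpos l
        omega
      rwa [h8] at h7
  exact_mod_cast Finset.card_le_card hsub

end Pool.Agent.Lib.MP_bae66e_nt.LP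
end

section

/-!
# LP/B1: the good classes, for a general pair of functions

Adapt the second half of `LL/B/B02.lean` (`zs_nonneg`, …, `good_class`): `F` for `s * pv y`, `G` for
`s * vv W y`, `UG Γ Q a` for `UU W y Q a`.
-/

set_option autoImplicit false

open Finset

namespace Pool.Agent.Lib.MP_bae66e_nt.LP

open Pool.Agent.Lib.MP_bae66e_nt.LL

variable {W Y : ℕ} {A : ℝ} {F G Γ : ℤ → ℝ}

/-- `0 ≤ zF ≤ 1`. -/
lemma zF_nonneg (hP : PairFG W Y A F G Γ) (Q : Finset ℕ) (m : ℤ) : 0 ≤ zF F Q m := by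
  unfold zF
  refine Finset.prod_nonneg fun q _ => ?_
  have h2 := hP.F1 (m - q)
  linarith

lemma zF_le_one (hP : PairFG W Y A F G Γ) (Q : Finset ℕ) (m : ℤ) : zF F Q m ≤ 1 := by
  unfold zF
  refine Finset.prod_le_one (fun q _ => ?_) (fun q _ => ?_)
  · have h2 := hP.F1 (m - q)
    linarith
  · have h1 := hP.F0 (m - q)
    linarith

lemma lamG_nonneg (hP : PairFG W Y A F G Γ) (Q : Finset ℕ) (m : ℤ) : 0 ≤ lamG G Q m := by
  unfold lamG
  exact Finset.sum_nonneg fun q _ => hP.G0 _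

lemma UG_nonneg (hP : PairFG W Y A F G Γ) (Q : Finset ℕ) (a : ℕ) : 0 ≤ UG Γ Q a := by
  unfold UG
  exact Finset.sum_nonneg fun q _ => hP.Γ0 _

/-- `λ(m) ≤ UG Γ Q a` for `m ≡ a (W)` (`G ≤ Γ`, periodicity of `Γ`). -/
lemma lamG_le_UG (hP : PairFG W Y A F G Γ) (Q : Finset ℕ) (a : ℕ) (m : ℤ)
    (hm : m ≡ (a : ℤ) [ZMOD (W : ℤ)]) : lamG G Q m ≤ UG Γ Q a := by
  unfold lamG UG
  apply Finset.sum_le_sum
  intro q _
  rw [← hP.Γp (m - q) ((a : ℤ) - q) (Int.ModEq.sub_right _ hm)]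
  exact hP.GΓ _

/-- The good classes (`sifted_compare` of `LL/B/B02.lean` with `p_q(m) = F(m - q)`,
`x_q(m) = G(m - q)`, `δ = A W / log Y`). -/
theorem good_classG (hP : PairFG W Y A F G Γ) (hδ0 : 0 ≤ A * W / Real.log Y)
    (hδ : A * W / Real.log Y ≤ 1)
    (Q : Finset ℕ) (a : ℕ) (S : Finset ℤ) (hS : ∀ m ∈ S, m ≡ (a : ℤ) [ZMOD (W : ℤ)]) (Λ η : ℝ)
    (K : ℕ) (hU : UG Γ Q a ≤ Λ) (hK : ∀ j : ℕ, K < j → Λ ^ j / (Nat.factorial j : ℝ) ≤ η) :
    |(∑ m ∈ S, zF F Q m) - ∑ m ∈ S, Real.exp (-(lamG G Q m))|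
      ≤ (S.card : ℝ) * (η + A * W / Real.log Y * Λ)
        + ∑ j ∈ Finset.Icc 1 (K + 1), ErrG F G Q S j := by
  have h := sifted_compare Q S (fun q m => F (m - q)) (fun q m => G (m - q))
    (A * W / Real.log Y) Λ η K
    (fun q _ m _ => hP.F0 _) (fun q _ m _ => hP.F1 _)
    (fun q _ m _ => hP.G0 _) (fun q _ m _ => hP.G1 _) hδ hδ0
    (fun m hm => (lamG_le_UG hP Q a m (hS m hm)).trans hU) hK
  exact h

end Pool.Agent.Lib.MP_bae66e_nt.LP
end

section

/-!
# LP/B3: the bad classes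

Adapt `sum_UU_le`, `card_bad_le` of `LL/B/B04.lean`.
-/

set_option autoImplicit false

open Finset

namespace Pool.Agent.Lib.MP_bae66e_nt.LP

open Pool.Agent.Lib.MP_bae66e_nt.LL

variable {W Y : ℕ} {A : ℝ} {F G Γ : ℤ → ℝ}

/-- `∑_i ∑_a UG(i, a) ≤ (A W / log Y) (5 X / log X)`. -/
lemma sum_UG_le (hP : PairFG W Y A F G Γ) (hδ0 : 0 ≤ A * W / Real.log Y) (X L : ℕ) (hL : 0 < L)
    (hX : 2 ≤ X) :
    ∑ i ∈ Finset.range (X / L), ∑ a ∈ Finset.range W, UG Γ (QQ (i * L) L) a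
      ≤ A * W / Real.log Y * (5 * X / Real.log X) := by
  have h1 : ∀ i ∈ Finset.range (X / L), ∑ a ∈ Finset.range W, UG Γ (QQ (i * L) L) a ≤
      ((QQ (i * L) L).card : ℝ) * (A * W / Real.log Y) := by
    intro i _
    unfold UG
    rw [Finset.sum_comm, ← nsmul_eq_mul, ← Finset.sum_const]
    exact Finset.sum_le_sum fun q _ => hP.Γs q
  refine (Finset.sum_le_sum h1).trans ?_
  rw [← Finset.sum_mul, mul_comm]
  apply mul_le_mul_of_nonneg_left _ hδ0
  exact (sum_card_QQ_le X L hL).trans (pi_upper X hX)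

/-- Markov: the number of pairs `(i, a)` with `UG > Λ`. -/
lemma card_badG_le (hP : PairFG W Y A F G Γ) (hδ0 : 0 ≤ A * W / Real.log Y) (X L : ℕ) (hL : 0 < L)
    (hX : 2 ≤ X) (Λ : ℝ) (hΛ : 0 < Λ) :
    (((Finset.range (X / L) ×ˢ Finset.range W).filter
      (fun ia => Λ < UG Γ (QQ (ia.1 * L) L) ia.2)).card : ℝ)
      ≤ 1 / Λ * (A * W / Real.log Y * (5 * X / Real.log X)) := by
  set B : Finset (ℕ × ℕ) := (Finset.range (X / L) ×ˢ Finset.range W).filter
      (fun ia => Λ < UG Γ (QQ (ia.1 * L) L) ia.2) with hB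
  have h1 : (B.card : ℝ) * Λ ≤ ∑ ia ∈ B, UG Γ (QQ (ia.1 * L) L) ia.2 := by
    rw [← nsmul_eq_mul, ← Finset.sum_const]
    apply Finset.sum_le_sum
    intro ia hia
    rw [hB, Finset.mem_filter] at hia
    exact hia.2.le
  have h2 : ∑ ia ∈ B, UG Γ (QQ (ia.1 * L) L) ia.2 ≤
      ∑ ia ∈ Finset.range (X / L) ×ˢ Finset.range W, UG Γ (QQ (ia.1 * L) L) ia.2 := by
    apply Finset.sum_le_sum_of_subset_of_nonneg (Finset.filter_subset _ _)
    intro ia _ _
    exact UG_nonneg hP _ _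
  have h3 := sum_UG_le hP hδ0 X L hL hX
  rw [Finset.sum_product] at h2
  rw [one_div, ← div_eq_inv_mul, le_div_iff₀ hΛ]
  exact h1.trans (h2.trans h3)

end Pool.Agent.Lib.MP_bae66e_nt.LP
end

section

/-!
# LP/B6: good and bad classes together

Adapt `formula_bound` of `LL/B/B07.lean`.
-/

set_option autoImplicit false

open Finset

namespace Pool.Agent.Lib.MP_bae66e_nt.LP

open Pool.Agent.Lib.MP_bae66e_nt.LL

variable {W Y : ℕ} {A : ℝ} {F G Γ : ℤ → ℝ}

private lemma B6_diff_le_one (hP : PairFG W Y A F G Γ) (Q : Finset ℕ) (m : ℤ) :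
    |zF F Q m - Real.exp (-(lamG G Q m))| ≤ 1 := by
  have h1 : 0 ≤ lamG G Q m := lamG_nonneg hP Q m
  have h2 : Real.exp (-(lamG G Q m)) ≤ 1 := Real.exp_le_one_iff.mpr (by linarith)
  have h3 : 0 < Real.exp (-(lamG G Q m)) := Real.exp_pos _
  have h4 := zF_nonneg hP Q m
  have h5 := zF_le_one hP Q m
  rw [abs_le]
  constructor <;> linarith

private lemma B6_Err_nonneg (F G : ℤ → ℝ) (Q : Finset ℕ) (S : Finset ℤ) (j : ℕ) :
    0 ≤ ErrG F G Q S j := abs_nonneg _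

/-- one pair `(i, a)` -/
private lemma B6_pair (hP : PairFG W Y A F G Γ) (hδ0 : 0 ≤ A * W / Real.log Y)
    (hδ : A * W / Real.log Y ≤ 1) (L x a : ℕ) (hW : 1 ≤ W)
    (Λ η : ℝ) (hΛ : 0 < Λ) (hη : 0 ≤ η) (K : ℕ)
    (hK : ∀ j : ℕ, K < j → Λ ^ j / (Nat.factorial j : ℝ) ≤ η) :
    |∑ m ∈ extC x L Y W a, (zF F (QQ x L) m - Real.exp (-(lamG G (QQ x L) m)))| ≤
      ((extC x L Y W a).card : ℝ) * (η + A * W / Real.log Y * Λ) +
        (if Λ < UG Γ (QQ x L) a then ((L : ℝ) + Y) / W + 1 else 0) +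
        ∑ j ∈ Finset.Icc 1 (K + 1), ErrG F G (QQ x L) (extC x L Y W a) j := by
  have hE : 0 ≤ ∑ j ∈ Finset.Icc 1 (K + 1), ErrG F G (QQ x L) (extC x L Y W a) j :=
    Finset.sum_nonneg fun j _ => B6_Err_nonneg _ _ _ _ _
  by_cases hU : Λ < UG Γ (QQ x L) a
  · rw [if_pos hU]
    have h1 : |∑ m ∈ extC x L Y W a, (zF F (QQ x L) m - Real.exp (-(lamG G (QQ x L) m)))| ≤
        ((extC x L Y W a).card : ℝ) := by
      refine (Finset.abs_sum_le_sum_abs _ _).trans ?_
      refine (Finset.sum_le_sum fun m _ => B6_diff_le_one hP (QQ x L) m).trans ?_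
      rw [Finset.sum_const, nsmul_eq_mul, mul_one]
    have h2 := card_extC_le x L Y W a hW
    have h3 : 0 ≤ ((extC x L Y W a).card : ℝ) * (η + A * W / Real.log Y * Λ) :=
      mul_nonneg (Nat.cast_nonneg _) (add_nonneg hη (mul_nonneg hδ0 hΛ.le))
    linarith
  · rw [if_neg hU, add_zero, Finset.sum_sub_distrib]
    refine good_classG hP hδ0 hδ (QQ x L) a (extC x L Y W a) ?_ Λ η K (not_lt.mp hU) hK
    intro m hm
    exact (Finset.mem_filter.mp hm).2

/-- See `formula_bound`. -/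
theorem formula_boundG (hP : PairFG W Y A F G Γ) (hδ0 : 0 ≤ A * W / Real.log Y)
    (hδ : A * W / Real.log Y ≤ 1) (X L : ℕ) (hL : 0 < L) (hW : 1 ≤ W) (h2 : 2 ∣ W)
    (hX : 2 ≤ X) (Λ η : ℝ) (hΛ : 0 < Λ) (hη : 0 ≤ η) (K : ℕ)
    (hK : ∀ j : ℕ, K < j → Λ ^ j / (Nat.factorial j : ℝ) ≤ η) :
    |(∑ m ∈ (Finset.Ioc (0 : ℤ) (X : ℤ)).filter (fun m => Even m), zF F (QQ 0 X) m)
        - ∑ m ∈ (Finset.Ioc (0 : ℤ) (X : ℤ)).filter (fun m => Even m),
          Real.exp (-(lamG G (QQ 0 X) m))|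
      ≤ L + 3 * Y * (X / L : ℕ) + (X / L : ℕ) * ((L : ℝ) + Y) * (η + A * W / Real.log Y * Λ)
        + (((L : ℝ) + Y) / W + 1) * (1 / Λ * (A * W / Real.log Y * (5 * X / Real.log X)))
        + ∑ j ∈ Finset.Icc 1 (K + 1), ∑ i ∈ Finset.range (X / L), ∑ a ∈ Finset.range W,
          ErrG F G (QQ (i * L) L) (extC (i * L) L Y W a) j := by
  -- splitting into blocks
  have hsplit := block_split X Y L hL
    (fun m => zF F (QQ 0 X) m - Real.exp (-(lamG G (QQ 0 X) m)))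
    (fun i m => zF F (QQ (i * L) L) m - Real.exp (-(lamG G (QQ (i * L) L) m)))
    (fun m => B6_diff_le_one hP _ m) (fun i m => B6_diff_le_one hP _ m)
    (by
      intro i hi m h1 h3
      have hi' : (i + 1) * L ≤ X := (Nat.le_div_iff_mul_le hL).mp hi
      change zF F (QQ 0 X) m - Real.exp (-(lamG G (QQ 0 X) m)) =
        zF F (QQ (i * L) L) m - Real.exp (-(lamG G (QQ (i * L) L) m))
      rw [zF_block Y F hP.Fs X L i hi' m h1 h3, lamG_block Y G hP.Gs X L i hi' m h1 h3])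
  -- the sums over the blocks
  have hblock : ∀ i ∈ Finset.range (X / L),
      |∑ m ∈ (Finset.Ioc ((i * L : ℕ) : ℤ) ((i * L + L + Y : ℕ) : ℤ)).filter (fun m => Even m),
        (zF F (QQ (i * L) L) m - Real.exp (-(lamG G (QQ (i * L) L) m)))| ≤
      ∑ a ∈ Finset.range W, (((extC (i * L) L Y W a).card : ℝ) * (η + A * W / Real.log Y * Λ) +
        (if Λ < UG Γ (QQ (i * L) L) a then ((L : ℝ) + Y) / W + 1 else 0) +
        ∑ j ∈ Finset.Icc 1 (K + 1), ErrG F G (QQ (i * L) L) (extC (i * L) L Y W a) j) := by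
    intro i _
    rw [sum_even_eq_sum_classes (i * L) L Y W hW h2]
    refine (Finset.abs_sum_le_sum_abs _ _).trans ?_
    refine (Finset.sum_le_sum fun a _ =>
      B6_pair hP hδ0 hδ L (i * L) a hW Λ η hΛ hη K hK).trans ?_
    refine Finset.sum_le_sum_of_subset_of_nonneg (Finset.filter_subset _ _) fun a _ _ => ?_
    have h4 : 0 ≤ ∑ j ∈ Finset.Icc 1 (K + 1),
        ErrG F G (QQ (i * L) L) (extC (i * L) L Y W a) j :=
      Finset.sum_nonneg fun j _ => B6_Err_nonneg _ _ _ _ _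
    have h5 : 0 ≤ (if Λ < UG Γ (QQ (i * L) L) a then ((L : ℝ) + Y) / W + 1 else 0) := by
      split_ifs
      · positivity
      · exact le_refl 0
    have h6 : 0 ≤ ((extC (i * L) L Y W a).card : ℝ) * (η + A * W / Real.log Y * Λ) :=
      mul_nonneg (Nat.cast_nonneg _) (add_nonneg hη (mul_nonneg hδ0 hΛ.le))
    linarith
  have hsum : |∑ i ∈ Finset.range (X / L),
      ∑ m ∈ (Finset.Ioc ((i * L : ℕ) : ℤ) ((i * L + L + Y : ℕ) : ℤ)).filter (fun m => Even m),
        (zF F (QQ (i * L) L) m - Real.exp (-(lamG G (QQ (i * L) L) m)))| ≤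
      (X / L : ℕ) * ((L : ℝ) + Y) * (η + A * W / Real.log Y * Λ)
        + (((L : ℝ) + Y) / W + 1) * (1 / Λ * (A * W / Real.log Y * (5 * X / Real.log X)))
        + ∑ j ∈ Finset.Icc 1 (K + 1), ∑ i ∈ Finset.range (X / L), ∑ a ∈ Finset.range W,
          ErrG F G (QQ (i * L) L) (extC (i * L) L Y W a) j := by
    refine (Finset.abs_sum_le_sum_abs _ _).trans ((Finset.sum_le_sum hblock).trans ?_)
    simp only [Finset.sum_add_distrib]
    refine add_le_add (add_le_add ?_ ?_) ?_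
    · refine le_of_eq ?_
      have h7 : ∀ i ∈ Finset.range (X / L), ∑ a ∈ Finset.range W,
          ((extC (i * L) L Y W a).card : ℝ) * (η + A * W / Real.log Y * Λ) =
          ((L : ℝ) + Y) * (η + A * W / Real.log Y * Λ) := by
        intro i _
        rw [← Finset.sum_mul, sum_card_extC (i * L) L Y W hW]
      rw [Finset.sum_congr rfl h7, Finset.sum_const, Finset.card_range, nsmul_eq_mul, mul_assoc]
    · have h8 : ∑ i ∈ Finset.range (X / L), ∑ a ∈ Finset.range W,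
          (if Λ < UG Γ (QQ (i * L) L) a then ((L : ℝ) + Y) / W + 1 else 0) =
          (((L : ℝ) + Y) / W + 1) * (((Finset.range (X / L) ×ˢ Finset.range W).filter
            (fun ia => Λ < UG Γ (QQ (ia.1 * L) L) ia.2)).card : ℝ) := by
        rw [← Finset.sum_product', ← Finset.sum_filter, Finset.sum_const, nsmul_eq_mul, mul_comm]
      rw [h8]
      exact mul_le_mul_of_nonneg_left (card_badG_le hP hδ0 X L hL hX Λ hΛ) (by positivity)
    · refine le_of_eq ?_
      rw [Finset.sum_comm' (s := Finset.Icc 1 (K + 1)) (t := fun _ => Finset.range (X / L))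
        (t' := Finset.range (X / L)) (s' := fun _ => Finset.Icc 1 (K + 1))
        (fun _ _ => by tauto)]
      refine Finset.sum_congr rfl fun i _ => ?_
      rw [Finset.sum_comm]
  rw [← Finset.sum_sub_distrib]
  have h9 := abs_sub_abs_le_abs_sub
    (∑ m ∈ (Finset.Ioc (0 : ℤ) (X : ℤ)).filter (fun m => Even m),
      (zF F (QQ 0 X) m - Real.exp (-(lamG G (QQ 0 X) m))))
    (∑ i ∈ Finset.range (X / L),
      ∑ m ∈ (Finset.Ioc ((i * L : ℕ) : ℤ) ((i * L + L + Y : ℕ) : ℤ)).filter (fun m => Even m),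
        (zF F (QQ (i * L) L) m - Real.exp (-(lamG G (QQ (i * L) L) m))))
  have h10 := h9.trans hsplit
  linarith

end Pool.Agent.Lib.MP_bae66e_nt.LP
end
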