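import Pool.Agent.Lib.MP_bae66e_nt.Mg.G041
import Pool.Agent.Lib.MP_bae66e_nt.Mg.G046
import Pool.Agent.Lib.MP_bae66e_nt.Mg.G043
import Pool.Agent.Lib.MP_bae66e_nt.Mg.G075
import Pool.Agent.Lib.MP_bae66e_nt.Mg.G045

section

/-!
# LP/E8a: the models of two levels, for families

Adapt `DD_model_le` (`LL/E/E13.lean`).
-/

set_option autoImplicit false

open Finset

namespace Pool.Agent.Lib.MP_bae66e_nt.LP

open Pool.Agent.Lib.MP_bae66e_nt.LL

private lemma E8a_nup (p : ℕ) {j : ℕ} (x : Fin j → ℤ) (t : ℤ) :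
    nup p (fun i => x i + t) = nup p x := by
  unfold nup
  have h1 : Finset.univ.image (fun i => (x i + t) % (p : ℤ)) =
      (Finset.univ.image (fun i => x i % (p : ℤ))).image (fun r => (r + t) % (p : ℤ)) := by
    rw [Finset.image_image]
    refine Finset.image_congr fun i _ => ?_
    change (x i + t) % (p : ℤ) = (x i % (p : ℤ) + t) % (p : ℤ)
    rw [Int.emod_add_emod]
  rw [h1]
  refine Finset.card_image_of_injOn ?_
  intro r₁ hr₁ r₂ hr₂ h
  obtain ⟨i₁, -, rfl⟩ := Finset.mem_image.1 (Finset.mem_coe.1 hr₁)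
  obtain ⟨i₂, -, rfl⟩ := Finset.mem_image.1 (Finset.mem_coe.1 hr₂)
  have h2 : x i₁ % (p : ℤ) + t ≡ x i₂ % (p : ℤ) + t [ZMOD (p : ℤ)] := h
  have h3 := Int.ModEq.add_right_cancel' t h2
  have h4 : x i₁ % (p : ℤ) % (p : ℤ) = x i₂ % (p : ℤ) % (p : ℤ) := h3
  rwa [Int.emod_emod_of_dvd _ (dvd_refl _), Int.emod_emod_of_dvd _ (dvd_refl _)] at h4

/-- `SS` does not change under translations of the tuple. -/
lemma SS_translate (W : ℕ) {j : ℕ} (x : Fin j → ℤ) (t : ℤ) :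
    SS W (fun i => x i + t) = SS W x := by
  unfold SS
  refine Finset.prod_congr rfl fun p _ => ?_
  rw [E8a_nup]

/-- Hence `SS W x = SS W (hh h')` with `h' i = x i.succ - x 0`. -/
lemma SS_eq_hh (W : ℕ) {k : ℕ} (x : Fin (k + 1) → ℤ) :
    SS W x = SS W (hh (fun i : Fin k => x i.succ - x 0)) := by
  have h1 : (fun i => hh (fun i : Fin k => x i.succ - x 0) i + x 0) = x := by
    funext i
    refine Fin.cases ?_ (fun j => ?_) i
    · simp [hh]
    · simp [hh]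
  rw [← SS_translate W (hh (fun i : Fin k => x i.succ - x 0)) (x 0), h1]

end Pool.Agent.Lib.MP_bae66e_nt.LP
end

section

/-!
# LP/E8b: the models of two levels, for families

Adapt `DD_model_le` (`LL/E/E13.lean`).
-/

set_option autoImplicit false

open Finset

namespace Pool.Agent.Lib.MP_bae66e_nt.LP

open Pool.Agent.Lib.MP_bae66e_nt.LL

private lemma E8b_diff {k : ℕ} (W₀ W₁ : ℕ) (hc : Nat.Coprime W₀ W₁) (x : Fin (k + 1) → ℤ)
    (Z : Fin (k + 1) → ℕ) (n b : ℤ) (hb : n ≡ b [ZMOD (W₀ : ℤ)]) :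
    (∏ i, gW (W₀ * W₁) (Z i) (n - x i)) - ∏ i, gW W₀ (Z i) (n - x i)
      = if (∀ i, 1 ≤ n - x i ∧ n - x i ≤ (Z i : ℤ)) then
          (∏ i, nu W₀ (b - x i)) * ((∏ i, nu W₁ (n - x i)) - 1) else 0 := by
  by_cases h : ∀ i, 1 ≤ n - x i ∧ n - x i ≤ (Z i : ℤ)
  · rw [if_pos h]
    have h1 : ∀ i ∈ (Finset.univ : Finset (Fin (k + 1))), gW (W₀ * W₁) (Z i) (n - x i)
        = nu W₀ (b - x i) * nu W₁ (n - x i) := by
      intro i _
      unfold gW
      rw [if_pos (h i), nu_mul W₀ W₁ hc, nu_periodic W₀ (n - x i) (b - x i) (Int.ModEq.sub_right _ hb)]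
    have h2 : ∀ i ∈ (Finset.univ : Finset (Fin (k + 1))), gW W₀ (Z i) (n - x i)
        = nu W₀ (b - x i) := by
      intro i _
      unfold gW
      rw [if_pos (h i), nu_periodic W₀ (n - x i) (b - x i) (Int.ModEq.sub_right _ hb)]
    rw [Finset.prod_congr rfl h1, Finset.prod_congr rfl h2, Finset.prod_mul_distrib]
    ring
  · rw [if_neg h]
    push Not at h
    obtain ⟨i, hi⟩ := h
    have hi' : ¬ (1 ≤ n - x i ∧ n - x i ≤ (Z i : ℤ)) := by
      rintro ⟨ha, hb⟩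
      exact absurd (hi ha) (not_lt.2 hb)
    rw [Finset.prod_eq_zero (Finset.mem_univ i) (by unfold gW; rw [if_neg hi']),
      Finset.prod_eq_zero (Finset.mem_univ i) (by unfold gW; rw [if_neg hi']), sub_zero]

/-- The analogue of `DD_model_le` for arbitrary positions `x i` and cutoffs `Z i`: for coprime
squarefree `W₀`, `W₁`:
`DDx Y W₀ (gW (W₀ W₁) (Z i) (n - x i)) (gW W₀ (Z i) (n - x i)) ≤ Y SS W₀ x |SS W₁ x - 1| + 8 (W₀ W₁)^{k+2}`.

PROOF. As `DD_model_le`: both products vanish unless `1 ≤ n - x i ≤ Z i` for all `i`, which together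
with `n ∈ [1, Y]` is an interval `[α, β]`; in the class `b` the difference of the products is
`∏_i nu W₀ (b - x i) (∏_i nu W₁ (n - x i) - 1)` (`nu_mul`, `nu_periodic`); `abs_sum_class_sub_le`
for `n ↦ ∏_i nu W₁ (n - x i) - 1`, whose period sum is `W₁ (SS W₁ x - 1)` (`sum_nu_eq_SS`);
`∑_b ∏ nu W₀ (b - x i) = W₀ SS W₀ x`. -/
theorem DDx_model_le {k : ℕ} (Y W₀ W₁ : ℕ) (h0 : Squarefree W₀) (h1 : Squarefree W₁)
    (hc : Nat.Coprime W₀ W₁) (x : Fin (k + 1) → ℤ) (Z : Fin (k + 1) → ℕ) :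
    DDx Y W₀ (fun i n => gW (W₀ * W₁) (Z i) (n - x i)) (fun i n => gW W₀ (Z i) (n - x i))
      ≤ Y * SS W₀ x * |SS W₁ x - 1| + 8 * ((W₀ * W₁ : ℕ) : ℝ) ^ (k + 2) := by
  have hW₀ : 1 ≤ W₀ := Nat.one_le_iff_ne_zero.2 (fun e => by subst e; exact not_squarefree_zero h0)
  have hW₁ : 1 ≤ W₁ := Nat.one_le_iff_ne_zero.2 (fun e => by subst e; exact not_squarefree_zero h1)
  have hW₀R : (1 : ℝ) ≤ W₀ := by exact_mod_cast hW₀
  have hW₁R : (1 : ℝ) ≤ W₁ := by exact_mod_cast hW₁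
  set f₁ : ℤ → ℝ := fun n => ∏ i, nu W₁ (n - x i) with hf₁
  set P : ℕ → ℝ := fun b => ∏ i, nu W₀ ((b : ℤ) - x i) with hP
  set α : ℤ := max 1 (Finset.univ.sup' Finset.univ_nonempty (fun i => 1 + x i)) with hα
  set β : ℤ := min (Y : ℤ) (Finset.univ.inf' Finset.univ_nonempty (fun i => (Z i : ℤ) + x i)) with hβ
  have hα1 : 1 ≤ α := le_max_left _ _
  have hβY : β ≤ Y := min_le_left _ _
  have hmem : ∀ n : ℤ, ((1 ≤ n ∧ n ≤ (Y : ℤ)) ∧ ∀ i, 1 ≤ n - x i ∧ n - x i ≤ (Z i : ℤ)) ↔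
      (α ≤ n ∧ n ≤ β) := by
    intro n
    rw [hα, hβ, max_le_iff, le_min_iff, Finset.sup'_le_iff, Finset.le_inf'_iff]
    constructor
    · rintro ⟨hn1, hn⟩
      exact ⟨⟨hn1.1, fun i _ => by have := (hn i).1; omega⟩,
        ⟨hn1.2, fun i _ => by have := (hn i).2; omega⟩⟩
    · rintro ⟨⟨ha1, ha⟩, ⟨hb1, hb⟩⟩
      exact ⟨⟨ha1, hb1⟩, fun i => ⟨by have := ha i (Finset.mem_univ i); omega,
        by have := hb i (Finset.mem_univ i); omega⟩⟩
  have hP0 : ∀ b, 0 ≤ P b := fun b => Finset.prod_nonneg (fun i _ => nu_nonneg _ _)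
  have hPle : ∀ b, P b ≤ (W₀ : ℝ) ^ (k + 1) := by
    intro b
    refine (Finset.prod_le_prod (fun i _ => nu_nonneg _ _) (fun i _ => nu_le W₀ hW₀ _)).trans ?_
    rw [Finset.prod_const, Finset.card_univ, Fintype.card_fin]
  have hf0 : ∀ n, 0 ≤ f₁ n := fun n => Finset.prod_nonneg (fun i _ => nu_nonneg _ _)
  have hfle : ∀ n, f₁ n ≤ (W₁ : ℝ) ^ (k + 1) := by
    intro n
    refine (Finset.prod_le_prod (fun i _ => nu_nonneg _ _) (fun i _ => nu_le W₁ hW₁ _)).trans ?_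
    rw [Finset.prod_const, Finset.card_univ, Fintype.card_fin]
  have hfper : ∀ n m : ℤ, n ≡ m [ZMOD (W₁ : ℤ)] → f₁ n - 1 = f₁ m - 1 := by
    intro n m hnm
    simp only [hf₁]
    congr 1
    apply Finset.prod_congr rfl
    intro i _
    exact nu_periodic W₁ _ _ (Int.ModEq.sub_right _ hnm)
  set M : ℝ := (W₁ : ℝ) ^ (k + 1) + 1 with hM
  have hfM : ∀ n, |f₁ n - 1| ≤ M := by
    intro n
    rw [abs_le, hM]
    constructor
    · have := hf0 n; have : (0:ℝ) ≤ (W₁ : ℝ) ^ (k + 1) := by positivity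
      linarith [hf0 n]
    · linarith [hfle n]
  have hM0 : 0 ≤ M := by positivity
  -- the inner sums
  have hinner : ∀ b ∈ Finset.range W₀,
      |∑ n ∈ (Finset.Icc (1 : ℤ) (Y : ℤ)).filter (fun n => n ≡ (b : ℤ) [ZMOD (W₀ : ℤ)]),
        ((∏ i, gW (W₀ * W₁) (Z i) (n - x i)) - ∏ i, gW W₀ (Z i) (n - x i))|
      ≤ P b * ((Y : ℝ) / W₀ * |SS W₁ x - 1| + 4 * W₁ * M) := by
    intro b _
    have e1 : ∑ n ∈ (Finset.Icc (1 : ℤ) (Y : ℤ)).filter (fun n => n ≡ (b : ℤ) [ZMOD (W₀ : ℤ)]),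
        ((∏ i, gW (W₀ * W₁) (Z i) (n - x i)) - ∏ i, gW W₀ (Z i) (n - x i))
        = P b * ∑ n ∈ (Finset.Icc α β).filter (fun n => n ≡ (b : ℤ) [ZMOD (W₀ : ℤ)]),
          (f₁ n - 1) := by
      rw [Finset.mul_sum]
      rw [Finset.sum_congr rfl (fun n hn => E8b_diff W₀ W₁ hc x Z n b (Finset.mem_filter.1 hn).2)]
      rw [← Finset.sum_filter]
      apply Finset.sum_congr _ (fun _ _ => rfl)
      ext n
      simp only [Finset.mem_filter, Finset.mem_Icc]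
      constructor
      · rintro ⟨⟨h1, hb⟩, hab⟩
        exact ⟨(hmem n).1 ⟨h1, hab⟩, hb⟩
      · rintro ⟨hab, hb⟩
        have h1 := (hmem n).2 hab
        exact ⟨⟨h1.1, hb⟩, h1.2⟩
    rw [e1, abs_mul, abs_of_nonneg (hP0 b)]
    apply mul_le_mul_of_nonneg_left _ (hP0 b)
    have hpos : 0 ≤ (Y : ℝ) / W₀ * |SS W₁ x - 1| + 4 * W₁ * M := by positivity
    by_cases hab : α ≤ β + 1
    · have h2 := abs_sum_class_sub_le W₀ W₁ hW₀ hW₁ hc (fun n => f₁ n - 1) hfper M hfM b α β hab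
      have h3 : ∑ c ∈ Finset.range W₁, (f₁ (c : ℤ) - 1) = W₁ * (SS W₁ x - 1) := by
        rw [Finset.sum_sub_distrib]
        simp only [hf₁]
        rw [sum_nu_eq_SS W₁ h1 x]
        simp
        ring
      have h4 : ((β - α + 1 : ℤ) : ℝ) ≤ Y := by
        have : β - α + 1 ≤ (Y : ℤ) := by omega
        exact_mod_cast this
      have h5 : (0 : ℝ) ≤ ((β - α + 1 : ℤ) : ℝ) := by
        have : 0 ≤ β - α + 1 := by omega
        exact_mod_cast this
      have h6 : |((β - α + 1 : ℤ) : ℝ) / (W₀ * W₁) * ∑ c ∈ Finset.range W₁, (f₁ (c : ℤ) - 1)|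
          ≤ (Y : ℝ) / W₀ * |SS W₁ x - 1| := by
        rw [h3]
        have e : ((β - α + 1 : ℤ) : ℝ) / (W₀ * W₁) * (W₁ * (SS W₁ x - 1))
            = ((β - α + 1 : ℤ) : ℝ) / W₀ * (SS W₁ x - 1) := by
          field_simp
        rw [e, abs_mul, abs_of_nonneg (by positivity)]
        apply mul_le_mul_of_nonneg_right _ (abs_nonneg _)
        gcongr
      have h7 := abs_sub_abs_le_abs_sub
        (∑ n ∈ (Finset.Icc α β).filter (fun n => n ≡ (b : ℤ) [ZMOD (W₀ : ℤ)]), (f₁ n - 1))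
        (((β - α + 1 : ℤ) : ℝ) / (W₀ * W₁) * ∑ c ∈ Finset.range W₁, (f₁ (c : ℤ) - 1))
      linarith
    · have : Finset.Icc α β = ∅ := by
        apply Finset.Icc_eq_empty
        omega
      rw [this]
      simpa using hpos
  unfold DDx
  refine (Finset.sum_le_sum hinner).trans ?_
  rw [← Finset.sum_mul]
  have hsum : ∑ b ∈ Finset.range W₀, P b = W₀ * SS W₀ x := sum_nu_eq_SS W₀ h0 x
  have hsumle : ∑ b ∈ Finset.range W₀, P b ≤ (W₀ : ℝ) ^ (k + 2) := by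
    refine (Finset.sum_le_sum (fun b _ => hPle b)).trans ?_
    rw [Finset.sum_const, Finset.card_range, nsmul_eq_mul]
    apply le_of_eq; ring
  rw [mul_add]
  apply add_le_add
  · rw [hsum]
    apply le_of_eq
    field_simp
  · calc (∑ b ∈ Finset.range W₀, P b) * (4 * W₁ * M)
        ≤ (W₀ : ℝ) ^ (k + 2) * (4 * W₁ * M) := mul_le_mul_of_nonneg_right hsumle (by positivity)
      _ ≤ (W₀ : ℝ) ^ (k + 2) * (4 * W₁ * (2 * (W₁ : ℝ) ^ (k + 1))) := by
          have : (1 : ℝ) ≤ (W₁ : ℝ) ^ (k + 1) := one_le_pow₀ hW₁R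
          have hM2 : M ≤ 2 * (W₁ : ℝ) ^ (k + 1) := by rw [hM]; linarith
          gcongr
      _ = 8 * ((W₀ * W₁ : ℕ) : ℝ) ^ (k + 2) := by
          push_cast
          rw [mul_pow]; ring

/-- The trivial bound: `DDx ≤ Y (W₀ W₁)^{k+1}` for `W₀, W₁ ≥ 1`: each product is in
`[0, (W₀ W₁)^{k+1}]` (`nu_le`), and each `n` lies in one class. -/
lemma DDx_trivial_le {k : ℕ} (Y W₀ W₁ : ℕ) (h0 : 1 ≤ W₀) (h1 : 1 ≤ W₁)
    (x : Fin (k + 1) → ℤ) (Z : Fin (k + 1) → ℕ) :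
    DDx Y W₀ (fun i n => gW (W₀ * W₁) (Z i) (n - x i)) (fun i n => gW W₀ (Z i) (n - x i))
      ≤ Y * ((W₀ * W₁ : ℕ) : ℝ) ^ (k + 1) := by
  have hW : 1 ≤ W₀ * W₁ := Nat.mul_pos h0 h1
  have hWR : (0 : ℝ) ≤ ((W₀ * W₁ : ℕ) : ℝ) := by positivity
  have hgn : ∀ (W y : ℕ) (n : ℤ), 0 ≤ gW W y n := by
    intro W y n
    unfold gW
    split_ifs
    · exact nu_nonneg _ _
    · exact le_refl _
  have hg : ∀ (W : ℕ), 1 ≤ W → ∀ (y : ℕ) (n : ℤ), gW W y n ≤ W := by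
    intro W hW y n
    unfold gW
    split_ifs
    · exact nu_le W hW _
    · positivity
  have hterm : ∀ n : ℤ, |(∏ i, gW (W₀ * W₁) (Z i) (n - x i)) - ∏ i, gW W₀ (Z i) (n - x i)| ≤
      ((W₀ * W₁ : ℕ) : ℝ) ^ (k + 1) := by
    intro n
    have h2 : ∏ i, gW (W₀ * W₁) (Z i) (n - x i) ≤ ((W₀ * W₁ : ℕ) : ℝ) ^ (k + 1) := by
      refine (Finset.prod_le_prod (fun i _ => hgn _ _ _) (fun i _ => hg _ hW _ _)).trans ?_
      rw [Finset.prod_const, Finset.card_univ, Fintype.card_fin]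
    have h3 : ∏ i, gW W₀ (Z i) (n - x i) ≤ ((W₀ * W₁ : ℕ) : ℝ) ^ (k + 1) := by
      refine (Finset.prod_le_prod (g := fun _ => ((W₀ * W₁ : ℕ) : ℝ)) (fun i _ => hgn _ _ _)
        (fun i _ => (hg _ h0 _ _).trans ?_)).trans ?_
      · exact_mod_cast Nat.le_mul_of_pos_right W₀ h1
      · rw [Finset.prod_const, Finset.card_univ, Fintype.card_fin]
    have h4 : 0 ≤ ∏ i, gW (W₀ * W₁) (Z i) (n - x i) := Finset.prod_nonneg fun i _ => hgn _ _ _
    have h5 : 0 ≤ ∏ i, gW W₀ (Z i) (n - x i) := Finset.prod_nonneg fun i _ => hgn _ _ _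
    rw [abs_le]
    constructor <;> linarith
  unfold DDx
  have h6 : ∑ b ∈ Finset.range W₀,
      |∑ n ∈ (Finset.Icc (1 : ℤ) (Y : ℤ)).filter (fun n => n ≡ (b : ℤ) [ZMOD (W₀ : ℤ)]),
        ((∏ i, gW (W₀ * W₁) (Z i) (n - x i)) - ∏ i, gW W₀ (Z i) (n - x i))| ≤
      ∑ b ∈ Finset.range W₀,
        ∑ n ∈ (Finset.Icc (1 : ℤ) (Y : ℤ)).filter (fun n => n ≡ (b : ℤ) [ZMOD (W₀ : ℤ)]),
          ((W₀ * W₁ : ℕ) : ℝ) ^ (k + 1) := by
    refine Finset.sum_le_sum fun b _ => ?_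
    exact (Finset.abs_sum_le_sum_abs _ _).trans (Finset.sum_le_sum fun n _ => hterm n)
  refine h6.trans ?_
  have h7 : ∑ b ∈ Finset.range W₀,
      ((Finset.Icc (1 : ℤ) (Y : ℤ)).filter (fun n => n ≡ (b : ℤ) [ZMOD (W₀ : ℤ)])).card ≤ Y := by
    rw [← Finset.card_biUnion]
    · refine (Finset.card_le_card (t := Finset.Icc (1 : ℤ) (Y : ℤ)) ?_).trans ?_
      · intro n hn
        obtain ⟨b, -, hb⟩ := Finset.mem_biUnion.1 hn
        exact (Finset.mem_filter.1 hb).1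
      · rw [Int.card_Icc]
        omega
    · intro b hb b' hb' hne
      rw [Function.onFun, Finset.disjoint_left]
      intro n hn hn'
      have h8 := (Finset.mem_filter.1 hn).2
      have h9 := (Finset.mem_filter.1 hn').2
      have h10 : (b : ℤ) ≡ (b' : ℤ) [ZMOD (W₀ : ℤ)] := h8.symm.trans h9
      have h11 := (Int.natCast_modEq_iff).1 h10
      have h12 := Finset.mem_range.1 hb
      have h13 := Finset.mem_range.1 hb'
      apply hne
      have h14 : b % W₀ = b' % W₀ := h11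
      rwa [Nat.mod_eq_of_lt h12, Nat.mod_eq_of_lt h13] at h14
  simp only [Finset.sum_const, nsmul_eq_mul]
  rw [← Finset.sum_mul]
  refine mul_le_mul_of_nonneg_right ?_ (by positivity)
  exact_mod_cast h7

end Pool.Agent.Lib.MP_bae66e_nt.LP
end

section

end

section

/-!
# LP/E1: replacement of one function by another one, on average over the shifts (abstract form)

Compare with `E09`, `E10` of `LL/E`.
-/

set_option autoImplicit false

open Finset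

namespace Pool.Agent.Lib.MP_bae66e_nt.LP

open Pool.Agent.Lib.MP_bae66e_nt.LL

/-- `|corr Y f d| ≤ Y M²` for `f` supported in `[1, Y]`, `|f| ≤ M`. -/
lemma abs_corr_le (Y : ℕ) (f : ℤ → ℝ) (M : ℝ) (hf : ∀ n, |f n| ≤ M) (d : ℤ) :
    |corr Y f d| ≤ Y * M ^ 2 := by
  unfold corr
  refine (Finset.abs_sum_le_sum_abs _ _).trans ?_
  have h : ∀ n ∈ Finset.Icc (1 : ℤ) (Y : ℤ), |f n * f (n + d)| ≤ M ^ 2 := by
    intro n _
    rw [abs_mul, sq]
    exact mul_le_mul (hf n) (hf _) (abs_nonneg _) (le_trans (abs_nonneg _) (hf n))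
  refine (Finset.sum_le_sum h).trans (le_of_eq ?_)
  rw [Finset.sum_const, Int.card_Icc, nsmul_eq_mul]
  congr 1
  have : ((Y : ℤ) + 1 - 1).toNat = Y := by omega
  rw [this]

private lemma E1_prod_ite {k : ℕ} (l : Fin (k + 1)) (A D : ℝ) :
    ∏ i : Fin (k + 1), (if i = l then D else A) = A ^ k * D := by
  rw [← Finset.mul_prod_erase Finset.univ _ (Finset.mem_univ l)]
  rw [if_pos rfl]
  have : ∏ i ∈ Finset.univ.erase l, (if i = l then D else A) = A ^ k := by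
    rw [Finset.prod_congr rfl (g := fun _ => A)]
    · rw [Finset.prod_const, Finset.card_erase_of_mem (Finset.mem_univ l)]
      simp
    · intro i hi
      rw [if_neg (Finset.ne_of_mem_erase hi)]
  rw [this]; ring

private lemma E1_mix_support {k : ℕ} (Y : ℕ) (f g : ℤ → ℝ)
    (hf : ∀ n : ℤ, ¬ (1 ≤ n ∧ n ≤ (Y : ℤ)) → f n = 0)
    (hg : ∀ n : ℤ, ¬ (1 ≤ n ∧ n ≤ (Y : ℤ)) → g n = 0) (l i : Fin (k + 1)) (n : ℤ)
    (hn : ¬ (1 ≤ n ∧ n ≤ (Y : ℤ))) : mix f g l i n = 0 := by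
  unfold mix
  by_cases h1 : i < l
  · rw [if_pos h1]; exact hg n hn
  · rw [if_neg h1]
    by_cases h2 : i = l
    · rw [if_pos h2]
      simp only [hf n hn, hg n hn, sub_zero]
    · rw [if_neg h2]; exact hf n hn

/-- The sum over `d` of the products of the correlations of the mixed tuple.

PROOF. `d ∈ D`: each factor is at most `Y (2 M)² = 4 Y M²` (`abs_corr_le`, `|f - g| ≤ 2 M`; for the
functions `f`, `g` it is even `≤ Y M²`), so these `d` contribute at most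
`#D (4 Y M²)^{k+1} ≤ √ε Y^{k+2}`. `d ∉ D`: for `i ≠ l` the function `mix f g l i` is `f` or `g`, so its
correlation is `≤ R(d) Y`; by Cauchy-Schwarz the sum is at most
`Y^k (∑ R(d)^{2k})^{1/2} (∑ corr(f - g)²)^{1/2} ≤ Y^k (B Y)^{1/2} (ε Y³)^{1/2} = √B √ε Y^{k+2}`. -/
lemma sum_prod_corr_abs (k Y : ℕ) (f g : ℤ → ℝ) (R : ℤ → ℝ) (D : Finset ℤ) (M B ε : ℝ)
    (hε : 0 < ε) (hB : 0 ≤ B) (hM : 0 ≤ M)
    (hfM : ∀ n, |f n| ≤ M) (hgM : ∀ n, |g n| ≤ M) (hR0 : ∀ d, 0 ≤ R d)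
    (hfR : ∀ d : ℤ, d ∉ D → |d| ≤ (Y : ℤ) → |corr Y f d| ≤ R d * Y)
    (hgR : ∀ d : ℤ, d ∉ D → |d| ≤ (Y : ℤ) → |corr Y g d| ≤ R d * Y)
    (hRB : ∑ d ∈ Finset.Icc (-(Y : ℤ)) (Y : ℤ), (R d) ^ (2 * k) ≤ B * Y)
    (hD : (D.card : ℝ) * (4 * Y * M ^ 2) ^ (k + 1) ≤ Real.sqrt ε * (Y : ℝ) ^ (k + 2))
    (hE : En Y (fun n => f n - g n) ≤ ε * (Y : ℝ) ^ 3) (l : Fin (k + 1)) :
    ∑ d ∈ Finset.Icc (-(Y : ℤ)) (Y : ℤ), ∏ i, |corr Y (mix f g l i) d|
      ≤ (1 + Real.sqrt B) * Real.sqrt ε * (Y : ℝ) ^ (k + 2) := by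
  have hY0 : (0 : ℝ) ≤ Y := Nat.cast_nonneg Y
  set I := Finset.Icc (-(Y : ℤ)) (Y : ℤ) with hI
  set I₁ := I.filter (fun d => d ∈ D) with hI₁
  set I₂ := I.filter (fun d => ¬ d ∈ D) with hI₂
  have hsplit : ∑ d ∈ I, ∏ i, |corr Y (mix f g l i) d|
      = ∑ d ∈ I₁, ∏ i, |corr Y (mix f g l i) d| + ∑ d ∈ I₂, ∏ i, |corr Y (mix f g l i) d| :=
    (Finset.sum_filter_add_sum_filter_not I (fun d => d ∈ D) _).symm
  -- the terms in D
  have h1 : ∑ d ∈ I₁, ∏ i, |corr Y (mix f g l i) d| ≤ Real.sqrt ε * (Y : ℝ) ^ (k + 2) := by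
    have key : ∀ d ∈ I₁, ∏ i, |corr Y (mix f g l i) d| ≤ (4 * Y * M ^ 2) ^ (k + 1) := by
      intro d _
      have k1 : ∀ i ∈ (Finset.univ : Finset (Fin (k + 1))), |corr Y (mix f g l i) d|
          ≤ 4 * Y * M ^ 2 := by
        intro i _
        have e1 : (Y : ℝ) * M ^ 2 ≤ 4 * Y * M ^ 2 := by
          have : 0 ≤ (Y : ℝ) * M ^ 2 := by positivity
          linarith
        unfold mix
        by_cases h1 : i < l
        · rw [if_pos h1]
          exact (abs_corr_le Y g M hgM d).trans e1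
        · rw [if_neg h1]
          by_cases h2 : i = l
          · rw [if_pos h2]
            refine (abs_corr_le Y (fun n => f n - g n) (2 * M) (fun n => ?_) d).trans
              (le_of_eq (by ring))
            have := abs_sub (f n) (g n)
            linarith [hfM n, hgM n]
          · rw [if_neg h2]
            exact (abs_corr_le Y f M hfM d).trans e1
      refine (Finset.prod_le_prod (fun i _ => abs_nonneg _) k1).trans ?_
      rw [Finset.prod_const, Finset.card_univ, Fintype.card_fin]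
    refine (Finset.sum_le_sum key).trans ?_
    rw [Finset.sum_const, nsmul_eq_mul]
    refine le_trans (mul_le_mul_of_nonneg_right ?_ (by positivity)) hD
    have hsub : I₁ ⊆ D := by
      intro d hd
      exact (Finset.mem_filter.mp hd).2
    exact_mod_cast Finset.card_le_card hsub
  -- the other terms
  have h2 : ∑ d ∈ I₂, ∏ i, |corr Y (mix f g l i) d|
      ≤ Real.sqrt B * Real.sqrt ε * (Y : ℝ) ^ (k + 2) := by
    have key : ∀ d ∈ I₂, ∏ i, |corr Y (mix f g l i) d|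
        ≤ (Y : ℝ) ^ k * ((R d) ^ k * |corr Y (fun n => f n - g n) d|) := by
      intro d hd
      have hdI := Finset.mem_Icc.mp (Finset.mem_filter.mp hd).1
      have hdD := (Finset.mem_filter.mp hd).2
      have hdY : |d| ≤ (Y : ℤ) := abs_le.mpr hdI
      have k1 : ∀ i ∈ (Finset.univ : Finset (Fin (k + 1))), |corr Y (mix f g l i) d|
          ≤ if i = l then |corr Y (fun n => f n - g n) d| else R d * Y := by
        intro i _
        unfold mix
        by_cases h1 : i < l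
        · rw [if_pos h1, if_neg (ne_of_lt h1)]
          exact hgR d hdD hdY
        · rw [if_neg h1]
          by_cases h2 : i = l
          · rw [if_pos h2, if_pos h2]
          · rw [if_neg h2, if_neg h2]
            exact hfR d hdD hdY
      refine (Finset.prod_le_prod (fun i _ => abs_nonneg _) k1).trans ?_
      rw [E1_prod_ite]
      apply le_of_eq
      rw [mul_pow]; ring
    refine (Finset.sum_le_sum key).trans ?_
    rw [← Finset.mul_sum]
    have c1 := Finset.sum_mul_sq_le_sq_mul_sq I₂ (fun d => (R d) ^ k)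
      (fun d => |corr Y (fun n => f n - g n) d|)
    have c2 : ∑ d ∈ I₂, ((R d) ^ k) ^ 2 ≤ B * Y := by
      refine le_trans ?_ hRB
      refine (Finset.sum_le_sum_of_subset_of_nonneg (Finset.filter_subset _ _) ?_).trans
        (le_of_eq ?_)
      · intro i _ _
        positivity
      · apply Finset.sum_congr rfl
        intro d _
        rw [← pow_mul]
        congr 1
        ring
    have c3 : ∑ d ∈ I₂, |corr Y (fun n => f n - g n) d| ^ 2 ≤ ε * (Y : ℝ) ^ 3 := by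
      unfold En at hE
      refine le_trans ?_ hE
      refine (Finset.sum_le_sum_of_subset_of_nonneg (Finset.filter_subset _ _) ?_).trans
        (le_of_eq ?_)
      · intro i _ _
        positivity
      · apply Finset.sum_congr rfl
        intro d _
        rw [sq_abs]
    have c4 : ∑ d ∈ I₂, (R d) ^ k * |corr Y (fun n => f n - g n) d|
        ≤ Real.sqrt B * Real.sqrt ε * (Y : ℝ) ^ 2 := by
      apply le_of_abs_le
      apply abs_le_of_sq_le_sq _ (by positivity)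
      refine c1.trans ?_
      have e1 : (Real.sqrt B * Real.sqrt ε * (Y : ℝ) ^ 2) ^ 2 = (B * Y) * (ε * (Y : ℝ) ^ 3) := by
        rw [mul_pow, mul_pow, Real.sq_sqrt hB, Real.sq_sqrt hε.le]; ring
      rw [e1]
      apply mul_le_mul c2 c3 (Finset.sum_nonneg (fun _ _ => by positivity)) (by positivity)
    calc (Y : ℝ) ^ k * ∑ d ∈ I₂, (R d) ^ k * |corr Y (fun n => f n - g n) d|
        ≤ (Y : ℝ) ^ k * (Real.sqrt B * Real.sqrt ε * (Y : ℝ) ^ 2) :=
          mul_le_mul_of_nonneg_left c4 (by positivity)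
      _ = Real.sqrt B * Real.sqrt ε * (Y : ℝ) ^ (k + 2) := by ring
  rw [hsplit]
  have e2 : (1 + Real.sqrt B) * Real.sqrt ε * (Y : ℝ) ^ (k + 2)
      = Real.sqrt ε * (Y : ℝ) ^ (k + 2) + Real.sqrt B * Real.sqrt ε * (Y : ℝ) ^ (k + 2) := by ring
  rw [e2]
  exact add_le_add h1 h2

/-- **One step.** For every `k` and `B ≥ 0` there is `C = C(k, B)` with
`∑_{h ∈ shifts} FF(h) DD(h) ≤ C √W₀ √√ε Y^{k+1}` under the hypotheses of `sum_prod_corr_abs`.

PROOF. As `main_one` (`E10`): `DD_le_sum_mix`; for each `l`, `cauchy_hb` with `F = FF (k+1)`;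
`∑_h FF² ≤ C₁ Y^k` (`FF_pow`, `sum_FF_le`); `second_moment_le` (the functions `mix f g l i` are
supported in `[1, Y]`) and `sum_prod_corr_abs`:
`(k+1) √(W₀ C₁ Y^k) √((1 + √B) √ε Y^{k+2})`. -/
theorem one_step (k : ℕ) (B : ℝ) (hB : 0 ≤ B) : ∃ C : ℝ, 1 ≤ C ∧ ∀ (Y W₀ : ℕ) (f g : ℤ → ℝ)
    (R : ℤ → ℝ) (D : Finset ℤ) (M ε : ℝ), 1 ≤ Y → 1 ≤ W₀ → 0 < ε → 0 ≤ M →
    (∀ n : ℤ, ¬ (1 ≤ n ∧ n ≤ (Y : ℤ)) → f n = 0) → (∀ n : ℤ, ¬ (1 ≤ n ∧ n ≤ (Y : ℤ)) → g n = 0) →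
    (∀ n, |f n| ≤ M) → (∀ n, |g n| ≤ M) → (∀ d, 0 ≤ R d) →
    (∀ d : ℤ, d ∉ D → |d| ≤ (Y : ℤ) → |corr Y f d| ≤ R d * Y) →
    (∀ d : ℤ, d ∉ D → |d| ≤ (Y : ℤ) → |corr Y g d| ≤ R d * Y) →
    (∑ d ∈ Finset.Icc (-(Y : ℤ)) (Y : ℤ), (R d) ^ (2 * k) ≤ B * Y) →
    ((D.card : ℝ) * (4 * Y * M ^ 2) ^ (k + 1) ≤ Real.sqrt ε * (Y : ℝ) ^ (k + 2)) →
    En Y (fun n => f n - g n) ≤ ε * (Y : ℝ) ^ 3 →
    ∑ h ∈ shifts k Y, FF (k + 1) h * DD Y W₀ f g h
      ≤ C * Real.sqrt W₀ * Real.sqrt (Real.sqrt ε) * (Y : ℝ) ^ (k + 1) := by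
  obtain ⟨C₁, hC₁, hFF⟩ := sum_FF_le k (2 * (k + 1))
  have hB0 : 0 ≤ Real.sqrt B := Real.sqrt_nonneg B
  set C₂ : ℝ := 1 + Real.sqrt B with hC₂
  have hC₂1 : 1 ≤ C₂ := by rw [hC₂]; linarith
  have hC₁0 : 0 ≤ C₁ := by linarith
  have hC₂0 : 0 ≤ C₂ := by linarith
  have hs : 1 ≤ Real.sqrt (C₁ * C₂) := by
    rw [Real.one_le_sqrt]; nlinarith
  refine ⟨((k : ℝ) + 1) * Real.sqrt (C₁ * C₂), ?_, ?_⟩
  · have : (0 : ℝ) ≤ k := Nat.cast_nonneg k
    nlinarith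
  intro Y W₀ f g R D M ε hY1 hW₀ hε hM hfs hgs hfM hgM hR0 hfR hgR hRB hD hE
  set a : Fin (k + 1) → (Fin k → ℤ) → ℕ → ℝ := fun l h b =>
    ∑ n ∈ (Finset.Icc (1 : ℤ) (Y : ℤ)).filter (fun n => n ≡ (b : ℤ) [ZMOD (W₀ : ℤ)]),
        ∏ i, mix f g l i (n - hh h i) with ha
  have h1 : ∑ h ∈ shifts k Y, FF (k + 1) h * DD Y W₀ f g h
      ≤ ∑ l : Fin (k + 1), ∑ h ∈ shifts k Y, FF (k + 1) h * ∑ b ∈ Finset.range W₀, |a l h b| := by
    rw [Finset.sum_comm]
    apply Finset.sum_le_sum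
    intro h _
    rw [← Finset.mul_sum]
    exact mul_le_mul_of_nonneg_left (DD_le_sum_mix Y W₀ f g h) (FF_nonneg _ _)
  refine h1.trans ?_
  have h2 : ∀ l ∈ (Finset.univ : Finset (Fin (k + 1))),
      ∑ h ∈ shifts k Y, FF (k + 1) h * ∑ b ∈ Finset.range W₀, |a l h b|
      ≤ Real.sqrt (C₁ * C₂) * Real.sqrt W₀ * Real.sqrt (Real.sqrt ε) * (Y : ℝ) ^ (k + 1) := by
    intro l _
    refine (cauchy_hb (shifts k Y) W₀ (FF (k + 1)) (a l) (fun h _ => FF_nonneg _ _)).trans ?_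
    have h3 : ∑ h ∈ shifts k Y, (FF (k + 1) h) ^ 2 ≤ C₁ * (Y : ℝ) ^ k := by
      refine le_trans (le_of_eq ?_) (hFF Y hY1)
      apply Finset.sum_congr rfl
      intro h _
      rw [FF_pow]
      congr 1
      ring
    have h4 : ∑ h ∈ shifts k Y, ∑ b ∈ Finset.range W₀, (a l h b) ^ 2
        ≤ C₂ * Real.sqrt ε * (Y : ℝ) ^ (k + 2) := by
      refine le_trans ?_ (sum_prod_corr_abs k Y f g R D M B ε hε hB hM hfM hgM hR0 hfR hgR
        hRB hD hE l)
      exact second_moment_le Y W₀ hW₀ (mix f g l)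
        (fun i n hn => E1_mix_support Y f g hfs hgs l i n hn)
    calc Real.sqrt (W₀ * ∑ h ∈ shifts k Y, (FF (k + 1) h) ^ 2)
          * Real.sqrt (∑ h ∈ shifts k Y, ∑ b ∈ Finset.range W₀, (a l h b) ^ 2)
        ≤ Real.sqrt (W₀ * (C₁ * (Y : ℝ) ^ k)) * Real.sqrt (C₂ * Real.sqrt ε * (Y : ℝ) ^ (k + 2)) := by
          apply mul_le_mul (Real.sqrt_le_sqrt (mul_le_mul_of_nonneg_left h3 (Nat.cast_nonneg _)))
            (Real.sqrt_le_sqrt h4) (Real.sqrt_nonneg _) (Real.sqrt_nonneg _)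
      _ = Real.sqrt ((C₁ * C₂) * W₀ * Real.sqrt ε * ((Y : ℝ) ^ (k + 1)) ^ 2) := by
          rw [← Real.sqrt_mul (by positivity)]
          congr 1
          ring
      _ = Real.sqrt (C₁ * C₂) * Real.sqrt W₀ * Real.sqrt (Real.sqrt ε) * (Y : ℝ) ^ (k + 1) := by
          rw [Real.sqrt_mul (by positivity), Real.sqrt_mul (by positivity),
            Real.sqrt_mul (by positivity), Real.sqrt_sq (by positivity)]
  refine (Finset.sum_le_sum h2).trans (le_of_eq ?_)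
  rw [Finset.sum_const, Finset.card_univ, Fintype.card_fin, nsmul_eq_mul]
  push_cast
  ring

end Pool.Agent.Lib.MP_bae66e_nt.LP
end

section

/-!
# LP/E2b: the energy of a sum
-/

set_option autoImplicit false

open Finset

namespace Pool.Agent.Lib.MP_bae66e_nt.LP

open Pool.Agent.Lib.MP_bae66e_nt.LL

/-- Translations do not change correlations: `f` supported in `[1, y]`, `0 ≤ t`, `t + y ≤ Y`. -/
lemma corr_translate (Y y : ℕ) (t : ℤ) (ht : 0 ≤ t) (hty : t + y ≤ (Y : ℤ)) (f : ℤ → ℝ)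
    (hf : ∀ n : ℤ, ¬ (1 ≤ n ∧ n ≤ (y : ℤ)) → f n = 0) (d : ℤ) :
    corr Y (fun n => f (n - t)) d = corr y f d := by
  have h1 : corr Y (fun n => f (n - t)) d =
      ∑ n ∈ Finset.Icc (1 : ℤ) (Y : ℤ), f (n - t) * f (n - t + d) := by
    unfold corr
    refine Finset.sum_congr rfl fun n _ => ?_
    have e : n + d - t = n - t + d := by ring
    simp only [e]
  have h2 : corr y f d = ∑ n ∈ Finset.Icc (1 + t) (y + t), f (n - t) * f (n - t + d) := by
    unfold corr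
    apply Finset.sum_nbij' (fun m => m + t) (fun n => n - t)
    · intro m hm
      rw [Finset.mem_Icc] at hm ⊢
      omega
    · intro m hm
      rw [Finset.mem_Icc] at hm ⊢
      omega
    · intro m _
      exact add_sub_cancel_right m t
    · intro m _
      exact sub_add_cancel m t
    · intro m _
      rw [add_sub_cancel_right]
  rw [h1, h2]
  symm
  refine Finset.sum_subset (fun n hn => ?_) (fun n _ hn => ?_)
  · rw [Finset.mem_Icc] at hn ⊢
    omega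
  · rw [Finset.mem_Icc] at hn
    rw [hf (n - t) (by omega), zero_mul]

/-- Hence for the energies (`corr y f d = 0` for `|d| ≥ y`): `En Y (f(· - t)) = En y f`. -/
lemma En_translate (Y y : ℕ) (t : ℤ) (ht : 0 ≤ t) (hty : t + y ≤ (Y : ℤ)) (f : ℤ → ℝ)
    (hf : ∀ n : ℤ, ¬ (1 ≤ n ∧ n ≤ (y : ℤ)) → f n = 0) :
    En Y (fun n => f (n - t)) = En y f := by
  have hyY : (y : ℤ) ≤ Y := by omega
  unfold En
  simp only [corr_translate Y y t ht hty f hf]
  symm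
  refine Finset.sum_subset (fun d hd => ?_) (fun d _ hd => ?_)
  · rw [Finset.mem_Icc] at hd ⊢
    omega
  · rw [Finset.mem_Icc] at hd
    have h1 : corr y f d = 0 := by
      unfold corr
      refine Finset.sum_eq_zero fun n hn => ?_
      rw [Finset.mem_Icc] at hn
      rw [hf (n + d) (by omega), mul_zero]
    rw [h1]
    norm_num

end Pool.Agent.Lib.MP_bae66e_nt.LP
end

section

end
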