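import Pool.Agent.Lib.MP_bae66e_nt.Mg.G060
import Pool.Agent.Lib.MP_bae66e_nt.Mg.G062

section

end

section

/-!
# LP/E9a: expansion of the products of `gJ`
-/

set_option autoImplicit false

open Finset

namespace Pool.Agent.Lib.MP_bae66e_nt.LP

open Pool.Agent.Lib.MP_bae66e_nt.LL

/-- The positions of the family belonging to an assignment `σ`: `x i = hh t i + (H - h (σ i))`. -/
def pos {ι : Type} {k : ℕ} (H : ℕ) (h : ι → ℕ) (σ : Fin (k + 1) → ι) (t : Fin k → ℤ)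
    (i : Fin (k + 1)) : ℤ := hh t i + ((H : ℤ) - h (σ i))

private lemma E9a_expand {ι : Type} [Fintype ι] (H : ℕ) (h y : ι → ℕ) (c : ι → ℝ) (k W : ℕ)
    (t : Fin k → ℤ) (n : ℤ) :
    ∏ i, gJ W H h y c (n - hh t i) = ∑ σ : Fin (k + 1) → ι,
      (∏ i, c (σ i)) * ∏ i, gW W (y (σ i)) (n - pos H h σ t i) := by
  unfold gJ
  rw [Finset.prod_univ_sum, Fintype.piFinset_univ]
  refine Finset.sum_congr rfl fun σ _ => ?_
  rw [← Finset.prod_mul_distrib]
  refine Finset.prod_congr rfl fun i _ => ?_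
  have h1 : n - hh t i - (H : ℤ) + (h (σ i) : ℤ) = n - pos H h σ t i := by
    unfold pos
    ring
  rw [h1]

/-- Expansion over the assignments:
`DD Y W₀ (gJ W') (gJ W) t ≤ ∑_σ DDx Y W₀ (gW W' (y (σ i)) (n - x i)) (gW W (y (σ i)) (n - x i))`,
`x = pos H h σ t`.

PROOF. `∏_i gJ(n - hh t i) = ∏_i ∑_l c_l gW W (y l) (n - hh t i - H + h l)
= ∑_σ ∏_i c_{σ i} gW W (y (σ i)) (n - x i)` (`Finset.prod_univ_sum`); the same for `W'`; triangle
inequality over `σ`; `|∏_i c_{σ i}| ≤ 1`. -/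
lemma DD_gJ_le {ι : Type} [Fintype ι] {Y H : ℕ} {C₁ : ℝ} {h y : ι → ℕ} {c : ι → ℝ}
    (hc : Cut Y H C₁ h y c) (k W₀ W W' : ℕ) (t : Fin k → ℤ) :
    DD Y W₀ (gJ W' H h y c) (gJ W H h y c) t ≤ ∑ σ : Fin (k + 1) → ι,
      DDx Y W₀ (fun i n => gW W' (y (σ i)) (n - pos H h σ t i))
        (fun i n => gW W (y (σ i)) (n - pos H h σ t i)) := by
  unfold DD DDx
  rw [Finset.sum_comm]
  refine Finset.sum_le_sum fun b _ => ?_
  have h1 : ∀ n : ℤ, (∏ i, gJ W' H h y c (n - hh t i)) - ∏ i, gJ W H h y c (n - hh t i) =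
      ∑ σ : Fin (k + 1) → ι, (∏ i, c (σ i)) * ((∏ i, gW W' (y (σ i)) (n - pos H h σ t i)) -
        ∏ i, gW W (y (σ i)) (n - pos H h σ t i)) := by
    intro n
    rw [E9a_expand, E9a_expand, ← Finset.sum_sub_distrib]
    exact Finset.sum_congr rfl fun σ _ => by ring
  simp only [h1]
  rw [Finset.sum_comm]
  refine (Finset.abs_sum_le_sum_abs _ _).trans (Finset.sum_le_sum fun σ _ => ?_)
  rw [← Finset.mul_sum, abs_mul]
  have h2 : |∏ i, c (σ i)| ≤ 1 := by
    rw [Finset.abs_prod]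
    exact Finset.prod_le_one (fun i _ => abs_nonneg _) fun i _ => hc.hc (σ i)
  exact mul_le_of_le_one_left (abs_nonneg _) h2

end Pool.Agent.Lib.MP_bae66e_nt.LP
end

section

/-!
# LP/E9b: the shifts of an assignment
-/

set_option autoImplicit false

open Finset

namespace Pool.Agent.Lib.MP_bae66e_nt.LP

open Pool.Agent.Lib.MP_bae66e_nt.LL

/-- The differences of the positions, as shifts: `t' i = pos (i+1) - pos 0 = t i + (h (σ 0) - h (σ (i+1)))`. -/
def sh {ι : Type} {k : ℕ} (h : ι → ℕ) (σ : Fin (k + 1) → ι) (t : Fin k → ℤ) (i : Fin k) : ℤ :=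
  t i + ((h (σ 0) : ℤ) - h (σ i.succ))

/-- `SS_eq_hh` for the positions. -/
lemma SS_pos (W : ℕ) {ι : Type} {k : ℕ} (H : ℕ) (h : ι → ℕ) (σ : Fin (k + 1) → ι)
    (t : Fin k → ℤ) : SS W (pos H h σ t) = SS W (hh (sh h σ t)) := by
  rw [SS_eq_hh]
  congr 2
  funext i
  unfold pos sh hh
  rw [Fin.cons_succ, Fin.cons_zero]
  ring

/-- `t ↦ sh h σ t` is injective and maps `shifts k Y` into `shifts k (Y + H)` if `h i ≤ H`; hence for
`F ≥ 0`: `∑_{t ∈ shifts k Y} F(sh h σ t) ≤ ∑_{t' ∈ shifts k (Y + H)} F(t')`. -/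
lemma sum_sh_le {ι : Type} {k : ℕ} (Y H : ℕ) (h : ι → ℕ) (hH : ∀ i, h i ≤ H)
    (σ : Fin (k + 1) → ι) (F : (Fin k → ℤ) → ℝ) (hF : ∀ t, 0 ≤ F t) :
    ∑ t ∈ shifts k Y, F (sh h σ t) ≤ ∑ t ∈ shifts k (Y + H), F t := by
  classical
  have hinj : Set.InjOn (fun t => sh h σ t) (shifts k Y : Set (Fin k → ℤ)) := by
    intro a _ b _ hab
    funext i
    have h1 := congrFun hab i
    simp only [sh] at h1
    linarith
  rw [← Finset.sum_image (f := F) hinj]
  apply Finset.sum_le_sum_of_subset_of_nonneg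
  · intro x hx
    rw [Finset.mem_image] at hx
    obtain ⟨t, ht, rfl⟩ := hx
    unfold shifts at ht ⊢
    rw [Fintype.mem_piFinset] at ht ⊢
    intro i
    have h1 := ht i
    rw [Finset.mem_Icc] at h1 ⊢
    have h2 := hH (σ 0)
    have h3 := hH (σ i.succ)
    simp only [sh]
    push_cast
    constructor <;> omega
  · intro _ _ _
    exact hF _

end Pool.Agent.Lib.MP_bae66e_nt.LP
end

section

/-!
# LP/E9c: few coincidences
-/

set_option autoImplicit false

open Finset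

namespace Pool.Agent.Lib.MP_bae66e_nt.LP

open Pool.Agent.Lib.MP_bae66e_nt.LL

private lemma E9c_card_shifts (k Y : ℕ) : (shifts k Y).card = (2 * Y + 1) ^ k := by
  unfold shifts
  rw [Fintype.card_piFinset_const, Int.card_Icc]
  congr 1
  omega

/-- one coordinate is a function of the others: few tuples -/
private lemma E9c_fiber {k : ℕ} (Y : ℕ) (S : Finset (Fin (k + 1) → ℤ)) (hS : S ⊆ shifts (k + 1) Y)
    (l : Fin (k + 1))
    (hdet : ∀ a ∈ S, ∀ b ∈ S, (∀ i, i ≠ l → a i = b i) → a l = b l) :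
    S.card ≤ (2 * Y + 1) ^ k := by
  classical
  rw [← E9c_card_shifts k Y]
  apply Finset.card_le_card_of_injOn (fun a => fun i => a (l.succAbove i))
  · intro a ha
    have h1 := hS ha
    unfold shifts at h1 ⊢
    rw [Fintype.mem_piFinset] at h1
    rw [Finset.mem_coe, Fintype.mem_piFinset]
    intro i
    exact h1 _
  · intro a ha b hb hab
    have h1 : ∀ i, i ≠ l → a i = b i := by
      intro i hi
      obtain ⟨j, rfl⟩ := Fin.exists_succAbove_eq hi
      exact congrFun hab j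
    funext i
    by_cases hi : i = l
    · subst hi
      exact hdet a ha b hb h1
    · exact h1 i hi

/-- Few shifts have a coincidence: for `Y ≥ 1` the number of `t ∈ shifts k Y` such that
`hh (sh h σ t)` is not injective is at most `(k + 1)² (2 Y + 1)^{k-1}`, written as
`≤ (k + 1)² 3^k Y^k / Y`.

PROOF. For a pair `i < l` of `Fin (k + 1)`, `hh t' i = hh t' l` determines the coordinate
`t (l - 1)` from the others (`l ≥ 1`; `hh t' l = t (l-1) + const`); the other `k - 1` coordinates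
have `(2 Y + 1)^{k-1} ≤ (3 Y)^{k-1}` values. (Inject the set into `Fin (k+1) × Fin (k+1) ×` tuples
with one coordinate removed, or use `Function.update t l' 0`.) For `k = 0` there is no pair. -/
lemma card_coincidence_le {ι : Type} {k : ℕ} (Y : ℕ) (hY : 1 ≤ Y) (h : ι → ℕ)
    (σ : Fin (k + 1) → ι) :
    (((shifts k Y).filter (fun t => ¬ Function.Injective (hh (sh h σ t)))).card : ℝ)
      ≤ (k + 1 : ℝ) ^ 2 * 3 ^ k * (Y : ℝ) ^ k / Y := by
  classical
  have hY0 : (0 : ℝ) < Y := by exact_mod_cast hY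
  rcases k with _ | k
  · have h1 : ((shifts 0 Y).filter (fun t => ¬ Function.Injective (hh (sh h σ t)))) = ∅ := by
      apply Finset.filter_eq_empty_iff.2
      intro t _ hcon
      apply hcon
      intro a b _
      exact Subsingleton.elim (α := Fin 1) a b
    rw [h1, Finset.card_empty, Nat.cast_zero]
    positivity
  · have hsub : ((shifts (k + 1) Y).filter (fun t => ¬ Function.Injective (hh (sh h σ t))))
        ⊆ (Finset.univ : Finset (Fin (k + 2) × Fin (k + 1))).biUnion (fun il =>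
          (shifts (k + 1) Y).filter (fun t => il.1 ≠ il.2.succ ∧
            il.1 < il.2.succ ∧ hh (sh h σ t) il.1 = hh (sh h σ t) il.2.succ)) := by
      intro t ht
      rw [Finset.mem_filter] at ht
      obtain ⟨ht1, ht2⟩ := ht
      rw [Function.Injective] at ht2
      push Not at ht2
      obtain ⟨a, b, hab, hne⟩ := ht2
      rw [Finset.mem_biUnion]
      rcases lt_or_gt_of_ne hne with h1 | h1
      · obtain ⟨j, hj⟩ := Fin.exists_succ_eq.2 (Fin.pos_iff_ne_zero.1 (lt_of_le_of_lt (Fin.zero_le a) h1))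
        refine ⟨(a, j), Finset.mem_univ _, ?_⟩
        rw [Finset.mem_filter]
        refine ⟨ht1, ?_, ?_, ?_⟩
        · simp only [hj]; exact hne
        · simp only [hj]; exact h1
        · simp only [hj]; exact hab
      · obtain ⟨j, hj⟩ := Fin.exists_succ_eq.2 (Fin.pos_iff_ne_zero.1 (lt_of_le_of_lt (Fin.zero_le b) h1))
        refine ⟨(b, j), Finset.mem_univ _, ?_⟩
        rw [Finset.mem_filter]
        refine ⟨ht1, ?_, ?_, ?_⟩
        · simp only [hj]; exact hne.symm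
        · simp only [hj]; exact h1
        · simp only [hj]; exact hab.symm
    have hcard : ∀ il ∈ (Finset.univ : Finset (Fin (k + 2) × Fin (k + 1))),
        ((shifts (k + 1) Y).filter (fun t => il.1 ≠ il.2.succ ∧
            il.1 < il.2.succ ∧ hh (sh h σ t) il.1 = hh (sh h σ t) il.2.succ)).card
          ≤ (2 * Y + 1) ^ k := by
      intro il _
      apply E9c_fiber Y _ (Finset.filter_subset _ _) il.2
      intro a ha b hb hab
      rw [Finset.mem_filter] at ha hb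
      obtain ⟨-, -, hlt, ha⟩ := ha
      obtain ⟨-, -, -, hb⟩ := hb
      have e1 : ∀ t : Fin (k + 1) → ℤ, hh (sh h σ t) il.2.succ
          = t il.2 + ((h (σ 0) : ℤ) - h (σ il.2.succ)) := by
        intro t
        unfold hh sh
        rw [Fin.cons_succ]
      have e2 : hh (sh h σ a) il.1 = hh (sh h σ b) il.1 := by
        rcases Fin.eq_zero_or_eq_succ il.1 with h0 | ⟨j, hj⟩
        · rw [h0]
          unfold hh
          rw [Fin.cons_zero, Fin.cons_zero]
        · rw [hj] at hlt ⊢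
          have hjl : j < il.2 := Fin.succ_lt_succ_iff.1 hlt
          unfold hh sh
          rw [Fin.cons_succ, Fin.cons_succ, hab j (ne_of_lt hjl)]
      rw [e1] at ha hb
      linarith
    have h1 := (Finset.card_le_card hsub).trans Finset.card_biUnion_le
    have h2 := h1.trans (Finset.sum_le_sum hcard)
    rw [Finset.sum_const, Finset.card_univ, Fintype.card_prod, Fintype.card_fin, Fintype.card_fin,
      smul_eq_mul] at h2
    have h3 : (((shifts (k + 1) Y).filter (fun t => ¬ Function.Injective (hh (sh h σ t)))).card : ℝ)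
        ≤ ((k + 2 : ℕ) : ℝ) * ((k + 1 : ℕ) : ℝ) * (2 * Y + 1) ^ k := by exact_mod_cast h2
    refine h3.trans ?_
    have hY1 : (1 : ℝ) ≤ Y := by exact_mod_cast hY
    have h4 : ((2 : ℝ) * Y + 1) ^ k ≤ (3 * Y) ^ k := pow_le_pow_left₀ (by positivity) (by linarith) k
    have h5 : ((k + 1 : ℕ) + 1 : ℝ) ^ 2 * 3 ^ (k + 1) * (Y : ℝ) ^ (k + 1) / Y
        = ((k + 1 : ℕ) + 1 : ℝ) ^ 2 * 3 * (3 * Y) ^ k := by
      rw [mul_pow]
      field_simp
      ring
    rw [h5]
    have hk0 : (0 : ℝ) ≤ k := Nat.cast_nonneg k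
    have h6 : (0 : ℝ) ≤ (3 * Y) ^ k := by positivity
    push_cast
    calc ((k : ℝ) + 2) * (k + 1) * (2 * Y + 1) ^ k ≤ ((k : ℝ) + 2) * (k + 1) * (3 * Y) ^ k := by gcongr
      _ ≤ ((k : ℝ) + 1 + 1) ^ 2 * 3 * (3 * Y) ^ k := by
          apply mul_le_mul_of_nonneg_right _ h6
          nlinarith

end Pool.Agent.Lib.MP_bae66e_nt.LP
end

section

/-!
# LP/E5: `f - fS` is small
-/

set_option autoImplicit false

open Finset

namespace Pool.Agent.Lib.MP_bae66e_nt.LP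

open Pool.Agent.Lib.MP_bae66e_nt.LL

/-- The total mass of `f - fS`: there is `C = C(h)` with `∑_{n ∈ [1, Y]} |f n - fS n| ≤ C Y / log Y`
for all `Y ≥ 2` and all cutoffs, coefficients and `f`.

PROOF. `Near.fd`, and `sum_pv_pv_le` with the fixed distance `h l - h i ≠ 0` (`s = -H + h i`,
`s' = -H + h l`): `≤ 2000 Y/(ρ(|h l - h i|) log Y)²` for each pair.
`C = 1 + R ∑_{h i ≠ h l} 2000 / ρ(|h l - h i|)²` depends only on `h`. -/
lemma sum_abs_near_le {ι : Type} [Fintype ι] (h : ι → ℕ) : ∃ C : ℝ, 1 ≤ C ∧ ∀ (Y H : ℕ) (C₁ : ℝ)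
    (y : ι → ℕ) (c : ι → ℝ) (f : ℤ → ℝ), 2 ≤ Y → Cut Y H C₁ h y c → Near Y H h y c f →
    ∑ n ∈ Finset.Icc (1 : ℤ) (Y : ℤ), |f n - fS Y H h y c n| ≤ C * Y / Real.log Y := by
  obtain ⟨R, hR⟩ : ∃ R : ℝ, R = (Fintype.card ι : ℝ) := ⟨_, rfl⟩
  have hR0 : 0 ≤ R := by
    rw [hR]
    exact Nat.cast_nonneg _
  obtain ⟨K, hK⟩ : ∃ K : ℝ, K = ∑ i : ι, ∑ l ∈ Finset.univ.filter (fun l => h l ≠ h i),
    2000 / (rho ((h l : ℤ) - h i).natAbs) ^ 2 := ⟨_, rfl⟩
  have hK0 : 0 ≤ K := by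
    rw [hK]
    exact Finset.sum_nonneg fun i _ => Finset.sum_nonneg fun l _ => by positivity
  refine ⟨1 + R * K, by nlinarith [mul_nonneg hR0 hK0], fun Y H C₁ y c f hY2 hc hf => ?_⟩
  have hlog : 0 < Real.log Y := Real.log_pos (by exact_mod_cast (by omega : 1 < Y))
  have hY0 : (0 : ℝ) ≤ Y := Nat.cast_nonneg Y
  have h1 : ∑ n ∈ Finset.Icc (1 : ℤ) (Y : ℤ), |f n - fS Y H h y c n| ≤
      ∑ n ∈ Finset.Icc (1 : ℤ) (Y : ℤ), R * Real.log Y *
        ∑ i, ∑ l ∈ Finset.univ.filter (fun l => h l ≠ h i),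
          pv (Y - H) (n - H + h i) * pv (Y - H) (n - H + h l) := by
    rw [hR]
    exact Finset.sum_le_sum fun n _ => hf.fd n
  have h2 : ∑ n ∈ Finset.Icc (1 : ℤ) (Y : ℤ), R * Real.log Y *
        ∑ i, ∑ l ∈ Finset.univ.filter (fun l => h l ≠ h i),
          pv (Y - H) (n - H + h i) * pv (Y - H) (n - H + h l) =
      R * Real.log Y * ∑ i, ∑ l ∈ Finset.univ.filter (fun l => h l ≠ h i),
        ∑ n ∈ Finset.Icc (1 : ℤ) (Y : ℤ),
          pv (Y - H) (n - H + h i) * pv (Y - H) (n - H + h l) := by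
    rw [← Finset.mul_sum]
    congr 1
    rw [Finset.sum_comm]
    exact Finset.sum_congr rfl fun i _ => Finset.sum_comm
  have h3 : ∑ i, ∑ l ∈ Finset.univ.filter (fun l => h l ≠ h i),
        ∑ n ∈ Finset.Icc (1 : ℤ) (Y : ℤ),
          pv (Y - H) (n - H + h i) * pv (Y - H) (n - H + h l) ≤ K * (Y / (Real.log Y) ^ 2) := by
    rw [hK, Finset.sum_mul]
    refine Finset.sum_le_sum fun i _ => ?_
    rw [Finset.sum_mul]
    refine Finset.sum_le_sum fun l hl => ?_
    rw [Finset.mem_filter] at hl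
    have hne : (-(H : ℤ) + h i) ≠ -(H : ℤ) + h l := by
      intro h4
      apply hl.2
      omega
    have h4 := sum_pv_pv_le Y (Y - H) (Y - H) hY2 (Nat.sub_le _ _) (Nat.sub_le _ _)
      (-(H : ℤ) + h i) (-(H : ℤ) + h l) hne
    have e1 : (-(H : ℤ) + h l - (-(H : ℤ) + h i)) = h l - h i := by ring
    rw [e1] at h4
    have h5 : ∑ n ∈ Finset.Icc (1 : ℤ) (Y : ℤ), pv (Y - H) (n - H + h i) *
        pv (Y - H) (n - H + h l) =
        ∑ n ∈ Finset.Icc (1 : ℤ) (Y : ℤ), pv (Y - H) (n + (-(H : ℤ) + h i)) *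
          pv (Y - H) (n + (-(H : ℤ) + h l)) := by
      refine Finset.sum_congr rfl fun n _ => ?_
      have e2 : n - H + h i = n + (-(H : ℤ) + h i) := by ring
      have e3 : n - H + h l = n + (-(H : ℤ) + h l) := by ring
      rw [e2, e3]
    rw [h5]
    have hr := rho_pos ((h l : ℤ) - h i).natAbs
    refine h4.trans (le_of_eq ?_)
    field_simp
  calc ∑ n ∈ Finset.Icc (1 : ℤ) (Y : ℤ), |f n - fS Y H h y c n|
      ≤ R * Real.log Y * (K * (Y / (Real.log Y) ^ 2)) := by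
        refine h1.trans ?_
        rw [h2]
        exact mul_le_mul_of_nonneg_left h3 (by positivity)
    _ = R * K * (Y / Real.log Y) := by
        field_simp
    _ ≤ (1 + R * K) * (Y / Real.log Y) := mul_le_mul_of_nonneg_right (by linarith) (by positivity)
    _ = (1 + R * K) * Y / Real.log Y := by ring

/-- The energy of `f - fS` is small: for every `ε > 0`, `Y ≥ Y₀(h, ε)`.

PROOF. Let `Δ = f - fS`, supported in `[1, Y]`, `|Δ| ≤ 2 R log Y` (`abs_fS_le`, `near_abs_le`),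
`∑ |Δ| ≤ C Y/log Y`. `|corr Δ d| ≤ 2 R log Y ∑ |Δ| ≤ 2 R C Y`, and `∑_d |corr Δ d| ≤ (∑ |Δ|)²`. So
`En = ∑ corr² ≤ 2 R C Y (C Y/log Y)² ≤ ε Y³` for large `Y`. -/
theorem En_near_le {ι : Type} [Fintype ι] (h : ι → ℕ) (ε : ℝ) (hε : 0 < ε) : ∃ Y₀ : ℕ,
    ∀ (Y H : ℕ) (C₁ : ℝ) (y : ι → ℕ) (c : ι → ℝ) (f : ℤ → ℝ), Y₀ ≤ Y → Cut Y H C₁ h y c →
    Near Y H h y c f → En Y (fun n => f n - fS Y H h y c n) ≤ ε * (Y : ℝ) ^ 3 := by
  obtain ⟨C, hC1, hC⟩ := sum_abs_near_le h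
  obtain ⟨R, hR⟩ : ∃ R : ℝ, R = (Fintype.card ι : ℝ) := ⟨_, rfl⟩
  have hR0 : 0 ≤ R := by
    rw [hR]
    exact Nat.cast_nonneg _
  obtain ⟨K, hK⟩ : ∃ K : ℝ, K = 1 + 2 * R * C ^ 3 / ε := ⟨_, rfl⟩
  have hK1 : 1 ≤ K := by
    rw [hK]
    have : 0 ≤ 2 * R * C ^ 3 / ε := by positivity
    linarith
  refine ⟨⌈Real.exp K⌉₊ + 2, fun Y H C₁ y c f hY hc hf => ?_⟩
  have hY2 : 2 ≤ Y := by omega
  have hY0 : (0 : ℝ) < Y := by exact_mod_cast (by omega : 0 < Y)
  have hlogK : K ≤ Real.log Y := by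
    rw [Real.le_log_iff_exp_le hY0]
    refine (Nat.le_ceil _).trans ?_
    exact_mod_cast (by omega : ⌈Real.exp K⌉₊ ≤ Y)
  have hlog : 0 < Real.log Y := by linarith
  obtain ⟨Δ, hΔ⟩ : ∃ Δ : ℤ → ℝ, Δ = fun n => f n - fS Y H h y c n := ⟨_, rfl⟩
  have hΔs : ∀ n : ℤ, ¬ (1 ≤ n ∧ n ≤ (Y : ℤ)) → Δ n = 0 := by
    intro n hn
    rw [hΔ]
    simp only
    rw [near_support hc hf n hn, fS_support hc n hn, sub_zero]
  have hΔM : ∀ n, |Δ n| ≤ 2 * R * Real.log Y := by
    intro n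
    rw [hΔ, hR]
    simp only
    have h1 := abs_fS_le hc n
    have h2 := near_abs_le hf n
    have h3 := abs_sub (f n) (fS Y H h y c n)
    linarith
  obtain ⟨S, hS⟩ : ∃ S : ℝ, S = ∑ n ∈ Finset.Icc (1 : ℤ) (Y : ℤ), |Δ n| := ⟨_, rfl⟩
  have hSle : S ≤ C * Y / Real.log Y := by
    rw [hS, hΔ]
    exact hC Y H C₁ y c f hY2 hc hf
  have hS0 : 0 ≤ S := by
    rw [hS]
    exact Finset.sum_nonneg fun _ _ => abs_nonneg _
  have hshift : ∀ n ∈ Finset.Icc (1 : ℤ) (Y : ℤ),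
      ∑ d ∈ Finset.Icc (-(Y : ℤ)) (Y : ℤ), |Δ (n + d)| = S := by
    intro n hn
    rw [Finset.mem_Icc] at hn
    rw [hS]
    have h1 : ∑ d ∈ Finset.Icc (-(Y : ℤ)) (Y : ℤ), |Δ (n + d)| =
        ∑ m ∈ Finset.Icc (n - Y) (n + Y), |Δ m| := by
      apply Finset.sum_nbij' (fun d => n + d) (fun m => m - n)
      · intro d hd
        rw [Finset.mem_Icc] at hd ⊢
        omega
      · intro d hd
        rw [Finset.mem_Icc] at hd ⊢
        omega
      · intro d _
        ring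
      · intro d _
        ring
      · intro d _
        rfl
    rw [h1]
    symm
    refine Finset.sum_subset (fun m hm => ?_) (fun m _ hm => ?_)
    · rw [Finset.mem_Icc] at hm ⊢
      omega
    · rw [Finset.mem_Icc] at hm
      rw [hΔs m hm, abs_zero]
  have hcorr : ∀ d, |corr Y Δ d| ≤ ∑ n ∈ Finset.Icc (1 : ℤ) (Y : ℤ), |Δ n| * |Δ (n + d)| := by
    intro d
    unfold corr
    refine (Finset.abs_sum_le_sum_abs _ _).trans (le_of_eq ?_)
    exact Finset.sum_congr rfl fun n _ => abs_mul _ _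
  have hcorr1 : ∀ d, |corr Y Δ d| ≤ 2 * R * Real.log Y * S := by
    intro d
    refine (hcorr d).trans ?_
    rw [hS, Finset.mul_sum]
    refine Finset.sum_le_sum fun n _ => ?_
    rw [mul_comm]
    exact mul_le_mul_of_nonneg_right (hΔM _) (abs_nonneg _)
  have hcorr2 : ∑ d ∈ Finset.Icc (-(Y : ℤ)) (Y : ℤ), |corr Y Δ d| ≤ S * S := by
    refine (Finset.sum_le_sum fun d _ => hcorr d).trans ?_
    rw [Finset.sum_comm]
    have h1 : ∀ n ∈ Finset.Icc (1 : ℤ) (Y : ℤ),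
        ∑ d ∈ Finset.Icc (-(Y : ℤ)) (Y : ℤ), |Δ n| * |Δ (n + d)| = |Δ n| * S := by
      intro n hn
      rw [← Finset.mul_sum, hshift n hn]
    rw [Finset.sum_congr rfl h1, ← Finset.sum_mul, ← hS]
  have hEn : En Y Δ ≤ 2 * R * Real.log Y * S * (S * S) := by
    unfold En
    have h1 : ∀ d ∈ Finset.Icc (-(Y : ℤ)) (Y : ℤ), (corr Y Δ d) ^ 2 ≤
        2 * R * Real.log Y * S * |corr Y Δ d| := by
      intro d _
      rw [← sq_abs, sq]
      exact mul_le_mul_of_nonneg_right (hcorr1 d) (abs_nonneg _)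
    refine (Finset.sum_le_sum h1).trans ?_
    rw [← Finset.mul_sum]
    exact mul_le_mul_of_nonneg_left hcorr2 (by positivity)
  rw [hΔ] at hEn
  refine hEn.trans ?_
  have h1 : 2 * R * Real.log Y * S * (S * S) ≤
      2 * R * Real.log Y * (C * Y / Real.log Y) * ((C * Y / Real.log Y) * (C * Y / Real.log Y)) := by
    gcongr
  refine h1.trans ?_
  have h2 : 2 * R * Real.log Y * (C * Y / Real.log Y) * ((C * Y / Real.log Y) *
      (C * Y / Real.log Y)) = (2 * R * C ^ 3) / (Real.log Y) ^ 2 * (Y : ℝ) ^ 3 := by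
    field_simp
  rw [h2]
  refine mul_le_mul_of_nonneg_right ?_ (by positivity)
  rw [div_le_iff₀ (by positivity)]
  have h3 : 2 * R * C ^ 3 / ε ≤ Real.log Y := by
    rw [hK] at hlogK
    linarith
  rw [div_le_iff₀ hε] at h3
  have h4 : 1 ≤ Real.log Y := hK1.trans hlogK
  nlinarith [mul_le_mul_of_nonneg_left h4 (mul_nonneg hlog.le hε.le)]

end Pool.Agent.Lib.MP_bae66e_nt.LP
end
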