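import Pool.Agent.Lib.MP_bae66e_nt.Mg.G098
import Pool.Agent.Lib.MP_bae66e_nt.Mg.G044
import Pool.Agent.Lib.MP_bae66e_nt.Mg.G046
import Pool.Agent.Lib.MP_bae66e_nt.Mg.G045
import Pool.Agent.Lib.MP_bae66e_nt.LL.K.K07
import Pool.Agent.Lib.MP_bae66e_nt.Mg.G054
import Pool.Agent.Lib.MP_bae66e_nt.Mg.G062
import Pool.Agent.Lib.MP_bae66e_nt.Mg.G061

section

/-!
# E15: replacement of the primes by the local model, on average over the tuples
-/

set_option autoImplicit false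

open Finset

namespace Pool.Agent.Lib.MP_bae66e_nt.LL

/-- `DD` satisfies the triangle inequality. -/
lemma DD_triangle {k : ℕ} (Y W₀ : ℕ) (f g g' : ℤ → ℝ) (h : Fin k → ℤ) :
    DD Y W₀ f g' h ≤ DD Y W₀ f g h + DD Y W₀ g g' h := by
  unfold DD
  rw [← Finset.sum_add_distrib]
  refine Finset.sum_le_sum fun b _ => ?_
  have e : ∑ n ∈ (Finset.Icc (1 : ℤ) (Y : ℤ)).filter (fun n => n ≡ (b : ℤ) [ZMOD (W₀ : ℤ)]),
      ((∏ i, f (n - hh h i)) - ∏ i, g' (n - hh h i)) =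
      ∑ n ∈ (Finset.Icc (1 : ℤ) (Y : ℤ)).filter (fun n => n ≡ (b : ℤ) [ZMOD (W₀ : ℤ)]),
        ((∏ i, f (n - hh h i)) - ∏ i, g (n - hh h i)) +
      ∑ n ∈ (Finset.Icc (1 : ℤ) (Y : ℤ)).filter (fun n => n ≡ (b : ℤ) [ZMOD (W₀ : ℤ)]),
        ((∏ i, g (n - hh h i)) - ∏ i, g' (n - hh h i)) := by
    rw [← Finset.sum_add_distrib]
    exact Finset.sum_congr rfl fun n _ => by ring
  rw [e]
  exact abs_add_le _ _

lemma DD_nonneg {k : ℕ} (Y W₀ : ℕ) (f g : ℤ → ℝ) (h : Fin k → ℤ) : 0 ≤ DD Y W₀ f g h := by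
  unfold DD
  exact Finset.sum_nonneg fun _ _ => abs_nonneg _

/-- For every `k` and `η > 0`, for `w ≥ w₀` and `Y ≥ Y₀(w)`:
`∑_{h ∈ shifts, hh h injective} FF(h) DD(h) ≤ η Y^{k+1}` for `fP Y`, `gW (primorial w) Y` and
`W₀ = primorial w`.

PROOF. Let `C₁`, `C₂` be the constants of `main_one`, `main_two`. Take `w₀ ≥ 2 (k + 1)`, `w₀ ≥ 1`
with `C₂ / √w₀ ≤ η / 2`. Given `w ≥ w₀` choose `0 < ε ≤ 1` with
`C₁ √(primorial w) √√ε ≤ η / 2`. `energy_small ε` gives `w₁`; let `w' = max w w₁`; for large `Y`,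
`EnergyLe (primorial w') Y ε` holds. Now `DD_triangle` with `g = gW (primorial w') Y`, `main_one`
with `W₀ = primorial w`, `W = primorial w'` (`squarefree_primorial`; the sum over the injective
tuples is at most the sum over all, `DD_nonneg`, `FF_nonneg`), and `main_two`. -/
theorem star (k : ℕ) (η : ℝ) (hη : 0 < η) : ∃ w₀ : ℕ, ∀ w : ℕ, w₀ ≤ w → ∃ Y₀ : ℕ, ∀ Y : ℕ, Y₀ ≤ Y →
    ∑ h ∈ (shifts k Y).filter (fun h => Function.Injective (hh h)),
      FF (k + 1) h * DD Y (primorial w) (fP Y) (gW (primorial w) Y) h ≤ η * (Y : ℝ) ^ (k + 1) := by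
  obtain ⟨C₁, hC₁, H₁⟩ := main_one k
  obtain ⟨C₂, hC₂, H₂⟩ := main_two k
  set w₀ : ℕ := max (2 * (k + 1)) (⌈(2 * C₂ / η) ^ 2⌉₊ + 1) with hw₀
  refine ⟨w₀, fun w hw => ?_⟩
  have hw2 : 2 * (k + 1) ≤ w := (le_max_left _ _).trans hw
  have hw3 : ⌈(2 * C₂ / η) ^ 2⌉₊ + 1 ≤ w := (le_max_right _ _).trans hw
  have hwpos : (0 : ℝ) < w := by
    have : 0 < w := by omega
    exact_mod_cast this
  have hsq : 2 * C₂ / η ≤ Real.sqrt w := by
    apply Real.le_sqrt_of_sq_le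
    have h1 := Nat.le_ceil ((2 * C₂ / η) ^ 2)
    have h2 : ((⌈(2 * C₂ / η) ^ 2⌉₊ : ℕ) : ℝ) ≤ w := by
      have : ⌈(2 * C₂ / η) ^ 2⌉₊ ≤ w := by omega
      exact_mod_cast this
    linarith
  have hsw : 0 < Real.sqrt w := Real.sqrt_pos.2 hwpos
  have hC₂η : C₂ / Real.sqrt w ≤ η / 2 := by
    rw [div_le_iff₀ hη] at hsq
    rw [div_le_div_iff₀ hsw (by norm_num)]
    linarith
  -- the level
  have hW₀ : 1 ≤ primorial w := primorial_pos w
  have hsW : 0 < Real.sqrt (primorial w) := Real.sqrt_pos.2 (by exact_mod_cast hW₀)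
  set δ : ℝ := η / (2 * C₁ * Real.sqrt (primorial w)) with hδ
  have hC₁0 : 0 < C₁ := by linarith
  have hδ0 : 0 < δ := by positivity
  set ε : ℝ := min 1 (δ ^ 4) with hε
  have hε0 : 0 < ε := lt_min one_pos (by positivity)
  have hε1 : ε ≤ 1 := min_le_left _ _
  have hεδ : Real.sqrt (Real.sqrt ε) ≤ δ := by
    have h1 : Real.sqrt ε ≤ δ ^ 2 := by
      have h2 : Real.sqrt ε ≤ Real.sqrt ((δ ^ 2) ^ 2) := by
        apply Real.sqrt_le_sqrt
        refine (min_le_right _ _).trans (le_of_eq ?_)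
        ring
      rwa [Real.sqrt_sq (by positivity)] at h2
    have h3 : Real.sqrt (Real.sqrt ε) ≤ Real.sqrt (δ ^ 2) := Real.sqrt_le_sqrt h1
    rwa [Real.sqrt_sq hδ0.le] at h3
  obtain ⟨w₁, hw₁⟩ := energy_small ε hε0
  set w' : ℕ := max w w₁ with hw'
  obtain ⟨Y₁, hY₁⟩ := hw₁ w' (le_max_right _ _)
  obtain ⟨Y₂, hY₂⟩ := H₁ (primorial w) hW₀ (primorial w') (squarefree_primorial w') ε hε0 hε1
  obtain ⟨Y₃, hY₃⟩ := H₂ w hw2 w' (le_max_left _ _)
  refine ⟨max Y₁ (max Y₂ Y₃), fun Y hY => ?_⟩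
  have g1 : Y₁ ≤ Y := (le_max_left _ _).trans hY
  have g2 : Y₂ ≤ Y := ((le_max_left _ _).trans (le_max_right _ _)).trans hY
  have g3 : Y₃ ≤ Y := ((le_max_right _ _).trans (le_max_right _ _)).trans hY
  have m1 := hY₂ Y g2 (hY₁ Y g1)
  have m2 := hY₃ Y g3
  have hYk : (0 : ℝ) ≤ (Y : ℝ) ^ (k + 1) := by positivity
  have hterm : ∀ h ∈ (shifts k Y).filter (fun h => Function.Injective (hh h)),
      FF (k + 1) h * DD Y (primorial w) (fP Y) (gW (primorial w) Y) h ≤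
      FF (k + 1) h * DD Y (primorial w) (fP Y) (gW (primorial w') Y) h +
      FF (k + 1) h * DD Y (primorial w) (gW (primorial w') Y) (gW (primorial w) Y) h := by
    intro h _
    rw [← mul_add]
    exact mul_le_mul_of_nonneg_left (DD_triangle Y _ _ _ _ h) (FF_nonneg _ h)
  refine (Finset.sum_le_sum hterm).trans ?_
  rw [Finset.sum_add_distrib]
  have hA : ∑ h ∈ (shifts k Y).filter (fun h => Function.Injective (hh h)),
      FF (k + 1) h * DD Y (primorial w) (fP Y) (gW (primorial w') Y) h ≤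
      η / 2 * (Y : ℝ) ^ (k + 1) := by
    refine (Finset.sum_le_sum_of_subset_of_nonneg (Finset.filter_subset _ _)
      (fun h _ _ => mul_nonneg (FF_nonneg _ h) (DD_nonneg Y _ _ _ h))).trans (m1.trans ?_)
    refine mul_le_mul_of_nonneg_right ?_ hYk
    have h4 : C₁ * Real.sqrt (primorial w) * Real.sqrt (Real.sqrt ε) ≤
        C₁ * Real.sqrt (primorial w) * δ :=
      mul_le_mul_of_nonneg_left hεδ (by positivity)
    refine h4.trans (le_of_eq ?_)
    rw [hδ]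
    field_simp
  have hB := m2.trans (mul_le_mul_of_nonneg_right hC₂η hYk)
  linarith

end Pool.Agent.Lib.MP_bae66e_nt.LL
end

section

/-!
# B06: the error terms are small
-/

set_option autoImplicit false

open Finset

namespace Pool.Agent.Lib.MP_bae66e_nt.LL

/-- The weight of `selberg_tuple` for `H_i = h_i` is `FF (k + 1) h` (`h_i ≥ 1`): the pairs `(0, l)`
give `∏ ρ(h_i)`, the pairs `(i, l)` with `i ≥ 1` give the double product. -/
lemma weight_eq_FF {k : ℕ} (h : Fin k → ℤ) (hpos : ∀ i, 1 ≤ h i) :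
    (1 / ((∏ i, rho (h i).toNat) *
        ∏ i, ∏ l ∈ Finset.Ioi i, rho ((((h i).toNat : ℤ) - ((h l).toNat : ℤ)).natAbs))) ^ (k + 1)
      = FF (k + 1) h := by
  unfold FF
  rw [Fin.prod_univ_succ, Fin.prod_Ioi_zero]
  simp only [Fin.prod_Ioi_succ]
  have e1 : ∀ i : Fin k, hh h i.succ = h i := fun i => by
    unfold hh; rw [Fin.cons_succ]
  have e0 : hh h 0 = 0 := by unfold hh; rw [Fin.cons_zero]
  simp only [e1, e0, zero_sub, Int.natAbs_neg]
  have e2 : ∀ i : Fin k, ((h i).toNat : ℤ) = h i := fun i => by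
    have := hpos i; omega
  have e3 : ∀ i : Fin k, (h i).natAbs = (h i).toNat := fun i => by
    have := hpos i; omega
  simp only [e2, e3, Finset.prod_pow, ← mul_pow]
  congr 1
  simp only [one_div, Finset.prod_inv_distrib, mul_inv]

private lemma B06_DD_nonneg {k : ℕ} (Y W₀ : ℕ) (f g : ℤ → ℝ) (h : Fin k → ℤ) :
    0 ≤ DD Y W₀ f g h := Finset.sum_nonneg (fun _ _ => abs_nonneg _)

/-- For every `k`, `C₀ ≥ 0`, `η > 0`: for `w ≥ w₀`, `y ≥ Y₀(w)` and all `X`, `L ≥ 1` with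
`y ≤ C₀ log X log y`: `∑_i ∑_a ErrJ(i, a, k + 1) ≤ η X` (with `W = primorial w`).

PROOF. `sum_ErrJ_le`, `selberg_tuple` (constant `C`), `weight_eq_FF`, and `star k η'`:
`≤ C X / (log X log y)^{k+1} ∑_{h ∈ shiftsP} FF(k+1) DD ≤ C X η' y^{k+1} / (log X log y)^{k+1}
≤ C η' C₀^{k+1} X`; `shiftsP k y` is contained in the injective shifts. Choose
`η' = η / (C (C₀ + 1)^{k+1} + 1)`. From `y ≤ C₀ log X log y`, `y ≥ 3`, it follows that `log X > 0`
and, for large `y`, `X ≥ 2`. -/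
theorem sum_ErrJ_small (k : ℕ) (C₀ η : ℝ) (hC₀ : 0 ≤ C₀) (hη : 0 < η) :
    ∃ w₀ : ℕ, ∀ w : ℕ, w₀ ≤ w → ∃ Y₀ : ℕ, ∀ y : ℕ, Y₀ ≤ y → ∀ X L : ℕ, 0 < L →
      (y : ℝ) ≤ C₀ * Real.log X * Real.log y →
      ∑ i ∈ Finset.range (X / L), ∑ a ∈ Finset.range (primorial w),
        ErrJ (primorial w) y (QQ (i * L) L) (extC (i * L) L y (primorial w) a) (k + 1)
        ≤ η * X := by
  obtain ⟨C, hC, hsel⟩ := selberg_tuple k
  obtain ⟨w₀, hw₀⟩ := star k (η / (C * C₀ ^ (k + 1) + 1)) (by positivity)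
  refine ⟨w₀, fun w hw => ?_⟩
  obtain ⟨Y₀, hY₀⟩ := hw₀ w hw
  refine ⟨Y₀ + 3, fun y hy X L hL hyC => ?_⟩
  have hy1 : (1 : ℝ) < y := by exact_mod_cast (by omega : 1 < y)
  have hly : 0 < Real.log y := Real.log_pos hy1
  have hlX : 0 < Real.log X := by
    by_contra hneg
    have h1 : C₀ * Real.log X * Real.log y ≤ 0 := by
      apply mul_nonpos_of_nonpos_of_nonneg _ hly.le
      exact mul_nonpos_of_nonneg_of_nonpos hC₀ (not_lt.1 hneg)
    linarith
  have hX2 : 2 ≤ X := by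
    by_contra hlt
    have : X = 0 ∨ X = 1 := by omega
    rcases this with h | h <;> · rw [h] at hlX; simp at hlX
  have hW1 : 1 ≤ primorial w := primorial_pos w
  refine (sum_ErrJ_le X L y (primorial w) k hL hW1 (by omega)).trans ?_
  have h1 : ∀ h ∈ shiftsP k y,
      (((Finset.Ioc 0 X).filter (fun q => q.Prime ∧ ∀ i, (q + (h i).toNat).Prime)).card : ℝ)
          * (DD y (primorial w) (fP y) (gW (primorial w) y) h / (Real.log y) ^ (k + 1))
      ≤ (C * (X / (Real.log X) ^ (k + 1)) / (Real.log y) ^ (k + 1))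
        * (FF (k + 1) h * DD y (primorial w) (fP y) (gW (primorial w) y) h) := by
    intro h hh'
    unfold shiftsP at hh'
    rw [Finset.mem_filter] at hh'
    obtain ⟨_, hinj, hpos⟩ := hh'
    have hinj' : Function.Injective (fun i => (h i).toNat) := by
      intro i j hij
      have h2 : h i = h j := by
        have h3 := hpos i
        have h4 := hpos j
        have h5 : (h i).toNat = (h j).toNat := hij
        omega
      have h6 : hh h i.succ = hh h j.succ := by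
        unfold hh
        rw [Fin.cons_succ, Fin.cons_succ, h2]
      exact Fin.succ_injective _ (hinj h6)
    have h2 := hsel (fun i => (h i).toNat) (fun i => by have := hpos i; show 1 ≤ (h i).toNat; omega)
      hinj' X hX2
    rw [weight_eq_FF h hpos] at h2
    have h3 := B06_DD_nonneg y (primorial w) (fP y) (gW (primorial w) y) h
    have h4 : 0 ≤ DD y (primorial w) (fP y) (gW (primorial w) y) h / (Real.log y) ^ (k + 1) := by
      positivity
    refine (mul_le_mul_of_nonneg_right h2 h4).trans (le_of_eq ?_)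
    ring
  refine (Finset.sum_le_sum h1).trans ?_
  rw [← Finset.mul_sum]
  have h2 : ∑ h ∈ shiftsP k y, FF (k + 1) h * DD y (primorial w) (fP y) (gW (primorial w) y) h
      ≤ η / (C * C₀ ^ (k + 1) + 1) * (y : ℝ) ^ (k + 1) := by
    refine le_trans ?_ (hY₀ y (by omega))
    apply Finset.sum_le_sum_of_subset_of_nonneg
    · intro h hh'
      unfold shiftsP at hh'
      rw [Finset.mem_filter] at hh' ⊢
      exact ⟨hh'.1, hh'.2.1⟩
    · intro h _ _
      exact mul_nonneg (FF_nonneg _ _) (B06_DD_nonneg _ _ _ _ _)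
  have h3 : 0 ≤ C * (X / (Real.log X) ^ (k + 1)) / (Real.log y) ^ (k + 1) := by positivity
  refine (mul_le_mul_of_nonneg_left h2 h3).trans ?_
  have h4 : ((y : ℝ) / (Real.log X * Real.log y)) ^ (k + 1) ≤ C₀ ^ (k + 1) := by
    apply pow_le_pow_left₀ (by positivity)
    rw [div_le_iff₀ (by positivity)]
    linarith
  have hX0 : (0 : ℝ) ≤ X := Nat.cast_nonneg X
  calc C * (X / (Real.log X) ^ (k + 1)) / (Real.log y) ^ (k + 1)
        * (η / (C * C₀ ^ (k + 1) + 1) * (y : ℝ) ^ (k + 1))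
      = (C * (η / (C * C₀ ^ (k + 1) + 1)) * X) * ((y : ℝ) / (Real.log X * Real.log y)) ^ (k + 1) := by
        rw [div_pow, mul_pow]; field_simp
    _ ≤ (C * (η / (C * C₀ ^ (k + 1) + 1)) * X) * C₀ ^ (k + 1) :=
        mul_le_mul_of_nonneg_left h4 (by positivity)
    _ = (C * C₀ ^ (k + 1)) / (C * C₀ ^ (k + 1) + 1) * (η * X) := by ring
    _ ≤ 1 * (η * X) := by
        apply mul_le_mul_of_nonneg_right _ (by positivity)
        rw [div_le_one (by positivity)]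
        linarith
    _ = η * X := one_mul _

end Pool.Agent.Lib.MP_bae66e_nt.LL
end

section

/-!
# LP/B5: the error terms

Adapt `sum_ErrJ_small` of `LL/B/B06.lean`.
-/

set_option autoImplicit false

open Finset

namespace Pool.Agent.Lib.MP_bae66e_nt.LP

open Pool.Agent.Lib.MP_bae66e_nt.LL

private lemma B5_DD_nonneg {k : ℕ} (Y W₀ : ℕ) (f g : ℤ → ℝ) (h : Fin k → ℤ) :
    0 ≤ DD Y W₀ f g h := Finset.sum_nonneg (fun _ _ => abs_nonneg _)

/-- For every `k` there is `C = C(k)` such that for `η ≥ 0`, `C₀ ≥ 0`, `Y ≥ 3`, `Y ≤ C₀ log X log Y`,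
`F`, `G` supported in `[1, Y]`, `StarFG k W Y F G η` implies
`∑_i ∑_a ErrG(i, a, k + 1) ≤ C C₀^{k+1} η X`.

PROOF. As in `sum_ErrJ_small`: `sum_ErrG_le`, `selberg_tuple k` (constant `C`), `weight_eq_FF`:
`≤ C (X/(log X)^{k+1}) ∑_{h ∈ shiftsP} FF(k+1) DD ≤ C X η (Y/(log X log Y))^{k+1} ≤ C C₀^{k+1} η X`.
From `Y ≤ C₀ log X log Y`, `Y ≥ 3` it follows that `log X > 0`, so `X ≥ 2`. -/
theorem sum_ErrG_small (k : ℕ) : ∃ C : ℝ, 1 ≤ C ∧ ∀ C₀ η : ℝ, 0 ≤ C₀ → 0 ≤ η →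
    ∀ X Y L W : ℕ, 0 < L → 1 ≤ W → 3 ≤ Y → (Y : ℝ) ≤ C₀ * Real.log X * Real.log Y →
    ∀ F G : ℤ → ℝ, (∀ n : ℤ, ¬ (1 ≤ n ∧ n ≤ (Y : ℤ)) → F n = 0) →
      (∀ n : ℤ, ¬ (1 ≤ n ∧ n ≤ (Y : ℤ)) → G n = 0) → StarFG k W Y F G η →
      ∑ i ∈ Finset.range (X / L), ∑ a ∈ Finset.range W,
        ErrG F G (QQ (i * L) L) (extC (i * L) L Y W a) (k + 1) ≤ C * C₀ ^ (k + 1) * η * X := by
  obtain ⟨C, hC, hsel⟩ := selberg_tuple k
  refine ⟨C + 1, by linarith, fun C₀ η hC₀ hη X Y L W hL hW hY hYC F G hF hG hstar => ?_⟩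
  have hy1 : (1 : ℝ) < Y := by exact_mod_cast (by omega : 1 < Y)
  have hly : 0 < Real.log Y := Real.log_pos hy1
  have hlX : 0 < Real.log X := by
    by_contra hneg
    have h1 : C₀ * Real.log X * Real.log Y ≤ 0 := by
      apply mul_nonpos_of_nonpos_of_nonneg _ hly.le
      exact mul_nonpos_of_nonneg_of_nonpos hC₀ (not_lt.1 hneg)
    linarith
  have hX2 : 2 ≤ X := by
    by_contra hlt
    have : X = 0 ∨ X = 1 := by omega
    rcases this with h | h <;> · rw [h] at hlX; simp at hlX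
  refine (sum_ErrG_le X L Y W k hL hW F G hF hG).trans ?_
  have h1 : ∀ h ∈ shiftsP k Y,
      (((Finset.Ioc 0 X).filter (fun q => q.Prime ∧ ∀ i, (q + (h i).toNat).Prime)).card : ℝ)
          * DD Y W F G h
      ≤ (C * (X / (Real.log X) ^ (k + 1))) * (FF (k + 1) h * DD Y W F G h) := by
    intro h hh'
    unfold shiftsP at hh'
    rw [Finset.mem_filter] at hh'
    obtain ⟨_, hinj, hpos⟩ := hh'
    have hinj' : Function.Injective (fun i => (h i).toNat) := by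
      intro i j hij
      have h2 : h i = h j := by
        have h3 := hpos i
        have h4 := hpos j
        have h5 : (h i).toNat = (h j).toNat := hij
        omega
      have h6 : hh h i.succ = hh h j.succ := by
        unfold hh
        rw [Fin.cons_succ, Fin.cons_succ, h2]
      exact Fin.succ_injective _ (hinj h6)
    have h2 := hsel (fun i => (h i).toNat) (fun i => by have := hpos i; show 1 ≤ (h i).toNat; omega)
      hinj' X hX2
    rw [weight_eq_FF h hpos] at h2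
    have h3 := B5_DD_nonneg Y W F G h
    refine (mul_le_mul_of_nonneg_right h2 h3).trans (le_of_eq ?_)
    ring
  refine (Finset.sum_le_sum h1).trans ?_
  rw [← Finset.mul_sum]
  have h2 : ∑ h ∈ shiftsP k Y, FF (k + 1) h * DD Y W F G h
      ≤ η * ((Y : ℝ) / Real.log Y) ^ (k + 1) := by
    refine le_trans ?_ hstar
    apply Finset.sum_le_sum_of_subset_of_nonneg
    · intro h hh'
      unfold shiftsP at hh'
      rw [Finset.mem_filter] at hh' ⊢
      exact ⟨hh'.1, hh'.2.1⟩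
    · intro h _ _
      exact mul_nonneg (FF_nonneg _ _) (B5_DD_nonneg _ _ _ _ _)
  have h3 : 0 ≤ C * (X / (Real.log X) ^ (k + 1)) := by positivity
  refine (mul_le_mul_of_nonneg_left h2 h3).trans ?_
  have h4 : ((Y : ℝ) / (Real.log X * Real.log Y)) ^ (k + 1) ≤ C₀ ^ (k + 1) := by
    apply pow_le_pow_left₀ (by positivity)
    rw [div_le_iff₀ (by positivity)]
    linarith
  have hX0 : (0 : ℝ) ≤ X := Nat.cast_nonneg X
  calc C * (X / (Real.log X) ^ (k + 1)) * (η * ((Y : ℝ) / Real.log Y) ^ (k + 1))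
      = (C * η * X) * ((Y : ℝ) / (Real.log X * Real.log Y)) ^ (k + 1) := by
        rw [div_pow, div_pow, mul_pow]; field_simp
    _ ≤ (C * η * X) * C₀ ^ (k + 1) :=
        mul_le_mul_of_nonneg_left h4 (by positivity)
    _ ≤ ((C + 1) * η * X) * C₀ ^ (k + 1) := by
        refine mul_le_mul_of_nonneg_right ?_ (by positivity)
        refine mul_le_mul_of_nonneg_right ?_ hX0
        exact mul_le_mul_of_nonneg_right (by linarith) hη
    _ = (C + 1) * C₀ ^ (k + 1) * η * X := by ring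

end Pool.Agent.Lib.MP_bae66e_nt.LP
end

section

/-!
# LP/E7b: from `f` to `fS`
-/

set_option autoImplicit false

open Finset

namespace Pool.Agent.Lib.MP_bae66e_nt.LP

open Pool.Agent.Lib.MP_bae66e_nt.LL

private lemma E7b_eps (C s η : ℝ) (hC : 1 ≤ C) (hs : 1 ≤ s) (hη : 0 < η) :
    ∃ ε : ℝ, 0 < ε ∧ ε ≤ 1 ∧ C * s * Real.sqrt (Real.sqrt ε) ≤ η := by
  set δ : ℝ := η / (C * s) with hδ
  have hCs : 0 < C * s := by positivity
  have hδ0 : 0 < δ := by positivity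
  refine ⟨min 1 (δ ^ 4), lt_min one_pos (by positivity), min_le_left _ _, ?_⟩
  have hεδ : Real.sqrt (Real.sqrt (min 1 (δ ^ 4))) ≤ δ := by
    have h1 : Real.sqrt (min 1 (δ ^ 4)) ≤ δ ^ 2 := by
      have h2 : Real.sqrt (min 1 (δ ^ 4)) ≤ Real.sqrt ((δ ^ 2) ^ 2) := by
        apply Real.sqrt_le_sqrt
        refine (min_le_right _ _).trans (le_of_eq ?_)
        ring
      rwa [Real.sqrt_sq (by positivity)] at h2
    have h3 : Real.sqrt (Real.sqrt (min 1 (δ ^ 4))) ≤ Real.sqrt (δ ^ 2) := Real.sqrt_le_sqrt h1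
    rwa [Real.sqrt_sq hδ0.le] at h3
  calc C * s * Real.sqrt (Real.sqrt (min 1 (δ ^ 4))) ≤ C * s * δ :=
        mul_le_mul_of_nonneg_left hεδ hCs.le
    _ = η := by rw [hδ]; field_simp

/-- Step 1: for every `k`, `h`, `W₀ ≥ 1`, `η > 0` and large `Y`: `∑_t FF DD(f, fS) ≤ η Y^{k+1}`.

PROOF. If `ι` is empty, both functions are `0` and `DD = 0`. Otherwise `H ≤ Y` (`Cut.hY`). `one_step k B`
with `B = 2000^{2k} B'` (`sum_RR_pow_le`, the weight of `one_step` is `2000 RR h d`), `D = D0 h`,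
`M = R log Y` (`abs_fS_le`, `near_abs_le`), the supports (`fS_support`, `near_support`), `corr_le_of_pv`
(`abs_fS_le_sum`, `Near.fP`, `Near.f0`), `En_near_le` for `ε ∈ (0, 1]` with `C √W₀ √√ε ≤ η`;
`diag_smallJ` with `W = 0`, `δ = √ε`, and `card_D0_le`. -/
theorem step_one {ι : Type} [Fintype ι] (k : ℕ) (h : ι → ℕ) (W₀ : ℕ) (hW₀ : 1 ≤ W₀) (η : ℝ)
    (hη : 0 < η) : ∃ Y₀ : ℕ, ∀ (Y H : ℕ) (C₁ : ℝ) (y : ι → ℕ) (c : ι → ℝ) (f : ℤ → ℝ), Y₀ ≤ Y →
      Cut Y H C₁ h y c → Near Y H h y c f →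
      ∑ t ∈ shifts k Y, FF (k + 1) t * DD Y W₀ f (fS Y H h y c) t ≤ η * (Y : ℝ) ^ (k + 1) := by
  obtain ⟨B', hB', hRR⟩ := sum_RR_pow_le ι k
  have hB0 : (0 : ℝ) ≤ 2000 ^ (2 * k) * B' := by positivity
  obtain ⟨C, hC, hstep⟩ := one_step k (2000 ^ (2 * k) * B') hB0
  have hW1 : (1 : ℝ) ≤ W₀ := by exact_mod_cast hW₀
  have hs1 : 1 ≤ Real.sqrt W₀ := by rwa [Real.one_le_sqrt]
  obtain ⟨ε, hε, hε1, hεη⟩ := E7b_eps C (Real.sqrt W₀) η hC hs1 hη
  obtain ⟨Y₁, hY₁⟩ := En_near_le h ε hε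
  obtain ⟨Y₂, hY₂⟩ := diag_smallJ 0 (Fintype.card ι) k (Real.sqrt ε) (Real.sqrt_pos.2 hε)
  refine ⟨Y₁ + Y₂ + 2, fun Y H C₁ y c f hY hc hf => ?_⟩
  have hYR : (1 : ℝ) ≤ Y := by exact_mod_cast (by omega : 1 ≤ Y)
  have hlog : 0 ≤ Real.log Y := Real.log_nonneg hYR
  have hH : ∃ H' : ℕ, H' ≤ Y ∧ ∀ i, h i ≤ H' := by
    rcases isEmpty_or_nonempty ι with hι | ⟨⟨i⟩⟩
    · exact ⟨0, by omega, fun i => (hι.false i).elim⟩
    · exact ⟨H, by have := hc.hY i; omega, hc.hH⟩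
  obtain ⟨H', hH', hhH'⟩ := hH
  have hmain := hstep Y W₀ f (fS Y H h y c) (fun d => 2000 * RR h d) (D0 h)
    (Fintype.card ι * Real.log Y) ε (by omega) hW₀ hε (by positivity)
    (fun n hn => near_support hc hf n hn) (fun n hn => fS_support hc n hn)
    (fun n => near_abs_le hf n) (fun n => abs_fS_le hc n)
    (fun d => mul_nonneg (by norm_num) (RR_nonneg h d))
    (fun d hd _ => corr_le_of_pv Y H (by omega) f (fun n => by
      rw [abs_of_nonneg (hf.f0 n)]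
      exact hf.fP n) d hd)
    (fun d hd _ => corr_le_of_pv Y H (by omega) _ (fun n => abs_fS_le_sum hc n) d hd)
    (by
      have h1 := hRR Y H' h (by omega) hH' hhH'
      have h2 : ∑ d ∈ Finset.Icc (-(Y : ℤ)) (Y : ℤ), (2000 * RR h d) ^ (2 * k) =
          2000 ^ (2 * k) * ∑ d ∈ Finset.Icc (-(Y : ℤ)) (Y : ℤ), (RR h d) ^ (2 * k) := by
        rw [Finset.mul_sum]
        exact Finset.sum_congr rfl fun d _ => mul_pow _ _ _
      rw [h2, mul_assoc]
      exact mul_le_mul_of_nonneg_left h1 (by positivity))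
    (by
      have h1 := hY₂ Y (by omega)
      rw [Nat.cast_zero, mul_zero, add_zero] at h1
      refine le_trans ?_ h1
      exact mul_le_mul_of_nonneg_right (card_D0_le h) (by positivity))
    (hY₁ Y H C₁ y c f (by omega) hc hf)
  refine hmain.trans ?_
  exact mul_le_mul_of_nonneg_right hεη (by positivity)

end Pool.Agent.Lib.MP_bae66e_nt.LP
end
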