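import Pool.Agent.Lib.MP_bae66e_nt.Mg.G043
import Pool.Agent.Lib.MP_bae66e_nt.Mg.G045
import Pool.Agent.Lib.MP_bae66e_nt.Mg.G041
import Pool.Agent.Lib.MP_bae66e_nt.Mg.G047
import Pool.Agent.Lib.MP_bae66e_nt.Mg.G042
import Pool.Agent.Lib.MP_bae66e_nt.Mg.G049
import Pool.Agent.Lib.MP_bae66e_nt.Mg.G044

section

/-!
# B07: the main formula
-/

set_option autoImplicit false

open Finset

namespace Pool.Agent.Lib.MP_bae66e_nt.LL

private lemma B07_diff_le_one (s : ℝ) (hs0 : 0 ≤ s) (hs1 : s ≤ 1) (y : ℕ) (W : ℕ) (hy : 2 ≤ y)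
    (Q : Finset ℕ) (m : ℤ) :
    |zs s y Q m - Real.exp (-(s * lamQ W y Q m))| ≤ 1 := by
  have h1 : 0 ≤ s * lamQ W y Q m := mul_nonneg hs0 (Finset.sum_nonneg fun q _ => vv_nonneg W y hy _)
  have h2 : Real.exp (-(s * lamQ W y Q m)) ≤ 1 := Real.exp_le_one_iff.mpr (by linarith)
  have h3 : 0 < Real.exp (-(s * lamQ W y Q m)) := Real.exp_pos _
  have h4 : 0 ≤ zs s y Q m ∧ zs s y Q m ≤ 1 :=
    ⟨zs_nonneg s hs0 hs1 y Q m, zs_le_one s hs0 hs1 y Q m⟩
  rw [abs_le]
  constructor <;> linarith [h4.1, h4.2]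

private lemma B07_ErrJ_nonneg (W y : ℕ) (Q : Finset ℕ) (S : Finset ℤ) (j : ℕ) :
    0 ≤ ErrJ W y Q S j := abs_nonneg _

/-- one pair `(i, a)` -/
private lemma B07_pair (s : ℝ) (hs0 : 0 ≤ s) (hs1 : s ≤ 1) (y L W x a : ℕ) (hW : 1 ≤ W) (hy : 2 ≤ y)
    (hWy : (W : ℝ) / Real.log y ≤ 1) (Λ η : ℝ) (hΛ : 0 < Λ) (hη : 0 ≤ η) (K : ℕ)
    (hK : ∀ j : ℕ, K < j → Λ ^ j / (Nat.factorial j : ℝ) ≤ η) :
    |∑ m ∈ extC x L y W a, (zs s y (QQ x L) m - Real.exp (-(s * lamQ W y (QQ x L) m)))| ≤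
      ((extC x L y W a).card : ℝ) * (η + (W : ℝ) / Real.log y * Λ) +
        (if Λ < UU W y (QQ x L) a then ((L : ℝ) + y) / W + 1 else 0) +
        ∑ j ∈ Finset.Icc 1 (K + 1), ErrJ W y (QQ x L) (extC x L y W a) j := by
  have hlog : 0 < Real.log (y : ℝ) := Real.log_pos (by exact_mod_cast (show 1 < y by omega))
  have hE : 0 ≤ ∑ j ∈ Finset.Icc 1 (K + 1), ErrJ W y (QQ x L) (extC x L y W a) j :=
    Finset.sum_nonneg fun j _ => B07_ErrJ_nonneg _ _ _ _ _
  by_cases hU : Λ < UU W y (QQ x L) a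
  · rw [if_pos hU]
    have h1 : |∑ m ∈ extC x L y W a, (zs s y (QQ x L) m - Real.exp (-(s * lamQ W y (QQ x L) m)))| ≤
        ((extC x L y W a).card : ℝ) := by
      refine (Finset.abs_sum_le_sum_abs _ _).trans ?_
      refine (Finset.sum_le_sum fun m _ => B07_diff_le_one s hs0 hs1 y W hy (QQ x L) m).trans ?_
      rw [Finset.sum_const, nsmul_eq_mul, mul_one]
    have h2 := card_extC_le x L y W a hW
    have h3 : 0 ≤ ((extC x L y W a).card : ℝ) * (η + (W : ℝ) / Real.log y * Λ) := by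
      positivity
    linarith
  · rw [if_neg hU, add_zero, Finset.sum_sub_distrib]
    refine good_class s hs0 hs1 W y hW hy hWy (QQ x L) a (extC x L y W a) ?_ Λ η K (not_lt.mp hU) hK
    intro m hm
    exact (Finset.mem_filter.mp hm).2

/-- Good and bad classes together. Let `W` be even, `y ≥ 2`, `X ≥ 2`, `W ≤ log y`, `Λ > 0`. Then
`|∑_{m ≤ X even} zs s - ∑_{m ≤ X even} exp(-s λ)| ≤ L + 3 y (X/L) + (X/L)(L + y)(η + (W/log y) Λ)
 + ((L + y)/W + 1) (1/Λ)(W/log y)(5 X/log X) + ∑_{1 ≤ j ≤ K+1} ∑_i ∑_a ErrJ(i, a, j)`.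

PROOF. `block_split` with `G m = zs s y (QQ 0 X) m - exp(-s lamQ W y (QQ 0 X) m)` (in `[-1, 1]` as both
terms are in `[0, 1]`, `vv_nonneg`) and `G_i` the same for the block (`zs_block`, `lamQ_block`;
`(i + 1) L ≤ X` for `i < X / L`). `sum_even_eq_sum_classes` for each block. For each pair `(i, a)`,
`a` even: if `UU ≤ Λ` use `good_class`; otherwise the difference is at most
`#extC ≤ (L + y)/W + 1` (`card_extC_le`), and the number of such pairs is bounded by `card_bad_le`.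
`∑_a #extC = L + y` (`sum_card_extC`). All `ErrJ ≥ 0`. -/
theorem formula_bound (s : ℝ) (hs0 : 0 ≤ s) (hs1 : s ≤ 1) (X y L W : ℕ) (hL : 0 < L) (hW : 1 ≤ W) (h2 : 2 ∣ W) (hy : 2 ≤ y)
    (hX : 2 ≤ X) (hWy : (W : ℝ) / Real.log y ≤ 1) (Λ η : ℝ) (hΛ : 0 < Λ) (hη : 0 ≤ η) (K : ℕ)
    (hK : ∀ j : ℕ, K < j → Λ ^ j / (Nat.factorial j : ℝ) ≤ η) :
    |(∑ m ∈ (Finset.Ioc (0 : ℤ) (X : ℤ)).filter (fun m => Even m), zs s y (QQ 0 X) m)
        - ∑ m ∈ (Finset.Ioc (0 : ℤ) (X : ℤ)).filter (fun m => Even m),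
          Real.exp (-(s * lamQ W y (QQ 0 X) m))|
      ≤ L + 3 * y * (X / L : ℕ) + (X / L : ℕ) * ((L : ℝ) + y) * (η + (W : ℝ) / Real.log y * Λ)
        + (((L : ℝ) + y) / W + 1) * (1 / Λ * (W / Real.log y * (5 * X / Real.log X)))
        + ∑ j ∈ Finset.Icc 1 (K + 1), ∑ i ∈ Finset.range (X / L), ∑ a ∈ Finset.range W,
          ErrJ W y (QQ (i * L) L) (extC (i * L) L y W a) j := by
  have hlog : 0 < Real.log (y : ℝ) := Real.log_pos (by exact_mod_cast (show 1 < y by omega))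
  -- splitting into blocks
  have hsplit := block_split X y L hL
    (fun m => zs s y (QQ 0 X) m - Real.exp (-(s * lamQ W y (QQ 0 X) m)))
    (fun i m => zs s y (QQ (i * L) L) m - Real.exp (-(s * lamQ W y (QQ (i * L) L) m)))
    (fun m => B07_diff_le_one s hs0 hs1 y W hy _ m) (fun i m => B07_diff_le_one s hs0 hs1 y W hy _ m)
    (by
      intro i hi m h1 h3
      have hi' : (i + 1) * L ≤ X := (Nat.le_div_iff_mul_le hL).mp hi
      change zs s y (QQ 0 X) m - Real.exp (-(s * lamQ W y (QQ 0 X) m)) =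
        zs s y (QQ (i * L) L) m - Real.exp (-(s * lamQ W y (QQ (i * L) L) m))
      rw [zs_block s X y L i hi' m h1 h3, lamQ_block W X y L i hi' m h1 h3])
  -- the sums over the blocks
  have hblock : ∀ i ∈ Finset.range (X / L),
      |∑ m ∈ (Finset.Ioc ((i * L : ℕ) : ℤ) ((i * L + L + y : ℕ) : ℤ)).filter (fun m => Even m),
        (zs s y (QQ (i * L) L) m - Real.exp (-(s * lamQ W y (QQ (i * L) L) m)))| ≤
      ∑ a ∈ Finset.range W, (((extC (i * L) L y W a).card : ℝ) * (η + (W : ℝ) / Real.log y * Λ) +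
        (if Λ < UU W y (QQ (i * L) L) a then ((L : ℝ) + y) / W + 1 else 0) +
        ∑ j ∈ Finset.Icc 1 (K + 1), ErrJ W y (QQ (i * L) L) (extC (i * L) L y W a) j) := by
    intro i _
    rw [sum_even_eq_sum_classes (i * L) L y W hW h2]
    refine (Finset.abs_sum_le_sum_abs _ _).trans ?_
    refine (Finset.sum_le_sum fun a _ =>
      B07_pair s hs0 hs1 y L W (i * L) a hW hy hWy Λ η hΛ hη K hK).trans ?_
    refine Finset.sum_le_sum_of_subset_of_nonneg (Finset.filter_subset _ _) fun a _ _ => ?_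
    have h4 : 0 ≤ ∑ j ∈ Finset.Icc 1 (K + 1),
        ErrJ W y (QQ (i * L) L) (extC (i * L) L y W a) j :=
      Finset.sum_nonneg fun j _ => B07_ErrJ_nonneg _ _ _ _ _
    have h5 : 0 ≤ (if Λ < UU W y (QQ (i * L) L) a then ((L : ℝ) + y) / W + 1 else 0) := by
      split_ifs
      · positivity
      · exact le_refl 0
    have h6 : 0 ≤ ((extC (i * L) L y W a).card : ℝ) * (η + (W : ℝ) / Real.log y * Λ) := by
      positivity
    linarith
  have hsum : |∑ i ∈ Finset.range (X / L),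
      ∑ m ∈ (Finset.Ioc ((i * L : ℕ) : ℤ) ((i * L + L + y : ℕ) : ℤ)).filter (fun m => Even m),
        (zs s y (QQ (i * L) L) m - Real.exp (-(s * lamQ W y (QQ (i * L) L) m)))| ≤
      (X / L : ℕ) * ((L : ℝ) + y) * (η + (W : ℝ) / Real.log y * Λ)
        + (((L : ℝ) + y) / W + 1) * (1 / Λ * (W / Real.log y * (5 * X / Real.log X)))
        + ∑ j ∈ Finset.Icc 1 (K + 1), ∑ i ∈ Finset.range (X / L), ∑ a ∈ Finset.range W,
          ErrJ W y (QQ (i * L) L) (extC (i * L) L y W a) j := by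
    refine (Finset.abs_sum_le_sum_abs _ _).trans ((Finset.sum_le_sum hblock).trans ?_)
    simp only [Finset.sum_add_distrib]
    refine add_le_add (add_le_add ?_ ?_) ?_
    · refine le_of_eq ?_
      have h7 : ∀ i ∈ Finset.range (X / L), ∑ a ∈ Finset.range W,
          ((extC (i * L) L y W a).card : ℝ) * (η + (W : ℝ) / Real.log y * Λ) =
          ((L : ℝ) + y) * (η + (W : ℝ) / Real.log y * Λ) := by
        intro i _
        rw [← Finset.sum_mul, sum_card_extC (i * L) L y W hW]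
      rw [Finset.sum_congr rfl h7, Finset.sum_const, Finset.card_range, nsmul_eq_mul, mul_assoc]
    · have h8 : ∑ i ∈ Finset.range (X / L), ∑ a ∈ Finset.range W,
          (if Λ < UU W y (QQ (i * L) L) a then ((L : ℝ) + y) / W + 1 else 0) =
          (((L : ℝ) + y) / W + 1) * (((Finset.range (X / L) ×ˢ Finset.range W).filter
            (fun ia => Λ < UU W y (QQ (ia.1 * L) L) ia.2)).card : ℝ) := by
        rw [← Finset.sum_product', ← Finset.sum_filter, Finset.sum_const, nsmul_eq_mul, mul_comm]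
      rw [h8]
      exact mul_le_mul_of_nonneg_left (card_bad_le X L W y hL hW hy hX Λ hΛ) (by positivity)
    · refine le_of_eq ?_
      rw [Finset.sum_comm' (s := Finset.Icc 1 (K + 1)) (t := fun _ => Finset.range (X / L))
        (t' := Finset.range (X / L)) (s' := fun _ => Finset.Icc 1 (K + 1))
        (fun _ _ => by tauto)]
      refine Finset.sum_congr rfl fun i _ => ?_
      rw [Finset.sum_comm]
  rw [← Finset.sum_sub_distrib]
  have h9 := abs_sub_abs_le_abs_sub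
    (∑ m ∈ (Finset.Ioc (0 : ℤ) (X : ℤ)).filter (fun m => Even m),
      (zs s y (QQ 0 X) m - Real.exp (-(s * lamQ W y (QQ 0 X) m))))
    (∑ i ∈ Finset.range (X / L),
      ∑ m ∈ (Finset.Ioc ((i * L : ℕ) : ℤ) ((i * L + L + y : ℕ) : ℤ)).filter (fun m => Even m),
        (zs s y (QQ (i * L) L) m - Real.exp (-(s * lamQ W y (QQ (i * L) L) m))))
  have h10 := h9.trans hsplit
  linarith

/-- For every `D ≥ 0`, `c > 0`: for large `y`, `y ≤ D log X log y` implies `c y ≤ X`. -/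
private lemma B07_large (D c : ℝ) (hD : 0 ≤ D) (hc : 0 < c) :
    ∃ Y₀ : ℕ, ∀ y : ℕ, Y₀ ≤ y → ∀ X : ℕ, (y : ℝ) ≤ D * Real.log X * Real.log y →
      c * y ≤ X ∧ 0 < Real.log (X : ℝ) := by
  have hd : 0 < 1 / (2 * (D + 1) * (|Real.log c| + 1)) := by positivity
  have h1 := (Real.isLittleO_pow_log_id_atTop (n := 1)).bound hd
  have h2 := (Real.isLittleO_pow_log_id_atTop (n := 2)).bound
    (show (0 : ℝ) < 1 / (2 * (D + 1)) by positivity)
  obtain ⟨y₀, hy₀⟩ := Filter.eventually_atTop.mp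
    (tendsto_natCast_atTop_atTop.eventually (h1.and h2))
  refine ⟨max y₀ 3, fun y hy X hX => ?_⟩
  obtain ⟨h3, h4⟩ := hy₀ y (le_trans (le_max_left _ _) hy)
  have hy3 : 3 ≤ y := le_trans (le_max_right _ _) hy
  have hyR : (3 : ℝ) ≤ y := by exact_mod_cast hy3
  have hy0 : (0 : ℝ) < y := by linarith
  have hlog : 0 < Real.log (y : ℝ) := Real.log_pos (by linarith)
  rw [id, pow_one, Real.norm_eq_abs, Real.norm_eq_abs, abs_of_pos hlog, abs_of_pos hy0] at h3
  rw [id, Real.norm_eq_abs, Real.norm_eq_abs, abs_of_pos (by positivity), abs_of_pos hy0] at h4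
  have hX0 : 0 < Real.log (X : ℝ) := by
    by_contra hcon
    rw [not_lt] at hcon
    have h5 : D * Real.log X ≤ 0 := mul_nonpos_of_nonneg_of_nonpos hD hcon
    have h6 : D * Real.log X * Real.log y ≤ 0 := mul_nonpos_of_nonpos_of_nonneg h5 hlog.le
    linarith
  refine ⟨?_, hX0⟩
  have hXpos : (0 : ℝ) < X := by
    rcases Nat.eq_zero_or_pos X with h | h
    · rw [h, Nat.cast_zero, Real.log_zero] at hX0
      exact absurd hX0 (lt_irrefl _)
    · exact_mod_cast h
  rw [← Real.log_le_log_iff (by positivity) hXpos, Real.log_mul hc.ne' hy0.ne']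
  -- `(log c + log y) * ((D + 1) log y) ≤ y ≤ (D + 1) log y * log X`
  have h7 : (y : ℝ) ≤ (D + 1) * Real.log y * Real.log X := by
    have h8 : 0 ≤ Real.log (X : ℝ) * Real.log y := by positivity
    calc (y : ℝ) ≤ D * Real.log X * Real.log y := hX
      _ = D * (Real.log X * Real.log y) := by ring
      _ ≤ (D + 1) * (Real.log X * Real.log y) :=
          mul_le_mul_of_nonneg_right (by linarith) h8
      _ = (D + 1) * Real.log y * Real.log X := by ring
  have h9 : (D + 1) * Real.log y * Real.log c ≤ y / 2 := by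
    have h10 : Real.log c ≤ |Real.log c| + 1 := (le_abs_self _).trans (by linarith)
    calc (D + 1) * Real.log y * Real.log c
        ≤ (D + 1) * Real.log y * (|Real.log c| + 1) :=
          mul_le_mul_of_nonneg_left h10 (by positivity)
      _ ≤ (D + 1) * (1 / (2 * (D + 1) * (|Real.log c| + 1)) * y) * (|Real.log c| + 1) := by
          gcongr
      _ = y / 2 := by
          have h11 : (D + 1) ≠ 0 := by positivity
          have h12 : |Real.log c| + 1 ≠ 0 := by positivity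
          field_simp
  have h13 : (D + 1) * Real.log y * Real.log y ≤ y / 2 := by
    calc (D + 1) * Real.log y * Real.log y = (D + 1) * Real.log y ^ 2 := by ring
      _ ≤ (D + 1) * (1 / (2 * (D + 1)) * y) := by gcongr
      _ = y / 2 := by
          have h11 : (D + 1) ≠ 0 := by positivity
          field_simp
  have h14 : (D + 1) * Real.log y * (Real.log c + Real.log y) ≤
      (D + 1) * Real.log y * Real.log X := by
    rw [mul_add]
    linarith
  exact le_of_mul_le_mul_left h14 (by positivity)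

/-- **Main formula** (mixed Poisson law, generating function). For all `C₀ ≥ 0`, `ε > 0`: for
`w ≥ w₀`, `y ≥ Y₀(w)`, all `X` with `y ≤ C₀ log X log y` and all `0 ≤ s ≤ 1`,
`|∑_{m ≤ X even} zs s y (QQ 0 X) m - ∑_{m ≤ X even} exp(-s λ(m))| ≤ ε X`, `W = primorial w`.

PROOF. Choose `R ≥ 24 / ε`, `R ≥ 1` a natural number and `L = R y`. Choose `Λ > 0` with
`5 (R + 2) C₀ / Λ ≤ ε / 8`, then `η = ε / 32`, and `K` with `Λ^j / j! ≤ η` for `j > K` (the series of
`exp Λ` converges). Take `w₀ ≥ 2` large enough for `sum_ErrJ_small (j - 1) C₀ (ε / (8 (K + 1)))`,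
`1 ≤ j ≤ K + 1`. For `w ≥ w₀`, `W = primorial w` (even as `w ≥ 2`), and large `y`:
* `X ≥ exp(y / (C₀ log y))` is huge compared with `y` (so `X ≥ 2`, and `L = R y ≤ (ε/8) X`);
* `3 y (X / L) ≤ 3 X / R ≤ (ε/8) X`;
* `(X / L)(L + y) ≤ 2 X`, `(W / log y) Λ ≤ ε / 32`: the third term is `≤ 2 X (ε/16) = (ε/8) X`;
* `((L + y)/W + 1) W ≤ L + y + W ≤ (R + 2) y` for `y ≥ W`, and `y / (log y log X) ≤ C₀`: the fourth
  term is at most `5 (R + 2) C₀ X / Λ ≤ (ε/8) X`;
* the last term is at most `(K + 1) ε / (8 (K + 1)) X`.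
The case `C₀ = 0` is vacuous for `y ≥ 1`. -/
theorem main_formula (C₀ ε : ℝ) (hC₀ : 0 ≤ C₀) (hε : 0 < ε) :
    ∃ w₀ : ℕ, ∀ w : ℕ, w₀ ≤ w → ∃ Y₀ : ℕ, ∀ y : ℕ, Y₀ ≤ y → ∀ X : ℕ,
      (y : ℝ) ≤ C₀ * Real.log X * Real.log y → ∀ s : ℝ, 0 ≤ s → s ≤ 1 →
      |(∑ m ∈ (Finset.Ioc (0 : ℤ) (X : ℤ)).filter (fun m => Even m), zs s y (QQ 0 X) m)
        - ∑ m ∈ (Finset.Ioc (0 : ℤ) (X : ℤ)).filter (fun m => Even m),
          Real.exp (-(s * lamQ (primorial w) y (QQ 0 X) m))| ≤ ε * X := by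
  obtain ⟨R, hR⟩ : ∃ R : ℕ, 24 / ε + 1 ≤ R := exists_nat_ge _
  have hR24 : 24 / ε ≤ R := by linarith
  have hR1 : (1 : ℝ) ≤ R := by
    have : 0 < 24 / ε := by positivity
    linarith
  have hR0 : 1 ≤ R := by exact_mod_cast hR1
  obtain ⟨Λ, hΛdef⟩ : ∃ Λ : ℝ, Λ = 40 * (R + 2) * (C₀ + 1) / ε := ⟨_, rfl⟩
  have hΛ : 0 < Λ := by
    rw [hΛdef]
    positivity
  have hη : (0 : ℝ) < ε / 32 := by positivity
  obtain ⟨K, hK⟩ : ∃ K : ℕ, ∀ j : ℕ, K < j → Λ ^ j / (Nat.factorial j : ℝ) ≤ ε / 32 := by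
    have h := (FloorSemiring.tendsto_pow_div_factorial_atTop Λ).eventually (ge_mem_nhds hη)
    obtain ⟨K, hK⟩ := Filter.eventually_atTop.mp h
    exact ⟨K, fun j hj => hK j hj.le⟩
  have hδ : 0 < ε / (8 * (K + 1)) := by positivity
  have hE := fun k : ℕ => sum_ErrJ_small k C₀ (ε / (8 * (K + 1))) hC₀ hδ
  choose w1 hw1 using hE
  refine ⟨max 2 ((Finset.range (K + 1)).sup w1), fun w hw => ?_⟩
  have hw2 : 2 ≤ w := le_trans (le_max_left _ _) hw
  obtain ⟨W, hWdef⟩ : ∃ W : ℕ, W = primorial w := ⟨_, rfl⟩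
  have hEY : ∀ k : ℕ, ∃ Y : ℕ, k < K + 1 → ∀ y : ℕ, Y ≤ y → ∀ X L : ℕ, 0 < L →
      (y : ℝ) ≤ C₀ * Real.log X * Real.log y →
      ∑ i ∈ Finset.range (X / L), ∑ a ∈ Finset.range (primorial w),
        ErrJ (primorial w) y (QQ (i * L) L) (extC (i * L) L y (primorial w) a) (k + 1)
        ≤ ε / (8 * (K + 1)) * X := by
    intro k
    by_cases hk : k < K + 1
    · have hkw : w1 k ≤ w :=
        (Finset.le_sup (f := w1) (Finset.mem_range.mpr hk)).trans ((le_max_right _ _).trans hw)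
      obtain ⟨Y, hY⟩ := hw1 k w hkw
      exact ⟨Y, fun _ => hY⟩
    · exact ⟨0, fun h => absurd h hk⟩
  choose Y1 hY1 using hEY
  obtain ⟨Y2, hY2⟩ := B07_large C₀ (8 * R / ε) hC₀ (by positivity)
  obtain ⟨Y3, hY3⟩ : ∃ Y3 : ℕ, ∀ y : ℕ, Y3 ≤ y →
      (W : ℝ) + 32 * W * Λ / ε ≤ Real.log (y : ℝ) := by
    have h := (Real.tendsto_log_atTop.comp tendsto_natCast_atTop_atTop).eventually
      (Filter.eventually_ge_atTop ((W : ℝ) + 32 * W * Λ / ε))
    obtain ⟨Y3, hY3⟩ := Filter.eventually_atTop.mp h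
    exact ⟨Y3, fun y hy => hY3 y hy⟩
  refine ⟨max (max ((Finset.range (K + 1)).sup Y1) Y2) (max Y3 3), fun y hy X hXy s hs0 hs1 => ?_⟩
  have hy1 : (Finset.range (K + 1)).sup Y1 ≤ y :=
    le_trans ((le_max_left _ _).trans (le_max_left _ _)) hy
  have hy2 : Y2 ≤ y := le_trans ((le_max_right _ _).trans (le_max_left _ _)) hy
  have hy3 : Y3 ≤ y := le_trans ((le_max_left _ _).trans (le_max_right _ _)) hy
  have hy4 : 3 ≤ y := le_trans ((le_max_right _ _).trans (le_max_right _ _)) hy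
  have hyR : (3 : ℝ) ≤ y := by exact_mod_cast hy4
  have hy0 : (0 : ℝ) < y := by linarith
  have hlog : 0 < Real.log (y : ℝ) := Real.log_pos (by linarith)
  obtain ⟨hXc, hX0⟩ := hY2 y hy2 X hXy
  have hXpos : (0 : ℝ) < X := lt_of_lt_of_le (by positivity) hXc
  have hX2 : 2 ≤ X := by
    by_contra hcon
    have h : (X : ℝ) ≤ 1 := by
      have : X ≤ 1 := by omega
      exact_mod_cast this
    have h' : Real.log (X : ℝ) ≤ 0 := Real.log_nonpos hXpos.le h
    linarith
  have hW1 : 1 ≤ W := by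
    rw [hWdef]
    exact primorial_pos w
  have hW1R : (1 : ℝ) ≤ W := by exact_mod_cast hW1
  have hWe : 2 ∣ W := by
    rw [hWdef, primorial]
    refine Finset.dvd_prod_of_mem _ (Finset.mem_filter.mpr ⟨?_, Nat.prime_two⟩)
    rw [Finset.mem_range]
    omega
  have hlogW := hY3 y hy3
  have hWΛ : 0 ≤ 32 * (W : ℝ) * Λ / ε := by positivity
  have hWy : (W : ℝ) / Real.log y ≤ 1 := by
    rw [div_le_one hlog]
    linarith
  have hWyΛ : (W : ℝ) / Real.log y * Λ ≤ ε / 32 := by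
    have h1 : 32 * (W : ℝ) * Λ / ε ≤ Real.log y := by linarith
    rw [div_le_iff₀ hε] at h1
    rw [div_mul_eq_mul_div, div_le_iff₀ hlog]
    linarith
  have hWley : (W : ℝ) ≤ y := by
    have h1 : Real.log (y : ℝ) ≤ y := (Real.log_le_sub_one_of_pos hy0).trans (by linarith)
    linarith
  obtain ⟨L, hLdef⟩ : ∃ L : ℕ, L = R * y := ⟨_, rfl⟩
  have hL : 0 < L := by
    rw [hLdef]
    exact Nat.mul_pos (by omega) (by omega)
  have hLR : (L : ℝ) = R * y := by
    rw [hLdef]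
    push_cast
    ring
  have hL0 : (0 : ℝ) < L := by exact_mod_cast hL
  have hyL : (y : ℝ) ≤ L := by
    rw [hLR]
    have := mul_le_mul_of_nonneg_right hR1 hy0.le
    linarith
  have hXL : ((X / L : ℕ) : ℝ) ≤ X / L := Nat.cast_div_le
  have hXL0 : (0 : ℝ) ≤ ((X / L : ℕ) : ℝ) := Nat.cast_nonneg _
  have hmain := formula_bound s hs0 hs1 X y L W hL hW1 hWe (by omega) hX2 hWy Λ (ε / 32) hΛ hη.le K hK
  rw [← hWdef]
  refine hmain.trans ?_
  -- term 1
  have t1 : (L : ℝ) ≤ ε / 8 * X := by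
    rw [hLR]
    have h1 := mul_le_mul_of_nonneg_left hXc (show 0 ≤ ε / 8 by positivity)
    have h2 : ε / 8 * (8 * R / ε * y) = R * y := by
      field_simp
    linarith
  -- term 2
  have t2 : 3 * (y : ℝ) * ((X / L : ℕ) : ℝ) ≤ ε / 8 * X := by
    have h1 : 3 * (y : ℝ) * ((X / L : ℕ) : ℝ) ≤ 3 * y * (X / L) :=
      mul_le_mul_of_nonneg_left hXL (by positivity)
    have h2 : 3 * (y : ℝ) * (X / L) = 3 * X / R := by
      rw [hLR]
      field_simp
    have h3 : 3 * (X : ℝ) / R ≤ ε / 8 * X := by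
      rw [div_le_iff₀ (by linarith)]
      have h4 : 24 ≤ R * ε := (div_le_iff₀ hε).mp hR24
      have h5 := mul_le_mul_of_nonneg_right h4 hXpos.le
      have e : ε / 8 * (X : ℝ) * R = 1 / 8 * (R * ε * X) := by ring
      rw [e]
      linarith
    linarith
  -- term 3
  have t3 : ((X / L : ℕ) : ℝ) * ((L : ℝ) + y) * (ε / 32 + (W : ℝ) / Real.log y * Λ) ≤
      ε / 8 * X := by
    have h1 : ((X / L : ℕ) : ℝ) * ((L : ℝ) + y) ≤ 2 * X := by
      calc ((X / L : ℕ) : ℝ) * ((L : ℝ) + y) ≤ (X / L) * (2 * L) :=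
            mul_le_mul hXL (by linarith) (by positivity) (by positivity)
        _ = 2 * X := by
            field_simp
    have h2 : ε / 32 + (W : ℝ) / Real.log y * Λ ≤ ε / 16 := by linarith
    calc ((X / L : ℕ) : ℝ) * ((L : ℝ) + y) * (ε / 32 + (W : ℝ) / Real.log y * Λ)
        ≤ 2 * X * (ε / 16) := mul_le_mul h1 h2 (by positivity) (by positivity)
      _ = ε / 8 * X := by ring
  -- term 4
  have t4 : (((L : ℝ) + y) / W + 1) * (1 / Λ * (W / Real.log y * (5 * X / Real.log X))) ≤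
      ε / 8 * X := by
    have h1 : (((L : ℝ) + y) / W + 1) * (1 / Λ * (W / Real.log y * (5 * X / Real.log X))) =
        ((L : ℝ) + y + W) * (5 * X) / (Λ * (Real.log y * Real.log X)) := by
      field_simp
    rw [h1, div_le_iff₀ (by positivity)]
    have h2 : (L : ℝ) + y + W ≤ (R + 2) * y := by
      rw [hLR]
      linarith
    have h3 : (R + 2) * (y : ℝ) ≤ (R + 2) * (C₀ * Real.log X * Real.log y) :=
      mul_le_mul_of_nonneg_left hXy (by positivity)
    have h4 : (R + 2) * (C₀ * Real.log X * Real.log y) * (5 * X) ≤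
        ε / 8 * X * (Λ * (Real.log y * Real.log X)) := by
      rw [hΛdef]
      have h5 : ε / 8 * (X : ℝ) * (40 * (R + 2) * (C₀ + 1) / ε * (Real.log y * Real.log X)) =
          (R + 2) * ((C₀ + 1) * Real.log X * Real.log y) * (5 * X) := by
        field_simp
        ring
      rw [h5]
      have h6 : 0 ≤ (R + 2) * (Real.log X * Real.log y) * (5 * (X : ℝ)) := by positivity
      have e : (R + 2) * ((C₀ + 1) * Real.log X * Real.log y) * (5 * (X : ℝ)) =
          (R + 2) * (C₀ * Real.log X * Real.log y) * (5 * X) +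
            (R + 2) * (Real.log X * Real.log y) * (5 * (X : ℝ)) := by ring
      rw [e]
      linarith
    calc ((L : ℝ) + y + W) * (5 * X) ≤ (R + 2) * (C₀ * Real.log X * Real.log y) * (5 * X) :=
          mul_le_mul_of_nonneg_right (h2.trans h3) (by positivity)
      _ ≤ _ := h4
  -- term 5
  have t5 : ∑ j ∈ Finset.Icc 1 (K + 1), ∑ i ∈ Finset.range (X / L), ∑ a ∈ Finset.range W,
      ErrJ W y (QQ (i * L) L) (extC (i * L) L y W a) j ≤ ε / 8 * X := by
    have h1 : ∀ j ∈ Finset.Icc 1 (K + 1), ∑ i ∈ Finset.range (X / L), ∑ a ∈ Finset.range W,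
        ErrJ W y (QQ (i * L) L) (extC (i * L) L y W a) j ≤ ε / (8 * (K + 1)) * X := by
      intro j hj
      rw [Finset.mem_Icc] at hj
      obtain ⟨k, rfl⟩ : ∃ k, j = k + 1 := ⟨j - 1, by omega⟩
      have hk : k < K + 1 := by omega
      have hkY : Y1 k ≤ y :=
        (Finset.le_sup (f := Y1) (Finset.mem_range.mpr hk)).trans hy1
      rw [hWdef]
      exact hY1 k hk y hkY X L hL hXy
    refine (Finset.sum_le_sum h1).trans ?_
    rw [Finset.sum_const, Nat.card_Icc, nsmul_eq_mul]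
    have h2 : ((K + 1 + 1 - 1 : ℕ) : ℝ) = (K : ℝ) + 1 := by
      rw [Nat.add_sub_cancel]
      push_cast
      ring
    rw [h2]
    refine le_of_eq ?_
    have : (K : ℝ) + 1 ≠ 0 := by positivity
    field_simp
  have hεX : 0 ≤ ε * X := by positivity
  linarith

end Pool.Agent.Lib.MP_bae66e_nt.LL
end

section

/-!
# J06: the lower bound for the density
-/

set_option autoImplicit false

open Finset Filter Topology

namespace Pool.Agent.Lib.MP_bae66e_nt.LL

/-- `y(X) = ⌊t log X loglog X⌋₊ → ∞`, and `y(X) ≤ (t + δ) log X log y(X)` for large `X`. -/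
lemma yX_props (t δ : ℝ) (ht : 0 < t) (hδ : 0 < δ) (N : ℕ) : ∃ X₀ : ℕ, ∀ X : ℕ, X₀ ≤ X →
    N ≤ ⌊t * Real.log X * Real.log (Real.log X)⌋₊ ∧
    ((⌊t * Real.log X * Real.log (Real.log X)⌋₊ : ℕ) : ℝ)
      ≤ (t + δ) * Real.log X * Real.log (⌊t * Real.log X * Real.log (Real.log X)⌋₊ : ℕ) := by
  have h1 : Tendsto (fun X : ℕ => Real.log (X : ℝ)) atTop atTop :=
    Real.tendsto_log_atTop.comp (tendsto_natCast_atTop_atTop (R := ℝ))
  have h2 : Tendsto (fun X : ℕ => Real.log (Real.log (X : ℝ))) atTop atTop :=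
    Real.tendsto_log_atTop.comp h1
  have h3 := (h1.eventually (eventually_ge_atTop (max 1 (N : ℝ)))).and
    (h2.eventually (eventually_ge_atTop (max 1 (2 / t))))
  obtain ⟨X₀, hX₀⟩ := Filter.eventually_atTop.1 h3
  refine ⟨X₀, fun X hX => ?_⟩
  obtain ⟨h4, h5⟩ := hX₀ X hX
  set L := Real.log (X : ℝ) with hL
  set M := Real.log L with hM
  have hL1 : 1 ≤ L := (le_max_left _ _).trans h4
  have hLN : (N : ℝ) ≤ L := (le_max_right _ _).trans h4
  have hM1 : 1 ≤ M := (le_max_left _ _).trans h5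
  have hMt : 2 / t ≤ M := (le_max_right _ _).trans h5
  have hMt' : 2 ≤ t * M := by
    rw [div_le_iff₀ ht] at hMt; linarith
  set y := ⌊t * L * M⌋₊ with hy
  have h6 : t * L * M < (y : ℝ) + 1 := Nat.lt_floor_add_one _
  have h7 : (y : ℝ) ≤ t * L * M := Nat.floor_le (by positivity)
  have h8 : 2 * L ≤ t * L * M := by nlinarith
  have h9 : L ≤ y := by linarith
  constructor
  · have : (N : ℝ) ≤ (y : ℝ) := hLN.trans h9
    exact_mod_cast this
  · have h10 : M ≤ Real.log y := by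
      rw [hM]
      exact Real.log_le_log (by linarith) h9
    have h11 : 0 ≤ L * Real.log y := by
      have : 0 ≤ Real.log y := by linarith
      positivity
    calc (y : ℝ) ≤ t * L * M := h7
      _ ≤ t * L * Real.log y := by gcongr
      _ ≤ (t + δ) * L * Real.log y := by nlinarith

open Classical in
/-- The sifted sum (`s = 1`) is the number of even `m ≤ X` without a representation `m = p + q`,
`p ≤ y`: `zs 1 y (QQ 0 X) m` is `1` if all `pv y (m - q)` are `0`, and `0` otherwise. -/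
lemma sum_zs_eq_card (X y : ℕ) :
    ∑ m ∈ (Finset.Ioc (0 : ℤ) (X : ℤ)).filter (fun m => Even m), zs 1 y (QQ 0 X) m
      = (((Finset.Icc 1 X).filter (fun m : ℕ => Even m ∧ ∀ p q : ℕ, p.Prime → q.Prime → p + q = m →
        y < p)).card : ℝ) := by
  have key : ∀ m : ℕ, m ≤ X → ((∀ q ∈ QQ 0 X, pv y ((m : ℤ) - q) = 0) ↔
      ∀ p q : ℕ, p.Prime → q.Prime → p + q = m → y < p) := by
    intro m hm
    constructor
    · intro h p q hp hq hpq
      by_contra hlt
      have h1 := h q (by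
        unfold QQ
        rw [Finset.mem_filter, Finset.mem_Ioc]
        exact ⟨⟨hq.pos, by omega⟩, hq⟩)
      have e : (m : ℤ) - (q : ℤ) = (p : ℤ) := by omega
      rw [e] at h1
      unfold pv at h1
      rw [if_pos] at h1
      · exact one_ne_zero h1
      · refine ⟨by exact_mod_cast hp.one_lt.le, by exact_mod_cast not_lt.1 hlt, ?_⟩
        simpa using hp
    · intro h q hq
      unfold QQ at hq
      rw [Finset.mem_filter] at hq
      unfold pv
      rw [if_neg]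
      rintro ⟨h1, h2, h3⟩
      have h4 := h ((m : ℤ) - q).toNat q h3 hq.2 (by omega)
      omega
  have h1 : ∀ m ∈ (Finset.Ioc (0 : ℤ) (X : ℤ)).filter (fun m => Even m),
      zs 1 y (QQ 0 X) m = if (∀ q ∈ QQ 0 X, pv y (m - q) = 0) then (1 : ℝ) else 0 := by
    intro m _
    unfold zs
    by_cases hall : ∀ q ∈ QQ 0 X, pv y (m - q) = 0
    · rw [if_pos hall]
      apply Finset.prod_eq_one
      intro q hq
      rw [hall q hq]; ring
    · rw [if_neg hall]
      push Not at hall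
      obtain ⟨q, hq, hne⟩ := hall
      apply Finset.prod_eq_zero hq
      have h1 : pv y (m - q) = 1 := by
        unfold pv at hne ⊢
        split_ifs at hne ⊢ with hc
        · rfl
        · exact absurd rfl hne
      rw [h1]; ring
  rw [Finset.sum_congr rfl h1, ← Finset.sum_filter, Finset.sum_const, nsmul_eq_mul, mul_one]
  congr 1
  symm
  apply Finset.card_bij (fun (m : ℕ) _ => (m : ℤ))
  · intro m hm
    rw [Finset.mem_filter, Finset.mem_Icc] at hm
    rw [Finset.mem_filter, Finset.mem_filter, Finset.mem_Ioc]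
    refine ⟨⟨⟨by omega, by omega⟩, by exact_mod_cast hm.2.1⟩, ?_⟩
    exact (key m hm.1.2).2 hm.2.2
  · intro a _ b _ hab
    exact_mod_cast hab
  · intro m hm
    rw [Finset.mem_filter, Finset.mem_filter, Finset.mem_Ioc] at hm
    obtain ⟨⟨⟨h1, h2⟩, h3⟩, h4⟩ := hm
    have e : ((m.toNat : ℕ) : ℤ) = m := by omega
    refine ⟨m.toNat, ?_, e⟩
    rw [Finset.mem_filter, Finset.mem_Icc]
    refine ⟨⟨by omega, by omega⟩, ?_, ?_⟩
    · rw [← Int.even_coe_nat, e]; exact h3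
    · apply (key m.toNat (by omega)).1
      rw [e]; exact h4

open Classical in
/-- Lower bound for the density: for `t > 0`, `z ≥ 2`, `ε > 0` and large `X`, the number of even
`m ≤ X` such that all primes `p` with `m - p` prime are `> t log m loglog m` is at least
`(EE (primorial z) t - ε) X / 2`.

PROOF. Let `y = ⌊t log X loglog X⌋₊`. If all primes `p` with `m - p` prime are `> y` (`p, y` natural
numbers), then `p > t log X loglog X ≥ t log m loglog m` for `3 ≤ m ≤ X`; for `m = 2` (the only other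
even `m ≤ 2`) `log log 2 < 0`, so the condition holds trivially (there are no representations). So the
count is at least the count of `sum_zs_eq_card`. Apply `main_formula` with `s = 1`, `C₀ = t + 1`, `ε/4`, for a
fixed `w ≥ max (w₀, z)`, `even_lower` with `W = primorial w`, `ε/4` (even, squarefree) and
`EE_mono`; `yX_props` for `δ` and the thresholds. -/
theorem density_lower (t : ℝ) (ht : 0 < t) (z : ℕ) (hz : 2 ≤ z) (ε : ℝ) (hε : 0 < ε) :
    ∃ X₀ : ℕ, ∀ X : ℕ, X₀ ≤ X →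
      (EE (primorial z) t - ε) * X / 2
        ≤ (((Finset.Icc 1 X).filter (fun m : ℕ => Even m ∧ ∀ p q : ℕ, p.Prime → q.Prime →
          p + q = m → t * Real.log m * Real.log (Real.log m) < p)).card : ℝ) := by
  obtain ⟨w₀, hw₀⟩ := main_formula (t + 1) (ε / 4) (by linarith) (by linarith)
  set w := max w₀ z with hw
  have hwz : z ≤ w := le_max_right _ _
  obtain ⟨Y₀, hY₀⟩ := hw₀ w (le_max_left _ _)
  have hEE := EE_mono z w hz hwz t
  have h2 : 2 ∣ primorial w := Nat.prime_two.dvd_primorial_iff.2 (by omega)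
  obtain ⟨δ, hδ, N₀, hN₀⟩ := even_lower (primorial w) (squarefree_primorial w) h2 t (ε / 4) ht
    (by linarith)
  obtain ⟨X₁, hX₁⟩ := yX_props t (min δ 1) ht (lt_min hδ one_pos) (max Y₀ N₀ + 2)
  refine ⟨max X₁ N₀ + 3, fun X hX => ?_⟩
  have hX3 : (3 : ℝ) ≤ X := by exact_mod_cast (by omega : 3 ≤ X)
  obtain ⟨h3, h4⟩ := hX₁ X (by omega)
  set y := ⌊t * Real.log X * Real.log (Real.log X)⌋₊ with hy
  have hlX : 0 ≤ Real.log X := Real.log_nonneg (by linarith)
  have hly : 0 ≤ Real.log y := by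
    apply Real.log_nonneg
    exact_mod_cast (by omega : 1 ≤ y)
  have hll : 0 ≤ Real.log X * Real.log y := by positivity
  have h5 : (y : ℝ) ≤ (t + 1) * Real.log X * Real.log y := by
    have : min δ 1 ≤ 1 := min_le_right _ _
    nlinarith
  have h6 : (y : ℝ) ≤ (t + δ) * Real.log X * Real.log y := by
    have : min δ 1 ≤ δ := min_le_left _ _
    nlinarith
  have h7 := hY₀ y (by omega) X h5 1 zero_le_one le_rfl
  simp only [one_mul] at h7
  have h8 := hN₀ X (by omega) y (by omega) h6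
  have h9 := (abs_le.1 h7).1
  rw [sum_zs_eq_card] at h9
  have h10 : (((Finset.Icc 1 X).filter (fun m : ℕ => Even m ∧ ∀ p q : ℕ, p.Prime → q.Prime →
        p + q = m → y < p)).card : ℝ)
      ≤ (((Finset.Icc 1 X).filter (fun m : ℕ => Even m ∧ ∀ p q : ℕ, p.Prime → q.Prime →
          p + q = m → t * Real.log m * Real.log (Real.log m) < p)).card : ℝ) := by
    have hsub : ((Finset.Icc 1 X).filter (fun m : ℕ => Even m ∧ ∀ p q : ℕ, p.Prime → q.Prime →
        p + q = m → y < p)) ⊆ ((Finset.Icc 1 X).filter (fun m : ℕ => Even m ∧ ∀ p q : ℕ,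
          p.Prime → q.Prime → p + q = m → t * Real.log m * Real.log (Real.log m) < p)) := by
      intro m hm
      rw [Finset.mem_filter, Finset.mem_Icc] at hm ⊢
      refine ⟨hm.1, hm.2.1, fun p q hp hq hpq => ?_⟩
      have h11 := hm.2.2 p q hp hq hpq
      have h12 : t * Real.log X * Real.log (Real.log X) < p := by
        have := Nat.lt_of_floor_lt h11
        exact this
      have hm4 : 4 ≤ m := by
        have := hp.two_le; have := hq.two_le; omega
      have hm4R : (4 : ℝ) ≤ m := by exact_mod_cast hm4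
      have hmX : (m : ℝ) ≤ X := by exact_mod_cast hm.1.2
      have hlm : Real.log m ≤ Real.log X := Real.log_le_log (by linarith) hmX
      have hlm1 : 1 ≤ Real.log m := by
        have h13 : Real.exp 1 ≤ m := by
          have := Real.exp_one_lt_d9
          linarith
        have := Real.log_le_log (Real.exp_pos 1) h13
        rwa [Real.log_exp] at this
      have hllm : Real.log (Real.log m) ≤ Real.log (Real.log X) :=
        Real.log_le_log (by linarith) hlm
      have hllm0 : 0 ≤ Real.log (Real.log m) := Real.log_nonneg hlm1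
      refine lt_of_le_of_lt ?_ h12
      gcongr
    exact_mod_cast Finset.card_le_card hsub
  have hX0 : (0 : ℝ) ≤ X := by linarith
  have h13 : (EE (primorial z) t - ε) * X / 2 ≤ (EE (primorial w) t - ε / 4) * X / 2 - ε / 4 * X := by
    nlinarith
  linarith

end Pool.Agent.Lib.MP_bae66e_nt.LL
end

section

/-!
# C04: the limit law makes the defect small
-/

set_option autoImplicit false

open Finset

namespace Pool.Agent.Lib.MP_bae66e_nt.LL

/-- `EE (primorial w) t → DDlim t`: monotone (`EE_mono`) and bounded by `1` (`EE_le_one`). -/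
lemma EE_le_DDlim (t : ℝ) (ht : 0 ≤ t) (w : ℕ) (hw : 2 ≤ w) : EE (primorial w) t ≤ DDlim t := by
  obtain ⟨z, rfl⟩ : ∃ z, w = z + 2 := ⟨w - 2, by omega⟩
  unfold DDlim
  refine le_ciSup (f := fun z : ℕ => EE (primorial (z + 2)) t) ⟨1, ?_⟩ z
  rintro _ ⟨z, rfl⟩
  exact EE_le_one _ (Nat.prime_two.dvd_primorial_iff.2 (by omega)) t ht

lemma DDlim_le (t : ℝ) (ht : 0 ≤ t) (ε : ℝ) (hε : 0 < ε) : ∃ w₀ : ℕ, ∀ w : ℕ, w₀ ≤ w →
    DDlim t ≤ EE (primorial w) t + ε := by
  have _ := ht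
  obtain ⟨z, hz⟩ := exists_lt_of_lt_ciSup (f := fun z : ℕ => EE (primorial (z + 2)) t)
    (show DDlim t - ε < ⨆ z : ℕ, EE (primorial (z + 2)) t from sub_lt_self _ hε)
  refine ⟨z + 2, fun w hw => ?_⟩
  have h1 := EE_mono (z + 2) w (by omega) hw t
  linarith

/-- The count `cntX` is the sifted sum with `s = 1` and `y = yX t X` (`sum_zs_eq_card`; for a natural
number `p`, `⌊T⌋₊ < p ↔ T < p` if `T ≥ 0`, or `p ≥ 1`). -/
lemma cntX_eq (t : ℝ) (X : ℕ) :
    ∑ m ∈ (Finset.Ioc (0 : ℤ) (X : ℤ)).filter (fun m => Even m), zs 1 (yX t X) (QQ 0 X) m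
      = (cntX t X : ℝ) := by
  classical
  rw [sum_zs_eq_card]
  unfold cntX yX
  norm_cast
  congr 1
  refine Finset.filter_congr fun m _ => ?_
  refine and_congr_right fun _ => ?_
  refine forall_congr' fun p => forall_congr' fun q => forall_congr' fun hp => ?_
  refine forall_congr' fun _ => forall_congr' fun _ => ?_
  exact Nat.floor_lt' hp.ne_zero

/-- The asymptotic formula in terms of `cntX`: for `t > 0`, `ε > 0`, for `w ≥ w₀`, `X ≥ X₀(w)`,
`|cntX t X - ∑_{m ≤ X even} exp(-λ(m))| ≤ ε X`. (`main_formula` with `s = 1`, `C₀ = t + 1`, and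
`yX_props` with `δ = 1`.) -/
theorem cntX_formula (t : ℝ) (ht : 0 < t) (ε : ℝ) (hε : 0 < ε) :
    ∃ w₀ : ℕ, ∀ w : ℕ, w₀ ≤ w → ∃ X₀ : ℕ, ∀ X : ℕ, X₀ ≤ X →
      |(cntX t X : ℝ) - ∑ m ∈ (Finset.Ioc (0 : ℤ) (X : ℤ)).filter (fun m => Even m),
        Real.exp (-lamQ (primorial w) (yX t X) (QQ 0 X) m)| ≤ ε * X := by
  obtain ⟨w₀, hw₀⟩ := main_formula (t + 1) ε (by linarith) hε
  refine ⟨w₀, fun w hw => ?_⟩
  obtain ⟨Y₀, hY₀⟩ := hw₀ w hw
  obtain ⟨X₀, hX₀⟩ := yX_props t 1 ht one_pos Y₀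
  refine ⟨X₀, fun X hX => ?_⟩
  obtain ⟨h1, h2⟩ := hX₀ X hX
  have h3 := hY₀ (yX t X) h1 X h2 1 zero_le_one le_rfl
  rw [cntX_eq] at h3
  simp only [one_mul] at h3
  exact h3

/-- Under the limit law the defect is small: for `t > 0`, `ε > 0`, for `w ≥ w₀`, `X ≥ X₀(w)`:
`∑_{m ≤ X even} exp(-t SP W m) min((λ(m) - t SP W m)², 1) ≤ ε X`, `W = primorial w`.

PROOF. `defect_even` (with `yX_props`), `cntX_formula`, the limit law, and `DDlim_le`:
`(1/4) ∑ ≤ cntX + ε' X - EE X/2 + ε' X ≤ (DDlim - EE) X/2 + 3 ε' X ≤ 4 ε' X`. Take `w₀ ≥ 2`. -/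
theorem defect_small (t : ℝ) (ht : 0 < t) (hLL : LimitLawAt t) (ε : ℝ) (hε : 0 < ε) :
    ∃ w₀ : ℕ, ∀ w : ℕ, w₀ ≤ w → ∃ X₀ : ℕ, ∀ X : ℕ, X₀ ≤ X →
      ∑ m ∈ (Finset.Ioc (0 : ℤ) (X : ℤ)).filter (fun m => Even m),
        Real.exp (-(t * SP (primorial w) m)) *
          min ((lamQ (primorial w) (yX t X) (QQ 0 X) m - t * SP (primorial w) m) ^ 2) 1
        ≤ ε * X := by
  have hε' : 0 < ε / 16 := by positivity
  obtain ⟨w₁, hw₁⟩ := cntX_formula t ht (ε / 16) hε'
  obtain ⟨w₂, hw₂⟩ := DDlim_le t ht.le (ε / 16) hε'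
  refine ⟨max 2 (max w₁ w₂), fun w hw => ?_⟩
  have hw2 : 2 ≤ w := (le_max_left _ _).trans hw
  have hw1' : w₁ ≤ w := ((le_max_left _ _).trans (le_max_right _ _)).trans hw
  have hw2' : w₂ ≤ w := ((le_max_right _ _).trans (le_max_right _ _)).trans hw
  have h2 : 2 ∣ primorial w := Nat.prime_two.dvd_primorial_iff.2 (by omega)
  obtain ⟨δ, hδ, N₀, hN₀⟩ := defect_even (primorial w) (squarefree_primorial w) h2 t (ε / 16)
    ht hε'
  obtain ⟨X₁, hX₁⟩ := hw₁ w hw1'
  obtain ⟨X₂, hX₂⟩ := yX_props t δ ht hδ N₀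
  obtain ⟨X₃, hX₃⟩ := hLL (ε / 16) hε'
  refine ⟨max N₀ (max X₁ (max X₂ X₃)), fun X hX => ?_⟩
  have hXN : N₀ ≤ X := (le_max_left _ _).trans hX
  have hXr := (le_max_right _ _).trans hX
  have hXa : X₁ ≤ X := (le_max_left _ _).trans hXr
  have hXr2 := (le_max_right _ _).trans hXr
  have hXb : X₂ ≤ X := (le_max_left _ _).trans hXr2
  have hXc : X₃ ≤ X := (le_max_right _ _).trans hXr2
  obtain ⟨h3, h4⟩ := hX₂ X hXb
  have h5 := hN₀ X hXN (yX t X) h3 h4
  have h6 := hX₁ X hXa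
  have h7 := hX₃ X hXc
  have h8 := hw₂ w hw2'
  have hX0 : (0 : ℝ) ≤ X := Nat.cast_nonneg X
  have h9 := (abs_le.1 h6).1
  have h10 := (abs_le.1 h7).2
  have h11 : DDlim t * X ≤ (EE (primorial w) t + ε / 16) * X :=
    mul_le_mul_of_nonneg_right h8 hX0
  have h12 : 0 ≤ ε / 16 * X := by positivity
  linarith

end Pool.Agent.Lib.MP_bae66e_nt.LL
end
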