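import Pool.Agent.Lib.MP_bae66e_nt.Mg.G048
import Pool.Agent.Lib.MP_bae66e_nt.Mg.G043
import Pool.Agent.Lib.MP_bae66e_nt.Mg.G041
import Pool.Agent.Lib.MP_bae66e_nt.Mg.G042
import Pool.Agent.Lib.MP_bae66e_nt.BrunT

section

/-!
# C10: equidistribution in almost all short intervals implies the limit law
-/

set_option autoImplicit false

open Finset

namespace Pool.Agent.Lib.MP_bae66e_nt.LL

/-- `log (yX t X) / loglog X → 1`. (The same statement is `log_yX` in C09; prove it here too, under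
this name.) -/
lemma log_yX' (t : ℝ) (ht : 0 < t) (δ : ℝ) (hδ : 0 < δ) : ∃ X₀ : ℕ, ∀ X : ℕ, X₀ ≤ X →
    |Real.log (yX t X) - Real.log (Real.log X)| ≤ δ * Real.log (Real.log X) := by
  have h1 : Filter.Tendsto (fun X : ℕ => Real.log (X : ℝ)) Filter.atTop Filter.atTop :=
    Real.tendsto_log_atTop.comp (tendsto_natCast_atTop_atTop (R := ℝ))
  have h2 : Filter.Tendsto (fun X : ℕ => Real.log (Real.log (X : ℝ))) Filter.atTop Filter.atTop :=
    Real.tendsto_log_atTop.comp h1
  have h3 := (Real.isLittleO_log_id_atTop).def (half_pos hδ)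
  have h4 := h2.eventually h3
  have h5 := h2.eventually (Filter.eventually_ge_atTop
    (max 1 ((|Real.log t| + Real.log 2) / (δ / 2))))
  have h6 := h1.eventually (Filter.eventually_ge_atTop (max 1 (2 / t)))
  obtain ⟨X₀, hX₀⟩ := Filter.eventually_atTop.1 (h4.and (h5.and h6))
  refine ⟨X₀, fun X hX => ?_⟩
  obtain ⟨h7, h8, h9⟩ := hX₀ X hX
  set L := Real.log (X : ℝ) with hL
  set M := Real.log L with hM
  have hL1 : 1 ≤ L := (le_max_left _ _).trans h9
  have hL2 : 2 ≤ t * L := by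
    have := (le_max_right _ _).trans h9
    rw [div_le_iff₀ ht] at this; linarith
  have hM1 : 1 ≤ M := (le_max_left _ _).trans h8
  have hM2 : |Real.log t| + Real.log 2 ≤ δ / 2 * M := by
    have := (le_max_right _ _).trans h8
    rw [div_le_iff₀ (half_pos hδ)] at this; linarith
  simp only [id_eq, Real.norm_eq_abs] at h7
  rw [abs_of_nonneg (Real.log_nonneg hM1), abs_of_pos (by linarith : 0 < M)] at h7
  have hlM : 0 ≤ Real.log M := Real.log_nonneg hM1
  have hl2 : 0 < Real.log 2 := Real.log_pos (by norm_num)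
  have hT : 2 ≤ t * L * M := by nlinarith
  have hy : (yX t X : ℝ) ≤ t * L * M := Nat.floor_le (by linarith)
  have hy' : t * L * M < (yX t X : ℝ) + 1 := Nat.lt_floor_add_one _
  have hy2 : t * L * M / 2 ≤ (yX t X : ℝ) := by linarith
  have hlog : Real.log (t * L * M) = Real.log t + M + Real.log M := by
    rw [Real.log_mul (by positivity) (by positivity), Real.log_mul ht.ne' (by positivity)]
  have hup : Real.log (yX t X) ≤ Real.log t + M + Real.log M := by
    rw [← hlog]
    exact Real.log_le_log (by linarith) hy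
  have hlow : Real.log t + M + Real.log M - Real.log 2 ≤ Real.log (yX t X) := by
    rw [← hlog, ← Real.log_div (by positivity) (by norm_num)]
    exact Real.log_le_log (by linarith) hy2
  have ha1 := le_abs_self (Real.log t)
  have ha2 := neg_abs_le (Real.log t)
  rw [abs_le]
  constructor <;> linarith

/-- The intensity in terms of the counts in classes: `λ(m) = ∑_{b < W} nu W (m - b) nC(b, m)/log y`. -/
lemma lamQ_eq_sum_nC (X y W : ℕ) (hW : 1 ≤ W) (m : ℤ) :
    lamQ W y (QQ 0 X) m = ∑ b ∈ Finset.range W, nu W (m - b) * (nC X y W b m : ℝ) / Real.log y := by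
  unfold lamQ
  have hmem : ∀ q ∈ QQ 0 X, q % W ∈ Finset.range W := fun q _ =>
    Finset.mem_range.2 (Nat.mod_lt _ hW)
  rw [← Finset.sum_fiberwise_of_maps_to hmem]
  refine Finset.sum_congr rfl fun b hb => ?_
  rw [Finset.mem_range] at hb
  have hmod : ∀ q : ℕ, q % W = b ↔ (q : ℤ) ≡ b [ZMOD (W : ℤ)] := by
    intro q
    unfold Int.ModEq
    have h1 : (b : ℤ) % (W : ℤ) = b := Int.emod_eq_of_lt (by positivity) (by exact_mod_cast hb)
    rw [h1]
    constructor
    · intro h; rw [← h]; push_cast; rfl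
    · intro h; exact_mod_cast h
  have hset : (QQ 0 X).filter (fun q : ℕ => 1 ≤ m - q ∧ m - q ≤ (y : ℤ) ∧
      (q : ℤ) ≡ b [ZMOD (W : ℤ)]) =
      ((QQ 0 X).filter (fun q => q % W = b)).filter (fun q : ℕ => 1 ≤ m - q ∧ m - q ≤ (y : ℤ)) := by
    ext q
    simp only [Finset.mem_filter, hmod]
    tauto
  have hn : (nC X y W b m : ℝ) = (((QQ 0 X).filter (fun q => q % W = b)).filter
      (fun q : ℕ => 1 ≤ m - q ∧ m - q ≤ (y : ℤ))).card := by
    unfold nC
    rw [hset]
  have hterm : ∀ q ∈ (QQ 0 X).filter (fun q => q % W = b), vv W y (m - q) =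
      if 1 ≤ m - q ∧ m - q ≤ (y : ℤ) then nu W (m - b) / Real.log y else 0 := by
    intro q hq
    rw [Finset.mem_filter, hmod] at hq
    unfold vv gW
    have h2 : nu W (m - q) = nu W (m - b) := nu_periodic W _ _ (Int.ModEq.sub_left m hq.2)
    rw [h2]
    split_ifs
    · rfl
    · rw [zero_div]
  rw [Finset.sum_congr rfl hterm, ← Finset.sum_filter, Finset.sum_const, nsmul_eq_mul, hn]
  ring

/-- For `b` not coprime to `W ≥ 1` there are at most `W` primes `≡ b (W)` (they divide `W`). -/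
lemma nC_le_of_not_coprime (X y W : ℕ) (hW : 1 ≤ W) (b m : ℤ) (hb : ¬ IsCoprime b (W : ℤ)) :
    nC X y W b m ≤ W := by
  unfold nC
  have hsub : (QQ 0 X).filter (fun q : ℕ => 1 ≤ m - q ∧ m - q ≤ (y : ℤ) ∧
      (q : ℤ) ≡ b [ZMOD (W : ℤ)]) ⊆ Finset.Icc 1 W := by
    intro q hq
    unfold QQ at hq
    rw [Finset.mem_filter, Finset.mem_filter] at hq
    obtain ⟨⟨-, hqp⟩, -, -, hmod⟩ := hq
    rw [Finset.mem_Icc]
    refine ⟨hqp.one_lt.le, ?_⟩
    have h1 : ¬ IsCoprime (q : ℤ) (W : ℤ) := by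
      intro h
      apply hb
      obtain ⟨k, hk⟩ := Int.modEq_iff_dvd.mp hmod
      have h2 : b = (q : ℤ) + (W : ℤ) * k := by linarith
      rw [h2, IsCoprime.add_mul_left_left_iff]
      exact h
    rw [Nat.isCoprime_iff_coprime, hqp.coprime_iff_not_dvd, not_not] at h1
    exact Nat.le_of_dvd hW h1
  exact (Finset.card_le_card hsub).trans (by simp)

private lemma C10_nu_neg (W : ℕ) (n : ℤ) : nu W (-n) = nu W n := by
  unfold nu
  simp only [IsCoprime.neg_left_iff]

/-- `SP W m = ∑_{b < W, (b, W) = 1} nu W (m - b)/φ(W)` for squarefree `W` (`SP_eq_conv`,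
`nu W b = W/φ(W)` for `b` coprime to `W`, `nu W` is even). -/
lemma SP_eq_sum (W : ℕ) (hW : Squarefree W) (m : ℤ) :
    SP W m = ∑ b ∈ (Finset.range W).filter (fun b : ℕ => IsCoprime (b : ℤ) (W : ℤ)),
      nu W (m - b) / (Nat.totient W : ℝ) := by
  have hW0 : (W : ℝ) ≠ 0 := by exact_mod_cast hW.ne_zero
  rw [SP_eq_conv W hW m, Finset.sum_filter, Finset.mul_sum]
  refine Finset.sum_congr rfl fun c _ => ?_
  have h1 : nu W ((c : ℤ) - m) = nu W (m - c) := by
    rw [← C10_nu_neg W (m - c)]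
    congr 1
    ring
  rw [h1]
  by_cases h : IsCoprime (c : ℤ) (W : ℤ)
  · rw [if_pos h]
    have h2 : nu W (c : ℤ) = (W : ℝ) / (Nat.totient W : ℝ) := by
      unfold nu
      rw [if_pos h]
    rw [h2]
    field_simp
  · rw [if_neg h]
    have h2 : nu W (c : ℤ) = 0 := by
      unfold nu
      rw [if_neg h]
    rw [h2]
    ring

/-- If the counts in the coprime classes are right, the intensity is right: if
`|nC(b, m)/log y - t/φ(W)| ≤ η` for all `b < W` coprime to `W`, then
`|λ(m) - t SP W m| ≤ W² η + W³/log y` (`y ≥ 2`). -/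
lemma lam_close (X y W : ℕ) (hW : Squarefree W) (hy : 2 ≤ y) (m : ℤ) (t η : ℝ)
    (h : ∀ b : ℕ, b < W → IsCoprime (b : ℤ) (W : ℤ) →
      |(nC X y W b m : ℝ) / Real.log y - t / (Nat.totient W : ℝ)| ≤ η) :
    |lamQ W y (QQ 0 X) m - t * SP W m| ≤ (W : ℝ) ^ 2 * η + (W : ℝ) ^ 3 / Real.log y := by
  have hW1 : 1 ≤ W := Nat.one_le_iff_ne_zero.2 hW.ne_zero
  have hly : 0 < Real.log y := Real.log_pos (by exact_mod_cast (by omega : 1 < y))
  have hη : 0 ≤ η := by
    have h1 : IsCoprime (((1 % W : ℕ) : ℤ)) (W : ℤ) := by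
      rcases Nat.lt_or_ge 1 W with h2 | h2
      · rw [Nat.mod_eq_of_lt h2, Nat.cast_one]
        exact isCoprime_one_left
      · have : W = 1 := by omega
        subst this
        rw [Nat.cast_one]
        exact isCoprime_one_right
    exact (abs_nonneg _).trans (h (1 % W) (Nat.mod_lt _ hW1) h1)
  have hW0 : (0 : ℝ) ≤ W := Nat.cast_nonneg W
  rw [lamQ_eq_sum_nC X y W hW1 m, SP_eq_sum W hW m, Finset.sum_filter, Finset.mul_sum,
    ← Finset.sum_sub_distrib]
  have hterm : ∀ b ∈ Finset.range W,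
      |nu W (m - b) * (nC X y W b m : ℝ) / Real.log y -
        t * (if IsCoprime (b : ℤ) (W : ℤ) then nu W (m - b) / (Nat.totient W : ℝ) else 0)| ≤
      W * η + (W : ℝ) ^ 2 / Real.log y := by
    intro b hb
    rw [Finset.mem_range] at hb
    have hnu0 := nu_nonneg W (m - b)
    have hnu1 := nu_le W hW1 (m - b)
    by_cases hc : IsCoprime (b : ℤ) (W : ℤ)
    · rw [if_pos hc]
      have e1 : nu W (m - b) * (nC X y W b m : ℝ) / Real.log y -
          t * (nu W (m - b) / (Nat.totient W : ℝ)) =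
          nu W (m - b) * ((nC X y W b m : ℝ) / Real.log y - t / (Nat.totient W : ℝ)) := by ring
      rw [e1, abs_mul, abs_of_nonneg hnu0]
      have h2 := h b hb hc
      have h3 : nu W (m - b) * |(nC X y W b m : ℝ) / Real.log y - t / (Nat.totient W : ℝ)|
          ≤ W * η := mul_le_mul hnu1 h2 (abs_nonneg _) hW0
      have h4 : 0 ≤ (W : ℝ) ^ 2 / Real.log y := by positivity
      linarith
    · rw [if_neg hc, mul_zero, sub_zero]
      have h5 : (nC X y W b m : ℝ) ≤ W := by
        exact_mod_cast nC_le_of_not_coprime X y W hW1 b m hc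
      rw [abs_of_nonneg (by positivity)]
      have h6 : nu W (m - b) * (nC X y W b m : ℝ) / Real.log y ≤ (W : ℝ) ^ 2 / Real.log y := by
        apply div_le_div_of_nonneg_right _ hly.le
        rw [sq]
        exact mul_le_mul hnu1 h5 (Nat.cast_nonneg _) hW0
      have h7 : 0 ≤ (W : ℝ) * η := by positivity
      linarith
  refine (Finset.abs_sum_le_sum_abs _ _).trans ((Finset.sum_le_sum hterm).trans ?_)
  rw [Finset.sum_const, Finset.card_range, nsmul_eq_mul]
  apply le_of_eq
  ring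

private lemma C10_exp_lip (a b : ℝ) (ha : 0 ≤ a) (hb : 0 ≤ b) :
    |Real.exp (-a) - Real.exp (-b)| ≤ |a - b| := by
  have key : ∀ a b : ℝ, 0 ≤ a → a ≤ b → |Real.exp (-a) - Real.exp (-b)| ≤ |a - b| := by
    intro a b ha hab
    have h1 : Real.exp (-b) ≤ Real.exp (-a) := Real.exp_le_exp.2 (by linarith)
    rw [abs_of_nonneg (by linarith), abs_of_nonpos (by linarith)]
    have h2 : Real.exp (-b) = Real.exp (-a) * Real.exp (-(b - a)) := by
      rw [← Real.exp_add]; congr 1; ring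
    have h3 := Real.add_one_le_exp (-(b - a))
    have h4 : Real.exp (-a) ≤ 1 := Real.exp_le_one_iff.2 (by linarith)
    have h5 := Real.exp_pos (-a)
    rw [h2]
    nlinarith
  rcases le_total a b with h | h
  · exact key a b ha h
  · rw [abs_sub_comm, abs_sub_comm a b]
    exact key b a hb h

/-- Under `EquiAt t`, for `W = primorial w`: `∑_{m ≤ X even} |exp(-λ(m)) - exp(-t SP W m)| ≤ ε X`.

PROOF. `EquiAt t` for the at most `W` classes `b` with a small `ε'`: outside a set of at most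
`W ε' X` integers `m`, `|nC(b, m) - t LL/φ(W)| ≤ ε' LL` for all coprime `b`, so by `log_yX'`
`|nC/log y - t/φ(W)| ≤ η` with `η → 0`, and by `lam_close` `|λ - t SP| ≤ ε/2`, hence
`|exp(-λ) - exp(-t SP)| ≤ ε/2` (both exponents are `≤ 0`). In the exceptional set the difference is
at most `1`. -/
theorem exp_close (w : ℕ) (t : ℝ) (ht : 0 < t) (hE : EquiAt t) (ε : ℝ) (hε : 0 < ε) :
    ∃ X₀ : ℕ, ∀ X : ℕ, X₀ ≤ X →
      ∑ m ∈ (Finset.Ioc (0 : ℤ) (X : ℤ)).filter (fun m => Even m),
        |Real.exp (-lamQ (primorial w) (yX t X) (QQ 0 X) m)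
          - Real.exp (-(t * SP (primorial w) m))| ≤ ε * X := by
  classical
  set W := primorial w with hWdef
  have hWsq : Squarefree W := squarefree_primorial w
  have hW1 : 1 ≤ W := Nat.one_le_iff_ne_zero.2 hWsq.ne_zero
  have hWR : (1 : ℝ) ≤ W := by exact_mod_cast hW1
  have hW0 : (0 : ℝ) < W := by linarith
  have hphi1 : (1 : ℝ) ≤ (Nat.totient W : ℝ) := by exact_mod_cast Nat.totient_pos.2 (by omega)
  set η : ℝ := ε / (4 * (W : ℝ) ^ 2) with hη
  have hη0 : 0 < η := by positivity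
  set ε' : ℝ := min (η / 4) (ε / (2 * W)) with hε'
  have hε'0 : 0 < ε' := lt_min (by positivity) (by positivity)
  have hε'1 : ε' ≤ η / 4 := min_le_left _ _
  have hε'2 : W * ε' ≤ ε / 2 := by
    have h1 : ε' ≤ ε / (2 * W) := min_le_right _ _
    calc W * ε' ≤ W * (ε / (2 * W)) := mul_le_mul_of_nonneg_left h1 hW0.le
      _ = ε / 2 := by field_simp
  set δ : ℝ := min (1 / 2) (η / (4 * t)) with hδ
  have hδ0 : 0 < δ := lt_min (by norm_num) (by positivity)
  have hδ1 : δ ≤ 1 / 2 := min_le_left _ _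
  have hδ2 : t * δ ≤ η / 4 := by
    have h1 : δ ≤ η / (4 * t) := min_le_right _ _
    calc t * δ ≤ t * (η / (4 * t)) := mul_le_mul_of_nonneg_left h1 ht.le
      _ = η / 4 := by field_simp
  have hEb : ∀ b : ℕ, ∃ X₀ : ℕ, IsCoprime (b : ℤ) (W : ℤ) → ∀ X : ℕ, X₀ ≤ X →
      (((Finset.Ioc (0 : ℤ) (X : ℤ)).filter (fun m : ℤ =>
        ε' * Real.log (Real.log X) < |(nC X (yX t X) W b m : ℝ)
          - t * Real.log (Real.log X) / (Nat.totient W : ℝ)|)).card : ℝ) ≤ ε' * X := by
    intro b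
    by_cases hb : IsCoprime (b : ℤ) (W : ℤ)
    · obtain ⟨X₀, hX₀⟩ := hE w b hb ε' hε'0
      refine ⟨X₀, fun _ X hX => ?_⟩
      have := hX₀ X hX
      convert! this using 3
    · exact ⟨0, fun h => absurd h hb⟩
  choose Xb hXb using hEb
  obtain ⟨X₁, hX₁⟩ := log_yX' t ht δ hδ0
  -- `loglog X` large
  have h1 : Filter.Tendsto (fun X : ℕ => Real.log (Real.log (X : ℝ))) Filter.atTop Filter.atTop :=
    Real.tendsto_log_atTop.comp
      (Real.tendsto_log_atTop.comp (tendsto_natCast_atTop_atTop (R := ℝ)))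
  obtain ⟨X₂, hX₂⟩ := Filter.eventually_atTop.1
    (h1.eventually (Filter.eventually_ge_atTop (max 2 (8 * (W : ℝ) ^ 3 / ε))))
  refine ⟨X₁ + X₂ + (Finset.range W).sup Xb, fun X hX => ?_⟩
  have hlog := hX₁ X (by omega)
  have hLL := hX₂ X (by omega)
  set LL := Real.log (Real.log (X : ℝ)) with hLLdef
  set y := yX t X with hy
  have hLL2 : 2 ≤ LL := (le_max_left _ _).trans hLL
  have hLLW : 8 * (W : ℝ) ^ 3 / ε ≤ LL := (le_max_right _ _).trans hLL
  have hly : LL / 2 ≤ Real.log y := by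
    have h2 := (abs_le.1 hlog).1
    have h3 : δ * LL ≤ 1 / 2 * LL := mul_le_mul_of_nonneg_right hδ1 (by linarith)
    linarith
  have hly1 : 1 ≤ Real.log y := by linarith
  have hly0 : 0 < Real.log y := by linarith
  have hy2 : 2 ≤ y := by
    by_contra hlt
    have h4 : (y : ℝ) ≤ 1 := by exact_mod_cast (by omega : y ≤ 1)
    have h5 : Real.log y ≤ 0 := Real.log_nonpos (Nat.cast_nonneg _) h4
    linarith
  have hWly : (W : ℝ) ^ 3 / Real.log y ≤ ε / 4 := by
    rw [div_le_iff₀ hly0]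
    rw [div_le_iff₀ hε] at hLLW
    nlinarith
  let bad : ℕ → Finset ℤ := fun b => (Finset.Ioc (0 : ℤ) (X : ℤ)).filter (fun m : ℤ =>
        ε' * LL < |(nC X y W b m : ℝ) - t * LL / (Nat.totient W : ℝ)|)
  let B := (Finset.range W).filter (fun b : ℕ => IsCoprime (b : ℤ) (W : ℤ))
  let E := B.biUnion bad
  have hEcard : (E.card : ℝ) ≤ ε / 2 * X := by
    have h6 : (E.card : ℝ) ≤ ∑ b ∈ B, ((bad b).card : ℝ) := by
      exact_mod_cast Finset.card_biUnion_le
    have h7 : ∀ b ∈ B, ((bad b).card : ℝ) ≤ ε' * X := by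
      intro b hb
      rw [Finset.mem_filter] at hb
      exact hXb b hb.2 X ((Finset.le_sup (f := Xb) hb.1).trans (by omega))
    refine h6.trans ((Finset.sum_le_sum h7).trans ?_)
    rw [Finset.sum_const, nsmul_eq_mul]
    have h8 : (B.card : ℝ) ≤ W := by
      have : B.card ≤ (Finset.range W).card := Finset.card_filter_le _ _
      rw [Finset.card_range] at this
      exact_mod_cast this
    calc (B.card : ℝ) * (ε' * X) ≤ W * (ε' * X) := by gcongr
      _ = (W * ε') * X := by ring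
      _ ≤ ε / 2 * X := by gcongr
  have hgood : ∀ m ∈ Finset.Ioc (0 : ℤ) (X : ℤ), m ∉ E →
      |Real.exp (-lamQ W y (QQ 0 X) m) - Real.exp (-(t * SP W m))| ≤ ε / 2 := by
    intro m hm hmE
    have h9 : ∀ b : ℕ, b < W → IsCoprime (b : ℤ) (W : ℤ) →
        |(nC X y W b m : ℝ) / Real.log y - t / (Nat.totient W : ℝ)| ≤ η := by
      intro b hb hc
      have h10 : |(nC X y W b m : ℝ) - t * LL / (Nat.totient W : ℝ)| ≤ ε' * LL := by
        by_contra hlt
        apply hmE
        rw [Finset.mem_biUnion]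
        refine ⟨b, Finset.mem_filter.2 ⟨Finset.mem_range.2 hb, hc⟩, ?_⟩
        exact Finset.mem_filter.2 ⟨hm, not_le.1 hlt⟩
      have h11 : |t * LL / (Nat.totient W : ℝ) - t * Real.log y / (Nat.totient W : ℝ)| ≤
          t * δ * LL := by
        have e1 : t * LL / (Nat.totient W : ℝ) - t * Real.log y / (Nat.totient W : ℝ) =
            t / (Nat.totient W : ℝ) * (LL - Real.log y) := by ring
        rw [e1, abs_mul, abs_of_nonneg (by positivity), abs_sub_comm]
        calc t / (Nat.totient W : ℝ) * |Real.log y - LL| ≤ t * (δ * LL) :=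
              mul_le_mul (div_le_self ht.le hphi1) hlog (abs_nonneg _) ht.le
          _ = t * δ * LL := by ring
      have e2 : (nC X y W b m : ℝ) / Real.log y - t / (Nat.totient W : ℝ) =
          (((nC X y W b m : ℝ) - t * LL / (Nat.totient W : ℝ)) +
            (t * LL / (Nat.totient W : ℝ) - t * Real.log y / (Nat.totient W : ℝ))) /
            Real.log y := by
        field_simp
        ring
      rw [e2, abs_div, abs_of_pos hly0, div_le_iff₀ hly0]
      refine (abs_add_le _ _).trans ?_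
      have h12 : ε' * LL + t * δ * LL ≤ η / 2 * LL := by
        have : (ε' + t * δ) * LL ≤ (η / 2) * LL :=
          mul_le_mul_of_nonneg_right (by linarith) (by linarith)
        linarith
      have h13 : η / 2 * LL ≤ η * Real.log y := by nlinarith
      linarith
    have h14 := lam_close X y W hWsq hy2 m t η h9
    have h15 := C10_exp_lip (lamQ W y (QQ 0 X) m) (t * SP W m) (lamQ_nonneg W y hy2 _ _)
      (mul_nonneg ht.le (SP_nonneg W m))
    have h16 : (W : ℝ) ^ 2 * η = ε / 4 := by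
      rw [hη]; field_simp
    linarith
  have hall : ∀ m : ℤ, |Real.exp (-lamQ W y (QQ 0 X) m) - Real.exp (-(t * SP W m))| ≤ 1 := by
    intro m
    have h17 := lamQ_nonneg W y hy2 (QQ 0 X) m
    have h18 := mul_nonneg ht.le (SP_nonneg W m)
    have h19 : Real.exp (-lamQ W y (QQ 0 X) m) ≤ 1 := Real.exp_le_one_iff.2 (by linarith)
    have h20 : Real.exp (-(t * SP W m)) ≤ 1 := Real.exp_le_one_iff.2 (by linarith)
    have h21 := Real.exp_pos (-lamQ W y (QQ 0 X) m)
    have h22 := Real.exp_pos (-(t * SP W m))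
    rw [abs_le]
    constructor <;> linarith
  calc ∑ m ∈ (Finset.Ioc (0 : ℤ) (X : ℤ)).filter (fun m => Even m),
        |Real.exp (-lamQ W y (QQ 0 X) m) - Real.exp (-(t * SP W m))|
      ≤ ∑ m ∈ Finset.Ioc (0 : ℤ) (X : ℤ),
        |Real.exp (-lamQ W y (QQ 0 X) m) - Real.exp (-(t * SP W m))| :=
        Finset.sum_le_sum_of_subset_of_nonneg (Finset.filter_subset _ _)
          (fun _ _ _ => abs_nonneg _)
    _ ≤ ∑ m ∈ Finset.Ioc (0 : ℤ) (X : ℤ), (ε / 2 + if m ∈ E then 1 else 0) := by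
        refine Finset.sum_le_sum fun m hm => ?_
        by_cases hmE : m ∈ E
        · rw [if_pos hmE]
          have := hall m
          linarith
        · rw [if_neg hmE, add_zero]
          exact hgood m hm hmE
    _ = ε / 2 * X + (((Finset.Ioc (0 : ℤ) (X : ℤ)).filter (fun m => m ∈ E)).card : ℝ) := by
        rw [Finset.sum_add_distrib, Finset.sum_const, nsmul_eq_mul, ← Finset.sum_filter,
          Finset.sum_const, nsmul_eq_mul, mul_one, Int.card_Ioc]
        congr 1
        rw [mul_comm]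
        simp
    _ ≤ ε / 2 * X + ε / 2 * X := by
        have h23 : (((Finset.Ioc (0 : ℤ) (X : ℤ)).filter (fun m => m ∈ E)).card : ℝ) ≤ E.card := by
          have : ((Finset.Ioc (0 : ℤ) (X : ℤ)).filter (fun m => m ∈ E)).card ≤ E.card :=
            Finset.card_le_card (fun m hm => (Finset.mem_filter.1 hm).2)
          exact_mod_cast this
        linarith
    _ = ε * X := by ring

/-- The mean of `exp(-t SP W m)` over the even `m ≤ X` is `EE W t`, `W` even and squarefree:
`|∑_{m ≤ X even} exp(-t SP W m) - EE W t X/2| ≤ 2 W` (`card_clX_le`, `le_card_clX`, J03). -/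
lemma sum_exp_SP (W : ℕ) (hW : Squarefree W) (h2 : 2 ∣ W) (t : ℝ) (ht : 0 ≤ t) (X : ℕ) :
    |(∑ m ∈ (Finset.Ioc (0 : ℤ) (X : ℤ)).filter (fun m => Even m), Real.exp (-(t * SP W m)))
      - EE W t * X / 2| ≤ 2 * W := by
  have hW0 : W ≠ 0 := hW.ne_zero
  have hWpos : 0 < W := Nat.pos_of_ne_zero hW0
  have hWr : (0 : ℝ) < W := by exact_mod_cast hWpos
  set A := (Finset.range W).filter (fun a => Even a) with hA
  have hmem : ∀ m ∈ (Finset.Ioc (0 : ℤ) (X : ℤ)).filter (fun m => Even m),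
      (m % (W : ℤ)).toNat ∈ A := by
    intro m hm
    rw [Finset.mem_filter, Finset.mem_Ioc] at hm
    have h6 : 0 ≤ m % (W : ℤ) := Int.emod_nonneg _ (by exact_mod_cast hW0)
    have h7 : m % (W : ℤ) < W := Int.emod_lt_of_pos _ (by exact_mod_cast hWpos)
    simp only [hA, Finset.mem_filter, Finset.mem_range]
    refine ⟨by omega, ?_⟩
    have h8 : ((m % (W : ℤ)).toNat : ℤ) = m % (W : ℤ) := Int.toNat_of_nonneg h6
    rw [← Int.even_coe_nat, h8, Int.even_iff, Int.emod_emod_of_dvd m (by exact_mod_cast h2),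
      ← Int.even_iff]
    exact hm.2
  have hfiber : ∑ m ∈ (Finset.Ioc (0 : ℤ) (X : ℤ)).filter (fun m => Even m),
      Real.exp (-(t * SP W m))
      = ∑ a ∈ A, ∑ m ∈ clX X W a, Real.exp (-(t * SP W m)) := by
    rw [← Finset.sum_fiberwise_of_maps_to hmem]
    refine Finset.sum_congr rfl fun a ha => Finset.sum_congr ?_ fun _ _ => rfl
    ext m
    simp only [hA, Finset.mem_filter, Finset.mem_range] at ha
    unfold clX
    simp only [Finset.mem_filter]
    have h6 : 0 ≤ m % (W : ℤ) := Int.emod_nonneg _ (by exact_mod_cast hW0)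
    have haW : (a : ℤ) % (W : ℤ) = a := Int.emod_eq_of_lt (by positivity) (by exact_mod_cast ha.1)
    constructor
    · rintro ⟨⟨h7, -⟩, h8⟩
      refine ⟨h7, ?_⟩
      unfold Int.ModEq
      rw [haW]
      omega
    · rintro ⟨h7, h8⟩
      unfold Int.ModEq at h8
      rw [haW] at h8
      refine ⟨⟨h7, ?_⟩, by omega⟩
      rw [Int.even_iff, ← Int.emod_emod_of_dvd m (show (2 : ℤ) ∣ (W : ℤ) by exact_mod_cast h2), h8,
        ← Int.even_iff, Int.even_coe_nat]
      exact ha.2
  have hinner : ∀ a ∈ A, ∑ m ∈ clX X W a, Real.exp (-(t * SP W m)) =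
      ((clX X W a).card : ℝ) * Real.exp (-(t * SP W a)) := by
    intro a _
    rw [← nsmul_eq_mul, ← Finset.sum_const]
    refine Finset.sum_congr rfl fun m hm => ?_
    unfold clX at hm
    rw [Finset.mem_filter] at hm
    rw [SP_periodic W m a hm.2]
  have hEE : EE W t * X / 2 = ∑ a ∈ A, (X : ℝ) / W * Real.exp (-(t * SP W a)) := by
    unfold EE
    rw [← hA, ← Finset.mul_sum]
    have h9 : ∑ a ∈ A, Real.exp (-t * SS W (![0, (a : ℤ)] : Fin 2 → ℤ)) =
        ∑ a ∈ A, Real.exp (-(t * SP W a)) := by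
      refine Finset.sum_congr rfl fun a _ => ?_
      unfold SP
      rw [neg_mul]
    rw [h9]
    field_simp
  rw [hfiber, Finset.sum_congr rfl hinner, hEE, ← Finset.sum_sub_distrib]
  refine (Finset.abs_sum_le_sum_abs _ _).trans ?_
  have hterm : ∀ a ∈ A, |((clX X W a).card : ℝ) * Real.exp (-(t * SP W a)) -
      (X : ℝ) / W * Real.exp (-(t * SP W a))| ≤ 1 := by
    intro a _
    rw [← sub_mul, abs_mul, abs_of_pos (Real.exp_pos _)]
    have h10 := card_clX_le X W hWpos a
    have h11 := le_card_clX X W hWpos a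
    have h12 : |((clX X W a).card : ℝ) - (X : ℝ) / W| ≤ 1 := by
      rw [abs_le]
      constructor <;> linarith
    have h13 : Real.exp (-(t * SP W a)) ≤ 1 :=
      Real.exp_le_one_iff.2 (by have := mul_nonneg ht (SP_nonneg W a); linarith)
    exact (mul_le_mul h12 h13 (Real.exp_pos _).le zero_le_one).trans (by norm_num)
  refine (Finset.sum_le_sum hterm).trans ?_
  rw [Finset.sum_const, nsmul_eq_mul, mul_one]
  have h14 : (A.card : ℝ) ≤ W := by
    have : A.card ≤ (Finset.range W).card := Finset.card_filter_le _ _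
    rw [Finset.card_range] at this
    exact_mod_cast this
  linarith

/-- `EquiAt t` implies the limit law at `t`.

PROOF. Given `t`, `ε`: by `cntX_formula` (`ε/8`) and `DDlim_le`, `EE_le_DDlim` (`ε/4`) fix `w ≥ 2`
with `|cntX - ∑ exp(-λ)| ≤ (ε/8) X` for large `X` and `|DDlim t - EE (primorial w) t| ≤ ε/4`.
`exp_close` with `ε/8` and `sum_exp_SP`. -/
theorem equi_imp_limitLaw (t : ℝ) (ht : 0 < t) (hE : EquiAt t) : LimitLawAt t := by
  intro ε hε
  obtain ⟨w₀, hw₀⟩ := cntX_formula t ht (ε / 8) (by linarith)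
  obtain ⟨w₁, hw₁⟩ := DDlim_le t ht.le (ε / 4) (by linarith)
  set w := max w₀ (max w₁ 2) with hw
  have hw2 : 2 ≤ w := (le_max_right _ _).trans (le_max_right _ _)
  obtain ⟨X₁, hX₁⟩ := hw₀ w (le_max_left _ _)
  have hD1 := hw₁ w ((le_max_left _ _).trans (le_max_right _ _))
  have hD2 := EE_le_DDlim t ht.le w hw2
  obtain ⟨X₂, hX₂⟩ := exp_close w t ht hE (ε / 8) (by linarith)
  set W := primorial w with hW
  have h2 : 2 ∣ W := Nat.prime_two.dvd_primorial_iff.2 (by omega)
  refine ⟨X₁ + X₂ + ⌈16 * (W : ℝ) / ε⌉₊, fun X hX => ?_⟩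
  have h3 := hX₁ X (by omega)
  have h4 := hX₂ X (by omega)
  have h5 := sum_exp_SP W (squarefree_primorial w) h2 t ht.le X
  have h6 : 2 * (W : ℝ) ≤ ε / 8 * X := by
    have h7 : 16 * (W : ℝ) / ε ≤ X :=
      (Nat.le_ceil _).trans (by exact_mod_cast (by omega : ⌈16 * (W : ℝ) / ε⌉₊ ≤ X))
    rw [div_le_iff₀ hε] at h7
    linarith
  have h8 : |(∑ m ∈ (Finset.Ioc (0 : ℤ) (X : ℤ)).filter (fun m => Even m),
        Real.exp (-lamQ W (yX t X) (QQ 0 X) m)) -
      ∑ m ∈ (Finset.Ioc (0 : ℤ) (X : ℤ)).filter (fun m => Even m),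
        Real.exp (-(t * SP W m))| ≤ ε / 8 * X := by
    rw [← Finset.sum_sub_distrib]
    exact (Finset.abs_sum_le_sum_abs _ _).trans h4
  have hX0 : (0 : ℝ) ≤ X := Nat.cast_nonneg X
  have h9 : EE W t * X / 2 ≤ DDlim t * X / 2 := by
    have := mul_le_mul_of_nonneg_right hD2 hX0
    linarith
  have h10 : DDlim t * X / 2 ≤ EE W t * X / 2 + ε / 8 * X := by
    have := mul_le_mul_of_nonneg_right hD1 hX0
    linarith
  have h11 : 0 ≤ ε * X := by positivity
  rw [abs_le] at h3 h5 h8 ⊢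
  constructor <;> linarith [h3.1, h3.2, h5.1, h5.2, h8.1, h8.2]

end Pool.Agent.Lib.MP_bae66e_nt.LL
end

section

/-!
# LP/F5c: primes in a short final segment
-/

set_option autoImplicit false

open Finset Filter Topology

namespace Pool.Agent.Lib.MP_bae66e_nt.LP

open Pool.Agent.Lib.MP_bae66e_nt.LL

/-- Primes in a short final segment: for `t > 0`, `η > 0` there is `δ > 0` such that for large `X` the
number of pairs `(p, q)` of primes with `(1 - δ) t L(X) < p ≤ t L(X)`, `q ≤ X` is at most `η X`.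

PROOF. `π(v) - π(u) ≤ (1 + δ) v/log v - (1 - δ) u/log u` with `v = ⌊t L⌋`, `u = ⌊(1 - δ) t L⌋` (`piC_le`,
`le_piC` for `W = 1`), `log u ≤ log v`, so `≤ (4 δ v + 2)/log v`·…; `π(X) ≤ 5 X/log X`
(`card_QQ_bounds`), and `v ≤ t log X loglog X`, `log v ≥ loglog X` for large `X`: the product is
`≤ (20 t δ + o(1)) X`. (Alternatively Brun-Titchmarsh.) -/
lemma primes_final_segment (t η : ℝ) (ht : 0 < t) (hη : 0 < η) : ∃ δ : ℝ, 0 < δ ∧ δ < 1 ∧
    ∃ X₀ : ℕ, ∀ X : ℕ, X₀ ≤ X →
      (((Finset.Icc 1 X).filter (fun p : ℕ => p.Prime ∧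
          (1 - δ) * t * Real.log X * Real.log (Real.log X) < p ∧
          (p : ℝ) ≤ t * Real.log X * Real.log (Real.log X))).card : ℝ) * ((QQ 0 X).card : ℝ)
        ≤ η * X := by
  set δ : ℝ := min (1 / 2) (η / (80 * t)) with hδ
  have hδ0 : 0 < δ := lt_min (by norm_num) (by positivity)
  have hδ1 : δ ≤ 1 / 2 := min_le_left _ _
  have hδ2 : δ ≤ η / (80 * t) := min_le_right _ _
  refine ⟨δ, hδ0, by linarith, ?_⟩
  obtain ⟨X₀, hX₀⟩ := growth (max 16 (2 / (δ * t))) (le_trans (by norm_num) (le_max_left _ _))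
  refine ⟨X₀, fun X hX => ?_⟩
  obtain ⟨h1, h2, -, -, h3⟩ := hX₀ X hX
  have hM2 := (le_max_right _ _).trans h1
  have hM16 := (le_max_left _ _).trans h1
  have hL16 := (le_max_left _ _).trans h2
  have hX16 := (le_max_left _ _).trans h3
  unfold ell at hM2 hM16
  set L := Real.log (X : ℝ) with hL
  set M := Real.log L with hM
  have hM3 : 2 ≤ δ * t * M := by
    rw [div_le_iff₀ (by positivity)] at hM2
    linarith
  have hX16' : 16 ≤ X := by exact_mod_cast hX16
  obtain ⟨-, hQ⟩ := card_QQ_bounds X hX16'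
  rw [← hL] at hQ
  set x : ℕ := ⌈δ * t * L * M⌉₊ + 1 with hx
  set a : ℕ := ⌊(1 - δ) * t * L * M⌋₊ with ha
  have hz : L * 2 ≤ δ * t * L * M := by
    calc L * 2 ≤ L * (δ * t * M) := by gcongr
      _ = _ := by ring
  have hx1 : (x : ℝ) ≤ δ * t * L * M + 2 := by
    rw [hx]
    push_cast
    have := (Nat.ceil_lt_add_one (show 0 ≤ δ * t * L * M by linarith)).le
    linarith
  have hx2 : δ * t * L * M ≤ (x : ℝ) := by
    rw [hx]
    push_cast
    have := Nat.le_ceil (δ * t * L * M)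
    linarith
  have hxL : L ≤ x := by linarith
  have hx2' : 2 ≤ x := by
    have : (2 : ℝ) ≤ x := by linarith
    exact_mod_cast this
  have hlx : M ≤ Real.log x := Real.log_le_log (by linarith) hxL
  have hBT := brun_titchmarsh 1 a x le_rfl hx2'
  rw [show rho 1 = 1 by unfold rho; simp, one_mul] at hBT
  have hsub : ((Finset.Icc 1 X).filter (fun p : ℕ => p.Prime ∧
          (1 - δ) * t * L * M < p ∧ (p : ℝ) ≤ t * L * M))
      ⊆ ({j ∈ Finset.Ioc 0 x | (1 * j + a).Prime} : Finset ℕ).image (fun j => j + a) := by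
    intro p hp
    rw [Finset.mem_filter] at hp
    obtain ⟨-, hp1, hp2, hp3⟩ := hp
    have h0 : 0 ≤ (1 - δ) * t * L * M := by
      have : 0 ≤ 1 - δ := by linarith
      positivity
    have h4 : a < p := (Nat.floor_lt h0).2 hp2
    have h5 := Nat.lt_floor_add_one ((1 - δ) * t * L * M)
    rw [← ha] at h5
    rw [Finset.mem_image]
    refine ⟨p - a, ?_, by omega⟩
    rw [Finset.mem_filter, Finset.mem_Ioc]
    refine ⟨⟨by omega, ?_⟩, by rw [one_mul, Nat.sub_add_cancel h4.le]; exact hp1⟩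
    have h6 : ((p - a : ℕ) : ℝ) ≤ x := by
      rw [Nat.cast_sub h4.le, hx]
      push_cast
      have h7 := Nat.le_ceil (δ * t * L * M)
      nlinarith
    exact_mod_cast h6
  have hcard := (Finset.card_le_card hsub).trans Finset.card_image_le
  have hcard' : (((Finset.Icc 1 X).filter (fun p : ℕ => p.Prime ∧
          (1 - δ) * t * L * M < p ∧ (p : ℝ) ≤ t * L * M)).card : ℝ) ≤ 16 * δ * t * L := by
    calc _ ≤ ((#{j ∈ Finset.Ioc 0 x | (1 * j + a).Prime} : ℕ) : ℝ) := by exact_mod_cast hcard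
      _ ≤ 8 * x / Real.log x := hBT
      _ ≤ 8 * (2 * (δ * t * L * M)) / M := by
          gcongr
          linarith
      _ = 16 * δ * t * L := by
          have : M ≠ 0 := by linarith
          field_simp
          ring
  calc _ ≤ (16 * δ * t * L) * (5 * X / L) := by gcongr
    _ = 80 * t * δ * X := by
        have : L ≠ 0 := by linarith
        field_simp
        ring
    _ ≤ η * X := by
        apply mul_le_mul_of_nonneg_right _ (Nat.cast_nonneg X)
        rw [le_div_iff₀ (by positivity)] at hδ2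
        linarith

end Pool.Agent.Lib.MP_bae66e_nt.LP
end

section

/-!
# LP/J2b: the windows at the scale `log X loglog X`
-/

set_option autoImplicit false

open Finset

namespace Pool.Agent.Lib.MP_bae66e_nt.LP

open Pool.Agent.Lib.MP_bae66e_nt.LL

/-- The windows `(yX (a i j) X, yX (b i j) X]` satisfy `CutW`, and `log Y ∼ loglog X`. For every even `H`
with `h i ≤ H` there are `C₀ ≥ 0`, `C₁ ≥ 1` such that for every `N`, `δ > 0` and large `X` there is `Y ≥ N`
with `CutW`, `Y ≤ C₀ log X log Y` and `|ell X / log Y - 1| ≤ δ`.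

PROOF. Let `T = 1 + ∑ b i j`, `L = log X loglog X`, `Y = yX T X + H`. `yX (b i j) X ≤ yX T X`
(`yX_mono`). By `yX_props T 1` (or directly), `yX T X ≤ (T + 1) log X log (yX T X)`, so
`Y ≤ (T + 2) log X log Y` for large `X`. If `a i j = 0` then `yX 0 X = 0`; otherwise `a i j > 0` and
`yX (a i j) X ≥ a i j L - 1`, `Y ≤ T L + H`, so `Y ≤ (2 T/a i j + 1) yX (a i j) X` for large `X`; the same
for `b i j`. `C₁` is the sum of `1` and of all these constants. `log Y = loglog X + O(logloglog X)`, or: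
`(ell X)/(log Y) → 1` since `log X ≤ Y ≤ (log X)^{1 + δ/2}` for large `X` (see `log_yX'` in `LL`). -/
lemma cut_yX {r s : ℕ} (h : Fin r → ℕ) (hinj : Function.Injective h) (H : ℕ) (hH : ∀ i, h i ≤ H)
    (a b : Fin r → Fin s → ℝ) (hab : ∀ i j, 0 ≤ a i j ∧ a i j ≤ b i j)
    (hdis : ∀ i j l, j ≠ l → b i j ≤ a i l ∨ b i l ≤ a i j) :
    ∃ C₀ C₁ : ℝ, 0 ≤ C₀ ∧ 1 ≤ C₁ ∧ ∀ (N : ℕ) (δ : ℝ), 0 < δ → ∃ X₀ : ℕ, ∀ X : ℕ, X₀ ≤ X →
      ∃ Y : ℕ, N ≤ Y ∧ CutW Y H C₁ h (fun i j => yX (a i j) X) (fun i j => yX (b i j) X) ∧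
        (Y : ℝ) ≤ C₀ * Real.log X * Real.log Y ∧ |ell X / Real.log Y - 1| ≤ δ := by
  classical
  have ha0 : ∀ i j, 0 ≤ a i j := fun i j => (hab i j).1
  have hb0 : ∀ i j, 0 ≤ b i j := fun i j => (hab i j).1.trans (hab i j).2
  set T : ℝ := 1 + ∑ i, ∑ j, b i j with hTdef
  have hbT : ∀ i j, b i j ≤ T := by
    intro i j
    have h1 : b i j ≤ ∑ l, b i l := Finset.single_le_sum (fun l _ => hb0 i l) (Finset.mem_univ j)
    have h2 : ∑ l, b i l ≤ ∑ k, ∑ l, b k l :=
      Finset.single_le_sum (f := fun k => ∑ l, b k l)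
        (fun k _ => Finset.sum_nonneg fun l _ => hb0 k l) (Finset.mem_univ i)
    linarith
  have hT1 : 1 ≤ T := by
    have : 0 ≤ ∑ i, ∑ j, b i j := Finset.sum_nonneg fun i _ => Finset.sum_nonneg fun j _ => hb0 i j
    linarith
  set D : ℝ := T + H with hDdef
  have hH0 : (0 : ℝ) ≤ H := Nat.cast_nonneg H
  have hD1 : 1 ≤ D := by linarith
  set Sa : ℝ := ∑ i, ∑ j, 2 / a i j with hSa
  set Sb : ℝ := ∑ i, ∑ j, 2 / b i j with hSb
  have hSa1 : ∀ i j, 2 / a i j ≤ Sa := by
    intro i j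
    have h0 : ∀ k l, 0 ≤ 2 / a k l := fun k l => div_nonneg (by norm_num) (ha0 k l)
    have h1 : 2 / a i j ≤ ∑ l, 2 / a i l :=
      Finset.single_le_sum (f := fun l => 2 / a i l) (fun l _ => h0 i l) (Finset.mem_univ j)
    have h2 : ∑ l, 2 / a i l ≤ ∑ k, ∑ l, 2 / a k l :=
      Finset.single_le_sum (f := fun k => ∑ l, 2 / a k l)
        (fun k _ => Finset.sum_nonneg fun l _ => h0 k l) (Finset.mem_univ i)
    linarith
  have hSb1 : ∀ i j, 2 / b i j ≤ Sb := by
    intro i j
    have h0 : ∀ k l, 0 ≤ 2 / b k l := fun k l => div_nonneg (by norm_num) (hb0 k l)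
    have h1 : 2 / b i j ≤ ∑ l, 2 / b i l :=
      Finset.single_le_sum (f := fun l => 2 / b i l) (fun l _ => h0 i l) (Finset.mem_univ j)
    have h2 : ∑ l, 2 / b i l ≤ ∑ k, ∑ l, 2 / b k l :=
      Finset.single_le_sum (f := fun k => ∑ l, 2 / b k l)
        (fun k _ => Finset.sum_nonneg fun l _ => h0 k l) (Finset.mem_univ i)
    linarith
  have hSa0 : 0 ≤ Sa := Finset.sum_nonneg fun i _ => Finset.sum_nonneg fun j _ =>
    div_nonneg (by norm_num) (ha0 i j)
  have hSb0 : 0 ≤ Sb := Finset.sum_nonneg fun i _ => Finset.sum_nonneg fun j _ =>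
    div_nonneg (by norm_num) (hb0 i j)
  refine ⟨2 * D, 1 + D * Sa + D * Sb, by linarith, ?_, ?_⟩
  · have h1 : 0 ≤ D * Sa := mul_nonneg (by linarith) hSa0
    have h2 : 0 ≤ D * Sb := mul_nonneg (by linarith) hSb0
    linarith
  intro N δ hδ
  set δ' : ℝ := min δ 1 with hδ'
  have hδ'0 : 0 < δ' := lt_min hδ one_pos
  have hδ'1 : δ' ≤ 1 := min_le_right _ _
  have hlH : 0 ≤ Real.log (1 + H) := Real.log_nonneg (by linarith)
  set M : ℝ := 2 + N + Sa + Sb + Real.log (1 + H) / (δ' / 4) with hM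
  have hN0 : (0 : ℝ) ≤ N := Nat.cast_nonneg N
  have hlH' : 0 ≤ Real.log (1 + H) / (δ' / 4) := div_nonneg hlH (by linarith)
  have hM1 : 1 ≤ M := by linarith
  obtain ⟨X₁, hX₁⟩ := growth M hM1
  obtain ⟨X₂, hX₂⟩ := log_yX' T (by linarith) (δ' / 4) (by linarith)
  refine ⟨max X₁ X₂, fun X hX => ?_⟩
  obtain ⟨h1, h2, -, -, -⟩ := hX₁ X ((le_max_left _ _).trans hX)
  have h3 := hX₂ X ((le_max_right _ _).trans hX)
  have hell : 1 ≤ ell X := hM1.trans h1
  have hlog : 1 ≤ Real.log X := hM1.trans h2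
  have hL0 : 0 ≤ Real.log X * ell X := mul_nonneg (by linarith) (by linarith)
  have hL1 : ell X ≤ Real.log X * ell X := le_mul_of_one_le_left (by linarith) hlog
  have hyT := yX_le X hL0 (show 0 ≤ T by linarith)
  have hyT' := le_yX X T
  set L : ℝ := Real.log X * ell X with hL
  have hLM : M ≤ L := h1.trans hL1
  have hY0 : ((yX T X + H : ℕ) : ℝ) ≤ D * L := by
    push_cast
    have : (H : ℝ) ≤ H * L := le_mul_of_one_le_right hH0 (hM1.trans hLM)
    rw [hDdef, add_mul]
    linarith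
  have hcut : ∀ t Sx : ℝ, 0 ≤ t → 2 / t ≤ Sx → Sx ≤ M → yX t X = 0 ∨
      ((yX T X + H : ℕ) : ℝ) ≤ (D * Sx) * yX t X := by
    intro t Sx ht hSx hSxM
    rcases eq_or_lt_of_le ht with h4 | h4
    · left
      rw [← h4]
      exact yX_zero X
    · right
      have h5 : 2 ≤ t * L := by
        have h6 : 2 / t ≤ L := hSx.trans (hSxM.trans hLM)
        rw [div_le_iff₀ h4] at h6
        linarith
      have h6 := le_yX X t
      have h7 : t * L / 2 ≤ (yX t X : ℝ) := by
        have : t * L - 1 ≤ (yX t X : ℝ) := h6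
        linarith
      have hL0' : 0 < L := by linarith
      calc ((yX T X + H : ℕ) : ℝ) ≤ D * L := hY0
        _ = (D * (2 / t)) * (t * L / 2) := by field_simp
        _ ≤ (D * Sx) * yX t X := by
            apply mul_le_mul
            · exact mul_le_mul_of_nonneg_left hSx (by linarith)
            · exact h7
            · linarith
            · have : 0 ≤ 2 / t := by positivity
              exact mul_nonneg (by linarith) (this.trans hSx)
  have hyT1 : 1 ≤ (yX T X : ℝ) := by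
    have h8 : T * L - 1 ≤ (yX T X : ℝ) := hyT'
    have h9 : L ≤ T * L := le_mul_of_one_le_left (by linarith) hT1
    linarith
  -- the logarithm of `Y`
  have hlogY1 : Real.log (yX T X) ≤ Real.log ((yX T X + H : ℕ) : ℝ) := by
    apply Real.log_le_log (by linarith)
    push_cast
    linarith
  have hlogY2 : Real.log ((yX T X + H : ℕ) : ℝ) ≤ Real.log (yX T X) + Real.log (1 + H) := by
    rw [← Real.log_mul (by linarith) (by linarith)]
    apply Real.log_le_log (by push_cast; linarith)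
    push_cast
    have h8 : (H : ℝ) ≤ (yX T X : ℝ) * H := le_mul_of_one_le_left hH0 hyT1
    rw [mul_add, mul_one]
    linarith
  have hlH2 : Real.log (1 + H) ≤ δ' / 4 * ell X := by
    have h4 : Real.log (1 + H) / (δ' / 4) ≤ ell X := by linarith
    rw [div_le_iff₀ (by linarith)] at h4
    linarith
  have h3' : |Real.log (yX T X) - ell X| ≤ δ' / 4 * ell X := h3
  rw [abs_le] at h3'
  have hdiff : |ell X - Real.log ((yX T X + H : ℕ) : ℝ)| ≤ δ' / 2 * ell X := by
    rw [abs_le]
    constructor <;> linarith [h3'.1, h3'.2]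
  have hdiff' := abs_le.1 hdiff
  have hlogY3 : ell X / 2 ≤ Real.log ((yX T X + H : ℕ) : ℝ) := by
    have : δ' / 2 * ell X ≤ ell X / 2 := by
      have h8 := mul_le_mul_of_nonneg_right hδ'1 (show 0 ≤ ell X by linarith)
      linarith
    linarith [hdiff'.2]
  have hlogY0 : 0 < Real.log ((yX T X + H : ℕ) : ℝ) := by linarith
  refine ⟨yX T X + H, ?_, ?_, ?_, ?_⟩
  · have h4 : (N : ℝ) ≤ (yX T X : ℝ) := by
      have h8 : T * L - 1 ≤ (yX T X : ℝ) := hyT'
      have h9 : L ≤ T * L := le_mul_of_one_le_left (by linarith) hT1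
      linarith
    have h5 : N ≤ yX T X := by exact_mod_cast h4
    omega
  · refine ⟨hinj, hH, ?_, ?_, ?_, ?_⟩
    · intro i j
      have := yX_mono X hL0 (hbT i j)
      show yX (b i j) X + H ≤ yX T X + H
      omega
    · intro i j
      rcases hcut (a i j) Sa (ha0 i j) (hSa1 i j) (by linarith) with h4 | h4
      · left; exact h4
      · right
        refine h4.trans ?_
        show D * Sa * (yX (a i j) X : ℝ) ≤ (1 + D * Sa + D * Sb) * (yX (a i j) X : ℝ)
        apply mul_le_mul_of_nonneg_right _ (Nat.cast_nonneg _)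
        have : 0 ≤ D * Sb := mul_nonneg (by linarith) hSb0
        linarith
    · intro i j
      rcases hcut (b i j) Sb (hb0 i j) (hSb1 i j) (by linarith) with h4 | h4
      · left; exact h4
      · right
        refine h4.trans ?_
        show D * Sb * (yX (b i j) X : ℝ) ≤ (1 + D * Sa + D * Sb) * (yX (b i j) X : ℝ)
        apply mul_le_mul_of_nonneg_right _ (Nat.cast_nonneg _)
        have : 0 ≤ D * Sa := mul_nonneg (by linarith) hSa0
        linarith
    · intro i
      refine ⟨fun j => yX_mono X hL0 (hab i j).2, fun j l hjl => ?_⟩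
      rcases hdis i j l hjl with h4 | h4
      · left; exact yX_mono X hL0 h4
      · right; exact yX_mono X hL0 h4
  · calc ((yX T X + H : ℕ) : ℝ) ≤ D * L := hY0
      _ = D * Real.log X * ell X := by rw [hL]; ring
      _ ≤ D * Real.log X * (2 * Real.log ((yX T X + H : ℕ) : ℝ)) := by
          apply mul_le_mul_of_nonneg_left _ (mul_nonneg (by linarith) (by linarith))
          linarith
      _ = 2 * D * Real.log X * Real.log ((yX T X + H : ℕ) : ℝ) := by ring
  · have e1 : ell X / Real.log ((yX T X + H : ℕ) : ℝ) - 1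
        = (ell X - Real.log ((yX T X + H : ℕ) : ℝ)) / Real.log ((yX T X + H : ℕ) : ℝ) := by
      field_simp
    rw [e1, abs_div, abs_of_pos hlogY0, div_le_iff₀ hlogY0]
    have h4 : δ' / 2 * ell X ≤ δ' * Real.log ((yX T X + H : ℕ) : ℝ) := by
      have h8 := mul_le_mul_of_nonneg_left hlogY3 hδ'0.le
      linarith
    have h5 : δ' * Real.log ((yX T X + H : ℕ) : ℝ) ≤ δ * Real.log ((yX T X + H : ℕ) : ℝ) :=
      mul_le_mul_of_nonneg_right (min_le_left _ _) hlogY0.le
    linarith

end Pool.Agent.Lib.MP_bae66e_nt.LP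
end
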