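import Pool.Agent.Lib.MP_bae66e_nt.Mg.G052
import Pool.Agent.Lib.MP_bae66e_nt.Mg.G043
import Pool.Agent.Lib.MP_bae66e_nt.LL.K.K08
import Pool.Agent.Lib.MP_bae66e_nt.Mg.G051

section

/-!
# LP/M2c: the second moment of the intensity
-/

set_option autoImplicit false

open Finset Filter Topology

namespace Pool.Agent.Lib.MP_bae66e_nt.LP

open Pool.Agent.Lib.MP_bae66e_nt.LL

private lemma M2c_aux1 (u v a b B T : ℝ) (hB : B = b - a) (h4 : v ≤ b * T)
    (h5 : a * T - 1 ≤ u) : v - u ≤ B * T + 1 := by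
  have : B * T = b * T - a * T := by rw [hB]; ring
  linarith

private lemma M2c_aux2 (Δ B T : ℝ) (h : Δ ≤ B * T + 1) (hT : 1 ≤ T) : Δ ≤ (B + 1) * T := by
  have : (B + 1) * T = B * T + T := by ring
  linarith

private lemma M2c_aux3 (x : ℝ) : (x + 1) ^ 2 ≤ 2 * x ^ 2 + 2 := by
  have h2 := sq_nonneg (x - 1)
  have h3 : (x + 1) ^ 2 = x ^ 2 + 2 * x + 1 := by ring
  have h4 : (x - 1) ^ 2 = x ^ 2 - 2 * x + 1 := by ring
  linarith


/-- The model on the window `(u, v]`. -/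
private noncomputable def M2c_g (W u v : ℕ) (n : ℤ) : ℝ :=
  if (u : ℤ) < n ∧ n ≤ (v : ℤ) then nu W n else 0

private lemma M2c_g_nonneg (W u v : ℕ) (n : ℤ) : 0 ≤ M2c_g W u v n := by
  unfold M2c_g
  split_ifs
  · exact nu_nonneg W n
  · exact le_rfl

private lemma M2c_g_le (W u v : ℕ) (n : ℤ) : M2c_g W u v n ≤ nu W n := by
  unfold M2c_g
  split_ifs
  · exact le_rfl
  · exact nu_nonneg W n

private lemma M2c_T_le (W u v : ℕ) (S : Finset ℤ) (q q' : ℤ) :
    ∑ m ∈ S, M2c_g W u v (m - q) * M2c_g W u v (m - q') ≤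
      ∑ n ∈ Finset.Ioc (u : ℤ) (v : ℤ), nu W n * nu W (n + (q - q')) := by
  classical
  have h1 : ∑ m ∈ S, M2c_g W u v (m - q) * M2c_g W u v (m - q') ≤
      ∑ m ∈ (Finset.Ioc (u : ℤ) (v : ℤ)).image (fun n => n + q),
        nu W (m - q) * nu W (m - q') := by
    calc ∑ m ∈ S, M2c_g W u v (m - q) * M2c_g W u v (m - q') =
          ∑ m ∈ S.filter (fun m => (u : ℤ) < m - q ∧ m - q ≤ (v : ℤ)),
            M2c_g W u v (m - q) * M2c_g W u v (m - q') := by
          rw [Finset.sum_filter]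
          refine Finset.sum_congr rfl fun m _ => ?_
          by_cases h : (u : ℤ) < m - q ∧ m - q ≤ (v : ℤ)
          · rw [if_pos h]
          · rw [if_neg h]
            have : M2c_g W u v (m - q) = 0 := by
              unfold M2c_g
              rw [if_neg h]
            rw [this, zero_mul]
      _ ≤ ∑ m ∈ S.filter (fun m => (u : ℤ) < m - q ∧ m - q ≤ (v : ℤ)),
            nu W (m - q) * nu W (m - q') := by
          refine Finset.sum_le_sum fun m _ => ?_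
          exact mul_le_mul (M2c_g_le W u v _) (M2c_g_le W u v _) (M2c_g_nonneg W u v _)
            (nu_nonneg W _)
      _ ≤ _ := by
          refine Finset.sum_le_sum_of_subset_of_nonneg ?_ fun m _ _ =>
            mul_nonneg (nu_nonneg W _) (nu_nonneg W _)
          intro m hm
          rw [Finset.mem_filter] at hm
          rw [Finset.mem_image]
          exact ⟨m - q, Finset.mem_Ioc.2 hm.2, by ring⟩
  refine h1.trans (le_of_eq ?_)
  rw [Finset.sum_image (fun x _ y _ h => by simpa using h)]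
  refine Finset.sum_congr rfl fun n _ => ?_
  congr 2 <;> ring

private lemma M2c_T_zero (W u v : ℕ) (q q' m : ℤ) (h : v - u < (q - q').natAbs)
    (huv : u ≤ v) : M2c_g W u v (m - q) * M2c_g W u v (m - q') = 0 := by
  unfold M2c_g
  by_cases h1 : (u : ℤ) < m - q ∧ m - q ≤ (v : ℤ)
  · by_cases h2 : (u : ℤ) < m - q' ∧ m - q' ≤ (v : ℤ)
    · exfalso
      omega
    · rw [if_neg h2, mul_zero]
  · rw [if_neg h1, zero_mul]

/-- The sum of the squares of the numerators. -/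
private lemma M2c_main (W : ℕ) (hW : Squarefree W) (X : ℕ) (hX : 2 ≤ X) (u v : ℕ) (huv : u ≤ v)
    (S : Finset ℤ) (C2 C3 : ℝ)
    (h2 : ∀ N : ℕ, ∑ n ∈ Finset.Icc 1 N, (1 / rho n) ^ 2 ≤ C2 * N)
    (h3 : ∀ N : ℕ, ∑ n ∈ Finset.Icc 1 N, (1 / rho n) ^ 3 ≤ C3 * N) :
    ∑ m ∈ S, (∑ q ∈ QQ 0 X, M2c_g W u v (m - q)) ^ 2 ≤
      ((QQ 0 X).card : ℝ) * (((v : ℝ) - u) * (W : ℝ) ^ 2) +
        4000 * X / (Real.log X) ^ 2 *
          (((v : ℝ) - u) * (C3 * ((v : ℝ) - u)) + 2 * (W : ℝ) ^ 3 * (C2 * ((v : ℝ) - u))) := by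
  classical
  have hW1 : 1 ≤ W := Nat.one_le_iff_ne_zero.2 hW.ne_zero
  have hWr : (0 : ℝ) < W := by exact_mod_cast hW1
  have hD : ((v - u : ℕ) : ℝ) = (v : ℝ) - u := by rw [Nat.cast_sub huv]
  have hD0 : (0 : ℝ) ≤ (v : ℝ) - u := by
    rw [← hD]
    exact Nat.cast_nonneg _
  have hrho : ∀ n : ℕ, 0 ≤ rho n := by
    intro n
    unfold rho
    refine Finset.prod_nonneg fun p hp => ?_
    have hp2 : (2 : ℝ) ≤ p := by exact_mod_cast (Nat.prime_of_mem_primeFactors hp).two_le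
    rw [sub_nonneg, div_le_one (by linarith)]
    linarith
  -- expand the square
  have e1 : ∑ m ∈ S, (∑ q ∈ QQ 0 X, M2c_g W u v (m - q)) ^ 2 =
      ∑ x ∈ QQ 0 X ×ˢ QQ 0 X,
        ∑ m ∈ S, M2c_g W u v (m - (x.1 : ℤ)) * M2c_g W u v (m - (x.2 : ℤ)) := by
    rw [Finset.sum_comm]
    refine Finset.sum_congr rfl fun m _ => ?_
    rw [pow_two, Finset.sum_mul_sum, Finset.sum_product]
  rw [e1, ← Finset.sum_filter_add_sum_filter_not (QQ 0 X ×ˢ QQ 0 X) (fun x => x.1 = x.2)]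
  refine add_le_add ?_ ?_
  · -- diagonal
    have h4 : ∀ x ∈ (QQ 0 X ×ˢ QQ 0 X).filter (fun x => x.1 = x.2),
        ∑ m ∈ S, M2c_g W u v (m - (x.1 : ℤ)) * M2c_g W u v (m - (x.2 : ℤ)) ≤
          ((v : ℝ) - u) * (W : ℝ) ^ 2 := by
      intro x _
      refine (M2c_T_le W u v S x.1 x.2).trans ?_
      calc ∑ n ∈ Finset.Ioc (u : ℤ) (v : ℤ), nu W n * nu W (n + ((x.1 : ℤ) - x.2)) ≤
            ∑ _n ∈ Finset.Ioc (u : ℤ) (v : ℤ), (W : ℝ) * W := by
            refine Finset.sum_le_sum fun n _ => ?_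
            exact mul_le_mul (nu_le W hW1 n) (nu_le W hW1 _) (nu_nonneg W _) hWr.le
        _ = ((v : ℝ) - u) * (W : ℝ) ^ 2 := by
            rw [Finset.sum_const, Int.card_Ioc, nsmul_eq_mul]
            have : ((v : ℤ) - u).toNat = v - u := by omega
            rw [this, hD]
            ring
    refine (Finset.sum_le_card_nsmul _ _ _ h4).trans ?_
    rw [nsmul_eq_mul]
    refine mul_le_mul_of_nonneg_right ?_ (by positivity)
    have h5 : ((QQ 0 X ×ˢ QQ 0 X).filter (fun x => x.1 = x.2)).card ≤ (QQ 0 X).card := by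
      refine Finset.card_le_card_of_injOn (fun x => x.1) ?_ ?_
      · intro x hx
        simp only [Finset.coe_filter, Finset.mem_product, Set.mem_ofPred_eq] at hx
        exact hx.1.1
      · rintro ⟨a, b⟩ hx ⟨a', b'⟩ hy h
        simp only [Finset.coe_filter, Set.mem_ofPred_eq] at hx hy
        have := hx.2
        have := hy.2
        simp only at h
        simp only [Prod.mk.injEq]
        omega
    exact_mod_cast h5
  · -- off the diagonal
    set c : ℕ → ℝ := fun d => ((v : ℝ) - u) / rho d + 2 * (W : ℝ) ^ 3 with hc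
    have hc0 : ∀ d, 0 ≤ c d := by
      intro d
      have := hrho d
      simp only [hc]
      positivity
    have h4 : ∑ x ∈ (QQ 0 X ×ˢ QQ 0 X).filter (fun x => ¬ x.1 = x.2),
        ∑ m ∈ S, M2c_g W u v (m - (x.1 : ℤ)) * M2c_g W u v (m - (x.2 : ℤ)) ≤
        ∑ x ∈ (QQ 0 X ×ˢ QQ 0 X).filter
          (fun x => x.1 ≠ x.2 ∧ ((x.1 : ℤ) - x.2).natAbs ≤ v - u),
          c ((x.1 : ℤ) - x.2).natAbs := by
      have h5 : (QQ 0 X ×ˢ QQ 0 X).filter
          (fun x => x.1 ≠ x.2 ∧ ((x.1 : ℤ) - x.2).natAbs ≤ v - u) =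
          ((QQ 0 X ×ˢ QQ 0 X).filter (fun x => ¬ x.1 = x.2)).filter
          (fun x => ((x.1 : ℤ) - x.2).natAbs ≤ v - u) := by
        rw [Finset.filter_filter]
      rw [h5, Finset.sum_filter (fun x : ℕ × ℕ => ((x.1 : ℤ) - x.2).natAbs ≤ v - u)]
      refine Finset.sum_le_sum fun x hx => ?_
      rw [Finset.mem_filter] at hx
      by_cases h6 : ((x.1 : ℤ) - x.2).natAbs ≤ v - u
      · rw [if_pos h6]
        refine (M2c_T_le W u v S x.1 x.2).trans ?_
        have h7 := sum_nu_nu_le W hW u v huv ((x.1 : ℤ) - x.2) (by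
          have := hx.2
          omega)
        exact h7
      · rw [if_neg h6]
        refine le_of_eq (Finset.sum_eq_zero fun m _ => ?_)
        exact M2c_T_zero W u v x.1 x.2 m (by omega) huv
    refine h4.trans ((sum_pairs_le X (v - u) c hc0).trans ?_)
    have h5 : ∀ d ∈ Finset.Icc 1 (v - u), ((pairsN d X).card : ℝ) * c d ≤
        2000 * X / (Real.log X) ^ 2 *
          (((v : ℝ) - u) * (1 / rho d) ^ 3 + 2 * (W : ℝ) ^ 3 * (1 / rho d) ^ 2) := by
      intro d hd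
      rw [Finset.mem_Icc] at hd
      have h6 := card_pairsN_le d X hd.1 hX
      have h7 := mul_le_mul_of_nonneg_right h6 (hc0 d)
      refine h7.trans (le_of_eq ?_)
      simp only [hc]
      by_cases hz : rho d = 0
      · rw [hz]
        simp
      · by_cases hl : Real.log X = 0
        · rw [hl]
          simp
        · field_simp
    calc 2 * ∑ d ∈ Finset.Icc 1 (v - u), ((pairsN d X).card : ℝ) * c d ≤
          2 * ∑ d ∈ Finset.Icc 1 (v - u), 2000 * X / (Real.log X) ^ 2 *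
          (((v : ℝ) - u) * (1 / rho d) ^ 3 + 2 * (W : ℝ) ^ 3 * (1 / rho d) ^ 2) := by
          have := Finset.sum_le_sum h5
          linarith
      _ = 4000 * X / (Real.log X) ^ 2 *
          (((v : ℝ) - u) * (∑ d ∈ Finset.Icc 1 (v - u), (1 / rho d) ^ 3) +
            2 * (W : ℝ) ^ 3 * ∑ d ∈ Finset.Icc 1 (v - u), (1 / rho d) ^ 2) := by
          rw [← Finset.mul_sum, Finset.sum_add_distrib, ← Finset.mul_sum, ← Finset.mul_sum]
          ring
      _ ≤ _ := by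
          have h8 := h2 (v - u)
          have h9 := h3 (v - u)
          rw [hD] at h8 h9
          gcongr

/-- Second moment over every finite set `S`: with an absolute `K`,
`∑_{m ∈ S} Lam a b m² ≤ (K (b - a)² + δ) X`, `W` squarefree.

PROOF. Expand the square; for a pair `q, q'` of primes the sum over all integers `m` of
`nu W (m - q) nu W (m - q')`, both in the window, is at most `∑_{u < n ≤ v} nu W n nu W (n + q - q')`
(`n = m - q`), and `0` if `|q - q'| > v - u`. Diagonal: `#QQ (v - u) W² / ell² ≤ (δ/3) X`. Off the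
diagonal, `sum_nu_nu_le`, `sum_pairs_le` and `card_pairsN_le` (`≤ 2000 X/(ρ(d) log X)²`):
`(2/ell²) ∑_{d ≤ v - u} 2000 X/(ρ(d)² log² X) ((v - u)/ρ(d) + 2 W³)`, with
`∑_{d ≤ D} ρ(d)^{-3} ≤ C D` (`sum_inv_rho_pow_le`), `v - u ≤ (b - a) L + 1`. -/
theorem second_moment_Lam : ∃ K : ℝ, 1 ≤ K ∧ ∀ W : ℕ, Squarefree W → ∀ a b : ℝ, 0 ≤ a → a ≤ b →
    ∀ δ : ℝ, 0 < δ → ∃ X₀ : ℕ, ∀ X : ℕ, X₀ ≤ X → ∀ S : Finset ℤ,
      ∑ m ∈ S, (Lam W X a b m) ^ 2 ≤ (K * (b - a) ^ 2 + δ) * X := by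
  classical
  obtain ⟨C2, hC2, h2⟩ := sum_inv_rho_pow_le 2
  obtain ⟨C3, hC3, h3⟩ := sum_inv_rho_pow_le 3
  refine ⟨8000 * C3, by linarith, ?_⟩
  intro W hW a b ha hab δ hδ
  have hW1 : 1 ≤ W := Nat.one_le_iff_ne_zero.2 hW.ne_zero
  have hWr : (1 : ℝ) ≤ W := by exact_mod_cast hW1
  set B := b - a with hB
  have hB0 : 0 ≤ B := by rw [hB]; linarith
  set E : ℝ := 5 * (W : ℝ) ^ 2 * (B + 1) + 8000 * C3 + 8000 * (W : ℝ) ^ 3 * C2 * (B + 1) with hE
  have hE0 : 0 ≤ E := by positivity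
  obtain ⟨X₀, hX₀⟩ := growth (16 + E / δ) (by
    have : 0 ≤ E / δ := by positivity
    linarith)
  refine ⟨X₀, fun X hX S => ?_⟩
  obtain ⟨g1, g2, -, -, g5⟩ := hX₀ X hX
  have hEδ : 0 ≤ E / δ := by positivity
  set l := ell X with hl
  set M := Real.log X with hM
  have hl1 : 16 ≤ l := by linarith
  have hM1 : 16 ≤ M := by linarith
  have hl0 : 0 < l := by linarith
  have hM0 : 0 < M := by linarith
  have hlM : 0 ≤ M * l := by positivity
  have hX16 : 16 ≤ X := by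
    have : (16 : ℝ) ≤ X := by linarith
    exact_mod_cast this
  have hXr : (0 : ℝ) < X := by
    have : (16 : ℝ) ≤ X := by linarith
    linarith
  set u := yX a X with hu
  set v := yX b X with hv
  have huv : u ≤ v := yX_mono X hlM hab
  have hvu : (v : ℝ) - u ≤ B * (M * l) + 1 := by
    have h4 := yX_le X hlM (ha.trans hab)
    have h5 := le_yX X a
    exact M2c_aux1 _ _ _ _ _ (M * l) hB h4 h5
  have hvu0 : (0 : ℝ) ≤ (v : ℝ) - u := by
    rw [sub_nonneg]
    exact_mod_cast huv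
  have hLam : ∀ m, Lam W X a b m = (∑ q ∈ QQ 0 X, M2c_g W u v (m - q)) / l := by
    intro m
    unfold Lam Wd
    rw [Finset.sum_filter]
    rfl
  have e1 : ∑ m ∈ S, (Lam W X a b m) ^ 2 =
      (∑ m ∈ S, (∑ q ∈ QQ 0 X, M2c_g W u v (m - q)) ^ 2) / l ^ 2 := by
    rw [Finset.sum_div]
    refine Finset.sum_congr rfl fun m _ => ?_
    rw [hLam m, div_pow]
  have hmain := M2c_main W hW X (by omega) u v huv S C2 C3 h2 h3
  have hcard := (card_QQ_bounds X hX16).2
  rw [e1, div_le_iff₀ (by positivity)]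
  refine hmain.trans ?_
  -- the size of `δ`
  have hEl : E ≤ δ * l := by
    have : E / δ ≤ l := by linarith
    rw [div_le_iff₀ hδ] at this
    linarith
  have hL : (v : ℝ) - u ≤ (B + 1) * (M * l) :=
    M2c_aux2 _ _ _ hvu (one_le_mul_of_one_le_of_one_le (by linarith) (by linarith))
  have t1 : ((QQ 0 X).card : ℝ) * (((v : ℝ) - u) * (W : ℝ) ^ 2) ≤
      (5 * (W : ℝ) ^ 2 * (B + 1)) * l * X := by
    calc ((QQ 0 X).card : ℝ) * (((v : ℝ) - u) * (W : ℝ) ^ 2) ≤
          (5 * X / M) * (((B + 1) * (M * l)) * (W : ℝ) ^ 2) := by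
          gcongr
      _ = (5 * (W : ℝ) ^ 2 * (B + 1)) * l * X := by
          field_simp
  have t2 : 4000 * X / M ^ 2 * (((v : ℝ) - u) * (C3 * ((v : ℝ) - u))) ≤
      8000 * C3 * B ^ 2 * l ^ 2 * X + 8000 * C3 * X := by
    have h4 : ((v : ℝ) - u) * (C3 * ((v : ℝ) - u)) ≤ C3 * (2 * (B * (M * l)) ^ 2 + 2) := by
      have h5 : ((v : ℝ) - u) ^ 2 ≤ (B * (M * l) + 1) ^ 2 := by
        gcongr
      have h6 : (B * (M * l) + 1) ^ 2 ≤ 2 * (B * (M * l)) ^ 2 + 2 := by
        exact M2c_aux3 _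
      calc ((v : ℝ) - u) * (C3 * ((v : ℝ) - u)) = C3 * ((v : ℝ) - u) ^ 2 := by ring
        _ ≤ C3 * (2 * (B * (M * l)) ^ 2 + 2) := by
            gcongr
            linarith
    calc 4000 * X / M ^ 2 * (((v : ℝ) - u) * (C3 * ((v : ℝ) - u))) ≤
          4000 * X / M ^ 2 * (C3 * (2 * (B * (M * l)) ^ 2 + 2)) := by
          gcongr
      _ = 8000 * C3 * B ^ 2 * l ^ 2 * X + 8000 * C3 * X / M ^ 2 := by
          field_simp
          ring
      _ ≤ 8000 * C3 * B ^ 2 * l ^ 2 * X + 8000 * C3 * X := by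
          have h7 : 8000 * C3 * X / M ^ 2 ≤ 8000 * C3 * X := by
            exact div_le_self (by positivity) (one_le_pow₀ (by linarith))
          linarith
  have t3 : 4000 * X / M ^ 2 * (2 * (W : ℝ) ^ 3 * (C2 * ((v : ℝ) - u))) ≤
      8000 * (W : ℝ) ^ 3 * C2 * (B + 1) * l * X := by
    calc 4000 * X / M ^ 2 * (2 * (W : ℝ) ^ 3 * (C2 * ((v : ℝ) - u))) ≤
          4000 * X / M ^ 2 * (2 * (W : ℝ) ^ 3 * (C2 * ((B + 1) * (M * l)))) := by
          gcongr
      _ = 8000 * (W : ℝ) ^ 3 * C2 * (B + 1) * l * X / M := by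
          field_simp
          ring
      _ ≤ 8000 * (W : ℝ) ^ 3 * C2 * (B + 1) * l * X := by
          refine div_le_self (by positivity) (by linarith)
  have t4 : 8000 * C3 * (X : ℝ) ≤ 8000 * C3 * l * X := by
    have : (1 : ℝ) ≤ l := by linarith
    have h8 : 0 ≤ 8000 * C3 * (X : ℝ) := by positivity
    have h9 : 8000 * C3 * l * (X : ℝ) = 8000 * C3 * (X : ℝ) * l := by ring
    rw [h9]
    exact le_mul_of_one_le_right h8 this
  have t5 : E * l * X ≤ δ * l ^ 2 * X := by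
    have h9 : E * l ≤ δ * l * l := mul_le_mul_of_nonneg_right hEl hl0.le
    have h10 := mul_le_mul_of_nonneg_right h9 hXr.le
    have h11 : δ * l ^ 2 * (X : ℝ) = δ * l * l * X := by ring
    rw [h11]
    exact h10
  have e2 : 4000 * X / M ^ 2 * (((v : ℝ) - u) * (C3 * ((v : ℝ) - u)) +
      2 * (W : ℝ) ^ 3 * (C2 * ((v : ℝ) - u))) =
      4000 * X / M ^ 2 * (((v : ℝ) - u) * (C3 * ((v : ℝ) - u))) +
      4000 * X / M ^ 2 * (2 * (W : ℝ) ^ 3 * (C2 * ((v : ℝ) - u))) := by ring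
  rw [e2]
  have e3 : E * l * X = (5 * (W : ℝ) ^ 2 * (B + 1)) * l * X + 8000 * C3 * l * X +
      8000 * (W : ℝ) ^ 3 * C2 * (B + 1) * l * X := by
    rw [hE]
    ring
  have e4 : (8000 * C3 * B ^ 2 + δ) * (X : ℝ) * l ^ 2 = 8000 * C3 * B ^ 2 * l ^ 2 * X +
      δ * l ^ 2 * X := by ring
  rw [e4]
  linarith

end Pool.Agent.Lib.MP_bae66e_nt.LP
end

section

end
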