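import Pool.Agent.Lib.MP_bae66e_nt.Mg.G054
import Pool.Agent.Lib.MP_bae66e_nt.Mg.G053
import Pool.Agent.Lib.MP_bae66e_nt.Mg.G046
import Pool.Agent.Lib.MP_bae66e_nt.Mg.G041

section

/-!
# LP/R1a: the intensity of one class is almost constant on average
-/

set_option autoImplicit false

open Finset Filter Topology

namespace Pool.Agent.Lib.MP_bae66e_nt.LP

open Pool.Agent.Lib.MP_bae66e_nt.LL

/-- The primes `> w₁` of the model: for `k = 1` in `abs_SS_sub_one_le`: if all prime factors of `W₁`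
are `> w₁ ≥ 4` and `d ≥ 1`, then `|SS W₁ ![0, d] - 1| ≤ (4/w₁ + 4 sig w₁ d) ρ(d)^{-4}` (and the same
for `![0, -d]`). -/
lemma abs_SS_pair_sub_one_le (W₁ w₁ : ℕ) (hw : 4 ≤ w₁) (hW : ∀ p ∈ W₁.primeFactors, w₁ < p) (d : ℤ)
    (hd : d ≠ 0) :
    |SS W₁ (![0, d] : Fin 2 → ℤ) - 1|
      ≤ (4 / (w₁ : ℝ) + 4 * sig w₁ d.natAbs) * (1 / rho d.natAbs) ^ 4 := by
  have e0 : hh (![d] : Fin 1 → ℤ) = (![0, d] : Fin 2 → ℤ) := rfl
  have hinj : Function.Injective (hh (![d] : Fin 1 → ℤ)) := by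
    intro a b hab
    rw [e0] at hab
    fin_cases a <;> fin_cases b
    · rfl
    · exact absurd hab.symm (by simpa using hd)
    · exact absurd hab (by simpa using hd)
    · rfl
  have h1 := abs_SS_sub_one_le (k := 1) W₁ w₁ (by omega) hW ![d] hinj
  have hI0 : Finset.Ioi (0 : Fin (1 + 1)) = {1} := by decide
  have hI1 : Finset.Ioi (1 : Fin (1 + 1)) = ∅ := by decide
  have e1 : ∑ i : Fin (1 + 1), ∑ l ∈ Finset.Ioi i, sig w₁ (hh ![d] i - hh ![d] l).natAbs =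
      sig w₁ d.natAbs := by
    rw [Fin.sum_univ_two]
    rw [hI0, hI1, Finset.sum_singleton, Finset.sum_empty, add_zero, e0]
    have : ((![0, d] : Fin 2 → ℤ) 0 - (![0, d] : Fin 2 → ℤ) 1).natAbs = d.natAbs := by
      simp
    exact congrArg (sig w₁) this
  have e2 : FF (2 * (1 + 1)) (![d] : Fin 1 → ℤ) = (1 / rho d.natAbs) ^ 4 := by
    unfold FF
    rw [Fin.prod_univ_two]
    rw [hI0, hI1, Finset.prod_singleton, Finset.prod_empty, mul_one, e0]
    have : ((![0, d] : Fin 2 → ℤ) 0 - (![0, d] : Fin 2 → ℤ) 1).natAbs = d.natAbs := by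
      simp
    exact congrArg (fun n => (1 / rho n) ^ 4) this
  rw [e1, e2, e0] at h1
  refine h1.trans (le_of_eq ?_)
  push_cast
  ring

private lemma R1a_sum_nu (W₁ : ℕ) (h1 : 1 ≤ W₁) (d : ℤ) :
    ∑ c ∈ Finset.range W₁, nu W₁ ((c : ℤ) + d) = W₁ := by
  have h := sum_nu_class W₁ h1 (-d)
  simpa [sub_neg_eq_add] using h

/-- The covariance of `nu W₁ - 1` at distance `d` in a class modulo `W₀` (coprime to `W₁`), on an
interval: for squarefree `W₁`, `α ≤ β + 1`,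
`|∑_{n ∈ [α, β], n ≡ b (W₀)} (nu W₁ n - 1)(nu W₁ (n + d) - 1)
  - (β - α + 1)/W₀ (SS W₁ ![0, -d] - 1)| ≤ 4 W₁³`.

PROOF. `abs_sum_class_sub_le` for `f(n) = (nu W₁ n - 1)(nu W₁ (n + d) - 1)`, `|f| ≤ W₁²` (as
`0 ≤ nu ≤ W₁`, `W₁ ≥ 1`), periodic modulo `W₁` with period sum
`∑ nu nu - ∑ nu - ∑ nu + W₁ = W₁ SS W₁ ![0, -d] - W₁` (`sum_nu_eq_SS` for `![0, -d]`,
`sum_nu_class`). -/
lemma covariance (W₀ W₁ : ℕ) (h0 : 1 ≤ W₀) (h1 : Squarefree W₁) (hc : Nat.Coprime W₀ W₁)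
    (b d α β : ℤ) (hαβ : α ≤ β + 1) :
    |(∑ n ∈ (Finset.Icc α β).filter (fun n => n ≡ b [ZMOD (W₀ : ℤ)]),
        (nu W₁ n - 1) * (nu W₁ (n + d) - 1))
      - ((β - α + 1 : ℤ) : ℝ) / W₀ * (SS W₁ (![0, -d] : Fin 2 → ℤ) - 1)| ≤ 4 * (W₁ : ℝ) ^ 3 := by
  have hW1 : 1 ≤ W₁ := Nat.one_le_iff_ne_zero.2 h1.ne_zero
  have hW1R : (1 : ℝ) ≤ W₁ := by exact_mod_cast hW1
  have hW0R : (1 : ℝ) ≤ W₀ := by exact_mod_cast h0
  have hnu : ∀ n, |nu W₁ n - 1| ≤ W₁ := by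
    intro n
    have a1 := nu_nonneg W₁ n
    have a2 := nu_le W₁ hW1 n
    rw [abs_le]
    constructor <;> linarith
  have h2 := abs_sum_class_sub_le W₀ W₁ h0 hW1 hc
    (fun n => (nu W₁ n - 1) * (nu W₁ (n + d) - 1)) ?_ ((W₁ : ℝ) ^ 2) ?_ b α β hαβ
  · have h3 : ∑ c ∈ Finset.range W₁, (nu W₁ (c : ℤ) - 1) * (nu W₁ ((c : ℤ) + d) - 1) =
        W₁ * (SS W₁ (![0, -d] : Fin 2 → ℤ) - 1) := by
      have h4 := sum_nu_eq_SS W₁ h1 (![0, -d] : Fin 2 → ℤ)
      have h5 : ∀ c ∈ Finset.range W₁, ∏ i, nu W₁ ((c : ℤ) - (![0, -d] : Fin 2 → ℤ) i) =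
          nu W₁ (c : ℤ) * nu W₁ ((c : ℤ) + d) := by
        intro c _
        rw [Fin.prod_univ_two]
        simp [sub_neg_eq_add]
      rw [Finset.sum_congr rfl h5] at h4
      have h6 := R1a_sum_nu W₁ hW1 0
      have h7 := R1a_sum_nu W₁ hW1 d
      simp only [add_zero] at h6
      have h8 : ∀ c ∈ Finset.range W₁, (nu W₁ (c : ℤ) - 1) * (nu W₁ ((c : ℤ) + d) - 1) =
          nu W₁ (c : ℤ) * nu W₁ ((c : ℤ) + d) - nu W₁ (c : ℤ) - nu W₁ ((c : ℤ) + d) + 1 := by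
        intro c _
        ring
      rw [Finset.sum_congr rfl h8, Finset.sum_add_distrib, Finset.sum_sub_distrib,
        Finset.sum_sub_distrib, h4, h6, h7]
      simp
      ring
    have h9 : ((β - α + 1 : ℤ) : ℝ) / (W₀ * W₁) *
        (W₁ * (SS W₁ (![0, -d] : Fin 2 → ℤ) - 1)) =
        ((β - α + 1 : ℤ) : ℝ) / W₀ * (SS W₁ (![0, -d] : Fin 2 → ℤ) - 1) := by
      have : (W₁ : ℝ) ≠ 0 := by positivity
      have : (W₀ : ℝ) ≠ 0 := by positivity
      field_simp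
    have h10 := h2
    rw [h3, h9] at h10
    refine h10.trans (le_of_eq ?_)
    ring
  · intro n m hnm
    show (nu W₁ n - 1) * (nu W₁ (n + d) - 1) = (nu W₁ m - 1) * (nu W₁ (m + d) - 1)
    rw [nu_periodic W₁ n m hnm, nu_periodic W₁ (n + d) (m + d) (hnm.add_right d)]
  · intro n
    show |(nu W₁ n - 1) * (nu W₁ (n + d) - 1)| ≤ (W₁ : ℝ) ^ 2
    rw [abs_mul, pow_two]
    exact mul_le_mul (hnu n) (hnu _) (abs_nonneg _) (by linarith)

/-- `nu W n = (W₀/φ(W₀)) nu W₁ n` if `W = W₀ W₁` (coprime) and `n` is coprime to `W₀` (`nu_mul`). -/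
lemma nu_eq_of_coprime (W₀ W₁ : ℕ) (hc : Nat.Coprime W₀ W₁) (n : ℤ) (hn : IsCoprime n (W₀ : ℤ)) :
    nu (W₀ * W₁) n = (W₀ : ℝ) / (Nat.totient W₀ : ℝ) * nu W₁ n := by
  rw [nu_mul W₀ W₁ hc]
  congr 1
  unfold nu
  rw [if_pos hn]

end Pool.Agent.Lib.MP_bae66e_nt.LP
end

section

/-!
# LP/R1b: the intensity of one class is almost constant on average
-/

set_option autoImplicit false

open Finset Filter Topology

namespace Pool.Agent.Lib.MP_bae66e_nt.LP

open Pool.Agent.Lib.MP_bae66e_nt.LL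

/-- The function `nu W₁ - 1` on the window `(u, v]` and the class of `g - r`. -/
private noncomputable def R1b_F (W₀ W₁ u v : ℕ) (t : ℤ) (n : ℤ) : ℝ :=
  if (u : ℤ) < n ∧ n ≤ (v : ℤ) ∧ (W₀ : ℤ) ∣ n - t then nu W₁ n - 1 else 0

private lemma R1b_abs_le (W₁ : ℕ) (hW : 1 ≤ W₁) (n : ℤ) : |nu W₁ n - 1| ≤ W₁ := by
  have h1 := nu_nonneg W₁ n
  have h2 := nu_le W₁ hW n
  have h3 : (1 : ℝ) ≤ W₁ := by exact_mod_cast hW
  rw [abs_le]
  constructor <;> linarith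

private lemma R1b_F_abs_le (W₀ W₁ u v : ℕ) (hW : 1 ≤ W₁) (t n : ℤ) :
    |R1b_F W₀ W₁ u v t n| ≤ W₁ := by
  unfold R1b_F
  split_ifs
  · exact R1b_abs_le W₁ hW n
  · rw [abs_zero]
    exact Nat.cast_nonneg _

private lemma R1b_F_zero (W₀ W₁ u v : ℕ) (t n : ℤ) (h : ¬ ((u : ℤ) < n ∧ n ≤ (v : ℤ))) :
    R1b_F W₀ W₁ u v t n = 0 := by
  unfold R1b_F
  rw [if_neg]
  tauto

/-- The covariance sum as a sum over the window. -/
private lemma R1b_pair (W₀ W₁ u v X : ℕ) (t g : ℤ) (q q' : ℕ) (hq : 0 < q ∧ q ≤ X)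
    (S : Finset ℤ) (hS : Finset.Icc ((u : ℤ) - g) ((v : ℤ) + X - g) ⊆ S) :
    ∑ m ∈ S, R1b_F W₀ W₁ u v t (m + g - q) * R1b_F W₀ W₁ u v t (m + g - q') =
      ∑ n ∈ Finset.Ioc (u : ℤ) (v : ℤ),
        R1b_F W₀ W₁ u v t n * R1b_F W₀ W₁ u v t (n + ((q : ℤ) - q')) := by
  classical
  have h1 : ∑ n ∈ Finset.Ioc (u : ℤ) (v : ℤ),
      R1b_F W₀ W₁ u v t n * R1b_F W₀ W₁ u v t (n + ((q : ℤ) - q')) =
      ∑ m ∈ (Finset.Ioc (u : ℤ) (v : ℤ)).image (fun n => n + q - g),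
        R1b_F W₀ W₁ u v t (m + g - q) * R1b_F W₀ W₁ u v t (m + g - q') := by
    rw [Finset.sum_image (fun x _ y _ h => by simpa using h)]
    refine Finset.sum_congr rfl fun n _ => ?_
    congr 2 <;> ring
  rw [h1]
  symm
  refine Finset.sum_subset ?_ ?_
  · intro m hm
    rw [Finset.mem_image] at hm
    obtain ⟨n, hn, rfl⟩ := hm
    rw [Finset.mem_Ioc] at hn
    refine hS (Finset.mem_Icc.2 ?_)
    omega
  · intro m _ hm
    rw [R1b_F_zero, zero_mul]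
    intro h
    exact hm (Finset.mem_image.2 ⟨m + g - q, Finset.mem_Ioc.2 h, by ring⟩)

/-- The bound for one pair. -/
private lemma R1b_cov (W₀ W₁ u v : ℕ) (h0 : 1 ≤ W₀) (h1 : Squarefree W₁)
    (hc : Nat.Coprime W₀ W₁) (huv : u ≤ v) (t d : ℤ) (hd : d ≠ 0) :
    ∑ n ∈ Finset.Ioc (u : ℤ) (v : ℤ), R1b_F W₀ W₁ u v t n * R1b_F W₀ W₁ u v t (n + d) ≤
      if d.natAbs ≤ v - u then (if W₀ ∣ d.natAbs then (((v : ℝ) - u) / W₀
        * max |SS W₁ (![0, (d.natAbs : ℤ)] : Fin 2 → ℤ) - 1|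
          |SS W₁ (![0, -(d.natAbs : ℤ)] : Fin 2 → ℤ) - 1| + 4 * (W₁ : ℝ) ^ 3) else 0) else 0 := by
  classical
  have hzero : ¬ (d.natAbs ≤ v - u ∧ W₀ ∣ d.natAbs) →
      ∑ n ∈ Finset.Ioc (u : ℤ) (v : ℤ), R1b_F W₀ W₁ u v t n * R1b_F W₀ W₁ u v t (n + d) = 0 := by
    intro h
    refine Finset.sum_eq_zero fun n _ => ?_
    unfold R1b_F
    by_cases h2 : (u : ℤ) < n ∧ n ≤ (v : ℤ) ∧ (W₀ : ℤ) ∣ n - t
    · by_cases h3 : (u : ℤ) < n + d ∧ n + d ≤ (v : ℤ) ∧ (W₀ : ℤ) ∣ n + d - t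
      · exfalso
        refine h ⟨by omega, ?_⟩
        have h4 : (W₀ : ℤ) ∣ d := by
          have h5 := dvd_sub h3.2.2 h2.2.2
          have h6 : n + d - t - (n - t) = d := by ring
          rwa [h6] at h5
        exact Int.natCast_dvd.1 h4
      · rw [if_neg h3, mul_zero]
    · rw [if_neg h2, zero_mul]
  by_cases hA : d.natAbs ≤ v - u
  · rw [if_pos hA]
    by_cases hB : W₀ ∣ d.natAbs
    · rw [if_pos hB]
      have hBd : (W₀ : ℤ) ∣ d := Int.natCast_dvd.2 hB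
      set α : ℤ := max ((u : ℤ) + 1) ((u : ℤ) + 1 - d) with hα
      set β : ℤ := min (v : ℤ) ((v : ℤ) - d) with hβ
      have hlen : β - α + 1 = (v : ℤ) - u - d.natAbs := by
        rw [hα, hβ]
        omega
      have hαβ : α ≤ β + 1 := by omega
      have e1 : ∑ n ∈ Finset.Ioc (u : ℤ) (v : ℤ),
          R1b_F W₀ W₁ u v t n * R1b_F W₀ W₁ u v t (n + d) =
          ∑ n ∈ (Finset.Icc α β).filter (fun n => n ≡ t [ZMOD (W₀ : ℤ)]),
            (nu W₁ n - 1) * (nu W₁ (n + d) - 1) := by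
        have e2 : (Finset.Icc α β).filter (fun n => n ≡ t [ZMOD (W₀ : ℤ)]) =
            (Finset.Ioc (u : ℤ) (v : ℤ)).filter (fun n => ((u : ℤ) < n ∧ n ≤ (v : ℤ) ∧
              (W₀ : ℤ) ∣ n - t) ∧ ((u : ℤ) < n + d ∧ n + d ≤ (v : ℤ) ∧
              (W₀ : ℤ) ∣ n + d - t)) := by
          ext n
          simp only [Finset.mem_filter, Finset.mem_Icc, Finset.mem_Ioc]
          have e3 : n ≡ t [ZMOD (W₀ : ℤ)] ↔ (W₀ : ℤ) ∣ n - t := by
            rw [Int.modEq_iff_dvd, ← dvd_neg, neg_sub]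
          rw [e3]
          constructor
          · rintro ⟨⟨h2, h3⟩, h4⟩
            have h5 : (W₀ : ℤ) ∣ n + d - t := by
              have h6 := dvd_add h4 hBd
              have h7 : n - t + d = n + d - t := by ring
              rwa [h7] at h6
            rw [hα] at h2
            rw [hβ] at h3
            exact ⟨⟨by omega, by omega⟩, ⟨by omega, by omega, h4⟩, ⟨by omega, by omega, h5⟩⟩
          · rintro ⟨⟨h2, h3⟩, ⟨h4, h5, h6⟩, ⟨h7, h8, h9⟩⟩
            refine ⟨⟨?_, ?_⟩, h6⟩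
            · rw [hα]
              omega
            · rw [hβ]
              omega
        rw [e2, Finset.sum_filter]
        refine Finset.sum_congr rfl fun n _ => ?_
        unfold R1b_F
        by_cases h2 : (u : ℤ) < n ∧ n ≤ (v : ℤ) ∧ (W₀ : ℤ) ∣ n - t
        · by_cases h3 : (u : ℤ) < n + d ∧ n + d ≤ (v : ℤ) ∧ (W₀ : ℤ) ∣ n + d - t
          · rw [if_pos h2, if_pos h3, if_pos ⟨h2, h3⟩]
          · rw [if_neg h3, mul_zero, if_neg (fun h => h3 h.2)]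
        · rw [if_neg h2, zero_mul, if_neg (fun h => h2 h.1)]
      rw [e1]
      have h2 := covariance W₀ W₁ h0 h1 hc t d α β hαβ
      have h3 := (abs_le.1 h2).2
      have h0r : (0 : ℝ) < W₀ := by exact_mod_cast h0
      have hlen' : ((β - α + 1 : ℤ) : ℝ) ≤ (v : ℝ) - u := by
        rw [hlen]
        push_cast
        have : (0 : ℝ) ≤ |(d : ℝ)| := abs_nonneg _
        linarith
      have hlen0 : (0 : ℝ) ≤ ((β - α + 1 : ℤ) : ℝ) := by
        have : (0 : ℤ) ≤ β - α + 1 := by omega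
        exact_mod_cast this
      have hmax : |SS W₁ (![0, -d] : Fin 2 → ℤ) - 1| ≤
          max |SS W₁ (![0, (d.natAbs : ℤ)] : Fin 2 → ℤ) - 1|
          |SS W₁ (![0, -(d.natAbs : ℤ)] : Fin 2 → ℤ) - 1| := by
        rcases le_total 0 d with hd0 | hd0
        · have : (d.natAbs : ℤ) = d := Int.natAbs_of_nonneg hd0
          rw [this]
          exact le_max_right _ _
        · have : (d.natAbs : ℤ) = -d := by omega
          rw [this]
          exact le_max_left _ _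
      have h4 : ((β - α + 1 : ℤ) : ℝ) / W₀ * (SS W₁ (![0, -d] : Fin 2 → ℤ) - 1) ≤
          ((v : ℝ) - u) / W₀ * max |SS W₁ (![0, (d.natAbs : ℤ)] : Fin 2 → ℤ) - 1|
          |SS W₁ (![0, -(d.natAbs : ℤ)] : Fin 2 → ℤ) - 1| := by
        calc ((β - α + 1 : ℤ) : ℝ) / W₀ * (SS W₁ (![0, -d] : Fin 2 → ℤ) - 1) ≤
              ((β - α + 1 : ℤ) : ℝ) / W₀ * max |SS W₁ (![0, (d.natAbs : ℤ)] : Fin 2 → ℤ) - 1|
                |SS W₁ (![0, -(d.natAbs : ℤ)] : Fin 2 → ℤ) - 1| := by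
              refine mul_le_mul_of_nonneg_left ((le_abs_self _).trans hmax) ?_
              positivity
          _ ≤ _ := by
              refine mul_le_mul_of_nonneg_right ?_ (le_max_of_le_left (abs_nonneg _))
              gcongr
      linarith
    · rw [if_neg hB, hzero (fun h => hB h.2)]
  · rw [if_neg hA, hzero (fun h => hA h.1)]

/-- Expansion of the variance. Let `u = yX a X`, `v = yX b X`, `u ≤ v`, and
`D(m) = LamR (W₀ W₁) W₀ r X a b g m - (W₀/φ(W₀)) ThG W₀ r X a b g m`, where `g - r` is coprime to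
`W₀`. Then for every finite set `S` of integers
`∑_{m ∈ S} D(m)² ≤ (W₀/φ(W₀))² / ell² · (#QQ (v W₁² + …) + 2 ∑_{1 ≤ d < v - u, W₀ ∣ d} #pairsN d X ·
 ((v - u)/W₀ |SS W₁ ![0, d] - 1| + 4 W₁³))` with the diagonal bounded by `#QQ (v - u) W₁²`.

PROOF. `ell D(m) = (W₀/φ(W₀)) ∑_{q ≡ m + r, q in the window of m + g} (nu W₁ (m + g - q) - 1)`
(`nu_eq_of_coprime`: `m + g - q ≡ g - r (W₀)`). Sum over all integers `m` (a finite set outside which
`D = 0`); expand the square: for `q, q'` with `W₀ ∣ q - q'` the sum over `m ≡ q - r (W₀)` with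
`u < m + g - q ≤ v`, `u < m + g - q' ≤ v` is, with `n = m + g - q`, `d = q - q'`, the covariance sum over
an interval of length `v - u - |d|` (empty if `|d| ≥ v - u`) in the class `n ≡ g - r (W₀)`; `covariance`.
For `q = q'` bound it by `(v - u) W₁²`. Pairs with `W₀ ∤ q - q'` do not occur. -/
lemma variance_expand (W₀ W₁ : ℕ) (h0 : Squarefree W₀) (h1 : Squarefree W₁)
    (hc : Nat.Coprime W₀ W₁) (r g : ℤ) (hg : IsCoprime (g - r) (W₀ : ℤ)) (X : ℕ) (a b : ℝ)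
    (huv : yX a X ≤ yX b X) (S : Finset ℤ) :
    ∑ m ∈ S, (LamR (W₀ * W₁) W₀ r X a b g m
        - (W₀ : ℝ) / (Nat.totient W₀ : ℝ) * ThG W₀ r X a b g m) ^ 2
      ≤ ((W₀ : ℝ) / (Nat.totient W₀ : ℝ)) ^ 2 / (ell X) ^ 2 *
        (((QQ 0 X).card : ℝ) * (((yX b X : ℝ) - yX a X) * (W₁ : ℝ) ^ 2)
          + 2 * ∑ d ∈ (Finset.Icc 1 (yX b X - yX a X)).filter (fun d => W₀ ∣ d),
              ((pairsN d X).card : ℝ) * (((yX b X : ℝ) - yX a X) / W₀
                * max |SS W₁ (![0, (d : ℤ)] : Fin 2 → ℤ) - 1| |SS W₁ (![0, -(d : ℤ)] : Fin 2 → ℤ) - 1|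
                + 4 * (W₁ : ℝ) ^ 3)) := by
  classical
  have hW0 : 1 ≤ W₀ := Nat.one_le_iff_ne_zero.2 h0.ne_zero
  have hW1 : 1 ≤ W₁ := Nat.one_le_iff_ne_zero.2 h1.ne_zero
  set u := yX a X with hu
  set v := yX b X with hv
  set ω : ℝ := (W₀ : ℝ) / (Nat.totient W₀ : ℝ) with hω
  set A : ℤ → ℝ := fun m => ∑ q ∈ QQ 0 X, R1b_F W₀ W₁ u v (g - r) (m + g - q) with hA
  have hD0 : ((v - u : ℕ) : ℝ) = (v : ℝ) - u := by rw [Nat.cast_sub huv]
  have hvu0 : (0 : ℝ) ≤ (v : ℝ) - u := by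
    rw [← hD0]
    exact Nat.cast_nonneg _
  -- the difference
  have hdiff : ∀ m, LamR (W₀ * W₁) W₀ r X a b g m - ω * ThG W₀ r X a b g m =
      ω * A m / ell X := by
    intro m
    have e1 : A m = ∑ q ∈ (Wd X a b (m + g)).filter (fun q : ℕ => (W₀ : ℤ) ∣ m + r - q),
        (nu W₁ (m + g - q) - 1) := by
      unfold Wd
      rw [Finset.filter_filter, Finset.sum_filter]
      refine Finset.sum_congr rfl fun q _ => ?_
      unfold R1b_F
      have e2 : m + g - (q : ℤ) - (g - r) = m + r - q := by ring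
      rw [e2]
      simp only [and_assoc]
      rfl
    have e3 : ∑ q ∈ (Wd X a b (m + g)).filter (fun q : ℕ => (W₀ : ℤ) ∣ m + r - q),
        nu (W₀ * W₁) (m + g - q) =
        ω * ∑ q ∈ (Wd X a b (m + g)).filter (fun q : ℕ => (W₀ : ℤ) ∣ m + r - q),
          nu W₁ (m + g - q) := by
      rw [Finset.mul_sum]
      refine Finset.sum_congr rfl fun q hq => ?_
      rw [Finset.mem_filter] at hq
      obtain ⟨c, hcc⟩ := hq.2
      refine nu_eq_of_coprime W₀ W₁ hc _ ?_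
      have e4 : m + g - (q : ℤ) = (g - r) + (W₀ : ℤ) * c := by
        rw [← hcc]
        ring
      rw [e4]
      exact hg.add_mul_left_left c
    unfold LamR ThG
    rw [e3, e1, Finset.sum_sub_distrib, Finset.sum_const, nsmul_eq_mul, mul_one]
    ring
  -- the enlarged set
  set S' : Finset ℤ := S ∪ Finset.Icc ((u : ℤ) - g) ((v : ℤ) + X - g) with hS'
  have hstep1 : ∑ m ∈ S, (LamR (W₀ * W₁) W₀ r X a b g m - ω * ThG W₀ r X a b g m) ^ 2 ≤
      ω ^ 2 / (ell X) ^ 2 * ∑ m ∈ S', (A m) ^ 2 := by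
    calc ∑ m ∈ S, (LamR (W₀ * W₁) W₀ r X a b g m - ω * ThG W₀ r X a b g m) ^ 2 =
          ∑ m ∈ S, ω ^ 2 / (ell X) ^ 2 * (A m) ^ 2 := by
          refine Finset.sum_congr rfl fun m _ => ?_
          rw [hdiff m, div_pow, mul_pow]
          ring
      _ ≤ ∑ m ∈ S', ω ^ 2 / (ell X) ^ 2 * (A m) ^ 2 := by
          refine Finset.sum_le_sum_of_subset_of_nonneg Finset.subset_union_left
            fun m _ _ => by positivity
      _ = _ := by rw [← Finset.mul_sum]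
  refine hstep1.trans (mul_le_mul_of_nonneg_left ?_ (by positivity))
  -- expand the square
  have e1 : ∑ m ∈ S', (A m) ^ 2 =
      ∑ x ∈ QQ 0 X ×ˢ QQ 0 X, ∑ n ∈ Finset.Ioc (u : ℤ) (v : ℤ),
        R1b_F W₀ W₁ u v (g - r) n * R1b_F W₀ W₁ u v (g - r) (n + ((x.1 : ℤ) - x.2)) := by
    have e2 : ∀ m, (A m) ^ 2 = ∑ x ∈ QQ 0 X ×ˢ QQ 0 X,
        R1b_F W₀ W₁ u v (g - r) (m + g - x.1) * R1b_F W₀ W₁ u v (g - r) (m + g - x.2) := by
      intro m
      rw [pow_two, hA]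
      simp only
      rw [Finset.sum_mul_sum, Finset.sum_product]
    simp only [e2]
    rw [Finset.sum_comm]
    refine Finset.sum_congr rfl fun x hx => ?_
    rw [Finset.mem_product] at hx
    have hq := hx.1
    unfold QQ at hq
    rw [Finset.mem_filter, Finset.mem_Ioc, zero_add] at hq
    exact R1b_pair W₀ W₁ u v X (g - r) g x.1 x.2 hq.1 S' Finset.subset_union_right
  rw [e1, ← Finset.sum_filter_add_sum_filter_not (QQ 0 X ×ˢ QQ 0 X) (fun x => x.1 = x.2)]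
  refine add_le_add ?_ ?_
  · -- the diagonal
    have h4 : ∀ x ∈ (QQ 0 X ×ˢ QQ 0 X).filter (fun x => x.1 = x.2),
        ∑ n ∈ Finset.Ioc (u : ℤ) (v : ℤ),
          R1b_F W₀ W₁ u v (g - r) n * R1b_F W₀ W₁ u v (g - r) (n + ((x.1 : ℤ) - x.2)) ≤
          ((v : ℝ) - u) * (W₁ : ℝ) ^ 2 := by
      intro x _
      calc ∑ n ∈ Finset.Ioc (u : ℤ) (v : ℤ),
          R1b_F W₀ W₁ u v (g - r) n * R1b_F W₀ W₁ u v (g - r) (n + ((x.1 : ℤ) - x.2)) ≤
            ∑ _n ∈ Finset.Ioc (u : ℤ) (v : ℤ), (W₁ : ℝ) * W₁ := by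
            refine Finset.sum_le_sum fun n _ => (le_abs_self _).trans ?_
            rw [abs_mul]
            exact mul_le_mul (R1b_F_abs_le W₀ W₁ u v hW1 _ _) (R1b_F_abs_le W₀ W₁ u v hW1 _ _)
              (abs_nonneg _) (Nat.cast_nonneg _)
        _ = ((v : ℝ) - u) * (W₁ : ℝ) ^ 2 := by
            rw [Finset.sum_const, Int.card_Ioc, nsmul_eq_mul]
            have : ((v : ℤ) - u).toNat = v - u := by omega
            rw [this, hD0]
            ring
    refine (Finset.sum_le_card_nsmul _ _ _ h4).trans ?_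
    rw [nsmul_eq_mul]
    refine mul_le_mul_of_nonneg_right ?_ (by positivity)
    have h5 : ((QQ 0 X ×ˢ QQ 0 X).filter (fun x => x.1 = x.2)).card ≤ (QQ 0 X).card := by
      refine Finset.card_le_card_of_injOn (fun x => x.1) ?_ ?_
      · intro x hx
        simp only [Finset.coe_filter, Finset.mem_product, Set.mem_ofPred_eq] at hx
        exact hx.1.1
      · rintro ⟨a, b⟩ hx ⟨a', b'⟩ hy h
        simp only [Finset.coe_filter, Set.mem_ofPred_eq] at hx hy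
        have := hx.2
        have := hy.2
        simp only at h
        simp only [Prod.mk.injEq]
        omega
    exact_mod_cast h5
  · -- off the diagonal
    set c : ℕ → ℝ := fun d => if W₀ ∣ d then (((v : ℝ) - u) / W₀
        * max |SS W₁ (![0, (d : ℤ)] : Fin 2 → ℤ) - 1|
          |SS W₁ (![0, -(d : ℤ)] : Fin 2 → ℤ) - 1| + 4 * (W₁ : ℝ) ^ 3) else 0 with hcdef
    have hc0 : ∀ d, 0 ≤ c d := by
      intro d
      simp only [hcdef]
      split_ifs
      · have : 0 ≤ max |SS W₁ (![0, (d : ℤ)] : Fin 2 → ℤ) - 1|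
          |SS W₁ (![0, -(d : ℤ)] : Fin 2 → ℤ) - 1| := le_max_of_le_left (abs_nonneg _)
        positivity
      · exact le_rfl
    have h4 : ∑ x ∈ (QQ 0 X ×ˢ QQ 0 X).filter (fun x => ¬ x.1 = x.2),
        ∑ n ∈ Finset.Ioc (u : ℤ) (v : ℤ),
          R1b_F W₀ W₁ u v (g - r) n * R1b_F W₀ W₁ u v (g - r) (n + ((x.1 : ℤ) - x.2)) ≤
        ∑ x ∈ (QQ 0 X ×ˢ QQ 0 X).filter
          (fun x => x.1 ≠ x.2 ∧ ((x.1 : ℤ) - x.2).natAbs ≤ v - u),
          c ((x.1 : ℤ) - x.2).natAbs := by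
      have h5 : (QQ 0 X ×ˢ QQ 0 X).filter
          (fun x => x.1 ≠ x.2 ∧ ((x.1 : ℤ) - x.2).natAbs ≤ v - u) =
          ((QQ 0 X ×ˢ QQ 0 X).filter (fun x => ¬ x.1 = x.2)).filter
          (fun x => ((x.1 : ℤ) - x.2).natAbs ≤ v - u) := by
        rw [Finset.filter_filter]
      rw [h5, Finset.sum_filter (fun x : ℕ × ℕ => ((x.1 : ℤ) - x.2).natAbs ≤ v - u)]
      refine Finset.sum_le_sum fun x hx => ?_
      rw [Finset.mem_filter] at hx
      exact R1b_cov W₀ W₁ u v hW0 h1 hc huv (g - r) ((x.1 : ℤ) - x.2) (by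
        have := hx.2
        omega)
    refine h4.trans ((sum_pairs_le X (v - u) c hc0).trans (le_of_eq ?_))
    rw [Finset.sum_filter]
    congr 1
    refine Finset.sum_congr rfl fun d _ => ?_
    simp only [hcdef]
    split_ifs
    · rfl
    · rw [mul_zero]

end Pool.Agent.Lib.MP_bae66e_nt.LP
end

section

/-!
# LP/R2a: moments of the number of primes of one class in a window
-/

set_option autoImplicit false

open Finset Filter Topology

namespace Pool.Agent.Lib.MP_bae66e_nt.LP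

open Pool.Agent.Lib.MP_bae66e_nt.LL

/-- the values of `m` near the ends of the window -/
private noncomputable def R2a_near (ya yb : ℕ) (g : ℤ) (q : ℕ) : Finset ℤ :=
  Finset.Ioc ((q : ℤ) + ya - |g|) ((q : ℤ) + ya + |g|) ∪
    Finset.Ioc ((q : ℤ) + yb - |g|) ((q : ℤ) + yb + |g|)

private lemma R2a_card (ya yb : ℕ) (g : ℤ) (q : ℕ) :
    ((R2a_near ya yb g q).card : ℝ) ≤ 4 * |(g : ℝ)| := by
  have h1 : (R2a_near ya yb g q).card ≤ (2 * |g|).toNat + (2 * |g|).toNat := by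
    unfold R2a_near
    refine (Finset.card_union_le _ _).trans ?_
    rw [Int.card_Ioc, Int.card_Ioc]
    have e1 : (q : ℤ) + ya + |g| - ((q : ℤ) + ya - |g|) = 2 * |g| := by ring
    have e2 : (q : ℤ) + yb + |g| - ((q : ℤ) + yb - |g|) = 2 * |g| := by ring
    rw [e1, e2]
  have h2 : (((2 * |g|).toNat : ℕ) : ℝ) = 2 * |(g : ℝ)| := by
    have h3 : (((2 * |g|).toNat : ℕ) : ℤ) = 2 * |g| := Int.toNat_of_nonneg (by positivity)
    have h4 : (((2 * |g|).toNat : ℕ) : ℝ) = (((((2 * |g|).toNat : ℕ) : ℤ)) : ℝ) := by push_cast; rfl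
    rw [h4, h3]
    push_cast
    rfl
  have h5 : ((R2a_near ya yb g q).card : ℝ) ≤ (((2 * |g|).toNat + (2 * |g|).toNat : ℕ) : ℝ) := by
    exact_mod_cast h1
  rw [Nat.cast_add, h2] at h5
  linarith

private lemma R2a_iff (ya yb : ℕ) (g : ℤ) (q : ℕ) (m : ℤ) (hm : m ∉ R2a_near ya yb g q) :
    ((ya : ℤ) < m + g - q ∧ m + g - q ≤ (yb : ℤ)) ↔ ((ya : ℤ) < m - q ∧ m - q ≤ (yb : ℤ)) := by
  unfold R2a_near at hm
  rw [Finset.mem_union, Finset.mem_Ioc, Finset.mem_Ioc] at hm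
  push Not at hm
  obtain ⟨h1, h2⟩ := hm
  have h3 := le_abs_self g
  have h4 := neg_abs_le g
  constructor
  · rintro ⟨h5, h6⟩
    constructor
    · by_contra h7
      have := h1 (by omega)
      omega
    · by_contra h7
      have := h2 (by omega)
      omega
  · rintro ⟨h5, h6⟩
    constructor
    · by_contra h7
      have := h1 (by omega)
      omega
    · by_contra h7
      have := h2 (by omega)
      omega

open Classical in
private lemma R2a_Th (W₀ : ℕ) (r g : ℤ) (X : ℕ) (a b : ℝ) (m : ℤ) :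
    ThG W₀ r X a b g m = (∑ q ∈ QQ 0 X, if (((yX a X : ℤ) < m + g - q ∧ m + g - q ≤ (yX b X : ℤ)) ∧
      (W₀ : ℤ) ∣ m + r - q) then (1 : ℝ) else 0) / ell X := by
  unfold ThG Wd
  rw [Finset.filter_filter, Finset.card_filter]
  push_cast
  congr 1

open Classical in
private lemma R2a_Th' (W₀ : ℕ) (r : ℤ) (X : ℕ) (a b : ℝ) (m : ℤ) :
    Th W₀ r X a b m = (∑ q ∈ QQ 0 X, if (((yX a X : ℤ) < m - q ∧ m - q ≤ (yX b X : ℤ)) ∧
      (W₀ : ℤ) ∣ m + r - q) then (1 : ℝ) else 0) / ell X := by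
  unfold Th Wd
  rw [Finset.filter_filter, Finset.card_filter]
  push_cast
  congr 1

/-- Shifting the window: for fixed `W₀`, `r`, `g`, `0 ≤ a ≤ b`, `δ > 0` and large `X`, for every finite
set `S`: `∑_{m ∈ S} |ThG W₀ r X a b g m - Th W₀ r X a b m| ≤ δ X`.

PROOF. For each prime `q ≤ X` the windows of `m + g` and of `m` contain `q` for the same `m`, up to at
most `4 |g|` values of `m`. So the sum is at most `#QQ 4 |g| / ell X ≤ 20 |g| X/(log X ell X)`. -/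
theorem sum_abs_ThG_sub_Th_le (W₀ : ℕ) (r g : ℤ) (a b : ℝ) (ha : 0 ≤ a) (hab : a ≤ b) (δ : ℝ)
    (hδ : 0 < δ) : ∃ X₀ : ℕ, ∀ X : ℕ, X₀ ≤ X → ∀ S : Finset ℤ,
      ∑ m ∈ S, |ThG W₀ r X a b g m - Th W₀ r X a b m| ≤ δ * X := by
  classical
  obtain ⟨X₀, h0⟩ := growth (max 1 (20 * |(g : ℝ)| / δ)) (le_max_left _ _)
  refine ⟨max X₀ 16, fun X hX S => ?_⟩
  obtain ⟨hell, hlog, -, -, -⟩ := h0 X ((le_max_left _ _).trans hX)
  have hX16 : 16 ≤ X := (le_max_right _ _).trans hX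
  set N : ℝ := max 1 (20 * |(g : ℝ)| / δ) with hN
  have hN1 : 1 ≤ N := le_max_left _ _
  have hN2 : 20 * |(g : ℝ)| / δ ≤ N := le_max_right _ _
  have hell1 : 1 ≤ ell X := hN1.trans hell
  have hell0 : 0 < ell X := by linarith
  have hlog0 : 0 < Real.log X := by linarith
  have hpt : ∀ m ∈ S, |ThG W₀ r X a b g m - Th W₀ r X a b m| ≤
      (∑ q ∈ QQ 0 X, if m ∈ R2a_near (yX a X) (yX b X) g q then (1 : ℝ) else 0) / ell X := by
    intro m _
    rw [R2a_Th, R2a_Th', ← sub_div, abs_div, abs_of_pos hell0, ← Finset.sum_sub_distrib]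
    apply div_le_div_of_nonneg_right _ hell0.le
    refine (Finset.abs_sum_le_sum_abs _ _).trans (Finset.sum_le_sum fun q _ => ?_)
    by_cases hm : m ∈ R2a_near (yX a X) (yX b X) g q
    · rw [if_pos hm]
      split_ifs <;> norm_num
    · rw [if_neg hm]
      have h1 := R2a_iff (yX a X) (yX b X) g q m hm
      rw [abs_nonpos_iff, sub_eq_zero]
      exact if_congr (and_congr_left fun _ => h1) rfl rfl
  refine (Finset.sum_le_sum hpt).trans ?_
  rw [← Finset.sum_div, Finset.sum_comm]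
  have hcount : ∑ q ∈ QQ 0 X, ∑ m ∈ S,
      (if m ∈ R2a_near (yX a X) (yX b X) g q then (1 : ℝ) else 0) ≤
      ((QQ 0 X).card : ℝ) * (4 * |(g : ℝ)|) := by
    calc ∑ q ∈ QQ 0 X, ∑ m ∈ S,
          (if m ∈ R2a_near (yX a X) (yX b X) g q then (1 : ℝ) else 0)
        ≤ ∑ q ∈ QQ 0 X, 4 * |(g : ℝ)| := by
          refine Finset.sum_le_sum fun q _ => ?_
          rw [← Finset.sum_filter, Finset.sum_const, nsmul_eq_mul, mul_one]
          refine le_trans ?_ (R2a_card (yX a X) (yX b X) g q)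
          have h1 : S.filter (fun m => m ∈ R2a_near (yX a X) (yX b X) g q) ⊆
              R2a_near (yX a X) (yX b X) g q := fun m hm => (Finset.mem_filter.1 hm).2
          exact_mod_cast Finset.card_le_card h1
      _ = _ := by rw [Finset.sum_const, nsmul_eq_mul]
  have hQ := (card_QQ_bounds X hX16).2
  have hg0 : 0 ≤ |(g : ℝ)| := abs_nonneg _
  have hXr : (0 : ℝ) ≤ X := Nat.cast_nonneg X
  calc (∑ q ∈ QQ 0 X, ∑ m ∈ S,
        (if m ∈ R2a_near (yX a X) (yX b X) g q then (1 : ℝ) else 0)) / ell X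
      ≤ (((QQ 0 X).card : ℝ) * (4 * |(g : ℝ)|)) / ell X :=
        div_le_div_of_nonneg_right hcount hell0.le
    _ ≤ ((5 * X / Real.log X) * (4 * |(g : ℝ)|)) / ell X := by
        apply div_le_div_of_nonneg_right _ hell0.le
        exact mul_le_mul_of_nonneg_right hQ (by positivity)
    _ = (20 * |(g : ℝ)|) / (Real.log X * ell X) * X := by
        field_simp
        ring
    _ ≤ δ * X := by
        apply mul_le_mul_of_nonneg_right _ hXr
        rw [div_le_iff₀ (by positivity)]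
        have h1 : 20 * |(g : ℝ)| ≤ δ * N := by
          have := (div_le_iff₀ hδ).1 hN2
          linarith
        have h2 : N ≤ Real.log X * ell X := by
          calc N = N * 1 := (mul_one N).symm
            _ ≤ Real.log X * ell X := mul_le_mul hlog hell1 zero_le_one hlog0.le
        calc 20 * |(g : ℝ)| ≤ δ * N := h1
          _ ≤ δ * (Real.log X * ell X) := mul_le_mul_of_nonneg_left h2 hδ.le

end Pool.Agent.Lib.MP_bae66e_nt.LP
end
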