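import Pool.Agent.Lib.MP_bae66e_nt.Mg.G054
import Pool.Agent.Lib.MP_bae66e_nt.Mg.G053

section

/-!
# LP/R2b: moments of the number of primes of one class in a window
-/

set_option autoImplicit false

open Finset Filter Topology

namespace Pool.Agent.Lib.MP_bae66e_nt.LP

open Pool.Agent.Lib.MP_bae66e_nt.LL

private lemma R2b_aux1 (v l e b d c X L3 : ℝ) (h1 : v * (4 * l) ≤ b * (l * e) * (4 * l))
    (h2 : 4 * b * ((l * e) * l) ≤ 4 * b * L3) (h3 : (1 + 4 * b + d + c) * L3 ≤ X)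
    (h4 : 0 ≤ L3) (h5 : 0 ≤ d * L3) (h6 : 0 ≤ c * L3) : v * (4 * l) ≤ X := by
  have e1 : b * (l * e) * (4 * l) = 4 * b * ((l * e) * l) := by ring
  have e2 : (1 + 4 * b + d + c) * L3 = L3 + 4 * b * L3 + d * L3 + c * L3 := by ring
  rw [e1] at h1
  rw [e2] at h3
  linarith

private lemma R2b_aux2 (u v a b L : ℝ) (h1 : b * L - 1 ≤ v) (h2 : u ≤ a * L) :
    (b - a) * L - 1 ≤ v - u := by
  have e : (b - a) * L = b * L - a * L := by ring
  linarith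

private lemma R2b_aux3 (b d c L3 X : ℝ) (h3 : (1 + 4 * b + d + c) * L3 ≤ X)
    (h4 : 0 ≤ L3) (h5 : 0 ≤ d * L3) (h6 : 0 ≤ b * L3) : c * L3 ≤ X := by
  have e2 : (1 + 4 * b + d + c) * L3 = L3 + 4 * (b * L3) + d * L3 + c * L3 := by ring
  rw [e2] at h3
  linarith


/-- Growth. -/
private lemma R2b_growth (N : ℝ) (hN : 1 ≤ N) : ∃ X₀ : ℕ, ∀ X : ℕ, X₀ ≤ X →
    1 ≤ Real.log X ∧ N ≤ ell X ∧ ell X ≤ Real.log X ∧ N * (Real.log X) ^ 3 ≤ X ∧ 16 ≤ X := by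
  obtain ⟨X₁, hX₁⟩ := growth N hN
  have h0 : (0 : ℝ) < 1 / N := by positivity
  have h1 := (Real.isLittleO_pow_log_id_atTop (n := 3)).def h0
  have h2 := (tendsto_natCast_atTop_atTop (R := ℝ)).eventually h1
  obtain ⟨X₂, hX₂⟩ := Filter.eventually_atTop.1 h2
  refine ⟨max 16 (max X₁ X₂), fun X hX => ?_⟩
  have hXa : X₁ ≤ X := le_trans (le_trans (le_max_left _ _) (le_max_right _ _)) hX
  have hXb : X₂ ≤ X := le_trans (le_trans (le_max_right _ _) (le_max_right _ _)) hX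
  have hXc : 16 ≤ X := le_trans (le_max_left _ _) hX
  obtain ⟨g1, g2, g3, -, -⟩ := hX₁ X hXa
  have hl1 : 1 ≤ Real.log X := le_trans hN g2
  refine ⟨hl1, g1, ?_, ?_, hXc⟩
  · have : 1 * ell X ≤ N * ell X := mul_le_mul_of_nonneg_right hN (le_trans (by linarith) g1)
    linarith
  · have h3 := hX₂ X hXb
    rw [id, Real.norm_of_nonneg (by positivity), Real.norm_of_nonneg (by positivity)] at h3
    have h4 : N * (Real.log X) ^ 3 ≤ N * (1 / N * X) :=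
      mul_le_mul_of_nonneg_left h3 (by linarith)
    rwa [← mul_assoc, mul_one_div_cancel (by linarith), one_mul] at h4

/-- Exchange of the sums. -/
private lemma R2b_swap (W₀ : ℕ) (r : ℤ) (X : ℕ) (a b : ℝ) (S : Finset ℤ) :
    ∑ m ∈ S, Th W₀ r X a b m = (∑ q ∈ QQ 0 X, ((S.filter (fun m : ℤ =>
      ((yX a X : ℤ) < m - q ∧ m - q ≤ (yX b X : ℤ)) ∧ (W₀ : ℤ) ∣ m + r - q)).card : ℝ)) / ell X := by
  unfold Th Wd
  rw [← Finset.sum_div]
  congr 1
  simp only [Finset.filter_filter, Finset.card_filter, Nat.cast_sum, Nat.cast_ite, Nat.cast_one,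
    Nat.cast_zero]
  exact Finset.sum_comm

/-- The values counted by one prime. -/
private lemma R2b_card (W₀ : ℕ) (hW₀ : 1 ≤ W₀) (r : ℤ) (X u v q : ℕ) (hq : q + v ≤ X) :
    max (((v : ℝ) - u) / W₀ - 1) 0 ≤ (((Finset.Ioc (0 : ℤ) (X : ℤ)).filter (fun m : ℤ =>
      ((u : ℤ) < m - q ∧ m - q ≤ (v : ℤ)) ∧ (W₀ : ℤ) ∣ m + r - q)).card : ℝ) := by
  have hsub : (Finset.Ioc ((q : ℤ) + u) ((q : ℤ) + v)).filter
      (fun m => m ≡ (q : ℤ) - r [ZMOD (W₀ : ℤ)]) ⊆ (Finset.Ioc (0 : ℤ) (X : ℤ)).filter (fun m : ℤ =>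
      ((u : ℤ) < m - q ∧ m - q ≤ (v : ℤ)) ∧ (W₀ : ℤ) ∣ m + r - q) := by
    intro m hm
    rw [Finset.mem_filter, Finset.mem_Ioc] at hm
    obtain ⟨⟨h1, h2⟩, h3⟩ := hm
    rw [Finset.mem_filter, Finset.mem_Ioc]
    refine ⟨⟨by omega, by omega⟩, ⟨by omega, by omega⟩, ?_⟩
    have h4 := (Int.modEq_iff_dvd.1 h3.symm)
    have h5 : m + r - q = m - ((q : ℤ) - r) := by ring
    rw [h5]
    exact h4
  have hW : (0 : ℤ) < (W₀ : ℤ) := by omega
  have h1 := Int.Ioc_filter_modEq_card ((q : ℤ) + u) ((q : ℤ) + v) hW ((q : ℤ) - r)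
  refine le_trans ?_ (Nat.cast_le.2 (Finset.card_le_card hsub))
  have h2 : (((Finset.Ioc ((q : ℤ) + u) ((q : ℤ) + v)).filter
      (fun m => m ≡ (q : ℤ) - r [ZMOD (W₀ : ℤ)])).card : ℝ) =
      ((((Finset.Ioc ((q : ℤ) + u) ((q : ℤ) + v)).filter
      (fun m => m ≡ (q : ℤ) - r [ZMOD (W₀ : ℤ)])).card : ℤ) : ℝ) := by
    push_cast
    rfl
  rw [h2, h1]
  push_cast
  refine max_le_max ?_ le_rfl
  set x : ℚ := ((q : ℚ) + v - (q - r)) / (W₀ : ℚ) with hx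
  set y : ℚ := ((q : ℚ) + u - (q - r)) / (W₀ : ℚ) with hy
  have e1 : x - 1 < ⌊x⌋ := Int.sub_one_lt_floor x
  have e2 : (⌊y⌋ : ℚ) ≤ y := Int.floor_le y
  have e3 : x - y = ((v : ℚ) - u) / W₀ := by
    rw [hx, hy, ← sub_div]
    congr 1
    ring
  have e4 : ((v : ℚ) - u) / W₀ - 1 ≤ (⌊x⌋ : ℚ) - ⌊y⌋ := by linarith
  have e5 : ((((v : ℚ) - u) / W₀ - 1 : ℚ) : ℝ) ≤ (((⌊x⌋ : ℚ) - ⌊y⌋ : ℚ) : ℝ) := by
    exact_mod_cast e4
  push_cast at e5
  exact e5

/-- The number of primes `q ≤ X - v`. -/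
private lemma R2b_card_Q (X v : ℕ) : ((QQ 0 X).card : ℝ) - v ≤
    (((QQ 0 X).filter (fun q => q + v ≤ X)).card : ℝ) := by
  have h1 : (QQ 0 X).card = ((QQ 0 X).filter (fun q => q + v ≤ X)).card +
      ((QQ 0 X).filter (fun q => ¬ q + v ≤ X)).card :=
    (Finset.card_filter_add_card_filter_not _).symm
  have h2 : ((QQ 0 X).filter (fun q => ¬ q + v ≤ X)).card ≤ v := by
    have h3 : (QQ 0 X).filter (fun q => ¬ q + v ≤ X) ⊆ Finset.Ioc (X - v) X := by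
      intro q hq
      rw [Finset.mem_filter, QQ, Finset.mem_filter, Finset.mem_Ioc] at hq
      rw [Finset.mem_Ioc]
      omega
    refine le_trans (Finset.card_le_card h3) ?_
    rw [Nat.card_Ioc]
    omega
  have h4 : ((QQ 0 X).card : ℝ) = (((QQ 0 X).filter (fun q => q + v ≤ X)).card : ℝ) +
      (((QQ 0 X).filter (fun q => ¬ q + v ≤ X)).card : ℝ) := by exact_mod_cast h1
  have h5 : (((QQ 0 X).filter (fun q => ¬ q + v ≤ X)).card : ℝ) ≤ v := by exact_mod_cast h2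
  linarith

/-- First moment: `∑_{m ≤ X} Th ≥ ((b - a)/(4 W₀) - δ) X`.

PROOF. Each prime `q ≤ X - v` (`v = yX b X`, `u = yX a X`) is counted for the `m ∈ (q + u, q + v]` with
`m ≡ q - r (W₀)`: at least `(v - u)/W₀ - 1` values. There are `≥ X/(4 log X) - v` such primes. -/
theorem le_sum_Th (W₀ : ℕ) (hW₀ : 1 ≤ W₀) (r : ℤ) (a b : ℝ) (ha : 0 ≤ a) (hab : a ≤ b) (δ : ℝ)
    (hδ : 0 < δ) : ∃ X₀ : ℕ, ∀ X : ℕ, X₀ ≤ X →
      ((b - a) / (4 * W₀) - δ) * X ≤ ∑ m ∈ Finset.Ioc (0 : ℤ) (X : ℤ), Th W₀ r X a b m := by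
  have hb : 0 ≤ b := le_trans ha hab
  obtain ⟨X₀, hX₀⟩ := R2b_growth (1 + 4 * b + 1 / δ + 2 * b * (b - a) / δ) (by
    have h1 : 0 ≤ 1 / δ := by positivity
    have h2 : 0 ≤ 2 * b * (b - a) / δ := by
      have := sub_nonneg.2 hab
      positivity
    linarith)
  refine ⟨X₀, fun X hX => ?_⟩
  obtain ⟨g1, g2, g3, g4, g5⟩ := hX₀ X hX
  have hba : 0 ≤ b - a := sub_nonneg.2 hab
  have hd1 : 0 ≤ 1 / δ := by positivity
  have hd2 : 0 ≤ 2 * b * (b - a) / δ := by positivity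
  have hl0 : 0 < Real.log X := by linarith
  have he1 : 1 ≤ ell X := by linarith
  have he0 : 0 < ell X := by linarith
  have hL0 : 0 ≤ Real.log X * ell X := by positivity
  have hXr : (0 : ℝ) < X := by
    have : (0 : ℝ) < (16 : ℕ) := by norm_num
    exact lt_of_lt_of_le this (by exact_mod_cast g5)
  have hWr : (1 : ℝ) ≤ (W₀ : ℝ) := by exact_mod_cast hW₀
  set u := yX a X with hu
  set v := yX b X with hv
  have hv1 : (v : ℝ) ≤ b * (Real.log X * ell X) := yX_le X hL0 hb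
  have hu1 : (u : ℝ) ≤ a * (Real.log X * ell X) := yX_le X hL0 ha
  have hv2 : b * (Real.log X * ell X) - 1 ≤ v := le_yX X b
  have hl3 : (Real.log X * ell X) * Real.log X ≤ (Real.log X) ^ 3 := by
    have : Real.log X * ell X ≤ Real.log X * Real.log X :=
      mul_le_mul_of_nonneg_left g3 hl0.le
    calc (Real.log X * ell X) * Real.log X ≤ (Real.log X * Real.log X) * Real.log X :=
          mul_le_mul_of_nonneg_right this hl0.le
      _ = (Real.log X) ^ 3 := by ring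
  have hl30 : 0 ≤ (Real.log X) ^ 3 := by positivity
  -- the number of primes
  have hQ := (card_QQ_bounds X g5).1
  have hQ2 := R2b_card_Q X v
  set Q' := (QQ 0 X).filter (fun q => q + v ≤ X) with hQ'
  set P : ℝ := X / (4 * Real.log X) - v with hP
  have hP0 : 0 ≤ P := by
    rw [hP, sub_nonneg, le_div_iff₀ (by positivity)]
    have h1 : (v : ℝ) * (4 * Real.log X) ≤ b * (Real.log X * ell X) * (4 * Real.log X) :=
      mul_le_mul_of_nonneg_right hv1 (by positivity)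
    have h2 : 4 * b * ((Real.log X * ell X) * Real.log X) ≤ 4 * b * (Real.log X) ^ 3 :=
      mul_le_mul_of_nonneg_left hl3 (by positivity)
    exact R2b_aux1 _ _ _ _ _ _ _ _ h1 h2 g4 hl30 (mul_nonneg hd1 hl30) (mul_nonneg hd2 hl30)
  have hPQ : P ≤ (Q'.card : ℝ) := by linarith
  set T : ℝ := ((v : ℝ) - u) / W₀ - 1 with hT
  rw [R2b_swap, le_div_iff₀ he0]
  -- the sum
  have hsum : P * T ≤ ∑ q ∈ QQ 0 X, (((Finset.Ioc (0 : ℤ) (X : ℤ)).filter (fun m : ℤ =>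
      ((u : ℤ) < m - q ∧ m - q ≤ (v : ℤ)) ∧ (W₀ : ℤ) ∣ m + r - q)).card : ℝ) := by
    have h1 : (Q'.card : ℝ) * max T 0 ≤ ∑ q ∈ QQ 0 X,
        (((Finset.Ioc (0 : ℤ) (X : ℤ)).filter (fun m : ℤ =>
        ((u : ℤ) < m - q ∧ m - q ≤ (v : ℤ)) ∧ (W₀ : ℤ) ∣ m + r - q)).card : ℝ) := by
      refine le_trans ?_ (Finset.sum_le_sum_of_subset_of_nonneg
        (Finset.filter_subset (fun q => q + v ≤ X) (QQ 0 X)) fun q _ _ => Nat.cast_nonneg _)
      rw [← nsmul_eq_mul]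
      refine Finset.card_nsmul_le_sum _ _ _ fun q hq => ?_
      rw [hQ', Finset.mem_filter] at hq
      exact R2b_card W₀ hW₀ r X u v q hq.2
    calc P * T ≤ P * max T 0 := mul_le_mul_of_nonneg_left (le_max_left _ _) hP0
      _ ≤ (Q'.card : ℝ) * max T 0 := mul_le_mul_of_nonneg_right hPQ (le_max_right _ _)
      _ ≤ _ := h1
  refine le_trans ?_ hsum
  -- the final estimate
  set L : ℝ := Real.log X * ell X with hL
  have hLpos : 0 < L := by positivity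
  have hvu : (b - a) * L - 1 ≤ (v : ℝ) - u := R2b_aux2 _ _ _ _ _ hv2 hu1
  have hT1 : (b - a) * L / W₀ - 2 ≤ T := by
    rw [hT]
    have h1 : ((b - a) * L - 1) / W₀ ≤ ((v : ℝ) - u) / W₀ :=
      div_le_div_of_nonneg_right hvu (by linarith)
    have h2 : (1 : ℝ) / W₀ ≤ 1 := by
      rw [div_le_one (by linarith)]
      exact hWr
    rw [sub_div] at h1
    linarith
  have hPT : P * ((b - a) * L / W₀ - 2) ≤ P * T := mul_le_mul_of_nonneg_left hT1 hP0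
  refine le_trans ?_ hPT
  -- `P ((b-a) L / W₀ - 2) ≥ X/(4 log X) (b-a) L/W₀ - v (b-a) L - X/(2 log X)`
  have h1 : P * ((b - a) * L / W₀ - 2) = X / (4 * Real.log X) * ((b - a) * L / W₀)
      - v * ((b - a) * L / W₀) - P * 2 := by
    rw [hP]; ring
  have h2 : (X : ℝ) / (4 * Real.log X) * ((b - a) * L / W₀) = (b - a) / (4 * W₀) * X * ell X := by
    rw [hL]
    field_simp
  have h3 : (v : ℝ) * ((b - a) * L / W₀) ≤ δ / 2 * X * ell X := by
    have e1 : (b - a) * L / W₀ ≤ (b - a) * L := div_le_self (by positivity) hWr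
    have e2 : (v : ℝ) * ((b - a) * L / W₀) ≤ b * L * ((b - a) * L) :=
      mul_le_mul hv1 e1 (by positivity) (by positivity)
    have e3 : b * L * ((b - a) * L) = b * (b - a) * (L * Real.log X) * ell X := by
      rw [hL]; ring
    have e4 : b * (b - a) * (L * Real.log X) ≤ δ / 2 * X := by
      have f1 : b * (b - a) * (L * Real.log X) ≤ b * (b - a) * (Real.log X) ^ 3 :=
        mul_le_mul_of_nonneg_left hl3 (by positivity)
      have f2 : 2 * b * (b - a) / δ * (Real.log X) ^ 3 ≤ X := by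
        exact R2b_aux3 _ _ _ _ _ g4 hl30 (mul_nonneg hd1 hl30) (mul_nonneg hb hl30)
      have f3 : δ / 2 * (2 * b * (b - a) / δ * (Real.log X) ^ 3) ≤ δ / 2 * X :=
        mul_le_mul_of_nonneg_left f2 (by positivity)
      have f4 : δ / 2 * (2 * b * (b - a) / δ * (Real.log X) ^ 3) =
          b * (b - a) * (Real.log X) ^ 3 := by
        field_simp
      linarith
    rw [e3] at e2
    exact le_trans e2 (mul_le_mul_of_nonneg_right e4 he0.le)
  have h4 : P * 2 ≤ δ / 2 * X * ell X := by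
    have e1 : P ≤ X / (4 * Real.log X) := by
      rw [hP]
      have : (0 : ℝ) ≤ v := Nat.cast_nonneg _
      linarith
    have e2 : (X : ℝ) / (4 * Real.log X) ≤ X / 4 := by
      apply div_le_div_of_nonneg_left hXr.le (by norm_num)
      linarith
    have e3 : 1 ≤ δ * ell X := by
      have : 1 / δ ≤ ell X := by linarith
      rwa [div_le_iff₀ hδ, mul_comm] at this
    have e4 := mul_le_mul_of_nonneg_left e3 (show 0 ≤ (X : ℝ) / 2 by positivity)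
    calc P * 2 ≤ X / 2 * 1 := by linarith
      _ ≤ X / 2 * (δ * ell X) := e4
      _ = δ / 2 * X * ell X := by ring
  rw [h1, h2]
  have e : ((b - a) / (4 * W₀) - δ) * X * ell X = (b - a) / (4 * W₀) * X * ell X -
      δ / 2 * X * ell X - δ / 2 * X * ell X := by ring
  rw [e]
  exact sub_le_sub (sub_le_sub_left h3 _) h4

end Pool.Agent.Lib.MP_bae66e_nt.LP
end

section

/-!
# LP/R2c: moments of the number of primes of one class in a window
-/

set_option autoImplicit false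

open Finset Filter Topology

namespace Pool.Agent.Lib.MP_bae66e_nt.LP

open Pool.Agent.Lib.MP_bae66e_nt.LL

private lemma R2c_vu (u v a b T : ℝ) (h4 : v ≤ b * T) (h5 : a * T - 1 ≤ u) :
    v - u ≤ (b - a) * T + 1 := by
  have : (b - a) * T = b * T - a * T := by ring
  linarith

private lemma R2c_DT (D T : ℝ) (h0 : 0 ≤ D) (h1 : D + 1 ≤ T) : D * (D + 1) ≤ T ^ 2 := by
  have : D * (D + 1) ≤ T * T := mul_le_mul (by linarith) h1 (by linarith) (by linarith)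
  rw [sq]
  exact this

private lemma R2c_one (L l : ℝ) (hL : 1 ≤ L) (hl : 1 ≤ l) : 1 ≤ L * l :=
  one_le_mul_of_one_le_of_one_le hL hl

private lemma R2c_f1 (β L l N : ℝ) (hβ : 0 ≤ β) (hN : 1 ≤ N) (hL : 1 ≤ L) (hl : N ≤ l) :
    5 * (β * (L * l) + 2) / (L * l ^ 2) ≤ (5 * β + 10) / N := by
  have hN0 : 0 < N := by linarith
  have hl1 : 1 ≤ l := hN.trans hl
  have hL0 : 0 < L := by linarith
  have hl0 : 0 < l := by linarith
  rw [div_le_div_iff₀ (by positivity) hN0]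
  have i2 : β * (L * l) * N ≤ β * (L * l) * l := mul_le_mul_of_nonneg_left hl (by positivity)
  have i3 : N ≤ L * l ^ 2 := by
    calc N ≤ l := hl
      _ ≤ (L * l) * l := le_mul_of_one_le_left hl0.le (R2c_one L l hL hl1)
      _ = L * l ^ 2 := by ring
  calc 5 * (β * (L * l) + 2) * N = 5 * (β * (L * l) * N) + 10 * N := by ring
    _ ≤ 5 * (β * (L * l) * l) + 10 * (L * l ^ 2) := by linarith
    _ = (5 * β + 10) * (L * l ^ 2) := by ring

private lemma R2c_e1 (X L l T C R : ℝ) (hL : L ≠ 0) (hl : l ≠ 0) :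
    X * (5 * T / (L * l ^ 2) + 4000 * C * R ^ 2 * (T / (L * l)) ^ 2) * l ^ 2
        = 5 * X / L * T + 4000 * X / L ^ 2 * (C * R ^ 2) * T ^ 2 := by
  field_simp


private lemma R2c_card (W₀ : ℕ) (hW : 1 ≤ W₀) (r q : ℤ) (u v : ℕ) (huv : u ≤ v)
    (S : Finset ℤ) :
    ((S.filter (fun m => (u : ℤ) < m - q ∧ m - q ≤ (v : ℤ) ∧ (W₀ : ℤ) ∣ m + r - q)).card : ℝ)
      ≤ ((v : ℝ) - u) / W₀ + 1 := by
  have hW0 : (0 : ℤ) < (W₀ : ℤ) := by exact_mod_cast hW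
  have hWq : (0 : ℚ) < (W₀ : ℚ) := by exact_mod_cast hW
  have hWr : (0 : ℝ) < (W₀ : ℝ) := by exact_mod_cast hW
  have h1 : (S.filter (fun m => (u : ℤ) < m - q ∧ m - q ≤ (v : ℤ) ∧ (W₀ : ℤ) ∣ m + r - q)).card
      ≤ ((Finset.Ioc (u : ℤ) (v : ℤ)).filter (fun n => n ≡ -r [ZMOD (W₀ : ℤ)])).card := by
    refine Finset.card_le_card_of_injOn (fun m => m - q) ?_ ?_
    · intro m hm
      have hm' := (Finset.mem_filter.1 (Finset.mem_coe.1 hm)).2
      refine Finset.mem_coe.2 (Finset.mem_filter.2 ⟨Finset.mem_Ioc.2 ⟨hm'.1, hm'.2.1⟩, ?_⟩)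
      show (m - q) ≡ -r [ZMOD (W₀ : ℤ)]
      rw [Int.modEq_iff_dvd]
      have : -r - (m - q) = -(m + r - q) := by ring
      rw [this]
      exact (dvd_neg).2 hm'.2.2
    · intro m _ m' _ h
      have : m - q = m' - q := h
      omega
  have h2 := Int.Ioc_filter_modEq_card (u : ℤ) (v : ℤ) hW0 (-r)
  have h3 : ((((Finset.Ioc (u : ℤ) (v : ℤ)).filter
      (fun n => n ≡ -r [ZMOD (W₀ : ℤ)])).card : ℤ) : ℝ) ≤ ((v : ℝ) - u) / W₀ + 1 := by
    rw [h2]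
    have huv' : (0 : ℝ) ≤ ((v : ℝ) - u) / W₀ + 1 := by
      have : (u : ℝ) ≤ v := by exact_mod_cast huv
      have := div_nonneg (sub_nonneg.2 this) hWr.le
      linarith
    push_cast
    refine max_le ?_ huv'
    have e1 := Int.floor_le (((v : ℤ) - (-r : ℤ) : ℚ) / ((W₀ : ℤ) : ℚ))
    have e2 := Int.lt_floor_add_one (((u : ℤ) - (-r : ℤ) : ℚ) / ((W₀ : ℤ) : ℚ))
    have e3 : ((⌊((v : ℤ) - (-r : ℤ) : ℚ) / ((W₀ : ℤ) : ℚ)⌋ : ℤ) : ℚ)
        - ((⌊((u : ℤ) - (-r : ℤ) : ℚ) / ((W₀ : ℤ) : ℚ)⌋ : ℤ) : ℚ)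
        ≤ ((v : ℚ) - u) / W₀ + 1 := by
      have e4 : (((v : ℤ) - (-r : ℤ) : ℚ) / ((W₀ : ℤ) : ℚ))
          - (((u : ℤ) - (-r : ℤ) : ℚ) / ((W₀ : ℤ) : ℚ)) = ((v : ℚ) - u) / W₀ := by
        push_cast
        ring
      linarith
    have e5 : (((⌊((v : ℤ) - (-r : ℤ) : ℚ) / ((W₀ : ℤ) : ℚ)⌋ : ℤ) : ℚ)
        - ((⌊((u : ℤ) - (-r : ℤ) : ℚ) / ((W₀ : ℤ) : ℚ)⌋ : ℤ) : ℚ) : ℚ) ≤
        (((v : ℚ) - u) / W₀ + 1 : ℚ) := e3
    have e6 := (Rat.cast_le (K := ℝ)).2 e5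
    push_cast at e6
    simpa using e6
  calc ((S.filter (fun m => (u : ℤ) < m - q ∧ m - q ≤ (v : ℤ) ∧ (W₀ : ℤ) ∣ m + r - q)).card : ℝ)
      ≤ (((Finset.Ioc (u : ℤ) (v : ℤ)).filter (fun n => n ≡ -r [ZMOD (W₀ : ℤ)])).card : ℝ) := by
        exact_mod_cast h1
    _ ≤ _ := by exact_mod_cast h3

private lemma R2c_Th (W₀ : ℕ) (r : ℤ) (X : ℕ) (a b : ℝ) (m : ℤ) :
    (Th W₀ r X a b m) ^ 2 = (∑ x ∈ QQ 0 X ×ˢ QQ 0 X,
      if (((yX a X : ℤ) < m - x.1 ∧ m - x.1 ≤ (yX b X : ℤ) ∧ (W₀ : ℤ) ∣ m + r - x.1) ∧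
        ((yX a X : ℤ) < m - x.2 ∧ m - x.2 ≤ (yX b X : ℤ) ∧ (W₀ : ℤ) ∣ m + r - x.2))
      then (1 : ℝ) else 0) / (ell X) ^ 2 := by
  unfold Th
  rw [div_pow]
  congr 1
  have h1 : (((Wd X a b m).filter (fun q : ℕ => (W₀ : ℤ) ∣ m + r - q)).card : ℝ)
      = ∑ q ∈ QQ 0 X, if ((yX a X : ℤ) < m - q ∧ m - q ≤ (yX b X : ℤ) ∧
        (W₀ : ℤ) ∣ m + r - q) then (1 : ℝ) else 0 := by
    unfold Wd
    rw [Finset.filter_filter, Finset.card_eq_sum_ones]
    push_cast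
    rw [Finset.sum_filter]
    refine Finset.sum_congr rfl fun q _ => ?_
    by_cases h : (yX a X : ℤ) < m - q ∧ m - q ≤ (yX b X : ℤ) ∧ (W₀ : ℤ) ∣ m + r - q
    · rw [if_pos h, if_pos ⟨⟨h.1, h.2.1⟩, h.2.2⟩]
    · rw [if_neg h, if_neg (fun h' => h ⟨h'.1.1, h'.1.2, h'.2⟩)]
  rw [h1, sq, Finset.sum_mul_sum, ← Finset.sum_product']
  refine Finset.sum_congr rfl fun x _ => ?_
  by_cases h : (yX a X : ℤ) < m - x.1 ∧ m - x.1 ≤ (yX b X : ℤ) ∧ (W₀ : ℤ) ∣ m + r - x.1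
  · by_cases h' : (yX a X : ℤ) < m - x.2 ∧ m - x.2 ≤ (yX b X : ℤ) ∧ (W₀ : ℤ) ∣ m + r - x.2
    · rw [if_pos h, if_pos h', if_pos ⟨h, h'⟩, one_mul]
    · rw [if_neg h', mul_zero, if_neg (fun h'' => h' h''.2)]
  · rw [if_neg h, zero_mul, if_neg (fun h'' => h h''.1)]

private lemma R2c_sum (W₀ : ℕ) (hW : 1 ≤ W₀) (r : ℤ) (X : ℕ) (a b : ℝ)
    (huv : yX a X ≤ yX b X) (S : Finset ℤ) :
    ∑ m ∈ S, (Th W₀ r X a b m) ^ 2 ≤
      ((QQ 0 X).card * (((yX b X : ℝ) - yX a X) / W₀ + 1) +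
        2 * ∑ d ∈ (Finset.Icc 1 (yX b X - yX a X)).filter (fun d => W₀ ∣ d),
          ((pairsN d X).card : ℝ) * (((yX b X : ℝ) - yX a X) / W₀ + 1)) / (ell X) ^ 2 := by
  set u : ℕ := yX a X with hu
  set v : ℕ := yX b X with hv
  set B : ℝ := ((v : ℝ) - u) / W₀ + 1 with hB
  have hWr : (0 : ℝ) < (W₀ : ℝ) := by exact_mod_cast hW
  have hB0 : 0 ≤ B := by
    have h1 : (u : ℝ) ≤ v := by exact_mod_cast huv
    have := div_nonneg (sub_nonneg.2 h1) hWr.le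
    rw [hB]; linarith
  have h1 : ∑ m ∈ S, (Th W₀ r X a b m) ^ 2 = (∑ x ∈ QQ 0 X ×ˢ QQ 0 X,
      ((S.filter (fun m => (((u : ℤ) < m - x.1 ∧ m - x.1 ≤ (v : ℤ) ∧ (W₀ : ℤ) ∣ m + r - x.1) ∧
        ((u : ℤ) < m - x.2 ∧ m - x.2 ≤ (v : ℤ) ∧ (W₀ : ℤ) ∣ m + r - x.2)))).card : ℝ))
        / (ell X) ^ 2 := by
    rw [Finset.sum_congr rfl (fun m _ => R2c_Th W₀ r X a b m), ← Finset.sum_div,
      Finset.sum_comm]
    congr 1
    refine Finset.sum_congr rfl fun x _ => ?_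
    rw [Finset.card_eq_sum_ones, Finset.sum_filter]
    push_cast
    rfl
  rw [h1]
  refine div_le_div_of_nonneg_right ?_ (sq_nonneg _)
  set c : ℕ → ℝ := fun d => if W₀ ∣ d then B else 0 with hc
  have hc0 : ∀ d, 0 ≤ c d := by
    intro d
    simp only [hc]
    split_ifs
    · exact hB0
    · exact le_rfl
  have h2 : ∀ x ∈ QQ 0 X ×ˢ QQ 0 X,
      ((S.filter (fun m => (((u : ℤ) < m - x.1 ∧ m - x.1 ≤ (v : ℤ) ∧ (W₀ : ℤ) ∣ m + r - x.1) ∧
        ((u : ℤ) < m - x.2 ∧ m - x.2 ≤ (v : ℤ) ∧ (W₀ : ℤ) ∣ m + r - x.2)))).card : ℝ)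
      ≤ (if x.1 = x.2 then B else 0) +
        (if (x.1 ≠ x.2 ∧ ((x.1 : ℤ) - x.2).natAbs ≤ v - u) then
          c ((x.1 : ℤ) - x.2).natAbs else 0) := by
    intro x _
    have h3 : ((S.filter (fun m => (((u : ℤ) < m - x.1 ∧ m - x.1 ≤ (v : ℤ) ∧
        (W₀ : ℤ) ∣ m + r - x.1) ∧ ((u : ℤ) < m - x.2 ∧ m - x.2 ≤ (v : ℤ) ∧
        (W₀ : ℤ) ∣ m + r - x.2)))).card : ℝ) ≤ B := by
      refine le_trans ?_ (R2c_card W₀ hW r (x.1 : ℤ) u v huv S)
      have : (S.filter (fun m => (((u : ℤ) < m - x.1 ∧ m - x.1 ≤ (v : ℤ) ∧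
        (W₀ : ℤ) ∣ m + r - x.1) ∧ ((u : ℤ) < m - x.2 ∧ m - x.2 ≤ (v : ℤ) ∧
        (W₀ : ℤ) ∣ m + r - x.2)))).card ≤ (S.filter (fun m => (u : ℤ) < m - x.1 ∧
        m - x.1 ≤ (v : ℤ) ∧ (W₀ : ℤ) ∣ m + r - x.1)).card := by
        refine Finset.card_le_card ?_
        intro m hm
        rw [Finset.mem_filter] at hm ⊢
        exact ⟨hm.1, hm.2.1⟩
      exact_mod_cast this
    by_cases hx : x.1 = x.2
    · rw [if_pos hx, if_neg (fun h => h.1 hx), add_zero]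
      exact h3
    · rw [if_neg hx, zero_add]
      by_cases hd : ((x.1 : ℤ) - x.2).natAbs ≤ v - u
      · rw [if_pos ⟨hx, hd⟩]
        by_cases hw : W₀ ∣ ((x.1 : ℤ) - x.2).natAbs
        · simp only [hc, if_pos hw]
          exact h3
        · have h4 : S.filter (fun m => (((u : ℤ) < m - x.1 ∧ m - x.1 ≤ (v : ℤ) ∧
              (W₀ : ℤ) ∣ m + r - x.1) ∧ ((u : ℤ) < m - x.2 ∧ m - x.2 ≤ (v : ℤ) ∧
              (W₀ : ℤ) ∣ m + r - x.2))) = ∅ := by
            rw [Finset.filter_eq_empty_iff]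
            intro m _ h
            apply hw
            have h5 := dvd_sub h.2.2.2 h.1.2.2
            have h6 : m + r - (x.2 : ℤ) - (m + r - (x.1 : ℤ)) = (x.1 : ℤ) - x.2 := by ring
            rw [h6] at h5
            exact Int.natCast_dvd.1 h5
          rw [h4]
          simpa using hc0 _
      · rw [if_neg (fun h => hd h.2)]
        have h4 : S.filter (fun m => (((u : ℤ) < m - x.1 ∧ m - x.1 ≤ (v : ℤ) ∧
              (W₀ : ℤ) ∣ m + r - x.1) ∧ ((u : ℤ) < m - x.2 ∧ m - x.2 ≤ (v : ℤ) ∧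
              (W₀ : ℤ) ∣ m + r - x.2))) = ∅ := by
          rw [Finset.filter_eq_empty_iff]
          intro m _ h
          apply hd
          obtain ⟨⟨p1, p2, _⟩, p3, p4, _⟩ := h
          omega
        rw [h4]
        simp
  refine (Finset.sum_le_sum h2).trans ?_
  rw [Finset.sum_add_distrib]
  refine add_le_add ?_ ?_
  · rw [← Finset.sum_filter, Finset.sum_const, nsmul_eq_mul]
    refine mul_le_mul_of_nonneg_right ?_ hB0
    have h5 : ((QQ 0 X ×ˢ QQ 0 X).filter (fun x => x.1 = x.2)).card ≤ (QQ 0 X).card := by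
      refine Finset.card_le_card_of_injOn (fun x => x.1) ?_ ?_
      · intro x hx
        have := (Finset.mem_filter.1 (Finset.mem_coe.1 hx)).1
        exact Finset.mem_coe.2 (Finset.mem_product.1 this).1
      · intro x hx y hy h
        have hx' := (Finset.mem_filter.1 (Finset.mem_coe.1 hx)).2
        have hy' := (Finset.mem_filter.1 (Finset.mem_coe.1 hy)).2
        have h' : x.1 = y.1 := h
        exact Prod.ext h' (by rw [← hx', ← hy', h'])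
    exact_mod_cast h5
  · rw [← Finset.sum_filter]
    refine (sum_pairs_le X (v - u) c hc0).trans ?_
    refine mul_le_mul_of_nonneg_left (le_of_eq ?_) (by norm_num)
    rw [Finset.sum_filter]
    refine Finset.sum_congr rfl fun d _ => ?_
    simp only [hc]
    split_ifs
    · rfl
    · rw [mul_zero]

/-- Second moment: with an absolute `K`, for `W₀ ≥ 1`, every finite set `S`:
`∑_{m ∈ S} Th² ≤ (K (W₀/φ(W₀))² ((b - a)/W₀)² + δ) X`.

PROOF. Expand the square; for `q, q'` with `W₀ ∣ q - q'` there are at most `(v - u)/W₀ + 1` integers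
`m ≡ q - r (W₀)` in both windows, none if `|q - q'| ≥ v - u`, and no `m` at all if `W₀ ∤ q - q'`. The
pairs `q = q'` give `#QQ ((v - u)/W₀ + 1)/ell² = o(X)`; the others (`sum_pairs_le` with
`c d = if W₀ ∣ d then … else 0`, `card_pairsN_le`, `sum_rho_multiples_le 2`, `rho_eq_totient_div`)
`(2/ell²)((v - u)/W₀ + 1)(2000 X/log² X) C (W₀/φ)² ((v - u)/W₀)`. -/
theorem second_moment_Th : ∃ K : ℝ, 1 ≤ K ∧ ∀ W₀ : ℕ, 1 ≤ W₀ → ∀ r : ℤ, ∀ a b : ℝ, 0 ≤ a → a ≤ b →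
    ∀ δ : ℝ, 0 < δ → ∃ X₀ : ℕ, ∀ X : ℕ, X₀ ≤ X → ∀ S : Finset ℤ,
      ∑ m ∈ S, (Th W₀ r X a b m) ^ 2
        ≤ (K * ((W₀ : ℝ) / (Nat.totient W₀ : ℝ)) ^ 2 * ((b - a) / W₀) ^ 2 + δ) * X := by
  obtain ⟨C, hC1, hC⟩ := sum_rho_multiples_le 2
  refine ⟨4000 * C, by linarith, ?_⟩
  intro W₀ hW r a b ha hab δ hδ
  have hWr : (1 : ℝ) ≤ (W₀ : ℝ) := by exact_mod_cast hW
  have hW0 : (0 : ℝ) < (W₀ : ℝ) := by linarith
  have hrho : rho W₀ = (Nat.totient W₀ : ℝ) / W₀ := rho_eq_totient_div W₀ hW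
  have hrpos := rho_pos W₀
  set R : ℝ := 1 / rho W₀ with hR
  have hR0 : 0 < R := by rw [hR]; positivity
  have hRe : ((W₀ : ℝ) / (Nat.totient W₀ : ℝ)) = R := by
    rw [hR, hrho, one_div_div]
  rw [hRe]
  set β : ℝ := (b - a) / W₀ with hβ
  have hβ0 : 0 ≤ β := div_nonneg (by linarith) hW0.le
  set Q : ℝ := 5 * β + 10 + 4000 * C * R ^ 2 * (4 * β + 4) with hQ
  have hQ0 : 0 ≤ Q := by rw [hQ]; positivity
  obtain ⟨X₁, hX₁⟩ := growth (max 1 (Q / δ)) (le_max_left _ _)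
  refine ⟨X₁ + 16, fun X hX S => ?_⟩
  obtain ⟨g1, g2, _, _, _⟩ := hX₁ X (by omega)
  set N : ℝ := max 1 (Q / δ) with hN
  have hN1 : 1 ≤ N := le_max_left _ _
  have hNQ : Q / δ ≤ N := le_max_right _ _
  set L : ℝ := Real.log X with hL
  set l : ℝ := ell X with hl
  have hL1 : 1 ≤ L := hN1.trans g2
  have hl1 : 1 ≤ l := hN1.trans g1
  have hLl : 0 ≤ L * l := by positivity
  have hXr : (0 : ℝ) ≤ X := Nat.cast_nonneg _
  have huv : yX a X ≤ yX b X := yX_mono X hLl hab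
  refine (R2c_sum W₀ hW r X a b huv S).trans ?_
  set u : ℕ := yX a X with hu
  set v : ℕ := yX b X with hv
  have huvr : (u : ℝ) ≤ v := by exact_mod_cast huv
  have hvu : (v : ℝ) - u ≤ (b - a) * (L * l) + 1 := by
    have h1 := yX_le X hLl (ha.trans hab)
    have h2 := le_yX X a
    rw [← hv, ← hL, ← hl] at h1
    rw [← hu, ← hL, ← hl] at h2
    exact R2c_vu _ _ a b (L * l) h1 h2
  set D : ℝ := ((v : ℝ) - u) / W₀ with hD
  have hD0 : 0 ≤ D := div_nonneg (by linarith) hW0.le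
  have hDle : D ≤ β * (L * l) + 1 := by
    rw [hD, div_le_iff₀ hW0]
    have h1 : β * W₀ = b - a := by rw [hβ]; field_simp
    have h2 : (β * (L * l) + 1) * W₀ = (b - a) * (L * l) + W₀ := by rw [← h1]; ring
    rw [h2]; linarith
  have hcard := (card_QQ_bounds X (by omega)).2
  rw [← hL] at hcard
  have hsum : ∑ d ∈ (Finset.Icc 1 (v - u)).filter (fun d => W₀ ∣ d),
      ((pairsN d X).card : ℝ) * (D + 1) ≤ 2000 * X / L ^ 2 * (C * R ^ 2 * D) * (D + 1) := by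
    rw [← Finset.sum_mul]
    refine mul_le_mul_of_nonneg_right ?_ (by linarith)
    have h1 : ∑ d ∈ (Finset.Icc 1 (v - u)).filter (fun d => W₀ ∣ d), ((pairsN d X).card : ℝ)
        ≤ ∑ d ∈ (Finset.Icc 1 (v - u)).filter (fun d => W₀ ∣ d),
          2000 * X / L ^ 2 * (1 / rho d) ^ 2 := by
      refine Finset.sum_le_sum fun d hd => ?_
      have hd1 := (Finset.mem_Icc.1 (Finset.mem_filter.1 hd).1).1
      refine (card_pairsN_le d X hd1 (by omega)).trans (le_of_eq ?_)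
      rw [← hL]
      have := rho_pos d
      field_simp
    refine h1.trans ?_
    rw [← Finset.mul_sum]
    refine mul_le_mul_of_nonneg_left ?_ (by positivity)
    have h2 := hC W₀ hW (v - u)
    rw [← hR] at h2
    refine h2.trans (le_of_eq ?_)
    rw [hD, Nat.cast_sub huv]
  have hL0 : 0 < L := by linarith
  have hl0 : 0 < l := by linarith
  have hstep : ((QQ 0 X).card * (D + 1) +
        2 * ∑ d ∈ (Finset.Icc 1 (v - u)).filter (fun d => W₀ ∣ d),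
          ((pairsN d X).card : ℝ) * (D + 1)) / l ^ 2
      ≤ (5 * X / L * (D + 1) + 2 * (2000 * X / L ^ 2 * (C * R ^ 2 * D) * (D + 1))) / l ^ 2 := by
    refine div_le_div_of_nonneg_right ?_ (by positivity)
    refine add_le_add (mul_le_mul_of_nonneg_right hcard (by linarith)) ?_
    exact mul_le_mul_of_nonneg_left hsum (by norm_num)
  refine hstep.trans ?_
  have hQN : Q ≤ δ * N := by
    rw [div_le_iff₀ hδ] at hNQ
    linarith
  -- reduce to `D + 1 ≤ β L l + 2`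
  set T : ℝ := β * (L * l) + 2 with hT
  have hT1 : D + 1 ≤ T := by rw [hT]; linarith
  have hT0 : 0 ≤ T := by linarith
  have hDT : D * (D + 1) ≤ T ^ 2 := R2c_DT D T hD0 hT1
  have hb : (5 * X / L * (D + 1) + 2 * (2000 * X / L ^ 2 * (C * R ^ 2 * D) * (D + 1))) / l ^ 2
      ≤ X * (5 * T / (L * l ^ 2) + 4000 * C * R ^ 2 * (T / (L * l)) ^ 2) := by
    rw [div_le_iff₀ (by positivity)]
    rw [R2c_e1 X L l T C R hL0.ne' hl0.ne']
    refine add_le_add (mul_le_mul_of_nonneg_left hT1 (by positivity)) ?_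
    have e2 : 2 * (2000 * X / L ^ 2 * (C * R ^ 2 * D) * (D + 1))
        = 4000 * X / L ^ 2 * (C * R ^ 2) * (D * (D + 1)) := by ring
    rw [e2]
    exact mul_le_mul_of_nonneg_left hDT (by positivity)
  refine hb.trans ?_
  rw [mul_comm]
  refine mul_le_mul_of_nonneg_right ?_ hXr
  have hN0 : 0 < N := by linarith
  have f1 : 5 * T / (L * l ^ 2) ≤ (5 * β + 10) / N := by
    rw [hT]
    exact R2c_f1 β L l N hβ0 hN1 hL1 g1
  have f2 : (T / (L * l)) ^ 2 ≤ β ^ 2 + (4 * β + 4) / N := by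
    have j1 : T / (L * l) = β + 2 / (L * l) := by rw [hT]; field_simp
    have j2 : 1 / (L * l) ≤ 1 / N := by
      refine one_div_le_one_div_of_le hN0 ?_
      exact (show N ≤ l from g1).trans (le_mul_of_one_le_left hl0.le hL1)
    have j3 : 1 / (L * l) ≤ 1 := by
      rw [div_le_one (by positivity)]; exact R2c_one L l hL1 hl1
    have j4 : 0 ≤ 1 / (L * l) := by positivity
    set s : ℝ := 1 / (L * l) with hs
    have j5 : T / (L * l) = β + 2 * s := by rw [j1, hs]; ring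
    rw [j5]
    have j6 : (β + 2 * s) ^ 2 = β ^ 2 + (4 * β + 4 * s) * s := by ring
    rw [j6]
    have j7 : (4 * β + 4 * s) * s ≤ (4 * β + 4) * (1 / N) :=
      mul_le_mul (by linarith) j2 j4 (by positivity)
    have j8 : (4 * β + 4) / N = (4 * β + 4) * (1 / N) := by ring
    rw [j8]; linarith
  have f3 : 5 * T / (L * l ^ 2) + 4000 * C * R ^ 2 * (T / (L * l)) ^ 2
      ≤ 4000 * C * R ^ 2 * β ^ 2 + Q / N := by
    have k1 := mul_le_mul_of_nonneg_left f2 (by positivity : 0 ≤ 4000 * C * R ^ 2)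
    have k2 : Q / N = (5 * β + 10) / N + 4000 * C * R ^ 2 * ((4 * β + 4) / N) := by
      rw [hQ]; ring
    have k3 : 4000 * C * R ^ 2 * (β ^ 2 + (4 * β + 4) / N) =
        4000 * C * R ^ 2 * β ^ 2 + 4000 * C * R ^ 2 * ((4 * β + 4) / N) := by ring
    rw [k3] at k1
    rw [k2]
    linarith
  have f4 : Q / N ≤ δ := by
    rw [div_le_iff₀ hN0]; exact hQN
  linarith

end Pool.Agent.Lib.MP_bae66e_nt.LP
end
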