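import Pool.Agent.Lib.MP_bae66e_nt.Mg.G061
import Pool.Agent.Lib.MP_bae66e_nt.Mg.G046
import Pool.Agent.Lib.MP_bae66e_nt.Mg.G041
import Pool.Agent.Lib.MP_bae66e_nt.Mg.G053
import Pool.Agent.Lib.MP_bae66e_nt.Mg.G054

section

end

section

/-!
# LP/E10b: one assignment, the coincidences
-/

set_option autoImplicit false

open Finset

namespace Pool.Agent.Lib.MP_bae66e_nt.LP

open Pool.Agent.Lib.MP_bae66e_nt.LL

/-- The coincidences: for all `w ≤ w'`, `H` and large `Y` the sum over the other shifts is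
`≤ (1/√w) Y^{k+1}` (`w ≥ 1`).

PROOF. `DDx ≤ Y W'^{k+1}` (`DDx_trivial_le`), Cauchy-Schwarz: `∑_{bad t} FF(k+1, t) ≤
(∑_t FF(2(k+1), t))^{1/2} (#bad)^{1/2} ≤ (C Y^k)^{1/2} ((k+1)² 3^k Y^k / Y)^{1/2} = C' Y^{k - 1/2}`
(`card_coincidence_le`). In total `≤ C' W'^{k+1} Y^{k+1/2} ≤ Y^{k+1}/√w` for large `Y`. -/
theorem coincidences_small (k : ℕ) (w : ℕ) (hw : 1 ≤ w) (w' : ℕ) (hww : w ≤ w') :
    ∃ Y₀ : ℕ, ∀ Y : ℕ, Y₀ ≤ Y → ∀ (H : ℕ) (ι : Type) (h : ι → ℕ) (y : ι → ℕ),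
      ∀ σ : Fin (k + 1) → ι,
      ∑ t ∈ (shifts k Y).filter (fun t => ¬ Function.Injective (hh (sh h σ t))),
        FF (k + 1) t * DDx Y (primorial w)
          (fun i n => gW (primorial w') (y (σ i)) (n - pos H h σ t i))
          (fun i n => gW (primorial w) (y (σ i)) (n - pos H h σ t i))
        ≤ 1 / Real.sqrt w * (Y : ℝ) ^ (k + 1) := by
  obtain ⟨C₁, hC₁, hFF₁⟩ := sum_FF_le k (2 * (k + 1))
  have hC₁0 : 0 ≤ C₁ := by linarith
  obtain ⟨W₁, hW, hsqW₁, hcop, hpr⟩ := primorial_split w w' hww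
  set W : ℕ := primorial w' with hWdef
  have hWpos : 1 ≤ W := primorial_pos w'
  have hW1 : 1 ≤ W₁ := Nat.one_le_iff_ne_zero.2
    (fun e => by subst e; exact not_squarefree_zero hsqW₁)
  have hwR : (1 : ℝ) ≤ w := by exact_mod_cast hw
  have hsw1 : 1 ≤ Real.sqrt w := by rw [Real.one_le_sqrt]; exact hwR
  have hsw0 : 0 < Real.sqrt w := by linarith
  set Wp : ℝ := (W : ℝ) ^ (k + 1) with hWp
  have hWp0 : 0 ≤ Wp := by positivity
  set A : ℝ := C₁ * (((k : ℝ) + 1) ^ 2 * 3 ^ k) with hA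
  have hA0 : 0 ≤ A := by positivity
  refine ⟨⌈A * w * Wp ^ 2⌉₊ + 1, fun Y hY H ι h y σ => ?_⟩
  have hY1 : 1 ≤ Y := by omega
  have hYR : (1 : ℝ) ≤ Y := by exact_mod_cast hY1
  have hY0 : (0 : ℝ) < Y := by linarith
  have hYbig : A * w * Wp ^ 2 ≤ Y := by
    refine (Nat.le_ceil _).trans ?_
    exact_mod_cast (by omega : ⌈A * w * Wp ^ 2⌉₊ ≤ Y)
  set Bd := (shifts k Y).filter (fun t => ¬ Function.Injective (hh (sh h σ t))) with hBd
  set X : ℝ := ∑ t ∈ Bd, FF (k + 1) t with hX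
  have hX0 : 0 ≤ X := Finset.sum_nonneg fun t _ => FF_nonneg _ _
  have hX2 : X ^ 2 ≤ A * ((Y : ℝ) ^ k) ^ 2 / Y := by
    have h1 := Finset.sum_mul_sq_le_sq_mul_sq Bd (fun t => FF (k + 1) t) (fun _ => (1 : ℝ))
    simp only [mul_one, one_pow, Finset.sum_const, nsmul_eq_mul] at h1
    have h2 : ∑ t ∈ Bd, (FF (k + 1) t) ^ 2 ≤ C₁ * (Y : ℝ) ^ k := by
      refine (Finset.sum_le_sum_of_subset_of_nonneg (Finset.filter_subset _ _)
        (fun t _ _ => sq_nonneg _)).trans ?_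
      refine le_trans (le_of_eq ?_) (hFF₁ Y hY1)
      apply Finset.sum_congr rfl
      intro t _
      rw [FF_pow]
      congr 1
      ring
    have h3 := card_coincidence_le Y hY1 h σ
    refine h1.trans ?_
    calc (∑ t ∈ Bd, (FF (k + 1) t) ^ 2) * (Bd.card : ℝ)
        ≤ (C₁ * (Y : ℝ) ^ k) * ((k + 1 : ℝ) ^ 2 * 3 ^ k * (Y : ℝ) ^ k / Y) :=
          mul_le_mul h2 h3 (Nat.cast_nonneg _) (by positivity)
      _ = A * ((Y : ℝ) ^ k) ^ 2 / Y := by rw [hA]; ring
  have hXle : X * Wp * Real.sqrt w ≤ (Y : ℝ) ^ k := by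
    apply le_of_abs_le
    apply abs_le_of_sq_le_sq _ (by positivity)
    calc (X * Wp * Real.sqrt w) ^ 2 = X ^ 2 * (w * Wp ^ 2) := by
          rw [mul_pow, mul_pow, Real.sq_sqrt (by linarith)]
          ring
      _ ≤ A * ((Y : ℝ) ^ k) ^ 2 / Y * (w * Wp ^ 2) :=
          mul_le_mul_of_nonneg_right hX2 (by positivity)
      _ = (A * w * Wp ^ 2) / Y * ((Y : ℝ) ^ k) ^ 2 := by ring
      _ ≤ 1 * ((Y : ℝ) ^ k) ^ 2 := by
          refine mul_le_mul_of_nonneg_right ?_ (by positivity)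
          rw [div_le_one hY0]
          exact hYbig
      _ = ((Y : ℝ) ^ k) ^ 2 := one_mul _
  have hterm : ∀ t ∈ Bd, FF (k + 1) t * DDx Y (primorial w)
          (fun i n => gW W (y (σ i)) (n - pos H h σ t i))
          (fun i n => gW (primorial w) (y (σ i)) (n - pos H h σ t i)) ≤
      FF (k + 1) t * (Y * Wp) := by
    intro t _
    refine mul_le_mul_of_nonneg_left ?_ (FF_nonneg _ _)
    have h1 := DDx_trivial_le Y (primorial w) W₁ (primorial_pos w) hW1 (pos H h σ t)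
      (fun i => y (σ i))
    rw [← hW] at h1
    exact h1
  refine (Finset.sum_le_sum hterm).trans ?_
  rw [← Finset.sum_mul]
  change X * (Y * Wp) ≤ _
  calc X * (Y * Wp) = (X * Wp * Real.sqrt w) * (Y / Real.sqrt w) := by
        field_simp
    _ ≤ (Y : ℝ) ^ k * (Y / Real.sqrt w) := mul_le_mul_of_nonneg_right hXle (by positivity)
    _ = 1 / Real.sqrt w * (Y : ℝ) ^ (k + 1) := by ring

end Pool.Agent.Lib.MP_bae66e_nt.LP
end

section

/-!
# LP/S1a: the energy of the primes in a class at the scale `s`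
-/

set_option autoImplicit false

open Finset Filter Topology

namespace Pool.Agent.Lib.MP_bae66e_nt.LP

open Pool.Agent.Lib.MP_bae66e_nt.LL

private lemma S1a_cell {s q i : ℕ} (hs : 1 ≤ s) (hq : 1 ≤ q) :
    (i * s < q ∧ q ≤ (i + 1) * s) ↔ (q - 1) / s = i := by
  constructor
  · rintro ⟨h1, h2⟩
    refine Nat.div_eq_of_lt_le ?_ ?_
    · omega
    · show q - 1 < (i + 1) * s
      omega
  · rintro rfl
    have h1 := Nat.div_mul_le_self (q - 1) s
    have h2 := Nat.lt_mul_div_succ (q - 1) (show 0 < s by omega)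
    rw [mul_comm] at h2
    constructor
    · omega
    · omega

private lemma S1a_sum (W₀ X s : ℕ) (hs : 1 ≤ s) (T : Finset ℕ) :
    ∑ b ∈ T, ∑ i ∈ Finset.range (X / s + 1), (nb W₀ X s b i : ℝ) =
      ((QQ 0 X).filter (fun q => q % W₀ ∈ T)).card := by
  have h1 : ((QQ 0 X).filter (fun q => q % W₀ ∈ T)).card =
      ∑ p ∈ T ×ˢ Finset.range (X / s + 1),
        (((QQ 0 X).filter (fun q => q % W₀ ∈ T)).filter
          (fun q => (q % W₀, (q - 1) / s) = p)).card := by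
    refine Finset.card_eq_sum_card_fiberwise fun q hq => ?_
    rw [Finset.mem_coe, Finset.mem_filter, QQ, Finset.mem_filter, Finset.mem_Ioc] at hq
    rw [Finset.mem_coe, Finset.mem_product]
    refine ⟨hq.2, ?_⟩
    rw [Finset.mem_range]
    have h2 : (q - 1) / s ≤ X / s := Nat.div_le_div_right (by omega)
    show (q - 1) / s < X / s + 1
    omega
  rw [h1, Finset.sum_product]
  push_cast
  refine Finset.sum_congr rfl fun b hb => Finset.sum_congr rfl fun i _ => ?_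
  rw [nb]
  congr 2
  ext q
  simp only [Finset.mem_filter, Prod.mk.injEq]
  constructor
  · rintro ⟨h2, h3, h4, h5⟩
    have hq1 : 1 ≤ q := by
      rw [QQ, Finset.mem_filter] at h2
      exact h2.2.one_lt.le
    exact ⟨⟨h2, h5 ▸ hb⟩, h5, (S1a_cell hs hq1).1 ⟨h3, h4⟩⟩
  · rintro ⟨⟨h2, _⟩, h5, h6⟩
    have hq1 : 1 ≤ q := by
      rw [QQ, Finset.mem_filter] at h2
      exact h2.2.one_lt.le
    have h7 := (S1a_cell hs hq1).2 h6
    exact ⟨h2, h7.1, h7.2, h5⟩

/-- The total: `∑_b ∑_i nb = #QQ 0 X` for `s ≥ 1`, `W₀ ≥ 1` (every `q ≤ X` is in the cell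
`i = (q - 1)/s ≤ X/s` and in the class `q % W₀`). -/
lemma sum_nb (W₀ X s : ℕ) (hW : 1 ≤ W₀) (hs : 1 ≤ s) :
    ∑ b ∈ Finset.range W₀, ∑ i ∈ Finset.range (X / s + 1), (nb W₀ X s b i : ℝ) = (QQ 0 X).card := by
  rw [S1a_sum W₀ X s hs]
  congr 2
  refine Finset.filter_true_of_mem fun q _ => ?_
  exact Finset.mem_range.2 (Nat.mod_lt q hW)

/-- The classes that are not coprime to `W₀` contain at most `W₀` primes in total:
`∑_{b coprime to W₀} ∑_i nb ≥ #QQ 0 X - W₀`. -/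
lemma sum_nb_coprime (W₀ X s : ℕ) (hW : 1 ≤ W₀) (hs : 1 ≤ s) :
    ((QQ 0 X).card : ℝ) - W₀ ≤ ∑ b ∈ (Finset.range W₀).filter (fun b => Nat.Coprime b W₀),
      ∑ i ∈ Finset.range (X / s + 1), (nb W₀ X s b i : ℝ) := by
  rw [S1a_sum W₀ X s hs]
  have h1 : (QQ 0 X).card ≤ ((QQ 0 X).filter (fun q => q % W₀ ∈
      (Finset.range W₀).filter (fun b => Nat.Coprime b W₀))).card + W₀ := by
    rw [← Finset.card_filter_add_card_filter_not (s := QQ 0 X) (fun q => q % W₀ ∈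
      (Finset.range W₀).filter (fun b => Nat.Coprime b W₀))]
    refine Nat.add_le_add_left ?_ _
    have h2 : (QQ 0 X).filter (fun q => ¬ q % W₀ ∈
        (Finset.range W₀).filter (fun b => Nat.Coprime b W₀)) ⊆ Finset.Icc 1 W₀ := by
      intro q hq
      rw [Finset.mem_filter, Finset.mem_filter, not_and] at hq
      have h3 := hq.2 (Finset.mem_range.2 (Nat.mod_lt q hW))
      have hqp : q.Prime := by
        have h4 := hq.1
        rw [QQ, Finset.mem_filter] at h4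
        exact h4.2
      have h5 : ¬ Nat.Coprime q W₀ := by
        intro h6
        apply h3
        have h7 : Nat.gcd (q % W₀) W₀ = Nat.gcd W₀ q := (Nat.gcd_rec W₀ q).symm
        rw [Nat.Coprime, h7, Nat.gcd_comm]
        exact h6
      have h6 : q ∣ W₀ := by
        by_contra h7
        exact h5 ((Nat.Prime.coprime_iff_not_dvd hqp).2 h7)
      rw [Finset.mem_Icc]
      exact ⟨hqp.one_lt.le, Nat.le_of_dvd (by omega) h6⟩
    refine (Finset.card_le_card h2).trans ?_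
    rw [Nat.card_Icc]
    omega
  have h2 : ((QQ 0 X).card : ℝ) ≤ (((QQ 0 X).filter (fun q => q % W₀ ∈
      (Finset.range W₀).filter (fun b => Nat.Coprime b W₀))).card : ℝ) + W₀ := by exact_mod_cast h1
  linarith

/-- Subdivision of a cell: for `M ≥ 1`, `l ≥ 1`, the cell `i` of length `M l` is the union of the cells
`M i, …, M i + M - 1` of length `l`. -/
lemma nb_subdivide (W₀ X l M b i : ℕ) (hM : 1 ≤ M) (hl : 1 ≤ l) :
    (nb W₀ X (M * l) b i : ℝ) = ∑ e ∈ Finset.range M, (nb W₀ X l b (M * i + e) : ℝ) := by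
  have h1 : nb W₀ X (M * l) b i = ∑ e ∈ Finset.range M,
      (((QQ 0 X).filter (fun q : ℕ => i * (M * l) < q ∧ q ≤ (i + 1) * (M * l) ∧
        q % W₀ = b)).filter (fun q => ((q - 1) / l) % M = e)).card := by
    rw [nb]
    refine Finset.card_eq_sum_card_fiberwise fun q _ => ?_
    rw [Finset.mem_coe, Finset.mem_range]
    exact Nat.mod_lt _ hM
  rw [h1]
  push_cast
  refine Finset.sum_congr rfl fun e he => ?_
  rw [Finset.mem_range] at he
  rw [nb]
  congr 2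
  ext q
  simp only [Finset.mem_filter]
  have hMl : 1 ≤ M * l := Nat.one_le_iff_ne_zero.2 (Nat.mul_ne_zero (by omega) (by omega))
  constructor
  · rintro ⟨⟨h2, h3, h4, h5⟩, h6⟩
    have hq1 : 1 ≤ q := by
      rw [QQ, Finset.mem_filter] at h2
      exact h2.2.one_lt.le
    have h7 := (S1a_cell hMl hq1).1 ⟨h3, h4⟩
    have h8 : (q - 1) / l = M * i + e := by
      have h9 : (q - 1) / l / M = i := by rw [Nat.div_div_eq_div_mul, mul_comm l M, h7]
      have h10 := Nat.div_add_mod ((q - 1) / l) M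
      rw [h9, h6] at h10
      exact h10.symm
    have h9 := (S1a_cell hl hq1).2 h8
    exact ⟨h2, h9.1, h9.2, h5⟩
  · rintro ⟨h2, h3, h4, h5⟩
    have hq1 : 1 ≤ q := by
      rw [QQ, Finset.mem_filter] at h2
      exact h2.2.one_lt.le
    have h7 := (S1a_cell hl hq1).1 ⟨h3, h4⟩
    have h8 : (q - 1) / (M * l) = i := by
      rw [mul_comm M l, ← Nat.div_div_eq_div_mul, h7, Nat.mul_add_div (by omega),
        Nat.div_eq_of_lt he, add_zero]
    have h9 := (S1a_cell hMl hq1).2 h8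
    refine ⟨⟨h2, h9.1, h9.2, h5⟩, ?_⟩
    rw [h7, Nat.mul_add_mod, Nat.mod_eq_of_lt he]

end Pool.Agent.Lib.MP_bae66e_nt.LP
end
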