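import Pool.Agent.Lib.MP_bae66e_nt.Mg.G054
import Pool.Agent.Lib.MP_bae66e_nt.Mg.G053
import Pool.Agent.Lib.MP_bae66e_nt.Mg.G041
import Pool.Agent.Lib.MP_bae66e_nt.Mg.G046
import Pool.Agent.Lib.MP_bae66e_nt.Mg.G057
import Pool.Agent.Lib.MP_bae66e_nt.Mg.G055
import Pool.Agent.Lib.MP_bae66e_nt.Mg.G063

section

/-!
# LP/R2d: moments of the number of primes of one class in a window
-/

set_option autoImplicit false

open Finset Filter Topology

namespace Pool.Agent.Lib.MP_bae66e_nt.LP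

open Pool.Agent.Lib.MP_bae66e_nt.LL

private lemma R2d_exists (W₀ : ℕ) (r : ℤ) (X : ℕ) (a b : ℝ) (m : ℤ) (h : Th W₀ r X a b m ≠ 0) :
    ∃ q : ℕ, q ∈ Wd X a b m ∧ (W₀ : ℤ) ∣ m + r - q := by
  unfold Th at h
  have h1 : ((Wd X a b m).filter (fun q : ℕ => (W₀ : ℤ) ∣ m + r - q)).card ≠ 0 := by
    intro h0
    apply h
    rw [h0, Nat.cast_zero, zero_div]
  obtain ⟨q, hq⟩ := Finset.card_ne_zero.1 h1
  rw [Finset.mem_filter] at hq
  exact ⟨q, hq.1, hq.2⟩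

private lemma R2d_sum (X : ℕ) (f : ℤ → ℝ) :
    ∑ m ∈ Finset.Ioc (0 : ℤ) (X : ℤ), f m = ∑ t ∈ Finset.range X, f (1 + (t : ℤ)) := by
  refine Finset.sum_nbij' (fun m => (m - 1).toNat) (fun t => 1 + (t : ℤ)) ?_ ?_ ?_ ?_ ?_
  · intro m hm
    rw [Finset.mem_Ioc] at hm
    rw [Finset.mem_range]
    omega
  · intro t ht
    rw [Finset.mem_range] at ht
    rw [Finset.mem_Ioc]
    omega
  · intro m hm
    rw [Finset.mem_Ioc] at hm
    show 1 + (((m - 1).toNat : ℕ) : ℤ) = m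
    omega
  · intro t _
    show (1 + (t : ℤ) - 1).toNat = t
    omega
  · intro m hm
    rw [Finset.mem_Ioc] at hm
    congr 1
    show m = 1 + (((m - 1).toNat : ℕ) : ℤ)
    omega

/-- The number of `m ∈ (0, X]` with `m + r` coprime to `W₀`. -/
private lemma R2d_count (W₀ : ℕ) (hW₀ : 1 ≤ W₀) (r : ℤ) (X : ℕ) :
    (open Classical in
      ((Finset.Ioc (0 : ℤ) (X : ℤ)).filter (fun m => IsCoprime (m + r) (W₀ : ℤ))).card : ℝ)
      ≤ (Nat.totient W₀ : ℝ) / W₀ * X + 2 * W₀ * Nat.totient W₀ := by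
  classical
  have hφ : (0 : ℝ) < Nat.totient W₀ := by exact_mod_cast Nat.totient_pos.mpr hW₀
  have hW : (0 : ℝ) < W₀ := by exact_mod_cast hW₀
  have h1 := abs_sum_periodic_sub_le W₀ hW₀ (nu W₀) (fun n m h => nu_periodic W₀ n m h) W₀
    (fun n => by
      rw [abs_of_nonneg (nu_nonneg W₀ n)]
      exact nu_le W₀ hW₀ n) (1 + r) X
  have h2 : ∑ c ∈ Finset.range W₀, nu W₀ (c : ℤ) = W₀ := by
    have := sum_nu_class W₀ hW₀ 0
    simpa using this
  rw [h2] at h1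
  have h3 : ∑ t ∈ Finset.range X, nu W₀ (1 + r + t) =
      (W₀ : ℝ) / Nat.totient W₀ *
        ((Finset.Ioc (0 : ℤ) (X : ℤ)).filter (fun m => IsCoprime (m + r) (W₀ : ℤ))).card := by
    have h4 : ∀ t ∈ Finset.range X, nu W₀ (1 + r + t) = (fun m : ℤ => nu W₀ (m + r)) (1 + (t : ℤ)) := by
      intro t _
      show nu W₀ (1 + r + t) = nu W₀ (1 + (t : ℤ) + r)
      congr 1
      ring
    rw [Finset.sum_congr rfl h4, ← R2d_sum X (fun m : ℤ => nu W₀ (m + r))]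
    unfold nu
    rw [← Finset.sum_filter, Finset.sum_const, nsmul_eq_mul, mul_comm]
  rw [h3] at h1
  have h5 := (abs_le.1 h1).2
  have h6 : (X : ℝ) / W₀ * W₀ = X := by field_simp
  rw [h6] at h5
  set N : ℝ := (((Finset.Ioc (0 : ℤ) (X : ℤ)).filter
    (fun m => IsCoprime (m + r) (W₀ : ℤ))).card : ℝ) with hN
  have h7 : N = Nat.totient W₀ / W₀ * ((W₀ : ℝ) / Nat.totient W₀ * N) := by
    field_simp
  rw [h7]
  have h8 : (W₀ : ℝ) / Nat.totient W₀ * N ≤ X + 2 * W₀ * W₀ := by linarith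
  calc (Nat.totient W₀ : ℝ) / W₀ * ((W₀ : ℝ) / Nat.totient W₀ * N)
      ≤ Nat.totient W₀ / W₀ * (X + 2 * W₀ * W₀) :=
        mul_le_mul_of_nonneg_left h8 (by positivity)
    _ = (Nat.totient W₀ : ℝ) / W₀ * X + 2 * W₀ * Nat.totient W₀ := by
        field_simp

/-- The support: the number of `m ∈ (0, X]` with `Th ≠ 0` is at most `(φ(W₀)/W₀ + δ) X`.

PROOF. If `Th ≠ 0` there is a prime `q ≡ m + r (W₀)` in the window; if `q ∤ W₀` then `m + r` is coprime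
to `W₀`, otherwise `q ≤ W₀` and `m ≤ W₀ + v`. The integers `m ≤ X` with `m + r` coprime to `W₀` number
at most `(X/W₀ + 1) φ(W₀)`. -/
theorem card_support_Th_le (W₀ : ℕ) (hW₀ : 1 ≤ W₀) (r : ℤ) (a b : ℝ) (ha : 0 ≤ a) (hab : a ≤ b)
    (δ : ℝ) (hδ : 0 < δ) : ∃ X₀ : ℕ, ∀ X : ℕ, X₀ ≤ X →
      (((Finset.Ioc (0 : ℤ) (X : ℤ)).filter (fun m => Th W₀ r X a b m ≠ 0)).card : ℝ)
        ≤ ((Nat.totient W₀ : ℝ) / W₀ + δ) * X := by
  classical
  have hb : 0 ≤ b := ha.trans hab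
  set C : ℝ := 2 * W₀ * Nat.totient W₀ + W₀ with hC
  have hC0 : 0 ≤ C := by positivity
  obtain ⟨X₀, hX₀⟩ := growth (1 + 2 * b / δ + 2 * C / δ) (by
    have h1 : 0 ≤ 2 * b / δ := by positivity
    have h2 : 0 ≤ 2 * C / δ := by positivity
    linarith)
  refine ⟨X₀, fun X hX => ?_⟩
  obtain ⟨g1, g2, g3, g4, g5⟩ := hX₀ X hX
  have hb1 : 0 ≤ 2 * b / δ := by positivity
  have hC1 : 0 ≤ 2 * C / δ := by positivity
  set N : ℝ := 1 + 2 * b / δ + 2 * C / δ with hN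
  have hN1 : 1 ≤ N := by linarith
  have hell : 0 ≤ ell X := by linarith
  have hlog : 0 ≤ Real.log X := by linarith
  have hell2 : ell X ≤ Real.log X := by nlinarith
  have hy := yX_le X (mul_nonneg hlog hell) hb
  have hX0 : (0 : ℝ) ≤ X := Nat.cast_nonneg X
  -- `yX b X ≤ δ/2 X`
  have hy2 : (yX b X : ℝ) ≤ δ / 2 * X := by
    have h1 : Real.log X * ell X ≤ (Real.log X) ^ 2 := by
      rw [pow_two]
      exact mul_le_mul_of_nonneg_left hell2 hlog
    have h2 : 2 * b / δ * (Real.log X) ^ 2 ≤ X := by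
      refine le_trans ?_ g4
      exact mul_le_mul_of_nonneg_right (by linarith) (sq_nonneg _)
    have h3 : b * (Real.log X) ^ 2 ≤ δ / 2 * X := by
      have h4 : b * (Real.log X) ^ 2 = δ / 2 * (2 * b / δ * (Real.log X) ^ 2) := by
        field_simp
      rw [h4]
      exact mul_le_mul_of_nonneg_left h2 (by positivity)
    exact (hy.trans (mul_le_mul_of_nonneg_left h1 hb)).trans h3
  have hC2 : C ≤ δ / 2 * X := by
    have h1 : 2 * C / δ ≤ X := by linarith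
    have h2 : C = δ / 2 * (2 * C / δ) := by field_simp
    rw [h2]
    exact mul_le_mul_of_nonneg_left h1 (by positivity)
  have hsub : (Finset.Ioc (0 : ℤ) (X : ℤ)).filter (fun m => Th W₀ r X a b m ≠ 0) ⊆
      (Finset.Ioc (0 : ℤ) (X : ℤ)).filter (fun m => IsCoprime (m + r) (W₀ : ℤ)) ∪
        Finset.Ioc (0 : ℤ) ((W₀ + yX b X : ℕ) : ℤ) := by
    intro m hm
    rw [Finset.mem_filter] at hm
    obtain ⟨q, hq, hdvd⟩ := R2d_exists W₀ r X a b m hm.2
    rw [mem_Wd] at hq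
    obtain ⟨-, hqp, -, hqv⟩ := hq
    rw [Finset.mem_union, Finset.mem_filter]
    by_cases hqW : q ∣ W₀
    · right
      rw [Finset.mem_Ioc]
      have h1 : q ≤ W₀ := Nat.le_of_dvd hW₀ hqW
      have h2 := (Finset.mem_Ioc.1 hm.1).1
      constructor
      · exact h2
      · push_cast
        omega
    · left
      refine ⟨hm.1, ?_⟩
      have h1 : IsCoprime (q : ℤ) (W₀ : ℤ) :=
        Nat.isCoprime_iff_coprime.2 ((Nat.Prime.coprime_iff_not_dvd hqp).2 hqW)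
      obtain ⟨c, hc⟩ := hdvd
      have h2 : m + r = (q : ℤ) + W₀ * c := by linarith
      rw [h2]
      exact IsCoprime.add_mul_left_left h1 c
  have h1 : (((Finset.Ioc (0 : ℤ) (X : ℤ)).filter (fun m => Th W₀ r X a b m ≠ 0)).card : ℝ) ≤
      ((Finset.Ioc (0 : ℤ) (X : ℤ)).filter (fun m => IsCoprime (m + r) (W₀ : ℤ))).card +
        ((W₀ : ℝ) + yX b X) := by
    have h2 := (Finset.card_le_card hsub).trans (Finset.card_union_le _ _)
    rw [Int.card_Ioc] at h2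
    have h3 : (((W₀ + yX b X : ℕ) : ℤ) - 0).toNat = W₀ + yX b X := by
      rw [sub_zero, Int.toNat_natCast]
    rw [h3] at h2
    exact_mod_cast h2
  have h4 := R2d_count W₀ hW₀ r X
  calc (((Finset.Ioc (0 : ℤ) (X : ℤ)).filter (fun m => Th W₀ r X a b m ≠ 0)).card : ℝ)
      ≤ (Nat.totient W₀ : ℝ) / W₀ * X + 2 * W₀ * Nat.totient W₀ + ((W₀ : ℝ) + yX b X) :=
        h1.trans (add_le_add_left h4 _)
    _ ≤ ((Nat.totient W₀ : ℝ) / W₀ + δ) * X := by
        rw [hC] at hC2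
        nlinarith

/-- Parity: for even `W₀` and odd `r` the number of odd `m` with `Th ≠ 0` in `(0, X]` is at most
`yX b X + 2` (if `m` and `q` are odd then `m + r - q` is odd; so `q = 2` and `m ≤ v + 2`). -/
theorem card_odd_Th_le (W₀ : ℕ) (hW₀ : 2 ∣ W₀) (r : ℤ) (hr : ¬ Even r) (a b : ℝ) (X : ℕ) :
    (((Finset.Ioc (0 : ℤ) (X : ℤ)).filter (fun m => ¬ Even m ∧ Th W₀ r X a b m ≠ 0)).card : ℝ)
        ≤ yX b X + 2 := by
  have hsub : (Finset.Ioc (0 : ℤ) (X : ℤ)).filter (fun m => ¬ Even m ∧ Th W₀ r X a b m ≠ 0) ⊆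
      Finset.Ioc (0 : ℤ) ((yX b X + 2 : ℕ) : ℤ) := by
    intro m hm
    rw [Finset.mem_filter] at hm
    obtain ⟨hm1, hm2, hm3⟩ := hm
    obtain ⟨q, hq, hdvd⟩ := R2d_exists W₀ r X a b m hm3
    rw [mem_Wd] at hq
    obtain ⟨-, hqp, -, hqv⟩ := hq
    have h2 : (2 : ℤ) ∣ m + r - q := dvd_trans (by exact_mod_cast hW₀) hdvd
    rw [Int.not_even_iff] at hm2 hr
    have h3 : q = 2 := by
      rcases hqp.eq_two_or_odd with h | h
      · exact h
      · exfalso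
        omega
    rw [Finset.mem_Ioc] at hm1 ⊢
    constructor
    · exact hm1.1
    · rw [h3] at hqv
      push_cast at hqv ⊢
      linarith
  have h1 := Finset.card_le_card hsub
  rw [Int.card_Ioc] at h1
  have h3 : (((yX b X + 2 : ℕ) : ℤ) - 0).toNat = yX b X + 2 := by
    rw [sub_zero, Int.toNat_natCast]
  rw [h3] at h1
  exact_mod_cast h1

end Pool.Agent.Lib.MP_bae66e_nt.LP
end

section

/-!
# LP/R2e: moments of the number of primes of one class in a window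
-/

set_option autoImplicit false

open Finset Filter Topology

namespace Pool.Agent.Lib.MP_bae66e_nt.LP

open Pool.Agent.Lib.MP_bae66e_nt.LL

/-- **One window is rich**: there is an absolute `c > 0` such that for `W₀ ≥ 1`, `r`, `0 ≤ a < b` and
large `X`: `#{m ≤ X : Th ≥ (b - a)/(32 φ(W₀))} ≥ c (φ(W₀)/W₀)² X`.

PROOF. `paley_zygmund` with `S = (0, X]`, `S'` the support, `A = ((b - a)/(8 W₀)) X` (`le_sum_Th` with
a small `δ`), `τ = (b - a)/(32 φ(W₀))`: `τ #S' ≤ (b - a)/(32 φ)(φ/W₀ + δ) X ≤ (b - a)/(16 W₀) X = A/2`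
for `δ ≤ φ/W₀`; `B = 2 K (W₀/φ)² ((b - a)/W₀)² X` (`second_moment_Th` with a small `δ`). So
`#{Th ≥ τ} ≥ (A/2)²/B = (φ/W₀)² X/(512 K)`; `c = 1/(512 K)`. -/
theorem one_window_rich : ∃ c : ℝ, 0 < c ∧ ∀ W₀ : ℕ, 1 ≤ W₀ → ∀ r : ℤ, ∀ a b : ℝ, 0 ≤ a → a < b →
    ∃ X₀ : ℕ, ∀ X : ℕ, X₀ ≤ X →
      c * ((Nat.totient W₀ : ℝ) / W₀) ^ 2 * X
        ≤ (((Finset.Ioc (0 : ℤ) (X : ℤ)).filter
            (fun m => (b - a) / (32 * (Nat.totient W₀ : ℝ)) ≤ Th W₀ r X a b m)).card : ℝ) := by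
  obtain ⟨K, hK1, hK⟩ := second_moment_Th
  have hK0 : 0 < K := by linarith
  refine ⟨1 / (512 * K), by positivity, ?_⟩
  intro W₀ hW₀ r a b ha hab
  have hW : (0 : ℝ) < (W₀ : ℝ) := by exact_mod_cast hW₀
  have hφn : 0 < Nat.totient W₀ := Nat.totient_pos.2 hW₀
  have hφ : (0 : ℝ) < (Nat.totient W₀ : ℝ) := by exact_mod_cast hφn
  have hD : 0 < b - a := by linarith
  obtain ⟨X₁, hX₁⟩ := le_sum_Th W₀ hW₀ r a b ha hab.le ((b - a) / (8 * W₀)) (by positivity)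
  obtain ⟨X₂, hX₂⟩ := hK W₀ hW₀ r a b ha hab.le
    (K * ((W₀ : ℝ) / (Nat.totient W₀ : ℝ)) ^ 2 * ((b - a) / W₀) ^ 2) (by positivity)
  obtain ⟨X₃, hX₃⟩ := card_support_Th_le W₀ hW₀ r a b ha hab.le ((Nat.totient W₀ : ℝ) / W₀)
    (by positivity)
  refine ⟨max (max X₁ X₂) (max X₃ 3), fun X hX => ?_⟩
  simp only [max_le_iff] at hX
  obtain ⟨⟨hXX₁, hXX₂⟩, hXX₃, hXX₄⟩ := hX
  have hXR : (3 : ℝ) ≤ (X : ℝ) := by exact_mod_cast hXX₄
  have hXpos : (0 : ℝ) < (X : ℝ) := by linarith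
  have hell : 0 ≤ ell X := by
    unfold ell
    apply Real.log_nonneg
    rw [Real.le_log_iff_exp_le hXpos]
    have := Real.exp_one_lt_d9
    linarith
  have e1 := hX₁ X hXX₁
  have e2 := hX₂ X hXX₂ (Finset.Ioc (0 : ℤ) (X : ℤ))
  have e3 := hX₃ X hXX₃
  set S := Finset.Ioc (0 : ℤ) (X : ℤ) with hS
  set f : ℤ → ℝ := fun m => Th W₀ r X a b m with hf
  set φ : ℝ := (Nat.totient W₀ : ℝ) with hφd
  set w : ℝ := (W₀ : ℝ) with hwd
  set D : ℝ := b - a with hDd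
  have hpz := paley_zygmund S (S.filter (fun m => Th W₀ r X a b m ≠ 0)) f (D / (8 * w) * X)
    (2 * K * (D / φ) ^ 2 * X) (D / (32 * φ)) ?_ ?_ ?_ (by positivity) ?_ (by positivity) ?_
  · have hcount : 0 ≤ ((S.filter (fun m => D / (32 * φ) ≤ f m)).card : ℝ) := by positivity
    have h1 : (D / (8 * w) * X / 2) ^ 2 = D ^ 2 * X ^ 2 / (256 * w ^ 2) := by
      field_simp
      ring
    rw [h1] at hpz
    have h2 : D ^ 2 * (X : ℝ) ^ 2 / (256 * w ^ 2) =
        (2 * K * (D / φ) ^ 2 * X) * (1 / (512 * K) * (φ / w) ^ 2 * X) := by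
      field_simp
      ring
    rw [h2] at hpz
    exact le_of_mul_le_mul_left hpz (by positivity)
  · intro m _
    change 0 ≤ Th W₀ r X a b m
    unfold Th
    positivity
  · intro m hm hm'
    by_contra hne
    exact hm' (mem_filter.2 ⟨hm, hne⟩)
  · refine le_trans (le_of_eq ?_) e1
    field_simp
    ring
  · refine e2.trans (le_of_eq ?_)
    field_simp
    ring
  · calc D / (32 * φ) * ((S.filter (fun m => Th W₀ r X a b m ≠ 0)).card : ℝ)
        ≤ D / (32 * φ) * ((φ / w + φ / w) * X) := by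
          apply mul_le_mul_of_nonneg_left e3 (by positivity)
      _ = D / (8 * w) * X / 2 := by
          field_simp
          ring

end Pool.Agent.Lib.MP_bae66e_nt.LP
end

section

end

section

/-!
# LP/S1b: the energy of the primes in a class at the scale `s`
-/

set_option autoImplicit false

open Finset Filter Topology

namespace Pool.Agent.Lib.MP_bae66e_nt.LP

open Pool.Agent.Lib.MP_bae66e_nt.LL

private lemma S1b_cell {s q i : ℕ} (hs : 1 ≤ s) (hq : 1 ≤ q) :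
    (i * s < q ∧ q ≤ (i + 1) * s) ↔ (q - 1) / s = i := by
  constructor
  · rintro ⟨h1, h2⟩
    refine Nat.div_eq_of_lt_le ?_ ?_
    · omega
    · show q - 1 < (i + 1) * s
      omega
  · rintro rfl
    have h1 := Nat.div_mul_le_self (q - 1) s
    have h2 := Nat.lt_mul_div_succ (q - 1) (show 0 < s by omega)
    rw [mul_comm] at h2
    constructor
    · omega
    · omega

private lemma S1b_nb (W₀ X s b i : ℕ) (hs : 1 ≤ s) :
    (QQ 0 X).filter (fun q : ℕ => i * s < q ∧ q ≤ (i + 1) * s ∧ q % W₀ = b) =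
      (QQ 0 X).filter (fun q : ℕ => (q % W₀, (q - 1) / s) = (b, i)) := by
  ext q
  simp only [Finset.mem_filter, Prod.mk.injEq]
  refine and_congr_right fun h2 => ?_
  have hq1 : 1 ≤ q := by
    rw [QQ, Finset.mem_filter] at h2
    exact h2.2.one_lt.le
  rw [← S1b_cell hs hq1]
  tauto

private lemma S1b_sq (C : Finset ℕ) :
    C.card ^ 2 = C.card + 2 * ((C ×ˢ C).filter (fun p : ℕ × ℕ => p.1 < p.2)).card := by
  have h1 := Finset.card_filter_add_card_filter_not (s := C ×ˢ C) (fun p : ℕ × ℕ => p.1 < p.2)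
  have h2 := Finset.card_filter_add_card_filter_not
    (s := (C ×ˢ C).filter (fun p : ℕ × ℕ => ¬ p.1 < p.2)) (fun p : ℕ × ℕ => p.2 < p.1)
  have h3 : (((C ×ˢ C).filter (fun p : ℕ × ℕ => ¬ p.1 < p.2)).filter
      (fun p : ℕ × ℕ => p.2 < p.1)).card = ((C ×ˢ C).filter (fun p : ℕ × ℕ => p.1 < p.2)).card := by
    refine Finset.card_equiv (Equiv.prodComm ℕ ℕ) fun p => ?_
    simp only [Finset.mem_filter, Finset.mem_product, Equiv.prodComm_apply, Prod.fst_swap,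
      Prod.snd_swap]
    constructor
    · rintro ⟨⟨⟨h4, h5⟩, _⟩, h6⟩
      exact ⟨⟨h5, h4⟩, h6⟩
    · rintro ⟨⟨h5, h4⟩, h6⟩
      exact ⟨⟨⟨h4, h5⟩, by omega⟩, h6⟩
  have h4 : (((C ×ˢ C).filter (fun p : ℕ × ℕ => ¬ p.1 < p.2)).filter
      (fun p : ℕ × ℕ => ¬ p.2 < p.1)).card = C.card := by
    have h5 : ((C ×ˢ C).filter (fun p : ℕ × ℕ => ¬ p.1 < p.2)).filter
        (fun p : ℕ × ℕ => ¬ p.2 < p.1) = C.image (fun q => (q, q)) := by
      ext p
      simp only [Finset.mem_filter, Finset.mem_product, Finset.mem_image]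
      constructor
      · rintro ⟨⟨⟨h4, h5⟩, h6⟩, h7⟩
        exact ⟨p.1, h4, Prod.ext rfl (by simp; omega)⟩
      · rintro ⟨q, hq, rfl⟩
        exact ⟨⟨⟨hq, hq⟩, by simp⟩, by simp⟩
    rw [h5, Finset.card_image_of_injective _ fun q q' h => (Prod.ext_iff.1 h).1]
  rw [Finset.card_product] at h1
  rw [sq]
  omega

/-- The energy counts pairs in the same cell and class:
`Es W₀ X s ≤ #QQ 0 X + 2 ∑_{1 ≤ d ≤ s, W₀ ∣ d} #pairsN d X`.

PROOF. `nb² = #{(q, q') in the cell, both ≡ b}`; the sum over the cells and classes is at most the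
number of pairs `(q, q')` of primes `≤ X` with `W₀ ∣ q - q'`, `|q - q'| < s`. -/
lemma Es_le_pairs (W₀ X s : ℕ) (hW : 1 ≤ W₀) (hs : 1 ≤ s) :
    Es W₀ X s ≤ ((QQ 0 X).card : ℝ)
      + 2 * ∑ d ∈ (Finset.Icc 1 s).filter (fun d => W₀ ∣ d), ((pairsN d X).card : ℝ) := by
  set A : Finset (ℕ × ℕ) := ((QQ 0 X) ×ˢ (QQ 0 X)).filter (fun p : ℕ × ℕ =>
    p.1 < p.2 ∧ (p.1 % W₀, (p.1 - 1) / s) = (p.2 % W₀, (p.2 - 1) / s)) with hA
  -- the sum of the squares
  have h1 : Es W₀ X s = ((QQ 0 X).card : ℝ) + 2 * (A.card : ℝ) := by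
    have h2 : ∀ b i, ((nb W₀ X s b i : ℝ)) ^ 2 = (nb W₀ X s b i : ℝ) + 2 *
        ((A.filter (fun p : ℕ × ℕ => (p.1 % W₀, (p.1 - 1) / s) = (b, i))).card : ℝ) := by
      intro b i
      have h3 : ((((QQ 0 X).filter (fun q : ℕ => (q % W₀, (q - 1) / s) = (b, i))) ×ˢ
          ((QQ 0 X).filter (fun q : ℕ => (q % W₀, (q - 1) / s) = (b, i)))).filter
            (fun p : ℕ × ℕ => p.1 < p.2)) =
          A.filter (fun p : ℕ × ℕ => (p.1 % W₀, (p.1 - 1) / s) = (b, i)) := by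
        ext p
        rw [hA]
        simp only [Finset.mem_filter, Finset.mem_product]
        constructor
        · rintro ⟨⟨⟨h4, h5⟩, h6, h7⟩, h8⟩
          exact ⟨⟨⟨h4, h6⟩, h8, h5.trans h7.symm⟩, h5⟩
        · rintro ⟨⟨⟨h4, h6⟩, h8, h9⟩, h5⟩
          exact ⟨⟨⟨h4, h5⟩, h6, h9.symm.trans h5⟩, h8⟩
      rw [nb, S1b_nb W₀ X s b i hs, ← h3]
      exact_mod_cast S1b_sq _
    have h3 : A.card = ∑ p ∈ (Finset.range W₀) ×ˢ Finset.range (X / s + 1),
        (A.filter (fun q : ℕ × ℕ => (q.1 % W₀, (q.1 - 1) / s) = p)).card := by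
      refine Finset.card_eq_sum_card_fiberwise fun q hq => ?_
      rw [Finset.mem_coe, hA, Finset.mem_filter, Finset.mem_product, QQ, Finset.mem_filter,
        Finset.mem_Ioc] at hq
      rw [Finset.mem_coe, Finset.mem_product]
      refine ⟨Finset.mem_range.2 (Nat.mod_lt _ hW), ?_⟩
      rw [Finset.mem_range]
      have h2 : (q.1 - 1) / s ≤ X / s := Nat.div_le_div_right (by omega)
      show (q.1 - 1) / s < X / s + 1
      omega
    rw [Es, ← sum_nb W₀ X s hW hs, h3, Finset.sum_product]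
    push_cast
    rw [Finset.mul_sum, ← Finset.sum_add_distrib]
    refine Finset.sum_congr rfl fun b _ => ?_
    rw [Finset.mul_sum, ← Finset.sum_add_distrib]
    exact Finset.sum_congr rfl fun i _ => h2 b i
  -- the pairs
  have h2 : A.card ≤ ∑ d ∈ (Finset.Icc 1 s).filter (fun d => W₀ ∣ d), (pairsN d X).card := by
    have h3 : A.card = ∑ d ∈ (Finset.Icc 1 s).filter (fun d => W₀ ∣ d),
        (A.filter (fun p : ℕ × ℕ => p.2 - p.1 = d)).card := by
      refine Finset.card_eq_sum_card_fiberwise fun p hp => ?_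
      rw [Finset.mem_coe, hA, Finset.mem_filter, Finset.mem_product] at hp
      obtain ⟨⟨h3, h4⟩, h5, h6⟩ := hp
      rw [Prod.mk.injEq] at h6
      have hq1 : 1 ≤ p.1 := by
        rw [QQ, Finset.mem_filter] at h3
        exact h3.2.one_lt.le
      have h7 := (S1b_cell (i := (p.1 - 1) / s) hs hq1).2 rfl
      have h8 := (S1b_cell (q := p.2) (i := (p.1 - 1) / s) hs (by omega)).2 h6.2.symm
      rw [Finset.mem_coe, Finset.mem_filter, Finset.mem_Icc]
      have h9 : ((p.1 - 1) / s + 1) * s = (p.1 - 1) / s * s + s := by ring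
      refine ⟨⟨by omega, by omega⟩, ?_⟩
      exact (Nat.modEq_iff_dvd' h5.le).1 h6.1
    rw [h3]
    refine Finset.sum_le_sum fun d _ => ?_
    refine Finset.card_le_card_of_injOn Prod.fst (fun p hp => ?_) ?_
    · rw [Finset.mem_coe, Finset.mem_filter, hA, Finset.mem_filter, Finset.mem_product] at hp
      obtain ⟨⟨⟨h3, h4⟩, h5, _⟩, h6⟩ := hp
      rw [QQ, Finset.mem_filter, Finset.mem_Ioc] at h3 h4
      rw [Finset.mem_coe, pairsN, Finset.mem_filter, Finset.mem_Ioc]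
      refine ⟨⟨h3.1.1, by omega⟩, h3.2, ?_⟩
      have h7 : 1 * p.1 + d = p.2 := by omega
      rw [h7]
      exact h4.2
    · intro p hp p' hp' hpp
      rw [Finset.mem_coe, Finset.mem_filter, hA, Finset.mem_filter] at hp hp'
      have h3 := hp.1.2.1
      have h4 := hp'.1.2.1
      have h5 := hp.2
      have h6 := hp'.2
      have hpp' : p.1 = p'.1 := hpp
      exact Prod.ext hpp' (by omega)
  rw [h1]
  have h3 : (A.card : ℝ) ≤ ∑ d ∈ (Finset.Icc 1 s).filter (fun d => W₀ ∣ d),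
      ((pairsN d X).card : ℝ) := by exact_mod_cast h2
  linarith

/-- Hence, with an absolute constant `K`:
`Es W₀ X s ≤ 5 X/log X + K (W₀/φ(W₀))² (s/W₀) X/(log X)²` for `X ≥ 16`, `s, W₀ ≥ 1`
(`card_QQ_bounds`, `card_pairsN_le`, `sum_rho_multiples_le 2`, `rho_eq_totient_div`). -/
theorem Es_le : ∃ K : ℝ, 1 ≤ K ∧ ∀ W₀ X s : ℕ, 1 ≤ W₀ → 16 ≤ X → 1 ≤ s →
    Es W₀ X s ≤ 5 * X / Real.log X
      + K * ((W₀ : ℝ) / (Nat.totient W₀ : ℝ)) ^ 2 * ((s : ℝ) / W₀) * (X / (Real.log X) ^ 2) := by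
  obtain ⟨C, hC1, hC⟩ := sum_rho_multiples_le 2
  refine ⟨4000 * C, by linarith, fun W₀ X s hW hX hs => ?_⟩
  have h1 := Es_le_pairs W₀ X s hW hs
  have h2 := (card_QQ_bounds X hX).2
  have h3 := hC W₀ hW s
  have h4 : (1 / rho W₀) = (W₀ : ℝ) / (Nat.totient W₀ : ℝ) := by
    rw [rho_eq_totient_div W₀ hW, one_div_div]
  rw [h4] at h3
  have h5 : ∑ d ∈ (Finset.Icc 1 s).filter (fun d => W₀ ∣ d), ((pairsN d X).card : ℝ) ≤
      2000 * (X / (Real.log X) ^ 2) *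
        ∑ d ∈ (Finset.Icc 1 s).filter (fun d => W₀ ∣ d), (1 / rho d) ^ 2 := by
    rw [Finset.mul_sum]
    refine Finset.sum_le_sum fun d hd => ?_
    rw [Finset.mem_filter, Finset.mem_Icc] at hd
    refine (card_pairsN_le d X hd.1.1 (by omega)).trans (le_of_eq ?_)
    rw [one_div, inv_pow, div_eq_mul_inv, mul_inv]
    ring
  have h6 : 0 ≤ 2000 * ((X : ℝ) / (Real.log X) ^ 2) := by positivity
  have h7 := mul_le_mul_of_nonneg_left h3 h6
  calc Es W₀ X s ≤ ((QQ 0 X).card : ℝ)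
      + 2 * ∑ d ∈ (Finset.Icc 1 s).filter (fun d => W₀ ∣ d), ((pairsN d X).card : ℝ) := h1
    _ ≤ 5 * X / Real.log X + 2 * (2000 * ((X : ℝ) / (Real.log X) ^ 2) *
        (C * ((W₀ : ℝ) / (Nat.totient W₀ : ℝ)) ^ 2 * ((s : ℝ) / W₀))) := by
        linarith
    _ = _ := by ring

end Pool.Agent.Lib.MP_bae66e_nt.LP
end
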