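import Pool.Agent.Lib.MP_bae66e_nt.Mg.G068
import Pool.Agent.Lib.MP_bae66e_nt.Mg.G058
import Pool.Agent.Lib.MP_bae66e_nt.Mg.G054
import Pool.Agent.Lib.MP_bae66e_nt.Mg.G042
import Pool.Agent.Lib.MP_bae66e_nt.Mg.G050

section

/-!
# LP/F3c: clusters
-/

set_option autoImplicit false

open Finset Filter Topology

namespace Pool.Agent.Lib.MP_bae66e_nt.LP

open Pool.Agent.Lib.MP_bae66e_nt.LL

/-- **Clusters.** For admissible even shifts, `0 ≤ a < b ≤ c` and `n : Fin r → ℕ`: for a positive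
proportion of the even `m`, no `p` in `(0, a]`, exactly `n i` in `(a, b]`, none in `(b, c]` (at the scale
`log X loglog X`), for all `i`.

PROOF. `variance_le` (`K`), `one_window_rich` (`c`), `ratio_small` with the constant
`2^21 r K/c`: choose `w₁`; `exists_class` gives `r₀`. `patterns_of_rich` with `s = 3`,
`J = {(i, 1)}`, `α = a`, `β = b`, `c_Θ = (b - a)/(32 φ)`, `c_R = c (φ/W₀)²`: the condition is
`512 (3 r) K ρ^6 (b - a)² ≤ c (φ/W₀)² (b - a)²/(1024 φ²) W₀² √w₁ = c (b - a)² √w₁/1024`. The rich set is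
`{Th a b ≥ c_Θ}` (`r ≥ 1`). -/
theorem cluster_X {r : ℕ} (hr : 1 ≤ r) (h : Fin r → ℕ) (hinj : Function.Injective h)
    (heven : ∀ i, Even (h i)) (hadm : ∀ p : ℕ, p.Prime → ∃ c : ℕ, ∀ i, ¬ (h i ≡ c [MOD p]))
    (n : Fin r → ℕ) (a b c : ℝ) (ha : 0 ≤ a) (hab : a < b) (hbc : b ≤ c) :
    ∃ c' : ℝ, 0 < c' ∧ ∃ X₀ : ℕ, ∀ X : ℕ, X₀ ≤ X →
      c' * X ≤ (cntP h (fun _ => ![0, a, b]) (fun _ => ![a, b, c]) (fun i => ![0, n i, 0]) X : ℝ) := by
  obtain ⟨K, hK1, hK⟩ := variance_le
  obtain ⟨c₀, hc₀, hrich⟩ := one_window_rich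
  obtain ⟨w₁, hw₁, hratio⟩ := ratio_small (512 * 3 * 1024 * r * K / c₀)
  obtain ⟨r₀, hr₀⟩ := exists_class h hadm (primorial w₁) (_root_.squarefree_primorial w₁)
  have hrat := hratio w₁ le_rfl
  have hW1 : 1 ≤ primorial w₁ := primorial_pos w₁
  have hφ1 : 0 < Nat.totient (primorial w₁) := Nat.totient_pos.mpr hW1
  obtain ⟨X₁, hX₁⟩ := hrich (primorial w₁) hW1 r₀ a b ha hab
  have hW0 : (0 : ℝ) < ((primorial w₁ : ℕ) : ℝ) := by exact_mod_cast hW1
  have hφ0 : (0 : ℝ) < (Nat.totient (primorial w₁) : ℝ) := by exact_mod_cast hφ1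
  have hba : 0 < b - a := by linarith
  have hcΘ : 0 < (b - a) / (32 * (Nat.totient (primorial w₁) : ℝ)) := by positivity
  have hcR : 0 < c₀ * ((Nat.totient (primorial w₁) : ℝ) / ((primorial w₁ : ℕ) : ℝ)) ^ 2 := by
    positivity
  set J : Finset (Fin r × Fin 3) := Finset.univ.image (fun i : Fin r => (i, (1 : Fin 3))) with hJdef
  have hmemJ : ∀ x ∈ J, x.2 = 1 := by
    intro x hx
    obtain ⟨i, -, hi⟩ := Finset.mem_image.mp hx
    rw [← hi]
  have hJmem : ∀ i : Fin r, (i, (1 : Fin 3)) ∈ J := fun i =>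
    Finset.mem_image.mpr ⟨i, Finset.mem_univ _, rfl⟩
  have hJne : J.Nonempty := ⟨(⟨0, hr⟩, 1), hJmem _⟩
  have hb0 : 0 ≤ b := by linarith
  obtain ⟨cF, hcF, X₂, hX₂⟩ := patterns_of_rich K hK1 hK h hinj heven w₁ hw₁ r₀ hr₀
    (fun _ => ![0, a, b]) (fun _ => ![a, b, c])
    (by
      intro i j
      fin_cases j
      · exact ⟨le_rfl, ha⟩
      · exact ⟨ha, hab.le⟩
      · exact ⟨hb0, hbc⟩)
    (by
      intro i j l hjl
      fin_cases j <;> fin_cases l
      · exact absurd rfl hjl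
      · exact Or.inl le_rfl
      · exact Or.inl hab.le
      · exact Or.inr le_rfl
      · exact absurd rfl hjl
      · exact Or.inl le_rfl
      · exact Or.inr hab.le
      · exact Or.inr le_rfl
      · exact absurd rfl hjl)
    (fun i => ![0, n i, 0]) J hJne
    (by
      intro i j hij
      fin_cases j
      · rfl
      · exact absurd (hJmem i) hij
      · rfl)
    (fun _ _ => a) (fun _ _ => b)
    (by
      intro x hx
      rw [hmemJ x hx]
      exact ⟨le_rfl, hab, le_rfl⟩)
    (c₀ * ((Nat.totient (primorial w₁) : ℝ) / ((primorial w₁ : ℕ) : ℝ)) ^ 2)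
    ((b - a) / (32 * (Nat.totient (primorial w₁) : ℝ))) hcR hcΘ
    (by
      intro x _
      set W : ℝ := ((primorial w₁ : ℕ) : ℝ) with hW
      set φ : ℝ := (Nat.totient (primorial w₁) : ℝ) with hφ
      have e1 : c₀ * (φ / W) ^ 2 * ((b - a) / (32 * φ)) ^ 2 * W ^ 2 * Real.sqrt w₁
          = c₀ * (b - a) ^ 2 / 1024 * Real.sqrt w₁ := by
        field_simp
        norm_num
      rw [e1]
      have e2 : c₀ * (b - a) ^ 2 / 1024 * (512 * 3 * 1024 * r * K / c₀ * (W / φ) ^ 6)
          ≤ c₀ * (b - a) ^ 2 / 1024 * Real.sqrt w₁ :=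
        mul_le_mul_of_nonneg_left hrat (by positivity)
      refine le_trans (le_of_eq ?_) e2
      push_cast
      field_simp)
  refine ⟨cF, hcF, max X₁ X₂, fun X hX => ?_⟩
  apply hX₂ X (le_trans (le_max_right _ _) hX)
  refine le_trans (hX₁ X (le_trans (le_max_left _ _) hX)) ?_
  have hsub : (Finset.Ioc (0 : ℤ) (X : ℤ)).filter
      (fun m => (b - a) / (32 * (Nat.totient (primorial w₁) : ℝ)) ≤ Th (primorial w₁) r₀ X a b m)
      ⊆ (Finset.Ioc (0 : ℤ) (X : ℤ)).filter (fun m => ∀ x ∈ J,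
        (b - a) / (32 * (Nat.totient (primorial w₁) : ℝ)) ≤ Th (primorial w₁) r₀ X a b m) := by
    intro m hm
    rw [Finset.mem_filter] at hm ⊢
    exact ⟨hm.1, fun x _ => hm.2⟩
  exact_mod_cast Finset.card_le_card hsub

end Pool.Agent.Lib.MP_bae66e_nt.LP
end

section

/-!
# LP/F5d: clusters at the scale `L(m)`
-/

set_option autoImplicit false

open Finset Filter Topology

namespace Pool.Agent.Lib.MP_bae66e_nt.LP

open Pool.Agent.Lib.MP_bae66e_nt.LL

private lemma F5d_transfer (X H : ℕ) (ε : ℝ) (hε : 0 ≤ ε) (P : ℤ → Prop) (Q : ℕ → Prop)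
    [DecidablePred P] [DecidablePred Q]
    (h : ∀ m : ℕ, 1 ≤ m → ε * X ≤ m → m + H ≤ X → P (m : ℤ) → Q m) :
    (((Finset.Ioc (0 : ℤ) (X : ℤ)).filter P).card : ℝ) ≤
      (((Finset.Icc 1 X).filter Q).card : ℝ) + ε * X + H := by
  have hsub : (Finset.Ioc (0 : ℤ) (X : ℤ)).filter P ⊆
      ((Finset.Icc 1 X).filter Q).image (fun m : ℕ => (m : ℤ)) ∪
        (Finset.Ico 1 ⌈ε * X⌉₊).image (fun m : ℕ => (m : ℤ)) ∪
        Finset.Ioc ((X : ℤ) - H) X := by
    intro m hm
    rw [Finset.mem_filter, Finset.mem_Ioc] at hm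
    obtain ⟨⟨h0, h1⟩, hP⟩ := hm
    obtain ⟨k, rfl⟩ := Int.eq_ofNat_of_zero_le h0.le
    rw [Finset.mem_union, Finset.mem_union, Finset.mem_image, Finset.mem_image, Finset.mem_Ioc]
    have hk1 : 1 ≤ k := by omega
    by_cases h2 : k + H ≤ X
    · left
      by_cases h3 : ε * X ≤ k
      · left
        refine ⟨k, Finset.mem_filter.2 ⟨Finset.mem_Icc.2 ⟨hk1, by omega⟩, h k hk1 h3 h2 hP⟩, rfl⟩
      · right
        refine ⟨k, Finset.mem_Ico.2 ⟨hk1, ?_⟩, rfl⟩
        rw [Nat.lt_ceil]
        exact not_le.1 h3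
    · right
      exact ⟨by omega, h1⟩
  have hc := (Finset.card_le_card hsub).trans
    ((Finset.card_union_le _ _).trans (Nat.add_le_add_right (Finset.card_union_le _ _) _))
  have h1 : (((Finset.Icc 1 X).filter Q).image (fun m : ℕ => (m : ℤ))).card ≤
      ((Finset.Icc 1 X).filter Q).card := Finset.card_image_le
  have h2 : ((Finset.Ico 1 ⌈ε * X⌉₊).image (fun m : ℕ => (m : ℤ))).card ≤ ⌈ε * X⌉₊ - 1 := by
    refine Finset.card_image_le.trans ?_
    rw [Nat.card_Ico]
  have h3 : (Finset.Ioc ((X : ℤ) - H) X).card = H := by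
    rw [Int.card_Ioc]
    omega
  have h4 : ((⌈ε * X⌉₊ - 1 : ℕ) : ℝ) ≤ ε * X := by
    have h5 : 0 ≤ ε * X := by positivity
    rcases Nat.eq_zero_or_pos ⌈ε * X⌉₊ with h6 | h6
    · rw [h6]
      simpa using h5
    · have h7 := Nat.ceil_lt_add_one h5
      rw [Nat.cast_sub h6]
      push_cast
      linarith
  have h5 : ((Finset.Ioc (0 : ℤ) (X : ℤ)).filter P).card ≤
      ((Finset.Icc 1 X).filter Q).card + (⌈ε * X⌉₊ - 1) + H := by omega
  have h6 : (((Finset.Ioc (0 : ℤ) (X : ℤ)).filter P).card : ℝ) ≤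
      (((Finset.Icc 1 X).filter Q).card : ℝ) + ((⌈ε * X⌉₊ - 1 : ℕ) : ℝ) + H := by
    exact_mod_cast h5
  linarith

open Classical in
/-- Few exceptions: for `t ≥ 0`, `g`, `η > 0` there is `ε`-free bound: for large `X` the number of `m ≤ X`
with `m ≥ η X` and such that some prime `p` with `t L(m) < p ≤ t L(X)` has `m + g - p` prime is at most
`η X`.

PROOF. `t = 0`: none (`L(m) ≥ 0`…: `0 < p ≤ 0` is impossible). `t > 0`: `δ` from
`primes_final_segment t (η/2)`; by `L_close η δ`, `t L(m) ≥ (1 - δ) t L(X)`; `p ↦` the pair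
`(p, m + g - p)` determines `m`; the second prime is `≤ X` if `m ≤ X - g`, and there are at most `g ≤ (η/2) X`
other `m`. -/
lemma exceptions_le (t : ℝ) (ht : 0 ≤ t) (g : ℕ) (η : ℝ) (hη : 0 < η) : ∃ X₀ : ℕ, ∀ X : ℕ, X₀ ≤ X →
    (((Finset.Icc 1 X).filter (fun m : ℕ => η * X ≤ m ∧ ∃ p q : ℕ, p.Prime ∧ q.Prime ∧ p + q = m + g ∧
      t * (Real.log m * Real.log (Real.log m)) < p ∧
      (p : ℝ) ≤ t * (Real.log X * Real.log (Real.log X)))).card : ℝ) ≤ η * X := by
  rcases ht.eq_or_lt with h0 | h0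
  · refine ⟨0, fun X _ => ?_⟩
    have h1 : ((Finset.Icc 1 X).filter (fun m : ℕ => η * X ≤ m ∧ ∃ p q : ℕ, p.Prime ∧ q.Prime ∧
        p + q = m + g ∧ t * (Real.log m * Real.log (Real.log m)) < p ∧
        (p : ℝ) ≤ t * (Real.log X * Real.log (Real.log X)))) = ∅ := by
      refine Finset.filter_eq_empty_iff.2 ?_
      rintro m - ⟨-, p, q, hp, -, -, -, h2⟩
      rw [← h0, zero_mul] at h2
      have h3 : (0 : ℝ) < p := by exact_mod_cast hp.pos
      linarith
    rw [h1, Finset.card_empty, Nat.cast_zero]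
    positivity
  · obtain ⟨δ, hδ0, hδ1, X₁, hX₁⟩ := primes_final_segment t (η / 2) h0 (by linarith)
    obtain ⟨X₂, hX₂⟩ := L_close η δ hη hδ0
    refine ⟨max (max X₁ X₂) ⌈2 * g / η⌉₊, fun X hX => ?_⟩
    have hXa : X₁ ≤ X := (le_max_left _ _).trans ((le_max_left _ _).trans hX)
    have hXb : X₂ ≤ X := (le_max_right _ _).trans ((le_max_left _ _).trans hX)
    have hXc : (g : ℝ) ≤ η / 2 * X := by
      have h1 : 2 * (g : ℝ) / η ≤ X :=
        (Nat.le_ceil _).trans (by exact_mod_cast (le_max_right _ _).trans hX)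
      rw [div_le_iff₀ hη] at h1
      linarith
    have hcard := hX₁ X hXa
    obtain ⟨-, hL⟩ := hX₂ X hXb
    have hsub : ((Finset.Icc 1 X).filter (fun m : ℕ => η * X ≤ m ∧ ∃ p q : ℕ, p.Prime ∧ q.Prime ∧
        p + q = m + g ∧ t * (Real.log m * Real.log (Real.log m)) < p ∧
        (p : ℝ) ≤ t * (Real.log X * Real.log (Real.log X)))) ⊆
        ((((Finset.Icc 1 X).filter (fun p : ℕ => p.Prime ∧
          (1 - δ) * t * Real.log X * Real.log (Real.log X) < p ∧
          (p : ℝ) ≤ t * Real.log X * Real.log (Real.log X))) ×ˢ (QQ 0 X)).image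
            (fun z : ℕ × ℕ => z.1 + z.2 - g)) ∪ Finset.Ioc (X - g) X := by
      intro m hm
      rw [Finset.mem_filter, Finset.mem_Icc] at hm
      obtain ⟨⟨hm1, hm2⟩, hm3, p, q, hp, hq, hpq, h3, h4⟩ := hm
      rw [Finset.mem_union, Finset.mem_Ioc]
      by_cases h5 : X - g < m
      · exact Or.inr ⟨h5, hm2⟩
      · left
        rw [Finset.mem_image]
        have hq2 := hq.two_le
        have hp2 := hp.two_le
        refine ⟨(p, q), ?_, ?_⟩
        · rw [Finset.mem_product]
          refine ⟨Finset.mem_filter.2 ⟨Finset.mem_Icc.2 ⟨?_, ?_⟩, hp, ?_, ?_⟩, ?_⟩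
          · change 1 ≤ p
            omega
          · change p ≤ X
            omega
          · change (1 - δ) * t * Real.log X * Real.log (Real.log X) < (p : ℝ)
            have h6 := (hL m hm3 hm2).1
            have h7 : t * ((1 - δ) * (Real.log X * Real.log (Real.log X))) ≤
                t * (Real.log m * Real.log (Real.log m)) := mul_le_mul_of_nonneg_left h6 h0.le
            have h8 : (1 - δ) * t * Real.log X * Real.log (Real.log X) =
                t * ((1 - δ) * (Real.log X * Real.log (Real.log X))) := by ring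
            rw [h8]
            linarith
          · change (p : ℝ) ≤ t * Real.log X * Real.log (Real.log X)
            rw [mul_assoc]
            exact h4
          · change q ∈ QQ 0 X
            rw [QQ, Finset.mem_filter, Finset.mem_Ioc]
            exact ⟨⟨hq.pos, by omega⟩, hq⟩
        · change p + q - g = m
          omega
    have hc := (Finset.card_le_card hsub).trans (Finset.card_union_le _ _)
    have h6 := (Finset.card_image_le (s := (((Finset.Icc 1 X).filter (fun p : ℕ => p.Prime ∧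
          (1 - δ) * t * Real.log X * Real.log (Real.log X) < p ∧
          (p : ℝ) ≤ t * Real.log X * Real.log (Real.log X))) ×ˢ (QQ 0 X)))
      (f := fun z : ℕ × ℕ => z.1 + z.2 - g))
    rw [Finset.card_product] at h6
    rw [Nat.card_Ioc] at hc
    have h7 := (hc.trans (Nat.add_le_add_right h6 _)).trans
      (Nat.add_le_add_left (show X - (X - g) ≤ g by omega) _)
    have h8 : (((Finset.Icc 1 X).filter (fun m : ℕ => η * X ≤ m ∧ ∃ p q : ℕ, p.Prime ∧ q.Prime ∧
        p + q = m + g ∧ t * (Real.log m * Real.log (Real.log m)) < p ∧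
        (p : ℝ) ≤ t * (Real.log X * Real.log (Real.log X)))).card : ℝ) ≤
        (((Finset.Icc 1 X).filter (fun p : ℕ => p.Prime ∧
          (1 - δ) * t * Real.log X * Real.log (Real.log X) < p ∧
          (p : ℝ) ≤ t * Real.log X * Real.log (Real.log X))).card : ℝ) * ((QQ 0 X).card : ℝ) + g := by
      exact_mod_cast h7
    have h9 : (((Finset.Icc 1 X).filter (fun p : ℕ => p.Prime ∧
          (1 - δ) * t * Real.log X * Real.log (Real.log X) < p ∧
          (p : ℝ) ≤ t * Real.log X * Real.log (Real.log X))).card : ℝ) * ((QQ 0 X).card : ℝ) ≤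
        η / 2 * X := hcard
    linarith

open Classical in
/-- **Clusters** at the scale `L(m) = log m loglog m`.

PROOF. `cluster_X` (`c₀`). Let `η = c₀/(16 r)`. Remove the `m < η X`, the `m > X - max h`, and for each `i`
and `t ∈ {a, b, c}` the exceptions of `exceptions_le t (h i) η`: at least `(c₀/2) X` even `m` remain. For them
`NN (m + h i) x y` is the same for `x, y` at the scale `L(m)` and at the scale `L(X)`
(`NN_eq_of_segments`, `L(m) ≤ L(X)` by `L_close`), and by `Nw_eq_NN` (`m + h i ≤ X`), `NN_add`: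
`NN (0, c] = 0 + n i + 0`, `NN (a, b] = n i`. -/
theorem cluster_Lm {r : ℕ} (hr : 1 ≤ r) (h : Fin r → ℕ) (hinj : Function.Injective h)
    (heven : ∀ i, Even (h i)) (hadm : ∀ p : ℕ, p.Prime → ∃ c : ℕ, ∀ i, ¬ (h i ≡ c [MOD p]))
    (n : Fin r → ℕ) (a b c : ℝ) (ha : 0 ≤ a) (hab : a < b) (hbc : b ≤ c) :
    ∃ c' : ℝ, 0 < c' ∧ ∃ X₀ : ℕ, ∀ X : ℕ, X₀ ≤ X →
      c' * X ≤ (((Finset.Icc 1 X).filter (fun m : ℕ => Even m ∧ ∀ i,
        NN (m + h i) 0 (c * (Real.log m * Real.log (Real.log m))) = n i ∧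
        NN (m + h i) (a * (Real.log m * Real.log (Real.log m)))
          (b * (Real.log m * Real.log (Real.log m))) = n i)).card : ℝ) := by
  obtain ⟨c₀, hc₀, X₁, hX₁⟩ := cluster_X hr h hinj heven hadm n a b c ha hab hbc
  have hr0 : (0 : ℝ) < r := by exact_mod_cast hr
  obtain ⟨η, hη⟩ : ∃ η, η = c₀ / (16 * r) := ⟨_, rfl⟩
  have hη0 : 0 < η := by rw [hη]; positivity
  have hηr : η * r = c₀ / 16 := by
    rw [hη]
    field_simp
  have hη1 : η ≤ c₀ / 16 := by
    have h1 : (1 : ℝ) ≤ r := by exact_mod_cast hr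
    nlinarith
  obtain ⟨X₂, hX₂⟩ := L_close η (1 / 2) hη0 (by norm_num)
  obtain ⟨H, hH⟩ : ∃ H : ℕ, ∀ i, h i ≤ H :=
    ⟨∑ i, h i, fun i => Finset.single_le_sum (fun _ _ => Nat.zero_le _) (Finset.mem_univ i)⟩
  -- the exceptional sets
  have hb : 0 ≤ b := by linarith
  have hc : 0 ≤ c := by linarith
  have hexc : ∀ t : ℝ, 0 ≤ t → ∃ X₀ : ℕ, ∀ X : ℕ, X₀ ≤ X → ∀ i,
      (((Finset.Icc 1 X).filter (fun m : ℕ => η * X ≤ m ∧ ∃ p q : ℕ, p.Prime ∧ q.Prime ∧
        p + q = m + h i ∧ t * (Real.log m * Real.log (Real.log m)) < p ∧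
        (p : ℝ) ≤ t * (Real.log X * Real.log (Real.log X)))).card : ℝ) ≤ η * X := by
    intro t ht
    choose Y hY using fun i => exceptions_le t ht (h i) η hη0
    refine ⟨∑ i, Y i, fun X hX i => hY i X (le_trans ?_ hX)⟩
    exact Finset.single_le_sum (f := Y) (fun _ _ => Nat.zero_le _) (Finset.mem_univ i)
  obtain ⟨Xa, hXa⟩ := hexc a ha
  obtain ⟨Xb, hXb⟩ := hexc b hb
  obtain ⟨Xc, hXc⟩ := hexc c hc
  refine ⟨c₀ / 2, by linarith, max (max X₁ X₂) (max (max Xa Xb) (max Xc ⌈4 * H / c₀⌉₊)),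
    fun X hX => ?_⟩
  have g1 : X₁ ≤ X := (le_max_left _ _).trans ((le_max_left _ _).trans hX)
  have g2 : X₂ ≤ X := (le_max_right _ _).trans ((le_max_left _ _).trans hX)
  have g3 : max (max Xa Xb) (max Xc ⌈4 * H / c₀⌉₊) ≤ X := (le_max_right _ _).trans hX
  have g4 : Xa ≤ X := (le_max_left _ _).trans ((le_max_left _ _).trans g3)
  have g5 : Xb ≤ X := (le_max_right _ _).trans ((le_max_left _ _).trans g3)
  have g6 : Xc ≤ X := (le_max_left _ _).trans ((le_max_right _ _).trans g3)
  have g7 : ⌈4 * (H : ℝ) / c₀⌉₊ ≤ X := (le_max_right _ _).trans ((le_max_right _ _).trans g3)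
  have g8 : (H : ℝ) ≤ c₀ / 4 * X := by
    have h1 : 4 * (H : ℝ) / c₀ ≤ X := (Nat.le_ceil _).trans (by exact_mod_cast g7)
    rw [div_le_iff₀ hc₀] at h1
    linarith
  obtain ⟨hL1, hL⟩ := hX₂ X g2
  have hX0 : (0 : ℝ) ≤ X := Nat.cast_nonneg X
  obtain ⟨E, hE⟩ : ∃ E : ℝ → Fin r → Finset ℕ, E = fun t i =>
      (Finset.Icc 1 X).filter (fun m : ℕ => η * X ≤ m ∧ ∃ p q : ℕ, p.Prime ∧ q.Prime ∧
        p + q = m + h i ∧ t * (Real.log m * Real.log (Real.log m)) < p ∧
        (p : ℝ) ≤ t * (Real.log X * Real.log (Real.log X))) := ⟨_, rfl⟩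
  have hEa : ∀ i, ((E a i).card : ℝ) ≤ η * X := by
    intro i
    rw [hE]
    exact hXa X g4 i
  have hEb : ∀ i, ((E b i).card : ℝ) ≤ η * X := by
    intro i
    rw [hE]
    exact hXb X g5 i
  have hEc : ∀ i, ((E c i).card : ℝ) ≤ η * X := by
    intro i
    rw [hE]
    exact hXc X g6 i
  have hnE : ∀ t i (m : ℕ), 1 ≤ m → m ≤ X → η * X ≤ m → m ∉ E t i →
      ∀ p q : ℕ, p.Prime → q.Prime → p + q = m + h i →
        ¬ (t * (Real.log m * Real.log (Real.log m)) < p ∧
          (p : ℝ) ≤ t * (Real.log X * Real.log (Real.log X))) := by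
    intro t i m h1 h2 h3 h4 p q hp hq hpq h5
    rw [hE] at h4
    exact h4 (Finset.mem_filter.2 ⟨Finset.mem_Icc.2 ⟨h1, h2⟩, h3, p, q, hp, hq, hpq, h5.1, h5.2⟩)
  -- the comparison
  have key := F5d_transfer X H η hη0.le
    (fun m : ℤ => Even m ∧ ∀ (i : Fin r) (l : Fin 3), Nw X ((![0, a, b] : Fin 3 → ℝ) l)
      ((![a, b, c] : Fin 3 → ℝ) l) (m + h i) = (![0, n i, 0] : Fin 3 → ℕ) l)
    (fun m : ℕ => (Even m ∧ ∀ i,
        NN (m + h i) 0 (c * (Real.log m * Real.log (Real.log m))) = n i ∧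
        NN (m + h i) (a * (Real.log m * Real.log (Real.log m)))
          (b * (Real.log m * Real.log (Real.log m))) = n i) ∨
      (∃ i, m ∈ E a i ∨ m ∈ E b i ∨ m ∈ E c i)) (by
      rintro m hm1 hm2 hm3 ⟨he, hN⟩
      by_cases hex : ∃ i, m ∈ E a i ∨ m ∈ E b i ∨ m ∈ E c i
      · exact Or.inr hex
      · left
        push Not at hex
        obtain ⟨h1, h2⟩ := hL m hm2 (by omega)
        have hmX : m ≤ X := by omega
        refine ⟨by exact_mod_cast he, fun i => ?_⟩
        have hmi : m + h i ≤ X := by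
          have := hH i
          omega
        have hL0 : 0 ≤ Real.log X * Real.log (Real.log X) := by linarith
        have e0 := hN i 0
        have e1 := hN i 1
        have e2 := hN i 2
        have e0' : NN (m + h i) (0 * (Real.log X * Real.log (Real.log X)))
            (a * (Real.log X * Real.log (Real.log X))) = 0 := by
          rw [← Nw_eq_NN X (m + h i) 0 a le_rfl ha hmi hL0]
          push_cast
          exact e0
        have e1' : NN (m + h i) (a * (Real.log X * Real.log (Real.log X)))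
            (b * (Real.log X * Real.log (Real.log X))) = n i := by
          rw [← Nw_eq_NN X (m + h i) a b ha hab.le hmi hL0]
          push_cast
          exact e1
        have e2' : NN (m + h i) (b * (Real.log X * Real.log (Real.log X)))
            (c * (Real.log X * Real.log (Real.log X))) = 0 := by
          rw [← Nw_eq_NN X (m + h i) b c hb hbc hmi hL0]
          push_cast
          exact e2
        have e3 := NN_add (m + h i) (0 * (Real.log X * Real.log (Real.log X)))
          (a * (Real.log X * Real.log (Real.log X))) (b * (Real.log X * Real.log (Real.log X)))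
          (mul_le_mul_of_nonneg_right ha hL0) (mul_le_mul_of_nonneg_right hab.le hL0)
        have e4 := NN_add (m + h i) (0 * (Real.log X * Real.log (Real.log X)))
          (b * (Real.log X * Real.log (Real.log X))) (c * (Real.log X * Real.log (Real.log X)))
          (mul_le_mul_of_nonneg_right hb hL0) (mul_le_mul_of_nonneg_right hbc hL0)
        have e5 : NN (m + h i) 0 (c * (Real.log X * Real.log (Real.log X))) = n i := by
          rw [zero_mul] at e0' e3 e4
          omega
        have s1 := NN_eq_of_segments (m + h i) 0 0 (c * (Real.log X * Real.log (Real.log X)))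
          (c * (Real.log m * Real.log (Real.log m))) le_rfl (mul_le_mul_of_nonneg_left h2 hc)
          (fun p q hp hq _ h5 => by
            have h6 : (0 : ℝ) < p := by exact_mod_cast hp.pos
            linarith [h5.2])
          (fun p q hp hq hpq => hnE c i m hm1 hmX hm2 (hex i).2.2 p q hp hq hpq)
        have s2 := NN_eq_of_segments (m + h i) (a * (Real.log X * Real.log (Real.log X)))
          (a * (Real.log m * Real.log (Real.log m))) (b * (Real.log X * Real.log (Real.log X)))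
          (b * (Real.log m * Real.log (Real.log m))) (mul_le_mul_of_nonneg_left h2 ha)
          (mul_le_mul_of_nonneg_left h2 hb)
          (fun p q hp hq hpq => hnE a i m hm1 hmX hm2 (hex i).1 p q hp hq hpq)
          (fun p q hp hq hpq => hnE b i m hm1 hmX hm2 (hex i).2.1 p q hp hq hpq)
        exact ⟨s1.trans e5, s2.trans e1'⟩)
  have hcount : c₀ * X ≤ (((Finset.Ioc (0 : ℤ) (X : ℤ)).filter (fun m : ℤ =>
      Even m ∧ ∀ (i : Fin r) (l : Fin 3), Nw X ((![0, a, b] : Fin 3 → ℝ) l)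
      ((![a, b, c] : Fin 3 → ℝ) l) (m + h i) = (![0, n i, 0] : Fin 3 → ℕ) l)).card : ℝ) := by
    refine (hX₁ X g1).trans (Nat.cast_le.2 (Finset.card_le_card fun m hm => ?_))
    rw [Finset.mem_filter] at hm ⊢
    exact hm
  -- the exceptions
  have hfin : (((Finset.Icc 1 X).filter (fun m : ℕ => (Even m ∧ ∀ i,
        NN (m + h i) 0 (c * (Real.log m * Real.log (Real.log m))) = n i ∧
        NN (m + h i) (a * (Real.log m * Real.log (Real.log m)))
          (b * (Real.log m * Real.log (Real.log m))) = n i) ∨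
      (∃ i, m ∈ E a i ∨ m ∈ E b i ∨ m ∈ E c i))).card : ℝ) ≤
      (((Finset.Icc 1 X).filter (fun m : ℕ => Even m ∧ ∀ i,
        NN (m + h i) 0 (c * (Real.log m * Real.log (Real.log m))) = n i ∧
        NN (m + h i) (a * (Real.log m * Real.log (Real.log m)))
          (b * (Real.log m * Real.log (Real.log m))) = n i)).card : ℝ) + 3 * (c₀ / 16) * X := by
    have hsub : (Finset.Icc 1 X).filter (fun m : ℕ => (Even m ∧ ∀ i,
        NN (m + h i) 0 (c * (Real.log m * Real.log (Real.log m))) = n i ∧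
        NN (m + h i) (a * (Real.log m * Real.log (Real.log m)))
          (b * (Real.log m * Real.log (Real.log m))) = n i) ∨
      (∃ i, m ∈ E a i ∨ m ∈ E b i ∨ m ∈ E c i)) ⊆
        ((Finset.Icc 1 X).filter (fun m : ℕ => Even m ∧ ∀ i,
        NN (m + h i) 0 (c * (Real.log m * Real.log (Real.log m))) = n i ∧
        NN (m + h i) (a * (Real.log m * Real.log (Real.log m)))
          (b * (Real.log m * Real.log (Real.log m))) = n i)) ∪
        Finset.univ.biUnion (fun i => E a i ∪ (E b i ∪ E c i)) := by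
      intro m hm
      rw [Finset.mem_filter] at hm
      rw [Finset.mem_union, Finset.mem_filter, Finset.mem_biUnion]
      rcases hm.2 with h1 | ⟨i, h1⟩
      · exact Or.inl ⟨hm.1, h1⟩
      · refine Or.inr ⟨i, Finset.mem_univ i, ?_⟩
        rw [Finset.mem_union, Finset.mem_union]
        exact h1
    have h1 := (Finset.card_le_card hsub).trans (Finset.card_union_le _ _)
    have h2 : ((Finset.univ.biUnion (fun i => E a i ∪ (E b i ∪ E c i))).card : ℝ) ≤
        3 * (c₀ / 16) * X := by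
      have h3 : (Finset.univ.biUnion (fun i => E a i ∪ (E b i ∪ E c i))).card ≤
          ∑ i : Fin r, ((E a i).card + ((E b i).card + (E c i).card)) :=
        Finset.card_biUnion_le.trans (Finset.sum_le_sum fun i _ =>
          (Finset.card_union_le _ _).trans (Nat.add_le_add_left (Finset.card_union_le _ _) _))
      have h4 : ((∑ i : Fin r, ((E a i).card + ((E b i).card + (E c i).card)) : ℕ) : ℝ) ≤
          ∑ i : Fin r, (3 * (η * X)) := by
        push_cast
        refine Finset.sum_le_sum fun i _ => ?_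
        have h5 := hEa i
        have h6 := hEb i
        have h7 := hEc i
        linarith
      rw [Finset.sum_const, Finset.card_univ, Fintype.card_fin, nsmul_eq_mul] at h4
      have h5 : ((Finset.univ.biUnion (fun i => E a i ∪ (E b i ∪ E c i))).card : ℝ) ≤
          ((∑ i : Fin r, ((E a i).card + ((E b i).card + (E c i).card)) : ℕ) : ℝ) := by
        exact_mod_cast h3
      have h6 : (r : ℝ) * (3 * (η * X)) = 3 * (η * r) * X := by ring
      rw [h6, hηr] at h4
      linarith
    have h3 : (((Finset.Icc 1 X).filter (fun m : ℕ => (Even m ∧ ∀ i,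
        NN (m + h i) 0 (c * (Real.log m * Real.log (Real.log m))) = n i ∧
        NN (m + h i) (a * (Real.log m * Real.log (Real.log m)))
          (b * (Real.log m * Real.log (Real.log m))) = n i) ∨
      (∃ i, m ∈ E a i ∨ m ∈ E b i ∨ m ∈ E c i))).card : ℝ) ≤
      (((Finset.Icc 1 X).filter (fun m : ℕ => Even m ∧ ∀ i,
        NN (m + h i) 0 (c * (Real.log m * Real.log (Real.log m))) = n i ∧
        NN (m + h i) (a * (Real.log m * Real.log (Real.log m)))
          (b * (Real.log m * Real.log (Real.log m))) = n i)).card : ℝ) +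
        ((Finset.univ.biUnion (fun i => E a i ∪ (E b i ∪ E c i))).card : ℝ) := by
      exact_mod_cast h1
    linarith
  have h9 : η * X ≤ c₀ / 16 * X := mul_le_mul_of_nonneg_right hη1 hX0
  linarith

end Pool.Agent.Lib.MP_bae66e_nt.LP
end
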