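import Pool.Agent.Lib.MP_bae66e_nt.Mg.G071

section

/-!
# LP/S3c: many `m` for which all windows are rich
-/

set_option autoImplicit false

open Finset Filter Topology

namespace Pool.Agent.Lib.MP_bae66e_nt.LP

open Pool.Agent.Lib.MP_bae66e_nt.LL

/-- The pairs of the last (incomplete) cell: at most `φ(W₀)` of them. -/
private lemma s3c_last (W₀ X s : ℕ) (R : Finset (ℕ × ℕ)) (hR : R ⊆ cells W₀ X s) :
    (R.card : ℝ) - (Nat.totient W₀ : ℝ)
      ≤ ((R.filter (fun bi => bi.2 < X / s)).card : ℝ) := by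
  have h1 : (R.filter (fun bi => bi.2 < X / s)).card
      + (R.filter (fun bi => ¬ bi.2 < X / s)).card = R.card :=
    Finset.card_filter_add_card_filter_not _
  have h2 : (R.filter (fun bi => ¬ bi.2 < X / s)).card ≤ Nat.totient W₀ := by
    have h3 : R.filter (fun bi => ¬ bi.2 < X / s) ⊆
        ((Finset.range W₀).filter (fun b => Nat.Coprime b W₀)) ×ˢ {X / s} := by
      intro bi hbi
      rw [Finset.mem_filter] at hbi
      have h4 := hR hbi.1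
      unfold cells at h4
      rw [Finset.mem_product] at h4 ⊢
      refine ⟨h4.1, ?_⟩
      have h5 := h4.2
      rw [Finset.mem_range] at h5
      rw [Finset.mem_singleton]
      have h6 := hbi.2
      omega
    calc (R.filter (fun bi => ¬ bi.2 < X / s)).card
        ≤ (((Finset.range W₀).filter (fun b => Nat.Coprime b W₀)) ×ˢ ({X / s} : Finset ℕ)).card :=
          Finset.card_le_card h3
      _ = ((Finset.range W₀).filter (fun b => Nat.Coprime b W₀)).card := by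
          rw [Finset.card_product, Finset.card_singleton, mul_one]
      _ = Nat.totient W₀ := by
          rw [Nat.totient_eq_card_coprime]
          congr 1
          ext b
          simp only [Finset.mem_filter, Nat.coprime_comm]
  have h3 : ((R.filter (fun bi => bi.2 < X / s)).card : ℝ)
      + ((R.filter (fun bi => ¬ bi.2 < X / s)).card : ℝ) = (R.card : ℝ) := by exact_mod_cast h1
  have h4 : ((R.filter (fun bi => ¬ bi.2 < X / s)).card : ℝ) ≤ (Nat.totient W₀ : ℝ) := by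
    exact_mod_cast h2
  linarith

/-- The bounds of the windows. -/
private lemma s3c_yX_le (X : ℕ) (hL : 0 ≤ Real.log X * ell X) {t : ℝ} (ht : 0 ≤ t) :
    (yX t X : ℝ) ≤ t * (Real.log X * ell X) := by
  have h : t * Real.log X * Real.log (Real.log X) = t * (Real.log X * ell X) := by
    unfold ell; ring
  unfold yX
  rw [h]
  exact Nat.floor_le (mul_nonneg ht hL)

private lemma s3c_le_yX (X : ℕ) (t : ℝ) : t * (Real.log X * ell X) - 1 ≤ (yX t X : ℝ) := by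
  have h : t * Real.log X * Real.log (Real.log X) = t * (Real.log X * ell X) := by
    unfold ell; ring
  unfold yX
  rw [h]
  exact (Nat.sub_one_lt_floor _).le

/-- One scale. Let `N ≥ 1` (number of windows), `M = 8 N + 8`, `κ > 0`, `κ L/8 ≤ l ≤ κ L/4 - 1`,
`L = log X loglog X`. If the conclusion of `uniformly_rich` holds (`hrich`), then
`#{m ∈ (0, X] : Th W₀ r X (e κ) ((e + 1) κ) m ≥ κ/(640 φ(W₀)) for all e < N} ≥ (1/(10^5 K N)) (φ(W₀)/W₀)² X`.

PROOF. `window_ge` with `u = yX (e κ) X`, `v = yX ((e + 1) κ) X`: `v - u ≥ κ L - 1 ≥ 4 l + 3 ≥ 2 l + 1` and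
`v ≤ N κ L ≤ 8 N l ≤ (M - 1) l` (`yX_le`, `le_yX`); `θ = l/(80 φ log X) ≥ κ ell X/(640 φ)`, so
`Th ≥ θ/ell X ≥ κ/(640 φ)`. The pairs with `i = X/(M l)` (at most `φ(W₀)`) are omitted, since for
`i < X/(M l)` all `m` of the cell are in `(0, X]`; by `hX` at least `(1/(800 K)) (φ²/W₀) X/(M l)` pairs
remain. `card_ge_of_pairs`: `l/W₀ - 1 ≥ l/(2 W₀)` for `l ≥ 2 W₀`; so the number of `m` is at least
`(1/(800 K)) (φ²/W₀) (X/(M l)) l/(2 W₀) = (1/(1600 K M)) (φ/W₀)² X`, and `M ≤ 16 N`. -/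
theorem one_scale (K : ℝ) (hK1 : 1 ≤ K) (W₀ X l N : ℕ) (hW : 1 ≤ W₀) (hN : 1 ≤ N) (κ : ℝ)
    (hκ : 0 < κ) (r : ℤ) (hL : 0 < Real.log X * ell X) (hell : 0 < ell X) (hlog : 0 < Real.log X)
    (hl1 : κ * (Real.log X * ell X) / 8 ≤ l) (hl2 : (l : ℝ) ≤ κ * (Real.log X * ell X) / 4 - 1)
    (hlW : 2 * W₀ ≤ l)
    (hX : (Nat.totient W₀ : ℝ)
      ≤ 1 / (800 * K) * ((Nat.totient W₀ : ℝ) ^ 2 / W₀) * ((X : ℝ) / (((8 * N + 8) * l : ℕ) : ℝ)))
    (hrich : 1 / (400 * K) * ((Nat.totient W₀ : ℝ) ^ 2 / W₀) * ((X : ℝ) / (((8 * N + 8) * l : ℕ) : ℝ))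
      ≤ (((cells W₀ X ((8 * N + 8) * l)).filter (fun bi => ∀ e, e < 8 * N + 8 →
        (l : ℝ) / (80 * (Nat.totient W₀ : ℝ) * Real.log X)
          ≤ nb W₀ X l bi.1 ((8 * N + 8) * bi.2 + e))).card : ℝ)) :
    1 / (10 ^ 5 * K * N) * ((Nat.totient W₀ : ℝ) / W₀) ^ 2 * X
      ≤ (((Finset.Ioc (0 : ℤ) (X : ℤ)).filter (fun m => ∀ e : ℕ, e < N →
        κ / (640 * (Nat.totient W₀ : ℝ)) ≤ Th W₀ r X (e * κ) ((e + 1) * κ) m)).card : ℝ) := by
  classical
  set L : ℝ := Real.log X * ell X with hLdef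
  have hW0 : (0 : ℝ) < W₀ := by exact_mod_cast hW
  have hφn : 0 < Nat.totient W₀ := Nat.totient_pos.mpr hW
  have hφ : (0 : ℝ) < (Nat.totient W₀ : ℝ) := by exact_mod_cast hφn
  have hl : 1 ≤ l := by omega
  have hlR : (0 : ℝ) < l := by exact_mod_cast hl
  have hNR : (1 : ℝ) ≤ N := by exact_mod_cast hN
  set M : ℕ := 8 * N + 8 with hM
  have hM1 : 1 ≤ M := by omega
  have hMR : (M : ℝ) = 8 * N + 8 := by rw [hM]; push_cast; ring
  have hMR0 : (0 : ℝ) < M := by rw [hMR]; linarith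
  have hMl : 0 < M * l := Nat.mul_pos hM1 hl
  set R : Finset (ℕ × ℕ) := (cells W₀ X (M * l)).filter (fun bi => ∀ e, e < M →
        (l : ℝ) / (80 * (Nat.totient W₀ : ℝ) * Real.log X)
          ≤ nb W₀ X l bi.1 (M * bi.2 + e)) with hR
  set P : Finset (ℕ × ℕ) := R.filter (fun bi => bi.2 < X / (M * l)) with hP
  set Z : Finset ℤ := (Finset.Ioc (0 : ℤ) (X : ℤ)).filter (fun m => ∀ e : ℕ, e < N →
        κ / (640 * (Nat.totient W₀ : ℝ)) ≤ Th W₀ r X (e * κ) ((e + 1) * κ) m) with hZ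
  have hRs : R ⊆ cells W₀ X (M * l) := Finset.filter_subset _ _
  have hPR := s3c_last W₀ X (M * l) R hRs
  rw [← hP] at hPR
  have hPcard : 1 / (800 * K) * ((Nat.totient W₀ : ℝ) ^ 2 / W₀) * ((X : ℝ) / ((M * l : ℕ) : ℝ))
      ≤ (P.card : ℝ) := by
    have h1 : 1 / (400 * K) * ((Nat.totient W₀ : ℝ) ^ 2 / W₀) * ((X : ℝ) / ((M * l : ℕ) : ℝ))
        = 2 * (1 / (800 * K) * ((Nat.totient W₀ : ℝ) ^ 2 / W₀) * ((X : ℝ) / ((M * l : ℕ) : ℝ))) := by
      have hK0 : K ≠ 0 := by positivity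
      field_simp
      ring
    rw [h1] at hrich
    linarith
  have hPb : ∀ bi ∈ P, bi.1 < W₀ := by
    intro bi hbi
    have h1 : bi ∈ cells W₀ X (M * l) := hRs (Finset.mem_filter.mp hbi).1
    unfold cells at h1
    rw [Finset.mem_product, Finset.mem_filter, Finset.mem_range] at h1
    exact h1.1.1
  have hZm : ∀ bi ∈ P, ∀ m : ℤ, (W₀ : ℤ) ∣ m + r - bi.1 →
      (((M * (bi.2 + 1) - 1) * l : ℕ) : ℤ) < m →
      m ≤ ((M * (bi.2 + 1) * l : ℕ) : ℤ) → m ∈ Z := by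
    intro bi hbi m hm hm1 hm2
    have hbi' := Finset.mem_filter.mp hbi
    have hrichbi := (Finset.mem_filter.mp hbi'.1).2
    have hi : bi.2 < X / (M * l) := hbi'.2
    rw [hZ, Finset.mem_filter, Finset.mem_Ioc]
    refine ⟨⟨?_, ?_⟩, ?_⟩
    · have h0 : (0 : ℤ) ≤ (((M * (bi.2 + 1) - 1) * l : ℕ) : ℤ) := Int.natCast_nonneg _
      linarith
    · have h1 : (bi.2 + 1) * (M * l) ≤ X := by
        have h2 : bi.2 + 1 ≤ X / (M * l) := hi
        calc (bi.2 + 1) * (M * l) ≤ X / (M * l) * (M * l) := Nat.mul_le_mul_right _ h2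
          _ ≤ X := Nat.div_mul_le_self _ _
      have h3 : M * (bi.2 + 1) * l = (bi.2 + 1) * (M * l) := by ring
      rw [h3] at hm2
      have h4 : (((bi.2 + 1) * (M * l) : ℕ) : ℤ) ≤ (X : ℤ) := by exact_mod_cast h1
      linarith
    · intro e he
      have heN : (e : ℝ) + 1 ≤ N := by exact_mod_cast he
      have he0 : (0 : ℝ) ≤ e := Nat.cast_nonneg e
      have hu := s3c_yX_le X hL.le (t := (e : ℝ) * κ) (by positivity)
      have hv := s3c_yX_le X hL.le (t := ((e : ℝ) + 1) * κ) (by positivity)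
      have hv' := s3c_le_yX X (((e : ℝ) + 1) * κ)
      rw [← hLdef] at hu hv hv'
      set u : ℕ := yX ((e : ℝ) * κ) X with hudef
      set v : ℕ := yX (((e : ℝ) + 1) * κ) X with hvdef
      have huv : u + (2 * l + 1) ≤ v := by
        have h1 : (u : ℝ) + (2 * l + 1) ≤ v := by
          nlinarith
        exact_mod_cast h1
      have hvM : v ≤ (M - 1) * l := by
        have h1 : (v : ℝ) ≤ 8 * N * l := by
          have h2 : ((e : ℝ) + 1) * κ * L ≤ N * (κ * L) := by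
            have h3 : 0 ≤ κ * L := by positivity
            nlinarith
          have h4 : κ * L ≤ 8 * l := by linarith
          have h5 : (N : ℝ) * (κ * L) ≤ N * (8 * l) := by
            apply mul_le_mul_of_nonneg_left h4; linarith
          linarith
        have h2 : v ≤ 8 * N * l := by exact_mod_cast h1
        calc v ≤ 8 * N * l := h2
          _ ≤ (M - 1) * l := Nat.mul_le_mul_right _ (by omega)
      have hw := window_ge W₀ X l M bi.1 bi.2 hW hl hM1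
        ((l : ℝ) / (80 * (Nat.totient W₀ : ℝ) * Real.log X)) hrichbi r m hm hm1 hm2 u v huv hvM
      unfold Th Wd
      rw [Finset.filter_filter, le_div_iff₀ hell]
      have h1 : κ / (640 * (Nat.totient W₀ : ℝ)) * ell X
          ≤ (l : ℝ) / (80 * (Nat.totient W₀ : ℝ) * Real.log X) := by
        rw [le_div_iff₀ (by positivity)]
        have h2 : κ / (640 * (Nat.totient W₀ : ℝ)) * ell X * (80 * (Nat.totient W₀ : ℝ) * Real.log X)
            = κ * L / 8 := by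
          rw [hLdef]
          field_simp
          norm_num
        rw [h2]
        exact hl1
      exact le_trans h1 hw
  have hcard := card_ge_of_pairs W₀ l M hW hl hM1 r P hPb Z hZm
  have hlW' : (2 : ℝ) * W₀ ≤ l := by exact_mod_cast hlW
  have h1 : (l : ℝ) / (2 * W₀) ≤ (l : ℝ) / W₀ - 1 := by
    rw [div_le_iff₀ (by positivity)]
    have h2 : ((l : ℝ) / W₀ - 1) * (2 * W₀) = 2 * l - 2 * W₀ := by
      field_simp
    rw [h2]
    linarith
  have hK0 : (0 : ℝ) < K := by linarith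
  have h2 : 1 / (800 * K) * ((Nat.totient W₀ : ℝ) ^ 2 / W₀) * ((X : ℝ) / ((M * l : ℕ) : ℝ))
      * ((l : ℝ) / (2 * W₀)) ≤ (P.card : ℝ) * ((l : ℝ) / W₀ - 1) := by
    apply mul_le_mul hPcard h1 (by positivity) (Nat.cast_nonneg _)
  have h3 : 1 / (800 * K) * ((Nat.totient W₀ : ℝ) ^ 2 / W₀) * ((X : ℝ) / ((M * l : ℕ) : ℝ))
      * ((l : ℝ) / (2 * W₀)) = 1 / (1600 * K * M) * ((Nat.totient W₀ : ℝ) / W₀) ^ 2 * X := by
    push_cast
    field_simp
    ring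
  have h4 : 1 / (10 ^ 5 * K * N) * ((Nat.totient W₀ : ℝ) / W₀) ^ 2 * X
      ≤ 1 / (1600 * K * M) * ((Nat.totient W₀ : ℝ) / W₀) ^ 2 * X := by
    have h5 : 1 / (10 ^ 5 * K * N) ≤ 1 / (1600 * K * M) := by
      apply one_div_le_one_div_of_le (by positivity)
      rw [hMR]
      have : K * (8 * N + 8) ≤ K * (16 * N) := by
        apply mul_le_mul_of_nonneg_left _ hK0.le
        linarith
      have h6 : 0 ≤ K * N := by positivity
      nlinarith
    have h6 : (0 : ℝ) ≤ ((Nat.totient W₀ : ℝ) / W₀) ^ 2 := by positivity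
    have h7 : (0 : ℝ) ≤ X := Nat.cast_nonneg X
    apply mul_le_mul_of_nonneg_right _ h7
    exact mul_le_mul_of_nonneg_right h5 h6
  linarith

end Pool.Agent.Lib.MP_bae66e_nt.LP
end

section

/-!
# LP/S3d: many `m` for which all windows are rich
-/

set_option autoImplicit false

open Finset Filter Topology

namespace Pool.Agent.Lib.MP_bae66e_nt.LP

open Pool.Agent.Lib.MP_bae66e_nt.LL

/-- **All windows are rich at some scale.** There is an absolute `c > 0` such that for all `W₀ ≥ 1` and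
`N ≥ 1` there is `J` such that, with `κ_j = (8 N + 8)^{-(j+1)}`, for every `r` and all large `X` there is
`j < J` with
`#{m ∈ (0, X] : Th W₀ r X (e κ_j) ((e + 1) κ_j) m ≥ κ_j/(640 φ(W₀)) for all e < N} ≥ (c/N) (φ/W₀)² X`.

PROOF. Let `K` be the constant of `Es_le`, `c = 1/(10^5 K)`, `M = 8 N + 8`, `J' ≥ 2 · 10^7 K² M (W₀/φ)²`
natural, `J' ≥ 1`, and `J = J' + 1`. For large `X` let `l_* = ⌊L/(4 M^{J'+1})⌋ - 1`, `s_i = l_* M^{J' - i}`,
`i ≤ J'` (so `s_i = M s_{i+1}`), and `e_i = Es W₀ X s_i / s_i`. `e_{i+1} - e_i = (Es s_{i+1} - Es s_i/M)/s_{i+1}`,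
and `e_{J'} ≤ 5 X/(log X l_*) + K (W₀/φ)²/W₀ X/log² X ≤ 2 K (W₀/φ)²/W₀ X/log² X` for large `X`
(`l_*/log X → ∞`). `exists_small_increment`: there is `i < J'` with
`Es s_{i+1} - Es s_i / M ≤ s_{i+1} (2 K/J') (W₀/φ)²/W₀ X/log² X`; `uniformly_rich` applies with
`l = s_{i+1}`, `δ₀ = 2 K/J' ≤ φ²/(W₀² 10^7 K M)`. Then `one_scale` with the same `l` and
`κ = M^{-(i+2)} = κ_{i+1}`: `l = l_* M^{J' - i - 1}` satisfies `κ L/8 ≤ l ≤ κ L/4 - 1` for large `X`. So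
`j = i + 1 < J`. The other conditions hold for large `X` (`l ≥ c' L` with `c' > 0` depending on `J'`, `M`,
and `X/l → ∞`); take the maximum over `i < J'` of the bounds for `X`. -/
theorem rich_scales : ∃ c : ℝ, 0 < c ∧ ∀ W₀ N : ℕ, 1 ≤ W₀ → 1 ≤ N → ∃ J : ℕ, ∀ r : ℤ,
    ∃ X₀ : ℕ, ∀ X : ℕ, X₀ ≤ X → ∃ j : ℕ, j < J ∧
      c / N * ((Nat.totient W₀ : ℝ) / W₀) ^ 2 * X
        ≤ (((Finset.Ioc (0 : ℤ) (X : ℤ)).filter (fun m => ∀ e : ℕ, e < N →
          (1 / ((8 * N + 8 : ℕ) : ℝ) ^ (j + 1)) / (640 * (Nat.totient W₀ : ℝ))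
            ≤ Th W₀ r X (e * (1 / ((8 * N + 8 : ℕ) : ℝ) ^ (j + 1)))
              ((e + 1) * (1 / ((8 * N + 8 : ℕ) : ℝ) ^ (j + 1))) m)).card : ℝ) := by
  obtain ⟨K, hK1, hK⟩ := Es_le
  have hK0 : (0 : ℝ) < K := by linarith
  refine ⟨1 / (10 ^ 5 * K), by positivity, fun W₀ N hW hN => ?_⟩
  obtain ⟨M, hMdef⟩ : ∃ M : ℕ, M = 8 * N + 8 := ⟨_, rfl⟩
  have hM : 1 ≤ M := by omega
  have hM1 : (1 : ℝ) ≤ M := by exact_mod_cast hM
  have hM0 : (0 : ℝ) < M := by linarith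
  have hW1 : (1 : ℝ) ≤ W₀ := by exact_mod_cast hW
  have hW0 : (0 : ℝ) < W₀ := by linarith
  have hφ1 : (1 : ℝ) ≤ (Nat.totient W₀ : ℝ) := by
    exact_mod_cast Nat.totient_pos.2 (show 0 < W₀ by omega)
  have hφ0 : (0 : ℝ) < (Nat.totient W₀ : ℝ) := by linarith
  have hφW : (Nat.totient W₀ : ℝ) ≤ W₀ := by exact_mod_cast Nat.totient_le W₀
  have hw1 : 1 ≤ ((W₀ : ℝ) / (Nat.totient W₀ : ℝ)) ^ 2 := by
    have h1 : 1 ≤ (W₀ : ℝ) / (Nat.totient W₀ : ℝ) := by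
      rw [le_div_iff₀ hφ0]
      linarith
    nlinarith
  obtain ⟨J', hJ'⟩ := exists_nat_ge (2 * 10 ^ 7 * K ^ 2 * M *
    ((W₀ : ℝ) / (Nat.totient W₀ : ℝ)) ^ 2)
  have hJ'0 : (0 : ℝ) < J' := by
    refine lt_of_lt_of_le ?_ hJ'
    positivity
  have hJ'1 : 1 ≤ J' := by exact_mod_cast hJ'0
  refine ⟨J' + 1, fun r => ?_⟩
  -- large X
  obtain ⟨A, hA⟩ : ∃ A : ℝ, A = 40 * (M : ℝ) ^ (J' + 1) * W₀ + 4800 * K * W₀ * M := ⟨_, rfl⟩
  have hpow1 : (1 : ℝ) ≤ (M : ℝ) ^ (J' + 1) := one_le_pow₀ hM1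
  have hA1 : 40 * (M : ℝ) ^ (J' + 1) * W₀ ≤ A := by
    have : 0 ≤ 4800 * K * W₀ * M := by positivity
    linarith
  have hA2 : 4800 * K * W₀ * M ≤ A := by
    have : 0 ≤ 40 * (M : ℝ) ^ (J' + 1) * W₀ := by positivity
    linarith
  have hA40 : 40 ≤ A := by
    refine le_trans ?_ hA1
    have h1 : (1 : ℝ) * 1 ≤ (M : ℝ) ^ (J' + 1) * W₀ :=
      mul_le_mul hpow1 hW1 zero_le_one (by positivity)
    linarith
  have hA40M : 40 * (M : ℝ) ^ (J' + 1) ≤ A := by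
    refine le_trans ?_ hA1
    exact le_mul_of_one_le_right (by positivity) hW1
  have hell : Tendsto (fun X : ℕ => ell X) atTop atTop := by
    have h1 := Real.tendsto_log_atTop.comp (Real.tendsto_log_atTop.comp
      (tendsto_natCast_atTop_atTop (R := ℝ)))
    exact h1
  obtain ⟨X₀, hX₀⟩ := eventually_atTop.1 (hell.eventually_ge_atTop A)
  refine ⟨X₀, fun X hX => ?_⟩
  have hE := hX₀ X hX
  have hL0 : 0 ≤ Real.log X := Real.log_natCast_nonneg X
  have hL1 : 1 < Real.log X := by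
    have h1 : 0 < Real.log (Real.log X) := by
      have h2 : A ≤ Real.log (Real.log X) := hE
      linarith
    exact (Real.log_pos_iff hL0).1 h1
  have hLpos : 0 < Real.log X := by linarith
  have hEL : ell X ≤ Real.log X := by
    have h1 := Real.log_le_sub_one_of_pos hLpos
    rw [ell]
    linarith
  have hXpos : (0 : ℝ) < X := by
    rcases Nat.eq_zero_or_pos X with h | h
    · rw [h, Nat.cast_zero, Real.log_zero] at hL1
      linarith
    · exact_mod_cast h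
  have hXexp : (X : ℝ) = Real.exp (Real.log X) := (Real.exp_log hXpos).symm
  have hX16 : 16 ≤ X := by
    have h1 := Real.log_le_sub_one_of_pos hXpos
    have h2 : (16 : ℝ) ≤ X := by linarith
    exact_mod_cast h2
  -- X is large compared with the square of its logarithm
  have hXbig : 800 * K * W₀ * M * (Real.log X * ell X) ≤ X := by
    have h1 := Real.pow_div_factorial_le_exp (Real.log X) hL0 3
    rw [← hXexp] at h1
    have h2 : ((3 : ℕ).factorial : ℝ) = 6 := by norm_num [Nat.factorial]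
    rw [h2] at h1
    have h3 : 4800 * K * W₀ * M ≤ Real.log X := by linarith
    have h4 : 800 * K * W₀ * M * (Real.log X * ell X) ≤
        (Real.log X / 6) * (Real.log X * Real.log X) := by
      refine mul_le_mul (by linarith) (mul_le_mul_of_nonneg_left hEL hL0) ?_ (by positivity)
      exact mul_nonneg hL0 (by linarith)
    calc 800 * K * W₀ * M * (Real.log X * ell X) ≤
        (Real.log X / 6) * (Real.log X * Real.log X) := h4
      _ = Real.log X ^ 3 / 6 := by ring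
      _ ≤ X := h1
  have hLL0 : 0 < Real.log X * ell X := mul_pos hLpos (by linarith)
  -- the scales
  obtain ⟨Λ, hΛ⟩ : ∃ Λ : ℝ, Λ = Real.log X * ell X := ⟨_, rfl⟩
  have hΛA : Real.log X * A ≤ Λ := by
    rw [hΛ]
    exact mul_le_mul_of_nonneg_left hE hL0
  have hΛA' : A ≤ Λ := by
    refine le_trans ?_ hΛA
    exact le_mul_of_one_le_left (by linarith) hL1.le
  obtain ⟨l₀, hl₀⟩ : ∃ l₀ : ℕ, l₀ = ⌊Λ / (4 * (M : ℝ) ^ (J' + 1))⌋₊ - 1 := ⟨_, rfl⟩
  have h4M : (0 : ℝ) < 4 * (M : ℝ) ^ (J' + 1) := by positivity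
  have hfl2 : 2 ≤ ⌊Λ / (4 * (M : ℝ) ^ (J' + 1))⌋₊ := by
    refine Nat.le_floor ?_
    rw [le_div_iff₀ h4M]
    push_cast
    linarith
  have hl₀le : (l₀ : ℝ) + 1 ≤ Λ / (4 * (M : ℝ) ^ (J' + 1)) := by
    have h1 : (l₀ : ℝ) + 1 = (⌊Λ / (4 * (M : ℝ) ^ (J' + 1))⌋₊ : ℝ) := by
      have : l₀ + 1 = ⌊Λ / (4 * (M : ℝ) ^ (J' + 1))⌋₊ := by omega
      exact_mod_cast this
    rw [h1]
    exact Nat.floor_le (by rw [hΛ]; positivity)
  have hl₀ge : Λ / (4 * (M : ℝ) ^ (J' + 1)) ≤ (l₀ : ℝ) + 2 := by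
    have h1 : (l₀ : ℝ) + 2 = (⌊Λ / (4 * (M : ℝ) ^ (J' + 1))⌋₊ : ℝ) + 1 := by
      have : l₀ + 2 = ⌊Λ / (4 * (M : ℝ) ^ (J' + 1))⌋₊ + 1 := by omega
      exact_mod_cast this
    rw [h1]
    exact (Nat.lt_floor_add_one _).le
  have hl₀8 : Λ / (8 * (M : ℝ) ^ (J' + 1)) ≤ (l₀ : ℝ) := by
    have h1 : 2 ≤ Λ / (8 * (M : ℝ) ^ (J' + 1)) := by
      rw [le_div_iff₀ (by positivity)]
      linarith
    have h2 : Λ / (4 * (M : ℝ) ^ (J' + 1)) = 2 * (Λ / (8 * (M : ℝ) ^ (J' + 1))) := by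
      field_simp
      ring
    linarith
  -- lower bounds for l₀
  have hl₀5 : 5 * W₀ * Real.log X ≤ (l₀ : ℝ) := by
    refine le_trans ?_ hl₀8
    rw [le_div_iff₀ (by positivity)]
    have h1 := mul_le_mul_of_nonneg_left hA1 hL0
    have h2 : 5 * (W₀ : ℝ) * Real.log X * (8 * (M : ℝ) ^ (J' + 1)) =
        Real.log X * (40 * (M : ℝ) ^ (J' + 1) * W₀) := by ring
    rw [h2]
    exact h1.trans hΛA
  have hl₀W : (2 : ℝ) * W₀ ≤ l₀ := by
    have h1 : (W₀ : ℝ) ≤ W₀ * Real.log X := le_mul_of_one_le_right hW0.le hL1.le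
    linarith
  have hl₀1 : 1 ≤ l₀ := by
    have : (1 : ℝ) ≤ l₀ := by linarith
    exact_mod_cast this
  obtain ⟨sc, hsc⟩ : ∃ sc : ℕ → ℕ, sc = fun i => l₀ * M ^ (J' - i) := ⟨_, rfl⟩
  have hsc1 : ∀ i, 1 ≤ sc i := by
    intro i
    rw [hsc]
    exact Nat.one_le_iff_ne_zero.2 (Nat.mul_ne_zero (by omega) (pow_ne_zero _ (by omega)))
  have hscl : ∀ i, l₀ ≤ sc i := by
    intro i
    rw [hsc]
    exact Nat.le_mul_of_pos_right _ (pow_pos (by omega) _)
  have hEs0 : ∀ s : ℕ, 0 ≤ Es W₀ X s := by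
    intro s
    rw [Es]
    exact Finset.sum_nonneg fun b _ => Finset.sum_nonneg fun i _ => sq_nonneg _
  obtain ⟨j, hj, hinc⟩ := exists_small_increment J' hJ'1
    (fun i => Es W₀ X (sc i) / (sc i : ℝ)) (div_nonneg (hEs0 _) (Nat.cast_nonneg _))
  have hstep : sc j = M * sc (j + 1) := by
    rw [hsc]
    show l₀ * M ^ (J' - j) = M * (l₀ * M ^ (J' - (j + 1)))
    have h1 : J' - j = (J' - (j + 1)) + 1 := by omega
    rw [h1, pow_succ]
    ring
  obtain ⟨l, hl⟩ : ∃ l : ℕ, l = sc (j + 1) := ⟨_, rfl⟩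
  have hl1 : 1 ≤ l := hl ▸ hsc1 _
  have hl0 : (0 : ℝ) < l := by exact_mod_cast hl1
  have hll₀ : (l₀ : ℝ) ≤ l := by
    rw [hl]
    exact_mod_cast hscl _
  have hscJ : sc J' = l₀ := by
    rw [hsc]
    show l₀ * M ^ (J' - J') = l₀
    rw [Nat.sub_self, pow_zero, mul_one]
  have hl₀0 : (0 : ℝ) < l₀ := by exact_mod_cast hl₀1
  have hXL : 0 ≤ (X : ℝ) / Real.log X ^ 2 := by positivity
  -- the first term is at most the second one
  have hfirst : ∀ s : ℕ, (l₀ : ℝ) ≤ s → 5 * (X : ℝ) / Real.log X ≤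
      K * ((W₀ : ℝ) / (Nat.totient W₀ : ℝ)) ^ 2 * ((s : ℝ) / W₀) * (X / (Real.log X) ^ 2) := by
    intro s hs
    have h1 : 5 * (X : ℝ) / Real.log X = (5 * Real.log X) * (X / (Real.log X) ^ 2) := by
      field_simp
    rw [h1]
    refine mul_le_mul_of_nonneg_right ?_ hXL
    have h2 : 5 * Real.log X ≤ (s : ℝ) / W₀ := by
      rw [le_div_iff₀ hW0]
      linarith
    have h3 : (1 : ℝ) ≤ K * ((W₀ : ℝ) / (Nat.totient W₀ : ℝ)) ^ 2 := by
      calc (1 : ℝ) = 1 * 1 := by ring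
        _ ≤ K * ((W₀ : ℝ) / (Nat.totient W₀ : ℝ)) ^ 2 :=
          mul_le_mul hK1 hw1 zero_le_one hK0.le
    calc 5 * Real.log X ≤ (s : ℝ) / W₀ := h2
      _ = 1 * ((s : ℝ) / W₀) := by ring
      _ ≤ K * ((W₀ : ℝ) / (Nat.totient W₀ : ℝ)) ^ 2 * ((s : ℝ) / W₀) :=
        mul_le_mul_of_nonneg_right h3 (by positivity)
  -- the small increment
  have hincl : Es W₀ X l - Es W₀ X (M * l) / M ≤ (2 * K / J') * l *
      (((W₀ : ℝ) / (Nat.totient W₀ : ℝ)) ^ 2 / W₀) * (X / (Real.log X) ^ 2) := by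
    have h1 : Es W₀ X (sc J') / (sc J' : ℝ) ≤ 2 * K *
        (((W₀ : ℝ) / (Nat.totient W₀ : ℝ)) ^ 2 / W₀) * (X / (Real.log X) ^ 2) := by
      rw [hscJ, div_le_iff₀ hl₀0]
      have h2 := hK W₀ X l₀ hW hX16 hl₀1
      have h3 := hfirst l₀ le_rfl
      have h4 : 2 * K * (((W₀ : ℝ) / (Nat.totient W₀ : ℝ)) ^ 2 / W₀) * (X / (Real.log X) ^ 2) * l₀ =
          2 * (K * ((W₀ : ℝ) / (Nat.totient W₀ : ℝ)) ^ 2 * ((l₀ : ℝ) / W₀) *
            (X / (Real.log X) ^ 2)) := by ring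
      rw [h4]
      linarith
    have h2 : Es W₀ X l - Es W₀ X (M * l) / M =
        l * (Es W₀ X (sc (j + 1)) / (sc (j + 1) : ℝ) - Es W₀ X (sc j) / (sc j : ℝ)) := by
      rw [hstep, ← hl]
      push_cast
      field_simp
    rw [h2]
    have h3 : Es W₀ X (sc (j + 1)) / (sc (j + 1) : ℝ) - Es W₀ X (sc j) / (sc j : ℝ) ≤
        (2 * K * (((W₀ : ℝ) / (Nat.totient W₀ : ℝ)) ^ 2 / W₀) * (X / (Real.log X) ^ 2)) / J' :=
      hinc.trans (div_le_div_of_nonneg_right h1 hJ'0.le)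
    calc l * (Es W₀ X (sc (j + 1)) / (sc (j + 1) : ℝ) - Es W₀ X (sc j) / (sc j : ℝ)) ≤
        l * ((2 * K * (((W₀ : ℝ) / (Nat.totient W₀ : ℝ)) ^ 2 / W₀) *
          (X / (Real.log X) ^ 2)) / J') := mul_le_mul_of_nonneg_left h3 hl0.le
      _ = _ := by
        field_simp
  -- the size of l
  have hlpow : (l : ℝ) = l₀ * (M : ℝ) ^ (J' - (j + 1)) := by
    rw [hl, hsc]
    push_cast
    ring
  have hpj : (M : ℝ) ^ (J' + 1) = (M : ℝ) ^ (J' - (j + 1)) * (M : ℝ) ^ (j + 2) := by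
    rw [← pow_add]
    congr 1
    omega
  have hp1 : (1 : ℝ) ≤ (M : ℝ) ^ (J' - (j + 1)) := one_le_pow₀ hM1
  have hq1 : (1 : ℝ) ≤ (M : ℝ) ^ (j + 2) := one_le_pow₀ hM1
  have hup : (l : ℝ) ≤ 1 / (M : ℝ) ^ (j + 2) * Λ / 4 - 1 := by
    have h1 : (l₀ : ℝ) * (M : ℝ) ^ (J' - (j + 1)) + (M : ℝ) ^ (J' - (j + 1)) ≤
        Λ / (4 * (M : ℝ) ^ (J' + 1)) * (M : ℝ) ^ (J' - (j + 1)) := by
      have h2 := mul_le_mul_of_nonneg_right hl₀le (by positivity : (0 : ℝ) ≤ (M : ℝ) ^ (J' - (j + 1)))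
      linarith
    have h2 : Λ / (4 * (M : ℝ) ^ (J' + 1)) * (M : ℝ) ^ (J' - (j + 1)) =
        1 / (M : ℝ) ^ (j + 2) * Λ / 4 := by
      rw [hpj]
      field_simp
    rw [hlpow]
    linarith
  have hlo : 1 / (M : ℝ) ^ (j + 2) * Λ / 8 ≤ l := by
    have h1 : Λ / (8 * (M : ℝ) ^ (J' + 1)) * (M : ℝ) ^ (J' - (j + 1)) ≤
        (l₀ : ℝ) * (M : ℝ) ^ (J' - (j + 1)) :=
      mul_le_mul_of_nonneg_right hl₀8 (by positivity)
    have h2 : Λ / (8 * (M : ℝ) ^ (J' + 1)) * (M : ℝ) ^ (J' - (j + 1)) =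
        1 / (M : ℝ) ^ (j + 2) * Λ / 8 := by
      rw [hpj]
      field_simp
    rw [hlpow]
    linarith
  have hlΛ : (l : ℝ) ≤ Λ := by
    have h1 : 1 / (M : ℝ) ^ (j + 2) ≤ 1 := by
      rw [div_le_one (by positivity)]
      exact hq1
    have hΛ0 : 0 < Λ := by rw [hΛ]; exact hLL0
    have h2 : 1 / (M : ℝ) ^ (j + 2) * Λ ≤ 1 * Λ := mul_le_mul_of_nonneg_right h1 hΛ0.le
    linarith
  have hMl : (M : ℝ) * l * (800 * K * W₀) ≤ X := by
    have h1 : (M : ℝ) * l ≤ M * Λ := mul_le_mul_of_nonneg_left hlΛ hM0.le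
    calc (M : ℝ) * l * (800 * K * W₀) ≤ M * Λ * (800 * K * W₀) :=
          mul_le_mul_of_nonneg_right h1 (by positivity)
      _ = 800 * K * W₀ * M * (Real.log X * ell X) := by rw [hΛ]; ring
      _ ≤ X := hXbig
  have hKW : (1 : ℝ) ≤ 800 * K * W₀ := by
    have h1 : (1 : ℝ) * 1 ≤ K * W₀ := mul_le_mul hK1 hW1 zero_le_one hK0.le
    linarith
  have hsX : M * l ≤ X := by
    have h1 : (M : ℝ) * l ≤ X := by
      have h2 : (0 : ℝ) ≤ M * l := by positivity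
      exact (le_mul_of_one_le_right h2 hKW).trans hMl
    exact_mod_cast h1
  have hWX : (X : ℝ) / (5 * Real.log X) ≤ (X : ℝ) / (4 * Real.log X) - W₀ := by
    have h1 : (W₀ : ℝ) ≤ X / (20 * Real.log X) := by
      rw [le_div_iff₀ (by positivity)]
      have h2 : 800 * K * W₀ * M * (Real.log X * ell X) ≥ 20 * W₀ * Real.log X := by
        have h3 : 1 ≤ ell X := by linarith
        have h4 : 20 * (W₀ : ℝ) ≤ 800 * K * W₀ * M := by
          have h5 : (W₀ : ℝ) * 1 ≤ W₀ * (K * M) := by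
            refine mul_le_mul_of_nonneg_left ?_ hW0.le
            calc (1 : ℝ) = 1 * 1 := by ring
              _ ≤ K * M := mul_le_mul hK1 hM1 zero_le_one hK0.le
          linarith
        have h5 : Real.log X ≤ Real.log X * ell X := le_mul_of_one_le_right hL0 h3
        exact mul_le_mul h4 h5 hL0 (by positivity)
      linarith
    have h2 : (X : ℝ) / (4 * Real.log X) - (X : ℝ) / (5 * Real.log X) =
        X / (20 * Real.log X) := by
      field_simp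
      ring
    linarith
  have hδ : 2 * K / J' ≤ (Nat.totient W₀ : ℝ) ^ 2 / ((W₀ : ℝ) ^ 2 * 10 ^ 7 * K * M) := by
    rw [div_le_div_iff₀ hJ'0 (by positivity)]
    have h1 : 2 * 10 ^ 7 * K ^ 2 * M * ((W₀ : ℝ) / (Nat.totient W₀ : ℝ)) ^ 2 *
        (Nat.totient W₀ : ℝ) ^ 2 ≤ J' * (Nat.totient W₀ : ℝ) ^ 2 :=
      mul_le_mul_of_nonneg_right hJ' (by positivity)
    have h2 : 2 * 10 ^ 7 * K ^ 2 * M * ((W₀ : ℝ) / (Nat.totient W₀ : ℝ)) ^ 2 *
        (Nat.totient W₀ : ℝ) ^ 2 = 2 * K * ((W₀ : ℝ) ^ 2 * 10 ^ 7 * K * M) := by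
      field_simp
    linarith
  have hrich := uniformly_rich K hK1 hK W₀ X l M hW hX16 hl1 hM hsX hWX (hfirst l hll₀)
    (2 * K / J') hδ hincl
  refine ⟨j + 1, by omega, ?_⟩
  subst hMdef
  have hfin := one_scale K hK1 W₀ X l N hW hN (1 / (((8 * N + 8 : ℕ) : ℝ) ^ (j + 2)))
    (by positivity) r hLL0 (by linarith) hLpos (by rw [← hΛ]; exact hlo) (by rw [← hΛ]; exact hup)
    (by
      have h1 : (2 : ℝ) * W₀ ≤ l := hl₀W.trans hll₀
      exact_mod_cast h1)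
    (by
      have h1 : (((8 * N + 8) * l : ℕ) : ℝ) = ((8 * N + 8 : ℕ) : ℝ) * l := by push_cast; ring
      rw [h1]
      have h2 : (0 : ℝ) < ((8 * N + 8 : ℕ) : ℝ) * l := by positivity
      have h3 : 800 * K * W₀ ≤ (X : ℝ) / (((8 * N + 8 : ℕ) : ℝ) * l) := by
        rw [le_div_iff₀ h2]
        linarith
      have h4 : 1 / (800 * K) * ((Nat.totient W₀ : ℝ) ^ 2 / W₀) * (800 * K * W₀) =
          (Nat.totient W₀ : ℝ) ^ 2 := by
        field_simp
      have h5 : 1 / (800 * K) * ((Nat.totient W₀ : ℝ) ^ 2 / W₀) * (800 * K * W₀) ≤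
          1 / (800 * K) * ((Nat.totient W₀ : ℝ) ^ 2 / W₀) *
            ((X : ℝ) / (((8 * N + 8 : ℕ) : ℝ) * l)) :=
        mul_le_mul_of_nonneg_left h3 (by positivity)
      rw [h4] at h5
      refine le_trans ?_ h5
      rw [sq]
      exact le_mul_of_one_le_right hφ0.le hφ1)
    hrich
  have hc : 1 / (10 ^ 5 * K) / (N : ℝ) = 1 / (10 ^ 5 * K * N) := by
    rw [div_div]
  rw [hc]
  exact hfin

end Pool.Agent.Lib.MP_bae66e_nt.LP
end
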