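import Pool.Agent.Lib.MP_bae66e_nt.Mg.G068
import Pool.Agent.Lib.MP_bae66e_nt.LP.S.S3
import Pool.Agent.Lib.MP_bae66e_nt.Mg.G054
import Pool.Agent.Lib.MP_bae66e_nt.Mg.G042
import Pool.Agent.Lib.MP_bae66e_nt.Mg.G058

section

/-!
# LP/F4: patterns on a common scale
-/

set_option autoImplicit false

open Finset Filter Topology

namespace Pool.Agent.Lib.MP_bae66e_nt.LP

open Pool.Agent.Lib.MP_bae66e_nt.LL

private lemma F4_squarefree (n : ℕ) : Squarefree (primorial n) := _root_.squarefree_primorial n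

private lemma F4_min (f : ℕ → ℝ) (hf : ∀ j, 0 < f j) (J : ℕ) : ∃ c : ℝ, 0 < c ∧ ∀ j, j < J → c ≤ f j := by
  induction J with
  | zero => exact ⟨1, one_pos, fun j hj => absurd hj (Nat.not_lt_zero j)⟩
  | succ J ih =>
    obtain ⟨c, hc, h⟩ := ih
    refine ⟨min c (f J), lt_min hc (hf J), fun j hj => ?_⟩
    rcases Nat.lt_succ_iff_lt_or_eq.mp hj with h1 | h1
    · exact (min_le_left _ _).trans (h j h1)
    · rw [h1]; exact min_le_right _ _

/-- **Patterns on a common scale.** For admissible even shifts, disjoint intervals `(a i j, b i j]`,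
`0 ≤ a i j < b i j`, and `n i j` there are finitely many scales `κ_1, …, κ_J ∈ (0, 1/2]` and `c > 0` such
that for large `X` some `κ_j` has `cntP h (κ_j a) (κ_j b) n X ≥ c X`.

PROOF. Let `β₀ > 0` with `β₀ ≤ b i l - a i l` and `b₀ ≥ b i l` for all `i`, `l`, `N` a natural number with
`N ≥ 2 b₀/β₀` and `N ≥ 2/β₀`, `N ≥ 1`. Let `K` be the constant of `variance_le`, `c` the one of
`rich_scales`; choose `w₁` by `ratio_small` with the constant `2^28 N r s K / c` (`512 · 640² ≤ 2^28`), and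
`r₀` by `exists_class`, `W₀ = primorial w₁`, `J` from `rich_scales W₀ N`. For `j < J` let
`κ = (8 N + 8)^{-(j+1)}` and `κ_j = (2/β₀) κ ≤ (2/β₀)/(8 N) ≤ 1/8`. The window `(κ_j a i l, κ_j b i l]` has
length `≥ 2 κ`, so it contains `[e κ, (e + 1) κ]` with `e = ⌈2 a i l/β₀⌉₊`
(`e κ ≥ κ_j a i l`, `(e + 1) κ ≤ (2 a i l/β₀ + 2) κ ≤ κ_j b i l`), and `e + 1 ≤ 2 b₀/β₀ ≤ N`, so `e < N`
(`e + 1 ≤ 2 a/β₀ + 2 ≤ 2 b/β₀`). `patterns_of_rich` with the windows `κ_j a`, `κ_j b`, `J = univ`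
(nonempty by `hr`, `hs`), `α = e κ`, `β = (e + 1) κ`, `c_R = (c/N)(φ/W₀)²`, `c_Θ = κ/(640 φ)`: the
condition is `512 r s K ρ^6 κ² ≤ (c/N)(φ/W₀)² κ²/(640² φ²) W₀² √w₁ = (c/(640² N)) κ² √w₁`. Take the
minimum of the `c_F` over `j < J` and the maximum of the `X₀`. (For `j ≥ J` let `κ_j` be any value of
`(0, 1/2]`; the formula above is fine for all `j`.) -/
theorem scale_patterns {r s : ℕ} (hr : 1 ≤ r) (hs : 1 ≤ s) (h : Fin r → ℕ)
    (hinj : Function.Injective h) (heven : ∀ i, Even (h i))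
    (hadm : ∀ p : ℕ, p.Prime → ∃ c : ℕ, ∀ i, ¬ (h i ≡ c [MOD p]))
    (a b : Fin r → Fin s → ℝ) (hab : ∀ i j, 0 ≤ a i j ∧ a i j < b i j)
    (hdis : ∀ i j l, j ≠ l → b i j ≤ a i l ∨ b i l ≤ a i j) (n : Fin r → Fin s → ℕ) :
    ∃ (J : ℕ) (κ : ℕ → ℝ) (c : ℝ), 0 < c ∧ (∀ j, 0 < κ j ∧ κ j ≤ 1 / 2) ∧
      ∃ X₀ : ℕ, ∀ X : ℕ, X₀ ≤ X → ∃ j : ℕ, j < J ∧
        c * X ≤ (cntP h (fun i l => κ j * a i l) (fun i l => κ j * b i l) n X : ℝ) := by
  classical
  have _i1 : Nonempty (Fin r) := ⟨⟨0, hr⟩⟩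
  have _i2 : Nonempty (Fin s) := ⟨⟨0, hs⟩⟩
  obtain ⟨x0, hx0⟩ := Finite.exists_min (fun x : Fin r × Fin s => b x.1 x.2 - a x.1 x.2)
  obtain ⟨x1, hx1⟩ := Finite.exists_max (fun x : Fin r × Fin s => b x.1 x.2)
  set β₀ : ℝ := b x0.1 x0.2 - a x0.1 x0.2 with hβ₀
  set b₀ : ℝ := b x1.1 x1.2 with hb₀
  have hβpos : 0 < β₀ := by
    have := (hab x0.1 x0.2).2
    rw [hβ₀]; linarith
  have hβle : ∀ i l, β₀ ≤ b i l - a i l := fun i l => hx0 (i, l)
  have hble : ∀ i l, b i l ≤ b₀ := fun i l => hx1 (i, l)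
  have hb0pos : 0 < b₀ := lt_of_le_of_lt (hab x1.1 x1.2).1 (hab x1.1 x1.2).2
  obtain ⟨N, hN⟩ := exists_nat_ge (2 * b₀ / β₀ + 2 / β₀ + 1)
  have hq1 : 0 < 2 * b₀ / β₀ := by positivity
  have hq2 : 0 < 2 / β₀ := by positivity
  have hN1 : 1 ≤ N := by
    have : (1 : ℝ) ≤ N := by linarith
    exact_mod_cast this
  have hNR : (1 : ℝ) ≤ N := by exact_mod_cast hN1
  have hNb : 2 * b₀ / β₀ ≤ N := by linarith
  have hNβ : 2 / β₀ ≤ N := by linarith
  obtain ⟨K, hK1, hK⟩ := variance_le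
  obtain ⟨c, hc, hrs⟩ := rich_scales
  obtain ⟨w₁, hw₁, hratio⟩ := ratio_small (2 ^ 28 * N * r * s * K / c)
  have hratio1 := hratio w₁ le_rfl
  set W₀ : ℕ := primorial w₁ with hW₀
  have hWpos : 0 < W₀ := primorial_pos w₁
  obtain ⟨r₀, hr₀⟩ := exists_class h hadm W₀ (F4_squarefree w₁)
  obtain ⟨J, hJ⟩ := hrs W₀ N hWpos hN1
  obtain ⟨X₁, hX₁⟩ := hJ r₀
  have hφpos : 0 < (Nat.totient W₀ : ℝ) := by exact_mod_cast Nat.totient_pos.mpr hWpos
  have hWR : 0 < (W₀ : ℝ) := by exact_mod_cast hWpos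
  set M : ℝ := ((8 * N + 8 : ℕ) : ℝ) with hM
  have hMval : M = 8 * N + 8 := by rw [hM]; push_cast; ring
  have hM1 : 1 ≤ M := by rw [hMval]; linarith
  have hM0 : 0 < M := by linarith
  set kk : ℕ → ℝ := fun j => 1 / M ^ (j + 1) with hkk
  have hkkpos : ∀ j, 0 < kk j := fun j => by rw [hkk]; positivity
  have hkkle : ∀ j, kk j ≤ 1 / M := fun j => by
    rw [hkk]
    apply one_div_le_one_div_of_le hM0
    calc M = M ^ 1 := (pow_one M).symm
      _ ≤ M ^ (j + 1) := pow_le_pow_right₀ hM1 (by omega)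
  set e : Fin r → Fin s → ℕ := fun i l => ⌈2 * a i l / β₀⌉₊ with he
  have he1 : ∀ i l, 2 * a i l / β₀ ≤ e i l := fun i l => Nat.le_ceil _
  have he2 : ∀ i l, (e i l : ℝ) + 1 ≤ 2 * b i l / β₀ := fun i l => by
    have h1 : (e i l : ℝ) < 2 * a i l / β₀ + 1 :=
      Nat.ceil_lt_add_one (div_nonneg (by linarith [(hab i l).1]) hβpos.le)
    have h2 : 2 * a i l / β₀ + 2 ≤ 2 * b i l / β₀ := by
      rw [div_add' _ _ _ hβpos.ne']
      apply div_le_div_of_nonneg_right _ hβpos.le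
      linarith [hβle i l]
    linarith
  have he3 : ∀ i l, e i l < N := fun i l => by
    have h1 : 2 * b i l / β₀ ≤ 2 * b₀ / β₀ := by
      apply div_le_div_of_nonneg_right _ hβpos.le
      linarith [hble i l]
    have h2 : (e i l : ℝ) + 1 ≤ N := (he2 i l).trans (h1.trans hNb)
    have h3 : e i l + 1 ≤ N := by exact_mod_cast h2
    omega
  have hκpos : ∀ j, 0 < 2 / β₀ * kk j := fun j => mul_pos hq2 (hkkpos j)
  -- the patterns for one scale
  have hpat : ∀ j : ℕ, ∃ cF : ℝ, 0 < cF ∧ ∃ X₀ : ℕ, ∀ X : ℕ, X₀ ≤ X →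
      (c / N * ((Nat.totient W₀ : ℝ) / W₀) ^ 2) * X ≤
        (((Finset.Ioc (0 : ℤ) (X : ℤ)).filter (fun m => ∀ x ∈ (Finset.univ : Finset (Fin r × Fin s)),
        kk j / (640 * (Nat.totient W₀ : ℝ)) ≤ Th W₀ r₀ X ((e x.1 x.2 : ℝ) * kk j)
          (((e x.1 x.2 : ℝ) + 1) * kk j) m)).card : ℝ) →
      cF * X ≤ (cntP h (fun i l => 2 / β₀ * kk j * a i l) (fun i l => 2 / β₀ * kk j * b i l) n X : ℝ) := by
    intro j
    have hk := hkkpos j
    apply patterns_of_rich K hK1 hK h hinj heven w₁ hw₁ r₀ hr₀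
      (fun i l => 2 / β₀ * kk j * a i l) (fun i l => 2 / β₀ * kk j * b i l)
      (fun i l => ⟨mul_nonneg (hκpos j).le (hab i l).1,
        mul_le_mul_of_nonneg_left (hab i l).2.le (hκpos j).le⟩)
      (fun i l l' hll => ?_) n Finset.univ Finset.univ_nonempty
      (fun i l hil => absurd (Finset.mem_univ _) hil)
      (fun i l => (e i l : ℝ) * kk j) (fun i l => ((e i l : ℝ) + 1) * kk j)
      (fun x _ => ⟨?_, ?_, ?_⟩)
      (c / N * ((Nat.totient W₀ : ℝ) / W₀) ^ 2) (kk j / (640 * (Nat.totient W₀ : ℝ)))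
      (by positivity) (by positivity) (fun x _ => ?_)
    · rcases hdis i l l' hll with h1 | h1
      · exact Or.inl (mul_le_mul_of_nonneg_left h1 (hκpos j).le)
      · exact Or.inr (mul_le_mul_of_nonneg_left h1 (hκpos j).le)
    · show 2 / β₀ * kk j * a x.1 x.2 ≤ (e x.1 x.2 : ℝ) * kk j
      calc 2 / β₀ * kk j * a x.1 x.2 = (2 * a x.1 x.2 / β₀) * kk j := by ring
        _ ≤ (e x.1 x.2 : ℝ) * kk j := mul_le_mul_of_nonneg_right (he1 _ _) hk.le
    · show (e x.1 x.2 : ℝ) * kk j < ((e x.1 x.2 : ℝ) + 1) * kk j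
      nlinarith
    · show ((e x.1 x.2 : ℝ) + 1) * kk j ≤ 2 / β₀ * kk j * b x.1 x.2
      calc ((e x.1 x.2 : ℝ) + 1) * kk j ≤ (2 * b x.1 x.2 / β₀) * kk j :=
            mul_le_mul_of_nonneg_right (he2 _ _) hk.le
        _ = 2 / β₀ * kk j * b x.1 x.2 := by ring
    · show 512 * (r * s) * K * ((W₀ : ℝ) / (Nat.totient W₀ : ℝ)) ^ 6
          * (((e x.1 x.2 : ℝ) + 1) * kk j - (e x.1 x.2 : ℝ) * kk j) ^ 2
        ≤ (c / N * ((Nat.totient W₀ : ℝ) / W₀) ^ 2) * (kk j / (640 * (Nat.totient W₀ : ℝ))) ^ 2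
          * (W₀ : ℝ) ^ 2 * Real.sqrt w₁
      have e1 : ((e x.1 x.2 : ℝ) + 1) * kk j - (e x.1 x.2 : ℝ) * kk j = kk j := by ring
      have e2 : (c / N * ((Nat.totient W₀ : ℝ) / W₀) ^ 2)
          * (kk j / (640 * (Nat.totient W₀ : ℝ))) ^ 2 * (W₀ : ℝ) ^ 2 * Real.sqrt w₁
          = c / N * (kk j ^ 2 / 640 ^ 2) * Real.sqrt w₁ := by
        field_simp
      rw [e1, e2]
      have hN0 : (0 : ℝ) < N := by linarith
      have e3 : c / N * (kk j ^ 2 / 640 ^ 2) * (2 ^ 28 * N * r * s * K / c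
          * ((W₀ : ℝ) / (Nat.totient W₀ : ℝ)) ^ 6)
          = (2 ^ 28 / 640 ^ 2) * ((r * s) * K * ((W₀ : ℝ) / (Nat.totient W₀ : ℝ)) ^ 6 * kk j ^ 2) := by
        field_simp
      refine le_trans ?_ (mul_le_mul_of_nonneg_left hratio1 (by positivity))
      rw [e3]
      have e4 : 0 ≤ (r * s : ℝ) * K * ((W₀ : ℝ) / (Nat.totient W₀ : ℝ)) ^ 6 * kk j ^ 2 := by
        positivity
      have e5 : (512 : ℝ) ≤ 2 ^ 28 / 640 ^ 2 := by norm_num
      calc 512 * (r * s) * K * ((W₀ : ℝ) / (Nat.totient W₀ : ℝ)) ^ 6 * kk j ^ 2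
          = 512 * ((r * s : ℝ) * K * ((W₀ : ℝ) / (Nat.totient W₀ : ℝ)) ^ 6 * kk j ^ 2) := by ring
        _ ≤ _ := mul_le_mul_of_nonneg_right e5 e4
  choose cF hcF X₂ hX₂ using hpat
  obtain ⟨c', hc', hc'le⟩ := F4_min cF hcF J
  refine ⟨J, fun j => 2 / β₀ * kk j, c', hc', fun j => ⟨hκpos j, ?_⟩,
    max X₁ ((Finset.range J).sup X₂), fun X hX => ?_⟩
  · calc 2 / β₀ * kk j ≤ N * (1 / M) :=
          mul_le_mul hNβ (hkkle j) (hkkpos j).le (by linarith)
      _ ≤ 1 / 2 := by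
          rw [mul_one_div, div_le_div_iff₀ hM0 two_pos, hMval]
          linarith
  · obtain ⟨j, hj, hj'⟩ := hX₁ X (le_trans (le_max_left _ _) hX)
    refine ⟨j, hj, ?_⟩
    have h1 : X₂ j ≤ X := (Finset.le_sup (f := X₂) (Finset.mem_range.mpr hj)).trans
      (le_trans (le_max_right _ _) hX)
    have h2 := hX₂ j X h1 (hj'.trans (by
      apply Nat.cast_le.mpr
      apply Finset.card_le_card
      intro m hm
      rw [Finset.mem_filter] at hm ⊢
      exact ⟨hm.1, fun x _ => hm.2 (e x.1 x.2) (he3 x.1 x.2)⟩))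
    exact (mul_le_mul_of_nonneg_right (hc'le j hj) (Nat.cast_nonneg X)).trans h2

end Pool.Agent.Lib.MP_bae66e_nt.LP
end

section

/-!
# LP/F5e: patterns at a scale `κ ≍ L(m)`
-/

set_option autoImplicit false

open Finset Filter Topology

namespace Pool.Agent.Lib.MP_bae66e_nt.LP

open Pool.Agent.Lib.MP_bae66e_nt.LL

private lemma F5e_transfer (X H : ℕ) (ε : ℝ) (hε : 0 ≤ ε) (P : ℤ → Prop) (Q : ℕ → Prop)
    [DecidablePred P] [DecidablePred Q]
    (h : ∀ m : ℕ, 1 ≤ m → ε * X ≤ m → m + H ≤ X → P (m : ℤ) → Q m) :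
    (((Finset.Ioc (0 : ℤ) (X : ℤ)).filter P).card : ℝ) ≤
      (((Finset.Icc 1 X).filter Q).card : ℝ) + ε * X + H := by
  have hsub : (Finset.Ioc (0 : ℤ) (X : ℤ)).filter P ⊆
      ((Finset.Icc 1 X).filter Q).image (fun m : ℕ => (m : ℤ)) ∪
        (Finset.Ico 1 ⌈ε * X⌉₊).image (fun m : ℕ => (m : ℤ)) ∪
        Finset.Ioc ((X : ℤ) - H) X := by
    intro m hm
    rw [Finset.mem_filter, Finset.mem_Ioc] at hm
    obtain ⟨⟨h0, h1⟩, hP⟩ := hm
    obtain ⟨k, rfl⟩ := Int.eq_ofNat_of_zero_le h0.le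
    rw [Finset.mem_union, Finset.mem_union, Finset.mem_image, Finset.mem_image, Finset.mem_Ioc]
    have hk1 : 1 ≤ k := by omega
    by_cases h2 : k + H ≤ X
    · left
      by_cases h3 : ε * X ≤ k
      · left
        refine ⟨k, Finset.mem_filter.2 ⟨Finset.mem_Icc.2 ⟨hk1, by omega⟩, h k hk1 h3 h2 hP⟩, rfl⟩
      · right
        refine ⟨k, Finset.mem_Ico.2 ⟨hk1, ?_⟩, rfl⟩
        rw [Nat.lt_ceil]
        exact not_le.1 h3
    · right
      exact ⟨by omega, h1⟩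
  have hc := (Finset.card_le_card hsub).trans
    ((Finset.card_union_le _ _).trans (Nat.add_le_add_right (Finset.card_union_le _ _) _))
  have h1 : (((Finset.Icc 1 X).filter Q).image (fun m : ℕ => (m : ℤ))).card ≤
      ((Finset.Icc 1 X).filter Q).card := Finset.card_image_le
  have h2 : ((Finset.Ico 1 ⌈ε * X⌉₊).image (fun m : ℕ => (m : ℤ))).card ≤ ⌈ε * X⌉₊ - 1 := by
    refine Finset.card_image_le.trans ?_
    rw [Nat.card_Ico]
  have h3 : (Finset.Ioc ((X : ℤ) - H) X).card = H := by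
    rw [Int.card_Ioc]
    omega
  have h4 : ((⌈ε * X⌉₊ - 1 : ℕ) : ℝ) ≤ ε * X := by
    have h5 : 0 ≤ ε * X := by positivity
    rcases Nat.eq_zero_or_pos ⌈ε * X⌉₊ with h6 | h6
    · rw [h6]
      simpa using h5
    · have h7 := Nat.ceil_lt_add_one h5
      rw [Nat.cast_sub h6]
      push_cast
      linarith
  have h5 : ((Finset.Ioc (0 : ℤ) (X : ℤ)).filter P).card ≤
      ((Finset.Icc 1 X).filter Q).card + (⌈ε * X⌉₊ - 1) + H := by omega
  have h6 : (((Finset.Ioc (0 : ℤ) (X : ℤ)).filter P).card : ℝ) ≤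
      (((Finset.Icc 1 X).filter Q).card : ℝ) + ((⌈ε * X⌉₊ - 1 : ℕ) : ℝ) + H := by
    exact_mod_cast h5
  linarith

private lemma F5e_min (κ : ℕ → ℝ) (hκ : ∀ j, 0 < κ j) (J : ℕ) :
    ∃ δ : ℝ, 0 < δ ∧ ∀ j, j < J → δ ≤ κ j := by
  induction J with
  | zero => exact ⟨1, one_pos, fun j hj => absurd hj (Nat.not_lt_zero j)⟩
  | succ J ih =>
    obtain ⟨δ, h1, h2⟩ := ih
    refine ⟨min δ (κ J), lt_min h1 (hκ J), fun j hj => ?_⟩
    rcases Nat.lt_succ_iff_lt_or_eq.1 hj with h | rfl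
    · exact (min_le_left _ _).trans (h2 j h)
    · exact min_le_right _ _

open Classical in
/-- **Patterns** at a scale between `δ L(m)` and `L(m)`.

PROOF. `scale_patterns` (`c₀`, `κ_j`, `j < J`); `δ = min κ_j` (`J ≥ 1`, because some `j < J` exists).
For large `X` some `κ_j` has at least `c₀ X` even `m ≤ X`; remove the `m < (c₀/4) X` and the
`m > X - max h`. With `k = κ_j L(X)`: `k ≤ L(X)/2 ≤ L(m)` (`L_close (c₀/4) (1/2)`),
`k ≥ δ L(X) ≥ δ L(m)`, `k > 0`; `Nw_eq_NN` (`m + h i ≤ X`). -/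
theorem pattern_Lm {r s : ℕ} (hr : 1 ≤ r) (hs : 1 ≤ s) (h : Fin r → ℕ)
    (hinj : Function.Injective h) (heven : ∀ i, Even (h i))
    (hadm : ∀ p : ℕ, p.Prime → ∃ c : ℕ, ∀ i, ¬ (h i ≡ c [MOD p]))
    (a b : Fin r → Fin s → ℝ) (hab : ∀ i j, 0 ≤ a i j ∧ a i j < b i j)
    (hdis : ∀ i j l, j ≠ l → b i j ≤ a i l ∨ b i l ≤ a i j) (n : Fin r → Fin s → ℕ) :
    ∃ δ c' : ℝ, 0 < δ ∧ 0 < c' ∧ ∃ X₀ : ℕ, ∀ X : ℕ, X₀ ≤ X →
      c' * X ≤ (((Finset.Icc 1 X).filter (fun m : ℕ => Even m ∧ ∃ k : ℝ,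
        δ * (Real.log m * Real.log (Real.log m)) ≤ k ∧ k ≤ Real.log m * Real.log (Real.log m) ∧
        0 < k ∧ ∀ i j, NN (m + h i) (k * a i j) (k * b i j) = n i j)).card : ℝ) := by
  obtain ⟨J, κ, c, hc, hκ, X₁, hX₁⟩ := scale_patterns hr hs h hinj heven hadm a b hab hdis n
  obtain ⟨δ, hδ, hδκ⟩ := F5e_min κ (fun j => (hκ j).1) J
  obtain ⟨X₂, hX₂⟩ := L_close (c / 4) (1 / 2) (by linarith) (by norm_num)
  obtain ⟨H, hH⟩ : ∃ H : ℕ, ∀ i, h i ≤ H :=
    ⟨∑ i, h i, fun i => Finset.single_le_sum (fun _ _ => Nat.zero_le _) (Finset.mem_univ i)⟩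
  refine ⟨δ, c / 2, hδ, by linarith, max (max X₁ X₂) ⌈4 * H / c⌉₊, fun X hX => ?_⟩
  have hXa : X₁ ≤ X := (le_max_left _ _).trans ((le_max_left _ _).trans hX)
  have hXb : X₂ ≤ X := (le_max_right _ _).trans ((le_max_left _ _).trans hX)
  have hXc : (H : ℝ) ≤ c / 4 * X := by
    have h1 : 4 * (H : ℝ) / c ≤ X := (Nat.le_ceil _).trans (by exact_mod_cast (le_max_right _ _).trans hX)
    rw [div_le_iff₀ hc] at h1
    linarith
  obtain ⟨j, hj, hcount⟩ := hX₁ X hXa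
  obtain ⟨hL1, hL⟩ := hX₂ X hXb
  have key := F5e_transfer X H (c / 4) (by linarith)
    (fun m : ℤ => Even m ∧ ∀ i l, Nw X (κ j * a i l) (κ j * b i l) (m + h i) = n i l)
    (fun m : ℕ => Even m ∧ ∃ k : ℝ,
        δ * (Real.log m * Real.log (Real.log m)) ≤ k ∧ k ≤ Real.log m * Real.log (Real.log m) ∧
        0 < k ∧ ∀ i l, NN (m + h i) (k * a i l) (k * b i l) = n i l) (by
      rintro m hm1 hm2 hm3 ⟨he, hN⟩
      obtain ⟨h1, h2⟩ := hL m hm2 (by omega)
      refine ⟨by exact_mod_cast he, κ j * (Real.log X * Real.log (Real.log X)), ?_, ?_, ?_, ?_⟩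
      · have h3 := hδκ j hj
        exact (mul_le_mul_of_nonneg_left h2 hδ.le).trans
          (mul_le_mul_of_nonneg_right h3 (by linarith))
      · have h3 := (hκ j).2
        have h4 : κ j * (Real.log X * Real.log (Real.log X)) ≤
            1 / 2 * (Real.log X * Real.log (Real.log X)) :=
          mul_le_mul_of_nonneg_right h3 (by linarith)
        linarith
      · exact mul_pos (hκ j).1 (by linarith)
      · intro i l
        have h3 := (hab i l).1
        have h4 := (hab i l).2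
        have h5 := (hκ j).1
        have h6 := Nw_eq_NN X (m + h i) (κ j * a i l) (κ j * b i l) (mul_nonneg h5.le h3)
          (mul_le_mul_of_nonneg_left h4.le h5.le) (by have := hH i; omega) (by linarith)
        have h7 := hN i l
        rw [← h7]
        have e1 : κ j * (Real.log X * Real.log (Real.log X)) * a i l =
            κ j * a i l * (Real.log X * Real.log (Real.log X)) := by ring
        have e2 : κ j * (Real.log X * Real.log (Real.log X)) * b i l =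
            κ j * b i l * (Real.log X * Real.log (Real.log X)) := by ring
        rw [e1, e2, ← h6]
        push_cast
        rfl)
  have hcount' : c * X ≤ (((Finset.Ioc (0 : ℤ) (X : ℤ)).filter (fun m : ℤ =>
      Even m ∧ ∀ i l, Nw X (κ j * a i l) (κ j * b i l) (m + h i) = n i l)).card : ℝ) := by
    refine hcount.trans (Nat.cast_le.2 (Finset.card_le_card fun m hm => ?_))
    rw [Finset.mem_filter] at hm ⊢
    exact hm
  have hfin : c / 2 * X ≤ (((Finset.Icc 1 X).filter (fun m : ℕ => Even m ∧ ∃ k : ℝ,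
        δ * (Real.log m * Real.log (Real.log m)) ≤ k ∧ k ≤ Real.log m * Real.log (Real.log m) ∧
        0 < k ∧ ∀ i l, NN (m + h i) (k * a i l) (k * b i l) = n i l)).card : ℝ) := by
    linarith
  refine hfin.trans (Nat.cast_le.2 (Finset.card_le_card fun m hm => ?_))
  rw [Finset.mem_filter] at hm ⊢
  exact hm

end Pool.Agent.Lib.MP_bae66e_nt.LP
end

section

/-!
# LP/F5f: the windows of `g(m)/L(m)`
-/

set_option autoImplicit false

open Finset Filter Topology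

namespace Pool.Agent.Lib.MP_bae66e_nt.LP

open Pool.Agent.Lib.MP_bae66e_nt.LL

open Classical in
/-- **The windows of `g(m)/L(m)`**: there are absolute `c, C > 0` such that for `0 ≤ a < b` and large `X` at
least `c exp(-C a) min(1, b - a) X` even `m ≤ X` have `a L(m) < gg m ≤ b L(m)`.

PROOF. Let `c₁, C₁` be the constants of `window_one`, `C = C₁`, `c = c₁ exp(-C₁)/8`. Let
`μ = min 1 (b - a)`, `a' = a + μ/4`, `b' = a + 3 μ/4`, so `b' - a' = μ/2`, `b' < b`. `window_one` gives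
`≥ c₁ exp(-C₁ a') (μ/2) X ≥ 4 c exp(-C a) μ X` even `m`; remove the `m < c exp(-C a) μ X =: ε X`. For the
others, `L_close ε δ` with `δ > 0`, `b' ≤ (1 - δ) b`: `a L(m) ≤ a' L(X)`, `b' L(X) ≤ b L(m)`.
`Nw_eq_NN`, `gg_of_NN` with `x = a' L(X)`, `y = b' L(X)` (`NN m 0 y = NN m 0 x + NN m x y`). -/
theorem window_Lm : ∃ c C : ℝ, 0 < c ∧ 0 < C ∧ ∀ a b : ℝ, 0 ≤ a → a < b →
    ∃ X₀ : ℕ, ∀ X : ℕ, X₀ ≤ X →
      c * Real.exp (-(C * a)) * min 1 (b - a) * X
        ≤ (((Finset.Icc 1 X).filter (fun m : ℕ => Even m ∧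
          a * (Real.log m * Real.log (Real.log m)) < gg m ∧
          (gg m : ℝ) ≤ b * (Real.log m * Real.log (Real.log m)))).card : ℝ) := by
  obtain ⟨c₁, C₁, hc₁, hC₁, hmain⟩ := window_one
  refine ⟨c₁ * Real.exp (-C₁) / 8, C₁, by positivity, hC₁, fun a b ha hab => ?_⟩
  set μ : ℝ := min 1 (b - a) with hμ
  have hμ0 : 0 < μ := lt_min one_pos (by linarith)
  have hμ1 : μ ≤ 1 := min_le_left _ _
  have hμ2 : μ ≤ b - a := min_le_right _ _
  set a' : ℝ := a + μ / 4 with ha'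
  set b' : ℝ := a + 3 * μ / 4 with hb'
  have ha'0 : 0 < a' := by rw [ha']; linarith
  have hab' : a' < b' := by rw [ha', hb']; linarith
  have hb'b : b' < b := by rw [hb']; linarith
  have hb0 : 0 < b := by linarith
  set E : ℝ := c₁ * Real.exp (-C₁) / 8 * Real.exp (-(C₁ * a)) * μ with hE
  have hE0 : 0 < E := by positivity
  have hδ : 0 < 1 - b' / b := by
    have : b' / b < 1 := (div_lt_one hb0).mpr hb'b
    linarith
  obtain ⟨X₁, hX₁⟩ := hmain a' b' ha'0 hab'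
  obtain ⟨X₂, hX₂⟩ := L_close E (1 - b' / b) hE0 hδ
  refine ⟨max X₁ X₂, fun X hX => ?_⟩
  have h1 := hX₁ X (le_trans (le_max_left _ _) hX)
  obtain ⟨hL1, h2⟩ := hX₂ X (le_trans (le_max_right _ _) hX)
  have hX0 : (0 : ℝ) ≤ X := Nat.cast_nonneg X
  have hLX : 0 ≤ Real.log X * Real.log (Real.log X) := by linarith
  -- the lower bound for the count
  have hlow : 4 * E * X ≤ (((Finset.Ioc (0 : ℤ) (X : ℤ)).filter (fun m : ℤ =>
          Even m ∧ Nw X 0 a' m = 0 ∧ Nw X 0 b' m ≠ 0)).card : ℝ) := by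
    refine le_trans ?_ h1
    have hmin : min 1 (b' - a') = μ / 2 := by
      have : b' - a' = μ / 2 := by rw [ha', hb']; ring
      rw [this, min_eq_right (by linarith)]
    rw [hmin]
    have hexp : Real.exp (-(C₁ * a)) * Real.exp (-C₁) ≤ Real.exp (-(C₁ * a')) := by
      rw [← Real.exp_add]
      apply Real.exp_le_exp.mpr
      rw [ha']
      nlinarith
    have h3 : 4 * E = c₁ * (Real.exp (-(C₁ * a)) * Real.exp (-C₁)) * (μ / 2) := by
      rw [hE]; ring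
    rw [h3]
    apply mul_le_mul_of_nonneg_right _ hX0
    apply mul_le_mul_of_nonneg_right _ (by positivity)
    exact mul_le_mul_of_nonneg_left hexp hc₁.le
  -- the set of small integers
  have hsub : (Finset.Ioc (0 : ℤ) (X : ℤ)).filter (fun m : ℤ =>
          Even m ∧ Nw X 0 a' m = 0 ∧ Nw X 0 b' m ≠ 0) ⊆
      (((Finset.Icc 1 X).filter (fun m : ℕ => Even m ∧
          a * (Real.log m * Real.log (Real.log m)) < gg m ∧
          (gg m : ℝ) ≤ b * (Real.log m * Real.log (Real.log m))))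
        ∪ Finset.Icc 1 ⌊E * X⌋₊).image (fun n : ℕ => (n : ℤ)) := by
    intro m hm
    rw [Finset.mem_filter, Finset.mem_Ioc] at hm
    obtain ⟨⟨hm0, hmX⟩, hev, hn1, hn2⟩ := hm
    obtain ⟨n, rfl⟩ : ∃ n : ℕ, m = (n : ℤ) := ⟨m.toNat, by omega⟩
    rw [Finset.mem_image]
    refine ⟨n, ?_, rfl⟩
    rw [Finset.mem_union]
    by_cases hsm : E * X ≤ n
    · left
      have hnX : n ≤ X := by exact_mod_cast hmX
      have hn0 : 1 ≤ n := by omega
      rw [Finset.mem_filter, Finset.mem_Icc]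
      obtain ⟨h4, h5⟩ := h2 n hsm hnX
      have hev' : Even n := by
        have := hev
        rwa [Int.even_coe_nat] at this
      rw [Nw_eq_NN X n 0 a' le_rfl ha'0.le hnX hLX, zero_mul] at hn1
      rw [Nw_eq_NN X n 0 b' le_rfl (by linarith) hnX hLX, zero_mul] at hn2
      have h6 := NN_add n 0 (a' * (Real.log X * Real.log (Real.log X)))
        (b' * (Real.log X * Real.log (Real.log X))) (mul_nonneg ha'0.le hLX)
        (mul_le_mul_of_nonneg_right hab'.le hLX)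
      have h7 : NN n (a' * (Real.log X * Real.log (Real.log X)))
        (b' * (Real.log X * Real.log (Real.log X))) ≠ 0 := by
        intro h8
        rw [hn1, h8] at h6
        exact hn2 h6
      obtain ⟨h8, h9, _⟩ := gg_of_NN n _ _ hn1 h7
      refine ⟨⟨hn0, hnX⟩, hev', ?_, ?_⟩
      · refine lt_of_le_of_lt ?_ h8
        calc a * (Real.log n * Real.log (Real.log n))
            ≤ a * (Real.log X * Real.log (Real.log X)) := mul_le_mul_of_nonneg_left h5 ha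
          _ ≤ a' * (Real.log X * Real.log (Real.log X)) := by
              apply mul_le_mul_of_nonneg_right _ hLX
              rw [ha']; linarith
      · refine h9.trans ?_
        calc b' * (Real.log X * Real.log (Real.log X))
            = b * ((1 - (1 - b' / b)) * (Real.log X * Real.log (Real.log X))) := by
              field_simp
              ring
          _ ≤ b * (Real.log n * Real.log (Real.log n)) := mul_le_mul_of_nonneg_left h4 hb0.le
    · right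
      rw [Finset.mem_Icc]
      push Not at hsm
      exact ⟨by omega, Nat.le_floor hsm.le⟩
  have hcard := Finset.card_le_card hsub
  have hcard2 := hcard.trans (Finset.card_image_le.trans (Finset.card_union_le _ _))
  rw [Nat.card_Icc, Nat.add_sub_cancel] at hcard2
  have hfl : (⌊E * X⌋₊ : ℝ) ≤ E * X := Nat.floor_le (by positivity)
  have hcard3 : (((Finset.Ioc (0 : ℤ) (X : ℤ)).filter (fun m : ℤ =>
          Even m ∧ Nw X 0 a' m = 0 ∧ Nw X 0 b' m ≠ 0)).card : ℝ)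
      ≤ (((Finset.Icc 1 X).filter (fun m : ℕ => Even m ∧
          a * (Real.log m * Real.log (Real.log m)) < gg m ∧
          (gg m : ℝ) ≤ b * (Real.log m * Real.log (Real.log m)))).card : ℝ) + (⌊E * X⌋₊ : ℝ) := by
    exact_mod_cast hcard2
  have hEX : 0 ≤ E * X := by positivity
  linarith

end Pool.Agent.Lib.MP_bae66e_nt.LP
end

section

/-!
# LP/F6a: patterns on the scale `log X loglog X` if all nonempty windows overlap
-/

set_option autoImplicit false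

open Finset Filter Topology

namespace Pool.Agent.Lib.MP_bae66e_nt.LP

open Pool.Agent.Lib.MP_bae66e_nt.LL

/-- A common subinterval of the windows with `n ≠ 0`. -/
private lemma exists_common {r s : ℕ} (hr : 1 ≤ r) (hs : 1 ≤ s)
    (a b : Fin r → Fin s → ℝ) (hab : ∀ i j, 0 ≤ a i j ∧ a i j < b i j) (n : Fin r → Fin s → ℕ)
    (hcom : ∀ i j k l, n i j ≠ 0 → n k l ≠ 0 → a i j < b k l) :
    ∃ (J : Finset (Fin r × Fin s)) (α β : ℝ), J.Nonempty ∧ (∀ i j, (i, j) ∉ J → n i j = 0) ∧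
      (∀ x ∈ J, a x.1 x.2 ≤ α ∧ β ≤ b x.1 x.2) ∧ 0 ≤ α ∧ α < β := by
  by_cases hx : ∃ x : Fin r × Fin s, n x.1 x.2 ≠ 0
  · have hne : (Finset.univ.filter (fun x : Fin r × Fin s => n x.1 x.2 ≠ 0)).Nonempty := by
      obtain ⟨x, hx⟩ := hx
      exact ⟨x, Finset.mem_filter.2 ⟨Finset.mem_univ _, hx⟩⟩
    refine ⟨Finset.univ.filter (fun x : Fin r × Fin s => n x.1 x.2 ≠ 0),
      Finset.sup' _ hne (fun x => a x.1 x.2), Finset.inf' _ hne (fun x => b x.1 x.2), hne, ?_, ?_,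
      ?_, ?_⟩
    · intro i j hij
      by_contra h1
      exact hij (Finset.mem_filter.2 ⟨Finset.mem_univ _, h1⟩)
    · intro x hxJ
      exact ⟨Finset.le_sup' (fun x : Fin r × Fin s => a x.1 x.2) hxJ,
        Finset.inf'_le (fun x : Fin r × Fin s => b x.1 x.2) hxJ⟩
    · obtain ⟨x, hxJ⟩ := hne
      exact (hab x.1 x.2).1.trans (Finset.le_sup' (fun x : Fin r × Fin s => a x.1 x.2) hxJ)
    · rw [Finset.sup'_lt_iff]
      intro x hxJ
      rw [Finset.lt_inf'_iff]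
      intro y hyJ
      exact hcom x.1 x.2 y.1 y.2 (Finset.mem_filter.1 hxJ).2 (Finset.mem_filter.1 hyJ).2
  · push Not at hx
    refine ⟨{(⟨0, hr⟩, ⟨0, hs⟩)}, a ⟨0, hr⟩ ⟨0, hs⟩, b ⟨0, hr⟩ ⟨0, hs⟩,
      Finset.singleton_nonempty _, fun i j _ => hx (i, j), ?_, (hab _ _).1, (hab _ _).2⟩
    intro x hxJ
    rw [Finset.mem_singleton] at hxJ
    rw [hxJ]
    exact ⟨le_rfl, le_rfl⟩

/-- **Patterns with overlapping windows.** For admissible even shifts, disjoint windows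
`(a i j, b i j]` and `n i j` such that any two windows with `n ≠ 0` overlap: the pattern occurs for a
positive proportion of the even `m` at the scale `log X loglog X`. -/
theorem common_X {r s : ℕ} (hr : 1 ≤ r) (hs : 1 ≤ s) (h : Fin r → ℕ)
    (hinj : Function.Injective h) (heven : ∀ i, Even (h i))
    (hadm : ∀ p : ℕ, p.Prime → ∃ c : ℕ, ∀ i, ¬ (h i ≡ c [MOD p]))
    (a b : Fin r → Fin s → ℝ) (hab : ∀ i j, 0 ≤ a i j ∧ a i j < b i j)
    (hdis : ∀ i j l, j ≠ l → b i j ≤ a i l ∨ b i l ≤ a i j) (n : Fin r → Fin s → ℕ)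
    (hcom : ∀ i j k l, n i j ≠ 0 → n k l ≠ 0 → a i j < b k l) :
    ∃ c' : ℝ, 0 < c' ∧ ∃ X₀ : ℕ, ∀ X : ℕ, X₀ ≤ X → c' * X ≤ (cntP h a b n X : ℝ) := by
  obtain ⟨J, α, β, hJne, hJn, hJab, hα, hαβ⟩ := exists_common hr hs a b hab n hcom
  obtain ⟨K, hK1, hK⟩ := variance_le
  obtain ⟨c₀, hc₀, hrich⟩ := one_window_rich
  obtain ⟨w₁, hw₁, hratio⟩ := ratio_small (512 * 1024 * (r * s) * K / c₀)
  obtain ⟨r₀, hr₀⟩ := exists_class h hadm (primorial w₁) (_root_.squarefree_primorial w₁)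
  have hrat := hratio w₁ le_rfl
  have hW1 : 1 ≤ primorial w₁ := primorial_pos w₁
  have hφ1 : 0 < Nat.totient (primorial w₁) := Nat.totient_pos.mpr hW1
  obtain ⟨X₁, hX₁⟩ := hrich (primorial w₁) hW1 r₀ α β hα hαβ
  have hW0 : (0 : ℝ) < ((primorial w₁ : ℕ) : ℝ) := by exact_mod_cast hW1
  have hφ0 : (0 : ℝ) < (Nat.totient (primorial w₁) : ℝ) := by exact_mod_cast hφ1
  have hba : 0 < β - α := by linarith
  have hcΘ : 0 < (β - α) / (32 * (Nat.totient (primorial w₁) : ℝ)) := by positivity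
  have hcR : 0 < c₀ * ((Nat.totient (primorial w₁) : ℝ) / ((primorial w₁ : ℕ) : ℝ)) ^ 2 := by
    positivity
  obtain ⟨cF, hcF, X₂, hX₂⟩ := patterns_of_rich K hK1 hK h hinj heven w₁ hw₁ r₀ hr₀
    a b (fun i j => ⟨(hab i j).1, (hab i j).2.le⟩) hdis n J hJne hJn
    (fun _ _ => α) (fun _ _ => β)
    (fun x hx => ⟨(hJab x hx).1, hαβ, (hJab x hx).2⟩)
    (c₀ * ((Nat.totient (primorial w₁) : ℝ) / ((primorial w₁ : ℕ) : ℝ)) ^ 2)
    ((β - α) / (32 * (Nat.totient (primorial w₁) : ℝ))) hcR hcΘ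
    (by
      intro x _
      set W : ℝ := ((primorial w₁ : ℕ) : ℝ) with hW
      set φ : ℝ := (Nat.totient (primorial w₁) : ℝ) with hφ
      have e1 : c₀ * (φ / W) ^ 2 * ((β - α) / (32 * φ)) ^ 2 * W ^ 2 * Real.sqrt w₁
          = c₀ * (β - α) ^ 2 / 1024 * Real.sqrt w₁ := by
        field_simp
        norm_num
      rw [e1]
      have e2 : c₀ * (β - α) ^ 2 / 1024 * (512 * 1024 * (r * s) * K / c₀ * (W / φ) ^ 6)
          ≤ c₀ * (β - α) ^ 2 / 1024 * Real.sqrt w₁ :=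
        mul_le_mul_of_nonneg_left hrat (by positivity)
      refine le_trans (le_of_eq ?_) e2
      field_simp)
  refine ⟨cF, hcF, max X₁ X₂, fun X hX => ?_⟩
  apply hX₂ X (le_trans (le_max_right _ _) hX)
  refine le_trans (hX₁ X (le_trans (le_max_left _ _) hX)) ?_
  have hsub : (Finset.Ioc (0 : ℤ) (X : ℤ)).filter
      (fun m => (β - α) / (32 * (Nat.totient (primorial w₁) : ℝ)) ≤ Th (primorial w₁) r₀ X α β m)
      ⊆ (Finset.Ioc (0 : ℤ) (X : ℤ)).filter (fun m => ∀ x ∈ J,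
        (β - α) / (32 * (Nat.totient (primorial w₁) : ℝ)) ≤ Th (primorial w₁) r₀ X α β m) := by
    intro m hm
    rw [Finset.mem_filter] at hm ⊢
    exact ⟨hm.1, fun x _ => hm.2⟩
  exact_mod_cast Finset.card_le_card hsub

end Pool.Agent.Lib.MP_bae66e_nt.LP
end
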