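import Pool.Agent.Lib.MP_bae66e_nt.Mg.G032
import Pool.Agent.Lib.MP_bae66e_nt.Mg.G006

section

/-!
# Row S1: the smoothed interval for one integer
-/

set_option autoImplicit false

namespace Pool.Agent.Lib.MP_bae66e_nt.EF

open Finset MeasureTheory Real
open Pool.Agent.E3
open Pool.Agent.Lib.MP_bae66e_nt.E2 (YR FR PH)
open Pool.Agent.Lib.MP_bae66e_nt.LL (fP gW)
open Pool.Agent.Lib.MP_bae66e_nt.AC (Sg VV)
open Pool.Agent.Lib.MP_bae66e_nt.AP3 (prI mem_prI)

/-- the `x` with `m - H ≤ exp x ≤ m` -/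
noncomputable def II (H m : ℕ) : Set ℝ := Set.Icc (Real.log ((m : ℝ) - H)) (Real.log m)

private lemma S1_mem {H X m : ℕ} (hX : 100 * H ≤ X) (hm : m ∈ Icc X (2 * X)) :
    (X : ℝ) ≤ m ∧ (m : ℝ) ≤ 2 * X ∧ 100 * (H : ℝ) ≤ X := by
  obtain ⟨h1, h2⟩ := Finset.mem_Icc.1 hm
  exact ⟨by exact_mod_cast h1, by exact_mod_cast h2, by exact_mod_cast hX⟩

/-- PROOF. `m - H ≥ X - X/100` and `m ≤ 2X`, `log 2 ≤ 1`. -/
theorem II_sub (H X m : ℕ) (hX : 100 * H ≤ X) (hX1 : 1 ≤ X) (hm : m ∈ Icc X (2 * X)) :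
    II H m ⊆ Set.Icc (Real.log X - 1) (Real.log X + 1) := by
  obtain ⟨h1, h2, h3⟩ := S1_mem hX hm
  have hX0 : (0 : ℝ) < X := by exact_mod_cast hX1
  have hl2 : Real.log 2 ≤ 1 := by
    have := Real.log_le_sub_one_of_pos (show (0 : ℝ) < 2 by norm_num)
    linarith
  have hH0 : (0 : ℝ) ≤ H := Nat.cast_nonneg H
  refine Set.Icc_subset_Icc ?_ ?_
  · have h4 : Real.log ((X : ℝ) / 2) ≤ Real.log ((m : ℝ) - H) :=
      Real.log_le_log (by positivity) (by linarith)
    rw [Real.log_div hX0.ne' (by norm_num)] at h4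
    linarith
  · have h4 : Real.log (m : ℝ) ≤ Real.log (2 * (X : ℝ)) :=
      Real.log_le_log (by linarith) (by linarith)
    rw [Real.log_mul (by norm_num) hX0.ne'] at h4
    linarith

private lemma S1_exp {H X m : ℕ} {x : ℝ} (hH : 1 ≤ H) (hX : 100 * H ≤ X) (hm : m ∈ Icc X (2 * X)) :
    x ∈ II H m ↔ (m : ℝ) - H ≤ Real.exp x ∧ Real.exp x ≤ m := by
  obtain ⟨h1, h2, h3⟩ := S1_mem hX hm
  have hHr : (1 : ℝ) ≤ H := by exact_mod_cast hH
  unfold II
  rw [Set.mem_Icc, Real.log_le_iff_le_exp (by linarith), Real.le_log_iff_exp_le (by linarith)]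

private lemma S1_card (S : Finset ℕ) (α L : ℝ) (hα : 0 ≤ α) (hL : 0 ≤ L)
    (hS : ∀ m ∈ S, α ≤ (m : ℝ) ∧ (m : ℝ) ≤ α + L) : (#S : ℝ) ≤ L + 1 := by
  have h1 : S ⊆ Finset.Icc ⌈α⌉₊ ⌊α + L⌋₊ := by
    intro m hm
    obtain ⟨h2, h3⟩ := hS m hm
    rw [Finset.mem_Icc]
    exact ⟨Nat.ceil_le.2 h2, Nat.le_floor h3⟩
  have h2 := Finset.card_le_card h1
  rw [Nat.card_Icc] at h2
  have h3 : (#S : ℝ) ≤ ((⌊α + L⌋₊ + 1 - ⌈α⌉₊ : ℕ) : ℝ) := by exact_mod_cast h2
  rcases le_or_gt ⌈α⌉₊ (⌊α + L⌋₊ + 1) with h4 | h4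
  · rw [Nat.cast_sub h4] at h3
    have h5 := Nat.floor_le (show 0 ≤ α + L by linarith)
    have h6 := Nat.le_ceil α
    push_cast at h3
    linarith
  · have h5 : ⌊α + L⌋₊ + 1 - ⌈α⌉₊ = 0 := by omega
    rw [h5, Nat.cast_zero] at h3
    linarith

open Classical in
/-- PROOF. `x ∈ II H m` means `exp x ≤ m ≤ exp x + H` (`m ≥ X ≥ 100 H`, `m > 0`). -/
theorem II_count (H X : ℕ) (hH : 1 ≤ H) (hX : 100 * H ≤ X) (x : ℝ) :
    (#{m ∈ Icc X (2 * X) | x ∈ II H m} : ℝ) ≤ (H : ℝ) + 1 := by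
  refine S1_card _ (Real.exp x) (H : ℝ) (Real.exp_pos x).le (by positivity) ?_
  intro m hm
  rw [Finset.mem_filter] at hm
  obtain ⟨h1, h2⟩ := (S1_exp hH hX hm.1).1 hm.2
  exact ⟨h2, by linarith⟩

private lemma S1_log {t : ℝ} (h0 : 0 ≤ t) (h1 : t ≤ 1 / 2) : t ≤ -Real.log (1 - t) ∧ -Real.log (1 - t) ≤ t + 2 * t ^ 2 := by
  have h2 : 0 < 1 - t := by linarith
  constructor
  · have := Real.log_le_sub_one_of_pos h2
    linarith
  · have h3 := Real.log_le_sub_one_of_pos (show 0 < (1 - t)⁻¹ by positivity)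
    rw [Real.log_inv] at h3
    have h4 : (1 - t)⁻¹ - 1 ≤ t + 2 * t ^ 2 := by
      rw [sub_le_iff_le_add, inv_le_iff_one_le_mul₀ h2]
      nlinarith
    linarith

/-- PROOF. `m |II| = - m log (1 - H/m)` is between `H` and `H + 2 H²/m`. -/
theorem II_len (H X m : ℕ) (hH : 1 ≤ H) (hX : 100 * H ≤ X) (hm : m ∈ Icc X (2 * X)) :
    (H : ℝ) / m ≤ Real.log m - Real.log ((m : ℝ) - H) ∧
      Real.log m - Real.log ((m : ℝ) - H) ≤ H / m + 2 * (H : ℝ) ^ 2 / m ^ 2 := by
  obtain ⟨h1, h2, h3⟩ := S1_mem hX hm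
  have hHr : (1 : ℝ) ≤ H := by exact_mod_cast hH
  have hm0 : (0 : ℝ) < m := by linarith
  have h4 : (m : ℝ) - H = m * (1 - H / m) := by field_simp
  have h5 : (H : ℝ) / m ≤ 1 / 2 := by
    rw [div_le_div_iff₀ hm0 (by norm_num)]
    linarith
  have h6 : Real.log m - Real.log ((m : ℝ) - H) = -Real.log (1 - H / m) := by
    rw [h4, Real.log_mul hm0.ne' (by linarith)]
    ring
  rw [h6]
  obtain ⟨h7, h8⟩ := S1_log (show (0 : ℝ) ≤ H / m by positivity) h5
  refine ⟨h7, h8.trans (le_of_eq ?_)⟩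
  rw [div_pow]
  ring

/-- PROOF. Both `{m : n ∈ [m - H, m)} = (n, n + H]` and `{m : x ∈ II H m} = [exp x, exp x + H]` (inside `[X, 2X]`) are intervals of length `H`; the symmetric difference has at most
`2 |exp x - n| + 4` integers. -/
theorem II_diff (H X n : ℕ) (hH : 1 ≤ H) (hX : 100 * H ≤ X) (x : ℝ) :
    ∑ m ∈ Icc X (2 * X), |(if n ∈ Ico (m - H) m then (1 : ℝ) else 0) - (Set.indicator (II H m) (fun _ => (1 : ℝ)) x)|
      ≤ 2 * |Real.exp x - n| + 4 := by
  classical
  set e := Real.exp x with he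
  have he0 : 0 < e := Real.exp_pos x
  -- the two sets
  set δ := |e - n| with hδ
  have hd0 : 0 ≤ δ := abs_nonneg _
  have hd1 : e - n ≤ δ := le_abs_self _
  have hd2 : (n : ℝ) - e ≤ δ := by rw [hδ, abs_sub_comm]; exact le_abs_self _
  set A : Finset ℕ := (Icc X (2 * X)).filter (fun m => min e n ≤ (m : ℝ) ∧ (m : ℝ) ≤ min e n + δ) with hA
  set B : Finset ℕ := (Icc X (2 * X)).filter (fun m => min e n + H ≤ (m : ℝ) ∧ (m : ℝ) ≤ min e n + H + δ) with hB
  have hmin0 : 0 ≤ min e (n : ℝ) := le_min he0.le (Nat.cast_nonneg n)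
  have hmaxe : e ≤ min e n + δ := by
    rcases le_total e (n : ℝ) with h | h
    · rw [min_eq_left h]; linarith
    · rw [min_eq_right h]; linarith
  have hmaxn : (n : ℝ) ≤ min e n + δ := by
    rcases le_total e (n : ℝ) with h | h
    · rw [min_eq_left h]; linarith
    · rw [min_eq_right h]; linarith
  have hAc : (#A : ℝ) ≤ δ + 1 := S1_card A _ δ hmin0 hd0 fun m hm => (Finset.mem_filter.1 hm).2
  have hBc : (#B : ℝ) ≤ δ + 1 := S1_card B _ δ (by positivity) hd0 fun m hm => (Finset.mem_filter.1 hm).2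
  have hterm : ∀ m ∈ Icc X (2 * X),
      |(if n ∈ Ico (m - H) m then (1 : ℝ) else 0) - (Set.indicator (II H m) (fun _ => (1 : ℝ)) x)|
        ≤ (if m ∈ A then 1 else 0) + (if m ∈ B then 1 else 0) := by
    intro m hm
    have hHm : H ≤ m := by
      have := (Finset.mem_Icc.1 hm).1
      omega
    rw [Set.indicator_apply]
    have hA' : m ∈ A ↔ (min e n ≤ (m : ℝ) ∧ (m : ℝ) ≤ min e n + δ) := by
      rw [hA, Finset.mem_filter]; exact ⟨fun h => h.2, fun h => ⟨hm, h⟩⟩
    have hB' : m ∈ B ↔ (min e n + H ≤ (m : ℝ) ∧ (m : ℝ) ≤ min e n + H + δ) := by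
      rw [hB, Finset.mem_filter]; exact ⟨fun h => h.2, fun h => ⟨hm, h⟩⟩
    have hn' : n ∈ Ico (m - H) m ↔ ((m : ℝ) ≤ n + H ∧ (n : ℝ) < m) := by
      rw [Finset.mem_Ico]
      constructor
      · rintro ⟨h1, h2⟩
        refine ⟨?_, by exact_mod_cast h2⟩
        have : m ≤ n + H := by omega
        exact_mod_cast this
      · rintro ⟨h1, h2⟩
        have h1' : m ≤ n + H := by exact_mod_cast h1
        have h2' : n < m := by exact_mod_cast h2
        omega
    have hx' := S1_exp (x := x) hH hX hm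
    rw [← he] at hx'
    by_cases c1 : n ∈ Ico (m - H) m
    · by_cases c2 : x ∈ II H m
      · rw [if_pos c1, if_pos c2, sub_self, abs_zero]
        positivity
      · rw [if_pos c1, if_neg c2, sub_zero, abs_one]
        rw [hn'] at c1
        rw [hx', not_and_or, not_le, not_le] at c2
        rcases c2 with c3 | c3
        · -- e < m - H
          have hB1 : m ∈ B := by
            rw [hB']
            constructor
            · have := min_le_left e (n : ℝ); linarith
            · linarith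
          rw [if_pos hB1]
          have : (0 : ℝ) ≤ if m ∈ A then 1 else 0 := by positivity
          linarith
        · have hA1 : m ∈ A := by
            rw [hA']
            constructor
            · have := min_le_right e (n : ℝ); linarith
            · linarith
          rw [if_pos hA1]
          have : (0 : ℝ) ≤ if m ∈ B then 1 else 0 := by positivity
          linarith
    · by_cases c2 : x ∈ II H m
      · rw [if_neg c1, if_pos c2, zero_sub, abs_neg, abs_one]
        rw [hx'] at c2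
        rw [hn', not_and_or, not_le, not_lt] at c1
        rcases c1 with c3 | c3
        · have hB1 : m ∈ B := by
            rw [hB']
            constructor
            · have := min_le_right e (n : ℝ); linarith
            · linarith
          rw [if_pos hB1]
          have : (0 : ℝ) ≤ if m ∈ A then 1 else 0 := by positivity
          linarith
        · have hA1 : m ∈ A := by
            rw [hA']
            constructor
            · have := min_le_left e (n : ℝ); linarith
            · linarith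
          rw [if_pos hA1]
          have : (0 : ℝ) ≤ if m ∈ B then 1 else 0 := by positivity
          linarith
      · rw [if_neg c1, if_neg c2, sub_self, abs_zero]
        positivity
  refine (Finset.sum_le_sum hterm).trans ?_
  rw [Finset.sum_add_distrib]
  have hsA : ∑ m ∈ Icc X (2 * X), (if m ∈ A then (1 : ℝ) else 0) ≤ #A := by
    rw [Finset.sum_boole]
    exact_mod_cast Finset.card_le_card (fun m hm => (Finset.mem_filter.1 hm).2)
  have hsB : ∑ m ∈ Icc X (2 * X), (if m ∈ B then (1 : ℝ) else 0) ≤ #B := by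
    rw [Finset.sum_boole]
    exact_mod_cast Finset.card_le_card (fun m hm => (Finset.mem_filter.1 hm).2)
  linarith

private lemma S1_pt (d v : ℝ) (hd : 0 < d) (hd1 : d ≤ 1) :
    |Real.exp v - 1| * gsn d v ≤ d * (2 * Real.exp (8 / 3)) * gsn (2 * d) v := by
  have h1 : |Real.exp v - 1| ≤ |v| * Real.exp |v| := by
    rcases le_total 0 v with h | h
    · rw [abs_of_nonneg h, abs_of_nonneg (by linarith [Real.add_one_le_exp v])]
      have h2 := Real.add_one_le_exp (-v)
      have h3 : Real.exp (-v) * Real.exp v = 1 := by rw [← Real.exp_add]; simp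
      have h4 := Real.exp_pos v
      nlinarith
    · rw [abs_of_nonpos h, abs_of_nonpos (by
        have := Real.exp_le_one_iff.2 h
        linarith)]
      have h2 := Real.add_one_le_exp v
      have h3 : 1 ≤ Real.exp (-v) := Real.one_le_exp (by linarith)
      nlinarith
  have hw : |v| ≤ |v| / d := by
    rw [le_div_iff₀ hd]
    have := abs_nonneg v
    nlinarith
  set w := |v| / d with hwd
  have hw0 : 0 ≤ w := by positivity
  have hvw : |v| = d * w := by rw [hwd]; field_simp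
  have h2 : |v| * Real.exp |v| ≤ d * Real.exp (2 * w) := by
    rw [show 2 * w = w + w by ring, Real.exp_add]
    have h3 : w ≤ Real.exp w := by linarith [Real.add_one_le_exp w]
    have h4 : Real.exp |v| ≤ Real.exp w := Real.exp_le_exp.2 hw
    calc |v| * Real.exp |v| = d * (w * Real.exp |v|) := by rw [hvw]; ring
      _ ≤ d * (Real.exp w * Real.exp w) := by
          apply mul_le_mul_of_nonneg_left _ hd.le
          exact mul_le_mul h3 h4 (Real.exp_pos _).le (Real.exp_pos _).le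
  have hv2 : v ^ 2 = d ^ 2 * w ^ 2 := by
    rw [← sq_abs v, hvw]; ring
  have hg1 : gsn d v = 1 / d * Real.exp (-(w ^ 2 / 2)) := by
    unfold gsn
    rw [hv2]
    congr 3
    field_simp
  have hg2 : gsn (2 * d) v = 1 / (2 * d) * Real.exp (-(w ^ 2 / 8)) := by
    unfold gsn
    rw [hv2]
    congr 3
    field_simp
    ring
  rw [hg1, hg2]
  have h5 : Real.exp (2 * w) * Real.exp (-(w ^ 2 / 2)) ≤ Real.exp (8 / 3) * Real.exp (-(w ^ 2 / 8)) := by
    rw [← Real.exp_add, ← Real.exp_add]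
    apply Real.exp_le_exp.2
    nlinarith [sq_nonneg (w - 8 / 3)]
  have hd' : 0 < 1 / d := by positivity
  calc |Real.exp v - 1| * (1 / d * Real.exp (-(w ^ 2 / 2)))
      ≤ (d * Real.exp (2 * w)) * (1 / d * Real.exp (-(w ^ 2 / 2))) :=
        mul_le_mul_of_nonneg_right (h1.trans h2) (by positivity)
    _ = Real.exp (2 * w) * Real.exp (-(w ^ 2 / 2)) := by field_simp
    _ ≤ Real.exp (8 / 3) * Real.exp (-(w ^ 2 / 8)) := h5
    _ = d * (2 * Real.exp (8 / 3)) * (1 / (2 * d) * Real.exp (-(w ^ 2 / 8))) := by field_simp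

private theorem S1_gsn_nonneg (L v : ℝ) (hL : 0 < L) : 0 ≤ gsn L v := by
  unfold gsn; positivity

private theorem S1_gsn_cont (L : ℝ) : Continuous (gsn L) := by
  unfold gsn; fun_prop

/-- PROOF. With `v = x - log n`: `|exp x - n| = n |exp v - 1| ≤ n |v| exp |v|`, and `∫ |v| exp |v| gsn d v dv ≤ C d` for `d ≤ 1` (substitute `v = d u`). -/
theorem exp_gsn : ∃ C : ℝ, 1 ≤ C ∧ ∀ (n : ℕ) (d : ℝ), 1 ≤ n → 0 < d → d ≤ 1 →
    Integrable (fun x : ℝ => |Real.exp x - n| * gsn d (x - Real.log n)) ∧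
    ∫ x : ℝ, |Real.exp x - n| * gsn d (x - Real.log n) ≤ C * (n * d) := by
  refine ⟨2 * Real.exp (8 / 3) * Real.sqrt (2 * π) + 1, by
    have : 0 ≤ 2 * Real.exp (8 / 3) * Real.sqrt (2 * π) := by positivity
    linarith, ?_⟩
  intro n d hn hd hd1
  have hn0 : (0 : ℝ) < n := by exact_mod_cast hn
  obtain ⟨hi, hI⟩ := gsn_integral (2 * d) (Real.log n) (by positivity)
  have hpt : ∀ x : ℝ, |Real.exp x - n| * gsn d (x - Real.log n) ≤
      (n * d * (2 * Real.exp (8 / 3))) * gsn (2 * d) (x - Real.log n) := by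
    intro x
    have h1 : Real.exp x - n = n * (Real.exp (x - Real.log n) - 1) := by
      rw [Real.exp_sub, Real.exp_log hn0]
      field_simp
    rw [h1, abs_mul, abs_of_pos hn0]
    have h2 := mul_le_mul_of_nonneg_left (S1_pt d (x - Real.log n) hd hd1) hn0.le
    calc _ = (n : ℝ) * (|Real.exp (x - Real.log n) - 1| * gsn d (x - Real.log n)) := by ring
      _ ≤ _ := h2
      _ = _ := by ring
  have h0 : ∀ x : ℝ, 0 ≤ |Real.exp x - n| * gsn d (x - Real.log n) := fun x =>
    mul_nonneg (abs_nonneg _) (S1_gsn_nonneg _ _ hd)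
  have hcont : Continuous (fun x : ℝ => |Real.exp x - n| * gsn d (x - Real.log n)) := by
    have := S1_gsn_cont d
    fun_prop
  have hint : Integrable (fun x : ℝ => |Real.exp x - n| * gsn d (x - Real.log n)) := by
    refine (hi.const_mul (n * d * (2 * Real.exp (8 / 3)))).mono' hcont.aestronglyMeasurable ?_
    refine Filter.Eventually.of_forall fun x => ?_
    rw [Real.norm_eq_abs, abs_of_nonneg (h0 x)]
    exact hpt x
  refine ⟨hint, ?_⟩
  calc ∫ x : ℝ, |Real.exp x - n| * gsn d (x - Real.log n)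
      ≤ ∫ x : ℝ, (n * d * (2 * Real.exp (8 / 3))) * gsn (2 * d) (x - Real.log n) :=
        integral_mono hint (hi.const_mul _) hpt
    _ = (2 * Real.exp (8 / 3) * Real.sqrt (2 * π)) * (n * d) := by
        rw [integral_const_mul, hI]; ring
    _ ≤ _ := by
        have : 0 ≤ (n : ℝ) * d := by positivity
        nlinarith

/-- PROOF. `1_{n ∈ [m - H, m)} - (2π)^(-1/2) ∫_{II} gsn = (2π)^(-1/2) ∫ (1_{n ∈ ..} - 1_{II H m}(x)) gsn d (x - log n) dx` (`gsn_integral`, E3/B1); sum over `m`, exchange, `II_diff` and `exp_gsn`. -/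
theorem smooth_one : ∃ C : ℝ, 1 ≤ C ∧ ∀ (H X n : ℕ) (d : ℝ), 1 ≤ H → 100 * H ≤ X → 1 ≤ n → 0 < d → d ≤ 1 →
    ∑ m ∈ Icc X (2 * X), |(if n ∈ Ico (m - H) m then (1 : ℝ) else 0) -
      1 / Real.sqrt (2 * π) * ∫ x in II H m, gsn d (x - Real.log n)| ≤ C * (n * d + 1) := by
  obtain ⟨C, hC, hexp⟩ := exp_gsn
  refine ⟨2 * C + 4, by linarith, ?_⟩
  intro H X n d hH hX hn hd hd1
  have hn0 : (0 : ℝ) < n := by exact_mod_cast hn
  obtain ⟨hi, hI⟩ := gsn_integral d (Real.log n) hd
  obtain ⟨hei, heI⟩ := hexp n d hn hd hd1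
  set s := Real.sqrt (2 * π) with hs
  have hs1 : 1 ≤ s := by
    rw [hs, Real.one_le_sqrt]
    have := Real.pi_gt_three
    linarith
  have hs0 : 0 < s := by linarith
  set J : ℕ → ℝ := fun m => if n ∈ Ico (m - H) m then (1 : ℝ) else 0 with hJ
  have hJb : ∀ m, |J m| ≤ 1 := by
    intro m
    simp only [hJ]
    split_ifs <;> simp
  have hmeas : ∀ m, MeasurableSet (II H m) := fun m => measurableSet_Icc
  have hindi : ∀ m, Integrable (fun x : ℝ => (Set.indicator (II H m) (fun _ => (1 : ℝ)) x) * gsn d (x - Real.log n)) := by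
    intro m
    have h1 : (fun x : ℝ => (Set.indicator (II H m) (fun _ => (1 : ℝ)) x) * gsn d (x - Real.log n)) =
        Set.indicator (II H m) (fun x => gsn d (x - Real.log n)) := by
      funext x
      by_cases hx : x ∈ II H m
      · rw [Set.indicator_of_mem hx, Set.indicator_of_mem hx, one_mul]
      · rw [Set.indicator_of_notMem hx, Set.indicator_of_notMem hx, zero_mul]
    rw [h1]
    exact hi.indicator (hmeas m)
  have hdiff : ∀ m, Integrable (fun x : ℝ => (J m - Set.indicator (II H m) (fun _ => (1 : ℝ)) x) * gsn d (x - Real.log n)) := by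
    intro m
    have h1 := (hi.const_mul (J m)).sub (hindi m)
    refine h1.congr (Filter.Eventually.of_forall fun x => ?_)
    simp only [Pi.sub_apply]
    ring
  have habs : ∀ m, Integrable (fun x : ℝ => |J m - Set.indicator (II H m) (fun _ => (1 : ℝ)) x| * gsn d (x - Real.log n)) := by
    intro m
    refine (hdiff m).abs.congr (Filter.Eventually.of_forall fun x => ?_)
    simp only
    rw [abs_mul, abs_of_nonneg (S1_gsn_nonneg d _ hd)]
  have hterm : ∀ m, |J m - 1 / s * ∫ x in II H m, gsn d (x - Real.log n)| ≤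
      1 / s * ∫ x : ℝ, |J m - Set.indicator (II H m) (fun _ => (1 : ℝ)) x| * gsn d (x - Real.log n) := by
    intro m
    have h1 : ∫ x in II H m, gsn d (x - Real.log n) =
        ∫ x : ℝ, (Set.indicator (II H m) (fun _ => (1 : ℝ)) x) * gsn d (x - Real.log n) := by
      rw [← integral_indicator (hmeas m)]
      congr 1
      funext x
      by_cases hx : x ∈ II H m
      · rw [Set.indicator_of_mem hx, Set.indicator_of_mem hx, one_mul]
      · rw [Set.indicator_of_notMem hx, Set.indicator_of_notMem hx, zero_mul]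
    have h2 : J m - 1 / s * ∫ x in II H m, gsn d (x - Real.log n) =
        1 / s * ∫ x : ℝ, (J m - Set.indicator (II H m) (fun _ => (1 : ℝ)) x) * gsn d (x - Real.log n) := by
      have h3 : ∫ x : ℝ, (J m - Set.indicator (II H m) (fun _ => (1 : ℝ)) x) * gsn d (x - Real.log n) =
          J m * s - ∫ x in II H m, gsn d (x - Real.log n) := by
        rw [h1, ← hI, ← integral_const_mul, ← integral_sub (hi.const_mul _) (hindi m)]
        congr 1
        funext x
        ring
      rw [h3]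
      field_simp
    rw [h2, abs_mul, abs_of_pos (by positivity : 0 < 1 / s)]
    apply mul_le_mul_of_nonneg_left _ (by positivity)
    refine (abs_integral_le_integral_abs).trans (le_of_eq ?_)
    congr 1
    funext x
    rw [abs_mul, abs_of_nonneg (S1_gsn_nonneg d _ hd)]
  refine (Finset.sum_le_sum fun m _ => hterm m).trans ?_
  rw [← Finset.mul_sum, ← integral_finsetSum _ (fun m _ => habs m)]
  have hle : ∫ x : ℝ, ∑ m ∈ Icc X (2 * X), |J m - Set.indicator (II H m) (fun _ => (1 : ℝ)) x| * gsn d (x - Real.log n)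
      ≤ ∫ x : ℝ, (2 * (|Real.exp x - n| * gsn d (x - Real.log n)) + 4 * gsn d (x - Real.log n)) := by
    refine integral_mono (integrable_finsetSum _ fun m _ => habs m) ((hei.const_mul 2).add (hi.const_mul 4)) ?_
    intro x
    simp only
    rw [← Finset.sum_mul]
    have h1 := mul_le_mul_of_nonneg_right (II_diff H X n hH hX x) (S1_gsn_nonneg d (x - Real.log n) hd)
    refine h1.trans (le_of_eq ?_)
    ring
  have hval : ∫ x : ℝ, (2 * (|Real.exp x - n| * gsn d (x - Real.log n)) + 4 * gsn d (x - Real.log n))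
      ≤ 2 * (C * (n * d)) + 4 * s := by
    rw [integral_add (hei.const_mul 2) (hi.const_mul 4), integral_const_mul, integral_const_mul, hI]
    linarith
  have h5 : 1 / s * (2 * (C * (n * d)) + 4 * s) ≤ 2 * (C * (n * d)) + 4 := by
    have h6 : 1 / s * (4 * s) = 4 := by field_simp
    have h7 : 1 / s ≤ 1 := by rw [div_le_one hs0]; exact hs1
    have h8 : 0 ≤ 2 * (C * ((n : ℝ) * d)) := by positivity
    nlinarith
  have h9 : 0 ≤ (n : ℝ) * d := by positivity
  calc _ ≤ 1 / s * (2 * (C * (n * d)) + 4 * s) :=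
        mul_le_mul_of_nonneg_left (hle.trans hval) (by positivity)
    _ ≤ 2 * (C * (n * d)) + 4 := h5
    _ ≤ (2 * C + 4) * (n * d + 1) := by nlinarith

end Pool.Agent.Lib.MP_bae66e_nt.EF
end

section

/-!
# Row S2: from Gaussian windows to intervals of integers, two-sided
-/

set_option autoImplicit false

namespace Pool.Agent.Lib.MP_bae66e_nt.EF

open Finset MeasureTheory Real
open Pool.Agent.E3
open Pool.Agent.Lib.MP_bae66e_nt.E2 (YR FR PH)
open Pool.Agent.Lib.MP_bae66e_nt.LL (fP gW)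
open Pool.Agent.Lib.MP_bae66e_nt.AC (Sg VV)
open Pool.Agent.Lib.MP_bae66e_nt.AP3 (prI mem_prI)

/-- PROOF. As `sum_JJ` (E3/B6b). -/
theorem sum_II (H X : ℕ) (g : ℝ → ℝ) (hH : 1 ≤ H) (hX : 100 * H ≤ X) (hg : ∀ x, 0 ≤ g x)
    (hgi : IntegrableOn g (Set.Icc (Real.log X - 1) (Real.log X + 1))) :
    ∑ m ∈ Icc X (2 * X), ∫ x in II H m, g x
      ≤ ((H : ℝ) + 1) * ∫ x in Set.Icc (Real.log X - 1) (Real.log X + 1), g x := by
  classical
  have hX1 : 1 ≤ X := by omega
  have hmeas : ∀ m, MeasurableSet (II H m) := fun m => measurableSet_Icc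
  have h1 : ∀ m ∈ Icc X (2 * X), ∫ x in II H m, g x =
      ∫ x in Set.Icc (Real.log X - 1) (Real.log X + 1), (II H m).indicator g x := by
    intro m hm
    rw [setIntegral_indicator (hmeas m), Set.inter_eq_self_of_subset_right (II_sub H X m hX hX1 hm)]
  have h2 : ∀ m ∈ Icc X (2 * X), IntegrableOn ((II H m).indicator g)
      (Set.Icc (Real.log X - 1) (Real.log X + 1)) := by
    intro m hm
    exact hgi.indicator (hmeas m)
  rw [Finset.sum_congr rfl h1, ← integral_finsetSum _ h2, ← integral_const_mul]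
  apply integral_mono_ae
  · exact integrable_finsetSum _ h2
  · exact hgi.const_mul _
  · refine Filter.Eventually.of_forall ?_
    intro x
    have h3 : ∑ m ∈ Icc X (2 * X), (II H m).indicator g x =
        (#{m ∈ Icc X (2 * X) | x ∈ II H m} : ℝ) * g x := by
      rw [← nsmul_eq_mul, ← Finset.sum_const, Finset.sum_filter]
      apply Finset.sum_congr rfl
      intro m hm
      rw [Set.indicator_apply]
    show ∑ m ∈ Icc X (2 * X), (II H m).indicator g x ≤ ((H : ℝ) + 1) * g x
    rw [h3]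
    refine mul_le_mul_of_nonneg_right ?_ (hg x)
    convert II_count H X hH hX x

private theorem S2_gsn_nonneg (L v : ℝ) (hL : 0 < L) : 0 ≤ gsn L v := by
  unfold gsn; positivity

/-- the first part: the sharp interval against the smoothed one, for one `m` -/
private theorem S2_point {ι : Type} (P : Finset ι) (n : ι → ℕ) (u : ι → ℝ) (H X m : ℕ) (d : ℝ)
    (hn : ∀ p ∈ P, 1 ≤ n p) (hu : ∀ p ∈ P, 0 ≤ u p) (hH : 1 ≤ H) (hX : 100 * H ≤ X) (hd : 0 < d) (hm : m ∈ Icc X (2 * X)) :
    |∑ p ∈ P with n p ∈ Ico (m - H) m, u p -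
      m / Real.sqrt (2 * π) * ∫ x in II H m, ∑ p ∈ P, u p / n p * gsn d (x - Real.log (n p))| ≤
    ∑ p ∈ P, u p / n p * (H * (if n p ∈ Ico (m - H) m then (1 : ℝ) else 0) +
      2 * X * |(if n p ∈ Ico (m - H) m then (1 : ℝ) else 0) -
        1 / Real.sqrt (2 * π) * ∫ x in II H m, gsn d (x - Real.log (n p))|) := by
  have hmX : (X : ℝ) ≤ m ∧ (m : ℝ) ≤ 2 * X := by
    obtain ⟨h1, h2⟩ := Finset.mem_Icc.1 hm
    exact ⟨by exact_mod_cast h1, by exact_mod_cast h2⟩
  have hHm : H ≤ m := by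
    have := (Finset.mem_Icc.1 hm).1
    omega
  have hgi : ∀ p ∈ P, IntegrableOn (fun x : ℝ => u p / n p * gsn d (x - Real.log (n p))) (II H m) :=
    fun p _ => ((gsn_integral d (Real.log (n p)) hd).1.const_mul _).integrableOn
  rw [integral_finsetSum _ hgi, Finset.sum_filter, Finset.mul_sum, ← Finset.sum_sub_distrib]
  refine (Finset.abs_sum_le_sum_abs _ _).trans (Finset.sum_le_sum fun p hp => ?_)
  have hn0 : (0 : ℝ) < n p := by exact_mod_cast hn p hp
  have hup := hu p hp
  rw [integral_const_mul]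
  set φ := 1 / Real.sqrt (2 * π) * ∫ x in II H m, gsn d (x - Real.log (n p)) with hφ
  have e1 : (m : ℝ) / Real.sqrt (2 * π) * (u p / n p * ∫ x in II H m, gsn d (x - Real.log (n p))) =
      u p / n p * (m * φ) := by
    rw [hφ]; ring
  rw [e1]
  by_cases c : n p ∈ Ico (m - H) m
  · rw [if_pos c, if_pos c]
    have h1 : u p - u p / n p * (m * φ) = u p / n p * ((n p - m) + m * (1 - φ)) := by
      field_simp
      ring
    rw [h1, abs_mul, abs_of_nonneg (by positivity)]
    apply mul_le_mul_of_nonneg_left _ (by positivity)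
    refine (abs_add_le _ _).trans ?_
    rw [Finset.mem_Ico] at c
    have h2 : |(n p : ℝ) - m| ≤ H := by
      rw [abs_le]
      have h3 : m ≤ n p + H := by omega
      have h4 : (m : ℝ) ≤ n p + H := by exact_mod_cast h3
      have h5 : (n p : ℝ) ≤ m := by exact_mod_cast c.2.le
      have h6 : (0 : ℝ) ≤ H := Nat.cast_nonneg H
      constructor <;> linarith
    have h3 : |(m : ℝ) * (1 - φ)| ≤ 2 * X * |1 - φ| := by
      rw [abs_mul, abs_of_nonneg (Nat.cast_nonneg m)]
      exact mul_le_mul_of_nonneg_right hmX.2 (abs_nonneg _)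
    rw [mul_one]
    linarith
  · rw [if_neg c, if_neg c, zero_sub, abs_neg, abs_mul, abs_of_nonneg (by positivity : 0 ≤ u p / n p)]
    apply mul_le_mul_of_nonneg_left _ (by positivity)
    rw [mul_zero, zero_add, zero_sub, abs_neg, abs_mul, abs_of_nonneg (Nat.cast_nonneg m)]
    exact mul_le_mul_of_nonneg_right hmX.2 (abs_nonneg _)

/-- the function `B` near `log m` -/
private theorem S2_B (H X m : ℕ) (B₁ : ℝ) (B : ℝ → ℝ) (hH : 1 ≤ H) (hX : 100 * H ≤ X) (hm : m ∈ Icc X (2 * X))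
    (hB1 : 0 ≤ B₁) (hb : ∀ x, 0 ≤ B x ∧ B x ≤ B₁) (hl : ∀ x y, |B x - B y| ≤ B₁ * |x - y|) (hBi : IntegrableOn B (II H m)) :
    |(m : ℝ) / Real.sqrt (2 * π) * (∫ x in II H m, B x) - H / Real.sqrt (2 * π) * B (Real.log m)| ≤ 3 * B₁ * H ^ 2 / X := by
  have hmX : (X : ℝ) ≤ m ∧ (m : ℝ) ≤ 2 * X := by
    obtain ⟨h1, h2⟩ := Finset.mem_Icc.1 hm
    exact ⟨by exact_mod_cast h1, by exact_mod_cast h2⟩
  have hHr : (1 : ℝ) ≤ H := by exact_mod_cast hH
  have hX100 : 100 * (H : ℝ) ≤ X := by exact_mod_cast hX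
  have hX0 : (0 : ℝ) < X := by linarith
  have hm0 : (0 : ℝ) < m := by linarith
  obtain ⟨l1, l2⟩ := II_len H X m hH hX hm
  set ℓ := Real.log m - Real.log ((m : ℝ) - H) with hℓ
  have hℓ0 : 0 ≤ ℓ := le_trans (by positivity) l1
  have hvol : volume.real (II H m) = ℓ := by
    unfold II
    rw [Real.volume_real_Icc_of_le (by linarith)]
  have hfin : volume (II H m) ≠ ⊤ := by unfold II; simp
  have hconst : ∫ _x in II H m, B (Real.log m) = ℓ * B (Real.log m) := by
    rw [setIntegral_const, smul_eq_mul, hvol]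
  have hci : IntegrableOn (fun _ : ℝ => B (Real.log m)) (II H m) := integrableOn_const hfin
  have h1 : |(∫ x in II H m, B x) - ℓ * B (Real.log m)| ≤ B₁ * ℓ * ℓ := by
    rw [← hconst, ← integral_sub hBi hci]
    have h2 : ‖∫ x in II H m, (B x - B (Real.log m))‖ ≤ (B₁ * ℓ) * volume.real (II H m) := by
      apply norm_setIntegral_le_of_norm_le_const (lt_top_iff_ne_top.2 hfin)
      intro x hx
      rw [Real.norm_eq_abs]
      refine (hl x _).trans ?_
      apply mul_le_mul_of_nonneg_left _ hB1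
      unfold II at hx
      rw [abs_le]
      constructor <;> linarith [hx.1, hx.2]
    rw [hvol, Real.norm_eq_abs] at h2
    exact h2
  set s := Real.sqrt (2 * π) with hs
  have hs2 : 2 ≤ s := by
    rw [hs]
    apply Real.le_sqrt_of_sq_le
    have := Real.pi_gt_three
    linarith
  have hs0 : 0 < s := by linarith
  have hHm : (H : ℝ) / m ≤ 1 / 100 := by
    rw [div_le_div_iff₀ hm0 (by norm_num)]
    linarith
  have hl3 : ℓ ≤ 1.02 * (H / m) := by
    have h4 : (H : ℝ) ^ 2 / m ^ 2 = (H / m) * (H / m) := by rw [← div_pow, sq]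
    have h5 : (0 : ℝ) ≤ H / m := by positivity
    have h6 : (H : ℝ) / m * (H / m) ≤ H / m * (1 / 100) := mul_le_mul_of_nonneg_left hHm h5
    have h7 : 2 * (H : ℝ) ^ 2 / m ^ 2 = 2 * ((H : ℝ) ^ 2 / m ^ 2) := by ring
    rw [h7, h4] at l2
    linarith
  have hb' := hb (Real.log m)
  have hsplit : (m : ℝ) / s * (∫ x in II H m, B x) - H / s * B (Real.log m) =
      m / s * ((∫ x in II H m, B x) - ℓ * B (Real.log m)) + (m * ℓ - H) / s * B (Real.log m) := by
    field_simp
    ring
  rw [hsplit]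
  refine (abs_add_le _ _).trans ?_
  have e1 : |(m : ℝ) / s * ((∫ x in II H m, B x) - ℓ * B (Real.log m))| ≤ 0.5206 * (B₁ * (H ^ 2 / m)) := by
    rw [abs_mul, abs_of_nonneg (by positivity)]
    calc (m : ℝ) / s * |(∫ x in II H m, B x) - ℓ * B (Real.log m)| ≤ m / 2 * (B₁ * ℓ * ℓ) := by
          apply mul_le_mul _ h1 (abs_nonneg _) (by positivity)
          exact div_le_div_of_nonneg_left hm0.le (by norm_num) hs2
      _ ≤ m / 2 * (B₁ * (1.02 * (H / m)) * (1.02 * (H / m))) := by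
          apply mul_le_mul_of_nonneg_left _ (by positivity)
          gcongr
      _ = 0.5202 * (B₁ * (H ^ 2 / m)) := by field_simp; ring
      _ ≤ _ := by
          have : 0 ≤ B₁ * ((H : ℝ) ^ 2 / m) := by positivity
          linarith
  have e2 : |((m : ℝ) * ℓ - H) / s * B (Real.log m)| ≤ B₁ * (H ^ 2 / m) := by
    have h4 : 0 ≤ (m : ℝ) * ℓ - H := by
      have : (m : ℝ) * (H / m) ≤ m * ℓ := mul_le_mul_of_nonneg_left l1 hm0.le
      have h5 : (m : ℝ) * (H / m) = H := by field_simp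
      linarith
    have h5 : (m : ℝ) * ℓ - H ≤ 2 * (H ^ 2 / m) := by
      have : (m : ℝ) * ℓ ≤ m * (H / m + 2 * (H : ℝ) ^ 2 / m ^ 2) := mul_le_mul_of_nonneg_left l2 hm0.le
      have h6 : (m : ℝ) * (H / m + 2 * (H : ℝ) ^ 2 / m ^ 2) = H + 2 * (H ^ 2 / m) := by
        field_simp
      linarith
    rw [abs_of_nonneg (mul_nonneg (div_nonneg h4 hs0.le) hb'.1)]
    calc ((m : ℝ) * ℓ - H) / s * B (Real.log m) ≤ (2 * (H ^ 2 / m)) / 2 * B₁ := by
          apply mul_le_mul _ hb'.2 hb'.1 (by positivity)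
          exact div_le_div₀ (by positivity) h5 (by norm_num) hs2
      _ = B₁ * (H ^ 2 / m) := by ring
  have e3 : (H : ℝ) ^ 2 / m ≤ H ^ 2 / X := div_le_div_of_nonneg_left (by positivity) hX0 hmX.1
  have e4 : B₁ * ((H : ℝ) ^ 2 / m) ≤ B₁ * (H ^ 2 / X) := mul_le_mul_of_nonneg_left e3 hB1
  have e5 : 3 * B₁ * (H : ℝ) ^ 2 / X = 3 * (B₁ * (H ^ 2 / X)) := by ring
  rw [e5]
  have e6 : 0 ≤ B₁ * ((H : ℝ) ^ 2 / X) := by positivity
  linarith

/-- PROOF. Let `d = H/(K X) ≤ 1/100`, `S x = ∑ (u/n) gsn d (x - log n)`, `A m = ∑_{n p ∈ [m - H, m)} u p`, `T m = (m/√(2π)) ∫_{II H m} S`.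
(1) `|A m - T m| ≤ ∑_p (u p/n p) |n p 1 - m φ|`, `1 = 1_{n p ∈ [m - H, m)}`, `φ = (1/√(2π)) ∫_{II} gsn`, and `|n 1 - m φ| ≤ H 1 + m |1 - φ| ≤ H 1 + 2X |1 - φ|`. Sum over `m` with `smooth_one`
(`∑_m 1 ≤ H`): `∑_m |A m - T m| ≤ M H² + 2 X C (d ∑ u + M) ≤ 2 C X H (M H/X + M'/K + M/H)`.
(2) `|T m - (m/√(2π)) ∫_{II} B| ≤ X ∫_{II} E` (`2/√(2π) ≤ 1`; `II_sub`), and `∑_m ∫_{II H m} E ≤ (H + 1) ∫_I E ≤ 2 H η` (as `sum_JJ`, E3/B6b, with `II_count`).
(3) `|(m/√(2π)) ∫_{II} B - (H/√(2π)) B (log m)| ≤ (1/√(2π)) (m B₁ |II|² + B₁ (m |II| - H)) ≤ 3 B₁ H²/X ≤ θ H/2` (`II_len`).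
So a bad `m` has `|A m - T m| + X ∫_{II} E > θ H/2`; Markov. -/
theorem win_two : ∃ C : ℝ, 1 ≤ C ∧ ∀ (ι : Type) (P : Finset ι) (n : ι → ℕ) (u : ι → ℝ) (H X : ℕ) (K B₁ η M M' θ : ℝ)
    (B E : ℝ → ℝ),
    (∀ p ∈ P, 1 ≤ n p) → (∀ p ∈ P, 0 ≤ u p) → 1 ≤ H → 100 * H ≤ X → 1 ≤ K → 0 < θ → 0 ≤ B₁ →
    (∀ x, 0 ≤ E x) → IntegrableOn E (Set.Icc (Real.log X - 1) (Real.log X + 1)) →
    ∫ x in Set.Icc (Real.log X - 1) (Real.log X + 1), E x ≤ η →
    ∑ p ∈ P, u p / n p ≤ M → ∑ p ∈ P, u p ≤ M' * X →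
    (∀ x, 0 ≤ B x ∧ B x ≤ B₁) → (∀ x y, |B x - B y| ≤ B₁ * |x - y|) →
    6 * B₁ * H ≤ θ * X →
    (∀ x ∈ Set.Icc (Real.log X - 1) (Real.log X + 1),
      |∑ p ∈ P, u p / n p * gsn (H / (K * X)) (x - Real.log (n p)) - B x| ≤ E x) →
    (#{m ∈ Icc X (2 * X) | θ * H < |∑ p ∈ P with n p ∈ Ico (m - H) m, u p - H / Real.sqrt (2 * π) * B (Real.log m)|} : ℝ)
      ≤ C * (X / θ) * (η + M * H / X + M' / K + M / H) := by
  obtain ⟨C, hC, hsm⟩ := smooth_one
  refine ⟨8 * C, by linarith, ?_⟩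
  intro ι P n u H X K B₁ η M M' θ B E hn hu hH hX hK hθ hB1 hE hEi hEη hM hM' hb hl hBH hwin
  classical
  set I : Set ℝ := Set.Icc (Real.log X - 1) (Real.log X + 1) with hI
  have hHr : (1 : ℝ) ≤ H := by exact_mod_cast hH
  have hX100 : (100 : ℝ) * H ≤ X := by exact_mod_cast hX
  have hX0 : (0 : ℝ) < X := by linarith
  have hX1 : 1 ≤ X := by omega
  have hK0 : 0 < K := by linarith
  have hH0 : (0 : ℝ) < H := by linarith
  set d : ℝ := (H : ℝ) / (K * X) with hd
  have hd0 : 0 < d := by positivity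
  have hd1 : d ≤ 1 := by
    rw [hd, div_le_one (by positivity)]
    nlinarith
  set s := Real.sqrt (2 * π) with hs
  have hs2 : 2 ≤ s := by
    rw [hs]
    apply Real.le_sqrt_of_sq_le
    have := Real.pi_gt_three
    linarith
  have hs0 : 0 < s := by linarith
  have hun : ∀ p ∈ P, 0 ≤ u p / n p := fun p hp => div_nonneg (hu p hp) (Nat.cast_nonneg _)
  have hM0 : 0 ≤ M := le_trans (Finset.sum_nonneg hun) hM
  have hBc : Continuous B := by
    rw [Metric.continuous_iff]
    intro b ε hε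
    refine ⟨ε / (B₁ + 1), by positivity, fun a ha => ?_⟩
    rw [Real.dist_eq] at ha ⊢
    have h1 := hl a b
    have h2 : (B₁ + 1) * |a - b| < ε := by
      rw [lt_div_iff₀ (by positivity)] at ha
      linarith
    have h3 := abs_nonneg (a - b)
    nlinarith
  set S : ℝ → ℝ := fun x => ∑ p ∈ P, u p / n p * gsn d (x - Real.log (n p)) with hS
  have hSi : Integrable S := integrable_finsetSum _ fun p _ => (gsn_integral d (Real.log (n p)) hd0).1.const_mul _
  have hBi : ∀ m, IntegrableOn B (II H m) := by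
    intro m
    unfold II
    exact hBc.integrableOn_Icc
  -- sum of the first errors
  set A : ℕ → ℝ := fun m => ∑ p ∈ P with n p ∈ Ico (m - H) m, u p with hA
  set T : ℕ → ℝ := fun m => m / s * ∫ x in II H m, S x with hT
  have hsum1 : ∑ m ∈ Icc X (2 * X), |A m - T m| ≤ M * H ^ 2 + 2 * X * (C * (d * (M' * X) + M)) := by
    have h1 : ∀ m ∈ Icc X (2 * X), |A m - T m| ≤
        ∑ p ∈ P, u p / n p * (H * (if n p ∈ Ico (m - H) m then (1 : ℝ) else 0) +
          2 * X * |(if n p ∈ Ico (m - H) m then (1 : ℝ) else 0) -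
            1 / s * ∫ x in II H m, gsn d (x - Real.log (n p))|) := by
      intro m hm
      exact S2_point P n u H X m d hn hu hH hX hd0 hm
    refine (Finset.sum_le_sum h1).trans ?_
    rw [Finset.sum_comm]
    have h2 : ∀ p ∈ P, ∑ m ∈ Icc X (2 * X), u p / n p * (H * (if n p ∈ Ico (m - H) m then (1 : ℝ) else 0) +
          2 * X * |(if n p ∈ Ico (m - H) m then (1 : ℝ) else 0) -
            1 / s * ∫ x in II H m, gsn d (x - Real.log (n p))|) ≤
        u p / n p * (H * H + 2 * X * (C * (n p * d + 1))) := by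
      intro p hp
      rw [← Finset.mul_sum, Finset.sum_add_distrib, ← Finset.mul_sum, ← Finset.mul_sum]
      apply mul_le_mul_of_nonneg_left _ (hun p hp)
      apply add_le_add
      · apply mul_le_mul_of_nonneg_left _ hH0.le
        rw [Finset.sum_boole]
        have h3 : (Icc X (2 * X)).filter (fun m => n p ∈ Ico (m - H) m) ⊆ Finset.Ioc (n p) (n p + H) := by
          intro m hm
          rw [Finset.mem_filter, Finset.mem_Ico] at hm
          rw [Finset.mem_Ioc]
          omega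
        have h4 := Finset.card_le_card h3
        rw [Nat.card_Ioc] at h4
        have h5 : #((Icc X (2 * X)).filter (fun m => n p ∈ Ico (m - H) m)) ≤ H := by omega
        exact_mod_cast h5
      · apply mul_le_mul_of_nonneg_left _ (by positivity)
        exact hsm H X (n p) d hH hX (hn p hp) hd0 hd1
    refine (Finset.sum_le_sum h2).trans ?_
    have h3 : ∑ p ∈ P, u p / n p * (H * H + 2 * X * (C * (n p * d + 1))) =
        (∑ p ∈ P, u p / n p) * (H * H + 2 * X * C) + 2 * X * C * d * ∑ p ∈ P, u p := by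
      rw [Finset.sum_mul, Finset.mul_sum, ← Finset.sum_add_distrib]
      refine Finset.sum_congr rfl fun p hp => ?_
      have hn0 : (n p : ℝ) ≠ 0 := by
        have := hn p hp
        exact_mod_cast (by omega : n p ≠ 0)
      field_simp
      ring
    rw [h3]
    have h4 : (∑ p ∈ P, u p / n p) * (H * H + 2 * X * C) ≤ M * (H * H + 2 * X * C) :=
      mul_le_mul_of_nonneg_right hM (by positivity)
    have h5 : 2 * (X : ℝ) * C * d * ∑ p ∈ P, u p ≤ 2 * X * C * d * (M' * X) :=
      mul_le_mul_of_nonneg_left hM' (by positivity)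
    calc _ ≤ M * (H * H + 2 * X * C) + 2 * X * C * d * (M' * X) := add_le_add h4 h5
      _ = _ := by ring
  -- sum of the second errors
  have hη0 : 0 ≤ η := le_trans (integral_nonneg hE) hEη
  have hsum2 : ∑ m ∈ Icc X (2 * X), X * ∫ x in II H m, E x ≤ 2 * X * H * η := by
    rw [← Finset.mul_sum]
    have h1 := sum_II H X E hH hX hE hEi
    have h2 : ((H : ℝ) + 1) * ∫ x in I, E x ≤ 2 * H * η := by
      calc ((H : ℝ) + 1) * ∫ x in I, E x ≤ (2 * H) * ∫ x in I, E x := by
            apply mul_le_mul_of_nonneg_right (by linarith) (integral_nonneg hE)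
        _ ≤ 2 * H * η := mul_le_mul_of_nonneg_left hEη (by positivity)
    calc (X : ℝ) * ∑ m ∈ Icc X (2 * X), ∫ x in II H m, E x ≤ X * (2 * H * η) :=
          mul_le_mul_of_nonneg_left (h1.trans h2) hX0.le
      _ = _ := by ring
  -- a bad m has a large error
  have hbad : ∀ m ∈ Icc X (2 * X), θ * H < |A m - H / s * B (Real.log m)| →
      θ * H / 2 ≤ |A m - T m| + X * ∫ x in II H m, E x := by
    intro m hm hlt
    have hmX : (X : ℝ) ≤ m ∧ (m : ℝ) ≤ 2 * X := by
      obtain ⟨h1, h2⟩ := Finset.mem_Icc.1 hm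
      exact ⟨by exact_mod_cast h1, by exact_mod_cast h2⟩
    have hsub := II_sub H X m hX hX1 hm
    have hEm : IntegrableOn E (II H m) := hEi.mono_set hsub
    have h1 : |T m - m / s * (∫ x in II H m, B x)| ≤ X * ∫ x in II H m, E x := by
      have h2 : T m - m / s * (∫ x in II H m, B x) = m / s * ∫ x in II H m, (S x - B x) := by
        simp only [hT]
        rw [integral_sub hSi.integrableOn (hBi m)]
        ring
      rw [h2, abs_mul, abs_of_nonneg (by positivity)]
      have h3 : |∫ x in II H m, (S x - B x)| ≤ ∫ x in II H m, E x := by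
        refine abs_integral_le_integral_abs.trans ?_
        refine setIntegral_mono_on (hSi.integrableOn.sub (hBi m)).abs hEm measurableSet_Icc ?_
        intro x hx
        exact hwin x (hsub hx)
      have h4 : (m : ℝ) / s ≤ X := by
        rw [div_le_iff₀ hs0]
        nlinarith [hmX.2]
      exact mul_le_mul h4 h3 (abs_nonneg _) hX0.le
    have h2 := S2_B H X m B₁ B hH hX hm hB1 hb hl (hBi m)
    have h3 : 3 * B₁ * (H : ℝ) ^ 2 / X ≤ θ * H / 2 := by
      rw [div_le_iff₀ hX0]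
      nlinarith
    have h4 : |A m - H / s * B (Real.log m)| ≤ |A m - T m| + |T m - m / s * (∫ x in II H m, B x)| +
        |m / s * (∫ x in II H m, B x) - H / s * B (Real.log m)| := by
      have e1 : A m - H / s * B (Real.log m) = (A m - T m) + (T m - m / s * (∫ x in II H m, B x)) +
        (m / s * (∫ x in II H m, B x) - H / s * B (Real.log m)) := by ring
      rw [e1]
      exact (abs_add_le _ _).trans (add_le_add (abs_add_le _ _) le_rfl)
    linarith
  -- Markov
  set bad := (Icc X (2 * X)).filter (fun m => θ * H < |A m - H / s * B (Real.log m)|) with hbadd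
  have hmark : (bad.card : ℝ) * (θ * H / 2) ≤ (M * H ^ 2 + 2 * X * (C * (d * (M' * X) + M))) + 2 * X * H * η := by
    have h1 : (bad.card : ℝ) * (θ * H / 2) ≤ ∑ m ∈ bad, (|A m - T m| + X * ∫ x in II H m, E x) := by
      rw [← nsmul_eq_mul]
      apply Finset.card_nsmul_le_sum
      intro m hm
      rw [hbadd, Finset.mem_filter] at hm
      exact hbad m hm.1 hm.2
    have h2 : ∑ m ∈ bad, (|A m - T m| + X * ∫ x in II H m, E x) ≤
        ∑ m ∈ Icc X (2 * X), (|A m - T m| + X * ∫ x in II H m, E x) := by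
      apply Finset.sum_le_sum_of_subset_of_nonneg (Finset.filter_subset _ _)
      intro m _ _
      have := integral_nonneg (μ := volume.restrict (II H m)) (f := E) hE
      positivity
    rw [Finset.sum_add_distrib (s := Icc X (2 * X))] at h2
    linarith
  have hgoal : (bad.card : ℝ) ≤ 8 * C * (X / θ) * (η + M * H / X + M' / K + M / H) := by
    have hθH : 0 < θ * H / 2 := by positivity
    rw [← div_le_div_iff_of_pos_right hθH, mul_div_assoc] at hmark
    have h1 : (bad.card : ℝ) ≤ ((M * H ^ 2 + 2 * X * (C * (d * (M' * X) + M))) + 2 * X * H * η) / (θ * H / 2) := by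
      rw [le_div_iff₀ hθH]
      have h5 : (bad.card : ℝ) * (θ * H / 2 / (θ * H / 2)) = bad.card := by
        rw [div_self hθH.ne', mul_one]
      rw [h5, le_div_iff₀ hθH] at hmark
      exact hmark
    refine h1.trans ?_
    have hM'0 : 0 ≤ M' := by
      have h2 : 0 ≤ M' * X := le_trans (Finset.sum_nonneg hu) hM'
      exact nonneg_of_mul_nonneg_left h2 hX0
    have h2 : ((M * H ^ 2 + 2 * X * (C * (d * (M' * X) + M))) + 2 * X * H * η) / (θ * H / 2)
        = X / θ * (2 * (M * H / X) + 4 * C * (M' / K) + 4 * C * (M / H) + 4 * η) := by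
      rw [hd]
      field_simp
      ring
    rw [h2]
    have h3 : 0 ≤ M * H / X := by positivity
    have h4 : 0 ≤ M' / K := by positivity
    have h5 : 0 ≤ M / H := by positivity
    have h6 : 2 * (M * H / X) + 4 * C * (M' / K) + 4 * C * (M / H) + 4 * η ≤
        8 * C * (η + M * H / X + M' / K + M / H) := by nlinarith
    calc X / θ * (2 * (M * H / X) + 4 * C * (M' / K) + 4 * C * (M / H) + 4 * η)
        ≤ X / θ * (8 * C * (η + M * H / X + M' / K + M / H)) := mul_le_mul_of_nonneg_left h6 (by positivity)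
      _ = _ := by ring
  exact hgoal

end Pool.Agent.Lib.MP_bae66e_nt.EF
end
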