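import Pool.Agent.Lib.MP_bae66e_nt.Mg.G001

section

/-!
# V1: van der Corput's inequality
-/

set_option autoImplicit false

namespace Pool.Agent.E3

open Finset MeasureTheory Real
open Pool.Agent.MC (ee)

/-- shifting the support into the range of summation -/
private lemma V1_shift (M R : ℕ) (F : ℕ → ℂ) (hF : ∀ j, F j ≠ 0 → R - 1 ≤ j ∧ j < M + (R - 1))
    (s : ℕ) (hs : s ≤ R - 1) :
    ∑ m ∈ range (M + (R - 1)), F (m + s) = ∑ n ∈ range M, F (n + (R - 1)) := by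
  have h1 : ∑ m ∈ range (M + (R - 1)), F (m + s) = ∑ j ∈ Ico s (M + (R - 1) + s), F j := by
    rw [Finset.sum_Ico_eq_sum_range, Nat.add_sub_cancel]
    exact Finset.sum_congr rfl fun m _ => by rw [Nat.add_comm]
  have h2 : ∑ n ∈ range M, F (n + (R - 1)) = ∑ j ∈ Ico (R - 1) (M + (R - 1)), F j := by
    rw [Finset.sum_Ico_eq_sum_range, Nat.add_sub_cancel]
    exact Finset.sum_congr rfl fun m _ => by rw [Nat.add_comm]
  rw [h1, h2]
  symm
  refine Finset.sum_subset (fun j hj => ?_) fun j _ hj => ?_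
  · rw [Finset.mem_Ico] at hj ⊢
    omega
  · by_contra hne
    exact hj (Finset.mem_Ico.mpr (hF j hne))

/-- PROOF. Put `w j = z j` for `0 ≤ j < M` (`j : ℤ`) and `w j = 0` otherwise, `S = ∑ w j`. Then
`R S = ∑_{m} ∑_{r < R} w (m - r)`, where `m` runs over the `M + R - 1` integers `0 ≤ m < M + R - 1`.
Cauchy-Schwarz: `R² |S|² ≤ (M + R - 1) ∑_m |∑_{r<R} w (m - r)|²`, and the last sum is
`∑_{r, s < R} ∑_m w (m - r) conj (w (m - s)) ≤ R ∑_j |w j|² + 2 ∑_{k=1}^{R-1} (R - k) |∑_j w (j + k) conj (w j)|`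
`≤ R M + 2 R ∑_{k=1}^{R-1} |∑_{j < M - k} z (j + k) conj (z j)|`. Use `M + R - 1 ≤ 2 M` and divide by `R²`. -/
theorem vdc (M R : ℕ) (hR : 1 ≤ R) (hRM : R ≤ M) (z : ℕ → ℂ) (hz : ∀ n, ‖z n‖ ≤ 1) :
    ‖∑ n ∈ range M, z n‖ ^ 2 ≤ 2 * (M : ℝ) ^ 2 / R + 4 * M / R *
      ∑ r ∈ Icc 1 (R - 1), ‖∑ n ∈ range (M - r), z (n + r) * (starRingEnd ℂ) (z n)‖ := by
  classical
  have hR0 : (0 : ℝ) < R := by exact_mod_cast hR
  have hRM' : (R : ℝ) ≤ M := by exact_mod_cast hRM
  have hM0 : (0 : ℝ) < M := lt_of_lt_of_le hR0 hRM'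
  obtain ⟨v, hv⟩ : ∃ v : ℕ → ℂ, v = fun j =>
    if R - 1 ≤ j ∧ j < M + (R - 1) then z (j - (R - 1)) else 0 := ⟨_, rfl⟩
  have hv0 : ∀ j, v j ≠ 0 → R - 1 ≤ j ∧ j < M + (R - 1) := by
    intro j hj
    by_contra hc
    apply hj
    rw [hv]
    exact if_neg hc
  have hvn : ∀ n, n < M → v (n + (R - 1)) = z n := by
    intro n hn
    have : R - 1 ≤ n + (R - 1) ∧ n + (R - 1) < M + (R - 1) := by omega
    rw [hv]
    simp only
    rw [if_pos this, Nat.add_sub_cancel]
  have hvk : ∀ n k, ¬ n + k < M → v (n + (R - 1) + k) = 0 := by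
    intro n k hn
    by_contra hc
    have := hv0 _ hc
    omega
  obtain ⟨g, hg⟩ : ∃ g : ℕ → ℝ, g = fun k =>
    ‖∑ n ∈ range (M - k), z (n + k) * (starRingEnd ℂ) (z n)‖ := ⟨_, rfl⟩
  have hg0 : ∀ k, 0 ≤ g k := fun k => by rw [hg]; exact norm_nonneg _
  obtain ⟨T, hT⟩ : ∃ T : ℕ → ℂ, T = fun m => ∑ r ∈ range R, v (m + r) := ⟨_, rfl⟩
  have hS : ∑ m ∈ range (M + (R - 1)), T m = R * ∑ n ∈ range M, z n := by
    rw [hT, Finset.sum_comm]
    have : ∀ r ∈ range R, ∑ m ∈ range (M + (R - 1)), v (m + r) = ∑ n ∈ range M, z n := by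
      intro r hr
      rw [Finset.mem_range] at hr
      rw [V1_shift M R v hv0 r (by omega)]
      exact Finset.sum_congr rfl fun n hn => hvn n (Finset.mem_range.mp hn)
    rw [Finset.sum_congr rfl this, Finset.sum_const, Finset.card_range, nsmul_eq_mul]
  -- correlations
  obtain ⟨C, hC⟩ : ∃ C : ℕ → ℕ → ℂ, C = fun r s =>
    ∑ m ∈ range (M + (R - 1)), v (m + r) * (starRingEnd ℂ) (v (m + s)) := ⟨_, rfl⟩
  have hCk : ∀ s k, s ≤ R - 1 → ‖C (s + k) s‖ = g k := by
    intro s k hs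
    have h1 : C (s + k) s = ∑ n ∈ range M, v (n + (R - 1) + k) * (starRingEnd ℂ) (v (n + (R - 1))) := by
      rw [hC]
      have h2 := V1_shift M R (fun j => v (j + k) * (starRingEnd ℂ) (v j)) (by
        intro j hj
        apply hv0
        intro h0
        apply hj
        simp only [h0, map_zero, mul_zero]) s hs
      rw [← h2]
      refine Finset.sum_congr rfl fun m _ => ?_
      rw [Nat.add_assoc m s k]
    rw [h1, hg]
    simp only
    congr 1
    have h3 : ∑ n ∈ range (M - k), z (n + k) * (starRingEnd ℂ) (z n) =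
        ∑ n ∈ range (M - k), v (n + (R - 1) + k) * (starRingEnd ℂ) (v (n + (R - 1))) := by
      refine Finset.sum_congr rfl fun n hn => ?_
      rw [Finset.mem_range] at hn
      have h4 : n + (R - 1) + k = (n + k) + (R - 1) := by omega
      rw [h4, hvn (n + k) (by omega), hvn n (by omega)]
    rw [h3]
    symm
    refine Finset.sum_subset (fun n hn => ?_) fun n hn hn' => ?_
    · rw [Finset.mem_range] at hn ⊢
      omega
    · rw [Finset.mem_range] at hn hn'
      rw [hvk n k (by omega), zero_mul]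
  have hCsymm : ∀ r s, ‖C r s‖ = ‖C s r‖ := by
    intro r s
    have : C r s = (starRingEnd ℂ) (C s r) := by
      rw [hC]
      simp only
      rw [map_sum]
      refine Finset.sum_congr rfl fun m _ => ?_
      rw [map_mul, Complex.conj_conj, mul_comm]
    rw [this, Complex.norm_conj]
  obtain ⟨G, hG⟩ : ∃ G : ℝ, G = ∑ i ∈ range (R - 1), g (i + 1) := ⟨_, rfl⟩
  have hrow : ∀ r ∈ range R, ∑ s ∈ range R, ‖C r s‖ ≤ g 0 + 2 * G := by
    intro r hr
    rw [Finset.mem_range] at hr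
    have h1 : ∑ s ∈ range R, ‖C r s‖ = ∑ s ∈ range (r + 1), ‖C r s‖ + ∑ s ∈ Ico (r + 1) R, ‖C r s‖ :=
      (Finset.sum_range_add_sum_Ico _ (by omega)).symm
    have h2 : ∑ s ∈ range (r + 1), ‖C r s‖ = ∑ s ∈ range (r + 1), g (r - s) := by
      refine Finset.sum_congr rfl fun s hs => ?_
      rw [Finset.mem_range] at hs
      have h5 := hCk s (r - s) (by omega)
      rwa [show s + (r - s) = r by omega] at h5
    have h3 : ∑ s ∈ range (r + 1), g (r - s) ≤ g 0 + G := by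
      rw [Finset.sum_flip (fun k => g k), Finset.sum_range_succ', add_comm, hG]
      refine add_le_add le_rfl ?_
      exact Finset.sum_le_sum_of_subset_of_nonneg (fun i hi => by
        rw [Finset.mem_range] at hi ⊢; omega) fun i _ _ => hg0 _
    have h4 : ∑ s ∈ Ico (r + 1) R, ‖C r s‖ ≤ G := by
      have h5 : ∑ s ∈ Ico (r + 1) R, ‖C r s‖ = ∑ i ∈ range (R - (r + 1)), g (i + 1) := by
        rw [Finset.sum_Ico_eq_sum_range]
        refine Finset.sum_congr rfl fun i hi => ?_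
        rw [hCsymm]
        have h6 := hCk r (i + 1) (by omega)
        rwa [show r + (i + 1) = r + 1 + i by omega] at h6
      rw [h5, hG]
      exact Finset.sum_le_sum_of_subset_of_nonneg (fun i hi => by
        rw [Finset.mem_range] at hi ⊢; omega) fun i _ _ => hg0 _
    rw [h1, h2]
    linarith
  have hg00 : g 0 ≤ M := by
    rw [hg]
    simp only
    refine (norm_sum_le _ _).trans ?_
    calc ∑ n ∈ range (M - 0), ‖z (n + 0) * (starRingEnd ℂ) (z n)‖ ≤ ∑ _n ∈ range (M - 0), (1 : ℝ) := by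
          refine Finset.sum_le_sum fun n _ => ?_
          rw [norm_mul, Complex.norm_conj]
          exact mul_le_one₀ (hz _) (norm_nonneg _) (hz _)
      _ = M := by simp
  -- sum of the squares
  have hsq : ∑ m ∈ range (M + (R - 1)), ‖T m‖ ^ 2 ≤ R * (M + 2 * G) := by
    have h1 : ((∑ m ∈ range (M + (R - 1)), ‖T m‖ ^ 2 : ℝ) : ℂ) =
        ∑ r ∈ range R, ∑ s ∈ range R, C r s := by
      have h2 : ∀ m, ((‖T m‖ ^ 2 : ℝ) : ℂ) = ∑ r ∈ range R, ∑ s ∈ range R,
          v (m + r) * (starRingEnd ℂ) (v (m + s)) := by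
        intro m
        rw [Complex.ofReal_pow, ← Complex.mul_conj']
        rw [hT]
        simp only
        rw [map_sum, Finset.sum_mul_sum]
      rw [Complex.ofReal_sum, Finset.sum_congr rfl fun m _ => h2 m, Finset.sum_comm]
      refine Finset.sum_congr rfl fun r _ => ?_
      rw [Finset.sum_comm, hC]
    have h3 : ∑ m ∈ range (M + (R - 1)), ‖T m‖ ^ 2 = ‖∑ r ∈ range R, ∑ s ∈ range R, C r s‖ := by
      rw [← h1, Complex.norm_real, Real.norm_of_nonneg (Finset.sum_nonneg fun m _ => by positivity)]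
    rw [h3]
    calc ‖∑ r ∈ range R, ∑ s ∈ range R, C r s‖ ≤ ∑ r ∈ range R, ∑ s ∈ range R, ‖C r s‖ :=
          (norm_sum_le _ _).trans (Finset.sum_le_sum fun r _ => norm_sum_le _ _)
      _ ≤ ∑ _r ∈ range R, (g 0 + 2 * G) := Finset.sum_le_sum hrow
      _ = R * (g 0 + 2 * G) := by rw [Finset.sum_const, Finset.card_range, nsmul_eq_mul]
      _ ≤ R * (M + 2 * G) := by gcongr
  have hCS : ‖∑ m ∈ range (M + (R - 1)), T m‖ ^ 2 ≤ (M + (R - 1) : ℕ) *
      ∑ m ∈ range (M + (R - 1)), ‖T m‖ ^ 2 := by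
    calc ‖∑ m ∈ range (M + (R - 1)), T m‖ ^ 2 ≤ (∑ m ∈ range (M + (R - 1)), ‖T m‖) ^ 2 := by
          gcongr
          exact norm_sum_le _ _
      _ ≤ (range (M + (R - 1))).card * ∑ m ∈ range (M + (R - 1)), ‖T m‖ ^ 2 :=
          sq_sum_le_card_mul_sum_sq
      _ = _ := by rw [Finset.card_range]
  have hG0 : 0 ≤ G := by
    rw [hG]
    exact Finset.sum_nonneg fun i _ => hg0 _
  have hcast : (((M + (R - 1) : ℕ)) : ℝ) ≤ 2 * M := by
    have : M + (R - 1) ≤ 2 * M := by omega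
    exact_mod_cast this
  have hmain : (R : ℝ) ^ 2 * ‖∑ n ∈ range M, z n‖ ^ 2 ≤ 2 * M * (R * (M + 2 * G)) := by
    calc (R : ℝ) ^ 2 * ‖∑ n ∈ range M, z n‖ ^ 2 = ‖∑ m ∈ range (M + (R - 1)), T m‖ ^ 2 := by
          rw [hS, norm_mul, mul_pow, Complex.norm_natCast]
      _ ≤ (M + (R - 1) : ℕ) * ∑ m ∈ range (M + (R - 1)), ‖T m‖ ^ 2 := hCS
      _ ≤ 2 * M * (R * (M + 2 * G)) := by
          refine mul_le_mul hcast hsq (Finset.sum_nonneg fun m _ => by positivity) (by positivity)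
  have hIcc : ∑ r ∈ Icc 1 (R - 1), g r = G := by
    rw [hG, ← Finset.Ico_add_one_right_eq_Icc, Finset.sum_Ico_eq_sum_range]
    refine Finset.sum_congr (by rw [Nat.add_sub_cancel]) fun i _ => ?_
    rw [Nat.add_comm]
  have hIcc' : ∑ r ∈ Icc 1 (R - 1), ‖∑ n ∈ range (M - r), z (n + r) * (starRingEnd ℂ) (z n)‖ = G := by
    rw [← hIcc, hg]
  rw [hIcc']
  have hR2 : (0 : ℝ) < (R : ℝ) ^ 2 := by positivity
  have hfin : 2 * (M : ℝ) ^ 2 / R + 4 * M / R * G = (2 * M * (R * (M + 2 * G))) / (R : ℝ) ^ 2 := by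
    field_simp
    ring
  rw [hfin, le_div_iff₀ hR2]
  linarith

end Pool.Agent.E3
end

section

/-!
# V2: the Kusmin-Landau inequality
-/

set_option autoImplicit false

namespace Pool.Agent.E3

open Finset MeasureTheory Real
open Pool.Agent.MC (ee)

private theorem V2_ee_re (x : ℝ) :
    ee x = ((Real.cos (2 * π * x) : ℝ) : ℂ) + ((Real.sin (2 * π * x) : ℝ) : ℂ) * Complex.I := by
  unfold Pool.Agent.MC.ee
  have h : (2 * (π : ℂ) * (x : ℂ)) = ((2 * π * x : ℝ) : ℂ) := by push_cast; ring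
  rw [h, Complex.exp_mul_I, Complex.ofReal_cos, Complex.ofReal_sin]

private theorem V2_norm_ee (x : ℝ) : ‖ee x‖ = 1 := by
  unfold Pool.Agent.MC.ee
  have h : (2 * (π : ℂ) * (x : ℂ)) = ((2 * π * x : ℝ) : ℂ) := by push_cast; ring
  rw [h]
  exact Complex.norm_exp_ofReal_mul_I _

/-- the cotangent -/
private noncomputable def V2_ct (x : ℝ) : ℝ := Real.cos (π * x) / Real.sin (π * x)

private noncomputable def V2_Z (x : ℝ) : ℂ := -(1 / 2) - Complex.I / 2 * ((V2_ct x : ℝ) : ℂ)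

private theorem V2_sin_lower (θ x : ℝ) (h1 : θ ≤ x) (h2 : x ≤ 1 - θ) (h0 : 0 < θ) :
    2 * θ ≤ Real.sin (π * x) := by
  have hpi := Real.pi_pos
  rcases le_total x (1 / 2) with h | h
  · have := Real.mul_le_sin (x := π * x) (by nlinarith) (by nlinarith)
    have h3 : 2 / π * (π * x) = 2 * x := by field_simp
    rw [h3] at this
    linarith
  · have h4 : Real.sin (π * x) = Real.sin (π * (1 - x)) := by
      rw [← Real.sin_pi_sub]
      congr 1
      ring
    have := Real.mul_le_sin (x := π * (1 - x)) (by nlinarith) (by nlinarith)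
    have h3 : 2 / π * (π * (1 - x)) = 2 * (1 - x) := by field_simp
    rw [h3] at this
    rw [h4]
    linarith

private theorem V2_mul (x : ℝ) (hs : Real.sin (π * x) ≠ 0) : (ee x - 1) * V2_Z x = 1 := by
  rw [V2_ee_re]
  have hc : Real.cos (2 * π * x) = 1 - 2 * Real.sin (π * x) ^ 2 := by
    have : 2 * π * x = 2 * (π * x) := by ring
    rw [this, Real.cos_two_mul]
    have := Real.sin_sq_add_cos_sq (π * x)
    linarith
  have hsn : Real.sin (2 * π * x) = 2 * Real.sin (π * x) * Real.cos (π * x) := by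
    have : 2 * π * x = 2 * (π * x) := by ring
    rw [this, Real.sin_two_mul]
  rw [hc, hsn]
  unfold V2_Z V2_ct
  have hs' : ((Real.sin (π * x) : ℝ) : ℂ) ≠ 0 := by exact_mod_cast hs
  have h1 : ((Real.sin (π * x) : ℝ) : ℂ) ^ 2 + ((Real.cos (π * x) : ℝ) : ℂ) ^ 2 = 1 := by
    have := Real.sin_sq_add_cos_sq (π * x)
    exact_mod_cast this
  push_cast [-Complex.ofReal_sin, -Complex.ofReal_cos]
  generalize ((Real.sin (π * x) : ℝ) : ℂ) = s at *
  generalize ((Real.cos (π * x) : ℝ) : ℂ) = c at *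
  have hI : Complex.I * Complex.I = -1 := Complex.I_mul_I
  field_simp
  linear_combination (2 : ℂ) * s * h1 + (-2 * s * c ^ 2) * hI

private theorem V2_normZ (x : ℝ) (hs : 0 < Real.sin (π * x)) :
    ‖V2_Z x‖ = 1 / (2 * Real.sin (π * x)) := by
  have h : V2_Z x = ((-(1 / 2) : ℝ) : ℂ) + ((-(V2_ct x) / 2 : ℝ) : ℂ) * Complex.I := by
    unfold V2_Z
    push_cast
    ring
  rw [h, Complex.norm_add_mul_I]
  have h1 : (-(1 / 2) : ℝ) ^ 2 + (-(V2_ct x) / 2) ^ 2 = (1 / (2 * Real.sin (π * x))) ^ 2 := by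
    unfold V2_ct
    have h2 := Real.sin_sq_add_cos_sq (π * x)
    field_simp
    linarith
  rw [h1]
  exact Real.sqrt_sq (by positivity)

private theorem V2_diff (x y : ℝ) : ‖V2_Z x - V2_Z y‖ = 1 / 2 * |V2_ct x - V2_ct y| := by
  have h : V2_Z x - V2_Z y = ((-(1 / 2) * (V2_ct x - V2_ct y) : ℝ) : ℂ) * Complex.I := by
    unfold V2_Z
    push_cast
    ring
  rw [h, norm_mul, Complex.norm_I, mul_one, Complex.norm_real, Real.norm_eq_abs, abs_mul]
  norm_num

private theorem V2_ct_anti (x y : ℝ) (hx : 0 < x) (hxy : x ≤ y) (hy : y < 1) :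
    V2_ct y ≤ V2_ct x := by
  have hpi := Real.pi_pos
  have s1 : 0 < Real.sin (π * x) := Real.sin_pos_of_pos_of_lt_pi (by positivity) (by nlinarith)
  have s2 : 0 < Real.sin (π * y) :=
    Real.sin_pos_of_pos_of_lt_pi (mul_pos hpi (by linarith)) (by nlinarith)
  have s3 : 0 ≤ Real.sin (π * y - π * x) :=
    Real.sin_nonneg_of_nonneg_of_le_pi (by nlinarith) (by nlinarith)
  rw [Real.sin_sub] at s3
  unfold V2_ct
  rw [div_le_div_iff₀ s2 s1]
  linarith

private theorem V2_ct_bd (θ x : ℝ) (h1 : θ ≤ x) (h2 : x ≤ 1 - θ) (h0 : 0 < θ) :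
    |V2_ct x| ≤ 1 / (2 * θ) := by
  have h3 := V2_sin_lower θ x h1 h2 h0
  have h4 : 0 < Real.sin (π * x) := by linarith
  unfold V2_ct
  rw [abs_div, abs_of_pos h4]
  exact div_le_div₀ zero_le_one (Real.abs_cos_le_one _) (by linarith) h3

private theorem V2_sum (g : ℕ → ℝ) (Z : ℕ → ℂ)
    (m : ℕ) (h : ∀ j ≤ m, ee (g j) = (ee (g (j + 1)) - ee (g j)) * Z j) :
    ∑ j ∈ range (m + 1), ee (g j) = ee (g (m + 1)) * Z m - ee (g 0) * Z 0 -
      ∑ j ∈ range m, ee (g (j + 1)) * (Z (j + 1) - Z j) := by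
  induction m with
  | zero =>
    rw [Finset.sum_range_one, Finset.range_zero, Finset.sum_empty]
    have := h 0 le_rfl
    linear_combination this
  | succ m ih =>
    rw [Finset.sum_range_succ, ih (fun j hj => h j (by omega)), Finset.sum_range_succ (n := m)]
    have := h (m + 1) le_rfl
    linear_combination this

/-- PROOF. Put `δ n = f (n+1) - f n` and `ζ n = 1 / (ee (δ n) - 1)`; then
`ζ n = -1/2 - (i/2) cot (π δ n)`, `|ζ n| = 1 / (2 |sin (π δ n)|)`, and `|sin (π δ n)| ≥ 2 θ` since `δ n` is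
in `[k + θ, k + 1 - θ]` (Jordan: `sin (π x) ≥ 2 x` on `[0, 1/2]`). `ee (f n) = (ee (f (n+1)) - ee (f n)) ζ n`.
Sum over `a ≤ n < b - 1` and sum by parts:
`∑_{a ≤ n < b-1} ee (f n) = ee (f (b-1)) ζ (b-2) - ee (f a) ζ a - ∑_{a < n < b - 1} ee (f n) (ζ n - ζ (n-1))`.
`cot (π ·)` is decreasing on `(k, k+1)` and `δ` is monotone, so
`∑ |ζ n - ζ (n-1)| = (1/2) |cot (π δ (b-2)) - cot (π δ a)| ≤ 1 / (2 θ)`. Total (with the term `n = b-1`):
`1 + 1/(4θ) + 1/(4θ) + 1/(2θ) ≤ 2 / θ`. The cases `b ≤ a + 1` are trivial. -/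
theorem kusmin (f : ℕ → ℝ) (a b : ℕ) (k : ℤ) (θ : ℝ) (hθ : 0 < θ) (hθ2 : θ ≤ 1 / 2)
    (hmono : ∀ n, a ≤ n → n + 2 < b → f (n + 1) - f n ≤ f (n + 2) - f (n + 1))
    (hlo : ∀ n, a ≤ n → n + 1 < b → (k : ℝ) + θ ≤ f (n + 1) - f n)
    (hhi : ∀ n, a ≤ n → n + 1 < b → f (n + 1) - f n ≤ (k : ℝ) + 1 - θ) :
    ‖∑ n ∈ Ico a b, ee (f n)‖ ≤ 2 / θ := by
  have h2θ : 2 ≤ 1 / θ := by
    rw [le_div_iff₀ hθ]
    linarith
  have h2θ' : 2 / θ = 2 * (1 / θ) := by ring
  rw [Finset.sum_Ico_eq_sum_range]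
  rcases Nat.lt_or_ge (b - a) 2 with hN | hN
  · refine (norm_sum_le _ _).trans ?_
    have h1 : ∀ i ∈ range (b - a), ‖ee (f (a + i))‖ = 1 := fun i _ => V2_norm_ee _
    rw [Finset.sum_congr rfl h1, Finset.sum_const, Finset.card_range, nsmul_eq_mul, mul_one]
    have h3 : ((b - a : ℕ) : ℝ) ≤ 1 := by exact_mod_cast (by omega : b - a ≤ 1)
    linarith
  · obtain ⟨m, hm⟩ : ∃ m, b - a = m + 2 := ⟨b - a - 2, by omega⟩
    rw [hm]
    set g : ℕ → ℝ := fun j => f (a + j) with hg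
    set x : ℕ → ℝ := fun j => g (j + 1) - g j - k with hx
    have hxlo : ∀ j ≤ m, θ ≤ x j := by
      intro j hj
      have := hlo (a + j) (by omega) (by omega)
      change θ ≤ f (a + (j + 1)) - f (a + j) - k
      have e : a + (j + 1) = a + j + 1 := by ring
      rw [e]
      linarith
    have hxhi : ∀ j ≤ m, x j ≤ 1 - θ := by
      intro j hj
      have := hhi (a + j) (by omega) (by omega)
      change f (a + (j + 1)) - f (a + j) - k ≤ 1 - θ
      have e : a + (j + 1) = a + j + 1 := by ring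
      rw [e]
      linarith
    have hxmono : ∀ j < m, x j ≤ x (j + 1) := by
      intro j hj
      have := hmono (a + j) (by omega) (by omega)
      change f (a + (j + 1)) - f (a + j) - k ≤ f (a + (j + 1 + 1)) - f (a + (j + 1)) - k
      have e : a + (j + 1) = a + j + 1 := by ring
      have e' : a + (j + 1 + 1) = a + j + 2 := by ring
      rw [e, e']
      linarith
    have hsin : ∀ j ≤ m, 2 * θ ≤ Real.sin (π * x j) :=
      fun j hj => V2_sin_lower θ (x j) (hxlo j hj) (hxhi j hj) hθ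
    have hZ : ∀ j ≤ m, ‖V2_Z (x j)‖ ≤ 1 / (4 * θ) := by
      intro j hj
      have h1 := hsin j hj
      rw [V2_normZ (x j) (by linarith)]
      exact one_div_le_one_div_of_le (by linarith) (by linarith)
    have hrec : ∀ j ≤ m, ee (g j) = (ee (g (j + 1)) - ee (g j)) * V2_Z (x j) := by
      intro j hj
      have h1 := V2_mul (x j) (by have := hsin j hj; intro h; linarith)
      have h2 : ee (g (j + 1)) = ee (g j) * ee (x j) := by
        have e : g (j + 1) = g j + x j + (k : ℝ) := by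
          simp only [hx]
          ring
        rw [e, Pool.Agent.MC.ee_add_int, Pool.Agent.MC.ee_add]
      rw [h2]
      linear_combination (-(ee (g j))) * h1
    have hct : ∑ j ∈ range m, ‖V2_Z (x (j + 1)) - V2_Z (x j)‖ ≤ 1 / (2 * θ) := by
      have h1 : ∀ j ∈ range m, ‖V2_Z (x (j + 1)) - V2_Z (x j)‖ =
          1 / 2 * (V2_ct (x j) - V2_ct (x (j + 1))) := by
        intro j hj
        have hj' := Finset.mem_range.1 hj
        rw [V2_diff, abs_sub_comm, abs_of_nonneg]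
        have := V2_ct_anti (x j) (x (j + 1)) (by linarith [hxlo j hj'.le]) (hxmono j hj')
          (by linarith [hxhi (j + 1) hj'])
        linarith
      rw [Finset.sum_congr rfl h1, ← Finset.mul_sum, Finset.sum_range_sub']
      have h2 := V2_ct_bd θ (x 0) (hxlo 0 (Nat.zero_le _)) (hxhi 0 (Nat.zero_le _)) hθ
      have h3 := V2_ct_bd θ (x m) (hxlo m le_rfl) (hxhi m le_rfl) hθ
      have h4 := abs_le.1 h2
      have h5 := abs_le.1 h3
      linarith [h4.2, h5.1]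
    have hsum := V2_sum g (fun j => V2_Z (x j)) m hrec
    have htot : ∑ j ∈ range (m + 2), ee (f (a + j)) =
        ee (g (m + 1)) * V2_Z (x m) - ee (g 0) * V2_Z (x 0) -
        ∑ j ∈ range m, ee (g (j + 1)) * (V2_Z (x (j + 1)) - V2_Z (x j)) + ee (g (m + 1)) := by
      rw [Finset.sum_range_succ]
      rw [← hsum]
    rw [htot]
    have n1 : ‖ee (g (m + 1)) * V2_Z (x m)‖ ≤ 1 / (4 * θ) := by
      rw [norm_mul, V2_norm_ee, one_mul]
      exact hZ m le_rfl
    have n2 : ‖ee (g 0) * V2_Z (x 0)‖ ≤ 1 / (4 * θ) := by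
      rw [norm_mul, V2_norm_ee, one_mul]
      exact hZ 0 (Nat.zero_le _)
    have n3 : ‖∑ j ∈ range m, ee (g (j + 1)) * (V2_Z (x (j + 1)) - V2_Z (x j))‖ ≤ 1 / (2 * θ) := by
      refine (norm_sum_le _ _).trans (le_trans (le_of_eq ?_) hct)
      refine Finset.sum_congr rfl fun j _ => ?_
      rw [norm_mul, V2_norm_ee, one_mul]
    have n4 : ‖ee (g (m + 1))‖ = 1 := V2_norm_ee _
    have e1 : 1 / (4 * θ) = 1 / 4 * (1 / θ) := by field_simp
    have e2 : 1 / (2 * θ) = 1 / 2 * (1 / θ) := by field_simp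
    have t1 := norm_add_le (ee (g (m + 1)) * V2_Z (x m) - ee (g 0) * V2_Z (x 0) -
        ∑ j ∈ range m, ee (g (j + 1)) * (V2_Z (x (j + 1)) - V2_Z (x j))) (ee (g (m + 1)))
    have t2 := norm_sub_le (ee (g (m + 1)) * V2_Z (x m) - ee (g 0) * V2_Z (x 0))
        (∑ j ∈ range m, ee (g (j + 1)) * (V2_Z (x (j + 1)) - V2_Z (x j)))
    have t3 := norm_sub_le (ee (g (m + 1)) * V2_Z (x m)) (ee (g 0) * V2_Z (x 0))
    rw [h2θ']
    linarith

end Pool.Agent.E3
end
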