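import Pool.Agent.Lib.MP_bae66e_nt.Mg.G009
import Pool.Agent.Lib.MP_bae66e_nt.Mg.G001
import Pool.Agent.Lib.MP_bae66e_nt.Mg.G019

section

/-!
# T3: Gaussian windows of `χ(k) k ^ (- 1 - i u)`, large `u`
-/

set_option autoImplicit false

namespace Pool.Agent.E3

open Finset MeasureTheory Real
open Pool.Agent.MC (ee)

private lemma T3_norm_ph (u x : ℝ) : ‖ph u x‖ = 1 := by
  unfold ph
  exact Complex.norm_exp_ofReal_mul_I _

private lemma T3_dyadic (F : ℕ → ℂ) (Z : ℕ) (n : ℕ) :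
    ∑ k ∈ Ioc 0 (min (2 ^ n) Z), F k = ∑ k ∈ Ioc 0 (min 1 Z), F k +
      ∑ j ∈ range n, ∑ k ∈ Ioc (min (2 ^ j) Z) (min (2 ^ (j + 1)) Z), F k := by
  induction n with
  | zero => simp
  | succ n ih =>
    rw [sum_range_succ, ← add_assoc, ← ih]
    have h1 : min (2 ^ n) Z ≤ min (2 ^ (n + 1)) Z :=
      min_le_min_right _ (Nat.pow_le_pow_right (by norm_num) (by omega))
    exact (Finset.sum_Ioc_consecutive F (Nat.zero_le _) h1).symm

/-- PROOF. Let `c` be from `block_sum (4 A)` and `C` the constant for `W` (the final exponent is `c / 2` or so, it must not depend on `W, β`). The term `k = 1` is `≤ exp (- β x²)`. Cut `(1, Z]` into the blocks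
`(2^j, min (2^(j+1)) Z]`, `j ≥ 0`.
Blocks with `2^j < exp (x/2) / 2`: all their `k` are `≤ exp (x/2)`, so `gs β x (log k) ≤ exp (- β x²/4)`, and
`∑ 1/k ≤ 1 + x/2`: contribution `≤ (1 + x) exp (- β x²/4)`.
Blocks with `2^j ≥ exp (x/2) / 2`, `K = 2^j` (and `K ≥ 2`, i.e. `x ≥ 4`; for `x ≤ 4` everything is bounded by a
constant because `∑_k gs β x (log k) / k` is bounded): `|u| ≤ exp (A x) ≤ (2 K)^(2A) ≤ K^(4A)`. By `block_sum`
all the partial sums are `≤ B = C (K^(1-c) + K / |u|)`, and `abel_gauss` gives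
`≤ 3 exp β C (K^(-c) + 1/|u|) gs (β/2) x (log K)`, where `K^(-c) ≤ 2 exp (- c x/2)`, `1/|u| ≤ exp (- x/2)`.
Sum over `j` with `sum_gauss_dyadic`. Total `≤ C' exp (- c' x)`, `c' = c/2`. -/
theorem window_large (A : ℕ) (hA : 1 ≤ A) : ∃ c : ℝ, 0 < c ∧ c ≤ 1 / 2 ∧
    ∀ (W : ℕ), 1 ≤ W → ∀ (β : ℝ), 0 < β → ∃ C : ℝ, 1 ≤ C ∧
    ∀ (χ : ℕ → ℂ), (∀ n, χ (n + W) = χ n) → (∀ n, ‖χ n‖ ≤ 1) →
    ∀ (x u : ℝ) (Z : ℕ), 1 ≤ x → Real.exp (x / 2) ≤ |u| → |u| ≤ Real.exp (A * x) →
      ‖∑ k ∈ Icc 1 Z, χ k * ph u (Real.log k) * (((gs β x (Real.log k) / k : ℝ)) : ℂ)‖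
        ≤ C * Real.exp (-(c * x)) := by
  obtain ⟨c₀, hc0, hc1, hblk⟩ := block_sum (4 * A) (by omega)
  refine ⟨c₀ / 2, by positivity, by linarith, fun W hW β hβ => ?_⟩
  obtain ⟨C₀, hC1, hC⟩ := hblk W hW
  set C₁ : ℝ := Real.exp (4 / β) + 3 * C₀ + Real.exp 2 with hC₁
  have he4 : 1 ≤ Real.exp (4 / β) := Real.one_le_exp (by positivity)
  have he2 : 0 < Real.exp 2 := Real.exp_pos 2
  have hC₁0 : 0 ≤ C₁ := by rw [hC₁]; linarith
  set G : ℝ := 2 + 2 * Real.sqrt (π / (β / 4)) with hG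
  have hG0 : 0 ≤ G := by rw [hG]; positivity
  refine ⟨Real.exp (4 / β) + 3 * Real.exp β * C₁ * G, ?_, ?_⟩
  · have : 0 ≤ 3 * Real.exp β * C₁ * G := by positivity
    linarith
  intro χ hper hbd x u Z hx hu1 hu2
  have hx0 : 0 < x := by linarith
  have hu0 : 1 ≤ |u| := (Real.one_le_exp (by linarith)).trans hu1
  have hupos : 0 < |u| := by linarith
  set E : ℝ := Real.exp (-(c₀ / 2 * x)) with hE
  have hE0 : 0 < E := Real.exp_pos _
  have hgauss : Real.exp (-(β * x ^ 2 / 16)) ≤ Real.exp (4 / β) * E := by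
    rw [hE, ← Real.exp_add, Real.exp_le_exp]
    have h1 : 4 / β - x + β * x ^ 2 / 16 = β / 16 * (x - 8 / β) ^ 2 := by
      field_simp
      ring
    have h2 : 0 ≤ β / 16 * (x - 8 / β) ^ 2 := by positivity
    nlinarith
  rcases Nat.eq_zero_or_pos Z with hZ | hZ
  · subst hZ
    have : Icc 1 0 = (∅ : Finset ℕ) := by decide
    rw [this, sum_empty, norm_zero]
    positivity
  set F : ℕ → ℂ := fun k => χ k * ph u (Real.log k) * (((gs β x (Real.log k) / k : ℝ)) : ℂ)
    with hF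
  have hterm : ∀ k : ℕ, ‖χ k * ph u (Real.log k)‖ ≤ 1 := by
    intro k
    rw [norm_mul, T3_norm_ph, mul_one]
    exact hbd k
  have hIcc : Icc 1 Z = Ioc 0 (min (2 ^ Z) Z) := by
    have h1 : min (2 ^ Z) Z = Z := min_eq_right Nat.lt_two_pow_self.le
    rw [h1]
    ext k
    simp only [mem_Icc, mem_Ioc]
    omega
  have hF1 : ‖∑ k ∈ Ioc 0 (min 1 Z), F k‖ ≤ Real.exp (4 / β) * E := by
    have h1 : Ioc 0 (min 1 Z) = {1} := by
      rw [min_eq_left hZ]
      rfl
    rw [h1, sum_singleton]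
    simp only [hF, Nat.cast_one, Real.log_one, div_one]
    rw [norm_mul, Complex.norm_real]
    have h2 : gs β x 0 ≤ Real.exp (-(β * x ^ 2 / 16)) := by
      unfold gs
      rw [Real.exp_le_exp]
      nlinarith [mul_nonneg hβ.le (sq_nonneg x)]
    have h3 : 0 ≤ gs β x 0 := (Real.exp_pos _).le
    have h4 : ‖χ 1 * ph u 0‖ ≤ 1 := by
      have := hterm 1
      rwa [Nat.cast_one, Real.log_one] at this
    rw [Real.norm_of_nonneg h3]
    calc ‖χ 1 * ph u 0‖ * gs β x 0 ≤ 1 * gs β x 0 := mul_le_mul_of_nonneg_right h4 h3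
      _ ≤ _ := by rw [one_mul]; exact h2.trans hgauss
  have hblock : ∀ j : ℕ, ‖∑ k ∈ Ioc (min (2 ^ j) Z) (min (2 ^ (j + 1)) Z), F k‖ ≤
      3 * Real.exp β * (C₁ * E) * gs (β / 4) x (Real.log ((2 ^ j : ℕ) : ℝ)) := by
    intro j
    have hgs0 : 0 ≤ gs (β / 4) x (Real.log ((2 ^ j : ℕ) : ℝ)) := (Real.exp_pos _).le
    rcases Nat.lt_or_ge (2 ^ j) Z with hjZ | hjZ
    swap
    · have h1 : min (2 ^ (j + 1)) Z ≤ min (2 ^ j) Z := by
        rw [min_eq_right hjZ]
        exact min_le_right _ _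
      rw [Finset.Ioc_eq_empty (by omega), sum_empty, norm_zero]
      positivity
    rw [min_eq_left hjZ.le]
    set K : ℕ := 2 ^ j with hK
    set K' : ℕ := min (2 ^ (j + 1)) Z with hK'
    have hK1 : 1 ≤ K := Nat.one_le_two_pow
    have hKr : (1 : ℝ) ≤ K := by exact_mod_cast hK1
    have hKK' : K ≤ K' := le_min (Nat.pow_le_pow_right (by norm_num) (by omega)) hjZ.le
    have hK'2 : K' ≤ 2 * K := by
      refine (min_le_left _ _).trans ?_
      rw [pow_succ, mul_comm]
    -- trivial bound for the partial sums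
    have htriv : ∀ k, K ≤ k → k ≤ K' → ‖∑ n ∈ Ioc K k, χ n * ph u (Real.log n)‖ ≤ (K : ℝ) := by
      intro k hk1 hk2
      refine (norm_sum_le _ _).trans ((Finset.sum_le_sum fun n _ => hterm n).trans ?_)
      rw [sum_const, Nat.card_Ioc, nsmul_eq_mul, mul_one]
      exact_mod_cast (by omega : k - K ≤ K)
    have hfin : ∀ B : ℝ, 0 ≤ B →
        (∀ k, K ≤ k → k ≤ K' → ‖∑ n ∈ Ioc K k, χ n * ph u (Real.log n)‖ ≤ B) →
        B / K * gs (β / 2) x (Real.log K) ≤ C₁ * E * gs (β / 4) x (Real.log K) →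
        ‖∑ k ∈ Ioc K K', F k‖ ≤ 3 * Real.exp β * (C₁ * E) * gs (β / 4) x (Real.log K) := by
      intro B hB0 hB1 hB2
      have h1 := abel_gauss β hβ (fun n => χ n * ph u (Real.log n)) K K' x B hK1 hKK' hK'2 hB0 hB1
      refine h1.trans ?_
      calc 3 * Real.exp β * (B / K) * gs (β / 2) x (Real.log K)
          = 3 * Real.exp β * (B / K * gs (β / 2) x (Real.log K)) := by ring
        _ ≤ 3 * Real.exp β * (C₁ * E * gs (β / 4) x (Real.log K)) :=
            mul_le_mul_of_nonneg_left hB2 (by positivity)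
        _ = _ := by ring
    have hg24 : gs (β / 2) x (Real.log K) ≤ gs (β / 4) x (Real.log K) := by
      unfold gs
      rw [Real.exp_le_exp]
      nlinarith [mul_nonneg hβ.le (sq_nonneg (x - Real.log K))]
    have hg4 : 0 ≤ gs (β / 4) x (Real.log K) := (Real.exp_pos _).le
    have hKK : (K : ℝ) / K = 1 := div_self (by linarith)
    by_cases hsm : Real.log K ≤ x / 2
    · -- small blocks
      refine hfin K (by positivity) htriv ?_
      rw [hKK, one_mul]
      have h1 : gs (β / 2) x (Real.log K) ≤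
          Real.exp (-(β * x ^ 2 / 16)) * gs (β / 4) x (Real.log K) := by
        unfold gs
        rw [← Real.exp_add, Real.exp_le_exp]
        have h2 : (x / 2) ^ 2 ≤ (x - Real.log K) ^ 2 :=
          pow_le_pow_left₀ (by linarith) (by linarith) 2
        nlinarith [mul_le_mul_of_nonneg_left h2 hβ.le]
      refine h1.trans (mul_le_mul_of_nonneg_right (hgauss.trans ?_) hg4)
      refine mul_le_mul_of_nonneg_right ?_ hE0.le
      rw [hC₁]
      linarith
    push Not at hsm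
    -- here K > exp (x / 2)
    have hKx : Real.exp (x / 2) < K := (Real.lt_log_iff_exp_lt (by linarith)).mp hsm
    refine hfin (C₀ * ((K : ℝ) ^ (1 - c₀) + K / |u|)) (by positivity) ?_ ?_
    · intro k hk1 hk2
      refine hC χ hper hbd K k u hK1 hk1 (hk2.trans hK'2) hu0 ?_
      refine hu2.trans ?_
      have h1 : Real.exp (A * x) = (Real.exp (x / 2)) ^ ((2 * A : ℕ) : ℝ) := by
        rw [← Real.exp_mul]
        congr 1
        push_cast
        ring
      rw [h1]
      calc (Real.exp (x / 2)) ^ ((2 * A : ℕ) : ℝ) ≤ (K : ℝ) ^ ((2 * A : ℕ) : ℝ) :=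
            Real.rpow_le_rpow (Real.exp_pos _).le hKx.le (by positivity)
        _ ≤ (K : ℝ) ^ ((4 * A : ℕ) : ℝ) := by
            refine Real.rpow_le_rpow_of_exponent_le hKr ?_
            exact_mod_cast (by omega : 2 * A ≤ 4 * A)
    · have h1 : C₀ * ((K : ℝ) ^ (1 - c₀) + K / |u|) / K = C₀ * ((K : ℝ) ^ (-c₀) + 1 / |u|) := by
        rw [sub_eq_add_neg, Real.rpow_add (by linarith), Real.rpow_one]
        field_simp
      rw [h1]
      have h2 : (K : ℝ) ^ (-c₀) ≤ E := by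
        rw [hE]
        have h3 : Real.exp (-(c₀ / 2 * x)) = (Real.exp (x / 2)) ^ (-c₀) := by
          rw [← Real.exp_mul]
          congr 1
          ring
        rw [h3]
        exact Real.rpow_le_rpow_of_nonpos (Real.exp_pos _) hKx.le (by linarith)
      have h3 : 1 / |u| ≤ E := by
        have h4 : 1 / |u| ≤ 1 / Real.exp (x / 2) :=
          div_le_div_of_nonneg_left (by norm_num) (Real.exp_pos _) hu1
        rw [one_div (Real.exp (x / 2)), ← Real.exp_neg] at h4
        refine h4.trans ?_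
        rw [hE, Real.exp_le_exp]
        nlinarith
      have h5 : C₀ * ((K : ℝ) ^ (-c₀) + 1 / |u|) ≤ C₁ * E := by
        calc C₀ * ((K : ℝ) ^ (-c₀) + 1 / |u|) ≤ C₀ * (E + E) :=
              mul_le_mul_of_nonneg_left (add_le_add h2 h3) (by linarith)
          _ = (2 * C₀) * E := by ring
          _ ≤ C₁ * E := by
              refine mul_le_mul_of_nonneg_right ?_ hE0.le
              rw [hC₁]
              linarith
      exact mul_le_mul h5 hg24 (Real.exp_pos _).le (by positivity)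
  rw [hIcc, T3_dyadic F Z Z]
  have hsum : ‖∑ j ∈ range Z, ∑ k ∈ Ioc (min (2 ^ j) Z) (min (2 ^ (j + 1)) Z), F k‖ ≤
      3 * Real.exp β * (C₁ * E) * G := by
    refine (norm_sum_le _ _).trans ((Finset.sum_le_sum fun j _ => hblock j).trans ?_)
    rw [← Finset.mul_sum]
    refine mul_le_mul_of_nonneg_left ?_ (by positivity)
    exact sum_gauss_dyadic (β / 4) (by positivity) x Z
  refine (norm_add_le _ _).trans ((add_le_add hF1 hsum).trans (le_of_eq ?_))
  ring

end Pool.Agent.E3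
end

section

/-!
# T6: Gaussian windows of `χ(k) k ^ (- 1 - i u)`
-/

set_option autoImplicit false

namespace Pool.Agent.E3

open Finset MeasureTheory Real
open Pool.Agent.MC (ee)

private theorem t6_ph (u x : ℝ) : ‖ph u x‖ = 1 := by
  unfold ph
  exact Complex.norm_exp_ofReal_mul_I _

private theorem t6_mv (W : ℕ) (hW : 1 ≤ W) (χ : ℕ → ℂ) (hbd : ∀ n, ‖χ n‖ ≤ 1) :
    ‖mv W χ‖ ≤ 1 := by
  have hWR : (0 : ℝ) < W := by exact_mod_cast hW
  unfold mv
  rw [norm_div, Complex.norm_natCast, div_le_one hWR]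
  refine (norm_sum_le _ _).trans ?_
  calc ∑ a ∈ range W, ‖χ a‖ ≤ ∑ a ∈ range W, (1 : ℝ) := sum_le_sum fun a _ => hbd a
    _ = W := by simp

/-- PROOF. For `|u| ≤ exp (x/2)` this is `window_small`, for `|u| ≥ exp (x/2)` (and `x ≥ 1`) it is `window_large`,
the main term being `≤ √(π/β) exp (- exp x / (4β)) ≤ C exp (- x)` there (`|mv W χ| ≤ 1`). For `0 ≤ x ≤ 1` and
`|u| ≥ exp (x/2)` everything is bounded by a constant (`∑_k gs β x (log k)/k ≤ C` by `window_small` with
`χ = 1, u = 0`, or directly). -/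
theorem window (A : ℕ) (hA : 1 ≤ A) : ∃ c : ℝ, 0 < c ∧ c ≤ 1 / 2 ∧
    ∀ (W : ℕ), 1 ≤ W → ∀ (β : ℝ), 0 < β → ∃ C : ℝ, 1 ≤ C ∧
    ∀ (χ : ℕ → ℂ), (∀ n, χ (n + W) = χ n) → (∀ n, ‖χ n‖ ≤ 1) →
    ∀ (x u : ℝ) (Z : ℕ), 0 ≤ x → Real.exp (2 * x) ≤ Z → |u| ≤ Real.exp (A * x) →
      ‖∑ k ∈ Icc 1 Z, χ k * ph u (Real.log k) * (((gs β x (Real.log k) / k : ℝ)) : ℂ)
        - mv W χ * ((Real.sqrt (π / β) * Real.exp (-(u ^ 2 / (4 * β))) : ℝ) : ℂ) * ph u x‖
        ≤ C * Real.exp (-(c * x)) := by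
  obtain ⟨c, hc, hc2, h2⟩ := window_large A hA
  refine ⟨c, hc, hc2, ?_⟩
  intro W hW β hβ
  obtain ⟨C1, hC1, h1⟩ := window_small W hW β hβ
  obtain ⟨C2, hC2, h2⟩ := h2 W hW β hβ
  set S : ℝ := Real.sqrt (π / β) with hS
  have hS0 : 0 ≤ S := Real.sqrt_nonneg _
  refine ⟨2 * (2 * S + C1) + C2 + 4 * β * S, by nlinarith, ?_⟩
  intro χ hper hbd x u Z hx hZ hu
  have hWR : (0 : ℝ) < W := by exact_mod_cast hW
  have hcx : Real.exp (-(x / 2)) ≤ Real.exp (-(c * x)) := Real.exp_le_exp.2 (by nlinarith)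
  have hE0 : 0 < Real.exp (-(c * x)) := Real.exp_pos _
  have hβS : 0 ≤ 4 * β * S := by positivity
  rcases le_total |u| (Real.exp (x / 2)) with hu2 | hu2
  · refine (h1 χ hper hbd x u Z hx hZ hu2).trans ?_
    refine (mul_le_mul_of_nonneg_left hcx (by linarith)).trans ?_
    exact mul_le_mul_of_nonneg_right (by nlinarith) hE0.le
  · have hmain : ‖mv W χ * ((S * Real.exp (-(u ^ 2 / (4 * β))) : ℝ) : ℂ) * ph u x‖ ≤
        S * Real.exp (-(u ^ 2 / (4 * β))) := by
      rw [norm_mul, norm_mul, t6_ph, mul_one, Complex.norm_real, Real.norm_eq_abs,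
        abs_of_nonneg (by positivity)]
      exact mul_le_of_le_one_left (by positivity) (t6_mv W hW χ hbd)
    rcases le_total 1 x with hx1 | hx1
    · have hs := h2 χ hper hbd x u Z hx1 hu2 hu
      have hu3 : Real.exp x ≤ u ^ 2 := by
        have : Real.exp (x / 2) ^ 2 ≤ |u| ^ 2 := pow_le_pow_left₀ (Real.exp_pos _).le hu2 2
        rw [sq_abs, ← Real.exp_nat_mul] at this
        have h3 : ((2 : ℕ) : ℝ) * (x / 2) = x := by push_cast; ring
        rwa [h3] at this
      have h4 : Real.exp (-(u ^ 2 / (4 * β))) ≤ 4 * β * Real.exp (-(c * x)) := by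
        have h5 : Real.exp (-(u ^ 2 / (4 * β))) ≤ Real.exp (-(Real.exp x / (4 * β))) := by
          refine Real.exp_le_exp.2 (neg_le_neg ?_)
          exact div_le_div_of_nonneg_right hu3 (by positivity)
        have h6 : Real.exp (-(Real.exp x / (4 * β))) ≤ 4 * β * Real.exp (-x) := by
          have h7 : Real.exp x / (4 * β) ≤ Real.exp (Real.exp x / (4 * β)) := by
            linarith [Real.add_one_le_exp (Real.exp x / (4 * β))]
          rw [Real.exp_neg, Real.exp_neg]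
          have h8 : 0 < Real.exp x / (4 * β) := by positivity
          calc (Real.exp (Real.exp x / (4 * β)))⁻¹ ≤ (Real.exp x / (4 * β))⁻¹ :=
                inv_anti₀ h8 h7
            _ = 4 * β * (Real.exp x)⁻¹ := by rw [inv_div, div_eq_mul_inv]
        have h9 : Real.exp (-x) ≤ Real.exp (-(c * x)) := Real.exp_le_exp.2 (by nlinarith)
        exact h5.trans (h6.trans (mul_le_mul_of_nonneg_left h9 (by positivity)))
      refine (norm_sub_le _ _).trans ?_
      have h10 := mul_le_mul_of_nonneg_left h4 hS0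
      have h11 : 0 ≤ 2 * (2 * S + C1) * Real.exp (-(c * x)) := by positivity
      calc _ ≤ C2 * Real.exp (-(c * x)) + S * Real.exp (-(u ^ 2 / (4 * β))) :=
            add_le_add hs hmain
        _ ≤ C2 * Real.exp (-(c * x)) + S * (4 * β * Real.exp (-(c * x))) := by linarith
        _ ≤ _ := by nlinarith
    · have h3 := h1 (fun _ => 1) (fun _ => rfl) (fun _ => by rw [norm_one]) x 0 Z hx hZ
        (by rw [abs_zero]; exact (Real.exp_pos _).le)
      have hmv1 : mv W (fun _ => (1 : ℂ)) = 1 := by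
        unfold mv
        rw [sum_const, card_range, nsmul_eq_mul, mul_one, div_self]
        exact_mod_cast hWR.ne'
      have hph0 : ∀ y : ℝ, ph 0 y = 1 := fun y => by
        unfold ph
        simp
      rw [hmv1, hph0] at h3
      have h4 : ∑ k ∈ Icc 1 Z, (1 : ℂ) * ph 0 (Real.log k) *
          (((gs β x (Real.log k) / k : ℝ)) : ℂ) =
          ((∑ k ∈ Icc 1 Z, gs β x (Real.log k) / k : ℝ) : ℂ) := by
        rw [Complex.ofReal_sum]
        refine sum_congr rfl fun k _ => ?_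
        rw [hph0, one_mul, one_mul]
      have h5 : (1 : ℂ) * ((S * Real.exp (-(0 ^ 2 / (4 * β))) : ℝ) : ℂ) * 1 = ((S : ℝ) : ℂ) := by
        rw [one_mul, mul_one]
        norm_num
      rw [h4, h5, ← Complex.ofReal_sub, Complex.norm_real, Real.norm_eq_abs] at h3
      have h6 := (abs_le.1 h3).2
      have h7 : C1 * Real.exp (-(x / 2)) ≤ C1 := by
        refine mul_le_of_le_one_right (by linarith) ?_
        rw [Real.exp_le_one_iff]
        linarith
      have h8 : ‖∑ k ∈ Icc 1 Z, χ k * ph u (Real.log k) *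
          (((gs β x (Real.log k) / k : ℝ)) : ℂ)‖ ≤ S + C1 := by
        refine (norm_sum_le _ _).trans (le_trans (sum_le_sum (g := fun k : ℕ =>
          gs β x (Real.log k) / k) fun k _ => ?_) (by linarith))
        have h9 : 0 ≤ gs β x (Real.log k) / k := by unfold gs; positivity
        rw [norm_mul, norm_mul, t6_ph, mul_one, Complex.norm_real, Real.norm_eq_abs,
          abs_of_nonneg h9]
        exact mul_le_of_le_one_left h9 (hbd k)
      have h10 : S * Real.exp (-(u ^ 2 / (4 * β))) ≤ S := by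
        refine mul_le_of_le_one_right hS0 ?_
        rw [Real.exp_le_one_iff, neg_nonpos]
        positivity
      have h11 : (1 : ℝ) / 2 ≤ Real.exp (-(c * x)) := by
        have := Real.add_one_le_exp (-(c * x))
        nlinarith
      refine (norm_sub_le _ _).trans ?_
      calc _ ≤ (S + C1) + S := add_le_add h8 (hmain.trans h10)
        _ = 2 * (2 * S + C1) * (1 / 2) := by ring
        _ ≤ 2 * (2 * S + C1) * Real.exp (-(c * x)) :=
            mul_le_mul_of_nonneg_left h11 (by positivity)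
        _ ≤ _ := by nlinarith

end Pool.Agent.E3
end
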