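import Pool.Agent.Lib.MP_bae66e_nt.Mg.G023
import Pool.Agent.Lib.MP_bae66e_nt.E3.ZC1

section

/-!
# ZC2: the integrals of the twisted windows of the rough integers
-/

set_option autoImplicit false

namespace Pool.Agent.E3

open Finset MeasureTheory Real Filter

private lemma ZC2_int0 {b : ℝ} (hb : 0 < b) : ∫ x : ℝ, Real.exp (-(b * |x|)) = 2 / b := by
  rw [integral_comp_abs (f := fun t : ℝ => Real.exp (-(b * t)))]
  have h1 := Real.integral_rpow_mul_exp_neg_mul_Ioi (a := 1) (r := b) one_pos hb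
  simp only [sub_self, Real.rpow_zero, one_mul, Real.rpow_one, Real.Gamma_one, mul_one] at h1
  rw [h1]
  ring

private lemma ZC2_int1 {b : ℝ} (hb : 0 < b) : ∫ x : ℝ, |x| * Real.exp (-(b * |x|)) = 2 / b ^ 2 := by
  rw [integral_comp_abs (f := fun t : ℝ => t * Real.exp (-(b * t)))]
  have h1 := Real.integral_rpow_mul_exp_neg_mul_Ioi (a := 2) (r := b) two_pos hb
  have h2 : (2 : ℝ) - 1 = 1 := by norm_num
  simp only [h2, Real.rpow_one, Real.Gamma_two, mul_one] at h1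
  rw [h1, show (2 : ℝ) = ((2 : ℕ) : ℝ) by norm_num, Real.rpow_natCast]
  push_cast
  field_simp

private lemma ZC2_i0 {b : ℝ} (hb : 0 < b) : Integrable fun x : ℝ => Real.exp (-(b * |x|)) := by
  refine Integrable.of_integral_ne_zero ?_
  rw [ZC2_int0 hb]
  positivity

private lemma ZC2_i1 {b : ℝ} (hb : 0 < b) :
    Integrable fun x : ℝ => |x| * Real.exp (-(b * |x|)) := by
  refine Integrable.of_integral_ne_zero ?_
  rw [ZC2_int1 hb]
  positivity

private lemma ZC2_five {f1 f2 f3 f4 f5 : ℝ → ℝ} (a1 : Integrable f1) (a2 : Integrable f2)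
    (a3 : Integrable f3) (a4 : Integrable f4) (a5 : Integrable f5) :
    Integrable (fun x => f1 x + f2 x + f3 x + f4 x + f5 x) ∧
      ∫ x, (f1 x + f2 x + f3 x + f4 x + f5 x)
        = (∫ x, f1 x) + (∫ x, f2 x) + (∫ x, f3 x) + (∫ x, f4 x) + ∫ x, f5 x := by
  have b2 : Integrable fun x => f1 x + f2 x := a1.add a2
  have b3 : Integrable fun x => f1 x + f2 x + f3 x := b2.add a3
  have b4 : Integrable fun x => f1 x + f2 x + f3 x + f4 x := b3.add a4
  refine ⟨b4.add a5, ?_⟩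
  rw [integral_add b4 a5, integral_add b3 a4, integral_add b2 a3, integral_add a1 a2]

/-- the majorant -/
private noncomputable def ZC2_G (k I τ l δ : ℝ) (x : ℝ) : ℝ :=
  2 * Real.exp (-(2 * |x|)) + 3 * Real.exp (-(1 / k * |x|)) + I * Real.exp (-(τ * |x|))
    + Real.exp (-(1 / l * |x|)) + δ * Real.exp (-(τ / 2 * |x|))

private lemma ZC2_G_int (k I τ l δ : ℝ) (hk : 0 < k) (hτ : 0 < τ) (hl : 0 < l) :
    Integrable (ZC2_G k I τ l δ) ∧
      ∫ x : ℝ, ZC2_G k I τ l δ x = 2 + 6 * k + 2 * I / τ + 2 * l + 4 * δ / τ := by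
  have a1 := (ZC2_i0 (b := 2) two_pos).const_mul 2
  have a2 := (ZC2_i0 (b := 1 / k) (by positivity)).const_mul 3
  have a3 := (ZC2_i0 hτ).const_mul I
  have a4 := ZC2_i0 (b := 1 / l) (by positivity)
  have a5 := (ZC2_i0 (b := τ / 2) (by positivity)).const_mul δ
  obtain ⟨b1, b2⟩ := ZC2_five a1 a2 a3 a4 a5
  refine ⟨b1, ?_⟩
  refine b2.trans ?_
  rw [integral_const_mul, integral_const_mul, integral_const_mul, integral_const_mul,
    ZC2_int0 two_pos, ZC2_int0 (b := 1 / k) (by positivity),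
    ZC2_int0 hτ, ZC2_int0 (b := 1 / l) (by positivity), ZC2_int0 (b := τ / 2) (by positivity)]
  field_simp
  ring

private lemma ZC2_G_int1 (k I τ l δ : ℝ) (hk : 0 < k) (hτ : 0 < τ) (hl : 0 < l) :
    Integrable (fun x => |x| * ZC2_G k I τ l δ x) ∧
      ∫ x : ℝ, |x| * ZC2_G k I τ l δ x
        = 1 + 6 * k ^ 2 + 2 * I / τ ^ 2 + 2 * l ^ 2 + 8 * δ / τ ^ 2 := by
  have a1 := (ZC2_i1 (b := 2) two_pos).const_mul 2
  have a2 := (ZC2_i1 (b := 1 / k) (by positivity)).const_mul 3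
  have a3 := (ZC2_i1 hτ).const_mul I
  have a4 := ZC2_i1 (b := 1 / l) (by positivity)
  have a5 := (ZC2_i1 (b := τ / 2) (by positivity)).const_mul δ
  have e : (fun x : ℝ => |x| * ZC2_G k I τ l δ x) = fun x : ℝ =>
      ((((2 * (|x| * Real.exp (-(2 * |x|))) + 3 * (|x| * Real.exp (-(1 / k * |x|))))
        + I * (|x| * Real.exp (-(τ * |x|)))) + |x| * Real.exp (-(1 / l * |x|)))
        + δ * (|x| * Real.exp (-(τ / 2 * |x|)))) := by
    funext x
    rw [ZC2_G]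
    ring
  obtain ⟨b1, b2⟩ := ZC2_five a1 a2 a3 a4 a5
  rw [e]
  refine ⟨b1, ?_⟩
  refine b2.trans ?_
  rw [integral_const_mul, integral_const_mul, integral_const_mul, integral_const_mul,
    ZC2_int1 two_pos, ZC2_int1 (b := 1 / k) (by positivity),
    ZC2_int1 hτ, ZC2_int1 (b := 1 / l) (by positivity), ZC2_int1 (b := τ / 2) (by positivity)]
  field_simp
  ring

private lemma ZC2_gauss (x : ℝ) : Real.exp (-(2 * x ^ 2)) ≤ 2 * Real.exp (-(2 * |x|)) := by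
  have h1 : -(2 * x ^ 2) ≤ 1 / 2 + -(2 * |x|) := by
    have h2 : x ^ 2 = |x| ^ 2 := (sq_abs x).symm
    rw [h2]
    nlinarith [sq_nonneg (2 * |x| - 1)]
  refine (Real.exp_le_exp.2 h1).trans ?_
  rw [Real.exp_add]
  refine mul_le_mul_of_nonneg_right ?_ (Real.exp_pos _).le
  have h3 := Real.exp_bound_div_one_sub_of_interval (x := (1 / 2 : ℝ)) (by norm_num) (by norm_num)
  refine h3.trans ?_
  norm_num

open Classical in
/-- PROOF. `C₁, K₀` from `rough_tw_bound`; `l = log y`. Split `ℝ` at `0`, `K₀ l`, `(log N)/2` (assume `log N ≥ 2 K₀ l`):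
`∫ ‖WIN‖ ≤ (C₁/l) [∫_{-∞}^0 exp (- 2x²) + K₀ l + ∫_{K₀ l}^∞ ([χ=1] exp (-u²/8) exp (- τ x) + exp (- x/(20 l))) + ∫_{(log N)/2}^∞ exp (- τ x)]
≤ (C₁/l) [2 + K₀ l + [χ=1] exp (-u²/8)/τ + 20 l + exp (- τ (log N)/2)/τ]`, and the last term tends to `0` as `N → ∞`, so it is
`≤ 1` for large `N`. With the factor `|x|`: the integrals are `≤ 2`, `(K₀ l)²`, `[χ=1] exp (-u²/8)/τ²`, `(20 l)²` and
`∫_{(log N)/2}^∞ x exp (- τ x) dx → 0`. -/
theorem rough_tw_int : ∃ C : ℝ, 1 ≤ C ∧ ∀ A : ℕ, 1 ≤ A → ∀ W : ℕ, 1 ≤ W → ∃ y₀ : ℕ, 3 ≤ y₀ ∧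
    ∀ y : ℕ, y₀ ≤ y → ∀ (χ : DirichletCharacter ℂ W) (τ u : ℝ), 0 < τ → τ ≤ 1 → |u| ≤ (y : ℝ) ^ A →
    ∀ᶠ N : ℕ in atTop,
      ∫ x : ℝ, ‖WIN (tw τ (ch χ)) 2 (RS y N) u x‖
        ≤ C * (1 + (if χ = 1 then Real.exp (-(u ^ 2 / 8)) / (τ * Real.log y) else 0)) ∧
      ∫ x : ℝ, |x| * ‖WIN (tw τ (ch χ)) 2 (RS y N) u x‖
        ≤ C * (Real.log y + (if χ = 1 then Real.exp (-(u ^ 2 / 8)) / (τ ^ 2 * Real.log y) else 0)) := by
  obtain ⟨C₁, K₀, hC₁, hK₀, hb⟩ := rough_tw_bound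
  refine ⟨C₁ * (6 * K₀ ^ 2 + 6 * K₀ + 845), ?_, ?_⟩
  · have h1 : (1 : ℝ) ≤ 6 * K₀ ^ 2 + 6 * K₀ + 845 := by nlinarith
    exact one_le_mul_of_one_le_of_one_le hC₁ h1
  intro A hA W hW
  obtain ⟨y₀, hy₀, hb⟩ := hb A hA W hW
  refine ⟨y₀, hy₀, ?_⟩
  intro y hy χ τ u hτ0 hτ1 hu
  have hb := hb y hy χ τ u hτ0 hτ1 hu
  have hy3 : (3 : ℝ) ≤ y := by exact_mod_cast hy₀.trans hy
  have hy0 : (0 : ℝ) < y := by linarith
  set L : ℝ := Real.log y with hL
  have hL1 : 1 ≤ L := by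
    rw [hL, Real.le_log_iff_exp_le hy0]
    have := Real.exp_one_lt_d9
    linarith
  have hL0 : 0 < L := by linarith
  set I : ℝ := if χ = 1 then Real.exp (-(u ^ 2 / 8)) else 0 with hIdef
  have hI0 : 0 ≤ I := by
    rw [hIdef]
    split_ifs
    · exact (Real.exp_pos _).le
    · exact le_rfl
  have hI1 : (if χ = 1 then Real.exp (-(u ^ 2 / 8)) / (τ * L) else 0) = I / (τ * L) := by
    rw [hIdef]
    split_ifs
    · rfl
    · rw [zero_div]
  have hI2 : (if χ = 1 then Real.exp (-(u ^ 2 / 8)) / (τ ^ 2 * L) else 0) = I / (τ ^ 2 * L) := by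
    rw [hIdef]
    split_ifs
    · rfl
    · rw [zero_div]
  have hI3 : ∀ x : ℝ, (if χ = 1 then Real.exp (-(u ^ 2 / 8)) * Real.exp (-(τ * x)) else 0)
      = I * Real.exp (-(τ * x)) := by
    intro x
    rw [hIdef]
    split_ifs
    · rfl
    · rw [zero_mul]
  rw [hI1, hI2]
  -- the threshold for `N`
  have hlim : Tendsto (fun N : ℕ => Real.exp (-(τ / 4 * Real.log N))) atTop (nhds 0) := by
    refine Real.tendsto_exp_atBot.comp ?_
    refine tendsto_neg_atTop_atBot.comp ?_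
    exact (Real.tendsto_log_atTop.comp tendsto_natCast_atTop_atTop).const_mul_atTop (by positivity)
  have hev := hlim.eventually_le_const (show (0 : ℝ) < τ ^ 2 / 8 by positivity)
  filter_upwards [hev, eventually_ge_atTop 1] with N hN hN1
  set δ : ℝ := Real.exp (-(τ / 4 * Real.log N)) with hδ
  have hδ0 : 0 < δ := Real.exp_pos _
  have hN0 : (0 : ℝ) < N := by exact_mod_cast hN1
  have hCL : 0 ≤ C₁ / L := by positivity
  have hk : 0 < K₀ * L := by positivity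
  have hl : 0 < 20 * L := by positivity
  -- the pointwise bound
  have hF : ∀ x : ℝ, ‖WIN (tw τ (ch χ)) 2 (RS y N) u x‖
      ≤ C₁ / L * ZC2_G (K₀ * L) I τ (20 * L) δ x := by
    intro x
    obtain ⟨h1, h2, h3⟩ := hb N x
    have p1 := Real.exp_pos (-(2 * |x|))
    have p2 := Real.exp_pos (-(1 / (K₀ * L) * |x|))
    have p3 := mul_nonneg hI0 (Real.exp_pos (-(τ * |x|))).le
    have p4 := Real.exp_pos (-(1 / (20 * L) * |x|))
    have p5 := mul_pos hδ0 (Real.exp_pos (-(τ / 2 * |x|)))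
    rcases le_total x 0 with hx | hx
    · refine (h1 hx).trans (mul_le_mul_of_nonneg_left ?_ hCL)
      have := ZC2_gauss x
      rw [ZC2_G]
      linarith
    · have hax : |x| = x := abs_of_nonneg hx
      rcases lt_or_ge x (K₀ * L) with hxk | hxk
      · refine (h2 hx).trans (mul_le_mul_of_nonneg_left ?_ hCL)
        have h4 : Real.exp (-(τ * x)) ≤ 1 := by
          rw [Real.exp_le_one_iff]
          have := mul_nonneg hτ0.le hx
          linarith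
        have h5 : 1 ≤ 3 * Real.exp (-(1 / (K₀ * L) * |x|)) := by
          rw [hax]
          have h6 : 1 / (K₀ * L) * x ≤ 1 := by
            rw [one_div, inv_mul_le_iff₀ hk, mul_one]
            exact hxk.le
          have h7 : Real.exp (-1) ≤ Real.exp (-(1 / (K₀ * L) * x)) :=
            Real.exp_le_exp.2 (by linarith)
          have h8 : (1 : ℝ) ≤ 3 * Real.exp (-1) := by
            rw [Real.exp_neg, ← div_eq_mul_inv, le_div_iff₀ (Real.exp_pos 1)]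
            have := Real.exp_one_lt_d9
            linarith
          linarith
        rw [ZC2_G]
        linarith
      · rcases le_or_gt (Real.exp (2 * x)) N with hxN | hxN
        · refine (h3 hxk hxN).trans (mul_le_mul_of_nonneg_left ?_ hCL)
          rw [hI3, ZC2_G]
          have h4 : x / (20 * L) = 1 / (20 * L) * |x| := by
            rw [hax]
            ring
          have h5 : Real.exp (-(τ * x)) = Real.exp (-(τ * |x|)) := by rw [hax]
          rw [h4, h5]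
          linarith
        · refine (h2 hx).trans (mul_le_mul_of_nonneg_left ?_ hCL)
          have h4 : Real.log N < 2 * x := by
            rw [Real.log_lt_iff_lt_exp hN0]
            exact hxN
          have h5 : Real.exp (-(τ * x)) ≤ δ * Real.exp (-(τ / 2 * |x|)) := by
            rw [hδ, ← Real.exp_add, hax]
            refine Real.exp_le_exp.2 ?_
            nlinarith
          rw [ZC2_G]
          linarith
  obtain ⟨g1, g2⟩ := ZC2_G_int (K₀ * L) I τ (20 * L) δ hk hτ0 hl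
  obtain ⟨g3, g4⟩ := ZC2_G_int1 (K₀ * L) I τ (20 * L) δ hk hτ0 hl
  have hδ1 : 4 * δ / τ ≤ 1 := by
    rw [div_le_one hτ0]
    nlinarith
  have hδ2 : 8 * δ / τ ^ 2 ≤ 1 := by
    rw [div_le_one (by positivity)]
    linarith
  refine ⟨?_, ?_⟩
  · calc ∫ x : ℝ, ‖WIN (tw τ (ch χ)) 2 (RS y N) u x‖
        ≤ ∫ x : ℝ, C₁ / L * ZC2_G (K₀ * L) I τ (20 * L) δ x :=
          integral_mono (WIN_integrable _ _ _ _ two_pos).norm (g1.const_mul _) hF
      _ = C₁ / L * (2 + 6 * (K₀ * L) + 2 * I / τ + 2 * (20 * L) + 4 * δ / τ) := by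
          rw [integral_const_mul, g2]
      _ ≤ C₁ / L * ((6 * K₀ + 43) * L + 2 * I / τ) := by
          refine mul_le_mul_of_nonneg_left ?_ hCL
          nlinarith
      _ = C₁ * ((6 * K₀ + 43) + 2 * (I / (τ * L))) := by
          field_simp
      _ ≤ C₁ * (6 * K₀ ^ 2 + 6 * K₀ + 845) * (1 + I / (τ * L)) := by
          rw [mul_assoc]
          refine mul_le_mul_of_nonneg_left ?_ (by linarith)
          have h1 : 0 ≤ I / (τ * L) := by positivity
          nlinarith [mul_nonneg (sq_nonneg K₀) h1, mul_nonneg (by linarith : (0 : ℝ) ≤ K₀) h1,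
            sq_nonneg K₀]
  · calc ∫ x : ℝ, |x| * ‖WIN (tw τ (ch χ)) 2 (RS y N) u x‖
        ≤ ∫ x : ℝ, C₁ / L * (|x| * ZC2_G (K₀ * L) I τ (20 * L) δ x) := by
          refine integral_mono (WIN_mul_integrable _ _ _ _ two_pos) (g3.const_mul _) fun x => ?_
          have h1 := mul_le_mul_of_nonneg_left (hF x) (abs_nonneg x)
          refine h1.trans (le_of_eq ?_)
          ring
      _ = C₁ / L * (1 + 6 * (K₀ * L) ^ 2 + 2 * I / τ ^ 2 + 2 * (20 * L) ^ 2 + 8 * δ / τ ^ 2) := by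
          rw [integral_const_mul, g4]
      _ ≤ C₁ / L * ((6 * K₀ ^ 2 + 802) * L ^ 2 + 2 * I / τ ^ 2) := by
          refine mul_le_mul_of_nonneg_left ?_ hCL
          nlinarith
      _ = C₁ * ((6 * K₀ ^ 2 + 802) * L + 2 * (I / (τ ^ 2 * L))) := by
          field_simp
      _ ≤ C₁ * (6 * K₀ ^ 2 + 6 * K₀ + 845) * (L + I / (τ ^ 2 * L)) := by
          rw [mul_assoc]
          refine mul_le_mul_of_nonneg_left ?_ (by linarith)
          have h1 : 0 ≤ I / (τ ^ 2 * L) := by positivity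
          nlinarith [mul_nonneg (sq_nonneg K₀) h1, mul_nonneg (by linarith : (0 : ℝ) ≤ K₀) h1,
            sq_nonneg K₀, mul_nonneg (by linarith : (0 : ℝ) ≤ K₀) hL0.le]

end Pool.Agent.E3
end

section

/-!
# ZD: bounds for the L-series over the rough integers
-/

set_option autoImplicit false

namespace Pool.Agent.E3

open Finset MeasureTheory Real Filter

open Classical in
/-- PROOF. `LY_tendsto`, `dLY_tendsto`, `DP_le_int`, `DP_log_le_int` and `rough_tw_int`: a limit of terms that are eventually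
`≤ B` in norm is `≤ B` in norm. Take `y₀ ≥ W`. -/
theorem LY_bounds : ∃ C : ℝ, 1 ≤ C ∧ ∀ A : ℕ, 1 ≤ A → ∀ W : ℕ, 1 ≤ W → ∃ y₀ : ℕ, 3 ≤ y₀ ∧ W ≤ y₀ ∧
    ∀ y : ℕ, y₀ ≤ y → ∀ (χ : DirichletCharacter ℂ W) (τ u : ℝ), 0 < τ → τ ≤ 1 → |u| ≤ (y : ℝ) ^ A →
      ‖LY χ y τ u‖ ≤ C * (1 + (if χ = 1 then Real.exp (-(u ^ 2 / 8)) / (τ * Real.log y) else 0)) ∧
      ‖dLY χ y τ u‖
        ≤ C * (Real.log y + (if χ = 1 then Real.exp (-(u ^ 2 / 8)) / (τ ^ 2 * Real.log y) else 0)) := by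
  obtain ⟨C₁, hC₁, h1⟩ := rough_tw_int
  refine ⟨C₁ + 1, by linarith, fun A hA W hW => ?_⟩
  obtain ⟨y₀, hy₀, h2⟩ := h1 A hA W hW
  refine ⟨max y₀ W, le_max_of_le_left hy₀, le_max_right _ _, fun y hy χ τ u hτ hτ1 hu => ?_⟩
  have hyy₀ : y₀ ≤ y := le_trans (le_max_left _ _) hy
  have hWy : W ≤ y := le_trans (le_max_right _ _) hy
  have h3 := h2 y hyy₀ χ τ u hτ hτ1 hu
  have hly : 0 < Real.log y := Real.log_pos (by exact_mod_cast (by omega : 1 < y))
  have hE0 : 0 ≤ (if χ = 1 then Real.exp (-(u ^ 2 / 8)) / (τ * Real.log y) else 0) := by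
    split_ifs <;> positivity
  have hE1 : 0 ≤ (if χ = 1 then Real.exp (-(u ^ 2 / 8)) / (τ ^ 2 * Real.log y) else 0) := by
    split_ifs <;> positivity
  have h4 : ‖LY χ y τ u - 1‖
      ≤ C₁ * (1 + (if χ = 1 then Real.exp (-(u ^ 2 / 8)) / (τ * Real.log y) else 0)) := by
    refine le_of_tendsto (LY_tendsto χ y hW hWy τ u hτ).norm ?_
    filter_upwards [h3] with N hN
    exact (DP_le_int _ _ _).trans hN.1
  have h5 : ‖dLY χ y τ u‖
      ≤ C₁ * (Real.log y + (if χ = 1 then Real.exp (-(u ^ 2 / 8)) / (τ ^ 2 * Real.log y) else 0)) := by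
    rw [← norm_neg]
    refine le_of_tendsto (dLY_tendsto χ y hW hWy τ u hτ).norm ?_
    filter_upwards [h3] with N hN
    exact (DP_log_le_int _ _ _).trans hN.2
  constructor
  · have h6 : ‖LY χ y τ u‖ ≤ ‖LY χ y τ u - 1‖ + 1 := by
      have := norm_add_le (LY χ y τ u - 1) 1
      simpa using this
    nlinarith
  · nlinarith

end Pool.Agent.E3
end

section

/-!
# ZE: the lower bound by the 3-4-1 inequality
-/

set_option autoImplicit false

namespace Pool.Agent.E3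

open Finset MeasureTheory Real Filter

/-- PROOF. `C` from `LY_bounds`, `y₀` the one for `A + 1`. Let `m = min 1 (τ log y)`. Apply
`DirichletCharacter.norm_LSeries_product_ge_one` to `chy χ y` (with `x = τ`, `y = u`); `(chy χ y)^2 = chy (χ^2) y` (`chy_sq`),
`1 = chy 1 y` (`chy_one`); the modulus `W * primorial y` is not `0`. So
`1 ≤ ‖LY 1 y τ 0‖³ ‖LY χ y τ u‖⁴ ‖LY (χ^2) y τ (2u)‖`. By `LY_bounds`: `‖LY 1 y τ 0‖ ≤ C (1 + 1/(τ log y)) ≤ 2 C / m`. And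
`|2u| ≤ y^(A+1)`, `exp (- (2u)²/8) ≤ exp (- u²/8) ≤ (τ log y)²` and `≤ 1`, so `exp (- (2u)²/8) / (τ log y) ≤ 1` and
`‖LY (χ^2) y τ (2u)‖ ≤ 2 C`. So `‖LY χ y τ u‖⁴ ≥ m³ / (2C)⁴`. -/
theorem LY_lower1 : ∃ c : ℝ, 0 < c ∧ c ≤ 1 ∧ ∀ A : ℕ, 1 ≤ A → ∀ W : ℕ, 1 ≤ W → ∃ y₀ : ℕ, 3 ≤ y₀ ∧ W ≤ y₀ ∧
    ∀ y : ℕ, y₀ ≤ y → ∀ (χ : DirichletCharacter ℂ W) (τ u : ℝ), 0 < τ → τ ≤ 1 → |u| ≤ (y : ℝ) ^ A →
      Real.exp (-(u ^ 2 / 8)) ≤ (τ * Real.log y) ^ 2 →
      c * (min 1 (τ * Real.log y)) ^ 3 ≤ ‖LY χ y τ u‖ ^ 4 := by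
  obtain ⟨C, hC, hB⟩ := LY_bounds
  have hC0 : 0 < C := by linarith
  refine ⟨1 / (2 * C) ^ 4, by positivity, ?_, fun A hA W hW => ?_⟩
  · rw [div_le_one (by positivity)]
    exact one_le_pow₀ (by linarith)
  obtain ⟨y₀, h3, hWy, hy⟩ := hB (A + 1) (by omega) W hW
  refine ⟨y₀, h3, hWy, fun y hyy χ τ u hτ hτ1 hu hexp => ?_⟩
  have hy3 : (3 : ℝ) ≤ y := by exact_mod_cast h3.trans hyy
  have hlog : 1 ≤ Real.log y := by
    rw [Real.le_log_iff_exp_le (by linarith)]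
    linarith [Real.exp_one_lt_d9]
  obtain ⟨t, ht⟩ : ∃ t, t = τ * Real.log y := ⟨_, rfl⟩
  have ht0 : 0 < t := by
    rw [ht]
    exact mul_pos hτ (by linarith)
  rw [← ht] at hexp ⊢
  obtain ⟨m, hm⟩ : ∃ m, m = min 1 t := ⟨_, rfl⟩
  rw [← hm]
  have hm0 : 0 < m := by
    rw [hm]
    exact lt_min one_pos ht0
  have hm1 : m ≤ 1 := by
    rw [hm]
    exact min_le_left _ _
  have hmt : m ≤ t := by
    rw [hm]
    exact min_le_right _ _
  have h0 := (hy y hyy 1 τ 0 hτ hτ1 (by rw [abs_zero]; positivity)).1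
  rw [if_pos rfl, ← ht] at h0
  have h0' : ‖LY (1 : DirichletCharacter ℂ W) y τ 0‖ ≤ 2 * C / m := by
    refine h0.trans ?_
    have e1 : Real.exp (-((0 : ℝ) ^ 2 / 8)) = 1 := by norm_num
    rw [e1]
    have e2 : 1 / t ≤ 1 / m := one_div_le_one_div_of_le hm0 hmt
    have e3 : 1 ≤ 1 / m := by
      rw [le_div_iff₀ hm0]
      linarith
    calc C * (1 + 1 / t) ≤ C * (1 / m + 1 / m) := by gcongr
      _ = 2 * C / m := by ring
  have hu2 : |2 * u| ≤ (y : ℝ) ^ (A + 1) := by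
    rw [abs_mul, abs_two, pow_succ, mul_comm]
    exact mul_le_mul hu (by linarith) (by norm_num) (by positivity)
  have h2 := (hy y hyy (χ ^ 2) τ (2 * u) hτ hτ1 hu2).1
  have h2' : ‖LY (χ ^ 2) y τ (2 * u)‖ ≤ 2 * C := by
    refine h2.trans ?_
    have e1 : Real.exp (-((2 * u) ^ 2 / 8)) ≤ t := by
      rcases le_total 1 t with h | h
      · refine le_trans (Real.exp_le_one_iff.2 ?_) h
        have := sq_nonneg (2 * u)
        linarith
      · calc Real.exp (-((2 * u) ^ 2 / 8)) ≤ Real.exp (-(u ^ 2 / 8)) := by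
              apply Real.exp_le_exp.2
              have := sq_nonneg u
              nlinarith
          _ ≤ t ^ 2 := hexp
          _ ≤ t := by nlinarith
    rw [← ht]
    split_ifs
    · have e2 : Real.exp (-((2 * u) ^ 2 / 8)) / t ≤ 1 := by
        rw [div_le_one ht0]
        exact e1
      calc C * (1 + Real.exp (-((2 * u) ^ 2 / 8)) / t) ≤ C * (1 + 1) := by gcongr
        _ = 2 * C := by ring
    · linarith
  have hp := DirichletCharacter.norm_LSeries_product_ge_one (chy χ y) hτ u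
  have e0 : LY (1 : DirichletCharacter ℂ W) y τ 0 =
      LSeries (fun n : ℕ => (1 : DirichletCharacter ℂ (W * primorial y)) n) (1 + (τ : ℂ)) := by
    unfold LY
    rw [chy_one]
    have : (1 : ℂ) + τ + (0 : ℝ) * Complex.I = 1 + (τ : ℂ) := by simp
    rw [this]
    rfl
  have e1 : LY χ y τ u = LSeries (fun n : ℕ => (chy χ y) n) (1 + (τ : ℂ) + Complex.I * u) := by
    unfold LY
    rw [mul_comm Complex.I]
    rfl
  have e2 : LY (χ ^ 2) y τ (2 * u) =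
      LSeries (fun n : ℕ => ((chy χ y) ^ 2) n) (1 + (τ : ℂ) + 2 * Complex.I * u) := by
    unfold LY
    rw [← chy_sq]
    have : (1 : ℂ) + τ + ((2 * u : ℝ) : ℂ) * Complex.I = 1 + (τ : ℂ) + 2 * Complex.I * u := by
      push_cast
      ring
    rw [this]
    rfl
  rw [← e0, ← e1, ← e2, norm_mul, norm_mul, norm_pow, norm_pow] at hp
  have hq : 1 ≤ (2 * C / m) ^ 3 * ‖LY χ y τ u‖ ^ 4 * (2 * C) := by
    refine le_trans hp ?_
    gcongr
  have hq2 : (2 * C / m) ^ 3 * ‖LY χ y τ u‖ ^ 4 * (2 * C) = (2 * C) ^ 4 * ‖LY χ y τ u‖ ^ 4 / m ^ 3 := by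
    field_simp
  rw [hq2, le_div_iff₀ (by positivity), one_mul] at hq
  rw [div_mul_eq_mul_div, one_mul, div_le_iff₀ (by positivity), mul_comm]
  exact hq

end Pool.Agent.E3
end

section

/-!
# ZF: the absolute lower bound
-/

set_option autoImplicit false

namespace Pool.Agent.E3

open Finset MeasureTheory Real Filter

theorem ZF_hasDeriv {W : ℕ} (χ : DirichletCharacter ℂ W) (hW : 1 ≤ W) (y : ℕ) (u : ℝ) {τ : ℝ} (hτ : 0 < τ) :
    HasDerivAt (fun τ : ℝ => LY χ y τ u) (dLY χ y τ u) τ := by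
  have hN : W * primorial y ≠ 0 := mul_ne_zero (by omega) (primorial_pos y).ne'
  have h1 : LSeries.abscissaOfAbsConv (ch (chy χ y)) < (((1 : ℂ) + τ + u * Complex.I).re : EReal) := by
    have h2 := DirichletCharacter.absicssaOfAbsConv_eq_one hN (chy χ y)
    have h3 : LSeries.abscissaOfAbsConv (ch (chy χ y)) = 1 := h2
    rw [h3]
    have h4 : ((1 : ℂ) + τ + u * Complex.I).re = 1 + τ := by simp
    rw [h4]
    rw [← EReal.coe_one, EReal.coe_lt_coe_iff]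
    linarith
  have h2 := (LSeries_hasDerivAt h1).differentiableAt.hasDerivAt
  have h3 : HasDerivAt (fun τ : ℝ => (1 : ℂ) + τ + u * Complex.I) 1 τ := by
    have h4 : HasDerivAt (fun τ : ℝ => (τ : ℂ)) 1 τ := Complex.ofRealCLM.hasDerivAt
    exact (h4.const_add 1).add_const _
  have h5 := HasDerivAt.comp τ h2 h3
  rw [mul_one] at h5
  exact h5

/-- PROOF. `C` from `LY_bounds`, `c₁` from `LY_lower1`. Under the hypothesis `exp (-u²/8) ≤ (τ log y)²` one has (for `τ' ≥ τ` too)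
`exp (-u²/8)/(τ'² log y) ≤ log y`, so `‖dLY χ y τ' u‖ ≤ 2 C log y` for all `τ' ∈ [τ, 1]`. Let `κ ∈ (0, 1]` with
`2 C κ ≤ (1/2) (c₁ κ³)^(1/4)`, i.e. `κ = min 1 (c₁ / (4C)^4)` (then `(4 C κ)^4 ≤ c₁ κ³`), and `c = (1/2) (c₁ κ³)^(1/4)`.
If `τ log y ≥ κ`: `‖LY‖⁴ ≥ c₁ κ³`, so `‖LY‖ ≥ 2 c`. If `τ log y < κ` put `τ₁ = κ / log y ≤ 1` (`y ≥ 3`); the function
`τ' ↦ LY χ y τ' u` has the derivative `dLY χ y τ' u` (L-series are differentiable in `re s > 1`), so by the mean value inequality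
`‖LY χ y τ u‖ ≥ ‖LY χ y τ₁ u‖ - (τ₁ - τ) 2 C log y ≥ 2 c - 2 C κ ≥ c`. -/
theorem LY_lower : ∃ c : ℝ, 0 < c ∧ c ≤ 1 ∧ ∀ A : ℕ, 1 ≤ A → ∀ W : ℕ, 1 ≤ W → ∃ y₀ : ℕ, 3 ≤ y₀ ∧ W ≤ y₀ ∧
    ∀ y : ℕ, y₀ ≤ y → ∀ (χ : DirichletCharacter ℂ W) (τ u : ℝ), 0 < τ → τ ≤ 1 → |u| ≤ (y : ℝ) ^ A →
      Real.exp (-(u ^ 2 / 8)) ≤ (τ * Real.log y) ^ 2 → c ≤ ‖LY χ y τ u‖ := by
  obtain ⟨C, hC, hB⟩ := LY_bounds
  obtain ⟨c₁, hc0, hc1, hL⟩ := LY_lower1
  have hC0 : 0 < C := by linarith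
  obtain ⟨κ, hκ⟩ : ∃ κ, κ = min 1 (c₁ / (4 * C) ^ 4) := ⟨_, rfl⟩
  have hκ0 : 0 < κ := by
    rw [hκ]
    exact lt_min one_pos (by positivity)
  have hκ1 : κ ≤ 1 := by
    rw [hκ]
    exact min_le_left _ _
  have hκ2 : (4 * C) ^ 4 * κ ≤ c₁ := by
    have h1 : κ ≤ c₁ / (4 * C) ^ 4 := by
      rw [hκ]
      exact min_le_right _ _
    rw [le_div_iff₀ (by positivity)] at h1
    linarith
  obtain ⟨r, hr⟩ : ∃ r, r = Real.sqrt (Real.sqrt (c₁ * κ ^ 3)) := ⟨_, rfl⟩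
  have hck : 0 < c₁ * κ ^ 3 := by positivity
  have hr0 : 0 < r := by
    rw [hr]
    exact Real.sqrt_pos.2 (Real.sqrt_pos.2 hck)
  have hr4 : r ^ 4 = c₁ * κ ^ 3 := by
    rw [hr]
    calc Real.sqrt (Real.sqrt (c₁ * κ ^ 3)) ^ 4 = (Real.sqrt (Real.sqrt (c₁ * κ ^ 3)) ^ 2) ^ 2 := by ring
      _ = _ := by rw [Real.sq_sqrt (Real.sqrt_nonneg _), Real.sq_sqrt hck.le]
  have hr1 : r ≤ 1 := by
    have h1 : r ^ 4 ≤ 1 ^ 4 := by
      rw [hr4, one_pow]
      have h2 : κ ^ 3 ≤ 1 := pow_le_one₀ hκ0.le hκ1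
      exact mul_le_one₀ hc1 (by positivity) h2
    exact le_of_pow_le_pow_left₀ (by norm_num) (by norm_num) h1
  have hCr : 4 * C * κ ≤ r := by
    have h1 : (4 * C * κ) ^ 4 ≤ r ^ 4 := by
      rw [hr4]
      calc (4 * C * κ) ^ 4 = (4 * C) ^ 4 * κ * κ ^ 3 := by ring
        _ ≤ c₁ * κ ^ 3 := by gcongr
    exact le_of_pow_le_pow_left₀ (by norm_num) hr0.le h1
  refine ⟨r / 2, by positivity, by linarith, fun A hA W hW => ?_⟩
  obtain ⟨y₁, h31, hW1, hy1⟩ := hB A hA W hW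
  obtain ⟨y₂, h32, hW2, hy2⟩ := hL A hA W hW
  refine ⟨max y₁ y₂, le_max_of_le_left h31, le_max_of_le_left hW1,
    fun y hyy χ τ u hτ hτ1 hu hexp => ?_⟩
  have hyy1 : y₁ ≤ y := (le_max_left _ _).trans hyy
  have hyy2 : y₂ ≤ y := (le_max_right _ _).trans hyy
  have hy3 : (3 : ℝ) ≤ y := by exact_mod_cast h31.trans hyy1
  have hlog : 1 ≤ Real.log y := by
    rw [Real.le_log_iff_exp_le (by linarith)]
    linarith [Real.exp_one_lt_d9]
  have hlog0 : 0 < Real.log y := by linarith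
  have key : ∀ τ' : ℝ, 0 < τ' → τ' ≤ 1 → κ ≤ τ' * Real.log y →
      Real.exp (-(u ^ 2 / 8)) ≤ (τ' * Real.log y) ^ 2 → r ≤ ‖LY χ y τ' u‖ := by
    intro τ' h0 h1 h2 h3
    have h4 := hy2 y hyy2 χ τ' u h0 h1 hu h3
    have h5 : κ ≤ min 1 (τ' * Real.log y) := le_min hκ1 h2
    have h6 : r ^ 4 ≤ ‖LY χ y τ' u‖ ^ 4 := by
      rw [hr4]
      refine le_trans ?_ h4
      gcongr
    exact le_of_pow_le_pow_left₀ (by norm_num) (norm_nonneg _) h6
  rcases le_or_gt κ (τ * Real.log y) with h | h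
  · have := key τ hτ hτ1 h hexp
    linarith
  obtain ⟨τ₁, hτ₁⟩ : ∃ τ₁, τ₁ = κ / Real.log y := ⟨_, rfl⟩
  have e1 : τ₁ * Real.log y = κ := by
    rw [hτ₁]
    field_simp
  have hτ₁0 : 0 < τ₁ := by
    rw [hτ₁]
    positivity
  have hττ₁ : τ ≤ τ₁ := by
    rw [hτ₁, le_div_iff₀ hlog0]
    exact h.le
  have hτ₁1 : τ₁ ≤ 1 := by
    rw [hτ₁, div_le_one hlog0]
    linarith
  have htl : 0 < τ * Real.log y := mul_pos hτ hlog0
  have k1 := key τ₁ hτ₁0 hτ₁1 e1.ge (by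
    refine hexp.trans ?_
    gcongr)
  have hb : ∀ x ∈ Set.Ico τ τ₁, ‖dLY χ y x u‖ ≤ 2 * C * Real.log y := by
    intro x hx
    have hx0 : 0 < x := lt_of_lt_of_le hτ hx.1
    have h1 := (hy1 y hyy1 χ x u hx0 (hx.2.le.trans hτ₁1) hu).2
    refine h1.trans ?_
    have h2 : Real.exp (-(u ^ 2 / 8)) / (x ^ 2 * Real.log y) ≤ Real.log y := by
      rw [div_le_iff₀ (by positivity)]
      calc Real.exp (-(u ^ 2 / 8)) ≤ (τ * Real.log y) ^ 2 := hexp
        _ ≤ (x * Real.log y) ^ 2 := by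
            have := hx.1
            gcongr
        _ = Real.log y * (x ^ 2 * Real.log y) := by ring
    split_ifs
    · calc C * (Real.log y + Real.exp (-(u ^ 2 / 8)) / (x ^ 2 * Real.log y)) ≤
          C * (Real.log y + Real.log y) := by gcongr
        _ = 2 * C * Real.log y := by ring
    · nlinarith
  have hm := norm_image_sub_le_of_norm_deriv_le_segment' (f := fun τ : ℝ => LY χ y τ u)
    (f' := fun x => dLY χ y x u) (a := τ) (b := τ₁) (C := 2 * C * Real.log y)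
    (fun x hx => (ZF_hasDeriv χ hW y u (lt_of_lt_of_le hτ hx.1)).hasDerivWithinAt) hb τ₁
    ⟨hττ₁, le_rfl⟩
  have h7 : 2 * C * Real.log y * (τ₁ - τ) ≤ r / 2 := by
    calc 2 * C * Real.log y * (τ₁ - τ) ≤ 2 * C * Real.log y * τ₁ := by
          gcongr
          linarith
      _ = 2 * C * (τ₁ * Real.log y) := by ring
      _ = 2 * C * κ := by rw [e1]
      _ ≤ r / 2 := by linarith
  have h8 := norm_sub_norm_le (LY χ y τ₁ u) (LY χ y τ u)
  linarith

end Pool.Agent.E3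
end
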