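import Pool.Agent.Lib.MP_bae66e_nt.E3.Y7a
import Pool.Agent.Lib.MP_bae66e_nt.Mg.G006

section

/-!
# Y7b: the windows of the primes are small in mean square
-/

set_option autoImplicit false

namespace Pool.Agent.E3

open Finset MeasureTheory Real

private theorem Y7b_shift (F : ℝ → ℝ) (a b c : ℝ) (hab : a ≤ b) :
    ∫ x in Set.Icc a b, F (x + c) = ∫ x in Set.Icc (a + c) (b + c), F x := by
  rw [integral_Icc_eq_integral_Ioc, integral_Icc_eq_integral_Ioc, ← intervalIntegral.integral_of_le hab,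
    ← intervalIntegral.integral_of_le (by linarith), intervalIntegral.integral_comp_add_right]

/-- remove the twist at one point -/
private theorem Y7b_untwist (a : ℕ → ℂ) (S : Finset ℕ) (L t x : ℝ) (hL : 1 ≤ L) (hx : x ≤ L) :
    ‖WIN a 2 S t x‖ ≤ 8 * ‖WIN (tw (1 / L) a) 2 S t (x + 1 / L / (2 * 2))‖ := by
  have h1 := WIN_tw a S 2 (1 / L) t (x + 1 / L / (2 * 2)) (by norm_num)
  rw [add_sub_cancel_right] at h1
  rw [h1, norm_mul, Complex.norm_real, Real.norm_eq_abs, abs_of_pos (Real.exp_pos _)]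
  have hL0 : 0 < L := by linarith
  have h2 : 1 / 8 ≤ Real.exp (-(1 / L * (x + 1 / L / (2 * 2))) + (1 / L) ^ 2 / (4 * 2)) := by
    have h3 : -2 ≤ -(1 / L * (x + 1 / L / (2 * 2))) + (1 / L) ^ 2 / (4 * 2) := by
      have h4 : 1 / L * x ≤ 1 := by
        rw [one_div, inv_mul_le_iff₀ hL0]
        linarith
      have h5 : 1 / L ≤ 1 := by
        rw [div_le_one hL0]
        exact hL
      have h6 : 0 < 1 / L := by positivity
      have h7 : (1 / L) * (1 / L) ≤ 1 := by nlinarith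
      nlinarith
    have h8 : (1 : ℝ) / 8 ≤ Real.exp (-2) := by
      rw [Real.exp_neg, one_div, inv_le_inv₀ (by norm_num) (Real.exp_pos _)]
      have h9 : Real.exp 2 = Real.exp 1 * Real.exp 1 := by
        rw [← Real.exp_add]
        norm_num
      rw [h9]
      have h10 := Real.exp_one_lt_d9
      have h11 := Real.exp_pos 1
      nlinarith
    exact h8.trans (Real.exp_le_exp.mpr h3)
  have h3 := norm_nonneg (WIN a 2 S t x)
  nlinarith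

/-- the tails of the windows are small -/
private theorem Y7b_tail : ∃ C : ℝ, 1 ≤ C ∧ ∀ (W : ℕ) (χ : DirichletCharacter ℂ W) (L t x : ℝ) (Z Z' : ℕ),
    1 ≤ L → x ≤ L → Real.exp (2 * L) ≤ Z → Z ≤ Z' →
    ‖WIN (lpc χ) 2 (Icc 1 Z') t x - WIN (lpc χ) 2 (Icc 1 Z) t x‖ ≤ C * Real.exp (-(L ^ 2)) := by
  obtain ⟨C, hC, hb⟩ := tb_prime 1 one_pos
  refine ⟨C, hC, ?_⟩
  intro W χ L t x Z Z' hL hx hZ hZZ
  have hsub : Icc 1 Z ⊆ Icc 1 Z' := Finset.Icc_subset_Icc_right hZZ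
  have h1 : WIN (lpc χ) 2 (Icc 1 Z') t x - WIN (lpc χ) 2 (Icc 1 Z) t x
      = ∑ n ∈ Icc 1 Z' \ Icc 1 Z, lpc χ n * ph t (Real.log n) * (((gs 2 x (Real.log n) / n : ℝ)) : ℂ) := by
    unfold WIN
    rw [← Finset.sum_sdiff hsub]
    ring
  rw [h1]
  refine (norm_sum_le _ _).trans ?_
  have h2 : ∀ n ∈ Icc 1 Z' \ Icc 1 Z,
      ‖lpc χ n * ph t (Real.log n) * (((gs 2 x (Real.log n) / n : ℝ)) : ℂ)‖
        ≤ Real.exp (-(L ^ 2)) * (lp n * gs 1 x (Real.log n) / n) := by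
    intro n hn
    rw [Finset.mem_sdiff, Finset.mem_Icc, Finset.mem_Icc] at hn
    have hn1 : Z < n := by omega
    have hnR : (Z : ℝ) ≤ n := by exact_mod_cast hn1.le
    have hn0 : (0 : ℝ) < n := by
      have : 0 < n := by omega
      exact_mod_cast this
    have hlog : 2 * L ≤ Real.log n := by
      rw [Real.le_log_iff_exp_le hn0]
      exact hZ.trans hnR
    have hlp : 0 ≤ lp n := by
      unfold lp
      split_ifs
      · exact Real.log_natCast_nonneg n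
      · exact le_rfl
    have hch : ‖ch χ n‖ ≤ 1 := DirichletCharacter.norm_le_one χ _
    have hlpc : ‖lpc χ n‖ ≤ lp n := by
      unfold lpc
      rw [norm_mul, Complex.norm_real, Real.norm_eq_abs, abs_of_nonneg hlp]
      nlinarith
    have hph : ‖ph t (Real.log n)‖ = 1 := by
      unfold ph
      exact Complex.norm_exp_ofReal_mul_I _
    have hgs : gs 2 x (Real.log n) ≤ Real.exp (-(L ^ 2)) * gs 1 x (Real.log n) := by
      unfold gs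
      rw [← Real.exp_add]
      apply Real.exp_le_exp.mpr
      have h3 : L ≤ Real.log n - x := by linarith
      have h4 : L ^ 2 ≤ (Real.log n - x) ^ 2 := pow_le_pow_left₀ (by linarith) h3 2
      nlinarith
    have hgs0 : 0 ≤ gs 2 x (Real.log n) := (Real.exp_pos _).le
    rw [norm_mul, norm_mul, hph, mul_one, Complex.norm_real, Real.norm_eq_abs, abs_of_nonneg (by positivity)]
    calc ‖lpc χ n‖ * (gs 2 x (Real.log n) / n)
        ≤ lp n * ((Real.exp (-(L ^ 2)) * gs 1 x (Real.log n)) / n) := by gcongr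
      _ = Real.exp (-(L ^ 2)) * (lp n * gs 1 x (Real.log n) / n) := by ring
  refine (Finset.sum_le_sum h2).trans ?_
  rw [← Finset.mul_sum, mul_comm]
  have h3 : ∑ n ∈ Icc 1 Z' \ Icc 1 Z, lp n * gs 1 x (Real.log n) / n
      ≤ ∑ n ∈ Icc 1 Z', lp n * gs 1 x (Real.log n) / n := by
    apply Finset.sum_le_sum_of_subset_of_nonneg Finset.sdiff_subset
    intro n _ _
    have hlp : 0 ≤ lp n := by
      unfold lp
      split_ifs
      · exact Real.log_natCast_nonneg n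
      · exact le_rfl
    have hgs0 : 0 ≤ gs 1 x (Real.log n) := (Real.exp_pos _).le
    positivity
  exact mul_le_mul_of_nonneg_right (h3.trans (hb Z' x)) (Real.exp_pos _).le

/-- PROOF. `T₀, M, L₀` from `z2tw` with `δ/200` (and `η`). Let `N = ⌈exp (M L)⌉₊`, `σ = 1/L`. By `WIN_tw` at `x + σ/4`:
`WIN (lpc χ) 2 (Icc 1 N) t x = exp (σ (x + σ/4) - σ²/8) WIN (tw σ (lpc χ)) 2 (Icc 1 N) t (x + σ/4)`, and the factor is
`≤ exp 2 ≤ 8` for `x ≤ L`; `x + σ/4 ∈ [η L, L + 1]`. So `∫_{[ηL, L]} ‖WIN (lpc χ) 2 (Icc 1 N)‖² ≤ 64 ∫_{[ηL, L+1]} ‖WIN (tw σ (lpc χ))‖² ≤ δ L / 3`.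
`Z, N ≥ exp (2L)`: the windows over `Icc 1 Z` and `Icc 1 N` differ by at most `∑_{n > exp (2L)} lp n gs 2 x (log n) / n
≤ exp (- L²) C` (`gs 2 = gs 1 gs 1`, `|x - log n| ≥ L`, `tb_prime 1`), whose square integrated over `[ηL, L]` is `≤ δ L / 8` for large `L`. -/
theorem z2 : ∀ W : ℕ, 1 ≤ W → ∀ η δ : ℝ, 0 < η → η ≤ 1 → 0 < δ → ∃ T₀ L₀ : ℝ, 1 ≤ T₀ ∧ 1 ≤ L₀ ∧
    ∀ L : ℝ, L₀ ≤ L → ∀ (χ : DirichletCharacter ℂ W) (t : ℝ), T₀ ≤ |t| → |t| ≤ Real.exp L → ∀ Z : ℕ,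
    Real.exp (2 * L) ≤ Z →
      ∫ x in Set.Icc (η * L) L, ‖WIN (lpc χ) 2 (Icc 1 Z) t x‖ ^ 2 ≤ δ * L := by
  obtain ⟨C, hC, htail⟩ := Y7b_tail
  intro W hW η δ hη hη1 hδ
  obtain ⟨T₀, M, L₀, hT₀, hM, hL₀, hz⟩ := z2tw W hW η (δ / 256) hη hη1 (by positivity)
  refine ⟨T₀, max L₀ (16 * C ^ 2 / δ), hT₀, hL₀.trans (le_max_left _ _), ?_⟩
  intro L hL χ t ht htL Z hZ
  have hLL : L₀ ≤ L := (le_max_left _ _).trans hL
  have hL1 : 1 ≤ L := hL₀.trans hLL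
  have hL0 : 0 < L := by linarith
  have hL2 : 16 * C ^ 2 / δ ≤ L := (le_max_right _ _).trans hL
  rw [div_le_iff₀ hδ] at hL2
  have hηL : η * L ≤ L := by nlinarith
  have hN : Real.exp (M * L) ≤ (⌈Real.exp (M * L)⌉₊ : ℝ) := Nat.le_ceil _
  set N : ℕ := ⌈Real.exp (M * L)⌉₊ with hNdef
  have h1 := hz L hLL χ t ht htL N hN
  have hN2 : Real.exp (2 * L) ≤ N := by
    refine le_trans (Real.exp_le_exp.mpr ?_) hN
    nlinarith
  -- pointwise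
  have hpt : ∀ x ∈ Set.Icc (η * L) L, ‖WIN (lpc χ) 2 (Icc 1 Z) t x‖ ^ 2
      ≤ 128 * ‖WIN (tw (1 / L) (lpc χ)) 2 (Icc 1 N) t (x + 1 / L / (2 * 2))‖ ^ 2 + δ / 2 := by
    intro x hx
    have h2 := htail W χ L t x Z (max Z N) hL1 hx.2 hZ (le_max_left _ _)
    have h3 := htail W χ L t x N (max Z N) hL1 hx.2 hN2 (le_max_right _ _)
    have h4 := Y7b_untwist (lpc χ) (Icc 1 N) L t x hL1 hx.2
    have h5 : ‖WIN (lpc χ) 2 (Icc 1 Z) t x‖ ≤
        8 * ‖WIN (tw (1 / L) (lpc χ)) 2 (Icc 1 N) t (x + 1 / L / (2 * 2))‖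
          + 2 * (C * Real.exp (-(L ^ 2))) := by
      have h6 : WIN (lpc χ) 2 (Icc 1 Z) t x
          = (WIN (lpc χ) 2 (Icc 1 (max Z N)) t x - WIN (lpc χ) 2 (Icc 1 N) t x)
            - (WIN (lpc χ) 2 (Icc 1 (max Z N)) t x - WIN (lpc χ) 2 (Icc 1 Z) t x)
            + WIN (lpc χ) 2 (Icc 1 N) t x := by ring
      rw [h6]
      refine (norm_add_le _ _).trans ?_
      have h7 := norm_sub_le (WIN (lpc χ) 2 (Icc 1 (max Z N)) t x - WIN (lpc χ) 2 (Icc 1 N) t x)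
        (WIN (lpc χ) 2 (Icc 1 (max Z N)) t x - WIN (lpc χ) 2 (Icc 1 Z) t x)
      linarith
    have h6 : (C * Real.exp (-(L ^ 2))) ^ 2 ≤ δ / 16 := by
      have h7 : Real.exp (-(L ^ 2)) ≤ 1 := by
        rw [Real.exp_le_one_iff]
        nlinarith
      have h8 : Real.exp (-(L ^ 2)) ≤ 1 / L := by
        rw [Real.exp_neg, one_div, inv_le_inv₀ (Real.exp_pos _) hL0]
        have := Real.add_one_le_exp (L ^ 2)
        nlinarith
      have h9 : (Real.exp (-(L ^ 2))) ^ 2 ≤ 1 / L := by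
        have := Real.exp_pos (-(L ^ 2))
        nlinarith
      calc (C * Real.exp (-(L ^ 2))) ^ 2 = C ^ 2 * (Real.exp (-(L ^ 2))) ^ 2 := by ring
        _ ≤ C ^ 2 * (1 / L) := by gcongr
        _ ≤ δ / 16 := by
          rw [mul_one_div, div_le_div_iff₀ hL0 (by norm_num)]
          linarith
    have h7 := norm_nonneg (WIN (lpc χ) 2 (Icc 1 Z) t x)
    have h8 : ‖WIN (lpc χ) 2 (Icc 1 Z) t x‖ ^ 2 ≤
        (8 * ‖WIN (tw (1 / L) (lpc χ)) 2 (Icc 1 N) t (x + 1 / L / (2 * 2))‖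
          + 2 * (C * Real.exp (-(L ^ 2)))) ^ 2 := pow_le_pow_left₀ h7 h5 2
    have h9 := sq_nonneg (8 * ‖WIN (tw (1 / L) (lpc χ)) 2 (Icc 1 N) t (x + 1 / L / (2 * 2))‖
          - 2 * (C * Real.exp (-(L ^ 2))))
    nlinarith
  have hint0 : Integrable (fun x : ℝ => ‖WIN (tw (1 / L) (lpc χ)) 2 (Icc 1 N) t x‖ ^ 2) :=
    (planch_WIN _ _ 2 t (by norm_num)).1
  have hint1 : Integrable (fun x : ℝ =>
      ‖WIN (tw (1 / L) (lpc χ)) 2 (Icc 1 N) t (x + 1 / L / (2 * 2))‖ ^ 2) :=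
    hint0.comp_add_right (1 / L / (2 * 2))
  have hint2 : Integrable (fun x : ℝ => ‖WIN (lpc χ) 2 (Icc 1 Z) t x‖ ^ 2) :=
    (planch_WIN _ _ 2 t (by norm_num)).1
  have hi1 : IntegrableOn (fun x : ℝ => 128 *
      ‖WIN (tw (1 / L) (lpc χ)) 2 (Icc 1 N) t (x + 1 / L / (2 * 2))‖ ^ 2) (Set.Icc (η * L) L) :=
    (hint1.const_mul 128).integrableOn
  have hi2 : IntegrableOn (fun _ : ℝ => δ / 2) (Set.Icc (η * L) L) :=
    ContinuousOn.integrableOn_compact isCompact_Icc continuousOn_const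
  refine (setIntegral_mono_on hint2.integrableOn (hi1.add hi2) measurableSet_Icc hpt).trans ?_
  have hsplit : ∫ x in Set.Icc (η * L) L, (128 *
      ‖WIN (tw (1 / L) (lpc χ)) 2 (Icc 1 N) t (x + 1 / L / (2 * 2))‖ ^ 2 + δ / 2)
      = 128 * (∫ x in Set.Icc (η * L + 1 / L / (2 * 2)) (L + 1 / L / (2 * 2)),
          ‖WIN (tw (1 / L) (lpc χ)) 2 (Icc 1 N) t x‖ ^ 2) + (L - η * L) * (δ / 2) := by
    rw [integral_add hi1 hi2, setIntegral_const, integral_const_mul, Real.volume_real_Icc_of_le hηL,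
      smul_eq_mul, Y7b_shift (fun x => ‖WIN (tw (1 / L) (lpc χ)) 2 (Icc 1 N) t x‖ ^ 2) _ _ _ hηL]
  refine (le_of_eq hsplit).trans ?_
  have hL4 : 1 / L / (2 * 2) ≤ 1 := by
    rw [div_div, div_le_one (by positivity)]
    linarith
  have hL5 : 0 ≤ 1 / L / (2 * 2) := by positivity
  have h2 : ∫ x in Set.Icc (η * L + 1 / L / (2 * 2)) (L + 1 / L / (2 * 2)),
          ‖WIN (tw (1 / L) (lpc χ)) 2 (Icc 1 N) t x‖ ^ 2
      ≤ ∫ x in Set.Icc (η * L) (L + 1), ‖WIN (tw (1 / L) (lpc χ)) 2 (Icc 1 N) t x‖ ^ 2 := by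
    apply setIntegral_mono_set hint0.integrableOn
    · exact Filter.Eventually.of_forall fun x => sq_nonneg _
    · exact (Set.Icc_subset_Icc (by linarith) (by linarith)).eventuallyLE
  have h3 : (L - η * L) * (δ / 2) ≤ L * (δ / 2) := by
    apply mul_le_mul_of_nonneg_right _ (by positivity)
    nlinarith
  linarith

end Pool.Agent.E3
end

section

/-!
# Y8: primes in sharp intervals
-/

set_option autoImplicit false

namespace Pool.Agent.E3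

open Finset MeasureTheory Real

/-- the coefficients `a(n)` restricted to `N₁ < n ≤ N₂` -/
noncomputable def cu (N₁ N₂ : ℕ) (a : ℕ → ℂ) (n : ℕ) : ℂ := if N₁ < n ∧ n ≤ N₂ then a n else 0

/-- PROOF. `Finset.sum_filter`. -/
theorem WIN_cu (N₁ N₂ : ℕ) (a : ℕ → ℂ) (β : ℝ) (S : Finset ℕ) (t x : ℝ) :
    WIN (cu N₁ N₂ a) β S t x = WIN a β (S.filter (fun n => N₁ < n ∧ n ≤ N₂)) t x := by
  unfold WIN cu
  rw [Finset.sum_filter]
  refine Finset.sum_congr rfl fun n _ => ?_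
  split_ifs
  · rfl
  · rw [zero_mul, zero_mul]

private lemma Y8_DP_cu (N₁ N₂ : ℕ) (a : ℕ → ℂ) (S : Finset ℕ) (t : ℝ) :
    DP (cu N₁ N₂ a) S t = DP a (S.filter (fun n => N₁ < n ∧ n ≤ N₂)) t := by
  unfold DP cu
  rw [Finset.sum_filter]
  refine Finset.sum_congr rfl fun n _ => ?_
  split_ifs
  · rfl
  · rw [zero_mul, zero_mul]

private lemma Y8_lp_nonneg (n : ℕ) : 0 ≤ lp n := by
  unfold lp
  split_ifs
  · exact Real.log_natCast_nonneg n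
  · exact le_rfl

private lemma Y8_norm_lpc {W : ℕ} (χ : DirichletCharacter ℂ W) (n : ℕ) : ‖lpc χ n‖ ≤ lp n := by
  unfold lpc ch
  rw [norm_mul, Complex.norm_real, Real.norm_of_nonneg (Y8_lp_nonneg n)]
  exact mul_le_of_le_one_right (Y8_lp_nonneg n) (DirichletCharacter.norm_le_one χ _)

private lemma Y8_lpc_zero {W : ℕ} (χ : DirichletCharacter ℂ W) (n : ℕ) (hn : ¬ n.Prime) :
    lpc χ n = 0 := by
  unfold lpc lp
  rw [if_neg hn, Complex.ofReal_zero, zero_mul]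

open Classical in
private lemma Y8_mem_RS (z N n : ℕ) : n ∈ RS z N ↔ 2 ≤ n ∧ n ≤ N ∧
    Pool.Agent.Lib.MP_bae66e_nt.AP3.Rough z n := by
  unfold RS
  rw [Finset.mem_filter, Finset.mem_Icc, and_assoc]

private lemma Y8_WIN_eq {W : ℕ} (χ : DirichletCharacter ℂ W) (z N₁ N₂ N Z : ℕ) (hz : z ≤ N₁)
    (hN : N₂ ≤ N) (hZ : N₂ ≤ Z) (β t x : ℝ) :
    WIN (lpc χ) β ((RS z N).filter (fun n => N₁ < n ∧ n ≤ N₂)) t x =
      WIN (lpc χ) β ((Icc 1 Z).filter (fun n => N₁ < n ∧ n ≤ N₂)) t x := by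
  unfold WIN
  apply Finset.sum_subset
  · intro n hn
    rw [Finset.mem_filter, Y8_mem_RS] at hn
    rw [Finset.mem_filter, Finset.mem_Icc]
    exact ⟨⟨by omega, by omega⟩, hn.2⟩
  · intro n hn hn'
    rw [Finset.mem_filter, Finset.mem_Icc] at hn
    have hnp : ¬ n.Prime := by
      intro hp
      apply hn'
      rw [Finset.mem_filter, Y8_mem_RS]
      refine ⟨⟨hp.two_le, by omega, ?_⟩, hn.2⟩
      intro p hpp hpn
      have : p = n := (Nat.prime_dvd_prime_iff_eq hpp hp).mp hpn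
      omega
    rw [Y8_lpc_zero χ n hnp, zero_mul, zero_mul]

/-- PROOF. `T₀, L₀` from `z2` with `η` and `δ/4`; `Z = ⌈exp (2L)⌉₊`, `C` from `tb_prime 1`. `lpc` is supported on the primes, and a prime
`p` with `N₁ < p ≤ N₂` is in `RS z N` and in `Icc 1 Z`; so (`WIN_cu`) `WIN (cu N₁ N₂ (lpc χ)) 2 (RS z N) t x
= WIN (lpc χ) 2 ((Icc 1 Z).filter (N₁ < · ∧ · ≤ N₂)) t x`. `cut_WIN` with `τ = C`: the integral is
`≤ 2 ∫_{[log N₁, log N₂]} + 10 C² ≤ (δ/2) L + 10 C² ≤ δ L` for large `L`. -/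
theorem z2cut : ∀ W : ℕ, 1 ≤ W → ∀ η δ : ℝ, 0 < η → η ≤ 1 → 0 < δ → ∃ T₀ L₀ : ℝ, 1 ≤ T₀ ∧ 1 ≤ L₀ ∧
    ∀ L : ℝ, L₀ ≤ L → ∀ (χ : DirichletCharacter ℂ W) (t : ℝ), T₀ ≤ |t| → |t| ≤ Real.exp L →
    ∀ z N₁ N₂ N : ℕ, Real.exp (η * L) ≤ N₁ → z ≤ N₁ → N₁ ≤ N₂ → N₂ ≤ N → (N₂ : ℝ) ≤ Real.exp L →
      ∫ x : ℝ, ‖WIN (cu N₁ N₂ (lpc χ)) 2 (RS z N) t x‖ ^ 2 ≤ δ * L := by
  intro W hW η δ hη hη1 hδ
  obtain ⟨T₀, L₀', hT₀, hL₀', hz2⟩ := z2 W hW η (δ / 4) hη hη1 (by positivity)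
  obtain ⟨C, hC, hprime⟩ := tb_prime 1 one_pos
  refine ⟨T₀, max L₀' (20 * C ^ 2 / δ), hT₀, le_max_of_le_left hL₀', ?_⟩
  intro L hL χ t ht1 ht2 z N₁ N₂ N hηN hzN hN12 hN2 hN2L
  have hL1 : L₀' ≤ L := (le_max_left _ _).trans hL
  have hL2 : 20 * C ^ 2 / δ ≤ L := (le_max_right _ _).trans hL
  have hLC : 20 * C ^ 2 ≤ δ * L := by
    rw [div_le_iff₀ hδ] at hL2
    linarith
  have hLpos : 1 ≤ L := hL₀'.trans hL1
  set Z : ℕ := ⌈Real.exp (2 * L)⌉₊ with hZ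
  have hZe : Real.exp (2 * L) ≤ Z := Nat.le_ceil _
  have hN1pos : 1 ≤ N₁ := by
    have h1 : (0 : ℝ) < N₁ := lt_of_lt_of_le (Real.exp_pos _) hηN
    exact_mod_cast h1
  have hN2pos : (0 : ℝ) < N₂ := by exact_mod_cast (by omega : 0 < N₂)
  have hN2Z : N₂ ≤ Z := by
    have h1 : (N₂ : ℝ) ≤ Z := by
      calc (N₂ : ℝ) ≤ Real.exp L := hN2L
        _ ≤ Real.exp (2 * L) := Real.exp_le_exp.mpr (by linarith)
        _ ≤ Z := hZe
    exact_mod_cast h1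
  have hτ : ∀ x : ℝ, ∑ n ∈ Icc 1 Z, ‖lpc χ n‖ * gs 1 x (Real.log n) / n ≤ C := by
    intro x
    refine le_trans (Finset.sum_le_sum fun n _ => ?_) (hprime Z x)
    apply div_le_div_of_nonneg_right _ (Nat.cast_nonneg n)
    exact mul_le_mul_of_nonneg_right (Y8_norm_lpc χ n) (Real.exp_pos _).le
  have hcut := cut_WIN (lpc χ) (Icc 1 Z) t C N₁ N₂ hN1pos hN12
    (fun n hn => (Finset.mem_Icc.mp hn).1) hτ
  have hint := (planch_WIN (lpc χ) (Icc 1 Z) 2 t (by norm_num)).1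
  have hsub : Set.Icc (Real.log N₁) (Real.log N₂) ⊆ Set.Icc (η * L) L := by
    apply Set.Icc_subset_Icc
    · rw [Real.le_log_iff_exp_le (by exact_mod_cast hN1pos)]
      exact hηN
    · rw [Real.log_le_iff_le_exp hN2pos]
      exact hN2L
  have hmono : ∫ x in Set.Icc (Real.log N₁) (Real.log N₂), ‖WIN (lpc χ) 2 (Icc 1 Z) t x‖ ^ 2 ≤
      ∫ x in Set.Icc (η * L) L, ‖WIN (lpc χ) 2 (Icc 1 Z) t x‖ ^ 2 :=
    setIntegral_mono_set hint.integrableOn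
      (Filter.Eventually.of_forall fun x => sq_nonneg _) hsub.eventuallyLE
  have hz2' := hz2 L hL1 χ t ht1 ht2 Z hZe
  have heq : ∀ x : ℝ, WIN (cu N₁ N₂ (lpc χ)) 2 (RS z N) t x =
      WIN (lpc χ) 2 ((Icc 1 Z).filter (fun n => N₁ < n ∧ n ≤ N₂)) t x := fun x => by
    rw [WIN_cu, Y8_WIN_eq χ z N₁ N₂ N Z hzN hN2 hN2Z]
  have hcongr : ∫ x : ℝ, ‖WIN (cu N₁ N₂ (lpc χ)) 2 (RS z N) t x‖ ^ 2 =
      ∫ x : ℝ, ‖WIN (lpc χ) 2 ((Icc 1 Z).filter (fun n => N₁ < n ∧ n ≤ N₂)) t x‖ ^ 2 := by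
    congr 1
    funext x
    rw [heq x]
  rw [hcongr]
  linarith

/-- PROOF. `z2cut` with `δ²/12` and `DP_le` for the set `(RS z N).filter (N₁ < · ∧ · ≤ N₂)`:
`√(3L) √(δ² L/12) = δ L / 2`, and `2 exp (-L) ∑ ‖lpc n‖ / n ≤ 2 exp (-L) L (1 + L) ≤ δ L / 2` for large `L`. -/
theorem dpcut : ∀ W : ℕ, 1 ≤ W → ∀ η δ : ℝ, 0 < η → η ≤ 1 → 0 < δ → ∃ T₀ L₀ : ℝ, 1 ≤ T₀ ∧ 1 ≤ L₀ ∧
    ∀ L : ℝ, L₀ ≤ L → ∀ (χ : DirichletCharacter ℂ W) (t : ℝ), T₀ ≤ |t| → |t| ≤ Real.exp L →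
    ∀ z N₁ N₂ N : ℕ, Real.exp (η * L) ≤ N₁ → z ≤ N₁ → N₁ ≤ N₂ → N₂ ≤ N → (N₂ : ℝ) ≤ Real.exp L →
      ‖DP (cu N₁ N₂ (lpc χ)) (RS z N) t‖ ≤ δ * L := by
  intro W hW η δ hη hη1 hδ
  obtain ⟨T₀, L₀', hT₀, hL₀', hz2⟩ := z2cut W hW η (δ ^ 2 / 12) hη hη1 (by positivity)
  refine ⟨T₀, max L₀' (4 / δ), hT₀, le_max_of_le_left hL₀', ?_⟩
  intro L hL χ t ht1 ht2 z N₁ N₂ N hηN hzN hN12 hN2 hN2L
  have hL1 : L₀' ≤ L := (le_max_left _ _).trans hL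
  have hL2 : 4 / δ ≤ L := (le_max_right _ _).trans hL
  have hLC : 4 ≤ δ * L := by
    rw [div_le_iff₀ hδ] at hL2
    linarith
  have hLpos : 1 ≤ L := hL₀'.trans hL1
  have hmain := hz2 L hL1 χ t ht1 ht2 z N₁ N₂ N hηN hzN hN12 hN2 hN2L
  have hmem : ∀ n ∈ (RS z N).filter (fun n => N₁ < n ∧ n ≤ N₂), 1 ≤ n ∧ Real.log n ≤ L := by
    intro n hn
    rw [Finset.mem_filter, Y8_mem_RS] at hn
    have hn0 : (0 : ℝ) < n := by exact_mod_cast (by omega : 0 < n)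
    refine ⟨by omega, ?_⟩
    rw [Real.log_le_iff_le_exp hn0]
    have h1 : (n : ℝ) ≤ N₂ := by exact_mod_cast hn.2.2
    linarith
  have hDP := DP_le (lpc χ) ((RS z N).filter (fun n => N₁ < n ∧ n ≤ N₂)) t L hLpos hmem
  have hcongr : ∫ x : ℝ, ‖WIN (lpc χ) 2 ((RS z N).filter (fun n => N₁ < n ∧ n ≤ N₂)) t x‖ ^ 2 =
      ∫ x : ℝ, ‖WIN (cu N₁ N₂ (lpc χ)) 2 (RS z N) t x‖ ^ 2 := by
    congr 1
    funext x
    rw [WIN_cu]
  rw [hcongr] at hDP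
  have h1 : Real.sqrt (3 * L) *
      Real.sqrt (∫ x : ℝ, ‖WIN (cu N₁ N₂ (lpc χ)) 2 (RS z N) t x‖ ^ 2) ≤ δ * L / 2 := by
    rw [← Real.sqrt_mul (by positivity)]
    apply Real.sqrt_le_iff.mpr
    refine ⟨by positivity, ?_⟩
    calc 3 * L * ∫ x : ℝ, ‖WIN (cu N₁ N₂ (lpc χ)) 2 (RS z N) t x‖ ^ 2
        ≤ 3 * L * (δ ^ 2 / 12 * L) := mul_le_mul_of_nonneg_left hmain (by linarith)
      _ = (δ * L / 2) ^ 2 := by ring
  have h2 : ∑ n ∈ (RS z N).filter (fun n => N₁ < n ∧ n ≤ N₂), ‖lpc χ n‖ / n ≤ Real.exp L := by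
    have hsub : (RS z N).filter (fun n => N₁ < n ∧ n ≤ N₂) ⊆ Icc 1 N₂ := by
      intro n hn
      have h3 := hmem n hn
      rw [Finset.mem_filter] at hn
      rw [Finset.mem_Icc]
      exact ⟨h3.1, hn.2.2⟩
    calc ∑ n ∈ (RS z N).filter (fun n => N₁ < n ∧ n ≤ N₂), ‖lpc χ n‖ / n
        ≤ ∑ n ∈ (RS z N).filter (fun n => N₁ < n ∧ n ≤ N₂), (1 : ℝ) := by
          refine Finset.sum_le_sum fun n hn => ?_
          have hn0 : (0 : ℝ) < n := by exact_mod_cast (hmem n hn).1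
          rw [div_le_one hn0]
          refine (Y8_norm_lpc χ n).trans ?_
          unfold lp
          split_ifs
          · have := Real.log_le_sub_one_of_pos hn0
            linarith
          · exact hn0.le
      _ = (((RS z N).filter (fun n => N₁ < n ∧ n ≤ N₂)).card : ℝ) := by
          rw [Finset.sum_const, nsmul_eq_mul, mul_one]
      _ ≤ ((Icc 1 N₂).card : ℝ) := by exact_mod_cast Finset.card_le_card hsub
      _ = N₂ := by rw [Nat.card_Icc, Nat.add_sub_cancel]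
      _ ≤ Real.exp L := hN2L
  have h3 : 2 * Real.exp (-L) *
      ∑ n ∈ (RS z N).filter (fun n => N₁ < n ∧ n ≤ N₂), ‖lpc χ n‖ / n ≤ 2 := by
    calc 2 * Real.exp (-L) *
        ∑ n ∈ (RS z N).filter (fun n => N₁ < n ∧ n ≤ N₂), ‖lpc χ n‖ / n
        ≤ 2 * Real.exp (-L) * Real.exp L :=
          mul_le_mul_of_nonneg_left h2 (mul_nonneg (by norm_num) (Real.exp_pos _).le)
      _ = 2 := by
          rw [mul_assoc, ← Real.exp_add, neg_add_cancel, Real.exp_zero, mul_one]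
  rw [Y8_DP_cu]
  linarith

end Pool.Agent.E3
end
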