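import Pool.Agent.Lib.MP_bae66e_nt.Mg.G022
import Pool.Agent.Lib.MP_bae66e_nt.Mg.G004
import Pool.Agent.Lib.MP_bae66e_nt.Mg.G027
import Pool.Agent.Lib.MP_bae66e_nt.Mg.G023

section

/-!
# Q1: error terms at well spaced points
-/

set_option autoImplicit false

namespace Pool.Agent.E3

open Finset MeasureTheory Real

open Classical in
private lemma Q1_mem_RS (z N n : ℕ) : n ∈ RS z N ↔
    2 ≤ n ∧ n ≤ N ∧ Pool.Agent.Lib.MP_bae66e_nt.AP3.Rough z n := by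
  unfold RS
  rw [Finset.mem_filter, Finset.mem_Icc]
  tauto

private lemma Q1_mem_QS (X n : ℕ) : n ∈ QS X ↔ Nat.sqrt X < n ∧ n ≤ X ^ 2 ∧ n.Prime := by
  unfold QS
  rw [Pool.Agent.Lib.MP_bae66e_nt.AP3.mem_prI]
  tauto

private lemma Q1_prime_rough {z n : ℕ} (hn : n.Prime) (hz : z < n) :
    Pool.Agent.Lib.MP_bae66e_nt.AP3.Rough z n := by
  intro p hp hpn
  rw [(Nat.prime_dvd_prime_iff_eq hp hn).1 hpn]
  exact hz

private lemma Q1_QS_sub {z X : ℕ} (hz : z ≤ Nat.sqrt X) : QS X ⊆ RS z (X ^ 2) := by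
  intro n hn
  rw [Q1_mem_QS] at hn
  rw [Q1_mem_RS]
  exact ⟨hn.2.2.two_le, hn.2.1, Q1_prime_rough hn.2.2 (lt_of_le_of_lt hz hn.1)⟩

private lemma Q1_gs_nonneg (β x y : ℝ) : 0 ≤ gs β x y := (Real.exp_pos _).le

/-- PROOF. `dual_rough` with `β = 1`, `b n = x - log n + ep n` (real), and `tb_err 1` (`k = 2`). -/
theorem q_err : ∃ θ : ℝ, 0 < θ ∧ θ ≤ 1 / 20 ∧ ∃ b0 : ℕ, ∃ C : ℝ, 1 ≤ C ∧
    ∀ W : ℕ, 1 ≤ W → ∃ X₀ : ℕ, ∀ X : ℕ, X₀ ≤ X → ∀ (χ : DirichletCharacter ℂ W) (z : ℕ), 2 ≤ z → W ≤ z →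
    ∀ x : ℝ, 0.45 * Real.log X ≤ x → (8 * b0 + 12) * Real.log z ≤ x → x ≤ Real.sqrt z →
    ∀ T : Finset ℝ, Spaced T → (∀ t ∈ T, |t| ≤ X) → (#T : ℝ) ≤ (X : ℝ) ^ θ → ∀ N : ℕ,
      ∑ t ∈ T, ‖WIN (fun n => ((x - Real.log n + ep n : ℝ) : ℂ) * ch χ n) 1 (RS z N) t x‖ ^ 2
        ≤ C / (Real.log z) ^ 2 := by
  obtain ⟨θ, hθ, hθ2, b0, hD⟩ := dual_rough
  obtain ⟨C₁, hC₁, hD⟩ := hD 1 one_pos
  obtain ⟨C₂, hC₂, hE⟩ := tb_err 1 one_pos
  refine ⟨θ, hθ, hθ2, b0, C₁ * C₂, one_le_mul_of_one_le_of_one_le hC₁ hC₂, fun W hW => ?_⟩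
  obtain ⟨X₀, hD⟩ := hD W hW
  refine ⟨X₀, fun X hX χ z hz hWz x hx1 hx2 hx3 T hT hTX hTc N => ?_⟩
  have h1 := hD X hX χ z hz hWz x hx1 hx2 T hT hTX hTc N
    (fun n => ((x - Real.log n + ep n : ℝ) : ℂ))
  have hlX : 0 ≤ Real.log (X : ℝ) := Real.log_natCast_nonneg X
  have hx0 : 0 ≤ x := le_trans (by positivity) hx1
  have h2 := (hE z N x hz hx0 hx3).2
  have hlz : 0 < Real.log z := Real.log_pos (by exact_mod_cast hz)
  refine h1.trans ?_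
  have h3 : ∑ n ∈ RS z N, ‖((x - Real.log n + ep n : ℝ) : ℂ)‖ ^ 2 * gs 1 x (Real.log n) / n ≤
      ∑ n ∈ RS z N, (|x - Real.log n| + ep n) ^ 2 * gs 1 x (Real.log n) / n := by
    refine Finset.sum_le_sum fun n hn => ?_
    rw [Q1_mem_RS] at hn
    have h4 := ep_nonneg n (by omega)
    have h5 : ‖((x - Real.log n + ep n : ℝ) : ℂ)‖ ≤ |x - Real.log n| + ep n := by
      rw [Complex.norm_real, Real.norm_eq_abs]
      exact (abs_add_le _ _).trans (by rw [abs_of_nonneg h4])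
    have h6 := pow_le_pow_left₀ (norm_nonneg _) h5 2
    exact div_le_div_of_nonneg_right (mul_le_mul_of_nonneg_right h6 (Q1_gs_nonneg _ _ _))
      (Nat.cast_nonneg n)
  calc C₁ / Real.log z *
        ∑ n ∈ RS z N, ‖((x - Real.log n + ep n : ℝ) : ℂ)‖ ^ 2 * gs 1 x (Real.log n) / n
      ≤ C₁ / Real.log z * (C₂ / Real.log z) :=
        mul_le_mul_of_nonneg_left (h3.trans h2) (by positivity)
    _ = C₁ * C₂ / (Real.log z) ^ 2 := by
      rw [div_mul_div_comm, sq]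

/-- PROOF. Let `b n = x - log n` for the primes `n` with `√X < n ≤ X²`, else `0`. For large `X` `z < √X`, so these primes are in
`RS z (X²)`, and `∑_{q ∈ QS X} (x - log q) F(q) = WIN (b · ch χ) 1 (RS z (X^2)) t x`; `dual_rough` with `β = 1`, `tb_rough2 1`. -/
theorem q_err2 : ∃ θ : ℝ, 0 < θ ∧ θ ≤ 1 / 20 ∧ ∃ b0 : ℕ, ∃ C : ℝ, 1 ≤ C ∧
    ∀ W : ℕ, 1 ≤ W → ∃ X₀ : ℕ, ∀ X : ℕ, X₀ ≤ X → ∀ (χ : DirichletCharacter ℂ W) (z : ℕ), 2 ≤ z → W ≤ z →
    z ≤ Nat.sqrt X →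
    ∀ x : ℝ, 0.45 * Real.log X ≤ x → (8 * b0 + 12) * Real.log z ≤ x →
    ∀ T : Finset ℝ, Spaced T → (∀ t ∈ T, |t| ≤ X) → (#T : ℝ) ≤ (X : ℝ) ^ θ →
      ∑ t ∈ T, ‖WIN (fun n => ((x - Real.log n : ℝ) : ℂ) * ch χ n) 1 (QS X) t x‖ ^ 2
        ≤ C / (Real.log z) ^ 2 := by
  classical
  obtain ⟨θ, hθ, hθ2, b0, hD⟩ := dual_rough
  obtain ⟨C₁, hC₁, hD⟩ := hD 1 one_pos
  obtain ⟨C₂, hC₂, hE⟩ := tb_rough2 1 one_pos
  refine ⟨θ, hθ, hθ2, b0, C₁ * C₂, one_le_mul_of_one_le_of_one_le hC₁ hC₂, fun W hW => ?_⟩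
  obtain ⟨X₀, hD⟩ := hD W hW
  refine ⟨X₀, fun X hX χ z hz hWz hzX x hx1 hx2 T hT hTX hTc => ?_⟩
  have h1 := hD X hX χ z hz hWz x hx1 hx2 T hT hTX hTc (X ^ 2)
    (fun n => if n ∈ QS X then ((x - Real.log n : ℝ) : ℂ) else 0)
  have h2 := hE z (X ^ 2) x hz
  have hlz : 0 < Real.log z := Real.log_pos (by exact_mod_cast hz)
  have hW2 : ∀ t ∈ T, ‖WIN (fun n => ((x - Real.log n : ℝ) : ℂ) * ch χ n) 1 (QS X) t x‖ ^ 2 =
      ‖WIN (fun n => (if n ∈ QS X then ((x - Real.log n : ℝ) : ℂ) else 0) * ch χ n) 1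
        (RS z (X ^ 2)) t x‖ ^ 2 := by
    intro t _
    congr 2
    unfold WIN
    rw [← Finset.sum_subset (Q1_QS_sub hzX)]
    · refine Finset.sum_congr rfl fun n hn => ?_
      beta_reduce
      rw [if_pos hn]
    · intro n _ hn
      beta_reduce
      rw [if_neg hn, zero_mul, zero_mul, zero_mul]
  rw [Finset.sum_congr rfl hW2]
  refine h1.trans ?_
  have h3 : ∑ n ∈ RS z (X ^ 2), ‖(if n ∈ QS X then ((x - Real.log n : ℝ) : ℂ) else 0)‖ ^ 2 *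
        gs 1 x (Real.log n) / n ≤
      ∑ n ∈ RS z (X ^ 2), (1 + (x - Real.log n) ^ 2) * gs 1 x (Real.log n) / n := by
    refine Finset.sum_le_sum fun n _ => ?_
    have h6 : ‖(if n ∈ QS X then ((x - Real.log n : ℝ) : ℂ) else 0)‖ ^ 2 ≤
        1 + (x - Real.log n) ^ 2 := by
      split_ifs
      · rw [Complex.norm_real, Real.norm_eq_abs, sq_abs]
        linarith
      · rw [norm_zero, zero_pow two_ne_zero]
        positivity
    exact div_le_div_of_nonneg_right (mul_le_mul_of_nonneg_right h6 (Q1_gs_nonneg _ _ _))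
      (Nat.cast_nonneg n)
  calc C₁ / Real.log z * ∑ n ∈ RS z (X ^ 2),
        ‖(if n ∈ QS X then ((x - Real.log n : ℝ) : ℂ) else 0)‖ ^ 2 * gs 1 x (Real.log n) / n
      ≤ C₁ / Real.log z * (C₂ / Real.log z) :=
        mul_le_mul_of_nonneg_left (h3.trans h2) (by positivity)
    _ = C₁ * C₂ / (Real.log z) ^ 2 := by
      rw [div_mul_div_comm, sq]

private lemma Q1_norm_ch {W : ℕ} (χ : DirichletCharacter ℂ W) (n : ℕ) : ‖ch χ n‖ ≤ 1 :=
  DirichletCharacter.norm_le_one χ _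

private lemma Q1_norm_ph (t y : ℝ) : ‖ph t y‖ = 1 := Complex.norm_exp_ofReal_mul_I _

private lemma Q1_lp_nonneg (n : ℕ) : 0 ≤ lp n := by
  unfold lp
  split_ifs
  · exact Real.log_natCast_nonneg n
  · exact le_rfl

/-- PROOF. For every `t`: `WIN (lpc χ) 1 (QS X) t x = WIN (lpc χ) 1 (RS z (X^2)) t x - ∑_{z < p ≤ √X}`, and for `p ≤ √X`
`x - log p ≥ 0.49 log X`, so the last sum is `≤ ∑ lp n gs 1 x (log n)/n ≤ exp (- (0.49 log X)²/2) ∑ lp n gs (1/2) x (log n)/n ≤ exp (- (log X)²/10) C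
≤ 1/X` for large `X` (`gs 1 = gs (1/2) gs (1/2)`, `tb_prime (1/2)`). -/
theorem q_cut : ∃ X₀ : ℕ, ∀ X : ℕ, X₀ ≤ X → ∀ (W : ℕ) (χ : DirichletCharacter ℂ W) (z : ℕ), 2 ≤ z →
    z ≤ Nat.sqrt X → ∀ x t : ℝ, 0.99 * Real.log X ≤ x →
      ‖WIN (lpc χ) 1 (QS X) t x - WIN (lpc χ) 1 (RS z (X ^ 2)) t x‖ ≤ 1 / X := by
  classical
  obtain ⟨C, hC, hP⟩ := tb_prime (1 / 2) (by norm_num)
  refine ⟨⌈Real.exp (20 + C)⌉₊, fun X hX W χ z hz hzX x t hx => ?_⟩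
  have hXe : Real.exp (20 + C) ≤ (X : ℝ) := (Nat.le_ceil _).trans (by exact_mod_cast hX)
  have hX0 : (0 : ℝ) < X := lt_of_lt_of_le (Real.exp_pos _) hXe
  have hL : 20 + C ≤ Real.log X := (Real.le_log_iff_exp_le hX0).2 hXe
  have hsub := Q1_QS_sub (X := X) hzX
  have h1 : WIN (lpc χ) 1 (RS z (X ^ 2)) t x = WIN (lpc χ) 1 (QS X) t x +
      WIN (lpc χ) 1 (RS z (X ^ 2) \ QS X) t x := by
    unfold WIN
    rw [add_comm, Finset.sum_sdiff hsub]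
  rw [h1, sub_add_cancel_left, norm_neg]
  have h2 : ∀ n ∈ RS z (X ^ 2) \ QS X,
      ‖lpc χ n * ph t (Real.log n) * (((gs 1 x (Real.log n) / n : ℝ)) : ℂ)‖ ≤
        Real.exp (-((0.49 * Real.log X) ^ 2 / 2)) *
          (lp n * gs (1 / 2) x (Real.log n) / n) := by
    intro n hn
    rw [Finset.mem_sdiff, Q1_mem_RS, Q1_mem_QS] at hn
    obtain ⟨⟨hn2, hnX, hrough⟩, hnQ⟩ := hn
    have hn0 : (0 : ℝ) < n := by exact_mod_cast (by omega : 0 < n)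
    have hg := Q1_gs_nonneg 1 x (Real.log n)
    have hg2 := Q1_gs_nonneg (1 / 2) x (Real.log n)
    rw [norm_mul, norm_mul, Q1_norm_ph, mul_one, Complex.norm_real, Real.norm_of_nonneg
      (by positivity)]
    have h3 : ‖lpc χ n‖ ≤ lp n := by
      unfold lpc
      rw [norm_mul, Complex.norm_real, Real.norm_of_nonneg (Q1_lp_nonneg n)]
      exact mul_le_of_le_one_right (Q1_lp_nonneg n) (Q1_norm_ch χ n)
    by_cases hp : n.Prime
    · have hle : n ≤ Nat.sqrt X := by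
        by_contra h
        exact hnQ ⟨not_le.1 h, hnX, hp⟩
      have hnn : n * n ≤ X := by
        have := Nat.mul_le_mul hle hle
        exact this.trans (Nat.sqrt_le X)
      have hlog : 2 * Real.log n ≤ Real.log X := by
        have h4 : Real.log ((n : ℝ) * n) ≤ Real.log X := by
          apply Real.log_le_log (by positivity)
          exact_mod_cast hnn
        rw [Real.log_mul hn0.ne' hn0.ne'] at h4
        linarith
      have hgg : gs 1 x (Real.log n) ≤ Real.exp (-((0.49 * Real.log X) ^ 2 / 2)) *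
          gs (1 / 2) x (Real.log n) := by
        unfold gs
        rw [← Real.exp_add]
        apply Real.exp_le_exp.2
        have h5 : 0.49 * Real.log X ≤ x - Real.log n := by linarith
        have h6 : (0.49 * Real.log X) ^ 2 ≤ (x - Real.log n) ^ 2 :=
          pow_le_pow_left₀ (by linarith) h5 2
        linarith
      calc ‖lpc χ n‖ * (gs 1 x (Real.log n) / n)
          ≤ lp n * ((Real.exp (-((0.49 * Real.log X) ^ 2 / 2)) *
            gs (1 / 2) x (Real.log n)) / n) := by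
            gcongr
            exact Q1_lp_nonneg n
        _ = _ := by ring
    · have h4 : lp n = 0 := by
        unfold lp
        rw [if_neg hp]
      have h5 : ‖lpc χ n‖ = 0 := le_antisymm (h4 ▸ h3) (norm_nonneg _)
      rw [h5, h4]
      simp
  have h3 : ‖WIN (lpc χ) 1 (RS z (X ^ 2) \ QS X) t x‖ ≤
      Real.exp (-((0.49 * Real.log X) ^ 2 / 2)) * C := by
    unfold WIN
    refine (norm_sum_le _ _).trans ((Finset.sum_le_sum h2).trans ?_)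
    rw [← Finset.mul_sum]
    apply mul_le_mul_of_nonneg_left _ (Real.exp_pos _).le
    refine le_trans (Finset.sum_le_sum_of_subset_of_nonneg ?_ ?_) (hP (X ^ 2) x)
    · intro n hn
      rw [Finset.mem_sdiff, Q1_mem_RS] at hn
      rw [Finset.mem_Icc]
      omega
    · intro n _ _
      have := Q1_lp_nonneg n
      have := Q1_gs_nonneg (1 / 2) x (Real.log n)
      positivity
  refine h3.trans ?_
  have h4 : (1 : ℝ) / X = Real.exp (-Real.log X) := by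
    rw [Real.exp_neg, Real.exp_log hX0, one_div]
  rw [h4]
  have h5 : C ≤ Real.exp C := by linarith [Real.add_one_le_exp C]
  calc Real.exp (-((0.49 * Real.log X) ^ 2 / 2)) * C
      ≤ Real.exp (-((0.49 * Real.log X) ^ 2 / 2)) * Real.exp C := by gcongr
    _ = Real.exp (-((0.49 * Real.log X) ^ 2 / 2) + C) := by rw [Real.exp_add]
    _ ≤ Real.exp (-Real.log X) := by
      apply Real.exp_le_exp.2
      nlinarith

end Pool.Agent.E3
end

section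

/-!
# Q2a: duality for the long variable
-/

set_option autoImplicit false

namespace Pool.Agent.E3

open Finset MeasureTheory Real

open Classical in
private lemma Q2a_mem_RS (z N n : ℕ) : n ∈ RS z N ↔
    2 ≤ n ∧ n ≤ N ∧ Pool.Agent.Lib.MP_bae66e_nt.AP3.Rough z n := by
  unfold RS
  rw [Finset.mem_filter, Finset.mem_Icc]
  tauto

private lemma Q2a_gs_nonneg (β x y : ℝ) : 0 ≤ gs β x y := (Real.exp_pos _).le

private lemma Q2a_lp_nonneg (n : ℕ) : 0 ≤ lp n := by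
  unfold lp
  split_ifs
  · exact Real.log_natCast_nonneg n
  · exact le_rfl

private lemma Q2a_lp_le (n : ℕ) : lp n ≤ Real.log n := by
  unfold lp
  split_ifs
  · exact le_rfl
  · exact Real.log_natCast_nonneg n

private lemma Q2a_log_le {z X n : ℕ} (hn : n ∈ RS z (X ^ 2)) : Real.log n ≤ 2 * Real.log X := by
  rw [Q2a_mem_RS] at hn
  have h1 : (n : ℝ) ≤ (X : ℝ) ^ 2 := by exact_mod_cast hn.2.1
  have h2 : (0 : ℝ) < n := by exact_mod_cast (by omega : 0 < n)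
  have h3 := Real.log_le_log h2 h1
  rw [Real.log_pow] at h3
  exact_mod_cast h3

/-- the sums over the rough integers -/
private lemma Q2a_sum : ∃ C : ℝ, 1 ≤ C ∧ ∀ (z X : ℕ), 2 ≤ z → 1 ≤ Real.log X →
    ∑ n ∈ RS z (X ^ 2), 1 / (n : ℝ) ≤ C * Real.log X / Real.log z ∧
    ∑ n ∈ RS z (X ^ 2), lp n / (n : ℝ) ≤ C * Real.log X := by
  obtain ⟨C₂, hC₂, hS⟩ := win_sum 2 two_pos
  obtain ⟨C₃, hC₃, hR⟩ := tb_rough 2 two_pos
  obtain ⟨C₄, hC₄, hP⟩ := tb_prime 2 two_pos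
  refine ⟨3 * C₂ * (C₃ + C₄), ?_, ?_⟩
  · have : 1 ≤ C₂ * C₃ := one_le_mul_of_one_le_of_one_le hC₂ hC₃
    have : 0 ≤ C₂ * C₄ := by positivity
    nlinarith
  intro z X hz hL
  have hlz : 0 < Real.log z := Real.log_pos (by exact_mod_cast hz)
  have hL0 : 0 < Real.log X := by linarith
  have hmem : ∀ n ∈ RS z (X ^ 2), 1 ≤ n ∧ Real.log n ≤ 2 * Real.log X := fun n hn =>
    ⟨by
      rw [Q2a_mem_RS] at hn
      omega, Q2a_log_le hn⟩
  constructor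
  · have h1 := hS (fun _ => 1) (RS z (X ^ 2)) (C₃ / Real.log z) (2 * Real.log X) (by positivity)
      hmem (fun x => by
        simp only [norm_one, one_mul]
        exact hR z (X ^ 2) x hz)
    simp only [norm_one] at h1
    refine h1.trans ?_
    calc C₂ * (C₃ / Real.log z) * (2 * Real.log X + 1)
        ≤ C₂ * (C₃ / Real.log z) * (3 * Real.log X) := by
          gcongr
          linarith
      _ = 3 * C₂ * C₃ * Real.log X / Real.log z := by ring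
      _ ≤ 3 * C₂ * (C₃ + C₄) * Real.log X / Real.log z := by
          gcongr
          linarith
  · have h1 := hS (fun n => ((lp n : ℝ) : ℂ)) (RS z (X ^ 2)) C₄ (2 * Real.log X) (by positivity)
      hmem (fun x => by
        refine le_trans ?_ (hP (X ^ 2) x)
        have h2 : ∀ n : ℕ, ‖((lp n : ℝ) : ℂ)‖ = lp n := fun n => by
          rw [Complex.norm_real, Real.norm_of_nonneg (Q2a_lp_nonneg n)]
        simp only [h2]
        refine Finset.sum_le_sum_of_subset_of_nonneg ?_ ?_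
        · intro n hn
          rw [Q2a_mem_RS] at hn
          rw [Finset.mem_Icc]
          omega
        · intro n _ _
          have := Q2a_lp_nonneg n
          have := Q2a_gs_nonneg 2 x (Real.log n)
          positivity)
    have h2 : ∀ n : ℕ, ‖((lp n : ℝ) : ℂ)‖ = lp n := fun n => by
      rw [Complex.norm_real, Real.norm_of_nonneg (Q2a_lp_nonneg n)]
    simp only [h2] at h1
    refine h1.trans ?_
    calc C₂ * C₄ * (2 * Real.log X + 1) ≤ C₂ * C₄ * (3 * Real.log X) := by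
          gcongr
          linarith
      _ = 3 * C₂ * C₄ * Real.log X := by ring
      _ ≤ 3 * C₂ * (C₃ + C₄) * Real.log X := by
          gcongr
          linarith

private lemma Q2a_large {X : ℕ} (hX : ⌈Real.exp 18⌉₊ ≤ X) :
    18 ≤ Real.log X ∧ 9 * Real.log X ≤ X ∧ (0 : ℝ) < X := by
  have h1 : Real.exp 18 ≤ (X : ℝ) := (Nat.le_ceil _).trans (by exact_mod_cast hX)
  have h0 : (0 : ℝ) < X := lt_of_lt_of_le (Real.exp_pos _) h1
  have h2 : 18 ≤ Real.log X := (Real.le_log_iff_exp_le h0).2 h1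
  refine ⟨h2, ?_, h0⟩
  have h3 := Real.quadratic_le_exp_of_nonneg (show 0 ≤ Real.log X by linarith)
  rw [Real.exp_log h0] at h3
  nlinarith

/-- PROOF. `dual_int` with `b n = 1` for `M₀ < n ≤ X²` and `0` otherwise (`M₀ = ⌊X^0.47⌋`, so `log n ≥ 0.47 log X` if `n > M₀`):
`cu M₀ (X²) (ch χ) n = b n ch χ n`. `∑_{n ∈ RS z (X²)} 1/n ≤ C (2 log X + 1)/log z` (`win_sum 2` with `a = 1`, `tb_rough 2`),
`(1/X)(1 + 2 log X)² ≤ 1/log X`; and `log z ≤ log X`. -/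
theorem long_rough : ∃ θ : ℝ, 0 < θ ∧ θ ≤ 1 / 20 ∧ ∃ b0 : ℕ, ∃ C : ℝ, 1 ≤ C ∧
    ∀ W : ℕ, 1 ≤ W → ∃ X₀ : ℕ, ∀ X : ℕ, X₀ ≤ X → ∀ (χ : DirichletCharacter ℂ W) (z : ℕ), 2 ≤ z → W ≤ z →
    (8 * b0 + 12) * Real.log z ≤ 0.45 * Real.log X →
    ∀ T : Finset ℝ, Spaced T → (∀ t ∈ T, |t| ≤ X) → (#T : ℝ) ≤ (X : ℝ) ^ θ →
      ∑ t ∈ T, ∫ x : ℝ, ‖WIN (cu ⌊(X : ℝ) ^ (0.47 : ℝ)⌋₊ (X ^ 2) (ch χ)) 2 (RS z (X ^ 2)) t x‖ ^ 2
        ≤ C * Real.log X / (Real.log z) ^ 2 := by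
  classical
  obtain ⟨θ, hθ, hθ2, b0, C₁, hC₁, hD⟩ := dual_int
  obtain ⟨C₂, hC₂, hS⟩ := Q2a_sum
  refine ⟨θ, hθ, hθ2, b0, C₁ * C₂ + C₂ ^ 2, by nlinarith, fun W hW => ?_⟩
  obtain ⟨X₀, hD⟩ := hD W hW
  refine ⟨max X₀ ⌈Real.exp 18⌉₊, fun X hX χ z hz hWz hzL T hT hTX hTc => ?_⟩
  obtain ⟨hL18, hXL, hX0⟩ := Q2a_large ((le_max_right _ _).trans hX)
  have hlz : 0 < Real.log z := Real.log_pos (by exact_mod_cast hz)
  obtain ⟨hs1, -⟩ := hS z X hz (by linarith)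
  have hL0 : 0 < Real.log X := by linarith
  obtain ⟨b, hb⟩ : ∃ b : ℕ → ℂ, b = fun n =>
      if ⌊(X : ℝ) ^ (0.47 : ℝ)⌋₊ < n ∧ n ≤ X ^ 2 then 1 else 0 := ⟨_, rfl⟩
  have hcu : cu ⌊(X : ℝ) ^ (0.47 : ℝ)⌋₊ (X ^ 2) (ch χ) = fun n => b n * ch χ n := by
    funext n
    rw [hb]
    unfold cu
    beta_reduce
    split_ifs <;> simp
  have hb0 : ∀ n, b n ≠ 0 → 0.47 * Real.log X ≤ Real.log n := by
    intro n hn
    rw [hb] at hn
    beta_reduce at hn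
    have h1 : ⌊(X : ℝ) ^ (0.47 : ℝ)⌋₊ < n ∧ n ≤ X ^ 2 := by
      by_contra h
      rw [if_neg h] at hn
      exact hn rfl
    have h2 : (X : ℝ) ^ (0.47 : ℝ) < n := Nat.lt_of_floor_lt h1.1
    have h3 := Real.log_le_log (Real.rpow_pos_of_pos hX0 _) h2.le
    rwa [Real.log_rpow hX0] at h3
  have hbn : ∀ n, ‖b n‖ ≤ 1 := by
    intro n
    rw [hb]
    beta_reduce
    split_ifs <;> simp
  have h1 := hD X ((le_max_left _ _).trans hX) χ z hz hWz hzL T hT hTX hTc (X ^ 2) b hb0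
  rw [hcu]
  refine h1.trans ?_
  have h2 : ∑ n ∈ RS z (X ^ 2), ‖b n‖ ^ 2 / n ≤ C₂ * Real.log X / Real.log z := by
    refine le_trans (Finset.sum_le_sum fun n _ => ?_) hs1
    have := hbn n
    gcongr
    nlinarith [norm_nonneg (b n)]
  have h3 : ∑ n ∈ RS z (X ^ 2), ‖b n‖ / n ≤ C₂ * Real.log X / Real.log z := by
    refine le_trans (Finset.sum_le_sum fun n _ => ?_) hs1
    have := hbn n
    gcongr
  have h30 : 0 ≤ ∑ n ∈ RS z (X ^ 2), ‖b n‖ / n :=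
    Finset.sum_nonneg fun n _ => div_nonneg (norm_nonneg _) (Nat.cast_nonneg n)
  have h4 : Real.log X ≤ X := by linarith
  calc C₁ / Real.log z * (∑ n ∈ RS z (X ^ 2), ‖b n‖ ^ 2 / n) +
        1 / X * (∑ n ∈ RS z (X ^ 2), ‖b n‖ / n) ^ 2
      ≤ C₁ / Real.log z * (C₂ * Real.log X / Real.log z) +
        1 / X * (C₂ * Real.log X / Real.log z) ^ 2 := by gcongr
    _ = (C₁ * C₂ * Real.log X + C₂ ^ 2 * Real.log X * (Real.log X / X)) / (Real.log z) ^ 2 := by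
      field_simp
    _ ≤ (C₁ * C₂ * Real.log X + C₂ ^ 2 * Real.log X * 1) / (Real.log z) ^ 2 := by
      gcongr
      exact (div_le_one hX0).2 h4
    _ = (C₁ * C₂ + C₂ ^ 2) * Real.log X / (Real.log z) ^ 2 := by ring

/-- PROOF. `dual_int` with `b n = lp n` for `√X < n ≤ X²` and `0` otherwise (`log n ≥ (1/2) log X`). `∑ (lp n)²/n ≤ 2 log X ∑_{n ≤ X²} lp n / n
≤ C (log X)²` (`win_sum 2` with `a = lp`, `tb_prime 2`), and `(1/X) (∑ lp n/n)² ≤ 1`. -/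
theorem long_prime : ∃ θ : ℝ, 0 < θ ∧ θ ≤ 1 / 20 ∧ ∃ b0 : ℕ, ∃ C : ℝ, 1 ≤ C ∧
    ∀ W : ℕ, 1 ≤ W → ∃ X₀ : ℕ, ∀ X : ℕ, X₀ ≤ X → ∀ (χ : DirichletCharacter ℂ W) (z : ℕ), 2 ≤ z → W ≤ z →
    (8 * b0 + 12) * Real.log z ≤ 0.45 * Real.log X →
    ∀ T : Finset ℝ, Spaced T → (∀ t ∈ T, |t| ≤ X) → (#T : ℝ) ≤ (X : ℝ) ^ θ →
      ∑ t ∈ T, ∫ x : ℝ, ‖WIN (cu (Nat.sqrt X) (X ^ 2) (lpc χ)) 2 (RS z (X ^ 2)) t x‖ ^ 2
        ≤ C * (Real.log X) ^ 2 / Real.log z := by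
  classical
  obtain ⟨θ, hθ, hθ2, b0, C₁, hC₁, hD⟩ := dual_int
  obtain ⟨C₂, hC₂, hS⟩ := Q2a_sum
  refine ⟨θ, hθ, hθ2, b0, 2 * C₁ * C₂ + C₂ ^ 2, by nlinarith, fun W hW => ?_⟩
  obtain ⟨X₀, hD⟩ := hD W hW
  refine ⟨max X₀ ⌈Real.exp 18⌉₊, fun X hX χ z hz hWz hzL T hT hTX hTc => ?_⟩
  obtain ⟨hL18, hXL, hX0⟩ := Q2a_large ((le_max_right _ _).trans hX)
  have hlz : 0 < Real.log z := Real.log_pos (by exact_mod_cast hz)
  obtain ⟨-, hs1⟩ := hS z X hz (by linarith)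
  have hL0 : 0 < Real.log X := by linarith
  obtain ⟨b, hb⟩ : ∃ b : ℕ → ℂ, b = fun n =>
      if Nat.sqrt X < n ∧ n ≤ X ^ 2 then ((lp n : ℝ) : ℂ) else 0 := ⟨_, rfl⟩
  have hcu : cu (Nat.sqrt X) (X ^ 2) (lpc χ) = fun n => b n * ch χ n := by
    funext n
    rw [hb]
    unfold cu lpc
    beta_reduce
    split_ifs <;> simp
  have hb0 : ∀ n, b n ≠ 0 → 0.47 * Real.log X ≤ Real.log n := by
    intro n hn
    rw [hb] at hn
    beta_reduce at hn
    have h1 : Nat.sqrt X < n ∧ n ≤ X ^ 2 := by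
      by_contra h
      rw [if_neg h] at hn
      exact hn rfl
    have h2 : X < n * n := Nat.sqrt_lt.1 h1.1
    have h3 : (X : ℝ) ≤ (n : ℝ) * n := by exact_mod_cast h2.le
    have hn0 : (n : ℝ) ≠ 0 := by
      have : n ≠ 0 := by omega
      exact_mod_cast this
    have h4 := Real.log_le_log hX0 h3
    rw [Real.log_mul hn0 hn0] at h4
    linarith
  have hbn : ∀ n, ‖b n‖ ≤ lp n := by
    intro n
    rw [hb]
    beta_reduce
    split_ifs
    · rw [Complex.norm_real, Real.norm_of_nonneg (Q2a_lp_nonneg n)]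
    · rw [norm_zero]
      exact Q2a_lp_nonneg n
  have h1 := hD X ((le_max_left _ _).trans hX) χ z hz hWz hzL T hT hTX hTc (X ^ 2) b hb0
  rw [hcu]
  refine h1.trans ?_
  have h2 : ∑ n ∈ RS z (X ^ 2), ‖b n‖ ^ 2 / n ≤ 2 * Real.log X * (C₂ * Real.log X) := by
    calc ∑ n ∈ RS z (X ^ 2), ‖b n‖ ^ 2 / n
        ≤ ∑ n ∈ RS z (X ^ 2), 2 * Real.log X * (lp n / n) := by
          refine Finset.sum_le_sum fun n hn => ?_
          have h5 := hbn n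
          have h6 := Q2a_lp_nonneg n
          have h7 := (Q2a_lp_le n).trans (Q2a_log_le hn)
          have h8 : ‖b n‖ ^ 2 ≤ 2 * Real.log X * lp n := by
            calc ‖b n‖ ^ 2 ≤ lp n ^ 2 := pow_le_pow_left₀ (norm_nonneg _) h5 2
              _ = lp n * lp n := sq _
              _ ≤ 2 * Real.log X * lp n := mul_le_mul_of_nonneg_right h7 h6
          rw [← mul_div_assoc]
          exact div_le_div_of_nonneg_right h8 (Nat.cast_nonneg n)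
      _ = 2 * Real.log X * ∑ n ∈ RS z (X ^ 2), lp n / (n : ℝ) := by rw [Finset.mul_sum]
      _ ≤ 2 * Real.log X * (C₂ * Real.log X) := by gcongr
  have h3 : ∑ n ∈ RS z (X ^ 2), ‖b n‖ / n ≤ C₂ * Real.log X := by
    refine le_trans (Finset.sum_le_sum fun n _ => ?_) hs1
    have := hbn n
    gcongr
  have h30 : 0 ≤ ∑ n ∈ RS z (X ^ 2), ‖b n‖ / n :=
    Finset.sum_nonneg fun n _ => div_nonneg (norm_nonneg _) (Nat.cast_nonneg n)
  have h4 : Real.log z ≤ X := by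
    have h5 : (0 : ℝ) ≤ b0 := Nat.cast_nonneg _
    nlinarith
  calc C₁ / Real.log z * (∑ n ∈ RS z (X ^ 2), ‖b n‖ ^ 2 / n) +
        1 / X * (∑ n ∈ RS z (X ^ 2), ‖b n‖ / n) ^ 2
      ≤ C₁ / Real.log z * (2 * Real.log X * (C₂ * Real.log X)) +
        1 / Real.log z * (C₂ * Real.log X) ^ 2 := by gcongr
    _ = (2 * C₁ * C₂ + C₂ ^ 2) * (Real.log X) ^ 2 / Real.log z := by ring

end Pool.Agent.E3
end
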