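import Pool.Agent.Lib.MP_bae66e_nt.Mg.G036
import Pool.Agent.Lib.MP_bae66e_nt.Mg.G032
import Pool.Agent.Lib.MP_bae66e_nt.Mg.G003

section

/-!
# P2: the window of one `s`
-/

set_option autoImplicit false

namespace Pool.Agent.E3

open Finset Real Filter
open Pool.Agent.Lib.MP_bae66e_nt.AP3 (prI mem_prI)

/-- PROOF. `|x - log (s q)| ≤ L` gives `(x - log (s q))²/(2 L²) ≤ 1/2`. And `log q - log Y = (log (s q) - x) + (x - log X) + (log (X/s) - log Y)`, the three terms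
are at most `1`, `1`, `log 4 ≤ 1.4` in absolute value, so `om Y q ≥ exp (- 3.4²) ≥ exp (-12)`. -/
theorem term_ge (X s q : ℕ) (Y x L : ℝ) (hX : 1 ≤ X) (hs : 1 ≤ s) (hq : 1 ≤ q) (hL : 0 < L) (hL1 : L ≤ 1)
    (hx : |x - Real.log X| ≤ 1) (hY1 : (X : ℝ) / s ≤ Y) (hY2 : Y ≤ 4 * X / s)
    (h : |x - Real.log (s * q)| ≤ L) :
    Real.exp (-12) / (s * q) * (1 / L * Real.exp (-(1 / 2))) ≤ om Y q / (s * q) * gsn L (x - Real.log (s * q)) := by
  have hX0 : (0 : ℝ) < X := by exact_mod_cast (by omega : 0 < X)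
  have hs0 : (0 : ℝ) < s := by exact_mod_cast (by omega : 0 < s)
  have hq0 : (0 : ℝ) < q := by exact_mod_cast (by omega : 0 < q)
  have hXs : (0 : ℝ) < X / s := div_pos hX0 hs0
  have hY0 : 0 < Y := lt_of_lt_of_le hXs hY1
  have h1 : Real.log X - Real.log s ≤ Real.log Y := by
    rw [← Real.log_div hX0.ne' hs0.ne']
    exact Real.log_le_log hXs hY1
  have h2 : Real.log Y ≤ 2 * Real.log 2 + Real.log X - Real.log s := by
    have e : 2 * Real.log 2 + Real.log X - Real.log s = Real.log (4 * X / s) := by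
      rw [Real.log_div (by positivity) hs0.ne', Real.log_mul (by norm_num) hX0.ne',
        show (4 : ℝ) = 2 ^ 2 by norm_num, Real.log_pow]
      push_cast
      ring
    rw [e]
    exact Real.log_le_log hY0 hY2
  have hlog2 := Real.log_two_lt_d9
  have hsq : Real.log (s * q) = Real.log s + Real.log q := Real.log_mul hs0.ne' hq0.ne'
  have h3 := abs_le.mp hx
  have h4 := abs_le.mp h
  rw [hsq] at h4
  have h5 : (Real.log Y - Real.log q) ^ 2 ≤ 12 := by
    have h6 : -3.4 ≤ Real.log Y - Real.log q := by norm_num; linarith [h3.1, h3.2, h4.1, h4.2]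
    have h7 : Real.log Y - Real.log q ≤ 3.4 := by norm_num; linarith [h3.1, h3.2, h4.1, h4.2]
    nlinarith
  have h8 : Real.exp (-12) ≤ om Y q := by
    unfold om gs
    apply Real.exp_le_exp.mpr
    rw [one_mul]
    linarith
  have h9 : 1 / L * Real.exp (-(1 / 2)) ≤ gsn L (x - Real.log (s * q)) := by
    unfold gsn
    refine mul_le_mul_of_nonneg_left ?_ (by positivity)
    apply Real.exp_le_exp.mpr
    have h10 : (x - Real.log (s * q)) ^ 2 ≤ L ^ 2 := sq_le_sq' (abs_le.mp h).1 (abs_le.mp h).2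
    have h11 : (x - Real.log (s * q)) ^ 2 / (2 * L ^ 2) ≤ 1 / 2 := by
      rw [div_le_div_iff₀ (by positivity) (by norm_num)]
      linarith
    linarith
  refine mul_le_mul ?_ h9 (by positivity) ?_
  · exact div_le_div_of_nonneg_right h8 (by positivity)
  · exact div_nonneg ((Real.exp_pos _).le.trans h8) (by positivity)

/-- PROOF. Let `A = exp (x - L)/s`; for large `X` it is `≥ X^(0.9)/e² ≥ A₀` (`primes_AP_interval`), and `exp (2L) A = exp (x + L)/s ≤ e² X ≤ X²`, `⌊A⌋ ≥ Nat.sqrt X`; so all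
the primes `q` of `prI ⌊A⌋ ⌊exp (2L) A⌋` are in `QS X`, and `x - L ≤ log (s q) ≤ x + L` (`A ≤ ⌊A⌋ + 1 ≤ q`). As `s` is coprime to `W` there is `b`,
coprime to `W`, with `s b ≡ v`, and `q ≡ b` implies `s q ≡ v`. The other terms are nonnegative. With `term_ge` and `1/(s q) ≥ 1/(s exp (2L) A)` the
sum is `≥ (L A/(φ(W) log A)) exp (-12) (1/(s e² A)) (1/L) exp (-1/2) = exp (-14.5)/(s φ(W) log A)`, and `log A ≤ log X + 1 ≤ 2 log X`, `exp (-14.5)/2 ≥ exp (-16)`. -/
theorem one_s (W : ℕ) (hW : 1 ≤ W) (L : ℝ) (hL : 0 < L) (hL1 : L ≤ 1) : ∃ X₀ : ℕ, ∀ X : ℕ, X₀ ≤ X →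
    ∀ (Y x : ℝ) (s v : ℕ), |x - Real.log X| ≤ 1 → 1 ≤ s → (s : ℝ) ≤ (X : ℝ) ^ (1 / 10 : ℝ) →
      Nat.Coprime s W → Nat.Coprime v W → (X : ℝ) / s ≤ Y → Y ≤ 4 * X / s →
      Real.exp (-16) / (s * ((Nat.totient W : ℝ) * Real.log X)) ≤
        ∑ q ∈ (QS X).filter (fun q => s * q ≡ v [MOD W]), om Y q / (s * q) * gsn L (x - Real.log (s * q)) := by
  obtain ⟨A₀, hA₀, hAP⟩ := primes_AP_interval W hW L hL hL1
  have hlim : Tendsto (fun X : ℕ => (X : ℝ) ^ (2 / 5 : ℝ)) atTop atTop :=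
    (tendsto_rpow_atTop (by norm_num)).comp tendsto_natCast_atTop_atTop
  obtain ⟨X₁, hX₁⟩ := eventually_atTop.mp (hlim.eventually_ge_atTop (Real.exp 2 * A₀))
  refine ⟨max 8 X₁, fun X hX Y x s v hx hs hsX hsW hvW hY1 hY2 => ?_⟩
  have hX8 : 8 ≤ X := (le_max_left _ _).trans hX
  have hXp := hX₁ X ((le_max_right _ _).trans hX)
  have hX8' : (8 : ℝ) ≤ X := by exact_mod_cast hX8
  have hX0 : (0 : ℝ) < X := by linarith
  have hs1 : (1 : ℝ) ≤ s := by exact_mod_cast hs
  have hs0 : (0 : ℝ) < s := by linarith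
  have hx' := abs_le.mp hx
  have he2 : Real.exp 2 ≤ 8 := by
    have h1 := Real.exp_one_lt_d9
    have h2 : Real.exp 2 = Real.exp 1 * Real.exp 1 := by rw [← Real.exp_add]; norm_num
    rw [h2]
    nlinarith [Real.exp_pos 1]
  have he2' := Real.exp_pos 2
  have hlogX : 1 ≤ Real.log X := by
    rw [Real.le_log_iff_exp_le hX0]
    have h1 := Real.exp_one_lt_d9
    linarith
  -- the point A
  obtain ⟨A, hA⟩ : ∃ A : ℝ, A = Real.exp (x - L) / s := ⟨_, rfl⟩
  have hAs : A * s = Real.exp (x - L) := by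
    rw [hA]
    field_simp
  have hBs : Real.exp (2 * L) * A * s = Real.exp (x + L) := by
    rw [mul_assoc, hAs, ← Real.exp_add]
    congr 1
    ring
  have hexplow : (X : ℝ) * Real.exp (-2) ≤ Real.exp (x - L) := by
    calc (X : ℝ) * Real.exp (-2) = Real.exp (Real.log X + -2) := by
          rw [Real.exp_add, Real.exp_log hX0]
      _ ≤ _ := Real.exp_le_exp.mpr (by linarith [hx'.1])
  have hexpup : Real.exp (x + L) ≤ (X : ℝ) * Real.exp 2 := by
    calc Real.exp (x + L) ≤ Real.exp (Real.log X + 2) := Real.exp_le_exp.mpr (by linarith [hx'.2])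
      _ = _ := by rw [Real.exp_add, Real.exp_log hX0]
  have hroot0 : (0 : ℝ) < (X : ℝ) ^ (1 / 2 : ℝ) := Real.rpow_pos_of_pos hX0 _
  have hXdec : (X : ℝ) = (X : ℝ) ^ (1 / 10 : ℝ) * (X : ℝ) ^ (1 / 2 : ℝ) * (X : ℝ) ^ (2 / 5 : ℝ) := by
    rw [← Real.rpow_add hX0, ← Real.rpow_add hX0]
    norm_num
  have hA1 : (X : ℝ) ^ (1 / 2 : ℝ) * A₀ ≤ A := by
    have h1 : (X : ℝ) ^ (1 / 2 : ℝ) * A₀ * s ≤ A * s := by
      rw [hAs]
      refine le_trans ?_ hexplow
      calc (X : ℝ) ^ (1 / 2 : ℝ) * A₀ * s ≤ (X : ℝ) ^ (1 / 2 : ℝ) * A₀ * (X : ℝ) ^ (1 / 10 : ℝ) :=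
            mul_le_mul_of_nonneg_left hsX (by positivity)
        _ = (X : ℝ) ^ (1 / 10 : ℝ) * (X : ℝ) ^ (1 / 2 : ℝ) * (Real.exp 2 * A₀) * Real.exp (-2) := by
            rw [Real.exp_neg]
            field_simp
        _ ≤ (X : ℝ) ^ (1 / 10 : ℝ) * (X : ℝ) ^ (1 / 2 : ℝ) * (X : ℝ) ^ (2 / 5 : ℝ) * Real.exp (-2) := by
            refine mul_le_mul_of_nonneg_right ?_ (Real.exp_pos _).le
            exact mul_le_mul_of_nonneg_left hXp (by positivity)
        _ = (X : ℝ) * Real.exp (-2) := by rw [← hXdec]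
    exact le_of_mul_le_mul_right h1 hs0
  have hroot1 : (1 : ℝ) ≤ (X : ℝ) ^ (1 / 2 : ℝ) := Real.one_le_rpow (by linarith) (by norm_num)
  have hA2 : A₀ ≤ A := le_trans (by nlinarith) hA1
  have hA3 : (X : ℝ) ^ (1 / 2 : ℝ) ≤ A := le_trans (by nlinarith) hA1
  have hApos : 0 < A := by linarith
  have hlogA : 0 < Real.log A := Real.log_pos (by linarith)
  have hlogA2 : Real.log A ≤ 2 * Real.log X := by
    have h1 : A ≤ Real.exp (x - L) := by
      rw [← hAs]
      nlinarith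
    calc Real.log A ≤ x - L := by
          rw [← Real.log_exp (x - L)]
          exact Real.log_le_log hApos h1
      _ ≤ _ := by linarith [hx'.2]
  have hsqrt : Nat.sqrt X ≤ ⌊A⌋₊ := by
    apply Nat.le_floor
    refine le_trans ?_ hA3
    rw [← Real.sqrt_eq_rpow]
    exact Real.nat_sqrt_le_real_sqrt
  have hup : ⌊Real.exp (2 * L) * A⌋₊ ≤ X ^ 2 := by
    have h1 : Real.exp (2 * L) * A ≤ ((X ^ 2 : ℕ) : ℝ) := by
      push_cast
      calc Real.exp (2 * L) * A ≤ Real.exp (2 * L) * A * s := by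
            have := mul_pos (Real.exp_pos (2 * L)) hApos
            nlinarith
        _ = Real.exp (x + L) := hBs
        _ ≤ (X : ℝ) * Real.exp 2 := hexpup
        _ ≤ (X : ℝ) ^ 2 := by nlinarith
    exact Nat.floor_le_of_le h1
  -- the residue class b
  obtain ⟨b, hb1, hb2⟩ : ∃ b : ℤ, IsCoprime b (W : ℤ) ∧ (s : ℤ) * b ≡ v [ZMOD (W : ℤ)] := by
    obtain ⟨a, c, hac⟩ : IsCoprime (s : ℤ) (W : ℤ) := Nat.isCoprime_iff_coprime.mpr hsW
    refine ⟨a * v, IsCoprime.mul_left ⟨s, c, by rw [← hac]; ring⟩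
      (Nat.isCoprime_iff_coprime.mpr hvW), ?_⟩
    rw [Int.modEq_iff_dvd]
    refine ⟨c * v, ?_⟩
    have : (v : ℤ) = (a * s + c * W) * v := by rw [hac, one_mul]
    linear_combination this
  set T : Finset ℕ := (prI ⌊A⌋₊ ⌊Real.exp (2 * L) * A⌋₊).filter
    (fun q : ℕ => (q : ℤ) ≡ b [ZMOD (W : ℤ)]) with hT
  have hcard : L * A / ((Nat.totient W : ℝ) * Real.log A) ≤ (#T : ℝ) := hAP A hA2 b hb1
  have hsub : T ⊆ (QS X).filter (fun q => s * q ≡ v [MOD W]) := by
    intro q hq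
    rw [hT, Finset.mem_filter] at hq
    have hq1 := mem_prI.mp hq.1
    rw [Finset.mem_filter]
    refine ⟨mem_prI.mpr ⟨⟨by omega, hq1.1.2.trans hup⟩, hq1.2⟩, ?_⟩
    rw [← Int.natCast_modEq_iff]
    push_cast
    exact (hq.2.mul_left _).trans hb2
  have hterm : ∀ q ∈ (QS X).filter (fun q => s * q ≡ v [MOD W]),
      0 ≤ om Y q / (s * q) * gsn L (x - Real.log (s * q)) := by
    intro q _
    unfold om gs gsn
    positivity
  have hφ : (0 : ℝ) < Nat.totient W := by exact_mod_cast Nat.totient_pos.mpr hW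
  calc Real.exp (-16) / (s * ((Nat.totient W : ℝ) * Real.log X))
      ≤ (L * A / ((Nat.totient W : ℝ) * Real.log A)) *
        (Real.exp (-12) / (s * (Real.exp 2 * A)) * (1 / L * Real.exp (-(1 / 2)))) := by
        have e1 : (L * A / ((Nat.totient W : ℝ) * Real.log A)) *
            (Real.exp (-12) / (s * (Real.exp 2 * A)) * (1 / L * Real.exp (-(1 / 2)))) =
            Real.exp (-(29 / 2)) / (s * ((Nat.totient W : ℝ) * Real.log A)) := by
          have e2 : Real.exp (-(29 / 2)) = Real.exp (-12) * Real.exp (-(1 / 2)) / Real.exp 2 := by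
            rw [← Real.exp_add, ← Real.exp_sub]
            norm_num
          rw [e2]
          field_simp
        rw [e1, div_le_div_iff₀ (by positivity) (by positivity)]
        have h1 : Real.exp (-16) * 2 ≤ Real.exp (-(29 / 2)) := by
          have e3 : Real.exp (-(29 / 2)) = Real.exp (-16) * Real.exp (3 / 2) := by
            rw [← Real.exp_add]
            norm_num
          rw [e3]
          have h2 := Real.add_one_le_exp (3 / 2 : ℝ)
          exact mul_le_mul_of_nonneg_left (by linarith) (Real.exp_pos _).le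
        calc Real.exp (-16) * (s * ((Nat.totient W : ℝ) * Real.log A))
            ≤ Real.exp (-16) * (s * ((Nat.totient W : ℝ) * (2 * Real.log X))) := by
              refine mul_le_mul_of_nonneg_left ?_ (Real.exp_pos _).le
              refine mul_le_mul_of_nonneg_left ?_ hs0.le
              exact mul_le_mul_of_nonneg_left hlogA2 hφ.le
          _ = (Real.exp (-16) * 2) * (s * ((Nat.totient W : ℝ) * Real.log X)) := by ring
          _ ≤ _ := mul_le_mul_of_nonneg_right h1 (by positivity)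
    _ ≤ (#T : ℝ) * (Real.exp (-12) / (s * (Real.exp 2 * A)) * (1 / L * Real.exp (-(1 / 2)))) :=
        mul_le_mul_of_nonneg_right hcard (by positivity)
    _ ≤ ∑ q ∈ T, om Y q / (s * q) * gsn L (x - Real.log (s * q)) := by
        rw [← nsmul_eq_mul]
        refine Finset.card_nsmul_le_sum _ _ _ fun q hq => ?_
        rw [hT, Finset.mem_filter] at hq
        have hq1 := mem_prI.mp hq.1
        have hq0 : (0 : ℝ) < q := by exact_mod_cast hq1.2.pos
        have hqA : A < q := (Nat.floor_lt hApos.le).mp hq1.1.1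
        have hqB : (q : ℝ) ≤ Real.exp (2 * L) * A :=
          (Nat.le_floor_iff (by positivity)).mp hq1.1.2
        have hl1 : x - L ≤ Real.log (s * q) := by
          rw [Real.le_log_iff_exp_le (by positivity), ← hAs, mul_comm]
          exact mul_le_mul_of_nonneg_left hqA.le hs0.le
        have hl2 : Real.log (s * q) ≤ x + L := by
          rw [Real.log_le_iff_le_exp (by positivity), ← hBs, mul_comm (s : ℝ)]
          exact mul_le_mul_of_nonneg_right hqB hs0.le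
        have hab : |x - Real.log (s * q)| ≤ L := abs_le.mpr ⟨by linarith, by linarith⟩
        refine le_trans ?_ (term_ge X s q Y x L (by omega) hs hq1.2.one_lt.le hL hL1 hx hY1 hY2 hab)
        refine mul_le_mul_of_nonneg_right ?_ (by positivity)
        refine div_le_div_of_nonneg_left (Real.exp_pos _).le (by positivity) ?_
        refine mul_le_mul_of_nonneg_left (hqB.trans ?_) hs0.le
        exact mul_le_mul_of_nonneg_right (Real.exp_le_exp.mpr (by linarith)) hApos.le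
    _ ≤ _ := Finset.sum_le_sum_of_subset_of_nonneg hsub fun q hq _ => hterm q hq

end Pool.Agent.E3
end

section

/-!
# Row P3: the long window for one multiplier
-/

set_option autoImplicit false

namespace Pool.Agent.Lib.MP_bae66e_nt.EF

open Finset MeasureTheory Real
open Pool.Agent.E3
open Pool.Agent.Lib.MP_bae66e_nt.E2 (YR FR PH)
open Pool.Agent.Lib.MP_bae66e_nt.LL (fP gW)
open Pool.Agent.Lib.MP_bae66e_nt.AC (Sg VV)
open Pool.Agent.Lib.MP_bae66e_nt.AP3 (prI mem_prI)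

/-- adjacent cells -/
private theorem P3_tele (a : ℕ → ℕ) (ha : ∀ k, a k ≤ a (k + 1)) (P : ℕ → Prop) [DecidablePred P] (f : ℕ → ℝ) (k : ℕ) :
    ∑ q ∈ (prI (a 0) (a k)).filter P, f q =
      ∑ j ∈ range k, ∑ q ∈ (prI (a j) (a (j + 1))).filter P, f q := by
  have hmono : Monotone a := monotone_nat_of_le_succ ha
  induction k with
  | zero =>
    rw [Finset.sum_range_zero]
    apply Finset.sum_eq_zero
    intro q hq
    obtain ⟨⟨h1, h2⟩, -⟩ := mem_prI.mp (Finset.mem_filter.mp hq).1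
    omega
  | succ k ih =>
    rw [Finset.sum_range_succ, ← ih, ← Finset.sum_union]
    · congr 1
      ext q
      simp only [Finset.mem_union, Finset.mem_filter, mem_prI]
      have h0 := hmono (Nat.zero_le k)
      have h1 := ha k
      constructor
      · rintro ⟨⟨⟨h2, h3⟩, h4⟩, h5⟩
        rcases Nat.lt_or_ge (a k) q with h | h
        · exact Or.inr ⟨⟨⟨h, h3⟩, h4⟩, h5⟩
        · exact Or.inl ⟨⟨⟨h2, h⟩, h4⟩, h5⟩
      · rintro (⟨⟨⟨h2, h3⟩, h4⟩, h5⟩ | ⟨⟨⟨h2, h3⟩, h4⟩, h5⟩)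
        · exact ⟨⟨⟨h2, h3.trans h1⟩, h4⟩, h5⟩
        · exact ⟨⟨⟨by omega, h3⟩, h4⟩, h5⟩
    · rw [Finset.disjoint_left]
      intro q h1 h2
      have h3 := (mem_prI.mp (Finset.mem_filter.mp h1).1).1.2
      have h4 := (mem_prI.mp (Finset.mem_filter.mp h2).1).1.1
      omega

/-- one cell against the integral -/
private theorem P3_cell (W : ℕ) (hW : 1 ≤ W) (L x y u lam ε' : ℝ) (b : ℤ) (hL : 0 < L) (hL1 : L ≤ 1) (hlam : 0 < lam) (hlam1 : lam ≤ 1)
    (hε : 0 < ε') (hε1 : ε' ≤ lam) (hu : 0 < u)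
    (hc : |∑ q ∈ (prI ⌊Real.exp u⌋₊ ⌊Real.exp (u + lam)⌋₊).filter (fun q : ℕ => (q : ℤ) ≡ b [ZMOD (W : ℤ)]), 1 / (q : ℝ)
        - lam / ((Nat.totient W : ℝ) * u)| ≤ (2 * lam ^ 2 + ε') / ((Nat.totient W : ℝ) * u)) :
    |∑ q ∈ (prI ⌊Real.exp u⌋₊ ⌊Real.exp (u + lam)⌋₊).filter (fun q : ℕ => (q : ℤ) ≡ b [ZMOD (W : ℤ)]),
        gg L x y (Real.log q) / q - 1 / ((Nat.totient W : ℝ) * u) * ∫ v in u..(u + lam), gg L x y v|
      ≤ (ε' / L + 12 * lam ^ 2 / L ^ 2) / ((Nat.totient W : ℝ) * u) := by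
  have hphi : (0 : ℝ) < (Nat.totient W : ℝ) := by exact_mod_cast Nat.totient_pos.2 (by omega)
  obtain ⟨t, ht⟩ : ∃ t : ℝ, t = 1 / ((Nat.totient W : ℝ) * u) := ⟨_, rfl⟩
  have ht0 : 0 < t := by rw [ht]; positivity
  have g1 : lam / ((Nat.totient W : ℝ) * u) = lam * t := by rw [ht]; ring
  have g2 : (2 * lam ^ 2 + ε') / ((Nat.totient W : ℝ) * u) = (2 * lam ^ 2 + ε') * t := by rw [ht]; ring
  have g3 : (ε' / L + 12 * lam ^ 2 / L ^ 2) / ((Nat.totient W : ℝ) * u) = (ε' / L + 12 * lam ^ 2 / L ^ 2) * t := by rw [ht]; ring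
  rw [g1, g2] at hc
  rw [g3, ← ht]
  set S : Finset ℕ := (prI ⌊Real.exp u⌋₊ ⌊Real.exp (u + lam)⌋₊).filter (fun q : ℕ => (q : ℤ) ≡ b [ZMOD (W : ℤ)]) with hS
  have hq : ∀ q ∈ S, u ≤ Real.log q ∧ Real.log q ≤ u + lam ∧ (0 : ℝ) < q := by
    intro q hq
    rw [hS, Finset.mem_filter] at hq
    obtain ⟨⟨q1, q2⟩, q0⟩ := mem_prI.mp hq.1
    have hq0 : (0 : ℝ) < q := by exact_mod_cast q0.pos
    have q3 : Real.exp u < q := by
      have := Nat.lt_floor_add_one (Real.exp u)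
      have q4 : (⌊Real.exp u⌋₊ : ℝ) + 1 ≤ q := by exact_mod_cast q1
      linarith
    have q5 : (q : ℝ) ≤ Real.exp (u + lam) := by
      have h5 : (q : ℝ) ≤ (⌊Real.exp (u + lam)⌋₊ : ℝ) := by exact_mod_cast q2
      exact h5.trans (Nat.floor_le (Real.exp_pos _).le)
    exact ⟨(Real.le_log_iff_exp_le hq0).2 q3.le, (Real.log_le_iff_le_exp hq0).2 q5, hq0⟩
  obtain ⟨g, hg⟩ : ∃ g : ℝ, g = gg L x y u := ⟨_, rfl⟩
  have hgb := gg_bd L x y u hL
  rw [← hg] at hgb
  set G1 : ℝ := ∑ q ∈ S, 1 / (q : ℝ) with hGd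
  have hG0 : 0 ≤ G1 := Finset.sum_nonneg fun q _ => by positivity
  rw [abs_le] at hc
  have hG1 : G1 ≤ 4 * lam * t := by
    have : (2 * lam ^ 2 + ε') * t ≤ 3 * lam * t := mul_le_mul_of_nonneg_right (by nlinarith) ht0.le
    linarith [hc.2]
  have d1 : |∑ q ∈ S, gg L x y (Real.log q) / q - g * G1| ≤ 2 / L ^ 2 * lam * G1 := by
    rw [hGd, Finset.mul_sum, ← Finset.sum_sub_distrib, Finset.mul_sum]
    refine (Finset.abs_sum_le_sum_abs _ _).trans (Finset.sum_le_sum fun q hq' => ?_)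
    obtain ⟨h1, h2, h3⟩ := hq q hq'
    have h4 : gg L x y (Real.log q) / q - g * (1 / (q : ℝ)) = (gg L x y (Real.log q) - g) * (1 / (q : ℝ)) := by ring
    rw [h4, abs_mul, abs_of_pos (by positivity : 0 < 1 / (q : ℝ))]
    apply mul_le_mul_of_nonneg_right _ (by positivity)
    rw [hg]
    refine (gg_lip L x y (Real.log q) u hL hL1).trans ?_
    apply mul_le_mul_of_nonneg_left _ (by positivity)
    rw [abs_of_nonneg (by linarith)]
    linarith
  have d2 : |g * G1 - g * (lam * t)| ≤ 1 / L * ((2 * lam ^ 2 + ε') * t) := by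
    rw [← mul_sub, abs_mul, abs_of_nonneg hgb.1]
    exact mul_le_mul hgb.2.2 (abs_le.2 hc) (abs_nonneg _) (by positivity)
  have hcont := gg_cont L x y
  have d3 : |(∫ v in u..(u + lam), gg L x y v) - lam * g| ≤ 2 / L ^ 2 * lam * lam := by
    have e1 : lam * g = ∫ _v in u..(u + lam), g := by
      rw [intervalIntegral.integral_const, smul_eq_mul]
      ring
    rw [e1, ← intervalIntegral.integral_sub (hcont.intervalIntegrable _ _) (continuous_const.intervalIntegrable _ _)]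
    have h5 := intervalIntegral.norm_integral_le_of_norm_le_const (a := u) (b := u + lam) (f := fun v => gg L x y v - g)
      (C := 2 / L ^ 2 * lam) (by
        intro v hv
        rw [Set.uIoc_of_le (by linarith)] at hv
        rw [Real.norm_eq_abs, hg]
        refine (gg_lip L x y v u hL hL1).trans ?_
        apply mul_le_mul_of_nonneg_left _ (by positivity)
        rw [abs_of_nonneg (by linarith [hv.1])]
        linarith [hv.2])
    rw [Real.norm_eq_abs, show u + lam - u = lam by ring, abs_of_pos hlam] at h5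
    exact h5
  have e2 : ∑ q ∈ S, gg L x y (Real.log q) / q - t * ∫ v in u..(u + lam), gg L x y v =
      (∑ q ∈ S, gg L x y (Real.log q) / q - g * G1) + (g * G1 - g * (lam * t)) -
        t * ((∫ v in u..(u + lam), gg L x y v) - lam * g) := by ring
  rw [e2]
  refine (abs_sub _ _).trans ?_
  have e3 : |t * ((∫ v in u..(u + lam), gg L x y v) - lam * g)| ≤ t * (2 / L ^ 2 * lam * lam) := by
    rw [abs_mul, abs_of_pos ht0]
    exact mul_le_mul_of_nonneg_left d3 ht0.le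
  have e4 : 2 / L ^ 2 * lam * G1 ≤ 2 / L ^ 2 * lam * (4 * lam * t) := mul_le_mul_of_nonneg_left hG1 (by positivity)
  have e5 := abs_add_le (∑ q ∈ S, gg L x y (Real.log q) / q - g * G1) (g * G1 - g * (lam * t))
  have e6 : 1 / L * ((2 * lam ^ 2 + ε') * t) ≤ (2 * lam ^ 2 / L ^ 2 + ε' / L) * t := by
    have h6 : 1 / L * ((2 * lam ^ 2 + ε') * t) = (2 * lam ^ 2 * (1 / L) + ε' / L) * t := by ring
    rw [h6]
    apply mul_le_mul_of_nonneg_right _ ht0.le
    have h7 : 1 / L ≤ 1 / L ^ 2 := by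
      apply one_div_le_one_div_of_le (by positivity)
      nlinarith
    have h8 : 2 * lam ^ 2 * (1 / L) ≤ 2 * lam ^ 2 * (1 / L ^ 2) := mul_le_mul_of_nonneg_left h7 (by positivity)
    have h9 : 2 * lam ^ 2 * (1 / L ^ 2) = 2 * lam ^ 2 / L ^ 2 := by ring
    linarith
  calc _ ≤ (2 / L ^ 2 * lam * (4 * lam * t) + (2 * lam ^ 2 / L ^ 2 + ε' / L) * t) + t * (2 / L ^ 2 * lam * lam) := by linarith
    _ = (ε' / L + 12 * lam ^ 2 / L ^ 2) * t := by ring

/-- Sums over the cells. PROOF. Let `D = K L`, `N` large, `lam = 2 D/N`, `u_j = x - D + j lam`, `A_j = exp u_j` (`j ≤ N`): the sets `prI ⌊A_j⌋ ⌊A_{j+1}⌋` partition `prI ⌊A_0⌋ ⌊A_N⌋`. For each cell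
`P3_cell` (with `cell_asymp`, `log A_j = u_j`). `|u_j - x| ≤ D`, so `u_j = (1 + o(1)) x` for `x → ∞`. Choose `lam` small in terms of `L`, `K`, `ε`, then `ε'` small in terms of `lam`, then `x` large. -/
theorem cells (W : ℕ) (hW : 1 ≤ W) (L K ε : ℝ) (hL : 0 < L) (hL1 : L ≤ 1) (hK : 1 ≤ K) (hε : 0 < ε) : ∃ z₀ : ℝ, 1 ≤ z₀ ∧
    ∀ x y : ℝ, z₀ ≤ x → ∀ b : ℤ, IsCoprime b (W : ℤ) →
      |∑ q ∈ (prI ⌊Real.exp (x - K * L)⌋₊ ⌊Real.exp (x + K * L)⌋₊).filter (fun q : ℕ => (q : ℤ) ≡ b [ZMOD (W : ℤ)]),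
          gg L x y (Real.log q) / q
        - 1 / ((Nat.totient W : ℝ) * x) * ∫ u in Set.Ioc (x - K * L) (x + K * L), gg L x y u|
        ≤ ε / ((Nat.totient W : ℝ) * x) := by
  obtain ⟨D, hD⟩ : ∃ D : ℝ, D = K * L := ⟨_, rfl⟩
  have hD0 : 0 < D := by rw [hD]; positivity
  rw [← hD]
  obtain ⟨N, hN1, hN2, hN3⟩ : ∃ N : ℕ, 1 ≤ N ∧ 2 * D ≤ N ∧ 288 * D ^ 2 / (ε * L ^ 2) ≤ N := by
    refine ⟨1 + ⌈2 * D⌉₊ + ⌈288 * D ^ 2 / (ε * L ^ 2)⌉₊, by omega, ?_, ?_⟩
    · have := Nat.le_ceil (2 * D)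
      push_cast
      have h2 : (0 : ℝ) ≤ ⌈288 * D ^ 2 / (ε * L ^ 2)⌉₊ := Nat.cast_nonneg _
      linarith
    · have := Nat.le_ceil (288 * D ^ 2 / (ε * L ^ 2))
      push_cast
      have h2 : (0 : ℝ) ≤ ⌈2 * D⌉₊ := Nat.cast_nonneg _
      linarith
  have hN0 : (0 : ℝ) < N := by exact_mod_cast hN1
  obtain ⟨lam, hlam⟩ : ∃ lam : ℝ, lam = 2 * D / N := ⟨_, rfl⟩
  have hlam0 : 0 < lam := by rw [hlam]; positivity
  have hlam1 : lam ≤ 1 := by rw [hlam, div_le_one hN0]; exact hN2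
  have hNlam : N * lam = 2 * D := by rw [hlam]; field_simp
  obtain ⟨ε', hε'd⟩ : ∃ ε' : ℝ, ε' = min lam (ε * L / (6 * N)) := ⟨_, rfl⟩
  have hε'0 : 0 < ε' := by rw [hε'd]; exact lt_min hlam0 (by positivity)
  have hε'1 : ε' ≤ lam := by rw [hε'd]; exact min_le_left _ _
  have hε'2 : ε' ≤ ε * L / (6 * N) := by rw [hε'd]; exact min_le_right _ _
  obtain ⟨A₀, hA₀, hcell⟩ := cell_asymp W hW lam ε' hlam0 hlam1 hε'0
  refine ⟨1 + 2 * D + |Real.log A₀| + 12 * D ^ 2 / (ε * L), ?_, ?_⟩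
  · have h1 := abs_nonneg (Real.log A₀)
    have h2 : 0 < 12 * D ^ 2 / (ε * L) := by positivity
    linarith
  intro x y hx b hb
  have h1 := abs_nonneg (Real.log A₀)
  have h1' := le_abs_self (Real.log A₀)
  have h2 : 0 < 12 * D ^ 2 / (ε * L) := by positivity
  have hx0 : 0 < x := by linarith
  have hx2D : 2 * D ≤ x := by linarith
  have hphi : (0 : ℝ) < (Nat.totient W : ℝ) := by exact_mod_cast Nat.totient_pos.2 (by omega)
  obtain ⟨u, hu⟩ : ∃ u : ℕ → ℝ, u = fun j : ℕ => x - D + j * lam := ⟨_, rfl⟩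
  have hu0 : u 0 = x - D := by rw [hu]; simp
  have huN : u N = x + D := by
    rw [hu]
    simp only
    linarith
  have hus : ∀ j, u (j + 1) = u j + lam := by
    intro j
    rw [hu]
    push_cast
    ring
  have hub : ∀ j, j < N → x - D ≤ u j ∧ u j ≤ x + D := by
    intro j hj
    rw [hu]
    have hj' : (j : ℝ) ≤ N := by exact_mod_cast hj.le
    have h3 : (j : ℝ) * lam ≤ N * lam := mul_le_mul_of_nonneg_right hj' hlam0.le
    have h4 : 0 ≤ (j : ℝ) * lam := by positivity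
    constructor
    · simp only; linarith
    · simp only; linarith
  -- the sum
  have htel := P3_tele (fun j => ⌊Real.exp (u j)⌋₊) (fun k => Nat.floor_le_floor (Real.exp_le_exp.2 (by rw [hus]; linarith)))
    (fun q : ℕ => (q : ℤ) ≡ b [ZMOD (W : ℤ)]) (fun q => gg L x y (Real.log q) / q) N
  simp only [hu0, huN] at htel
  rw [htel]
  -- the integral
  have hcont := gg_cont L x y
  have hint : ∫ v in Set.Ioc (x - D) (x + D), gg L x y v = ∑ j ∈ range N, ∫ v in (u j)..(u (j + 1)), gg L x y v := by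
    rw [intervalIntegral.sum_integral_adjacent_intervals (fun k _ => hcont.intervalIntegrable _ _), hu0, huN,
      intervalIntegral.integral_of_le (by linarith)]
  rw [hint, Finset.mul_sum, ← Finset.sum_sub_distrib]
  refine (Finset.abs_sum_le_sum_abs _ _).trans ?_
  have hterm : ∀ j ∈ range N, |∑ q ∈ (prI ⌊Real.exp (u j)⌋₊ ⌊Real.exp (u (j + 1))⌋₊).filter (fun q : ℕ => (q : ℤ) ≡ b [ZMOD (W : ℤ)]),
      gg L x y (Real.log q) / q - 1 / ((Nat.totient W : ℝ) * x) * ∫ v in (u j)..(u (j + 1)), gg L x y v| ≤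
      (2 * (ε' / L + 12 * lam ^ 2 / L ^ 2) + 2 * D * lam / (x * L)) / ((Nat.totient W : ℝ) * x) := by
    intro j hj
    have hjN := Finset.mem_range.1 hj
    obtain ⟨b1, b2⟩ := hub j hjN
    have huj0 : 0 < u j := by linarith
    have hux : x / 2 ≤ u j := by linarith
    have hA : A₀ ≤ Real.exp (u j) := by
      rw [← Real.log_le_iff_le_exp (by linarith)]
      linarith
    have hc := hcell (Real.exp (u j)) hA b hb
    rw [Real.log_exp, ← Real.exp_add, add_comm lam (u j)] at hc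
    have hc2 := P3_cell W hW L x y (u j) lam ε' b hL hL1 hlam0 hlam1 hε'0 hε'1 huj0 hc
    rw [hus j]
    set I := ∫ v in (u j)..(u j + lam), gg L x y v with hI
    have hI0 : 0 ≤ I := by
      rw [hI]
      exact intervalIntegral.integral_nonneg (by linarith) fun v _ => (gg_bd L x y v hL).1
    have hI1 : I ≤ lam / L := by
      have h5 := intervalIntegral.norm_integral_le_of_norm_le_const (a := u j) (b := u j + lam) (f := gg L x y)
        (C := 1 / L) (fun v _ => by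
          rw [Real.norm_eq_abs, abs_of_nonneg (gg_bd L x y v hL).1]
          exact (gg_bd L x y v hL).2.2)
      rw [Real.norm_eq_abs, show u j + lam - u j = lam by ring, abs_of_pos hlam0] at h5
      calc I ≤ |I| := le_abs_self _
        _ ≤ 1 / L * lam := h5
        _ = lam / L := by ring
    have e1 : |1 / ((Nat.totient W : ℝ) * u j) * I - 1 / ((Nat.totient W : ℝ) * x) * I| ≤
        (2 * D * lam / (x * L)) / ((Nat.totient W : ℝ) * x) := by
      have e2 : 1 / ((Nat.totient W : ℝ) * u j) * I - 1 / ((Nat.totient W : ℝ) * x) * I =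
          (x - u j) / u j * I / ((Nat.totient W : ℝ) * x) := by
        field_simp
      rw [e2, abs_div, abs_of_pos (by positivity : 0 < (Nat.totient W : ℝ) * x)]
      apply div_le_div_of_nonneg_right _ (by positivity)
      rw [abs_mul, abs_of_nonneg hI0, abs_div, abs_of_pos huj0]
      have e3 : |x - u j| ≤ D := by rw [abs_le]; constructor <;> linarith
      have e4 : |x - u j| / u j ≤ D / (x / 2) := div_le_div₀ hD0.le e3 (by positivity) hux
      calc |x - u j| / u j * I ≤ D / (x / 2) * (lam / L) := mul_le_mul e4 hI1 hI0 (by positivity)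
        _ = 2 * D * lam / (x * L) := by field_simp
    have e5 : (ε' / L + 12 * lam ^ 2 / L ^ 2) / ((Nat.totient W : ℝ) * u j) ≤
        2 * (ε' / L + 12 * lam ^ 2 / L ^ 2) / ((Nat.totient W : ℝ) * x) := by
      rw [div_le_div_iff₀ (by positivity) (by positivity)]
      have e6 : 0 ≤ (ε' / L + 12 * lam ^ 2 / L ^ 2) * (Nat.totient W : ℝ) := by positivity
      nlinarith
    have e7 : ∑ q ∈ (prI ⌊Real.exp (u j)⌋₊ ⌊Real.exp (u j + lam)⌋₊).filter (fun q : ℕ => (q : ℤ) ≡ b [ZMOD (W : ℤ)]),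
        gg L x y (Real.log q) / q - 1 / ((Nat.totient W : ℝ) * x) * I =
        (∑ q ∈ (prI ⌊Real.exp (u j)⌋₊ ⌊Real.exp (u j + lam)⌋₊).filter (fun q : ℕ => (q : ℤ) ≡ b [ZMOD (W : ℤ)]),
        gg L x y (Real.log q) / q - 1 / ((Nat.totient W : ℝ) * u j) * I) +
        (1 / ((Nat.totient W : ℝ) * u j) * I - 1 / ((Nat.totient W : ℝ) * x) * I) := by ring
    rw [e7]
    refine (abs_add_le _ _).trans ?_
    rw [add_div]
    linarith
  refine (Finset.sum_le_sum hterm).trans ?_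
  rw [Finset.sum_const, Finset.card_range, nsmul_eq_mul, ← mul_div_assoc]
  apply div_le_div_of_nonneg_right _ (by positivity)
  -- numerical
  have f1 : N * (2 * (ε' / L + 12 * lam ^ 2 / L ^ 2) + 2 * D * lam / (x * L)) =
      2 * N * ε' / L + 24 * (N * lam) * lam / L ^ 2 + 2 * D * (N * lam) / (x * L) := by ring
  rw [f1, hNlam]
  have f2 : 2 * N * ε' / L ≤ ε / 3 := by
    rw [div_le_iff₀ hL]
    have : 2 * N * ε' ≤ 2 * N * (ε * L / (6 * N)) := mul_le_mul_of_nonneg_left hε'2 (by positivity)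
    have f3 : 2 * N * (ε * L / (6 * N)) = ε / 3 * L := by
      field_simp
      ring
    linarith
  have f4 : 24 * (2 * D) * lam / L ^ 2 ≤ ε / 3 := by
    rw [div_le_iff₀ (by positivity), hlam]
    rw [div_le_iff₀ (by positivity)] at hN3
    have f5 : 24 * (2 * D) * (2 * D / N) = 96 * D ^ 2 / N := by ring
    rw [f5, div_le_iff₀ hN0]
    nlinarith
  have f6 : 2 * D * (2 * D) / (x * L) ≤ ε / 3 := by
    have f7 : 12 * D ^ 2 / (ε * L) ≤ x := by linarith
    rw [div_le_iff₀ (by positivity)] at f7 ⊢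
    nlinarith
  linarith

end Pool.Agent.Lib.MP_bae66e_nt.EF
end
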