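import Pool.Agent.Lib.MP_bae66e_nt.Mg.G042
import Pool.Agent.Lib.MP_bae66e_nt.Mg.G046
import Pool.Agent.Lib.MP_bae66e_nt.Mg.G041
import Pool.Agent.Lib.MP_bae66e_nt.Mg.G043
import Pool.Agent.Lib.MP_bae66e_nt.LL.K.K08
import Pool.Agent.Lib.MP_bae66e_nt.Mg.G051

section

/-!
# LP/M1: first moments of the intensity
-/

set_option autoImplicit false

open Finset Filter Topology

namespace Pool.Agent.Lib.MP_bae66e_nt.LP

open Pool.Agent.Lib.MP_bae66e_nt.LL

/-- `∑_{u < n ≤ v} nu W n = (v - u) + O(2 W²)` for `W ≥ 1`, `u ≤ v` (`abs_sum_periodic_sub_le`,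
`nu ≤ W`, period sum `W`). -/
lemma abs_sum_nu_sub_le (W : ℕ) (hW : 1 ≤ W) (u v : ℕ) (huv : u ≤ v) :
    |(∑ n ∈ Finset.Ioc (u : ℤ) (v : ℤ), nu W n) - ((v : ℝ) - u)| ≤ 2 * (W : ℝ) ^ 2 := by
  have hW0 : (W : ℝ) ≠ 0 := by exact_mod_cast (by omega : W ≠ 0)
  have h1 := abs_sum_periodic_sub_le W hW (nu W) (fun n m h => nu_periodic W n m h) W
    (fun n => by rw [abs_of_nonneg (nu_nonneg W n)]; exact nu_le W hW n) ((u : ℤ) + 1) (v - u)
  have h2 : ∑ c ∈ Finset.range W, nu W (c : ℤ) = W := by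
    have := sum_nu_class W hW 0
    simpa using this
  rw [h2] at h1
  have h3 : ∑ t ∈ Finset.range (v - u), nu W ((u : ℤ) + 1 + t)
      = ∑ n ∈ Finset.Ioc (u : ℤ) (v : ℤ), nu W n := by
    apply Finset.sum_bij (fun (t : ℕ) _ => (u : ℤ) + 1 + t)
    · intro t ht
      rw [Finset.mem_range] at ht
      rw [Finset.mem_Ioc]
      constructor <;> omega
    · intro s _ t _ hst
      have : (s : ℤ) = t := by linarith
      exact_mod_cast this
    · intro n hn
      rw [Finset.mem_Ioc] at hn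
      refine ⟨(n - u - 1).toNat, ?_, ?_⟩
      · rw [Finset.mem_range]
        omega
      · have : ((n - u - 1).toNat : ℤ) = n - u - 1 := Int.toNat_of_nonneg (by omega)
        rw [this]; ring
    · intro t _
      rfl
  rw [h3] at h1
  have h4 : ((v - u : ℕ) : ℝ) / W * W = (v : ℝ) - u := by
    rw [div_mul_cancel₀ _ hW0, Nat.cast_sub huv]
  rw [h4] at h1
  calc _ ≤ 2 * (W : ℝ) * W := h1
    _ = _ := by ring

private lemma M1_growth3 (K : ℝ) : ∃ X₀ : ℕ, ∀ X : ℕ, X₀ ≤ X → K * (Real.log X) ^ 3 ≤ X := by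
  have h1 : Tendsto (fun w : ℕ => (w : ℝ)) atTop atTop := tendsto_natCast_atTop_atTop
  have h2 := (isLittleO_log_rpow_rpow_atTop (3 : ℝ) (by norm_num : (0 : ℝ) < 1)).def
    (show (0 : ℝ) < 1 / (|K| + 1) by positivity)
  have h3 := h1.eventually h2
  obtain ⟨w₁, hw₁⟩ := Filter.eventually_atTop.1 h3
  refine ⟨w₁, fun X hX => ?_⟩
  have h4 := hw₁ X hX
  have hl : 0 ≤ Real.log X := Real.log_natCast_nonneg X
  rw [Real.norm_of_nonneg (Real.rpow_nonneg hl _),
    Real.norm_of_nonneg (Real.rpow_nonneg (Nat.cast_nonneg X) _), Real.rpow_one,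
    show (3 : ℝ) = ((3 : ℕ) : ℝ) by norm_num, Real.rpow_natCast] at h4
  have h5 : K ≤ |K| + 1 := by linarith [le_abs_self K]
  calc K * (Real.log X) ^ 3 ≤ (|K| + 1) * (Real.log X) ^ 3 := by gcongr
    _ ≤ (|K| + 1) * (1 / (|K| + 1) * X) := by gcongr
    _ = X := by
        have : |K| + 1 ≠ 0 := by positivity
        field_simp

/-- the sum over the window as a sum over all primes -/
private lemma M1_expand (W X : ℕ) (a b : ℝ) (m : ℤ) :
    ∑ q ∈ Wd X a b m, nu W (m - q) = ∑ q ∈ QQ 0 X,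
      if ((yX a X : ℤ) < m - q ∧ m - q ≤ (yX b X : ℤ)) then nu W (m - q) else 0 := by
  unfold Wd
  rw [Finset.sum_filter]

/-- Upper bound over every finite set `S` of integers: `∑_{m ∈ S} Lam a b m ≤ (5 (b - a) + δ) X`.

PROOF. All terms are nonnegative; exchange the sums: each prime `q ≤ X` contributes at most
`∑_{u < n ≤ v} nu W n ≤ v - u + 2 W² ≤ (b - a) L + 1 + 2 W²` (`u = yX a X`, `v = yX b X`), so the
sum is at most `(5 X/log X)((b - a) log X ell X + 1 + 2 W²)/ell X ≤ 5 (b - a) X + δ X`. -/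
theorem sum_Lam_le (W : ℕ) (hW : 1 ≤ W) (a b : ℝ) (ha : 0 ≤ a) (hab : a ≤ b) (δ : ℝ) (hδ : 0 < δ) :
    ∃ X₀ : ℕ, ∀ X : ℕ, X₀ ≤ X → ∀ S : Finset ℤ,
      ∑ m ∈ S, Lam W X a b m ≤ (5 * (b - a) + δ) * X := by
  classical
  have hb : 0 ≤ b := ha.trans hab
  set K : ℝ := 1 + 2 * (W : ℝ) ^ 2 with hK
  have hK0 : 0 < K := by positivity
  obtain ⟨X₀, hX₀⟩ := growth (max 16 (5 * K / δ)) (le_trans (by norm_num) (le_max_left _ _))
  refine ⟨X₀, fun X hX S => ?_⟩
  obtain ⟨h1, h2, -, -, h3⟩ := hX₀ X hX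
  have hM16 := (le_max_left _ _).trans h1
  have hL16 := (le_max_left _ _).trans h2
  have hX16 := (le_max_left _ _).trans h3
  have hLK := (le_max_right _ _).trans h2
  have hX16' : 16 ≤ X := by exact_mod_cast hX16
  obtain ⟨-, hQ⟩ := card_QQ_bounds X hX16'
  have hLM : 0 ≤ Real.log X * ell X := by nlinarith
  have hu := le_yX X a
  have hv := yX_le X hLM hb
  have hmono := yX_mono X hLM hab
  set u := yX a X with hu'
  set v := yX b X with hv'
  set L := Real.log (X : ℝ) with hL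
  set M := ell X with hM
  have hLpos : 0 < L := by linarith
  have hMpos : 0 < M := by linarith
  have hnu := abs_sum_nu_sub_le W hW u v hmono
  rw [abs_le] at hnu
  have hnu2 : ∑ n ∈ Finset.Ioc (u : ℤ) (v : ℤ), nu W n ≤ (b - a) * (L * M) + K := by
    have := hnu.2
    have e1 : (b - a) * (L * M) = b * (L * M) - a * (L * M) := by ring
    rw [e1, hK]
    linarith
  have hswap : ∑ m ∈ S, ∑ q ∈ Wd X a b m, nu W (m - q)
      ≤ ((QQ 0 X).card : ℝ) * ((b - a) * (L * M) + K) := by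
    simp_rw [M1_expand]
    rw [Finset.sum_comm, ← nsmul_eq_mul, ← Finset.sum_const]
    refine Finset.sum_le_sum fun q _ => ?_
    refine le_trans ?_ hnu2
    rw [← Finset.sum_filter]
    rw [← Finset.sum_image (s := S.filter (fun m => (u : ℤ) < m - q ∧ m - q ≤ (v : ℤ)))
      (g := fun m : ℤ => m - (q : ℤ)) (f := fun n => nu W n) (by
        intro x _ y _ hxy
        simpa using hxy)]
    apply Finset.sum_le_sum_of_subset_of_nonneg
    · intro n hn
      rw [Finset.mem_image] at hn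
      obtain ⟨m, hm, rfl⟩ := hn
      rw [Finset.mem_filter] at hm
      rw [Finset.mem_Ioc]
      exact hm.2
    · intro n _ _
      exact nu_nonneg W n
  have hlam : ∑ m ∈ S, Lam W X a b m = (∑ m ∈ S, ∑ q ∈ Wd X a b m, nu W (m - q)) / M := by
    rw [Finset.sum_div]
    rfl
  rw [hlam, div_le_iff₀ hMpos]
  have hba : 0 ≤ b - a := by linarith
  refine hswap.trans ?_
  have h5 : 5 * K ≤ δ * L := by
    rw [div_le_iff₀ hδ] at hLK
    linarith
  have hX0 : (0 : ℝ) ≤ X := Nat.cast_nonneg X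
  calc ((QQ 0 X).card : ℝ) * ((b - a) * (L * M) + K)
      ≤ (5 * X / L) * ((b - a) * (L * M) + K) := by
        apply mul_le_mul_of_nonneg_right hQ
        positivity
    _ = 5 * (b - a) * X * M + X * (5 * K) / L := by
        field_simp
    _ ≤ 5 * (b - a) * X * M + X * (δ * L) / L := by gcongr
    _ = 5 * (b - a) * X * M + δ * X := by field_simp
    _ ≤ 5 * (b - a) * X * M + δ * X * M := by
        have : δ * X * 1 ≤ δ * X * M := by
          apply mul_le_mul_of_nonneg_left (by linarith) (by positivity)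
        linarith
    _ = (5 * (b - a) + δ) * X * M := by ring

/-- Lower bound over the even `m ≤ X`, `W` even: `∑_{m ≤ X even} Lam a b m ≥ ((b - a)/4 - δ) X`.

PROOF. Each prime `q ≤ X - v` (`v = yX b X`) contributes `∑_{u < n ≤ v} nu W n ≥ v - u - 2 W²` to the
sum over all `m ∈ (0, X]`, and there are at least `#QQ 0 X - v ≥ X/(4 log X) - v` such primes. If `m`
is odd and `q` is odd then `nu W (m - q) = 0`; so the odd `m` contribute only with `q = 2`: at most
`v W / ell X ≤ (δ/4) X`. -/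
theorem le_sum_Lam (W : ℕ) (hW : 1 ≤ W) (h2 : 2 ∣ W) (a b : ℝ) (ha : 0 ≤ a) (hab : a ≤ b) (δ : ℝ)
    (hδ : 0 < δ) : ∃ X₀ : ℕ, ∀ X : ℕ, X₀ ≤ X →
      ((b - a) / 4 - δ) * X
        ≤ ∑ m ∈ (Finset.Ioc (0 : ℤ) (X : ℤ)).filter (fun m => Even m), Lam W X a b m := by
  classical
  have hb : 0 ≤ b := ha.trans hab
  have hba : 0 ≤ b - a := by linarith
  have hWr : (0 : ℝ) < W := by exact_mod_cast hW
  set K : ℝ := 1 + 2 * (W : ℝ) ^ 2 with hK
  have hK0 : 0 < K := by positivity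
  obtain ⟨X₀, hX₀⟩ := growth (max 16 (max (K / δ) (4 * W * b / δ)))
    (le_trans (by norm_num) (le_max_left _ _))
  obtain ⟨X₁, hX₁⟩ := M1_growth3 (4 * b + 4 * b * (b - a) / δ)
  refine ⟨max X₀ X₁, fun X hX => ?_⟩
  obtain ⟨h1, h2', h3', h4', h3⟩ := hX₀ X ((le_max_left _ _).trans hX)
  have hcub := hX₁ X ((le_max_right _ _).trans hX)
  have hM16 := (le_max_left _ _).trans h1
  have hL16 := (le_max_left _ _).trans h2'
  have hX16 := (le_max_left _ _).trans h3
  have hLK := ((le_max_left _ _).trans (le_max_right _ _)).trans h2'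
  have hX16' : 16 ≤ X := by exact_mod_cast hX16
  obtain ⟨hQ, -⟩ := card_QQ_bounds X hX16'
  have hLM : 0 ≤ Real.log X * ell X := by nlinarith
  have hu := yX_le X hLM ha
  have hv := yX_le X hLM hb
  have hv2 := le_yX X b
  have hmono := yX_mono X hLM hab
  set u := yX a X with hu'
  set v := yX b X with hv'
  set L := Real.log (X : ℝ) with hL
  set M := ell X with hM
  have hLpos : 0 < L := by linarith
  have hMpos : 0 < M := by linarith
  have hX0 : (0 : ℝ) ≤ X := Nat.cast_nonneg X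
  have hWb : (4 * W * b / δ) * L ^ 2 ≤ X := by
    refine le_trans ?_ h4'
    apply mul_le_mul_of_nonneg_right _ (sq_nonneg L)
    exact (le_max_right _ _).trans (le_max_right _ _)
  have hML : M ≤ L := by
    have : (1 : ℝ) * M ≤ (max 16 (max (K / δ) (4 * W * b / δ))) * M := by
      apply mul_le_mul_of_nonneg_right _ hMpos.le
      exact le_trans (by norm_num) (le_max_left _ _)
    linarith
  have hL2M : L ^ 2 * M ≤ L ^ 3 := by
    have : L ^ 2 * M ≤ L ^ 2 * L := mul_le_mul_of_nonneg_left hML (sq_nonneg L)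
    nlinarith
  have hnu := abs_sum_nu_sub_le W hW u v hmono
  rw [abs_le] at hnu
  have hnu1 : (b - a) * (L * M) - K ≤ ∑ n ∈ Finset.Ioc (u : ℤ) (v : ℤ), nu W n := by
    have := hnu.1
    have e1 : (b - a) * (L * M) = b * (L * M) - a * (L * M) := by ring
    rw [e1, hK]
    linarith
  have hnu0 : 0 ≤ ∑ n ∈ Finset.Ioc (u : ℤ) (v : ℤ), nu W n := Finset.sum_nonneg fun n _ => nu_nonneg W n
  set F : ℤ → ℝ := fun m => ∑ q ∈ Wd X a b m, nu W (m - q) with hF
  have hF0 : ∀ m, 0 ≤ F m := fun m => Finset.sum_nonneg fun q _ => nu_nonneg W _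
  -- total
  have hvX : v ≤ X := by
    have h5 : 4 * b * L ^ 3 ≤ X := by
      refine le_trans ?_ hcub
      apply mul_le_mul_of_nonneg_right _ (by positivity)
      have : 0 ≤ 4 * b * (b - a) / δ := by positivity
      linarith
    have h6 : (v : ℝ) ≤ X := by
      have h7 : b * (L * M) ≤ b * L ^ 3 := by
        apply mul_le_mul_of_nonneg_left _ hb
        calc L * M ≤ L * L := mul_le_mul_of_nonneg_left hML hLpos.le
          _ ≤ L ^ 3 := by nlinarith [sq_nonneg L, mul_pos hLpos hLpos]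
      have h8 : 0 ≤ b * L ^ 3 := by positivity
      linarith
    exact_mod_cast h6
  have hcount : ((QQ 0 X).card : ℝ) - v ≤ ((QQ 0 (X - v)).card : ℝ) := by
    have h5 : QQ 0 X ⊆ QQ 0 (X - v) ∪ Finset.Ioc (X - v) X := by
      intro q hq
      unfold QQ at hq ⊢
      rw [Finset.mem_filter, Finset.mem_Ioc] at hq
      rw [Finset.mem_union, Finset.mem_filter, Finset.mem_Ioc, Finset.mem_Ioc]
      rcases le_or_gt q (X - v) with h | h
      · left; exact ⟨⟨hq.1.1, by omega⟩, hq.2⟩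
      · right; exact ⟨h, by omega⟩
    have h6 := (Finset.card_le_card h5).trans (Finset.card_union_le _ _)
    rw [Nat.card_Ioc] at h6
    have h7 : (QQ 0 X).card ≤ (QQ 0 (X - v)).card + v := by omega
    have h8 : ((QQ 0 X).card : ℝ) ≤ ((QQ 0 (X - v)).card : ℝ) + v := by exact_mod_cast h7
    linarith
  have htotal : ((QQ 0 (X - v)).card : ℝ) * ∑ n ∈ Finset.Ioc (u : ℤ) (v : ℤ), nu W n
      ≤ ∑ m ∈ Finset.Ioc (0 : ℤ) (X : ℤ), F m := by
    rw [hF]
    simp_rw [M1_expand]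
    rw [Finset.sum_comm, ← nsmul_eq_mul, ← Finset.sum_const]
    have hsub : QQ 0 (X - v) ⊆ QQ 0 X := by
      intro q hq
      unfold QQ at hq ⊢
      rw [Finset.mem_filter, Finset.mem_Ioc] at hq ⊢
      exact ⟨⟨hq.1.1, by omega⟩, hq.2⟩
    refine le_trans (Finset.sum_le_sum (g := fun q : ℕ => ∑ m ∈ Finset.Ioc (0 : ℤ) (X : ℤ),
      if ((u : ℤ) < m - q ∧ m - q ≤ (v : ℤ)) then nu W (m - q) else 0) fun q hq => ?_)
      (Finset.sum_le_sum_of_subset_of_nonneg hsub fun q _ _ =>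
        Finset.sum_nonneg fun m _ => by split_ifs; exacts [nu_nonneg W _, le_rfl])
    unfold QQ at hq
    rw [Finset.mem_filter, Finset.mem_Ioc] at hq
    rw [← Finset.sum_filter]
    have himg : (Finset.Ioc (u : ℤ) (v : ℤ)).image (fun n => n + (q : ℤ)) ⊆
        (Finset.Ioc (0 : ℤ) (X : ℤ)).filter (fun m => (u : ℤ) < m - q ∧ m - q ≤ (v : ℤ)) := by
      intro m hm
      rw [Finset.mem_image] at hm
      obtain ⟨n, hn, rfl⟩ := hm
      rw [Finset.mem_Ioc] at hn
      rw [Finset.mem_filter, Finset.mem_Ioc]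
      refine ⟨⟨?_, ?_⟩, ?_, ?_⟩ <;> omega
    refine le_trans (le_of_eq ?_) (Finset.sum_le_sum_of_subset_of_nonneg himg
      fun m _ _ => nu_nonneg W _)
    rw [Finset.sum_image (by
      intro x _ y _ hxy
      simpa using hxy)]
    refine Finset.sum_congr rfl fun n _ => ?_
    rw [add_sub_cancel_right]
  -- odd part
  have hodd : ∑ m ∈ (Finset.Ioc (0 : ℤ) (X : ℤ)).filter (fun m => ¬ Even m), F m ≤ W * v := by
    have h5 : ∀ m ∈ (Finset.Ioc (0 : ℤ) (X : ℤ)).filter (fun m => ¬ Even m),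
        F m ≤ if ((u : ℤ) < m - 2 ∧ m - 2 ≤ (v : ℤ)) then (W : ℝ) else 0 := by
      intro m hm
      rw [Finset.mem_filter] at hm
      have hmo := hm.2
      rw [hF]
      simp only
      rw [M1_expand]
      have h6 : ∀ q ∈ QQ 0 X, q ≠ 2 →
          (if ((u : ℤ) < m - q ∧ m - q ≤ (v : ℤ)) then nu W (m - q) else 0) = 0 := by
        intro q hq hq2
        unfold QQ at hq
        rw [Finset.mem_filter] at hq
        have hqo : Odd q := hq.2.odd_of_ne_two hq2
        have hqz : ¬ Even (q : ℤ) := by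
          rw [Int.even_coe_nat]
          exact Nat.not_even_iff_odd.2 hqo
        have hev : Even (m - q) := by
          rw [Int.even_sub]
          tauto
        have h7 : nu W (m - q) = 0 := by
          unfold nu
          rw [if_neg]
          intro hcop
          obtain ⟨c, hc⟩ := hev
          have h8 : (2 : ℤ) ∣ m - q := ⟨c, by linarith⟩
          have h9 : (2 : ℤ) ∣ (W : ℤ) := by exact_mod_cast h2
          have h10 := hcop.isUnit_of_dvd' h8 h9
          rw [Int.isUnit_iff] at h10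
          rcases h10 with h10 | h10 <;> norm_num at h10
        rw [h7, ite_self]
      by_cases hmem : (2 : ℕ) ∈ QQ 0 X
      · rw [Finset.sum_eq_single_of_mem 2 hmem (fun q hq hne => h6 q hq hne)]
        push_cast
        split_ifs with h7
        · exact nu_le W hW _
        · exact le_rfl
      · rw [Finset.sum_eq_zero fun q hq => h6 q hq (fun h => hmem (h ▸ hq))]
        split_ifs
        · exact hWr.le
        · exact le_rfl
    refine (Finset.sum_le_sum h5).trans ?_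
    rw [← Finset.sum_filter, Finset.sum_const, nsmul_eq_mul, mul_comm]
    apply mul_le_mul_of_nonneg_left _ hWr.le
    have h7 : (((Finset.Ioc (0 : ℤ) (X : ℤ)).filter (fun m => ¬ Even m)).filter
        (fun m => (u : ℤ) < m - 2 ∧ m - 2 ≤ (v : ℤ))) ⊆ (Finset.Ioc (0 : ℤ) (v : ℤ)).image (fun n => n + 2) := by
      intro m hm
      rw [Finset.mem_filter] at hm
      rw [Finset.mem_image]
      refine ⟨m - 2, ?_, by ring⟩
      rw [Finset.mem_Ioc]
      omega
    have h8 := (Finset.card_le_card h7).trans Finset.card_image_le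
    rw [Int.card_Ioc] at h8
    have h9 : ((v : ℤ) - 0).toNat = v := by simp
    rw [h9] at h8
    exact_mod_cast h8
  -- assembly
  have hsplit : ∑ m ∈ (Finset.Ioc (0 : ℤ) (X : ℤ)).filter (fun m => Even m), F m
      + ∑ m ∈ (Finset.Ioc (0 : ℤ) (X : ℤ)).filter (fun m => ¬ Even m), F m
      = ∑ m ∈ Finset.Ioc (0 : ℤ) (X : ℤ), F m := Finset.sum_filter_add_sum_filter_not _ _ _
  have hlam : ∑ m ∈ (Finset.Ioc (0 : ℤ) (X : ℤ)).filter (fun m => Even m), Lam W X a b m
      = (∑ m ∈ (Finset.Ioc (0 : ℤ) (X : ℤ)).filter (fun m => Even m), F m) / M := by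
    rw [Finset.sum_div]
    rfl
  rw [hlam, le_div_iff₀ hMpos]
  -- lower bound of the number of primes
  have hbL3 : (4 * b + 4 * b * (b - a) / δ) * (L ^ 2 * M) ≤ X := by
    refine le_trans ?_ hcub
    apply mul_le_mul_of_nonneg_left hL2M
    positivity
  have hA0 : 0 ≤ X / (4 * L) - b * (L * M) := by
    have h5 : 4 * b * (L ^ 2 * M) ≤ X := by
      refine le_trans ?_ hbL3
      apply mul_le_mul_of_nonneg_right _ (by positivity)
      have : 0 ≤ 4 * b * (b - a) / δ := by positivity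
      linarith
    have h6 : b * (L * M) ≤ X / (4 * L) := by
      rw [le_div_iff₀ (by positivity)]
      calc b * (L * M) * (4 * L) = 4 * b * (L ^ 2 * M) := by ring
        _ ≤ X := h5
    linarith
  have hA1 : X / (4 * L) - b * (L * M) ≤ ((QQ 0 (X - v)).card : ℝ) := by linarith
  have hT : (X / (4 * L) - b * (L * M)) * ((b - a) * (L * M) - K)
      ≤ ∑ m ∈ Finset.Ioc (0 : ℤ) (X : ℤ), F m := by
    refine le_trans ?_ htotal
    calc (X / (4 * L) - b * (L * M)) * ((b - a) * (L * M) - K)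
        ≤ (X / (4 * L) - b * (L * M)) * ∑ n ∈ Finset.Ioc (u : ℤ) (v : ℤ), nu W n :=
          mul_le_mul_of_nonneg_left hnu1 hA0
      _ ≤ _ := mul_le_mul_of_nonneg_right hA1 hnu0
  have e1 : (X / (4 * L) - b * (L * M)) * ((b - a) * (L * M) - K)
      = (b - a) / 4 * X * M - X * K / (4 * L) - b * (b - a) * (L ^ 2 * M) * M + b * L * M * K := by
    field_simp
    ring
  have e2 : 0 ≤ b * L * M * K := by positivity
  have e3 : X * K / (4 * L) ≤ δ / 4 * X * M := by
    rw [div_le_iff₀ (by positivity)]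
    have h5 : K ≤ δ * L := by
      rw [div_le_iff₀ hδ] at hLK
      linarith
    calc X * K ≤ X * (δ * L) := by gcongr
      _ = δ / 4 * X * 1 * (4 * L) := by ring
      _ ≤ δ / 4 * X * M * (4 * L) := by
          gcongr
          linarith
  have e4 : b * (b - a) * (L ^ 2 * M) * M ≤ δ / 4 * X * M := by
    apply mul_le_mul_of_nonneg_right _ hMpos.le
    have h5 : 4 * b * (b - a) / δ * (L ^ 2 * M) ≤ X := by
      refine le_trans ?_ hbL3
      apply mul_le_mul_of_nonneg_right _ (by positivity)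
      linarith
    calc b * (b - a) * (L ^ 2 * M) = δ / 4 * (4 * b * (b - a) / δ * (L ^ 2 * M)) := by
          field_simp
      _ ≤ δ / 4 * X := by gcongr
  have e5 : (W : ℝ) * v ≤ δ / 4 * X * M := by
    have h5 : 4 * W * b / δ * L ≤ X := by
      refine le_trans ?_ hWb
      apply mul_le_mul_of_nonneg_left _ (by positivity)
      nlinarith
    calc (W : ℝ) * v ≤ W * (b * (L * M)) := by gcongr
      _ = δ / 4 * (4 * W * b / δ * L) * M := by
          field_simp
      _ ≤ δ / 4 * X * M := by gcongr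
  have e6 : ((b - a) / 4 - δ) * X * M = (b - a) / 4 * X * M - δ * X * M := by ring
  have e7 : 0 ≤ δ * X * M := by positivity
  rw [e6]
  linarith

end Pool.Agent.Lib.MP_bae66e_nt.LP
end

section

/-!
# LP/M2a: the second moment of the intensity
-/

set_option autoImplicit false

open Finset Filter Topology

namespace Pool.Agent.Lib.MP_bae66e_nt.LP

open Pool.Agent.Lib.MP_bae66e_nt.LL

/-- Correlations of the model on an interval: for squarefree `W`, `u ≤ v`, `e ≠ 0`:
`∑_{u < n ≤ v} nu W n nu W (n + e) ≤ (v - u)/ρ(|e|) + 2 W³` (`abs_sum_periodic_sub_le`,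
`sum_nu_eq_SS`, `SS_pair_le`). -/
lemma sum_nu_nu_le (W : ℕ) (hW : Squarefree W) (u v : ℕ) (huv : u ≤ v) (e : ℤ) (he : e ≠ 0) :
    ∑ n ∈ Finset.Ioc (u : ℤ) (v : ℤ), nu W n * nu W (n + e)
      ≤ ((v : ℝ) - u) / rho e.natAbs + 2 * (W : ℝ) ^ 3 := by
  have hW1 : 1 ≤ W := Nat.one_le_iff_ne_zero.2 hW.ne_zero
  have hWr : (0 : ℝ) < W := by exact_mod_cast hW1
  have hper : ∀ n m : ℤ, n ≡ m [ZMOD (W : ℤ)] →
      nu W n * nu W (n + e) = nu W m * nu W (m + e) := by
    intro n m hnm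
    rw [nu_periodic W n m hnm, nu_periodic W (n + e) (m + e) (hnm.add_right e)]
  have hM : ∀ n : ℤ, |nu W n * nu W (n + e)| ≤ (W : ℝ) * W := by
    intro n
    rw [abs_of_nonneg (mul_nonneg (nu_nonneg W n) (nu_nonneg W (n + e)))]
    exact mul_le_mul (nu_le W hW1 n) (nu_le W hW1 (n + e)) (nu_nonneg W (n + e)) hWr.le
  have h1 := abs_sum_periodic_sub_le W hW1 (fun n => nu W n * nu W (n + e)) hper
    ((W : ℝ) * W) hM ((u : ℤ) + 1) (v - u)
  have h2 : ∑ n ∈ Finset.Ioc (u : ℤ) (v : ℤ), nu W n * nu W (n + e) =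
      ∑ t ∈ Finset.range (v - u), nu W ((u : ℤ) + 1 + t) * nu W ((u : ℤ) + 1 + t + e) := by
    symm
    refine Finset.sum_bij (fun (t : ℕ) _ => (u : ℤ) + 1 + t) ?_ ?_ ?_ ?_
    · intro t ht
      have := Finset.mem_range.1 ht
      rw [Finset.mem_Ioc]
      omega
    · intro a _ b _ hab
      simpa using hab
    · intro n hn
      rw [Finset.mem_Ioc] at hn
      refine ⟨(n - u - 1).toNat, ?_, ?_⟩
      · rw [Finset.mem_range]
        omega
      · omega
    · intro t _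
      rfl
  have h3 := sum_nu_eq_SS W hW (![0, -e] : Fin 2 → ℤ)
  have h4 : ∑ c ∈ Finset.range W, nu W (c : ℤ) * nu W ((c : ℤ) + e) =
      W * SS W (![0, -e] : Fin 2 → ℤ) := by
    rw [← h3]
    refine Finset.sum_congr rfl fun c _ => ?_
    rw [Fin.prod_univ_two]
    simp
  have h5 := SS_pair_le W e he
  have h6 : ((v - u : ℕ) : ℝ) = (v : ℝ) - u := by
    rw [Nat.cast_sub huv]
  have h7 : (0 : ℝ) ≤ (v : ℝ) - u := by
    rw [sub_nonneg]
    exact_mod_cast huv
  rw [h2]
  rw [h4, h6] at h1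
  have h8 : ((v : ℝ) - u) / W * (W * SS W (![0, -e] : Fin 2 → ℤ)) ≤
      ((v : ℝ) - u) / rho e.natAbs := by
    calc ((v : ℝ) - u) / W * (W * SS W (![0, -e] : Fin 2 → ℤ)) =
          ((v : ℝ) - u) * SS W (![0, -e] : Fin 2 → ℤ) := by
          field_simp
      _ ≤ ((v : ℝ) - u) * (1 / rho e.natAbs) := mul_le_mul_of_nonneg_left h5 h7
      _ = ((v : ℝ) - u) / rho e.natAbs := by ring
  have h9 := le_abs_self ((∑ t ∈ Finset.range (v - u),
    nu W ((u : ℤ) + 1 + t) * nu W ((u : ℤ) + 1 + t + e)) -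
      ((v : ℝ) - u) / W * (W * SS W (![0, -e] : Fin 2 → ℤ)))
  have h10 : 2 * (W : ℝ) * ((W : ℝ) * W) = 2 * (W : ℝ) ^ 3 := by ring
  linarith

end Pool.Agent.Lib.MP_bae66e_nt.LP
end

section

/-!
# LP/M2b: the second moment of the intensity
-/

set_option autoImplicit false

open Finset Filter Topology

namespace Pool.Agent.Lib.MP_bae66e_nt.LP

open Pool.Agent.Lib.MP_bae66e_nt.LL

/-- Pairs of primes: a general bound for double sums. Let `c ≥ 0` be a function on `ℕ` and `D ≥ 1`.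
Then `∑_{q, q' ∈ QQ 0 X, 0 < |q - q'| ≤ D} c(|q - q'|) ≤ 2 ∑_{1 ≤ d ≤ D} #pairsN d X · c(d)`. -/
lemma sum_pairs_le (X D : ℕ) (c : ℕ → ℝ) (hc : ∀ d, 0 ≤ c d) :
    ∑ x ∈ (QQ 0 X ×ˢ QQ 0 X).filter (fun x => x.1 ≠ x.2 ∧ ((x.1 : ℤ) - x.2).natAbs ≤ D),
      c ((x.1 : ℤ) - x.2).natAbs
      ≤ 2 * ∑ d ∈ Finset.Icc 1 D, ((pairsN d X).card : ℝ) * c d := by
  classical
  set P : Finset (ℕ × ℕ) := (QQ 0 X ×ˢ QQ 0 X).filter
    (fun x => x.1 ≠ x.2 ∧ ((x.1 : ℤ) - x.2).natAbs ≤ D) with hP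
  have hmemQ : ∀ q, q ∈ QQ 0 X ↔ (0 < q ∧ q ≤ X) ∧ q.Prime := by
    intro q
    unfold QQ
    rw [Finset.mem_filter, Finset.mem_Ioc, zero_add]
  have hR : ∑ d ∈ Finset.Icc 1 D, ((pairsN d X).card : ℝ) * c d =
      ∑ y ∈ (Finset.Icc 1 D).sigma (fun d => pairsN d X), c y.1 := by
    rw [Finset.sum_sigma]
    refine Finset.sum_congr rfl fun d _ => ?_
    simp only [Finset.sum_const, nsmul_eq_mul]
  rw [← Finset.sum_filter_add_sum_filter_not P (fun x => x.1 < x.2), hR, two_mul]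
  refine add_le_add ?_ ?_
  · have hinj : Set.InjOn (fun x : ℕ × ℕ => (⟨x.2 - x.1, x.1⟩ : Σ _ : ℕ, ℕ))
        (P.filter (fun x => x.1 < x.2)) := by
      rintro ⟨a, b⟩ hab ⟨a', b'⟩ hab' h
      simp only [Finset.coe_filter, Set.mem_ofPred_eq] at hab hab'
      simp only [Sigma.mk.injEq, heq_eq_eq] at h
      have := hab.2
      have := hab'.2
      simp only [Prod.mk.injEq]
      omega
    have h1 : ∑ x ∈ P.filter (fun x => x.1 < x.2), c ((x.1 : ℤ) - x.2).natAbs =
        ∑ y ∈ (P.filter (fun x => x.1 < x.2)).image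
          (fun x : ℕ × ℕ => (⟨x.2 - x.1, x.1⟩ : Σ _ : ℕ, ℕ)), c y.1 := by
      rw [Finset.sum_image hinj]
      refine Finset.sum_congr rfl fun x hx => ?_
      rw [Finset.mem_filter] at hx
      have h2 := hx.2
      congr 1
      simp only
      omega
    rw [h1]
    refine Finset.sum_le_sum_of_subset_of_nonneg ?_ fun y _ _ => hc _
    intro y hy
    rw [Finset.mem_image] at hy
    obtain ⟨x, hx, rfl⟩ := hy
    rw [Finset.mem_filter, hP, Finset.mem_filter, Finset.mem_product, hmemQ, hmemQ] at hx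
    obtain ⟨⟨⟨⟨h1, h2⟩, h3, h4⟩, h5, h6⟩, h7⟩ := hx
    simp only [Finset.mem_sigma, Finset.mem_Icc]
    refine ⟨⟨by omega, by omega⟩, ?_⟩
    unfold pairsN
    rw [Finset.mem_filter, Finset.mem_Ioc]
    refine ⟨h1, h2, ?_⟩
    have : 1 * x.1 + (x.2 - x.1) = x.2 := by omega
    rw [this]
    exact h4
  · have hinj : Set.InjOn (fun x : ℕ × ℕ => (⟨x.1 - x.2, x.2⟩ : Σ _ : ℕ, ℕ))
        (P.filter (fun x => ¬ x.1 < x.2)) := by
      rintro ⟨a, b⟩ hab ⟨a', b'⟩ hab' h
      simp only [Finset.coe_filter, Set.mem_ofPred_eq] at hab hab'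
      simp only [Sigma.mk.injEq, heq_eq_eq] at h
      have := hab.2
      have := hab'.2
      simp only [Prod.mk.injEq]
      omega
    have h1 : ∑ x ∈ P.filter (fun x => ¬ x.1 < x.2), c ((x.1 : ℤ) - x.2).natAbs =
        ∑ y ∈ (P.filter (fun x => ¬ x.1 < x.2)).image
          (fun x : ℕ × ℕ => (⟨x.1 - x.2, x.2⟩ : Σ _ : ℕ, ℕ)), c y.1 := by
      rw [Finset.sum_image hinj]
      refine Finset.sum_congr rfl fun x hx => ?_
      rw [Finset.mem_filter] at hx
      have h2 := hx.2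
      congr 1
      simp only
      omega
    rw [h1]
    refine Finset.sum_le_sum_of_subset_of_nonneg ?_ fun y _ _ => hc _
    intro y hy
    rw [Finset.mem_image] at hy
    obtain ⟨x, hx, rfl⟩ := hy
    rw [Finset.mem_filter, hP, Finset.mem_filter, Finset.mem_product, hmemQ, hmemQ] at hx
    obtain ⟨⟨⟨⟨h1, h2⟩, h3, h4⟩, h5, h6⟩, h7⟩ := hx
    simp only [Finset.mem_sigma, Finset.mem_Icc]
    refine ⟨⟨by omega, by omega⟩, ?_⟩
    unfold pairsN
    rw [Finset.mem_filter, Finset.mem_Ioc]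
    refine ⟨h3, h4, ?_⟩
    have : 1 * x.2 + (x.1 - x.2) = x.1 := by omega
    rw [this]
    exact h2

end Pool.Agent.Lib.MP_bae66e_nt.LP
end
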