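import Pool.Agent.Lib.MP_bae66e_nt.Mg.G054
import Pool.Agent.Lib.MP_bae66e_nt.Mg.G053
import Pool.Agent.Lib.MP_bae66e_nt.Mg.G046
import Pool.Agent.Lib.MP_bae66e_nt.Mg.G055
import Pool.Agent.Lib.MP_bae66e_nt.Mg.G058

section

/-!
# LP/R1c: the intensity of one class is almost constant on average
-/

set_option autoImplicit false

open Finset Filter Topology

namespace Pool.Agent.Lib.MP_bae66e_nt.LP

open Pool.Agent.Lib.MP_bae66e_nt.LL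

lemma r1c_le_of_sq (x y : ℝ) (h : x * x = y) (hx : 1 ≤ x) : x ≤ y := by
  rw [← h]
  exact le_mul_of_one_le_left (by linarith) hx

lemma r1c_sq (x y : ℝ) (h0 : 0 ≤ y) (h : y ≤ x + 1) : y ^ 2 ≤ 2 * x ^ 2 + 2 := by
  have h1 : y ^ 2 ≤ (x + 1) ^ 2 := by gcongr
  have h2 := sq_nonneg (x - 1)
  have h3 : (x + 1) ^ 2 = x ^ 2 + 2 * x + 1 := by ring
  have h4 : (x - 1) ^ 2 = x ^ 2 - 2 * x + 1 := by ring
  linarith

lemma r1c_mul (l M : ℝ) (hl : 1 ≤ l) (hM : 1 ≤ M) : 1 ≤ l * M :=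
  one_le_mul_of_one_le_of_one_le hl hM

lemma r1c_Δ1 (u v a b B T : ℝ) (hB : B = b - a) (h4 : v ≤ b * T) (h5 : a * T - 1 ≤ u) :
    v - u ≤ B * T + 1 := by
  have : B * T = b * T - a * T := by rw [hB]; ring
  linarith

lemma r1c_Δ2 (Δ B T : ℝ) (h : Δ ≤ B * T + 1) (hT : 1 ≤ T) : Δ ≤ (B + 1) * T := by
  have : (B + 1) * T = B * T + T := by ring
  linarith

lemma r1c_t1 (ω l M B W X : ℝ) (hl : l ≠ 0) (hM : M ≠ 0) :
    ω ^ 2 / l ^ 2 * ((5 * X / M) * (((B + 1) * (M * l)) * W ^ 2)) =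
      5 * ω ^ 2 * (B + 1) * W ^ 2 * X / l := by
  field_simp

lemma r1c_e3 (ω l M P R C6 C6' Δ X : ℝ) (hl : l ≠ 0) (hM : M ≠ 0) (hP : P ≠ 0) (hR : R ≠ 0) :
    ω ^ 2 / l ^ 2 * (2 * (2000 * X / M ^ 2 * (Δ / P * (4 / R) * (C6 * ω ^ 6 * (Δ / P)) +
        Δ / P * 4 * (C6' * ω ^ 6 * (Δ / P) / R)))) =
        16000 * (C6 + C6') * ω ^ 8 * X / (l ^ 2 * M ^ 2 * (P ^ 2 * R)) * Δ ^ 2 := by
  field_simp
  ring

lemma r1c_t2 (ω l M B P R C X : ℝ) (hl : l ≠ 0) (hM : M ≠ 0) (hP : P ≠ 0) (hR : R ≠ 0) :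
    16000 * C * ω ^ 8 * X / (l ^ 2 * M ^ 2 * (P ^ 2 * R)) * (2 * (B * (M * l)) ^ 2 + 2) =
      32000 * C * ω ^ 8 * B ^ 2 / (P ^ 2 * R) * X +
          (32000 * C * ω ^ 8 * X / l) / (l * M ^ 2 * (P ^ 2 * R)) := by
  field_simp
  ring

lemma r1c_t3 (ω l M B W P C2 X : ℝ) (hl : l ≠ 0) (hM : M ≠ 0) (hP : P ≠ 0) :
    ω ^ 2 / l ^ 2 * (2 * (2000 * X / M ^ 2 *
          (4 * W ^ 3 * (C2 * ω ^ 2 * (((B + 1) * (M * l)) / P))))) =
      (16000 * ω ^ 4 * W ^ 3 * C2 * (B + 1) * X / l) / (M * P) := by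
  field_simp
  ring

lemma r1c_t4 (E δ l X : ℝ) (hδ : 0 < δ) (hl0 : 0 < l) (hX : 0 ≤ X) (h : E / δ ≤ l) :
    E * X / l ≤ δ * X := by
  rw [div_le_iff₀ hδ] at h
  rw [div_le_iff₀ hl0]
  calc E * X ≤ (l * δ) * X := mul_le_mul_of_nonneg_right h hX
    _ = δ * X * l := by ring

lemma r1c_den (l M P R : ℝ) (hl : 1 ≤ l) (hM : 1 ≤ M) (hP : 1 ≤ P) (hR : 1 ≤ R) :
    1 ≤ l * M ^ 2 * (P ^ 2 * R) :=
  r1c_mul _ _ (r1c_mul _ _ hl (one_le_pow₀ hM)) (r1c_mul _ _ (one_le_pow₀ hP) hR)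

lemma r1c_final (A B C D E F G : ℝ) (h1 : A ≤ E) (h2 : B ≤ F + G) (h3 : C ≤ D) :
    A + B + C ≤ F + (E + G + D) := by
  linarith


/-- **The variance.** There is an absolute `K` such that for `w₁ ≥ 4`, `w ≥ w₁`, `g - r` coprime to
`W₀ = primorial w₁`, `0 ≤ a ≤ b`, `δ > 0` and large `X`, for every finite set `S`:
`∑_{m ∈ S} (LamR - (W₀/φ(W₀)) ThG)² ≤ (K (W₀/φ(W₀))^8 (b - a)²/(W₀² √w₁) + δ) X`, `W = primorial w`.

PROOF. `primorial_split`: `W = W₀ W₁` with all primes of `W₁` above `w₁`. `variance_expand`,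
`abs_SS_pair_sub_one_le`, `card_pairsN_le` (`≤ 2000 X ρ(d)^{-2}/log² X`), `card_QQ_bounds`. The terms with
`W₁²`, `4 W₁³` are `o(X)`: `#QQ (v - u)/ell² ≤ 5 X (b L + 1)/(log X ell²)`, and
`∑_{d ≤ v} 2000 X ρ(d)^{-2}/(log² X ell²) 4 W₁³ ≤ C X (b L + 1)/(log² X ell²)`. Main term:
`2 (W₀/φ)² ((v - u)/W₀) (2000 X/(log X ell)²) ∑_{d ≤ v - u, W₀ ∣ d} ρ(d)^{-6} (4/w₁ + 4 sig w₁ d)
≤ C (W₀/φ)² (W₀/φ)^6 ((v - u)/W₀)² X/((log X ell)² √w₁)` (`sum_rho_multiples_le 6`,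
`sum_rho_sig_multiples_le 6`, `rho_eq_totient_div`, `1/w₁ ≤ 1/√w₁`), and
`v - u ≤ (b - a) L + 1`. -/
theorem variance_le : ∃ K : ℝ, 1 ≤ K ∧ ∀ w₁ : ℕ, 4 ≤ w₁ → ∀ w : ℕ, w₁ ≤ w → ∀ r g : ℤ,
    IsCoprime (g - r) ((primorial w₁ : ℕ) : ℤ) → ∀ a b : ℝ, 0 ≤ a → a ≤ b → ∀ δ : ℝ, 0 < δ →
    ∃ X₀ : ℕ, ∀ X : ℕ, X₀ ≤ X → ∀ S : Finset ℤ,
      ∑ m ∈ S, (LamR (primorial w) (primorial w₁) r X a b g m
        - ((primorial w₁ : ℕ) : ℝ) / (Nat.totient (primorial w₁) : ℝ)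
          * ThG (primorial w₁) r X a b g m) ^ 2
      ≤ (K * (((primorial w₁ : ℕ) : ℝ) / (Nat.totient (primorial w₁) : ℝ)) ^ 8 * (b - a) ^ 2
          / (((primorial w₁ : ℕ) : ℝ) ^ 2 * Real.sqrt w₁) + δ) * X := by
  classical
  obtain ⟨C6, hC6, h6⟩ := sum_rho_multiples_le 6
  obtain ⟨C6', hC6', h6'⟩ := sum_rho_sig_multiples_le 6
  obtain ⟨C2, hC2, h2⟩ := sum_rho_multiples_le 2
  refine ⟨32000 * (C6 + C6'), by linarith, ?_⟩
  intro w₁ hw₁ w hw r g hg a b ha hab δ hδ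
  obtain ⟨W₁, hW, hsq1, hcop, hpr⟩ := primorial_split w₁ w hw
  set W₀ := primorial w₁ with hW₀
  have hsq0 : Squarefree W₀ := _root_.squarefree_primorial w₁
  have hW0 : 1 ≤ W₀ := Nat.one_le_iff_ne_zero.2 hsq0.ne_zero
  have hW1 : 1 ≤ W₁ := Nat.one_le_iff_ne_zero.2 hsq1.ne_zero
  set P : ℝ := ((W₀ : ℕ) : ℝ) with hP
  have hP1 : (1 : ℝ) ≤ P := by
    rw [hP]
    exact_mod_cast hW0
  have hP0 : (0 : ℝ) < P := by linarith
  have hφ : (0 : ℝ) < (Nat.totient W₀ : ℝ) := by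
    have : 0 < Nat.totient W₀ := Nat.totient_pos.2 hW0
    exact_mod_cast this
  set ω : ℝ := P / (Nat.totient W₀ : ℝ) with hω
  have hω0 : 0 < ω := by positivity
  have hρ : 1 / rho W₀ = ω := by
    rw [rho_eq_totient_div W₀ hW0, one_div_div]
  set R : ℝ := Real.sqrt w₁ with hR
  have hw1r : (1 : ℝ) ≤ w₁ := by
    have : 1 ≤ w₁ := by omega
    exact_mod_cast this
  have hR1 : 1 ≤ R := by
    rw [hR, Real.one_le_sqrt]
    exact hw1r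
  have hR0 : 0 < R := by linarith
  have hRw : R ≤ w₁ := r1c_le_of_sq R w₁ (Real.mul_self_sqrt (by linarith)) hR1
  set B := b - a with hB
  have hB0 : 0 ≤ B := by rw [hB]; linarith
  set E : ℝ := 5 * ω ^ 2 * (B + 1) * (W₁ : ℝ) ^ 2 + 32000 * (C6 + C6') * ω ^ 8 +
    16000 * ω ^ 4 * (W₁ : ℝ) ^ 3 * C2 * (B + 1) with hE
  have hE0 : 0 ≤ E := by positivity
  obtain ⟨X₀, hX₀⟩ := growth (16 + E / δ) (by
    have : 0 ≤ E / δ := by positivity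
    linarith)
  refine ⟨X₀, fun X hX S => ?_⟩
  obtain ⟨g1, g2, -, -, g5⟩ := hX₀ X hX
  have hEδ : 0 ≤ E / δ := by positivity
  set l := ell X with hl
  set M := Real.log X with hM
  have hl1 : 16 ≤ l := by linarith
  have hM1 : 16 ≤ M := by linarith
  have hl0 : 0 < l := by linarith
  have hM0 : 0 < M := by linarith
  have hlM : 0 ≤ M * l := by positivity
  have hX16 : 16 ≤ X := by
    have : (16 : ℝ) ≤ X := by linarith
    exact_mod_cast this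
  have hXr : (0 : ℝ) < X := by
    have : (16 : ℝ) ≤ X := by linarith
    linarith
  have huv : yX a X ≤ yX b X := yX_mono X hlM hab
  have hexp := variance_expand W₀ W₁ hsq0 hsq1 hcop r g hg X a b huv S
  rw [hW]
  set u := yX a X with hu
  set v := yX b X with hv
  have hD0 : ((v - u : ℕ) : ℝ) = (v : ℝ) - u := by rw [Nat.cast_sub huv]
  set Δ : ℝ := (v : ℝ) - u with hΔ
  have hΔ0 : 0 ≤ Δ := by
    rw [← hD0]
    exact Nat.cast_nonneg _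
  have hΔ1 : Δ ≤ B * (M * l) + 1 := by
    have h4 := yX_le X hlM (ha.trans hab)
    have h5 := le_yX X a
    exact r1c_Δ1 _ _ a b B (M * l) hB h4 h5
  have hΔ2 : Δ ≤ (B + 1) * (M * l) :=
    r1c_Δ2 _ _ _ hΔ1 (r1c_mul _ _ (by linarith) (by linarith))
  have hΔ3 : Δ ^ 2 ≤ 2 * (B * (M * l)) ^ 2 + 2 := r1c_sq _ _ hΔ0 hΔ1
  have hcard := (card_QQ_bounds X hX16).2
  have hrho : ∀ n : ℕ, 0 ≤ rho n := by
    intro n
    unfold rho
    refine Finset.prod_nonneg fun p hp => ?_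
    have hp2 : (2 : ℝ) ≤ p := by exact_mod_cast (Nat.prime_of_mem_primeFactors hp).two_le
    rw [sub_nonneg, div_le_one (by linarith)]
    linarith
  have hsig : ∀ d : ℕ, 0 ≤ sig w₁ d := by
    intro d
    unfold sig
    exact Finset.sum_nonneg fun p _ => by positivity
  -- one term of the sum over `d`
  have hterm : ∀ d ∈ (Finset.Icc 1 (v - u)).filter (fun d => W₀ ∣ d),
      ((pairsN d X).card : ℝ) * (Δ / P
        * max |SS W₁ (![0, (d : ℤ)] : Fin 2 → ℤ) - 1| |SS W₁ (![0, -(d : ℤ)] : Fin 2 → ℤ) - 1|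
        + 4 * (W₁ : ℝ) ^ 3) ≤
      2000 * X / M ^ 2 * (Δ / P * (4 / R) * (1 / rho d) ^ 6 +
        Δ / P * 4 * ((1 / rho d) ^ 6 * sig w₁ d) + 4 * (W₁ : ℝ) ^ 3 * (1 / rho d) ^ 2) := by
    intro d hd
    rw [Finset.mem_filter, Finset.mem_Icc] at hd
    have hd0 : (d : ℤ) ≠ 0 := by omega
    have q1 := abs_SS_pair_sub_one_le W₁ w₁ hw₁ hpr (d : ℤ) hd0
    have q2 := abs_SS_pair_sub_one_le W₁ w₁ hw₁ hpr (-(d : ℤ)) (by omega)
    rw [Int.natAbs_natCast] at q1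
    rw [Int.natAbs_neg, Int.natAbs_natCast] at q2
    have q3 := max_le q1 q2
    have q4 : (4 / (w₁ : ℝ) + 4 * sig w₁ d) * (1 / rho d) ^ 4 ≤
        (4 / R + 4 * sig w₁ d) * (1 / rho d) ^ 4 := by
      have := hrho d
      gcongr
    have q5 := card_pairsN_le d X hd.1.1 (by omega)
    have hmx : 0 ≤ max |SS W₁ (![0, (d : ℤ)] : Fin 2 → ℤ) - 1|
        |SS W₁ (![0, -(d : ℤ)] : Fin 2 → ℤ) - 1| := le_max_of_le_left (abs_nonneg _)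
    have hr0 := hrho d
    have hs0 := hsig d
    calc ((pairsN d X).card : ℝ) * (Δ / P
        * max |SS W₁ (![0, (d : ℤ)] : Fin 2 → ℤ) - 1| |SS W₁ (![0, -(d : ℤ)] : Fin 2 → ℤ) - 1|
        + 4 * (W₁ : ℝ) ^ 3) ≤
          (2000 * X / ((rho d) ^ 2 * (Real.log X) ^ 2)) *
            (Δ / P * ((4 / R + 4 * sig w₁ d) * (1 / rho d) ^ 4) + 4 * (W₁ : ℝ) ^ 3) := by
          refine mul_le_mul q5 ?_ (by positivity) (by positivity)
          have := q3.trans q4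
          gcongr
      _ = _ := by
          have e2 : 2000 * (X : ℝ) / ((rho d) ^ 2 * (Real.log X) ^ 2) =
              2000 * X / M ^ 2 * (1 / rho d) ^ 2 := by
            rw [← hM]
            by_cases hz : rho d = 0
            · rw [hz]
              simp
            · field_simp
          rw [e2]
          ring
  have hsum : ∑ d ∈ (Finset.Icc 1 (v - u)).filter (fun d => W₀ ∣ d),
      ((pairsN d X).card : ℝ) * (Δ / P
        * max |SS W₁ (![0, (d : ℤ)] : Fin 2 → ℤ) - 1| |SS W₁ (![0, -(d : ℤ)] : Fin 2 → ℤ) - 1|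
        + 4 * (W₁ : ℝ) ^ 3) ≤
      2000 * X / M ^ 2 * (Δ / P * (4 / R) * (C6 * ω ^ 6 * (Δ / P)) +
        Δ / P * 4 * (C6' * ω ^ 6 * (Δ / P) / R) + 4 * (W₁ : ℝ) ^ 3 * (C2 * ω ^ 2 * (Δ / P))) := by
    refine (Finset.sum_le_sum hterm).trans ?_
    have s6 := h6 W₀ hW0 (v - u)
    have s6' := h6' w₁ (by omega) (v - u)
    have s2 := h2 W₀ hW0 (v - u)
    rw [hD0, hρ] at s6 s2
    rw [← hW₀, hD0, hρ] at s6'
    rw [← Finset.mul_sum, Finset.sum_add_distrib, Finset.sum_add_distrib, ← Finset.mul_sum,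
      ← Finset.mul_sum, ← Finset.mul_sum]
    gcongr
  refine hexp.trans ?_
  -- the three parts
  have t1 : ω ^ 2 / l ^ 2 * (((QQ 0 X).card : ℝ) * (Δ * (W₁ : ℝ) ^ 2)) ≤
      5 * ω ^ 2 * (B + 1) * (W₁ : ℝ) ^ 2 * X / l := by
    calc ω ^ 2 / l ^ 2 * (((QQ 0 X).card : ℝ) * (Δ * (W₁ : ℝ) ^ 2)) ≤
          ω ^ 2 / l ^ 2 * ((5 * X / M) * (((B + 1) * (M * l)) * (W₁ : ℝ) ^ 2)) := by
          gcongr
      _ = 5 * ω ^ 2 * (B + 1) * (W₁ : ℝ) ^ 2 * X / l :=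
          r1c_t1 _ _ _ _ _ _ hl0.ne' hM0.ne'
  have t2 : ω ^ 2 / l ^ 2 * (2 * (2000 * X / M ^ 2 * (Δ / P * (4 / R) * (C6 * ω ^ 6 * (Δ / P)) +
        Δ / P * 4 * (C6' * ω ^ 6 * (Δ / P) / R)))) ≤
      32000 * (C6 + C6') * ω ^ 8 * B ^ 2 / (P ^ 2 * R) * X +
        32000 * (C6 + C6') * ω ^ 8 * X / l := by
    have e3 : ω ^ 2 / l ^ 2 * (2 * (2000 * X / M ^ 2 * (Δ / P * (4 / R) * (C6 * ω ^ 6 * (Δ / P)) +
        Δ / P * 4 * (C6' * ω ^ 6 * (Δ / P) / R)))) =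
        16000 * (C6 + C6') * ω ^ 8 * X / (l ^ 2 * M ^ 2 * (P ^ 2 * R)) * Δ ^ 2 :=
      r1c_e3 _ _ _ _ _ _ _ _ _ hl0.ne' hM0.ne' hP0.ne' hR0.ne'
    rw [e3]
    calc 16000 * (C6 + C6') * ω ^ 8 * X / (l ^ 2 * M ^ 2 * (P ^ 2 * R)) * Δ ^ 2 ≤
          16000 * (C6 + C6') * ω ^ 8 * X / (l ^ 2 * M ^ 2 * (P ^ 2 * R)) *
            (2 * (B * (M * l)) ^ 2 + 2) := by
          gcongr
      _ = 32000 * (C6 + C6') * ω ^ 8 * B ^ 2 / (P ^ 2 * R) * X +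
          (32000 * (C6 + C6') * ω ^ 8 * X / l) / (l * M ^ 2 * (P ^ 2 * R)) :=
          r1c_t2 _ _ _ _ _ _ _ _ hl0.ne' hM0.ne' hP0.ne' hR0.ne'
      _ ≤ _ := by
          have h9 : (32000 * (C6 + C6') * ω ^ 8 * X / l) / (l * M ^ 2 * (P ^ 2 * R)) ≤
              32000 * (C6 + C6') * ω ^ 8 * X / l := by
            exact div_le_self (by positivity)
              (r1c_den _ _ _ _ (by linarith) (by linarith) hP1 hR1)
          exact (add_le_add_iff_left _).2 h9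
  have t3 : ω ^ 2 / l ^ 2 * (2 * (2000 * X / M ^ 2 *
      (4 * (W₁ : ℝ) ^ 3 * (C2 * ω ^ 2 * (Δ / P))))) ≤
      16000 * ω ^ 4 * (W₁ : ℝ) ^ 3 * C2 * (B + 1) * X / l := by
    calc ω ^ 2 / l ^ 2 * (2 * (2000 * X / M ^ 2 *
          (4 * (W₁ : ℝ) ^ 3 * (C2 * ω ^ 2 * (Δ / P))))) ≤
          ω ^ 2 / l ^ 2 * (2 * (2000 * X / M ^ 2 *
          (4 * (W₁ : ℝ) ^ 3 * (C2 * ω ^ 2 * (((B + 1) * (M * l)) / P))))) := by
          gcongr
      _ = (16000 * ω ^ 4 * (W₁ : ℝ) ^ 3 * C2 * (B + 1) * X / l) / (M * P) :=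
          r1c_t3 _ _ _ _ _ _ _ _ hl0.ne' hM0.ne' hP0.ne'
      _ ≤ _ := by
          exact div_le_self (by positivity) (r1c_mul _ _ (by linarith) hP1)
  have t4 : E * X / l ≤ δ * X := r1c_t4 _ _ _ _ hδ hl0 hXr.le (by linarith)
  have e4 : E * X / l = 5 * ω ^ 2 * (B + 1) * (W₁ : ℝ) ^ 2 * X / l +
      32000 * (C6 + C6') * ω ^ 8 * X / l +
      16000 * ω ^ 4 * (W₁ : ℝ) ^ 3 * C2 * (B + 1) * X / l := by
    rw [hE]
    ring
  calc ω ^ 2 / l ^ 2 * (((QQ 0 X).card : ℝ) * (Δ * (W₁ : ℝ) ^ 2) +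
        2 * ∑ d ∈ (Finset.Icc 1 (v - u)).filter (fun d => W₀ ∣ d),
        ((pairsN d X).card : ℝ) * (Δ / P
        * max |SS W₁ (![0, (d : ℤ)] : Fin 2 → ℤ) - 1| |SS W₁ (![0, -(d : ℤ)] : Fin 2 → ℤ) - 1|
        + 4 * (W₁ : ℝ) ^ 3)) ≤
        ω ^ 2 / l ^ 2 * (((QQ 0 X).card : ℝ) * (Δ * (W₁ : ℝ) ^ 2) +
        2 * (2000 * X / M ^ 2 * (Δ / P * (4 / R) * (C6 * ω ^ 6 * (Δ / P)) +
        Δ / P * 4 * (C6' * ω ^ 6 * (Δ / P) / R) +
          4 * (W₁ : ℝ) ^ 3 * (C2 * ω ^ 2 * (Δ / P))))) := by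
        gcongr
    _ = ω ^ 2 / l ^ 2 * (((QQ 0 X).card : ℝ) * (Δ * (W₁ : ℝ) ^ 2)) +
        ω ^ 2 / l ^ 2 * (2 * (2000 * X / M ^ 2 * (Δ / P * (4 / R) * (C6 * ω ^ 6 * (Δ / P)) +
        Δ / P * 4 * (C6' * ω ^ 6 * (Δ / P) / R)))) +
        ω ^ 2 / l ^ 2 * (2 * (2000 * X / M ^ 2 *
          (4 * (W₁ : ℝ) ^ 3 * (C2 * ω ^ 2 * (Δ / P))))) := by ring
    _ ≤ (32000 * (C6 + C6') * ω ^ 8 * B ^ 2 / (P ^ 2 * R) + δ) * X := by
        rw [add_mul]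
        refine (r1c_final _ _ _ _ _ _ _ t1 t2 t3).trans ?_
        rw [← e4]
        exact (add_le_add_iff_left _).2 t4

end Pool.Agent.Lib.MP_bae66e_nt.LP
end

section

end

section

/-!
# LP/F3a: from rich windows of the primes to windows of `g(m + h i)`
-/

set_option autoImplicit false

open Finset Filter Topology

namespace Pool.Agent.Lib.MP_bae66e_nt.LP

open Pool.Agent.Lib.MP_bae66e_nt.LL

/-- The property of `variance_le` with the constant `K`. -/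
def VarProp (K : ℝ) : Prop := ∀ w₁ : ℕ, 4 ≤ w₁ → ∀ w : ℕ, w₁ ≤ w → ∀ r g : ℤ,
    IsCoprime (g - r) ((primorial w₁ : ℕ) : ℤ) → ∀ a b : ℝ, 0 ≤ a → a ≤ b → ∀ δ : ℝ, 0 < δ →
    ∃ X₀ : ℕ, ∀ X : ℕ, X₀ ≤ X → ∀ S : Finset ℤ,
      ∑ m ∈ S, (LamR (primorial w) (primorial w₁) r X a b g m
        - ((primorial w₁ : ℕ) : ℝ) / (Nat.totient (primorial w₁) : ℝ)
          * ThG (primorial w₁) r X a b g m) ^ 2
      ≤ (K * (((primorial w₁ : ℕ) : ℝ) / (Nat.totient (primorial w₁) : ℝ)) ^ 8 * (b - a) ^ 2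
          / (((primorial w₁ : ℕ) : ℝ) ^ 2 * Real.sqrt w₁) + δ) * X

/-- One shift: outside few `m` a rich window of the primes gives a rich window of the intensity. Let
`W₀ = primorial w₁`, `ρ = W₀/φ(W₀)`, `0 ≤ α < β`, `g - r` coprime to `W₀`, `c_Θ > 0`, and
`128 K ρ^6 (β - α)² ≤ c c_Θ² W₀² √w₁`. Then for `w ≥ w₁` and large `X` the number of `m ∈ (0, X]` with
`Th ≥ c_Θ` and `Lam (primorial w) X α β (m + g) < c_Θ/2` is at most `(c/4) X`.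

PROOF. For such an `m`: `LamR ≤ Lam < c_Θ/2 ≤ ρ c_Θ/2`. Either `|ThG - Th| > c_Θ/4`: at most
`(4/c_Θ) δ X` integers (`sum_abs_ThG_sub_Th_le`, `markov`); or `ThG ≥ 3 c_Θ/4` and so
`|LamR - ρ ThG| ≥ ρ c_Θ/4`: at most `16/(ρ² c_Θ²) (K ρ^8 (β - α)²/(W₀² √w₁) + δ) X ≤ (c/8 + 16 δ/c_Θ²) X`
integers (`VarProp`, `ρ ≥ 1`). Take `δ` small. -/
lemma one_shift (K : ℝ) (hK1 : 1 ≤ K) (hK : VarProp K) (w₁ : ℕ) (hw₁ : 4 ≤ w₁) (r g : ℤ)
    (hg : IsCoprime (g - r) ((primorial w₁ : ℕ) : ℤ)) (α β : ℝ) (hα : 0 ≤ α) (hαβ : α < β)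
    (c cΘ : ℝ) (hc : 0 < c) (hcΘ : 0 < cΘ)
    (hvar : 128 * K * (((primorial w₁ : ℕ) : ℝ) / (Nat.totient (primorial w₁) : ℝ)) ^ 6 * (β - α) ^ 2
      ≤ c * cΘ ^ 2 * ((primorial w₁ : ℕ) : ℝ) ^ 2 * Real.sqrt w₁) (w : ℕ) (hw : w₁ ≤ w) :
    ∃ X₀ : ℕ, ∀ X : ℕ, X₀ ≤ X →
      (((Finset.Ioc (0 : ℤ) (X : ℤ)).filter (fun m => cΘ ≤ Th (primorial w₁) r X α β m ∧
        Lam (primorial w) X α β (m + g) < cΘ / 2)).card : ℝ) ≤ c / 4 * X := by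
  classical
  have hP0 : 0 < primorial w₁ := primorial_pos w₁
  have hφN : 0 < Nat.totient (primorial w₁) := Nat.totient_pos.2 hP0
  obtain ⟨ρ, hρ⟩ : ∃ ρ : ℝ, ρ = ((primorial w₁ : ℕ) : ℝ) / (Nat.totient (primorial w₁) : ℝ) :=
    ⟨_, rfl⟩
  have hφ0 : (0 : ℝ) < (Nat.totient (primorial w₁) : ℝ) := by exact_mod_cast hφN
  have hPr : (0 : ℝ) < ((primorial w₁ : ℕ) : ℝ) := by exact_mod_cast hP0
  have hρ1 : 1 ≤ ρ := by
    rw [hρ, le_div_iff₀ hφ0, one_mul]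
    exact_mod_cast Nat.totient_le (primorial w₁)
  have hρ0 : 0 < ρ := by linarith
  have hw0 : (0 : ℝ) < w₁ := by
    have : 0 < w₁ := by omega
    exact_mod_cast this
  have hsq : 0 < Real.sqrt w₁ := Real.sqrt_pos.2 hw0
  obtain ⟨X₁, h1⟩ := growth 1 le_rfl
  obtain ⟨X₂, h2⟩ := hK w₁ hw₁ w hw r g hg α β hα hαβ.le (c * cΘ ^ 2 / 256) (by positivity)
  obtain ⟨X₃, h3⟩ := sum_abs_ThG_sub_Th_le (primorial w₁) r g α β hα hαβ.le (c * cΘ / 64)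
    (by positivity)
  refine ⟨max X₁ (max X₂ X₃), fun X hX => ?_⟩
  have hX1 : X₁ ≤ X := (le_max_left _ _).trans hX
  have hX2 : X₂ ≤ X := ((le_max_left _ _).trans (le_max_right _ _)).trans hX
  have hX3 : X₃ ≤ X := ((le_max_right _ _).trans (le_max_right _ _)).trans hX
  obtain ⟨hell, hlog, _, _, hXge⟩ := h1 X hX1
  have hX0 : (0 : ℝ) < X := by linarith
  have hE0 : 0 ≤ ell X := by linarith
  obtain ⟨S, hS⟩ : ∃ S : Finset ℤ, S = Finset.Ioc (0 : ℤ) (X : ℤ) := ⟨_, rfl⟩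
  rw [← hS]
  have h2' := h2 X hX2 S
  have h3' := h3 X hX3 S
  rw [← hρ] at h2' hvar
  have hm1 := markov S (fun m => |ThG (primorial w₁) r X α β g m - Th (primorial w₁) r X α β m|)
    (c * cΘ / 64 * X) (cΘ / 4) (fun m _ => abs_nonneg _) h3' (by positivity)
  have hm2 := markov S (fun m => (LamR (primorial w) (primorial w₁) r X α β g m
      - ρ * ThG (primorial w₁) r X α β g m) ^ 2) _ ((ρ * cΘ / 4) ^ 2) (fun m _ => sq_nonneg _) h2'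
    (by positivity)
  have hsub : S.filter (fun m => cΘ ≤ Th (primorial w₁) r X α β m ∧
        Lam (primorial w) X α β (m + g) < cΘ / 2) ⊆
      S.filter (fun m => cΘ / 4 <
        |ThG (primorial w₁) r X α β g m - Th (primorial w₁) r X α β m|) ∪
      S.filter (fun m => (ρ * cΘ / 4) ^ 2 < (LamR (primorial w) (primorial w₁) r X α β g m
        - ρ * ThG (primorial w₁) r X α β g m) ^ 2) := by
    intro m hm
    rw [Finset.mem_filter] at hm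
    obtain ⟨hmS, hm3, hm4⟩ := hm
    rw [Finset.mem_union, Finset.mem_filter, Finset.mem_filter]
    by_cases h5 : cΘ / 4 < |ThG (primorial w₁) r X α β g m - Th (primorial w₁) r X α β m|
    · exact Or.inl ⟨hmS, h5⟩
    · right
      refine ⟨hmS, ?_⟩
      have h6 := (abs_le.1 (not_lt.1 h5)).1
      have h7 : 3 * cΘ / 4 ≤ ThG (primorial w₁) r X α β g m := by linarith
      have h8 := LamR_le_Lam (primorial w) (primorial w₁) r X hE0 α β g m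
      have h9 : LamR (primorial w) (primorial w₁) r X α β g m < ρ * (cΘ / 2) := by
        have h10 : cΘ / 2 ≤ ρ * (cΘ / 2) := le_mul_of_one_le_left (by positivity) hρ1
        linarith
      have h10 : ρ * (3 * cΘ / 4) ≤ ρ * ThG (primorial w₁) r X α β g m :=
        mul_le_mul_of_nonneg_left h7 hρ0.le
      have h11 : ρ * cΘ / 4 < ρ * ThG (primorial w₁) r X α β g m -
          LamR (primorial w) (primorial w₁) r X α β g m := by linarith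
      have h12 : (LamR (primorial w) (primorial w₁) r X α β g m
        - ρ * ThG (primorial w₁) r X α β g m) ^ 2 = (ρ * ThG (primorial w₁) r X α β g m -
          LamR (primorial w) (primorial w₁) r X α β g m) ^ 2 := by ring
      rw [h12]
      exact pow_lt_pow_left₀ h11 (by positivity) two_ne_zero
  have hcard := (Finset.card_le_card hsub).trans (Finset.card_union_le _ _)
  have hcard' : ((S.filter (fun m => cΘ ≤ Th (primorial w₁) r X α β m ∧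
        Lam (primorial w) X α β (m + g) < cΘ / 2)).card : ℝ) ≤
      ((S.filter (fun m => cΘ / 4 <
        |ThG (primorial w₁) r X α β g m - Th (primorial w₁) r X α β m|)).card : ℝ) +
      ((S.filter (fun m => (ρ * cΘ / 4) ^ 2 < (LamR (primorial w) (primorial w₁) r X α β g m
        - ρ * ThG (primorial w₁) r X α β g m) ^ 2)).card : ℝ) := by exact_mod_cast hcard
  have hb1 : c * cΘ / 64 * X / (cΘ / 4) = c / 16 * X := by
    field_simp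
    ring
  have hb2 : (K * ρ ^ 8 * (β - α) ^ 2 / (((primorial w₁ : ℕ) : ℝ) ^ 2 * Real.sqrt w₁) +
      c * cΘ ^ 2 / 256) * X / (ρ * cΘ / 4) ^ 2 ≤ 3 * c / 16 * X := by
    rw [div_le_iff₀ (by positivity)]
    have h5 : K * ρ ^ 8 * (β - α) ^ 2 / (((primorial w₁ : ℕ) : ℝ) ^ 2 * Real.sqrt w₁) ≤
        c * cΘ ^ 2 * ρ ^ 2 / 128 := by
      rw [div_le_iff₀ (by positivity)]
      have h6 := mul_le_mul_of_nonneg_left hvar (by positivity : (0 : ℝ) ≤ ρ ^ 2 / 128)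
      calc K * ρ ^ 8 * (β - α) ^ 2 = ρ ^ 2 / 128 * (128 * K * ρ ^ 6 * (β - α) ^ 2) := by ring
        _ ≤ ρ ^ 2 / 128 * (c * cΘ ^ 2 * ((primorial w₁ : ℕ) : ℝ) ^ 2 * Real.sqrt w₁) := h6
        _ = c * cΘ ^ 2 * ρ ^ 2 / 128 * (((primorial w₁ : ℕ) : ℝ) ^ 2 * Real.sqrt w₁) := by ring
    have h6 : c * cΘ ^ 2 / 256 ≤ c * cΘ ^ 2 * ρ ^ 2 / 256 := by
      refine div_le_div_of_nonneg_right ?_ (by norm_num)
      exact le_mul_of_one_le_right (by positivity) (one_le_pow₀ hρ1)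
    have h7 : K * ρ ^ 8 * (β - α) ^ 2 / (((primorial w₁ : ℕ) : ℝ) ^ 2 * Real.sqrt w₁) +
        c * cΘ ^ 2 / 256 ≤ 3 * (c * cΘ ^ 2 * ρ ^ 2 / 256) := by linarith
    calc (K * ρ ^ 8 * (β - α) ^ 2 / (((primorial w₁ : ℕ) : ℝ) ^ 2 * Real.sqrt w₁) +
        c * cΘ ^ 2 / 256) * X ≤ 3 * (c * cΘ ^ 2 * ρ ^ 2 / 256) * X :=
          mul_le_mul_of_nonneg_right h7 hX0.le
      _ = 3 * c / 16 * X * (ρ * cΘ / 4) ^ 2 := by ring
  rw [hb1] at hm1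
  have hm2' := hm2.trans hb2
  linarith

end Pool.Agent.Lib.MP_bae66e_nt.LP
end
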