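import Pool.Agent.Lib.MP_bae66e_nt.Mg.G063
import Pool.Agent.Lib.MP_bae66e_nt.Mg.G046
import Pool.Agent.Lib.MP_bae66e_nt.Mg.G053

section

/-!
# LP/E10a: one assignment without coincidences
-/

set_option autoImplicit false

open Finset

namespace Pool.Agent.Lib.MP_bae66e_nt.LP

open Pool.Agent.Lib.MP_bae66e_nt.LL

private lemma E10a_sig_nonneg (w d : ℕ) : 0 ≤ sig w d :=
  Finset.sum_nonneg (fun _ _ => by positivity)

/-- One assignment `σ`. There is `C = C(k)`: for `w ≥ 2 (k + 1)`, `w' ≥ w`, `H`, and all large `Y`,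
for all `h i ≤ H`, cutoffs and `σ`: the sum over the shifts `t` for which `hh (sh h σ t)` is injective is
`≤ (C/√w) Y^{k+1}`.

PROOF. `primorial w' = primorial w * W₁` (`primorial_split`, all primes of `W₁` are `> w`). Let
`j = k + 1`, `t' = sh h σ t`. `DDx_model_le`, `SS_pos`, `SS_le_FF`, `abs_SS_sub_one_le`:
`DDx ≤ Y FF(j, t') (j²/w + 2 j ∑_{i<l} sig w |t'_i - t'_l|) FF(2 j, t') + 8 W'^{k+2}`.
Multiply by `FF(j, t)` and use `FF(j, t) FF(3 j, t') ≤ FF(2 j, t) + FF(6 j, t')` (`a b ≤ a² + b²`).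
`∑_t FF(2 j, t) ≤ C Y^k`; `∑_t FF(6 j, t') ≤ ∑_{shifts k (Y + H)} FF(6 j) ≤ C (Y + H)^k ≤ C 2^k Y^k`
(`sum_sh_le`, `sum_FF_le`); with the factor `sig w |t'_i - t'_l|` use Cauchy-Schwarz:
`∑_t FF(2 j, t) sig ≤ (∑ FF(4 j, t))^{1/2} (∑ sig²)^{1/2}`, `∑_t sig(t')² ≤
∑_{shifts k (Y + H)} sig² ≤ 8 3^k (2 Y)^k / w` (`sum_sig_shifts_le`), similarly for `FF(6 j, t')`.
The last term: `8 W'^{k+2} ∑_t FF(j, t) ≤ Y^{k+1}/√w` for large `Y`. Compare the proof of
`main_two` (`LL/E/E14.lean`). -/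
theorem main_twoJ_sigma (k : ℕ) : ∃ C : ℝ, 1 ≤ C ∧ ∀ w : ℕ, 2 * (k + 1) ≤ w → ∀ w' : ℕ, w ≤ w' →
    ∀ H : ℕ, ∃ Y₀ : ℕ, ∀ Y : ℕ, Y₀ ≤ Y → ∀ (ι : Type) (h : ι → ℕ), (∀ i, h i ≤ H) → ∀ y : ι → ℕ,
      ∀ σ : Fin (k + 1) → ι,
      ∑ t ∈ (shifts k Y).filter (fun t => Function.Injective (hh (sh h σ t))),
        FF (k + 1) t * DDx Y (primorial w)
          (fun i n => gW (primorial w') (y (σ i)) (n - pos H h σ t i))
          (fun i n => gW (primorial w) (y (σ i)) (n - pos H h σ t i))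
        ≤ C / Real.sqrt w * (Y : ℝ) ^ (k + 1) := by
  obtain ⟨C₁, hC₁, hFF₁⟩ := sum_FF_le k (2 * (k + 1))
  obtain ⟨C₂, hC₂, hFF₂⟩ := sum_FF_le k (6 * (k + 1))
  obtain ⟨C₃, hC₃, hFF₃⟩ := sum_FF_le k (k + 1)
  obtain ⟨C₄, hC₄, hFF₄⟩ := sum_FF_le k (4 * (k + 1))
  obtain ⟨C₅, hC₅, hFF₅⟩ := sum_FF_le k (12 * (k + 1))
  have hC₁0 : 0 ≤ C₁ := by linarith
  have hC₂0 : 0 ≤ C₂ := by linarith
  have hC₃0 : 0 ≤ C₃ := by linarith
  have hC₄0 : 0 ≤ C₄ := by linarith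
  have hC₅0 : 0 ≤ C₅ := by linarith
  set j : ℝ := (k : ℝ) + 1 with hj
  have hj1 : 1 ≤ j := by
    have : (0 : ℝ) ≤ k := Nat.cast_nonneg k
    linarith
  set CA : ℝ := C₁ + C₂ * 2 ^ k with hCA
  have hCA0 : 0 ≤ CA := by positivity
  set CB : ℝ := 2 * C₄ + 2 * (C₅ * 2 ^ k) with hCB
  have hCB0 : 0 ≤ CB := by positivity
  set S : ℝ := Real.sqrt (CB * (8 * 3 ^ k * 2 ^ k)) with hS
  have hS0 : 0 ≤ S := Real.sqrt_nonneg _
  refine ⟨1 + j ^ 2 * CA + 2 * j * (j * j * S), ?_, fun w hw w' hww' H => ?_⟩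
  · have : 0 ≤ j ^ 2 * CA := by positivity
    have : 0 ≤ 2 * j * (j * j * S) := by positivity
    linarith
  obtain ⟨W₁, hW, hsqW₁, hcop, hpr⟩ := primorial_split w w' hww'
  set W : ℕ := primorial w' with hWdef
  have hw1 : 1 ≤ w := by omega
  have hwR : (1 : ℝ) ≤ w := by exact_mod_cast hw1
  have hsw1 : 1 ≤ Real.sqrt w := by rw [Real.one_le_sqrt]; exact hwR
  have hsw0 : 0 < Real.sqrt w := by linarith
  refine ⟨⌈8 * (W : ℝ) ^ (k + 2) * C₃ * Real.sqrt w⌉₊ + 1 + H, fun Y hY ι h hH y σ => ?_⟩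
  have hY1 : 1 ≤ Y := by omega
  have hYR : (1 : ℝ) ≤ Y := by exact_mod_cast hY1
  have hY0 : (0 : ℝ) ≤ Y := by linarith
  have hYH : (((Y + H : ℕ) : ℝ)) ^ k ≤ 2 ^ k * (Y : ℝ) ^ k := by
    rw [← mul_pow]
    refine pow_le_pow_left₀ (by positivity) ?_ k
    exact_mod_cast (by omega : Y + H ≤ 2 * Y)
  have hYbig : 8 * (W : ℝ) ^ (k + 2) * C₃ * Real.sqrt w ≤ Y := by
    refine (Nat.le_ceil _).trans ?_
    exact_mod_cast (by omega : ⌈8 * (W : ℝ) ^ (k + 2) * C₃ * Real.sqrt w⌉₊ ≤ Y)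
  -- the weight
  set V : (Fin k → ℤ) → ℝ := fun t => FF (2 * (k + 1)) t + FF (6 * (k + 1)) (sh h σ t) with hV
  have hV0 : ∀ t, 0 ≤ V t := fun t => add_nonneg (FF_nonneg _ _) (FF_nonneg _ _)
  have hVle : ∀ t, FF (k + 1) t * FF (3 * (k + 1)) (sh h σ t) ≤ V t := by
    intro t
    have h1 : FF (2 * (k + 1)) t = (FF (k + 1) t) ^ 2 := by
      rw [FF_pow]
      congr 1
      ring
    have h2 : FF (6 * (k + 1)) (sh h σ t) = (FF (3 * (k + 1)) (sh h σ t)) ^ 2 := by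
      rw [FF_pow]
      congr 1
      ring
    change _ ≤ FF (2 * (k + 1)) t + FF (6 * (k + 1)) (sh h σ t)
    rw [h1, h2]
    nlinarith [sq_nonneg (FF (k + 1) t - FF (3 * (k + 1)) (sh h σ t)),
      sq_nonneg (FF (k + 1) t + FF (3 * (k + 1)) (sh h σ t))]
  -- the pointwise bound
  set G : (Fin k → ℤ) → ℝ := fun t => (Y : ℝ) * (j ^ 2 / w) * V t
    + (Y : ℝ) * (2 * j) * (∑ i : Fin (k + 1), ∑ l ∈ Finset.Ioi i,
        V t * sig w (hh (sh h σ t) i - hh (sh h σ t) l).natAbs)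
    + 8 * (W : ℝ) ^ (k + 2) * FF (k + 1) t with hG
  have hG0 : ∀ t, 0 ≤ G t := by
    intro t
    have h1 := hV0 t
    have h2 := FF_nonneg (k + 1) t
    have h3 : 0 ≤ ∑ i : Fin (k + 1), ∑ l ∈ Finset.Ioi i,
        V t * sig w (hh (sh h σ t) i - hh (sh h σ t) l).natAbs :=
      Finset.sum_nonneg (fun i _ => Finset.sum_nonneg (fun l _ =>
        mul_nonneg h1 (E10a_sig_nonneg _ _)))
    rw [hG]
    positivity
  have hpt : ∀ t ∈ (shifts k Y).filter (fun t => Function.Injective (hh (sh h σ t))),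
      FF (k + 1) t * DDx Y (primorial w)
          (fun i n => gW W (y (σ i)) (n - pos H h σ t i))
          (fun i n => gW (primorial w) (y (σ i)) (n - pos H h σ t i)) ≤ G t := by
    intro t ht
    have hinj := (Finset.mem_filter.1 ht).2
    have h1 := DDx_model_le Y (primorial w) W₁ (_root_.squarefree_primorial w) hsqW₁ hcop
      (pos H h σ t) (fun i => y (σ i))
    rw [← hW, SS_pos, SS_pos] at h1
    have h2 := SS_le_FF (primorial w) (sh h σ t) hinj
    have h3 := abs_SS_sub_one_le W₁ w hw hpr (sh h σ t) hinj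
    have hF0 := FF_nonneg (k + 1) t
    have hF1 := FF_nonneg (k + 1) (sh h σ t)
    have hF2 := FF_nonneg (2 * (k + 1)) (sh h σ t)
    set T : ℝ := ∑ i : Fin (k + 1), ∑ l ∈ Finset.Ioi i,
      sig w (hh (sh h σ t) i - hh (sh h σ t) l).natAbs with hT
    have hT0 : 0 ≤ T := Finset.sum_nonneg (fun i _ => Finset.sum_nonneg (fun l _ =>
      E10a_sig_nonneg _ _))
    have h4 : FF (k + 1) (sh h σ t) * FF (2 * (k + 1)) (sh h σ t) =
        FF (3 * (k + 1)) (sh h σ t) := by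
      rw [FF_mul]
      congr 1
      ring
    have h5 : (Y : ℝ) * SS (primorial w) (hh (sh h σ t)) * |SS W₁ (hh (sh h σ t)) - 1|
        ≤ (Y : ℝ) * FF (k + 1) (sh h σ t) *
          ((j ^ 2 / w + 2 * j * T) * FF (2 * (k + 1)) (sh h σ t)) := by
      apply mul_le_mul (mul_le_mul_of_nonneg_left h2 hY0) h3 (abs_nonneg _) (by positivity)
    calc FF (k + 1) t * DDx Y (primorial w)
          (fun i n => gW W (y (σ i)) (n - pos H h σ t i))
          (fun i n => gW (primorial w) (y (σ i)) (n - pos H h σ t i))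
        ≤ FF (k + 1) t * ((Y : ℝ) * FF (k + 1) (sh h σ t) *
          ((j ^ 2 / w + 2 * j * T) * FF (2 * (k + 1)) (sh h σ t)) + 8 * (W : ℝ) ^ (k + 2)) := by
          apply mul_le_mul_of_nonneg_left _ hF0
          linarith
      _ = (FF (k + 1) t * (FF (k + 1) (sh h σ t) * FF (2 * (k + 1)) (sh h σ t))) *
            ((Y : ℝ) * (j ^ 2 / w + 2 * j * T)) + 8 * (W : ℝ) ^ (k + 2) * FF (k + 1) t := by ring
      _ ≤ V t * ((Y : ℝ) * (j ^ 2 / w + 2 * j * T)) + 8 * (W : ℝ) ^ (k + 2) * FF (k + 1) t := by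
          rw [h4]
          have h6 : 0 ≤ (Y : ℝ) * (j ^ 2 / w + 2 * j * T) := by positivity
          have h7 := mul_le_mul_of_nonneg_right (hVle t) h6
          linarith
      _ = G t := by
          rw [hG, hT]
          simp only [← Finset.mul_sum]
          ring
  refine (Finset.sum_le_sum hpt).trans ?_
  refine (Finset.sum_le_sum_of_subset_of_nonneg (Finset.filter_subset _ _)
    (fun t _ _ => hG0 t)).trans ?_
  -- the three sums
  have hA : ∑ t ∈ shifts k Y, V t ≤ CA * (Y : ℝ) ^ k := by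
    rw [hV, Finset.sum_add_distrib]
    have h1 := hFF₁ Y hY1
    have h2 := sum_sh_le Y H h hH σ (fun t => FF (6 * (k + 1)) t) (fun t => FF_nonneg _ _)
    have h3 := hFF₂ (Y + H) (by omega)
    have h4 := mul_le_mul_of_nonneg_left hYH hC₂0
    rw [hCA]
    calc (∑ t ∈ shifts k Y, FF (2 * (k + 1)) t) + ∑ t ∈ shifts k Y, FF (6 * (k + 1)) (sh h σ t)
        ≤ C₁ * (Y : ℝ) ^ k + C₂ * (2 ^ k * (Y : ℝ) ^ k) := by linarith
      _ = _ := by ring
  have hCC : ∑ t ∈ shifts k Y, FF (k + 1) t ≤ C₃ * (Y : ℝ) ^ k := hFF₃ Y hY1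
  have hV2 : ∑ t ∈ shifts k Y, (V t) ^ 2 ≤ CB * (Y : ℝ) ^ k := by
    have h0 : ∀ t, (V t) ^ 2 ≤ 2 * FF (4 * (k + 1)) t + 2 * FF (12 * (k + 1)) (sh h σ t) := by
      intro t
      have h1 : FF (4 * (k + 1)) t = (FF (2 * (k + 1)) t) ^ 2 := by
        rw [FF_pow]
        congr 1
        ring
      have h2 : FF (12 * (k + 1)) (sh h σ t) = (FF (6 * (k + 1)) (sh h σ t)) ^ 2 := by
        rw [FF_pow]
        congr 1
        ring
      rw [h1, h2]
      change (FF (2 * (k + 1)) t + FF (6 * (k + 1)) (sh h σ t)) ^ 2 ≤ _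
      nlinarith [sq_nonneg (FF (2 * (k + 1)) t - FF (6 * (k + 1)) (sh h σ t))]
    refine (Finset.sum_le_sum fun t _ => h0 t).trans ?_
    rw [Finset.sum_add_distrib, ← Finset.mul_sum, ← Finset.mul_sum]
    have h1 := hFF₄ Y hY1
    have h2 := sum_sh_le Y H h hH σ (fun t => FF (12 * (k + 1)) t) (fun t => FF_nonneg _ _)
    have h3 := hFF₅ (Y + H) (by omega)
    have h4 := mul_le_mul_of_nonneg_left hYH hC₅0
    rw [hCB]
    calc 2 * (∑ t ∈ shifts k Y, FF (4 * (k + 1)) t) +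
          2 * ∑ t ∈ shifts k Y, FF (12 * (k + 1)) (sh h σ t)
        ≤ 2 * (C₄ * (Y : ℝ) ^ k) + 2 * (C₅ * (2 ^ k * (Y : ℝ) ^ k)) := by linarith
      _ = _ := by ring
  have hB : ∀ i : Fin (k + 1), ∀ l ∈ Finset.Ioi i,
      ∑ t ∈ shifts k Y, V t * sig w (hh (sh h σ t) i - hh (sh h σ t) l).natAbs
        ≤ S / Real.sqrt w * (Y : ℝ) ^ k := by
    intro i l hl
    have hil := Finset.mem_Ioi.1 hl
    have h1 := Finset.sum_mul_sq_le_sq_mul_sq (shifts k Y) (fun t => V t)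
      (fun t => sig w (hh (sh h σ t) i - hh (sh h σ t) l).natAbs)
    have h3 : ∑ t ∈ shifts k Y, (sig w (hh (sh h σ t) i - hh (sh h σ t) l).natAbs) ^ 2 ≤
        8 * 3 ^ k * (2 ^ k * (Y : ℝ) ^ k) / w := by
      refine (sum_sh_le Y H h hH σ (fun t => (sig w (hh t i - hh t l).natAbs) ^ 2)
        (fun t => sq_nonneg _)).trans ?_
      refine (sum_sig_shifts_le k w (Y + H) hw1 (by omega) i l hil).trans ?_
      gcongr
    apply le_of_abs_le
    apply abs_le_of_sq_le_sq _ (by positivity)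
    refine h1.trans ?_
    have e1 : (S / Real.sqrt w * (Y : ℝ) ^ k) ^ 2
        = (CB * (Y : ℝ) ^ k) * (8 * 3 ^ k * (2 ^ k * (Y : ℝ) ^ k) / w) := by
      rw [mul_pow, div_pow, hS, Real.sq_sqrt (by positivity), Real.sq_sqrt (by linarith)]
      ring
    rw [e1]
    exact mul_le_mul hV2 h3 (Finset.sum_nonneg (fun _ _ => by positivity)) (by positivity)
  have hBsum : ∑ t ∈ shifts k Y, ∑ i : Fin (k + 1), ∑ l ∈ Finset.Ioi i,
      V t * sig w (hh (sh h σ t) i - hh (sh h σ t) l).natAbs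
      ≤ j * j * (S / Real.sqrt w * (Y : ℝ) ^ k) := by
    rw [Finset.sum_comm]
    have h1 : ∀ i ∈ (Finset.univ : Finset (Fin (k + 1))),
        ∑ t ∈ shifts k Y, ∑ l ∈ Finset.Ioi i,
          V t * sig w (hh (sh h σ t) i - hh (sh h σ t) l).natAbs
        ≤ j * (S / Real.sqrt w * (Y : ℝ) ^ k) := by
      intro i _
      rw [Finset.sum_comm]
      refine (Finset.sum_le_sum (hB i)).trans ?_
      rw [Finset.sum_const, nsmul_eq_mul]
      apply mul_le_mul_of_nonneg_right _ (by positivity)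
      have : (Finset.Ioi i).card ≤ k + 1 := by
        refine (Finset.card_le_univ _).trans ?_
        simp
      rw [hj]
      exact_mod_cast this
    refine (Finset.sum_le_sum h1).trans ?_
    rw [Finset.sum_const, Finset.card_univ, Fintype.card_fin, nsmul_eq_mul]
    push_cast
    apply le_of_eq
    rw [hj]; ring
  have hsum : ∑ t ∈ shifts k Y, G t
      = (Y : ℝ) * (j ^ 2 / w) * ∑ t ∈ shifts k Y, V t
        + (Y : ℝ) * (2 * j) * ∑ t ∈ shifts k Y, ∑ i : Fin (k + 1), ∑ l ∈ Finset.Ioi i,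
            V t * sig w (hh (sh h σ t) i - hh (sh h σ t) l).natAbs
        + 8 * (W : ℝ) ^ (k + 2) * ∑ t ∈ shifts k Y, FF (k + 1) t := by
    rw [hG]
    simp only [Finset.sum_add_distrib]
    rw [← Finset.mul_sum, ← Finset.mul_sum, ← Finset.mul_sum]
  rw [hsum]
  have t1 : (Y : ℝ) * (j ^ 2 / w) * ∑ t ∈ shifts k Y, V t
      ≤ j ^ 2 * CA / Real.sqrt w * (Y : ℝ) ^ (k + 1) := by
    have hle : j ^ 2 / (w : ℝ) ≤ j ^ 2 / Real.sqrt w := by
      apply div_le_div_of_nonneg_left (by positivity) hsw0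
      have := Real.sq_sqrt (show (0:ℝ) ≤ w by linarith)
      nlinarith
    calc (Y : ℝ) * (j ^ 2 / w) * ∑ t ∈ shifts k Y, V t
        ≤ (Y : ℝ) * (j ^ 2 / Real.sqrt w) * (CA * (Y : ℝ) ^ k) := by
          apply mul_le_mul (mul_le_mul_of_nonneg_left hle hY0) hA
            (Finset.sum_nonneg (fun _ _ => hV0 _)) (by positivity)
      _ = j ^ 2 * CA / Real.sqrt w * (Y : ℝ) ^ (k + 1) := by ring
  have t2 : (Y : ℝ) * (2 * j) * ∑ t ∈ shifts k Y, ∑ i : Fin (k + 1), ∑ l ∈ Finset.Ioi i,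
            V t * sig w (hh (sh h σ t) i - hh (sh h σ t) l).natAbs
      ≤ 2 * j * (j * j * S) / Real.sqrt w * (Y : ℝ) ^ (k + 1) := by
    refine (mul_le_mul_of_nonneg_left hBsum (by positivity)).trans (le_of_eq ?_)
    ring
  have t3 : 8 * (W : ℝ) ^ (k + 2) * ∑ t ∈ shifts k Y, FF (k + 1) t
      ≤ 1 / Real.sqrt w * (Y : ℝ) ^ (k + 1) := by
    have e2 : 8 * (W : ℝ) ^ (k + 2) * C₃ ≤ Y / Real.sqrt w := by
      rw [le_div_iff₀ hsw0]; exact hYbig
    calc 8 * (W : ℝ) ^ (k + 2) * ∑ t ∈ shifts k Y, FF (k + 1) t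
        ≤ 8 * (W : ℝ) ^ (k + 2) * (C₃ * (Y : ℝ) ^ k) :=
          mul_le_mul_of_nonneg_left hCC (by positivity)
      _ = (8 * (W : ℝ) ^ (k + 2) * C₃) * (Y : ℝ) ^ k := by ring
      _ ≤ (Y / Real.sqrt w) * (Y : ℝ) ^ k := mul_le_mul_of_nonneg_right e2 (by positivity)
      _ = 1 / Real.sqrt w * (Y : ℝ) ^ (k + 1) := by ring
  have e3 : (1 + j ^ 2 * CA + 2 * j * (j * j * S)) / Real.sqrt w * (Y : ℝ) ^ (k + 1)
      = 1 / Real.sqrt w * (Y : ℝ) ^ (k + 1) + j ^ 2 * CA / Real.sqrt w * (Y : ℝ) ^ (k + 1)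
        + 2 * j * (j * j * S) / Real.sqrt w * (Y : ℝ) ^ (k + 1) := by
    ring
  rw [e3]
  linarith

end Pool.Agent.Lib.MP_bae66e_nt.LP
end

section

/-!
# LP/E10c: from the model of a high level to the model of the level `w`
-/

set_option autoImplicit false

open Finset

namespace Pool.Agent.Lib.MP_bae66e_nt.LP

open Pool.Agent.Lib.MP_bae66e_nt.LL

/-- **Both together**: there is `C = C(k, ι)` such that for `w ≥ 2 (k + 1)`, `w' ≥ w`, `H`, `C₁` and
large `Y`: `∑_t FF DD(gJ w', gJ w) ≤ (C/√w) Y^{k+1}` (sum over all shifts).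

PROOF. `DD_gJ_le`, sum over the `R^{k+1}` assignments, `main_twoJ_sigma`, `coincidences_small`. -/
theorem main_twoJ (ι : Type) [Fintype ι] (k : ℕ) : ∃ C : ℝ, 1 ≤ C ∧ ∀ w : ℕ, 2 * (k + 1) ≤ w →
    ∀ w' : ℕ, w ≤ w' → ∀ (H : ℕ) (C₁ : ℝ), ∃ Y₀ : ℕ, ∀ Y : ℕ, Y₀ ≤ Y →
      ∀ (h y : ι → ℕ) (c : ι → ℝ), Cut Y H C₁ h y c →
      ∑ t ∈ shifts k Y, FF (k + 1) t *
        DD Y (primorial w) (gJ (primorial w') H h y c) (gJ (primorial w) H h y c) t
        ≤ C / Real.sqrt w * (Y : ℝ) ^ (k + 1) := by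
  obtain ⟨C, hC, hmain⟩ := main_twoJ_sigma k
  set R : ℝ := (Fintype.card (Fin (k + 1) → ι) : ℝ) with hR
  have hR0 : 0 ≤ R := Nat.cast_nonneg _
  refine ⟨1 + R * (C + 1), by nlinarith, fun w hw w' hww' H C₁ => ?_⟩
  obtain ⟨Y₁, hY₁⟩ := hmain w hw w' hww' H
  obtain ⟨Y₂, hY₂⟩ := coincidences_small k w (by omega) w' hww'
  refine ⟨Y₁ + Y₂, fun Y hY h y c hc => ?_⟩
  have hwR : (0 : ℝ) ≤ Real.sqrt w := Real.sqrt_nonneg _
  have hYk : (0 : ℝ) ≤ (Y : ℝ) ^ (k + 1) := by positivity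
  have h1 : ∀ t ∈ shifts k Y, FF (k + 1) t *
        DD Y (primorial w) (gJ (primorial w') H h y c) (gJ (primorial w) H h y c) t ≤
      ∑ σ : Fin (k + 1) → ι, FF (k + 1) t * DDx Y (primorial w)
        (fun i n => gW (primorial w') (y (σ i)) (n - pos H h σ t i))
        (fun i n => gW (primorial w) (y (σ i)) (n - pos H h σ t i)) := by
    intro t _
    rw [← Finset.mul_sum]
    exact mul_le_mul_of_nonneg_left (DD_gJ_le hc k _ _ _ t) (FF_nonneg _ _)
  refine (Finset.sum_le_sum h1).trans ?_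
  rw [Finset.sum_comm]
  have h2 : ∀ σ ∈ (Finset.univ : Finset (Fin (k + 1) → ι)),
      ∑ t ∈ shifts k Y, FF (k + 1) t * DDx Y (primorial w)
        (fun i n => gW (primorial w') (y (σ i)) (n - pos H h σ t i))
        (fun i n => gW (primorial w) (y (σ i)) (n - pos H h σ t i)) ≤
      (C + 1) / Real.sqrt w * (Y : ℝ) ^ (k + 1) := by
    intro σ _
    have h3 := hY₁ Y (by omega) ι h hc.hH y σ
    have h4 := hY₂ Y (by omega) H ι h y σ
    rw [← Finset.sum_filter_add_sum_filter_not (shifts k Y)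
      (fun t => Function.Injective (hh (sh h σ t)))]
    calc _ ≤ C / Real.sqrt w * (Y : ℝ) ^ (k + 1) + 1 / Real.sqrt w * (Y : ℝ) ^ (k + 1) :=
          add_le_add h3 h4
      _ = (C + 1) / Real.sqrt w * (Y : ℝ) ^ (k + 1) := by ring
  refine (Finset.sum_le_sum h2).trans ?_
  rw [Finset.sum_const, Finset.card_univ, nsmul_eq_mul, ← hR]
  have h5 : R * ((C + 1) / Real.sqrt w * (Y : ℝ) ^ (k + 1)) =
      (R * (C + 1)) / Real.sqrt w * (Y : ℝ) ^ (k + 1) := by ring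
  rw [h5]
  refine mul_le_mul_of_nonneg_right ?_ hYk
  exact div_le_div_of_nonneg_right (by linarith) hwR

end Pool.Agent.Lib.MP_bae66e_nt.LP
end

section

end

section

/-!
# LP/F1a: windows for one `m`: the proportion is at least `c exp(-C a) min(1, b - a)`
-/

set_option autoImplicit false

open Finset Filter Topology

namespace Pool.Agent.Lib.MP_bae66e_nt.LP

open Pool.Agent.Lib.MP_bae66e_nt.LL

private lemma F1a_exp (y : ℝ) (hy : 0 ≤ y) : min 1 y / 32 ≤ 1 - Real.exp (-(y / 16)) := by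
  have h1 : y / 16 + 1 ≤ Real.exp (y / 16) := Real.add_one_le_exp _
  have h2 : Real.exp (-(y / 16)) ≤ 1 / (y / 16 + 1) := by
    rw [Real.exp_neg, ← one_div]
    exact one_div_le_one_div_of_le (by positivity) h1
  have h3 : min 1 y / 32 ≤ 1 - 1 / (y / 16 + 1) := by
    have h4 : 1 - 1 / (y / 16 + 1) = y / (y + 16) := by
      field_simp
      ring
    rw [h4, le_div_iff₀ (by positivity)]
    rcases le_total y 1 with h | h
    · rw [min_eq_right h]
      nlinarith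
    · rw [min_eq_left h]
      linarith
  linarith

/-- The lower bound for the mean of `exp(-Lam 0 a)(1 - exp(-Lam a b))`: there are absolute `c, C > 0`
such that for even squarefree `W`, `0 ≤ a < b`, and large `X`,
`∑_{m ≤ X even} (exp(-Lam 0 a) - exp(-Lam 0 b)) ≥ c exp(-C a) min(1, b - a) X`.

PROOF. Let `K` be the constant of `second_moment_Lam`. `paley_zygmund` with `S = S'` the even
`m ∈ (0, X]` (`#S ≤ X`), `f = Lam a b`, `A = ((b - a)/8) X` (`le_sum_Lam` with `δ = (b - a)/8`),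
`B = 2 K (b - a)² X` (`δ = K (b - a)²`), `τ = (b - a)/16`: `#{Lam a b ≥ τ} ≥ (A/2)²/B = c₁ X`,
`c₁ = 1/(512 K)`. `markov` for `Lam 0 a` (`sum_Lam_le` with `δ = 1`): `#{Lam 0 a > T} ≤ (5 a + 1) X/T ≤
(c₁/2) X` for `T = 2 (5 a + 1)/c₁`. On the remaining `(c₁/2) X` integers the summand is
`exp(-Lam 0 a)(1 - exp(-Lam a b)) ≥ exp(-T)(1 - exp(-τ)) ≥ exp(-T) min(1, b - a)/32` (`Lam_add`;
`1 - exp(-x) ≥ min(1, x)/2`). All summands are `≥ 0`. -/
theorem mean_window : ∃ c C : ℝ, 0 < c ∧ 0 < C ∧ ∀ W : ℕ, Squarefree W → 2 ∣ W → ∀ a b : ℝ,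
    0 ≤ a → a < b → ∃ X₀ : ℕ, ∀ X : ℕ, X₀ ≤ X →
      c * Real.exp (-(C * a)) * min 1 (b - a) * X
        ≤ ∑ m ∈ (Finset.Ioc (0 : ℤ) (X : ℤ)).filter (fun m => Even m),
          (Real.exp (-(Lam W X 0 a m)) - Real.exp (-(Lam W X 0 b m))) := by
  classical
  obtain ⟨K, hK1, hK⟩ := second_moment_Lam
  have hK0 : 0 < K := by linarith
  refine ⟨1 / (32768 * K) * Real.exp (-(1024 * K)), 5120 * K, by positivity, by positivity, ?_⟩
  intro W hW h2 a b ha hab
  have hW1 : 1 ≤ W := Nat.one_le_iff_ne_zero.2 hW.ne_zero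
  have hba : 0 < b - a := by linarith
  obtain ⟨X₁, h1⟩ := growth 1 le_rfl
  obtain ⟨X₂, h3⟩ := hK W hW a b ha hab.le (K * (b - a) ^ 2) (by positivity)
  obtain ⟨X₃, h4⟩ := le_sum_Lam W hW1 h2 a b ha hab.le ((b - a) / 8) (by positivity)
  obtain ⟨X₄, h5⟩ := sum_Lam_le W hW1 0 a le_rfl ha 1 one_pos
  refine ⟨max (max X₁ X₂) (max X₃ X₄), fun X hX => ?_⟩
  have hX1 : X₁ ≤ X := ((le_max_left _ _).trans (le_max_left _ _)).trans hX
  have hX2 : X₂ ≤ X := ((le_max_right _ _).trans (le_max_left _ _)).trans hX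
  have hX3 : X₃ ≤ X := ((le_max_left _ _).trans (le_max_right _ _)).trans hX
  have hX4 : X₄ ≤ X := ((le_max_right _ _).trans (le_max_right _ _)).trans hX
  obtain ⟨hell, hlog, _, _, hXge⟩ := h1 X hX1
  have hX0 : (0 : ℝ) < X := by linarith
  have hE0 : 0 ≤ ell X := by linarith
  have hLE : 0 ≤ Real.log X * ell X := mul_nonneg (by linarith) hE0
  obtain ⟨S, hS⟩ : ∃ S : Finset ℤ, S = (Finset.Ioc (0 : ℤ) (X : ℤ)).filter (fun m => Even m) :=
    ⟨_, rfl⟩
  rw [← hS]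
  have hScard : (S.card : ℝ) ≤ X := by
    have h6 : S.card ≤ X := by
      rw [hS]
      refine (Finset.card_filter_le _ _).trans ?_
      rw [Int.card_Ioc, sub_zero, Int.toNat_natCast]
    exact_mod_cast h6
  have h3' := h3 X hX2 S
  have h4' := h4 X hX3
  rw [← hS] at h4'
  have h5' := h5 X hX4 S
  -- many rich windows
  have hPZ := paley_zygmund S S (fun m => Lam W X a b m) ((b - a) / 8 * X)
    (2 * K * (b - a) ^ 2 * X) ((b - a) / 16) (fun m _ => Lam_nonneg W X hE0 a b m)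
    (fun m hm h => absurd hm h) (by linarith) (by positivity) (by linarith) (by positivity)
    (by
      have h6 := mul_le_mul_of_nonneg_left hScard (by positivity : 0 ≤ (b - a) / 16)
      linarith)
  have hn1 : 1 / (512 * K) * X ≤
      ((S.filter (fun m => (b - a) / 16 ≤ Lam W X a b m)).card : ℝ) := by
    have h6 : 0 < 2 * K * (b - a) ^ 2 * X := by positivity
    refine le_of_mul_le_mul_left (le_trans (le_of_eq ?_) hPZ) h6
    field_simp
    ring
  -- few large intensities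
  have hT : 0 < 1024 * K * (5 * a + 1) := by positivity
  have hn2 := markov S (fun m => Lam W X 0 a m) ((5 * (a - 0) + 1) * X) (1024 * K * (5 * a + 1))
    (fun m _ => Lam_nonneg W X hE0 0 a m) h5' hT
  have hn2' : ((S.filter (fun m => 1024 * K * (5 * a + 1) < Lam W X 0 a m)).card : ℝ) ≤
      1 / (1024 * K) * X := by
    refine hn2.trans (le_of_eq ?_)
    rw [sub_zero]
    have h6 : (5 * a + 1) ≠ 0 := by positivity
    field_simp
  -- the good integers
  obtain ⟨G, hG⟩ : ∃ G : Finset ℤ, G = (S.filter (fun m => (b - a) / 16 ≤ Lam W X a b m)) \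
      (S.filter (fun m => 1024 * K * (5 * a + 1) < Lam W X 0 a m)) := ⟨_, rfl⟩
  have hGcard : 1 / (1024 * K) * X ≤ (G.card : ℝ) := by
    have h6 := Finset.le_card_sdiff (S.filter (fun m => 1024 * K * (5 * a + 1) < Lam W X 0 a m))
      (S.filter (fun m => (b - a) / 16 ≤ Lam W X a b m))
    rw [← hG] at h6
    have h7 : ((S.filter (fun m => (b - a) / 16 ≤ Lam W X a b m)).card : ℝ) ≤
        G.card + ((S.filter (fun m => 1024 * K * (5 * a + 1) < Lam W X 0 a m)).card : ℝ) := by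
      have h8 : (S.filter (fun m => (b - a) / 16 ≤ Lam W X a b m)).card ≤
          G.card + (S.filter (fun m => 1024 * K * (5 * a + 1) < Lam W X 0 a m)).card := by omega
      exact_mod_cast h8
    have h8 : 1 / (512 * K) * (X : ℝ) = 2 * (1 / (1024 * K) * X) := by
      field_simp
      ring
    linarith
  have hterm : ∀ m : ℤ, Real.exp (-(Lam W X 0 a m)) - Real.exp (-(Lam W X 0 b m)) =
      Real.exp (-(Lam W X 0 a m)) * (1 - Real.exp (-(Lam W X a b m))) := by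
    intro m
    rw [Lam_add W X hLE a b ha hab.le m, neg_add, Real.exp_add]
    ring
  have hnn : ∀ m ∈ S, 0 ≤ Real.exp (-(Lam W X 0 a m)) - Real.exp (-(Lam W X 0 b m)) := by
    intro m _
    rw [hterm]
    have h6 := Lam_nonneg W X hE0 a b m
    have h7 : Real.exp (-(Lam W X a b m)) ≤ 1 := Real.exp_le_one_iff.2 (by linarith)
    exact mul_nonneg (Real.exp_pos _).le (by linarith)
  have hGS : G ⊆ S := by
    rw [hG]
    exact Finset.sdiff_subset.trans (Finset.filter_subset _ _)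
  have hlow : ∀ m ∈ G, Real.exp (-(1024 * K * (5 * a + 1))) * (min 1 (b - a) / 32) ≤
      Real.exp (-(Lam W X 0 a m)) - Real.exp (-(Lam W X 0 b m)) := by
    intro m hm
    rw [hG, Finset.mem_sdiff, Finset.mem_filter, Finset.mem_filter] at hm
    obtain ⟨⟨hmS, hm1⟩, hm2⟩ := hm
    have hm3 : Lam W X 0 a m ≤ 1024 * K * (5 * a + 1) := by
      by_contra h6
      exact hm2 ⟨hmS, not_le.1 h6⟩
    rw [hterm]
    refine mul_le_mul (Real.exp_le_exp.2 (by linarith)) ?_ ?_ (Real.exp_pos _).le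
    · refine (F1a_exp (b - a) hba.le).trans ?_
      have h6 : Real.exp (-(Lam W X a b m)) ≤ Real.exp (-((b - a) / 16)) :=
        Real.exp_le_exp.2 (by linarith)
      linarith
    · have : 0 ≤ min 1 (b - a) := le_min zero_le_one hba.le
      positivity
  have hmin : 0 ≤ min 1 (b - a) := le_min zero_le_one hba.le
  calc 1 / (32768 * K) * Real.exp (-(1024 * K)) * Real.exp (-(5120 * K * a)) * min 1 (b - a) * X
      = (1 / (1024 * K) * X) * (Real.exp (-(1024 * K * (5 * a + 1))) * (min 1 (b - a) / 32)) := by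
        have h6 : Real.exp (-(1024 * K * (5 * a + 1))) =
            Real.exp (-(1024 * K)) * Real.exp (-(5120 * K * a)) := by
          rw [← Real.exp_add]
          congr 1
          ring
        rw [h6]
        field_simp
        ring
    _ ≤ G.card * (Real.exp (-(1024 * K * (5 * a + 1))) * (min 1 (b - a) / 32)) :=
        mul_le_mul_of_nonneg_right hGcard (by positivity)
    _ = ∑ m ∈ G, Real.exp (-(1024 * K * (5 * a + 1))) * (min 1 (b - a) / 32) := by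
        rw [Finset.sum_const, nsmul_eq_mul]
    _ ≤ ∑ m ∈ G, (Real.exp (-(Lam W X 0 a m)) - Real.exp (-(Lam W X 0 b m))) :=
        Finset.sum_le_sum hlow
    _ ≤ ∑ m ∈ S, (Real.exp (-(Lam W X 0 a m)) - Real.exp (-(Lam W X 0 b m))) :=
        Finset.sum_le_sum_of_subset_of_nonneg hGS fun m hm _ => hnn m hm

end Pool.Agent.Lib.MP_bae66e_nt.LP
end
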