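import Pool.Agent.Lib.MP_bae66e_nt.Mg.G062
import Pool.Agent.Lib.MP_bae66e_nt.Mg.G098
import Pool.Agent.Lib.MP_bae66e_nt.Mg.G075
import Pool.Agent.Lib.MP_bae66e_nt.Mg.G044
import Pool.Agent.Lib.MP_bae66e_nt.Mg.G061

section

/-!
# LP/E6a: the energy of `fP - gW`
-/

set_option autoImplicit false

open Finset

namespace Pool.Agent.Lib.MP_bae66e_nt.LP

open Pool.Agent.Lib.MP_bae66e_nt.LL

/-- The energy of `fP y - gW W y` including the term `d = 0`: for every `ε > 0` there is `w₀`, for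
`w ≥ w₀` and `y ≥ y₀(w)`: `En y (fP y - gW W y) ≤ ε y³`, `W = primorial w`.

PROOF. `En_eq`; `energy_small (ε/2)` for the terms `d ≠ 0`; and `|corr 0| ≤ y (log y + W)²`
(see `corr_diff_zero` in `LL/E`), so `(corr 0)² ≤ (ε/2) y³` for large `y`. -/
theorem En_fP_sub_gW_le (ε : ℝ) (hε : 0 < ε) : ∃ w₀ : ℕ, ∀ w : ℕ, w₀ ≤ w → ∃ y₀ : ℕ, ∀ y : ℕ,
    y₀ ≤ y → En y (fun n => fP y n - gW (primorial w) y n) ≤ ε * (y : ℝ) ^ 3 := by
  obtain ⟨w₀, hw₀⟩ := energy_small (ε / 2) (by positivity)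
  refine ⟨w₀, fun w hw => ?_⟩
  obtain ⟨Y₁, hY₁⟩ := hw₀ w hw
  obtain ⟨Y₂, hY₂⟩ := diag_small (primorial w) 1 (ε / 2) (by positivity)
  refine ⟨Y₁ + Y₂ + 1, fun y hy => ?_⟩
  have h1 := hY₁ y (by omega)
  have h2 := hY₂ y (by omega)
  have h3 := corr_diff_zero (primorial w) y (primorial_pos w) (by omega)
  rw [En_eq]
  have h4 : (corr y (fun n => fP y n - gW (primorial w) y n) 0) ^ 2 ≤ ε / 2 * (y : ℝ) ^ 3 := by
    rw [← sq_abs]
    refine le_trans (pow_le_pow_left₀ (abs_nonneg _) h3 2) ?_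
    exact h2
  linarith

end Pool.Agent.Lib.MP_bae66e_nt.LP
end

section

/-!
# LP/E6b: the energy of `fS - gJ`
-/

set_option autoImplicit false

open Finset

namespace Pool.Agent.Lib.MP_bae66e_nt.LP

open Pool.Agent.Lib.MP_bae66e_nt.LL

private lemma E6b_gW_abs (W y : ℕ) (hW : 1 ≤ W) (n : ℤ) : |gW W y n| ≤ (W : ℝ) := by
  have hW' : (0 : ℝ) ≤ (W : ℝ) := Nat.cast_nonneg _
  unfold gW nu
  split_ifs with h1 h2
  · have hφ : 1 ≤ Nat.totient W := Nat.totient_pos.mpr (by omega)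
    have hφ' : (1 : ℝ) ≤ (Nat.totient W : ℝ) := by exact_mod_cast hφ
    rw [abs_of_nonneg (by positivity)]
    exact div_le_self hW' hφ'
  · simp
  · simp

private lemma E6b_gW_supp (W y : ℕ) (n : ℤ) (hn : ¬ (1 ≤ n ∧ n ≤ (y : ℤ))) : gW W y n = 0 := by
  unfold gW
  rw [if_neg hn]

private lemma E6b_fP_supp (y : ℕ) (n : ℤ) (hn : ¬ (1 ≤ n ∧ n ≤ (y : ℤ))) : fP y n = 0 := by
  unfold fP
  rw [if_neg (fun h => hn ⟨h.1, h.2.1⟩)]

private lemma E6b_fP_eq (y : ℕ) (n : ℤ) : fP y n = Real.log y * pv y n := by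
  unfold fP pv
  split_ifs <;> simp

private lemma E6b_pv_supp (y : ℕ) (n : ℤ) (hn : ¬ (1 ≤ n ∧ n ≤ (y : ℤ))) : pv y n = 0 := by
  unfold pv
  rw [if_neg (fun h => hn ⟨h.1, h.2.1⟩)]

private lemma E6b_En_gW (W y : ℕ) (hW : 1 ≤ W) (hy : 1 ≤ y) :
    En y (gW W y) ≤ 3 * (W : ℝ) ^ 4 * (y : ℝ) ^ 3 := by
  have hy' : (1 : ℝ) ≤ (y : ℝ) := by exact_mod_cast hy
  have h1 : ∀ d, (corr y (gW W y) d) ^ 2 ≤ ((y : ℝ) * (W : ℝ) ^ 2) ^ 2 := by
    intro d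
    rw [← sq_abs]
    refine pow_le_pow_left₀ (abs_nonneg _) ?_ 2
    unfold corr
    refine (Finset.abs_sum_le_sum_abs _ _).trans ?_
    refine (Finset.sum_le_card_nsmul _ _ ((W : ℝ) ^ 2) (fun n _ => ?_)).trans ?_
    · rw [abs_mul, sq]
      exact mul_le_mul (E6b_gW_abs W y hW _) (E6b_gW_abs W y hW _) (abs_nonneg _)
        (Nat.cast_nonneg _)
    · rw [Int.card_Icc, nsmul_eq_mul]
      have : ((y : ℤ) + 1 - 1).toNat = y := by omega
      rw [this]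
  unfold En
  refine (Finset.sum_le_card_nsmul _ _ _ (fun d _ => h1 d)).trans ?_
  rw [Int.card_Icc, nsmul_eq_mul]
  have h2 : ((y : ℤ) + 1 - (-(y : ℤ))).toNat = 2 * y + 1 := by omega
  rw [h2]
  push_cast
  have h3 : (2 * (y : ℝ) + 1) ≤ 3 * y := by linarith
  calc (2 * (y : ℝ) + 1) * ((y : ℝ) * (W : ℝ) ^ 2) ^ 2 ≤ 3 * y * ((y : ℝ) * (W : ℝ) ^ 2) ^ 2 :=
        mul_le_mul_of_nonneg_right h3 (by positivity)
    _ = 3 * (W : ℝ) ^ 4 * (y : ℝ) ^ 3 := by ring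

private lemma E6b_pow_four_le (x b : ℝ) (h0 : |x| ≤ b) (h1 : b ≤ 1) : x ^ 4 ≤ b := by
  have h2 : x ^ 4 = |x| ^ 4 := by
    rw [← abs_pow, abs_of_nonneg (by positivity)]
  have hb : 0 ≤ b := (abs_nonneg x).trans h0
  rw [h2]
  calc |x| ^ 4 ≤ b ^ 4 := pow_le_pow_left₀ (abs_nonneg _) h0 4
    _ ≤ b ^ 1 := pow_le_pow_of_le_one hb h1 (by norm_num)
    _ = b := pow_one b

/-- One term. For `C₁ ≥ 1`, `ε > 0` there is `w₀`, for `w ≥ w₀` there is `Y₀`: for `Y ≥ Y₀`, `|c| ≤ 1`,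
`t ≥ 0`, `t + y ≤ Y`, `y = 0` or `Y ≤ C₁ y`, the function
`n ↦ c (log Y pv y (n - t) - gW W y (n - t))` has energy `≤ ε Y³`.

PROOF. `y = 0`: the function is `0`. Otherwise it is the sum of `c (log Y/log y) (fP y - gW W y)(n - t)`
and `c (log Y/log y - 1) gW W y (n - t)` (`fP y = log y pv y`). For large `Y`:
`1 ≤ log Y/log y ≤ 2` and `log Y/log y - 1 ≤ log C₁/log y`, which is as small as we want.
`En_translate`, `En_const_mul`, `En_fP_sub_gW_le` with `ε/512`: the first function has energy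
`≤ 16 (ε/512) y³`; the second one `≤ (log C₁/log y)^4 (2 y + 1) (y W²)² ≤ (ε/32) Y³` for large `Y`.
`En_sum_le` for two functions (`ι = Fin 2` or `Bool`): `≤ 2^4 (ε/32) Y³`. -/
lemma En_term_le (C₁ ε : ℝ) (hC₁ : 1 ≤ C₁) (hε : 0 < ε) : ∃ w₀ : ℕ, ∀ w : ℕ, w₀ ≤ w → ∃ Y₀ : ℕ,
    ∀ (Y y : ℕ) (t : ℤ) (c : ℝ), Y₀ ≤ Y → |c| ≤ 1 → 0 ≤ t → t + y ≤ (Y : ℤ) →
      (y = 0 ∨ (Y : ℝ) ≤ C₁ * y) →
      En Y (fun n => c * (Real.log Y * pv y (n - t) - gW (primorial w) y (n - t)))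
        ≤ ε * (Y : ℝ) ^ 3 := by
  obtain ⟨w₀, hw₀⟩ := En_fP_sub_gW_le (ε / 512) (by positivity)
  refine ⟨w₀, fun w hw => ?_⟩
  obtain ⟨y₀, hy₀⟩ := hw₀ w hw
  obtain ⟨W, hWdef⟩ : ∃ W, W = primorial w := ⟨_, rfl⟩
  rw [← hWdef] at hy₀ ⊢
  have hW : 1 ≤ W := by rw [hWdef]; exact primorial_pos w
  have hW' : (1 : ℝ) ≤ (W : ℝ) := by exact_mod_cast hW
  obtain ⟨β, hβ⟩ : ∃ β : ℝ, β = min 1 (ε / (96 * (W : ℝ) ^ 4)) := ⟨_, rfl⟩
  have hβ0 : 0 < β := by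
    rw [hβ]
    exact lt_min one_pos (by positivity)
  have hβ1 : β ≤ 1 := by rw [hβ]; exact min_le_left _ _
  have hβ2 : β * (96 * (W : ℝ) ^ 4) ≤ ε := by
    have : β ≤ ε / (96 * (W : ℝ) ^ 4) := by rw [hβ]; exact min_le_right _ _
    rwa [le_div_iff₀ (by positivity)] at this
  have hC₁0 : 0 < C₁ := by linarith
  obtain ⟨y₁, hy₁⟩ : ∃ y₁ : ℕ, y₁ = max y₀ (max 3 (⌈Real.exp (Real.log C₁ / β)⌉₊)) := ⟨_, rfl⟩
  refine ⟨⌈C₁ * y₁⌉₊ + 1, fun Y y t c hY hc ht hty hyC => ?_⟩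
  rcases hyC with rfl | hyC
  · have h0 : (fun n : ℤ => c * (Real.log Y * pv 0 (n - t) - gW W 0 (n - t))) = fun _ => 0 := by
      funext n
      rw [E6b_pv_supp 0 _ (by push_cast; omega), E6b_gW_supp W 0 _ (by push_cast; omega)]
      simp
    rw [h0]
    have h1 : En Y (fun _ => 0) = 0 := by
      unfold En corr
      simp
    rw [h1]
    positivity
  -- `y` is large
  have hyy₁ : y₁ ≤ y := by
    have h1 : C₁ * (y₁ : ℝ) ≤ C₁ * y := by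
      calc C₁ * (y₁ : ℝ) ≤ (⌈C₁ * y₁⌉₊ : ℝ) := Nat.le_ceil _
        _ ≤ (Y : ℝ) := by exact_mod_cast (by omega : ⌈C₁ * (y₁ : ℝ)⌉₊ ≤ Y)
        _ ≤ C₁ * y := hyC
    have h2 := le_of_mul_le_mul_left h1 hC₁0
    exact_mod_cast h2
  have hyy₀ : y₀ ≤ y := le_trans (by rw [hy₁]; exact le_max_left _ _) hyy₁
  have hy3 : 3 ≤ y := le_trans (by rw [hy₁]; exact (le_max_left _ _).trans (le_max_right _ _)) hyy₁
  have hyexp : Real.exp (Real.log C₁ / β) ≤ y := by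
    refine (Nat.le_ceil _).trans ?_
    exact_mod_cast le_trans (by rw [hy₁]; exact (le_max_right _ _).trans (le_max_right _ _)) hyy₁
  have hy3' : (3 : ℝ) ≤ (y : ℝ) := by exact_mod_cast hy3
  have hypos : (0 : ℝ) < y := by linarith
  have hlogy : Real.log C₁ / β ≤ Real.log y := by
    rw [Real.le_log_iff_exp_le hypos]
    exact hyexp
  have hlogy0 : 0 < Real.log y := Real.log_pos (by linarith)
  have hyY : y ≤ Y := by omega
  have hyY' : (y : ℝ) ≤ (Y : ℝ) := by exact_mod_cast hyY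
  have hYpos : (0 : ℝ) < Y := by linarith
  have hlog1 : Real.log y ≤ Real.log Y := Real.log_le_log hypos hyY'
  have hlog2 : Real.log Y ≤ Real.log C₁ + Real.log y := by
    rw [← Real.log_mul (by linarith) (by linarith)]
    exact Real.log_le_log hYpos hyC
  have hlogC : Real.log C₁ ≤ β * Real.log y := by
    rw [div_le_iff₀ hβ0] at hlogy
    linarith
  obtain ⟨a, ha⟩ : ∃ a : ℝ, a = Real.log Y / Real.log y := ⟨_, rfl⟩
  have ha1 : a * Real.log y = Real.log Y := by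
    rw [ha, div_mul_cancel₀ _ hlogy0.ne']
  have ha2 : 1 ≤ a := by
    rw [ha, le_div_iff₀ hlogy0]
    linarith
  have ha3 : a ≤ 1 + β := by
    rw [ha, div_le_iff₀ hlogy0]
    nlinarith
  obtain ⟨E, hE⟩ : ∃ E : Bool → ℤ → ℝ, E = fun i n => if i then (c * a) * (fP y (n - t) - gW W y (n - t))
      else (c * (a - 1)) * gW W y (n - t) := ⟨_, rfl⟩
  have hfun : (fun n : ℤ => c * (Real.log Y * pv y (n - t) - gW W y (n - t)))
      = fun n => ∑ i, E i n := by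
    funext n
    rw [Fintype.sum_bool, hE]
    simp only [if_true, Bool.false_eq_true, if_false]
    rw [E6b_fP_eq, ← ha1]
    ring
  have hsupp : ∀ i, ∀ n : ℤ, ¬ (1 ≤ n ∧ n ≤ (Y : ℤ)) → E i n = 0 := by
    intro i n hn
    have h1 : ¬ (1 ≤ n - t ∧ n - t ≤ (y : ℤ)) := by omega
    rw [hE]
    simp only [E6b_fP_supp y _ h1, E6b_gW_supp W y _ h1]
    split_ifs <;> simp
  have hy3Y : (y : ℝ) ^ 3 ≤ (Y : ℝ) ^ 3 := pow_le_pow_left₀ hypos.le hyY' 3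
  have hen : ∀ i, En Y (E i) ≤ ε / 32 * (Y : ℝ) ^ 3 := by
    intro i
    cases i
    · -- the second function
      have h1 : E false = fun n => (c * (a - 1)) * (fun m => gW W y (m - t)) n := by
        rw [hE]
        funext n
        simp
      rw [h1, En_const_mul, En_translate Y y t ht hty (gW W y) (E6b_gW_supp W y)]
      have h2 : (c * (a - 1)) ^ 4 ≤ β := by
        refine E6b_pow_four_le _ _ ?_ hβ1
        rw [abs_mul, abs_of_nonneg (by linarith : 0 ≤ a - 1)]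
        calc |c| * (a - 1) ≤ 1 * (a - 1) := mul_le_mul_of_nonneg_right hc (by linarith)
          _ ≤ β := by linarith
      calc (c * (a - 1)) ^ 4 * En y (gW W y) ≤ β * (3 * (W : ℝ) ^ 4 * (y : ℝ) ^ 3) :=
            mul_le_mul h2 (E6b_En_gW W y hW (by omega)) (En_nonneg _ _) hβ0.le
        _ = (β * (96 * (W : ℝ) ^ 4)) / 32 * (y : ℝ) ^ 3 := by ring
        _ ≤ ε / 32 * (y : ℝ) ^ 3 := by
            refine mul_le_mul_of_nonneg_right ?_ (by positivity)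
            linarith
        _ ≤ ε / 32 * (Y : ℝ) ^ 3 := mul_le_mul_of_nonneg_left hy3Y (by positivity)
    · have h1 : E true = fun n => (c * a) * (fun m => (fun k => fP y k - gW W y k) (m - t)) n := by
        rw [hE]
        funext n
        simp
      rw [h1, En_const_mul, En_translate Y y t ht hty (fun k => fP y k - gW W y k)
        (fun n hn => by simp only [E6b_fP_supp y _ hn, E6b_gW_supp W y _ hn, sub_zero])]
      have h2 : (c * a) ^ 4 ≤ 16 := by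
        have h3 : |c * a| ≤ 2 := by
          rw [abs_mul, abs_of_nonneg (by linarith : 0 ≤ a)]
          calc |c| * a ≤ 1 * a := mul_le_mul_of_nonneg_right hc (by linarith)
            _ ≤ 2 := by linarith
        calc (c * a) ^ 4 = |c * a| ^ 4 := by rw [← abs_pow, abs_of_nonneg (by positivity)]
          _ ≤ 2 ^ 4 := pow_le_pow_left₀ (abs_nonneg _) h3 4
          _ = 16 := by norm_num
      calc (c * a) ^ 4 * En y (fun k => fP y k - gW W y k) ≤ 16 * (ε / 512 * (y : ℝ) ^ 3) :=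
            mul_le_mul h2 (hy₀ y hyy₀) (En_nonneg _ _) (by norm_num)
        _ = ε / 32 * (y : ℝ) ^ 3 := by ring
        _ ≤ ε / 32 * (Y : ℝ) ^ 3 := mul_le_mul_of_nonneg_left hy3Y (by positivity)
  rw [hfun]
  have h9 := En_sum_le Y E (ε / 32 * (Y : ℝ) ^ 3) (by positivity) hsupp hen
  rw [Fintype.card_bool] at h9
  refine h9.trans ?_
  have h10 : 0 ≤ ε * (Y : ℝ) ^ 3 := by positivity
  push_cast
  nlinarith

/-- The energy of `fS - gJ`.

PROOF. `fS n - gJ n = ∑_i c_i (log Y pv (y i) - gW W (y i))(n - (H - h i))`; `En_term_le` with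
`t = H - h i` and `ε/(R^4 + 1)`, `En_sum_le`. -/
theorem En_fS_sub_gJ_le (ι : Type) [Fintype ι] (C₁ ε : ℝ) (hC₁ : 1 ≤ C₁) (hε : 0 < ε) : ∃ w₀ : ℕ,
    ∀ w : ℕ, w₀ ≤ w → ∃ Y₀ : ℕ, ∀ (Y H : ℕ) (h y : ι → ℕ) (c : ι → ℝ), Y₀ ≤ Y →
    Cut Y H C₁ h y c →
    En Y (fun n => fS Y H h y c n - gJ (primorial w) H h y c n) ≤ ε * (Y : ℝ) ^ 3 := by
  obtain ⟨R, hR⟩ : ∃ R : ℝ, R = (Fintype.card ι : ℝ) := ⟨_, rfl⟩
  have hR0 : 0 ≤ R := by rw [hR]; exact Nat.cast_nonneg _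
  obtain ⟨w₀, hw₀⟩ := En_term_le C₁ (ε / (R ^ 4 + 1)) hC₁ (by positivity)
  refine ⟨w₀, fun w hw => ?_⟩
  obtain ⟨Y₀, hY₀⟩ := hw₀ w hw
  refine ⟨Y₀, fun Y H h y c hY hcut => ?_⟩
  obtain ⟨E, hE⟩ : ∃ E : ι → ℤ → ℝ, E = fun i n =>
      c i * (Real.log Y * pv (y i) (n - ((H : ℤ) - h i)) - gW (primorial w) (y i) (n - ((H : ℤ) - h i))) :=
    ⟨_, rfl⟩
  have hfun : (fun n : ℤ => fS Y H h y c n - gJ (primorial w) H h y c n) = fun n => ∑ i, E i n := by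
    funext n
    unfold fS gJ
    rw [Finset.mul_sum, ← Finset.sum_sub_distrib, hE]
    refine Finset.sum_congr rfl fun i _ => ?_
    have h1 : n - (H : ℤ) + h i = n - ((H : ℤ) - h i) := by ring
    rw [h1]
    ring
  have ht : ∀ i, (0 : ℤ) ≤ (H : ℤ) - h i := by
    intro i
    have := hcut.hH i
    omega
  have hty : ∀ i, (H : ℤ) - h i + y i ≤ (Y : ℤ) := by
    intro i
    have := hcut.hY i
    omega
  have hsupp : ∀ i, ∀ n : ℤ, ¬ (1 ≤ n ∧ n ≤ (Y : ℤ)) → E i n = 0 := by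
    intro i n hn
    have h1 := ht i
    have h2 := hty i
    have h3 : ¬ (1 ≤ n - ((H : ℤ) - h i) ∧ n - ((H : ℤ) - h i) ≤ (y i : ℤ)) := by omega
    rw [hE]
    simp only [E6b_pv_supp (y i) _ h3, E6b_gW_supp _ (y i) _ h3]
    simp
  have hen : ∀ i, En Y (E i) ≤ ε / (R ^ 4 + 1) * (Y : ℝ) ^ 3 := by
    intro i
    rw [hE]
    exact hY₀ Y (y i) ((H : ℤ) - h i) (c i) hY (hcut.hc i) (ht i) (hty i) (hcut.hC i)
  rw [hfun]
  have h9 := En_sum_le Y E (ε / (R ^ 4 + 1) * (Y : ℝ) ^ 3) (by positivity) hsupp hen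
  refine h9.trans ?_
  rw [← hR]
  have h10 : R ^ 4 * (ε / (R ^ 4 + 1)) ≤ ε := by
    rw [mul_div_assoc', div_le_iff₀ (by positivity)]
    nlinarith
  calc R ^ 4 * (ε / (R ^ 4 + 1) * (Y : ℝ) ^ 3) = R ^ 4 * (ε / (R ^ 4 + 1)) * (Y : ℝ) ^ 3 := by ring
    _ ≤ ε * (Y : ℝ) ^ 3 := mul_le_mul_of_nonneg_right h10 (by positivity)

end Pool.Agent.Lib.MP_bae66e_nt.LP
end

section

end
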