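import Pool.Agent.Lib.MP_bae66e_nt.Mg.G062
import Pool.Agent.Lib.MP_bae66e_nt.Mg.G065
import Pool.Agent.Lib.MP_bae66e_nt.Mg.G044
import Pool.Agent.Lib.MP_bae66e_nt.Mg.G047

section

/-!
# LP/E7c: from `fS` to the model of a high level
-/

set_option autoImplicit false

open Finset

namespace Pool.Agent.Lib.MP_bae66e_nt.LP

open Pool.Agent.Lib.MP_bae66e_nt.LL

private lemma E7c_eps (C s η : ℝ) (hC : 1 ≤ C) (hs : 1 ≤ s) (hη : 0 < η) :
    ∃ ε : ℝ, 0 < ε ∧ ε ≤ 1 ∧ C * s * Real.sqrt (Real.sqrt ε) ≤ η := by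
  set δ : ℝ := η / (C * s) with hδ
  have hCs : 0 < C * s := by positivity
  have hδ0 : 0 < δ := by positivity
  refine ⟨min 1 (δ ^ 4), lt_min one_pos (by positivity), min_le_left _ _, ?_⟩
  have hεδ : Real.sqrt (Real.sqrt (min 1 (δ ^ 4))) ≤ δ := by
    have h1 : Real.sqrt (min 1 (δ ^ 4)) ≤ δ ^ 2 := by
      have h2 : Real.sqrt (min 1 (δ ^ 4)) ≤ Real.sqrt ((δ ^ 2) ^ 2) := by
        apply Real.sqrt_le_sqrt
        refine (min_le_right _ _).trans (le_of_eq ?_)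
        ring
      rwa [Real.sqrt_sq (by positivity)] at h2
    have h3 : Real.sqrt (Real.sqrt (min 1 (δ ^ 4))) ≤ Real.sqrt (δ ^ 2) := Real.sqrt_le_sqrt h1
    rwa [Real.sqrt_sq hδ0.le] at h3
  calc C * s * Real.sqrt (Real.sqrt (min 1 (δ ^ 4))) ≤ C * s * δ :=
        mul_le_mul_of_nonneg_left hεδ hCs.le
    _ = η := by rw [hδ]; field_simp

/-- Step 2: for every `k`, `h`, `C₁ ≥ 1`, `W₀ ≥ 1`, `η > 0` there is `w₁` such that for `w' ≥ w₁` and
large `Y`: `∑_t FF DD(fS, gJ (primorial w')) ≤ η Y^{k+1}`.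

PROOF. As in step 1 (`E7b`) with `En_fS_sub_gJ_le`; the weight is `2000 RR h d` (`corr_le_of_pv`,
`corr_le_of_gW`, `4 ≤ 2000`), `M = R log Y + R W'` (`abs_fS_le`, `abs_gJ_le`), `diag_smallJ` with
`W = W' = primorial w'` (squarefree), `2 W'^3 ≤ Y` for large `Y`. -/
theorem step_two {ι : Type} [Fintype ι] (k : ℕ) (h : ι → ℕ) (C₁ : ℝ) (hC₁ : 1 ≤ C₁) (W₀ : ℕ)
    (hW₀ : 1 ≤ W₀) (η : ℝ) (hη : 0 < η) : ∃ w₁ : ℕ, ∀ w' : ℕ, w₁ ≤ w' → ∃ Y₀ : ℕ,
      ∀ (Y H : ℕ) (y : ι → ℕ) (c : ι → ℝ), Y₀ ≤ Y → Cut Y H C₁ h y c →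
      ∑ t ∈ shifts k Y, FF (k + 1) t * DD Y W₀ (fS Y H h y c) (gJ (primorial w') H h y c) t
        ≤ η * (Y : ℝ) ^ (k + 1) := by
  obtain ⟨B', hB', hRR⟩ := sum_RR_pow_le ι k
  have hB0 : (0 : ℝ) ≤ 2000 ^ (2 * k) * B' := by positivity
  obtain ⟨C, hC, hstep⟩ := one_step k (2000 ^ (2 * k) * B') hB0
  have hW1 : (1 : ℝ) ≤ W₀ := by exact_mod_cast hW₀
  have hs1 : 1 ≤ Real.sqrt W₀ := by rwa [Real.one_le_sqrt]
  obtain ⟨ε, hε, hε1, hεη⟩ := E7c_eps C (Real.sqrt W₀) η hC hs1 hη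
  obtain ⟨w₁, hw₁⟩ := En_fS_sub_gJ_le ι C₁ ε hC₁ hε
  refine ⟨w₁, fun w' hw' => ?_⟩
  obtain ⟨Y₁, hY₁⟩ := hw₁ w' hw'
  obtain ⟨Y₂, hY₂⟩ := diag_smallJ (primorial w') (Fintype.card ι) k (Real.sqrt ε)
    (Real.sqrt_pos.2 hε)
  refine ⟨Y₁ + Y₂ + 2 * (primorial w') ^ 3 + 2, fun Y H y c hY hc => ?_⟩
  have hYR : (1 : ℝ) ≤ Y := by exact_mod_cast (by omega : 1 ≤ Y)
  have hlog : 0 ≤ Real.log Y := Real.log_nonneg hYR
  have hWpos : 1 ≤ primorial w' := primorial_pos w'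
  have hWsq : Squarefree (primorial w') := LL.squarefree_primorial w'
  have hH : ∃ H' : ℕ, H' ≤ Y ∧ ∀ i, h i ≤ H' := by
    rcases isEmpty_or_nonempty ι with hι | ⟨⟨i⟩⟩
    · exact ⟨0, by omega, fun i => (hι.false i).elim⟩
    · exact ⟨H, by have := hc.hY i; omega, hc.hH⟩
  obtain ⟨H', hH', hhH'⟩ := hH
  have hmain := hstep Y W₀ (fS Y H h y c) (gJ (primorial w') H h y c) (fun d => 2000 * RR h d)
    (D0 h) (Fintype.card ι * Real.log Y + Fintype.card ι * (primorial w' : ℕ)) ε (by omega) hW₀ hε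
    (by positivity)
    (fun n hn => fS_support hc n hn) (fun n hn => gJ_support hc _ n hn)
    (fun n => (abs_fS_le hc n).trans (le_add_of_nonneg_right (by positivity)))
    (fun n => (abs_gJ_le hc _ hWpos n).trans (le_add_of_nonneg_left (by positivity)))
    (fun d => mul_nonneg (by norm_num) (RR_nonneg h d))
    (fun d hd _ => corr_le_of_pv Y H (by omega) _ (fun n => abs_fS_le_sum hc n) d hd)
    (fun d hd _ => (corr_le_of_gW Y H (primorial w') hWsq (by omega) _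
      (fun n => abs_gJ_le_sum hc _ n) d hd).trans (by
        have h1 := RR_nonneg h d
        have h2 : 0 ≤ RR h d * Y := by positivity
        nlinarith))
    (by
      have h1 := hRR Y H' h (by omega) hH' hhH'
      have h2 : ∑ d ∈ Finset.Icc (-(Y : ℤ)) (Y : ℤ), (2000 * RR h d) ^ (2 * k) =
          2000 ^ (2 * k) * ∑ d ∈ Finset.Icc (-(Y : ℤ)) (Y : ℤ), (RR h d) ^ (2 * k) := by
        rw [Finset.mul_sum]
        exact Finset.sum_congr rfl fun d _ => mul_pow _ _ _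
      rw [h2, mul_assoc]
      exact mul_le_mul_of_nonneg_left h1 (by positivity))
    (by
      have h1 := hY₂ Y (by omega)
      refine le_trans ?_ h1
      exact mul_le_mul_of_nonneg_right (card_D0_le h) (by positivity))
    (hY₁ Y H h y c (by omega) hc)
  refine hmain.trans ?_
  exact mul_le_mul_of_nonneg_right hεη (by positivity)

end Pool.Agent.Lib.MP_bae66e_nt.LP
end

section

end
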