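import Pool.Agent.Lib.MP_bae66e_nt.Mg.G041
import Pool.Agent.Lib.MP_bae66e_nt.Mg.G075
import Pool.Agent.Lib.MP_bae66e_nt.Mg.G046
import Pool.Agent.Lib.MP_bae66e_nt.Mg.G043

section

/-!
# LP/E3b: cross correlations of the primes and of the model

`pv y n = 1` for a prime `n ∈ [1, y]`; `vv W y n = gW W y n / log y`.
-/

set_option autoImplicit false

open Finset

namespace Pool.Agent.Lib.MP_bae66e_nt.LP

open Pool.Agent.Lib.MP_bae66e_nt.LL

/-- The same for the model: for squarefree `W`, `Y ≥ 2 W³`, `s ≠ s'`, `|s' - s| ≤ 2 Y`: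
`∑_{n ∈ [1, Y]} gW W y (n + s) gW W y' (n + s') ≤ 4 Y / ρ(|s' - s|)²`.

PROOF. The terms are nonnegative and at most `nu W (n + s) nu W (n + s')`, which is periodic modulo
`W` in `n` with period sum `W SS W ![0, s - s'] ≤ W / ρ(|s' - s|)` (`sum_nu_eq_SS`, `SS_pair_le`; see
`corr_gW_le` in E08). By `abs_sum_periodic_sub_le` the sum is at most
`Y SS + 2 W W² ≤ Y/ρ + Y ≤ 2 Y/ρ²`. -/
lemma sum_gW_gW_le (W Y y y' : ℕ) (hW : Squarefree W) (hY : 2 * W ^ 3 ≤ Y) (s s' : ℤ)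
    (hs : s ≠ s') :
    ∑ n ∈ Finset.Icc (1 : ℤ) (Y : ℤ), gW W y (n + s) * gW W y' (n + s')
      ≤ 4 * Y / (rho (s' - s).natAbs) ^ 2 := by
  have hW1 : 1 ≤ W := Nat.pos_of_ne_zero hW.ne_zero
  have hW0 : (0 : ℝ) < W := by exact_mod_cast hW1
  obtain ⟨d, hd⟩ : ∃ d : ℤ, d = s' - s := ⟨_, rfl⟩
  have hd0 : d ≠ 0 := by omega
  obtain ⟨F, hF⟩ : ∃ F : ℤ → ℝ, F = fun n => nu W n * nu W (n + d) := ⟨_, rfl⟩
  have hF0 : ∀ n, 0 ≤ F n := by
    intro n
    rw [hF]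
    exact mul_nonneg (nu_nonneg W n) (nu_nonneg W _)
  have hFM : ∀ n, |F n| ≤ (W : ℝ) ^ 2 := by
    intro n
    rw [abs_of_nonneg (hF0 n), sq, hF]
    exact mul_le_mul (nu_le W hW1 n) (nu_le W hW1 _) (nu_nonneg W _) hW0.le
  have hFper : ∀ n m : ℤ, n ≡ m [ZMOD (W : ℤ)] → F n = F m := by
    intro n m h
    rw [hF]
    simp only
    rw [nu_periodic W n m h, nu_periodic W (n + d) (m + d) (h.add_right d)]
  have hgW : ∀ (y : ℕ) (n : ℤ), 0 ≤ gW W y n ∧ gW W y n ≤ nu W n := by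
    intro y n
    unfold gW
    split_ifs
    · exact ⟨nu_nonneg W n, le_rfl⟩
    · exact ⟨le_rfl, nu_nonneg W n⟩
  have hsum : ∑ n ∈ Finset.Icc (1 : ℤ) (Y : ℤ), gW W y (n + s) * gW W y' (n + s') ≤
      ∑ t ∈ Finset.range Y, F (1 + s + t) := by
    have h1 : ∑ t ∈ Finset.range Y, F (1 + s + t) =
        ∑ n ∈ Finset.Icc (1 : ℤ) (Y : ℤ), F (n + s) := by
      refine Finset.sum_bij' (fun (t : ℕ) _ => (1 : ℤ) + t) (fun (n : ℤ) _ => (n - 1).toNat)
        ?_ ?_ ?_ ?_ ?_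
      · intro t ht
        rw [Finset.mem_range] at ht
        rw [Finset.mem_Icc]
        omega
      · intro n hn
        rw [Finset.mem_Icc] at hn
        rw [Finset.mem_range]
        omega
      · intro t _
        simp
      · intro n hn
        rw [Finset.mem_Icc] at hn
        show (1 : ℤ) + (((n - 1).toNat : ℕ) : ℤ) = n
        omega
      · intro t _
        have e : (1 : ℤ) + s + t = 1 + t + s := by ring
        rw [e]
    rw [h1]
    refine Finset.sum_le_sum fun n _ => ?_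
    rw [hF]
    simp only
    have e : n + s + d = n + s' := by
      rw [hd]
      ring
    rw [e]
    exact mul_le_mul (hgW y _).2 (hgW y' _).2 (hgW y' _).1 (nu_nonneg W _)
  have hSS : ∑ c ∈ Finset.range W, F c = W * SS W (![0, -d] : Fin 2 → ℤ) := by
    rw [← sum_nu_eq_SS W hW]
    refine Finset.sum_congr rfl fun c _ => ?_
    rw [Fin.prod_univ_two]
    simp [hF]
  have hmain := abs_sum_periodic_sub_le W hW1 F hFper ((W : ℝ) ^ 2) hFM (1 + s) Y
  rw [hSS] at hmain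
  have hpair := SS_pair_le W d hd0
  have hr0 := rho_pos d.natAbs
  have hr1 : rho d.natAbs ≤ 1 := rho_le_one _
  obtain ⟨x, hx⟩ : ∃ x : ℝ, x = 1 / rho d.natAbs := ⟨_, rfl⟩
  have hx1 : 1 ≤ x := by
    rw [hx, le_div_iff₀ hr0]
    linarith
  rw [← hx] at hpair
  have h1 := (abs_le.1 hmain).2
  have h2 : (Y : ℝ) / W * (W * SS W (![0, -d] : Fin 2 → ℤ)) =
      Y * SS W (![0, -d] : Fin 2 → ℤ) := by
    field_simp
  rw [h2] at h1
  have hY' : 2 * (W : ℝ) ^ 3 ≤ Y := by exact_mod_cast hY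
  have hY0 : (0 : ℝ) ≤ Y := Nat.cast_nonneg _
  have h3 : (Y : ℝ) * SS W (![0, -d] : Fin 2 → ℤ) ≤ Y * x := mul_le_mul_of_nonneg_left hpair hY0
  have h4 : 2 * (W : ℝ) * (W : ℝ) ^ 2 = 2 * (W : ℝ) ^ 3 := by ring
  have h5 : (Y : ℝ) * x ≤ Y * x ^ 2 := by
    apply mul_le_mul_of_nonneg_left _ hY0
    nlinarith
  have h6 : (Y : ℝ) ≤ Y * x ^ 2 := by
    have : 1 ≤ x ^ 2 := one_le_pow₀ hx1
    nlinarith
  have h7 : 4 * (Y : ℝ) / (rho d.natAbs) ^ 2 = 4 * (Y * x ^ 2) := by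
    rw [hx]
    field_simp
  rw [← hd, h7]
  linarith

end Pool.Agent.Lib.MP_bae66e_nt.LP
end

section

/-!
# LP/E3c: cross correlations of the primes and of the model

`pv y n = 1` for a prime `n ∈ [1, y]`; `vv W y n = gW W y n / log y`.
-/

set_option autoImplicit false

open Finset

namespace Pool.Agent.Lib.MP_bae66e_nt.LP

open Pool.Agent.Lib.MP_bae66e_nt.LL

lemma RR_nonneg {ι : Type} [Fintype ι] (h : ι → ℕ) (d : ℤ) : 0 ≤ RR h d := by
  unfold RR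
  exact Finset.sum_nonneg fun _ _ => Finset.sum_nonneg fun _ _ => sq_nonneg _

/-- The moments of the weights: for every `k` and `ι` there is `B` with `∑_{|d| ≤ Y} (RR h d)^{2k} ≤ B Y`
for `Y ≥ H`, `Y ≥ 1`, `h i ≤ H`.

PROOF. `(∑_{i,l} x_{il})^{2k} ≤ (R²)^{2k} ∑_{i,l} x_{il}^{2k}` for `x_{il} ≥ 0`, `R = #ι` (each `x_{il}` is at
most the maximum; or `inner_le_nnorm_mul_nnorm`, `Finset.pow_sum_le`…); for `R = 0` or `k = 0` the
left-hand side is `0^{2k}` or `1`; and `∑_{|d| ≤ Y} ρ(|d - (h_i - h_l)|)^{-4k} ≤ C Y`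
(`sum_inv_rho_int_le`). -/
lemma sum_RR_pow_le (ι : Type) [Fintype ι] (k : ℕ) : ∃ B : ℝ, 1 ≤ B ∧ ∀ (Y H : ℕ) (h : ι → ℕ), 1 ≤ Y →
    H ≤ Y → (∀ i, h i ≤ H) → ∑ d ∈ Finset.Icc (-(Y : ℤ)) (Y : ℤ), (RR h d) ^ (2 * k) ≤ B * Y := by
  obtain ⟨C, hC1, hC⟩ := sum_inv_rho_int_le (4 * k)
  obtain ⟨P, hP⟩ : ∃ P : ℝ, P = (Fintype.card (ι × ι) : ℝ) := ⟨_, rfl⟩
  have hP0 : 0 ≤ P := by
    rw [hP]
    exact Nat.cast_nonneg _
  refine ⟨3 + P ^ (2 * k) * (P * C), by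
    have : 0 ≤ P ^ (2 * k) * (P * C) := by positivity
    linarith, fun Y H h hY hH hh' => ?_⟩
  have hYR : (1 : ℝ) ≤ Y := by exact_mod_cast hY
  obtain ⟨x, hx⟩ : ∃ x : ι × ι → ℤ → ℝ, x = fun (p : ι × ι) (d : ℤ) =>
    (1 / rho (d + h p.2 - h p.1).natAbs) ^ 2 := ⟨_, rfl⟩
  have hx0 : ∀ p d, 0 ≤ x p d := by
    intro p d
    rw [hx]
    exact sq_nonneg _
  have hRR : ∀ d, RR h d = ∑ p : ι × ι, x p d := by
    intro d
    unfold RR
    rw [Fintype.sum_prod_type, hx]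
  have h1 : ∀ d, (RR h d) ^ (2 * k) ≤ 1 + P ^ (2 * k) * ∑ p : ι × ι, (x p d) ^ (2 * k) := by
    intro d
    have hs0 : 0 ≤ P ^ (2 * k) * ∑ p : ι × ι, (x p d) ^ (2 * k) :=
      mul_nonneg (by positivity) (Finset.sum_nonneg fun p _ => pow_nonneg (hx0 p d) _)
    rw [hRR]
    rcases isEmpty_or_nonempty (ι × ι) with hE | hE
    · rw [Finset.univ_eq_empty, Finset.sum_empty]
      rcases Nat.eq_zero_or_pos k with hk | hk
      · rw [hk]
        simp
      · rw [zero_pow (by omega)]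
        rw [Finset.univ_eq_empty] at hs0
        linarith
    · obtain ⟨q, -, hq⟩ := Finset.exists_max_image (Finset.univ : Finset (ι × ι))
        (fun p => x p d) Finset.univ_nonempty
      have h2 : ∑ p : ι × ι, x p d ≤ P * x q d := by
        refine (Finset.sum_le_sum fun p hp => hq p hp).trans ?_
        rw [Finset.sum_const, Finset.card_univ, nsmul_eq_mul, hP]
      have h3 : (∑ p : ι × ι, x p d) ^ (2 * k) ≤ (P * x q d) ^ (2 * k) :=
        pow_le_pow_left₀ (Finset.sum_nonneg fun p _ => hx0 p d) h2 _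
      have h4 : (x q d) ^ (2 * k) ≤ ∑ p : ι × ι, (x p d) ^ (2 * k) :=
        Finset.single_le_sum (f := fun p => (x p d) ^ (2 * k))
          (fun p _ => pow_nonneg (hx0 p d) _) (Finset.mem_univ q)
      rw [mul_pow] at h3
      have h5 : P ^ (2 * k) * (x q d) ^ (2 * k) ≤ P ^ (2 * k) * ∑ p : ι × ι, (x p d) ^ (2 * k) :=
        mul_le_mul_of_nonneg_left h4 (by positivity)
      linarith
  have h6 : ∀ p : ι × ι, ∑ d ∈ Finset.Icc (-(Y : ℤ)) (Y : ℤ), (x p d) ^ (2 * k) ≤ C * Y := by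
    intro p
    have e1 : |(h p.1 : ℤ) - h p.2| ≤ (Y : ℤ) := by
      have := hh' p.1
      have := hh' p.2
      rw [abs_le]
      omega
    have h7 := hC Y hY ((h p.1 : ℤ) - h p.2) e1
    refine le_trans (le_of_eq ?_) h7
    refine Finset.sum_congr rfl fun d _ => ?_
    rw [hx]
    simp only
    have e2 : d - ((h p.1 : ℤ) - h p.2) = d + h p.2 - h p.1 := by ring
    rw [e2, ← pow_mul]
    congr 1
    ring
  have hcard : ((Finset.Icc (-(Y : ℤ)) (Y : ℤ)).card : ℝ) ≤ 3 * Y := by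
    rw [Int.card_Icc]
    have e : ((Y : ℤ) + 1 - -(Y : ℤ)).toNat = 2 * Y + 1 := by omega
    rw [e]
    push_cast
    linarith
  calc ∑ d ∈ Finset.Icc (-(Y : ℤ)) (Y : ℤ), (RR h d) ^ (2 * k)
      ≤ ∑ d ∈ Finset.Icc (-(Y : ℤ)) (Y : ℤ),
        (1 + P ^ (2 * k) * ∑ p : ι × ι, (x p d) ^ (2 * k)) := Finset.sum_le_sum fun d _ => h1 d
    _ = ((Finset.Icc (-(Y : ℤ)) (Y : ℤ)).card : ℝ) + P ^ (2 * k) *
        ∑ p : ι × ι, ∑ d ∈ Finset.Icc (-(Y : ℤ)) (Y : ℤ), (x p d) ^ (2 * k) := by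
        rw [Finset.sum_add_distrib, Finset.sum_const, nsmul_eq_mul, mul_one, ← Finset.mul_sum,
          Finset.sum_comm]
    _ ≤ 3 * Y + P ^ (2 * k) * ∑ _p : ι × ι, C * Y :=
        add_le_add hcard (mul_le_mul_of_nonneg_left (Finset.sum_le_sum fun p _ => h6 p)
          (by positivity))
    _ = (3 + P ^ (2 * k) * (P * C)) * Y := by
        rw [Finset.sum_const, Finset.card_univ, nsmul_eq_mul, ← hP]
        ring

end Pool.Agent.Lib.MP_bae66e_nt.LP
end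

section

end

section

/-!
# LP/E4a: supports and bounds of `fS`, `gJ` and of the functions `Near` them
-/

set_option autoImplicit false

open Finset

namespace Pool.Agent.Lib.MP_bae66e_nt.LP

open Pool.Agent.Lib.MP_bae66e_nt.LL

variable {ι : Type} [Fintype ι] {Y H : ℕ} {C₁ : ℝ} {h y : ι → ℕ} {c : ι → ℝ}

/-- Monotonicity in the cutoff. -/
lemma pv_mono {y y' : ℕ} (hy : y ≤ y') (n : ℤ) : pv y n ≤ pv y' n := by
  unfold pv
  by_cases h : 1 ≤ n ∧ n ≤ (y : ℤ) ∧ n.toNat.Prime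
  · rw [if_pos h, if_pos ⟨h.1, by omega, h.2.2⟩]
  · rw [if_neg h]
    split_ifs <;> norm_num

lemma gW_mono (W : ℕ) {y y' : ℕ} (hy : y ≤ y') (n : ℤ) : gW W y n ≤ gW W y' n := by
  unfold gW
  by_cases h : 1 ≤ n ∧ n ≤ (y : ℤ)
  · rw [if_pos h, if_pos ⟨h.1, by omega⟩]
  · rw [if_neg h]
    split_ifs
    · exact nu_nonneg W n
    · exact le_rfl

/-- Supports: `n - H + h i ∈ [1, y i]` implies `n ∈ [1, Y]` (`h i ≤ H`, `y i + H ≤ Y`). -/
lemma fS_support (hc : Cut Y H C₁ h y c) (n : ℤ) (hn : ¬ (1 ≤ n ∧ n ≤ (Y : ℤ))) :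
    fS Y H h y c n = 0 := by
  unfold fS
  rw [Finset.sum_eq_zero, mul_zero]
  intro i _
  have h1 := hc.hH i
  have h2 := hc.hY i
  unfold pv
  rw [if_neg, mul_zero]
  rintro ⟨h3, h4, _⟩
  exact hn ⟨by omega, by omega⟩

lemma gJ_support (hc : Cut Y H C₁ h y c) (W : ℕ) (n : ℤ) (hn : ¬ (1 ≤ n ∧ n ≤ (Y : ℤ))) :
    gJ W H h y c n = 0 := by
  unfold gJ
  refine Finset.sum_eq_zero fun i _ => ?_
  have h1 := hc.hH i
  have h2 := hc.hY i
  unfold gW
  rw [if_neg, mul_zero]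
  rintro ⟨h3, h4⟩
  exact hn ⟨by omega, by omega⟩

/-- `f ≥ 0` and `f ≤ log Y ∑ pv (Y - H) (n - H + h i) = 0` outside `[1, Y]`. (If there is an index `i`
then `H ≤ Y`; otherwise the sum is empty.) -/
lemma near_support (hc : Cut Y H C₁ h y c) {f : ℤ → ℝ} (hf : Near Y H h y c f) (n : ℤ)
    (hn : ¬ (1 ≤ n ∧ n ≤ (Y : ℤ))) : f n = 0 := by
  have h0 := hf.f0 n
  have h1 := hf.fP n
  have h2 : ∑ i, pv (Y - H) (n - H + h i) = 0 := by
    refine Finset.sum_eq_zero fun i _ => ?_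
    have h1 := hc.hH i
    have h2 := hc.hY i
    unfold pv
    rw [if_neg]
    rintro ⟨h3, h4, _⟩
    exact hn ⟨by omega, by omega⟩
  rw [h2, mul_zero] at h1
  linarith

/-- `|fS| ≤ log Y ∑ pv (Y - H) (n - H + h i)` (`y i ≤ Y - H`, `|c i| ≤ 1`). -/
lemma abs_fS_le_sum (hc : Cut Y H C₁ h y c) (n : ℤ) :
    |fS Y H h y c n| ≤ Real.log Y * ∑ i, pv (Y - H) (n - H + h i) := by
  unfold fS
  have hlog : 0 ≤ Real.log Y := Real.log_natCast_nonneg Y
  rw [abs_mul, abs_of_nonneg hlog]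
  refine mul_le_mul_of_nonneg_left ?_ hlog
  refine (Finset.abs_sum_le_sum_abs _ _).trans (Finset.sum_le_sum fun i _ => ?_)
  have h2 := hc.hY i
  have h3 : 0 ≤ pv (y i) (n - H + h i) := by
    unfold pv
    split_ifs <;> norm_num
  rw [abs_mul, abs_of_nonneg h3]
  exact (mul_le_of_le_one_left h3 (hc.hc i)).trans (pv_mono (by omega) _)

lemma abs_gJ_le_sum (hc : Cut Y H C₁ h y c) (W : ℕ) (n : ℤ) :
    |gJ W H h y c n| ≤ ∑ i, gW W (Y - H) (n - H + h i) := by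
  unfold gJ
  refine (Finset.abs_sum_le_sum_abs _ _).trans (Finset.sum_le_sum fun i _ => ?_)
  have h2 := hc.hY i
  have h3 : 0 ≤ gW W (y i) (n - H + h i) := by
    unfold gW
    split_ifs
    · exact nu_nonneg W _
    · exact le_rfl
  rw [abs_mul, abs_of_nonneg h3]
  exact (mul_le_of_le_one_left h3 (hc.hc i)).trans (gW_mono W (by omega) _)

/-- `|fS| ≤ R log Y`, `|f| ≤ R log Y`, `|gJ| ≤ R W`, `R = #ι`. -/
lemma abs_fS_le (hc : Cut Y H C₁ h y c) (n : ℤ) :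
    |fS Y H h y c n| ≤ Fintype.card ι * Real.log Y := by
  have hlog : 0 ≤ Real.log Y := Real.log_natCast_nonneg Y
  refine (abs_fS_le_sum hc n).trans ?_
  rw [mul_comm]
  refine mul_le_mul_of_nonneg_right ?_ hlog
  have h1 : ∑ i, pv (Y - H) (n - H + h i) ≤ ∑ _i : ι, (1 : ℝ) := by
    refine Finset.sum_le_sum fun i _ => ?_
    unfold pv
    split_ifs <;> norm_num
  refine h1.trans (le_of_eq ?_)
  rw [Finset.sum_const, Finset.card_univ, nsmul_eq_mul, mul_one]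

lemma near_abs_le {f : ℤ → ℝ} (hf : Near Y H h y c f) (n : ℤ) :
    |f n| ≤ Fintype.card ι * Real.log Y := by
  have hlog : 0 ≤ Real.log Y := Real.log_natCast_nonneg Y
  rw [abs_of_nonneg (hf.f0 n)]
  refine (hf.fP n).trans ?_
  rw [mul_comm]
  refine mul_le_mul_of_nonneg_right ?_ hlog
  have h1 : ∑ i, pv (Y - H) (n - H + h i) ≤ ∑ _i : ι, (1 : ℝ) := by
    refine Finset.sum_le_sum fun i _ => ?_
    unfold pv
    split_ifs <;> norm_num
  refine h1.trans (le_of_eq ?_)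
  rw [Finset.sum_const, Finset.card_univ, nsmul_eq_mul, mul_one]

lemma abs_gJ_le (hc : Cut Y H C₁ h y c) (W : ℕ) (hW : 1 ≤ W) (n : ℤ) :
    |gJ W H h y c n| ≤ Fintype.card ι * W := by
  refine (abs_gJ_le_sum hc W n).trans ?_
  have h1 : ∑ i, gW W (Y - H) (n - H + h i) ≤ ∑ _i : ι, (W : ℝ) := by
    refine Finset.sum_le_sum fun i _ => ?_
    unfold gW
    split_ifs
    · exact nu_le W hW _
    · exact Nat.cast_nonneg W
  refine h1.trans (le_of_eq ?_)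
  rw [Finset.sum_const, Finset.card_univ, nsmul_eq_mul]

/-- `#D0 ≤ R²`. -/
lemma card_D0_le (h : ι → ℕ) : ((D0 h).card : ℝ) ≤ (Fintype.card ι : ℝ) ^ 2 := by
  unfold D0
  have h1 : (Finset.univ.image (fun il : ι × ι => (h il.1 : ℤ) - h il.2)).card ≤
      Fintype.card ι ^ 2 := by
    refine Finset.card_image_le.trans (le_of_eq ?_)
    rw [Finset.card_univ, Fintype.card_prod, sq]
  exact_mod_cast h1

end Pool.Agent.Lib.MP_bae66e_nt.LP
end

section

/-!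
# LP/E4b: correlations
-/

set_option autoImplicit false

open Finset

namespace Pool.Agent.Lib.MP_bae66e_nt.LP

open Pool.Agent.Lib.MP_bae66e_nt.LL

variable {ι : Type} [Fintype ι] {h : ι → ℕ}

private lemma E4b_corr (Y : ℕ) (f : ℤ → ℝ) (A : ι → ℤ → ℝ) (hf : ∀ n, |f n| ≤ ∑ i, A i n)
    (d : ℤ) : |corr Y f d| ≤ ∑ i, ∑ l, ∑ n ∈ Finset.Icc (1 : ℤ) (Y : ℤ), A i n * A l (n + d) := by
  have h1 : |corr Y f d| ≤ ∑ n ∈ Finset.Icc (1 : ℤ) (Y : ℤ), (∑ i, A i n) * ∑ l, A l (n + d) := by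
    unfold corr
    refine (Finset.abs_sum_le_sum_abs _ _).trans (Finset.sum_le_sum fun n _ => ?_)
    rw [abs_mul]
    exact mul_le_mul (hf n) (hf _) (abs_nonneg _) ((abs_nonneg _).trans (hf n))
  refine h1.trans (le_of_eq ?_)
  simp only [Finset.sum_mul_sum]
  rw [Finset.sum_comm]
  exact Finset.sum_congr rfl fun i _ => Finset.sum_comm

/-- Correlations of functions bounded by primes: for `d ∉ D0 h` (so `d + h l - h i ≠ 0` for all `i`,
`l`), `Y ≥ 2`: `|corr Y f d| ≤ 2000 RR(d) Y`.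

PROOF. `|corr| ≤ ∑_n |f n| |f(n + d)| ≤ log² Y ∑_{i,l} ∑_n pv(n - H + h i) pv(n + d - H + h l)` and
`sum_pv_pv_le` with `s = -H + h i`, `s' = d - H + h l` (`s' - s = d + h l - h i`). -/
lemma corr_le_of_pv (Y H : ℕ) (hY2 : 2 ≤ Y) (f : ℤ → ℝ)
    (hf : ∀ n, |f n| ≤ Real.log Y * ∑ i, pv (Y - H) (n - H + h i)) (d : ℤ) (hd : d ∉ D0 h) :
    |corr Y f d| ≤ 2000 * RR h d * Y := by
  have hlog : 0 < Real.log Y := Real.log_pos (by exact_mod_cast (by omega : 1 < Y))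
  have h1 := E4b_corr Y f (fun (i : ι) n => Real.log Y * pv (Y - H) (n - H + h i))
    (fun n => by
      rw [← Finset.mul_sum]
      exact hf n) d
  refine h1.trans ?_
  unfold RR
  rw [Finset.mul_sum, Finset.sum_mul]
  refine Finset.sum_le_sum fun i _ => ?_
  rw [Finset.mul_sum, Finset.sum_mul]
  refine Finset.sum_le_sum fun l _ => ?_
  have hne : (-(H : ℤ) + h i) ≠ d - H + h l := by
    intro h2
    apply hd
    unfold D0
    rw [Finset.mem_image]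
    exact ⟨(i, l), Finset.mem_univ _, by
      show (h i : ℤ) - h l = d
      omega⟩
  have h3 := sum_pv_pv_le Y (Y - H) (Y - H) hY2 (Nat.sub_le _ _) (Nat.sub_le _ _)
    (-(H : ℤ) + h i) (d - H + h l) hne
  have e1 : (d - H + h l - (-(H : ℤ) + h i)) = d + h l - h i := by ring
  rw [e1] at h3
  have hr := rho_pos (d + h l - h i).natAbs
  have h4 : ∑ n ∈ Finset.Icc (1 : ℤ) (Y : ℤ), (Real.log Y * pv (Y - H) (n - H + h i)) *
      (Real.log Y * pv (Y - H) (n + d - H + h l)) =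
      (Real.log Y) ^ 2 * ∑ n ∈ Finset.Icc (1 : ℤ) (Y : ℤ), pv (Y - H) (n + (-(H : ℤ) + h i)) *
        pv (Y - H) (n + (d - H + h l)) := by
    rw [Finset.mul_sum]
    refine Finset.sum_congr rfl fun n _ => ?_
    have e2 : n - H + h i = n + (-(H : ℤ) + h i) := by ring
    have e3 : n + d - H + h l = n + (d - H + h l) := by ring
    rw [e2, e3]
    ring
  rw [h4]
  refine (mul_le_mul_of_nonneg_left h3 (sq_nonneg _)).trans (le_of_eq ?_)
  field_simp

/-- The same for functions bounded by the model (`sum_gW_gW_le`). -/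
lemma corr_le_of_gW (Y H W : ℕ) (hW : Squarefree W) (hWY : 2 * W ^ 3 ≤ Y) (f : ℤ → ℝ)
    (hf : ∀ n, |f n| ≤ ∑ i, gW W (Y - H) (n - H + h i)) (d : ℤ) (hd : d ∉ D0 h) :
    |corr Y f d| ≤ 4 * RR h d * Y := by
  have h1 := E4b_corr Y f (fun (i : ι) n => gW W (Y - H) (n - H + h i)) hf d
  refine h1.trans ?_
  unfold RR
  rw [Finset.mul_sum, Finset.sum_mul]
  refine Finset.sum_le_sum fun i _ => ?_
  rw [Finset.mul_sum, Finset.sum_mul]
  refine Finset.sum_le_sum fun l _ => ?_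
  have hne : (-(H : ℤ) + h i) ≠ d - H + h l := by
    intro h2
    apply hd
    unfold D0
    rw [Finset.mem_image]
    exact ⟨(i, l), Finset.mem_univ _, by
      show (h i : ℤ) - h l = d
      omega⟩
  have h3 := sum_gW_gW_le W Y (Y - H) (Y - H) hW hWY (-(H : ℤ) + h i) (d - H + h l) hne
  have e1 : (d - H + h l - (-(H : ℤ) + h i)) = d + h l - h i := by ring
  rw [e1] at h3
  have hr := rho_pos (d + h l - h i).natAbs
  have h4 : ∑ n ∈ Finset.Icc (1 : ℤ) (Y : ℤ), gW W (Y - H) (n - H + h i) *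
      gW W (Y - H) (n + d - H + h l) =
      ∑ n ∈ Finset.Icc (1 : ℤ) (Y : ℤ), gW W (Y - H) (n + (-(H : ℤ) + h i)) *
        gW W (Y - H) (n + (d - H + h l)) := by
    refine Finset.sum_congr rfl fun n _ => ?_
    have e2 : n - H + h i = n + (-(H : ℤ) + h i) := by ring
    have e3 : n + d - H + h l = n + (d - H + h l) := by ring
    rw [e2, e3]
  rw [h4]
  refine h3.trans (le_of_eq ?_)
  field_simp

end Pool.Agent.Lib.MP_bae66e_nt.LP
end
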