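import Pool.Agent.Lib.MP_bae66e_nt.Mg.G041
import Pool.Agent.Lib.MP_bae66e_nt.Mg.G060
import Pool.Agent.Lib.MP_bae66e_nt.Mg.G043
import Pool.Agent.Lib.MP_bae66e_nt.Mg.G046

section

/-!
# LP/J1a: weighted windows
-/

set_option autoImplicit false

open Finset

namespace Pool.Agent.Lib.MP_bae66e_nt.LP

open Pool.Agent.Lib.MP_bae66e_nt.LL

variable {s : ℕ} {u v : Fin s → ℕ} {w : Fin s → ℝ}

lemma pv_sub (a b : ℕ) (hab : a ≤ b) (n : ℤ) :
    pv b n - pv a n = if ((a : ℤ) < n ∧ n ≤ (b : ℤ)) ∧ n.toNat.Prime then 1 else 0 := by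
  unfold pv
  by_cases hp : n.toNat.Prime
  · have h0 : 1 ≤ n := by
      have := hp.two_le
      omega
    simp only [hp, h0, true_and, and_true]
    by_cases h1 : n ≤ (a : ℤ)
    · rw [if_pos (by omega : n ≤ (b : ℤ)), if_pos h1, if_neg (by omega), sub_self]
    · by_cases h2 : n ≤ (b : ℤ)
      · rw [if_pos h2, if_neg h1, if_pos (by omega), sub_zero]
      · rw [if_neg h2, if_neg h1, if_neg (by omega), sub_zero]
  · rw [if_neg (fun h => hp h.2.2), if_neg (fun h => hp h.2.2), if_neg (fun h => hp h.2), sub_zero]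

lemma gW_sub (W a b : ℕ) (hab : a ≤ b) (n : ℤ) :
    gW W b n - gW W a n = if (a : ℤ) < n ∧ n ≤ (b : ℤ) then nu W n else 0 := by
  unfold gW
  by_cases h1 : 1 ≤ n ∧ n ≤ (a : ℤ)
  · rw [if_pos (by omega : 1 ≤ n ∧ n ≤ (b : ℤ)), if_pos h1, if_neg (by omega), sub_self]
  · by_cases h2 : 1 ≤ n ∧ n ≤ (b : ℤ)
    · rw [if_pos h2, if_neg h1, if_pos (by omega), sub_zero]
    · rw [if_neg h2, if_neg h1, if_neg (by omega), sub_zero]

/-- At most one window contains `n`. -/
lemma win_unique (hW : Win u v) (n : ℤ) (j l : Fin s) (hj : (u j : ℤ) < n ∧ n ≤ (v j : ℤ))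
    (hl : (u l : ℤ) < n ∧ n ≤ (v l : ℤ)) : j = l := by
  by_contra hne
  rcases hW.dis j l hne with h | h <;> omega

/-- If `n` is in no window, then every weighted sum over the windows vanishes; if it is in the window `j`,
the sum has only one term. -/
private lemma J1a_phi_ite (hW : Win u v) (n : ℤ) :
    phi u v w n = ∑ j, if ((u j : ℤ) < n ∧ n ≤ (v j : ℤ)) ∧ n.toNat.Prime then w j else 0 := by
  unfold phi
  refine Finset.sum_congr rfl fun j _ => ?_
  rw [pv_sub _ _ (hW.le j), mul_ite, mul_one, mul_zero]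

private lemma J1a_gphi_ite (W : ℕ) (hW : Win u v) (n : ℤ) :
    gphi W u v w n = ∑ j, if (u j : ℤ) < n ∧ n ≤ (v j : ℤ) then w j * nu W n else 0 := by
  unfold gphi
  refine Finset.sum_congr rfl fun j _ => ?_
  rw [gW_sub _ _ _ (hW.le j), mul_ite, mul_zero]

private lemma J1a_phi_of_mem (hW : Win u v) (n : ℤ) (j : Fin s)
    (hj : (u j : ℤ) < n ∧ n ≤ (v j : ℤ)) (hp : n.toNat.Prime) : phi u v w n = w j := by
  rw [J1a_phi_ite hW, Finset.sum_eq_single j]
  · rw [if_pos ⟨hj, hp⟩]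
  · intro l _ hl
    rw [if_neg]
    intro h
    exact hl (win_unique hW n l j h.1 hj)
  · intro h
    exact absurd (Finset.mem_univ j) h

private lemma J1a_phi_of_not (hW : Win u v) (n : ℤ)
    (hn : ¬ ∃ j, ((u j : ℤ) < n ∧ n ≤ (v j : ℤ)) ∧ n.toNat.Prime) : phi u v w n = 0 := by
  rw [J1a_phi_ite hW]
  refine Finset.sum_eq_zero fun j _ => ?_
  rw [if_neg]
  intro h
  exact hn ⟨j, h⟩

lemma phi_nonneg (hW : Win u v) (hw : ∀ j, 0 ≤ w j ∧ w j ≤ 1) (n : ℤ) : 0 ≤ phi u v w n := by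
  rw [J1a_phi_ite hW]
  refine Finset.sum_nonneg fun j _ => ?_
  split_ifs
  · exact (hw j).1
  · exact le_rfl

lemma phi_le_one (hW : Win u v) (hw : ∀ j, 0 ≤ w j ∧ w j ≤ 1) (n : ℤ) : phi u v w n ≤ 1 := by
  by_cases h : ∃ j, ((u j : ℤ) < n ∧ n ≤ (v j : ℤ)) ∧ n.toNat.Prime
  · obtain ⟨j, hj, hp⟩ := h
    rw [J1a_phi_of_mem hW n j hj hp]
    exact (hw j).2
  · rw [J1a_phi_of_not hW n h]
    exact zero_le_one

/-- `φ(n) ≠ 0` only if `n` is a prime in one of the windows. -/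
lemma exists_of_phi_ne_zero (hW : Win u v) (n : ℤ) (h : phi u v w n ≠ 0) :
    ∃ j, pv (v j) n = 1 := by
  by_cases h1 : ∃ j, ((u j : ℤ) < n ∧ n ≤ (v j : ℤ)) ∧ n.toNat.Prime
  · obtain ⟨j, hj, hp⟩ := h1
    refine ⟨j, ?_⟩
    unfold pv
    exact if_pos ⟨by omega, hj.2, hp⟩
  · exact absurd (J1a_phi_of_not hW n h1) h

/-- `1 - φ(n) = ∏_j (1 - w_j)^{…}` (at most one factor is `≠ 1`). -/
lemma one_sub_phi (hW : Win u v) (n : ℤ) :
    1 - phi u v w n
      = ∏ j, (if ((u j : ℤ) < n ∧ n ≤ (v j : ℤ)) ∧ n.toNat.Prime then 1 - w j else 1) := by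
  by_cases h : ∃ j, ((u j : ℤ) < n ∧ n ≤ (v j : ℤ)) ∧ n.toNat.Prime
  · obtain ⟨j, hj, hp⟩ := h
    rw [J1a_phi_of_mem hW n j hj hp, Finset.prod_eq_single j]
    · rw [if_pos ⟨hj, hp⟩]
    · intro l _ hl
      rw [if_neg]
      intro h
      exact hl (win_unique hW n l j h.1 hj)
    · intro h
      exact absurd (Finset.mem_univ j) h
  · rw [J1a_phi_of_not hW n h, sub_zero]
    refine (Finset.prod_eq_one fun j _ => ?_).symm
    rw [if_neg]
    intro h1
    exact h ⟨j, h1⟩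

lemma gphi_nonneg (W : ℕ) (hW : Win u v) (hw : ∀ j, 0 ≤ w j ∧ w j ≤ 1) (n : ℤ) :
    0 ≤ gphi W u v w n := by
  rw [J1a_gphi_ite W hW]
  refine Finset.sum_nonneg fun j _ => ?_
  split_ifs
  · exact mul_nonneg (hw j).1 (nu_nonneg W n)
  · exact le_rfl

/-- `γ(n) = 0` if `n` is in no window. -/
lemma gphi_eq_zero (W : ℕ) (hW : Win u v) (n : ℤ)
    (hn : ∀ j, ¬ ((u j : ℤ) < n ∧ n ≤ (v j : ℤ))) : gphi W u v w n = 0 := by
  rw [J1a_gphi_ite W hW]
  refine Finset.sum_eq_zero fun j _ => ?_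
  rw [if_neg (hn j)]

/-- `γ(n) ≤ nu W n` (at most one window contains `n`, weights `≤ 1`). -/
lemma gphi_le (W : ℕ) (hW : Win u v) (hw : ∀ j, 0 ≤ w j ∧ w j ≤ 1) (n : ℤ) :
    gphi W u v w n ≤ nu W n := by
  by_cases h : ∃ j, (u j : ℤ) < n ∧ n ≤ (v j : ℤ)
  · obtain ⟨j, hj⟩ := h
    rw [J1a_gphi_ite W hW, Finset.sum_eq_single j]
    · rw [if_pos hj]
      exact mul_le_of_le_one_left (nu_nonneg W n) (hw j).2
    · intro l _ hl
      rw [if_neg]
      intro h
      exact hl (win_unique hW n l j h hj)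
    · intro h
      exact absurd (Finset.mem_univ j) h
  · rw [gphi_eq_zero W hW n (fun j hj => h ⟨j, hj⟩)]
    exact nu_nonneg W n

end Pool.Agent.Lib.MP_bae66e_nt.LP
end

section

/-!
# LP/J1b: the windows as a family of cutoffs with coefficients
-/

set_option autoImplicit false

open Finset

namespace Pool.Agent.Lib.MP_bae66e_nt.LP

open Pool.Agent.Lib.MP_bae66e_nt.LL

variable {r s : ℕ} {Y H : ℕ} {C₁ : ℝ} {h : Fin r → ℕ} {u v : Fin r → Fin s → ℕ}
  {w : Fin r → Fin s → ℝ}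

/-- The shifts of the family indexed by `Fin r × Fin s × Bool`. -/
def hI {r s : ℕ} (h : Fin r → ℕ) (x : Fin r × Fin s × Bool) : ℕ := h x.1

/-- The cutoffs. -/
def yI {r s : ℕ} (u v : Fin r → Fin s → ℕ) (x : Fin r × Fin s × Bool) : ℕ :=
  if x.2.2 then v x.1 x.2.1 else u x.1 x.2.1

/-- The coefficients. -/
noncomputable def cI {r s : ℕ} (w : Fin r → Fin s → ℝ) (x : Fin r × Fin s × Bool) : ℝ :=
  if x.2.2 then w x.1 x.2.1 else -(w x.1 x.2.1)

/-- `Fintype.sum_prod_type`, `Fintype.sum_bool`. -/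
lemma fS_I (n : ℤ) : fS Y H (hI h) (yI u v) (cI w) n
    = Real.log Y * ∑ i, phi (u i) (v i) (w i) (n - H + h i) := by
  unfold fS
  congr 1
  rw [Fintype.sum_prod_type]
  apply Finset.sum_congr rfl
  intro i _
  rw [Fintype.sum_prod_type]
  unfold phi
  apply Finset.sum_congr rfl
  intro j _
  rw [Fintype.sum_bool]
  simp only [hI, yI, cI, if_true, Bool.false_eq_true, if_false]
  ring

lemma gJ_I (W : ℕ) (n : ℤ) : gJ W H (hI h) (yI u v) (cI w) n
    = ∑ i, gphi W (u i) (v i) (w i) (n - H + h i) := by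
  unfold gJ
  rw [Fintype.sum_prod_type]
  apply Finset.sum_congr rfl
  intro i _
  rw [Fintype.sum_prod_type]
  unfold gphi
  apply Finset.sum_congr rfl
  intro j _
  rw [Fintype.sum_bool]
  simp only [hI, yI, cI, if_true, Bool.false_eq_true, if_false]
  ring

/-- `u i j ≤ v i j ≤ Y - H`, `|w| ≤ 1`. -/
lemma cut_I (hc : CutW Y H C₁ h u v) (hw : ∀ i j, 0 ≤ w i j ∧ w i j ≤ 1) :
    Cut Y H C₁ (hI (s := s) h) (yI u v) (cI w) := by
  refine ⟨fun x => hc.hH x.1, fun x => ?_, fun x => ?_, fun x => ?_⟩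
  · have h1 := (hc.win x.1).le x.2.1
    have h2 := hc.hY x.1 x.2.1
    unfold yI
    split_ifs <;> omega
  · unfold yI
    split_ifs
    · exact hc.hv x.1 x.2.1
    · exact hc.hu x.1 x.2.1
  · have h1 := hw x.1 x.2.1
    unfold cI
    split_ifs
    · rw [abs_le]; constructor <;> linarith
    · rw [abs_le]; constructor <;> linarith

private lemma J1b_pv_nonneg (y : ℕ) (n : ℤ) : 0 ≤ pv y n := by
  unfold pv; split_ifs <;> norm_num

private lemma J1b_pv_le_one (y : ℕ) (n : ℤ) : pv y n ≤ 1 := by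
  unfold pv; split_ifs <;> norm_num

/-- If `φ_i ≠ 0` then `pv (Y - H) = 1` and there is an index `j`. -/
private lemma J1b_pv_eq_one (hc : CutW Y H C₁ h u v) (i : Fin r) (n : ℤ)
    (hn : phi (u i) (v i) (w i) n ≠ 0) : pv (Y - H) n = 1 ∧ Nonempty (Fin s) := by
  obtain ⟨j, hj⟩ := exists_of_phi_ne_zero (hc.win i) n hn
  refine ⟨?_, ⟨j⟩⟩
  have h1 : pv (v i j) n ≤ pv (Y - H) n := pv_mono (by have := hc.hY i j; omega) n
  exact le_antisymm (J1b_pv_le_one _ _) (by rw [← hj]; exact h1)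

private lemma J1b_prod_bounds (S : Finset (Fin r)) (x : Fin r → ℝ) (h0 : ∀ i, 0 ≤ x i)
    (h1 : ∀ i, x i ≤ 1) :
    0 ≤ ∏ i ∈ S, (1 - x i) ∧ ∏ i ∈ S, (1 - x i) ≤ 1 ∧ 1 - ∑ i ∈ S, x i ≤ ∏ i ∈ S, (1 - x i) := by
  classical
  induction S using Finset.induction_on with
  | empty => simp
  | insert a S ha ih =>
    rw [Finset.prod_insert ha, Finset.sum_insert ha]
    obtain ⟨i1, i2, i3⟩ := ih
    have ha0 := h0 a
    have ha1 := h1 a
    refine ⟨mul_nonneg (by linarith) i1, ?_, ?_⟩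
    · calc (1 - x a) * ∏ i ∈ S, (1 - x i) ≤ 1 * 1 :=
            mul_le_mul (by linarith) i2 i1 (by norm_num)
        _ = 1 := by norm_num
    · nlinarith

/-- PROOF. Let `x_i = φ_i(n - H + h i) ∈ [0, 1]`. `f = log Y (1 - ∏ (1 - x_i))`. `f ≥ 0`.
`1 - ∏ (1 - x_i) ≤ ∑ x_i`, and `x_i ≤ ∑_j pv (v i j) ≤ ∑_{(j, b)} pv (Y - H)` (if `x_i ≠ 0` some
`pv (v i j) = 1`). If at most one `x_i` is `≠ 0`, then `f = fS`. Otherwise
`0 ≤ ∑ x_i - (1 - ∏ (1 - x_i)) ≤ r ≤ #ι` (`s ≥ 1` since some window is nonempty), and there are `i ≠ l` with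
`x_i, x_l ≠ 0`, so `h i ≠ h l` and the double sum contains the term `1`. -/
lemma near_I (hc : CutW Y H C₁ h u v) (hw : ∀ i j, 0 ≤ w i j ∧ w i j ≤ 1) :
    Near Y H (hI (s := s) h) (yI u v) (cI w) (fun n => Real.log Y * FJ H h u v w n) := by
  classical
  have hlog : 0 ≤ Real.log (Y : ℝ) := Real.log_natCast_nonneg Y
  have x0 : ∀ n : ℤ, ∀ i, 0 ≤ phi (u i) (v i) (w i) (n - H + h i) :=
    fun n i => phi_nonneg (hc.win i) (hw i) _
  have x1 : ∀ n : ℤ, ∀ i, phi (u i) (v i) (w i) (n - H + h i) ≤ 1 :=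
    fun n i => phi_le_one (hc.win i) (hw i) _
  refine ⟨fun n => ?_, fun n => ?_, fun n => ?_⟩
  · have hb := J1b_prod_bounds Finset.univ _ (x0 n) (x1 n)
    apply mul_nonneg hlog
    unfold FJ
    linarith [hb.2.1]
  · have hb := J1b_prod_bounds Finset.univ _ (x0 n) (x1 n)
    apply mul_le_mul_of_nonneg_left _ hlog
    have h2 : FJ H h u v w n ≤ ∑ i, phi (u i) (v i) (w i) (n - H + h i) := by
      unfold FJ
      linarith [hb.2.2]
    refine h2.trans ?_
    rw [Fintype.sum_prod_type]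
    apply Finset.sum_le_sum
    intro i _
    by_cases hx : phi (u i) (v i) (w i) (n - H + h i) = 0
    · rw [hx]
      exact Finset.sum_nonneg fun _ _ => J1b_pv_nonneg _ _
    · obtain ⟨h3, ⟨j⟩⟩ := J1b_pv_eq_one hc i _ hx
      have h4 : pv (Y - H) (n - H + hI (s := s) h (i, (j, true)))
          ≤ ∑ x : Fin s × Bool, pv (Y - H) (n - H + hI (s := s) h (i, x)) :=
        Finset.single_le_sum (f := fun x : Fin s × Bool =>
          pv (Y - H) (n - H + hI (s := s) h (i, x))) (fun _ _ => J1b_pv_nonneg _ _)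
          (Finset.mem_univ (j, true))
      refine le_trans (x1 n i) ?_
      rw [← h3]
      exact h4
  · rw [fS_I]
    have hb := J1b_prod_bounds Finset.univ _ (x0 n) (x1 n)
    rw [← mul_sub, abs_mul, abs_of_nonneg hlog]
    have hR0 : 0 ≤ ∑ i : Fin r × Fin s × Bool, ∑ l ∈ Finset.univ.filter
        (fun l => hI (s := s) h l ≠ hI h i),
        pv (Y - H) (n - H + hI (s := s) h i) * pv (Y - H) (n - H + hI (s := s) h l) :=
      Finset.sum_nonneg fun _ _ => Finset.sum_nonneg fun _ _ =>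
        mul_nonneg (J1b_pv_nonneg _ _) (J1b_pv_nonneg _ _)
    by_cases hone : ∃ i0 : Fin r, ∀ i, i ≠ i0 → phi (u i) (v i) (w i) (n - H + h i) = 0
    · obtain ⟨i0, hi0⟩ := hone
      have h5 : FJ H h u v w n - ∑ i, phi (u i) (v i) (w i) (n - H + h i) = 0 := by
        unfold FJ
        rw [Finset.prod_eq_single i0 (fun i _ hi => by rw [hi0 i hi]; ring)
          (fun hh => absurd (Finset.mem_univ _) hh),
          Finset.sum_eq_single i0 (fun i _ hi => hi0 i hi)
          (fun hh => absurd (Finset.mem_univ _) hh)]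
        ring
      rw [h5, abs_zero, mul_zero]
      exact mul_nonneg (mul_nonneg (Nat.cast_nonneg _) hlog) hR0
    · push Not at hone
      by_cases hr : Nonempty (Fin r)
      · obtain ⟨i1⟩ := hr
        obtain ⟨i, hi, hxi⟩ := hone i1
        obtain ⟨l, hl, hxl⟩ := hone i
        obtain ⟨hpi, ⟨j⟩⟩ := J1b_pv_eq_one hc i _ hxi
        obtain ⟨hpl, _⟩ := J1b_pv_eq_one hc l _ hxl
        have hne : h l ≠ h i := fun hh => hl (hc.inj hh)
        have hR1 : 1 ≤ ∑ i : Fin r × Fin s × Bool, ∑ l ∈ Finset.univ.filter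
            (fun l => hI (s := s) h l ≠ hI h i),
            pv (Y - H) (n - H + hI (s := s) h i) * pv (Y - H) (n - H + hI (s := s) h l) := by
          have h6 := Finset.single_le_sum (f := fun i : Fin r × Fin s × Bool =>
            ∑ l ∈ Finset.univ.filter (fun l => hI (s := s) h l ≠ hI h i),
            pv (Y - H) (n - H + hI (s := s) h i) * pv (Y - H) (n - H + hI (s := s) h l))
            (fun _ _ => Finset.sum_nonneg fun _ _ =>
              mul_nonneg (J1b_pv_nonneg _ _) (J1b_pv_nonneg _ _)) (Finset.mem_univ (i, (j, true)))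
          refine le_trans ?_ h6
          have h7 := Finset.single_le_sum (f := fun l : Fin r × Fin s × Bool =>
            pv (Y - H) (n - H + hI (s := s) h (i, (j, true)))
              * pv (Y - H) (n - H + hI (s := s) h l))
            (s := Finset.univ.filter (fun l => hI (s := s) h l ≠ hI h (i, (j, true))))
            (fun _ _ => mul_nonneg (J1b_pv_nonneg _ _) (J1b_pv_nonneg _ _))
            (Finset.mem_filter.mpr ⟨Finset.mem_univ (l, (j, true)), hne⟩)
          refine le_trans ?_ h7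
          show 1 ≤ pv (Y - H) (n - H + h i) * pv (Y - H) (n - H + h l)
          rw [hpi, hpl, one_mul]
        have hcard : (r : ℝ) ≤ (Fintype.card (Fin r × Fin s × Bool) : ℝ) := by
          rw [Fintype.card_prod, Fintype.card_prod, Fintype.card_fin, Fintype.card_fin,
            Fintype.card_bool]
          have hs : 1 ≤ s := by have := j.2; omega
          exact_mod_cast Nat.le_mul_of_pos_right r (by omega)
        have hsum : ∑ i, phi (u i) (v i) (w i) (n - H + h i) ≤ r := by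
          have := Finset.sum_le_card_nsmul Finset.univ
            (fun i => phi (u i) (v i) (w i) (n - H + h i)) 1 (fun i _ => x1 n i)
          simpa using this
        have habs : |FJ H h u v w n - ∑ i, phi (u i) (v i) (w i) (n - H + h i)| ≤ r := by
          unfold FJ
          rw [abs_le]
          constructor
          · linarith [hb.2.1]
          · have : (0 : ℝ) ≤ r := Nat.cast_nonneg r
            linarith [hb.2.2]
        calc Real.log Y * |FJ H h u v w n - ∑ i, phi (u i) (v i) (w i) (n - H + h i)|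
            ≤ Real.log Y * (Fintype.card (Fin r × Fin s × Bool) : ℝ) :=
              mul_le_mul_of_nonneg_left (habs.trans hcard) hlog
          _ = (Fintype.card (Fin r × Fin s × Bool) : ℝ) * Real.log Y * 1 := by ring
          _ ≤ _ := mul_le_mul_of_nonneg_left hR1 (mul_nonneg (Nat.cast_nonneg _) hlog)
      · have h5 : FJ H h u v w n - ∑ i, phi (u i) (v i) (w i) (n - H + h i) = 0 := by
          rw [not_nonempty_iff] at hr
          unfold FJ
          simp
        rw [h5, abs_zero, mul_zero]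
        exact mul_nonneg (mul_nonneg (Nat.cast_nonneg _) hlog) hR0

end Pool.Agent.Lib.MP_bae66e_nt.LP
end

section

/-!
# LP/J1c: the pair `FJ`, `GJ`
-/

set_option autoImplicit false

open Finset

namespace Pool.Agent.Lib.MP_bae66e_nt.LP

open Pool.Agent.Lib.MP_bae66e_nt.LL

variable {r s : ℕ} {Y H : ℕ} {C₁ : ℝ} {h : Fin r → ℕ} {u v : Fin r → Fin s → ℕ}
  {w : Fin r → Fin s → ℝ}

/-- The majorant. -/
noncomputable def ΓJ {r : ℕ} (W Y H : ℕ) (h : Fin r → ℕ) (n : ℤ) : ℝ :=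
  (∑ i, nu W (n - H + h i)) / Real.log Y

/-- The pair `FJ`, `GJ` satisfies the hypotheses with `A = r + 1`, for `Y ≥ 2`, `W ≥ 1`.

PROOF. `phi ∈ [0, 1]`; `0 ≤ gphi ≤ nu W ≤ W` (`gphi_le`); supports as in `fS_support` (a window of
`n - H + h i` contains it only if `1 ≤ n ≤ Y`); `nu_periodic`; `∑_{a < W} nu W (a - n - H + h i) = W`
(`sum_nu_class`). -/
lemma pairFG_J (hc : CutW Y H C₁ h u v) (hw : ∀ i j, 0 ≤ w i j ∧ w i j ≤ 1) (hY2 : 2 ≤ Y) (W : ℕ)
    (hW : 1 ≤ W) : PairFG W Y (r + 1) (FJ H h u v w) (GJ W Y H h u v w) (ΓJ W Y H h) := by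
  have hL : 0 < Real.log Y := Real.log_pos (by exact_mod_cast (by omega : 1 < Y))
  have hWr : (0 : ℝ) ≤ W := Nat.cast_nonneg W
  have x0 : ∀ i n, 0 ≤ phi (u i) (v i) (w i) n := fun i n => phi_nonneg (hc.win i) (hw i) n
  have x1 : ∀ i n, phi (u i) (v i) (w i) n ≤ 1 := fun i n => phi_le_one (hc.win i) (hw i) n
  have g0 : ∀ i n, 0 ≤ gphi W (u i) (v i) (w i) n := fun i n => gphi_nonneg W (hc.win i) (hw i) n
  have g1 : ∀ i n, gphi W (u i) (v i) (w i) n ≤ nu W n := fun i n => gphi_le W (hc.win i) (hw i) n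
  have hsupp : ∀ n : ℤ, ¬ (1 ≤ n ∧ n ≤ (Y : ℤ)) → ∀ i j,
      ¬ ((u i j : ℤ) < n - H + h i ∧ n - H + h i ≤ (v i j : ℤ)) := by
    rintro n hn i j ⟨h1, h2⟩
    have h3 := hc.hH i
    have h4 := hc.hY i j
    apply hn
    constructor
    · have : (0 : ℤ) ≤ u i j := Int.natCast_nonneg _
      omega
    · omega
  refine ⟨fun n => ?_, fun n => ?_, fun n => ?_, fun n => ?_, fun n hn => ?_, fun n hn => ?_,
    fun n => ?_, fun n => ?_, fun n m hnm => ?_, fun n => ?_⟩
  · unfold FJ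
    have : ∏ i, (1 - phi (u i) (v i) (w i) (n - H + h i)) ≤ 1 :=
      Finset.prod_le_one (fun i _ => by have := x1 i (n - H + h i); linarith)
        (fun i _ => by have := x0 i (n - H + h i); linarith)
    linarith
  · unfold FJ
    have : 0 ≤ ∏ i, (1 - phi (u i) (v i) (w i) (n - H + h i)) :=
      Finset.prod_nonneg (fun i _ => by have := x1 i (n - H + h i); linarith)
    linarith
  · unfold GJ
    exact div_nonneg (Finset.sum_nonneg fun i _ => g0 i _) hL.le
  · unfold GJ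
    apply div_le_div_of_nonneg_right _ hL.le
    calc ∑ i, gphi W (u i) (v i) (w i) (n - H + h i) ≤ ∑ _i : Fin r, (W : ℝ) :=
          Finset.sum_le_sum fun i _ => (g1 i _).trans (nu_le W hW _)
      _ = r * W := by rw [Finset.sum_const, Finset.card_univ, Fintype.card_fin, nsmul_eq_mul]
      _ ≤ ((r : ℝ) + 1) * W := by nlinarith
  · unfold FJ
    rw [Finset.prod_eq_one, sub_self]
    intro i _
    by_cases h0 : phi (u i) (v i) (w i) (n - H + h i) = 0
    · rw [h0, sub_zero]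
    · exfalso
      obtain ⟨j, hj⟩ := exists_of_phi_ne_zero (hc.win i) _ h0
      unfold pv at hj
      split_ifs at hj with hj'
      · have h3 := hc.hH i
        have h4 := hc.hY i j
        apply hn
        constructor
        · omega
        · omega
      · norm_num at hj
  · unfold GJ
    rw [Finset.sum_eq_zero fun i _ => gphi_eq_zero W (hc.win i) _ (hsupp n hn i), zero_div]
  · unfold GJ ΓJ
    apply div_le_div_of_nonneg_right _ hL.le
    exact Finset.sum_le_sum fun i _ => g1 i _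
  · unfold ΓJ
    exact div_nonneg (Finset.sum_nonneg fun i _ => nu_nonneg W _) hL.le
  · unfold ΓJ
    congr 1
    refine Finset.sum_congr rfl fun i _ => ?_
    exact nu_periodic W _ _ ((hnm.sub_right _).add_right _)
  · have h1 : ∀ i : Fin r, ∑ a ∈ Finset.range W, nu W ((a : ℤ) - n - H + h i) = W := by
      intro i
      rw [← sum_nu_class W hW (n + H - h i)]
      refine Finset.sum_congr rfl fun a _ => ?_
      congr 1
      ring
    unfold ΓJ
    rw [← Finset.sum_div, Finset.sum_comm, Finset.sum_congr rfl fun i _ => h1 i,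
      Finset.sum_const, Finset.card_univ, Fintype.card_fin, nsmul_eq_mul]
    apply div_le_div_of_nonneg_right _ hL.le
    nlinarith

/-- `f = log Y FJ`, `gJ = log Y GJ` (`gJ_I`). -/
lemma DD_FJ_GJ (W W₀ : ℕ) (hY : 2 ≤ Y) (k : ℕ) (t : Fin k → ℤ) :
    DD Y W₀ (FJ H h u v w) (GJ W Y H h u v w) t
      = DD Y W₀ (fun n => Real.log Y * FJ H h u v w n) (gJ W H (hI h) (yI u v) (cI w)) t
        / (Real.log Y) ^ (k + 1) := by
  have hL : 0 < Real.log Y := Real.log_pos (by exact_mod_cast (by omega : 1 < Y))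
  have hg : ∀ n, gJ W H (hI h) (yI u v) (cI w) n = Real.log Y * GJ W Y H h u v w n := by
    intro n
    rw [gJ_I]
    unfold GJ
    rw [mul_div_cancel₀ _ hL.ne']
  have hP : (0 : ℝ) < (Real.log Y) ^ (k + 1) := pow_pos hL _
  rw [eq_div_iff hP.ne']
  unfold DD
  rw [Finset.sum_mul]
  refine Finset.sum_congr rfl fun b _ => ?_
  rw [← abs_of_pos hP, ← abs_mul, Finset.sum_mul]
  congr 1
  refine Finset.sum_congr rfl fun n _ => ?_
  simp only [hg, Finset.prod_mul_distrib, Finset.prod_const, Finset.card_univ, Fintype.card_fin]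
  ring

/-- The number of `q ∈ Q` with `n - q` a prime in `(a, b]`. -/
noncomputable def cQ (Q : Finset ℕ) (a b : ℕ) (n : ℤ) : ℕ :=
  (Q.filter (fun q : ℕ => ((a : ℤ) < n - q ∧ n - q ≤ (b : ℤ)) ∧ (n - q).toNat.Prime)).card

/-- The sum of `nu W (n - q)` over the `q ∈ Q` with `n - q ∈ (a, b]`. -/
noncomputable def lQ (W : ℕ) (Q : Finset ℕ) (a b : ℕ) (n : ℤ) : ℝ :=
  ∑ q ∈ Q.filter (fun q : ℕ => (a : ℤ) < n - q ∧ n - q ≤ (b : ℤ)), nu W (n - q)

/-- `one_sub_phi`, `Finset.prod_comm`, `Finset.prod_ite`. -/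
lemma zF_FJ (hc : CutW Y H C₁ h u v) (Q : Finset ℕ) (m : ℤ) :
    zF (FJ H h u v w) Q m = ∏ i, ∏ j, (1 - w i j) ^ cQ Q (u i j) (v i j) (m - H + h i) := by
  unfold zF FJ cQ
  simp only [sub_sub_cancel]
  rw [Finset.prod_comm]
  refine Finset.prod_congr rfl fun i _ => ?_
  rw [Finset.prod_congr rfl fun q _ => one_sub_phi (hc.win i) _, Finset.prod_comm]
  refine Finset.prod_congr rfl fun j _ => ?_
  rw [← Finset.prod_filter, Finset.prod_const]
  congr 2
  refine Finset.filter_congr fun q _ => ?_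
  have e : m - (q : ℤ) - H + h i = m - H + h i - q := by ring
  rw [e]

/-- `gW_sub`, `Finset.sum_comm`, `Finset.sum_filter`. -/
lemma lamG_GJ (hc : CutW Y H C₁ h u v) (W : ℕ) (Q : Finset ℕ) (m : ℤ) :
    lamG (GJ W Y H h u v w) Q m
      = (∑ i, ∑ j, w i j * lQ W Q (u i j) (v i j) (m - H + h i)) / Real.log Y := by
  unfold lamG GJ lQ
  rw [← Finset.sum_div]
  congr 1
  rw [Finset.sum_comm]
  refine Finset.sum_congr rfl fun i _ => ?_
  unfold gphi
  rw [Finset.sum_comm]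
  refine Finset.sum_congr rfl fun j _ => ?_
  rw [Finset.sum_congr rfl fun q _ => by rw [gW_sub W _ _ ((hc.win i).le j)], ← Finset.mul_sum]
  congr 1
  rw [Finset.sum_filter]
  refine Finset.sum_congr rfl fun q _ => ?_
  have e : m - (q : ℤ) - H + h i = m - H + h i - q := by ring
  rw [e]

end Pool.Agent.Lib.MP_bae66e_nt.LP
end
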