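import Pool.Agent.Lib.MP_bae66e_nt.Mg.G047
import Pool.Agent.Lib.MP_bae66e_nt.Mg.G054
import Pool.Agent.Lib.MP_bae66e_nt.Mg.G048
import Pool.Agent.Lib.MP_bae66e_nt.Mg.G066
import Pool.Agent.Lib.MP_bae66e_nt.Mg.G064
import Pool.Agent.Lib.MP_bae66e_nt.Mg.G067

section

/-!
# LP/B7: the abstract mixed Poisson formula

Adapt `main_formula` of `LL/B/B07.lean`.
-/

set_option autoImplicit false

open Finset

namespace Pool.Agent.Lib.MP_bae66e_nt.LP

open Pool.Agent.Lib.MP_bae66e_nt.LL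

/-- For every `D ≥ 0`, `c > 0`: for large `y`, `y ≤ D log X log y` implies `c y ≤ X`. -/
private lemma B7_large (D c : ℝ) (hD : 0 ≤ D) (hc : 0 < c) :
    ∃ Y₀ : ℕ, ∀ y : ℕ, Y₀ ≤ y → ∀ X : ℕ, (y : ℝ) ≤ D * Real.log X * Real.log y →
      c * y ≤ X ∧ 0 < Real.log (X : ℝ) := by
  have hd : 0 < 1 / (2 * (D + 1) * (|Real.log c| + 1)) := by positivity
  have h1 := (Real.isLittleO_pow_log_id_atTop (n := 1)).bound hd
  have h2 := (Real.isLittleO_pow_log_id_atTop (n := 2)).bound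
    (show (0 : ℝ) < 1 / (2 * (D + 1)) by positivity)
  obtain ⟨y₀, hy₀⟩ := Filter.eventually_atTop.mp
    (tendsto_natCast_atTop_atTop.eventually (h1.and h2))
  refine ⟨max y₀ 3, fun y hy X hX => ?_⟩
  obtain ⟨h3, h4⟩ := hy₀ y (le_trans (le_max_left _ _) hy)
  have hy3 : 3 ≤ y := le_trans (le_max_right _ _) hy
  have hyR : (3 : ℝ) ≤ y := by exact_mod_cast hy3
  have hy0 : (0 : ℝ) < y := by linarith
  have hlog : 0 < Real.log (y : ℝ) := Real.log_pos (by linarith)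
  rw [id, pow_one, Real.norm_eq_abs, Real.norm_eq_abs, abs_of_pos hlog, abs_of_pos hy0] at h3
  rw [id, Real.norm_eq_abs, Real.norm_eq_abs, abs_of_pos (by positivity), abs_of_pos hy0] at h4
  have hX0 : 0 < Real.log (X : ℝ) := by
    by_contra hcon
    rw [not_lt] at hcon
    have h5 : D * Real.log X ≤ 0 := mul_nonpos_of_nonneg_of_nonpos hD hcon
    have h6 : D * Real.log X * Real.log y ≤ 0 := mul_nonpos_of_nonpos_of_nonneg h5 hlog.le
    linarith
  refine ⟨?_, hX0⟩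
  have hXpos : (0 : ℝ) < X := by
    rcases Nat.eq_zero_or_pos X with h | h
    · rw [h, Nat.cast_zero, Real.log_zero] at hX0
      exact absurd hX0 (lt_irrefl _)
    · exact_mod_cast h
  rw [← Real.log_le_log_iff (by positivity) hXpos, Real.log_mul hc.ne' hy0.ne']
  -- `(log c + log y) * ((D + 1) log y) ≤ y ≤ (D + 1) log y * log X`
  have h7 : (y : ℝ) ≤ (D + 1) * Real.log y * Real.log X := by
    have h8 : 0 ≤ Real.log (X : ℝ) * Real.log y := by positivity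
    calc (y : ℝ) ≤ D * Real.log X * Real.log y := hX
      _ = D * (Real.log X * Real.log y) := by ring
      _ ≤ (D + 1) * (Real.log X * Real.log y) :=
          mul_le_mul_of_nonneg_right (by linarith) h8
      _ = (D + 1) * Real.log y * Real.log X := by ring
  have h9 : (D + 1) * Real.log y * Real.log c ≤ y / 2 := by
    have h10 : Real.log c ≤ |Real.log c| + 1 := (le_abs_self _).trans (by linarith)
    calc (D + 1) * Real.log y * Real.log c
        ≤ (D + 1) * Real.log y * (|Real.log c| + 1) :=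
          mul_le_mul_of_nonneg_left h10 (by positivity)
      _ ≤ (D + 1) * (1 / (2 * (D + 1) * (|Real.log c| + 1)) * y) * (|Real.log c| + 1) := by
          gcongr
      _ = y / 2 := by
          have h11 : (D + 1) ≠ 0 := by positivity
          have h12 : |Real.log c| + 1 ≠ 0 := by positivity
          field_simp
  have h13 : (D + 1) * Real.log y * Real.log y ≤ y / 2 := by
    calc (D + 1) * Real.log y * Real.log y = (D + 1) * Real.log y ^ 2 := by ring
      _ ≤ (D + 1) * (1 / (2 * (D + 1)) * y) := by gcongr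
      _ = y / 2 := by
          have h11 : (D + 1) ≠ 0 := by positivity
          field_simp
  have h14 : (D + 1) * Real.log y * (Real.log c + Real.log y) ≤
      (D + 1) * Real.log y * Real.log X := by
    rw [mul_add]
    linarith
  exact le_of_mul_le_mul_left h14 (by positivity)

/-- **The abstract mixed Poisson formula.** For `C₀ ≥ 0`, `A ≥ 1`, `ε > 0` there are `K` and `η > 0`
such that for every even `W ≥ 1` and `Y ≥ Y₀(W)`, all `X` with `Y ≤ C₀ log X log Y` and all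
`F, G, Γ` with `PairFG W Y A F G Γ` and `StarFG k W Y F G η` for `k ≤ K`,
`|∑_{m ≤ X even} ∏_{q ≤ X} (1 - F(m - q)) - ∑_{m ≤ X even} exp(-∑_{q ≤ X} G(m - q))| ≤ ε X`.

PROOF. As `main_formula`: `R ≥ 24/ε`, `R ≥ 1` natural, `L = R Y`, `Λ > 0` with
`5 (R + 2) A C₀ / Λ ≤ ε / 8` (e.g. `Λ = 40 (R + 2) A (C₀ + 1)/ε`), `K` with `Λ^j / j! ≤ ε / 32` for
`j > K`; with the constants `C(k)` of `sum_ErrG_small`, `k ≤ K`, choose `η > 0` such that
`C(k) C₀^{k+1} η ≤ ε / (8 (K + 1))` for all `k ≤ K`. Then the same five terms; in the third term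
`(A W / log Y) Λ ≤ ε / 32` for large `Y`; in the fourth
`((L + Y)/W + 1) (1/Λ) (A W / log Y)(5 X / log X) = (L + Y + W) A 5 X / (Λ log Y log X)`. -/
theorem main_abs (C₀ A ε : ℝ) (hC₀ : 0 ≤ C₀) (hA : 1 ≤ A) (hε : 0 < ε) :
    ∃ K : ℕ, ∃ η : ℝ, 0 < η ∧ ∀ W : ℕ, 1 ≤ W → 2 ∣ W → ∃ Y₀ : ℕ, ∀ Y : ℕ, Y₀ ≤ Y → ∀ X : ℕ,
      (Y : ℝ) ≤ C₀ * Real.log X * Real.log Y → ∀ F G Γ : ℤ → ℝ, PairFG W Y A F G Γ →
      (∀ k : ℕ, k ≤ K → StarFG k W Y F G η) →
      |(∑ m ∈ (Finset.Ioc (0 : ℤ) (X : ℤ)).filter (fun m => Even m), zF F (QQ 0 X) m)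
        - ∑ m ∈ (Finset.Ioc (0 : ℤ) (X : ℤ)).filter (fun m => Even m),
          Real.exp (-(lamG G (QQ 0 X) m))| ≤ ε * X := by
  obtain ⟨R, hR⟩ : ∃ R : ℕ, 24 / ε + 1 ≤ R := exists_nat_ge _
  have hR24 : 24 / ε ≤ R := by linarith
  have hR1 : (1 : ℝ) ≤ R := by
    have : 0 < 24 / ε := by positivity
    linarith
  have hR0 : 1 ≤ R := by exact_mod_cast hR1
  have hA0 : 0 < A := by linarith
  obtain ⟨Λ, hΛdef⟩ : ∃ Λ : ℝ, Λ = 40 * (R + 2) * A * (C₀ + 1) / ε := ⟨_, rfl⟩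
  have hΛ : 0 < Λ := by
    rw [hΛdef]
    positivity
  have hη32 : (0 : ℝ) < ε / 32 := by positivity
  obtain ⟨K, hK⟩ : ∃ K : ℕ, ∀ j : ℕ, K < j → Λ ^ j / (Nat.factorial j : ℝ) ≤ ε / 32 := by
    have h := (FloorSemiring.tendsto_pow_div_factorial_atTop Λ).eventually (ge_mem_nhds hη32)
    obtain ⟨K, hK⟩ := Filter.eventually_atTop.mp h
    exact ⟨K, fun j hj => hK j hj.le⟩
  choose Cf hCf1 hCf2 using sum_ErrG_small
  obtain ⟨M, hMdef⟩ : ∃ M : ℝ, M = 1 + ∑ k ∈ Finset.range (K + 1), Cf k * C₀ ^ (k + 1) := ⟨_, rfl⟩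
  have hMk : ∀ k : ℕ, 0 ≤ Cf k * C₀ ^ (k + 1) := fun k =>
    mul_nonneg (by linarith [hCf1 k]) (by positivity)
  have hM1 : 1 ≤ M := by
    rw [hMdef]
    have := Finset.sum_nonneg (s := Finset.range (K + 1)) (fun k _ => hMk k)
    linarith
  have hM0 : 0 < M := by linarith
  have hMle : ∀ k : ℕ, k < K + 1 → Cf k * C₀ ^ (k + 1) ≤ M := by
    intro k hk
    rw [hMdef]
    have := Finset.single_le_sum (f := fun k => Cf k * C₀ ^ (k + 1)) (fun k _ => hMk k)
      (Finset.mem_range.mpr hk)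
    linarith
  refine ⟨K, ε / (8 * (K + 1) * M), by positivity, fun W hW1 hWe => ?_⟩
  obtain ⟨Y2, hY2⟩ := B7_large C₀ (8 * R / ε) hC₀ (by positivity)
  obtain ⟨Y3, hY3⟩ : ∃ Y3 : ℕ, ∀ y : ℕ, Y3 ≤ y →
      A * (W : ℝ) + 32 * (A * W) * Λ / ε ≤ Real.log (y : ℝ) := by
    have h := (Real.tendsto_log_atTop.comp tendsto_natCast_atTop_atTop).eventually
      (Filter.eventually_ge_atTop (A * (W : ℝ) + 32 * (A * W) * Λ / ε))
    obtain ⟨Y3, hY3⟩ := Filter.eventually_atTop.mp h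
    exact ⟨Y3, fun y hy => hY3 y hy⟩
  refine ⟨max Y2 (max Y3 3), fun y hy X hXy F G Γ hP hstar => ?_⟩
  have hy2 : Y2 ≤ y := le_trans (le_max_left _ _) hy
  have hy3 : Y3 ≤ y := le_trans ((le_max_left _ _).trans (le_max_right _ _)) hy
  have hy4 : 3 ≤ y := le_trans ((le_max_right _ _).trans (le_max_right _ _)) hy
  have hyR : (3 : ℝ) ≤ y := by exact_mod_cast hy4
  have hy0 : (0 : ℝ) < y := by linarith
  have hlog : 0 < Real.log (y : ℝ) := Real.log_pos (by linarith)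
  obtain ⟨hXc, hX0⟩ := hY2 y hy2 X hXy
  have hXpos : (0 : ℝ) < X := lt_of_lt_of_le (by positivity) hXc
  have hX2 : 2 ≤ X := by
    by_contra hcon
    have h : (X : ℝ) ≤ 1 := by
      have : X ≤ 1 := by omega
      exact_mod_cast this
    have h' : Real.log (X : ℝ) ≤ 0 := Real.log_nonpos hXpos.le h
    linarith
  have hW1R : (1 : ℝ) ≤ W := by exact_mod_cast hW1
  have hAW : (W : ℝ) ≤ A * W := le_mul_of_one_le_left (by linarith) hA
  have hAW0 : 0 < A * (W : ℝ) := by positivity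
  have hlogW := hY3 y hy3
  have hWΛ : 0 ≤ 32 * (A * (W : ℝ)) * Λ / ε := by positivity
  have hδ0 : 0 ≤ A * W / Real.log y := by positivity
  have hδ1 : A * (W : ℝ) / Real.log y ≤ 1 := by
    rw [div_le_one hlog]
    linarith
  have hWyΛ : A * (W : ℝ) / Real.log y * Λ ≤ ε / 32 := by
    have h1 : 32 * (A * (W : ℝ)) * Λ / ε ≤ Real.log y := by linarith
    rw [div_le_iff₀ hε] at h1
    rw [div_mul_eq_mul_div, div_le_iff₀ hlog]
    linarith
  have hWley : (W : ℝ) ≤ y := by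
    have h1 : Real.log (y : ℝ) ≤ y := (Real.log_le_sub_one_of_pos hy0).trans (by linarith)
    linarith
  obtain ⟨L, hLdef⟩ : ∃ L : ℕ, L = R * y := ⟨_, rfl⟩
  have hL : 0 < L := by
    rw [hLdef]
    exact Nat.mul_pos (by omega) (by omega)
  have hLR : (L : ℝ) = R * y := by
    rw [hLdef]
    push_cast
    ring
  have hL0 : (0 : ℝ) < L := by exact_mod_cast hL
  have hyL : (y : ℝ) ≤ L := by
    rw [hLR]
    have := mul_le_mul_of_nonneg_right hR1 hy0.le
    linarith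
  have hXL : ((X / L : ℕ) : ℝ) ≤ X / L := Nat.cast_div_le
  have hXL0 : (0 : ℝ) ≤ ((X / L : ℕ) : ℝ) := Nat.cast_nonneg _
  have hmain := formula_boundG hP hδ0 hδ1 X L hL hW1 hWe hX2 Λ (ε / 32) hΛ hη32.le K hK
  refine hmain.trans ?_
  -- term 1
  have t1 : (L : ℝ) ≤ ε / 8 * X := by
    rw [hLR]
    have h1 := mul_le_mul_of_nonneg_left hXc (show 0 ≤ ε / 8 by positivity)
    have h2 : ε / 8 * (8 * R / ε * y) = R * y := by
      field_simp
    linarith
  -- term 2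
  have t2 : 3 * (y : ℝ) * ((X / L : ℕ) : ℝ) ≤ ε / 8 * X := by
    have h1 : 3 * (y : ℝ) * ((X / L : ℕ) : ℝ) ≤ 3 * y * (X / L) :=
      mul_le_mul_of_nonneg_left hXL (by positivity)
    have h2 : 3 * (y : ℝ) * (X / L) = 3 * X / R := by
      rw [hLR]
      field_simp
    have h3 : 3 * (X : ℝ) / R ≤ ε / 8 * X := by
      rw [div_le_iff₀ (by linarith)]
      have h4 : 24 ≤ R * ε := (div_le_iff₀ hε).mp hR24
      have h5 := mul_le_mul_of_nonneg_right h4 hXpos.le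
      have h6 : ε / 8 * (X : ℝ) * R = R * ε * X / 8 := by ring
      rw [h6]
      linarith
    linarith
  -- term 3
  have t3 : ((X / L : ℕ) : ℝ) * ((L : ℝ) + y) * (ε / 32 + A * (W : ℝ) / Real.log y * Λ) ≤
      ε / 8 * X := by
    have h1 : ((X / L : ℕ) : ℝ) * ((L : ℝ) + y) ≤ 2 * X := by
      calc ((X / L : ℕ) : ℝ) * ((L : ℝ) + y) ≤ (X / L) * (2 * L) :=
            mul_le_mul hXL (by linarith) (by positivity) (by positivity)
        _ = 2 * X := by
            field_simp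
    have h2 : ε / 32 + A * (W : ℝ) / Real.log y * Λ ≤ ε / 16 := by linarith
    calc ((X / L : ℕ) : ℝ) * ((L : ℝ) + y) * (ε / 32 + A * (W : ℝ) / Real.log y * Λ)
        ≤ 2 * X * (ε / 16) := mul_le_mul h1 h2 (by positivity) (by positivity)
      _ = ε / 8 * X := by ring
  -- term 4
  have t4 : (((L : ℝ) + y) / W + 1) * (1 / Λ * (A * W / Real.log y * (5 * X / Real.log X))) ≤
      ε / 8 * X := by
    have h1 : (((L : ℝ) + y) / W + 1) * (1 / Λ * (A * W / Real.log y * (5 * X / Real.log X))) =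
        ((L : ℝ) + y + W) * (A * (5 * X)) / (Λ * (Real.log y * Real.log X)) := by
      field_simp
    rw [h1, div_le_iff₀ (by positivity)]
    have h2 : (L : ℝ) + y + W ≤ (R + 2) * y := by
      rw [hLR]
      linarith
    have h3 : (R + 2) * (y : ℝ) ≤ (R + 2) * (C₀ * Real.log X * Real.log y) :=
      mul_le_mul_of_nonneg_left hXy (by positivity)
    have h4 : (R + 2) * (C₀ * Real.log X * Real.log y) * (A * (5 * X)) ≤
        ε / 8 * X * (Λ * (Real.log y * Real.log X)) := by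
      rw [hΛdef]
      have h5 : ε / 8 * (X : ℝ) * (40 * (R + 2) * A * (C₀ + 1) / ε * (Real.log y * Real.log X)) =
          (R + 2) * ((C₀ + 1) * Real.log X * Real.log y) * (A * (5 * X)) := by
        field_simp
        ring
      rw [h5]
      have h6 : 0 ≤ (R + 2) * (Real.log X * Real.log y) * (A * (5 * (X : ℝ))) := by positivity
      have h7 : (R + 2) * ((C₀ + 1) * Real.log X * Real.log y) * (A * (5 * (X : ℝ))) =
          (R + 2) * (C₀ * Real.log X * Real.log y) * (A * (5 * (X : ℝ))) +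
          (R + 2) * (Real.log X * Real.log y) * (A * (5 * (X : ℝ))) := by ring
      rw [h7]
      exact le_add_of_nonneg_right h6
    calc ((L : ℝ) + y + W) * (A * (5 * X)) ≤
        (R + 2) * (C₀ * Real.log X * Real.log y) * (A * (5 * X)) :=
          mul_le_mul_of_nonneg_right (h2.trans h3) (by positivity)
      _ ≤ _ := h4
  -- term 5
  have t5 : ∑ j ∈ Finset.Icc 1 (K + 1), ∑ i ∈ Finset.range (X / L), ∑ a ∈ Finset.range W,
      ErrG F G (QQ (i * L) L) (extC (i * L) L y W a) j ≤ ε / 8 * X := by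
    have h1 : ∀ j ∈ Finset.Icc 1 (K + 1), ∑ i ∈ Finset.range (X / L), ∑ a ∈ Finset.range W,
        ErrG F G (QQ (i * L) L) (extC (i * L) L y W a) j ≤ ε / (8 * (K + 1)) * X := by
      intro j hj
      rw [Finset.mem_Icc] at hj
      obtain ⟨k, rfl⟩ : ∃ k, j = k + 1 := ⟨j - 1, by omega⟩
      have hk : k < K + 1 := by omega
      have hE := hCf2 k C₀ (ε / (8 * (K + 1) * M)) hC₀ (by positivity) X y L W hL hW1 hy4 hXy F G
        hP.Fs hP.Gs (hstar k (by omega))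
      refine hE.trans (mul_le_mul_of_nonneg_right ?_ hXpos.le)
      calc Cf k * C₀ ^ (k + 1) * (ε / (8 * (K + 1) * M)) ≤ M * (ε / (8 * (K + 1) * M)) :=
            mul_le_mul_of_nonneg_right (hMle k hk) (by positivity)
        _ = ε / (8 * (K + 1)) := by
            have : (K : ℝ) + 1 ≠ 0 := by positivity
            field_simp
    refine (Finset.sum_le_sum h1).trans ?_
    rw [Finset.sum_const, Nat.card_Icc, nsmul_eq_mul]
    have h2 : ((K + 1 + 1 - 1 : ℕ) : ℝ) = (K : ℝ) + 1 := by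
      rw [Nat.add_sub_cancel]
      push_cast
      ring
    rw [h2]
    refine le_of_eq ?_
    have : (K : ℝ) + 1 ≠ 0 := by positivity
    field_simp
  have hεX : 0 ≤ ε * X := by positivity
  linarith

end Pool.Agent.Lib.MP_bae66e_nt.LP
end

section

/-!
# LP/E11: the error estimate for `f` and `gJ`
-/

set_option autoImplicit false

open Finset

namespace Pool.Agent.Lib.MP_bae66e_nt.LP

open Pool.Agent.Lib.MP_bae66e_nt.LL

/-- For `h`, `k`, `C₁ ≥ 1`, `H`, `η > 0`: there is `w₀` such that for `w ≥ w₀` and `Y ≥ Y₀(w)`, for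
all cutoffs and coefficients with `Cut Y H C₁ h y c` and all `f` with `Near Y H h y c f`,
`∑_{t ∈ shifts, hh t injective} FF(t) DD(f, gJ (primorial w))(t) ≤ η Y^{k+1}`, `W₀ = primorial w`.

PROOF. Let `C₂` be the constant of `main_twoJ`; take `w₀ ≥ 2 (k + 1)`, `w₀ ≥ 1` with `C₂/√w₀ ≤ η/3`.
Given `w ≥ w₀`: `step_two` with `W₀ = primorial w`, `η/3` gives `w₁`; let `w' = max w w₁`.
`DD_triangle` twice: `f → fS → gJ w' → gJ w`; `step_one`, `step_two`, `main_twoJ`; the sum over the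
injective shifts is at most the sum over all shifts (`DD ≥ 0`, `FF ≥ 0`). Adapt `star`
(`LL/E/E15.lean`). -/
theorem starJ {ι : Type} [Fintype ι] (k : ℕ) (h : ι → ℕ) (H : ℕ) (C₁ η : ℝ) (hC₁ : 1 ≤ C₁)
    (hη : 0 < η) : ∃ w₀ : ℕ, ∀ w : ℕ, w₀ ≤ w → ∃ Y₀ : ℕ, ∀ Y : ℕ, Y₀ ≤ Y →
      ∀ (y : ι → ℕ) (c : ι → ℝ) (f : ℤ → ℝ), Cut Y H C₁ h y c → Near Y H h y c f →
      ∑ t ∈ (shifts k Y).filter (fun t => Function.Injective (hh t)),
        FF (k + 1) t * DD Y (primorial w) f (gJ (primorial w) H h y c) t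
        ≤ η * (Y : ℝ) ^ (k + 1) := by
  obtain ⟨C₂, hC₂, H₂⟩ := main_twoJ ι k
  set w₀ : ℕ := max (2 * (k + 1)) (⌈(3 * C₂ / η) ^ 2⌉₊ + 1) with hw₀
  refine ⟨w₀, fun w hw => ?_⟩
  have hw2 : 2 * (k + 1) ≤ w := (le_max_left _ _).trans hw
  have hw3 : ⌈(3 * C₂ / η) ^ 2⌉₊ + 1 ≤ w := (le_max_right _ _).trans hw
  have hwpos : (0 : ℝ) < w := by
    have : 0 < w := by omega
    exact_mod_cast this
  have hsq : 3 * C₂ / η ≤ Real.sqrt w := by
    apply Real.le_sqrt_of_sq_le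
    have h1 := Nat.le_ceil ((3 * C₂ / η) ^ 2)
    have h2 : ((⌈(3 * C₂ / η) ^ 2⌉₊ : ℕ) : ℝ) ≤ w := by
      have : ⌈(3 * C₂ / η) ^ 2⌉₊ ≤ w := by omega
      exact_mod_cast this
    linarith
  have hsw : 0 < Real.sqrt w := Real.sqrt_pos.2 hwpos
  have hC₂η : C₂ / Real.sqrt w ≤ η / 3 := by
    rw [div_le_iff₀ hη] at hsq
    rw [div_le_div_iff₀ hsw (by norm_num)]
    linarith
  have hW₀ : 1 ≤ primorial w := primorial_pos w
  obtain ⟨w₁, hw₁⟩ := step_two k h C₁ hC₁ (primorial w) hW₀ (η / 3) (by positivity)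
  obtain ⟨Y₁, hY₁⟩ := hw₁ (max w w₁) (le_max_right _ _)
  obtain ⟨Y₂, hY₂⟩ := step_one k h (primorial w) hW₀ (η / 3) (by positivity)
  obtain ⟨Y₃, hY₃⟩ := H₂ w hw2 (max w w₁) (le_max_left _ _) H C₁
  refine ⟨Y₁ + Y₂ + Y₃, fun Y hY y c f hc hf => ?_⟩
  have m1 := hY₂ Y H C₁ y c f (by omega) hc hf
  have m2 := hY₁ Y H y c (by omega) hc
  have m3 := hY₃ Y (by omega) h y c hc
  have hYk : (0 : ℝ) ≤ (Y : ℝ) ^ (k + 1) := by positivity
  have hterm : ∀ t ∈ shifts k Y,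
      FF (k + 1) t * DD Y (primorial w) f (gJ (primorial w) H h y c) t ≤
      FF (k + 1) t * DD Y (primorial w) f (fS Y H h y c) t +
      FF (k + 1) t * DD Y (primorial w) (fS Y H h y c) (gJ (primorial (max w w₁)) H h y c) t +
      FF (k + 1) t * DD Y (primorial w) (gJ (primorial (max w w₁)) H h y c)
        (gJ (primorial w) H h y c) t := by
    intro t _
    rw [← mul_add, ← mul_add]
    refine mul_le_mul_of_nonneg_left ?_ (FF_nonneg _ t)
    have h1 := DD_triangle Y (primorial w) f (fS Y H h y c) (gJ (primorial w) H h y c) t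
    have h2 := DD_triangle Y (primorial w) (fS Y H h y c) (gJ (primorial (max w w₁)) H h y c)
      (gJ (primorial w) H h y c) t
    linarith
  refine (Finset.sum_le_sum_of_subset_of_nonneg (Finset.filter_subset _ _)
      (fun t _ _ => mul_nonneg (FF_nonneg _ t) (DD_nonneg Y _ _ _ t))).trans ?_
  refine (Finset.sum_le_sum hterm).trans ?_
  rw [Finset.sum_add_distrib, Finset.sum_add_distrib]
  have hB := m3.trans (mul_le_mul_of_nonneg_right hC₂η hYk)
  linarith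

end Pool.Agent.Lib.MP_bae66e_nt.LP
end

section

/-!
# LP/J1d: the joint formula for windows
-/

set_option autoImplicit false

open Finset

namespace Pool.Agent.Lib.MP_bae66e_nt.LP

open Pool.Agent.Lib.MP_bae66e_nt.LL

private lemma J1d_two_dvd (w : ℕ) (hw : 2 ≤ w) : 2 ∣ primorial w := by
  unfold primorial
  exact Finset.dvd_prod_of_mem (fun p => p)
    (Finset.mem_filter.2 ⟨Finset.mem_range.2 (by omega), Nat.prime_two⟩)

private lemma J1d_star {r s : ℕ} (h : Fin r → ℕ) (H : ℕ) (C₁ η : ℝ) (k w Y : ℕ) (hY : 2 ≤ Y)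
    (u v : Fin r → Fin s → ℕ) (hc : CutW Y H C₁ h u v) (ω : Fin r → Fin s → ℝ)
    (hω : ∀ i j, 0 ≤ ω i j ∧ ω i j ≤ 1)
    (hs : ∀ (y : Fin r × Fin s × Bool → ℕ) (c : Fin r × Fin s × Bool → ℝ) (f : ℤ → ℝ),
      Cut Y H C₁ (hI (s := s) h) y c → Near Y H (hI (s := s) h) y c f →
      ∑ t ∈ (shifts k Y).filter (fun t => Function.Injective (hh t)),
        FF (k + 1) t * DD Y (primorial w) f (gJ (primorial w) H (hI (s := s) h) y c) t
        ≤ η * (Y : ℝ) ^ (k + 1)) :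
    StarFG k (primorial w) Y (FJ H h u v ω) (GJ (primorial w) Y H h u v ω) η := by
  unfold StarFG
  have hlog : 0 < Real.log Y := Real.log_pos (by exact_mod_cast (by omega : 1 < Y))
  have h1 := hs (yI u v) (cI ω) (fun n => Real.log Y * FJ H h u v ω n) (cut_I hc hω)
    (near_I hc hω)
  have h2 : ∑ t ∈ (shifts k Y).filter (fun t => Function.Injective (hh t)),
      FF (k + 1) t * DD Y (primorial w) (FJ H h u v ω) (GJ (primorial w) Y H h u v ω) t =
      (∑ t ∈ (shifts k Y).filter (fun t => Function.Injective (hh t)),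
        FF (k + 1) t * DD Y (primorial w) (fun n => Real.log Y * FJ H h u v ω n)
          (gJ (primorial w) H (hI (s := s) h) (yI u v) (cI ω)) t) / (Real.log Y) ^ (k + 1) := by
    rw [Finset.sum_div]
    refine Finset.sum_congr rfl fun t _ => ?_
    rw [DD_FJ_GJ (primorial w) (primorial w) hY k t, mul_div_assoc]
  rw [h2, div_pow, ← mul_div_assoc]
  exact div_le_div_of_nonneg_right h1 (by positivity)

/-- **The joint formula.**

PROOF. `main_abs C₀ (r + 1) ε` gives `K`, `η`. `starJ k (hI h) H C₁ η` for `k ≤ K` (`ι = Fin r × Fin s ×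
Bool`): take `w₀ ≥ 2` (so `2 ∣ primorial w`) and `w₀ ≥ w₀(k)` for all `k ≤ K`, and `Y₀` the maximum of the
`Y₀(k)`, of the one of `main_abs` and of `2`. `StarFG` from `DD_FJ_GJ`, `cut_I`, `near_I`; `pairFG_J`; `zF_FJ`,
`lamG_GJ`. -/
theorem joint_formula {r s : ℕ} (h : Fin r → ℕ) (H : ℕ) (C₀ C₁ ε : ℝ) (hC₀ : 0 ≤ C₀) (hC₁ : 1 ≤ C₁)
    (hε : 0 < ε) :
    ∃ w₀ : ℕ, ∀ w : ℕ, w₀ ≤ w → ∃ Y₀ : ℕ, ∀ Y : ℕ, Y₀ ≤ Y → ∀ u v : Fin r → Fin s → ℕ,
      CutW Y H C₁ h u v → ∀ X : ℕ, (Y : ℝ) ≤ C₀ * Real.log X * Real.log Y →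
      ∀ ω : Fin r → Fin s → ℝ, (∀ i j, 0 ≤ ω i j ∧ ω i j ≤ 1) →
      |(∑ m ∈ (Finset.Ioc (0 : ℤ) (X : ℤ)).filter (fun m => Even m),
          ∏ i, ∏ j, (1 - ω i j) ^ cQ (QQ 0 X) (u i j) (v i j) (m - H + h i))
        - ∑ m ∈ (Finset.Ioc (0 : ℤ) (X : ℤ)).filter (fun m => Even m),
          Real.exp (-((∑ i, ∑ j, ω i j * lQ (primorial w) (QQ 0 X) (u i j) (v i j) (m - H + h i))
            / Real.log Y))| ≤ ε * X := by
  obtain ⟨K, η, hη, hmain⟩ := main_abs C₀ (r + 1) ε hC₀ (by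
    have : (0 : ℝ) ≤ r := Nat.cast_nonneg r
    linarith) hε
  choose w₀ hw₀ using fun k : ℕ => starJ (ι := Fin r × Fin s × Bool) k (hI (s := s) h) H C₁ η hC₁ hη
  refine ⟨max 2 ((Finset.range (K + 1)).sup w₀), ?_⟩
  intro w hw
  have hw2 : 2 ≤ w := (le_max_left _ _).trans hw
  have hwk : ∀ k ≤ K, w₀ k ≤ w := fun k hk =>
    (Finset.le_sup (f := w₀) (Finset.mem_range.2 (by omega))).trans ((le_max_right _ _).trans hw)
  have hex : ∀ k, ∃ Yk : ℕ, k ≤ K → ∀ Y : ℕ, Yk ≤ Y →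
      ∀ (y : Fin r × Fin s × Bool → ℕ) (c : Fin r × Fin s × Bool → ℝ) (f : ℤ → ℝ),
      Cut Y H C₁ (hI (s := s) h) y c → Near Y H (hI (s := s) h) y c f →
      ∑ t ∈ (shifts k Y).filter (fun t => Function.Injective (hh t)),
        FF (k + 1) t * DD Y (primorial w) f (gJ (primorial w) H (hI (s := s) h) y c) t
        ≤ η * (Y : ℝ) ^ (k + 1) := by
    intro k
    by_cases hk : k ≤ K
    · obtain ⟨Yk, hYk⟩ := hw₀ k w (hwk k hk)
      exact ⟨Yk, fun _ => hYk⟩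
    · exact ⟨0, fun h' => absurd h' hk⟩
  choose Yk hYk using hex
  obtain ⟨Y₁, hY₁⟩ := hmain (primorial w) (primorial_pos w) (J1d_two_dvd w hw2)
  refine ⟨max (max 2 Y₁) ((Finset.range (K + 1)).sup Yk), ?_⟩
  intro Y hY u v hc X hX ω hω
  have hY2 : 2 ≤ Y := ((le_max_left _ _).trans (le_max_left _ _)).trans hY
  have hYY₁ : Y₁ ≤ Y := ((le_max_right _ _).trans (le_max_left _ _)).trans hY
  have hYk' : ∀ k ≤ K, Yk k ≤ Y := fun k hk =>
    (Finset.le_sup (f := Yk) (Finset.mem_range.2 (by omega))).trans ((le_max_right _ _).trans hY)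
  have hfin := hY₁ Y hYY₁ X hX (FJ H h u v ω) (GJ (primorial w) Y H h u v ω)
    (ΓJ (primorial w) Y H h) (pairFG_J hc hω hY2 (primorial w) (primorial_pos w))
    (fun k hk => J1d_star h H C₁ η k w Y hY2 u v hc ω hω (hYk k hk Y (hYk' k hk)))
  have e1 : ∀ m ∈ (Finset.Ioc (0 : ℤ) (X : ℤ)).filter (fun m => Even m),
      zF (FJ H h u v ω) (QQ 0 X) m =
        ∏ i, ∏ j, (1 - ω i j) ^ cQ (QQ 0 X) (u i j) (v i j) (m - H + h i) :=
    fun m _ => zF_FJ hc (QQ 0 X) m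
  have e2 : ∀ m ∈ (Finset.Ioc (0 : ℤ) (X : ℤ)).filter (fun m => Even m),
      Real.exp (-(lamG (GJ (primorial w) Y H h u v ω) (QQ 0 X) m)) =
        Real.exp (-((∑ i, ∑ j, ω i j * lQ (primorial w) (QQ 0 X) (u i j) (v i j) (m - H + h i))
            / Real.log Y)) := by
    intro m _
    rw [lamG_GJ hc]
  rw [Finset.sum_congr rfl e1, Finset.sum_congr rfl e2] at hfin
  exact hfin

end Pool.Agent.Lib.MP_bae66e_nt.LP
end
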