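import Pool.Agent.Lib.MP_bae66e_nt.Mg.G059
import Pool.Agent.Lib.MP_bae66e_nt.Mg.G041
import Pool.Agent.Lib.MP_bae66e_nt.Mg.G050
import Pool.Agent.Lib.MP_bae66e_nt.Mg.G052
import Pool.Agent.Lib.MP_bae66e_nt.Mg.G056
import Pool.Agent.Lib.MP_bae66e_nt.Mg.G049
import Pool.Agent.Lib.MP_bae66e_nt.Mg.G064

section

/-!
# LP/J2c: the joint generating function
-/

set_option autoImplicit false

open Finset

namespace Pool.Agent.Lib.MP_bae66e_nt.LP

open Pool.Agent.Lib.MP_bae66e_nt.LL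

/-- `cQ` and `lQ` for the windows at the scale `log X loglog X`: `Nw` and `ell X * Lam` (`ell X ≠ 0`). -/
lemma cQ_eq_Nw (X : ℕ) (a b : ℝ) (m : ℤ) : cQ (QQ 0 X) (yX a X) (yX b X) m = Nw X a b m := by
  unfold cQ Nw Wd
  rw [Finset.filter_filter]

lemma lQ_eq_Lam (W X : ℕ) (hX : ell X ≠ 0) (a b : ℝ) (m : ℤ) :
    lQ W (QQ 0 X) (yX a X) (yX b X) m = ell X * Lam W X a b m := by
  unfold lQ Lam Wd
  field_simp

private lemma J2c_abs_exp (ρ l : ℝ) (hρ : 0 ≤ ρ) (hl : 0 ≤ l) :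
    |Real.exp (-(ρ * l)) - Real.exp (-l)| ≤ |ρ - 1| * l := by
  have key : ∀ x y : ℝ, 0 ≤ x → x ≤ y → |Real.exp (-x) - Real.exp (-y)| ≤ y - x := by
    intro x y hx hxy
    have h1 : Real.exp (-y) ≤ Real.exp (-x) := Real.exp_le_exp.2 (by linarith)
    rw [abs_of_nonneg (by linarith)]
    have h2 : Real.exp (-y) = Real.exp (-x) * Real.exp (-(y - x)) := by
      rw [← Real.exp_add]
      congr 1
      ring
    have h3 : 1 - (y - x) ≤ Real.exp (-(y - x)) := by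
      have := Real.add_one_le_exp (-(y - x))
      linarith
    have h4 : Real.exp (-x) ≤ 1 := Real.exp_le_one_iff.2 (by linarith)
    have h5 := Real.exp_pos (-x)
    rw [h2]
    nlinarith
  rcases le_total ρ 1 with h | h
  · have h1 := key (ρ * l) l (mul_nonneg hρ hl) (by nlinarith)
    refine h1.trans (le_of_eq ?_)
    rw [abs_of_nonpos (by linarith)]
    ring
  · have h1 := key l (ρ * l) hl (by nlinarith)
    rw [abs_sub_comm]
    refine h1.trans (le_of_eq ?_)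
    rw [abs_of_nonneg (by linarith)]
    ring

/-- **The joint generating function** of the numbers of representations in disjoint windows.

PROOF. `joint_formula` with an even `H ≥ max h i` (e.g. `2 ∑ h i`), `ω = 1 - z`, `ε/4`, `cut_yX`; then
`sum_shift_even` for the products (in `[0, 1]`) and for the exponentials (`Lam ≥ 0`), `4 H ≤ (ε/4) X`. The
exponent is `(ell X/log Y) λ`, `λ = ∑ (1 - z i j) Lam(m + h i)`; `|exp(-ρ λ) - exp(-λ)| ≤ |ρ - 1| λ` and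
`∑_m λ ≤ ∑_{i,j} (5 (b i j - a i j) + 1) X` (`sum_Lam_le`). -/
theorem joint_gen {r s : ℕ} (h : Fin r → ℕ) (hinj : Function.Injective h)
    (a b : Fin r → Fin s → ℝ) (hab : ∀ i j, 0 ≤ a i j ∧ a i j ≤ b i j)
    (hdis : ∀ i j l, j ≠ l → b i j ≤ a i l ∨ b i l ≤ a i j) (ε : ℝ) (hε : 0 < ε) :
    ∃ w₀ : ℕ, ∀ w : ℕ, w₀ ≤ w → ∃ X₀ : ℕ, ∀ X : ℕ, X₀ ≤ X → ∀ z : Fin r → Fin s → ℝ,
      (∀ i j, 0 ≤ z i j ∧ z i j ≤ 1) →
      |(∑ m ∈ (Finset.Ioc (0 : ℤ) (X : ℤ)).filter (fun m => Even m),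
          ∏ i, ∏ j, z i j ^ Nw X (a i j) (b i j) (m + h i))
        - ∑ m ∈ (Finset.Ioc (0 : ℤ) (X : ℤ)).filter (fun m => Even m),
          Real.exp (-(∑ i, ∑ j, (1 - z i j) * Lam (primorial w) X (a i j) (b i j) (m + h i)))|
        ≤ ε * X := by
  obtain ⟨H₀, hH₀⟩ : ∃ H₀ : ℕ, H₀ = ∑ i, h i := ⟨_, rfl⟩
  have hH : ∀ i, h i ≤ H₀ + H₀ := by
    intro i
    have := Finset.single_le_sum (f := h) (fun _ _ => Nat.zero_le _) (Finset.mem_univ i)
    omega
  obtain ⟨H, hHe⟩ : ∃ H : ℕ, H = H₀ + H₀ := ⟨_, rfl⟩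
  have hHeven : Even H := ⟨H₀, hHe⟩
  rw [← hHe] at hH
  obtain ⟨C₀, C₁, hC₀, hC₁, hcut⟩ := cut_yX h hinj H hH a b hab hdis
  obtain ⟨w₀, hw₀⟩ := joint_formula (s := s) h H C₀ C₁ (ε / 4) hC₀ hC₁ (by positivity)
  refine ⟨w₀, fun w hw => ?_⟩
  obtain ⟨Y₀, hY₀⟩ := hw₀ w hw
  obtain ⟨B, hB⟩ : ∃ B : ℝ, B = ∑ i, ∑ j, (5 * (b i j - a i j) + 1) := ⟨_, rfl⟩
  have hB0 : 0 ≤ B := by
    rw [hB]
    refine Finset.sum_nonneg fun i _ => Finset.sum_nonneg fun j _ => ?_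
    have := (hab i j).2
    linarith
  obtain ⟨δ, hδ⟩ : ∃ δ : ℝ, δ = min (1 / 2) (ε / (4 * (B + 1))) := ⟨_, rfl⟩
  have hδ0 : 0 < δ := by
    rw [hδ]
    exact lt_min (by norm_num) (by positivity)
  have hδ1 : δ ≤ 1 / 2 := by
    rw [hδ]
    exact min_le_left _ _
  have hδ2 : δ * B ≤ ε / 4 := by
    have h1 : δ ≤ ε / (4 * (B + 1)) := by
      rw [hδ]
      exact min_le_right _ _
    calc δ * B ≤ ε / (4 * (B + 1)) * (B + 1) :=
          mul_le_mul h1 (by linarith) hB0 (by positivity)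
      _ = ε / 4 := by field_simp
  obtain ⟨X₁, hX₁⟩ := hcut Y₀ δ hδ0
  have hW1 : 1 ≤ primorial w := primorial_pos w
  choose Z hZ using fun (x : Fin r × Fin s) => sum_Lam_le (primorial w) hW1 (a x.1 x.2) (b x.1 x.2)
    (hab x.1 x.2).1 (hab x.1 x.2).2 1 one_pos
  obtain ⟨X₃, hX₃⟩ := growth 1 le_rfl
  refine ⟨max (max X₁ X₃) (max (∑ x, Z x) ⌈16 * (H : ℝ) / ε⌉₊), fun X hX z hz => ?_⟩
  have g1 : X₁ ≤ X := (le_max_left _ _).trans ((le_max_left _ _).trans hX)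
  have g2 : X₃ ≤ X := (le_max_right _ _).trans ((le_max_left _ _).trans hX)
  have g3 : max (∑ x, Z x) ⌈16 * (H : ℝ) / ε⌉₊ ≤ X := (le_max_right _ _).trans hX
  have g4 : ∀ x, Z x ≤ X := fun x =>
    (Finset.single_le_sum (f := Z) (fun _ _ => Nat.zero_le _) (Finset.mem_univ x)).trans
      ((le_max_left _ _).trans g3)
  have g5 : (H : ℝ) ≤ ε / 16 * X := by
    have h1 : 16 * (H : ℝ) / ε ≤ X := (Nat.le_ceil _).trans (by
      exact_mod_cast (le_max_right _ _).trans g3)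
    rw [div_le_iff₀ hε] at h1
    linarith
  have hell : 1 ≤ ell X := (hX₃ X g2).1
  obtain ⟨Y, hNY, hcutW, hYX, hrat⟩ := hX₁ X g1
  have hF := hY₀ Y hNY _ _ hcutW X hYX (fun i j => 1 - z i j)
    (fun i j => ⟨by linarith [(hz i j).2], by linarith [(hz i j).1]⟩)
  obtain ⟨ρ, hρ⟩ : ∃ ρ : ℝ, ρ = ell X / Real.log Y := ⟨_, rfl⟩
  rw [← hρ] at hrat
  have hρ0 : 0 ≤ ρ := by
    have := (abs_le.1 hrat).1
    linarith
  obtain ⟨S, hS⟩ : ∃ S : Finset ℤ, S = (Finset.Ioc (0 : ℤ) (X : ℤ)).filter (fun m => Even m) :=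
    ⟨_, rfl⟩
  obtain ⟨lam, hlam⟩ : ∃ lam : ℤ → ℝ, lam = fun m =>
      ∑ i, ∑ j, (1 - z i j) * Lam (primorial w) X (a i j) (b i j) (m + h i) := ⟨_, rfl⟩
  obtain ⟨Φ, hΦ⟩ : ∃ Φ : ℤ → ℝ, Φ = fun m =>
      ∏ i, ∏ j, z i j ^ Nw X (a i j) (b i j) (m + h i) := ⟨_, rfl⟩
  obtain ⟨Ψ, hΨ⟩ : ∃ Ψ : ℤ → ℝ, Ψ = fun m => Real.exp (-(ρ * lam m)) := ⟨_, rfl⟩
  have hlam0 : ∀ m, 0 ≤ lam m := by
    intro m
    rw [hlam]
    refine Finset.sum_nonneg fun i _ => Finset.sum_nonneg fun j _ => ?_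
    exact mul_nonneg (by linarith [(hz i j).2]) (Lam_nonneg _ _ (by linarith) _ _ _)
  have hΦ1 : ∀ m, |Φ m| ≤ 1 := by
    intro m
    have h0 : 0 ≤ Φ m := by
      rw [hΦ]
      exact Finset.prod_nonneg fun i _ => Finset.prod_nonneg fun j _ => pow_nonneg (hz i j).1 _
    rw [abs_of_nonneg h0, hΦ]
    exact Finset.prod_le_one
      (fun i _ => Finset.prod_nonneg fun j _ => pow_nonneg (hz i j).1 _)
      (fun i _ => Finset.prod_le_one (fun j _ => pow_nonneg (hz i j).1 _)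
        (fun j _ => pow_le_one₀ (hz i j).1 (hz i j).2))
  have hΨ1 : ∀ m, |Ψ m| ≤ 1 := by
    intro m
    rw [hΨ]
    dsimp only
    rw [abs_of_pos (Real.exp_pos _)]
    exact Real.exp_le_one_iff.2 (by
      have := mul_nonneg hρ0 (hlam0 m)
      linarith)
  -- the formula in terms of `Φ`, `Ψ`
  have hF' : |(∑ m ∈ S, Φ (m - H)) - ∑ m ∈ S, Ψ (m - H)| ≤ ε / 4 * X := by
    have e1 : ∀ m ∈ S, ∏ i, ∏ j, (1 - (fun i j => 1 - z i j) i j) ^
        cQ (QQ 0 X) (yX (a i j) X) (yX (b i j) X) (m - H + h i) = Φ (m - H) := by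
      intro m _
      rw [hΦ]
      refine Finset.prod_congr rfl fun i _ => Finset.prod_congr rfl fun j _ => ?_
      dsimp only
      rw [cQ_eq_Nw, sub_sub_cancel]
    have e2 : ∀ m ∈ S, Real.exp (-((∑ i, ∑ j, (fun i j => 1 - z i j) i j *
        lQ (primorial w) (QQ 0 X) (yX (a i j) X) (yX (b i j) X) (m - H + h i)) / Real.log Y))
        = Ψ (m - H) := by
      intro m _
      rw [hΨ]
      dsimp only
      congr 2
      rw [hρ, hlam, div_mul_eq_mul_div, Finset.mul_sum]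
      congr 1
      refine Finset.sum_congr rfl fun i _ => ?_
      rw [Finset.mul_sum]
      refine Finset.sum_congr rfl fun j _ => ?_
      rw [lQ_eq_Lam _ _ (by linarith)]
      ring
    rw [← Finset.sum_congr rfl e1, ← Finset.sum_congr rfl e2, hS]
    exact hF
  have s1 := sum_shift_even X H hHeven Φ hΦ1
  have s2 := sum_shift_even X H hHeven Ψ hΨ1
  rw [← hS] at s1 s2
  -- the sum of the intensities
  have hsumlam : ∑ m ∈ S, lam m ≤ B * X := by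
    calc ∑ m ∈ S, lam m ≤ ∑ m ∈ S, ∑ i, ∑ j, Lam (primorial w) X (a i j) (b i j) (m + h i) := by
          rw [hlam]
          refine Finset.sum_le_sum fun m _ => Finset.sum_le_sum fun i _ =>
            Finset.sum_le_sum fun j _ => ?_
          have h1 := Lam_nonneg (primorial w) X (by linarith) (a i j) (b i j) (m + h i)
          have h2 := (hz i j).1
          nlinarith
      _ = ∑ i, ∑ j, ∑ m ∈ S, Lam (primorial w) X (a i j) (b i j) (m + h i) := by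
          rw [Finset.sum_comm]
          refine Finset.sum_congr rfl fun i _ => ?_
          rw [Finset.sum_comm]
      _ ≤ ∑ i, ∑ j, (5 * (b i j - a i j) + 1) * (X : ℝ) := by
          refine Finset.sum_le_sum fun i _ => Finset.sum_le_sum fun j _ => ?_
          have h1 := hZ (i, j) X (g4 (i, j)) (S.map (addRightEmbedding ((h i : ℕ) : ℤ)))
          rw [Finset.sum_map] at h1
          exact h1
      _ = B * X := by
          rw [hB, Finset.sum_mul]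
          refine Finset.sum_congr rfl fun i _ => ?_
          rw [Finset.sum_mul]
  have s3 : |(∑ m ∈ S, Ψ m) - ∑ m ∈ S, Real.exp (-(lam m))| ≤ ε / 4 * X := by
    rw [← Finset.sum_sub_distrib]
    calc |∑ m ∈ S, (Ψ m - Real.exp (-(lam m)))|
        ≤ ∑ m ∈ S, |Ψ m - Real.exp (-(lam m))| := Finset.abs_sum_le_sum_abs _ _
      _ ≤ ∑ m ∈ S, δ * lam m := by
          refine Finset.sum_le_sum fun m _ => ?_
          rw [hΨ]
          exact (J2c_abs_exp ρ (lam m) hρ0 (hlam0 m)).trans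
            (mul_le_mul_of_nonneg_right hrat (hlam0 m))
      _ = δ * ∑ m ∈ S, lam m := by rw [Finset.mul_sum]
      _ ≤ δ * (B * X) := mul_le_mul_of_nonneg_left hsumlam hδ0.le
      _ = (δ * B) * X := by ring
      _ ≤ ε / 4 * X := mul_le_mul_of_nonneg_right hδ2 (Nat.cast_nonneg X)
  have hgoal : |(∑ m ∈ S, Φ m) - ∑ m ∈ S, Real.exp (-(lam m))| ≤ ε * X := by
    have h1 := abs_le.1 hF'
    have h2 := abs_le.1 s1
    have h3 := abs_le.1 s2
    have h4 := abs_le.1 s3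
    have h5 : 0 ≤ ε * X := by positivity
    rw [abs_le]
    constructor <;> linarith [h1.1, h1.2, h2.1, h2.2, h3.1, h3.2, h4.1, h4.2]
  rw [hS, hΦ, hlam] at hgoal
  exact hgoal

end Pool.Agent.Lib.MP_bae66e_nt.LP
end

section

end

section

/-!
# LP/F3b: from rich windows of the primes to patterns
-/

set_option autoImplicit false

open Finset Filter Topology

namespace Pool.Agent.Lib.MP_bae66e_nt.LP

open Pool.Agent.Lib.MP_bae66e_nt.LL

private lemma F3b_union {κ : Type} [Fintype κ] [DecidableEq κ] (Rich Good O : Finset ℤ) (J : Finset κ)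
    (B1 B2 : κ → Finset ℤ)
    (h : ∀ m ∈ Rich, m ∈ Good ∨ m ∈ O ∨ (∃ x ∈ J, m ∈ B1 x) ∨ ∃ x, m ∈ B2 x) :
    (Rich.card : ℝ) ≤ Good.card + O.card + ∑ x ∈ J, ((B1 x).card : ℝ) + ∑ x, ((B2 x).card : ℝ) := by
  have hsub : Rich ⊆ ((Good ∪ O) ∪ J.biUnion B1) ∪ Finset.univ.biUnion B2 := by
    intro m hm
    rcases h m hm with h1 | h1 | ⟨x, hx, h1⟩ | ⟨x, h1⟩
    · exact Finset.mem_union_left _ (Finset.mem_union_left _ (Finset.mem_union_left _ h1))
    · exact Finset.mem_union_left _ (Finset.mem_union_left _ (Finset.mem_union_right _ h1))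
    · exact Finset.mem_union_left _ (Finset.mem_union_right _ (Finset.mem_biUnion.2 ⟨x, hx, h1⟩))
    · exact Finset.mem_union_right _ (Finset.mem_biUnion.2 ⟨x, Finset.mem_univ x, h1⟩)
  have h1 := Finset.card_le_card hsub
  have h2 := Finset.card_union_le ((Good ∪ O) ∪ J.biUnion B1) (Finset.univ.biUnion B2)
  have h3 := Finset.card_union_le (Good ∪ O) (J.biUnion B1)
  have h4 := Finset.card_union_le Good O
  have h5 : (J.biUnion B1).card ≤ ∑ x ∈ J, (B1 x).card := Finset.card_biUnion_le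
  have h6 : (Finset.univ.biUnion B2).card ≤ ∑ x, (B2 x).card := Finset.card_biUnion_le
  have h7 : Rich.card ≤ Good.card + O.card + ∑ x ∈ J, (B1 x).card + ∑ x, (B2 x).card := by omega
  exact_mod_cast h7

private lemma F3b_prod {κ : Type} [Fintype κ] (n : κ → ℕ) (μ : κ → ℝ) (T c : ℝ) (hc : 0 < c)
    (hμT : ∀ x, μ x ≤ T) (hμc : ∀ x, n x ≠ 0 → c ≤ μ x) :
    ∏ x, (Real.exp (-T) * c ^ (n x) / ((n x).factorial : ℝ))
      ≤ ∏ x, (Real.exp (-(μ x)) * (μ x) ^ (n x) / ((n x).factorial : ℝ)) := by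
  apply Finset.prod_le_prod
  · intro x _
    positivity
  · intro x _
    have h1 : Real.exp (-T) ≤ Real.exp (-(μ x)) := Real.exp_le_exp.mpr (by linarith [hμT x])
    have h2 : c ^ (n x) ≤ (μ x) ^ (n x) := by
      rcases Nat.eq_zero_or_pos (n x) with h | h
      · rw [h, pow_zero, pow_zero]
      · exact pow_le_pow_left₀ hc.le (hμc x (by omega)) _
    exact div_le_div_of_nonneg_right (mul_le_mul h1 h2 (by positivity) (Real.exp_pos _).le)
      (Nat.cast_nonneg _)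

private lemma F3b_two_dvd (w₁ : ℕ) (hw₁ : 4 ≤ w₁) : 2 ∣ primorial w₁ := by
  unfold primorial
  apply Finset.dvd_prod_of_mem (fun p => p)
  rw [Finset.mem_filter, Finset.mem_range]
  exact ⟨by omega, Nat.prime_two⟩

private lemma F3b_odd (g : ℕ) (r₀ : ℤ) (hg : Even g) (W : ℕ) (hW : 2 ∣ W)
    (hcop : IsCoprime ((g : ℤ) - r₀) (W : ℤ)) : ¬ Even r₀ := by
  intro hr
  have h1 : (2 : ℤ) ∣ (g : ℤ) - r₀ := by
    have h2 : (2 : ℤ) ∣ (g : ℤ) := by exact_mod_cast hg.two_dvd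
    exact dvd_sub h2 hr.two_dvd
  have h3 : (2 : ℤ) ∣ (W : ℤ) := by exact_mod_cast hW
  have h4 : IsUnit (2 : ℤ) := hcop.isUnit_of_dvd' h1 h3
  rw [Int.isUnit_iff] at h4
  omega

/-- the window of a shift: few large intensities -/
private lemma F3b_large (W X g : ℕ) (a b B T : ℝ) (hT : 0 < T) (hell : 0 ≤ ell X)
    (hS : ∀ S : Finset ℤ, ∑ m ∈ S, Lam W X a b m ≤ B) :
    (((Finset.Ioc (0 : ℤ) (X : ℤ)).filter (fun m => T < Lam W X a b (m + g))).card : ℝ) ≤ B / T := by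
  refine markov (Finset.Ioc (0 : ℤ) (X : ℤ)) (fun m => Lam W X a b (m + g)) B T
    (fun m _ => Lam_nonneg W X hell a b _) ?_ hT
  have h1 := hS ((Finset.Ioc (0 : ℤ) (X : ℤ)).image (fun m => m + (g : ℤ)))
  rw [Finset.sum_image (fun x _ y _ hxy => add_right_cancel hxy)] at h1
  exact h1

/-- **From rich windows to patterns.** Let `h : Fin r → ℕ` be injective with even values, `r₀` with
`h i - r₀` coprime to `W₀ = primorial w₁` for all `i`; for each `i` let `(a i j, b i j]` be disjoint, and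
let `n i j = 0` for `(i, j) ∉ J`, `J` nonempty; `a ≤ α < β ≤ b` for `(i, j) ∈ J`; `c_R, c_Θ > 0` with
`512 r s K ρ^6 (β - α)² ≤ c_R c_Θ² W₀² √w₁` for `(i, j) ∈ J` (`ρ = W₀/φ(W₀)`). Then there is `c_F > 0` such
that for large `X`: if `#{m ∈ (0, X] : Th W₀ r₀ X α β m ≥ c_Θ for all (i, j) ∈ J} ≥ c_R X`, then
`cntP h a b n X ≥ c_F X`.

PROOF. Let `T = 16 ∑_{i,j} (5 (b i j - a i j) + 1)/c_R + 1`,
`σ = ∏_{i,j} exp(-T) (c_Θ/2)^{n i j}/(n i j)!`, `ω = c_R σ/8`; `ε` from `frequencies_multi` with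
`ι = Fin r × Fin s`; `w ≥ w₁`, `w ≥ w₀` of `joint_gen` (with this `ε`). `frequencies_multi` for `S` the even
`m ∈ (0, X]`, `V = X`, `N (i, j) m = Nw X (a i j) (b i j) (m + h i)`, `μ (i, j) m = Lam … (m + h i)` gives
`cntP ≥ ∑_S ∏ exp(-μ) μ^n/n! - ω X` (`Fintype.prod_prod_type`). From the rich `m` remove: the odd ones (at
most `yX (β x) X + 2 = o(X)` for some `x ∈ J`, `card_odd_Th_le`: `r₀` is odd because `h i` is even and
`h i - r₀` is coprime to the even number `W₀`); for each `(i, j) ∈ J` those with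
`Lam α β (m + h i) < c_Θ/2` (`one_shift` with `c = c_R/(r s)`: at most `c_R/(4 r s) X` each); for each
`(i, j)` those with `Lam a b (m + h i) > T` (`sum_Lam_le` over the finite set of the `m + h i`, `markov`: in
total at most `(c_R/16) X`). At least `(c_R/2) X` even `m` remain, for which every factor is
`≥ exp(-T) (c_Θ/2)^n/n!` (`Lam a b ≥ Lam α β` by `Lam_mono`), so the sum is at least `(c_R/2) σ X`
(all terms are `≥ 0`). `c_F = c_R σ/4`. -/
theorem patterns_of_rich (K : ℝ) (hK1 : 1 ≤ K) (hK : VarProp K) {r s : ℕ}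
    (h : Fin r → ℕ) (hinj : Function.Injective h) (heven : ∀ i, Even (h i)) (w₁ : ℕ) (hw₁ : 4 ≤ w₁)
    (r₀ : ℤ) (hcop : ∀ i, IsCoprime ((h i : ℤ) - r₀) ((primorial w₁ : ℕ) : ℤ))
    (a b : Fin r → Fin s → ℝ) (hab : ∀ i j, 0 ≤ a i j ∧ a i j ≤ b i j)
    (hdis : ∀ i j l, j ≠ l → b i j ≤ a i l ∨ b i l ≤ a i j)
    (n : Fin r → Fin s → ℕ) (J : Finset (Fin r × Fin s)) (hJ : J.Nonempty)
    (hnJ : ∀ i j, (i, j) ∉ J → n i j = 0) (α β : Fin r → Fin s → ℝ)
    (hα : ∀ x ∈ J, a x.1 x.2 ≤ α x.1 x.2 ∧ α x.1 x.2 < β x.1 x.2 ∧ β x.1 x.2 ≤ b x.1 x.2)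
    (cR cΘ : ℝ) (hcR : 0 < cR) (hcΘ : 0 < cΘ)
    (hvar : ∀ x ∈ J, 512 * (r * s) * K *
      (((primorial w₁ : ℕ) : ℝ) / (Nat.totient (primorial w₁) : ℝ)) ^ 6
        * (β x.1 x.2 - α x.1 x.2) ^ 2
      ≤ cR * cΘ ^ 2 * ((primorial w₁ : ℕ) : ℝ) ^ 2 * Real.sqrt w₁) :
    ∃ cF : ℝ, 0 < cF ∧ ∃ X₀ : ℕ, ∀ X : ℕ, X₀ ≤ X →
      cR * X ≤ (((Finset.Ioc (0 : ℤ) (X : ℤ)).filter (fun m => ∀ x ∈ J,
        cΘ ≤ Th (primorial w₁) r₀ X (α x.1 x.2) (β x.1 x.2) m)).card : ℝ) →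
      cF * X ≤ (cntP h a b n X : ℝ) := by
  obtain ⟨x₀, hx₀⟩ := hJ
  have hr1 : 1 ≤ r := by
    have := x₀.1.isLt
    omega
  have hs1 : 1 ≤ s := by
    have := x₀.2.isLt
    omega
  have hrR : (1 : ℝ) ≤ r := by exact_mod_cast hr1
  have hsR : (1 : ℝ) ≤ s := by exact_mod_cast hs1
  have hrs : (0 : ℝ) < r * s := by positivity
  have h2W := F3b_two_dvd w₁ hw₁
  have hr₀ : ¬ Even r₀ := F3b_odd (h x₀.1) r₀ (heven x₀.1) (primorial w₁) h2W (hcop x₀.1)
  -- constants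
  have hA0 : ∀ x : Fin r × Fin s, 0 < 5 * (b x.1 x.2 - a x.1 x.2) + 1 := by
    intro x
    have := (hab x.1 x.2).2
    linarith
  have hA : 0 ≤ ∑ x : Fin r × Fin s, (5 * (b x.1 x.2 - a x.1 x.2) + 1) :=
    Finset.sum_nonneg fun x _ => (hA0 x).le
  obtain ⟨A, hAdef⟩ : ∃ A : ℝ, A = ∑ x : Fin r × Fin s, (5 * (b x.1 x.2 - a x.1 x.2) + 1) := ⟨_, rfl⟩
  rw [← hAdef] at hA
  obtain ⟨T, hTdef⟩ : ∃ T : ℝ, T = 16 * A / cR + 1 := ⟨_, rfl⟩
  have hT : 0 < T := by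
    rw [hTdef]
    positivity
  obtain ⟨σ, hσdef⟩ : ∃ σ : ℝ, σ = ∏ x : Fin r × Fin s,
      (Real.exp (-T) * (cΘ / 2) ^ (n x.1 x.2) / ((n x.1 x.2).factorial : ℝ)) := ⟨_, rfl⟩
  have hσ : 0 < σ := by
    rw [hσdef]
    apply Finset.prod_pos
    intro x _
    positivity
  obtain ⟨ε, hε, hfreq⟩ := frequencies_multi (fun x : Fin r × Fin s => n x.1 x.2) (cR * σ / 8)
    (by positivity)
  obtain ⟨w₀, hjoint⟩ := joint_gen h hinj a b hab hdis ε hε
  obtain ⟨w, hwdef⟩ : ∃ w : ℕ, w = max w₀ w₁ := ⟨_, rfl⟩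
  have hww₀ : w₀ ≤ w := by omega
  have hww₁ : w₁ ≤ w := by omega
  obtain ⟨X1, hjoint⟩ := hjoint w hww₀
  have hW1 : 1 ≤ primorial w := primorial_pos w
  -- one shift
  have hone : ∀ x : Fin r × Fin s, ∃ X₀ : ℕ, x ∈ J → ∀ X : ℕ, X₀ ≤ X →
      (((Finset.Ioc (0 : ℤ) (X : ℤ)).filter (fun m =>
        cΘ ≤ Th (primorial w₁) r₀ X (α x.1 x.2) (β x.1 x.2) m ∧
        Lam (primorial w) X (α x.1 x.2) (β x.1 x.2) (m + (h x.1 : ℤ)) < cΘ / 2)).card : ℝ)
        ≤ cR / (r * s) / 4 * X := by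
    intro x
    by_cases hx : x ∈ J
    · obtain ⟨h1, h2, h3⟩ := hα x hx
      have h4 := hvar x hx
      obtain ⟨X₀, hX₀⟩ := one_shift K hK1 hK w₁ hw₁ r₀ (h x.1 : ℤ) (hcop x.1) (α x.1 x.2) (β x.1 x.2)
        ((hab x.1 x.2).1.trans h1) h2 (cR / (r * s)) cΘ (by positivity) hcΘ (by
          rw [div_mul_eq_mul_div, div_mul_eq_mul_div, div_mul_eq_mul_div, le_div_iff₀ hrs]
          refine le_trans ?_ h4
          have h5 : 0 ≤ K * (((primorial w₁ : ℕ) : ℝ) / (Nat.totient (primorial w₁) : ℝ)) ^ 6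
            * (β x.1 x.2 - α x.1 x.2) ^ 2 := by positivity
          nlinarith [mul_nonneg h5 hrs.le]) w hww₁
      exact ⟨X₀, fun _ => hX₀⟩
    · exact ⟨0, fun h => absurd h hx⟩
  choose f1 hf1 using hone
  -- sums of the intensities
  have hsum : ∀ x : Fin r × Fin s, ∃ X₀ : ℕ, ∀ X : ℕ, X₀ ≤ X → ∀ S : Finset ℤ,
      ∑ m ∈ S, Lam (primorial w) X (a x.1 x.2) (b x.1 x.2) m
        ≤ (5 * (b x.1 x.2 - a x.1 x.2) + 1) * X := by
    intro x
    exact sum_Lam_le (primorial w) hW1 (a x.1 x.2) (b x.1 x.2) (hab x.1 x.2).1 (hab x.1 x.2).2 1 one_pos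
  choose f2 hf2 using hsum
  have hβ0 : 0 ≤ β x₀.1 x₀.2 := by
    obtain ⟨h1, h2, h3⟩ := hα x₀ hx₀
    have := (hab x₀.1 x₀.2).1
    linarith
  obtain ⟨X2, hgrow⟩ := growth (32 * (β x₀.1 x₀.2 + 2) / cR + 1) (by
    have : 0 ≤ 32 * (β x₀.1 x₀.2 + 2) / cR := by positivity
    linarith)
  refine ⟨cR * σ / 4, by positivity, max (max X1 X2) (max (Finset.univ.sup f1) (Finset.univ.sup f2)), ?_⟩
  intro X hX hrich
  have hX1 : X1 ≤ X := ((le_max_left _ _).trans (le_max_left _ _)).trans hX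
  have hX2 : X2 ≤ X := ((le_max_right _ _).trans (le_max_left _ _)).trans hX
  have hX3 : ∀ x, f1 x ≤ X := fun x => ((Finset.le_sup (Finset.mem_univ x)).trans
    ((le_max_left _ _).trans (le_max_right _ _))).trans hX
  have hX4 : ∀ x, f2 x ≤ X := fun x => ((Finset.le_sup (Finset.mem_univ x)).trans
    ((le_max_right _ _).trans (le_max_right _ _))).trans hX
  obtain ⟨hg1, hg2, hg3, hg4, hg5⟩ := hgrow X hX2
  obtain ⟨Ng, hNg⟩ : ∃ Ng : ℝ, Ng = 32 * (β x₀.1 x₀.2 + 2) / cR + 1 := ⟨_, rfl⟩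
  rw [← hNg] at hg1 hg2 hg3 hg4 hg5
  have hNg1 : 1 ≤ Ng := by
    rw [hNg]
    have : 0 ≤ 32 * (β x₀.1 x₀.2 + 2) / cR := by positivity
    linarith
  have hell : 0 ≤ ell X := by linarith
  have hlog : 0 ≤ Real.log X := by linarith
  have hlogell : 0 ≤ Real.log X * ell X := mul_nonneg hlog hell
  have hXR : (0 : ℝ) ≤ X := Nat.cast_nonneg X
  -- the odd ones
  have hodd : (yX (β x₀.1 x₀.2) X : ℝ) + 2 ≤ cR / 16 * X := by
    have h1 := yX_le X hlogell hβ0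
    have h2 : ell X ≤ Real.log X := by nlinarith
    have h3 : Real.log X * ell X ≤ (Real.log X) ^ 2 := by nlinarith
    have h4 : (32 * (β x₀.1 x₀.2 + 2) / cR) * (Real.log X) ^ 2 ≤ X := by
      refine le_trans ?_ hg4
      apply mul_le_mul_of_nonneg_right _ (sq_nonneg _)
      linarith
    have h5 : (32 * (β x₀.1 x₀.2 + 2) / cR) ≤ X := by linarith
    rw [div_mul_eq_mul_div, div_le_iff₀ hcR] at h4
    rw [div_le_iff₀ hcR] at h5
    have h6 : β x₀.1 x₀.2 * (Real.log X * ell X) ≤ β x₀.1 x₀.2 * (Real.log X) ^ 2 := by gcongr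
    have h7 : 0 ≤ (Real.log X) ^ 2 := sq_nonneg _
    nlinarith
  -- the good integers
  have hgood : cR / 2 * X ≤ (((Finset.Ioc (0 : ℤ) (X : ℤ)).filter (fun m => Even m ∧
      (∀ x ∈ J, cΘ / 2 ≤ Lam (primorial w) X (α x.1 x.2) (β x.1 x.2) (m + (h x.1 : ℤ))) ∧
      ∀ x : Fin r × Fin s, Lam (primorial w) X (a x.1 x.2) (b x.1 x.2) (m + (h x.1 : ℤ)) ≤ T)).card : ℝ) := by
    have hun := F3b_union ((Finset.Ioc (0 : ℤ) (X : ℤ)).filter (fun m => ∀ x ∈ J,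
        cΘ ≤ Th (primorial w₁) r₀ X (α x.1 x.2) (β x.1 x.2) m))
      ((Finset.Ioc (0 : ℤ) (X : ℤ)).filter (fun m => Even m ∧
      (∀ x ∈ J, cΘ / 2 ≤ Lam (primorial w) X (α x.1 x.2) (β x.1 x.2) (m + (h x.1 : ℤ))) ∧
      ∀ x : Fin r × Fin s, Lam (primorial w) X (a x.1 x.2) (b x.1 x.2) (m + (h x.1 : ℤ)) ≤ T))
      ((Finset.Ioc (0 : ℤ) (X : ℤ)).filter (fun m => ¬ Even m ∧
        Th (primorial w₁) r₀ X (α x₀.1 x₀.2) (β x₀.1 x₀.2) m ≠ 0)) J
      (fun x => (Finset.Ioc (0 : ℤ) (X : ℤ)).filter (fun m =>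
        cΘ ≤ Th (primorial w₁) r₀ X (α x.1 x.2) (β x.1 x.2) m ∧
        Lam (primorial w) X (α x.1 x.2) (β x.1 x.2) (m + (h x.1 : ℤ)) < cΘ / 2))
      (fun x => (Finset.Ioc (0 : ℤ) (X : ℤ)).filter (fun m =>
        T < Lam (primorial w) X (a x.1 x.2) (b x.1 x.2) (m + (h x.1 : ℤ)))) (by
        intro m hm
        rw [Finset.mem_filter] at hm
        obtain ⟨hm1, hm2⟩ := hm
        by_cases hev : Even m
        · by_cases hB1 : ∃ x ∈ J, Lam (primorial w) X (α x.1 x.2) (β x.1 x.2) (m + (h x.1 : ℤ)) < cΘ / 2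
          · obtain ⟨x, hx, h1⟩ := hB1
            exact Or.inr (Or.inr (Or.inl ⟨x, hx, Finset.mem_filter.2 ⟨hm1, hm2 x hx, h1⟩⟩))
          · by_cases hB2 : ∃ x : Fin r × Fin s,
                T < Lam (primorial w) X (a x.1 x.2) (b x.1 x.2) (m + (h x.1 : ℤ))
            · obtain ⟨x, h1⟩ := hB2
              exact Or.inr (Or.inr (Or.inr ⟨x, Finset.mem_filter.2 ⟨hm1, h1⟩⟩))
            · left
              refine Finset.mem_filter.2 ⟨hm1, hev, ?_, ?_⟩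
              · intro x hx
                by_contra hlt
                exact hB1 ⟨x, hx, not_le.1 hlt⟩
              · intro x
                by_contra hlt
                exact hB2 ⟨x, not_le.1 hlt⟩
        · right
          left
          refine Finset.mem_filter.2 ⟨hm1, hev, ?_⟩
          have := hm2 x₀ hx₀
          intro h0
          rw [h0] at this
          linarith)
    have h1 := card_odd_Th_le (primorial w₁) h2W r₀ hr₀ (α x₀.1 x₀.2) (β x₀.1 x₀.2) X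
    have h2 : ∑ x ∈ J, (((Finset.Ioc (0 : ℤ) (X : ℤ)).filter (fun m =>
        cΘ ≤ Th (primorial w₁) r₀ X (α x.1 x.2) (β x.1 x.2) m ∧
        Lam (primorial w) X (α x.1 x.2) (β x.1 x.2) (m + (h x.1 : ℤ)) < cΘ / 2)).card : ℝ)
        ≤ cR / 4 * X := by
      have h3 : ∑ x ∈ J, (((Finset.Ioc (0 : ℤ) (X : ℤ)).filter (fun m =>
          cΘ ≤ Th (primorial w₁) r₀ X (α x.1 x.2) (β x.1 x.2) m ∧
          Lam (primorial w) X (α x.1 x.2) (β x.1 x.2) (m + (h x.1 : ℤ)) < cΘ / 2)).card : ℝ)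
          ≤ ∑ _x ∈ J, (cR / (r * s) / 4 * X) := Finset.sum_le_sum fun x hx => hf1 x hx X (hX3 x)
      rw [Finset.sum_const, nsmul_eq_mul] at h3
      have h4 : (J.card : ℝ) ≤ r * s := by
        have h5 := Finset.card_le_univ J
        rw [Fintype.card_prod, Fintype.card_fin, Fintype.card_fin] at h5
        exact_mod_cast h5
      calc _ ≤ (J.card : ℝ) * (cR / (r * s) / 4 * X) := h3
        _ ≤ (r * s) * (cR / (r * s) / 4 * X) := by gcongr
        _ = cR / 4 * X := by field_simp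
    have h3 : ∑ x : Fin r × Fin s, (((Finset.Ioc (0 : ℤ) (X : ℤ)).filter (fun m =>
        T < Lam (primorial w) X (a x.1 x.2) (b x.1 x.2) (m + (h x.1 : ℤ)))).card : ℝ)
        ≤ cR / 16 * X := by
      have h4 : ∑ x : Fin r × Fin s, (((Finset.Ioc (0 : ℤ) (X : ℤ)).filter (fun m =>
          T < Lam (primorial w) X (a x.1 x.2) (b x.1 x.2) (m + (h x.1 : ℤ)))).card : ℝ)
          ≤ ∑ x : Fin r × Fin s, ((5 * (b x.1 x.2 - a x.1 x.2) + 1) * X) / T :=
        Finset.sum_le_sum fun x _ => F3b_large (primorial w) X (h x.1) (a x.1 x.2) (b x.1 x.2) _ T hT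
          hell (fun S => hf2 x X (hX4 x) S)
      rw [← Finset.sum_div, ← Finset.sum_mul, ← hAdef] at h4
      refine h4.trans ?_
      rw [div_le_iff₀ hT, hTdef]
      have h5 : cR / 16 * X * (16 * A / cR + 1) = A * X + cR / 16 * X := by
        field_simp
      rw [h5]
      have h6 : 0 ≤ cR / 16 * X := by positivity
      linarith
    have h4 : 0 ≤ cR * X := by positivity
    linarith
  -- the frequencies
  have hfr := hfreq ((Finset.Ioc (0 : ℤ) (X : ℤ)).filter (fun m => Even m))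
    (fun x m => Nw X (a x.1 x.2) (b x.1 x.2) (m + (h x.1 : ℤ)))
    (fun x m => Lam (primorial w) X (a x.1 x.2) (b x.1 x.2) (m + (h x.1 : ℤ))) X
    (fun x m _ => Lam_nonneg _ X hell _ _ _) (by
      have h1 := Finset.card_filter_le (Finset.Ioc (0 : ℤ) (X : ℤ)) (fun m => Even m)
      rw [Int.card_Ioc, sub_zero, Int.toNat_natCast] at h1
      exact_mod_cast h1) (by
      intro z hz
      have h1 := hjoint X hX1 (fun i j => z (i, j)) (fun i j => hz (i, j))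
      have h2 : ∀ m : ℤ, (∏ x : Fin r × Fin s, z x ^ Nw X (a x.1 x.2) (b x.1 x.2) (m + (h x.1 : ℤ)))
          = ∏ i, ∏ j, z (i, j) ^ Nw X (a i j) (b i j) (m + (h i : ℤ)) := by
        intro m
        rw [Fintype.prod_prod_type]
      have h3 : ∀ m : ℤ, (∑ x : Fin r × Fin s, (1 - z x) *
            Lam (primorial w) X (a x.1 x.2) (b x.1 x.2) (m + (h x.1 : ℤ)))
          = ∑ i, ∑ j, (1 - z (i, j)) * Lam (primorial w) X (a i j) (b i j) (m + (h i : ℤ)) := by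
        intro m
        rw [Fintype.sum_prod_type]
      simp only [h2, h3]
      exact h1)
  have hcnt : (cntP h a b n X : ℝ) = ((((Finset.Ioc (0 : ℤ) (X : ℤ)).filter (fun m => Even m)).filter
      (fun m => ∀ x : Fin r × Fin s, Nw X (a x.1 x.2) (b x.1 x.2) (m + (h x.1 : ℤ)) = n x.1 x.2)).card : ℝ) := by
    unfold cntP
    rw [Finset.filter_filter]
    congr 2
    apply Finset.filter_congr
    intro m _
    constructor
    · rintro ⟨h1, h2⟩
      exact ⟨h1, fun x => h2 x.1 x.2⟩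
    · rintro ⟨h1, h2⟩
      exact ⟨h1, fun i j => h2 (i, j)⟩
  rw [hcnt]
  have hlow : cR / 2 * X * σ ≤ ∑ m ∈ (Finset.Ioc (0 : ℤ) (X : ℤ)).filter (fun m => Even m),
      ∏ x : Fin r × Fin s, (Real.exp (-(Lam (primorial w) X (a x.1 x.2) (b x.1 x.2) (m + (h x.1 : ℤ)))) *
        (Lam (primorial w) X (a x.1 x.2) (b x.1 x.2) (m + (h x.1 : ℤ))) ^ (n x.1 x.2)
          / ((n x.1 x.2).factorial : ℝ)) := by
    have h1 : ((Finset.Ioc (0 : ℤ) (X : ℤ)).filter (fun m => Even m ∧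
      (∀ x ∈ J, cΘ / 2 ≤ Lam (primorial w) X (α x.1 x.2) (β x.1 x.2) (m + (h x.1 : ℤ))) ∧
      ∀ x : Fin r × Fin s, Lam (primorial w) X (a x.1 x.2) (b x.1 x.2) (m + (h x.1 : ℤ)) ≤ T))
      ⊆ (Finset.Ioc (0 : ℤ) (X : ℤ)).filter (fun m => Even m) := by
      intro m hm
      rw [Finset.mem_filter] at hm ⊢
      exact ⟨hm.1, hm.2.1⟩
    refine le_trans ?_ (Finset.sum_le_sum_of_subset_of_nonneg h1 ?_)
    · have h2 : ∀ m ∈ (Finset.Ioc (0 : ℤ) (X : ℤ)).filter (fun m => Even m ∧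
          (∀ x ∈ J, cΘ / 2 ≤ Lam (primorial w) X (α x.1 x.2) (β x.1 x.2) (m + (h x.1 : ℤ))) ∧
          ∀ x : Fin r × Fin s, Lam (primorial w) X (a x.1 x.2) (b x.1 x.2) (m + (h x.1 : ℤ)) ≤ T),
          σ ≤ ∏ x : Fin r × Fin s, (Real.exp (-(Lam (primorial w) X (a x.1 x.2) (b x.1 x.2)
            (m + (h x.1 : ℤ)))) *
            (Lam (primorial w) X (a x.1 x.2) (b x.1 x.2) (m + (h x.1 : ℤ))) ^ (n x.1 x.2)
            / ((n x.1 x.2).factorial : ℝ)) := by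
        intro m hm
        rw [Finset.mem_filter] at hm
        obtain ⟨_, _, h3, h4⟩ := hm
        rw [hσdef]
        refine F3b_prod (fun x : Fin r × Fin s => n x.1 x.2)
          (fun x => Lam (primorial w) X (a x.1 x.2) (b x.1 x.2) (m + (h x.1 : ℤ))) T (cΘ / 2)
          (by positivity) h4 ?_
        intro x hx
        have hxJ : x ∈ J := by
          by_contra hxJ
          exact hx (hnJ x.1 x.2 hxJ)
        obtain ⟨h5, _, h6⟩ := hα x hxJ
        exact (h3 x hxJ).trans (Lam_mono _ X hlogell hell h5 h6 _)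
      have h3 := Finset.sum_le_sum h2
      rw [Finset.sum_const, nsmul_eq_mul] at h3
      refine le_trans ?_ h3
      exact mul_le_mul_of_nonneg_right hgood hσ.le
    · intro m _ _
      apply Finset.prod_nonneg
      intro x _
      have h3 := Lam_nonneg (primorial w) X hell (a x.1 x.2) (b x.1 x.2) (m + (h x.1 : ℤ))
      positivity
  have h1 := (abs_le.mp hfr).1
  have h2 : cR * σ / 8 * X = (cR * X * σ) / 8 := by ring
  have h3 : cR / 2 * X * σ = (cR * X * σ) / 2 := by ring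
  have h4 : cR * σ / 4 * X = (cR * X * σ) / 4 := by ring
  rw [h2] at h1
  rw [h3] at hlow
  rw [h4]
  have h5 : 0 ≤ cR * X * σ := by positivity
  linarith

end Pool.Agent.Lib.MP_bae66e_nt.LP
end

section

/-!
# LP/F1c: windows of `g` for one `m`
-/

set_option autoImplicit false

open Finset Filter Topology

namespace Pool.Agent.Lib.MP_bae66e_nt.LP

open Pool.Agent.Lib.MP_bae66e_nt.LL

/-- `Nw` is monotone in the window (`log X loglog X ≥ 0`). -/
lemma Nw_zero_mono (X : ℕ) (hX : 0 ≤ Real.log X * ell X) {a b : ℝ} (hab : a ≤ b) (m : ℤ)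
    (h : Nw X 0 b m = 0) : Nw X 0 a m = 0 := by
  unfold Nw at h ⊢
  rw [Finset.card_eq_zero] at h ⊢
  rw [← Finset.subset_empty, ← h]
  apply Finset.filter_subset_filter
  unfold Wd
  intro q hq
  rw [Finset.mem_filter] at hq ⊢
  refine ⟨hq.1, hq.2.1, hq.2.2.trans ?_⟩
  have h1 : yX a X ≤ yX b X := by
    unfold yX
    apply Nat.floor_le_floor
    rw [mul_assoc, mul_assoc]
    exact mul_le_mul_of_nonneg_right hab hX
  exact_mod_cast h1

/-- `joint_gen` for one shift, one window and `z = 0`. -/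
private lemma F1c_gen (t : ℝ) (ht : 0 < t) (ε : ℝ) (hε : 0 < ε) :
    ∃ w₀ : ℕ, ∀ w : ℕ, w₀ ≤ w → ∃ X₀ : ℕ, ∀ X : ℕ, X₀ ≤ X →
      |(((Finset.Ioc (0 : ℤ) (X : ℤ)).filter (fun m : ℤ => Even m ∧ Nw X 0 t m = 0)).card : ℝ)
        - ∑ m ∈ (Finset.Ioc (0 : ℤ) (X : ℤ)).filter (fun m => Even m),
          Real.exp (-(Lam (primorial w) X 0 t m))| ≤ ε * X := by
  obtain ⟨w₀, hw₀⟩ := joint_gen (r := 1) (s := 1) (fun _ => 0) (fun i j _ => Subsingleton.elim i j)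
    (fun _ _ => 0) (fun _ _ => t) (fun _ _ => ⟨le_rfl, ht.le⟩)
    (fun _ j l hjl => absurd (Subsingleton.elim j l) hjl) ε hε
  refine ⟨w₀, fun w hw => ?_⟩
  obtain ⟨X₀, hX₀⟩ := hw₀ w hw
  refine ⟨X₀, fun X hX => ?_⟩
  have h := hX₀ X hX (fun _ _ => 0) (fun _ _ => ⟨le_rfl, zero_le_one⟩)
  simp only [Finset.univ_unique, Finset.prod_singleton, Finset.sum_singleton, Nat.cast_zero, add_zero,
    sub_zero, one_mul] at h
  have e : (((Finset.Ioc (0 : ℤ) (X : ℤ)).filter (fun m : ℤ => Even m ∧ Nw X 0 t m = 0)).card : ℝ) =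
      ∑ m ∈ (Finset.Ioc (0 : ℤ) (X : ℤ)).filter (fun m => Even m), (0 : ℝ) ^ Nw X 0 t m := by
    rw [← Finset.filter_filter, Finset.card_filter, Nat.cast_sum]
    apply Finset.sum_congr rfl
    intro m _
    by_cases h0 : Nw X 0 t m = 0
    · rw [if_pos h0, h0]; simp
    · rw [if_neg h0, zero_pow h0]; simp
  rw [e]
  exact h

/-- **The windows of `g`**: there are absolute `c, C > 0` such that for `0 < a < b` and large `X` the
number of even `m ≤ X` with `Nw X 0 a m = 0`, `Nw X 0 b m ≠ 0` is `≥ c exp(-C a) min(1, b - a) X`.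

PROOF. `joint_gen` for `r = s = 1`, `h = 0`, the window `(0, a]` resp. `(0, b]`, and `z = 0` (`0^N = 1` iff
`N = 0`), with `ε` a quarter of the bound of `mean_window`, and the same `w` for both (`w ≥` both `w₀`,
`w ≥ 2`; `primorial w` is even and squarefree). The number is `#{Nw 0 a = 0} - #{Nw 0 b = 0}`
(`Nw_zero_mono`). -/
theorem window_one : ∃ c C : ℝ, 0 < c ∧ 0 < C ∧ ∀ a b : ℝ, 0 < a → a < b →
    ∃ X₀ : ℕ, ∀ X : ℕ, X₀ ≤ X →
      c * Real.exp (-(C * a)) * min 1 (b - a) * X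
        ≤ (((Finset.Ioc (0 : ℤ) (X : ℤ)).filter (fun m : ℤ =>
          Even m ∧ Nw X 0 a m = 0 ∧ Nw X 0 b m ≠ 0)).card : ℝ) := by
  obtain ⟨c, C, hc, hC, hmain⟩ := mean_window
  refine ⟨c / 2, C, by positivity, hC, fun a b ha hab => ?_⟩
  have hm : 0 < min 1 (b - a) := lt_min one_pos (by linarith)
  set δ : ℝ := c * Real.exp (-(C * a)) * min 1 (b - a) with hδ
  have hδ0 : 0 < δ := by positivity
  obtain ⟨wa, hwa⟩ := F1c_gen a ha (δ / 4) (by positivity)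
  obtain ⟨wb, hwb⟩ := F1c_gen b (ha.trans hab) (δ / 4) (by positivity)
  set w : ℕ := wa + wb + 2 with hw
  obtain ⟨X1, hX1⟩ := hwa w (by omega)
  obtain ⟨X2, hX2⟩ := hwb w (by omega)
  have h2 : 2 ∣ primorial w := Nat.prime_two.dvd_primorial_iff.2 (by omega)
  obtain ⟨X3, hX3⟩ := hmain (primorial w) (_root_.squarefree_primorial w) h2 a b ha.le hab
  refine ⟨max X1 (max X2 X3), fun X hX => ?_⟩
  have g1 := abs_le.1 (hX1 X ((le_max_left _ _).trans hX))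
  have g2 := abs_le.1 (hX2 X (((le_max_left _ _).trans (le_max_right _ _)).trans hX))
  have g3 := hX3 X (((le_max_right _ _).trans (le_max_right _ _)).trans hX)
  rw [Finset.sum_sub_distrib] at g3
  have g4 : (((Finset.Ioc (0 : ℤ) (X : ℤ)).filter (fun m : ℤ => Even m ∧ Nw X 0 a m = 0)).card : ℝ) ≤
      (((Finset.Ioc (0 : ℤ) (X : ℤ)).filter (fun m : ℤ => Even m ∧ Nw X 0 b m = 0)).card : ℝ) +
      (((Finset.Ioc (0 : ℤ) (X : ℤ)).filter (fun m : ℤ =>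
          Even m ∧ Nw X 0 a m = 0 ∧ Nw X 0 b m ≠ 0)).card : ℝ) := by
    rw [← Nat.cast_add, Nat.cast_le]
    refine le_trans (Finset.card_le_card ?_) (Finset.card_union_le _ _)
    intro m hm
    rw [Finset.mem_union, Finset.mem_filter, Finset.mem_filter]
    rw [Finset.mem_filter] at hm
    by_cases h0 : Nw X 0 b m = 0
    · exact Or.inl ⟨hm.1, hm.2.1, h0⟩
    · exact Or.inr ⟨hm.1, hm.2.1, hm.2.2, h0⟩
  have e1 : c / 2 * Real.exp (-(C * a)) * min 1 (b - a) * X = δ / 2 * X := by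
    rw [hδ]; ring
  rw [e1]
  have g5 : δ * X ≤ _ := g3
  linarith [g1.1, g1.2, g2.1, g2.2, g4, g5]

end Pool.Agent.Lib.MP_bae66e_nt.LP
end
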