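import Pool.Agent.Lib.MP_bae66e_nt.Mg.G041
import Pool.Agent.Lib.MP_bae66e_nt.Mg.G053
import Pool.Agent.Lib.MP_bae66e_nt.Mg.G054
import Pool.Agent.Lib.MP_bae66e_nt.Mg.G063
import Pool.Agent.Lib.MP_bae66e_nt.Mg.G058

section

/-!
# LP/S1c: the energy of the primes in a class at the scale `s`
-/

set_option autoImplicit false

open Finset Filter Topology

namespace Pool.Agent.Lib.MP_bae66e_nt.LP

open Pool.Agent.Lib.MP_bae66e_nt.LL

private lemma S1c_sum_mul (f : ℕ → ℝ) (M K : ℕ) :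
    ∑ i ∈ Finset.range K, ∑ e ∈ Finset.range M, f (M * i + e) = ∑ j ∈ Finset.range (M * K), f j := by
  induction K with
  | zero => simp
  | succ K ih =>
    rw [Finset.sum_range_succ, ih, Nat.mul_succ, Finset.sum_range_add]

private lemma S1c_nb_zero (W₀ X l b j : ℕ) (hl : 1 ≤ l) (hj : X / l < j) : nb W₀ X l b j = 0 := by
  unfold nb
  rw [Finset.card_eq_zero, Finset.filter_eq_empty_iff]
  rintro q hq ⟨h1, -, -⟩
  unfold QQ at hq
  rw [Finset.mem_filter, Finset.mem_Ioc, Nat.zero_add] at hq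
  have h2 : X < l * (X / l + 1) := Nat.lt_mul_div_succ X (by omega)
  have h3 : l * (X / l + 1) ≤ j * l := by
    rw [mul_comm]
    exact Nat.mul_le_mul_right _ hj
  omega

private lemma S1c_var (M : ℕ) (hM : 1 ≤ M) (x : ℕ → ℝ) (y : ℝ) (hy : y = ∑ e ∈ Finset.range M, x e) :
    ∑ e ∈ Finset.range M, (x e - y / M) ^ 2 = ∑ e ∈ Finset.range M, (x e) ^ 2 - y ^ 2 / M := by
  have hM0 : (M : ℝ) ≠ 0 := by positivity
  have h1 : ∀ e ∈ Finset.range M, (x e - y / M) ^ 2 = (x e) ^ 2 - (2 * (y / M)) * x e + (y / M) ^ 2 := by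
    intro e _
    ring
  rw [Finset.sum_congr rfl h1, Finset.sum_add_distrib, Finset.sum_sub_distrib, ← Finset.mul_sum, ← hy,
    Finset.sum_const, Finset.card_range, nsmul_eq_mul]
  field_simp
  ring

/-- The increment of the energy: with `s = M l`,
`∑_b ∑_{i ≤ X/s} ∑_{e < M} (nb l (M i + e) - nb s i / M)² = Es l - Es s / M`.

PROOF. For each `b`, `i`: `∑_e (x_e - (∑ x)/M)² = ∑ x_e² - (∑ x)²/M` with `nb_subdivide`. The cells
`M i + e` with `i ≤ X/s`, `e < M` are the cells `j < M (X/s + 1)`; those with `j > X/l` are empty (`nb = 0`),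
and `X/l < M (X/s + 1)`. -/
lemma energy_increment (W₀ X l M : ℕ) (hM : 1 ≤ M) (hl : 1 ≤ l) :
    ∑ b ∈ Finset.range W₀, ∑ i ∈ Finset.range (X / (M * l) + 1), ∑ e ∈ Finset.range M,
        ((nb W₀ X l b (M * i + e) : ℝ) - (nb W₀ X (M * l) b i : ℝ) / M) ^ 2
      = Es W₀ X l - Es W₀ X (M * l) / M := by
  have hM0 : (M : ℝ) ≠ 0 := by positivity
  have h1 : ∀ b : ℕ, ∑ i ∈ Finset.range (X / (M * l) + 1), ∑ e ∈ Finset.range M,
      ((nb W₀ X l b (M * i + e) : ℝ) - (nb W₀ X (M * l) b i : ℝ) / M) ^ 2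
      = ∑ i ∈ Finset.range (X / l + 1), ((nb W₀ X l b i : ℝ)) ^ 2
        - (∑ i ∈ Finset.range (X / (M * l) + 1), ((nb W₀ X (M * l) b i : ℝ)) ^ 2) / M := by
    intro b
    have h2 : ∀ i ∈ Finset.range (X / (M * l) + 1), ∑ e ∈ Finset.range M,
        ((nb W₀ X l b (M * i + e) : ℝ) - (nb W₀ X (M * l) b i : ℝ) / M) ^ 2
        = ∑ e ∈ Finset.range M, ((nb W₀ X l b (M * i + e) : ℝ)) ^ 2
          - ((nb W₀ X (M * l) b i : ℝ)) ^ 2 / M := fun i _ =>
      S1c_var M hM (fun e => (nb W₀ X l b (M * i + e) : ℝ)) _ (nb_subdivide W₀ X l M b i hM hl)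
    rw [Finset.sum_congr rfl h2, Finset.sum_sub_distrib, ← Finset.sum_div,
      S1c_sum_mul (fun j => ((nb W₀ X l b j : ℝ)) ^ 2) M (X / (M * l) + 1)]
    congr 1
    symm
    apply Finset.sum_subset
    · rw [Finset.range_subset_range]
      have h3 : X / l < M * (X / l / M + 1) := Nat.lt_mul_div_succ (X / l) (by omega)
      rw [Nat.div_div_eq_div_mul, mul_comm l M] at h3
      omega
    · intro j _ hj
      rw [Finset.mem_range, not_lt] at hj
      rw [S1c_nb_zero W₀ X l b j hl (by omega)]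
      simp
  rw [Finset.sum_congr rfl (fun b _ => h1 b), Finset.sum_sub_distrib, ← Finset.sum_div]
  rfl

/-- Pigeonhole: `0 ≤ e_0 ≤ e_1 ≤ … ≤ e_J`, `J ≥ 1`: some `j < J` has `e_{j+1} - e_j ≤ e_J / J`. -/
lemma exists_small_increment (J : ℕ) (hJ : 1 ≤ J) (e : ℕ → ℝ) (h0 : 0 ≤ e 0) :
    ∃ j : ℕ, j < J ∧ e (j + 1) - e j ≤ e J / J := by
  by_contra hcon
  push Not at hcon
  have hJ0 : (0 : ℝ) < J := by positivity
  have h1 : ∑ j ∈ Finset.range J, (e J / J) < ∑ j ∈ Finset.range J, (e (j + 1) - e j) := by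
    apply Finset.sum_lt_sum_of_nonempty
    · exact ⟨0, Finset.mem_range.2 hJ⟩
    · intro j hj
      exact hcon j (Finset.mem_range.1 hj)
  rw [Finset.sum_range_sub, Finset.sum_const, Finset.card_range, nsmul_eq_mul,
    mul_div_cancel₀ _ hJ0.ne'] at h1
  linarith

end Pool.Agent.Lib.MP_bae66e_nt.LP
end

section

end

section

/-!
# LP/S2a: uniformly rich cells

`s = M l` is the length of the cells, `l` the length of the subcells.
-/

set_option autoImplicit false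

open Finset Filter Topology

namespace Pool.Agent.Lib.MP_bae66e_nt.LP

open Pool.Agent.Lib.MP_bae66e_nt.LL

/-- The pairs `(b, i)` of a class coprime to `W₀` and a cell. -/
def cells (W₀ X s : ℕ) : Finset (ℕ × ℕ) :=
  (Finset.range W₀).filter (fun b => Nat.Coprime b W₀) ×ˢ Finset.range (X / s + 1)

/-- Rich pairs. Let `X ≥ 16`, `X/(4 log X) - W₀ ≥ X/(5 log X)`, `s ≤ X`, and
`B ≥ Es W₀ X s`. With `τ = s/(40 φ(W₀) log X)`:
`(X/(10 log X))² ≤ B #{(b, i) : nb ≥ τ}`.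

PROOF. There are at most `φ(W₀) (X/s + 1) ≤ 2 φ(W₀) X/s` pairs; those with `nb < τ` contribute at most
`τ 2 φ(W₀) X/s = X/(20 log X)` to `∑ nb ≥ X/(5 log X)`. The others contribute at least
`X/(10 log X)`; Cauchy-Schwarz. -/
lemma rich_pairs (W₀ X s : ℕ) (hW : 1 ≤ W₀) (hX : 16 ≤ X) (hs : 1 ≤ s) (hsX : s ≤ X)
    (hWX : (X : ℝ) / (5 * Real.log X) ≤ (X : ℝ) / (4 * Real.log X) - W₀) (B : ℝ)
    (hB : Es W₀ X s ≤ B) :
    ((X : ℝ) / (10 * Real.log X)) ^ 2 ≤ B * (((cells W₀ X s).filter (fun bi =>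
      (s : ℝ) / (40 * (Nat.totient W₀ : ℝ) * Real.log X) ≤ nb W₀ X s bi.1 bi.2)).card : ℝ) := by
  classical
  have hX1 : (1 : ℝ) < X := by
    have : (16 : ℝ) ≤ X := by exact_mod_cast hX
    linarith
  have hL : 0 < Real.log X := Real.log_pos hX1
  have hX0 : (0 : ℝ) < X := by linarith
  have hs0 : (0 : ℝ) < s := by
    have : (1 : ℝ) ≤ s := by exact_mod_cast hs
    linarith
  have hφ : 0 < Nat.totient W₀ := Nat.totient_pos.2 (by omega)
  have hφ0 : (0 : ℝ) < (Nat.totient W₀ : ℝ) := by exact_mod_cast hφ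
  set L : ℝ := Real.log X with hLdef
  set τ : ℝ := (s : ℝ) / (40 * (Nat.totient W₀ : ℝ) * L) with hτ
  have hτ0 : 0 ≤ τ := by positivity
  set f : ℕ × ℕ → ℝ := fun bi => (nb W₀ X s bi.1 bi.2 : ℝ) with hf
  have hf0 : ∀ bi, 0 ≤ f bi := fun bi => Nat.cast_nonneg _
  -- the number of cells
  have hcard : ((cells W₀ X s).card : ℝ) ≤ 2 * (Nat.totient W₀ : ℝ) * (X / s) := by
    have h1 : ((Finset.range W₀).filter (fun b => Nat.Coprime b W₀)).card = Nat.totient W₀ := by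
      rw [Nat.totient_eq_card_coprime]
      congr 1
      ext b
      simp only [Finset.mem_filter, Nat.coprime_comm]
    unfold cells
    rw [Finset.card_product, h1, Finset.card_range, Nat.cast_mul, Nat.cast_add, Nat.cast_one]
    have h2 : ((X / s : ℕ) : ℝ) ≤ (X : ℝ) / s := Nat.cast_div_le
    have h3 : (1 : ℝ) ≤ (X : ℝ) / s := by
      rw [le_div_iff₀ hs0, one_mul]
      exact_mod_cast hsX
    nlinarith
  -- the total
  have htot : (X : ℝ) / (5 * L) ≤ ∑ bi ∈ cells W₀ X s, f bi := by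
    have h1 := sum_nb_coprime W₀ X s hW hs
    have h2 := (card_QQ_bounds X hX).1
    have h3 : ∑ bi ∈ cells W₀ X s, f bi = ∑ b ∈ (Finset.range W₀).filter (fun b => Nat.Coprime b W₀),
      ∑ i ∈ Finset.range (X / s + 1), (nb W₀ X s b i : ℝ) := by
      unfold cells
      rw [Finset.sum_product]
    rw [h3]
    refine le_trans (le_trans hWX ?_) h1
    linarith
  set R := (cells W₀ X s).filter (fun bi => τ ≤ (nb W₀ X s bi.1 bi.2 : ℝ)) with hR
  have hsplit : ∑ bi ∈ cells W₀ X s, f bi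
      = ∑ bi ∈ R, f bi + ∑ bi ∈ (cells W₀ X s).filter (fun bi => ¬ τ ≤ (nb W₀ X s bi.1 bi.2 : ℝ)), f bi :=
    (Finset.sum_filter_add_sum_filter_not _ _ _).symm
  have hsmall : ∑ bi ∈ (cells W₀ X s).filter (fun bi => ¬ τ ≤ (nb W₀ X s bi.1 bi.2 : ℝ)), f bi
      ≤ X / (20 * L) := by
    calc ∑ bi ∈ (cells W₀ X s).filter (fun bi => ¬ τ ≤ (nb W₀ X s bi.1 bi.2 : ℝ)), f bi
        ≤ ∑ bi ∈ (cells W₀ X s).filter (fun bi => ¬ τ ≤ (nb W₀ X s bi.1 bi.2 : ℝ)), τ := by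
          apply Finset.sum_le_sum
          intro bi hbi
          rw [Finset.mem_filter, not_le] at hbi
          exact hbi.2.le
      _ ≤ ∑ bi ∈ cells W₀ X s, τ :=
          Finset.sum_le_sum_of_subset_of_nonneg (Finset.filter_subset _ _) (fun _ _ _ => hτ0)
      _ = ((cells W₀ X s).card : ℝ) * τ := by rw [Finset.sum_const, nsmul_eq_mul]
      _ ≤ (2 * (Nat.totient W₀ : ℝ) * (X / s)) * τ := by gcongr
      _ = X / (20 * L) := by
          rw [hτ]
          field_simp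
          ring
  have hbig : (X : ℝ) / (10 * L) ≤ ∑ bi ∈ R, f bi := by
    have h1 : (X : ℝ) / (5 * L) = 4 * (X / (20 * L)) := by
      field_simp
      ring
    have h2 : (X : ℝ) / (10 * L) = 2 * (X / (20 * L)) := by
      field_simp
      ring
    have h3 : 0 ≤ (X : ℝ) / (20 * L) := by positivity
    linarith
  have hsq : ∑ bi ∈ R, (f bi) ^ 2 ≤ B := by
    refine le_trans ?_ hB
    unfold Es
    calc ∑ bi ∈ R, (f bi) ^ 2 ≤ ∑ bi ∈ Finset.range W₀ ×ˢ Finset.range (X / s + 1), (f bi) ^ 2 := by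
          apply Finset.sum_le_sum_of_subset_of_nonneg
          · intro bi hbi
            have h1 := (Finset.mem_filter.1 hbi).1
            unfold cells at h1
            rw [Finset.mem_product, Finset.mem_filter] at h1
            rw [Finset.mem_product]
            exact ⟨h1.1.1, h1.2⟩
          · intro _ _ _
            positivity
      _ = _ := by rw [Finset.sum_product]
  have hCS : (∑ bi ∈ R, f bi) ^ 2 ≤ (R.card : ℝ) * ∑ bi ∈ R, (f bi) ^ 2 := by
    have := @sq_sum_le_card_mul_sum_sq _ ℝ _ _ _ _ R f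
    exact this
  have h0 : 0 ≤ (X : ℝ) / (10 * L) := by positivity
  calc ((X : ℝ) / (10 * L)) ^ 2 ≤ (∑ bi ∈ R, f bi) ^ 2 := by gcongr
    _ ≤ (R.card : ℝ) * ∑ bi ∈ R, (f bi) ^ 2 := hCS
    _ ≤ (R.card : ℝ) * B := by gcongr
    _ = B * (R.card : ℝ) := mul_comm _ _

end Pool.Agent.Lib.MP_bae66e_nt.LP
end

section

/-!
# LP/S2b: uniformly rich cells

`s = M l` is the length of the cells, `l` the length of the subcells.
-/

set_option autoImplicit false

open Finset Filter Topology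

namespace Pool.Agent.Lib.MP_bae66e_nt.LP

open Pool.Agent.Lib.MP_bae66e_nt.LL

/-- Few pairs have an exceptional subcell: the number of the pairs `(b, i)`, `b < W₀`, `i ≤ X/s`, such
that `|nb l (M i + e) - nb s i / M| > θ` for some `e < M` is at most `(Es l - Es s / M)/θ²`
(`energy_increment`, Markov), `θ > 0`. -/
lemma card_exceptional_le (W₀ X l M : ℕ) (hM : 1 ≤ M) (hl : 1 ≤ l) (θ : ℝ) (hθ : 0 < θ) :
    (((Finset.range W₀ ×ˢ Finset.range (X / (M * l) + 1)).filter (fun bi =>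
      ∃ e, e < M ∧ θ < |(nb W₀ X l bi.1 (M * bi.2 + e) : ℝ) - (nb W₀ X (M * l) bi.1 bi.2 : ℝ) / M|)).card : ℝ)
      ≤ (Es W₀ X l - Es W₀ X (M * l) / M) / θ ^ 2 := by
  classical
  rw [le_div_iff₀ (by positivity), ← energy_increment W₀ X l M hM hl]
  set x : ℕ → ℕ → ℕ → ℝ := fun b i e =>
    (nb W₀ X l b (M * i + e) : ℝ) - (nb W₀ X (M * l) b i : ℝ) / M with hx
  set A := Finset.range W₀ ×ˢ Finset.range (X / (M * l) + 1) with hA
  set E := A.filter (fun bi => ∃ e, e < M ∧ θ < |x bi.1 bi.2 e|) with hE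
  have h1 : ∀ bi ∈ E, θ ^ 2 ≤ ∑ e ∈ Finset.range M, (x bi.1 bi.2 e) ^ 2 := by
    intro bi hbi
    obtain ⟨e, he, hlt⟩ := (Finset.mem_filter.1 hbi).2
    calc θ ^ 2 ≤ |x bi.1 bi.2 e| ^ 2 := by gcongr
      _ = (x bi.1 bi.2 e) ^ 2 := sq_abs _
      _ ≤ ∑ e ∈ Finset.range M, (x bi.1 bi.2 e) ^ 2 :=
          Finset.single_le_sum (f := fun e => (x bi.1 bi.2 e) ^ 2) (fun _ _ => sq_nonneg _)
            (Finset.mem_range.2 he)
  calc (E.card : ℝ) * θ ^ 2 = ∑ bi ∈ E, θ ^ 2 := by rw [Finset.sum_const, nsmul_eq_mul]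
    _ ≤ ∑ bi ∈ E, ∑ e ∈ Finset.range M, (x bi.1 bi.2 e) ^ 2 := Finset.sum_le_sum h1
    _ ≤ ∑ bi ∈ A, ∑ e ∈ Finset.range M, (x bi.1 bi.2 e) ^ 2 :=
        Finset.sum_le_sum_of_subset_of_nonneg (Finset.filter_subset _ _)
          (fun _ _ _ => Finset.sum_nonneg fun _ _ => sq_nonneg _)
    _ = _ := by rw [hA, Finset.sum_product]

end Pool.Agent.Lib.MP_bae66e_nt.LP
end
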