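import Pool.Agent.Lib.MP_bae66e_nt.Mg.G070

section

/-!
# LP/S2c: uniformly rich cells

`s = M l` is the length of the cells, `l` the length of the subcells.
-/

set_option autoImplicit false

open Finset Filter Topology

namespace Pool.Agent.Lib.MP_bae66e_nt.LP

open Pool.Agent.Lib.MP_bae66e_nt.LL

/-- **Uniformly rich pairs.** Let `K` be the constant of `Es_le`, let the hypotheses of `rich_pairs` hold
for `s = M l`, and let `5 X/log X ≤ K (W₀/φ)² (l/W₀) X/(log X)²` (i.e. `l/log X` is large). If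
`Es l - Es s / M ≤ δ₀ l (W₀/φ)²/W₀ · X/(log X)²` with `δ₀ ≤ φ(W₀)²/(W₀² 10^7 K M)`,
then the number of pairs `(b, i) ∈ cells` such that `nb l (M i + e) ≥ l/(80 φ(W₀) log X)` for all
`e < M` is at least `(1/(400 K)) (φ(W₀)²/W₀) X/s`.

PROOF. `rich_pairs` with `B = 2 K (W₀/φ)² (s/W₀) X/(log X)²` (`Es_le`; the first term is at most the
second one): `#rich ≥ (X/(10 log X))²/B = (1/(200 K)) (φ²/W₀) (X/s)`. `card_exceptional_le` with
`θ = l/(80 φ log X)` (half of `τ/M`): the number of exceptional pairs is at most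
`δ₀ l ((W₀/φ)²/W₀) (X/log² X) (80 φ log X/l)² = 6400 δ₀ W₀ X/l = 6400 δ₀ W₀ M X/s
≤ (1/(400 K)) (φ²/W₀) X/s`. A rich pair which is not exceptional has
`nb l (M i + e) ≥ τ/M - θ = θ` for all `e < M`. -/
theorem uniformly_rich (K : ℝ) (hK1 : 1 ≤ K)
    (hK : ∀ W₀ X s : ℕ, 1 ≤ W₀ → 16 ≤ X → 1 ≤ s → Es W₀ X s ≤ 5 * X / Real.log X
      + K * ((W₀ : ℝ) / (Nat.totient W₀ : ℝ)) ^ 2 * ((s : ℝ) / W₀) * (X / (Real.log X) ^ 2))
    (W₀ X l M : ℕ) (hW : 1 ≤ W₀) (hX : 16 ≤ X) (hl : 1 ≤ l) (hM : 1 ≤ M) (hsX : M * l ≤ X)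
    (hWX : (X : ℝ) / (5 * Real.log X) ≤ (X : ℝ) / (4 * Real.log X) - W₀)
    (hlX : 5 * (X : ℝ) / Real.log X
      ≤ K * ((W₀ : ℝ) / (Nat.totient W₀ : ℝ)) ^ 2 * ((l : ℝ) / W₀) * (X / (Real.log X) ^ 2))
    (δ₀ : ℝ) (hδ₀ : δ₀ ≤ (Nat.totient W₀ : ℝ) ^ 2 / ((W₀ : ℝ) ^ 2 * 10 ^ 7 * K * M))
    (hinc : Es W₀ X l - Es W₀ X (M * l) / M
      ≤ δ₀ * l * (((W₀ : ℝ) / (Nat.totient W₀ : ℝ)) ^ 2 / W₀) * (X / (Real.log X) ^ 2)) :
    1 / (400 * K) * ((Nat.totient W₀ : ℝ) ^ 2 / W₀) * ((X : ℝ) / (M * l : ℕ))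
      ≤ (((cells W₀ X (M * l)).filter (fun bi => ∀ e, e < M →
        (l : ℝ) / (80 * (Nat.totient W₀ : ℝ) * Real.log X) ≤ nb W₀ X l bi.1 (M * bi.2 + e))).card : ℝ) := by
  classical
  have hs1 : 1 ≤ M * l := Nat.one_le_iff_ne_zero.2 (Nat.mul_ne_zero (by omega) (by omega))
  have hW0 : (0 : ℝ) < W₀ := by exact_mod_cast hW
  have hl0 : (0 : ℝ) < l := by exact_mod_cast hl
  have hM0 : (0 : ℝ) < M := by exact_mod_cast hM
  have hM1 : (1 : ℝ) ≤ M := by exact_mod_cast hM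
  have hX16 : (16 : ℝ) ≤ X := by exact_mod_cast hX
  have hX0 : (0 : ℝ) < X := by linarith
  have hK0 : (0 : ℝ) < K := by linarith
  have hφ : (0 : ℝ) < (Nat.totient W₀ : ℝ) := by
    exact_mod_cast Nat.totient_pos.2 (show 0 < W₀ by omega)
  have hL : 0 < Real.log X := Real.log_pos (by linarith)
  have hs0 : (0 : ℝ) < ((M * l : ℕ) : ℝ) := by exact_mod_cast hs1
  have hsM : ((M * l : ℕ) : ℝ) = M * l := by push_cast; ring
  -- the rich pairs
  have hB : Es W₀ X (M * l) ≤ 2 * K * ((W₀ : ℝ) / (Nat.totient W₀ : ℝ)) ^ 2 *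
      (((M * l : ℕ) : ℝ) / W₀) * (X / (Real.log X) ^ 2) := by
    have h1 := hK W₀ X (M * l) hW hX hs1
    have h2 : K * ((W₀ : ℝ) / (Nat.totient W₀ : ℝ)) ^ 2 * ((l : ℝ) / W₀) * (X / (Real.log X) ^ 2) ≤
        K * ((W₀ : ℝ) / (Nat.totient W₀ : ℝ)) ^ 2 * (((M * l : ℕ) : ℝ) / W₀) *
          (X / (Real.log X) ^ 2) := by
      refine mul_le_mul_of_nonneg_right (mul_le_mul_of_nonneg_left ?_ (by positivity))
        (by positivity)
      refine div_le_div_of_nonneg_right ?_ hW0.le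
      rw [hsM]
      nlinarith
    linarith
  have h1 := rich_pairs W₀ X (M * l) hW hX hs1 hsX hWX _ hB
  have h2 := card_exceptional_le W₀ X l M hM hl
    ((l : ℝ) / (80 * (Nat.totient W₀ : ℝ) * Real.log X)) (by positivity)
  have h3 : ((cells W₀ X (M * l)).filter (fun bi =>
      ((M * l : ℕ) : ℝ) / (40 * (Nat.totient W₀ : ℝ) * Real.log X) ≤
        nb W₀ X (M * l) bi.1 bi.2)).card ≤
      ((cells W₀ X (M * l)).filter (fun bi => ∀ e, e < M →
        (l : ℝ) / (80 * (Nat.totient W₀ : ℝ) * Real.log X) ≤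
          nb W₀ X l bi.1 (M * bi.2 + e))).card +
      ((Finset.range W₀ ×ˢ Finset.range (X / (M * l) + 1)).filter (fun bi =>
        ∃ e, e < M ∧ (l : ℝ) / (80 * (Nat.totient W₀ : ℝ) * Real.log X) <
          |(nb W₀ X l bi.1 (M * bi.2 + e) : ℝ) - (nb W₀ X (M * l) bi.1 bi.2 : ℝ) / M|)).card := by
    refine (Finset.card_le_card ?_).trans (Finset.card_union_le _ _)
    intro bi hbi
    rw [Finset.mem_filter] at hbi
    rw [Finset.mem_union, Finset.mem_filter, Finset.mem_filter]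
    by_cases h4 : ∃ e, e < M ∧ (l : ℝ) / (80 * (Nat.totient W₀ : ℝ) * Real.log X) <
        |(nb W₀ X l bi.1 (M * bi.2 + e) : ℝ) - (nb W₀ X (M * l) bi.1 bi.2 : ℝ) / M|
    · right
      refine ⟨?_, h4⟩
      have h5 := hbi.1
      rw [cells, Finset.mem_product, Finset.mem_filter] at h5
      exact Finset.mem_product.2 ⟨h5.1.1, h5.2⟩
    · left
      refine ⟨hbi.1, fun e he => ?_⟩
      push Not at h4
      have h5 := (abs_le.1 (h4 e he)).1
      have h6 : (l : ℝ) / (40 * (Nat.totient W₀ : ℝ) * Real.log X) ≤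
          (nb W₀ X (M * l) bi.1 bi.2 : ℝ) / M := by
        rw [le_div_iff₀ hM0]
        refine le_trans (le_of_eq ?_) hbi.2
        rw [hsM]
        ring
      have h7 : (l : ℝ) / (40 * (Nat.totient W₀ : ℝ) * Real.log X) =
          2 * ((l : ℝ) / (80 * (Nat.totient W₀ : ℝ) * Real.log X)) := by
        field_simp
        ring
      linarith
  have h3' : (((cells W₀ X (M * l)).filter (fun bi =>
      ((M * l : ℕ) : ℝ) / (40 * (Nat.totient W₀ : ℝ) * Real.log X) ≤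
        nb W₀ X (M * l) bi.1 bi.2)).card : ℝ) ≤
      (((cells W₀ X (M * l)).filter (fun bi => ∀ e, e < M →
        (l : ℝ) / (80 * (Nat.totient W₀ : ℝ) * Real.log X) ≤
          nb W₀ X l bi.1 (M * bi.2 + e))).card : ℝ) +
      (((Finset.range W₀ ×ˢ Finset.range (X / (M * l) + 1)).filter (fun bi =>
        ∃ e, e < M ∧ (l : ℝ) / (80 * (Nat.totient W₀ : ℝ) * Real.log X) <
          |(nb W₀ X l bi.1 (M * bi.2 + e) : ℝ) -
            (nb W₀ X (M * l) bi.1 bi.2 : ℝ) / M|)).card : ℝ) := by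
    exact_mod_cast h3
  generalize (((cells W₀ X (M * l)).filter (fun bi =>
      ((M * l : ℕ) : ℝ) / (40 * (Nat.totient W₀ : ℝ) * Real.log X) ≤
        nb W₀ X (M * l) bi.1 bi.2)).card : ℝ) = a at h1 h3'
  generalize (((Finset.range W₀ ×ˢ Finset.range (X / (M * l) + 1)).filter (fun bi =>
        ∃ e, e < M ∧ (l : ℝ) / (80 * (Nat.totient W₀ : ℝ) * Real.log X) <
          |(nb W₀ X l bi.1 (M * bi.2 + e) : ℝ) -
            (nb W₀ X (M * l) bi.1 bi.2 : ℝ) / M|)).card : ℝ) = c at h2 h3'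
  generalize (((cells W₀ X (M * l)).filter (fun bi => ∀ e, e < M →
        (l : ℝ) / (80 * (Nat.totient W₀ : ℝ) * Real.log X) ≤
          nb W₀ X l bi.1 (M * bi.2 + e))).card : ℝ) = g at h3' ⊢
  have ha : 1 / (200 * K) * ((Nat.totient W₀ : ℝ) ^ 2 / W₀) * ((X : ℝ) / (M * l : ℕ)) ≤ a := by
    have h4 : (0 : ℝ) < 2 * K * ((W₀ : ℝ) / (Nat.totient W₀ : ℝ)) ^ 2 *
      (((M * l : ℕ) : ℝ) / W₀) * (X / (Real.log X) ^ 2) := by positivity
    refine le_of_mul_le_mul_left (le_trans (le_of_eq ?_) h1) h4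
    field_simp
    ring
  have hc : c ≤ 1 / (400 * K) * ((Nat.totient W₀ : ℝ) ^ 2 / W₀) * ((X : ℝ) / (M * l : ℕ)) := by
    have h4 : c ≤ (δ₀ * l * (((W₀ : ℝ) / (Nat.totient W₀ : ℝ)) ^ 2 / W₀) *
        (X / (Real.log X) ^ 2)) / ((l : ℝ) / (80 * (Nat.totient W₀ : ℝ) * Real.log X)) ^ 2 :=
      h2.trans (div_le_div_of_nonneg_right hinc (by positivity))
    have h5 : (δ₀ * l * (((W₀ : ℝ) / (Nat.totient W₀ : ℝ)) ^ 2 / W₀) *
        (X / (Real.log X) ^ 2)) / ((l : ℝ) / (80 * (Nat.totient W₀ : ℝ) * Real.log X)) ^ 2 =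
        δ₀ * (6400 * W₀ * X / l) := by
      field_simp
      ring
    rw [h5] at h4
    have h6 : δ₀ * (6400 * W₀ * X / l) ≤
        (Nat.totient W₀ : ℝ) ^ 2 / ((W₀ : ℝ) ^ 2 * 10 ^ 7 * K * M) * (6400 * W₀ * X / l) :=
      mul_le_mul_of_nonneg_right hδ₀ (by positivity)
    have h7 : (Nat.totient W₀ : ℝ) ^ 2 / ((W₀ : ℝ) ^ 2 * 10 ^ 7 * K * M) * (6400 * W₀ * X / l) =
        (6400 / 10 ^ 7) * (1 / K * ((Nat.totient W₀ : ℝ) ^ 2 / W₀) * ((X : ℝ) / (M * l : ℕ))) := by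
      rw [hsM]
      field_simp
    have h8 : (6400 / 10 ^ 7) * (1 / K * ((Nat.totient W₀ : ℝ) ^ 2 / W₀) *
        ((X : ℝ) / (M * l : ℕ))) ≤ (1 / 400) * (1 / K * ((Nat.totient W₀ : ℝ) ^ 2 / W₀) *
        ((X : ℝ) / (M * l : ℕ))) :=
      mul_le_mul_of_nonneg_right (by norm_num) (by positivity)
    have h9 : (1 / 400) * (1 / K * ((Nat.totient W₀ : ℝ) ^ 2 / W₀) * ((X : ℝ) / (M * l : ℕ))) =
        1 / (400 * K) * ((Nat.totient W₀ : ℝ) ^ 2 / W₀) * ((X : ℝ) / (M * l : ℕ)) := by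
      field_simp
    linarith
  have hsum : 1 / (200 * K) * ((Nat.totient W₀ : ℝ) ^ 2 / W₀) * ((X : ℝ) / (M * l : ℕ)) =
      2 * (1 / (400 * K) * ((Nat.totient W₀ : ℝ) ^ 2 / W₀) * ((X : ℝ) / (M * l : ℕ))) := by
    field_simp
    ring
  linarith

end Pool.Agent.Lib.MP_bae66e_nt.LP
end

section

end

section

/-!
# LP/S3a: many `m` for which all windows are rich
-/

set_option autoImplicit false

open Finset Filter Topology

namespace Pool.Agent.Lib.MP_bae66e_nt.LP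

open Pool.Agent.Lib.MP_bae66e_nt.LL

/-- A window in terms of subcells. Let `(b, i)` be a pair such that all subcells `M i + e`, `e < M`, of
length `l` contain at least `θ` primes of the class `b`, and let `m ≡ b - r (W₀)` be an integer with
`(M (i + 1) - 1) l < m ≤ M (i + 1) l` (the last subcell). Let `0 ≤ u < v` with `v - u ≥ 2 l + 1` and
`v ≤ (M - 1) l`. Then the number of primes `q ≤ X`, `u < m - q ≤ v`, `W₀ ∣ m + r - q`, is at least `θ`.

PROOF. The integers `q` with `u < m - q ≤ v` are those of `[m - v, m - u - 1]`; this interval has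
`v - u ≥ 2 l + 1` elements and is contained in `(M i l, M (i + 1) l]` (`m - v > (M(i+1) - 1) l - (M - 1) l =
M i l`), so it contains a full subcell `(j l, (j + 1) l]`, `M i ≤ j < M (i + 1)`: take the smallest `j`
with `j l + 1 ≥ m - v`. The primes `q ≡ b` of this subcell satisfy `q % W₀ = b`, and
`m + r ≡ b ≡ q (W₀)`. -/
lemma window_ge (W₀ X l M b i : ℕ) (hW : 1 ≤ W₀) (hl : 1 ≤ l) (hM : 1 ≤ M) (θ : ℝ)
    (hθ : ∀ e, e < M → θ ≤ nb W₀ X l b (M * i + e)) (r m : ℤ)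
    (hm : (W₀ : ℤ) ∣ m + r - b) (hm1 : (((M * (i + 1) - 1) * l : ℕ) : ℤ) < m)
    (hm2 : m ≤ ((M * (i + 1) * l : ℕ) : ℤ)) (u v : ℕ) (huv : u + (2 * l + 1) ≤ v)
    (hv : v ≤ (M - 1) * l) :
    θ ≤ (((QQ 0 X).filter (fun q : ℕ => ((u : ℤ) < m - q ∧ m - q ≤ (v : ℤ)) ∧
      (W₀ : ℤ) ∣ m + r - q)).card : ℝ) := by
  have hm0 : 0 ≤ m := le_of_lt (lt_of_le_of_lt (Int.natCast_nonneg _) hm1)
  obtain ⟨mN, rfl⟩ := Int.eq_ofNat_of_zero_le hm0
  have hm1' : (M * (i + 1) - 1) * l < mN := by exact_mod_cast hm1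
  have hm2' : mN ≤ M * (i + 1) * l := by exact_mod_cast hm2
  have e1 : M * (i + 1) - 1 = M * i + (M - 1) := by
    have : M * (i + 1) = M * i + M := by ring
    omega
  rw [e1, Nat.add_mul] at hm1'
  have e2 : M * (i + 1) * l = M * i * l + M * l := by ring
  rw [e2] at hm2'
  -- the subcell
  obtain ⟨p, hp⟩ : ∃ p : ℕ, mN = p + v + 1 := ⟨mN - v - 1, by omega⟩
  have hdm := Nat.div_add_mod (p + l - 1) l
  have hmod := Nat.mod_lt (p + l - 1) (by omega : l > 0)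
  obtain ⟨j, hj⟩ : ∃ j : ℕ, j = (p + l - 1) / l := ⟨_, rfl⟩
  rw [← hj, mul_comm l j] at hdm
  have hj1 : p ≤ j * l := by omega
  have hj2 : j * l ≤ p + l - 1 := by omega
  have hj3 : M * i ≤ j := by
    have h1 : M * i * l ≤ j * l := by omega
    exact Nat.le_of_mul_le_mul_right h1 (by omega)
  have hj5 : (j + 1) * l = j * l + l := by ring
  have hj4 : j < M * i + M := by
    have h1 : (j + 1) * l < (M * i + M) * l := by
      have h2 : (M * i + M) * l = M * i * l + M * l := by ring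
      omega
    have h3 := Nat.lt_of_mul_lt_mul_right h1
    omega
  obtain ⟨e, rfl⟩ : ∃ e : ℕ, j = M * i + e := ⟨j - M * i, by omega⟩
  refine (hθ e (by omega)).trans ?_
  have hcard : nb W₀ X l b (M * i + e) ≤ ((QQ 0 X).filter (fun q : ℕ =>
      ((u : ℤ) < (mN : ℤ) - q ∧ (mN : ℤ) - q ≤ (v : ℤ)) ∧ (W₀ : ℤ) ∣ (mN : ℤ) + r - q)).card := by
    unfold nb
    apply Finset.card_le_card
    intro q hq
    rw [Finset.mem_filter] at hq ⊢
    obtain ⟨hq0, hq1, hq2, hq3⟩ := hq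
    refine ⟨hq0, ⟨?_, ?_⟩, ?_⟩
    · omega
    · omega
    · have h1 : (W₀ : ℤ) ∣ (q : ℤ) - b := by
        refine ⟨(q / W₀ : ℕ), ?_⟩
        have h2 := Nat.div_add_mod q W₀
        rw [hq3] at h2
        have h3 : ((W₀ * (q / W₀) + b : ℕ) : ℤ) = (q : ℤ) := by exact_mod_cast h2
        push_cast at h3 ⊢
        linarith
      have h4 : (mN : ℤ) + r - q = ((mN : ℤ) + r - b) - ((q : ℤ) - b) := by ring
      rw [h4]
      exact dvd_sub hm h1
  exact_mod_cast hcard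

end Pool.Agent.Lib.MP_bae66e_nt.LP
end

section

/-!
# LP/S3b: many `m` for which all windows are rich
-/

set_option autoImplicit false

open Finset Filter Topology

namespace Pool.Agent.Lib.MP_bae66e_nt.LP

open Pool.Agent.Lib.MP_bae66e_nt.LL

private lemma S3b_count (W l : ℕ) (hW : 1 ≤ W) (c b : ℤ) :
    (l : ℝ) / W - 1 ≤ (((Finset.Ioc c (c + l)).filter (fun m : ℤ => (W : ℤ) ∣ m - b)).card : ℝ) := by
  have hWpos : (0 : ℤ) < W := by exact_mod_cast hW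
  have hWr : (0 : ℝ) < W := by exact_mod_cast hW
  -- the numbers `b + W * k` with `k` in an interval
  set u : ℤ := (c - b) / W with hu
  set v : ℤ := (c + l - b) / W with hv
  have h1 : (Finset.Ioc u v).image (fun k => b + W * k) ⊆
      (Finset.Ioc c (c + l)).filter (fun m : ℤ => (W : ℤ) ∣ m - b) := by
    intro m hm
    rw [Finset.mem_image] at hm
    obtain ⟨k, hk, rfl⟩ := hm
    rw [Finset.mem_Ioc] at hk
    rw [Finset.mem_filter, Finset.mem_Ioc]
    refine ⟨⟨?_, ?_⟩, ⟨k, by ring⟩⟩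
    · have h2 : (c - b) < W * k := by
        have := (Int.ediv_lt_iff_lt_mul hWpos).1 hk.1
        linarith [mul_comm (W : ℤ) k]
      linarith
    · have h2 : k * W ≤ c + l - b := (Int.le_ediv_iff_mul_le hWpos).1 hk.2
      linarith [mul_comm (W : ℤ) k]
  have h2 := Finset.card_le_card h1
  rw [Finset.card_image_of_injective _ (by
    intro x y hxy
    have h3 : (W : ℤ) * x = W * y := by simpa using hxy
    exact mul_left_cancel₀ hWpos.ne' h3), Int.card_Ioc] at h2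
  have h3 : ((v - u : ℤ) : ℝ) ≤ (((Finset.Ioc c (c + l)).filter (fun m : ℤ => (W : ℤ) ∣ m - b)).card : ℝ) := by
    have h4 : v - u ≤ ((v - u).toNat : ℤ) := Int.self_le_toNat _
    have h5 : ((v - u).toNat : ℤ) ≤ (((Finset.Ioc c (c + l)).filter
      (fun m : ℤ => (W : ℤ) ∣ m - b)).card : ℤ) := by exact_mod_cast h2
    exact_mod_cast h4.trans h5
  refine le_trans ?_ h3
  have h6 : (W : ℤ) * v + (c + l - b) % W = c + l - b := Int.mul_ediv_add_emod _ _
  have h7 : (W : ℤ) * u + (c - b) % W = c - b := Int.mul_ediv_add_emod _ _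
  have h8 := Int.emod_lt_of_pos (c + l - b) hWpos
  have h9 := Int.emod_nonneg (c - b) hWpos.ne'
  have h10 : (l : ℤ) - W ≤ W * (v - u) := by
    have : (W : ℤ) * (v - u) = W * v - W * u := by ring
    rw [this]
    linarith
  have h11 : ((l : ℝ) - W) ≤ W * ((v - u : ℤ) : ℝ) := by exact_mod_cast h10
  rw [div_sub_one hWr.ne', div_le_iff₀ hWr]
  linarith

/-- Counting the `m`. Let `P` be a set of pairs `(b, i)` with `b < W₀`, `i < X/(M l)`, and let `Z` be a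
set of integers which contains, for every `(b, i) ∈ P`, all `m ≡ b - r (W₀)` of the last subcell
`((M (i + 1) - 1) l, M (i + 1) l]`. Then `#Z ≥ #P (l/W₀ - 1)`.

PROOF. Every interval of length `l` contains at least `l/W₀ - 1` integers of a class modulo `W₀`; the
sets of different pairs are disjoint (different cells are disjoint, and `m` determines `b` modulo `W₀`). -/
lemma card_ge_of_pairs (W₀ l M : ℕ) (hW : 1 ≤ W₀) (hl : 1 ≤ l) (hM : 1 ≤ M) (r : ℤ)
    (P : Finset (ℕ × ℕ)) (hP : ∀ bi ∈ P, bi.1 < W₀) (Z : Finset ℤ)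
    (hZ : ∀ bi ∈ P, ∀ m : ℤ, (W₀ : ℤ) ∣ m + r - bi.1 → (((M * (bi.2 + 1) - 1) * l : ℕ) : ℤ) < m →
      m ≤ ((M * (bi.2 + 1) * l : ℕ) : ℤ) → m ∈ Z) :
    (P.card : ℝ) * ((l : ℝ) / W₀ - 1) ≤ Z.card := by
  classical
  set A : ℕ × ℕ → Finset ℤ := fun bi =>
    (Finset.Ioc (((M * (bi.2 + 1) - 1) * l : ℕ) : ℤ) ((((M * (bi.2 + 1) - 1) * l : ℕ) : ℤ) + l)).filter
      (fun m : ℤ => (W₀ : ℤ) ∣ m - ((bi.1 : ℤ) - r)) with hA
  have hend : ∀ i : ℕ, (((M * (i + 1) - 1) * l : ℕ) : ℤ) + l = ((M * (i + 1) * l : ℕ) : ℤ) := by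
    intro i
    have h1 : 1 ≤ M * (i + 1) := Nat.mul_pos hM (Nat.succ_pos i)
    have h2 : (M * (i + 1) - 1) * l + l = M * (i + 1) * l := by
      obtain ⟨n, hn⟩ := Nat.exists_eq_add_of_le h1
      rw [hn, Nat.add_sub_cancel_left]
      ring
    exact_mod_cast h2
  have hAsub : ∀ bi ∈ P, A bi ⊆ Z := by
    intro bi hbi m hm
    rw [hA, Finset.mem_filter, Finset.mem_Ioc] at hm
    obtain ⟨⟨h1, h2⟩, h3⟩ := hm
    rw [hend] at h2
    refine hZ bi hbi m ?_ h1 h2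
    have h4 : m + r - bi.1 = m - ((bi.1 : ℤ) - r) := by ring
    rw [h4]
    exact h3
  have hdis : (P : Set (ℕ × ℕ)).PairwiseDisjoint A := by
    intro x hx y hy hxy
    rw [Function.onFun, Finset.disjoint_left]
    intro m hmx hmy
    rw [hA, Finset.mem_filter, Finset.mem_Ioc] at hmx hmy
    obtain ⟨⟨h1, h2⟩, h3⟩ := hmx
    obtain ⟨⟨h4, h5⟩, h6⟩ := hmy
    apply hxy
    have hlz : (1 : ℤ) ≤ l := by exact_mod_cast hl
    have hMz : (1 : ℤ) ≤ M := by exact_mod_cast hM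
    have hsnd : x.2 = y.2 := by
      rw [hend] at h2 h5
      by_contra hne
      rcases lt_or_gt_of_ne hne with h | h
      · have h7 : M * (x.2 + 1) * l ≤ (M * (y.2 + 1) - 1) * l := by
          apply Nat.mul_le_mul_right
          have h8 : M * (x.2 + 1) + M ≤ M * (y.2 + 1) := by
            calc M * (x.2 + 1) + M = M * (x.2 + 1 + 1) := by ring
              _ ≤ M * (y.2 + 1) := Nat.mul_le_mul_left M (by omega)
          omega
        have h8 : ((M * (x.2 + 1) * l : ℕ) : ℤ) ≤ (((M * (y.2 + 1) - 1) * l : ℕ) : ℤ) := by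
          exact_mod_cast h7
        linarith
      · have h7 : M * (y.2 + 1) * l ≤ (M * (x.2 + 1) - 1) * l := by
          apply Nat.mul_le_mul_right
          have h8 : M * (y.2 + 1) + M ≤ M * (x.2 + 1) := by
            calc M * (y.2 + 1) + M = M * (y.2 + 1 + 1) := by ring
              _ ≤ M * (x.2 + 1) := Nat.mul_le_mul_left M (by omega)
          omega
        have h8 : ((M * (y.2 + 1) * l : ℕ) : ℤ) ≤ (((M * (x.2 + 1) - 1) * l : ℕ) : ℤ) := by
          exact_mod_cast h7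
        linarith
    have hfst : x.1 = y.1 := by
      have h7 : (W₀ : ℤ) ∣ (x.1 : ℤ) - y.1 := by
        have h8 := dvd_sub h6 h3
        have h9 : m - ((y.1 : ℤ) - r) - (m - ((x.1 : ℤ) - r)) = (x.1 : ℤ) - y.1 := by ring
        rwa [h9] at h8
      have h8 := hP x hx
      have h9 := hP y hy
      have h10 : (x.1 : ℤ) - y.1 = 0 := by
        apply Int.eq_zero_of_abs_lt_dvd h7
        rw [abs_lt]
        constructor <;> omega
      omega
    exact Prod.ext hfst hsnd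
  have h1 : (P.biUnion A).card ≤ Z.card :=
    Finset.card_le_card (Finset.biUnion_subset.2 hAsub)
  rw [Finset.card_biUnion hdis] at h1
  calc (P.card : ℝ) * ((l : ℝ) / W₀ - 1) = ∑ _bi ∈ P, ((l : ℝ) / W₀ - 1) := by
        rw [Finset.sum_const, nsmul_eq_mul]
    _ ≤ ∑ bi ∈ P, ((A bi).card : ℝ) := Finset.sum_le_sum fun bi _ => S3b_count W₀ l hW _ _
    _ ≤ Z.card := by exact_mod_cast h1

end Pool.Agent.Lib.MP_bae66e_nt.LP
end
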