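import Pool.Agent.Lib.MP_bae66e_nt.Mg.G074
import Pool.Agent.Lib.MP_bae66e_nt.Mg.G075
import Pool.Agent.Lib.MP_bae66e_nt.LL.N.N06

section

/-!
# N04: exchange of the two integrals
-/

set_option autoImplicit false

open Finset Filter Topology MeasureTheory Complex

namespace Pool.Agent.Lib.MP_bae66e_nt.LL

/-- For bounded measurable `g` and `δ > 0`:
`∫_{-L}^{L} (1 - |t|/L) e^{itv} (∫_0^∞ g(u) e^{-(δ + it)u} du) dt = ∫_0^∞ g(u) e^{-δu} L fej(L(v - u)) du`.

PROOF. Fubini (`intervalIntegral_integral_swap`-type lemma or `MeasureTheory.integral_integral_swap`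
for the product of the restricted measures): the integrand
`(1 - |t|/L) e^{itv} g(u) e^{-(δ+it)u}` has norm `≤ B e^{-δu}` on `[-L, L] × (0, ∞)`, which is
integrable for the product measure, and it is measurable. The inner integral over `t` is
`g(u) e^{-δu} ∫_{-L}^{L} (1 - |t|/L) e^{it(v-u)} dt = g(u) e^{-δu} L fej(L (v - u))` (`fej_complex`). -/
lemma exchange (g : ℝ → ℝ) (hg : Measurable g) (B : ℝ) (hB : ∀ u, |g u| ≤ B) (δ L v : ℝ)
    (hδ : 0 < δ) (hL : 0 < L) :
    ∫ t in (-L)..L, ((1 - |t| / L : ℝ) : ℂ) * Complex.exp (((t * v : ℝ) : ℂ) * I) *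
        (∫ u in Set.Ioi (0 : ℝ), (g u : ℂ) * Complex.exp (-(δ + t * I) * (u : ℂ)))
      = ((∫ u in Set.Ioi (0 : ℝ), g u * Real.exp (-δ * u) * (L * fej (L * (v - u))) : ℝ) : ℂ) := by
  set F : ℝ → ℝ → ℂ := fun t u => ((1 - |t| / L : ℝ) : ℂ) *
    Complex.exp (((t * v : ℝ) : ℂ) * I) * ((g u : ℂ) * Complex.exp (-(δ + t * I) * (u : ℂ)))
    with hF
  have hlhs : ∫ t in (-L)..L, ((1 - |t| / L : ℝ) : ℂ) * Complex.exp (((t * v : ℝ) : ℂ) * I) *
        (∫ u in Set.Ioi (0 : ℝ), (g u : ℂ) * Complex.exp (-(δ + t * I) * (u : ℂ))) =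
      ∫ t in (-L)..L, ∫ u in Set.Ioi (0 : ℝ), F t u := by
    congr 1
    funext t
    rw [hF]
    exact (integral_const_mul _ _).symm
  have hδ' : -δ < 0 := by linarith
  have ha : Integrable (fun t : ℝ => ((1 - |t| / L : ℝ) : ℂ) *
      Complex.exp (((t * v : ℝ) : ℂ) * I)) (volume.restrict (Set.uIoc (-L) L)) := by
    have hc : Continuous (fun t : ℝ => ((1 - |t| / L : ℝ) : ℂ) *
        Complex.exp (((t * v : ℝ) : ℂ) * I)) := by
      apply Continuous.mul
      · exact Complex.continuous_ofReal.comp (by fun_prop)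
      · exact Complex.continuous_exp.comp ((Complex.continuous_ofReal.comp
          (by fun_prop)).mul continuous_const)
    exact intervalIntegrable_iff.mp (hc.intervalIntegrable (-L) L)
  have hb : Integrable (fun u : ℝ => (g u : ℂ) * Complex.exp (-δ * (u : ℂ)))
      (volume.restrict (Set.Ioi (0 : ℝ))) := by
    apply Integrable.bdd_mul (c := B)
    · exact integrableOn_exp_mul_complex_Ioi (by simpa using hδ) 0
    · exact (Complex.measurable_ofReal.comp hg).aestronglyMeasurable
    · filter_upwards with u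
      rw [Complex.norm_real]
      exact hB u
  have hint : Integrable (Function.uncurry F)
      ((volume.restrict (Set.uIoc (-L) L)).prod (volume.restrict (Set.Ioi (0 : ℝ)))) := by
    have h1 := ha.mul_prod hb
    have hcont : Continuous (fun z : ℝ × ℝ => Complex.exp (((-(z.1 * z.2) : ℝ) : ℂ) * I)) :=
      Complex.continuous_exp.comp ((Complex.continuous_ofReal.comp
        (by fun_prop)).mul continuous_const)
    have h2 := h1.bdd_mul (c := 1) hcont.aestronglyMeasurable (by
      filter_upwards with z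
      rw [Complex.norm_exp_ofReal_mul_I])
    refine h2.congr ?_
    filter_upwards with z
    simp only [hF, Function.uncurry]
    have e1 : Complex.exp (-((δ : ℂ) + z.1 * I) * (z.2 : ℂ)) =
        Complex.exp (((-(z.1 * z.2) : ℝ) : ℂ) * I) * Complex.exp (-δ * (z.2 : ℂ)) := by
      rw [← Complex.exp_add]
      congr 1
      push_cast
      ring
    rw [e1]
    ring
  rw [hlhs, intervalIntegral_integral_swap hint, ← integral_complex_ofReal]
  congr 1
  funext u
  have e2 : ∀ t : ℝ, F t u = ((g u * Real.exp (-δ * u) : ℝ) : ℂ) *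
      (((1 - |t| / L : ℝ) : ℂ) * Complex.exp (((t * (v - u) : ℝ) : ℂ) * I)) := by
    intro t
    simp only [hF]
    have e3 : Complex.exp (((t * v : ℝ) : ℂ) * I) * Complex.exp (-((δ : ℂ) + t * I) * (u : ℂ)) =
        Complex.exp (-δ * (u : ℂ)) * Complex.exp (((t * (v - u) : ℝ) : ℂ) * I) := by
      rw [← Complex.exp_add, ← Complex.exp_add]
      congr 1
      push_cast
      ring
    calc _ = ((1 - |t| / L : ℝ) : ℂ) * (g u : ℂ) * (Complex.exp (((t * v : ℝ) : ℂ) * I) *
          Complex.exp (-((δ : ℂ) + t * I) * (u : ℂ))) := by ring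
      _ = _ := by
        rw [e3]
        push_cast
        ring
  simp only [e2]
  rw [intervalIntegral.integral_const_mul, fej_complex L (v - u) hL]
  push_cast
  ring

end Pool.Agent.Lib.MP_bae66e_nt.LL
end

section

/-!
# N05: the limit `δ → 0` on the side of the kernel, and the mass of the kernel
-/

set_option autoImplicit false

open Finset Filter Topology MeasureTheory

namespace Pool.Agent.Lib.MP_bae66e_nt.LL

/-- `u ↦ L fej(L (v - u))` is integrable and its integral is `∫ fej` (substitution). -/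
lemma kernel_integrable (L v : ℝ) (hL : 0 < L) : Integrable (fun u => L * fej (L * (v - u))) := by
  have h1 : Integrable (fun u => fej (L * u)) := fej_integrable.comp_mul_left' hL.ne'
  exact (h1.comp_sub_left v).const_mul L

lemma kernel_integral (L v : ℝ) (hL : 0 < L) :
    ∫ u, L * fej (L * (v - u)) = ∫ x, fej x := by
  have h1 : ∫ u, L * fej (L * (v - u)) = ∫ u, L * fej (L * u) :=
    integral_sub_left_eq_self (fun u => L * fej (L * u)) volume v
  rw [h1, integral_const_mul, Measure.integral_comp_mul_left, abs_of_pos (inv_pos.2 hL),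
    smul_eq_mul, ← mul_assoc, mul_inv_cancel₀ hL.ne', one_mul]

/-- Dominated convergence, dominating function `B * (L fej(L (v - u)))`. -/
lemma kernel_limit (g : ℝ → ℝ) (hg : Measurable g) (B : ℝ) (hB : ∀ u, |g u| ≤ B) (L v : ℝ)
    (hL : 0 < L) :
    Tendsto (fun δ : ℝ => ∫ u in Set.Ioi (0 : ℝ), g u * Real.exp (-δ * u) * (L * fej (L * (v - u))))
      (𝓝[>] 0) (𝓝 (∫ u in Set.Ioi (0 : ℝ), g u * (L * fej (L * (v - u))))) := by
  have hB0 : 0 ≤ B := (abs_nonneg _).trans (hB 0)
  have hk : Measurable (fun u => L * fej (L * (v - u))) := by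
    have h1 : Continuous (fun u => L * fej (L * (v - u))) :=
      continuous_const.mul (fej_continuous.comp (by fun_prop))
    exact h1.measurable
  have hk0 : ∀ u, 0 ≤ L * fej (L * (v - u)) := fun u => mul_nonneg hL.le (fej_nonneg _)
  refine tendsto_integral_filter_of_dominated_convergence
    (fun u => B * (L * fej (L * (v - u)))) ?_ ?_ ?_ ?_
  · refine Eventually.of_forall (fun δ => ?_)
    have h2 : Measurable (fun u : ℝ => Real.exp (-δ * u)) := by fun_prop
    exact ((hg.mul h2).mul hk).aestronglyMeasurable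
  · filter_upwards [self_mem_nhdsWithin] with δ hδ
    rw [ae_restrict_iff' measurableSet_Ioi]
    refine Eventually.of_forall (fun u hu => ?_)
    have hδ0 : 0 < δ := hδ
    have hu0 : 0 < u := hu
    have h3 : Real.exp (-δ * u) ≤ 1 := by
      rw [Real.exp_le_one_iff]
      nlinarith [mul_pos hδ0 hu0]
    rw [Real.norm_eq_abs, abs_mul, abs_mul, abs_of_pos (Real.exp_pos _), abs_of_nonneg (hk0 u)]
    refine mul_le_mul_of_nonneg_right ?_ (hk0 u)
    calc |g u| * Real.exp (-δ * u) ≤ B * 1 :=
          mul_le_mul (hB u) h3 (Real.exp_pos _).le hB0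
      _ = B := mul_one B
  · exact ((kernel_integrable L v hL).const_mul B).integrableOn
  · refine Eventually.of_forall (fun u => ?_)
    have h4 : Tendsto (fun δ : ℝ => Real.exp (-δ * u)) (𝓝[>] 0) (𝓝 1) := by
      have h5 : Continuous (fun δ : ℝ => Real.exp (-δ * u)) := by fun_prop
      have h6 := h5.tendsto 0
      simp only [neg_zero, zero_mul, Real.exp_zero] at h6
      exact h6.mono_left nhdsWithin_le_nhds
    have h7 := (h4.const_mul (g u)).mul_const (L * fej (L * (v - u)))
    rw [mul_one] at h7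
    exact h7

/-- `∫_0^∞ L fej(L (v - u)) du = ∫_{-∞}^{L v} fej → ∫ fej` as `v → ∞`. -/
lemma kernel_mass (L : ℝ) (hL : 0 < L) :
    Tendsto (fun v : ℝ => ∫ u in Set.Ioi (0 : ℝ), L * fej (L * (v - u)))
      atTop (𝓝 (∫ x, fej x)) := by
  set k : ℝ → ℝ := fun y => L * fej (L * y) with hk
  have hki : Integrable k := (fej_integrable.comp_mul_left' hL.ne').const_mul L
  have hk0 : ∀ y, 0 ≤ k y := fun y => mul_nonneg hL.le (fej_nonneg _)
  have hkint : ∫ y, k y = ∫ x, fej x := by
    rw [hk, integral_const_mul, Measure.integral_comp_mul_left, abs_of_pos (inv_pos.2 hL),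
      smul_eq_mul, ← mul_assoc, mul_inv_cancel₀ hL.ne', one_mul]
  have h1 : ∀ v : ℝ, ∫ u in Set.Ioi (0 : ℝ), L * fej (L * (v - u)) =
      ∫ y, (Set.Iio v).indicator k y := by
    intro v
    rw [← integral_indicator measurableSet_Ioi,
      ← integral_sub_left_eq_self (fun y => (Set.Iio v).indicator k y) volume v]
    congr 1
    funext u
    by_cases hu : 0 < u
    · rw [Set.indicator_of_mem (show u ∈ Set.Ioi (0 : ℝ) from hu),
        Set.indicator_of_mem (show v - u ∈ Set.Iio v by simpa using hu)]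
    · rw [Set.indicator_of_notMem (show u ∉ Set.Ioi (0 : ℝ) from hu),
        Set.indicator_of_notMem (show v - u ∉ Set.Iio v by simpa using hu)]
  simp only [h1]
  rw [← hkint]
  refine tendsto_integral_filter_of_dominated_convergence k ?_ ?_ hki ?_
  · exact Eventually.of_forall (fun v => hki.aestronglyMeasurable.indicator measurableSet_Iio)
  · refine Eventually.of_forall (fun v => Eventually.of_forall (fun y => ?_))
    rw [Real.norm_eq_abs, abs_of_nonneg (Set.indicator_nonneg (fun y _ => hk0 y) y)]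
    exact Set.indicator_le_self' (fun y _ => hk0 y) y
  · refine Eventually.of_forall (fun y => ?_)
    refine tendsto_const_nhds.congr' ?_
    filter_upwards [eventually_gt_atTop y] with v hv
    rw [Set.indicator_of_mem (show y ∈ Set.Iio v from hv)]

end Pool.Agent.Lib.MP_bae66e_nt.LL
end

section

/-!
# N07: convergence of the smoothed function
-/

set_option autoImplicit false

open Finset Filter Topology MeasureTheory Complex

namespace Pool.Agent.Lib.MP_bae66e_nt.LL

/-- `∫_0^∞ fW(u) L fej(L (v - u)) du → A ∫ fej` as `v → ∞`, for every `L > 0`.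

PROOF. Put `g = fW c - A` (measurable, bounded by `C + |A|`: `fW_nonneg`, `fW_le`; note `0 ≤ C` as
`0 ≤ psum c 1 ≤ C`). For `δ > 0`, `exchange` and `transform_eq` give
`∫_{-L}^{L} (1 - |t|/L) e^{itv} (G(1+δ+it) - A)/(1+δ+it) dt = ∫_0^∞ g(u) e^{-δu} L fej(L(v-u)) du`.
Let `δ → 0+` (`transform_limit`, `kernel_limit`; limits are unique):
`∫_{-L}^{L} (1 - |t|/L) e^{itv} (G(1+it) - A)/(1+it) dt = ∫_0^∞ g(u) L fej(L(v-u)) du`.
The left-hand side tends to `0` as `v → ∞` (`riemann_lebesgue_L`). Add
`∫_0^∞ A L fej(L(v-u)) du → A ∫ fej` (`kernel_mass`). -/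
theorem smoothed_limit (c : ℕ → ℝ) (hc : ∀ n, 0 ≤ c n) (C : ℝ)
    (hC : ∀ x : ℝ, 0 ≤ x → psum c x ≤ C * x) (A : ℝ) (G : ℂ → ℂ)
    (hG : ContinuousOn G {s : ℂ | 1 ≤ s.re})
    (hL : ∀ s : ℂ, 1 < s.re → LSeries (fun n => (c n : ℂ)) s = G s + (A : ℂ) / (s - 1))
    (L : ℝ) (hLpos : 0 < L) :
    Tendsto (fun v : ℝ => ∫ u in Set.Ioi (0 : ℝ), fW c u * (L * fej (L * (v - u))))
      atTop (𝓝 (A * ∫ x, fej x)) := by
  have hC0 : 0 ≤ C := by
    have h1 := hC 1 zero_le_one
    have h2 := psum_nonneg c hc 1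
    linarith
  have hfm : Measurable (fW c) := fW_measurable c hc
  have hgm : Measurable (fun u : ℝ => fW c u - A) := hfm.sub_const A
  have hfB : ∀ u, |fW c u| ≤ C := by
    intro u
    rw [abs_of_nonneg (fW_nonneg c hc u)]
    exact fW_le c C hC u
  have hgB : ∀ u, |(fun u : ℝ => fW c u - A) u| ≤ C + |A| := by
    intro u
    exact (abs_sub _ _).trans (by linarith [hfB u])
  have hex : ∀ v δ : ℝ, 0 < δ → (∫ t in (-L)..L, ((1 - |t| / L : ℝ) : ℂ) *
        Complex.exp (((t * v : ℝ) : ℂ) * I) * ((G (1 + δ + t * I) - A) / (1 + δ + t * I))) =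
      ((∫ u in Set.Ioi (0 : ℝ), (fW c u - A) * Real.exp (-δ * u) *
        (L * fej (L * (v - u))) : ℝ) : ℂ) := by
    intro v δ hδ
    rw [← exchange (fun u : ℝ => fW c u - A) hgm _ hgB δ L v hδ hLpos]
    refine intervalIntegral.integral_congr fun t _ => ?_
    rw [transform_eq c hc C hC A G hL δ t hδ]
  have hkey : ∀ v : ℝ, (∫ t in (-L)..L, ((1 - |t| / L : ℝ) : ℂ) *
        Complex.exp (((t * v : ℝ) : ℂ) * I) * ((G (1 + t * I) - A) / (1 + t * I))) =
      ((∫ u in Set.Ioi (0 : ℝ), (fW c u - A) * (L * fej (L * (v - u))) : ℝ) : ℂ) := by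
    intro v
    have h1 := transform_limit G hG A L v hLpos
    have h2 := (Complex.continuous_ofReal.tendsto _).comp
      (kernel_limit (fun u : ℝ => fW c u - A) hgm _ hgB L v hLpos)
    refine tendsto_nhds_unique h1 (h2.congr' ?_)
    filter_upwards [self_mem_nhdsWithin] with δ hδ
    exact (hex v δ hδ).symm
  have h3 := riemann_lebesgue_L G hG A L hLpos
  simp only [hkey] at h3
  have h4 : Tendsto (fun v : ℝ => ∫ u in Set.Ioi (0 : ℝ),
      (fW c u - A) * (L * fej (L * (v - u)))) atTop (𝓝 0) := by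
    have h := (Complex.continuous_re.tendsto 0).comp h3
    rw [Complex.zero_re] at h
    refine h.congr fun v => ?_
    rw [Function.comp_apply, Complex.ofReal_re]
  have h5 := (kernel_mass L hLpos).const_mul A
  have h6 := h4.add h5
  rw [zero_add] at h6
  refine h6.congr fun v => ?_
  have hK : IntegrableOn (fun u => L * fej (L * (v - u))) (Set.Ioi (0 : ℝ)) :=
    (kernel_integrable L v hLpos).integrableOn
  have hgK : IntegrableOn (fun u => (fW c u - A) * (L * fej (L * (v - u))))
      (Set.Ioi (0 : ℝ)) := by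
    refine hK.bdd_mul (c := C + |A|) hgm.aestronglyMeasurable ?_
    exact Filter.Eventually.of_forall fun u => by
      rw [Real.norm_eq_abs]
      exact hgB u
  rw [← MeasureTheory.integral_const_mul, ← MeasureTheory.integral_add hgK (hK.const_mul A)]
  refine MeasureTheory.integral_congr_ae (Filter.Eventually.of_forall fun u => ?_)
  simp only
  ring

end Pool.Agent.Lib.MP_bae66e_nt.LL
end

section

/-!
# N08: the Tauberian step
-/

set_option autoImplicit false

open Finset Filter Topology MeasureTheory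

namespace Pool.Agent.Lib.MP_bae66e_nt.LL

/-- `∫_{|x| ≤ M} fej → ∫ fej` as `M → ∞`. -/
lemma fej_tail : Tendsto (fun M : ℝ => ∫ x in Set.Icc (-M) M, fej x) atTop (𝓝 (∫ x, fej x)) := by
  simp only [← integral_indicator measurableSet_Icc]
  refine tendsto_integral_filter_of_dominated_convergence fej ?_ ?_ fej_integrable ?_
  · exact Eventually.of_forall
      (fun v => fej_integrable.aestronglyMeasurable.indicator measurableSet_Icc)
  · refine Eventually.of_forall (fun v => Eventually.of_forall (fun y => ?_))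
    rw [Real.norm_eq_abs, abs_of_nonneg (Set.indicator_nonneg (fun y _ => fej_nonneg y) y)]
    exact Set.indicator_le_self' (fun y _ => fej_nonneg y) y
  · refine Eventually.of_forall (fun y => ?_)
    refine tendsto_const_nhds.congr' ?_
    filter_upwards [eventually_ge_atTop |y|] with v hv
    rw [Set.indicator_of_mem (show y ∈ Set.Icc (-v) v from abs_le.1 hv)]

private lemma N08_win (L v h : ℝ) (hL : 0 < L) :
    ∫ u in Set.Icc (v - h) (v + h), L * fej (L * (v - u)) =
      ∫ x in Set.Icc (-(L * h)) (L * h), fej x := by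
  rw [← integral_indicator measurableSet_Icc, ← integral_indicator measurableSet_Icc]
  set J : ℝ → ℝ := (Set.Icc (-(L * h)) (L * h)).indicator fej with hJ
  have h1 : (Set.Icc (v - h) (v + h)).indicator (fun u => L * fej (L * (v - u))) =
      fun u => L * J (L * (v - u)) := by
    funext u
    by_cases hu : u ∈ Set.Icc (v - h) (v + h)
    · rw [Set.indicator_of_mem hu, hJ, Set.indicator_of_mem]
      constructor
      · nlinarith [hu.1, hu.2]
      · nlinarith [hu.1, hu.2]
    · rw [Set.indicator_of_notMem hu, hJ, Set.indicator_of_notMem, mul_zero]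
      intro hu2
      apply hu
      have h2 : L * (-h) ≤ L * (v - u) := by linarith [hu2.1]
      have h3 : L * (v - u) ≤ L * h := hu2.2
      have h4 := le_of_mul_le_mul_left h2 hL
      have h5 := le_of_mul_le_mul_left h3 hL
      constructor <;> linarith
  rw [h1, integral_sub_left_eq_self (fun u => L * J (L * u)) volume v, integral_const_mul,
    Measure.integral_comp_mul_left, abs_of_pos (inv_pos.2 hL), smul_eq_mul, ← mul_assoc,
    mul_inv_cancel₀ hL.ne', one_mul]

private lemma N08_int (f : ℝ → ℝ) (hf : Measurable f) (hf0 : ∀ u, 0 ≤ f u) (C : ℝ)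
    (hfC : ∀ u, f u ≤ C) (L v : ℝ) (hL : 0 < L) :
    Integrable (fun u => f u * (L * fej (L * (v - u)))) := by
  refine (kernel_integrable L v hL).bdd_mul (c := C) hf.aestronglyMeasurable
    (Eventually.of_forall (fun u => ?_))
  rw [Real.norm_eq_abs, abs_of_nonneg (hf0 u)]
  exact hfC u

private lemma N08_exp (a b : ℝ) (hab : a < b) : ∃ h : ℝ, 0 < h ∧ Real.exp (2 * h) * a ≤ b := by
  have h1 : Continuous (fun h : ℝ => Real.exp (2 * h) * a) := by fun_prop
  have h2 := h1.tendsto 0
  simp only [mul_zero, Real.exp_zero, one_mul] at h2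
  have h3 : ∀ᶠ h in 𝓝[>] (0 : ℝ), Real.exp (2 * h) * a < b :=
    (h2.mono_left nhdsWithin_le_nhds).eventually (gt_mem_nhds hab)
  obtain ⟨h, h4, h5⟩ := (h3.and self_mem_nhdsWithin).exists
  exact ⟨h, h5, h4.le⟩

/-- Upper bound. Let `f ≥ 0` be measurable, bounded by `C`, with `f(u) ≤ e^{v-u} f(v)` for `u ≤ v`
and `∫_0^∞ f(u) L fej(L (v - u)) du → A ∫ fej` as `v → ∞` for every `L > 0`. Then
`f(v) ≤ A + ε` for all large `v`.

PROOF. Let `I = ∫ fej > 0` (`fej_integral_pos`). For `h > 0`, `v > 2 h`: on `[v - h, v + h]`,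
`f(u) ≥ e^{-(u - v + h)} f(v - h) ≥ e^{-2h} f(v - h)`, so
`∫_0^∞ f(u) L fej(L(v-u)) du ≥ e^{-2h} f(v-h) ∫_{|u - v| ≤ h} L fej(L(v-u)) du
 = e^{-2h} f(v-h) I_{Lh}`, with `I_M = ∫_{|x| ≤ M} fej`. So
`limsup f ≤ e^{2h} A I / I_{Lh}`. Given `ε`, choose `h` small and then `L` large (`fej_tail`) such
that `e^{2h} (A I + η) / I_{Lh} ≤ A + ε` with a small `η > 0`. (`A ≥ 0` follows from the limit, as
the integrals are nonnegative; it is not needed as a hypothesis but may be derived.) -/
lemma tauber_upper (f : ℝ → ℝ) (hf : Measurable f) (hf0 : ∀ u, 0 ≤ f u) (C : ℝ)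
    (hfC : ∀ u, f u ≤ C) (hmono : ∀ u v : ℝ, u ≤ v → f u ≤ Real.exp (v - u) * f v) (A : ℝ)
    (hlim : ∀ L : ℝ, 0 < L → Tendsto (fun v : ℝ => ∫ u in Set.Ioi (0 : ℝ),
      f u * (L * fej (L * (v - u)))) atTop (𝓝 (A * ∫ x, fej x)))
    (ε : ℝ) (hε : 0 < ε) :
    ∀ᶠ v in atTop, f v ≤ A + ε := by
  set I := ∫ x, fej x with hI
  have hIpos : 0 < I := fej_integral_pos
  have hk0 : ∀ L v u : ℝ, 0 < L → 0 ≤ L * fej (L * (v - u)) := fun L v u hL =>
    mul_nonneg hL.le (fej_nonneg _)
  have hA : 0 ≤ A := by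
    have h1 : 0 ≤ A * I := ge_of_tendsto' (hlim 1 one_pos) (fun v =>
      integral_nonneg (fun u => mul_nonneg (hf0 u) (hk0 1 v u one_pos)))
    by_contra hcon
    push Not at hcon
    nlinarith
  obtain ⟨h, hh, hh2⟩ := N08_exp (A + ε / 4) (A + ε / 2) (by linarith)
  have hI2 : (A + ε / 2) * I < (A + ε) * I := by nlinarith
  have h3 : ∀ᶠ L in atTop, (A + ε / 2) * I < (A + ε) * ∫ x in Set.Icc (-(L * h)) (L * h), fej x := by
    have h4 : Tendsto (fun L : ℝ => L * h) atTop atTop := tendsto_id.atTop_mul_const hh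
    exact ((fej_tail.comp h4).const_mul (A + ε)).eventually (lt_mem_nhds hI2)
  obtain ⟨L, hL1, hL⟩ := (h3.and (eventually_gt_atTop 0)).exists
  set J := ∫ x in Set.Icc (-(L * h)) (L * h), fej x with hJ
  have hJpos : 0 < J := by
    by_contra hcon
    push Not at hcon
    nlinarith [mul_pos (show 0 < A + ε / 2 by linarith) hIpos]
  have h5 : A * I < (A + ε / 4) * I := by nlinarith
  have h6 := (hlim L hL).eventually (gt_mem_nhds h5)
  have h7 : ∀ᶠ v in atTop, f (v - h) ≤ A + ε := by
    filter_upwards [h6, eventually_gt_atTop h] with v hv hvh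
    have hint := N08_int f hf hf0 C hfC L v hL
    have h8 : ∫ u in Set.Icc (v - h) (v + h), f u * (L * fej (L * (v - u))) ≤
        ∫ u in Set.Ioi (0 : ℝ), f u * (L * fej (L * (v - u))) := by
      refine setIntegral_mono_set hint.integrableOn
        (Eventually.of_forall (fun u => mul_nonneg (hf0 u) (hk0 L v u hL))) ?_
      have hsub : Set.Icc (v - h) (v + h) ⊆ Set.Ioi (0 : ℝ) := by
        intro u hu
        show 0 < u
        linarith [hu.1]
      exact hsub.eventuallyLE
    have h9 : ∫ u in Set.Icc (v - h) (v + h), (Real.exp (-(2 * h)) * f (v - h)) *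
        (L * fej (L * (v - u))) ≤
        ∫ u in Set.Icc (v - h) (v + h), f u * (L * fej (L * (v - u))) := by
      refine setIntegral_mono_on ((kernel_integrable L v hL).const_mul _).integrableOn
        hint.integrableOn measurableSet_Icc (fun u hu => ?_)
      refine mul_le_mul_of_nonneg_right ?_ (hk0 L v u hL)
      have h10 := hmono (v - h) u hu.1
      have h11 : Real.exp (-(2 * h)) * Real.exp (u - (v - h)) ≤ 1 := by
        rw [← Real.exp_add, Real.exp_le_one_iff]
        linarith [hu.2]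
      calc Real.exp (-(2 * h)) * f (v - h)
          ≤ Real.exp (-(2 * h)) * (Real.exp (u - (v - h)) * f u) :=
            mul_le_mul_of_nonneg_left h10 (Real.exp_pos _).le
        _ = (Real.exp (-(2 * h)) * Real.exp (u - (v - h))) * f u := by ring
        _ ≤ 1 * f u := mul_le_mul_of_nonneg_right h11 (hf0 u)
        _ = f u := one_mul _
    rw [integral_const_mul, N08_win L v h hL] at h9
    have h12 : Real.exp (-(2 * h)) * f (v - h) * J ≤ (A + ε / 4) * I :=
      h9.trans (h8.trans hv.le)
    have h13 : f (v - h) * J ≤ (A + ε) * J := by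
      have h14 : Real.exp (2 * h) * Real.exp (-(2 * h)) = 1 := by
        rw [← Real.exp_add, add_neg_cancel, Real.exp_zero]
      calc f (v - h) * J = (Real.exp (2 * h) * Real.exp (-(2 * h))) * (f (v - h) * J) := by
            rw [h14, one_mul]
        _ = Real.exp (2 * h) * (Real.exp (-(2 * h)) * f (v - h) * J) := by ring
        _ ≤ Real.exp (2 * h) * ((A + ε / 4) * I) :=
            mul_le_mul_of_nonneg_left h12 (Real.exp_pos _).le
        _ = (Real.exp (2 * h) * (A + ε / 4)) * I := by ring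
        _ ≤ (A + ε / 2) * I := mul_le_mul_of_nonneg_right hh2 hIpos.le
        _ ≤ (A + ε) * J := hL1.le
    exact le_of_mul_le_mul_right h13 hJpos
  have h15 : Tendsto (fun v : ℝ => v + h) atTop atTop := tendsto_atTop_add_const_right _ _ tendsto_id
  filter_upwards [h15.eventually h7] with v hv
  rw [add_sub_cancel_right] at hv
  exact hv

/-- Lower bound, same hypotheses.

PROOF. For `h > 0`: on `[v - h, v + h]`, `f(u) ≤ e^{v + h - u} f(v + h) ≤ e^{2h} f(v + h)`, and
`f ≤ C` everywhere, so `∫_0^∞ f(u) L fej(L(v-u)) du ≤ e^{2h} f(v+h) I + C (I - I_{Lh})`, where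
`I - I_{Lh} = ∫_{|x| > Lh} fej → 0` as `L → ∞` (`fej_tail`). So
`liminf f ≥ e^{-2h} (A - C (1 - I_{Lh}/I))`; choose `h` small and then `L` large. -/
lemma tauber_lower (f : ℝ → ℝ) (hf : Measurable f) (hf0 : ∀ u, 0 ≤ f u) (C : ℝ)
    (hfC : ∀ u, f u ≤ C) (hmono : ∀ u v : ℝ, u ≤ v → f u ≤ Real.exp (v - u) * f v) (A : ℝ)
    (hlim : ∀ L : ℝ, 0 < L → Tendsto (fun v : ℝ => ∫ u in Set.Ioi (0 : ℝ),
      f u * (L * fej (L * (v - u)))) atTop (𝓝 (A * ∫ x, fej x)))
    (ε : ℝ) (hε : 0 < ε) :
    ∀ᶠ v in atTop, A - ε ≤ f v := by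
  set I := ∫ x, fej x with hI
  have hIpos : 0 < I := fej_integral_pos
  have hC : 0 ≤ C := (hf0 0).trans (hfC 0)
  have hk0 : ∀ L v u : ℝ, 0 < L → 0 ≤ L * fej (L * (v - u)) := fun L v u hL =>
    mul_nonneg hL.le (fej_nonneg _)
  obtain ⟨h, hh, hh2⟩ := N08_exp (A - ε) (A - ε / 2) (by linarith)
  have h3 : ∀ᶠ L in atTop, C * (I - ∫ x in Set.Icc (-(L * h)) (L * h), fej x) < ε / 4 * I := by
    have h4 : Tendsto (fun L : ℝ => L * h) atTop atTop := tendsto_id.atTop_mul_const hh
    have h5 : Tendsto (fun L : ℝ => C * (I - ∫ x in Set.Icc (-(L * h)) (L * h), fej x)) atTop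
        (𝓝 (C * (I - I))) := ((fej_tail.comp h4).const_sub I).const_mul C
    rw [sub_self, mul_zero] at h5
    exact h5.eventually (gt_mem_nhds (by positivity))
  obtain ⟨L, hL1, hL⟩ := (h3.and (eventually_gt_atTop 0)).exists
  set J := ∫ x in Set.Icc (-(L * h)) (L * h), fej x with hJ
  have h5 : (A - ε / 4) * I < A * I := by nlinarith
  have h6 := (hlim L hL).eventually (lt_mem_nhds h5)
  have h7 : ∀ᶠ v in atTop, A - ε ≤ f (v + h) := by
    filter_upwards [h6] with v hv
    have hint := N08_int f hf hf0 C hfC L v hL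
    have hki := kernel_integrable L v hL
    have hkw : Integrable ((Set.Icc (v - h) (v + h)).indicator
        (fun u => L * fej (L * (v - u)))) := hki.indicator measurableSet_Icc
    have hi2 : Integrable (fun u => C * (L * fej (L * (v - u)) -
        (Set.Icc (v - h) (v + h)).indicator (fun u => L * fej (L * (v - u))) u)) :=
      (hki.sub hkw).const_mul C
    have h8 : ∫ u in Set.Ioi (0 : ℝ), f u * (L * fej (L * (v - u))) ≤
        ∫ u, f u * (L * fej (L * (v - u))) :=
      setIntegral_le_integral hint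
        (Eventually.of_forall (fun u => mul_nonneg (hf0 u) (hk0 L v u hL)))
    have h9 : ∫ u, f u * (L * fej (L * (v - u))) ≤
        ∫ u, ((Real.exp (2 * h) * f (v + h)) * (L * fej (L * (v - u))) +
          C * (L * fej (L * (v - u)) - (Set.Icc (v - h) (v + h)).indicator
            (fun u => L * fej (L * (v - u))) u)) := by
      refine integral_mono hint ((hki.const_mul _).add hi2) (fun u => ?_)
      show f u * (L * fej (L * (v - u))) ≤ _
      by_cases hu : u ∈ Set.Icc (v - h) (v + h)
      · rw [Set.indicator_of_mem hu, sub_self, mul_zero, add_zero]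
        refine mul_le_mul_of_nonneg_right ?_ (hk0 L v u hL)
        refine (hmono u (v + h) hu.2).trans ?_
        refine mul_le_mul_of_nonneg_right ?_ (hf0 _)
        rw [Real.exp_le_exp]
        linarith [hu.1]
      · rw [Set.indicator_of_notMem hu, sub_zero]
        have h10 : 0 ≤ Real.exp (2 * h) * f (v + h) * (L * fej (L * (v - u))) :=
          mul_nonneg (mul_nonneg (Real.exp_pos _).le (hf0 _)) (hk0 L v u hL)
        have h11 : f u * (L * fej (L * (v - u))) ≤ C * (L * fej (L * (v - u))) :=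
          mul_le_mul_of_nonneg_right (hfC u) (hk0 L v u hL)
        linarith
    have e1 : ∫ u, (Real.exp (2 * h) * f (v + h)) * (L * fej (L * (v - u))) =
        Real.exp (2 * h) * f (v + h) * I := by
      rw [integral_const_mul, kernel_integral L v hL]
    have e2 : ∫ u, C * (L * fej (L * (v - u)) - (Set.Icc (v - h) (v + h)).indicator
        (fun u => L * fej (L * (v - u))) u) = C * (I - J) := by
      rw [integral_const_mul, integral_sub hki hkw, integral_indicator measurableSet_Icc,
        N08_win L v h hL, kernel_integral L v hL]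
    rw [integral_add (hki.const_mul _) hi2, e1, e2] at h9
    have h12 : (A - ε / 4) * I ≤ Real.exp (2 * h) * f (v + h) * I + C * (I - J) :=
      hv.le.trans (h8.trans h9)
    have h13 : (A - ε / 2) * I ≤ Real.exp (2 * h) * f (v + h) * I := by linarith
    have h14 : A - ε / 2 ≤ Real.exp (2 * h) * f (v + h) := le_of_mul_le_mul_right h13 hIpos
    have h15 : Real.exp (2 * h) * (A - ε) ≤ Real.exp (2 * h) * f (v + h) := hh2.trans h14
    exact le_of_mul_le_mul_left h15 (Real.exp_pos _)
  have h15 : Tendsto (fun v : ℝ => v - h) atTop atTop :=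
    tendsto_atTop_add_const_right _ (-h) tendsto_id
  filter_upwards [h15.eventually h7] with v hv
  rw [sub_add_cancel] at hv
  exact hv

end Pool.Agent.Lib.MP_bae66e_nt.LL
end

section

/-!
# N09: the Wiener-Ikehara theorem and the prime number theorem in arithmetic progressions
-/

set_option autoImplicit false

open Finset Filter Topology
open scoped ArithmeticFunction.vonMangoldt

namespace Pool.Agent.Lib.MP_bae66e_nt.LL

/-- The Wiener-Ikehara theorem (for coefficients with `∑_{n ≤ x} c(n) ≤ C x`).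

PROOF. `psum c x / x = fW c (log x)` (`psum_div_eq`); `fW c v → A` by `tauber_upper` and
`tauber_lower`, whose hypotheses are `fW_measurable`, `fW_nonneg`, `fW_le`, `fW_le_of_le`,
`smoothed_limit`. -/
theorem wiener_ikehara (c : ℕ → ℝ) (hc : ∀ n, 0 ≤ c n) (C : ℝ)
    (hC : ∀ x : ℝ, 0 ≤ x → psum c x ≤ C * x) (A : ℝ) (G : ℂ → ℂ)
    (hG : ContinuousOn G {s : ℂ | 1 ≤ s.re})
    (hL : ∀ s : ℂ, 1 < s.re → LSeries (fun n => (c n : ℂ)) s = G s + (A : ℂ) / (s - 1)) :
    Tendsto (fun x : ℝ => psum c x / x) atTop (𝓝 A) := by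
  have hlim := fun (L : ℝ) (hLp : 0 < L) => smoothed_limit c hc C hC A G hG hL L hLp
  have hf : Tendsto (fW c) atTop (𝓝 A) := by
    rw [Metric.tendsto_nhds]
    intro ε hε
    filter_upwards [tauber_upper (fW c) (fW_measurable c hc) (fW_nonneg c hc) C (fW_le c C hC)
        (fW_le_of_le c hc) A hlim (ε / 2) (by linarith),
      tauber_lower (fW c) (fW_measurable c hc) (fW_nonneg c hc) C (fW_le c C hC)
        (fW_le_of_le c hc) A hlim (ε / 2) (by linarith)] with v h1 h2
    rw [Real.dist_eq, abs_lt]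
    constructor <;> linarith
  refine (hf.comp Real.tendsto_log_atTop).congr' ?_
  filter_upwards [eventually_gt_atTop (0 : ℝ)] with x hx
  rw [Function.comp_apply, psum_div_eq c x hx]

/-- The prime number theorem in arithmetic progressions, `ψ(x; q, a) ~ x / φ(q)`.

PROOF. `wiener_ikehara` for `c = ArithmeticFunction.vonMangoldt.residueClass a`,
`G = ArithmeticFunction.vonMangoldt.LFunctionResidueClassAux a`, `A = 1 / φ(q)`: see
`residueClass_nonneg`, `residueClass_le`, `continuousOn_LFunctionResidueClassAux`,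
`eqOn_LFunctionResidueClassAux` in Mathlib's `NumberTheory/LSeries/PrimesInAP`;
`psum c x ≤ ψ(x) ≤ (log 4 + 4) x` by `Chebyshev.psi_le_const_mul_self`
(`Chebyshev.psi_eq_sum_Icc`). -/
theorem tendsto_psiAP (q : ℕ) [NeZero q] (a : ZMod q) (ha : IsUnit a) :
    Tendsto (fun x : ℝ => (∑ n ∈ Finset.Icc 1 ⌊x⌋₊, if ((n : ℕ) : ZMod q) = a then Λ n else 0) / x)
      atTop (𝓝 (1 / (q.totient : ℝ))) := by
  have hc : ∀ n, 0 ≤ ArithmeticFunction.vonMangoldt.residueClass a n :=
    fun n => ArithmeticFunction.vonMangoldt.residueClass_nonneg a n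
  have hC : ∀ x : ℝ, 0 ≤ x → psum (ArithmeticFunction.vonMangoldt.residueClass a) x ≤
      (Real.log 4 + 4) * x := by
    intro x hx
    refine le_trans ?_ (Chebyshev.psi_le_const_mul_self hx)
    unfold psum Chebyshev.psi
    have e : Finset.Icc 1 ⌊x⌋₊ = Finset.Ioc 0 ⌊x⌋₊ := by
      ext n
      simp only [Finset.mem_Icc, Finset.mem_Ioc]
      omega
    rw [e]
    exact Finset.sum_le_sum fun n _ => ArithmeticFunction.vonMangoldt.residueClass_le a n
  have hL : ∀ s : ℂ, 1 < s.re →
      LSeries (fun n => (ArithmeticFunction.vonMangoldt.residueClass a n : ℂ)) s =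
        ArithmeticFunction.vonMangoldt.LFunctionResidueClassAux a s +
          ((1 / (q.totient : ℝ) : ℝ) : ℂ) / (s - 1) := by
    intro s hs
    have h := ArithmeticFunction.vonMangoldt.eqOn_LFunctionResidueClassAux ha
      (show s ∈ {s : ℂ | 1 < s.re} from hs)
    rw [h]
    push_cast
    ring
  have h := wiener_ikehara (ArithmeticFunction.vonMangoldt.residueClass a) hc (Real.log 4 + 4) hC
    (1 / (q.totient : ℝ)) (ArithmeticFunction.vonMangoldt.LFunctionResidueClassAux a)
    (ArithmeticFunction.vonMangoldt.continuousOn_LFunctionResidueClassAux a) hL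
  refine h.congr fun x => ?_
  congr 1
  refine Finset.sum_congr rfl fun n _ => ?_
  by_cases hn : (n : ZMod q) = a
  · rw [if_pos hn]
    exact Set.indicator_of_mem (s := {n : ℕ | (n : ZMod q) = a}) hn _
  · rw [if_neg hn]
    exact Set.indicator_of_notMem (s := {n : ℕ | (n : ZMod q) = a}) hn _

end Pool.Agent.Lib.MP_bae66e_nt.LL
end
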