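import Pool.Agent.Lib.MP_bae66e_nt.Mg.G083
import Pool.Agent.Lib.MP_bae66e_nt.Mg.G084

section

/-!
# B4c: pairs of primes of a block
-/

set_option autoImplicit false

namespace Pool.Agent.PP

open Finset MeasureTheory Real
open Pool.Agent.MC (ee expSum frac frac' arcSum fareySet)
open Pool.Agent.Lib.MP_bae66e_nt.AP3 (Rough rset dset prI KT flEta FLP cset Om0 xb prm)

/-- PROOF. For each `p` the `p'` lie in an interval of `2 H + 1` consecutive integers, and a short interval of `x = 2 H + 1`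
integers contains at most `8 x/log x` primes (`brun_titchmarsh`, file `Lib/MP_bae66e_nt/BrunT.lean`, with `D = 1`, a shift `a`);
`log x ≥ (log M)/2` as `x² ≥ M`. Then `card_prI_le`. -/
lemma pair_short : ∃ C : ℝ, 0 < C ∧ ∀ M H : ℕ, 2 ≤ M → M ≤ H ^ 2 →
    (#((prI M (2 * M) ×ˢ prI M (2 * M)).filter (fun x => x.1 ≤ x.2 + H ∧ x.2 ≤ x.1 + H)) : ℝ)
      ≤ C * (M / Real.log M) * (H / Real.log M) := by
  obtain ⟨C, hC, hcard⟩ := card_prI_le
  refine ⟨C * 48, by positivity, fun M H hM hMH => ?_⟩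
  have hlog : 0 < Real.log M := Real.log_pos (by exact_mod_cast hM)
  have hH2 : 2 ≤ H := by
    by_contra hcon
    have h1 : H ≤ 1 := by omega
    have h2 : H ^ 2 ≤ 1 := by nlinarith
    omega
  have hHR : (2 : ℝ) ≤ H := by exact_mod_cast hH2
  have hMR : (2 : ℝ) ≤ M := by exact_mod_cast hM
  have hlogH : Real.log M / 2 ≤ Real.log ((2 * H + 1 : ℕ) : ℝ) := by
    have h1 : (M : ℝ) ≤ (H : ℝ) ^ 2 := by exact_mod_cast hMH
    have h2 := Real.log_le_log (by linarith) h1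
    rw [Real.log_pow] at h2
    have h3 : Real.log (H : ℝ) ≤ Real.log ((2 * H + 1 : ℕ) : ℝ) := by
      apply Real.log_le_log (by linarith)
      push_cast
      linarith
    push_cast at h2
    linarith
  have h2 : ∀ p ∈ prI M (2 * M), (#((prI M (2 * M)).filter (fun p' => p ≤ p' + H ∧ p' ≤ p + H)) : ℝ)
      ≤ 48 * (H / Real.log M) := by
    intro p _
    set a : ℕ := p - (H + 1) with ha
    have h3 := Pool.Agent.Lib.MP_bae66e_nt.brun_titchmarsh 1 a (2 * H + 1) le_rfl (by omega)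
    have h4 : #((prI M (2 * M)).filter (fun p' => p ≤ p' + H ∧ p' ≤ p + H))
        ≤ #{j ∈ Finset.Ioc 0 (2 * H + 1) | (1 * j + a).Prime} := by
      apply Finset.card_le_card_of_injOn (fun p' => p' - a)
      · intro p' hp'
        rw [Finset.mem_coe, Finset.mem_filter] at hp'
        have h5 := Pool.Agent.Lib.MP_bae66e_nt.AP3.mem_prI.mp hp'.1
        rw [Finset.mem_coe, Finset.mem_filter, Finset.mem_Ioc]
        have h8 : p ≤ p' + H ∧ p' ≤ p + H := hp'.2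
        have h6 : a < p' := by omega
        show (0 < p' - a ∧ p' - a ≤ 2 * H + 1) ∧ (1 * (p' - a) + a).Prime
        refine ⟨⟨by omega, by omega⟩, ?_⟩
        rw [show 1 * (p' - a) + a = p' by omega]
        exact h5.2
      · intro x hx y hy hxy
        rw [Finset.mem_coe, Finset.mem_filter] at hx hy
        have h5 := Pool.Agent.Lib.MP_bae66e_nt.AP3.mem_prI.mp hx.1
        have h6 := Pool.Agent.Lib.MP_bae66e_nt.AP3.mem_prI.mp hy.1
        have h7 : x - a = y - a := hxy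
        have h8 : p ≤ x + H ∧ x ≤ p + H := hx.2
        have h9 : p ≤ y + H ∧ y ≤ p + H := hy.2
        omega
    have h5 : (#((prI M (2 * M)).filter (fun p' => p ≤ p' + H ∧ p' ≤ p + H)) : ℝ)
        ≤ ((#{j ∈ Finset.Ioc 0 (2 * H + 1) | (1 * j + a).Prime} : ℕ) : ℝ) := by exact_mod_cast h4
    refine (h5.trans h3).trans ?_
    rw [Pool.Agent.Lib.MP_bae66e_nt.AP3.rho_eq 1 one_pos]
    have h6 : ((2 * H + 1 : ℕ) : ℝ) ≤ 3 * H := by push_cast; linarith
    have h7 : ((Nat.totient 1 : ℕ) : ℝ) / ((1 : ℕ) : ℝ) = 1 := by simp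
    rw [h7, one_mul]
    have h8 : 0 < Real.log M / 2 := by linarith
    calc 8 * ((2 * H + 1 : ℕ) : ℝ) / Real.log ((2 * H + 1 : ℕ) : ℝ)
        ≤ 8 * (3 * H) / (Real.log M / 2) := by gcongr
      _ = 48 * (H / Real.log M) := by field_simp; ring
  have h1 : (#((prI M (2 * M) ×ˢ prI M (2 * M)).filter (fun x => x.1 ≤ x.2 + H ∧ x.2 ≤ x.1 + H)) : ℝ) =
      ∑ a ∈ prI M (2 * M), (#((prI M (2 * M)).filter (fun p' => a ≤ p' + H ∧ p' ≤ a + H)) : ℝ) := by
    rw [Finset.card_filter, Finset.sum_product, Nat.cast_sum]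
    refine Finset.sum_congr rfl fun a _ => ?_
    rw [Finset.card_filter]
  rw [h1]
  refine le_trans (Finset.sum_le_card_nsmul _ _ _ h2) ?_
  rw [nsmul_eq_mul]
  have h3 := hcard M hM
  have h4 : 0 ≤ 48 * ((H : ℝ) / Real.log M) := by positivity
  calc (#(prI M (2 * M)) : ℝ) * (48 * (H / Real.log M))
      ≤ C * M / Real.log M * (48 * (H / Real.log M)) :=
        mul_le_mul_of_nonneg_right h3 h4
    _ = C * 48 * (M / Real.log M) * (H / Real.log M) := by ring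

end Pool.Agent.PP
end

section

/-!
# B4e: average over the pairs of primes of a block
-/

set_option autoImplicit false

namespace Pool.Agent.PP

open Finset MeasureTheory Real
open Pool.Agent.MC (ee expSum frac frac' arcSum fareySet)
open Pool.Agent.Lib.MP_bae66e_nt.AP3 (Rough rset dset prI KT flEta FLP cset Om0 xb prm)

/-- Case B. PROOF. `u ≥ 1`. `pw ≤ 1/max 1 (u h/(4M))`, `h = |p - p'|`. Let `H = ⌈M/√u⌉₊` (so `H² ≥ M²/u ≥ M` as `u ≤ M`,
and `H ≤ 2 M/√u`). Pairs with `h ≤ H`: `pair_short`, `≤ C (M/log M)² 2/√u`. Pairs with `h > H`: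
`pw ≤ 4 M/(u h) ≤ 4/√u`, at most `(card_prI)²` of them. -/
lemma pair_avg_u : ∃ C : ℝ, 0 < C ∧ ∀ (M q : ℕ) (u : ℝ), 2 ≤ M → 1 ≤ q → 1 ≤ u → u ≤ M →
    ∑ x ∈ prI M (2 * M) ×ˢ prI M (2 * M), pw q M u x
      ≤ C * (M / Real.log M) ^ 2 / Real.sqrt u := by
  obtain ⟨C1, hC1, hps⟩ := pair_short
  obtain ⟨C3, hC3, hcp⟩ := card_prI_le
  refine ⟨2 * C1 + 4 * C3 ^ 2, by positivity, ?_⟩
  intro M q u hM hq hu huM
  set P := prI M (2 * M) with hP
  have hMR : (2 : ℝ) ≤ M := by exact_mod_cast hM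
  have hM0 : (0 : ℝ) < M := by linarith
  have hu0 : 0 < u := by linarith
  have hsu : 1 ≤ Real.sqrt u := by
    rw [show (1 : ℝ) = Real.sqrt 1 by simp]
    exact Real.sqrt_le_sqrt hu
  have hsu0 : 0 < Real.sqrt u := by linarith
  have hsq : Real.sqrt u * Real.sqrt u = u := Real.mul_self_sqrt hu0.le
  have hL : 0 < Real.log M := Real.log_pos (by linarith)
  set H : ℕ := ⌈(M : ℝ) / Real.sqrt u⌉₊ with hH
  have hH1 : (M : ℝ) / Real.sqrt u ≤ H := Nat.le_ceil _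
  have hsuM : Real.sqrt u ≤ M := by
    have : Real.sqrt u ≤ u := by nlinarith
    linarith
  have hone : 1 ≤ (M : ℝ) / Real.sqrt u := by
    rw [le_div_iff₀ hsu0]; linarith
  have hH2 : (H : ℝ) ≤ 2 * (M / Real.sqrt u) := by
    have h1 : (H : ℝ) < M / Real.sqrt u + 1 := Nat.ceil_lt_add_one (by positivity)
    linarith
  have hHM : M ≤ H ^ 2 := by
    have h1 : (M : ℝ) ≤ (H : ℝ) ^ 2 := by
      have h2 : (M : ℝ) ≤ (M / Real.sqrt u) ^ 2 := by
        rw [div_pow, Real.sq_sqrt hu0.le, le_div_iff₀ hu0]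
        nlinarith
      calc (M : ℝ) ≤ (M / Real.sqrt u) ^ 2 := h2
        _ ≤ (H : ℝ) ^ 2 := by gcongr
    exact_mod_cast h1
  -- bounds for the weight
  have hden : ∀ x : ℕ × ℕ, (1 : ℝ) ≤ (Nat.totient (q / Nat.gcd q (Nat.dist x.1 x.2)) : ℝ) := by
    intro x
    have hg : 0 < Nat.gcd q (Nat.dist x.1 x.2) := Nat.gcd_pos_of_pos_left _ (by omega)
    have h1 : 0 < q / Nat.gcd q (Nat.dist x.1 x.2) :=
      Nat.div_pos (Nat.le_of_dvd (by omega) (Nat.gcd_dvd_left _ _)) hg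
    have h2 := Nat.totient_pos.mpr h1
    exact_mod_cast h2
  have hpw1 : ∀ x : ℕ × ℕ, pw q M u x ≤ 1 := by
    intro x
    unfold pw
    have h1 := hden x
    have h2 : (1 : ℝ) ≤ max 1 (u * Nat.dist x.1 x.2 / (4 * M)) := le_max_left _ _
    rw [div_le_one (by positivity)]
    nlinarith
  have hpw2 : ∀ x : ℕ × ℕ, ¬ (x.1 ≤ x.2 + H ∧ x.2 ≤ x.1 + H) → pw q M u x ≤ 4 / Real.sqrt u := by
    intro x hx
    have hd : H ≤ Nat.dist x.1 x.2 := by
      unfold Nat.dist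
      omega
    have hdR : (M : ℝ) / Real.sqrt u ≤ (Nat.dist x.1 x.2 : ℝ) := hH1.trans (by exact_mod_cast hd)
    unfold pw
    have h1 := hden x
    have h3 : Real.sqrt u / 4 ≤ u * Nat.dist x.1 x.2 / (4 * M) := by
      rw [div_le_div_iff₀ (by norm_num) (by positivity)]
      have h4 : Real.sqrt u * M ≤ u * Nat.dist x.1 x.2 := by
        calc Real.sqrt u * M = u * (M / Real.sqrt u) := by
              rw [mul_div_assoc', eq_div_iff hsu0.ne']
              rw [← hsq]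
              rw [Real.sqrt_mul_self hsu0.le]
              ring
          _ ≤ u * Nat.dist x.1 x.2 := by gcongr
      nlinarith
    have h2 : u * Nat.dist x.1 x.2 / (4 * M) ≤ max 1 (u * Nat.dist x.1 x.2 / (4 * M)) := le_max_right _ _
    have h5 : Real.sqrt u / 4 ≤ (Nat.totient (q / Nat.gcd q (Nat.dist x.1 x.2)) : ℝ)
        * max 1 (u * Nat.dist x.1 x.2 / (4 * M)) := by
      have h6 : Real.sqrt u / 4 ≤ max 1 (u * Nat.dist x.1 x.2 / (4 * M)) := h3.trans h2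
      have h7 : 0 ≤ max 1 (u * Nat.dist x.1 x.2 / (4 * M)) := zero_le_one.trans (le_max_left _ _)
      nlinarith
    calc 1 / ((Nat.totient (q / Nat.gcd q (Nat.dist x.1 x.2)) : ℝ)
        * max 1 (u * Nat.dist x.1 x.2 / (4 * M))) ≤ 1 / (Real.sqrt u / 4) := by
          apply one_div_le_one_div_of_le (by positivity) h5
      _ = 4 / Real.sqrt u := by rw [one_div_div]
  have hterm : ∀ x ∈ P ×ˢ P, pw q M u x
      ≤ (if x.1 ≤ x.2 + H ∧ x.2 ≤ x.1 + H then 1 else 0) + 4 / Real.sqrt u := by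
    intro x _
    by_cases hx : x.1 ≤ x.2 + H ∧ x.2 ≤ x.1 + H
    · rw [if_pos hx]
      have := hpw1 x
      have : 0 ≤ 4 / Real.sqrt u := by positivity
      linarith
    · rw [if_neg hx, zero_add]
      exact hpw2 x hx
  refine (Finset.sum_le_sum hterm).trans ?_
  rw [Finset.sum_add_distrib, Finset.sum_const, Finset.card_product, nsmul_eq_mul]
  have hA : ∑ x ∈ P ×ˢ P, (if x.1 ≤ x.2 + H ∧ x.2 ≤ x.1 + H then (1 : ℝ) else 0)
      ≤ C1 * (M / Real.log M) * (H / Real.log M) := by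
    rw [Finset.sum_boole]
    exact hps M H hM hHM
  have hB : ((#P * #P : ℕ) : ℝ) ≤ (C3 * (M / Real.log M)) ^ 2 := by
    have h1 := hcp M hM
    rw [mul_div_assoc] at h1
    push_cast
    have h2 : (0 : ℝ) ≤ #P := Nat.cast_nonneg _
    nlinarith
  have hA2 : C1 * (M / Real.log M) * (H / Real.log M)
      ≤ C1 * (M / Real.log M) * ((2 * (M / Real.sqrt u)) / Real.log M) := by gcongr
  calc ∑ x ∈ P ×ˢ P, (if x.1 ≤ x.2 + H ∧ x.2 ≤ x.1 + H then (1 : ℝ) else 0)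
        + ((#P * #P : ℕ) : ℝ) * (4 / Real.sqrt u)
      ≤ C1 * (M / Real.log M) * ((2 * (M / Real.sqrt u)) / Real.log M)
        + (C3 * (M / Real.log M)) ^ 2 * (4 / Real.sqrt u) := by
        gcongr
        exact hA.trans hA2
    _ = (2 * C1 + 4 * C3 ^ 2) * (M / Real.log M) ^ 2 / Real.sqrt u := by
        ring

end Pool.Agent.PP
end

section

/-!
# B4f: average over the pairs of primes of a block
-/

set_option autoImplicit false

namespace Pool.Agent.PP

open Finset MeasureTheory Real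
open Pool.Agent.MC (ee expSum frac frac' arcSum fareySet)
open Pool.Agent.Lib.MP_bae66e_nt.AP3 (Rough rset dset prI KT flEta FLP cset Om0 xb prm)

/-- PROOF. Let `Q = q max 1 u`. Either `q ≥ √Q` (`pair_avg_q`: `1/√q ≤ Q^(-1/4)`) or `max 1 u ≥ √Q`, `√Q ≥ 1`
(then `u = max 1 u` if `√Q > 1`; if `Q = 1` use `pair_avg_q`) and `pair_avg_u`. `q² ≤ Q⁴ ≤ M` and `u ≤ Q ≤ M`. -/
lemma pair_avg : ∃ C : ℝ, 0 < C ∧ ∀ (M q : ℕ) (u : ℝ), 2 ≤ M → 1 ≤ q → 0 ≤ u →
    (q * max 1 u) ^ 4 ≤ M →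
    ∑ x ∈ prI M (2 * M) ×ˢ prI M (2 * M), pw q M u x
      ≤ C * (M / Real.log M) ^ 2 * (q * max 1 u) ^ (-(1 / 4) : ℝ) := by
  obtain ⟨C1, hC1, hq1⟩ := pair_avg_q
  obtain ⟨C2, hC2, hu1⟩ := pair_avg_u
  refine ⟨C1 + C2, by positivity, ?_⟩
  intro M q u hM hq hu hQM
  set Q : ℝ := q * max 1 u with hQ
  have hqR : (1 : ℝ) ≤ q := by exact_mod_cast hq
  have hmx : (1 : ℝ) ≤ max 1 u := le_max_left _ _
  have hQ1 : 1 ≤ Q := by rw [hQ]; nlinarith
  have hQ0 : 0 < Q := by linarith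
  have hqQ : (q : ℝ) ≤ Q := by rw [hQ]; nlinarith
  have hQ4 : Q ^ 2 ≤ Q ^ 4 := pow_le_pow_right₀ hQ1 (by norm_num)
  have hQ4' : Q ≤ Q ^ 4 := by
    calc Q = Q ^ 1 := (pow_one Q).symm
      _ ≤ Q ^ 4 := pow_le_pow_right₀ hQ1 (by norm_num)
  -- `s ≥ √Q` implies `1/√s ≤ Q^(-1/4)`
  have key : ∀ s : ℝ, 0 < s → Q ≤ s ^ 2 → 1 / Real.sqrt s ≤ Q ^ (-(1 / 4) : ℝ) := by
    intro s hs hQs
    have h1 : Real.sqrt s = (s ^ 2) ^ (1 / 4 : ℝ) := by
      rw [Real.sqrt_eq_rpow, ← Real.rpow_natCast s 2, ← Real.rpow_mul hs.le]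
      norm_num
    have h2 : Q ^ (1 / 4 : ℝ) ≤ Real.sqrt s := by
      rw [h1]
      exact Real.rpow_le_rpow hQ0.le hQs (by norm_num)
    rw [Real.rpow_neg hQ0.le, ← one_div]
    exact one_div_le_one_div_of_le (by positivity) h2
  have hD : 0 ≤ ((M : ℝ) / Real.log M) ^ 2 := by positivity
  have hR : 0 ≤ Q ^ (-(1 / 4) : ℝ) := by positivity
  by_cases hc : Q ≤ (q : ℝ) ^ 2
  · have h1 := hq1 M q u hM hq (by
      have h2 : ((q * q : ℕ) : ℝ) ≤ M := by
        push_cast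
        nlinarith
      exact_mod_cast h2) hu
    have h2 := key q (by linarith) hc
    calc ∑ x ∈ prI M (2 * M) ×ˢ prI M (2 * M), pw q M u x
        ≤ C1 * (M / Real.log M) ^ 2 / Real.sqrt q := h1
      _ = C1 * (M / Real.log M) ^ 2 * (1 / Real.sqrt q) := by ring
      _ ≤ C1 * (M / Real.log M) ^ 2 * Q ^ (-(1 / 4) : ℝ) := by gcongr
      _ ≤ (C1 + C2) * (M / Real.log M) ^ 2 * Q ^ (-(1 / 4) : ℝ) := by
        gcongr
        linarith
  · rw [not_le] at hc
    have hmu : Q < max 1 u ^ 2 := by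
      by_contra hcon
      rw [not_lt] at hcon
      have h1 : Q * Q = (q : ℝ) ^ 2 * max 1 u ^ 2 := by rw [hQ]; ring
      have h2 : (q : ℝ) ^ 2 * max 1 u ^ 2 ≤ (q : ℝ) ^ 2 * Q := by gcongr
      have h3 : (q : ℝ) ^ 2 * Q < Q * Q := by
        apply mul_lt_mul_of_pos_right hc hQ0
      linarith
    have hu2 : max 1 u = u := by
      rcases max_choice (1 : ℝ) u with h | h
      · rw [h] at hmu
        linarith
      · exact h
    rw [hu2] at hmu hmx
    have huQ : u ≤ Q := by rw [hQ, hu2]; nlinarith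
    have h1 := hu1 M q u hM hq hmx (huQ.trans (hQ4'.trans hQM))
    have h2 := key u (by linarith) hmu.le
    calc ∑ x ∈ prI M (2 * M) ×ˢ prI M (2 * M), pw q M u x
        ≤ C2 * (M / Real.log M) ^ 2 / Real.sqrt u := h1
      _ = C2 * (M / Real.log M) ^ 2 * (1 / Real.sqrt u) := by ring
      _ ≤ C2 * (M / Real.log M) ^ 2 * Q ^ (-(1 / 4) : ℝ) := by gcongr
      _ ≤ (C1 + C2) * (M / Real.log M) ^ 2 * Q ^ (-(1 / 4) : ℝ) := by
        gcongr
        linarith

end Pool.Agent.PP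
end
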