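import Pool.Agent.Lib.MP_bae66e_nt.Mg.G087
import Pool.Agent.Lib.MP_bae66e_nt.Mg.G085
import Pool.Agent.Lib.MP_bae66e_nt.Mg.G086
import Pool.Agent.Lib.MP_bae66e_nt.Mg.G082
import Pool.Agent.Lib.MP_bae66e_nt.Mg.G083

section

/-!
# B5b: bound for one block
-/

set_option autoImplicit false

namespace Pool.Agent.PP

open Finset MeasureTheory Real
open Pool.Agent.MC (ee expSum frac frac' arcSum fareySet)
open Pool.Agent.Lib.MP_bae66e_nt.AP3 (Rough rset dset prI KT flEta FLP cset Om0 xb prm)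

private lemma B5b_fin (A S1 S2 C1 C3 x y w : ℝ) (h1 : A ≤ C3 * x) (h2 : S1 ≤ C1 * y)
    (h3 : S2 ≤ C3 ^ 2 * y + 4 * C3 ^ 2 * w) (m1 : 0 ≤ C1 * x) (m2 : 0 ≤ C1 * w)
    (m3 : 0 ≤ C3 ^ 2 * x) (m4 : 0 ≤ C3 ^ 2 * y) (m5 : 0 ≤ C3 * y) (m6 : 0 ≤ C3 * w) :
    A + 100 * (S1 + S2) ≤ (C3 + 100 * C1 + 400 * C3 ^ 2) * (x + y + w) := by
  have e : (C3 + 100 * C1 + 400 * C3 ^ 2) * (x + y + w) = C3 * x + C3 * y + C3 * w +
      100 * (C1 * x) + 100 * (C1 * y) + 100 * (C1 * w) + 400 * (C3 ^ 2 * x) +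
      400 * (C3 ^ 2 * y) + 400 * (C3 ^ 2 * w) := by ring
  have e' : 4 * C3 ^ 2 * w = 4 * (C3 ^ 2 * w) := by ring
  rw [e]
  rw [e'] at h3
  linarith

private lemma B5b_four (a b w : ℝ) (h : 0 ≤ a * b * w) : a * b * (2 ^ 2 * w) ≤ 8 * a * b * w := by
  have e1 : a * b * (2 ^ 2 * w) = 4 * (a * b * w) := by ring
  have e2 : 8 * a * b * w = 8 * (a * b * w) := by ring
  rw [e1, e2]
  linarith

private lemma B5b_one (a b w : ℝ) (h : 0 ≤ a * b * w) : a * b * w ≤ 8 * a * b * w := by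
  have e2 : 8 * a * b * w = 8 * (a * b * w) := by ring
  rw [e2]
  linarith

private lemma B5b_e1 (C2 C' y M L : ℝ) (hM : M ≠ 0) (hL : L ≠ 0) :
    (C2 * (y / M) / L) * (C' * ((M / L) * (y / M))) = C2 * C' * ((1 / L) ^ 2 * (y ^ 2 / M)) := by
  field_simp

private lemma B5b_e2 (C2 C' y M L l G : ℝ) (hM : M ≠ 0) (hL : L ≠ 0) (hl : l ≠ 0) :
    (C2 * (y / M) / L) * (C' * ((y / M) / l * (M / L) ^ 2 * G)) =
      C2 * C' * ((1 / L) ^ 3 * (1 / l) * (y ^ 2 * G)) := by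
  field_simp

private lemma B5b_e3 (y l G : ℝ) (hl : l ≠ 0) :
    (y / l ^ 2) ^ 2 * G = (1 / l) ^ 3 * (1 / l) * (y ^ 2 * G) := by
  field_simp

private lemma B5b_e4 (C2 C' y M L Q E : ℝ) (hM : M ≠ 0) (hL : L ≠ 0) :
    (C2 * (y / M) / L) * (C' * ((M / L) ^ 2 * (Q ^ 3 * E))) =
      C2 * C' * ((1 / L) ^ 3 * ((y * M) * Q ^ 3 * E)) := by
  field_simp


private lemma E0_nonneg' (J b z : ℕ) : 0 ≤ E0 J b z := by
  unfold E0; positivity

private lemma flEta_nonneg' {L0 : ℝ} (hL : 1 ≤ L0) (b : ℕ) : 0 ≤ flEta L0 b := by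
  unfold flEta; positivity

private lemma pw_nonneg' (q M : ℕ) (u : ℝ) (x : ℕ × ℕ) : 0 ≤ pw q M u x := by
  unfold pw
  have : (0 : ℝ) ≤ max 1 (u * Nat.dist x.1 x.2 / (4 * M)) := le_trans zero_le_one (le_max_left _ _)
  positivity

/-- final algebra: from the squared bound to the bound -/
private lemma final_step (X K a s t w v : ℝ) (hK : 0 ≤ K) (ha : 0 ≤ a) (hs : 0 ≤ s) (ht : 0 ≤ t)
    (hw : 0 ≤ w) (hv : 0 ≤ v)
    (h : X ^ 2 ≤ K * (a ^ 2 * (s ^ 2 + t ^ 2) + w ^ 2 + v ^ 2)) :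
    X ≤ Real.sqrt K * (a * (s + t) + w + v) := by
  have h1 : a ^ 2 * (s ^ 2 + t ^ 2) + w ^ 2 + v ^ 2 ≤ (a * (s + t) + w + v) ^ 2 := by
    have e1 := mul_nonneg (mul_nonneg ha ha) (mul_nonneg hs ht)
    have e2 := mul_nonneg (mul_nonneg ha (add_nonneg hs ht)) hw
    have e3 := mul_nonneg (mul_nonneg ha (add_nonneg hs ht)) hv
    have e4 := mul_nonneg hw hv
    have e5 : (a * (s + t) + w + v) ^ 2 = a ^ 2 * (s ^ 2 + t ^ 2) + w ^ 2 + v ^ 2 +
        2 * (a * a * (s * t)) + 2 * (a * (s + t) * w) + 2 * (a * (s + t) * v) + 2 * (w * v) := by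
      ring
    rw [e5]
    linarith
  have h2 : X ^ 2 ≤ (Real.sqrt K * (a * (s + t) + w + v)) ^ 2 := by
    rw [mul_pow, Real.sq_sqrt hK]
    exact h.trans (mul_le_mul_of_nonneg_left h1 hK)
  have h3 : 0 ≤ Real.sqrt K * (a * (s + t) + w + v) := by positivity
  exact le_of_abs_le (abs_le_of_sq_le_sq h2 h3)

open Classical in
/-- One block. PROOF. `block_cauchy`; `#{m ∈ Icc 2 (y/M), Rough M} ≤ C y/(M log M)` (`rough_count`: `1` is excluded); diagonal pairs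
`p = p'`: at most `C (M/log M)(y/M)`; off-diagonal: `one_pair`, `pair_avg` and `card_prI_le`. With `KT z ≤ 1/log z` (`AP3.KT_le`) and
`log M ≥ log z`, `Q = q max 1 (y|β|) ≥ 1`, `M² ≤ y`:
`‖·‖² ≤ C (y/(M log M)) { (1/log z)(y/M)(M/log M)² (Q^(-1/4) + flEta) + (M/log M)² Q³ E0 + y/log M }
≤ C { (y²/log⁴ z)(Q^(-1/4) + flEta) + y^(3/2) Q³ E0 + y²/M }` (if `log z < 1`, i.e. `z = 2`, note `log z ≥ 1/2`), take square roots
(`M ≥ z`). -/
lemma block_bound : ∃ L0 : ℝ, 1 ≤ L0 ∧ ∃ b0 : ℕ, ∃ C : ℝ, 0 < C ∧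
    ∀ b J z : ℕ, b0 ≤ b → 2 ≤ z → z < 2 ^ (2 ^ J) → flEta L0 b ≤ 1 ∧
    ∀ (y M q a : ℕ) (β : ℝ), z ≤ M → 4 * M ≤ y → M ^ 2 ≤ y → 1 ≤ q → Nat.Coprime a q →
    (q * max 1 (y * |β|)) ^ 4 ≤ M →
    ‖∑ p ∈ prI M (2 * M), ∑ m ∈ (Icc 2 (y / p)).filter (fun m => Rough M m),
        ee (((p * m : ℕ) : ℝ) * (a / q + β))‖
      ≤ C * (y / Real.log z ^ 2 * ((q * max 1 (y * |β|)) ^ (-(1 / 8) : ℝ) + Real.sqrt (flEta L0 b))
        + (y : ℝ) ^ (3 / 4 : ℝ) * (q * max 1 (y * |β|)) ^ 2 * Real.sqrt (E0 J b z)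
        + y / Real.sqrt z) := by
  obtain ⟨L0, hL0, b0, H⟩ := one_pair
  obtain ⟨C1, hC1, hpa⟩ := pair_avg
  obtain ⟨C2, hC2, hrc⟩ := rough_count
  obtain ⟨C3, hC3, hcp⟩ := card_prI_le
  set C' : ℝ := C3 + 100 * C1 + 400 * C3 ^ 2 with hC'
  have hC'0 : 0 < C' := by positivity
  refine ⟨L0, hL0, b0, Real.sqrt (8 * C2 * C'), by positivity, fun b J z hb hz hJ =>
    ⟨(H b J z hb hz hJ).1, ?_⟩⟩
  have H' := (H b J z hb hz hJ).2
  intro y M q a β hzM hyM hMy hq ha hQM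
  set Q : ℝ := q * max 1 (y * |β|) with hQ
  have hM2 : 2 ≤ M := hz.trans hzM
  have hqR : (1 : ℝ) ≤ q := by exact_mod_cast hq
  have hmx : (1 : ℝ) ≤ max 1 (y * |β|) := le_max_left _ _
  have hQ1 : 1 ≤ Q := one_le_mul_of_one_le_of_one_le hqR hmx
  have hQ0 : 0 < Q := by linarith
  have hMR2 : (2 : ℝ) ≤ M := by exact_mod_cast hM2
  have hM0 : (0 : ℝ) < M := by linarith
  have hzR : (2 : ℝ) ≤ z := by exact_mod_cast hz
  have hz0 : (0 : ℝ) < z := by linarith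
  have hzMR : (z : ℝ) ≤ M := by exact_mod_cast hzM
  have hyR : (4 : ℝ) * M ≤ y := by exact_mod_cast hyM
  have hy0 : (0 : ℝ) < y := by linarith
  have hMyR : (M : ℝ) ^ 2 ≤ y := by exact_mod_cast hMy
  set l : ℝ := Real.log z with hl
  set L : ℝ := Real.log M with hLdef
  have hl2 : 1 / 2 ≤ l := by
    have h1 := Real.log_two_gt_d9
    have h2 : Real.log 2 ≤ l := Real.log_le_log (by norm_num) hzR
    linarith
  have hlL : l ≤ L := Real.log_le_log hz0 hzMR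
  have hl0 : 0 < l := by linarith
  have hL00 : 0 < L := by linarith
  have hfl := flEta_nonneg' hL0 b
  have hE := E0_nonneg' J b z
  set fl : ℝ := flEta L0 b with hfldef
  set E : ℝ := E0 J b z with hEdef
  have hK0 := (Pool.Agent.Lib.MP_bae66e_nt.AP3.KT_pos z).le
  have hKl : KT z ≤ 1 / l := by
    have h1 := Pool.Agent.Lib.MP_bae66e_nt.AP3.KT_le z (by omega)
    refine h1.trans ?_
    apply one_div_le_one_div_of_le hl0
    exact Real.log_le_log hz0 (by linarith)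
  set Y : ℝ := (y : ℝ) / M with hY
  have hY0 : 0 ≤ Y := by positivity
  set P := prI M (2 * M) with hP
  have hPc : (#P : ℝ) ≤ C3 * (M / L) := by
    have := hcp M hM2
    rw [mul_div_assoc] at this
    exact this
  -- the count of `m`
  have hA : (#((Icc 2 (y / M)).filter (fun m => Rough M m)) : ℝ) ≤ C2 * Y / L := by
    have h1 := hrc M (y / M) hM2
    have hsub : insert 1 ((Icc 2 (y / M)).filter (fun m => Rough M m)) ⊆ rset M (y / M) := by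
      intro m hm
      rw [Finset.mem_insert] at hm
      rw [Pool.Agent.Lib.MP_bae66e_nt.AP3.mem_rset]
      rcases hm with rfl | hm
      · refine ⟨⟨one_pos, ?_⟩, ?_⟩
        · rw [Nat.le_div_iff_mul_le (by omega)]; omega
        · intro p hp hd
          have := Nat.le_of_dvd one_pos hd
          have := hp.two_le
          omega
      · rw [Finset.mem_filter, Finset.mem_Icc] at hm
        exact ⟨⟨by omega, hm.1.2⟩, hm.2⟩
    have h2 := Finset.card_le_card hsub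
    rw [Finset.card_insert_of_notMem (by simp)] at h2
    have h3 : (#((Icc 2 (y / M)).filter (fun m => Rough M m)) : ℝ) + 1 ≤ (#(rset M (y / M)) : ℝ) := by
      exact_mod_cast h2
    have h4 : ((y / M : ℕ) : ℝ) ≤ Y := Nat.cast_div_le
    have h5 : C2 * ((y / M : ℕ) : ℝ) / L ≤ C2 * Y / L := by gcongr
    linarith
  -- the double sum
  set T : ℕ → ℕ → ℝ := fun p p' => ‖∑ m ∈ (Icc 1 (y / max p p')).filter (fun m => Rough z m),
            ee ((m : ℝ) * (((p : ℝ) - p') * (a / q + β)))‖ with hT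
  have hterm : ∀ p ∈ P, ∀ p' ∈ P, T p p' ≤ (if p = p' then Y else 0)
      + 100 * (KT z * Y * pw q M (y * |β|) (p, p') + KT z * Y * (fl + 1 / Q) + 4 * Q ^ 3 * E) := by
    intro p hp p' hp'
    have hpw := pw_nonneg' q M (y * |β|) (p, p')
    by_cases hpp : p = p'
    · rw [if_pos hpp]
      have h1 : T p p' ≤ Y := by
        rw [hT]
        simp only
        refine (norm_sum_le _ _).trans ?_
        have h2 : ∀ m ∈ (Icc 1 (y / max p p')).filter (fun m => Rough z m),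
            ‖ee ((m : ℝ) * (((p : ℝ) - p') * (a / q + β)))‖ ≤ 1 := fun m _ => by
          rw [MC.norm_ee]
        refine (Finset.sum_le_sum h2).trans ?_
        rw [Finset.sum_const, nsmul_eq_mul, mul_one]
        have h3 : #((Icc 1 (y / max p p')).filter (fun m => Rough z m)) ≤ y / max p p' :=
          (Finset.card_filter_le _ _).trans (by simp)
        have h4 : y / max p p' ≤ y / M := by
          apply Nat.div_le_div_left _ (by omega)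
          have := (Pool.Agent.Lib.MP_bae66e_nt.AP3.mem_prI.mp hp).1.1
          exact this.le.trans (le_max_left _ _)
        have h5 : ((y / M : ℕ) : ℝ) ≤ Y := Nat.cast_div_le
        have h6 : (#((Icc 1 (y / max p p')).filter (fun m => Rough z m)) : ℝ) ≤ ((y / M : ℕ) : ℝ) := by
          exact_mod_cast h3.trans h4
        linarith
      have h7 : 0 ≤ 100 * (KT z * Y * pw q M (y * |β|) (p, p') + KT z * Y * (fl + 1 / Q)
          + 4 * Q ^ 3 * E) := by positivity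
      linarith
    · rw [if_neg hpp, zero_add]
      exact H' y M q a β hM2 hyM hq ha p hp p' hp' hpp
  have hsum : ∑ p ∈ P, ∑ p' ∈ P, T p p'
      ≤ C' * ((M / L) * Y + Y / l * (M / L) ^ 2 * (Q ^ (-(1 / 4) : ℝ) + fl) + (M / L) ^ 2 * (Q ^ 3 * E)) := by
    have h1 : ∑ p ∈ P, ∑ p' ∈ P, T p p' ≤ ∑ p ∈ P, ∑ p' ∈ P, ((if p = p' then Y else 0)
      + 100 * (KT z * Y * pw q M (y * |β|) (p, p') + KT z * Y * (fl + 1 / Q) + 4 * Q ^ 3 * E)) :=
      Finset.sum_le_sum fun p hp => Finset.sum_le_sum fun p' hp' => hterm p hp p' hp'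
    have h2 : ∑ p ∈ P, ∑ p' ∈ P, ((if p = p' then Y else 0)
      + 100 * (KT z * Y * pw q M (y * |β|) (p, p') + KT z * Y * (fl + 1 / Q) + 4 * Q ^ 3 * E))
      = #P * Y + 100 * (KT z * Y * ∑ x ∈ P ×ˢ P, pw q M (y * |β|) x
        + (#P : ℝ) ^ 2 * (KT z * Y * (fl + 1 / Q) + 4 * Q ^ 3 * E)) := by
      have e1 : ∑ p ∈ P, ∑ p' ∈ P, (if p = p' then Y else 0) = #P * Y := by
        rw [← nsmul_eq_mul, ← Finset.sum_const]
        refine Finset.sum_congr rfl fun p hp => ?_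
        rw [Finset.sum_ite_eq, if_pos hp]
      have e2 : ∑ p ∈ P, ∑ p' ∈ P, (100 * (KT z * Y * pw q M (y * |β|) (p, p')
          + KT z * Y * (fl + 1 / Q) + 4 * Q ^ 3 * E))
          = 100 * (KT z * Y * ∑ x ∈ P ×ˢ P, pw q M (y * |β|) x
        + (#P : ℝ) ^ 2 * (KT z * Y * (fl + 1 / Q) + 4 * Q ^ 3 * E)) := by
        rw [← Finset.sum_product' P P (fun p p' => (100 * (KT z * Y * pw q M (y * |β|) (p, p')
          + KT z * Y * (fl + 1 / Q) + 4 * Q ^ 3 * E)))]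
        rw [← Finset.mul_sum]
        congr 1
        rw [Finset.mul_sum]
        have e3 : (#P : ℝ) ^ 2 * (KT z * Y * (fl + 1 / Q) + 4 * Q ^ 3 * E)
            = ∑ x ∈ P ×ˢ P, (KT z * Y * (fl + 1 / Q) + 4 * Q ^ 3 * E) := by
          rw [Finset.sum_const, Finset.card_product, nsmul_eq_mul]
          push_cast
          ring
        rw [e3, ← Finset.sum_add_distrib]
        refine Finset.sum_congr rfl fun x _ => ?_
        ring
      calc _ = ∑ p ∈ P, ((∑ p' ∈ P, (if p = p' then Y else 0))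
            + ∑ p' ∈ P, (100 * (KT z * Y * pw q M (y * |β|) (p, p')
          + KT z * Y * (fl + 1 / Q) + 4 * Q ^ 3 * E))) :=
            Finset.sum_congr rfl fun p _ => Finset.sum_add_distrib
        _ = _ := by rw [Finset.sum_add_distrib, e1, e2]
    rw [h2] at h1
    refine h1.trans ?_
    have hp1 := hpa M q (y * |β|) hM2 hq (by positivity) hQM
    rw [← hQ] at hp1
    have hQr : 1 / Q ≤ Q ^ (-(1 / 4) : ℝ) := by
      rw [one_div, ← Real.rpow_neg_one]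
      exact Real.rpow_le_rpow_of_exponent_le hQ1 (by norm_num)
    set R : ℝ := Q ^ (-(1 / 4) : ℝ) with hR
    have hR0 : 0 ≤ R := by positivity
    set D : ℝ := (M : ℝ) / L with hD
    have hD0 : 0 ≤ D := by positivity
    have hPc0 : (0 : ℝ) ≤ #P := Nat.cast_nonneg _
    have i1 : (#P : ℝ) * Y ≤ C3 * (D * Y) := by
      calc (#P : ℝ) * Y ≤ (C3 * D) * Y := by gcongr
        _ = _ := by ring
    have i2 : KT z * Y * ∑ x ∈ P ×ˢ P, pw q M (y * |β|) x ≤ C1 * (Y / l * D ^ 2 * R) := by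
      calc KT z * Y * ∑ x ∈ P ×ˢ P, pw q M (y * |β|) x
          ≤ (1 / l) * Y * (C1 * D ^ 2 * R) := by
            apply mul_le_mul _ hp1 (Finset.sum_nonneg fun x _ => pw_nonneg' q M _ x) (by positivity)
            gcongr
        _ = _ := by ring
    have i3 : (#P : ℝ) ^ 2 * (KT z * Y * (fl + 1 / Q) + 4 * Q ^ 3 * E)
        ≤ C3 ^ 2 * (Y / l * D ^ 2 * (R + fl)) + 4 * C3 ^ 2 * (D ^ 2 * (Q ^ 3 * E)) := by
      calc (#P : ℝ) ^ 2 * (KT z * Y * (fl + 1 / Q) + 4 * Q ^ 3 * E)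
          ≤ (C3 * D) ^ 2 * ((1 / l) * Y * (fl + R) + 4 * Q ^ 3 * E) := by gcongr
        _ = _ := by ring
    have j1 : 0 ≤ D * Y := by positivity
    have j2 : 0 ≤ Y / l * D ^ 2 * (R + fl) := by positivity
    have j3 : 0 ≤ D ^ 2 * (Q ^ 3 * E) := by positivity
    have j4 : Y / l * D ^ 2 * R ≤ Y / l * D ^ 2 * (R + fl) := by
      have : 0 ≤ Y / l * D ^ 2 := by positivity
      exact mul_le_mul_of_nonneg_left (by linarith) this
    have k1 : C1 * (Y / l * D ^ 2 * R) ≤ C1 * (Y / l * D ^ 2 * (R + fl)) :=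
      mul_le_mul_of_nonneg_left j4 hC1.le
    rw [hC']
    have m1 := mul_nonneg hC1.le j1
    have m2 := mul_nonneg hC1.le j3
    have m3 := mul_nonneg (sq_nonneg C3) j1
    have m4 := mul_nonneg (sq_nonneg C3) j2
    have m5 := mul_nonneg (by linarith : 0 ≤ C3) j2
    have m6 := mul_nonneg (by linarith : 0 ≤ C3) j3
    exact B5b_fin _ _ _ C1 C3 (D * Y) (Y / l * D ^ 2 * (R + fl)) (D ^ 2 * (Q ^ 3 * E)) i1
      (i2.trans k1) i3 m1 m2 m3 m4 m5 m6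
  have hcau := block_cauchy y M z (by omega) hzM (a / q + β)
  set X : ℝ := ‖∑ p ∈ prI M (2 * M), ∑ m ∈ (Icc 2 (y / p)).filter (fun m => Rough M m),
        ee (((p * m : ℕ) : ℝ) * (a / q + β))‖ with hX
  set D : ℝ := (M : ℝ) / L with hD
  have hD0 : 0 ≤ D := by positivity
  have hR0 : 0 ≤ Q ^ (-(1 / 4) : ℝ) := by positivity
  have hX2 : X ^ 2 ≤ (C2 * Y / L) * (C' * (D * Y + Y / l * D ^ 2 * (Q ^ (-(1 / 4) : ℝ) + fl)
      + D ^ 2 * (Q ^ 3 * E))) := by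
    refine hcau.trans ?_
    apply mul_le_mul hA hsum
    · exact Finset.sum_nonneg fun p _ => Finset.sum_nonneg fun p' _ => norm_nonneg _
    · positivity
  apply final_step X (8 * C2 * C') (y / l ^ 2) (Q ^ (-(1 / 8) : ℝ)) (Real.sqrt fl)
    ((y : ℝ) ^ (3 / 4 : ℝ) * Q ^ 2 * Real.sqrt E) (y / Real.sqrt z) (by positivity) (by positivity)
    (by positivity) (by positivity) (by positivity) (by positivity)
  refine hX2.trans ?_
  have s1 : (Q ^ (-(1 / 8) : ℝ)) ^ 2 = Q ^ (-(1 / 4) : ℝ) := by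
    rw [← Real.rpow_natCast, ← Real.rpow_mul hQ0.le]
    norm_num
  have s2 : Real.sqrt fl ^ 2 = fl := Real.sq_sqrt hfl
  have s3 : ((y : ℝ) ^ (3 / 4 : ℝ) * Q ^ 2 * Real.sqrt E) ^ 2 = (y * Real.sqrt y) * Q ^ 4 * E := by
    rw [mul_pow, mul_pow, Real.sq_sqrt hE, ← Real.rpow_natCast ((y : ℝ) ^ (3 / 4 : ℝ)) 2,
      ← Real.rpow_mul hy0.le, Real.sqrt_eq_rpow]
    have : (y : ℝ) * (y : ℝ) ^ (1 / 2 : ℝ) = (y : ℝ) ^ (3 / 4 * ((2 : ℕ) : ℝ)) := by
      nth_rewrite 1 [← Real.rpow_one (y : ℝ)]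
      rw [← Real.rpow_add hy0]
      norm_num
    rw [this]
    ring
  have s4 : (y / Real.sqrt z) ^ 2 = (y : ℝ) ^ 2 / z := by
    rw [div_pow, Real.sq_sqrt hz0.le]
  rw [s1, s2, s3, s4]
  have hMs : (M : ℝ) ≤ Real.sqrt y := Real.le_sqrt_of_sq_le hMyR
  have hinv : 1 / L ≤ 1 / l := one_div_le_one_div_of_le hl0 hlL
  have hinv2 : 1 / l ≤ 2 := by rw [div_le_iff₀ hl0]; linarith
  set i : ℝ := 1 / l with hi
  have hi0 : 0 ≤ i := by positivity
  set I : ℝ := 1 / L with hI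
  have hI0 : 0 ≤ I := by positivity
  have hI2 : I ≤ 2 := hinv.trans hinv2
  have hQ34 : Q ^ 3 ≤ Q ^ 4 := by
    calc Q ^ 3 = Q ^ 3 * 1 := by ring
      _ ≤ Q ^ 3 * Q := by gcongr
      _ = Q ^ 4 := by ring
  have t1 : (C2 * Y / L) * (C' * (D * Y)) ≤ 8 * C2 * C' * ((y : ℝ) ^ 2 / z) := by
    have e1 : (C2 * Y / L) * (C' * (D * Y)) = C2 * C' * (I ^ 2 * ((y : ℝ) ^ 2 / M)) :=
      B5b_e1 C2 C' y M L hM0.ne' hL00.ne'
    rw [e1]
    have e2 : (y : ℝ) ^ 2 / M ≤ (y : ℝ) ^ 2 / z :=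
      div_le_div_of_nonneg_left (by positivity) hz0 hzMR
    calc C2 * C' * (I ^ 2 * ((y : ℝ) ^ 2 / M)) ≤ C2 * C' * (2 ^ 2 * ((y : ℝ) ^ 2 / z)) := by gcongr
      _ ≤ _ := by
        have : 0 ≤ C2 * C' * ((y : ℝ) ^ 2 / z) := by positivity
        exact B5b_four _ _ _ this
  have t2 : (C2 * Y / L) * (C' * (Y / l * D ^ 2 * (Q ^ (-(1 / 4) : ℝ) + fl)))
      ≤ 8 * C2 * C' * ((y / l ^ 2) ^ 2 * (Q ^ (-(1 / 4) : ℝ) + fl)) := by
    have e1 : (C2 * Y / L) * (C' * (Y / l * D ^ 2 * (Q ^ (-(1 / 4) : ℝ) + fl)))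
        = C2 * C' * (I ^ 3 * i * ((y : ℝ) ^ 2 * (Q ^ (-(1 / 4) : ℝ) + fl))) :=
      B5b_e2 C2 C' y M L l _ hM0.ne' hL00.ne' hl0.ne'
    have e2 : (y / l ^ 2) ^ 2 * (Q ^ (-(1 / 4) : ℝ) + fl) = i ^ 3 * i * ((y : ℝ) ^ 2 * (Q ^ (-(1 / 4) : ℝ) + fl)) :=
      B5b_e3 y l _ hl0.ne'
    rw [e1, e2]
    calc C2 * C' * (I ^ 3 * i * ((y : ℝ) ^ 2 * (Q ^ (-(1 / 4) : ℝ) + fl)))
        ≤ C2 * C' * (i ^ 3 * i * ((y : ℝ) ^ 2 * (Q ^ (-(1 / 4) : ℝ) + fl))) := by gcongr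
      _ ≤ _ := by
        have : 0 ≤ C2 * C' * (i ^ 3 * i * ((y : ℝ) ^ 2 * (Q ^ (-(1 / 4) : ℝ) + fl))) := by positivity
        exact B5b_one _ _ _ this
  have t3 : (C2 * Y / L) * (C' * (D ^ 2 * (Q ^ 3 * E))) ≤ 8 * C2 * C' * ((y * Real.sqrt y) * Q ^ 4 * E) := by
    have e1 : (C2 * Y / L) * (C' * (D ^ 2 * (Q ^ 3 * E))) = C2 * C' * (I ^ 3 * ((y * M) * Q ^ 3 * E)) :=
      B5b_e4 C2 C' y M L Q E hM0.ne' hL00.ne'
    rw [e1]
    calc C2 * C' * (I ^ 3 * ((y * M) * Q ^ 3 * E)) ≤ C2 * C' * (2 ^ 3 * ((y * Real.sqrt y) * Q ^ 4 * E)) := by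
          gcongr
      _ = _ := by ring
  calc (C2 * Y / L) * (C' * (D * Y + Y / l * D ^ 2 * (Q ^ (-(1 / 4) : ℝ) + fl) + D ^ 2 * (Q ^ 3 * E)))
      = (C2 * Y / L) * (C' * (D * Y)) + (C2 * Y / L) * (C' * (Y / l * D ^ 2 * (Q ^ (-(1 / 4) : ℝ) + fl)))
        + (C2 * Y / L) * (C' * (D ^ 2 * (Q ^ 3 * E))) := by ring
    _ ≤ 8 * C2 * C' * ((y : ℝ) ^ 2 / z) + 8 * C2 * C' * ((y / l ^ 2) ^ 2 * (Q ^ (-(1 / 4) : ℝ) + fl))
        + 8 * C2 * C' * ((y * Real.sqrt y) * Q ^ 4 * E) := add_le_add (add_le_add t1 t2) t3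
    _ = _ := by ring

end Pool.Agent.PP
end

section

/-!
# B6a: the exponential sum over the primes in terms of the parameters of the sieve
-/

set_option autoImplicit false

namespace Pool.Agent.PP

open Finset MeasureTheory Real
open Pool.Agent.MC (ee expSum frac frac' arcSum fareySet)
open Pool.Agent.Lib.MP_bae66e_nt.AP3 (Rough rset dset prI KT flEta FLP cset Om0 xb prm)

private lemma B6a_k (K l Y : ℝ) (h4 : 2 * ((K - 1) * l) ≤ Y) (h5 : 1 / 2 ≤ l) (h7 : 1 ≤ K) :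
    K ≤ 1 + Y := by
  have h := mul_nonneg (sub_nonneg.2 h7) (sub_nonneg.2 h5)
  have e : 2 * ((K - 1) * l) = 2 * ((K - 1) * (l - 1 / 2)) + (K - 1) := by ring
  rw [e] at h4
  linarith

private lemma B6a_4M (M y : ℕ) (h : (M + 1) ^ 2 ≤ y) : 4 * M ≤ y := by
  have h1 : 4 * M ≤ (M + 1) ^ 2 := by
    zify
    nlinarith [sq_nonneg ((M : ℤ) - 1)]
  exact h1.trans h

private lemma B6a_fin (P K C1 C2 A u w R d : ℝ) (hP : P ≤ 4 * (C2 * d) + C2 * w)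
    (hK : K ≤ C1 * u) (f1 : 0 ≤ C1 * A) (f2 : 0 ≤ C1 * R) (f4 : 0 ≤ C1 * d) (f6 : 0 ≤ C1 * w)
    (g1 : 0 ≤ C2 * A) (g2 : 0 ≤ C2 * R) (g4 : 0 ≤ C2 * d) (g5 : 0 ≤ C2 * u) (g6 : 0 ≤ C2 * w) :
    P + K ≤ (C1 + 4 * C2) * (A + (u + w) + R + d) := by
  have e : (C1 + 4 * C2) * (A + (u + w) + R + d) = C1 * A + C1 * u + C1 * w + C1 * R + C1 * d +
      4 * (C2 * A) + 4 * (C2 * u) + 4 * (C2 * w) + 4 * (C2 * R) + 4 * (C2 * d) := by ring
  rw [e]
  linarith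


/-- The total bound, up to a constant. -/
noncomputable def SB (L0 : ℝ) (y b J z : ℕ) (Q : ℝ) : ℝ :=
  y / Real.log z * (Q ^ (-(1 / 2) : ℝ) + flEta L0 b)
  + (1 + Real.log y) * (y / Real.log z ^ 2 * (Q ^ (-(1 / 8) : ℝ) + Real.sqrt (flEta L0 b))
    + y / Real.log z ^ 3 + (y : ℝ) ^ (3 / 4 : ℝ) * Q ^ 2 * Real.sqrt (E0 J b z) + y / Real.sqrt z)
  + Q ^ 3 * E0 J b z + y / Real.log z ^ 2

private lemma sum_prI_split (f : ℕ → ℂ) {a b c : ℕ} (hab : a ≤ b) (hbc : b ≤ c) :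
    ∑ p ∈ prI a c, f p = ∑ p ∈ prI a b, f p + ∑ p ∈ prI b c, f p := by
  unfold prI
  rw [Finset.sum_filter, Finset.sum_filter, Finset.sum_filter]
  exact (Finset.sum_Ioc_consecutive _ hab hbc).symm

private lemma sum_prI_blocks (f : ℕ → ℂ) (z k : ℕ) :
    ∑ p ∈ prI z (2 ^ k * z), f p
      = ∑ j ∈ range k, ∑ p ∈ prI (2 ^ j * z) (2 * (2 ^ j * z)), f p := by
  induction k with
  | zero =>
    simp [prI]
  | succ k ih =>
    rw [Finset.sum_range_succ, ← ih]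
    have e : 2 ^ (k + 1) * z = 2 * (2 ^ k * z) := by ring
    rw [e]
    apply sum_prI_split
    · exact Nat.le_mul_of_pos_left z (by positivity)
    · omega

private lemma sum_sq_blocks (z : ℝ) (k : ℕ) :
    ∑ j ∈ range k, ((2 : ℝ) ^ j * z) ^ 2 ≤ (4 : ℝ) ^ k * z ^ 2 / 3 := by
  induction k with
  | zero => simp; positivity
  | succ k ih =>
    rw [Finset.sum_range_succ]
    have e : ((2 : ℝ) ^ k * z) ^ 2 = (4 : ℝ) ^ k * z ^ 2 := by
      rw [mul_pow, ← pow_mul, mul_comm k 2, pow_mul]; norm_num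
    have e2 : (4 : ℝ) ^ (k + 1) * z ^ 2 / 3 = (4 : ℝ) ^ k * z ^ 2 / 3 + (4 : ℝ) ^ k * z ^ 2 := by
      rw [pow_succ' (4 : ℝ) k]; ring
    rw [e, e2]
    linarith

open Classical in
/-- The sum over the blocks. PROOF. Let `k` be minimal with `y < (2^k z + 1)²` (so `2^(k-1) z ≤ √y` if `k ≥ 1`, `k ≤ 1 + log y`) and
`Z = 2^k z`. `prI z Z` is the disjoint union of the blocks `prI M (2M)`, `M = 2^j z`, `j < k`, `M ≤ √y`. For each block `buch_err`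
(error `C (M²/log² M + y/log³ M)`; sum over `j`: `∑_j 4^j z²/log² z ≤ (4/3) y/log² z · (1/1)` as `(2^(k-1) z)² ≤ y`, and
`k y/log³ z`) and `block_bound`. -/
lemma blocks_sum : ∃ L0 : ℝ, 1 ≤ L0 ∧ ∃ b0 : ℕ, ∃ C : ℝ, 0 < C ∧
    ∀ b J z : ℕ, b0 ≤ b → 2 ≤ z → z < 2 ^ (2 ^ J) →
    ∀ (y q a : ℕ) (β : ℝ), 16 ≤ y → z ^ 2 ≤ y → 1 ≤ q → Nat.Coprime a q →
    (q * max 1 (y * |β|)) ^ 4 ≤ z →
    ∃ Z : ℕ, y < (Z + 1) ^ 2 ∧
    ‖∑ p ∈ prI z Z, ∑ m ∈ (Icc 2 (y / p)).filter (fun m => Rough (p - 1) m),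
        ee (((p * m : ℕ) : ℝ) * (a / q + β))‖ ≤ C * SB L0 y b J z (q * max 1 (y * |β|)) := by
  obtain ⟨L0, hL0, b0, C1, hC1, H⟩ := block_bound
  obtain ⟨C2, hC2, hbe⟩ := buch_err
  refine ⟨L0, hL0, b0, C1 + 4 * C2, by positivity, ?_⟩
  intro b J z hb hz hJ y q a β hy16 hzy hq ha hQz
  obtain ⟨hfl1, H'⟩ := H b J z hb hz hJ
  set Q : ℝ := q * max 1 (y * |β|) with hQ
  have hqR : (1 : ℝ) ≤ q := by exact_mod_cast hq
  have hmx : (1 : ℝ) ≤ max 1 (y * |β|) := le_max_left _ _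
  have hQ1 : 1 ≤ Q := one_le_mul_of_one_le_of_one_le hqR hmx
  have hQ0 : 0 < Q := by linarith
  have hzR : (2 : ℝ) ≤ z := by exact_mod_cast hz
  have hz0 : (0 : ℝ) < z := by linarith
  have hyR16 : (16 : ℝ) ≤ y := by exact_mod_cast hy16
  have hy0 : (0 : ℝ) < y := by linarith
  set l : ℝ := Real.log z with hl
  have hl2 : 1 / 2 ≤ l := by
    have h1 := Real.log_two_gt_d9
    have h2 : Real.log 2 ≤ l := Real.log_le_log (by norm_num) hzR
    linarith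
  have hl0 : 0 < l := by linarith
  have hlogy : 0 ≤ Real.log y := Real.log_nonneg (by linarith)
  have hfl0 : 0 ≤ flEta L0 b := by unfold flEta; positivity
  have hE0 : 0 ≤ E0 J b z := by unfold E0; positivity
  -- the number of blocks
  have hex : ∃ k : ℕ, y < (2 ^ k * z + 1) ^ 2 := by
    refine ⟨y, ?_⟩
    have h1 : y < 2 ^ y := Nat.lt_two_pow_self
    have h2 : 2 ^ y ≤ 2 ^ y * z := Nat.le_mul_of_pos_right _ (by omega)
    calc y < 2 ^ y * z + 1 := by omega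
      _ ≤ (2 ^ y * z + 1) ^ 2 := Nat.le_self_pow two_ne_zero _
  set k := Nat.find hex with hk
  have hkspec : y < (2 ^ k * z + 1) ^ 2 := Nat.find_spec hex
  have hklt : ∀ j < k, (2 ^ j * z + 1) ^ 2 ≤ y := fun j hj => by
    have := Nat.find_min hex hj
    omega
  have hkbd : (k : ℝ) ≤ 1 + Real.log y := by
    rcases Nat.eq_zero_or_pos k with h0 | h0
    · rw [h0]; push_cast; linarith
    · have h1 := hklt (k - 1) (by omega)
      have h2 : (2 ^ (k - 1)) ^ 2 ≤ y := by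
        have : 2 ^ (k - 1) ≤ 2 ^ (k - 1) * z + 1 := by
          have := Nat.le_mul_of_pos_right (2 ^ (k - 1)) (show 0 < z by omega)
          omega
        calc (2 ^ (k - 1)) ^ 2 ≤ (2 ^ (k - 1) * z + 1) ^ 2 := Nat.pow_le_pow_left this 2
          _ ≤ y := h1
      have h3 : (((2 : ℝ) ^ (k - 1)) ^ 2) ≤ y := by exact_mod_cast h2
      have h4 := Real.log_le_log (by positivity) h3
      rw [Real.log_pow, Real.log_pow] at h4
      have h5 := Real.log_two_gt_d9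
      have h6 : ((k - 1 : ℕ) : ℝ) = k - 1 := by
        rw [Nat.cast_sub h0]; norm_num
      rw [h6] at h4
      have h7 : (1 : ℝ) ≤ k := by exact_mod_cast h0
      push_cast at h4
      exact B6a_k _ _ _ h4 (by linarith) h7
  have hk4 : (4 : ℝ) ^ k * z ^ 2 / 3 ≤ 4 * y := by
    rcases Nat.eq_zero_or_pos k with h0 | h0
    · rw [h0, pow_zero, one_mul]
      have : (z : ℝ) ^ 2 ≤ y := by exact_mod_cast hzy
      linarith
    · have h1 := hklt (k - 1) (by omega)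
      have h2 : (2 ^ (k - 1) * z) ^ 2 ≤ y := by
        calc (2 ^ (k - 1) * z) ^ 2 ≤ (2 ^ (k - 1) * z + 1) ^ 2 := Nat.pow_le_pow_left (by omega) 2
          _ ≤ y := h1
      have h3 : (((2 : ℝ) ^ (k - 1) * z) ^ 2) ≤ y := by exact_mod_cast h2
      have h4 : (4 : ℝ) ^ k * z ^ 2 = 4 * ((2 : ℝ) ^ (k - 1) * z) ^ 2 := by
        rw [mul_pow, ← pow_mul, mul_comm (k - 1) 2, pow_mul]
        have : (4 : ℝ) ^ k = 4 * 4 ^ (k - 1) := by
          rw [← pow_succ']; congr 1; omega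
        rw [this]; norm_num
        ring
      rw [h4]; linarith
  refine ⟨2 ^ k * z, hkspec, ?_⟩
  rw [sum_prI_blocks]
  set B : ℝ := y / l ^ 2 * (Q ^ (-(1 / 8) : ℝ) + Real.sqrt (flEta L0 b))
        + (y : ℝ) ^ (3 / 4 : ℝ) * Q ^ 2 * Real.sqrt (E0 J b z) + y / Real.sqrt z with hB
  have hB0 : 0 ≤ B := by positivity
  have hblock : ∀ j ∈ range k, ‖∑ p ∈ prI (2 ^ j * z) (2 * (2 ^ j * z)),
      ∑ m ∈ (Icc 2 (y / p)).filter (fun m => Rough (p - 1) m), ee (((p * m : ℕ) : ℝ) * (a / q + β))‖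
      ≤ C2 * (((2 : ℝ) ^ j * z) ^ 2 / l ^ 2 + y / l ^ 3) + C1 * B := by
    intro j hj
    rw [Finset.mem_range] at hj
    have hMy := hklt j hj
    set M : ℕ := 2 ^ j * z with hM
    have hzM : z ≤ M := Nat.le_mul_of_pos_left z (by positivity)
    have hM2 : 2 ≤ M := hz.trans hzM
    have hMR : ((M : ℕ) : ℝ) = (2 : ℝ) ^ j * z := by rw [hM]; push_cast; ring
    have hzMR : (z : ℝ) ≤ M := by exact_mod_cast hzM
    have hlL : l ≤ Real.log M := Real.log_le_log hz0 hzMR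
    have h1 := hbe y M (fun n => ee (((n : ℕ) : ℝ) * (a / q + β))) hM2 (fun n => by rw [MC.norm_ee])
    have h2 := H' y M q a β hzM (B6a_4M M y hMy) ((Nat.pow_le_pow_left (Nat.le_succ M) 2).trans hMy)
      hq ha (hQz.trans hzMR)
    rw [← hQ, ← hB] at h2
    have h3 : (M : ℝ) ^ 2 / Real.log M ^ 2 + y / Real.log M ^ 3
        ≤ ((2 : ℝ) ^ j * z) ^ 2 / l ^ 2 + y / l ^ 3 := by
      rw [hMR]
      rw [hMR] at hlL
      gcongr
    have h4 := norm_sub_norm_le (∑ p ∈ prI M (2 * M), ∑ m ∈ (Icc 2 (y / p)).filter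
      (fun m => Rough (p - 1) m), ee (((p * m : ℕ) : ℝ) * (a / q + β)))
      (∑ p ∈ prI M (2 * M), ∑ m ∈ (Icc 2 (y / p)).filter
      (fun m => Rough M m), ee (((p * m : ℕ) : ℝ) * (a / q + β)))
    have h5 := mul_le_mul_of_nonneg_left h3 hC2.le
    linarith
  refine (norm_sum_le _ _).trans ((Finset.sum_le_sum hblock).trans ?_)
  rw [Finset.sum_add_distrib, ← Finset.mul_sum, Finset.sum_add_distrib, Finset.sum_const, Finset.sum_const,
    Finset.card_range, nsmul_eq_mul, nsmul_eq_mul, ← Finset.sum_div]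
  have hS : (∑ j ∈ range k, ((2 : ℝ) ^ j * z) ^ 2) / l ^ 2 ≤ 4 * (y / l ^ 2) := by
    rw [← mul_div_assoc]
    exact div_le_div_of_nonneg_right ((sum_sq_blocks z k).trans hk4) (by positivity)
  unfold SB
  rw [← hl]
  have r1 : 0 ≤ y / l * (Q ^ (-(1 / 2) : ℝ) + flEta L0 b) := by positivity
  have r2 : 0 ≤ Q ^ 3 * E0 J b z := by positivity
  have r3 : 0 ≤ y / l ^ 3 := by positivity
  have r4 : 0 ≤ y / l ^ 2 := by positivity
  have hk0 : (0 : ℝ) ≤ k := Nat.cast_nonneg _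
  have e1 : (k : ℝ) * (y / l ^ 3) ≤ (1 + Real.log y) * (y / l ^ 3) := by gcongr
  have e2 : (k : ℝ) * (C1 * B) ≤ C1 * ((1 + Real.log y) * B) := by
    calc (k : ℝ) * (C1 * B) = C1 * (k * B) := by ring
      _ ≤ C1 * ((1 + Real.log y) * B) := by gcongr
  have e3 : C2 * ((∑ j ∈ range k, ((2 : ℝ) ^ j * z) ^ 2) / l ^ 2 + k * (y / l ^ 3))
      ≤ C2 * (4 * (y / l ^ 2) + (1 + Real.log y) * (y / l ^ 3)) := by gcongr
  have e4 : (1 + Real.log y) * (y / l ^ 2 * (Q ^ (-(1 / 8) : ℝ) + Real.sqrt (flEta L0 b))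
    + y / l ^ 3 + (y : ℝ) ^ (3 / 4 : ℝ) * Q ^ 2 * Real.sqrt (E0 J b z) + y / Real.sqrt z)
    = (1 + Real.log y) * B + (1 + Real.log y) * (y / l ^ 3) := by rw [hB]; ring
  rw [e4]
  have r5 : 0 ≤ (1 + Real.log y) * B := by positivity
  have r6 : 0 ≤ (1 + Real.log y) * (y / l ^ 3) := by positivity
  have f1 := mul_nonneg hC1.le r1
  have f2 := mul_nonneg hC1.le r2
  have f4 := mul_nonneg hC1.le r4
  have f6 := mul_nonneg hC1.le r6
  have g1 := mul_nonneg hC2.le r1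
  have g2 := mul_nonneg hC2.le r2
  have g4 := mul_nonneg hC2.le r4
  have g5 := mul_nonneg hC2.le r5
  have g6 := mul_nonneg hC2.le r6
  exact B6a_fin _ _ C1 C2 _ _ _ _ _ (e3.trans (le_of_eq (by ring))) e2 f1 f2 f4 f6 g1 g2 g4 g5 g6

end Pool.Agent.PP
end
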