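import Pool.Agent.Lib.MP_bae66e_nt.Mg.G088
import Pool.Agent.Lib.MP_9cfc0a_nt.TotientLemmas
import Pool.Agent.Lib.MP_bae66e_nt.Mg.G090
import Pool.Agent.Lib.MP_bae66e_nt.PP.B7b

section

/-!
# B6b: the exponential sum over the primes in terms of the parameters of the sieve
-/

set_option autoImplicit false

namespace Pool.Agent.PP

open Finset MeasureTheory Real
open Pool.Agent.MC (ee expSum frac frac' arcSum fareySet)
open Pool.Agent.Lib.MP_bae66e_nt.AP3 (Rough rset dset prI KT flEta FLP cset Om0 xb prm)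

private lemma B6b_four (t m : ℝ) : (2 * t ^ 2) * m ^ 2 ≤ 4 * (t * m) ^ 2 := by
  have h : 0 ≤ (t * m) ^ 2 := sq_nonneg _
  have e : (2 * t ^ 2) * m ^ 2 = 2 * (t * m) ^ 2 := by ring
  rw [e]
  linarith

private lemma B6b_sq (Q x : ℝ) (h : Q ≤ 4 * x ^ 2) : Q ≤ (2 * x) ^ 2 := by
  have e : (2 * x) ^ 2 = 4 * x ^ 2 := by ring
  rw [e]
  exact h

private lemma B6b_hr (A B D i y R F : ℝ) {X Y : ℝ} (h1 : A ≤ i * y * (2 * R))
    (h2 : B ≤ i * y * (F + R)) (h3 : D ≤ 4 * X) (j1 : 0 ≤ i * y * F) (j2 : 0 ≤ i * y * R)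
    (j3 : Y = X) : 100 * (A + B + D) ≤ 400 * (i * y * R + i * y * F + Y) := by
  have e1 : i * y * (2 * R) = 2 * (i * y * R) := by ring
  have e2 : i * y * (F + R) = i * y * F + i * y * R := by ring
  rw [e1] at h1
  rw [e2] at h2
  rw [j3]
  linarith

private lemma B6b_fin (A B C1 S1 S0 D : ℝ) (p1 : 0 ≤ A) (p2 : 0 ≤ B) (p3 : C1 * S1 ≤ C1 * S0)
    (h1 : 1 ≤ D) (h : A + B + D ≤ S0) : 400 * (A + B) + 1 + C1 * S1 ≤ (C1 + 401) * S0 := by
  have e : (C1 + 401) * S0 = C1 * S0 + 401 * S0 := by ring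
  rw [e]
  linarith


private lemma flEta_mono' {L L' : ℝ} (h0 : 1 ≤ L) (h : L ≤ L') (b : ℕ) : flEta L b ≤ flEta L' b := by
  unfold flEta
  have : (0 : ℝ) ≤ L := by linarith
  gcongr

private lemma SB_mono {L L' : ℝ} (h0 : 1 ≤ L) (h : L ≤ L') (y b J z : ℕ) (hy : 1 ≤ y) (hz : 1 ≤ z) {Q : ℝ}
    (hQ : 0 ≤ Q) : SB L y b J z Q ≤ SB L' y b J z Q := by
  unfold SB
  have h1 := flEta_mono' h0 h b
  have h2 : Real.sqrt (flEta L b) ≤ Real.sqrt (flEta L' b) := Real.sqrt_le_sqrt h1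
  have h3 : 0 ≤ Real.log y := Real.log_nonneg (by exact_mod_cast hy)
  have h4 : 0 ≤ Real.log z := Real.log_nonneg (by exact_mod_cast hz)
  have h5 : 0 ≤ Q ^ (-(1 / 2) : ℝ) + flEta L b := by
    have : 0 ≤ flEta L b := by
      unfold flEta
      have : (0 : ℝ) ≤ L := by linarith
      positivity
    positivity
  have h6 : 0 ≤ Q ^ (-(1 / 8) : ℝ) + Real.sqrt (flEta L b) := by positivity
  gcongr

/-- PROOF. `buchstab` with `φ n = ee (n α)`, `blocks_sum`, and for the rough integers `rough_exp` with `N = y`, `θ = β`,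
`B0 = 2 Q` (`Icc 2 y` instead of `Icc 1 y`: one term): `KT z ≤ 1/log z`, `1/(φ(q) max 1 (y|β|)) ≤ 2 Q^(-1/2)`
(`n ≤ 2 φ(n)²`: `MC.le_two_mul_totient_sq`), `1/B0 ≤ Q^(-1/2)`, `B0² q ≤ 4 Q³`. (The constants `L0`, `b0` of the two results: take
both from their existential statements; if you need the same `L0`, note that `flEta L0 b` is increasing in `L0`, so take
the maximum of the two: `SB` increases with `L0`.) -/
lemma primes_exp : ∃ L0 : ℝ, 1 ≤ L0 ∧ ∃ b0 : ℕ, ∃ C : ℝ, 0 < C ∧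
    ∀ b J z : ℕ, b0 ≤ b → 2 ≤ z → z < 2 ^ (2 ^ J) →
    ∀ (y q a : ℕ) (β : ℝ), 16 ≤ y → z ^ 2 ≤ y → 1 ≤ q → Nat.Coprime a q →
    (q * max 1 (y * |β|)) ^ 4 ≤ z →
    ‖∑ p ∈ prI z y, ee ((p : ℝ) * (a / q + β))‖ ≤ C * SB L0 y b J z (q * max 1 (y * |β|)) := by
  classical
  obtain ⟨L1, hL1, b1, C1, hC1, H⟩ := blocks_sum
  obtain ⟨L2, hL2, b2, G⟩ := rough_exp
  refine ⟨max L1 L2, hL1.trans (le_max_left _ _), max b1 b2, C1 + 401, by positivity, ?_⟩
  intro b J z hb hz hJ y q a β hy16 hzy hq ha hQz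
  obtain ⟨Z, hZ, hblk⟩ := H b J z ((le_max_left _ _).trans hb) hz hJ y q a β hy16 hzy hq ha hQz
  have hrg := (G b J z ((le_max_right _ _).trans hb) hz hJ).2
  set L0 : ℝ := max L1 L2 with hL0def
  have hL0 : 1 ≤ L0 := hL1.trans (le_max_left _ _)
  set Q : ℝ := q * max 1 (y * |β|) with hQ
  have hqR : (1 : ℝ) ≤ q := by exact_mod_cast hq
  have hmx : (1 : ℝ) ≤ max 1 (y * |β|) := le_max_left _ _
  have hQ1 : 1 ≤ Q := one_le_mul_of_one_le_of_one_le hqR hmx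
  have hQ0 : 0 < Q := by linarith
  have hqQ : (q : ℝ) ≤ Q := le_mul_of_one_le_right (by linarith) hmx
  have hyQ : y * |β| ≤ Q := by
    have h1 : y * |β| ≤ max 1 (y * |β|) := le_max_right _ _
    have h2 : max 1 (y * |β|) ≤ Q := le_mul_of_one_le_left (by linarith) hqR
    linarith
  have hzR : (2 : ℝ) ≤ z := by exact_mod_cast hz
  have hz0 : (0 : ℝ) < z := by linarith
  have hyR16 : (16 : ℝ) ≤ y := by exact_mod_cast hy16
  have hy0 : (0 : ℝ) < y := by linarith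
  have hlogy : 0 ≤ Real.log y := Real.log_nonneg (by linarith)
  set l : ℝ := Real.log z with hl
  have hl2 : 1 / 2 ≤ l := by
    have h1 := Real.log_two_gt_d9
    have h2 : Real.log 2 ≤ l := Real.log_le_log (by norm_num) hzR
    linarith
  have hl0 : 0 < l := by linarith
  have hE0 : 0 ≤ E0 J b z := by unfold E0; positivity
  have hflm : flEta L2 b ≤ flEta L0 b := flEta_mono' hL2 (le_max_right _ _) b
  have hfl0 : 0 ≤ flEta L0 b := by unfold flEta; positivity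
  have hfl2 : 0 ≤ flEta L2 b := by unfold flEta; positivity
  have hK0 := (Pool.Agent.Lib.MP_bae66e_nt.AP3.KT_pos z).le
  have hKl : KT z ≤ 1 / l := by
    have h1 := Pool.Agent.Lib.MP_bae66e_nt.AP3.KT_le z (by omega)
    refine h1.trans ?_
    apply one_div_le_one_div_of_le hl0
    exact Real.log_le_log hz0 (by linarith)
  -- Buchstab
  have hbu := buchstab y z Z (by omega) hZ (fun n => ee (((n : ℕ) : ℝ) * (a / q + β)))
  simp only at hbu
  -- rough integers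
  have hr := hrg q a y β (2 * Q) hq ha (by linarith) (by linarith)
  have hφ : (0 : ℝ) < Nat.totient q := by exact_mod_cast Nat.totient_pos.mpr hq
  have hinv : 1 / ((Nat.totient q : ℝ) * max 1 (y * |β|)) ≤ 2 * Q ^ (-(1 / 2) : ℝ) := by
    have h1 : (q : ℝ) ≤ 2 * (Nat.totient q : ℝ) ^ 2 := MC.le_two_mul_totient_sq q hq
    have h2 : Q ≤ 4 * ((Nat.totient q : ℝ) * max 1 (y * |β|)) ^ 2 := by
      have h3 : max 1 (y * |β|) ≤ max 1 (y * |β|) ^ 2 := le_self_pow₀ hmx two_ne_zero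
      calc Q = q * max 1 (y * |β|) := hQ
        _ ≤ (2 * (Nat.totient q : ℝ) ^ 2) * max 1 (y * |β|) ^ 2 := by gcongr
        _ ≤ 4 * ((Nat.totient q : ℝ) * max 1 (y * |β|)) ^ 2 := by
          exact B6b_four _ _
    have h4 : Real.sqrt Q ≤ 2 * ((Nat.totient q : ℝ) * max 1 (y * |β|)) := by
      apply Real.sqrt_le_iff.mpr
      refine ⟨by positivity, ?_⟩
      exact B6b_sq _ _ h2
    have h5 : Q ^ (-(1 / 2) : ℝ) = 1 / Real.sqrt Q := by
      rw [Real.rpow_neg hQ0.le, Real.sqrt_eq_rpow, one_div (Q ^ (1 / 2 : ℝ))]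
    have h6 : 0 < Real.sqrt Q := Real.sqrt_pos.mpr hQ0
    rw [h5, mul_one_div, div_le_div_iff₀ (by positivity) h6]
    linarith
  have hinv2 : 1 / (2 * Q) ≤ Q ^ (-(1 / 2) : ℝ) := by
    calc 1 / (2 * Q) ≤ 1 / Q := by
          apply one_div_le_one_div_of_le hQ0 (by linarith)
      _ = Q ^ (-1 : ℝ) := by rw [Real.rpow_neg_one, one_div]
      _ ≤ _ := Real.rpow_le_rpow_of_exponent_le hQ1 (by norm_num)
  set R : ℝ := Q ^ (-(1 / 2) : ℝ) with hR
  have hR0 : 0 ≤ R := by positivity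
  have hr2 : ‖∑ m ∈ (Icc 1 y).filter (fun m => Rough z m), ee ((m : ℝ) * (a / q + β))‖
      ≤ 400 * (y / l * (R + flEta L0 b) + Q ^ 3 * E0 J b z) := by
    refine hr.trans ?_
    have i1 : KT z * y / ((Nat.totient q : ℝ) * max 1 (y * |β|)) ≤ (1 / l) * y * (2 * R) := by
      rw [← mul_one_div (KT z * (y : ℝ))]
      gcongr
    have i2 : KT z * y * (flEta L2 b + 1 / (2 * Q)) ≤ (1 / l) * y * (flEta L0 b + R) := by
      gcongr
    have i3 : (2 * Q) ^ 2 * q * E0 J b z ≤ 4 * (Q ^ 3 * E0 J b z) := by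
      calc (2 * Q) ^ 2 * q * E0 J b z ≤ (2 * Q) ^ 2 * Q * E0 J b z := by gcongr
        _ = 4 * (Q ^ 3 * E0 J b z) := by ring
    have j1 : 0 ≤ (1 / l) * y * flEta L0 b := by positivity
    have j2 : 0 ≤ (1 / l) * y * R := by positivity
    have e : y / l * (R + flEta L0 b) = (1 / l) * y * R + (1 / l) * y * flEta L0 b := by ring
    rw [e]
    exact B6b_hr _ _ _ _ _ _ _ i1 i2 i3 j1 j2 rfl
  have hone : ∑ n ∈ (Icc 1 y).filter (fun n => Rough z n), ee (((n : ℕ) : ℝ) * (a / q + β))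
      = ee (((1 : ℕ) : ℝ) * (a / q + β))
        + ∑ n ∈ (Icc 2 y).filter (fun n => Rough z n), ee (((n : ℕ) : ℝ) * (a / q + β)) := by
    have h1 : (Icc 1 y).filter (fun n => Rough z n) = insert 1 ((Icc 2 y).filter (fun n => Rough z n)) := by
      ext n
      rw [Finset.mem_insert, Finset.mem_filter, Finset.mem_filter, Finset.mem_Icc, Finset.mem_Icc]
      constructor
      · rintro ⟨⟨h1, h2⟩, h3⟩
        by_cases h : n = 1
        · exact Or.inl h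
        · exact Or.inr ⟨⟨by omega, h2⟩, h3⟩
      · rintro (rfl | ⟨⟨h1, h2⟩, h3⟩)
        · refine ⟨⟨le_refl _, by omega⟩, ?_⟩
          intro p hp hd
          have := Nat.le_of_dvd one_pos hd
          have := hp.two_le
          omega
        · exact ⟨⟨by omega, h2⟩, h3⟩
    rw [h1, Finset.sum_insert (by simp)]
  have hmain : ∑ p ∈ prI z y, ee ((p : ℝ) * (a / q + β))
      = ∑ n ∈ (Icc 1 y).filter (fun n => Rough z n), ee (((n : ℕ) : ℝ) * (a / q + β))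
        - ee (((1 : ℕ) : ℝ) * (a / q + β))
        - ∑ p ∈ prI z Z, ∑ m ∈ (Icc 2 (y / p)).filter (fun m => Rough (p - 1) m),
            ee (((p * m : ℕ) : ℝ) * (a / q + β)) := by
    rw [hone, hbu]
    ring
  have hnorm : ‖∑ p ∈ prI z y, ee ((p : ℝ) * (a / q + β))‖
      ≤ 400 * (y / l * (R + flEta L0 b) + Q ^ 3 * E0 J b z) + 1 + C1 * SB L1 y b J z Q := by
    rw [hmain]
    refine (norm_sub_le _ _).trans ?_
    have h1 := norm_sub_le (∑ n ∈ (Icc 1 y).filter (fun n => Rough z n), ee (((n : ℕ) : ℝ) * (a / q + β)))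
      (ee (((1 : ℕ) : ℝ) * (a / q + β)))
    rw [MC.norm_ee] at h1
    linarith
  have hSB : SB L1 y b J z Q ≤ SB L0 y b J z Q :=
    SB_mono hL1 (le_max_left _ _) y b J z (by omega) (by omega) hQ0.le
  have hly : l ^ 2 ≤ y := by
    have h1 : l ≤ z := (Real.log_le_sub_one_of_pos hz0).trans (by linarith)
    have h2 : (z : ℝ) ^ 2 ≤ y := by exact_mod_cast hzy
    exact (pow_le_pow_left₀ hl0.le h1 2).trans h2
  have hone' : 1 ≤ y / l ^ 2 := by
    rw [le_div_iff₀ (by positivity)]; linarith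
  have hparts : y / l * (R + flEta L0 b) + Q ^ 3 * E0 J b z + y / l ^ 2 ≤ SB L0 y b J z Q := by
    unfold SB
    rw [← hl, ← hR]
    have : 0 ≤ (1 + Real.log y) * (y / l ^ 2 * (Q ^ (-(1 / 8) : ℝ) + Real.sqrt (flEta L0 b))
      + y / l ^ 3 + (y : ℝ) ^ (3 / 4 : ℝ) * Q ^ 2 * Real.sqrt (E0 J b z) + y / Real.sqrt z) := by positivity
    linarith
  have p1 : 0 ≤ y / l * (R + flEta L0 b) := by positivity
  have p2 : 0 ≤ Q ^ 3 * E0 J b z := by positivity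
  have p3 := mul_le_mul_of_nonneg_left hSB hC1.le
  have p4 : 0 ≤ y / l ^ 2 := by positivity
  refine hnorm.trans ?_
  exact B6b_fin _ _ _ _ _ _ p1 p2 p3 hone' hparts

end Pool.Agent.PP
end

section

/-!
# B8a: the log-free bound near rationals with small denominators
-/

set_option autoImplicit false

namespace Pool.Agent.PP

open Finset MeasureTheory Real
open Pool.Agent.MC (ee expSum frac frac' arcSum fareySet)
open Pool.Agent.Lib.MP_bae66e_nt.AP3 (Rough rset dset prI KT flEta FLP cset Om0 xb prm)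

private lemma aux_lin1 (B b l t : ℝ) (hB : 0 ≤ B) (hb : b ≤ B + l) (h1 : l ≤ 144 * t)
    (h2 : 1 ≤ t) : b ≤ (B + 144) * t := by
  have h3 : B ≤ B * t := le_mul_of_one_le_right hB h2
  have e : (B + 144) * t = B * t + 144 * t := by ring
  rw [e]
  linarith

private lemma aux_lin2 (B b l t : ℝ) (hB : 0 ≤ B) (hb : b ≤ B + 30 * l) (h1 : l ≤ 6 * t)
    (h2 : 1 ≤ t) : b ≤ (B + 180) * t := by
  have h3 : B ≤ B * t := le_mul_of_one_le_right hB h2
  have e : (B + 180) * t = B * t + 180 * t := by ring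
  rw [e]
  linarith

private lemma aux_h7 (p r s a c X Y : ℝ) (h1 : p ≤ a * X) (h2 : r ≤ c * Y) (h3 : s ≤ Y)
    (g1 : 0 ≤ a * Y) (g2 : 0 ≤ c * X) (g3 : 0 ≤ X) :
    200000 * p + 20000000 * r + 5 * s ≤ (200000 * a + 20000000 * c + 5) * (X + Y) := by
  have e : (200000 * a + 20000000 * c + 5) * (X + Y) = 200000 * (a * X) + 200000 * (a * Y) +
      20000000 * (c * X) + 20000000 * (c * Y) + 5 * X + 5 * Y := by ring
  rw [e]
  linarith


private lemma aux_big : ∃ y₀ : ℕ, ∀ y : ℕ, y₀ ≤ y → 16 ≤ y ∧ 1 ≤ Real.log y ∧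
    2 * Real.log y ^ 100 ≤ (y : ℝ) ^ (1 / 10 : ℝ) := by
  have h1 := (isLittleO_log_rpow_rpow_atTop (100 : ℝ) (show (0 : ℝ) < 1 / 10 by norm_num)).bound
    (show (0 : ℝ) < 1 / 2 by norm_num)
  have h2 := tendsto_natCast_atTop_atTop.eventually h1
  rw [Filter.eventually_atTop] at h2
  obtain ⟨y₀, hy₀⟩ := h2
  refine ⟨max 16 y₀, fun y hy => ?_⟩
  have h3 := hy₀ y (le_trans (le_max_right _ _) hy)
  have h16 : 16 ≤ y := le_trans (le_max_left _ _) hy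
  have h16r : (16 : ℝ) ≤ y := by exact_mod_cast h16
  have hL1 : 1 ≤ Real.log y := by
    rw [Real.le_log_iff_exp_le (by linarith)]
    have := Real.exp_one_lt_d9
    linarith
  refine ⟨h16, hL1, ?_⟩
  have e1 : Real.log (y : ℝ) ^ (100 : ℝ) = Real.log (y : ℝ) ^ 100 := by
    rw [← Real.rpow_natCast]
    norm_num
  rw [e1, Real.norm_eq_abs, Real.norm_eq_abs,
    abs_of_nonneg (show (0 : ℝ) ≤ Real.log y ^ 100 by positivity),
    abs_of_nonneg (show (0 : ℝ) ≤ (y : ℝ) ^ (1 / 10 : ℝ) by positivity)] at h3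
  linarith

private lemma aux_bQ (B b Q : ℝ) (hB : 0 ≤ B) (hQ : 1 ≤ Q) (hb0 : 0 ≤ b)
    (hb : b ≤ B + Real.log Q) :
    b ^ 2 * Q ^ (-(1 / 8) : ℝ) ≤ (B + 144) ^ 2 * Q ^ (-(1 / 9) : ℝ) := by
  have hQ0 : 0 < Q := by linarith
  have h1 : Real.log Q ≤ 144 * Q ^ (1 / 144 : ℝ) := by
    have := Real.log_le_rpow_div hQ0.le (show (0 : ℝ) < 1 / 144 by norm_num)
    have e : Q ^ (1 / 144 : ℝ) / (1 / 144) = 144 * Q ^ (1 / 144 : ℝ) := by ring
    rwa [e] at this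
  have h2 : 1 ≤ Q ^ (1 / 144 : ℝ) := Real.one_le_rpow hQ (by norm_num)
  have h3 : b ≤ (B + 144) * Q ^ (1 / 144 : ℝ) := aux_lin1 B b _ _ hB hb h1 h2
  have h4 : b ^ 2 ≤ (B + 144) ^ 2 * Q ^ (1 / 72 : ℝ) := by
    calc b ^ 2 ≤ ((B + 144) * Q ^ (1 / 144 : ℝ)) ^ 2 := pow_le_pow_left₀ hb0 h3 2
      _ = (B + 144) ^ 2 * Q ^ (1 / 72 : ℝ) := by
          rw [mul_pow, ← Real.rpow_mul_natCast hQ0.le]
          norm_num
  calc b ^ 2 * Q ^ (-(1 / 8) : ℝ) ≤ ((B + 144) ^ 2 * Q ^ (1 / 72 : ℝ)) * Q ^ (-(1 / 8) : ℝ) :=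
        mul_le_mul_of_nonneg_right h4 (by positivity)
    _ = (B + 144) ^ 2 * Q ^ (-(1 / 9) : ℝ) := by
        rw [mul_assoc, ← Real.rpow_add hQ0]
        norm_num

private lemma aux_bL (B b L : ℝ) (hB : 0 ≤ B) (hL : 1 ≤ L) (hb0 : 0 ≤ b)
    (hb : b ≤ B + 30 * Real.log L) :
    b ^ 3 / L ≤ (B + 180) ^ 3 * L ^ (-(1 / 2) : ℝ) := by
  have hL0 : 0 < L := by linarith
  have h1 : Real.log L ≤ 6 * L ^ (1 / 6 : ℝ) := by
    have := Real.log_le_rpow_div hL0.le (show (0 : ℝ) < 1 / 6 by norm_num)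
    have e : L ^ (1 / 6 : ℝ) / (1 / 6) = 6 * L ^ (1 / 6 : ℝ) := by ring
    rwa [e] at this
  have h2 : 1 ≤ L ^ (1 / 6 : ℝ) := Real.one_le_rpow hL (by norm_num)
  have h3 : b ≤ (B + 180) * L ^ (1 / 6 : ℝ) := aux_lin2 B b _ _ hB hb h1 h2
  have h4 : b ^ 3 ≤ (B + 180) ^ 3 * L ^ (1 / 2 : ℝ) := by
    calc b ^ 3 ≤ ((B + 180) * L ^ (1 / 6 : ℝ)) ^ 3 := pow_le_pow_left₀ hb0 h3 3
      _ = (B + 180) ^ 3 * L ^ (1 / 2 : ℝ) := by
          rw [mul_pow, ← Real.rpow_mul_natCast hL0.le]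
          norm_num
  rw [div_le_iff₀ hL0]
  calc b ^ 3 ≤ (B + 180) ^ 3 * L ^ (1 / 2 : ℝ) := h4
    _ = (B + 180) ^ 3 * L ^ (-(1 / 2) : ℝ) * L := by
        rw [mul_assoc]
        congr 1
        calc L ^ (1 / 2 : ℝ) = L ^ (-(1 / 2) + 1 : ℝ) := by norm_num
          _ = L ^ (-(1 / 2) : ℝ) * L := by rw [Real.rpow_add hL0, Real.rpow_one]

private lemma aux_SB (L0 : ℝ) (y b J z : ℕ) (Q L u : ℝ) (hL : L = Real.log y)
    (hu : u = (y : ℝ) ^ (1 / 10 : ℝ)) (hy : 16 ≤ y) (hL1 : 1 ≤ L) (huL : 2 * L ^ 100 ≤ u)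
    (hQ1 : 1 ≤ Q) (hQ : Q ≤ L ^ 30) (hb1 : (1 : ℝ) ≤ b) (hF0 : 0 ≤ flEta L0 b)
    (hF : flEta L0 b ≤ Q⁻¹) (hz0 : (0 : ℝ) < z) (hz : L / (200 * b) ≤ Real.log z)
    (hz6 : L ^ 6 ≤ z) (hE0 : 0 ≤ E0 J b z) (hE : E0 J b z ≤ u) :
    SB L0 y b J z Q ≤ (y / L) * (200000 * ((b : ℝ) ^ 2 * Q ^ (-(1 / 8) : ℝ)) +
      20000000 * ((b : ℝ) ^ 3 / L) + 5 / L) := by
  have hy0 : (0 : ℝ) < y := by
    have : (16 : ℝ) ≤ y := by exact_mod_cast hy
    linarith
  have hL0 : 0 < L := by linarith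
  have hQ0 : 0 < Q := by linarith
  have hb0 : (0 : ℝ) < b := by linarith
  have hLp : ∀ n : ℕ, 1 ≤ L ^ n := fun n => one_le_pow₀ hL1
  have hu1 : 1 ≤ u := by linarith [hLp 100]
  have hu0 : 0 < u := by linarith
  have hyu : (y : ℝ) = u ^ 10 := by
    rw [hu, ← Real.rpow_mul_natCast hy0.le]
    norm_num
  have hlz : 0 < Real.log z := lt_of_lt_of_le (by positivity) hz
  have hinv : 1 / Real.log z ≤ 200 * b / L := by
    rw [div_le_div_iff₀ hlz hL0]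
    rw [div_le_iff₀ (by positivity)] at hz
    linarith
  have hQ8 : Q ^ (-(1 / 2) : ℝ) ≤ Q ^ (-(1 / 8) : ℝ) :=
    Real.rpow_le_rpow_of_exponent_le hQ1 (by norm_num)
  have hQi : Q⁻¹ ≤ Q ^ (-(1 / 8) : ℝ) := by
    rw [← Real.rpow_neg_one]
    exact Real.rpow_le_rpow_of_exponent_le hQ1 (by norm_num)
  have hsF : Real.sqrt (flEta L0 b) ≤ Q ^ (-(1 / 8) : ℝ) := by
    refine (Real.sqrt_le_sqrt hF).trans ?_
    rw [Real.sqrt_eq_rpow, ← Real.rpow_neg_one, ← Real.rpow_mul hQ0.le]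
    exact Real.rpow_le_rpow_of_exponent_le hQ1 (by norm_num)
  obtain ⟨q, hq⟩ : ∃ q, q = Q ^ (-(1 / 8) : ℝ) := ⟨_, rfl⟩
  rw [← hq] at hQ8 hQi hsF
  have hq0 : 0 ≤ q := by rw [hq]; positivity
  obtain ⟨T, hT⟩ : ∃ T, T = (y : ℝ) / L := ⟨_, rfl⟩
  have hT0 : 0 < T := by rw [hT]; positivity
  have hyT : (y : ℝ) = T * L := by rw [hT]; field_simp
  -- term 1
  have t1 : (y : ℝ) / Real.log z * (Q ^ (-(1 / 2) : ℝ) + flEta L0 b) ≤ T * (400 * (b ^ 2 * q)) := by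
    have h1 : (y : ℝ) / Real.log z ≤ T * (200 * b) := by
      calc (y : ℝ) / Real.log z = y * (1 / Real.log z) := by ring
        _ ≤ y * (200 * b / L) := mul_le_mul_of_nonneg_left hinv hy0.le
        _ = T * (200 * b) := by rw [hT]; ring
    have h2 : Q ^ (-(1 / 2) : ℝ) + flEta L0 b ≤ 2 * q := by linarith
    calc (y : ℝ) / Real.log z * (Q ^ (-(1 / 2) : ℝ) + flEta L0 b) ≤ (T * (200 * b)) * (2 * q) :=
          mul_le_mul h1 h2 (by positivity) (by positivity)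
      _ = T * (400 * (b * q)) := by ring
      _ ≤ T * (400 * (b ^ 2 * q)) := by
          apply mul_le_mul_of_nonneg_left _ hT0.le
          apply mul_le_mul_of_nonneg_left _ (by norm_num)
          apply mul_le_mul_of_nonneg_right _ hq0
          exact le_self_pow₀ hb1 two_ne_zero
  have hinv2 : (y : ℝ) / Real.log z ^ 2 ≤ T * (40000 * b ^ 2 / L) := by
    calc (y : ℝ) / Real.log z ^ 2 = y * (1 / Real.log z) ^ 2 := by ring
      _ ≤ y * (200 * b / L) ^ 2 := by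
          apply mul_le_mul_of_nonneg_left _ hy0.le
          exact pow_le_pow_left₀ (by positivity) hinv 2
      _ = T * (40000 * b ^ 2 / L) := by rw [hT]; ring
  have hinv3 : (y : ℝ) / Real.log z ^ 3 ≤ T * (8000000 * b ^ 3 / L ^ 2) := by
    calc (y : ℝ) / Real.log z ^ 3 = y * (1 / Real.log z) ^ 3 := by ring
      _ ≤ y * (200 * b / L) ^ 3 := by
          apply mul_le_mul_of_nonneg_left _ hy0.le
          exact pow_le_pow_left₀ (by positivity) hinv 3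
      _ = T * (8000000 * b ^ 3 / L ^ 2) := by rw [hT]; ring
  have h1L : 1 + L ≤ 2 * L := by linarith
  -- term 2
  have t2 : (1 + L) * ((y : ℝ) / Real.log z ^ 2 * (Q ^ (-(1 / 8) : ℝ) + Real.sqrt (flEta L0 b))) ≤
      T * (160000 * (b ^ 2 * q)) := by
    have h2 : Q ^ (-(1 / 8) : ℝ) + Real.sqrt (flEta L0 b) ≤ 2 * q := by rw [← hq]; linarith
    calc (1 + L) * ((y : ℝ) / Real.log z ^ 2 * (Q ^ (-(1 / 8) : ℝ) + Real.sqrt (flEta L0 b)))
        ≤ (2 * L) * ((T * (40000 * b ^ 2 / L)) * (2 * q)) := by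
          apply mul_le_mul h1L _ (by positivity) (by positivity)
          exact mul_le_mul hinv2 h2 (by positivity) (by positivity)
      _ = T * (160000 * (b ^ 2 * q)) := by field_simp; ring
  -- term 3
  have t3 : (1 + L) * ((y : ℝ) / Real.log z ^ 3) ≤ T * (16000000 * (b ^ 3 / L)) := by
    calc (1 + L) * ((y : ℝ) / Real.log z ^ 3) ≤ (2 * L) * (T * (8000000 * b ^ 3 / L ^ 2)) :=
          mul_le_mul h1L hinv3 (by positivity) (by positivity)
      _ = T * (16000000 * (b ^ 3 / L)) := by field_simp; ring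
  have hsmall : (y : ℝ) / L ^ 2 = T * (1 / L) := by rw [hT]; field_simp
  -- term 4
  have t4 : (1 + L) * ((y : ℝ) ^ (3 / 4 : ℝ) * Q ^ 2 * Real.sqrt (E0 J b z)) ≤ T * (1 / L) := by
    have h1 : (y : ℝ) ^ (3 / 4 : ℝ) * Real.sqrt (E0 J b z) ≤ u ^ 8 := by
      calc (y : ℝ) ^ (3 / 4 : ℝ) * Real.sqrt (E0 J b z)
          ≤ (y : ℝ) ^ (3 / 4 : ℝ) * Real.sqrt u :=
            mul_le_mul_of_nonneg_left (Real.sqrt_le_sqrt hE) (by positivity)
        _ = u ^ 8 := by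
            rw [hu, Real.sqrt_eq_rpow, ← Real.rpow_mul hy0.le, ← Real.rpow_add hy0,
              ← Real.rpow_mul_natCast hy0.le]
            norm_num
    have h2 : Q ^ 2 ≤ L ^ 60 := by
      calc Q ^ 2 ≤ (L ^ 30) ^ 2 := pow_le_pow_left₀ hQ0.le hQ 2
        _ = L ^ 60 := by rw [← pow_mul]
    rw [← hsmall, le_div_iff₀ (by positivity)]
    have h3 : 2 * L ^ 63 ≤ u ^ 2 := by
      have h4 : L ^ 63 ≤ L ^ 100 := pow_le_pow_right₀ hL1 (by norm_num)
      have h5 : u ≤ u ^ 2 := le_self_pow₀ hu1 two_ne_zero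
      linarith
    calc (1 + L) * ((y : ℝ) ^ (3 / 4 : ℝ) * Q ^ 2 * Real.sqrt (E0 J b z)) * L ^ 2
        = ((y : ℝ) ^ (3 / 4 : ℝ) * Real.sqrt (E0 J b z)) * ((1 + L) * Q ^ 2 * L ^ 2) := by ring
      _ ≤ u ^ 8 * ((2 * L) * L ^ 60 * L ^ 2) := by
          apply mul_le_mul h1 _ (by positivity) (by positivity)
          apply mul_le_mul_of_nonneg_right _ (by positivity)
          exact mul_le_mul h1L h2 (by positivity) (by positivity)
      _ = u ^ 8 * (2 * L ^ 63) := by ring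
      _ ≤ u ^ 8 * u ^ 2 := mul_le_mul_of_nonneg_left h3 (by positivity)
      _ = y := by rw [hyu]; ring
  -- term 5
  have t5 : (1 + L) * ((y : ℝ) / Real.sqrt z) ≤ T * (2 / L) := by
    have h1 : L ^ 3 ≤ Real.sqrt z := by
      apply Real.le_sqrt_of_sq_le
      calc (L ^ 3) ^ 2 = L ^ 6 := by rw [← pow_mul]
        _ ≤ (z : ℝ) := hz6
    calc (1 + L) * ((y : ℝ) / Real.sqrt z) ≤ (2 * L) * ((y : ℝ) / L ^ 3) := by
          apply mul_le_mul h1L _ (by positivity) (by positivity)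
          exact div_le_div_of_nonneg_left hy0.le (by positivity) h1
      _ = T * (2 / L) := by rw [hT]; field_simp
  -- term 6
  have t6 : Q ^ 3 * E0 J b z ≤ T * (1 / L) := by
    rw [← hsmall, le_div_iff₀ (by positivity)]
    have h2 : Q ^ 3 ≤ L ^ 90 := by
      calc Q ^ 3 ≤ (L ^ 30) ^ 3 := pow_le_pow_left₀ hQ0.le hQ 3
        _ = L ^ 90 := by rw [← pow_mul]
    have h3 : L ^ 92 ≤ u ^ 9 := by
      calc L ^ 92 ≤ L ^ 100 := pow_le_pow_right₀ hL1 (by norm_num)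
        _ ≤ u := by linarith [hLp 100]
        _ ≤ u ^ 9 := le_self_pow₀ hu1 (by norm_num)
    calc Q ^ 3 * E0 J b z * L ^ 2 ≤ L ^ 90 * u * L ^ 2 := by
          apply mul_le_mul_of_nonneg_right _ (by positivity)
          exact mul_le_mul h2 hE hE0 (by positivity)
      _ = L ^ 92 * u := by ring
      _ ≤ u ^ 9 * u := mul_le_mul_of_nonneg_right h3 hu0.le
      _ = y := by rw [hyu]; ring
  -- term 7
  have t7 : (y : ℝ) / Real.log z ^ 2 ≤ T * (40000 * (b ^ 3 / L)) := by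
    refine hinv2.trans ?_
    apply mul_le_mul_of_nonneg_left _ hT0.le
    have h1 : (b : ℝ) ^ 2 ≤ b ^ 3 := pow_le_pow_right₀ hb1 (by norm_num)
    have h2 : (b : ℝ) ^ 2 / L ≤ b ^ 3 / L := div_le_div_of_nonneg_right h1 hL0.le
    calc 40000 * (b : ℝ) ^ 2 / L = 40000 * (b ^ 2 / L) := by ring
      _ ≤ 40000 * (b ^ 3 / L) := by linarith
  have hb3 : 0 ≤ (b : ℝ) ^ 3 / L := by positivity
  have hbq : 0 ≤ (b : ℝ) ^ 2 * q := by positivity
  unfold SB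
  rw [← hL, ← hT, ← hq]
  rw [← hq] at t2
  have e5 : T * (2 / L) = 2 * (T * (1 / L)) := by ring
  have e6 : T * (5 / L) = 5 * (T * (1 / L)) := by ring
  have hTL : 0 ≤ T * (1 / L) := by positivity
  have hTb : 0 ≤ T * ((b : ℝ) ^ 3 / L) := by positivity
  have hTq : 0 ≤ T * ((b : ℝ) ^ 2 * q) := by positivity
  calc (y : ℝ) / Real.log z * (Q ^ (-(1 / 2) : ℝ) + flEta L0 b)
      + (1 + L) * (y / Real.log z ^ 2 * (q + Real.sqrt (flEta L0 b))
      + y / Real.log z ^ 3 + (y : ℝ) ^ (3 / 4 : ℝ) * Q ^ 2 * Real.sqrt (E0 J b z) +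
        y / Real.sqrt z)
      + Q ^ 3 * E0 J b z + y / Real.log z ^ 2
      = (y : ℝ) / Real.log z * (Q ^ (-(1 / 2) : ℝ) + flEta L0 b)
      + (1 + L) * (y / Real.log z ^ 2 * (q + Real.sqrt (flEta L0 b)))
      + (1 + L) * (y / Real.log z ^ 3)
      + (1 + L) * ((y : ℝ) ^ (3 / 4 : ℝ) * Q ^ 2 * Real.sqrt (E0 J b z))
      + (1 + L) * (y / Real.sqrt z)
      + Q ^ 3 * E0 J b z + y / Real.log z ^ 2 := by ring
    _ ≤ T * (400 * (b ^ 2 * q)) + T * (160000 * (b ^ 2 * q)) + T * (16000000 * (b ^ 3 / L))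
        + T * (1 / L) + T * (2 / L) + T * (1 / L) + T * (40000 * (b ^ 3 / L)) := by
        linarith
    _ ≤ T * (200000 * ((b : ℝ) ^ 2 * q) + 20000000 * ((b : ℝ) ^ 3 / L) + 5 / L) := by
        have e7 : T * (200000 * ((b : ℝ) ^ 2 * q) + 20000000 * ((b : ℝ) ^ 3 / L) + 5 / L) =
          200000 * (T * ((b : ℝ) ^ 2 * q)) + 20000000 * (T * ((b : ℝ) ^ 3 / L)) +
            T * (5 / L) := by ring
        rw [e7, e6, e5]
        linarith

/-- PROOF. `primes_exp` with the parameters of `choose_param` (`b0` replaced by `max b0 b1` of `flEta_le`), `Q = q max 1 (y|β|)`.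
`log z ≥ log y/(200 b)`, `flEta ≤ e^(-b) ≤ Q^(-1)`: `SB ≤ C (y/log y) (b² Q^(-1/8) + b³/log y) + small`, where the terms with `E0` are
`≤ (1 + log y) (y^(3/4) Q² y^(1/20) + Q³ y^(1/10)) ≤ y/log² y` and `(1 + log y) y/√z ≤ 2 y/log² y` for `y` large. As `b ≤ b0' + 3 + log Q`,
`b² Q^(-1/8) ≤ C Q^(-1/9)` and `b³/log y ≤ C (1 + 30 log log y)³/log y ≤ C (log y)^(-1/2)`. Finally the primes `≤ z`
contribute at most `z ≤ √y`. -/
lemma primes_exp2 : ∃ C : ℝ, 0 < C ∧ ∃ y₀ : ℕ, ∀ (y q a : ℕ) (β : ℝ), y₀ ≤ y → 1 ≤ q →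
    Nat.Coprime a q → q * max 1 (y * |β|) ≤ Real.log y ^ 30 →
    ‖∑ p ∈ prI 0 y, ee ((p : ℝ) * (a / q + β))‖
      ≤ C * (y / Real.log y) * ((q * max 1 (y * |β|)) ^ (-(1 / 9) : ℝ) + Real.log y ^ (-(1 / 2) : ℝ)) := by
  obtain ⟨L0, hL0, b0, C, hC, hp⟩ := primes_exp
  obtain ⟨b1, hb1⟩ := flEta_le L0 hL0
  obtain ⟨y₁, hy₁⟩ := choose_param (max 1 (max b0 b1))
  obtain ⟨y₂, hy₂⟩ := aux_big
  obtain ⟨B, hB⟩ : ∃ B : ℝ, B = ((max 1 (max b0 b1) : ℕ) : ℝ) + 3 := ⟨_, rfl⟩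
  have hB0 : 0 ≤ B := by rw [hB]; positivity
  obtain ⟨D, hD⟩ : ∃ D : ℝ, D = 200000 * (B + 144) ^ 2 + 20000000 * (B + 180) ^ 3 + 5 := ⟨_, rfl⟩
  have hD0 : 0 < D := by rw [hD]; positivity
  refine ⟨C * D + 1, by positivity, max y₁ y₂, ?_⟩
  intro y q a β hy hq haq hQL
  obtain ⟨h16, hL1, huL⟩ := hy₂ y (le_trans (le_max_right _ _) hy)
  obtain ⟨Q, hQ⟩ : ∃ Q, Q = (q : ℝ) * max 1 (y * |β|) := ⟨_, rfl⟩
  rw [← hQ] at hQL ⊢
  have hQ1 : 1 ≤ Q := by
    rw [hQ]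
    exact one_le_mul_of_one_le_of_one_le (by exact_mod_cast hq) (le_max_left _ _)
  obtain ⟨b, J, z, c1, c2, c3, c4, c5, c6, c7, c8, c9, c10⟩ :=
    hy₁ y (le_trans (le_max_left _ _) hy) Q hQ1 hQL
  have hbb0 : b0 ≤ b := le_trans (le_trans (le_max_left _ _) (le_max_right _ _)) c1
  have hbb1 : b1 ≤ b := le_trans (le_trans (le_max_right _ _) (le_max_right _ _)) c1
  have hb1r : (1 : ℝ) ≤ b := by exact_mod_cast (le_trans (le_max_left _ _) c1)
  have h1 := hp b J z hbb0 c4 c5 y q a β h16 c6 hq haq (by rw [← hQ]; exact c7)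
  rw [← hQ] at h1
  have hz0 : (0 : ℝ) < z := by
    have : (2 : ℝ) ≤ z := by exact_mod_cast c4
    linarith
  have hy0 : (0 : ℝ) < y := by
    have : (16 : ℝ) ≤ y := by exact_mod_cast h16
    linarith
  obtain ⟨L, hL⟩ : ∃ L, L = Real.log (y : ℝ) := ⟨_, rfl⟩
  obtain ⟨u, hu⟩ : ∃ u, u = (y : ℝ) ^ (1 / 10 : ℝ) := ⟨_, rfl⟩
  rw [← hL] at hL1 huL hQL c8 c9 ⊢
  rw [← hu] at huL c10
  have hL0' : 0 < L := by linarith
  have hF0 : 0 ≤ flEta L0 b := by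
    unfold flEta
    positivity
  have hF : flEta L0 b ≤ Q⁻¹ := by
    refine (hb1 b hbb1).trans ?_
    rw [Real.exp_neg]
    apply inv_anti₀ (by linarith)
    rw [← Real.log_le_iff_le_exp (by linarith)]
    exact c2
  have hE0 : 0 ≤ E0 J b z := by unfold E0; positivity
  have h2 := aux_SB L0 y b J z Q L u hL hu h16 hL1 huL hQ1 hQL hb1r hF0 hF hz0 c8 c9 hE0 c10
  have hbQ : (b : ℝ) ≤ B + Real.log Q := by rw [hB]; linarith
  have hlQ : Real.log Q ≤ 30 * Real.log L := by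
    have h3 := Real.log_le_log (by linarith) hQL
    rw [Real.log_pow] at h3
    exact_mod_cast h3
  have h3 := aux_bQ B b Q hB0 hQ1 (by linarith) hbQ
  have h4 := aux_bL B b L hB0 hL1 (by linarith) (by linarith)
  have h5 : 1 / L ≤ L ^ (-(1 / 2) : ℝ) := by
    rw [one_div, ← Real.rpow_neg_one]
    exact Real.rpow_le_rpow_of_exponent_le hL1 (by norm_num)
  obtain ⟨X, hX⟩ : ∃ X, X = Q ^ (-(1 / 9) : ℝ) := ⟨_, rfl⟩
  obtain ⟨Y, hY⟩ : ∃ Y, Y = L ^ (-(1 / 2) : ℝ) := ⟨_, rfl⟩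
  rw [← hX] at h3 ⊢
  rw [← hY] at h4 h5 ⊢
  have hX0 : 0 ≤ X := by rw [hX]; positivity
  have hY0 : 0 ≤ Y := by rw [hY]; positivity
  have h6 : SB L0 y b J z Q ≤ D * (y / L) * (X + Y) := by
    refine h2.trans ?_
    have h7 : 200000 * ((b : ℝ) ^ 2 * Q ^ (-(1 / 8) : ℝ)) +
      20000000 * ((b : ℝ) ^ 3 / L) + 5 / L ≤ D * (X + Y) := by
      have h8 : (5 : ℝ) / L = 5 * (1 / L) := by ring
      rw [h8, hD]
      have g1 : 0 ≤ (B + 144) ^ 2 * Y := by positivity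
      have g2 : 0 ≤ (B + 180) ^ 3 * X := by positivity
      exact aux_h7 _ _ _ _ _ _ _ h3 h4 h5 g1 g2 hX0
    calc (y : ℝ) / L * (200000 * ((b : ℝ) ^ 2 * Q ^ (-(1 / 8) : ℝ)) +
      20000000 * ((b : ℝ) ^ 3 / L) + 5 / L) ≤ (y : ℝ) / L * (D * (X + Y)) :=
          mul_le_mul_of_nonneg_left h7 (by positivity)
      _ = D * (y / L) * (X + Y) := by ring
  -- the small primes
  have h7 : ‖∑ p ∈ prI 0 y, ee ((p : ℝ) * (a / q + β))‖ ≤
      ‖∑ p ∈ prI z y, ee ((p : ℝ) * (a / q + β))‖ + z := by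
    have hsub : prI z y ⊆ prI 0 y := by
      intro p hp'
      unfold prI at hp' ⊢
      rw [Finset.mem_filter, Finset.mem_Ioc] at hp' ⊢
      exact ⟨⟨by omega, hp'.1.2⟩, hp'.2⟩
    rw [← Finset.sum_sdiff hsub]
    refine (norm_add_le _ _).trans ?_
    rw [add_comm]
    apply add_le_add le_rfl
    refine (norm_sum_le _ _).trans ?_
    have h8 : ∑ p ∈ prI 0 y \ prI z y, ‖ee ((p : ℝ) * (a / q + β))‖ =
        ((prI 0 y \ prI z y).card : ℝ) := by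
      rw [Finset.sum_congr rfl (fun p _ => Pool.Agent.MC.norm_ee _), Finset.sum_const,
        nsmul_eq_mul, mul_one]
    rw [h8]
    have h9 : prI 0 y \ prI z y ⊆ Finset.Icc 1 z := by
      intro p hp'
      unfold prI at hp'
      rw [Finset.mem_sdiff, Finset.mem_filter, Finset.mem_filter, Finset.mem_Ioc,
        Finset.mem_Ioc] at hp'
      rw [Finset.mem_Icc]
      refine ⟨hp'.1.1.1, ?_⟩
      by_contra hcon
      exact hp'.2 ⟨⟨by omega, hp'.1.1.2⟩, hp'.1.2⟩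
    have h10 := Finset.card_le_card h9
    rw [Nat.card_Icc, Nat.add_sub_cancel] at h10
    exact_mod_cast h10
  have h8 : (z : ℝ) ≤ (y / L) * Y := by
    have hyu : (y : ℝ) = u ^ 10 := by
      rw [hu, ← Real.rpow_mul_natCast hy0.le]
      norm_num
    have hLp : 1 ≤ L ^ 100 := one_le_pow₀ hL1
    have hu1 : 1 ≤ u := by linarith
    have hz5 : (z : ℝ) ≤ u ^ 5 := by
      have h9 : (z : ℝ) ^ 2 ≤ (u ^ 5) ^ 2 := by
        rw [← pow_mul]
        calc (z : ℝ) ^ 2 ≤ y := by exact_mod_cast c6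
          _ = u ^ (5 * 2) := by rw [hyu]
      exact le_of_sq_le_sq h9 (by positivity)
    have h10 : L ^ 2 ≤ u ^ 5 := by
      calc L ^ 2 ≤ L ^ 100 := pow_le_pow_right₀ hL1 (by norm_num)
        _ ≤ u := by linarith
        _ ≤ u ^ 5 := le_self_pow₀ hu1 (by norm_num)
    calc (z : ℝ) ≤ u ^ 5 := hz5
      _ ≤ u ^ 5 * (u ^ 5 / L ^ 2) := by
          have h11 : 1 ≤ u ^ 5 / L ^ 2 := by
            rw [le_div_iff₀ (by positivity)]
            linarith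
          have h12 : 0 ≤ u ^ 5 := by positivity
          exact le_mul_of_one_le_right h12 h11
      _ = (y / L) * (1 / L) := by rw [hyu]; field_simp
      _ ≤ (y / L) * Y := mul_le_mul_of_nonneg_left h5 (by positivity)
  have h9 : (y / L) * Y ≤ (y / L) * (X + Y) :=
    mul_le_mul_of_nonneg_left (by linarith) (by positivity)
  calc ‖∑ p ∈ prI 0 y, ee ((p : ℝ) * (a / q + β))‖
      ≤ ‖∑ p ∈ prI z y, ee ((p : ℝ) * (a / q + β))‖ + z := h7
    _ ≤ C * (D * (y / L) * (X + Y)) + (y / L) * (X + Y) := by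
        apply add_le_add (h1.trans (mul_le_mul_of_nonneg_left h6 hC.le)) (h8.trans h9)
    _ = (C * D + 1) * (y / L) * (X + Y) := by ring

end Pool.Agent.PP
end
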