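import Pool.Agent.Lib.MP_bae66e_nt.Mg.G089
import Pool.Agent.Lib.MP_bae66e_nt.Mg.G090
import Pool.Agent.Lib.MP_bae66e_nt.Mg.G081
import Pool.Agent.Lib.MP_bae66e_nt.Mg.G082

section

/-!
# B8c: the log-free bound near rationals with small denominators
-/

set_option autoImplicit false

namespace Pool.Agent.PP

open Finset MeasureTheory Real
open Pool.Agent.MC (ee expSum frac frac' arcSum fareySet)
open Pool.Agent.Lib.MP_bae66e_nt.AP3 (Rough rset dset prI KT flEta FLP cset Om0 xb prm)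

private lemma aux_exp (y : ℕ) (α : ℝ) :
    expSum (fun n => ((th n : ℝ) : ℂ)) (y + 1) α =
      ((Real.log y : ℝ) : ℂ) * ∑ p ∈ prI 0 y, ee ((p : ℝ) * α) -
        ∑ p ∈ prI 0 y, (((Real.log y - Real.log p : ℝ)) : ℂ) * ee ((p : ℝ) * α) := by
  have h1 : expSum (fun n => ((th n : ℝ) : ℂ)) (y + 1) α =
      ∑ p ∈ prI 0 y, ((Real.log p : ℝ) : ℂ) * ee ((p : ℝ) * α) := by
    unfold expSum
    have h2 : prI 0 y = (Finset.range (y + 1)).filter Nat.Prime := by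
      ext p
      unfold prI
      rw [Finset.mem_filter, Finset.mem_filter, Finset.mem_Ioc, Finset.mem_range]
      constructor
      · rintro ⟨⟨a1, a2⟩, a3⟩
        exact ⟨by omega, a3⟩
      · rintro ⟨a1, a2⟩
        exact ⟨⟨a2.pos, by omega⟩, a2⟩
    rw [h2, Finset.sum_filter]
    apply Finset.sum_congr rfl
    intro n _
    by_cases hn : n.Prime
    · simp only [th, if_pos hn]
    · simp only [th, if_neg hn]
      simp
  rw [h1, Finset.mul_sum, ← Finset.sum_sub_distrib]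
  apply Finset.sum_congr rfl
  intro p _
  push_cast
  ring

/-- PROOF. `∑_{p ≤ y} log p ee (p α) = log y ∑_{p ≤ y} ee (p α) - ∑_{p ≤ y} (log y - log p) ee (p α)`, `primes_exp2`, `sum_log_ratio_le`. -/
theorem th_exp : ∃ C : ℝ, 0 < C ∧ ∃ y₀ : ℕ, ∀ (y q a : ℕ) (β : ℝ), y₀ ≤ y → 1 ≤ q →
    Nat.Coprime a q → q * max 1 (y * |β|) ≤ Real.log y ^ 30 →
    ‖expSum (fun n => ((th n : ℝ) : ℂ)) (y + 1) (a / q + β)‖
      ≤ C * y * ((q * max 1 (y * |β|)) ^ (-(1 / 9) : ℝ) + Real.log y ^ (-(1 / 2) : ℝ)) := by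
  obtain ⟨C, hC, y₀, h⟩ := primes_exp2
  obtain ⟨C', hC', h'⟩ := sum_log_ratio_le
  refine ⟨C + C', by positivity, max 3 y₀, ?_⟩
  intro y q a β hy hq haq hQL
  have hy3 : 3 ≤ y := le_trans (le_max_left _ _) hy
  have hy3r : (3 : ℝ) ≤ y := by exact_mod_cast hy3
  have h1 := h y q a β (le_trans (le_max_right _ _) hy) hq haq hQL
  have h2 := h' y (by omega)
  have hL1 : 1 ≤ Real.log y := by
    rw [Real.le_log_iff_exp_le (by linarith)]
    have := Real.exp_one_lt_d9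
    linarith
  have hL0 : 0 < Real.log y := by linarith
  obtain ⟨X, hX⟩ : ∃ X, X = ((q : ℝ) * max 1 (y * |β|)) ^ (-(1 / 9) : ℝ) := ⟨_, rfl⟩
  obtain ⟨Y, hY⟩ : ∃ Y, Y = Real.log (y : ℝ) ^ (-(1 / 2) : ℝ) := ⟨_, rfl⟩
  rw [← hX, ← hY] at h1 ⊢
  have hX0 : 0 ≤ X := by rw [hX]; positivity
  have hY0 : 0 ≤ Y := by rw [hY]; positivity
  have h5 : 1 / Real.log y ≤ Y := by
    rw [hY, one_div, ← Real.rpow_neg_one]
    exact Real.rpow_le_rpow_of_exponent_le hL1 (by norm_num)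
  rw [aux_exp]
  refine (norm_sub_le _ _).trans ?_
  have h3 : ‖((Real.log y : ℝ) : ℂ) * ∑ p ∈ prI 0 y, ee ((p : ℝ) * (a / q + β))‖ ≤
      C * y * (X + Y) := by
    rw [norm_mul, Complex.norm_real, Real.norm_eq_abs, abs_of_pos hL0]
    calc Real.log y * ‖∑ p ∈ prI 0 y, ee ((p : ℝ) * (a / q + β))‖
        ≤ Real.log y * (C * (y / Real.log y) * (X + Y)) := mul_le_mul_of_nonneg_left h1 hL0.le
      _ = C * y * (X + Y) := by field_simp
  have h4 : ‖∑ p ∈ prI 0 y, (((Real.log y - Real.log p : ℝ)) : ℂ) *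
      ee ((p : ℝ) * (a / q + β))‖ ≤ C' * y * (X + Y) := by
    refine (norm_sum_le _ _).trans ?_
    have h6 : ∑ p ∈ prI 0 y, ‖(((Real.log y - Real.log p : ℝ)) : ℂ) *
        ee ((p : ℝ) * (a / q + β))‖ = ∑ p ∈ prI 0 y, (Real.log y - Real.log p) := by
      apply Finset.sum_congr rfl
      intro p hp
      unfold prI at hp
      rw [Finset.mem_filter, Finset.mem_Ioc] at hp
      rw [norm_mul, Pool.Agent.MC.norm_ee, mul_one, Complex.norm_real, Real.norm_eq_abs]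
      apply abs_of_nonneg
      have : Real.log p ≤ Real.log y :=
        Real.log_le_log (by exact_mod_cast hp.2.pos) (by exact_mod_cast hp.1.2)
      linarith
    rw [h6]
    refine h2.trans ?_
    calc C' * y / Real.log y = C' * y * (1 / Real.log y) := by ring
      _ ≤ C' * y * (X + Y) := mul_le_mul_of_nonneg_left (by linarith) (by positivity)
  calc _ ≤ C * y * (X + Y) + C' * y * (X + Y) := add_le_add h3 h4
    _ = (C + C') * y * (X + Y) := by ring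

end Pool.Agent.PP
end

section

/-!
# F6: the pointwise bound on the arcs
-/

set_option autoImplicit false

namespace Pool.Agent.PP

open Finset MeasureTheory Real
open Pool.Agent.MC (ee expSum frac frac' arcSum fareySet)
open Pool.Agent.Lib.MP_bae66e_nt.AP3 (Rough rset dset prI KT flEta FLP cset Om0 xb prm)

private lemma F6_four (s t : ℝ) : (s + t) ^ 4 ≤ 8 * (s ^ 4 + t ^ 4) := by
  have h1 : (s + t) ^ 2 ≤ 2 * (s ^ 2 + t ^ 2) := add_sq_le
  have h2 := pow_le_pow_left₀ (sq_nonneg (s + t)) h1 2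
  have h3 : (s ^ 2 + t ^ 2) ^ 2 ≤ 2 * ((s ^ 2) ^ 2 + (t ^ 2) ^ 2) := add_sq_le
  have e1 : ((s + t) ^ 2) ^ 2 = (s + t) ^ 4 := by ring
  have e2 : (2 * (s ^ 2 + t ^ 2)) ^ 2 = 4 * (s ^ 2 + t ^ 2) ^ 2 := by ring
  have e3 : (s ^ 2) ^ 2 = s ^ 4 := by ring
  have e4 : (t ^ 2) ^ 2 = t ^ 4 := by ring
  rw [e1, e2] at h2
  rw [e3, e4] at h3
  linarith

private lemma F6_fin (Z A4 B4 N4 M4 c y w A2 : ℝ) (h1 : Z ≤ 8 * (A4 + B4)) (h2 : B4 ≤ N4)
    (h3 : A4 ≤ 2 * c * y * w * A2) (hm : 0 ≤ M4) :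
    Z ≤ 16 * c * y * w * A2 + 8 * N4 + M4 := by
  have e : 16 * c * y * w * A2 = 8 * (2 * c * y * w * A2) := by ring
  rw [e]
  linarith


/-- the contribution of the model away from the main arcs -/
noncomputable def nb (W Q0 D y q : ℕ) (β : ℝ) : ℝ :=
  (W : ℝ) ^ 3 * (D + if q ∣ W then 2 / (|β| + Q0 / (W * y)) else 0)

/-- the contribution of the main arcs -/
noncomputable def mb (W Q0 y q : ℕ) (δ β : ℝ) : ℝ :=
  if q ≤ Q0 then y * (‖cE W q‖ / max 1 (y * |β|) + δ * (2 / (1 + y * |β| / Q0))) else 0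

/-- powers are eventually smaller than exponentials -/
private lemma F6_ev (k : ℕ) (c K : ℝ) (hc : 0 < c) :
    ∀ᶠ L : ℝ in Filter.atTop, K * L ^ k ≤ Real.exp (c * L) := by
  have h1 := (isLittleO_pow_exp_pos_mul_atTop (k := k) hc).bound
    (show (0 : ℝ) < 1 / (|K| + 1) by positivity)
  filter_upwards [h1] with L hL
  rw [Real.norm_eq_abs, Real.norm_eq_abs, abs_of_pos (Real.exp_pos _)] at hL
  have hK : 0 ≤ |K| := abs_nonneg K
  have h2 : K * L ^ k ≤ |K| * |L ^ k| := by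
    rw [← abs_mul]
    exact le_abs_self _
  have h3 : |K| * |L ^ k| ≤ |K| * (1 / (|K| + 1) * Real.exp (c * L)) :=
    mul_le_mul_of_nonneg_left hL hK
  have h4 : |K| * (1 / (|K| + 1) * Real.exp (c * L)) =
      |K| / (|K| + 1) * Real.exp (c * L) := by ring
  have h5 : |K| / (|K| + 1) ≤ 1 := by
    rw [div_le_one (by positivity)]
    linarith
  have h6 := mul_le_of_le_one_left (Real.exp_pos (c * L)).le h5
  linarith

private lemma F6_log_tendsto :
    Filter.Tendsto (fun y : ℕ => Real.log (y : ℝ)) Filter.atTop Filter.atTop :=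
  Real.tendsto_log_atTop.comp tendsto_natCast_atTop_atTop

/-- PROOF. `Q = q max 1 (y |β|) ≤ 4 (log y)^12 ≤ (log y)^30`. Case `Q ≤ Q0`: `q ≤ Q0`, `y|β| ≤ Q0`, `main_arcs` and
`1 ≤ 2/(1 + y|β|/Q0)` give `‖·‖ ≤ mb`. Case `Q > Q0`: `EE = th - nu`, `(s + t)⁴ ≤ 8 (s⁴ + t⁴)`. By `th_exp` `‖th-sum‖² ≤ C² y² (Q^(-1/9) + (log y)^(-1/2))²
≤ 2 C² y² (Q^(-2/9) + 1/log y)` and `Q ≥ max Q0 q`. The model: if `q ∤ W`, `nu_exp_not_dvd` gives `≤ W³ q ≤ W³ D`; if `q ∣ W` then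
`q ≤ W ≤ Q0 < Q` so `y |β| > Q0/q ≥ Q0/W`, and `nu_exp_dvd` gives `≤ W³ (q + 1/|β|) ≤ nb`. (`W |β| ≤ 1/(2q)`: `|β| ≤ 2 D/(q y)` and `y ≥ 4 W D`.) -/
lemma arc_pointwise (hP : PNTAP) : ∃ C : ℝ, 0 < C ∧ ∀ (W Q0 : ℕ), Squarefree W → 2 ≤ W → W ≤ Q0 →
    ∀ δ : ℝ, 0 < δ → ∃ y₀ : ℕ, ∀ (y D : ℕ), y₀ ≤ y → (D : ℝ) ≤ 2 * Real.log y ^ 12 →
    ∀ q ∈ Icc 1 D, ∀ a ∈ frac' q, ∀ β : ℝ, |β| ≤ 2 * D / (q * y) →
    ‖expSum (fun n => ((EE W n : ℝ) : ℂ)) (y + 1) ((a : ℝ) / q + β)‖ ^ 4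
      ≤ C * (y : ℝ) ^ 2 * (((max Q0 q : ℕ) : ℝ) ^ (-(2 / 9) : ℝ) + 1 / Real.log y)
          * ‖expSum (fun n => ((th n : ℝ) : ℂ)) (y + 1) ((a : ℝ) / q + β)‖ ^ 2
        + 8 * nb W Q0 D y q β ^ 4 + mb W Q0 y q δ β ^ 4 := by
  obtain ⟨C₁, hC₁, y₁, hth⟩ := th_exp
  refine ⟨16 * C₁ ^ 2, by positivity, fun W Q0 hWs hW hWQ δ hδ => ?_⟩
  obtain ⟨y₂, hmain⟩ := main_arcs hP W Q0 hWs hW δ hδ
  have hev : ∀ᶠ y : ℕ in Filter.atTop, 2 ≤ Real.log y ∧
      (8 * W) * Real.log y ^ 12 ≤ Real.exp (1 * Real.log y) := by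
    refine F6_log_tendsto.eventually (p := fun L : ℝ => 2 ≤ L ∧
      (8 * W) * L ^ 12 ≤ Real.exp (1 * L)) ?_
    filter_upwards [Filter.eventually_ge_atTop 2, F6_ev 12 1 (8 * W) (by norm_num)]
      with L h1 h2
    exact ⟨h1, h2⟩
  obtain ⟨y₀, hy₀⟩ := Filter.eventually_atTop.1 hev
  refine ⟨max (max y₀ y₁) (max y₂ 1), fun y D hy hDL q hq a ha β hβ => ?_⟩
  obtain ⟨hL2, hL12⟩ := hy₀ y (le_trans (le_trans (le_max_left _ _) (le_max_left _ _)) hy)
  have hyy1 : y₁ ≤ y := le_trans (le_trans (le_max_right _ _) (le_max_left _ _)) hy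
  have hyy2 : y₂ ≤ y := le_trans (le_trans (le_max_left _ _) (le_max_right _ _)) hy
  have hy1 : 1 ≤ y := le_trans (le_trans (le_max_right _ _) (le_max_right _ _)) hy
  have hypos : (0 : ℝ) < y := by exact_mod_cast hy1
  set L : ℝ := Real.log y with hLdef
  have hLpos : 0 < L := by linarith
  have hyL : Real.exp (1 * L) = y := by rw [one_mul, hLdef, Real.exp_log hypos]
  rw [hyL] at hL12
  have hq' := Finset.mem_Icc.1 hq
  have hq1 : 1 ≤ q := hq'.1
  have hqpos : (0 : ℝ) < q := by exact_mod_cast hq1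
  have hq1r : (1 : ℝ) ≤ q := by exact_mod_cast hq1
  have hqD : (q : ℝ) ≤ D := by exact_mod_cast hq'.2
  have hDpos : (0 : ℝ) < D := lt_of_lt_of_le hqpos hqD
  have hWpos : (0 : ℝ) < W := by exact_mod_cast (by omega : 0 < W)
  have hQ0pos : (0 : ℝ) < Q0 := by exact_mod_cast (by omega : 0 < Q0)
  have ha' := ha
  rw [frac', Finset.mem_filter, Finset.mem_Icc] at ha'
  have hβ0 : 0 ≤ |β| := abs_nonneg β
  have hyβ : y * |β| ≤ 2 * D / q := by
    calc (y : ℝ) * |β| ≤ y * (2 * D / (q * y)) := mul_le_mul_of_nonneg_left hβ hypos.le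
      _ = 2 * D / q := by field_simp
  set Q : ℝ := q * max 1 (y * |β|) with hQ
  have hmax1 : 1 ≤ max 1 ((y : ℝ) * |β|) := le_max_left _ _
  have hqQ : (q : ℝ) ≤ Q := le_mul_of_one_le_right hqpos.le hmax1
  have hQpos : 0 < Q := lt_of_lt_of_le hqpos hqQ
  have hyβQ : y * |β| ≤ Q := by
    calc (y : ℝ) * |β| ≤ max 1 (y * |β|) := le_max_right _ _
      _ ≤ Q := le_mul_of_one_le_left (by linarith) hq1r
  have hQ2D : Q ≤ 2 * D := by
    rw [hQ]
    rcases le_total ((y : ℝ) * |β|) 1 with h | h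
    · rw [max_eq_left h]
      linarith
    · rw [max_eq_right h]
      calc (q : ℝ) * (y * |β|) ≤ q * (2 * D / q) := mul_le_mul_of_nonneg_left hyβ hqpos.le
        _ = 2 * D := by field_simp
  have hQL : Q ≤ L ^ 30 := by
    have h1 : (4 : ℝ) ≤ L ^ 18 := by
      calc (4 : ℝ) = 2 ^ 2 := by norm_num
        _ ≤ L ^ 2 := pow_le_pow_left₀ (by norm_num) hL2 2
        _ ≤ L ^ 18 := pow_le_pow_right₀ (by linarith) (by norm_num)
    calc Q ≤ 2 * D := hQ2D
      _ ≤ 4 * L ^ 12 := by linarith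
      _ ≤ L ^ 18 * L ^ 12 := mul_le_mul_of_nonneg_right h1 (by positivity)
      _ = L ^ 30 := by ring
  set A : ℂ := expSum (fun n => ((th n : ℝ) : ℂ)) (y + 1) ((a : ℝ) / q + β) with hA
  have hwt : 0 ≤ ((max Q0 q : ℕ) : ℝ) ^ (-(2 / 9) : ℝ) + 1 / L := by positivity
  have hnb0 : 0 ≤ nb W Q0 D y q β ^ 4 := by positivity
  rcases le_or_gt Q Q0 with hc | hc
  · have h1 : q ≤ Q0 := by
      have : (q : ℝ) ≤ Q0 := hqQ.trans hc
      exact_mod_cast this
    have h2 := hmain y hyy2 q (Finset.mem_Icc.2 ⟨hq1, h1⟩) a ha β (hyβQ.trans hc)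
    have h3 : ‖expSum (fun n => ((EE W n : ℝ) : ℂ)) (y + 1) ((a : ℝ) / q + β)‖ ≤
        mb W Q0 y q δ β := by
      unfold mb
      rw [if_pos h1]
      refine h2.trans ?_
      have h4 : 1 ≤ 2 / (1 + y * |β| / Q0) := by
        rw [le_div_iff₀ (by positivity)]
        have h5 : y * |β| / Q0 ≤ 1 := by
          rw [div_le_one hQ0pos]
          exact hyβQ.trans hc
        linarith
      have h5 : δ * y ≤ δ * y * (2 / (1 + y * |β| / Q0)) :=
        le_mul_of_one_le_right (by positivity) h4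
      calc ‖cE W q‖ * (y / max 1 (y * |β|)) + δ * y
          ≤ ‖cE W q‖ * (y / max 1 (y * |β|)) + δ * y * (2 / (1 + y * |β| / Q0)) := by linarith
        _ = y * (‖cE W q‖ / max 1 (y * |β|) + δ * (2 / (1 + y * |β| / Q0))) := by ring
    have h4 := pow_le_pow_left₀ (norm_nonneg _) h3 4
    have h5 : 0 ≤ 16 * C₁ ^ 2 * (y : ℝ) ^ 2 * (((max Q0 q : ℕ) : ℝ) ^ (-(2 / 9) : ℝ) + 1 / L) *
        ‖A‖ ^ 2 := by positivity
    linarith
  · have hB : ∃ B : ℂ, expSum (fun n => ((EE W n : ℝ) : ℂ)) (y + 1) ((a : ℝ) / q + β) = A - B ∧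
        ‖B‖ ≤ nb W Q0 D y q β := by
      refine ⟨∑ n ∈ Icc 1 y, ((nu W n : ℝ) : ℂ) * ee (n * (a / q + β)), ?_, ?_⟩
      · have h1 : ∑ n ∈ Icc 1 y, ((nu W n : ℝ) : ℂ) * ee (n * (a / q + β)) =
            expSum (fun n => ((nu W n : ℝ) : ℂ)) (y + 1) ((a : ℝ) / q + β) := by
          unfold expSum
          rw [Finset.range_eq_Ico, Finset.sum_eq_sum_Ico_succ_bot (by omega)]
          have h2 : nu W 0 = 0 := by
            unfold nu
            rw [if_neg]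
            rw [Nat.coprime_zero_left]
            omega
          have h3 : Finset.Ico (0 + 1) (y + 1) = Finset.Icc 1 y := by
            ext n
            rw [Finset.mem_Ico, Finset.mem_Icc]
            omega
          rw [h3]
          simp only [h2, Complex.ofReal_zero, zero_mul, zero_add]
        rw [h1, hA]
        unfold expSum
        rw [← Finset.sum_sub_distrib]
        refine Finset.sum_congr rfl fun n _ => ?_
        unfold EE
        push_cast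
        ring
      · have h1 : (W : ℝ) * |β| ≤ 1 / (2 * q) := by
          calc (W : ℝ) * |β| ≤ W * (2 * D / (q * y)) := mul_le_mul_of_nonneg_left hβ hWpos.le
            _ ≤ 1 / (2 * q) := by
              rw [← mul_div_assoc, div_le_div_iff₀ (by positivity) (by positivity)]
              have h2 : 4 * W * D ≤ (y : ℝ) := by
                have h3 : 4 * (W : ℝ) * D ≤ 4 * W * (2 * L ^ 12) :=
                  mul_le_mul_of_nonneg_left hDL (by positivity)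
                linarith
              calc (W : ℝ) * (2 * D) * (2 * q) = q * (4 * W * D) := by ring
                _ ≤ q * y := mul_le_mul_of_nonneg_left h2 hqpos.le
                _ = 1 * (q * y) := (one_mul _).symm
        unfold nb
        by_cases hd : q ∣ W
        · rw [if_pos hd]
          have hqW : q ≤ W := Nat.le_of_dvd (by omega) hd
          have hqWr : (q : ℝ) ≤ W := by exact_mod_cast hqW
          have hWQr : (W : ℝ) ≤ Q0 := by exact_mod_cast hWQ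
          have h2 : 1 < y * |β| := by
            by_contra hcon
            push Not at hcon
            rw [hQ, max_eq_left hcon, mul_one] at hc
            linarith
          have h3 : Q = q * (y * |β|) := by rw [hQ, max_eq_right h2.le]
          have hβne : β ≠ 0 := by
            intro h0
            rw [h0, abs_zero, mul_zero] at h2
            linarith
          have hβpos : 0 < |β| := abs_pos.2 hβne
          have h4 : (Q0 : ℝ) / (W * y) ≤ |β| := by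
            rw [div_le_iff₀ (by positivity)]
            rw [h3] at hc
            have h5 : (q : ℝ) * (y * |β|) ≤ W * (y * |β|) :=
              mul_le_mul_of_nonneg_right hqWr (by positivity)
            have e : |β| * ((W : ℝ) * y) = W * (y * |β|) := by ring
            rw [e]
            linarith
          refine (nu_exp_dvd W q a y hW hq1 ha'.2 β h1 hβne).trans ?_
          refine mul_le_mul_of_nonneg_left (add_le_add hqD ?_) (by positivity)
          rw [div_le_div_iff₀ hβpos (by positivity)]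
          linarith
        · rw [if_neg hd, add_zero]
          refine (nu_exp_not_dvd W q a y hW hq1 ha'.2 β h1 hd).trans ?_
          exact mul_le_mul_of_nonneg_left hqD (by positivity)
    obtain ⟨B, hEB, hBn⟩ := hB
    have hAb : ‖A‖ ≤ C₁ * y * (Q ^ (-(1 / 9) : ℝ) + L ^ (-(1 / 2) : ℝ)) :=
      hth y q a β hyy1 hq1 ha'.2 hQL
    have hA2 : ‖A‖ ^ 2 ≤ 2 * C₁ ^ 2 * (y : ℝ) ^ 2 *
        (((max Q0 q : ℕ) : ℝ) ^ (-(2 / 9) : ℝ) + 1 / L) := by
      have e1 : (Q ^ (-(1 / 9) : ℝ)) ^ 2 = Q ^ (-(2 / 9) : ℝ) := by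
        rw [← Real.rpow_natCast, ← Real.rpow_mul hQpos.le]
        norm_num
      have e2 : (L ^ (-(1 / 2) : ℝ)) ^ 2 = 1 / L := by
        rw [← Real.rpow_natCast, ← Real.rpow_mul hLpos.le]
        norm_num
        rw [Real.rpow_neg_one]
      have e3 : Q ^ (-(2 / 9) : ℝ) ≤ ((max Q0 q : ℕ) : ℝ) ^ (-(2 / 9) : ℝ) := by
        refine Real.rpow_le_rpow_of_nonpos ?_ ?_ (by norm_num)
        · have : (Q0 : ℝ) ≤ ((max Q0 q : ℕ) : ℝ) := by exact_mod_cast le_max_left _ _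
          linarith
        · rw [Nat.cast_max]
          exact max_le hc.le hqQ
      have e4 := pow_le_pow_left₀ (norm_nonneg A) hAb 2
      have e5 : (Q ^ (-(1 / 9) : ℝ) + L ^ (-(1 / 2) : ℝ)) ^ 2 ≤
          2 * (Q ^ (-(2 / 9) : ℝ) + 1 / L) := by
        rw [← e1, ← e2]
        exact add_sq_le
      calc ‖A‖ ^ 2 ≤ (C₁ * y * (Q ^ (-(1 / 9) : ℝ) + L ^ (-(1 / 2) : ℝ))) ^ 2 := e4
        _ = C₁ ^ 2 * (y : ℝ) ^ 2 * (Q ^ (-(1 / 9) : ℝ) + L ^ (-(1 / 2) : ℝ)) ^ 2 := by ring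
        _ ≤ C₁ ^ 2 * (y : ℝ) ^ 2 * (2 * (Q ^ (-(2 / 9) : ℝ) + 1 / L)) :=
            mul_le_mul_of_nonneg_left e5 (by positivity)
        _ ≤ C₁ ^ 2 * (y : ℝ) ^ 2 * (2 * (((max Q0 q : ℕ) : ℝ) ^ (-(2 / 9) : ℝ) + 1 / L)) := by
            refine mul_le_mul_of_nonneg_left ?_ (by positivity)
            linarith
        _ = _ := by ring
    have h1 : ‖A - B‖ ^ 4 ≤ 8 * (‖A‖ ^ 4 + ‖B‖ ^ 4) := by
      have e1 := pow_le_pow_left₀ (norm_nonneg _) (norm_sub_le A B) 4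
      have e2 : (‖A‖ + ‖B‖) ^ 4 ≤ 8 * (‖A‖ ^ 4 + ‖B‖ ^ 4) := F6_four _ _
      exact e1.trans e2
    have h2 : ‖B‖ ^ 4 ≤ nb W Q0 D y q β ^ 4 := pow_le_pow_left₀ (norm_nonneg _) hBn 4
    have h3 : ‖A‖ ^ 4 ≤ 2 * C₁ ^ 2 * (y : ℝ) ^ 2 *
        (((max Q0 q : ℕ) : ℝ) ^ (-(2 / 9) : ℝ) + 1 / L) * ‖A‖ ^ 2 := by
      calc ‖A‖ ^ 4 = ‖A‖ ^ 2 * ‖A‖ ^ 2 := by ring
        _ ≤ _ := mul_le_mul_of_nonneg_right hA2 (by positivity)
    have hmb : 0 ≤ mb W Q0 y q δ β ^ 4 := by positivity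
    rw [hEB]
    exact F6_fin _ _ _ _ _ _ _ _ _ h1 h2 h3 hmb

end Pool.Agent.PP
end
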