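import Pool.Agent.Lib.MP_bae66e_nt.Mg.G080
import Pool.Agent.Lib.MP_bae66e_nt.Mg.G094

section

/-!
# V2a: sums over a block of `q` consecutive integers
-/

set_option autoImplicit false

namespace Pool.Agent.PP

open Finset MeasureTheory Real
open Pool.Agent.MC (ee expSum frac frac' arcSum fareySet)
open Pool.Agent.Lib.MP_bae66e_nt.AP3 (Rough rset dset prI KT flEta FLP cset Om0 xb prm)

lemma V2a_harm0 (n : ℕ) : ∑ i ∈ range n, 1 / ((i : ℝ) + 1) ≤ 1 + Real.log n := by
  have h := harmonic_le_one_add_log n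
  refine le_trans (le_of_eq ?_) h
  unfold harmonic
  push_cast
  refine Finset.sum_congr rfl (fun i _ => ?_)
  rw [one_div]

lemma V2a_harm1 (n : ℕ) : ∑ t ∈ range n, 1 / (t : ℝ) ≤ 1 + Real.log n := by
  rcases n with _ | m
  · simp
  · rw [Finset.sum_range_succ']
    have h := V2a_harm0 m
    have h2 : Real.log (m : ℝ) ≤ Real.log ((m + 1 : ℕ) : ℝ) := by
      rcases Nat.eq_zero_or_pos m with h0 | h0
      · subst h0; simp
      · apply Real.log_le_log (by exact_mod_cast h0)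
        push_cast; linarith
    have h3 : ∑ k ∈ range m, 1 / (((k + 1 : ℕ)) : ℝ) = ∑ i ∈ range m, 1 / ((i : ℝ) + 1) := by
      refine Finset.sum_congr rfl (fun i _ => ?_)
      push_cast
      rfl
    rw [h3]
    simp only [Nat.cast_zero, div_zero, add_zero]
    linarith

lemma V2a_harm2 (q : ℕ) : ∑ t ∈ range q, 1 / ((q : ℝ) - t) ≤ 1 + Real.log q := by
  have h := V2a_harm0 q
  rw [← Finset.sum_range_reflect] at h
  refine le_trans (le_of_eq ?_) h
  refine Finset.sum_congr rfl (fun t ht => ?_)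
  rw [Finset.mem_range] at ht
  congr 1
  have : ((q - 1 - t : ℕ) : ℝ) + 1 = ((q - 1 - t + 1 : ℕ) : ℝ) := by push_cast; rfl
  rw [this]
  have h2 : q - 1 - t + 1 = q - t := by omega
  rw [h2, Nat.cast_sub ht.le]

lemma V2a_dn (q t : ℕ) (hq : 1 ≤ q) : min (t : ℝ) (q - t) / q ≤ dn ((t : ℝ) / q) := by
  have hq0 : (0 : ℝ) < q := by exact_mod_cast hq
  unfold dn
  set n : ℤ := round ((t : ℝ) / q) with hn
  have h1 : (t : ℝ) / q - n = ((t : ℝ) - n * q) / q := by
    field_simp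
  rw [h1, abs_div, abs_of_pos hq0]
  apply div_le_div_of_nonneg_right _ hq0.le
  rcases le_or_gt n 0 with h | h
  · have h2 : (n : ℝ) ≤ 0 := by exact_mod_cast h
    refine (min_le_left _ _).trans (le_trans ?_ (le_abs_self _))
    nlinarith
  · have h2 : (1 : ℝ) ≤ n := by exact_mod_cast h
    refine (min_le_right _ _).trans (le_trans ?_ (neg_le_abs _))
    nlinarith

/-- Block sum. PROOF. Write `x_r = (k₀ + r) α`. Since `α = a/q + δ/q²`, `|δ| ≤ 1`:
`x_r = k₀ α + r a/q + r δ/q²` with `|r δ/q²| ≤ 1/q`. Put `c = ⌊q k₀ α⌋` and `t_r = (c + r a) mod q` (in `[0,q)`);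
`r ↦ t_r` is a bijection of `range q` (`a` is invertible mod `q`). Then `x_r` differs from `t_r/q` plus an integer
by at most `1/q + 1/q = 2/q`, so `dn x_r ≥ dn (t_r/q) - 2/q = min (t_r, q - t_r)/q - 2/q`. If
`m = min (t_r, q - t_r) ≥ 3` this is `≥ m/(3 q)`, hence `GG N x_r ≤ 3 q/m` (`GG_le_inv`). At most 5 values of `t_r`
have `m ≤ 2`; there `GG N x_r ≤ N`. Sum: `≤ 5 N + ∑_{t=3}^{q-3} 3 q/min (t, q-t) ≤ 5 N + 6 q ∑_{t=3}^{q} 1/t
≤ 5 N + 6 q (log q + 1)` (harmonic sum, e.g. `harmonic_le_one_add_log`). -/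
lemma block_sum (q : ℕ) (hq : 1 ≤ q) (a : ℤ) (ha : IsCoprime a (q : ℤ)) (α : ℝ)
    (hα : |α - a / q| ≤ 1 / (q : ℝ) ^ 2) (k₀ : ℤ) (N : ℝ) (hN : 0 ≤ N) :
    ∑ r ∈ range q, GG N (((k₀ : ℝ) + r) * α) ≤ 8 * (N + q * (1 + Real.log q)) := by
  have hq0 : (0 : ℝ) < q := by exact_mod_cast hq
  have hqz : (0 : ℤ) < q := by exact_mod_cast hq
  have hlog : 0 ≤ Real.log q := Real.log_natCast_nonneg q
  set c : ℤ := ⌊(q : ℝ) * (k₀ * α)⌋ with hc
  set t : ℕ → ℕ := fun r => ((c + r * a) % q).toNat with ht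
  have ht1 : ∀ r : ℕ, ((t r : ℕ) : ℤ) = (c + r * a) % q := fun r =>
    Int.toNat_of_nonneg (Int.emod_nonneg _ hqz.ne')
  have ht2 : ∀ r : ℕ, t r < q := by
    intro r
    have h1 : ((t r : ℕ) : ℤ) < q := by rw [ht1]; exact Int.emod_lt_of_pos _ hqz
    exact_mod_cast h1
  have hinj : Set.InjOn t (range q : Set ℕ) := by
    intro r hr s hs hrs
    rw [Finset.coe_range, Set.mem_Iio] at hr hs
    have h1 : (c + r * a) % q = (c + s * a) % q := by rw [← ht1, ← ht1, hrs]
    have h2 : (q : ℤ) ∣ (c + s * a) - (c + r * a) := Int.ModEq.dvd h1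
    have h3 : (c + s * a) - (c + r * a) = ((s : ℤ) - r) * a := by ring
    rw [h3] at h2
    have h4 : (q : ℤ) ∣ (s : ℤ) - r := ha.symm.dvd_of_dvd_mul_right h2
    have h5 : (s : ℤ) - r = 0 := by
      apply Int.eq_zero_of_abs_lt_dvd h4
      rw [abs_lt]
      constructor <;> omega
    omega
  set H : ℕ → ℝ := fun t => N * (if t ≤ 2 then 1 else 0) + N * (if q ≤ t + 2 then 1 else 0)
    + 3 * q * (1 / (t : ℝ)) + 3 * q * (1 / ((q : ℝ) - t)) with hH
  have hH0 : ∀ s ∈ range q, 0 ≤ H s := by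
    intro s hs
    rw [Finset.mem_range] at hs
    have hs' : (s : ℝ) < q := by exact_mod_cast hs
    have h1 : (0 : ℝ) ≤ (if s ≤ 2 then 1 else 0) := by split_ifs <;> norm_num
    have h2 : (0 : ℝ) ≤ (if q ≤ s + 2 then 1 else 0) := by split_ifs <;> norm_num
    have h3 : (0 : ℝ) ≤ 1 / (s : ℝ) := by positivity
    have h4 : (0 : ℝ) ≤ 1 / ((q : ℝ) - s) := one_div_nonneg.mpr (by linarith)
    simp only [hH]
    have := mul_nonneg hN h1
    have := mul_nonneg hN h2
    have := mul_nonneg (mul_nonneg (by norm_num : (0 : ℝ) ≤ 3) hq0.le) h3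
    have := mul_nonneg (mul_nonneg (by norm_num : (0 : ℝ) ≤ 3) hq0.le) h4
    linarith
  have hmain : ∀ r ∈ range q, GG N (((k₀ : ℝ) + r) * α) ≤ H (t r) := by
    intro r hr
    rw [Finset.mem_range] at hr
    have hr' : (r : ℝ) + 1 ≤ q := by exact_mod_cast hr
    have hr0 : (0 : ℝ) ≤ r := Nat.cast_nonneg r
    have htq : ((t r : ℕ) : ℝ) < q := by exact_mod_cast ht2 r
    have ht0 : (0 : ℝ) ≤ ((t r : ℕ) : ℝ) := Nat.cast_nonneg _
    have h3 : (0 : ℝ) ≤ 3 * q * (1 / ((t r : ℕ) : ℝ)) := by positivity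
    have h4 : (0 : ℝ) ≤ 3 * q * (1 / ((q : ℝ) - (t r : ℕ))) :=
      mul_nonneg (by positivity) (one_div_nonneg.mpr (by linarith))
    have hGN := GG_le (((k₀ : ℝ) + r) * α) hN
    by_cases hc1 : t r ≤ 2
    · have h2 : (0 : ℝ) ≤ (if q ≤ t r + 2 then 1 else 0) := by split_ifs <;> norm_num
      have h2' := mul_nonneg hN h2
      simp only [hH]
      rw [if_pos hc1, mul_one]
      linarith
    by_cases hc2 : q ≤ t r + 2
    · simp only [hH]
      rw [if_neg hc1, if_pos hc2, mul_one, mul_zero]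
      linarith
    · simp only [hH]
      rw [if_neg hc1, if_neg hc2, mul_zero, add_zero, zero_add]
      have ht3 : (3 : ℝ) ≤ ((t r : ℕ) : ℝ) := by
        have : 3 ≤ t r := by omega
        exact_mod_cast this
      have hq3 : (3 : ℝ) ≤ (q : ℝ) - ((t r : ℕ) : ℝ) := by
        have : t r + 3 ≤ q := by omega
        have h : ((t r : ℕ) : ℝ) + 3 ≤ q := by exact_mod_cast this
        linarith
      set D : ℤ := (c + r * a) / q with hD
      have hdiv : ((t r : ℕ) : ℤ) + q * D = c + r * a := by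
        rw [ht1, hD]
        exact Int.emod_add_mul_ediv _ _
      have hdiv' : ((t r : ℕ) : ℝ) + q * D = c + r * a := by exact_mod_cast hdiv
      have hfl1 : (c : ℝ) ≤ q * (k₀ * α) := Int.floor_le _
      have hfl2 : q * (k₀ * α) < (c : ℝ) + 1 := Int.lt_floor_add_one _
      have herr : |((t r : ℕ) : ℝ) / q + D - ((k₀ : ℝ) + r) * α| ≤ 2 / q := by
        have e1 : ((t r : ℕ) : ℝ) / q + D = (c + r * a) / q := by
          rw [← hdiv']; field_simp
        have e2 : ((t r : ℕ) : ℝ) / q + D - ((k₀ : ℝ) + r) * α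
            = -((q * (k₀ * α) - c) / q) + -(r * (α - a / q)) := by
          rw [e1]; field_simp; ring
        rw [e2]
        refine (abs_add_le _ _).trans ?_
        rw [abs_neg, abs_neg, abs_div, abs_of_pos hq0, abs_mul, abs_of_nonneg hr0,
          abs_of_nonneg (by linarith : (0 : ℝ) ≤ q * (k₀ * α) - c)]
        have e3 : (q * (k₀ * α) - c) / q ≤ 1 / q :=
          div_le_div_of_nonneg_right (by linarith) hq0.le
        have e4 : (r : ℝ) * |α - a / q| ≤ 1 / q := by
          calc (r : ℝ) * |α - a / q| ≤ q * (1 / (q : ℝ) ^ 2) :=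
                mul_le_mul (by linarith) hα (abs_nonneg _) hq0.le
            _ = 1 / q := by field_simp
        calc (q * (k₀ * α) - c) / q + r * |α - a / q| ≤ 1 / q + 1 / q := add_le_add e3 e4
          _ = 2 / q := by ring
      have h5 := dn_sub_le (((t r : ℕ) : ℝ) / q + D) (((k₀ : ℝ) + r) * α)
      rw [dn_add_int] at h5
      have h6 := V2a_dn q (t r) hq
      set m : ℝ := min ((t r : ℕ) : ℝ) (q - (t r : ℕ)) with hm
      have hm3 : 3 ≤ m := le_min ht3 hq3
      have h7 : m / (3 * q) ≤ dn (((k₀ : ℝ) + r) * α) := by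
        have h8 : m / q - 2 / q ≤ dn (((k₀ : ℝ) + r) * α) := by linarith
        refine le_trans ?_ h8
        rw [← sub_div, div_le_div_iff₀ (by positivity) hq0]
        nlinarith
      have hmp : 0 < m / (3 * q) := by positivity
      have h9 := GG_le_inv hN (hmp.trans_le h7)
      have h10 : 1 / dn (((k₀ : ℝ) + r) * α) ≤ 1 / (m / (3 * q)) :=
        one_div_le_one_div_of_le hmp h7
      have h11 : 1 / (m / (3 * q)) = 3 * q * (1 / m) := by field_simp
      have h12 : 1 / m ≤ 1 / ((t r : ℕ) : ℝ) + 1 / ((q : ℝ) - (t r : ℕ)) := by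
        have f1 : (0 : ℝ) ≤ 1 / ((t r : ℕ) : ℝ) := by positivity
        have f2 : (0 : ℝ) ≤ 1 / ((q : ℝ) - (t r : ℕ)) := one_div_nonneg.mpr (by linarith)
        rcases min_choice ((t r : ℕ) : ℝ) ((q : ℝ) - (t r : ℕ)) with h | h
        · rw [hm, h]; linarith
        · rw [hm, h]; linarith
      have h13 : 3 * q * (1 / m)
          ≤ 3 * q * (1 / ((t r : ℕ) : ℝ) + 1 / ((q : ℝ) - (t r : ℕ))) :=
        mul_le_mul_of_nonneg_left h12 (by positivity)
      linarith
  have hsum1 : ∑ r ∈ range q, GG N (((k₀ : ℝ) + r) * α) ≤ ∑ s ∈ range q, H s := by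
    refine (Finset.sum_le_sum hmain).trans ?_
    rw [← Finset.sum_image (f := H) (g := t) (s := range q) hinj]
    apply Finset.sum_le_sum_of_subset_of_nonneg
    · intro s hs
      rw [Finset.mem_image] at hs
      obtain ⟨r, _, rfl⟩ := hs
      exact Finset.mem_range.mpr (ht2 r)
    · intro s hs _
      exact hH0 s hs
  refine hsum1.trans ?_
  simp only [hH]
  rw [Finset.sum_add_distrib, Finset.sum_add_distrib, Finset.sum_add_distrib, ← Finset.mul_sum,
    ← Finset.mul_sum, ← Finset.mul_sum, ← Finset.mul_sum]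
  have g1 : ∑ s ∈ range q, (if s ≤ 2 then (1 : ℝ) else 0) ≤ 3 := by
    rw [Finset.sum_boole]
    have : ((range q).filter (fun s => s ≤ 2)).card ≤ (range 3).card := by
      apply Finset.card_le_card
      intro s hs
      rw [Finset.mem_filter] at hs
      rw [Finset.mem_range]
      omega
    rw [Finset.card_range] at this
    exact_mod_cast this
  have g2 : ∑ s ∈ range q, (if q ≤ s + 2 then (1 : ℝ) else 0) ≤ 2 := by
    rw [Finset.sum_boole]
    have : ((range q).filter (fun s => q ≤ s + 2)).card ≤ (Finset.Ico (q - 2) q).card := by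
      apply Finset.card_le_card
      intro s hs
      rw [Finset.mem_filter, Finset.mem_range] at hs
      rw [Finset.mem_Ico]
      omega
    rw [Nat.card_Ico] at this
    have h2 : ((range q).filter (fun s => q ≤ s + 2)).card ≤ 2 := by omega
    exact_mod_cast h2
  have g3 := V2a_harm1 q
  have g4 := V2a_harm2 q
  have g5 := mul_le_mul_of_nonneg_left g1 hN
  have g6 := mul_le_mul_of_nonneg_left g2 hN
  have g7 := mul_le_mul_of_nonneg_left g3 (by positivity : (0 : ℝ) ≤ 3 * q)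
  have g8 := mul_le_mul_of_nonneg_left g4 (by positivity : (0 : ℝ) ≤ 3 * q)
  have g9 : 0 ≤ q * (1 + Real.log q) := by positivity
  linarith

end Pool.Agent.PP
end

section

/-!
# V2b: the standard sum `∑ min (Z/k, 1/‖k α‖)` and sums over differences
-/

set_option autoImplicit false

namespace Pool.Agent.PP

open Finset MeasureTheory Real
open Pool.Agent.MC (ee expSum frac frac' arcSum fareySet)
open Pool.Agent.Lib.MP_bae66e_nt.AP3 (Rough rset dset prI KT flEta FLP cset Om0 xb prm)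

private lemma V2b_blocks (g : ℕ → ℝ) (q H : ℕ) :
    ∑ k ∈ range (H * q), g k = ∑ h ∈ range H, ∑ r ∈ range q, g (h * q + r) := by
  induction H with
  | zero => simp
  | succ H ih =>
    rw [Finset.sum_range_succ, ← ih, add_mul, one_mul, Finset.sum_range_add]

/-- PROOF. (Blocks of length `q`.) If `K = 0` trivial. Blocks `h ≥ 1`, `k = h q + r`, `0 ≤ r < q`, `h ≤ K / q`:
`Z/k ≤ Z/(h q)`, `GG_mono` and `block_sum` give `≤ 8 (Z/(h q) + q (1 + log q))`; summed over `1 ≤ h ≤ K/q`: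
`≤ 8 (Z/q) (1 + log (K+1)) + 8 K (1 + log q)`. Block `h = 0`, `1 ≤ k < q`: if `2 k ≤ q` then
`dn (k α) ≥ dn (k a/q) - k/q² ≥ 1/q - 1/(2 q) = 1/(2 q)` (`dn_rat_ge`, `dn_sub_le`), so
`GG (Z/k) (k α) ≤ 1/dn (k α) = GG (2 q) (k α)` (use `le_GG`); if `2 k > q` then `Z/k ≤ 2 Z/q`. In both cases
`GG (Z/k) (kα) ≤ GG (2 q + 2 Z/q) (k α)`, and `block_sum` (with `k₀ = 0`) gives `≤ 8 (2 q + 2 Z/q + q (1 + log q))`. -/
lemma min_sum (q : ℕ) (hq : 1 ≤ q) (a : ℤ) (ha : IsCoprime a (q : ℤ)) (α : ℝ)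
    (hα : |α - a / q| ≤ 1 / (q : ℝ) ^ 2) (K : ℕ) (Z : ℝ) (hZ : 0 ≤ Z) :
    ∑ k ∈ Icc 1 K, GG (Z / k) (k * α)
      ≤ 40 * (Z / q + K + q) * (1 + Real.log q + Real.log (K + 1)) := by
  have hq0 : (0 : ℝ) < q := by exact_mod_cast hq
  have hlog : 0 ≤ Real.log q := Real.log_natCast_nonneg q
  have hK0 : (0 : ℝ) ≤ K := Nat.cast_nonneg K
  have hlogK : 0 ≤ Real.log ((K : ℝ) + 1) := Real.log_nonneg (by linarith)
  have hZq : 0 ≤ Z / q := div_nonneg hZ hq0.le
  set NN : ℕ → ℝ := fun h => if h = 0 then 2 * q + 2 * (Z / q) else (Z / q) * (1 / (h : ℝ)) with hNN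
  have hNN0 : ∀ h, 0 ≤ NN h := by
    intro h
    simp only [hNN]
    split_ifs <;> positivity
  set g : ℕ → ℝ := fun k => GG (NN (k / q)) (k * α) with hg
  have hg0 : ∀ k, 0 ≤ g k := fun k => GG_nonneg _ (hNN0 _)
  have h1 : ∀ k ∈ Icc 1 K, GG (Z / k) (k * α) ≤ g k := by
    intro k hk
    rw [Finset.mem_Icc] at hk
    have hk0 : (0 : ℝ) < k := by exact_mod_cast hk.1
    have hZk : 0 ≤ Z / k := div_nonneg hZ hk0.le
    simp only [hg]
    rcases Nat.eq_zero_or_pos (k / q) with h0 | h0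
    · rw [h0]
      have hkq : k < q := by
        rcases (Nat.div_eq_zero_iff).mp h0 with h | h
        · omega
        · exact h
      have hkq' : (k : ℝ) < q := by exact_mod_cast hkq
      have hN0 : NN 0 = 2 * q + 2 * (Z / q) := by simp [hNN]
      rw [hN0]
      rcases Nat.lt_or_ge q (2 * k) with h2 | h2
      · have h2' : (q : ℝ) < 2 * k := by exact_mod_cast h2
        apply GG_mono _ hZk
        have : Z / k ≤ 2 * (Z / q) := by
          rw [mul_div_assoc', div_le_div_iff₀ hk0 hq0]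
          nlinarith
        linarith
      · have h2' : 2 * (k : ℝ) ≤ q := by exact_mod_cast h2
        have hnd : ¬ (q : ℤ) ∣ ((k : ℕ) : ℤ) := by
          intro hd
          have := Int.le_of_dvd (by exact_mod_cast hk.1) hd
          omega
        have h3 := dn_rat_ge q hq a (k : ℤ) ha hnd
        have h4 := dn_sub_le (((k : ℤ) : ℝ) * ((a : ℝ) / q)) ((k : ℝ) * α)
        have h5 : |((k : ℤ) : ℝ) * ((a : ℝ) / q) - (k : ℝ) * α| ≤ 1 / (2 * q) := by
          have : ((k : ℤ) : ℝ) * ((a : ℝ) / q) - (k : ℝ) * α = -((k : ℝ) * (α - a / q)) := by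
            push_cast; ring
          rw [this, abs_neg, abs_mul, abs_of_pos hk0]
          calc (k : ℝ) * |α - a / q| ≤ k * (1 / (q : ℝ) ^ 2) :=
                mul_le_mul_of_nonneg_left hα hk0.le
            _ = k / (q : ℝ) ^ 2 := by ring
            _ ≤ 1 / (2 * q) := by
                rw [div_le_div_iff₀ (by positivity) (by positivity)]
                nlinarith
        have h6 : 1 / (2 * (q : ℝ)) ≤ dn ((k : ℝ) * α) := by
          have h7 : 1 / (q : ℝ) = 1 / (2 * q) + 1 / (2 * q) := by field_simp; norm_num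
          linarith
        have h7 : 0 < 1 / (2 * (q : ℝ)) := by positivity
        have h8 : 0 < dn ((k : ℝ) * α) := h7.trans_le h6
        refine (GG_le_inv hZk h8).trans ?_
        apply le_GG (by positivity)
        · have : 1 / dn ((k : ℝ) * α) ≤ 1 / (1 / (2 * (q : ℝ))) := one_div_le_one_div_of_le h7 h6
          rw [one_div_one_div] at this
          linarith
        · rw [one_div, inv_mul_cancel₀ h8.ne']
        · positivity
    · have hN1 : NN (k / q) = (Z / q) * (1 / ((k / q : ℕ) : ℝ)) := by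
        simp only [hNN]
        rw [if_neg h0.ne']
      rw [hN1]
      apply GG_mono _ hZk
      have h2 : (0 : ℝ) < ((k / q : ℕ) : ℝ) := by exact_mod_cast h0
      have h3 : ((k / q : ℕ) : ℝ) * q ≤ k := by exact_mod_cast Nat.div_mul_le_self k q
      have h4 : (Z / q) * (1 / ((k / q : ℕ) : ℝ)) = Z / (((k / q : ℕ) : ℝ) * q) := by
        field_simp
      rw [h4]
      exact div_le_div_of_nonneg_left hZ (by positivity) h3
  have h2 : ∑ k ∈ Icc 1 K, g k ≤ ∑ k ∈ range ((K / q + 1) * q), g k := by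
    apply Finset.sum_le_sum_of_subset_of_nonneg
    · intro x hx
      rw [Finset.mem_Icc] at hx
      rw [Finset.mem_range]
      have : K < (K / q + 1) * q := by
        have := Nat.lt_div_mul_add (a := K) (b := q) hq
        rw [add_mul, one_mul]
        exact this
      omega
    · intro i _ _
      exact hg0 i
  have h3 : ∀ h ∈ range (K / q + 1), ∑ r ∈ range q, g (h * q + r)
      ≤ 8 * (NN h + q * (1 + Real.log q)) := by
    intro h _
    have := block_sum q hq a ha α hα ((h : ℤ) * q) (NN h) (hNN0 h)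
    refine le_trans (le_of_eq ?_) this
    refine Finset.sum_congr rfl (fun r hr => ?_)
    rw [Finset.mem_range] at hr
    simp only [hg]
    have hd : (h * q + r) / q = h := by
      rw [mul_comm h q, Nat.mul_add_div hq, Nat.div_eq_of_lt hr, add_zero]
    rw [hd]
    congr 1
    push_cast
    ring
  refine (Finset.sum_le_sum h1).trans (h2.trans ?_)
  rw [V2b_blocks]
  refine (Finset.sum_le_sum h3).trans ?_
  rw [← Finset.mul_sum, Finset.sum_add_distrib, Finset.sum_const, Finset.card_range, nsmul_eq_mul]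
  have h4 : ((K / q + 1 : ℕ) : ℝ) * q ≤ K + q := by
    have : (K / q + 1) * q ≤ K + q := by
      rw [add_mul, one_mul]
      have := Nat.div_mul_le_self K q
      omega
    exact_mod_cast this
  have h5 : ∑ h ∈ range (K / q + 1), NN h
      ≤ 2 * q + 2 * (Z / q) + (Z / q) * (1 + Real.log ((K : ℝ) + 1)) := by
    rw [Finset.sum_range_succ']
    have e1 : NN 0 = 2 * q + 2 * (Z / q) := by simp [hNN]
    have e2 : ∑ h ∈ range (K / q), NN (h + 1)
        = (Z / q) * ∑ h ∈ range (K / q), 1 / ((h : ℝ) + 1) := by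
      rw [Finset.mul_sum]
      refine Finset.sum_congr rfl (fun h _ => ?_)
      simp only [hNN]
      rw [if_neg (by omega)]
      push_cast
      rfl
    have e3 := V2a_harm0 (K / q)
    have e4 : Real.log ((K / q : ℕ) : ℝ) ≤ Real.log ((K : ℝ) + 1) := by
      rcases Nat.eq_zero_or_pos (K / q) with h | h
      · rw [h]; simpa using hlogK
      · apply Real.log_le_log (by exact_mod_cast h)
        have : ((K / q : ℕ) : ℝ) ≤ K := by exact_mod_cast Nat.div_le_self K q
        linarith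
    have e5 : (Z / q) * ∑ h ∈ range (K / q), 1 / ((h : ℝ) + 1)
        ≤ (Z / q) * (1 + Real.log ((K : ℝ) + 1)) :=
      mul_le_mul_of_nonneg_left (by linarith) hZq
    rw [e1, e2]
    linarith
  set L : ℝ := 1 + Real.log q + Real.log ((K : ℝ) + 1) with hL
  have hL1 : 1 ≤ L := by rw [hL]; linarith
  have hLq : 1 + Real.log q ≤ L := by rw [hL]; linarith
  have hLK : 1 + Real.log ((K : ℝ) + 1) ≤ L := by rw [hL]; linarith
  have k1 : ((K / q + 1 : ℕ) : ℝ) * (q * (1 + Real.log q)) ≤ (K + q) * L := by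
    rw [← mul_assoc]
    exact mul_le_mul h4 hLq (by linarith) (by positivity)
  have k2 : (Z / q) * (1 + Real.log ((K : ℝ) + 1)) ≤ (Z / q) * L :=
    mul_le_mul_of_nonneg_left hLK hZq
  have k3 : 2 * q + 2 * (Z / q) ≤ (2 * q + 2 * (Z / q)) * L := by
    have : 0 ≤ 2 * q + 2 * (Z / q) := by positivity
    nlinarith
  have k4 : 0 ≤ (K : ℝ) * L := mul_nonneg hK0 (by linarith)
  have k5 : 0 ≤ (q : ℝ) * L := mul_nonneg hq0.le (by linarith)
  have k6 : 0 ≤ (Z / q) * L := mul_nonneg hZq (by linarith)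
  nlinarith

end Pool.Agent.PP
end

section

/-!
# V5: sums of type I
-/

set_option autoImplicit false

namespace Pool.Agent.PP

open Finset MeasureTheory Real
open Pool.Agent.MC (ee expSum frac frac' arcSum fareySet)
open Pool.Agent.Lib.MP_bae66e_nt.AP3 (Rough rset dset prI KT flEta FLP cset Om0 xb prm)

open ArithmeticFunction
open scoped ArithmeticFunction.Moebius ArithmeticFunction.zeta

lemma V5_outer (A B : ArithmeticFunction ℝ) (D y : ℕ) (c c' : ℝ) (hc : 0 ≤ c) (hc' : 0 ≤ c')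
    (hA : ∀ d, |A d| ≤ c) (hA0 : ∀ d, D < d → A d = 0) (α : ℝ)
    (hB : ∀ d ∈ Icc 1 y, ‖∑ m ∈ Icc 1 (y / d), ((B m : ℝ) : ℂ) * ee (m * (d * α))‖
      ≤ c' * GG ((y : ℝ) / d) (d * α)) :
    ‖∑ n ∈ Icc 1 y, (((A * B) n : ℝ) : ℂ) * ee (n * α)‖
      ≤ c * c' * ∑ d ∈ Icc 1 D, GG ((y : ℝ) / d) (d * α) := by
  have h0 := sum_conv A B (fun n => ee ((n : ℝ) * α)) y
  rw [h0]
  have hG0 : ∀ d : ℕ, 0 ≤ GG ((y : ℝ) / d) (d * α) := fun d => GG_nonneg _ (by positivity)
  have h1 : ∀ d ∈ Icc 1 y, ‖∑ m ∈ Icc 1 (y / d), ((A d : ℝ) : ℂ) * ((B m : ℝ) : ℂ)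
      * ee (((d * m : ℕ) : ℝ) * α)‖ ≤ |A d| * (c' * GG ((y : ℝ) / d) (d * α)) := by
    intro d hd
    have h2 : ∑ m ∈ Icc 1 (y / d), ((A d : ℝ) : ℂ) * ((B m : ℝ) : ℂ)
        * ee (((d * m : ℕ) : ℝ) * α)
        = ((A d : ℝ) : ℂ) * ∑ m ∈ Icc 1 (y / d), ((B m : ℝ) : ℂ) * ee (m * (d * α)) := by
      rw [Finset.mul_sum]
      refine Finset.sum_congr rfl (fun m _ => ?_)
      rw [mul_assoc]
      congr 3
      push_cast
      ring
    rw [h2, norm_mul, Complex.norm_real, Real.norm_eq_abs]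
    exact mul_le_mul_of_nonneg_left (hB d hd) (abs_nonneg _)
  refine (norm_sum_le _ _).trans ((Finset.sum_le_sum h1).trans ?_)
  have h3 : ∑ d ∈ Icc 1 y, |A d| * (c' * GG ((y : ℝ) / d) (d * α))
      ≤ ∑ d ∈ Icc 1 y ∩ Icc 1 D, c * (c' * GG ((y : ℝ) / d) (d * α)) := by
    rw [← Finset.sum_subset (Finset.inter_subset_left (s₁ := Icc 1 y) (s₂ := Icc 1 D))
      (f := fun d => |A d| * (c' * GG ((y : ℝ) / d) (d * α)))]
    · apply Finset.sum_le_sum
      intro d _
      exact mul_le_mul_of_nonneg_right (hA d) (mul_nonneg hc' (hG0 d))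
    · intro d hd hd2
      have : D < d := by
        by_contra hcon
        apply hd2
        rw [Finset.mem_inter, Finset.mem_Icc, Finset.mem_Icc]
        rw [Finset.mem_Icc] at hd
        exact ⟨hd, hd.1, by omega⟩
      rw [hA0 d this, abs_zero, zero_mul]
  refine h3.trans ?_
  rw [Finset.mul_sum]
  have h4 : ∑ d ∈ Icc 1 y ∩ Icc 1 D, c * (c' * GG ((y : ℝ) / d) (d * α))
      ≤ ∑ d ∈ Icc 1 D, c * (c' * GG ((y : ℝ) / d) (d * α)) := by
    apply Finset.sum_le_sum_of_subset_of_nonneg Finset.inter_subset_right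
    intro d _ _
    exact mul_nonneg hc (mul_nonneg hc' (hG0 d))
  refine h4.trans (le_of_eq ?_)
  refine Finset.sum_congr rfl (fun d _ => ?_)
  ring

lemma V5_Icc_Ioc (N : ℕ) : Icc 1 N = Finset.Ioc 0 N := by
  ext x; rw [Finset.mem_Icc, Finset.mem_Ioc]; omega

/-- PROOF. `sum_conv` with `B = zR` (value `1` at `m ≥ 1`): the sum is `∑_{d ≤ D} A(d) ∑_{m ≤ y/d} ee (d m α)`;
`geo_sum` with `x = d α`, and `((y / d : ℕ) : ℝ) ≤ y/d` with `GG_mono`. -/
lemma type_one (A : ArithmeticFunction ℝ) (D y : ℕ) (c : ℝ) (hc : 0 ≤ c) (hA : ∀ d, |A d| ≤ c)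
    (hA0 : ∀ d, D < d → A d = 0) (α : ℝ) :
    ‖∑ n ∈ Icc 1 y, (((A * zR) n : ℝ) : ℂ) * ee (n * α)‖
      ≤ c * ∑ d ∈ Icc 1 D, GG ((y : ℝ) / d) (d * α) := by
  have h := V5_outer A zR D y c 1 hc zero_le_one hA hA0 α ?_
  · rwa [mul_one] at h
  · intro d _
    rw [one_mul]
    have h1 : ∑ m ∈ Icc 1 (y / d), ((zR m : ℝ) : ℂ) * ee (m * (d * α))
        = ∑ m ∈ Finset.Ioc 0 (y / d), ee (m * (d * α)) := by
      rw [V5_Icc_Ioc]
      refine Finset.sum_congr rfl (fun m hm => ?_)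
      rw [Finset.mem_Ioc] at hm
      have h2 : zR m = 1 := by
        unfold zR
        rw [ArithmeticFunction.natCoe_apply, ArithmeticFunction.zeta_apply,
          if_neg (by omega)]
        simp
      rw [h2]
      simp
    rw [h1]
    refine (geo_sum _ 0 (y / d) (Nat.zero_le _)).trans ?_
    apply GG_mono
    · simp
    · rw [Nat.cast_zero, sub_zero]
      exact Nat.cast_div_le

lemma V5_log (N : ℕ) (x : ℝ) :
    ‖∑ m ∈ Icc 1 N, ((Real.log m : ℝ) : ℂ) * ee (m * x)‖ ≤ Real.log N * GG N x := by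
  have htel : ∀ m : ℕ, 1 ≤ m → ∑ j ∈ Finset.Ico 1 m, (Real.log ((j : ℝ) + 1) - Real.log j)
      = Real.log m := by
    intro m hm
    have h := Finset.sum_Ico_sub (fun j : ℕ => Real.log (j : ℝ)) hm
    simp only [Nat.cast_add, Nat.cast_one, Real.log_one, sub_zero] at h
    exact h
  have h1 : ∑ m ∈ Icc 1 N, ((Real.log m : ℝ) : ℂ) * ee (m * x)
      = ∑ j ∈ Finset.Ico 1 N, (((Real.log ((j : ℝ) + 1) - Real.log j : ℝ)) : ℂ)
        * ∑ m ∈ Finset.Ioc j N, ee (m * x) := by
    have e1 : ∀ m ∈ Icc 1 N, ((Real.log m : ℝ) : ℂ) * ee (m * x)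
        = ∑ j ∈ Finset.Ico 1 m, (((Real.log ((j : ℝ) + 1) - Real.log j : ℝ)) : ℂ)
          * ee (m * x) := by
      intro m hm
      rw [Finset.mem_Icc] at hm
      rw [← Finset.sum_mul, ← Complex.ofReal_sum, htel m hm.1]
    rw [Finset.sum_congr rfl e1]
    have e2 : ∀ j ∈ Finset.Ico 1 N, (((Real.log ((j : ℝ) + 1) - Real.log j : ℝ)) : ℂ)
        * ∑ m ∈ Finset.Ioc j N, ee (m * x)
        = ∑ m ∈ Finset.Ioc j N, (((Real.log ((j : ℝ) + 1) - Real.log j : ℝ)) : ℂ)
          * ee (m * x) := fun j _ => Finset.mul_sum _ _ _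
    rw [Finset.sum_congr rfl e2]
    apply Finset.sum_comm'
    intro m j
    rw [Finset.mem_Icc, Finset.mem_Ico, Finset.mem_Ioc, Finset.mem_Ico]
    omega
  rw [h1]
  have hinc : ∀ j ∈ Finset.Ico 1 N, 0 ≤ Real.log ((j : ℝ) + 1) - Real.log j := by
    intro j hj
    rw [Finset.mem_Ico] at hj
    have hj0 : (0 : ℝ) < j := by exact_mod_cast hj.1
    have := Real.log_le_log hj0 (by linarith : (j : ℝ) ≤ (j : ℝ) + 1)
    linarith
  refine (norm_sum_le _ _).trans ?_
  have h2 : ∀ j ∈ Finset.Ico 1 N, ‖(((Real.log ((j : ℝ) + 1) - Real.log j : ℝ)) : ℂ)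
        * ∑ m ∈ Finset.Ioc j N, ee (m * x)‖
      ≤ (Real.log ((j : ℝ) + 1) - Real.log j) * GG N x := by
    intro j hj
    rw [norm_mul, Complex.norm_real, Real.norm_of_nonneg (hinc j hj)]
    apply mul_le_mul_of_nonneg_left _ (hinc j hj)
    rw [Finset.mem_Ico] at hj
    have hjN : (j : ℝ) ≤ N := by exact_mod_cast hj.2.le
    refine (geo_sum x j N hj.2.le).trans ?_
    apply GG_mono _ (by linarith)
    have : (0 : ℝ) ≤ j := Nat.cast_nonneg j
    linarith
  refine (Finset.sum_le_sum h2).trans ?_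
  rw [← Finset.sum_mul]
  rcases Nat.eq_zero_or_pos N with h | h
  · subst h
    simp
  · rw [htel N h]

/-- PROOF. As `type_one`; for the inner sum, `log m = ∑_{1 ≤ j < m} (log (j+1) - log j)`, so
`∑_{m ≤ N} log m ee (m x) = ∑_{1 ≤ j < N} (log (j+1) - log j) ∑_{j < m ≤ N} ee (m x)`, of norm
`≤ (log N) GG N x` (`geo_sum`, `GG_mono`). -/
lemma type_one_log (A : ArithmeticFunction ℝ) (D y : ℕ) (c : ℝ) (hc : 0 ≤ c) (hA : ∀ d, |A d| ≤ c)
    (hA0 : ∀ d, D < d → A d = 0) (α : ℝ) :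
    ‖∑ n ∈ Icc 1 y, (((A * ArithmeticFunction.log) n : ℝ) : ℂ) * ee (n * α)‖
      ≤ c * Real.log y * ∑ d ∈ Icc 1 D, GG ((y : ℝ) / d) (d * α) := by
  have hly : 0 ≤ Real.log y := Real.log_natCast_nonneg y
  refine V5_outer A ArithmeticFunction.log D y c (Real.log y) hc hly hA hA0 α ?_
  intro d hd
  rw [Finset.mem_Icc] at hd
  have h1 : ∑ m ∈ Icc 1 (y / d), ((ArithmeticFunction.log m : ℝ) : ℂ) * ee (m * (d * α))
      = ∑ m ∈ Icc 1 (y / d), ((Real.log m : ℝ) : ℂ) * ee (m * (d * α)) := by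
    refine Finset.sum_congr rfl (fun m _ => ?_)
    rw [ArithmeticFunction.log_apply]
  rw [h1]
  refine (V5_log (y / d) (d * α)).trans ?_
  have h0 : 0 < y / d := Nat.div_pos hd.2 hd.1
  apply mul_le_mul
  · apply Real.log_le_log (by exact_mod_cast h0)
    exact_mod_cast Nat.div_le_self y d
  · exact GG_mono _ (by positivity) Nat.cast_div_le
  · exact GG_nonneg _ (by positivity)
  · exact hly

end Pool.Agent.PP
end

section

/-!
# V2c: the standard sum `∑ min (Z/k, 1/‖k α‖)` and sums over differences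
-/

set_option autoImplicit false

namespace Pool.Agent.PP

open Finset MeasureTheory Real
open Pool.Agent.MC (ee expSum frac frac' arcSum fareySet)
open Pool.Agent.Lib.MP_bae66e_nt.AP3 (Rough rset dset prI KT flEta FLP cset Om0 xb prm)

lemma V2c_blocks (g : ℕ → ℝ) (q H : ℕ) :
    ∑ k ∈ range (H * q), g k = ∑ h ∈ range H, ∑ r ∈ range q, g (h * q + r) := by
  induction H with
  | zero => simp
  | succ H ih =>
    rw [Finset.sum_range_succ, ← ih, add_mul, one_mul, Finset.sum_range_add]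

/-- PROOF. `GG M ((k - k') α) = GG M ((k' - k) α)` (`GG_neg`); cover `Icc 1 J` by `J/q + 1` blocks of `q` consecutive
integers and use `block_sum` on each (all terms are nonnegative). -/
lemma diff_sum (q : ℕ) (hq : 1 ≤ q) (a : ℤ) (ha : IsCoprime a (q : ℤ)) (α : ℝ)
    (hα : |α - a / q| ≤ 1 / (q : ℝ) ^ 2) (J k : ℕ) (M : ℝ) (hM : 0 ≤ M) :
    ∑ k' ∈ Icc 1 J, GG M (((k : ℝ) - k') * α)
      ≤ 8 * ((J : ℝ) / q + 1) * (M + q * (1 + Real.log q)) := by
  have hq0 : (0 : ℝ) < q := by exact_mod_cast hq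
  have hlog : 0 ≤ Real.log q := Real.log_natCast_nonneg q
  set g : ℕ → ℝ := fun i => GG M ((((1 : ℤ) - k : ℤ) + (i : ℝ)) * α) with hg
  have hg0 : ∀ i, 0 ≤ g i := fun i => GG_nonneg _ hM
  have h1 : ∑ k' ∈ Icc 1 J, GG M (((k : ℝ) - k') * α) = ∑ i ∈ range J, g i := by
    rw [Finset.range_eq_Ico, Finset.sum_Ico_eq_sum_range]
    have : Icc 1 J = Finset.Ico 1 (J + 1) := by
      ext x; rw [Finset.mem_Icc, Finset.mem_Ico]; omega
    rw [this, Finset.sum_Ico_eq_sum_range]
    have h2 : J + 1 - 1 = J - 0 := by omega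
    rw [h2]
    refine Finset.sum_congr rfl (fun i _ => ?_)
    simp only [hg]
    rw [← GG_neg]
    congr 1
    push_cast
    ring
  have h2 : ∑ i ∈ range J, g i ≤ ∑ i ∈ range ((J / q + 1) * q), g i := by
    apply Finset.sum_le_sum_of_subset_of_nonneg
    · intro x hx
      rw [Finset.mem_range] at hx ⊢
      have : J < (J / q + 1) * q := by
        have := Nat.lt_div_mul_add (a := J) (b := q) hq
        rw [add_mul, one_mul]
        exact this
      omega
    · intro i _ _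
      exact hg0 i
  have h3 : ∀ h ∈ range (J / q + 1), ∑ r ∈ range q, g (h * q + r)
      ≤ 8 * (M + q * (1 + Real.log q)) := by
    intro h _
    have := block_sum q hq a ha α hα ((1 : ℤ) - k + h * q) M hM
    refine le_trans (le_of_eq ?_) this
    refine Finset.sum_congr rfl (fun r _ => ?_)
    simp only [hg]
    congr 1
    push_cast
    ring
  rw [h1]
  refine h2.trans ?_
  rw [V2c_blocks]
  refine (Finset.sum_le_sum h3).trans ?_
  rw [Finset.sum_const, Finset.card_range, nsmul_eq_mul]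
  have h4 : ((J / q + 1 : ℕ) : ℝ) ≤ (J : ℝ) / q + 1 := by
    push_cast
    have := @Nat.cast_div_le ℝ _ _ _ J q
    linarith
  have h5 : 0 ≤ 8 * (M + q * (1 + Real.log q)) := by positivity
  calc ((J / q + 1 : ℕ) : ℝ) * (8 * (M + q * (1 + Real.log q)))
      ≤ ((J : ℝ) / q + 1) * (8 * (M + q * (1 + Real.log q))) :=
        mul_le_mul_of_nonneg_right h4 h5
    _ = _ := by ring

end Pool.Agent.PP
end
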