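import Pool.Agent.Lib.MP_bae66e_nt.Mg.G093
import Pool.Agent.Lib.MP_bae66e_nt.Mg.G094

section

/-!
# V6b: sums of type II, one dyadic block
-/

set_option autoImplicit false

namespace Pool.Agent.PP

open Finset MeasureTheory Real
open Pool.Agent.MC (ee expSum frac frac' arcSum fareySet)
open Pool.Agent.Lib.MP_bae66e_nt.AP3 (Rough rset dset prI KT flEta FLP cset Om0 xb prm)

private lemma V6b_inner (y M k k' : ℕ) (hk : 1 ≤ k) (hk' : 1 ≤ k') (x : ℝ) :
    ‖∑ m ∈ (Ioc M (2 * M)).filter (fun m => m * k ≤ y ∧ m * k' ≤ y), ee (m * x)‖ ≤ GG M x := by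
  have e : (Ioc M (2 * M)).filter (fun m => m * k ≤ y ∧ m * k' ≤ y)
      = Ioc M (min (2 * M) (min (y / k) (y / k'))) := by
    ext m
    simp only [Finset.mem_filter, Finset.mem_Ioc, le_min_iff, Nat.le_div_iff_mul_le hk,
      Nat.le_div_iff_mul_le hk']
    tauto
  rw [e]
  set M' := min (2 * M) (min (y / k) (y / k')) with hM'
  rcases le_or_gt M M' with h | h
  · refine (geo_sum x M M' h).trans ?_
    apply GG_mono
    · have : (M : ℝ) ≤ M' := by exact_mod_cast h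
      linarith
    · have h1 : M' ≤ 2 * M := min_le_left _ _
      have : (M' : ℝ) ≤ 2 * M := by exact_mod_cast h1
      linarith
  · rw [Finset.Ioc_eq_empty (by omega)]
    simp only [Finset.sum_empty, norm_zero]
    exact GG_nonneg x (Nat.cast_nonneg M)

private lemma V6b_square (y M : ℕ) (hM : 1 ≤ M) (c : ℕ → ℝ) (α : ℝ) :
    ∑ m ∈ Ioc M (2 * M), ‖∑ k ∈ Icc 1 (y / m), ((c k : ℝ) : ℂ) * ee (m * k * α)‖ ^ 2
      ≤ ∑ k ∈ Icc 1 (y / M), c k ^ 2 * ∑ k' ∈ Icc 1 (y / M), GG M (((k : ℝ) - k') * α) := by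
  set K := y / M with hK
  -- write `S m` over a fixed range
  have hS : ∀ m ∈ Ioc M (2 * M), ∑ k ∈ Icc 1 (y / m), ((c k : ℝ) : ℂ) * ee (m * k * α)
      = ∑ k ∈ Icc 1 K, (if m * k ≤ y then ((c k : ℝ) : ℂ) * ee (m * k * α) else 0) := by
    intro m hm
    rw [Finset.mem_Ioc] at hm
    rw [← Finset.sum_filter]
    apply Finset.sum_congr _ fun _ _ => rfl
    ext k
    simp only [Finset.mem_filter, Finset.mem_Icc, Nat.le_div_iff_mul_le (by omega : 0 < m), hK,
      Nat.le_div_iff_mul_le hM]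
    constructor
    · rintro ⟨h1, h2⟩
      refine ⟨⟨h1, ?_⟩, by rwa [mul_comm]⟩
      calc k * M ≤ k * m := Nat.mul_le_mul_left k hm.1.le
        _ ≤ y := h2
    · rintro ⟨⟨h1, -⟩, h3⟩
      exact ⟨h1, by rwa [mul_comm]⟩
  have hsq : ∀ m ∈ Ioc M (2 * M),
      ((‖∑ k ∈ Icc 1 (y / m), ((c k : ℝ) : ℂ) * ee (m * k * α)‖ ^ 2 : ℝ) : ℂ)
      = ∑ k ∈ Icc 1 K, ∑ k' ∈ Icc 1 K, (((c k * c k' : ℝ)) : ℂ) *
        (if m * k ≤ y ∧ m * k' ≤ y then ee (m * (((k : ℝ) - k') * α)) else 0) := by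
    intro m hm
    rw [hS m hm, MC.norm_sq_sum_eq]
    apply Finset.sum_congr rfl
    intro k _
    apply Finset.sum_congr rfl
    intro k' _
    by_cases h1 : m * k ≤ y
    · by_cases h2 : m * k' ≤ y
      · rw [if_pos h1, if_pos h2, if_pos ⟨h1, h2⟩, map_mul, Complex.conj_ofReal, MC.conj_ee]
        have e : ee (m * (((k : ℝ) - k') * α)) = ee (m * k * α) * ee (-(m * k' * α)) := by
          rw [← MC.ee_add]; congr 1; ring
        rw [e]
        push_cast
        ring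
      · rw [if_neg h2, if_neg (fun h : m * k ≤ y ∧ m * k' ≤ y => h2 h.2)]
        simp
    · rw [if_neg h1, if_neg (fun h : m * k ≤ y ∧ m * k' ≤ y => h1 h.1)]
      simp
  have hT : ((∑ m ∈ Ioc M (2 * M),
      ‖∑ k ∈ Icc 1 (y / m), ((c k : ℝ) : ℂ) * ee (m * k * α)‖ ^ 2 : ℝ) : ℂ)
      = ∑ k ∈ Icc 1 K, ∑ k' ∈ Icc 1 K, (((c k * c k' : ℝ)) : ℂ) *
        ∑ m ∈ (Ioc M (2 * M)).filter (fun m => m * k ≤ y ∧ m * k' ≤ y),
          ee (m * (((k : ℝ) - k') * α)) := by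
    rw [Complex.ofReal_sum, Finset.sum_congr rfl hsq, Finset.sum_comm]
    apply Finset.sum_congr rfl
    intro k _
    rw [Finset.sum_comm]
    apply Finset.sum_congr rfl
    intro k' _
    rw [← Finset.mul_sum, Finset.sum_filter]
  have hnn : 0 ≤ ∑ m ∈ Ioc M (2 * M),
      ‖∑ k ∈ Icc 1 (y / m), ((c k : ℝ) : ℂ) * ee (m * k * α)‖ ^ 2 :=
    Finset.sum_nonneg fun m _ => by positivity
  have hb : ∑ m ∈ Ioc M (2 * M),
      ‖∑ k ∈ Icc 1 (y / m), ((c k : ℝ) : ℂ) * ee (m * k * α)‖ ^ 2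
      ≤ ∑ k ∈ Icc 1 K, ∑ k' ∈ Icc 1 K, ((c k ^ 2 + c k' ^ 2) / 2) *
        GG M (((k : ℝ) - k') * α) := by
    calc ∑ m ∈ Ioc M (2 * M),
          ‖∑ k ∈ Icc 1 (y / m), ((c k : ℝ) : ℂ) * ee (m * k * α)‖ ^ 2
        = ‖((∑ m ∈ Ioc M (2 * M),
          ‖∑ k ∈ Icc 1 (y / m), ((c k : ℝ) : ℂ) * ee (m * k * α)‖ ^ 2 : ℝ) : ℂ)‖ := by
          rw [Complex.norm_real, Real.norm_of_nonneg hnn]
      _ ≤ _ := by
          rw [hT]
          refine (norm_sum_le _ _).trans (Finset.sum_le_sum fun k hk => ?_)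
          refine (norm_sum_le _ _).trans (Finset.sum_le_sum fun k' hk' => ?_)
          rw [Finset.mem_Icc] at hk hk'
          rw [norm_mul, Complex.norm_real, Real.norm_eq_abs]
          apply mul_le_mul _ (V6b_inner y M k k' hk.1 hk'.1 _) (norm_nonneg _) (by positivity)
          rw [abs_le]
          constructor <;> nlinarith [sq_nonneg (c k - c k'), sq_nonneg (c k + c k')]
  refine hb.trans (le_of_eq ?_)
  have e1 : ∑ k ∈ Icc 1 K, ∑ k' ∈ Icc 1 K, ((c k ^ 2 + c k' ^ 2) / 2) * GG M (((k : ℝ) - k') * α)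
      = ∑ k ∈ Icc 1 K, ∑ k' ∈ Icc 1 K, c k ^ 2 / 2 * GG M (((k : ℝ) - k') * α)
        + ∑ k ∈ Icc 1 K, ∑ k' ∈ Icc 1 K, c k' ^ 2 / 2 * GG M (((k : ℝ) - k') * α) := by
    rw [← Finset.sum_add_distrib]
    apply Finset.sum_congr rfl
    intro k _
    rw [← Finset.sum_add_distrib]
    apply Finset.sum_congr rfl
    intro k' _
    ring
  have e2 : ∑ k ∈ Icc 1 K, ∑ k' ∈ Icc 1 K, c k' ^ 2 / 2 * GG M (((k : ℝ) - k') * α)
      = ∑ k ∈ Icc 1 K, ∑ k' ∈ Icc 1 K, c k ^ 2 / 2 * GG M (((k : ℝ) - k') * α) := by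
    rw [Finset.sum_comm]
    apply Finset.sum_congr rfl
    intro k _
    apply Finset.sum_congr rfl
    intro k' _
    rw [← GG_neg M (((k' : ℝ) - k) * α)]
    congr 2
    ring
  rw [e1, e2, ← two_mul, Finset.mul_sum]
  apply Finset.sum_congr rfl
  intro k _
  rw [Finset.mul_sum, Finset.mul_sum]
  apply Finset.sum_congr rfl
  intro k' _
  ring

/-- PROOF. `Finset.inner_mul_le_norm_mul_norm`/Cauchy: `‖∑_m b_m S_m‖² ≤ (∑ b_m²) ∑_m ‖S_m‖²`,
`S_m = ∑_{k ≤ y/m} c_k ee (m k α)`. Expanding (`MC.norm_sq_sum_eq`) and exchanging,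
`∑_m ‖S_m‖² = ∑_{k, k' ≤ y/M} c_k c_k' ∑_{m ∈ (M, 2M], m k ≤ y, m k' ≤ y} ee (m (k - k') α)` (for `m > M`, `k ≤ y/m`
implies `k ≤ y/M`). The set of `m` is an interval `Ioc M M'` with `M' ≤ 2 M`, so the inner sum has norm
`≤ GG M ((k - k') α)` (`geo_sum`, `GG_mono`). With `|c_k c_k'| ≤ (c_k² + c_k'²)/2` and the symmetry `GG_neg`:
`∑_m ‖S_m‖² ≤ ∑_k c_k² ∑_{k'} GG M ((k - k') α)`, and `diff_sum`. -/
lemma type_two_block (q : ℕ) (hq : 1 ≤ q) (a : ℤ) (ha : IsCoprime a (q : ℤ)) (α : ℝ)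
    (hα : |α - a / q| ≤ 1 / (q : ℝ) ^ 2) (y M : ℕ) (hM : 1 ≤ M) (b c : ℕ → ℝ) :
    ‖∑ m ∈ Ioc M (2 * M), ((b m : ℝ) : ℂ) * ∑ k ∈ Icc 1 (y / m), ((c k : ℝ) : ℂ) * ee (m * k * α)‖ ^ 2
      ≤ (∑ m ∈ Ioc M (2 * M), b m ^ 2) * ((∑ k ∈ Icc 1 (y / M), c k ^ 2)
        * (8 * (((y / M : ℕ) : ℝ) / q + 1) * (M + q * (1 + Real.log q)))) := by
  have h1 : ‖∑ m ∈ Ioc M (2 * M), ((b m : ℝ) : ℂ) *
      ∑ k ∈ Icc 1 (y / m), ((c k : ℝ) : ℂ) * ee (m * k * α)‖
      ≤ ∑ m ∈ Ioc M (2 * M), |b m| * ‖∑ k ∈ Icc 1 (y / m), ((c k : ℝ) : ℂ) * ee (m * k * α)‖ := by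
    refine (norm_sum_le _ _).trans (Finset.sum_le_sum fun m _ => ?_)
    rw [norm_mul, Complex.norm_real, Real.norm_eq_abs]
  have h2 := Finset.sum_mul_sq_le_sq_mul_sq (Ioc M (2 * M)) (fun m => |b m|)
    (fun m => ‖∑ k ∈ Icc 1 (y / m), ((c k : ℝ) : ℂ) * ee (m * k * α)‖)
  simp only [sq_abs] at h2
  have h3 := V6b_square y M hM c α
  have h4 : ∑ k ∈ Icc 1 (y / M), c k ^ 2 * ∑ k' ∈ Icc 1 (y / M), GG M (((k : ℝ) - k') * α)
      ≤ (∑ k ∈ Icc 1 (y / M), c k ^ 2)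
        * (8 * (((y / M : ℕ) : ℝ) / q + 1) * (M + q * (1 + Real.log q))) := by
    rw [Finset.sum_mul]
    apply Finset.sum_le_sum
    intro k _
    exact mul_le_mul_of_nonneg_left
      (diff_sum q hq a ha α hα (y / M) k M (Nat.cast_nonneg M)) (sq_nonneg _)
  calc ‖∑ m ∈ Ioc M (2 * M), ((b m : ℝ) : ℂ) *
      ∑ k ∈ Icc 1 (y / m), ((c k : ℝ) : ℂ) * ee (m * k * α)‖ ^ 2
      ≤ (∑ m ∈ Ioc M (2 * M), |b m| *
        ‖∑ k ∈ Icc 1 (y / m), ((c k : ℝ) : ℂ) * ee (m * k * α)‖) ^ 2 :=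
        pow_le_pow_left₀ (norm_nonneg _) h1 2
    _ ≤ _ := h2
    _ ≤ _ := mul_le_mul_of_nonneg_left (h3.trans h4)
        (Finset.sum_nonneg fun m _ => sq_nonneg _)

end Pool.Agent.PP
end

section

/-!
# V6c: sums of type II
-/

set_option autoImplicit false

namespace Pool.Agent.PP

open Finset MeasureTheory Real
open Pool.Agent.MC (ee expSum frac frac' arcSum fareySet)
open Pool.Agent.Lib.MP_bae66e_nt.AP3 (Rough rset dset prI KT flEta FLP cset Om0 xb prm)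

open ArithmeticFunction

/-- `(hi muR V * zR)(k)` vanishes for `k ≤ V` (all divisors of `k` are `≤ V`) and is at most `d(k)` in absolute value. -/
lemma hi_zeta (V k : ℕ) : (k ≤ V → (hi muR V * zR) k = 0) ∧
    |(hi muR V * zR) k| ≤ ((#k.divisors : ℕ) : ℝ) := by
  constructor
  · intro h
    rw [ArithmeticFunction.mul_apply]
    apply Finset.sum_eq_zero
    rintro ⟨d, e⟩ hde
    rw [Nat.mem_divisorsAntidiagonal] at hde
    simp only at hde ⊢
    have hd : d ≤ k := Nat.le_of_dvd (by omega) (Dvd.intro e hde.1)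
    rw [hi_apply, if_neg (by omega), zero_mul]
  · rw [ArithmeticFunction.mul_apply]
    refine (Finset.abs_sum_le_sum_abs _ _).trans ?_
    have h1 : ∀ x ∈ k.divisorsAntidiagonal, |hi muR V x.1 * zR x.2| ≤ 1 := by
      intro x _
      rw [abs_mul, hi_apply]
      have h4 : |if V < x.1 then muR x.1 else 0| ≤ 1 := by
        split_ifs
        · rw [muR_apply]
          have := ArithmeticFunction.abs_moebius_le_one (n := x.1)
          exact_mod_cast this
        · rw [abs_zero]; norm_num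
      have h5 : |zR x.2| ≤ 1 := by
        unfold zR
        rw [natCoe_apply, zeta_apply]
        split_ifs <;> simp
      calc |if V < x.1 then muR x.1 else 0| * |zR x.2| ≤ 1 * 1 :=
            mul_le_mul h4 h5 (abs_nonneg _) (by norm_num)
        _ = 1 := by norm_num
    refine (Finset.sum_le_sum h1).trans ?_
    rw [Nat.sum_divisorsAntidiagonal (fun _ _ => (1 : ℝ))]
    simp

private lemma V6c_arith (y q M K : ℝ) (L Lq : ℝ) (hq : 1 ≤ q) (hM : 1 ≤ M) (hK : 0 ≤ K)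
    (hKM : K * M ≤ y) (hL : 1 ≤ L) (hLq : Lq ≤ L) (hLq0 : 0 ≤ Lq) (X : ℝ) (hX : 0 ≤ X)
    (h : X ^ 2 ≤ (M * L ^ 2) * ((K * L ^ 3) * (8 * (K / q + 1) * (M + q * Lq)))) :
    X ≤ 3 * L ^ 3 * (y / Real.sqrt q + y / Real.sqrt M + Real.sqrt (y * M) + Real.sqrt (y * q)) := by
  have hy : 0 ≤ y := le_trans (by positivity) hKM
  have hq0 : 0 < q := by linarith
  have hM0 : 0 < M := by linarith
  set A := y / Real.sqrt q with hA
  set B := y / Real.sqrt M with hB
  set C := Real.sqrt (y * M) with hC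
  set D := Real.sqrt (y * q) with hD
  have hA2 : A ^ 2 = y ^ 2 / q := by rw [hA, div_pow, Real.sq_sqrt hq0.le]
  have hB2 : B ^ 2 = y ^ 2 / M := by rw [hB, div_pow, Real.sq_sqrt hM0.le]
  have hC2 : C ^ 2 = y * M := Real.sq_sqrt (by positivity)
  have hD2 : D ^ 2 = y * q := Real.sq_sqrt (by positivity)
  have hA0 : 0 ≤ A := by positivity
  have hB0 : 0 ≤ B := by positivity
  have hC0 : 0 ≤ C := Real.sqrt_nonneg _
  have hD0 : 0 ≤ D := Real.sqrt_nonneg _
  have hKy : K ≤ y / M := by rw [le_div_iff₀ hM0]; exact hKM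
  have h1 : (K / q + 1) * (M + q * Lq) ≤ (y / q + y / M + M + q) * L := by
    have e : (K / q + 1) * (M + q * Lq) = K * M / q + K * Lq + M + q * Lq := by
      field_simp
      ring
    rw [e]
    have h2 : K * M / q ≤ y / q := div_le_div_of_nonneg_right hKM hq0.le
    have h3 : K * Lq ≤ y / M * L := mul_le_mul hKy hLq hLq0 (by positivity)
    have h4 : q * Lq ≤ q * L := mul_le_mul_of_nonneg_left hLq hq0.le
    have h5 : y / q ≤ y / q * L := le_mul_of_one_le_right (by positivity) hL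
    have h6 : M ≤ M * L := le_mul_of_one_le_right hM0.le hL
    linarith
  have h2 : (M * L ^ 2) * ((K * L ^ 3) * (8 * (K / q + 1) * (M + q * Lq)))
      ≤ 8 * L ^ 6 * (y ^ 2 / q + y ^ 2 / M + y * M + y * q) := by
    calc (M * L ^ 2) * ((K * L ^ 3) * (8 * (K / q + 1) * (M + q * Lq)))
        = 8 * L ^ 5 * (K * M) * ((K / q + 1) * (M + q * Lq)) := by ring
      _ ≤ 8 * L ^ 5 * y * ((y / q + y / M + M + q) * L) := by
          apply mul_le_mul _ h1 (by positivity) (by positivity)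
          exact mul_le_mul_of_nonneg_left hKM (by positivity)
      _ = 8 * L ^ 6 * (y ^ 2 / q + y ^ 2 / M + y * M + y * q) := by ring
  have h3 : X ^ 2 ≤ (3 * L ^ 3 * (A + B + C + D)) ^ 2 := by
    refine h.trans (h2.trans ?_)
    rw [← hA2, ← hB2, ← hC2, ← hD2]
    have h4 : A ^ 2 + B ^ 2 + C ^ 2 + D ^ 2 ≤ (A + B + C + D) ^ 2 := by
      have e : (A + B + C + D) ^ 2 = A ^ 2 + B ^ 2 + C ^ 2 + D ^ 2
          + 2 * (A * B + A * C + A * D + B * C + B * D + C * D) := by ring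
      rw [e]
      have : 0 ≤ A * B + A * C + A * D + B * C + B * D + C * D := by positivity
      linarith
    have h5 : 0 ≤ L ^ 6 := by positivity
    calc 8 * L ^ 6 * (A ^ 2 + B ^ 2 + C ^ 2 + D ^ 2)
        ≤ 9 * L ^ 6 * (A + B + C + D) ^ 2 := by
          apply mul_le_mul _ h4 (by positivity) (by positivity)
          linarith
      _ = _ := by ring
  exact (pow_le_pow_iff_left₀ hX (by positivity) (by norm_num)).mp h3

/-- One block. PROOF. `type_two_block` with `b = hi vonMangoldt U` (`|b m| ≤ log m ≤ 2 L`, `L = 1 + log y`, for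
`m ≤ 2 M ≤ 2 y`), `c = hi muR V * zR` (`c² ≤ d²`, `dsq_sum`; if `y / M = 0` the sum is `0`): the square is
`≤ M (2 L)² · (y/M) L³ · 8 (y/(M q) + 1)(M + q L) ≤ 32 L⁵ y (y/q + (y/M) L + M + q L)`; take square roots
(`Real.sqrt_add_le` style), using `√(y · y/M · L) ≤ L y/√M` and so on. -/
lemma type_two_piece : ∃ C : ℝ, 0 < C ∧ ∀ (y q : ℕ) (a : ℤ) (α : ℝ), 1 ≤ q → q ≤ y →
    IsCoprime a (q : ℤ) → |α - a / q| ≤ 1 / (q : ℝ) ^ 2 → ∀ U V M : ℕ, 1 ≤ M → M ≤ y →
    ‖∑ m ∈ Ioc M (2 * M), ((hi vonMangoldt U m : ℝ) : ℂ) *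
        ∑ k ∈ Icc 1 (y / m), (((hi muR V * zR) k : ℝ) : ℂ) * ee (m * k * α)‖
      ≤ C * (1 + Real.log y) ^ 3 * (y / Real.sqrt q + y / Real.sqrt M + Real.sqrt (y * M)
        + Real.sqrt (y * q)) := by
  refine ⟨3, by norm_num, ?_⟩
  intro y q a α hq hqy ha hα U V M hM hMy
  have hq1 : (1 : ℝ) ≤ q := by exact_mod_cast hq
  have hM1 : (1 : ℝ) ≤ M := by exact_mod_cast hM
  have hy1 : (1 : ℝ) ≤ y := by exact_mod_cast hM.trans hMy
  have hly : 0 ≤ Real.log y := Real.log_nonneg hy1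
  have hK1 : 1 ≤ y / M := Nat.div_pos hMy hM
  have h := type_two_block q hq a ha α hα y M hM (fun m => hi vonMangoldt U m)
    (fun k => (hi muR V * zR) k)
  have hb : ∑ m ∈ Ioc M (2 * M), (hi vonMangoldt U m) ^ 2 ≤ M * (1 + Real.log y) ^ 2 := by
    calc ∑ m ∈ Ioc M (2 * M), (hi vonMangoldt U m) ^ 2
        ≤ ∑ _m ∈ Ioc M (2 * M), (1 + Real.log y) ^ 2 := by
          apply Finset.sum_le_sum
          intro m hm
          rw [Finset.mem_Ioc] at hm
          have hm0 : (0 : ℝ) < m := by exact_mod_cast (by omega : 0 < m)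
          have h1 : 0 ≤ hi vonMangoldt U m := by
            rw [hi_apply]
            split_ifs
            · exact vonMangoldt_nonneg
            · exact le_rfl
          have h2 : hi vonMangoldt U m ≤ 1 + Real.log y := by
            rw [hi_apply]
            split_ifs
            · refine vonMangoldt_le_log.trans ?_
              have h3 : (m : ℝ) ≤ 2 * y := by
                exact_mod_cast (by omega : m ≤ 2 * y)
              have h4 := Real.log_le_log hm0 h3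
              rw [Real.log_mul (by norm_num) (by linarith)] at h4
              have := Real.log_two_lt_d9
              linarith
            · linarith
          exact pow_le_pow_left₀ h1 h2 2
      _ = M * (1 + Real.log y) ^ 2 := by
          rw [Finset.sum_const, Nat.card_Ioc, nsmul_eq_mul]
          congr 2
          omega
  have hc : ∑ k ∈ Icc 1 (y / M), ((hi muR V * zR) k) ^ 2
      ≤ ((y / M : ℕ) : ℝ) * (1 + Real.log y) ^ 3 := by
    calc ∑ k ∈ Icc 1 (y / M), ((hi muR V * zR) k) ^ 2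
        ≤ ∑ k ∈ Icc 1 (y / M), ((#k.divisors : ℕ) : ℝ) ^ 2 := by
          apply Finset.sum_le_sum
          intro k _
          have h1 := (hi_zeta V k).2
          rw [← sq_abs]
          exact pow_le_pow_left₀ (abs_nonneg _) h1 2
      _ ≤ ((y / M : ℕ) : ℝ) * (1 + Real.log ((y / M : ℕ) : ℝ)) ^ 3 := dsq_sum (y / M) hK1
      _ ≤ _ := by
          apply mul_le_mul_of_nonneg_left _ (Nat.cast_nonneg _)
          have h1 : (1 : ℝ) ≤ ((y / M : ℕ) : ℝ) := by exact_mod_cast hK1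
          have h2 : 0 ≤ Real.log ((y / M : ℕ) : ℝ) := Real.log_nonneg h1
          have h3 : Real.log ((y / M : ℕ) : ℝ) ≤ Real.log y := by
            apply Real.log_le_log (by linarith)
            exact_mod_cast Nat.div_le_self y M
          apply pow_le_pow_left₀ (by linarith)
          linarith
  have hlq : Real.log q ≤ Real.log y := Real.log_le_log (by linarith) (by exact_mod_cast hqy)
  have hlq0 : 0 ≤ Real.log q := Real.log_nonneg hq1
  apply V6c_arith y q M ((y / M : ℕ) : ℝ) (1 + Real.log y) (1 + Real.log q) hq1 hM1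
    (Nat.cast_nonneg _) (by exact_mod_cast Nat.div_mul_le_self y M) (by linarith) (by linarith)
    (by linarith) _ (norm_nonneg _)
  refine h.trans ?_
  apply mul_le_mul hb _ _ (by positivity)
  · apply mul_le_mul_of_nonneg_right hc (by positivity)
  · have : 0 ≤ ∑ k ∈ Icc 1 (y / M), ((hi muR V * zR) k) ^ 2 :=
      Finset.sum_nonneg fun k _ => sq_nonneg _
    positivity

end Pool.Agent.PP
end
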