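import Pool.Agent.Lib.MP_bae66e_nt.Mg.G095
import Pool.Agent.Lib.MP_bae66e_nt.Mg.G093
import Pool.Agent.Lib.MP_bae66e_nt.Mg.G094

section

/-!
# V6d: sums of type II
-/

set_option autoImplicit false

namespace Pool.Agent.PP

open Finset MeasureTheory Real
open Pool.Agent.MC (ee expSum frac frac' arcSum fareySet)
open Pool.Agent.Lib.MP_bae66e_nt.AP3 (Rough rset dset prI KT flEta FLP cset Om0 xb prm)

open ArithmeticFunction

private lemma V6d_blocks (U J : ℕ) (f : ℕ → ℂ) :
    ∑ d ∈ Ioc U (2 ^ J * U), f d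
      = ∑ j ∈ range J, ∑ d ∈ Ioc (2 ^ j * U) (2 * (2 ^ j * U)), f d := by
  induction J with
  | zero => simp
  | succ J ih =>
    rw [Finset.sum_range_succ, ← ih]
    have e : 2 * (2 ^ J * U) = 2 ^ (J + 1) * U := by ring
    rw [e]
    apply (Finset.sum_Ioc_consecutive _ _ _).symm
    · exact Nat.le_mul_of_pos_left U (by positivity)
    · exact Nat.mul_le_mul_right U (Nat.pow_le_pow_right (by norm_num) (Nat.le_succ J))

/-- PROOF. `sum_conv`: the sum is `∑_{m ≤ y} hi Λ U m ∑_{k ≤ y/m} c_k ee (m k α)`; the term is zero unless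
`U < m` and `m ≤ y / V` (if `y / m < V`, `c_k = 0` for all `k ≤ y/m`). Cover `U < m ≤ y/V` by the blocks
`(2^j U, 2^{j+1} U]`, `0 ≤ j`, `2^j U ≤ y/V`: at most `2 + log y/log 2 ≤ 3 L` blocks, `type_two_piece` for each with
`M ≥ U`, `M ≤ y/V`. (If a block sticks out of `m ≤ y` nothing changes, the inner sum is empty.) -/
lemma type_two : ∃ C : ℝ, 0 < C ∧ ∀ (y q : ℕ) (a : ℤ) (α : ℝ), 1 ≤ q → q ≤ y →
    IsCoprime a (q : ℤ) → |α - a / q| ≤ 1 / (q : ℝ) ^ 2 → ∀ U V : ℕ, 1 ≤ U → 1 ≤ V →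
    ‖∑ n ∈ Icc 1 y, (((hi vonMangoldt U * (hi muR V * zR)) n : ℝ) : ℂ) * ee (n * α)‖
      ≤ C * (1 + Real.log y) ^ 4 * (y / Real.sqrt q + y / Real.sqrt U + y / Real.sqrt V
        + Real.sqrt (y * q)) := by
  obtain ⟨C, hC, hpiece⟩ := type_two_piece
  refine ⟨2 * C, by positivity, ?_⟩
  intro y q a α hq hqy ha hα U V hU hV
  have hy : 1 ≤ y := hq.trans hqy
  have hy1 : (1 : ℝ) ≤ y := by exact_mod_cast hy
  have hly : 0 ≤ Real.log y := Real.log_nonneg hy1
  set L := 1 + Real.log y with hL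
  have hL1 : 1 ≤ L := by linarith
  set f : ℕ → ℂ := fun m => ((hi vonMangoldt U m : ℝ) : ℂ) *
        ∑ k ∈ Icc 1 (y / m), (((hi muR V * zR) k : ℝ) : ℂ) * ee (m * k * α) with hf
  set J := Nat.log 2 y + 1 with hJ
  have hJy : y < 2 ^ J := Nat.lt_pow_succ_log_self (by norm_num) y
  have hsum : ∑ n ∈ Icc 1 y, (((hi vonMangoldt U * (hi muR V * zR)) n : ℝ) : ℂ) * ee (n * α)
      = ∑ d ∈ Ioc U (2 ^ J * U), f d := by
    rw [sum_conv (hi vonMangoldt U) (hi muR V * zR) (fun n => ee (n * α)) y]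
    have e1 : ∀ d ∈ Icc 1 y, ∑ m ∈ Icc 1 (y / d), ((hi vonMangoldt U d : ℝ) : ℂ) *
        (((hi muR V * zR) m : ℝ) : ℂ) * ee (((d * m : ℕ) : ℝ) * α) = f d := by
      intro d _
      simp only [hf]
      rw [Finset.mul_sum]
      apply Finset.sum_congr rfl
      intro m _
      push_cast
      ring
    rw [Finset.sum_congr rfl e1]
    have hzero1 : ∀ d, d ≤ U → f d = 0 := by
      intro d hd
      simp only [hf]
      rw [hi_apply, if_neg (by omega)]
      simp
    have hzero2 : ∀ d, y < d → f d = 0 := by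
      intro d hd
      simp only [hf]
      rw [Nat.div_eq_of_lt hd]
      simp
    have h1 : ∑ d ∈ Icc 1 y, f d = ∑ d ∈ (Icc 1 y).filter (fun d => U < d), f d := by
      rw [Finset.sum_filter]
      apply Finset.sum_congr rfl
      intro d _
      split_ifs with h
      · rfl
      · exact hzero1 d (by omega)
    have h2 : ∑ d ∈ Ioc U (2 ^ J * U), f d = ∑ d ∈ (Ioc U (2 ^ J * U)).filter (fun d => d ≤ y), f d := by
      rw [Finset.sum_filter]
      apply Finset.sum_congr rfl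
      intro d _
      split_ifs with h
      · rfl
      · exact hzero2 d (by omega)
    rw [h1, h2]
    apply Finset.sum_congr _ fun _ _ => rfl
    ext d
    simp only [Finset.mem_filter, Finset.mem_Icc, Finset.mem_Ioc]
    have h3 : 2 ^ J ≤ 2 ^ J * U := Nat.le_mul_of_pos_right _ hU
    constructor
    · rintro ⟨⟨h4, h5⟩, h6⟩
      exact ⟨⟨h6, by omega⟩, h5⟩
    · rintro ⟨⟨h4, h5⟩, h6⟩
      exact ⟨⟨by omega, h6⟩, h4⟩
  rw [hsum, V6d_blocks]
  set Q := (y : ℝ) / Real.sqrt q + y / Real.sqrt U + y / Real.sqrt V + Real.sqrt (y * q) with hQ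
  have hQ0 : 0 ≤ Q := by positivity
  have hblock : ∀ j ∈ range J, ‖∑ d ∈ Ioc (2 ^ j * U) (2 * (2 ^ j * U)), f d‖ ≤ C * L ^ 3 * Q := by
    intro j _
    set M := 2 ^ j * U with hM
    have hUM : U ≤ M := Nat.le_mul_of_pos_left U (by positivity)
    have hM1 : 1 ≤ M := hU.trans hUM
    rcases le_or_gt (M * V) y with h | h
    · have hMy : M ≤ y := (Nat.le_mul_of_pos_right M hV).trans h
      refine (hpiece y q a α hq hqy ha hα U V M hM1 hMy).trans ?_
      apply mul_le_mul_of_nonneg_left _ (by positivity)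
      have hU0 : (0 : ℝ) < U := by exact_mod_cast hU
      have hV0 : (0 : ℝ) < V := by exact_mod_cast hV
      have h1 : (y : ℝ) / Real.sqrt M ≤ y / Real.sqrt U := by
        apply div_le_div_of_nonneg_left (by linarith) (Real.sqrt_pos.mpr hU0)
        exact Real.sqrt_le_sqrt (by exact_mod_cast hUM)
      have h2 : Real.sqrt (y * M) ≤ y / Real.sqrt V := by
        rw [le_div_iff₀ (Real.sqrt_pos.mpr hV0), ← Real.sqrt_mul (by positivity)]
        apply Real.sqrt_le_iff.mpr
        refine ⟨by linarith, ?_⟩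
        have h3 : (M : ℝ) * V ≤ y := by exact_mod_cast h
        calc (y : ℝ) * M * V = y * (M * V) := by ring
          _ ≤ y * y := mul_le_mul_of_nonneg_left h3 (by linarith)
          _ = (y : ℝ) ^ 2 := by ring
      linarith
    · have h1 : ∑ d ∈ Ioc M (2 * M), f d = 0 := by
        apply Finset.sum_eq_zero
        intro d hd
        rw [Finset.mem_Ioc] at hd
        simp only [hf]
        have h2 : ∑ k ∈ Icc 1 (y / d), (((hi muR V * zR) k : ℝ) : ℂ) * ee (d * k * α) = 0 := by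
          apply Finset.sum_eq_zero
          intro k hk
          rw [Finset.mem_Icc] at hk
          have h3 : k ≤ V := by
            refine hk.2.trans ?_
            have h4 : y < V * d := by
              calc y < M * V := h
                _ ≤ V * d := by rw [mul_comm]; exact Nat.mul_le_mul_left V hd.1.le
            have := (Nat.div_lt_iff_lt_mul (by omega : 0 < d)).mpr h4
            omega
          rw [(hi_zeta V k).1 h3]
          simp
        rw [h2, mul_zero]
      rw [h1, norm_zero]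
      positivity
  have hJL : (J : ℝ) ≤ 2 * L := by
    have h1 : 2 ^ (Nat.log 2 y) ≤ y := Nat.pow_log_le_self 2 (by omega)
    have h2 : ((Nat.log 2 y : ℕ) : ℝ) * Real.log 2 ≤ Real.log y := by
      rw [← Real.log_pow]
      apply Real.log_le_log (by positivity)
      exact_mod_cast h1
    have h3 := Real.log_two_gt_d9
    have h4 : (0 : ℝ) ≤ ((Nat.log 2 y : ℕ) : ℝ) := Nat.cast_nonneg _
    rw [hJ]
    push_cast
    nlinarith
  calc ‖∑ j ∈ range J, ∑ d ∈ Ioc (2 ^ j * U) (2 * (2 ^ j * U)), f d‖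
      ≤ ∑ j ∈ range J, ‖∑ d ∈ Ioc (2 ^ j * U) (2 * (2 ^ j * U)), f d‖ := norm_sum_le _ _
    _ ≤ ∑ _j ∈ range J, C * L ^ 3 * Q := Finset.sum_le_sum hblock
    _ = J * (C * L ^ 3 * Q) := by rw [Finset.sum_const, Finset.card_range, nsmul_eq_mul]
    _ ≤ (2 * L) * (C * L ^ 3 * Q) := mul_le_mul_of_nonneg_right hJL (by positivity)
    _ = 2 * C * L ^ 4 * Q := by ring

end Pool.Agent.PP
end

section

/-!
# V7b: Vaughan's bound for the exponential sum over primes
-/

set_option autoImplicit false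

namespace Pool.Agent.PP

open Finset MeasureTheory Real
open Pool.Agent.MC (ee expSum frac frac' arcSum fareySet)
open Pool.Agent.Lib.MP_bae66e_nt.AP3 (Rough rset dset prI KT flEta FLP cset Om0 xb prm)

open ArithmeticFunction

private lemma V7b_min (y q K : ℕ) (hq : 1 ≤ q) (hqy : q ≤ y) (hK : (K : ℝ) ≤ (y : ℝ) ^ (4 / 5 : ℝ))
    (hKy : K ≤ y) :
    40 * ((y : ℝ) / q + K + q) * (1 + Real.log q + Real.log (K + 1))
      ≤ 120 * (1 + Real.log y) * (y / Real.sqrt q + (y : ℝ) ^ (4 / 5 : ℝ) + Real.sqrt (y * q)) := by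
  have hq1 : (1 : ℝ) ≤ q := by exact_mod_cast hq
  have hy1 : (1 : ℝ) ≤ y := by exact_mod_cast hq.trans hqy
  have hqy' : (q : ℝ) ≤ y := by exact_mod_cast hqy
  have hKy' : (K : ℝ) ≤ y := by exact_mod_cast hKy
  have hK0 : (0 : ℝ) ≤ K := Nat.cast_nonneg K
  have hly : 0 ≤ Real.log y := Real.log_nonneg hy1
  have hlq : Real.log q ≤ Real.log y := Real.log_le_log (by linarith) hqy'
  have hlq0 : 0 ≤ Real.log q := Real.log_nonneg hq1
  have hlK : Real.log (K + 1) ≤ Real.log 2 + Real.log y := by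
    rw [← Real.log_mul (by norm_num) (by linarith)]
    apply Real.log_le_log (by linarith)
    linarith
  have hlK0 : 0 ≤ Real.log ((K : ℝ) + 1) := Real.log_nonneg (by linarith)
  have hl2 := Real.log_two_lt_d9
  have h1 : 1 + Real.log q + Real.log (K + 1) ≤ 3 * (1 + Real.log y) := by linarith
  have h2 : (y : ℝ) / q ≤ y / Real.sqrt q := by
    apply div_le_div_of_nonneg_left (by linarith) (Real.sqrt_pos.mpr (by linarith))
    rw [Real.sqrt_le_left (by linarith)]
    nlinarith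
  have h3 : (q : ℝ) ≤ Real.sqrt (y * q) := by
    apply Real.le_sqrt_of_sq_le
    nlinarith
  have h4 : (y : ℝ) / q + K + q ≤ y / Real.sqrt q + (y : ℝ) ^ (4 / 5 : ℝ) + Real.sqrt (y * q) := by
    linarith
  have h5 : 0 ≤ (y : ℝ) / q + K + q := by positivity
  calc 40 * ((y : ℝ) / q + K + q) * (1 + Real.log q + Real.log (K + 1))
      ≤ 40 * (y / Real.sqrt q + (y : ℝ) ^ (4 / 5 : ℝ) + Real.sqrt (y * q))
        * (3 * (1 + Real.log y)) := by
        apply mul_le_mul _ h1 (by linarith) (by positivity)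
        linarith
    _ = _ := by ring

/-- PROOF. `vaughan_id` with `U = V = ⌊y^(2/5)⌋₊` (`≥ 1`, `≥ y^(2/5)/2`). First term: `≤ ∑_{n ≤ U} log n ≤ U² ≤ y^(4/5)`.
Second: `type_one_log` with `c = 1`, `D = V`, and `min_sum` with `Z = y`, `K = V`; third: `type_one` with
`c = log (U V)`, `D = U V ≤ y^(4/5)`, and `min_sum`; (`q ≤ √(y q)` as `q ≤ y`, `y/q ≤ y/√q`). Fourth: `type_two`. -/
theorem vaughan_bound : ∃ C : ℝ, 0 < C ∧ ∀ (y q : ℕ) (a : ℤ) (α : ℝ), 1 ≤ q → q ≤ y →
    IsCoprime a (q : ℤ) → |α - a / q| ≤ 1 / (q : ℝ) ^ 2 →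
    ‖∑ n ∈ Icc 1 y, ((vonMangoldt n : ℝ) : ℂ) * ee (n * α)‖
      ≤ C * (1 + Real.log y) ^ 4 * (y / Real.sqrt q + (y : ℝ) ^ (4 / 5 : ℝ) + Real.sqrt (y * q)) := by
  obtain ⟨C, hC, htwo⟩ := type_two
  refine ⟨241 + 4 * C, by positivity, ?_⟩
  intro y q a α hq hqy ha hα
  have hy : 1 ≤ y := hq.trans hqy
  have hy1 : (1 : ℝ) ≤ y := by exact_mod_cast hy
  have hly : 0 ≤ Real.log y := Real.log_nonneg hy1
  set L := 1 + Real.log y with hL
  have hL1 : 1 ≤ L := by linarith
  set U := ⌊(y : ℝ) ^ (2 / 5 : ℝ)⌋₊ with hU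
  have hyU : (1 : ℝ) ≤ (y : ℝ) ^ (2 / 5 : ℝ) := Real.one_le_rpow hy1 (by norm_num)
  have hU1 : 1 ≤ U := Nat.le_floor (by exact_mod_cast hyU)
  have hU1' : (1 : ℝ) ≤ U := by exact_mod_cast hU1
  have hUle : (U : ℝ) ≤ (y : ℝ) ^ (2 / 5 : ℝ) := Nat.floor_le (by positivity)
  have hUlt : (y : ℝ) ^ (2 / 5 : ℝ) < U + 1 := Nat.lt_floor_add_one _
  have h45 : (y : ℝ) ^ (2 / 5 : ℝ) * (y : ℝ) ^ (2 / 5 : ℝ) = (y : ℝ) ^ (4 / 5 : ℝ) := by
    rw [← Real.rpow_add (by linarith)]; norm_num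
  have h45y : (y : ℝ) ^ (4 / 5 : ℝ) ≤ y := by
    calc (y : ℝ) ^ (4 / 5 : ℝ) ≤ (y : ℝ) ^ (1 : ℝ) :=
          Real.rpow_le_rpow_of_exponent_le hy1 (by norm_num)
      _ = y := Real.rpow_one _
  have hUU : ((U * U : ℕ) : ℝ) ≤ (y : ℝ) ^ (4 / 5 : ℝ) := by
    push_cast
    rw [← h45]
    exact mul_le_mul hUle hUle (by linarith) (by positivity)
  have hU45 : (U : ℝ) ≤ (y : ℝ) ^ (4 / 5 : ℝ) := by
    refine le_trans ?_ hUU
    push_cast
    nlinarith
  have hUUy : U * U ≤ y := by exact_mod_cast hUU.trans h45y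
  have hUy : U ≤ y := (Nat.le_mul_of_pos_left U hU1).trans hUUy
  set E := (y : ℝ) / Real.sqrt q + (y : ℝ) ^ (4 / 5 : ℝ) + Real.sqrt (y * q) with hE
  have hE0 : 0 ≤ E := by positivity
  have hE45 : (y : ℝ) ^ (4 / 5 : ℝ) ≤ E := by
    have h1 : 0 ≤ (y : ℝ) / Real.sqrt q := by positivity
    have h2 : 0 ≤ Real.sqrt (y * q) := Real.sqrt_nonneg _
    linarith
  have hL4 : L ^ 2 ≤ L ^ 4 := pow_le_pow_right₀ hL1 (by norm_num)
  have hL14 : L ≤ L ^ 4 := by
    calc L = L ^ 1 := (pow_one L).symm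
      _ ≤ L ^ 4 := pow_le_pow_right₀ hL1 (by norm_num)
  -- the four terms
  have hT1 : ‖∑ n ∈ Icc 1 y, ((lo vonMangoldt U n : ℝ) : ℂ) * ee (n * α)‖ ≤ L ^ 4 * E := by
    calc ‖∑ n ∈ Icc 1 y, ((lo vonMangoldt U n : ℝ) : ℂ) * ee (n * α)‖
        ≤ ∑ n ∈ Icc 1 y, ‖((lo vonMangoldt U n : ℝ) : ℂ) * ee (n * α)‖ := norm_sum_le _ _
      _ ≤ ∑ n ∈ Icc 1 y, (if n ≤ U then Real.log y else 0) := by
          apply Finset.sum_le_sum
          intro n hn
          rw [Finset.mem_Icc] at hn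
          rw [norm_mul, MC.norm_ee, mul_one, Complex.norm_real, lo_apply]
          split_ifs
          · rw [Real.norm_of_nonneg vonMangoldt_nonneg]
            refine vonMangoldt_le_log.trans ?_
            apply Real.log_le_log (by exact_mod_cast hn.1)
            exact_mod_cast hn.2
          · simp
      _ = ∑ n ∈ (Icc 1 y).filter (fun n => n ≤ U), Real.log y := by rw [Finset.sum_filter]
      _ ≤ ∑ n ∈ Icc 1 U, Real.log y := by
          apply Finset.sum_le_sum_of_subset_of_nonneg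
          · intro n hn
            rw [Finset.mem_filter, Finset.mem_Icc] at hn
            rw [Finset.mem_Icc]
            exact ⟨hn.1.1, hn.2⟩
          · intro n _ _
            exact hly
      _ = U * Real.log y := by
          rw [Finset.sum_const, Nat.card_Icc, add_tsub_cancel_right, nsmul_eq_mul]
      _ ≤ E * L := mul_le_mul (hU45.trans hE45) (by linarith) hly hE0
      _ ≤ L ^ 4 * E := by rw [mul_comm]; exact mul_le_mul_of_nonneg_right hL14 hE0
  have hT2 : ‖∑ n ∈ Icc 1 y, (((lo muR U * ArithmeticFunction.log) n : ℝ) : ℂ) * ee (n * α)‖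
      ≤ 120 * L ^ 4 * E := by
    have h1 := type_one_log (lo muR U) U y 1 (by norm_num) (fun d => by
      rw [lo_apply]
      split_ifs
      · rw [muR_apply]
        have := ArithmeticFunction.abs_moebius_le_one (n := d)
        exact_mod_cast this
      · rw [abs_zero]; norm_num) (fun d hd => by rw [lo_apply, if_neg (by omega)]) α
    have h2 := min_sum q hq a ha α hα U y (by linarith)
    have h3 := V7b_min y q U hq hqy hU45 hUy
    rw [← hL, ← hE] at h3
    calc ‖∑ n ∈ Icc 1 y, (((lo muR U * ArithmeticFunction.log) n : ℝ) : ℂ) * ee (n * α)‖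
        ≤ 1 * Real.log y * (120 * L * E) :=
          h1.trans (mul_le_mul_of_nonneg_left (h2.trans h3) (by linarith))
      _ ≤ L * (120 * L * E) := by
          apply mul_le_mul_of_nonneg_right (by linarith) (by positivity)
      _ = 120 * (L ^ 2 * E) := by ring
      _ ≤ 120 * (L ^ 4 * E) := by
          apply mul_le_mul_of_nonneg_left _ (by norm_num)
          exact mul_le_mul_of_nonneg_right hL4 hE0
      _ = _ := by ring
  have hT3 : ‖∑ n ∈ Icc 1 y, (((lo vonMangoldt U * lo muR U * zR) n : ℝ) : ℂ) * ee (n * α)‖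
      ≤ 120 * L ^ 4 * E := by
    have hUUlog : Real.log ((U : ℝ) * U) ≤ L := by
      have h1 : Real.log ((U : ℝ) * U) ≤ Real.log y := by
        apply Real.log_le_log (by positivity)
        exact_mod_cast hUUy
      linarith
    have hUUlog0 : 0 ≤ Real.log ((U : ℝ) * U) := Real.log_nonneg (by nlinarith)
    have h1 := type_one (lo vonMangoldt U * lo muR U) (U * U) y (Real.log ((U : ℝ) * U)) hUUlog0
      (fun d => (lolo_bound U U d hU1 hU1).1) (fun d hd => (lolo_bound U U d hU1 hU1).2 hd) α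
    have h2 := min_sum q hq a ha α hα (U * U) y (by linarith)
    have h3 := V7b_min y q (U * U) hq hqy hUU hUUy
    rw [← hL, ← hE] at h3
    calc ‖∑ n ∈ Icc 1 y, (((lo vonMangoldt U * lo muR U * zR) n : ℝ) : ℂ) * ee (n * α)‖
        ≤ Real.log ((U : ℝ) * U) * (120 * L * E) :=
          h1.trans (mul_le_mul_of_nonneg_left (h2.trans h3) hUUlog0)
      _ ≤ L * (120 * L * E) := by
          apply mul_le_mul_of_nonneg_right hUUlog (by positivity)
      _ = 120 * (L ^ 2 * E) := by ring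
      _ ≤ 120 * (L ^ 4 * E) := by
          apply mul_le_mul_of_nonneg_left _ (by norm_num)
          exact mul_le_mul_of_nonneg_right hL4 hE0
      _ = _ := by ring
  have hT4 : ‖∑ n ∈ Icc 1 y, (((hi vonMangoldt U * (hi muR U * zR)) n : ℝ) : ℂ) * ee (n * α)‖
      ≤ 4 * C * L ^ 4 * E := by
    have h1 := htwo y q a α hq hqy ha hα U U hU1 hU1
    have hsq : (y : ℝ) ^ (1 / 5 : ℝ) / 2 ≤ Real.sqrt U := by
      apply Real.le_sqrt_of_sq_le
      have e : ((y : ℝ) ^ (1 / 5 : ℝ) / 2) ^ 2 = (y : ℝ) ^ (2 / 5 : ℝ) / 4 := by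
        rw [div_pow, ← Real.rpow_natCast, ← Real.rpow_mul (by linarith)]
        norm_num
      rw [e]
      linarith
    have h2 : (y : ℝ) / Real.sqrt U ≤ 2 * (y : ℝ) ^ (4 / 5 : ℝ) := by
      have hy5 : 0 < (y : ℝ) ^ (1 / 5 : ℝ) := by positivity
      rw [div_le_iff₀ (Real.sqrt_pos.mpr (by linarith))]
      have e : (y : ℝ) = 2 * (y : ℝ) ^ (4 / 5 : ℝ) * ((y : ℝ) ^ (1 / 5 : ℝ) / 2) := by
        have : (y : ℝ) ^ (4 / 5 : ℝ) * (y : ℝ) ^ (1 / 5 : ℝ) = y := by
          rw [← Real.rpow_add (by linarith)]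
          norm_num
        linarith
      calc (y : ℝ) = 2 * (y : ℝ) ^ (4 / 5 : ℝ) * ((y : ℝ) ^ (1 / 5 : ℝ) / 2) := e
        _ ≤ 2 * (y : ℝ) ^ (4 / 5 : ℝ) * Real.sqrt U :=
            mul_le_mul_of_nonneg_left hsq (by positivity)
    refine h1.trans ?_
    rw [← hL]
    have h3 : (y : ℝ) / Real.sqrt q + y / Real.sqrt U + y / Real.sqrt U + Real.sqrt (y * q)
        ≤ 4 * E := by
      have h4 : 0 ≤ (y : ℝ) / Real.sqrt q := by positivity
      have h5 : 0 ≤ Real.sqrt (y * q) := Real.sqrt_nonneg _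
      rw [hE]
      linarith
    calc C * L ^ 4 * ((y : ℝ) / Real.sqrt q + y / Real.sqrt U + y / Real.sqrt U
          + Real.sqrt (y * q)) ≤ C * L ^ 4 * (4 * E) :=
          mul_le_mul_of_nonneg_left h3 (by positivity)
      _ = _ := by ring
  -- assemble
  have hid : ∀ n, ((vonMangoldt n : ℝ) : ℂ) * ee (n * α)
      = ((lo vonMangoldt U n : ℝ) : ℂ) * ee (n * α)
        + (((lo muR U * ArithmeticFunction.log) n : ℝ) : ℂ) * ee (n * α)
        - (((lo vonMangoldt U * lo muR U * zR) n : ℝ) : ℂ) * ee (n * α)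
        + (((hi vonMangoldt U * (hi muR U * zR)) n : ℝ) : ℂ) * ee (n * α) := by
    intro n
    have h0 : (vonMangoldt : ArithmeticFunction ℝ) + lo vonMangoldt U * lo muR U * zR
        = lo vonMangoldt U + lo muR U * ArithmeticFunction.log
          + hi vonMangoldt U * (hi muR U * zR) := by
      have h := vaughan_id U U
      calc (vonMangoldt : ArithmeticFunction ℝ) + lo vonMangoldt U * lo muR U * zR
          = (lo vonMangoldt U + lo muR U * ArithmeticFunction.log
            - lo vonMangoldt U * lo muR U * zR + hi vonMangoldt U * (hi muR U * zR))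
            + lo vonMangoldt U * lo muR U * zR := by rw [← h]
        _ = _ := by abel
    have h1 := congrArg (fun f : ArithmeticFunction ℝ => f n) h0
    simp only [ArithmeticFunction.add_apply] at h1
    have h2 : (vonMangoldt n : ℝ) = lo vonMangoldt U n
        + (lo muR U * ArithmeticFunction.log) n - (lo vonMangoldt U * lo muR U * zR) n
        + (hi vonMangoldt U * (hi muR U * zR)) n := by linarith
    rw [h2]
    push_cast
    ring
  rw [Finset.sum_congr rfl fun n _ => hid n, Finset.sum_add_distrib, Finset.sum_sub_distrib,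
    Finset.sum_add_distrib]
  refine (norm_add_le _ _).trans ?_
  refine (add_le_add ((norm_sub_le _ _).trans (add_le_add (norm_add_le _ _) le_rfl)) le_rfl).trans ?_
  have e : (241 + 4 * C) * L ^ 4 * E = L ^ 4 * E + 120 * L ^ 4 * E + 120 * L ^ 4 * E
      + 4 * C * L ^ 4 * E := by ring
  rw [e]
  linarith

end Pool.Agent.PP
end
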