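import Pool.Agent.Lib.MP_bae66e_nt.Mg.G100
import Pool.Agent.Lib.MP_bae66e_nt.Mg.G037
import Pool.Agent.Lib.MP_bae66e_nt.E3.A0a
import Pool.Agent.Lib.MP_bae66e_nt.Mg.G030
import Pool.Agent.Lib.MP_bae66e_nt.Mg.G119
import Pool.Agent.Lib.MP_bae66e_nt.Mg.G120
import Pool.Agent.Lib.MP_bae66e_nt.Mg.G024

section

/-!
# Row AK: the parameters
-/

set_option autoImplicit false

namespace Pool.Agent.Lib.MP_bae66e_nt.MF

open Finset MeasureTheory Real
open Pool.Agent.E3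
open Pool.Agent.Lib.MP_bae66e_nt.EF (PX Wt HR gA COREG)
open Pool.Agent.Lib.MP_bae66e_nt.LL (fP gW)
open Pool.Agent.Lib.MP_bae66e_nt.AC (Sg VV)
open Pool.Agent.Lib.MP_bae66e_nt.AP3 (prI mem_prI)

/-- PROOF. As `parA` (EF/A): `R ≤ (log M)^(a + 1/2)`, so `log R ≤ (a + 1/2) log log M`; `log (M R) = log M + log R`; `(log (M R))^(a - 1) ≤ (2 log M)^(a - 1) ≤ (log M)^(a - 1/2) ≤ R`. -/
theorem parK (a K κ : ℝ) (ha : 3 ≤ a) (hκ : 0 < κ) : ∃ M₀ : ℕ, ∀ M : ℕ, M₀ ≤ M → ∀ R : ℕ, PX a R M →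
    64 ≤ M ∧ K ≤ M ∧ K ≤ Real.log M ∧ 4 ≤ Real.log M ∧ (Real.log M) ^ 2 ≤ R ∧ K ≤ R ∧ 3 ≤ R ∧ K ≤ Real.log R ∧
      1 ≤ Real.log R ∧ Real.log R ≤ κ * Real.log M ∧ Real.log M ≤ Real.log (M * R : ℕ) ∧
      Real.log (M * R : ℕ) ≤ (1 + κ) * Real.log M ∧ K * (R : ℝ) ^ 3 ≤ M ∧ K * (1 + Real.log (M * R : ℕ)) ≤ R ∧
      (Real.log (M * R : ℕ)) ^ (a - 1) ≤ R ∧ (R : ℝ) ≤ (Real.log (M * R : ℕ)) ^ (a + 1 / 2) ∧ 0 < GK R M := by
  obtain ⟨X₂, hp2⟩ := pow_compare (3 * (a + 1 / 2)) 0 (|K| + 1) 1 one_pos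
  obtain ⟨X₃, hp3⟩ := pow_compare (a + 1 / 2) 0 1 κ hκ
  obtain ⟨X₁, hX₁⟩ := Filter.eventually_atTop.mp
    ((Real.tendsto_log_atTop.comp tendsto_natCast_atTop_atTop).eventually_ge_atTop
      ((4 : ℝ) ^ (a - 1) + 3 * |K| + Real.exp |K| + 4))
  refine ⟨max (max X₁ (max 64 ⌈K⌉₊)) (max X₂ X₃), fun M hM R hPX => ?_⟩
  have hXa : max X₁ (max 64 ⌈K⌉₊) ≤ M := (le_max_left _ _).trans hM
  have hXb : max X₂ X₃ ≤ M := (le_max_right _ _).trans hM
  have q1 : (4 : ℝ) ^ (a - 1) + 3 * |K| + Real.exp |K| + 4 ≤ Real.log M := hX₁ M ((le_max_left _ _).trans hXa)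
  have hM64 : 64 ≤ M := (le_max_left _ _).trans ((le_max_right _ _).trans hXa)
  have hKM : K ≤ M := by
    have h1 : ⌈K⌉₊ ≤ M := (le_max_right _ _).trans ((le_max_right _ _).trans hXa)
    exact (Nat.le_ceil K).trans (by exact_mod_cast h1)
  have q2 := (hp2 M ((le_max_left _ _).trans hXb)).2
  have q3 := (hp3 M ((le_max_right _ _).trans hXb)).2
  rw [Real.rpow_zero, mul_one] at q2 q3
  rw [Real.rpow_one] at q2
  obtain ⟨hlo, hup⟩ := hPX
  have hM0 : (0 : ℝ) < M := by exact_mod_cast (by omega : 0 < M)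
  have hK0 := abs_nonneg K
  have hK1 := le_abs_self K
  have hB0 : (0 : ℝ) < (4 : ℝ) ^ (a - 1) := by positivity
  have hE0 : 0 < Real.exp |K| := Real.exp_pos _
  have hL4 : 4 ≤ Real.log M := by linarith
  have hL1 : 1 ≤ Real.log M := by linarith
  have hL0 : 0 < Real.log M := by linarith
  have hKL : K ≤ Real.log M := by linarith
  have hR2 : (Real.log M) ^ 2 ≤ (R : ℝ) := by
    refine le_trans ?_ hlo
    rw [← Real.rpow_natCast]
    exact Real.rpow_le_rpow_of_exponent_le hL1 (by push_cast; linarith)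
  have hLR : Real.log M ≤ (R : ℝ) := by
    have e0 : Real.log M * 1 ≤ Real.log M * Real.log M := mul_le_mul_of_nonneg_left hL1 hL0.le
    have e1 : (Real.log M) ^ 2 = Real.log M * Real.log M := sq _
    linarith
  set r : ℝ := (R : ℝ) with hr
  have hr4 : 4 ≤ r := by linarith
  have hr0 : 0 < r := by linarith
  have hr1 : (1 : ℝ) ≤ r := by linarith
  have hKr : K ≤ r := by linarith
  have hR3 : 3 ≤ R := by
    have h1 : (3 : ℝ) ≤ (R : ℝ) := by rw [← hr]; linarith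
    exact_mod_cast h1
  have hKlr : K ≤ Real.log r := by
    refine hK1.trans ?_
    rw [Real.le_log_iff_exp_le hr0]
    linarith
  have hl1 : 1 ≤ Real.log r := by
    rw [Real.le_log_iff_exp_le hr0]
    have := Real.exp_one_lt_d9
    linarith
  have hlκ : Real.log r ≤ κ * Real.log M := by
    have h1 : r ≤ (M : ℝ) ^ κ := by linarith
    have h2 := Real.log_le_log hr0 h1
    rwa [Real.log_rpow hM0] at h2
  have hr3 : r ^ 3 ≤ (Real.log M) ^ (3 * (a + 1 / 2)) := by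
    calc r ^ 3 ≤ ((Real.log M) ^ (a + 1 / 2)) ^ 3 := pow_le_pow_left₀ hr0.le hup 3
      _ = (Real.log M) ^ (3 * (a + 1 / 2)) := by
          rw [← Real.rpow_natCast, ← Real.rpow_mul hL0.le]
          congr 1
          push_cast
          ring
  have hr3p : 0 ≤ r ^ 3 := by positivity
  have h1000 : (|K| + 1) * r ^ 3 ≤ M := (mul_le_mul_of_nonneg_left hr3 (by positivity)).trans q2
  have hKr3 : K * r ^ 3 ≤ M := by
    have h1 : K * r ^ 3 ≤ (|K| + 1) * r ^ 3 := mul_le_mul_of_nonneg_right (by linarith) hr3p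
    linarith
  have hrM : r ≤ M := by
    have h1 : r ≤ r ^ 3 := by
      calc r = r ^ 1 := (pow_one r).symm
        _ ≤ r ^ 3 := pow_le_pow_right₀ hr1 (by norm_num)
    have h2 : 1 * r ^ 3 ≤ (|K| + 1) * r ^ 3 := mul_le_mul_of_nonneg_right (by linarith) hr3p
    linarith
  have hlrM : Real.log r ≤ Real.log M := Real.log_le_log hr0 hrM
  have hlog : Real.log ((M * R : ℕ) : ℝ) = Real.log M + Real.log r := by
    push_cast
    rw [Real.log_mul hM0.ne' (by rw [← hr]; exact hr0.ne')]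
  have hb1 : Real.log M ≤ Real.log ((M * R : ℕ) : ℝ) := by linarith
  have hb2 : Real.log ((M * R : ℕ) : ℝ) ≤ (1 + κ) * Real.log M := by linarith
  have hb3 : Real.log ((M * R : ℕ) : ℝ) ≤ 2 * Real.log M := by linarith
  have hb4 : K * (1 + Real.log ((M * R : ℕ) : ℝ)) ≤ r := by
    have h1 : K * (1 + Real.log ((M * R : ℕ) : ℝ)) ≤ |K| * (1 + Real.log ((M * R : ℕ) : ℝ)) :=
      mul_le_mul_of_nonneg_right hK1 (by linarith)
    have h2 : |K| * (1 + Real.log ((M * R : ℕ) : ℝ)) ≤ |K| * (3 * Real.log M) :=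
      mul_le_mul_of_nonneg_left (by linarith) hK0
    have h3 : (3 * |K|) * Real.log M ≤ Real.log M * Real.log M :=
      mul_le_mul_of_nonneg_right (by linarith) hL0.le
    have h4 : |K| * (3 * Real.log M) = (3 * |K|) * Real.log M := by ring
    have h5 : (Real.log M) ^ 2 = Real.log M * Real.log M := sq _
    linarith
  have hb5 : (Real.log ((M * R : ℕ) : ℝ)) ^ (a - 1) ≤ r := by
    have h1 : (Real.log ((M * R : ℕ) : ℝ)) ^ (a - 1) ≤ (2 * Real.log M) ^ (a - 1) :=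
      Real.rpow_le_rpow (by linarith) hb3 (by linarith)
    have h2 : (2 : ℝ) ^ (a - 1) ≤ (Real.log M) ^ (1 / 2 : ℝ) := by
      have e1 : (2 : ℝ) ^ (a - 1) = ((4 : ℝ) ^ (a - 1)) ^ (1 / 2 : ℝ) := by
        rw [← Real.rpow_mul (by norm_num), show (4 : ℝ) = 2 ^ (2 : ℝ) by norm_num, ← Real.rpow_mul (by norm_num)]
        congr 1
        ring
      rw [e1]
      exact Real.rpow_le_rpow hB0.le (by linarith) (by norm_num)
    rw [Real.mul_rpow (by norm_num) hL0.le] at h1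
    have h3 : (2 : ℝ) ^ (a - 1) * (Real.log M) ^ (a - 1) ≤ (Real.log M) ^ (1 / 2 : ℝ) * (Real.log M) ^ (a - 1) :=
      mul_le_mul_of_nonneg_right h2 (Real.rpow_nonneg hL0.le _)
    have h4 : (Real.log M) ^ (1 / 2 : ℝ) * (Real.log M) ^ (a - 1) = (Real.log M) ^ (a - 1 / 2) := by
      rw [← Real.rpow_add hL0]
      congr 1
      ring
    linarith
  have hb6 : r ≤ (Real.log ((M * R : ℕ) : ℝ)) ^ (a + 1 / 2) :=
    hup.trans (Real.rpow_le_rpow hL0.le hb1 (by linarith))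
  refine ⟨hM64, hKM, hKL, hL4, hR2, hKr, hR3, hKlr, hl1, hlκ, hb1, hb2, hKr3, hb4, hb5, hb6, ?_⟩
  unfold GK HR
  push_cast
  rw [← hr]
  have : 0 < Real.log r := by linarith
  positivity

end Pool.Agent.Lib.MP_bae66e_nt.MF
end

section

/-!
# Row Q1: the majorants (port of `var_class`, AC/RowH)
-/

set_option autoImplicit false

namespace Pool.Agent.Lib.MP_bae66e_nt.MF

open Finset
open Pool.Agent.E3
open Pool.Agent.Lib.MP_bae66e_nt
open Pool.Agent.Lib.MP_bae66e_nt.AC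
open Pool.Agent.Lib.MP_bae66e_nt.EF (PX HR)
open Pool.Agent.Lib.MP_bae66e_nt.AP3 (prI mem_prI)
open Pool.Agent.Lib.MP_bae66e_nt.LL (fP)

/-- the final numerical estimate -/
private lemma K1_final {X l H lh tK G K CE g W T w η : ℝ} (hX : 1 ≤ X) (hl : 1 ≤ l) (hH : 1 ≤ H)
    (htK : 0 ≤ tK) (hK : 0 ≤ K) (hCE : 0 ≤ CE) (hg : 0 < g) (hw : 0 < w)
    (hG : g * l / 32 ≤ G) (hA : tK * lh ^ 2 * l ≤ 2 * H) (hA2 : 12288 * K ≤ η * (g ^ 2 * l))
    (hB : 6144 * K * CE ≤ η * (g ^ 2 * w)) (hC : 12 * W * lh ^ 2 * l ^ 2 * T ^ 4 ≤ η * X) :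
    (X + 1) * (1 / G ^ 2 * (K * tK * (H * lh ^ 2) + K * (CE * H ^ 2) / w)) + 4 * W * (H * lh) ^ 2 * T ^ 4 ≤
      η * X * (H / l) ^ 2 := by
  have hl0 : 0 < l := by linarith
  have hgl : 0 < g * l := mul_pos hg hl0
  have hGi : 1 / G ^ 2 ≤ 1024 / (g ^ 2 * l ^ 2) := by
    rw [div_le_div_iff₀ (by nlinarith [sq_nonneg G, hG, hgl]) (by positivity)]
    have h1 : (g * l / 32) ^ 2 ≤ G ^ 2 := pow_le_pow_left₀ (by positivity) hG 2
    nlinarith
  have hS0 : 0 ≤ K * tK * (H * lh ^ 2) + K * (CE * H ^ 2) / w := by positivity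
  have h1 : (X + 1) * (1 / G ^ 2 * (K * tK * (H * lh ^ 2) + K * (CE * H ^ 2) / w)) ≤
      (2 * X) * (1024 / (g ^ 2 * l ^ 2) * (K * tK * (H * lh ^ 2) + K * (CE * H ^ 2) / w)) := by
    refine mul_le_mul (by linarith) (mul_le_mul_of_nonneg_right hGi hS0) ?_ (by positivity)
    exact mul_nonneg (by positivity) hS0
  have h2 : (2 * X) * (1024 / (g ^ 2 * l ^ 2) * (K * tK * (H * lh ^ 2))) ≤ η / 3 * X * (H / l) ^ 2 := by
    have e1 : (2 * X) * (1024 / (g ^ 2 * l ^ 2) * (K * tK * (H * lh ^ 2))) =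
        (2048 * X * K * H / (g ^ 2 * l ^ 3)) * (tK * lh ^ 2 * l) := by
      field_simp; ring
    have e2 : η / 3 * X * (H / l) ^ 2 = (X * H ^ 2 / (3 * l ^ 3 * g ^ 2)) * (η * (g ^ 2 * l)) := by
      field_simp
    rw [e1, e2]
    calc (2048 * X * K * H / (g ^ 2 * l ^ 3)) * (tK * lh ^ 2 * l)
        ≤ (2048 * X * K * H / (g ^ 2 * l ^ 3)) * (2 * H) := mul_le_mul_of_nonneg_left hA (by positivity)
      _ = (X * H ^ 2 / (3 * l ^ 3 * g ^ 2)) * (12288 * K) := by field_simp; ring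
      _ ≤ _ := mul_le_mul_of_nonneg_left hA2 (by positivity)
  have h3 : (2 * X) * (1024 / (g ^ 2 * l ^ 2) * (K * (CE * H ^ 2) / w)) ≤ η / 3 * X * (H / l) ^ 2 := by
    have e1 : (2 * X) * (1024 / (g ^ 2 * l ^ 2) * (K * (CE * H ^ 2) / w)) =
        (X * H ^ 2 / (3 * l ^ 2 * g ^ 2 * w)) * (6144 * K * CE) := by
      field_simp; ring
    have e2 : η / 3 * X * (H / l) ^ 2 = (X * H ^ 2 / (3 * l ^ 2 * g ^ 2 * w)) * (η * (g ^ 2 * w)) := by
      field_simp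
    rw [e1, e2]
    exact mul_le_mul_of_nonneg_left hB (by positivity)
  have h4 : 4 * W * (H * lh) ^ 2 * T ^ 4 ≤ η / 3 * X * (H / l) ^ 2 := by
    have e1 : 4 * W * (H * lh) ^ 2 * T ^ 4 = (H ^ 2 / (3 * l ^ 2)) * (12 * W * lh ^ 2 * l ^ 2 * T ^ 4) := by
      field_simp; ring
    have e2 : η / 3 * X * (H / l) ^ 2 = (H ^ 2 / (3 * l ^ 2)) * (η * X) := by
      field_simp
    rw [e1, e2]
    exact mul_le_mul_of_nonneg_left hC (by positivity)
  have h5 : (2 * X) * (1024 / (g ^ 2 * l ^ 2) * (K * tK * (H * lh ^ 2) + K * (CE * H ^ 2) / w)) =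
      (2 * X) * (1024 / (g ^ 2 * l ^ 2) * (K * tK * (H * lh ^ 2))) +
        (2 * X) * (1024 / (g ^ 2 * l ^ 2) * (K * (CE * H ^ 2) / w)) := by ring
  rw [h5] at h1
  linarith

private lemma K1_fP_nonneg (H : ℕ) (t : ℤ) : 0 ≤ fP H t := by
  unfold fP
  split_ifs
  · exact Real.log_natCast_nonneg H
  · exact le_rfl

private lemma K1_fP_le (H : ℕ) (t : ℤ) : fP H t ≤ Real.log H := by
  unfold fP
  split_ifs
  · exact le_rfl
  · exact Real.log_natCast_nonneg H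

private lemma K1_FC (H W s m t : ℕ) : 0 ≤ FC H W s m t ∧ FC H W s m t ≤ fP H (t : ℤ) := by
  unfold FC
  split_ifs
  · exact ⟨K1_fP_nonneg _ _, le_rfl⟩
  · exact ⟨le_rfl, K1_fP_nonneg _ _⟩

private lemma K1_Ek_nonneg (H k : ℕ) (F : ℕ → ℝ) (hF : ∀ t, 0 ≤ F t) : 0 ≤ Ek H k F := by
  unfold Ek
  refine sum_nonneg fun t _ => sum_nonneg fun t' _ => ?_
  split_ifs
  · exact mul_nonneg (hF t) (hF t')
  · exact le_rfl

/-- the finite part: the sum over all classes -/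
private lemma K1_finite {K CE : ℝ}
    (hEk : ∀ (H k : ℕ) (F : ℕ → ℝ), 2 ≤ H → 1 ≤ k →
      (∀ t ∈ Icc 1 H, 0 ≤ F t ∧ F t ≤ fP H (t : ℤ)) →
      Ek H k F ≤ H * (Real.log H) ^ 2 + CE * (H : ℝ) ^ 2 / (k * rho k ^ 2))
    (hSE : ∀ (D T w : ℕ) (G L Q : ℝ) (lam E : ℕ → ℝ), 1 ≤ w → 3 ≤ T → D ≠ 0 → primorial w ∣ D →
      0 ≤ L → 0 ≤ Q → SD (sProd D T) T G lam → (∀ k, 1 ≤ k → 0 ≤ E k ∧ E k ≤ L + Q / (k * rho k ^ 2)) →
      ∑ e ∈ (sProd D T).divisors with e ≠ 1, (Uc (sProd D T) lam e) ^ 2 * ∑ k ∈ e.divisors, (k : ℝ) * E k ≤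
      1 / G ^ 2 * (K * (Real.log T) ^ K * L + K * Q / w))
    (hCE : 0 ≤ CE) {D T w : ℕ} {G : ℝ} {lam : ℕ → ℝ} (hsd : SD (sProd D T) T G lam) (hw : 1 ≤ w)
    (hT : 3 ≤ T) (hD : D ≠ 0) (hWD : primorial w ∣ D) {s M H : ℕ} (hs : 1 ≤ s) (hsD : s ∣ D)
    (hH : 2 ≤ H) (hHM : H ≤ M) (hM : 1 ≤ M) :
    ∑ m ∈ Icc M (2 * M), ((∑ t ∈ Icc 1 H, FC H (primorial w) s m t * sg (sProd D T) lam (s * m - t)) -
      (∑ t ∈ Icc 1 H, FC H (primorial w) s m t) / G) ^ 2 ≤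
    ((M : ℝ) + 1) * (1 / G ^ 2 * (K * (Real.log T) ^ K * (H * (Real.log H) ^ 2) + K * (CE * (H : ℝ) ^ 2) / w)) +
      4 * (primorial w) * (H * Real.log H) ^ 2 * (T : ℝ) ^ 4 := by
  have hW : 1 ≤ primorial w := primorial_pos w
  set W := primorial w with hWdef
  set S : ℝ := 1 / G ^ 2 * (K * (Real.log T) ^ K * (H * (Real.log H) ^ 2) + K * (CE * (H : ℝ) ^ 2) / w) with hS
  have hW0 : (0 : ℝ) < W := by exact_mod_cast hW
  have hcl : ∀ c ∈ range W, ∑ m ∈ Icc M (2 * M) with m % W = c,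
      ((∑ t ∈ Icc 1 H, FC H W s m t * sg (sProd D T) lam (s * m - t)) -
      (∑ t ∈ Icc 1 H, FC H W s m t) / G) ^ 2 ≤
      ((M : ℝ) + 1) / W * S + 4 * (H * Real.log H) ^ 2 * (T : ℝ) ^ 4 := by
    intro c hc
    have hcW : c % W = c := Nat.mod_eq_of_lt (mem_range.1 hc)
    have h1 : ∑ m ∈ Icc M (2 * M) with m % W = c,
        ((∑ t ∈ Icc 1 H, FC H W s m t * sg (sProd D T) lam (s * m - t)) -
        (∑ t ∈ Icc 1 H, FC H W s m t) / G) ^ 2 =
        ∑ m ∈ Icc M (2 * M) with m ≡ c [MOD W],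
        ((∑ t ∈ Icc 1 H, FC H W s c t * sg (sProd D T) lam (s * m - t)) -
        (∑ t ∈ Icc 1 H, FC H W s c t) / G) ^ 2 := by
      refine sum_congr ?_ fun m hm => ?_
      · ext m
        simp only [mem_filter]
        unfold Nat.ModEq
        rw [hcW]
      · have h2 : m ≡ c [MOD W] := by
          unfold Nat.ModEq
          rw [hcW]
          simp only [mem_filter] at hm
          unfold Nat.ModEq at hm
          rw [hcW] at hm
          exact hm.2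
        have h3 : ∀ t, FC H W s m t = FC H W s c t := fun t => FC_congr H W s m c t h2
        simp only [h3]
    rw [h1]
    refine (variance hsd M W c s H (FC H W s c) (by omega) hW
      (Nat.Coprime.coprime_dvd_right hWD (coprime_sProd D T))
      (Nat.Coprime.coprime_dvd_right hsD (coprime_sProd D T)) hs hHM hM).trans ?_
    have habs : ∀ t, |FC H W s c t| = FC H W s c t := fun t => abs_of_nonneg (K1_FC H W s c t).1
    simp only [habs]
    have h2 : ∑ e ∈ (sProd D T).divisors with e ≠ 1, (Uc (sProd D T) lam e) ^ 2 *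
        ∑ k ∈ e.divisors, (k : ℝ) * Ek H k (fun t => FC H W s c t) ≤ S := by
      refine hSE D T w G _ _ lam (fun k => Ek H k (fun t => FC H W s c t)) hw hT hD hWD ?_ ?_ hsd
        fun k hk => ⟨?_, ?_⟩
      · positivity
      · positivity
      · exact K1_Ek_nonneg _ _ _ fun t => (K1_FC H W s c t).1
      · exact hEk H k _ hH hk fun t _ => K1_FC H W s c t
    have h3 : ∑ t ∈ Icc 1 H, FC H W s c t ≤ H * Real.log H := by
      calc ∑ t ∈ Icc 1 H, FC H W s c t ≤ ∑ _t ∈ Icc 1 H, Real.log H :=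
            sum_le_sum fun t _ => (K1_FC H W s c t).2.trans (K1_fP_le _ _)
        _ = H * Real.log H := by rw [sum_const, Nat.card_Icc, nsmul_eq_mul, Nat.add_sub_cancel]
    have h4 : 0 ≤ ∑ t ∈ Icc 1 H, FC H W s c t := sum_nonneg fun t _ => (K1_FC H W s c t).1
    refine add_le_add (mul_le_mul_of_nonneg_left h2 (by positivity)) ?_
    refine mul_le_mul_of_nonneg_right ?_ (by positivity)
    exact mul_le_mul_of_nonneg_left (pow_le_pow_left₀ h4 h3 2) (by norm_num)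
  have hmaps : ∀ m ∈ Icc M (2 * M), m % W ∈ range W := fun m _ => mem_range.2 (Nat.mod_lt _ hW)
  rw [← sum_fiberwise_of_maps_to hmaps]
  refine (sum_le_sum hcl).trans (le_of_eq ?_)
  rw [sum_const, card_range, nsmul_eq_mul]
  field_simp

open Filter in
private lemma K1_ev_w (c η : ℝ) (hη : 0 < η) : ∃ w₁ : ℕ, ∀ w : ℕ, w₁ ≤ w → c * (Real.log w) ^ 12 ≤ η * w := by
  have h1 : (fun x : ℝ => Real.log x ^ (12 : ℝ)) =o[atTop] fun x => x ^ (1 : ℝ) :=
    isLittleO_log_rpow_rpow_atTop 12 one_pos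
  have h2 := (h1.bound (show 0 < η / (|c| + 1) by positivity)).and (eventually_ge_atTop (1 : ℝ))
  have h3 := tendsto_natCast_atTop_atTop.eventually h2
  obtain ⟨w₁, hw₁⟩ := eventually_atTop.1 h3
  refine ⟨w₁, fun w hw => ?_⟩
  obtain ⟨h4, h5⟩ := hw₁ w hw
  have hl : 0 ≤ Real.log w := Real.log_natCast_nonneg w
  have e1 : Real.log w ^ (12 : ℝ) = Real.log w ^ 12 := by
    rw [← Real.rpow_natCast]; norm_num
  rw [e1, Real.rpow_one, Real.norm_of_nonneg (by positivity), Real.norm_of_nonneg (by positivity)] at h4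
  have h6 : (|c| + 1) * Real.log w ^ 12 ≤ η * w := by
    calc (|c| + 1) * Real.log w ^ 12 ≤ (|c| + 1) * (η / (|c| + 1) * w) :=
          mul_le_mul_of_nonneg_left h4 (by positivity)
      _ = η * w := by field_simp
  have h7 : c * Real.log w ^ 12 ≤ (|c| + 1) * Real.log w ^ 12 :=
    mul_le_mul_of_nonneg_right (by linarith [le_abs_self c]) (by positivity)
  linarith

open Filter in
private lemma K1_ev_M (a : ℝ) (ha : 0 < a) (N₀ : ℕ) (A B : ℝ) : ∃ M₀ : ℕ, ∀ M : ℕ, M₀ ≤ M →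
    N₀ ≤ ⌊(Real.log M) ^ a⌋₊ ∧ A ≤ Real.log M ∧ B ≤ (M : ℝ) ^ (1 / 16 : ℝ) ∧
      (Real.log M) ^ a ≤ ((M : ℝ) ^ (1 / 16 : ℝ)) ^ 2 ∧ 1 ≤ M := by
  have hc := tendsto_natCast_atTop_atTop (R := ℝ)
  have hl : Tendsto (fun M : ℕ => Real.log M) atTop atTop := Real.tendsto_log_atTop.comp hc
  have h1 : ∀ᶠ M : ℕ in atTop, N₀ ≤ ⌊(Real.log M) ^ a⌋₊ :=
    (tendsto_nat_floor_atTop.comp ((tendsto_rpow_atTop ha).comp hl)).eventually_ge_atTop N₀
  have h2 : ∀ᶠ M : ℕ in atTop, A ≤ Real.log M := hl.eventually_ge_atTop A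
  have h3 : ∀ᶠ M : ℕ in atTop, B ≤ (M : ℝ) ^ (1 / 16 : ℝ) :=
    ((tendsto_rpow_atTop (by norm_num : (0 : ℝ) < 1 / 16)).comp hc).eventually_ge_atTop B
  have h4 : ∀ᶠ x : ℝ in atTop, ‖Real.log x ^ a‖ ≤ 1 * ‖x ^ (1 / 8 : ℝ)‖ :=
    (isLittleO_log_rpow_rpow_atTop a (by norm_num : (0 : ℝ) < 1 / 8)).bound one_pos
  have h5 := hc.eventually h4
  obtain ⟨M₀, hM₀⟩ := eventually_atTop.1 (((h1.and h2).and (h3.and h5)).and (eventually_ge_atTop 1))
  refine ⟨M₀, fun M hM => ?_⟩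
  obtain ⟨⟨⟨g1, g2⟩, g3, g4⟩, g5⟩ := hM₀ M hM
  refine ⟨g1, g2, g3, ?_, g5⟩
  have hM0 : (0 : ℝ) ≤ M := Nat.cast_nonneg M
  have h6 : ((M : ℝ) ^ (1 / 16 : ℝ)) ^ 2 = (M : ℝ) ^ (1 / 8 : ℝ) := by
    rw [← Real.rpow_natCast, ← Real.rpow_mul hM0]
    norm_num
  rw [h6]
  rw [one_mul, Real.norm_of_nonneg (Real.rpow_nonneg hM0 _)] at g4
  exact (le_abs_self _).trans g4

/-- PROOF. As `var_class` (AC/RowH), with a general `R` (`PX a R M`; `a₁ = K + 4`), exactly as EF/Q1 is made from E2/H2b. -/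
theorem var_class_k : ∃ C a₁ : ℝ, 1 ≤ C ∧ 3 ≤ a₁ ∧ ∀ a : ℝ, a₁ ≤ a → ∀ η : ℝ, 0 < η → ∃ w₀ : ℕ, ∀ w : ℕ, w₀ ≤ w →
    (∀ m : ℕ, Even m → 1 ≤ #(VV (primorial w) m)) →
    ∃ M₀ : ℕ, ∀ M : ℕ, M₀ ≤ M → ∀ R : ℕ, PX a R M → ∀ s ∈ IS R,
    ∃ B Pm : ℕ → ℝ,
      (∀ m ∈ Icc M (2 * M), SK R s m ≤ Pm m) ∧
      (∀ m ∈ Icc M (2 * M), Even m → 0 ≤ B m ∧ B m ≤ C * Sg (primorial w) m * (HR R / Real.log M)) ∧
      ∑ m ∈ Icc M (2 * M) with Even m, (Pm m - B m) ^ 2 ≤ η * M * ((HR R : ℝ) / Real.log M) ^ 2 := by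
  obtain ⟨CE, hCE, hEk⟩ := Ek_bound
  obtain ⟨K, hK, hSE⟩ := sum_e
  obtain ⟨Km, hKm, hmert⟩ := mertens_W
  obtain ⟨R₀, hR₀⟩ := rho_D
  refine ⟨640, K + 4, by norm_num, by linarith, fun a ha η hη => ?_⟩
  have ha0 : 0 < a - 1 / 2 := by linarith
  have ha0' : 0 < a + 1 / 2 := by linarith
  obtain ⟨w₁, hw₁⟩ := K1_ev_w (6144 * K * CE * Km ^ 2) η hη
  refine ⟨max 2 w₁, fun w hw hVV => ?_⟩
  have hw2 : 2 ≤ w := (le_max_left _ _).trans hw
  have hw1' := hw₁ w ((le_max_right _ _).trans hw)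
  have hwR : (0 : ℝ) < w := by exact_mod_cast (show 0 < w by omega)
  obtain ⟨H₀, hH₀⟩ := A_bound w hw2
  have hmw := hmert w hw2
  have hW : 1 ≤ primorial w := primorial_pos w
  set W := primorial w with hWdef
  have hW0 : (0 : ℝ) < W := by exact_mod_cast hW
  have hφ : (0 : ℝ) < Nat.totient W := by exact_mod_cast Nat.totient_pos.2 hW
  obtain ⟨g, hgdef⟩ : ∃ g : ℝ, g = (Nat.totient W : ℝ) / W := ⟨_, rfl⟩
  have hg : 0 < g := by rw [hgdef]; positivity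
  have hl6 : 0 ≤ Real.log w ^ 6 := pow_nonneg (Real.log_natCast_nonneg w) 6
  have hg1 : 1 ≤ g * (Km * Real.log w ^ 6) := by
    have h1 : g * ((W : ℝ) / Nat.totient W) = 1 := by
      rw [hgdef]; field_simp
    rw [← h1]
    exact mul_le_mul_of_nonneg_left hmw hg.le
  have hB : 6144 * K * CE ≤ η * (g ^ 2 * w) := by
    have h1 : 1 ≤ (g * (Km * Real.log w ^ 6)) ^ 2 := one_le_pow₀ hg1
    have h2 : 0 ≤ 6144 * K * CE := by positivity
    calc 6144 * K * CE ≤ 6144 * K * CE * (g * (Km * Real.log w ^ 6)) ^ 2 := le_mul_of_one_le_right h2 h1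
      _ = g ^ 2 * (6144 * K * CE * Km ^ 2 * Real.log w ^ 12) := by ring
      _ ≤ g ^ 2 * (η * w) := mul_le_mul_of_nonneg_left hw1' (by positivity)
      _ = η * (g ^ 2 * w) := by ring
  obtain ⟨M₀, hM₀⟩ := K1_ev_M (a - 1 / 2) ha0 (R₀ + w + H₀ + 3) (max 1 (12288 * K / (η * g ^ 2)))
    (max 4 (max w (12 * W / η)))
  obtain ⟨M₀', hM₀'⟩ := K1_ev_M (a + 1 / 2) ha0' 0 0 0
  refine ⟨max M₀ M₀', fun M hM R hPX s hs => ?_⟩
  obtain ⟨hR1, hl, hy, -, hM1⟩ := hM₀ M ((le_max_left _ _).trans hM)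
  obtain ⟨-, -, -, hly, -⟩ := hM₀' M ((le_max_right _ _).trans hM)
  obtain ⟨hRlow, hRle⟩ := hPX
  have hR1 : R₀ + w + H₀ + 3 ≤ R := by
    have h1 : ((R₀ + w + H₀ + 3 : ℕ) : ℝ) ≤ R := by
      refine le_trans ?_ hRlow
      refine le_trans ?_ (Nat.floor_le (Real.rpow_nonneg (Real.log_natCast_nonneg M) _))
      exact_mod_cast hR1
    exact_mod_cast h1
  obtain ⟨H, hHdef⟩ : ∃ H : ℕ, H = HR R := ⟨_, rfl⟩
  have hH : H = 2 * R ^ 2 := by rw [hHdef]; rfl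
  unfold SK
  rw [← hHdef]
  obtain ⟨l, hldef⟩ : ∃ l : ℝ, l = Real.log M := ⟨_, rfl⟩
  obtain ⟨y, hydef⟩ : ∃ y : ℝ, y = (M : ℝ) ^ (1 / 16 : ℝ) := ⟨_, rfl⟩
  rw [← hldef] at hRlow hRle hl hly ⊢
  rw [← hydef] at hy hly
  have hMR : (1 : ℝ) ≤ M := by exact_mod_cast hM1
  have hl1 : 1 ≤ l := (le_max_left _ _).trans hl
  have hl0 : 0 < l := by linarith
  have hy4 : 4 ≤ y := (le_max_left _ _).trans hy
  have hyw : (w : ℝ) ≤ y := (le_max_left _ _).trans ((le_max_right _ _).trans hy)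
  have hyW : 12 * W / η ≤ y := (le_max_right _ _).trans ((le_max_right _ _).trans hy)
  have hy16 : y ^ 16 = M := by
    rw [hydef, ← Real.rpow_natCast, ← Real.rpow_mul (by linarith)]
    norm_num
  have hlogy : Real.log y = l / 16 := by
    rw [hydef, Real.log_rpow (by linarith), ← hldef]
    ring
  -- R and H
  have hR3 : (3 : ℝ) ≤ R := by exact_mod_cast (show 3 ≤ R by omega)
  have hHR : (H : ℝ) = 2 * (R : ℝ) ^ 2 := by rw [hH]; push_cast; ring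
  have hHl : l ^ (a - 1 / 2) ≤ H := by rw [hHR]; nlinarith
  have hHR2 : R ≤ H := by rw [hH]; nlinarith [Nat.zero_le R]
  have hHy : (H : ℝ) ≤ 2 * y ^ 4 := by
    have h1 : (R : ℝ) ≤ y ^ 2 := hRle.trans hly
    have h2 : (R : ℝ) ^ 2 ≤ (y ^ 2) ^ 2 := pow_le_pow_left₀ (by positivity) h1 2
    rw [hHR]
    calc 2 * (R : ℝ) ^ 2 ≤ 2 * (y ^ 2) ^ 2 := by linarith
      _ = 2 * y ^ 4 := by ring
  -- T
  obtain ⟨T, hTdef⟩ : ∃ T : ℕ, T = ⌊y⌋₊ := ⟨_, rfl⟩
  have hT4 : 4 ≤ T := by rw [hTdef]; exact Nat.le_floor (by exact_mod_cast hy4)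
  have hTy : (T : ℝ) ≤ y := by rw [hTdef]; exact Nat.floor_le (by linarith)
  have hTlt : y < T + 1 := by rw [hTdef]; exact Nat.lt_floor_add_one _
  have hTR : (4 : ℝ) ≤ T := by exact_mod_cast hT4
  have hy12 : 16 ≤ y ^ 12 := by
    have h1 : (4 : ℝ) ^ 12 ≤ y ^ 12 := pow_le_pow_left₀ (by norm_num) hy4 12
    norm_num at h1
    linarith
  have hyy4 : y ≤ y ^ 4 := le_self_pow₀ (by linarith) (by norm_num)
  have hy4pos : 0 < y ^ 4 := by positivity
  have hsum : (H : ℝ) + T + w < M := by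
    rw [← hy16]
    have h1 : y ^ 16 = y ^ 4 * y ^ 12 := by ring
    have h2 : y ^ 4 * 16 ≤ y ^ 4 * y ^ 12 := mul_le_mul_of_nonneg_left hy12 hy4pos.le
    rw [h1]
    linarith
  have hsumN : H + T + w < M := by exact_mod_cast hsum
  have hHM : H ≤ M := by omega
  have hH2 : 2 ≤ H := by omega
  have hHpos : (1 : ℝ) ≤ H := by exact_mod_cast (show 1 ≤ H by omega)
  have hlh0 : 0 ≤ Real.log H := Real.log_natCast_nonneg H
  have hlhl : Real.log H ≤ l := by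
    rw [hldef]
    exact Real.log_le_log (by linarith) (by exact_mod_cast hHM)
  have hlT0 : 0 ≤ Real.log T := Real.log_natCast_nonneg T
  have hlTl : Real.log T ≤ l := by
    rw [hldef]
    exact Real.log_le_log (by linarith) (by exact_mod_cast (show T ≤ M by omega))
  -- s
  obtain ⟨⟨hs1, hs2⟩, hsp⟩ := mem_prI.1 hs
  have hwRR : w < R := by omega
  have hs0 : 1 ≤ s := hsp.one_lt.le
  have hsW : Nat.Coprime s W := by
    rw [hsp.coprime_iff_not_dvd, hWdef, hsp.dvd_primorial_iff]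
    omega
  -- D
  obtain ⟨D, hDdef⟩ : ∃ D : ℕ, D = W * ∏ p ∈ prI R (2 * R), p := ⟨_, rfl⟩
  have hD1 : 1 ≤ D := by
    rw [hDdef]
    exact Nat.mul_pos hW (prod_pos fun p hp => (mem_prI.1 hp).2.pos)
  have hWD : W ∣ D := by rw [hDdef]; exact Dvd.intro _ rfl
  have hsD : s ∣ D := by rw [hDdef]; exact (dvd_prod_of_mem (fun p => p) hs).mul_left _
  obtain ⟨G, lam, hGD, hsd⟩ := exists_SD D T hD1 (by omega)
  have hG : g * l / 32 ≤ G := by
    have h1 := hR₀ R w (by omega) hwRR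
    rw [← hWdef, ← hDdef, ← hgdef] at h1
    have h2 : l / 16 ≤ Real.log ((T : ℝ) + 1) := by
      rw [← hlogy]
      exact Real.log_le_log (by linarith) hTlt.le
    calc g * l / 32 = g / 2 * (l / 16) := by ring
      _ ≤ rho D * Real.log ((T : ℝ) + 1) := mul_le_mul h1 h2 (by positivity) (rho_pos D).le
      _ ≤ G := hGD
  have hG0 : 0 < G := lt_of_lt_of_le (by positivity) hG
  refine ⟨fun m => (∑ t ∈ Icc 1 H, FC H W s m t) / G,
    fun m => ∑ t ∈ Icc 1 H, FC H W s m t * sg (sProd D T) lam (s * m - t), ?_, ?_, ?_⟩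
  · intro m hm
    exact majorant hsd H w s m (lt_of_lt_of_le hsumN (mem_Icc.1 hm).1) hs0
  · intro m hm hme
    have hn : 0 ≤ ∑ t ∈ Icc 1 H, FC H W s m t := sum_nonneg fun t _ => (K1_FC H W s m t).1
    refine ⟨div_nonneg hn hG0.le, ?_⟩
    have h1 := hH₀ H s m (by omega) hs0 hsW (hVV m hme)
    have h2 : (∑ t ∈ Icc 1 H, FC H W s m t) / G ≤
        (20 * H * (#(VV W m) : ℝ) / Nat.totient W) / (g * l / 32) :=
      div_le_div₀ (hn.trans h1) h1 (by positivity) hG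
    refine h2.trans (le_of_eq ?_)
    unfold Sg
    rw [hgdef]
    field_simp
    ring
  · refine (sum_le_sum_of_subset_of_nonneg (filter_subset _ _) fun m _ _ => sq_nonneg _).trans ?_
    refine (K1_finite hEk hSE (by linarith) hsd (by omega) (by omega) (by omega) (by rw [← hWdef]; exact hWD)
      hs0 hsD hH2 hHM hM1).trans ?_
    have hKl : (Real.log T) ^ K ≤ l ^ K := Real.rpow_le_rpow hlT0 hlTl (by linarith)
    have hKl0 : 0 ≤ (Real.log T) ^ K := Real.rpow_nonneg hlT0 _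
    have hA : (Real.log T) ^ K * (Real.log H) ^ 2 * l ≤ 2 * H := by
      have h1 : (Real.log H) ^ 2 ≤ l ^ 2 := pow_le_pow_left₀ hlh0 hlhl 2
      calc (Real.log T) ^ K * (Real.log H) ^ 2 * l ≤ l ^ K * l ^ 2 * l := by
            refine mul_le_mul_of_nonneg_right (mul_le_mul hKl h1 (by positivity) (by positivity)) hl0.le
        _ = l ^ (K + 3) := by
            rw [Real.rpow_add hl0, mul_assoc]
            congr 1
            have : (l : ℝ) ^ (3 : ℝ) = l ^ 3 := by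
              rw [← Real.rpow_natCast]; norm_num
            rw [this]; ring
        _ ≤ l ^ (a - 1 / 2) := Real.rpow_le_rpow_of_exponent_le hl1 (by linarith)
        _ ≤ 2 * H := by linarith
    have hA2 : 12288 * K ≤ η * (g ^ 2 * l) := by
      have h1 : 12288 * K / (η * g ^ 2) ≤ l := (le_max_right _ _).trans hl
      rw [div_le_iff₀ (by positivity)] at h1
      linarith
    have hll : l ≤ y ^ 2 := by
      have h1 : l ^ (1 : ℝ) ≤ l ^ (a + 1 / 2) := Real.rpow_le_rpow_of_exponent_le hl1 (by linarith)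
      rw [Real.rpow_one] at h1
      exact h1.trans hly
    have hC : 12 * W * (Real.log H) ^ 2 * l ^ 2 * (T : ℝ) ^ 4 ≤ η * M := by
      have h1 : (Real.log H) ^ 2 ≤ (y ^ 2) ^ 2 := pow_le_pow_left₀ hlh0 (hlhl.trans hll) 2
      have h2 : l ^ 2 ≤ (y ^ 2) ^ 2 := pow_le_pow_left₀ hl0.le hll 2
      have h3 : (T : ℝ) ^ 4 ≤ y ^ 4 := pow_le_pow_left₀ (by positivity) hTy 4
      have h4 : 12 * (W : ℝ) ≤ η * y := by
        rw [div_le_iff₀ hη] at hyW
        linarith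
      have h5 : η * y ≤ η * y ^ 4 := mul_le_mul_of_nonneg_left hyy4 hη.le
      calc 12 * W * (Real.log H) ^ 2 * l ^ 2 * (T : ℝ) ^ 4
          ≤ 12 * W * (y ^ 2) ^ 2 * (y ^ 2) ^ 2 * y ^ 4 := by gcongr
        _ = (12 * W) * y ^ 12 := by ring
        _ ≤ (η * y ^ 4) * y ^ 12 := mul_le_mul_of_nonneg_right (h4.trans h5) (by positivity)
        _ = η * M := by rw [← hy16]; ring
    exact K1_final hMR hl1 hHpos hKl0 (by linarith) (by linarith) hg hwR hG hA hA2 hB hC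

end Pool.Agent.Lib.MP_bae66e_nt.MF
end

section

/-!
# Row C1: the windows of quotients, one character (port of EF/W1 and E3/W4)
-/

set_option autoImplicit false

namespace Pool.Agent.Lib.MP_bae66e_nt.MF

open Finset MeasureTheory Real
open Pool.Agent.E3
open Pool.Agent.Lib.MP_bae66e_nt.EF (PX Wt HR gA COREG)
open Pool.Agent.Lib.MP_bae66e_nt.LL (fP gW)
open Pool.Agent.Lib.MP_bae66e_nt.AC (Sg VV)
open Pool.Agent.Lib.MP_bae66e_nt.AP3 (prI mem_prI)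

private theorem C1_norm_ph (u x : ℝ) : ‖ph u x‖ = 1 := by
  unfold ph
  exact Complex.norm_exp_ofReal_mul_I _

private theorem C1_conj_ph (u x : ℝ) : starRingEnd ℂ (ph u x) = ph u (-x) := by
  unfold ph
  rw [← Complex.exp_conj]
  congr 1
  rw [map_mul, Complex.conj_I, Complex.conj_ofReal]
  push_cast
  ring

private theorem C1_ph_add (u x y : ℝ) : ph u (x + y) = ph u x * ph u y := by
  unfold ph
  rw [← Complex.exp_add]
  congr 1
  push_cast
  ring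

private theorem C1_cont {W : ℕ} (χ : DirichletCharacter ℂ W) (α : ℕ → ℝ) (R X : ℕ) :
    Continuous (PPK χ α R X) := by
  have h1 : Continuous (DP (gA χ α) (IS R)) := by
    unfold DP
    refine continuous_finsetSum _ fun n _ => (continuous_const.mul ?_).mul continuous_const
    unfold ph
    fun_prop
  unfold PPK
  exact h1.mul (PQ_continuous χ X _)

/-- PROOF. As `PPA_norm` (EF/W1) or `PJ_norm` (E3/W4); `mass_J` (E3/W4). -/
theorem PPK_norm : ∃ C : ℝ, 1 ≤ C ∧ ∀ R X : ℕ, 8 ≤ X → 2 ≤ R → ∀ α : ℕ → ℝ, Wt α →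
    ∀ (W : ℕ) (χ : DirichletCharacter ℂ W) (t : ℝ), ‖PPK χ α R X t‖ ≤ C * FJ R X := by
  obtain ⟨C₁, hC₁, h1⟩ := recip_IS
  obtain ⟨C₂, hC₂, h2⟩ := PQ_norm_le
  refine ⟨C₁ * C₂, one_le_mul_of_one_le_of_one_le hC₁ hC₂, fun R X hX hR α hα W χ t => ?_⟩
  have g1 : 0 < Real.log R := Real.log_pos (by exact_mod_cast (by omega : 1 < R))
  have g3 : 0 < Real.log X := Real.log_pos (by exact_mod_cast (by omega : 1 < X))
  have e1 : ‖DP (gA χ α) (IS R) t‖ ≤ C₁ / Real.log R := by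
    refine le_trans ?_ (h1 R hR).1
    unfold DP gA
    refine (norm_sum_le _ _).trans (Finset.sum_le_sum fun n _ => ?_)
    have h0 : (0 : ℝ) ≤ 1 / (n : ℝ) := by positivity
    have e2 : ‖(α n : ℂ)‖ ≤ 1 := by
      rw [Complex.norm_real, Real.norm_of_nonneg (hα n).1]
      exact (hα n).2
    have e3 : ‖((1 / n : ℝ) : ℂ)‖ = 1 / (n : ℝ) := by
      rw [Complex.norm_real, Real.norm_of_nonneg h0]
    rw [norm_mul, norm_mul, norm_mul, C1_norm_ph, mul_one, e3]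
    have e4 : ‖(α n : ℂ)‖ * ‖ch χ n‖ ≤ 1 := mul_le_one₀ e2 (norm_nonneg _) (ch_norm_le χ n)
    exact mul_le_of_le_one_left h0 e4
  have e3 := h2 W χ X X t hX (J4_Ylow X hX) le_rfl
  unfold PPK
  rw [norm_mul]
  calc ‖DP (gA χ α) (IS R) t‖ * ‖PQ χ X X t‖
      ≤ (C₁ / Real.log R) * (C₂ / Real.log X) := mul_le_mul e1 e3 (norm_nonneg _) (by positivity)
    _ = C₁ * C₂ * FJ R X := by
        unfold FJ
        field_simp

private theorem C1_quot {W : ℕ} (χ : DirichletCharacter ℂ W) (α : ℕ → ℝ) (R X : ℕ) (t : ℝ) :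
    starRingEnd ℂ (DP (gA χ α) (IS R) t) * PQ χ X X t = ∑ s ∈ IS R, ∑ q ∈ QS X,
      (α s : ℂ) * ((starRingEnd ℂ (ch χ s) * ch χ q) * ((om X q / (s * q) : ℝ) : ℂ)) *
        ph t (Real.log ((q : ℝ) / s)) := by
  unfold DP PQ WIN gA
  rw [map_sum, Finset.sum_mul_sum]
  refine Finset.sum_congr rfl fun s hs => Finset.sum_congr rfl fun q hq => ?_
  have hs0 : (0 : ℝ) < s := by
    have := (mem_prI.mp hs).2.pos
    exact_mod_cast this
  have hq0 : (0 : ℝ) < q := by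
    have := (mem_prI.mp hq).2.pos
    exact_mod_cast this
  rw [Real.log_div hq0.ne' hs0.ne', sub_eq_add_neg, C1_ph_add, ← C1_conj_ph, map_mul, map_mul, map_mul,
    Complex.conj_ofReal, Complex.conj_ofReal]
  unfold om
  push_cast
  ring

private theorem C1_quot_norm {W : ℕ} (χ : DirichletCharacter ℂ W) (α : ℕ → ℝ) (R X : ℕ) (t : ℝ) :
    ‖starRingEnd ℂ (DP (gA χ α) (IS R) t) * PQ χ X X t‖ = ‖PPK χ α R X t‖ := by
  unfold PPK
  rw [norm_mul, norm_mul, RCLike.norm_conj]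

/-- PROOF. As `XXA_planch` (EF/W1) and `WXJ_planch` (E3/W4): the polynomial of the quotients is `conj (DP (gA χ α) (IS R) t) * PQ χ X X t` (`α` real; `PJ_quot`), of the same modulus as `PPK`. -/
theorem XXK_planch {W : ℕ} (χ : DirichletCharacter ℂ W) (α : ℕ → ℝ) (R X : ℕ) (d l : ℝ) (hd : 0 < d) (hl : 0 < l) :
    Integrable (fun x : ℝ => ‖XXK χ α R X d x - XXK χ α R X l x‖ ^ 2) ∧
    Integrable (fun y : ℝ => (Real.exp (-(d ^ 2 * y ^ 2 / 2)) - Real.exp (-(l ^ 2 * y ^ 2 / 2))) ^ 2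
      * ‖PPK χ α R X y‖ ^ 2) ∧
    ∫ x : ℝ, ‖XXK χ α R X d x - XXK χ α R X l x‖ ^ 2
      = ∫ y : ℝ, (Real.exp (-(d ^ 2 * y ^ 2 / 2)) - Real.exp (-(l ^ 2 * y ^ 2 / 2))) ^ 2
          * ‖PPK χ α R X y‖ ^ 2 := by
  set I : Finset (ℕ × ℕ) := IS R ×ˢ QS X with hI
  let c : ℕ × ℕ → ℂ := fun p =>
    (α p.1 : ℂ) * ((starRingEnd ℂ (ch χ p.1) * ch χ p.2) * ((om X p.2 / (p.1 * p.2) : ℝ) : ℂ))
  let v : ℕ × ℕ → ℝ := fun p => Real.log ((p.2 : ℝ) / p.1)
  have h1 : ∀ x : ℝ, XXK χ α R X d x - XXK χ α R X l x =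
      ∑ i ∈ I, c i * ((gsn d (x - v i) - gsn l (x - v i) : ℝ) : ℂ) := by
    intro x
    unfold XXK
    rw [← Finset.sum_sub_distrib, hI, Finset.sum_product]
    refine Finset.sum_congr rfl fun s _ => ?_
    rw [← Finset.sum_sub_distrib]
    refine Finset.sum_congr rfl fun q _ => ?_
    simp only [c, v]
    push_cast
    ring
  have h2 : ∀ y : ℝ, ‖PPK χ α R X y‖ = ‖∑ i ∈ I, c i * ph y (v i)‖ := by
    intro y
    rw [← C1_quot_norm, C1_quot, hI, Finset.sum_product]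
  have h := planch2 I c v d l hd hl
  simp only [h1, h2]
  exact h

/-- PROOF. As `char_window_a` (EF/W1). -/
theorem char_window_k : ∃ C : ℝ, 1 ≤ C ∧ ∀ (R X : ℕ), 8 ≤ X → 2 ≤ R → ∀ α : ℕ → ℝ, Wt α →
    ∀ (W : ℕ) (χ : DirichletCharacter ℂ W) (T₀ T d η : ℝ), 1 ≤ T → T₀ ≤ T → 0 < d → d ≤ 1 / T ^ 2 →
      ∫ t in {t : ℝ | T₀ ≤ |t|}, Real.exp (-(d * t) ^ 2) * ‖PPK χ α R X t‖ ^ 2 ≤ η * (FJ R X) ^ 2 →
      ∫ x : ℝ, ‖XXK χ α R X d x - XXK χ α R X (1 / T ^ 2) x‖ ^ 2 ≤ (C / T + η) * (FJ R X) ^ 2 := by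
  obtain ⟨C, hC1, hPPP⟩ := PPK_norm
  refine ⟨C ^ 2, one_le_pow₀ hC1, ?_⟩
  intro R X hX8 hR2 α hα W χ T₀ T d η hT1 hT0T hd0 hdl hcoreX
  have hT0 : 0 < T := by linarith
  set l : ℝ := 1 / T ^ 2 with hl
  have hl0 : 0 < l := by positivity
  obtain ⟨_, hJ2, hJ3⟩ := XXK_planch χ α R X d l hd0 hl0
  set F : ℝ → ℝ := fun y => ‖PPK χ α R X y‖ ^ 2 with hF
  have hFc : Continuous F := by
    simp only [hF]
    exact ((C1_cont χ α R X).norm).pow 2
  have hF0 : ∀ y, 0 ≤ F y := fun y => by simp only [hF]; positivity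
  have hFb : ∀ y, F y ≤ C ^ 2 * (FJ R X) ^ 2 := by
    intro y
    have h := hPPP R X hX8 hR2 α hα W χ y
    simp only [hF]
    calc _ ≤ (C * FJ R X) ^ 2 := pow_le_pow_left₀ (norm_nonneg _) h 2
      _ = _ := by ring
  have hFb' : ∀ y, |F y| ≤ C ^ 2 * (FJ R X) ^ 2 := fun y => by
    rw [abs_of_nonneg (hF0 y)]; exact hFb y
  rw [hJ3]
  -- pointwise bound
  set S : Set ℝ := {t : ℝ | T₀ ≤ |t|} with hS
  have hSm : MeasurableSet S := measurableSet_le measurable_const measurable_abs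
  set c₀ : ℝ := (1 / (2 * T ^ 2)) ^ 2 * (C ^ 2 * (FJ R X) ^ 2) with hc₀
  have hc₀0 : 0 ≤ c₀ := by positivity
  have hpt : ∀ y : ℝ, (Real.exp (-(d ^ 2 * y ^ 2 / 2)) - Real.exp (-(l ^ 2 * y ^ 2 / 2))) ^ 2 * F y
      ≤ (Set.Icc (-T) T).indicator (fun _ => c₀) y
        + S.indicator (fun y => Real.exp (-(d * y) ^ 2) * F y) y := by
    intro y
    have hdiff0 : 0 ≤ Real.exp (-(d ^ 2 * y ^ 2 / 2)) - Real.exp (-(l ^ 2 * y ^ 2 / 2)) := by
      have h1 : d ^ 2 * y ^ 2 / 2 ≤ l ^ 2 * y ^ 2 / 2 := by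
        have : d ^ 2 ≤ l ^ 2 := pow_le_pow_left₀ hd0.le hdl 2
        have := mul_le_mul_of_nonneg_right this (sq_nonneg y)
        linarith
      have := Real.exp_le_exp.mpr (neg_le_neg h1)
      linarith
    by_cases hy : |y| < T
    · have hyI : y ∈ Set.Icc (-T) T := by
        rw [abs_lt] at hy
        exact ⟨hy.1.le, hy.2.le⟩
      rw [Set.indicator_of_mem hyI]
      have h2 : 0 ≤ S.indicator (fun y => Real.exp (-(d * y) ^ 2) * F y) y :=
        Set.indicator_nonneg (fun y _ => mul_nonneg (Real.exp_pos _).le (hF0 y)) y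
      have h3 : Real.exp (-(d ^ 2 * y ^ 2 / 2)) - Real.exp (-(l ^ 2 * y ^ 2 / 2)) ≤ 1 / (2 * T ^ 2) := by
        have h4 : Real.exp (-(d ^ 2 * y ^ 2 / 2)) ≤ 1 := by
          rw [Real.exp_le_one_iff]
          have : 0 ≤ d ^ 2 * y ^ 2 / 2 := by positivity
          linarith
        have h5 : 1 - l ^ 2 * y ^ 2 / 2 ≤ Real.exp (-(l ^ 2 * y ^ 2 / 2)) := by
          have := Real.add_one_le_exp (-(l ^ 2 * y ^ 2 / 2))
          linarith
        have h6 : y ^ 2 ≤ T ^ 2 := by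
          rw [← sq_abs y]
          exact pow_le_pow_left₀ (abs_nonneg _) hy.le 2
        have h7 : l ^ 2 * y ^ 2 / 2 ≤ 1 / (2 * T ^ 2) := by
          have h8 : l ^ 2 * y ^ 2 ≤ l ^ 2 * T ^ 2 := mul_le_mul_of_nonneg_left h6 (by positivity)
          have h9 : l ^ 2 * T ^ 2 / 2 = 1 / (2 * T ^ 2) := by
            rw [hl]
            field_simp
          linarith
        linarith
      have h10 := pow_le_pow_left₀ hdiff0 h3 2
      have h11 := mul_le_mul h10 (hFb y) (hF0 y) (by positivity)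
      linarith
    · have hy' : T ≤ |y| := not_lt.mp hy
      have hyS : y ∈ S := hT0T.trans hy'
      rw [Set.indicator_of_mem hyS]
      have h2 : 0 ≤ (Set.Icc (-T) T).indicator (fun _ => c₀) y := Set.indicator_nonneg (fun _ _ => hc₀0) y
      have h3 : (Real.exp (-(d ^ 2 * y ^ 2 / 2)) - Real.exp (-(l ^ 2 * y ^ 2 / 2))) ^ 2 ≤ Real.exp (-(d * y) ^ 2) := by
        have h4 : Real.exp (-(d ^ 2 * y ^ 2 / 2)) - Real.exp (-(l ^ 2 * y ^ 2 / 2)) ≤ Real.exp (-(d ^ 2 * y ^ 2 / 2)) := by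
          have := Real.exp_pos (-(l ^ 2 * y ^ 2 / 2))
          linarith
        refine (pow_le_pow_left₀ hdiff0 h4 2).trans (le_of_eq ?_)
        rw [← Real.exp_nat_mul]
        congr 1
        push_cast
        ring
      have h5 := mul_le_mul_of_nonneg_right h3 (hF0 y)
      linarith
  have hi1 : Integrable (fun y => (Set.Icc (-T) T).indicator (fun _ => c₀) y) := by
    rw [integrable_indicator_iff measurableSet_Icc]
    exact integrableOn_const (by simp)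
  have hi2 : Integrable (fun y => S.indicator (fun y => Real.exp (-(d * y) ^ 2) * F y) y) :=
    (gauss_integrable_of_bounded d _ hd0 F hFc hFb').indicator hSm
  have hmono := integral_mono hJ2 (hi1.add hi2) hpt
  refine hmono.trans ?_
  rw [integral_add' hi1 hi2, integral_indicator hSm, integral_indicator measurableSet_Icc, setIntegral_const,
    Real.volume_real_Icc_of_le (by linarith), smul_eq_mul]
  have hA : (T - -T) * c₀ ≤ C ^ 2 / T * (FJ R X) ^ 2 := by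
    have h1 : (T - -T) * c₀ = C ^ 2 / (2 * T ^ 3) * (FJ R X) ^ 2 := by
      rw [hc₀]
      field_simp
      ring
    rw [h1]
    refine mul_le_mul_of_nonneg_right ?_ (by positivity)
    refine div_le_div_of_nonneg_left (by positivity) hT0 ?_
    have h2 : T ≤ T ^ 3 := by nlinarith [mul_self_nonneg (T - 1)]
    linarith
  linarith

end Pool.Agent.Lib.MP_bae66e_nt.MF
end

section

/-!
# Row MK: the total masses
-/

set_option autoImplicit false

namespace Pool.Agent.Lib.MP_bae66e_nt.MF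

open Finset MeasureTheory Real
open Pool.Agent.E3
open Pool.Agent.Lib.MP_bae66e_nt.EF (PX Wt HR gA COREG)
open Pool.Agent.Lib.MP_bae66e_nt.LL (fP gW)
open Pool.Agent.Lib.MP_bae66e_nt.AC (Sg VV)
open Pool.Agent.Lib.MP_bae66e_nt.AP3 (prI mem_prI)

private theorem MK_om_nonneg (Y : ℝ) (q : ℕ) : 0 ≤ om Y q := (Real.exp_pos _).le

/-- PROOF. `∑_{QS X} om X q/q ≤ C/log X` (private `J4_mass_q` in E3/W4, copy it; or `mass_J`), `∑_{QS X} om X q ≤ C X/log X` (`sum_om_le`, see `mass_u` in EF/M), `s ≤ 2R`, `#(IS R) ≤ C R/log R` (`IS_bounds`, E3/J10). -/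
theorem mass_k : ∃ C : ℝ, 1 ≤ C ∧ ∀ (R X : ℕ) (α : ℕ → ℝ), 16 ≤ X → 2 ≤ R → Wt α →
    ∑ s ∈ IS R, ∑ q ∈ QS X, α s * om X q / ((q : ℝ) / s) ≤ C * (R : ℝ) ^ 2 * FJ R X ∧
    ∑ s ∈ IS R, ∑ q ∈ QS X, α s * om X q ≤ C * (R * X) * FJ R X := by
  obtain ⟨C₁, hC₁, h1⟩ := mass_J
  obtain ⟨C₂, hC₂, h2⟩ := IS_bounds
  obtain ⟨C₃, hC₃, h3⟩ := sum_om_le
  have hC23 : 1 ≤ C₂ * C₃ := one_le_mul_of_one_le_of_one_le hC₂ hC₃
  refine ⟨4 * C₁ + C₂ * C₃, by linarith, fun R X α hX hR hα => ?_⟩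
  have hR0 : (0 : ℝ) < R := by exact_mod_cast (by omega : 0 < R)
  have hX0 : (0 : ℝ) < X := by exact_mod_cast (by omega : 0 < X)
  have hX1 : (1 : ℝ) ≤ X := by exact_mod_cast (by omega : 1 ≤ X)
  have hlR : 0 < Real.log R := Real.log_pos (by exact_mod_cast (by omega : 1 < R))
  have hlX : 0 < Real.log X := Real.log_pos (by exact_mod_cast (by omega : 1 < X))
  have hF : 0 < FJ R X := by
    unfold FJ
    positivity
  constructor
  · have e1 := h1 R X (by omega) hR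
    calc ∑ s ∈ IS R, ∑ q ∈ QS X, α s * om X q / ((q : ℝ) / s)
        ≤ ∑ s ∈ IS R, ∑ q ∈ QS X, 4 * (R : ℝ) ^ 2 * (om X q / (s * q)) := by
          refine Finset.sum_le_sum fun s hs => Finset.sum_le_sum fun q hq => ?_
          obtain ⟨⟨hs1, hs2⟩, hs3⟩ := mem_prI.mp hs
          obtain ⟨-, hq3⟩ := mem_prI.mp hq
          have hs0 : (0 : ℝ) < s := by exact_mod_cast hs3.pos
          have hq0 : (0 : ℝ) < q := by exact_mod_cast hq3.pos
          have hs2' : (s : ℝ) ≤ 2 * R := by exact_mod_cast hs2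
          have e2 : α s * om X q / ((q : ℝ) / s) = α s * ((s : ℝ) ^ 2 * (om X q / (s * q))) := by
            field_simp
          rw [e2]
          have e3 : 0 ≤ om X q / (s * q) := div_nonneg (MK_om_nonneg _ _) (by positivity)
          have e4 : (s : ℝ) ^ 2 ≤ 4 * (R : ℝ) ^ 2 := by nlinarith
          calc α s * ((s : ℝ) ^ 2 * (om X q / (s * q))) ≤ 1 * ((s : ℝ) ^ 2 * (om X q / (s * q))) :=
                mul_le_mul_of_nonneg_right (hα s).2 (by positivity)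
            _ = (s : ℝ) ^ 2 * (om X q / (s * q)) := one_mul _
            _ ≤ _ := mul_le_mul_of_nonneg_right e4 e3
      _ = 4 * (R : ℝ) ^ 2 * ∑ s ∈ IS R, ∑ q ∈ QS X, om X q / (s * q) := by
          rw [Finset.mul_sum]
          exact Finset.sum_congr rfl fun s _ => by rw [Finset.mul_sum]
      _ ≤ 4 * (R : ℝ) ^ 2 * (C₁ * FJ R X) := mul_le_mul_of_nonneg_left e1 (by positivity)
      _ = 4 * C₁ * ((R : ℝ) ^ 2 * FJ R X) := by ring
      _ ≤ (4 * C₁ + C₂ * C₃) * ((R : ℝ) ^ 2 * FJ R X) :=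
          mul_le_mul_of_nonneg_right (by linarith) (by positivity)
      _ = _ := by ring
  · have e1 := (h2 R hR).1
    have e2 := h3 X X hX (by
      calc (X : ℝ) ^ (0.99 : ℝ) ≤ (X : ℝ) ^ (1 : ℝ) :=
            Real.rpow_le_rpow_of_exponent_le hX1 (by norm_num)
        _ = X := Real.rpow_one _) le_rfl
    have e0 : 0 ≤ ∑ q ∈ QS X, om X q := Finset.sum_nonneg fun q _ => MK_om_nonneg _ _
    calc ∑ s ∈ IS R, ∑ q ∈ QS X, α s * om X q
        ≤ ∑ s ∈ IS R, ∑ q ∈ QS X, om X q :=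
          Finset.sum_le_sum fun s _ => Finset.sum_le_sum fun q _ =>
            mul_le_of_le_one_left (MK_om_nonneg _ _) (hα s).2
      _ = (#(IS R) : ℝ) * ∑ q ∈ QS X, om X q := by rw [Finset.sum_const, nsmul_eq_mul]
      _ ≤ (C₂ * R / Real.log R) * (C₃ * (X / Real.log X)) := by
          apply mul_le_mul e1 e2 e0 (by positivity)
      _ = C₂ * C₃ * (R * X * FJ R X) := by
          unfold FJ
          field_simp
      _ ≤ (4 * C₁ + C₂ * C₃) * (R * X * FJ R X) :=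
          mul_le_mul_of_nonneg_right (by linarith) (by positivity)
      _ = _ := by ring

end Pool.Agent.Lib.MP_bae66e_nt.MF
end
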