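import Pool.Agent.Lib.MP_bae66e_nt.Mg.G101
import Pool.Agent.Lib.MP_bae66e_nt.Mg.G020
import Pool.Agent.Lib.MP_bae66e_nt.Mg.G024
import Pool.Agent.Lib.MP_bae66e_nt.Mg.G022
import Pool.Agent.Lib.MP_bae66e_nt.Mg.G036

section

/-!
# Row FK: all even numbers up to `N` (port of EF/F)
-/

set_option autoImplicit false

namespace Pool.Agent.Lib.MP_bae66e_nt.MF

open Finset MeasureTheory Real
open Pool.Agent.E3
open Pool.Agent.Lib.MP_bae66e_nt.EF (PX Wt HR gA COREG)
open Pool.Agent.Lib.MP_bae66e_nt.LL (fP gW)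
open Pool.Agent.Lib.MP_bae66e_nt.AC (Sg VV)
open Pool.Agent.Lib.MP_bae66e_nt.AP3 (prI mem_prI)

/-- PROOF. `fP (HR R) t = log (HR R)` for the primes `t ≤ HR R`. -/
theorem SK_eq (R s m : ℕ) : SK R s m = Real.log (HR R) * ck R m s := by
  classical
  unfold SK ck
  rw [Finset.card_filter]
  push_cast
  rw [Finset.mul_sum]
  refine Finset.sum_congr rfl fun t ht => ?_
  rw [Finset.mem_Icc] at ht
  by_cases hp : t.Prime
  · by_cases hq : (s * m - t).Prime
    · have h5 : (t.Prime ∧ (s * m - t).Prime) := ⟨hp, hq⟩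
      rw [if_pos h5, if_pos hq, mul_one, mul_one]
      unfold fP
      rw [if_pos]
      refine ⟨by exact_mod_cast ht.1, by exact_mod_cast ht.2, ?_⟩
      simpa using hp
    · rw [if_neg hq, if_neg (fun h => hq h.2), mul_zero, mul_zero]
  · have h5 : ¬ (t.Prime ∧ (s * m - t).Prime) := fun h => hp h.1
    have h6 : fP (HR R) (t : ℤ) = 0 := by
      unfold fP
      rw [if_neg]
      rintro ⟨-, -, h⟩
      exact hp (by simpa using h)
    rw [if_neg h5, h6, zero_mul, mul_zero]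

/-- the arithmetic of one integer -/
private theorem FK_one (ε' C S s U P lX lN lR Sig cnt : ℝ) (hC : 1 ≤ C) (he : 0 < ε') (he1 : ε' ≤ 1 / 2)
    (hs : 0 < s) (hU : 0 < U) (hlX : 1 ≤ lX) (hlXN : lX ≤ lN) (hlR : 0 < lR) (hSig0 : 0 ≤ Sig)
    (hSig : Sig ≤ C / lR) (hS : |S - s| ≤ ε' * s) (hP : |P - U| ≤ ε' * U) (hlN : lN ≤ (1 + ε') * lX)
    (hc : |cnt - S * (U / lX) * Sig| ≤ ε' * (S * (U / (lX * lR)))) :
    |cnt - s * (P / lN) * Sig| ≤ 17 * C * ε' * (s * (P / (lN * lR))) := by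
  have hlX0 : 0 < lX := by linarith
  have hlN0 : 0 < lN := by linarith
  obtain ⟨hS1, hS2⟩ := abs_le.1 hS
  obtain ⟨hP1, hP2⟩ := abs_le.1 hP
  have hP0 : 0 < P := by nlinarith
  have hUP : U ≤ 2 * P := by nlinarith
  have hUX : U / lX ≤ 4 * (P / lN) := by
    rw [div_le_iff₀ hlX0, show 4 * (P / lN) * lX = 4 * P * lX / lN by ring, le_div_iff₀ hlN0]
    have h2 : lN ≤ 2 * lX := by nlinarith
    calc U * lN ≤ (2 * P) * (2 * lX) := mul_le_mul hUP h2 hlN0.le (by positivity)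
      _ = 4 * P * lX := by ring
  have hUX0 : 0 < U / lX := by positivity
  have hPN0 : 0 < P / lN := by positivity
  have hS3 : S ≤ 2 * s := by nlinarith
  -- first part
  have h1 : ε' * (S * (U / (lX * lR))) ≤ 8 * ε' * (s * (P / (lN * lR))) := by
    have e1 : U / (lX * lR) = U / lX / lR := by rw [div_div]
    have e2 : P / (lN * lR) = P / lN / lR := by rw [div_div]
    rw [e1, e2]
    calc ε' * (S * (U / lX / lR)) ≤ ε' * ((2 * s) * (4 * (P / lN) / lR)) := by
          refine mul_le_mul_of_nonneg_left ?_ he.le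
          refine mul_le_mul hS3 ?_ (by positivity) (by positivity)
          exact div_le_div_of_nonneg_right hUX hlR.le
      _ = _ := by ring
  -- second part
  have h2 : |S * (U / lX) - s * (P / lN)| ≤ 9 * ε' * (s * (P / lN)) := by
    have e1 : S * (U / lX) - s * (P / lN) = (S - s) * (U / lX) + s * ((U - P) / lX) +
        s * (P / lN * ((lN - lX) / lX)) := by
      field_simp
      ring
    have g1 : |(S - s) * (U / lX)| ≤ 4 * ε' * (s * (P / lN)) := by
      rw [abs_mul, abs_of_pos hUX0]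
      calc |S - s| * (U / lX) ≤ (ε' * s) * (4 * (P / lN)) :=
            mul_le_mul hS hUX hUX0.le (by positivity)
        _ = _ := by ring
    have g2 : |s * ((U - P) / lX)| ≤ 4 * ε' * (s * (P / lN)) := by
      rw [abs_mul, abs_of_pos hs, abs_div, abs_of_pos hlX0, abs_sub_comm]
      calc s * (|P - U| / lX) ≤ s * (ε' * U / lX) := by
            refine mul_le_mul_of_nonneg_left ?_ hs.le
            exact div_le_div_of_nonneg_right hP hlX0.le
        _ = ε' * s * (U / lX) := by ring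
        _ ≤ ε' * s * (4 * (P / lN)) := mul_le_mul_of_nonneg_left hUX (by positivity)
        _ = _ := by ring
    have g3 : |s * (P / lN * ((lN - lX) / lX))| ≤ ε' * (s * (P / lN)) := by
      have g4 : 0 ≤ (lN - lX) / lX := div_nonneg (by linarith) hlX0.le
      have g5 : (lN - lX) / lX ≤ ε' := by
        rw [div_le_iff₀ hlX0]
        linarith
      rw [abs_of_nonneg (by positivity)]
      calc s * (P / lN * ((lN - lX) / lX)) = (s * (P / lN)) * ((lN - lX) / lX) := by ring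
        _ ≤ (s * (P / lN)) * ε' := mul_le_mul_of_nonneg_left g5 (by positivity)
        _ = _ := by ring
    rw [e1]
    calc _ ≤ |(S - s) * (U / lX) + s * ((U - P) / lX)| + |s * (P / lN * ((lN - lX) / lX))| :=
          abs_add_le _ _
      _ ≤ |(S - s) * (U / lX)| + |s * ((U - P) / lX)| + |s * (P / lN * ((lN - lX) / lX))| := by
          gcongr
          exact abs_add_le _ _
      _ ≤ _ := by linarith
  have h3 : |S * (U / lX) * Sig - s * (P / lN) * Sig| ≤ 9 * C * ε' * (s * (P / (lN * lR))) := by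
    rw [← sub_mul, abs_mul, abs_of_nonneg hSig0]
    calc |S * (U / lX) - s * (P / lN)| * Sig ≤ (9 * ε' * (s * (P / lN))) * (C / lR) :=
          mul_le_mul h2 hSig hSig0 (by positivity)
      _ = _ := by
          field_simp
  have h4 : cnt - s * (P / lN) * Sig = (cnt - S * (U / lX) * Sig) +
      (S * (U / lX) * Sig - s * (P / lN) * Sig) := by ring
  rw [h4]
  have h5 : 0 ≤ ε' * (s * (P / (lN * lR))) := by positivity
  calc _ ≤ |cnt - S * (U / lX) * Sig| + |S * (U / lX) * Sig - s * (P / lN) * Sig| := abs_add_le _ _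
    _ ≤ 8 * ε' * (s * (P / (lN * lR))) + 9 * C * ε' * (s * (P / (lN * lR))) :=
        add_le_add (hc.trans h1) h3
    _ ≤ _ := by nlinarith

/-- PROOF. As `fing_of` (EF/F; its private lemmas can be copied), with `cntK α R m = (1/log H) ∑ α s SK R s m`, `pi_near`, `singa`, and `#(IS R) ≤ C R/log R` in place of `recip_IS`. -/
theorem fink_of (a : ℝ) (ha : 3 ≤ a) (h : FIRK a) : FINK a := by
  classical
  intro ε δ hε hδ
  obtain ⟨C, hC, hrec⟩ := IS_bounds
  -- the constants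
  set ε' : ℝ := min (1 / 2) (ε / (17 * C)) with hε'
  have he0 : 0 < ε' := lt_min (by norm_num) (by positivity)
  have he1 : ε' ≤ 1 / 2 := min_le_left _ _
  have he2 : 17 * C * ε' ≤ ε := by
    have h1 : ε' ≤ ε / (17 * C) := min_le_right _ _
    rw [le_div_iff₀ (by positivity)] at h1
    linarith
  obtain ⟨κ, hκ0, hκ1, hcount⟩ := h ε' he0
  set b : ℝ := 1 + κ / 2 with hb
  have hb1 : 1 < b := by
    rw [hb]
    linarith
  have hb0 : 0 < b := by linarith
  obtain ⟨J, hJ⟩ : ∃ J : ℕ, 4 / δ < b ^ J := pow_unbounded_of_one_lt _ hb1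
  have hbJ : 0 < b ^ J := by positivity
  set δ' : ℝ := δ / (4 * (J + 1)) with hδ'
  have hδ'0 : 0 < δ' := by positivity
  obtain ⟨w₁, hw₁⟩ := hcount δ' hδ'0
  obtain ⟨w₂, hw₂⟩ := EF.singa ε' (δ / 4) he0 (by positivity)
  set w := max w₁ (max w₂ 2) with hw
  have hwa : w₁ ≤ w := le_max_left _ _
  have hwb : w₂ ≤ w := (le_max_left _ _).trans (le_max_right _ _)
  have hwc : 2 ≤ w := (le_max_right _ _).trans (le_max_right _ _)
  obtain ⟨X₀, hX₀⟩ := hw₁ w hwa
  obtain ⟨R₀, hR₀, hpi⟩ := EF.pi_near ε' he0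
  -- the parameters
  set c : ℝ := 1 / (2 * b ^ J) with hc
  have hc0 : 0 < c := by positivity
  have hc1 : c ≤ 1 := by
    rw [hc, div_le_one (by positivity)]
    have : 1 ≤ b ^ J := one_le_pow₀ hb1.le
    linarith
  set K : ℝ := X₀ + R₀ + b / (κ / 2) + 1 with hK
  have hbk : 0 < b / (κ / 2) := by positivity
  obtain ⟨N₁, hN₁⟩ := EF.F_par a c K ε' ha hc0 hc1 he0
  obtain ⟨N₂, hN₂⟩ := exists_nat_ge (2 * b ^ J)
  refine ⟨max N₁ (max N₂ 1), fun N hN α hα R hRlo hRup => ?_⟩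
  have hNa : N₁ ≤ N := (le_max_left _ _).trans hN
  have hNb : N₂ ≤ N := ((le_max_left _ _).trans (le_max_right _ _)).trans hN
  have hNc : 1 ≤ N := ((le_max_right _ _).trans (le_max_right _ _)).trans hN
  have hNr : (0 : ℝ) < N := by exact_mod_cast hNc
  have hNbig : 2 * b ^ J ≤ N := hN₂.trans (by exact_mod_cast hNb)
  -- the blocks
  set X : ℕ → ℕ := fun j => ⌊(N : ℝ) / b ^ (j + 1)⌋₊ with hX
  have hXle : ∀ j, (X j : ℝ) ≤ (N : ℝ) / b ^ (j + 1) := fun j => Nat.floor_le (by positivity)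
  have hXN : ∀ j, X j ≤ N := by
    intro j
    have h1 : (X j : ℝ) ≤ N := (hXle j).trans (div_le_self hNr.le (one_le_pow₀ hb1.le))
    exact_mod_cast h1
  have hXc : ∀ j < J, c * N ≤ X j := by
    intro j hj
    have h1 : (N : ℝ) / b ^ (j + 1) - 1 < X j := by
      have := Nat.lt_floor_add_one ((N : ℝ) / b ^ (j + 1))
      linarith
    have h2 : (N : ℝ) / b ^ J ≤ (N : ℝ) / b ^ (j + 1) := by
      apply div_le_div_of_nonneg_left hNr.le (by positivity)
      exact pow_le_pow_right₀ hb1.le hj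
    have h3 : c * N = (N : ℝ) / b ^ J / 2 := by
      rw [hc]
      field_simp
    have h4 : 2 ≤ (N : ℝ) / b ^ J := by
      rw [le_div_iff₀ hbJ]
      linarith
    rw [h3]
    linarith
  have hpar : ∀ j < J, K ≤ X j ∧ 4 ≤ Real.log N ∧ 1 ≤ Real.log (X j) ∧ PX a R (X j) ∧
      Real.log N ≤ (1 + ε') * Real.log (X j) ∧ K ≤ R := by
    intro j hj
    exact hN₁ N hNa R hRlo hRup (X j) (hXc j hj) (hXN j)
  -- the exceptional sets
  set Bad : ℕ → Finset ℕ := fun j => {m ∈ Icc (X j) (2 * X j) | Even m ∧ ((m : ℕ) : ℝ) ≤ (1 + κ) * X j ∧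
      ε' * (Sg (primorial w) m * GK R (X j)) <
        |∑ s ∈ IS R, α s * SK R s m - Sg (primorial w) m * (HR R / Real.log (X j) * ∑ s ∈ IS R, α s)|} with hBad
  set BS : Finset ℕ := {m ∈ Icc 1 N | Even m ∧ ε' * Pool.Agent.MG.sing m <
    |Sg (primorial w) m - Pool.Agent.MG.sing m|} with hBS
  set Sm : Finset ℕ := {m ∈ Icc 1 N | ((m : ℕ) : ℝ) ≤ δ / 4 * N} with hSm
  have hBadc : ∀ j < J, (#(Bad j) : ℝ) ≤ δ' * N := by
    intro j hj
    obtain ⟨h1, -, -, h4, -, -⟩ := hpar j hj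
    have h5 : X₀ ≤ X j := by
      have h6 : (X₀ : ℝ) ≤ X j := by
        have : (0 : ℝ) ≤ R₀ := Nat.cast_nonneg _
        linarith
      exact_mod_cast h6
    refine (hX₀ (X j) h5 R h4 α hα).trans ?_
    exact mul_le_mul_of_nonneg_left (by exact_mod_cast hXN j) hδ'0.le
  have hBSc : (BS.card : ℝ) ≤ δ / 4 * N := hw₂ w hwb N
  have hSmc : (Sm.card : ℝ) ≤ δ / 4 * N := by
    have h1 : Sm ⊆ Icc 1 ⌊δ / 4 * N⌋₊ := by
      intro m hm
      rw [hSm, Finset.mem_filter, Finset.mem_Icc] at hm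
      rw [Finset.mem_Icc]
      exact ⟨hm.1.1, Nat.le_floor hm.2⟩
    calc (Sm.card : ℝ) ≤ (#(Icc 1 ⌊δ / 4 * (N : ℝ)⌋₊) : ℝ) := by exact_mod_cast Finset.card_le_card h1
      _ = (⌊δ / 4 * (N : ℝ)⌋₊ : ℝ) := by
          rw [Nat.card_Icc, Nat.add_sub_cancel]
      _ ≤ δ / 4 * N := Nat.floor_le (by positivity)
  -- the inclusion
  set Fin : Finset ℕ := {m ∈ Icc 1 N | Even m ∧
      ε * (Pool.Agent.MG.sing m * (Nat.primeCounting (HR R) * R / (Real.log N * Real.log R))) <
        |cntK α R m - Pool.Agent.MG.sing m * (Nat.primeCounting (HR R) / Real.log N) *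
          ∑ s ∈ IS R, α s|} with hFin
  have hsub : Fin ⊆ Sm ∪ (BS ∪ (range J).biUnion Bad) := by
    intro m hm
    rw [hFin, Finset.mem_filter] at hm
    obtain ⟨hm1, hm2, hm3⟩ := hm
    rw [Finset.mem_Icc] at hm1
    by_contra hcon
    rw [Finset.mem_union, Finset.mem_union, not_or, not_or] at hcon
    obtain ⟨hc1', hc2', hc3'⟩ := hcon
    have hmbig : δ / 4 * N < m := by
      by_contra h1
      rw [not_lt] at h1
      exact hc1' (Finset.mem_filter.2 ⟨Finset.mem_Icc.2 hm1, h1⟩)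
    have hmS : |Sg (primorial w) m - Pool.Agent.MG.sing m| ≤ ε' * Pool.Agent.MG.sing m := by
      by_contra h1
      rw [not_le] at h1
      exact hc2' (Finset.mem_filter.2 ⟨Finset.mem_Icc.2 hm1, hm2, h1⟩)
    have hmJ : (N : ℝ) / b ^ J < m := by
      refine lt_of_le_of_lt ?_ hmbig
      rw [div_le_iff₀ hbJ]
      have h1 : 4 / δ ≤ b ^ J := hJ.le
      rw [div_le_iff₀ hδ] at h1
      nlinarith
    obtain ⟨j, hj, hj1, hj2⟩ := EF.F_cover b J N m (by exact_mod_cast hm1.2) hmJ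
    obtain ⟨g1, g2, g3, g4, g5, g6⟩ := hpar j hj
    have hXm : X j ≤ m := by
      have h1 : (X j : ℝ) ≤ m := (hXle j).trans hj1.le
      exact_mod_cast h1
    have hXr : (0 : ℝ) ≤ X j := Nat.cast_nonneg _
    have hR0 : (0 : ℝ) ≤ R₀ := Nat.cast_nonneg _
    have hX00 : (0 : ℝ) ≤ X₀ := Nat.cast_nonneg _
    have hm4 : (m : ℝ) ≤ (1 + κ) * X j := by
      have h1 : (N : ℝ) / b ^ (j + 1) < X j + 1 := Nat.lt_floor_add_one _
      have h2 : (N : ℝ) / b ^ j = b * ((N : ℝ) / b ^ (j + 1)) := by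
        rw [pow_succ]
        field_simp
      have h3 : b ≤ κ / 2 * X j := by
        have h4 : b / (κ / 2) ≤ X j := by linarith
        rw [div_le_iff₀ (by positivity)] at h4
        linarith
      calc (m : ℝ) ≤ b * ((N : ℝ) / b ^ (j + 1)) := hj2.trans_eq h2
        _ ≤ b * (X j + 1) := mul_le_mul_of_nonneg_left h1.le hb0.le
        _ = X j + κ / 2 * X j + b := by
            rw [hb]
            ring
        _ ≤ (1 + κ) * X j := by linarith
    have hm5 : m ≤ 2 * X j := by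
      have h1 : (m : ℝ) ≤ 2 * X j := hm4.trans (by nlinarith)
      exact_mod_cast h1
    have hmB : |∑ s ∈ IS R, α s * SK R s m - Sg (primorial w) m * (HR R / Real.log (X j) * ∑ s ∈ IS R, α s)| ≤
        ε' * (Sg (primorial w) m * GK R (X j)) := by
      by_contra h1
      rw [not_le] at h1
      apply hc3'
      rw [Finset.mem_biUnion]
      exact ⟨j, Finset.mem_range.2 hj, Finset.mem_filter.2 ⟨Finset.mem_Icc.2 ⟨hXm, hm5⟩, hm2, hm4, h1⟩⟩
    have hRR : R₀ ≤ R := by
      have h1 : (R₀ : ℝ) ≤ R := by linarith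
      exact_mod_cast h1
    have hR2 : 2 ≤ R := hR₀.trans hRR
    have hRr : (2 : ℝ) ≤ R := by exact_mod_cast hR2
    have hlR : 0 < Real.log R := Real.log_pos (by linarith)
    have hH2 : 2 ≤ HR R := by
      unfold HR
      nlinarith
    have hHr : (2 : ℝ) ≤ (HR R : ℝ) := by exact_mod_cast hH2
    have hlH : 0 < Real.log (HR R) := Real.log_pos (by linarith)
    have hsing : 0 < Pool.Agent.MG.sing m := by
      have h1 := (AC.one_le_Sg w m hwc hm2).1
      obtain ⟨h2, h3⟩ := abs_le.1 hmS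
      nlinarith
    have hR00 : (0 : ℝ) < R := by linarith
    have hSig := (hrec R hR2).1
    have hSig0 : 0 ≤ (∑ s ∈ IS R, α s) / R :=
      div_nonneg (Finset.sum_nonneg fun s _ => (hα s).1) hR00.le
    have hSig1 : (∑ s ∈ IS R, α s) / R ≤ C / Real.log R := by
      have k1 : ∑ s ∈ IS R, α s ≤ ((IS R).card : ℝ) := by
        calc ∑ s ∈ IS R, α s ≤ ∑ _s ∈ IS R, (1 : ℝ) := Finset.sum_le_sum fun s _ => (hα s).2
          _ = ((IS R).card : ℝ) := by
              rw [Finset.sum_const, nsmul_eq_mul, mul_one]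
      rw [div_le_iff₀ hR00]
      refine (k1.trans hSig).trans (le_of_eq ?_)
      ring
    have hlX0 : 0 < Real.log (X j) := by linarith
    have hsum : ∑ s ∈ IS R, α s * SK R s m = Real.log (HR R) * cntK α R m := by
      unfold cntK
      rw [Finset.mul_sum]
      refine Finset.sum_congr rfl fun s _ => ?_
      rw [SK_eq]
      ring
    have hmC : |cntK α R m / R - Sg (primorial w) m * (HR R / Real.log (HR R) / Real.log (X j)) *
        ((∑ s ∈ IS R, α s) / R)| ≤
        ε' * (Sg (primorial w) m * (HR R / Real.log (HR R) / (Real.log (X j) * Real.log R))) := by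
      have k1 : cntK α R m / R - Sg (primorial w) m * (HR R / Real.log (HR R) / Real.log (X j)) *
          ((∑ s ∈ IS R, α s) / R) = (∑ s ∈ IS R, α s * SK R s m -
            Sg (primorial w) m * (HR R / Real.log (X j) * ∑ s ∈ IS R, α s)) / (Real.log (HR R) * R) := by
        rw [hsum]
        field_simp
      have k2 : ε' * (Sg (primorial w) m * (HR R / Real.log (HR R) / (Real.log (X j) * Real.log R))) =
          ε' * (Sg (primorial w) m * GK R (X j)) / (Real.log (HR R) * R) := by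
        unfold GK
        field_simp
      rw [k1, k2, abs_div, abs_of_pos (by positivity : 0 < Real.log (HR R) * (R : ℝ))]
      exact div_le_div_of_nonneg_right hmB (by positivity)
    have hlXN : Real.log (X j) ≤ Real.log N := by
      apply Real.log_le_log
      · have : (0 : ℝ) < X j := by linarith
        exact this
      · exact_mod_cast hXN j
    have hfin := FK_one ε' C (Sg (primorial w) m) (Pool.Agent.MG.sing m) (HR R / Real.log (HR R))
      (Nat.primeCounting (HR R)) (Real.log (X j)) (Real.log N) (Real.log R) ((∑ s ∈ IS R, α s) / R)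
      (cntK α R m / R) hC he0 he1 hsing (by positivity) g3 hlXN hlR hSig0 hSig1 hmS (hpi R hRR) g5 hmC
    have hlN0 : 0 < Real.log N := by linarith
    have hP0 : (0 : ℝ) ≤ Pool.Agent.MG.sing m *
        ((Nat.primeCounting (HR R) : ℝ) / (Real.log N * Real.log R)) := by
      positivity
    have hfin2 := hfin.trans (mul_le_mul_of_nonneg_right he2 hP0)
    have k3 : cntK α R m / R - Pool.Agent.MG.sing m * ((Nat.primeCounting (HR R) : ℝ) / Real.log N) *
        ((∑ s ∈ IS R, α s) / R) = (cntK α R m - Pool.Agent.MG.sing m *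
          ((Nat.primeCounting (HR R) : ℝ) / Real.log N) * ∑ s ∈ IS R, α s) / R := by
      ring
    rw [k3, abs_div, abs_of_pos hR00, div_le_iff₀ hR00] at hfin2
    have k4 : ε * (Pool.Agent.MG.sing m * ((Nat.primeCounting (HR R) : ℝ) / (Real.log N * Real.log R))) * R =
        ε * (Pool.Agent.MG.sing m * (Nat.primeCounting (HR R) * R / (Real.log N * Real.log R))) := by
      ring
    rw [k4] at hfin2
    linarith
  calc (Fin.card : ℝ) ≤ (#(Sm ∪ (BS ∪ (range J).biUnion Bad)) : ℝ) := by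
        exact_mod_cast Finset.card_le_card hsub
    _ ≤ (Sm.card : ℝ) + ((BS.card : ℝ) + (#((range J).biUnion Bad) : ℝ)) := by
        have h1 := Finset.card_union_le Sm (BS ∪ (range J).biUnion Bad)
        have h2 := Finset.card_union_le BS ((range J).biUnion Bad)
        exact_mod_cast h1.trans (Nat.add_le_add_left h2 _)
    _ ≤ δ / 4 * N + (δ / 4 * N + J * (δ' * N)) := by
        have h3 : (#((range J).biUnion Bad) : ℝ) ≤ J * (δ' * N) := by
          calc (#((range J).biUnion Bad) : ℝ) ≤ ((∑ j ∈ range J, #(Bad j) : ℕ) : ℝ) := by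
                exact_mod_cast Finset.card_biUnion_le
            _ = ∑ j ∈ range J, (#(Bad j) : ℝ) := by push_cast; rfl
            _ ≤ ∑ _j ∈ range J, δ' * N :=
                Finset.sum_le_sum fun j hj => hBadc j (Finset.mem_range.1 hj)
            _ = J * (δ' * N) := by
                rw [Finset.sum_const, Finset.card_range, nsmul_eq_mul]
        linarith
    _ ≤ δ * N := by
        have h4 : (J : ℝ) * (δ' * N) ≤ δ / 4 * N := by
          have h5 : (J : ℝ) * δ' ≤ δ / 4 := by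
            rw [hδ', mul_div_assoc', div_le_div_iff₀ (by positivity) (by norm_num)]
            nlinarith
          calc (J : ℝ) * (δ' * N) = ((J : ℝ) * δ') * N := by ring
            _ ≤ δ / 4 * N := mul_le_mul_of_nonneg_right h5 hNr.le
        have h6 : 0 ≤ δ / 4 * N := by positivity
        linarith

end Pool.Agent.Lib.MP_bae66e_nt.MF
end

section

/-!
# Row Q3: many `s` (port of EF/Q3)
-/

set_option autoImplicit false

namespace Pool.Agent.Lib.MP_bae66e_nt.MF

open Finset MeasureTheory Real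
open Pool.Agent.E3
open Pool.Agent.Lib.MP_bae66e_nt.EF (PX Wt HR gA COREG)
open Pool.Agent.Lib.MP_bae66e_nt.LL (fP gW)
open Pool.Agent.Lib.MP_bae66e_nt.AC (Sg VV)
open Pool.Agent.Lib.MP_bae66e_nt.AP3 (prI mem_prI)

/-- the parameters of a dyadic interval -/
private theorem QK_par (a K : ℝ) (J : ℕ) (ha : 3 ≤ a) :
    ∃ N₀ : ℕ, ∀ N : ℕ, N₀ ≤ N → ∀ R : ℕ, (Real.log N) ^ (a - 1 / 4) ≤ R →
      (R : ℝ) ≤ (Real.log N) ^ (a + 1 / 4) → ∀ X : ℕ, X ≤ N + 1 → (N : ℝ) ≤ 2 ^ (J + 1) * X →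
      K ≤ X ∧ 4 ≤ Real.log N ∧ Real.log N ≤ 2 * Real.log X ∧ PX a R X ∧ K ≤ R := by
  have hl2 := Real.log_two_gt_d9
  have hl2' := Real.log_two_lt_d9
  set c₁ : ℝ := (J + 1) * Real.log 2 with hc₁
  have hc₁0 : 0 ≤ c₁ := by positivity
  set D : ℝ := ((2 : ℝ) ^ (a + 1 / 4)) ^ 4 with hD
  have hD0 : 0 < D := by positivity
  have hK0 := abs_nonneg K
  have hKa := le_abs_self K
  set L₀ : ℝ := 4 + 2 * c₁ + 2 * D + 2 ^ (J + 1) * |K| + |K| + 1 with hL₀
  have hJK : 0 ≤ 2 ^ (J + 1) * |K| := by positivity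
  have hlim : Filter.Tendsto (fun N : ℕ => Real.log (N : ℝ)) Filter.atTop Filter.atTop :=
    Real.tendsto_log_atTop.comp tendsto_natCast_atTop_atTop
  obtain ⟨N₁, hN₁⟩ := Filter.eventually_atTop.1 (hlim.eventually_ge_atTop L₀)
  refine ⟨max N₁ 1, fun N hN R hRlo hRup X hX2 hX1 => ?_⟩
  have hNa : N₁ ≤ N := (le_max_left _ _).trans hN
  have hNc : 1 ≤ N := (le_max_right _ _).trans hN
  have hL := hN₁ N hNa
  have hNr : (0 : ℝ) < N := by exact_mod_cast hNc
  have hNr1 : (1 : ℝ) ≤ N := by exact_mod_cast hNc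
  have hLN : Real.log N ≤ N := by
    have := Real.log_le_sub_one_of_pos hNr
    linarith
  set L := Real.log N with hLdef
  have hXr : (0 : ℝ) < X := by
    by_contra h
    have h1 : (X : ℝ) ≤ 0 := not_lt.1 h
    have h2 : (2 : ℝ) ^ (J + 1) * X ≤ 0 := mul_nonpos_of_nonneg_of_nonpos (by positivity) h1
    linarith
  have hlX : L - c₁ ≤ Real.log X := by
    have h1 : Real.log N ≤ Real.log (2 ^ (J + 1) * X) := Real.log_le_log hNr hX1
    rw [Real.log_mul (by positivity) hXr.ne', Real.log_pow] at h1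
    push_cast at h1
    linarith
  have hL0 : 4 ≤ L := by linarith
  have hlX2 : Real.log X ≤ 2 * L := by
    have h1 : (X : ℝ) ≤ 2 * N := by
      have : (X : ℝ) ≤ N + 1 := by exact_mod_cast hX2
      linarith
    have h2 : Real.log X ≤ Real.log (2 * N) := Real.log_le_log hXr h1
    rw [Real.log_mul (by norm_num) hNr.ne'] at h2
    linarith
  have hKX : K ≤ X := by
    have h1 : 2 ^ (J + 1) * |K| ≤ 2 ^ (J + 1) * X := by linarith
    have h2 := le_of_mul_le_mul_left h1 (by positivity : (0 : ℝ) < 2 ^ (J + 1))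
    linarith
  have hhalf : L ≤ 2 * Real.log X := by linarith
  have hlX1 : 1 ≤ Real.log X := by linarith
  have hLa : L ≤ L ^ (a - 1 / 4) := by
    calc L = L ^ (1 : ℝ) := (Real.rpow_one L).symm
      _ ≤ L ^ (a - 1 / 4) := Real.rpow_le_rpow_of_exponent_le (by linarith) (by linarith)
  have hD4 : (2 : ℝ) ^ (a + 1 / 4) = D ^ (1 / 4 : ℝ) := by
    rw [hD, ← Real.rpow_natCast, ← Real.rpow_mul (by positivity)]
    norm_num
  refine ⟨hKX, hL0, hhalf, ⟨?_, ?_⟩, by linarith⟩
  · refine le_trans ?_ hRlo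
    have h1 : (Real.log X) ^ (a - 1 / 2) ≤ (2 * L) ^ (a - 1 / 2) :=
      Real.rpow_le_rpow (by linarith) hlX2 (by linarith)
    refine h1.trans ?_
    rw [Real.mul_rpow (by norm_num) (by linarith)]
    have h2 : (2 : ℝ) ^ (a - 1 / 2) ≤ (2 : ℝ) ^ (a + 1 / 4) :=
      Real.rpow_le_rpow_of_exponent_le (by norm_num) (by linarith)
    have h3 : D ^ (1 / 4 : ℝ) ≤ L ^ (1 / 4 : ℝ) :=
      Real.rpow_le_rpow hD0.le (by linarith) (by norm_num)
    have h4 : L ^ (a - 1 / 4) = L ^ (1 / 4 : ℝ) * L ^ (a - 1 / 2) := by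
      rw [← Real.rpow_add (by linarith)]
      congr 1
      ring
    rw [h4]
    refine mul_le_mul_of_nonneg_right ?_ (Real.rpow_nonneg (by linarith) _)
    rw [hD4] at h2
    exact h2.trans h3
  · refine hRup.trans ?_
    have h1 : L ^ (a + 1 / 4) ≤ (2 * Real.log X) ^ (a + 1 / 4) :=
      Real.rpow_le_rpow (by linarith) hhalf (by linarith)
    refine h1.trans ?_
    have h5 : Real.log X ^ (a + 1 / 2) = Real.log X ^ (1 / 4 : ℝ) * Real.log X ^ (a + 1 / 4) := by
      rw [← Real.rpow_add (by linarith)]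
      congr 1
      ring
    rw [Real.mul_rpow (by norm_num) (by linarith), h5]
    have h3 : D ^ (1 / 4 : ℝ) ≤ (Real.log X) ^ (1 / 4 : ℝ) :=
      Real.rpow_le_rpow hD0.le (by linarith) (by norm_num)
    rw [hD4]
    exact mul_le_mul_of_nonneg_right h3 (Real.rpow_nonneg (by linarith) _)

/-- the arithmetic of one integer -/
private theorem QK_one (I : Finset ℕ) (f : ℕ → ℝ) (c C C₃ E R l : ℝ) (hE : 0 < E) (hR : 0 < R) (hl : 0 < l)
    (hc0 : 0 < c) (hC : 0 < C) (hC₃ : 0 < C₃) (hc : 32 * C₃ * c ≤ 1) (hc' : 16384 * C * C₃ * c ≤ 1)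
    (h1 : 3 / 32 * (E * R / l) ≤ ∑ s ∈ I, f s)
    (h3 : ∑ s ∈ I, (f s) ^ 2 ≤ 64 * C * E ^ 2 * R / l) (h4 : (I.card : ℝ) ≤ C₃ * R / l) :
    c * (I.card : ℝ) ≤ ((I.filter (fun s => c * E ≤ f s)).card : ℝ) := by
  classical
  set G : Finset ℕ := I.filter (fun s => c * E ≤ f s) with hG
  have g1 : ∑ s ∈ I, f s ≤ (∑ s ∈ G, f s) + 1 / 32 * (E * R / l) := by
    rw [hG, ← Finset.sum_filter_add_sum_filter_not I (fun s => c * E ≤ f s)]
    have k2 : ∑ s ∈ I with ¬ c * E ≤ f s, f s ≤ c * E * (C₃ * R / l) := by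
      calc ∑ s ∈ I with ¬ c * E ≤ f s, f s
          ≤ ∑ s ∈ I with ¬ c * E ≤ f s, c * E :=
            Finset.sum_le_sum fun s hs => (not_le.1 (Finset.mem_filter.1 hs).2).le
        _ ≤ ∑ s ∈ I, c * E :=
            Finset.sum_le_sum_of_subset_of_nonneg (Finset.filter_subset _ _) fun s _ _ => by positivity
        _ = c * E * (I.card : ℝ) := by
            rw [Finset.sum_const, nsmul_eq_mul]
            ring
        _ ≤ c * E * (C₃ * R / l) := mul_le_mul_of_nonneg_left h4 (by positivity)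
    have k3 : c * E * (C₃ * R / l) ≤ 1 / 32 * (E * R / l) := by
      have k4 : c * E * (C₃ * R / l) = (32 * C₃ * c) * (1 / 32 * (E * R / l)) := by ring
      rw [k4]
      exact mul_le_of_le_one_left (by positivity) hc
    linarith
  have g2 : 1 / 16 * (E * R / l) ≤ ∑ s ∈ G, f s := by linarith
  have g3 : (∑ s ∈ G, f s) ^ 2 ≤ (G.card : ℝ) * ∑ s ∈ G, (f s) ^ 2 := sq_sum_le_card_mul_sum_sq
  have g4 : ∑ s ∈ G, (f s) ^ 2 ≤ 64 * C * E ^ 2 * R / l :=
    (Finset.sum_le_sum_of_subset_of_nonneg (Finset.filter_subset _ _) fun _ _ _ => sq_nonneg _).trans h3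
  have g5 : (1 / 16 * (E * R / l)) ^ 2 ≤ (G.card : ℝ) * (64 * C * E ^ 2 * R / l) :=
    (pow_le_pow_left₀ (by positivity) g2 2).trans
      (g3.trans (mul_le_mul_of_nonneg_left g4 (Nat.cast_nonneg _)))
  have g6 : R / (16384 * C * l) * (64 * C * E ^ 2 * R / l) ≤ (G.card : ℝ) * (64 * C * E ^ 2 * R / l) := by
    refine le_trans (le_of_eq ?_) g5
    field_simp
    norm_num
  have g7 : R / (16384 * C * l) ≤ (G.card : ℝ) := le_of_mul_le_mul_right g6 (by positivity)
  calc c * (I.card : ℝ) ≤ c * (C₃ * R / l) := mul_le_mul_of_nonneg_left h4 hc0.le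
    _ = (16384 * C * C₃ * c) * (R / (16384 * C * l)) := by
        field_simp
    _ ≤ R / (16384 * C * l) := mul_le_of_le_one_left (by positivity) hc'
    _ ≤ _ := g7

/-- the second moment -/
private theorem QK_sec (C S s H P R lH lN lX lR A : ℝ) (hC : 0 < C) (hS0 : 0 ≤ S) (hS : S ≤ 2 * s) (hR : 0 < R)
    (hlR : 0 < lR) (hlH : 0 < lH) (hlN : 0 < lN) (hlX : lN ≤ 2 * lX) (hH : 0 < H) (hP : H / lH ≤ 2 * P)
    (h : lH ^ 2 * A ≤ C * S ^ 2 * (R / lR) * (H / lX) ^ 2) :
    A ≤ 64 * C * (s * (P / lN)) ^ 2 * R / lR := by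
  have hlX0 : 0 < lX := by linarith
  have h1 : A ≤ C * S ^ 2 * (R / lR) * (H / lX) ^ 2 / lH ^ 2 := by
    rw [le_div_iff₀ (by positivity)]
    linarith
  have h2 : C * S ^ 2 * (R / lR) * (H / lX) ^ 2 / lH ^ 2 =
      C * (S * ((H / lH) / lX)) ^ 2 * R / lR := by
    field_simp
  have h3 : (H / lH) / lX ≤ 4 * (P / lN) := by
    rw [div_le_iff₀ hlX0, show 4 * (P / lN) * lX = (2 * P) * (2 * lX / lN) by ring]
    have h4 : 1 ≤ 2 * lX / lN := by
      rw [le_div_iff₀ hlN]
      linarith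
    have h5 : 0 ≤ 2 * P := le_trans (by positivity) hP
    calc H / lH ≤ 2 * P := hP
      _ ≤ (2 * P) * (2 * lX / lN) := le_mul_of_one_le_right h5 h4
  have h6 : S * ((H / lH) / lX) ≤ 8 * (s * (P / lN)) := by
    have hP0 : 0 ≤ P / lN := by
      have : 0 ≤ 2 * P := le_trans (by positivity) hP
      have : 0 ≤ P := by linarith
      positivity
    calc S * ((H / lH) / lX) ≤ S * (4 * (P / lN)) := mul_le_mul_of_nonneg_left h3 hS0
      _ ≤ (2 * s) * (4 * (P / lN)) := mul_le_mul_of_nonneg_right hS (by positivity)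
      _ = 8 * (s * (P / lN)) := by ring
  rw [h2] at h1
  refine h1.trans ?_
  have h7 : 0 ≤ S * ((H / lH) / lX) := by positivity
  have h8 := pow_le_pow_left₀ h7 h6 2
  refine div_le_div_of_nonneg_right ?_ hlR.le
  calc C * (S * ((H / lH) / lX)) ^ 2 * R ≤ C * (8 * (s * (P / lN))) ^ 2 * R :=
        mul_le_mul_of_nonneg_right (mul_le_mul_of_nonneg_left h8 hC.le) hR.le
    _ = 64 * C * (s * (P / lN)) ^ 2 * R := by ring

/-- PROOF. As `posf_of` (EF/Q3), with `SK_eq`, `#(IS R)` (between `R/(8 log R)` by `recip_IS_ge` and `C R/log R` by `IS_bounds`) in place of `∑ 1/s`. -/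
theorem posk_of (C : ℝ) (hC : 1 ≤ C) : ∃ c : ℝ, 0 < c ∧ ∀ a : ℝ, 3 ≤ a → FINK a → SECK C a → POSK c a := by
  classical
  obtain ⟨C₃, hC₃, hIS⟩ := IS_bounds
  obtain ⟨R₁, hR₁2, hrecge⟩ := recip_IS_ge
  obtain ⟨R₂, hR₂2, hpi⟩ := EF.pi_near (1 / 2) (by norm_num)
  have hC0 : 0 < C := by linarith
  have hC₃0 : 0 < C₃ := by linarith
  refine ⟨1 / (16384 * C * C₃), by positivity, fun a ha h1 h2 δ hδ => ?_⟩
  set c : ℝ := 1 / (16384 * C * C₃) with hcd
  have hc0 : 0 < c := by positivity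
  have hc1 : 16384 * C * C₃ * c ≤ 1 := by
    rw [hcd]
    refine le_of_eq ?_
    field_simp
  have hc2 : 32 * C₃ * c ≤ 1 := by
    refine le_trans ?_ hc1
    refine mul_le_mul_of_nonneg_right ?_ hc0.le
    nlinarith
  obtain ⟨J, hJ1, hcov⟩ := EF.dy_cover (δ / 4) (by positivity)
  have hJ0 : (0 : ℝ) < J := by exact_mod_cast hJ1
  obtain ⟨w₁, hw₁⟩ := h2 (δ / (8 * J)) (by positivity)
  obtain ⟨w₂, hw₂⟩ := EF.singa 1 (δ / 4) one_pos (by positivity)
  set w := max w₁ (max w₂ 2) with hw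
  have hwa : w₁ ≤ w := le_max_left _ _
  have hwb : w₂ ≤ w := (le_max_left _ _).trans (le_max_right _ _)
  have hwc : 2 ≤ w := (le_max_right _ _).trans (le_max_right _ _)
  obtain ⟨X₀, hX₀⟩ := hw₁ w hwa
  obtain ⟨N₁, hN₁⟩ := h1 (1 / 32) (δ / 4) (by norm_num) (by positivity)
  obtain ⟨N₂, hN₂⟩ := QK_par a (X₀ + R₁ + R₂ + 1) J ha
  refine ⟨max N₁ (max N₂ 1), fun N hN R hRlo hRup => ?_⟩
  have hNa : N₁ ≤ N := (le_max_left _ _).trans hN
  have hNb : N₂ ≤ N := ((le_max_left _ _).trans (le_max_right _ _)).trans hN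
  have hNc : 1 ≤ N := ((le_max_right _ _).trans (le_max_right _ _)).trans hN
  have hNr : (1 : ℝ) ≤ N := by exact_mod_cast hNc
  obtain ⟨X, hXN, hXlo, hXcov⟩ := hcov N
  have hpar : ∀ j < J, (X₀ + R₁ + R₂ + 1 : ℝ) ≤ X j ∧ 4 ≤ Real.log N ∧ Real.log N ≤ 2 * Real.log (X j) ∧
      PX a R (X j) ∧ (X₀ + R₁ + R₂ + 1 : ℝ) ≤ R := by
    intro j hj
    exact hN₂ N hNb R hRlo hRup (X j) (hXN j) (hXlo j hj)
  have n1 : (0 : ℝ) ≤ X₀ := Nat.cast_nonneg _
  have n2 : (0 : ℝ) ≤ R₁ := Nat.cast_nonneg _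
  have n3 : (0 : ℝ) ≤ R₂ := Nat.cast_nonneg _
  have hW1 : Wt (fun _ => (1 : ℝ)) := fun _ => ⟨zero_le_one, le_rfl⟩
  -- the exceptional sets
  set Bad : ℕ → Finset ℕ := fun j => {m ∈ Icc (X j) (2 * X j) | Even m ∧
      C * (Sg (primorial w) m) ^ 2 * (R / Real.log R) * (HR R / Real.log (X j)) ^ 2 <
        ∑ s ∈ IS R, (SK R s m) ^ 2} with hBad
  set BF : Finset ℕ := {m ∈ Icc 1 N | Even m ∧
      1 / 32 * (Pool.Agent.MG.sing m * (Nat.primeCounting (HR R) * R / (Real.log N * Real.log R))) <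
        |cntK (fun _ => 1) R m - Pool.Agent.MG.sing m * (Nat.primeCounting (HR R) / Real.log N) *
          ∑ s ∈ IS R, (fun _ => (1 : ℝ)) s|} with hBF
  set BS : Finset ℕ := {m ∈ Icc 1 N | Even m ∧ 1 * Pool.Agent.MG.sing m <
    |Sg (primorial w) m - Pool.Agent.MG.sing m|} with hBS
  set Sm : Finset ℕ := {m ∈ Icc 1 N | ((m : ℕ) : ℝ) ≤ δ / 4 * N} with hSm
  have hBadc : ∀ j < J, (#(Bad j) : ℝ) ≤ δ / (4 * J) * N := by
    intro j hj
    obtain ⟨h1, -, -, h4, -⟩ := hpar j hj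
    have h5 : X₀ ≤ X j := by
      have h6 : (X₀ : ℝ) ≤ X j := by linarith
      exact_mod_cast h6
    refine (hX₀ (X j) h5 R h4).trans ?_
    have h7 : (X j : ℝ) ≤ 2 * N := by
      have : (X j : ℝ) ≤ N + 1 := by exact_mod_cast hXN j
      linarith
    calc δ / (8 * J) * X j ≤ δ / (8 * J) * (2 * N) := mul_le_mul_of_nonneg_left h7 (by positivity)
      _ = δ / (4 * J) * N := by ring
  have hBFc : (BF.card : ℝ) ≤ δ / 4 * N := hN₁ N hNa (fun _ => 1) hW1 R hRlo hRup
  have hBSc : (BS.card : ℝ) ≤ δ / 4 * N := hw₂ w hwb N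
  have hSmc : (Sm.card : ℝ) ≤ δ / 4 * N := by
    have h1 : Sm ⊆ Icc 1 ⌊δ / 4 * N⌋₊ := by
      intro m hm
      rw [hSm, Finset.mem_filter, Finset.mem_Icc] at hm
      rw [Finset.mem_Icc]
      exact ⟨hm.1.1, Nat.le_floor hm.2⟩
    calc (Sm.card : ℝ) ≤ (#(Icc 1 ⌊δ / 4 * (N : ℝ)⌋₊) : ℝ) := by exact_mod_cast Finset.card_le_card h1
      _ = (⌊δ / 4 * (N : ℝ)⌋₊ : ℝ) := by
          rw [Nat.card_Icc, Nat.add_sub_cancel]
      _ ≤ δ / 4 * N := Nat.floor_le (by positivity)
  -- the inclusion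
  set Fin : Finset ℕ := {m ∈ Icc 1 N | Even m ∧ ((goodK c N R m).card : ℝ) < c * (IS R).card} with hFin
  have hsub : Fin ⊆ Sm ∪ (BS ∪ (BF ∪ (range J).biUnion Bad)) := by
    intro m hm
    rw [hFin, Finset.mem_filter] at hm
    obtain ⟨hm1, hm2, hm3⟩ := hm
    rw [Finset.mem_Icc] at hm1
    by_contra hcon
    rw [Finset.mem_union, Finset.mem_union, Finset.mem_union, not_or, not_or, not_or] at hcon
    obtain ⟨hc1', hc2', hc4', hc3'⟩ := hcon
    have hmbig : δ / 4 * N < m := by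
      by_contra h1
      rw [not_lt] at h1
      exact hc1' (Finset.mem_filter.2 ⟨Finset.mem_Icc.2 hm1, h1⟩)
    have hmS : |Sg (primorial w) m - Pool.Agent.MG.sing m| ≤ 1 * Pool.Agent.MG.sing m := by
      by_contra h1
      rw [not_le] at h1
      exact hc2' (Finset.mem_filter.2 ⟨Finset.mem_Icc.2 hm1, hm2, h1⟩)
    have hmF : |cntK (fun _ => 1) R m - Pool.Agent.MG.sing m * (Nat.primeCounting (HR R) / Real.log N) *
          ∑ s ∈ IS R, (fun _ => (1 : ℝ)) s| ≤
          1 / 32 * (Pool.Agent.MG.sing m * (Nat.primeCounting (HR R) * R / (Real.log N * Real.log R))) := by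
      by_contra h1
      rw [not_le] at h1
      exact hc4' (Finset.mem_filter.2 ⟨Finset.mem_Icc.2 hm1, hm2, h1⟩)
    obtain ⟨j, hj, hXm, hmX⟩ := hXcov m hm1.2 hmbig
    obtain ⟨g1, g2, g3, g4, g5⟩ := hpar j hj
    have hmB : ∑ s ∈ IS R, (SK R s m) ^ 2 ≤
        C * (Sg (primorial w) m) ^ 2 * (R / Real.log R) * (HR R / Real.log (X j)) ^ 2 := by
      by_contra h1
      rw [not_le] at h1
      apply hc3'
      rw [Finset.mem_biUnion]
      exact ⟨j, Finset.mem_range.2 hj, Finset.mem_filter.2 ⟨Finset.mem_Icc.2 ⟨hXm, hmX⟩, hm2, h1⟩⟩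
    have hRR₁ : R₁ ≤ R := by
      have h1 : (R₁ : ℝ) ≤ R := by linarith
      exact_mod_cast h1
    have hRR₂ : R₂ ≤ R := by
      have h1 : (R₂ : ℝ) ≤ R := by linarith
      exact_mod_cast h1
    have hR2 : 2 ≤ R := hR₁2.trans hRR₁
    have hRr : (2 : ℝ) ≤ R := by exact_mod_cast hR2
    have hR0 : (0 : ℝ) < R := by linarith
    have hlR : 0 < Real.log R := Real.log_pos (by linarith)
    have hH2 : 2 ≤ HR R := by
      unfold HR
      nlinarith
    have hHr : (2 : ℝ) ≤ (HR R : ℝ) := by exact_mod_cast hH2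
    have hH0 : (0 : ℝ) < (HR R : ℝ) := by linarith
    have hlH : 0 < Real.log (HR R) := Real.log_pos (by linarith)
    have hlN : 0 < Real.log N := by linarith
    have hSg := (Pool.Agent.Lib.MP_bae66e_nt.AC.one_le_Sg w m hwc hm2).1
    rw [one_mul] at hmS
    obtain ⟨-, hS2⟩ := abs_le.1 hmS
    have hsing : 0 < Pool.Agent.MG.sing m := by linarith
    have hpiR := hpi R hRR₂
    obtain ⟨hpi1, -⟩ := abs_le.1 hpiR
    have hHl : 0 < (HR R : ℝ) / Real.log (HR R) := by positivity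
    have hP2 : (HR R : ℝ) / Real.log (HR R) ≤ 2 * (Nat.primeCounting (HR R) : ℝ) := by linarith
    have hP0 : (0 : ℝ) < (Nat.primeCounting (HR R) : ℝ) := by linarith
    set E : ℝ := Pool.Agent.MG.sing m * ((Nat.primeCounting (HR R) : ℝ) / Real.log N) with hE
    have hE0 : 0 < E := by positivity
    have hcard := (hIS R hR2).1
    have hrg := hrecge R hRR₁
    -- the number of the primes
    have hcge : R / (8 * Real.log R) ≤ ((IS R).card : ℝ) := by
      have q1 : ∑ s ∈ IS R, 1 / (s : ℝ) ≤ ((IS R).card : ℝ) / R := by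
        calc ∑ s ∈ IS R, 1 / (s : ℝ) ≤ ∑ _s ∈ IS R, 1 / (R : ℝ) := by
              refine Finset.sum_le_sum fun s hs => ?_
              have q2 : R < s := (mem_prI.1 hs).1.1
              exact one_div_le_one_div_of_le hR0 (by exact_mod_cast q2.le)
          _ = ((IS R).card : ℝ) / R := by
              rw [Finset.sum_const, nsmul_eq_mul, mul_one_div]
      have q3 := hrg.trans q1
      rw [le_div_iff₀ hR0] at q3
      refine le_trans (le_of_eq ?_) q3
      ring
    -- the first moment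
    have hsum1 : ∑ s ∈ IS R, (fun _ => (1 : ℝ)) s = ((IS R).card : ℝ) := by
      rw [Finset.sum_const, nsmul_eq_mul, mul_one]
    have hsum2 : cntK (fun _ => 1) R m = ∑ s ∈ IS R, (ck R m s : ℝ) := by
      unfold cntK
      exact Finset.sum_congr rfl fun s _ => one_mul _
    rw [hsum1, hsum2] at hmF
    have e1 : Pool.Agent.MG.sing m * ((Nat.primeCounting (HR R) : ℝ) * R / (Real.log N * Real.log R)) =
        E * R / Real.log R := by
      rw [hE]
      field_simp
    rw [e1] at hmF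
    have f1 : 3 / 32 * (E * R / Real.log R) ≤ ∑ s ∈ IS R, (ck R m s : ℝ) := by
      obtain ⟨q1, -⟩ := abs_le.1 hmF
      have q2 : E * (R / (8 * Real.log R)) ≤ E * ((IS R).card : ℝ) :=
        mul_le_mul_of_nonneg_left hcge hE0.le
      have q3 : E * (R / (8 * Real.log R)) = 1 / 8 * (E * R / Real.log R) := by
        field_simp
      linarith
    -- the second moment
    have f3 : ∑ s ∈ IS R, ((ck R m s : ℝ)) ^ 2 ≤ 64 * C * E ^ 2 * R / Real.log R := by
      have q1 : ∑ s ∈ IS R, (SK R s m) ^ 2 = (Real.log (HR R)) ^ 2 * ∑ s ∈ IS R, ((ck R m s : ℝ)) ^ 2 := by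
        rw [Finset.mul_sum]
        refine Finset.sum_congr rfl fun s _ => ?_
        rw [SK_eq, mul_pow]
      rw [q1] at hmB
      exact QK_sec C (Sg (primorial w) m) (Pool.Agent.MG.sing m) (HR R) (Nat.primeCounting (HR R)) R
        (Real.log (HR R)) (Real.log N) (Real.log (X j)) (Real.log R) _ hC0 (by linarith) (by linarith) hR0
        hlR hlH hlN g3 hH0 hP2 hmB
    have key := QK_one (IS R) (fun s => (ck R m s : ℝ)) c C C₃ E R (Real.log R) hE0 hR0 hlR hc0 hC0 hC₃0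
      hc2 hc1 f1 f3 hcard
    have hgood : goodK c N R m = (IS R).filter (fun s : ℕ => c * E ≤ (ck R m s : ℝ)) := rfl
    rw [hgood] at hm3
    linarith
  calc (Fin.card : ℝ) ≤ (#(Sm ∪ (BS ∪ (BF ∪ (range J).biUnion Bad))) : ℝ) := by
        exact_mod_cast Finset.card_le_card hsub
    _ ≤ (Sm.card : ℝ) + ((BS.card : ℝ) + ((BF.card : ℝ) + (#((range J).biUnion Bad) : ℝ))) := by
        have h1 := Finset.card_union_le Sm (BS ∪ (BF ∪ (range J).biUnion Bad))
        have h2 := Finset.card_union_le BS (BF ∪ (range J).biUnion Bad)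
        have h3 := Finset.card_union_le BF ((range J).biUnion Bad)
        exact_mod_cast h1.trans (Nat.add_le_add_left (h2.trans (Nat.add_le_add_left h3 _)) _)
    _ ≤ δ / 4 * N + (δ / 4 * N + (δ / 4 * N + J * (δ / (4 * J) * N))) := by
        have h3 : (#((range J).biUnion Bad) : ℝ) ≤ J * (δ / (4 * J) * N) := by
          calc (#((range J).biUnion Bad) : ℝ) ≤ ((∑ j ∈ range J, #(Bad j) : ℕ) : ℝ) := by
                exact_mod_cast Finset.card_biUnion_le
            _ = ∑ j ∈ range J, (#(Bad j) : ℝ) := by push_cast; rfl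
            _ ≤ ∑ _j ∈ range J, δ / (4 * J) * N :=
                Finset.sum_le_sum fun j hj => hBadc j (Finset.mem_range.1 hj)
            _ = J * (δ / (4 * J) * N) := by
                rw [Finset.sum_const, Finset.card_range, nsmul_eq_mul]
        linarith
    _ = δ * N := by
        field_simp
        ring

end Pool.Agent.Lib.MP_bae66e_nt.MF
end
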