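import Pool.Agent.Lib.MP_bae66e_nt.E3.J11
import Pool.Agent.Lib.MP_bae66e_nt.Mg.G014
import Pool.Agent.Lib.MP_bae66e_nt.Mg.G075
import Pool.Agent.Lib.MP_bae66e_nt.Mg.G100
import Pool.Agent.Lib.MP_bae66e_nt.Mg.G101

section

/-!
# FJ5: the second moment for one multiplier
-/

set_option autoImplicit false

namespace Pool.Agent.E3

open Finset Real
open Pool.Agent.Lib.MP_bae66e_nt.LL (fP corr corr_fP_le)
open Pool.Agent.Lib.MP_bae66e_nt (rho)

theorem fP_nonneg' (H : ℕ) (n : ℤ) : 0 ≤ fP H n := by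
  unfold fP
  split_ifs
  · exact Real.log_natCast_nonneg H
  · exact le_rfl

theorem fP_le' (H : ℕ) (n : ℤ) : fP H n ≤ Real.log H := by
  unfold fP
  split_ifs
  · exact le_rfl
  · exact Real.log_natCast_nonneg H

/-- PROOF. The terms are nonnegative, so the sum over the classes of the absolute values is `∑_{t ≤ H - h} f t f (t + h) ≤ corr H (fP H) h
≤ 2000 (Fr h)² H` (`corr_fP_le`, `Fr_eq`). -/
theorem sum_cb_fP (H s h : ℕ) (hH : 2 ≤ H) (hs : 1 ≤ s) (hh : 1 ≤ h) :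
    ∑ b ∈ range s, |cb (fun t => fP H (t : ℤ)) H s b h| ≤ 2000 * (Fr h) ^ 2 * H := by
  have h1 : ∀ b ∈ range s, |cb (fun t => fP H (t : ℤ)) H s b h| =
      ∑ t ∈ (Icc 1 (H - h)).filter (fun t => t % s = b), fP H (t : ℤ) * fP H ((t + h : ℕ) : ℤ) := by
    intro b _
    unfold cb
    exact abs_of_nonneg (Finset.sum_nonneg fun t _ => mul_nonneg (fP_nonneg' _ _) (fP_nonneg' _ _))
  rw [Finset.sum_congr rfl h1, Finset.sum_fiberwise_of_maps_to
    (s := Icc 1 (H - h)) (t := range s) (g := fun t => t % s)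
    (f := fun t => fP H (t : ℤ) * fP H ((t + h : ℕ) : ℤ))
    (fun t _ => Finset.mem_range.2 (Nat.mod_lt _ hs))]
  have h2 : ∑ t ∈ Icc 1 (H - h), fP H (t : ℤ) * fP H ((t + h : ℕ) : ℤ) ≤ corr H (fP H) (h : ℤ) := by
    unfold corr
    have h3 : ∑ t ∈ Icc 1 (H - h), fP H (t : ℤ) * fP H ((t + h : ℕ) : ℤ) =
        ∑ n ∈ (Icc 1 (H - h)).image (fun t : ℕ => (t : ℤ)), fP H n * fP H (n + h) := by
      rw [Finset.sum_image (fun x _ y _ hxy => by exact_mod_cast hxy)]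
      refine Finset.sum_congr rfl fun t _ => ?_
      push_cast
      rfl
    rw [h3]
    apply Finset.sum_le_sum_of_subset_of_nonneg
    · intro n hn
      obtain ⟨t, ht, rfl⟩ := Finset.mem_image.1 hn
      rw [Finset.mem_Icc] at ht ⊢
      omega
    · intro n _ _
      exact mul_nonneg (fP_nonneg' _ _) (fP_nonneg' _ _)
  refine h2.trans ((le_abs_self _).trans ?_)
  have h4 := corr_fP_le H hH (h : ℤ) (by exact_mod_cast (by omega : h ≠ 0))
  rw [Int.natAbs_natCast] at h4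
  rwa [Fr_eq h (by omega)]

/-- PROOF. `one_s_bound` with `f t = fP H t`, `B = C₁ M/(log M)²` (`pair_m`). The three terms: `(M+1) H (log H)² ≤ M (H/log M)²` and
`2 H (H log H)² ≤ M (H/log M)²` by `par_J`, and `2 B ∑_h (Fr h)² · 2000 (Fr h)² H ≤ 4000 B C₂ H²` (`sum_cb_fP`, `sum_Fr_four`). -/
theorem sec_one (a : ℝ) (ha : 3 ≤ a) : ∃ C : ℝ, 1 ≤ C ∧ ∃ M₀ : ℕ, ∀ M : ℕ, M₀ ≤ M →
    ∀ s ∈ IS (RJ a M),
      ∑ m ∈ Icc M (2 * M), (∑ t ∈ Icc 1 (HJ a M),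
        fP (HJ a M) (t : ℤ) * (if (s * m - t).Prime then 1 else 0)) ^ 2
      ≤ C * M * ((HJ a M : ℝ) / Real.log M) ^ 2 := by
  obtain ⟨C₁, hC₁, M₁, hpair⟩ := pair_m
  obtain ⟨C₂, hC₂, hFr⟩ := sum_Fr_four
  obtain ⟨M₂, hpar⟩ := par_J a 2 ha
  refine ⟨2 + 4000 * C₁ * C₂, by nlinarith [mul_nonneg (by linarith : 0 ≤ C₁) (by linarith : 0 ≤ C₂)],
    max M₁ (max M₂ 1), fun M hM s hs => ?_⟩
  have hM1 : M₁ ≤ M := (le_max_left _ _).trans hM
  have hM2 : M₂ ≤ M := ((le_max_left _ _).trans (le_max_right _ _)).trans hM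
  have hM3 : 1 ≤ M := ((le_max_right _ _).trans (le_max_right _ _)).trans hM
  obtain ⟨p1, -, p3, p4, p5, p6, -, p8⟩ := hpar M hM2
  set H := HJ a M with hHdef
  set R := RJ a M with hRdef
  have hH2 : H = 2 * R ^ 2 := rfl
  have hsp : s.Prime ∧ R < s ∧ s ≤ 2 * R := by
    unfold IS at hs
    simp only [Pool.Agent.Lib.MP_bae66e_nt.AP3.prI, Finset.mem_filter, Finset.mem_Ioc] at hs
    exact ⟨hs.2, hs.1.1, hs.1.2⟩
  have hsH : 2 * R ≤ H := by rw [hH2]; nlinarith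
  have hH8 : 8 ≤ H := by rw [hH2]; nlinarith
  have hHM : H ≤ M := by omega
  have hMr : (1 : ℝ) ≤ M := by exact_mod_cast hM3
  have hMpos : (0 : ℝ) < M := by linarith
  have hHr : (8 : ℝ) ≤ H := by exact_mod_cast hH8
  have hHpos : (0 : ℝ) < H := by linarith
  have hL0 : 0 < Real.log M := by linarith
  have hlH : 0 ≤ Real.log H := Real.log_natCast_nonneg H
  set B : ℝ := C₁ * (M / (Real.log M) ^ 2) with hB
  have hB0 : 0 ≤ B := by positivity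
  have key := one_s_bound (fun t => fP H (t : ℤ)) H s M B hsp.1.one_lt.le hHM (by
    intro b h hb hh1 hhH
    exact hpair M hM1 s b h hsp.1 hh1 (by omega))
  refine key.trans ?_
  have hsq : ∑ t ∈ Icc 1 H, fP H (t : ℤ) ^ 2 ≤ H * (Real.log H) ^ 2 := by
    calc ∑ t ∈ Icc 1 H, fP H (t : ℤ) ^ 2 ≤ ∑ t ∈ Icc 1 H, (Real.log H) ^ 2 :=
          Finset.sum_le_sum fun t _ => pow_le_pow_left₀ (fP_nonneg' _ _) (fP_le' _ _) 2
      _ = H * (Real.log H) ^ 2 := by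
          rw [Finset.sum_const, nsmul_eq_mul, Nat.card_Icc, Nat.add_sub_cancel]
  have hab : ∑ t ∈ Icc 1 H, |fP H (t : ℤ)| ≤ H * Real.log H := by
    calc ∑ t ∈ Icc 1 H, |fP H (t : ℤ)| ≤ ∑ t ∈ Icc 1 H, Real.log H :=
          Finset.sum_le_sum fun t _ => by
            rw [abs_of_nonneg (fP_nonneg' _ _)]
            exact fP_le' _ _
      _ = H * Real.log H := by
          rw [Finset.sum_const, nsmul_eq_mul, Nat.card_Icc, Nat.add_sub_cancel]
  have hab0 : 0 ≤ ∑ t ∈ Icc 1 H, |fP H (t : ℤ)| := Finset.sum_nonneg fun t _ => abs_nonneg _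
  have hlog2 : (Real.log H) ^ 2 ≤ (Real.log H + 2) ^ 2 :=
    pow_le_pow_left₀ hlH (by linarith) 2
  -- the first term
  have t1 : ((M : ℝ) + 1) * ∑ t ∈ Icc 1 H, fP H (t : ℤ) ^ 2 ≤ M * ((H : ℝ) / Real.log M) ^ 2 := by
    calc ((M : ℝ) + 1) * ∑ t ∈ Icc 1 H, fP H (t : ℤ) ^ 2 ≤ (2 * M) * (H * (Real.log H) ^ 2) :=
          mul_le_mul (by linarith) hsq (Finset.sum_nonneg fun t _ => sq_nonneg _) (by positivity)
      _ = M * H * (2 * ((Real.log H) ^ 2 * (Real.log M) ^ 2)) / (Real.log M) ^ 2 := by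
          field_simp
      _ ≤ M * H * (2 * ((Real.log H + 2) ^ 2 * (Real.log M) ^ 2)) / (Real.log M) ^ 2 := by
          gcongr
      _ ≤ M * H * H / (Real.log M) ^ 2 := by gcongr
      _ = M * ((H : ℝ) / Real.log M) ^ 2 := by
          field_simp
  -- the second term
  have t2 : 2 * (H : ℝ) * (∑ t ∈ Icc 1 H, |fP H (t : ℤ)|) ^ 2 ≤ M * ((H : ℝ) / Real.log M) ^ 2 := by
    calc 2 * (H : ℝ) * (∑ t ∈ Icc 1 H, |fP H (t : ℤ)|) ^ 2 ≤ 2 * (H : ℝ) * (H * Real.log H) ^ 2 := by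
          gcongr
      _ = (2 * (H * ((Real.log H) ^ 2 * (Real.log M) ^ 2))) * (H ^ 2 / (Real.log M) ^ 2) := by
          field_simp
      _ ≤ (2 * (H * ((Real.log H + 2) ^ 2 * (Real.log M) ^ 2))) * (H ^ 2 / (Real.log M) ^ 2) := by
          gcongr
      _ ≤ M * (H ^ 2 / (Real.log M) ^ 2) := by gcongr
      _ = M * ((H : ℝ) / Real.log M) ^ 2 := by
          rw [div_pow]
  -- the third term
  have t3 : 2 * B * ∑ h ∈ Icc 1 H, ∑ b ∈ range s, (Fr h) ^ 2 * |cb (fun t => fP H (t : ℤ)) H s b h|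
      ≤ 4000 * C₁ * C₂ * M * ((H : ℝ) / Real.log M) ^ 2 := by
    have e1 : ∀ h ∈ Icc 1 H, ∑ b ∈ range s, (Fr h) ^ 2 * |cb (fun t => fP H (t : ℤ)) H s b h|
        ≤ 2000 * H * (Fr h) ^ 4 := by
      intro h hh
      rw [← Finset.mul_sum]
      have e2 := sum_cb_fP H s h (by omega) hsp.1.one_lt.le (Finset.mem_Icc.1 hh).1
      calc (Fr h) ^ 2 * ∑ b ∈ range s, |cb (fun t => fP H (t : ℤ)) H s b h|
          ≤ (Fr h) ^ 2 * (2000 * (Fr h) ^ 2 * H) := mul_le_mul_of_nonneg_left e2 (sq_nonneg _)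
        _ = 2000 * H * (Fr h) ^ 4 := by ring
    calc 2 * B * ∑ h ∈ Icc 1 H, ∑ b ∈ range s, (Fr h) ^ 2 * |cb (fun t => fP H (t : ℤ)) H s b h|
        ≤ 2 * B * ∑ h ∈ Icc 1 H, 2000 * H * (Fr h) ^ 4 :=
          mul_le_mul_of_nonneg_left (Finset.sum_le_sum e1) (by positivity)
      _ = 2 * B * (2000 * H * ∑ h ∈ Icc 1 H, (Fr h) ^ 4) := by rw [← Finset.mul_sum]
      _ ≤ 2 * B * (2000 * H * (C₂ * H)) := by
          have := hFr H
          gcongr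
      _ = 4000 * C₁ * C₂ * M * ((H : ℝ) / Real.log M) ^ 2 := by
          rw [hB, div_pow]
          ring
  calc ((M : ℝ) + 1) * ∑ t ∈ Icc 1 H, fP H (t : ℤ) ^ 2 + 2 * H * (∑ t ∈ Icc 1 H, |fP H (t : ℤ)|) ^ 2
        + 2 * B * ∑ h ∈ Icc 1 H, ∑ b ∈ range s, (Fr h) ^ 2 * |cb (fun t => fP H (t : ℤ)) H s b h|
      ≤ M * ((H : ℝ) / Real.log M) ^ 2 + M * ((H : ℝ) / Real.log M) ^ 2 +
          4000 * C₁ * C₂ * M * ((H : ℝ) / Real.log M) ^ 2 := add_le_add (add_le_add t1 t2) t3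
    _ = (2 + 4000 * C₁ * C₂) * M * ((H : ℝ) / Real.log M) ^ 2 := by ring

end Pool.Agent.E3
end

section

/-!
# FJ6: many multipliers
-/

set_option autoImplicit false

namespace Pool.Agent.E3

open Finset
open Pool.Agent.Lib.MP_bae66e_nt.LL (fP gW nu)

/-- PROOF. As `pos_of` (file F3), with the lower bound `B/2` instead of positivity. `c₀` from `WINJ`; `η = c₀² δ / 16` in `VARJ`, `w = max w₀ 2`, `W = primorial w`, and `WINJ` with this `W` and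
`δ' = δ/(2 W)` for the classes `v < W` coprime to `W`. Let `B = c₀ GJ`. An even `m ∈ [M, 2M]` outside the exceptional sets of all the classes
satisfies `model_lowerJ`; by `VARJ` and Chebyshev, the number of `m` with `|∑ (fP - gW)| ≥ B/2` is `≤ δ M/4`. -/
theorem pos_ofJ2 (a : ℝ) (ha : 3 ≤ a) (h1 : WINJ a) (h2 : VARJ a) : ∃ c : ℝ, 0 < c ∧
    ∀ δ : ℝ, 0 < δ → ∃ M₀ : ℕ, ∀ M : ℕ, M₀ ≤ M →
      (#{m ∈ Icc M (2 * M) | Even m ∧
        ∑ s ∈ IS (RJ a M), ∑ t ∈ Icc 1 (HJ a M),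
          fP (HJ a M) (t : ℤ) * (if (s * m - t).Prime then (1 : ℝ) else 0) < c * GJ a M} : ℝ)
        ≤ δ * M := by
  classical
  obtain ⟨c₀, hc₀, hwin⟩ := h1
  refine ⟨c₀ / 2, by positivity, fun δ hδ => ?_⟩
  have hη : 0 < c₀ ^ 2 * δ / 16 := by positivity
  obtain ⟨w₀, hvar⟩ := h2 _ hη
  set w := max w₀ 2 with hw
  have hw2 : 2 ≤ w := le_max_right _ _
  obtain ⟨X₁, hX₁⟩ := hvar w (le_max_left _ _)
  set W := primorial w with hW
  have hWpos : 0 < W := primorial_pos w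
  have hWr : (0 : ℝ) < (W : ℝ) := by exact_mod_cast hWpos
  obtain ⟨X₂, hX₂⟩ := hwin W hWpos (δ / (2 * W)) (by positivity)
  obtain ⟨X₃, hX₃⟩ := GJ_pos a ha w
  refine ⟨max X₁ (max X₂ (max X₃ 1)), fun X hX => ?_⟩
  have hXa : X₁ ≤ X := le_trans (le_max_left _ _) hX
  have hXb : X₂ ≤ X := le_trans (le_trans (le_max_left _ _) (le_max_right _ _)) hX
  have hXc : X₃ ≤ X := le_trans (le_trans (le_trans (le_max_left _ _) (le_max_right _ _))
    (le_max_right _ _)) hX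
  have hXd : 1 ≤ X := le_trans (le_trans (le_trans (le_max_right _ _) (le_max_right _ _))
    (le_max_right _ _)) hX
  obtain ⟨hGpos, hHX, hwR⟩ := hX₃ X hXc
  have hV := hX₁ X hXa
  have hWin := hX₂ X hXb
  have hXr : (0 : ℝ) < (X : ℝ) := by exact_mod_cast hXd
  set H := HJ a X with hH
  set B := c₀ * GJ a X with hB
  have hBpos : 0 < B := mul_pos hc₀ hGpos
  -- the exceptional sets
  set E : ℕ → Finset ℕ := fun v => {m ∈ Icc X (2 * X) |
    ∑ s ∈ IS (RJ a X), (#{q ∈ Ico (s * m - H) (s * m) | q.Prime ∧ q ≡ s * v [MOD W]} : ℝ)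
      < B / Nat.totient W} with hE
  set D : ℕ → ℝ := fun m => ∑ s ∈ IS (RJ a X), ∑ t ∈ Icc 1 H,
    (fP H (t : ℤ) - gW W H (t : ℤ)) * (if (s * m - t).Prime then (1 : ℝ) else 0) with hD
  set Z : Finset ℕ := {m ∈ Icc X (2 * X) | B / 2 ≤ |D m|} with hZ
  set V : Finset ℕ := {v ∈ range W | Nat.Coprime v W} with hVd
  have hEcard : ∀ v ∈ V, ((E v).card : ℝ) ≤ δ / (2 * W) * X := by
    intro v hv
    have hv' := (Finset.mem_filter.1 hv).2
    exact hWin v hv'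
  have hZcard : (Z.card : ℝ) ≤ δ / 4 * X := by
    have e1 : (Z.card : ℝ) * (B / 2) ^ 2 ≤ ∑ m ∈ Icc X (2 * X), (D m) ^ 2 := by
      calc (Z.card : ℝ) * (B / 2) ^ 2 = ∑ m ∈ Z, (B / 2) ^ 2 := by
            rw [Finset.sum_const, nsmul_eq_mul]
        _ ≤ ∑ m ∈ Z, (D m) ^ 2 := by
            apply Finset.sum_le_sum
            intro m hm
            have h := (Finset.mem_filter.1 hm).2
            rw [← sq_abs (D m)]
            exact pow_le_pow_left₀ (by positivity) h 2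
        _ ≤ _ := Finset.sum_le_sum_of_subset_of_nonneg (Finset.filter_subset _ _)
            (fun _ _ _ => sq_nonneg _)
    have e2 : (Z.card : ℝ) * (B / 2) ^ 2 ≤ c₀ ^ 2 * δ / 16 * X * (GJ a X) ^ 2 :=
      e1.trans hV
    have e3 : c₀ ^ 2 * δ / 16 * X * (GJ a X) ^ 2 = (δ / 4 * X) * (B / 2) ^ 2 := by
      rw [hB]; ring
    rw [e3] at e2
    exact le_of_mul_le_mul_right e2 (by positivity)
  have hsub : ({m ∈ Icc X (2 * X) | Even m ∧
      ∑ s ∈ IS (RJ a X), ∑ t ∈ Icc 1 H,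
          fP H (t : ℤ) * (if (s * m - t).Prime then (1 : ℝ) else 0) < c₀ / 2 * GJ a X} : Finset ℕ) ⊆
        V.biUnion E ∪ Z := by
    intro m hm
    obtain ⟨hm1, hm2, hm3⟩ := Finset.mem_filter.1 hm
    by_contra hcon
    rw [Finset.mem_union, not_or] at hcon
    obtain ⟨hc1, hc2⟩ := hcon
    have hmX : X ≤ m := (Finset.mem_Icc.1 hm1).1
    have key : B ≤ ∑ s ∈ IS (RJ a X), ∑ t ∈ Icc 1 H,
        gW W H (t : ℤ) * (if (s * m - t).Prime then (1 : ℝ) else 0) := by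
      apply model_lowerJ a B hBpos.le X w m hw2 hm2 hwR (hHX.trans hmX)
      intro v hv
      have hv' : v % W ∈ V := by
        rw [hVd, Finset.mem_filter, Finset.mem_range]
        refine ⟨Nat.mod_lt _ hWpos, ?_⟩
        have : Nat.gcd (v % W) W = Nat.gcd W v := (Nat.gcd_rec W v).symm
        rw [Nat.Coprime, this, Nat.gcd_comm]
        exact hv
      have h5 : m ∉ E (v % W) := fun h => hc1 (Finset.mem_biUnion.2 ⟨_, hv', h⟩)
      rw [hE] at h5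
      simp only [Finset.mem_filter, not_and, not_lt] at h5
      have h6 := h5 hm1
      refine h6.trans (le_of_eq ?_)
      refine Finset.sum_congr rfl fun s _ => ?_
      congr 2
      apply Finset.filter_congr
      intro n _
      have h8 : s * (v % W) ≡ s * v [MOD W] := (Nat.mod_modEq v W).mul_left s
      constructor
      · rintro ⟨h, h'⟩; exact ⟨h, h'.trans h8⟩
      · rintro ⟨h, h'⟩; exact ⟨h, h'.trans h8.symm⟩
    have hD1 : |D m| < B / 2 := by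
      by_contra h
      exact hc2 (Finset.mem_filter.2 ⟨hm1, not_lt.1 h⟩)
    have hD2 : D m = ∑ s ∈ IS (RJ a X), ∑ t ∈ Icc 1 H,
          fP H (t : ℤ) * (if (s * m - t).Prime then (1 : ℝ) else 0) -
        ∑ s ∈ IS (RJ a X), ∑ t ∈ Icc 1 H,
          gW W H (t : ℤ) * (if (s * m - t).Prime then (1 : ℝ) else 0) := by
      rw [hD, ← Finset.sum_sub_distrib]
      apply Finset.sum_congr rfl
      intro s _
      rw [← Finset.sum_sub_distrib]
      apply Finset.sum_congr rfl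
      intro t _
      ring
    have := (abs_lt.1 hD1).1
    rw [hD2] at this
    have hBG : c₀ / 2 * GJ a X = B / 2 := by rw [hB]; ring
    rw [hBG] at hm3
    linarith
  have hVcard : (V.card : ℝ) ≤ W := by
    have : V.card ≤ (range W).card := Finset.card_filter_le _ _
    rw [Finset.card_range] at this
    exact_mod_cast this
  calc (#{m ∈ Icc X (2 * X) | Even m ∧
        ∑ s ∈ IS (RJ a X), ∑ t ∈ Icc 1 H,
          fP H (t : ℤ) * (if (s * m - t).Prime then (1 : ℝ) else 0) < c₀ / 2 * GJ a X} : ℝ)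
      ≤ ((V.biUnion E ∪ Z).card : ℝ) := by exact_mod_cast Finset.card_le_card hsub
    _ ≤ ((V.biUnion E).card : ℝ) + (Z.card : ℝ) := by exact_mod_cast Finset.card_union_le _ _
    _ ≤ (∑ v ∈ V, ((E v).card : ℝ)) + (Z.card : ℝ) := by
        have : (V.biUnion E).card ≤ ∑ v ∈ V, (E v).card := Finset.card_biUnion_le
        have h' : ((V.biUnion E).card : ℝ) ≤ ∑ v ∈ V, ((E v).card : ℝ) := by exact_mod_cast this
        linarith
    _ ≤ (∑ v ∈ V, δ / (2 * W) * X) + δ / 4 * X := by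
        have := Finset.sum_le_sum hEcard
        linarith
    _ = (V.card : ℝ) * (δ / (2 * W) * X) + δ / 4 * X := by rw [Finset.sum_const, nsmul_eq_mul]
    _ ≤ (W : ℝ) * (δ / (2 * W) * X) + δ / 4 * X := by
        have := mul_le_mul_of_nonneg_right hVcard (by positivity : 0 ≤ δ / (2 * W) * X)
        linarith
    _ ≤ δ * X := by
        have e : (W : ℝ) * (δ / (2 * W) * X) = δ / 2 * X := by field_simp
        rw [e]
        nlinarith

/-- the multipliers `s` of the dyadic scale for which `s m` has a representation -/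
noncomputable def GM (a : ℝ) (M m : ℕ) : Finset ℕ :=
  {s ∈ IS (RJ a M) | ∃ t ∈ Icc 1 (HJ a M), t.Prime ∧ (s * m - t).Prime}

/-- PROOF. `c₀` from `pos_ofJ2`, `C` from `sec_one`, `C₃` from `IS_bounds`. Let `U = R/log R`, `V = H/log M`, `K = 2 C C₃/δ`, `c = c₀²/K`.
The number of `m ∈ [M, 2M]` with `∑_s S_s(m)² > K U V²` is at most `C M V² C₃ U/(K U V²) = δ M/2`. For the other even `m` outside the set of
`pos_ofJ2` (with `δ/2`): `(c₀ U V)² ≤ (∑_s S_s)² ≤ #{s : S_s ≠ 0} ∑ S_s² ≤ #GM · K U V²`. -/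
theorem many_of (a : ℝ) (ha : 3 ≤ a) (h1 : WINJ a) (h2 : VARJ a) (δ : ℝ) (hδ : 0 < δ) :
    ∃ c : ℝ, 0 < c ∧ ∃ M₀ : ℕ, ∀ M : ℕ, M₀ ≤ M →
      (#{m ∈ Icc M (2 * M) | Even m ∧
        ((GM a M m).card : ℝ) < c * (RJ a M / Real.log (RJ a M))} : ℝ) ≤ δ * M := by
  classical
  obtain ⟨c₀, hc₀, hpos⟩ := pos_ofJ2 a ha h1 h2
  obtain ⟨M₁, hpos⟩ := hpos (δ / 2) (by positivity)
  obtain ⟨C, hC, M₂, hsec⟩ := sec_one a ha
  obtain ⟨C₃, hC₃, hIS⟩ := IS_bounds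
  obtain ⟨M₃, hG⟩ := GJ_pos a ha 3
  set K : ℝ := 2 * C * C₃ / δ with hK
  have hK0 : 0 < K := by positivity
  refine ⟨c₀ ^ 2 / K, by positivity, max M₁ (max M₂ (max M₃ 16)), fun M hM => ?_⟩
  have hMa : M₁ ≤ M := (le_max_left _ _).trans hM
  have hMb : M₂ ≤ M := ((le_max_left _ _).trans (le_max_right _ _)).trans hM
  have hMc : M₃ ≤ M := ((le_max_left _ _).trans ((le_max_right _ _).trans (le_max_right _ _))).trans hM
  have hMd : 16 ≤ M := ((le_max_right _ _).trans ((le_max_right _ _).trans (le_max_right _ _))).trans hM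
  obtain ⟨hG0, hHM, hR3⟩ := hG M hMc
  set R := RJ a M with hR
  set H := HJ a M with hH
  have hMr : (16 : ℝ) ≤ M := by exact_mod_cast hMd
  have hMpos : (0 : ℝ) < M := by linarith
  have hRr : (3 : ℝ) < R := by exact_mod_cast hR3
  have hlR : 0 < Real.log R := Real.log_pos (by linarith)
  have hlM : 0 < Real.log M := Real.log_pos (by linarith)
  have hHpos : (0 : ℝ) < H := by
    have : 0 < H := by
      rw [hH]
      unfold HJ
      have : 0 < RJ a M := by omega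
      positivity
    exact_mod_cast this
  set U : ℝ := R / Real.log R with hU
  set V : ℝ := H / Real.log M with hV
  have hU0 : 0 < U := by positivity
  have hV0 : 0 < V := by positivity
  have hGUV : GJ a M = U * V := by
    unfold GJ
    rw [hU, hV, ← hR, ← hH]
    field_simp
  set S : ℕ → ℕ → ℝ := fun s m => ∑ t ∈ Icc 1 H, fP H (t : ℤ) * (if (s * m - t).Prime then (1 : ℝ) else 0)
    with hS
  have hS0 : ∀ s m, 0 ≤ S s m := fun s m => Finset.sum_nonneg fun t _ =>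
    mul_nonneg (fP_nonneg' _ _) (by split_ifs <;> norm_num)
  set A : Finset ℕ := {m ∈ Icc M (2 * M) | Even m ∧ ∑ s ∈ IS R, S s m < c₀ * GJ a M} with hA
  set Z : Finset ℕ := {m ∈ Icc M (2 * M) | K * U * V ^ 2 < ∑ s ∈ IS R, (S s m) ^ 2} with hZ
  have hAc : (A.card : ℝ) ≤ δ / 2 * M := hpos M hMa
  have hZc : (Z.card : ℝ) ≤ δ / 2 * M := by
    have e1 : (Z.card : ℝ) * (K * U * V ^ 2) ≤ ∑ m ∈ Icc M (2 * M), ∑ s ∈ IS R, (S s m) ^ 2 := by
      calc (Z.card : ℝ) * (K * U * V ^ 2) = ∑ m ∈ Z, K * U * V ^ 2 := by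
            rw [Finset.sum_const, nsmul_eq_mul]
        _ ≤ ∑ m ∈ Z, ∑ s ∈ IS R, (S s m) ^ 2 :=
            Finset.sum_le_sum fun m hm => (Finset.mem_filter.1 hm).2.le
        _ ≤ _ := Finset.sum_le_sum_of_subset_of_nonneg (Finset.filter_subset _ _)
            (fun _ _ _ => Finset.sum_nonneg fun _ _ => sq_nonneg _)
    have e2 : ∑ m ∈ Icc M (2 * M), ∑ s ∈ IS R, (S s m) ^ 2 ≤ (C₃ * U) * (C * M * V ^ 2) := by
      rw [Finset.sum_comm]
      calc ∑ s ∈ IS R, ∑ m ∈ Icc M (2 * M), (S s m) ^ 2 ≤ ∑ s ∈ IS R, C * M * V ^ 2 :=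
            Finset.sum_le_sum fun s hs => hsec M hMb s hs
        _ = ((IS R).card : ℝ) * (C * M * V ^ 2) := by rw [Finset.sum_const, nsmul_eq_mul]
        _ ≤ (C₃ * U) * (C * M * V ^ 2) := by
            apply mul_le_mul_of_nonneg_right _ (by positivity)
            refine (hIS R (by omega)).1.trans (le_of_eq ?_)
            rw [hU]
            ring
    have e3 : (C₃ * U) * (C * M * V ^ 2) = (δ / 2 * M) * (K * U * V ^ 2) := by
      rw [hK]
      field_simp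
    have e4 := e1.trans (e2.trans (le_of_eq e3))
    exact le_of_mul_le_mul_right e4 (by positivity)
  have hsub : ({m ∈ Icc M (2 * M) | Even m ∧
      ((GM a M m).card : ℝ) < c₀ ^ 2 / K * (R / Real.log R)} : Finset ℕ) ⊆ A ∪ Z := by
    intro m hm
    obtain ⟨hm1, hm2, hm3⟩ := Finset.mem_filter.1 hm
    by_contra hcon
    rw [Finset.mem_union, not_or] at hcon
    obtain ⟨hn1, hn2⟩ := hcon
    have g1 : c₀ * GJ a M ≤ ∑ s ∈ IS R, S s m := by
      by_contra h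
      exact hn1 (Finset.mem_filter.2 ⟨hm1, hm2, not_le.1 h⟩)
    have g2 : ∑ s ∈ IS R, (S s m) ^ 2 ≤ K * U * V ^ 2 := by
      by_contra h
      exact hn2 (Finset.mem_filter.2 ⟨hm1, not_le.1 h⟩)
    have g3 : ∑ s ∈ IS R, S s m = ∑ s ∈ GM a M m, S s m := by
      symm
      apply Finset.sum_subset (Finset.filter_subset _ _)
      intro s hs hns
      rw [hS]
      refine Finset.sum_eq_zero fun t ht => ?_
      by_contra hne
      have k1 : fP H (t : ℤ) ≠ 0 := left_ne_zero_of_mul hne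
      have k2 : (if (s * m - t).Prime then (1 : ℝ) else 0) ≠ 0 := right_ne_zero_of_mul hne
      have hq : (s * m - t).Prime := by
        by_contra hc
        exact k2 (if_neg hc)
      have hp : t.Prime := by
        by_contra hc
        apply k1
        unfold fP
        rw [if_neg]
        rintro ⟨-, -, h3⟩
        apply hc
        simpa using h3
      exact hns (Finset.mem_filter.2 ⟨hs, t, ht, hp, hq⟩)
    have g4 : (∑ s ∈ GM a M m, S s m) ^ 2 ≤ ((GM a M m).card : ℝ) * ∑ s ∈ GM a M m, (S s m) ^ 2 :=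
      sq_sum_le_card_mul_sum_sq
    have g5 : ∑ s ∈ GM a M m, (S s m) ^ 2 ≤ ∑ s ∈ IS R, (S s m) ^ 2 :=
      Finset.sum_le_sum_of_subset_of_nonneg (Finset.filter_subset _ _) fun _ _ _ => sq_nonneg _
    have g6 : (c₀ * (U * V)) ^ 2 ≤ ((GM a M m).card : ℝ) * (K * U * V ^ 2) := by
      rw [hGUV] at g1
      calc (c₀ * (U * V)) ^ 2 ≤ (∑ s ∈ IS R, S s m) ^ 2 :=
            pow_le_pow_left₀ (by positivity) g1 2
        _ = (∑ s ∈ GM a M m, S s m) ^ 2 := by rw [g3]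
        _ ≤ ((GM a M m).card : ℝ) * ∑ s ∈ GM a M m, (S s m) ^ 2 := g4
        _ ≤ ((GM a M m).card : ℝ) * (K * U * V ^ 2) :=
            mul_le_mul_of_nonneg_left (g5.trans g2) (Nat.cast_nonneg _)
    have g7 : (c₀ ^ 2 / K * U) * (K * U * V ^ 2) ≤ ((GM a M m).card : ℝ) * (K * U * V ^ 2) := by
      refine le_trans (le_of_eq ?_) g6
      field_simp
    have g8 := le_of_mul_le_mul_right g7 (by positivity)
    rw [hU] at g8
    linarith
  calc (#{m ∈ Icc M (2 * M) | Even m ∧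
      ((GM a M m).card : ℝ) < c₀ ^ 2 / K * (R / Real.log R)} : ℝ)
      ≤ ((A ∪ Z).card : ℝ) := by exact_mod_cast Finset.card_le_card hsub
    _ ≤ (A.card : ℝ) + (Z.card : ℝ) := by exact_mod_cast Finset.card_union_le _ _
    _ ≤ δ * M := by linarith

end Pool.Agent.E3
end

section

/-!
# Row VK: the variance (port of `varj`, E3/J11)
-/

set_option autoImplicit false

namespace Pool.Agent.Lib.MP_bae66e_nt.MF

open Finset MeasureTheory Real
open Pool.Agent.E3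
open Pool.Agent.Lib.MP_bae66e_nt.EF (PX Wt HR gA COREG)
open Pool.Agent.Lib.MP_bae66e_nt.LL (fP gW)
open Pool.Agent.Lib.MP_bae66e_nt.AC (Sg VV)
open Pool.Agent.Lib.MP_bae66e_nt.AP3 (prI mem_prI)

open Filter in
private theorem VK_log_small (c d : ℝ) (hc : 0 ≤ c) (hd : 0 ≤ d) :
    ∀ᶠ x : ℝ in atTop, (c + d * Real.log x) ^ 4 ≤ x := by
  have h1 := (Real.isLittleO_pow_log_id_atTop (n := 4)).bound
    (show (0 : ℝ) < 1 / (d + 1) ^ 4 by positivity)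
  have h2 : ∀ᶠ x : ℝ in atTop, c ≤ Real.log x := Real.tendsto_log_atTop.eventually_ge_atTop c
  filter_upwards [h1, h2, eventually_ge_atTop (1 : ℝ)] with x h1 h2 h3
  have hx : (0 : ℝ) ≤ Real.log x := Real.log_nonneg h3
  rw [Real.norm_of_nonneg (by positivity), id_eq, Real.norm_of_nonneg (by linarith)] at h1
  calc (c + d * Real.log x) ^ 4 ≤ ((d + 1) * Real.log x) ^ 4 := by
        refine pow_le_pow_left₀ (by positivity) ?_ 4
        linarith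
    _ = (d + 1) ^ 4 * (Real.log x) ^ 4 := by ring
    _ ≤ (d + 1) ^ 4 * (1 / (d + 1) ^ 4 * x) := mul_le_mul_of_nonneg_left h1 (by positivity)
    _ = x := by
        field_simp

open Filter in
private theorem VK_exp_big (s B : ℝ) (hB : 0 ≤ B) : ∀ᶠ x : ℝ in atTop, B * x ^ s ≤ Real.exp x := by
  have h1 := (isLittleO_rpow_exp_atTop s).bound (show (0 : ℝ) < 1 / (B + 1) by positivity)
  filter_upwards [h1, eventually_ge_atTop (0 : ℝ)] with x h1 h2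
  rw [Real.norm_of_nonneg (by positivity), Real.norm_of_nonneg (by positivity)] at h1
  have h3 : 0 ≤ x ^ s := by positivity
  have h4 : (B + 1) * x ^ s ≤ Real.exp x := by
    calc (B + 1) * x ^ s ≤ (B + 1) * (1 / (B + 1) * Real.exp x) :=
          mul_le_mul_of_nonneg_left h1 (by positivity)
      _ = Real.exp x := by
          field_simp
  nlinarith

open Filter in
/-- the parameters -/
private theorem VK_par (a K : ℝ) (ha : 3 ≤ a) : ∃ M₀ : ℕ, ∀ M : ℕ, M₀ ≤ M → ∀ R : ℕ, PX a R M →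
    2 ≤ R ∧ K ≤ R ∧ 1 ≤ Real.log R ∧ 1 ≤ Real.log M ∧
    K * ((Real.log (HR R) + K) ^ 2 * (Real.log M) ^ 2) ≤ HR R ∧
    K * (HR R * ((Real.log (HR R) + K) ^ 2 * (Real.log M) ^ 2)) ≤ M ∧
    K * ((Real.log (HR R) + K) ^ 4 * Real.log R) ≤ R ∧
    4 * (R + HR R) ≤ M := by
  obtain ⟨b, hb⟩ : ∃ b : ℝ, b = a + 1 / 2 := ⟨_, rfl⟩
  have hLt : Tendsto (fun M : ℕ => Real.log (M : ℝ)) atTop atTop :=
    Real.tendsto_log_atTop.comp tendsto_natCast_atTop_atTop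
  have e1 := hLt.eventually (VK_log_small (Real.log 2 + |K|) (2 * b)
    (add_nonneg (Real.log_nonneg (by norm_num)) (abs_nonneg K)) (by linarith))
  have e2 := hLt.eventually (VK_exp_big (2 * b + 3) (2 * |K|) (by positivity))
  have e3 := hLt.eventually (VK_exp_big (2 * b) 12 (by norm_num))
  have e4 := hLt.eventually_ge_atTop (2 * |K| + K ^ 2 + 8)
  have e5 : ∀ᶠ M : ℕ in atTop, 1 ≤ M := eventually_ge_atTop 1
  have e6 := hLt.eventually (VK_log_small 0 b le_rfl (by linarith))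
  obtain ⟨M₀, hM₀⟩ := eventually_atTop.1
    (e1.and (e2.and (e3.and (e4.and (e5.and e6)))))
  refine ⟨M₀, fun M hM R hPX => ?_⟩
  obtain ⟨f1, f2, f3, f4, f5, f6⟩ := hM₀ M hM
  obtain ⟨hlo, hup⟩ := hPX
  rw [← hb] at hup
  have hMR : (0 : ℝ) < M := by exact_mod_cast f5
  rw [Real.exp_log hMR] at f2 f3
  obtain ⟨x, hx⟩ : ∃ x : ℝ, x = Real.log M := ⟨_, rfl⟩
  rw [← hx] at f1 f2 f3 f4 f6 hlo hup
  have hK0 : 0 ≤ |K| := abs_nonneg K
  have hKK : K ≤ |K| := le_abs_self K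
  have hK2 : 0 ≤ K ^ 2 := sq_nonneg K
  have hx8 : 8 ≤ x := by linarith
  have hxK : 2 * |K| ≤ x := by linarith
  have hxK2 : K ^ 2 ≤ x := by linarith
  have hxpos : 0 < x := by linarith
  have hlogx : 0 ≤ Real.log x := Real.log_nonneg (by linarith)
  have hsq2 : 2 ≤ Real.sqrt x := Real.le_sqrt_of_sq_le (by linarith)
  have hsqK : |K| ≤ Real.sqrt x := Real.le_sqrt_of_sq_le (by rw [sq_abs]; exact hxK2)
  have hRlow : x ^ 2 * Real.sqrt x ≤ R := by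
    refine le_trans ?_ hlo
    have h1 : x ^ 2 * Real.sqrt x = x ^ (5 / 2 : ℝ) := by
      rw [Real.sqrt_eq_rpow, ← Real.rpow_natCast, ← Real.rpow_add hxpos]
      norm_num
    rw [h1]
    exact Real.rpow_le_rpow_of_exponent_le (by linarith) (by linarith)
  have hR2x : 2 * x ^ 2 ≤ R := by
    have h1 : x ^ 2 * 2 ≤ x ^ 2 * Real.sqrt x := mul_le_mul_of_nonneg_left hsq2 (by positivity)
    linarith
  have hxR : 16 * x ≤ (R : ℝ) := by nlinarith
  have hH : (HR R : ℝ) = 2 * (R : ℝ) ^ 2 := by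
    unfold HR
    push_cast
    ring
  have hR1 : (1 : ℝ) ≤ R := by linarith
  have hRpos : (0 : ℝ) < R := by linarith
  have hx2b : x ^ (2 * b) = (x ^ b) ^ 2 := by
    rw [two_mul, Real.rpow_add hxpos, sq]
  have hHle : (HR R : ℝ) ≤ 2 * x ^ (2 * b) := by
    rw [hH, hx2b]
    have := pow_le_pow_left₀ hRpos.le hup 2
    linarith
  have hHpos : (0 : ℝ) < HR R := by
    rw [hH]
    positivity
  have hlogR : Real.log R ≤ b * Real.log x := by
    rw [← Real.log_rpow hxpos]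
    exact Real.log_le_log hRpos hup
  have hlogH : Real.log (HR R) ≤ Real.log 2 + 2 * b * Real.log x := by
    rw [hH, Real.log_mul (by norm_num) (by positivity), Real.log_pow]
    push_cast
    linarith
  have hlogH0 : 0 ≤ Real.log (HR R) := Real.log_natCast_nonneg _
  have hlogR0 : 0 ≤ Real.log (R : ℝ) := Real.log_natCast_nonneg _
  have hbase : |Real.log (HR R) + K| ≤ Real.log 2 + |K| + 2 * b * Real.log x := by
    refine (abs_add_le _ _).trans ?_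
    rw [abs_of_nonneg hlogH0]
    linarith
  have h4 : (Real.log (HR R) + K) ^ 4 ≤ x := by
    refine le_trans ?_ f1
    have h5 : (Real.log (HR R) + K) ^ 4 = |Real.log (HR R) + K| ^ 4 := by
      rw [← abs_pow, abs_of_nonneg (by positivity)]
    rw [h5]
    exact pow_le_pow_left₀ (abs_nonneg _) hbase 4
  have h2 : (Real.log (HR R) + K) ^ 2 ≤ x := by
    have h5 : (Real.log (HR R) + K) ^ 4 = ((Real.log (HR R) + K) ^ 2) ^ 2 := by ring
    rw [h5] at h4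
    have h6 : 0 ≤ (Real.log (HR R) + K) ^ 2 := by positivity
    by_contra h7
    push Not at h7
    nlinarith
  have hlogRx : Real.log R ≤ x := by
    have h5 : 0 ≤ b * Real.log x := mul_nonneg (by linarith) hlogx
    refine hlogR.trans ?_
    by_contra h7
    push Not at h7
    have h8 : (1 : ℝ) ≤ b * Real.log x := by linarith
    have h9 : b * Real.log x ≤ (0 + b * Real.log x) ^ 4 := by
      rw [zero_add]
      calc b * Real.log x = (b * Real.log x) ^ 1 := (pow_one _).symm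
        _ ≤ (b * Real.log x) ^ 4 := pow_le_pow_right₀ h8 (by norm_num)
    linarith
  have h20 : 0 ≤ (Real.log (HR R) + K) ^ 2 := by positivity
  have h40 : 0 ≤ (Real.log (HR R) + K) ^ 4 := by positivity
  rw [← hx]
  refine ⟨?_, ?_, ?_, ?_, ?_, ?_, ?_, ?_⟩
  · have h5 : (2 : ℝ) ≤ R := by linarith
    exact_mod_cast h5
  · linarith
  · rw [Real.le_log_iff_exp_le hRpos]
    have h5 := Real.exp_one_lt_d9
    linarith
  · linarith
  · have h5 : K * ((Real.log (HR R) + K) ^ 2 * x ^ 2) ≤ |K| * (x * x ^ 2) := by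
      have h6 : 0 ≤ (Real.log (HR R) + K) ^ 2 * x ^ 2 := by positivity
      calc K * ((Real.log (HR R) + K) ^ 2 * x ^ 2)
          ≤ |K| * ((Real.log (HR R) + K) ^ 2 * x ^ 2) := mul_le_mul_of_nonneg_right hKK h6
        _ ≤ |K| * (x * x ^ 2) := by gcongr
    refine h5.trans ?_
    rw [hH]
    have h7 : (2 * x ^ 2) ^ 2 ≤ (R : ℝ) ^ 2 := pow_le_pow_left₀ (by positivity) hR2x 2
    have h8 : |K| * (x * x ^ 2) ≤ x / 2 * (x * x ^ 2) :=
      mul_le_mul_of_nonneg_right (by linarith) (by positivity)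
    have h9 : x / 2 * (x * x ^ 2) ≤ 2 * (2 * x ^ 2) ^ 2 := by
      have h10 : 0 ≤ x ^ 4 := by positivity
      nlinarith
    linarith
  · have h5 : K * (HR R * ((Real.log (HR R) + K) ^ 2 * x ^ 2)) ≤
        |K| * ((2 * x ^ (2 * b)) * (x * x ^ 2)) := by
      have h6 : 0 ≤ (HR R : ℝ) * ((Real.log (HR R) + K) ^ 2 * x ^ 2) := by positivity
      calc K * (HR R * ((Real.log (HR R) + K) ^ 2 * x ^ 2))
          ≤ |K| * (HR R * ((Real.log (HR R) + K) ^ 2 * x ^ 2)) :=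
            mul_le_mul_of_nonneg_right hKK h6
        _ ≤ |K| * ((2 * x ^ (2 * b)) * (x * x ^ 2)) := by gcongr
    refine h5.trans (le_trans (le_of_eq ?_) f2)
    have h7 : x ^ (2 * b + 3) = x ^ (2 * b) * x ^ 3 := by
      rw [Real.rpow_add hxpos]
      norm_num
    rw [h7]
    ring
  · have h5 : K * ((Real.log (HR R) + K) ^ 4 * Real.log R) ≤ |K| * (x * x) := by
      have h6 : 0 ≤ (Real.log (HR R) + K) ^ 4 * Real.log R := by positivity
      calc K * ((Real.log (HR R) + K) ^ 4 * Real.log R)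
          ≤ |K| * ((Real.log (HR R) + K) ^ 4 * Real.log R) :=
            mul_le_mul_of_nonneg_right hKK h6
        _ ≤ |K| * (x * x) := by gcongr
    refine h5.trans ?_
    have h8 : |K| * (x * x) ≤ Real.sqrt x * (x * x) :=
      mul_le_mul_of_nonneg_right hsqK (by positivity)
    have h9 : Real.sqrt x * (x * x) = x ^ 2 * Real.sqrt x := by ring
    linarith
  · have h5 : ((4 * (R + HR R) : ℕ) : ℝ) ≤ (M : ℝ) := by
      push_cast
      have h6 : x ^ b ≤ x ^ (2 * b) := by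
        rw [hx2b]
        have h61 : 1 ≤ x ^ b := by linarith
        nlinarith
      linarith
    exact_mod_cast h5

/-- The second factor. -/
private theorem VK_energy (C₆ ε R H lam A n S2 rh I4 : ℝ) (hC₆p : 0 < C₆) (hε0 : 0 < ε)
    (hRR : 2 ≤ R) (hHR : H = 2 * R ^ 2) (hlpos : 0 < lam) (c3 : A ^ 4 ≤ ε * R)
    (c4 : 25 * A ^ 4 * lam ≤ C₆ * ε * R) (hn0 : 0 ≤ n)
    (hrh0 : 0 ≤ rh) (hI40 : 0 ≤ I4) (i1 : n ≤ C₆ * R / lam) (i2 : rh ≤ C₆ / lam)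
    (g0 : S2 ^ 2 ≤ H ^ 2 * A ^ 4) (hI4 : I4 ≤ ε * H ^ 3) :
    n * S2 ^ 2 + rh * I4 + 1 / R * (π ^ 2 / 4 * ((2 * R) ^ 2 + 2 * (H + 1))) * S2 ^ 2
      ≤ 3 * C₆ * ε * H ^ 3 / lam := by
  have hRpos : 0 < R := by linarith
  have hHpos : 0 < H := by
    rw [hHR]
    positivity
  have hS : 0 ≤ S2 ^ 2 := sq_nonneg _
  have hRH : R ^ 2 ≤ H := by
    rw [hHR]
    have := sq_nonneg R
    linarith
  have g1 : n * S2 ^ 2 ≤ C₆ * ε * H ^ 3 / lam := by
    calc n * S2 ^ 2 ≤ (C₆ * R / lam) * (H ^ 2 * A ^ 4) := by gcongr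
      _ ≤ (C₆ * R / lam) * (H ^ 2 * (ε * R)) := by gcongr
      _ = C₆ * ε * H ^ 2 * R ^ 2 / lam := by ring
      _ ≤ C₆ * ε * H ^ 2 * H / lam := by gcongr
      _ = C₆ * ε * H ^ 3 / lam := by ring
  have g2 : rh * I4 ≤ C₆ * ε * H ^ 3 / lam := by
    calc rh * I4 ≤ (C₆ / lam) * (ε * H ^ 3) := by gcongr
      _ = C₆ * ε * H ^ 3 / lam := by ring
  have g3 : 1 / R * (π ^ 2 / 4 * ((2 * R) ^ 2 + 2 * (H + 1))) * S2 ^ 2 ≤
      C₆ * ε * H ^ 3 / lam := by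
    have h1 : π ^ 2 ≤ 10 := by
      have h5 := Real.pi_lt_d2
      have h6 := Real.pi_pos
      calc π ^ 2 ≤ 3.15 ^ 2 := pow_le_pow_left₀ h6.le h5.le 2
        _ ≤ 10 := by norm_num
    have h0 : 1 ≤ R ^ 2 := one_le_pow₀ (by linarith)
    have h2 : (2 * R) ^ 2 + 2 * (H + 1) ≤ 10 * R ^ 2 := by
      rw [hHR]
      calc (2 * R) ^ 2 + 2 * (2 * R ^ 2 + 1) = 8 * R ^ 2 + 2 := by ring
        _ ≤ 10 * R ^ 2 := by linarith
    have h3 : π ^ 2 / 4 * ((2 * R) ^ 2 + 2 * (H + 1)) ≤ 25 * R ^ 2 := by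
      calc π ^ 2 / 4 * ((2 * R) ^ 2 + 2 * (H + 1)) ≤ 10 / 4 * (10 * R ^ 2) := by
            gcongr
        _ = 25 * R ^ 2 := by ring
    calc 1 / R * (π ^ 2 / 4 * ((2 * R) ^ 2 + 2 * (H + 1))) * S2 ^ 2
        ≤ 1 / R * (25 * R ^ 2) * (H ^ 2 * A ^ 4) := by
          gcongr
      _ = R * H ^ 2 / lam * (25 * A ^ 4 * lam) := by
          field_simp
      _ ≤ R * H ^ 2 / lam * (C₆ * ε * R) := mul_le_mul_of_nonneg_left c4 (by positivity)
      _ = C₆ * ε * H ^ 2 * R ^ 2 / lam := by ring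
      _ ≤ C₆ * ε * H ^ 2 * H / lam := by gcongr
      _ = C₆ * ε * H ^ 3 / lam := by ring
  have g4 : 3 * C₆ * ε * H ^ 3 / lam = C₆ * ε * H ^ 3 / lam + C₆ * ε * H ^ 3 / lam +
      C₆ * ε * H ^ 3 / lam := by ring
  rw [g4]
  linarith

private theorem VK_first (C₆ η R H M L lam A n S1 S2 : ℝ) (hC₆p : 0 < C₆)
    (hRR : 2 ≤ R) (hH : 0 < H) (hM : 1 ≤ M) (hL : 0 < L) (hlpos : 0 < lam) (hA : 0 ≤ A)
    (c1 : 8 * C₆ ^ 2 * A ^ 2 * L ^ 2 ≤ η * H) (c2 : 8 * C₆ ^ 2 * H * A ^ 2 * L ^ 2 ≤ η * M)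
    (hn0 : 0 ≤ n) (hS1 : 0 ≤ S1) (hS2 : 0 ≤ S2) (i1 : n ≤ C₆ * R / lam)
    (f1 : S2 ≤ H * A ^ 2) (f2 : S1 ≤ H * A) :
    n * (n * ((M + 1) * S2 + 2 * H * S1 ^ 2)) ≤ η / 2 * M * ((R * H) / (lam * L)) ^ 2 := by
  have hRpos : 0 < R := by linarith
  have hMpos : 0 < M := by linarith
  have g1 : (M + 1) * S2 + 2 * H * S1 ^ 2 ≤ 2 * M * (H * A ^ 2) + 2 * H * (H * A) ^ 2 := by
    have h1 : M + 1 ≤ 2 * M := by linarith
    gcongr
  have g2 : C₆ ^ 2 * (2 * M * (H * A ^ 2) + 2 * H * (H * A) ^ 2) * L ^ 2 ≤ η / 2 * M * H ^ 2 := by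
    have h1 := mul_le_mul_of_nonneg_left c1 (show (0 : ℝ) ≤ M * H / 4 by positivity)
    have h2 := mul_le_mul_of_nonneg_left c2 (show (0 : ℝ) ≤ H ^ 2 / 4 by positivity)
    calc C₆ ^ 2 * (2 * M * (H * A ^ 2) + 2 * H * (H * A) ^ 2) * L ^ 2
        = M * H / 4 * (8 * C₆ ^ 2 * A ^ 2 * L ^ 2) + H ^ 2 / 4 * (8 * C₆ ^ 2 * H * A ^ 2 * L ^ 2) := by
          ring
      _ ≤ M * H / 4 * (η * H) + H ^ 2 / 4 * (η * M) := add_le_add h1 h2
      _ = η / 2 * M * H ^ 2 := by ring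
  have g0 : 0 ≤ (M + 1) * S2 + 2 * H * S1 ^ 2 := by positivity
  calc n * (n * ((M + 1) * S2 + 2 * H * S1 ^ 2))
      ≤ (C₆ * R / lam) * ((C₆ * R / lam) * (2 * M * (H * A ^ 2) + 2 * H * (H * A) ^ 2)) := by
        gcongr
    _ = (R ^ 2 / (lam ^ 2 * L ^ 2)) *
        (C₆ ^ 2 * (2 * M * (H * A ^ 2) + 2 * H * (H * A) ^ 2) * L ^ 2) := by
        field_simp
    _ ≤ (R ^ 2 / (lam ^ 2 * L ^ 2)) * (η / 2 * M * H ^ 2) :=
        mul_le_mul_of_nonneg_left g2 (by positivity)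
    _ = η / 2 * M * ((R * H) / (lam * L)) ^ 2 := by
        rw [div_pow, mul_pow, mul_pow]
        ring

private theorem VK_second (C₁ C₄ C₆ η τ ε R H M L lam n Sg E : ℝ) (hC₁ : 0 < C₁) (hC₄ : 0 < C₄)
    (hC₆p : 0 < C₆) (hη : 0 < η) (hτ : τ = η / (4 * C₁ * C₆ ^ 2)) (hε : 0 < ε)
    (hετ : 6 * C₄ * ε = τ ^ 2) (hR : 0 < R) (hH : 0 < H) (hM : 0 < M) (hL : 0 < L)
    (hlpos : 0 < lam) (hn0 : 0 ≤ n) (hSg0 : 0 ≤ Sg)
    (i1 : n ≤ C₆ * R / lam) (hE : E ≤ 3 * C₆ * ε * H ^ 3 / lam)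
    (hcl : Sg ≤ Real.sqrt (n * (2 * R) * (C₄ * H)) * Real.sqrt E) :
    n * (2 * (C₁ * (M / L ^ 2)) * Sg) ≤ η / 2 * M * ((R * H) / (lam * L)) ^ 2 := by
  have hτ0 : 0 < τ := by
    rw [hτ]
    positivity
  have hSgle : Sg ≤ τ * (C₆ * R * H ^ 2 / lam) := by
    refine hcl.trans ?_
    have g1 : n * (2 * R) * (C₄ * H) ≤ 2 * C₄ * C₆ * R ^ 2 * H / lam := by
      calc n * (2 * R) * (C₄ * H) ≤ (C₆ * R / lam) * (2 * R) * (C₄ * H) := by gcongr
        _ = 2 * C₄ * C₆ * R ^ 2 * H / lam := by ring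
    calc Real.sqrt (n * (2 * R) * (C₄ * H)) * Real.sqrt E
        ≤ Real.sqrt (2 * C₄ * C₆ * R ^ 2 * H / lam) * Real.sqrt (3 * C₆ * ε * H ^ 3 / lam) := by
          gcongr
      _ = Real.sqrt ((τ * (C₆ * R * H ^ 2 / lam)) ^ 2) := by
          rw [← Real.sqrt_mul (by positivity)]
          congr 1
          rw [mul_pow, ← hετ]
          field_simp
          ring
      _ = τ * (C₆ * R * H ^ 2 / lam) := Real.sqrt_sq (by positivity)
  calc n * (2 * (C₁ * (M / L ^ 2)) * Sg)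
      ≤ (C₆ * R / lam) * (2 * (C₁ * (M / L ^ 2)) * (τ * (C₆ * R * H ^ 2 / lam))) := by
        gcongr
    _ = (2 * C₁ * C₆ ^ 2 * τ) * M * ((R * H) / (lam * L)) ^ 2 := by
        field_simp
    _ = η / 2 * M * ((R * H) / (lam * L)) ^ 2 := by
        have h1 : 2 * C₁ * C₆ ^ 2 * τ = η / 2 := by
          rw [hτ]
          field_simp
          ring
        rw [h1]

/-- `var_total` with weights -/
private theorem VK_total (α : ℕ → ℝ) (hα : Wt α) (f : ℕ → ℝ) (H R M : ℕ) (B : ℝ) (hH : H ≤ M)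
    (hN : ∀ s b h : ℕ, s ∈ IS R → b < s → 1 ≤ h → h ≤ H → (NJ M s b (b + h) : ℝ) ≤ B * (Fr h) ^ 2) :
    ∑ m ∈ Icc M (2 * M), (∑ s ∈ IS R, α s * ∑ t ∈ Icc 1 H, f t * (if (s * m - t).Prime then 1 else 0)) ^ 2
      ≤ #(IS R) * (#(IS R) * ((M + 1) * ∑ t ∈ Icc 1 H, f t ^ 2 + 2 * H * (∑ t ∈ Icc 1 H, |f t|) ^ 2)
        + 2 * B * ∑ s ∈ IS R, ∑ h ∈ Icc 1 H, ∑ b ∈ range s, (Fr h) ^ 2 * |cb f H s b h|) := by
  calc ∑ m ∈ Icc M (2 * M), (∑ s ∈ IS R, α s * ∑ t ∈ Icc 1 H, f t * (if (s * m - t).Prime then 1 else 0)) ^ 2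
      ≤ ∑ m ∈ Icc M (2 * M), (#(IS R) : ℝ) *
          ∑ s ∈ IS R, (∑ t ∈ Icc 1 H, f t * (if (s * m - t).Prime then 1 else 0)) ^ 2 := by
        refine Finset.sum_le_sum fun m _ => ?_
        refine sq_sum_le_card_mul_sum_sq.trans ?_
        refine mul_le_mul_of_nonneg_left (Finset.sum_le_sum fun s _ => ?_) (Nat.cast_nonneg _)
        rw [mul_pow]
        have h1 : (α s) ^ 2 ≤ 1 := pow_le_one₀ (hα s).1 (hα s).2
        exact mul_le_of_le_one_left (sq_nonneg _) h1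
    _ = (#(IS R) : ℝ) * ∑ s ∈ IS R, ∑ m ∈ Icc M (2 * M),
          (∑ t ∈ Icc 1 H, f t * (if (s * m - t).Prime then 1 else 0)) ^ 2 := by
        rw [← Finset.mul_sum, Finset.sum_comm]
    _ ≤ (#(IS R) : ℝ) * ∑ s ∈ IS R, ((M + 1) * ∑ t ∈ Icc 1 H, f t ^ 2 + 2 * H * (∑ t ∈ Icc 1 H, |f t|) ^ 2
        + 2 * B * ∑ h ∈ Icc 1 H, ∑ b ∈ range s, (Fr h) ^ 2 * |cb f H s b h|) := by
        refine mul_le_mul_of_nonneg_left (Finset.sum_le_sum fun s hs => ?_) (Nat.cast_nonneg _)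
        exact one_s_bound f H s M B (mem_prI.mp hs).2.one_lt.le hH (fun b h hb h1 h2 => hN s b h hs hb h1 h2)
    _ = _ := by
        rw [Finset.sum_add_distrib, Finset.sum_const, nsmul_eq_mul, ← Finset.mul_sum]

/-- PROOF. As `varj` (E3/J11) with a general `R` (`PX a R M`): `var_total` starts with Cauchy-Schwarz over `s`, so the weights `0 ≤ α ≤ 1` can be dropped: prove `(∑ α s x_s)² ≤ #(IS R) ∑ x_s²` and continue as there. The inequalities of `par_J` for `R` between `(log M)^(a - 1/2)` and `(log M)^(a + 1/2)`. -/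
theorem vark_of (a : ℝ) (ha : 3 ≤ a) : VARK a := by
  intro η hη
  obtain ⟨C₁, hC₁, M₁, hpair⟩ := pair_m
  obtain ⟨C₄, hC₄, hclass⟩ := class_sum_le
  obtain ⟨C₆, hC₆, hIS⟩ := IS_bounds
  obtain ⟨τ, hτ⟩ : ∃ τ : ℝ, τ = η / (4 * C₁ * C₆ ^ 2) := ⟨_, rfl⟩
  have hC₁p : 0 < C₁ := by linarith
  have hC₄p : 0 < C₄ := by linarith
  have hC₆p : 0 < C₆ := by linarith
  have hτ0 : 0 < τ := by
    rw [hτ]
    positivity
  obtain ⟨ε, hε⟩ : ∃ ε : ℝ, ε = τ ^ 2 / (6 * C₄) := ⟨_, rfl⟩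
  have hε0 : 0 < ε := by
    rw [hε]
    positivity
  have hετ : 6 * C₄ * ε = τ ^ 2 := by
    rw [hε]
    field_simp
  obtain ⟨w₀, hw₀⟩ := Pool.Agent.PP.fourth_EL Pool.Agent.PP.pntap ε hε0
  refine ⟨w₀, fun w hw => ?_⟩
  obtain ⟨y₀, hy₀⟩ := hw₀ w hw
  obtain ⟨W, hWdef⟩ : ∃ W, W = primorial w := ⟨_, rfl⟩
  have hW1 : 1 ≤ W := by
    rw [hWdef]
    exact primorial_pos w
  have hWR : (1 : ℝ) ≤ W := by exact_mod_cast hW1
  obtain ⟨K, hK⟩ : ∃ K : ℝ, K = (y₀ : ℝ) + W + 8 * C₆ ^ 2 / η + 1 / ε + 25 / (C₆ * ε) := ⟨_, rfl⟩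
  have hy0 : (0 : ℝ) ≤ y₀ := Nat.cast_nonneg _
  have t1 : 0 < 8 * C₆ ^ 2 / η := by positivity
  have t2 : 0 < 1 / ε := by positivity
  have t3 : 0 < 25 / (C₆ * ε) := by positivity
  have hKW : (W : ℝ) ≤ K := by linarith
  have hKy : (y₀ : ℝ) ≤ K := by linarith
  have hK1 : 8 * C₆ ^ 2 / η ≤ K := by linarith
  have hK2 : 1 / ε ≤ K := by linarith
  have hK3 : 25 / (C₆ * ε) ≤ K := by linarith
  have hKpos : 0 < K := by linarith
  obtain ⟨M₂, hpar⟩ := VK_par a K ha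
  refine ⟨max M₁ (max M₂ 1), fun M hM R hPX α hα => ?_⟩
  have hM1 : M₁ ≤ M := (le_max_left _ _).trans hM
  have hM2 : M₂ ≤ M := ((le_max_left _ _).trans (le_max_right _ _)).trans hM
  have hM3 : 1 ≤ M := ((le_max_right _ _).trans (le_max_right _ _)).trans hM
  obtain ⟨p1, p2, p3, p4, p5, p6, p7, p8⟩ := hpar M hM2 R hPX
  obtain ⟨H, hH⟩ : ∃ H, H = HR R := ⟨_, rfl⟩
  rw [← hWdef] at hy₀ ⊢
  have hG : GK R M = ((R : ℝ) * H) / (Real.log R * Real.log M) := by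
    unfold GK
    rw [← hH]
  have hHR : (H : ℝ) = 2 * (R : ℝ) ^ 2 := by
    rw [hH]
    unfold HR
    push_cast
    ring
  rw [hG]
  rw [← hH] at p5 p6 p7 p8 ⊢
  obtain ⟨L, hL⟩ : ∃ L : ℝ, L = Real.log M := ⟨_, rfl⟩
  obtain ⟨lam, hlam⟩ : ∃ lam : ℝ, lam = Real.log R := ⟨_, rfl⟩
  rw [← hL] at p4 p5 p6 ⊢
  rw [← hlam] at p3 p7 ⊢
  obtain ⟨A, hA⟩ : ∃ A : ℝ, A = Real.log H + W := ⟨_, rfl⟩
  have hlogH : 0 ≤ Real.log H := Real.log_natCast_nonneg H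
  have hA0 : 0 ≤ A := by linarith
  have hAK : A ≤ Real.log H + K := by linarith
  have hA2 : A ^ 2 ≤ (Real.log H + K) ^ 2 := pow_le_pow_left₀ hA0 hAK 2
  have hA4 : A ^ 4 ≤ (Real.log H + K) ^ 4 := pow_le_pow_left₀ hA0 hAK 4
  have hRR : (2 : ℝ) ≤ R := by exact_mod_cast p1
  have hRpos : (0 : ℝ) < R := by linarith
  have hHpos : (0 : ℝ) < H := by
    rw [hHR]
    positivity
  have hH1 : 1 ≤ H := by
    have : 0 < H := by exact_mod_cast hHpos
    omega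
  have hMpos : (0 : ℝ) < M := by exact_mod_cast hM3
  have hLpos : 0 < L := by linarith
  have hlpos : 0 < lam := by linarith
  have hHM : H ≤ M := by omega
  -- the conditions on the parameters
  have c1 : 8 * C₆ ^ 2 * A ^ 2 * L ^ 2 ≤ η * H := by
    have h1 : 8 * C₆ ^ 2 / η * (A ^ 2 * L ^ 2) ≤ H :=
      calc 8 * C₆ ^ 2 / η * (A ^ 2 * L ^ 2) ≤ K * ((Real.log H + K) ^ 2 * L ^ 2) := by gcongr
        _ ≤ (H : ℝ) := p5
    calc 8 * C₆ ^ 2 * A ^ 2 * L ^ 2 = η * (8 * C₆ ^ 2 / η * (A ^ 2 * L ^ 2)) := by field_simp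
      _ ≤ η * H := mul_le_mul_of_nonneg_left h1 hη.le
  have c2 : 8 * C₆ ^ 2 * H * A ^ 2 * L ^ 2 ≤ η * M := by
    have h1 : 8 * C₆ ^ 2 / η * (H * (A ^ 2 * L ^ 2)) ≤ M :=
      calc 8 * C₆ ^ 2 / η * (H * (A ^ 2 * L ^ 2)) ≤ K * (H * ((Real.log H + K) ^ 2 * L ^ 2)) := by
            gcongr
        _ ≤ (M : ℝ) := p6
    calc 8 * C₆ ^ 2 * H * A ^ 2 * L ^ 2 = η * (8 * C₆ ^ 2 / η * (H * (A ^ 2 * L ^ 2))) := by
          field_simp
      _ ≤ η * M := mul_le_mul_of_nonneg_left h1 hη.le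
  have c3 : A ^ 4 ≤ ε * R := by
    have h1 : 1 / ε * A ^ 4 ≤ R :=
      calc 1 / ε * A ^ 4 ≤ K * (Real.log H + K) ^ 4 := by gcongr
        _ = K * ((Real.log H + K) ^ 4 * 1) := by ring
        _ ≤ K * ((Real.log H + K) ^ 4 * lam) := by gcongr
        _ ≤ (R : ℝ) := p7
    calc A ^ 4 = ε * (1 / ε * A ^ 4) := by field_simp
      _ ≤ ε * R := mul_le_mul_of_nonneg_left h1 hε0.le
  have c4 : 25 * A ^ 4 * lam ≤ C₆ * ε * R := by
    have h1 : 25 / (C₆ * ε) * (A ^ 4 * lam) ≤ R :=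
      calc 25 / (C₆ * ε) * (A ^ 4 * lam) ≤ K * ((Real.log H + K) ^ 4 * lam) := by gcongr
        _ ≤ (R : ℝ) := p7
    calc 25 * A ^ 4 * lam = C₆ * ε * (25 / (C₆ * ε) * (A ^ 4 * lam)) := by field_simp
      _ ≤ C₆ * ε * R := mul_le_mul_of_nonneg_left h1 (by positivity)
  have hyH : y₀ ≤ H := by
    have h1 : (y₀ : ℝ) ≤ H := by
      rw [hHR]
      nlinarith
    exact_mod_cast h1
  obtain ⟨f0, f1, f2⟩ := EL_bounds W H hW1 hH1
  rw [← hA] at f1 f2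
  have hI4 := hy₀ H hyH
  obtain ⟨i1, i2⟩ := hIS R p1
  rw [← hlam] at i1 i2
  have hvar := VK_total α hα (Pool.Agent.PP.EL W H) H R M (C₁ * (M / L ^ 2)) hHM
    (fun s b h hs hb hh hhH => by
      have hs' := hs
      rw [IS, mem_prI] at hs'
      have h1 := hpair M hM1 s b h hs'.2 hh (by omega)
      rw [← hL] at h1
      exact h1)
  have hcl := hclass (Pool.Agent.PP.EL W H) H R f0 (by omega)
  -- the left side
  have hlhs : ∑ m ∈ Icc M (2 * M), (∑ s ∈ IS R, α s * ∑ t ∈ Icc 1 H,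
        (fP H (t : ℤ) - gW W H (t : ℤ)) * (if (s * m - t).Prime then 1 else 0)) ^ 2 =
      ∑ m ∈ Icc M (2 * M), (∑ s ∈ IS R, α s * ∑ t ∈ Icc 1 H,
        Pool.Agent.PP.EL W H t * (if (s * m - t).Prime then 1 else 0)) ^ 2 := by
    refine Finset.sum_congr rfl fun m _ => ?_
    refine congrArg (· ^ 2) ?_
    refine Finset.sum_congr rfl fun s _ => ?_
    congr 1
    refine Finset.sum_congr rfl fun t _ => ?_
    rw [EL_eq]
  rw [hlhs]
  refine hvar.trans ?_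
  -- abbreviations
  obtain ⟨n, hn⟩ : ∃ n : ℝ, n = (#(IS R) : ℝ) := ⟨_, rfl⟩
  obtain ⟨S2, hS2⟩ : ∃ S2 : ℝ, S2 = ∑ t ∈ Icc 1 H, Pool.Agent.PP.EL W H t ^ 2 := ⟨_, rfl⟩
  obtain ⟨S1, hS1⟩ : ∃ S1 : ℝ, S1 = ∑ t ∈ Icc 1 H, |Pool.Agent.PP.EL W H t| := ⟨_, rfl⟩
  obtain ⟨rh, hrh⟩ : ∃ rh : ℝ, rh = ∑ s ∈ IS R, 1 / (s : ℝ) := ⟨_, rfl⟩
  obtain ⟨Sg, hSg⟩ : ∃ Sg : ℝ, Sg = ∑ s ∈ IS R, ∑ h ∈ Icc 1 H, ∑ b ∈ range s,
    (Fr h) ^ 2 * |cb (Pool.Agent.PP.EL W H) H s b h| := ⟨_, rfl⟩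
  obtain ⟨I4, hI4d⟩ : ∃ I4 : ℝ, I4 = ∫ θ in (0:ℝ)..1, ‖SF (Pool.Agent.PP.EL W H) H θ‖ ^ 4 :=
    ⟨_, rfl⟩
  have hI4' : I4 ≤ ε * (H : ℝ) ^ 3 := by
    rw [hI4d]
    exact hI4
  have hI40 : 0 ≤ I4 := by
    rw [hI4d]
    refine intervalIntegral.integral_nonneg zero_le_one fun θ _ => by positivity
  rw [← hn, ← hS2, ← hrh, ← hI4d, ← hSg] at hcl
  rw [← hn, ← hS2, ← hS1, ← hSg]
  rw [← hS2] at f1
  rw [← hS1] at f2
  rw [← hn] at i1
  rw [← hrh] at i2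
  have hn0 : 0 ≤ n := by
    rw [hn]
    positivity
  have hS20 : 0 ≤ S2 := by
    rw [hS2]
    exact Finset.sum_nonneg fun _ _ => sq_nonneg _
  have hS10 : 0 ≤ S1 := by
    rw [hS1]
    exact Finset.sum_nonneg fun _ _ => abs_nonneg _
  have hrh0 : 0 ≤ rh := by
    rw [hrh]
    exact Finset.sum_nonneg fun _ _ => by positivity
  have hfirst := VK_first C₆ η R H M L lam A n S1 S2 hC₆p hRR hHpos (by exact_mod_cast hM3) hLpos
    hlpos hA0 c1 c2 hn0 hS10 hS20 i1 f1 f2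
  have g0 : S2 ^ 2 ≤ H ^ 2 * A ^ 4 := by
    calc S2 ^ 2 ≤ (H * A ^ 2) ^ 2 := pow_le_pow_left₀ hS20 f1 2
      _ = H ^ 2 * A ^ 4 := by ring
  have hE := VK_energy C₆ ε R H lam A n S2 rh I4 hC₆p hε0 hRR hHR hlpos c3 c4 hn0 hrh0 hI40 i1 i2
    g0 hI4'
  have hSg0 : 0 ≤ Sg := by
    rw [hSg]
    refine Finset.sum_nonneg fun _ _ => Finset.sum_nonneg fun _ _ =>
      Finset.sum_nonneg fun _ _ => by positivity
  have hsecond := VK_second C₁ C₄ C₆ η τ ε R H M L lam n Sg _ hC₁p hC₄p hC₆p hη hτ hε0 hετ hRpos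
    hHpos hMpos hLpos hlpos hn0 hSg0 i1 hE hcl
  calc n * (n * ((M + 1) * S2 + 2 * H * S1 ^ 2) + 2 * (C₁ * (M / L ^ 2)) * Sg)
      = n * (n * ((M + 1) * S2 + 2 * H * S1 ^ 2)) + n * (2 * (C₁ * (M / L ^ 2)) * Sg) := by ring
    _ ≤ η / 2 * M * (((R : ℝ) * H) / (lam * L)) ^ 2 +
        η / 2 * M * (((R : ℝ) * H) / (lam * L)) ^ 2 := add_le_add hfirst hsecond
    _ = η * M * (((R : ℝ) * H) / (lam * L)) ^ 2 := by ring

end Pool.Agent.Lib.MP_bae66e_nt.MF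
end
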