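import Pool.Agent.Lib.MP_bae66e_nt.Mg.G101
import Pool.Agent.Lib.MP_bae66e_nt.Mg.G030
import Pool.Agent.Lib.MP_bae66e_nt.Mg.G039
import Pool.Agent.Lib.MP_bae66e_nt.Mg.G024
import Pool.Agent.Lib.MP_bae66e_nt.Mg.G100
import Pool.Agent.Lib.MP_bae66e_nt.Mg.G003
import Pool.Agent.Lib.MP_bae66e_nt.Mg.G032

section

/-!
# Row Q2: the second moment (port of `second_most`, AC/RowI)
-/

set_option autoImplicit false

namespace Pool.Agent.Lib.MP_bae66e_nt.MF

open Finset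
open Pool.Agent.E3
open Pool.Agent.Lib.MP_bae66e_nt
open Pool.Agent.Lib.MP_bae66e_nt.AC
open Pool.Agent.Lib.MP_bae66e_nt.EF (PX HR)
open Pool.Agent.Lib.MP_bae66e_nt.AP3 (prI mem_prI)
open Pool.Agent.Lib.MP_bae66e_nt.LL (fP)

/-- PROOF. As `second_most` (AC/RowI), exactly as EF/Q2 is made from E2/I. -/
theorem seck_of : ∃ C a₁ : ℝ, 1 ≤ C ∧ 3 ≤ a₁ ∧ ∀ a : ℝ, a₁ ≤ a → SECK C a := by
  classical
  obtain ⟨C₀, a₁, hC₀, ha₁, hvar⟩ := var_class_k
  obtain ⟨C₃, hC₃, hIS⟩ := IS_bounds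
  have hCC : 1 ≤ C₀ ^ 2 * C₃ := by
    have : 1 ≤ C₀ ^ 2 := one_le_pow₀ hC₀
    nlinarith
  refine ⟨4 * (C₀ ^ 2 * C₃), a₁, by linarith, ha₁, fun a ha δ hδ => ?_⟩
  obtain ⟨w₀, hw₀⟩ := hvar a ha δ hδ
  refine ⟨max w₀ 2, fun w hw => ?_⟩
  have hw2 : 2 ≤ w := (le_max_right _ _).trans hw
  obtain ⟨M₁, hM₁⟩ := hw₀ w ((le_max_left _ _).trans hw) (fun m hm => (one_le_Sg w m hw2 hm).2)
  obtain ⟨M₂, hM₂⟩ := parK a 4 1 (ha₁.trans ha) one_pos
  refine ⟨max M₁ (max M₂ 16), fun M hM R hPX => ?_⟩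
  have hMa : M₁ ≤ M := (le_max_left _ _).trans hM
  have hMb : M₂ ≤ M := ((le_max_left _ _).trans (le_max_right _ _)).trans hM
  have hMc : 16 ≤ M := ((le_max_right _ _).trans (le_max_right _ _)).trans hM
  obtain ⟨-, -, -, -, -, hR4, -⟩ := hM₂ M hMb R hPX
  have hR3 : 3 < R := by
    have : (3 : ℝ) < R := by linarith
    exact_mod_cast this
  have key := hM₁ M hMa R hPX
  unfold SK at key ⊢
  set H := HR R with hH
  have hMr : (16 : ℝ) ≤ M := by exact_mod_cast hMc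
  have hRr : (3 : ℝ) < R := by exact_mod_cast hR3
  have hlR : 0 < Real.log R := Real.log_pos (by linarith)
  have hlM : 0 < Real.log M := Real.log_pos (by linarith)
  have hHpos : (0 : ℝ) < H := by
    have : 0 < H := by
      rw [hH]
      unfold HR
      have : 0 < R := by omega
      positivity
    exact_mod_cast this
  set V : ℝ := (H : ℝ) / Real.log M with hV
  have hV0 : 0 < V := by positivity
  have hIScard := (hIS R (by omega)).1
  -- the functions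
  have key' : ∀ s : ℕ, ∃ B Pm : ℕ → ℝ, s ∈ IS R →
      (∀ m ∈ Icc M (2 * M), ∑ t ∈ Icc 1 H, fP H (t : ℤ) * (if (s * m - t).Prime then (1 : ℝ) else 0) ≤ Pm m) ∧
      (∀ m ∈ Icc M (2 * M), Even m → 0 ≤ B m ∧ B m ≤ C₀ * Sg (primorial w) m * V) ∧
      ∑ m ∈ Icc M (2 * M) with Even m, (Pm m - B m) ^ 2 ≤ δ * M * V ^ 2 := by
    intro s
    by_cases hs : s ∈ IS R
    · obtain ⟨B, Pm, h⟩ := key s hs
      exact ⟨B, Pm, fun _ => h⟩
    · exact ⟨fun _ => 0, fun _ => 0, fun h => absurd h hs⟩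
  choose B Pm hBP using key'
  set S : ℕ → ℕ → ℝ := fun s m => ∑ t ∈ Icc 1 H, fP H (t : ℤ) * (if (s * m - t).Prime then (1 : ℝ) else 0)
    with hS
  have hS0 : ∀ s m, 0 ≤ S s m := fun s m => Finset.sum_nonneg fun t _ =>
    mul_nonneg (fP_nn _ _) (by split_ifs <;> norm_num)
  set n : ℝ := (#(IS R) : ℝ) with hn
  have hn0 : 0 ≤ n := Nat.cast_nonneg _
  rcases Finset.eq_empty_or_nonempty (IS R) with hemp | hne
  · -- no multipliers
    have h0 : ({m ∈ Icc M (2 * M) | Even m ∧ 4 * (C₀ ^ 2 * C₃) * (Sg (primorial w) m) ^ 2 * (R / Real.log R) *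
        (V) ^ 2 < ∑ s ∈ IS R, (S s m) ^ 2} : Finset ℕ) = ∅ := by
      rw [Finset.filter_eq_empty_iff]
      rintro m _ ⟨-, h⟩
      rw [hemp, Finset.sum_empty] at h
      have : 0 ≤ 4 * (C₀ ^ 2 * C₃) * (Sg (primorial w) m) ^ 2 * (R / Real.log R) * (V) ^ 2 := by positivity
      linarith
    rw [h0, Finset.card_empty]
    push_cast
    positivity
  have hn1 : 0 < n := by
    rw [hn]
    exact_mod_cast hne.card_pos
  set Bad : Finset ℕ := {m ∈ (Icc M (2 * M)).filter Even | n * V ^ 2 < ∑ s ∈ IS R, (Pm s m - B s m) ^ 2} with hBad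
  have hBadc : (Bad.card : ℝ) ≤ δ * M := by
    have e1 : (Bad.card : ℝ) * (n * V ^ 2) ≤ ∑ m ∈ (Icc M (2 * M)).filter Even, ∑ s ∈ IS R, (Pm s m - B s m) ^ 2 := by
      calc (Bad.card : ℝ) * (n * V ^ 2) = ∑ m ∈ Bad, n * V ^ 2 := by
            rw [Finset.sum_const, nsmul_eq_mul]
        _ ≤ ∑ m ∈ Bad, ∑ s ∈ IS R, (Pm s m - B s m) ^ 2 :=
            Finset.sum_le_sum fun m hm => (Finset.mem_filter.1 hm).2.le
        _ ≤ _ := Finset.sum_le_sum_of_subset_of_nonneg (Finset.filter_subset _ _)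
            (fun _ _ _ => Finset.sum_nonneg fun _ _ => sq_nonneg _)
    have e2 : ∑ m ∈ (Icc M (2 * M)).filter Even, ∑ s ∈ IS R, (Pm s m - B s m) ^ 2 ≤ n * (δ * M * V ^ 2) := by
      rw [Finset.sum_comm, hn, ← nsmul_eq_mul]
      exact Finset.sum_le_card_nsmul _ _ _ fun s hs => (hBP s hs).2.2
    have e3 : (Bad.card : ℝ) * (n * V ^ 2) ≤ (δ * M) * (n * V ^ 2) := by
      refine (e1.trans e2).trans (le_of_eq ?_)
      ring
    exact le_of_mul_le_mul_right e3 (by positivity)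
  refine le_trans (Nat.cast_le.2 (Finset.card_le_card ?_)) hBadc
  intro m hm
  obtain ⟨hm1, hm2, hm3⟩ := Finset.mem_filter.1 hm
  rw [hBad, Finset.mem_filter, Finset.mem_filter]
  refine ⟨⟨hm1, hm2⟩, ?_⟩
  by_contra hcon
  rw [not_lt] at hcon
  have hSg := (one_le_Sg w m hw2 hm2).1
  have g1 : ∑ s ∈ IS R, (S s m) ^ 2 ≤ ∑ s ∈ IS R, (2 * (Pm s m - B s m) ^ 2 + 2 * (C₀ * Sg (primorial w) m * V) ^ 2) := by
    refine Finset.sum_le_sum fun s hs => ?_
    obtain ⟨h1, h2, -⟩ := hBP s hs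
    have h3 : S s m ≤ Pm s m := h1 m hm1
    obtain ⟨h4, h5⟩ := h2 m hm1 hm2
    have h6 : (S s m) ^ 2 ≤ (Pm s m) ^ 2 := pow_le_pow_left₀ (hS0 s m) h3 2
    have h7 : (B s m) ^ 2 ≤ (C₀ * Sg (primorial w) m * V) ^ 2 := pow_le_pow_left₀ h4 h5 2
    nlinarith [sq_nonneg (Pm s m - 2 * B s m)]
  have g2 : ∑ s ∈ IS R, (2 * (Pm s m - B s m) ^ 2 + 2 * (C₀ * Sg (primorial w) m * V) ^ 2) ≤
      n * (4 * (C₀ * Sg (primorial w) m * V) ^ 2) := by
    rw [Finset.sum_add_distrib, ← Finset.mul_sum, Finset.sum_const, nsmul_eq_mul, ← hn]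
    have h1 : V ^ 2 ≤ (C₀ * Sg (primorial w) m * V) ^ 2 := by
      apply pow_le_pow_left₀ hV0.le
      have h2 : 1 ≤ C₀ * Sg (primorial w) m := by nlinarith
      nlinarith
    have h2 : n * V ^ 2 ≤ n * (C₀ * Sg (primorial w) m * V) ^ 2 := mul_le_mul_of_nonneg_left h1 hn0
    nlinarith
  have g3 : n * (4 * (C₀ * Sg (primorial w) m * V) ^ 2) ≤
      4 * (C₀ ^ 2 * C₃) * (Sg (primorial w) m) ^ 2 * (R / Real.log R) * V ^ 2 := by
    calc n * (4 * (C₀ * Sg (primorial w) m * V) ^ 2) ≤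
        (C₃ * R / Real.log R) * (4 * (C₀ * Sg (primorial w) m * V) ^ 2) :=
          mul_le_mul_of_nonneg_right hIScard (by positivity)
      _ = _ := by ring
  have hm3' : 4 * (C₀ ^ 2 * C₃) * (Sg (primorial w) m) ^ 2 * (R / Real.log R) * V ^ 2 <
      ∑ s ∈ IS R, (S s m) ^ 2 := hm3
  linarith

end Pool.Agent.Lib.MP_bae66e_nt.MF
end

section

/-!
# Row R1: the weights `om` removed
-/

set_option autoImplicit false

namespace Pool.Agent.Lib.MP_bae66e_nt.MF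

open Finset MeasureTheory Real
open Pool.Agent.E3
open Pool.Agent.Lib.MP_bae66e_nt.EF (PX Wt HR gA COREG)
open Pool.Agent.Lib.MP_bae66e_nt.LL (fP gW)
open Pool.Agent.Lib.MP_bae66e_nt.AC (Sg VV)
open Pool.Agent.Lib.MP_bae66e_nt.AP3 (prI mem_prI)

/-- the weighted number of the `(s, q)` with `q` prime, `q ≡ s v` modulo `W` and `(m - h) s ≤ q < m s` -/
noncomputable def NN (α : ℕ → ℝ) (W v R h m : ℕ) : ℝ :=
  ∑ s ∈ IS R, α s * (#{q ∈ Ico ((m - h) * s) (m * s) | q.Prime ∧ q ≡ s * v [MOD W]} : ℝ)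

/-- the asymptotic formula for these numbers, for almost all `m ∈ [M, (1 + κ) M]` -/
def WINN (a : ℝ) : Prop := ∀ ε : ℝ, 0 < ε → ∃ κ : ℝ, 0 < κ ∧ κ ≤ 1 ∧ ∀ W : ℕ, 1 ≤ W → ∀ δ : ℝ, 0 < δ →
  ∃ M₀ : ℕ, ∀ M : ℕ, M₀ ≤ M → ∀ R : ℕ, PX a R M → ∀ α : ℕ → ℝ, Wt α → ∀ v : ℕ, Nat.Coprime v W →
  ∀ h : ℕ, R ≤ 2 * h → h ≤ 8 * R →
    (#{m ∈ Icc M (2 * M) | ((m : ℕ) : ℝ) ≤ (1 + κ) * M ∧ ε * GK R M / Nat.totient W <
      |NN α W v R h m - h / (Nat.totient W * Real.log M) * ∑ s ∈ IS R, α s * s|} : ℝ) ≤ δ * M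

/-- the weight of the prime `q` in the window -/
private theorem R1_w (α : ℕ → ℝ) (hα : Wt α) (R M m h s q : ℕ) (κ : ℝ) (hR : 1 ≤ R) (hM : 1 ≤ M) (hκ0 : 0 ≤ κ) (hκ : κ ≤ 1 / 10)
    (h1 : M ≤ m) (h2 : (m : ℝ) ≤ (1 + κ) * M) (hh : 2 * (h : ℝ) ≤ κ * M) (hs : s ∈ IS R)
    (hq1 : (m - h) * s ≤ q) (hq2 : q < m * s) :
    |2 * (EF.bet α R s * om (M * R : ℕ) q) - α s| ≤ 4 * κ * α s := by
  obtain ⟨h1s, h2s, hps⟩ := EF.U1_IS hs
  obtain ⟨hb0, hb1⟩ := EF.U1_b hs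
  obtain ⟨ha0, ha1⟩ := hα s
  have hs0 : (0 : ℝ) < s := by exact_mod_cast hps.pos
  have hM' : (1 : ℝ) ≤ M := by exact_mod_cast hM
  have hM0 : (0 : ℝ) < M := by linarith
  have hR' : (1 : ℝ) ≤ R := by exact_mod_cast hR
  have hR0 : (0 : ℝ) < R := by linarith
  have hm : (M : ℝ) ≤ m := by exact_mod_cast h1
  have hhm : h ≤ m := by
    have : (h : ℝ) ≤ m := by nlinarith
    exact_mod_cast this
  have hlo : (1 - κ / 2) * (s * M) ≤ q := by
    have h3 : (((m - h) * s : ℕ) : ℝ) ≤ q := by exact_mod_cast hq1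
    rw [Nat.cast_mul, Nat.cast_sub hhm] at h3
    have h4 : (1 - κ / 2) * M ≤ (m : ℝ) - h := by linarith
    calc (1 - κ / 2) * (s * M) = ((1 - κ / 2) * M) * s := by ring
      _ ≤ ((m : ℝ) - h) * s := mul_le_mul_of_nonneg_right h4 hs0.le
      _ ≤ q := h3
  have hup : (q : ℝ) ≤ (1 + κ) * (s * M) := by
    have h3 : (q : ℝ) ≤ ((m * s : ℕ) : ℝ) := by exact_mod_cast hq2.le
    rw [Nat.cast_mul] at h3
    calc (q : ℝ) ≤ m * s := h3
      _ ≤ ((1 + κ) * M) * s := mul_le_mul_of_nonneg_right h2 hs0.le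
      _ = _ := by ring
  have hsM : (0 : ℝ) < s * M := by positivity
  have hq0 : (0 : ℝ) < q := lt_of_lt_of_le (mul_pos (by linarith) hsM) hlo
  have hqd : (0 : ℝ) < (q : ℝ) / (s * M) := div_pos hq0 hsM
  have heκ : |-Real.log ((q : ℝ) / (s * M))| ≤ κ := by
    rw [abs_neg, abs_le]
    constructor
    · have h3 : Real.log (1 - κ / 2) ≤ Real.log ((q : ℝ) / (s * M)) :=
        Real.log_le_log (by linarith) (by rw [le_div_iff₀ hsM]; exact hlo)
      have h4 : 1 - (1 - κ / 2)⁻¹ ≤ Real.log (1 - κ / 2) := Real.one_sub_inv_le_log_of_pos (by linarith)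
      have h5 : (1 - κ / 2)⁻¹ ≤ 1 + κ := by
        rw [inv_le_comm₀ (by linarith) (by linarith), inv_eq_one_div, div_le_iff₀ (by linarith)]
        nlinarith
      linarith
    · have h4 : Real.log ((q : ℝ) / (s * M)) ≤ (q : ℝ) / (s * M) - 1 := Real.log_le_sub_one_of_pos hqd
      have h5 : (q : ℝ) / (s * M) ≤ 1 + κ := by rw [div_le_iff₀ hsM]; exact hup
      linarith
  have hw := EF.weight_near (Real.log ((s : ℝ) / R)) (-Real.log ((q : ℝ) / (s * M))) κ hb0 hb1 heκ hκ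
  have hom : om (M * R : ℕ) q =
      Real.exp (-(-Real.log ((q : ℝ) / (s * M)) - Real.log ((s : ℝ) / R)) ^ 2) := by
    unfold om gs
    rw [Nat.cast_mul, Real.log_mul hM0.ne' hR0.ne', Real.log_div hq0.ne' hsM.ne', Real.log_mul hs0.ne' hM0.ne',
      Real.log_div hs0.ne' hR0.ne']
    congr 1
    ring
  rw [hom]
  unfold EF.bet
  rw [if_pos hs]
  have heq : 2 * (α s * Real.exp (Real.log ((s : ℝ) / R) ^ 2) / 2 *
      Real.exp (-(-Real.log ((q : ℝ) / (s * M)) - Real.log ((s : ℝ) / R)) ^ 2)) - α s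
      = α s * (Real.exp (Real.log ((s : ℝ) / R) ^ 2) *
        Real.exp (-(-Real.log ((q : ℝ) / (s * M)) - Real.log ((s : ℝ) / R)) ^ 2) - 1) := by
    ring
  rw [heq, abs_mul, abs_of_nonneg ha0]
  calc α s * _ ≤ α s * (4 * κ) := mul_le_mul_of_nonneg_left hw ha0
    _ = 4 * κ * α s := by ring

/-- the main term -/
private theorem R1_main (α : ℕ → ℝ) (hα : Wt α) (R M m : ℕ) (κ : ℝ) (hR : 1 ≤ R) (hM : 1 ≤ M) (hκ : κ ≤ 1 / 10)
    (h1 : M ≤ m) (h2 : (m : ℝ) ≤ (1 + κ) * M) :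
    |2 * ∑ s ∈ IS R, EF.bet α R s * s * Real.exp (-(Real.log m + Real.log s - Real.log (M * R : ℕ)) ^ 2) -
      ∑ s ∈ IS R, α s * s| ≤ 4 * κ * ∑ s ∈ IS R, α s * s := by
  have hM' : (1 : ℝ) ≤ M := by exact_mod_cast hM
  have hM0 : (0 : ℝ) < M := by linarith
  have hR' : (1 : ℝ) ≤ R := by exact_mod_cast hR
  have hR0 : (0 : ℝ) < R := by linarith
  have hm : (M : ℝ) ≤ m := by exact_mod_cast h1
  have hm0 : (0 : ℝ) < m := by linarith
  have he0 : 0 ≤ Real.log ((m : ℝ) / M) := Real.log_nonneg (by rw [le_div_iff₀ hM0]; linarith)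
  have he1 : Real.log ((m : ℝ) / M) ≤ κ := by
    have h3 : (m : ℝ) / M ≤ 1 + κ := by rw [div_le_iff₀ hM0]; exact h2
    have h4 : Real.log ((m : ℝ) / M) ≤ (m : ℝ) / M - 1 := Real.log_le_sub_one_of_pos (div_pos hm0 hM0)
    linarith
  have heκ : |-Real.log ((m : ℝ) / M)| ≤ κ := by rw [abs_neg, abs_of_nonneg he0]; exact he1
  rw [Finset.mul_sum, ← Finset.sum_sub_distrib, Finset.mul_sum]
  refine (Finset.abs_sum_le_sum_abs _ _).trans (Finset.sum_le_sum fun s hs => ?_)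
  obtain ⟨h1s, h2s, hps⟩ := EF.U1_IS hs
  obtain ⟨hb0, hb1⟩ := EF.U1_b hs
  obtain ⟨ha0, ha1⟩ := hα s
  have hs0 : (0 : ℝ) < s := by exact_mod_cast hps.pos
  have hexp : (Real.log m + Real.log s - Real.log (M * R : ℕ)) ^ 2 =
      (-Real.log ((m : ℝ) / M) - Real.log ((s : ℝ) / R)) ^ 2 := by
    rw [Nat.cast_mul, Real.log_mul hM0.ne' hR0.ne', Real.log_div hm0.ne' hM0.ne', Real.log_div hs0.ne' hR0.ne']
    ring
  have hw := EF.weight_near (Real.log ((s : ℝ) / R)) (-Real.log ((m : ℝ) / M)) κ hb0 hb1 heκ hκ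
  have hmul : 0 ≤ α s * s := mul_nonneg ha0 hs0.le
  rw [hexp]
  unfold EF.bet
  rw [if_pos hs]
  have heq : 2 * (α s * Real.exp (Real.log ((s : ℝ) / R) ^ 2) / 2 * s *
      Real.exp (-(-Real.log ((m : ℝ) / M) - Real.log ((s : ℝ) / R)) ^ 2)) - α s * s
      = α s * s * (Real.exp (Real.log ((s : ℝ) / R) ^ 2) *
        Real.exp (-(-Real.log ((m : ℝ) / M) - Real.log ((s : ℝ) / R)) ^ 2) - 1) := by
    ring
  rw [heq, abs_mul, abs_of_nonneg hmul]
  calc α s * s * _ ≤ α s * s * (4 * κ) := mul_le_mul_of_nonneg_left hw hmul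
    _ = 4 * κ * (α s * s) := by ring

/-- the sets of the primes `q` -/
private theorem R1_set (W v R M m h s : ℕ) (hM : 4 ≤ M) (hR : 1 ≤ R) (h1 : M ≤ m) (h2 : m ≤ 2 * M) (hh : 2 * h ≤ M)
    (hs : s ∈ IS R) :
    (QS (M * R)).filter (fun q => q ≡ s * v [MOD W] ∧ (m - h) * s ≤ q ∧ q < m * s) =
      (Ico ((m - h) * s) (m * s)).filter (fun q => q.Prime ∧ q ≡ s * v [MOD W]) := by
  obtain ⟨h1s, h2s, hps⟩ := EF.U1_IS hs
  have hX : 4 ≤ M * R := le_trans hM (Nat.le_mul_of_pos_right _ hR)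
  ext q
  rw [Finset.mem_filter, Finset.mem_filter, Finset.mem_Ico]
  constructor
  · rintro ⟨hq, h3, h4, h5⟩
    unfold QS at hq
    rw [mem_prI] at hq
    exact ⟨⟨h4, h5⟩, hq.2, h3⟩
  · rintro ⟨⟨h4, h5⟩, hp, h3⟩
    refine ⟨?_, h3, h4, h5⟩
    unfold QS
    rw [mem_prI]
    refine ⟨⟨?_, ?_⟩, hp⟩
    · have h6 : Nat.sqrt (M * R) * Nat.sqrt (M * R) ≤ M * R := Nat.sqrt_le _
      have h7 : 2 ≤ Nat.sqrt (M * R) := by
        rw [Nat.le_sqrt]
        omega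
      have h8 : 2 * Nat.sqrt (M * R) ≤ M * R := le_trans (Nat.mul_le_mul_right _ h7) h6
      have h9 : M ≤ 2 * (m - h) := by omega
      have h10 : M * (R + 1) ≤ 2 * (m - h) * s := Nat.mul_le_mul h9 (by omega)
      have h11 : M * (R + 1) = M * R + M := by ring
      have h12 : 2 * (m - h) * s = 2 * ((m - h) * s) := by ring
      omega
    · have h6 : m * s ≤ (2 * M) * (2 * R) := Nat.mul_le_mul h2 h2s
      have h7 : (2 * M) * (2 * R) = 4 * (M * R) := by ring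
      have h8 : 4 * (M * R) ≤ (M * R) ^ 2 := by rw [pow_two]; exact Nat.mul_le_mul_right _ hX
      omega

/-- the sums over `q` -/
private theorem R1_NH (α : ℕ → ℝ) (hα : Wt α) (W v R M m h : ℕ) (κ : ℝ) (hR : 1 ≤ R) (hM : 4 ≤ M) (hκ0 : 0 ≤ κ) (hκ : κ ≤ 1 / 10)
    (h1 : M ≤ m) (h2 : (m : ℝ) ≤ (1 + κ) * M) (hm2 : m ≤ 2 * M) (hh : 2 * (h : ℝ) ≤ κ * M) :
    |2 * NH (EF.bet α R) W v R (M * R) h m - NN α W v R h m| ≤ 4 * κ * NN α W v R h m := by
  have hhM : 2 * h ≤ M := by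
    have h3 : 2 * (h : ℝ) ≤ M := by
      have : (0 : ℝ) ≤ M := Nat.cast_nonneg _
      nlinarith
    exact_mod_cast h3
  unfold NH NN
  rw [Finset.mul_sum, ← Finset.sum_sub_distrib, Finset.mul_sum]
  refine (Finset.abs_sum_le_sum_abs _ _).trans (Finset.sum_le_sum fun s hs => ?_)
  rw [R1_set W v R M m h s hM hR h1 hm2 hhM hs]
  set A : Finset ℕ := (Ico ((m - h) * s) (m * s)).filter (fun q => q.Prime ∧ q ≡ s * v [MOD W]) with hA
  have e1 : 2 * ∑ q ∈ A, EF.bet α R s * om (M * R : ℕ) q - α s * (#A : ℝ) =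
      ∑ q ∈ A, (2 * (EF.bet α R s * om (M * R : ℕ) q) - α s) := by
    have e0 : ∑ q ∈ A, 2 * (EF.bet α R s * om (M * R : ℕ) q) = 2 * ∑ q ∈ A, EF.bet α R s * om (M * R : ℕ) q := by
      rw [Finset.mul_sum]
    rw [Finset.sum_sub_distrib, e0, Finset.sum_const, nsmul_eq_mul]
    ring
  rw [e1]
  refine (Finset.abs_sum_le_sum_abs _ _).trans ?_
  have e2 : ∑ q ∈ A, |2 * (EF.bet α R s * om (M * R : ℕ) q) - α s| ≤ ∑ _q ∈ A, 4 * κ * α s := by
    refine Finset.sum_le_sum fun q hq => ?_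
    rw [hA, Finset.mem_filter, Finset.mem_Ico] at hq
    exact R1_w α hα R M m h s q κ hR (by omega) hκ0 hκ h1 h2 hh hs hq.1.1 hq.1.2
  refine e2.trans (le_of_eq ?_)
  rw [Finset.sum_const, nsmul_eq_mul]
  ring

/-- R1. -/
theorem winn_of (a : ℝ) (ha : 3 ≤ a) (h : WINH a) : WINN a := by
  obtain ⟨C, hC1, hC⟩ := IS_bounds
  intro ε hε
  obtain ⟨κ, hκdef⟩ : ∃ κ : ℝ, κ = min (1 / 10) (ε / (224 * C)) := ⟨_, rfl⟩
  have hκ0 : 0 < κ := by rw [hκdef]; exact lt_min (by norm_num) (by positivity)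
  have hκ1 : κ ≤ 1 / 10 := by rw [hκdef]; exact min_le_left _ _
  have hκ2 : 112 * C * κ ≤ ε / 2 := by
    have h3 : κ ≤ ε / (224 * C) := by rw [hκdef]; exact min_le_right _ _
    rw [le_div_iff₀ (by positivity)] at h3
    linarith
  refine ⟨κ, hκ0, by linarith, fun W hW δ hδ => ?_⟩
  obtain ⟨M₁, hM₁⟩ := h W hW (ε / 8) δ (by positivity) hδ
  obtain ⟨M₂, hM₂⟩ := parK a (16 / κ) 1 ha one_pos
  refine ⟨max M₁ M₂, fun M hM R hR α hα v hv h' hh1 hh2 => ?_⟩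
  obtain ⟨p1, -, -, p4, -, -, p7, -, p9, -, -, -, p13, -, -, -, pG⟩ := hM₂ M ((le_max_right _ _).trans hM) R hR
  have hexc := hM₁ M ((le_max_left _ _).trans hM) R hR (EF.bet α R) (EF.bet_Wt α hα R) v hv h' hh1 hh2
  refine le_trans ?_ hexc
  have hR1 : (1 : ℝ) ≤ R := by
    have : (3 : ℝ) ≤ R := by exact_mod_cast p7
    linarith
  have hR3 : 1 ≤ R := by omega
  have hM0 : (0 : ℝ) < M := by exact_mod_cast (by omega : 0 < M)
  have hlR : 0 < Real.log R := by linarith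
  have hlM : 0 < Real.log M := by linarith
  have hφ : (0 : ℝ) < Nat.totient W := by exact_mod_cast Nat.totient_pos.2 (by omega)
  have hhM : 2 * (h' : ℝ) ≤ κ * M := by
    have h3 : (h' : ℝ) ≤ 8 * R := by exact_mod_cast hh2
    have h4 : (R : ℝ) ≤ (R : ℝ) ^ 3 := by
      calc (R : ℝ) = R * 1 := by ring
        _ ≤ R * R ^ 2 := mul_le_mul_of_nonneg_left (one_le_pow₀ hR1) (by linarith)
        _ = _ := by ring
    have h5 : 16 * (R : ℝ) ^ 3 ≤ κ * M := by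
      have h6 := mul_le_mul_of_nonneg_left p13 hκ0.le
      have h7 : κ * (16 / κ * (R : ℝ) ^ 3) = 16 * (R : ℝ) ^ 3 := by field_simp
      linarith
    linarith
  refine Nat.cast_le.2 (Finset.card_le_card fun m hm => ?_)
  rw [Finset.mem_filter] at hm ⊢
  obtain ⟨hmI, hmκ, hbig⟩ := hm
  refine ⟨hmI, ?_⟩
  rw [Finset.mem_Icc] at hmI
  by_contra hcon
  rw [not_lt] at hcon
  -- the main terms
  set S : ℝ := ∑ s ∈ IS R, α s * s with hS
  set S' : ℝ := ∑ s ∈ IS R, EF.bet α R s * s * Real.exp (-(Real.log m + Real.log s - Real.log (M * R : ℕ)) ^ 2) with hS'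
  set c : ℝ := h' / (Nat.totient W * Real.log M) with hc
  set G : ℝ := GK R M / Nat.totient W with hG
  have hG0 : 0 < G := div_pos pG hφ
  have hc0 : 0 ≤ c := by rw [hc]; positivity
  have hmain := R1_main α hα R M m κ hR3 (by omega) hκ1 hmI.1 hmκ
  rw [← hS, ← hS'] at hmain
  have hNH := R1_NH α hα W v R M m h' κ hR3 (by omega) hκ0.le hκ1 hmI.1 hmκ hmI.2 hhM
  have hNN0 : 0 ≤ NN α W v R h' m := by
    unfold NN
    exact Finset.sum_nonneg fun s _ => mul_nonneg (hα s).1 (Nat.cast_nonneg _)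
  have hS0 : 0 ≤ S := Finset.sum_nonneg fun s _ => mul_nonneg (hα s).1 (Nat.cast_nonneg _)
  have hSle : S ≤ 2 * C * R ^ 2 / Real.log R := by
    have h3 : S ≤ ∑ _s ∈ IS R, 2 * (R : ℝ) := by
      refine Finset.sum_le_sum fun s hs => ?_
      obtain ⟨-, h2s, -⟩ := EF.U1_IS hs
      have h4 : (s : ℝ) ≤ 2 * R := by exact_mod_cast h2s
      calc α s * s ≤ 1 * (2 * R) := mul_le_mul (hα s).2 h4 (Nat.cast_nonneg _) zero_le_one
        _ = _ := one_mul _
    rw [Finset.sum_const, nsmul_eq_mul] at h3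
    have h5 := (hC R (by omega)).1
    calc S ≤ (#(IS R) : ℝ) * (2 * R) := h3
      _ ≤ (C * R / Real.log R) * (2 * R) := mul_le_mul_of_nonneg_right h5 (by positivity)
      _ = _ := by ring
  have hZ : c * S ≤ 8 * C * G := by
    have h3 : (h' : ℝ) ≤ 8 * R := by exact_mod_cast hh2
    have h4 : c ≤ 8 * R / (Nat.totient W * Real.log M) := by rw [hc]; gcongr
    have h5 : G = 2 * (R : ℝ) ^ 3 / (Real.log R * Real.log M) / Nat.totient W := by
      rw [hG]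
      unfold GK HR
      push_cast
      ring
    calc c * S ≤ (8 * R / (Nat.totient W * Real.log M)) * (2 * C * R ^ 2 / Real.log R) := by gcongr
      _ = 8 * C * G := by
          rw [h5]
          field_simp
  have hcon' : |NH (EF.bet α R) W v R (M * R) h' m - c * S'| ≤ ε / 8 * G := by
    calc _ ≤ ε / 8 * GK R M / Nat.totient W := hcon
      _ = _ := by rw [hG]; ring
  have hbig' : ε * G < |NN α W v R h' m - c * S| := by
    calc ε * G = ε * GK R M / Nat.totient W := by rw [hG]; ring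
      _ < _ := hbig
  -- the estimate
  set A : ℝ := NN α W v R h' m with hA
  set B : ℝ := NH (EF.bet α R) W v R (M * R) h' m with hB
  have hCc : |2 * (c * S') - c * S| ≤ 4 * κ * (c * S) := by
    have h3 : 2 * (c * S') - c * S = c * (2 * S' - S) := by ring
    rw [h3, abs_mul, abs_of_nonneg hc0]
    calc c * |2 * S' - S| ≤ c * (4 * κ * S) := mul_le_mul_of_nonneg_left hmain hc0
      _ = _ := by ring
  set Z : ℝ := c * S with hZd
  set Z' : ℝ := c * S' with hZd'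
  have hZ0 : 0 ≤ Z := mul_nonneg hc0 hS0
  rw [abs_le] at hNH hcon' hCc
  have hκZ : κ * Z ≤ 1 / 10 * Z := mul_le_mul_of_nonneg_right hκ1 hZ0
  have hκA : κ * A ≤ 1 / 10 * A := mul_le_mul_of_nonneg_right hκ1 hNN0
  -- A ≤ 5/3 (2B) and 2 B ≤ 7/5 Z + ε/4 G
  have hA1 : 3 / 5 * A ≤ 2 * B := by nlinarith [hNH.1]
  have hB1 : 2 * B ≤ 7 / 5 * Z + ε / 4 * G := by linarith [hcon'.2, hCc.2]
  have hA2 : A ≤ 7 / 3 * Z + 5 / 12 * (ε * G) := by linarith
  have hκA2 : κ * A ≤ 7 / 3 * (κ * Z) + 1 / 24 * (ε * G) := by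
    have h3 : κ * A ≤ κ * (7 / 3 * Z + 5 / 12 * (ε * G)) := mul_le_mul_of_nonneg_left hA2 hκ0.le
    have h4 : κ * (ε * G) ≤ 1 / 10 * (ε * G) := mul_le_mul_of_nonneg_right hκ1 (by positivity)
    nlinarith
  have hκZ2 : κ * Z ≤ ε * G / 28 := by
    have h3 : κ * Z ≤ κ * (8 * C * G) := mul_le_mul_of_nonneg_left hZ hκ0.le
    have h4 : 112 * C * κ * G ≤ ε / 2 * G := mul_le_mul_of_nonneg_right hκ2 hG0.le
    nlinarith
  have hup : A - Z ≤ ε * G := by linarith [hNH.1, hcon'.2, hCc.2]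
  have hlo : -(ε * G) ≤ A - Z := by linarith [hNH.2, hcon'.1, hCc.1]
  exact absurd hbig' (not_lt.2 (abs_le.2 ⟨hlo, hup⟩))

end Pool.Agent.Lib.MP_bae66e_nt.MF
end

section

/-!
# Row P5: the long window of the primes (EF/P3 with one multiplier `1`)
-/

set_option autoImplicit false

namespace Pool.Agent.Lib.MP_bae66e_nt.MF

open Finset MeasureTheory Real Filter
open Pool.Agent.E3
open Pool.Agent.Lib.MP_bae66e_nt.EF (PX Wt HR gA COREG gg gg_bd gg_tail gg_integral gg_integrable outside cells gsn_integral')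
open Pool.Agent.Lib.MP_bae66e_nt.LL (fP gW)
open Pool.Agent.Lib.MP_bae66e_nt.AC (Sg VV)
open Pool.Agent.Lib.MP_bae66e_nt.AP3 (prI mem_prI)

/-- PROOF. As `one_s_asymp` (EF/P3) with `s = 1`, `Y = X`, and `|x - log X| ≤ 4` in place of `≤ 1` (copy its proof; `outside` and `cells` are public). -/
theorem one_q_asymp (W : ℕ) (hW : 1 ≤ W) (ε : ℝ) (hε : 0 < ε) : ∃ L₀ : ℝ, 0 < L₀ ∧ ∀ L : ℝ, 0 < L → L ≤ L₀ →
    ∃ X₀ : ℕ, ∀ X : ℕ, X₀ ≤ X → ∀ (x : ℝ) (b : ℕ), |x - Real.log X| ≤ 4 → Nat.Coprime b W →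
      |∑ q ∈ (QS X).filter (fun q => q ≡ b [MOD W]), om X q / q * gsn L (x - Real.log q)
        - Real.sqrt (2 * π) * Real.exp (-(x - Real.log X) ^ 2) / ((Nat.totient W : ℝ) * Real.log X)|
        ≤ ε / ((Nat.totient W : ℝ) * Real.log X) := by
  refine ⟨min 1 (ε / 32), lt_min one_pos (by positivity), fun L hL hL0 => ?_⟩
  have hL1 : L ≤ 1 := hL0.trans (min_le_left _ _)
  have hL2 : 4 * L ≤ ε / 8 := by
    have := hL0.trans (min_le_right _ _)
    linarith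
  obtain ⟨K, hK1, hK2, hout⟩ := outside W hW L (ε / 8) (128 / ε) hL (by positivity)
  obtain ⟨z₀, hz0, hcells⟩ := cells W hW L K (ε / 8) hL hL1 hK1 (by positivity)
  obtain ⟨η, hη⟩ : ∃ η : ℝ, η = min (1 / 4) (ε / 48) := ⟨_, rfl⟩
  have hη0 : 0 < η := by rw [hη]; exact lt_min (by norm_num) (by positivity)
  have hη1 : η ≤ 1 / 4 := by rw [hη]; exact min_le_left _ _
  have hη2 : η ≤ ε / 48 := by rw [hη]; exact min_le_right _ _
  have hLt : Tendsto (fun X : ℕ => Real.log X) atTop atTop :=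
    Real.tendsto_log_atTop.comp tendsto_natCast_atTop_atTop
  obtain ⟨X₂, hX₂⟩ := eventually_atTop.mp (hLt.eventually_ge_atTop (8 / η + 4 * K * L + 2 * z₀ + 8))
  refine ⟨max X₂ 8, fun X hX x b₀ hx hbW => ?_⟩
  have hX2 : X₂ ≤ X := (le_max_left _ _).trans hX
  have hX8 : 8 ≤ X := (le_max_right _ _).trans hX
  have hlog := hX₂ X hX2
  obtain ⟨ℓ, hℓ⟩ : ∃ ℓ : ℝ, ℓ = Real.log X := ⟨_, rfl⟩
  rw [← hℓ] at hlog hx ⊢
  have hKL0 : 0 < K * L := by positivity
  have h2η : 0 < 8 / η := by positivity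
  have hℓ8 : 8 ≤ ℓ := by linarith
  have hℓ0 : 0 < ℓ := by linarith
  have hX0 : (0 : ℝ) < X := by exact_mod_cast (by omega : 0 < X)
  have hexpℓ : Real.exp ℓ = X := by rw [hℓ, Real.exp_log hX0]
  have hone : 4 ≤ η / 2 * ℓ := by
    have h1 : 8 / η ≤ ℓ := by linarith
    rw [div_le_iff₀ hη0] at h1
    linarith
  have hx' := abs_le.mp hx
  obtain ⟨x₁, hx₁⟩ : ∃ x₁ : ℝ, x₁ = x := ⟨_, rfl⟩
  have hdx : |x₁ - ℓ| ≤ η * ℓ := by
    rw [abs_le]
    constructor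
    · linarith [hx'.1]
    · linarith [hx'.2]
  have hdx' := abs_le.mp hdx
  have hx1low : 3 / 4 * ℓ ≤ x₁ := by nlinarith [hdx'.1]
  have hx1up : x₁ ≤ 5 / 4 * ℓ := by nlinarith [hdx'.2]
  have hx1z : z₀ ≤ x₁ := by linarith
  have hx11 : 1 ≤ x₁ := by linarith
  have hx10 : 0 < x₁ := by linarith
  have hKL : K * L ≤ ℓ / 4 := by linarith
  obtain ⟨b, hbd⟩ : ∃ b : ℤ, b = (b₀ : ℤ) := ⟨_, rfl⟩
  have hb : IsCoprime b (W : ℤ) := by rw [hbd]; exact Nat.isCoprime_iff_coprime.mpr hbW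
  have hbiff : ∀ q : ℕ, (q ≡ b₀ [MOD W] ↔ (q : ℤ) ≡ b [ZMOD (W : ℤ)]) := by
    intro q
    rw [hbd]
    exact Int.natCast_modEq_iff.symm
  obtain ⟨y, hy⟩ : ∃ y : ℝ, y = ℓ := ⟨_, rfl⟩
  have hφ : (0 : ℝ) < Nat.totient W := by exact_mod_cast Nat.totient_pos.mpr hW
  obtain ⟨φ, hφd⟩ : ∃ φ : ℝ, φ = (Nat.totient W : ℝ) := ⟨_, rfl⟩
  have hc := hcells x₁ y hx1z b hb
  have ho := hout (X ^ 2) x₁ y hx11
  have hgt := gg_tail L K x₁ y hL (by linarith)
  have hgi := (gg_integral L x₁ y hL).2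
  rw [← hφd] at hc ho hφ ⊢
  -- the filter
  have hfil : (QS X).filter (fun q => q ≡ b₀ [MOD W]) = (QS X).filter (fun q : ℕ => (q : ℤ) ≡ b [ZMOD (W : ℤ)]) :=
    Finset.filter_congr fun q _ => hbiff q
  rw [hfil]
  set QB := (QS X).filter (fun q : ℕ => (q : ℤ) ≡ b [ZMOD (W : ℤ)]) with hQB
  have hterm : ∀ q ∈ QB, om X q / q * gsn L (x - Real.log q) = gg L x₁ y (Real.log q) / q := by
    intro q hq
    rw [hQB, Finset.mem_filter] at hq
    have hq0 : (0 : ℝ) < q := by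
      have := (mem_prI.mp hq.1).2.pos
      exact_mod_cast this
    unfold om gs gg
    rw [hx₁, hy, one_mul, ← hℓ, show (ℓ - Real.log q) ^ 2 = (Real.log q - ℓ) ^ 2 by ring]
    field_simp
  rw [Finset.sum_congr rfl hterm]
  -- split
  set w : Finset ℕ := (prI ⌊Real.exp (x₁ - K * L)⌋₊ ⌊Real.exp (x₁ + K * L)⌋₊).filter (fun q : ℕ => (q : ℤ) ≡ b [ZMOD (W : ℤ)]) with hw
  have hsub : w ⊆ QB := by
    intro q hq
    rw [hw, Finset.mem_filter] at hq
    have hq1 := mem_prI.mp hq.1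
    rw [hQB, Finset.mem_filter]
    refine ⟨mem_prI.mpr ⟨⟨?_, ?_⟩, hq1.2⟩, hq.2⟩
    · refine lt_of_le_of_lt ?_ hq1.1.1
      apply Nat.le_floor
      refine (Real.nat_sqrt_le_real_sqrt).trans ?_
      rw [Real.sqrt_eq_rpow, ← hexpℓ, ← Real.exp_mul]
      apply Real.exp_le_exp.2
      linarith
    · refine hq1.1.2.trans ?_
      apply Nat.floor_le_of_le
      push_cast
      rw [← hexpℓ, ← Real.exp_nat_mul]
      apply Real.exp_le_exp.2
      push_cast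
      linarith
  have hnn : ∀ q : ℕ, 0 ≤ gg L x₁ y (Real.log q) / q := fun q =>
    div_nonneg (gg_bd L x₁ y _ hL).1 (Nat.cast_nonneg q)
  have hrest : QB \ w ⊆ (prI 0 (X ^ 2)).filter (fun q : ℕ => K * L ≤ |x₁ - Real.log q|) := by
    intro q hq
    rw [Finset.mem_sdiff] at hq
    have hq1 : q ∈ QS X ∧ (q : ℤ) ≡ b [ZMOD (W : ℤ)] := by
      have := hq.1
      rw [hQB, Finset.mem_filter] at this
      exact this
    have hq2 := mem_prI.mp hq1.1
    have hq0 : (0 : ℝ) < q := by exact_mod_cast hq2.2.pos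
    rw [Finset.mem_filter]
    refine ⟨mem_prI.mpr ⟨⟨hq2.2.pos, hq2.1.2⟩, hq2.2⟩, ?_⟩
    have hnw : ¬ (⌊Real.exp (x₁ - K * L)⌋₊ < q ∧ q ≤ ⌊Real.exp (x₁ + K * L)⌋₊) := by
      intro hcon
      apply hq.2
      rw [hw, Finset.mem_filter]
      exact ⟨mem_prI.mpr ⟨hcon, hq2.2⟩, hq1.2⟩
    rw [not_and_or, not_lt, not_le] at hnw
    rcases hnw with h | h
    · have h1 : (q : ℝ) ≤ Real.exp (x₁ - K * L) := by
        have h2 : (q : ℝ) ≤ (⌊Real.exp (x₁ - K * L)⌋₊ : ℝ) := by exact_mod_cast h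
        exact h2.trans (Nat.floor_le (Real.exp_pos _).le)
      have h2 := (Real.log_le_iff_le_exp hq0).2 h1
      exact le_trans (by linarith) (le_abs_self _)
    · have h1 : Real.exp (x₁ + K * L) ≤ q := by
        have h2 := Nat.lt_floor_add_one (Real.exp (x₁ + K * L))
        have h3 : (⌊Real.exp (x₁ + K * L)⌋₊ : ℝ) + 1 ≤ q := by exact_mod_cast h
        linarith
      have h2 := (Real.le_log_iff_exp_le hq0).2 h1
      rw [abs_sub_comm]
      exact le_trans (by linarith) (le_abs_self _)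
  obtain ⟨S, hS⟩ : ∃ S : ℝ, S = ∑ q ∈ QB, gg L x₁ y (Real.log q) / q := ⟨_, rfl⟩
  obtain ⟨Sw, hSw⟩ : ∃ S : ℝ, S = ∑ q ∈ w, gg L x₁ y (Real.log q) / q := ⟨_, rfl⟩
  obtain ⟨Iw, hIw⟩ : ∃ I : ℝ, I = ∫ u in Set.Ioc (x₁ - K * L) (x₁ + K * L), gg L x₁ y u := ⟨_, rfl⟩
  obtain ⟨I, hI⟩ : ∃ I : ℝ, I = ∫ u : ℝ, gg L x₁ y u := ⟨_, rfl⟩
  have hsplit : S = Sw + ∑ q ∈ QB \ w, gg L x₁ y (Real.log q) / q := by
    rw [hS, hSw, add_comm, Finset.sum_sdiff hsub]
  have hr0 : 0 ≤ ∑ q ∈ QB \ w, gg L x₁ y (Real.log q) / q := Finset.sum_nonneg fun q _ => hnn q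
  have hr1 : ∑ q ∈ QB \ w, gg L x₁ y (Real.log q) / q ≤ ε / 8 / (φ * x₁) :=
    (Finset.sum_le_sum_of_subset_of_nonneg hrest fun q _ _ => hnn q).trans ho
  rw [← hS]
  rw [← hSw, ← hIw] at hc
  rw [← hI, ← hIw] at hgt
  rw [← hI] at hgi
  -- sizes
  have hIw0 : 0 ≤ Iw := by rw [hIw]; exact integral_nonneg fun u => (gg_bd L x₁ y u hL).1
  have hIw1 : Iw ≤ 3 := by
    rw [hIw]
    have h1 := gsn_integral' L x₁ hL
    refine (setIntegral_le_integral (gg_integrable L x₁ y hL) (Filter.Eventually.of_forall fun u => (gg_bd L x₁ y u hL).1)).trans ?_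
    refine (integral_mono (gg_integrable L x₁ y hL) h1.1 (fun u => (gg_bd L x₁ y u hL).2.1)).trans ?_
    rw [h1.2, Real.sqrt_le_left (by norm_num)]
    have := Real.pi_lt_d4
    linarith
  have hK3 : 4 * Real.exp (-(K ^ 2 / 4)) ≤ ε / 8 := by
    have h5 : Real.exp (-(K ^ 2 / 4)) ≤ 4 / K := by
      rw [Real.exp_neg, ← one_div, div_le_div_iff₀ (Real.exp_pos _) (by linarith)]
      have := Real.add_one_le_exp (K ^ 2 / 4)
      nlinarith
    have h6 : 4 / K ≤ ε / 32 := by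
      rw [div_le_div_iff₀ (by linarith) (by norm_num)]
      rw [div_le_iff₀ hε] at hK2
      linarith
    linarith
  obtain ⟨t, ht⟩ : ∃ t : ℝ, t = 1 / (φ * ℓ) := ⟨_, rfl⟩
  have ht0 : 0 < t := by rw [ht]; positivity
  obtain ⟨t₁, ht₁⟩ : ∃ t : ℝ, t = 1 / (φ * x₁) := ⟨_, rfl⟩
  have ht10 : 0 < t₁ := by rw [ht₁]; positivity
  have ht1t : t₁ ≤ 2 * t := by
    rw [ht₁, ht, mul_one_div, div_le_div_iff₀ (by positivity) (by positivity)]
    nlinarith
  have htd : |t₁ - t| ≤ 2 * η * t := by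
    have e1 : t₁ - t = (ℓ - x₁) / x₁ * t := by
      rw [ht₁, ht]
      field_simp
    rw [e1, abs_mul, abs_of_pos ht0]
    apply mul_le_mul_of_nonneg_right _ ht0.le
    rw [abs_div, abs_of_pos hx10, div_le_iff₀ hx10, abs_sub_comm]
    nlinarith
  have c1 : |Sw - t₁ * Iw| ≤ ε / 8 * t₁ := by
    rw [ht₁]
    refine hc.trans (le_of_eq ?_)
    ring
  have c2 : ε / 8 / (φ * x₁) = ε / 8 * t₁ := by rw [ht₁]; ring
  rw [c2] at hr1
  have key : |S - t * (Real.sqrt (2 * π) * Real.exp (-(x₁ - y) ^ 2))| ≤ ε * t := by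
    obtain ⟨E, hE⟩ : ∃ E : ℝ, E = Real.sqrt (2 * π) * Real.exp (-(x₁ - y) ^ 2) := ⟨_, rfl⟩
    rw [← hE] at hgi ⊢
    have e1 : S - t * E = (Sw - t₁ * Iw) + (S - Sw) + (t₁ - t) * Iw + t * (Iw - I) + t * (I - E) := by ring
    have e2 : |(t₁ - t) * Iw| ≤ 2 * η * t * 3 := by
      rw [abs_mul, abs_of_nonneg hIw0]
      exact mul_le_mul htd hIw1 hIw0 (by positivity)
    have e3 : |t * (Iw - I)| ≤ t * (ε / 8) := by
      rw [abs_mul, abs_of_pos ht0, abs_sub_comm]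
      exact mul_le_mul_of_nonneg_left (hgt.trans hK3) ht0.le
    have e4 : |t * (I - E)| ≤ t * (ε / 8) := by
      rw [abs_mul, abs_of_pos ht0]
      exact mul_le_mul_of_nonneg_left (hgi.trans hL2) ht0.le
    have e5 : |S - Sw| ≤ ε / 8 * t₁ := by
      rw [hsplit, add_sub_cancel_left, abs_of_nonneg hr0]
      exact hr1
    rw [e1]
    have f1 := abs_add_le ((Sw - t₁ * Iw) + (S - Sw) + (t₁ - t) * Iw + t * (Iw - I)) (t * (I - E))
    have f2 := abs_add_le ((Sw - t₁ * Iw) + (S - Sw) + (t₁ - t) * Iw) (t * (Iw - I))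
    have f3 := abs_add_le ((Sw - t₁ * Iw) + (S - Sw)) ((t₁ - t) * Iw)
    have f4 := abs_add_le (Sw - t₁ * Iw) (S - Sw)
    have g1 : ε / 8 * t₁ ≤ ε / 8 * (2 * t) := mul_le_mul_of_nonneg_left ht1t (by positivity)
    have g2 : 2 * η * t * 3 ≤ ε / 8 * t := by nlinarith
    linarith
  have fin1 : S - Real.sqrt (2 * π) * Real.exp (-(x - ℓ) ^ 2) / (φ * ℓ) =
      S - t * (Real.sqrt (2 * π) * Real.exp (-(x₁ - y) ^ 2)) := by
    rw [ht, hx₁, hy]
    ring
  have fin2 : ε / (φ * ℓ) = ε * t := by rw [ht]; ring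
  rw [fin1, fin2]
  exact key

end Pool.Agent.Lib.MP_bae66e_nt.MF
end

section

/-!
# Row P6: the long windows of the quotients
-/

set_option autoImplicit false

namespace Pool.Agent.Lib.MP_bae66e_nt.MF

open Finset MeasureTheory Real
open Pool.Agent.E3
open Pool.Agent.Lib.MP_bae66e_nt.EF (PX Wt HR gA COREG exp_sq_lip)
open Pool.Agent.Lib.MP_bae66e_nt.LL (fP gW)
open Pool.Agent.Lib.MP_bae66e_nt.AC (Sg VV)
open Pool.Agent.Lib.MP_bae66e_nt.AP3 (prI mem_prI)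

/-- PROOF. As `long_a` (EF/P4): for `s ∈ IS R` (a prime `> R ≥ W`) `log (q/s) = log q - log s`, so `one_q_asymp` for `X = M R` at `x + log s` (`|x + log s - log (M R)| = |x - log M + log (s/R)| ≤ 2`) and the class `s v`; times `α s/s`; `recip_IS`. -/
theorem longk (a : ℝ) (ha : 3 ≤ a) : LONGK a := by
  obtain ⟨C, hC, hrec⟩ := recip_IS
  have hC0 : 0 < C := by linarith
  intro W hW ε hε
  obtain ⟨L₀, hL₀, hone⟩ := one_q_asymp W hW (ε / C) (by positivity)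
  refine ⟨L₀, hL₀, fun L hL hLL => ?_⟩
  obtain ⟨X₁, h1⟩ := hone L hL hLL
  obtain ⟨X₂, h2⟩ := parK a ((W : ℝ) + 2) 1 ha one_pos
  refine ⟨max X₁ X₂, fun M hM R hR α hα v hv x hx => ?_⟩
  have hM1 : X₁ ≤ M := (le_max_left _ _).trans hM
  have hM2 : X₂ ≤ M := (le_max_right _ _).trans hM
  obtain ⟨p1, -, -, p4, -, p6, p7, -, p9, -, p11, -, -, -, -, -, -⟩ := h2 M hM2 R hR
  have hM0 : (0 : ℝ) < M := by exact_mod_cast (by omega : 0 < M)
  have hR0 : (0 : ℝ) < R := by exact_mod_cast (by omega : 0 < R)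
  have hMR : X₁ ≤ M * R := hM1.trans (Nat.le_mul_of_pos_right M (by omega))
  obtain ⟨X, hXd⟩ : ∃ X : ℕ, X = M * R := ⟨_, rfl⟩
  have hlogMR : Real.log (X : ℕ) = Real.log M + Real.log R := by
    rw [hXd]
    push_cast
    exact Real.log_mul hM0.ne' hR0.ne'
  rw [← hXd] at p11 hMR ⊢
  have hlogX : 0 < Real.log X := by linarith
  have hlogR : 0 < Real.log R := by linarith
  have hphi : 0 < (Nat.totient W : ℝ) := by exact_mod_cast Nat.totient_pos.mpr hW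
  have hmem : ∀ s ∈ IS R, Nat.Prime s ∧ R < s ∧ s ≤ 2 * R := by
    intro s hs
    obtain ⟨hs1, hs2⟩ := mem_prI.mp hs
    exact ⟨hs2, hs1.1, hs1.2⟩
  have hterm : ∀ s ∈ IS R,
      |∑ q ∈ (QS X).filter (fun q => q ≡ s * v [MOD W]), α s * (om X q / (s * q) * gsn L (x - Real.log ((q : ℝ) / s)))
        - Real.sqrt (2 * π) / (Nat.totient W * Real.log X) *
          (α s / s * Real.exp (-(x + Real.log s - Real.log X) ^ 2))|
        ≤ ε / C / ((Nat.totient W : ℝ) * Real.log X) * (1 / (s : ℝ)) := by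
    intro s hs
    obtain ⟨g1, g2, g3⟩ := hmem s hs
    have hs0 : (0 : ℝ) < s := by exact_mod_cast g1.pos
    have hsW : Nat.Coprime s W := by
      rw [Nat.Prime.coprime_iff_not_dvd g1]
      intro hd
      have hle := Nat.le_of_dvd (by omega) hd
      have : (W : ℝ) < s := by
        have h5 : (R : ℝ) < s := by exact_mod_cast g2
        linarith
      have hle' : (s : ℝ) ≤ W := by exact_mod_cast hle
      linarith
    have hlo : Real.log R ≤ Real.log s := Real.log_le_log hR0 (by exact_mod_cast g2.le)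
    have hup : Real.log s ≤ Real.log R + 1 := by
      have e1 : Real.log s ≤ Real.log (2 * R) := Real.log_le_log hs0 (by exact_mod_cast g3)
      rw [Real.log_mul (by norm_num) hR0.ne'] at e1
      have e2 := Real.log_two_lt_d9
      linarith
    have hxs : |x + Real.log s - Real.log X| ≤ 4 := by
      rw [hlogMR, abs_le]
      obtain ⟨hx1, hx2⟩ := abs_le.mp hx
      constructor <;> linarith
    have h3 := h1 X hMR (x + Real.log s) (s * v) hxs (Nat.Coprime.mul_left hsW hv)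
    have hα0 := (hα s).1
    have hα1 := (hα s).2
    have e0 : ∑ q ∈ (QS X).filter (fun q => q ≡ s * v [MOD W]), α s * (om X q / (s * q) * gsn L (x - Real.log ((q : ℝ) / s)))
        = α s / s * ∑ q ∈ (QS X).filter (fun q => q ≡ s * v [MOD W]), om X q / q * gsn L (x + Real.log s - Real.log q) := by
      rw [Finset.mul_sum]
      refine Finset.sum_congr rfl fun q hq => ?_
      rw [Finset.mem_filter] at hq
      have hq0 : (0 : ℝ) < q := by
        have := (mem_prI.mp hq.1).2.pos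
        exact_mod_cast this
      rw [Real.log_div hq0.ne' hs0.ne', show x - (Real.log q - Real.log s) = x + Real.log s - Real.log q by ring]
      field_simp
    have e : ∑ q ∈ (QS X).filter (fun q => q ≡ s * v [MOD W]), α s * (om X q / (s * q) * gsn L (x - Real.log ((q : ℝ) / s)))
        - Real.sqrt (2 * π) / (Nat.totient W * Real.log X) *
          (α s / s * Real.exp (-(x + Real.log s - Real.log X) ^ 2)) =
        α s / s * (∑ q ∈ (QS X).filter (fun q => q ≡ s * v [MOD W]), om X q / q * gsn L (x + Real.log s - Real.log q)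
          - Real.sqrt (2 * π) * Real.exp (-(x + Real.log s - Real.log X) ^ 2) / ((Nat.totient W : ℝ) * Real.log X)) := by
      rw [e0]
      ring
    rw [e, abs_mul, abs_of_nonneg (by positivity : 0 ≤ α s / s)]
    calc α s / s * |∑ q ∈ (QS X).filter (fun q => q ≡ s * v [MOD W]), om X q / q * gsn L (x + Real.log s - Real.log q)
          - Real.sqrt (2 * π) * Real.exp (-(x + Real.log s - Real.log X) ^ 2) / ((Nat.totient W : ℝ) * Real.log X)|
        ≤ 1 / s * (ε / C / ((Nat.totient W : ℝ) * Real.log X)) :=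
          mul_le_mul (div_le_div_of_nonneg_right hα1 hs0.le) h3 (abs_nonneg _) (by positivity)
      _ = ε / C / ((Nat.totient W : ℝ) * Real.log X) * (1 / (s : ℝ)) := mul_comm _ _
  have hsum : XVK α W v R X L x - Real.sqrt (2 * π) / (Nat.totient W * Real.log X) * AAK α R X x =
      ∑ s ∈ IS R, (∑ q ∈ (QS X).filter (fun q => q ≡ s * v [MOD W]), α s * (om X q / (s * q) * gsn L (x - Real.log ((q : ℝ) / s)))
        - Real.sqrt (2 * π) / (Nat.totient W * Real.log X) *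
          (α s / s * Real.exp (-(x + Real.log s - Real.log X) ^ 2))) := by
    unfold XVK AAK
    rw [Finset.sum_sub_distrib, Finset.mul_sum]
  rw [hsum]
  refine (Finset.abs_sum_le_sum_abs _ _).trans ((Finset.sum_le_sum hterm).trans ?_)
  rw [← Finset.mul_sum]
  have hR2 : 2 ≤ R := by omega
  have h4 := (hrec R hR2).1
  calc ε / C / ((Nat.totient W : ℝ) * Real.log X) * ∑ s ∈ IS R, 1 / (s : ℝ)
      ≤ ε / C / ((Nat.totient W : ℝ) * Real.log X) * (C / Real.log R) :=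
        mul_le_mul_of_nonneg_left h4 (by positivity)
    _ = ε * FJ R X / Nat.totient W := by
        unfold FJ
        field_simp

/-- PROOF. As `AA_bd` (EF/P4). -/
theorem AAK_bd : ∃ C : ℝ, 1 ≤ C ∧ ∀ (R X : ℕ) (α : ℕ → ℝ), 2 ≤ R → Wt α →
    (∀ x, 0 ≤ AAK α R X x ∧ AAK α R X x ≤ C / Real.log R) ∧
    ∀ x y, |AAK α R X x - AAK α R X y| ≤ C / Real.log R * |x - y| := by
  obtain ⟨C, hC, hrec⟩ := recip_IS
  refine ⟨C, hC, fun R X α hR hα => ⟨fun x => ⟨?_, ?_⟩, fun x y => ?_⟩⟩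
  · unfold AAK
    refine Finset.sum_nonneg fun s _ => ?_
    have := (hα s).1
    positivity
  · refine le_trans ?_ (hrec R hR).1
    unfold AAK
    refine Finset.sum_le_sum fun s hs => ?_
    have h1 := (hα s).1
    have h2 := (hα s).2
    have h3 : Real.exp (-(x + Real.log s - Real.log X) ^ 2) ≤ 1 := by
      rw [Real.exp_le_one_iff]
      have := sq_nonneg (x + Real.log s - Real.log X)
      linarith
    have h4 : 0 ≤ α s / s := by positivity
    calc α s / s * Real.exp (-(x + Real.log s - Real.log X) ^ 2) ≤ α s / s * 1 :=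
          mul_le_mul_of_nonneg_left h3 h4
      _ = α s / s := mul_one _
      _ ≤ 1 / s := div_le_div_of_nonneg_right h2 (by positivity)
  · have e : AAK α R X x - AAK α R X y = ∑ s ∈ IS R, α s / s *
        (Real.exp (-(x + Real.log s - Real.log X) ^ 2) -
          Real.exp (-(y + Real.log s - Real.log X) ^ 2)) := by
      unfold AAK
      rw [← Finset.sum_sub_distrib]
      exact Finset.sum_congr rfl fun s _ => by ring
    rw [e]
    calc |∑ s ∈ IS R, α s / s *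
        (Real.exp (-(x + Real.log s - Real.log X) ^ 2) -
          Real.exp (-(y + Real.log s - Real.log X) ^ 2))|
        ≤ ∑ s ∈ IS R, |α s / s *
        (Real.exp (-(x + Real.log s - Real.log X) ^ 2) -
          Real.exp (-(y + Real.log s - Real.log X) ^ 2))| := Finset.abs_sum_le_sum_abs _ _
      _ ≤ ∑ s ∈ IS R, 1 / (s : ℝ) * |x - y| := by
          refine Finset.sum_le_sum fun s hs => ?_
          have h1 := (hα s).1
          have h2 := (hα s).2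
          have h4 : 0 ≤ α s / s := by positivity
          rw [abs_mul, abs_of_nonneg h4]
          have h5 := exp_sq_lip (x + Real.log s - Real.log X) (y + Real.log s - Real.log X)
          rw [show x + Real.log s - Real.log X - (y + Real.log s - Real.log X) = x - y by ring] at h5
          exact mul_le_mul (div_le_div_of_nonneg_right h2 (by positivity)) h5 (abs_nonneg _) (by positivity)
      _ = (∑ s ∈ IS R, 1 / (s : ℝ)) * |x - y| := by rw [Finset.sum_mul]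
      _ ≤ C / Real.log R * |x - y| := mul_le_mul_of_nonneg_right (hrec R hR).1 (abs_nonneg _)

end Pool.Agent.Lib.MP_bae66e_nt.MF
end
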