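import Pool.Agent.Lib.MP_bae66e_nt.Mg.G100
import Pool.Agent.Lib.MP_bae66e_nt.Mg.G040

section

/-!
# Row C2: the windows of quotients in a class (port of EF/W2 and E3/W5)
-/

set_option autoImplicit false

namespace Pool.Agent.Lib.MP_bae66e_nt.MF

open Finset MeasureTheory Real
open Pool.Agent.E3
open Pool.Agent.Lib.MP_bae66e_nt.EF (PX Wt HR gA COREG)
open Pool.Agent.Lib.MP_bae66e_nt.LL (fP gW)
open Pool.Agent.Lib.MP_bae66e_nt.AC (Sg VV)
open Pool.Agent.Lib.MP_bae66e_nt.AP3 (prI mem_prI)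

private lemma C2_orth (W c n : ℕ) (hW : 1 ≤ W) (hc : Nat.Coprime c W) :
    ∑ χ : DirichletCharacter ℂ W, χ ((c : ZMod W)⁻¹) * ch χ n =
      if n ≡ c [MOD W] then (Nat.totient W : ℂ) else 0 := by
  have : NeZero W := ⟨by omega⟩
  have hu : IsUnit (c : ZMod W) := (ZMod.isUnit_iff_coprime c W).2 hc
  have h := DirichletCharacter.sum_char_inv_mul_char_eq ℂ hu (n : ZMod W)
  unfold ch
  rw [h]
  by_cases hn : n ≡ c [MOD W]
  · rw [if_pos hn, if_pos ((ZMod.natCast_eq_natCast_iff c n W).2 hn.symm)]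
  · rw [if_neg hn, if_neg (fun h => hn ((ZMod.natCast_eq_natCast_iff c n W).1 h).symm)]

private lemma C2_char (W s v : ℕ) (hW : 1 ≤ W) (hs : Nat.Coprime s W) (hv : Nat.Coprime v W)
    (χ : DirichletCharacter ℂ W) :
    χ ((v : ZMod W)⁻¹) * starRingEnd ℂ (ch χ s) = χ ((((s * v : ℕ) : ZMod W))⁻¹) := by
  have : NeZero W := ⟨by omega⟩
  have hsu : IsUnit (s : ZMod W) := (ZMod.isUnit_iff_coprime s W).2 hs
  have hvu : IsUnit (v : ZMod W) := (ZMod.isUnit_iff_coprime v W).2 hv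
  have hsv : IsUnit (((s * v : ℕ) : ZMod W)) :=
    (ZMod.isUnit_iff_coprime (s * v) W).2 (Nat.Coprime.mul_left hs hv)
  have h1 : χ (((s * v : ℕ) : ZMod W)) * χ ((((s * v : ℕ) : ZMod W))⁻¹) = 1 := by
    rw [← map_mul, ZMod.mul_inv_of_unit _ hsv, map_one]
  have h2 : χ (v : ZMod W) * χ ((v : ZMod W)⁻¹) = 1 := by
    rw [← map_mul, ZMod.mul_inv_of_unit _ hvu, map_one]
  have h3 : χ (s : ZMod W) * starRingEnd ℂ (ch χ s) = 1 := by
    have e1 : starRingEnd ℂ (ch χ s) = χ⁻¹ (s : ZMod W) := MulChar.star_apply' χ (s : ZMod W)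
    rw [e1, ← MulChar.mul_apply, mul_inv_cancel, MulChar.one_apply hsu]
  have h4 : χ (((s * v : ℕ) : ZMod W)) = χ (s : ZMod W) * χ (v : ZMod W) := by
    rw [Nat.cast_mul, map_mul]
  have h5 : χ (((s * v : ℕ) : ZMod W)) ≠ 0 := by
    intro h0
    rw [h0, zero_mul] at h1
    exact zero_ne_one h1
  refine mul_left_cancel₀ h5 ?_
  rw [h1, h4]
  calc χ (s : ZMod W) * χ (v : ZMod W) * (χ ((v : ZMod W)⁻¹) * starRingEnd ℂ (ch χ s))
      = (χ (s : ZMod W) * starRingEnd ℂ (ch χ s)) * (χ (v : ZMod W) * χ ((v : ZMod W)⁻¹)) := by ring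
    _ = 1 := by rw [h3, h2, one_mul]

private lemma C2_cont (α : ℕ → ℝ) (W v : ℕ) (R X : ℕ) (w : ℝ) : Continuous (fun x : ℝ => XVK α W v R X w x) := by
  unfold XVK
  refine continuous_finsetSum _ fun s _ => continuous_finsetSum _ fun q _ => ?_
  unfold gsn
  fun_prop

/-- PROOF. As `WJ_eq` (E3/W5). -/
theorem XVK_eq (α : ℕ → ℝ) (W v : ℕ) (hW : 1 ≤ W) (hv : Nat.Coprime v W) (R X : ℕ) (hR : W ≤ R) (d x : ℝ) :
    ((XVK α W v R X d x : ℝ) : ℂ)
      = 1 / (Nat.totient W : ℂ) * ∑ χ : DirichletCharacter ℂ W, χ ((v : ZMod W)⁻¹) * XXK χ α R X d x := by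
  have hW0 : (Nat.totient W : ℂ) ≠ 0 := by exact_mod_cast (Nat.totient_pos.2 hW).ne'
  have h1 : ∑ χ : DirichletCharacter ℂ W, χ ((v : ZMod W)⁻¹) * XXK χ α R X d x =
      ∑ s ∈ IS R, ∑ q ∈ QS X,
        (∑ χ : DirichletCharacter ℂ W, χ ((((s * v : ℕ) : ZMod W))⁻¹) * ch χ q) *
          ((α s : ℂ) * ((om X q / (s * q) * gsn d (x - Real.log ((q : ℝ) / s)) : ℝ) : ℂ)) := by
    unfold XXK
    simp only [Finset.mul_sum, Finset.sum_mul]
    rw [Finset.sum_comm]
    refine sum_congr rfl fun s hs => ?_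
    have hs1 := mem_prI.mp hs
    have hsc : Nat.Coprime s W := (Nat.Prime.coprime_iff_not_dvd hs1.2).mpr fun hd => by
      have := Nat.le_of_dvd (by omega) hd
      omega
    rw [Finset.sum_comm]
    refine sum_congr rfl fun q _ => ?_
    refine sum_congr rfl fun χ _ => ?_
    rw [← C2_char W s v hW hsc hv χ]
    ring
  rw [h1, Finset.mul_sum]
  unfold XVK
  rw [Complex.ofReal_sum]
  refine sum_congr rfl fun s hs => ?_
  have hs1 := mem_prI.mp hs
  have hsc : Nat.Coprime s W := (Nat.Prime.coprime_iff_not_dvd hs1.2).mpr fun hd => by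
    have := Nat.le_of_dvd (by omega) hd
    omega
  rw [Finset.sum_filter, Complex.ofReal_sum, Finset.mul_sum]
  refine sum_congr rfl fun q _ => ?_
  rw [C2_orth W (s * v) q hW (Nat.Coprime.mul_left hsc hv)]
  by_cases hn : q ≡ s * v [MOD W]
  · rw [if_pos hn, if_pos hn, one_div, inv_mul_cancel_left₀ hW0, Complex.ofReal_mul]
  · rw [if_neg hn, if_neg hn]
    simp

/-- PROOF. As `class_window_g` (E3/M5). -/
private theorem C2_cw2 (α : ℕ → ℝ) (W v : ℕ) (hW : 1 ≤ W) (hv : Nat.Coprime v W) (R X : ℕ) (hR : W ≤ R) (d l B : ℝ)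
    (hi : ∀ χ : DirichletCharacter ℂ W, Integrable (fun x : ℝ => ‖XXK χ α R X d x - XXK χ α R X l x‖ ^ 2))
    (h : ∀ χ : DirichletCharacter ℂ W, ∫ x : ℝ, ‖XXK χ α R X d x - XXK χ α R X l x‖ ^ 2 ≤ B) :
    Integrable (fun x : ℝ => (XVK α W v R X d x - XVK α W v R X l x) ^ 2) ∧
    ∫ x : ℝ, (XVK α W v R X d x - XVK α W v R X l x) ^ 2 ≤ B := by
  have : NeZero W := ⟨by omega⟩
  have hφ : (0 : ℝ) < (Nat.totient W : ℝ) := by exact_mod_cast Nat.totient_pos.2 hW
  have hcard : (Fintype.card (DirichletCharacter ℂ W) : ℝ) = (Nat.totient W : ℝ) := by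
    rw [← Nat.card_eq_fintype_card, DirichletCharacter.card_eq_totient_of_hasEnoughRootsOfUnity ℂ W]
  have heq : ∀ x : ℝ, ((XVK α W v R X d x - XVK α W v R X l x : ℝ) : ℂ) =
      1 / (Nat.totient W : ℂ) * ∑ χ : DirichletCharacter ℂ W,
        χ ((v : ZMod W)⁻¹) * (XXK χ α R X d x - XXK χ α R X l x) := by
    intro x
    rw [Complex.ofReal_sub, XVK_eq α W v hW hv R X hR, XVK_eq α W v hW hv R X hR, ← mul_sub, ← Finset.sum_sub_distrib]
    congr 1
    exact sum_congr rfl fun χ _ => (mul_sub _ _ _).symm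
  have hpt : ∀ x : ℝ, (XVK α W v R X d x - XVK α W v R X l x) ^ 2 ≤
      1 / (Nat.totient W : ℝ) * ∑ χ : DirichletCharacter ℂ W, ‖XXK χ α R X d x - XXK χ α R X l x‖ ^ 2 := by
    intro x
    have h1 : (XVK α W v R X d x - XVK α W v R X l x) ^ 2 =
        ‖((XVK α W v R X d x - XVK α W v R X l x : ℝ) : ℂ)‖ ^ 2 := by
      rw [Complex.norm_real, Real.norm_eq_abs, sq_abs]
    have h2 : ‖((XVK α W v R X d x - XVK α W v R X l x : ℝ) : ℂ)‖ ≤
        1 / (Nat.totient W : ℝ) * ∑ χ : DirichletCharacter ℂ W, ‖XXK χ α R X d x - XXK χ α R X l x‖ := by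
      rw [heq, norm_mul]
      have h3 : ‖(1 / (Nat.totient W : ℂ))‖ = 1 / (Nat.totient W : ℝ) := by
        rw [norm_div, norm_one, Complex.norm_natCast]
      rw [h3]
      refine mul_le_mul_of_nonneg_left ?_ (by positivity)
      refine (norm_sum_le _ _).trans (sum_le_sum fun χ _ => ?_)
      rw [norm_mul]
      exact mul_le_of_le_one_left (norm_nonneg _) (DirichletCharacter.norm_le_one χ _)
    have h4 : (∑ χ : DirichletCharacter ℂ W, ‖XXK χ α R X d x - XXK χ α R X l x‖) ^ 2 ≤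
        (Nat.totient W : ℝ) * ∑ χ : DirichletCharacter ℂ W, ‖XXK χ α R X d x - XXK χ α R X l x‖ ^ 2 := by
      rw [← hcard]
      exact sq_sum_le_card_mul_sum_sq
    rw [h1]
    calc ‖((XVK α W v R X d x - XVK α W v R X l x : ℝ) : ℂ)‖ ^ 2
        ≤ (1 / (Nat.totient W : ℝ) *
            ∑ χ : DirichletCharacter ℂ W, ‖XXK χ α R X d x - XXK χ α R X l x‖) ^ 2 :=
          pow_le_pow_left₀ (norm_nonneg _) h2 2
      _ = (1 / (Nat.totient W : ℝ)) ^ 2 *
            (∑ χ : DirichletCharacter ℂ W, ‖XXK χ α R X d x - XXK χ α R X l x‖) ^ 2 := by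
          rw [mul_pow]
      _ ≤ (1 / (Nat.totient W : ℝ)) ^ 2 *
          ((Nat.totient W : ℝ) *
            ∑ χ : DirichletCharacter ℂ W, ‖XXK χ α R X d x - XXK χ α R X l x‖ ^ 2) :=
          mul_le_mul_of_nonneg_left h4 (by positivity)
      _ = 1 / (Nat.totient W : ℝ) *
            ∑ χ : DirichletCharacter ℂ W, ‖XXK χ α R X d x - XXK χ α R X l x‖ ^ 2 := by
          field_simp
  have hIχ : ∀ χ : DirichletCharacter ℂ W,
      Integrable (fun x : ℝ => ‖XXK χ α R X d x - XXK χ α R X l x‖ ^ 2) :=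
    hi
  have hIs : Integrable (fun x : ℝ => 1 / (Nat.totient W : ℝ) *
      ∑ χ : DirichletCharacter ℂ W, ‖XXK χ α R X d x - XXK χ α R X l x‖ ^ 2) :=
    (integrable_finsetSum _ fun χ _ => hIχ χ).const_mul _
  have hI : Integrable (fun x : ℝ => (XVK α W v R X d x - XVK α W v R X l x) ^ 2) := by
    refine hIs.mono' (((C2_cont α W v R X d).sub (C2_cont α W v R X l)).pow 2).aestronglyMeasurable
      (Filter.Eventually.of_forall fun x => ?_)
    rw [Real.norm_of_nonneg (sq_nonneg _)]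
    exact hpt x
  refine ⟨hI, ?_⟩
  calc ∫ x : ℝ, (XVK α W v R X d x - XVK α W v R X l x) ^ 2
      ≤ ∫ x : ℝ, 1 / (Nat.totient W : ℝ) *
          ∑ χ : DirichletCharacter ℂ W, ‖XXK χ α R X d x - XXK χ α R X l x‖ ^ 2 :=
        integral_mono hI hIs hpt
    _ = 1 / (Nat.totient W : ℝ) *
          ∑ χ : DirichletCharacter ℂ W, ∫ x : ℝ, ‖XXK χ α R X d x - XXK χ α R X l x‖ ^ 2 := by
        rw [integral_const_mul, integral_finsetSum _ fun χ _ => hIχ χ]
    _ ≤ 1 / (Nat.totient W : ℝ) * ∑ χ : DirichletCharacter ℂ W, B :=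
        mul_le_mul_of_nonneg_left (sum_le_sum fun χ _ => h χ) (by positivity)
    _ = B := by
        rw [Finset.sum_const, nsmul_eq_mul, Finset.card_univ, hcard]
        field_simp

/-- PROOF. As `class_window_L1` (E3/M5). -/
private theorem C2_cw1 (α : ℕ → ℝ) (W v : ℕ) (R X : ℕ) (d l B y : ℝ)
    (hi : Integrable (fun x : ℝ => (XVK α W v R X d x - XVK α W v R X l x) ^ 2))
    (h : ∫ x : ℝ, (XVK α W v R X d x - XVK α W v R X l x) ^ 2 ≤ B) :
    IntegrableOn (fun x : ℝ => |XVK α W v R X d x - XVK α W v R X l x|) (Set.Icc (y - 1) (y + 1)) ∧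
    ∫ x in Set.Icc (y - 1) (y + 1), |XVK α W v R X d x - XVK α W v R X l x| ≤ Real.sqrt (2 * B) := by
  set f : ℝ → ℝ := fun x => XVK α W v R X d x - XVK α W v R X l x with hf
  have hcont : Continuous f := (C2_cont α W v R X d).sub (C2_cont α W v R X l)
  have hI1 : IntegrableOn (fun x : ℝ => |f x|) (Set.Icc (y - 1) (y + 1)) :=
    hcont.abs.continuousOn.integrableOn_compact isCompact_Icc
  have hI2 : IntegrableOn (fun x : ℝ => (f x) ^ 2) (Set.Icc (y - 1) (y + 1)) :=
    (hcont.pow 2).continuousOn.integrableOn_compact isCompact_Icc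
  refine ⟨hI1, ?_⟩
  have hvol : volume.real (Set.Icc (y - 1) (y + 1)) = 2 := by
    rw [Real.volume_real_Icc_of_le (by linarith)]
    ring
  have hB : ∫ x in Set.Icc (y - 1) (y + 1), (f x) ^ 2 ≤ B :=
    (setIntegral_le_integral hi (Filter.Eventually.of_forall fun x => sq_nonneg _)).trans h
  set A : ℝ := ∫ x in Set.Icc (y - 1) (y + 1), |f x| with hA
  have hA0 : 0 ≤ A := integral_nonneg fun x => abs_nonneg _
  -- `0 ≤ ∫ (|f| - A/2)²`
  have hkey : 0 ≤ ∫ x in Set.Icc (y - 1) (y + 1), (|f x| - A / 2) ^ 2 :=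
    integral_nonneg fun x => sq_nonneg _
  have hexp : ∫ x in Set.Icc (y - 1) (y + 1), (|f x| - A / 2) ^ 2 =
      (∫ x in Set.Icc (y - 1) (y + 1), (f x) ^ 2) - A * A + (A / 2) ^ 2 * 2 := by
    have h1 : ∀ x, (|f x| - A / 2) ^ 2 = (f x) ^ 2 - A * |f x| + (A / 2) ^ 2 := by
      intro x
      rw [sub_sq, sq_abs]
      ring
    simp only [h1]
    have hI3 : IntegrableOn (fun x : ℝ => A * |f x|) (Set.Icc (y - 1) (y + 1)) := hI1.const_mul A
    have hI4 : IntegrableOn (fun x : ℝ => (f x) ^ 2 - A * |f x|) (Set.Icc (y - 1) (y + 1)) :=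
      hI2.sub hI3
    have hI5 : IntegrableOn (fun _ : ℝ => (A / 2) ^ 2) (Set.Icc (y - 1) (y + 1)) :=
      integrableOn_const (by simp)
    have e1 : ∫ x in Set.Icc (y - 1) (y + 1), ((f x) ^ 2 - A * |f x| + (A / 2) ^ 2) =
        (∫ x in Set.Icc (y - 1) (y + 1), ((f x) ^ 2 - A * |f x|)) +
          ∫ _x in Set.Icc (y - 1) (y + 1), (A / 2) ^ 2 := integral_add hI4 hI5
    have e2 : ∫ x in Set.Icc (y - 1) (y + 1), ((f x) ^ 2 - A * |f x|) =
        (∫ x in Set.Icc (y - 1) (y + 1), (f x) ^ 2) - ∫ x in Set.Icc (y - 1) (y + 1), A * |f x| :=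
      integral_sub hI2 hI3
    rw [e1, e2, integral_const_mul, setIntegral_const, hvol, ← hA, smul_eq_mul]
    ring
  rw [hexp] at hkey
  refine Real.le_sqrt_of_sq_le ?_
  nlinarith

/-- PROOF. As `class_window_a` (EF/W2) and `class_window_J`, `class_window_JL1` (E3/W5; `W ≤ R`, so the `s` are coprime to `W`). -/
theorem class_window_k (α : ℕ → ℝ) (W v : ℕ) (hW : 1 ≤ W) (hv : Nat.Coprime v W) (R X : ℕ) (hR : W ≤ R) (d l B y : ℝ) (hd : 0 < d) (hl : 0 < l)
    (hi : ∀ χ : DirichletCharacter ℂ W, Integrable (fun x : ℝ => ‖XXK χ α R X d x - XXK χ α R X l x‖ ^ 2))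
    (h : ∀ χ : DirichletCharacter ℂ W, ∫ x : ℝ, ‖XXK χ α R X d x - XXK χ α R X l x‖ ^ 2 ≤ B) :
    IntegrableOn (fun x : ℝ => |XVK α W v R X d x - XVK α W v R X l x|) (Set.Icc (y - 1) (y + 1)) ∧
    ∫ x in Set.Icc (y - 1) (y + 1), |XVK α W v R X d x - XVK α W v R X l x| ≤ Real.sqrt (2 * B) := by
  obtain ⟨h1, h2⟩ := C2_cw2 α W v hW hv R X hR d l B hi h
  exact C2_cw1 α W v R X d l B y h1 h2

end Pool.Agent.Lib.MP_bae66e_nt.MF
end

section

/-!
# Row T1: the smoothed interval for one real point (port of EF/S1)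
-/

set_option autoImplicit false

namespace Pool.Agent.Lib.MP_bae66e_nt.MF

open Finset MeasureTheory Real
open Pool.Agent.E3
open Pool.Agent.Lib.MP_bae66e_nt.EF (PX Wt HR gA COREG)
open Pool.Agent.Lib.MP_bae66e_nt.LL (fP gW)
open Pool.Agent.Lib.MP_bae66e_nt.AC (Sg VV)
open Pool.Agent.Lib.MP_bae66e_nt.AP3 (prI mem_prI)

private lemma T1_mem {H X m : ℕ} (hX : 100 * H ≤ X) (hm : m ∈ Icc X (2 * X)) :
    (X : ℝ) ≤ m ∧ (m : ℝ) ≤ 2 * X ∧ 100 * (H : ℝ) ≤ X := by
  obtain ⟨h1, h2⟩ := Finset.mem_Icc.1 hm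
  exact ⟨by exact_mod_cast h1, by exact_mod_cast h2, by exact_mod_cast hX⟩

private lemma T1_exp {H X m : ℕ} {x : ℝ} (hH : 1 ≤ H) (hX : 100 * H ≤ X) (hm : m ∈ Icc X (2 * X)) :
    x ∈ EF.II H m ↔ (m : ℝ) - H ≤ Real.exp x ∧ Real.exp x ≤ m := by
  obtain ⟨h1, h2, h3⟩ := T1_mem hX hm
  have hHr : (1 : ℝ) ≤ H := by exact_mod_cast hH
  unfold EF.II
  rw [Set.mem_Icc, Real.log_le_iff_le_exp (by linarith), Real.le_log_iff_exp_le (by linarith)]

private lemma T1_card (S : Finset ℕ) (α L : ℝ) (hα : 0 ≤ α) (hL : 0 ≤ L)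
    (hS : ∀ m ∈ S, α ≤ (m : ℝ) ∧ (m : ℝ) ≤ α + L) : (#S : ℝ) ≤ L + 1 := by
  have h1 : S ⊆ Finset.Icc ⌈α⌉₊ ⌊α + L⌋₊ := by
    intro m hm
    obtain ⟨h2, h3⟩ := hS m hm
    rw [Finset.mem_Icc]
    exact ⟨Nat.ceil_le.2 h2, Nat.le_floor h3⟩
  have h2 := Finset.card_le_card h1
  rw [Nat.card_Icc] at h2
  have h3 : (#S : ℝ) ≤ ((⌊α + L⌋₊ + 1 - ⌈α⌉₊ : ℕ) : ℝ) := by exact_mod_cast h2
  rcases le_or_gt ⌈α⌉₊ (⌊α + L⌋₊ + 1) with h4 | h4
  · rw [Nat.cast_sub h4] at h3
    have h5 := Nat.floor_le (show 0 ≤ α + L by linarith)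
    have h6 := Nat.le_ceil α
    push_cast at h3
    linarith
  · have h5 : ⌊α + L⌋₊ + 1 - ⌈α⌉₊ = 0 := by omega
    rw [h5, Nat.cast_zero] at h3
    linarith

open Classical in
/-- PROOF. As `II_diff` (EF/S1), for a real `n ≥ 0`. -/
theorem II_diffR (H X : ℕ) (n : ℝ) (hn : 0 ≤ n) (hH : 1 ≤ H) (hX : 100 * H ≤ X) (x : ℝ) :
    ∑ m ∈ Icc X (2 * X), |(if ((m : ℕ) : ℝ) - H ≤ n ∧ n < m then (1 : ℝ) else 0) - (Set.indicator (EF.II H m) (fun _ => (1 : ℝ)) x)|
      ≤ 2 * |Real.exp x - n| + 4 := by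
  classical
  set e := Real.exp x with he
  have he0 : 0 < e := Real.exp_pos x
  -- the two sets
  set δ := |e - n| with hδ
  have hd0 : 0 ≤ δ := abs_nonneg _
  have hd1 : e - n ≤ δ := le_abs_self _
  have hd2 : n - e ≤ δ := by rw [hδ, abs_sub_comm]; exact le_abs_self _
  set A : Finset ℕ := (Icc X (2 * X)).filter (fun m => min e n ≤ (m : ℝ) ∧ (m : ℝ) ≤ min e n + δ) with hA
  set B : Finset ℕ := (Icc X (2 * X)).filter (fun m => min e n + H ≤ (m : ℝ) ∧ (m : ℝ) ≤ min e n + H + δ) with hB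
  have hmin0 : 0 ≤ min e (n : ℝ) := le_min he0.le hn
  have hmaxe : e ≤ min e n + δ := by
    rcases le_total e (n : ℝ) with h | h
    · rw [min_eq_left h]; linarith
    · rw [min_eq_right h]; linarith
  have hmaxn : (n : ℝ) ≤ min e n + δ := by
    rcases le_total e (n : ℝ) with h | h
    · rw [min_eq_left h]; linarith
    · rw [min_eq_right h]; linarith
  have hAc : (#A : ℝ) ≤ δ + 1 := T1_card A _ δ hmin0 hd0 fun m hm => (Finset.mem_filter.1 hm).2
  have hBc : (#B : ℝ) ≤ δ + 1 := T1_card B _ δ (by positivity) hd0 fun m hm => (Finset.mem_filter.1 hm).2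
  have hterm : ∀ m ∈ Icc X (2 * X),
      |(if ((m : ℕ) : ℝ) - H ≤ n ∧ n < m then (1 : ℝ) else 0) - (Set.indicator (EF.II H m) (fun _ => (1 : ℝ)) x)|
        ≤ (if m ∈ A then 1 else 0) + (if m ∈ B then 1 else 0) := by
    intro m hm
    have hHm : H ≤ m := by
      have := (Finset.mem_Icc.1 hm).1
      omega
    rw [Set.indicator_apply]
    have hA' : m ∈ A ↔ (min e n ≤ (m : ℝ) ∧ (m : ℝ) ≤ min e n + δ) := by
      rw [hA, Finset.mem_filter]; exact ⟨fun h => h.2, fun h => ⟨hm, h⟩⟩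
    have hB' : m ∈ B ↔ (min e n + H ≤ (m : ℝ) ∧ (m : ℝ) ≤ min e n + H + δ) := by
      rw [hB, Finset.mem_filter]; exact ⟨fun h => h.2, fun h => ⟨hm, h⟩⟩
    have hn' : (((m : ℕ) : ℝ) - H ≤ n ∧ n < m) ↔ ((m : ℝ) ≤ n + H ∧ n < m) := by
      constructor
      · rintro ⟨h1, h2⟩
        exact ⟨by linarith, h2⟩
      · rintro ⟨h1, h2⟩
        exact ⟨by linarith, h2⟩
    have hx' := T1_exp (x := x) hH hX hm
    rw [← he] at hx'
    by_cases c1 : ((m : ℕ) : ℝ) - H ≤ n ∧ n < m
    · by_cases c2 : x ∈ EF.II H m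
      · rw [if_pos c1, if_pos c2, sub_self, abs_zero]
        positivity
      · rw [if_pos c1, if_neg c2, sub_zero, abs_one]
        rw [hn'] at c1
        rw [hx', not_and_or, not_le, not_le] at c2
        rcases c2 with c3 | c3
        · -- e < m - H
          have hB1 : m ∈ B := by
            rw [hB']
            constructor
            · have := min_le_left e (n : ℝ); linarith
            · linarith
          rw [if_pos hB1]
          have : (0 : ℝ) ≤ if m ∈ A then 1 else 0 := by positivity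
          linarith
        · have hA1 : m ∈ A := by
            rw [hA']
            constructor
            · have := min_le_right e (n : ℝ); linarith
            · linarith
          rw [if_pos hA1]
          have : (0 : ℝ) ≤ if m ∈ B then 1 else 0 := by positivity
          linarith
    · by_cases c2 : x ∈ EF.II H m
      · rw [if_neg c1, if_pos c2, zero_sub, abs_neg, abs_one]
        rw [hx'] at c2
        rw [hn', not_and_or, not_le, not_lt] at c1
        rcases c1 with c3 | c3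
        · have hB1 : m ∈ B := by
            rw [hB']
            constructor
            · have := min_le_right e (n : ℝ); linarith
            · linarith
          rw [if_pos hB1]
          have : (0 : ℝ) ≤ if m ∈ A then 1 else 0 := by positivity
          linarith
        · have hA1 : m ∈ A := by
            rw [hA']
            constructor
            · have := min_le_left e (n : ℝ); linarith
            · linarith
          rw [if_pos hA1]
          have : (0 : ℝ) ≤ if m ∈ B then 1 else 0 := by positivity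
          linarith
      · rw [if_neg c1, if_neg c2, sub_self, abs_zero]
        positivity
  refine (Finset.sum_le_sum hterm).trans ?_
  rw [Finset.sum_add_distrib]
  have hsA : ∑ m ∈ Icc X (2 * X), (if m ∈ A then (1 : ℝ) else 0) ≤ #A := by
    rw [Finset.sum_boole]
    exact_mod_cast Finset.card_le_card (fun m hm => (Finset.mem_filter.1 hm).2)
  have hsB : ∑ m ∈ Icc X (2 * X), (if m ∈ B then (1 : ℝ) else 0) ≤ #B := by
    rw [Finset.sum_boole]
    exact_mod_cast Finset.card_le_card (fun m hm => (Finset.mem_filter.1 hm).2)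
  linarith

private lemma T1_pt (d v : ℝ) (hd : 0 < d) (hd1 : d ≤ 1) :
    |Real.exp v - 1| * gsn d v ≤ d * (2 * Real.exp (8 / 3)) * gsn (2 * d) v := by
  have h1 : |Real.exp v - 1| ≤ |v| * Real.exp |v| := by
    rcases le_total 0 v with h | h
    · rw [abs_of_nonneg h, abs_of_nonneg (by linarith [Real.add_one_le_exp v])]
      have h2 := Real.add_one_le_exp (-v)
      have h3 : Real.exp (-v) * Real.exp v = 1 := by rw [← Real.exp_add]; simp
      have h4 := Real.exp_pos v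
      nlinarith
    · rw [abs_of_nonpos h, abs_of_nonpos (by
        have := Real.exp_le_one_iff.2 h
        linarith)]
      have h2 := Real.add_one_le_exp v
      have h3 : 1 ≤ Real.exp (-v) := Real.one_le_exp (by linarith)
      nlinarith
  have hw : |v| ≤ |v| / d := by
    rw [le_div_iff₀ hd]
    have := abs_nonneg v
    nlinarith
  set w := |v| / d with hwd
  have hw0 : 0 ≤ w := by positivity
  have hvw : |v| = d * w := by rw [hwd]; field_simp
  have h2 : |v| * Real.exp |v| ≤ d * Real.exp (2 * w) := by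
    rw [show 2 * w = w + w by ring, Real.exp_add]
    have h3 : w ≤ Real.exp w := by linarith [Real.add_one_le_exp w]
    have h4 : Real.exp |v| ≤ Real.exp w := Real.exp_le_exp.2 hw
    calc |v| * Real.exp |v| = d * (w * Real.exp |v|) := by rw [hvw]; ring
      _ ≤ d * (Real.exp w * Real.exp w) := by
          apply mul_le_mul_of_nonneg_left _ hd.le
          exact mul_le_mul h3 h4 (Real.exp_pos _).le (Real.exp_pos _).le
  have hv2 : v ^ 2 = d ^ 2 * w ^ 2 := by
    rw [← sq_abs v, hvw]; ring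
  have hg1 : gsn d v = 1 / d * Real.exp (-(w ^ 2 / 2)) := by
    unfold gsn
    rw [hv2]
    congr 3
    field_simp
  have hg2 : gsn (2 * d) v = 1 / (2 * d) * Real.exp (-(w ^ 2 / 8)) := by
    unfold gsn
    rw [hv2]
    congr 3
    field_simp
    ring
  rw [hg1, hg2]
  have h5 : Real.exp (2 * w) * Real.exp (-(w ^ 2 / 2)) ≤ Real.exp (8 / 3) * Real.exp (-(w ^ 2 / 8)) := by
    rw [← Real.exp_add, ← Real.exp_add]
    apply Real.exp_le_exp.2
    nlinarith [sq_nonneg (w - 8 / 3)]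
  have hd' : 0 < 1 / d := by positivity
  calc |Real.exp v - 1| * (1 / d * Real.exp (-(w ^ 2 / 2)))
      ≤ (d * Real.exp (2 * w)) * (1 / d * Real.exp (-(w ^ 2 / 2))) :=
        mul_le_mul_of_nonneg_right (h1.trans h2) (by positivity)
    _ = Real.exp (2 * w) * Real.exp (-(w ^ 2 / 2)) := by field_simp
    _ ≤ Real.exp (8 / 3) * Real.exp (-(w ^ 2 / 8)) := h5
    _ = d * (2 * Real.exp (8 / 3)) * (1 / (2 * d) * Real.exp (-(w ^ 2 / 8))) := by field_simp

private theorem T1_gsn_nonneg (L v : ℝ) (hL : 0 < L) : 0 ≤ gsn L v := by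
  unfold gsn; positivity

private theorem T1_gsn_cont (L : ℝ) : Continuous (gsn L) := by
  unfold gsn; fun_prop

/-- PROOF. As `exp_gsn` (EF/S1), for a real `n > 0`. -/
theorem exp_gsnR : ∃ C : ℝ, 1 ≤ C ∧ ∀ n d : ℝ, 0 < n → 0 < d → d ≤ 1 →
    Integrable (fun x : ℝ => |Real.exp x - n| * gsn d (x - Real.log n)) ∧
    ∫ x : ℝ, |Real.exp x - n| * gsn d (x - Real.log n) ≤ C * (n * d) := by
  refine ⟨2 * Real.exp (8 / 3) * Real.sqrt (2 * π) + 1, by
    have : 0 ≤ 2 * Real.exp (8 / 3) * Real.sqrt (2 * π) := by positivity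
    linarith, ?_⟩
  intro n d hn0 hd hd1
  obtain ⟨hi, hI⟩ := gsn_integral (2 * d) (Real.log n) (by positivity)
  have hpt : ∀ x : ℝ, |Real.exp x - n| * gsn d (x - Real.log n) ≤
      (n * d * (2 * Real.exp (8 / 3))) * gsn (2 * d) (x - Real.log n) := by
    intro x
    have h1 : Real.exp x - n = n * (Real.exp (x - Real.log n) - 1) := by
      rw [Real.exp_sub, Real.exp_log hn0]
      field_simp
    rw [h1, abs_mul, abs_of_pos hn0]
    have h2 := mul_le_mul_of_nonneg_left (T1_pt d (x - Real.log n) hd hd1) hn0.le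
    calc _ = (n : ℝ) * (|Real.exp (x - Real.log n) - 1| * gsn d (x - Real.log n)) := by ring
      _ ≤ _ := h2
      _ = _ := by ring
  have h0 : ∀ x : ℝ, 0 ≤ |Real.exp x - n| * gsn d (x - Real.log n) := fun x =>
    mul_nonneg (abs_nonneg _) (T1_gsn_nonneg _ _ hd)
  have hcont : Continuous (fun x : ℝ => |Real.exp x - n| * gsn d (x - Real.log n)) := by
    have := T1_gsn_cont d
    fun_prop
  have hint : Integrable (fun x : ℝ => |Real.exp x - n| * gsn d (x - Real.log n)) := by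
    refine (hi.const_mul (n * d * (2 * Real.exp (8 / 3)))).mono' hcont.aestronglyMeasurable ?_
    refine Filter.Eventually.of_forall fun x => ?_
    rw [Real.norm_eq_abs, abs_of_nonneg (h0 x)]
    exact hpt x
  refine ⟨hint, ?_⟩
  calc ∫ x : ℝ, |Real.exp x - n| * gsn d (x - Real.log n)
      ≤ ∫ x : ℝ, (n * d * (2 * Real.exp (8 / 3))) * gsn (2 * d) (x - Real.log n) :=
        integral_mono hint (hi.const_mul _) hpt
    _ = (2 * Real.exp (8 / 3) * Real.sqrt (2 * π)) * (n * d) := by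
        rw [integral_const_mul, hI]; ring
    _ ≤ _ := by
        have : 0 ≤ (n : ℝ) * d := by positivity
        nlinarith

open Classical in
/-- PROOF. As `smooth_one` (EF/S1), for a real `n > 0`. -/
theorem smooth_oneR : ∃ C : ℝ, 1 ≤ C ∧ ∀ (H X : ℕ) (n d : ℝ), 1 ≤ H → 100 * H ≤ X → 0 < n → 0 < d → d ≤ 1 →
    ∑ m ∈ Icc X (2 * X), |(if ((m : ℕ) : ℝ) - H ≤ n ∧ n < m then (1 : ℝ) else 0) -
      1 / Real.sqrt (2 * π) * ∫ x in EF.II H m, gsn d (x - Real.log n)| ≤ C * (n * d + 1) := by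
  obtain ⟨C, hC, hexp⟩ := exp_gsnR
  refine ⟨2 * C + 4, by linarith, ?_⟩
  intro H X n d hH hX hn hd hd1
  have hn0 : (0 : ℝ) < n := hn
  obtain ⟨hi, hI⟩ := gsn_integral d (Real.log n) hd
  obtain ⟨hei, heI⟩ := hexp n d hn hd hd1
  set s := Real.sqrt (2 * π) with hs
  have hs1 : 1 ≤ s := by
    rw [hs, Real.one_le_sqrt]
    have := Real.pi_gt_three
    linarith
  have hs0 : 0 < s := by linarith
  set J : ℕ → ℝ := fun m => if ((m : ℕ) : ℝ) - H ≤ n ∧ n < m then (1 : ℝ) else 0 with hJ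
  have hJb : ∀ m, |J m| ≤ 1 := by
    intro m
    simp only [hJ]
    split_ifs <;> simp
  have hmeas : ∀ m, MeasurableSet (EF.II H m) := fun m => measurableSet_Icc
  have hindi : ∀ m, Integrable (fun x : ℝ => (Set.indicator (EF.II H m) (fun _ => (1 : ℝ)) x) * gsn d (x - Real.log n)) := by
    intro m
    have h1 : (fun x : ℝ => (Set.indicator (EF.II H m) (fun _ => (1 : ℝ)) x) * gsn d (x - Real.log n)) =
        Set.indicator (EF.II H m) (fun x => gsn d (x - Real.log n)) := by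
      funext x
      by_cases hx : x ∈ EF.II H m
      · rw [Set.indicator_of_mem hx, Set.indicator_of_mem hx, one_mul]
      · rw [Set.indicator_of_notMem hx, Set.indicator_of_notMem hx, zero_mul]
    rw [h1]
    exact hi.indicator (hmeas m)
  have hdiff : ∀ m, Integrable (fun x : ℝ => (J m - Set.indicator (EF.II H m) (fun _ => (1 : ℝ)) x) * gsn d (x - Real.log n)) := by
    intro m
    have h1 := (hi.const_mul (J m)).sub (hindi m)
    refine h1.congr (Filter.Eventually.of_forall fun x => ?_)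
    simp only [Pi.sub_apply]
    ring
  have habs : ∀ m, Integrable (fun x : ℝ => |J m - Set.indicator (EF.II H m) (fun _ => (1 : ℝ)) x| * gsn d (x - Real.log n)) := by
    intro m
    refine (hdiff m).abs.congr (Filter.Eventually.of_forall fun x => ?_)
    simp only
    rw [abs_mul, abs_of_nonneg (T1_gsn_nonneg d _ hd)]
  have hterm : ∀ m, |J m - 1 / s * ∫ x in EF.II H m, gsn d (x - Real.log n)| ≤
      1 / s * ∫ x : ℝ, |J m - Set.indicator (EF.II H m) (fun _ => (1 : ℝ)) x| * gsn d (x - Real.log n) := by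
    intro m
    have h1 : ∫ x in EF.II H m, gsn d (x - Real.log n) =
        ∫ x : ℝ, (Set.indicator (EF.II H m) (fun _ => (1 : ℝ)) x) * gsn d (x - Real.log n) := by
      rw [← integral_indicator (hmeas m)]
      congr 1
      funext x
      by_cases hx : x ∈ EF.II H m
      · rw [Set.indicator_of_mem hx, Set.indicator_of_mem hx, one_mul]
      · rw [Set.indicator_of_notMem hx, Set.indicator_of_notMem hx, zero_mul]
    have h2 : J m - 1 / s * ∫ x in EF.II H m, gsn d (x - Real.log n) =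
        1 / s * ∫ x : ℝ, (J m - Set.indicator (EF.II H m) (fun _ => (1 : ℝ)) x) * gsn d (x - Real.log n) := by
      have h3 : ∫ x : ℝ, (J m - Set.indicator (EF.II H m) (fun _ => (1 : ℝ)) x) * gsn d (x - Real.log n) =
          J m * s - ∫ x in EF.II H m, gsn d (x - Real.log n) := by
        rw [h1, ← hI, ← integral_const_mul, ← integral_sub (hi.const_mul _) (hindi m)]
        congr 1
        funext x
        ring
      rw [h3]
      field_simp
    rw [h2, abs_mul, abs_of_pos (by positivity : 0 < 1 / s)]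
    apply mul_le_mul_of_nonneg_left _ (by positivity)
    refine (abs_integral_le_integral_abs).trans (le_of_eq ?_)
    congr 1
    funext x
    rw [abs_mul, abs_of_nonneg (T1_gsn_nonneg d _ hd)]
  refine (Finset.sum_le_sum fun m _ => hterm m).trans ?_
  rw [← Finset.mul_sum, ← integral_finsetSum _ (fun m _ => habs m)]
  have hle : ∫ x : ℝ, ∑ m ∈ Icc X (2 * X), |J m - Set.indicator (EF.II H m) (fun _ => (1 : ℝ)) x| * gsn d (x - Real.log n)
      ≤ ∫ x : ℝ, (2 * (|Real.exp x - n| * gsn d (x - Real.log n)) + 4 * gsn d (x - Real.log n)) := by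
    refine integral_mono (integrable_finsetSum _ fun m _ => habs m) ((hei.const_mul 2).add (hi.const_mul 4)) ?_
    intro x
    simp only
    rw [← Finset.sum_mul]
    have h1 := mul_le_mul_of_nonneg_right (II_diffR H X n hn.le hH hX x) (T1_gsn_nonneg d (x - Real.log n) hd)
    refine h1.trans (le_of_eq ?_)
    ring
  have hval : ∫ x : ℝ, (2 * (|Real.exp x - n| * gsn d (x - Real.log n)) + 4 * gsn d (x - Real.log n))
      ≤ 2 * (C * (n * d)) + 4 * s := by
    rw [integral_add (hei.const_mul 2) (hi.const_mul 4), integral_const_mul, integral_const_mul, hI]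
    linarith
  have h5 : 1 / s * (2 * (C * (n * d)) + 4 * s) ≤ 2 * (C * (n * d)) + 4 := by
    have h6 : 1 / s * (4 * s) = 4 := by field_simp
    have h7 : 1 / s ≤ 1 := by rw [div_le_one hs0]; exact hs1
    have h8 : 0 ≤ 2 * (C * ((n : ℝ) * d)) := by positivity
    nlinarith
  have h9 : 0 ≤ (n : ℝ) * d := by positivity
  calc _ ≤ 1 / s * (2 * (C * (n * d)) + 4 * s) :=
        mul_le_mul_of_nonneg_left (hle.trans hval) (by positivity)
    _ ≤ 2 * (C * (n * d)) + 4 := h5
    _ ≤ (2 * C + 4) * (n * d + 1) := by nlinarith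

end Pool.Agent.Lib.MP_bae66e_nt.MF
end
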