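import Pool.Agent.Lib.MP_bae66e_nt.Mg.G107
import Pool.Agent.Lib.MP_bae66e_nt.MF.T2
import Pool.Agent.Lib.MP_bae66e_nt.Mg.G101
import Pool.Agent.Lib.MP_bae66e_nt.Mg.G109

section

/-!
# Row R2: short ranges of `s`
-/

set_option autoImplicit false

namespace Pool.Agent.Lib.MP_bae66e_nt.MF

open Finset MeasureTheory Real
open Pool.Agent.E3
open Pool.Agent.Lib.MP_bae66e_nt.EF (PX Wt HR gA COREG)
open Pool.Agent.Lib.MP_bae66e_nt.LL (fP gW)
open Pool.Agent.Lib.MP_bae66e_nt.AC (Sg VV)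
open Pool.Agent.Lib.MP_bae66e_nt.AP3 (prI mem_prI)

/-- the weights on the short range number `i` -/
private noncomputable def R2_al (α : ℕ → ℝ) (R J i s : ℕ) : ℝ :=
  if R * (J + i) < s * J ∧ s * J ≤ R * (J + i + 1) then α s else 0

private theorem R2_al_Wt {α : ℕ → ℝ} (hα : Wt α) (R J i : ℕ) : Wt (R2_al α R J i) := by
  intro s
  unfold R2_al
  split_ifs
  · exact hα s
  · exact ⟨le_rfl, zero_le_one⟩

private theorem R2_mem {R s : ℕ} (h : s ∈ IS R) : R < s ∧ s ≤ 2 * R := by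
  unfold IS at h
  rw [mem_prI] at h
  exact ⟨h.1.1, h.1.2⟩

private theorem R2_al_sum (α : ℕ → ℝ) {R J s : ℕ} (hJ : 1 ≤ J) (hs : s ∈ IS R) :
    ∑ i ∈ range J, R2_al α R J i s = α s := by
  obtain ⟨h1, h2⟩ := R2_mem hs
  have hR : 0 < R := by omega
  set k := (s * J - 1) / R with hk
  have hsJ : R * J + 1 ≤ s * J := by nlinarith
  have hsJ2 : s * J ≤ 2 * R * J := Nat.mul_le_mul_right J h2
  have hk1 : R * k ≤ s * J - 1 := Nat.mul_div_le _ _
  have hk2 : s * J - 1 < R * (k + 1) := Nat.lt_mul_div_succ (s * J - 1) hR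
  have hJk : J ≤ k := (Nat.le_div_iff_mul_le hR).2 (by rw [mul_comm]; omega)
  have hkJ : k < 2 * J := (Nat.div_lt_iff_lt_mul hR).2 (by
    have h3 : 2 * J * R = 2 * R * J := by ring
    omega)
  rw [Finset.sum_eq_single_of_mem (k - J) (mem_range.2 (by omega))]
  · have h3 : J + (k - J) = k := by omega
    unfold R2_al
    rw [h3, if_pos ⟨by omega, by omega⟩]
  · intro i _ hi
    unfold R2_al
    rw [if_neg]
    rintro ⟨h3, h4⟩
    apply hi
    have h5 : k = J + i := by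
      rw [hk]
      refine Nat.div_eq_of_lt_le ?_ ?_
      · have e : (J + i) * R = R * (J + i) := mul_comm _ _
        rw [e]
        omega
      · have e : (J + i + 1) * R = R * (J + i + 1) := mul_comm _ _
        rw [e]
        omega
    omega

/-- the lower height of the range number `i` -/
private def R2_h1 (R J i : ℕ) : ℕ := 2 * R * J / (J + i + 1)

/-- the upper height of the range number `i` -/
private def R2_h2 (R J i : ℕ) : ℕ := 2 * R * J / (J + i) + 1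

private theorem R2_h1_nat {R J i s : ℕ} (hJ : 1 ≤ J) (hs : s * J ≤ R * (J + i + 1)) :
    R2_h1 R J i * s ≤ HR R := by
  unfold R2_h1 HR
  have h1 : 2 * R * J / (J + i + 1) * (J + i + 1) ≤ 2 * R * J := Nat.div_mul_le_self _ _
  refine Nat.le_of_mul_le_mul_right (c := J) ?_ (by omega)
  calc 2 * R * J / (J + i + 1) * s * J = 2 * R * J / (J + i + 1) * (s * J) := by ring
    _ ≤ 2 * R * J / (J + i + 1) * (R * (J + i + 1)) := Nat.mul_le_mul_left _ hs
    _ = (2 * R * J / (J + i + 1) * (J + i + 1)) * R := by ring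
    _ ≤ (2 * R * J) * R := Nat.mul_le_mul_right _ h1
    _ = 2 * R ^ 2 * J := by ring

private theorem R2_h2_nat {R J i s : ℕ} (hJ : 1 ≤ J) (hs : R * (J + i) < s * J) :
    HR R ≤ R2_h2 R J i * s := by
  unfold R2_h2 HR
  have h1 : 2 * R * J < (J + i) * (2 * R * J / (J + i) + 1) :=
    Nat.lt_mul_div_succ _ (by omega)
  refine Nat.le_of_mul_le_mul_right (c := J) ?_ (by omega)
  calc 2 * R ^ 2 * J = (2 * R * J) * R := by ring
    _ ≤ ((J + i) * (2 * R * J / (J + i) + 1)) * R := Nat.mul_le_mul_right _ h1.le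
    _ = (2 * R * J / (J + i) + 1) * (R * (J + i)) := by ring
    _ ≤ (2 * R * J / (J + i) + 1) * (s * J) := Nat.mul_le_mul_left _ hs.le
    _ = (2 * R * J / (J + i) + 1) * s * J := by ring

private theorem R2_h1_real {R J i s : ℕ} (hJ : 1 ≤ J) (h2R : s ≤ 2 * R)
    (hs : R * (J + i) < s * J) :
    (HR R : ℝ) - HR R / J - 2 * R ≤ (R2_h1 R J i : ℝ) * s := by
  have hJ0 : (0 : ℝ) < J := by exact_mod_cast hJ
  have hn0 : (0 : ℝ) < J + i + 1 := by positivity
  have hR0 : (0 : ℝ) ≤ R := Nat.cast_nonneg R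
  have hs0 : (0 : ℝ) ≤ s := Nat.cast_nonneg s
  have h1 : (2 * R * J : ℝ) / (J + i + 1) - 1 ≤ R2_h1 R J i := by
    have h3 : 2 * R * J < (J + i + 1) * (R2_h1 R J i + 1) := Nat.lt_mul_div_succ _ (by omega)
    have h4 : (2 * R * J : ℝ) < (J + i + 1) * (R2_h1 R J i + 1) := by exact_mod_cast h3
    have h5 : (2 * R * J : ℝ) / (J + i + 1) ≤ R2_h1 R J i + 1 := by
      rw [div_le_iff₀ hn0]
      linarith
    linarith
  have h2 : (R * (J + i) : ℝ) / J ≤ s := by
    rw [div_le_iff₀ hJ0]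
    exact_mod_cast hs.le
  have h3 : (s : ℝ) ≤ 2 * R := by exact_mod_cast h2R
  have hH : (HR R : ℝ) = 2 * R ^ 2 := by
    unfold HR
    push_cast
    ring
  have h4 : (2 * R * J : ℝ) / (J + i + 1) * ((R * (J + i) : ℝ) / J)
      = 2 * R ^ 2 - 2 * R ^ 2 / (J + i + 1) := by
    field_simp
    ring
  have h5 : (2 * R ^ 2 : ℝ) / (J + i + 1) ≤ 2 * R ^ 2 / J := by
    refine div_le_div_of_nonneg_left (by positivity) hJ0 ?_
    have : (0 : ℝ) ≤ i := Nat.cast_nonneg i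
    linarith
  have h6 : (2 * R * J : ℝ) / (J + i + 1) * ((R * (J + i) : ℝ) / J)
      ≤ (2 * R * J : ℝ) / (J + i + 1) * s :=
    mul_le_mul_of_nonneg_left h2 (by positivity)
  have h7 : ((2 * R * J : ℝ) / (J + i + 1) - 1) * s ≤ (R2_h1 R J i : ℝ) * s :=
    mul_le_mul_of_nonneg_right h1 hs0
  rw [hH]
  nlinarith

private theorem R2_h2_real {R J i s : ℕ} (hJ : 1 ≤ J) (h2R : s ≤ 2 * R)
    (hs : s * J ≤ R * (J + i + 1)) :
    (R2_h2 R J i : ℝ) * s ≤ HR R + HR R / J + 2 * R := by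
  have hJ0 : (0 : ℝ) < J := by exact_mod_cast hJ
  have hi0 : (0 : ℝ) ≤ i := Nat.cast_nonneg i
  have hn0 : (0 : ℝ) < J + i := by positivity
  have hR0 : (0 : ℝ) ≤ R := Nat.cast_nonneg R
  have hs0 : (0 : ℝ) ≤ s := Nat.cast_nonneg s
  have h1 : (R2_h2 R J i : ℝ) ≤ (2 * R * J : ℝ) / (J + i) + 1 := by
    unfold R2_h2
    push_cast
    have h3 : ((2 * R * J / (J + i) : ℕ) : ℝ) ≤ ((2 * R * J : ℕ) : ℝ) / ((J + i : ℕ) : ℝ) :=
      Nat.cast_div_le
    push_cast at h3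
    linarith
  have h2 : (s : ℝ) ≤ (R * (J + i + 1) : ℝ) / J := by
    rw [le_div_iff₀ hJ0]
    exact_mod_cast hs
  have h3 : (s : ℝ) ≤ 2 * R := by exact_mod_cast h2R
  have hH : (HR R : ℝ) = 2 * R ^ 2 := by
    unfold HR
    push_cast
    ring
  have h4 : (2 * R * J : ℝ) / (J + i) * ((R * (J + i + 1) : ℝ) / J)
      = 2 * R ^ 2 + 2 * R ^ 2 / (J + i) := by
    field_simp
  have h5 : (2 * R ^ 2 : ℝ) / (J + i) ≤ 2 * R ^ 2 / J := by
    refine div_le_div_of_nonneg_left (by positivity) hJ0 ?_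
    linarith
  have h6 : (2 * R * J : ℝ) / (J + i) * s
      ≤ (2 * R * J : ℝ) / (J + i) * ((R * (J + i + 1) : ℝ) / J) :=
    mul_le_mul_of_nonneg_left h2 (by positivity)
  have h7 : (R2_h2 R J i : ℝ) * s ≤ ((2 * R * J : ℝ) / (J + i) + 1) * s :=
    mul_le_mul_of_nonneg_right h1 hs0
  rw [hH]
  nlinarith

private theorem R2_h1_range {R J i : ℕ} (hi : i < J) :
    R ≤ 2 * R2_h1 R J i ∧ R2_h1 R J i ≤ 8 * R := by
  unfold R2_h1
  constructor
  · have h1 : R ≤ 2 * R * J / (J + i + 1) := by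
      rw [Nat.le_div_iff_mul_le (by omega)]
      nlinarith
    omega
  · refine (Nat.div_le_of_le_mul ?_)
    nlinarith

private theorem R2_h2_range {R J i : ℕ} (hR : 1 ≤ R) (hi : i < J) :
    R ≤ 2 * R2_h2 R J i ∧ R2_h2 R J i ≤ 8 * R := by
  unfold R2_h2
  constructor
  · have h1 : R ≤ 2 * R * J / (J + i) := by
      rw [Nat.le_div_iff_mul_le (by omega)]
      nlinarith
    omega
  · have h2 : 2 * R * J / (J + i) ≤ 2 * R := by
      refine (Nat.div_le_of_le_mul ?_)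
      nlinarith
    omega

private theorem R2_lo {α : ℕ → ℝ} (hα : Wt α) {W v R J i m : ℕ} (hJ : 1 ≤ J) :
    NN (R2_al α R J i) W v R (R2_h1 R J i) m ≤ NK (R2_al α R J i) W v R m := by
  unfold NN NK
  refine Finset.sum_le_sum fun s _ => ?_
  by_cases hc : R * (J + i) < s * J ∧ s * J ≤ R * (J + i + 1)
  · refine mul_le_mul_of_nonneg_left ?_ (R2_al_Wt hα R J i s).1
    refine Nat.cast_le.2 (Finset.card_le_card (Finset.filter_subset_filter _ ?_))
    refine Finset.Ico_subset_Ico ?_ (by rw [mul_comm])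
    have h1 := R2_h1_nat hJ hc.2
    rw [Nat.sub_mul, mul_comm s m]
    omega
  · have h0 : R2_al α R J i s = 0 := if_neg hc
    rw [h0]
    simp

private theorem R2_up {α : ℕ → ℝ} (hα : Wt α) {W v R J i m : ℕ} (hJ : 1 ≤ J) :
    NK (R2_al α R J i) W v R m ≤ NN (R2_al α R J i) W v R (R2_h2 R J i) m := by
  unfold NN NK
  refine Finset.sum_le_sum fun s _ => ?_
  by_cases hc : R * (J + i) < s * J ∧ s * J ≤ R * (J + i + 1)
  · refine mul_le_mul_of_nonneg_left ?_ (R2_al_Wt hα R J i s).1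
    refine Nat.cast_le.2 (Finset.card_le_card (Finset.filter_subset_filter _ ?_))
    refine Finset.Ico_subset_Ico ?_ (by rw [mul_comm])
    have h1 := R2_h2_nat hJ hc.1
    rw [Nat.sub_mul, mul_comm s m]
    omega
  · have h0 : R2_al α R J i s = 0 := if_neg hc
    rw [h0]
    simp

private theorem R2_S1 {α : ℕ → ℝ} (hα : Wt α) {R J i : ℕ} (hJ : 1 ≤ J) :
    ((HR R : ℝ) - HR R / J - 2 * R) * ∑ s ∈ IS R, R2_al α R J i s ≤
      (R2_h1 R J i : ℝ) * ∑ s ∈ IS R, R2_al α R J i s * s := by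
  rw [Finset.mul_sum, Finset.mul_sum]
  refine Finset.sum_le_sum fun s hs => ?_
  by_cases hc : R * (J + i) < s * J ∧ s * J ≤ R * (J + i + 1)
  · have h1 := R2_h1_real hJ (R2_mem hs).2 hc.1
    have h2 := (R2_al_Wt hα R J i s).1
    calc ((HR R : ℝ) - HR R / J - 2 * R) * R2_al α R J i s
        ≤ ((R2_h1 R J i : ℝ) * s) * R2_al α R J i s := mul_le_mul_of_nonneg_right h1 h2
      _ = (R2_h1 R J i : ℝ) * (R2_al α R J i s * s) := by ring
  · have h0 : R2_al α R J i s = 0 := if_neg hc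
    rw [h0]
    simp

private theorem R2_S2 {α : ℕ → ℝ} (hα : Wt α) {R J i : ℕ} (hJ : 1 ≤ J) :
    (R2_h2 R J i : ℝ) * ∑ s ∈ IS R, R2_al α R J i s * s ≤
      ((HR R : ℝ) + HR R / J + 2 * R) * ∑ s ∈ IS R, R2_al α R J i s := by
  rw [Finset.mul_sum, Finset.mul_sum]
  refine Finset.sum_le_sum fun s hs => ?_
  by_cases hc : R * (J + i) < s * J ∧ s * J ≤ R * (J + i + 1)
  · have h1 := R2_h2_real hJ (R2_mem hs).2 hc.2
    have h2 := (R2_al_Wt hα R J i s).1
    calc (R2_h2 R J i : ℝ) * (R2_al α R J i s * s)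
        = ((R2_h2 R J i : ℝ) * s) * R2_al α R J i s := by ring
      _ ≤ ((HR R : ℝ) + HR R / J + 2 * R) * R2_al α R J i s := mul_le_mul_of_nonneg_right h1 h2
  · have h0 : R2_al α R J i s = 0 := if_neg hc
    rw [h0]
    simp

private theorem R2_key {α : ℕ → ℝ} (hα : Wt α) {W v R J m : ℕ} {P E : ℝ} (hJ : 1 ≤ J) (hP : 0 < P)
    (h1 : ∀ i ∈ range J, |NN (R2_al α R J i) W v R (R2_h1 R J i) m -
      (R2_h1 R J i : ℝ) / P * ∑ s ∈ IS R, R2_al α R J i s * s| ≤ E)
    (h2 : ∀ i ∈ range J, |NN (R2_al α R J i) W v R (R2_h2 R J i) m -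
      (R2_h2 R J i : ℝ) / P * ∑ s ∈ IS R, R2_al α R J i s * s| ≤ E) :
    |NK α W v R m - HR R / P * ∑ s ∈ IS R, α s| ≤
      (HR R / J + 2 * R) / P * ∑ s ∈ IS R, α s + J * E := by
  have hN : NK α W v R m = ∑ i ∈ range J, NK (R2_al α R J i) W v R m := by
    unfold NK
    rw [Finset.sum_comm]
    refine Finset.sum_congr rfl fun s hs => ?_
    rw [← Finset.sum_mul, R2_al_sum α hJ hs]
  have hA : ∑ s ∈ IS R, α s = ∑ i ∈ range J, ∑ s ∈ IS R, R2_al α R J i s := by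
    rw [Finset.sum_comm]
    exact Finset.sum_congr rfl fun s hs => (R2_al_sum α hJ hs).symm
  have hJE : (J : ℝ) * E = ∑ i ∈ range J, E := by
    rw [Finset.sum_const, card_range, nsmul_eq_mul]
  rw [hN, hA, hJE, Finset.mul_sum, Finset.mul_sum, ← Finset.sum_sub_distrib,
    ← Finset.sum_add_distrib]
  refine (Finset.abs_sum_le_sum_abs _ _).trans (Finset.sum_le_sum fun i hi => ?_)
  have e1 := abs_le.1 (h1 i hi)
  have e2 := abs_le.1 (h2 i hi)
  have e3 := R2_lo (W := W) (v := v) (m := m) (R := R) (i := i) hα hJ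
  have e4 := R2_up (W := W) (v := v) (m := m) (R := R) (i := i) hα hJ
  have e5 := div_le_div_of_nonneg_right (R2_S1 (R := R) (i := i) hα hJ) hP.le
  have e6 := div_le_div_of_nonneg_right (R2_S2 (R := R) (i := i) hα hJ) hP.le
  set A := ∑ s ∈ IS R, R2_al α R J i s with hAdef
  set S := ∑ s ∈ IS R, R2_al α R J i s * s with hSdef
  have f1 : (R2_h1 R J i : ℝ) / P * S = (R2_h1 R J i : ℝ) * S / P := by ring
  have f2 : (R2_h2 R J i : ℝ) / P * S = (R2_h2 R J i : ℝ) * S / P := by ring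
  have f3 : ((HR R : ℝ) - HR R / J - 2 * R) * A / P
      = HR R / P * A - (HR R / J + 2 * R) / P * A := by ring
  have f4 : ((HR R : ℝ) + HR R / J + 2 * R) * A / P
      = HR R / P * A + (HR R / J + 2 * R) / P * A := by ring
  rw [f1] at e1
  rw [f2] at e2
  rw [f3] at e5
  rw [f4] at e6
  rw [abs_le]
  constructor
  · linarith [e1.1]
  · linarith [e2.2]

/-- PROOF. The ranges `R (J + i) < s J ≤ R (J + i + 1)`, `i < J`, with the heights `h = ⌊2RJ/(J + i + 1)⌋` and `⌊2RJ/(J + i)⌋ + 1`: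
`s h ≤ H ≤ s h'` and `|h s - H|, |h' s - H| ≤ H/J + 2R`. -/
theorem wink_of (a : ℝ) (ha : 3 ≤ a) (h : WINN a) : WINK a := by
  intro ε hε
  obtain ⟨C, hC, hIS⟩ := IS_bounds
  obtain ⟨J, hJ⟩ := exists_nat_gt (4 * C / ε + 1)
  have hCε : 0 < 4 * C / ε := by positivity
  have hJ1R : (1 : ℝ) < J := by linarith
  have hJ1 : 1 ≤ J := by
    have : 1 < J := by exact_mod_cast hJ1R
    omega
  have hJ0 : (0 : ℝ) < J := by linarith
  obtain ⟨κ, hκ, hκ1, hw⟩ := h (ε / (2 * J)) (by positivity)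
  refine ⟨κ, hκ, hκ1, fun W hW δ hδ => ?_⟩
  obtain ⟨M₁, hM₁⟩ := hw W hW (δ / (2 * J)) (by positivity)
  obtain ⟨M₂, hM₂⟩ := parK a (4 * C / ε) 1 ha one_pos
  refine ⟨max M₁ M₂, fun M hM R hPX α hα v hv => ?_⟩
  obtain ⟨-, -, -, hlogM, -, hKR, hR3, -, hlogR, -, -, -, -, -, -, -, hGK⟩ :=
    hM₂ M ((le_max_right _ _).trans hM) R hPX
  have hMM : M₁ ≤ M := (le_max_left _ _).trans hM
  have hW0 : (0 : ℝ) < Nat.totient W := by exact_mod_cast Nat.totient_pos.2 hW
  have hP : (0 : ℝ) < Nat.totient W * Real.log M := by positivity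
  have hR0 : (0 : ℝ) < R := by exact_mod_cast (by omega : 0 < R)
  have hlogR0 : 0 < Real.log R := by linarith
  have hlogM0 : 0 < Real.log M := by linarith
  -- the bad sets
  set B : ℕ → ℕ → Finset ℕ := fun i hh => {m ∈ Icc M (2 * M) | ((m : ℕ) : ℝ) ≤ (1 + κ) * M ∧
    ε / (2 * J) * GK R M / Nat.totient W < |NN (R2_al α R J i) W v R hh m -
      hh / (Nat.totient W * Real.log M) * ∑ s ∈ IS R, R2_al α R J i s * s|} with hBdef
  have hB : ∀ i hh : ℕ, R ≤ 2 * hh → hh ≤ 8 * R → ((B i hh).card : ℝ) ≤ δ / (2 * J) * M :=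
    fun i hh e1 e2 => hM₁ M hMM R hPX _ (R2_al_Wt hα R J i) v hv hh e1 e2
  have hsub : {m ∈ Icc M (2 * M) | ((m : ℕ) : ℝ) ≤ (1 + κ) * M ∧ ε * GK R M / Nat.totient W <
      |NK α W v R m - HR R / (Nat.totient W * Real.log M) * ∑ s ∈ IS R, α s|} ⊆
      (range J).biUnion (fun i => B i (R2_h1 R J i) ∪ B i (R2_h2 R J i)) := by
    intro m hm
    rw [Finset.mem_filter] at hm
    obtain ⟨hm1, hm2, hm3⟩ := hm
    by_contra hcon
    rw [Finset.mem_biUnion] at hcon
    push Not at hcon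
    have hkey := R2_key (W := W) (v := v) (R := R) (J := J) (m := m)
      (P := Nat.totient W * Real.log M) (E := ε / (2 * J) * GK R M / Nat.totient W) hα hJ1 hP
      (fun i hi => by
        by_contra hc
        push Not at hc
        exact hcon i hi (Finset.mem_union_left _ (Finset.mem_filter.2 ⟨hm1, hm2, hc⟩)))
      (fun i hi => by
        by_contra hc
        push Not at hc
        exact hcon i hi (Finset.mem_union_right _ (Finset.mem_filter.2 ⟨hm1, hm2, hc⟩)))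
    have hAle : ∑ s ∈ IS R, α s ≤ C * R / Real.log R := by
      calc ∑ s ∈ IS R, α s ≤ ∑ s ∈ IS R, (1 : ℝ) := Finset.sum_le_sum fun s _ => (hα s).2
        _ = #(IS R) := by simp
        _ ≤ C * R / Real.log R := (hIS R (by omega)).1
    have hA0 : 0 ≤ ∑ s ∈ IS R, α s := Finset.sum_nonneg fun s _ => (hα s).1
    have hH : (HR R : ℝ) = 2 * R ^ 2 := by
      unfold EF.HR
      push_cast
      ring
    have hcoef : ((HR R : ℝ) / J + 2 * R) ≤ ε / 2 / C * HR R := by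
      have g1 : (HR R : ℝ) / J ≤ ε / 4 / C * HR R := by
        rw [div_eq_inv_mul]
        refine mul_le_mul_of_nonneg_right ?_ (by positivity)
        rw [inv_le_comm₀ hJ0 (by positivity)]
        have : (ε / 4 / C)⁻¹ = 4 * C / ε := by field_simp
        linarith
      have g2 : (2 : ℝ) * R ≤ ε / 4 / C * HR R := by
        rw [hH]
        have g3 : 1 ≤ ε / 4 / C * R := by
          have g4 : ε / 4 / C * (4 * C / ε) ≤ ε / 4 / C * R :=
            mul_le_mul_of_nonneg_left hKR (by positivity)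
          have g5 : ε / 4 / C * (4 * C / ε) = 1 := by field_simp
          linarith
        nlinarith
      have g6 : ε / 2 / C * (HR R : ℝ) = ε / 4 / C * HR R + ε / 4 / C * HR R := by ring
      linarith
    have hfin : ((HR R : ℝ) / J + 2 * R) / (Nat.totient W * Real.log M) * ∑ s ∈ IS R, α s ≤
        ε / 2 * GK R M / Nat.totient W := by
      have hcoef0 : 0 ≤ ((HR R : ℝ) / J + 2 * R) := by positivity
      calc ((HR R : ℝ) / J + 2 * R) / (Nat.totient W * Real.log M) * ∑ s ∈ IS R, α s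
          ≤ (ε / 2 / C * HR R) / (Nat.totient W * Real.log M) * (C * R / Real.log R) := by
            refine mul_le_mul ?_ hAle hA0 (by positivity)
            exact div_le_div_of_nonneg_right hcoef hP.le
        _ = ε / 2 * GK R M / Nat.totient W := by
            unfold GK
            field_simp
    have hJE : (J : ℝ) * (ε / (2 * J) * GK R M / Nat.totient W) = ε / 2 * GK R M / Nat.totient W := by
      field_simp
    have hsum : ε / 2 * GK R M / Nat.totient W + ε / 2 * GK R M / Nat.totient W =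
        ε * GK R M / Nat.totient W := by ring
    rw [hJE] at hkey
    linarith
  calc ((#{m ∈ Icc M (2 * M) | ((m : ℕ) : ℝ) ≤ (1 + κ) * M ∧ ε * GK R M / Nat.totient W <
      |NK α W v R m - HR R / (Nat.totient W * Real.log M) * ∑ s ∈ IS R, α s|} : ℕ) : ℝ)
      ≤ (((range J).biUnion (fun i => B i (R2_h1 R J i) ∪ B i (R2_h2 R J i))).card : ℝ) := by
        exact_mod_cast Finset.card_le_card hsub
    _ ≤ ((∑ i ∈ range J, (B i (R2_h1 R J i) ∪ B i (R2_h2 R J i)).card : ℕ) : ℝ) := by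
        exact_mod_cast Finset.card_biUnion_le
    _ = ∑ i ∈ range J, ((B i (R2_h1 R J i) ∪ B i (R2_h2 R J i)).card : ℝ) := by push_cast; rfl
    _ ≤ ∑ i ∈ range J, (δ / J * M) := by
        refine Finset.sum_le_sum fun i hi => ?_
        have hi' := mem_range.1 hi
        have u1 := hB i (R2_h1 R J i) (R2_h1_range hi').1 (R2_h1_range hi').2
        have u2 := hB i (R2_h2 R J i) (R2_h2_range (by omega) hi').1 (R2_h2_range (by omega) hi').2
        have u3 : ((B i (R2_h1 R J i) ∪ B i (R2_h2 R J i)).card : ℝ) ≤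
            (B i (R2_h1 R J i)).card + (B i (R2_h2 R J i)).card := by
          exact_mod_cast Finset.card_union_le _ _
        have u4 : δ / (2 * J) * M + δ / (2 * J) * M = δ / J * M := by
          field_simp
          ring
        linarith
    _ = δ * M := by
        rw [Finset.sum_const, card_range, nsmul_eq_mul]
        field_simp

end Pool.Agent.Lib.MP_bae66e_nt.MF
end

section

/-!
# Row W3: almost all short intervals `[m - h, m)` of quotients (port of EF/W3)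
-/

set_option autoImplicit false

namespace Pool.Agent.Lib.MP_bae66e_nt.MF

open Finset MeasureTheory Real
open Pool.Agent.E3
open Pool.Agent.Lib.MP_bae66e_nt.EF (PX Wt HR gA COREG)
open Pool.Agent.Lib.MP_bae66e_nt.LL (fP gW)
open Pool.Agent.Lib.MP_bae66e_nt.AC (Sg VV)
open Pool.Agent.Lib.MP_bae66e_nt.AP3 (prI mem_prI)

/-- the weights `α(s) s²/(4R²)` -/
private noncomputable def W3_al (α : ℕ → ℝ) (R s : ℕ) : ℝ :=
  if s ≤ 2 * R then α s * (s : ℝ) ^ 2 / (4 * (R : ℝ) ^ 2) else 0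

private lemma W3_alWt (α : ℕ → ℝ) (R : ℕ) (hR : 1 ≤ R) (hα : Wt α) : Wt (W3_al α R) := by
  intro s
  have hR0 : (0 : ℝ) < R := by exact_mod_cast hR
  unfold W3_al
  split_ifs with h
  · have h1 : (s : ℝ) ≤ 2 * R := by exact_mod_cast h
    have h2 : (0 : ℝ) ≤ s := Nat.cast_nonneg s
    have h3 : (s : ℝ) ^ 2 ≤ 4 * (R : ℝ) ^ 2 := by nlinarith
    refine ⟨div_nonneg (mul_nonneg (hα s).1 (sq_nonneg _)) (by positivity), ?_⟩
    rw [div_le_one (by positivity)]
    calc α s * (s : ℝ) ^ 2 ≤ 1 * (s : ℝ) ^ 2 := mul_le_mul_of_nonneg_right (hα s).2 (sq_nonneg _)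
      _ = (s : ℝ) ^ 2 := one_mul _
      _ ≤ _ := h3
  · exact ⟨le_rfl, zero_le_one⟩

private lemma W3_al_mem (α : ℕ → ℝ) (R s : ℕ) (hs : s ∈ IS R) :
    W3_al α R s = α s * (s : ℝ) ^ 2 / (4 * (R : ℝ) ^ 2) := by
  unfold W3_al
  rw [if_pos (mem_prI.mp hs).1.2]

private lemma W3_gA {W : ℕ} (χ : DirichletCharacter ℂ W) (α : ℕ → ℝ) (hα : Wt α) (n : ℕ) : ‖gA χ α n‖ ≤ 1 := by
  unfold gA
  rw [norm_mul, Complex.norm_real, Real.norm_of_nonneg (hα n).1]
  exact mul_le_one₀ (hα n).2 (norm_nonneg _) (ch_norm_le χ n)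

/-- the pairs -/
private def W3_P (W v R X : ℕ) : Finset (ℕ × ℕ) := (IS R ×ˢ QS X).filter (fun p => p.2 ≡ p.1 * v [MOD W])

private lemma W3_mem {W v R X : ℕ} {p : ℕ × ℕ} (hp : p ∈ W3_P W v R X) : (0 : ℝ) < p.1 ∧ (0 : ℝ) < p.2 := by
  unfold W3_P at hp
  rw [Finset.mem_filter, Finset.mem_product] at hp
  obtain ⟨⟨h1, h2⟩, -⟩ := hp
  have h3 : 0 < p.1 := (mem_prI.mp h1).2.pos
  have h4 : 0 < p.2 := (mem_prI.mp h2).2.pos
  exact ⟨by exact_mod_cast h3, by exact_mod_cast h4⟩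

private lemma W3_sum (α : ℕ → ℝ) (W v R X : ℕ) (hR : 1 ≤ R) (d x : ℝ) :
    ∑ p ∈ W3_P W v R X, α p.1 * om X p.2 / ((p.2 : ℝ) / p.1) * gsn d (x - Real.log ((p.2 : ℝ) / p.1)) =
      4 * (R : ℝ) ^ 2 * XVK (W3_al α R) W v R X d x := by
  have hR0 : (R : ℝ) ≠ 0 := by
    have : (0 : ℝ) < R := by exact_mod_cast hR
    exact this.ne'
  unfold XVK W3_P
  rw [Finset.sum_filter, Finset.sum_product, Finset.mul_sum]
  refine sum_congr rfl fun s hs => ?_
  rw [W3_al_mem α R s hs, Finset.sum_filter, Finset.mul_sum]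
  refine sum_congr rfl fun q hq => ?_
  have hs0 : (s : ℝ) ≠ 0 := by exact_mod_cast (mem_prI.mp hs).2.ne_zero
  have hq0 : (q : ℝ) ≠ 0 := by exact_mod_cast (mem_prI.mp hq).2.ne_zero
  simp only []
  split_ifs
  · field_simp
  · simp

private lemma W3_AA (α : ℕ → ℝ) (R X : ℕ) (hR : 1 ≤ R) (x : ℝ) :
    4 * (R : ℝ) ^ 2 * AAK (W3_al α R) R X x =
      ∑ s ∈ IS R, α s * s * Real.exp (-(x + Real.log s - Real.log X) ^ 2) := by
  have hR0 : (R : ℝ) ≠ 0 := by
    have : (0 : ℝ) < R := by exact_mod_cast hR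
    exact this.ne'
  unfold AAK
  rw [Finset.mul_sum]
  refine sum_congr rfl fun s hs => ?_
  have hs0 : (s : ℝ) ≠ 0 := by exact_mod_cast (mem_prI.mp hs).2.ne_zero
  rw [W3_al_mem α R s hs]
  field_simp

private lemma W3_NH (α : ℕ → ℝ) (W v R X h m : ℕ) (hm : h ≤ m) :
    ∑ p ∈ W3_P W v R X with ((m : ℕ) : ℝ) - h ≤ (p.2 : ℝ) / p.1 ∧ (p.2 : ℝ) / p.1 < (m : ℕ), α p.1 * om X p.2 =
      NH α W v R X h m := by
  unfold NH W3_P
  rw [Finset.filter_filter, Finset.sum_filter, Finset.sum_product]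
  refine sum_congr rfl fun s hs => ?_
  rw [Finset.sum_filter]
  refine sum_congr rfl fun q hq => ?_
  have hs0 : (0 : ℝ) < s := by exact_mod_cast (mem_prI.mp hs).2.pos
  have e1 : ((m : ℕ) : ℝ) - h ≤ (q : ℝ) / s ↔ (m - h) * s ≤ q := by
    rw [le_div_iff₀ hs0, ← Nat.cast_sub hm]
    exact_mod_cast Iff.rfl
  have e2 : (q : ℝ) / s < (m : ℕ) ↔ q < m * s := by
    rw [div_lt_iff₀ hs0]
    exact_mod_cast Iff.rfl
  simp only [e1, e2]

private lemma W3_num (C φ ε δ s ε' K C₂ C₃ F H X : ℝ) (hC : 0 < C) (hφ : 0 < φ) (hε : 0 < ε) (hδ : 0 < δ)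
    (hF : 0 < F) (hH : 0 < H) (hX : 0 < X) (hK : 0 < K)
    (hs : C * φ * s ≤ ε * δ / 5) (hε' : C * (2 * ε') ≤ ε * δ / 5) (h3 : 5 * C * φ * C₃ ≤ ε * δ * K)
    (h2 : 5 * C * φ * C₂ * H ≤ ε * δ * X) (h2' : 5 * C * φ * C₂ ≤ ε * δ * H) :
    C * (X / (ε * F / φ)) * ((s * F + 2 * (ε' * F / φ)) + C₂ * F * H / X + C₃ * F / K + C₂ * F / H) ≤ δ * X := by
  have e : C * (X / (ε * F / φ)) * ((s * F + 2 * (ε' * F / φ)) + C₂ * F * H / X + C₃ * F / K + C₂ * F / H) =
      (X / ε) * (C * φ * s + C * (2 * ε') + C * φ * C₂ * H / X + C * φ * C₃ / K + C * φ * C₂ / H) := by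
    field_simp
  have f1 : C * φ * C₂ * H / X ≤ ε * δ / 5 := by
    rw [div_le_iff₀ hX]
    linarith
  have f2 : C * φ * C₃ / K ≤ ε * δ / 5 := by
    rw [div_le_iff₀ hK]
    linarith
  have f3 : C * φ * C₂ / H ≤ ε * δ / 5 := by
    rw [div_le_iff₀ hH]
    linarith
  rw [e]
  calc (X / ε) * (C * φ * s + C * (2 * ε') + C * φ * C₂ * H / X + C * φ * C₃ / K + C * φ * C₂ / H)
      ≤ (X / ε) * (ε * δ) := by
        refine mul_le_mul_of_nonneg_left ?_ (by positivity)
        linarith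
    _ = δ * X := by
        field_simp

private lemma W3_l1 (T L : ℝ) (hL : 0 < L) (hT : 1 ≤ T) (h : 1 / L ≤ T) : 1 / T ^ 2 ≤ L := by
  have h1 : 1 / L ≤ T ^ 2 := by nlinarith
  rw [div_le_iff₀ (by positivity)]
  rw [div_le_iff₀ hL] at h1
  linarith

/-- the parameters: `h` between `R/2` and `8 R`, `d = h/(K M)`, `X = M R` -/
private lemma W3_par (R h X M K T K₀ L : ℝ) (hR : 3 ≤ R) (hM : 0 < M) (hX : X = M * R) (hh1 : R ≤ 2 * h)
    (hh2 : h ≤ 8 * R) (hK : 1 ≤ K) (hT : 1 ≤ T) (hK₀ : 800 + 2 * K + 8 * T ^ 2 ≤ K₀) (h1 : K₀ * R ^ 3 ≤ M)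
    (h2 : K₀ ≤ R) (hL : 0 ≤ L) (h3 : K₀ * (1 + L) ≤ R) :
    K₀ * R ≤ M ∧ 100 * h ≤ M ∧ h / (K * M) ≤ 1 / T ^ 2 ∧ h / (K * M) ≤ X ^ (-(1 / 2) : ℝ) ∧
      1 ≤ h / (K * M) * X ∧ L ≤ h / (K * M) * X := by
  have hR0 : 0 < R := by linarith
  have hK0 : 0 < K := by linarith
  have hh0 : 0 < h := by linarith
  have hT2 : 0 ≤ T ^ 2 := sq_nonneg T
  have hK₀0 : 0 < K₀ := by linarith
  have hRR : R ≤ R ^ 3 := by nlinarith [sq_nonneg R, mul_pos hR0 hR0]
  have h4 : K₀ * R ≤ M := (mul_le_mul_of_nonneg_left hRR hK₀0.le).trans h1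
  have hX0 : 0 < X := by
    rw [hX]
    positivity
  have hdX : h / (K * M) * X = h * R / K := by
    rw [hX]
    field_simp
  have hRRK : L * (2 * K) ≤ R * R := by
    have h5 : L ≤ K₀ * (1 + L) := by nlinarith
    have h6 : L ≤ R := h5.trans h3
    have h7 : 2 * K ≤ R := by linarith
    exact mul_le_mul h6 h7 (by linarith) hR0.le
  have hRRK1 : 1 * (2 * K) ≤ R * R := by
    have h7 : 2 * K ≤ R := by linarith
    exact mul_le_mul (by linarith) h7 (by linarith) hR0.le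
  refine ⟨h4, ?_, ?_, ?_, ?_, ?_⟩
  · have h5 : 800 * R ≤ K₀ * R := mul_le_mul_of_nonneg_right (by linarith) hR0.le
    linarith
  · rw [div_le_div_iff₀ (by positivity) (by positivity)]
    have h5 : h * T ^ 2 ≤ 8 * R * T ^ 2 := mul_le_mul_of_nonneg_right hh2 hT2
    have h6 : 8 * T ^ 2 * R ≤ K₀ * R := mul_le_mul_of_nonneg_right (by linarith) hR0.le
    have h7 : 1 * M ≤ K * M := mul_le_mul_of_nonneg_right hK hM.le
    linarith
  · have hneg : X ^ (-(1 / 2) : ℝ) = 1 / X ^ (1 / 2 : ℝ) :=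
      (Real.rpow_neg hX0.le _).trans (one_div _).symm
    have hs0 : 0 < X ^ (1 / 2 : ℝ) := Real.rpow_pos_of_pos hX0 _
    have h5 : h * X ^ (1 / 2 : ℝ) ≤ M := by
      rw [← Real.sqrt_eq_rpow]
      have h6 : h ^ 2 * X ≤ M ^ 2 := by
        have h7 : h ^ 2 ≤ 64 * R ^ 2 := by nlinarith
        have h8 : 64 * R ^ 3 ≤ M := by
          refine le_trans ?_ h1
          exact mul_le_mul_of_nonneg_right (by linarith) (by positivity)
        calc h ^ 2 * X ≤ 64 * R ^ 2 * X := mul_le_mul_of_nonneg_right h7 hX0.le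
          _ = 64 * R ^ 3 * M := by
              rw [hX]
              ring
          _ ≤ M * M := mul_le_mul_of_nonneg_right h8 hM.le
          _ = M ^ 2 := by ring
      calc h * Real.sqrt X = Real.sqrt (h ^ 2 * X) := by
            rw [Real.sqrt_mul (sq_nonneg h), Real.sqrt_sq hh0.le]
        _ ≤ Real.sqrt (M ^ 2) := Real.sqrt_le_sqrt h6
        _ = M := Real.sqrt_sq hM.le
    rw [hneg, div_le_div_iff₀ (by positivity) hs0]
    have h7 : 1 * M ≤ K * M := mul_le_mul_of_nonneg_right hK hM.le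
    linarith
  · rw [hdX, le_div_iff₀ hK0]
    have h5 : R * R ≤ 2 * h * R := mul_le_mul_of_nonneg_right hh1 hR0.le
    linarith
  · rw [hdX, le_div_iff₀ hK0]
    have h5 : R * R ≤ 2 * h * R := mul_le_mul_of_nonneg_right hh1 hR0.le
    linarith

/-- the windows of width `d` and `1/T²` are close, for every character -/
private lemma W3_char (a : ℝ) (h1 : COREG (a - 1 / 2)) (h2 : COREG (a - 1)) (W : ℕ) (hW : 1 ≤ W) (η : ℝ)
    (hη : 0 < η) : ∃ T₀ : ℝ, 1 ≤ T₀ ∧ ∃ X₀ : ℕ, ∀ T : ℝ, T₀ ≤ T → ∀ X : ℕ, X₀ ≤ X → 8 ≤ X → ∀ R : ℕ, 2 ≤ R →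
      (Real.log X) ^ (a - 1) ≤ R → (R : ℝ) ≤ (Real.log X) ^ (a + 1 / 2) → ∀ α : ℕ → ℝ, Wt α →
      ∀ d : ℝ, 0 < d → d ≤ (X : ℝ) ^ (-(1 / 2) : ℝ) → 1 ≤ d * X → Real.log X ≤ d * X → d ≤ 1 / T ^ 2 →
      ∀ χ : DirichletCharacter ℂ W,
        ∫ x : ℝ, ‖XXK χ α R X d x - XXK χ α R X (1 / T ^ 2) x‖ ^ 2 ≤ η * (FJ R X) ^ 2 := by
  obtain ⟨C', hC'1, hchar⟩ := char_window_k
  obtain ⟨T₁, hT₁, X₁, hc1⟩ := h1 W hW (η / 2) (by positivity)
  obtain ⟨T₂, hT₂, X₂, hc2⟩ := h2 W hW (η / 2) (by positivity)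
  have hC'0 : 0 < C' := by linarith
  refine ⟨max (max T₁ T₂) (2 * C' / η), hT₁.trans ((le_max_left _ _).trans (le_max_left _ _)), max X₁ X₂,
    fun T hT X hX hX8 R hR2 hlo hup α hα d hd0 hdX hdY hdL hdT χ => ?_⟩
  have g1 : T₁ ≤ T := ((le_max_left _ _).trans (le_max_left _ _)).trans hT
  have g2 : T₂ ≤ T := ((le_max_right _ _).trans (le_max_left _ _)).trans hT
  have g3 : 2 * C' / η ≤ T := (le_max_right _ _).trans hT
  have g4 : 1 ≤ T := hT₁.trans g1
  have hT0 : 0 < T := by linarith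
  have hX1 : X₁ ≤ X := (le_max_left _ _).trans hX
  have hX2 : X₂ ≤ X := (le_max_right _ _).trans hX
  have hfin : (C' / T + η / 2) * (FJ R X) ^ 2 ≤ η * (FJ R X) ^ 2 := by
    refine mul_le_mul_of_nonneg_right ?_ (sq_nonneg _)
    have h3 : C' / T ≤ η / 2 := by
      rw [div_le_iff₀ hη] at g3
      rw [div_le_iff₀ hT0]
      linarith
    linarith
  by_cases hcase : (Real.log X) ^ (a - 1 / 2) ≤ R
  · have hup' : (R : ℝ) ≤ (Real.log X) ^ (a - 1 / 2 + 1) := by
      have e1 : a - 1 / 2 + 1 = a + 1 / 2 := by ring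
      rw [e1]
      exact hup
    have h3 := hc1 X hX1 (gA χ α) χ (W3_gA χ α hα) R hcase hup' X d (J4_Ylow X hX8) le_rfl hd0 hdX hdY hdL
    exact (hchar R X hX8 hR2 α hα W χ T₁ T d (η / 2) g4 g1 hd0 hdT h3).trans hfin
  · have hlX : 1 ≤ Real.log X := by
      have e1 : Real.log 8 ≤ Real.log X := Real.log_le_log (by norm_num) (by exact_mod_cast hX8)
      have e2 : Real.log 8 = 3 * Real.log 2 := by
        rw [show (8 : ℝ) = 2 ^ 3 by norm_num, Real.log_pow]
        norm_num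
      have e3 := Real.log_two_gt_d9
      linarith
    have hup' : (R : ℝ) ≤ (Real.log X) ^ (a - 1 + 1) := by
      refine (not_le.1 hcase).le.trans ?_
      exact Real.rpow_le_rpow_of_exponent_le hlX (by linarith)
    have h3 := hc2 X hX2 (gA χ α) χ (W3_gA χ α hα) R hlo hup' X d (J4_Ylow X hX8) le_rfl hd0 hdX hdY hdL
    exact (hchar R X hX8 hR2 α hα W χ T₂ T d (η / 2) g4 g2 hd0 hdT h3).trans hfin

/-- `1/log M` against `1/log X` -/
private lemma W3_log (φ R h lR lM lX C₁ κ ε S : ℝ) (hφ : 0 < φ) (hR : 0 < R) (hh0 : 0 ≤ h) (hh : h ≤ 8 * R)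
    (hlR : 0 < lR) (hlM : 0 < lM) (hMX : lM ≤ lX) (hX : lX ≤ (1 + κ) * lM) (hκ : 0 < κ)
    (hS0 : 0 ≤ S) (hS : S ≤ 4 * R ^ 2 * (C₁ / lR)) (hκ' : 32 * C₁ * κ ≤ ε) :
    |h / (φ * lX) * S - h / (φ * lM) * S| ≤ ε / 2 * (R * (2 * R ^ 2) / (lR * lM)) / φ := by
  have hlX : 0 < lX := by linarith
  have e1 : h / (φ * lX) * S - h / (φ * lM) * S = -(h / φ * S * ((lX - lM) / (lM * lX))) := by
    field_simp
    ring
  have e2 : (lX - lM) / (lM * lX) ≤ κ / lM := by
    rw [div_le_div_iff₀ (by positivity) hlM]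
    have h1 : lX - lM ≤ κ * lM := by linarith
    have h2 : (lX - lM) * lM ≤ (κ * lM) * lM := mul_le_mul_of_nonneg_right h1 hlM.le
    have h3 : κ * lM * lM ≤ κ * lM * lX := mul_le_mul_of_nonneg_left hMX (by positivity)
    calc (lX - lM) * lM ≤ (κ * lM) * lM := h2
      _ ≤ κ * lM * lX := h3
      _ = κ * (lM * lX) := by ring
  have e3 : 0 ≤ (lX - lM) / (lM * lX) := div_nonneg (by linarith) (by positivity)
  rw [e1, abs_neg, abs_of_nonneg (mul_nonneg (mul_nonneg (div_nonneg hh0 hφ.le) hS0) e3)]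
  have hC₁ : 0 ≤ C₁ / lR := by
    by_contra hc
    have h1 : 4 * R ^ 2 * (C₁ / lR) < 0 := mul_neg_of_pos_of_neg (by positivity) (not_le.1 hc)
    linarith
  calc h / φ * S * ((lX - lM) / (lM * lX))
      ≤ (8 * R / φ * (4 * R ^ 2 * (C₁ / lR))) * (κ / lM) := by
        refine mul_le_mul ?_ e2 e3 (by positivity)
        exact mul_le_mul (by gcongr) hS hS0 (by positivity)
    _ = (32 * C₁ * κ) / 2 * (R * (2 * R ^ 2) / (lR * lM)) / φ := by
        field_simp
        ring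
    _ ≤ _ := by gcongr

/-- PROOF. As `winf_of` (EF/W3): `win_twoR` with `P = (IS R ×ˢ QS X).filter (q ≡ s v)`, `X = M R`, `n p = q/s`, `u p = α s om X q`, `h` and `M` for its `H` and `X`; `u/n = α s · s · om/q = 4 R² α'(s) om/(s q)` with the weights
`α'(s) = α(s) s²/(4R²)` on `IS R` (`0` elsewhere), so the sum in `win_twoR` is `4R² XVK α'`, and `B x = 4R² √(2π)/(φ(W) log X) AAK α' R X x`. `COREG (a - 1/2)` (if `(log X)^(a - 1/2) ≤ R`) or `COREG (a - 1)` (else) with `g = gA χ α'`, `Y = X`,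
`Δ = h/(K M)` (`h/(K M) ≤ X^(-1/2)` as `64 R³ ≤ M`; `h R/K ≥ R²/(2K) ≥ log X`). Finally `1/log X` against `1/log M` (`parK`), the main term is at most `C GK/φ(W)`. -/
theorem winh_of (a : ℝ) (ha : 3 ≤ a) (h1 : COREG (a - 1 / 2)) (h2 : COREG (a - 1)) : WINH a := by
  obtain ⟨C, hC1, hwin⟩ := win_twoR
  obtain ⟨C₁, hC₁, hAA⟩ := AAK_bd
  obtain ⟨C₂, hC₂, hma⟩ := mass_k
  intro W hW ε δ hε hδ
  have hφ : (0 : ℝ) < (Nat.totient W : ℝ) := by exact_mod_cast Nat.totient_pos.2 hW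
  have hC0 : 0 < C := by linarith
  have hC₁0 : 0 < C₁ := by linarith
  have hC₂0 : 0 < C₂ := by linarith
  -- the constants
  set ε₁ : ℝ := ε / 8 with hε₁
  have hε₁0 : 0 < ε₁ := by positivity
  set s : ℝ := δ * ε₁ / (5 * C * (Nat.totient W : ℝ)) with hs
  have hs0 : 0 < s := by positivity
  have hs1 : C * (Nat.totient W : ℝ) * s ≤ ε₁ * δ / 5 := by
    rw [hs]
    refine le_of_eq ?_
    field_simp
  set η : ℝ := (s / 4) ^ 2 / 2 with hη
  have hη0 : 0 < η := by positivity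
  have hsη : Real.sqrt (2 * η) = s / 4 := by
    rw [hη, show 2 * ((s / 4) ^ 2 / 2) = (s / 4) ^ 2 by ring, Real.sqrt_sq (by positivity)]
  set ε' : ℝ := δ * ε₁ / (10 * C) with hε'
  have hε'0 : 0 < ε' := by positivity
  have hε'1 : C * (2 * ε') ≤ ε₁ * δ / 5 := by
    rw [hε']
    refine le_of_eq ?_
    field_simp
    norm_num
  have hc3 : 0 ≤ 5 * C * (Nat.totient W : ℝ) * C₂ / (ε₁ * δ) := by positivity
  set K : ℝ := 1 + 5 * C * (Nat.totient W : ℝ) * C₂ / (ε₁ * δ) with hK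
  have hK1 : 1 ≤ K := by linarith
  have hK0 : 0 < K := by linarith
  have hK3 : 5 * C * (Nat.totient W : ℝ) * C₂ ≤ ε₁ * δ * K := by
    have h3 : 5 * C * (Nat.totient W : ℝ) * C₂ / (ε₁ * δ) ≤ K := by linarith
    rw [div_le_iff₀ (by positivity)] at h3
    linarith
  obtain ⟨L₀, hL₀, hlong0⟩ := longk a ha W hW (ε' / 4) (by positivity)
  obtain ⟨T₀, hT₀, X₁, hcore⟩ := W3_char a h1 h2 W hW η hη0
  set T : ℝ := max T₀ (1 / L₀) with hT
  have hT1 : T₀ ≤ T := le_max_left _ _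
  have hT3 : 1 / L₀ ≤ T := le_max_right _ _
  have hT4 : 1 ≤ T := hT₀.trans hT1
  have hT0 : 0 < T := by linarith
  have hl0 : 0 < 1 / T ^ 2 := by positivity
  have hlL : 1 / T ^ 2 ≤ L₀ := W3_l1 T L₀ hL₀ hT4 hT3
  obtain ⟨M₂, hlong⟩ := hlong0 (1 / T ^ 2) hl0 hlL
  have hk1 : 0 ≤ T ^ 2 := by positivity
  have hk2 : 0 ≤ 4608 * C₁ / ε := by positivity
  have hkW : (0 : ℝ) ≤ W := Nat.cast_nonneg W
  set K₀ : ℝ := 800 + 2 * K + 8 * T ^ 2 + 4608 * C₁ / ε + 8 * (5 * C * (Nat.totient W : ℝ) * C₂ / (ε₁ * δ)) + W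
    with hK₀
  obtain ⟨M₃, hpar⟩ := parK a K₀ (ε / (32 * C₁)) ha (by positivity)
  refine ⟨max (max X₁ M₂) M₃, fun M hM R hPX α hα v hv h hh1 hh2 => ?_⟩
  have hM1 : X₁ ≤ M := (le_max_left _ _).trans ((le_max_left _ _).trans hM)
  have hM2 : M₂ ≤ M := (le_max_right _ _).trans ((le_max_left _ _).trans hM)
  have hM3 : M₃ ≤ M := (le_max_right _ _).trans hM
  obtain ⟨p1, p2, p3, p4, p5, p6, p7, p8, p9, p10, p11, p12, p13, p14, p15, p16, p17⟩ := hpar M hM3 R hPX
  have hM0 : (0 : ℝ) < M := by exact_mod_cast (by omega : 0 < M)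
  have hR3 : (3 : ℝ) ≤ R := by exact_mod_cast p7
  have hR0 : (0 : ℝ) < R := by linarith
  have hXc : ((M * R : ℕ) : ℝ) = M * R := by push_cast; ring
  have hMX : M ≤ M * R := Nat.le_mul_of_pos_right M (by omega)
  have hX8 : 8 ≤ M * R := by omega
  have hX16 : 16 ≤ M * R := by omega
  have hX1 : X₁ ≤ M * R := hM1.trans hMX
  have hh1r : (R : ℝ) ≤ 2 * h := by exact_mod_cast hh1
  have hh2r : (h : ℝ) ≤ 8 * R := by exact_mod_cast hh2
  have hh0 : (0 : ℝ) < h := by linarith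
  have hhN : 1 ≤ h := by omega
  have hWR : W ≤ R := by
    have h3 : (W : ℝ) ≤ R := by linarith
    exact_mod_cast h3
  set X : ℕ := M * R with hX
  have hlM0 : 0 < Real.log M := by linarith
  have hlX0 : 0 < Real.log X := by linarith
  have hlR0 : 0 < Real.log R := by linarith
  have hK₀K : 800 + 2 * K + 8 * T ^ 2 ≤ K₀ := by linarith
  obtain ⟨hK₀R, h100, hdT, hdX, hdY, hdL⟩ := W3_par R h X M K T K₀ (Real.log X) hR3 hM0 hXc hh1r hh2r hK1 hT4
    hK₀K p13 p6 hlX0.le p14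
  have h100N : 100 * h ≤ M := by exact_mod_cast h100
  have hFJ : 0 < FJ R X := FJ_pos hX8 (by omega)
  set F : ℝ := (R : ℝ) ^ 2 * FJ R X with hF
  have hF0 : 0 < F := by positivity
  set d : ℝ := (h : ℝ) / (K * M) with hd
  have hd0 : 0 < d := by positivity
  have hα' : Wt (W3_al α R) := W3_alWt α R (by omega) hα
  have hχ : ∀ χ : DirichletCharacter ℂ W,
      ∫ x : ℝ, ‖XXK χ (W3_al α R) R X d x - XXK χ (W3_al α R) R X (1 / T ^ 2) x‖ ^ 2 ≤ η * (FJ R X) ^ 2 :=
    fun χ => hcore T hT1 X hX1 hX8 R (by omega) p15 p16 (W3_al α R) hα' d hd0 hdX hdY hdL hdT χ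
  obtain ⟨hEi, hEη⟩ := class_window_k (W3_al α R) W v hW hv R X hWR d (1 / T ^ 2) (η * (FJ R X) ^ 2)
    (Real.log M) hd0 hl0 (fun χ => (XXK_planch χ (W3_al α R) R X d (1 / T ^ 2) hd0 hl0).1) hχ
  have hsq : Real.sqrt (2 * (η * (FJ R X) ^ 2)) = s / 4 * FJ R X := by
    rw [← mul_assoc, Real.sqrt_mul (by positivity), Real.sqrt_sq hFJ.le, hsη]
  rw [hsq] at hEη
  set c : ℝ := ε' / 4 * FJ R X / Nat.totient W with hc
  have hc0 : 0 ≤ c := by positivity
  set B : ℝ → ℝ := fun x => Real.sqrt (2 * π) / (Nat.totient W * Real.log X) *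
    (4 * (R : ℝ) ^ 2 * AAK (W3_al α R) R X x) with hB
  have hlongx : ∀ x : ℝ, |x - Real.log M| ≤ 1 → |XVK (W3_al α R) W v R X (1 / T ^ 2) x -
      Real.sqrt (2 * π) / (Nat.totient W * Real.log X) * AAK (W3_al α R) R X x| ≤ c :=
    fun x hx => hlong M hM2 R hPX (W3_al α R) hα' v hv x hx
  set E : ℝ → ℝ := fun x => 4 * (R : ℝ) ^ 2 *
    (|XVK (W3_al α R) W v R X d x - XVK (W3_al α R) W v R X (1 / T ^ 2) x| + c) with hE
  have hcI : IntegrableOn (fun _ : ℝ => c) (Set.Icc (Real.log M - 1) (Real.log M + 1)) :=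
    integrableOn_const (by simp)
  have hEI : IntegrableOn E (Set.Icc (Real.log M - 1) (Real.log M + 1)) := (hEi.add hcI).const_mul _
  have hEint : ∫ x in Set.Icc (Real.log M - 1) (Real.log M + 1), E x ≤ s * F + 2 * (ε' * F / Nat.totient W) := by
    have e0 : ∫ x in Set.Icc (Real.log M - 1) (Real.log M + 1), E x = 4 * (R : ℝ) ^ 2 *
        ∫ x in Set.Icc (Real.log M - 1) (Real.log M + 1),
          (|XVK (W3_al α R) W v R X d x - XVK (W3_al α R) W v R X (1 / T ^ 2) x| + c) :=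
      integral_const_mul _ _
    have e1 : ∫ x in Set.Icc (Real.log M - 1) (Real.log M + 1),
          (|XVK (W3_al α R) W v R X d x - XVK (W3_al α R) W v R X (1 / T ^ 2) x| + c) =
        (∫ x in Set.Icc (Real.log M - 1) (Real.log M + 1),
          |XVK (W3_al α R) W v R X d x - XVK (W3_al α R) W v R X (1 / T ^ 2) x|) +
        ∫ _x in Set.Icc (Real.log M - 1) (Real.log M + 1), c := integral_add hEi hcI
    have e2 : ∫ _x in Set.Icc (Real.log M - 1) (Real.log M + 1), c = 2 * c := by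
      rw [setIntegral_const, Real.volume_real_Icc_of_le (by linarith), smul_eq_mul]
      ring
    rw [e0, e1, e2]
    calc 4 * (R : ℝ) ^ 2 * ((∫ x in Set.Icc (Real.log M - 1) (Real.log M + 1),
          |XVK (W3_al α R) W v R X d x - XVK (W3_al α R) W v R X (1 / T ^ 2) x|) + 2 * c)
        ≤ 4 * (R : ℝ) ^ 2 * (s / 4 * FJ R X + 2 * c) := by
          refine mul_le_mul_of_nonneg_left ?_ (by positivity)
          linarith
      _ = s * F + 2 * (ε' * F / Nat.totient W) := by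
          rw [hF, hc]
          ring
  -- the bounds of `B`
  obtain ⟨hAA1, hAA2⟩ := hAA R X (W3_al α R) (by omega) hα'
  set κ : ℝ := Real.sqrt (2 * π) / (Nat.totient W * Real.log X) with hκ
  have hκ0 : 0 ≤ κ := by positivity
  set B₁ : ℝ := 12 * C₁ * F / Nat.totient W with hB₁
  have hB₁0 : 0 ≤ B₁ := by positivity
  have hπ : Real.sqrt (2 * π) ≤ 3 := by
    rw [Real.sqrt_le_left (by norm_num)]
    have := Real.pi_lt_four
    linarith
  have hκB : κ * (4 * (R : ℝ) ^ 2 * (C₁ / Real.log R)) ≤ B₁ := by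
    have e1 : κ * (4 * (R : ℝ) ^ 2 * (C₁ / Real.log R)) = Real.sqrt (2 * π) * (4 * (C₁ * F) / Nat.totient W) := by
      rw [hκ, hF]
      unfold FJ
      field_simp
    have e2 : B₁ = 3 * (4 * (C₁ * F) / Nat.totient W) := by
      rw [hB₁]
      ring
    rw [e1, e2]
    exact mul_le_mul_of_nonneg_right hπ (by positivity)
  have hBbd : ∀ x, 0 ≤ B x ∧ B x ≤ B₁ := by
    intro x
    refine ⟨mul_nonneg hκ0 (mul_nonneg (by positivity) (hAA1 x).1), ?_⟩
    exact (mul_le_mul_of_nonneg_left (mul_le_mul_of_nonneg_left (hAA1 x).2 (by positivity)) hκ0).trans hκB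
  have hBlip : ∀ x y, |B x - B y| ≤ B₁ * |x - y| := by
    intro x y
    have e1 : B x - B y = κ * (4 * (R : ℝ) ^ 2) * (AAK (W3_al α R) R X x - AAK (W3_al α R) R X y) := by
      simp only [hB]
      ring
    have e2 : 0 ≤ κ * (4 * (R : ℝ) ^ 2) := mul_nonneg hκ0 (by positivity)
    rw [e1, abs_mul, abs_of_nonneg e2]
    calc κ * (4 * (R : ℝ) ^ 2) * |AAK (W3_al α R) R X x - AAK (W3_al α R) R X y|
        ≤ κ * (4 * (R : ℝ) ^ 2) * (C₁ / Real.log R * |x - y|) := mul_le_mul_of_nonneg_left (hAA2 x y) e2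
      _ = κ * (4 * (R : ℝ) ^ 2 * (C₁ / Real.log R)) * |x - y| := by ring
      _ ≤ B₁ * |x - y| := mul_le_mul_of_nonneg_right hκB (abs_nonneg _)
  set θ : ℝ := ε₁ * F / Nat.totient W with hθ
  have hθ0 : 0 < θ := by positivity
  have h6 : 6 * B₁ * h ≤ θ * M := by
    have e1 : 6 * B₁ * h = (72 * C₁ * h) * (F / Nat.totient W) := by
      rw [hB₁]
      ring
    have e2 : θ * M = (ε₁ * M) * (F / Nat.totient W) := by
      rw [hθ]
      ring
    rw [e1, e2]
    refine mul_le_mul_of_nonneg_right ?_ (by positivity)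
    have h3 : 4608 * C₁ / ε * R ≤ M := by
      refine le_trans ?_ hK₀R
      exact mul_le_mul_of_nonneg_right (by linarith) hR0.le
    rw [div_mul_eq_mul_div, div_le_iff₀ hε] at h3
    have h4 : C₁ * h ≤ C₁ * (8 * R) := mul_le_mul_of_nonneg_left hh2r hC₁0.le
    rw [hε₁]
    linarith
  -- the masses
  obtain ⟨hma1, hma2⟩ := hma R X α hX16 (by omega) hα
  have hMs : ∑ p ∈ W3_P W v R X, α p.1 * om X p.2 / ((p.2 : ℝ) / p.1) ≤ C₂ * F := by
    refine le_trans (Finset.sum_le_sum_of_subset_of_nonneg (Finset.filter_subset _ _) fun p _ _ => ?_) ?_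
    · exact div_nonneg (mul_nonneg (hα _).1 (Real.exp_pos _).le) (by positivity)
    · rw [Finset.sum_product]
      refine hma1.trans (le_of_eq ?_)
      rw [hF]
      ring
  have hMs' : ∑ p ∈ W3_P W v R X, α p.1 * om X p.2 ≤ C₂ * F * M := by
    refine le_trans (Finset.sum_le_sum_of_subset_of_nonneg (Finset.filter_subset _ _) fun p _ _ => ?_) ?_
    · exact mul_nonneg (hα _).1 (Real.exp_pos _).le
    · rw [Finset.sum_product]
      refine hma2.trans (le_of_eq ?_)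
      rw [hF, hXc]
      ring
  have key := hwin (ℕ × ℕ) (W3_P W v R X)
    (fun p => (p.2 : ℝ) / p.1) (fun p => α p.1 * om X p.2) h M K B₁ (s * F + 2 * (ε' * F / Nat.totient W))
    (C₂ * F) (C₂ * F) θ
    B E (fun p hp => div_pos (W3_mem hp).2 (W3_mem hp).1)
    (fun p _ => mul_nonneg (hα _).1 (Real.exp_pos _).le) hhN h100N hK1 hθ0 hB₁0
    (fun x => mul_nonneg (by positivity) (add_nonneg (abs_nonneg _) hc0)) hEI hEint hMs hMs' hBbd hBlip h6 ?_
  · refine le_trans ?_ (le_trans key ?_)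
    · refine Nat.cast_le.2 (Finset.card_le_card fun m hm => ?_)
      rw [Finset.mem_filter] at hm ⊢
      refine ⟨hm.1, ?_⟩
      have h3 := hm.2
      have hMm : M ≤ m := (Finset.mem_Icc.1 hm.1).1
      rw [W3_NH α W v R X h m (by omega)]
      set S : ℝ := ∑ s ∈ IS R, α s * s * Real.exp (-(Real.log m + Real.log s - Real.log X) ^ 2) with hS
      have hSA : S = 4 * (R : ℝ) ^ 2 * AAK (W3_al α R) R X (Real.log m) :=
        (W3_AA α R X (by omega) (Real.log m)).symm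
      have hS0 : 0 ≤ S := by
        rw [hSA]
        exact mul_nonneg (by positivity) (hAA1 _).1
      have hS1 : S ≤ 4 * (R : ℝ) ^ 2 * (C₁ / Real.log R) := by
        rw [hSA]
        exact mul_le_mul_of_nonneg_left (hAA1 _).2 (by positivity)
      have h4 : (h : ℝ) / Real.sqrt (2 * π) * B (Real.log m) = h / (Nat.totient W * Real.log X) * S := by
        simp only [hB, ← hSA, hκ]
        have hpi : Real.sqrt (2 * π) ≠ 0 := by positivity
        field_simp
      rw [h4]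
      have h5 := W3_log (Nat.totient W) R h (Real.log R) (Real.log M) (Real.log X) C₁ (ε / (32 * C₁)) ε S hφ hR0
        hh0.le hh2r hlR0 hlM0 p11 p12 (by positivity) hS0 hS1 (le_of_eq (by field_simp))
      have hHr : (HR R : ℝ) = 2 * (R : ℝ) ^ 2 := by
        unfold EF.HR
        push_cast
        ring
      have h7 : θ * h ≤ ε / 2 * (R * (2 * (R : ℝ) ^ 2) / (Real.log R * Real.log M)) / Nat.totient W := by
        have f1 : FJ R X ≤ 1 / (Real.log R * Real.log M) := by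
          unfold FJ
          refine one_div_le_one_div_of_le (by positivity) ?_
          exact mul_le_mul_of_nonneg_left p11 hlR0.le
        calc θ * h ≤ θ * (8 * R) := mul_le_mul_of_nonneg_left hh2r hθ0.le
          _ = ε * (R : ℝ) ^ 3 / Nat.totient W * FJ R X := by
              rw [hθ, hF, hε₁]
              ring
          _ ≤ ε * (R : ℝ) ^ 3 / Nat.totient W * (1 / (Real.log R * Real.log M)) :=
              mul_le_mul_of_nonneg_left f1 (by positivity)
          _ = _ := by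
              field_simp
      have h8 : ε * GK R M / Nat.totient W =
          2 * (ε / 2 * (R * (2 * (R : ℝ) ^ 2) / (Real.log R * Real.log M)) / Nat.totient W) := by
        unfold GK
        rw [hHr]
        ring
      rw [h8] at h3
      have h9 : |NH α W v R X h m - h / (Nat.totient W * Real.log M) * S| ≤
          |NH α W v R X h m - h / (Nat.totient W * Real.log X) * S| +
          |h / (Nat.totient W * Real.log X) * S - h / (Nat.totient W * Real.log M) * S| := by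
        refine le_trans (le_of_eq ?_) (abs_add_le _ _)
        congr 1
        ring
      linarith
    · have h5 : 5 * C * (Nat.totient W : ℝ) * C₂ * h ≤ ε₁ * δ * M := by
        have h3 : 8 * (5 * C * (Nat.totient W : ℝ) * C₂ / (ε₁ * δ)) * R ≤ M := by
          refine le_trans ?_ hK₀R
          exact mul_le_mul_of_nonneg_right (by linarith) hR0.le
        have h4 : 5 * C * (Nat.totient W : ℝ) * C₂ / (ε₁ * δ) * h ≤ M := by
          refine le_trans (mul_le_mul_of_nonneg_left hh2r hc3) ?_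
          linarith
        rw [div_mul_eq_mul_div, div_le_iff₀ (by positivity)] at h4
        linarith
      have h5' : 5 * C * (Nat.totient W : ℝ) * C₂ ≤ ε₁ * δ * h := by
        have h3 : 5 * C * (Nat.totient W : ℝ) * C₂ / (ε₁ * δ) ≤ h := by linarith
        rw [div_le_iff₀ (by positivity)] at h3
        linarith
      exact W3_num C (Nat.totient W) ε₁ δ s ε' K C₂ C₂ F h M hC0 hφ hε₁0 hδ hF0 hh0 hM0 hK0 hs1 hε'1 hK3 h5 h5'
  · intro x hx
    have h3 : |x - Real.log M| ≤ 1 := by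
      rw [abs_le]
      constructor
      · linarith [hx.1]
      · linarith [hx.2]
    have h4 := W3_sum α W v R X (by omega) d x
    rw [h4]
    have h5 : 4 * (R : ℝ) ^ 2 * XVK (W3_al α R) W v R X d x - B x = 4 * (R : ℝ) ^ 2 *
        (XVK (W3_al α R) W v R X d x - κ * AAK (W3_al α R) R X x) := by
      simp only [hB]
      ring
    rw [h5, abs_mul, abs_of_nonneg (by positivity)]
    refine mul_le_mul_of_nonneg_left ?_ (by positivity)
    calc |XVK (W3_al α R) W v R X d x - κ * AAK (W3_al α R) R X x|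
        = |(XVK (W3_al α R) W v R X d x - XVK (W3_al α R) W v R X (1 / T ^ 2) x) +
            (XVK (W3_al α R) W v R X (1 / T ^ 2) x - κ * AAK (W3_al α R) R X x)| := by
          congr 1
          ring
      _ ≤ |XVK (W3_al α R) W v R X d x - XVK (W3_al α R) W v R X (1 / T ^ 2) x| +
            |XVK (W3_al α R) W v R X (1 / T ^ 2) x - κ * AAK (W3_al α R) R X x| :=
          abs_add_le _ _
      _ ≤ _ := add_le_add le_rfl (hlongx x h3)

end Pool.Agent.Lib.MP_bae66e_nt.MF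
end
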