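import Pool.Agent.Lib.MP_bae66e_nt.Mg.G032
import Pool.Agent.Lib.MP_bae66e_nt.E3.X1
import Pool.Agent.Lib.MP_bae66e_nt.E3.N3d
import Pool.Agent.Lib.MP_bae66e_nt.E3.Q3
import Pool.Agent.Lib.MP_bae66e_nt.Mg.G119
import Pool.Agent.Lib.MP_bae66e_nt.Mg.G120
import Pool.Agent.Lib.MP_bae66e_nt.Mg.G040
import Pool.Agent.Lib.MP_bae66e_nt.Mg.G039

section

/-!
# Row X: COREG
-/

set_option autoImplicit false

namespace Pool.Agent.Lib.MP_bae66e_nt.EF

open Finset MeasureTheory Real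
open Pool.Agent.E3
open Pool.Agent.Lib.MP_bae66e_nt.E2 (YR FR PH)
open Pool.Agent.Lib.MP_bae66e_nt.LL (fP gW)
open Pool.Agent.Lib.MP_bae66e_nt.AC (Sg VV)
open Pool.Agent.Lib.MP_bae66e_nt.AP3 (prI mem_prI)

private theorem X_norm_ph (u x : ℝ) : ‖ph u x‖ = 1 := by
  unfold ph
  exact Complex.norm_exp_ofReal_mul_I _

private theorem X_continuous_ph (x : ℝ) : Continuous fun t : ℝ => ph t x := by
  unfold ph
  fun_prop

private theorem X_PR_norm_le : ∃ C : ℝ, 1 ≤ C ∧ ∀ (f : ℕ → ℂ), (∀ n, ‖f n‖ ≤ 1) → ∀ (R : ℕ) (t : ℝ), 2 ≤ R →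
    ‖DP f (IS R) t‖ ≤ C / Real.log R := by
  obtain ⟨C, hC, h⟩ := recip_IS
  refine ⟨C, hC, fun f hf R t hR => ?_⟩
  refine le_trans ?_ (h R hR).1
  unfold DP
  refine (norm_sum_le _ _).trans (Finset.sum_le_sum fun n _ => ?_)
  have h1 := hf n
  have h2 : (0 : ℝ) ≤ 1 / n := by positivity
  rw [norm_mul, norm_mul, X_norm_ph, mul_one, Complex.norm_real, Real.norm_of_nonneg h2]
  exact mul_le_of_le_one_left h2 h1

private theorem X_PR_continuous (f : ℕ → ℂ) (R : ℕ) : Continuous (DP f (IS R)) := by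
  unfold DP
  exact continuous_finsetSum _ fun n _ =>
    (continuous_const.mul (X_continuous_ph _)).mul continuous_const

/-- the number of the large values, for all the coefficients of modulus at most `1` -/
private theorem X_nlv (a : ℝ) (ha : 1 ≤ a) (B : ℕ) (α : ℝ) (hα : 0 < α) :
    ∃ X₀ : ℕ, ∀ X : ℕ, X₀ ≤ X → ∀ (f : ℕ → ℂ), (∀ n, ‖f n‖ ≤ 1) → ∀ R : ℕ,
      (Real.log X) ^ a ≤ R → (R : ℝ) ≤ (Real.log X) ^ B → ∀ T : Finset ℝ, Spaced T →
      (∀ t ∈ T, |t| ≤ X ∧ (R : ℝ) ^ (-α) ≤ ‖DP f (IS R) t‖) → (#T : ℝ) ≤ (X : ℝ) ^ (2 * α + 2 / a) := by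
  obtain ⟨X₀, h⟩ := large_values a α B (1 / a) ha hα.le (Nat.cast_nonneg B) (by positivity)
  refine ⟨X₀, fun X hX f hf R h1 h2 T hT hV => ?_⟩
  have key := h X hX R f T h1 (by rw [Real.rpow_natCast]; exact h2) hf hT
    (fun t ht => hV t ht)
  have he : 2 * α + 1 / a + 1 / a = 2 * α + 2 / a := by ring
  rwa [he] at key

private theorem X_T3Q_min (θ : ℝ) (hT3 : T3Q θ) : T3Q (min θ 1) := by
  intro W hW δ hδ
  obtain ⟨T₀, hT₀, X₀, h⟩ := hT3 W hW δ hδ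
  refine ⟨T₀, hT₀, max X₀ 1, fun X hX χ Y hY1 hY2 T hT1 hT2 hT3' => ?_⟩
  refine h X (le_trans (le_max_left _ _) hX) χ Y hY1 hY2 T hT1 hT2 (hT3'.trans ?_)
  have hX1 : (1 : ℝ) ≤ (X : ℝ) := by exact_mod_cast le_trans (le_max_right _ _) hX
  exact Real.rpow_le_rpow_of_exponent_le hX1 (min_le_left _ _)

private theorem X_Dle1 {a : ℝ} {X R : ℕ} {Y Δ : ℝ} (h : CJ a X R Y Δ) (hX : 64 ≤ X) : Δ ≤ 1 := by
  refine h.Dup.trans ?_
  have h1 : (1 : ℝ) ≤ X := by exact_mod_cast (by omega : 1 ≤ X)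
  exact Real.rpow_le_one_of_one_le_of_nonpos h1 (by norm_num)

/-- the region where `R` is small -/
theorem X_core_T1 (a α δ : ℝ) (ha : 1 ≤ a) (hα : 0 < α) (haα : 2 ≤ a * α) (hδ : 0 < δ) :
    ∃ X₀ : ℕ, ∀ X : ℕ, X₀ ≤ X → ∀ (f : ℕ → ℂ), (∀ n, ‖f n‖ ≤ 1) → ∀ (W : ℕ) (χ₃ : DirichletCharacter ℂ W) (R : ℕ) (Y Δ : ℝ),
      CJ a X R Y Δ →
      ∫ t in {t : ℝ | ‖DP f (IS R) t‖ ≤ (R : ℝ) ^ (-α)}, Real.exp (-(Δ * t) ^ 2) *
        ‖DP f (IS R) t * PQ χ₃ X Y t‖ ^ 2 ≤ δ * (1 / (Real.log R * Real.log X)) ^ 2 := by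
  obtain ⟨C₁, hC₁, hMV⟩ := mvQ
  obtain ⟨C₂, hC₂, hPR⟩ := X_PR_norm_le
  obtain ⟨C₃, hC₃, hPQ⟩ := PQ_norm_le
  obtain ⟨X₁, h1⟩ := CJ_large a α (C₁ / δ) ha hα haα
  refine ⟨X₁, fun X hX f hf W χ₃ R Y Δ h => ?_⟩
  obtain ⟨hX64, -, hL4, -, hR2, hlR, hT1⟩ := h1 X hX R Y Δ h
  have hmain := hMV W χ₃ X Y Δ hX64 h.Ylow h.Yup h.Dpos (X_Dle1 h hX64) h.DY
  have hR0 : (0 : ℝ) < R := by exact_mod_cast (by omega : 0 < R)
  have hDpos := h.Dpos
  set L := Real.log X with hL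
  have hL0 : 0 < L := by linarith
  have hb1 : ∀ t, ‖DP f (IS R) t‖ ≤ C₂ / Real.log R := fun t => hPR f hf R t hR2
  have hb3 : ∀ t, ‖PQ χ₃ X Y t‖ ≤ C₃ / L := fun t => hPQ W χ₃ X Y t (by omega) h.Ylow h.Yup
  have hc1 := X_PR_continuous f R
  have hc3 := PQ_continuous χ₃ X Y
  have hi3 : Integrable (fun t : ℝ => Real.exp (-(Δ * t) ^ 2) * ‖PQ χ₃ X Y t‖ ^ 2) := by
    refine gauss_integrable_of_bounded Δ ((C₃ / L) ^ 2) hDpos _ (hc3.norm.pow 2) ?_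
    intro t
    rw [abs_of_nonneg (sq_nonneg _)]
    exact pow_le_pow_left₀ (norm_nonneg _) (hb3 t) 2
  have hi13 : Integrable (fun t : ℝ => Real.exp (-(Δ * t) ^ 2) *
      ‖DP f (IS R) t * PQ χ₃ X Y t‖ ^ 2) := by
    refine gauss_integrable_of_bounded Δ ((C₂ / Real.log R * (C₃ / L)) ^ 2) hDpos _
      ((hc1.mul hc3).norm.pow 2) ?_
    intro t
    rw [abs_of_nonneg (sq_nonneg _)]
    apply pow_le_pow_left₀ (norm_nonneg _)
    rw [norm_mul]
    exact mul_le_mul (hb1 t) (hb3 t) (norm_nonneg _) (le_trans (norm_nonneg _) (hb1 t))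
  have hS : MeasurableSet {t : ℝ | ‖DP f (IS R) t‖ ≤ (R : ℝ) ^ (-α)} :=
    (isClosed_le hc1.norm continuous_const).measurableSet
  have hRα2 : ((R : ℝ) ^ (-α)) ^ 2 = (R : ℝ) ^ (-(2 * α)) := by
    rw [← Real.rpow_natCast, ← Real.rpow_mul hR0.le]
    congr 1
    push_cast
    ring
  have hRαn : 0 < (R : ℝ) ^ (-(2 * α)) := Real.rpow_pos_of_pos hR0 _
  calc ∫ t in {t : ℝ | ‖DP f (IS R) t‖ ≤ (R : ℝ) ^ (-α)}, Real.exp (-(Δ * t) ^ 2) *
        ‖DP f (IS R) t * PQ χ₃ X Y t‖ ^ 2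
      ≤ ∫ t in {t : ℝ | ‖DP f (IS R) t‖ ≤ (R : ℝ) ^ (-α)}, (R : ℝ) ^ (-(2 * α)) *
        (Real.exp (-(Δ * t) ^ 2) * ‖PQ χ₃ X Y t‖ ^ 2) := by
        apply setIntegral_mono_on hi13.integrableOn (hi3.const_mul _).integrableOn hS
        intro t ht
        have ht' : ‖DP f (IS R) t‖ ≤ (R : ℝ) ^ (-α) := ht
        have k1 : ‖DP f (IS R) t‖ ^ 2 ≤ (R : ℝ) ^ (-(2 * α)) := by
          rw [← hRα2]
          exact pow_le_pow_left₀ (norm_nonneg _) ht' 2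
        have k2 : ‖DP f (IS R) t * PQ χ₃ X Y t‖ ^ 2 = ‖DP f (IS R) t‖ ^ 2 * ‖PQ χ₃ X Y t‖ ^ 2 := by
          rw [norm_mul, mul_pow]
        rw [k2]
        have k3 : 0 ≤ Real.exp (-(Δ * t) ^ 2) * ‖PQ χ₃ X Y t‖ ^ 2 := by positivity
        calc Real.exp (-(Δ * t) ^ 2) * (‖DP f (IS R) t‖ ^ 2 * ‖PQ χ₃ X Y t‖ ^ 2)
            = ‖DP f (IS R) t‖ ^ 2 * (Real.exp (-(Δ * t) ^ 2) * ‖PQ χ₃ X Y t‖ ^ 2) := by ring
          _ ≤ _ := mul_le_mul_of_nonneg_right k1 k3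
    _ ≤ ∫ t : ℝ, (R : ℝ) ^ (-(2 * α)) * (Real.exp (-(Δ * t) ^ 2) * ‖PQ χ₃ X Y t‖ ^ 2) := by
        apply setIntegral_le_integral (hi3.const_mul _)
        exact Filter.Eventually.of_forall fun t => by positivity
    _ = (R : ℝ) ^ (-(2 * α)) * ∫ t : ℝ, Real.exp (-(Δ * t) ^ 2) * ‖PQ χ₃ X Y t‖ ^ 2 :=
        integral_const_mul _ _
    _ ≤ (R : ℝ) ^ (-(2 * α)) * (C₁ / L) := mul_le_mul_of_nonneg_left hmain hRαn.le
    _ = (C₁ / δ * (Real.log R) ^ 2 * L * (R : ℝ) ^ (-(2 * α))) *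
          (δ * (1 / (Real.log R * L)) ^ 2) := by
        field_simp
    _ ≤ 1 * (δ * (1 / (Real.log R * L)) ^ 2) := mul_le_mul_of_nonneg_right hT1 (by positivity)
    _ = _ := one_mul _

/-- the region where `R` is large -/
theorem X_core_T3 (θ : ℝ) (hT3 : T3Q θ) (a α δ : ℝ) (ha : 1 ≤ a)
    (hα : 0 < α) (haα : 2 ≤ a * α) (hθ : 2 * α + 2 / a ≤ θ) (hδ : 0 < δ) (W : ℕ) (hW : 1 ≤ W) :
    ∃ T₀ : ℝ, 1 ≤ T₀ ∧ ∃ X₀ : ℕ, ∀ X : ℕ, X₀ ≤ X → ∀ (f : ℕ → ℂ), (∀ n, ‖f n‖ ≤ 1) → ∀ (χ₃ : DirichletCharacter ℂ W) (R : ℕ) (Y Δ : ℝ),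
      CJ a X R Y Δ →
      ∫ t in {t : ℝ | T₀ ≤ |t| ∧ |t| ≤ X ∧ (R : ℝ) ^ (-α) ≤ ‖DP f (IS R) t‖},
        Real.exp (-(Δ * t) ^ 2) * ‖DP f (IS R) t * PQ χ₃ X Y t‖ ^ 2 ≤ δ * (1 / (Real.log R * Real.log X)) ^ 2 := by
  obtain ⟨C₁, hC₁, hPR⟩ := X_PR_norm_le
  obtain ⟨C₂, hC₂, hPQ⟩ := PQ_norm_le
  have hC₁0 : 0 < C₁ := by linarith
  obtain ⟨T₀, hT₀, X₁, hT3'⟩ := hT3 W hW (δ / (4 * C₁ ^ 2)) (by positivity)
  obtain ⟨X₂, hN'⟩ := X_nlv a ha (⌈a⌉₊ + 1) α hα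
  obtain ⟨X₃, h3⟩ := CJ_large a α 8 ha hα haα
  refine ⟨T₀, hT₀, max X₁ (max X₂ X₃), fun X hX f hf χ₃ R Y Δ h => ?_⟩
  have hX1 : X₁ ≤ X := le_trans (le_max_left _ _) hX
  have hX2 : X₂ ≤ X := le_trans (le_trans (le_max_left _ _) (le_max_right _ _)) hX
  have hX3 : X₃ ≤ X := le_trans (le_trans (le_max_right _ _) (le_max_right _ _)) hX
  obtain ⟨hX64, hL8, hL4, hR8, hR2, hlR, -⟩ := h3 X hX3 R Y Δ h
  have hX1R : (1 : ℝ) ≤ X := by exact_mod_cast (by omega : 1 ≤ X)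
  have hL0 : 0 < Real.log X := by linarith
  set S : Set ℝ := {t : ℝ | T₀ ≤ |t| ∧ |t| ≤ X ∧ (R : ℝ) ^ (-α) ≤ ‖DP f (IS R) t‖} with hS
  have hms : MeasurableSet S := by
    apply MeasurableSet.inter
    · exact measurableSet_le measurable_const continuous_abs.measurable
    · apply MeasurableSet.inter
      · exact measurableSet_le continuous_abs.measurable measurable_const
      · exact measurableSet_le measurable_const (X_PR_continuous f _).norm.measurable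
  set g : ℝ → ℝ := fun t => ‖PQ χ₃ X Y t‖ ^ 2 with hg
  have hgc : Continuous g := (PQ_continuous χ₃ X Y).norm.pow 2
  have hg0 : ∀ t, 0 ≤ g t := fun t => by positivity
  have e1 : ∀ t, ‖DP f (IS R) t‖ ≤ C₁ / Real.log R := fun t => hPR f hf R t hR2
  have e3 : ∀ t, ‖PQ χ₃ X Y t‖ ≤ C₂ / Real.log X := fun t => hPQ W χ₃ X Y t (by omega) h.Ylow h.Yup
  have hgM : ∀ t, g t ≤ (C₂ / Real.log X) ^ 2 := fun t =>
    pow_le_pow_left₀ (norm_nonneg _) (e3 t) 2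
  obtain ⟨T₁, T₂, hs1, hs2, hm1, hm2, hint⟩ := unit_points S g ((C₂ / Real.log X) ^ 2) X hms
    hgc.measurable hg0 hgM (fun t ht => ht.2.1)
  have hRB : (R : ℝ) ≤ (Real.log X) ^ (⌈a⌉₊ + 1) := by
    refine h.Rup.trans ?_
    calc (Real.log X) ^ (a + 1) ≤ (Real.log X) ^ ((⌈a⌉₊ + 1 : ℕ) : ℝ) := by
          refine Real.rpow_le_rpow_of_exponent_le (by linarith) ?_
          push_cast
          linarith [Nat.le_ceil a]
      _ = (Real.log X) ^ (⌈a⌉₊ + 1) := Real.rpow_natCast _ _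
  have hT : ∀ T : Finset ℝ, Spaced T → (∀ t ∈ T, t ∈ S) →
      ∑ t ∈ T, g t ≤ δ / (4 * C₁ ^ 2) / (Real.log X) ^ 2 := by
    intro T hsT hmT
    have hcard := hN' X hX2 f hf R h.Rlow hRB T hsT
      (fun t ht => ⟨(hmT t ht).2.1, (hmT t ht).2.2⟩)
    have hcard2 : (#T : ℝ) ≤ (X : ℝ) ^ θ :=
      le_trans hcard (Real.rpow_le_rpow_of_exponent_le hX1R hθ)
    exact hT3' X hX1 χ₃ Y h.Ylow h.Yup T hsT
      (fun t ht => ⟨(hmT t ht).1, (hmT t ht).2.1⟩) hcard2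
  have hi1 : Integrable fun t : ℝ => Real.exp (-(Δ * t) ^ 2) *
      ‖DP f (IS R) t * PQ χ₃ X Y t‖ ^ 2 := by
    have hc1 : Continuous fun t : ℝ => ‖DP f (IS R) t * PQ χ₃ X Y t‖ ^ 2 :=
      ((((X_PR_continuous f R).mul (PQ_continuous χ₃ X Y)).norm).pow 2)
    apply gauss_integrable_of_bounded Δ ((C₁ / Real.log R * (C₂ / Real.log X)) ^ 2) h.Dpos _ hc1
    intro t
    rw [abs_of_nonneg (by positivity), norm_mul]
    apply pow_le_pow_left₀ (by positivity)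
    exact mul_le_mul (e1 t) (e3 t) (norm_nonneg _) (by positivity)
  set κ : ℝ := (C₁ / Real.log R) ^ 2 with hκ
  have hκ0 : 0 ≤ κ := sq_nonneg _
  have hi2 : IntegrableOn (fun t : ℝ => κ * g t) S := by
    have hI : IntegrableOn (fun t : ℝ => κ * g t) (Set.Icc (-(X : ℝ)) X) :=
      (continuous_const.mul hgc).integrableOn_Icc
    apply hI.mono_set
    intro t ht
    exact abs_le.mp ht.2.1
  calc ∫ t in S, Real.exp (-(Δ * t) ^ 2) * ‖DP f (IS R) t * PQ χ₃ X Y t‖ ^ 2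
      ≤ ∫ t in S, κ * g t := by
        apply setIntegral_mono_on hi1.integrableOn hi2 hms
        intro t _
        have hexp : Real.exp (-(Δ * t) ^ 2) ≤ 1 := by
          apply Real.exp_le_one_iff.mpr
          have := sq_nonneg (Δ * t)
          linarith
        rw [norm_mul]
        calc Real.exp (-(Δ * t) ^ 2) * (‖DP f (IS R) t‖ * ‖PQ χ₃ X Y t‖) ^ 2
            ≤ 1 * (‖DP f (IS R) t‖ * ‖PQ χ₃ X Y t‖) ^ 2 :=
              mul_le_mul_of_nonneg_right hexp (sq_nonneg _)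
          _ = ‖DP f (IS R) t‖ ^ 2 * g t := by
              rw [hg]
              ring
          _ ≤ κ * g t := by
              apply mul_le_mul_of_nonneg_right _ (hg0 t)
              exact pow_le_pow_left₀ (norm_nonneg _) (e1 t) 2
    _ = κ * ∫ t in S, g t := integral_const_mul _ _
    _ ≤ κ * (2 * (∑ t ∈ T₁, g t + ∑ t ∈ T₂, g t)) := mul_le_mul_of_nonneg_left hint hκ0
    _ ≤ κ * (2 * (δ / (4 * C₁ ^ 2) / (Real.log X) ^ 2 + δ / (4 * C₁ ^ 2) / (Real.log X) ^ 2)) := by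
        apply mul_le_mul_of_nonneg_left _ hκ0
        have f1 := hT T₁ hs1 hm1
        have f2 := hT T₂ hs2 hm2
        linarith
    _ = δ * (1 / (Real.log R * Real.log X)) ^ 2 := by
        rw [hκ]
        field_simp
        ring

private lemma X_num (L D X : ℝ) (hL : 4 ≤ L) (hX : X = Real.exp L) (hD : 0 < D)
    (hDX : L ≤ D * X) : Real.exp (-((D * X) ^ 2 / 2)) * (3 / D) ≤ 3 / L := by
  have hX0 : 0 < X := by rw [hX]; exact Real.exp_pos _
  have hL0 : 0 < L := by linarith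
  have h1 : 1 / D ≤ Real.exp L := by
    rw [← hX, div_le_iff₀ hD]
    nlinarith
  have h2 : Real.exp (-((D * X) ^ 2 / 2)) ≤ Real.exp (-(L ^ 2 / 2)) := by
    apply Real.exp_le_exp.mpr
    have := pow_le_pow_left₀ hL0.le hDX 2
    linarith
  have h3 : Real.exp (-(L ^ 2 / 2)) * Real.exp L ≤ 1 / L := by
    rw [← Real.exp_add]
    have h4 : -(L ^ 2 / 2) + L ≤ -L := by nlinarith
    have h5 : Real.exp (-L) ≤ 1 / L := by
      rw [Real.exp_neg, ← one_div]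
      apply one_div_le_one_div_of_le hL0
      have := Real.add_one_le_exp L
      linarith
    exact le_trans (Real.exp_le_exp.mpr h4) h5
  calc Real.exp (-((D * X) ^ 2 / 2)) * (3 / D)
      = 3 * (Real.exp (-((D * X) ^ 2 / 2)) * (1 / D)) := by ring
    _ ≤ 3 * (Real.exp (-(L ^ 2 / 2)) * Real.exp L) := by
        apply mul_le_mul_of_nonneg_left _ (by norm_num)
        exact mul_le_mul h2 h1 (by positivity) (Real.exp_pos _).le
    _ ≤ 3 * (1 / L) := mul_le_mul_of_nonneg_left h3 (by norm_num)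
    _ = 3 / L := by ring

/-- the region `|t| > X` -/
theorem X_core_T4 (a δ : ℝ) (ha : 1 ≤ a) (hδ : 0 < δ) :
    ∃ X₀ : ℕ, ∀ X : ℕ, X₀ ≤ X → ∀ (f : ℕ → ℂ), (∀ n, ‖f n‖ ≤ 1) → ∀ (W : ℕ) (χ₃ : DirichletCharacter ℂ W) (R : ℕ) (Y Δ : ℝ),
      CJ a X R Y Δ →
      ∫ t in {t : ℝ | (X : ℝ) < |t|}, Real.exp (-(Δ * t) ^ 2) *
        ‖DP f (IS R) t * PQ χ₃ X Y t‖ ^ 2 ≤ δ * (1 / (Real.log R * Real.log X)) ^ 2 := by
  obtain ⟨C₁, hC₁, hPR⟩ := X_PR_norm_le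
  obtain ⟨C₂, hC₂, hPQ⟩ := PQ_norm_le
  set M : ℝ := (C₁ * C₂) ^ 2 with hM
  have hM0 : 0 < M := by positivity
  obtain ⟨X₁, h1⟩ := CJ_large a 2 (max 8 (3 * M / δ)) ha (by norm_num) (by linarith)
  refine ⟨X₁, fun X hX f hf W χ₃ R Y Δ h => ?_⟩
  obtain ⟨hX64, hLK, hL4, -, hR2, hlR, -⟩ := h1 X hX R Y Δ h
  have hL8 : 8 ≤ Real.log X := le_trans (le_max_left _ _) hLK
  have hLM : 3 * M / δ ≤ Real.log X := le_trans (le_max_right _ _) hLK
  have hX0 : (0 : ℝ) < X := by exact_mod_cast (by omega : 0 < X)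
  have hL0 : 0 < Real.log X := by linarith
  set G : ℝ := (1 / (Real.log R * Real.log X)) ^ 2 with hG
  have hG0 : 0 ≤ G := sq_nonneg _
  have hbd : ∀ t : ℝ, ‖DP f (IS R) t * PQ χ₃ X Y t‖ ^ 2 ≤ M * G := by
    intro t
    have e1 := hPR f hf R t hR2
    have e3 := hPQ W χ₃ X Y t (by omega) h.Ylow h.Yup
    rw [norm_mul]
    calc (‖DP f (IS R) t‖ * ‖PQ χ₃ X Y t‖) ^ 2
        ≤ (C₁ / Real.log R * (C₂ / Real.log X)) ^ 2 := by
          apply pow_le_pow_left₀ (by positivity)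
          exact mul_le_mul e1 e3 (norm_nonneg _) (by positivity)
      _ = M * G := by
          rw [hM, hG]
          field_simp
  have hcont : Continuous fun t : ℝ => ‖DP f (IS R) t * PQ χ₃ X Y t‖ ^ 2 :=
    ((((X_PR_continuous f R).mul (PQ_continuous χ₃ X Y)).norm).pow 2)
  have hint := gauss_integrable_of_bounded Δ (M * G) h.Dpos _ hcont (fun t => by
    rw [abs_of_nonneg (by positivity)]
    exact hbd t)
  have hint2 : Integrable (fun t : ℝ => Real.exp (-(Δ * t) ^ 2) * (M * G)) :=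
    gauss_integrable_of_bounded Δ (M * G) h.Dpos _ continuous_const (fun t => by
      rw [abs_of_nonneg (by positivity)])
  have hms : MeasurableSet {t : ℝ | (X : ℝ) < |t|} :=
    measurableSet_lt measurable_const continuous_abs.measurable
  calc ∫ t in {t : ℝ | (X : ℝ) < |t|}, Real.exp (-(Δ * t) ^ 2) *
        ‖DP f (IS R) t * PQ χ₃ X Y t‖ ^ 2
      ≤ ∫ t in {t : ℝ | (X : ℝ) < |t|}, Real.exp (-(Δ * t) ^ 2) * (M * G) := by
        apply setIntegral_mono_on hint.integrableOn hint2.integrableOn hms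
        intro t _
        exact mul_le_mul_of_nonneg_left (hbd t) (Real.exp_pos _).le
    _ = (∫ t in {t : ℝ | (X : ℝ) < |t|}, Real.exp (-(Δ * t) ^ 2)) * (M * G) :=
        integral_mul_const _ _
    _ ≤ (Real.exp (-((Δ * X) ^ 2 / 2)) * (3 / Δ)) * (M * G) :=
        mul_le_mul_of_nonneg_right (gauss_tail Δ X h.Dpos hX0.le) (by positivity)
    _ ≤ (3 / Real.log X) * (M * G) := by
        apply mul_le_mul_of_nonneg_right _ (by positivity)
        exact X_num (Real.log X) Δ X (by linarith) (Real.exp_log hX0).symm h.Dpos h.DX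
    _ = (3 * M / Real.log X) * G := by ring
    _ ≤ δ * G := by
        apply mul_le_mul_of_nonneg_right _ hG0
        rw [div_le_iff₀ hL0]
        rw [div_le_iff₀ hδ] at hLM
        linarith

private theorem X_union {F : ℝ → ℝ} (hF : Integrable F) (h0 : ∀ t, 0 ≤ F t) {S A B C : Set ℝ}
    (hS : S ⊆ A ∪ B ∪ C) : ∫ t in S, F t ≤
      (∫ t in A, F t) + (∫ t in B, F t) + (∫ t in C, F t) := by
  have h1 : (volume.restrict S : Measure ℝ) ≤ volume.restrict A + volume.restrict B +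
      volume.restrict C := by
    refine (Measure.restrict_mono_set volume hS).trans ?_
    refine (Measure.restrict_union_le _ _).trans (add_le_add_left ?_ _)
    exact Measure.restrict_union_le _ _
  have hA : Integrable F (volume.restrict A) := hF.integrableOn
  have hB : Integrable F (volume.restrict B) := hF.integrableOn
  have hC : Integrable F (volume.restrict C) := hF.integrableOn
  refine (integral_mono_measure h1 (Filter.Eventually.of_forall h0)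
    ((hA.add_measure hB).add_measure hC)).trans (le_of_eq ?_)
  rw [integral_add_measure (hA.add_measure hB) hC, integral_add_measure hA hB]

/-- COREG for all large `a` -/
private theorem coreg_of (θ : ℝ) (hθ : 0 < θ) (hT3 : T3Q θ) :
    ∃ a₀ : ℝ, 3 ≤ a₀ ∧ ∀ a : ℝ, a₀ ≤ a → COREG a := by
  obtain ⟨θ', hθ', hθ'1, hT3'⟩ : ∃ θ' : ℝ, 0 < θ' ∧ θ' ≤ 1 ∧ T3Q θ' :=
    ⟨min θ 1, lt_min hθ one_pos, min_le_right _ _, X_T3Q_min θ hT3⟩
  have h32 : 0 < 32 / θ' := by positivity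
  refine ⟨32 / θ' + 3, by linarith, fun a ha => ?_⟩
  have ha3 : 3 ≤ a := by linarith
  have hα : 0 < θ' / 8 := by positivity
  have hα1 : θ' / 8 ≤ 1 := by linarith
  have haα : 2 ≤ a * (θ' / 8) := by
    have h1 : 32 / θ' * (θ' / 8) = 4 := by
      field_simp
      norm_num
    have h2 : 32 / θ' * (θ' / 8) ≤ a * (θ' / 8) := mul_le_mul_of_nonneg_right (by linarith) hα.le
    linarith
  have h2a : 2 * (θ' / 8) + 2 / a ≤ θ' := by
    have h1 : 2 / a ≤ 2 / (32 / θ') := by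
      apply div_le_div_of_nonneg_left (by norm_num) h32
      linarith
    have h2 : 2 / (32 / θ') = θ' / 16 := by
      field_simp
      norm_num
    linarith
  intro W hW δ hδ
  have hδ4 : 0 < δ / 4 := by positivity
  obtain ⟨X₁, hX₁⟩ := X_core_T1 a (θ' / 8) (δ / 4) (by linarith) hα haα hδ4
  obtain ⟨T₀, hT₀, X₃, hX₃⟩ := X_core_T3 θ' hT3' a (θ' / 8) (δ / 4) (by linarith) hα haα h2a
    hδ4 W hW
  obtain ⟨X₄, hX₄⟩ := X_core_T4 a (δ / 4) (by linarith) hδ4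
  obtain ⟨X₅, hX₅⟩ := CJ_large a (θ' / 8) 2 (by linarith) hα haα
  obtain ⟨C₁, hC₁, hR⟩ := X_PR_norm_le
  obtain ⟨C₂, hC₂, hQ⟩ := PQ_norm_le
  refine ⟨T₀, hT₀, max (max X₁ X₃) (max X₄ X₅), ?_⟩
  intro X hX f χ₃ hf R h1 h2 Y Δ h4 h5 h6 h7 h8 h9
  simp only [max_le_iff] at hX
  have hCJ : CJ a X R Y Δ := ⟨h1, h2, h4, h5, h6, h7, h8, h9⟩
  obtain ⟨hX64, -, hL4, -, hR2, hlR, -⟩ := hX₅ X hX.2.2 R Y Δ hCJ
  have hint : Integrable (fun t : ℝ => Real.exp (-(Δ * t) ^ 2) *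
      ‖DP f (IS R) t * PQ χ₃ X Y t‖ ^ 2) := by
    refine gauss_integrable_of_bounded Δ ((C₁ / Real.log R * (C₂ / Real.log X)) ^ 2) h6
      (fun t => ‖DP f (IS R) t * PQ χ₃ X Y t‖ ^ 2) ?_ ?_
    · exact ((((X_PR_continuous f R).mul (PQ_continuous χ₃ X Y)).norm).pow 2)
    · intro t
      rw [abs_of_nonneg (by positivity)]
      refine pow_le_pow_left₀ (norm_nonneg _) ?_ 2
      rw [norm_mul]
      have e1 := hR f hf R t hR2
      have e3 := hQ W χ₃ X Y t (by omega) h4 h5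
      exact mul_le_mul e1 e3 (norm_nonneg _) ((norm_nonneg _).trans e1)
  have hnn : ∀ t : ℝ, 0 ≤ Real.exp (-(Δ * t) ^ 2) * ‖DP f (IS R) t * PQ χ₃ X Y t‖ ^ 2 :=
    fun t => by positivity
  have hcov : {t : ℝ | T₀ ≤ |t|} ⊆ {t : ℝ | ‖DP f (IS R) t‖ ≤ (R : ℝ) ^ (-(θ' / 8))} ∪
      {t : ℝ | T₀ ≤ |t| ∧ |t| ≤ X ∧ (R : ℝ) ^ (-(θ' / 8)) ≤ ‖DP f (IS R) t‖} ∪ {t : ℝ | (X : ℝ) < |t|} := by
    intro t ht
    by_cases hc4 : (X : ℝ) < |t|
    · exact Or.inr hc4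
    · left
      by_cases hc1 : ‖DP f (IS R) t‖ ≤ (R : ℝ) ^ (-(θ' / 8))
      · exact Or.inl hc1
      · exact Or.inr ⟨ht, not_lt.1 hc4, le_of_lt (not_le.1 hc1)⟩
  have hmain := X_union hint hnn hcov
  have b1 := hX₁ X hX.1.1 f hf W χ₃ R Y Δ hCJ
  have b3 := hX₃ X hX.1.2 f hf χ₃ R Y Δ hCJ
  have b4 := hX₄ X hX.2.1 f hf W χ₃ R Y Δ hCJ
  have hG0 : 0 ≤ (1 / (Real.log R * Real.log X)) ^ 2 := sq_nonneg _
  refine hmain.trans ?_
  nlinarith

/-- COREG for all large `a` -/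
theorem coreg : ∃ a₀ : ℝ, 3 ≤ a₀ ∧ ∀ a : ℝ, a₀ ≤ a → COREG a := by
  obtain ⟨θ, hθ, -, h⟩ := t3q
  exact coreg_of θ hθ h

end Pool.Agent.Lib.MP_bae66e_nt.EF
end

section

/-!
# Row W3: the asymptotic formula in almost all short intervals
-/

set_option autoImplicit false

namespace Pool.Agent.Lib.MP_bae66e_nt.EF

open Finset MeasureTheory Real
open Pool.Agent.E3
open Pool.Agent.Lib.MP_bae66e_nt.E2 (YR FR PH)
open Pool.Agent.Lib.MP_bae66e_nt.LL (fP gW)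
open Pool.Agent.Lib.MP_bae66e_nt.AC (Sg VV)
open Pool.Agent.Lib.MP_bae66e_nt.AP3 (prI mem_prI)

private lemma W3_one_le {R X : ℕ} {p : ℕ × ℕ} (hp : p ∈ IS R ×ˢ QS X) : 1 ≤ p.1 * p.2 := by
  rw [Finset.mem_product] at hp
  obtain ⟨h1, h2⟩ := hp
  have h3 : 0 < p.1 := (mem_prI.mp h1).2.pos
  have h4 : 0 < p.2 := (mem_prI.mp h2).2.pos
  exact Nat.mul_pos h3 h4

private lemma W3_gA {W : ℕ} (χ : DirichletCharacter ℂ W) (α : ℕ → ℝ) (hα : Wt α) (n : ℕ) : ‖gA χ α n‖ ≤ 1 := by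
  unfold gA
  rw [norm_mul, Complex.norm_real, Real.norm_of_nonneg (hα n).1]
  exact mul_le_one₀ (hα n).2 (norm_nonneg _) (ch_norm_le χ n)

private lemma W3_sum (α : ℕ → ℝ) (W v R X : ℕ) (d x : ℝ) :
    ∑ p ∈ (IS R ×ˢ QS X).filter (fun p => p.1 * p.2 ≡ v [MOD W]),
      α p.1 * om (YR R X) p.2 / ((p.1 * p.2 : ℕ) : ℝ) * gsn d (x - Real.log ((p.1 * p.2 : ℕ) : ℝ)) =
      XVA α W v R X d x := by
  unfold XVA
  rw [Finset.sum_filter, Finset.sum_product]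
  refine sum_congr rfl fun s _ => ?_
  rw [Finset.sum_filter]
  refine sum_congr rfl fun q _ => ?_
  simp only [Nat.cast_mul]
  split_ifs
  · ring
  · rfl

private lemma W3_num (C φ ε δ s ε' K C₂ C₃ F H X : ℝ) (hC : 0 < C) (hφ : 0 < φ) (hε : 0 < ε) (hδ : 0 < δ)
    (hF : 0 < F) (hH : 0 < H) (hX : 0 < X) (hK : 0 < K)
    (hs : C * φ * s ≤ ε * δ / 5) (hε' : C * (2 * ε') ≤ ε * δ / 5) (h3 : 5 * C * φ * C₃ ≤ ε * δ * K)
    (h2 : 5 * C * φ * C₂ * H ≤ ε * δ * X) (h2' : 5 * C * φ * C₂ ≤ ε * δ * H) :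
    C * (X / (ε * F / φ)) * ((s * F + 2 * (ε' * F / φ)) + C₂ * F * H / X + C₃ * F / K + C₂ * F / H) ≤ δ * X := by
  have e : C * (X / (ε * F / φ)) * ((s * F + 2 * (ε' * F / φ)) + C₂ * F * H / X + C₃ * F / K + C₂ * F / H) =
      (X / ε) * (C * φ * s + C * (2 * ε') + C * φ * C₂ * H / X + C * φ * C₃ / K + C * φ * C₂ / H) := by
    field_simp
  have f1 : C * φ * C₂ * H / X ≤ ε * δ / 5 := by
    rw [div_le_iff₀ hX]
    linarith
  have f2 : C * φ * C₃ / K ≤ ε * δ / 5 := by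
    rw [div_le_iff₀ hK]
    linarith
  have f3 : C * φ * C₂ / H ≤ ε * δ / 5 := by
    rw [div_le_iff₀ hH]
    linarith
  rw [e]
  calc (X / ε) * (C * φ * s + C * (2 * ε') + C * φ * C₂ * H / X + C * φ * C₃ / K + C * φ * C₂ / H)
      ≤ (X / ε) * (ε * δ) := by
        refine mul_le_mul_of_nonneg_left ?_ (by positivity)
        linarith
    _ = δ * X := by
        field_simp

private lemma W3_l1 (T L : ℝ) (hL : 0 < L) (hT : 1 ≤ T) (h : 1 / L ≤ T) : 1 / T ^ 2 ≤ L := by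
  have h1 : 1 / L ≤ T ^ 2 := by nlinarith
  rw [div_le_iff₀ (by positivity)]
  rw [div_le_iff₀ hL] at h1
  linarith

private lemma W3_par (R H X K T K₀ L : ℝ) (hR : 3 ≤ R) (hX : 0 < X) (hH : H = 2 * R ^ 2) (hK : 1 ≤ K) (hT : 1 ≤ T)
    (hK₀ : K + T ^ 2 ≤ K₀) (h1 : K₀ * H ^ 2 ≤ X) (h2 : K₀ ≤ R) (hL : 1 ≤ L) (h3 : L ^ 2 ≤ R) :
    R ≤ H ∧ K₀ * H ≤ X ∧ H / (K * X) ≤ 1 / T ^ 2 ∧ H / (K * X) ≤ X ^ (-(1 / 2) : ℝ) ∧
      1 ≤ H / (K * X) * (X / R) ∧ L ≤ H / (K * X) * X := by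
  have hR0 : 0 < R := by linarith
  have hK0 : 0 < K := by linarith
  have hHR : R ≤ H := by
    rw [hH]
    nlinarith
  have hH0 : 0 < H := by linarith
  have hK₀0 : 0 ≤ K₀ := by nlinarith
  have hHH : H ≤ H ^ 2 := by nlinarith
  have h4 : K₀ * H ≤ X := (mul_le_mul_of_nonneg_left hHH hK₀0).trans h1
  have hKK : K ≤ K₀ := by nlinarith
  have hTK : T ^ 2 ≤ K₀ := by linarith
  refine ⟨hHR, h4, ?_, ?_, ?_, ?_⟩
  · rw [div_le_div_iff₀ (by positivity) (by positivity)]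
    have h5 : T ^ 2 * H ≤ X := (mul_le_mul_of_nonneg_right hTK hH0.le).trans h4
    have h6 : 1 * X ≤ K * X := mul_le_mul_of_nonneg_right hK hX.le
    linarith
  · have hneg : X ^ (-(1 / 2) : ℝ) = X ^ (1 / 2 : ℝ) / X := by
      rw [eq_div_iff hX.ne']
      nth_rewrite 2 [← Real.rpow_one X]
      rw [← Real.rpow_add hX]
      norm_num
    have h5 : H ≤ X ^ (1 / 2 : ℝ) := by
      rw [← Real.sqrt_eq_rpow]
      refine Real.le_sqrt_of_sq_le ?_
      have h6 : 1 * H ^ 2 ≤ K₀ * H ^ 2 := mul_le_mul_of_nonneg_right (by linarith) (sq_nonneg _)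
      linarith
    have h6 : 0 ≤ X ^ (1 / 2 : ℝ) := hH0.le.trans h5
    rw [hneg, div_le_div_iff₀ (by positivity) hX]
    have h7 : H ≤ X ^ (1 / 2 : ℝ) * K := h5.trans (le_mul_of_one_le_right h6 hK)
    calc H * X ≤ (X ^ (1 / 2 : ℝ) * K) * X := mul_le_mul_of_nonneg_right h7 hX.le
      _ = _ := by ring
  · have h5 : H / (K * X) * (X / R) = 2 * R / K := by
      rw [hH]
      field_simp
    rw [h5, le_div_iff₀ hK0]
    linarith
  · have h5 : H / (K * X) * X = 2 * R ^ 2 / K := by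
      rw [hH]
      field_simp
    rw [h5, le_div_iff₀ hK0]
    have h6 : L ≤ R := by nlinarith
    have h7 : K ≤ R := by linarith
    have h8 : L * K ≤ R * R := mul_le_mul h6 h7 hK0.le hR0.le
    nlinarith

/-- PROOF. As `wine_of` (E2/W3) with `win_two` (row S2) in place of `win_to_m`. `P` = the `(s, q) ∈ IS R ×ˢ QS X` with `s q ≡ v`, `n = s q`, `u = α s om q`; `M = C FR` (`mass_a`), `M' = C FR` (`mass_u`),
`B x = √(2π)/(φ(W) log X) AA x`, `B₁ = 3 C FR/φ(W)` (`AA_bd`), `θ = ε FR/φ(W)`, `E x = |XVA d x - XVA l x| + ε' FR/φ(W)`, `d = H/(K X)`, `l = 1/T²`; `ε' = ε δ/(10 C₀)` with `C₀` the constant of `win_two`,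
`L₀` from `LONGA` for `W, ε'`, `K` large, `η` small in terms of `W, ε, δ`; `T₀` from `COREG` for `W, η`; `T = max (T₀, C/η, 1/L₀)` so that `l ≤ L₀`; `char_window_a`, `class_window_a` (with `y = log X`), `parA`; `gA χ α` has modulus at most `1`.
`PX a R X` gives `(log X)^(a - 1/2) ≤ R ≤ (log X)^(a - 1/2 + 1)`. -/
theorem winf_of (a : ℝ) (ha : 3 ≤ a) (hC : COREG (a - 1 / 2)) : WINF a := by
  obtain ⟨C, hC1, hwin⟩ := win_two
  obtain ⟨C', hC'1, hchar⟩ := char_window_a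
  obtain ⟨C₁, hC₁, hAA⟩ := AA_bd
  obtain ⟨C₂, hC₂, hma⟩ := mass_a
  obtain ⟨C₃, hC₃, hmu⟩ := mass_u
  intro W hW ε δ hε hδ
  have hφ : (0 : ℝ) < (Nat.totient W : ℝ) := by exact_mod_cast Nat.totient_pos.2 hW
  have hC0 : 0 < C := by linarith
  have hC'0 : 0 < C' := by linarith
  have hC₁0 : 0 < C₁ := by linarith
  have hC₂0 : 0 < C₂ := by linarith
  have hC₃0 : 0 < C₃ := by linarith
  -- the constants
  set s : ℝ := δ * ε / (5 * C * (Nat.totient W : ℝ)) with hs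
  have hs0 : 0 < s := by positivity
  have hs1 : C * (Nat.totient W : ℝ) * s ≤ ε * δ / 5 := by
    rw [hs]
    refine le_of_eq ?_
    field_simp
  set η : ℝ := s ^ 2 / 2 with hη
  have hη0 : 0 < η := by positivity
  have hsη : Real.sqrt (2 * η) = s := by
    rw [hη, show 2 * (s ^ 2 / 2) = s ^ 2 by ring, Real.sqrt_sq hs0.le]
  set ε' : ℝ := δ * ε / (10 * C) with hε'
  have hε'0 : 0 < ε' := by positivity
  have hε'1 : C * (2 * ε') ≤ ε * δ / 5 := by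
    rw [hε']
    refine le_of_eq ?_
    field_simp
    norm_num
  have hc3 : 0 ≤ 5 * C * (Nat.totient W : ℝ) * C₃ / (ε * δ) := by positivity
  set K : ℝ := 1 + 5 * C * (Nat.totient W : ℝ) * C₃ / (ε * δ) with hK
  have hK1 : 1 ≤ K := by linarith
  have hK0 : 0 < K := by linarith
  have hK3 : 5 * C * (Nat.totient W : ℝ) * C₃ ≤ ε * δ * K := by
    have h1 : 5 * C * (Nat.totient W : ℝ) * C₃ / (ε * δ) ≤ K := by linarith
    rw [div_le_iff₀ (by positivity)] at h1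
    linarith
  obtain ⟨L₀, hL₀, hlong0⟩ := long_a a ha W hW ε' hε'0
  obtain ⟨T₀, hT₀, X₁, hcore⟩ := hC W hW (η / 2) (by positivity)
  set T : ℝ := max (max T₀ (2 * C' / η)) (1 / L₀) with hT
  have hT1 : T₀ ≤ T := (le_max_left _ _).trans (le_max_left _ _)
  have hT2 : 2 * C' / η ≤ T := (le_max_right _ _).trans (le_max_left _ _)
  have hT3 : 1 / L₀ ≤ T := le_max_right _ _
  have hT4 : 1 ≤ T := hT₀.trans hT1
  have hT0 : 0 < T := by linarith
  have hl0 : 0 < 1 / T ^ 2 := by positivity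
  have hlL : 1 / T ^ 2 ≤ L₀ := W3_l1 T L₀ hL₀ hT4 hT3
  obtain ⟨X₂, hlong⟩ := hlong0 (1 / T ^ 2) hl0 hlL
  have hk1 : 0 ≤ T ^ 2 := by positivity
  have hk2 : 0 ≤ 18 * C₁ / ε := by positivity
  have hk3 : 0 ≤ 5 * C * (Nat.totient W : ℝ) * C₂ / (ε * δ) := by positivity
  set K₀ : ℝ := K + T ^ 2 + 18 * C₁ / ε + 5 * C * (Nat.totient W : ℝ) * C₂ / (ε * δ) with hK₀
  obtain ⟨X₃, hpar⟩ := parA a K₀ 1 ha one_pos
  refine ⟨max (max X₁ X₂) X₃, fun X hX R hPX α hα v hv => ?_⟩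
  have hX1 : X₁ ≤ X := (le_max_left _ _).trans ((le_max_left _ _).trans hX)
  have hX2 : X₂ ≤ X := (le_max_right _ _).trans ((le_max_left _ _).trans hX)
  have hX3 : X₃ ≤ X := (le_max_right _ _).trans hX
  obtain ⟨p1, p2, p3, p4, p5, p6, p7, p8, p9, p10, p11, p12, p13, p14, p15, p16, p17, p18, p19, p20⟩ :=
    hpar X hX3 R hPX
  set F : ℝ := FR R X with hF
  have hX0 : (0 : ℝ) < X := by exact_mod_cast (by omega : 0 < X)
  have hR3 : (3 : ℝ) ≤ R := by exact_mod_cast p6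
  have hR0 : (0 : ℝ) < R := by linarith
  have hHr : (HR R : ℝ) = 2 * (R : ℝ) ^ 2 := by
    unfold HR
    push_cast
    ring
  set H : ℕ := HR R with hH
  have hK₀K : K + T ^ 2 ≤ K₀ := by linarith
  obtain ⟨hHR, hK₀H, hdT, hdX, hdY, hdL⟩ := W3_par R H X K T K₀ (Real.log X) hR3 hX0 hHr hK1 hT4 hK₀K p12 p5
    (by linarith) p4
  have hH0 : (0 : ℝ) < H := by linarith
  have hH1r : (1 : ℝ) ≤ H := by linarith
  have hH1 : 1 ≤ H := by exact_mod_cast hH1r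
  have hlX0 : 0 < Real.log X := by linarith
  have hlR0 : 0 < Real.log R := by linarith
  set d : ℝ := (H : ℝ) / (K * X) with hd
  have hd0 : 0 < d := by positivity
  have hχ : ∀ χ : DirichletCharacter ℂ W,
      ∫ x : ℝ, ‖XXA χ α R X d x - XXA χ α R X (1 / T ^ 2) x‖ ^ 2 ≤ η * F ^ 2 := by
    intro χ
    have hup : (R : ℝ) ≤ (Real.log X) ^ (a - 1 / 2 + 1) := by
      have h1 : a - 1 / 2 + 1 = a + 1 / 2 := by ring
      rw [h1]
      exact hPX.up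
    have h1 := hcore X hX1 (gA χ α) χ (W3_gA χ α hα) R hPX.lo hup (YR R X) d p15 p16 hd0 hdX hdY hdL
    have h2 := hchar R X p18 α hα W χ T₀ T d (η / 2) hT4 hT1 hd0 hdT h1
    refine h2.trans (mul_le_mul_of_nonneg_right ?_ (by positivity))
    have h3 : C' / T ≤ η / 2 := by
      rw [div_le_iff₀ hη0] at hT2
      rw [div_le_iff₀ hT0]
      linarith
    linarith
  obtain ⟨hEi, hEη⟩ := class_window_a α W v hW hv R X d (1 / T ^ 2) (η * F ^ 2) (Real.log X) hd0 hl0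
    (fun χ => (XXA_planch χ α R X d (1 / T ^ 2) hd0 hl0).1) hχ
  have hsq : Real.sqrt (2 * (η * F ^ 2)) = s * F := by
    rw [← mul_assoc, Real.sqrt_mul (by positivity), Real.sqrt_sq p17.le, hsη]
  rw [hsq] at hEη
  set c : ℝ := ε' * F / Nat.totient W with hc
  have hc0 : 0 ≤ c := by positivity
  set B : ℝ → ℝ := fun x => Real.sqrt (2 * π) / (Nat.totient W * Real.log X) * AA α R X x with hB
  have hlongx : ∀ x : ℝ, |x - Real.log X| ≤ 1 → |XVA α W v R X (1 / T ^ 2) x - B x| ≤ c :=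
    fun x hx => hlong X hX2 R hPX α hα v hv x hx
  set E : ℝ → ℝ := fun x => |XVA α W v R X d x - XVA α W v R X (1 / T ^ 2) x| + c with hE
  have hcI : IntegrableOn (fun _ : ℝ => c) (Set.Icc (Real.log X - 1) (Real.log X + 1)) :=
    integrableOn_const (by simp)
  have hEint : ∫ x in Set.Icc (Real.log X - 1) (Real.log X + 1), E x ≤ s * F + 2 * c := by
    have e1 : ∫ x in Set.Icc (Real.log X - 1) (Real.log X + 1), E x =
        (∫ x in Set.Icc (Real.log X - 1) (Real.log X + 1),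
          |XVA α W v R X d x - XVA α W v R X (1 / T ^ 2) x|) +
        ∫ _x in Set.Icc (Real.log X - 1) (Real.log X + 1), c := integral_add hEi hcI
    have e2 : ∫ _x in Set.Icc (Real.log X - 1) (Real.log X + 1), c = 2 * c := by
      rw [setIntegral_const, Real.volume_real_Icc_of_le (by linarith), smul_eq_mul]
      ring
    rw [e1, e2]
    linarith
  -- the bounds of `B`
  obtain ⟨hAA1, hAA2⟩ := hAA R X α (by omega) hα
  set κ : ℝ := Real.sqrt (2 * π) / (Nat.totient W * Real.log X) with hκ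
  have hκ0 : 0 ≤ κ := by positivity
  set B₁ : ℝ := 3 * C₁ * F / Nat.totient W with hB₁
  have hB₁0 : 0 ≤ B₁ := by positivity
  have hπ : Real.sqrt (2 * π) ≤ 3 := by
    rw [Real.sqrt_le_left (by norm_num)]
    have := Real.pi_lt_four
    linarith
  have hκB : κ * (C₁ / Real.log R) ≤ B₁ := by
    have e1 : κ * (C₁ / Real.log R) = Real.sqrt (2 * π) * (C₁ * F / Nat.totient W) := by
      rw [hκ, hF]
      unfold FR
      field_simp
    have e2 : B₁ = 3 * (C₁ * F / Nat.totient W) := by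
      rw [hB₁]
      ring
    rw [e1, e2]
    exact mul_le_mul_of_nonneg_right hπ (by positivity)
  have hBbd : ∀ x, 0 ≤ B x ∧ B x ≤ B₁ := by
    intro x
    refine ⟨mul_nonneg hκ0 (hAA1 x).1, ?_⟩
    exact (mul_le_mul_of_nonneg_left (hAA1 x).2 hκ0).trans hκB
  have hBlip : ∀ x y, |B x - B y| ≤ B₁ * |x - y| := by
    intro x y
    have e1 : B x - B y = κ * (AA α R X x - AA α R X y) := by
      simp only [hB]
      ring
    rw [e1, abs_mul, abs_of_nonneg hκ0]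
    calc κ * |AA α R X x - AA α R X y| ≤ κ * (C₁ / Real.log R * |x - y|) :=
          mul_le_mul_of_nonneg_left (hAA2 x y) hκ0
      _ = κ * (C₁ / Real.log R) * |x - y| := by ring
      _ ≤ B₁ * |x - y| := mul_le_mul_of_nonneg_right hκB (abs_nonneg _)
  set θ : ℝ := ε * F / Nat.totient W with hθ
  have hθ0 : 0 < θ := by positivity
  have h6 : 6 * B₁ * H ≤ θ * X := by
    have e1 : 6 * B₁ * H = (18 * C₁ * H) * (F / Nat.totient W) := by
      rw [hB₁]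
      ring
    have e2 : θ * X = (ε * X) * (F / Nat.totient W) := by
      rw [hθ]
      ring
    rw [e1, e2]
    refine mul_le_mul_of_nonneg_right ?_ (by positivity)
    have h1 : 18 * C₁ / ε * H ≤ X := by
      refine le_trans ?_ hK₀H
      exact mul_le_mul_of_nonneg_right (by linarith) hH0.le
    rw [div_mul_eq_mul_div, div_le_iff₀ hε] at h1
    linarith
  -- the masses
  have hM : ∑ p ∈ (IS R ×ˢ QS X).filter (fun p => p.1 * p.2 ≡ v [MOD W]),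
      α p.1 * om (YR R X) p.2 / ((p.1 * p.2 : ℕ) : ℝ) ≤ C₂ * F := by
    refine le_trans (Finset.sum_le_sum_of_subset_of_nonneg (Finset.filter_subset _ _) fun p _ _ => ?_) ?_
    · exact div_nonneg (mul_nonneg (hα _).1 (Real.exp_pos _).le) (Nat.cast_nonneg _)
    · rw [Finset.sum_product]
      simp only [Nat.cast_mul]
      exact hma R X α p18 hα
  have hM' : ∑ p ∈ (IS R ×ˢ QS X).filter (fun p => p.1 * p.2 ≡ v [MOD W]),
      α p.1 * om (YR R X) p.2 ≤ C₃ * F * X := by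
    refine le_trans (Finset.sum_le_sum_of_subset_of_nonneg (Finset.filter_subset _ _) fun p _ _ => ?_) ?_
    · exact mul_nonneg (hα _).1 (Real.exp_pos _).le
    · rw [Finset.sum_product]
      exact hmu R X α p18 (by omega) p16 hα
  have key := hwin (ℕ × ℕ) ((IS R ×ˢ QS X).filter (fun p => p.1 * p.2 ≡ v [MOD W]))
    (fun p => p.1 * p.2) (fun p => α p.1 * om (YR R X) p.2) H X K B₁ (s * F + 2 * c) (C₂ * F) (C₃ * F) θ
    B E (fun p hp => W3_one_le (Finset.mem_filter.1 hp).1)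
    (fun p _ => mul_nonneg (hα _).1 (Real.exp_pos _).le) hH1 p13 hK1 hθ0 hB₁0
    (fun x => add_nonneg (abs_nonneg _) hc0) (hEi.add hcI) hEint hM hM' hBbd hBlip h6 ?_
  · refine le_trans ?_ (le_trans key ?_)
    · refine Nat.cast_le.2 (Finset.card_le_card fun m hm => ?_)
      rw [Finset.mem_filter] at hm ⊢
      refine ⟨hm.1, ?_⟩
      have h2 := hm.2
      rw [sum_fA] at h2
      have h3 : ε * (H * F) / Nat.totient W = θ * H := by
        rw [hθ]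
        ring
      have h4 : (H : ℝ) / (Nat.totient W * Real.log X) * AA α R X (Real.log m) =
          H / Real.sqrt (2 * π) * B (Real.log m) := by
        simp only [hB, hκ]
        have hpi : Real.sqrt (2 * π) ≠ 0 := by positivity
        field_simp
      rw [h3, h4] at h2
      exact h2
    · have h5 : 5 * C * (Nat.totient W : ℝ) * C₂ * H ≤ ε * δ * X := by
        have h1 : 5 * C * (Nat.totient W : ℝ) * C₂ / (ε * δ) * H ≤ X := by
          refine le_trans ?_ hK₀H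
          exact mul_le_mul_of_nonneg_right (by linarith) hH0.le
        rw [div_mul_eq_mul_div, div_le_iff₀ (by positivity)] at h1
        linarith
      have h5' : 5 * C * (Nat.totient W : ℝ) * C₂ ≤ ε * δ * H := by
        have h1 : 5 * C * (Nat.totient W : ℝ) * C₂ / (ε * δ) ≤ H := by linarith
        rw [div_le_iff₀ (by positivity)] at h1
        linarith
      exact W3_num C (Nat.totient W) ε δ s ε' K C₂ C₃ F H X hC0 hφ hε hδ p17 hH0 hX0 hK0 hs1 hε'1 hK3 h5 h5'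
  · intro x hx
    have h1 : |x - Real.log X| ≤ 1 := by
      rw [abs_le]
      constructor
      · linarith [hx.1]
      · linarith [hx.2]
    have h4 := W3_sum α W v R X d x
    rw [h4]
    calc |XVA α W v R X d x - B x|
        = |(XVA α W v R X d x - XVA α W v R X (1 / T ^ 2) x) + (XVA α W v R X (1 / T ^ 2) x - B x)| := by
          congr 1
          ring
      _ ≤ |XVA α W v R X d x - XVA α W v R X (1 / T ^ 2) x| + |XVA α W v R X (1 / T ^ 2) x - B x| :=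
          abs_add_le _ _
      _ ≤ _ := add_le_add le_rfl (hlongx x h1)

end Pool.Agent.Lib.MP_bae66e_nt.EF
end
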