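import Pool.Agent.Lib.MP_bae66e_nt.Mg.G100
import Pool.Agent.Lib.MP_bae66e_nt.AC.RowJ
import Pool.Agent.Lib.MP_bae66e_nt.Mg.G030
import Pool.Agent.Lib.MP_bae66e_nt.Mg.G101
import Pool.Agent.Lib.MP_bae66e_nt.Mg.G108
import Pool.Agent.Lib.MP_bae66e_nt.Mg.G104
import Pool.Agent.Lib.MP_bae66e_nt.Mg.G102
import Pool.Agent.Lib.MP_bae66e_nt.Mg.G107
import Pool.Agent.Lib.MP_bae66e_nt.Mg.G125

section

/-!
# Row JK: the first moment (port of AC/RowJ and EF/J1, J2)
-/

set_option autoImplicit false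

namespace Pool.Agent.Lib.MP_bae66e_nt.MF

open Finset MeasureTheory Real
open Pool.Agent.E3
open Pool.Agent.Lib.MP_bae66e_nt.EF (PX Wt HR gA COREG)
open Pool.Agent.Lib.MP_bae66e_nt.LL (fP gW)
open Pool.Agent.Lib.MP_bae66e_nt.AC (Sg VV)
open Pool.Agent.Lib.MP_bae66e_nt.AP3 (prI mem_prI)

/-- `s (m - v)` and `s m - q` are coprime to `W` together, for `q ≡ s v` -/
private theorem JK_coprime {W : ℕ} {m q s v : ℕ} (hs : Nat.Coprime s W) (h : q ≡ s * v [MOD W]) :
    IsCoprime ((m : ℤ) - (v : ℤ)) (W : ℤ) ↔ IsCoprime (((s * m : ℕ) : ℤ) - (q : ℤ)) (W : ℤ) := by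
  have h1 : ((s * v : ℕ) : ℤ) ≡ q [ZMOD W] := ((Int.natCast_modEq_iff).2 h).symm
  obtain ⟨k, hk⟩ := (Int.modEq_iff_dvd).1 h1
  have h2 : ((s * m : ℕ) : ℤ) - (q : ℤ) = (s : ℤ) * ((m : ℤ) - (v : ℤ)) + (W : ℤ) * (-k) := by
    push_cast at hk ⊢
    linarith
  rw [h2, IsCoprime.add_mul_left_left_iff]
  have h3 : IsCoprime (s : ℤ) (W : ℤ) := (Nat.isCoprime_iff_coprime).2 hs
  exact ⟨fun h => h3.mul_left h, fun h => h.of_mul_left_right⟩

/-- a prime above `w` is coprime to the primorial of `w` -/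
private theorem JK_prime (w q : ℕ) (hq : q.Prime) (hw : w < q) : Nat.Coprime q (primorial w) := by
  unfold primorial
  refine Nat.Coprime.prod_right fun p hp => ?_
  rw [Finset.mem_filter, Finset.mem_range] at hp
  refine (Nat.coprime_primes hq hp.2).2 ?_
  omega

/-- PROOF. See `model_lower_Sg` (AC/RowJ) and `model_eq` (EF/J1): `t = s m - q`, `t` is coprime to `W` iff `m - v` is, for `q ≡ s v` (`s` coprime to `W`); a prime `q` in the interval is coprime to `W` as `q > w`. -/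
theorem model_k (w R m s : ℕ) (hw : 2 ≤ w) (hs : s ∈ IS R) (hwR : w < R) (hH : HR R + w < m) :
    ∑ t ∈ Icc 1 (HR R), gW (primorial w) (HR R) (t : ℤ) * (if (s * m - t).Prime then (1 : ℝ) else 0) =
      (primorial w : ℝ) / Nat.totient (primorial w) * ∑ v ∈ VV (primorial w) m,
        (#{q ∈ Ico (s * m - HR R) (s * m) | q.Prime ∧ q ≡ s * v [MOD primorial w]} : ℝ) := by
  classical
  have hsp : s.Prime ∧ R < s := by
    rw [IS, mem_prI] at hs
    exact ⟨hs.2, hs.1.1⟩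
  have hs1 : 1 ≤ s := hsp.1.one_lt.le
  have hsW : Nat.Coprime s (primorial w) := JK_prime w s hsp.1 (by omega)
  have hq0 : ∀ q ∈ Ico (s * m - HR R) (s * m), q.Prime → Nat.Coprime q (primorial w) := by
    intro q hq hqp
    rw [Finset.mem_Ico] at hq
    have h1 : m ≤ s * m := Nat.le_mul_of_pos_left m hs1
    exact JK_prime w q hqp (by omega)
  have hHs : HR R ≤ s * m := by
    have h1 : m ≤ s * m := Nat.le_mul_of_pos_left m hs1
    omega
  have hWpos : 0 < primorial w := primorial_pos w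
  obtain ⟨W, hW⟩ : ∃ W, W = primorial w := ⟨_, rfl⟩
  obtain ⟨H, hHd⟩ : ∃ H, H = HR R := ⟨_, rfl⟩
  rw [← hW] at hsW hq0 hWpos ⊢
  rw [← hHd] at hq0 hHs ⊢
  have hsub : ∑ t ∈ Icc 1 H, gW W H (t : ℤ) * (if (s * m - t).Prime then (1 : ℝ) else 0) =
      ∑ q ∈ Ico (s * m - H) (s * m), Pool.Agent.Lib.MP_bae66e_nt.LL.nu W (((s * m : ℕ) : ℤ) - (q : ℤ)) *
        (if q.Prime then (1 : ℝ) else 0) := by
    refine Finset.sum_bij' (fun t _ => s * m - t) (fun n _ => s * m - n) ?_ ?_ ?_ ?_ ?_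
    · intro t ht
      rw [Finset.mem_Icc] at ht
      rw [Finset.mem_Ico]
      omega
    · intro n hn
      rw [Finset.mem_Ico] at hn
      rw [Finset.mem_Icc]
      omega
    · intro t ht
      rw [Finset.mem_Icc] at ht
      omega
    · intro n hn
      rw [Finset.mem_Ico] at hn
      omega
    · intro t ht
      rw [Finset.mem_Icc] at ht
      have h1 : ((s * m : ℕ) : ℤ) - ((s * m - t : ℕ) : ℤ) = t := by
        rw [Nat.cast_sub (by omega : t ≤ s * m)]
        ring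
      rw [h1]
      unfold gW
      rw [if_pos ⟨by exact_mod_cast ht.1, by exact_mod_cast ht.2⟩]
  rw [hsub]
  have hcard : ∀ v : ℕ, (#{q ∈ Ico (s * m - H) (s * m) | q.Prime ∧ q ≡ s * v [MOD W]} : ℝ) =
      ∑ q ∈ Ico (s * m - H) (s * m), if (q.Prime ∧ q ≡ s * v [MOD W]) then (1 : ℝ) else 0 := by
    intro v
    rw [← Finset.sum_filter, Finset.sum_const, nsmul_eq_mul, mul_one]
  simp only [hcard]
  rw [Finset.sum_comm, Finset.mul_sum]
  refine Finset.sum_congr rfl fun q hqI => ?_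
  by_cases hq : q.Prime
  · rw [if_pos hq, mul_one]
    have hqW := hq0 q hqI hq
    -- the class of `q / s`
    obtain ⟨v, hvW, hqv⟩ : ∃ v : ℕ, v < W ∧ q ≡ s * v [MOD W] := by
      obtain ⟨u, hu1, hu2⟩ := Nat.exists_mul_mod_eq_of_coprime q hsW hWpos.ne'
      exact ⟨u, hu1, Eq.symm hu2⟩
    have hvc : Nat.Coprime v W := by
      have h1 : Nat.gcd q W = Nat.gcd (s * v) W := hqv.gcd_eq
      have h2 : Nat.Coprime (s * v) W := by
        rw [Nat.Coprime, ← h1]
        exact hqW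
      exact h2.coprime_mul_left
    have huniq : ∀ v' ∈ VV W m, v' ≠ v → ¬ (q ≡ s * v' [MOD W]) := by
      intro v' hv' hne h
      apply hne
      have h1 : s * v' ≡ s * v [MOD W] := h.symm.trans hqv
      have h2 : v' ≡ v [MOD W] :=
        Nat.ModEq.cancel_left_of_coprime (by rw [Nat.gcd_comm]; exact hsW) h1
      unfold VV at hv'
      rw [Finset.mem_filter, Finset.mem_range] at hv'
      exact Nat.ModEq.eq_of_lt_of_lt h2 hv'.1 hvW
    by_cases hc : IsCoprime (((s * m : ℕ) : ℤ) - (q : ℤ)) (W : ℤ)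
    · have hvV : v ∈ VV W m := by
        unfold VV
        rw [Finset.mem_filter, Finset.mem_range]
        exact ⟨hvW, hvc, (JK_coprime hsW hqv).2 hc⟩
      rw [Finset.sum_eq_single v]
      · rw [if_pos ⟨hq, hqv⟩, mul_one]
        unfold Pool.Agent.Lib.MP_bae66e_nt.LL.nu
        rw [if_pos hc]
      · intro v' hv' hne
        rw [if_neg (fun h => huniq v' hv' hne h.2)]
      · intro h
        exact absurd hvV h
    · rw [Finset.sum_eq_zero]
      · unfold Pool.Agent.Lib.MP_bae66e_nt.LL.nu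
        rw [if_neg hc, mul_zero]
      · intro v' hv'
        rw [if_neg]
        rintro ⟨-, h⟩
        apply hc
        unfold VV at hv'
        rw [Finset.mem_filter] at hv'
        exact (JK_coprime hsW h).1 hv'.2.2
  · rw [if_neg hq, mul_zero, Finset.sum_eq_zero, mul_zero]
    intro v _
    rw [if_neg (fun h => hq h.1)]

/-- the sum over the classes -/
private theorem JK_classes (g : ℕ → ℝ) (W m : ℕ) (hW : 1 ≤ W) (c B L A : ℝ)
    (h : ∀ v ∈ VV W m, |g v - B / (Nat.totient W * L) * A| ≤ c / Nat.totient W) :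
    |(W : ℝ) / Nat.totient W * ∑ v ∈ VV W m, g v - Sg W m * (B / L * A)| ≤ Sg W m * c := by
  have hφ : (0 : ℝ) < (Nat.totient W : ℝ) := by exact_mod_cast Nat.totient_pos.2 hW
  have hWr : (0 : ℝ) < (W : ℝ) := by exact_mod_cast hW
  have e1 : (W : ℝ) / Nat.totient W * ∑ v ∈ VV W m, g v - Sg W m * (B / L * A) =
      (W : ℝ) / Nat.totient W * ∑ v ∈ VV W m, (g v - B / (Nat.totient W * L) * A) := by
    rw [Finset.sum_sub_distrib, Finset.sum_const, nsmul_eq_mul, mul_sub]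
    congr 1
    unfold Sg
    rw [← div_div]
    field_simp
  have e2 : |∑ v ∈ VV W m, (g v - B / (Nat.totient W * L) * A)| ≤ (#(VV W m) : ℝ) * (c / Nat.totient W) := by
    refine (Finset.abs_sum_le_sum_abs _ _).trans ?_
    refine (Finset.sum_le_sum h).trans (le_of_eq ?_)
    rw [Finset.sum_const, nsmul_eq_mul]
  rw [e1, abs_mul, abs_of_nonneg (by positivity)]
  calc (W : ℝ) / Nat.totient W * |∑ v ∈ VV W m, (g v - B / (Nat.totient W * L) * A)|
      ≤ (W : ℝ) / Nat.totient W * ((#(VV W m) : ℝ) * (c / Nat.totient W)) :=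
        mul_le_mul_of_nonneg_left e2 (by positivity)
    _ = Sg W m * c := by
        unfold Sg
        field_simp

/-- Chebyshev -/
private theorem JK_cheb (S : Finset ℕ) (D : ℕ → ℝ) (b M : ℝ) (hb : 0 < b) (h : ∑ m ∈ S, (D m) ^ 2 ≤ M * b ^ 2) :
    (#{m ∈ S | b < |D m|} : ℝ) ≤ M := by
  have e1 : (#{m ∈ S | b < |D m|} : ℝ) * b ^ 2 ≤ ∑ m ∈ S, (D m) ^ 2 := by
    calc (#{m ∈ S | b < |D m|} : ℝ) * b ^ 2 = ∑ m ∈ S with b < |D m|, b ^ 2 := by
          rw [Finset.sum_const, nsmul_eq_mul]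
      _ ≤ ∑ m ∈ S with b < |D m|, (D m) ^ 2 := by
          apply Finset.sum_le_sum
          intro m hm
          have h := (Finset.mem_filter.1 hm).2
          rw [← sq_abs (D m)]
          exact pow_le_pow_left₀ hb.le h.le 2
      _ ≤ _ := Finset.sum_le_sum_of_subset_of_nonneg (Finset.filter_subset _ _)
          (fun _ _ _ => sq_nonneg _)
  exact le_of_mul_le_mul_right (e1.trans h) (by positivity)

/-- PROOF. As `firf_of` (EF/J2): `VARK` and Chebyshev (Markov), `model_k`, `WINK` for every `v` in a set of representatives of the classes modulo `primorial w` coprime to it (`δ/W` each); `Sg W m = W #(VV W m)/φ(W)²`, `1 ≤ Sg` (`one_le_Sg`). -/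
theorem firk_of (a : ℝ) (ha : 3 ≤ a) (h1 : WINK a) (h2 : VARK a) : FIRK a := by
  classical
  intro ε hε
  obtain ⟨κ, hκ0, hκ1, hwk⟩ := h1 (ε / 2) (by positivity)
  refine ⟨κ, hκ0, hκ1, fun δ hδ => ?_⟩
  obtain ⟨w₀, hvar⟩ := h2 (δ * ε ^ 2 / 8) (by positivity)
  refine ⟨max w₀ 2, fun w hw => ?_⟩
  have hw2 : 2 ≤ w := (le_max_right _ _).trans hw
  obtain ⟨X₁, hX₁⟩ := hvar w ((le_max_left _ _).trans hw)
  have hWpos : 0 < primorial w := primorial_pos w
  have hWr : (0 : ℝ) < (primorial w : ℝ) := by exact_mod_cast hWpos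
  obtain ⟨X₂, hX₂⟩ := hwk (primorial w) hWpos (δ / (2 * primorial w)) (by positivity)
  obtain ⟨X₃, hX₃⟩ := parK a (w + 3) 1 ha one_pos
  refine ⟨max X₁ (max X₂ X₃), fun X hX R hPX α hα => ?_⟩
  have hXa : X₁ ≤ X := le_trans (le_max_left _ _) hX
  have hXb : X₂ ≤ X := le_trans (le_trans (le_max_left _ _) (le_max_right _ _)) hX
  have hXc : X₃ ≤ X := le_trans (le_trans (le_max_right _ _) (le_max_right _ _)) hX
  obtain ⟨p1, -, -, p4, -, p6, p7, -, -, -, -, -, p13, -, -, -, p17⟩ := hX₃ X hXc R hPX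
  have hwR : w < R := by
    have h3 : (w : ℝ) + 3 ≤ R := p6
    have h4 : (w : ℝ) < R := by linarith
    exact_mod_cast h4
  have hRr : (3 : ℝ) ≤ R := by exact_mod_cast p7
  have hHwX : HR R + w < X := by
    have h3 : ((HR R + w : ℕ) : ℝ) < (X : ℝ) := by
      refine lt_of_lt_of_le ?_ p13
      unfold HR
      push_cast
      have h4 : (3 : ℝ) * (R : ℝ) ^ 2 ≤ (R : ℝ) ^ 3 := by
        have h5 : (R : ℝ) ^ 3 = R * (R : ℝ) ^ 2 := by ring
        rw [h5]
        exact mul_le_mul_of_nonneg_right hRr (by positivity)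
      have h6 : (1 : ℝ) ≤ (R : ℝ) ^ 2 := by nlinarith
      have h7 : (1 : ℝ) ≤ (R : ℝ) ^ 3 := by nlinarith
      have h8 : (w : ℝ) * 1 ≤ (w : ℝ) * (R : ℝ) ^ 3 := mul_le_mul_of_nonneg_left h7 (Nat.cast_nonneg _)
      nlinarith
    exact_mod_cast h3
  have hV := hX₁ X hXa R hPX α hα
  have hWin := hX₂ X hXb R hPX α hα
  have hXr : (0 : ℝ) < (X : ℝ) := by exact_mod_cast (by omega : 0 < X)
  obtain ⟨W, hW⟩ : ∃ W, W = primorial w := ⟨_, rfl⟩
  obtain ⟨B, hB⟩ : ∃ B, B = GK R X := ⟨_, rfl⟩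
  have hmodel : ∀ m, X ≤ m → ∀ s ∈ IS R,
      ∑ t ∈ Icc 1 (HR R), gW W (HR R) (t : ℤ) * (if (s * m - t).Prime then (1 : ℝ) else 0) =
      (W : ℝ) / Nat.totient W * ∑ v ∈ VV W m,
        (#{q ∈ Ico (s * m - HR R) (s * m) | q.Prime ∧ q ≡ s * v [MOD W]} : ℝ) := by
    intro m hm s hs
    rw [hW]
    exact model_k w R m s hw2 hs hwR (by omega)
  have hSg1 : ∀ m, Even m → 1 ≤ Sg W m := by
    intro m hm
    rw [hW]
    exact (Pool.Agent.Lib.MP_bae66e_nt.AC.one_le_Sg w m hw2 hm).1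
  rw [← hW] at hV hWin hWpos hWr ⊢
  rw [← hB] at hV hWin p17 ⊢
  -- the exceptional sets
  set E : ℕ → Finset ℕ := fun v => {m ∈ Icc X (2 * X) | ((m : ℕ) : ℝ) ≤ (1 + κ) * X ∧
      ε / 2 * B / Nat.totient W <
      |NK α W v R m - HR R / (Nat.totient W * Real.log X) * ∑ s ∈ IS R, α s|} with hE
  set D : ℕ → ℝ := fun m => ∑ s ∈ IS R, α s * ∑ t ∈ Icc 1 (HR R),
    (fP (HR R) (t : ℤ) - gW W (HR R) (t : ℤ)) * (if (s * m - t).Prime then (1 : ℝ) else 0) with hD
  set Z : Finset ℕ := {m ∈ Icc X (2 * X) | ε / 2 * B < |D m|} with hZ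
  set V : Finset ℕ := {v ∈ range W | Nat.Coprime v W} with hVd
  have hEcard : ∀ v ∈ V, ((E v).card : ℝ) ≤ δ / (2 * W) * X := by
    intro v hv
    have hv' := (Finset.mem_filter.1 hv).2
    exact hWin v hv'
  have hZcard : (Z.card : ℝ) ≤ δ / 2 * X := by
    refine JK_cheb (Icc X (2 * X)) D (ε / 2 * B) (δ / 2 * X) (by positivity) ?_
    refine hV.trans (le_of_eq ?_)
    ring
  have hsub : ({m ∈ Icc X (2 * X) | Even m ∧ ((m : ℕ) : ℝ) ≤ (1 + κ) * X ∧
      ε * (Sg W m * B) <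
        |∑ s ∈ IS R, α s * SK R s m - Sg W m * (HR R / Real.log X * ∑ s ∈ IS R, α s)|} : Finset ℕ)
      ⊆ V.biUnion E ∪ Z := by
    intro m hm
    obtain ⟨hm1, hm2, hmκ, hm3⟩ := Finset.mem_filter.1 hm
    by_contra hcon
    rw [Finset.mem_union, not_or] at hcon
    obtain ⟨hc1, hc2⟩ := hcon
    have hmX : X ≤ m := (Finset.mem_Icc.1 hm1).1
    have hcl : ∀ v ∈ VV W m, |NK α W v R m - HR R / (Nat.totient W * Real.log X) *
        ∑ s ∈ IS R, α s| ≤ ε / 2 * B / Nat.totient W := by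
      intro v hv
      have hv' : v ∈ V := by
        rw [hVd, Finset.mem_filter]
        unfold VV at hv
        rw [Finset.mem_filter] at hv
        exact ⟨hv.1, hv.2.1⟩
      have h5 : m ∉ E v := fun h => hc1 (Finset.mem_biUnion.2 ⟨_, hv', h⟩)
      rw [hE] at h5
      simp only [Finset.mem_filter, not_and, not_lt] at h5
      exact h5 hm1 hmκ
    have key := JK_classes (fun v => NK α W v R m)
      W m hWpos (ε / 2 * B) (HR R) (Real.log X) (∑ s ∈ IS R, α s) hcl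
    have hmod : ∑ s ∈ IS R, α s * ∑ t ∈ Icc 1 (HR R), gW W (HR R) (t : ℤ) *
        (if (s * m - t).Prime then (1 : ℝ) else 0) =
        (W : ℝ) / Nat.totient W * ∑ v ∈ VV W m, NK α W v R m := by
      unfold NK
      rw [Finset.sum_comm, Finset.mul_sum]
      refine Finset.sum_congr rfl fun s hs => ?_
      rw [hmodel m hmX s hs, ← Finset.mul_sum]
      ring
    rw [← hmod] at key
    have hD1 : |D m| ≤ ε / 2 * B := by
      by_contra h
      exact hc2 (Finset.mem_filter.2 ⟨hm1, not_le.1 h⟩)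
    have hD2 : ∑ s ∈ IS R, α s * SK R s m =
        D m + ∑ s ∈ IS R, α s * ∑ t ∈ Icc 1 (HR R), gW W (HR R) (t : ℤ) *
          (if (s * m - t).Prime then (1 : ℝ) else 0) := by
      rw [hD, ← Finset.sum_add_distrib]
      apply Finset.sum_congr rfl
      intro s _
      rw [← mul_add, ← Finset.sum_add_distrib]
      unfold SK
      congr 1
      apply Finset.sum_congr rfl
      intro t _
      ring
    have hSg : 1 ≤ Sg W m := hSg1 m hm2
    have hSB : ε / 2 * B ≤ Sg W m * (ε / 2 * B) := le_mul_of_one_le_left (by positivity) hSg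
    rw [hD2, add_sub_assoc] at hm3
    have h7 := abs_add_le (D m) (∑ s ∈ IS R, α s * ∑ t ∈ Icc 1 (HR R), gW W (HR R) (t : ℤ) *
          (if (s * m - t).Prime then (1 : ℝ) else 0)
      - Sg W m * (HR R / Real.log X * ∑ s ∈ IS R, α s))
    have h8 : ε * (Sg W m * B) = Sg W m * (ε / 2 * B) + Sg W m * (ε / 2 * B) := by ring
    linarith
  have hVcard : (V.card : ℝ) ≤ W := by
    have : V.card ≤ (range W).card := Finset.card_filter_le _ _
    rw [Finset.card_range] at this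
    exact_mod_cast this
  calc (#{m ∈ Icc X (2 * X) | Even m ∧ ((m : ℕ) : ℝ) ≤ (1 + κ) * X ∧
      ε * (Sg W m * B) <
        |∑ s ∈ IS R, α s * SK R s m - Sg W m * (HR R / Real.log X * ∑ s ∈ IS R, α s)|} : ℝ)
      ≤ ((V.biUnion E ∪ Z).card : ℝ) := by exact_mod_cast Finset.card_le_card hsub
    _ ≤ ((V.biUnion E).card : ℝ) + (Z.card : ℝ) := by exact_mod_cast Finset.card_union_le _ _
    _ ≤ (∑ v ∈ V, ((E v).card : ℝ)) + (Z.card : ℝ) := by
        have : (V.biUnion E).card ≤ ∑ v ∈ V, (E v).card := Finset.card_biUnion_le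
        have h' : ((V.biUnion E).card : ℝ) ≤ ∑ v ∈ V, ((E v).card : ℝ) := by exact_mod_cast this
        linarith
    _ ≤ (∑ v ∈ V, δ / (2 * W) * X) + δ / 2 * X := by
        have := Finset.sum_le_sum hEcard
        linarith
    _ = (V.card : ℝ) * (δ / (2 * W) * X) + δ / 2 * X := by rw [Finset.sum_const, nsmul_eq_mul]
    _ ≤ (W : ℝ) * (δ / (2 * W) * X) + δ / 2 * X := by
        have := mul_le_mul_of_nonneg_right hVcard (by positivity : 0 ≤ δ / (2 * W) * X)
        linarith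
    _ = δ * X := by
        field_simp
        ring

end Pool.Agent.Lib.MP_bae66e_nt.MF
end

section

/-!
# The two theorems
-/

set_option autoImplicit false

namespace Pool.Agent.Lib.MP_bae66e_nt.MF

open Finset MeasureTheory Real
open Pool.Agent.E3
open Pool.Agent.Lib.MP_bae66e_nt.EF (PX Wt HR gA COREG)
open Pool.Agent.Lib.MP_bae66e_nt.LL (fP gW)
open Pool.Agent.Lib.MP_bae66e_nt.AC (Sg VV)
open Pool.Agent.Lib.MP_bae66e_nt.AP3 (prI mem_prI)

/-- the Hardy-Littlewood formula for almost all even `m` and its multiples -/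
theorem hl_k : ∃ a₀ : ℝ, 3 ≤ a₀ ∧ ∀ a : ℝ, a₀ ≤ a → FINK a := by
  obtain ⟨a₀, ha₀, hC⟩ := EF.coreg
  refine ⟨a₀ + 1, by linarith, fun a ha => ?_⟩
  have ha3 : 3 ≤ a := by linarith
  have h1 : WINK a := wink_of a ha3 (winn_of a ha3 (winh_of a ha3 (hC _ (by linarith)) (hC _ (by linarith))))
  exact fink_of a ha3 (firk_of a ha3 h1 (vark_of a ha3))

/-- a positive proportion of the `s` for almost all even `m` -/
theorem pos_k : ∃ c a₀ : ℝ, 0 < c ∧ 3 ≤ a₀ ∧ ∀ a : ℝ, a₀ ≤ a → FINK a ∧ POSK c a := by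
  obtain ⟨a₀, ha₀, hF⟩ := hl_k
  obtain ⟨C, a₁, hC, ha₁, hS⟩ := seck_of
  obtain ⟨c, hc, hP⟩ := posk_of C hC
  refine ⟨c, max a₀ a₁, hc, ha₀.trans (le_max_left _ _), fun a ha => ?_⟩
  have h1 : a₀ ≤ a := (le_max_left _ _).trans ha
  have h2 : a₁ ≤ a := (le_max_right _ _).trans ha
  exact ⟨hF a h1, hP a (ha₀.trans h1) (hF a h1) (hS a h2)⟩

end Pool.Agent.Lib.MP_bae66e_nt.MF
end
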