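import Pool.Agent.Lib.MP_bae66e_nt.Mg.G110
import Pool.Agent.Lib.MP_bae66e_nt.Mg.G008
import Pool.Agent.Lib.MP_bae66e_nt.Mg.G011
import Pool.Agent.Lib.MP_bae66e_nt.Mg.G002

section

/-!
# K3: the region where `R₁` is small
-/

set_option autoImplicit false

namespace Pool.Agent.E3

open Finset MeasureTheory Real
open Pool.Agent.Lib.MP_bae66e_nt.AP3 (prI mem_prI)

/-- PROOF. On the set `‖PR χ₁‖² ≤ R^(-2α)`, so the integral is `≤ R^(-2α) ∫ exp (- (Δt)²) ‖PR χ₂ (R^ell) PQ χ₃‖²` over the whole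
line (nonnegative integrable integrands: `gauss_integrable_of_bounded`, `PR_continuous`, `PQ_continuous` and the bounds `PR_norm_le`,
`PQ_norm_le` or any bound for finite sums). By `MV1` with `B = ⌈a⌉ + 1`, `R := R^ell` (`CH2_R2_le`; `R^ell ≥ 2`), with `C₁`
absolute: it is `≤ R^(-2α) C₁ (1/(Δ R₂ Y L log R₂) + 1/(L² (log R₂)²))`, `R₂ = R^ell`, `L = log X`. Since
`Δ R₂ Y ≥ L (ll X)^3 ≥ L log R₂` (`DRY`, `CH2_log_R2` with `K = 1`), the first term is at most the second, and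
`2 C₁ R^(-2α)/(L² (log R₂)²) ≤ δ TG` iff `2 C₁ (log R)² R^(-2α) ≤ δ` (`CH2_T1`). -/
theorem core2_T1 (hMV1 : MV1) (a c α δ : ℝ) (ha : 3 ≤ a) (hc : 2 ≤ c) (hα : 0 < α) (hδ : 0 < δ) :
    ∃ X₀ : ℕ, ∀ X : ℕ, X₀ ≤ X → ∀ (W : ℕ) (χ₁ χ₂ χ₃ : DirichletCharacter ℂ W) (R ℓ : ℕ) (Y Δ : ℝ),
      CH2 a c X R ℓ Y Δ →
      ∫ t in {t : ℝ | ‖PR χ₁ R t‖ ≤ (R : ℝ) ^ (-α)}, Real.exp (-(Δ * t) ^ 2) *
        ‖PR χ₁ R t * PR χ₂ (R ^ ℓ) t * PQ χ₃ X Y t‖ ^ 2 ≤ δ * TG2 X R ℓ := by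
  obtain ⟨C₁, hC₁, hMV⟩ := hMV1
  obtain ⟨X₁, hMV⟩ := hMV (⌈a⌉₊ + 1)
  obtain ⟨C₂, hC₂, hPR⟩ := PR_norm_le
  obtain ⟨C₃, hC₃, hPQ⟩ := PQ_norm_le
  obtain ⟨X₂, h2⟩ := CH2_large a c ha hc 2
  obtain ⟨X₃, h3⟩ := CH2_log_R2 a c 1 ha hc
  obtain ⟨X₄, h4⟩ := CH2_T1 a c α (2 * C₁) δ ha hc hα hδ
  refine ⟨max (max X₁ X₂) (max (max X₃ X₄) 8), fun X hX W χ₁ χ₂ χ₃ R ℓ Y Δ h => ?_⟩
  have hX1 : X₁ ≤ X := le_trans (le_trans (le_max_left _ _) (le_max_left _ _)) hX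
  have hX2 : X₂ ≤ X := le_trans (le_trans (le_max_right _ _) (le_max_left _ _)) hX
  have hX3 : X₃ ≤ X :=
    le_trans (le_trans (le_trans (le_max_left _ _) (le_max_left _ _)) (le_max_right _ _)) hX
  have hX4 : X₄ ≤ X :=
    le_trans (le_trans (le_trans (le_max_right _ _) (le_max_left _ _)) (le_max_right _ _)) hX
  have hX8 : 8 ≤ X := le_trans (le_trans (le_max_right _ _) (le_max_right _ _)) hX
  have hR2 : (2 : ℝ) ≤ R := (h2 X hX2 R ℓ Y Δ h).1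
  have hL2 : (2 : ℝ) ≤ Real.log X := (h2 X hX2 R ℓ Y Δ h).2.1
  obtain ⟨hlR, hle, hη⟩ := h3 X hX3 R ℓ Y Δ h
  have hT1 := h4 X hX4 R ℓ Y Δ h
  have hRn2 : 2 ≤ R := by exact_mod_cast hR2
  have hR0 : (0 : ℝ) < R := by linarith
  have hell : 1 ≤ ℓ := (h2 X hX2 R ℓ Y Δ h).2.2
  have hRA2 : 2 ≤ R ^ ℓ := by
    calc 2 ≤ R := hRn2
      _ = R ^ 1 := (pow_one R).symm
      _ ≤ R ^ ℓ := Nat.pow_le_pow_right (by omega) hell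
  have hcast : ((R ^ ℓ : ℕ) : ℝ) = (R : ℝ) ^ ℓ := by push_cast; rfl
  have hR2le := (CH2_R2_le a c ha X R ℓ Y Δ (by omega) h).1
  have hmain := hMV X hX1 W χ₂ χ₃ (R ^ ℓ) hRA2 (by rw [hcast]; exact hR2le) Y Δ
    h.Ylow h.Yup h.Dpos h.Dup
  rw [hcast] at hmain
  rw [one_mul] at hη
  have hDRY := h.DRY
  set L := Real.log X with hL
  set l := Real.log ((R : ℝ) ^ ℓ) with hl
  have hL0 : 0 < L := by linarith
  have hl0 : 0 < l := by linarith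
  have hX8R : (8 : ℝ) ≤ X := by exact_mod_cast hX8
  have hY0 : 0 < Y := lt_of_lt_of_le (Real.rpow_pos_of_pos (by linarith) _) h.Ylow
  have hRA0 : 0 < (R : ℝ) ^ ℓ := pow_pos hR0 _
  have hDpos := h.Dpos
  -- the bound of the mean value
  have hDR : L * l ≤ Δ * (R : ℝ) ^ ℓ * Y := by
    exact (mul_le_mul_of_nonneg_left hη hL0.le).trans hDRY
  have hmv : ∫ t : ℝ, Real.exp (-(Δ * t) ^ 2) * ‖PR χ₂ (R ^ ℓ) t * PQ χ₃ X Y t‖ ^ 2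
      ≤ 2 * C₁ / (L ^ 2 * l ^ 2) := by
    refine hmain.trans ?_
    have e1 : 1 / (Δ * (R : ℝ) ^ ℓ * Y * L * l) ≤ 1 / (L ^ 2 * l ^ 2) := by
      apply one_div_le_one_div_of_le (by positivity)
      calc L ^ 2 * l ^ 2 = (L * l) * (L * l) := by ring
        _ ≤ (Δ * (R : ℝ) ^ ℓ * Y) * (L * l) :=
            mul_le_mul_of_nonneg_right hDR (by positivity)
        _ = _ := by ring
    calc C₁ * (1 / (Δ * (R : ℝ) ^ ℓ * Y * L * l) + 1 / (L ^ 2 * l ^ 2))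
        ≤ C₁ * (1 / (L ^ 2 * l ^ 2) + 1 / (L ^ 2 * l ^ 2)) :=
          mul_le_mul_of_nonneg_left (by linarith) (by linarith)
      _ = _ := by ring
  -- integrability
  have hb2 : ∀ t, ‖PR χ₂ (R ^ ℓ) t‖ ≤ C₂ / Real.log ((R ^ ℓ : ℕ) : ℝ) :=
    fun t => hPR W χ₂ (R ^ ℓ) t hRA2
  have hb1 : ∀ t, ‖PR χ₁ R t‖ ≤ C₂ / Real.log R := fun t => hPR W χ₁ R t hRn2
  have hb3 : ∀ t, ‖PQ χ₃ X Y t‖ ≤ C₃ / L := fun t => hPQ W χ₃ X Y t hX8 h.Ylow h.Yup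
  have hc1 := PR_continuous χ₁ R
  have hc2 := PR_continuous χ₂ (R ^ ℓ)
  have hc3 := PQ_continuous χ₃ X Y
  have hi23 : Integrable (fun t : ℝ => Real.exp (-(Δ * t) ^ 2) *
      ‖PR χ₂ (R ^ ℓ) t * PQ χ₃ X Y t‖ ^ 2) := by
    refine gauss_integrable_of_bounded Δ
      ((C₂ / Real.log ((R ^ ℓ : ℕ) : ℝ) * (C₃ / L)) ^ 2) hDpos _ ((hc2.mul hc3).norm.pow 2) ?_
    intro t
    rw [abs_of_nonneg (sq_nonneg _)]
    apply pow_le_pow_left₀ (norm_nonneg _)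
    rw [norm_mul]
    exact mul_le_mul (hb2 t) (hb3 t) (norm_nonneg _) (le_trans (norm_nonneg _) (hb2 t))
  have hi123 : Integrable (fun t : ℝ => Real.exp (-(Δ * t) ^ 2) *
      ‖PR χ₁ R t * PR χ₂ (R ^ ℓ) t * PQ χ₃ X Y t‖ ^ 2) := by
    refine gauss_integrable_of_bounded Δ
      ((C₂ / Real.log R * (C₂ / Real.log ((R ^ ℓ : ℕ) : ℝ)) * (C₃ / L)) ^ 2) hDpos _
      (((hc1.mul hc2).mul hc3).norm.pow 2) ?_
    intro t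
    rw [abs_of_nonneg (sq_nonneg _)]
    apply pow_le_pow_left₀ (norm_nonneg _)
    rw [norm_mul, norm_mul]
    have k1 : ‖PR χ₁ R t‖ * ‖PR χ₂ (R ^ ℓ) t‖
        ≤ C₂ / Real.log R * (C₂ / Real.log ((R ^ ℓ : ℕ) : ℝ)) :=
      mul_le_mul (hb1 t) (hb2 t) (norm_nonneg _) (le_trans (norm_nonneg _) (hb1 t))
    exact mul_le_mul k1 (hb3 t) (norm_nonneg _) (le_trans (by positivity) k1)
  have hS : MeasurableSet {t : ℝ | ‖PR χ₁ R t‖ ≤ (R : ℝ) ^ (-α)} :=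
    (isClosed_le hc1.norm continuous_const).measurableSet
  have hRα : 0 ≤ (R : ℝ) ^ (-α) := Real.rpow_nonneg hR0.le _
  have hRα2 : ((R : ℝ) ^ (-α)) ^ 2 = (R : ℝ) ^ (-(2 * α)) := by
    rw [← Real.rpow_natCast, ← Real.rpow_mul hR0.le]
    congr 1
    push_cast
    ring
  have hRαn : 0 < (R : ℝ) ^ (-(2 * α)) := Real.rpow_pos_of_pos hR0 _
  calc ∫ t in {t : ℝ | ‖PR χ₁ R t‖ ≤ (R : ℝ) ^ (-α)}, Real.exp (-(Δ * t) ^ 2) *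
        ‖PR χ₁ R t * PR χ₂ (R ^ ℓ) t * PQ χ₃ X Y t‖ ^ 2
      ≤ ∫ t in {t : ℝ | ‖PR χ₁ R t‖ ≤ (R : ℝ) ^ (-α)}, (R : ℝ) ^ (-(2 * α)) *
        (Real.exp (-(Δ * t) ^ 2) * ‖PR χ₂ (R ^ ℓ) t * PQ χ₃ X Y t‖ ^ 2) := by
        apply setIntegral_mono_on hi123.integrableOn (hi23.const_mul _).integrableOn hS
        intro t ht
        have ht' : ‖PR χ₁ R t‖ ≤ (R : ℝ) ^ (-α) := ht
        have k1 : ‖PR χ₁ R t‖ ^ 2 ≤ (R : ℝ) ^ (-(2 * α)) := by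
          rw [← hRα2]
          exact pow_le_pow_left₀ (norm_nonneg _) ht' 2
        have k2 : ‖PR χ₁ R t * PR χ₂ (R ^ ℓ) t * PQ χ₃ X Y t‖ ^ 2
            = ‖PR χ₁ R t‖ ^ 2 * ‖PR χ₂ (R ^ ℓ) t * PQ χ₃ X Y t‖ ^ 2 := by
          rw [mul_assoc, norm_mul, mul_pow]
        rw [k2]
        have k3 : 0 ≤ Real.exp (-(Δ * t) ^ 2) * ‖PR χ₂ (R ^ ℓ) t * PQ χ₃ X Y t‖ ^ 2 := by
          positivity
        calc Real.exp (-(Δ * t) ^ 2) *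
              (‖PR χ₁ R t‖ ^ 2 * ‖PR χ₂ (R ^ ℓ) t * PQ χ₃ X Y t‖ ^ 2)
            = ‖PR χ₁ R t‖ ^ 2 *
              (Real.exp (-(Δ * t) ^ 2) * ‖PR χ₂ (R ^ ℓ) t * PQ χ₃ X Y t‖ ^ 2) := by ring
          _ ≤ _ := mul_le_mul_of_nonneg_right k1 k3
    _ ≤ ∫ t : ℝ, (R : ℝ) ^ (-(2 * α)) *
        (Real.exp (-(Δ * t) ^ 2) * ‖PR χ₂ (R ^ ℓ) t * PQ χ₃ X Y t‖ ^ 2) := by
        apply setIntegral_le_integral (hi23.const_mul _)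
        exact Filter.Eventually.of_forall fun t => by positivity
    _ = (R : ℝ) ^ (-(2 * α)) * ∫ t : ℝ,
        Real.exp (-(Δ * t) ^ 2) * ‖PR χ₂ (R ^ ℓ) t * PQ χ₃ X Y t‖ ^ 2 :=
        integral_const_mul _ _
    _ ≤ (R : ℝ) ^ (-(2 * α)) * (2 * C₁ / (L ^ 2 * l ^ 2)) :=
        mul_le_mul_of_nonneg_left hmv hRαn.le
    _ = (2 * C₁ * (Real.log R) ^ 2 * (R : ℝ) ^ (-(2 * α))) * (1 / (Real.log R * l * L)) ^ 2 := by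
        field_simp
    _ ≤ δ * TG2 X R ℓ := by
        unfold TG2
        exact mul_le_mul_of_nonneg_right hT1 (sq_nonneg _)

end Pool.Agent.E3
end

section

/-!
# MVd3: the mean value of `R^(ℓ+1) Q`, uniform in `ℓ`
-/

set_option autoImplicit false

namespace Pool.Agent.E3

open Finset MeasureTheory Real Filter
open Pool.Agent.Lib.MP_bae66e_nt.AP3 (prI mem_prI)

/-- PROOF. Exactly as `mv2` (file MVd2, delivered as MP_bae66e_E3_MVd2.lean): `mv_pow` with `k = ℓ + 1` and its absolute constant `C₁`;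
the result is `≤ 4 C₁ (ℓ+2)!/log X`. -/
theorem mv3 : ∃ C : ℝ, 1 ≤ C ∧ ∃ X₀ : ℕ, ∀ X : ℕ, X₀ ≤ X →
    ∀ (W : ℕ) (χ χ' : DirichletCharacter ℂ W) (R ℓ : ℕ), 2 ≤ R →
    ∀ Y Δ : ℝ, (X : ℝ) ^ (0.99 : ℝ) ≤ Y → Y ≤ X → 0 < Δ → Δ ≤ (X : ℝ) ^ (-(1 / 2) : ℝ) →
      1 ≤ Δ * (R : ℝ) ^ (ℓ + 1) * Y →
      ∫ t : ℝ, Real.exp (-(Δ * t) ^ 2) * ‖(PR χ R t) ^ (ℓ + 1) * PQ χ' X Y t‖ ^ 2
        ≤ C * (ℓ + 2).factorial / Real.log X := by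
  obtain ⟨C₁, hC₁, hmv⟩ := mv_pow
  refine ⟨4 * C₁, by linarith, ⌈Real.exp 4⌉₊, ?_⟩
  intro X hX W χ χ' R ℓ hR Y Δ hY1 hY2 hΔ0 hΔ hΔR
  have hfac : (1 : ℝ) ≤ ((ℓ + 2).factorial : ℝ) := by
    exact_mod_cast Nat.one_le_iff_ne_zero.mpr (Nat.factorial_ne_zero _)
  have hXe : Real.exp 4 ≤ (X : ℝ) := le_trans (Nat.le_ceil _) (by exact_mod_cast hX)
  have hX5 : (5 : ℝ) ≤ (X : ℝ) := by
    have := Real.add_one_le_exp (4 : ℝ)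
    linarith
  have hX0 : (0 : ℝ) < (X : ℝ) := by linarith
  have hX2 : 2 ≤ X := by
    have : (2 : ℝ) ≤ (X : ℝ) := by linarith
    exact_mod_cast this
  have hlX : 4 ≤ Real.log X := by
    rw [Real.le_log_iff_exp_le hX0]
    exact hXe
  obtain ⟨hY0, hy1, hy2, hye⟩ := logY_bounds X Y hX2 hY1 hY2
  have hΔ1 : Δ ≤ 1 := by
    refine le_trans hΔ ?_
    exact Real.rpow_le_one_of_one_le_of_nonpos (by linarith) (by norm_num)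
  have hy : 2 ≤ Real.log Y := by linarith
  have hy0 : 0 < Real.log Y := by linarith
  have hmain := hmv (ℓ + 1) (Nat.sqrt X) (X ^ 2) R (Real.log Y) Δ (ch χ) (ch χ') (by omega) hy
    hΔ0 hΔ1 (ch_norm_le χ) (ch_norm_le χ')
  have hR0 : (0 : ℝ) < (R : ℝ) := by
    have : 0 < R := by omega
    exact_mod_cast this
  have hden : 0 < Δ * (R : ℝ) ^ (ℓ + 1) * Real.log Y := by positivity
  have h1 : Real.exp (-Real.log Y) / (Δ * (R : ℝ) ^ (ℓ + 1) * Real.log Y) ≤ 1 / Real.log Y := by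
    rw [hye, div_div, div_le_div_iff₀ (mul_pos hY0 hden) hy0]
    have h2 : Real.log Y * 1 ≤ Real.log Y * (Δ * (R : ℝ) ^ (ℓ + 1) * Y) :=
      mul_le_mul_of_nonneg_left hΔR hy0.le
    nlinarith
  have h3 : 1 / Real.log Y ≤ 2 / Real.log X := by
    rw [div_le_div_iff₀ hy0 (by linarith)]
    linarith
  have hfac' : ((ℓ + 1 + 1).factorial : ℝ) = ((ℓ + 2).factorial : ℝ) := rfl
  calc ∫ t : ℝ, Real.exp (-(Δ * t) ^ 2) * ‖(PR χ R t) ^ (ℓ + 1) * PQ χ' X Y t‖ ^ 2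
      ≤ C₁ * (ℓ + 1 + 1).factorial
          * (Real.exp (-Real.log Y) / (Δ * (R : ℝ) ^ (ℓ + 1) * Real.log Y) + 1 / Real.log Y) :=
        hmain
    _ ≤ C₁ * (ℓ + 2).factorial * (2 / Real.log X + 2 / Real.log X) := by
        rw [hfac']
        apply mul_le_mul_of_nonneg_left (by linarith)
        nlinarith
    _ = 4 * C₁ * (ℓ + 2).factorial / Real.log X := by ring

end Pool.Agent.E3
end

section

/-!
# K4: the region where `R₁` is large and `R₂` is small (parameters of CORE2)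
-/

set_option autoImplicit false

namespace Pool.Agent.E3

open Finset MeasureTheory Real
open Pool.Agent.Lib.MP_bae66e_nt.AP3 (prI mem_prI)

/-- the pointwise inequality -/
private lemma K4_pt (r p₁ p₂ q α₁ α₂ : ℝ) (n : ℕ) (hr : 0 < r) (hp2 : 0 ≤ p₂)
    (h1 : r ^ (-α₁) < p₁) (h2 : p₂ ≤ (r ^ n) ^ (-α₂)) :
    (p₁ * p₂ * q) ^ 2 ≤ (r ^ n) ^ (-(2 * (α₂ - α₁))) * (p₁ ^ (n + 1) * q) ^ 2 := by
  have hS : 0 < r ^ n := pow_pos hr n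
  have hp1 : 0 < p₁ := lt_trans (Real.rpow_pos_of_pos hr _) h1
  have h3 : 1 ≤ p₁ * r ^ α₁ := by
    have h4 : r ^ (-α₁) * r ^ α₁ = 1 := by
      rw [← Real.rpow_add hr]
      simp
    calc (1 : ℝ) = r ^ (-α₁) * r ^ α₁ := h4.symm
      _ ≤ p₁ * r ^ α₁ := mul_le_mul_of_nonneg_right h1.le (Real.rpow_nonneg hr.le _)
  have h5 : (1 : ℝ) ≤ (p₁ ^ n) ^ 2 * ((r ^ n) ^ (2 * α₁)) := by
    have h6 : (1 : ℝ) ≤ (p₁ * r ^ α₁) ^ (n * 2) := one_le_pow₀ h3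
    have h7 : (p₁ * r ^ α₁) ^ (n * 2) = (p₁ ^ n) ^ 2 * ((r ^ n) ^ (2 * α₁)) := by
      rw [mul_pow, pow_mul p₁ n 2]
      congr 1
      rw [← Real.rpow_natCast (r ^ α₁), ← Real.rpow_mul hr.le, ← Real.rpow_natCast r n,
        ← Real.rpow_mul hr.le]
      congr 1
      push_cast
      ring
    rw [h7] at h6
    exact h6
  have h8 : p₂ ^ 2 ≤ (r ^ n) ^ (-(2 * α₂)) := by
    calc p₂ ^ 2 ≤ ((r ^ n) ^ (-α₂)) ^ 2 := pow_le_pow_left₀ hp2 h2 2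
      _ = (r ^ n) ^ (-(2 * α₂)) := by
          rw [← Real.rpow_natCast, ← Real.rpow_mul hS.le]
          congr 1
          push_cast
          ring
  have h9 : (r ^ n) ^ (-(2 * (α₂ - α₁))) = (r ^ n) ^ (-(2 * α₂)) * (r ^ n) ^ (2 * α₁) := by
    rw [← Real.rpow_add hS]
    congr 1
    ring
  have hpq : 0 ≤ (p₁ * q) ^ 2 := sq_nonneg _
  calc (p₁ * p₂ * q) ^ 2 = p₂ ^ 2 * (p₁ * q) ^ 2 := by ring
    _ ≤ (r ^ n) ^ (-(2 * α₂)) * (p₁ * q) ^ 2 := mul_le_mul_of_nonneg_right h8 hpq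
    _ ≤ (r ^ n) ^ (-(2 * α₂)) * (((p₁ ^ n) ^ 2 * ((r ^ n) ^ (2 * α₁))) * (p₁ * q) ^ 2) := by
        apply mul_le_mul_of_nonneg_left _ (Real.rpow_nonneg hS.le _)
        exact le_mul_of_one_le_left hpq h5
    _ = (r ^ n) ^ (-(2 * (α₂ - α₁))) * (p₁ ^ (n + 1) * q) ^ 2 := by
        rw [h9]
        ring

/-- PROOF. Let `R₂ = R^ell`. On the set `1 ≤ (‖PR χ₁‖ R^(α₁))^(2 ell)` and `‖PR χ₂‖² ≤ R₂^(-2α₂)`, so
`‖PR χ₁ PR χ₂ PQ χ₃‖² ≤ R₂^(-2α₂) R^(2 α₁ ell) ‖PR χ₁^(ell+1) PQ χ₃‖² = R₂^(-2(α₂ - α₁)) ‖PR χ₁^(ell+1) PQ χ₃‖²`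
(`R^(2α₁ ell) = R₂^(2α₁)`). By `mv3` (its hypothesis `1 ≤ Δ R^(ell+1) Y` follows from `DRY`, `R ≥ 1`,
`log X ≥ 1`) the integral is `≤ R₂^(-2(α₂-α₁)) C (ℓ+2)!/log X`, and `CH2_T2` with `γ = α₂ - α₁`, `K = C`. -/
theorem core2_T2 (a c α₁ α₂ δ : ℝ) (ha : 3 ≤ a) (hc : a + 1 ≤ c) (hα₁ : 0 < α₁)
    (hα₂ : α₁ < α₂) (haα : 2 ≤ a * (α₂ - α₁)) (hδ : 0 < δ) :
    ∃ X₀ : ℕ, ∀ X : ℕ, X₀ ≤ X → ∀ (W : ℕ) (χ₁ χ₂ χ₃ : DirichletCharacter ℂ W) (R ℓ : ℕ) (Y Δ : ℝ),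
      CH2 a c X R ℓ Y Δ →
      ∫ t in {t : ℝ | (R : ℝ) ^ (-α₁) < ‖PR χ₁ R t‖ ∧ ‖PR χ₂ (R ^ ℓ) t‖ ≤ ((R ^ ℓ : ℕ) : ℝ) ^ (-α₂)},
        Real.exp (-(Δ * t) ^ 2) *
        ‖PR χ₁ R t * PR χ₂ (R ^ ℓ) t * PQ χ₃ X Y t‖ ^ 2 ≤ δ * TG2 X R ℓ := by
  obtain ⟨C₁, hC₁, hPR⟩ := PR_norm_le
  obtain ⟨C₂, hC₂, hPQ⟩ := PQ_norm_le
  obtain ⟨C, hC, X₁, hmv⟩ := mv3
  obtain ⟨X₂, h2⟩ := CH2_T2 a c (α₂ - α₁) C δ ha hc (by linarith) haα hδ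
  obtain ⟨X₃, h3⟩ := CH2_large a c ha (by linarith) 8
  refine ⟨max X₁ (max X₂ X₃), fun X hX W χ₁ χ₂ χ₃ R ℓ Y Δ h => ?_⟩
  have hX1 : X₁ ≤ X := le_trans (le_max_left _ _) hX
  have hX2 : X₂ ≤ X := le_trans (le_trans (le_max_left _ _) (le_max_right _ _)) hX
  have hX3 : X₃ ≤ X := le_trans (le_trans (le_max_right _ _) (le_max_right _ _)) hX
  obtain ⟨hR8, hL8, hell1⟩ := h3 X hX3 R ℓ Y Δ h
  have hX0 : (0 : ℝ) < X := by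
    by_contra hc
    push Not at hc
    have : (X : ℝ) = 0 := le_antisymm hc (Nat.cast_nonneg X)
    rw [this, Real.log_zero] at hL8
    linarith
  have hX8 : 8 ≤ X := by
    have := Real.log_le_sub_one_of_pos hX0
    have h8 : (8 : ℝ) ≤ X := by linarith
    exact_mod_cast h8
  have hR2 : 2 ≤ R := by
    have : (2 : ℝ) ≤ R := by linarith
    exact_mod_cast this
  have hR0 : (0 : ℝ) < R := by linarith
  have hell : ℓ ≠ 0 := by omega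
  have hRl2 : 2 ≤ R ^ ℓ := le_trans hR2 (Nat.le_self_pow hell R)
  have hcast : (((R ^ ℓ : ℕ)) : ℝ) = (R : ℝ) ^ ℓ := Nat.cast_pow _ _
  have hL0 : 0 < Real.log X := by linarith
  have hDRY : 1 ≤ Δ * (R : ℝ) ^ (ℓ + 1) * Y := by
    have e1 : (1 : ℝ) ≤ Real.log X * (ll X) ^ 3 := by
      have hll : (1 : ℝ) ≤ ll X := by
        unfold ll
        rw [Real.le_log_iff_exp_le (by linarith)]
        have := Real.exp_one_lt_d9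
        linarith
      have h1 : (1 : ℝ) ≤ (ll X) ^ 3 := one_le_pow₀ hll
      nlinarith
    have e2 : 1 ≤ Δ * (R : ℝ) ^ (ℓ) * Y := le_trans e1 h.DRY
    calc (1 : ℝ) ≤ Δ * (R : ℝ) ^ (ℓ) * Y := e2
      _ ≤ R * (Δ * (R : ℝ) ^ (ℓ) * Y) := le_mul_of_one_le_left (by linarith) (by linarith)
      _ = Δ * (R : ℝ) ^ (ℓ + 1) * Y := by ring
  have hM := hmv X hX1 W χ₁ χ₃ R ℓ hR2 Y Δ h.Ylow h.Yup h.Dpos h.Dup hDRY
  have hT2 := h2 X hX2 R ℓ Y Δ h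
  set S : Set ℝ := {t : ℝ | (R : ℝ) ^ (-α₁) < ‖PR χ₁ R t‖ ∧
    ‖PR χ₂ (R ^ ℓ) t‖ ≤ ((R ^ ℓ : ℕ) : ℝ) ^ (-α₂)} with hS
  have hms : MeasurableSet S := by
    apply MeasurableSet.inter
    · exact measurableSet_lt measurable_const (PR_continuous χ₁ R).norm.measurable
    · exact measurableSet_le (PR_continuous χ₂ _).norm.measurable measurable_const
  have hc1 : Continuous fun t : ℝ => ‖PR χ₁ R t * PR χ₂ (R ^ ℓ) t * PQ χ₃ X Y t‖ ^ 2 :=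
    ((((PR_continuous χ₁ R).mul (PR_continuous χ₂ _)).mul (PQ_continuous χ₃ X Y)).norm).pow 2
  have hc2 : Continuous fun t : ℝ => ‖(PR χ₁ R t) ^ (ℓ + 1) * PQ χ₃ X Y t‖ ^ 2 :=
    ((((PR_continuous χ₁ R).pow _).mul (PQ_continuous χ₃ X Y)).norm).pow 2
  set b₁ : ℝ := C₁ / Real.log R with hb₁
  set b₂ : ℝ := C₁ / Real.log ((R ^ ℓ : ℕ) : ℝ) with hb₂
  set b₃ : ℝ := C₂ / Real.log X with hb₃
  have e1 : ∀ t, ‖PR χ₁ R t‖ ≤ b₁ := fun t => hPR W χ₁ R t hR2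
  have e2 : ∀ t, ‖PR χ₂ (R ^ ℓ) t‖ ≤ b₂ := fun t => hPR W χ₂ (R ^ ℓ) t hRl2
  have e3 : ∀ t, ‖PQ χ₃ X Y t‖ ≤ b₃ := fun t => hPQ W χ₃ X Y t hX8 h.Ylow h.Yup
  have hb10 : 0 ≤ b₁ := le_trans (norm_nonneg _) (e1 0)
  have hb20 : 0 ≤ b₂ := le_trans (norm_nonneg _) (e2 0)
  have hb30 : 0 ≤ b₃ := le_trans (norm_nonneg _) (e3 0)
  have hi1 : Integrable fun t : ℝ => Real.exp (-(Δ * t) ^ 2) *
      ‖PR χ₁ R t * PR χ₂ (R ^ ℓ) t * PQ χ₃ X Y t‖ ^ 2 := by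
    apply gauss_integrable_of_bounded Δ ((b₁ * b₂ * b₃) ^ 2) h.Dpos _ hc1
    intro t
    rw [abs_of_nonneg (by positivity), norm_mul, norm_mul]
    apply pow_le_pow_left₀ (by positivity)
    apply mul_le_mul _ (e3 t) (norm_nonneg _) (by positivity)
    exact mul_le_mul (e1 t) (e2 t) (norm_nonneg _) hb10
  have hi2 : Integrable fun t : ℝ => Real.exp (-(Δ * t) ^ 2) *
      ‖(PR χ₁ R t) ^ (ℓ + 1) * PQ χ₃ X Y t‖ ^ 2 := by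
    apply gauss_integrable_of_bounded Δ ((b₁ ^ (ℓ + 1) * b₃) ^ 2) h.Dpos _ hc2
    intro t
    rw [abs_of_nonneg (by positivity), norm_mul, norm_pow]
    apply pow_le_pow_left₀ (by positivity)
    apply mul_le_mul _ (e3 t) (norm_nonneg _) (by positivity)
    exact pow_le_pow_left₀ (norm_nonneg _) (e1 t) _
  set κ : ℝ := ((R : ℝ) ^ ℓ) ^ (-(2 * (α₂ - α₁))) with hκ
  have hκ0 : 0 ≤ κ := Real.rpow_nonneg (by positivity) _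
  have hi3 : Integrable fun t : ℝ => κ * (Real.exp (-(Δ * t) ^ 2) *
      ‖(PR χ₁ R t) ^ (ℓ + 1) * PQ χ₃ X Y t‖ ^ 2) := hi2.const_mul κ
  calc ∫ t in S, Real.exp (-(Δ * t) ^ 2) *
        ‖PR χ₁ R t * PR χ₂ (R ^ ℓ) t * PQ χ₃ X Y t‖ ^ 2
      ≤ ∫ t in S, κ * (Real.exp (-(Δ * t) ^ 2) *
          ‖(PR χ₁ R t) ^ (ℓ + 1) * PQ χ₃ X Y t‖ ^ 2) := by
        apply setIntegral_mono_on hi1.integrableOn hi3.integrableOn hms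
        intro t ht
        obtain ⟨ht1, ht2⟩ := ht
        rw [hcast] at ht2
        have hpt := K4_pt R ‖PR χ₁ R t‖ ‖PR χ₂ (R ^ ℓ) t‖ ‖PQ χ₃ X Y t‖ α₁ α₂ (ℓ)
          hR0 (norm_nonneg _) ht1 ht2
        rw [norm_mul, norm_mul, norm_mul, norm_pow]
        calc Real.exp (-(Δ * t) ^ 2) * (‖PR χ₁ R t‖ * ‖PR χ₂ (R ^ ℓ) t‖ * ‖PQ χ₃ X Y t‖) ^ 2
            ≤ Real.exp (-(Δ * t) ^ 2) * (κ * (‖PR χ₁ R t‖ ^ (ℓ + 1) * ‖PQ χ₃ X Y t‖) ^ 2) :=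
              mul_le_mul_of_nonneg_left hpt (Real.exp_pos _).le
          _ = κ * (Real.exp (-(Δ * t) ^ 2)
              * (‖PR χ₁ R t‖ ^ (ℓ + 1) * ‖PQ χ₃ X Y t‖) ^ 2) := by ring
    _ ≤ ∫ t, κ * (Real.exp (-(Δ * t) ^ 2) *
          ‖(PR χ₁ R t) ^ (ℓ + 1) * PQ χ₃ X Y t‖ ^ 2) := by
        apply setIntegral_le_integral hi3
        exact Filter.Eventually.of_forall fun t => by positivity
    _ = κ * ∫ t, Real.exp (-(Δ * t) ^ 2) *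
          ‖(PR χ₁ R t) ^ (ℓ + 1) * PQ χ₃ X Y t‖ ^ 2 := integral_const_mul _ _
    _ ≤ κ * (C * (ℓ + 2).factorial / Real.log X) := mul_le_mul_of_nonneg_left hM hκ0
    _ ≤ δ * TG2 X R ℓ := hT2

end Pool.Agent.E3
end
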