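import Pool.Agent.Lib.MP_bae66e_nt.Mg.G114
import Pool.Agent.Lib.MP_bae66e_nt.Mg.G035
import Pool.Agent.Lib.MP_bae66e_nt.Mg.G030
import Pool.Agent.Lib.MP_bae66e_nt.Mg.G113
import Pool.Agent.Lib.MP_bae66e_nt.Mg.G039
import Pool.Agent.Lib.MP_bae66e_nt.Mg.G032
import Pool.Agent.Lib.MP_bae66e_nt.Mg.G003
import Pool.Agent.Lib.MP_bae66e_nt.Mg.G036

section

/-!
# Row J: the first moment
-/

set_option autoImplicit false

namespace Pool.Agent.Lib.MP_bae66e_nt.TF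

open Finset MeasureTheory Real
open Pool.Agent.E3
open Pool.Agent.Lib.MP_bae66e_nt.LL (fP gW)
open Pool.Agent.Lib.MP_bae66e_nt.AC (Sg VV)
open Pool.Agent.Lib.MP_bae66e_nt.AP3 (prI mem_prI)

/-- the sum over the classes -/
private theorem J_classes (g : ℕ → ℝ) (W m : ℕ) (hW : 1 ≤ W) (c B L A : ℝ)
    (h : ∀ v ∈ VV W m, |g v - B / (Nat.totient W * L) * A| ≤ c / Nat.totient W) :
    |(W : ℝ) / Nat.totient W * ∑ v ∈ VV W m, g v - Sg W m * (B / L * A)| ≤ Sg W m * c := by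
  have hφ : (0 : ℝ) < (Nat.totient W : ℝ) := by exact_mod_cast Nat.totient_pos.2 hW
  have hWr : (0 : ℝ) < (W : ℝ) := by exact_mod_cast hW
  have e1 : (W : ℝ) / Nat.totient W * ∑ v ∈ VV W m, g v - Sg W m * (B / L * A) =
      (W : ℝ) / Nat.totient W * ∑ v ∈ VV W m, (g v - B / (Nat.totient W * L) * A) := by
    rw [Finset.sum_sub_distrib, Finset.sum_const, nsmul_eq_mul, mul_sub]
    congr 1
    unfold Sg
    rw [← div_div]
    field_simp
  have e2 : |∑ v ∈ VV W m, (g v - B / (Nat.totient W * L) * A)| ≤ (#(VV W m) : ℝ) * (c / Nat.totient W) := by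
    refine (Finset.abs_sum_le_sum_abs _ _).trans ?_
    refine (Finset.sum_le_sum h).trans (le_of_eq ?_)
    rw [Finset.sum_const, nsmul_eq_mul]
  rw [e1, abs_mul, abs_of_nonneg (by positivity)]
  calc (W : ℝ) / Nat.totient W * |∑ v ∈ VV W m, (g v - B / (Nat.totient W * L) * A)|
      ≤ (W : ℝ) / Nat.totient W * ((#(VV W m) : ℝ) * (c / Nat.totient W)) :=
        mul_le_mul_of_nonneg_left e2 (by positivity)
    _ = Sg W m * c := by
        unfold Sg
        field_simp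

/-- Chebyshev -/
private theorem J_cheb (S : Finset ℕ) (D : ℕ → ℝ) (b M : ℝ) (hb : 0 < b) (h : ∑ m ∈ S, (D m) ^ 2 ≤ M * b ^ 2) :
    (#{m ∈ S | b < |D m|} : ℝ) ≤ M := by
  have e1 : (#{m ∈ S | b < |D m|} : ℝ) * b ^ 2 ≤ ∑ m ∈ S, (D m) ^ 2 := by
    calc (#{m ∈ S | b < |D m|} : ℝ) * b ^ 2 = ∑ m ∈ S with b < |D m|, b ^ 2 := by
          rw [Finset.sum_const, nsmul_eq_mul]
      _ ≤ ∑ m ∈ S with b < |D m|, (D m) ^ 2 := by
          apply Finset.sum_le_sum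
          intro m hm
          have h := (Finset.mem_filter.1 hm).2
          rw [← sq_abs (D m)]
          exact pow_le_pow_left₀ hb.le h.le 2
      _ ≤ _ := Finset.sum_le_sum_of_subset_of_nonneg (Finset.filter_subset _ _)
          (fun _ _ _ => sq_nonneg _)
  exact le_of_mul_le_mul_right (e1.trans h) (by positivity)

/-- PROOF. As `firf_of` (EF/J2; copy and adapt; `model_eq` (EF/J1) is general). -/
theorem firt_of (a c : ℝ) (ha : 3 ≤ a) (hc : 2 ≤ c) (h1 : WINT a c) (h2 : VART a c) : FIRT a c := by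
  classical
  intro K ε δ hK hε hδ
  obtain ⟨w₀, hvar⟩ := h2 K (δ * ε ^ 2 / 8) hK (by positivity)
  refine ⟨max w₀ 2, fun w hw => ?_⟩
  have hw2 : 2 ≤ w := (le_max_right _ _).trans hw
  obtain ⟨X₁, hX₁⟩ := hvar w ((le_max_left _ _).trans hw)
  set W := primorial w with hW
  have hWpos : 0 < W := primorial_pos w
  have hWr : (0 : ℝ) < (W : ℝ) := by exact_mod_cast hWpos
  obtain ⟨X₂, hX₂⟩ := h1 W hWpos K (ε / 2) (δ / (2 * W)) hK (by positivity) (by positivity)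
  obtain ⟨X₃, hX₃⟩ := parT a c w 1 ha hc one_pos
  refine ⟨max X₁ (max X₂ X₃), fun X hX R ℓ H hPX τ hτ => ?_⟩
  have hXa : X₁ ≤ X := le_trans (le_max_left _ _) hX
  have hXb : X₂ ≤ X := le_trans (le_trans (le_max_left _ _) (le_max_right _ _)) hX
  have hXc : X₃ ≤ X := le_trans (le_trans (le_max_right _ _) (le_max_right _ _)) hX
  have hQ := hX₃ X hXc R ℓ H hPX
  have p17 : 0 < FT R ℓ X := hQ.F0
  have hwR : w ≤ R := by exact_mod_cast hQ.KR
  have hwX : w ≤ Nat.sqrt X := by exact_mod_cast hQ.KX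
  have hXr : (0 : ℝ) < (X : ℝ) := by exact_mod_cast (by have := hQ.X64; omega : 0 < X)
  have hH0 : (0 : ℝ) < (H : ℝ) := by exact_mod_cast (by have := hQ.H2; omega : 0 < H)
  have hV := hX₁ X hXa R ℓ H hPX τ hτ
  have hWin := hX₂ X hXb R ℓ H hPX τ hτ
  set B : ℝ := H * FT R ℓ X with hB
  have hBpos : 0 < B := mul_pos hH0 p17
  -- the exceptional sets
  set E : ℕ → Finset ℕ := fun v => {m ∈ Icc X (2 * X) | ε / 2 * B / Nat.totient W <
      |∑ n ∈ (Ico (m - H) m).filter (fun n => n ≡ v [MOD W]), fT R ℓ X τ n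
        - H / (Nat.totient W * Real.log X) * A3 R (R ^ ℓ) (YT R ℓ X τ) (Real.log m)|} with hE
  set D : ℕ → ℝ := fun m => ∑ t ∈ Icc 1 H, (fP H (t : ℤ) - gW W H (t : ℤ)) * fT R ℓ X τ (m - t) with hD
  set Z : Finset ℕ := {m ∈ Icc X (2 * X) | ε / 2 * B < |D m|} with hZ
  set V : Finset ℕ := {v ∈ range W | Nat.Coprime v W} with hVd
  have hEcard : ∀ v ∈ V, ((E v).card : ℝ) ≤ δ / (2 * W) * X := by
    intro v hv
    have hv' := (Finset.mem_filter.1 hv).2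
    exact hWin v hv'
  have hZcard : (Z.card : ℝ) ≤ δ / 2 * X := by
    refine J_cheb (Icc X (2 * X)) D (ε / 2 * B) (δ / 2 * X) (by positivity) ?_
    refine hV.trans (le_of_eq ?_)
    ring
  have hsub : ({m ∈ Icc X (2 * X) | Even m ∧ ε * (Sg W m * B) <
      |∑ t ∈ Icc 1 H, fP H (t : ℤ) * fT R ℓ X τ (m - t)
        - Sg W m * (H / Real.log X * A3 R (R ^ ℓ) (YT R ℓ X τ) (Real.log m))|} : Finset ℕ) ⊆ V.biUnion E ∪ Z := by
    intro m hm
    obtain ⟨hm1, hm2, hm3⟩ := Finset.mem_filter.1 hm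
    by_contra hcon
    rw [Finset.mem_union, not_or] at hcon
    obtain ⟨hc1, hc2⟩ := hcon
    have hmX : X ≤ m := (Finset.mem_Icc.1 hm1).1
    have hcl : ∀ v ∈ VV W m, |∑ n ∈ (Ico (m - H) m).filter (fun n => n ≡ v [MOD W]), fT R ℓ X τ n
        - H / (Nat.totient W * Real.log X) * A3 R (R ^ ℓ) (YT R ℓ X τ) (Real.log m)| ≤ ε / 2 * B / Nat.totient W := by
      intro v hv
      have hv' : v ∈ V := by
        rw [hVd, Finset.mem_filter]
        unfold VV at hv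
        rw [Finset.mem_filter] at hv
        exact ⟨hv.1, hv.2.1⟩
      have h5 : m ∉ E v := fun h => hc1 (Finset.mem_biUnion.2 ⟨_, hv', h⟩)
      rw [hE] at h5
      simp only [Finset.mem_filter, not_and, not_lt] at h5
      exact h5 hm1
    have key := J_classes (fun v => ∑ n ∈ (Ico (m - H) m).filter (fun n => n ≡ v [MOD W]), fT R ℓ X τ n)
      W m hWpos (ε / 2 * B) H (Real.log X) (A3 R (R ^ ℓ) (YT R ℓ X τ) (Real.log m)) hcl
    have hmod := Pool.Agent.Lib.MP_bae66e_nt.EF.model_eq (fT R ℓ X τ) W m H hWpos (by have := hQ.XH; omega)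
      (fun n hn => fT_support R ℓ X w n τ hwR hwX hQ.R2 hn)
    rw [← hmod] at key
    have hD1 : |D m| ≤ ε / 2 * B := by
      by_contra h
      exact hc2 (Finset.mem_filter.2 ⟨hm1, not_le.1 h⟩)
    have hD2 : ∑ t ∈ Icc 1 H, fP H (t : ℤ) * fT R ℓ X τ (m - t) =
        D m + ∑ t ∈ Icc 1 H, gW W H (t : ℤ) * fT R ℓ X τ (m - t) := by
      rw [hD, ← Finset.sum_add_distrib]
      apply Finset.sum_congr rfl
      intro t _
      ring
    have hSg : 1 ≤ Sg W m := (Pool.Agent.Lib.MP_bae66e_nt.AC.one_le_Sg w m hw2 hm2).1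
    have hSB : ε / 2 * B ≤ Sg W m * (ε / 2 * B) := le_mul_of_one_le_left (by positivity) hSg
    rw [hD2, add_sub_assoc] at hm3
    have h7 := abs_add_le (D m) (∑ t ∈ Icc 1 H, gW W H (t : ℤ) * fT R ℓ X τ (m - t)
      - Sg W m * (H / Real.log X * A3 R (R ^ ℓ) (YT R ℓ X τ) (Real.log m)))
    have h8 : ε * (Sg W m * B) = Sg W m * (ε / 2 * B) + Sg W m * (ε / 2 * B) := by ring
    linarith
  have hVcard : (V.card : ℝ) ≤ W := by
    have : V.card ≤ (range W).card := Finset.card_filter_le _ _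
    rw [Finset.card_range] at this
    exact_mod_cast this
  calc (#{m ∈ Icc X (2 * X) | Even m ∧ ε * (Sg W m * B) <
      |∑ t ∈ Icc 1 H, fP H (t : ℤ) * fT R ℓ X τ (m - t)
        - Sg W m * (H / Real.log X * A3 R (R ^ ℓ) (YT R ℓ X τ) (Real.log m))|} : ℝ)
      ≤ ((V.biUnion E ∪ Z).card : ℝ) := by exact_mod_cast Finset.card_le_card hsub
    _ ≤ ((V.biUnion E).card : ℝ) + (Z.card : ℝ) := by exact_mod_cast Finset.card_union_le _ _
    _ ≤ (∑ v ∈ V, ((E v).card : ℝ)) + (Z.card : ℝ) := by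
        have : (V.biUnion E).card ≤ ∑ v ∈ V, (E v).card := Finset.card_biUnion_le
        have h' : ((V.biUnion E).card : ℝ) ≤ ∑ v ∈ V, ((E v).card : ℝ) := by exact_mod_cast this
        linarith
    _ ≤ (∑ v ∈ V, δ / (2 * W) * X) + δ / 2 * X := by
        have := Finset.sum_le_sum hEcard
        linarith
    _ = (V.card : ℝ) * (δ / (2 * W) * X) + δ / 2 * X := by rw [Finset.sum_const, nsmul_eq_mul]
    _ ≤ (W : ℝ) * (δ / (2 * W) * X) + δ / 2 * X := by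
        have := mul_le_mul_of_nonneg_right hVcard (by positivity : 0 ≤ δ / (2 * W) * X)
        linarith
    _ = δ * X := by
        field_simp
        ring


end Pool.Agent.Lib.MP_bae66e_nt.TF
end

section

/-!
# Row P7: the long window of the primes (EF/P3 and MF/P5 with a general `Y`)
-/

set_option autoImplicit false

namespace Pool.Agent.Lib.MP_bae66e_nt.TF

open Finset MeasureTheory Real Filter
open Pool.Agent.E3
open Pool.Agent.Lib.MP_bae66e_nt.EF (PX Wt HR gA COREG gg gg_bd gg_tail gg_integral gg_integrable outside cells gsn_integral')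
open Pool.Agent.Lib.MP_bae66e_nt.LL (fP gW)
open Pool.Agent.Lib.MP_bae66e_nt.AC (Sg VV)
open Pool.Agent.Lib.MP_bae66e_nt.AP3 (prI mem_prI)

/-- PROOF. As `one_q_asymp` (MF/P5) with `y = log Y` in place of `log X` in the weight, and `|x - log X| ≤ η log X`, `|log Y - log X| ≤ η log X` in place of `|x - log X| ≤ 4`
(its proof uses only `hdx : |x₁ - ℓ| ≤ η * ℓ`). `om Y q = exp (-(log Y - log q)²)`, so the sum is `∑ gg L x (log Y) (log q)/q`. -/
theorem one_q_gen (W : ℕ) (hW : 1 ≤ W) (ε : ℝ) (hε : 0 < ε) : ∃ L₀ η : ℝ, 0 < L₀ ∧ 0 < η ∧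
    ∀ L : ℝ, 0 < L → L ≤ L₀ → ∃ X₀ : ℕ, ∀ X : ℕ, X₀ ≤ X → ∀ (x Y : ℝ) (b : ℕ), 0 < Y →
      |x - Real.log X| ≤ η * Real.log X → Nat.Coprime b W →
      |∑ q ∈ (QS X).filter (fun q => q ≡ b [MOD W]), om Y q / q * gsn L (x - Real.log q)
        - Real.sqrt (2 * π) * Real.exp (-(x - Real.log Y) ^ 2) / ((Nat.totient W : ℝ) * Real.log X)|
        ≤ ε / ((Nat.totient W : ℝ) * Real.log X) := by
  obtain ⟨η, hη⟩ : ∃ η : ℝ, η = min (1 / 4) (ε / 48) := ⟨_, rfl⟩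
  have hη0 : 0 < η := by rw [hη]; exact lt_min (by norm_num) (by positivity)
  have hη1 : η ≤ 1 / 4 := by rw [hη]; exact min_le_left _ _
  have hη2 : η ≤ ε / 48 := by rw [hη]; exact min_le_right _ _
  refine ⟨min 1 (ε / 32), η, lt_min one_pos (by positivity), hη0, fun L hL hL0 => ?_⟩
  have hL1 : L ≤ 1 := hL0.trans (min_le_left _ _)
  have hL2 : 4 * L ≤ ε / 8 := by
    have := hL0.trans (min_le_right _ _)
    linarith
  obtain ⟨K, hK1, hK2, hout⟩ := outside W hW L (ε / 8) (128 / ε) hL (by positivity)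
  obtain ⟨z₀, hz0, hcells⟩ := cells W hW L K (ε / 8) hL hL1 hK1 (by positivity)
  have hLt : Tendsto (fun X : ℕ => Real.log X) atTop atTop :=
    Real.tendsto_log_atTop.comp tendsto_natCast_atTop_atTop
  obtain ⟨X₂, hX₂⟩ := eventually_atTop.mp (hLt.eventually_ge_atTop (4 * K * L + 2 * z₀ + 8))
  refine ⟨max X₂ 8, fun X hX x Y b₀ hY0 hx hbW => ?_⟩
  have hX2 : X₂ ≤ X := (le_max_left _ _).trans hX
  have hX8 : 8 ≤ X := (le_max_right _ _).trans hX
  have hlog := hX₂ X hX2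
  obtain ⟨ℓ, hℓ⟩ : ∃ ℓ : ℝ, ℓ = Real.log X := ⟨_, rfl⟩
  rw [← hℓ] at hlog hx ⊢
  have hKL0 : 0 < K * L := by positivity
  have hℓ8 : 8 ≤ ℓ := by linarith
  have hℓ0 : 0 < ℓ := by linarith
  have hX0 : (0 : ℝ) < X := by exact_mod_cast (by omega : 0 < X)
  have hexpℓ : Real.exp ℓ = X := by rw [hℓ, Real.exp_log hX0]
  obtain ⟨x₁, hx₁⟩ : ∃ x₁ : ℝ, x₁ = x := ⟨_, rfl⟩
  have hdx : |x₁ - ℓ| ≤ η * ℓ := by rw [hx₁]; exact hx
  have hdx' := abs_le.mp hdx
  have hx1low : 3 / 4 * ℓ ≤ x₁ := by nlinarith [hdx'.1]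
  have hx1up : x₁ ≤ 5 / 4 * ℓ := by nlinarith [hdx'.2]
  have hx1z : z₀ ≤ x₁ := by linarith
  have hx11 : 1 ≤ x₁ := by linarith
  have hx10 : 0 < x₁ := by linarith
  have hKL : K * L ≤ ℓ / 4 := by linarith
  obtain ⟨b, hbd⟩ : ∃ b : ℤ, b = (b₀ : ℤ) := ⟨_, rfl⟩
  have hb : IsCoprime b (W : ℤ) := by rw [hbd]; exact Nat.isCoprime_iff_coprime.mpr hbW
  have hbiff : ∀ q : ℕ, (q ≡ b₀ [MOD W] ↔ (q : ℤ) ≡ b [ZMOD (W : ℤ)]) := by
    intro q
    rw [hbd]
    exact Int.natCast_modEq_iff.symm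
  obtain ⟨y, hy⟩ : ∃ y : ℝ, y = Real.log Y := ⟨_, rfl⟩
  have hφ : (0 : ℝ) < Nat.totient W := by exact_mod_cast Nat.totient_pos.mpr hW
  obtain ⟨φ, hφd⟩ : ∃ φ : ℝ, φ = (Nat.totient W : ℝ) := ⟨_, rfl⟩
  have hc := hcells x₁ y hx1z b hb
  have ho := hout (X ^ 2) x₁ y hx11
  have hgt := gg_tail L K x₁ y hL (by linarith)
  have hgi := (gg_integral L x₁ y hL).2
  rw [← hφd] at hc ho hφ ⊢
  -- the filter
  have hfil : (QS X).filter (fun q => q ≡ b₀ [MOD W]) = (QS X).filter (fun q : ℕ => (q : ℤ) ≡ b [ZMOD (W : ℤ)]) :=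
    Finset.filter_congr fun q _ => hbiff q
  rw [hfil]
  set QB := (QS X).filter (fun q : ℕ => (q : ℤ) ≡ b [ZMOD (W : ℤ)]) with hQB
  have hterm : ∀ q ∈ QB, om Y q / q * gsn L (x - Real.log q) = gg L x₁ y (Real.log q) / q := by
    intro q hq
    rw [hQB, Finset.mem_filter] at hq
    have hq0 : (0 : ℝ) < q := by
      have := (mem_prI.mp hq.1).2.pos
      exact_mod_cast this
    unfold om gs gg
    rw [hx₁, hy, one_mul, show (Real.log Y - Real.log q) ^ 2 = (Real.log q - Real.log Y) ^ 2 by ring]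
    field_simp
  rw [Finset.sum_congr rfl hterm]
  -- split
  set w : Finset ℕ := (prI ⌊Real.exp (x₁ - K * L)⌋₊ ⌊Real.exp (x₁ + K * L)⌋₊).filter (fun q : ℕ => (q : ℤ) ≡ b [ZMOD (W : ℤ)]) with hw
  have hsub : w ⊆ QB := by
    intro q hq
    rw [hw, Finset.mem_filter] at hq
    have hq1 := mem_prI.mp hq.1
    rw [hQB, Finset.mem_filter]
    refine ⟨mem_prI.mpr ⟨⟨?_, ?_⟩, hq1.2⟩, hq.2⟩
    · refine lt_of_le_of_lt ?_ hq1.1.1
      apply Nat.le_floor
      refine (Real.nat_sqrt_le_real_sqrt).trans ?_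
      rw [Real.sqrt_eq_rpow, ← hexpℓ, ← Real.exp_mul]
      apply Real.exp_le_exp.2
      linarith
    · refine hq1.1.2.trans ?_
      apply Nat.floor_le_of_le
      push_cast
      rw [← hexpℓ, ← Real.exp_nat_mul]
      apply Real.exp_le_exp.2
      push_cast
      linarith
  have hnn : ∀ q : ℕ, 0 ≤ gg L x₁ y (Real.log q) / q := fun q =>
    div_nonneg (gg_bd L x₁ y _ hL).1 (Nat.cast_nonneg q)
  have hrest : QB \ w ⊆ (prI 0 (X ^ 2)).filter (fun q : ℕ => K * L ≤ |x₁ - Real.log q|) := by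
    intro q hq
    rw [Finset.mem_sdiff] at hq
    have hq1 : q ∈ QS X ∧ (q : ℤ) ≡ b [ZMOD (W : ℤ)] := by
      have := hq.1
      rw [hQB, Finset.mem_filter] at this
      exact this
    have hq2 := mem_prI.mp hq1.1
    have hq0 : (0 : ℝ) < q := by exact_mod_cast hq2.2.pos
    rw [Finset.mem_filter]
    refine ⟨mem_prI.mpr ⟨⟨hq2.2.pos, hq2.1.2⟩, hq2.2⟩, ?_⟩
    have hnw : ¬ (⌊Real.exp (x₁ - K * L)⌋₊ < q ∧ q ≤ ⌊Real.exp (x₁ + K * L)⌋₊) := by
      intro hcon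
      apply hq.2
      rw [hw, Finset.mem_filter]
      exact ⟨mem_prI.mpr ⟨hcon, hq2.2⟩, hq1.2⟩
    rw [not_and_or, not_lt, not_le] at hnw
    rcases hnw with h | h
    · have h1 : (q : ℝ) ≤ Real.exp (x₁ - K * L) := by
        have h2 : (q : ℝ) ≤ (⌊Real.exp (x₁ - K * L)⌋₊ : ℝ) := by exact_mod_cast h
        exact h2.trans (Nat.floor_le (Real.exp_pos _).le)
      have h2 := (Real.log_le_iff_le_exp hq0).2 h1
      exact le_trans (by linarith) (le_abs_self _)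
    · have h1 : Real.exp (x₁ + K * L) ≤ q := by
        have h2 := Nat.lt_floor_add_one (Real.exp (x₁ + K * L))
        have h3 : (⌊Real.exp (x₁ + K * L)⌋₊ : ℝ) + 1 ≤ q := by exact_mod_cast h
        linarith
      have h2 := (Real.le_log_iff_exp_le hq0).2 h1
      rw [abs_sub_comm]
      exact le_trans (by linarith) (le_abs_self _)
  obtain ⟨S, hS⟩ : ∃ S : ℝ, S = ∑ q ∈ QB, gg L x₁ y (Real.log q) / q := ⟨_, rfl⟩
  obtain ⟨Sw, hSw⟩ : ∃ S : ℝ, S = ∑ q ∈ w, gg L x₁ y (Real.log q) / q := ⟨_, rfl⟩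
  obtain ⟨Iw, hIw⟩ : ∃ I : ℝ, I = ∫ u in Set.Ioc (x₁ - K * L) (x₁ + K * L), gg L x₁ y u := ⟨_, rfl⟩
  obtain ⟨I, hI⟩ : ∃ I : ℝ, I = ∫ u : ℝ, gg L x₁ y u := ⟨_, rfl⟩
  have hsplit : S = Sw + ∑ q ∈ QB \ w, gg L x₁ y (Real.log q) / q := by
    rw [hS, hSw, add_comm, Finset.sum_sdiff hsub]
  have hr0 : 0 ≤ ∑ q ∈ QB \ w, gg L x₁ y (Real.log q) / q := Finset.sum_nonneg fun q _ => hnn q
  have hr1 : ∑ q ∈ QB \ w, gg L x₁ y (Real.log q) / q ≤ ε / 8 / (φ * x₁) :=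
    (Finset.sum_le_sum_of_subset_of_nonneg hrest fun q _ _ => hnn q).trans ho
  rw [← hS]
  rw [← hSw, ← hIw] at hc
  rw [← hI, ← hIw] at hgt
  rw [← hI] at hgi
  -- sizes
  have hIw0 : 0 ≤ Iw := by rw [hIw]; exact integral_nonneg fun u => (gg_bd L x₁ y u hL).1
  have hIw1 : Iw ≤ 3 := by
    rw [hIw]
    have h1 := gsn_integral' L x₁ hL
    refine (setIntegral_le_integral (gg_integrable L x₁ y hL) (Filter.Eventually.of_forall fun u => (gg_bd L x₁ y u hL).1)).trans ?_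
    refine (integral_mono (gg_integrable L x₁ y hL) h1.1 (fun u => (gg_bd L x₁ y u hL).2.1)).trans ?_
    rw [h1.2, Real.sqrt_le_left (by norm_num)]
    have := Real.pi_lt_d4
    linarith
  have hK3 : 4 * Real.exp (-(K ^ 2 / 4)) ≤ ε / 8 := by
    have h5 : Real.exp (-(K ^ 2 / 4)) ≤ 4 / K := by
      rw [Real.exp_neg, ← one_div, div_le_div_iff₀ (Real.exp_pos _) (by linarith)]
      have := Real.add_one_le_exp (K ^ 2 / 4)
      nlinarith
    have h6 : 4 / K ≤ ε / 32 := by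
      rw [div_le_div_iff₀ (by linarith) (by norm_num)]
      rw [div_le_iff₀ hε] at hK2
      linarith
    linarith
  obtain ⟨t, ht⟩ : ∃ t : ℝ, t = 1 / (φ * ℓ) := ⟨_, rfl⟩
  have ht0 : 0 < t := by rw [ht]; positivity
  obtain ⟨t₁, ht₁⟩ : ∃ t : ℝ, t = 1 / (φ * x₁) := ⟨_, rfl⟩
  have ht10 : 0 < t₁ := by rw [ht₁]; positivity
  have ht1t : t₁ ≤ 2 * t := by
    rw [ht₁, ht, mul_one_div, div_le_div_iff₀ (by positivity) (by positivity)]
    nlinarith
  have htd : |t₁ - t| ≤ 2 * η * t := by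
    have e1 : t₁ - t = (ℓ - x₁) / x₁ * t := by
      rw [ht₁, ht]
      field_simp
    rw [e1, abs_mul, abs_of_pos ht0]
    apply mul_le_mul_of_nonneg_right _ ht0.le
    rw [abs_div, abs_of_pos hx10, div_le_iff₀ hx10, abs_sub_comm]
    nlinarith
  have c1 : |Sw - t₁ * Iw| ≤ ε / 8 * t₁ := by
    rw [ht₁]
    refine hc.trans (le_of_eq ?_)
    ring
  have c2 : ε / 8 / (φ * x₁) = ε / 8 * t₁ := by rw [ht₁]; ring
  rw [c2] at hr1
  have key : |S - t * (Real.sqrt (2 * π) * Real.exp (-(x₁ - y) ^ 2))| ≤ ε * t := by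
    obtain ⟨E, hE⟩ : ∃ E : ℝ, E = Real.sqrt (2 * π) * Real.exp (-(x₁ - y) ^ 2) := ⟨_, rfl⟩
    rw [← hE] at hgi ⊢
    have e1 : S - t * E = (Sw - t₁ * Iw) + (S - Sw) + (t₁ - t) * Iw + t * (Iw - I) + t * (I - E) := by ring
    have e2 : |(t₁ - t) * Iw| ≤ 2 * η * t * 3 := by
      rw [abs_mul, abs_of_nonneg hIw0]
      exact mul_le_mul htd hIw1 hIw0 (by positivity)
    have e3 : |t * (Iw - I)| ≤ t * (ε / 8) := by
      rw [abs_mul, abs_of_pos ht0, abs_sub_comm]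
      exact mul_le_mul_of_nonneg_left (hgt.trans hK3) ht0.le
    have e4 : |t * (I - E)| ≤ t * (ε / 8) := by
      rw [abs_mul, abs_of_pos ht0]
      exact mul_le_mul_of_nonneg_left (hgi.trans hL2) ht0.le
    have e5 : |S - Sw| ≤ ε / 8 * t₁ := by
      rw [hsplit, add_sub_cancel_left, abs_of_nonneg hr0]
      exact hr1
    rw [e1]
    have f1 := abs_add_le ((Sw - t₁ * Iw) + (S - Sw) + (t₁ - t) * Iw + t * (Iw - I)) (t * (I - E))
    have f2 := abs_add_le ((Sw - t₁ * Iw) + (S - Sw) + (t₁ - t) * Iw) (t * (Iw - I))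
    have f3 := abs_add_le ((Sw - t₁ * Iw) + (S - Sw)) ((t₁ - t) * Iw)
    have f4 := abs_add_le (Sw - t₁ * Iw) (S - Sw)
    have g1 : ε / 8 * t₁ ≤ ε / 8 * (2 * t) := mul_le_mul_of_nonneg_left ht1t (by positivity)
    have g2 : 2 * η * t * 3 ≤ ε / 8 * t := by nlinarith
    linarith
  have fin1 : S - Real.sqrt (2 * π) * Real.exp (-(x - Real.log Y) ^ 2) / (φ * ℓ) =
      S - t * (Real.sqrt (2 * π) * Real.exp (-(x₁ - y) ^ 2)) := by
    rw [ht, hx₁, hy]
    ring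
  have fin2 : ε / (φ * ℓ) = ε * t := by rw [ht]; ring
  rw [fin1, fin2]
  exact key

end Pool.Agent.Lib.MP_bae66e_nt.TF
end

section

/-!
# Row P8: the long windows
-/

set_option autoImplicit false

namespace Pool.Agent.Lib.MP_bae66e_nt.TF

open Finset MeasureTheory Real
open Pool.Agent.E3
open Pool.Agent.Lib.MP_bae66e_nt.LL (fP gW)
open Pool.Agent.Lib.MP_bae66e_nt.AC (Sg VV)
open Pool.Agent.Lib.MP_bae66e_nt.AP3 (prI mem_prI)

/-- PROOF. `sum_SS` (E3/B2), `recip_IS` (E3/MVp). -/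
theorem recip_SS : ∃ C : ℝ, 1 ≤ C ∧ ∀ R₁ R₂ : ℕ, 2 ≤ R₁ → 2 * R₁ ≤ R₂ →
    ∑ s ∈ SS R₁ R₂, 1 / (s : ℝ) ≤ C / (Real.log R₁ * Real.log R₂) := by
  obtain ⟨C, hC, h⟩ := recip_IS
  refine ⟨C * C, by nlinarith, fun R₁ R₂ h1 h2 => ?_⟩
  have hl1 : 0 < Real.log R₁ := Real.log_pos (by exact_mod_cast (by omega : 1 < R₁))
  have hl2 : 0 < Real.log R₂ := Real.log_pos (by exact_mod_cast (by omega : 1 < R₂))
  rw [sum_SS R₁ R₂ h2 (fun s => 1 / (s : ℝ))]
  have e : ∑ r ∈ IS R₁, ∑ r' ∈ IS R₂, 1 / (((r * r' : ℕ) : ℕ) : ℝ) =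
      (∑ r ∈ IS R₁, 1 / (r : ℝ)) * ∑ r' ∈ IS R₂, 1 / (r' : ℝ) := by
    rw [Finset.sum_mul_sum]
    refine Finset.sum_congr rfl fun r _ => Finset.sum_congr rfl fun r' _ => ?_
    push_cast
    rw [one_div_mul_one_div]
  rw [e]
  have h3 := (h R₁ h1).1
  have h4 := (h R₂ (by omega)).1
  calc (∑ r ∈ IS R₁, 1 / (r : ℝ)) * ∑ r' ∈ IS R₂, 1 / (r' : ℝ)
      ≤ C / Real.log R₁ * (C / Real.log R₂) :=
        mul_le_mul h3 h4 (Finset.sum_nonneg fun r _ => by positivity) (by positivity)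
    _ = C * C / (Real.log R₁ * Real.log R₂) := by rw [div_mul_div_comm]

/-- PROOF. `sum_SS`, `recip_IS_ge` (E3/P3). -/
theorem recip_SS_ge : ∃ R₀ : ℕ, 2 ≤ R₀ ∧ ∀ R₁ R₂ : ℕ, R₀ ≤ R₁ → 2 * R₁ ≤ R₂ →
    1 / (64 * (Real.log R₁ * Real.log R₂)) ≤ ∑ s ∈ SS R₁ R₂, 1 / (s : ℝ) :=
  Pool.Agent.E3.recip_SS_ge

/-- PROOF. As `AA_bd` (EF/P4): `0 < exp (- u²) ≤ 1` and `exp (- u²)` is Lipschitz with the constant `1` (`exp_sq_lip`, EF/P2); `recip_SS`. -/
theorem A3_bd : ∃ C : ℝ, 1 ≤ C ∧ ∀ (R₁ R₂ : ℕ) (Y : ℝ), 2 ≤ R₁ → 2 * R₁ ≤ R₂ →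
    (∀ x, 0 ≤ A3 R₁ R₂ Y x ∧ A3 R₁ R₂ Y x ≤ C / (Real.log R₁ * Real.log R₂)) ∧
    ∀ x y, |A3 R₁ R₂ Y x - A3 R₁ R₂ Y y| ≤ C / (Real.log R₁ * Real.log R₂) * |x - y| := by
  obtain ⟨C, hC, hrec⟩ := recip_SS
  refine ⟨C, hC, fun R₁ R₂ Y h1 h2 => ⟨fun x => ⟨?_, ?_⟩, fun x y => ?_⟩⟩
  · unfold A3
    exact Finset.sum_nonneg fun s _ => by positivity
  · refine le_trans ?_ (hrec R₁ R₂ h1 h2)
    unfold A3
    refine Finset.sum_le_sum fun s hs => ?_
    have h3 : Real.exp (-(x - Real.log s - Real.log Y) ^ 2) ≤ 1 := by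
      rw [Real.exp_le_one_iff]
      have := sq_nonneg (x - Real.log s - Real.log Y)
      linarith
    have h4 : 0 ≤ 1 / (s : ℝ) := by positivity
    calc 1 / (s : ℝ) * Real.exp (-(x - Real.log s - Real.log Y) ^ 2) ≤ 1 / (s : ℝ) * 1 :=
          mul_le_mul_of_nonneg_left h3 h4
      _ = 1 / (s : ℝ) := mul_one _
  · have e : A3 R₁ R₂ Y x - A3 R₁ R₂ Y y = ∑ s ∈ SS R₁ R₂, 1 / (s : ℝ) *
        (Real.exp (-(x - Real.log s - Real.log Y) ^ 2) -
          Real.exp (-(y - Real.log s - Real.log Y) ^ 2)) := by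
      unfold A3
      rw [← Finset.sum_sub_distrib]
      exact Finset.sum_congr rfl fun s _ => by ring
    rw [e]
    calc |∑ s ∈ SS R₁ R₂, 1 / (s : ℝ) *
        (Real.exp (-(x - Real.log s - Real.log Y) ^ 2) -
          Real.exp (-(y - Real.log s - Real.log Y) ^ 2))|
        ≤ ∑ s ∈ SS R₁ R₂, |1 / (s : ℝ) *
        (Real.exp (-(x - Real.log s - Real.log Y) ^ 2) -
          Real.exp (-(y - Real.log s - Real.log Y) ^ 2))| := Finset.abs_sum_le_sum_abs _ _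
      _ ≤ ∑ s ∈ SS R₁ R₂, 1 / (s : ℝ) * |x - y| := by
          refine Finset.sum_le_sum fun s hs => ?_
          have h4 : 0 ≤ 1 / (s : ℝ) := by positivity
          rw [abs_mul, abs_of_nonneg h4]
          have h5 := Pool.Agent.Lib.MP_bae66e_nt.EF.exp_sq_lip (x - Real.log s - Real.log Y) (y - Real.log s - Real.log Y)
          rw [show x - Real.log s - Real.log Y - (y - Real.log s - Real.log Y) = x - y by ring] at h5
          exact mul_le_mul_of_nonneg_left h5 h4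
      _ = (∑ s ∈ SS R₁ R₂, 1 / (s : ℝ)) * |x - y| := by rw [Finset.sum_mul]
      _ ≤ C / (Real.log R₁ * Real.log R₂) * |x - y| := mul_le_mul_of_nonneg_right (hrec R₁ R₂ h1 h2) (abs_nonneg _)

private theorem P8_class (W s v : ℕ) (hW : 1 ≤ W) (hs : Nat.Coprime s W) (hv : Nat.Coprime v W) : ∃ b : ℕ, Nat.Coprime b W ∧
    ∀ q : ℕ, (s * q ≡ v [MOD W] ↔ q ≡ b [MOD W]) := by
  obtain ⟨a, c, hac⟩ : IsCoprime (s : ℤ) (W : ℤ) := Nat.isCoprime_iff_coprime.mpr hs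
  have hW0 : (W : ℤ) ≠ 0 := by exact_mod_cast (by omega : W ≠ 0)
  have hb0 : 0 ≤ (a * v) % (W : ℤ) := Int.emod_nonneg _ hW0
  have hcop : IsCoprime (a * v : ℤ) (W : ℤ) :=
    IsCoprime.mul_left ⟨s, c, by rw [← hac]; ring⟩ (Nat.isCoprime_iff_coprime.mpr hv)
  refine ⟨((a * v) % (W : ℤ)).toNat, ?_, ?_⟩
  · rw [← Nat.isCoprime_iff_coprime, Int.toNat_of_nonneg hb0]
    have h1 : (a * v) % (W : ℤ) = a * v + (W : ℤ) * (-((a * v) / (W : ℤ))) := by
      have := Int.emod_add_mul_ediv (a * v) (W : ℤ)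
      linarith
    rw [h1]
    exact hcop.add_mul_left_left _
  · intro q
    rw [← Int.natCast_modEq_iff, ← Int.natCast_modEq_iff, Int.toNat_of_nonneg hb0]
    have h2 : ((q : ℤ) ≡ (a * v) % (W : ℤ) [ZMOD (W : ℤ)]) ↔ ((q : ℤ) ≡ a * v [ZMOD (W : ℤ)]) := by
      unfold Int.ModEq
      rw [Int.emod_emod_of_dvd _ (dvd_refl _)]
    rw [h2, Int.modEq_iff_dvd, Int.modEq_iff_dvd]
    push_cast
    constructor
    · rintro ⟨k, hk⟩
      refine ⟨a * k - c * q, ?_⟩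
      have h1 : a * (v - s * q) = a * (W * k) := by rw [hk]
      linear_combination h1 + (q : ℤ) * hac
    · rintro ⟨k, hk⟩
      refine ⟨s * k + c * v, ?_⟩
      have h1 : (s : ℤ) * (a * v - q) = s * (W * k) := by rw [hk]
      linear_combination h1 - (v : ℤ) * hac

/-- PROOF. As `long_a` (EF/P4): for each `s ∈ SS R (R^ℓ)` (coprime to `W` as its prime factors are `> R ≥ W`: `SS_facts`) choose `b` with `s b ≡ v` modulo `W` (so that `s q ≡ v` iff `q ≡ b`;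
EF/P3, `P3_class`, MF), and use `one_q_gen` with `ε/C` at `x - log s`: `log (s q) = log s + log q`, `|x - log s - log X| ≤ 1 + κ log X ≤ η log X` by `QT.ls` with `κ = η/2`.
Sum over `s` with the weights `1/s`: `recip_SS`; `FT = 1/(log R log R^ℓ log X)`. -/
theorem long_t (a c : ℝ) (ha : 3 ≤ a) (hc : 2 ≤ c) : LONGT a c := by
  obtain ⟨C, hC, hrec⟩ := recip_SS
  have hC0 : 0 < C := by linarith
  intro W hW K ε hK hε
  obtain ⟨L₀, η, hL₀, hη, hone⟩ := one_q_gen W hW (ε / C) (by positivity)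
  refine ⟨L₀, hL₀, fun L hL hLL => ?_⟩
  obtain ⟨X₁, h1⟩ := hone L hL hLL
  obtain ⟨X₂, h2⟩ := parT a c (K + ((W : ℝ) + 2) + 2 / η) (η / 2) ha hc (by positivity)
  refine ⟨max X₁ X₂, fun X hX R ℓ H hP τ hτ v hv x hx => ?_⟩
  have hX1 : X₁ ≤ X := (le_max_left _ _).trans hX
  have hX2 : X₂ ≤ X := (le_max_right _ _).trans hX
  have hQ := h2 X hX2 R ℓ H hP
  have h2η : 0 < 2 / η := by positivity
  have hW0 : (0 : ℝ) ≤ W := Nat.cast_nonneg W
  have hlogX : 0 < Real.log X := by have := hQ.lX; linarith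
  have hlogR : 0 < Real.log R := by have := hQ.lR; linarith
  have hlogR2 : 0 < Real.log ((R ^ ℓ : ℕ) : ℝ) := by have := hQ.lR2; linarith
  have hphi : 0 < (Nat.totient W : ℝ) := by exact_mod_cast Nat.totient_pos.mpr hW
  have hWR : W ≤ R := by
    have h3 := hQ.KR
    have h4 : (W : ℝ) ≤ R := by linarith
    exact_mod_cast h4
  have hR1 : 1 ≤ R := by have := hQ.R3; omega
  have hY : 0 < YT R ℓ X τ := by
    have h3 := (hQ.Y τ (by linarith)).1
    have hX0 : (0 : ℝ) < X := by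
      have := hQ.X64
      exact_mod_cast (by omega : 0 < X)
    exact lt_of_lt_of_le (Real.rpow_pos_of_pos hX0 _) h3
  have hone1 : 1 ≤ η / 2 * Real.log X := by
    have h3 := hQ.lK
    have h4 : 2 / η ≤ Real.log X := by linarith
    rw [div_le_iff₀ hη] at h4
    linarith
  have hRle : R ≤ R ^ ℓ := by have := hQ.R2; omega
  have hterm : ∀ s ∈ SS R (R ^ ℓ),
      |∑ q ∈ (QS X).filter (fun q => s * q ≡ v [MOD W]), om (YT R ℓ X τ) q / (s * q) * gsn L (x - Real.log (s * q))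
        - Real.sqrt (2 * π) / (Nat.totient W * Real.log X) *
          (1 / (s : ℝ) * Real.exp (-(x - Real.log s - Real.log (YT R ℓ X τ)) ^ 2))|
        ≤ ε / C / ((Nat.totient W : ℝ) * Real.log X) * (1 / (s : ℝ)) := by
    intro s hs
    obtain ⟨g1, g2, g3, g4⟩ := SS_props R (R ^ ℓ) W s hW hWR hRle hs
    have hs1 : (1 : ℝ) ≤ s := by exact_mod_cast g4
    have hs0 : (0 : ℝ) < s := by linarith
    have hlogs0 : 0 ≤ Real.log s := Real.log_nonneg hs1
    have hlogs : Real.log s ≤ η / 2 * Real.log X := by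
      refine le_trans ?_ hQ.ls
      apply Real.log_le_log hs0
      exact_mod_cast g3
    obtain ⟨b, hb, hbi⟩ := P8_class W s v hW g1 hv
    have hx' := abs_le.mp hx
    have hdx : |x - Real.log s - Real.log X| ≤ η * Real.log X := by
      rw [abs_le]
      constructor
      · linarith [hx'.1]
      · linarith [hx'.2]
    have h3 := h1 X hX1 (x - Real.log s) (YT R ℓ X τ) b hY hdx hb
    have hfil : (QS X).filter (fun q => s * q ≡ v [MOD W]) = (QS X).filter (fun q => q ≡ b [MOD W]) :=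
      Finset.filter_congr fun q _ => hbi q
    rw [hfil]
    have hsum : ∑ q ∈ (QS X).filter (fun q => q ≡ b [MOD W]), om (YT R ℓ X τ) q / (s * q) * gsn L (x - Real.log (s * q)) =
        1 / (s : ℝ) * ∑ q ∈ (QS X).filter (fun q => q ≡ b [MOD W]), om (YT R ℓ X τ) q / q * gsn L (x - Real.log s - Real.log q) := by
      rw [Finset.mul_sum]
      refine Finset.sum_congr rfl fun q hq => ?_
      rw [Finset.mem_filter] at hq
      have hq0 : (0 : ℝ) < q := by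
        have := (mem_prI.mp hq.1).2.pos
        exact_mod_cast this
      rw [Real.log_mul hs0.ne' hq0.ne', show x - (Real.log s + Real.log q) = x - Real.log s - Real.log q by ring]
      field_simp
    rw [hsum]
    have e : 1 / (s : ℝ) * ∑ q ∈ (QS X).filter (fun q => q ≡ b [MOD W]), om (YT R ℓ X τ) q / q * gsn L (x - Real.log s - Real.log q)
        - Real.sqrt (2 * π) / (Nat.totient W * Real.log X) *
          (1 / (s : ℝ) * Real.exp (-(x - Real.log s - Real.log (YT R ℓ X τ)) ^ 2)) =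
        1 / (s : ℝ) * (∑ q ∈ (QS X).filter (fun q => q ≡ b [MOD W]), om (YT R ℓ X τ) q / q * gsn L (x - Real.log s - Real.log q)
        - Real.sqrt (2 * π) * Real.exp (-(x - Real.log s - Real.log (YT R ℓ X τ)) ^ 2) /
          ((Nat.totient W : ℝ) * Real.log X)) := by
      ring
    rw [e, abs_mul, abs_of_nonneg (by positivity : (0 : ℝ) ≤ 1 / (s : ℝ)), mul_comm (ε / C / ((Nat.totient W : ℝ) * Real.log X))]
    exact mul_le_mul_of_nonneg_left h3 (by positivity)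
  have hsum : XV3 W v R (R ^ ℓ) X (YT R ℓ X τ) L x
      - Real.sqrt (2 * π) / (Nat.totient W * Real.log X) * A3 R (R ^ ℓ) (YT R ℓ X τ) x =
      ∑ s ∈ SS R (R ^ ℓ), (∑ q ∈ (QS X).filter (fun q => s * q ≡ v [MOD W]), om (YT R ℓ X τ) q / (s * q) * gsn L (x - Real.log (s * q))
        - Real.sqrt (2 * π) / (Nat.totient W * Real.log X) *
          (1 / (s : ℝ) * Real.exp (-(x - Real.log s - Real.log (YT R ℓ X τ)) ^ 2))) := by
    unfold XV3 A3
    rw [Finset.sum_sub_distrib, Finset.mul_sum]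
  rw [hsum]
  refine (Finset.abs_sum_le_sum_abs _ _).trans ((Finset.sum_le_sum hterm).trans ?_)
  rw [← Finset.mul_sum]
  have hR2 : 2 ≤ R := by have := hQ.R3; omega
  have h4 := hrec R (R ^ ℓ) hR2 hQ.R2
  calc ε / C / ((Nat.totient W : ℝ) * Real.log X) * ∑ s ∈ SS R (R ^ ℓ), 1 / (s : ℝ)
      ≤ ε / C / ((Nat.totient W : ℝ) * Real.log X) * (C / (Real.log R * Real.log ((R ^ ℓ : ℕ) : ℝ))) :=
        mul_le_mul_of_nonneg_left h4 (by positivity)
    _ = ε * FT R ℓ X / Nat.totient W := by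
        unfold FT FG
        field_simp

end Pool.Agent.Lib.MP_bae66e_nt.TF
end
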