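import Pool.Agent.Lib.MP_bae66e_nt.Mg.G114
import Pool.Agent.Lib.MP_bae66e_nt.Mg.G006

section

/-!
# Row W1: short and long windows of one character
-/

set_option autoImplicit false

namespace Pool.Agent.Lib.MP_bae66e_nt.TF

open Finset MeasureTheory Real
open Pool.Agent.E3
open Pool.Agent.Lib.MP_bae66e_nt.LL (fP gW)
open Pool.Agent.Lib.MP_bae66e_nt.AC (Sg VV)
open Pool.Agent.Lib.MP_bae66e_nt.AP3 (prI mem_prI)

/-- PROOF. `planch2` with the index set `SS ×ˢ QS X`, `v (s, q) = log (s q)`, `c (s, q) = ch χ (s q) om q/(s q)`, and `PRPRPQ_eq`. -/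
theorem XX3_planch {W : ℕ} (χ : DirichletCharacter ℂ W) (R₁ R₂ X : ℕ) (Y d l : ℝ) (hd : 0 < d) (hl : 0 < l)
    (hR : 2 * R₁ ≤ R₂) :
    Integrable (fun x : ℝ => ‖XX3 χ R₁ R₂ X Y d x - XX3 χ R₁ R₂ X Y l x‖ ^ 2) ∧
    Integrable (fun y : ℝ => (Real.exp (-(d ^ 2 * y ^ 2 / 2)) - Real.exp (-(l ^ 2 * y ^ 2 / 2))) ^ 2
      * ‖PP3 χ R₁ R₂ X Y y‖ ^ 2) ∧
    ∫ x : ℝ, ‖XX3 χ R₁ R₂ X Y d x - XX3 χ R₁ R₂ X Y l x‖ ^ 2
      = ∫ y : ℝ, (Real.exp (-(d ^ 2 * y ^ 2 / 2)) - Real.exp (-(l ^ 2 * y ^ 2 / 2))) ^ 2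
          * ‖PP3 χ R₁ R₂ X Y y‖ ^ 2 := by
  set I : Finset (ℕ × ℕ) := SS R₁ R₂ ×ˢ QS X with hI
  let c : ℕ × ℕ → ℂ := fun p => ch χ (p.1 * p.2) * ((om (Y) p.2 / (p.1 * p.2) : ℝ) : ℂ)
  let v : ℕ × ℕ → ℝ := fun p => Real.log (p.1 * p.2)
  have h1 : ∀ x : ℝ, XX3 χ R₁ R₂ X Y d x - XX3 χ R₁ R₂ X Y l x =
      ∑ i ∈ I, c i * ((gsn d (x - v i) - gsn l (x - v i) : ℝ) : ℂ) := by
    intro x
    unfold XX3
    rw [← Finset.sum_sub_distrib, hI, Finset.sum_product]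
    refine Finset.sum_congr rfl fun s _ => ?_
    rw [← Finset.sum_sub_distrib]
    refine Finset.sum_congr rfl fun q _ => ?_
    simp only [c, v]
    push_cast
    ring
  have h2 : ∀ y : ℝ, PP3 χ R₁ R₂ X Y y = ∑ i ∈ I, c i * ph y (v i) := by
    intro y
    unfold PP3
    rw [PRPRPQ_eq χ _ _ X _ y hR, hI, Finset.sum_product]
  have h := planch2 I c v d l hd hl
  simp only [h1, h2]
  exact h

/-- PROOF. `C = C₀²` with `C₀` from `PP3_norm`. By `XX3_planch` split the integral over `y` at `|y| = T`. For `|y| < T`: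
`0 ≤ exp (- d²y²/2) - exp (- l²y²/2) ≤ 1 - exp (- l²y²/2) ≤ l² T²/2 = T^(-2)/2`, and `‖PPP‖² ≤ C FG²`: together
`≤ 2 T · T^(-4)/4 · C FG² ≤ C FG²/T`. For `|y| ≥ T`: the square is `≤ exp (- d²y²) = exp (- (d y)²)` (`0 ≤ a - b ≤ a`) and the set
`{T ≤ |y|}` is contained in `{T₀ ≤ |y|}`: the hypothesis (integrability of `exp (- (d y)²) ‖PPP‖²` by `gauss_integrable_of_bounded`,
`PR_continuous`, `PQ_continuous`). -/
theorem char_window_3 : ∃ C : ℝ, 1 ≤ C ∧ ∀ (R₁ R₂ X : ℕ) (Y : ℝ), PY R₁ R₂ X Y →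
    ∀ (W : ℕ) (χ : DirichletCharacter ℂ W) (T₀ T d η : ℝ), 1 ≤ T → T₀ ≤ T → 0 < d → d ≤ 1 / T ^ 2 →
      ∫ t in {t : ℝ | T₀ ≤ |t|}, Real.exp (-(d * t) ^ 2) * ‖PP3 χ R₁ R₂ X Y t‖ ^ 2 ≤ η * (FG R₁ R₂ X) ^ 2 →
      ∫ x : ℝ, ‖XX3 χ R₁ R₂ X Y d x - XX3 χ R₁ R₂ X Y (1 / T ^ 2) x‖ ^ 2 ≤ (C / T + η) * (FG R₁ R₂ X) ^ 2 := by
  obtain ⟨C, hC1, hPPP⟩ := PP3_norm
  refine ⟨C ^ 2, one_le_pow₀ hC1, ?_⟩
  intro R₁ R₂ X Y hPG W χ T₀ T d η hT1 hT0T hd0 hdl hcoreX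
  have hT0 : 0 < T := by linarith
  set l : ℝ := 1 / T ^ 2 with hl
  have hl0 : 0 < l := by positivity
  obtain ⟨_, hJ2, hJ3⟩ := XX3_planch χ R₁ R₂ X Y d l hd0 hl0 hPG.R2
  set F : ℝ → ℝ := fun y => ‖PP3 χ R₁ R₂ X Y y‖ ^ 2 with hF
  have hFc : Continuous F := by
    simp only [hF, PP3]
    exact ((((PR_continuous χ _).mul (PR_continuous χ _)).mul (PQ_continuous χ _ _)).norm).pow 2
  have hF0 : ∀ y, 0 ≤ F y := fun y => by simp only [hF]; positivity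
  have hFb : ∀ y, F y ≤ C ^ 2 * (FG R₁ R₂ X) ^ 2 := by
    intro y
    have h := hPPP R₁ R₂ X Y hPG W χ y
    simp only [hF]
    calc _ ≤ (C * FG R₁ R₂ X) ^ 2 := pow_le_pow_left₀ (norm_nonneg _) h 2
      _ = _ := by ring
  have hFb' : ∀ y, |F y| ≤ C ^ 2 * (FG R₁ R₂ X) ^ 2 := fun y => by
    rw [abs_of_nonneg (hF0 y)]; exact hFb y
  rw [hJ3]
  -- pointwise bound
  set S : Set ℝ := {t : ℝ | T₀ ≤ |t|} with hS
  have hSm : MeasurableSet S := measurableSet_le measurable_const measurable_abs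
  set c₀ : ℝ := (1 / (2 * T ^ 2)) ^ 2 * (C ^ 2 * (FG R₁ R₂ X) ^ 2) with hc₀
  have hc₀0 : 0 ≤ c₀ := by positivity
  have hpt : ∀ y : ℝ, (Real.exp (-(d ^ 2 * y ^ 2 / 2)) - Real.exp (-(l ^ 2 * y ^ 2 / 2))) ^ 2 * F y
      ≤ (Set.Icc (-T) T).indicator (fun _ => c₀) y
        + S.indicator (fun y => Real.exp (-(d * y) ^ 2) * F y) y := by
    intro y
    have hdiff0 : 0 ≤ Real.exp (-(d ^ 2 * y ^ 2 / 2)) - Real.exp (-(l ^ 2 * y ^ 2 / 2)) := by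
      have h1 : d ^ 2 * y ^ 2 / 2 ≤ l ^ 2 * y ^ 2 / 2 := by
        have : d ^ 2 ≤ l ^ 2 := pow_le_pow_left₀ hd0.le hdl 2
        have := mul_le_mul_of_nonneg_right this (sq_nonneg y)
        linarith
      have := Real.exp_le_exp.mpr (neg_le_neg h1)
      linarith
    by_cases hy : |y| < T
    · have hyI : y ∈ Set.Icc (-T) T := by
        rw [abs_lt] at hy
        exact ⟨hy.1.le, hy.2.le⟩
      rw [Set.indicator_of_mem hyI]
      have h2 : 0 ≤ S.indicator (fun y => Real.exp (-(d * y) ^ 2) * F y) y :=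
        Set.indicator_nonneg (fun y _ => mul_nonneg (Real.exp_pos _).le (hF0 y)) y
      have h3 : Real.exp (-(d ^ 2 * y ^ 2 / 2)) - Real.exp (-(l ^ 2 * y ^ 2 / 2)) ≤ 1 / (2 * T ^ 2) := by
        have h4 : Real.exp (-(d ^ 2 * y ^ 2 / 2)) ≤ 1 := by
          rw [Real.exp_le_one_iff]
          have : 0 ≤ d ^ 2 * y ^ 2 / 2 := by positivity
          linarith
        have h5 : 1 - l ^ 2 * y ^ 2 / 2 ≤ Real.exp (-(l ^ 2 * y ^ 2 / 2)) := by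
          have := Real.add_one_le_exp (-(l ^ 2 * y ^ 2 / 2))
          linarith
        have h6 : y ^ 2 ≤ T ^ 2 := by
          rw [← sq_abs y]
          exact pow_le_pow_left₀ (abs_nonneg _) hy.le 2
        have h7 : l ^ 2 * y ^ 2 / 2 ≤ 1 / (2 * T ^ 2) := by
          have h8 : l ^ 2 * y ^ 2 ≤ l ^ 2 * T ^ 2 := mul_le_mul_of_nonneg_left h6 (by positivity)
          have h9 : l ^ 2 * T ^ 2 / 2 = 1 / (2 * T ^ 2) := by
            rw [hl]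
            field_simp
          linarith
        linarith
      have h10 := pow_le_pow_left₀ hdiff0 h3 2
      have h11 := mul_le_mul h10 (hFb y) (hF0 y) (by positivity)
      linarith
    · have hy' : T ≤ |y| := not_lt.mp hy
      have hyS : y ∈ S := hT0T.trans hy'
      rw [Set.indicator_of_mem hyS]
      have h2 : 0 ≤ (Set.Icc (-T) T).indicator (fun _ => c₀) y := Set.indicator_nonneg (fun _ _ => hc₀0) y
      have h3 : (Real.exp (-(d ^ 2 * y ^ 2 / 2)) - Real.exp (-(l ^ 2 * y ^ 2 / 2))) ^ 2 ≤ Real.exp (-(d * y) ^ 2) := by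
        have h4 : Real.exp (-(d ^ 2 * y ^ 2 / 2)) - Real.exp (-(l ^ 2 * y ^ 2 / 2)) ≤ Real.exp (-(d ^ 2 * y ^ 2 / 2)) := by
          have := Real.exp_pos (-(l ^ 2 * y ^ 2 / 2))
          linarith
        refine (pow_le_pow_left₀ hdiff0 h4 2).trans (le_of_eq ?_)
        rw [← Real.exp_nat_mul]
        congr 1
        push_cast
        ring
      have h5 := mul_le_mul_of_nonneg_right h3 (hF0 y)
      linarith
  have hi1 : Integrable (fun y => (Set.Icc (-T) T).indicator (fun _ => c₀) y) := by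
    rw [integrable_indicator_iff measurableSet_Icc]
    exact integrableOn_const (by simp)
  have hi2 : Integrable (fun y => S.indicator (fun y => Real.exp (-(d * y) ^ 2) * F y) y) :=
    (gauss_integrable_of_bounded d _ hd0 F hFc hFb').indicator hSm
  have hmono := integral_mono hJ2 (hi1.add hi2) hpt
  refine hmono.trans ?_
  rw [integral_add' hi1 hi2, integral_indicator hSm, integral_indicator measurableSet_Icc, setIntegral_const,
    Real.volume_real_Icc_of_le (by linarith), smul_eq_mul]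
  have hA : (T - -T) * c₀ ≤ C ^ 2 / T * (FG R₁ R₂ X) ^ 2 := by
    have h1 : (T - -T) * c₀ = C ^ 2 / (2 * T ^ 3) * (FG R₁ R₂ X) ^ 2 := by
      rw [hc₀]
      field_simp
      ring
    rw [h1]
    refine mul_le_mul_of_nonneg_right ?_ (by positivity)
    refine div_le_div_of_nonneg_left (by positivity) hT0 ?_
    have h2 : T ≤ T ^ 3 := by nlinarith [mul_self_nonneg (T - 1)]
    linarith
  linarith

end Pool.Agent.Lib.MP_bae66e_nt.TF
end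

section

/-!
# Row W2: windows in residue classes
-/

set_option autoImplicit false

namespace Pool.Agent.Lib.MP_bae66e_nt.TF

open Finset MeasureTheory Real
open Pool.Agent.E3
open Pool.Agent.Lib.MP_bae66e_nt.LL (fP gW)
open Pool.Agent.Lib.MP_bae66e_nt.AC (Sg VV)
open Pool.Agent.Lib.MP_bae66e_nt.AP3 (prI mem_prI)

private lemma W2_orth (W c n : ℕ) (hW : 1 ≤ W) (hc : Nat.Coprime c W) :
    ∑ χ : DirichletCharacter ℂ W, χ ((c : ZMod W)⁻¹) * ch χ n =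
      if n ≡ c [MOD W] then (Nat.totient W : ℂ) else 0 := by
  have : NeZero W := ⟨by omega⟩
  have hu : IsUnit (c : ZMod W) := (ZMod.isUnit_iff_coprime c W).2 hc
  have h := DirichletCharacter.sum_char_inv_mul_char_eq ℂ hu (n : ZMod W)
  unfold ch
  rw [h]
  by_cases hn : n ≡ c [MOD W]
  · rw [if_pos hn, if_pos ((ZMod.natCast_eq_natCast_iff c n W).2 hn.symm)]
  · rw [if_neg hn, if_neg (fun h => hn ((ZMod.natCast_eq_natCast_iff c n W).1 h).symm)]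

/-- PROOF. Orthogonality (`DirichletCharacter.sum_char_inv_mul_char_eq`): for `v` coprime to `W`
`∑_χ χ(v⁻¹) ch χ n = φ(W)` if `n ≡ v [MOD W]`, and `0` otherwise. -/
theorem XV3_eq (W v : ℕ) (hW : 1 ≤ W) (hv : Nat.Coprime v W) (R₁ R₂ X : ℕ) (Y d x : ℝ) :
    ((XV3 W v R₁ R₂ X Y d x : ℝ) : ℂ)
      = 1 / (Nat.totient W : ℂ) * ∑ χ : DirichletCharacter ℂ W, χ ((v : ZMod W)⁻¹) * XX3 χ R₁ R₂ X Y d x := by
  have hW0 : (Nat.totient W : ℂ) ≠ 0 := by exact_mod_cast (Nat.totient_pos.2 hW).ne'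
  have h1 : ∑ χ : DirichletCharacter ℂ W, χ ((v : ZMod W)⁻¹) * XX3 χ R₁ R₂ X Y d x =
      ∑ s ∈ SS R₁ R₂, ∑ q ∈ QS X,
        (∑ χ : DirichletCharacter ℂ W, χ ((v : ZMod W)⁻¹) * ch χ (s * q)) *
          ((om (Y) q / (s * q) * gsn d (x - Real.log (s * q)) : ℝ) : ℂ) := by
    unfold XX3
    simp only [Finset.mul_sum, Finset.sum_mul]
    rw [Finset.sum_comm]
    refine sum_congr rfl fun s _ => ?_
    rw [Finset.sum_comm]
    refine sum_congr rfl fun q _ => ?_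
    refine sum_congr rfl fun χ _ => ?_
    ring
  rw [h1, Finset.mul_sum]
  unfold XV3
  rw [Complex.ofReal_sum]
  refine sum_congr rfl fun s _ => ?_
  rw [Finset.sum_filter, Complex.ofReal_sum, Finset.mul_sum]
  refine sum_congr rfl fun q _ => ?_
  rw [W2_orth W v (s * q) hW hv]
  by_cases hn : s * q ≡ v [MOD W]
  · rw [if_pos hn, if_pos hn, ← mul_assoc, one_div, inv_mul_cancel₀ hW0, one_mul]
  · rw [if_neg hn, if_neg hn]
    simp

private lemma W2_cont (W v : ℕ) (R₁ R₂ X : ℕ) (Y w : ℝ) : Continuous (fun x : ℝ => XV3 W v R₁ R₂ X Y w x) := by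
  unfold XV3
  refine continuous_finsetSum _ fun s _ => continuous_finsetSum _ fun q _ => ?_
  unfold gsn
  fun_prop

/-- PROOF. `XV3_eq` and Cauchy's inequality: `(WV d - WV l)² ≤ (1/φ(W)) ∑_χ ‖WX χ d - WX χ l‖²` (there are `φ(W)` characters,
`‖χ(v⁻¹)‖ ≤ 1`); integrate with the hypothesis; integrability by `XX3_planch` (and continuity of `WV`). -/
private theorem W2_g (W v : ℕ) (hW : 1 ≤ W) (hv : Nat.Coprime v W) (R₁ R₂ X : ℕ) (Y d l B : ℝ) (hd : 0 < d) (hl : 0 < l)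
    (hR : 2 * R₁ ≤ R₂)
    (h : ∀ χ : DirichletCharacter ℂ W, ∫ x : ℝ, ‖XX3 χ R₁ R₂ X Y d x - XX3 χ R₁ R₂ X Y l x‖ ^ 2 ≤ B) :
    Integrable (fun x : ℝ => (XV3 W v R₁ R₂ X Y d x - XV3 W v R₁ R₂ X Y l x) ^ 2) ∧
    ∫ x : ℝ, (XV3 W v R₁ R₂ X Y d x - XV3 W v R₁ R₂ X Y l x) ^ 2 ≤ B := by
  have : NeZero W := ⟨by omega⟩
  have hφ : (0 : ℝ) < (Nat.totient W : ℝ) := by exact_mod_cast Nat.totient_pos.2 hW
  have hcard : (Fintype.card (DirichletCharacter ℂ W) : ℝ) = (Nat.totient W : ℝ) := by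
    rw [← Nat.card_eq_fintype_card, DirichletCharacter.card_eq_totient_of_hasEnoughRootsOfUnity ℂ W]
  have heq : ∀ x : ℝ, ((XV3 W v R₁ R₂ X Y d x - XV3 W v R₁ R₂ X Y l x : ℝ) : ℂ) =
      1 / (Nat.totient W : ℂ) * ∑ χ : DirichletCharacter ℂ W,
        χ ((v : ZMod W)⁻¹) * (XX3 χ R₁ R₂ X Y d x - XX3 χ R₁ R₂ X Y l x) := by
    intro x
    rw [Complex.ofReal_sub, XV3_eq W v hW hv, XV3_eq W v hW hv, ← mul_sub, ← Finset.sum_sub_distrib]
    congr 1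
    exact sum_congr rfl fun χ _ => (mul_sub _ _ _).symm
  have hpt : ∀ x : ℝ, (XV3 W v R₁ R₂ X Y d x - XV3 W v R₁ R₂ X Y l x) ^ 2 ≤
      1 / (Nat.totient W : ℝ) * ∑ χ : DirichletCharacter ℂ W, ‖XX3 χ R₁ R₂ X Y d x - XX3 χ R₁ R₂ X Y l x‖ ^ 2 := by
    intro x
    have h1 : (XV3 W v R₁ R₂ X Y d x - XV3 W v R₁ R₂ X Y l x) ^ 2 =
        ‖((XV3 W v R₁ R₂ X Y d x - XV3 W v R₁ R₂ X Y l x : ℝ) : ℂ)‖ ^ 2 := by
      rw [Complex.norm_real, Real.norm_eq_abs, sq_abs]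
    have h2 : ‖((XV3 W v R₁ R₂ X Y d x - XV3 W v R₁ R₂ X Y l x : ℝ) : ℂ)‖ ≤
        1 / (Nat.totient W : ℝ) * ∑ χ : DirichletCharacter ℂ W, ‖XX3 χ R₁ R₂ X Y d x - XX3 χ R₁ R₂ X Y l x‖ := by
      rw [heq, norm_mul]
      have h3 : ‖(1 / (Nat.totient W : ℂ))‖ = 1 / (Nat.totient W : ℝ) := by
        rw [norm_div, norm_one, Complex.norm_natCast]
      rw [h3]
      refine mul_le_mul_of_nonneg_left ?_ (by positivity)
      refine (norm_sum_le _ _).trans (sum_le_sum fun χ _ => ?_)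
      rw [norm_mul]
      exact mul_le_of_le_one_left (norm_nonneg _) (DirichletCharacter.norm_le_one χ _)
    have h4 : (∑ χ : DirichletCharacter ℂ W, ‖XX3 χ R₁ R₂ X Y d x - XX3 χ R₁ R₂ X Y l x‖) ^ 2 ≤
        (Nat.totient W : ℝ) * ∑ χ : DirichletCharacter ℂ W, ‖XX3 χ R₁ R₂ X Y d x - XX3 χ R₁ R₂ X Y l x‖ ^ 2 := by
      rw [← hcard]
      exact sq_sum_le_card_mul_sum_sq
    rw [h1]
    calc ‖((XV3 W v R₁ R₂ X Y d x - XV3 W v R₁ R₂ X Y l x : ℝ) : ℂ)‖ ^ 2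
        ≤ (1 / (Nat.totient W : ℝ) *
            ∑ χ : DirichletCharacter ℂ W, ‖XX3 χ R₁ R₂ X Y d x - XX3 χ R₁ R₂ X Y l x‖) ^ 2 :=
          pow_le_pow_left₀ (norm_nonneg _) h2 2
      _ = (1 / (Nat.totient W : ℝ)) ^ 2 *
            (∑ χ : DirichletCharacter ℂ W, ‖XX3 χ R₁ R₂ X Y d x - XX3 χ R₁ R₂ X Y l x‖) ^ 2 := by
          rw [mul_pow]
      _ ≤ (1 / (Nat.totient W : ℝ)) ^ 2 *
          ((Nat.totient W : ℝ) *
            ∑ χ : DirichletCharacter ℂ W, ‖XX3 χ R₁ R₂ X Y d x - XX3 χ R₁ R₂ X Y l x‖ ^ 2) :=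
          mul_le_mul_of_nonneg_left h4 (by positivity)
      _ = 1 / (Nat.totient W : ℝ) *
            ∑ χ : DirichletCharacter ℂ W, ‖XX3 χ R₁ R₂ X Y d x - XX3 χ R₁ R₂ X Y l x‖ ^ 2 := by
          field_simp
  have hIχ : ∀ χ : DirichletCharacter ℂ W,
      Integrable (fun x : ℝ => ‖XX3 χ R₁ R₂ X Y d x - XX3 χ R₁ R₂ X Y l x‖ ^ 2) :=
    fun χ => (XX3_planch χ R₁ R₂ X Y d l hd hl hR).1
  have hIs : Integrable (fun x : ℝ => 1 / (Nat.totient W : ℝ) *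
      ∑ χ : DirichletCharacter ℂ W, ‖XX3 χ R₁ R₂ X Y d x - XX3 χ R₁ R₂ X Y l x‖ ^ 2) :=
    (integrable_finsetSum _ fun χ _ => hIχ χ).const_mul _
  have hI : Integrable (fun x : ℝ => (XV3 W v R₁ R₂ X Y d x - XV3 W v R₁ R₂ X Y l x) ^ 2) := by
    refine hIs.mono' (((W2_cont W v R₁ R₂ X Y d).sub (W2_cont W v R₁ R₂ X Y l)).pow 2).aestronglyMeasurable
      (Filter.Eventually.of_forall fun x => ?_)
    rw [Real.norm_of_nonneg (sq_nonneg _)]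
    exact hpt x
  refine ⟨hI, ?_⟩
  calc ∫ x : ℝ, (XV3 W v R₁ R₂ X Y d x - XV3 W v R₁ R₂ X Y l x) ^ 2
      ≤ ∫ x : ℝ, 1 / (Nat.totient W : ℝ) *
          ∑ χ : DirichletCharacter ℂ W, ‖XX3 χ R₁ R₂ X Y d x - XX3 χ R₁ R₂ X Y l x‖ ^ 2 :=
        integral_mono hI hIs hpt
    _ = 1 / (Nat.totient W : ℝ) *
          ∑ χ : DirichletCharacter ℂ W, ∫ x : ℝ, ‖XX3 χ R₁ R₂ X Y d x - XX3 χ R₁ R₂ X Y l x‖ ^ 2 := by
        rw [integral_const_mul, integral_finsetSum _ fun χ _ => hIχ χ]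
    _ ≤ 1 / (Nat.totient W : ℝ) * ∑ χ : DirichletCharacter ℂ W, B :=
        mul_le_mul_of_nonneg_left (sum_le_sum fun χ _ => h χ) (by positivity)
    _ = B := by
        rw [Finset.sum_const, nsmul_eq_mul, Finset.card_univ, hcard]
        field_simp

/-- PROOF. Cauchy-Schwarz on the interval of length `2`. -/
private theorem W2_L1 (W v : ℕ) (R₁ R₂ X : ℕ) (Y d l B y : ℝ) (hd : 0 < d) (hl : 0 < l)
    (hi : Integrable (fun x : ℝ => (XV3 W v R₁ R₂ X Y d x - XV3 W v R₁ R₂ X Y l x) ^ 2))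
    (h : ∫ x : ℝ, (XV3 W v R₁ R₂ X Y d x - XV3 W v R₁ R₂ X Y l x) ^ 2 ≤ B) :
    IntegrableOn (fun x : ℝ => |XV3 W v R₁ R₂ X Y d x - XV3 W v R₁ R₂ X Y l x|) (Set.Icc (y - 1) (y + 1)) ∧
    ∫ x in Set.Icc (y - 1) (y + 1), |XV3 W v R₁ R₂ X Y d x - XV3 W v R₁ R₂ X Y l x| ≤ Real.sqrt (2 * B) := by
  set f : ℝ → ℝ := fun x => XV3 W v R₁ R₂ X Y d x - XV3 W v R₁ R₂ X Y l x with hf
  have hcont : Continuous f := (W2_cont W v R₁ R₂ X Y d).sub (W2_cont W v R₁ R₂ X Y l)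
  have hI1 : IntegrableOn (fun x : ℝ => |f x|) (Set.Icc (y - 1) (y + 1)) :=
    hcont.abs.continuousOn.integrableOn_compact isCompact_Icc
  have hI2 : IntegrableOn (fun x : ℝ => (f x) ^ 2) (Set.Icc (y - 1) (y + 1)) :=
    (hcont.pow 2).continuousOn.integrableOn_compact isCompact_Icc
  refine ⟨hI1, ?_⟩
  have hvol : volume.real (Set.Icc (y - 1) (y + 1)) = 2 := by
    rw [Real.volume_real_Icc_of_le (by linarith)]
    ring
  have hB : ∫ x in Set.Icc (y - 1) (y + 1), (f x) ^ 2 ≤ B :=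
    (setIntegral_le_integral hi (Filter.Eventually.of_forall fun x => sq_nonneg _)).trans h
  set A : ℝ := ∫ x in Set.Icc (y - 1) (y + 1), |f x| with hA
  have hA0 : 0 ≤ A := integral_nonneg fun x => abs_nonneg _
  -- `0 ≤ ∫ (|f| - A/2)²`
  have hkey : 0 ≤ ∫ x in Set.Icc (y - 1) (y + 1), (|f x| - A / 2) ^ 2 :=
    integral_nonneg fun x => sq_nonneg _
  have hexp : ∫ x in Set.Icc (y - 1) (y + 1), (|f x| - A / 2) ^ 2 =
      (∫ x in Set.Icc (y - 1) (y + 1), (f x) ^ 2) - A * A + (A / 2) ^ 2 * 2 := by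
    have h1 : ∀ x, (|f x| - A / 2) ^ 2 = (f x) ^ 2 - A * |f x| + (A / 2) ^ 2 := by
      intro x
      rw [sub_sq, sq_abs]
      ring
    simp only [h1]
    have hI3 : IntegrableOn (fun x : ℝ => A * |f x|) (Set.Icc (y - 1) (y + 1)) := hI1.const_mul A
    have hI4 : IntegrableOn (fun x : ℝ => (f x) ^ 2 - A * |f x|) (Set.Icc (y - 1) (y + 1)) :=
      hI2.sub hI3
    have hI5 : IntegrableOn (fun _ : ℝ => (A / 2) ^ 2) (Set.Icc (y - 1) (y + 1)) :=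
      integrableOn_const (by simp)
    have e1 : ∫ x in Set.Icc (y - 1) (y + 1), ((f x) ^ 2 - A * |f x| + (A / 2) ^ 2) =
        (∫ x in Set.Icc (y - 1) (y + 1), ((f x) ^ 2 - A * |f x|)) +
          ∫ _x in Set.Icc (y - 1) (y + 1), (A / 2) ^ 2 := integral_add hI4 hI5
    have e2 : ∫ x in Set.Icc (y - 1) (y + 1), ((f x) ^ 2 - A * |f x|) =
        (∫ x in Set.Icc (y - 1) (y + 1), (f x) ^ 2) - ∫ x in Set.Icc (y - 1) (y + 1), A * |f x| :=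
      integral_sub hI2 hI3
    rw [e1, e2, integral_const_mul, setIntegral_const, hvol, ← hA, smul_eq_mul]
    ring
  rw [hexp] at hkey
  refine Real.le_sqrt_of_sq_le ?_
  nlinarith



/-- PROOF. As `class_window_a` (EF/W2) and `WV_eq`, `class_window_g`, `class_window_L1` (E3/M5), with a general `Y`; the integrability from `XX3_planch`. -/
theorem class_window_3 (W v : ℕ) (hW : 1 ≤ W) (hv : Nat.Coprime v W) (R₁ R₂ X : ℕ) (Y d l B y : ℝ) (hd : 0 < d) (hl : 0 < l)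
    (hR : 2 * R₁ ≤ R₂)
    (h : ∀ χ : DirichletCharacter ℂ W, ∫ x : ℝ, ‖XX3 χ R₁ R₂ X Y d x - XX3 χ R₁ R₂ X Y l x‖ ^ 2 ≤ B) :
    IntegrableOn (fun x : ℝ => |XV3 W v R₁ R₂ X Y d x - XV3 W v R₁ R₂ X Y l x|) (Set.Icc (y - 1) (y + 1)) ∧
    ∫ x in Set.Icc (y - 1) (y + 1), |XV3 W v R₁ R₂ X Y d x - XV3 W v R₁ R₂ X Y l x| ≤ Real.sqrt (2 * B) := by
  obtain ⟨h1, h2⟩ := W2_g W v hW hv R₁ R₂ X Y d l B hd hl hR h
  exact W2_L1 W v R₁ R₂ X Y d l B y hd hl h1 h2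

end Pool.Agent.Lib.MP_bae66e_nt.TF
end
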