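import Pool.Agent.Lib.MP_bae66e_nt.Mg.G114
import Pool.Agent.Lib.MP_bae66e_nt.Mg.G039
import Pool.Agent.Lib.MP_bae66e_nt.Mg.G116
import Pool.Agent.Lib.MP_bae66e_nt.Mg.G030
import Pool.Agent.Lib.MP_bae66e_nt.Mg.G118
import Pool.Agent.Lib.MP_bae66e_nt.Mg.G040

section

/-!
# Row U1: the Gaussian weights are removed
-/

set_option autoImplicit false

namespace Pool.Agent.Lib.MP_bae66e_nt.TF

open Finset MeasureTheory Real
open Pool.Agent.E3
open Pool.Agent.Lib.MP_bae66e_nt.LL (fP gW)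
open Pool.Agent.Lib.MP_bae66e_nt.AC (Sg VV)
open Pool.Agent.Lib.MP_bae66e_nt.AP3 (prI mem_prI)

/-- `0 < YG` -/
private theorem U1_YG {K κ : ℝ} {R ℓ H X : ℕ} (hQ : QT K κ R ℓ H X) : 0 < YG R (R ^ ℓ) X := by
  have h1 := hQ.X64
  have h2 := hQ.R3
  unfold YG
  have h3 : (0 : ℝ) < X := by exact_mod_cast (by omega : 0 < X)
  have h4 : (0 : ℝ) < R := by exact_mod_cast (by omega : 0 < R)
  have h5 : (0 : ℝ) < ((R ^ ℓ : ℕ) : ℝ) := by
    push_cast
    positivity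
  positivity

/-- `log YT(τ) = log YG + τ` -/
private theorem U1_log {K κ : ℝ} {R ℓ H X : ℕ} (hQ : QT K κ R ℓ H X) (τ : ℝ) :
    Real.log (YT R ℓ X τ) = Real.log (YG R (R ^ ℓ) X) + τ := by
  unfold YT
  rw [Real.log_mul (U1_YG hQ).ne' (Real.exp_pos τ).ne', Real.log_exp]

/-- the bound of `u` -/
private theorem U1_u {K κ : ℝ} {R ℓ H X : ℕ} (hQ : QT K κ R ℓ H X) (n s : ℕ) (hs : s ∈ SS R (R ^ ℓ))
    (h1 : (X : ℝ) ≤ 2 * n) (h2 : (n : ℝ) ≤ 2 * X) :
    |Real.log n - Real.log s - Real.log (YG R (R ^ ℓ) X)| ≤ 3 := by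
  obtain ⟨hs1, hs2, -⟩ := SS_facts R (R ^ ℓ) s hs hQ.R2
  have hX64 := hQ.X64
  have hR3 := hQ.R3
  have hX0 : (0 : ℝ) < X := by exact_mod_cast (by omega : 0 < X)
  have hn0 : (0 : ℝ) < n := by linarith
  have hR0 : 0 < R := by omega
  have hP : 0 < R * R ^ ℓ := Nat.mul_pos hR0 (pow_pos hR0 ℓ)
  have hP0 : (0 : ℝ) < ((R * R ^ ℓ : ℕ) : ℝ) := by exact_mod_cast hP
  have hs1' : ((R * R ^ ℓ : ℕ) : ℝ) ≤ s := by exact_mod_cast hs1.le
  have hs2' : (s : ℝ) ≤ 4 * ((R * R ^ ℓ : ℕ) : ℝ) := by exact_mod_cast hs2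
  have hs0 : (0 : ℝ) < s := by linarith
  have hYG : YG R (R ^ ℓ) X = (X : ℝ) / ((R * R ^ ℓ : ℕ) : ℝ) := by
    unfold YG
    push_cast
    rfl
  have hl2 : Real.log 2 ≤ 7 / 10 := by have := Real.log_two_lt_d9; linarith
  have hl4 : Real.log 4 ≤ 14 / 10 := by
    have h : Real.log 4 = 2 * Real.log 2 := by
      rw [show (4 : ℝ) = 2 ^ 2 by norm_num, Real.log_pow]
      norm_num
    linarith
  have e1 : Real.log n ≤ Real.log 2 + Real.log X := by
    rw [← Real.log_mul (by norm_num) hX0.ne']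
    exact Real.log_le_log hn0 h2
  have e2 : Real.log X ≤ Real.log 2 + Real.log n := by
    rw [← Real.log_mul (by norm_num) hn0.ne']
    exact Real.log_le_log hX0 h1
  have e3 : Real.log ((R * R ^ ℓ : ℕ) : ℝ) ≤ Real.log s := Real.log_le_log hP0 hs1'
  have e4 : Real.log s ≤ Real.log 4 + Real.log ((R * R ^ ℓ : ℕ) : ℝ) := by
    rw [← Real.log_mul (by norm_num) hP0.ne']
    exact Real.log_le_log hs0 hs2'
  rw [hYG, Real.log_div hX0.ne' hP0.ne', abs_le]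
  constructor <;> linarith

/-- PROOF. `log YT(τ) = log YG + τ`, so with `u = log m - log s - log YG`: `∑_j h A3(τ_j) = ∑_s (1/s) h ∑_j exp (-(u - τ_j)²)`, and `|u| ≤ 3` as `X ≤ m ≤ 2X`, `R R^ℓ < s ≤ 4 R R^ℓ` (`SS_facts`), `YG = X/(R R^ℓ)`. -/
theorem A3_mix (K κ : ℝ) (R ℓ H X m J : ℕ) (h ε : ℝ) (hQ : QT K κ R ℓ H X) (h1 : X ≤ m) (h2 : m ≤ 2 * X)
    (hJ : ∀ u : ℝ, |u| ≤ 3 → |h * ∑ j ∈ range (2 * J + 1), Real.exp (-(u - ((j : ℝ) - J) * h) ^ 2) - Real.sqrt π| ≤ ε) :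
    |h * ∑ j ∈ range (2 * J + 1), A3 R (R ^ ℓ) (YT R ℓ X (((j : ℝ) - J) * h)) (Real.log m) - Real.sqrt π * BT R ℓ|
      ≤ ε * BT R ℓ := by
  have hm1 : (X : ℝ) ≤ 2 * m := by
    have : (X : ℝ) ≤ m := by exact_mod_cast h1
    have h0 : (0 : ℝ) ≤ m := Nat.cast_nonneg m
    linarith
  have hm2 : (m : ℝ) ≤ 2 * X := by exact_mod_cast h2
  have hA : h * ∑ j ∈ range (2 * J + 1), A3 R (R ^ ℓ) (YT R ℓ X (((j : ℝ) - J) * h)) (Real.log m) =
      ∑ s ∈ SS R (R ^ ℓ), 1 / (s : ℝ) * (h * ∑ j ∈ range (2 * J + 1),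
        Real.exp (-((Real.log m - Real.log s - Real.log (YG R (R ^ ℓ) X)) - ((j : ℝ) - J) * h) ^ 2)) := by
    unfold A3
    rw [Finset.sum_comm, Finset.mul_sum]
    refine Finset.sum_congr rfl fun s _ => ?_
    rw [← Finset.mul_sum, ← mul_assoc, mul_comm h, mul_assoc]
    congr 2
    refine Finset.sum_congr rfl fun j _ => ?_
    rw [U1_log hQ]
    congr 1
    ring
  rw [hA]
  unfold BT
  rw [Finset.mul_sum, Finset.mul_sum, ← Finset.sum_sub_distrib]
  refine (Finset.abs_sum_le_sum_abs _ _).trans (Finset.sum_le_sum fun s hs => ?_)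
  have hu := hJ _ (U1_u hQ m s hs hm1 hm2)
  have hs0 : (0 : ℝ) ≤ 1 / (s : ℝ) := by positivity
  rw [mul_comm (Real.sqrt π), ← mul_sub, abs_mul, abs_of_nonneg hs0, mul_comm ε]
  exact mul_le_mul_of_nonneg_left hu hs0

/-- the inner sum over `q` -/
private theorem U1_q {K κ : ℝ} {R ℓ H X : ℕ} (hQ : QT K κ R ℓ H X) (m s t : ℕ) (Y : ℝ) (h1 : X ≤ m) (h2 : m ≤ 2 * X)
    (hs : s ∈ SS R (R ^ ℓ)) (ht : t ≤ H) :
    ∑ q ∈ QS X, (if s * q = m - t then om Y q else 0) =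
      if s ∣ m - t ∧ ((m - t) / s).Prime then om Y ((m - t) / s) else 0 := by
  obtain ⟨hs1, hs2, -⟩ := SS_facts R (R ^ ℓ) s hs hQ.R2
  have hs0 : 0 < s := by omega
  have hX64 := hQ.X64
  split_ifs with h
  · obtain ⟨hd, hp⟩ := h
    have hmem : (m - t) / s ∈ QS X := by
      unfold QS
      rw [mem_prI]
      refine ⟨⟨?_, ?_⟩, hp⟩
      · have h3 : s * (Nat.sqrt X + 1) ≤ m - t := by
          have h4 : s * (Nat.sqrt X + 1) ≤ 4 * (R * R ^ ℓ) * (Nat.sqrt X + 1) := Nat.mul_le_mul_right _ hs2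
          have h5 : 4 * (R * R ^ ℓ) * (Nat.sqrt X + 1) + H ≤ X := by
            have := hQ.sX2
            exact_mod_cast this
          omega
        have h5 : Nat.sqrt X + 1 ≤ (m - t) / s := by
          rw [Nat.le_div_iff_mul_le hs0, mul_comm]
          exact h3
        omega
      · have h6 : (m - t) / s ≤ m := (Nat.div_le_self _ _).trans (Nat.sub_le _ _)
        have h7 : m ≤ X ^ 2 := by nlinarith
        exact h6.trans h7
    rw [Finset.sum_eq_single ((m - t) / s)]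
    · rw [if_pos (Nat.mul_div_cancel' hd)]
    · intro q _ hne
      rw [if_neg]
      intro hc
      apply hne
      rw [← hc, Nat.mul_div_cancel_left _ hs0]
    · intro hn
      exact absurd hmem hn
  · apply Finset.sum_eq_zero
    intro q hqm
    rw [if_neg]
    intro hc
    apply h
    unfold QS at hqm
    rw [mem_prI] at hqm
    refine ⟨⟨q, hc.symm⟩, ?_⟩
    rw [← hc, Nat.mul_div_cancel_left _ hs0]
    exact hqm.2

/-- PROOF. `∑_t fP H t fT(τ)(m - t) = ∑_t fP H t ∑_s ∑_q [s q = m - t] om (YT τ) q`; `om (YT τ) q = exp (-(log YG + τ - log q)²)`; `u = log q - log YG` has `|u| ≤ 3` as `q = (m - t)/s`, `X - H ≤ m - t ≤ 2X`, `R R^ℓ < s ≤ 4 R R^ℓ`;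
`fP H t = log H` for the primes `t ≤ H`, else `0`; for `t ≤ H`, `s ∣ m - t` with `q = (m - t)/s` prime one has `q ∈ QS X` (`QT.sX2`, `q ≤ 2X ≤ X²`). (Template: EF/U1, `U1_q`, `U1_w`, `cnt_bet`.) -/
theorem cnt_mix (K κ : ℝ) (R ℓ H X m J : ℕ) (h ε : ℝ) (hQ : QT K κ R ℓ H X) (h1 : X ≤ m) (h2 : m ≤ 2 * X)
    (hJ : ∀ u : ℝ, |u| ≤ 3 → |h * ∑ j ∈ range (2 * J + 1), Real.exp (-(u - ((j : ℝ) - J) * h) ^ 2) - Real.sqrt π| ≤ ε) :
    |h * ∑ j ∈ range (2 * J + 1), ∑ t ∈ Icc 1 H, fP H (t : ℤ) * fT R ℓ X (((j : ℝ) - J) * h) (m - t)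
        - Real.sqrt π * (Real.log H * cntT R ℓ H m)|
      ≤ ε * (Real.log H * cntT R ℓ H m) := by
  have hH2 := hQ.H2
  have hXH := hQ.XH
  have hX64 := hQ.X64
  have hlog : 0 ≤ Real.log H := Real.log_nonneg (by exact_mod_cast (by omega : 1 ≤ H))
  have hcnt : Real.log H * cntT R ℓ H m = ∑ t ∈ Icc 1 H, ∑ s ∈ SS R (R ^ ℓ),
      (if t.Prime ∧ s ∣ m - t ∧ ((m - t) / s).Prime then Real.log H else 0) := by
    unfold cntT
    rw [Finset.sum_comm, Finset.mul_sum]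
    refine Finset.sum_congr rfl fun s _ => ?_
    rw [← Finset.sum_filter, Finset.sum_const, nsmul_eq_mul]
    ring
  have hfP : ∀ τ : ℝ, ∑ t ∈ Icc 1 H, fP H (t : ℤ) * fT R ℓ X τ (m - t) = ∑ t ∈ Icc 1 H, ∑ s ∈ SS R (R ^ ℓ),
      (if t.Prime ∧ s ∣ m - t ∧ ((m - t) / s).Prime then Real.log H * om (YT R ℓ X τ) ((m - t) / s) else 0) := by
    intro τ
    refine Finset.sum_congr rfl fun t ht => ?_
    obtain ⟨ht1, ht2⟩ := Finset.mem_Icc.mp ht
    unfold fT fS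
    rw [Finset.sum_congr rfl fun s hs => U1_q hQ m s t (YT R ℓ X τ) h1 h2 hs ht2, Finset.mul_sum]
    refine Finset.sum_congr rfl fun s _ => ?_
    unfold fP
    have hc : (1 ≤ (t : ℤ) ∧ (t : ℤ) ≤ (H : ℤ) ∧ (t : ℤ).toNat.Prime) ↔ t.Prime := by
      constructor
      · intro h; simpa using h.2.2
      · intro h; exact ⟨by exact_mod_cast ht1, by exact_mod_cast ht2, by simpa using h⟩
    by_cases hp : t.Prime
    · rw [if_pos (hc.mpr hp)]
      by_cases hd : s ∣ m - t ∧ ((m - t) / s).Prime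
      · rw [if_pos hd, if_pos ⟨hp, hd⟩]
      · rw [if_neg hd, if_neg (fun h => hd h.2), mul_zero]
    · rw [if_neg (fun h => hp (hc.mp h)), zero_mul, if_neg (fun h => hp h.1)]
  have hmix : h * ∑ j ∈ range (2 * J + 1), ∑ t ∈ Icc 1 H, fP H (t : ℤ) * fT R ℓ X (((j : ℝ) - J) * h) (m - t) =
      ∑ t ∈ Icc 1 H, ∑ s ∈ SS R (R ^ ℓ), (if t.Prime ∧ s ∣ m - t ∧ ((m - t) / s).Prime then
        Real.log H * (h * ∑ j ∈ range (2 * J + 1), om (YT R ℓ X (((j : ℝ) - J) * h)) ((m - t) / s)) else 0) := by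
    rw [Finset.sum_congr rfl fun (j : ℕ) _ => hfP (((j : ℝ) - J) * h), Finset.sum_comm, Finset.mul_sum]
    refine Finset.sum_congr rfl fun t _ => ?_
    rw [Finset.sum_comm, Finset.mul_sum]
    refine Finset.sum_congr rfl fun s _ => ?_
    split_ifs with hc
    · rw [← Finset.mul_sum]
      ring
    · rw [Finset.sum_const_zero, mul_zero]
  rw [hmix, hcnt, Finset.mul_sum, Finset.mul_sum, ← Finset.sum_sub_distrib]
  refine (Finset.abs_sum_le_sum_abs _ _).trans (Finset.sum_le_sum fun t ht => ?_)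
  obtain ⟨ht1, ht2⟩ := Finset.mem_Icc.mp ht
  rw [Finset.mul_sum, Finset.mul_sum, ← Finset.sum_sub_distrib]
  refine (Finset.abs_sum_le_sum_abs _ _).trans (Finset.sum_le_sum fun s hs => ?_)
  split_ifs with hc
  · obtain ⟨-, hd, hp⟩ := hc
    obtain ⟨hs1, hs2, -⟩ := SS_facts R (R ^ ℓ) s hs hQ.R2
    have hs0 : (0 : ℝ) < s := by exact_mod_cast (by omega : 0 < s)
    have hn1 : (X : ℝ) ≤ 2 * ((m - t : ℕ) : ℝ) := by
      have : X ≤ 2 * (m - t) := by omega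
      exact_mod_cast this
    have hn2 : ((m - t : ℕ) : ℝ) ≤ 2 * X := by
      have : m - t ≤ 2 * X := by omega
      exact_mod_cast this
    have hX0 : (0 : ℝ) < X := by exact_mod_cast (by omega : 0 < X)
    have hn0 : (0 : ℝ) < ((m - t : ℕ) : ℝ) := by linarith
    have hu := hJ _ (U1_u hQ (m - t) s hs hn1 hn2)
    have hom : ∀ j : ℕ, om (YT R ℓ X (((j : ℝ) - J) * h)) ((m - t) / s) =
        Real.exp (-((Real.log ((m - t : ℕ) : ℝ) - Real.log s - Real.log (YG R (R ^ ℓ) X)) - ((j : ℝ) - J) * h) ^ 2) := by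
      intro j
      unfold om gs
      rw [U1_log hQ, Nat.cast_div hd hs0.ne', Real.log_div hn0.ne' hs0.ne']
      congr 1
      ring
    rw [Finset.sum_congr rfl fun j _ => hom j, mul_comm (Real.sqrt π), ← mul_sub, abs_mul, abs_of_nonneg hlog,
      mul_comm ε]
    exact mul_le_mul_of_nonneg_left hu hlog
  · simp

end Pool.Agent.Lib.MP_bae66e_nt.TF
end

section

/-!
# Row U2: the number of representations
-/

set_option autoImplicit false

namespace Pool.Agent.Lib.MP_bae66e_nt.TF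

open Finset MeasureTheory Real
open Pool.Agent.E3
open Pool.Agent.Lib.MP_bae66e_nt.LL (fP gW)
open Pool.Agent.Lib.MP_bae66e_nt.AC (Sg VV)
open Pool.Agent.Lib.MP_bae66e_nt.AP3 (prI mem_prI)

/-- the arithmetic of one integer -/
private theorem U2_one (e p c G T A : ℝ) (he : 0 < e) (he1 : e ≤ 1 / 8) (hp : 1 ≤ p) (hc : 0 ≤ c) (hG : 0 ≤ G)
    (h1 : |T - A| ≤ e * G) (h2 : |A - p * G| ≤ e * G) (h3 : |T - p * c| ≤ e * c) : |c - G| ≤ 4 * e * G := by
  have h4 : |p * (c - G)| ≤ e * c + 2 * (e * G) := by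
    have e1 : p * (c - G) = -(T - p * c) + (T - A) + (A - p * G) := by ring
    rw [e1]
    calc _ ≤ |-(T - p * c) + (T - A)| + |A - p * G| := abs_add_le _ _
      _ ≤ |-(T - p * c)| + |T - A| + |A - p * G| := by
          gcongr
          exact abs_add_le _ _
      _ ≤ _ := by
          rw [abs_neg]
          linarith
  have h5 : |c - G| ≤ e * c + 2 * (e * G) := by
    refine le_trans ?_ h4
    rw [abs_mul, abs_of_pos (by linarith : (0 : ℝ) < p)]
    exact le_mul_of_one_le_left (abs_nonneg _) hp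
  have h6 : c ≤ 2 * G := by
    have h7 := (abs_le.1 h5).2
    have h8 : e * c ≤ 1 / 8 * c := mul_le_mul_of_nonneg_right he1 hc
    have h9 : e * G ≤ 1 / 8 * G := mul_le_mul_of_nonneg_right he1 hG
    linarith
  have h7 : e * c ≤ e * (2 * G) := mul_le_mul_of_nonneg_left h6 he.le
  linarith

/-- PROOF. `ε₁` small in terms of `ε`; `J, h` from `gauss_mix ε₁`; `τ_j = (j - J) h`, `K = J h + 1`; `FIRT` for `K`, `ε₂ = ε₁/(64 (2J+1) h)`, `δ/(2J+1)`. For an even `m` outside of the `2J+1` exceptional sets (for `j < 2J+1`):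
`|∑_j h S_j - Sg H/log X ∑_j h A3_j| ≤ (2J+1) h ε₂ Sg H FT ≤ ε₁ Sg (H/log X) BT` (`recip_SS_ge`: `FT log X ≤ 64 BT`), and `A3_mix`, `cnt_mix`: `|√π log H cnt - Sg H/log X √π BT| ≤ ε₁ log H cnt + 2 ε₁ Sg (H/log X) BT`;
so `log H cnt` is between `1/2` and `2` times `Sg (H/log X) BT`, and the claim follows after division by `√π log H` (`√π ≥ 1`). `Sg ≥ 1`: `one_le_Sg` (AC/RowI). (Template: EF/U2.) -/
theorem countt_of (a c : ℝ) (ha : 3 ≤ a) (hc : 2 ≤ c) (h : FIRT a c) : COUNTT a c := by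
  classical
  intro ε δ hε hδ
  obtain ⟨e, he⟩ : ∃ e : ℝ, e = min (1 / 8) (ε / 4) := ⟨_, rfl⟩
  have he0 : 0 < e := by rw [he]; exact lt_min (by norm_num) (by positivity)
  have he1 : e ≤ 1 / 8 := by rw [he]; exact min_le_left _ _
  have he2 : 4 * e ≤ ε := by
    have : e ≤ ε / 4 := by rw [he]; exact min_le_right _ _
    linarith
  obtain ⟨J, g, hg, hmix⟩ := gauss_mix e he0
  obtain ⟨n, hn⟩ : ∃ n : ℕ, n = 2 * J + 1 := ⟨_, rfl⟩
  have hn0 : (0 : ℝ) < n := by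
    rw [hn]
    positivity
  obtain ⟨K, hK⟩ : ∃ K : ℝ, K = J * g + 1 := ⟨_, rfl⟩
  have hK0 : 0 < K := by
    rw [hK]
    positivity
  obtain ⟨R₀, hR₀, hrec⟩ := recip_SS_ge
  obtain ⟨w₁, hw₁⟩ := h K (e / (64 * (n * g))) (δ / n) hK0 (by positivity) (by positivity)
  refine ⟨max w₁ 2, fun w hw => ?_⟩
  have hwa : w₁ ≤ w := (le_max_left _ _).trans hw
  have hwc : 2 ≤ w := (le_max_right _ _).trans hw
  obtain ⟨X₁, hX₁⟩ := hw₁ w hwa
  obtain ⟨X₂, hX₂⟩ := parT a c (max K R₀) 1 ha hc one_pos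
  refine ⟨max X₁ X₂, fun X hX R ℓ H hP => ?_⟩
  have hQ := hX₂ X ((le_max_right _ _).trans hX) R ℓ H hP
  have hX1 : X₁ ≤ X := (le_max_left _ _).trans hX
  obtain ⟨τ, hτ⟩ : ∃ τ : ℕ → ℝ, τ = fun j : ℕ => ((j : ℝ) - J) * g := ⟨_, rfl⟩
  have hτK : ∀ j ∈ range n, |τ j| ≤ K := by
    intro j hj
    rw [hn, Finset.mem_range] at hj
    have h1 : (j : ℝ) ≤ 2 * J := by exact_mod_cast (by omega : j ≤ 2 * J)
    have h0 : (0 : ℝ) ≤ j := Nat.cast_nonneg _
    rw [hτ, hK]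
    simp only
    rw [abs_mul, abs_of_pos hg]
    have h2 : |(j : ℝ) - J| ≤ J := by
      rw [abs_le]
      constructor <;> linarith
    have h3 := mul_le_mul_of_nonneg_right h2 hg.le
    linarith
  -- the exceptional sets
  set E : ℕ → Finset ℕ := fun j => {m ∈ Icc X (2 * X) | Even m ∧
      e / (64 * (n * g)) * (Sg (primorial w) m * (H * FT R ℓ X)) <
      |∑ t ∈ Icc 1 H, fP H (t : ℤ) * fT R ℓ X (τ j) (m - t)
        - Sg (primorial w) m * (H / Real.log X * A3 R (R ^ ℓ) (YT R ℓ X (τ j)) (Real.log m))|} with hE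
  have hEc : ∀ j ∈ range n, (#(E j) : ℝ) ≤ δ / n * X := fun j hj =>
    hX₁ X hX1 R ℓ H hP (τ j) (hτK j hj)
  have hR3 : 3 ≤ R := hQ.R3
  have hRR : R₀ ≤ R := by
    have h1 : (R₀ : ℝ) ≤ R := (le_max_right _ _).trans hQ.KR
    exact_mod_cast h1
  have hBT := hrec R (R ^ ℓ) hRR hQ.R2
  have hBT' : 1 / (64 * (Real.log R * Real.log ((R ^ ℓ : ℕ) : ℝ))) ≤ BT R ℓ := hBT
  have hlR : 0 < Real.log R := by linarith [hQ.lR]
  have hlR2 : 0 < Real.log ((R ^ ℓ : ℕ) : ℝ) := by linarith [hQ.lR2]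
  have hlX : 0 < Real.log X := by linarith [hQ.lX]
  have hH2 : (2 : ℝ) ≤ H := by exact_mod_cast hQ.H2
  have hlH : 0 < Real.log H := Real.log_pos (by linarith)
  have hBT0 : 0 < BT R ℓ := lt_of_lt_of_le (by positivity) hBT'
  have hFT : FT R ℓ X ≤ 64 * (BT R ℓ / Real.log X) := by
    have e1 : FT R ℓ X = 64 * (1 / (64 * (Real.log R * Real.log ((R ^ ℓ : ℕ) : ℝ))) / Real.log X) := by
      unfold FT FG
      field_simp
    rw [e1]
    gcongr
  have hpi : 1 ≤ Real.sqrt π := by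
    rw [Real.one_le_sqrt]
    linarith [Real.pi_gt_three]
  have hsub : ({m ∈ Icc X (2 * X) | Even m ∧
      ε * (Sg (primorial w) m * (H / (Real.log H * Real.log X)) * BT R ℓ) <
        |cntT R ℓ H m - Sg (primorial w) m * (H / (Real.log H * Real.log X)) * BT R ℓ|} : Finset ℕ) ⊆
      (range n).biUnion E := by
    intro m hm
    obtain ⟨hm1, hm2, hm3⟩ := Finset.mem_filter.1 hm
    by_contra hcon
    have hmX := Finset.mem_Icc.1 hm1
    have hS : 1 ≤ Sg (primorial w) m := (Pool.Agent.Lib.MP_bae66e_nt.AC.one_le_Sg w m hwc hm2).1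
    have hS0 : 0 < Sg (primorial w) m := by linarith
    obtain ⟨T, hT⟩ : ∃ T : ℕ → ℝ, T = fun j => ∑ t ∈ Icc 1 H, fP H (t : ℤ) * fT R ℓ X (τ j) (m - t) := ⟨_, rfl⟩
    obtain ⟨A, hA⟩ : ∃ A : ℕ → ℝ, A = fun j => A3 R (R ^ ℓ) (YT R ℓ X (τ j)) (Real.log m) := ⟨_, rfl⟩
    obtain ⟨G, hG⟩ : ∃ G : ℝ, G = Sg (primorial w) m * (H / Real.log X) * BT R ℓ := ⟨_, rfl⟩
    have hG0 : 0 ≤ G := by
      rw [hG]
      positivity
    have hj : ∀ j ∈ range n, |T j - Sg (primorial w) m * (H / Real.log X * A j)| ≤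
        e / (64 * (n * g)) * (Sg (primorial w) m * (H * FT R ℓ X)) := by
      intro j hj
      by_contra h5
      rw [not_le] at h5
      apply hcon
      rw [Finset.mem_biUnion]
      refine ⟨j, hj, Finset.mem_filter.2 ⟨hm1, hm2, ?_⟩⟩
      rw [hT, hA] at h5
      exact h5
    -- the sum over `j`
    have h1 : |g * ∑ j ∈ range n, T j - Sg (primorial w) m * (H / Real.log X) * (g * ∑ j ∈ range n, A j)| ≤ e * G := by
      have e1 : g * ∑ j ∈ range n, T j - Sg (primorial w) m * (H / Real.log X) * (g * ∑ j ∈ range n, A j) =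
          g * ∑ j ∈ range n, (T j - Sg (primorial w) m * (H / Real.log X * A j)) := by
        rw [Finset.sum_sub_distrib, mul_sub, ← Finset.mul_sum, ← Finset.mul_sum]
        ring
      rw [e1, abs_mul, abs_of_pos hg]
      calc g * |∑ j ∈ range n, (T j - Sg (primorial w) m * (H / Real.log X * A j))|
          ≤ g * ∑ j ∈ range n, e / (64 * (n * g)) * (Sg (primorial w) m * (H * FT R ℓ X)) := by
            refine mul_le_mul_of_nonneg_left ?_ hg.le
            exact (Finset.abs_sum_le_sum_abs _ _).trans (Finset.sum_le_sum hj)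
        _ = e / 64 * (Sg (primorial w) m * (H * FT R ℓ X)) := by
            rw [Finset.sum_const, Finset.card_range, nsmul_eq_mul]
            field_simp
        _ ≤ e / 64 * (Sg (primorial w) m * (H * (64 * (BT R ℓ / Real.log X)))) := by
            gcongr
        _ = e * G := by
            rw [hG]
            ring
    have h2 : |Sg (primorial w) m * (H / Real.log X) * (g * ∑ j ∈ range n, A j) - Real.sqrt π * G| ≤ e * G := by
      have h3 := A3_mix (max K R₀) 1 R ℓ H X m J g e hQ hmX.1 hmX.2 hmix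
      rw [← hn] at h3
      have e1 : Sg (primorial w) m * (H / Real.log X) * (g * ∑ j ∈ range n, A j) - Real.sqrt π * G =
          Sg (primorial w) m * (H / Real.log X) * (g * ∑ j ∈ range n, A j - Real.sqrt π * BT R ℓ) := by
        rw [hG]
        ring
      have e2 : e * G = Sg (primorial w) m * (H / Real.log X) * (e * BT R ℓ) := by
        rw [hG]
        ring
      rw [e1, e2, abs_mul, abs_of_nonneg (by positivity)]
      refine mul_le_mul_of_nonneg_left ?_ (by positivity)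
      rw [hA, hτ]
      exact h3
    have h3 : |g * ∑ j ∈ range n, T j - Real.sqrt π * (Real.log H * cntT R ℓ H m)| ≤
        e * (Real.log H * cntT R ℓ H m) := by
      have h4 := cnt_mix (max K R₀) 1 R ℓ H X m J g e hQ hmX.1 hmX.2 hmix
      rw [← hn] at h4
      rw [hT, hτ]
      exact h4
    have hcnt : 0 ≤ Real.log H * cntT R ℓ H m := by
      refine mul_nonneg hlH.le ?_
      unfold cntT
      exact Finset.sum_nonneg fun s _ => Nat.cast_nonneg _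
    have h5 := U2_one e (Real.sqrt π) (Real.log H * cntT R ℓ H m) G _ _ he0 he1 hpi hcnt hG0 h1 h2 h3
    have h6 : |Real.log H * cntT R ℓ H m - G| ≤ ε * G :=
      h5.trans (mul_le_mul_of_nonneg_right he2 hG0)
    have e1 : cntT R ℓ H m - Sg (primorial w) m * (H / (Real.log H * Real.log X)) * BT R ℓ =
        (Real.log H * cntT R ℓ H m - G) / Real.log H := by
      rw [hG]
      field_simp
    have e2 : ε * (Sg (primorial w) m * (H / (Real.log H * Real.log X)) * BT R ℓ) = ε * G / Real.log H := by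
      rw [hG]
      field_simp
    rw [e1, e2, abs_div, abs_of_pos hlH] at hm3
    have h7 := div_le_div_of_nonneg_right h6 hlH.le
    linarith
  calc (#{m ∈ Icc X (2 * X) | Even m ∧
      ε * (Sg (primorial w) m * (H / (Real.log H * Real.log X)) * BT R ℓ) <
        |cntT R ℓ H m - Sg (primorial w) m * (H / (Real.log H * Real.log X)) * BT R ℓ|} : ℝ)
      ≤ (#((range n).biUnion E) : ℝ) := by exact_mod_cast Finset.card_le_card hsub
    _ ≤ ((∑ j ∈ range n, #(E j) : ℕ) : ℝ) := by exact_mod_cast Finset.card_biUnion_le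
    _ = ∑ j ∈ range n, (#(E j) : ℝ) := by push_cast; rfl
    _ ≤ ∑ _j ∈ range n, δ / n * X := Finset.sum_le_sum hEc
    _ = δ * X := by
        rw [Finset.sum_const, Finset.card_range, nsmul_eq_mul]
        field_simp

end Pool.Agent.Lib.MP_bae66e_nt.TF
end

section

/-!
# Row W3: the asymptotic formula in almost all short intervals
-/

set_option autoImplicit false

namespace Pool.Agent.Lib.MP_bae66e_nt.TF

open Finset MeasureTheory Real
open Pool.Agent.E3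
open Pool.Agent.Lib.MP_bae66e_nt.EF (win_two)
open Pool.Agent.Lib.MP_bae66e_nt.LL (fP gW)
open Pool.Agent.Lib.MP_bae66e_nt.AC (Sg VV)
open Pool.Agent.Lib.MP_bae66e_nt.AP3 (prI mem_prI)

private lemma W3_one_le {R₁ R₂ X : ℕ} (hR : 2 * R₁ ≤ R₂) {p : ℕ × ℕ} (hp : p ∈ SS R₁ R₂ ×ˢ QS X) : 1 ≤ p.1 * p.2 := by
  rw [Finset.mem_product] at hp
  obtain ⟨h1, h2⟩ := hp
  have h3 : 0 < p.1 := lt_of_le_of_lt (Nat.zero_le _) (SS_facts R₁ R₂ p.1 h1 hR).1
  have h4 : 0 < p.2 := (mem_prI.mp h2).2.pos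
  exact Nat.mul_pos h3 h4

private lemma W3_sum (W v R₁ R₂ X : ℕ) (Y d x : ℝ) :
    ∑ p ∈ (SS R₁ R₂ ×ˢ QS X).filter (fun p => p.1 * p.2 ≡ v [MOD W]),
      om Y p.2 / ((p.1 * p.2 : ℕ) : ℝ) * gsn d (x - Real.log ((p.1 * p.2 : ℕ) : ℝ)) =
      XV3 W v R₁ R₂ X Y d x := by
  unfold XV3
  rw [Finset.sum_filter, Finset.sum_product]
  refine sum_congr rfl fun s _ => ?_
  rw [Finset.sum_filter]
  refine sum_congr rfl fun q _ => ?_
  simp only [Nat.cast_mul]

private lemma W3_num (C φ ε δ s ε' K C₂ C₃ F H X : ℝ) (hC : 0 < C) (hφ : 0 < φ) (hε : 0 < ε) (hδ : 0 < δ)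
    (hF : 0 < F) (hH : 0 < H) (hX : 0 < X) (hK : 0 < K)
    (hs : C * φ * s ≤ ε * δ / 5) (hε' : C * (2 * ε') ≤ ε * δ / 5) (h3 : 5 * C * φ * C₃ ≤ ε * δ * K)
    (h2 : 5 * C * φ * C₂ * H ≤ ε * δ * X) (h2' : 5 * C * φ * C₂ ≤ ε * δ * H) :
    C * (X / (ε * F / φ)) * ((s * F + 2 * (ε' * F / φ)) + C₂ * F * H / X + C₃ * F / K + C₂ * F / H) ≤ δ * X := by
  have e : C * (X / (ε * F / φ)) * ((s * F + 2 * (ε' * F / φ)) + C₂ * F * H / X + C₃ * F / K + C₂ * F / H) =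
      (X / ε) * (C * φ * s + C * (2 * ε') + C * φ * C₂ * H / X + C * φ * C₃ / K + C * φ * C₂ / H) := by
    field_simp
  have f1 : C * φ * C₂ * H / X ≤ ε * δ / 5 := by
    rw [div_le_iff₀ hX]
    linarith
  have f2 : C * φ * C₃ / K ≤ ε * δ / 5 := by
    rw [div_le_iff₀ hK]
    linarith
  have f3 : C * φ * C₂ / H ≤ ε * δ / 5 := by
    rw [div_le_iff₀ hH]
    linarith
  rw [e]
  calc (X / ε) * (C * φ * s + C * (2 * ε') + C * φ * C₂ * H / X + C * φ * C₃ / K + C * φ * C₂ / H)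
      ≤ (X / ε) * (ε * δ) := by
        refine mul_le_mul_of_nonneg_left ?_ (by positivity)
        linarith
    _ = δ * X := by
        field_simp

private lemma W3_l1 (T L : ℝ) (hL : 0 < L) (hT : 1 ≤ T) (h : 1 / L ≤ T) : 1 / T ^ 2 ≤ L := by
  have h1 : 1 / L ≤ T ^ 2 := by nlinarith
  rw [div_le_iff₀ (by positivity)]
  rw [div_le_iff₀ hL] at h1
  linarith

private lemma W3_par (H X K T K₀ L : ℝ) (hX : 0 < X) (hH : 1 ≤ H) (hK : 1 ≤ K) (hT : 1 ≤ T)
    (hK₀ : K + T ^ 2 ≤ K₀) (h1 : K₀ * H ^ 2 ≤ X) (hL : 0 ≤ L) (h3 : K₀ * L ≤ H) :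
    K₀ * H ≤ X ∧ H / (K * X) ≤ 1 / T ^ 2 ∧ H / (K * X) ≤ X ^ (-(1 / 2) : ℝ) ∧ L ≤ H / (K * X) * X := by
  have hH0 : 0 < H := by linarith
  have hK0 : 0 < K := by linarith
  have hT2 : 1 ≤ T ^ 2 := one_le_pow₀ hT
  have hK₀0 : 0 ≤ K₀ := by linarith
  have hHH : H ≤ H ^ 2 := by nlinarith
  have h4 : K₀ * H ≤ X := (mul_le_mul_of_nonneg_left hHH hK₀0).trans h1
  have hKK : K ≤ K₀ := by linarith
  have hTK : T ^ 2 ≤ K₀ := by linarith
  refine ⟨h4, ?_, ?_, ?_⟩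
  · rw [div_le_div_iff₀ (by positivity) (by positivity)]
    have h5 : T ^ 2 * H ≤ X := (mul_le_mul_of_nonneg_right hTK hH0.le).trans h4
    have h6 : 1 * X ≤ K * X := mul_le_mul_of_nonneg_right hK hX.le
    linarith
  · have hneg : X ^ (-(1 / 2) : ℝ) = X ^ (1 / 2 : ℝ) / X := by
      rw [eq_div_iff hX.ne']
      nth_rewrite 2 [← Real.rpow_one X]
      rw [← Real.rpow_add hX]
      norm_num
    have h5 : H ≤ X ^ (1 / 2 : ℝ) := by
      rw [← Real.sqrt_eq_rpow]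
      refine Real.le_sqrt_of_sq_le ?_
      have h6 : 1 * H ^ 2 ≤ K₀ * H ^ 2 := mul_le_mul_of_nonneg_right (by linarith) (sq_nonneg _)
      linarith
    have h6 : 0 ≤ X ^ (1 / 2 : ℝ) := hH0.le.trans h5
    rw [hneg, div_le_div_iff₀ (by positivity) hX]
    have h7 : H ≤ X ^ (1 / 2 : ℝ) * K := h5.trans (le_mul_of_one_le_right h6 hK)
    calc H * X ≤ (X ^ (1 / 2 : ℝ) * K) * X := mul_le_mul_of_nonneg_right h7 hX.le
      _ = _ := by ring
  · have h5 : H / (K * X) * X = H / K := by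
      field_simp
    rw [h5, le_div_iff₀ hK0]
    have h6 : K * L ≤ K₀ * L := mul_le_mul_of_nonneg_right hKK hL
    linarith

private lemma W3_core (R P X K K₀ H E U : ℝ) (hR : 0 < R) (hP : 0 < P) (hX : 0 < X) (hK : 0 < K) (hE : 0 < E)
    (hKE : K ≤ K₀ * E) (hU : 0 ≤ U) (h : K₀ * U ≤ H / R) : U ≤ H / (K * X) * P * (X / (R * P) * E) := by
  have e1 : H / (K * X) * P * (X / (R * P) * E) = E * (H / R) / K := by
    field_simp
  rw [e1, le_div_iff₀ hK]
  calc U * K ≤ U * (K₀ * E) := mul_le_mul_of_nonneg_left hKE hU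
    _ = E * (K₀ * U) := by ring
    _ ≤ E * (H / R) := mul_le_mul_of_nonneg_left h hE.le

/-- PROOF. As `winf_of` (EF/W3; copy and adapt): `win_two` (EF/S2) with `P` = the `(s, q) ∈ SS R (R^ℓ) ×ˢ QS X` with `s q ≡ v`, `n = s q`, `u = om (YT) q`; `M = C FT` (`mass_3`),
`M' = C e^K FT` (`mass_3u`; `R R^ℓ YT = X e^τ`), `B x = √(2π)/(φ(W) log X) A3 x`, `A3_bd`, `long_t`, `CORE2` with `χ₁ = χ₂ = χ₃ = χ`, `Y = YT`, `Δ = d = H/(K' X)`
(`Δ R^ℓ Y = H e^τ/(K' R) ≥ log X (ll X)³` by `QT.core`, `Δ X = H/K' ≥ log X` by `QT.KL`), `char_window_3`, `class_window_3`, `parT`; the sum by `sum_fS` (E3/M7, general `Y`). -/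
theorem wint_of (a c : ℝ) (ha : 3 ≤ a) (hc : 2 ≤ c) (hC : CORE2 a c) : WINT a c := by
  obtain ⟨C, hC1, hwin⟩ := win_two
  obtain ⟨C', hC'1, hchar⟩ := char_window_3
  obtain ⟨C₁, hC₁, hAA⟩ := A3_bd
  obtain ⟨C₂, hC₂, hma⟩ := mass_3
  obtain ⟨C₄, hC₄, hmu⟩ := mass_3u
  intro W hW Kt ε δ hKt hε hδ
  have hφ : (0 : ℝ) < (Nat.totient W : ℝ) := by exact_mod_cast Nat.totient_pos.2 hW
  have hC0 : 0 < C := by linarith
  have hC'0 : 0 < C' := by linarith
  have hC₁0 : 0 < C₁ := by linarith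
  have hC₂0 : 0 < C₂ := by linarith
  have hC₄0 : 0 < C₄ := by linarith
  set C₃ : ℝ := C₄ * Real.exp Kt with hC₃
  have hC₃0 : 0 < C₃ := mul_pos hC₄0 (Real.exp_pos _)
  -- the constants
  set s : ℝ := δ * ε / (5 * C * (Nat.totient W : ℝ)) with hs
  have hs0 : 0 < s := by positivity
  have hs1 : C * (Nat.totient W : ℝ) * s ≤ ε * δ / 5 := by
    rw [hs]
    refine le_of_eq ?_
    field_simp
  set η : ℝ := s ^ 2 / 2 with hη
  have hη0 : 0 < η := by positivity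
  have hsη : Real.sqrt (2 * η) = s := by
    rw [hη, show 2 * (s ^ 2 / 2) = s ^ 2 by ring, Real.sqrt_sq hs0.le]
  set ε' : ℝ := δ * ε / (10 * C) with hε'
  have hε'0 : 0 < ε' := by positivity
  have hε'1 : C * (2 * ε') ≤ ε * δ / 5 := by
    rw [hε']
    refine le_of_eq ?_
    field_simp
    norm_num
  have hc3 : 0 ≤ 5 * C * (Nat.totient W : ℝ) * C₃ / (ε * δ) := by positivity
  set K : ℝ := 1 + 5 * C * (Nat.totient W : ℝ) * C₃ / (ε * δ) with hK
  have hK1 : 1 ≤ K := by linarith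
  have hK0 : 0 < K := by linarith
  have hK3 : 5 * C * (Nat.totient W : ℝ) * C₃ ≤ ε * δ * K := by
    have h1 : 5 * C * (Nat.totient W : ℝ) * C₃ / (ε * δ) ≤ K := by linarith
    rw [div_le_iff₀ (by positivity)] at h1
    linarith
  obtain ⟨L₀, hL₀, hlong0⟩ := long_t a c ha hc W hW Kt ε' hKt hε'0
  obtain ⟨T₀, hT₀, X₁, hcore⟩ := hC W hW (η / 2) (by positivity)
  set T : ℝ := max (max T₀ (2 * C' / η)) (1 / L₀) with hT
  have hT1 : T₀ ≤ T := (le_max_left _ _).trans (le_max_left _ _)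
  have hT2 : 2 * C' / η ≤ T := (le_max_right _ _).trans (le_max_left _ _)
  have hT3 : 1 / L₀ ≤ T := le_max_right _ _
  have hT4 : 1 ≤ T := hT₀.trans hT1
  have hT0 : 0 < T := by linarith
  have hl0 : 0 < 1 / T ^ 2 := by positivity
  have hlL : 1 / T ^ 2 ≤ L₀ := W3_l1 T L₀ hL₀ hT4 hT3
  obtain ⟨X₂, hlong⟩ := hlong0 (1 / T ^ 2) hl0 hlL
  have hk1 : 0 ≤ T ^ 2 := by positivity
  have hk2 : 0 ≤ 18 * C₁ / ε := by positivity
  have hk3 : 0 ≤ 5 * C * (Nat.totient W : ℝ) * C₂ / (ε * δ) := by positivity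
  have hk4 : 0 ≤ K * Real.exp Kt := by positivity
  set K₀ : ℝ := K + T ^ 2 + 18 * C₁ / ε + 5 * C * (Nat.totient W : ℝ) * C₂ / (ε * δ) + K * Real.exp Kt + Kt with hK₀
  obtain ⟨X₃, hpar⟩ := parT a c K₀ 1 ha hc one_pos
  refine ⟨max (max X₁ X₂) X₃, fun X hX R ℓ H hPT τ hτ v hv => ?_⟩
  have hX1 : X₁ ≤ X := (le_max_left _ _).trans ((le_max_left _ _).trans hX)
  have hX2 : X₂ ≤ X := (le_max_right _ _).trans ((le_max_left _ _).trans hX)
  have hX3 : X₃ ≤ X := (le_max_right _ _).trans hX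
  have hQ : QT K₀ 1 R ℓ H X := hpar X hX3 R ℓ H hPT
  have hτ0 : |τ| ≤ K₀ := hτ.trans (by linarith)
  have hPY : PY R (R ^ ℓ) X (YT R ℓ X τ) := hQ.py τ hτ0
  have hR2 : 2 * R ≤ R ^ ℓ := hQ.R2
  set Y : ℝ := YT R ℓ X τ with hY
  set F : ℝ := FT R ℓ X with hF
  have hFG : FG R (R ^ ℓ) X = F := rfl
  have hF0 : 0 < F := hQ.F0
  have hX0 : (0 : ℝ) < X := by
    have := hQ.X64
    exact_mod_cast (by omega : 0 < X)
  have hR3 : (3 : ℝ) ≤ R := by exact_mod_cast hQ.R3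
  have hR0 : (0 : ℝ) < R := by linarith
  have hP0 : (0 : ℝ) < (R : ℝ) ^ ℓ := pow_pos hR0 ℓ
  have hH2 := hQ.H2
  have hH1 : 1 ≤ H := by omega
  have hH1r : (1 : ℝ) ≤ H := by exact_mod_cast hH1
  have hH0 : (0 : ℝ) < H := by linarith
  have hlX1 : 1 ≤ Real.log X := hQ.lX
  have hlX0 : 0 < Real.log X := by linarith
  have hlR0 : 0 < Real.log R := by linarith [hQ.lR]
  have hlP0 : 0 < Real.log ((R ^ ℓ : ℕ) : ℝ) := by linarith [hQ.lR2]
  have hK₀K : K + T ^ 2 ≤ K₀ := by linarith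
  obtain ⟨hK₀H, hdT, hdX, hdL⟩ := W3_par H X K T K₀ (Real.log X) hX0 hH1r hK1 hT4 hK₀K hQ.KH2 hlX0.le hQ.KL
  set d : ℝ := (H : ℝ) / (K * X) with hd
  have hd0 : 0 < d := by positivity
  have hτ1 : -Kt ≤ τ ∧ τ ≤ Kt := abs_le.1 hτ
  have hKE : K ≤ K₀ * Real.exp τ := by
    have h1 : K * Real.exp Kt ≤ K₀ := by linarith
    calc K = (K * Real.exp Kt) * Real.exp (-Kt) := by
          rw [mul_assoc, ← Real.exp_add, add_neg_cancel, Real.exp_zero, mul_one]
      _ ≤ K₀ * Real.exp (-Kt) := mul_le_mul_of_nonneg_right h1 (Real.exp_pos _).le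
      _ ≤ K₀ * Real.exp τ := mul_le_mul_of_nonneg_left (Real.exp_le_exp.2 hτ1.1) (by linarith)
  have hYe : Y = (X : ℝ) / ((R : ℝ) * (R : ℝ) ^ ℓ) * Real.exp τ := by
    rw [hY]
    unfold YT YG
    push_cast
    rfl
  have hll : 0 ≤ ll X := by
    unfold ll
    exact Real.log_nonneg hlX1
  have hdY : Real.log X * (ll X) ^ 3 ≤ d * (R : ℝ) ^ ℓ * Y := by
    rw [hYe, hd]
    exact W3_core R ((R : ℝ) ^ ℓ) X K K₀ H (Real.exp τ) _ hR0 hP0 hX0 hK0 (Real.exp_pos _) hKE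
      (mul_nonneg hlX0.le (pow_nonneg hll 3)) hQ.core
  have hχ : ∀ χ : DirichletCharacter ℂ W,
      ∫ x : ℝ, ‖XX3 χ R (R ^ ℓ) X Y d x - XX3 χ R (R ^ ℓ) X Y (1 / T ^ 2) x‖ ^ 2 ≤ η * F ^ 2 := by
    intro χ
    have h1 := hcore X hX1 χ χ χ R ℓ hPT.lo1 hPT.up1 hPT.lo2 hPT.up2 Y d hPY.Ylow hPY.Yup hd0 hdX hdY hdL
    have h1' : ∫ t in {t : ℝ | T₀ ≤ |t|}, Real.exp (-(d * t) ^ 2) * ‖PP3 χ R (R ^ ℓ) X Y t‖ ^ 2
        ≤ η / 2 * (FG R (R ^ ℓ) X) ^ 2 := by
      refine h1.trans (le_of_eq ?_)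
      unfold FG
      push_cast
      rfl
    have h2 := hchar R (R ^ ℓ) X Y hPY W χ T₀ T d (η / 2) hT4 hT1 hd0 hdT h1'
    rw [hFG] at h2
    refine h2.trans (mul_le_mul_of_nonneg_right ?_ (by positivity))
    have h3 : C' / T ≤ η / 2 := by
      rw [div_le_iff₀ hη0] at hT2
      rw [div_le_iff₀ hT0]
      linarith
    linarith
  obtain ⟨hEi, hEη⟩ := class_window_3 W v hW hv R (R ^ ℓ) X Y d (1 / T ^ 2) (η * F ^ 2) (Real.log X) hd0 hl0 hR2 hχ
  have hsq : Real.sqrt (2 * (η * F ^ 2)) = s * F := by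
    rw [← mul_assoc, Real.sqrt_mul (by positivity), Real.sqrt_sq hF0.le, hsη]
  rw [hsq] at hEη
  set c' : ℝ := ε' * F / Nat.totient W with hc'
  have hc0 : 0 ≤ c' := by positivity
  set B : ℝ → ℝ := fun x => Real.sqrt (2 * π) / (Nat.totient W * Real.log X) * A3 R (R ^ ℓ) Y x with hB
  have hlongx : ∀ x : ℝ, |x - Real.log X| ≤ 1 → |XV3 W v R (R ^ ℓ) X Y (1 / T ^ 2) x - B x| ≤ c' :=
    fun x hx => hlong X hX2 R ℓ H hPT τ hτ v hv x hx
  set E : ℝ → ℝ := fun x => |XV3 W v R (R ^ ℓ) X Y d x - XV3 W v R (R ^ ℓ) X Y (1 / T ^ 2) x| + c' with hE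
  have hcI : IntegrableOn (fun _ : ℝ => c') (Set.Icc (Real.log X - 1) (Real.log X + 1)) :=
    integrableOn_const (by simp)
  have hEint : ∫ x in Set.Icc (Real.log X - 1) (Real.log X + 1), E x ≤ s * F + 2 * c' := by
    have e1 : ∫ x in Set.Icc (Real.log X - 1) (Real.log X + 1), E x =
        (∫ x in Set.Icc (Real.log X - 1) (Real.log X + 1),
          |XV3 W v R (R ^ ℓ) X Y d x - XV3 W v R (R ^ ℓ) X Y (1 / T ^ 2) x|) +
        ∫ _x in Set.Icc (Real.log X - 1) (Real.log X + 1), c' := integral_add hEi hcI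
    have e2 : ∫ _x in Set.Icc (Real.log X - 1) (Real.log X + 1), c' = 2 * c' := by
      rw [setIntegral_const, Real.volume_real_Icc_of_le (by linarith), smul_eq_mul]
      ring
    rw [e1, e2]
    linarith
  -- the bounds of `B`
  obtain ⟨hAA1, hAA2⟩ := hAA R (R ^ ℓ) Y (by have := hQ.R3; omega) hR2
  set κ : ℝ := Real.sqrt (2 * π) / (Nat.totient W * Real.log X) with hκ
  have hκ0 : 0 ≤ κ := by positivity
  set B₁ : ℝ := 3 * C₁ * F / Nat.totient W with hB₁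
  have hB₁0 : 0 ≤ B₁ := by positivity
  have hπ : Real.sqrt (2 * π) ≤ 3 := by
    rw [Real.sqrt_le_left (by norm_num)]
    have := Real.pi_lt_four
    linarith
  have hκB : κ * (C₁ / (Real.log R * Real.log ((R ^ ℓ : ℕ) : ℝ))) ≤ B₁ := by
    have e1 : κ * (C₁ / (Real.log R * Real.log ((R ^ ℓ : ℕ) : ℝ))) = Real.sqrt (2 * π) * (C₁ * F / Nat.totient W) := by
      rw [hκ, hF]
      unfold FT FG
      field_simp
    have e2 : B₁ = 3 * (C₁ * F / Nat.totient W) := by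
      rw [hB₁]
      ring
    rw [e1, e2]
    exact mul_le_mul_of_nonneg_right hπ (by positivity)
  have hBbd : ∀ x, 0 ≤ B x ∧ B x ≤ B₁ := by
    intro x
    refine ⟨mul_nonneg hκ0 (hAA1 x).1, ?_⟩
    exact (mul_le_mul_of_nonneg_left (hAA1 x).2 hκ0).trans hκB
  have hBlip : ∀ x y, |B x - B y| ≤ B₁ * |x - y| := by
    intro x y
    have e1 : B x - B y = κ * (A3 R (R ^ ℓ) Y x - A3 R (R ^ ℓ) Y y) := by
      simp only [hB]
      ring
    rw [e1, abs_mul, abs_of_nonneg hκ0]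
    calc κ * |A3 R (R ^ ℓ) Y x - A3 R (R ^ ℓ) Y y|
        ≤ κ * (C₁ / (Real.log R * Real.log ((R ^ ℓ : ℕ) : ℝ)) * |x - y|) :=
          mul_le_mul_of_nonneg_left (hAA2 x y) hκ0
      _ = κ * (C₁ / (Real.log R * Real.log ((R ^ ℓ : ℕ) : ℝ))) * |x - y| := by ring
      _ ≤ B₁ * |x - y| := mul_le_mul_of_nonneg_right hκB (abs_nonneg _)
  set θ : ℝ := ε * F / Nat.totient W with hθ
  have hθ0 : 0 < θ := by positivity
  have h6 : 6 * B₁ * H ≤ θ * X := by
    have e1 : 6 * B₁ * H = (18 * C₁ * H) * (F / Nat.totient W) := by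
      rw [hB₁]
      ring
    have e2 : θ * X = (ε * X) * (F / Nat.totient W) := by
      rw [hθ]
      ring
    rw [e1, e2]
    refine mul_le_mul_of_nonneg_right ?_ (by positivity)
    have h1 : 18 * C₁ / ε * H ≤ X := by
      refine le_trans ?_ hK₀H
      exact mul_le_mul_of_nonneg_right (by linarith) hH0.le
    rw [div_mul_eq_mul_div, div_le_iff₀ hε] at h1
    linarith
  -- the masses
  have hM : ∑ p ∈ (SS R (R ^ ℓ) ×ˢ QS X).filter (fun p => p.1 * p.2 ≡ v [MOD W]),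
      om Y p.2 / ((p.1 * p.2 : ℕ) : ℝ) ≤ C₂ * F := by
    refine le_trans (Finset.sum_le_sum_of_subset_of_nonneg (Finset.filter_subset _ _) fun p _ _ => ?_) ?_
    · exact div_nonneg (Real.exp_pos _).le (Nat.cast_nonneg _)
    · rw [Finset.sum_product]
      simp only [Nat.cast_mul]
      exact hma R (R ^ ℓ) X Y hPY
  have hM' : ∑ p ∈ (SS R (R ^ ℓ) ×ˢ QS X).filter (fun p => p.1 * p.2 ≡ v [MOD W]),
      om Y p.2 ≤ C₃ * F * X := by
    refine le_trans (Finset.sum_le_sum_of_subset_of_nonneg (Finset.filter_subset _ _) fun p _ _ => ?_) ?_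
    · exact (Real.exp_pos _).le
    · rw [Finset.sum_product]
      refine (hmu R (R ^ ℓ) X Y hPY).trans ?_
      have e1 : (R : ℝ) * ((R ^ ℓ : ℕ) : ℝ) * Y = X * Real.exp τ := by
        rw [hYe]
        push_cast
        field_simp
      rw [hFG, e1, hC₃]
      calc C₄ * F * (X * Real.exp τ) ≤ C₄ * F * (X * Real.exp Kt) := by
            refine mul_le_mul_of_nonneg_left ?_ (by positivity)
            exact mul_le_mul_of_nonneg_left (Real.exp_le_exp.2 hτ1.2) hX0.le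
        _ = C₄ * Real.exp Kt * F * X := by ring
  have key := hwin (ℕ × ℕ) ((SS R (R ^ ℓ) ×ˢ QS X).filter (fun p => p.1 * p.2 ≡ v [MOD W]))
    (fun p => p.1 * p.2) (fun p => om Y p.2) H X K B₁ (s * F + 2 * c') (C₂ * F) (C₃ * F) θ
    B E (fun p hp => W3_one_le hR2 (Finset.mem_filter.1 hp).1)
    (fun p _ => (Real.exp_pos _).le) hH1 hQ.XH hK1 hθ0 hB₁0
    (fun x => add_nonneg (abs_nonneg _) hc0) (hEi.add hcI) hEint hM hM' hBbd hBlip h6 ?_
  · refine le_trans ?_ (le_trans key ?_)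
    · refine Nat.cast_le.2 (Finset.card_le_card fun m hm => ?_)
      rw [Finset.mem_filter] at hm ⊢
      refine ⟨hm.1, ?_⟩
      have h2 := hm.2
      simp only [fT] at h2
      rw [sum_fS] at h2
      have h3 : ε * (H * F) / Nat.totient W = θ * H := by
        rw [hθ]
        ring
      have h4 : (H : ℝ) / (Nat.totient W * Real.log X) * A3 R (R ^ ℓ) Y (Real.log m) =
          H / Real.sqrt (2 * π) * B (Real.log m) := by
        simp only [hB, hκ]
        have hpi : Real.sqrt (2 * π) ≠ 0 := by positivity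
        field_simp
      rw [h3, h4] at h2
      exact h2
    · have h5 : 5 * C * (Nat.totient W : ℝ) * C₂ * H ≤ ε * δ * X := by
        have h1 : 5 * C * (Nat.totient W : ℝ) * C₂ / (ε * δ) * H ≤ X := by
          refine le_trans ?_ hK₀H
          exact mul_le_mul_of_nonneg_right (by linarith) hH0.le
        rw [div_mul_eq_mul_div, div_le_iff₀ (by positivity)] at h1
        linarith
      have h5' : 5 * C * (Nat.totient W : ℝ) * C₂ ≤ ε * δ * H := by
        have h1 : 5 * C * (Nat.totient W : ℝ) * C₂ / (ε * δ) ≤ H := by linarith [hQ.KH]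
        rw [div_le_iff₀ (by positivity)] at h1
        linarith
      exact W3_num C (Nat.totient W) ε δ s ε' K C₂ C₃ F H X hC0 hφ hε hδ hF0 hH0 hX0 hK0 hs1 hε'1 hK3 h5 h5'
  · intro x hx
    have h1 : |x - Real.log X| ≤ 1 := by
      rw [abs_le]
      constructor
      · linarith [hx.1]
      · linarith [hx.2]
    have h4 := W3_sum W v R (R ^ ℓ) X Y d x
    rw [h4]
    calc |XV3 W v R (R ^ ℓ) X Y d x - B x|
        = |(XV3 W v R (R ^ ℓ) X Y d x - XV3 W v R (R ^ ℓ) X Y (1 / T ^ 2) x) + (XV3 W v R (R ^ ℓ) X Y (1 / T ^ 2) x - B x)| := by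
          congr 1
          ring
      _ ≤ |XV3 W v R (R ^ ℓ) X Y d x - XV3 W v R (R ^ ℓ) X Y (1 / T ^ 2) x| + |XV3 W v R (R ^ ℓ) X Y (1 / T ^ 2) x - B x| :=
          abs_add_le _ _
      _ ≤ _ := add_le_add le_rfl (hlongx x h1)

end Pool.Agent.Lib.MP_bae66e_nt.TF
end
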