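import Pool.Agent.Lib.MP_bae66e_nt.Mg.G032
import Pool.Agent.Lib.MP_bae66e_nt.Mg.G004

section

/-!
# Row V1: the function `f` for `S = IS R` (port of E3/A2a, E3/A2b)
-/

set_option autoImplicit false

namespace Pool.Agent.Lib.MP_bae66e_nt.E2

open Finset MeasureTheory Real
open Pool.Agent.E3
open Pool.Agent.Lib.MP_bae66e_nt.AP3 (prI mem_prI)

private theorem V1_mem {R s : ℕ} (hs : s ∈ IS R) : s.Prime ∧ R < s ∧ s ≤ 2 * R := by
  have h := mem_prI.mp hs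
  exact ⟨h.2, h.1.1, h.1.2⟩

/-- PROOF. A term `s q = n` has `s ≥ 1` and `q > Nat.sqrt X`. -/
theorem fe_small (R X n : ℕ) (Y : ℝ) (hn : n ≤ Nat.sqrt X) : fS (IS R) Y X n = 0 := by
  unfold fS
  refine Finset.sum_eq_zero fun s hs => Finset.sum_eq_zero fun q hq => ?_
  rw [if_neg]
  intro h
  have h1 := (V1_mem hs).1.pos
  have h2 := (mem_prI.mp hq).1.1
  have h3 : q ≤ s * q := Nat.le_mul_of_pos_left q h1
  omega

/-- PROOF. `s ≤ 2 R`, `q ≤ X²`. -/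
theorem fe_big (R X n : ℕ) (Y : ℝ) (hn : 2 * R * X ^ 2 + 1 ≤ n) : fS (IS R) Y X n = 0 := by
  unfold fS
  refine Finset.sum_eq_zero fun s hs => Finset.sum_eq_zero fun q hq => ?_
  rw [if_neg]
  intro h
  have h3 := (mem_prI.mp hq).1.2
  have h4 : s * q ≤ (2 * R) * X ^ 2 := Nat.mul_le_mul (V1_mem hs).2.2 h3
  omega

private theorem V1_inj {R X s s' q q' : ℕ} (hX : 2 * R ≤ Nat.sqrt X)
    (hs' : s' ∈ IS R) (hq : q ∈ QS X) (hq' : q' ∈ QS X)
    (h : s * q = s' * q') : s = s' ∧ q = q' := by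
  have hqp := mem_prI.mp hq
  have hqp' := mem_prI.mp hq'
  obtain ⟨hr1, -, h1⟩ := V1_mem hs'
  have hdvd : q ∣ s' * q' := h ▸ Dvd.intro_left s rfl
  have h3 : q = q' := by
    rcases (Nat.Prime.dvd_mul hqp.2).mp hdvd with h' | h'
    · exfalso
      have := Nat.le_of_dvd hr1.pos h'
      omega
    · exact (Nat.prime_dvd_prime_iff_eq hqp.2 hqp'.2).mp h'
  subst h3
  exact ⟨Nat.eq_of_mul_eq_mul_right hqp.2.pos h, rfl⟩

/-- PROOF. `n = s q = s' q'`, all `s ≤ 2 R ≤ Nat.sqrt X < q, q'`: the prime `q` divides `s' q'`, so `q = q'`, `s = s'`. At most one pair contributes, and `om ≤ 1`. -/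
theorem fe_le_one (R X n : ℕ) (Y : ℝ) (hX : 2 * R ≤ Nat.sqrt X) : fS (IS R) Y X n ≤ 1 := by
  unfold fS
  rw [← Finset.sum_product', ← Finset.sum_filter]
  set F := (IS R ×ˢ QS X).filter (fun x : ℕ × ℕ => x.1 * x.2 = n) with hF
  have hcard : #F ≤ 1 := by
    rw [Finset.card_le_one]
    intro a ha b hb
    rw [hF, Finset.mem_filter, Finset.mem_product] at ha hb
    have := V1_inj hX hb.1.1 ha.1.2 hb.1.2 (ha.2.trans hb.2.symm)
    exact Prod.ext this.1 this.2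
  calc ∑ x ∈ F, om Y x.2 ≤ ∑ x ∈ F, (1 : ℝ) := Finset.sum_le_sum fun x _ => (om_bounds Y x.2).2
    _ = (#F : ℝ) := by rw [Finset.sum_const, nsmul_eq_mul, mul_one]
    _ ≤ 1 := by exact_mod_cast hcard

private theorem V1_count (N m : ℕ) (z : ℝ) (hz : 0 ≤ z) :
    ∑ n ∈ range N, (if m = n then z else 0) ≤ z := by
  rw [Finset.sum_ite_eq]
  split_ifs
  · exact le_rfl
  · exact hz

/-- PROOF. As `cc_zero_sum` (E3/A2a). -/
theorem cce_zero_sum (R X N : ℕ) (Y : ℝ) (hX : 2 * R ≤ Nat.sqrt X) :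
    cc (fS (IS R) Y X) N 0 ≤ (#(IS R) : ℝ) * ∑ q ∈ QS X, om Y q := by
  unfold cc
  calc ∑ n ∈ range N, fS (IS R) Y X n * fS (IS R) Y X (n + 0)
      ≤ ∑ n ∈ range N, fS (IS R) Y X n := by
        refine Finset.sum_le_sum fun n _ => ?_
        have h0 := fS_nonneg (IS R) Y X n
        have h1 := fe_le_one R X n Y hX
        rw [add_zero]
        nlinarith
    _ = ∑ s ∈ IS R, ∑ q ∈ QS X, ∑ n ∈ range N, (if s * q = n then om Y q else 0) := by
        unfold fS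
        rw [Finset.sum_comm]
        refine Finset.sum_congr rfl fun s _ => ?_
        rw [Finset.sum_comm]
    _ ≤ ∑ s ∈ IS R, ∑ q ∈ QS X, om Y q :=
        Finset.sum_le_sum fun s _ => Finset.sum_le_sum fun q _ =>
          V1_count N (s * q) (om Y q) (om_bounds Y q).1.le
    _ = (#(IS R) : ℝ) * ∑ q ∈ QS X, om Y q := by
        rw [Finset.sum_const, nsmul_eq_mul]

private theorem V1_inner (Y : ℝ) (X s' m : ℕ) (hs' : 0 < s') :
    ∑ q' ∈ QS X, (if s' * q' = m then om Y q' else 0) ≤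
      if s' ∣ m ∧ (m / s').Prime then (1 : ℝ) else 0 := by
  by_cases h : ∃ q' ∈ QS X, s' * q' = m
  · obtain ⟨q0, hq0, h0⟩ := h
    have h1 : m / s' = q0 := by rw [← h0]; exact Nat.mul_div_cancel_left q0 hs'
    have h2 : s' ∣ m ∧ (m / s').Prime := ⟨⟨q0, h0.symm⟩, by rw [h1]; exact (mem_prI.mp hq0).2⟩
    rw [if_pos h2, Finset.sum_eq_single_of_mem q0 hq0]
    · rw [if_pos h0]
      exact (om_bounds Y q0).2
    · intro q' _ hne
      rw [if_neg]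
      intro h3
      exact hne (Nat.eq_of_mul_eq_mul_left hs' (h3.trans h0.symm))
  · rw [Finset.sum_eq_zero]
    · split_ifs <;> norm_num
    · intro q' hq'
      rw [if_neg]
      intro h3
      exact h ⟨q', hq', h3⟩

/-- PROOF. As `cc_pair_sum` (E3/A2a). -/
theorem cce_pair_sum (R X N d : ℕ) (Y : ℝ) :
    cc (fS (IS R) Y X) N d ≤ ∑ s ∈ IS R, ∑ s' ∈ IS R,
      ∑ q ∈ (QS X).filter (fun q => s' ∣ s * q + d ∧ ((s * q + d) / s').Prime), om Y q := by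
  unfold cc
  have hstep : ∀ n ∈ range N, fS (IS R) Y X n * fS (IS R) Y X (n + d) ≤
      ∑ s ∈ IS R, ∑ s' ∈ IS R, ∑ q ∈ QS X,
        (if s * q = n then (if s' ∣ s * q + d ∧ ((s * q + d) / s').Prime then om Y q else 0) else 0) := by
    intro n _
    have h1 : fS (IS R) Y X (n + d) ≤
        ∑ s' ∈ IS R, (if s' ∣ n + d ∧ ((n + d) / s').Prime then (1 : ℝ) else 0) := by
      unfold fS
      exact Finset.sum_le_sum fun s' hs' => V1_inner Y X s' (n + d) (V1_mem hs').1.pos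
    refine (mul_le_mul_of_nonneg_left h1 (fS_nonneg (IS R) Y X n)).trans (le_of_eq ?_)
    rw [Finset.mul_sum]
    unfold fS
    refine Eq.trans ?_ Finset.sum_comm
    refine Finset.sum_congr rfl fun s' _ => ?_
    rw [Finset.sum_mul]
    refine Finset.sum_congr rfl fun s _ => ?_
    rw [Finset.sum_mul]
    refine Finset.sum_congr rfl fun q _ => ?_
    by_cases h2 : s * q = n
    · rw [if_pos h2, if_pos h2, h2]
      split_ifs
      · rw [mul_one]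
      · rw [mul_zero]
    · rw [if_neg h2, if_neg h2, zero_mul]
  refine (Finset.sum_le_sum hstep).trans ?_
  rw [Finset.sum_comm]
  refine Finset.sum_le_sum fun s _ => ?_
  rw [Finset.sum_comm]
  refine Finset.sum_le_sum fun s' _ => ?_
  rw [Finset.sum_comm, Finset.sum_filter]
  refine Finset.sum_le_sum fun q _ => V1_count N (s * q) _ ?_
  split_ifs
  · exact (om_bounds Y q).1.le
  · exact le_rfl

/-- PROOF. `cce_zero_sum`, `card_SS_le` (E3/A2b, its first part), `sum_om_le` (E3/A2b). -/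
theorem cce_zero_le : ∃ C : ℝ, 1 ≤ C ∧ ∀ (R X N : ℕ) (Y : ℝ), 2 ≤ R → 2 * R ≤ Nat.sqrt X → 16 ≤ X →
    (X : ℝ) ^ (0.99 : ℝ) ≤ Y → Y ≤ X →
    cc (fS (IS R) Y X) N 0 ≤ C * (R * Y / (Real.log R * Real.log X)) := by
  obtain ⟨C1, hC1, h1, -⟩ := card_SS_le
  obtain ⟨C2, hC2, h2⟩ := sum_om_le
  refine ⟨C1 * C2, by nlinarith, ?_⟩
  intro R X N Y hR1 hR2 hX hY1 hY2
  have hlog1 : 0 < Real.log R := Real.log_pos (by exact_mod_cast (by omega : 1 < R))
  have hlogX : 0 < Real.log X := Real.log_pos (by exact_mod_cast (by omega : 1 < X))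
  have h3 := h1 R hR1
  have h4 := h2 X Y hX hY1 hY2
  have h5 : 0 ≤ ∑ q ∈ QS X, om Y q := Finset.sum_nonneg fun q _ => (om_bounds Y q).1.le
  refine (cce_zero_sum R X N Y hR2).trans ?_
  calc (#(IS R) : ℝ) * ∑ q ∈ QS X, om Y q
      ≤ (C1 * R / Real.log R) * (C2 * (Y / Real.log X)) :=
        mul_le_mul h3 h4 h5 ((Nat.cast_nonneg _).trans h3)
    _ = C1 * C2 * (R * Y / (Real.log R * Real.log X)) := by
        field_simp

end Pool.Agent.Lib.MP_bae66e_nt.E2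
end

section

/-!
# Row V2: the correlations of `f` (port of E3/A4, E3/A5)
-/

set_option autoImplicit false

namespace Pool.Agent.Lib.MP_bae66e_nt.E2

open Finset MeasureTheory Real
open Pool.Agent.E3
open Pool.Agent.Lib.MP_bae66e_nt.AP3 (prI mem_prI)

/-- PROOF. `Fr_mul_le`, `Fr_prime_le` for the two primes `s`, `s'`: `Fr (s s' d) ≤ 4 Fr d`. -/
theorem Fr_IS_le (R s s' d : ℕ) (hs : s ∈ IS R) (hs' : s' ∈ IS R) (hd : 1 ≤ d) :
    (Fr (s * s' * d)) ^ 2 ≤ 16 * (Fr d) ^ 2 := by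
  have p1 := (mem_prI.mp hs).2
  have p2 := (mem_prI.mp hs').2
  have hd0 : d ≠ 0 := by omega
  have hpos : ∀ n : ℕ, 0 ≤ Fr n := fun n => by unfold Fr; positivity
  have key : ∀ p m : ℕ, p.Prime → m ≠ 0 → Fr (p * m) ≤ 2 * Fr m := by
    intro p m hp hm
    refine (Fr_mul_le p m hp.ne_zero hm).trans ?_
    exact mul_le_mul_of_nonneg_right (Fr_prime_le p hp) (hpos m)
  have e : s * s' * d = s * (s' * d) := by ring
  have h2 := key s' d p2 hd0
  have h1 := key s (s' * d) p1 (mul_ne_zero p2.ne_zero hd0)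
  have h5 : Fr (s * s' * d) ≤ 4 * Fr d := by
    rw [e]
    linarith
  calc (Fr (s * s' * d)) ^ 2 ≤ (4 * Fr d) ^ 2 :=
        pow_le_pow_left₀ (hpos _) h5 2
    _ = 16 * (Fr d) ^ 2 := by ring

private theorem V2_term (R d : ℕ) (hR : 2 ≤ R) {a a' : ℕ} (ha : a ∈ IS R) (ha' : a' ∈ IS R) :
    (if Nat.gcd a a' ∣ d then (Nat.gcd a a' : ℝ) / a' else 0)
      ≤ 1 / (R : ℝ) + (if a = a' ∧ a ∣ d then (1 : ℝ) else 0) := by
  have ma := mem_prI.mp ha
  have ma' := mem_prI.mp ha'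
  have hR1 : (0 : ℝ) < R := by exact_mod_cast (by omega : 0 < R)
  have hnn : (0 : ℝ) ≤ (if a = a' ∧ a ∣ d then (1 : ℝ) else 0) := by
    split_ifs
    · exact zero_le_one
    · exact le_rfl
  have hnn1 : (0 : ℝ) ≤ 1 / (R : ℝ) := by positivity
  have ha'0 : (0 : ℝ) < a' := by exact_mod_cast ma'.2.pos
  by_cases hg : Nat.gcd a a' ∣ d
  swap
  · rw [if_neg hg]
    linarith
  rw [if_pos hg]
  by_cases haa : a = a'
  · subst haa
    rw [Nat.gcd_self] at hg ⊢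
    rw [if_pos ⟨rfl, hg⟩, div_self ha'0.ne']
    linarith
  · have c4 : Nat.Coprime a a' := (Nat.coprime_primes ma.2 ma'.2).2 haa
    rw [c4]
    have h2 : (1 : ℝ) / (a' : ℝ) ≤ 1 / (R : ℝ) :=
      one_div_le_one_div_of_le hR1 (by exact_mod_cast ma'.1.1.le)
    push_cast
    linarith

/-- PROOF. For `s ≠ s'` the gcd is `1` and the term is `1/s' ≤ 1/R`: together `≤ (#IS R)²/R ≤ C² R/(log R)²`. For `s = s'` the term is `1` if `s ∣ d`, else `0`:
together `≤ #{s ∣ d} ≤ log d/log R ≤ R/(log R)²` (`card_dvd_le`, E3/A4). -/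
theorem sum_gcd_e : ∃ C : ℝ, 1 ≤ C ∧ ∀ R d : ℕ, 2 ≤ R → 1 ≤ d → Real.log d * Real.log R ≤ R →
    ∑ s ∈ IS R, ∑ s' ∈ IS R, (if Nat.gcd s s' ∣ d then (Nat.gcd s s' : ℝ) / s' else 0)
      ≤ C * (R / (Real.log R) ^ 2) := by
  obtain ⟨C, hC, hcard, -⟩ := card_SS_le
  refine ⟨C ^ 2 + 1, by nlinarith [sq_nonneg C], ?_⟩
  intro R d hR hd hlog
  have hR1 : (2 : ℝ) ≤ R := by exact_mod_cast hR
  have hl1 : 0 < Real.log R := Real.log_pos (by linarith)
  have n1 := hcard R hR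
  set m1 : ℝ := (#(IS R) : ℝ) with hm1
  have m10 : 0 ≤ m1 := Nat.cast_nonneg _
  have h1 : ∑ a ∈ IS R, ∑ a' ∈ IS R, (if Nat.gcd a a' ∣ d then (Nat.gcd a a' : ℝ) / a' else 0)
      ≤ ∑ a ∈ IS R, ∑ a' ∈ IS R,
        (1 / (R : ℝ) + (if a = a' ∧ a ∣ d then (1 : ℝ) else 0)) :=
    Finset.sum_le_sum fun a ha => Finset.sum_le_sum fun a' ha' => V2_term R d hR ha ha'
  refine h1.trans ?_
  have h2 : ∑ a ∈ IS R, ∑ a' ∈ IS R,
        (1 / (R : ℝ) + (if a = a' ∧ a ∣ d then (1 : ℝ) else 0))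
      = m1 ^ 2 / (R : ℝ) + (#((IS R).filter (fun r => r ∣ d)) : ℝ) := by
    have e1 : ∀ a ∈ IS R, ∑ a' ∈ IS R,
        (1 / (R : ℝ) + (if a = a' ∧ a ∣ d then (1 : ℝ) else 0))
        = m1 / (R : ℝ) + (if a ∣ d then (1 : ℝ) else 0) := by
      intro a ha
      have e3 : ∀ a' ∈ IS R,
          (1 / (R : ℝ) + (if a = a' ∧ a ∣ d then (1 : ℝ) else 0))
          = 1 / (R : ℝ) + (if a = a' then (if a ∣ d then (1 : ℝ) else 0) else 0) := by
        intro a' _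
        by_cases h : a = a'
        · by_cases h' : a ∣ d
          · rw [if_pos ⟨h, h'⟩, if_pos h, if_pos h']
          · rw [if_neg (fun hh => h' hh.2), if_pos h, if_neg h']
        · rw [if_neg (fun hh => h hh.1), if_neg h]
      rw [Finset.sum_congr rfl e3, Finset.sum_add_distrib, Finset.sum_const, nsmul_eq_mul,
        Finset.sum_ite_eq, if_pos ha, ← hm1]
      ring
    rw [Finset.sum_congr rfl e1, Finset.sum_add_distrib, Finset.sum_const, nsmul_eq_mul,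
      ← Finset.sum_filter, Finset.sum_const, nsmul_eq_mul, ← hm1]
    ring
  rw [h2]
  have hA : m1 ^ 2 / (R : ℝ) ≤ C ^ 2 * (R / (Real.log R) ^ 2) := by
    have a1 : m1 ^ 2 ≤ (C * R / Real.log R) ^ 2 := pow_le_pow_left₀ m10 n1 2
    calc m1 ^ 2 / (R : ℝ) ≤ (C * R / Real.log R) ^ 2 / (R : ℝ) :=
          div_le_div_of_nonneg_right a1 (by positivity)
      _ = _ := by
          field_simp
  have hB : (#((IS R).filter (fun r => r ∣ d)) : ℝ) ≤ R / (Real.log R) ^ 2 := by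
    have a0 := card_dvd_le R d hR hd
    rw [le_div_iff₀ (by positivity)]
    calc (#((IS R).filter (fun r => r ∣ d)) : ℝ) * (Real.log R) ^ 2
        = ((#((IS R).filter (fun r => r ∣ d)) : ℝ) * Real.log R) * Real.log R := by ring
      _ ≤ Real.log d * Real.log R := mul_le_mul_of_nonneg_right a0 hl1.le
      _ ≤ R := hlog
  calc m1 ^ 2 / (R : ℝ) + (#((IS R).filter (fun r => r ∣ d)) : ℝ)
      ≤ C ^ 2 * (R / (Real.log R) ^ 2) + R / (Real.log R) ^ 2 := add_le_add hA hB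
    _ = (C ^ 2 + 1) * (R / (Real.log R) ^ 2) := by ring

/-- PROOF. As `cc_le` (E3/A5): `cce_pair_sum`, `pair_om`, `Fr_IS_le`, `sum_gcd_e`. -/
theorem cce_le (hSL : SLP) : ∃ c C : ℝ, 0 < c ∧ c ≤ 1 ∧ 1 ≤ C ∧ ∃ z₀ : ℕ, 4 ≤ z₀ ∧
    ∀ (R X N d : ℕ) (Y : ℝ), z₀ ≤ Nat.sqrt X → 2 ≤ R → 1 ≤ d → 0 < Y →
      Real.log d * Real.log R ≤ R → ((2 * R : ℕ) : ℝ) ≤ (Nat.sqrt X : ℝ) ^ c →
      cc (fS (IS R) Y X) N d
        ≤ C * ((R * Y) * (1 / (Real.log R * Real.log X)) ^ 2) * (Fr d) ^ 2 := by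
  obtain ⟨c, C₀, hc0, hc1, hC0, z₀, hz4, hpair⟩ := pair_om hSL
  obtain ⟨C₁, hC1, hsum⟩ := sum_gcd_e
  refine ⟨c, 16 * C₀ * C₁, hc0, hc1, by nlinarith, z₀, hz4, ?_⟩
  intro R X N d Y hz h2 hd hY hlog hsz
  have hK : 0 ≤ 16 * C₀ * (Y / (Real.log X) ^ 2) * (Fr d) ^ 2 := by positivity
  have hterm : ∀ s ∈ IS R, ∀ s' ∈ IS R,
      ∑ q ∈ (QS X).filter (fun q => s' ∣ s * q + d ∧ ((s * q + d) / s').Prime), om Y q ≤
        16 * C₀ * (Y / (Real.log X) ^ 2) * (Fr d) ^ 2 *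
          (if Nat.gcd s s' ∣ d then (Nat.gcd s s' : ℝ) / s' else 0) := by
    intro s hs s' hs'
    have ms := mem_prI.mp hs
    have ms' := mem_prI.mp hs'
    have a3 : (s : ℝ) ≤ (Nat.sqrt X : ℝ) ^ c := le_trans (by exact_mod_cast ms.1.2) hsz
    have b3 : (s' : ℝ) ≤ (Nat.sqrt X : ℝ) ^ c := le_trans (by exact_mod_cast ms'.1.2) hsz
    refine (hpair X s s' d Y hz ms.2.pos ms'.2.pos hd hY a3 b3).trans ?_
    by_cases hg : Nat.gcd s s' ∣ d
    · rw [if_pos hg, if_pos hg]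
      have hF := Fr_IS_le R s s' d hs hs' hd
      have hA : 0 ≤ C₀ * (Nat.gcd s s' * Y / (s' * (Real.log X) ^ 2)) := by positivity
      calc C₀ * (Nat.gcd s s' * Y / (s' * (Real.log X) ^ 2)) * (Fr (s * s' * d)) ^ 2
          ≤ C₀ * (Nat.gcd s s' * Y / (s' * (Real.log X) ^ 2)) * (16 * (Fr d) ^ 2) :=
            mul_le_mul_of_nonneg_left hF hA
        _ = 16 * C₀ * (Y / (Real.log X) ^ 2) * (Fr d) ^ 2 * ((Nat.gcd s s' : ℝ) / s') := by
            ring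
    · rw [if_neg hg, if_neg hg, mul_zero]
  calc cc (fS (IS R) Y X) N d
      ≤ ∑ s ∈ IS R, ∑ s' ∈ IS R,
        ∑ q ∈ (QS X).filter (fun q => s' ∣ s * q + d ∧ ((s * q + d) / s').Prime), om Y q :=
        cce_pair_sum R X N d Y
    _ ≤ ∑ s ∈ IS R, ∑ s' ∈ IS R, 16 * C₀ * (Y / (Real.log X) ^ 2) * (Fr d) ^ 2 *
          (if Nat.gcd s s' ∣ d then (Nat.gcd s s' : ℝ) / s' else 0) :=
        Finset.sum_le_sum fun s hs => Finset.sum_le_sum fun s' hs' => hterm s hs s' hs'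
    _ = 16 * C₀ * (Y / (Real.log X) ^ 2) * (Fr d) ^ 2 *
          ∑ s ∈ IS R, ∑ s' ∈ IS R,
          (if Nat.gcd s s' ∣ d then (Nat.gcd s s' : ℝ) / s' else 0) := by
        rw [Finset.mul_sum]
        exact Finset.sum_congr rfl fun s _ => by rw [Finset.mul_sum]
    _ ≤ 16 * C₀ * (Y / (Real.log X) ^ 2) * (Fr d) ^ 2 *
          (C₁ * (R / (Real.log R) ^ 2)) :=
        mul_le_mul_of_nonneg_left (hsum R d h2 hd hlog) hK
    _ = 16 * C₀ * C₁ * ((R * Y) * (1 / (Real.log R * Real.log X)) ^ 2) * (Fr d) ^ 2 := by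
        ring

end Pool.Agent.Lib.MP_bae66e_nt.E2
end
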